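import Pool.Agent.MP_9d78a0_co.fb.S2

-- ======== part 0: formerly Pool.Agent.MP_9d78a0_co.fb.S3
section MrgPart0

/-! Bands, combing and irrelevant vertices: definitions and the statements of part 3. -/

set_option autoImplicit false

namespace Pool.Agent.MP_9d78a0_co.fb

open Set Function

section defs

variable {V : Type}

/-- no complete minor on `h` vertices -/
def NoK (h : ℕ) (G : SimpleGraph V) : Prop := ¬ IsMinor (⊤ : SimpleGraph (Fin h)) G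

/-- the two graphs have the same edges at the vertices of `Z` -/
def Agree (G G' : SimpleGraph V) (Z : Set V) : Prop := ∀ z ∈ Z, ∀ x, G'.Adj z x ↔ G.Adj z x

/-- small models can be moved off `Y` in every graph that agrees with `G` at `Z` -/
def Irl (h : ℕ) (G : SimpleGraph V) (Z Y : Set V) : Prop :=
  ∀ (G' : SimpleGraph V) (S : Set V) (k : ℕ) (H : SimpleGraph (Fin k)) (B : Fin k → Set V), k ≤ h →
    Z ⊆ S → (∀ z ∈ Z, ∀ x, G'.Adj z x ↔ G.Adj z x) → Model H G' S B →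
    ∃ B', Model H G' (S \ Y) B'

/-- a region with levels `0, …, s`, rings `D` and `t` rails `ρ`, apart from the apices `A` -/
structure LBand (G : SimpleGraph V) (A W : Set V) (lev : V → ℕ) (D : ℕ → Set V)
    (ρ : ℕ → ℕ → Set V) (s t : ℕ) : Prop where
  dis : Disjoint W A
  le : ∀ v ∈ W, lev v ≤ s
  nbr : ∀ v ∈ W, 0 < lev v → lev v < s → ∀ y, G.Adj v y →
    y ∈ A ∨ (y ∈ W ∧ lev y ≤ lev v + 1 ∧ lev v ≤ lev y + 1)
  up : ∀ u ∈ W, ∀ v ∈ W, G.Adj u v → lev v = lev u + 1 → v ∈ D (lev v)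
  ring : ∀ l ≤ s, Conn G (D l) ∧ ∀ v ∈ D l, v ∈ W ∧ lev v = l
  cell : ∀ i < t, ∀ l ≤ s, Conn G (ρ i l) ∧ ρ i l ⊆ D l
  rdis : ∀ i < t, ∀ j < t, i ≠ j → ∀ l ≤ s, Disjoint (ρ i l) (ρ j l)
  rail : ∀ i < t, ∀ l < s, Touch G (ρ i l) (ρ i (l + 1))

/-- the vertices of levels `a, …, b - 1` -/
def Lv (W : Set V) (lev : V → ℕ) (a b : ℕ) : Set V := {v | v ∈ W ∧ a ≤ lev v ∧ lev v < b}

/-- disjoint connected sets joining given pairs of vertices -/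
structure Lk {k : ℕ} (G : SimpleGraph V) (S : Set V) (σ τ : Fin k → V) (Q : Fin k → Set V) :
    Prop where
  mem : ∀ p, Q p ⊆ S ∧ Conn G (Q p) ∧ σ p ∈ Q p ∧ τ p ∈ Q p
  dis : Pairwise (Disjoint on Q)

/-- a linkage written as sequences of blobs -/
structure Blobs {k : ℕ} (G : SimpleGraph V) (S : Set V) (D : ℕ → Set V) (s : ℕ) (σ τ : Fin k → V)
    (len : Fin k → ℕ) (β : Vx k → Set V) : Prop where
  conn : ∀ v ∈ Vs len, β v ⊆ S ∧ Conn G (β v)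
  dis : ∀ u ∈ Vs len, ∀ v ∈ Vs len, u ≠ v → Disjoint (β u) (β v)
  touch : ∀ p i, i < len p → Touch G (β (p, i)) (β (p, i + 1))
  ends : ∀ p, σ p ∈ β (p, 0) ∧ τ p ∈ β (p, len p)
  kind : ∀ v ∈ Vs len, (∃ l ≤ s, β v ⊆ D l) ∨ ∃ x, β v = {x} ∧ ∀ l ≤ s, x ∉ D l

/-- the vertices of an interval listed upwards or downwards -/
def riv {k : ℕ} (I : Iv k) (d : Bool) (u : ℕ) : Vx k :=
  if d then (I.p, I.lo + u) else (I.p, I.hi - u)

/-- `r` rivers that cross the ranges `[c i, c i + g]`, `i < m`, without returning, and nothing else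
lies at the middle levels -/
structure Rivers {k : ℕ} (len : Fin k → ℕ) (lam : Vx k → ℕ) (s g m : ℕ) (c : ℕ → ℕ) (r : ℕ)
    (I : ℕ → Iv k) (d : ℕ → Bool) : Prop where
  ivs : Ivs len I r
  gap : ∀ i, i + 1 < m → c i + g < c (i + 1)
  rng : ∀ a < r, ∀ v ∈ (I a).set, 0 < lam v ∧ lam v < s
  pos : 0 < c 0 ∧ c (m - 1) + g < s
  first : ∀ a < r, lam (riv (I a) (d a) 0) < c 0
  last : ∀ a < r, c (m - 1) + g < lam (riv (I a) (d a) ((I a).hi - (I a).lo))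
  only : ∀ v ∈ Vs len, c 0 + g < lam v → lam v < c (m - 1) → ∃ a < r, v ∈ (I a).set
  ret : ∀ a < r, ∀ i < m, ∀ u u', u < u' → u' ≤ (I a).hi - (I a).lo →
    c i + g < lam (riv (I a) (d a) u) → c i < lam (riv (I a) (d a) u')

/-- the linkage passes level `j` along whole rail cells only -/
def Combed {k : ℕ} (W : Set V) (lev : V → ℕ) (ρ : ℕ → ℕ → Set V) (t j : ℕ) (Q : Fin k → Set V) :
    Prop :=
  ∀ p, ∀ v ∈ Q p, v ∈ W → lev v = j → ∃ i < t, v ∈ ρ i j ∧ ρ i j ⊆ Q p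

/-- the set represented by a vertex after contracting the cells `c i` to their roots `r i` -/
def cellOf (c : ℕ → Set V) (r : ℕ → V) (t : ℕ) (u : V) : Set V :=
  {x | x = u ∨ ∃ i < t, r i = u ∧ x ∈ c i}

/-- the graph with contracted cells -/
def cutG (G : SimpleGraph V) (c : ℕ → Set V) (r : ℕ → V) (t : ℕ) : SimpleGraph V where
  Adj u v := u ≠ v ∧ Touch G (cellOf c r t u) (cellOf c r t v)
  symm := ⟨fun _ _ h => ⟨h.1.symm, h.2.symm⟩⟩
  loopless := ⟨fun _ h => h.1 rfl⟩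

/-- the skeleton of a model: single vertices and paths with two ends -/
def skel {k1 k2 : ℕ} (G : SimpleGraph V) (z : Fin k1 → V) (σ τ : Fin k2 → V) :
    SimpleGraph (Fin k1 ⊕ Fin k2) where
  Adj a b := match a, b with
    | .inl i, .inl j => G.Adj (z i) (z j)
    | .inl i, .inr p => G.Adj (z i) (σ p) ∨ G.Adj (z i) (τ p)
    | .inr p, .inl i => G.Adj (z i) (σ p) ∨ G.Adj (z i) (τ p)
    | .inr _, .inr _ => False
  symm := ⟨by
    rintro (a | a) (b | b) h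
    exacts [h.symm, h, h, h]⟩
  loopless := ⟨by
    rintro (a | a) h
    exacts [G.irrefl h, h]⟩

/-- patterns: used nodes, adjacency, roles -/
abbrev Ptn (M : ℕ) (ι : Type) : Type := Set (Fin M) × Set (Fin M × Fin M) × Set (Fin M × ι)

/-- a pattern is realised in `Y` -/
def Real {M : ℕ} {ι : Type} (G : SimpleGraph V) (Y : Set V) (nb : ι → Set V) (π : Ptn M ι) : Prop :=
  ∃ X : Fin M → Set V,
    (∀ p ∈ π.1, X p ⊆ Y ∧ Conn G (X p) ∧ ∀ i, (p, i) ∈ π.2.2 → (X p ∩ nb i).Nonempty) ∧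
    ∀ p ∈ π.1, ∀ q ∈ π.1, p ≠ q → Disjoint (X p) (X q) ∧ ((p, q) ∈ π.2.1 → Touch G (X p) (X q))

/-- neighbours of the apices, of the cells below level `u` and of the cells at level `v` -/
def roles {a : ℕ} (G : SimpleGraph V) (α : Fin a → V) (ρ : ℕ → ℕ → Set V) (t u v : ℕ) :
    Fin a ⊕ Fin t ⊕ Fin t → Set V
  | .inl i => {y | G.Adj (α i) y}
  | .inr (.inl i) => {y | ∃ x ∈ ρ i (u - 1), G.Adj x y}
  | .inr (.inr i) => {y | ∃ x ∈ ρ i v, G.Adj x y}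

/-- all ranges of levels realise the same patterns -/
def Hom {a : ℕ} (G : SimpleGraph V) (α : Fin a → V) (W : Set V) (lev : V → ℕ)
    (ρ : ℕ → ℕ → Set V) (s t M : ℕ) : Prop :=
  ∀ u v u' v', 0 < u → u < v → v ≤ s → 0 < u' → u' < v' → v' ≤ s →
    ∀ π : Ptn M (Fin a ⊕ Fin t ⊕ Fin t), Real G (Lv W lev u v) (roles G α ρ t u v) π →
      Real G (Lv W lev u' v') (roles G α ρ t u' v') π

/-- the `g × g` grid -/
def grid (g : ℕ) : SimpleGraph (Fin g × Fin g) := gridN.comap fun p => (p.1.1, p.2.1)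

/-- row `i` of a cylinder -/
def Row (C : ℕ → ℕ → Set V) (p i : ℕ) : Set V := {x | ∃ j < p, x ∈ C i j}

/-- all cells of a cylinder -/
def Mesh (C : ℕ → ℕ → Set V) (N p : ℕ) : Set V := {x | ∃ i < N, x ∈ Row C p i}

/-- a model of a cylinder with `N` rows and `p` columns inside `U` -/
structure Cyl (G : SimpleGraph V) (U : Set V) (N p : ℕ) (C : ℕ → ℕ → Set V) : Prop where
  conn : ∀ i < N, ∀ j < p, C i j ⊆ U ∧ Conn G (C i j)
  dis : ∀ i < N, ∀ j < p, ∀ i' < N, ∀ j' < p, (i, j) ≠ (i', j') → Disjoint (C i j) (C i' j')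
  hor : ∀ i < N, ∀ j < p, Touch G (C i j) (C i ((j + 1) % p))
  ver : ∀ i, i + 1 < N → ∀ j < p, Touch G (C i j) (C (i + 1) j)
  three : ∀ i < N, ∀ j < p, ∃ (f : Fin 3 → ℕ → V) (l : Fin 3 → ℕ),
    (∀ t, IsPath G (C i j) (f t) (l t)) ∧ ∀ v ∈ C i j, ∃ t, ∃ x ≤ l t, f t x = v

theorem Cyl.shift {G : SimpleGraph V} {U : Set V} {N p : ℕ} {C : ℕ → ℕ → Set V}
    (h : Cyl G U N p C) {a N' : ℕ} (ha : a + N' ≤ N) : Cyl G U N' p fun i => C (a + i) where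
  conn i hi j hj := h.conn _ (by omega) j hj
  dis i hi j hj i' hi' j' hj' e := h.dis _ (by omega) j hj _ (by omega) j' hj' fun c => e (by
    simp only [Prod.mk.injEq] at c ⊢
    omega)
  hor i hi j hj := h.hor _ (by omega) j hj
  ver i hi j hj := h.ver (a + i) (by omega) j hj
  three i hi j hj := h.three (a + i) (by omega) j hj

/-- a connection from `u` to `v` that meets `M` in its ends only -/
def Jump (G : SimpleGraph V) (M J : Set V) (u v : V) : Prop :=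
  Conn G J ∧ u ∈ J ∧ v ∈ J ∧ ∀ x ∈ J, x ∈ M → x = u ∨ x = v

/-- jumps off `A` that start in the rows `lo, …, hi - 1` are short -/
def Quiet (G : SimpleGraph V) (C : ℕ → ℕ → Set V) (N p : ℕ) (A : Set V) (lo hi lam : ℕ) : Prop :=
  ∀ J u v r r', Jump G (Mesh C N p) J u v → Disjoint J A → lo ≤ r → r < hi → r' < N →
    u ∈ Row C p r → v ∈ Row C p r' → r < r' + lam ∧ r' < r + lam

end defs

/-- Menger's theorem for an indexed family of sources -/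
def MengerQS : Prop :=
  ∀ (V ι : Type) [Finite ι] (G : SimpleGraph V) (U B : Set V) (o : ι → V), U.Finite →
    (∀ X ⊆ U, X.ncard < Nat.card ι → ∃ S ⊆ U \ X, Conn G S ∧ (∃ b, o b ∈ S) ∧ (S ∩ B).Nonempty) →
    ∃ R : ι → Set V, (∀ b, R b ⊆ U ∧ Conn G (R b) ∧ o b ∈ R b ∧ (R b ∩ B).Nonempty) ∧
      Pairwise (Disjoint on R)

/-- the chain lemma, with whole pieces -/
def Chain2S : Prop :=
  ∀ (ι : Type) [Finite ι] (r : ℕ), (Nat.card ι).factorial < r →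
    ∀ (V : Type) (G : SimpleGraph V) (o n : ℕ → ι → V) (θ : ℕ → Equiv.Perm ι) (R : ℕ → ι → Set V),
    (∀ w < r, ∀ b, Conn G (R w b) ∧ o w b ∈ R w b ∧ n w (θ w b) ∈ R w b) →
    (∀ w < r, ∀ w' < r, ∀ b b', (w, b) ≠ (w', b') → Disjoint (R w b) (R w' b')) →
    (∀ w, w + 1 < r → ∀ b, G.Adj (n w b) (o (w + 1) b)) →
    ∃ w1 w2, w1 ≤ w2 ∧ w2 < r ∧ ∃ Y : ι → Set V, Pairwise (Disjoint on Y) ∧
      ∀ b, Conn G (Y b) ∧ o w1 b ∈ Y b ∧ n w2 b ∈ Y b ∧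
        ∀ v ∈ Y b, ∃ w, w1 ≤ w ∧ w ≤ w2 ∧ ∃ b', v ∈ R w b' ∧ R w b' ⊆ Y b

/-- sub-bands, fewer rails, other graphs -/
def SubS : Prop :=
  ∀ (V : Type) (G G' : SimpleGraph V) (A W : Set V) (lev : V → ℕ) (D : ℕ → Set V)
    (ρ : ℕ → ℕ → Set V) (s t a s' o t' : ℕ), LBand G A W lev D ρ s t → a + s' ≤ s → o + t' ≤ t →
    Agree G G' (Lv W lev a (a + s' + 1)) →
    LBand G' A (Lv W lev a (a + s' + 1)) (fun v => lev v - a) (fun l => D (a + l))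
      (fun i l => ρ (o + i) (a + l)) s' t' ∧
    ∀ (n : ℕ) (α : Fin n → V) (M : ℕ), Hom G α W lev (fun i => ρ (o + i)) s t' M →
      Hom G' α (Lv W lev a (a + s' + 1)) (fun v => lev v - a) (fun i l => ρ (o + i) (a + l)) s' t' M

def BlobS : Prop :=
  ∀ k, ∃ n T, ∀ (V : Type) [Finite V] (G : SimpleGraph V) (S : Set V) (D : ℕ → Set V) (s : ℕ)
    (σ τ : Fin k → V) (Q : Fin k → Set V), (∀ l ≤ s, D l ⊆ S ∧ Conn G (D l)) →
    (∀ l ≤ s, ∀ l' ≤ s, l ≠ l' → Disjoint (D l) (D l')) → Lk G S σ τ Q →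
    ∃ len β, Blobs G S D s σ τ len β ∧ ∀ (I : ℕ → Iv k) (a : ℕ), Ivs len I n → a + T ≤ s →
      (∀ b < n, ∀ l, a < l → l ≤ a + T → ∃ v ∈ (I b).set, β v ⊆ D l) → False

def RiverS : Prop :=
  ∀ k n T g m, 0 < k → T ≤ g → 2 ≤ m → ∃ s0, ∀ (len : Fin k → ℕ) (lam : Vx k → ℕ) (s : ℕ), s0 ≤ s →
    (∀ p, (lam (p, 0) = 0 ∨ lam (p, 0) = s) ∧ (lam (p, len p) = 0 ∨ lam (p, len p) = s)) →
    (∀ v ∈ Vs len, lam v ≤ s) →
    (∀ p i, i < len p → (0 < lam (p, i) ∧ lam (p, i) < s) ∨ (0 < lam (p, i + 1) ∧ lam (p, i + 1) < s) →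
      lam (p, i) ≤ lam (p, i + 1) + 1 ∧ lam (p, i + 1) ≤ lam (p, i) + 1) →
    (∀ (I : ℕ → Iv k) (a : ℕ), Ivs len I n → 0 < a → a + T < s →
      (∀ b < n, (∀ v ∈ (I b).set, a ≤ lam v ∧ lam v ≤ a + T) ∧ (∃ v ∈ (I b).set, lam v = a) ∧
        ∃ v ∈ (I b).set, lam v = a + T) → False) →
    ∃ g' c r I d, g ≤ g' ∧ r < n ∧ Rivers len lam s g' m c r I d

/-- one stage: from the rivers to rails and back -/
def OneS : Prop :=
  ∀ (V ι : Type) [Finite V] [Finite ι] (G : SimpleGraph V) (A W : Set V) (lev : V → ℕ)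
    (D : ℕ → Set V) (ρ : ℕ → ℕ → Set V) (s t n lo hi : ℕ) (b : ι → ℕ → Set V) (lv : ι → ℕ → ℕ)
    (L : ι → ℕ) (o e : ι → V), Nat.card ι ≤ n → n ≤ t → LBand G A W lev D ρ s t →
    0 < lo → lo + 2 * n + 3 ≤ hi → hi < s →
    (∀ a, ∀ u ≤ L a, Conn G (b a u) ∧ 0 < lv a u ∧ lv a u < s ∧
      ∀ x ∈ b a u, x ∈ W ∧ lev x = lv a u) →
    (∀ a, ∀ u < L a, Touch G (b a u) (b a (u + 1))) →
    (∀ a a', ∀ u ≤ L a, ∀ u' ≤ L a', (a, u) ≠ (a', u') → Disjoint (b a u) (b a' u')) →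
    (∀ a, lv a 0 = lo ∧ hi < lv a (L a) ∧ o a ∈ b a 0 ∧ e a ∈ b a (L a)) →
    ∃ (θ : Equiv.Perm ι) (R : ι → Set V), Pairwise (Disjoint on R) ∧ ∀ a, Conn G (R a) ∧
      o a ∈ R a ∧ e (θ a) ∈ R a ∧
      (∀ x ∈ R a, x ∈ Lv W lev lo (hi + 1) ∨ ∃ a', ∃ u ≤ L a', x ∈ b a' u) ∧
      ∀ x ∈ R a, lev x = lo + n + 1 → ∃ i < t, x ∈ ρ i (lo + n + 1) ∧ ρ i (lo + n + 1) ⊆ R a

/-- rerouting the rivers along rails -/
def StageS : Prop :=
  ∀ k n, ∃ g0 m, 2 ≤ m ∧ ∀ g, g0 ≤ g → ∀ (V : Type) [Finite V] (G : SimpleGraph V) (A W S : Set V)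
    (lev : V → ℕ) (D : ℕ → Set V) (ρ : ℕ → ℕ → Set V) (s t : ℕ) (σ τ : Fin k → V)
    (len : Fin k → ℕ) (β : Vx k → Set V) (lam : Vx k → ℕ) (c : ℕ → ℕ) (r : ℕ) (I : ℕ → Iv k)
    (d : ℕ → Bool), n ≤ t → r < n → LBand G A W lev D ρ s t → W ⊆ S → Disjoint S A →
    Blobs G S D s σ τ len β →
    (∀ v ∈ Vs len, ∀ x ∈ β v, (x ∈ W → lev x = lam v) ∧ (x ∉ W → lam v = 0)) →
    Rivers len lam s g m c r I d →
    ∃ j Q', 0 < j ∧ j < s ∧ Lk G S σ τ Q' ∧ Combed W lev ρ t j Q'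

def CombS : Prop :=
  ∀ k, ∃ s0 t0, ∀ (V : Type) [Finite V] (G : SimpleGraph V) (A W S : Set V) (lev : V → ℕ)
    (D : ℕ → Set V) (ρ : ℕ → ℕ → Set V) (s t : ℕ) (σ τ : Fin k → V) (Q : Fin k → Set V),
    s0 ≤ s → t0 ≤ t → LBand G A W lev D ρ s t → W ⊆ S → Disjoint S A →
    (∀ p, σ p ∉ W ∧ τ p ∉ W) → Lk G S σ τ Q →
    ∃ j Q', 0 < j ∧ j < s ∧ Lk G S σ τ Q' ∧ Combed W lev ρ t j Q'

/-- a linkage that uses `Z` in whole cells only passes to the graph with contracted cells -/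
def QuoS : Prop :=
  ∀ (V : Type) (k t : ℕ) (G : SimpleGraph V) (S Z : Set V) (c : ℕ → Set V) (r : ℕ → V)
    (σ τ : Fin k → V) (Q : Fin k → Set V), (∀ i < t, r i ∈ c i ∧ c i ⊆ Z) →
    (∀ i < t, ∀ j < t, i ≠ j → Disjoint (c i) (c j)) → (∀ p, σ p ∉ Z ∧ τ p ∉ Z) → Lk G S σ τ Q →
    (∀ p, ∀ v ∈ Q p, v ∈ Z → ∃ i < t, v ∈ c i ∧ c i ⊆ Q p) →
    ∃ Q', Lk (cutG G c r t) {v | v ∈ S ∧ (v ∉ Z ∨ ∃ i < t, r i = v)} σ τ Q'

def SkS : Prop :=
  ∀ h a, ∃ k, ∀ (V X : Type) [Finite V] [Finite X] (G : SimpleGraph V) (H : SimpleGraph X)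
    (S A : Set V) (B : X → Set V), Nat.card X ≤ h → A.ncard ≤ a → Model H G S B →
    ∃ k1 ≤ k, ∃ k2 ≤ k, ∃ (z : Fin k1 → V) (σ τ : Fin k2 → V) (Q : Fin k2 → Set V),
      Injective z ∧ (∀ i, z i ∈ S) ∧ Lk G (S \ (range z ∪ A)) σ τ Q ∧ IsMinor H (skel G z σ τ)

/-- transfer of a model when a part with few roots is exchanged -/
def TrS : Prop :=
  ∀ h b, ∃ M, ∀ (V V' X ι : Type) [Finite V] [Finite X] [Finite ι] (G : SimpleGraph V)
    (G' : SimpleGraph V') (H : SimpleGraph X) (O Y : Set V) (O' Y' : Set V') (r : ι → V)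
    (nb : ι → Set V) (nb' : ι → Set V') (φ : V → Set V') (B : X → Set V), Nat.card X ≤ h →
    Nat.card ι ≤ b → Disjoint O Y → Disjoint O' Y' →
    (∀ u ∈ O, ∀ y ∈ Y, G.Adj u y → ∃ i, u = r i ∧ y ∈ nb i) →
    (∀ π : Ptn M ι, Real G Y nb π → Real G' Y' nb' π) →
    (∀ u ∈ O, φ u ⊆ O' ∧ Conn G' (φ u)) →
    (∀ u ∈ O, ∀ v ∈ O, u ≠ v → Disjoint (φ u) (φ v) ∧ (G.Adj u v → Touch G' (φ u) (φ v))) →
    (∀ i, r i ∈ O → ∀ y ∈ nb' i, y ∈ Y' → ∃ x ∈ φ (r i), G'.Adj x y) →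
    Model H G (O ∪ Y) B → ∃ B', Model H G' (O' ∪ Y') B'

/-- coarser levels with homogeneous patterns for two systems of rails -/
def HomS : Prop :=
  ∀ a t M s', ∃ s, ∀ (V : Type) (G : SimpleGraph V) (A W : Set V) (lev : V → ℕ) (D : ℕ → Set V)
    (ρ : ℕ → ℕ → Set V) (α : Fin a → V), LBand G A W lev D ρ s (2 * t + 1) →
    ∃ W' ⊆ W, ∃ lev' D' ρ', LBand G A W' lev' D' ρ' s' (2 * t + 1) ∧
      Hom G α W' lev' (fun i => ρ' (0 + i)) s' t M ∧ Hom G α W' lev' (fun i => ρ' (t + i)) s' t M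

/-- a small model avoids the centre of a homogeneous band, except for the rails -/
def CentreS : Prop :=
  ∀ h a, ∃ t M z, ∀ (V X : Type) [Finite V] [Finite X] (G : SimpleGraph V) (H : SimpleGraph X)
    (A W S : Set V) (lev : V → ℕ) (D : ℕ → Set V) (ρ : ℕ → ℕ → Set V) (s m1 m2 : ℕ)
    (α : Fin a → V) (B : X → Set V), Nat.card X ≤ h → A ⊆ range α → LBand G A W lev D ρ s t →
    Hom G α W lev ρ s t M → W ⊆ S → z ≤ m1 → m1 ≤ m2 → m2 + z ≤ s → Model H G S B →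
    ∃ B', Model H G (S \ {v | v ∈ Lv W lev m1 (m2 + 1) ∧ ∀ i < t, v ∉ ρ i (lev v)}) B'

def IrrS : Prop :=
  ∀ h a, ∃ s t, ∀ (V : Type) [Finite V] (G : SimpleGraph V) (A W : Set V) (lev : V → ℕ)
    (D : ℕ → Set V) (ρ : ℕ → ℕ → Set V), A.ncard ≤ a → LBand G A W lev D ρ s t →
    ∃ Win ⊆ W, ∃ w ∈ Win, Irl h G Win {w} ∧ ∀ x ∈ Win, Irl h G W {w, x}

def GridS : Prop :=
  ∀ g, ∃ K, ∀ (V : Type) [Finite V] (G : SimpleGraph V), ¬ IsMinor (grid g) G → pl.HasDec K G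

def CylS : Prop :=
  ∀ N p, 3 ≤ p → ∃ g, 0 < g ∧ ∀ (V : Type) (G : SimpleGraph V) (U : Set V)
    (B : Fin g × Fin g → Set V), Model (grid g) G U B → ∃ C, Cyl G U N p C

def BusS : Prop :=
  ∀ (h : ℕ) (V : Type) (G : SimpleGraph V) (U : Set V) (N p : ℕ) (C : ℕ → ℕ → Set V)
    (J : ℕ → Set V) (u v : ℕ → V) (r r' : ℕ → ℕ), 2 * h ≤ p → 2 * h ≤ N → Cyl G U N p C →
    (∀ e < h * h, Jump G (Mesh C N p) (J e) (u e) (v e) ∧ r e < N ∧ r' e < N ∧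
      u e ∈ Row C p (r e) ∧ v e ∈ Row C p (r' e)) →
    (∀ e < h * h, ∀ e' < h * h, (r e + 2 * h ≤ r' e' ∨ r' e' + 2 * h ≤ r e) ∧
      (e ≠ e' → Disjoint (J e) (J e') ∧ (r e + 2 * h ≤ r e' ∨ r e' + 2 * h ≤ r e) ∧
        (r' e + 2 * h ≤ r' e' ∨ r' e' + 2 * h ≤ r' e))) →
    IsMinor (⊤ : SimpleGraph (Fin h)) G

def JumpsS : Prop :=
  ∀ h, ∃ κ, ∀ (V : Type) (G : SimpleGraph V) (U : Set V) (N p : ℕ) (C : ℕ → ℕ → Set V)
    (J : ℕ → Set V) (u v : ℕ → V) (r r' : ℕ → ℕ), 2 * h ≤ p → 2 * h ≤ N → Cyl G U N p C →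
    (∀ e < κ, Jump G (Mesh C N p) (J e) (u e) (v e) ∧ r e < N ∧ r' e < N ∧
      u e ∈ Row C p (r e) ∧ v e ∈ Row C p (r' e)) →
    (∀ e < κ, ∀ e' < κ, (r e + 2 * h ≤ r' e' ∨ r' e' + 2 * h ≤ r e) ∧
      (e ≠ e' → Disjoint (J e) (J e') ∧ (r e + 2 * h ≤ r e' ∨ r e' + 2 * h ≤ r e))) →
    IsMinor (⊤ : SimpleGraph (Fin h)) G

/-- a small cut confines the jumps from a family of ranges to the enlarged ranges -/
def CutS : Prop :=
  ∀ h, ∃ κ, ∀ (V : Type) [Finite V] (G : SimpleGraph V) (U : Set V) (N p l : ℕ)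
    (C : ℕ → ℕ → Set V) (α : ℕ → ℕ) (F : Finset ℕ), 2 * h ≤ p → 2 * h ≤ N → NoK h G →
    Cyl G U N p C → (∀ e ∈ F, α e + l ≤ N) →
    (∀ e ∈ F, ∀ e' ∈ F, e < e' → α e + l + 2 * h ≤ α e') →
    ∃ (A : Set V) (Bad : Finset ℕ), A.ncard ≤ κ ∧ Bad.card ≤ κ ∧ ∀ e ∈ F, e ∉ Bad →
      ∀ J u v r r', Jump G (Mesh C N p) J u v → Disjoint J A → α e ≤ r → r < α e + l → r' < N →
        u ∈ Row C p r → v ∈ Row C p r' → ∃ e' ∈ F, α e' < r' + 2 * h + 1 ∧ r' < α e' + l + 2 * h + 1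

/-- many quiet ranges of rows -/
def LevaS : Prop :=
  ∀ h c, ∃ a q, c * (a + 2) < q ∧ ∀ l, ∃ N, ∀ (V : Type) [Finite V] (G : SimpleGraph V) (U : Set V)
    (p : ℕ) (C : ℕ → ℕ → Set V), 2 * h ≤ p → NoK h G → Cyl G U N p C →
    ∃ (A : Set V) (α : ℕ → ℕ), A.ncard ≤ a ∧
      (∀ e < q, 2 * h + 1 ≤ α e ∧ α e + l + (2 * h + 1) ≤ N ∧
        Quiet G C N p A (α e) (α e + l) (2 * h + 1) ∧
        ∀ r, α e ≤ r + (2 * h + 1) → r < α e + l + (2 * h + 1) → Disjoint A (Row C p r)) ∧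
      ∀ e e', e < e' → e' < q → α e + l + 2 * (2 * h + 1) ≤ α e'

/-- bands from quiet ranges -/
def LevbS : Prop :=
  ∀ (V : Type) [Finite V] (G : SimpleGraph V) (U A : Set V) (N p lam s t q : ℕ)
    (C : ℕ → ℕ → Set V) (α : ℕ → ℕ), 0 < lam → 0 < q → A.ncard < p → t ≤ p → Cyl G U N p C →
    (∀ e < q, lam ≤ α e ∧ α e + (s + 1) * lam + lam ≤ N ∧
      Quiet G C N p A (α e) (α e + (s + 1) * lam) lam ∧
      ∀ r, α e ≤ r + lam → r < α e + (s + 1) * lam + lam → Disjoint A (Row C p r)) →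
    (∀ e e', e < e' → e' < q → α e + (s + 1) * lam + 2 * lam ≤ α e') →
    ∃ (M : Set V) (W : ℕ → Set V), M ⊆ U ∧ Conn G M ∧ Disjoint A M ∧
      (∀ e < q, ∀ e' < q, e ≠ e' → Disjoint (W e) (W e')) ∧
      ∀ e < q, (∃ lev D ρ, LBand G A (W e) lev D ρ s t) ∧
        (∀ x ∈ W e, ∃ m ∈ M, m ∈ W e ∧ Link G (W e) x m) ∧
        ∀ x ∈ W e, x ∉ M → ∀ y, G.Adj x y → y ∈ W e ∨ y ∈ A ∨ y ∈ M

/-- the result of part 3 -/
def BBS : Prop :=
  ∀ s h c, ∃ a q g, 0 < g ∧ c * (a + 2) < q ∧ ∀ (V : Type) [Finite V] (G : SimpleGraph V)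
    (X : Set V) (B0 : Fin g × Fin g → Set V), NoK h G → Model (grid g) G X B0 →
    ∃ (A M : Set V) (W Win : Fin q → Set V) (w : Fin q → V), A.ncard ≤ a ∧ M ⊆ X ∧ Conn G M ∧
      Disjoint A M ∧ Pairwise (Disjoint on W) ∧ ∀ j, Disjoint (W j) A ∧
        (∀ x ∈ W j, ∃ m ∈ M, m ∈ W j ∧ Link G (W j) x m) ∧
        (∀ x ∈ W j, x ∉ M → ∀ y, G.Adj x y → y ∈ W j ∨ y ∈ A ∨ y ∈ M) ∧
        Win j ⊆ W j ∧ w j ∈ Win j ∧ Irl s G (Win j) {w j} ∧ ∀ x ∈ Win j, Irl s G (W j) {w j, x}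

end Pool.Agent.MP_9d78a0_co.fb

end MrgPart0

-- ======== part 1: formerly Pool.Agent.MP_9d78a0_co.gm.Base
section MrgPart1

/-! Graphs over names, labels, atoms, tangles: the shared definitions. -/

set_option autoImplicit false

namespace Pool.Agent.MP_9d78a0_co.gm

open Set Function

/-- vertices: ordinary ones on the left, names on the right -/
abbrev W : Type := ℕ ⊕ ℕ

/-- the ordinary vertices -/
def Od : Set W := range Sum.inl

/-- the names -/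
def Nm : Set W := range Sum.inr

/-- a piece is a set of pairs -/
abbrev Pc : Type := Set (W × W)

/-- the vertices of a piece -/
def VV (X : Pc) : Set W := {v | ∃ p ∈ X, v = p.1 ∨ v = p.2}

/-- the graph of a piece -/
def gr (X : Pc) : SimpleGraph W where
  Adj u v := u ≠ v ∧ ((u, v) ∈ X ∨ (v, u) ∈ X)
  symm := ⟨fun _ _ h => ⟨h.1.symm, h.2.symm⟩⟩
  loopless := ⟨fun _ h => h.1 rfl⟩

/-- a label: a piece with a list of roots -/
abbrev Lab : Type := Pc × List W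

/-- the vertices on which a model of a label is defined -/
def dom (l : Lab) : Set W := VV l.1 ∪ {v | v ∈ l.2} ∪ Nm

/-- a model of a label in a label -/
structure Emb (l l' : Lab) (B : W → Set W) : Prop where
  sub : ∀ v ∈ dom l, B v ⊆ dom l'
  conn : ∀ v ∈ dom l, Conn (gr l'.1) (B v)
  dis : ∀ u ∈ dom l, ∀ v ∈ dom l, u ≠ v → Disjoint (B u) (B v)
  adj : ∀ u v, (gr l.1).Adj u v → fb.Touch (gr l'.1) (B u) (B v)
  nm : ∀ i, Sum.inr i ∈ B (Sum.inr i)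
  root : List.Forall₂ (fun r r' => r' ∈ B r) l.2 l'.2

/-- the order on labels -/
def Le (l l' : Lab) : Prop := ∃ B, Emb l l' B

/-- equivalent labels -/
def Eqv (l l' : Lab) : Prop := Le l l' ∧ Le l' l

/-- well-quasi-ordered sets of labels -/
def Pwo (A : Set Lab) : Prop := A.PartiallyWellOrderedOn Le

/-- the label is equivalent to a member -/
def Mem (A : Set Lab) (l : Lab) : Prop := ∃ l' ∈ A, Eqv l l'

/-- a list without repetition of the elements of a set -/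
def Enum (ρ : List W) (R : Set W) : Prop := ρ.Nodup ∧ {v | v ∈ ρ} = R

/-- a piece with a set of roots is empty or has a label in `A` -/
def InA (A : Set Lab) (X : Pc) (R : Set W) : Prop := X = ∅ ∨ ∃ ρ, Enum ρ R ∧ Mem A (X, ρ)

/-- the order on pieces with sets of roots -/
def ULe (X : Pc) (R : Set W) (X' : Pc) (R' : Set W) : Prop :=
  ∃ ρ ρ', Enum ρ R ∧ Enum ρ' R' ∧ Le (X, ρ) (X', ρ')

/-- the boundary of a part `U` of a piece with roots `R` -/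
def rb (X : Pc) (R : Set W) (U : Pc) : Set W := {v | v ∈ Od ∧ v ∈ VV U ∧ (v ∈ R ∨ v ∈ VV (X \ U))}

/-- no cut through the piece is cheaper on both sides than its roots -/
def Robust (X : Pc) (R : Set W) : Prop :=
  ∀ U ⊆ X, R.ncard ≤ (rb X R U).ncard ∨ R.ncard ≤ (rb X R (X \ U)).ncard

/-- two roots are joined off `Λ` and off the other roots; three roots have a common centre -/
structure Solid (X : Pc) (R Λ : Set W) : Prop where
  sub : R ⊆ (VV X ∩ Od) \ Λ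
  card : R.Finite ∧ R.ncard ≤ 3
  two : ∀ r ∈ R, ∀ s ∈ R, Link (gr X) ((Od \ Λ) \ (R \ {r, s})) r s
  three : R.ncard = 3 → ∃ Y ⊆ (Od \ Λ) \ R, Conn (gr X) Y ∧ ∀ r ∈ R, ∃ y ∈ Y, (gr X).Adj r y

/-- the image of a piece under a map of vertices -/
def ren (r : W → W) (X : Pc) : Pc := Prod.map r r '' X

section hyper

variable {ε ν : Type}

/-- the boundary of a set of edges of a hypergraph -/
def hbd (inc : ε → Set ν) (U : Set ε) : Set ν := {v | (∃ a ∈ U, v ∈ inc a) ∧ ∃ a ∉ U, v ∈ inc a}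

/-- the connectivity function of a hypergraph -/
noncomputable def hf (inc : ε → Set ν) (U : Set ε) : ℕ := (hbd inc U).ncard

/-- the set `Y` of edges, taken as a hypergraph of its own, has width at most `K` -/
def Wd (inc : ε → Set ν) (Y : Set ε) (K : ℕ) : Prop :=
  ∃ T, pl.Dec (hf fun a : Y => inc a.1) K T

/-- the incidence graph -/
def ig (inc : ε → Set ν) : SimpleGraph (ν ⊕ ε) where
  Adj x y := ∃ v a, v ∈ inc a ∧ ((x = Sum.inl v ∧ y = Sum.inr a) ∨ (y = Sum.inl v ∧ x = Sum.inr a))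
  symm := ⟨fun _ _ ⟨v, a, h, k⟩ => ⟨v, a, h, k.symm⟩⟩
  loopless := ⟨fun _ ⟨_, _, _, k⟩ => by rcases k with ⟨rfl, k⟩ | ⟨rfl, k⟩ <;> cases k⟩

/-- a tangle of order `θ` of a connectivity function -/
@[ext] structure Tangle (f : Set ε → ℕ) (θ : ℕ) where
  sm : Set (Set ε)
  ord : ∀ U ∈ sm, f U < θ
  tot : ∀ U, f U < θ → U ∈ sm ∨ Uᶜ ∈ sm
  cov : ∀ A ∈ sm, ∀ B ∈ sm, ∀ C ∈ sm, A ∪ B ∪ C ≠ univ
  atom : ∀ a, ({a}ᶜ : Set ε) ∉ sm

/-- an injective numbering of a finite type -/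
noncomputable def idx [Finite ε] (a : ε) : ℕ := (Finite.equivFin ε a : ℕ)

open Classical in
/-- the weight of the side that avoids `e` -/
noncomputable def wt [Finite ε] (e : ε) (U : Set ε) : ℕ :=
  ∑ a ∈ (toFinite (if e ∈ U then Uᶜ else U)).toFinset, 2 ^ idx a

variable [Finite ε] {f : Set ε → ℕ} {θ : ℕ}

/-- the tie breaker -/
def LamLe (f : Set ε → ℕ) (e : ε) (U U' : Set ε) : Prop :=
  f U < f U' ∨ (f U = f U' ∧ wt e U ≤ wt e U')

/-- `D` is the distinction of two tangles, small for the first -/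
def IsDist (e : ε) (T T' : Tangle f θ) (D : Set ε) : Prop :=
  D ∈ T.sm ∧ Dᶜ ∈ T'.sm ∧ ∀ U ∈ T.sm, Uᶜ ∈ T'.sm → LamLe f e D U

/-- the distinctions of `T` from the members of `N` -/
def Dists (e : ε) (T : Tangle f θ) (N : Set (Tangle f θ)) : Set (Set ε) :=
  {D | ∃ T' ∈ N, IsDist e T T' D}

/-- the maximal ones -/
def Cut (e : ε) (T : Tangle f θ) (N : Set (Tangle f θ)) : Set (Set ε) :=
  {C | C ∈ Dists e T N ∧ ∀ C' ∈ Dists e T N, C ⊆ C' → C' = C}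

/-- the member on the root side, or the empty set -/
def Out (e : ε) (T : Tangle f θ) (N : Set (Tangle f θ)) : Set ε :=
  ⋃₀ {C | C ∈ Cut e T N ∧ e ∈ C}

end hyper

/-- a row and a column of a model of a grid -/
def Cross {V : Type} {g : ℕ} (B : Fin g × Fin g → Set V) (i j : Fin g) : Set V :=
  ⋃ k, B (i, k) ∪ B (k, j)

/-- the vertices of `D` off `Y` that are joined to a cross that misses `Y` -/
def big {V : Type} {g : ℕ} (G : SimpleGraph V) (B : Fin g × Fin g → Set V) (D Y : Set V) : Set V :=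
  {v | ∃ i j, Disjoint (Cross B i j) Y ∧ ∃ w ∈ Cross B i j, Link G (D \ Y) w v}

/-- a graph given as a finite family of atoms -/
structure AG where
  ε : Type
  fin : Finite ε
  pc : ε → Pc
  pfin : ∀ a, (pc a).Finite

instance (σ : AG) : Finite σ.ε := σ.fin

namespace AG

variable (σ : AG)

/-- the ordinary vertices of an atom -/
def inc (a : σ.ε) : Set W := VV (σ.pc a) ∩ Od

/-- the union of a set of atoms -/
def un (U : Set σ.ε) : Pc := ⋃ a ∈ U, σ.pc a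

/-- the ordinary vertices of a set of atoms -/
def vs (U : Set σ.ε) : Set W := ⋃ a ∈ U, σ.inc a

/-- the boundary -/
def bd (U : Set σ.ε) : Set W := hbd σ.inc U

/-- the order -/
noncomputable def f (U : Set σ.ε) : ℕ := hf σ.inc U

/-- the whole graph as a label -/
def lab : Lab := (σ.un univ, [])

/-- all atoms are robust -/
def Rob : Prop := ∀ a, Robust (σ.pc a) (σ.bd {a})

/-- the atoms of `Y` have labels in `A` and at most `K` roots -/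
def Over (Y : Set σ.ε) (A : Set Lab) (K : ℕ) : Prop :=
  ∀ a ∈ Y, InA A (σ.pc a) (σ.bd {a}) ∧ σ.f {a} ≤ K

end AG

/-- labels of sets of robust atoms over `A` of inner width at most `K`, with `n` roots -/
def Om (A : Set Lab) (K n : ℕ) : Set Lab :=
  {l | l.2.length = n ∧ ∃ (σ : AG) (Y : Set σ.ε), σ.Rob ∧ σ.Over Y A K ∧ Wd σ.inc Y K ∧
    l.1 = σ.un Y ∧ σ.bd Y ⊆ {v | v ∈ l.2} ∧ ∀ v ∈ l.2, v ∈ Od ∧ (v ∈ σ.vs Y → v ∈ σ.bd Y)}

end Pool.Agent.MP_9d78a0_co.gm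

end MrgPart1

-- ======== part 2: formerly Pool.Agent.MP_9d78a0_co.gm.Map
section MrgPart2

/-! Flag maps: the shared definitions. -/

set_option autoImplicit false

namespace Pool.Agent.MP_9d78a0_co.gm

open Set Function

/-- flags `S` with the moves along an edge (`a`), round a corner (`b`), across an edge (`c`) -/
structure FM (Φ : Type) where
  S : Set Φ
  a : Φ → Φ
  b : Φ → Φ
  c : Φ → Φ

/-- an involution of `S` without fixed points -/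
def Inv {Φ : Type} (S : Set Φ) (p : Φ → Φ) : Prop := ∀ f ∈ S, p f ∈ S ∧ p (p f) = f ∧ p f ≠ f

/-- the orbit under two maps -/
def orb {Φ : Type} (p q : Φ → Φ) (f : Φ) : Set Φ :=
  {g | Relation.ReflTransGen (fun x y => y = p x ∨ y = q x) f g}

/-- the first point of the forward orbit of `x` that lies in `U` -/
noncomputable def ret {Φ : Type} (π : Φ → Φ) (U : Set Φ) (x : Φ) : Φ :=
  π^[sInf {n | π^[n] x ∈ U}] x

namespace FM

variable {Φ V : Type} (M : FM Φ)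

/-- the axioms of a map -/
structure Ok : Prop where
  fin : M.S.Finite
  ia : Inv M.S M.a
  ib : Inv M.S M.b
  ic : Inv M.S M.c
  ac : ∀ f ∈ M.S, M.a (M.c f) = M.c (M.a f) ∧ M.a (M.c f) ≠ f

/-- the flags of the vertex, edge, face and component of a flag -/
def vo (f : Φ) : Set Φ := orb M.b M.c f
def eo (f : Φ) : Set Φ := orb M.a M.c f
def fo (f : Φ) : Set Φ := orb M.a M.b f
def co (f : Φ) : Set Φ :=
  {g | Relation.ReflTransGen (fun x y => y = M.a x ∨ y = M.b x ∨ y = M.c x) f g}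

/-- the Euler genus -/
noncomputable def eg : ℤ :=
  2 * ((M.co '' M.S).ncard : ℤ) - (M.vo '' M.S).ncard + (M.eo '' M.S).ncard - (M.fo '' M.S).ncard

/-- connected (the empty map is connected) -/
def Con : Prop := ∀ f ∈ M.S, ∀ g ∈ M.S, g ∈ M.co f

/-- a set of edges, given by its flags -/
def Es (U : Set Φ) : Prop := U ⊆ M.S ∧ ∀ f ∈ U, M.a f ∈ U ∧ M.c f ∈ U

open Classical in
/-- keep the edges `U`, contract the edges `C`, delete the others -/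
noncomputable def minor (U C : Set Φ) : FM Φ where
  S := U
  a := M.a
  b := fun f => ret (fun x => M.b (if x ∈ C then M.a x else M.c x)) U (M.b f)
  c := M.c

/-- the submap on the edges `U` -/
noncomputable def sub (U : Set Φ) : FM Φ := M.minor U ∅

/-- the region of the edge set `U` that contains a flag -/
def reg (U : Set Φ) (f : Φ) : Set Φ :=
  {g | Relation.ReflTransGen (fun x y => y = M.a x ∨ y = M.b x ∨ (x ∉ U ∧ y = M.c x)) f g}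

/-- an orientation -/
def Ori (o : Φ → Prop) : Prop :=
  ∀ f ∈ M.S, (o (M.a f) ↔ ¬ o f) ∧ (o (M.b f) ↔ ¬ o f) ∧ (o (M.c f) ↔ ¬ o f)

/-- the positive flags: an orientation, or all flags if there is none -/
def Pos (pos : Φ → Prop) : Prop := M.Ori pos ∨ ((¬ ∃ o, M.Ori o) ∧ ∀ f, pos f)

/-- the rotation: the next flag of the same direction round the vertex -/
def rot (f : Φ) : Φ := M.c (M.b f)

/-- `vx` names the vertices -/
def Lbl (vx : Φ → V) : Prop := ∀ f ∈ M.S, ∀ g ∈ M.S, vx f = vx g ↔ g ∈ M.vo f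

variable (vx : Φ → V)

/-- the underlying simple graph -/
def gph : SimpleGraph V where
  Adj u v := u ≠ v ∧ ∃ f ∈ M.S, (vx f = u ∧ vx (M.a f) = v) ∨ (vx f = v ∧ vx (M.a f) = u)
  symm := ⟨fun _ _ ⟨h, f, hf, k⟩ => ⟨h.symm, f, hf, k.symm⟩⟩
  loopless := ⟨fun _ h => h.1 rfl⟩

/-- the flags of the edges with both ends in `K` -/
def ind (K : Set V) : Set Φ := {f | f ∈ M.S ∧ vx f ∈ K ∧ vx (M.a f) ∈ K}

/-- the flags at a set of vertices -/
def fl (H : Set V) : Set Φ := {f | f ∈ M.S ∧ vx f ∈ H}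

/-- no loops and no parallel edges off `H` -/
def Simple (H : Set V) : Prop :=
  ∀ f ∈ M.S, vx f ≠ vx (M.a f) ∧ ∀ g ∈ M.S, vx f ∉ H → vx (M.a f) ∉ H → vx g = vx f →
    vx (M.a g) = vx (M.a f) → g = f ∨ g = M.c f

/-- the vertices on a face with a vertex of `D` -/
def rad (D : Set V) : Set V := {v | ∃ f ∈ M.S, vx f ∈ D ∧ ∃ g ∈ M.fo f, vx g = v}

/-- the edges inside `K` carry the genus and separate the vertices of `H` -/
def Full (H K : Set V) : Prop :=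
  (M.sub (M.ind vx K)).eg = M.eg ∧
    ∀ p ∈ M.S, ∀ q ∈ M.S, vx p ∈ H → vx q ∈ H → q ∈ M.reg (M.ind vx K) p → vx p = vx q

/-- the vertices off `H` -/
def tv (H : Set V) : Set V := vx '' M.S \ H

/-- no set of at most `n` vertices of `Nd` lowers the genus or joins two holes -/
def NF {g : ℕ} (B : Fin g × Fin g → Set V) (H Nd : Set V) (n : ℕ) : Prop :=
  ∀ X ⊆ Nd, X.ncard ≤ n → M.Full vx H (big (M.gph vx) B (M.tv vx H) X)

/-- the terminals `σ` cannot be cut from the grid in the graph on `T` by fewer elements -/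
def Free {g : ℕ} (B : Fin g × Fin g → Set V) (T Nd : Set V) {ι : Type} (I : Set ι)
    (σ : ι → Set V) : Prop :=
  ∀ X ⊆ Nd, X.Finite → (∀ i ∈ I, Disjoint X (σ i)) → ∀ J ⊆ I, X.ncard + J.ncard < I.ncard →
    ∃ i ∈ I \ J, (σ i ∩ big (M.gph vx) B T (X ∪ ⋃ j ∈ J, σ j)).Nonempty

/-- a source map `S` with marked vertices `Mk`, matched with the flags at the holes of `M`; the
edge of the flag `f` is sent to the terminal `τ f` -/
structure Mat {Ψ U ι : Type} (H : Set V) (S : FM Ψ) (sx : Ψ → U) (Mk : Set U) (μ : Ψ → Φ)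
    (τ : Ψ → ι) (σ : ι → Set V) : Prop where
  ok : S.Ok
  lbl : S.Lbl sx
  con : S.Con
  eg : S.eg = M.eg
  bip : ∀ f ∈ S.S, sx f ∈ Mk ↔ sx (S.a f) ∉ Mk
  col : ∃ ps pt, S.Pos ps ∧ M.Pos pt ∧ ((∃ o, S.Ori o) ↔ ∃ o, M.Ori o) ∧
    ∀ f ∈ S.fl sx Mk, ps f ↔ pt (μ f)
  mem : ∀ f ∈ S.fl sx Mk, μ f ∈ M.fl vx H
  inj : InjOn μ (S.fl sx Mk)
  same : ∀ f ∈ S.fl sx Mk, ∀ g ∈ S.fl sx Mk, sx f = sx g ↔ vx (μ f) = vx (μ g)
  mc : ∀ f ∈ S.fl sx Mk, μ (S.c f) = M.c (μ f)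
  mr : ∀ f ∈ S.fl sx Mk, μ (S.rot f) = ret M.rot (μ '' S.fl sx Mk) (M.rot (μ f))
  term : ∀ f ∈ S.fl sx Mk, ∀ g ∈ S.fl sx Mk, τ f = τ g ↔ g = f ∨ g = S.c f
  land : ∀ f ∈ S.fl sx Mk, vx (M.a (μ f)) ∈ σ (τ f)

/-- every free family of terminals matched with a source with at most `N` flags is routed -/
def Route {g : ℕ} (B : Fin g × Fin g → Set V) (H : Set V) (N : ℕ) : Prop :=
  ∀ (Ψ U ι : Type) (S : FM Ψ) (sx : Ψ → U) (Mk : Set U) (μ : Ψ → Φ) (τ : Ψ → ι) (σ : ι → Set V)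
    (T : Set V), S.S.ncard ≤ N → M.Mat vx H S sx Mk μ τ σ →
    M.tv vx H \ M.rad vx H ⊆ T → T ⊆ M.tv vx H →
    (∀ i ∈ τ '' S.fl sx Mk, Conn (M.gph vx) (σ i) ∧ σ i ⊆ M.tv vx H ∩ M.rad vx H) →
    (∀ i ∈ τ '' S.fl sx Mk, ∀ j ∈ τ '' S.fl sx Mk, i ≠ j → Disjoint (σ i) (σ j)) →
    M.Free vx B T T (τ '' S.fl sx Mk) σ →
    ∃ Y : U → Set V,
      (∀ n ∈ sx '' S.S \ Mk, Conn (M.gph vx) (Y n) ∧ Y n ⊆ T ∪ ⋃ i ∈ τ '' S.fl sx Mk, σ i) ∧
      (∀ n ∈ sx '' S.S \ Mk, ∀ m ∈ sx '' S.S \ Mk, n ≠ m → Disjoint (Y n) (Y m)) ∧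
      ∀ f ∈ S.fl sx Mk, σ (τ f) ⊆ Y (sx (S.a f))

/-- a connected set `U0` that carries the genus, separates the holes and is far from them -/
structure Frame {g : ℕ} (B : Fin g × Fin g → Set V) (H : Set V) (R : ℕ) (U0 : Set V) : Prop where
  sub : U0 ⊆ M.tv vx H
  conn : Conn (M.gph vx) U0
  full : M.Full vx H U0
  far : ∀ X Y D : Set V, X.Finite → X.ncard ≤ R → Y ⊆ M.rad vx H →
    (∀ v ∈ D, ∃ x ∈ H ∩ D, Link (M.gph vx) D x v) →
    Disjoint D (big (M.gph vx) B (M.tv vx H) (X ∪ Y)) → Disjoint ((M.rad vx)^[R] D) U0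
  ins : ∀ X Y : Set V, X.Finite → X.ncard ≤ R → Y ⊆ M.rad vx H → Disjoint (X ∪ Y) U0 →
    U0 ⊆ big (M.gph vx) B (M.tv vx H) (X ∪ Y)
  core : ∃ i0 j0, i0 + R ≤ g ∧ j0 + R ≤ g ∧ ∀ i j : Fin g, i0 ≤ i → (i : ℕ) < i0 + R → j0 ≤ j →
    (j : ℕ) < j0 + R → B (i, j) ⊆ U0

/-- the standing assumptions on a map with holes -/
structure Hm (H : Set V) : Prop where
  ok : M.Ok
  lbl : M.Lbl vx
  con : M.Con
  simple : M.Simple vx H
  ind : ∀ f ∈ M.S, vx f ∈ H → vx (M.a f) ∉ H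

end FM

/-- the routing theorem -/
def RtS : Prop :=
  ∀ k q R N : ℕ, ∃ n g0 : ℕ, ∀ g, g0 ≤ g → ∀ (Φ V : Type) (M : FM Φ) (vx : Φ → V) (H : Set V)
    (B : Fin g × Fin g → Set V), M.Hm vx H → M.eg ≤ k → (H ∩ vx '' M.S).ncard ≤ q →
    Model (fb.grid g) (M.gph vx) (M.tv vx H \ M.rad vx H) B → M.NF vx B H (M.tv vx H) n →
    M.Route vx B H N ∧ ∃ U0, M.Frame vx B H R U0

/-- a model of a grid contains a block that has no vertex on a face with a hole -/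
def PatchS : Prop :=
  ∀ k q g' : ℕ, ∃ g0 : ℕ, ∀ g, g0 ≤ g → ∀ (Φ V : Type) (M : FM Φ) (vx : Φ → V) (H : Set V)
    (B : Fin g × Fin g → Set V), M.Hm vx H → M.eg ≤ k → (H ∩ vx '' M.S).ncard ≤ q →
    Model (fb.grid g) (M.gph vx) (M.tv vx H) B →
    ∃ (i0 j0 : ℕ) (e1 e2 : Fin g' → Fin g), (∀ i, (e1 i : ℕ) = i0 + i) ∧ (∀ j, (e2 j : ℕ) = j0 + j) ∧
      ∀ i j, Disjoint (B (e1 i, e2 j)) (M.rad vx H)

end Pool.Agent.MP_9d78a0_co.gm

end MrgPart2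

-- marker of a merged file
example : 731051 + 866732 = 731051 + 866732 := rfl
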