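import Mathlib.Combinatorics.Colex
import Pool.Agent.MP_9d78a0_co.gm.Map

/-! Basic facts on connectivity functions, tangles and distinctions. -/

set_option autoImplicit false

namespace Pool.Agent.MP_9d78a0_co.gm

open Set Function

variable {ε ν : Type}

/-- symmetric connectivity functions -/
structure Sym (f : Set ε → ℕ) : Prop extends pl.Subm f where
  cpl : ∀ U, f Uᶜ = f U

/-- no split of `C` is cheaper than `C` on both sides -/
def ARob (f : Set ε → ℕ) (C : Set ε) : Prop := ∀ U ⊆ C, f C ≤ f U ∨ f C ≤ f (C \ U)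

/-- the vertices of a set of edges -/
def hv (inc : ε → Set ν) (U : Set ε) : Set ν := {v | ∃ a ∈ U, v ∈ inc a}

/-- the boundary with extra roots `Z` -/
def zbd (inc : ε → Set ν) (Z : Set ν) (U : Set ε) : Set ν := hv inc U ∩ (hv inc Uᶜ ∪ Z)

/-- the size of the boundary with extra roots -/
noncomputable def zf (inc : ε → Set ν) (Z : Set ν) (U : Set ε) : ℕ := (zbd inc Z U).ncard

section hyper

variable {inc : ε → Set ν}

theorem hbd_eq (U : Set ε) : hbd inc U = hv inc U ∩ hv inc Uᶜ := rfl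

theorem hv_mono {U U' : Set ε} (h : U ⊆ U') : hv inc U ⊆ hv inc U' :=
  fun _ ⟨a, ha, k⟩ => ⟨a, h ha, k⟩

theorem hv_union (U U' : Set ε) : hv inc (U ∪ U') = hv inc U ∪ hv inc U' := by
  ext v
  simp only [hv, mem_union, mem_ofPred_eq, or_and_right, exists_or]

theorem hbd_compl (U : Set ε) : hbd inc Uᶜ = hbd inc U := by
  rw [hbd_eq, hbd_eq, compl_compl, inter_comm]

theorem hv_fin [Finite ε] (h : ∀ a, (inc a).Finite) (U : Set ε) : (hv inc U).Finite :=
  (finite_iUnion h).subset fun _ ⟨a, _, k⟩ => mem_iUnion.2 ⟨a, k⟩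

theorem hbd_fin [Finite ε] (h : ∀ a, (inc a).Finite) (U : Set ε) : (hbd inc U).Finite :=
  (hv_fin h U).subset inter_subset_left

theorem zbd_fin [Finite ε] (h : ∀ a, (inc a).Finite) (Z : Set ν) (U : Set ε) :
    (zbd inc Z U).Finite := (hv_fin h U).subset inter_subset_left

theorem zf_empty (U : Set ε) : zf inc ∅ U = hf inc U := by
  rw [zf, zbd, union_empty]; rfl

theorem zf_subm [Finite ε] (h : ∀ a, (inc a).Finite) (Z : Set ν) : pl.Subm (zf inc Z) := by
  have key : ∀ A B C D : Set ε, zbd inc Z C ∪ zbd inc Z D ⊆ zbd inc Z A ∪ zbd inc Z B →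
      zbd inc Z C ∩ zbd inc Z D ⊆ zbd inc Z A ∩ zbd inc Z B →
      zf inc Z C + zf inc Z D ≤ zf inc Z A + zf inc Z B := by
    intro A B C D h1 h2
    unfold zf
    rw [← ncard_union_add_ncard_inter _ _ (zbd_fin h Z C) (zbd_fin h Z D),
      ← ncard_union_add_ncard_inter _ _ (zbd_fin h Z A) (zbd_fin h Z B)]
    exact add_le_add (ncard_le_ncard h1 ((zbd_fin h Z A).union (zbd_fin h Z B)))
      (ncard_le_ncard h2 ((zbd_fin h Z A).inter_of_left _))
  refine ⟨by simp [zf, zbd, hv], fun A B => key _ _ _ _ ?_ ?_, fun A B => key _ _ _ _ ?_ ?_⟩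
  · rintro v (⟨⟨a, ha, k⟩, ⟨b, hb, l⟩ | l⟩ | ⟨⟨a, ha | ha, k⟩, ⟨b, hb, l⟩ | l⟩)
    · by_cases c : b ∈ A
      exacts [Or.inr ⟨⟨a, ha.2, k⟩, Or.inl ⟨b, fun d => hb ⟨c, d⟩, l⟩⟩,
        Or.inl ⟨⟨a, ha.1, k⟩, Or.inl ⟨b, c, l⟩⟩]
    · exact Or.inl ⟨⟨a, ha.1, k⟩, Or.inr l⟩
    · exact Or.inl ⟨⟨a, ha, k⟩, Or.inl ⟨b, fun d => hb (Or.inl d), l⟩⟩
    · exact Or.inl ⟨⟨a, ha, k⟩, Or.inr l⟩
    · exact Or.inr ⟨⟨a, ha, k⟩, Or.inl ⟨b, fun d => hb (Or.inr d), l⟩⟩
    · exact Or.inr ⟨⟨a, ha, k⟩, Or.inr l⟩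
  · rintro v ⟨⟨⟨a, ha, k⟩, -⟩, -, ⟨b, hb, l⟩ | l⟩
    · exact ⟨⟨⟨a, ha.1, k⟩, Or.inl ⟨b, fun d => hb (Or.inl d), l⟩⟩,
        ⟨a, ha.2, k⟩, Or.inl ⟨b, fun d => hb (Or.inr d), l⟩⟩
    · exact ⟨⟨⟨a, ha.1, k⟩, Or.inr l⟩, ⟨a, ha.2, k⟩, Or.inr l⟩
  · rintro v (⟨⟨a, ha, k⟩, ⟨b, hb, l⟩ | l⟩ | ⟨⟨a, ha, k⟩, ⟨b, hb, l⟩ | l⟩)
    · by_cases c : b ∈ A
      exacts [Or.inr ⟨⟨b, not_not.1 fun d => hb ⟨c, d⟩, l⟩, Or.inl ⟨a, ha.2, k⟩⟩,
        Or.inl ⟨⟨a, ha.1, k⟩, Or.inl ⟨b, c, l⟩⟩]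
    · exact Or.inl ⟨⟨a, ha.1, k⟩, Or.inr l⟩
    · by_cases c : b ∈ B
      exacts [Or.inl ⟨⟨b, not_not.1 fun d => hb ⟨c, d⟩, l⟩, Or.inl ⟨a, ha.2, k⟩⟩,
        Or.inr ⟨⟨a, ha.1, k⟩, Or.inl ⟨b, c, l⟩⟩]
    · exact Or.inr ⟨⟨a, ha.1, k⟩, Or.inr l⟩
  · rintro v ⟨⟨⟨a, ha, k⟩, -⟩, ⟨b, hb, l⟩, -⟩
    exact ⟨⟨⟨a, ha.1, k⟩, Or.inl ⟨b, hb.2, l⟩⟩, ⟨b, hb.1, l⟩, Or.inl ⟨a, ha.2, k⟩⟩

theorem hf_sym [Finite ε] (h : ∀ a, (inc a).Finite) : Sym (hf inc) where
  toSubm := by
    have := zf_subm h ∅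
    rwa [show zf inc ∅ = hf inc from funext zf_empty] at this
  cpl U := by rw [hf, hbd_compl, hf]

theorem AG.inc_fin (σ : AG) (a : σ.ε) : (σ.inc a).Finite := by
  refine Finite.inter_of_left ?_ _
  refine (((σ.pfin a).image Prod.fst).union ((σ.pfin a).image Prod.snd)).subset ?_
  rintro v ⟨p, hp, rfl | rfl⟩
  exacts [Or.inl ⟨p, hp, rfl⟩, Or.inr ⟨p, hp, rfl⟩]

theorem AG.sym (σ : AG) : Sym σ.f := hf_sym σ.inc_fin

end hyper

/-- Uncrossing: two disjoint sets are rounded along disjoint robust sets that they cover. -/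
theorem unc2 {F : Set ε → ℕ} (hF : pl.Subm F) {M : Set (Set ε)} (hM : M.Finite)
    (hd : M.PairwiseDisjoint id) (hr : ∀ C ∈ M, ARob F C) {S S' : Set ε} (h0 : Disjoint S S')
    (h1 : ∀ C ∈ M, C ⊆ S ∪ S') :
    ∃ R R', Disjoint R R' ∧ R ∪ R' = S ∪ S' ∧ F R ≤ F S ∧ F R' ≤ F S' ∧
      (∀ C ∈ M, (C ⊆ R ∨ C ⊆ R') ∧ (C ⊆ S → C ⊆ R) ∧ (C ⊆ S' → C ⊆ R')) ∧
      ∀ x, (∀ C ∈ M, x ∉ C) → (x ∈ R ↔ x ∈ S) ∧ (x ∈ R' ↔ x ∈ S') := by
  induction M, hM using Finite.induction_on with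
  | empty => exact ⟨S, S', h0, rfl, le_rfl, le_rfl, fun _ k => k.elim, fun _ _ => ⟨Iff.rfl, Iff.rfl⟩⟩
  | @insert C M hC _ ih =>
    obtain ⟨R, R', a1, a2, a3, a4, a5, a6⟩ := ih (hd.subset (subset_insert _ _))
      (fun D k => hr D (Or.inr k)) fun D k => h1 D (Or.inr k)
    have dj : ∀ D ∈ M, ∀ x ∈ C, x ∉ D := fun D k x hx l =>
      disjoint_left.1 (hd (Or.inl rfl) (Or.inr k) fun e => hC (e ▸ k)) hx l
    have cov : C ⊆ R ∪ R' := a2 ▸ h1 C (Or.inl rfl)
    have e1 : ∀ x ∈ C, (x ∈ R ↔ x ∈ S) ∧ (x ∈ R' ↔ x ∈ S') := fun x hx =>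
      a6 x fun D k => dj D k x hx
    have step : ∀ P P' : Set ε, Disjoint P P' → C ⊆ P ∪ P' → F C ≤ F (P ∩ C) →
        Disjoint (P ∪ C) (P' \ C) ∧ P ∪ C ∪ P' \ C = P ∪ P' ∧ F (P ∪ C) ≤ F P ∧
          F (P' \ C) ≤ F P' := by
      intro P P' b1 b2 b3
      refine ⟨disjoint_union_left.2 ⟨b1.mono_right sdiff_subset, disjoint_sdiff_right⟩, ?_, ?_, ?_⟩
      · rw [union_assoc, union_sdiff_self, union_comm C, ← union_assoc]
        exact union_eq_self_of_subset_right b2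
      · have := hF.sub P C
        omega
      · have := hF.pos P' C
        have e : C \ P' = P ∩ C := by
          ext x
          exact ⟨fun k => ⟨(b2 k.1).resolve_right k.2, k.1⟩,
            fun k => ⟨k.2, disjoint_left.1 b1 k.1⟩⟩
        rw [e] at this
        omega
    have fin : ∀ P P' Q Q' : Set ε, (∀ x ∈ C, x ∈ P' ↔ x ∈ Q') → Disjoint Q Q' →
        (¬ C ⊆ Q' ∨ C = ∅) → C ⊆ Q' → C ⊆ P' \ C := by
      rintro P P' Q Q' - - (k | rfl) l
      exacts [absurd l k, empty_subset _]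
    by_cases c : (F C ≤ F (R ∩ C) ∧ ¬ C ⊆ S') ∨ C ⊆ S
    · have c1 : F C ≤ F (R ∩ C) := c.elim (·.1) fun k => by
        rw [inter_eq_self_of_subset_right fun x hx => (e1 x hx).1.2 (k hx)]
      have c2 : ¬ C ⊆ S' ∨ C = ∅ := c.elim (fun k => Or.inl k.2) fun k => by
        by_cases l : C ⊆ S'
        exacts [Or.inr (subset_eq_empty (subset_inter k l) h0.inter_eq), Or.inl l]
      obtain ⟨b1, b2, b3, b4⟩ := step R R' a1 cov c1
      refine ⟨R ∪ C, R' \ C, b1, b2.trans a2, b3.trans a3, b4.trans a4, ?_, fun x hx => ?_⟩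
      · rintro D (rfl | k)
        · exact ⟨Or.inl subset_union_right, fun _ => subset_union_right,
            fin R R' S S' (fun x hx => (e1 x hx).2) h0 c2⟩
        · have s : D ⊆ R' → D ⊆ R' \ C := fun l x hx => ⟨l hx, fun m => dj D k x m hx⟩
          exact ⟨(a5 D k).1.imp (·.trans subset_union_left) s,
            fun l => ((a5 D k).2.1 l).trans subset_union_left, fun l => s ((a5 D k).2.2 l)⟩
      · have := a6 x fun D k => hx D (Or.inr k)
        have l := hx C (Or.inl rfl)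
        simp only [mem_union, mem_sdiff, l, or_false, not_false_eq_true, and_true]
        exact this
    · push Not at c
      have c1 : F C ≤ F (R' ∩ C) := by
        by_cases l : C ⊆ S'
        · rw [inter_eq_self_of_subset_right fun x hx => (e1 x hx).2.2 (l hx)]
        · rcases hr C (Or.inl rfl) (R ∩ C) inter_subset_right with k | k
          · exact absurd (c.1 k) l
          · have e : C \ (R ∩ C) = R' ∩ C := by
              ext x
              exact ⟨fun k => ⟨(cov k.1).resolve_left fun m => k.2 ⟨m, k.1⟩, k.1⟩,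
                fun k => ⟨k.2, fun m => disjoint_left.1 a1 m.1 k.1⟩⟩
            exact e ▸ k
      obtain ⟨b1, b2, b3, b4⟩ := step R' R a1.symm (union_comm R R' ▸ cov) c1
      refine ⟨R \ C, R' ∪ C, b1.symm, by rw [union_comm, b2, union_comm, a2], b4.trans a3,
        b3.trans a4, ?_, fun x hx => ?_⟩
      · rintro D (rfl | k)
        · exact ⟨Or.inr subset_union_right, fun l => absurd l c.2, fun _ => subset_union_right⟩
        · have s : D ⊆ R → D ⊆ R \ C := fun l x hx => ⟨l hx, fun m => dj D k x m hx⟩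
          exact ⟨(a5 D k).1.imp s (·.trans subset_union_left), fun l => s ((a5 D k).2.1 l),
            fun l => ((a5 D k).2.2 l).trans subset_union_left⟩
      · have := a6 x fun D k => hx D (Or.inr k)
        have l := hx C (Or.inl rfl)
        simp only [mem_union, mem_sdiff, l, or_false, not_false_eq_true, and_true]
        exact this

variable {f : Set ε → ℕ} {θ : ℕ}

namespace Tangle

variable (T : Tangle f θ) {U U' : Set ε}

theorem not_both (h : U ∈ T.sm) : Uᶜ ∉ T.sm := fun k => T.cov U h _ k U h (by simp)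

theorem univ_not : univ ∉ T.sm := fun k => T.cov _ k _ k _ k (by simp)

theorem sub_small (h : U ∈ T.sm) (h1 : U' ⊆ U) (h2 : f U' < θ) : U' ∈ T.sm :=
  (T.tot U' h2).resolve_right fun k => T.cov U h _ k U h (eq_univ_of_forall fun x => by
    by_cases c : x ∈ U'
    exacts [Or.inr (h1 c), Or.inl (Or.inr c)])

theorem union_small (h : U ∈ T.sm) (h1 : U' ∈ T.sm) (h2 : f (U ∪ U') < θ) : U ∪ U' ∈ T.sm :=
  (T.tot _ h2).resolve_right fun k => T.cov U h _ h1 _ k (union_compl_self _)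

/-- a superset of a big set is big -/
theorem sup_big (hf : Sym f) (h : Uᶜ ∈ T.sm) (h1 : U ⊆ U') (h2 : f U' < θ) : U'ᶜ ∈ T.sm :=
  T.sub_small h (compl_subset_compl.2 h1) (by rwa [hf.cpl])

theorem inter_big (h : Uᶜ ∈ T.sm) (h1 : U'ᶜ ∈ T.sm) (h2 : f (U ∩ U') < θ) : (U ∩ U')ᶜ ∈ T.sm :=
  (T.tot _ h2).resolve_left fun k => T.cov _ h _ h1 _ k (by rw [← compl_inter]; simp)

theorem big_meet (h : Uᶜ ∈ T.sm) (h1 : U'ᶜ ∈ T.sm) : (U ∩ U').Nonempty := by
  by_contra c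
  refine T.cov _ h _ h1 _ h (eq_univ_of_forall fun x => ?_)
  by_cases d : x ∈ U
  exacts [Or.inl (Or.inr fun k => c ⟨x, d, k⟩), Or.inr d]

theorem small_miss (h : U ∈ T.sm) (h1 : U' ∈ T.sm) : U ∪ U' ≠ univ := fun c =>
  T.cov _ h _ h1 _ h (by rw [c]; simp)

theorem small_or (h : Uᶜ ∉ T.sm) (h1 : f U < θ) : U ∈ T.sm :=
  (T.tot U h1).resolve_right h

theorem compl_ord (hf : Sym f) (h : Uᶜ ∈ T.sm) : f U < θ := hf.cpl U ▸ T.ord _ h

theorem big_nonempty (h : Uᶜ ∈ T.sm) : U.Nonempty := (T.big_meet h h).mono inter_subset_left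

/-- truncation -/
def trunc (hf : Sym f) {θ' : ℕ} (h : θ' ≤ θ) : Tangle f θ' where
  sm := {U | U ∈ T.sm ∧ f U < θ'}
  ord _ k := k.2
  tot U k := (T.tot U (k.trans_le h)).imp (fun l => ⟨l, k⟩) fun l => ⟨l, by rwa [hf.cpl]⟩
  cov _ a _ b _ c := T.cov _ a.1 _ b.1 _ c.1
  atom a k := T.atom a k.1

end Tangle

section dist

variable [Finite ε] {e : ε} {T T' S S' : Tangle f θ} {D D' U Y C C' : Set ε}
  {N : Set (Tangle f θ)}

/-- the weight of a set -/
noncomputable def w0 (U : Set ε) : ℕ := ∑ a ∈ (toFinite U).toFinset, 2 ^ idx a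

theorem w0_mono {A B : Set ε} (h : A ⊆ B) : w0 A ≤ w0 B :=
  Finset.sum_le_sum_of_subset (by simpa using h)

theorem w0_mod (A B : Set ε) : w0 (A ∩ B) + w0 (A ∪ B) = w0 A + w0 B := by
  classical
  unfold w0
  rw [add_comm, ← Finset.sum_union_inter (s₁ := (toFinite A).toFinset)]
  congr 2 <;> ext x <;> simp

theorem w0_inj {A B : Set ε} (h : w0 A = w0 B) : A = B := by
  classical
  have i : Injective (idx (ε := ε)) := fun a b k => (Finite.equivFin ε).injective (Fin.ext k)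
  have k : ∀ X : Set ε, w0 X = ∑ n ∈ (toFinite X).toFinset.image idx, 2 ^ n := fun X =>
    (Finset.sum_image fun _ _ _ _ k => i k).symm
  rw [k, k] at h
  have := Finset.image_injective i (Finset.geomSum_injective le_rfl h)
  simpa using this

theorem wt_pos (h : e ∈ U) : wt e U = w0 Uᶜ := by unfold wt w0; simp only [if_pos h]

theorem wt_neg (h : e ∉ U) : wt e U = w0 U := by unfold wt w0; simp only [if_neg h]

theorem wt_compl (U : Set ε) : wt e Uᶜ = wt e U := by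
  by_cases c : e ∈ U
  · rw [wt_pos c, wt_neg fun k : e ∈ Uᶜ => k c]
  · rw [wt_neg c, wt_pos (show e ∈ Uᶜ from c), compl_compl]

theorem wt_inj (h : wt e U = wt e Y) : Y = U ∨ Y = Uᶜ := by
  by_cases c : e ∈ U <;> by_cases d : e ∈ Y
  · rw [wt_pos c, wt_pos d] at h
    exact Or.inl (compl_injective (w0_inj h)).symm
  · rw [wt_pos c, wt_neg d] at h
    exact Or.inr (w0_inj h).symm
  · rw [wt_neg c, wt_pos d] at h
    exact Or.inr (by rw [w0_inj h, compl_compl])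
  · rw [wt_neg c, wt_neg d] at h
    exact Or.inl (w0_inj h).symm

theorem wt_sub (A B : Set ε) : wt e (A ∩ B) + wt e (A ∪ B) ≤ wt e A + wt e B := by
  by_cases c : e ∈ A <;> by_cases d : e ∈ B
  · rw [wt_pos c, wt_pos d, wt_pos (show e ∈ A ∩ B from ⟨c, d⟩), wt_pos (mem_union_left B c),
      compl_inter, compl_union, add_comm, w0_mod]
  · rw [wt_pos c, wt_neg d, wt_neg fun k : e ∈ A ∩ B => d k.2, wt_pos (mem_union_left B c),
      add_comm]
    exact add_le_add (w0_mono (compl_subset_compl.2 subset_union_left)) (w0_mono inter_subset_right)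
  · rw [wt_neg c, wt_pos d, wt_neg fun k : e ∈ A ∩ B => c k.1, wt_pos (mem_union_right A d)]
    exact add_le_add (w0_mono inter_subset_left) (w0_mono (compl_subset_compl.2 subset_union_right))
  · rw [wt_neg c, wt_neg d, wt_neg fun k : e ∈ A ∩ B => c k.1,
      wt_neg fun k : e ∈ A ∪ B => k.elim c d, w0_mod]

theorem wt_posi (A B : Set ε) : wt e (A \ B) + wt e (B \ A) ≤ wt e A + wt e B := by
  have h := wt_sub (e := e) A Bᶜ
  have k : A ∪ Bᶜ = (B \ A)ᶜ := by rw [sdiff_eq, compl_inter, compl_compl, union_comm]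
  rwa [k, wt_compl, wt_compl, ← sdiff_eq] at h

theorem LamLe.total (U Y : Set ε) : LamLe f e U Y ∨ LamLe f e Y U := by
  unfold LamLe; omega

theorem LamLe.trans (h : LamLe f e U Y) (h' : LamLe f e Y D) : LamLe f e U D := by
  unfold LamLe at *; omega

theorem LamLe.le (h : LamLe f e U Y) : f U ≤ f Y := by
  unfold LamLe at h; omega

theorem LamLe.anti (h : LamLe f e U Y) (h' : LamLe f e Y U) : Y = U ∨ Y = Uᶜ :=
  wt_inj (e := e) (by unfold LamLe at *; omega)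

theorem LamLe.compl_left (hf : Sym f) : LamLe f e Uᶜ Y ↔ LamLe f e U Y := by
  rw [LamLe, LamLe, hf.cpl, wt_compl]

theorem LamLe.compl_right (hf : Sym f) : LamLe f e U Yᶜ ↔ LamLe f e U Y := by
  rw [LamLe, LamLe, hf.cpl, wt_compl]

/-- a nonempty family has a least member for the tie breaker -/
theorem exists_lam_min {A : Set (Set ε)} (h : A.Nonempty) : ∃ D ∈ A, ∀ U ∈ A, LamLe f e D U := by
  obtain ⟨D, h1, h2⟩ := exists_min_image A (fun U => toLex (f U, wt e U)) (toFinite A) h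
  exact ⟨D, h1, fun U k => by simpa [Prod.Lex.toLex_le_toLex, LamLe] using h2 U k⟩

theorem exists_lam_max {A : Set (Set ε)} (h : A.Nonempty) : ∃ D ∈ A, ∀ U ∈ A, LamLe f e U D := by
  obtain ⟨D, h1, h2⟩ := exists_max_image A (fun U => toLex (f U, wt e U)) (toFinite A) h
  exact ⟨D, h1, fun U k => by simpa [Prod.Lex.toLex_le_toLex, LamLe] using h2 U k⟩

theorem exists_dist_of (h : U ∈ T.sm) (h' : Uᶜ ∈ T'.sm) : ∃ D, IsDist e T T' D := by
  obtain ⟨D, h1, h2⟩ := exists_lam_min (f := f) (e := e) (A := {U | U ∈ T.sm ∧ Uᶜ ∈ T'.sm})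
    ⟨U, h, h'⟩
  exact ⟨D, h1.1, h1.2, fun U a b => h2 U ⟨a, b⟩⟩

theorem exists_dist (h : T ≠ T') : ∃ D, IsDist e T T' D := by
  by_contra c
  refine h (Tangle.ext (subset_antisymm (fun U k => ?_) fun U k => ?_))
  · exact (T'.tot U (T.ord U k)).resolve_right fun l => c (exists_dist_of k l)
  · exact (T.tot U (T'.ord U k)).resolve_right fun l =>
      c (exists_dist_of l (by rwa [compl_compl]))

namespace IsDist

theorem ne (h : IsDist e T T' D) : T ≠ T' := by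
  rintro rfl
  exact T.not_both h.1 h.2.1

theorem nonempty (h : IsDist e T T' D) : D.Nonempty := T'.big_nonempty h.2.1

theorem ord (h : IsDist e T T' D) : f D < θ := T.ord D h.1

/-- a separating set that is not larger for the tie breaker is the distinction -/
theorem eq_of (h : IsDist e T T' D) (h1 : U ∈ T.sm) (h2 : Uᶜ ∈ T'.sm) (h3 : LamLe f e U D) :
    U = D :=
  ((h.2.2 U h1 h2).anti h3).resolve_right fun k => T.not_both h.1 (k ▸ h1)

theorem uniq (h : IsDist e T T' D) (h' : IsDist e T T' D') : D' = D :=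
  h.eq_of h'.1 h'.2.1 (h'.2.2 D h.1 h.2.1)

theorem symm (hf : Sym f) (h : IsDist e T T' D) : IsDist e T' T Dᶜ :=
  ⟨h.2.1, by rw [compl_compl]; exact h.1, fun U a b => (LamLe.compl_left hf).2
    ((LamLe.compl_right hf).1 (h.2.2 Uᶜ b (by rwa [compl_compl])))⟩

theorem fmin (h : IsDist e T T' D) (h1 : U ∈ T.sm) (h2 : Uᶜ ∈ T'.sm) : f D ≤ f U :=
  (h.2.2 U h1 h2).le

/-- a big subset is not cheaper -/
theorem strong (hf : Sym f) (h : IsDist e T T' D) (h1 : U ⊆ D) (h2 : Uᶜ ∈ T'.sm) : f D ≤ f U :=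
  h.fmin (T.sub_small h.1 h1 (T'.compl_ord hf h2)) h2

/-- MAX -/
theorem max (hf : Sym f) (h : IsDist e T T' D) (h1 : Yᶜ ∈ T'.sm) : f D ≤ f (D ∩ Y) := by
  by_contra c
  exact c (h.strong hf inter_subset_left (T'.inter_big h.2.1 h1 ((not_le.1 c).trans h.ord)))

/-- MIN -/
theorem min (h : IsDist e T T' D) (h0 : e ∉ D) (h1 : Yᶜ ∈ T'.sm) (h2 : f (D ∩ Y) ≤ f D) :
    D ⊆ Y := by
  have o := h2.trans_lt h.ord
  have k : wt e (D ∩ Y) ≤ wt e D := by
    rw [wt_neg h0, wt_neg fun k : e ∈ D ∩ Y => h0 k.1]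
    exact w0_mono inter_subset_left
  exact inter_eq_left.1 (h.eq_of (T.sub_small h.1 inter_subset_left o) (T'.inter_big h.2.1 h1 o)
    (by unfold LamLe; omega))

theorem rob (hf : Sym f) (h : IsDist e T T' D) : ARob f D := by
  intro U hU
  by_contra c
  push Not at c
  have k : ∀ X ⊆ D, f X < f D → X ∈ T'.sm := fun X a b =>
    (T'.tot X (b.trans h.ord)).resolve_right fun l => absurd (h.strong hf a l) (not_le.2 b)
  refine T'.cov _ (k U hU c.1) _ (k _ sdiff_subset c.2) _ h.2.1 ?_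
  rw [union_sdiff_cancel hU, union_compl_self]

theorem lam_aux (hf : Sym f) (h : IsDist e T T' D) (h' : IsDist e S S' D')
    (a : D ∈ S.sm) (b : D ∈ S'.sm) : D ⊆ D' ∨ Disjoint D D' := by
  by_cases c1 : LamLe f e (D' ∪ D) D'
  · have o := c1.le.trans_lt h'.ord
    exact Or.inl (union_eq_left.1 (h'.eq_of (S.union_small h'.1 a o)
      (S'.sup_big hf h'.2.1 subset_union_left o) c1))
  by_cases c2 : LamLe f e (D' \ D) D'
  · have o := c2.le.trans_lt h'.ord
    refine Or.inr (sdiff_eq_left.1 (h'.eq_of (S.sub_small h'.1 sdiff_subset o) ?_ c2)).symm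
    rw [sdiff_eq] at o ⊢
    exact S'.inter_big h'.2.1 (by rwa [compl_compl]) o
  have s1 := hf.sub D D'
  have s2 := hf.pos D D'
  have s3 := wt_sub (e := e) D D'
  have s4 := wt_posi (e := e) D D'
  rw [union_comm] at s1 s3
  have k : ∀ X ⊆ D, ¬ LamLe f e D X → X ∈ T'.sm := fun X p q => by
    have o : f X < θ := ((LamLe.total D X).resolve_left q).le.trans_lt h.ord
    exact (T'.tot X o).resolve_right fun l => q (h.2.2 X (T.sub_small h.1 p o) l)
  refine absurd ?_ (T'.cov _ (k (D ∩ D') inter_subset_left ?_) _ (k (D \ D') sdiff_subset ?_) _ h.2.1)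
  · rw [inter_union_sdiff, union_compl_self]
  · unfold LamLe at *; omega
  · unfold LamLe at *; omega

/-- distinctions are laminar -/
theorem laminar (hf : Sym f) (h : IsDist e T T' D) (h' : IsDist e S S' D') :
    D ⊆ D' ∨ D' ⊆ D ∨ Disjoint D D' ∨ D ∪ D' = univ := by
  have key : ∀ {T T' S S' : Tangle f θ} {D D' : Set ε}, IsDist e T T' D → IsDist e S S' D' →
      LamLe f e D D' → D ⊆ D' ∨ D' ⊆ D ∨ Disjoint D D' ∨ D ∪ D' = univ := by
    intro T T' S S' D D' h h' hl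
    have o : f D < θ := h.ord
    rcases S.tot D o with a | a <;> rcases S'.tot D o with b | b
    · exact (h.lam_aux hf h' a b).imp id fun k => Or.inr (Or.inl k)
    · exact Or.inl (h'.eq_of a b hl).subset
    · have := h'.eq_of a (by rwa [compl_compl]) ((LamLe.compl_left hf).2 hl)
      exact Or.inr (Or.inr (Or.inl (this ▸ disjoint_compl_right)))
    · rcases (h.symm hf).lam_aux hf h' a b with k | k
      · exact Or.inr (Or.inr (Or.inr (compl_subset_iff_union.1 k)))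
      · exact Or.inr (Or.inl (disjoint_compl_left_iff_subset.1 k))
  rcases LamLe.total (f := f) (e := e) D D' with k | k
  · exact key h h' k
  · rcases key h' h k with l | l | l | l
    exacts [Or.inr (Or.inl l), Or.inl l, Or.inr (Or.inr (Or.inl l.symm)),
      Or.inr (Or.inr (Or.inr (union_comm D D' ▸ l)))]

/-- two distinctions with a common small side and a common big side are nested -/
theorem nested (hf : Sym f) (h : IsDist e T T' D) (h' : IsDist e S S' D') {P Q : Tangle f θ}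
    (a : D ∈ P.sm) (a' : D' ∈ P.sm) (b : Dᶜ ∈ Q.sm) (b' : D'ᶜ ∈ Q.sm) : D ⊆ D' ∨ D' ⊆ D := by
  rcases h.laminar hf h' with k | k | k | k
  exacts [Or.inl k, Or.inr k, absurd (Q.big_meet b b') (not_nonempty_iff_eq_empty.2 k.inter_eq),
    absurd k (P.small_miss a a')]

end IsDist

theorem cut_dist (h : C ∈ Cut e T N) : ∃ T' ∈ N, IsDist e T T' C := h.1

theorem cut_small (h : C ∈ Cut e T N) : C ∈ T.sm := let ⟨_, _, k⟩ := h.1; k.1

theorem cut_rob (hf : Sym f) (h : C ∈ Cut e T N) : ARob f C := let ⟨_, _, k⟩ := h.1; k.rob hf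

theorem cut_disj (hf : Sym f) : (Cut e T N).PairwiseDisjoint id := by
  intro C h C' h' n
  obtain ⟨_, _, k⟩ := h.1
  obtain ⟨_, _, k'⟩ := h'.1
  rcases k.laminar hf k' with l | l | l | l
  exacts [absurd (h.2 _ h'.1 l).symm n, absurd (h'.2 _ h.1 l) n, l,
    absurd l (T.small_miss k.1 k'.1)]

/-- every distinction lies in a maximal one -/
theorem exists_cut (h : D ∈ Dists e T N) : ∃ C ∈ Cut e T N, D ⊆ C := by
  obtain ⟨C, h1, h2⟩ := (toFinite (Dists e T N)).exists_le_maximal h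
  exact ⟨C, ⟨h2.1, fun C' a b => subset_antisymm (h2.2 a b) b⟩, h1⟩

/-- every other tangle of `N` is big on a member -/
theorem big_on_cut (hf : Sym f) (h : T' ∈ N) (n : T ≠ T') : ∃ C ∈ Cut e T N, Cᶜ ∈ T'.sm := by
  obtain ⟨D, k⟩ := exists_dist (e := e) n
  obtain ⟨C, h1, h2⟩ := exists_cut (N := N) ⟨T', h, k⟩
  exact ⟨C, h1, T'.sup_big hf k.2.1 h2 (T.ord C (cut_small h1))⟩

theorem out_eq (hf : Sym f) (h : C ∈ Cut e T N) (h0 : e ∈ C) : Out e T N = C := by
  refine subset_antisymm (sUnion_subset fun C' k => ?_) (subset_sUnion_of_mem ⟨h, h0⟩)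
  by_contra c
  exact disjoint_left.1 (cut_disj hf k.1 h fun l => c l.subset) k.2 h0

theorem out_cases (hf : Sym f) : (Out e T N = ∅ ∧ ∀ C ∈ Cut e T N, e ∉ C) ∨
    (Out e T N ∈ Cut e T N ∧ e ∈ Out e T N) := by
  by_cases c : ∃ C ∈ Cut e T N, e ∈ C
  · obtain ⟨C, h, h0⟩ := c
    rw [out_eq hf h h0]
    exact Or.inr ⟨h, h0⟩
  · push Not at c
    exact Or.inl ⟨sUnion_eq_empty.2 fun C k => absurd k.2 (c C k.1), c⟩

theorem out_disj (hf : Sym f) (h : C ∈ Cut e T N) (h0 : e ∉ C) : Disjoint C (Out e T N) :=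
  disjoint_sUnion_right.2 fun _ k => cut_disj hf h k.1 fun l => h0 (l ▸ k.2)

end dist

end Pool.Agent.MP_9d78a0_co.gm
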