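import Pool.Agent.MP_9d78a0_co.gm.SpecOp
import Pool.Agent.MP_9d78a0_co.gm.Map
import Pool.Agent.MP_9d78a0_co.gm.Tg

-- ======== part 0: formerly Pool.Agent.MP_9d78a0_co.gm.SpecH
section MrgPart0

/-! The statements of block H that are used outside the block, and the raw form of the
structure theorem. -/

set_option autoImplicit false

namespace Pool.Agent.MP_9d78a0_co.gm

open Set Function

/-- a preliminary structure with new sides only, of size at most `w1`, whose frame and grid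
are large for its size -/
def PreN {σ : AG} {θ : ℕ} (T : Tangle σ.f θ) (e : σ.ε) (ρ : ℕ → ℕ) (w1 : ℕ) (t : Sh σ)
    (Sd : Set σ.ε) : Prop :=
  ∃ w ≤ w1, ∃ (Sb : t.ι → ℕ → Prop) (tt : t.ι → ℕ → Ty) (g R : ℕ) (B : Fin g × Fin g → Set MV),
    ρ w ≤ R ∧ ρ w ≤ g ∧ Pre T e t Sd Sb (fun _ => Md.new) tt B w R

/-- every raw structure gives a preliminary one -/
def LoopS : Prop :=
  ∀ (k q s D l : ℕ) (ρ : ℕ → ℕ), ∃ w1 g0 θ1 : ℕ, ∀ (σ : AG) (θ : ℕ) (T : Tangle σ.f θ) (e : σ.ε)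
    (r : Rw σ) (g : ℕ) (B : Fin g × Fin g → Set MV), θ1 ≤ θ → g0 ≤ g → σ.Rob → r.Ok k q s D l →
    r.s.Spk → r.s.Grid B → Ctl σ T B θ1 →
    ∃ (t : Sh σ) (Sd : Set σ.ε), PreN T e ρ w1 t Sd ∧ t.s.M.eg ≤ k ∧ (t.s.H ∩ t.s.Vt).ncard ≤ w1

/-- a small cut lowers the genus, or lowers the number of holes and keeps the cells -/
def DropS : Prop :=
  ∀ (k q s D l n : ℕ) (ρ : ℕ → ℕ), ∃ w1 g0 θ1 : ℕ, ∀ (σ : AG) (θ : ℕ) (T : Tangle σ.f θ) (e : σ.ε)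
    (r : Rw σ) (g : ℕ) (B : Fin g × Fin g → Set MV) (I : Set Lab), θ1 ≤ θ → g0 ≤ g → σ.Rob →
    r.Ok k q s D l → r.s.Spk → r.Keep I → r.s.Grid B → Ctl σ T B θ1 → ¬ r.s.NF B n →
    ∃ (t : Sh σ) (Sd : Set σ.ε), PreN T e ρ w1 t Sd ∧
      ((t.s.M.eg < k ∧ (t.s.H ∩ t.s.Vt).ncard ≤ w1) ∨
        (t.s.M.eg ≤ k ∧ (t.s.H ∩ t.s.Vt).ncard < q ∧ t.Str ∧ t.Lb Sd I))

/-- the holes absorb all cells that at most `m` nodes enclose with a hole -/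
def VortS : Prop :=
  ∀ (k q s D l m : ℕ) (ρ : ℕ → ℕ), ∃ w1 n g0 θ1 : ℕ, ∀ (σ : AG) (θ : ℕ) (T : Tangle σ.f θ)
    (e : σ.ε) (r : Rw σ) (g : ℕ) (B : Fin g × Fin g → Set MV) (I : Set Lab), θ1 ≤ θ → g0 ≤ g →
    σ.Rob → r.Ok k q s D l → r.s.Spk → r.Keep I → r.s.Grid B → Ctl σ T B θ1 → r.s.NF B n →
    ∃ (t : Sh σ) (Sd : Set σ.ε), PreN T e ρ w1 t Sd ∧
      ((t.s.M.eg < k ∧ (t.s.H ∩ t.s.Vt).ncard ≤ w1) ∨ (t.s.M.eg ≤ k ∧
        (t.s.H ∩ t.s.Vt).ncard ≤ q ∧ t.Str ∧ ∀ x ∈ t.s.Ce, x ∈ r.s.Good ∧ t.ct x = r.ct x ∧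
          t.s.Rd x ⊆ r.s.Rd x ∧ ¬ r.s.Enc B m x))

/-- every atom is a pair of ordinary vertices -/
def AG.Plain (σ : AG) : Prop := ∀ a, ∃ u ∈ Od, ∃ v ∈ Od, σ.pc a = {(u, v)}

/-- the structure theorem in raw form -/
def RawS : Prop :=
  ∀ h, ∃ k q D l : ℕ, ∀ g1 θ1, ∃ g0 θ0, ∀ (σ : AG) (θ : ℕ) (T : Tangle σ.f θ)
    (B : Fin g0 × Fin g0 → Set W), θ0 ≤ θ → σ.Plain → fb.NoK h (gr (σ.un univ)) →
    Model (fb.grid g0) (gr (σ.un univ)) univ B → Ctl σ T (fun p => Sum.inl '' B p) θ0 →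
    ∃ (r : Rw σ) (B1 : Fin g1 × Fin g1 → Set MV), r.Ok k q 0 D l ∧ r.s.Spk ∧ r.s.Grid B1 ∧ Ctl σ T B1 θ1

end Pool.Agent.MP_9d78a0_co.gm

end MrgPart0

-- ======== part 1: formerly Pool.Agent.MP_9d78a0_co.gm.A0
section MrgPart1

/-! Block A, basics: plain rooted models, the order on labels. -/

set_option autoImplicit false

namespace Pool.Agent.MP_9d78a0_co.gm

open Set Function

variable {ι κ : Type} {X X' X'' : Pc} {R R' R'' D D' D'' : Set W} {B C : W → Set W} {u v : W}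

theorem VV_mono (h : X ⊆ X') : VV X ⊆ VV X' := fun _ ⟨p, hp, e⟩ => ⟨p, h hp, e⟩

theorem gr_mono (h : X ⊆ X') : gr X ≤ gr X' := fun _ _ k => ⟨k.1, k.2.imp (@h _) (@h _)⟩

theorem gr_mem (h : (gr X).Adj u v) : u ∈ VV X :=
  h.2.elim (fun k => ⟨_, k, Or.inl rfl⟩) fun k => ⟨_, k, Or.inr rfl⟩

theorem VV_union (X Y : Pc) : VV (X ∪ Y) = VV X ∪ VV Y := by
  ext v; simp only [VV, mem_union, mem_ofPred_eq, or_and_right, exists_or]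

theorem VV_iUnion (X : ι → Pc) : VV (⋃ i, X i) = ⋃ i, VV (X i) := by
  ext v
  simp only [VV, mem_iUnion, mem_ofPred_eq]
  exact ⟨fun ⟨p, ⟨i, h⟩, e⟩ => ⟨i, p, h, e⟩, fun ⟨i, p, h, e⟩ => ⟨p, ⟨i, h⟩, e⟩⟩

@[simp] theorem VV_empty : VV ∅ = ∅ := by simp [VV]

theorem VV_finite (h : X.Finite) : (VV X).Finite :=
  ((h.image Prod.fst).union (h.image Prod.snd)).subset fun _ ⟨p, hp, e⟩ =>
    e.elim (fun e => Or.inl ⟨p, hp, e.symm⟩) fun e => Or.inr ⟨p, hp, e.symm⟩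

theorem VV_ren (r : W → W) (X : Pc) : VV (ren r X) = r '' VV X := by
  ext v
  constructor
  · rintro ⟨_, ⟨p, hp, rfl⟩, e | e⟩
    exacts [⟨p.1, ⟨p, hp, Or.inl rfl⟩, e.symm⟩, ⟨p.2, ⟨p, hp, Or.inr rfl⟩, e.symm⟩]
  · rintro ⟨_, ⟨p, hp, rfl | rfl⟩, rfl⟩
    exacts [⟨_, ⟨p, hp, rfl⟩, Or.inl rfl⟩, ⟨_, ⟨p, hp, rfl⟩, Or.inr rfl⟩]

theorem gr_ren {r : W → W} : (gr (ren r X)).Adj u v ↔
    u ≠ v ∧ ∃ a b, (gr X).Adj a b ∧ r a = u ∧ r b = v := by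
  constructor
  · rintro ⟨h, ⟨⟨a, b⟩, hp, e⟩ | ⟨⟨a, b⟩, hp, e⟩⟩ <;> obtain ⟨rfl, rfl⟩ := Prod.mk.inj e
    exacts [⟨h, a, b, ⟨fun c => h (congrArg r c), Or.inl hp⟩, rfl, rfl⟩,
      ⟨h, b, a, ⟨fun c => h (congrArg r c), Or.inr hp⟩, rfl, rfl⟩]
  · rintro ⟨h, a, b, ⟨-, k | k⟩, rfl, rfl⟩
    exacts [⟨h, Or.inl ⟨_, k, rfl⟩⟩, ⟨h, Or.inr ⟨_, k, rfl⟩⟩]

theorem od_or_nm (v : W) : v ∈ Od ∨ v ∈ Nm := by
  cases v
  exacts [Or.inl ⟨_, rfl⟩, Or.inr ⟨_, rfl⟩]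

theorem od_iff : v ∈ Od ↔ v ∉ Nm := by
  cases v <;> simp [Od, Nm]

theorem inr_nm (i : ℕ) : (Sum.inr i : W) ∈ Nm := ⟨i, rfl⟩

theorem conn_ren {S : Set W} (r : W → W) (h : Conn (gr X) S) : Conn (gr (ren r X)) (r '' S) := by
  refine ⟨h.1.image r, ?_⟩
  rintro _ ⟨a, ha, rfl⟩ _ ⟨b, hb, rfl⟩
  refine Link.map r (fun x hx y hy e => ?_) (h.2 a ha b hb)
  by_cases c : r x = r y
  · rw [c]; exact Link.refl _ _ _
  · exact Link.single ⟨x, hx, rfl⟩ ⟨y, hy, rfl⟩ (gr_ren.2 ⟨c, x, y, e, rfl, rfl⟩)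

/-- a connected set with a vertex outside the piece is a single vertex -/
theorem conn_out {S : Set W} (h : Conn (gr X) S) (hu : u ∈ S) (hv : v ∈ S) (c : u ∉ VV X) :
    v = u :=
  (pl.conn_eq_or h hu hv).elim Eq.symm fun ⟨_, k⟩ => absurd (gr_mem k) c

theorem conn_biUnion {V : Type} {G : SimpleGraph V} {I : Set ι} {S : ι → Set V} {T : Set V}
    (hT : Conn G T) (h : ∀ i ∈ I, Conn G (S i) ∧ (S i ∩ T).Nonempty) :
    Conn G (T ∪ ⋃ i ∈ I, S i) := by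
  obtain ⟨x, hx⟩ := hT.1
  have k : ∀ y ∈ T ∪ ⋃ i ∈ I, S i, Link G (T ∪ ⋃ i ∈ I, S i) x y := by
    rintro y (hy | hy)
    · exact (hT.2 x hx y hy).mono subset_union_left
    · obtain ⟨i, hi, hy⟩ := mem_iUnion₂.1 hy
      obtain ⟨z, h1, h2⟩ := (h i hi).2
      exact ((hT.2 x hx z h2).mono subset_union_left).trans (((h i hi).1.2 z h1 y hy).mono
        ((subset_biUnion_of_mem hi).trans subset_union_right))
  exact ⟨⟨x, Or.inl hx⟩, fun a ha b hb => (k a ha).symm.trans (k b hb)⟩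

/-- a model of the graph of `X` on `D` in the graph of `X'` on `D'` -/
structure PEmb (X : Pc) (D : Set W) (X' : Pc) (D' : Set W) (B : W → Set W) : Prop where
  sub : ∀ v ∈ D, B v ⊆ D'
  conn : ∀ v ∈ D, Conn (gr X') (B v)
  dis : ∀ u ∈ D, ∀ v ∈ D, u ≠ v → Disjoint (B u) (B v)
  adj : ∀ u v, (gr X).Adj u v → fb.Touch (gr X') (B u) (B v)

theorem PEmb.eq (h : PEmb X D X' D' B) (hu : u ∈ D) (hv : v ∈ D) {x : W} (h1 : x ∈ B u)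
    (h2 : x ∈ B v) : u = v := by
  by_contra c
  exact disjoint_left.1 (h.dis u hu v hv c) h1 h2

theorem PEmb.id (h : X ⊆ X') (h' : D ⊆ D') : PEmb X D X' D' fun v => {v} :=
  ⟨fun _ hv => singleton_subset_iff.2 (h' hv), fun v _ => conn_singleton _ v,
    fun _ _ _ _ e => disjoint_singleton.2 e, fun u v e => ⟨u, rfl, v, rfl, gr_mono h e⟩⟩

theorem PEmb.trans (hD : VV X ⊆ D) (h : PEmb X D X' D' B) (h' : PEmb X' D' X'' D'' C) :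
    PEmb X D X'' D'' fun w => ⋃ v ∈ B w, C v := by
  have k : Model ((gr X).induce D) (gr X') D' fun w => B w :=
    ⟨fun w => h.sub w w.2, fun w => h.conn w w.2,
      fun w w' e => h.dis w w.2 w' w'.2 fun c => e (Subtype.ext c), fun w w' e => h.adj w w' e⟩
  obtain ⟨k1, k2, k3, k4⟩ := k.comp C h'.sub h'.conn h'.dis fun v _ v' _ => h'.adj v v'
  exact ⟨fun v hv => k1 ⟨v, hv⟩, fun v hv => k2 ⟨v, hv⟩,
    fun u hu v hv e => k3 ⟨u, hu⟩ ⟨v, hv⟩ fun c => e (congrArg Subtype.val c),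
    fun u v e => k4 ⟨u, hD (gr_mem e)⟩ ⟨v, hD (gr_mem e.symm)⟩ e⟩

/-- the plain order on pieces with indexed roots; names play no role -/
def PLe (X : Pc) (ρ : ι → W) (X' : Pc) (ρ' : ι → W) : Prop :=
  ∃ B, PEmb X (VV X ∪ range ρ) X' (VV X' ∪ range ρ') B ∧ ∀ i, ρ' i ∈ B (ρ i)

variable {ρ ρ' ρ'' : ι → W}

theorem PLe.mono (h : X ⊆ X') (ρ : ι → W) : PLe X ρ X' ρ :=
  ⟨_, PEmb.id h (union_subset_union_left _ (VV_mono h)), fun _ => rfl⟩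

theorem PLe.trans (h : PLe X ρ X' ρ') (h' : PLe X' ρ' X'' ρ'') : PLe X ρ X'' ρ'' := by
  obtain ⟨B, h1, h2⟩ := h
  obtain ⟨C, h3, h4⟩ := h'
  exact ⟨_, h1.trans subset_union_left h3, fun i => mem_biUnion (h2 i) (h4 i)⟩

/-- equal roots of the target come from equal roots -/
theorem PLe.inj (h : PLe X ρ X' ρ') {i j : ι} (e : ρ' i = ρ' j) : ρ i = ρ j :=
  let ⟨_, h1, h2⟩ := h
  h1.eq (Or.inr ⟨i, rfl⟩) (Or.inr ⟨j, rfl⟩) (h2 i) (e ▸ h2 j)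

/-- roots may be permuted, repeated and dropped -/
theorem PLe.comp (h : PLe X ρ X' ρ') (φ : κ → ι)
    (hd : ∀ i, ρ i ∈ VV X ∪ range (ρ ∘ φ) → ρ' i ∈ VV X' ∪ range (ρ' ∘ φ)) :
    PLe X (ρ ∘ φ) X' (ρ' ∘ φ) := by
  obtain ⟨B, h1, h2⟩ := h
  have s : VV X ∪ range (ρ ∘ φ) ⊆ VV X ∪ range ρ :=
    union_subset_union_right _ (range_comp_subset_range _ _)
  refine ⟨B, ⟨fun v hv x hx => ?_, fun v hv => h1.conn v (s hv),
    fun u hu v hv => h1.dis u (s hu) v (s hv), h1.adj⟩, fun j => h2 _⟩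
  rcases h1.sub v (s hv) hx with k | ⟨i, rfl⟩
  · exact Or.inl k
  · exact hd i (h1.eq (s hv) (Or.inr ⟨i, rfl⟩) hx (h2 i) ▸ hv)

/-- new isolated roots -/
theorem PLe.fresh (h : PLe X ρ X' ρ') {τ τ' : κ → W} (h1 : ∀ j, τ j ∉ VV X ∪ range ρ)
    (h2 : ∀ j, τ' j ∉ VV X' ∪ range ρ') (h3 : ∀ j k, τ j = τ k ↔ τ' j = τ' k) :
    PLe X (Sum.elim ρ τ) X' (Sum.elim ρ' τ') := by
  classical
  obtain ⟨B, a, b⟩ := h
  let C : W → Set W := fun v => if v ∈ VV X ∪ range ρ then B v else {x | ∃ j, τ j = v ∧ τ' j = x}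
  have c1 : ∀ v ∈ VV X ∪ range ρ, C v = B v := fun v hv => if_pos hv
  have c2 : ∀ j, C (τ j) = {τ' j} := fun j => (if_neg (h1 j)).trans (by
    ext x
    exact ⟨fun ⟨k, e, e'⟩ => e'.symm.trans ((h3 k j).1 e), fun e => ⟨j, rfl, e.symm⟩⟩)
  have cs : ∀ v ∈ VV X ∪ range (Sum.elim ρ τ), v ∈ VV X ∪ range ρ ∨ ∃ j, τ j = v := by
    rintro v (hv | ⟨i | j, rfl⟩)
    exacts [Or.inl (Or.inl hv), Or.inl (Or.inr ⟨i, rfl⟩), Or.inr ⟨j, rfl⟩]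
  refine ⟨C, ⟨fun v hv => ?_, fun v hv => ?_, fun u hu v hv e => ?_, fun u v e => ?_⟩, ?_⟩
  · rcases cs v hv with k | ⟨j, rfl⟩
    · rw [c1 v k]
      refine (a.sub v k).trans (union_subset_union_right _ ?_)
      rintro _ ⟨i, rfl⟩
      exact ⟨Sum.inl i, rfl⟩
    · rw [c2]
      exact singleton_subset_iff.2 (Or.inr ⟨Sum.inr j, rfl⟩)
  · rcases cs v hv with k | ⟨j, rfl⟩
    · rw [c1 v k]; exact a.conn v k
    · rw [c2]; exact conn_singleton _ _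
  · rcases cs u hu with k | ⟨j, rfl⟩ <;> rcases cs v hv with k' | ⟨j', rfl⟩
    · rw [c1 u k, c1 v k']; exact a.dis u k v k' e
    · rw [c1 u k, c2]; exact disjoint_singleton_right.2 fun c => h2 _ (a.sub u k c)
    · rw [c1 v k', c2]; exact disjoint_singleton_left.2 fun c => h2 _ (a.sub v k' c)
    · rw [c2, c2]; exact disjoint_singleton.2 fun c => e ((h3 _ _).2 c)
  · rw [c1 u (Or.inl (gr_mem e)), c1 v (Or.inl (gr_mem e.symm))]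
    exact a.adj u v e
  · rintro (i | j)
    · exact (c1 _ (Or.inr ⟨i, rfl⟩)).symm ▸ b i
    · exact (c2 j).symm ▸ rfl

/-- `π` identifies only roots -/
def InjOff (π : W → W) (X : Pc) (R : Set W) : Prop :=
  ∀ u ∈ VV X ∪ R, ∀ v ∈ VV X ∪ R, π u = π v → u = v ∨ (u ∈ R ∧ v ∈ R)

/-- vertices may be renamed, and roots may be identified in the same way on both sides -/
theorem PLe.push (h : PLe X ρ X' ρ') {π π' : W → W} (h1 : InjOff π X (range ρ))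
    (h2 : InjOff π' X' (range ρ')) (h3 : ∀ i j, π (ρ i) = π (ρ j) ↔ π' (ρ' i) = π' (ρ' j)) :
    PLe (ren π X) (π ∘ ρ) (ren π' X') (π' ∘ ρ') := by
  obtain ⟨B, a, b⟩ := h
  have e1 : VV (ren π X) ∪ range (π ∘ ρ) = π '' (VV X ∪ range ρ) := by
    rw [VV_ren, range_comp, image_union]
  have e2 : VV (ren π' X') ∪ range (π' ∘ ρ') = π' '' (VV X' ∪ range ρ') := by
    rw [VV_ren, range_comp, image_union]
  unfold PLe
  rw [e1, e2]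
  have m : ∀ i, ρ i ∈ VV X ∪ range ρ := fun i => Or.inr ⟨i, rfl⟩
  have key : ∀ u ∈ VV X ∪ range ρ, ∀ v ∈ VV X ∪ range ρ, ∀ x ∈ B u, ∀ y ∈ B v, π' x = π' y →
      π u = π v := by
    intro u hu v hv x hx y hy e
    rcases h2 x (a.sub u hu hx) y (a.sub v hv hy) e with rfl | ⟨⟨i, rfl⟩, j, rfl⟩
    · rw [a.eq hu hv hx hy]
    · rw [a.eq hu (m i) hx (b i), a.eq hv (m j) hy (b j)]
      exact (h3 i j).2 e
  refine ⟨fun w => ⋃ v ∈ {v | v ∈ VV X ∪ range ρ ∧ π v = w}, π' '' B v,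
    ⟨fun w _ => iUnion₂_subset fun v hv => image_mono (a.sub v hv.1), ?_, fun w _ w' _ e => ?_,
      fun w w' e => ?_⟩, fun i => mem_biUnion (x := ρ i) ⟨m i, rfl⟩ ⟨_, b i, rfl⟩⟩
  · rintro _ ⟨v, hv, rfl⟩
    have k := conn_biUnion (I := {u | u ∈ VV X ∪ range ρ ∧ π u = π v}) (S := fun u => π' '' B u)
      (conn_ren π' (a.conn v hv)) fun u hu => ⟨conn_ren π' (a.conn u hu.1), by
        rcases h1 u hu.1 v hv hu.2 with rfl | ⟨⟨i, rfl⟩, j, rfl⟩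
        · rw [inter_self]; exact (a.conn u hv).1.image _
        · exact ⟨_, ⟨_, b i, rfl⟩, _, b j, ((h3 i j).1 hu.2).symm⟩⟩
    have hm : v ∈ {u | u ∈ VV X ∪ range ρ ∧ π u = π v} := And.intro hv rfl
    rwa [union_eq_self_of_subset_left
      (subset_biUnion_of_mem (u := fun u => π' '' B u) hm)] at k
  · rw [disjoint_left]
    intro z hz hz'
    obtain ⟨u, hu, x, hx, rfl⟩ := mem_iUnion₂.1 hz
    obtain ⟨v, hv, y, hy, c⟩ := mem_iUnion₂.1 hz'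
    exact e (hu.2.symm.trans ((key u hu.1 v hv.1 x hx y hy c.symm).trans hv.2))
  · obtain ⟨c, u, v, d, rfl, rfl⟩ := gr_ren.1 e
    obtain ⟨x, hx, y, hy, k⟩ := a.adj u v d
    have hu : u ∈ VV X ∪ range ρ := Or.inl (gr_mem d)
    have hv : v ∈ VV X ∪ range ρ := Or.inl (gr_mem d.symm)
    exact ⟨_, mem_biUnion (x := u) ⟨hu, rfl⟩ ⟨x, hx, rfl⟩, _,
      mem_biUnion (x := v) ⟨hv, rfl⟩ ⟨y, hy, rfl⟩,
      gr_ren.2 ⟨fun k' => c (key u hu v hv x hx y hy k'), x, y, k, rfl, rfl⟩⟩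

/-- the order on pieces with indexed roots over the names -/
def RLe (X : Pc) (ρ : ι → W) (X' : Pc) (ρ' : ι → W) : Prop :=
  PLe X (Sum.elim ρ Sum.inr) X' (Sum.elim ρ' Sum.inr)

theorem range_nm (ρ : ι → W) : VV X ∪ range (Sum.elim ρ Sum.inr) = VV X ∪ range ρ ∪ Nm := by
  rw [Sum.elim_range, union_assoc]; rfl

theorem rle_iff : RLe X ρ X' ρ' ↔ ∃ B, PEmb X (VV X ∪ range ρ ∪ Nm) X' (VV X' ∪ range ρ' ∪ Nm) B ∧
    (∀ i, ρ' i ∈ B (ρ i)) ∧ ∀ n, Sum.inr n ∈ B (Sum.inr n) := by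
  unfold RLe PLe
  simp only [range_nm, Sum.forall, Sum.elim_inl, Sum.elim_inr]

theorem RLe.mono (h : X ⊆ X') (ρ : ι → W) : RLe X ρ X' ρ := PLe.mono h _

theorem RLe.trans (h : RLe X ρ X' ρ') (h' : RLe X' ρ' X'' ρ'') : RLe X ρ X'' ρ'' := PLe.trans h h'

theorem RLe.inj (h : RLe X ρ X' ρ') {i j : ι} (e : ρ' i = ρ' j) : ρ i = ρ j :=
  PLe.inj h (i := Sum.inl i) (j := Sum.inl j) e

theorem RLe.comp (h : RLe X ρ X' ρ') (φ : κ → ι)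
    (hd : ∀ i, ρ i ∈ VV X ∪ range (ρ ∘ φ) → ρ' i ∈ VV X' ∪ range (ρ' ∘ φ) ∪ Nm) :
    RLe X (ρ ∘ φ) X' (ρ' ∘ φ) := by
  obtain ⟨B, h1, h2, h3⟩ := rle_iff.1 h
  have s : VV X ∪ range (ρ ∘ φ) ∪ Nm ⊆ VV X ∪ range ρ ∪ Nm :=
    union_subset_union_left _ (union_subset_union_right _ (range_comp_subset_range _ _))
  refine rle_iff.2 ⟨B, ⟨fun v hv x hx => ?_, fun v hv => h1.conn v (s hv),
    fun u hu v hv => h1.dis u (s hu) v (s hv), h1.adj⟩, fun j => h2 _, h3⟩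
  rcases h1.sub v (s hv) hx with (k | ⟨i, rfl⟩) | k
  · exact Or.inl (Or.inl k)
  · obtain rfl := h1.eq (s hv) (Or.inl (Or.inr ⟨i, rfl⟩)) hx (h2 i)
    rcases hv with hv | ⟨n, hn⟩
    · exact hd i hv
    · by_cases c : ρ' i ∈ VV X'
      · exact Or.inl (Or.inl c)
      · exact Or.inr ⟨n, conn_out (h1.conn _ (Or.inl (Or.inr ⟨i, rfl⟩))) hx (hn ▸ h3 n) c⟩
  · exact Or.inr k

theorem RLe.comp_surj (h : RLe X ρ X' ρ') {φ : κ → ι} (hφ : Surjective φ) :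
    RLe X (ρ ∘ φ) X' (ρ' ∘ φ) :=
  h.comp φ fun i _ => let ⟨j, e⟩ := hφ i; Or.inl (Or.inr ⟨j, congrArg ρ' e⟩)

theorem forall₂_ofFn {n : ℕ} {P : W → W → Prop} {ρ ρ' : Fin n → W} :
    List.Forall₂ P (List.ofFn ρ) (List.ofFn ρ') ↔ ∀ i, P (ρ i) (ρ' i) := by
  rw [List.forall₂_iff_get]
  constructor
  · rintro ⟨-, h⟩ i
    simpa using h i (by simp) (by simp)
  · intro h
    refine ⟨by simp, fun i h1 h2 => ?_⟩
    simpa using h ⟨i, by simpa using h1⟩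

theorem set_ofFn {n : ℕ} (ρ : Fin n → W) : {v | v ∈ List.ofFn ρ} = range ρ := by
  ext v; simp

theorem le_ofFn {n : ℕ} {ρ ρ' : Fin n → W} :
    Le (X, List.ofFn ρ) (X', List.ofFn ρ') ↔ RLe X ρ X' ρ' := by
  rw [rle_iff]
  refine exists_congr fun B => ⟨fun h => ?_, fun ⟨h, h1, h2⟩ => ?_⟩
  · obtain ⟨a, b, c, d, e, f⟩ := h
    simp only [dom, set_ofFn] at a b c
    exact ⟨⟨a, b, c, d⟩, forall₂_ofFn.1 f, e⟩
  · refine ⟨?_, ?_, ?_, h.adj, h2, forall₂_ofFn.2 h1⟩ <;> simp only [dom, set_ofFn]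
    exacts [h.sub, h.conn, h.dis]

theorem Le.length {l l' : Lab} (h : Le l l') : l.2.length = l'.2.length :=
  let ⟨_, h⟩ := h; h.root.length_eq

theorem exists_ofFn {l : List W} {n : ℕ} (h : l.length = n) : ∃ ρ : Fin n → W, l = List.ofFn ρ := by
  subst h
  exact ⟨l.get, (List.ofFn_get l).symm⟩

theorem exists_ofFn' (l : List W) : ∃ (n : ℕ) (ρ : Fin n → W), l = List.ofFn ρ :=
  ⟨_, exists_ofFn rfl⟩

theorem exists_ofFn_len {l : List W} {n : ℕ} {ρ : Fin n → W} (h : l.length = (List.ofFn ρ).length) :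
    ∃ ρ : Fin n → W, l = List.ofFn ρ := exists_ofFn (h.trans List.length_ofFn)

theorem Le.mono (h : X ⊆ X') (l : List W) : Le (X, l) (X', l) := by
  obtain ⟨n, ρ, rfl⟩ := exists_ofFn' l
  exact le_ofFn.2 (RLe.mono h ρ)

theorem Le.refl (l : Lab) : Le l l := Le.mono subset_rfl l.2

theorem Le.trans {l l' l'' : Lab} (h : Le l l') (h' : Le l' l'') : Le l l'' := by
  obtain ⟨X, a⟩ := l
  obtain ⟨X', b⟩ := l'
  obtain ⟨X'', c⟩ := l''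
  obtain ⟨n, ρ'', rfl⟩ := exists_ofFn' c
  obtain ⟨ρ', rfl⟩ := exists_ofFn_len (l := b) h'.length
  obtain ⟨ρ, rfl⟩ := exists_ofFn_len (l := a) h.length
  exact le_ofFn.2 ((le_ofFn.1 h).trans (le_ofFn.1 h'))

instance : IsPreorder Lab Le := { refl := Le.refl, trans := fun _ _ _ => Le.trans }

theorem Eqv.refl (l : Lab) : Eqv l l := ⟨Le.refl l, Le.refl l⟩

theorem Eqv.symm {l l' : Lab} (h : Eqv l l') : Eqv l' l := ⟨h.2, h.1⟩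

theorem Eqv.trans {l l' l'' : Lab} (h : Eqv l l') (h' : Eqv l' l'') : Eqv l l'' :=
  ⟨h.1.trans h'.1, h'.2.trans h.2⟩

theorem Mem.of_mem {A : Set Lab} {l : Lab} (h : l ∈ A) : Mem A l := ⟨l, h, Eqv.refl l⟩

theorem Mem.mono {A A' : Set Lab} {l : Lab} (h : Mem A l) (k : A ⊆ A') : Mem A' l :=
  let ⟨l', a, b⟩ := h; ⟨l', k a, b⟩

theorem Mem.eqv {A : Set Lab} {l l' : Lab} (h : Mem A l) (k : Eqv l' l) : Mem A l' :=
  let ⟨l'', a, b⟩ := h; ⟨l'', a, k.trans b⟩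

theorem InA.mono {A A' : Set Lab} (h : InA A X R) (k : A ⊆ A') : InA A' X R :=
  h.imp id fun ⟨ρ, a, b⟩ => ⟨ρ, a, b.mono k⟩

theorem Pwo.mem {A : Set Lab} (h : Pwo A) : Pwo {l | Mem A l} := by
  refine partiallyWellOrderedOn_iff_exists_lt.2 fun f hf => ?_
  choose g h1 h2 using hf
  obtain ⟨m, n, a, b⟩ := PartiallyWellOrderedOn.exists_lt h h1
  exact ⟨m, n, a, (h2 m).1.trans (b.trans (h2 n).2)⟩

theorem Pwo.union {A A' : Set Lab} (h : Pwo A) (h' : Pwo A') : Pwo (A ∪ A') :=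
  PartiallyWellOrderedOn.union h h'

theorem Pwo.mono {A A' : Set Lab} (h : Pwo A') (k : A ⊆ A') : Pwo A :=
  PartiallyWellOrderedOn.mono h k

theorem Enum.exists (h : R.Finite) : ∃ ρ, Enum ρ R :=
  ⟨h.toFinset.toList, Finset.nodup_toList _, by ext; simp⟩

theorem Enum.finite {l : List W} (h : Enum l R) : R.Finite := h.2 ▸ List.finite_toSet l

theorem Enum.length {l : List W} (h : Enum l R) : l.length = R.ncard := by
  classical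
  rw [← h.2, ← List.toFinset_card_of_nodup h.1, ← ncard_coe_finset, List.coe_toFinset]

theorem enum_ofFn {n : ℕ} {ρ : Fin n → W} : Enum (List.ofFn ρ) R ↔ Injective ρ ∧ range ρ = R := by
  rw [Enum, List.nodup_ofFn, set_ofFn]

/-- every numbering of the roots of the source lifts -/
theorem ULe.lift (h : ULe X R X' R') (hρ : range ρ = R) :
    ∃ ρ' : ι → W, range ρ' = R' ∧ RLe X ρ X' ρ' ∧ ∀ i j, ρ i = ρ j ↔ ρ' i = ρ' j := by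
  obtain ⟨a, b, h1, h2, h3⟩ := h
  obtain ⟨n, σ', rfl⟩ := exists_ofFn' b
  obtain ⟨σ, rfl⟩ := exists_ofFn_len (l := a) h3.length
  obtain ⟨a1, a2⟩ := enum_ofFn.1 h1
  obtain ⟨b1, b2⟩ := enum_ofFn.1 h2
  have : ∀ i, ∃ k, σ k = ρ i := fun i => show ρ i ∈ range σ from a2 ▸ hρ ▸ mem_range_self i
  choose φ hφ using this
  have hs : Surjective φ := fun k => by
    obtain ⟨i, hi⟩ : σ k ∈ range ρ := hρ ▸ a2 ▸ mem_range_self k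
    exact ⟨i, a1 ((hφ i).trans hi)⟩
  obtain rfl : ρ = σ ∘ φ := (funext hφ).symm
  exact ⟨σ' ∘ φ, by rw [hs.range_comp, b2], (le_ofFn.1 h3).comp_surj hs,
    fun i j => a1.eq_iff.trans b1.eq_iff.symm⟩

theorem ULe.of_rle (h : RLe X ρ X' ρ') (hf : R.Finite) (h1 : range ρ = R) (h2 : range ρ' = R')
    (h3 : ∀ i j, ρ i = ρ j → ρ' i = ρ' j) : ULe X R X' R' := by
  obtain ⟨a, ha⟩ := Enum.exists hf
  obtain ⟨n, σ, rfl⟩ := exists_ofFn' a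
  obtain ⟨a1, a2⟩ := enum_ofFn.1 ha
  have : ∀ k, ∃ i, ρ i = σ k := fun k => show σ k ∈ range ρ from h1 ▸ a2 ▸ mem_range_self k
  choose φ hφ using this
  have k : ∀ i, ρ' i ∈ range (ρ' ∘ φ) := fun i => by
    obtain ⟨k, hk⟩ : ρ i ∈ range σ := a2 ▸ h1 ▸ mem_range_self i
    exact ⟨k, h3 _ _ ((hφ k).trans hk)⟩
  have e' : ρ ∘ φ = σ := funext hφ
  refine ⟨List.ofFn (ρ ∘ φ), List.ofFn (ρ' ∘ φ), e' ▸ ha, enum_ofFn.2 ⟨fun i j c => a1 ?_, ?_⟩,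
    le_ofFn.2 (h.comp φ fun i _ => Or.inl (Or.inr (k i)))⟩
  · rw [← hφ, ← hφ]; exact h.inj c
  · rw [← h2]
    exact subset_antisymm (range_comp_subset_range _ _) (range_subset_iff.2 k)

theorem ULe.finite (h : ULe X R X' R') : R.Finite ∧ R'.Finite ∧ R.ncard = R'.ncard :=
  let ⟨_, _, a, b, c⟩ := h
  ⟨a.finite, b.finite, a.length.symm.trans (c.length.trans b.length)⟩

theorem ULe.mono (h : X ⊆ X') (hf : R.Finite) : ULe X R X' R :=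
  let ⟨ρ, a⟩ := Enum.exists hf; ⟨ρ, ρ, a, a, Le.mono h ρ⟩

theorem ULe.refl (X : Pc) (hf : R.Finite) : ULe X R X R := ULe.mono subset_rfl hf

theorem ULe.trans (h : ULe X R X' R') (h' : ULe X' R' X'' R'') : ULe X R X'' R'' := by
  obtain ⟨σ, a1, a2, a3⟩ := h.lift (ρ := (Subtype.val : R → W)) Subtype.range_coe
  obtain ⟨τ, b1, b2, b3⟩ := h'.lift a1
  exact ULe.of_rle (a2.trans b2) h.finite.1 Subtype.range_coe b1
    fun i j c => (b3 i j).1 ((a3 i j).1 c)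

/-- consistent numberings along a chain -/
theorem chain_roots (X : ℕ → Pc) (R : ℕ → Set W)
    (h : ∀ n, ULe (X n) (R n) (X (n + 1)) (R (n + 1))) :
    ∃ ρ : ℕ → R 0 → W, (∀ n, range (ρ n) = R n) ∧ (∀ n, Injective (ρ n)) ∧
      ∀ m n, m < n → RLe (X m) (ρ m) (X n) (ρ n) := by
  choose σ h1 h2 h3 using fun n (ρ : {ρ : R 0 → W // range ρ = R n ∧ Injective ρ}) =>
    (h n).lift ρ.2.1
  let ρ : ∀ n, {ρ : R 0 → W // range ρ = R n ∧ Injective ρ} := fun n =>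
    Nat.rec ⟨Subtype.val, Subtype.range_coe, Subtype.val_injective⟩
      (fun n ρ => ⟨σ n ρ, h1 n ρ, fun i j c => ρ.2.2 ((h3 n ρ i j).2 c)⟩) n
  refine ⟨fun n => (ρ n).1, fun n => (ρ n).2.1, fun n => (ρ n).2.2, fun m n hmn => ?_⟩
  induction hmn with
  | refl => exact h2 m (ρ m)
  | step _ ih => exact ih.trans (h2 _ (ρ _))

end Pool.Agent.MP_9d78a0_co.gm

end MrgPart1

-- ======== part 2: formerly Pool.Agent.MP_9d78a0_co.gm.SpecA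
section MrgPart2

/-! Block A: the statements. -/

set_option autoImplicit false

namespace Pool.Agent.MP_9d78a0_co.gm

open Set Function

/-- `π` maps the new graph `G` back: the new names `J` go to roots of the core `F`, the names in
`P` are pendant, and the other ordinary vertices go injectively to vertices off the core -/
structure Dn {ι : Type} (F : Pc) (ρ : ι → W) (G : Pc) (J P : Set ℕ) (ix : ℕ → ι) (π : W → W) :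
    Prop where
  new : ∀ j ∈ J, π (Sum.inr j) = ρ (ix j)
  old : ∀ j ∉ J, π (Sum.inr j) = Sum.inr j
  pend : ∀ j ∈ P, j ∈ J ∧ ∃ u, π u = ρ (ix j) ∧ ∀ y, (gr G).Adj (Sum.inr j) y ↔ y = u
  ord : ∀ u ∈ VV G ∩ Od, (∃ j ∈ P, (gr G).Adj (Sum.inr j) u) ∨
    (π u ∈ Od \ (VV F ∪ range ρ) ∧ ∀ u' ∈ VV G ∩ Od, π u' = π u → u' = u)

/-- the order on pieces with sets of roots -/
def UleS : Prop :=
  (∀ X R, R.Finite → ULe X R X R) ∧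
    ∀ X R X' R' X'' R'', ULe X R X' R' → ULe X' R' X'' R'' → ULe X R X'' R''

/-- from sets of roots to lists -/
def OrdS : Prop :=
  ∀ (S : Set (Pc × Set W)) (k : ℕ), (∀ x ∈ S, x.2.Finite ∧ x.2.ncard ≤ k) →
    S.PartiallyWellOrderedOn (fun x y => ULe x.1 x.2 y.1 y.2) →
    Pwo {l | ∃ x ∈ S, l.1 = x.1 ∧ Enum l.2 x.2}

/-- subgraphs -/
def SubS : Prop :=
  ∀ (ι : Type) (X Y : Pc) (ρ : ι → W), gr X ≤ gr Y → VV X ⊆ VV Y ∪ range ρ ∪ Nm → RLe X ρ Y ρ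

/-- local models and connectors `Y v`, `v ∈ S`, fit together -/
def GlueS : Prop :=
  ∀ (ι μ : Type) (κ : ι → Type) (X X' : ι → Pc) (ρ ρ' : ∀ i, κ i → W) (Z' : Pc) (τ τ' : μ → W)
    (S : Set W) (Y : W → Set W), S ⊆ Od → (∀ i, RLe (X i) (ρ i) (X' i) (ρ' i)) →
    (∀ i k, ρ i k ∈ S ∧ ρ' i k ∈ Y (ρ i k)) → (∀ m, τ m ∈ S ∧ τ' m ∈ Y (τ m)) →
    (∀ i, S ∩ VV (X i) ⊆ range (ρ i)) →
    (∀ i j, i ≠ j → VV (X i) ∩ VV (X j) ∩ Od ⊆ S) →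
    (∀ i, X' i ⊆ Z') → (∀ i j, i ≠ j → VV (X' i) ∩ VV (X' j) ∩ Od ⊆ range (ρ' i)) →
    (∀ v ∈ S, Conn (gr Z') (Y v) ∧ Y v ⊆ Od ∧ Y v ⊆ VV Z' ∪ range τ' ∧
      ∀ i, Y v ∩ VV (X' i) ⊆ range (ρ' i)) →
    (∀ u ∈ S, ∀ v ∈ S, u ≠ v → Disjoint (Y u) (Y v)) → RLe (⋃ i, X i) τ Z' τ'

/-- the same without connectors: the roots coincide in the same pattern -/
def Glue0S : Prop :=
  ∀ (ι : Type) (κ : ι → Type) (X X' : ι → Pc) (ρ ρ' : ∀ i, κ i → W),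
    (∀ i, RLe (X i) (ρ i) (X' i) (ρ' i)) → (∀ i k, ρ i k ∈ Od ∧ ρ' i k ∈ Od) →
    (∀ i j k m, ρ i k = ρ j m ↔ ρ' i k = ρ' j m) →
    (∀ i j, i ≠ j → VV (X i) ∩ (VV (X j) ∪ range (ρ j)) ∩ Od ⊆ range (ρ i)) →
    (∀ i j, i ≠ j → VV (X' i) ∩ (VV (X' j) ∪ range (ρ' j)) ∩ Od ⊆ range (ρ' i)) →
    RLe (⋃ i, X i) (fun x : Σ i, κ i => ρ x.1 x.2) (⋃ i, X' i) fun x : Σ i, κ i => ρ' x.1 x.2

/-- an injective renaming gives an equivalent label -/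
def RenS : Prop :=
  ∀ (l : Lab) (r : W → W), InjOn r (dom l) → (∀ n, r (Sum.inr n) = Sum.inr n) →
    Eqv l (ren r l.1, l.2.map r)

/-- roots may be named or identified, in the same way on both sides -/
def PushS : Prop :=
  ∀ (ι : Type) (X X' : Pc) (ρ ρ' : ι → W) (π π' : W → W), RLe X ρ X' ρ' →
    (∀ n, π (Sum.inr n) = Sum.inr n) → (∀ n, π' (Sum.inr n) = Sum.inr n) →
    InjOff π X (range ρ ∪ Nm) → InjOff π' X' (range ρ' ∪ Nm) →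
    (∀ i j, π (ρ i) = π (ρ j) ↔ π' (ρ' i) = π' (ρ' j)) →
    (∀ i n, π (ρ i) = Sum.inr n ↔ π' (ρ' i) = Sum.inr n) →
    RLe (ren π X) (π ∘ ρ) (ren π' X') (π' ∘ ρ')

/-- a model of the cores and a model of the new graphs give a model of the old pieces -/
def DnS : Prop :=
  ∀ (ι : Type) (F F' G G' : Pc) (ρ ρ' : ι → W) (J P : Set ℕ) (ix : ℕ → ι) (π π' : W → W),
    Dn F ρ G J P ix π → Dn F' ρ' G' J P ix π' → RLe F ρ F' ρ' → Le (G, []) (G', []) →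
    RLe (F ∪ ren π G) ρ (F' ∪ ren π' G') ρ'

/-- a cut through robust atoms can be moved to a cut between atoms -/
def UncS : Prop :=
  ∀ (σ : AG) (P Q : Set σ.ε) (U : σ.ε → Pc), P ⊆ Q →
    (∀ a ∈ Q \ P, Robust (σ.pc a) (σ.bd {a})) → (∀ a, U a ⊆ σ.pc a) → (∀ a ∈ P, U a = σ.pc a) →
    (∀ a ∉ Q, U a = ∅) → ∃ S, P ⊆ S ∧ S ⊆ Q ∧
      σ.f S ≤ (Od ∩ (⋃ a, VV (U a)) ∩ ⋃ a, VV (σ.pc a \ U a)).ncard

/-- disjoint paths of ordinary vertices from the boundary of `P` to the boundary of `Q` -/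
def LinkKS : Prop :=
  ∀ (σ : AG) (P Q : Set σ.ε) (k : ℕ), P ⊆ Q → (∀ a ∈ Q \ P, Robust (σ.pc a) (σ.bd {a})) →
    (∀ U, P ⊆ U → U ⊆ Q → k ≤ σ.f U) →
    ∃ R : Fin k → Set W, Pairwise (Disjoint on R) ∧ ∀ i, R i ⊆ σ.bd P ∪ σ.vs (Q \ P) ∧
      Conn (gr (σ.un (Q \ P))) (R i) ∧ (R i ∩ σ.bd P).Nonempty ∧ (R i ∩ σ.bd Q).Nonempty

/-- the same from every vertex of the boundary of `P` -/
def LinkVS : Prop :=
  ∀ (σ : AG) (P Q : Set σ.ε), P ⊆ Q → (∀ a ∈ Q \ P, Robust (σ.pc a) (σ.bd {a})) →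
    (∀ U, P ⊆ U → U ⊆ Q → σ.f P ≤ σ.f U) →
    ∃ R : W → Set W, (σ.bd P).Pairwise (Disjoint on R) ∧ ∀ v ∈ σ.bd P, R v ∩ σ.vs P = {v} ∧
      R v ⊆ σ.bd P ∪ σ.vs (Q \ P) ∧ Conn (gr (σ.un (Q \ P))) (R v) ∧ (R v ∩ σ.bd Q).Nonempty

/-- a set of atoms is below a larger set to which it is linked -/
def LinkS : Prop :=
  ∀ (s : AG) (X Y : Set s.ε), s.Rob → X ⊆ Y → (∀ U, X ⊆ U → U ⊆ Y → s.f X ≤ s.f U) →
    s.f X = s.f Y → ULe (s.un X) (s.bd X) (s.un Y) (s.bd Y)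

/-- unions of robust atoms without a cheap cut are robust -/
def RobUnS : Prop :=
  ∀ (s : AG) (C : Set s.ε), s.Rob → (∀ U ⊆ C, s.f C ≤ s.f U ∨ s.f C ≤ s.f (C \ U)) →
    Robust (s.un C) (s.bd C)

/-- robust pieces: fewer roots, single pairs, solid pieces, renaming and naming of roots -/
def RobS : Prop :=
  (∀ X R R', X.Finite → R.Finite → R' ⊆ R → Robust X R → Robust X R') ∧
  (∀ (X : Pc) R, X.Subsingleton → R ⊆ VV X ∩ Od → Robust X R) ∧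
  (∀ X R, X.Finite → Solid X R ∅ → Robust X R) ∧
  ∀ (X : Pc) (R : Set W) (π : W → W), X.Finite → R.Finite → Robust X R → MapsTo π Nm Nm →
    InjOn π ((VV X ∪ R) ∩ π ⁻¹' Od) → VV X ∩ Od ∩ π ⁻¹' Nm ⊆ R →
    Robust (ren π X) (π '' R ∩ Od)

/-- solid pieces: renaming, larger pieces, fewer exceptional vertices -/
def SolidS : Prop :=
  (∀ (X : Pc) (R Λ Λ' : Set W) (π : W → W), Solid X R Λ → InjOn π ((VV X ∩ Od) \ Λ) →
    MapsTo π ((VV X ∩ Od) \ Λ) (Od \ Λ') → Solid (ren π X) (π '' R) Λ') ∧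
  ∀ (X X' : Pc) (R Λ Λ' : Set W), Solid X R Λ → X ⊆ X' → Λ' ∩ VV X ⊆ Λ → Solid X' R Λ'

/-- width: subsets, single edges, unions, unions along a path -/
def WdS : Prop :=
  ∀ (ε ν : Type) [Finite ε] (inc : ε → Set ν), (∀ a, (inc a).Finite) →
    (∀ Y Y' K K', Y' ⊆ Y → K ≤ K' → Wd inc Y K → Wd inc Y' K') ∧
    (∀ (Y : Set ε) K, Y.Subsingleton → Wd inc Y K) ∧
    (∀ Y Y' K d, Wd inc Y K → Wd inc Y' K → (hv inc Y ∩ hv inc Y').ncard ≤ d →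
      Wd inc (Y ∪ Y') (K + d)) ∧
    ∀ (Y : ℕ → Set ε) (m K d : ℕ), (∀ i < m, Wd inc (Y i) K) →
      (∀ i, (hv inc (⋃ j < i, Y j) ∩ hv inc (⋃ j ∈ Ico i m, Y j)).ncard ≤ d) →
      Wd inc (⋃ j < m, Y j) (K + 2 * d)

/-- width passes to a hypergraph with the same edges and at most `d` new shared vertices -/
def WdMapS : Prop :=
  ∀ (ε ε' ν ν' : Type) [Finite ε] [Finite ε'] (inc : ε → Set ν) (inc' : ε' → Set ν')
    (e : ε' → ε) (φ : ν' → ν) (Y : Set ε) (Y' : Set ε') (Z : Set ν') (K : ℕ),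
    (∀ a, (inc a).Finite) → Z.Finite → InjOn e Y' → MapsTo e Y' Y → InjOn φ (hv inc' Y' \ Z) →
    (∀ a ∈ Y', ∀ v ∈ inc' a \ Z, φ v ∈ inc (e a)) → Wd inc Y K → Wd inc' Y' (K + Z.ncard)

/-- labels of bounded width over a well-quasi-ordered set are well-quasi-ordered -/
def OmS : Prop := ∀ (A : Set Lab) (K n : ℕ), Pwo A → Pwo (Om A K n)

end Pool.Agent.MP_9d78a0_co.gm

end MrgPart2

-- ======== part 3: formerly Pool.Agent.MP_9d78a0_co.gm.SpecB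
section MrgPart3

/-! Tangles: quotients and the statements of block B. -/

set_option autoImplicit false

namespace Pool.Agent.MP_9d78a0_co.gm

open Set Function

section defs

variable {ε ν : Type}

/-- the members of `M` and the remaining single atoms -/
def parts (M : Set (Set ε)) : Set (Set ε) := M ∪ {P | ∃ a, (∀ C ∈ M, a ∉ C) ∧ P = {a}}

/-- the union of a set of parts -/
def up {M : Set (Set ε)} (Y : Set (parts M)) : Set ε := {a | ∃ P ∈ Y, a ∈ P.1}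

/-- the hypergraph whose edges are the parts -/
def qinc (inc : ε → Set ν) (M : Set (Set ε)) (P : parts M) : Set ν := hv inc P.1

/-- the members of `M` become atoms -/
def AG.quo (σ : AG) (M : Set (Set σ.ε)) : AG where
  ε := parts M
  fin := inferInstance
  pc P := σ.un P.1
  pfin P := (toFinite P.1).biUnion fun a _ => σ.pfin a

/-- a tangle seen through a Boolean homomorphism -/
def Tangle.push {ε' : Type} {f : Set ε → ℕ} {f' : Set ε' → ℕ} {θ θ' : ℕ} (T : Tangle f θ)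
    (hf' : Sym f') (φ : Set ε' → Set ε) (hc : ∀ U, φ Uᶜ = (φ U)ᶜ)
    (hu : ∀ A B, φ (A ∪ B) = φ A ∪ φ B) (ho : ∀ U, f' U < θ' → f (φ U) < θ)
    (ha : ∀ a, (φ {a})ᶜ ∉ T.sm) : Tangle f' θ' where
  sm := {U | f' U < θ' ∧ φ U ∈ T.sm}
  ord _ k := k.1
  tot U k := (T.tot _ (ho U k)).imp (fun l => ⟨k, l⟩) fun l => ⟨by rwa [hf'.cpl], by rwa [hc]⟩
  cov A a B b C c k := T.cov _ a.2 _ b.2 _ c.2 (by
    rw [← hu, ← hu, k, ← union_compl_self (∅ : Set ε'), hu, hc, union_compl_self])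
  atom a k := ha a (hc {a} ▸ k.2)

variable {M : Set (Set ε)}

theorem exists_part (M : Set (Set ε)) (a : ε) : ∃ P : parts M, a ∈ P.1 := by
  by_cases c : ∃ C ∈ M, a ∈ C
  · obtain ⟨C, h, k⟩ := c
    exact ⟨⟨C, Or.inl h⟩, k⟩
  · push Not at c
    exact ⟨⟨{a}, Or.inr ⟨a, c, rfl⟩⟩, rfl⟩

theorem part_eq (hd : M.PairwiseDisjoint id) {P Q : parts M} {a : ε} (h : a ∈ P.1) (k : a ∈ Q.1) :
    P = Q := by
  obtain ⟨P, p | ⟨x, p, rfl⟩⟩ := P <;> obtain ⟨Q, q | ⟨y, q, rfl⟩⟩ := Q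
  · by_contra c
    exact disjoint_left.1 (hd p q fun l => c (Subtype.ext l)) h k
  · obtain rfl : a = y := k
    exact absurd h (q P p)
  · obtain rfl : a = x := h
    exact absurd k (p Q q)
  · obtain rfl : a = x := h
    obtain rfl : a = y := k
    rfl

theorem up_compl (hd : M.PairwiseDisjoint id) (Y : Set (parts M)) : up Yᶜ = (up Y)ᶜ := by
  ext a
  refine ⟨fun ⟨P, h, k⟩ ⟨Q, h', k'⟩ => h (part_eq hd k k' ▸ h'), fun h => ?_⟩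
  obtain ⟨P, k⟩ := exists_part M a
  exact ⟨P, fun l => h ⟨P, l, k⟩, k⟩

theorem up_union (A B : Set (parts M)) : up (A ∪ B) = up A ∪ up B := by
  ext a
  simp only [up, mem_union, mem_ofPred_eq, or_and_right, exists_or]

theorem up_single (P : parts M) : up {P} = P.1 := by
  ext a
  simp [up]

theorem up_mono {A B : Set (parts M)} (h : A ⊆ B) : up A ⊆ up B := fun _ ⟨P, k, l⟩ => ⟨P, h k, l⟩

theorem up_univ : up (univ : Set (parts M)) = univ :=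
  eq_univ_of_forall fun a => let ⟨P, k⟩ := exists_part M a; ⟨P, trivial, k⟩

theorem up_sub {Z : Set ε} (h : ∀ C ∈ M, C ⊆ Z ∨ Disjoint C Z) :
    up {P : parts M | P.1 ⊆ Z} = Z := by
  refine subset_antisymm (fun _ ⟨_, k, l⟩ => k l) fun a ha => ?_
  obtain ⟨P, k⟩ := exists_part M a
  refine ⟨P, show P.1 ⊆ Z from ?_, k⟩
  rcases P.2 with p | ⟨x, -, p⟩
  · exact (h _ p).resolve_right fun l => disjoint_left.1 l k ha
  · rw [p] at k ⊢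
    exact singleton_subset_iff.2 ((show a = x from k) ▸ ha)

theorem hv_q (inc : ε → Set ν) (Y : Set (parts M)) : hv (qinc inc M) Y = hv inc (up Y) := by
  ext v
  exact ⟨fun ⟨P, h, a, k, l⟩ => ⟨a, ⟨P, h, k⟩, l⟩, fun ⟨a, ⟨P, h, k⟩, l⟩ => ⟨P, h, a, k, l⟩⟩

theorem hbd_q (hd : M.PairwiseDisjoint id) (inc : ε → Set ν) (Y : Set (parts M)) :
    hbd (qinc inc M) Y = hbd inc (up Y) := by
  rw [hbd_eq, hbd_eq, hv_q, hv_q, up_compl hd]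

theorem hf_q (hd : M.PairwiseDisjoint id) (inc : ε → Set ν) (Y : Set (parts M)) :
    hf (qinc inc M) Y = hf inc (up Y) := by
  rw [hf, hbd_q hd, hf]

end defs

namespace AG

variable (σ : AG) {M : Set (Set σ.ε)}

theorem vs_eq (U : Set σ.ε) : σ.vs U = hv σ.inc U := by
  ext v
  simp [vs, hv]

theorem vs_un (U : Set σ.ε) : VV (σ.un U) ∩ Od = σ.vs U := by
  ext v
  simp only [VV, un, vs, inc, mem_inter_iff, mem_ofPred_eq, mem_iUnion]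
  exact ⟨fun ⟨⟨p, ⟨a, h, k⟩, l⟩, o⟩ => ⟨a, h, ⟨p, k, l⟩, o⟩,
    fun ⟨a, h, ⟨p, k, l⟩, o⟩ => ⟨⟨p, ⟨a, h, k⟩, l⟩, o⟩⟩

theorem quo_inc : (σ.quo M).inc = qinc σ.inc M :=
  funext fun P => (σ.vs_un P.1).trans (σ.vs_eq P.1)

theorem quo_un (Y : Set (parts M)) : (σ.quo M).un Y = σ.un (up Y) := by
  ext p
  simp only [un, quo, up, mem_iUnion, mem_ofPred_eq]
  exact ⟨fun ⟨P, h, a, k, l⟩ => ⟨a, ⟨P, h, k⟩, l⟩, fun ⟨a, ⟨P, h, k⟩, l⟩ => ⟨P, h, a, k, l⟩⟩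

theorem quo_vs (Y : Set (parts M)) : (σ.quo M).vs Y = σ.vs (up Y) :=
  ((σ.quo M).vs_un Y).symm.trans ((congrArg (fun X => VV X ∩ Od) (σ.quo_un Y)).trans (σ.vs_un _))

theorem quo_bd (hd : M.PairwiseDisjoint id) (Y : Set (parts M)) :
    (σ.quo M).bd Y = σ.bd (up Y) :=
  (congrArg (fun i => hbd i Y) σ.quo_inc).trans (hbd_q hd σ.inc Y)

theorem quo_f (hd : M.PairwiseDisjoint id) (Y : Set (parts M)) : (σ.quo M).f Y = σ.f (up Y) :=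
  congrArg Set.ncard (σ.quo_bd hd Y)

/-- the quotient has robust atoms -/
theorem quo_rob (hd : M.PairwiseDisjoint id) (h : σ.Rob)
    (hM : ∀ C ∈ M, Robust (σ.un C) (σ.bd C)) : (σ.quo M).Rob := by
  intro P
  have e : (σ.quo M).bd {P} = σ.bd P.1 := (σ.quo_bd hd {P}).trans (congrArg σ.bd (up_single P))
  rw [e]
  obtain ⟨P, p | ⟨a, p, rfl⟩⟩ := P
  · exact hM P p
  · have : σ.un {a} = σ.pc a := by simp [un]
    change Robust (σ.un {a}) (σ.bd {a})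
    rw [this]
    exact h a

end AG

/-- centres whose cuts match -/
def SelS : Prop :=
  ∀ (ε : Type) [Finite ε] (f : Set ε → ℕ) (θ : ℕ) (e : ε) (N : Tangle f θ → Set (Tangle f θ)),
    Sym f → Nonempty (Tangle f θ) → ∃ Z : Set (Tangle f θ), Z.Nonempty ∧
      ∀ T ∈ Z, ∀ C ∈ Cut e T (N T), ∃ T' ∈ Z, IsDist e T T' C ∧ Cᶜ ∈ Cut e T' (N T')

/-- the hypothesis of the tangle lemma -/
def Heart (θ : ℕ) (σ : ℕ → AG) (e : ∀ n, (σ n).ε)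
    (N : ∀ n, Tangle (σ n).f θ → Set (Tangle (σ n).f θ)) : Prop :=
  ∀ A, Pwo A → ∀ (n : ℕ → ℕ) (T : ∀ i, Tangle (σ (n i)).f θ),
    (∀ i, ∀ C ∈ Cut (e (n i)) (T i) (N (n i) (T i)), e (n i) ∉ C →
      InA A ((σ (n i)).un C) ((σ (n i)).bd C)) →
    ∃ i j, i < j ∧ ULe ((σ (n i)).un (Out (e (n i)) (T i) (N (n i) (T i)))ᶜ)
      ((σ (n i)).bd (Out (e (n i)) (T i) (N (n i) (T i))))
      ((σ (n j)).un (Out (e (n j)) (T j) (N (n j) (T j)))ᶜ)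
      ((σ (n j)).bd (Out (e (n j)) (T j) (N (n j) (T j))))

/-- the tangle lemma -/
def TlS : Prop :=
  ∀ (θ : ℕ) (σ : ℕ → AG) (e : ∀ n, (σ n).ε) (N : ∀ n, Tangle (σ n).f θ → Set (Tangle (σ n).f θ)),
    (∀ n, (σ n).Rob) → (∀ n, Nonempty (Tangle (σ n).f θ)) → Heart θ σ e N →
    ∃ m n, m < n ∧ Le (σ m).lab (σ n).lab

/-- a region in which every tangle lives in a part has bounded width over the parts -/
def RegionS : Prop :=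
  ∀ (ε ν : Type) [Finite ε] (inc : ε → Set ν) (θ r : ℕ) (M : Set (Set ε)) (Y : Set (parts M)),
    (∀ a, (inc a).Finite) → M.PairwiseDisjoint id → (∀ C ∈ M, ARob (hf inc) C) →
    (∀ P ∈ Y, hf inc P.1 ≤ r) →
    (∀ T : Tangle (hf inc) θ, (∀ U, hf inc U < θ → Disjoint U (up Y) → U ∈ T.sm) →
      ∃ P ∈ Y, P.1ᶜ ∈ T.sm) → Wd (qinc inc M) Y (3 * θ + r)

/-- the same without members -/
def Region0S : Prop :=
  ∀ (ε ν : Type) [Finite ε] (inc : ε → Set ν) (θ r : ℕ) (Y : Set ε), (∀ a, (inc a).Finite) →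
    (∀ a ∈ Y, hf inc {a} ≤ r) →
    (∀ T : Tangle (hf inc) θ, ¬ ∀ U, hf inc U < θ → Disjoint U Y → U ∈ T.sm) →
    Wd inc Y (3 * θ + r)

/-- a tangle bounds the width from below -/
def NoTgS : Prop :=
  ∀ (ε : Type) [Finite ε] (f : Set ε → ℕ) (θ K : ℕ) (D : Set (Set ε)), Sym f → pl.Dec f K D →
    K < θ → IsEmpty (Tangle f θ)

/-- from the incidence graph to the hypergraph -/
def WdIgS : Prop :=
  ∀ (ε ν : Type) [Finite ε] [Finite ν] (inc : ε → Set ν) (K r : ℕ), (∀ a, (inc a).ncard ≤ r) →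
    pl.HasDec K (ig inc) → ∃ D, pl.Dec (hf inc) (K * (r + 1)) D

/-- the set misses the edges of a row -/
def OffRow {ε ν : Type} {g : ℕ} (B : Fin g × Fin g → Set (ν ⊕ ε)) (U : Set ε) : Prop :=
  ∃ i, ∀ j a, Sum.inr a ∈ B (i, j) → a ∉ U

/-- the tangle of a grid model -/
def GridTgS : Prop :=
  ∀ (ε ν : Type) [Finite ε] (inc : ε → Set ν) (g c : ℕ) (B : Fin g × Fin g → Set (ν ⊕ ε)),
    (∀ a, (inc a).Finite) → 3 * c ≤ g → 4 ≤ g → Model (fb.grid g) (ig inc) univ B →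
    ∃ T : Tangle (hf inc) c, ∀ U, U ∈ T.sm ↔ hf inc U < c ∧ OffRow B U

/-- the big bridge of a distinction sees the whole boundary -/
def StarS : Prop :=
  ∀ (ε ν : Type) [Finite ε] (inc : ε → Set ν) (θ : ℕ) (e : ε) (T T' : Tangle (hf inc) θ)
    (D : Set ε), (∀ a, (inc a).Finite) → IsDist e T T' D → ∃ K ⊆ D, Kᶜ ∈ T'.sm ∧
      hbd inc K = hbd inc D ∧ Conn (ig inc) (Sum.inr '' K ∪ Sum.inl '' (hv inc K \ hbd inc D))

/-- a tangle of large order controls a grid model of the incidence graph -/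
def CtrlS : Prop :=
  ∀ g c r, 3 * c ≤ g → 4 ≤ g → ∃ θ0, ∀ (ε ν : Type) [Finite ε] (inc : ε → Set ν) (θ : ℕ)
    (T : Tangle (hf inc) θ), θ0 ≤ θ → (∀ a, (inc a).Finite) → (∀ a, hf inc {a} ≤ r) →
    ∃ B, Model (fb.grid g) (ig inc) univ B ∧ ∀ U, hf inc U < c → OffRow B U → U ∈ T.sm

/-- the edges of the hypergraph are loops or edges of the graph -/
def Gph {ε ν : Type} (inc : ε → Set ν) (G : SimpleGraph ν) : Prop :=
  ∀ a, ∃ u v, inc a ⊆ {u, v} ∧ (u ∈ inc a → v ∈ inc a → u ≠ v → G.Adj u v)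

/-- from the subdivision to the graph -/
def SubdivS : Prop :=
  ∀ (ε ν : Type) [Finite ε] (inc : ε → Set ν) (G : SimpleGraph ν) (g : ℕ)
    (B : Fin (g + 2) × Fin (g + 2) → Set (ν ⊕ ε)), Gph inc G →
    Model (fb.grid (g + 2)) (ig inc) univ B → ∃ B', Model (fb.grid g) G univ B' ∧
      ∀ U, hf inc U < g → (∃ j, ∀ i, Disjoint (B' (i, j)) (hv inc U)) → OffRow B U

/-- a tangle of large order of a graph controls a grid model -/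
def CtrlGS : Prop :=
  ∀ g c, 3 * c ≤ g → 2 ≤ g → ∃ θ0, ∀ (ε ν : Type) [Finite ε] (inc : ε → Set ν)
    (G : SimpleGraph ν) (θ : ℕ) (T : Tangle (hf inc) θ), θ0 ≤ θ → Gph inc G → ∃ B, Model (fb.grid g) G univ B ∧
      ∀ U, hf inc U < c → (∃ j, ∀ i, Disjoint (B (i, j)) (hv inc U)) → U ∈ T.sm

end Pool.Agent.MP_9d78a0_co.gm

end MrgPart3

-- ======== part 4: formerly Pool.Agent.MP_9d78a0_co.gm.SpecJ
section MrgPart4

/-! Blocks J and K: the steps, the measure, the induction. -/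

set_option autoImplicit false

namespace Pool.Agent.MP_9d78a0_co.gm

open Set Function

/-! The measure -/

/-- one more forbidden letter -/
def Ty.add (y : Ty) (ω : Lab) : Ty := ⟨y.d, y.A, y.K, insert ω y.F⟩

/-- a letter of the type -/
def Ty.New (y : Ty) (ω : Lab) : Prop :=
  ω ∈ Om y.A y.K (2 * y.d + 2) ∧ ∀ ω' ∈ y.F, ¬ Le ω' ω

/-- smaller types -/
def Ty.Lt (y' y : Ty) : Prop := y'.d < y.d ∨ (Pwo y.A ∧ ∃ ω, y.New ω ∧ y' = y.add ω)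

/-- the labels that are not above `ω` -/
def cutI (I : Set Lab) (ω : Lab) : Set Lab := {l | l ∈ I ∧ ¬ Le ω l}

/-- smaller sets of labels -/
def ILt (I' I : Set Lab) : Prop := Pwo I ∧ ∃ ω ∈ I, I' = cutI I ω

/-- every member is kept once or replaced by smaller ones, and some member is replaced -/
def MsLt (M' M : Multiset Ty) : Prop :=
  ∃ (ι ι' : Type) (_ : Fintype ι) (_ : Fintype ι') (f : ι → Ty) (f' : ι' → Ty) (src : ι' → ι),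
    M = Finset.univ.val.map f ∧ M' = Finset.univ.val.map f' ∧
    (∀ j', (f' j' = f (src j') ∧ ∀ j'', src j'' = src j' → j'' = j') ∨
      (f' j').Lt (f (src j'))) ∧ ∃ j, ∀ j', src j' = j → (f' j').Lt (f j)

/-- the order on parameters -/
def Par.Lt (p' p : Par) : Prop :=
  p'.k < p.k ∨ (p'.k = p.k ∧ (ILt p'.I p.I ∨ (p'.I = p.I ∧ (p'.q < p.q ∨ (p'.q = p.q ∧
    (MsLt p'.Ms p.Ms ∨ (p'.Ms = p.Ms ∧ p'.c < p.c)))))))

/-- all sets of labels are well-quasi-ordered -/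
def Par.Wf (p : Par) : Prop := Pwo p.I ∧ Pwo p.A ∧ ∀ y ∈ p.Ms, Pwo y.A

/-- the order is well founded -/
def WfS : Prop := WellFounded Par.Lt

/-! Tame structures, sites, terminals -/

/-- a graph with a tame structure -/
structure TM (p : Par) where
  σ : AG
  t : Sh σ
  ty : t.ι → Ty
  nm : W → ℕ
  h : Tame p σ t ty nm

/-- the cells `Y` become holes -/
def Sk.site (s : Sk) (Y : Set MV) : Sk := { s with H := s.H ∪ Y }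

/-- every pocket that contains `y` is large -/
def Sk.NoPk (s : Sk) {g : ℕ} (B : Fin g × Fin g → Set MV) (y : MV) : Prop :=
  ∀ S, s.Pk S → y ∈ S → (S ∩ big s.G B s.T (s.N S)).Nonempty

/-- the frame at the holes -/
def Sk.Frm (s : Sk) {g : ℕ} (B : Fin g × Fin g → Set MV) (R : ℕ) : Prop :=
  ∃ U0, s.M.Frame s.vx B s.H R U0

/-- the node is adjacent to a cell of `K` -/
def Sk.Live (s : Sk) (K : Set MV) (v : W) : Prop := ∃ x ∈ K ∩ s.Ce, v ∈ s.nb x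

/-- the positions off `E` whose spoke is next to a spoke to a node of `E` -/
def Sk.Br (s : Sk) (E : Set MV) : Set W :=
  {v | Sum.inl v ∉ E ∧ ∃ f ∈ s.M.fl s.vx s.H, Sum.inl (s.far f) ∈ E ∧ s.far (s.M.rot f) = v}

/-- `B'` is a block of `B` -/
def Blk {V : Type} {g g' : ℕ} (B : Fin g × Fin g → Set V) (B' : Fin g' × Fin g' → Set V) : Prop :=
  ∃ (i0 j0 : ℕ) (e1 e2 : Fin g' → Fin g), (∀ i, (e1 i : ℕ) = i0 + i) ∧ (∀ j, (e2 j : ℕ) = j0 + j) ∧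
    ∀ p, B' p = B (e1 p.1, e2 p.2)

namespace Sh

variable {σ : AG} (t : Sh σ)

/-- the cells `Y` become holes with fixed spokes -/
def site (Y : Set MV) : Sh σ := { t with s := t.s.site Y }

/-- the flags of the fixed spokes and of the first and last spokes of the sides -/
def Sg : Set t.s.Φ := t.Fx ∪ {f | ∃ j, f = t.φ j 0 ∨ f = t.s.M.c (t.φ j 0) ∨
  f = t.φ j (t.m j) ∨ f = t.s.M.c (t.φ j (t.m j))}

/-- the terminals for the chosen bags `C`: the positions and links of a side from the index `a`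
up to the next chosen bag, and single nodes -/
def seg (C : t.ι → ℕ → Prop) : (t.ι × ℕ) ⊕ W → Set MV :=
  Sum.elim (fun p => {z | ∃ i, p.2 ≤ i ∧ i ≤ t.m p.1 ∧ (∀ k, p.2 ≤ k → k < i → ¬ C p.1 k) ∧
    (z = Sum.inl (t.u p.1 i) ∨ (p.2 < i ∧ z = t.lk p.1 (i - 1)))}) fun v => {Sum.inl v}

/-- the indices of the terminals -/
def tI (C : t.ι → ℕ → Prop) : Set ((t.ι × ℕ) ⊕ W) :=
  Sum.inl '' {p | p.2 ≤ t.m p.1 ∧ (p.2 = 0 ∨ C p.1 (p.2 - 1))} ∪ Sum.inr '' (t.s.far '' t.Fx)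

/-- the terminals are free -/
def Fr {g : ℕ} (B : Fin g × Fin g → Set MV) (C : t.ι → ℕ → Prop) (Nd : Set MV) : Prop :=
  t.s.M.Free t.s.vx B t.s.T Nd (t.tI C) (t.seg C)

/-- `E` is a set of cells and nodes that hangs at dead positions and is cut off by the nodes `X`
and the positions next to it -/
structure Dead {g : ℕ} (B : Fin g × Fin g → Set MV) (X E : Set MV) : Prop where
  nd : X ⊆ t.s.Nd ∧ X.Finite
  sub : E ⊆ t.s.T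
  cl : ∀ v ∈ E ∩ t.s.Nd, ∀ x ∈ t.s.Ce, t.s.G.Adj v x → x ∈ E
  nb : ∀ x ∈ E ∩ t.s.Ce, ∀ v, t.s.G.Adj x v → v ∈ E ∪ X ∪ Sum.inl '' t.s.Br E
  lnk : ∀ z ∈ E, ∃ v ∈ t.s.Po, Sum.inl v ∈ E ∧ Link t.s.G E (Sum.inl v) z
  off : Disjoint E (big t.s.G B t.s.T (X ∪ Sum.inl '' t.s.Po))
  lk : ∀ j, ∀ i < t.m j, t.lk j i ∈ E → Sum.inl (t.u j i) ∈ E ∨ Sum.inl (t.u j (i + 1)) ∈ E

/-- `E` meets the side at its two ends only -/
def Pfx (E : Set MV) (j : t.ι) : Prop :=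
  ∀ i k i', i ≤ k → k ≤ i' → i' ≤ t.m j → Sum.inl (t.u j k) ∈ E →
    Sum.inl (t.u j i) ∈ E ∨ Sum.inl (t.u j i') ∈ E

/-- the bags of the seed -/
def sb (E : Set MV) (C : t.ι → ℕ → Prop) (j : t.ι) (i : ℕ) : Prop :=
  C j i ∨ Sum.inl (t.u j i) ∈ E ∨ Sum.inl (t.u j (i + 1)) ∈ E

/-- the seed -/
def seed (E : Set MV) (C : t.ι → ℕ → Prop) : Set σ.ε :=
  t.rest ∪ (⋃ x ∈ E, t.ct x) ∪ ⋃ p ∈ {p : t.ι × ℕ | t.sb E C p.1 p.2}, t.bag p.1 p.2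

/-- the cuts on the boundary of the seed -/
def Bor (E : Set MV) (C : t.ι → ℕ → Prop) : Set (t.ι × ℕ) :=
  {p | p.2 ≤ t.m p.1 ∧ Sum.inl (t.u p.1 p.2) ∉ E ∧
    (p.2 = 0 ∨ p.2 = t.m p.1 ∨ t.sb E C p.1 (p.2 - 1) ∨ t.sb E C p.1 p.2)}

end Sh

section two

variable {p : Par} (x0 x : TM p)

/-- the two structures look the same at the holes -/
structure Match (e : x0.t.ι ≃ x.t.ι) (μ : x0.t.s.Φ → x.t.s.Φ) : Prop where
  eg : x0.t.s.M.eg = x.t.s.M.eg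
  ori : (∃ o, x0.t.s.M.Ori o) ↔ ∃ o, x.t.s.M.Ori o
  ty : ∀ j, x.ty (e j) = x0.ty j
  bij : BijOn μ x0.t.Sg x.t.Sg
  same : ∀ f ∈ x0.t.Sg, ∀ g ∈ x0.t.Sg, x0.t.s.vx f = x0.t.s.vx g ↔ x.t.s.vx (μ f) = x.t.s.vx (μ g)
  mc : ∀ f ∈ x0.t.Sg, μ (x0.t.s.M.c f) = x.t.s.M.c (μ f)
  mr : ∀ f ∈ x0.t.Sg, μ (ret x0.t.s.M.rot x0.t.Sg (x0.t.s.M.rot f)) =
    ret x.t.s.M.rot x.t.Sg (x.t.s.M.rot (μ f))
  pos : ∀ f ∈ x0.t.Sg, x0.t.s.pos f ↔ x.t.s.pos (μ f)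
  ends : ∀ j, μ (x0.t.φ j 0) = x.t.φ (e j) 0 ∧ μ (x0.t.φ j (x0.t.m j)) = x.t.φ (e j) (x.t.m (e j))
  nmf : ∀ f ∈ x0.t.Sg, x0.nm (x0.t.s.far f) = x.nm (x.t.s.far (μ f))
  nmb : ∀ j, ∀ l < x0.t.d j, x0.nm (x0.t.β j 0 l) = x.nm (x.t.β (e j) 0 l) ∧
    x0.nm (x0.t.β j (x0.t.m j) l) = x.nm (x.t.β (e j) (x.t.m (e j)) l)

/-- the cells of `x0` in `Z` have sites in `x` -/
structure Sites (Z : Set MV) (fl0 : MV → x0.t.s.Φ) (fl : MV → x.t.s.Φ) : Prop where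
  src : ∀ y ∈ Z, fl0 y ∈ x0.t.s.M.S ∧ x0.t.s.vx (fl0 y) = y ∧ x0.t.s.pos (fl0 y)
  tgt : ∀ y ∈ Z, fl y ∈ x.t.s.M.S ∧ x.t.s.vx (fl y) ∈ x.t.s.Ce ∧ x.t.s.pos (fl y)
  inj : InjOn (fun y => x.t.s.vx (fl y)) Z
  le : ∀ y ∈ Z, Le (x0.σ.un (x0.t.ct y), x0.t.s.rts (fl0 y))
    (x.σ.un (x.t.ct (x.t.s.vx (fl y))), x.t.s.rts (fl y))

/-- the set of the sites -/
def sites (fl : MV → x.t.s.Φ) : Set MV := (fun y => x.t.s.vx (fl y)) '' x0.t.s.Ce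

/-- the bags of the side `j` of `x0` have images in the side `j'` of `x` -/
structure Ch1 (j : x0.t.ι) (j' : x.t.ι) (c : ℕ → ℕ) : Prop where
  mono : ∀ k, k + 1 < x0.t.m j → c k < c (k + 1)
  lt : ∀ k < x0.t.m j, c k < x.t.m j'
  le : ∀ k < x0.t.m j, Le (x0.t.letter j k) (x.t.letter j' (c k))

/-- the chosen bags -/
def chosen (e : x0.t.ι ≃ x.t.ι) (ch : x0.t.ι → ℕ → ℕ) (j' : x.t.ι) (i : ℕ) : Prop :=
  ∃ k < x0.t.m (e.symm j'), ch (e.symm j') k = i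

/-- the first index of the terminal of position `k` -/
def start (c : ℕ → ℕ) (k : ℕ) : ℕ := if k = 0 then 0 else c (k - 1) + 1

/-- the nodes of `x0` are routed in the map of `x` -/
structure Net (e : x0.t.ι ≃ x.t.ι) (μ : x0.t.s.Φ → x.t.s.Φ) (fl0 : MV → x0.t.s.Φ)
    (fl : MV → x.t.s.Φ) (ch : x0.t.ι → ℕ → ℕ) (Y : W → Set MV) : Prop where
  conn : ∀ v, Sum.inl v ∈ x0.t.s.Nd → Conn x.t.s.G (Y v) ∧ Y v ⊆ (x.t.s.T \ sites x0 x fl) ∪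
    ⋃ i ∈ x.t.tI (chosen x0 x e ch), x.t.seg (chosen x0 x e ch) i
  dis : ∀ v w, Sum.inl v ∈ x0.t.s.Nd → Sum.inl w ∈ x0.t.s.Nd → v ≠ w → Disjoint (Y v) (Y w)
  off : ∀ v, Sum.inl v ∈ x0.t.s.Nd → Disjoint (Y v) (sites x0 x fl)
  cell : ∀ y ∈ x0.t.s.Ce,
    List.Forall₂ (fun v w => Sum.inl w ∈ Y v) (x0.t.s.rts (fl0 y)) (x.t.s.rts (fl y))
  side : ∀ j, ∀ k ≤ x0.t.m j,
    x.t.seg (chosen x0 x e ch) (Sum.inl (e j, start (ch j) k)) ⊆ Y (x0.t.u j k)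
  fix : ∀ f ∈ x0.t.Fx, Sum.inl (x.t.s.far (μ f)) ∈ Y (x0.t.s.far f)

/-- grid, control and frame of size `R` -/
structure Ctx {θ g : ℕ} (T : Tangle x.σ.f θ) (B : Fin g × Fin g → Set MV) (R : ℕ) : Prop where
  grid : x.t.s.Grid B
  ctl : Ctl x.σ T B R
  frame : x.t.s.Frm B R
  le : R ≤ g ∧ R ≤ θ

/-- the outcome of a step at the sides -/
structure ResO (Ω : Set Lab) (Sd : Set x.σ.ε) (Sb : x.t.ι → ℕ → Prop) (md : x.t.ι → Md)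
    (tt : x.t.ι → ℕ → Ty) : Prop where
  ty : ∀ j, (md j = Md.keep ∧ ∀ i, tt j i = x.ty j) ∨ (md j = Md.gen ∧ ∀ i < x.t.m j, ¬ Sb j i →
    ∃ ω ∈ Ω, (x.ty j).New ω ∧ tt j i = (x.ty j).add ω)
  drop : (∃ j, md j = Md.gen) ∨ x.σ.f Sd < p.c

/-- a preliminary structure on the same map with such an outcome -/
def PreO {θ g : ℕ} (T : Tangle x.σ.f θ) (e : x.σ.ε) (Ω : Set Lab) (B : Fin g × Fin g → Set MV)
    (w R : ℕ) : Prop :=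
  ∃ Sd Sb md tt, Pre T e x.t Sd Sb md tt B w R ∧ ResO x Ω Sd Sb md tt

end two

/-- the outcome of a step with new sides -/
def ResN (p : Par) (Ω : Set Lab) (w1 : ℕ) {σ : AG} (t : Sh σ) (Sd : Set σ.ε) : Prop :=
  (t.s.M.eg < p.k ∧ (t.s.H ∩ t.s.Vt).ncard ≤ w1) ∨ (t.s.M.eg ≤ p.k ∧ t.Str ∧
    (((t.s.H ∩ t.s.Vt).ncard ≤ w1 ∧ ∃ ω ∈ Ω ∩ p.I, t.Lb Sd (cutI p.I ω)) ∨
      ((t.s.H ∩ t.s.Vt).ncard < p.q ∧ t.Lb Sd p.I)))

/-! Small facts -/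

/-- the large component; blocks -/
def BigS : Prop :=
  ∀ (V : Type) (G : SimpleGraph V) (g : ℕ) (B : Fin g × Fin g → Set V) (D0 D : Set V),
    Model (fb.grid g) G D0 B → D0 ⊆ D →
    (∀ X X', X ⊆ X' → big G B D X' ⊆ big G B D X) ∧
    (∀ X, big G B D X ⊆ D \ X ∧ ((big G B D X).Nonempty → Conn G (big G B D X)) ∧
      (∀ u ∈ big G B D X, ∀ v ∈ D \ X, G.Adj u v → v ∈ big G B D X) ∧
      ∀ i j, Disjoint (Cross B i j) X → Cross B i j ⊆ big G B D X) ∧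
    (∀ X Z, Disjoint D0 Z → big G B (D \ Z) X = big G B D (X ∪ Z)) ∧
    (∀ X : Set V, X.Finite → X.ncard < g → ∃ i j, Disjoint (Cross B i j) X) ∧
    ∀ (g' : ℕ) (B' : Fin g' × Fin g' → Set V), Blk B B' → Model (fb.grid g') G D0 B' ∧
      ∀ X Y : Set V, X.Finite → X.ncard < g' → Disjoint D0 Y →
        big G B' D (X ∪ Y) = big G B D (X ∪ Y)

/-- a set of small width and small order is small -/
def BagS : Prop :=
  ∀ (ε ν : Type) [Finite ε] (inc : ε → Set ν) (θ K : ℕ) (T : Tangle (hf inc) θ) (Y : Set ε),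
    (∀ a, (inc a).Finite) → Wd inc Y K → K + hf inc Y < θ → Y ∈ T.sm

/-- local models and connectors that are joined through the local models -/
def Glue2S : Prop :=
  ∀ (ι : Type) (κ : ι → Type) (X X' : ι → Pc) (ρ ρ' : ∀ i, κ i → W) (Z' : Pc)
    (S : Set W) (Y : W → Set W), S ⊆ Od → (∀ i, RLe (X i) (ρ i) (X' i) (ρ' i)) →
    (∀ i k, ρ i k ∈ S ∧ ρ' i k ∈ Y (ρ i k)) → (∀ i, S ∩ VV (X i) ⊆ range (ρ i)) →
    (∀ i j, i ≠ j → VV (X i) ∩ VV (X j) ∩ Od ⊆ S) →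
    (∀ i, X' i ⊆ Z') → (∀ i j, i ≠ j → VV (X' i) ∩ VV (X' j) ∩ Od ⊆ range (ρ' i)) →
    (∀ v ∈ S, Y v ⊆ Od ∧ Y v ⊆ VV Z' ∧ (∀ i, Y v ∩ VV (X' i) ⊆ range (ρ' i)) ∧
      ∀ a ∈ Y v, ∀ b ∈ Y v, Relation.ReflTransGen (fun a b => (a ∈ Y v ∧ b ∈ Y v ∧ (gr Z').Adj a b) ∨
        ∃ i k k', ρ i k = v ∧ ρ i k' = v ∧ ρ' i k = a ∧ ρ' i k' = b) a b) →
    (∀ u ∈ S, ∀ v ∈ S, u ≠ v → Disjoint (Y u) (Y v)) → Le (⋃ i, X i, []) (Z', [])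

/-- basic facts on tame structures -/
def TameS : Prop :=
  ∀ p : Par, ∃ n : ℕ, ∀ x : TM p, (∀ j, x.ty j ∈ p.Ms ∧ (x.ty j).d = x.t.d j ∧ x.t.d j ≤ n) ∧
    Fintype.card x.t.ι ≤ n ∧ x.t.Sg.Finite ∧ x.t.Sg.ncard ≤ n ∧ x.t.Mk.Finite ∧
    InjOn x.nm x.t.Mk ∧ (∀ v ∈ x.t.Mk, x.nm v < p.ν) ∧ x.t.rest.ncard ≤ p.c ∧
    x.t.Mk ⊆ x.σ.vs x.t.rest ∧ x.σ.vs x.t.rest ⊆ x.t.Mk ∧ x.t.Str ∧ (∀ Sd, x.t.Lb Sd p.I) ∧
    (∀ j, ∀ i < x.t.m j, (x.ty j).New (x.t.letter j i) ∧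
      x.σ.bd (x.t.bag j i) ⊆ x.t.κ j i ∪ x.t.κ j (i + 1) ∧
      Sum.inl (x.t.u j i) ∈ x.t.s.Nd ∧ Sum.inl (x.t.u j (i + 1)) ∈ x.t.s.Nd ∧
      x.t.u j i ∈ x.t.s.nb (x.t.lk j i) ∧ x.t.u j (i + 1) ∈ x.t.s.nb (x.t.lk j i) ∧
      x.t.lk j i ∈ x.t.s.M.rad x.t.s.vx x.t.s.H ∧ Wd x.σ.inc (x.t.bag j i) n) ∧
    (∀ j, ∀ i ≤ x.t.m j, ∀ i' ≤ x.t.m j, x.t.u j i = x.t.u j i' → i = i') ∧
    (∀ v ∈ x.t.s.Po, v ∈ x.t.s.far '' x.t.Fx ∨ ∃ j, ∃ i ≤ x.t.m j, v = x.t.u j i) ∧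
    x.t.s.Rm ∩ x.t.s.Vt ⊆ x.t.s.M.rad x.t.s.vx x.t.s.H ∧
    ∀ y ∈ x.t.s.Rm, x.t.s.nb y ⊆ x.t.s.Po

/-- infinitely many structures look the same at the holes -/
def CodeS : Prop :=
  ∀ (p : Par) (x : ℕ → TM p), ∃ φ : ℕ → ℕ, StrictMono φ ∧
    ∀ n, ∃ e μ, Match (x (φ 0)) (x (φ n)) e μ

/-! Grids and sites -/

/-- a tangle of large order controls a grid in the map -/
def GridJS : Prop :=
  ∀ (p : Par) (g θ1 : ℕ), ∃ θ0, ∀ (x : TM p) (θ : ℕ) (T : Tangle x.σ.f θ), θ0 ≤ θ →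
    ∃ B : Fin g × Fin g → Set MV, x.t.s.Grid B ∧ Ctl x.σ T B θ1

/-- control passes to blocks -/
def CtlBlkS : Prop :=
  ∀ (p : Par) (x : TM p) (θ g g' θ1 θ2 : ℕ) (T : Tangle x.σ.f θ) (B : Fin g × Fin g → Set MV)
    (B' : Fin g' × Fin g' → Set MV), x.t.s.Grid B → Blk B B' → Ctl x.σ T B θ1 → θ2 ≤ θ1 →
    θ2 ≤ g' → 2 ≤ g' → Ctl x.σ T B' θ2

/-- tame structures with sites are raw structures -/
def ToRawS : Prop :=
  ∀ (p : Par) (n : ℕ), ∃ s D : ℕ, ∀ (x : TM p) (Y : Set MV), Y ⊆ x.t.s.Ce → Y.ncard ≤ n →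
    ∃ r : Rw x.σ, r.s = x.t.s.site Y ∧ r.Ok p.k (p.q + n) s D 0 ∧ r.s.Spk ∧
      r.Keep p.I ∧ ∀ y ∈ x.t.s.Ce, r.ct y = x.t.ct y

/-- a block that avoids a new site -/
def PatchJS : Prop :=
  ∀ k q g' : ℕ, ∃ g0, ∀ (s : Sk) (g : ℕ) (B : Fin g × Fin g → Set MV) (y : MV), g0 ≤ g → s.Ok →
    s.M.eg ≤ k → (s.H ∩ s.Vt).ncard ≤ q → y ∈ s.Ce → s.Grid B →
    ∃ B' : Fin g' × Fin g' → Set MV, Blk B B' ∧ (s.site {y}).Grid B'

/-- enclosed cells -/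
def EncS : Prop :=
  ∀ (s : Sk) (g g' n n' : ℕ) (B : Fin g × Fin g → Set MV) (B' : Fin g' × Fin g' → Set MV)
    (y : MV), s.Ok → s.Grid B → Blk B B' → y ∈ s.Ce → (s.site {y}).Grid B' → 3 * n' + 9 < g' →
    (s.NF B n → n' + 1 ≤ n → ¬ (s.site {y}).NF B' n' → s.Enc B (3 * n' + 3) y) ∧
    (∀ z, s.Enc B n' z → (s.site {y}).Enc B' (n' + 3) z) ∧
    ∀ S S', s.Pk S → s.Pk S' → Disjoint S (big s.G B s.T (s.N S)) →
      Disjoint S' (big s.G B s.T (s.N S')) → (S ∩ S').Nonempty → y ∈ S → ∀ z ∈ S',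
      (s.site {y}).Enc B' 4 z ∧ (s.Enc B n' y → s.Enc B (n' + 4) z)

/-- one more site, or all cells above `ω` are absorbed -/
def Site1S : Prop :=
  ∀ (p : Par) (j n' g' : ℕ) (ρ : ℕ → ℕ), ∃ n g0 θ1 w1 : ℕ, ∀ (x : TM p) (θ g : ℕ)
    (T : Tangle x.σ.f θ) (e : x.σ.ε) (Y : Set MV) (B : Fin g × Fin g → Set MV) (ω : Lab),
    3 * n' + 9 < g' → g0 ≤ g → θ1 ≤ θ → Y ⊆ x.t.s.Ce → Y.ncard ≤ j → (x.t.s.site Y).Grid B →
    Ctl x.σ T B θ1 → (x.t.s.site Y).NF B n → (∀ y ∈ Y, x.t.s.NoPk B y) →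
    (∃ f ∈ x.t.s.M.S, x.t.s.pos f ∧ x.t.s.vx f ∈ x.t.s.Ce \ Y ∧
      Le ω (x.σ.un (x.t.ct (x.t.s.vx f)), x.t.s.rts f) ∧ x.t.s.NoPk B (x.t.s.vx f) ∧
      ∃ B' : Fin g' × Fin g' → Set MV, Blk B B' ∧ (x.t.s.site (insert (x.t.s.vx f) Y)).Grid B' ∧
        (x.t.s.site (insert (x.t.s.vx f) Y)).NF B' n') ∨
    ∃ (t : Sh x.σ) (Sd : Set x.σ.ε), PreN T e ρ w1 t Sd ∧ (t.s.H ∩ t.s.Vt).ncard ≤ w1 ∧
      (t.s.M.eg < p.k ∨ (t.s.M.eg ≤ p.k ∧ t.Str ∧ t.Lb Sd (cutI p.I ω)))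

/-- sites for all cells, or a step with new sides -/
def SiteS : Prop :=
  ∀ (p : Par) (x0 : TM p) (n g θ1 : ℕ) (ρ : ℕ → ℕ), Nonempty x0.t.s.Φ →
    ∃ (Ω : Set Lab) (w1 θ0 : ℕ), Ω.Finite ∧
    ∀ (x : TM p) (θ : ℕ) (T : Tangle x.σ.f θ) (e : x.σ.ε), θ0 ≤ θ → θ1 ≤ g → 3 * n + 9 < g →
    (∃ fl0 fl, ∃ B : Fin g × Fin g → Set MV, Sites x0 x x0.t.s.Ce fl0 fl ∧
      (x.t.s.site (sites x0 x fl)).Grid B ∧ Ctl x.σ T B θ1 ∧ (x.t.s.site (sites x0 x fl)).NF B n ∧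
      ∀ y ∈ sites x0 x fl, x.t.s.NoPk B y) ∨
    ∃ (t : Sh x.σ) (Sd : Set x.σ.ε), PreN T e ρ w1 t Sd ∧ ResN p Ω w1 t Sd

/-! Sides -/

/-- with a frame, the spokes go to different nodes -/
def PosS : Prop :=
  ∀ (s : Sk) (g R : ℕ) (B : Fin g × Fin g → Set MV), s.Ok → s.Spk → s.Grid B → s.Frm B R →
    1 ≤ R → (∀ f ∈ s.M.fl s.vx s.H, ∀ f' ∈ s.M.fl s.vx s.H, s.far f = s.far f' →
      f' = f ∨ f' = s.M.c f) ∧
    ∀ x ∈ s.H, ∀ x' ∈ s.H, (s.M.rad s.vx {x} ∩ s.M.rad s.vx {x'}).Nonempty → x = x'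

/-- links in the removed terminals do not matter -/
def SupS : Prop :=
  ∀ (p : Par) (x : TM p) (g : ℕ) (B : Fin g × Fin g → Set MV) (C : x.t.ι → ℕ → Prop)
    (X : Set MV) (J : Set ((x.t.ι × ℕ) ⊕ W)) (v : W), x.t.s.Grid B → J ⊆ x.t.tI C →
    Sum.inl v ∉ X ∪ ⋃ i ∈ J, x.t.seg C i →
    Sum.inl v ∉ big x.t.s.G B x.t.s.T (X ∪ ⋃ i ∈ J, x.t.seg C i) →
    ¬ x.t.s.Live (big x.t.s.G B x.t.s.T
      (X ∪ (Sum.inl '' x.t.s.Po ∩ ⋃ i ∈ J, x.t.seg C i))) v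

/-- the gaps of the dead positions `Q`; unions -/
def DeadS : Prop :=
  ∀ (p : Par) (x : TM p) (g R : ℕ) (B : Fin g × Fin g → Set MV), x.t.s.Grid B → x.t.s.Frm B R →
    1 ≤ R → (x.t.Dead B ∅ ∅ ∧ ∀ X E X' E', x.t.Dead B X E → x.t.Dead B X' E' →
      x.t.Dead B (X ∪ X') (E ∪ E') ∧ x.t.s.Br (E ∪ E') ⊆ x.t.s.Br E ∪ x.t.s.Br E' ∧
      ∀ j, x.t.Pfx E j → x.t.Pfx E' j → x.t.Pfx (E ∪ E') j) ∧
    ∀ (X Y : Set MV) (Q : Set W), X ⊆ x.t.s.Nd \ Sum.inl '' x.t.s.Po → X.Finite → X.ncard ≤ R →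
      X.ncard < g → Y ⊆ Sum.inl '' x.t.s.Po → Q ⊆ x.t.s.Po →
      (∀ v ∈ Q, ¬ x.t.s.Live (big x.t.s.G B x.t.s.T (X ∪ Y)) v) →
      ∃ E, x.t.Dead B X E ∧ Sum.inl '' Q ⊆ E ∧ (x.t.s.Br E).ncard ≤ 2 * Q.ncard ∧
        (∀ v ∈ x.t.s.Br E, x.t.s.Live (big x.t.s.G B x.t.s.T (X ∪ Y)) v) ∧
        ∀ j, (∀ i, 0 < i → i < x.t.m j → x.t.u j i ∉ Q) → x.t.Pfx E j

/-- the boundary of the seed -/
def SeedS : Prop :=
  ∀ (p : Par) (x : TM p) (g R : ℕ) (B : Fin g × Fin g → Set MV) (X E : Set MV)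
    (C : x.t.ι → ℕ → Prop), x.t.s.Grid B → x.t.s.Frm B R → 1 ≤ R → x.t.Dead B X E →
    (∀ v, Sum.inl v ∈ E → v ∉ x.σ.bd (x.t.seed E C)) ∧
    x.σ.bd (x.t.seed E C) ⊆ nodeOf '' X ∪ {v | v ∈ x.t.s.far '' x.t.Fx ∧ Sum.inl v ∉ E} ∪
      ⋃ q ∈ x.t.Bor E C, x.t.κ q.1 q.2

/-- from a dead set and chosen bags to a preliminary structure -/
def MkPreS : Prop :=
  ∀ (p : Par) (n : ℕ), ∃ w R1 : ℕ, ∀ (x : TM p) (θ g R : ℕ) (T : Tangle x.σ.f θ) (e : x.σ.ε)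
    (B : Fin g × Fin g → Set MV) (X E : Set MV) (C : x.t.ι → ℕ → Prop) (md : x.t.ι → Md)
    (tt : x.t.ι → ℕ → Ty), R1 ≤ R → Ctx x T B R → x.t.Dead B X E → X.ncard ≤ n →
    (x.t.s.Br E).ncard ≤ n → {q : x.t.ι × ℕ | C q.1 q.2}.Finite →
    {q : x.t.ι × ℕ | C q.1 q.2}.ncard ≤ n →
    (∀ j, (md j = Md.keep ∧ (∀ i, ¬ C j i) ∧ x.t.Pfx E j ∧ ∀ i, tt j i = x.ty j) ∨
      (md j = Md.gen ∧ ∀ i < x.t.m j, ¬ x.t.sb E C j i → x.t.Fits j i (tt j i) ∧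
        (i + 1 < x.t.m j → ¬ x.t.sb E C j (i + 1) → tt j i = tt j (i + 1)))) →
    Pre T e x.t (x.t.seed E C) (x.t.sb E C) md tt B w R

/-- whole sides and fixed nodes are free, or the number of marked vertices drops -/
def J2S : Prop :=
  ∀ p : Par, ∃ w R1 : ℕ, ∀ (x : TM p) (θ g R : ℕ) (T : Tangle x.σ.f θ) (e : x.σ.ε)
    (B : Fin g × Fin g → Set MV), R1 ≤ R → Ctx x T B R →
    x.t.Fr B (fun _ _ => False) x.t.s.Nd ∨ PreO x T e ∅ B w R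

/-- the letters of one side are found, or the type of the side drops -/
def OneS : Prop :=
  ∀ (p : Par) (n : ℕ), ∃ w R1 : ℕ, ∀ (x0 x : TM p) (θ g R : ℕ) (T : Tangle x.σ.f θ) (e : x.σ.ε)
    (B : Fin g × Fin g → Set MV) (j : x0.t.ι) (j' : x.t.ι) (C : x.t.ι → ℕ → Prop), R1 ≤ R →
    Ctx x T B R → x.ty j' = x0.ty j → x0.t.m j ≤ n → (∀ i, ¬ C j' i) →
    {q : x.t.ι × ℕ | C q.1 q.2}.Finite → {q : x.t.ι × ℕ | C q.1 q.2}.ncard ≤ n →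
    x.t.Fr B C x.t.s.Nd →
    (∃ c, Ch1 x0 x j j' c ∧
      x.t.Fr B (fun a i => C a i ∨ (a = j' ∧ ∃ k < x0.t.m j, c k = i)) x.t.s.Nd) ∨
    PreO x T e (x0.t.letter j '' Iio (x0.t.m j)) B w R

/-- all letters are found, or a step at the sides -/
def J23S : Prop :=
  ∀ (p : Par) (x0 : TM p), ∃ (Ω : Set Lab) (w R1 : ℕ), Ω.Finite ∧ ∀ (x : TM p) (θ g R : ℕ)
    (T : Tangle x.σ.f θ) (e : x.σ.ε) (B : Fin g × Fin g → Set MV) (eq : x0.t.ι ≃ x.t.ι),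
    R1 ≤ R → Ctx x T B R → (∀ j, x.ty (eq j) = x0.ty j) →
    (∃ ch, (∀ j, Ch1 x0 x j (eq j) (ch j)) ∧ x.t.Fr B (chosen x0 x eq ch) x.t.s.Nd) ∨
      ∃ w' ≤ w, PreO x T e Ω B w' R

/-! Success -/

/-- freeness is local -/
def LocS : Prop :=
  ∀ (p : Par) (x : TM p) (g R : ℕ) (B : Fin g × Fin g → Set MV) (Y : Set MV)
    (C : x.t.ι → ℕ → Prop), Y ⊆ x.t.s.Ce → (x.t.s.site Y).Grid B → (x.t.s.site Y).Frm B R →
    ((x.t.site Y).tI C).Finite → ((x.t.site Y).tI C).ncard + 2 ≤ R → R + 2 ≤ g →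
    (∀ y ∈ Y, x.t.s.NoPk B y) → x.t.Fr B C x.t.s.Nd →
    (x.t.site Y).Fr B C (x.t.s.site Y).T

/-- the routing theorem applied to the source map without its rims -/
def MatS : Prop :=
  ∀ (p : Par) (x0 x : TM p) (e : x0.t.ι ≃ x.t.ι) (μ : x0.t.s.Φ → x.t.s.Φ) (fl0 : MV → x0.t.s.Φ)
    (fl : MV → x.t.s.Φ) (ch : x0.t.ι → ℕ → ℕ) (g R : ℕ) (B : Fin g × Fin g → Set MV),
    Match x0 x e μ → Sites x0 x x0.t.s.Ce fl0 fl → (∀ j, Ch1 x0 x j (e j) (ch j)) →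
    (x.t.s.site (sites x0 x fl)).Grid B → (x.t.s.site (sites x0 x fl)).Frm B R → 1 ≤ R →
    x.t.s.M.Route x.t.s.vx B (x.t.s.H ∪ sites x0 x fl) x0.t.s.M.S.ncard →
    (x.t.site (sites x0 x fl)).Fr B (chosen x0 x e ch) (x.t.s.site (sites x0 x fl)).T →
    ∃ Y, Net x0 x e μ fl0 fl ch Y

/-- from the routing to a model -/
def RealS : Prop :=
  ∀ (p : Par) (x0 x : TM p) (e : x0.t.ι ≃ x.t.ι) (μ : x0.t.s.Φ → x.t.s.Φ) (fl0 : MV → x0.t.s.Φ)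
    (fl : MV → x.t.s.Φ) (ch : x0.t.ι → ℕ → ℕ) (Y : W → Set MV),
    Match x0 x e μ → Sites x0 x x0.t.s.Ce fl0 fl → (∀ j, Ch1 x0 x j (e j) (ch j)) →
    Net x0 x e μ fl0 fl ch Y → Le x0.σ.lab x.σ.lab

/-- a model, or a preliminary structure with a smaller outcome -/
def StepS : Prop :=
  ∀ (p : Par) (x0 : TM p) (ρ : ℕ → ℕ), ∃ (Ω : Set Lab) (w1 θ0 : ℕ), Ω.Finite ∧
    ∀ (x : TM p) (θ : ℕ) (T : Tangle x.σ.f θ) (e : x.σ.ε), θ0 ≤ θ → (∃ eq μ, Match x0 x eq μ) →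
    Le x0.σ.lab x.σ.lab ∨ (∃ (t : Sh x.σ) (Sd : Set x.σ.ε), PreN T e ρ w1 t Sd ∧ ResN p Ω w1 t Sd) ∨
      ∃ (w g R : ℕ) (B : Fin g × Fin g → Set MV), w ≤ w1 ∧ ρ w ≤ R ∧ ρ w ≤ g ∧ PreO x T e Ω B w R

/-! The induction -/

/-- whatever the finishing step returns can be given parameters in `G` -/
def Nxt (G : Par → Prop) (k1 : ℕ) (Is : Set (Set Lab)) (Ts : Set Ty) (ν w1 : ℕ) {σ : AG} (t : Sh σ)
    (Sd : Set σ.ε) (Sb : t.ι → ℕ → Prop) (md : t.ι → Md) (tt : t.ι → ℕ → Ty) : Prop :=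
  (∀ j, md j ≠ Md.new → ∀ i < t.m j, ¬ Sb j i → tt j i ∈ Ts) ∧
  ∀ (A' : Set Lab) (K' w' : ℕ) (σ' : AG) (t' : Sh σ') (ty' : t'.ι → Ty) (src : t'.ι → t.ι),
    Pwo A' → Src t Sd Sb md tt t' ty' A' K' src → t'.Mk.ncard ≤ w' →
    (∀ j', (ty' j').d = t'.d j') →
    ∃ (k : ℕ) (I : Set Lab) (q c : ℕ), k ≤ k1 ∧ (I = A' ∨ I ∈ Is) ∧ q ≤ w1 + w' ∧ c ≤ w' ∧
      t.s.M.eg ≤ k ∧ (I = A' ∨ (t.Str ∧ t.Lb Sd I)) ∧
      ((t.s.H ∩ t.s.Vt).ncard + w' ≤ q ∨ (t.Str ∧ (t.s.H ∩ t.s.Vt).ncard ≤ q)) ∧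
      t'.Mk.ncard ≤ c ∧ G ⟨k, I, q, Finset.univ.val.map ty', c, A', K', ν + w'⟩

/-- the tangle lemma together with the finishing step -/
def HeartJS : Prop :=
  ∀ (G : Par → Prop) (A : Set Lab) (K ν k1 : ℕ) (σ : ℕ → AG), (∀ p, G p → Pwo (Cls p)) → Pwo A →
    (∀ n, (σ n).Rob ∧ (σ n).Over univ A K ∧ ∀ a i, Sum.inr i ∈ VV ((σ n).pc a) → i < ν) →
    (∀ ρ : ℕ → ℕ, ∃ (w1 θ0 : ℕ) (Is : Set (Set Lab)) (Ts : Set Ty), Is.Finite ∧ Ts.Finite ∧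
      ∀ θ, θ0 ≤ θ → ∀ (n : ℕ) (T : Tangle (σ n).f θ) (e : (σ n).ε),
        ∃ (t : Sh (σ n)) (Sd : Set (σ n).ε) (Sb : t.ι → ℕ → Prop) (md : t.ι → Md)
          (tt : t.ι → ℕ → Ty) (w g R : ℕ) (B : Fin g × Fin g → Set MV), w ≤ w1 ∧ ρ w ≤ R ∧ ρ w ≤ g ∧
          Pre T e t Sd Sb md tt B w R ∧ Nxt G k1 Is Ts ν w1 t Sd Sb md tt) →
    ∃ m n, m < n ∧ Le (σ m).lab (σ n).lab

/-- all classes of tame structures are well-quasi-ordered -/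
def MainS : Prop := ∀ p : Par, p.Wf → Pwo (Cls p)

/-- finite graphs are well-quasi-ordered by minors -/
def RSS : Prop :=
  ∀ G : ℕ → Σ k : ℕ, SimpleGraph (Fin k), ∃ i j, i < j ∧ IsMinor (G i).2 (G j).2

end Pool.Agent.MP_9d78a0_co.gm

end MrgPart4

-- marker of a merged file
example : 731051 + 822874 = 731051 + 822874 := rfl
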