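import Pool.Agent.MP_9d78a0_co.fb.S2
import Pool.Agent.MP_7be75d_co.Menger
import Pool.Agent.MP_9d78a0_co.gm.Map
import Pool.Agent.MP_9d78a0_co.gm.SpecJ
import Mathlib.Data.Nat.Nth

-- ======== part 0: formerly Pool.Agent.MP_9d78a0_co.fb.Kit2
section MrgPart0

/-! Menger's theorem for sets, crossing a range of levels, chains of relinkings. -/

set_option autoImplicit false

namespace Pool.Agent.MP_9d78a0_co.fb

open Set Function

namespace Kit2

/-- discrete intermediate values -/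
theorem ivt {g : ℕ → ℕ} {i j l : ℕ} (hij : i ≤ j) (h : ∀ t, i ≤ t → t < j → g (t + 1) ≤ g t + 1)
    (h1 : g i ≤ l) (h2 : l ≤ g j) : ∃ t, i ≤ t ∧ t ≤ j ∧ g t = l := by
  induction j, hij using Nat.le_induction with
  | base => exact ⟨i, le_rfl, le_rfl, by omega⟩
  | succ n hn ih =>
    by_cases c : l ≤ g n
    · obtain ⟨t, a, b, e⟩ := ih (fun t a b => h t a (by omega)) c
      exact ⟨t, a, by omega, e⟩
    · have := h n hn (by omega)
      exact ⟨n + 1, by omega, le_rfl, by omega⟩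

/-- the running products of the permutations -/
def run {ι : Type} (θ : ℕ → Equiv.Perm ι) : ℕ → Equiv.Perm ι
  | 0 => 1
  | w + 1 => θ w * run θ w

end Kit2

theorem mengerS : MengerS := by
  classical
  intro V G U A B r hU h
  let _ : Fintype U := hU.fintype
  obtain ⟨P, hP⟩ := MP_7be75d_co.menger (V := U) Finset.univ r _ (G.induce U)
    (Finset.univ.filter fun v => v.1 ∈ A) (Finset.univ.filter fun v => v.1 ∈ B) le_rfl (by
      intro Z hZ
      obtain ⟨S, hS, hc, ⟨a, ha, ha'⟩, ⟨b, hb, hb'⟩⟩ := h (Subtype.val '' (Z : Set U))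
        (by rintro _ ⟨x, -, rfl⟩; exact x.2)
        (by rwa [ncard_image_of_injective _ Subtype.val_injective, ncard_coe_finset])
      have mem : ∀ v (hv : v ∈ S), (⟨v, (hS hv).1⟩ : U) ∈ Finset.univ \ Z := fun v hv => by
        rw [Finset.mem_sdiff]
        exact ⟨Finset.mem_univ _, fun c => (hS hv).2 ⟨_, c, rfl⟩⟩
      have key : ∀ v, Link G S a v → ∀ hv : v ∈ S,
          MP_7be75d_co.R (G.induce U) (Finset.univ \ Z) ⟨a, (hS ha).1⟩ ⟨v, (hS hv).1⟩ := by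
        intro v hv
        induction hv with
        | refl => exact fun _ => MP_7be75d_co.R.refl
        | @tail x y _ h2 ih =>
          exact fun hy => (ih h2.1).tail (by simpa using h2.2.2) (mem x h2.1) (mem y hy)
      refine ⟨⟨a, (hS ha).1⟩, by simpa using ha', ⟨b, (hS hb).1⟩, by simpa using hb', ?_, ?_⟩
      · simpa using mem a ha
      · exact (key b (hc.2 a ha b hb) hb).mono fun x hx => by simpa using hx)
  refine ⟨fun i => Subtype.val '' (P i : Set U), fun i => ⟨?_, ?_, ?_, ?_⟩, fun i j hij => ?_⟩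
  · rintro _ ⟨x, -, rfl⟩
    exact x.2
  · obtain ⟨⟨x, hx⟩, hc⟩ := hP.conn i
    refine ⟨⟨x.1, x, hx, rfl⟩, ?_⟩
    rintro _ ⟨u, hu, rfl⟩ _ ⟨v, hv, rfl⟩
    have k := hc u hu v hv
    clear hv
    induction k with
    | refl => exact Link.refl _ _ _
    | @tail y z _ h2 ih =>
      exact ih.trans (Link.single ⟨y, h2.2.1, rfl⟩ ⟨z, h2.2.2, rfl⟩ (by simpa using h2.1))
  · obtain ⟨a, ha, ha'⟩ := hP.left i
    exact ⟨a.1, ⟨a, ha', rfl⟩, by simpa using ha⟩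
  · obtain ⟨a, ha, ha'⟩ := hP.right i
    exact ⟨a.1, ⟨a, ha', rfl⟩, by simpa using ha⟩
  · exact (disjoint_image_iff Subtype.val_injective).2 (Finset.disjoint_coe.2 (hP.disj i j hij))

theorem mengerPS : MengerPS := by
  classical
  intro V ι _ G U o n hU h
  obtain ⟨R, hR, hd⟩ := mengerS V G U (range o) (range n) (Nat.card ι) hU fun X hX hc => by
    obtain ⟨S, h1, h2, ⟨b, hb⟩, ⟨c, hc⟩⟩ := h X hX hc
    exact ⟨S, h1, h2, ⟨_, hb, b, rfl⟩, ⟨_, hc, c, rfl⟩⟩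
  have bij : ∀ q : ι → V, (∀ i, (R i ∩ range q).Nonempty) →
      ∃ e : Fin (Nat.card ι) ≃ ι, ∀ i, q (e i) ∈ R i := by
    intro q hq
    have : ∀ i, ∃ b, q b ∈ R i := fun i => by
      obtain ⟨_, hv, b, rfl⟩ := hq i
      exact ⟨b, hv⟩
    choose b hb using this
    have inj : Injective b := fun i j e => by
      by_contra c
      exact disjoint_left.1 (hd c) (hb i) (e ▸ hb j)
    exact ⟨Equiv.ofBijective b (inj.bijective_of_nat_card_le (by simp)), hb⟩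
  obtain ⟨e, he⟩ := bij o fun i => (hR i).2.2.1
  obtain ⟨e', he'⟩ := bij n fun i => (hR i).2.2.2
  refine ⟨e.symm.trans e', fun b => R (e.symm b), fun b => ⟨(hR _).1, (hR _).2.1, ?_, he' _⟩,
    fun b b' hb => hd fun c => hb (e.symm.injective c)⟩
  simpa using he (e.symm b)

theorem xpS : XpS := by
  classical
  rintro V G S f a b hab hS hf ⟨u, hu, hua⟩ ⟨v, hv, hvb⟩
  obtain ⟨p, l, ⟨h1, h2, -⟩, rfl, rfl⟩ := link_path (hS.2 u hu v hv) hu
  have step : ∀ t < l, f (p (t + 1)) ≤ f (p t) + 1 :=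
    fun t ht => hf _ (h1 t ht.le) _ (h1 _ ht) (h2 t ht)
  have ex : ∃ j, b ≤ f (p j) := ⟨l, hvb⟩
  set j := Nat.find ex with hj
  have hjl : j ≤ l := Nat.find_min' ex hvb
  have hjb : b ≤ f (p j) := Nat.find_spec ex
  have hjm : ∀ t < j, f (p t) < b := fun t ht => not_le.1 (Nat.find_min ex ht)
  set i := Nat.findGreatest (fun t => f (p t) ≤ a) j with hi
  have hij : i ≤ j := Nat.findGreatest_le j
  have hia : f (p i) ≤ a := Nat.findGreatest_spec (P := fun t => f (p t) ≤ a) (Nat.zero_le j) hua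
  have him : ∀ t, i < t → t ≤ j → a < f (p t) :=
    fun t h h' => not_le.1 (Nat.findGreatest_is_greatest (P := fun t => f (p t) ≤ a) h h')
  refine ⟨p '' Icc i j, ?_, conn_seg hij fun t _ ht => h2 t (by omega), ?_, fun x hx hx' => ?_⟩
  · rintro _ ⟨t, ht, rfl⟩
    exact h1 t (ht.2.trans hjl)
  · rintro _ ⟨t, ⟨ht, ht'⟩, rfl⟩
    constructor
    · rcases ht.eq_or_lt with rfl | c
      · rcases hij.eq_or_lt with e | c
        · rw [e]; omega
        · have := him (i + 1) (by omega) c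
          have := step i (by omega)
          omega
      · exact (him t c ht').le
    · rcases ht'.eq_or_lt with rfl | c
      · rcases hij.eq_or_lt with e | c
        · rw [← e]; omega
        · have := hjm (j - 1) (by omega)
          have := step (j - 1) (by omega)
          rw [show j - 1 + 1 = j by omega] at this
          omega
      · exact (hjm t c).le
  · obtain ⟨t, a1, a2, e⟩ := Kit2.ivt (g := fun t => f (p t)) (l := x) hij
      (fun t _ ht => step t (by omega)) (hia.trans hx) (hx'.trans hjb)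
    exact ⟨p t, ⟨t, ⟨a1, a2⟩, rfl⟩, e⟩

theorem chainS : ChainS := by
  classical
  intro ι _
  refine ⟨Nat.card (Equiv.Perm ι), fun V G o n θ R h1 h2 h3 => ?_⟩
  obtain ⟨w1, w2, h12, hw, e⟩ : ∃ w1 w2, w1 ≤ w2 ∧ w2 < Nat.card (Equiv.Perm ι) ∧
      Kit2.run θ w1 = Kit2.run θ (w2 + 1) := by
    have : ¬ Injective fun w : Fin (Nat.card (Equiv.Perm ι) + 1) => Kit2.run θ w := fun c => by
      have := Nat.card_le_card_of_injective _ c
      simp at this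
    simp only [Injective, not_forall] at this
    obtain ⟨x, y, e, c⟩ := this
    have hx := x.2
    have hy := y.2
    rcases lt_or_gt_of_ne (fun d => c (Fin.ext d) : x.1 ≠ y.1) with d | d
    · exact ⟨x, y - 1, by omega, by omega, by rwa [show (y : ℕ) - 1 + 1 = y by omega]⟩
    · exact ⟨y, x - 1, by omega, by omega, by rw [show (x : ℕ) - 1 + 1 = x by omega, e]⟩
  set s : ℕ → Equiv.Perm ι := fun w => Kit2.run θ w * (Kit2.run θ w1)⁻¹ with hs
  have s1 : ∀ b, s w1 b = b := fun b => by simp [hs]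
  have s2 : ∀ b, s (w2 + 1) b = b := fun b => by simp [hs, ← e]
  have s3 : ∀ w b, s (w + 1) b = θ w (s w b) := fun w b => by simp [hs, Kit2.run]
  refine ⟨w1, w2, h12, hw, fun b => ⋃ w ∈ Icc w1 w2, R w (s w b), fun b b' hb => ?_,
    fun b => ⟨?_, ?_, ?_, ?_⟩⟩
  · simp only [onFun, disjoint_iUnion_left, disjoint_iUnion_right]
    intro w hw' w' hw''
    refine h2 _ (by have := hw''.2; omega) _ (by have := hw'.2; omega) _ _ fun c => ?_
    obtain ⟨rfl, c⟩ := Prod.mk.inj c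
    exact hb ((s _).injective c)
  · refine conn_chain (S := fun w => R w (s w b)) h12
      (fun w hw' => (h1 w (by have := hw'.2; omega) _).1) fun w _ hw' => Or.inr ?_
    refine ⟨_, (h1 w (by omega) _).2.2, _, (h1 (w + 1) (by omega) _).2.1, ?_⟩
    rw [s3]
    exact h3 w (by omega) _
  · refine mem_biUnion (left_mem_Icc.2 h12) ?_
    rw [s1]
    exact (h1 w1 (by omega) b).2.1
  · refine mem_biUnion (right_mem_Icc.2 h12) ?_
    have := (h1 w2 hw (s w2 b)).2.2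
    rwa [← s3, s2] at this
  · intro v hv
    obtain ⟨w, hw', hv⟩ := mem_iUnion₂.1 hv
    exact ⟨w, hw'.1, hw'.2, _, hv⟩

end Pool.Agent.MP_9d78a0_co.fb

end MrgPart0

-- ======== part 1: formerly Pool.Agent.MP_9d78a0_co.fb.Kit3
section MrgPart1

/-! Menger's theorem for indexed sources, chains with whole pieces, sub-bands, contracted cells. -/

set_option autoImplicit false

namespace Pool.Agent.MP_9d78a0_co.fb

open Set Function

namespace Kit3

variable {V : Type} {G G' : SimpleGraph V}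

/-- the running products of the permutations -/
def run {ι : Type} (θ : ℕ → Equiv.Perm ι) : ℕ → Equiv.Perm ι
  | 0 => 1
  | w + 1 => θ w * run θ w

theorem agree_symm {Z : Set V} (h : Agree G G' Z) : Agree G' G Z :=
  fun z hz x => (h z hz x).symm

theorem agree_mono {Z Y : Set V} (h : Agree G G' Z) (hY : Y ⊆ Z) : Agree G G' Y :=
  fun z hz x => h z (hY hz) x

theorem agree_conn {Z S : Set V} (h : Agree G G' Z) (hS : S ⊆ Z) (c : Conn G S) : Conn G' S :=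
  ⟨c.1, fun u hu v hv => Link.map (G' := G') id
    (fun a ha _ hb e => Link.single ha hb ((h a (hS ha) _).2 e)) (c.2 u hu v hv)⟩

theorem agree_touch {Z S T : Set V} (h : Agree G G' Z) (hS : S ⊆ Z) (c : Touch G S T) :
    Touch G' S T := by
  obtain ⟨u, hu, v, hv, e⟩ := c
  exact ⟨u, hu, v, hv, (h u (hS hu) v).2 e⟩

theorem real_congr {M : ℕ} {ι : Type} {Y : Set V} {nb nb' : ι → Set V} {π : Ptn M ι}
    (h : Agree G G' Y) (hn : ∀ i, ∀ y ∈ Y, y ∈ nb i → y ∈ nb' i) (r : Real G Y nb π) :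
    Real G' Y nb' π := by
  obtain ⟨X, h1, h2⟩ := r
  refine ⟨X, fun p hp => ⟨(h1 p hp).1, agree_conn h (h1 p hp).1 (h1 p hp).2.1, fun i hi => ?_⟩,
    fun p hp q hq e => ⟨(h2 p hp q hq e).1, fun c =>
      agree_touch h (h1 p hp).1 ((h2 p hp q hq e).2 c)⟩⟩
  obtain ⟨y, hy, hy'⟩ := (h1 p hp).2.2 i hi
  exact ⟨y, hy, hn i y ((h1 p hp).1 hy) hy'⟩

theorem lv_lv {W : Set V} {lev : V → ℕ} {a s' u v : ℕ} (hv : v ≤ s') :
    Lv (Lv W lev a (a + s' + 1)) (fun x => lev x - a) u v = Lv W lev (a + u) (a + v) := by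
  ext x
  simp only [Lv, mem_ofPred_eq]
  constructor
  · rintro ⟨⟨h1, h2, h3⟩, h4, h5⟩
    exact ⟨h1, by omega, by omega⟩
  · rintro ⟨h1, h2, h3⟩
    exact ⟨⟨h1, by omega, by omega⟩, by omega, by omega⟩

theorem roles_iff {n : ℕ} {α : Fin n → V} {ρ : ℕ → ℕ → Set V} {Y : Set V} {t a u v : ℕ}
    (h : Agree G G' Y) (hu : 0 < u) (i : Fin n ⊕ Fin t ⊕ Fin t) {y : V} (hy : y ∈ Y) :
    y ∈ roles G' α (fun i l => ρ i (a + l)) t u v i ↔ y ∈ roles G α ρ t (a + u) (a + v) i := by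
  have k : ∀ x, G'.Adj x y ↔ G.Adj x y := fun x => by
    rw [G'.adj_comm, G.adj_comm]
    exact h y hy x
  rcases i with i | i | i
  · exact k _
  · simp only [roles, mem_ofPred_eq, k, show a + (u - 1) = a + u - 1 by omega]
  · simp only [roles, mem_ofPred_eq, k]

end Kit3

theorem mengerQS (h : MengerS) : MengerQS := by
  classical
  intro V ι _ G U B o hU hx
  obtain ⟨R, hR, hd⟩ := h V G U (range o) B (Nat.card ι) hU fun X hX hc => by
    obtain ⟨S, h1, h2, ⟨b, hb⟩, h3⟩ := hx X hX hc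
    exact ⟨S, h1, h2, ⟨_, hb, b, rfl⟩, h3⟩
  have : ∀ i, ∃ b, o b ∈ R i := fun i => by
    obtain ⟨_, hv, b, rfl⟩ := (hR i).2.2.1
    exact ⟨b, hv⟩
  choose b hb using this
  have inj : Injective b := fun i j e => by
    by_contra c
    exact disjoint_left.1 (hd c) (hb i) (e ▸ hb j)
  let e : Fin (Nat.card ι) ≃ ι := Equiv.ofBijective b (inj.bijective_of_nat_card_le (by simp))
  refine ⟨fun x => R (e.symm x), fun x => ⟨(hR _).1, (hR _).2.1, ?_, (hR _).2.2.2⟩,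
    fun x y hxy => hd fun c => hxy (e.symm.injective c)⟩
  have := hb (e.symm x)
  rwa [show b (e.symm x) = x from e.apply_symm_apply x] at this

theorem chain2S : Chain2S := by
  classical
  intro ι _ r hr V G o n θ R h1 h2 h3
  replace hr : Nat.card (Equiv.Perm ι) < r := by
    let _ : Fintype ι := Fintype.ofFinite ι
    rwa [Nat.card_eq_fintype_card, Fintype.card_perm, ← Nat.card_eq_fintype_card]
  obtain ⟨w1, w2, h12, hw, e⟩ : ∃ w1 w2, w1 ≤ w2 ∧ w2 < r ∧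
      Kit3.run θ w1 = Kit3.run θ (w2 + 1) := by
    have : ¬ Injective fun w : Fin (Nat.card (Equiv.Perm ι) + 1) => Kit3.run θ w := fun c => by
      have := Nat.card_le_card_of_injective _ c
      simp at this
    simp only [Injective, not_forall] at this
    obtain ⟨x, y, e, c⟩ := this
    have hx := x.2
    have hy := y.2
    rcases lt_or_gt_of_ne (fun d => c (Fin.ext d) : x.1 ≠ y.1) with d | d
    · exact ⟨x, y - 1, by omega, by omega, by rwa [show (y : ℕ) - 1 + 1 = y by omega]⟩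
    · exact ⟨y, x - 1, by omega, by omega, by rw [show (x : ℕ) - 1 + 1 = x by omega, e]⟩
  set s : ℕ → Equiv.Perm ι := fun w => Kit3.run θ w * (Kit3.run θ w1)⁻¹ with hs
  have s1 : ∀ b, s w1 b = b := fun b => by simp [hs]
  have s2 : ∀ b, s (w2 + 1) b = b := fun b => by simp [hs, ← e]
  have s3 : ∀ w b, s (w + 1) b = θ w (s w b) := fun w b => by simp [hs, Kit3.run]
  refine ⟨w1, w2, h12, hw, fun b => ⋃ w ∈ Icc w1 w2, R w (s w b), fun b b' hb => ?_,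
    fun b => ⟨?_, ?_, ?_, ?_⟩⟩
  · simp only [onFun, disjoint_iUnion_left, disjoint_iUnion_right]
    intro w hw' w' hw''
    refine h2 _ (by have := hw''.2; omega) _ (by have := hw'.2; omega) _ _ fun c => ?_
    obtain ⟨rfl, c⟩ := Prod.mk.inj c
    exact hb ((s _).injective c)
  · refine conn_chain (S := fun w => R w (s w b)) h12
      (fun w hw' => (h1 w (by have := hw'.2; omega) _).1) fun w _ hw' => Or.inr ?_
    refine ⟨_, (h1 w (by omega) _).2.2, _, (h1 (w + 1) (by omega) _).2.1, ?_⟩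
    rw [s3]
    exact h3 w (by omega) _
  · refine mem_biUnion (left_mem_Icc.2 h12) ?_
    rw [s1]
    exact (h1 w1 (by omega) b).2.1
  · refine mem_biUnion (right_mem_Icc.2 h12) ?_
    have := (h1 w2 hw (s w2 b)).2.2
    rwa [← s3, s2] at this
  · intro v hv
    obtain ⟨w, hw', hv⟩ := mem_iUnion₂.1 hv
    exact ⟨w, hw'.1, hw'.2, _, hv, subset_biUnion_of_mem (u := fun w => R w (s w b)) hw'⟩

theorem subS : SubS := by
  intro V G G' A W lev D ρ s t a s' o t' h hs ht hG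
  have hD : ∀ l ≤ s', D (a + l) ⊆ Lv W lev a (a + s' + 1) := fun l hl v hv => by
    obtain ⟨h1, h2⟩ := (h.ring (a + l) (by omega)).2 v hv
    exact ⟨h1, by omega, by omega⟩
  have hρ : ∀ i < t', ∀ l ≤ s', ρ (o + i) (a + l) ⊆ Lv W lev a (a + s' + 1) := fun i hi l hl =>
    (h.cell _ (by omega) _ (by omega)).2.trans (hD l hl)
  refine ⟨⟨h.dis.mono_left fun v hv => hv.1, ?_, ?_, ?_, fun l hl => ⟨?_, fun v hv => ?_⟩,
    fun i hi l hl => ⟨?_, (h.cell _ (by omega) _ (by omega)).2⟩,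
    fun i hi j hj e l hl => h.rdis _ (by omega) _ (by omega) (by omega) _ (by omega),
    fun i hi l hl => ?_⟩, ?_⟩
  · rintro v ⟨-, h1, h2⟩
    omega
  · intro v hv h1 h2 y e
    obtain ⟨h3, h4, h5⟩ := id hv
    rcases h.nbr v h3 (by omega) (by omega) y ((hG v hv y).1 e) with c | ⟨c1, c2, c3⟩
    · exact Or.inl c
    · exact Or.inr ⟨⟨c1, by omega, by omega⟩, by omega, by omega⟩
  · intro u hu v hv e h1
    obtain ⟨h3, h4, h5⟩ := id hu
    obtain ⟨h6, h7, h8⟩ := id hv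
    rw [show a + (lev v - a) = lev v by omega]
    exact h.up u h3 v h6 ((hG u hu v).1 e) (by omega)
  · exact Kit3.agree_conn hG (hD l hl) (h.ring _ (by omega)).1
  · have := ((h.ring (a + l) (by omega)).2 v hv).2
    exact ⟨hD l hl hv, by omega⟩
  · exact Kit3.agree_conn hG (hρ i hi l hl) (h.cell _ (by omega) _ (by omega)).1
  · exact Kit3.agree_touch hG (hρ i hi l hl.le) (h.rail _ (by omega) (a + l) (by omega))
  · intro n α M hH u v u' v' h1 h2 h3 h4 h5 h6 π hr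
    have sub : ∀ x y, y ≤ s' → Agree G G' (Lv W lev (a + x) (a + y)) := fun x y hy =>
      Kit3.agree_mono hG fun z hz => ⟨hz.1, by have := hz.2.1; omega, by have := hz.2.2; omega⟩
    rw [Kit3.lv_lv h3] at hr
    rw [Kit3.lv_lv h6]
    refine Kit3.real_congr (sub u' v' h6)
      (fun i y hy => (Kit3.roles_iff (ρ := fun i => ρ (o + i)) (sub u' v' h6) h4 i hy).2)
      (hH (a + u) (a + v) (a + u') (a + v') (by omega) (by omega) (by omega) (by omega) (by omega)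
        (by omega) π ?_)
    exact Kit3.real_congr (Kit3.agree_symm (sub u v h3))
      (fun i y hy => (Kit3.roles_iff (ρ := fun i => ρ (o + i)) (sub u v h3) h1 i hy).1) hr

theorem quoS : QuoS := by
  classical
  intro V k t G S Z c r σ τ Q hr hc he hQ hZ
  have uniq : ∀ i < t, ∀ j < t, ∀ x, x ∈ c i → x ∈ c j → i = j := fun i hi j hj x a b => by
    by_contra e
    exact disjoint_left.1 (hc i hi j hj e) a b
  have ex : ∀ x, ∃ y, (∃ i < t, x ∈ c i ∧ y = r i) ∨ ((∀ i < t, x ∉ c i) ∧ y = x) := fun x => by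
    by_cases e : ∃ i < t, x ∈ c i
    · obtain ⟨i, hi, e⟩ := e
      exact ⟨r i, Or.inl ⟨i, hi, e, rfl⟩⟩
    · push Not at e
      exact ⟨x, Or.inr ⟨e, rfl⟩⟩
  choose f hf using ex
  have f1 : ∀ x, x ∈ cellOf c r t (f x) := fun x => by
    rcases hf x with ⟨i, hi, e, e'⟩ | ⟨-, e⟩
    · exact Or.inr ⟨i, hi, e'.symm, e⟩
    · exact Or.inl e.symm
  have f2 : ∀ x, (x ∉ Z ∨ ∃ i < t, r i = x) → f x = x := fun x hx => by
    rcases hf x with ⟨i, hi, e, e'⟩ | ⟨-, e⟩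
    · rcases hx with hx | ⟨j, hj, hx⟩
      · exact absurd ((hr i hi).2 e) hx
      · rw [e', uniq i hi j hj x e (hx ▸ (hr j hj).1), hx]
    · exact e
  have f3 : ∀ p, ∀ x ∈ Q p, f x ∈ {v | v ∈ Q p ∧ (v ∉ Z ∨ ∃ i < t, r i = v)} := fun p x hx => by
    rcases hf x with ⟨i, hi, e, e'⟩ | ⟨e, e'⟩
    · obtain ⟨j, hj, a, b⟩ := hZ p x hx ((hr i hi).2 e)
      obtain rfl := uniq i hi j hj x e a
      exact ⟨e' ▸ b (hr i hi).1, Or.inr ⟨i, hi, e'.symm⟩⟩
    · rw [e']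
      refine ⟨hx, Or.inl fun z => ?_⟩
      obtain ⟨j, hj, a, -⟩ := hZ p x hx z
      exact e j hj a
  refine ⟨fun p => {v | v ∈ Q p ∧ (v ∉ Z ∨ ∃ i < t, r i = v)}, fun p => ?_,
    fun p q e => (hQ.dis e).mono (fun _ h => h.1) fun _ h => h.1⟩
  obtain ⟨h1, h2, h3, h4⟩ := hQ.mem p
  refine ⟨fun v hv => ⟨h1 hv.1, hv.2⟩, ⟨⟨σ p, h3, Or.inl (he p).1⟩, fun u hu v hv => ?_⟩,
    ⟨h3, Or.inl (he p).1⟩, ⟨h4, Or.inl (he p).2⟩⟩
  have := Link.map (G' := cutG G c r t) (T := {v | v ∈ Q p ∧ (v ∉ Z ∨ ∃ i < t, r i = v)}) f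
    (fun a ha b hb e => by
      by_cases d : f a = f b
      · rw [d]
        exact Link.refl _ _ _
      · exact Link.single (f3 p a ha) (f3 p b hb) ⟨d, a, f1 a, b, f1 b, e⟩) (h2.2 u hu.1 v hv.1)
  rwa [f2 u hu.2, f2 v hv.2] at this

end Pool.Agent.MP_9d78a0_co.fb

end MrgPart1

-- ======== part 2: formerly Pool.Agent.MP_9d78a0_co.gm.A1
section MrgPart2

/-! Block A: gluing, renaming, descending, ordering of roots. -/

set_option autoImplicit false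

namespace Pool.Agent.MP_9d78a0_co.gm

open Set Function

theorem uleS : UleS := ⟨fun X _ h => ULe.refl X h, fun _ _ _ _ _ _ => ULe.trans⟩

theorem subS : SubS := fun _ _ _ _ h1 h2 =>
  rle_iff.2 ⟨fun v => {v}, ⟨fun _ hv => singleton_subset_iff.2
    (hv.elim (fun k => k.elim (@h2 _) fun k => Or.inl (Or.inr k)) Or.inr),
    fun v _ => conn_singleton _ v, fun _ _ _ _ e => disjoint_singleton.2 e,
    fun u v e => ⟨u, rfl, v, rfl, h1 e⟩⟩, fun _ => rfl, fun _ => rfl⟩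

theorem conn_cover {V : Type} {G : SimpleGraph V} {A T : Set V} (hT : Conn G T) (h0 : T ⊆ A)
    (h : ∀ z ∈ A, ∃ S ⊆ A, Conn G S ∧ z ∈ S ∧ (S ∩ T).Nonempty) : Conn G A := by
  obtain ⟨x, hx⟩ := hT.1
  have k : ∀ y ∈ A, Link G A x y := fun y hy => by
    obtain ⟨S, a, b, c, z, d, e⟩ := h y hy
    exact ((hT.2 x hx z e).mono h0).trans ((b.2 z d y c).mono a)
  exact ⟨⟨x, h0 hx⟩, fun a ha b hb => (k a ha).symm.trans (k b hb)⟩

theorem gr_iUnion {ι : Type} {X : ι → Pc} {u v : W} (h : (gr (⋃ i, X i)).Adj u v) :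
    ∃ i, (gr (X i)).Adj u v := by
  obtain ⟨e, k | k⟩ := h <;> obtain ⟨i, k⟩ := mem_iUnion.1 k
  exacts [⟨i, e, Or.inl k⟩, ⟨i, e, Or.inr k⟩]

theorem gr_union {X Y : Pc} {u v : W} (h : (gr (X ∪ Y)).Adj u v) :
    (gr X).Adj u v ∨ (gr Y).Adj u v := by
  obtain ⟨e, (k | k) | (k | k)⟩ := h
  exacts [Or.inl ⟨e, Or.inl k⟩, Or.inr ⟨e, Or.inl k⟩, Or.inl ⟨e, Or.inr k⟩, Or.inr ⟨e, Or.inr k⟩]

theorem glueS : GlueS := by
  intro ι μ κ X X' ρ ρ' Z' τ τ' S Y hS hle hρ hτ h1 h2 h3 h4 h5 h6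
  choose B hB b1 b2 using fun i => rle_iff.1 (hle i)
  let D : ι → Set W := fun i => VV (X i) ∪ range (ρ i) ∪ Nm
  have m1 : ∀ i k, ρ i k ∈ D i := fun i k => Or.inl (Or.inr ⟨k, rfl⟩)
  have m2 : ∀ i n, Sum.inr n ∈ D i := fun i n => Or.inr ⟨n, rfl⟩
  have yq : ∀ u ∈ S, ∀ v ∈ S, ∀ x ∈ Y u, x ∈ Y v → u = v := fun u hu v hv x a b => by
    by_contra c
    exact disjoint_left.1 (h6 u hu v hv c) a b
  have k1 : ∀ i, ∀ u ∈ D i, ∀ x ∈ B i u, x ∈ range (ρ' i) → u ∈ S ∧ x ∈ Y u := by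
    rintro i u hu _ hx ⟨k, rfl⟩
    rw [(hB i).eq hu (m1 i k) hx (b1 i k)]
    exact hρ i k
  have k2 : ∀ i, ∀ u ∈ D i, ∀ x ∈ B i u, x ∈ Nm → u = x := by
    rintro i u hu _ hx ⟨n, rfl⟩
    exact (hB i).eq hu (m2 i n) hx (b2 i n)
  have k3 : ∀ i, ∀ u ∈ D i, ∀ v ∈ S, ∀ x ∈ B i u, x ∈ Y v → u = v := by
    intro i u hu v hv x hx hy
    have : x ∈ range (ρ' i) := by
      rcases (hB i).sub u hu hx with (c | c) | c
      exacts [(h5 v hv).2.2.2 i ⟨hy, c⟩, c, absurd c (od_iff.1 ((h5 v hv).2.1 hy))]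
    obtain ⟨a, b⟩ := k1 i u hu x hx this
    exact yq u a v hv x b hy
  have k4 : ∀ i j, ∀ u ∈ D i, ∀ v ∈ D j, ∀ x ∈ B i u, x ∈ B j v → u = v := by
    intro i j u hu v hv x hx hy
    by_cases e : i = j
    · subst e
      exact (hB i).eq hu hv hx hy
    rcases od_or_nm x with o | o
    · have : x ∈ range (ρ' i) ∨ x ∈ range (ρ' j) := by
        rcases (hB i).sub u hu hx with (c | c) | c
        · rcases (hB j).sub v hv hy with (d | d) | d
          exacts [Or.inl (h4 i j e ⟨⟨c, d⟩, o⟩), Or.inr d, absurd d (od_iff.1 o)]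
        exacts [Or.inl c, absurd c (od_iff.1 o)]
      rcases this with c | c
      · obtain ⟨a, b⟩ := k1 i u hu x hx c
        exact (k3 j v hv u a x hy b).symm
      · obtain ⟨a, b⟩ := k1 j v hv x hy c
        exact k3 i u hu v a x hx b
    · exact (k2 i u hu x hx o).trans (k2 j v hv x hy o).symm
  let C : W → Set W := fun v =>
    {x | (∃ i, v ∈ D i ∧ x ∈ B i v) ∨ (v ∈ S ∧ x ∈ Y v) ∨ (v ∈ Nm ∧ x = v)}
  have sb : ∀ i, ∀ v ∈ D i, B i v ⊆ C v := fun i v hv x hx => Or.inl ⟨i, hv, hx⟩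
  have cn : ∀ i, ∀ v ∈ D i, Conn (gr Z') (B i v) := fun i v hv =>
    pl.conn_mono ((hB i).conn v hv) (gr_mono (h3 i))
  refine rle_iff.2 ⟨C, ⟨?_, fun v hv => ?_, fun u _ v _ e => ?_, fun u v e => ?_⟩,
    fun m => Or.inr (Or.inl (hτ m)), fun n => Or.inr (Or.inr ⟨⟨n, rfl⟩, rfl⟩)⟩
  · rintro v - x (⟨i, hv, hx⟩ | ⟨hv, hx⟩ | ⟨hv, rfl⟩)
    · rcases (hB i).sub v hv hx with (c | c) | c
      · exact Or.inl (Or.inl (VV_mono (h3 i) c))
      · obtain ⟨a, b⟩ := k1 i v hv x hx c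
        exact Or.inl ((h5 v a).2.2.1 b)
      · exact Or.inr c
    exacts [Or.inl ((h5 v hv).2.2.1 hx), Or.inr hv]
  · by_cases s : v ∈ S
    · refine conn_cover (h5 v s).1 (fun x hx => Or.inr (Or.inl ⟨s, hx⟩)) ?_
      rintro z (⟨i, hi, hz⟩ | ⟨-, hz⟩ | ⟨c, -⟩)
      · refine ⟨_, sb i v hi, cn i v hi, hz, ?_⟩
        obtain ⟨k, rfl⟩ : v ∈ range (ρ i) := by
          rcases hi with (c | c) | c
          exacts [h1 i ⟨s, c⟩, c, absurd c (od_iff.1 (hS s))]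
        exact ⟨_, b1 i k, (hρ i k).2⟩
      · exact ⟨_, fun x hx => Or.inr (Or.inl ⟨s, hx⟩), (h5 v s).1, hz, z, hz, hz⟩
      · exact absurd c (od_iff.1 (hS s))
    rcases od_or_nm v with o | ⟨n, rfl⟩
    · have vv : ∀ i, v ∈ D i → v ∈ VV (X i) := by
        rintro i ((c | ⟨k, rfl⟩) | c)
        exacts [c, absurd (hρ i k).1 s, absurd c (od_iff.1 o)]
      obtain ⟨i, hi⟩ : ∃ i, v ∈ VV (X i) := by
        rcases hv with (c | ⟨m, rfl⟩) | c
        exacts [mem_iUnion.1 (VV_iUnion X ▸ c), absurd (hτ m).1 s, absurd c (od_iff.1 o)]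
      have hi' : v ∈ D i := Or.inl (Or.inl hi)
      have : C v = B i v := by
        refine subset_antisymm ?_ (sb i v hi')
        rintro z (⟨j, hj, hz⟩ | ⟨c, -⟩ | ⟨c, -⟩)
        · by_cases e : i = j
          exacts [e ▸ hz, absurd (h2 i j e ⟨⟨hi, vv j hj⟩, o⟩) s]
        exacts [absurd c s, absurd c (od_iff.1 o)]
      rw [this]
      exact cn i v hi'
    · have c0 : ({Sum.inr n} : Set W) ⊆ C (Sum.inr n) :=
        singleton_subset_iff.2 (Or.inr (Or.inr ⟨⟨n, rfl⟩, rfl⟩))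
      refine conn_cover (conn_singleton _ (Sum.inr n)) c0 ?_
      rintro z (⟨i, hi, hz⟩ | ⟨c, -⟩ | ⟨-, rfl⟩)
      exacts [⟨_, sb i _ hi, cn i _ hi, hz, _, b2 i n, rfl⟩, absurd c s,
        ⟨_, c0, conn_singleton _ _, rfl, _, rfl, rfl⟩]
  · rw [disjoint_left]
    rintro x (⟨i, a, b⟩ | ⟨a, b⟩ | ⟨a, rfl⟩) (⟨j, c, d⟩ | ⟨c, d⟩ | ⟨c, d⟩)
    exacts [e (k4 i j u a v c x b d), e (k3 i u a v c x b d), e ((k2 i u a x b (d ▸ c)).trans d),
      e (k3 j v c u a x d b).symm, e (yq u a v c x b d), od_iff.1 ((h5 u a).2.1 b) (d ▸ c),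
      e (k2 j v c x d a).symm, od_iff.1 ((h5 v c).2.1 d) a, e d]
  · obtain ⟨i, k⟩ := gr_iUnion e
    obtain ⟨x, hx, y, hy, d⟩ := (hB i).adj u v k
    exact ⟨x, sb i u (Or.inl (Or.inl (gr_mem k))) hx, y,
      sb i v (Or.inl (Or.inl (gr_mem k.symm))) hy, gr_mono (h3 i) d⟩

theorem glue0S : Glue0S := by
  intro ι κ X X' ρ ρ' hle ho hp h1 h2
  have e : ∀ i k, {x | ∃ j m, ρ j m = ρ i k ∧ ρ' j m = x} = {ρ' i k} := fun i k => by
    ext x
    exact ⟨fun ⟨j, m, a, b⟩ => b.symm.trans ((hp _ _ _ _).1 a), fun a => ⟨i, k, rfl, a.symm⟩⟩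
  refine glueS ι _ κ X X' ρ ρ' _ _ _ {v | ∃ i k, ρ i k = v}
    (fun v => {x | ∃ j m, ρ j m = v ∧ ρ' j m = x}) ?_ hle
    (fun i k => ⟨⟨i, k, rfl⟩, i, k, rfl, rfl⟩) (fun x => ⟨⟨_, _, rfl⟩, _, _, rfl, rfl⟩) ?_ ?_
    (subset_iUnion X') (fun i j n x hx => h2 i j n ⟨⟨hx.1.1, Or.inl hx.1.2⟩, hx.2⟩) ?_ ?_
  · rintro _ ⟨i, k, rfl⟩
    exact (ho i k).1
  · rintro i _ ⟨⟨j, k, rfl⟩, c⟩
    by_cases n : i = j
    exacts [by subst n; exact ⟨k, rfl⟩, h1 i j n ⟨⟨c, Or.inr ⟨k, rfl⟩⟩, (ho j k).1⟩]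
  · intro i j n x hx
    obtain ⟨k, rfl⟩ := h1 i j n ⟨⟨hx.1.1, Or.inl hx.1.2⟩, hx.2⟩
    exact ⟨i, k, rfl⟩
  · rintro _ ⟨i, k, rfl⟩
    rw [e]
    refine ⟨conn_singleton _ _, singleton_subset_iff.2 (ho i k).2,
      singleton_subset_iff.2 (Or.inr ⟨⟨i, k⟩, rfl⟩), ?_⟩
    rintro j _ ⟨rfl, c⟩
    by_cases n : j = i
    exacts [by subst n; exact ⟨k, rfl⟩, h2 j i n ⟨⟨c, Or.inr ⟨k, rfl⟩⟩, (ho i k).2⟩]
  · rintro _ ⟨i, k, rfl⟩ _ ⟨j, m, rfl⟩ n
    rw [e, e]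
    exact disjoint_singleton.2 fun c => n ((hp _ _ _ _).2 c)

theorem renS : RenS := by
  rintro ⟨X, l⟩ r h1 h2
  have e : dom (ren r X, l.map r) = r '' dom (X, l) := by
    have : r '' Nm = Nm := by
      ext x
      exact ⟨by rintro ⟨_, ⟨n, rfl⟩, rfl⟩; exact ⟨n, (h2 n).symm⟩,
        by rintro ⟨n, rfl⟩; exact ⟨_, ⟨n, rfl⟩, h2 n⟩⟩
    simp only [dom, VV_ren, image_union, this, List.mem_map]
    rfl
  have m : ∀ u v, (gr X).Adj u v → u ∈ dom (X, l) := fun u v k => Or.inl (Or.inl (gr_mem k))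
  refine ⟨⟨fun v => {r v}, fun v hv => e ▸ singleton_subset_iff.2 ⟨v, hv, rfl⟩,
    fun v _ => conn_singleton _ _, fun u hu v hv n => disjoint_singleton.2 (h1.ne hu hv n),
    fun u v k => ⟨_, rfl, _, rfl, gr_ren.2 ⟨h1.ne (m _ _ k) (m _ _ k.symm) k.ne, u, v, k, rfl, rfl⟩⟩,
    fun n => (h2 n).symm, ?_⟩, fun w => {v | v ∈ dom (X, l) ∧ r v = w}, fun _ _ _ k => k.1, ?_,
    fun u _ v _ n => disjoint_left.2 fun x a b => n (a.2.symm.trans b.2), fun u v k => ?_,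
    fun n => ⟨Or.inr ⟨n, rfl⟩, h2 n⟩, ?_⟩
  · simp only [List.forall₂_map_right_iff, List.forall₂_same]
    exact fun _ _ => rfl
  · rw [e]
    rintro _ ⟨v, hv, rfl⟩
    convert conn_singleton _ v using 1
    ext x
    exact ⟨fun k => h1 k.1 hv k.2, fun k => by obtain rfl : x = v := k; exact ⟨hv, rfl⟩⟩
  · obtain ⟨-, a, b, c, rfl, rfl⟩ := gr_ren.1 k
    exact ⟨a, ⟨m _ _ c, rfl⟩, b, ⟨m _ _ c.symm, rfl⟩, c⟩
  · simp only [List.forall₂_map_left_iff, List.forall₂_same]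
    exact fun x hx => ⟨Or.inl (Or.inr hx), rfl⟩

theorem pushS : PushS := by
  intro ι X X' ρ ρ' π π' h a a' b b' c d
  have e : ∀ (ρ : ι → W) (π : W → W), (∀ n, π (Sum.inr n) = Sum.inr n) →
      π ∘ Sum.elim ρ Sum.inr = Sum.elim (π ∘ ρ) Sum.inr := fun ρ π a => by
    funext x
    cases x
    exacts [rfl, a _]
  have := PLe.push (π := π) (π' := π') h (by rw [Sum.elim_range]; exact b)
    (by rw [Sum.elim_range]; exact b') (by
      rintro (i | i) (j | j) <;> simp only [Sum.elim_inl, Sum.elim_inr, a, a']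
      exacts [c i j, d i j, by rw [eq_comm, d, eq_comm]])
  rwa [e ρ π a, e ρ' π' a'] at this

theorem dnS : DnS := by
  intro ι F F' G G' ρ ρ' J P ix π π' h h' hF ⟨C, hC⟩
  obtain ⟨B, hB, b1, b2⟩ := rle_iff.1 hF
  have dm : ∀ G : Pc, dom (G, []) = VV G ∪ Nm := fun G => by simp [dom]
  obtain ⟨c1, c2, c3, c4, c5, -⟩ := hC
  simp only [dm] at c1 c2 c3
  dsimp only at c2 c4
  let D : Set W := VV F ∪ range ρ ∪ Nm
  have m1 : ∀ i, ρ i ∈ D := fun i => Or.inl (Or.inr ⟨i, rfl⟩)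
  have m2 : ∀ n, Sum.inr n ∈ D := fun n => Or.inr ⟨n, rfl⟩
  have m3 : ∀ n, Sum.inr n ∈ VV G ∪ Nm := fun n => Or.inr ⟨n, rfl⟩
  have ce : ∀ u ∈ VV G ∪ Nm, ∀ v ∈ VV G ∪ Nm, ∀ y ∈ C u, y ∈ C v → u = v := fun u hu v hv y a b => by
    by_contra c
    exact disjoint_left.1 (c3 u hu v hv c) a b
  have nm : ∀ n, π (Sum.inr n) ∈ D ∧ π' (Sum.inr n) ∈ B (π (Sum.inr n)) := fun n => by
    by_cases c : n ∈ J
    · rw [h.new n c, h'.new n c]
      exact ⟨m1 _, b1 _⟩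
    · rw [h.old n c, h'.old n c]
      exact ⟨m2 _, b2 _⟩
  have key : ∀ u ∈ VV G ∪ Nm, ∀ y ∈ C u, (π u ∈ D ∧ π' y ∈ B (π u)) ∨
      (π' y ∉ VV F' ∪ range ρ' ∪ Nm ∧ ∀ y' ∈ VV G' ∩ Od, π' y' = π' y → y' = y) := by
    intro u hu y hy
    rcases od_or_nm y with o | ⟨n, rfl⟩
    · have hy' : y ∈ VV G' := (c1 u hu hy).resolve_right (od_iff.1 o)
      rcases h'.ord y ⟨hy', o⟩ with ⟨j, hj, k⟩ | k
      · obtain ⟨hJ, w, w1, w2⟩ := h.pend j hj
        obtain ⟨-, w', w3, w4⟩ := h'.pend j hj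
        obtain rfl := (w4 y).1 k
        have a : π u = ρ (ix j) := by
          by_cases e : u = Sum.inr j
          · rw [e, h.new j hJ]
          · have wa := (w2 w).2 rfl
            obtain ⟨x, hx, z, hz, d⟩ := c4 _ _ wa
            have ny : y ∉ C (Sum.inr j) := fun c => e (ce u hu _ (m3 j) y hy c)
            have : x = Sum.inr j := by
              have l := (c2 _ (m3 j)).2 _ (c5 j) x hx
              rcases Relation.ReflTransGen.cases_head l with l | ⟨t, l, -⟩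
              exacts [l.symm, absurd ((w4 t).1 l.2.2 ▸ l.2.1) ny]
            subst this
            obtain rfl := (w4 z).1 d
            rw [ce u hu w (Or.inl (gr_mem wa.symm)) z hy hz, w1]
        rw [a, w3]
        exact Or.inl ⟨m1 _, b1 _⟩
      · exact Or.inr ⟨fun c => c.elim k.1.2 (od_iff.1 k.1.1), k.2⟩
    · rw [ce u hu _ (m3 n) _ hy (c5 n)]
      exact Or.inl (nm n)
  have k1 : ∀ u ∈ VV G ∪ Nm, ∀ y ∈ C u, ∀ a ∈ D, π' y ∈ B a → π u = a := by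
    intro u hu y hy a ha c
    rcases key u hu y hy with k | k
    exacts [hB.eq k.1 ha k.2 c, absurd (hB.sub a ha c) k.1]
  have k2 : ∀ u ∈ VV G ∪ Nm, ∀ v ∈ VV G ∪ Nm, ∀ y ∈ C u, ∀ z ∈ C v, π' y = π' z → π u = π v := by
    intro u hu v hv y hy z hz e
    rcases key u hu y hy with k | k
    · exact (k1 v hv z hz _ k.1 (e ▸ k.2)).symm
    rcases od_or_nm z with o | ⟨n, rfl⟩
    · obtain rfl := k.2 z ⟨(c1 v hv hz).resolve_right (od_iff.1 o), o⟩ e.symm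
      rw [ce u hu v hv z hy hz]
    · exact absurd (e ▸ hB.sub _ (nm n).1 (nm n).2) k.1
  let E : W → Set W := fun x =>
    {z | (x ∈ D ∧ z ∈ B x) ∨ ∃ u ∈ VV G ∪ Nm, π u = x ∧ z ∈ π' '' C u}
  have g1 := gr_mono (subset_union_left (s := F') (t := ren π' G'))
  have g2 := gr_mono (subset_union_right (s := F') (t := ren π' G'))
  have cn : ∀ u ∈ VV G ∪ Nm, Conn (gr (F' ∪ ren π' G')) (π' '' C u) := fun u hu =>
    pl.conn_mono (conn_ren π' (c2 u hu)) g2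
  have sb : ∀ u ∈ VV G ∪ Nm, π' '' C u ⊆ E (π u) := fun u hu z hz => Or.inr ⟨u, hu, rfl, hz⟩
  have tie : ∀ u ∈ VV G ∪ Nm, (π u ∈ D ∧ ∃ S ⊆ E (π u), Conn (gr (F' ∪ ren π' G')) S ∧
      π' '' C u ⊆ S ∧ (S ∩ B (π u)).Nonempty) ∨
      (π u ∉ D ∧ ∀ v ∈ VV G ∪ Nm, π v = π u → v = u) := by
    intro u hu
    rcases od_or_nm u with o | ⟨n, rfl⟩
    · rcases h.ord u ⟨hu.resolve_right (od_iff.1 o), o⟩ with ⟨j, hj, k⟩ | k
      · obtain ⟨hJ, w, w1, w2⟩ := h.pend j hj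
        obtain rfl := (w2 u).1 k
        have e : π (Sum.inr j) = π u := (h.new j hJ).trans w1.symm
        refine Or.inl ⟨e ▸ (nm j).1, π' '' (C (Sum.inr j) ∪ C u), ?_, ?_,
          image_mono subset_union_right, _, ⟨_, Or.inl (c5 j), rfl⟩, e ▸ (nm j).2⟩
        · rw [image_union]
          exact union_subset (e ▸ sb _ (m3 j)) (sb u hu)
        · refine pl.conn_mono (conn_ren π' ?_) g2
          obtain ⟨x, hx, z, hz, d⟩ := c4 _ _ k
          refine conn_cover (c2 u hu) subset_union_right ?_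
          rintro t (ht | ht)
          · exact ⟨insert z (C (Sum.inr j)), insert_subset (Or.inr hz) subset_union_left,
              (c2 _ (m3 j)).insert hx d.symm, Or.inr ht, z, Or.inl rfl, hz⟩
          · exact ⟨_, subset_union_right, c2 u hu, ht, t, ht, ht⟩
      · have n : π u ∉ D := fun c => c.elim k.1.2 (od_iff.1 k.1.1)
        refine Or.inr ⟨n, fun v hv e => ?_⟩
        rcases od_or_nm v with o' | ⟨m, rfl⟩
        exacts [k.2 v ⟨hv.resolve_right (od_iff.1 o'), o'⟩ e, absurd (e ▸ (nm m).1) n]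
    · exact Or.inl ⟨(nm n).1, _, sb _ hu, cn _ hu, subset_rfl, _, ⟨_, c5 n, rfl⟩, (nm n).2⟩
  have dis : ∀ x x', x ≠ x' → Disjoint (E x) (E x') := fun x x' e => by
    rw [disjoint_left]
    rintro z (⟨a, b⟩ | ⟨u, hu, rfl, y, hy, rfl⟩) (⟨c, d⟩ | ⟨v, hv, rfl, y', hy', d⟩)
    exacts [e (hB.eq a c b d), e (k1 v hv y' hy' x a (d ▸ b)).symm, e (k1 u hu y hy x' c d),
      e (k2 u hu v hv y hy y' hy' d.symm)]
  refine rle_iff.2 ⟨E, ⟨?_, fun x hx => ?_, fun x _ x' _ => dis x x', fun x x' e => ?_⟩,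
    fun i => Or.inl ⟨m1 i, b1 i⟩, fun n => Or.inl ⟨m2 n, b2 n⟩⟩
  · have s : VV F' ∪ range ρ' ∪ Nm ⊆ VV (F' ∪ ren π' G') ∪ range ρ' ∪ Nm :=
      union_subset_union_left _ (union_subset_union_left _ (VV_mono subset_union_left))
    rintro x - z (⟨a, b⟩ | ⟨u, hu, rfl, y, hy, rfl⟩)
    · exact s (hB.sub x a b)
    · rcases c1 u hu hy with c | ⟨n, rfl⟩
      · exact Or.inl (Or.inl (VV_mono subset_union_right (VV_ren π' G' ▸ ⟨y, c, rfl⟩)))
      · exact s (hB.sub _ (nm n).1 (nm n).2)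
  · by_cases c : x ∈ D
    · have cb := pl.conn_mono (hB.conn x c) g1
      refine conn_cover cb (fun z hz => Or.inl ⟨c, hz⟩) ?_
      rintro z (⟨-, hz⟩ | ⟨u, hu, rfl, hz⟩)
      · exact ⟨_, fun z hz => Or.inl ⟨c, hz⟩, cb, hz, z, hz, hz⟩
      · rcases tie u hu with ⟨-, S, s1, s2, s3, s4⟩ | k
        exacts [⟨S, s1, s2, s3 hz, s4⟩, absurd c k.1]
    · obtain ⟨u, hu, rfl⟩ : x ∈ π '' VV G := by
        rw [VV_union, VV_ren] at hx
        rcases hx with ((k | k) | k) | k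
        exacts [absurd (Or.inl (Or.inl k)) c, k, absurd (Or.inl (Or.inr k)) c, absurd (Or.inr k) c]
      have : E (π u) = π' '' C u := by
        refine subset_antisymm ?_ (sb u (Or.inl hu))
        rintro z (⟨k, -⟩ | ⟨v, hv, e, hz⟩)
        · exact absurd k c
        · exact ((tie u (Or.inl hu)).resolve_left fun k => c k.1).2 v hv e ▸ hz
      rw [this]
      exact cn u (Or.inl hu)
  · rcases gr_union e with k | k
    · obtain ⟨y, hy, z, hz, d⟩ := hB.adj _ _ k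
      exact ⟨y, Or.inl ⟨Or.inl (Or.inl (gr_mem k)), hy⟩, z,
        Or.inl ⟨Or.inl (Or.inl (gr_mem k.symm)), hz⟩, g1 d⟩
    · obtain ⟨n, u, v, k', rfl, rfl⟩ := gr_ren.1 k
      clear k
      have k := k'
      obtain ⟨y, hy, z, hz, d⟩ := c4 _ _ k
      have hu : u ∈ VV G ∪ Nm := Or.inl (gr_mem k)
      have hv : v ∈ VV G ∪ Nm := Or.inl (gr_mem k.symm)
      exact ⟨_, sb u hu ⟨y, hy, rfl⟩, _, sb v hv ⟨z, hz, rfl⟩,
        g2 (gr_ren.2 ⟨fun c => n (k2 u hu v hv y hy z hz c), y, z, d, rfl, rfl⟩)⟩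

/-- roots are repeated and new isolated roots are added in the same pattern -/
theorem RLe.pattern {ι κ : Type} {X X' : Pc} {ρ ρ' : ι → W} (h : RLe X ρ X' ρ') {l l' : κ → W}
    (h1 : ∀ k, (∃ i, l k = ρ i ∧ l' k = ρ' i) ∨
      (l k ∉ VV X ∪ range ρ ∪ Nm ∧ l' k ∉ VV X' ∪ range ρ' ∪ Nm))
    (h2 : ∀ j k, l j = l k ↔ l' j = l' k) (h3 : range ρ' ⊆ VV X' ∪ range l' ∪ Nm) :
    RLe X l X' l' := by
  classical
  let J := {k // ¬ ∃ i, l k = ρ i ∧ l' k = ρ' i}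
  have a := PLe.fresh (κ := J) h (τ := fun j => l j.1) (τ' := fun j => l' j.1)
    (fun j => by rw [range_nm]; exact ((h1 j.1).resolve_left j.2).1)
    (fun j => by rw [range_nm]; exact ((h1 j.1).resolve_left j.2).2) fun j k => h2 j.1 k.1
  let φ : κ ⊕ ℕ → (ι ⊕ ℕ) ⊕ J := Sum.elim
    (fun k => if c : ∃ i, l k = ρ i ∧ l' k = ρ' i then Sum.inl (Sum.inl c.choose) else Sum.inr ⟨k, c⟩)
    fun n => Sum.inl (Sum.inr n)
  have e1 : Sum.elim (Sum.elim ρ Sum.inr) (fun j : J => l j.1) ∘ φ = Sum.elim l Sum.inr := by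
    funext x
    rcases x with k | n
    · by_cases c : ∃ i, l k = ρ i ∧ l' k = ρ' i
      · simp only [φ, comp_apply, Sum.elim_inl, dif_pos c]
        exact c.choose_spec.1.symm
      · simp only [φ, comp_apply, Sum.elim_inl, dif_neg c, Sum.elim_inr]
    · rfl
  have e2 : Sum.elim (Sum.elim ρ' Sum.inr) (fun j : J => l' j.1) ∘ φ = Sum.elim l' Sum.inr := by
    funext x
    rcases x with k | n
    · by_cases c : ∃ i, l k = ρ i ∧ l' k = ρ' i
      · simp only [φ, comp_apply, Sum.elim_inl, dif_pos c]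
        exact c.choose_spec.2.symm
      · simp only [φ, comp_apply, Sum.elim_inl, dif_neg c, Sum.elim_inr]
    · rfl
  have b := a.comp φ (by
    rw [e2, range_nm]
    rintro ((i | n) | j) -
    exacts [h3 ⟨i, rfl⟩, Or.inr ⟨n, rfl⟩, Or.inl (Or.inr ⟨j.1, rfl⟩)])
  rwa [e1, e2] at b

/-- from sets of roots to lists of given length, with repetitions and isolated roots -/
theorem pwo_roots {S : Set (Pc × Set W)} (hf : ∀ x ∈ S, x.2.Finite)
    (h : S.PartiallyWellOrderedOn fun x y => ULe x.1 x.2 y.1 y.2) (n : ℕ) :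
    Pwo {l | l.2.length = n ∧ ∃ x ∈ S, l.1 = x.1 ∧ x.2 ⊆ {v | v ∈ l.2} ∧
      ∀ v ∈ l.2, v ∈ x.2 ∨ (v ∈ Od ∧ v ∉ VV x.1)} := by
  refine partiallyWellOrderedOn_iff_exists_lt.2 fun f hf' => ?_
  choose x a1 a2 a3 a4 using fun i => (hf' i).2
  choose l hl using fun i => exists_ofFn (hf' i).1
  let r : Pc × Set W → Pc × Set W → Prop := fun x y => x = y ∨ ULe x.1 x.2 y.1 y.2
  have : IsPreorder (Pc × Set W) r :=
    { refl := fun _ => Or.inl rfl
      trans := by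
        rintro a b c (rfl | k) (rfl | k')
        exacts [Or.inl rfl, Or.inr k', Or.inr k, Or.inr (k.trans k')] }
  have h' : S.PartiallyWellOrderedOn r := partiallyWellOrderedOn_iff_exists_lt.2 fun f hf =>
    let ⟨m, n, a, b⟩ := h.exists_lt hf; ⟨m, n, a, Or.inr b⟩
  obtain ⟨g, hg⟩ := h'.exists_monotone_subseq a1
  obtain ⟨ρ, b1, b2, b3⟩ := chain_roots (fun i => (x (g i)).1) (fun i => (x (g i)).2) fun i =>
    (hg i (i + 1) (by omega)).elim (fun e => e ▸ ULe.refl _ (hf _ (a1 _))) id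
  have : Finite (x (g 0)).2 := (hf _ (a1 _)).to_subtype
  obtain ⟨i, -, j, -, c1, c2, -⟩ := pl.pigeon infinite_univ
    (fun i => ((fun k m => l (g i) k = ρ i m), fun k m => l (g i) k = l (g i) m)) (fun _ => 0)
    fun _ => le_rfl
  obtain ⟨c3, c4⟩ := Prod.mk.inj c2
  have e : ∀ i, f i = ((x i).1, List.ofFn (l i)) := fun i => Prod.ext (a2 i) (hl i)
  have m : ∀ i k, l (g i) k ∈ range (ρ i) ∨
      l (g i) k ∉ VV (x (g i)).1 ∪ range (ρ i) ∪ Nm := fun i k => by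
    by_cases c : l (g i) k ∈ range (ρ i)
    · exact Or.inl c
    · have := (a4 (g i) (l (g i) k) (by rw [hl]; simp)).resolve_left (b1 i ▸ c)
      exact Or.inr fun d => d.elim (fun d => d.elim this.2 c) (od_iff.1 this.1)
  refine ⟨g i, g j, g.strictMono c1, ?_⟩
  rw [e, e]
  refine le_ofFn.2 ((b3 i j c1).pattern (fun k => ?_)
    (fun k m => (congrFun (congrFun c4 k) m).to_iff) ?_)
  · rcases m i k with ⟨t, ht⟩ | c
    · exact Or.inl ⟨t, ht.symm, (congrFun (congrFun c3 k) t).mp ht.symm⟩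
    rcases m j k with ⟨t, ht⟩ | d
    · exact absurd (Or.inl (Or.inr ⟨t, ((congrFun (congrFun c3 k) t).mpr ht.symm).symm⟩)) c
    · exact Or.inr ⟨c, d⟩
  · rw [b1]
    exact fun v hv => Or.inl (Or.inr (set_ofFn (l (g j)) ▸ hl (g j) ▸ a3 (g j) hv))

theorem pwo_le {A : ℕ → Set Lab} (h : ∀ n, Pwo (A n)) (k : ℕ) : Pwo (⋃ n ≤ k, A n) := by
  induction k with
  | zero => simpa using h 0
  | succ k ih => rw [biUnion_le_succ]; exact ih.union (h _)

theorem ordS : OrdS := fun _ k h1 h2 =>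
  (pwo_le (pwo_roots (fun x hx => (h1 x hx).1) h2) k).mono fun _ ⟨x, a, b, c⟩ =>
    mem_biUnion (c.length.trans_le (h1 x a).2)
      ⟨rfl, x, a, b, c.2.ge, fun _ hv => Or.inl (c.2.le hv)⟩

end Pool.Agent.MP_9d78a0_co.gm

end MrgPart2

-- ======== part 3: formerly Pool.Agent.MP_9d78a0_co.gm.A2
section MrgPart3

/-! Block A: uncrossing, linkages, robust and solid pieces. -/

set_option autoImplicit false

namespace Pool.Agent.MP_9d78a0_co.gm

open Set Function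

namespace AG

variable (σ : AG)

/-- the pairs of the atoms, with their atoms -/
def Rf : Type := {x : σ.ε × (W × W) // x.2 ∈ σ.pc x.1}

instance : Finite σ.Rf :=
  Finite.to_subtype (s := {x : σ.ε × (W × W) | x.2 ∈ σ.pc x.1})
    ((finite_iUnion fun a => (σ.pfin a).image (Prod.mk a)).subset fun x hx =>
      mem_iUnion.2 ⟨x.1, x.2, hx, rfl⟩)

/-- the ordinary ends of a pair -/
def rinc (x : σ.Rf) : Set W := VV {x.1.2} ∩ Od

/-- the pairs chosen by a family of pieces -/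
def rs (U : σ.ε → Pc) : Set σ.Rf := {x | x.1.2 ∈ U x.1.1}

/-- the pairs of a set of atoms -/
def fib (S : Set σ.ε) : Set σ.Rf := {x | x.1.1 ∈ S}

variable {σ}

theorem hv_rs {U : σ.ε → Pc} (h : ∀ a, U a ⊆ σ.pc a) :
    hv σ.rinc (σ.rs U) = Od ∩ ⋃ a, VV (U a) := by
  ext v
  constructor
  · rintro ⟨x, hx, ⟨_, rfl, k⟩, o⟩
    exact ⟨o, mem_iUnion.2 ⟨_, _, hx, k⟩⟩
  · rintro ⟨o, k⟩
    obtain ⟨a, p, hp, k⟩ := mem_iUnion.1 k
    exact ⟨⟨(a, p), h a hp⟩, hp, ⟨_, rfl, k⟩, o⟩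

theorem rs_compl (U : σ.ε → Pc) : (σ.rs U)ᶜ = σ.rs fun a => σ.pc a \ U a := by
  ext x
  exact ⟨fun k => ⟨x.2, k⟩, fun k => k.2⟩

theorem hbd_rs {U : σ.ε → Pc} (h : ∀ a, U a ⊆ σ.pc a) :
    hbd σ.rinc (σ.rs U) = Od ∩ (⋃ a, VV (U a)) ∩ ⋃ a, VV (σ.pc a \ U a) := by
  rw [hbd_eq, rs_compl, hv_rs h, hv_rs fun _ => sdiff_subset, ← inter_inter_distrib_left,
    inter_assoc]

theorem hv_fib (S : Set σ.ε) : hv σ.rinc (σ.fib S) = hv σ.inc S := by
  ext v
  exact ⟨fun ⟨x, hx, ⟨_, e, k⟩, o⟩ => ⟨_, hx, ⟨_, e ▸ x.2, k⟩, o⟩,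
    fun ⟨a, ha, ⟨p, hp, k⟩, o⟩ => ⟨⟨(a, p), hp⟩, ha, ⟨_, rfl, k⟩, o⟩⟩

theorem hbd_fib (S : Set σ.ε) : hbd σ.rinc (σ.fib S) = σ.bd S := by
  rw [hbd_eq, show (σ.fib S)ᶜ = σ.fib Sᶜ from rfl, hv_fib, hv_fib]
  rfl

theorem rinc_fin (x : σ.Rf) : (σ.rinc x).Finite := (VV_finite (finite_singleton _)).inter_of_left _

/-- a part of a union of atoms, seen among the pairs -/
theorem hbd_part {C : Set σ.ε} (U : Pc) :
    hbd σ.rinc (σ.fib C ∩ {x | x.1.2 ∈ U}) = rb (σ.un C) (σ.bd C) (σ.un C ∩ U) := by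
  ext v
  constructor
  · rintro ⟨⟨x, hx, ⟨_, rfl, k⟩, o⟩, y, hy, ⟨_, rfl, l⟩, -⟩
    have a : x.1.2 ∈ σ.un C := mem_biUnion hx.1 x.2
    refine ⟨o, ⟨_, ⟨a, hx.2⟩, k⟩, ?_⟩
    by_cases c : y.1.1 ∈ C
    · exact Or.inr ⟨_, ⟨mem_biUnion c y.2, fun d => hy ⟨c, d.2⟩⟩, l⟩
    · exact Or.inl ⟨⟨_, hx.1, ⟨_, x.2, k⟩, o⟩, _, c, ⟨_, y.2, l⟩, o⟩
  · rintro ⟨o, ⟨p, hp, k⟩, l⟩
    obtain ⟨a, ha, hp'⟩ := mem_iUnion₂.1 hp.1
    refine ⟨⟨⟨(a, p), hp'⟩, ⟨ha, hp.2⟩, ⟨_, rfl, k⟩, o⟩, ?_⟩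
    rcases l with ⟨-, b, hb, ⟨q, hq, l⟩, -⟩ | ⟨q, hq, l⟩
    · exact ⟨⟨(b, q), hq⟩, fun d => hb d.1, ⟨_, rfl, l⟩, o⟩
    · obtain ⟨b, -, hq'⟩ := mem_iUnion₂.1 hq.1
      exact ⟨⟨(b, q), hq'⟩, fun d => hq.2 ⟨hq.1, d.2⟩, ⟨_, rfl, l⟩, o⟩

theorem un_single (a : σ.ε) : σ.un {a} = σ.pc a := by simp [un]

theorem arob_fib {a : σ.ε} (h : Robust (σ.pc a) (σ.bd {a})) : ARob (hf σ.rinc) (σ.fib {a}) := by
  intro U hU
  let U' : Pc := (fun x : σ.Rf => x.1.2) '' U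
  have m : ∀ x ∈ σ.fib {a}, x.1.2 ∈ U' → x ∈ U := by
    rintro x hx ⟨y, hy, e⟩
    have : y = x := Subtype.ext (Prod.ext ((hU hy).trans hx.symm) e)
    exact this ▸ hy
  have e1 : U = σ.fib {a} ∩ {x | x.1.2 ∈ U'} :=
    subset_antisymm (fun x hx => ⟨hU hx, x, hx, rfl⟩) fun x hx => m x hx.1 hx.2
  have e2 : σ.fib {a} \ U = σ.fib {a} ∩ {x | x.1.2 ∈ U'ᶜ} :=
    subset_antisymm (fun x hx => ⟨hx.1, fun c => hx.2 (m x hx.1 c)⟩)
      fun x hx => ⟨hx.1, fun c => hx.2 ⟨x, c, rfl⟩⟩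
  have := h (σ.pc a ∩ U') inter_subset_left
  rw [e2, e1, hf, hf, hf, hbd_fib, hbd_part, hbd_part, un_single]
  rwa [sdiff_self_inter] at this

/-- rounding of two disjoint sets of pairs that cover the atoms of `Q` -/
theorem round {P Q : Set σ.ε} (h0 : P ⊆ Q) (h : ∀ a ∈ Q \ P, Robust (σ.pc a) (σ.bd {a}))
    {U : Set σ.Rf} (h1 : σ.fib P ⊆ U) (h2 : U ⊆ σ.fib Q) :
    ∃ S, P ⊆ S ∧ S ⊆ Q ∧ σ.f S ≤ hf σ.rinc U ∧ σ.f (Q \ S) ≤ hf σ.rinc (σ.fib Q \ U) := by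
  obtain ⟨R, R', a1, a2, a3, a4, a5, a6⟩ := unc2 (hf_sym σ.rinc_fin).toSubm
    (M := (fun a => σ.fib {a}) '' (Q \ P)) (toFinite _) (by
      rintro _ ⟨a, -, rfl⟩ _ ⟨b, -, rfl⟩ n
      exact disjoint_left.2 fun x c d => n (by rw [show a = b from c.symm.trans d]))
    (by rintro _ ⟨a, ha, rfl⟩; exact arob_fib (h a ha)) (S := U) (S' := σ.fib Q \ U)
    disjoint_sdiff_right (by
      rintro _ ⟨a, ha, rfl⟩ x hx
      rw [union_sdiff_cancel h2]
      obtain rfl : x.1.1 = a := hx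
      exact ha.1)
  rw [union_sdiff_cancel h2] at a2
  have e : σ.fib (P ∪ {a | a ∈ Q ∧ σ.fib {a} ⊆ R}) = R := by
    ext x
    have o : x.1.1 ∈ P → x ∈ R := fun c => (a6 x (by
      rintro _ ⟨a, ha, rfl⟩ d
      exact ha.2 ((show x.1.1 = a from d) ▸ c))).1.2 (h1 c)
    refine ⟨fun c => c.elim o fun c => c.2 rfl, fun c => ?_⟩
    have q : x.1.1 ∈ Q := (a2 ▸ Or.inl c : x ∈ σ.fib Q)
    by_cases d : x.1.1 ∈ P
    · exact Or.inl d
    · exact Or.inr ⟨q, (a5 _ ⟨_, ⟨q, d⟩, rfl⟩).1.resolve_right fun k =>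
        disjoint_left.1 a1 c (k rfl)⟩
  refine ⟨P ∪ {a | a ∈ Q ∧ σ.fib {a} ⊆ R}, subset_union_left, union_subset h0 fun _ c => c.1, ?_, ?_⟩
  · rwa [f, hf, ← bd, ← hbd_fib, e]
  · have e' : σ.fib Q \ R = R' := by
      rw [← a2, union_sdiff_cancel_left (disjoint_iff_inter_eq_empty.1 a1).le]
    rw [f, hf, ← bd, ← hbd_fib, show ∀ S, σ.fib (Q \ S) = σ.fib Q \ σ.fib S from fun _ => rfl, e,
      e']
    exact a4

theorem bd_fin (U : Set σ.ε) : (σ.bd U).Finite := hbd_fin σ.inc_fin U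

theorem vs_fin (U : Set σ.ε) : (σ.vs U).Finite := σ.vs_eq U ▸ hv_fin σ.inc_fin U

theorem un_fin (U : Set σ.ε) : (σ.un U).Finite := (toFinite U).biUnion fun a _ => σ.pfin a

theorem un_mono {U U' : Set σ.ε} (h : U ⊆ U') : σ.un U ⊆ σ.un U' := biUnion_subset_biUnion_left h

theorem vs_mono {U U' : Set σ.ε} (h : U ⊆ U') : σ.vs U ⊆ σ.vs U' := biUnion_subset_biUnion_left h

theorem un_union (U U' : Set σ.ε) : σ.un (U ∪ U') = σ.un U ∪ σ.un U' := biUnion_union _ _ _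

theorem vs_union (U U' : Set σ.ε) : σ.vs (U ∪ U') = σ.vs U ∪ σ.vs U' := biUnion_union _ _ _

theorem bd_eq (U : Set σ.ε) : σ.bd U = σ.vs U ∩ σ.vs Uᶜ := by
  rw [vs_eq, vs_eq]
  rfl

theorem vs_od (U : Set σ.ε) : σ.vs U ⊆ Od := σ.vs_un U ▸ inter_subset_right

theorem vs_VV (U : Set σ.ε) : σ.vs U ⊆ VV (σ.un U) := σ.vs_un U ▸ inter_subset_left

theorem bd_vs (U : Set σ.ε) : σ.bd U ⊆ σ.vs U := σ.bd_eq U ▸ inter_subset_left

end AG

theorem uncS : UncS := by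
  intro σ P Q U h0 h h1 h2 h3
  obtain ⟨S, a, b, c, -⟩ := AG.round h0 h (U := σ.rs U) (fun x hx => (h2 _ hx).ge x.2)
    fun x hx => not_not.1 fun k => (h3 _ k).le hx
  exact ⟨S, a, b, by rwa [hf, AG.hbd_rs h1] at c⟩

theorem robUnS : RobUnS := by
  intro σ C h h1 U hU
  obtain ⟨S, -, b, c, d⟩ := AG.round (empty_subset C) (fun a _ => h a)
    (U := σ.fib C ∩ {x | x.1.2 ∈ U}) (fun _ k => k.elim) inter_subset_left
  rw [sdiff_self_inter, show σ.fib C \ {x | x.1.2 ∈ U} = σ.fib C ∩ {x | x.1.2 ∈ Uᶜ} from rfl,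
    hf, AG.hbd_part] at d
  rw [hf, AG.hbd_part, inter_eq_self_of_subset_right hU] at c
  exact (h1 S b).imp (fun k => k.trans c) fun k => k.trans d

theorem AG.cut {σ : AG} {P Q : Set σ.ε} {k : ℕ} (h0 : P ⊆ Q)
    (h : ∀ a ∈ Q \ P, Robust (σ.pc a) (σ.bd {a})) (h1 : ∀ U, P ⊆ U → U ⊆ Q → k ≤ σ.f U) :
    ∀ Z ⊆ σ.bd P ∪ σ.vs (Q \ P), Z.ncard < k → ∃ S ⊆ (σ.bd P ∪ σ.vs (Q \ P)) \ Z,
      Conn (gr (σ.un (Q \ P))) S ∧ (S ∩ σ.bd P).Nonempty ∧ (S ∩ σ.bd Q).Nonempty := by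
  intro Z hZ hk
  by_contra hn
  let D := (σ.bd P ∪ σ.vs (Q \ P)) \ Z
  let A : Set W := {v | ∃ a ∈ σ.bd P \ Z, Link (gr (σ.un (Q \ P))) D a v}
  have a1 : ∀ v ∈ A, v ∉ σ.bd Q := by
    rintro v ⟨a, ha, l⟩ c
    have m : a ∈ D := ⟨Or.inl ha.1, ha.2⟩
    refine hn ⟨{w | Link (gr (σ.un (Q \ P))) D a w}, fun w hw => hw.mem m, ?_,
      ⟨a, Link.refl _ _ _, ha.1⟩, v, l, c⟩
    have k : ∀ w, Link (gr (σ.un (Q \ P))) D a w →
        Link (gr (σ.un (Q \ P))) {w | Link (gr (σ.un (Q \ P))) D a w} a w := fun w hw => by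
      induction hw with
      | refl => exact Link.refl _ _ _
      | tail p q ih => exact ih.trans (Link.single p (p.tail q) q.2.2)
    exact ⟨⟨a, Link.refl _ _ _⟩, fun x hx y hy => (k x hx).symm.trans (k y hy)⟩
  obtain ⟨S, b1, b2, b3, -⟩ := AG.round h0 h
    (U := σ.fib P ∪ {x | x ∈ σ.fib (Q \ P) ∧ (VV {x.1.2} ∩ A).Nonempty}) subset_union_left
    (union_subset (fun _ c => h0 c) fun _ c => c.1.1)
  refine absurd ((h1 S b1 b2).trans (b3.trans (ncard_le_ncard ?_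
    (((σ.bd_fin P).union (σ.vs_fin _)).subset hZ)))) (not_le.2 hk)
  rintro v ⟨⟨x, hx, hv⟩, y, hy, hv'⟩
  by_contra c
  have ix : ∀ x : σ.Rf, v ∈ σ.rinc x → v ∈ σ.inc x.1.1 := fun x k =>
    ⟨VV_mono (singleton_subset_iff.2 x.2) k.1, k.2⟩
  have a : v ∈ A := by
    rcases hx with hx | ⟨hx, w, hw, a, ha, l⟩
    · exact ⟨v, ⟨⟨⟨_, hx, ix x hv⟩, _, fun d => hy (Or.inl d), ix y hv'⟩, c⟩, Link.refl _ _ _⟩
    · refine ⟨a, ha, ?_⟩
      by_cases e : w = v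
      · exact e ▸ l
      refine l.trans (Link.single (l.mem ⟨Or.inl ha.1, ha.2⟩)
        ⟨Or.inr (mem_biUnion hx (ix x hv)), c⟩ ⟨e, ?_⟩)
      have m : x.1.2 ∈ σ.un (Q \ P) := mem_biUnion hx x.2
      obtain ⟨_, rfl, rfl | rfl⟩ := hw <;> obtain ⟨⟨_, rfl, k | k⟩, -⟩ := hv
      exacts [absurd k.symm e, Or.inl (k ▸ m), Or.inr (k ▸ m), absurd k.symm e]
  refine a1 v a ⟨⟨_, hx.elim (fun d => h0 d) fun d => d.1.1, ix x hv⟩, _, fun d => ?_, ix y hv'⟩
  exact hy (Or.inr ⟨⟨d, fun e => hy (Or.inl e)⟩, v, hv'.1, a⟩)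

theorem linkKS : LinkKS := fun σ P _ k h0 h h1 =>
  let ⟨R, a, b⟩ := fb.mengerS W _ _ _ _ k ((σ.bd_fin P).union (σ.vs_fin _)) (AG.cut h0 h h1)
  ⟨R, b, a⟩

theorem linkVS : LinkVS := by
  classical
  intro σ P Q h0 h h1
  have : Finite (σ.bd P) := (σ.bd_fin P).to_subtype
  obtain ⟨R, a, b⟩ := fb.mengerQS fb.mengerS W (σ.bd P) (gr (σ.un (Q \ P))) _ (σ.bd Q) Subtype.val
    ((σ.bd_fin P).union (σ.vs_fin (Q \ P))) fun Z hZ hk =>
      let ⟨S, c1, c2, ⟨v, c3, c4⟩, c5⟩ := AG.cut h0 h h1 Z hZ hk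
      ⟨S, c1, c2, ⟨⟨v, c4⟩, c3⟩, c5⟩
  refine ⟨fun v => if c : v ∈ σ.bd P then R ⟨v, c⟩ else ∅, fun u hu v hv n => ?_, fun v hv => ?_⟩
  · simp only [onFun, dif_pos hu, dif_pos hv]
    exact b fun c => n (congrArg Subtype.val c)
  · simp only [dif_pos hv]
    obtain ⟨a1, a2, a3, a4⟩ := a ⟨v, hv⟩
    refine ⟨subset_antisymm (fun w hw => ?_) (singleton_subset_iff.2 ⟨a3, σ.bd_vs P hv⟩), a1, a2, a4⟩
    have : w ∈ σ.bd P := (a1 hw.1).elim id fun c =>
      σ.bd_eq P ▸ ⟨hw.2, σ.vs_mono (fun _ d => d.2) c⟩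
    by_contra c
    exact disjoint_left.1 (b (show (⟨w, this⟩ : σ.bd P) ≠ ⟨v, hv⟩ from
      fun d => c (congrArg Subtype.val d))) (a ⟨w, this⟩).2.2.1 hw.1

theorem linkS : LinkS := by
  intro σ X Y h h0 h1 h2
  obtain ⟨R, a, b⟩ := linkVS σ X Y h0 (fun a _ => h a) h1
  choose! t t1 t2 using fun v hv => (b v hv).2.2.2
  have inj : InjOn t (σ.bd X) := fun u hu v hv e => by
    by_contra c
    exact disjoint_left.1 (a hu hv c) (t1 u hu) (e ▸ t1 v hv)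
  have im : t '' σ.bd X = σ.bd Y := eq_of_subset_of_ncard_le (image_subset_iff.2 t2)
    (by rw [inj.ncard_image]; exact h2.ge) (σ.bd_fin Y)
  have m : ∀ v ∈ σ.bd X, v ∈ R v := fun v hv => ((b v hv).1.ge rfl).1
  have s : σ.bd X ∪ σ.vs (Y \ X) ⊆ σ.vs Y :=
    union_subset ((σ.bd_vs X).trans (σ.vs_mono h0)) (σ.vs_mono sdiff_subset)
  have := glueS Unit (σ.bd X) (fun _ => σ.bd X) (fun _ => σ.un X) (fun _ => σ.un X)
    (fun _ => Subtype.val) (fun _ => Subtype.val) (σ.un Y) Subtype.val (fun v => t v.1) (σ.bd X) R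
    ((σ.bd_vs X).trans (σ.vs_od X)) (fun _ => RLe.mono subset_rfl _) (fun _ v => ⟨v.2, m _ v.2⟩)
    (fun v => ⟨v.2, t1 _ v.2⟩) (fun _ v hv => ⟨⟨v, hv.1⟩, rfl⟩) (fun _ _ n => absurd rfl n)
    (fun _ => σ.un_mono h0) (fun _ _ n => absurd rfl n) (fun v hv =>
      ⟨pl.conn_mono (b v hv).2.2.1 (gr_mono (σ.un_mono sdiff_subset)),
        ((b v hv).2.1.trans s).trans (σ.vs_od Y),
        (((b v hv).2.1.trans s).trans (σ.vs_VV Y)).trans subset_union_left, fun _ w hw =>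
        ⟨⟨v, hv⟩, ((b v hv).1.le ⟨hw.1, σ.vs_un X ▸ ⟨hw.2, σ.vs_od Y (s ((b v hv).2.1 hw.1))⟩⟩).symm⟩⟩)
    fun u hu v hv n => a hu hv n
  rw [iUnion_const] at this
  exact ULe.of_rle this (σ.bd_fin X) Subtype.range_coe (by rw [← im, image_eq_range])
    fun i j e => congrArg t e

theorem rb_fin {X U : Pc} (h : X.Finite) (hU : U ⊆ X) (R : Set W) : (rb X R U).Finite :=
  (VV_finite (h.subset hU)).subset fun _ k => k.2.1

theorem Robust.anti {X : Pc} {R R' : Set W} (h : Robust X R) (hX : X.Finite) (hR : R.Finite)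
    (h0 : R' ⊆ R) : Robust X R' := by
  have k : ∀ U ⊆ X, R.ncard ≤ (rb X R U).ncard → R'.ncard ≤ (rb X R' U).ncard := by
    intro U hU c
    have a := ncard_le_ncard (show rb X R U ⊆ rb X R' U ∪ (R \ R') from fun v hv => by
      by_cases d : v ∈ R'
      · exact Or.inl ⟨hv.1, hv.2.1, Or.inl d⟩
      · exact hv.2.2.elim (fun e => Or.inr ⟨e, d⟩) fun e => Or.inl ⟨hv.1, hv.2.1, Or.inr e⟩)
      ((rb_fin hX hU _).union hR.sdiff)
    have b := ncard_union_le (rb X R' U) (R \ R')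
    have d := ncard_sdiff_add_ncard_of_subset h0 hR
    omega
  exact fun U hU => (h U hU).imp (k U hU) (k _ sdiff_subset)

theorem link_side {X U : Pc} {D : Set W} {s t : W} (h : Link (gr X) D t s)
    (hD : ∀ v ∈ D, v ∈ VV U → v ∉ VV (X \ U)) (ht : t ∈ VV U) : s ∈ VV U := by
  induction h with
  | refl => exact ht
  | tail _ q ih =>
    obtain ⟨a, -, -, k | k⟩ := q
    · exact ⟨_, not_not.1 fun c => hD _ a ih ⟨_, ⟨k, c⟩, Or.inl rfl⟩, Or.inr rfl⟩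
    · exact ⟨_, not_not.1 fun c => hD _ a ih ⟨_, ⟨k, c⟩, Or.inr rfl⟩, Or.inl rfl⟩

theorem Solid.robust {X : Pc} {R : Set W} (h : Solid X R ∅) (hX : X.Finite) : Robust X R := by
  intro U hU
  by_contra c
  push Not at c
  have f1 := rb_fin hX hU R
  have f2 := rb_fin hX (sdiff_subset (t := U)) R
  have cov : ∀ r ∈ R, r ∈ VV U ∨ r ∈ VV (X \ U) := fun r hr => by
    have := (h.sub hr).1.1
    rwa [← union_sdiff_cancel hU, VV_union] at this
  obtain ⟨s, s1, s2⟩ : ∃ s ∈ R, s ∉ VV U := by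
    by_contra! d
    exact absurd (ncard_le_ncard (show R ⊆ rb X R U from
      fun r hr => ⟨(h.sub hr).1.2, d r hr, Or.inl hr⟩) f1) (not_le.2 c.1)
  obtain ⟨t, t1, t2⟩ : ∃ s ∈ R, s ∉ VV (X \ U) := by
    by_contra! d
    exact absurd (ncard_le_ncard (show R ⊆ rb X R (X \ U) from
      fun r hr => ⟨(h.sub hr).1.2, d r hr, Or.inl hr⟩) f2) (not_le.2 c.2)
  refine s2 (link_side (h.two t t1 s s1) (fun v hv a b => ?_) ((cov t t1).resolve_right t2))
  have n : v ∉ R := fun d => hv.2 ⟨d, by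
    rintro (rfl | rfl)
    exacts [t2 b, s2 a]⟩
  have m1 : v ∈ rb X R U := ⟨hv.1.1, a, Or.inr b⟩
  have m2 : v ∈ rb X R (X \ U) := ⟨hv.1.1, b, Or.inr (by rwa [sdiff_sdiff_cancel_left hU])⟩
  have e1 := ncard_union_add_ncard_inter _ _ f1 f2
  have e2 : (insert v R).ncard ≤ (rb X R U ∪ rb X R (X \ U)).ncard := ncard_le_ncard
    (insert_subset (Or.inl m1) fun r hr => (cov r hr).imp
      (fun d => ⟨(h.sub hr).1.2, d, Or.inl hr⟩) fun d => ⟨(h.sub hr).1.2, d, Or.inl hr⟩) (f1.union f2)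
  have e3 := (ncard_pos (f1.inter_of_left _)).2 ⟨v, m1, m2⟩
  rw [ncard_insert_of_notMem n h.card.1] at e2
  have := h.card.2
  omega

theorem Robust.ren {X : Pc} {R : Set W} {π : W → W} (h : Robust X R) (hX : X.Finite)
    (hR : R.Finite) (_h1 : MapsTo π Nm Nm) (h2 : InjOn π ((VV X ∪ R) ∩ π ⁻¹' Od))
    (h3 : VV X ∩ Od ∩ π ⁻¹' Nm ⊆ R) : Robust (ren π X) (π '' R ∩ Od) := by
  have k : ∀ (U : Pc) (U' : Pc), U ⊆ X → U' = gm.ren π U → gm.ren π X \ U' = gm.ren π (X \ U) →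
      R.ncard ≤ (rb X R U).ncard →
      (π '' R ∩ Od).ncard ≤ (rb (gm.ren π X) (π '' R ∩ Od) U').ncard := by
    rintro U _ hU rfl e c
    have a1 : (π '' R ∩ Od).ncard ≤ (R ∩ π ⁻¹' Od).ncard := by
      rw [← image_inter_preimage]
      exact ncard_image_le (hR.inter_of_left _)
    have a2 := ncard_inter_add_ncard_sdiff_eq_ncard R (π ⁻¹' Od) hR
    have a3 := ncard_inter_add_ncard_sdiff_eq_ncard (rb X R U) (π ⁻¹' Od) (rb_fin hX hU R)
    have a4 : (rb X R U \ π ⁻¹' Od).ncard ≤ (R \ π ⁻¹' Od).ncard := ncard_le_ncard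
      (fun v hv => ⟨h3 ⟨⟨VV_mono hU hv.1.2.1, hv.1.1⟩, (od_or_nm _).resolve_left hv.2⟩, hv.2⟩)
      hR.sdiff
    have a5 : (rb X R U ∩ π ⁻¹' Od).ncard ≤ (rb (gm.ren π X) (π '' R ∩ Od) (gm.ren π U)).ncard := by
      rw [← (h2.mono (show rb X R U ∩ π ⁻¹' Od ⊆ (VV X ∪ R) ∩ π ⁻¹' Od from fun v hv =>
        ⟨Or.inl (VV_mono hU hv.1.2.1), hv.2⟩)).ncard_image]
      refine ncard_le_ncard ?_ (rb_fin (hX.image _) (image_mono hU) _)
      rintro _ ⟨v, ⟨⟨-, b, d⟩, o⟩, rfl⟩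
      exact ⟨o, VV_ren π U ▸ ⟨v, b, rfl⟩, d.imp (fun d => ⟨⟨v, d, rfl⟩, o⟩)
        fun d => by rw [e, VV_ren]; exact ⟨v, d, rfl⟩⟩
    omega
  intro U' hU'
  have e1 : U' = gm.ren π (X ∩ Prod.map π π ⁻¹' U') := by
    rw [gm.ren, image_inter_preimage]
    exact (inter_eq_self_of_subset_right hU').symm
  have e2 : gm.ren π X \ U' = gm.ren π (X \ (X ∩ Prod.map π π ⁻¹' U')) := by
    rw [sdiff_self_inter, gm.ren, gm.ren, image_sdiff_preimage]
  refine (h _ inter_subset_left).imp (k _ _ inter_subset_left e1 e2) (k _ _ sdiff_subset e2 ?_)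
  rw [sdiff_sdiff_cancel_left hU', sdiff_sdiff_cancel_left inter_subset_left, ← e1]

theorem robS : RobS := by
  refine ⟨fun _ _ _ a b c h => h.anti a b c, fun X R h1 h2 U hU => ?_, fun _ _ a h => h.robust a,
    fun _ _ _ a b h => h.ren a b⟩
  have k : R.ncard ≤ (rb X R X).ncard := ncard_le_ncard
    (fun v hv => ⟨(h2 hv).2, (h2 hv).1, Or.inl hv⟩) (rb_fin h1.finite subset_rfl R)
  rcases U.eq_empty_or_nonempty with rfl | ⟨p, hp⟩
  · exact Or.inr (by rwa [sdiff_empty])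
  · obtain rfl : U = X := subset_antisymm hU fun q hq => h1 (hU hp) hq ▸ hp
    exact Or.inl k

theorem link_VV {X : Pc} {D : Set W} {s t : W} (h : Link (gr X) D s t) :
    Link (gr X) (D ∩ VV X) s t :=
  Link.map id (fun _ ha _ hb e => Link.single (mem_inter ha (gr_mem e))
    (mem_inter hb (gr_mem e.symm)) e) h

theorem solidS : SolidS := by
  refine ⟨fun X R Λ Λ' π h h1 h2 => ⟨?_, ⟨h.card.1.image _, (ncard_image_le h.card.1).trans h.card.2⟩,
    ?_, fun c => ?_⟩, fun X X' R Λ Λ' h h1 h2 => ⟨fun r hr => ⟨⟨VV_mono h1 (h.sub hr).1.1,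
    (h.sub hr).1.2⟩, fun c => (h.sub hr).2 (h2 ⟨c, (h.sub hr).1.1⟩)⟩, h.card,
    fun r hr s hs => ?_, fun c => ?_⟩⟩
  · rintro _ ⟨r, hr, rfl⟩
    exact ⟨⟨VV_ren π X ▸ ⟨r, (h.sub hr).1.1, rfl⟩, (h2 (h.sub hr)).1⟩, (h2 (h.sub hr)).2⟩
  · rintro _ ⟨r, hr, rfl⟩ _ ⟨s, hs, rfl⟩
    have m : ∀ a ∈ (Od \ Λ) \ (R \ {r, s}) ∩ VV X, a ∈ (VV X ∩ Od) \ Λ := fun a k =>
      ⟨⟨k.2, k.1.1.1⟩, k.1.1.2⟩
    have m' : ∀ a ∈ (Od \ Λ) \ (R \ {r, s}) ∩ VV X, π a ∈ (Od \ Λ') \ (π '' R \ {π r, π s}) := by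
      intro a k
      refine ⟨h2 (m a k), ?_⟩
      rintro ⟨⟨b, hb, e⟩, n⟩
      obtain rfl := h1 (h.sub hb) (m a k) e
      refine k.1.2 ⟨hb, ?_⟩
      rintro (rfl | rfl)
      exacts [n (Or.inl rfl), n (Or.inr rfl)]
    exact Link.map π (fun a ha b hb e => Link.single (m' a ha) (m' b hb)
      (gr_ren.2 ⟨h1.ne (m a ha) (m b hb) e.ne, a, b, e, rfl, rfl⟩)) (link_VV (h.two r hr s hs))
  · rw [(h1.mono h.sub).ncard_image] at c
    obtain ⟨Y, a1, a2, a3⟩ := h.three c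
    obtain ⟨r, hr⟩ : R.Nonempty := nonempty_of_ncard_ne_zero (by omega)
    obtain ⟨y, hy, e⟩ := a3 r hr
    have m : ∀ a ∈ Y, a ∈ (VV X ∩ Od) \ Λ := fun a k =>
      ⟨⟨not_not.1 fun n => n (conn_out a2 k hy n ▸ gr_mem e.symm), (a1 k).1.1⟩, (a1 k).1.2⟩
    refine ⟨π '' Y, ?_, conn_ren π a2, ?_⟩
    · rintro _ ⟨a, k, rfl⟩
      exact ⟨h2 (m a k), fun ⟨b, hb, d⟩ => (a1 k).2 (h1 (h.sub hb) (m a k) d ▸ hb)⟩
    · rintro _ ⟨s, hs, rfl⟩
      obtain ⟨z, hz, d⟩ := a3 s hs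
      exact ⟨_, ⟨z, hz, rfl⟩, gr_ren.2 ⟨h1.ne (h.sub hs) (m z hz) d.ne, s, z, d, rfl, rfl⟩⟩
  · have m : (Od \ Λ) \ (R \ {r, s}) ∩ VV X ⊆ (Od \ Λ') \ (R \ {r, s}) := fun a ha =>
      ⟨⟨ha.1.1.1, fun c => ha.1.1.2 (h2 ⟨c, ha.2⟩)⟩, ha.1.2⟩
    exact Link.map id (fun a ha b hb e => Link.single (m ha) (m hb) (gr_mono h1 e))
      (link_VV (h.two r hr s hs))
  · obtain ⟨Y, a1, a2, a3⟩ := h.three c
    obtain ⟨r, hr⟩ : R.Nonempty := nonempty_of_ncard_ne_zero (by omega)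
    obtain ⟨y, hy, e⟩ := a3 r hr
    exact ⟨Y, fun a k => ⟨⟨(a1 k).1.1, fun c => (a1 k).1.2 (h2 ⟨c, not_not.1 fun n =>
      n (conn_out a2 k hy n ▸ gr_mem e.symm)⟩)⟩, (a1 k).2⟩, pl.conn_mono a2 (gr_mono h1),
      fun s hs => let ⟨z, hz, d⟩ := a3 s hs; ⟨z, hz, gr_mono h1 d⟩⟩

end Pool.Agent.MP_9d78a0_co.gm

end MrgPart3

-- ======== part 4: formerly Pool.Agent.MP_9d78a0_co.gm.A3
section MrgPart4

/-! Block A: width. -/

set_option autoImplicit false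

namespace Pool.Agent.MP_9d78a0_co.gm

open Set Function

variable {ε ε' ν ν' : Type}

/-- sets with a binary decomposition of width at most `K` -/
inductive WI (f : Set ε → ℕ) (K : ℕ) : Set ε → Prop
  | triv {s : Set ε} : s.Subsingleton → f s ≤ K → WI f K s
  | split {l r : Set ε} : Disjoint l r → WI f K l → WI f K r → f (l ∪ r) ≤ K → WI f K (l ∪ r)

variable {f : Set ε → ℕ} {f' : Set ε' → ℕ} {K K' : ℕ}

theorem WI.of_dec [Finite ε] {T : Set (Set ε)} (h : pl.Dec f K T) : ∀ s ∈ T, WI f K s := by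
  intro s
  induction s using (wellFounded_lt (α := Set ε)).induction with
  | _ s ih =>
  intro hs
  by_cases n : s.Nontrivial
  · obtain ⟨l, a1, a2, ⟨x, a3⟩, ⟨y, a4⟩, a5⟩ := h.split s hs n
    have := WI.split disjoint_sdiff_right
      (ih l ((ssubset_iff_of_subset a2).2 ⟨y, a4.1, a4.2⟩) a1)
      (ih (s \ l) ((ssubset_iff_of_subset sdiff_subset).2 ⟨x, a2 a3, fun k => k.2 a3⟩) a5)
      (by rw [union_sdiff_cancel a2]; exact h.wid s hs)
    rwa [union_sdiff_cancel a2] at this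
  · exact WI.triv (not_nontrivial_iff.1 n) (h.wid s hs)

theorem WI.le {s : Set ε} (h : WI f K s) : f s ≤ K := by
  cases h <;> assumption

theorem WI.step {s : Set ε} (h : WI f K s) (n : s.Nontrivial) :
    ∃ l ⊆ s, l.Nonempty ∧ (s \ l).Nonempty ∧ WI f K l ∧ WI f K (s \ l) := by
  induction h with
  | triv a _ => exact absurd n a.not_nontrivial
  | @split l r d a b _ i1 i2 =>
    rcases l.eq_empty_or_nonempty with rfl | c
    · rw [empty_union] at n ⊢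
      exact i2 n
    rcases r.eq_empty_or_nonempty with rfl | c'
    · rw [union_empty] at n ⊢
      exact i1 n
    have e : (l ∪ r) \ l = r := union_sdiff_cancel_left (disjoint_iff_inter_eq_empty.1 d).le
    exact ⟨l, subset_union_left, c, e.symm ▸ c', a, e.symm ▸ b⟩

theorem WI.dec [Finite ε] (h : WI f K univ) : ∃ T, pl.Dec f K T := by
  classical
  obtain ⟨T, a⟩ := pl.dec_of_split (f := fun s => if WI f K s then 0 else 1) (K := 0)
    (fun X hX n => by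
      have : WI f K X := by by_contra c; simp [c] at hX
      obtain ⟨l, a, b, c, d, e⟩ := this.step n
      exact ⟨l, a, b, c, by simp [d], by simp [e]⟩) (by simp [h])
  refine ⟨T, a.lam, a.top, a.split, fun s hs => WI.le ?_⟩
  by_contra c
  simpa [c] using a.wid s hs

/-- transport along a map that respects unions -/
theorem WI.map {s : Set ε} (h : WI f K s) (φ : Set ε → Set ε')
    (h1 : ∀ a b, φ (a ∪ b) = φ a ∪ φ b) (h2 : ∀ a b, Disjoint a b → Disjoint (φ a) (φ b))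
    (h3 : ∀ a ⊆ s, a.Subsingleton → (φ a).Subsingleton)
    (h4 : ∀ a ⊆ s, f a ≤ K → f' (φ a) ≤ K') : WI f' K' (φ s) := by
  induction h with
  | triv a b => exact WI.triv (h3 _ subset_rfl a) (h4 _ subset_rfl b)
  | split d _ _ c i1 i2 =>
    have := h4 _ subset_rfl c
    rw [h1] at this ⊢
    exact WI.split (h2 _ _ d)
      (i1 (fun a k => h3 a (k.trans subset_union_left)) fun a k => h4 a (k.trans subset_union_left))
      (i2 (fun a k => h3 a (k.trans subset_union_right))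
        fun a k => h4 a (k.trans subset_union_right)) this

/-- the boundary of `s` inside `Y` -/
def rbd (inc : ε → Set ν) (Y s : Set ε) : Set ν := hv inc s ∩ hv inc (Y \ s)

variable {inc : ε → Set ν} {inc' : ε' → Set ν'}

theorem hv_coe (Y : Set ε) (t : Set Y) :
    hv (fun a : Y => inc a.1) t = hv inc (Subtype.val '' t) := by
  ext v
  exact ⟨fun ⟨a, h, k⟩ => ⟨_, ⟨a, h, rfl⟩, k⟩, by rintro ⟨_, ⟨a, h, rfl⟩, k⟩; exact ⟨a, h, k⟩⟩

theorem hbd_coe (Y : Set ε) (t : Set Y) :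
    hbd (fun a : Y => inc a.1) t = rbd inc Y (Subtype.val '' t) := by
  rw [hbd_eq, hv_coe, hv_coe, rbd, compl_eq_univ_sdiff, image_sdiff Subtype.val_injective,
    Subtype.coe_image_univ]

theorem wd_iff [Finite ε] {Y : Set ε} : Wd inc Y K ↔ WI (fun s => (rbd inc Y s).ncard) K Y := by
  constructor
  · rintro ⟨T, h⟩
    have := (WI.of_dec h _ h.top).map (f' := fun s => (rbd inc Y s).ncard) (K' := K)
      (Subtype.val '' ·) (image_union _)
      (fun a b d => (disjoint_image_iff Subtype.val_injective).2 d) (fun a _ k => k.image _)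
      fun a _ k => by rwa [hf, hbd_coe] at k
    rwa [Subtype.coe_image_univ] at this
  · intro h
    have := h.map (f' := hf fun a : Y => inc a.1) (K' := K) (Subtype.val ⁻¹' ·)
      (fun _ _ => preimage_union) (fun a b d => d.preimage _)
      (fun a _ k => k.preimage Subtype.val_injective) fun a c k => by
        rwa [hf, hbd_coe, Subtype.image_preimage_coe, inter_eq_self_of_subset_right c]
    rw [Subtype.coe_preimage_self] at this
    exact this.dec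

theorem rbd_fin [Finite ε] (h : ∀ a, (inc a).Finite) (Y s : Set ε) : (rbd inc Y s).Finite :=
  (hv_fin h s).inter_of_left _

/-- a part of a set of bounded width, inside a larger set `T` -/
theorem Wd.sub [Finite ε] (hi : ∀ a, (inc a).Finite) {Y Y' T : Set ε} {d : ℕ}
    (h : Wd inc Y K) (h0 : Y' ⊆ Y) (hd : (hv inc Y' ∩ hv inc (T \ Y')).ncard ≤ d) :
    WI (fun s => (rbd inc T s).ncard) (K + d) Y' := by
  have := (wd_iff.1 h).map (f' := fun s => (rbd inc T s).ncard) (K' := K + d) (· ∩ Y')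
    (fun _ _ => union_inter_distrib_right _ _ _)
    (fun a b c => c.mono inter_subset_left inter_subset_left)
    (fun a _ k => k.anti inter_subset_left) fun a c k => by
      refine (ncard_le_ncard (t := rbd inc Y a ∪ hv inc Y' ∩ hv inc (T \ Y')) ?_
        ((rbd_fin hi Y a).union ((hv_fin hi _).inter_of_left _))).trans
        ((ncard_union_le _ _).trans (add_le_add k hd))
      rintro v ⟨⟨x, hx, k1⟩, y, hy, k2⟩
      by_cases e : y ∈ Y'
      · exact Or.inl ⟨⟨x, hx.1, k1⟩, y, ⟨h0 e, fun m => hy.2 ⟨m, e⟩⟩, k2⟩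
      · exact Or.inr ⟨⟨x, hx.2, k1⟩, y, ⟨hy.1, e⟩, k2⟩
  rwa [inter_eq_self_of_subset_right h0] at this

theorem rbd_self (Y : Set ε) : rbd inc Y Y = ∅ := by simp [rbd, hv]

theorem wdS : WdS := by
  intro ε ν _ inc hi
  refine ⟨fun Y Y' K K' a b h => wd_iff.2 ?_, fun Y K h => wd_iff.2 (WI.triv h (by simp [rbd_self])),
    fun Y Y' K d h h' hd => wd_iff.2 ?_, fun Y m K d h hd => wd_iff.2 ?_⟩
  · have := h.sub hi a (T := Y') (d := K' - K) (by simp [hv])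
    rwa [Nat.add_sub_cancel' b] at this
  · have f1 : (hv inc Y ∩ hv inc Y').Finite := (hv_fin hi _).inter_of_left _
    have := WI.split disjoint_sdiff_right
      (h.sub hi subset_rfl (T := Y ∪ Y') ((ncard_le_ncard (inter_subset_inter_right _
        (hv_mono fun x k => k.1.resolve_left k.2)) f1).trans hd))
      (h'.sub hi (sdiff_subset (t := Y)) (T := Y ∪ Y') ((ncard_le_ncard (fun v k => mem_inter (hv_mono
        (fun x (c : x ∈ (Y ∪ Y') \ (Y' \ Y)) => not_not.1 fun n => c.2 ⟨c.1.resolve_left n, n⟩) k.2)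
        (hv_mono sdiff_subset k.1)) f1).trans hd)) (by simp [rbd_self])
    rwa [union_sdiff_self] at this
  · have f1 : ∀ i, (hv inc (⋃ j < i, Y j) ∩ hv inc (⋃ j ∈ Ico i m, Y j)).Finite := fun i =>
      (hv_fin hi _).inter_of_left _
    have s : ∀ i, (⋃ j < m, Y j) \ (⋃ j < i, Y j) ⊆ ⋃ j ∈ Ico i m, Y j := fun i x k => by
      obtain ⟨j, a, b⟩ := mem_iUnion₂.1 k.1
      exact mem_biUnion (x := j) ⟨not_lt.1 fun c => k.2 (mem_biUnion c b), a⟩ b
    have key : ∀ i ≤ m, WI (fun s => (rbd inc (⋃ j < m, Y j) s).ncard) (K + 2 * d)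
        (⋃ j < i, Y j) := by
      intro i
      induction i with
      | zero => exact fun _ => WI.triv (by simp) (by simp [rbd, hv])
      | succ i ih =>
        intro c
        have := WI.split disjoint_sdiff_right (ih (by omega))
          ((h i c).sub hi (sdiff_subset (t := ⋃ j < i, Y j)) (T := ⋃ j < m, Y j) (d := 2 * d) (by
            refine (ncard_le_ncard ?_ ((f1 i).union (f1 (i + 1)))).trans
              ((ncard_union_le _ _).trans (by have := hd i; have := hd (i + 1); omega))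
            rintro v ⟨⟨x, hx, k1⟩, y, hy, k2⟩
            by_cases e : y ∈ ⋃ j < i, Y j
            · exact Or.inl ⟨⟨y, e, k2⟩, x, mem_biUnion (x := i) ⟨le_rfl, c⟩ hx.1, k1⟩
            · refine Or.inr ⟨⟨x, mem_biUnion (Nat.lt_succ_self i) hx.1, k1⟩, y, s _ ⟨hy.1, ?_⟩, k2⟩
              rw [biUnion_lt_succ]
              exact fun k => k.elim e fun k => hy.2 ⟨k, e⟩)) (by
            rw [union_sdiff_self, ← biUnion_lt_succ]
            exact (ncard_le_ncard (inter_subset_inter_right _ (hv_mono (s _))) (f1 _)).trans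
              (by have := hd (i + 1); omega))
        rwa [union_sdiff_self, ← biUnion_lt_succ] at this
    exact key m le_rfl

theorem wdMapS : WdMapS := by
  intro ε ε' ν ν' _ _ inc inc' e φ Y Y' Z K hi hZ h1 h2 h3 h4 h
  have := (wd_iff.1 h).map (f' := fun s => (rbd inc' Y' s).ncard) (K' := K + Z.ncard)
    (fun s => Y' ∩ e ⁻¹' s) (fun _ _ => by rw [preimage_union, inter_union_distrib_left])
    (fun a b c => (c.preimage e).mono inter_subset_right inter_subset_right)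
    (fun a _ k x hx y hy => h1 hx.1 hy.1 (k hx.2 hy.2)) fun a c k => by
      have m : MapsTo φ (rbd inc' Y' (Y' ∩ e ⁻¹' a) \ Z) (rbd inc Y a) := by
        rintro v ⟨⟨⟨x, hx, k1⟩, y, hy, k2⟩, n⟩
        exact ⟨⟨_, hx.2, h4 x hx.1 v ⟨k1, n⟩⟩, _, ⟨h2 hy.1, fun d => hy.2 ⟨hy.1, d⟩⟩,
          h4 y hy.1 v ⟨k2, n⟩⟩
      have := ncard_le_ncard_of_injOn φ m (h3.mono (sdiff_subset_sdiff_left
        (inter_subset_left.trans (hv_mono inter_subset_left)))) (rbd_fin hi Y a)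
      exact (ncard_le_ncard_sdiff_add_ncard _ Z hZ).trans (by omega)
  rw [inter_eq_self_of_subset_left (show Y' ⊆ e ⁻¹' Y from h2)] at this
  exact wd_iff.2 this

end Pool.Agent.MP_9d78a0_co.gm

end MrgPart4

-- ======== part 5: formerly Pool.Agent.MP_9d78a0_co.gm.A4
section MrgPart5

/-! Block A: labels of bounded width over a well-quasi-ordered set. -/

set_option autoImplicit false

namespace Pool.Agent.MP_9d78a0_co.gm

open Set Function Relation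

/-- two local models whose roots coincide in the same pattern -/
theorem glue2 {ι κ : Type} {X X' Y Y' : Pc} {ρ ρ' : ι → W} {τ τ' : κ → W} (h : RLe X ρ X' ρ')
    (h' : RLe Y τ Y' τ') (o : range (Sum.elim ρ τ) ⊆ Od) (o' : range (Sum.elim ρ' τ') ⊆ Od)
    (p : ∀ i j, Sum.elim ρ τ i = Sum.elim ρ τ j ↔ Sum.elim ρ' τ' i = Sum.elim ρ' τ' j)
    (a : VV X ∩ (VV Y ∪ range τ) ∩ Od ⊆ range ρ) (b : VV Y ∩ (VV X ∪ range ρ) ∩ Od ⊆ range τ)
    (a' : VV X' ∩ (VV Y' ∪ range τ') ∩ Od ⊆ range ρ')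
    (b' : VV Y' ∩ (VV X' ∪ range ρ') ∩ Od ⊆ range τ') :
    RLe (X ∪ Y) (Sum.elim ρ τ) (X' ∪ Y') (Sum.elim ρ' τ') := by
  let J : Bool → Type := fun c => Bool.rec κ ι c
  have k := glue0S Bool J (fun c => cond c X Y) (fun c => cond c X' Y')
    (fun c => Bool.rec (motive := fun c => J c → W) τ ρ c)
    (fun c => Bool.rec (motive := fun c => J c → W) τ' ρ' c)
    (by rintro (_ | _); exacts [h', h])
    (by
      rintro (_ | _) i
      exacts [⟨o ⟨Sum.inr i, rfl⟩, o' ⟨Sum.inr i, rfl⟩⟩, ⟨o ⟨Sum.inl i, rfl⟩, o' ⟨Sum.inl i, rfl⟩⟩])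
    (by
      rintro (_ | _) (_ | _) i j
      exacts [p (Sum.inr i) (Sum.inr j), p (Sum.inr i) (Sum.inl j), p (Sum.inl i) (Sum.inr j),
        p (Sum.inl i) (Sum.inl j)])
    (by rintro (_ | _) (_ | _) n; exacts [absurd rfl n, b, a, absurd rfl n])
    (by rintro (_ | _) (_ | _) n; exacts [absurd rfl n, b', a', absurd rfl n])
  rw [← union_eq_iUnion, ← union_eq_iUnion] at k
  have := k.comp_surj (φ := Sum.elim (fun i : ι => ⟨true, i⟩) fun j : κ => ⟨false, j⟩) (by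
    rintro ⟨_ | _, i⟩
    exacts [⟨Sum.inr i, rfl⟩, ⟨Sum.inl i, rfl⟩])
  rwa [Sum.comp_elim, Sum.comp_elim] at this

theorem AG.bd_od (σ : AG) (U : Set σ.ε) : σ.bd U ⊆ Od := (σ.bd_vs U).trans (σ.vs_od U)

theorem AG.share {σ : AG} {L R : Set σ.ε} (d : Disjoint L R) :
    VV (σ.un L) ∩ (VV (σ.un R) ∪ σ.bd R) ∩ Od ⊆ σ.bd L := fun v hv => by
  rw [σ.bd_eq]
  refine ⟨σ.vs_un L ▸ ⟨hv.1.1, hv.2⟩, σ.vs_mono d.symm.subset_compl_right ?_⟩
  exact hv.1.2.elim (fun c => σ.vs_un R ▸ ⟨c, hv.2⟩) (@AG.bd_vs σ R v)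

theorem AG.bd_union (σ : AG) (L R : Set σ.ε) : σ.bd (L ∪ R) ⊆ σ.bd L ∪ σ.bd R := by
  rintro v ⟨⟨p, hp | hp, hv⟩, q, hq, hv'⟩
  exacts [Or.inl ⟨⟨p, hp, hv⟩, q, fun c => hq (Or.inl c), hv'⟩,
    Or.inr ⟨⟨p, hp, hv⟩, q, fun c => hq (Or.inr c), hv'⟩]

theorem glue_seq (σ : ℕ → AG) (L R : ∀ n, Set (σ n).ε) (hd : ∀ n, Disjoint (L n) (R n))
    (hL : ∀ n, ULe ((σ n).un (L n)) ((σ n).bd (L n)) ((σ (n + 1)).un (L (n + 1)))
      ((σ (n + 1)).bd (L (n + 1))))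
    (hR : ∀ n, ULe ((σ n).un (R n)) ((σ n).bd (R n)) ((σ (n + 1)).un (R (n + 1)))
      ((σ (n + 1)).bd (R (n + 1)))) :
    ∃ m n, m < n ∧ ULe ((σ m).un (L m ∪ R m)) ((σ m).bd (L m ∪ R m)) ((σ n).un (L n ∪ R n))
      ((σ n).bd (L n ∪ R n)) := by
  obtain ⟨ρ, a1, -, a2⟩ := chain_roots _ _ hL
  obtain ⟨τ, b1, -, b2⟩ := chain_roots _ _ hR
  have := ((σ 0).bd_fin (L 0)).to_subtype
  have := ((σ 0).bd_fin (R 0)).to_subtype
  obtain ⟨m, -, n, -, h1, h2, -⟩ := pl.pigeon infinite_univ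
    (fun n => ((fun i j => Sum.elim (ρ n) (τ n) i = Sum.elim (ρ n) (τ n) j),
      fun i => Sum.elim (ρ n) (τ n) i ∈ (σ n).bd (L n ∪ R n))) (fun _ => 0) fun _ => le_rfl
  obtain ⟨c1, c2⟩ := Prod.mk.inj h2
  have r : ∀ n, range (Sum.elim (ρ n) (τ n)) = (σ n).bd (L n) ∪ (σ n).bd (R n) := fun n => by
    rw [Sum.elim_range, a1, b1]
  have o : ∀ n, range (Sum.elim (ρ n) (τ n)) ⊆ Od := fun n =>
    r n ▸ union_subset ((σ n).bd_od _) ((σ n).bd_od _)
  have p := fun i j => (congrFun (congrFun c1 i) j).to_iff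
  have k := glue2 (a2 m n h1) (b2 m n h1) (o m) (o n) p (by rw [a1, b1]; exact AG.share (hd m))
    (by rw [a1, b1]; exact AG.share (hd m).symm) (by rw [a1, b1]; exact AG.share (hd n))
    (by rw [a1, b1]; exact AG.share (hd n).symm)
  rw [← AG.un_union, ← AG.un_union] at k
  refine ⟨m, n, h1, ULe.of_rle (k.comp
    (Subtype.val : {i // Sum.elim (ρ m) (τ m) i ∈ (σ m).bd (L m ∪ R m)} → _) fun i _ => ?_)
    ((σ m).bd_fin _) ?_ ?_ fun i j => (p _ _).1⟩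
  · have : Sum.elim (ρ n) (τ n) i ∈ _ := r n ▸ mem_range_self i
    exact Or.inl (Or.inl ((σ n).vs_VV _ ((σ n).vs_union _ _ ▸
      this.imp (@AG.bd_vs _ _ _) (@AG.bd_vs _ _ _))))
  · refine subset_antisymm (range_subset_iff.2 fun i => i.2) fun v hv => ?_
    obtain ⟨i, rfl⟩ : v ∈ range _ := r m ▸ (σ m).bd_union _ _ hv
    exact ⟨⟨i, hv⟩, rfl⟩
  · refine subset_antisymm (range_subset_iff.2 fun i => (congrFun c2 i.1).mp i.2) fun v hv => ?_
    obtain ⟨i, rfl⟩ : v ∈ range _ := r n ▸ (σ n).bd_union _ _ hv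
    exact ⟨⟨i, (congrFun c2 i).mpr hv⟩, rfl⟩

theorem ule_empty (X : Pc) : ULe ∅ ∅ X ∅ := ULe.mono (empty_subset X) finite_empty

theorem InA.seq {A : Set Lab} (hA : Pwo A) {X : ℕ → Pc} {R : ℕ → Set W} {s : Set ℕ}
    (hs : s.Infinite) (h : ∀ n ∈ s, InA A (X n) (R n) ∧ R n ⊆ VV (X n)) :
    ∃ m n, m < n ∧ ULe (X m) (R m) (X n) (R n) := by
  by_cases c : {n | n ∈ s ∧ X n = ∅}.Infinite
  · obtain ⟨m, a, n, b, k, -⟩ := pl.pigeon c (fun _ => ()) (fun _ => 0) fun _ => le_rfl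
    have e : ∀ n ∈ s, X n = ∅ → R n = ∅ := fun n a b =>
      subset_eq_empty (h n a).2 (by rw [b, VV_empty])
    refine ⟨m, n, k, ?_⟩
    rw [a.2, e m a.1 a.2, e n b.1 b.2]
    exact ule_empty _
  · have hs' : (s \ {n | n ∈ s ∧ X n = ∅}).Infinite := hs.sdiff (not_infinite.1 c)
    have m := fun n => Nat.nth_mem_of_infinite hs' n
    choose ρ a b using fun n => (h _ (m n).1).1.resolve_left fun d => (m n).2 ⟨(m n).1, d⟩
    obtain ⟨i, j, k, l⟩ := PartiallyWellOrderedOn.exists_lt hA.mem b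
    exact ⟨_, _, Nat.nth_strictMono hs' k, _, _, a i, a j, l⟩

theorem subm_coe {σ : AG} (Y : Set σ.ε) : pl.Subm fun t : Set Y => σ.f (Subtype.val '' t) :=
  ⟨by simpa using σ.sym.emp, fun A B => by
    simpa only [image_inter Subtype.val_injective, image_union] using σ.sym.sub _ _, fun A B => by
    simpa only [image_sdiff Subtype.val_injective] using σ.sym.pos _ _⟩

theorem om_core {A : Set Lab} (hA : Pwo A) {K : ℕ} (σ : ℕ → AG) (Y : ∀ n, Set (σ n).ε)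
    (h1 : ∀ n, (σ n).Rob) (h2 : ∀ n, ∀ a ∈ Y n, InA A ((σ n).pc a) ((σ n).bd {a}))
    (h3 : ∀ n, ∃ T, pl.Dec (fun t : Set (Y n) => (σ n).f (Subtype.val '' t)) K T) :
    ∃ m n, m < n ∧ ULe ((σ m).un (Y m)) ((σ m).bd (Y m)) ((σ n).un (Y n)) ((σ n).bd (Y n)) := by
  choose T hT hl using fun n => pl.exists_linked (subm_coe (Y n)) (h3 n)
  let α := Σ n, Set (Y n)
  let r : α → α → Prop := fun a b => ULe ((σ a.1).un (Subtype.val '' a.2))
    ((σ a.1).bd (Subtype.val '' a.2)) ((σ b.1).un (Subtype.val '' b.2))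
    ((σ b.1).bd (Subtype.val '' b.2))
  let ch : α → α → Prop := fun b a => ∃ Z : Set (Y a.1), b = ⟨a.1, Z⟩ ∧
    Z ∈ T a.1 ∧ a.2 \ Z ∈ T a.1 ∧ Z ⊆ a.2 ∧ Z.Nonempty ∧ (a.2 \ Z).Nonempty
  have : IsPreorder α r :=
    { refl := fun a => ULe.refl _ (AG.bd_fin _), trans := fun _ _ _ => ULe.trans }
  have : IsPreorder (α × α) fun x y => r x.1 y.1 ∧ r x.2 y.2 :=
    { refl := fun a => ⟨ULe.refl _ (AG.bd_fin _), ULe.refl _ (AG.bd_fin _)⟩
      trans := fun _ _ _ h h' => ⟨h.1.trans h'.1, h.2.trans h'.2⟩ }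
  have key := pl.forest (r := r) (ch := ch) (lab := fun a => (σ a.1).f (Subtype.val '' a.2))
    (size := fun a => a.2.ncard) (S := {a | a.2 ∈ T a.1}) (K := K) (fun _ _ _ => ULe.trans)
    (fun a ha => (hT _).wid _ ha) (by rintro _ a - ⟨Y, rfl, k, -⟩; exact k) (by
      rintro _ a ⟨Y, rfl, -, -, k1, -, y, k2⟩
      exact ncard_lt_ncard ((ssubset_iff_of_subset k1).2 ⟨y, k2.1, k2.2⟩)) ?_ ?_
  · obtain ⟨m, n, k1, k2⟩ := key.exists_lt (f := fun n => ⟨n, univ⟩) fun n => (hT n).top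
    exact ⟨m, n, k1, by simpa only [r, Subtype.coe_image_univ] using k2⟩
  · intro k b a ha hd hb hk
    have : ∃ Z : Set (Y a.1), b = ⟨a.1, Z⟩ ∧ Z ∈ T a.1 ∧ Z ⊆ a.2 ∧
        ∀ s ∈ T a.1, Z ⊆ s → s ⊆ a.2 → k ≤ (σ a.1).f (Subtype.val '' s) := by
      have step : ∀ V Z s : Set (Y a.1), Z ∈ T a.1 → Z \ V ∈ T a.1 → V ⊆ Z →
          V.Nonempty → s ∈ T a.1 → V ⊆ s → s = V ∨ Z ⊆ s := by
        intro V Z s h1 h2 h3 ⟨y, hy⟩ h4 h5
        rcases (hT _).nest h4 h1 (h5 hy) (h3 hy) with d | d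
        · rcases (hT _).lam s h4 _ h2 with e | e | e
          · exact absurd hy (e (h5 hy)).2
          · exact Or.inr fun z hz => by
              by_cases f : z ∈ V
              exacts [h5 f, e ⟨hz, f⟩]
          · exact Or.inl (subset_antisymm (fun z hz => not_not.1 fun f =>
              disjoint_left.1 e hz ⟨d hz, f⟩) h5)
        · exact Or.inr d
      clear hb
      induction hd using TransGen.head_induction_on with
      | single hd =>
        obtain ⟨⟨V, rfl, c1, c2, c3, c4, -⟩, c5, c6⟩ := hd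
        refine ⟨V, rfl, c1, c3, fun s d1 d2 d3 => ?_⟩
        rcases step V _ s ha c2 c3 c4 d1 d2 with rfl | e
        exacts [c5, subset_antisymm d3 e ▸ c6]
      | head hd _ ih =>
        obtain ⟨Z, rfl, b1, b2, b3⟩ := ih
        obtain ⟨⟨V, rfl, c1, c2, c3, c4, -⟩, c5, -⟩ := hd
        refine ⟨V, rfl, c1, c3.trans b2, fun s d1 d2 d3 => ?_⟩
        rcases step V _ s b1 c2 c3 c4 d1 d2 with rfl | e
        exacts [c5, b3 s d1 e d3]
    obtain ⟨Z, rfl, c1, c2, c3⟩ := this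
    refine linkS _ _ _ (h1 _) (image_mono c2) (fun U d1 d2 => ?_) (hb.trans hk.symm)
    obtain ⟨s, e1, e2, e3, e4⟩ := hl _ Z c1 _ ha (Subtype.val ⁻¹' U) (image_subset_iff.1 d1)
      (by rw [← preimage_image_eq a.2 Subtype.val_injective]; exact preimage_mono d2)
    dsimp only at e4
    rw [Subtype.image_preimage_coe,
      inter_eq_self_of_subset_right (d2.trans (Subtype.coe_image_subset _ _))] at e4
    exact (le_of_eq hb).trans ((c3 s e1 e2 e3).trans e4)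
  · intro f hf hp
    by_cases hs : {n | ¬ (f n).2.Nontrivial}.Infinite
    · refine InA.seq hA hs fun n k => ⟨?_, ((σ _).bd_vs _).trans ((σ _).vs_VV _)⟩
      rcases (not_nontrivial_iff.1 k).eq_empty_or_singleton with e | ⟨x, e⟩ <;> rw [e]
      · exact Or.inl (by simp [AG.un])
      · rw [image_singleton, AG.un_single]
        exact h2 _ _ x.2
    obtain ⟨N, hN⟩ := (not_infinite.1 hs).bddAbove
    choose l a1 a2 a3 a4 a5 using fun n => (hT _).split _ (hf (N + 1 + n))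
      (not_not.1 fun c => absurd (hN c) (by omega))
    obtain ⟨g, hg⟩ := (hp.prod hp).exists_monotone_subseq
      (f := fun n => (⟨_, l n⟩, ⟨_, (f (N + 1 + n)).2 \ l n⟩)) fun n =>
        ⟨⟨N + 1 + n, _, rfl, a1 n, a5 n, a2 n, a3 n, a4 n⟩, N + 1 + n, _, rfl, a5 n,
          by rw [sdiff_sdiff_cancel_left (a2 n)]; exact a1 n, sdiff_subset, a4 n,
          by rw [sdiff_sdiff_cancel_left (a2 n)]; exact a3 n⟩
    obtain ⟨m, n, k1, k2⟩ := glue_seq (fun n => σ (f (N + 1 + g n)).1)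
      (fun n => Subtype.val '' l (g n)) (fun n => Subtype.val '' ((f (N + 1 + g n)).2 \ l (g n)))
      (fun _ => (disjoint_image_iff Subtype.val_injective).2 disjoint_sdiff_right)
      (fun n => (hg n (n + 1) (by omega)).1) fun n => (hg n (n + 1) (by omega)).2
    simp only [← image_union, union_sdiff_cancel (a2 _)] at k2
    exact ⟨_, _, Nat.add_lt_add_left (g.strictMono k1) _, k2⟩

theorem omS : OmS := by
  intro A K n hA
  refine partiallyWellOrderedOn_iff_exists_lt.2 fun f hf => ?_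
  choose σ Y a1 a2 a3 a4 a5 a6 using fun i => (hf i).2
  have w : ∀ i, ∃ T, pl.Dec (fun t : Set (Y i) => (σ i).f (Subtype.val '' t)) (K + n) T := by
    intro i
    obtain ⟨T, h⟩ := a3 i
    refine ⟨T, h.lam, h.top, h.split, fun s hs => ?_⟩
    have b1 := h.wid s hs
    rw [gm.hf, hbd_coe] at b1
    have b2 : ((σ i).bd (Y i)).ncard ≤ n := by
      classical
      refine (ncard_le_ncard (a5 i) (List.finite_toSet _)).trans ?_
      rw [← (hf i).1, ← List.coe_toFinset, ncard_coe_finset]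
      exact List.toFinset_card_le _
    refine (ncard_le_ncard (t := rbd (σ i).inc (Y i) (Subtype.val '' s) ∪ (σ i).bd (Y i)) ?_
      ((rbd_fin (σ i).inc_fin _ _).union (AG.bd_fin _))).trans
      ((ncard_union_le _ _).trans (add_le_add b1 b2))
    rintro v ⟨⟨x, hx, k⟩, y, hy, k'⟩
    by_cases c : y ∈ Y i
    exacts [Or.inl ⟨⟨x, hx, k⟩, y, ⟨c, hy⟩, k'⟩,
      Or.inr ⟨⟨x, Subtype.coe_image_subset _ _ hx, k⟩, y, c, k'⟩]
  have := pwo_roots (S := range fun i => ((σ i).un (Y i), (σ i).bd (Y i)))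
    (by rintro _ ⟨i, rfl⟩; exact AG.bd_fin _)
    (partiallyWellOrderedOn_iff_exists_lt.2 fun x hx => by
      choose g hg using hx
      simp only [← hg]
      exact om_core hA (fun i => σ (g i)) (fun i => Y (g i)) (fun i => a1 _)
        (fun i a k => (a2 _ a k).1) fun i => w _) n
  refine PartiallyWellOrderedOn.exists_lt this fun i => ⟨(hf i).1, _, ⟨i, rfl⟩, a4 i, a5 i,
    fun v hv => ?_⟩
  by_cases c : v ∈ (σ i).vs (Y i)
  · exact Or.inl ((a6 i v hv).2 c)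
  · exact Or.inr ⟨(a6 i v hv).1, fun d => c ((σ i).vs_un _ ▸ ⟨d, (a6 i v hv).1⟩)⟩

end Pool.Agent.MP_9d78a0_co.gm

end MrgPart5

-- ======== part 6: formerly Pool.Agent.MP_9d78a0_co.gm.BGrid
section MrgPart6

/-! Width excludes tangles, and a grid model gives a tangle. -/

set_option autoImplicit false

namespace Pool.Agent.MP_9d78a0_co.gm

open Set Function

theorem noTgS : NoTgS := by
  intro ε _ f θ K D _ hD hK
  refine ⟨fun T => T.univ_not ?_⟩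
  have key : ∀ n, ∀ s ∈ D, s.ncard = n → s ∈ T.sm := by
    intro n
    induction n using Nat.strong_induction_on with
    | _ n ih =>
      intro s hs hn
      have h1 : f s < θ := (hD.wid s hs).trans_lt hK
      rcases s.subsingleton_or_nontrivial with h | h
      · refine (T.tot s h1).resolve_right ?_
        rcases h.eq_empty_or_singleton with rfl | ⟨a, rfl⟩
        · rw [compl_empty]
          exact T.univ_not
        · exact T.atom a
      · obtain ⟨l, hl, a1, ⟨x, hx⟩, ⟨y, hy⟩, a4⟩ := hD.split s hs h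
        have b1 : l.ncard < n :=
          hn ▸ ncard_lt_ncard ⟨a1, fun k => hy.2 (k hy.1)⟩ (toFinite s)
        have b2 : (s \ l).ncard < n :=
          hn ▸ ncard_lt_ncard ⟨sdiff_subset, fun k => (k (a1 hx)).2 hx⟩ (toFinite s)
        have := T.union_small (ih _ b1 l hl rfl) (ih _ b2 _ a4 rfl)
        rw [union_sdiff_cancel a1] at this
        exact this h1
  exact key _ _ hD.top rfl

theorem ncard_biUnion_le_mul {α β : Type} {X : Set α} (hX : X.Finite) (N : α → Set β) (m : ℕ)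
    (h : ∀ x, (N x).ncard ≤ m) : (⋃ x ∈ X, N x).ncard ≤ X.ncard * m := by
  induction X, hX using Finite.induction_on with
  | empty => simp
  | @insert a X ha hX ih =>
    rw [biUnion_insert, ncard_insert_of_notMem ha hX, add_mul, one_mul, add_comm]
    exact (ncard_union_le _ _).trans (add_le_add (h a) ih)

theorem wdIgS : WdIgS := by
  intro ε ν _ _ inc K r hr ⟨T, hT, _⟩
  let φ : Set ((ν ⊕ ε) × (ν ⊕ ε)) → Set ε := fun s => {a | (Sum.inr a, Sum.inr a) ∈ s}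
  refine ⟨φ '' T, ?_, ⟨univ, hT.top, rfl⟩, ?_, ?_⟩
  · rintro _ ⟨s, hs, rfl⟩ _ ⟨t, ht, rfl⟩
    rcases hT.lam s hs t ht with h | h | h
    · exact Or.inl fun _ k => h k
    · exact Or.inr (Or.inl fun _ k => h k)
    · exact Or.inr (Or.inr (disjoint_left.2 fun _ k l => disjoint_left.1 h k l))
  · have key : ∀ n, ∀ s ∈ T, s.ncard = n → (φ s).Nontrivial → ∃ l ∈ φ '' T,
        l ⊆ φ s ∧ l.Nonempty ∧ (φ s \ l).Nonempty ∧ φ s \ l ∈ φ '' T := by
      intro n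
      induction n using Nat.strong_induction_on with
      | _ n ih =>
        intro s hs hn h
        have h' : s.Nontrivial := by
          obtain ⟨a, ha, b, hb, c⟩ := h
          exact ⟨_, ha, _, hb, fun k => c (Sum.inr_injective (congrArg Prod.fst k))⟩
        obtain ⟨l, hl, a1, ⟨x, hx⟩, ⟨y, hy⟩, a4⟩ := hT.split s hs h'
        have b1 : l.ncard < n :=
          hn ▸ ncard_lt_ncard ⟨a1, fun k => hy.2 (k hy.1)⟩ (toFinite s)
        have b2 : (s \ l).ncard < n :=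
          hn ▸ ncard_lt_ncard ⟨sdiff_subset, fun k => (k (a1 hx)).2 hx⟩ (toFinite s)
        by_cases c1 : (φ l).Nonempty
        · by_cases c2 : (φ s \ φ l).Nonempty
          · exact ⟨φ l, ⟨l, hl, rfl⟩, fun _ k => a1 k, c1, c2, s \ l, a4, rfl⟩
          · have e : φ s = φ l :=
              subset_antisymm (fun a k => not_not.1 fun m => c2 ⟨a, k, m⟩) fun _ k => a1 k
            rw [e] at h ⊢
            exact ih _ b1 l hl rfl h
        · have e : φ s = φ (s \ l) :=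
            subset_antisymm (fun a k => ⟨k, fun m => c1 ⟨a, m⟩⟩) fun _ k => k.1
          rw [e] at h ⊢
          exact ih _ b2 _ a4 rfl h
    rintro _ ⟨s, hs, rfl⟩
    exact key _ s hs rfl
  · rintro _ ⟨s, hs, rfl⟩
    let N : ν ⊕ ε → Set ν := Sum.elim (fun v => {v}) inc
    have h1 : ∀ x, (N x).ncard ≤ r + 1 := by
      rintro (v | a)
      · exact (ncard_singleton v).trans_le (Nat.le_add_left 1 r)
      · exact (hr a).trans (Nat.le_succ r)
    refine le_trans (ncard_le_ncard ?_ (toFinite _))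
      ((ncard_biUnion_le_mul (toFinite (pl.bd (ig inc) s)) N _ h1).trans
        (Nat.mul_le_mul_right _ (hT.wid s hs)))
    rintro v ⟨⟨a, ha, ka⟩, b, hb, kb⟩
    have e : ∀ a, v ∈ inc a → (ig inc).Adj (Sum.inl v) (Sum.inr a) :=
      fun a k => ⟨v, a, k, Or.inl ⟨rfl, rfl⟩⟩
    by_cases c1 : (Sum.inl v, Sum.inr a) ∈ s
    · by_cases c2 : (Sum.inl v, Sum.inr b) ∈ s
      · exact mem_biUnion (x := Sum.inr b)
          ⟨⟨_, c2, Or.inr rfl, Or.inr (e b kb)⟩, _, hb, pl.inc_self _⟩ kb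
      · exact mem_biUnion (x := Sum.inl v)
          ⟨⟨_, c1, Or.inl rfl, Or.inr (e a ka)⟩, _, c2, Or.inl rfl, Or.inr (e b kb)⟩ rfl
    · exact mem_biUnion (x := Sum.inr a)
        ⟨⟨_, ha, pl.inc_self _⟩, _, c1, Or.inr rfl, Or.inr (e a ka)⟩ ka

section grid

variable {ε ν : Type} {inc : ε → Set ν}

/-- the side of a vertex of the incidence graph -/
def gside (inc : ε → Set ν) (U : Set ε) : ν ⊕ ε → Prop :=
  Sum.elim (fun v => v ∈ hv inc U) fun a => a ∈ U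

theorem gside_link {U : Set ε} {S : Set (ν ⊕ ε)} (hS : ∀ v, Sum.inl v ∈ S → v ∉ hbd inc U)
    {x y : ν ⊕ ε} (h : Link (ig inc) S x y) : gside inc U x ↔ gside inc U y := by
  have e : ∀ v a, v ∈ inc a → Sum.inl v ∈ S →
      (gside inc U (Sum.inl v) ↔ gside inc U (Sum.inr a)) := fun v a k l =>
    ⟨fun m => not_not.1 fun n => hS v l ⟨m, a, n, k⟩, fun m => ⟨a, m, k⟩⟩
  induction h with
  | refl => exact Iff.rfl
  | tail _ h2 ih =>
    obtain ⟨h3, h4, v, a, k, ⟨rfl, rfl⟩ | ⟨rfl, rfl⟩⟩ := h2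
    · exact ih.trans (e v a k h3)
    · exact ih.trans (e v a k h4).symm

theorem touch_atom {S T : Set (ν ⊕ ε)} (h : fb.Touch (ig inc) S T) :
    ∃ a, Sum.inr a ∈ S ∨ Sum.inr a ∈ T := by
  obtain ⟨_, hx, _, hy, v, a, -, ⟨rfl, rfl⟩ | ⟨rfl, rfl⟩⟩ := h
  exacts [⟨a, Or.inr hy⟩, ⟨a, Or.inl hx⟩]

theorem conn_line {V : Type} {G : SimpleGraph V} {g : ℕ} (hg : 0 < g) {L : Fin g → Set V}
    (h : ∀ i, Conn G (L i)) (h' : ∀ i j : Fin g, i.1 + 1 = j.1 → fb.Touch G (L i) (L j)) :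
    Conn G (⋃ i, L i) := by
  rw [← biUnion_univ]
  refine fb.conn_biUnion (i0 := ⟨0, hg⟩) trivial (fun i _ => h i) ?_
  rintro ⟨n, hn⟩ -
  induction n with
  | zero => exact Relation.ReflTransGen.refl
  | succ n ih => exact (ih (by omega)).tail ⟨trivial, trivial, Or.inr (h' _ _ rfl)⟩

theorem miss_line {g : ℕ} {R : Fin g → Set (ν ⊕ ε)} (hR : ∀ i j x, x ∈ R i → x ∈ R j → i = j)
    {X : Set ν} (hX : X.Finite) (h : X.ncard < g) : ∃ i, ∀ v, Sum.inl v ∈ R i → v ∉ X := by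
  by_contra c
  push Not at c
  choose v h1 h2 using c
  have h3 := ncard_le_ncard_of_injOn (s := (univ : Set (Fin g))) v (fun i _ => h2 i)
    (fun i _ j _ k => hR i j _ (h1 i) (k ▸ h1 j)) hX
  rw [ncard_univ, Nat.card_eq_fintype_card, Fintype.card_fin] at h3
  omega

end grid

theorem gridTgS : GridTgS := by
  intro ε ν _ inc g c B hi hc hg ⟨_, hB, hd, ha⟩
  have dj : ∀ p q x, x ∈ B p → x ∈ B q → p = q := fun p q x k l =>
    not_not.1 fun m => disjoint_left.1 (hd p q m) k l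
  have tr : ∀ i j j' : Fin g, j.1 + 1 = j'.1 → fb.Touch (ig inc) (B (i, j)) (B (i, j')) :=
    fun i j j' k => ha _ _ (Or.inl ⟨rfl, Or.inl k⟩)
  have tc : ∀ j i i' : Fin g, i.1 + 1 = i'.1 → fb.Touch (ig inc) (B (i, j)) (B (i', j)) :=
    fun j i i' k => ha _ _ (Or.inr ⟨rfl, Or.inl k⟩)
  have cr : ∀ i, Conn (ig inc) (⋃ j, B (i, j)) := fun i =>
    conn_line (by omega) (fun j => hB _) (tr i)
  have cc : ∀ j, Conn (ig inc) (⋃ i, B (i, j)) := fun j =>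
    conn_line (by omega) (fun i => hB _) (tc j)
  have ar : ∀ i, ∃ a, Sum.inr a ∈ ⋃ j, B (i, j) := fun i => by
    obtain ⟨a, k | k⟩ := touch_atom (tr i ⟨0, by omega⟩ ⟨1, by omega⟩ rfl) <;>
      exact ⟨a, mem_iUnion.2 ⟨_, k⟩⟩
  have ac : ∀ j, ∃ a, Sum.inr a ∈ ⋃ i, B (i, j) := fun j => by
    obtain ⟨a, k | k⟩ := touch_atom (tc j ⟨0, by omega⟩ ⟨1, by omega⟩ rfl) <;>
      exact ⟨a, mem_iUnion.2 ⟨_, k⟩⟩
  have off : ∀ U, OffRow B U → ∀ j, (∀ v, Sum.inl v ∈ ⋃ i, B (i, j) → v ∉ hbd inc U) →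
      ∀ a, Sum.inr a ∈ ⋃ i, B (i, j) → a ∉ U := by
    rintro U ⟨i, h⟩ j hj a k l
    obtain ⟨x, hx⟩ := (hB (i, j)).1
    have hx' : x ∈ ⋃ i, B (i, j) := mem_iUnion.2 ⟨i, hx⟩
    have m := (gside_link hj ((cc j).2 _ k x hx')).1 l
    rcases x with v | b
    · obtain ⟨b, hb⟩ := ar i
      rcases ((cr i).2 _ (mem_iUnion.2 ⟨j, hx⟩) _ hb).cases_head with n | ⟨y, ⟨-, n, o⟩, -⟩
      · cases n
      · obtain ⟨w, d, o, ⟨p, rfl⟩ | ⟨-, p⟩⟩ := o
        · cases p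
          obtain ⟨j', n⟩ := mem_iUnion.1 n
          exact hj v hx' ⟨m, d, h j' d n, o⟩
        · cases p
    · exact h j b hx m
  refine ⟨⟨{U | hf inc U < c ∧ OffRow B U}, fun _ k => k.1, fun U k => ?_, ?_, ?_⟩,
    fun _ => Iff.rfl⟩
  · obtain ⟨i, h⟩ := miss_line (R := fun i => ⋃ j, B (i, j)) (fun i i' x k l => by
      obtain ⟨j, k⟩ := mem_iUnion.1 k
      obtain ⟨j', l⟩ := mem_iUnion.1 l
      exact congrArg Prod.fst (dj _ _ x k l)) (hbd_fin hi U) (show hf inc U < g by omega)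
    by_cases e : ∃ j a, Sum.inr a ∈ B (i, j) ∧ a ∈ U
    · obtain ⟨j, a, k1, k2⟩ := e
      refine Or.inr ⟨by rwa [(hf_sym hi).cpl], i, fun j' b l m => m ?_⟩
      exact (gside_link h ((cr i).2 _ (mem_iUnion.2 ⟨j, k1⟩) _ (mem_iUnion.2 ⟨j', l⟩))).1 k2
    · exact Or.inl ⟨k, i, fun j a l m => e ⟨j, a, l, m⟩⟩
  · rintro X ⟨x1, x2⟩ Y ⟨y1, y2⟩ Z ⟨z1, z2⟩ e
    have n : (hbd inc X ∪ hbd inc Y ∪ hbd inc Z).ncard < g := by
      have h1 := ncard_union_le (hbd inc X ∪ hbd inc Y) (hbd inc Z)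
      have h2 := ncard_union_le (hbd inc X) (hbd inc Y)
      unfold hf at x1 y1 z1
      omega
    obtain ⟨j, h⟩ := miss_line (R := fun j => ⋃ i, B (i, j)) (fun j j' x k l => by
      obtain ⟨i, k⟩ := mem_iUnion.1 k
      obtain ⟨i', l⟩ := mem_iUnion.1 l
      exact congrArg Prod.snd (dj _ _ x k l))
      (((hbd_fin hi X).union (hbd_fin hi Y)).union (hbd_fin hi Z)) n
    obtain ⟨a, k⟩ := ac j
    rcases (e ▸ mem_univ a : a ∈ X ∪ Y ∪ Z) with (l | l) | l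
    · exact off X x2 j (fun v m o => h v m (Or.inl (Or.inl o))) a k l
    · exact off Y y2 j (fun v m o => h v m (Or.inl (Or.inr o))) a k l
    · exact off Z z2 j (fun v m o => h v m (Or.inr o)) a k l
  · rintro a ⟨-, i, h⟩
    have e : ∀ j b, Sum.inr b ∈ B (i, j) → Sum.inr a ∈ B (i, j) := fun j b k =>
      (show b = a from not_not.1 (h j b k)) ▸ k
    obtain ⟨b, k⟩ := touch_atom (tr i ⟨0, by omega⟩ ⟨1, by omega⟩ rfl)
    obtain ⟨d, l⟩ := touch_atom (tr i ⟨2, by omega⟩ ⟨3, by omega⟩ rfl)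
    rcases k with k | k <;> rcases l with l | l <;>
      exact absurd (congrArg (fun p => p.2.1) (dj _ _ _ (e _ _ k) (e _ _ l))) (by simp)

end Pool.Agent.MP_9d78a0_co.gm

end MrgPart6

-- marker of a merged file
example : 731051 + 585951 = 731051 + 585951 := rfl
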