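import Pool.Agent.MP_9d78a0_co.gm.CPot

/-! Extension of potentials and of orientations. -/

set_option autoImplicit false

namespace Pool.Agent.MP_9d78a0_co.gm

open Set Function Relation Cy

namespace FM

variable {Φ V : Type} {M : FM Φ} {P Q U C : Set Φ} {x y : Φ} {vx : Φ → V}

theorem Ok.ia0 (h : M.Ok) : Inv0 M.S M.a := h.ia.inv0
theorem Ok.ib0 (h : M.Ok) : Inv0 M.S M.b := h.ib.inv0
theorem Ok.ic0 (h : M.Ok) : Inv0 M.S M.c := h.ic.inv0

theorem Ok.vo_mem (h : M.Ok) (hx : x ∈ M.S) (hy : y ∈ M.vo x) : y ∈ M.S :=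
  orb_mem h.ib0 h.ic0 hx hy
theorem Ok.fo_mem (h : M.Ok) (hx : x ∈ M.S) (hy : y ∈ M.fo x) : y ∈ M.S :=
  orb_mem h.ia0 h.ib0 hx hy
theorem Ok.eo_mem (h : M.Ok) (hx : x ∈ M.S) (hy : y ∈ M.eo x) : y ∈ M.S :=
  orb_mem h.ia0 h.ic0 hx hy
theorem Ok.vo_symm (h : M.Ok) (hx : x ∈ M.S) (hy : y ∈ M.vo x) : x ∈ M.vo y :=
  orb_symm h.ib0 h.ic0 hx hy
theorem Ok.fo_symm (h : M.Ok) (hx : x ∈ M.S) (hy : y ∈ M.fo x) : x ∈ M.fo y :=
  orb_symm h.ia0 h.ib0 hx hy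
theorem Ok.vo_eq (h : M.Ok) (hx : x ∈ M.S) (hy : y ∈ M.vo x) : M.vo y = M.vo x :=
  orb_eq h.ib0 h.ic0 hx hy
theorem Ok.fo_eq (h : M.Ok) (hx : x ∈ M.S) (hy : y ∈ M.fo x) : M.fo y = M.fo x :=
  orb_eq h.ia0 h.ib0 hx hy
theorem Ok.eo_eq (h : M.Ok) (hx : x ∈ M.S) (hy : y ∈ M.eo x) : M.eo y = M.eo x :=
  orb_eq h.ia0 h.ic0 hx hy

theorem Lbl.of_vo (h : M.Lbl vx) (hM : M.Ok) (hx : x ∈ M.S) (hy : y ∈ M.vo x) : vx y = vx x :=
  ((h x hx y (hM.vo_mem hx hy)).2 hy).symm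
theorem Lbl.b (h : M.Lbl vx) (hM : M.Ok) (hx : x ∈ M.S) : vx (M.b x) = vx x :=
  h.of_vo hM hx (orb_p (orb_self ..))
theorem Lbl.c (h : M.Lbl vx) (hM : M.Ok) (hx : x ∈ M.S) : vx (M.c x) = vx x :=
  h.of_vo hM hx (orb_q (orb_self ..))
theorem Lbl.ac (h : M.Lbl vx) (hM : M.Ok) (hx : x ∈ M.S) : vx (M.a (M.c x)) = vx (M.a x) := by
  rw [hM.comm hx, h.c hM (hM.a_mem hx)]

theorem sat_sub (hM : M.Ok) (hU : U ⊆ M.S) : M.sat U ⊆ M.S := fun _ ⟨_, hg, k⟩ =>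
  hM.vo_mem (hU hg) k
theorem sub_sat : U ⊆ M.sat U := fun x hx => ⟨x, hx, orb_self ..⟩
theorem sat_b (hx : x ∈ M.sat U) : M.b x ∈ M.sat U := let ⟨g, hg, k⟩ := hx; ⟨g, hg, orb_p k⟩
theorem sat_c (hx : x ∈ M.sat U) : M.c x ∈ M.sat U := let ⟨g, hg, k⟩ := hx; ⟨g, hg, orb_q k⟩

/-- a flag at a vertex of `U` lies in a corner of `U` -/
theorem sat_R (hU : M.Es U) (hx : x ∈ M.sat U) : ∃ w ∈ U, M.R ∅ Uᶜ w x := by
  obtain ⟨g, hg, k⟩ := hx
  refine orb_ind (P := fun x => ∃ w ∈ U, M.R ∅ Uᶜ w x) k ⟨g, hg, .rfl⟩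
    (fun z ⟨w, hw, h⟩ => ⟨w, hw, h.b⟩) fun z ⟨w, hw, h⟩ => ?_
  by_cases hz : z ∈ U
  exacts [⟨_, (hU.2 z hz).2, .rfl⟩, ⟨w, hw, h.c hz⟩]

/-- functions that respect the classes extend -/
theorem R_ext {A : Type} (hM : M.Ok) (hP : M.Cl P) (hQ : M.Cl Q) (hU : U ⊆ M.S) (φ : Φ → A)
    (hφ : ∀ x ∈ U, ∀ y ∈ U, M.R P Q x y → φ y = φ x) (d : A) :
    ∃ φ' : Φ → A, (∀ w ∈ U, ∀ x, M.R P Q w x → φ' x = φ w) ∧
      (∀ x, (∀ w ∈ U, ¬ M.R P Q w x) → φ' x = d) ∧ ∀ x ∈ M.S, ∀ y, M.R P Q x y → φ' y = φ' x := by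
  classical
  let φ' : Φ → A := fun x => if h : ∃ w ∈ U, M.R P Q w x then φ h.choose else d
  have k1 : ∀ w ∈ U, ∀ x, M.R P Q w x → φ' x = φ w := fun w hw x hx => by
    have h : ∃ w ∈ U, M.R P Q w x := ⟨w, hw, hx⟩
    exact (show φ' x = φ h.choose from dif_pos h).trans (hφ w hw _ h.choose_spec.1
      (hx.trans (h.choose_spec.2.symm hM hP hQ (hU h.choose_spec.1))))
  have k0 : ∀ x, (∀ w ∈ U, ¬ M.R P Q w x) → φ' x = d := fun x h =>
    dif_neg fun ⟨w, hw, k⟩ => h w hw k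
  refine ⟨φ', k1, k0, fun x hx y hy => ?_⟩
  by_cases h : ∃ w ∈ U, M.R P Q w x
  · obtain ⟨w, hw, h⟩ := h
    rw [k1 w hw x h, k1 w hw y (h.trans hy)]
  · rw [k0 x fun w hw k => h ⟨w, hw, k⟩,
      k0 y fun w hw k => h ⟨w, hw, k.trans (hy.symm hM hP hQ hx)⟩]

/-- alternating functions alternate along the corners of a minor -/
theorem minor_b_alt {A : Type} (hM : M.Ok) (hU : M.Es U) (hC : M.Cl C) {φ : Φ → A} {n : A → A}
    (hn : ∀ u, n (n u) = u) (hb : ∀ x ∈ M.S, φ (M.b x) = n (φ x))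
    (hs : ∀ x ∈ M.S, φ (M.sgm C x) = n (φ x)) (hx : x ∈ U) : φ ((M.minor U C).b x) = n (φ x) := by
  obtain ⟨j, e, -⟩ := minor_spec hM hU hC hx
  have hS : ∀ z ∈ M.S, M.sgm C z ∈ M.S := fun z hz => by
    unfold sgm; split_ifs; exacts [hM.a_mem hz, hM.c_mem hz]
  have key : ∀ i, (fun x => M.b (M.sgm C x))^[i] (M.b x) ∈ M.S ∧
      φ ((fun x => M.b (M.sgm C x))^[i] (M.b x)) = n (φ x) := fun i => by
    induction i with
    | zero => exact ⟨hM.b_mem (hU.1 hx), hb x (hU.1 hx)⟩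
    | succ i ih =>
      rw [iterate_succ_apply']
      exact ⟨hM.b_mem (hS _ ih.1), by rw [hb _ (hS _ ih.1), hs _ ih.1, hn, ih.2]⟩
  rw [e, (key j).2]

theorem one_c (hM : M.Ok) (hx : x ∈ M.S) (hy : y ∈ M.S) :
    one M.a (M.c x) (M.c y) = one M.a x y := by
  have h1 := hM.cc hx
  have h2 := hM.cc hy
  have h3 := hM.comm hx
  have h4 := hM.cc (hM.a_mem hx)
  unfold one
  congr 1
  exact propext ⟨fun h => by grind, fun h => by grind⟩

/-- a function on the edges is even on the edges -/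
theorem ev_edge (hM : M.Ok) {β : Φ → ZMod 2} (hβ : M.Ech β) (hx : x ∈ M.S) :
    Ev M.a M.c β 0 x := by
  have e : ∀ y ∈ M.eo x, β y = β x := fun y hy =>
    (orb_ind (P := fun y => y ∈ M.S ∧ β y = β x) hy ⟨hx, rfl⟩
      (fun z k => ⟨hM.a_mem k.1, (hβ z k.1).1.trans k.2⟩)
      fun z k => ⟨hM.c_mem k.1, (hβ z k.1).2.trans k.2⟩).2
  refine ⟨fun y => β x * one M.c x y, fun y hy => ?_, fun y hy => ?_⟩
  · have h1 := hM.aa hx
    have h2 := hM.aa (hM.c_mem hx)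
    have h3 := hM.a_ne hx
    have h4 := hM.a_ne_c hx
    have h5 := hM.ac_ne hx
    have h6 := hM.a_ne (hM.c_mem hx)
    rw [e y hy]
    rcases (mem_eo hM hx).1 hy with rfl | rfl | rfl | rfl <;>
      simp [one, h1, h2, h3, h4, h5, h6, z2_add_self]
  · simp only [one_sym hM.ic0 hx (hM.eo_mem hx hy), Pi.zero_apply, add_zero]

end FM

open FM

theorem extS (hG : GhostS) (hR : RegS) (hS : SphereS) : ExtS := by
  classical
  intro Φ M U oa ob oc χ0 hM hU hc he h1 h2 h3 p1 p2 p3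
  have hU' : M.Es (M.S \ U) := (hU.cl.compl hM).es hM
  obtain ⟨g0, hreg⟩ := hR Φ M U hM hU hc he
  have gk := ((hG Φ M hM).2.2 _ U hU' hU).1
  set N := M.gh (M.S \ U) U with hN
  have na : ∀ x ∈ M.S, N.a x = M.a x := fun x hx =>
    if_pos (by by_cases k : x ∈ U; exacts [Or.inr k, Or.inl ⟨hx, k⟩])
  have n1 : ∀ x ∈ U, N.c x = M.a x := fun x hx => if_pos ⟨fun k => k.2 hx, hx⟩
  have n2 : ∀ x ∉ U, N.c x = M.c x := fun x hx => if_neg fun k => hx k.2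
  let oc' : Φ → ZMod 2 := fun x => if x ∈ U then oa x else oc x
  have o1 : ∀ x ∈ U, oc' x = oa x := fun x hx => if_pos hx
  have o2 : ∀ x ∉ U, oc' x = oc x := fun x hx => if_neg hx
  have sS := sat_sub hM hU.1
  have v1 : ∀ f ∈ M.sat U, Ev N.b N.c ob oc' f := fun f hf =>
    ev_of_pot (S := M.sat U) (fun x hx => ⟨sat_b hx, hM.bb (sS hx)⟩)
      (fun x hx => ⟨by
        by_cases k : x ∈ U
        · rw [n1 x k]; exact sub_sat (hU.2 x k).1
        · rw [n2 x k]; exact sat_c hx, (gk.ic x (sS hx)).2.1⟩) p2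
      (fun x hx => by
        by_cases k : x ∈ U
        · rw [n1 x k, o1 x k, p1 x k]
        · rw [n2 x k, o2 x k, p3 x hx]) hf
  have v2 : ∀ f ∈ M.S, f ∉ M.sat U → ∀ y ∈ orb M.b M.c f, y ∉ U := fun f hf k y hy k1 =>
    k ⟨y, k1, hM.vo_symm hf hy⟩
  obtain ⟨χ, c1, c2, c3⟩ := hS Φ N oa ob oc' gk g0 (fun f hf => by
      by_cases k : f ∈ U
      · exact ev_of_pot (S := U) (χ := χ0)
          (fun x hx => ⟨by rw [na x (hU.1 hx)]; exact (hU.2 x hx).1, (gk.ia x (hU.1 hx)).2.1⟩)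
          (fun x hx => ⟨by rw [n1 x hx]; exact (hU.2 x hx).1, (gk.ic x (hU.1 hx)).2.1⟩)
          (fun x hx => by rw [na x (hU.1 hx), p1 x hx])
          (fun x hx => by rw [n1 x hx, o1 x hx, p1 x hx]) k
      · refine (h1 f hf).congr fun y hy => ?_
        have k1 : y ∈ M.S \ U := orb_mem (S := M.S \ U) (fun x hx => ⟨(hU'.2 x hx).1, hM.aa hx.1⟩)
          (fun x hx => ⟨(hU'.2 x hx).2, hM.cc hx.1⟩) ⟨hf, k⟩ hy
        exact ⟨na y k1.1, n2 y k1.2, rfl, o2 y k1.2⟩)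
    (fun f hf => (h2 f hf).congr fun y hy => ⟨na y (hM.fo_mem hf hy), rfl, rfl, rfl⟩)
    fun f hf g hg => by
      have k : M.R univ Uᶜ f g ∧ g ∈ M.S := by
        refine (mem_co.1 hg).ind0 (p := fun g => M.R univ Uᶜ f g ∧ g ∈ M.S) ⟨.rfl, hf⟩
          (fun z k => ⟨k.1.b, hM.b_mem k.2⟩)
          (fun z _ k => by rw [na z k.2]; exact ⟨k.1.a trivial, hM.a_mem k.2⟩) fun z _ k => ?_
        by_cases k1 : z ∈ U
        · rw [n1 z k1]; exact ⟨k.1.a trivial, hM.a_mem k.2⟩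
        · rw [n2 z k1]; exact ⟨k.1.c k1, hM.c_mem k.2⟩
      by_cases k1 : f ∈ M.sat U
      · exact Or.inl (v1 f k1)
      by_cases k2 : g ∈ M.sat U
      · exact Or.inr (Or.inl (v1 g k2))
      rcases h3 f hf g (mem_reg.2 k.1) with k3 | k3 | k3
      · exact Or.inl (k3.congr fun y hy => ⟨rfl, n2 y (v2 f hf k1 y hy), rfl, o2 y (v2 f hf k1 y hy)⟩)
      · exact Or.inr (Or.inl
          (k3.congr fun y hy => ⟨rfl, n2 y (v2 g k.2 k2 y hy), rfl, o2 y (v2 g k.2 k2 y hy)⟩))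
      · exact Or.inr (Or.inr ((orb_congr (p := M.b) (q := M.c) (p' := N.b) (q' := N.c)
          fun y hy => ⟨rfl, n2 y (v2 f hf k1 y hy)⟩).ge k3))
  have c1' : Pot M.S M.a oa χ := fun x hx => na x hx ▸ c1 x hx
  have c2' : Pot M.S M.b ob χ := c2
  have c3' : ∀ x ∈ M.S, x ∉ U → χ (M.c x) = χ x + oc x := fun x hx k => by
    rw [← n2 x k, c3 x hx, o2 x k]
  have z4 : ∀ a b o : ZMod 2, a + o + (b + o) = a + b := by decide
  have d1 : ∀ w ∈ U, ∀ x, M.R ∅ Uᶜ w x → (χ + χ0) x = (χ + χ0) w := fun w hw x hx =>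
    (hx.ind0 (p := fun x => x ∈ M.sat U ∧ (χ + χ0) x = (χ + χ0) w) ⟨sub_sat hw, rfl⟩
      (fun z k => ⟨sat_b k.1, by rw [← k.2, Pi.add_apply, c2' z (sS k.1), p2 z k.1, z4]; rfl⟩)
      (fun _ k => k.elim)
      fun z k1 k => ⟨sat_c k.1, by rw [← k.2, Pi.add_apply, c3' z (sS k.1) k1, p3 z k.1, z4]; rfl⟩).2
  obtain ⟨d, e1, -, e2⟩ := R_ext (P := univ) (Q := Uᶜ) hM cl_univ (hU.cl.compl hM) hU.1 (χ + χ0)
    (fun x hx y hy k => (mem_fo.1 (hreg x hx ▸ ⟨mem_reg.2 k, hy⟩)).eq (hM.sub hU) hx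
      (fun z hz => d1 z hz _ (sub_b_R hM hU hz))
      (fun z hz _ => by rw [sub_a, Pi.add_apply, c1' z (hU.1 hz), p1 z hz, z4]; rfl)
      fun _ _ k => k.elim) 0
  have e3 : ∀ x ∈ M.sat U, (χ + d) x = χ0 x := fun x hx => by
    obtain ⟨w, hw, k⟩ := sat_R hU hx
    rw [Pi.add_apply, e1 w hw x (k.mono (empty_subset _) subset_rfl), ← d1 w hw x k, Pi.add_apply,
      ← add_assoc, z2_add_self, zero_add]
  refine ⟨χ + d, fun x hx => ?_, fun x hx => ?_, fun x hx => ?_, e3⟩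
  · simp only [Pi.add_apply, c1' x hx, e2 x hx _ (R.rfl.a trivial)]; ring
  · simp only [Pi.add_apply, c2' x hx, e2 x hx _ R.rfl.b]; ring
  · by_cases k : x ∈ U
    · rw [e3 _ (sub_sat (hU.2 x k).2), e3 _ (sub_sat k), p3 x (sub_sat k)]
    · simp only [Pi.add_apply, c3' x hx k, e2 x hx _ (R.rfl.c k)]; ring

theorem ext1S (hE : ExtS) : Ext1S := by
  classical
  intro Φ V M vx H U β ψ0 hM hL hU hc he hd hH hβ hf h0
  let q : Φ → Φ := fun x => if vx x ∈ H then x else M.b x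
  have q1 : ∀ x, vx x ∈ H → q x = x := fun x k => if_pos k
  have q2 : ∀ x, vx x ∉ H → q x = M.b x := fun x k => if_neg k
  have iq : Inv0 M.S q := fun x hx => by
    by_cases k : vx x ∈ H
    · rw [q1 x k, q1 x k]; exact ⟨hx, rfl⟩
    · rw [q2 x k, q2 _ (by rwa [hL.b hM hx])]; exact ⟨hM.b_mem hx, hM.bb hx⟩
  obtain ⟨χF, f1, f2⟩ := glue (op := β) (oq := 0) hM.ia0 iq subset_rfl fun y hy => by
    by_cases k : Disjoint (vx '' M.fo y) H
    · exact (hf y hy k).congr fun w hw =>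
        ⟨rfl, q2 w fun k1 => disjoint_left.1 k ⟨w, hw, rfl⟩ k1, rfl, rfl⟩
    · obtain ⟨_, ⟨z, hz, rfl⟩, k1⟩ := not_disjoint_iff.1 k
      have hzS := hM.fo_mem hy hz
      obtain ⟨χ, c1, c2⟩ := path_pot (op := β) (oq := 0) hM.fin hM.ia hM.ib hzS
        (fun w hw => (hβ w (hM.fo_mem hzS hw)).1) fun _ _ => rfl
      have hs : orb M.a q y ⊆ orb M.a M.b z := fun w hw =>
        orb_ind (P := (· ∈ orb M.a M.b z)) hw (hM.fo_symm hy hz) (fun _ => orb_p) fun w k => by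
          by_cases k2 : vx w ∈ H
          · rwa [q1 w k2]
          · rw [q2 w k2]; exact orb_q k
      refine ⟨χ, c1.mono hs, fun w hw => ?_⟩
      by_cases k2 : vx w ∈ H
      · simp [q1 w k2]
      · rw [q2 w k2]
        refine c2 w ⟨hs hw, ?_⟩
        rintro (rfl | rfl)
        exacts [k2 k1, k2 (by rwa [hL.b hM hzS])]
  have ob0 : ∀ x ∈ M.S, vx x ∉ H → χF (M.b x) + χF x = 0 := fun x hx k => by
    rw [← q2 x k, f2 x hx]; simp [z2_add_self]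
  have sS := sat_sub hM hU.1
  have sH : ∀ x ∈ M.sat U, vx x ∉ H := fun x ⟨g, hg, k⟩ k1 =>
    disjoint_left.1 hd k1 ⟨g, hg, (hL.of_vo hM (hU.1 hg) k).symm⟩
  have ev : ∀ f ∈ M.S, vx f ∉ H → Ev M.b M.c (fun x => χF (M.b x) + χF x) 0 f := fun f hf k =>
    ev_zero fun y hy => ⟨ob0 y (hM.vo_mem hf hy) (by rwa [hL.of_vo hM hf hy]), rfl⟩
  obtain ⟨χ, c1, c2, c3, c4⟩ := hE Φ M U β (fun x => χF (M.b x) + χF x) 0 (fun x => ψ0 (vx x))
    hM hU hc he (fun f hf => ev_edge hM hβ hf)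
    (fun f hf => ev_of_pot hM.ia0 hM.ib0 f1
      (fun x _ => by rw [add_comm (χF (M.b x)), ← add_assoc, z2_add_self, zero_add]) hf)
    (fun f hf g hg => by
      have hgS := (mem_reg.1 hg).mem hM hf
      by_cases k1 : vx f ∈ H
      · by_cases k2 : vx g ∈ H
        · exact Or.inr (Or.inr ((hL f hf g hgS).1 (hH f hf g hgS k1 k2 hg)))
        · exact Or.inr (Or.inl (ev g hgS k2))
      · exact Or.inl (ev f hf k1))
    (fun x hx => by simp only [h0 x hx, ← add_assoc, z2_add_self, zero_add])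
    (fun x hx => by simp only [hL.b hM (sS hx), ob0 x (sS hx) (sH x hx), add_zero])
    fun x hx => by simp only [hL.c hM (sS hx), Pi.zero_apply, add_zero]
  let ψ : V → ZMod 2 := fun v => if h : ∃ f ∈ M.S, vx f = v then χ h.choose else 0
  have e : ∀ f ∈ M.S, vx f ∉ H → ψ (vx f) = χ f := fun f hf k => by
    have h : ∃ g ∈ M.S, vx g = vx f := ⟨f, hf, rfl⟩
    refine (show ψ (vx f) = χ h.choose from dif_pos h).trans ?_
    exact (orb_ind (P := fun y => y ∈ M.vo f ∧ χ y = χ f)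
      ((hL f hf _ h.choose_spec.1).1 h.choose_spec.2.symm) ⟨orb_self .., rfl⟩
      (fun z k1 => ⟨orb_p k1.1, by
        simp only [c2 z (hM.vo_mem hf k1.1), add_zero, k1.2,
          ob0 z (hM.vo_mem hf k1.1) (by rwa [hL.of_vo hM hf k1.1])]⟩)
      fun z k1 => ⟨orb_q k1.1, by rw [c3 z (hM.vo_mem hf k1.1), Pi.zero_apply, add_zero, k1.2]⟩).2
  refine ⟨ψ, fun f hf => by rw [e f (hU.1 hf) (sH f (sub_sat hf)), c4 f (sub_sat hf)],
    fun f hf k1 k2 => ?_⟩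
  rw [e f hf k1, e _ (hM.a_mem hf) k2, c1 f hf, ← add_assoc, z2_add_self, zero_add]

theorem ext2S : Ext2S := by
  intro Φ M U β0 hM hU hβ h
  have hM' := hM.sub hU
  obtain ⟨χ, c1, c2⟩ := glue (op := β0) (oq := 0) hM'.ia0 hM'.ib0 subset_rfl h
  obtain ⟨χ', e1, -, e2⟩ := minor_ext hM hU cl_empty χ (fun x hx => (c2 x hx).trans (add_zero _)) 0
  have e3 : ∀ f ∈ U, χ' f + χ' (M.a f) = β0 f := fun f hf => by
    rw [e1 f hf, e1 _ (hU.2 f hf).1, show χ (M.a f) = _ from c1 f hf, ← add_assoc, z2_add_self,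
      zero_add]
  refine ⟨fun x => χ' x + χ' (M.a x), fun x hx => ⟨by simp only [hM.aa hx, add_comm], ?_⟩, e3,
    fun f hf => ev_of_pot (χ := χ') hM.ia0 hM.ib0
      (fun x _ => by rw [← add_assoc, z2_add_self, zero_add])
      (fun x hx => by simp [(e2 x hx).1]) hf⟩
  by_cases k : x ∈ U
  · exact (e3 _ (hU.2 x k).2).trans ((hβ x k).2.trans (e3 x k).symm)
  · simp only [hM.comm hx, (e2 x hx).2.2 ⟨k, id⟩,
      (e2 _ (hM.a_mem hx)).2.2 ⟨fun k1 => k ((hU.cl.a_iff hM hx).1 k1), id⟩]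

theorem dualWS : DualWS := by
  classical
  intro Φ M U p q hM hU hp hq hn
  obtain ⟨β, h1, h2, h3⟩ := (mem_reg.1 hq).ind (p := fun y => ∃ β, M.Ech β ∧ (∀ f ∈ U, β f = 0) ∧
      ∀ f ∈ M.S, par M.a M.b β 0 f = (if f ∈ M.fo p then 1 else 0) + if f ∈ M.fo y then 1 else 0)
    hM hp ⟨0, fun _ _ => ⟨rfl, rfl⟩, fun _ _ => rfl, fun f _ => by
      rw [z2_add_self]; exact par_eq_zero.2 (ev_zero fun _ _ => ⟨rfl, rfl⟩)⟩
    (fun z hz k => by rwa [hM.fo_eq hz (orb_q (orb_self ..))])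
    (fun z hz _ k => by rwa [hM.fo_eq hz (orb_p (orb_self ..))])
    fun z hz k ⟨β, h1, h2, h3⟩ => ⟨β + (one M.a z + one M.a (M.c z)), fun f hf => ⟨by
        simp only [Pi.add_apply, (h1 f hf).1, one_sym hM.ia0 hz hf,
          one_sym hM.ia0 (hM.c_mem hz) hf], by
        have := one_c hM (hM.c_mem hz) hf
        rw [hM.cc hz] at this
        simp only [Pi.add_apply, (h1 f hf).2, one_c hM hz hf, this, add_comm]⟩,
      fun f hf => by
        have k1 : M.c z ∉ U := fun k1 => k ((hU.cl.c_iff hM hz).1 k1)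
        have e1 : one M.a z f = 0 := if_neg (by
          rintro (rfl | rfl); exacts [k hf, k ((hU.cl.a_iff hM hz).1 hf)])
        have e2 : one M.a (M.c z) f = 0 := if_neg (by
          rintro (rfl | rfl); exacts [k1 hf, k1 ((hU.cl.a_iff hM (hM.c_mem hz)).1 hf)])
        simp [h2 f hf, e1, e2],
      fun f hf => by
        have s1 := fun y => one_sym (y := y) hM.ia0 hz
        have s2 := fun y => one_sym (y := y) hM.ia0 (hM.c_mem hz)
        have e1 := par_add (oq := 0) (oq' := 0) hM.fin hM.ia hM.ib hf s1 (fun _ _ => rfl) s2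
          fun _ _ => rfl
        have e2 := par_add (op' := one M.a z + one M.a (M.c z)) (oq := 0) (oq' := 0) hM.fin hM.ia
          hM.ib hf (fun y hy => (h1 y hy).1) (fun _ _ => rfl)
          (fun y hy => by simp only [Pi.add_apply, s1 y hy, s2 y hy]) fun _ _ => rfl
        rw [add_zero] at e1 e2
        rw [e2, e1, h3 f hf, par_one hM.fin hM.ia hM.ib hz hf,
          par_one hM.fin hM.ia hM.ib (hM.c_mem hz) hf, add_assoc, ← add_assoc (ite (f ∈ M.fo z) ..)]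
        congr 1
        exact (congrArg (· + _) (z2_add_self _)).trans (zero_add _)⟩
  have hqS := (mem_reg.1 hq).mem hM hp
  refine ⟨β, h1, h2, fun k => ?_, fun f hf k1 k2 => par_eq_zero.1 (by simp [h3 f hf, k1, k2])⟩
  have := h3 p hp
  rw [par_eq_zero.2 k, if_pos (show p ∈ M.fo p from orb_self ..),
    if_neg fun k => hn (hM.fo_symm hqS k)] at this
  simp at this

theorem oriS (hE : ExtS) : OriS := by
  classical
  intro Φ M hM
  refine ⟨fun U C o hU hC ho f hf => ⟨(ho f (hU.1 hf)).1, iff_of_eq ?_, (ho f (hU.1 hf)).2.2⟩,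
    fun U o hU hc he ho => ?_⟩
  · refine minor_b_alt (φ := o) (n := Not) hM hU hC.cl (fun u => propext not_not)
      (fun x hx => propext (ho x hx).2.1) (fun x hx => ?_) hf
    unfold sgm; split_ifs; exacts [propext (ho x hx).1, propext (ho x hx).2.2]
  let ω : Φ → ZMod 2 := fun x => if o x then 1 else 0
  have w : ∀ x y, (o y ↔ ¬ o x) → ω y = ω x + 1 := fun x y k => by
    by_cases k1 : o x <;> simp [ω, k, k1, z2_add_self]
  obtain ⟨χV, v1, v2⟩ := glue (op := 1) (oq := 1) hM.ib0 hM.ic0 subset_rfl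
    fun x hx => ev_one hM.fin hM.ib hM.ic hx
  have z4 : ∀ a b : ZMod 2, a + 1 + (b + 1) = a + b := by decide
  obtain ⟨δ, e1, -, e2⟩ := minor_ext hM hU cl_empty (ω + χV) (fun x hx => by
    rw [Pi.add_apply, w x ((M.minor U ∅).b x) (ho x hx).2.1, minor_b_alt (φ := χV) (n := (· + 1)) hM hU cl_empty
      (fun u => by simp [add_assoc, z2_add_self]) v1 (fun x hx => by simpa [sgm] using v2 x hx) hx,
      z4]; rfl) 0
  have e3 : ∀ x ∈ U, (δ + χV) x = ω x := fun x hx => by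
    simp [e1 x hx, add_assoc, z2_add_self]
  have sS := sat_sub hM hU.1
  obtain ⟨χ, c1, c2, c3, c4⟩ := hE Φ M U 1 1 1 (δ + χV) hM hU hc he
    (fun f hf => ev_one hM.fin hM.ia hM.ic hf) (fun f hf => ev_one hM.fin hM.ia hM.ib hf)
    (fun f hf _ _ => Or.inl (ev_one hM.fin hM.ib hM.ic hf))
    (fun x hx => by rw [e3 _ (hU.2 x hx).1, e3 x hx]; exact w x _ (ho x hx).1)
    (fun x hx => by simp only [Pi.add_apply, (e2 x (sS hx)).1, v1 x (sS hx), add_assoc])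
    fun x hx => by
      by_cases k : x ∈ U
      · rw [e3 _ (hU.2 x k).2, e3 x k]; exact w x _ (ho x k).2.2
      · simp only [Pi.add_apply, (e2 x (sS hx)).2.2 ⟨k, id⟩, v2 x (sS hx), add_assoc]
  have z1 : ∀ a : ZMod 2, a + 1 = 1 ↔ ¬ a = 1 := by decide
  refine ⟨fun x => χ x = 1, fun f hf => ⟨?_, ?_, ?_⟩, fun f hf => ?_⟩
  · simp only [c1 f hf]; exact z1 _
  · simp only [c2 f hf]; exact z1 _
  · simp only [c3 f hf]; exact z1 _
  · simp [c4 f (sub_sat hf), e3 f hf, ω]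

/-- classes with at least `k` points -/
theorem Cy.mul_orb_le {α : Type} {S A : Set α} {p q : α → α} (hS : S.Finite) (hp : Inv0 S p)
    (hq : Inv0 S q) (hA : A ⊆ S) {k : ℕ} (h : ∀ f ∈ A, ∃ l : List α, l.Nodup ∧ l.length = k ∧
      ∀ x ∈ l, x ∈ A ∧ x ∈ orb p q f) : k * (orb p q '' A).ncard ≤ A.ncard := by
  classical
  lift A to Finset α using hS.subset hA
  rw [← Finset.coe_image, ncard_coe_finset, ncard_coe_finset]
  refine Finset.mul_card_image_le_card _ _ fun K hK => ?_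
  obtain ⟨f, hf, rfl⟩ := Finset.mem_image.1 hK
  obtain ⟨l, h1, rfl, h2⟩ := h f hf
  rw [← List.toFinset_card_of_nodup h1]
  exact Finset.card_le_card fun x hx => Finset.mem_filter.2
    ⟨(h2 x (List.mem_toFinset.1 hx)).1, orb_eq hp hq (hA hf) (h2 x (List.mem_toFinset.1 hx)).2⟩

theorem FM.ncard_le_edges {Φ : Type} {M : FM Φ} (hM : M.Ok) :
    M.S.ncard ≤ 4 * (M.eo '' M.S).ncard := by
  classical
  obtain ⟨A, hA⟩ := hM.fin.exists_finset_coe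
  rw [← hA, ← Finset.coe_image, ncard_coe_finset, ncard_coe_finset]
  refine Finset.card_le_mul_card_image _ _ fun K hK => ?_
  obtain ⟨f, hf, rfl⟩ := Finset.mem_image.1 hK
  refine le_trans (Finset.card_le_card fun x hx => ?_)
    (Finset.card_le_four (a := f) (b := M.a f) (c := M.c f) (d := M.a (M.c f)))
  simpa using (mem_eo hM (hA ▸ hf)).1 ((Finset.mem_filter.1 hx).2 ▸ orb_self ..)

theorem bouqS : BouqS := by
  intro Φ M hM h
  rcases M.S.eq_empty_or_nonempty with e | ⟨f0, h0⟩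
  · simp [eg, e]
  have v1 : M.vo '' M.S = {M.vo f0} :=
    Nonempty.image_const ⟨f0, h0⟩ (M.vo f0) ▸ image_congr fun f hf => hM.vo_eq h0 (h f0 h0 f hf)
  have c1 : 0 < (M.co '' M.S).ncard := (ncard_pos (hM.fin.image _)).2 ⟨_, f0, h0, rfl⟩
  set A := {f | f ∈ M.S ∧ M.a (M.b f) = f}
  set B := {f | f ∈ M.S ∧ M.a (M.b f) ≠ f ∧ M.a (M.b (M.a (M.b f))) = f}
  set C := {f | f ∈ M.S ∧ M.a (M.b f) ≠ f ∧ M.a (M.b (M.a (M.b f))) ≠ f}
  have a1 := hM.ia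
  have b1 := hM.ib
  unfold Inv at a1 b1
  have cl : ∀ f ∈ M.S, (M.a (M.b (M.a f)) = M.a f ↔ M.a (M.b f) = f) ∧
      (M.a (M.b (M.b f)) = M.b f ↔ M.a (M.b f) = f) ∧
      (M.a (M.b (M.a (M.b (M.a f)))) = M.a f ↔ M.a (M.b (M.a (M.b f))) = f) ∧
      (M.a (M.b (M.a (M.b (M.b f)))) = M.b f ↔ M.a (M.b (M.a (M.b f))) = f) := fun f hf => by
    have := a1 f hf
    have := b1 f hf
    have := a1 _ (b1 f hf).1
    have := b1 _ (a1 f hf).1
    have := b1 _ (a1 _ (b1 f hf).1).1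
    have := a1 _ (b1 _ (a1 f hf).1).1
    have := a1 _ (b1 _ (a1 _ (b1 f hf).1).1).1
    have := b1 _ (a1 _ (b1 _ (a1 f hf).1).1).1
    refine ⟨⟨?_, ?_⟩, ⟨?_, ?_⟩, ⟨?_, ?_⟩, ⟨?_, ?_⟩⟩ <;> grind
  have Aa : ∀ f ∈ A, M.a f ∈ A := fun f k => ⟨(a1 f k.1).1, (cl f k.1).1.2 k.2⟩
  have Ba : ∀ f ∈ B, M.a f ∈ B := fun f k =>
    ⟨(a1 f k.1).1, (cl f k.1).1.not.2 k.2.1, (cl f k.1).2.2.1.2 k.2.2⟩
  have Bb : ∀ f ∈ B, M.b f ∈ B := fun f k =>
    ⟨(b1 f k.1).1, (cl f k.1).2.1.not.2 k.2.1, (cl f k.1).2.2.2.2 k.2.2⟩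
  have Ca : ∀ f ∈ C, M.a f ∈ C := fun f k =>
    ⟨(a1 f k.1).1, (cl f k.1).1.not.2 k.2.1, (cl f k.1).2.2.1.not.2 k.2.2⟩
  have Cb : ∀ f ∈ C, M.b f ∈ C := fun f k =>
    ⟨(b1 f k.1).1, (cl f k.1).2.1.not.2 k.2.1, (cl f k.1).2.2.2.not.2 k.2.2⟩
  have o := orb_self M.a M.b
  have kA := mul_orb_le (A := A) (k := 2) hM.fin hM.ia0 hM.ib0 (fun _ k => k.1) fun f k =>
    ⟨[f, M.a f], by simpa using (a1 f k.1).2.2.symm, rfl, by
      simpa using ⟨⟨k, o f⟩, Aa f k, orb_p (o f)⟩⟩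
  have kB := mul_orb_le (A := B) (k := 4) hM.fin hM.ia0 hM.ib0 (fun _ k => k.1) fun f k =>
    ⟨[f, M.a f, M.b f, M.a (M.b f)], by
      have := a1 f k.1
      have := b1 f k.1
      have := a1 _ (b1 f k.1).1
      have := k.2.1
      simp; grind, rfl, by
      simpa using ⟨⟨k, o f⟩, ⟨Ba f k, orb_p (o f)⟩, ⟨Bb f k, orb_q (o f)⟩, Ba _ (Bb f k),
        orb_p (orb_q (o f))⟩⟩
  have kC := mul_orb_le (A := C) (k := 6) hM.fin hM.ia0 hM.ib0 (fun _ k => k.1) fun f k =>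
    ⟨[f, M.a f, M.b f, M.a (M.b f), M.b (M.a f), M.b (M.a (M.b f))], by
      have := a1 f k.1
      have := b1 f k.1
      have := a1 _ (b1 f k.1).1
      have := b1 _ (a1 f k.1).1
      have := b1 _ (a1 _ (b1 f k.1).1).1
      have := k.2
      simp; grind, rfl, by
      simpa using ⟨⟨k, o f⟩, ⟨Ca f k, orb_p (o f)⟩, ⟨Cb f k, orb_q (o f)⟩,
        ⟨Ca _ (Cb f k), orb_p (orb_q (o f))⟩, ⟨Cb _ (Ca f k), orb_q (orb_p (o f))⟩,
        Cb _ (Ca _ (Cb f k)), orb_q (orb_p (orb_q (o f)))⟩⟩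
  have e : M.S = A ∪ (B ∪ C) := by ext f; simp only [A, B, C, mem_union, mem_setOf_eq]; tauto
  have fA : A.Finite := hM.fin.subset fun _ k => k.1
  have fB : B.Finite := hM.fin.subset fun _ k => k.1
  have fC : C.Finite := hM.fin.subset fun _ k => k.1
  have e1 : M.S.ncard = A.ncard + (B.ncard + C.ncard) := by
    rw [e, ncard_union_eq (disjoint_left.2 fun f k k' => k'.elim (·.2.1 k.2) (·.2.1 k.2)) fA
      (fB.union fC), ncard_union_eq (disjoint_left.2 fun f k k' => k'.2.2 k.2.2) fB fC]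
  have e2 : (M.fo '' M.S).ncard ≤ (orb M.a M.b '' A).ncard +
      ((orb M.a M.b '' B).ncard + (orb M.a M.b '' C).ncard) := by
    rw [e, image_union, image_union]
    exact (ncard_union_le _ _).trans (Nat.add_le_add_left (ncard_union_le _ _) _)
  have e3 := ncard_le_edges hM
  rw [eg, v1, ncard_singleton]
  omega

end Pool.Agent.MP_9d78a0_co.gm
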