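import Pool.Agent.MP_9d78a0_co.gm.CSame

-- ======== part 0: formerly Pool.Agent.MP_9d78a0_co.gm.C3
section MrgPart0

/-! Minors by first return and minors with all flags kept. -/

set_option autoImplicit false

namespace Pool.Agent.MP_9d78a0_co.gm

open Set Function Relation

variable {Φ : Type}

namespace FM

open Classical in
/-- the move that passes a removed edge -/
noncomputable def sg (M : FM Φ) (C : Set Φ) (x : Φ) : Φ := if x ∈ C then M.a x else M.c x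

variable {M : FM Φ} {U C : Set Φ}

theorem minor_b : (M.minor U C).b = mate M.b (M.sg C) U := rfl

theorem ga_in {x : Φ} (k : x ∈ U) : M.ga U C x = M.a x := if_pos (Or.inl k)
theorem gc_in {x : Φ} (k : x ∈ U) : M.gc U C x = M.c x := if_neg fun m => m.1 k

theorem ga_out {x : Φ} (k : x ∉ U) : M.ga U C x = M.sg C x := by
  by_cases q : x ∈ C
  · rw [show M.sg C x = M.a x from if_pos q]; exact if_pos (Or.inr q)
  · rw [show M.sg C x = M.c x from if_neg q]; exact if_neg fun m => m.elim k q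
theorem gc_out {x : Φ} (k : x ∉ U) : M.gc U C x = M.sg C x := by
  by_cases q : x ∈ C
  · rw [show M.sg C x = M.a x from if_pos q]; exact if_pos ⟨k, q⟩
  · rw [show M.sg C x = M.c x from if_neg q]; exact if_neg fun m => q m.2

theorem sg_in {x : Φ} (k : x ∈ C) : M.sg C x = M.a x := if_pos k
theorem sg_out {x : Φ} (k : x ∉ C) : M.sg C x = M.c x := if_neg k

theorem Es.dual (hU : M.Es U) : M.dual.Es U := ⟨hU.1, fun x k => (hU.2 x k).symm⟩

theorem Es.sg {D : Set Φ} (hD : M.Es D) {x : Φ} (k : x ∈ D) : M.sg C x ∈ D := by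
  unfold FM.sg; split_ifs
  · exact (hD.2 x k).1
  · exact (hD.2 x k).2

theorem Gk.sg (h : M.Gk) (hC : M.Es C) : Inv M.S (M.sg C) :=
  h.dual.inv_mix hC.dual (fun _ k => sg_in k) fun _ _ k => sg_out k

theorem gh_same (U C : Set Φ) :
    ((M.del (M.S \ (U ∪ C))).dual.del (C \ U)).dual.Same (M.gh U C) := by
  refine ⟨rfl, fun f hf => ⟨?_, rfl, ?_⟩⟩
  · have hf' : f ∈ M.S := hf
    simp only [dual, del, gh, ga]
    by_cases k : f ∈ U ∨ f ∈ C
    · rw [if_pos k, if_neg fun m => m.2 k]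
    · rw [if_neg k, if_pos ⟨hf', k⟩]
  · simp only [dual, del, gh, gc]
    by_cases k : f ∉ U ∧ f ∈ C
    · rw [if_pos k, if_pos ⟨k.2, k.1⟩, if_neg fun m => m.2 (Or.inr k.2)]
    · rw [if_neg k, if_neg fun m => k ⟨m.2, m.1⟩]

theorem Gk.gh (h : M.Gk) (hU : M.Es U) (hC : M.Es C) :
    (M.gh U C).Gk ∧ (M.gh U C).geg ≤ M.geg := by
  have h1 := h.es_diff h.es_S (hU.union hC)
  have h2 : (M.del (M.S \ (U ∪ C))).dual.Es (C \ U) := by
    have := h.es_diff hC hU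
    refine Es.dual ⟨this.1, fun x k => ⟨?_, (this.2 x k).2⟩⟩
    rw [del_a_neg fun m => m.2 (Or.inr k.1)]; exact (this.2 x k).1
  have h3 := (h.del h1).dual
  obtain ⟨g1, g2, -⟩ := geg_congr (h3.del h2).dual (gh_same U C)
  refine ⟨g1, ?_⟩
  rw [g2, geg_dual]
  exact (geg_del_le h3 h2).trans ((geg_dual _).le.trans (geg_del_le h h1))

theorem Ok.minor (h : M.Ok) (hU : M.Es U) (hC : M.Es C) : (M.minor U C).Ok :=
  ⟨h.fin.subset hU.1, fun f k => ⟨(hU.2 f k).1, (h.ia f (hU.1 k)).2⟩,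
    mate_inv h.fin h.ib (h.gk.sg hC) hU.1 fun _ k => hU.sg k,
    fun f k => ⟨(hU.2 f k).2, (h.ic f (hU.1 k)).2⟩, fun f k => h.ac f (hU.1 k)⟩

section comp

variable (h : M.Gk) (hU : M.Es U) (hC : M.Es C)
include h hU hC

theorem compV : (∀ f ∈ U, (M.minor U C).vo f = (M.gh U C).vo f ∩ U) ∧
    nc (M.gh U C).rV M.S = nc (M.minor U C).rV U +
      nc (cut M.b (M.sg C) U) (free M.S M.b (M.sg C) U) := by
  refine compress h.fin h.ib (h.sg hC) hU.1 (fun _ k => hU.sg k) (h.gh hU hC).1.sV ?_ ?_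
    (fun _ _ => Or.inl rfl) ?_
  · rintro x - y (rfl | ⟨k, rfl⟩)
    · exact Or.inl rfl
    · exact Or.inr (gc_out k).symm
  · rintro x - y (rfl | rfl)
    · exact Or.inl (Or.inl rfl)
    · by_cases k : x ∈ U
      · exact Or.inr ⟨k, by rw [show (M.gh U C).c x = _ from gc_in k]; exact (hU.2 x k).2,
          Or.inr (gc_in k)⟩
      · exact Or.inl (Or.inr ⟨k, gc_out k⟩)
  · rintro x k y (rfl | rfl)
    · exact Or.inl rfl
    · exact Or.inr ⟨(hU.2 x k).2, Or.inr (gc_in k).symm⟩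

theorem compF : (∀ f ∈ U, (M.minor U C).fo f = (M.gh U C).fo f ∩ U) ∧
    nc (M.gh U C).rF M.S = nc (M.minor U C).rF U +
      nc (cut M.b (M.sg C) U) (free M.S M.b (M.sg C) U) := by
  refine compress h.fin h.ib (h.sg hC) hU.1 (fun _ k => hU.sg k) (h.gh hU hC).1.sF ?_ ?_
    (fun _ _ => Or.inr rfl) ?_
  · rintro x - y (rfl | ⟨k, rfl⟩)
    · exact Or.inr rfl
    · exact Or.inl (ga_out k).symm
  · rintro x - y (rfl | rfl)
    · by_cases k : x ∈ U
      · exact Or.inr ⟨k, by rw [show (M.gh U C).a x = _ from ga_in k]; exact (hU.2 x k).1,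
          Or.inl (ga_in k)⟩
      · exact Or.inl (Or.inr ⟨k, ga_out k⟩)
    · exact Or.inl (Or.inl rfl)
  · rintro x k y (rfl | rfl)
    · exact Or.inr ⟨(hU.2 x k).1, Or.inl (ga_in k).symm⟩
    · exact Or.inl rfl

theorem compC : (∀ f ∈ U, (M.minor U C).co f = (M.gh U C).co f ∩ U) ∧
    nc (M.gh U C).rC M.S = nc (M.minor U C).rC U +
      nc (cut M.b (M.sg C) U) (free M.S M.b (M.sg C) U) := by
  refine compress h.fin h.ib (h.sg hC) hU.1 (fun _ k => hU.sg k) (h.gh hU hC).1.sC ?_ ?_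
    (fun _ _ => Or.inr (Or.inl rfl)) ?_
  · rintro x - y (rfl | ⟨k, rfl⟩)
    · exact Or.inr (Or.inl rfl)
    · exact Or.inl (ga_out k).symm
  · rintro x - y e
    by_cases k : x ∈ U
    · rcases e with rfl | rfl | rfl
      · exact Or.inr ⟨k, by rw [show (M.gh U C).a x = _ from ga_in k]; exact (hU.2 x k).1,
          Or.inl (ga_in k)⟩
      · exact Or.inl (Or.inl rfl)
      · exact Or.inr ⟨k, by rw [show (M.gh U C).c x = _ from gc_in k]; exact (hU.2 x k).2,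
          Or.inr (Or.inr (gc_in k))⟩
    · rcases e with rfl | rfl | rfl
      · exact Or.inl (Or.inr ⟨k, ga_out k⟩)
      · exact Or.inl (Or.inl rfl)
      · exact Or.inl (Or.inr ⟨k, gc_out k⟩)
  · rintro x k y (rfl | rfl | rfl)
    · exact Or.inr ⟨(hU.2 x k).1, Or.inl (ga_in k).symm⟩
    · exact Or.inl rfl
    · exact Or.inr ⟨(hU.2 x k).2, Or.inr (Or.inr (gc_in k).symm)⟩

theorem compR (U' : Set Φ) : ∀ f ∈ U, (M.minor U C).reg U' f = (M.gh U C).reg U' f ∩ U := by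
  have g := (h.gh hU hC).1
  refine compress_cl h.fin h.ib (h.sg hC) hU.1 (fun _ k => hU.sg k) ?_ ?_ ?_
    (fun _ _ => Or.inr (Or.inl rfl)) ?_
  · rintro x hx y (rfl | rfl | ⟨-, rfl⟩)
    · exact g.am hx
    · exact g.bm hx
    · exact g.cm hx
  · rintro x - y (rfl | ⟨k, rfl⟩)
    · exact Or.inr (Or.inl rfl)
    · exact Or.inl (ga_out k).symm
  · rintro x - y e
    by_cases k : x ∈ U
    · rcases e with rfl | rfl | ⟨q, rfl⟩
      · exact Or.inr ⟨k, by rw [show (M.gh U C).a x = _ from ga_in k]; exact (hU.2 x k).1,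
          Or.inl (ga_in k)⟩
      · exact Or.inl (Or.inl rfl)
      · exact Or.inr ⟨k, by rw [show (M.gh U C).c x = _ from gc_in k]; exact (hU.2 x k).2,
          Or.inr (Or.inr ⟨q, gc_in k⟩)⟩
    · rcases e with rfl | rfl | ⟨-, rfl⟩
      · exact Or.inl (Or.inr ⟨k, ga_out k⟩)
      · exact Or.inl (Or.inl rfl)
      · exact Or.inl (Or.inr ⟨k, gc_out k⟩)
  · rintro x k y (rfl | rfl | ⟨q, rfl⟩)
    · exact Or.inr ⟨(hU.2 x k).1, Or.inl (ga_in k).symm⟩
    · exact Or.inl rfl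
    · exact Or.inr ⟨(hU.2 x k).2, Or.inr (Or.inr ⟨q, (gc_in k).symm⟩)⟩

end comp

theorem Ok.gh_prop (h : M.Ok) (hU : M.Es U) : (M.gh U C).prop = U := by
  ext x
  constructor
  · intro k
    by_contra q
    exact k.2 ((ga_out q).trans (gc_out q).symm)
  · intro k
    refine ⟨hU.1 k, ?_⟩
    show M.ga U C x ≠ M.gc U C x
    rw [ga_in k, gc_in k]; exact h.ne (hU.1 k)

theorem Ok.geg_gh (h : M.Ok) (hU : M.Es U) (hC : M.Es C) :
    (M.gh U C).geg = (M.minor U C).eg := by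
  have e1 := (compV h.gk hU hC).2
  have e2 := (compF h.gk hU hC).2
  have e3 := (compC h.gk hU hC).2
  have s1 : Sy U (M.minor U C).rE := (h.minor hU hC).gk.sE
  have ag : ∀ x ∈ U, ∀ y, (M.gh U C).rE x y ↔ (M.minor U C).rE x y := fun x k y => by
    show y = M.ga U C x ∨ y = M.gc U C x ↔ y = M.a x ∨ y = M.c x
    rw [ga_in k, gc_in k]
  have e4 : nc (M.gh U C).rE U = nc (M.minor U C).rE U := nc_congr fun f hf =>
    cl_congr (fun x k y q => ⟨(s1 x k y ((ag x k y).1 q)).1,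
      ((h.gk.gh hU hC).1.sE x (hU.1 k) y q).2⟩) s1 (fun x k y q => cl_one ((ag x k y).1 q))
      (fun x k y q => cl_one ((ag x k y).2 q)) hf
  rw [geg_eq, eg_eq, h.gh_prop hU, e4]
  show 2 * (nc (M.gh U C).rC M.S : ℤ) - nc (M.gh U C).rV M.S + _ - nc (M.gh U C).rF M.S =
    2 * (nc (M.minor U C).rC U : ℤ) - nc (M.minor U C).rV U + nc (M.minor U C).rE U -
      nc (M.minor U C).rF U
  omega

theorem gh_del (U : Set Φ) : (M.del (M.S \ U)).Same (M.gh U ∅) := by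
  refine ⟨rfl, fun f hf => ⟨?_, rfl, ?_⟩⟩
  · by_cases k : f ∈ U
    · rw [del_a_neg fun m => m.2 k]; exact (ga_in k).symm
    · rw [del_a_pos (show f ∈ M.S \ U from ⟨hf, k⟩)]; exact ((ga_out k).trans (sg_out (notMem_empty f))).symm
  · show M.c f = M.gc U ∅ f
    simp [gc]

theorem Ok.eg_sub (h : M.Ok) (hU : M.Es U) : (M.sub U).eg = (M.del (M.S \ U)).geg := by
  rw [← (geg_congr (h.gk.del (h.gk.es_diff h.gk.es_S hU)) (gh_del U)).2.1]
  exact (h.geg_gh hU es_empty).symm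

theorem brIn_iff (h : M.Gk) {e : Φ} (he : e ∈ M.S) : M.Bridge e ↔ ¬ M.Nb e := by
  have hD := h.es_eo he
  have g := h.del hD
  refine not_congr ⟨fun k => ?_, fun k => ?_⟩
  · refine (cl_ind (P := fun x => x ∈ cl (M.del (M.eo e)).rC e) (cl_self _ _) ?_ k :)
    rintro x y - q (rfl | rfl | ⟨m, rfl⟩)
    · exact cl_step q (Or.inr (Or.inl rfl))
    · exact cl_step q (Or.inr (Or.inr rfl))
    · exact cl_step q (Or.inl (del_a_neg m.2).symm)
  · refine cl_le g.sC (r' := fun x y => y = M.b x ∨ y = M.c x ∨ (x ∈ M.S \ M.eo e ∧ y = M.a x))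
      ?_ he k
    rintro x hx y (rfl | rfl | rfl)
    · by_cases q : x ∈ M.eo e
      · exact cl_one (Or.inr (Or.inl (del_a_pos q)))
      · exact cl_one (Or.inr (Or.inr ⟨⟨hx, q⟩, del_a_neg q⟩))
    · exact cl_one (Or.inl rfl)
    · exact cl_one (Or.inr (Or.inl rfl))

end FM

open FM

theorem minorS : MinorS := fun _ _ _ _ h hU hC =>
  ⟨h.minor hU hC, fun f k => ⟨(compV h.gk hU hC).1 f k, (compF h.gk hU hC).1 f k,
    (compC h.gk hU hC).1 f k, fun U' => compR h.gk hU hC U' f k⟩⟩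

theorem ghostS : GhostS := fun _ _ h =>
  ⟨h.gk, h.geg, fun _ _ hU hC => ⟨(h.gk.gh hU hC).1, h.geg_gh hU hC⟩⟩

theorem monoS : MonoS := fun _ _ h =>
  ⟨h.geg ▸ geg_nonneg h.gk, fun _ _ hU hC => h.geg ▸ h.geg_gh hU hC ▸ (h.gk.gh hU hC).2⟩

theorem delS : DelS := by
  intro Φ M e h he
  have hD := h.gk.es_eo he
  obtain ⟨h1, h2, h3, -⟩ := del_count h.gk he (h.ne he)
  rw [h.eg_sub (h.gk.es_diff h.gk.es_S hD), sdiff_sdiff_cancel_left hD.1, ← h.geg,
    brIn_iff h.gk he, not_not]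
  exact ⟨h1, h2, h3⟩

theorem transS : TransS := by
  intro Φ M U C U' C' h hU hC hU' hC' sub
  refine ⟨rfl, fun f hf => ⟨rfl, ?_, rfl⟩⟩
  have hf' : f ∈ U' := hf
  set C2 := (C \ U) ∪ (C' ∩ U) with hC2
  have e2 : M.Es C2 := (h.gk.es_diff hC hU).union (hC'.inter hU)
  set N := M.minor U C with hN
  have hNok : N.Ok := h.minor hU hC
  have s1 : ∀ x, x ∉ U → M.sg C2 x = M.sg C x := fun x k => by
    by_cases q : x ∈ C
    · rw [sg_in q, sg_in (show x ∈ C2 from Or.inl ⟨q, k⟩)]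
    · rw [sg_out q, sg_out (show x ∉ C2 from fun m => m.elim (fun m => q m.1) fun m => k m.2)]
  have s2 : ∀ x ∈ U, M.sg C2 x = N.sg C' x := fun x k => by
    by_cases q : x ∈ C'
    · rw [sg_in q, sg_in (show x ∈ C2 from Or.inr ⟨q, k⟩)]; rfl
    · rw [sg_out q, sg_out (show x ∉ C2 from fun m => m.elim (fun m => m.2 k) fun m => q m.1)]
      rfl
  have iN : Inv U (N.sg C') := fun x k => by
    rw [← s2 x k, ← s2 _ (hU.sg k)]; exact ⟨hU.sg k, (h.gk.sg e2 x (hU.1 k)).2⟩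
  have cU' : ∀ x ∈ U', N.sg C' x ∈ U' := fun x k => s2 x (sub k) ▸ hU'.sg k
  have a1 := mate_spec hNok.fin hNok.ib iN sub cU' hf'
  have a2 := mate_inv hNok.fin hNok.ib iN sub cU' f hf'
  have a3 := mate_spec h.fin h.ib (h.gk.sg e2) hU'.1 (fun _ k => hU'.sg k) hf'
  have le : cl (cut N.b (N.sg C') U') f ⊆ cl (cut M.b (M.sg C2) U') f := by
    refine cl_le (cut_sy hNok.ib iN cU') ?_ (sub hf')
    rintro x hx y (rfl | ⟨k, rfl⟩)
    · refine cl_le (cut_sy h.ib (h.gk.sg hC) fun _ k => hU.sg k) ?_ (hU.1 hx)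
        (mate_spec h.fin h.ib (h.gk.sg hC) hU.1 (fun _ k => hU.sg k) hx).2.1
      rintro z - w (rfl | ⟨k, rfl⟩)
      · exact cl_one (Or.inl rfl)
      · exact cl_one (Or.inr ⟨fun m => k (sub m), (s1 z k).symm⟩)
    · exact cl_one (Or.inr ⟨k, (s2 x hx).symm⟩)
  exact (a3.2.2 _ (le a1.2.1) a1.1).elim (fun k => (a2.2.2 k).elim) id

end Pool.Agent.MP_9d78a0_co.gm

end MrgPart0

-- ======== part 1: formerly Pool.Agent.MP_9d78a0_co.gm.C4
section MrgPart1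

/-! Double covers and spheres. -/

set_option autoImplicit false

namespace Pool.Agent.MP_9d78a0_co.gm

open Set Function Relation

variable {Φ : Type}

/-- functions given on each class are glued -/
theorem glue {S : Set Φ} {r : Φ → Φ → Prop} (h : Sy S r) {β : Type} [Nonempty β]
    {P : (Φ → β) → Set Φ → Prop} (hP : ∀ f ∈ S, ∃ χ, P χ (cl r f)) :
    ∃ χ : Φ → β, ∀ f ∈ S, ∃ χ', P χ' (cl r f) ∧ ∀ x ∈ cl r f, χ x = χ' x := by
  classical
  refine ⟨fun x => Classical.epsilon (fun χ => P χ (cl r x)) x, fun f hf =>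
    ⟨_, Classical.epsilon_spec (hP f hf), fun x hx => ?_⟩⟩
  simp only [h.eq hf hx]

theorem pot_glue {A : Set Φ} {p q : Φ → Φ} {op oq : Φ → ZMod 2}
    (h : Sy A fun x y => y = p x ∨ y = q x) (he : ∀ f ∈ A, Ev p q op oq f) :
    ∃ χ, Pot A p op χ ∧ Pot A q oq χ := by
  obtain ⟨χ, k⟩ := glue h (P := fun χ B => Pot B p op χ ∧ Pot B q oq χ) he
  refine ⟨χ, fun f hf => ?_, fun f hf => ?_⟩
  · obtain ⟨χ', k1, k2⟩ := k f hf
    rw [k2 _ (cl_one (Or.inl rfl)), k2 _ (cl_self _ _)]; exact k1.1 f (cl_self _ _)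
  · obtain ⟨χ', k1, k2⟩ := k f hf
    rw [k2 _ (cl_one (Or.inr rfl)), k2 _ (cl_self _ _)]; exact k1.2 f (cl_self _ _)

theorem Pot.ev {A : Set Φ} {p q : Φ → Φ} {op oq χ : Φ → ZMod 2}
    (h : Sy A fun x y => y = p x ∨ y = q x) (h1 : Pot A p op χ) (h2 : Pot A q oq χ) {f : Φ}
    (hf : f ∈ A) : Ev p q op oq f :=
  ⟨χ, fun x hx => h1 x (h.sub hf hx), fun x hx => h2 x (h.sub hf hx)⟩

/-- the lift of a move to the double cover -/
def lift (p : Φ → Φ) (o : Φ → ZMod 2) (z : Φ × ZMod 2) : Φ × ZMod 2 := (p z.1, z.2 + o z.1)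

theorem z2_add_self (i : ZMod 2) : i + i = 0 := by revert i; decide

theorem lift_inv {S : Set Φ} {p : Φ → Φ} {o : Φ → ZMod 2} (hp : Inv S p)
    (ho : ∀ x ∈ S, o (p x) = o x) : Inv (S ×ˢ (univ : Set (ZMod 2))) (lift p o) := by
  rintro ⟨x, i⟩ ⟨hx, -⟩
  refine ⟨⟨(hp x hx).1, trivial⟩, ?_, fun e => (hp x hx).2.2 (congrArg Prod.fst e)⟩
  simp only [lift, (hp x hx).2.1, ho x hx, add_assoc, z2_add_self, add_zero]

theorem Ev.inv {S : Set Φ} {p q : Φ → Φ} {op oq : Φ → ZMod 2} (hp : Inv S p) (hq : Inv S q)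
    {x : Φ} (hx : x ∈ S) (h : Ev p q op oq x) : op (p x) = op x ∧ oq (q x) = oq x := by
  obtain ⟨χ, k1, k2⟩ := h
  have a1 := k1 x (cl_self _ _)
  have a2 := k1 _ (cl_one (r := fun x y => y = p x ∨ y = q x) (Or.inl rfl))
  have a3 := k2 x (cl_self _ _)
  have a4 := k2 _ (cl_one (r := fun x y => y = p x ∨ y = q x) (Or.inr rfl))
  rw [(hp x hx).2.1, a1] at a2
  rw [(hq x hx).2.1, a3] at a4
  exact ⟨by linear_combination -a2 - z2_add_self (op x),
    by linear_combination -a4 - z2_add_self (oq x)⟩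

/-- with a potential the cover has twice as many cycles -/
theorem nc_cover {A : Set Φ} {p q : Φ → Φ} {op oq χ : Φ → ZMod 2}
    (h : Sy A fun x y => y = p x ∨ y = q x)
    (h1 : Pot A p op χ) (h2 : Pot A q oq χ) :
    nc (fun x y => y = lift p op x ∨ y = lift q oq x) (A ×ˢ univ) =
      2 * nc (fun x y => y = p x ∨ y = q x) A := by
  set r : Φ → Φ → Prop := fun x y => y = p x ∨ y = q x with hr
  set r' : Φ × ZMod 2 → Φ × ZMod 2 → Prop := fun x y => y = lift p op x ∨ y = lift q oq x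
  have key : ∀ x ∈ A, ∀ i, cl r' (x, i) = {z | z.1 ∈ cl r x ∧ z.2 + χ z.1 = i + χ x} := by
    intro x hx i
    refine Subset.antisymm (fun z hz => ?_) fun z hz => ?_
    · refine cl_ind (P := fun z => z.1 ∈ cl r x ∧ z.2 + χ z.1 = i + χ x) ⟨cl_self _ _, rfl⟩ ?_ hz
      rintro z w - ⟨k1, k2⟩ (rfl | rfl)
      · refine ⟨cl_step k1 (Or.inl rfl), ?_⟩
        simp only [lift, h1 _ (h.sub hx k1), ← k2]
        linear_combination z2_add_self (op z.1)
      · refine ⟨cl_step k1 (Or.inr rfl), ?_⟩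
        simp only [lift, h2 _ (h.sub hx k1), ← k2]
        linear_combination z2_add_self (oq z.1)
    · have : (z.1, i + χ x + χ z.1) ∈ cl r' (x, i) := by
        refine cl_ind (P := fun y => (y, i + χ x + χ y) ∈ cl r' (x, i)) ?_ ?_ hz.1
        · simp only [add_assoc, z2_add_self, add_zero]; exact cl_self _ _
        · rintro y w hy k (rfl | rfl)
          · exact cl_step k (Or.inl (by simp only [lift, h1 _ (h.sub hx hy), add_assoc]))
          · exact cl_step k (Or.inr (by simp only [lift, h2 _ (h.sub hx hy), add_assoc]))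
      rwa [← hz.2, add_assoc, z2_add_self, add_zero] at this
  have e : cl r' '' (A ×ˢ univ) = (fun t : Set Φ × ZMod 2 =>
      ({z | z.1 ∈ t.1 ∧ z.2 + χ z.1 = t.2} : Set (Φ × ZMod 2))) '' ((cl r '' A) ×ˢ univ) := by
    ext B
    constructor
    · rintro ⟨⟨x, i⟩, ⟨hx, -⟩, rfl⟩
      exact ⟨(cl r x, i + χ x), ⟨⟨x, hx, rfl⟩, trivial⟩, (key x hx i).symm⟩
    · rintro ⟨⟨_, j⟩, ⟨⟨x, hx, rfl⟩, -⟩, rfl⟩
      refine ⟨(x, j + χ x), ⟨hx, trivial⟩, ?_⟩
      rw [key x hx, add_assoc, z2_add_self, add_zero]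
  unfold nc
  rw [e, InjOn.ncard_image, ncard_prod, ncard_univ, Nat.card_zmod, mul_comm]
  rintro ⟨_, i⟩ ⟨⟨x, hx, rfl⟩, -⟩ ⟨_, j⟩ ⟨⟨y, hy, rfl⟩, -⟩ e
  have : (x, i + χ x) ∈ ({z | z.1 ∈ cl r y ∧ z.2 + χ z.1 = j} : Set (Φ × ZMod 2)) := by
    have e' : ({z | z.1 ∈ cl r x ∧ z.2 + χ z.1 = i} : Set (Φ × ZMod 2)) =
      {z | z.1 ∈ cl r y ∧ z.2 + χ z.1 = j} := e
    rw [← e']
    exact ⟨cl_self _ _, by simp only [add_assoc, z2_add_self, add_zero]⟩
  refine Prod.ext (h.eq hy this.1) ?_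
  have t := this.2
  simp only [add_assoc, z2_add_self, add_zero] at t
  exact t

namespace FM

variable {M : FM Φ}

/-- the part of a map on a set of flags -/
def res (M : FM Φ) (A : Set Φ) : FM Φ := ⟨A, M.a, M.b, M.c⟩

theorem Gk.res (h : M.Gk) {A : Set Φ} (hA : A ⊆ M.S) (hc : Sy A M.rC) : (M.res A).Gk :=
  ⟨h.fin.subset hA, fun x k => ⟨(hc x k _ (Or.inl rfl)).1, (h.ia x (hA k)).2⟩,
    fun x k => ⟨(hc x k _ (Or.inr (Or.inl rfl))).1, (h.ib x (hA k)).2⟩,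
    fun x k => ⟨(hc x k _ (Or.inr (Or.inr rfl))).1, (h.ic x (hA k)).2⟩, fun x k => h.ac x (hA k)⟩

theorem Gk.sP (h : M.Gk) : Sy M.prop M.rE := fun x hx y k =>
  ⟨k.elim (fun k => k ▸ (h.es_prop.2 x hx).1) fun k => k ▸ (h.es_prop.2 x hx).2,
    (h.sE x hx.1 y k).2⟩

theorem geg_split (h : M.Gk) {A : Set Φ} (hA : A ⊆ M.S) (hc : Sy A M.rC) :
    M.geg = (M.res A).geg + (M.res (M.S \ A)).geg := by
  have g := h.res hA hc
  have e1 := nc_split h.fin hA hc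
  have e2 := nc_split (r := M.rV) h.fin hA g.sV
  have e3 := nc_split (r := M.rF) h.fin hA g.sF
  have e4 := nc_split (r := M.rE) (h.fin.subset h.es_prop.1)
    (show (M.res A).prop ⊆ M.prop from fun x k => ⟨hA k.1, k.2⟩) g.sP
  have e5 : M.prop \ (M.res A).prop = (M.res (M.S \ A)).prop := by
    ext x
    exact ⟨fun k => ⟨⟨k.1.1, fun m => k.2 ⟨m, k.1.2⟩⟩, k.1.2⟩,
      fun k => ⟨⟨k.1.1, k.2⟩, fun m => k.1.2 m.1⟩⟩
  rw [e5] at e4
  have g1 : (M.res A).geg = 2 * (nc M.rC A : ℤ) - nc M.rV A + nc M.rE (M.res A).prop -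
    nc M.rF A := rfl
  have g2 : (M.res (M.S \ A)).geg = 2 * (nc M.rC (M.S \ A) : ℤ) - nc M.rV (M.S \ A) +
    nc M.rE (M.res (M.S \ A)).prop - nc M.rF (M.S \ A) := rfl
  rw [geg_eq]; omega

theorem geg_res_le (h : M.Gk) {A : Set Φ} (hA : A ⊆ M.S) (hc : Sy A M.rC) :
    (M.res A).geg ≤ M.geg := by
  have := geg_nonneg (h.res sdiff_subset (h.sC.diff hc))
  rw [geg_split h hA hc]; omega

/-- the number of components of positive genus -/
theorem nc_le_geg (h : M.Gk) {B : Set Φ} (hB : B ⊆ M.S)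
    (k : ∀ f ∈ B, (M.res (M.co f)).geg ≠ 0) : (nc M.rC B : ℤ) ≤ M.geg := by
  induction' hn : B.ncard using Nat.strong_induction_on with n ih generalizing M B
  rcases B.eq_empty_or_nonempty with rfl | ⟨f, hf⟩
  · rw [nc_empty]; exact geg_nonneg h
  have fB := h.fin.subset hB
  have c1 := h.sC.cls (hB hf)
  have s1 := h.sC.sub (hB hf)
  have a1 := ih _ (hn ▸ ncard_lt_ncard ⟨sdiff_subset, fun q => (q hf).2 (cl_self _ _)⟩ fB)
    (h.res sdiff_subset (h.sC.diff c1)) (B := B \ cl M.rC f) (fun x q => ⟨hB q.1, q.2⟩)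
    (fun x q => k x q.1) rfl
  have a2 := geg_split h s1 c1
  have a3 := geg_nonneg (h.res s1 c1)
  have a4 : (M.res (cl M.rC f)).geg ≠ 0 := k f hf
  have a5 : nc M.rC B ≤ 1 + nc M.rC (B \ cl M.rC f) := by
    rw [← nc_cls h.sC (hB hf), ← nc_union (h.fin.subset s1) (fB.subset sdiff_subset)]
    · exact nc_mono ((h.fin.subset s1).union (fB.subset sdiff_subset))
        fun x q => (em (x ∈ cl M.rC f)).imp id fun m => ⟨q, m⟩
    · intro x hx y hy e
      exact hy.2 (cl_trans hx (Sy.of_eq e.symm))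
  have a6 : nc (M.res (M.S \ cl M.rC f)).rC (B \ cl M.rC f) = nc M.rC (B \ cl M.rC f) := rfl
  omega

/-- the double cover -/
def cover (M : FM Φ) (oa ob oc : Φ → ZMod 2) : FM (Φ × ZMod 2) :=
  ⟨M.S ×ˢ univ, lift M.a oa, lift M.b ob, lift M.c oc⟩

theorem sphere_con (h : M.Gk) (h0 : M.geg = 0) {oa ob oc : Φ → ZMod 2} {f z : Φ} (hf : f ∈ M.S)
    (hc : M.S ⊆ M.co f) (hz : z ∈ M.S) (hE : ∀ g ∈ M.S, Ev M.a M.c oa oc g)
    (hF : ∀ g ∈ M.S, Ev M.a M.b oa ob g) (hV : ∀ g ∈ M.S, g ∉ M.vo z → Ev M.b M.c ob oc g) :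
    ∃ χ, Pot M.S M.a oa χ ∧ Pot M.S M.b ob χ ∧ Pot M.S M.c oc χ := by
  classical
  set N := M.cover oa ob oc with hN
  obtain ⟨χE, E1, E2⟩ := pot_glue h.sE hE
  obtain ⟨χF, F1, F2⟩ := pot_glue h.sF hF
  have sz := h.sV.diff (h.sV.cls hz)
  obtain ⟨χV, V1, V2⟩ := pot_glue sz fun g k => hV g k.1 k.2
  have g : N.Gk := by
    refine ⟨h.fin.prod finite_univ, lift_inv h.ia fun x k => ((hE x k).inv h.ia h.ic k).1,
      lift_inv h.ib fun x k => ((hF x k).inv h.ia h.ib k).2,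
      lift_inv h.ic fun x k => ((hE x k).inv h.ia h.ic k).2, ?_⟩
    rintro ⟨x, i⟩ ⟨hx, -⟩
    refine Prod.ext (h.ac x hx) ?_
    have a1 := E1 _ (h.cm hx)
    have a2 := E2 _ (h.am hx)
    rw [h.ac x hx, a2, E1 x hx, E2 x hx] at a1
    show i + oc x + oa (M.c x) = i + oa x + oc (M.a x)
    linear_combination -a1
  have up : ∀ x ∈ M.co f, ∃ j, (x, j) ∈ cl N.rC (f, 0) := by
    intro x hx
    refine cl_ind (r := M.rC) (P := fun x => ∃ j, (x, j) ∈ cl N.rC (f, 0)) ⟨0, cl_self _ _⟩ ?_ hx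
    rintro x y - ⟨j, k⟩ (rfl | rfl | rfl)
    · exact ⟨_, cl_step k (Or.inl rfl)⟩
    · exact ⟨_, cl_step k (Or.inr (Or.inl rfl))⟩
    · exact ⟨_, cl_step k (Or.inr (Or.inr rfl))⟩
  have shift : ∀ u w : Φ × ZMod 2, w ∈ cl N.rC u → (w.1, w.2 + 1) ∈ cl N.rC (u.1, u.2 + 1) := by
    intro u w hw
    refine cl_ind (P := fun w => (w.1, w.2 + 1) ∈ cl N.rC (u.1, u.2 + 1)) (cl_self _ _) ?_ hw
    rintro x y - k (rfl | rfl | rfl)
    · exact cl_step k (Or.inl (Prod.ext rfl (add_right_comm _ _ _)))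
    · exact cl_step k (Or.inr (Or.inl (Prod.ext rfl (add_right_comm _ _ _))))
    · exact cl_step k (Or.inr (Or.inr (Prod.ext rfl (add_right_comm _ _ _))))
  have f0 : ∀ i : ZMod 2, (f, i) ∈ N.S := fun _ => ⟨hf, trivial⟩
  have two : ∀ i j : ZMod 2, i = j ∨ i = j + 1 := by decide
  have nn : (f, 1) ∉ cl N.rC (f, 0) := by
    intro k
    have c1 : nc N.rC N.S = 1 := by
      refine nc_one g.sC (f0 0) (f0 0) ?_
      rintro ⟨x, i⟩ ⟨hx, -⟩
      obtain ⟨j, q⟩ := up x (hc hx)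
      rcases two i j with rfl | rfl
      · exact q
      · have := shift _ _ q
        rw [zero_add] at this
        exact cl_trans k this
    have c2 : nc M.rC M.S = 1 := nc_one h.sC hf hf hc
    have c3 : nc N.rF N.S = 2 * nc M.rF M.S := nc_cover h.sF F1 F2
    have pp : N.prop = M.prop ×ˢ univ := by
      ext ⟨x, i⟩
      refine ⟨fun q => ⟨⟨q.1.1, fun e => q.2 (Prod.ext e ?_)⟩, trivial⟩,
        fun q => ⟨⟨q.1.1, trivial⟩, fun e => q.1.2 (congrArg Prod.fst e)⟩⟩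
      have a1 := E1 x q.1.1
      rw [e, E2 x q.1.1] at a1
      show i + oa x = i + oc x
      linear_combination -a1
    have c4 : nc N.rE N.prop = 2 * nc M.rE M.prop := by
      rw [pp]
      exact nc_cover h.sP (fun x q => E1 x q.1) fun x q => E2 x q.1
    have sA : Sy ((M.S \ cl M.rV z) ×ˢ univ) N.rV := fun x q y e =>
      ⟨⟨(sz x.1 q.1 y.1 (e.imp (congrArg Prod.fst) (congrArg Prod.fst))).1, trivial⟩,
        (g.sV x ⟨q.1.1, trivial⟩ y e).2⟩
    have c5 : nc N.rV ((M.S \ cl M.rV z) ×ˢ univ) = 2 * nc M.rV (M.S \ cl M.rV z) :=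
      nc_cover sz V1 V2
    have c6 := nc_split g.fin (fun x q => ⟨q.1.1, trivial⟩) sA
    have c7 : 1 ≤ nc N.rV (N.S \ (M.S \ cl M.rV z) ×ˢ univ) :=
      nc_pos (f := (z, 0)) (g.fin.subset sdiff_subset)
        ⟨⟨hz, trivial⟩, fun q => q.1.2 (cl_self _ _)⟩
    have c8 := nc_split h.fin (h.sV.sub hz) (h.sV.cls hz)
    rw [nc_cls h.sV hz] at c8
    have c9 := geg_nonneg g
    rw [geg_eq] at c9 h0
    omega
  have uniq : ∀ x i j, (x, i) ∈ cl N.rC (f, 0) → (x, j) ∈ cl N.rC (f, 0) → i = j := by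
    intro x i j k1 k2
    rcases two i j with e | rfl
    · exact e
    · have := shift _ _ k2
      rw [zero_add] at this
      exact (nn (cl_trans k1 (g.sC.symm (f0 1) this))).elim
  choose! χ hχ using up
  refine ⟨χ, fun x hx => ?_, fun x hx => ?_, fun x hx => ?_⟩
  · exact uniq _ _ _ (hχ _ (hc (h.am hx))) (cl_step (hχ x (hc hx)) (Or.inl rfl))
  · exact uniq _ _ _ (hχ _ (hc (h.bm hx))) (cl_step (hχ x (hc hx)) (Or.inr (Or.inl rfl)))
  · exact uniq _ _ _ (hχ _ (hc (h.cm hx))) (cl_step (hχ x (hc hx)) (Or.inr (Or.inr rfl)))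

end FM

open FM

theorem sphereS : SphereS := by
  intro Φ M oa ob oc h h0 hE hF hV
  have : ∀ f ∈ M.S, ∃ χ, Pot (cl M.rC f) M.a oa χ ∧ Pot (cl M.rC f) M.b ob χ ∧
      Pot (cl M.rC f) M.c oc χ := by
    intro f hf
    have s1 := h.sC.sub hf
    have c1 := h.sC.cls hf
    have g := h.res s1 c1
    obtain ⟨z, hz, k⟩ : ∃ z ∈ cl M.rC f, ∀ x ∈ cl M.rC f, x ∉ M.vo z → Ev M.b M.c ob oc x := by
      by_cases q : ∀ x ∈ cl M.rC f, Ev M.b M.c ob oc x
      · exact ⟨f, cl_self _ _, fun x hx _ => q x hx⟩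
      · push Not at q
        obtain ⟨z, hz, nz⟩ := q
        refine ⟨z, hz, fun x hx n => ?_⟩
        rcases hV z (s1 hz) x (cl_trans (h.sC.symm hf hz) hx) with m | m | m
        · exact (nz m).elim
        · exact m
        · exact (n m).elim
    exact sphere_con g (le_antisymm (h0 ▸ geg_res_le h s1 c1) (geg_nonneg g)) (cl_self _ _)
      Subset.rfl hz (fun x q => hE x (s1 q)) (fun x q => hF x (s1 q)) k
  obtain ⟨χ, k⟩ := glue h.sC
    (P := fun χ B => Pot B M.a oa χ ∧ Pot B M.b ob χ ∧ Pot B M.c oc χ) this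
  refine ⟨χ, fun f hf => ?_, fun f hf => ?_, fun f hf => ?_⟩ <;> obtain ⟨χ', k1, k2⟩ := k f hf
  · rw [k2 _ (cl_one (Or.inl rfl)), k2 _ (cl_self _ _)]; exact k1.1 f (cl_self _ _)
  · rw [k2 _ (cl_one (Or.inr (Or.inl rfl))), k2 _ (cl_self _ _)]; exact k1.2.1 f (cl_self _ _)
  · rw [k2 _ (cl_one (Or.inr (Or.inr rfl))), k2 _ (cl_self _ _)]; exact k1.2.2 f (cl_self _ _)

end Pool.Agent.MP_9d78a0_co.gm

end MrgPart1

-- ======== part 2: formerly Pool.Agent.MP_9d78a0_co.gm.C5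
section MrgPart2

/-! Regions, clean faces, forests, drops of the genus. -/

set_option autoImplicit false

namespace Pool.Agent.MP_9d78a0_co.gm

open Set Function Relation

variable {Φ : Type}

theorem first_hit {r r' : Φ → Φ → Prop} {U : Set Φ} (h : ∀ x, x ∉ U → ∀ y, r x y → r' x y)
    {g u : Φ} (hu : u ∈ U) (k : u ∈ cl r g) : ∃ u' ∈ U, u' ∈ cl r' g := by
  have : u ∈ cl r' g ∨ ∃ u' ∈ U, u' ∈ cl r' g := by
    refine cl_ind (P := fun x => x ∈ cl r' g ∨ ∃ u' ∈ U, u' ∈ cl r' g) (Or.inl (cl_self _ _)) ?_ k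
    rintro x y - (q | q) e
    · by_cases m : x ∈ U
      · exact Or.inr ⟨x, m, q⟩
      · exact Or.inl (cl_step q (h x m y e))
    · exact Or.inr q
  exact this.elim (fun q => ⟨u, hu, q⟩) id

theorem cl_avoid {r r' : Φ → Φ → Prop} {U : Set Φ} (h : ∀ x, x ∉ U → ∀ y, r' x y → r x y)
    {g : Φ} (k : ∀ u ∈ cl r g, u ∉ U) : cl r' g ⊆ cl r g := fun _ hx =>
  cl_ind (P := fun x => x ∈ cl r g) (cl_self _ _) (fun x y _ q e => cl_step q (h x (k x q) y e)) hx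

/-- every class of the coarse relation has two classes of the fine one -/
theorem nc_two {S B : Set Φ} {r r' : Φ → Φ → Prop} (hS : S.Finite) (hB : B ⊆ S) (h : Sy S r)
    (h' : Sy S r') (hr : ∀ x ∈ S, ∀ y, r x y → y ∈ cl r' x)
    (k : ∀ f ∈ B, ∃ g ∈ B, g ∈ cl r' f ∧ g ∉ cl r f) : 2 * nc r' B ≤ nc r B := by
  induction' hn : B.ncard using Nat.strong_induction_on with n ih
    generalizing B
  rcases B.eq_empty_or_nonempty with rfl | ⟨f, hf⟩
  · simp [nc_empty]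
  have fB := hS.subset hB
  obtain ⟨g, hg, g1, g2⟩ := k f hf
  have a1 := ih _ (hn ▸ ncard_lt_ncard ⟨sdiff_subset, fun q => (q hf).2 (cl_self _ _)⟩ fB)
    (B := B \ cl r' f) (fun x q => hB q.1) (fun x q => by
      obtain ⟨y, hy, y1, y2⟩ := k x q.1
      exact ⟨y, ⟨hy, fun m => q.2 (cl_trans m (h'.symm (hB q.1) y1))⟩, y1, y2⟩) rfl
  have fI : (B ∩ cl r' f).Finite := fB.subset inter_subset_left
  have a2 : nc r' B = 1 + nc r' (B \ cl r' f) := by
    rw [← nc_one h' (hB hf) (A := B ∩ cl r' f) ⟨hf, cl_self _ _⟩ inter_subset_right,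
      ← nc_union fI (fB.subset sdiff_subset), inter_union_sdiff]
    intro x hx y hy e
    exact hy.2 (cl_trans hx.2 (Sy.of_eq e.symm))
  have a3 : nc r B = nc r (B ∩ cl r' f) + nc r (B \ cl r' f) := by
    rw [← nc_union fI (fB.subset sdiff_subset), inter_union_sdiff]
    intro x hx y hy e
    exact hy.2 (cl_trans hx.2 (cl_le h hr (hB hx.1) (Sy.of_eq e.symm)))
  have a4 : 2 ≤ nc r (B ∩ cl r' f) := by
    rw [← ncard_pair (show cl r f ≠ cl r g from fun e => g2 (Sy.of_eq e.symm))]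
    refine ncard_le_ncard ?_ (fI.image _)
    rintro _ (rfl | rfl)
    · exact ⟨f, ⟨hf, cl_self _ _⟩, rfl⟩
    · exact ⟨g, ⟨hg, g1⟩, rfl⟩
  omega

theorem nc_le_on {S B : Set Φ} {r r' : Φ → Φ → Prop} (hS : S.Finite) (hB : B ⊆ S)
    (k : ∀ f ∈ B, ∀ g ∈ B, g ∈ cl r f → g ∈ cl r' f) : nc r' B ≤ nc r B := by
  have : cl r' '' B = (fun A => ⋃ x ∈ A ∩ B, cl r' x) '' (cl r '' B) := by
    rw [image_image]
    refine image_congr fun f hf => Subset.antisymm (fun g hg => ?_) fun g hg => ?_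
    · exact mem_biUnion (show f ∈ cl r f ∩ B from ⟨cl_self r f, hf⟩) hg
    · obtain ⟨x, hx, q⟩ := mem_iUnion₂.1 hg
      exact cl_trans (k f hf x hx.2 hx.1) q
  unfold nc
  rw [this]
  exact ncard_image_le ((hS.subset hB).image _)

namespace FM

variable {M : FM Φ} {U : Set Φ}

/-- the edges in `U` are contracted, all flags are kept -/
noncomputable def con (M : FM Φ) (U : Set Φ) : FM Φ := ⟨M.S, M.a, M.b, M.sg U⟩

/-- the edges off `U` are deleted, all flags are kept -/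
noncomputable def spn (M : FM Φ) (U : Set Φ) : FM Φ := ⟨M.S, M.sg U, M.b, M.c⟩

theorem gh_empty (M : FM Φ) (U : Set Φ) : M.gh U ∅ = M.spn U := by
  unfold gh spn
  congr 1
  · funext x
    by_cases k : x ∈ U
    · rw [ga_in k, sg_in k]
    · rw [ga_out k, sg_out k, sg_out (notMem_empty x)]
  · funext x; simp [gc]

theorem gh_con (U : Set Φ) : (M.gh (M.S \ U) U).Same (M.con U) := by
  refine ⟨rfl, fun f hf => ⟨?_, rfl, ?_⟩⟩
  · exact if_pos ((em (f ∈ U)).symm.imp (fun k => ⟨hf, k⟩) id)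
  · by_cases k : f ∈ U
    · exact gc_out fun m => m.2 k
    · exact (gc_in (show f ∈ M.S \ U from ⟨hf, k⟩)).trans (sg_out k).symm

theorem Gk.spn (h : M.Gk) (hU : M.Es U) : (M.spn U).Gk := gh_empty M U ▸ (h.gh hU es_empty).1

theorem Gk.con (h : M.Gk) (hU : M.Es U) : (M.con U).Gk :=
  (geg_congr (h.gh (h.es_diff h.es_S hU) hU).1 (gh_con U)).1

theorem Ok.geg_spn (h : M.Ok) (hU : M.Es U) : (M.spn U).geg = (M.sub U).eg :=
  gh_empty M U ▸ h.geg_gh hU es_empty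

theorem Ok.geg_con (h : M.Ok) (hU : M.Es U) : (M.con U).geg = (M.minor (M.S \ U) U).eg :=
  (geg_congr (h.gk.gh (h.gk.es_diff h.gk.es_S hU) hU).1 (gh_con U)).2.1.trans
    (h.geg_gh (h.gk.es_diff h.gk.es_S hU) hU)

theorem reg_eq (M : FM Φ) (U : Set Φ) : M.reg U = cl (M.con U).rC := by
  funext f
  show cl _ f = _
  congr 1
  funext x y
  refine propext ?_
  show _ ↔ y = M.a x ∨ y = M.b x ∨ y = M.sg U x
  by_cases k : x ∈ U
  · rw [sg_in k]; tauto
  · rw [sg_out k]; tauto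

theorem con_rV (M : FM Φ) (U : Set Φ) : (M.con U).rV = (M.spn U).rF := by
  funext x y; exact propext or_comm

theorem sub_fo (h : M.Gk) (hU : M.Es U) {f : Φ} (hf : f ∈ U) :
    (M.sub U).fo f = (M.spn U).fo f ∩ U := gh_empty M U ▸ (compF h hU es_empty).1 f hf

theorem sub_co (h : M.Gk) (hU : M.Es U) {f : Φ} (hf : f ∈ U) :
    (M.sub U).co f = (M.spn U).co f ∩ U := gh_empty M U ▸ (compC h hU es_empty).1 f hf

theorem nc_rE {N : FM Φ} (h : M.Gk) (g : N.Gk) {A : Set Φ} (hA : M.Es A) (hS : N.S = M.S)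
    (k : ∀ x ∈ A, N.a x = M.a x ∧ N.c x = M.c x) : nc N.rE A = nc M.rE A := by
  have s1 : Sy A M.rE := fun x q y e =>
    ⟨e.elim (fun e => e ▸ (hA.2 x q).1) fun e => e ▸ (hA.2 x q).2, (h.sE x (hA.1 q) y e).2⟩
  have ag : ∀ x ∈ A, ∀ y, N.rE x y ↔ M.rE x y := fun x q y => by simp only [rE, k x q]
  exact nc_congr fun f hf => cl_congr (fun x q y e => ⟨(s1 x q y ((ag x q y).1 e)).1,
    (g.sE x (hS ▸ hA.1 q) y e).2⟩) s1 (fun x q y e => cl_one ((ag x q y).1 e))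
    (fun x q y e => cl_one ((ag x q y).2 e)) hf

/-- the genus of a submap and of the quotient -/
theorem geg_add (h : M.Ok) (hU : M.Es U) :
    (M.spn U).geg + (M.con U).geg = M.eg - 2 * nc M.rC M.S + 2 * nc (M.spn U).rC M.S +
      2 * nc (M.con U).rC M.S - 2 * nc (M.spn U).rF M.S := by
  have hD := h.gk.es_diff h.gk.es_S hU
  have p1 : (M.spn U).prop = U := gh_empty M U ▸ h.gh_prop hU
  have p2 : (M.con U).prop = M.S \ U := by
    ext x
    refine ⟨fun k => ⟨k.1, fun m => k.2 (sg_in (M := M) m).symm⟩, fun k => ⟨k.1, ?_⟩⟩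
    show M.a x ≠ M.sg U x
    rw [sg_out k.2]; exact h.ne k.1
  have e1 := nc_rE h.gk (h.gk.spn hU) hU rfl fun x k => ⟨sg_in k, rfl⟩
  have e2 := nc_rE h.gk (h.gk.con hU) hD rfl fun x k => ⟨rfl, sg_out k.2⟩
  have e3 := nc_split (r := M.rE) h.fin hU.1 fun x q y e =>
    ⟨e.elim (fun e => e ▸ (hU.2 x q).1) fun e => e ▸ (hU.2 x q).2, (h.gk.sE x (hU.1 q) y e).2⟩
  have g1 : (M.spn U).geg = 2 * (nc (M.spn U).rC M.S : ℤ) - nc M.rV M.S +
    nc (M.spn U).rE (M.spn U).prop - nc (M.spn U).rF M.S := rfl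
  have g2 : (M.con U).geg = 2 * (nc (M.con U).rC M.S : ℤ) - nc (M.con U).rV M.S +
    nc (M.con U).rE (M.con U).prop - nc M.rF M.S := rfl
  rw [p1, e1] at g1
  rw [p2, e2, con_rV] at g2
  rw [eg_eq]; omega

theorem con_le (h : M.Gk) (hU : M.Es U) {f : Φ} (hf : f ∈ M.S) : cl (M.con U).rC f ⊆ M.co f := by
  refine cl_le (h.con hU).sC (r' := M.rC) ?_ hf
  rintro x - y (rfl | rfl | rfl)
  · exact cl_one (Or.inl rfl)
  · exact cl_one (Or.inr (Or.inl rfl))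
  · by_cases k : x ∈ U
    · exact cl_one (Or.inl (sg_in k))
    · exact cl_one (Or.inr (Or.inr (sg_out k)))

theorem rC_con {x : Φ} (k : x ∉ U) (y : Φ) : (M.con U).rC x y ↔ M.rC x y := by
  show y = M.a x ∨ y = M.b x ∨ y = M.sg U x ↔ _
  rw [sg_out k]; rfl

theorem geg_add_con (h : M.Ok) (hU : M.Es U) (hc : (M.sub U).Con) (ne : U.Nonempty) :
    (M.sub U).eg + (M.con U).geg =
      M.eg + 2 * nc (M.con U).rC U - 2 * nc (M.sub U).rF U := by
  obtain ⟨u, hu⟩ := ne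
  have uS := hU.1 hu
  have e0 := geg_add h hU
  have e1 := (compF h.gk hU es_empty).2
  have e2 := (compC h.gk hU es_empty).2
  rw [gh_empty] at e1 e2
  have e3 : nc (M.minor U ∅).rC U = 1 := nc_one (h.minor hU es_empty).gk.sC hu hu (hc u hu)
  have sK := h.gk.sC.sub uS
  have cK := h.gk.sC.cls uS
  have g := h.gk.con hU
  have UK : U ⊆ cl M.rC u := fun x k => by
    have := hc u hu x k
    rw [sub_co h.gk hU hu] at this
    refine cl_le (h.gk.spn hU).sC (r' := M.rC) ?_ uS this.1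
    rintro x - y (rfl | rfl | rfl)
    · by_cases k : x ∈ U
      · exact cl_one (Or.inl (sg_in k))
      · exact cl_one (Or.inr (Or.inr (sg_out k)))
    · exact cl_one (Or.inr (Or.inl rfl))
    · exact cl_one (Or.inr (Or.inr rfl))
  have cK' : Sy (cl M.rC u) (M.con U).rC := fun x k y e =>
    ⟨cl_trans k (con_le h.gk hU (sK k) (cl_one e)), (g.sC x (sK k) y e).2⟩
  have e4 := nc_split h.fin sK cK
  have e5 := nc_split h.fin sK cK'
  rw [nc_cls h.gk.sC uS] at e4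
  have e6 : nc (M.con U).rC (M.S \ cl M.rC u) = nc M.rC (M.S \ cl M.rC u) := nc_congr fun f hf =>
    cl_congr (g.sC.diff cK') (h.gk.sC.diff cK)
      (fun x k y e => cl_one ((rC_con (fun m => k.2 (UK m)) y).1 e))
      (fun x k y e => cl_one ((rC_con (fun m => k.2 (UK m)) y).2 e)) hf
  have e7 : nc (M.con U).rC (cl M.rC u) = nc (M.con U).rC U := by
    unfold nc
    congr 1
    refine Subset.antisymm ?_ (image_mono UK)
    rintro _ ⟨f, hf, rfl⟩
    obtain ⟨u', k1, k2⟩ := first_hit (r' := (M.con U).rC) (fun x k y e => (rC_con k y).2 e) hu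
      (h.gk.sC.symm uS hf)
    exact ⟨u', k1, g.sC.eq (sK hf) k2⟩
  rw [h.geg_spn hU] at e0
  show _ = M.eg + 2 * nc (M.con U).rC U - 2 * nc (M.minor U ∅).rF U
  omega

theorem clean_of (h : M.Ok) (hU : M.Es U) {f : Φ} (hf : f ∈ U)
    (al : M.reg U f ∩ U ⊆ (M.sub U).fo f) (h0 : ((M.con U).res (M.reg U f)).geg = 0) :
    M.Clean U f := by
  classical
  refine ⟨al, fun oa ob oc hF hE hV => ?_⟩
  have g := h.gk.con hU
  have fS := hU.1 hf
  rw [reg_eq] at *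
  have sK := g.sC.sub fS
  set oc' : Φ → ZMod 2 := fun x => if x ∈ U then oa x else oc x with hoc
  have tr : ∀ (p : Φ → Φ) (op : Φ → ZMod 2) (x : Φ), (∀ y ∈ orb p M.c x, y ∉ U) →
      Ev p M.c op oc x → Ev p (M.sg U) op oc' x := by
    rintro p op x n ⟨χ, k1, k2⟩
    have le : orb p (M.sg U) x ⊆ orb p M.c x :=
      cl_avoid (U := U) (fun y q z e => e.imp id fun e => e.trans (sg_out q)) n
    refine ⟨χ, fun y q => k1 y (le q), fun y q => ?_⟩
    rw [sg_out (n y (le q)), hoc]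
    simp only [if_neg (n y (le q))]
    exact k2 y (le q)
  have sat : ∀ x ∈ cl (M.con U).rC f, x ∈ M.sat U → x ∈ cl (M.con U).rV f := by
    rintro x hx ⟨u, hu, k⟩
    obtain ⟨u', k1, k2⟩ := first_hit (r := M.rV) (r' := (M.con U).rV)
      (fun y q z e => e.imp id fun e => e.trans (sg_out q).symm) hu (h.gk.sV.symm (hU.1 hu) k)
    have k3 := al ⟨cl_trans hx (cl_le g.sV (fun y _ z e => cl_one (Or.inr e)) (sK hx) k2), k1⟩
    rw [sub_fo h.gk hU hf, fo_eq, ← con_rV] at k3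
    exact cl_trans k3.1 (g.sV.symm (sK hx) k2)
  have ev : ∀ x ∈ cl (M.con U).rC f, x ∉ M.sat U → Ev M.b (M.sg U) ob oc' x := fun x hx n =>
    tr _ _ x (fun y q m => n ⟨y, m, h.gk.sV.symm (sK hx) q⟩) (hV x hx n)
  obtain ⟨χ, k1, k2, k3⟩ := sphereS Φ _ oa ob oc' (g.res sK (g.sC.cls fS)) h0 (by
    intro x hx
    by_cases q : x ∈ U
    · obtain ⟨χ, k1, -⟩ := hF x hx
      have le : ∀ y ∈ orb M.a (M.sg U) x, y ∈ U ∧ y ∈ orb M.a M.b x := fun y m =>
        cl_ind (r := fun y z => z = M.a y ∨ z = M.sg U y)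
          (P := fun y => y ∈ U ∧ y ∈ orb M.a M.b x) ⟨q, cl_self _ _⟩ (fun y z _ m e => by
          have : z = M.a y := e.elim id fun e => e.trans (sg_in m.1)
          exact ⟨this ▸ (hU.2 y m.1).1,
            cl_step (r := fun y z => z = M.a y ∨ z = M.b y) m.2 (Or.inl this)⟩) m
      refine ⟨χ, fun y m => k1 y (le y m).2, fun y m => ?_⟩
      show χ (M.sg U y) = χ y + oc' y
      rw [sg_in (le y m).1, hoc]
      simp only [if_pos (le y m).1]
      exact k1 y (le y m).2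
    · exact tr _ _ x (fun y m => ((h.gk.es_diff h.gk.es_S hU).eo_sub ⟨sK hx, q⟩ m).2) (hE x hx q))
    hF (by
    intro x hx y hy
    have hy' : y ∈ cl (M.con U).rC f := cl_trans hx hy
    by_cases q1 : x ∈ M.sat U
    · by_cases q2 : y ∈ M.sat U
      · exact Or.inr (Or.inr (cl_trans (g.sV.symm fS (sat x hx q1)) (sat y hy' q2)))
      · exact Or.inr (Or.inl (ev y hy' q2))
    · exact Or.inl (ev x hx q1))
  refine ⟨χ, k1, k2, fun x hx => ?_⟩
  have := k3 x hx.1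
  rw [show ((M.con U).res (cl (M.con U).rC f)).c x = M.c x from sg_out hx.2, hoc] at this
  simpa only [if_neg hx.2] using this

theorem sub_fo_le (h : M.Ok) (hU : M.Es U) {f : Φ} (hf : f ∈ U) :
    (M.sub U).fo f ⊆ cl (M.con U).rC f := by
  rw [sub_fo h.gk hU hf, fo_eq, ← con_rV]
  exact fun x k => cl_le (h.gk.con hU).sV (fun y _ z e => cl_one (Or.inr e)) (hU.1 hf) k.1

theorem unclean (h : M.Ok) (hU : M.Es U) :
    (nc (M.sub U).rF {f | f ∈ U ∧ ¬ M.Clean U f} : ℤ) ≤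
      (M.con U).geg + 2 * nc (M.sub U).rF U - 2 * nc (M.con U).rC U := by
  set B1 : Set Φ := {f | f ∈ U ∧ ¬ M.reg U f ∩ U ⊆ (M.sub U).fo f} with hB1
  set B2 : Set Φ := {f | (f ∈ U ∧ M.reg U f ∩ U ⊆ (M.sub U).fo f) ∧
    ((M.con U).res (M.reg U f)).geg ≠ 0} with hB2
  have g := h.gk.con hU
  have s : Sy U (M.sub U).rF := (h.minor hU es_empty).gk.sF
  have fU := h.fin.subset hU.1
  have f1 : B1.Finite := fU.subset fun _ k => k.1
  have f2 : B2.Finite := fU.subset fun _ k => k.1.1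
  have a1 : nc (M.sub U).rF {f | f ∈ U ∧ ¬ M.Clean U f} ≤
      nc (M.sub U).rF B1 + nc (M.sub U).rF B2 := by
    refine (nc_mono (f1.union f2) fun f k => ?_).trans ?_
    · by_contra n
      have n1 : M.reg U f ∩ U ⊆ (M.sub U).fo f := by
        by_contra q; exact n (Or.inl ⟨k.1, q⟩)
      refine k.2 (clean_of h hU k.1 n1 ?_)
      by_contra q; exact n (Or.inr ⟨⟨k.1, n1⟩, q⟩)
    · unfold nc; rw [image_union]; exact ncard_union_le _ _
  have a2 : nc (M.sub U).rF B2 ≤ nc (M.con U).rC B2 :=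
    nc_le_on fU (fun _ k => k.1.1) fun f k x q m => k.1.2 ⟨by rw [reg_eq]; exact m, q.1.1⟩
  have a3 := nc_le_geg g (B := B2) (fun _ k => hU.1 k.1.1) fun f k => by
    rw [co_eq, ← reg_eq]; exact k.2
  have c1 : ∀ f ∈ B1, ∀ x ∈ U, x ∈ cl (M.con U).rC f → x ∈ B1 := by
    intro f k x hx m
    refine ⟨hx, fun q => k.2 ?_⟩
    rw [reg_eq] at q ⊢
    rw [g.sC.eq (hU.1 k.1) m] at q
    rw [fo_eq, s.eq hx (q ⟨cl_self _ _, k.1⟩)]
    exact q
  set t : Φ → Φ → Prop := fun x y => y ∈ U ∧ y ∈ cl (M.con U).rC x with ht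
  have st : Sy U t := fun x k y e => ⟨e.1, k, g.sC.symm (hU.1 k) e.2⟩
  have ct : ∀ f ∈ U, cl t f = cl (M.con U).rC f ∩ U := fun f k =>
    Subset.antisymm (fun x q => cl_ind (P := fun x => x ∈ cl (M.con U).rC f ∩ U)
      ⟨cl_self _ _, k⟩ (fun y z _ m e => ⟨cl_trans m.1 e.2, e.1⟩) q) fun x q => cl_one ⟨q.2, q.1⟩
  have le : ∀ x ∈ U, ∀ y, (M.sub U).rF x y → y ∈ cl t x := fun x k y e =>
    cl_one ⟨(s x k y e).1, sub_fo_le h hU k (cl_one e)⟩
  have a4 : 2 * nc t B1 ≤ nc (M.sub U).rF B1 := by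
    refine nc_two fU (fun _ k => k.1) s st le fun f k => ?_
    obtain ⟨x, x1, x2⟩ := not_subset.1 k.2
    rw [reg_eq] at x1
    exact ⟨x, c1 f k x x1.2 x1.1, cl_one ⟨x1.2, x1.1⟩, x2⟩
  have a5 : nc t (U \ B1) ≤ nc (M.sub U).rF (U \ B1) :=
    nc_le_on fU sdiff_subset fun f k x _ m => cl_le s le k.1 m
  have a6 := nc_split (r := t) fU (A := B1) (fun _ k => k.1) fun x k y e =>
    ⟨c1 x k y e.1 e.2, (st x k.1 y e).2⟩
  have a7 := nc_split (r := (M.sub U).rF) fU (A := B1) (fun _ k => k.1) fun x k y e =>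
    ⟨c1 x k y (s x k.1 y e).1 (sub_fo_le h hU k.1 (cl_one e)), (s x k.1 y e).2⟩
  have a8 : nc (M.con U).rC U ≤ nc t U :=
    nc_le_on h.fin hU.1 fun f k x _ m => (ct f k ▸ m :).1
  omega

theorem bridge_del (h : M.Gk) {E : Set Φ} (hE : M.Es E) {e : Φ} (he : e ∈ M.S) (n : e ∉ E)
    (k : M.Bridge e) : (M.del E).Bridge e := by
  intro q
  have eo : (M.del E).eo e = M.eo e := by
    ext x
    rw [(h.del hE).mem_eo he, h.mem_eo he, del_a_neg n,
      del_a_neg (show (M.del E).c e ∉ E from fun m => n ((h.es_c hE he).1 m))]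
    rfl
  rw [del_a_neg n, eo] at q
  refine k (ReflTransGen.mono ?_ _ _ q)
  rintro x y (rfl | rfl | ⟨m, rfl⟩)
  · exact Or.inl rfl
  · exact Or.inr (Or.inl rfl)
  · by_cases t : x ∈ E
    · exact Or.inr (Or.inl (del_a_pos t))
    · exact Or.inr (Or.inr ⟨m, del_a_neg t⟩)

theorem geg_del_bridges (h : M.Gk) {D : Set Φ} (hD : M.Es D)
    (k : ∀ e ∈ D, M.a e ≠ M.c e → M.Bridge e) : (M.del D).geg = M.geg := by
  refine del_ind (P := fun M D => (∀ e ∈ D, M.a e ≠ M.c e → M.Bridge e) →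
    (M.del D).geg = M.geg) ?_ ?_ M D h hD k
  · intro M D h _ k _
    exact (geg_congr h (del_same_of_disj k)).2.1
  · intro M D e h hD he hne ih k
    have hE := h.es_eo (hD.1 he)
    rw [(geg_congr ((h.del hE).del (es_del h hD hE)) (del_del (hD.eo_sub he))).2.1, ih,
      (del_count h (hD.1 he) hne).2.1 ((brIn_iff h (hD.1 he)).1 (k e he hne))]
    intro x q m
    rw [del_a_neg q.2] at m
    exact bridge_del h hE (hD.1 q.1) q.2 (k x q.1 m)

theorem spn_bridge (h : M.Ok) {C : Set Φ} (hC : M.Es C) {e : Φ} (he : e ∈ C) (k : M.BrIn C e) :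
    (M.spn C).Bridge e := by
  intro q
  have eS := hC.1 he
  have eo : (M.spn C).eo e = M.eo e := by
    ext x
    rw [(h.gk.spn hC).mem_eo eS, h.gk.mem_eo eS]
    show x = e ∨ x = M.sg C e ∨ x = M.c e ∨ x = M.sg C (M.c e) ↔ _
    rw [sg_in he, sg_in (hC.2 e he).2]
  rw [show (M.spn C).a e = M.a e from sg_in he, eo] at q
  refine k (ReflTransGen.mono ?_ _ _ q)
  rintro x y (rfl | rfl | ⟨m, rfl⟩)
  · exact Or.inl rfl
  · exact Or.inr (Or.inl rfl)
  · by_cases t : x ∈ C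
    · exact Or.inr (Or.inr ⟨⟨t, m.2⟩, sg_in t⟩)
    · exact Or.inr (Or.inl (sg_out t))

theorem nocob (h : M.Gk) {D : Set Φ} (hD : M.Es D) (lt : (M.del D).geg < M.geg) :
    ∃ β χ, M.Ech β ∧ Pot M.S M.a β χ ∧ Pot M.S M.b 0 χ ∧ (∀ f ∈ M.S \ D, β f = 0) ∧
      ∃ e ∈ M.S, β e = 1 ∧ ReflTransGen
        (fun x y => y = M.b x ∨ y = M.c x ∨ (β x = 0 ∧ y = M.a x)) e (M.a e) := by
  classical
  refine del_ind (P := fun M D => (M.del D).geg < M.geg → ∃ β χ, M.Ech β ∧ Pot M.S M.a β χ ∧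
    Pot M.S M.b 0 χ ∧ (∀ f ∈ M.S \ D, β f = 0) ∧ ∃ e ∈ M.S, β e = 1 ∧ ReflTransGen
      (fun x y => y = M.b x ∨ y = M.c x ∨ (β x = 0 ∧ y = M.a x)) e (M.a e)) ?_ ?_ M D h hD lt
  · intro M D h _ k lt
    exact absurd (geg_congr h (del_same_of_disj k)).2.1 lt.ne
  intro M D e h hD he hne ih lt
  have eS := hD.1 he
  have hE := h.es_eo eS
  obtain ⟨d1, d2, -, d4⟩ := del_count h eS hne
  by_cases q : (M.del (M.eo e)).geg = M.geg
  · rw [(geg_congr ((h.del hE).del (es_del h hD hE)) (del_del (hD.eo_sub he))).2.1, ← q] at lt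
    obtain ⟨β, χ, k1, k2, k3, k4, x, hx, k5, k6⟩ := ih lt
    have z : ∀ y ∈ M.eo e, β y = 0 := fun y m => k4 y ⟨hE.1 m, fun t => t.2 m⟩
    have ag : ∀ y ∈ M.S, y ∉ M.eo e → χ y + χ (M.a y) = β y := fun y m n => by
      have := k2 y m
      rw [del_a_neg n] at this
      rw [this, ← add_assoc, z2_add_self, zero_add]
    have cz : ∀ y ∈ M.eo e, χ (M.c y) = χ y := fun y m => by
      have := k2 y (hE.1 m)
      rwa [del_a_pos m, z y m, add_zero] at this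
    have nx : x ∉ M.eo e := fun m => by rw [z x m] at k5; exact zero_ne_one k5
    refine ⟨fun y => χ y + χ (M.a y), χ, fun y m => ⟨?_, ?_⟩, fun y _ => ?_, k3, fun y m => ?_,
      x, hx, (ag x hx nx).trans k5, ?_⟩
    · simp only [h.aa m, add_comm]
    · by_cases n : y ∈ M.eo e
      · simp only [h.ac y m, cz y n, cz _ (hE.2 y n).1]
      · show χ (M.c y) + χ (M.a (M.c y)) = χ y + χ (M.a y)
        rw [ag y m n, ag _ (h.cm m) fun t => n ((h.es_c hE m).1 t)]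
        exact (k1 y m).2
    · simp only [← add_assoc, z2_add_self, zero_add]
    · show χ y + χ (M.a y) = 0
      rw [ag y m.1 fun t => m.2 (hD.eo_sub he t)]
      exact k4 y ⟨m.1, fun t => m.2 t.1⟩
    · rw [del_a_neg nx] at k6
      refine cl_le (S := M.S) (r := fun u w => w = M.b u ∨ w = M.c u ∨
        (β u = 0 ∧ w = (M.del (M.eo e)).a u)) ?_ ?_ hx k6
      · rintro u hu w (rfl | rfl | ⟨t, rfl⟩)
        · exact ⟨h.bm hu, Or.inl (h.bb hu).symm⟩
        · exact ⟨h.cm hu, Or.inr (Or.inl (h.cc hu).symm)⟩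
        · exact ⟨(h.del hE).am hu, Or.inr (Or.inr ⟨(k1 u hu).1.trans t, ((h.del hE).aa hu).symm⟩)⟩
      · rintro u hu w (rfl | rfl | ⟨t, rfl⟩)
        · exact cl_one (Or.inl rfl)
        · exact cl_one (Or.inr (Or.inl rfl))
        · by_cases n : u ∈ M.eo e
          · exact cl_one (Or.inr (Or.inl (del_a_pos n)))
          · exact cl_one (Or.inr (Or.inr ⟨(ag u hu n).trans t, del_a_neg n⟩))
  · have nb : M.Nb e := by by_contra n; exact q (d2 n)
    have me : mate M.b M.a (M.eo e) e ≠ M.a e := d4.1 (by by_contra n; exact q (d1 n).2)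
    have hDa : ∀ x ∈ M.eo e, M.a x ∈ M.eo e := fun x k => (hE.2 x k).1
    have sK := cut_sy h.ib h.ia hDa
    have eD : e ∈ M.eo e := cl_self M.rE e
    have sp := mate_spec h.fin h.ib h.ia hE.1 hDa (hDa e eD)
    have iv := mate_inv h.fin h.ib h.ia hE.1 hDa
    set K := cl (cut M.b M.a (M.eo e)) (M.a e) with hK
    set w := mate M.b M.a (M.eo e) (M.a e) with hw
    have w1 : w ≠ e := fun t => me (by
      have := (iv _ (hDa e eD)).2.1
      rwa [← hw, t] at this)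
    have w2 : w ≠ M.a e := (iv _ (hDa e eD)).2.2
    have n1 := (h.ia e eS).2.2
    have n4 := (h.ia _ (h.cm eS)).2.2
    have n5 : M.a (M.c e) ≠ M.a e := by rw [h.ac e eS]; exact (h.ic _ (h.am eS)).2.2
    have mem : ∀ y ∈ M.eo e, y ∈ K ↔ y = M.a e ∨ y = w := fun y m =>
      ⟨fun t => sp.2.2 y t m, fun t => t.elim (fun t => t ▸ cl_self _ _) fun t => t ▸ sp.2.1⟩
    have step : ∀ y ∈ M.S, ∀ y', cut M.b M.a (M.eo e) y y' → (y' ∈ K ↔ y ∈ K) := fun y m y' t =>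
      ⟨fun s => cl_step s (sK y m y' t).2, fun s => cl_step s t⟩
    have flip : ∀ y ∈ M.eo e, (M.a y ∈ K ↔ y ∉ K) := by
      intro y m
      rw [mem y m, mem _ (hDa y m)]
      rcases (h.mem_eo eS).1 sp.1 with t | t | t | t
      · exact (w1 t).elim
      · exact (w2 t).elim
      · rw [t] at w1 ⊢
        rcases (h.mem_eo eS).1 m with rfl | rfl | rfl | rfl
        · simp [n1.symm, w1.symm]
        · simp [h.aa eS, n1.symm, w1.symm]
        · simp [n4, n5]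
        · simp [h.aa (h.cm eS), n4, n5]
      · rw [t] at w1 ⊢
        rcases (h.mem_eo eS).1 m with rfl | rfl | rfl | rfl
        · simp [n1.symm, w1.symm]
        · simp [h.aa eS, n1.symm, w1.symm]
        · simp [n4.symm, hne.symm]
        · simp [h.aa (h.cm eS), n4.symm, hne.symm]
    refine ⟨fun y => if y ∈ M.eo e then 1 else 0, fun y => if y ∈ K then 1 else 0,
      fun y m => ⟨?_, ?_⟩, fun y m => ?_, fun y m => ?_, fun y m => ?_, e, eS, if_pos eD, ?_⟩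
    · simp only [h.es_a hE m]
    · simp only [h.es_c hE m]
    · by_cases n : y ∈ M.eo e
      · simp only [flip y n, if_pos n]
        by_cases t : y ∈ K <;> simp [t]
        decide
      · simp only [step y m _ (Or.inr ⟨n, rfl⟩), if_neg n, add_zero]
    · simp only [step y m _ (Or.inl rfl), Pi.zero_apply, add_zero]
    · exact if_neg fun t => m.2 (hD.eo_sub he t)
    · have := (brIn_iff h eS).not.2 (not_not.2 nb)
      refine ReflTransGen.mono ?_ _ _ (not_not.1 this)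
      rintro x y (t | t | ⟨s, t⟩)
      · exact Or.inl t
      · exact Or.inr (Or.inl t)
      · exact Or.inr (Or.inr ⟨if_neg s.2, t⟩)

end FM

open FM

theorem cleanS : CleanS := by
  intro Φ M U h hU hc
  rcases U.eq_empty_or_nonempty with rfl | ne
  · have := (monoS Φ M h).2 ∅ ∅ es_empty es_empty
    simpa [FM.sub] using this
  · have a1 := unclean h hU
    have a2 := geg_add_con h hU hc ne
    show (nc (M.sub U).rF {f | f ∈ U ∧ ¬ M.Clean U f} : ℤ) ≤ _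
    omega

theorem regS : RegS := by
  intro Φ M U h hU hc he
  have hD := h.gk.es_diff h.gk.es_S hU
  refine ⟨?_, fun f hf => Subset.antisymm ?_ fun x k => ⟨?_, ?_⟩⟩
  · rw [← (geg_congr (h.gk.gh hD hU).1 (gh_con U)).2.1]
    have a0 := geg_nonneg (h.gk.con hU)
    rcases U.eq_empty_or_nonempty with rfl | ne
    · have a1 : (M.sub ∅).eg = 0 := by
        show 2 * (nc _ ∅ : ℤ) - nc _ ∅ + nc _ ∅ - nc _ ∅ = 0
        simp [nc_empty]
      have a2 := (monoS Φ M h).2 _ _ hD hU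
      rw [← h.geg_con hU] at a2
      omega
    · have a1 := unclean h hU
      have a2 := geg_add_con h hU hc ne
      have a3 : nc (M.con U).rC U ≤ nc (M.sub U).rF U :=
        nc_le_on h.fin hU.1 fun f k x _ m => sub_fo_le h hU k m
      omega
  · have := cleanS Φ M U h hU hc
    rw [he, sub_self] at this
    have z : nc (M.sub U).rF {f | f ∈ U ∧ ¬ M.Clean U f} = 0 := by
      have t : (nc (M.sub U).rF {f | f ∈ U ∧ ¬ M.Clean U f} : ℤ) ≤ 0 := this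
      omega
    by_contra n
    have := nc_pos (r := (M.sub U).rF) (A := {f | f ∈ U ∧ ¬ M.Clean U f})
      (h.fin.subset fun _ k => hU.1 k.1) ⟨hf, fun k => n k.alone⟩
    omega
  · rw [reg_eq]; exact sub_fo_le h hU hf k
  · exact (h.minor hU es_empty).gk.sF.sub hf k

theorem forestS : ForestS := by
  intro Φ M C h hC k
  have g := h.gk.spn hC
  have g' := h.gk.con hC
  have pr : ∀ e ∈ M.S, (M.spn C).a e ≠ (M.spn C).c e → e ∈ C := fun e _ n => by
    by_contra q; exact n (sg_out q)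
  have br : ∀ e ∈ M.S, (M.spn C).a e ≠ (M.spn C).c e → (M.spn C).Bridge e := fun e he n =>
    spn_bridge h hC (pr e he n) (k e (pr e he n))
  have a1 : (M.spn C).geg = 0 := by
    rw [← geg_del_bridges g g.es_S br]
    exact geg_flat (g.del g.es_S) fun x hx => del_a_pos hx
  have cf : ∀ x ∈ M.S, M.c x ∈ cl (M.spn C).rF x := fun x hx => by
    by_cases n : (M.spn C).a x = (M.spn C).c x
    · exact cl_one (Or.inl n.symm)
    · by_contra q
      exact (brIn_iff g hx).1 (br x hx n) ((del_count g hx n).1 q).1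
  have a2 : ∀ f ∈ M.S, cl (M.spn C).rC f = cl (M.spn C).rF f := fun f hf =>
    cl_congr g.sC g.sF (by
      rintro x hx y (e | e | rfl)
      · exact cl_one (Or.inl e)
      · exact cl_one (Or.inr e)
      · exact cf x hx) (fun x _ y e => cl_one (e.imp id Or.inl)) hf
  have a3 : ∀ f ∈ M.S, cl (M.con C).rC f = cl M.rC f := fun f hf =>
    Subset.antisymm (con_le h.gk hC hf) (cl_le h.gk.sC (by
      rintro x hx y (e | e | rfl)
      · exact cl_one (Or.inl e)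
      · exact cl_one (Or.inr (Or.inl e))
      · exact cl_le g'.sV (fun y _ z e => cl_one (Or.inr e)) hx (con_rV M C ▸ cf x hx)) hf)
  have a4 := geg_add h hC
  rw [nc_congr a2, nc_congr a3, a1, h.geg_con hC] at a4
  refine ⟨by omega, fun f hf => ?_⟩
  have hD := h.gk.es_diff h.gk.es_S hC
  rw [(compV h.gk hD hC).1 f hf, ← ((geg_congr (h.gk.gh hD hC).1 (gh_con C)).2.2 f hf.1).1,
    gh_empty, co_eq, a2 f hf.1, vo_eq, con_rV]
  ext x
  exact ⟨fun q => ⟨q.1, q.2.2⟩, fun q => ⟨q.1, g.sF.sub hf.1 q.1, q.2⟩⟩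

theorem noCobS : NoCobS := by
  intro Φ M U h hU lt
  rw [h.eg_sub hU, ← h.geg] at lt
  obtain ⟨β, χ, k1, k2, k3, k4, k5⟩ := nocob h.gk (h.gk.es_diff h.gk.es_S hU) lt
  exact ⟨β, χ, k1, k2, k3, fun f hf => k4 f ⟨hU.1 hf, fun m => m.2 hf⟩, k5⟩

end Pool.Agent.MP_9d78a0_co.gm

end MrgPart2

-- ======== part 3: formerly Pool.Agent.MP_9d78a0_co.gm.CSpan
section MrgPart3

/-! Flag maps: spanning forests. -/

set_option autoImplicit false

namespace Pool.Agent.MP_9d78a0_co.gm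

open Set Function Relation

namespace CSpan

variable {Φ : Type} {M : FM Φ} {C D : Set Φ} {e f g : Φ}

/-- moves round the vertices and along the edges of `C` -/
def St (M : FM Φ) (C : Set Φ) (x y : Φ) : Prop := y = M.b x ∨ y = M.c x ∨ (x ∈ C ∧ y = M.a x)

lemma mono {r s : Φ → Φ → Prop} (h : ∀ x y, r x y → s x y) (k : ReflTransGen r f g) :
    ReflTransGen s f g := ReflTransGen.mono h f g k

lemma co_iff : g ∈ (M.gh C ∅).co f ↔ ReflTransGen (St M C) f g := by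
  refine ⟨mono fun x y k => ?_, mono fun x y k => ?_⟩
  · simp only [FM.gh, FM.ga, FM.gc, mem_empty_iff_false, or_false, and_false, if_false] at k
    rcases k with k | k | k
    · split_ifs at k with c
      exacts [.inr (.inr ⟨c.resolve_right id, k⟩), .inr (.inl k)]
    · exact .inl k
    · exact .inr (.inl k)
  · simp only [FM.gh, FM.ga, FM.gc, mem_empty_iff_false, or_false, and_false, if_false]
    rcases k with k | k | ⟨c, k⟩
    · exact .inr (.inl k)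
    · exact .inr (.inr k)
    · exact .inl (by rwa [if_pos (.inl c)])

lemma symm (hM : M.Ok) (hC : M.Es C) (hf : f ∈ M.S) (h : ReflTransGen (St M C) f g) :
    g ∈ M.S ∧ ReflTransGen (St M C) g f := by
  induction h with
  | refl => exact ⟨hf, .refl⟩
  | tail _ k ih =>
    rcases k with rfl | rfl | ⟨c, rfl⟩
    · exact ⟨(hM.ib _ ih.1).1, .head (.inl (hM.ib _ ih.1).2.1.symm) ih.2⟩
    · exact ⟨(hM.ic _ ih.1).1, .head (.inr (.inl (hM.ic _ ih.1).2.1.symm)) ih.2⟩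
    · exact ⟨(hM.ia _ ih.1).1, .head (.inr (.inr ⟨(hC.2 _ c).1, (hM.ia _ ih.1).2.1.symm⟩)) ih.2⟩

lemma es_diff (hM : M.Ok) (hD : M.Es D) (e : Φ) : M.Es (D \ M.eo e) :=
  ⟨fun _ h => hD.1 h.1, fun f h =>
    ⟨⟨(hD.2 f h.1).1, fun k => h.2 (ReflTransGen.tail k (.inl (hM.ia f (hD.1 h.1)).2.1.symm))⟩,
      ⟨(hD.2 f h.1).2, fun k => h.2 (ReflTransGen.tail k (.inr (hM.ic f (hD.1 h.1)).2.1.symm))⟩⟩⟩

lemma along (hM : M.Ok) (hC : M.Es C) (he : e ∈ M.S) (h : ReflTransGen (St M C) e (M.a e))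
    (hf : f ∈ M.eo e) : f ∈ M.S ∧ ReflTransGen (St M C) f (M.a f) := by
  induction hf with
  | refl => exact ⟨he, h⟩
  | tail _ k ih =>
    rcases k with rfl | rfl
    · exact ⟨(hM.ia _ ih.1).1, by rw [(hM.ia _ ih.1).2.1]; exact (symm hM hC ih.1 ih.2).2⟩
    · exact ⟨(hM.ic _ ih.1).1, .head (.inr (.inl (hM.ic _ ih.1).2.1.symm))
        (ih.2.tail (.inr (.inl (hM.ac _ ih.1).1)))⟩

lemma co_diff (hM : M.Ok) (hD : M.Es D) (he : e ∈ D) (h : ¬ M.BrIn D e) (f : Φ) :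
    (M.gh (D \ M.eo e) ∅).co f = (M.gh D ∅).co f := by
  ext g
  rw [co_iff, co_iff]
  refine ⟨mono fun x y k => Or.imp_right (Or.imp_right (And.imp_left And.left)) k, fun k => ?_⟩
  induction k with
  | refl => exact .refl
  | @tail x y _ k ih =>
    rcases k with k | k | ⟨c, rfl⟩
    · exact ih.tail (.inl k)
    · exact ih.tail (.inr (.inl k))
    · by_cases c' : x ∈ M.eo e
      · exact ih.trans (along hM (es_diff hM hD e) (hD.1 he) (not_not.1 h) c').2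
      · exact ih.tail (.inr (.inr ⟨⟨c, c'⟩, rfl⟩))

end CSpan

open CSpan in
theorem spanS : SpanS := by
  intro Φ M D hM hD
  induction hn : D.ncard using Nat.strong_induction_on generalizing D with
  | _ n ih =>
    by_cases h : ∀ e ∈ D, M.BrIn D e
    · exact ⟨D, subset_rfl, hD, h, fun _ _ => rfl⟩
    · push Not at h
      obtain ⟨e, he, h⟩ := h
      obtain ⟨C, h1, h2, h3, h4⟩ := ih _ (hn ▸ ncard_lt_ncard
        ⟨sdiff_subset, fun k => (k he).2 ReflTransGen.refl⟩ (hM.fin.subset hD.1)) _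
        (es_diff hM hD e) rfl
      exact ⟨C, h1.trans sdiff_subset, h2, h3, fun f hf => (h4 f hf).trans (co_diff hM hD he h f)⟩

end Pool.Agent.MP_9d78a0_co.gm

end MrgPart3

-- ======== part 4: formerly Pool.Agent.MP_9d78a0_co.gm.Op0
section MrgPart4

/-! Tools for operations on maps: projections, isomorphisms, peeling, merging. -/

set_option autoImplicit false

namespace Pool.Agent.MP_9d78a0_co.gm

open Set Function Relation

variable {Φ Ψ V : Type}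

/-- classes correspond under a projection with a section -/
theorem cl_proj {S : Set Φ} {S' : Set Ψ} {r : Φ → Φ → Prop} {r' : Ψ → Ψ → Prop} (π : Ψ → Φ)
    (j : Φ → Ψ) (hs : Sy S r) (hs' : Sy S' r') (hj : ∀ x ∈ S, j x ∈ S' ∧ π (j x) = x)
    (h1 : ∀ z ∈ S', ∀ w, r' z w → π w ∈ cl r (π z))
    (h2 : ∀ x ∈ S, ∀ y, r x y → j y ∈ cl r' (j x))
    (h3 : ∀ z ∈ S', π z ∈ S ∧ z ∈ cl r' (j (π z))) :
    (∀ z ∈ S', ∀ w ∈ S', w ∈ cl r' z ↔ π w ∈ cl r (π z)) ∧ nc r' S' = nc r S := by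
  have a1 : ∀ z ∈ S', ∀ w ∈ cl r' z, π w ∈ cl r (π z) := fun z hz w hw =>
    cl_ind (P := fun w => π w ∈ cl r (π z)) (cl_self _ _)
      (fun x y hx ih e => cl_trans ih (h1 x (hs'.sub hz hx) y e)) hw
  have a2 : ∀ x ∈ S, ∀ y ∈ cl r x, j y ∈ cl r' (j x) := fun x hx y hy =>
    cl_ind (P := fun y => j y ∈ cl r' (j x)) (cl_self _ _)
      (fun u v hu ih e => cl_trans ih (h2 u (hs.sub hx hu) v e)) hy
  refine ⟨fun z hz w hw => ⟨a1 z hz w, fun k => ?_⟩, ?_⟩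
  · exact cl_trans (hs'.symm (hj _ (h3 z hz).1).1 (h3 z hz).2)
      (cl_trans (a2 _ (h3 z hz).1 _ k) (h3 w hw).2)
  · have e : cl r '' S = (fun A => π '' A) '' (cl r' '' S') := by
      have t : ∀ z ∈ S', π '' cl r' z = cl r (π z) := fun z hz => by
        refine Subset.antisymm (by rintro _ ⟨w, hw, rfl⟩; exact a1 z hz w hw) fun y hy => ?_
        refine ⟨j y, cl_trans (hs'.symm (hj _ (h3 z hz).1).1 (h3 z hz).2)
          (a2 _ (h3 z hz).1 _ hy), (hj y (hs.sub (h3 z hz).1 hy)).2⟩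
      rw [image_image]
      ext A
      constructor
      · rintro ⟨x, hx, rfl⟩
        exact ⟨j x, (hj x hx).1, (t _ (hj x hx).1).trans (by rw [(hj x hx).2])⟩
      · rintro ⟨z, hz, rfl⟩
        exact ⟨π z, (h3 z hz).1, (t z hz).symm⟩
    unfold nc
    rw [e]
    refine (InjOn.ncard_image ?_).symm
    rintro _ ⟨z, hz, rfl⟩ _ ⟨w, hw, rfl⟩ q
    have q' : π '' cl r' z = π '' cl r' w := q
    obtain ⟨u, hu, k⟩ : π z ∈ π '' cl r' w := q' ▸ ⟨z, cl_self _ _, rfl⟩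
    have u1 := hs'.sub hw hu
    have : z ∈ cl r' u := cl_trans (hs'.symm (hj _ (h3 u u1).1).1 (h3 u u1).2) (k ▸ (h3 z hz).2)
    exact hs'.eq hw (cl_trans hu this)

theorem Inv.sy1 {Q : Set Φ} {p : Φ → Φ} (h : Inv Q p) : Sy Q fun x y => y = p x := by
  rintro x hx y rfl
  exact ⟨(h x hx).1, (h x hx).2.1.symm⟩

theorem Inv.cl1 {Q : Set Φ} {p : Φ → Φ} (h : Inv Q p) {x : Φ} (hx : x ∈ Q) :
    cl (fun x y => y = p x) x = {x, p x} := by
  refine Subset.antisymm (fun y hy => ?_) ?_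
  · refine cl_ind (P := fun y => y ∈ ({x, p x} : Set Φ)) (Or.inl rfl) ?_ hy
    rintro u v - (rfl | rfl) rfl
    · exact Or.inr rfl
    · exact Or.inl (h x hx).2.1
  · rintro _ (rfl | rfl)
    · exact cl_self _ _
    · exact cl_one rfl

/-- the number of pairs of an involution -/
theorem nc_pair {Q : Set Φ} {p : Φ → Φ} (hQ : Q.Finite) (h : Inv Q p) :
    2 * nc (fun x y => y = p x) Q = Q.ncard := by
  induction' hn : Q.ncard using Nat.strong_induction_on with n ih generalizing Q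
  rcases Q.eq_empty_or_nonempty with rfl | ⟨x, hx⟩
  · rw [nc_empty, ← hn]; simp
  have s := h.sy1
  have sub := s.sub hx
  have d := s.diff (s.cls hx)
  have a1 := ih _ (hn ▸ ncard_lt_ncard ⟨sdiff_subset, fun q => (q hx).2 (cl_self _ _)⟩ hQ)
    (hQ.subset sdiff_subset) (Q := Q \ cl (fun x y => y = p x) x)
    (fun y hy => ⟨(d y hy _ rfl).1, (h y hy.1).2⟩) rfl
  have a2 := nc_split hQ sub (s.cls hx)
  rw [nc_cls s hx] at a2
  have a3 := ncard_sdiff_add_ncard_of_subset sub hQ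
  rw [h.cl1 hx, ncard_pair (h x hx).2.2.symm, ← h.cl1 hx] at a3
  omega

section mate

variable {S D : Set Φ} {b p : Φ → Φ}

theorem mate_eq (hS : S.Finite) (hb : Inv S b) (hp : Inv S p) (hDS : D ⊆ S)
    (hD : ∀ x ∈ D, p x ∈ D) {x y : Φ} (hx : x ∈ D) (hy : y ∈ D) (k : y ∈ cl (cut b p D) x)
    (ne : y ≠ x) : mate b p D x = y :=
  (((mate_spec hS hb hp hDS hD hx).2.2 y k hy).resolve_left ne).symm

theorem mate_of_mem {x : Φ} (k : b x ∈ D) : mate b p D x = b x := by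
  have : sInf {n | (fun z => b (p z))^[n] (b x) ∈ D} = 0 := Nat.sInf_eq_zero.2 (Or.inl k)
  simp only [mate, ret, this, iterate_zero, id]

/-- a colouring that changes along both moves changes along the return map -/
theorem mate_ori (hb : Inv S b) (hp : Inv S p) {o : Φ → Prop}
    (h1 : ∀ x ∈ S, o (b x) ↔ ¬ o x) (h2 : ∀ x ∈ S, o (p x) ↔ ¬ o x) {x : Φ} (hx : x ∈ S) :
    o (mate b p D x) ↔ ¬ o x := by
  have : ∀ n, (fun z => b (p z))^[n] (b x) ∈ S ∧ (o ((fun z => b (p z))^[n] (b x)) ↔ ¬ o x) := by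
    intro n
    induction n with
    | zero => exact ⟨(hb x hx).1, h1 x hx⟩
    | succ n ih =>
      rw [iterate_succ_apply']
      refine ⟨(hb _ (hp _ ih.1).1).1, ?_⟩
      rw [h1 _ (hp _ ih.1).1, h2 _ ih.1, not_not, ih.2]
  exact (this _).2

end mate

namespace FM

/-- an isomorphism of maps -/
structure Iso (M : FM Φ) (N : FM Ψ) (j : Φ → Ψ) : Prop where
  inj : InjOn j M.S
  img : j '' M.S = N.S
  ha : ∀ f ∈ M.S, N.a (j f) = j (M.a f)
  hb : ∀ f ∈ M.S, N.b (j f) = j (M.b f)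
  hc : ∀ f ∈ M.S, N.c (j f) = j (M.c f)

variable {M : FM Φ} {N : FM Ψ} {j : Φ → Ψ}

theorem cl_img {S : Set Φ} {r : Φ → Φ → Prop} {r' : Ψ → Ψ → Prop}
    (hs : ∀ x ∈ S, ∀ y, r x y → y ∈ S ∧ r' (j x) (j y))
    (h : ∀ x ∈ S, ∀ w, r' (j x) w → ∃ y, r x y ∧ w = j y) {f : Φ} (hf : f ∈ S) :
    cl r' (j f) = j '' cl r f := by
  have m : ∀ y ∈ cl r f, y ∈ S ∧ j y ∈ cl r' (j f) := fun y hy =>
    cl_ind (P := fun y => y ∈ S ∧ j y ∈ cl r' (j f)) ⟨hf, cl_self _ _⟩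
      (fun u v _ k e => ⟨(hs u k.1 v e).1, cl_step k.2 (hs u k.1 v e).2⟩) hy
  refine Subset.antisymm (fun w hw => ?_) (by rintro _ ⟨y, hy, rfl⟩; exact (m y hy).2)
  refine cl_ind (P := fun w => w ∈ j '' cl r f) ⟨f, cl_self _ _, rfl⟩ ?_ hw
  rintro _ v - ⟨y, hy, rfl⟩ e
  obtain ⟨z, k, rfl⟩ := h y (m y hy).1 v e
  exact ⟨z, cl_step hy k, rfl⟩

theorem nc_img {S : Set Φ} {r : Φ → Φ → Prop} {r' : Ψ → Ψ → Prop} (inj : InjOn j S) (s : Sy S r)
    (h : ∀ f ∈ S, cl r' (j f) = j '' cl r f) : nc r' (j '' S) = nc r S := by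
  unfold nc
  rw [image_image, image_congr h, ← image_image (fun A => j '' A) (cl r)]
  refine InjOn.ncard_image ?_
  rintro _ ⟨x, hx, rfl⟩ _ ⟨y, hy, rfl⟩ e
  exact (inj.image_eq_image_iff (s.sub hx) (s.sub hy)).1 e

namespace Iso

variable (i : Iso M N j)
include i

theorem mem {f : Φ} (hf : f ∈ M.S) : j f ∈ N.S := i.img ▸ ⟨f, hf, rfl⟩

theorem surj {w : Ψ} (hw : w ∈ N.S) : ∃ f ∈ M.S, j f = w := by rwa [← i.img] at hw

theorem inv {p : Φ → Φ} {q : Ψ → Ψ} (hp : Inv M.S p) (k : ∀ f ∈ M.S, q (j f) = j (p f)) :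
    Inv N.S q := by
  intro w hw
  obtain ⟨f, hf, rfl⟩ := i.surj hw
  rw [k f hf, k _ (hp f hf).1, (hp f hf).2.1]
  exact ⟨i.mem (hp f hf).1, rfl, fun e => (hp f hf).2.2 (i.inj (hp f hf).1 hf e)⟩

theorem ok (h : M.Ok) : N.Ok := by
  refine ⟨i.img ▸ h.fin.image j, i.inv h.ia i.ha, i.inv h.ib i.hb, i.inv h.ic i.hc, fun w hw => ?_⟩
  obtain ⟨f, hf, rfl⟩ := i.surj hw
  rw [i.hc f hf, i.ha f hf, i.ha _ (h.gk.cm hf), i.hc _ (h.gk.am hf), (h.ac f hf).1]
  exact ⟨rfl, fun e => (h.ac f hf).2 ((h.ac f hf).1 ▸ i.inj (h.gk.cm (h.gk.am hf)) hf e)⟩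

omit i in
theorem orb_eq {p q : Φ → Φ} {p' q' : Ψ → Ψ} (hp : Inv M.S p) (hq : Inv M.S q)
    (k : ∀ f ∈ M.S, p' (j f) = j (p f)) (k' : ∀ f ∈ M.S, q' (j f) = j (q f)) {f : Φ}
    (hf : f ∈ M.S) : orb p' q' (j f) = j '' orb p q f := by
  refine cl_img (S := M.S) ?_ ?_ hf
  · rintro x hx y (rfl | rfl)
    · exact ⟨(hp x hx).1, Or.inl (k x hx).symm⟩
    · exact ⟨(hq x hx).1, Or.inr (k' x hx).symm⟩
  · rintro x hx y (rfl | rfl)
    · exact ⟨_, Or.inl rfl, k x hx⟩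
    · exact ⟨_, Or.inr rfl, k' x hx⟩

variable (h : M.Ok)
include h

theorem vo {f : Φ} (hf : f ∈ M.S) : N.vo (j f) = j '' M.vo f := orb_eq h.ib h.ic i.hb i.hc hf
theorem eo {f : Φ} (hf : f ∈ M.S) : N.eo (j f) = j '' M.eo f := orb_eq h.ia h.ic i.ha i.hc hf
theorem fo {f : Φ} (hf : f ∈ M.S) : N.fo (j f) = j '' M.fo f := orb_eq h.ia h.ib i.ha i.hb hf

theorem reg {U : Set Φ} (hU : U ⊆ M.S) {f : Φ} (hf : f ∈ M.S) :
    N.reg (j '' U) (j f) = j '' M.reg U f := by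
  refine cl_img (S := M.S) ?_ ?_ hf
  · rintro x hx y (rfl | rfl | ⟨k, rfl⟩)
    · exact ⟨h.gk.am hx, Or.inl (i.ha x hx).symm⟩
    · exact ⟨h.gk.bm hx, Or.inr (Or.inl (i.hb x hx).symm)⟩
    · exact ⟨h.gk.cm hx, Or.inr (Or.inr ⟨fun ⟨u, hu, e⟩ => k (i.inj (hU hu) hx e ▸ hu),
        (i.hc x hx).symm⟩)⟩
  · rintro x hx y (rfl | rfl | ⟨k, rfl⟩)
    · exact ⟨_, Or.inl rfl, i.ha x hx⟩
    · exact ⟨_, Or.inr (Or.inl rfl), i.hb x hx⟩
    · exact ⟨_, Or.inr (Or.inr ⟨fun m => k ⟨x, m, rfl⟩, rfl⟩), i.hc x hx⟩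

theorem co {f : Φ} (hf : f ∈ M.S) : N.co (j f) = j '' M.co f := by
  refine cl_img (S := M.S) ?_ ?_ hf
  · rintro x hx y (rfl | rfl | rfl)
    · exact ⟨h.gk.am hx, Or.inl (i.ha x hx).symm⟩
    · exact ⟨h.gk.bm hx, Or.inr (Or.inl (i.hb x hx).symm)⟩
    · exact ⟨h.gk.cm hx, Or.inr (Or.inr (i.hc x hx).symm)⟩
  · rintro x hx y (rfl | rfl | rfl)
    · exact ⟨_, Or.inl rfl, i.ha x hx⟩
    · exact ⟨_, Or.inr (Or.inl rfl), i.hb x hx⟩
    · exact ⟨_, Or.inr (Or.inr rfl), i.hc x hx⟩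

theorem eg : N.eg = M.eg := by
  rw [eg_eq, eg_eq, ← i.img, nc_img (r' := N.rC) i.inj h.gk.sC fun f k => i.co h k,
    nc_img (r' := N.rV) i.inj h.gk.sV fun f k => i.vo h k,
    nc_img (r' := N.rE) i.inj h.gk.sE fun f k => i.eo h k,
    nc_img (r' := N.rF) i.inj h.gk.sF fun f k => i.fo h k]

theorem con : N.Con ↔ M.Con := by
  constructor
  · intro k f hf g hg
    have := k _ (i.mem hf) _ (i.mem hg)
    rw [i.co h hf] at this
    obtain ⟨y, hy, e⟩ := this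
    exact i.inj (h.gk.sC.sub hf hy) hg e ▸ hy
  · intro k z hz w hw
    obtain ⟨f, hf, rfl⟩ := i.surj hz
    obtain ⟨g, hg, rfl⟩ := i.surj hw
    rw [i.co h hf]; exact ⟨g, k f hf g hg, rfl⟩

omit h in
theorem es {U : Set Φ} (hU : M.Es U) : N.Es (j '' U) := by
  refine ⟨i.img ▸ image_mono hU.1, ?_⟩
  rintro _ ⟨x, hx, rfl⟩
  rw [i.ha x (hU.1 hx), i.hc x (hU.1 hx)]
  exact ⟨⟨_, (hU.2 x hx).1, rfl⟩, _, (hU.2 x hx).2, rfl⟩

theorem minor {U C : Set Φ} (hU : M.Es U) (hC : M.Es C) :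
    Iso (M.minor U C) (N.minor (j '' U) (j '' C)) j := by
  refine ⟨i.inj.mono hU.1, rfl, fun f k => i.ha f (hU.1 k), fun f k => ?_,
    fun f k => i.hc f (hU.1 k)⟩
  have g := i.ok h
  have sp := mate_spec h.fin h.ib (h.gk.sg hC) hU.1 (fun _ k => hU.sg k) k
  have iv := mate_inv h.fin h.ib (h.gk.sg hC) hU.1 (fun _ k => hU.sg k) f k
  refine mate_eq g.fin g.ib (g.gk.sg (i.es hC)) (i.es hU).1 (fun _ k => (i.es hU).sg k)
    ⟨f, k, rfl⟩ ⟨_, sp.1, rfl⟩ ?_ fun e => iv.2.2 (i.inj (hU.1 sp.1) (hU.1 k) e)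
  refine cl_ind (r := cut M.b (M.sg C) U) (P := fun y => j y ∈ cl (cut N.b (N.sg (j '' C))
    (j '' U)) (j f)) (cl_self _ _) ?_ sp.2.1
  intro x y hx ih e
  have xS := (cut_sy h.ib (h.gk.sg hC) fun _ k => hU.sg k).sub (hU.1 k) hx
  rcases e with rfl | ⟨n, rfl⟩
  · exact cl_step ih (Or.inl (i.hb x xS).symm)
  · refine cl_step ih (Or.inr ⟨fun ⟨u, hu, e⟩ => n (i.inj (hU.1 hu) xS e ▸ hu), ?_⟩)
    by_cases q : x ∈ C
    · rw [sg_in q, sg_in (mem_image_of_mem j q), i.ha x xS]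
    · rw [sg_out q, sg_out (show j x ∉ j '' C from
        fun ⟨u, hu, e⟩ => q (i.inj (hC.1 hu) xS e ▸ hu)), i.hc x xS]

theorem sub {U : Set Φ} (hU : M.Es U) : Iso (M.sub U) (N.sub (j '' U)) j := by
  have := i.minor h hU es_empty
  rwa [image_empty] at this

omit h in
theorem ori {o : Ψ → Prop} (k : N.Ori o) : M.Ori (o ∘ j) := fun f hf => by
  have := k _ (i.mem hf)
  rwa [i.ha f hf, i.hb f hf, i.hc f hf] at this

theorem ori' {o : Φ → Prop} (k : M.Ori o) : N.Ori fun w => ∃ f ∈ M.S, j f = w ∧ o f := by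
  intro w hw
  obtain ⟨f, hf, rfl⟩ := i.surj hw
  have t : ∀ x ∈ M.S, (∃ f ∈ M.S, j f = j x ∧ o f) ↔ o x := fun x hx =>
    ⟨fun ⟨y, hy, e, q⟩ => i.inj hy hx e ▸ q, fun q => ⟨x, hx, rfl, q⟩⟩
  beta_reduce
  rw [i.ha f hf, i.hb f hf, i.hc f hf, t _ (h.gk.am hf), t _ (h.gk.bm hf), t _ (h.gk.cm hf), t _ hf]
  exact k f hf

theorem lbl {vx : Φ → V} {wx : Ψ → V} (e : ∀ f ∈ M.S, wx (j f) = vx f) (k : M.Lbl vx) :
    N.Lbl wx := by
  intro z hz w hw
  obtain ⟨f, hf, rfl⟩ := i.surj hz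
  obtain ⟨g, hg, rfl⟩ := i.surj hw
  rw [e f hf, e g hg, k f hf g hg, i.vo h hf]
  exact ⟨fun q => ⟨g, q, rfl⟩, fun ⟨y, hy, q⟩ => i.inj (h.gk.sV.sub hf hy) hg q ▸ hy⟩

theorem gph {vx : Φ → V} {wx : Ψ → V} (e : ∀ f ∈ M.S, wx (j f) = vx f) :
    N.gph wx = M.gph vx := by
  ext u v
  refine and_congr_right fun _ => ⟨fun ⟨w, hw, k⟩ => ?_, fun ⟨f, hf, k⟩ => ⟨j f, i.mem hf, ?_⟩⟩
  · obtain ⟨f, hf, rfl⟩ := i.surj hw
    rw [i.ha f hf, e f hf, e _ (h.gk.am hf)] at k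
    exact ⟨f, hf, k⟩
  · rwa [i.ha f hf, e f hf, e _ (h.gk.am hf)]

theorem ind {vx : Φ → V} {wx : Ψ → V} (e : ∀ f ∈ M.S, wx (j f) = vx f) (K : Set V) :
    N.ind wx K = j '' M.ind vx K := by
  ext w
  constructor
  · intro k
    obtain ⟨f, hf, rfl⟩ := i.surj k.1
    have := k.2
    rw [i.ha f hf, e f hf, e _ (h.gk.am hf)] at this
    exact ⟨f, ⟨hf, this⟩, rfl⟩
  · rintro ⟨f, k, rfl⟩
    refine ⟨i.mem k.1, ?_⟩
    rw [i.ha f k.1, e f k.1, e _ (h.gk.am k.1)]; exact k.2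

end Iso

theorem Same.iso {M N : FM Φ} (k : M.Same N) : Iso M N id :=
  ⟨injOn_id _, by rw [image_id]; exact k.1, fun f q => (k.2 f q).1.symm,
    fun f q => (k.2 f q).2.1.symm, fun f q => (k.2 f q).2.2.symm⟩

theorem Iso.trans {Θ : Type} {P : FM Θ} {j' : Ψ → Θ} (i : Iso M N j) (i' : Iso N P j') :
    Iso M P (j' ∘ j) :=
  ⟨i'.inj.comp i.inj fun _ k => i.mem k, by rw [image_comp, i.img, i'.img],
    fun f k => by simp only [comp, i'.ha _ (i.mem k), i.ha f k],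
    fun f k => by simp only [comp, i'.hb _ (i.mem k), i.hb f k],
    fun f k => by simp only [comp, i'.hc _ (i.mem k), i.hc f k]⟩

theorem sub_sub (h : M.Ok) {U U' : Set Φ} (hU : M.Es U) (hU' : M.Es U') (k : U' ⊆ U) :
    ((M.sub U).sub U').Same (M.sub U') := by
  have := transS Φ M U ∅ U' ∅ h hU es_empty hU' es_empty k
  simpa only [empty_sdiff, empty_inter, union_empty, FM.sub] using this

theorem Es.of_sub {U U' : Set Φ} (hU' : M.Es U') (k : U' ⊆ U) : (M.sub U).Es U' := ⟨k, hU'.2⟩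

theorem eg_sub_mono (h : M.Ok) {U U' : Set Φ} (hU : M.Es U) (hU' : M.Es U') (k : U' ⊆ U) :
    (M.sub U').eg ≤ (M.sub U).eg := by
  have g := h.minor hU es_empty
  rw [(sub_sub h hU hU' k).iso.eg (g.minor (hU'.of_sub k) es_empty)]
  exact (monoS Φ _ g).2 _ _ (hU'.of_sub k) es_empty

theorem eg_sub_le (h : M.Ok) {U : Set Φ} (hU : M.Es U) : (M.sub U).eg ≤ M.eg :=
  (monoS Φ _ h).2 _ _ hU es_empty

/-- if `M` is the submap of `N` on the old flags, its submaps are submaps of `N` -/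
theorem Iso.sub_old (h : M.Ok) (g : N.Ok) (hN : N.Es (j '' M.S)) (i : Iso M (N.sub (j '' M.S)) j)
    {U : Set Φ} (hU : M.Es U) : N.Es (j '' U) ∧ Iso (M.sub U) (N.sub (j '' U)) j := by
  have e : N.Es (j '' U) := ⟨(image_mono hU.1).trans hN.1, (i.es hU).2⟩
  exact ⟨e, (i.sub h hU).trans (sub_sub g hN e (image_mono hU.1)).iso⟩

theorem reg_anti {U U' : Set Φ} (k : U ⊆ U') (f : Φ) : M.reg U' f ⊆ M.reg U f := fun _ q =>
  ReflTransGen.mono (fun _ _ e => e.imp id (Or.imp id fun e => ⟨fun m => e.1 (k m), e.2⟩)) _ _ q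

theorem ind_mono {vx : Φ → V} {K K' : Set V} (k : K ⊆ K') : M.ind vx K ⊆ M.ind vx K' :=
  fun _ q => ⟨q.1, k q.2.1, k q.2.2⟩

theorem es_ind (h : M.Ok) {vx : Φ → V} (hl : M.Lbl vx) (K : Set V) : M.Es (M.ind vx K) :=
  (gphS orbS minorS Φ V M vx h hl).2.1 K

theorem full_mono (h : M.Ok) {vx : Φ → V} (hl : M.Lbl vx) {H K K' : Set V} (k : K ⊆ K')
    (q : M.Full vx H K) : M.Full vx H K' :=
  ⟨le_antisymm (eg_sub_le h (es_ind h hl K'))
      (q.1 ▸ eg_sub_mono h (es_ind h hl K') (es_ind h hl K) (ind_mono k)),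
    fun p hp x hx h1 h2 m => q.2 p hp x hx h1 h2 (reg_anti (ind_mono k) p m)⟩

theorem con_ind (h : M.Ok) {vx : Φ → V} (hl : M.Lbl vx) {K : Set V} (k : Conn (M.gph vx) K) :
    (M.sub (M.ind vx K)).Con := fun f hf g hg =>
  ((gphS orbS minorS Φ V M vx h hl).2.2.1 K f hf g hg).2 (k.2 _ hf.2.1 _ hg.2.1)

/-- edges are removed in the order of their ranks; each has two faces or is a bridge then -/
theorem peel_gk (h : M.Gk) {D : Set Φ} (hD : M.Es D) (rk : Φ → ℕ)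
    (hr : ∀ e ∈ D, rk (M.a e) = rk e ∧ rk (M.c e) = rk e)
    (k : ∀ e ∈ D, ∃ f ∈ M.eo e, (M.c f ∉ M.fo f ∧ ∀ g ∈ M.fo f, g ∈ D → g ∈ M.eo e ∨ rk e < rk g) ∨
      M.BrIn (M.S \ {g | g ∈ D ∧ rk g < rk e}) f) : (M.del D).geg = M.geg := by
  induction' hn : D.ncard using Nat.strong_induction_on with n ih generalizing M D
  rcases D.eq_empty_or_nonempty with rfl | ne
  · exact (geg_congr h (del_same_of_disj (empty_disjoint _))).2.1
  obtain ⟨e, he, mn⟩ := exists_min_image D rk (h.fin.subset hD.1) ne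
  have eS := hD.1 he
  have hE := h.es_eo eS
  have g := h.del hE
  have e1 : (M.del (M.eo e)).geg = M.geg := by
    obtain ⟨f, hf, q⟩ := k e he
    have ef : M.eo f = M.eo e := h.sE.eq eS hf
    have fS := hE.1 hf
    by_cases hne : M.a f = M.c f
    · refine (geg_congr h (del_same_of_disj (Set.disjoint_left.2 fun x hx m => ?_))).2.1
      exact (h.es_prop.eo_sub m (cl_trans (h.sE.symm eS hx) hf)).2 hne
    rw [← ef]
    rcases q with q | q
    · exact ((del_count h fS hne).1 q.1).2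
    · refine (del_count h fS hne).2.1 ((brIn_iff h fS).1 ?_)
      have : M.S \ {g | g ∈ D ∧ rk g < rk e} = M.S :=
        sdiff_eq_left.2 (Set.disjoint_left.2 fun x _ m => absurd (mn x m.1) (not_le.2 m.2))
      rwa [this] at q
  rw [(geg_congr (g.del (es_del h hD hE)) (del_del (hD.eo_sub he))).2.1, ← e1]
  refine ih _ (hn ▸ ncard_lt_ncard ⟨sdiff_subset, fun q => (q he).2 (cl_self M.rE e)⟩
    (h.fin.subset hD.1)) g (es_del h hD hE)
    (fun x hx => by rw [del_a_neg hx.2]; exact hr x hx.1) (fun x hx => ?_) rfl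
  have eo : ∀ y ∈ M.S, y ∉ M.eo e → (M.del (M.eo e)).eo y = M.eo y := fun y yS n => by
    ext z
    rw [g.mem_eo yS, h.mem_eo yS, del_a_neg n,
      del_a_neg (show (M.del (M.eo e)).c y ∉ M.eo e from fun m => n ((h.es_c hE yS).1 m))]
    rfl
  obtain ⟨f, hf, q⟩ := k x hx.1
  have xS := hD.1 hx.1
  have fS := h.sE.sub xS hf
  have fn : f ∉ M.eo e := ((h.es_diff hD hE).eo_sub hx hf).2
  refine ⟨f, eo x xS hx.2 ▸ hf, q.imp (fun q => ?_) fun q m => q ?_⟩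
  · have av : ∀ y ∈ M.fo f, y ∉ M.eo e := fun y hy m =>
      (q.2 y hy (hD.eo_sub he m)).elim (fun t => ((h.es_diff hD hE).eo_sub hx t).2 m) fun t => by
        have : rk y = rk e := by
          rcases (h.mem_eo eS).1 m with rfl | rfl | rfl | rfl
          · rfl
          · exact (hr e he).1
          · exact (hr e he).2
          · exact (hr _ (hD.2 e he).2).1.trans (hr e he).2
        exact absurd (mn x hx.1) (by omega)
    have le : (M.del (M.eo e)).fo f ⊆ M.fo f :=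
      cl_avoid (r := M.rF) (U := M.eo e) (fun y n z t => t.imp (fun t => t.trans (del_a_neg n)) id) av
    exact ⟨fun m => q.1 (le m), fun y hy m => (q.2 y (le hy) m.1).imp_left fun t => eo x xS hx.2 ▸ t⟩
  · rw [del_a_neg fn, eo f fS fn] at m
    refine ReflTransGen.mono ?_ _ _ m
    rintro y z (rfl | rfl | ⟨t, rfl⟩)
    · exact Or.inl rfl
    · exact Or.inr (Or.inl rfl)
    · by_cases s : y ∈ M.eo e
      · exact Or.inr (Or.inl (del_a_pos s))
      · exact Or.inr (Or.inr ⟨⟨⟨t.1.1, fun u => t.1.2 ⟨⟨u.1, s⟩, u.2⟩⟩, t.2⟩, del_a_neg s⟩)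

theorem peel (h : M.Ok) {D : Set Φ} (hD : M.Es D) (rk : Φ → ℕ)
    (hr : ∀ e ∈ D, rk (M.a e) = rk e ∧ rk (M.c e) = rk e)
    (k : ∀ e ∈ D, ∃ f ∈ M.eo e, (M.c f ∉ M.fo f ∧ ∀ g ∈ M.fo f, g ∈ D → g ∈ M.eo e ∨ rk e < rk g) ∨
      M.BrIn (M.S \ {g | g ∈ D ∧ rk g < rk e}) f) : (M.sub (M.S \ D)).eg = M.eg := by
  rw [h.eg_sub (h.gk.es_diff h.gk.es_S hD), sdiff_sdiff_cancel_left hD.1, ← h.geg]
  exact peel_gk h.gk hD rk hr k

end FM

end Pool.Agent.MP_9d78a0_co.gm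

end MrgPart4

-- ======== part 5: formerly Pool.Agent.MP_9d78a0_co.gm.SpecM
section MrgPart5

/-! Operations on maps: definitions and statements. -/

set_option autoImplicit false

namespace Pool.Agent.MP_9d78a0_co.gm

open Set Function

namespace FM

variable {Φ : Type} (M : FM Φ)

/-- a set of corners, given by its flags -/
def Cs (Q : Set Φ) : Prop := Q ⊆ M.S ∧ ∀ x ∈ Q, M.b x ∈ Q

open Classical in
/-- a new vertex in every face that has a corner in `Q`, joined to these corners; the new flag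
`(x, false)` is next to `x`, and `(x, true)` is at the new vertex -/
noncomputable def star (Q : Set Φ) : FM (Φ ⊕ Φ × Bool) where
  S := Sum.inl '' M.S ∪ Sum.inr '' (Q ×ˢ univ)
  a := Sum.map M.a fun p => (p.1, !p.2)
  b := Sum.elim (fun x => if x ∈ Q then Sum.inr (x, false) else Sum.inl (M.b x))
    fun p => if p.2 then Sum.inr (mate M.a M.b Q p.1, true) else Sum.inl p.1
  c := Sum.map M.c fun p => (M.b p.1, p.2)

open Classical in
/-- the vertices are cut at the corners in `Q` -/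
noncomputable def split (Q : Set Φ) : FM Φ where
  S := M.S
  a := M.a
  b := fun x => if x ∈ Q then mate M.c M.b Q x else M.b x
  c := M.c

open Classical in
/-- the outer copy of a flag -/
noncomputable def out (Q : Set Φ) (z : Φ) : Φ ⊕ Φ × Bool × Bool :=
  if M.a z ∈ Q then Sum.inr (M.a z, false, false) else Sum.inl z

open Classical in
/-- a new vertex of degree two in every corner in `Q`, joined to the far ends of the two edges of
the corner; `(f, e, s)` is on the edge parallel to the edge of `f`, at the new vertex if `e`, on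
the side of `f` if `s` -/
noncomputable def rim (Q : Set Φ) : FM (Φ ⊕ Φ × Bool × Bool) where
  S := Sum.inl '' M.S ∪ Sum.inr '' (Q ×ˢ univ)
  a := Sum.map M.a fun p => (p.1, !p.2.1, p.2.2)
  b := Sum.elim (fun z => if M.a z ∈ Q then Sum.inr (M.a z, false, true) else M.out Q (M.b z))
    fun p => if p.2.1 then Sum.inr (M.b p.1, true, p.2.2) else
      if p.2.2 then Sum.inl (M.a p.1) else M.out Q (M.b (M.a p.1))
  c := Sum.map M.c fun p => (p.1, p.2.1, !p.2.2)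

end FM

/-- new vertices in faces -/
def RadS : Prop :=
  ∀ (Φ : Type) (M : FM Φ) (Q : Set Φ), M.Ok → M.Cs Q →
    (M.star Q).Ok ∧ (M.star Q).eg = M.eg ∧ (M.Con → (M.star Q).Con) ∧
    (M.star Q).Es (Sum.inl '' M.S) ∧ M.Iso ((M.star Q).sub (Sum.inl '' M.S)) Sum.inl ∧
    (∀ x ∈ M.S, (M.star Q).vo (Sum.inl x) =
      Sum.inl '' M.vo x ∪ Sum.inr '' ((Q ∩ M.vo x) ×ˢ {false})) ∧
    (∀ x ∈ Q, (M.star Q).vo (Sum.inr (x, true)) = Sum.inr '' ((Q ∩ M.fo x) ×ˢ {true})) ∧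
    (∀ x ∈ M.S, (M.star Q).fo (Sum.inl x) = Sum.inl '' cl (cut M.a M.b Q) x ∪
      Sum.inr '' ((Q ∩ cl (cut M.a M.b Q) x) ×ˢ univ)) ∧
    (∀ U, M.Es U → ∀ x ∈ M.S, (M.star Q).reg (Sum.inl '' U) (Sum.inl x) =
      Sum.inl '' M.reg U x ∪ Sum.inr '' ((Q ∩ M.reg U x) ×ˢ univ)) ∧
    (∀ o, M.Ori o → (M.star Q).Ori (Sum.elim o fun p => if p.2 then o p.1 else ¬ o p.1)) ∧
    (∀ o, (M.star Q).Ori o → M.Ori (o ∘ Sum.inl)) ∧
    ∀ (V : Type) (vx nm : Φ → V), M.Lbl vx → (∀ x ∈ Q, ∀ y ∈ Q, nm x = nm y ↔ y ∈ M.fo x) →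
      (∀ x ∈ Q, nm x ∉ vx '' M.S) →
      (M.star Q).Lbl (Sum.elim vx fun p => if p.2 then nm p.1 else vx p.1)

/-- vertices are cut at corners -/
def SplitS : Prop :=
  ∀ (Φ : Type) (M : FM Φ) (Q : Set Φ), M.Ok → M.Cs Q →
    (M.split Q).Ok ∧ (M.split Q).eg ≤ M.eg ∧
    (∀ x ∈ M.S, (M.split Q).vo x = cl (cut M.c M.b Q) x) ∧
    (∀ x ∈ M.S, Disjoint (M.fo x) Q → (M.split Q).fo x = M.fo x) ∧
    (∀ o, M.Ori o → (M.split Q).Ori o) ∧
    ∀ U, M.Es U → (∀ x ∈ Q, Disjoint (M.vo x) U) → (M.sub U).Same ((M.split Q).sub U) ∧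
      ∀ x ∈ M.S, (M.split Q).reg U x ⊆ M.reg U x

/-- holes with at most one corner that is not closed by a vertex off the holes carry no genus -/
def FanS : Prop :=
  ∀ (Φ V : Type) (M : FM Φ) (vx : Φ → V) (H : Set V) (Q : Set Φ), M.Ok → M.Lbl vx →
    (∀ f ∈ M.fl vx H, vx (M.a f) ∉ H) →
    (∀ f ∈ M.fl vx H, f ∉ Q → (M.b ∘ M.a)^[4] f = f ∧ vx (M.a (M.b (M.a f))) ∉ H) →
    (∀ f ∈ Q, ∀ g ∈ Q, vx f = vx g → g = f ∨ g = M.b f) →
    (M.sub (M.ind vx (M.tv vx H))).eg = M.eg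

/-- new vertices of degree two that close corners -/
def RimS : Prop :=
  ∀ (Φ : Type) (M : FM Φ) (Q : Set Φ), M.Ok → M.Cs Q → (∀ x ∈ Q, M.a x ∉ Q) →
    (M.rim Q).Ok ∧ (M.rim Q).eg = M.eg ∧ (M.Con → (M.rim Q).Con) ∧
    (M.rim Q).Es (Sum.inl '' M.S) ∧ M.Iso ((M.rim Q).sub (Sum.inl '' M.S)) Sum.inl ∧
    (∀ x ∈ M.S, (M.rim Q).vo (Sum.inl x) =
      Sum.inl '' M.vo x ∪ Sum.inr '' ((Q ∩ M.a ⁻¹' M.vo x) ×ˢ {false} ×ˢ univ)) ∧
    (∀ f ∈ Q, ∀ s, (M.rim Q).vo (Sum.inr (f, true, s)) =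
      Sum.inr '' (({f, M.b f} : Set Φ) ×ˢ {true} ×ˢ univ) ∧
      ((M.rim Q).vo (Sum.inr (f, true, s))).ncard = 4) ∧
    (∀ f ∈ Q, ((M.rim Q).b ∘ (M.rim Q).a)^[4] (Sum.inl f) = Sum.inl f ∧
      (M.rim Q).a ((M.rim Q).b ((M.rim Q).a (Sum.inl f))) = Sum.inr (f, true, true) ∧
      (M.rim Q).b (Sum.inl f) = Sum.inl (M.b f) ∧
      (M.rim Q).fo (Sum.inl f) = Sum.inl '' {f, M.a f, M.b f, M.a (M.b f)} ∪
        Sum.inr '' (({f, M.b f} : Set Φ) ×ˢ univ ×ˢ {true})) ∧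
    (∀ x ∈ M.S, x ∉ Q → M.a x ∉ Q → (M.rim Q).fo (Sum.inl x) =
      Sum.inl '' (M.fo x \ (Q ∪ M.a ⁻¹' Q)) ∪ Sum.inr '' ((Q ∩ M.fo x) ×ˢ univ ×ˢ {false})) ∧
    (∀ U, M.Es U → ∀ x ∈ M.S, (M.rim Q).reg (Sum.inl '' U) (Sum.inl x) =
      Sum.inl '' M.reg U x ∪ Sum.inr '' ((Q ∩ M.reg U x) ×ˢ univ)) ∧
    (∀ o, M.Ori o →
      (M.rim Q).Ori (Sum.elim o fun p => if p.2.1 = p.2.2 then ¬ o p.1 else o p.1)) ∧
    (∀ o, (M.rim Q).Ori o → M.Ori (o ∘ Sum.inl)) ∧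
    ∀ (V : Type) (vx nm : Φ → V), M.Lbl vx →
      (∀ x ∈ Q, ∀ y ∈ Q, nm x = nm y ↔ y = x ∨ y = M.b x) → (∀ x ∈ Q, nm x ∉ vx '' M.S) →
      (M.rim Q).Lbl (Sum.elim vx fun p => if p.2.1 then nm p.1 else vx (M.a p.1))

/-- the components of a set of vertices are contracted -/
def MergeS : Prop :=
  ∀ (Φ V : Type) (M : FM Φ) (vx : Φ → V) (D : Set V), M.Ok → M.Lbl vx →
    ∃ C ⊆ M.ind vx D, M.Es C ∧ ∀ U, M.Es U → Disjoint U (M.ind vx D) →
      (M.minor U C).Ok ∧ (M.minor U C).eg = (M.sub (U ∪ C)).eg ∧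
      (∀ f ∈ U, ∀ g ∈ U, g ∈ (M.minor U C).vo f ↔ Link (M.gph vx) D (vx f) (vx g)) ∧
      (∀ f ∈ U, ∀ g ∈ U, g ∈ (M.minor U C).co f ↔ Relation.ReflTransGen
        (fun u v => ∃ x ∈ U ∪ M.ind vx D, vx x = u ∧ vx (M.a x) = v) (vx f) (vx g)) ∧
      (∀ f ∈ U, M.fo f ⊆ U ∪ C → (M.minor U C).fo f = M.fo f ∩ U) ∧
      (∀ f ∈ U, M.b f ∈ U → (M.minor U C).b f = M.b f) ∧
      (∀ o, M.Ori o → (M.minor U C).Ori o) ∧
      ∀ U0 ⊆ U, M.Es U0 → (∀ f ∈ U, (M.minor U C).reg U0 f ⊆ M.reg U0 f) ∧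
        ((∀ f ∈ U0, vx f ∉ D) → (M.sub U0).Same ((M.minor U C).sub U0))

end Pool.Agent.MP_9d78a0_co.gm

end MrgPart5

-- marker of a merged file
example : 731051 + 15381 = 731051 + 15381 := rfl
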