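import Pool.Agent.MP_9d78a0_co.gm.Map

-- ======== part 0: formerly Pool.Agent.MP_9d78a0_co.gm.Cls
section MrgPart0

/-! Structures on graphs: raw, tame and preliminary ones. -/

set_option autoImplicit false

namespace Pool.Agent.MP_9d78a0_co.gm

open Set Function

/-- vertices of the maps: nodes (real vertices) on the left; cells, rims, holes on the right -/
abbrev MV : Type := W ⊕ ℕ

/-- the real vertex of a node -/
def nodeOf : MV → W := Sum.elim id fun _ => Sum.inl 0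

/-- a map with holes `H`, rims `Rm` and positive flags -/
structure Sk where
  Φ : Type
  M : FM Φ
  vx : Φ → MV
  H : Set MV
  Rm : Set MV
  pos : Φ → Prop

namespace Sk

variable (s : Sk)

/-- the graph, all vertices, nodes, cells, cells and nodes -/
def G : SimpleGraph MV := s.M.gph s.vx
def Vt : Set MV := s.vx '' s.M.S
def Nd : Set MV := s.Vt ∩ range Sum.inl
def Ce : Set MV := (s.Vt ∩ range Sum.inr) \ (s.H ∪ s.Rm)
def T : Set MV := s.Nd ∪ s.Ce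

/-- the nodes adjacent to a vertex -/
def nb (x : MV) : Set W := {v | s.G.Adj x (Sum.inl v)}

/-- the positions: nodes adjacent to a hole -/
def Po : Set W := {v | ∃ x ∈ s.H, v ∈ s.nb x}

/-- the far end of the edge of a flag -/
def far (f : s.Φ) : W := nodeOf (s.vx (s.M.a f))

/-- the corner of `f` lies on a face with four edges -/
def Quad (f : s.Φ) : Prop := (s.M.b ∘ s.M.a)^[4] f = f

/-- the vertex opposite to the corner of `f` -/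
def link (f : s.Φ) : MV := s.vx (s.M.a (s.M.b (s.M.a f)))

/-- the neighbours of a vertex read from a flag -/
noncomputable def rts (f : s.Φ) : List W :=
  (List.range ((s.M.vo f).ncard / 2)).map fun i => s.far (s.M.rot^[i] f)

/-- the readings of a cell from its positive flags -/
def Rd (x : MV) : Set (List W) := {ρ | ∃ f ∈ s.M.S, s.vx f = x ∧ s.pos f ∧ ρ = s.rts f}

/-- cells that are not on a face with a hole -/
def Good : Set MV := s.Ce \ s.M.rad s.vx s.H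

/-- the spokes of a hole go to different nodes -/
def Spk : Prop := ∀ f ∈ s.M.fl s.vx s.H, ∀ g ∈ s.M.S, s.vx g = s.vx f →
  s.vx (s.M.a g) = s.vx (s.M.a f) → g = f ∨ g = s.M.c f

/-- the axioms; edges join a node and a non-node -/
structure Ok : Prop where
  hm : s.M.Hm s.vx s.H
  ps : s.M.Pos s.pos
  hr : s.H ⊆ range Sum.inr ∧ s.Rm ⊆ range Sum.inr ∧ Disjoint s.H s.Rm
  od : ∀ v, Sum.inl v ∈ s.Vt → v ∈ Od
  bip : ∀ f ∈ s.M.S, s.vx f ∈ s.Nd ↔ s.vx (s.M.a f) ∉ s.Nd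
  deg : ∀ f ∈ s.M.S, (s.vx f ∈ s.Ce → (s.M.vo f).ncard ≤ 6) ∧ (s.vx f ∈ s.Rm → (s.M.vo f).ncard = 4)
  rim : ∀ y ∈ s.Rm ∩ s.Vt, ∃ f ∈ s.M.fl s.vx s.H, s.Quad f ∧ s.link f = y

/-- the neighbours of a set -/
def N (S : Set MV) : Set MV := {y | y ∉ S ∧ ∃ x ∈ S, s.G.Adj x y}

/-- a pocket -/
structure Pk (S : Set MV) : Prop where
  sub : S ⊆ s.T
  conn : Conn s.G S
  node : (S ∩ s.Nd).Nonempty
  out : s.N S ⊆ s.Nd
  cl : ∀ v ∈ S ∩ s.Nd, ∀ y, s.G.Adj v y → y ∈ S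
  card : (s.N S).ncard ≤ 2

/-- pockets meet pairwise -/
def FC : Prop := ∀ S S', s.Pk S → s.Pk S' → (S ∩ S').Nonempty

/-- no pocket misses the large component -/
def NoSP {g : ℕ} (B : Fin g × Fin g → Set MV) : Prop :=
  ∀ S, s.Pk S → (S ∩ big s.G B s.T (s.N S)).Nonempty

/-- a model of a grid among cells and nodes, away from the holes -/
def Grid {g : ℕ} (B : Fin g × Fin g → Set MV) : Prop :=
  Model (fb.grid g) s.G (s.T \ s.M.rad s.vx s.H) B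

/-- the large component off `X` -/
def bg {g : ℕ} (B : Fin g × Fin g → Set MV) (X : Set MV) : Set MV :=
  big s.G B (s.M.tv s.vx s.H) X

/-- no set of at most `n` vertices lowers the genus or joins two holes -/
def NF {g : ℕ} (B : Fin g × Fin g → Set MV) (n : ℕ) : Prop :=
  s.M.NF s.vx B s.H (s.M.tv s.vx s.H) n

/-- at most `n` nodes enclose `y` together with a hole -/
def Enc {g : ℕ} (B : Fin g × Fin g → Set MV) (n : ℕ) (y : MV) : Prop :=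
  ∃ X ⊆ s.Nd, X.ncard ≤ n ∧ y ∉ s.bg B X ∧ ∃ p ∈ s.M.fl s.vx s.H,
    ∃ p' ∈ s.M.reg (s.M.ind s.vx (s.bg B X)) p, s.vx p' = y

end Sk

/-- sets of small order that avoid the nodes of a cross are small -/
def Ctl (σ : AG) {θ g : ℕ} (T : Tangle σ.f θ) (B : Fin g × Fin g → Set MV) (θ1 : ℕ) : Prop :=
  ∀ U, σ.f U < θ1 → (∃ i j, ∀ v ∈ σ.vs U, Sum.inl v ∉ Cross B i j) → U ∈ T.sm

/-! Raw structures -/

/-- the data of a raw structure: exceptional vertices, and the owner of each atom (a cell, a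
hole, or nobody) -/
structure Rw (σ : AG) where
  s : Sk
  Λ : Set W
  own : σ.ε → Option MV

namespace Rw

variable {σ : AG} (r : Rw σ)

/-- the content of a cell or hole -/
def ct (x : MV) : Set σ.ε := {a | r.own a = some x}

/-- flags at corners of holes that are not closed -/
def opn : Set r.s.Φ :=
  {f | f ∈ r.s.M.fl r.s.vx r.s.H ∧ ¬ (r.s.Quad f ∧ r.s.link f ∉ r.s.H)}

/-- the positions of the spokes `m`, ..., `n - 1` counted from the flag `f` -/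
def arc (f : r.s.Φ) (m n : ℕ) : Set W :=
  {v | ∃ i, m ≤ i ∧ i < n ∧ r.s.far (r.s.M.rot^[i] f) = v}

/-- the number of spokes -/
noncomputable def dg (f : r.s.Φ) : ℕ := (r.s.M.vo f).ncard / 2

/-- the axioms, with bounds on genus, holes, open corners, depth and exceptional vertices -/
structure Ok (k q s D l : ℕ) : Prop where
  ok : r.s.Ok
  eg : r.s.M.eg ≤ k
  holes : (r.s.H ∩ r.s.Vt).ncard ≤ q
  op : r.opn.ncard ≤ s
  lam : r.Λ ⊆ Od ∧ r.Λ.Finite ∧ r.Λ.ncard ≤ l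
  lamn : ∀ v ∈ r.Λ, Sum.inl v ∈ r.s.Vt → v ∈ r.s.Po
  root : ∀ a, ∀ v ∈ r.Λ ∩ σ.inc a, v ∈ σ.bd {a}
  owner : ∀ a x, r.own a = some x → x ∈ r.s.Ce ∪ (r.s.H ∩ r.s.Vt)
  share : ∀ a, ∀ v ∈ σ.inc a \ r.Λ,
    (Sum.inl v ∈ r.s.Vt ∨ ∃ a', r.own a' ≠ r.own a ∧ v ∈ σ.inc a') →
    ∃ x, r.own a = some x ∧ v ∈ r.s.nb x
  solid : ∀ x ∈ r.s.Ce, Solid (σ.un (r.ct x)) (r.s.nb x \ r.Λ) r.Λ
  depth : ∀ f ∈ r.s.M.fl r.s.vx r.s.H, ∀ n ≤ r.dg f, ∃ U ⊆ r.ct (r.s.vx f),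
    (((σ.vs U ∪ r.arc f 0 n) ∩ (σ.vs (r.ct (r.s.vx f) \ U) ∪ r.arc f n (r.dg f))) \
      (r.Λ ∪ r.arc f 0 n ∩ r.arc f n (r.dg f))).ncard ≤ D

/-- the good cells are single atoms with labels in `I`, and pockets meet -/
structure Keep (I : Set Lab) : Prop where
  atom : ∀ x ∈ r.s.Good, ∃ a, r.ct x = {a} ∧ σ.inc a ∩ r.Λ ⊆ r.s.nb x ∧ σ.bd {a} = r.s.nb x ∧
    ∀ ρ ∈ r.s.Rd x, Mem I (σ.pc a, ρ)
  fc : r.s.FC

end Rw

/-! Sides -/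

/-- the type of a side: depth, atoms, width, forbidden letters -/
structure Ty where
  d : ℕ
  A : Set Lab
  K : ℕ
  F : Set Lab

/-- the data of a structure with sides -/
structure Sh (σ : AG) where
  s : Sk
  Λ : Set W
  ι : Type
  fin : Fintype ι
  m : ι → ℕ
  d : ι → ℕ
  φ0 : ι → s.Φ
  β : ι → ℕ → ℕ → W
  L : ι → ℕ → ℕ → Set W
  own : σ.ε → Option (MV ⊕ ι × ℕ)

instance {σ : AG} (t : Sh σ) : Fintype t.ι := t.fin

namespace Sh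

variable {σ : AG} (t : Sh σ)

/-- spoke `i` of a side, its node, and the link of the corner between spokes `i` and `i + 1` -/
def φ (j : t.ι) (i : ℕ) : t.s.Φ := t.s.M.rot^[i] (t.φ0 j)
def u (j : t.ι) (i : ℕ) : W := t.s.far (t.φ j i)
def lk (j : t.ι) (i : ℕ) : MV := t.s.link (t.φ j i)

/-- contents of cells, bags, and the remaining atoms -/
def ct (x : MV) : Set σ.ε := {a | t.own a = some (Sum.inl x)}
def bag (j : t.ι) (i : ℕ) : Set σ.ε := {a | t.own a = some (Sum.inr (j, i))}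
def rest : Set σ.ε := {a | t.own a = none}

/-- cut `i` of a side -/
def κ (j : t.ι) (i : ℕ) : Set W := {t.u j i} ∪ {v | ∃ l < t.d j, t.β j i l = v}

/-- spokes that belong to no side -/
def Fx : Set t.s.Φ := {f | f ∈ t.s.M.fl t.s.vx t.s.H ∧
  ∀ j, ∀ i ≤ t.m j, f ≠ t.φ j i ∧ f ≠ t.s.M.c (t.φ j i)}

/-- the marked vertices -/
def Mk : Set W := (⋃ j, t.κ j 0 ∪ t.κ j (t.m j)) ∪ t.s.far '' t.Fx

/-- the roots of a bag -/
def rl (j : t.ι) (i : ℕ) : List W :=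
  (t.u j i :: (List.range (t.d j)).map (t.β j i)) ++
    (t.u j (i + 1) :: (List.range (t.d j)).map (t.β j (i + 1)))

/-- the letter of a bag -/
def letter (j : t.ι) (i : ℕ) : Lab := (σ.un (t.bag j i), t.rl j i)

/-- `P` is a connected set of the bag that joins `v` and `w` -/
def Lane (j : t.ι) (i : ℕ) (P : Set W) (v w : W) : Prop :=
  Conn (gr (σ.un (t.bag j i))) P ∧ v ∈ P ∧ w ∈ P ∧ P ⊆ (σ.vs (t.bag j i) ∪ {v}) \ t.Λ

/-- bags in which a lane starts or ends at an exceptional vertex -/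
def Tr : Set (t.ι × ℕ) := {p | p.2 < t.m p.1 ∧ ∃ l < t.d p.1,
  ¬ (t.β p.1 p.2 l ∈ t.Λ ↔ t.β p.1 (p.2 + 1) l ∈ t.Λ)}

/-- the axioms -/
structure Ok : Prop where
  ok : t.s.Ok
  spoke : t.s.Spk
  lam : t.Λ ⊆ Od ∧ t.Λ.Finite
  lamn : ∀ v ∈ t.Λ, Sum.inl v ∈ t.s.Vt → v ∈ t.s.far '' t.Fx
  root : ∀ a, ∀ v ∈ t.Λ ∩ σ.inc a, v ∈ σ.bd {a}
  len : ∀ j, 0 < t.m j
  hole : ∀ j, t.φ0 j ∈ t.s.M.fl t.s.vx t.s.H
  sep : ∀ j j', ∀ i ≤ t.m j, ∀ i' ≤ t.m j', t.φ j' i' ≠ t.s.M.c (t.φ j i) ∧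
    (t.φ j' i' = t.φ j i → j = j' ∧ i = i')
  quad : ∀ j, ∀ i < t.m j, t.s.Quad (t.φ j i) ∧ t.lk j i ∈ t.s.Rm ∪ t.s.Ce
  lkinj : ∀ j j', ∀ i < t.m j, ∀ i' < t.m j', t.lk j i = t.lk j' i' → j = j' ∧ i = i'
  rim : ∀ y ∈ t.s.Rm ∩ t.s.Vt, ∃ j, ∃ i < t.m j, t.lk j i = y
  ulam : ∀ j, ∀ i ≤ t.m j, t.u j i ∉ t.Λ
  ownc : ∀ a x, t.own a = some (Sum.inl x) → x ∈ t.s.Ce
  ownb : ∀ a j i, t.own a = some (Sum.inr (j, i)) → i < t.m j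
  inner : ∀ j, ∀ i ≤ t.m j, ∀ l < t.d j, t.β j i l ∈ Od ∧
    (t.β j i l ∉ t.Λ → Sum.inl (t.β j i l) ∉ t.s.Vt)
  priv : ∀ j j', ∀ i ≤ t.m j, ∀ i' ≤ t.m j', ∀ l < t.d j, ∀ l' < t.d j', t.β j i l ∉ t.Λ →
    t.β j i l = t.β j' i' l' → j = j' ∧ l = l'
  conv : ∀ j, ∀ l < t.d j, ∀ i k i', i ≤ k → k ≤ i' → i' ≤ t.m j → t.β j i l ∉ t.Λ →
    t.β j i l = t.β j i' l → t.β j k l = t.β j i l
  share : ∀ a, ∀ v ∈ σ.inc a \ t.Λ, (Sum.inl v ∈ t.s.Vt ∨ (∃ j, ∃ i ≤ t.m j, v ∈ t.κ j i) ∨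
      ∃ a', t.own a' ≠ t.own a ∧ t.own a' ≠ none ∧ v ∈ σ.inc a') →
    (∀ x, t.own a = some (Sum.inl x) → v ∈ t.s.nb x) ∧
    (∀ j i, t.own a = some (Sum.inr (j, i)) → v ∈ t.κ j i ∪ t.κ j (i + 1)) ∧
    (t.own a = none → v ∈ t.Mk)
  two : ∀ j, ∀ i ≤ t.m j, ∀ v ∈ t.κ j i, ∀ a, v ∈ σ.inc a → v ∈ σ.bd {a}
  solid : ∀ x ∈ t.s.Ce, Solid (σ.un (t.ct x)) (t.s.nb x) (t.Λ \ t.s.nb x) ∧
    t.s.nb x ⊆ σ.bd (t.ct x)
  lane : ∀ j, ∀ i < t.m j, ∀ l < t.d j, t.β j i l ∉ t.Λ → t.β j (i + 1) l ∉ t.Λ →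
    t.Lane j i (t.L j i l) (t.β j i l) (t.β j (i + 1) l) ∧ t.u j i ∉ t.L j i l ∧
      t.u j (i + 1) ∉ t.L j i l
  path : ∀ j, ∀ i < t.m j, t.lk j i ∈ t.s.Rm →
    t.Lane j i (t.L j i (t.d j)) (t.u j i) (t.u j (i + 1))
  ldis : ∀ j, ∀ i < t.m j, ∀ l ≤ t.d j, ∀ l' ≤ t.d j, l ≠ l' → Disjoint (t.L j i l) (t.L j i l')
  lent : ∀ j, ∀ i < t.m j, ∀ l ≤ t.d j, ∀ l' < t.d j, l ≠ l' →
    t.β j i l' ∉ t.L j i l ∧ t.β j (i + 1) l' ∉ t.L j i l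

/-- the bag fits the type -/
structure Fits (j : t.ι) (i : ℕ) (y : Ty) : Prop where
  dep : y.d = t.d j
  atoms : σ.Over (t.bag j i) y.A y.K
  wid : Wd σ.inc (t.bag j i) y.K
  forb : ∀ ω ∈ y.F, ¬ Le ω (t.letter j i)

end Sh

/-- the parameters of a class of tame structures -/
structure Par where
  k : ℕ
  I : Set Lab
  q : ℕ
  Ms : Multiset Ty
  c : ℕ
  A : Set Lab
  K : ℕ
  ν : ℕ

/-- tame structures; `ty` gives the types of the sides and `mk` the names of the marked vertices -/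
structure Tame (p : Par) (σ : AG) (t : Sh σ) (ty : t.ι → Ty) (mk : W → ℕ) : Prop where
  rob : σ.Rob
  ok : t.Ok
  lam : t.Λ = ∅
  eg : t.s.M.eg ≤ p.k
  holes : (t.s.H ∩ t.s.Vt).ncard ≤ p.q
  types : Finset.univ.val.map ty = p.Ms
  marks : t.Mk.ncard ≤ p.c
  atoms : σ.Over univ p.A p.K
  names : ∀ a i, Sum.inr i ∈ VV (σ.pc a) → i < p.ν
  fc : t.s.FC
  cell : ∀ x ∈ t.s.Ce, ∃ a, t.ct x = {a} ∧ ∀ ρ ∈ t.s.Rd x, Mem p.I (σ.pc a, ρ)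
  fits : ∀ j, ∀ i < t.m j, t.Fits j i (ty j)
  move : ∀ j, ∀ l < t.d j, t.β j 0 l ≠ t.β j (t.m j) l
  pend : ∀ a ∈ t.rest, ∃ v ∈ t.Mk, σ.pc a = {(v, Sum.inr (mk v))}
  pex : ∀ v ∈ t.Mk, ∃ a ∈ t.rest, σ.pc a = {(v, Sum.inr (mk v))} ∧
    ∀ a', Sum.inr (mk v) ∈ VV (σ.pc a') → a' = a

/-- the graphs with a tame structure -/
def Cls (p : Par) : Set Lab := {l | ∃ σ t ty mk, Tame p σ t ty mk ∧ l = σ.lab}

/-! Preliminary structures -/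

/-- how a side is treated: new, old and broken, old and kept -/
inductive Md
  | new
  | gen
  | keep

namespace Sh

variable {σ : AG} (t : Sh σ)

/-- the cells in the seed -/
def Sc (Sd : Set σ.ε) : Set MV := {x | x ∈ t.s.Ce ∧ ¬ Disjoint (t.ct x) Sd}

/-- the node has a neighbour among the cells outside the seed -/
def Att (Sd : Set σ.ε) (v : W) : Prop := ∃ x ∈ t.s.Ce \ t.Sc Sd, v ∈ t.s.nb x

/-- the cells are atoms whose exceptional vertices are nodes -/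
def Str : Prop := ∀ x ∈ t.s.Ce, ∃ a, t.ct x = {a} ∧ σ.inc a ∩ t.Λ ⊆ t.s.nb x

/-- the cells outside the seed have their labels in `I` -/
def Lb (Sd : Set σ.ε) (I : Set Lab) : Prop :=
  ∀ x ∈ t.s.Ce \ t.Sc Sd, ∀ ρ ∈ t.s.Rd x, Mem I (σ.un (t.ct x), ρ)

end Sh

/-- a structure with a seed `Sd`, seed bags `Sb`, modes, target types and a frame -/
structure Pre {σ : AG} {θ g : ℕ} (T : Tangle σ.f θ) (e : σ.ε) (t : Sh σ) (Sd : Set σ.ε)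
    (Sb : t.ι → ℕ → Prop) (md : t.ι → Md) (tt : t.ι → ℕ → Ty) (B : Fin g × Fin g → Set MV)
    (w R : ℕ) : Prop where
  ok : t.Ok
  fc : t.s.FC
  grid : t.s.Grid B
  ctl : Ctl σ T B R
  frame : ∃ U0, t.s.M.Frame t.s.vx B t.s.H R U0
  rest : t.rest ⊆ Sd
  sm : Sd ∈ T.sm ∧ σ.f Sd ≤ w
  sbag : ∀ j, ∀ i < t.m j, (Sb j i → t.bag j i ⊆ Sd) ∧ (¬ Sb j i → Disjoint (t.bag j i) Sd)
  scell : ∀ x ∈ t.Sc Sd, t.ct x ⊆ Sd ∧ ∃ h ∈ t.s.H,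
    Link t.s.G (t.Sc Sd ∪ {h} ∪ Sum.inl '' (σ.vs Sd \ σ.bd Sd)) h x
  cnt : t.Mk.ncard ≤ w ∧ Fintype.card t.ι ≤ w ∧ t.Λ.ncard ≤ w ∧ t.Tr.ncard ≤ w ∧ ∀ j, t.d j ≤ w
  tr : ∀ p ∈ t.Tr, Sb p.1 p.2
  brk : {p : t.ι × ℕ | p.2 + 1 < t.m p.1 ∧ ¬ (Sb p.1 p.2 ↔ Sb p.1 (p.2 + 1))}.ncard ≤ w
  loose : {p : t.ι × ℕ | p.2 + 1 < t.m p.1 ∧ Sb p.1 p.2 ∧ Sb p.1 (p.2 + 1) ∧
    t.u p.1 (p.2 + 1) ∉ σ.vs Sd ∧ t.Att Sd (t.u p.1 (p.2 + 1))}.ncard ≤ w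
  cells : ∀ x ∈ t.s.Ce, t.ct x ∈ T.sm ∧ σ.f (t.ct x) ≤ w
  bags : ∀ j, ∀ i < t.m j, t.bag j i ∈ T.sm ∧ σ.f (t.bag j i) ≤ w
  iso : ∃ Wc : Set σ.ε, Wc.ncard ≤ w ∧ ∀ x ∈ t.s.Ce, ∀ (T' : Tangle σ.f θ) (D : Set σ.ε),
    IsDist e T T' D → (t.ct x)ᶜ ∈ T'.sm → e ∉ D → Disjoint D Wc → D ⊆ t.ct x
  old : ∀ j, md j ≠ Md.new → t.Λ = ∅ ∧ ∀ i < t.m j,
    (∀ T' : Tangle σ.f θ, t.bag j i ∈ T'.sm) ∧ (¬ Sb j i → t.Fits j i (tt j i)) ∧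
      (i + 1 < t.m j → ¬ Sb j i → ¬ Sb j (i + 1) → tt j i = tt j (i + 1))
  keep : ∀ j, md j = Md.keep → t.Mk ⊆ σ.vs Sd ∧ t.Str ∧ (∀ j', md j' ≠ Md.new) ∧
    ∃ lo hi, lo ≤ hi ∧ hi ≤ t.m j ∧ (∀ i < t.m j, Sb j i ↔ i < lo ∨ hi ≤ i) ∧
      (∀ i ≤ t.m j, i < lo ∨ hi < i → ¬ t.Att Sd (t.u j i)) ∧
      ∀ i, lo ≤ i → i < hi → t.lk j i ∉ t.Sc Sd

/-- the rooted piece `(X, ρO)` is glued from the core `F` and the image under `π` of the graph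
`G'`, whose names from `ν` on stand for the vertices `ρN`; the names in `P` are pendant -/
structure Desc (ν : ℕ) (P : Set ℕ) (X : Pc) (ρO : List W) (F : Pc) (ρN : List W) (G' : Pc)
    (π : W → W) : Prop where
  old : ∀ i < ν, π (Sum.inr i) = Sum.inr i
  new : ∀ j (h : j < ρN.length), π (Sum.inr (ν + j)) = ρN[j]
  nmX : ∀ i, Sum.inr i ∈ VV X → i < ν
  nmG : ∀ i, Sum.inr i ∈ VV G' → i < ν + ρN.length
  od : (∀ v ∈ Od, π v ∈ Od) ∧ (∀ v ∈ ρO, v ∈ Od) ∧ ∀ v ∈ ρN, v ∈ Od ∩ VV X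
  sub : F ⊆ X
  cover : VV X ⊆ VV F ∪ π '' VV G' ∧ ∀ u v, (gr X).Adj u v →
    (gr F).Adj u v ∨ ∃ u' v', (gr G').Adj u' v' ∧ π u' = u ∧ π v' = v
  back : π '' (VV G' ∩ Od) ⊆ VV X ∧
    ∀ u v, (gr G').Adj u v → π u = π v ∨ (gr X).Adj (π u) (π v)
  pend : ∀ j ∈ P, j < ρN.length ∧ ∃ u ∈ Od, π u = π (Sum.inr (ν + j)) ∧
    ∀ v, (gr G').Adj (Sum.inr (ν + j)) v ↔ v = u
  tied : ∀ u ∈ VV G' ∩ Od, (∃ j ∈ P, (gr G').Adj (Sum.inr (ν + j)) u) ∨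
    (π u ∉ VV F ∧ π u ∉ ρN ∧ π u ∉ ρO ∧ ∀ u' ∈ VV G', π u' = π u → u' = u)

/-- a model of the cores and a model of the new graphs give a model of the pieces -/
def DescS : Prop :=
  ∀ (ν : ℕ) (P : Set ℕ) (X X' F F' G G' : Pc) (ρO ρO' ρN ρN' : List W) (π π' : W → W),
    Desc ν P X ρO F ρN G π → Desc ν P X' ρO' F' ρN' G' π' → ρO.length = ρO'.length →
    Le (F, ρO ++ ρN) (F', ρO' ++ ρN') → Le (G, []) (G', []) → Le (X, ρO) (X', ρO')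

/-- where the sides of the new structure come from -/
structure Src {σ σ' : AG} (t : Sh σ) (Sd : Set σ.ε) (Sb : t.ι → ℕ → Prop) (md : t.ι → Md)
    (tt : t.ι → ℕ → Ty) (t' : Sh σ') (ty' : t'.ι → Ty) (A : Set Lab) (K : ℕ)
    (src : t'.ι → t.ι) : Prop where
  ty : ∀ j', (md (src j') ≠ Md.new ∧ (∃ i < t.m (src j'), ¬ Sb (src j') i ∧ ty' j' = tt (src j') i) ∧
      (md (src j') = Md.keep → ∀ j'', src j'' = src j' → j'' = j')) ∨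
    (ty' j' = ⟨t'.d j', A, K, ∅⟩ ∧ t'.d j' ≤ t.d (src j') ∧
      (md (src j') ≠ Md.new → t'.d j' < t.d (src j')))
  marks : t.Mk ⊆ σ.vs Sd → t.Str → t.Λ = ∅ →
    (∀ j, md j = Md.keep ∧ ∃ j', src j' = j ∧ t'.d j' = t.d j) → t'.Mk.ncard ≤ σ.f Sd

/-- from a preliminary structure to a core and a tame structure -/
def FinS : Prop :=
  ∀ w ν K : ℕ, ∃ R0 w' : ℕ, ∀ θ, R0 ≤ θ → ∃ K' : ℕ, ∀ A, Pwo A → ∃ Fn : Set Lab → Set Lab,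
    (∀ A', Pwo A' → Pwo (Fn A')) ∧
    ∀ (σ : AG) (T : Tangle σ.f θ) (e : σ.ε) (t : Sh σ) (Sd : Set σ.ε) (Sb : t.ι → ℕ → Prop)
      (md : t.ι → Md) (tt : t.ι → ℕ → Ty) (g R : ℕ) (B : Fin g × Fin g → Set MV), R0 ≤ R → R0 ≤ g →
      σ.Rob → σ.Over univ A K → (∀ a i, Sum.inr i ∈ VV (σ.pc a) → i < ν) →
      Pre T e t Sd Sb md tt B w R →
      ∃ N : Set (Tangle σ.f θ), T ∉ N ∧ ∀ A',
        (∀ C ∈ Cut e T N, e ∉ C → InA A' (σ.un C) (σ.bd C)) →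
        ∃ (F : Pc) (ρO ρN : List W) (P : Set ℕ) (π : W → W) (σ' : AG) (t' : Sh σ')
          (ty' : t'.ι → Ty) (mk' : W → ℕ) (src : t'.ι → t.ι),
          Enum ρO (σ.bd (Out e T N)) ∧ ρO.length ≤ w' ∧ ρN.length ≤ w' ∧
          (F, ρO ++ ρN) ∈ Om (Fn A') K' (ρO.length + ρN.length) ∧
          Desc ν P (σ.un (Out e T N)ᶜ) ρO F ρN (σ'.un univ) π ∧
          Fintype.card t'.ι ≤ w' ∧ t'.Mk.ncard ≤ w' ∧ Src t Sd Sb md tt t' ty' (Fn A') K' src ∧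
          ∀ k I q, t.s.M.eg ≤ (k : ℕ) → (I = Fn A' ∨ (t.Str ∧ t.Lb Sd I)) →
            ((t.s.H ∩ t.s.Vt).ncard + w' ≤ q ∨ (t.Str ∧ (t.s.H ∩ t.s.Vt).ncard ≤ q)) →
            ∀ c, t'.Mk.ncard ≤ c →
              Tame ⟨k, I, q, Finset.univ.val.map ty', c, Fn A', K', ν + w'⟩ σ' t' ty' mk'

end Pool.Agent.MP_9d78a0_co.gm

end MrgPart0

-- ======== part 1: formerly Pool.Agent.MP_9d78a0_co.gm.SpecOp
section MrgPart1

/-! Statements on maps that are used in several blocks. -/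

set_option autoImplicit false

namespace Pool.Agent.MP_9d78a0_co.gm

open Set Function

/-- the rotation runs through the flags of one direction at a vertex -/
def RotS : Prop :=
  ∀ (Φ : Type) (M : FM Φ), M.Ok → ∀ f ∈ M.S, (∀ i, M.rot^[i] f ∈ M.vo f) ∧
    0 < (M.vo f).ncard / 2 ∧
    (∀ i j, M.rot^[i] f = M.rot^[j] f ↔ i ≡ j [MOD (M.vo f).ncard / 2]) ∧
    (∀ i j, M.rot^[i] f ≠ M.c (M.rot^[j] f)) ∧
    (∀ g ∈ M.vo f, ∃ i < (M.vo f).ncard / 2, g = M.rot^[i] f ∨ g = M.c (M.rot^[i] f)) ∧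
    M.rot (M.c (M.rot f)) = M.c f

/-- the reading of a vertex lists its neighbours -/
def RtsS : Prop :=
  ∀ s : Sk, s.Ok → ∀ f ∈ s.M.S, s.vx f ∉ s.Nd → s.vx (s.M.a f) = Sum.inl (s.far f) ∧
    {v | v ∈ s.rts f} = s.nb (s.vx f) ∧ (s.vx f ∉ s.H → (s.rts f).Nodup ∧ (s.rts f).length ≤ 3)

/-- spokes to a connected set of full genus do not separate two corners whose faces meet another
connected set -/
def CrossS : Prop :=
  ∀ (Φ V : Type) (M : FM Φ) (vx : Φ → V) (K D : Set V) (f : Φ) (i j1 j2 : ℕ), M.Ok → M.Lbl vx →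
    Conn (M.gph vx) K → Conn (M.gph vx) D → Disjoint K D → (M.sub (M.ind vx K)).eg = M.eg →
    f ∈ M.S → vx f ∉ K → vx f ∉ D → j1 < i → i ≤ j2 → j2 < (M.vo f).ncard / 2 →
    vx (M.a f) ∈ K → vx (M.a (M.rot^[i] f)) ∈ K → (∃ g ∈ M.fo (M.rot^[j1] f), vx g ∈ D) →
    (∃ g ∈ M.fo (M.rot^[j2] f), vx g ∈ D) → False

/-- full sets: larger sets are full; a walk along edges and through faces that avoids a full set
joins no two holes -/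
def SepS : Prop :=
  ∀ (Φ V : Type) (M : FM Φ) (vx : Φ → V) (H K : Set V), M.Ok → M.Lbl vx → M.Full vx H K →
    (∀ H' K', H' ⊆ H → K ⊆ K' → M.Full vx H' K') ∧
    (∀ K', K ⊆ K' → ∀ f, M.reg (M.ind vx K') f ⊆ M.reg (M.ind vx K) f) ∧
    (∀ f ∈ M.S, ∀ g ∈ M.S, Relation.ReflTransGen
      (fun u v => u ∉ K ∧ v ∉ K ∧ ((M.gph vx).Adj u v ∨ v ∈ M.rad vx {u})) (vx f) (vx g) →
      vx f ∉ K → g ∈ M.reg (M.ind vx K) f) ∧
    ∀ x ∈ H ∩ vx '' M.S, ∀ y ∈ H ∩ vx '' M.S, x ∉ K → Relation.ReflTransGen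
      (fun u v => u ∉ K ∧ v ∉ K ∧ ((M.gph vx).Adj u v ∨ v ∈ M.rad vx {u})) x y → x = y

/-- dead sets at different holes are far apart -/
def FarS : Prop :=
  ∀ (Φ V : Type) (M : FM Φ) (vx : Φ → V) (H U0 : Set V) (g R : ℕ) (B : Fin g × Fin g → Set V),
    M.Ok → M.Lbl vx → M.Frame vx B H R U0 → 1 ≤ R → ∀ X Y D D' : Set V, X.Finite → X.ncard ≤ R →
    Y ⊆ M.rad vx H → ∀ x ∈ H ∩ D ∩ vx '' M.S, ∀ x' ∈ H ∩ D' ∩ vx '' M.S,
    (∀ v ∈ D, Link (M.gph vx) D x v) → (∀ v ∈ D', Link (M.gph vx) D' x' v) →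
    Disjoint (D ∪ D') (big (M.gph vx) B (M.tv vx H) (X ∪ Y)) →
    (M.rad vx D ∩ M.rad vx D').Nonempty → x = x'

end Pool.Agent.MP_9d78a0_co.gm

end MrgPart1

-- marker of a merged file
example : 731051 + 803005 = 731051 + 803005 := rfl
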