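import Pool.Agent.MP_9d78a0_co.gm.CExt
import Pool.Agent.MP_9d78a0_co.gm.SpecM
import Pool.Agent.MP_9d78a0_co.gm.SpecOp

/-! Rotations, curves, crossing spokes, contraction of vertex sets. -/

set_option autoImplicit false

namespace Pool.Agent.MP_9d78a0_co.gm

open Set Function Relation Cy FM

theorem extC : ExtS := extS ghostS regS sphereS
theorem ext1C : Ext1S := ext1S extC
theorem oriC : OriS := oriS extC
theorem gphC : GphS := gphS orbS minorS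
theorem conVC : ConVS := conVS orbS minorS
theorem regBC : RegBS := regBS orbS minorS

namespace Cy

variable {α : Type} {S : Set α} {p q : α → α} {op oq : α → ZMod 2} {x z : α}

/-- the cycle of two involutions, listed by their product -/
theorem cyc_enum (hS : S.Finite) (hp : Inv S p) (hq : Inv S q) (hx : x ∈ S) :
    ∃ n, 0 < n ∧ (orb p q x).ncard = 2 * n ∧ (q ∘ p)^[n] x = x ∧
      (∀ i, (q ∘ p)^[i] x ∈ orb p q x) ∧
      (∀ i < n, ∀ j < n, (q ∘ p)^[i] x = (q ∘ p)^[j] x → i = j) ∧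
      (∀ i j, (q ∘ p)^[i] x ≠ q ((q ∘ p)^[j] x)) ∧
      ∀ y ∈ orb p q x, ∃ i < n, y = (q ∘ p)^[i] x ∨ y = q ((q ∘ p)^[i] x) := by
  have ho : ∀ i, (q ∘ p)^[i] x ∈ orb p q x := fun i => orb_comm q p x ▸ orb_iter x i
  have hS' : ∀ y ∈ orb p q x, y ∈ S := fun y => orb_mem hp.inv0 hq.inv0 hx
  have inj : InjOn (q ∘ p) S := fun y hy w hw e => by
    rw [← (hp y hy).2.1, ← (hq _ (hp y hy).1).2.1, show q (p y) = q (p w) from e,
      (hq _ (hp w hw).1).2.1, (hp w hw).2.1]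
  obtain ⟨m, h0, hm⟩ := exists_per hS inj (fun y hy => (hq _ (hp y hy).1).1) hx
  have per : x ∈ periodicPts (q ∘ p) := ⟨m, h0, hm⟩
  have n0 := minimalPeriod_pos_of_mem_periodicPts per
  have e0 := (isPeriodicPt_minimalPeriod (q ∘ p) x).eq
  have i1 : ∀ i < minimalPeriod (q ∘ p) x, ∀ j < minimalPeriod (q ∘ p) x,
      (q ∘ p)^[i] x = (q ∘ p)^[j] x → i = j := fun i hi j hj e =>
    iterate_injOn_Iio_minimalPeriod hi hj e
  have md : ∀ i, (q ∘ p)^[i % minimalPeriod (q ∘ p) x] x = (q ∘ p)^[i] x := fun i =>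
    iterate_mod_minimalPeriod_eq
  generalize minimalPeriod (q ∘ p) x = n at n0 e0 i1 md
  obtain ⟨χ, c1, c2⟩ := ev_one hS hp hq hx
  have c3 : ∀ i, χ ((q ∘ p)^[i] x) = χ x := fun i => by
    induction i with
    | zero => rfl
    | succ i ih =>
      rw [iterate_succ_apply', comp_apply, c2 _ (orb_p (ho i)), c1 _ (ho i), ih]
      simp [add_assoc, z2_add_self]
  have i2 : ∀ i j, (q ∘ p)^[i] x ≠ q ((q ∘ p)^[j] x) := fun i j e => by
    have := c3 i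
    rw [e, c2 _ (ho j), c3] at this
    simp at this
  have cov : ∀ y ∈ orb p q x, ∃ i < n, y = (q ∘ p)^[i] x ∨ y = q ((q ∘ p)^[i] x) := fun y hy => by
    obtain ⟨i, hi⟩ : ∃ i, y = (q ∘ p)^[i] x ∨ y = q ((q ∘ p)^[i] x) := by
      refine orb_ind (P := fun y => ∃ i, y = (q ∘ p)^[i] x ∨ y = q ((q ∘ p)^[i] x)) hy
        ⟨0, Or.inl rfl⟩ ?_ ?_ <;> rintro _ ⟨i, rfl | rfl⟩ <;> have k := hS' _ (ho i)
      · exact ⟨i + 1, Or.inr (by rw [iterate_succ_apply', comp_apply, (hq _ (hp _ k).1).2.1])⟩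
      · refine ⟨i + (n - 1), Or.inl (inj (hp _ (hq _ k).1).1 (hS' _ (ho _)) ?_)⟩
        rw [comp_apply, (hp _ (hq _ k).1).2.1, (hq _ k).2.1, ← iterate_succ_apply' (q ∘ p),
          show (i + (n - 1)).succ = i + n by omega, iterate_add_apply, e0]
      · exact ⟨i, Or.inr rfl⟩
      · exact ⟨i, Or.inl (hq _ k).2.1⟩
    exact ⟨i % n, Nat.mod_lt _ n0, by rwa [md]⟩
  refine ⟨n, n0, ?_, e0, ho, i1, i2, cov⟩
  have e : orb p q x = (fun i => (q ∘ p)^[i] x) '' (Finset.range n) ∪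
      (fun i => q ((q ∘ p)^[i] x)) '' (Finset.range n) := by
    refine Set.ext fun y => ⟨fun hy => ?_, ?_⟩
    · obtain ⟨i, hi, k | k⟩ := cov y hy
      exacts [Or.inl ⟨i, by simpa using hi, k.symm⟩, Or.inr ⟨i, by simpa using hi, k.symm⟩]
    · rintro (⟨i, -, rfl⟩ | ⟨i, -, rfl⟩)
      exacts [ho i, orb_q (ho i)]
  rw [e, ncard_union_eq (disjoint_left.2 (by
      rintro y ⟨i, _, k⟩ ⟨j, _, k'⟩; exact i2 i j (k.trans k'.symm))),
    ncard_image_of_injOn fun i hi j hj k => i1 i (by simpa using hi) j (by simpa using hj) k,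
    ncard_image_of_injOn fun i hi j hj k => i1 i (by simpa using hi) j (by simpa using hj) (by
      rw [← (hq _ (hS' _ (ho i))).2.1, show q _ = q _ from k, (hq _ (hS' _ (ho j))).2.1]),
    ncard_coe_finset, Finset.card_range, two_mul]

theorem par_symm : par p q op oq x = par q p oq op x := by
  classical
  unfold par; exact if_congr ⟨Ev.symm, Ev.symm⟩ rfl rfl

open Classical in
theorem par_two (hS : S.Finite) (hp : Inv S p) (hq : Inv S q) {y : α} (hx : x ∈ S) (hy : y ∈ S)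
    (hz : z ∈ S) : par p q (one p x + one p y) 0 z =
      (if z ∈ orb p q x then 1 else 0) + if z ∈ orb p q y then 1 else 0 := by
  have := par_add (oq := 0) (oq' := 0) hS hp hq hz (fun _ => one_sym hp.inv0 hx) (fun _ _ => rfl)
    (fun _ => one_sym hp.inv0 hy) fun _ _ => rfl
  rwa [add_zero, par_one hS hp hq hx hz, par_one hS hp hq hy hz] at this

end Cy

namespace FM

variable {Φ V : Type} {M : FM Φ} {vx : Φ → V} {U U' C : Set Φ} {H K K' D : Set V} {f g : Φ}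
  {u v w : V} {ob oc ob' oc' : Φ → ZMod 2}

/-- the rotation lists the flags of a vertex -/
theorem rot_enum (hM : M.Ok) (hf : f ∈ M.S) :
    0 < (M.vo f).ncard / 2 ∧ (M.vo f).ncard = 2 * ((M.vo f).ncard / 2) ∧
      M.rot^[(M.vo f).ncard / 2] f = f ∧ (∀ i, M.rot^[i] f ∈ M.vo f) ∧
      (∀ i < (M.vo f).ncard / 2, ∀ j < (M.vo f).ncard / 2, M.rot^[i] f = M.rot^[j] f → i = j) ∧
      (∀ i j, M.rot^[i] f ≠ M.c (M.rot^[j] f)) ∧
      ∀ y ∈ M.vo f, ∃ i < (M.vo f).ncard / 2, y = M.rot^[i] f ∨ y = M.c (M.rot^[i] f) := by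
  obtain ⟨n, h0, h1, h⟩ := cyc_enum hM.fin hM.ib hM.ic hf
  have : (M.vo f).ncard / 2 = n := by unfold vo; omega
  rw [this]
  exact ⟨h0, h1, h⟩

/-- walks in the graph and walks of flags -/
theorem link_iff (hM : M.Ok) (hL : M.Lbl vx) (hf : f ∈ M.S) (hg : g ∈ M.S) :
    Link (M.gph vx) K (vx f) (vx g) ↔ M.R (M.ind vx K) univ f g := by
  refine ⟨fun h => ?_, fun h => h.ind (p := fun g => Link (M.gph vx) K (vx f) (vx g)) hM hf
    (.refl ..) (fun z hz k => by rwa [hL.b hM hz])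
    (fun z hz k1 k => k.trans (Gph.link_a hz k1.2.1 k1.2.2)) fun z hz _ k => by rwa [hL.c hM hz]⟩
  have hv : ∀ x ∈ M.S, ∀ y ∈ M.vo x, M.R (M.ind vx K) univ x y := fun x _ y hy =>
    (mem_vo.1 hy).mono (empty_subset _) subset_rfl
  by_cases k : vx f ∈ K
  · exact Gph.pull hM hL (fun x hx _ => hv x hx)
      (fun x hx k1 k2 => Or.inr (Or.inl ⟨⟨hx, k1, k2⟩, rfl⟩)) hf k h g hg rfl
  · rcases ReflTransGen.cases_head h with e | ⟨_, e, -⟩
    exacts [hv f hf g ((hL f hf g hg).1 e), (k e.1).elim]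

theorem vx_sat (hM : M.Ok) (hL : M.Lbl vx) (hf : f ∈ M.sat (M.ind vx K)) : vx f ∈ K :=
  let ⟨_, hg, k⟩ := hf; hL.of_vo hM hg.1 k ▸ hg.2.1

theorem Full.mono (hM : M.Ok) (hL : M.Lbl vx) (h : M.Full vx H K) (hK : K ⊆ K') :
    M.Full vx H K' := full_mono hM hL hK h

/-- positive flags of a new map -/
theorem Pos.map {Ψ : Type} {N : FM Ψ} {pos : Φ → Prop} (h : M.Pos pos) (e : Φ → Ψ) (A : Set Φ)
    (ho : ∀ o, M.Ori o → ∃ o', N.Ori o' ∧ ∀ f ∈ A, o' (e f) ↔ o f) :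
    ∃ pos', N.Pos pos' ∧ ∀ f ∈ A, pos' (e f) → pos f := by
  rcases h with h | ⟨-, h⟩
  · exact let ⟨o', h1, h2⟩ := ho pos h; ⟨o', Or.inl h1, fun f hf => (h2 f hf).1⟩
  · by_cases k : ∃ o, N.Ori o
    · exact let ⟨o, k⟩ := k; ⟨o, Or.inl k, fun f _ _ => h f⟩
    · exact ⟨fun _ => True, Or.inr ⟨k, fun _ => trivial⟩, fun f _ _ => h f⟩

/-! ### curves -/

open Classical in
/-- the weights crossed by a curve from `u` to `v` that runs along edges and through faces -/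
structure Chn (M : FM Φ) (vx : Φ → V) (u v : V) (ob oc : Φ → ZMod 2) : Prop where
  sb : ∀ f ∈ M.S, ob (M.b f) = ob f
  ec : M.Ech oc
  fa : ∀ f ∈ M.S, Ev M.a M.b 0 ob f
  ve : ∀ f ∈ M.S, par M.b M.c ob oc f = (if vx f = u then 1 else 0) + if vx f = v then 1 else 0

/-- the indicator function of an edge -/
noncomputable def ed (M : FM Φ) (z : Φ) : Φ → ZMod 2 := one M.c z + one M.c (M.a z)

theorem ed_zero {z : Φ} (h : f ∉ M.eo z) (hM : M.Ok) (hz : z ∈ M.S) : M.ed z f = 0 := by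
  rw [mem_eo hM hz, hM.comm hz] at h
  simp only [not_or] at h
  simp [ed, one, h]

theorem ed_one {z : Φ} (h : f ∈ M.eo z) (hM : M.Ok) (hz : z ∈ M.S) : M.ed z f = 1 := by
  have h1 := hM.a_ne hz
  have h2 := hM.a_ne_c hz
  have h3 := hM.ac_ne hz
  have h4 := hM.a_ne (hM.c_mem hz)
  rw [hM.comm hz] at h3 h4
  rw [mem_eo hM hz, hM.comm hz] at h
  rcases h with rfl | rfl | rfl | rfl <;> simp [ed, one, h1, h2, h3, h4, h1.symm, h2.symm, h3.symm,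
    h4.symm]

theorem Chn.refl (u : V) : M.Chn vx u u 0 0 :=
  ⟨fun _ _ => rfl, fun _ _ => ⟨rfl, rfl⟩, fun _ _ => ev_zero fun _ _ => ⟨rfl, rfl⟩, fun _ _ => by
    rw [z2_add_self]; exact par_eq_zero.2 (ev_zero fun _ _ => ⟨rfl, rfl⟩)⟩

theorem Chn.symm (h : M.Chn vx u v ob oc) : M.Chn vx v u ob oc :=
  ⟨h.sb, h.ec, h.fa, fun f hf => (h.ve f hf).trans (add_comm ..)⟩

theorem Chn.trans (hM : M.Ok) (h : M.Chn vx u v ob oc) (h' : M.Chn vx v w ob' oc') :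
    M.Chn vx u w (ob + ob') (oc + oc') :=
  ⟨fun f hf => by simp only [Pi.add_apply, h.sb f hf, h'.sb f hf],
    fun f hf => by simp only [Pi.add_apply, h.ec f hf, h'.ec f hf, and_self],
    fun f hf => by simpa using (h.fa f hf).add (h'.fa f hf), fun f hf => by
      classical
      rw [par_add hM.fin hM.ib hM.ic hf h.sb (fun y hy => (h.ec y hy).2) h'.sb
        fun y hy => (h'.ec y hy).2, h.ve f hf, h'.ve f hf, add_assoc, ← add_assoc (ite (vx f = v) ..),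
        z2_add_self, zero_add]⟩

theorem Chn.edge (hM : M.Ok) (hL : M.Lbl vx) (hg : g ∈ M.S) :
    M.Chn vx (vx g) (vx (M.a g)) 0 (M.ed g) := by
  classical
  refine ⟨fun _ _ => rfl, fun f hf => ?_, fun _ _ => ev_zero fun _ _ => ⟨rfl, rfl⟩, fun f hf => ?_⟩
  · by_cases k : f ∈ M.eo g
    · simp only [ed_one k hM hg, ed_one (orb_p k) hM hg, ed_one (orb_q k) hM hg, and_self]
    · rw [ed_zero k hM hg, ed_zero (fun k1 => k (hM.aa hf ▸ orb_p k1)) hM hg,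
        ed_zero (fun k1 => k (hM.cc hf ▸ orb_q k1)) hM hg]
      exact ⟨rfl, rfl⟩
  · rw [par_symm, ed, par_two hM.fin hM.ic hM.ib hg (hM.a_mem hg) hf, orb_comm, orb_comm M.c]
    congr 1 <;> refine if_congr ?_ rfl rfl
    exacts [(hL g hg f hf).symm.trans eq_comm, (hL _ (hM.a_mem hg) f hf).symm.trans eq_comm]

theorem Chn.face (hM : M.Ok) (hL : M.Lbl vx) {z : Φ} (hg : g ∈ M.S) (hz : z ∈ M.fo g) :
    M.Chn vx (vx g) (vx z) (one M.b g + one M.b z) 0 := by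
  classical
  have hz' := hM.fo_mem hg hz
  refine ⟨fun f hf => by simp only [Pi.add_apply, one_sym hM.ib0 hg hf, one_sym hM.ib0 hz' hf],
    fun _ _ => ⟨rfl, rfl⟩, fun f hf => par_eq_zero.1 ?_, fun f hf => ?_⟩
  · rw [par_symm, par_two hM.fin hM.ib hM.ia hg hz' hf, orb_eq hM.ib0 hM.ia0 hg ((orb_comm ..).le hz),
      z2_add_self]
  · rw [par_two hM.fin hM.ib hM.ic hg hz' hf]
    congr 1 <;> refine if_congr ?_ rfl rfl
    exacts [(hL g hg f hf).symm.trans eq_comm, (hL _ hz' f hf).symm.trans eq_comm]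

theorem Chn.link (hM : M.Ok) (hL : M.Lbl vx) (h : Link (M.gph vx) D u v) :
    ∃ oc, M.Chn vx u v 0 oc ∧ ∀ f ∉ M.ind vx D, oc f = 0 := by
  induction h with
  | refl => exact ⟨0, .refl u, fun _ _ => rfl⟩
  | tail _ e ih =>
    obtain ⟨oc, h1, h2⟩ := ih
    obtain ⟨hu, hv, -, x, hx, e⟩ := e
    obtain ⟨x, hx, rfl, rfl⟩ : ∃ x ∈ M.S, vx x = _ ∧ vx (M.a x) = _ := e.elim (⟨x, hx, ·⟩)
      fun e => ⟨M.a x, hM.a_mem hx, e.2, by rw [hM.aa hx, e.1]⟩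
    refine ⟨_, by simpa using h1.trans hM (.edge hM hL hx), fun f hf => ?_⟩
    rw [Pi.add_apply, h2 f hf, ed_zero (fun k => hf ((es_ind hM hL D).eo_sub ⟨hx, hu, hv⟩ k)) hM hx,
      add_zero]

/-- a closed curve that misses a connected submap of full genus has two sides -/
theorem Chn.close (hM : M.Ok) (h : M.Chn vx u u ob oc) (hU : M.Es U) (hc : (M.sub U).Con)
    (he : (M.sub U).eg = M.eg) (h0 : ∀ f ∈ M.sat U, ob f = 0 ∧ oc f = 0) :
    ∃ χ, Pot M.S M.a 0 χ ∧ Pot M.S M.b ob χ ∧ Pot M.S M.c oc χ ∧ ∀ f ∈ M.sat U, χ f = 0 :=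
  extC _ M U 0 ob oc 0 hM hU hc he
    (fun f hf => (ev_edge hM.dual (fun x hx => (h.ec x hx).symm) hf).symm) h.fa
    (fun f hf _ _ => Or.inl (par_eq_zero.1 ((h.ve f hf).trans (z2_add_self _))))
    (fun _ _ => rfl) (fun f hf => by simp [(h0 f hf).1]) fun f hf => by simp [(h0 f hf).2]

/-- the spokes of a vertex to a connected set of full genus and to a disjoint connected set do
not interleave -/
theorem cross (hM : M.Ok) (hL : M.Lbl vx) (hK : Conn (M.gph vx) K)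
    (he : (M.sub (M.ind vx K)).eg = M.eg) (hKD : Disjoint K D) (hf : f ∈ M.S) (h1 : vx f ∉ K)
    (h2 : vx f ∉ D) {k k' d d' : ℕ} (l1 : k < d) (l2 : d < k') (l3 : d' < k ∨ k' < d')
    (l4 : k' < (M.vo f).ncard / 2) (l5 : d' < (M.vo f).ncard / 2)
    (m1 : vx (M.a (M.rot^[k] f)) ∈ K) (m2 : vx (M.a (M.rot^[k'] f)) ∈ K)
    (m3 : vx (M.a (M.rot^[d] f)) ∈ D) (m4 : vx (M.a (M.rot^[d'] f)) ∈ D)
    (hD : Link (M.gph vx) D (vx (M.a (M.rot^[d] f))) (vx (M.a (M.rot^[d'] f)))) : False := by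
  obtain ⟨-, -, -, r1, r2, r3, -⟩ := rot_enum hM hf
  have rS := fun i => hM.vo_mem hf (r1 i)
  have rx := fun i => hL.of_vo hM hf (r1 i)
  obtain ⟨β, b1, b2⟩ := Chn.link hM hL hD
  have ch := ((Chn.edge hM hL (rS d)).trans hM b1).trans hM (Chn.edge hM hL (rS d')).symm
  rw [rx, rx] at ch
  have e0 : ∀ i, vx (M.a (M.rot^[i] f)) ∈ D → ∀ y, vx y ∈ K → M.ed (M.rot^[i] f) y = 0 :=
    fun i hi y hy => ed_zero (fun k => by
      rcases (mem_eo hM (rS i)).1 k with rfl | rfl | rfl | rfl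
      exacts [h1 (rx i ▸ hy), disjoint_left.1 hKD hy hi, h1 (by rwa [hL.c hM (rS i), rx] at hy),
        disjoint_left.1 hKD (by rwa [hL.ac hM (rS i)] at hy) hi]) hM (rS i)
  have e1 : ∀ y, vx y ∈ K → (M.ed (M.rot^[d] f) + β + M.ed (M.rot^[d'] f)) y = 0 := fun y hy => by
    simp [e0 d m3 y hy, e0 d' m4 y hy, b2 y fun k => disjoint_left.1 hKD hy k.2.1]
  obtain ⟨χ, c1, c2, c3, -⟩ := ch.close hM (es_ind hM hL K) (con_ind hM hL hK) he
    fun y hy => ⟨by simp, e1 y (vx_sat hM hL hy)⟩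
  have e2 : ∀ i < (M.vo f).ncard / 2, vx (M.a (M.rot^[i] f)) ∈ D → ∀ j < (M.vo f).ncard / 2,
      M.ed (M.rot^[i] f) (M.rot^[j] f) = if j = i then 1 else 0 := fun i hi k j hj => by
    split_ifs with e
    · exact ed_one (e ▸ orb_self ..) hM (rS i)
    · refine ed_zero (fun k1 => ?_) hM (rS i)
      rcases (mem_eo hM (rS i)).1 k1 with k1 | k1 | k1 | k1
      exacts [e (r2 j hj i hi k1), h2 (by rwa [← k1, rx] at k), r3 j i k1,
        h2 (by rwa [← hL.ac hM (rS i), ← k1, rx] at k)]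
  have e3 : ∀ j, k ≤ j → j ≤ k' → χ (M.rot^[j] f) = χ (M.rot^[k] f) + if d ≤ j then 1 else 0 := by
    intro j hj
    induction j, hj using Nat.le_induction with
    | base => intro _; rw [if_neg (by omega), add_zero]
    | succ j hj ih =>
      intro h
      have e : M.rot^[j + 1] f = M.c (M.b (M.rot^[j] f)) := iterate_succ_apply' ..
      have := (ch.ec _ (hM.b_mem (rS j))).2
      rw [← e, Pi.add_apply, Pi.add_apply, e2 d (by omega) m3 _ (by omega),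
        e2 d' l5 m4 _ (by omega), b2 _ fun k => h2 (rx _ ▸ k.2.1), if_neg (by omega : ¬j + 1 = d')]
        at this
      rw [e, c3 _ (hM.b_mem (rS j)), c2 _ (rS j), ← this, ih (by omega)]
      split_ifs <;> first | omega | simp
  have e4 := ((link_iff hM hL (hM.a_mem (rS k)) (hM.a_mem (rS k'))).1 (hK.2 _ m1 _ m2)).ind
    (p := fun y => vx y ∈ K ∧ χ y = χ (M.a (M.rot^[k] f))) hM (hM.a_mem (rS k)) ⟨m1, rfl⟩
    (fun z hz h => ⟨by rw [hL.b hM hz]; exact h.1, by simp [c2 z hz, h.2]⟩)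
    (fun z hz k h => ⟨k.2.2, by simp [c1 z hz, h.2]⟩)
    fun z hz _ h => ⟨by rw [hL.c hM hz]; exact h.1, by rw [c3 z hz, e1 z h.1, add_zero, h.2]⟩
  have := e4.2
  rw [c1 _ (rS k'), c1 _ (rS k), e3 k' (by omega) le_rfl, if_pos l2.le] at this
  simp at this

/-! ### contraction of the components of a vertex set -/

theorem gh_co : g ∈ (M.gh C ∅).co f ↔ M.R C univ f g := by
  have e1 : ∀ x ∈ C, (M.gh C ∅).a x = M.a x := fun x => Gph.ga_mem
  have e2 : ∀ x ∉ C, (M.gh C ∅).a x = M.c x := fun x => Gph.ga_not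
  have e3 : (M.gh C ∅).c = M.c := Gph.gc_empty M C
  rw [mem_co]
  refine ⟨fun h => h.ind0 .rfl (fun _ => R.b) (fun z _ k => ?_) fun z _ k => e3 ▸ k.c trivial,
    fun h => h.ind0 .rfl (fun _ => R.b) (fun z h1 k => e1 z h1 ▸ k.a trivial)
      fun z _ k => e3 ▸ k.c trivial⟩
  by_cases h1 : z ∈ C
  exacts [e1 z h1 ▸ k.a h1, e2 z h1 ▸ k.c trivial]

/-- one walks round a forest -/
theorem forest_R (hM : M.Ok) (hC : M.Es C) (hb : ∀ e ∈ C, M.BrIn C e) (hf : f ∈ M.S \ C)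
    (hg : g ∈ M.S \ C) (h : M.R C univ f g) : M.R C Cᶜ f g := by
  have k := ((forestS _ M C hM hC hb).2 f hf).ge ⟨gh_co.2 h, hg.2⟩
  rw [mem_vo, minor_R (U := M.S \ C) hM ((hC.cl.compl hM).es hM) hC.cl hf hg] at k
  exact k.mono (fun z hz => hz.elim (·.1.elim) (·.1)) fun z hz => hz.elim (·.2.2) (·.2)

/-- the components of a vertex set `Z` become vertices -/
theorem merge (hM : M.Ok) (hL : M.Lbl vx) (Z : Set V) : ∃ F ⊆ M.ind vx Z, M.Es F ∧
    M.Es (M.S \ M.ind vx Z) ∧ (M.minor (M.S \ M.ind vx Z) F).Ok ∧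
    (M.minor (M.S \ M.ind vx Z) F).eg ≤ M.eg ∧ (M.Con → (M.minor (M.S \ M.ind vx Z) F).Con) ∧
    (∀ o, M.Ori o → (M.minor (M.S \ M.ind vx Z) F).Ori o) ∧
    (∀ f ∈ M.S \ M.ind vx Z, M.b f ∉ M.ind vx Z → (M.minor (M.S \ M.ind vx Z) F).b f = M.b f) ∧
    ∀ f ∈ M.S \ M.ind vx Z, ∀ g ∈ M.S \ M.ind vx Z,
      g ∈ (M.minor (M.S \ M.ind vx Z) F).vo f ↔ Link (M.gph vx) Z (vx f) (vx g) := by
  have hD := es_ind hM hL Z
  obtain ⟨F, hF, eF, bF, sF⟩ := spanS _ M _ hM hD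
  have hU : M.Es (M.S \ M.ind vx Z) := (hD.cl.compl hM).es hM
  have sp : ∀ f ∈ M.S, ∀ g, M.R F univ f g ↔ M.R (M.ind vx Z) univ f g := fun f hf g => by
    rw [← gh_co, sF f hf, gh_co]
  have lk := fun f hf g hg => link_iff (K := Z) (f := f) (g := g) hM hL hf hg
  generalize M.ind vx Z = D at *
  have nF : ∀ x ∈ M.S \ D, x ∈ M.S \ F := fun x hx => ⟨hx.1, fun k => hx.2 (hF k)⟩
  have m1 : ∀ z ∈ F, z ∈ F \ (M.S \ D) := fun z hz => ⟨hz, fun k => k.2 (hF hz)⟩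
  have m2 : ∀ z ∈ Fᶜ, z ∈ univ ∩ (M.S \ D) ∪ (M.S \ D)ᶜ \ F := fun z hz => by
    by_cases k : z ∈ M.S \ D
    exacts [Or.inl ⟨trivial, k⟩, Or.inr ⟨k, hz⟩]
  refine ⟨F, hF, eF, hU, hM.minorC hU eF.cl, (monoS _ M hM).2 _ _ hU eF, fun hc f hf g hg => ?_,
    fun o => (oriC _ M hM).1 _ _ o hU eF,
    fun f hf k => minor_b_of_mem hM hU eF.cl hf ⟨hM.b_mem hf.1, k⟩, fun f hf g hg => ?_⟩
  · rw [mem_co, minor_R hM hU eF.cl hf hg]
    have key : ∀ z ∈ M.S \ D, (∃ w ∈ M.S \ F, M.R (univ ∩ (M.S \ D) ∪ F \ (M.S \ D))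
        (univ ∩ (M.S \ D) ∪ (M.S \ D)ᶜ \ F) f w ∧ M.R F univ w z) → M.R
        (univ ∩ (M.S \ D) ∪ F \ (M.S \ D)) (univ ∩ (M.S \ D) ∪ (M.S \ D)ᶜ \ F) f z :=
      fun z hz ⟨w, hw, k1, k2⟩ =>
        k1.trans ((forest_R hM eF bF hw (nF z hz) k2).mono (fun z hz => Or.inr (m1 z hz)) m2)
    refine key g hg ((mem_co.1 (hc f hf.1 g hg.1)).ind (p := fun z => ∃ w ∈ M.S \ F, M.R _ _ f w ∧
      M.R F univ w z) hM hf.1 ⟨f, nF f hf, .rfl, .rfl⟩
      (fun z _ ⟨w, hw, k1, k2⟩ => ⟨w, hw, k1, k2.b⟩) (fun z hz _ k => ?_)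
      fun z _ _ ⟨w, hw, k1, k2⟩ => ⟨w, hw, k1, k2.c trivial⟩)
    by_cases h : z ∈ D
    · exact let ⟨w, hw, k1, k2⟩ := k; ⟨w, hw, k1, k2.trans ((sp z hz _).2 (R.rfl.a h))⟩
    · exact ⟨_, nF _ (hU.2 z ⟨hz, h⟩).1, (key z ⟨hz, h⟩ k).a (Or.inl ⟨trivial, hz, h⟩), .rfl⟩
  · rw [mem_vo, minor_R hM hU eF.cl hf hg, lk f hf.1 g hg.1, ← sp f hf.1]
    exact ⟨fun k => k.mono (fun z hz => hz.elim (·.1.elim) (·.1)) (subset_univ _), fun k =>
      (forest_R hM eF bF (nF f hf) (nF g hg) k).mono (fun z hz => Or.inr (m1 z hz)) m2⟩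

end FM

namespace Sk

variable {s : Sk} {f : s.Φ}

theorem rts_length : (s.rts f).length = (s.M.vo f).ncard / 2 := by simp [rts]

theorem vx_far (h : s.Ok) (hf : f ∈ s.M.S) (hx : s.vx f ∉ s.Nd) :
    s.vx (s.M.a f) = Sum.inl (s.far f) := by
  obtain ⟨-, v, e⟩ : s.vx (s.M.a f) ∈ s.Nd := by_contra fun k => hx ((h.bip f hf).2 k)
  rw [far, ← e]; rfl

theorem rts_le (h : s.Ok) (hf : f ∈ s.M.S) (hx : s.vx f ∈ s.Ce) : (s.rts f).length ≤ 3 := by
  have := (h.deg f hf).1 hx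
  rw [rts_length]; omega

theorem far_mem_nb (h : s.Ok) (hf : f ∈ s.M.S) (hx : s.vx f ∉ s.Nd) : s.far f ∈ s.nb (s.vx f) :=
  ⟨s.vx_far h hf hx ▸ (h.hm.simple f hf).1, f, hf, Or.inl ⟨rfl, s.vx_far h hf hx⟩⟩

theorem exists_far (h : s.Ok) {x : MV} {v : W} (hv : v ∈ s.nb x) :
    ∃ g ∈ s.M.S, s.vx g = x ∧ s.vx (s.M.a g) = Sum.inl v ∧ s.far g = v := by
  obtain ⟨-, g, hg, k | k⟩ := hv
  · exact ⟨g, hg, k.1, k.2, by rw [far, k.2]; rfl⟩
  · exact ⟨_, h.hm.ok.a_mem hg, k.2, by rw [h.hm.ok.aa hg, k.1], by rw [far, h.hm.ok.aa hg, k.1]; rfl⟩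

/-- the reading of a vertex lists its neighbours -/
theorem rts_set (h : s.Ok) (hf : f ∈ s.M.S) (hx : s.vx f ∉ s.Nd) :
    {v | v ∈ s.rts f} = s.nb (s.vx f) := by
  have hM := h.hm.ok
  have hL := h.hm.lbl
  obtain ⟨-, -, -, r1, -, -, r2⟩ := rot_enum hM hf
  ext v
  simp only [rts, mem_setOf_eq, List.mem_map, List.mem_range]
  constructor
  · rintro ⟨i, -, rfl⟩
    have e := hL.of_vo hM hf (r1 i)
    exact e ▸ far_mem_nb h (hM.vo_mem hf (r1 i)) (e ▸ hx)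
  · intro hv
    obtain ⟨g, hg, e, -, rfl⟩ := exists_far h hv
    obtain ⟨i, hi, k | k⟩ := r2 g ((hL f hf g hg).1 e.symm)
    exacts [⟨i, hi, by rw [k]⟩, ⟨i, hi, by rw [k, far, far, hL.ac hM (hM.vo_mem hf (r1 i))]⟩]

theorem rts_nodup (h : s.Ok) (hf : f ∈ s.M.S) (hx : s.vx f ∉ s.Nd) (hH : s.vx f ∉ s.H ∨ s.Spk) :
    (s.rts f).Nodup := by
  have hM := h.hm.ok
  obtain ⟨-, -, -, r1, r2, r3, -⟩ := rot_enum hM hf
  have rS := fun i => hM.vo_mem hf (r1 i)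
  have rx := fun i => h.hm.lbl.of_vo hM hf (r1 i)
  refine List.Nodup.map_on (fun i hi j hj e => ?_) List.nodup_range
  have e1 := s.vx_far h (rS i) (rx i ▸ hx)
  have e2 : s.vx (s.M.a (s.M.rot^[j] f)) = s.vx (s.M.a (s.M.rot^[i] f)) := by
    rw [e1, e, s.vx_far h (rS j) (rx j ▸ hx)]
  have : s.M.rot^[j] f = s.M.rot^[i] f ∨ s.M.rot^[j] f = s.M.c (s.M.rot^[i] f) := by
    by_cases k : s.vx f ∈ s.H
    · exact hH.resolve_left (not_not.2 k) _ ⟨rS i, rx i ▸ k⟩ _ (rS j) ((rx j).trans (rx i).symm) e2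
    · refine (h.hm.simple _ (rS i)).2 _ (rS j) (rx i ▸ k) (fun k1 => ?_)
        ((rx j).trans (rx i).symm) e2
      obtain ⟨n, k1⟩ := h.hr.1 k1
      rw [e1] at k1; cases k1
  exact (r2 j (List.mem_range.1 hj) i (List.mem_range.1 hi) (this.resolve_right (r3 j i))).symm

end Sk

end Pool.Agent.MP_9d78a0_co.gm
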