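import Pool.Agent.MP_9d78a0_co.gm.SpecOp

/-! Block F: the statements on maps. -/

set_option autoImplicit false

namespace Pool.Agent.MP_9d78a0_co.gm

open Set Function

/-- the flags round a vertex -/
def FRotS : Prop :=
  ∀ (Φ : Type) (M : FM Φ) (f : Φ), M.Ok → f ∈ M.S →
    0 < (M.vo f).ncard / 2 ∧ M.rot^[(M.vo f).ncard / 2] f = f ∧ (∀ i, M.rot^[i] f ∈ M.vo f ∩ M.S) ∧
    (∀ g ∈ M.vo f, ∃ i < (M.vo f).ncard / 2, g = M.rot^[i] f ∨ g = M.c (M.rot^[i] f)) ∧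
    (∀ i k, M.rot^[i] f ≠ M.c (M.rot^[k] f)) ∧
    ∀ i < (M.vo f).ncard / 2, ∀ k < (M.vo f).ncard / 2, M.rot^[i] f = M.rot^[k] f → i = k

/-- readings, spokes and closed corners -/
def FSkS : Prop :=
  ∀ s : Sk, s.Ok →
    (∀ f ∈ s.M.S, s.vx f ∉ s.Nd → {v | v ∈ s.rts f} = s.nb (s.vx f) ∧
      (s.vx f ∈ s.Ce → (s.rts f).length ≤ 3) ∧ (s.vx f ∉ s.H → (s.rts f).Nodup)) ∧
    (∀ f ∈ s.M.fl s.vx s.H, s.vx (s.M.a f) = Sum.inl (s.far f) ∧ s.far f ∈ s.nb (s.vx f) ∧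
      s.M.rot f ∈ s.M.fl s.vx s.H ∧ s.vx (s.M.rot f) = s.vx f ∧
      s.M.c f ∈ s.M.fl s.vx s.H ∧ s.vx (s.M.c f) = s.vx f ∧ s.far (s.M.c f) = s.far f ∧
      (s.Quad f → s.far f ∈ s.nb (s.link f) ∧ s.far (s.M.rot f) ∈ s.nb (s.link f) ∧
        s.link f ∈ s.M.rad s.vx s.H ∧
        (s.link f ∈ s.Rm → s.nb (s.link f) = {s.far f, s.far (s.M.rot f)}))) ∧
    (∀ x ∈ s.H, ∀ v ∈ s.nb x, ∃ f ∈ s.M.fl s.vx s.H, s.vx f = x ∧ s.far f = v) ∧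
    (∀ x y, s.G.Adj x y → x ∈ s.Vt ∧ (x ∈ s.Nd ↔ y ∉ s.Nd)) ∧
    (∀ x ∈ s.Vt, ∃ y, s.G.Adj x y) ∧ s.Vt.Finite

/-- a connected set that misses the frame has one hole at most -/
def FSepS : Prop :=
  ∀ (Φ V : Type) (M : FM Φ) (vx : Φ → V) (H U0 : Set V) (g R : ℕ) (B : Fin g × Fin g → Set V),
    M.Hm vx H → M.Frame vx B H R U0 → 1 ≤ R → Disjoint (M.rad vx H) U0 ∧
      (∀ f ∈ M.fl vx H, vx (M.a f) ∈ M.rad vx H) ∧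
      (∀ D ⊆ vx '' M.S, D ⊆ (M.rad vx)^[R] D) ∧
      ∀ D, Disjoint D U0 → ∀ x ∈ H ∩ D ∩ vx '' M.S, ∀ y ∈ H ∩ vx '' M.S,
        Link (M.gph vx) D x y → x = y

/-- two disjoint connected sets, one of them full, do not cross at a hole -/
def FCrossS : Prop :=
  ∀ (Φ V : Type) (M : FM Φ) (vx : Φ → V) (H U0 K D : Set V) (f : Φ) (i k l : ℕ), M.Hm vx H →
    M.Full vx H U0 → U0 ⊆ K → K ⊆ M.tv vx H → D ⊆ M.tv vx H → Conn (M.gph vx) K →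
    Conn (M.gph vx) D → Disjoint K D → f ∈ M.fl vx H → 0 < i → i < k → k < l →
    l < (M.vo f).ncard / 2 → vx (M.a f) ∈ K → vx (M.a (M.rot^[k] f)) ∈ K →
    vx (M.a (M.rot^[i] f)) ∈ D → vx (M.a (M.rot^[l] f)) ∈ D → False

namespace Sk

variable (s : Sk)

/-- the nodes next to a kept cell or rim -/
def kn (Ck Rk : Set MV) : Set MV := {v | v ∈ s.Nd ∧ ∃ y ∈ Ck ∪ Rk, s.G.Adj v y}

/-- holes, the other cells and the other nodes -/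
def mg (Ck Rk : Set MV) : Set MV := (s.H ∩ s.Vt) ∪ (s.Ce \ Ck) ∪ (s.Nd \ s.kn Ck Rk)

/-- another map on the same flags -/
def re (M' : FM s.Φ) (vx' : s.Φ → MV) (H' Rk : Set MV) (pos' : s.Φ → Prop) : Sk :=
  ⟨s.Φ, M', vx', H', Rk, pos'⟩

/-- the components of `Z` have become holes, the rest of `mg` and the other rims are deleted -/
structure Surg (Ck Rk Z : Set MV) (M' : FM s.Φ) (vx' : s.Φ → MV) (H' : Set MV)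
    (pos' : s.Φ → Prop) : Prop where
  ok : (s.re M' vx' H' Rk pos').Ok
  spoke : (s.re M' vx' H' Rk pos').Spk
  eg : M'.eg ≤ s.M.eg
  sub : M'.S ⊆ s.M.S
  ac : M'.a = s.M.a ∧ M'.c = s.M.c
  b : ∀ f ∈ M'.S, s.M.b f ∈ M'.S → M'.b f = s.M.b f
  pos : ∀ f ∈ M'.S, pos' f → s.pos f
  vx : ∀ f ∈ M'.S, (s.vx f ∈ Ck ∪ Rk ∪ s.kn Ck Rk ∧ vx' f = s.vx f ∧ vx' f ∉ H') ∨
    (s.vx f ∈ Z ∧ vx' f ∈ H')
  keep : ∀ f ∈ s.M.S, s.vx f ∈ Ck ∪ Rk → f ∈ M'.S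
  old : ∀ f ∈ s.M.fl s.vx s.H, s.vx (s.M.a f) ∈ s.kn Ck Rk → f ∈ M'.S
  has : ∀ v ∈ s.kn Ck Rk, ∀ x ∈ s.mg Ck Rk, s.G.Adj v x →
    ∃ f ∈ M'.fl vx' H', vx' (M'.a f) = v
  nd : (s.re M' vx' H' Rk pos').Nd = s.kn Ck Rk
  ce : (s.re M' vx' H' Rk pos').Ce = Ck
  nb : ∀ x ∈ Ck ∪ Rk, (s.re M' vx' H' Rk pos').nb x = s.nb x
  rd : ∀ x ∈ Ck, (s.re M' vx' H' Rk pos').Rd x ⊆ s.Rd x
  holes : (H' ∩ vx' '' M'.S).ncard ≤ (fb.cp s.G (s.mg Ck Rk) '' Z).ncard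
  fc : s.FC → (s.re M' vx' H' Rk pos').FC

end Sk

/-- the surgery -/
def FSurgS : Prop :=
  ∀ (s : Sk) (Ck Rk Z : Set MV), s.Ok → s.Spk → Ck ⊆ s.Ce → Rk ⊆ s.Rm →
    (∀ f ∈ s.M.fl s.vx s.H, ∀ g ∈ s.M.fl s.vx s.H, s.vx (s.M.a f) = s.vx (s.M.a g) →
      s.vx f = s.vx g) →
    Z ⊆ s.mg Ck Rk → s.H ∩ s.Vt ⊆ Z → (∀ z ∈ Z, fb.cp s.G (s.mg Ck Rk) z ⊆ Z) →
    (∀ x ∈ s.mg Ck Rk, ∃ z ∈ Z, ∀ v ∈ s.kn Ck Rk, (∃ y ∈ fb.cp s.G (s.mg Ck Rk) x, s.G.Adj v y) →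
      ∃ y ∈ fb.cp s.G (s.mg Ck Rk) z, s.G.Adj v y) →
    ∃ M' vx' H' pos', s.Surg Ck Rk Z M' vx' H' pos'

end Pool.Agent.MP_9d78a0_co.gm
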