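import Pool.Agent.MP_9d78a0_co.gm.COp
import Pool.Agent.MP_9d78a0_co.gm.SpecOp
import Pool.Agent.MP_9d78a0_co.gm.SpecFM

/-! The statements on maps that are used in several blocks. -/

set_option autoImplicit false

namespace Pool.Agent.MP_9d78a0_co.gm

open Set Function Relation Cy FM

namespace FM

variable {Φ V : Type} {M : FM Φ} {vx : Φ → V} {K D D' : Set V} {u v : V} {f g : Φ}

theorem exists_adj (hM : M.Ok) (h : (M.gph vx).Adj u v) : ∃ x ∈ M.S, vx x = u ∧ vx (M.a x) = v :=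
  let ⟨_, x, hx, e⟩ := h
  e.elim (⟨x, hx, ·⟩) fun e => ⟨M.a x, hM.a_mem hx, e.2, by rw [hM.aa hx, e.1]⟩

theorem rad_mono (h : D ⊆ D') : M.rad vx D ⊆ M.rad vx D' := fun _ ⟨f, hf, k, e⟩ => ⟨f, hf, h k, e⟩

theorem sub_rad (h : D ⊆ vx '' M.S) : D ⊆ M.rad vx D := fun _ hv =>
  let ⟨f, hf, e⟩ := h hv; ⟨f, hf, e ▸ hv, f, orb_self .., e⟩

theorem rad_sub (hM : M.Ok) : M.rad vx D ⊆ vx '' M.S := fun _ ⟨_, hf, _, g, hg, e⟩ =>
  ⟨g, hM.fo_mem hf hg, e⟩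

theorem sub_rad_iter (h : D ⊆ vx '' M.S) (n : ℕ) : D ⊆ (M.rad vx)^[n] D := by
  induction n with
  | zero => exact subset_rfl
  | succ n ih => rw [iterate_succ_apply']; exact (sub_rad h).trans (rad_mono ih)

theorem rad_sub_iter (hM : M.Ok) {n : ℕ} (h : 1 ≤ n) : M.rad vx D ⊆ (M.rad vx)^[n] D := by
  obtain ⟨n, rfl⟩ : ∃ m, n = m + 1 := ⟨n - 1, by omega⟩
  exact sub_rad_iter (rad_sub hM) n

theorem rad_symm (hM : M.Ok) (h : v ∈ M.rad vx {u}) : u ∈ M.rad vx {v} :=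
  let ⟨f, hf, k, g, hg, e⟩ := h; ⟨g, hM.fo_mem hf hg, e, f, hM.fo_symm hf hg, k⟩

theorem link_img (hM : M.Ok) (h : Link (M.gph vx) D u v) (hu : u ∈ vx '' M.S) : v ∈ vx '' M.S := by
  induction h with
  | refl => exact hu
  | tail _ e _ => exact let ⟨x, hx, k⟩ := exists_adj hM e.2.2; ⟨_, hM.a_mem hx, k.2⟩

/-- the flags at a vertex off `K` lie in one region -/
theorem R_of_vx (hM : M.Ok) (hL : M.Lbl vx) (hf : f ∈ M.S) (hg : g ∈ M.S) (hK : vx f ∉ K)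
    (e : vx f = vx g) : M.R ∅ (M.ind vx K)ᶜ f g :=
  ((mem_vo.1 ((hL f hf g hg).1 e)).ind (p := fun z => vx z = vx f ∧ M.R ∅ (M.ind vx K)ᶜ f z) hM hf
    ⟨rfl, .rfl⟩ (fun _ hz k => ⟨(hL.b hM hz).trans k.1, k.2.b⟩) (fun _ _ k => k.elim)
    fun _ hz _ k => ⟨(hL.c hM hz).trans k.1, k.2.c fun h => hK (k.1 ▸ h.2.1)⟩).2

/-- a potential whose weights vanish at `K` is constant at `K` -/
theorem pot_const (hM : M.Ok) (hL : M.Lbl vx) {χ ob oc : Φ → ZMod 2} (c1 : Pot M.S M.a 0 χ)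
    (c2 : Pot M.S M.b ob χ) (c3 : Pot M.S M.c oc χ) (h0 : ∀ y ∈ M.S, vx y ∈ K → ob y = 0 ∧ oc y = 0)
    (hf : f ∈ M.S) (hg : g ∈ M.S) (hK : vx f ∈ K) (h : Link (M.gph vx) K (vx f) (vx g)) :
    χ g = χ f :=
  (((link_iff hM hL hf hg).1 h).ind (p := fun y => vx y ∈ K ∧ χ y = χ f) hM hf ⟨hK, rfl⟩
    (fun z hz h => ⟨by rw [hL.b hM hz]; exact h.1, by simp [c2 z hz, (h0 z hz h.1).1, h.2]⟩)
    (fun z hz k h => ⟨k.2.2, by simp [c1 z hz, h.2]⟩)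
    fun z hz _ h => ⟨by rw [hL.c hM hz]; exact h.1, by simp [c3 z hz, (h0 z hz h.1).2, h.2]⟩).2

end FM

theorem big_disj {V : Type} {g : ℕ} {G : SimpleGraph V} {B : Fin g × Fin g → Set V} {T Y : Set V} :
    Disjoint Y (big G B T Y) := disjoint_right.2 fun _ ⟨_, _, h, _, hw, k⟩ hv => by
  rcases ReflTransGen.cases_tail k with e | ⟨_, -, e⟩
  exacts [disjoint_left.1 h hw (e ▸ hv), e.2.1.2 hv]

theorem fRotS : FRotS := fun _ _ _ hM hf =>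
  let ⟨h1, _, h2, h3, h4, h5, h6⟩ := rot_enum hM hf
  ⟨h1, h2, fun i => ⟨h3 i, hM.vo_mem hf (h3 i)⟩, h6, h5, h4⟩

theorem rotS : RotS := fun _ M hM f hf => by
  obtain ⟨h1, -, h2, h3, h4, h5, h6⟩ := rot_enum hM hf
  have md := fun i => IsPeriodicPt.iterate_mod_apply (f := M.rot) h2 i
  exact ⟨h3, h1, fun i j => ⟨fun e => h4 _ (Nat.mod_lt _ h1) _ (Nat.mod_lt _ h1) (by rwa [md, md]),
    fun e => by rw [← md, e, md]⟩, h5, h6, by simp only [rot, hM.cc (hM.b_mem hf), hM.bb hf]⟩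

theorem rtsS : RtsS := fun s h f hf hx => ⟨Sk.vx_far h hf hx, Sk.rts_set h hf hx, fun k =>
  ⟨Sk.rts_nodup h hf hx (Or.inl k), by
    by_cases k1 : s.vx f ∈ s.Rm
    · rw [Sk.rts_length, (h.deg f hf).2 k1]; omega
    · refine Sk.rts_le h hf ⟨⟨⟨f, hf, rfl⟩, ?_⟩, fun k2 => k2.elim k k1⟩
      rcases e : s.vx f with v | n
      exacts [(hx ⟨⟨f, hf, rfl⟩, v, e.symm⟩).elim, ⟨n, rfl⟩]⟩⟩

theorem crossS : CrossS := by
  rintro Φ V M vx K D f i j1 j2 hM hL hK hD hKD he hf h1 h2 l1 l2 l3 m1 m2 ⟨g1, k1, d1⟩ ⟨g2, k2, d2⟩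
  obtain ⟨-, -, -, r1, r2, r3, -⟩ := rot_enum hM hf
  have rS := fun i => hM.vo_mem hf (r1 i)
  have rx := fun i => hL.of_vo hM hf (r1 i)
  have s1 := hM.fo_mem (rS _) k1
  have s2 := hM.fo_mem (rS _) k2
  obtain ⟨β, b1, b2⟩ := Chn.link hM hL (hD.2 _ d1 _ d2)
  have ch := ((Chn.face hM hL (rS j1) k1).trans hM b1).trans hM (Chn.face hM hL (rS j2) k2).symm
  rw [rx, rx] at ch
  simp only [add_zero, zero_add] at ch
  have e0 : ∀ z ∈ M.S, ∀ y, vx y ≠ vx z → one M.b z y = 0 := fun z hz y hy => if_neg (by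
    rintro (rfl | rfl); exacts [hy rfl, hy (hL.b hM hz)])
  have e1 : ∀ y, vx y ∈ K → (one M.b (M.rot^[j1] f) + one M.b g1 +
      (one M.b (M.rot^[j2] f) + one M.b g2)) y = 0 ∧ β y = 0 := fun y hy => by
    have n1 : ∀ j, vx y ≠ vx (M.rot^[j] f) := fun j e => h1 (rx j ▸ e ▸ hy)
    have n2 : ∀ g, vx g ∈ D → vx y ≠ vx g := fun g k e => disjoint_left.1 hKD hy (e ▸ k)
    simp [e0 _ (rS _) y (n1 _), e0 _ s1 y (n2 _ d1), e0 _ s2 y (n2 _ d2),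
      b2 y fun k => n2 y k.2.1 rfl]
  obtain ⟨χ, c1, c2, c3, -⟩ := ch.close hM (es_ind hM hL K) (con_ind hM hL hK) he
    fun y hy => e1 y (vx_sat hM hL hy)
  have e2 : ∀ j < (M.vo f).ncard / 2, ∀ l < (M.vo f).ncard / 2,
      one M.b (M.rot^[j] f) (M.rot^[l] f) = if l = j then 1 else 0 := fun j hj l hl => by
    classical
    refine if_congr ⟨fun k => k.elim (r2 l hl j hj) fun k => (r3 l (j + 1) ?_).elim,
      fun e => Or.inl (by rw [e])⟩ rfl rfl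
    rw [k, iterate_succ_apply', rot, hM.cc (hM.b_mem (rS j))]
  have e3 : ∀ j ≤ i, χ (M.rot^[j] f) = χ f + if j1 < j then 1 else 0 := by
    intro j
    induction j with
    | zero => simp
    | succ j ih =>
      intro h
      have n2 : ∀ g, vx g ∈ D → vx (M.rot^[j] f) ≠ vx g := fun g k e => h2 (rx j ▸ e ▸ k)
      rw [iterate_succ_apply', rot, c3 _ (hM.b_mem (rS j)), c2 _ (rS j), ih (by omega),
        b2 _ fun k => h2 (rx j ▸ hL.b hM (rS j) ▸ k.2.1)]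
      simp only [Pi.add_apply, e0 _ s1 _ (n2 _ d1), e0 _ s2 _ (n2 _ d2), e2 j1 (by omega) j (by omega),
        e2 j2 l3 j (by omega)]
      split_ifs <;> first | omega | simp
  have := pot_const hM hL c1 c2 c3 (fun y _ => e1 y) (hM.a_mem hf) (hM.a_mem (rS i)) m1
    (hK.2 _ m1 _ m2)
  rw [c1 _ (rS i), c1 _ hf, e3 i le_rfl, if_pos l1] at this
  simp at this

theorem sepS : SepS := by
  intro Φ V M vx H K hM hL h
  have k3 : ∀ f ∈ M.S, ∀ g ∈ M.S, ReflTransGen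
      (fun u v => u ∉ K ∧ v ∉ K ∧ ((M.gph vx).Adj u v ∨ v ∈ M.rad vx {u})) (vx f) (vx g) →
      vx f ∉ K → g ∈ M.reg (M.ind vx K) f := fun f hf g hg hw hK => by
    have r : ∀ x ∈ M.S, ∀ y ∈ M.S, vx x ∉ K → vx x = vx y → M.R univ (M.ind vx K)ᶜ x y :=
      fun x hx y hy k e => (R_of_vx hM hL hx hy k e).mono (empty_subset _) subset_rfl
    generalize e : vx g = v at hw
    induction hw generalizing g with
    | refl => exact mem_reg.2 (r f hf g hg hK e.symm)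
    | tail _ k ih =>
      obtain ⟨-, k1, k | ⟨x, hx, rfl, y, hy, rfl⟩⟩ := k
      · obtain ⟨x, hx, rfl, rfl⟩ := exists_adj hM k
        exact mem_reg.2 (((mem_reg.1 (ih x hx rfl)).a trivial).trans
          (r _ (hM.a_mem hx) g hg k1 e.symm))
      · exact mem_reg.2 (((mem_reg.1 (ih x hx rfl)).trans ((mem_fo.1 hy).mono subset_rfl
          (empty_subset _))).trans (r _ (hM.fo_mem hx hy) g hg k1 e.symm))
  refine ⟨fun H' K' h1 h2 => ⟨(h.mono hM hL h2).1, fun p hp q hq k1 k2 =>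
    (h.mono hM hL h2).2 p hp q hq (h1 k1) (h1 k2)⟩, fun K' h2 f g k => mem_reg.2 ((mem_reg.1 k).mono
      subset_rfl (compl_subset_compl.2 fun x hx => ⟨hx.1, h2 hx.2.1, h2 hx.2.2⟩)), k3, ?_⟩
  rintro _ ⟨h1, f, hf, rfl⟩ _ ⟨h2, g, hg, rfl⟩ k hw
  exact h.2 f hf g hg h1 h2 (k3 f hf g hg hw k)

theorem link_sep {Φ V : Type} {M : FM Φ} {vx : Φ → V} {K D : Set V} {u v : V} (h : Disjoint D K)
    (k : Link (M.gph vx) D u v) : ReflTransGen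
      (fun u v => u ∉ K ∧ v ∉ K ∧ ((M.gph vx).Adj u v ∨ v ∈ M.rad vx {u})) u v :=
  ReflTransGen.mono (fun _ _ e => ⟨disjoint_left.1 h e.1, disjoint_left.1 h e.2.1, Or.inl e.2.2⟩)
    _ _ k

theorem farS : FarS := by
  rintro Φ V M vx H U0 g R B hM hL hF hR X Y D D' h1 h2 h3 x hx x' hx' l1 l2 hd
    ⟨v, ⟨p, hp, p1, p2⟩, p', hp', p1', p2'⟩
  have f1 := hF.far X Y D h1 h2 h3 (fun v hv => ⟨x, hx.1, l1 v hv⟩) (hd.mono_left subset_union_left)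
  have f2 := hF.far X Y D' h1 h2 h3 (fun v hv => ⟨x', hx'.1, l2 v hv⟩)
    (hd.mono_left subset_union_right)
  have d1 := f1.mono_left (sub_rad_iter (fun v hv => link_img hM (l1 v hv) hx.2) R)
  have d2 := f2.mono_left (sub_rad_iter (fun v hv => link_img hM (l2 v hv) hx'.2) R)
  have hv : v ∉ U0 := disjoint_left.1 f1 (rad_sub_iter hM hR ⟨p, hp, p1, p2⟩)
  exact (sepS _ _ M vx H U0 hM hL hF.full).2.2.2 x ⟨hx.1.1, hx.2⟩ x' ⟨hx'.1.1, hx'.2⟩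
    (disjoint_left.1 d1 hx.1.2) ((((link_sep d1 (l1 _ p1)).tail
      ⟨disjoint_left.1 d1 p1, hv, Or.inr ⟨p, hp, rfl, p2⟩⟩).tail
      ⟨hv, disjoint_left.1 d2 p1', Or.inr (rad_symm hM ⟨p', hp', rfl, p2'⟩)⟩).trans
      (link_sep d2 (l2 _ p1').symm))

theorem fSepS : FSepS := by
  intro Φ V M vx H U0 g R B hM hF hR
  refine ⟨?_, fun f hf => ⟨f, hf.1, hf.2, _, orb_p (orb_self ..), rfl⟩,
    fun D hD => sub_rad_iter hD R, fun D hD x hx y hy k => (sepS _ _ M vx H U0 hM.ok hM.lbl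
      hF.full).2.2.2 x ⟨hx.1.1, hx.2⟩ y hy (disjoint_left.1 hD hx.1.2) (link_sep hD k)⟩
  refine (hF.far ∅ (M.rad vx H) (H ∩ vx '' M.S) finite_empty (by simp) subset_rfl
    (fun v hv => ⟨v, ⟨hv.1, hv⟩, .refl ..⟩) (big_disj.mono_left fun v hv => Or.inr
      (rad_mono inter_subset_left (sub_rad inter_subset_right hv)))).mono_left
    fun v hv => ?_
  obtain ⟨f, hf, k, e⟩ := hv
  exact rad_sub_iter hM.ok hR ⟨f, hf, ⟨k, f, hf, rfl⟩, e⟩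

theorem fCrossS : FCrossS := fun _ _ _ _ _ _ _ _ _ _ _ _ hM hF h1 h2 h3 hK hD hd hf l1 l2 l3 l4
    m1 m2 m3 m4 =>
  cross (k := 0) hM.ok hM.lbl hK (hF.mono hM.ok hM.lbl h1).1 hd hf.1 (fun k => (h2 k).2 hf.2)
    (fun k => (h3 k).2 hf.2) l1 l2 (Or.inr l3) (l3.trans l4) l4 m1 m2 m3 m4 (hD.2 _ m3 _ m4)

theorem fSkS : FSkS := by
  intro s h
  have hM := h.hm.ok
  have hL := h.hm.lbl
  have nd : ∀ x ∈ s.H ∪ s.Rm, x ∉ s.Nd := fun x hx ⟨_, v, e⟩ => by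
    obtain ⟨n, k⟩ := hx.elim (h.hr.1 ·) (h.hr.2.1 ·)
    rw [← e] at k; cases k
  refine ⟨fun f hf hx => ⟨Sk.rts_set h hf hx, Sk.rts_le h hf,
    fun k => Sk.rts_nodup h hf hx (Or.inl k)⟩, fun f hf => ?_, fun x hx v hv => ?_,
    fun x y k => ?_, ?_, hM.fin.image _⟩
  · have hx := nd _ (Or.inl hf.2)
    have s1 := hM.b_mem hf.1
    have e1 : s.vx (s.M.rot f) = s.vx f := (hL.c hM s1).trans (hL.b hM hf.1)
    have e2 := hL.c hM hf.1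
    refine ⟨Sk.vx_far h hf.1 hx, Sk.far_mem_nb h hf.1 hx, ⟨hM.c_mem s1, e1 ▸ hf.2⟩, e1,
      ⟨hM.c_mem hf.1, e2 ▸ hf.2⟩, e2, congrArg nodeOf (hL.ac hM hf.1), fun hq => ?_⟩
    have s2 := hM.b_mem (hM.a_mem hf.1)
    have s3 := hM.a_mem s2
    have s4 := hM.b_mem s3
    have hz : s.vx (s.M.a (s.M.b (s.M.a f))) ∉ s.Nd := (h.bip _ s2).1 (by
      rw [hL.b hM (hM.a_mem hf.1)]; exact by_contra fun k => hx ((h.bip f hf.1).2 k))
    have a1 : s.far (s.M.a (s.M.b (s.M.a f))) = s.far f := by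
      rw [Sk.far, hM.aa s2, hL.b hM (hM.a_mem hf.1), Sk.far]
    have a2 : s.far (s.M.b (s.M.a (s.M.b (s.M.a f)))) = s.far (s.M.rot f) := by
      have : s.M.b (s.M.a (s.M.b (s.M.a (s.M.b (s.M.a (s.M.b (s.M.a f))))))) = f := hq
      have s5 := hM.b_mem (hM.a_mem s4)
      rw [Sk.far, Sk.far, rot, hL.ac hM s1, ← hL.b hM (hM.a_mem s4), ← hM.aa s5,
        ← hM.bb (hM.a_mem s5), this]
    refine ⟨a1 ▸ Sk.far_mem_nb h s3 hz, ?_, ⟨f, hf.1, hf.2, _, orb_p (orb_q (orb_p (orb_self ..))), rfl⟩,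
      fun k => ?_⟩
    · have := Sk.far_mem_nb h s4 (by rwa [hL.b hM s3])
      rwa [a2, hL.b hM s3] at this
    · rw [Sk.link, ← Sk.rts_set h s3 hz, Sk.rts, (h.deg _ s3).2 k, ← a1, ← a2]
      ext v
      simp [List.range_succ, Sk.far, rot, hL.ac hM s4]
  · exact let ⟨f, hf, e, _, k⟩ := Sk.exists_far h hv; ⟨f, ⟨hf, e ▸ hx⟩, e, k⟩
  · obtain ⟨f, hf, rfl, rfl⟩ := exists_adj hM k
    exact ⟨⟨f, hf, rfl⟩, h.bip f hf⟩
  · rintro _ ⟨f, hf, rfl⟩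
    exact ⟨_, (h.hm.simple f hf).1, f, hf, Or.inl ⟨rfl, rfl⟩⟩

end Pool.Agent.MP_9d78a0_co.gm
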