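import Pool.Agent.MP_9d78a0_co.gm.CSame
import Mathlib.Dynamics.PeriodicPts.Lemmas

-- ======== part 0: formerly Pool.Agent.MP_9d78a0_co.gm.CRel
section MrgPart0

/-! Walks in maps and in their minors. -/

set_option autoImplicit false

namespace Pool.Agent.MP_9d78a0_co.gm

open Set Function Relation

namespace Cy

variable {α : Type} {s t : α → α}

theorem iter_refl (hs : Involutive s) (ht : Involutive t) (i : ℕ) (z : α) :
    (s ∘ t)^[i] (t ((s ∘ t)^[i] z)) = t z := by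
  induction i with
  | zero => rfl
  | succ i ih => rw [iterate_succ_apply, iterate_succ_apply', comp_apply, ht, comp_apply, hs, ih]

theorem orb_iter (x : α) (i : ℕ) : (s ∘ t)^[i] x ∈ orb s t x := by
  induction i with
  | zero => exact .refl
  | succ i ih =>
    rw [iterate_succ_apply']
    exact (ReflTransGen.tail ih (Or.inr rfl)).tail (Or.inl rfl)

theorem exists_per {g : α → α} {S : Set α} (hS : S.Finite) (hg : InjOn g S) (hm : MapsTo g S S)
    {x : α} (hx : x ∈ S) : ∃ n, 0 < n ∧ g^[n] x = x := by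
  obtain ⟨i, j, hij, e⟩ := hS.exists_lt_map_eq_of_forall_mem fun n : ℕ => hm.iterate n hx
  obtain ⟨d, rfl⟩ := Nat.exists_eq_add_of_lt hij
  refine ⟨d + 1, by omega, ?_⟩
  rw [add_assoc, iterate_add_apply] at e
  exact (hg.iterate hm i hx (hm.iterate _ hx) e).symm

/-- a path has two ends -/
theorem exists_ret (hs : Involutive s) (ht : Involutive t) {x : α} (hx : t x = x)
    (hp : ∃ n, 0 < n ∧ (s ∘ t)^[n] x = x) (h : ∀ z ∈ orb s t x, s z ≠ z) :
    ∃ j, 0 < j ∧ (∀ i < j, t ((s ∘ t)^[i] x) = (s ∘ t)^[i] x → i = 0) ∧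
      t ((s ∘ t)^[j] x) = (s ∘ t)^[j] x ∧ (s ∘ t)^[j] x ≠ x ∧
      ∀ z ∈ orb s t x, t z = z → z = x ∨ z = (s ∘ t)^[j] x := by
  classical
  have hex : ∃ j, 0 < j ∧ t ((s ∘ t)^[j] x) = (s ∘ t)^[j] x := by
    obtain ⟨n, h0, hn⟩ := hp
    exact ⟨n, h0, by rw [hn, hx]⟩
  obtain ⟨h0, hj⟩ := Nat.find_spec hex
  have hmin : ∀ i < Nat.find hex, t ((s ∘ t)^[i] x) = (s ∘ t)^[i] x → i = 0 := fun i hi e => by
    by_contra h1
    exact Nat.find_min hex hi ⟨by omega, e⟩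
  generalize Nat.find hex = j at h0 hj hmin
  refine ⟨j, h0, hmin, hj, fun e => ?_, fun z hz e => ?_⟩
  · have key : ∀ i k, i + k = j → (s ∘ t)^[i] x = t ((s ∘ t)^[k] x) := fun i k hik => by
      have := iter_refl hs ht i ((s ∘ t)^[k] x)
      rwa [← iterate_add_apply, hik, e, hx] at this
    obtain ⟨m, hm | hm⟩ := Nat.even_or_odd' j
    · have := hmin m (by omega) (key m m (by omega)).symm
      omega
    · have := key (m + 1) m (by omega)
      rw [iterate_succ_apply'] at this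
      exact h _ (ReflTransGen.tail (orb_iter x m) (Or.inr rfl)) this
  · have key : ∃ i ≤ j, z = (s ∘ t)^[i] x ∨ z = t ((s ∘ t)^[i] x) := by
      clear e
      have back : ∀ i, 0 < i → i ≤ j → ∃ k ≤ j, s ((s ∘ t)^[i] x) = (s ∘ t)^[k] x ∨
          s ((s ∘ t)^[i] x) = t ((s ∘ t)^[k] x) := fun i h1 h2 => by
        obtain ⟨k, rfl⟩ : ∃ k, i = k + 1 := ⟨i - 1, by omega⟩
        exact ⟨k, by omega, Or.inr (by rw [iterate_succ_apply', comp_apply, hs])⟩
      induction hz with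
      | refl => exact ⟨0, by omega, Or.inl rfl⟩
      | tail _ hw ih =>
        obtain ⟨i, hi, rfl | rfl⟩ := ih <;> rcases hw with rfl | rfl
        · rcases Nat.eq_zero_or_pos i with rfl | h1
          · exact ⟨1, h0, Or.inl (by simp [hx])⟩
          · exact back i h1 hi
        · exact ⟨i, hi, Or.inr rfl⟩
        · rcases hi.eq_or_lt with rfl | h1
          · rw [hj]; exact back i h0 le_rfl
          · exact ⟨i + 1, h1, Or.inl (by rw [iterate_succ_apply']; rfl)⟩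
        · exact ⟨i, hi, Or.inl (ht _)⟩
    obtain ⟨i, hi, hz⟩ := key
    have h1 : z = (s ∘ t)^[i] x := hz.elim id fun h2 => by rw [← e, h2, ht]
    rcases hi.eq_or_lt with rfl | h2
    · exact Or.inr h1
    · have := hmin i h2 (h1 ▸ e)
      subst this
      exact Or.inl h1

open Classical in
/-- a map of `S`, extended by the identity -/
noncomputable def nz (S : Set α) (p : α → α) (x : α) : α := if x ∈ S then p x else x

theorem nz_mem {S : Set α} {p : α → α} {x : α} (h : x ∈ S) : nz S p x = p x := if_pos h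

theorem nz_not {S : Set α} {p : α → α} {x : α} (h : x ∉ S) : nz S p x = x := if_neg h

theorem nz_inv {S : Set α} {p : α → α} (h : ∀ x ∈ S, p x ∈ S ∧ p (p x) = x) :
    Involutive (nz S p) := fun x => by
  by_cases hx : x ∈ S
  · rw [nz_mem hx, nz_mem (h x hx).1, (h x hx).2]
  · rw [nz_not hx, nz_not hx]

end Cy

open Cy

namespace FM

variable {Φ : Type} (M : FM Φ)

/-- walks: corners are free, `a` is allowed on `P` and `c` on `Q` -/
def R (P Q : Set Φ) : Φ → Φ → Prop :=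
  ReflTransGen fun x y => y = M.b x ∨ (x ∈ P ∧ y = M.a x) ∨ (x ∈ Q ∧ y = M.c x)

/-- a union of edges, as far as the flags of the map are concerned -/
def Cl (P : Set Φ) : Prop := ∀ x ∈ M.S, x ∈ P → M.a x ∈ P ∧ M.c x ∈ P

variable {M} {P Q P' Q' U C : Set Φ} {x y z : Φ}

namespace Ok

variable (h : M.Ok) (hx : x ∈ M.S)
include h hx

theorem a_mem : M.a x ∈ M.S := (h.ia x hx).1
theorem b_mem : M.b x ∈ M.S := (h.ib x hx).1
theorem c_mem : M.c x ∈ M.S := (h.ic x hx).1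
theorem aa : M.a (M.a x) = x := (h.ia x hx).2.1
theorem bb : M.b (M.b x) = x := (h.ib x hx).2.1
theorem cc : M.c (M.c x) = x := (h.ic x hx).2.1
theorem a_ne : M.a x ≠ x := (h.ia x hx).2.2
theorem b_ne : M.b x ≠ x := (h.ib x hx).2.2
theorem c_ne : M.c x ≠ x := (h.ic x hx).2.2
theorem comm : M.a (M.c x) = M.c (M.a x) := (h.ac x hx).1
theorem ac_ne : M.a (M.c x) ≠ x := (h.ac x hx).2
theorem a_ne_c : M.a x ≠ M.c x := fun e => h.ac_ne hx (by rw [← e, h.aa hx])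

end Ok

theorem Ok.dual (h : M.Ok) : M.dual.Ok :=
  ⟨h.fin, h.ic, h.ib, h.ia, fun _ hf => ⟨(h.comm hf).symm, fun e => h.ac_ne hf ((h.comm hf).trans e)⟩⟩

theorem cl_univ : M.Cl univ := fun _ _ _ => ⟨trivial, trivial⟩
theorem cl_empty : M.Cl ∅ := fun _ _ h => h.elim
theorem Es.cl (h : M.Es U) : M.Cl U := fun x _ hx => h.2 x hx
theorem Ok.es (h : M.Ok) : M.Es M.S := ⟨subset_rfl, fun _ hx => ⟨h.a_mem hx, h.c_mem hx⟩⟩
theorem Cl.union (h : M.Cl P) (h' : M.Cl Q) : M.Cl (P ∪ Q) := fun x hx hp =>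
  hp.elim (fun k => ⟨Or.inl (h x hx k).1, Or.inl (h x hx k).2⟩)
    fun k => ⟨Or.inr (h' x hx k).1, Or.inr (h' x hx k).2⟩
theorem Cl.inter (h : M.Cl P) (h' : M.Cl Q) : M.Cl (P ∩ Q) := fun x hx hp =>
  ⟨⟨(h x hx hp.1).1, (h' x hx hp.2).1⟩, (h x hx hp.1).2, (h' x hx hp.2).2⟩
theorem Cl.a_iff (h : M.Cl P) (hM : M.Ok) (hx : x ∈ M.S) : M.a x ∈ P ↔ x ∈ P :=
  ⟨fun k => hM.aa hx ▸ (h _ (hM.a_mem hx) k).1, fun k => (h x hx k).1⟩
theorem Cl.c_iff (h : M.Cl P) (hM : M.Ok) (hx : x ∈ M.S) : M.c x ∈ P ↔ x ∈ P :=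
  ⟨fun k => hM.cc hx ▸ (h _ (hM.c_mem hx) k).2, fun k => (h x hx k).2⟩
theorem Cl.compl (h : M.Cl P) (hM : M.Ok) : M.Cl Pᶜ := fun _ hx hp =>
  ⟨fun k => hp ((h.a_iff hM hx).1 k), fun k => hp ((h.c_iff hM hx).1 k)⟩
theorem Cl.diff (h : M.Cl P) (h' : M.Cl Q) (hM : M.Ok) : M.Cl (P \ Q) := h.inter (h'.compl hM)
theorem Cl.es (h : M.Cl P) (hM : M.Ok) : M.Es (M.S ∩ P) :=
  ⟨inter_subset_left, fun x hx => hM.es.cl.inter h x hx.1 hx⟩
theorem Cl.dual (h : M.Cl P) : M.dual.Cl P := fun x hx hp => (h x hx hp).symm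
theorem Es.dualE (h : M.Es U) : M.dual.Es U := ⟨h.1, fun x hx => (h.2 x hx).symm⟩

theorem R.rfl : M.R P Q x x := ReflTransGen.refl

theorem R.trans (h : M.R P Q x y) (h' : M.R P Q y z) : M.R P Q x z := ReflTransGen.trans h h'

theorem R.b (h : M.R P Q x y) : M.R P Q x (M.b y) := h.tail (Or.inl (Eq.refl _))

theorem R.a (h : M.R P Q x y) (hy : y ∈ P) : M.R P Q x (M.a y) :=
  h.tail (Or.inr (Or.inl ⟨hy, Eq.refl _⟩))

theorem R.c (h : M.R P Q x y) (hy : y ∈ Q) : M.R P Q x (M.c y) :=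
  h.tail (Or.inr (Or.inr ⟨hy, Eq.refl _⟩))

theorem R.ind0 {p : Φ → Prop} (h : M.R P Q x y) (h0 : p x) (hb : ∀ z, p z → p (M.b z))
    (ha : ∀ z ∈ P, p z → p (M.a z)) (hc : ∀ z ∈ Q, p z → p (M.c z)) : p y := by
  induction h with
  | refl => exact h0
  | tail _ hw ih =>
    rcases hw with rfl | ⟨h1, rfl⟩ | ⟨h1, rfl⟩
    exacts [hb _ ih, ha _ h1 ih, hc _ h1 ih]

theorem R.mem (h : M.R P Q x y) (hM : M.Ok) (hx : x ∈ M.S) : y ∈ M.S :=
  h.ind0 (p := (· ∈ M.S)) hx (fun _ => hM.b_mem) (fun _ _ => hM.a_mem) fun _ _ => hM.c_mem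

/-- induction along a walk -/
theorem R.ind {p : Φ → Prop} (h : M.R P Q x y) (hM : M.Ok) (hx : x ∈ M.S) (h0 : p x)
    (hb : ∀ z ∈ M.S, p z → p (M.b z)) (ha : ∀ z ∈ M.S, z ∈ P → p z → p (M.a z))
    (hc : ∀ z ∈ M.S, z ∈ Q → p z → p (M.c z)) : p y :=
  (h.ind0 (p := fun z => z ∈ M.S ∧ p z) ⟨hx, h0⟩ (fun z k => ⟨hM.b_mem k.1, hb z k.1 k.2⟩)
    (fun z h1 k => ⟨hM.a_mem k.1, ha z k.1 h1 k.2⟩)
    fun z h1 k => ⟨hM.c_mem k.1, hc z k.1 h1 k.2⟩).2

theorem R.symm (h : M.R P Q x y) (hM : M.Ok) (hP : M.Cl P) (hQ : M.Cl Q) (hx : x ∈ M.S) :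
    M.R P Q y x :=
  h.ind (p := fun z => M.R P Q z x) hM hx .rfl
    (fun z hz k => R.trans (by simpa only [hM.bb hz] using (R.rfl (M := M) (x := M.b z)).b) k)
    (fun z hz h1 k => R.trans
      (by simpa only [hM.aa hz] using (R.rfl (M := M) (x := M.a z)).a (hP z hz h1).1) k)
    fun z hz h1 k => R.trans
      (by simpa only [hM.cc hz] using (R.rfl (M := M) (x := M.c z)).c (hQ z hz h1).2) k

theorem R.mono (h : M.R P Q x y) (hP : P ⊆ P') (hQ : Q ⊆ Q') : M.R P' Q' x y :=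
  h.ind0 .rfl (fun _ => R.b) (fun _ h1 hz => hz.a (hP h1)) fun _ h1 hz => hz.c (hQ h1)

theorem R.mono' (h : M.R P Q x y) (hM : M.Ok) (hx : x ∈ M.S) (hP : ∀ z ∈ M.S, z ∈ P → z ∈ P')
    (hQ : ∀ z ∈ M.S, z ∈ Q → z ∈ Q') : M.R P' Q' x y :=
  h.ind hM hx .rfl (fun _ _ => R.b) (fun z hz h1 k => k.a (hP z hz h1))
    fun z hz h1 k => k.c (hQ z hz h1)

/-- invariant functions are constant along walks -/
theorem R.eq {A : Type} {φ : Φ → A} (h : M.R P Q x y) (hM : M.Ok) (hx : x ∈ M.S)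
    (hb : ∀ z ∈ M.S, φ (M.b z) = φ z) (ha : ∀ z ∈ M.S, z ∈ P → φ (M.a z) = φ z)
    (hc : ∀ z ∈ M.S, z ∈ Q → φ (M.c z) = φ z) : φ y = φ x :=
  h.ind (p := fun z => φ z = φ x) hM hx (Eq.refl _) (fun z hz e => (hb z hz).trans e)
    (fun z hz h1 e => (ha z hz h1).trans e) fun z hz h1 e => (hc z hz h1).trans e

theorem dual_R : M.dual.R P Q x y ↔ M.R Q P x y :=
  ⟨fun h => h.ind0 .rfl (fun _ => R.b) (fun _ h1 k => k.c h1) fun _ h1 k => k.a h1,
    fun h => h.ind0 .rfl (fun _ => R.b) (fun _ h1 k => k.c h1) fun _ h1 k => k.a h1⟩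

theorem mem_vo : y ∈ M.vo x ↔ M.R ∅ univ x y := by simp [vo, orb, R]
theorem mem_fo : y ∈ M.fo x ↔ M.R univ ∅ x y := by simp [fo, orb, R, or_comm]
theorem mem_co : y ∈ M.co x ↔ M.R univ univ x y := by simp [co, R, or_left_comm]
theorem mem_reg : y ∈ M.reg U x ↔ M.R univ Uᶜ x y := by simp [reg, R, or_left_comm]

theorem mem_eo (hM : M.Ok) (hx : x ∈ M.S) :
    y ∈ M.eo x ↔ y = x ∨ y = M.a x ∨ y = M.c x ∨ y = M.a (M.c x) := by
  constructor
  · intro h
    induction h with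
    | refl => exact Or.inl rfl
    | tail _ hw ih =>
      have e1 := hM.aa hx
      have e2 := hM.cc hx
      have e3 := hM.comm hx
      have e4 := hM.aa (hM.c_mem hx)
      have e5 := hM.cc (hM.a_mem hx)
      grind
  · rintro (rfl | rfl | rfl | rfl)
    exacts [.refl, .single (Or.inl rfl), .single (Or.inr rfl),
      ReflTransGen.tail (b := M.c x) (.single (Or.inr rfl)) (Or.inl rfl)]

/-! ### minors -/

@[simp] theorem minor_S : (M.minor U C).S = U := rfl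
@[simp] theorem minor_a : (M.minor U C).a = M.a := rfl
@[simp] theorem minor_c : (M.minor U C).c = M.c := rfl
@[simp] theorem sub_S : (M.sub U).S = U := rfl
@[simp] theorem sub_a : (M.sub U).a = M.a := rfl
@[simp] theorem sub_c : (M.sub U).c = M.c := rfl

open Classical in
/-- the step over a removed edge -/
noncomputable def sgm (M : FM Φ) (C : Set Φ) (x : Φ) : Φ := if x ∈ C then M.a x else M.c x

theorem minor_b_def : (M.minor U C).b x = ret (fun x => M.b (M.sgm C x)) U (M.b x) := rfl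

/-- the corner of a minor is the other end of the path through the removed edges -/
theorem minor_spec (hM : M.Ok) (hU : M.Es U) (hC : M.Cl C) (hx : x ∈ U) :
    ∃ j, (M.minor U C).b x = (fun x => M.b (M.sgm C x))^[j] (M.b x) ∧
      (∀ i < j, (fun x => M.b (M.sgm C x))^[i] (M.b x) ∉ U) ∧ (M.minor U C).b x ∈ U ∧
      (M.minor U C).b x ≠ x ∧ M.R (C \ U) (Uᶜ \ C) x ((M.minor U C).b x) ∧
      ∀ z ∈ U, M.R (C \ U) (Uᶜ \ C) x z → z = x ∨ z = (M.minor U C).b x := by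
  have hxS := hU.1 hx
  have hσ : ∀ z ∈ M.S \ U, M.sgm C z ∈ M.S \ U ∧ M.sgm C (M.sgm C z) = z ∧ M.sgm C z ≠ z := by
    intro z hz
    by_cases h : z ∈ C
    · have e : M.sgm C z = M.a z := if_pos h
      rw [e]
      exact ⟨⟨hM.a_mem hz.1, fun k => hz.2 ((hU.cl.a_iff hM hz.1).1 k)⟩,
        (if_pos (hC z hz.1 h).1).trans (hM.aa hz.1), hM.a_ne hz.1⟩
    · have e : M.sgm C z = M.c z := if_neg h
      rw [e]
      exact ⟨⟨hM.c_mem hz.1, fun k => hz.2 ((hU.cl.c_iff hM hz.1).1 k)⟩,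
        (if_neg fun k => h ((hC.c_iff hM hz.1).1 k)).trans (hM.cc hz.1), hM.c_ne hz.1⟩
  have hs : Involutive (nz M.S M.b) := nz_inv fun z hz => ⟨hM.b_mem hz, hM.bb hz⟩
  have ht : Involutive (nz (M.S \ U) (M.sgm C)) := nz_inv fun z hz => ⟨(hσ z hz).1, (hσ z hz).2.1⟩
  have tS : ∀ z ∈ M.S, nz (M.S \ U) (M.sgm C) z ∈ M.S := fun z hz => by
    by_cases h : z ∈ M.S \ U
    · rw [nz_mem h]; exact (hσ z h).1.1
    · rwa [nz_not h]
  have tf : ∀ z ∈ M.S, nz (M.S \ U) (M.sgm C) z = z ↔ z ∈ U := fun z hz =>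
    ⟨fun e => by_contra fun k => (hσ z ⟨hz, k⟩).2.2 ((nz_mem (S := M.S \ U) ⟨hz, k⟩).symm.trans e),
      fun k => nz_not fun k' => k'.2 k⟩
  have hm : MapsTo (nz M.S M.b ∘ nz (M.S \ U) (M.sgm C)) M.S M.S := fun z hz => by
    rw [comp_apply, nz_mem (tS z hz)]; exact hM.b_mem (tS z hz)
  have ho : ∀ z, z ∈ orb (nz M.S M.b) (nz (M.S \ U) (M.sgm C)) x ↔ M.R (C \ U) (Uᶜ \ C) x z := by
    refine fun z => ⟨fun h => ?_, fun h => h.ind hM hxS .refl
      (fun w hw k => k.tail (Or.inl (nz_mem hw).symm))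
      (fun w hw h1 k => k.tail (Or.inr
        ((nz_mem (S := M.S \ U) (p := M.sgm C) ⟨hw, h1.2⟩).trans (if_pos h1.1)).symm))
      fun w hw h1 k => k.tail (Or.inr
        ((nz_mem (S := M.S \ U) (p := M.sgm C) ⟨hw, h1.1⟩).trans (if_neg h1.2)).symm)⟩
    induction h with
    | refl => exact .rfl
    | @tail w _ _ hw ih =>
      have hwS := ih.mem hM hxS
      rcases hw with rfl | rfl
      · rw [nz_mem hwS]; exact ih.b
      · by_cases h : w ∈ U
        · rwa [(tf w hwS).2 h]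
        · rw [nz_mem (show w ∈ M.S \ U from ⟨hwS, h⟩), sgm]
          split_ifs with h1
          exacts [ih.a ⟨h1, h⟩, ih.c ⟨h, h1⟩]
  obtain ⟨j, h0, h1, h2, h3, h4⟩ := exists_ret hs ht ((tf x hxS).2 hx)
    (exists_per hM.fin (hs.injective.comp ht.injective).injOn hm hxS) fun z hz => by
      have := ((ho z).1 hz).mem hM hxS
      rw [nz_mem this]; exact hM.b_ne this
  obtain ⟨j, rfl⟩ : ∃ i, j = i + 1 := ⟨j - 1, by omega⟩
  have nU : ∀ i < j, (nz M.S M.b ∘ nz (M.S \ U) (M.sgm C))^[i + 1] x ∉ U := fun i hi k => by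
    have := h1 (i + 1) (by omega) ((tf _ (hm.iterate _ hxS)).2 k)
    omega
  have e : ∀ i ≤ j, (fun x => M.b (M.sgm C x))^[i] (M.b x) =
      (nz M.S M.b ∘ nz (M.S \ U) (M.sgm C))^[i + 1] x := by
    intro i hi
    induction i with
    | zero => simp [(tf x hxS).2 hx, nz_mem hxS]
    | succ i ih =>
      have k : (nz M.S M.b ∘ nz (M.S \ U) (M.sgm C))^[i + 1] x ∈ M.S \ U :=
        ⟨hm.iterate _ hxS, nU i hi⟩
      rw [iterate_succ_apply', ih (by omega), iterate_succ_apply' _ (i + 1), comp_apply, nz_mem k,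
        nz_mem (hσ _ k).1.1]
  have hj : (nz M.S M.b ∘ nz (M.S \ U) (M.sgm C))^[j + 1] x ∈ U := (tf _ (hm.iterate _ hxS)).1 h2
  have hinf : sInf {n | (fun x => M.b (M.sgm C x))^[n] (M.b x) ∈ U} = j := by
    have k : j ∈ {n | (fun x => M.b (M.sgm C x))^[n] (M.b x) ∈ U} := by
      rw [mem_ofPred_eq, e j le_rfl]; exact hj
    refine le_antisymm (Nat.sInf_le k) (not_lt.1 fun k1 => nU _ k1 ?_)
    rw [← e _ k1.le]
    exact Nat.sInf_mem ⟨j, k⟩
  have hb : (M.minor U C).b x = (nz M.S M.b ∘ nz (M.S \ U) (M.sgm C))^[j + 1] x := by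
    rw [minor_b_def, ret, hinf, e j le_rfl]
  refine ⟨j, hb.trans (e j le_rfl).symm, fun i hi => (e i hi.le).symm ▸ nU i hi, ?_⟩
  rw [hb]
  exact ⟨hj, h3, (ho _).1 (orb_iter x _), fun z hz k =>
    h4 z ((ho z).2 k) ((tf z (hU.1 hz)).2 hz)⟩

section Minor

variable (hM : M.Ok) (hU : M.Es U) (hC : M.Cl C)
include hM hU hC

theorem minor_b_mem (hx : x ∈ U) : (M.minor U C).b x ∈ U :=
  let ⟨_, h⟩ := minor_spec hM hU hC hx; h.2.2.1

theorem minor_b_R (hx : x ∈ U) : M.R (C \ U) (Uᶜ \ C) x ((M.minor U C).b x) :=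
  let ⟨_, h⟩ := minor_spec hM hU hC hx; h.2.2.2.2.1

theorem eq_or_eq_b (hx : x ∈ U) (hy : y ∈ U) (h : M.R (C \ U) (Uᶜ \ C) x y) :
    y = x ∨ y = (M.minor U C).b x :=
  let ⟨_, k⟩ := minor_spec hM hU hC hx; k.2.2.2.2.2 y hy h

theorem minor_b_eq (hx : x ∈ U) (hy : y ∈ U) (h : M.R (C \ U) (Uᶜ \ C) x y) (hne : y ≠ x) :
    (M.minor U C).b x = y := ((eq_or_eq_b hM hU hC hx hy h).resolve_left hne).symm

theorem minor_b_of_mem (hx : x ∈ U) (hy : M.b x ∈ U) : (M.minor U C).b x = M.b x :=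
  minor_b_eq hM hU hC hx hy R.rfl.b (hM.b_ne (hU.1 hx))

theorem Ok.minorC : (M.minor U C).Ok := by
  refine ⟨hM.fin.subset hU.1, fun x hx => ⟨(hU.2 x hx).1, (hM.ia x (hU.1 hx)).2⟩, fun x hx => ?_,
    fun x hx => ⟨(hU.2 x hx).2, (hM.ic x (hU.1 hx)).2⟩, fun x hx => hM.ac x (hU.1 hx)⟩
  obtain ⟨_, -, -, h1, h2, h3, -⟩ := minor_spec hM hU hC hx
  exact ⟨h1, minor_b_eq hM hU hC h1 hx
    (h3.symm hM (hC.diff hU.cl hM) ((hU.cl.compl hM).diff hC hM) (hU.1 hx)) h2.symm, h2⟩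

/-- walks in a minor are walks in the map -/
theorem minor_R (hx : x ∈ U) (hy : y ∈ U) :
    (M.minor U C).R P Q x y ↔ M.R (P ∩ U ∪ C \ U) (Q ∩ U ∪ Uᶜ \ C) x y := by
  have hM' := hM.minorC hU hC
  constructor
  · intro h
    exact h.ind hM' hx .rfl
      (fun z hz k => k.trans ((minor_b_R hM hU hC hz).mono subset_union_right subset_union_right))
      (fun z hz h1 k => k.a (Or.inl ⟨h1, hz⟩)) fun z hz h1 k => k.c (Or.inl ⟨h1, hz⟩)
  · intro h
    have key : ∀ z ∈ U, (∃ w, (M.minor U C).R P Q x w ∧ M.R (C \ U) (Uᶜ \ C) w z) →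
        (M.minor U C).R P Q x z := by
      rintro z hz ⟨w, h1, h2⟩
      rcases eq_or_eq_b hM hU hC (h1.mem hM' hx) hz h2 with rfl | rfl
      exacts [h1, h1.b]
    refine key y hy (h.ind0 (p := fun z => ∃ w, (M.minor U C).R P Q x w ∧
      M.R (C \ U) (Uᶜ \ C) w z) ⟨x, .rfl, .rfl⟩ (fun z ⟨w, h1, h2⟩ => ⟨w, h1, h2.b⟩)
      (fun z h0 hz => ?_) fun z h0 hz => ?_)
    · rcases h0 with h0 | h0
      · exact ⟨_, (key z h0.2 hz).a h0.1, .rfl⟩
      · exact let ⟨w, h1, h2⟩ := hz; ⟨w, h1, h2.a h0⟩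
    · rcases h0 with h0 | h0
      · exact ⟨_, (key z h0.2 hz).c h0.1, .rfl⟩
      · exact let ⟨w, h1, h2⟩ := hz; ⟨w, h1, h2.c h0⟩

/-- functions on the corners of a minor extend along the removed edges -/
theorem minor_ext {A : Type} (φ : Φ → A) (hφ : ∀ x ∈ U, φ ((M.minor U C).b x) = φ x) (d : A) :
    ∃ φ' : Φ → A, (∀ x ∈ U, φ' x = φ x) ∧ (∀ x ∉ M.S, φ' x = d) ∧ ∀ x ∈ M.S,
      φ' (M.b x) = φ' x ∧ (x ∈ C \ U → φ' (M.a x) = φ' x) ∧ (x ∈ Uᶜ \ C → φ' (M.c x) = φ' x) := by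
  classical
  have c1 := hC.diff hU.cl hM
  have c2 := (hU.cl.compl hM).diff hC hM
  let φ' : Φ → A := fun x => if h : ∃ w ∈ U, M.R (C \ U) (Uᶜ \ C) w x then φ h.choose else d
  have k1 : ∀ w ∈ U, ∀ x, M.R (C \ U) (Uᶜ \ C) w x → φ' x = φ w := fun w hw x hx => by
    have h : ∃ w ∈ U, M.R (C \ U) (Uᶜ \ C) w x := ⟨w, hw, hx⟩
    have e : φ' x = φ h.choose := dif_pos h
    rw [e]
    rcases eq_or_eq_b hM hU hC hw h.choose_spec.1
      (hx.trans (h.choose_spec.2.symm hM c1 c2 (hU.1 h.choose_spec.1))) with k | k <;> rw [k]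
    exact hφ w hw
  have k2 : ∀ x ∈ M.S, ∀ y, M.R (C \ U) (Uᶜ \ C) x y → φ' y = φ' x := fun x hx y hy => by
    by_cases h : ∃ w ∈ U, M.R (C \ U) (Uᶜ \ C) w x
    · obtain ⟨w, hw, h⟩ := h
      rw [k1 w hw x h, k1 w hw y (h.trans hy)]
    · have h' : ¬∃ w ∈ U, M.R (C \ U) (Uᶜ \ C) w y := fun ⟨w, hw, k⟩ =>
        h ⟨w, hw, k.trans (hy.symm hM c1 c2 hx)⟩
      exact (show φ' y = d from dif_neg h').trans (show φ' x = d from dif_neg h).symm
  exact ⟨φ', fun x hx => k1 x hx x .rfl,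
    fun x hx => dif_neg fun ⟨w, hw, k⟩ => hx (k.mem hM (hU.1 hw)),
    fun x hx => ⟨k2 x hx _ R.rfl.b, fun h => k2 x hx _ (R.rfl.a h), fun h => k2 x hx _ (R.rfl.c h)⟩⟩

end Minor

theorem Ok.sub (hM : M.Ok) (hU : M.Es U) : (M.sub U).Ok := hM.minorC hU cl_empty

theorem sub_R (hM : M.Ok) (hU : M.Es U) (hx : x ∈ U) (hy : y ∈ U) :
    (M.sub U).R P Q x y ↔ M.R (P ∩ U) (Q ∪ Uᶜ) x y := by
  rw [sub, minor_R hM hU cl_empty hx hy]
  have : Q ∩ U ∪ Uᶜ = Q ∪ Uᶜ := by ext z; simp only [mem_union, mem_inter_iff, mem_compl_iff]; tauto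
  simp [this]

theorem sub_b_R (hM : M.Ok) (hU : M.Es U) (hx : x ∈ U) : M.R ∅ Uᶜ x ((M.sub U).b x) := by
  simpa [sub] using minor_b_R hM hU cl_empty hx

/-- contraction is deletion in the dual -/
theorem dual_minor (hM : M.Ok) (hU : M.Es U) (hC : M.Cl C) (hx : x ∈ U) :
    (M.dual.minor U Cᶜ).b x = (M.minor U C).b x := by
  have h := hM.minorC hU hC
  refine minor_b_eq hM.dual hU.dualE (hC.compl hM).dual hx (h.b_mem hx)
    (dual_R.2 ((minor_b_R hM hU hC hx).mono (fun z => ?_) fun z => ?_)) (h.b_ne hx)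
  all_goals simp only [mem_diff, mem_compl_iff]; tauto

end FM

end Pool.Agent.MP_9d78a0_co.gm

end MrgPart0

-- ======== part 1: formerly Pool.Agent.MP_9d78a0_co.gm.CPot
section MrgPart1

/-! Potentials on the cycles of two involutions. -/

set_option autoImplicit false

namespace Pool.Agent.MP_9d78a0_co.gm.Cy

open Set Function Relation

variable {α : Type} {S : Set α} {p q : α → α} {op oq op' oq' : α → ZMod 2} {x y z : α}

theorem z2_add_self (a : ZMod 2) : a + a = 0 := by revert a; decide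

theorem z2_cases (a : ZMod 2) : a = 0 ∨ a = 1 := by revert a; decide

theorem orb_self (p q : α → α) (x : α) : x ∈ orb p q x := ReflTransGen.refl

theorem orb_p (h : y ∈ orb p q x) : p y ∈ orb p q x := ReflTransGen.tail h (Or.inl rfl)

theorem orb_q (h : y ∈ orb p q x) : q y ∈ orb p q x := ReflTransGen.tail h (Or.inr rfl)

theorem orb_trans (h : y ∈ orb p q x) (h' : z ∈ orb p q y) : z ∈ orb p q x :=
  ReflTransGen.trans h h'

theorem orb_ind {P : α → Prop} (h : y ∈ orb p q x) (h0 : P x) (hp : ∀ z, P z → P (p z))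
    (hq : ∀ z, P z → P (q z)) : P y := by
  induction h with
  | refl => exact h0
  | tail _ hw ih => rcases hw with rfl | rfl; exacts [hp _ ih, hq _ ih]

theorem orb_comm (p q : α → α) (x : α) : orb p q x = orb q p x := by simp only [orb, or_comm]

/-- an involution of `S` -/
def Inv0 (S : Set α) (p : α → α) : Prop := ∀ f ∈ S, p f ∈ S ∧ p (p f) = f

theorem _root_.Pool.Agent.MP_9d78a0_co.gm.Inv.inv0 (h : Inv S p) : Inv0 S p := fun f hf => ⟨(h f hf).1, (h f hf).2.1⟩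

theorem orb_mem (hp : Inv0 S p) (hq : Inv0 S q) (hx : x ∈ S) (h : y ∈ orb p q x) : y ∈ S :=
  orb_ind (P := (· ∈ S)) h hx (fun z hz => (hp z hz).1) fun z hz => (hq z hz).1

theorem orb_symm (hp : Inv0 S p) (hq : Inv0 S q) (hx : x ∈ S) (h : y ∈ orb p q x) :
    x ∈ orb p q y :=
  (orb_ind (P := fun z => z ∈ S ∧ x ∈ orb p q z) h ⟨hx, orb_self ..⟩
    (fun z k => ⟨(hp z k.1).1,
      orb_trans (by simpa only [(hp z k.1).2] using orb_p (orb_self p q (p z))) k.2⟩)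
    fun z k => ⟨(hq z k.1).1,
      orb_trans (by simpa only [(hq z k.1).2] using orb_q (orb_self p q (q z))) k.2⟩).2

theorem orb_eq (hp : Inv0 S p) (hq : Inv0 S q) (hx : x ∈ S) (h : y ∈ orb p q x) :
    orb p q y = orb p q x :=
  Set.ext fun _ => ⟨orb_trans h, orb_trans (orb_symm hp hq hx h)⟩

theorem orb_congr {p' q' : α → α} (h : ∀ y ∈ orb p q x, p' y = p y ∧ q' y = q y) :
    orb p' q' x = orb p q x :=
  Set.ext fun _ => ⟨fun k => orb_ind (P := (· ∈ orb p q x)) k (orb_self ..)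
    (fun z hz => (h z hz).1 ▸ orb_p hz) fun z hz => (h z hz).2 ▸ orb_q hz,
    fun k => (orb_ind (P := fun z => z ∈ orb p q x ∧ z ∈ orb p' q' x) k ⟨orb_self .., orb_self ..⟩
      (fun z hz => ⟨orb_p hz.1, (h z hz.1).1 ▸ orb_p hz.2⟩)
      fun z hz => ⟨orb_q hz.1, (h z hz.1).2 ▸ orb_q hz.2⟩).2⟩

theorem _root_.Pool.Agent.MP_9d78a0_co.gm.Pot.mono {A B : Set α} {χ : α → ZMod 2} (h : Pot A p op χ) (hB : B ⊆ A) : Pot B p op χ :=
  fun f hf => h f (hB hf)

theorem _root_.Pool.Agent.MP_9d78a0_co.gm.Ev.symm (h : Ev p q op oq x) : Ev q p oq op x :=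
  let ⟨χ, h1, h2⟩ := h; ⟨χ, orb_comm p q x ▸ h2, orb_comm p q x ▸ h1⟩

theorem _root_.Pool.Agent.MP_9d78a0_co.gm.Ev.of_mem (h : Ev p q op oq x) (hy : y ∈ orb p q x) : Ev p q op oq y :=
  let ⟨χ, h1, h2⟩ := h; ⟨χ, h1.mono fun _ => orb_trans hy, h2.mono fun _ => orb_trans hy⟩

theorem _root_.Pool.Agent.MP_9d78a0_co.gm.Ev.congr {p' q' : α → α} (h : Ev p q op oq x)
    (e : ∀ y ∈ orb p q x, p' y = p y ∧ q' y = q y ∧ op' y = op y ∧ oq' y = oq y) :
    Ev p' q' op' oq' x := by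
  obtain ⟨χ, h1, h2⟩ := h
  have := orb_congr fun y hy => (⟨(e y hy).1, (e y hy).2.1⟩ : p' y = p y ∧ q' y = q y)
  refine ⟨χ, fun f hf => ?_, fun f hf => ?_⟩ <;> rw [this] at hf
  · rw [(e f hf).1, (e f hf).2.2.1, h1 f hf]
  · rw [(e f hf).2.1, (e f hf).2.2.2, h2 f hf]

theorem ev_of_pot {χ : α → ZMod 2} (hp : Inv0 S p) (hq : Inv0 S q) (h1 : Pot S p op χ)
    (h2 : Pot S q oq χ) (hx : x ∈ S) : Ev p q op oq x :=
  ⟨χ, h1.mono fun _ => orb_mem hp hq hx, h2.mono fun _ => orb_mem hp hq hx⟩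

theorem ev_zero (h : ∀ y ∈ orb p q x, op y = 0 ∧ oq y = 0) : Ev p q op oq x :=
  ⟨0, fun f hf => by simp [(h f hf).1], fun f hf => by simp [(h f hf).2]⟩

theorem _root_.Pool.Agent.MP_9d78a0_co.gm.Ev.add (h : Ev p q op oq x) (h' : Ev p q op' oq' x) : Ev p q (op + op') (oq + oq') x :=
  let ⟨χ, h1, h2⟩ := h
  let ⟨χ', k1, k2⟩ := h'
  ⟨χ + χ', fun f hf => by simp only [Pi.add_apply, h1 f hf, k1 f hf]; ring,
    fun f hf => by simp only [Pi.add_apply, h2 f hf, k2 f hf]; ring⟩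

theorem _root_.Pool.Agent.MP_9d78a0_co.gm.Ev.sym_p (h : Ev p q op oq x) (e : p (p x) = x) : op (p x) = op x := by
  obtain ⟨χ, h1, -⟩ := h
  have k1 := h1 x (orb_self ..)
  have k2 := h1 _ (orb_p (orb_self p q x))
  rw [e, k1] at k2
  revert k2
  generalize χ x = a, op x = b, op (p x) = c
  revert a b c; decide

/-- local potentials are glued -/
theorem glue (hp : Inv0 S p) (hq : Inv0 S q) {A : Set α} (hA : A ⊆ S)
    (h : ∀ x ∈ A, Ev p q op oq x) : ∃ χ, Pot A p op χ ∧ Pot A q oq χ := by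
  classical
  let F : Set α → α → ZMod 2 := fun K =>
    if k : ∃ χ, Pot K p op χ ∧ Pot K q oq χ then k.choose else 0
  have hF : ∀ x ∈ A, Pot (orb p q x) p op (F (orb p q x)) ∧ Pot (orb p q x) q oq (F (orb p q x)) :=
    fun x hx => by
      have e : F (orb p q x) = (h x hx).choose := dif_pos (h x hx)
      rw [e]; exact (h x hx).choose_spec
  refine ⟨fun x => F (orb p q x) x, fun x hx => ?_, fun x hx => ?_⟩
  · simp only [orb_eq hp hq (hA hx) (orb_p (orb_self p q x))]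
    exact (hF x hx).1 x (orb_self ..)
  · simp only [orb_eq hp hq (hA hx) (orb_q (orb_self p q x))]
    exact (hF x hx).2 x (orb_self ..)

/-- the lift to the double cover -/
def lift (p : α → α) (o : α → ZMod 2) (z : α × ZMod 2) : α × ZMod 2 := (p z.1, z.2 + o z.1)

theorem lift_inv (hp : Involutive p) (ho : ∀ x, op (p x) = op x) : Involutive (lift p op) :=
  fun z => by simp [lift, hp _, ho, add_assoc, z2_add_self]

theorem orb_lift_fst {u w : α × ZMod 2} (h : w ∈ orb (lift p op) (lift q oq) u) :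
    w.1 ∈ orb p q u.1 :=
  orb_ind (P := fun w => w.1 ∈ orb p q u.1) h (orb_self ..) (fun _ => orb_p) fun _ => orb_q

theorem exists_orb_lift (h : y ∈ orb p q x) (i : ZMod 2) :
    ∃ j, (y, j) ∈ orb (lift p op) (lift q oq) (x, i) :=
  orb_ind (P := fun y => ∃ j, (y, j) ∈ orb (lift p op) (lift q oq) (x, i)) h ⟨i, orb_self ..⟩
    (fun _ ⟨_, k⟩ => ⟨_, orb_p k⟩) fun _ ⟨_, k⟩ => ⟨_, orb_q k⟩

theorem orb_lift_add {i j : ZMod 2} (h : (y, j) ∈ orb (lift p op) (lift q oq) (x, i))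
    (d : ZMod 2) : (y, j + d) ∈ orb (lift p op) (lift q oq) (x, i + d) :=
  orb_ind (P := fun w => (w.1, w.2 + d) ∈ orb (lift p op) (lift q oq) (x, i + d)) h (orb_self ..)
    (fun w k => by simpa only [lift, add_right_comm] using orb_p k)
    fun w k => by simpa only [lift, add_right_comm] using orb_q k

theorem ev_of_lift (hp : Involutive p) (hq : Involutive q) (h1 : ∀ x, op (p x) = op x)
    (h2 : ∀ x, oq (q x) = oq x) (h : (x, 1) ∉ orb (lift p op) (lift q oq) (x, 0)) :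
    Ev p q op oq x := by
  have i1 : Inv0 univ (lift p op) := fun z _ => ⟨trivial, lift_inv hp h1 z⟩
  have i2 : Inv0 univ (lift q oq) := fun z _ => ⟨trivial, lift_inv hq h2 z⟩
  have uq : ∀ y i j, (y, i) ∈ orb (lift p op) (lift q oq) (x, 0) →
      (y, j) ∈ orb (lift p op) (lift q oq) (x, 0) → i = j := fun y i j hi hj => by
    by_contra e
    have e1 : j = i + 1 := by revert e; generalize i = a, j = b; revert a b; decide
    have k := orb_lift_add hi 1
    rw [← e1, zero_add] at k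
    exact h (orb_trans hj (orb_symm i1 i2 trivial k))
  choose! χ hχ using fun y (hy : y ∈ orb p q x) => exists_orb_lift (op := op) (oq := oq) hy 0
  exact ⟨χ, fun f hf => uq _ _ _ (hχ _ (orb_p hf)) (orb_p (hχ f hf)),
    fun f hf => uq _ _ _ (hχ _ (orb_q hf)) (orb_q (hχ f hf))⟩

section Path

variable (hS : S.Finite) (hp : Inv S p) (hq : Inv S q) (hz : z ∈ S)
include hS hp hq hz

/-- a cycle that is cut at one step is a path -/
theorem cyc_cut : ∃ (s t : α → α) (j : ℕ), Involutive s ∧ Involutive t ∧ 0 < j ∧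
    (∀ y ∈ S, s y = p y) ∧ (∀ y ∈ S, y ≠ z → y ≠ q z → t y = q y) ∧ t z = z ∧ t (q z) = q z ∧
    (∀ y ∉ S, s y = y ∧ t y = y) ∧ (s ∘ t)^[j] z = q z ∧
    (∀ i < j, 0 < i → (s ∘ t)^[i] z ≠ z ∧ (s ∘ t)^[i] z ≠ q z) ∧ orb s t z = orb p q z := by
  have hA : ∀ y ∈ S \ {z, q z}, q y ∈ S \ {z, q z} ∧ q (q y) = y := fun y hy =>
    ⟨⟨(hq y hy.1).1, by
      rintro (e | e)
      · exact hy.2 (Or.inr (by rw [← e, (hq y hy.1).2.1]; rfl))
      · exact hy.2 (Or.inl (by rw [← (hq y hy.1).2.1, e, (hq z hz).2.1]))⟩, (hq y hy.1).2.1⟩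
  have hs : Involutive (nz S p) := nz_inv hp.inv0
  have ht : Involutive (nz (S \ {z, q z}) q) := nz_inv hA
  have t1 : nz (S \ {z, q z}) q z = z := nz_not fun k => k.2 (Or.inl rfl)
  have t2 : nz (S \ {z, q z}) q (q z) = q z := nz_not fun k => k.2 (Or.inr rfl)
  have t3 : ∀ y ∈ S, y ≠ z → y ≠ q z → nz (S \ {z, q z}) q y = q y := fun y hy k1 k2 =>
    nz_mem ⟨hy, fun k => k.elim k1 k2⟩
  have i1 : Inv0 S (nz S p) := fun y hy => ⟨by rw [nz_mem hy]; exact (hp y hy).1, hs y⟩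
  have i2 : Inv0 S (nz (S \ {z, q z}) q) := fun y hy => ⟨by
    by_cases k : y ∈ S \ {z, q z}
    · rw [nz_mem k]; exact (hq y hy).1
    · rwa [nz_not k], ht y⟩
  have hm : MapsTo (nz S p ∘ nz (S \ {z, q z}) q) S S := fun y hy => (i1 _ (i2 y hy).1).1
  obtain ⟨j, h0, h1, h2, h3, -⟩ := exists_ret hs ht t1
    (exists_per hS (hs.injective.comp ht.injective).injOn hm hz) fun y hy => by
      have := orb_mem i1 i2 hz hy
      rw [nz_mem this]; exact (hp y this).2.2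
  have hj : (nz S p ∘ nz (S \ {z, q z}) q)^[j] z = q z := by
    by_contra k
    exact (hq _ (hm.iterate j hz)).2.2 ((t3 _ (hm.iterate j hz) h3 k).symm.trans h2)
  refine ⟨_, _, j, hs, ht, h0, fun y => nz_mem, t3, t1, t2,
    fun y hy => ⟨nz_not hy, nz_not fun k => hy k.1⟩, hj, fun i hi k => ⟨fun e => ?_, fun e => ?_⟩,
    Set.ext fun y => ⟨fun k => ?_, fun k => ?_⟩⟩
  · exact k.ne' (h1 i hi (by rw [e, t1]))
  · exact k.ne' (h1 i hi (by rw [e, t2]))
  · refine orb_ind (P := (· ∈ orb p q z)) k (orb_self ..) (fun w hw => ?_) fun w hw => ?_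
    · rw [nz_mem (orb_mem hp.inv0 hq.inv0 hz hw)]; exact orb_p hw
    · by_cases k : w ∈ S \ {z, q z}
      · rw [nz_mem k]; exact orb_q hw
      · rwa [nz_not k]
  · refine orb_ind (P := (· ∈ orb (nz S p) (nz (S \ {z, q z}) q) z)) k (orb_self ..)
      (fun w hw => ?_) fun w hw => ?_
    · rw [← nz_mem (p := p) (orb_mem i1 i2 hz hw)]; exact orb_p hw
    · by_cases k1 : w = z
      · have := orb_iter (s := nz S p) (t := nz (S \ {z, q z}) q) z j
        rw [hj] at this; rw [k1]; exact this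
      · by_cases k2 : w = q z
        · rw [k2, (hq z hz).2.1]; exact orb_self ..
        · rw [← t3 w (orb_mem i1 i2 hz hw) k1 k2]; exact orb_q hw

/-- a potential off one step -/
theorem path_pot (h1 : ∀ y ∈ orb p q z, op (p y) = op y) (h2 : ∀ y ∈ orb p q z, oq (q y) = oq y) :
    ∃ χ, Pot (orb p q z) p op χ ∧ Pot (orb p q z \ {z, q z}) q oq χ := by
  classical
  obtain ⟨s, t, j, hs, ht, -, s1, t1, t2, t3, s0, hj, -, ho⟩ := cyc_cut hS hp hq hz
  have hS' : ∀ y ∈ orb p q z, y ∈ S := fun y => orb_mem hp.inv0 hq.inv0 hz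
  have cs : ∀ y, s y ∈ orb p q z ↔ y ∈ orb p q z := fun y =>
    ⟨fun k => by rw [← hs y, ← ho]; exact orb_p (ho ▸ k), fun k => ho ▸ orb_p (ho ▸ k)⟩
  have ct : ∀ y, t y ∈ orb p q z ↔ y ∈ orb p q z := fun y =>
    ⟨fun k => by rw [← ht y, ← ho]; exact orb_q (ho ▸ k), fun k => ho ▸ orb_q (ho ▸ k)⟩
  let os : α → ZMod 2 := fun y => if y ∈ orb p q z then op y else 0
  let ot : α → ZMod 2 := fun y => if y ∈ orb p q z ∧ t y ≠ y then oq y else 0
  have e1 : ∀ y, os (s y) = os y := fun y => by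
    by_cases k : y ∈ orb p q z
    · simp only [os, (cs y).2 k, k, if_true]; rw [s1 y (hS' y k), h1 y k]
    · simp only [os, (cs y).not.2 k, k, if_false]
  have e2 : ∀ y, ot (t y) = ot y := fun y => by
    by_cases k : y ∈ orb p q z ∧ t y ≠ y
    · have k' : t y ∈ orb p q z ∧ t (t y) ≠ t y := ⟨(ct y).2 k.1, by rw [ht]; exact k.2.symm⟩
      simp only [ot, if_pos k, if_pos k']
      rw [t1 y (hS' y k.1) (fun e => k.2 (e ▸ t2)) (fun e => k.2 (e ▸ t3)), h2 y k.1]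
    · have k' : ¬(t y ∈ orb p q z ∧ t (t y) ≠ t y) := fun k' =>
        k ⟨(ct y).1 k'.1, fun e => k'.2 (by rw [e, e])⟩
      simp only [ot, if_neg k, if_neg k']
  have l1 := lift_inv hs e1
  have l2 := lift_inv ht e2
  have fx : ∀ y i, t y = y → lift t ot (y, i) = (y, i) := fun y i e => by simp [lift, ot, e]
  have hm : MapsTo (lift s os ∘ lift t ot) (orb p q z ×ˢ univ) (orb p q z ×ˢ univ) :=
    fun w hw => ⟨(cs _).2 ((ct _).2 hw.1), trivial⟩
  obtain ⟨n, -, -, -, -, k⟩ := exists_ret l1 l2 (fx z 0 t2)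
    (exists_per ((hS.subset hS').prod finite_univ) (l1.injective.comp l2.injective).injOn hm
      ⟨orb_self .., trivial⟩) fun w hw e => by
        have k := hS' _ (ho ▸ orb_lift_fst hw)
        exact (hp _ k).2.2 ((s1 _ k).symm.trans (congrArg Prod.fst e))
  obtain ⟨χ, c1, c2⟩ := ev_of_lift (x := z) hs ht e1 e2 fun h => by
    obtain ⟨i, hi⟩ := exists_orb_lift (op := os) (oq := ot) (hj ▸ orb_iter z j) 0
    have k1 := (k _ h (fx z 1 t2)).resolve_left (by simp)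
    have hne := (hq z hz).2.2
    rcases k _ hi (fx _ i t3) with k2 | k2
    · exact hne (congrArg Prod.fst k2)
    · exact hne (congrArg Prod.fst (k2.trans k1.symm))
  rw [ho] at c1 c2
  refine ⟨χ, fun f hf => ?_, fun f hf => ?_⟩
  · rw [← s1 f (hS' f hf), c1 f hf]; simp only [os, hf, if_true]
  · have e := t1 f (hS' f hf.1) (fun k => hf.2 (Or.inl k)) fun k => hf.2 (Or.inr k)
    rw [← e, c2 f hf.1]
    simp only [ot, if_pos (And.intro hf.1 (e ▸ (hq f (hS' f hf.1)).2.2))]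

omit hS hp in
theorem ev_of_path {χ : α → ZMod 2} (h1 : Pot (orb p q z) p op χ)
    (h2 : Pot (orb p q z \ {z, q z}) q oq χ) (e : oq (q z) = oq z) (h : χ (q z) = χ z + oq z) :
    Ev p q op oq z := by
  refine ⟨χ, h1, fun f hf => ?_⟩
  by_cases k1 : f = z
  · rw [k1, h]
  · by_cases k2 : f = q z
    · rw [k2, (hq z hz).2.1, h, e, add_assoc, z2_add_self, add_zero]
    · exact h2 f ⟨hf, fun k => k.elim k1 k2⟩

/-- two odd weights add up to an even weight -/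
theorem ev_add_of_not (h1 : ∀ y ∈ orb p q z, op (p y) = op y)
    (h2 : ∀ y ∈ orb p q z, oq (q y) = oq y) (h1' : ∀ y ∈ orb p q z, op' (p y) = op' y)
    (h2' : ∀ y ∈ orb p q z, oq' (q y) = oq' y) (h : ¬ Ev p q op oq z) (h' : ¬ Ev p q op' oq' z) :
    Ev p q (op + op') (oq + oq') z := by
  obtain ⟨χ, c1, c2⟩ := path_pot hS hp hq hz h1 h2
  obtain ⟨χ', d1, d2⟩ := path_pot hS hp hq hz h1' h2'
  have k := mt (ev_of_path hq hz c1 c2 (h2 z (orb_self ..))) h
  have k' := mt (ev_of_path hq hz d1 d2 (h2' z (orb_self ..))) h'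
  refine ev_of_path (χ := χ + χ') hq hz
    (fun f hf => by simp only [Pi.add_apply, c1 f hf, d1 f hf]; ring)
    (fun f hf => by simp only [Pi.add_apply, c2 f hf, d2 f hf]; ring)
    (by simp only [Pi.add_apply, h2 z (orb_self ..), h2' z (orb_self ..)]) ?_
  simp only [Pi.add_apply]
  revert k k'
  generalize χ (q z) = a, χ z = b, oq z = c, χ' (q z) = a', χ' z = b', oq' z = c'
  revert a b c a' b' c'; decide

/-- functions that are invariant off one step are invariant -/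
theorem eq_of_cut {A : Type} {φ : α → A} (h1 : ∀ y ∈ orb p q z, φ (p y) = φ y)
    (h2 : ∀ y ∈ orb p q z, y ≠ z → y ≠ q z → φ (q y) = φ y) (hy : y ∈ orb p q z) : φ y = φ z := by
  obtain ⟨s, t, j, -, -, -, s1, t1, t2, t3, -, -, -, ho⟩ := cyc_cut hS hp hq hz
  have hS' : ∀ y ∈ orb p q z, y ∈ S := fun y => orb_mem hp.inv0 hq.inv0 hz
  refine (orb_ind (P := fun y => y ∈ orb s t z ∧ φ y = φ z) (ho ▸ hy) ⟨orb_self .., rfl⟩
    (fun w k => ⟨orb_p k.1, ?_⟩) fun w k => ⟨orb_q k.1, ?_⟩).2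
  · rw [s1 w (hS' w (ho ▸ k.1)), h1 w (ho ▸ k.1), k.2]
  · by_cases k1 : w = z
    · rw [k1, t2]
    · by_cases k2 : w = q z
      · rw [← k.2, k2, t3]
      · rw [t1 w (hS' w (ho ▸ k.1)) k1 k2, h2 w (ho ▸ k.1) k1 k2, k.2]

/-- one marked step makes the cycle odd -/
theorem not_ev_single (h1 : ∀ y ∈ orb p q z, op y = 0)
    (h2 : ∀ y ∈ orb p q z, y ≠ z → y ≠ q z → oq y = 0) (h3 : oq z = 1) : ¬ Ev p q op oq z := by
  rintro ⟨χ, c1, c2⟩
  have k := eq_of_cut hS hp hq hz (φ := χ) (fun y hy => by rw [c1 y hy, h1 y hy, add_zero])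
    (fun y hy k1 k2 => by rw [c2 y hy, h2 y hy k1 k2, add_zero]) (orb_q (orb_self p q z))
  rw [c2 z (orb_self ..), h3] at k
  simp at k

/-- the cycles have even length -/
theorem ev_one : Ev p q 1 1 z := by
  obtain ⟨χ, c1, c2⟩ := path_pot (op := 1) (oq := 1) hS hp hq hz (fun _ _ => rfl) fun _ _ => rfl
  obtain ⟨s, t, j, -, -, h0, s1, t1, t2, -, -, hj, hi, ho⟩ := cyc_cut hS hp hq hz
  have hS' : ∀ y ∈ orb p q z, y ∈ S := fun y => orb_mem hp.inv0 hq.inv0 hz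
  have key : ∀ i < j, χ ((s ∘ t)^[i + 1] z) = χ z + 1 := by
    intro i
    induction i with
    | zero => intro _; simpa [t2, s1 z hz] using c1 z (orb_self ..)
    | succ i ih =>
      intro h
      have k : (s ∘ t)^[i + 1] z ∈ orb p q z := ho ▸ orb_iter z _
      obtain ⟨k1, k2⟩ := hi (i + 1) h (by omega)
      rw [iterate_succ_apply' _ (i + 1), comp_apply, t1 _ (hS' _ k) k1 k2, s1 _ (hS' _ (orb_q k)),
        c1 _ (orb_q k), c2 _ ⟨k, fun e => e.elim k1 k2⟩, ih (by omega)]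
      simp [add_assoc, z2_add_self]
  obtain ⟨j, rfl⟩ : ∃ i, j = i + 1 := ⟨j - 1, by omega⟩
  exact ev_of_path hq hz c1 c2 rfl (hj ▸ key j (by omega))

end Path

open Classical in
/-- the parity of a cycle -/
noncomputable def par (p q : α → α) (op oq : α → ZMod 2) (x : α) : ZMod 2 :=
  if Ev p q op oq x then 0 else 1

theorem par_eq_zero : par p q op oq x = 0 ↔ Ev p q op oq x := by
  unfold par; split_ifs with h <;> simp [h]

theorem par_add (hS : S.Finite) (hp : Inv S p) (hq : Inv S q) (hz : z ∈ S)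
    (h1 : ∀ y ∈ S, op (p y) = op y) (h2 : ∀ y ∈ S, oq (q y) = oq y)
    (h1' : ∀ y ∈ S, op' (p y) = op' y) (h2' : ∀ y ∈ S, oq' (q y) = oq' y) :
    par p q (op + op') (oq + oq') z = par p q op oq z + par p q op' oq' z := by
  have hS' : ∀ y ∈ orb p q z, y ∈ S := fun y => orb_mem hp.inv0 hq.inv0 hz
  have e : ∀ u v : α → ZMod 2, u + v + u = v ∧ u + v + v = u := fun u v =>
    ⟨funext fun y => by simp [add_right_comm, z2_add_self],
      funext fun y => by simp [add_assoc, z2_add_self]⟩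
  unfold par
  by_cases h : Ev p q op oq z <;> by_cases h' : Ev p q op' oq' z
  · simp [h, h', h.add h']
  · have : ¬ Ev p q (op + op') (oq + oq') z := fun k => h' (by simpa only [e] using k.add h)
    simp [h, h', this]
  · have : ¬ Ev p q (op + op') (oq + oq') z := fun k => h (by simpa only [e] using k.add h')
    simp [h, h', this]
  · have := ev_add_of_not hS hp hq hz (fun y k => h1 y (hS' y k)) (fun y k => h2 y (hS' y k))
      (fun y k => h1' y (hS' y k)) (fun y k => h2' y (hS' y k)) h h'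
    simp [h, h', this, z2_add_self]

open Classical in
/-- the weight one on the step from `x` -/
noncomputable def one (p : α → α) (x y : α) : ZMod 2 := if y = x ∨ y = p x then 1 else 0

theorem one_sym (hp : Inv0 S p) (hx : x ∈ S) (hy : y ∈ S) : one p x (p y) = one p x y := by
  have h1 := (hp x hx).2
  have h2 := (hp y hy).2
  unfold one
  congr 1
  exact propext ⟨fun h => by grind, fun h => by grind⟩

open Classical in
theorem par_one (hS : S.Finite) (hp : Inv S p) (hq : Inv S q) (hx : x ∈ S) (hz : z ∈ S) :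
    par p q (one p x) 0 z = if z ∈ orb p q x then 1 else 0 := by
  split_ifs with h
  · refine if_neg fun k => not_ev_single hS hq hp hx (op := 0) (oq := one p x) (fun _ _ => rfl)
      (fun y _ k1 k2 => if_neg fun e => e.elim k1 k2) (if_pos (Or.inl rfl))
      (k.of_mem (orb_symm hp.inv0 hq.inv0 hx h)).symm
  · refine par_eq_zero.2 (ev_zero fun y hy => ⟨if_neg ?_, rfl⟩)
    have k := orb_symm hp.inv0 hq.inv0 hz hy
    rintro (rfl | rfl)
    exacts [h k, h (orb_trans (orb_p (orb_self ..)) k)]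

end Pool.Agent.MP_9d78a0_co.gm.Cy

end MrgPart1

-- marker of a merged file
example : 731051 + 688664 = 731051 + 688664 := rfl
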