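import Pool.Agent.MP_9d78a0_co.gm.Map

-- ======== part 0: formerly Pool.Agent.MP_9d78a0_co.gm.SpecC
section MrgPart0

/-! Flag maps: the basic statements (block C). -/

set_option autoImplicit false

namespace Pool.Agent.MP_9d78a0_co.gm

open Set Function

/-- `χ` changes by `o` along `p` on the set `A` -/
def Pot {Φ : Type} (A : Set Φ) (p : Φ → Φ) (o χ : Φ → ZMod 2) : Prop :=
  ∀ f ∈ A, χ (p f) = χ f + o f

/-- the cycle of `p`, `q` through `f` is even for the weights `op`, `oq` -/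
def Ev {Φ : Type} (p q : Φ → Φ) (op oq : Φ → ZMod 2) (f : Φ) : Prop :=
  ∃ χ, Pot (orb p q f) p op χ ∧ Pot (orb p q f) q oq χ

namespace FM

variable {Φ V : Type} (M : FM Φ)

/-- equal on the flags -/
def Same (N : FM Φ) : Prop :=
  M.S = N.S ∧ ∀ f ∈ M.S, M.a f = N.a f ∧ M.b f = N.b f ∧ M.c f = N.c f

/-- the dual map -/
def dual : FM Φ := ⟨M.S, M.c, M.b, M.a⟩

open Classical in
/-- the move along a face of the minor, seen in `M` -/
noncomputable def ga (U C : Set Φ) (x : Φ) : Φ := if x ∈ U ∨ x ∈ C then M.a x else M.c x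

open Classical in
/-- the move round a vertex of the minor, seen in `M` -/
noncomputable def gc (U C : Set Φ) (x : Φ) : Φ := if x ∉ U ∧ x ∈ C then M.a x else M.c x

/-- the minor with all flags kept: on a removed edge the two moves agree -/
noncomputable def gh (U C : Set Φ) : FM Φ := ⟨M.S, M.ga U C, M.b, M.gc U C⟩

/-- the rules of a map in which the moves `a` and `c` may agree -/
structure Gk : Prop where
  fin : M.S.Finite
  ia : Inv M.S M.a
  ib : Inv M.S M.b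
  ic : Inv M.S M.c
  ac : ∀ f ∈ M.S, M.a (M.c f) = M.c (M.a f)

/-- the flags of the proper edges -/
def prop : Set Φ := {f | f ∈ M.S ∧ M.a f ≠ M.c f}

/-- the Euler genus, counting the proper edges only -/
noncomputable def geg : ℤ :=
  2 * ((M.co '' M.S).ncard : ℤ) - (M.vo '' M.S).ncard + (M.eo '' M.prop).ncard -
    (M.fo '' M.S).ncard

/-- the flags at the vertices of the edge set `U` -/
def sat (U : Set Φ) : Set Φ := {f | ∃ g ∈ U, f ∈ M.vo g}

/-- the ends of the edge of `e` are not joined by the other edges of `C` -/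
def BrIn (C : Set Φ) (e : Φ) : Prop :=
  ¬ Relation.ReflTransGen (fun x y => y = M.b x ∨ y = M.c x ∨ (x ∈ C \ M.eo e ∧ y = M.a x)) e
    (M.a e)

/-- the ends of the edge of `e` are joined only through it -/
def Bridge (e : Φ) : Prop := M.BrIn M.S e

/-- a function on the edges -/
def Ech (β : Φ → ZMod 2) : Prop := ∀ f ∈ M.S, β (M.a f) = β f ∧ β (M.c f) = β f

/-- the face of `U` through `f` is alone in its region, and the region is a disc -/
structure Clean (U : Set Φ) (f : Φ) : Prop where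
  alone : M.reg U f ∩ U ⊆ (M.sub U).fo f
  disc : ∀ oa ob oc : Φ → ZMod 2, (∀ g ∈ M.reg U f, Ev M.a M.b oa ob g) →
    (∀ g ∈ M.reg U f, g ∉ U → Ev M.a M.c oa oc g) →
    (∀ g ∈ M.reg U f, g ∉ M.sat U → Ev M.b M.c ob oc g) →
    ∃ χ, Pot (M.reg U f) M.a oa χ ∧ Pot (M.reg U f) M.b ob χ ∧ Pot (M.reg U f \ U) M.c oc χ

end FM

/-! ### helper1: minors, deletion, regions -/

/-- orbits stay in the flags and are classes -/
def OrbS : Prop :=
  ∀ (Φ : Type) (S : Set Φ) (p q : Φ → Φ), Inv S p → Inv S q → ∀ f ∈ S, orb p q f ⊆ S ∧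
    ∀ g ∈ orb p q f, orb p q g = orb p q f

/-- minors are maps, and their orbits are the traces of the orbits with all flags kept -/
def MinorS : Prop :=
  ∀ (Φ : Type) (M : FM Φ) (U C : Set Φ), M.Ok → M.Es U → M.Es C → (M.minor U C).Ok ∧
    ∀ f ∈ U, (M.minor U C).vo f = (M.gh U C).vo f ∩ U ∧ (M.minor U C).fo f = (M.gh U C).fo f ∩ U ∧
      (M.minor U C).co f = (M.gh U C).co f ∩ U ∧
      ∀ U', (M.minor U C).reg U' f = (M.gh U C).reg U' f ∩ U

/-- the minor with all flags kept has the same genus -/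
def GhostS : Prop :=
  ∀ (Φ : Type) (M : FM Φ), M.Ok → M.Gk ∧ M.geg = M.eg ∧
    ∀ U C, M.Es U → M.Es C → (M.gh U C).Gk ∧ (M.gh U C).geg = (M.minor U C).eg

/-- a minor of a minor -/
def TransS : Prop :=
  ∀ (Φ : Type) (M : FM Φ) (U C U' C' : Set Φ), M.Ok → M.Es U → M.Es C → M.Es U' → M.Es C' →
    U' ⊆ U → ((M.minor U C).minor U' C').Same (M.minor U' ((C \ U) ∪ (C' ∩ U)))

/-- maps that agree on the flags -/
def SameS : Prop :=
  ∀ (Φ : Type) (M N : FM Φ), M.Ok → M.Same N → N.Ok ∧ N.eg = M.eg ∧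
    (∀ f ∈ M.S, N.vo f = M.vo f ∧ N.eo f = M.eo f ∧ N.fo f = M.fo f ∧ N.co f = M.co f ∧
      ∀ U, N.reg U f = M.reg U f) ∧
    (∀ U C, M.Es U → M.Es C → (M.minor U C).Same (N.minor U C)) ∧ M.Same (M.sub M.S)

/-- duality -/
def DualS : Prop :=
  ∀ (Φ : Type) (M : FM Φ), M.Ok → M.dual.Ok ∧ M.dual.eg = M.eg ∧
    ∀ U C, M.Es U → M.Es C → (M.minor U C).dual.Same (M.dual.minor U (M.S \ (U ∪ C)))

/-- submaps and the underlying graph -/
def GphS : Prop :=
  ∀ (Φ V : Type) (M : FM Φ) (vx : Φ → V), M.Ok → M.Lbl vx →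
    (∀ U, M.Es U → (M.sub U).Lbl vx) ∧ (∀ K, M.Es (M.ind vx K)) ∧
    (∀ K, ∀ f ∈ M.ind vx K, ∀ g ∈ M.ind vx K,
      g ∈ (M.sub (M.ind vx K)).co f ↔ Link (M.gph vx) K (vx f) (vx g)) ∧
    (∀ f ∈ M.S, ∀ g ∈ M.S, g ∈ M.co f ↔ Link (M.gph vx) univ (vx f) (vx g)) ∧
    ∀ U, M.Es U → ∀ D : Set V, Disjoint D (vx '' U) → ∀ f ∈ M.S, ∀ g ∈ M.S, vx f ∈ D →
      Link (M.gph vx) D (vx f) (vx g) → g ∈ M.reg U f

/-- the vertices of a minor: contraction joins the ends -/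
def ConVS : Prop :=
  ∀ (Φ V : Type) (M : FM Φ) (vx : Φ → V) (U C : Set Φ), M.Ok → M.Lbl vx → M.Es U → M.Es C →
    Disjoint U C → ∀ f ∈ U, ∀ g ∈ (M.minor U C).vo f,
      Relation.ReflTransGen (fun u v => ∃ x ∈ C, vx x = u ∧ vx (M.a x) = v) (vx f) (vx g)

/-- deletion of one edge -/
def DelS : Prop :=
  ∀ (Φ : Type) (M : FM Φ) (e : Φ), M.Ok → e ∈ M.S →
    (M.c e ∉ M.fo e → ¬ M.Bridge e ∧ (M.sub (M.S \ M.eo e)).eg = M.eg) ∧
    (M.Bridge e → (M.sub (M.S \ M.eo e)).eg = M.eg) ∧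
    (M.c e ∈ M.fo e → ¬ M.Bridge e → (M.sub (M.S \ M.eo e)).eg < M.eg)

/-- the genus is not negative and does not grow in minors -/
def MonoS : Prop :=
  ∀ (Φ : Type) (M : FM Φ), M.Ok → 0 ≤ M.eg ∧
    ∀ U C, M.Es U → M.Es C → (M.minor U C).eg ≤ M.eg

/-- contraction of a forest keeps the genus, and its trees become vertices -/
def ForestS : Prop :=
  ∀ (Φ : Type) (M : FM Φ) (C : Set Φ), M.Ok → M.Es C → (∀ e ∈ C, M.BrIn C e) →
    (M.minor (M.S \ C) C).eg = M.eg ∧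
    ∀ f ∈ M.S \ C, (M.minor (M.S \ C) C).vo f = (M.gh C ∅).co f \ C

/-- spanning forests -/
def SpanS : Prop :=
  ∀ (Φ : Type) (M : FM Φ) (D : Set Φ), M.Ok → M.Es D → ∃ C ⊆ D, M.Es C ∧ (∀ e ∈ C, M.BrIn C e) ∧
    ∀ f ∈ M.S, (M.gh C ∅).co f = (M.gh D ∅).co f

/-- regions are classes, and in a connected map they meet the edge set -/
def RegBS : Prop :=
  ∀ (Φ : Type) (M : FM Φ) (U : Set Φ), M.Ok → M.Es U → ∀ f ∈ M.S, M.reg U f ⊆ M.S ∧
    (∀ g ∈ M.reg U f, M.reg U g = M.reg U f) ∧ (f ∉ M.sat U → M.vo f ⊆ M.reg U f) ∧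
    (f ∈ U → (M.sub U).fo f ⊆ M.reg U f) ∧
    ((M.co f ∩ U).Nonempty → (M.reg U f ∩ U).Nonempty)

/-- all faces of a connected submap are clean, except for at most the difference of the genera -/
def CleanS : Prop :=
  ∀ (Φ : Type) (M : FM Φ) (U : Set Φ), M.Ok → M.Es U → (M.sub U).Con →
    (((M.sub U).fo '' {f | f ∈ U ∧ ¬ M.Clean U f}).ncard : ℤ) ≤ M.eg - (M.sub U).eg

/-- a connected submap of full genus: every region is a sphere after the contraction of the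
submap, and has one face of the submap at most -/
def RegS : Prop :=
  ∀ (Φ : Type) (M : FM Φ) (U : Set Φ), M.Ok → M.Es U → (M.sub U).Con → (M.sub U).eg = M.eg →
    (M.gh (M.S \ U) U).geg = 0 ∧ ∀ f ∈ U, M.reg U f ∩ U = (M.sub U).fo f

/-- spheres: with at most one odd vertex in a component there is a potential -/
def SphereS : Prop :=
  ∀ (Φ : Type) (M : FM Φ) (oa ob oc : Φ → ZMod 2), M.Gk → M.geg = 0 →
    (∀ f ∈ M.S, Ev M.a M.c oa oc f) → (∀ f ∈ M.S, Ev M.a M.b oa ob f) →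
    (∀ f ∈ M.S, ∀ g ∈ M.co f, Ev M.b M.c ob oc f ∨ Ev M.b M.c ob oc g ∨ g ∈ M.vo f) →
    ∃ χ, Pot M.S M.a oa χ ∧ Pot M.S M.b ob χ ∧ Pot M.S M.c oc χ

/-- a drop of the genus gives a function on the edges that is even on all faces, zero on the
submap, and not zero on an edge whose ends are joined by edges with value zero -/
def NoCobS : Prop :=
  ∀ (Φ : Type) (M : FM Φ) (U : Set Φ), M.Ok → M.Es U → (M.sub U).eg < M.eg →
    ∃ β χ, M.Ech β ∧ Pot M.S M.a β χ ∧ Pot M.S M.b 0 χ ∧ (∀ f ∈ U, β f = 0) ∧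
      ∃ e ∈ M.S, β e = 1 ∧ Relation.ReflTransGen
        (fun x y => y = M.b x ∨ y = M.c x ∨ (β x = 0 ∧ y = M.a x)) e (M.a e)

/-! ### helper27: cochains -/

/-- extension of a potential from a submap of full genus; every region has at most one odd
vertex -/
def ExtS : Prop :=
  ∀ (Φ : Type) (M : FM Φ) (U : Set Φ) (oa ob oc χ0 : Φ → ZMod 2), M.Ok → M.Es U →
    (M.sub U).Con → (M.sub U).eg = M.eg →
    (∀ f ∈ M.S, Ev M.a M.c oa oc f) → (∀ f ∈ M.S, Ev M.a M.b oa ob f) →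
    (∀ f ∈ M.S, ∀ g ∈ M.reg U f, Ev M.b M.c ob oc f ∨ Ev M.b M.c ob oc g ∨ g ∈ M.vo f) →
    Pot U M.a oa χ0 → Pot (M.sat U) M.b ob χ0 → Pot (M.sat U) M.c oc χ0 →
    ∃ χ, Pot M.S M.a oa χ ∧ Pot M.S M.b ob χ ∧ Pot M.S M.c oc χ ∧ ∀ f ∈ M.sat U, χ f = χ0 f

/-- the same for a function on the edges that is even on the faces without a hole -/
def Ext1S : Prop :=
  ∀ (Φ V : Type) (M : FM Φ) (vx : Φ → V) (H : Set V) (U : Set Φ) (β : Φ → ZMod 2)
    (ψ0 : V → ZMod 2), M.Ok → M.Lbl vx → M.Es U → (M.sub U).Con → (M.sub U).eg = M.eg →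
    Disjoint H (vx '' U) →
    (∀ p ∈ M.S, ∀ q ∈ M.S, vx p ∈ H → vx q ∈ H → q ∈ M.reg U p → vx p = vx q) →
    M.Ech β → (∀ f ∈ M.S, Disjoint (vx '' M.fo f) H → Ev M.a M.b β 0 f) →
    (∀ f ∈ U, β f = ψ0 (vx f) + ψ0 (vx (M.a f))) →
    ∃ ψ : V → ZMod 2, (∀ f ∈ U, ψ (vx f) = ψ0 (vx f)) ∧
      ∀ f ∈ M.S, vx f ∉ H → vx (M.a f) ∉ H → β f = ψ (vx f) + ψ (vx (M.a f))

/-- a function on the edges of a submap that is even on its faces extends -/
def Ext2S : Prop :=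
  ∀ (Φ : Type) (M : FM Φ) (U : Set Φ) (β0 : Φ → ZMod 2), M.Ok → M.Es U → (M.sub U).Ech β0 →
    (∀ f ∈ U, Ev M.a (M.sub U).b β0 0 f) →
    ∃ β, M.Ech β ∧ (∀ f ∈ U, β f = β0 f) ∧ ∀ f ∈ M.S, Ev M.a M.b β 0 f

/-- two faces in one region give a function on the edges that is zero on the submap and odd
exactly on these faces -/
def DualWS : Prop :=
  ∀ (Φ : Type) (M : FM Φ) (U : Set Φ) (p q : Φ), M.Ok → M.Es U → p ∈ M.S → q ∈ M.reg U p →
    q ∉ M.fo p → ∃ β, M.Ech β ∧ (∀ f ∈ U, β f = 0) ∧ ¬ Ev M.a M.b β 0 p ∧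
      ∀ f ∈ M.S, f ∉ M.fo p → f ∉ M.fo q → Ev M.a M.b β 0 f

/-- orientations pass to minors and extend from connected submaps of full genus -/
def OriS : Prop :=
  ∀ (Φ : Type) (M : FM Φ), M.Ok →
    (∀ U C o, M.Es U → M.Es C → M.Ori o → (M.minor U C).Ori o) ∧
    ∀ U o, M.Es U → (M.sub U).Con → (M.sub U).eg = M.eg → (M.sub U).Ori o →
      ∃ o', M.Ori o' ∧ ∀ f ∈ U, o' f ↔ o f

/-- a bouquet: few flags lie on faces with more than two corners -/
def BouqS : Prop :=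
  ∀ (Φ : Type) (M : FM Φ), M.Ok → (∀ f ∈ M.S, ∀ g ∈ M.S, g ∈ M.vo f) →
    (({f | f ∈ M.S ∧ M.a (M.b f) ≠ f ∧ M.a (M.b (M.a (M.b f))) ≠ f} : Set Φ).ncard : ℤ) ≤
      3 * ({f | f ∈ M.S ∧ M.a (M.b f) = f} : Set Φ).ncard + 12 * M.eg

end Pool.Agent.MP_9d78a0_co.gm

end MrgPart0

-- ======== part 1: formerly Pool.Agent.MP_9d78a0_co.gm.C1
section MrgPart1

/-! Classes of relations, counting, first return. -/

set_option autoImplicit false

namespace Pool.Agent.MP_9d78a0_co.gm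

open Set Function Relation

variable {Φ : Type}

/-- the class of a point -/
def cl (r : Φ → Φ → Prop) (f : Φ) : Set Φ := {g | ReflTransGen r f g}

/-- the number of classes that meet a set -/
noncomputable def nc (r : Φ → Φ → Prop) (S : Set Φ) : ℕ := (cl r '' S).ncard

/-- the relation keeps `S` and is symmetric on it -/
def Sy (S : Set Φ) (r : Φ → Φ → Prop) : Prop := ∀ x ∈ S, ∀ y, r x y → y ∈ S ∧ r y x

section basic

variable {S : Set Φ} {r r' : Φ → Φ → Prop} {f g x y : Φ}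

theorem cl_self (r : Φ → Φ → Prop) (f : Φ) : f ∈ cl r f := ReflTransGen.refl

theorem cl_step (h : x ∈ cl r f) (e : r x y) : y ∈ cl r f := ReflTransGen.tail h e

theorem cl_one (e : r x y) : y ∈ cl r x := ReflTransGen.single e

theorem cl_trans (h : g ∈ cl r f) (k : x ∈ cl r g) : x ∈ cl r f := ReflTransGen.trans h k

theorem cl_ind {P : Φ → Prop} (h0 : P f) (hs : ∀ x y, x ∈ cl r f → P x → r x y → P y)
    (h : g ∈ cl r f) : P g := by
  induction h with
  | refl => exact h0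
  | tail h e ih => exact hs _ _ h ih e

theorem Sy.sub (h : Sy S r) (hf : f ∈ S) : cl r f ⊆ S := fun _ hg =>
  cl_ind (P := fun x => x ∈ S) hf (fun x y _ hx e => (h x hx y e).1) hg

theorem Sy.symm (h : Sy S r) (hf : f ∈ S) (hg : g ∈ cl r f) : f ∈ cl r g :=
  cl_ind (P := fun x => f ∈ cl r x) (cl_self r f)
    (fun x y hx ih e => cl_trans (cl_one (h x (h.sub hf hx) y e).2) ih) hg

theorem Sy.eq (h : Sy S r) (hf : f ∈ S) (hg : g ∈ cl r f) : cl r g = cl r f :=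
  Subset.antisymm (fun _ k => cl_trans hg k) fun _ k => cl_trans (h.symm hf hg) k

theorem Sy.of_eq (e : cl r g = cl r f) : g ∈ cl r f := e ▸ cl_self r g

theorem Sy.cls (h : Sy S r) (hf : f ∈ S) : Sy (cl r f) r := fun x hx y e =>
  ⟨cl_step hx e, (h x (h.sub hf hx) y e).2⟩

theorem cl_le (h : Sy S r) (hr : ∀ x ∈ S, ∀ y, r x y → y ∈ cl r' x) (hf : f ∈ S) :
    cl r f ⊆ cl r' f := fun _ hg =>
  cl_ind (P := fun x => x ∈ cl r' f) (cl_self _ _)
    (fun x y hx ih e => cl_trans ih (hr x (h.sub hf hx) y e)) hg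

theorem cl_congr (h : Sy S r) (h' : Sy S r') (hr : ∀ x ∈ S, ∀ y, r x y → y ∈ cl r' x)
    (hr' : ∀ x ∈ S, ∀ y, r' x y → y ∈ cl r x) (hf : f ∈ S) : cl r f = cl r' f :=
  Subset.antisymm (cl_le h hr hf) (cl_le h' hr' hf)

theorem nc_congr {A : Set Φ} (h : ∀ f ∈ A, cl r f = cl r' f) : nc r A = nc r' A := by
  unfold nc; rw [image_congr h]

theorem nc_union {A B : Set Φ} (hA : A.Finite) (hB : B.Finite)
    (h : ∀ f ∈ A, ∀ g ∈ B, cl r f ≠ cl r g) : nc r (A ∪ B) = nc r A + nc r B := by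
  unfold nc
  rw [image_union, ncard_union_eq _ (hA.image _) (hB.image _)]
  rw [Set.disjoint_left]
  rintro _ ⟨f, hf, rfl⟩ ⟨g, hg, e⟩
  exact h f hf g hg e.symm

/-- additivity over a closed part -/
theorem nc_split {A : Set Φ} (hS : S.Finite) (hA : A ⊆ S) (hc : Sy A r) :
    nc r S = nc r A + nc r (S \ A) := by
  rw [← nc_union (hS.subset hA) (hS.subset sdiff_subset), union_sdiff_cancel hA]
  intro f hf g hg e
  exact hg.2 (hc.sub hf (Sy.of_eq e.symm))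

theorem Sy.diff {A : Set Φ} (h : Sy S r) (hc : Sy A r) : Sy (S \ A) r := fun x hx y e =>
  ⟨⟨(h x hx.1 y e).1, fun hy => hx.2 (hc y hy x (h x hx.1 y e).2).1⟩, (h x hx.1 y e).2⟩

theorem nc_le (hS : S.Finite) (h : Sy S r)
    (hr : ∀ x ∈ S, ∀ y, r x y → y ∈ cl r' x) : nc r' S ≤ nc r S := by
  have : cl r' '' S = (fun A => ⋃ x ∈ A, cl r' x) '' (cl r '' S) := by
    rw [image_image]
    refine image_congr fun f hf => Subset.antisymm (fun g hg => ?_) fun g hg => ?_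
    · exact mem_biUnion (cl_self r f) hg
    · obtain ⟨x, hx, k⟩ := mem_iUnion₂.1 hg
      exact cl_trans (cl_le h hr hf hx) k
  unfold nc
  rw [this]
  exact ncard_image_le (hS.image _)

theorem nc_cls (h : Sy S r) (hf : f ∈ S) : nc r (cl r f) = 1 := by
  have : cl r '' cl r f = {cl r f} := by
    ext A
    simp only [mem_image, mem_singleton_iff]
    exact ⟨fun ⟨g, hg, e⟩ => e ▸ h.eq hf hg, fun e => ⟨f, cl_self _ _, e.symm⟩⟩
  unfold nc; rw [this, ncard_singleton]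

theorem nc_one {A : Set Φ} (h : Sy S r) (hf : f ∈ S) (hfA : f ∈ A) (hA : A ⊆ cl r f) :
    nc r A = 1 := by
  have : cl r '' A = {cl r f} := by
    ext B
    simp only [mem_image, mem_singleton_iff]
    exact ⟨fun ⟨g, hg, e⟩ => e ▸ h.eq hf (hA hg), fun e => ⟨f, hfA, e.symm⟩⟩
  unfold nc; rw [this, ncard_singleton]

theorem nc_empty (r : Φ → Φ → Prop) : nc r ∅ = 0 := by simp [nc]

theorem nc_mono {A B : Set Φ} (hB : B.Finite) (h : A ⊆ B) : nc r A ≤ nc r B :=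
  ncard_le_ncard (image_mono h) (hB.image _)

theorem nc_pos {A : Set Φ} (hA : A.Finite) (hf : f ∈ A) : 1 ≤ nc r A :=
  (ncard_pos (hA.image _)).2 ⟨_, f, hf, rfl⟩

/-- two classes are joined -/
theorem nc_join (hS : S.Finite) (h : Sy S r) (h' : Sy S r') {u v : Φ} (hu : u ∈ S) (hv : v ∈ S)
    (hr : ∀ x ∈ S, ∀ y, r x y → y ∈ cl r' x)
    (hr' : ∀ x ∈ S, ∀ y, r' x y → y ∈ cl r x ∨ (x ∈ cl r u ∪ cl r v ∧ y ∈ cl r u ∪ cl r v))
    (huv : v ∈ cl r' u) (hn : v ∉ cl r u) : nc r' S + 1 = nc r S := by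
  set A := cl r u ∪ cl r v with hA
  have hAS : A ⊆ S := union_subset (h.sub hu) (h.sub hv)
  have cA : Sy A r := fun x hx y e =>
    ⟨hx.elim (fun k => Or.inl (cl_step k e)) fun k => Or.inr (cl_step k e), (h x (hAS hx) y e).2⟩
  have cA' : Sy A r' := fun x hx y e =>
    ⟨(hr' x (hAS hx) y e).elim (fun k => cA.sub hx k) fun k => k.2, (h' x (hAS hx) y e).2⟩
  have e1 : nc r' A = 1 := nc_one h' hu (Or.inl (cl_self _ _))
    (union_subset (cl_le h hr hu) fun x hx => cl_trans huv (cl_le h hr hv hx))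
  have e2 : nc r A = 2 := by
    rw [hA, nc_union (hS.subset (h.sub hu)) (hS.subset (h.sub hv)), nc_cls h hu, nc_cls h hv]
    intro f hf g hg e
    exact hn (Sy.of_eq (by rw [← h.eq hv hg, ← e, h.eq hu hf]))
  have e3 : nc r' (S \ A) = nc r (S \ A) := nc_congr fun f hf =>
    cl_congr (h'.diff cA') (h.diff cA)
      (fun x hx y e => (hr' x hx.1 y e).elim id fun k => (hx.2 k.1).elim)
      (fun x hx y e => hr x hx.1 y e) hf
  rw [nc_split hS hAS cA', nc_split hS hAS cA, e1, e2, e3]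
  omega

end basic

theorem Inv.even {A : Set Φ} {p : Φ → Φ} (hA : A.Finite) (h : Inv A p) : Even A.ncard := by
  classical
  have : ∑ _x ∈ hA.toFinset, (1 : ZMod 2) = 0 :=
    Finset.sum_involution (fun x _ => p x) (fun _ _ => by decide)
      (fun x hx _ => (h x (hA.mem_toFinset.1 hx)).2.2)
      (fun x hx => hA.mem_toFinset.2 (h x (hA.mem_toFinset.1 hx)).1)
      fun x hx => (h x (hA.mem_toFinset.1 hx)).2.1
  rw [Finset.sum_const, nsmul_eq_mul, mul_one, ZMod.natCast_eq_zero_iff_even] at this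
  rwa [ncard_eq_toFinset_card A hA]

theorem Inv.sy2 {S : Set Φ} {p q : Φ → Φ} (hp : Inv S p) (hq : Inv S q) :
    Sy S fun x y => y = p x ∨ y = q x := by
  rintro x hx y (rfl | rfl)
  · exact ⟨(hp x hx).1, Or.inl (hp x hx).2.1.symm⟩
  · exact ⟨(hq x hx).1, Or.inr (hq x hx).2.1.symm⟩

theorem orbS : OrbS := fun _ _ _ _ hp hq _ hf =>
  ⟨(hp.sy2 hq).sub hf, fun _ hg => (hp.sy2 hq).eq hf hg⟩

/-- the cycles of `b` and `p`, cut at the points of `D` -/
def cut (b p : Φ → Φ) (D : Set Φ) (x y : Φ) : Prop := y = b x ∨ (x ∉ D ∧ y = p x)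

/-- the other end of the path that starts in `x` -/
noncomputable def mate (b p : Φ → Φ) (D : Set Φ) (x : Φ) : Φ := ret (fun z => b (p z)) D (b x)

section path

variable {S D : Set Φ} {b p : Φ → Φ}

theorem cut_sy (hb : Inv S b) (hp : Inv S p) (hD : ∀ x ∈ D, p x ∈ D) : Sy S (cut b p D) := by
  rintro x hx y (rfl | ⟨k, rfl⟩)
  · exact ⟨(hb x hx).1, Or.inl (hb x hx).2.1.symm⟩
  · exact ⟨(hp x hx).1, Or.inr ⟨fun m => k ((hp x hx).2.1 ▸ hD _ m), (hp x hx).2.1.symm⟩⟩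

theorem exists_return (hS : S.Finite) (hb : Inv S b) (hp : Inv S p) {x : Φ} (hx : x ∈ S) :
    ∃ n, (fun z => b (p z))^[n] (b x) = p x := by
  set π : Φ → Φ := fun z => b (p z) with hπ
  have mS : MapsTo π S S := fun z hz => (hb _ (hp z hz).1).1
  have inj : InjOn π S := fun z hz w hw e => by
    have e1 : p z = p w := by
      rw [← (hb _ (hp z hz).1).2.1, ← (hb _ (hp w hw).1).2.1]; exact congrArg b e
    rw [← (hp z hz).2.1, e1, (hp w hw).2.1]
  have hy := (hp x hx).1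
  obtain ⟨i, j, hij, e⟩ : ∃ i j, i < j ∧ π^[i] (p x) = π^[j] (p x) := by
    obtain ⟨i, j, ne, e⟩ := hS.exists_lt_map_eq_of_forall_mem
      (f := fun n : ℕ => π^[n] (p x)) fun n => mS.iterate n hy
    exact ⟨i, j, ne, e⟩
  obtain ⟨k, rfl⟩ : ∃ k, j = i + (k + 1) := ⟨j - i - 1, by omega⟩
  rw [iterate_add_apply] at e
  have := (inj.iterate mS i) hy (mS.iterate _ hy) e
  refine ⟨k, ?_⟩
  rw [iterate_succ_apply] at this
  have e2 : π (p x) = b x := by simp only [hπ, (hp x hx).2.1]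
  rw [← e2]; exact this.symm

theorem mate_spec (hS : S.Finite) (hb : Inv S b) (hp : Inv S p) (hDS : D ⊆ S)
    (hD : ∀ x ∈ D, p x ∈ D) {x : Φ} (hx : x ∈ D) :
    mate b p D x ∈ D ∧ mate b p D x ∈ cl (cut b p D) x ∧
      ∀ y ∈ cl (cut b p D) x, y ∈ D → y = x ∨ y = mate b p D x := by
  set π : Φ → Φ := fun z => b (p z) with hπ
  have mS : MapsTo π S S := fun z hz => (hb _ (hp z hz).1).1
  have hxS := hDS hx
  have hbx := (hb x hxS).1
  obtain ⟨n0, hn0⟩ := exists_return hS hb hp hxS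
  have ne : {n | π^[n] (b x) ∈ D}.Nonempty := ⟨n0, by
    show π^[n0] (b x) ∈ D
    rw [hn0]; exact hD x hx⟩
  set k := sInf {n | π^[n] (b x) ∈ D} with hk
  have hm : mate b p D x = π^[k] (b x) := rfl
  have h1 : π^[k] (b x) ∈ D := Nat.sInf_mem ne
  have h2 : ∀ i < k, π^[i] (b x) ∉ D := fun i hi => Nat.notMem_of_lt_sInf hi
  have h3 : ∀ i ≤ k, π^[i] (b x) ∈ cl (cut b p D) x := by
    intro i hi
    induction i with
    | zero => exact cl_one (Or.inl rfl)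
    | succ i ih =>
      rw [iterate_succ_apply']
      exact cl_step (cl_step (ih (by omega)) (Or.inr ⟨h2 i (by omega), rfl⟩)) (Or.inl rfl)
  refine ⟨h1, h3 k le_rfl, fun y hy hyD => ?_⟩
  have key : y = x ∨ (∃ i ≤ k, y = π^[i] (b x)) ∨ ∃ i < k, y = p (π^[i] (b x)) := by
    refine cl_ind (P := fun y => y = x ∨ (∃ i ≤ k, y = π^[i] (b x)) ∨
      ∃ i < k, y = p (π^[i] (b x))) (Or.inl rfl) ?_ hy
    rintro z w - (rfl | ⟨i, hi, rfl⟩ | ⟨i, hi, rfl⟩) (rfl | ⟨nz, rfl⟩)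
    · exact Or.inr (Or.inl ⟨0, Nat.zero_le _, rfl⟩)
    · exact (nz hx).elim
    · cases i with
      | zero => exact Or.inl (hb x hxS).2.1
      | succ i =>
        refine Or.inr (Or.inr ⟨i, by omega, ?_⟩)
        rw [iterate_succ_apply']
        exact (hb _ (hp _ (mS.iterate i hbx)).1).2.1
    · refine Or.inr (Or.inr ⟨i, lt_of_le_of_ne hi ?_, rfl⟩)
      rintro rfl; exact nz h1
    · exact Or.inr (Or.inl ⟨i + 1, by omega, by rw [iterate_succ_apply']⟩)
    · exact Or.inr (Or.inl ⟨i, hi.le, (hp _ (mS.iterate i hbx)).2.1⟩)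
  rcases key with h | ⟨i, hi, rfl⟩ | ⟨i, hi, rfl⟩
  · exact Or.inl h
  · rcases hi.lt_or_eq with h | rfl
    · exact (h2 i h hyD).elim
    · exact Or.inr rfl
  · exact (h2 i hi ((hp _ (mS.iterate i hbx)).2.1 ▸ hD _ hyD)).elim

theorem mate_inv (hS : S.Finite) (hb : Inv S b) (hp : Inv S p) (hDS : D ⊆ S)
    (hD : ∀ x ∈ D, p x ∈ D) : Inv D (mate b p D) := by
  have sy := cut_sy hb hp hD
  have ne : ∀ x ∈ D, mate b p D x ≠ x := by
    intro x hx e
    obtain ⟨-, -, h3⟩ := mate_spec hS hb hp hDS hD hx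
    have hxS := hDS hx
    have sub := sy.sub hxS
    have fin := hS.subset sub
    have e1 : Even (cl (cut b p D) x).ncard := Inv.even fin fun y hy =>
      ⟨cl_step hy (Or.inl rfl), (hb y (sub hy)).2⟩
    have e2 : Even (cl (cut b p D) x \ {x}).ncard := by
      refine Inv.even (p := p) (fin.subset sdiff_subset) fun y hy => ⟨?_, (hp y (sub hy.1)).2⟩
      have ny : y ∉ D := fun k => hy.2 ((h3 y hy.1 k).elim id fun k => k.trans e)
      refine ⟨cl_step hy.1 (Or.inr ⟨ny, rfl⟩), fun k => ny ?_⟩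
      rw [← (hp y (sub hy.1)).2.1, k]; exact hD x hx
    have := ncard_sdiff_singleton_add_one (cl_self (cut b p D) x) fin
    rw [← this, Nat.even_add_one] at e1
    exact e1 e2
  intro x hx
  obtain ⟨h1, h2, -⟩ := mate_spec hS hb hp hDS hD hx
  refine ⟨h1, ?_, ne x hx⟩
  rcases (mate_spec hS hb hp hDS hD h1).2.2 x (sy.symm (hDS hx) h2) hx with k | k
  · exact (ne x hx k.symm).elim
  · exact k.symm

/-- the points whose path misses `D` -/
def free (S : Set Φ) (b p : Φ → Φ) (D : Set Φ) : Set Φ :=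
  {f | f ∈ S ∧ ∀ y ∈ cl (cut b p D) f, y ∉ D}

/-- classes on `D` by first return are the traces of the classes on `S` -/
theorem compress_cl (hS : S.Finite) (hb : Inv S b) (hp : Inv S p) (hDS : D ⊆ S)
    (hD : ∀ x ∈ D, p x ∈ D) {r t : Φ → Φ → Prop} (sr : ∀ x ∈ S, ∀ y, r x y → y ∈ S)
    (h1 : ∀ x ∈ S, ∀ y, cut b p D x y → r x y)
    (h2 : ∀ x ∈ S, ∀ y, r x y → cut b p D x y ∨ (x ∈ D ∧ y ∈ D ∧ t x y))
    (h3 : ∀ x ∈ D, t x (mate b p D x))
    (h4 : ∀ x ∈ D, ∀ y, t x y → y = mate b p D x ∨ (y ∈ D ∧ r x y)) :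
    ∀ f ∈ D, cl t f = cl r f ∩ D := by
  have sy := cut_sy hb hp hD
  have le1 : ∀ f ∈ S, cl (cut b p D) f ⊆ cl r f := fun f hf =>
    cl_le sy (fun x hx y e => cl_one (h1 x hx y e)) hf
  have key : ∀ f ∈ D, ∀ g ∈ cl r f, g ∈ S ∧ ∃ u ∈ D, u ∈ cl t f ∧ g ∈ cl (cut b p D) u := by
    intro f hf g hg
    refine cl_ind (P := fun g => g ∈ S ∧ ∃ u ∈ D, u ∈ cl t f ∧ g ∈ cl (cut b p D) u)
      ⟨hDS hf, f, hf, cl_self _ _, cl_self _ _⟩ ?_ hg
    rintro x y - ⟨hx, u, hu, k1, k2⟩ e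
    refine ⟨sr x hx y e, ?_⟩
    rcases h2 x hx y e with k | ⟨hxD, hyD, k⟩
    · exact ⟨u, hu, k1, cl_step k2 k⟩
    · refine ⟨y, hyD, cl_step ?_ k, cl_self _ _⟩
      rcases (mate_spec hS hb hp hDS hD hu).2.2 x k2 hxD with rfl | rfl
      · exact k1
      · exact cl_step k1 (h3 u hu)
  intro f hf
  refine Subset.antisymm (fun g hg => ?_) fun g hg => ?_
  · refine cl_ind (P := fun g => g ∈ cl r f ∩ D) ⟨cl_self _ _, hf⟩ ?_ hg
    intro x y _ hx e
    rcases h4 x hx.2 y e with rfl | k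
    · have := mate_spec hS hb hp hDS hD hx.2
      exact ⟨cl_trans hx.1 (le1 x (hDS hx.2) this.2.1), this.1⟩
    · exact ⟨cl_step hx.1 k.2, k.1⟩
  · obtain ⟨-, u, hu, k1, k2⟩ := key f hf g hg.1
    rcases (mate_spec hS hb hp hDS hD hu).2.2 g k2 hg.2 with rfl | rfl
    · exact k1
    · exact cl_step k1 (h3 u hu)

/-- the same with the number of classes -/
theorem compress (hS : S.Finite) (hb : Inv S b) (hp : Inv S p) (hDS : D ⊆ S)
    (hD : ∀ x ∈ D, p x ∈ D) {r t : Φ → Φ → Prop} (sr : Sy S r)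
    (h1 : ∀ x ∈ S, ∀ y, cut b p D x y → r x y)
    (h2 : ∀ x ∈ S, ∀ y, r x y → cut b p D x y ∨ (x ∈ D ∧ y ∈ D ∧ t x y))
    (h3 : ∀ x ∈ D, t x (mate b p D x))
    (h4 : ∀ x ∈ D, ∀ y, t x y → y = mate b p D x ∨ (y ∈ D ∧ r x y)) :
    (∀ f ∈ D, cl t f = cl r f ∩ D) ∧ nc r S = nc t D + nc (cut b p D) (free S b p D) := by
  have sy := cut_sy hb hp hD
  have le1 : ∀ f ∈ S, cl (cut b p D) f ⊆ cl r f := fun f hf =>
    cl_le sy (fun x hx y e => cl_one (h1 x hx y e)) hf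
  have A := compress_cl hS hb hp hDS hD (fun x hx y e => (sr x hx y e).1) h1 h2 h3 h4
  refine ⟨A, ?_⟩
  set Z := free S b p D with hZ
  have ZS : Z ⊆ S := fun x hx => hx.1
  have nD : ∀ x ∈ Z, x ∉ D := fun x hx => hx.2 x (cl_self _ _)
  have cZ : Sy Z (cut b p D) := fun x hx y e =>
    ⟨⟨(sy x hx.1 y e).1, fun z hz => hx.2 z (cl_trans (cl_one e) hz)⟩, (sy x hx.1 y e).2⟩
  have rc : ∀ x ∈ Z, ∀ y, r x y → cut b p D x y := fun x hx y e =>
    (h2 x hx.1 y e).elim id fun k => (nD x hx k.1).elim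
  have rZ : Sy Z r := fun x hx y e => ⟨(cZ x hx y (rc x hx y e)).1, (sr x hx.1 y e).2⟩
  rw [nc_split hS ZS rZ, add_comm]
  congr 1
  · have e1 : cl r '' (S \ Z) = cl r '' D := by
      refine Subset.antisymm ?_ (image_mono fun x hx => ⟨hDS hx, fun k => nD x k hx⟩)
      rintro _ ⟨f, hf, rfl⟩
      have : ¬ ∀ y ∈ cl (cut b p D) f, y ∉ D := fun k => hf.2 ⟨hf.1, k⟩
      push Not at this
      obtain ⟨y, hy, hyD⟩ := this
      exact ⟨y, hyD, sr.eq hf.1 (le1 f hf.1 hy)⟩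
    have e2 : cl t '' D = (fun A => A ∩ D) '' (cl r '' D) := by
      rw [image_image]; exact image_congr A
    unfold nc
    rw [e1, e2]
    refine (InjOn.ncard_image ?_).symm
    rintro _ ⟨f, hf, rfl⟩ _ ⟨g, hg, rfl⟩ e
    have : g ∈ cl r f ∩ D := by
      have e' : cl r f ∩ D = cl r g ∩ D := e
      rw [e']; exact ⟨cl_self _ _, hg⟩
    exact (sr.eq (hDS hf) this.1).symm
  · exact nc_congr fun f hf => cl_congr rZ cZ (fun x hx y e => cl_one (rc x hx y e))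
      (fun x hx y e => cl_one (h1 x hx.1 y e)) hf

end path

end Pool.Agent.MP_9d78a0_co.gm

end MrgPart1

-- ======== part 2: formerly Pool.Agent.MP_9d78a0_co.gm.C2
section MrgPart2

/-! Deletion of an edge in maps with improper edges; the genus is monotone. -/

set_option autoImplicit false

namespace Pool.Agent.MP_9d78a0_co.gm

open Set Function Relation

variable {Φ : Type}

namespace FM

variable (M : FM Φ)

def rV (x y : Φ) : Prop := y = M.b x ∨ y = M.c x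
def rE (x y : Φ) : Prop := y = M.a x ∨ y = M.c x
def rF (x y : Φ) : Prop := y = M.a x ∨ y = M.b x
def rC (x y : Φ) : Prop := y = M.a x ∨ y = M.b x ∨ y = M.c x

theorem vo_eq : M.vo = cl M.rV := rfl
theorem eo_eq : M.eo = cl M.rE := rfl
theorem fo_eq : M.fo = cl M.rF := rfl
theorem co_eq : M.co = cl M.rC := rfl

theorem geg_eq : M.geg = 2 * (nc M.rC M.S : ℤ) - nc M.rV M.S + nc M.rE M.prop - nc M.rF M.S := rfl

theorem eg_eq : M.eg = 2 * (nc M.rC M.S : ℤ) - nc M.rV M.S + nc M.rE M.S - nc M.rF M.S := rfl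

open Classical in
/-- the edges in `D` are made improper -/
noncomputable def del (D : Set Φ) : FM Φ := ⟨M.S, fun x => if x ∈ D then M.c x else M.a x, M.b, M.c⟩

variable {M}

theorem Ok.gk (h : M.Ok) : M.Gk := ⟨h.fin, h.ia, h.ib, h.ic, fun f hf => (h.ac f hf).1⟩

theorem Ok.ne (h : M.Ok) {f : Φ} (hf : f ∈ M.S) : M.a f ≠ M.c f := fun e =>
  (h.ac f hf).2 (by rw [← e]; exact (h.ia f hf).2.1)

theorem Ok.prop_eq (h : M.Ok) : M.prop = M.S :=
  Subset.antisymm (fun _ k => k.1) fun _ k => ⟨k, h.ne k⟩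

theorem Ok.geg (h : M.Ok) : M.geg = M.eg := by rw [geg_eq, eg_eq, h.prop_eq]

namespace Gk

variable (h : M.Gk)
include h

theorem sV : Sy M.S M.rV := h.ib.sy2 h.ic
theorem sE : Sy M.S M.rE := h.ia.sy2 h.ic
theorem sF : Sy M.S M.rF := h.ia.sy2 h.ib

theorem sC : Sy M.S M.rC := by
  rintro x hx y (rfl | rfl | rfl)
  · exact ⟨(h.ia x hx).1, Or.inl (h.ia x hx).2.1.symm⟩
  · exact ⟨(h.ib x hx).1, Or.inr (Or.inl (h.ib x hx).2.1.symm)⟩
  · exact ⟨(h.ic x hx).1, Or.inr (Or.inr (h.ic x hx).2.1.symm)⟩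

theorem aa {x : Φ} (hx : x ∈ M.S) : M.a (M.a x) = x := (h.ia x hx).2.1
theorem bb {x : Φ} (hx : x ∈ M.S) : M.b (M.b x) = x := (h.ib x hx).2.1
theorem cc {x : Φ} (hx : x ∈ M.S) : M.c (M.c x) = x := (h.ic x hx).2.1
theorem am {x : Φ} (hx : x ∈ M.S) : M.a x ∈ M.S := (h.ia x hx).1
theorem bm {x : Φ} (hx : x ∈ M.S) : M.b x ∈ M.S := (h.ib x hx).1
theorem cm {x : Φ} (hx : x ∈ M.S) : M.c x ∈ M.S := (h.ic x hx).1

theorem dual : M.dual.Gk := ⟨h.fin, h.ic, h.ib, h.ia, fun f hf => (h.ac f hf).symm⟩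

theorem mem_eo {e x : Φ} (he : e ∈ M.S) :
    x ∈ M.eo e ↔ x = e ∨ x = M.a e ∨ x = M.c e ∨ x = M.a (M.c e) := by
  constructor
  · intro hx
    refine cl_ind (r := M.rE) (P := fun x => x = e ∨ x = M.a e ∨ x = M.c e ∨ x = M.a (M.c e))
      (Or.inl rfl) ?_ hx
    rintro x y - (rfl | rfl | rfl | rfl) (rfl | rfl)
    · simp
    · simp
    · simp [h.aa he]
    · simp [h.ac e he]
    · simp
    · simp [h.cc he]
    · simp [h.aa (h.cm he)]
    · simp [h.ac e he, h.cc (h.am he)]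
  · rintro (rfl | rfl | rfl | rfl)
    · exact cl_self M.rE _
    · exact cl_one (r := M.rE) (Or.inl rfl)
    · exact cl_one (r := M.rE) (Or.inr rfl)
    · exact cl_step (r := M.rE) (cl_one (Or.inr rfl)) (Or.inl rfl)

theorem es_eo {e : Φ} (he : e ∈ M.S) : M.Es (M.eo e) :=
  ⟨h.sE.sub he, fun _ hx => ⟨cl_step (r := M.rE) hx (Or.inl rfl), cl_step (r := M.rE) hx (Or.inr rfl)⟩⟩

theorem es_a {U : Set Φ} (hU : M.Es U) {x : Φ} (hx : x ∈ M.S) : M.a x ∈ U ↔ x ∈ U :=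
  ⟨fun k => h.aa hx ▸ (hU.2 _ k).1, fun k => (hU.2 _ k).1⟩

theorem es_c {U : Set Φ} (hU : M.Es U) {x : Φ} (hx : x ∈ M.S) : M.c x ∈ U ↔ x ∈ U :=
  ⟨fun k => h.cc hx ▸ (hU.2 _ k).2, fun k => (hU.2 _ k).2⟩

theorem es_diff {U C : Set Φ} (hU : M.Es U) (hC : M.Es C) : M.Es (U \ C) :=
  ⟨fun _ k => hU.1 k.1, fun x k => ⟨⟨(hU.2 x k.1).1, fun m => k.2 ((h.es_a hC (hU.1 k.1)).1 m)⟩,
    ⟨(hU.2 x k.1).2, fun m => k.2 ((h.es_c hC (hU.1 k.1)).1 m)⟩⟩⟩

theorem es_S : M.Es M.S := ⟨Subset.rfl, fun _ k => ⟨h.am k, h.cm k⟩⟩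

theorem es_prop : M.Es M.prop := by
  refine ⟨fun _ k => k.1, fun x k => ⟨⟨h.am k.1, fun e => k.2 ?_⟩, ⟨h.cm k.1, fun e => k.2 ?_⟩⟩⟩
  · rw [h.aa k.1] at e
    rw [← h.cc (h.am k.1), ← e]
  · rw [h.cc k.1] at e
    rw [← h.aa (h.cm k.1), e]

/-- a mixture of the two moves along edge sets -/
theorem inv_mix {D : Set Φ} (hD : M.Es D) {p : Φ → Φ} (h1 : ∀ x ∈ D, p x = M.c x)
    (h2 : ∀ x ∈ M.S, x ∉ D → p x = M.a x) : Inv M.S p := by
  intro x hx
  by_cases k : x ∈ D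
  · rw [h1 x k, h1 _ (hD.2 x k).2]; exact h.ic x hx
  · rw [h2 x hx k, h2 _ (h.am hx) fun m => k ((h.es_a hD hx).1 m)]; exact h.ia x hx

theorem del {D : Set Φ} (hD : M.Es D) : (M.del D).Gk := by
  refine ⟨h.fin, h.inv_mix hD (fun x k => if_pos k) fun x _ k => if_neg k, h.ib, h.ic, ?_⟩
  intro f hf
  by_cases k : f ∈ D
  · simp only [FM.del, if_pos k, if_pos (hD.2 f k).2]
  · simp only [FM.del, if_neg k, if_neg fun m => k ((h.es_c hD hf).1 m)]
    exact h.ac f hf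

end Gk

theorem es_empty : M.Es ∅ := ⟨empty_subset _, fun _ k => k.elim⟩

theorem Es.union {U C : Set Φ} (hU : M.Es U) (hC : M.Es C) : M.Es (U ∪ C) :=
  ⟨union_subset hU.1 hC.1, fun x k => k.elim
    (fun k => ⟨Or.inl (hU.2 x k).1, Or.inl (hU.2 x k).2⟩)
    fun k => ⟨Or.inr (hC.2 x k).1, Or.inr (hC.2 x k).2⟩⟩

theorem Es.inter {U C : Set Φ} (hU : M.Es U) (hC : M.Es C) : M.Es (U ∩ C) :=
  ⟨fun _ k => hU.1 k.1, fun x k => ⟨⟨(hU.2 x k.1).1, (hC.2 x k.2).1⟩, (hU.2 x k.1).2, (hC.2 x k.2).2⟩⟩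

theorem del_a_pos {D : Set Φ} {x : Φ} (k : x ∈ D) : (M.del D).a x = M.c x := if_pos k
theorem del_a_neg {D : Set Φ} {x : Φ} (k : x ∉ D) : (M.del D).a x = M.a x := if_neg k

theorem geg_dual (M : FM Φ) : M.dual.geg = M.geg := by
  have e1 : nc M.dual.rC M.S = nc M.rC M.S := by
    congr 1; funext x y; simp only [rC, FM.dual]; exact propext (by tauto)
  have e2 : nc M.dual.rV M.S = nc M.rF M.S := by
    congr 1; funext x y; simp only [rV, rF, FM.dual]; exact propext (by tauto)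
  have e3 : nc M.dual.rF M.S = nc M.rV M.S := by
    congr 1; funext x y; simp only [rV, rF, FM.dual]; exact propext (by tauto)
  have e4 : M.dual.rE = M.rE := by
    funext x y; simp only [rE, FM.dual]; exact propext (by tauto)
  have e5 : M.dual.prop = M.prop := by
    ext x; simp only [prop, FM.dual, mem_ofPred_eq, ne_comm]
  rw [geg_eq, geg_eq, e4, e5]
  show 2 * (nc M.dual.rC M.S : ℤ) - nc M.dual.rV M.S + _ - nc M.dual.rF M.S = _
  rw [e1, e2, e3]; ring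

end FM

/-- new pairs inside old classes, or between two old classes -/
theorem repair {S D : Set Φ} {K r : Φ → Φ → Prop} (hS : S.Finite) (sK : Sy S K) (sr : Sy S r)
    {u v : Φ} (hu : u ∈ S) (hv : v ∈ S) (h1 : ∀ x ∈ S, ∀ y, K x y → y ∈ cl r x)
    (h2 : ∀ x ∈ S, ∀ y, r x y → K x y ∨ (x ∈ D ∧ y ∈ D)) (hD : D ⊆ cl K u ∪ cl K v)
    (huv : v ∈ cl r u) :
    (v ∈ cl K u → nc r S = nc K S) ∧ (v ∉ cl K u → nc r S + 1 = nc K S) := by
  refine ⟨fun k => nc_congr fun f hf => cl_congr sr sK (fun x hx y e => ?_) h1 hf,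
    fun k => nc_join hS sK sr hu hv h1 (fun x hx y e => ?_) huv k⟩
  · rcases h2 x hx y e with m | m
    · exact cl_one m
    · have t : ∀ z ∈ D, z ∈ cl K u := fun z hz => (hD hz).elim id fun q => cl_trans k q
      exact cl_trans (sK.symm hu (t x m.1)) (t y m.2)
  · exact (h2 x hx y e).imp cl_one fun m => ⟨hD m.1, hD m.2⟩

namespace FM

variable {M : FM Φ}

/-- the ends of the edge are joined without it -/
def Nb (M : FM Φ) (e : Φ) : Prop := M.a e ∈ (M.del (M.eo e)).co e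

/-- faces and the paths that are left when the edge is cut -/
theorem face_count (h : M.Gk) {e : Φ} (he : e ∈ M.S) (hne : M.a e ≠ M.c e) {p : Φ → Φ}
    (hp : Inv M.S p) (h1 : ∀ x ∈ M.S, x ∉ M.eo e → p x = M.a x)
    (h2 : ∀ x ∈ M.eo e, p x ∈ M.eo e) :
    (mate M.b M.a (M.eo e) e = p e →
      nc (fun x y => y = p x ∨ y = M.b x) M.S = nc (cut M.b M.a (M.eo e)) M.S ∧
      ∀ x ∈ cl (fun x y => y = p x ∨ y = M.b x) e, x ∈ M.eo e → x = e ∨ x = p e) ∧
    (mate M.b M.a (M.eo e) e ≠ p e →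
      nc (fun x y => y = p x ∨ y = M.b x) M.S + 1 = nc (cut M.b M.a (M.eo e)) M.S ∧
      M.eo e ⊆ cl (fun x y => y = p x ∨ y = M.b x) e) := by
  set D := M.eo e with hDdef
  have hD := h.es_eo he
  have hDa : ∀ x ∈ D, M.a x ∈ D := fun x k => (hD.2 x k).1
  have sK := cut_sy h.ib h.ia hDa
  have sr := hp.sy2 h.ib
  have sp := fun x (hx : x ∈ D) => mate_spec h.fin h.ib h.ia hD.1 hDa hx
  have iv := mate_inv h.fin h.ib h.ia hD.1 hDa
  set m := mate M.b M.a D with hm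
  have eD : e ∈ D := cl_self M.rE e
  have c4 : D.ncard = 4 := by
    have : D = {e, M.a e, M.c e, M.a (M.c e)} := by ext x; simp [hDdef, h.mem_eo he]
    have n1 := (h.ia e he).2.2
    have n2 := (h.ic e he).2.2
    have n3 : M.a (M.c e) ≠ e := fun k => hne (by rw [← h.aa (h.cm he), k])
    have n4 := (h.ia _ (h.cm he)).2.2
    have n5 : M.a (M.c e) ≠ M.a e := by rw [h.ac e he]; exact (h.ic _ (h.am he)).2.2
    rw [this, ncard_insert_of_notMem, ncard_insert_of_notMem, ncard_pair n4.symm]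
    · simp [hne, n5.symm]
    · simp [n1.symm, n2.symm, n3.symm]
  have fD : D.Finite := h.fin.subset hD.1
  have four : ∀ x y z w : Φ, x ∈ D → y ∈ D → z ∈ D → w ∈ D → x ≠ y → x ≠ z → x ≠ w → y ≠ z →
      y ≠ w → z ≠ w → ∀ t ∈ D, t = x ∨ t = y ∨ t = z ∨ t = w := by
    intro x y z w hx hy hz hw a1 a2 a3 a4 a5 a6 t ht
    have : ({x, y, z, w} : Set Φ) = D := by
      refine eq_of_subset_of_ncard_le (by simp only [insert_subset_iff, singleton_subset_iff]; exact ⟨hx, hy, hz, hw⟩) ?_ fD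
      rw [c4, ncard_insert_of_notMem, ncard_insert_of_notMem, ncard_pair a6] <;> simp [*]
    rw [← this] at ht
    simpa using ht
  have K1 : ∀ x ∈ M.S, ∀ y, cut M.b M.a D x y → y ∈ cl (fun x y => y = p x ∨ y = M.b x) x := by
    rintro x hx y (rfl | ⟨k, rfl⟩)
    · exact cl_one (Or.inr rfl)
    · exact cl_one (Or.inl (h1 x hx k).symm)
  have K2 : ∀ x ∈ M.S, ∀ y, (y = p x ∨ y = M.b x) → cut M.b M.a D x y ∨ (x ∈ D ∧ y = p x) := by
    rintro x hx y (rfl | rfl)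
    · by_cases k : x ∈ D
      · exact Or.inr ⟨k, rfl⟩
      · exact Or.inl (Or.inr ⟨k, h1 x hx k⟩)
    · exact Or.inl (Or.inl rfl)
  have pe := hp e he
  constructor
  · intro hme
    have all : ∀ x ∈ D, m x = p x := by
      intro x hx
      by_cases k1 : x = e
      · rw [k1, hme]
      by_cases k2 : x = p e
      · rw [k2, pe.2.1, ← hme, (iv e eD).2.1]
      have px := hp x (hD.1 hx)
      have q1 : p x ≠ e := fun k => k2 (by rw [← k, px.2.1])
      have q2 : p x ≠ p e := fun k => k1 (by rw [← px.2.1, k, pe.2.1])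
      rcases four e (p e) x (p x) eD (h2 e eD) hx (h2 x hx) pe.2.2.symm (Ne.symm k1) q1.symm
        (Ne.symm k2) q2.symm px.2.2.symm (m x) (iv x hx).1 with k | k | k | k
      · exact (k2 (by rw [← hme, ← k, (iv x hx).2.1])).elim
      · exact (k1 (by rw [← (iv x hx).2.1, k, ← hme, (iv e eD).2.1])).elim
      · exact ((iv x hx).2.2 k).elim
      · exact k
    have ce : ∀ f ∈ M.S, cl (fun x y => y = p x ∨ y = M.b x) f = cl (cut M.b M.a D) f :=
      fun f hf => cl_congr sr sK (fun x hx y k => (K2 x hx y k).elim cl_one fun k => by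
        rw [k.2, ← all x k.1]; exact (sp x k.1).2.1) K1 hf
    refine ⟨nc_congr ce, fun x hx hxD => ?_⟩
    rw [ce e he] at hx
    rw [← hme]; exact (sp e eD).2.2 x hx hxD
  · intro hme
    have pD := h2 e eD
    have cov : D ⊆ cl (cut M.b M.a D) e ∪ cl (cut M.b M.a D) (p e) := by
      intro t ht
      have q1 : m (p e) ≠ e := fun k => hme (by rw [← k, (iv _ pD).2.1, k])
      have q2 : m e ≠ m (p e) := fun k => pe.2.2 (by rw [← (iv _ pD).2.1, ← k, (iv e eD).2.1])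
      rcases four e (m e) (p e) (m (p e)) eD (iv e eD).1 pD (iv _ pD).1 (iv e eD).2.2.symm
        pe.2.2.symm q1.symm hme q2 (iv _ pD).2.2.symm t ht with rfl | rfl | rfl | rfl
      · exact Or.inl (cl_self _ _)
      · exact Or.inl (sp e eD).2.1
      · exact Or.inr (cl_self _ _)
      · exact Or.inr (sp _ pD).2.1
    have nk : p e ∉ cl (cut M.b M.a D) e := fun k =>
      ((sp e eD).2.2 _ k pD).elim pe.2.2 fun k => hme k.symm
    refine ⟨(repair h.fin sK sr he pe.1 K1 (fun x hx y k => (K2 x hx y k).imp id fun k =>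
      ⟨k.1, k.2 ▸ h2 x k.1⟩) cov (cl_one (Or.inl rfl))).2 nk, fun t ht => ?_⟩
    exact (cov ht).elim (fun k => cl_le sK K1 he k) fun k =>
      cl_trans (cl_one (Or.inl rfl)) (cl_le sK K1 pe.1 k)

/-- deletion of a proper edge: the counts -/
theorem del_count (h : M.Gk) {e : Φ} (he : e ∈ M.S) (hne : M.a e ≠ M.c e) :
    (M.c e ∉ M.fo e → M.Nb e ∧ (M.del (M.eo e)).geg = M.geg) ∧
    (¬ M.Nb e → (M.del (M.eo e)).geg = M.geg) ∧
    (M.c e ∈ M.fo e → M.Nb e → (M.del (M.eo e)).geg < M.geg) ∧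
    (M.c e ∈ M.fo e ↔ mate M.b M.a (M.eo e) e ≠ M.a e) := by
  set D := M.eo e with hDdef
  set N := M.del D with hN
  have hD := h.es_eo he
  have hN' : N.Gk := h.del hD
  have eD : e ∈ D := cl_self M.rE e
  have F1 := face_count h he hne h.ia (fun _ _ _ => rfl) fun x k => (hD.2 x k).1
  have F2 := face_count h he hne hN'.ia (fun x _ k => del_a_neg k) fun x k => by
    rw [del_a_pos k]; exact (hD.2 x k).2
  rw [show N.a e = M.c e from del_a_pos eD] at F2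
  have hDa : ∀ x ∈ D, M.a x ∈ D := fun x k => (hD.2 x k).1
  have sp := mate_spec h.fin h.ib h.ia hD.1 hDa eD
  have iv := mate_inv h.fin h.ib h.ia hD.1 hDa e eD
  set m := mate M.b M.a D e with hm
  have C := repair (D := D) h.fin hN'.sC h.sC he (h.am he) (K := N.rC) (r := M.rC) ?_ ?_ ?_
    (cl_one (Or.inl rfl))
  rotate_left
  · rintro x hx y (rfl | rfl | rfl)
    · by_cases k : x ∈ D
      · rw [del_a_pos k]; exact cl_one (Or.inr (Or.inr rfl))
      · rw [del_a_neg k]; exact cl_one (Or.inl rfl)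
    · exact cl_one (Or.inr (Or.inl rfl))
    · exact cl_one (Or.inr (Or.inr rfl))
  · rintro x hx y (rfl | rfl | rfl)
    · by_cases k : x ∈ D
      · exact Or.inr ⟨k, hDa x k⟩
      · exact Or.inl (Or.inl (del_a_neg k).symm)
    · exact Or.inl (Or.inr (Or.inl rfl))
    · exact Or.inl (Or.inr (Or.inr rfl))
  · intro x hx
    rcases (h.mem_eo he).1 hx with rfl | rfl | rfl | rfl
    · exact Or.inl (cl_self _ _)
    · exact Or.inr (cl_self _ _)
    · exact Or.inl (cl_one (Or.inr (Or.inr rfl)))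
    · exact Or.inr (cl_one (Or.inr (Or.inr (h.ac e he))))
  have E : nc N.rE N.prop + 1 = nc M.rE M.prop := by
    have p1 : N.prop = M.prop \ D := by
      ext x
      by_cases k : x ∈ D
      · simp [prop, k, hN, del]
      · simp [prop, k, hN, del]
    have DP : D ⊆ M.prop := (show Sy M.prop M.rE from fun x hx y k =>
      ⟨k.elim (fun k => k ▸ (h.es_prop.2 x hx).1) fun k => k ▸ (h.es_prop.2 x hx).2,
        (h.sE x hx.1 y k).2⟩).sub ⟨he, hne⟩
    have s1 : Sy (M.S \ D) M.rE := h.sE.diff (h.sE.cls he)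
    have ag : ∀ x ∈ M.S \ D, ∀ y, N.rE x y ↔ M.rE x y := fun x hx y => by
      simp only [rE, del_a_neg hx.2, hN]; rfl
    have s2 : Sy (M.S \ D) N.rE := fun x hx y k =>
      ⟨(s1 x hx y ((ag x hx y).1 k)).1, (hN'.sE x hx.1 y k).2⟩
    rw [nc_split (h.fin.subset h.es_prop.1) DP (h.sE.cls he),
      show nc M.rE D = 1 from nc_cls h.sE he, p1, add_comm]
    congr 1
    exact nc_congr fun f hf => cl_congr s2 s1 (fun x hx y k => cl_one ((ag x hx y).1 k))
      (fun x hx y k => cl_one ((ag x hx y).2 k)) ⟨hf.1.1, hf.2⟩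
  have cutN : cl (cut M.b M.a D) e ⊆ cl N.rC e := cl_le (cut_sy h.ib h.ia hDa) (by
    rintro x - y (rfl | ⟨k, rfl⟩)
    · exact cl_one (Or.inr (Or.inl rfl))
    · exact cl_one (Or.inl (del_a_neg k).symm)) he
  have fo : M.c e ∈ M.fo e ↔ m ≠ M.a e := by
    refine ⟨fun k q => ?_, fun q => (F1.2 q).2 (hD.2 e eD).2⟩
    rcases (F1.1 q).2 _ k (hD.2 e eD).2 with k | k
    · exact (h.ic e he).2.2 k
    · exact hne k.symm
  have nb : m ≠ M.c e → M.Nb e := by
    intro q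
    rcases (h.mem_eo he).1 sp.1 with k | k | k | k
    · exact (iv.2.2 k).elim
    · have : M.a e ∈ cl N.rC e := k ▸ cutN sp.2.1
      exact this
    · exact (q k).elim
    · have : M.a (M.c e) ∈ cl N.rC e := k ▸ cutN sp.2.1
      refine cl_step (r := N.rC) this (Or.inr (Or.inr ?_))
      show M.a e = M.c (M.a (M.c e))
      rw [h.ac e he, h.cc (h.am he)]
  have g1 : M.geg = 2 * (nc M.rC M.S : ℤ) - nc M.rV M.S + nc M.rE M.prop -
    nc (fun x y => y = M.a x ∨ y = M.b x) M.S := rfl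
  have g2 : N.geg = 2 * (nc N.rC M.S : ℤ) - nc M.rV M.S + nc N.rE N.prop -
    nc (fun x y => y = N.a x ∨ y = M.b x) M.S := rfl
  refine ⟨fun k => ?_, fun k => ?_, fun k k' => ?_, fo⟩
  · have q : m = M.a e := by by_contra q; exact k (fo.2 q)
    have q2 : m ≠ M.c e := q ▸ hne
    have a1 := (F1.1 q).1
    have a2 := (F2.2 q2).1
    have a3 := C.1 (nb q2)
    exact ⟨nb q2, by omega⟩
  · have q : m = M.c e := by by_contra q; exact k (nb q)
    have a1 := (F1.2 (q ▸ hne.symm)).1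
    have a2 := (F2.1 q).1
    have a3 := C.2 k
    omega
  · have a1 := (F1.2 (fo.1 k)).1
    have a3 := C.1 k'
    by_cases q : m = M.c e
    · have a2 := (F2.1 q).1
      omega
    · have a2 := (F2.2 q).1
      omega

theorem del_le (h : M.Gk) {e : Φ} (he : e ∈ M.S) (hne : M.a e ≠ M.c e) :
    (M.del (M.eo e)).geg ≤ M.geg := by
  obtain ⟨h1, h2, h3, -⟩ := del_count h he hne
  by_cases k : M.c e ∈ M.fo e
  · by_cases k' : M.Nb e
    · exact (h3 k k').le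
    · exact (h2 k').le
  · exact (h1 k).2.le

theorem geg_congr {N : FM Φ} (h : M.Gk) (hs : M.Same N) : N.Gk ∧ N.geg = M.geg ∧
    ∀ f ∈ M.S, N.vo f = M.vo f ∧ N.eo f = M.eo f ∧ N.fo f = M.fo f ∧ N.co f = M.co f := by
  obtain ⟨e, hs⟩ := hs
  have iv : ∀ p q : Φ → Φ, Inv M.S p → (∀ f ∈ M.S, p f = q f) → Inv N.S q := by
    intro p q hp k f hf
    rw [← e] at hf ⊢
    rw [← k f hf, ← k _ (hp f hf).1]; exact hp f hf
  have hN : N.Gk := by
    refine ⟨e ▸ h.fin, iv _ _ h.ia fun f k => (hs f k).1, iv _ _ h.ib fun f k => (hs f k).2.1,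
      iv _ _ h.ic fun f k => (hs f k).2.2, fun f hf => ?_⟩
    rw [← e] at hf
    rw [← (hs f hf).1, ← (hs f hf).2.2, ← (hs _ (h.cm hf)).1, ← (hs _ (h.am hf)).2.2]
    exact h.ac f hf
  have key : ∀ r r' : Φ → Φ → Prop, Sy M.S r → Sy N.S r' → (∀ x ∈ M.S, ∀ y, r' x y ↔ r x y) →
      ∀ f ∈ M.S, cl r' f = cl r f := fun r r' s s' k f hf =>
    cl_congr (e ▸ s') s (fun x hx y q => cl_one ((k x hx y).1 q))
      (fun x hx y q => cl_one ((k x hx y).2 q)) hf
  have kV := key _ _ h.sV hN.sV fun x hx y => by simp only [rV, hs x hx]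
  have kE := key _ _ h.sE hN.sE fun x hx y => by simp only [rE, hs x hx]
  have kF := key _ _ h.sF hN.sF fun x hx y => by simp only [rF, hs x hx]
  have kC := key _ _ h.sC hN.sC fun x hx y => by simp only [rC, hs x hx]
  have pp : N.prop = M.prop := by
    ext x
    exact ⟨fun k => ⟨e ▸ k.1, by rw [(hs x (e ▸ k.1)).1, (hs x (e ▸ k.1)).2.2]; exact k.2⟩,
      fun k => ⟨e ▸ k.1, by rw [← (hs x k.1).1, ← (hs x k.1).2.2]; exact k.2⟩⟩
  refine ⟨hN, ?_, fun f hf => ⟨kV f hf, kE f hf, kF f hf, kC f hf⟩⟩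
  rw [geg_eq, geg_eq, pp, ← e, nc_congr kV, nc_congr kF, nc_congr kC,
    nc_congr fun f (hf : f ∈ M.prop) => kE f hf.1]

/-- induction over the deletion of a set of edges, one proper edge after the other -/
theorem del_ind {P : FM Φ → Set Φ → Prop}
    (h0 : ∀ (M : FM Φ) (D : Set Φ), M.Gk → M.Es D → Disjoint D M.prop → P M D)
    (hs : ∀ (M : FM Φ) (D : Set Φ) (e : Φ), M.Gk → M.Es D → e ∈ D → M.a e ≠ M.c e →
      P (M.del (M.eo e)) (D \ M.eo e) → P M D) (M : FM Φ) (D : Set Φ) (h : M.Gk) (hD : M.Es D) :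
    P M D := by
  induction' hn : D.ncard using Nat.strong_induction_on with n ih generalizing M D
  by_cases k : Disjoint D M.prop
  · exact h0 M D h hD k
  · obtain ⟨e, he, hp⟩ := not_disjoint_iff.1 k
    have hE := h.es_eo hp.1
    refine hs M D e h hD he hp.2 (ih _ ?_ _ _ (h.del hE) ?_ rfl)
    · rw [← hn]
      exact ncard_lt_ncard ⟨sdiff_subset, fun q => (q he).2 (cl_self M.rE e)⟩
        (h.fin.subset hD.1)
    · have := h.es_diff hD hE
      exact ⟨this.1, fun x q => ⟨by rw [del_a_neg q.2]; exact (this.2 x q).1, (this.2 x q).2⟩⟩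

theorem del_same_of_disj {D : Set Φ} (k : Disjoint D M.prop) : M.Same (M.del D) := by
  refine ⟨rfl, fun f hf => ⟨?_, rfl, rfl⟩⟩
  by_cases q : f ∈ D
  · rw [del_a_pos q]
    by_contra n
    exact Set.disjoint_left.1 k q ⟨hf, n⟩
  · rw [del_a_neg q]

theorem del_del {D E : Set Φ} (k : E ⊆ D) : ((M.del E).del (D \ E)).Same (M.del D) := by
  refine ⟨rfl, fun f _ => ⟨?_, rfl, rfl⟩⟩
  by_cases q : f ∈ E
  · rw [del_a_neg fun m => m.2 q, del_a_pos q, del_a_pos (k q)]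
  · by_cases q' : f ∈ D
    · rw [del_a_pos (show f ∈ D \ E from ⟨q', q⟩), del_a_pos q']; rfl
    · rw [del_a_neg fun m => q' m.1, del_a_neg q, del_a_neg q']

theorem Es.eo_sub {D : Set Φ} (hD : M.Es D) {e : Φ} (he : e ∈ D) : M.eo e ⊆ D := fun _ hx =>
  cl_ind (r := M.rE) (P := fun x => x ∈ D) he
    (fun x _ _ k q => q.elim (fun q => q ▸ (hD.2 x k).1) fun q => q ▸ (hD.2 x k).2) hx

theorem es_del {D E : Set Φ} (h : M.Gk) (hD : M.Es D) (hE : M.Es E) : (M.del E).Es (D \ E) :=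
  have := h.es_diff hD hE
  ⟨this.1, fun x q => ⟨by rw [del_a_neg q.2]; exact (this.2 x q).1, (this.2 x q).2⟩⟩

theorem geg_del_le {D : Set Φ} (h : M.Gk) (hD : M.Es D) : (M.del D).geg ≤ M.geg := by
  refine del_ind (P := fun M D => (M.del D).geg ≤ M.geg) ?_ ?_ M D h hD
  · intro M D h _ k
    exact (geg_congr h (del_same_of_disj k)).2.1.le
  · intro M D e h hD he hne ih
    have hE := h.es_eo (hD.1 he)
    rw [(geg_congr ((h.del hE).del (es_del h hD hE)) (del_del (hD.eo_sub he))).2.1]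
    exact ih.trans (del_le h (hD.1 he) hne)

theorem geg_flat (h : M.Gk) (k : ∀ x ∈ M.S, M.a x = M.c x) : M.geg = 0 := by
  have p : M.prop = ∅ := eq_empty_of_forall_notMem fun x q => q.2 (k x q.1)
  have e1 : nc M.rC M.S = nc M.rV M.S := nc_congr fun f hf => cl_congr h.sC h.sV
    (fun x hx y q => cl_one (by simp only [rC, rV, k x hx] at q ⊢; tauto))
    (fun x hx y q => cl_one (Or.inr q)) hf
  have e2 : nc M.rF M.S = nc M.rV M.S := nc_congr fun f hf => cl_congr h.sF h.sV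
    (fun x hx y q => cl_one (by simp only [rF, rV, k x hx] at q ⊢; tauto))
    (fun x hx y q => cl_one (by simp only [rF, rV, k x hx] at q ⊢; tauto)) hf
  rw [geg_eq, p, nc_empty, e1, e2]; ring

theorem geg_nonneg (h : M.Gk) : 0 ≤ M.geg := by
  rw [← geg_flat (h.del h.es_S) fun x hx => del_a_pos hx]
  exact geg_del_le h h.es_S

end FM

end Pool.Agent.MP_9d78a0_co.gm

end MrgPart2

-- ======== part 3: formerly Pool.Agent.MP_9d78a0_co.gm.CGph
section MrgPart3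

/-! Flag maps: submaps, the underlying graph, vertices of minors, regions. -/

set_option autoImplicit false

namespace Pool.Agent.MP_9d78a0_co.gm

open Set Function Relation

namespace Gph

variable {Φ V : Type} {M : FM Φ} {vx : Φ → V} {U C : Set Φ} {f g : Φ}

lemma es_empty (M : FM Φ) : M.Es ∅ := ⟨empty_subset _, fun _ h => h.elim⟩

lemma gc_empty (M : FM Φ) (U : Set Φ) : M.gc U ∅ = M.c := funext fun x => by simp [FM.gc]

lemma ga_mem (h : f ∈ U) : M.ga U C f = M.a f := if_pos (Or.inl h)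

lemma ga_not (h : f ∉ U) : M.ga U ∅ f = M.c f := if_neg (by simpa using h)

lemma vx_b (hM : M.Ok) (hl : M.Lbl vx) (hf : f ∈ M.S) : vx (M.b f) = vx f :=
  ((hl f hf _ (hM.ib f hf).1).2 (.single (Or.inl rfl))).symm

lemma vx_c (hM : M.Ok) (hl : M.Lbl vx) (hf : f ∈ M.S) : vx (M.c f) = vx f :=
  ((hl f hf _ (hM.ic f hf).1).2 (.single (Or.inr rfl))).symm

lemma link_a {K : Set V} (hf : f ∈ M.S) (h1 : vx f ∈ K) (h2 : vx (M.a f) ∈ K) :
    Link (M.gph vx) K (vx f) (vx (M.a f)) := by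
  by_cases e : vx f = vx (M.a f)
  · rw [← e]; exact Link.refl _ _ _
  · exact Link.single h1 h2 ⟨e, f, hf, Or.inl ⟨rfl, rfl⟩⟩

/-- from walks of flags to walks of vertices -/
lemma push {R : Φ → Φ → Prop} {Q : V → V → Prop}
    (h : ∀ x ∈ M.S, ∀ y, R x y → y ∈ M.S ∧ ReflTransGen Q (vx x) (vx y)) (hf : f ∈ M.S)
    (hg : ReflTransGen R f g) : g ∈ M.S ∧ ReflTransGen Q (vx f) (vx g) := by
  induction hg with
  | refl => exact ⟨hf, .refl⟩
  | tail _ e ih => exact ⟨(h _ ih.1 _ e).1, ih.2.trans (h _ ih.1 _ e).2⟩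

/-- from walks of vertices to walks of flags -/
lemma pull (hM : M.Ok) (hl : M.Lbl vx) {R : Φ → Φ → Prop} {K : Set V}
    (h1 : ∀ x ∈ M.S, vx x ∈ K → ∀ y ∈ M.vo x, ReflTransGen R x y)
    (h2 : ∀ x ∈ M.S, vx x ∈ K → vx (M.a x) ∈ K → R x (M.a x)) (hf : f ∈ M.S) (hK : vx f ∈ K)
    {v : V} (h : Link (M.gph vx) K (vx f) v) : ∀ g ∈ M.S, vx g = v → ReflTransGen R f g := by
  induction h with
  | refl => exact fun g hg e => h1 f hf hK g ((hl f hf g hg).1 e.symm)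
  | tail _ e ih =>
    obtain ⟨hu, hv, -, x, hx, e⟩ := e
    obtain ⟨x, hx, rfl, rfl⟩ : ∃ x ∈ M.S, vx x = _ ∧ vx (M.a x) = _ := e.elim (⟨x, hx, ·⟩)
      fun e => ⟨M.a x, (hM.ia x hx).1, e.2, by rw [(hM.ia x hx).2.1, e.1]⟩
    exact fun g hg e => ((ih x hx rfl).tail (h2 x hx hu hv)).trans
      (h1 _ (hM.ia x hx).1 hv g ((hl _ (hM.ia x hx).1 g hg).1 e.symm))

lemma vo_reg (h : ∀ y ∈ M.vo f, y ∉ U) : M.vo f ⊆ M.reg U f := fun g hg => by
  induction hg with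
  | refl => exact .refl
  | tail e1 e ih => exact ih.tail (Or.inr (e.imp_right fun e => ⟨h _ e1, e⟩))

lemma reg_back (hM : M.Ok) (hU : M.Es U) (hf : f ∈ M.S) (hg : g ∈ M.reg U f) :
    g ∈ M.S ∧ f ∈ M.reg U g := by
  induction hg with
  | refl => exact ⟨hf, .refl⟩
  | @tail x _ _ e ih =>
    rcases e with rfl | rfl | ⟨h, rfl⟩
    · exact ⟨(hM.ia x ih.1).1, .head (Or.inl (hM.ia x ih.1).2.1.symm) ih.2⟩
    · exact ⟨(hM.ib x ih.1).1, .head (Or.inr (Or.inl (hM.ib x ih.1).2.1.symm)) ih.2⟩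
    · exact ⟨(hM.ic x ih.1).1, .head (Or.inr (Or.inr ⟨fun e => h ((hM.ic x ih.1).2.1 ▸
        (hU.2 _ e).2), (hM.ic x ih.1).2.1.symm⟩)) ih.2⟩

end Gph

open Gph

theorem gphS (_ho : OrbS) (hm : MinorS) : GphS := by
  intro Φ V M vx hM hl
  have he : ∀ K, M.Es (M.ind vx K) := fun K => ⟨fun _ h => h.1, fun f h =>
    ⟨⟨(hM.ia f h.1).1, h.2.2, by rw [(hM.ia f h.1).2.1]; exact h.2.1⟩, (hM.ic f h.1).1,
      by rw [vx_c hM hl h.1]; exact h.2.1,
      by rw [(hM.ac f h.1).1, vx_c hM hl (hM.ia f h.1).1]; exact h.2.2⟩⟩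
  have hb : ∀ K, ∀ x ∈ M.S, M.b x ∈ M.S ∧ Link (M.gph vx) K (vx x) (vx (M.b x)) := fun K x hx =>
    ⟨(hM.ib x hx).1, by rw [vx_b hM hl hx]; exact .refl _ _ _⟩
  have hc : ∀ K, ∀ x ∈ M.S, M.c x ∈ M.S ∧ Link (M.gph vx) K (vx x) (vx (M.c x)) := fun K x hx =>
    ⟨(hM.ic x hx).1, by rw [vx_c hM hl hx]; exact .refl _ _ _⟩
  refine ⟨fun U hU f hf g hg => ?_, he, fun K f hf g hg => ?_, fun f hf g hg => ?_,
    fun U hU D hD f hf g hg h1 h2 => ?_⟩
  · rw [FM.sub, ((hm Φ M U ∅ hM hU (es_empty M)).2 f hf).1, hl f (hU.1 hf) g (hU.1 hg)]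
    change _ ↔ g ∈ orb M.b (M.gc U ∅) f ∧ _
    rw [gc_empty]
    exact (and_iff_left hg).symm
  · rw [FM.sub, ((hm Φ M _ ∅ hM (he K) (es_empty M)).2 f hf).2.2.1, mem_inter_iff, and_iff_left hg]
    change ReflTransGen (fun x y => y = M.ga _ ∅ x ∨ y = M.b x ∨ y = M.gc _ ∅ x) f g ↔ _
    rw [gc_empty]
    refine ⟨fun h => (push (M := M) (fun x hx y e => ?_) hf.1 h).2, fun h =>
      pull hM hl (fun x _ _ y hy => ?_) (fun x hx a b => ?_) hf.1 hf.2.1 h g hg.1 rfl⟩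
    rotate_left
    · exact ReflTransGen.mono (fun _ _ => Or.inr) _ _ hy
    · exact Or.inl (ga_mem (U := M.ind vx K) ⟨hx, a, b⟩).symm
    rcases e with rfl | rfl | rfl
    · by_cases e : x ∈ M.ind vx K
      · rw [ga_mem e]; exact ⟨(hM.ia x hx).1, link_a hx e.2.1 e.2.2⟩
      · rw [ga_not e]; exact hc K x hx
    exacts [hb K x hx, hc K x hx]
  · refine ⟨fun h => (push (M := M) (fun x hx y e => ?_) hf h).2, fun h =>
      pull hM hl (fun x _ _ y hy => ?_) (fun x _ _ _ => ?_) hf (mem_univ _) h g hg rfl⟩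
    rotate_left
    · exact ReflTransGen.mono (fun _ _ => Or.inr) _ _ hy
    · exact Or.inl rfl
    rcases e with rfl | rfl | rfl
    exacts [⟨(hM.ia x hx).1, link_a hx trivial trivial⟩, hb _ x hx, hc _ x hx]
  · refine pull hM hl (fun x hx a => vo_reg fun y hy b => ?_) (fun x _ _ _ => Or.inl rfl) hf h1 h2
      g hg rfl
    exact disjoint_left.1 hD a ⟨y, b, ((hl x hx y (hU.1 b)).2 hy).symm⟩

theorem conVS (_ho : OrbS) (hm : MinorS) : ConVS := by
  intro Φ V M vx U C hM hl hU hC _ f hf g hg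
  rw [((hm Φ M U C hM hU hC).2 f hf).1] at hg
  refine (push (M := M) (fun x hx y e => ?_) (hU.1 hf) hg.1).2
  rcases e with rfl | rfl
  · exact ⟨(hM.ib x hx).1, (vx_b hM hl hx).symm ▸ .refl⟩
  · change M.gc U C x ∈ _ ∧ ReflTransGen _ _ (vx (M.gc U C x))
    unfold FM.gc
    split_ifs with e
    · exact ⟨(hM.ia x hx).1, .single ⟨x, e.2, rfl, rfl⟩⟩
    · exact ⟨(hM.ic x hx).1, by rw [vx_c hM hl hx]⟩

theorem regBS (ho : OrbS) (hm : MinorS) : RegBS := by
  intro Φ M U hM hU f hf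
  refine ⟨fun g hg => (reg_back hM hU hf hg).1, fun g hg => Subset.antisymm
    (fun _ h => ReflTransGen.trans hg h) fun _ h => ReflTransGen.trans (reg_back hM hU hf hg).2 h,
    fun h => vo_reg fun y hy e => h ⟨y, e, ?_⟩, fun h g hg => ?_, fun ⟨g, hg, h⟩ => ?_⟩
  · rw [FM.vo, (ho Φ M.S M.b M.c hM.ib hM.ic f hf).2 y hy]
    exact .refl
  · rw [FM.sub, ((hm Φ M U ∅ hM hU (es_empty M)).2 f h).2.1] at hg
    refine ReflTransGen.mono (fun x y e => ?_) _ _ hg.1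
    rcases e with rfl | rfl
    · by_cases e : x ∈ U
      exacts [Or.inl (ga_mem e), Or.inr (Or.inr ⟨e, ga_not e⟩)]
    · exact Or.inr (Or.inl rfl)
  · by_contra H
    refine H ⟨g, ?_, h⟩
    clear h
    induction hg with
    | refl => exact .refl
    | tail _ e ih => exact ih.tail (e.imp_right (Or.imp_right fun e => ⟨fun a => H ⟨_, ih, a⟩, e⟩))

end Pool.Agent.MP_9d78a0_co.gm

end MrgPart3

-- ======== part 4: formerly Pool.Agent.MP_9d78a0_co.gm.CSame
section MrgPart4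

/-! Maps that agree on the flags; duality. -/

set_option autoImplicit false

namespace Pool.Agent.MP_9d78a0_co.gm

open Set Function

namespace CSame

variable {Φ : Type}

theorem ret_congr {S U : Set Φ} {π ρ : Φ → Φ} (hS : ∀ x ∈ S, π x ∈ S)
    (h : ∀ x ∈ S, x ∉ U → π x = ρ x) {x : Φ} (hx : x ∈ S) : ret π U x = ret ρ U x := by
  have key : ∀ n, (∀ m < n, π^[m] x ∉ U) → π^[n] x ∈ S ∧ π^[n] x = ρ^[n] x := by
    intro n
    induction n with
    | zero => exact fun _ => ⟨hx, rfl⟩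
    | succ n ih =>
      intro hn
      obtain ⟨e1, e2⟩ := ih fun m hm => hn m (by omega)
      rw [iterate_succ_apply', iterate_succ_apply', ← e2]
      exact ⟨hS _ e1, h _ e1 (hn n (by omega))⟩
  unfold ret
  rcases eq_empty_or_nonempty {n | π^[n] x ∈ U} with e | e
  · have e0 : ∀ m, π^[m] x ∉ U := fun m hm => (e ▸ hm : m ∈ (∅ : Set ℕ))
    have e1 : {n | ρ^[n] x ∈ U} = ∅ :=
      eq_empty_of_forall_notMem fun n hn => e0 n ((key n fun m _ => e0 m).2 ▸ hn)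
    rw [e, e1, Nat.sInf_empty]
    rfl
  · have e0 : ∀ m < sInf {n | π^[n] x ∈ U}, π^[m] x ∉ U := fun m hm => Nat.notMem_of_lt_sInf hm
    have e1 := (key _ e0).2
    have e2 : sInf {n | π^[n] x ∈ U} ∈ {n | ρ^[n] x ∈ U} := by
      show _ ∈ U
      rw [← e1]
      exact Nat.sInf_mem e
    have e3 : sInf {n | ρ^[n] x ∈ U} = sInf {n | π^[n] x ∈ U} := by
      refine le_antisymm (Nat.sInf_le e2) (not_lt.1 fun c => e0 _ c ?_)
      rw [(key _ fun m hm => e0 m (hm.trans c)).2]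
      exact Nat.sInf_mem ⟨_, e2⟩
    rw [e3, e1]

theorem rtg_congr {S : Set Φ} {r s : Φ → Φ → Prop} (hS : ∀ x ∈ S, ∀ y, r x y → y ∈ S)
    (h : ∀ x ∈ S, ∀ y, s x y ↔ r x y) {f : Φ} (hf : f ∈ S) :
    {g | Relation.ReflTransGen s f g} = {g | Relation.ReflTransGen r f g} := by
  have key : ∀ {r s : Φ → Φ → Prop}, (∀ x ∈ S, ∀ y, r x y → y ∈ S ∧ s x y) → ∀ g,
      Relation.ReflTransGen r f g → g ∈ S ∧ Relation.ReflTransGen s f g := by
    intro r s k g hg
    induction hg with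
    | refl => exact ⟨hf, .refl⟩
    | tail _ e ih => exact ⟨(k _ ih.1 _ e).1, ih.2.tail (k _ ih.1 _ e).2⟩
  ext g
  exact ⟨fun e => (key (fun x hx y k => ⟨hS x hx y ((h x hx y).1 k), (h x hx y).1 k⟩) g e).2,
    fun e => (key (fun x hx y k => ⟨hS x hx y k, (h x hx y).2 k⟩) g e).2⟩

theorem orb_congr {S : Set Φ} {p q p' q' : Φ → Φ} (hp : Inv S p) (hq : Inv S q)
    (ep : ∀ x ∈ S, p x = p' x) (eq : ∀ x ∈ S, q x = q' x) {f : Φ} (hf : f ∈ S) :
    orb p' q' f = orb p q f :=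
  rtg_congr (fun x hx y k => by rcases k with rfl | rfl; exacts [(hp x hx).1, (hq x hx).1])
    (fun x hx y => by rw [ep x hx, eq x hx]) hf

theorem orb_comm (p q : Φ → Φ) : orb p q = orb q p := by
  funext f
  simp only [orb, or_comm]

theorem inv_congr {S : Set Φ} {p p' : Φ → Φ} (hp : Inv S p) (e : ∀ x ∈ S, p x = p' x) :
    Inv S p' := fun f hf => by
  rw [← e f hf, ← e _ (hp f hf).1]
  exact hp f hf

end CSame

open CSame

theorem sameS : SameS := by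
  rintro Φ M N hM ⟨hS, h⟩
  have ea : ∀ x ∈ M.S, M.a x = N.a x := fun x hx => (h x hx).1
  have eb : ∀ x ∈ M.S, M.b x = N.b x := fun x hx => (h x hx).2.1
  have ec : ∀ x ∈ M.S, M.c x = N.c x := fun x hx => (h x hx).2.2
  have o : ∀ f ∈ M.S, N.vo f = M.vo f ∧ N.eo f = M.eo f ∧ N.fo f = M.fo f ∧ N.co f = M.co f ∧
      ∀ U, N.reg U f = M.reg U f := fun f hf =>
    ⟨orb_congr hM.ib hM.ic eb ec hf, orb_congr hM.ia hM.ic ea ec hf,
      orb_congr hM.ia hM.ib ea eb hf,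
      rtg_congr (fun x hx y k => by
        rcases k with rfl | rfl | rfl
        exacts [(hM.ia x hx).1, (hM.ib x hx).1, (hM.ic x hx).1])
        (fun x hx y => by rw [ea x hx, eb x hx, ec x hx]) hf,
      fun U => rtg_congr (fun x hx y k => by
        rcases k with rfl | rfl | ⟨-, rfl⟩
        exacts [(hM.ia x hx).1, (hM.ib x hx).1, (hM.ic x hx).1])
        (fun x hx y => by rw [ea x hx, eb x hx, ec x hx]) hf⟩
  refine ⟨⟨hS ▸ hM.fin, hS ▸ inv_congr hM.ia ea, hS ▸ inv_congr hM.ib eb, hS ▸ inv_congr hM.ic ec,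
    fun f hf => ?_⟩, ?_, o, fun U C hU _ => ⟨rfl, fun f hf => ⟨ea f (hU.1 hf), ?_, ec f (hU.1 hf)⟩⟩,
    rfl, fun f hf => ⟨rfl, ?_, rfl⟩⟩
  · rw [← hS] at hf
    rw [← ec f hf, ← ea f hf, ← ea _ (hM.ic f hf).1, ← ec _ (hM.ia f hf).1]
    exact hM.ac f hf
  · unfold FM.eg
    rw [← hS, image_congr fun f hf => (o f hf).1, image_congr fun f hf => (o f hf).2.1,
      image_congr fun f hf => (o f hf).2.2.1, image_congr fun f hf => (o f hf).2.2.2.1]
  · simp only [FM.minor]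
    rw [← eb f (hU.1 hf)]
    refine ret_congr (S := M.S) (fun x hx => ?_) (fun x hx _ => ?_) (hM.ib f (hU.1 hf)).1
    · split_ifs
      exacts [(hM.ib _ (hM.ia x hx).1).1, (hM.ib _ (hM.ic x hx).1).1]
    · split_ifs
      · rw [← ea x hx, eb _ (hM.ia x hx).1]
      · rw [← ec x hx, eb _ (hM.ic x hx).1]
  · simp only [FM.sub, FM.minor, ret]
    rw [Nat.sInf_eq_zero.2 (.inl (hM.ib f hf).1)]
    rfl

theorem dualS : DualS := by
  intro Φ M hM
  refine ⟨⟨hM.fin, hM.ic, hM.ib, hM.ia, fun f hf => ⟨(hM.ac f hf).1.symm, ?_⟩⟩, ?_,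
    fun U C hU _ => ⟨rfl, fun f hf => ⟨rfl, ?_, rfl⟩⟩⟩
  · exact fun e => (hM.ac f hf).2 ((hM.ac f hf).1.trans e)
  · have e1 : M.dual.vo = M.fo := orb_comm _ _
    have e2 : M.dual.eo = M.eo := orb_comm _ _
    have e3 : M.dual.fo = M.vo := orb_comm _ _
    have e4 : M.dual.co = M.co := funext fun f =>
      rtg_congr (S := univ) (fun _ _ _ _ => trivial)
        (fun x _ y => by simp only [FM.dual]; tauto) trivial
    unfold FM.eg
    rw [e1, e2, e3, e4, show M.dual.S = M.S from rfl]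
    ring
  · simp only [FM.minor, FM.dual]
    refine ret_congr (S := M.S) (fun x hx => ?_) (fun x hx hx' => ?_) (hM.ib f (hU.1 hf)).1
    · split_ifs
      exacts [(hM.ib _ (hM.ia x hx).1).1, (hM.ib _ (hM.ic x hx).1).1]
    · by_cases c : x ∈ C <;> simp [c, hx, hx']

end Pool.Agent.MP_9d78a0_co.gm

end MrgPart4

-- marker of a merged file
example : 731051 + 490711 = 731051 + 490711 := rfl
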