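import Pool.Agent.MP_9d78a0_co.gm.SpecJ
import Pool.Agent.MP_9d78a0_co.gm.SpecFM

-- ======== part 0: formerly Pool.Agent.MP_9d78a0_co.gm.JSeed
section MrgPart0

/-! Block J: the seed of a dead set and the preliminary structure. -/

set_option autoImplicit false

namespace Pool.Agent.MP_9d78a0_co.gm

open Set Function

namespace JSeed

section map

variable {s : Sk} (hs : s.Ok) {f g : s.Φ}
include hs

theorem vx_c (hf : f ∈ s.M.S) : s.vx (s.M.c f) = s.vx f :=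
  ((hs.hm.lbl f hf _ (hs.hm.ok.ic f hf).1).2 (Relation.ReflTransGen.single (.inr rfl))).symm

theorem vx_b (hf : f ∈ s.M.S) : s.vx (s.M.b f) = s.vx f :=
  ((hs.hm.lbl f hf _ (hs.hm.ok.ib f hf).1).2 (Relation.ReflTransGen.single (.inl rfl))).symm

theorem far_c (hf : f ∈ s.M.S) : s.far (s.M.c f) = s.far f := by
  rw [Sk.far, (hs.hm.ok.ac f hf).1, vx_c hs (hs.hm.ok.ia f hf).1, Sk.far]

theorem c_fl (hf : f ∈ s.M.fl s.vx s.H) : s.M.c f ∈ s.M.fl s.vx s.H :=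
  ⟨(hs.hm.ok.ic f hf.1).1, by rw [vx_c hs hf.1]; exact hf.2⟩

theorem b_fl (hf : f ∈ s.M.fl s.vx s.H) : s.M.b f ∈ s.M.fl s.vx s.H :=
  ⟨(hs.hm.ok.ib f hf.1).1, by rw [vx_b hs hf.1]; exact hf.2⟩

theorem rot_fl (hf : f ∈ s.M.fl s.vx s.H) : s.M.rot f ∈ s.M.fl s.vx s.H := c_fl hs (b_fl hs hf)

theorem c_rot (hf : f ∈ s.M.S) : s.M.c (s.M.rot f) = s.M.b f :=
  (hs.hm.ok.ic _ (hs.hm.ok.ib f hf).1).2.1

theorem rot_inj (hf : f ∈ s.M.S) (hg : g ∈ s.M.S) (h : s.M.rot f = s.M.rot g) : f = g := by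
  have := congrArg (fun x => s.M.b (s.M.c x)) h
  simpa only [c_rot hs hf, c_rot hs hg, (hs.hm.ok.ib f hf).2.1, (hs.hm.ok.ib g hg).2.1] using this

theorem rot_c_rot (hf : f ∈ s.M.S) : s.M.rot (s.M.c (s.M.rot f)) = s.M.c f := by
  rw [c_rot hs hf, FM.rot, (hs.hm.ok.ib f hf).2.1]

theorem adj_vt {x y : MV} (h : s.G.Adj x y) : y ∈ s.Vt ∧ (x ∈ s.Nd ↔ y ∉ s.Nd) := by
  obtain ⟨-, f, hf, ⟨rfl, rfl⟩ | ⟨rfl, rfl⟩⟩ := h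
  · exact ⟨⟨_, (hs.hm.ok.ia f hf).1, rfl⟩, hs.bip f hf⟩
  · exact ⟨⟨_, hf, rfl⟩, by have := hs.bip f hf; tauto⟩

theorem far_po (hf : f ∈ s.M.fl s.vx s.H) : s.far f ∈ s.Po := by
  have h1 : s.vx f ∉ s.Nd := fun c => by
    obtain ⟨a, ha⟩ := hs.hr.1 hf.2
    obtain ⟨b, hb⟩ := c.2
    exact Sum.inl_ne_inr (hb.trans ha.symm)
  have h2 : s.vx (s.M.a f) ∈ s.Nd := not_not.1 fun c => h1 ((hs.bip f hf.1).2 c)
  obtain ⟨w, hw⟩ := h2.2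
  have e : Sum.inl (s.far f) = s.vx (s.M.a f) := by rw [Sk.far, ← hw]; rfl
  refine ⟨_, hf.2, fun c => h1 ?_, f, hf.1, .inl ⟨rfl, e.symm⟩⟩
  rw [c, e]; exact h2

theorem po_rad {v : W} (h : v ∈ s.Po) : Sum.inl v ∈ s.M.rad s.vx s.H := by
  obtain ⟨x, hx, -, f, hf, ⟨rfl, e⟩ | ⟨e, rfl⟩⟩ := h
  · exact ⟨f, hf, hx, _, Relation.ReflTransGen.single (.inl rfl), e⟩
  · exact ⟨_, (hs.hm.ok.ia f hf).1, hx, f,
      Relation.ReflTransGen.single (.inl (hs.hm.ok.ia f hf).2.1.symm), e⟩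

omit hs in
theorem nd_of {v : W} (h : Sum.inl v ∈ s.T) : Sum.inl v ∈ s.Nd :=
  h.elim id fun c => by obtain ⟨a, ha⟩ := c.1.2; cases ha

end map

section sh

variable {σ : AG} {t : Sh σ}

theorem phi_succ (j : t.ι) (i : ℕ) : t.φ j (i + 1) = t.s.M.rot (t.φ j i) :=
  iterate_succ_apply' _ _ _

theorem phi_fl (ok : t.Ok) (j : t.ι) (i : ℕ) : t.φ j i ∈ t.s.M.fl t.s.vx t.s.H := by
  induction i with
  | zero => exact ok.hole j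
  | succ i ih => rw [phi_succ]; exact rot_fl ok.ok ih

theorem mem_seed {E : Set MV} {C : t.ι → ℕ → Prop} {a : σ.ε} : a ∈ t.seed E C ↔
    t.own a = none ∨ (∃ x ∈ E, t.own a = some (.inl x)) ∨
      ∃ j i, t.sb E C j i ∧ t.own a = some (.inr (j, i)) := by
  simp [Sh.seed, Sh.rest, Sh.ct, Sh.bag, or_assoc]

theorem seed_c {E : Set MV} {C : t.ι → ℕ → Prop} {a : σ.ε} {x : MV}
    (h : t.own a = some (.inl x)) : a ∈ t.seed E C ↔ x ∈ E := by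
  simp [mem_seed, h]

theorem seed_b {E : Set MV} {C : t.ι → ℕ → Prop} {a : σ.ε} {j : t.ι} {i : ℕ}
    (h : t.own a = some (.inr (j, i))) : a ∈ t.seed E C ↔ t.sb E C j i := by
  simp only [mem_seed, h, reduceCtorEq, Option.some.injEq, and_false, exists_false, false_or,
    Sum.inr.injEq, Prod.mk.injEq]
  exact ⟨fun ⟨_, _, h1, h2, h3⟩ => h2 ▸ h3 ▸ h1, fun h => ⟨j, i, h, rfl, rfl⟩⟩

theorem br_l (ok : t.Ok) {E : Set MV} {j : t.ι} {i : ℕ} (h : Sum.inl (t.u j i) ∈ E)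
    (h' : Sum.inl (t.u j (i + 1)) ∉ E) : t.u j (i + 1) ∈ t.s.Br E :=
  ⟨h', _, phi_fl ok j i, h, by rw [← phi_succ]; rfl⟩

theorem br_r (ok : t.Ok) {E : Set MV} {j : t.ι} {i : ℕ} (h : Sum.inl (t.u j (i + 1)) ∈ E)
    (h' : Sum.inl (t.u j i) ∉ E) : t.u j i ∈ t.s.Br E :=
  ⟨h', _, c_fl ok.ok (phi_fl ok j (i + 1)), by rwa [far_c ok.ok (phi_fl ok j _).1],
    by rw [phi_succ, rot_c_rot ok.ok (phi_fl ok j _).1, far_c ok.ok (phi_fl ok j _).1]; rfl⟩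

theorem up {P : ℕ → Prop} {m k : ℕ} (hk : ¬P k) : ∀ n i, i + n = k →
    (i = 0 ∨ i = m ∨ P (i - 1) ∨ P i) →
    ∃ r, i ≤ r ∧ r ≤ k ∧ ¬P r ∧ (r = 0 ∨ r = m ∨ P (r - 1) ∨ P r) := by
  intro n
  induction n with
  | zero => rintro i rfl h; exact ⟨i, le_rfl, le_rfl, hk, h⟩
  | succ n ih =>
    intro i e h
    by_cases c : P i
    · obtain ⟨r, h1, h2⟩ := ih (i + 1) (by omega) (.inr (.inr (.inl c)))
      exact ⟨r, by omega, h2⟩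
    · exact ⟨i, le_rfl, by omega, c, h⟩

theorem down {P : ℕ → Prop} {m k : ℕ} (hk : ¬P k) : ∀ n,
    (k + n + 1 = 0 ∨ k + n + 1 = m ∨ P (k + n + 1 - 1) ∨ P (k + n + 1)) →
    ∃ r, k ≤ r ∧ r ≤ k + n ∧ ¬P r ∧ (r + 1 = 0 ∨ r + 1 = m ∨ P (r + 1 - 1) ∨ P (r + 1)) := by
  intro n
  induction n with
  | zero => exact fun h => ⟨k, le_rfl, le_rfl, hk, h⟩
  | succ n ih =>
    intro h
    by_cases c : P (k + n + 1)
    · obtain ⟨r, h1, h2, h3⟩ := ih (.inr (.inr (.inr c)))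
      exact ⟨r, h1, by omega, h3⟩
    · exact ⟨k + n + 1, by omega, le_rfl, c, h⟩

end sh

section tm

variable {p : Par} (x : TM p)

theorem shr {a : x.σ.ε} {v : W} (hv : v ∈ x.σ.inc a)
    (h : Sum.inl v ∈ x.t.s.Vt ∨ (∃ j, ∃ i ≤ x.t.m j, v ∈ x.t.κ j i) ∨
      ∃ a', x.t.own a' ≠ x.t.own a ∧ x.t.own a' ≠ none ∧ v ∈ x.σ.inc a') :
    (∃ y ∈ x.t.s.Ce, x.t.own a = some (.inl y) ∧ v ∈ x.t.s.nb y) ∨
    (∃ j i, i < x.t.m j ∧ x.t.own a = some (.inr (j, i)) ∧ v ∈ x.t.κ j i ∪ x.t.κ j (i + 1)) ∨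
    (x.t.own a = none ∧ v ∈ x.t.Mk) := by
  obtain ⟨h1, h2, h3⟩ := x.h.ok.share a v ⟨hv, by simp [x.h.lam]⟩ h
  rcases e : x.t.own a with _ | y | ⟨j, i⟩
  · exact .inr (.inr ⟨rfl, h3 e⟩)
  · exact .inl ⟨y, x.h.ok.ownc a y e, rfl, h1 y e⟩
  · exact .inr (.inl ⟨j, i, x.h.ok.ownb a j i e, rfl, h2 j i e⟩)

theorem nlam (v : W) : v ∉ x.t.Λ := by simp [x.h.lam]

theorem kap {j : x.t.ι} {i : ℕ} (hi : i ≤ x.t.m j) {v : W} (h : v ∈ x.t.κ j i)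
    (hv : Sum.inl v ∈ x.t.s.Vt) : v = x.t.u j i := by
  rcases h with h | ⟨l, hl, rfl⟩
  · exact h
  · exact absurd hv ((x.h.ok.inner j i hi l hl).2 (nlam x _))

theorem u_vt (j : x.t.ι) (i : ℕ) : Sum.inl (x.t.u j i) ∈ x.t.s.Vt := by
  obtain ⟨y, -, h⟩ := far_po x.h.ok.ok (phi_fl x.h.ok j i)
  exact (adj_vt x.h.ok.ok h).1

variable {x} {g : ℕ} {B : Fin g × Fin g → Set MV} {X E : Set MV} {C : x.t.ι → ℕ → Prop}

theorem inside (D : x.t.Dead B X E) {v : W} (hv : Sum.inl v ∈ E) {a : x.σ.ε}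
    (ha : v ∈ x.σ.inc a) : a ∈ x.t.seed E C := by
  have nd := nd_of (D.sub hv)
  rcases shr x ha (.inl nd.1) with ⟨y, hy, e, h⟩ | ⟨j, i, hi, e, h | h⟩ | ⟨e, -⟩
  · exact (seed_c e).2 (D.cl _ ⟨hv, nd⟩ y hy h.symm)
  · exact (seed_b e).2 (.inr (.inl (kap x hi.le h nd.1 ▸ hv)))
  · exact (seed_b e).2 (.inr (.inr (kap x hi h nd.1 ▸ hv)))
  · exact mem_seed.2 (.inl e)

/-- a cut vertex of the boundary lies in a cut of the border -/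
theorem cut {v : W} (hE : Sum.inl v ∉ E) {a : x.σ.ε} (ha : a ∉ x.t.seed E C)
    (hv : v ∈ x.σ.inc a) {j : x.t.ι} {i : ℕ} (hi : i ≤ x.t.m j) (h : v ∈ x.t.κ j i)
    (hq : i = 0 ∨ i = x.t.m j ∨ x.t.sb E C j (i - 1) ∨ x.t.sb E C j i) :
    v ∈ ⋃ q ∈ x.t.Bor E C, x.t.κ q.1 q.2 := by
  have ok := x.h.ok
  rcases h with h | ⟨l, hl, rfl⟩
  · exact mem_biUnion (x := (j, i)) ⟨hi, (show v = _ from h) ▸ hE, hq⟩ (.inl h)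
  have nv := (ok.inner j i hi l hl).2 (nlam x _)
  rcases shr x hv (.inr (.inl ⟨j, i, hi, .inr ⟨l, hl, rfl⟩⟩)) with
    ⟨y, -, -, h⟩ | ⟨j', k, hk, e, h⟩ | ⟨e, -⟩
  · exact absurd (adj_vt ok.ok h).1 nv
  · have nk := mt (seed_b (C := C) (E := E) e).2 ha
    obtain ⟨k', k1, k2, h⟩ : ∃ k', k ≤ k' ∧ k' ≤ k + 1 ∧ x.t.β j i l ∈ x.t.κ j' k' :=
      h.elim (fun h => ⟨k, le_rfl, by omega, h⟩) fun h => ⟨k + 1, by omega, le_rfl, h⟩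
    rcases h with h | ⟨l', hl', h⟩
    · exact absurd ((show _ = _ from h) ▸ u_vt x j' k') nv
    obtain ⟨rfl, rfl⟩ := ok.priv j j' i hi k' (by omega) l hl l' hl' (nlam x _) h.symm
    by_cases c : i ≤ k
    · obtain ⟨r, r1, r2, r3, r4⟩ := up nk (k - i) i (by omega) hq
      exact mem_biUnion (x := (j, r)) ⟨by dsimp only; omega, fun c => r3 (.inr (.inl c)), r4⟩
        (.inr ⟨l, hl, ok.conv j l hl i r k' r1 (by omega) (by omega) (nlam x _) h.symm⟩)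
    · obtain ⟨n, rfl⟩ : ∃ n, i = k + n + 1 := ⟨i - k - 1, by omega⟩
      obtain ⟨r, r1, r2, r3, r4⟩ := down nk n hq
      exact mem_biUnion (x := (j, r + 1)) ⟨by dsimp only; omega, fun c => r3 (.inr (.inr c)), r4⟩
        (.inr ⟨l, hl, (ok.conv j l hl k' (r + 1) _ (by omega) (by omega) hi (nlam x _) h).trans h⟩)
  · exact absurd (mem_seed.2 (.inl e)) ha

theorem cell_ne {y : MV} (hy : y ∈ x.t.s.Ce) (hE : y ∈ E) : y ∈ x.t.Sc (x.t.seed E C) := by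
  obtain ⟨a, ha, -⟩ := x.h.cell y hy
  have : a ∈ x.t.ct y := ha ▸ mem_singleton a
  exact ⟨hy, not_disjoint_iff.2 ⟨a, this, (seed_c this).2 hE⟩⟩

theorem sc_sub {y : MV} (hy : y ∈ x.t.Sc (x.t.seed E C)) : y ∈ E := by
  obtain ⟨a, h1, h2⟩ := not_disjoint_iff.1 hy.2
  exact (seed_c h1).1 h2

theorem not_att (D : x.t.Dead B X E) {v : W} (hv : Sum.inl v ∈ E) :
    ¬x.t.Att (x.t.seed E C) v := fun ⟨y, hy, h⟩ =>
  hy.2 (cell_ne hy.1 (D.cl _ ⟨hv, nd_of (D.sub hv)⟩ y hy.1 h.symm))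

theorem br_fin (x : TM p) (E : Set MV) : (x.t.s.Br E).Finite :=
  ((x.h.ok.ok.hm.ok.fin.image fun f => x.t.s.far (x.t.s.M.rot f))).subset
    fun _ ⟨_, f, hf, _, h⟩ => ⟨f, hf.1, h⟩

theorem bor_fin (x : TM p) (E : Set MV) (C : x.t.ι → ℕ → Prop) : (x.t.Bor E C).Finite :=
  (finite_iUnion fun j => (finite_Iic (x.t.m j)).image (Prod.mk j)).subset
    fun q hq => mem_iUnion.2 ⟨q.1, q.2, hq.1, rfl⟩

theorem bor_card {n : ℕ} (pos : ∀ f ∈ x.t.s.M.fl x.t.s.vx x.t.s.H,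
      ∀ f' ∈ x.t.s.M.fl x.t.s.vx x.t.s.H, x.t.s.far f = x.t.s.far f' → f' = f ∨ f' = x.t.s.M.c f)
    (hb : (x.t.s.Br E).ncard ≤ n) (hC : {q : x.t.ι × ℕ | C q.1 q.2}.Finite)
    (hc : {q : x.t.ι × ℕ | C q.1 q.2}.ncard ≤ n) :
    (x.t.Bor E C).ncard ≤ 2 * Fintype.card x.t.ι + 3 * n := by
  have ok := x.h.ok
  let D : Set (x.t.ι × ℕ) := {q | q.2 ≤ x.t.m q.1 ∧ x.t.u q.1 q.2 ∈ x.t.s.Br E}
  have inj : InjOn (fun q : x.t.ι × ℕ => x.t.u q.1 q.2) D := fun q hq r hr e => by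
    obtain ⟨h1, h2⟩ := ok.sep q.1 r.1 q.2 hq.1 r.2 hr.1
    obtain ⟨h3, h4⟩ := h2 ((pos _ (phi_fl ok _ _) _ (phi_fl ok _ _) e).resolve_right h1)
    exact Prod.ext h3 h4
  have hD : D.ncard ≤ n :=
    (ncard_le_ncard_of_injOn _ (fun q hq => hq.2) inj (br_fin x E)).trans hb
  have fD : D.Finite := Finite.of_finite_image ((br_fin x E).subset
    (by rintro _ ⟨q, hq, rfl⟩; exact hq.2)) inj
  have sub : x.t.Bor E C ⊆ (fun j => (j, 0)) '' univ ∪ (fun j => (j, x.t.m j)) '' univ ∪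
      {q : x.t.ι × ℕ | C q.1 q.2} ∪ (fun q => (q.1, q.2 + 1)) '' {q : x.t.ι × ℕ | C q.1 q.2} ∪ D := by
    rintro ⟨j, i⟩ ⟨hi, hE, h⟩
    rcases i with _ | i
    · exact .inl (.inl (.inl (.inl ⟨j, trivial, rfl⟩)))
    rcases h with h | h | (h | h | h) | h | h | h
    · cases h
    · exact .inl (.inl (.inl (.inr ⟨j, trivial, Prod.ext rfl h.symm⟩)))
    · exact .inl (.inr ⟨(j, i), h, rfl⟩)
    · exact .inr ⟨hi, br_l ok h hE⟩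
    · exact absurd h hE
    · exact .inl (.inl (.inr h))
    · exact absurd h hE
    · exact .inr ⟨hi, br_r ok h hE⟩
  have u : (univ : Set x.t.ι).ncard = Fintype.card x.t.ι := by
    rw [ncard_univ, Nat.card_eq_fintype_card]
  have a1 := ncard_image_le (f := fun j : x.t.ι => (j, 0)) (finite_univ (α := x.t.ι))
  have a2 := ncard_image_le (f := fun j : x.t.ι => (j, x.t.m j)) (finite_univ (α := x.t.ι))
  have a3 := ncard_image_le (f := fun q : x.t.ι × ℕ => (q.1, q.2 + 1)) hC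
  refine (ncard_le_ncard sub (((((finite_univ.image _).union (finite_univ.image _)).union hC).union
    (hC.image _)).union fD)).trans ((ncard_union_le _ _).trans ?_)
  refine (Nat.add_le_add_right ((ncard_union_le _ _).trans (Nat.add_le_add_right
    ((ncard_union_le _ _).trans (Nat.add_le_add_right (ncard_union_le _ _) _)) _)) _).trans ?_
  omega

theorem kap_card (x : TM p) (j : x.t.ι) (i : ℕ) :
    (x.t.κ j i).Finite ∧ (x.t.κ j i).ncard ≤ x.t.d j + 1 := by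
  have e : x.t.κ j i = insert (x.t.u j i) (x.t.β j i '' Iio (x.t.d j)) := rfl
  rw [e]
  refine ⟨((finite_Iio _).image _).insert _, (ncard_insert_le _ _).trans (Nat.succ_le_succ ?_)⟩
  exact (ncard_image_le (finite_Iio _)).trans
    (by rw [← Finset.coe_range, ncard_coe_finset, Finset.card_range])

theorem un_card {α β : Type} {S : Set α} (hS : S.Finite) {f : α → Set β} {k : ℕ}
    (h : ∀ a, (f a).ncard ≤ k) : (⋃ a ∈ S, f a).ncard ≤ S.ncard * k := by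
  induction S, hS using Set.Finite.induction_on with
  | empty => simp
  | insert ha hS ih =>
    rw [biUnion_insert, ncard_insert_of_notMem ha hS, Nat.succ_mul, Nat.add_comm]
    exact (ncard_union_le _ _).trans (Nat.add_le_add (h _) ih)

/-- the vertices of the seed that can lie in the grid -/
theorem vs_seed (D : x.t.Dead B X E) {v : W} (hv : v ∈ x.σ.vs (x.t.seed E C))
    (h : Sum.inl v ∈ x.t.s.T \ x.t.s.M.rad x.t.s.vx x.t.s.H) : Sum.inl v ∈ E ∪ X := by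
  have ok := x.h.ok
  obtain ⟨a, ha, hv⟩ := mem_iUnion₂.1 hv
  have vt := (nd_of h.1).1
  have k : ∀ j, ∀ i ≤ x.t.m j, v ∉ x.t.κ j i := fun j i hi c =>
    h.2 (po_rad ok.ok (kap x hi c vt ▸ far_po ok.ok (phi_fl ok j i)))
  rcases shr x hv (.inl vt) with ⟨y, hy, e, c⟩ | ⟨j, i, hi, -, c | c⟩ | ⟨-, c | ⟨f, hf, rfl⟩⟩
  · rcases D.nb y ⟨(seed_c e).1 ha, hy⟩ _ c with c | ⟨w, ⟨-, f, hf, -, h2⟩, c⟩
    · exact c
    · exact absurd (c ▸ po_rad ok.ok (h2 ▸ far_po ok.ok (rot_fl ok.ok hf))) h.2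
  · exact absurd c (k j i hi.le)
  · exact absurd c (k j _ hi)
  · obtain ⟨j, c | c⟩ := mem_iUnion.1 c
    · exact absurd c (k j 0 (Nat.zero_le _))
    · exact absurd c (k j _ le_rfl)
  · exact absurd (po_rad ok.ok (far_po ok.ok hf.1)) h.2

/-- a step inside the dead set -/
theorem step (D : x.t.Dead B X E) (hb : ∀ v, Sum.inl v ∈ E → v ∉ x.σ.bd (x.t.seed E C))
    {y z : MV} (hy : y ∈ E) (hz : z ∈ E) (h : x.t.s.G.Adj y z) :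
    z ∈ x.t.Sc (x.t.seed E C) ∪ Sum.inl '' (x.σ.vs (x.t.seed E C) \ x.σ.bd (x.t.seed E C)) := by
  rcases D.sub hz with c | c
  · obtain ⟨w, rfl⟩ := c.2
    have yc : y ∈ x.t.s.Ce := (D.sub hy).resolve_left fun d => (adj_vt x.h.ok.ok h).2.1 d c
    obtain ⟨⟨a, ha, hw⟩, -⟩ := (x.h.ok.solid y yc).2 h
    exact .inr ⟨w, ⟨mem_biUnion ((seed_c ha).2 hy) hw, hb w hz⟩, rfl⟩
  · exact .inl (cell_ne c hz)

theorem range_of (E : Set MV) (j : x.t.ι) (h : x.t.Pfx E j) : (∀ i ≤ x.t.m j,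
    Sum.inl (x.t.u j i) ∈ E) ∨ ∃ lo hi, lo ≤ hi ∧ hi ≤ x.t.m j ∧
      ∀ i ≤ x.t.m j, Sum.inl (x.t.u j i) ∈ E ↔ i < lo ∨ hi < i := by
  classical
  by_cases c : ∃ i, i ≤ x.t.m j ∧ Sum.inl (x.t.u j i) ∉ E
  swap
  · exact .inl fun i hi => not_not.1 fun d => c ⟨i, hi, d⟩
  have l1 := Nat.find_spec c
  have h1 : Sum.inl (x.t.u j _) ∉ E :=
    Nat.findGreatest_spec (P := fun i => Sum.inl (x.t.u j i) ∉ E) l1.1 l1.2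
  refine .inr ⟨_, _, Nat.le_findGreatest (P := fun i => Sum.inl (x.t.u j i) ∉ E) l1.1 l1.2,
    Nat.findGreatest_le _, fun i hi => ⟨fun d => ?_, fun d => not_not.1 fun e => ?_⟩⟩
  · by_contra! H
    exact (h _ i _ H.1 H.2 (Nat.findGreatest_le _) d).elim l1.2 h1
  · exact d.elim (fun d => Nat.find_min c d ⟨hi, e⟩) fun d =>
      d.not_ge (Nat.le_findGreatest (P := fun i => Sum.inl (x.t.u j i) ∉ E) hi e)

end tm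

end JSeed

open JSeed

theorem seedS : TameS → PosS → SeedS := by
  intro _ _ p x g R B X E C _ _ _ D
  have ok := x.h.ok
  refine ⟨fun v hv ⟨_, a, ha, h⟩ => ha (inside D hv h), ?_⟩
  rintro v ⟨⟨a, ha, hv⟩, a', ha', hv'⟩
  have hE : Sum.inl v ∉ E := fun c => ha' (inside D c hv')
  have ne : x.t.own a' ≠ x.t.own a := fun c => ha' (by rwa [mem_seed, c, ← mem_seed])
  have nn : x.t.own a' ≠ none := fun c => ha' (mem_seed.2 (.inl c))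
  rcases shr x hv (.inr (.inr ⟨a', ne, nn, hv'⟩)) with
    ⟨y, hy, e, h⟩ | ⟨j, i, hi, e, h | h⟩ | ⟨e, h | h⟩
  · rcases D.nb y ⟨(seed_c e).1 ha, hy⟩ _ h with (c | c) | ⟨w, ⟨-, f, hf, h1, h2⟩, c⟩
    · exact absurd c hE
    · exact .inl (.inl ⟨_, c, rfl⟩)
    obtain rfl : w = v := Sum.inl_injective c
    by_cases fx : x.t.s.M.rot f ∈ x.t.Fx
    · exact .inl (.inr ⟨⟨_, fx, h2⟩, hE⟩)
    have : ∃ j, ∃ i ≤ x.t.m j, x.t.s.M.rot f = x.t.φ j i ∨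
        x.t.s.M.rot f = x.t.s.M.c (x.t.φ j i) := by
      by_contra! H
      exact fx ⟨rot_fl ok.ok hf, H⟩
    obtain ⟨j, i, hi, c | c⟩ := this
    · refine .inr (cut hE ha' hv' hi (.inl (by rw [← h2, c]; rfl)) ?_)
      rcases i with _ | i
      · exact .inl rfl
      · rw [phi_succ] at c
        rw [rot_inj ok.ok hf.1 (phi_fl ok j i).1 c] at h1
        exact .inr (.inr (.inl (.inr (.inl h1))))
    · refine .inr (cut hE ha' hv' hi (.inl ?_) (.inr (.inr (.inr (.inr (.inr ?_))))))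
      · rw [← h2, c, far_c ok.ok (phi_fl ok j i).1]; rfl
      · rw [← rot_c_rot ok.ok (phi_fl ok j i).1, ← phi_succ] at c
        rwa [rot_inj ok.ok hf.1 (c_fl ok.ok (phi_fl ok j _)).1 c,
          far_c ok.ok (phi_fl ok j _).1] at h1
  · exact .inr (cut hE ha' hv' hi.le h (.inr (.inr (.inr ((seed_b e).1 ha)))))
  · exact .inr (cut hE ha' hv' hi h (.inr (.inr (.inl ((seed_b e).1 ha)))))
  · obtain ⟨j, h | h⟩ := mem_iUnion.1 h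
    · exact .inr (cut hE ha' hv' (Nat.zero_le _) h (.inl rfl))
    · exact .inr (cut hE ha' hv' le_rfl h (.inr (.inl rfl)))
  · exact .inl (.inr ⟨h, hE⟩)

theorem mkPreS : TameS → BigS → BagS → PosS → SeedS → MkPreS := by
  intro tame bigS bagS posS seed p n
  obtain ⟨N, tame⟩ := tame p
  refine ⟨n + p.c + (2 * N + 3 * n) * (N + 1) + (2 * N + 3 * n) + p.K + 2 * (N + 1),
    n + p.c + (2 * N + 3 * n) * (N + 1) + p.K + 3 * (N + 1) + 1, ?_⟩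
  intro x θ g R T e B X E C md tt hR ctx D hX hB hC hc hm
  obtain ⟨hty, hι, -, -, fM, -, -, -, mk, -, str, -, hb, -⟩ := tame x
  have ok := x.h.ok
  obtain ⟨r1, r2⟩ := ctx.le
  obtain ⟨s1, s2⟩ := seed p x g R B X E C ctx.grid ctx.frame (by omega) D
  have bor : (x.t.Bor E C).ncard ≤ 2 * N + 3 * n :=
    (bor_card (posS _ g R B ok.ok ok.spoke ctx.grid ctx.frame (by omega)).1 hB hC hc).trans
      (by omega)
  have kc : ∀ j i, (x.t.κ j i).ncard ≤ N + 1 := fun j i =>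
    (kap_card x j i).2.trans (Nat.succ_le_succ (hty j).2.2)
  have mc := x.h.marks
  have fs : x.σ.f (x.t.seed E C) ≤ n + p.c + (2 * N + 3 * n) * (N + 1) := by
    have f2 : {v | v ∈ x.t.s.far '' x.t.Fx ∧ Sum.inl v ∉ E} ⊆ x.t.Mk := fun v h => .inr h.1
    refine (ncard_le_ncard s2 (((D.nd.2.image _).union (fM.subset f2)).union
      ((bor_fin x E C).biUnion fun q _ => (kap_card x _ _).1))).trans ((ncard_union_le _ _).trans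
      (Nat.add_le_add ((ncard_union_le _ _).trans (Nat.add_le_add
        ((ncard_image_le D.nd.2).trans hX) ((ncard_le_ncard f2 fM).trans mc))) ?_))
    exact (un_card (bor_fin x E C) fun q => kc q.1 q.2).trans (Nat.mul_le_mul_right _ bor)
  have fb : ∀ j, ∀ i < x.t.m j, x.σ.f (x.t.bag j i) ≤ 2 * (N + 1) := fun j i hi => by
    refine (ncard_le_ncard (hb j i hi).2.1 ((kap_card x _ _).1.union (kap_card x _ _).1)).trans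
      ((ncard_union_le _ _).trans ?_)
    have := kc j i
    have := kc j (i + 1)
    omega
  have sb : ∀ j, ∀ i < x.t.m j, ∀ T' : Tangle x.σ.f θ, x.t.bag j i ∈ T'.sm := fun j i hi T' => by
    refine bagS _ _ x.σ.inc θ N T' _ (fun a => ?_) (hb j i hi).2.2.2.2.2.2.2 ?_
    · refine (((x.σ.pfin a).image Prod.fst).union ((x.σ.pfin a).image Prod.snd)).subset ?_
      rintro v ⟨⟨q, hq, h | h⟩, -⟩
      exacts [.inl ⟨q, hq, h.symm⟩, .inr ⟨q, hq, h.symm⟩]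
    · have : hf x.σ.inc (x.t.bag j i) ≤ _ := fb j i hi
      omega
  have tr : x.t.Tr = ∅ := eq_empty_of_forall_notMem fun q ⟨_, l, _, h⟩ => h (by simp [x.h.lam])
  have toB : ∀ S : Set (x.t.ι × ℕ), (∀ q ∈ S, (q.1, q.2 + 1) ∈ x.t.Bor E C) →
      S.ncard ≤ 2 * N + 3 * n := fun S h =>
    (ncard_le_ncard_of_injOn (fun q : x.t.ι × ℕ => (q.1, q.2 + 1)) h (fun q _ r _ c => by
      simp only [Prod.mk.injEq] at c
      exact Prod.ext c.1 (by omega)) (bor_fin x E C)).trans bor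
  have nw : ∀ j, md j ≠ Md.new := fun j c => by
    rcases hm j with h | h <;> exact absurd (c.symm.trans h.1) (by simp)
  refine ⟨ok, x.h.fc, ctx.grid, ctx.ctl, ctx.frame, fun a ha => mem_seed.2 (.inl ha),
    ⟨?_, by omega⟩, fun j i _ => ⟨fun h a ha => (seed_b ha).2 h, fun h =>
      disjoint_left.2 fun a ha c => h ((seed_b ha).1 c)⟩, fun y hy => ?_,
    ⟨by omega, by omega, by simp [x.h.lam], by simp [tr], fun j => by have := (hty j).2.2; omega⟩,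
    by simp [tr], (toB _ ?_).trans (by omega), (toB _ ?_).trans (by omega), fun y hy => ?_,
    fun j i hi => ⟨sb j i hi T, (fb j i hi).trans (by omega)⟩,
    ⟨∅, by simp, fun y hy T' _ _ h => ?_⟩, fun j _ => ⟨x.h.lam, fun i hi => ⟨sb j i hi, ?_⟩⟩,
    fun j hj => ⟨mk.trans (biUnion_subset_biUnion_left fun a ha => mem_seed.2 (.inl ha)), str,
      nw, ?_⟩⟩
  · obtain ⟨-, b2, -, b4, -⟩ := bigS _ _ g B _ _ ctx.grid sdiff_subset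
    obtain ⟨i, j, hij⟩ := b4 X D.nd.2 (by omega)
    have cs : Cross B i j ⊆ x.t.s.T \ x.t.s.M.rad x.t.s.vx x.t.s.H :=
      iUnion_subset fun k => union_subset (ctx.grid.1 _) (ctx.grid.1 _)
    have c2 := (b2 (X ∪ Sum.inl '' x.t.s.Po)).2.2.2 i j (disjoint_union_right.2 ⟨hij,
      disjoint_left.2 fun z hz ⟨v, hv, c⟩ => (cs hz).2 (c ▸ po_rad ok.ok hv)⟩)
    refine ctx.ctl _ (by omega) ⟨i, j, fun v hv c => (vs_seed D hv (cs c)).elim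
      (fun h => disjoint_left.1 D.off h (c2 c)) (disjoint_left.1 hij c)⟩
  · have yE := sc_sub hy
    refine ⟨fun a ha => (seed_c ha).2 yE, ?_⟩
    obtain ⟨v, ⟨h, hh, hv⟩, vE, lk⟩ := D.lnk y yE
    have sub : x.t.Sc (x.t.seed E C) ∪ Sum.inl '' (x.σ.vs (x.t.seed E C) \ x.σ.bd (x.t.seed E C)) ⊆
        x.t.Sc (x.t.seed E C) ∪ {h} ∪
          Sum.inl '' (x.σ.vs (x.t.seed E C) \ x.σ.bd (x.t.seed E C)) :=
      union_subset_union_left _ subset_union_left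
    refine ⟨h, hh, Link.trans (Link.single (.inl (.inr rfl)) (sub ?_) hv) (Link.map id
      (fun a ha b hb c => Link.single (sub (step D s1 hb ha c.symm)) (sub (step D s1 ha hb c)) c) lk)⟩
    rcases Relation.ReflTransGen.cases_head lk with c | ⟨z, c, -⟩
    · obtain ⟨k, hk⟩ := hy.1.1.2
      exact absurd (c.trans hk.symm) Sum.inl_ne_inr
    · exact step D s1 c.2.1 c.1 c.2.2.symm
  · rintro ⟨j, i⟩ ⟨hi, h⟩
    refine ⟨hi.le, fun c => h ⟨fun _ => .inr (.inl c), fun _ => .inr (.inr c)⟩, .inr (.inr ?_)⟩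
    by_contra! H
    exact h (iff_of_false H.1 H.2)
  · rintro ⟨j, i⟩ ⟨hi, h1, -, -, h⟩
    exact ⟨hi.le, fun c => not_att D c h, .inr (.inr (.inl h1))⟩
  · obtain ⟨a, ha, -⟩ := x.h.cell y hy
    have := (x.h.atoms a trivial).2
    rw [ha]
    exact ⟨(T.tot _ (by omega)).resolve_right (T.atom a), by omega⟩
  · obtain ⟨a, ha, -⟩ := x.h.cell y hy
    exact absurd (ha ▸ h) (T'.atom a)
  · rcases hm j with ⟨-, -, -, h⟩ | ⟨-, h⟩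
    · exact ⟨fun _ => h i ▸ x.h.fits j i hi, fun _ _ _ => (h _).trans (h _).symm⟩
    · exact ⟨fun c => (h i hi c).1, fun h1 c => (h i hi c).2 h1⟩
  · rcases hm j with ⟨-, nC, pf, -⟩ | ⟨h, -⟩
    swap
    · exact absurd (hj.symm.trans h) (by simp)
    rcases range_of E j pf with h | ⟨lo, hi, h1, h2, h⟩
    · exact ⟨0, 0, le_rfl, Nat.zero_le _, fun i hi => iff_of_true (.inr (.inl (h i hi.le)))
        (.inr (Nat.zero_le _)), fun i hi _ => not_att D (h i hi), fun i _ c => absurd c (by omega)⟩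
    refine ⟨lo, hi, h1, h2, fun i hi' => ?_, fun i hi' c => not_att D ((h i hi').2 c),
      fun i c1 c2 c => ?_⟩
    · rw [Sh.sb, h i hi'.le, h (i + 1) hi', or_iff_right (nC i)]
      omega
    · have := D.lk j i (by omega) (sc_sub c)
      rw [h i (by omega), h (i + 1) (by omega)] at this
      omega

end Pool.Agent.MP_9d78a0_co.gm

end MrgPart0

-- ======== part 1: formerly Pool.Agent.MP_9d78a0_co.gm.SpecF
section MrgPart1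

/-! Block F: definitions and statements. -/

set_option autoImplicit false

namespace Pool.Agent.MP_9d78a0_co.gm

open Set Function

namespace Sh

variable {σ : AG} (t : Sh σ)

/-- a node lies on one spoke at most -/
structure Up : Prop where
  one : ∀ f ∈ t.s.M.fl t.s.vx t.s.H, ∀ g ∈ t.s.M.fl t.s.vx t.s.H,
    t.s.vx (t.s.M.a f) = t.s.vx (t.s.M.a g) → t.s.vx f = t.s.vx g
  pos : ∀ j j', ∀ i ≤ t.m j, ∀ i' ≤ t.m j', t.u j i = t.u j' i' → j = j' ∧ i = i'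
  fx : ∀ f ∈ t.Fx, ∀ j, ∀ i ≤ t.m j, t.s.far f ≠ t.u j i

/-- the entry of lane `l` in cut `i`; lane `d` runs through the nodes -/
def ent (j : t.ι) (i l : ℕ) : W := if l < t.d j then t.β j i l else t.u j i

open Classical in
/-- the territory of lane `l` at bag `i` -/
def ter (j : t.ι) (i l : ℕ) : Set W :=
  if l < t.d j ∨ t.lk j i ∈ t.s.Rm then t.L j i l
  else {t.u j i, t.u j (i + 1)} ∪ σ.vs (t.ct (t.lk j i)) \ (t.Λ ∪ t.s.nb (t.lk j i))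

/-- lane `l` passes bag `i` -/
def Act (j : t.ι) (i l : ℕ) : Prop :=
  i < t.m j ∧ l ≤ t.d j ∧ t.ent j i l ∉ t.Λ ∧ t.ent j (i + 1) l ∉ t.Λ

/-- contents of cells and bags -/
def Part (P : Set σ.ε) : Prop := (∃ x ∈ t.s.Ce, P = t.ct x) ∨ ∃ j, ∃ i < t.m j, P = t.bag j i

/-- the same map and sides with other vertices and owners -/
def re (σ' : AG) (Λ' : Set W) (β' : t.ι → ℕ → ℕ → W) (L' : t.ι → ℕ → ℕ → Set W)
    (own' : σ'.ε → Option (MV ⊕ t.ι × ℕ)) : Sh σ' :=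
  ⟨t.s, Λ', t.ι, t.fin, t.m, t.d, t.φ0, β', L', own'⟩

/-- different sides have different inner vertices -/
def Px : Prop := ∀ j j', ∀ i ≤ t.m j, ∀ i' ≤ t.m j', ∀ l < t.d j, ∀ l' < t.d j',
  t.β j i l = t.β j' i' l' → j = j'

/-- basic facts on cuts, parts and territories -/
structure Ter : Prop where
  cut : ∀ j i, t.κ j i = {v | ∃ l ≤ t.d j, t.ent j i l = v} ∧ (t.κ j i).Finite ∧
    (t.κ j i).ncard ≤ t.d j + 1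
  node : ∀ j, ∀ i ≤ t.m j, Sum.inl (t.u j i) ∈ t.s.Nd ∧ t.φ j i ∈ t.s.M.fl t.s.vx t.s.H ∧
    t.s.vx (t.φ j i) = t.s.vx (t.φ0 j) ∧ t.u j i ∈ t.s.nb (t.s.vx (t.φ0 j))
  lk : ∀ j, ∀ i < t.m j, t.u j i ∈ t.s.nb (t.lk j i) ∧ t.u j (i + 1) ∈ t.s.nb (t.lk j i) ∧
    (t.lk j i ∈ t.s.Rm → t.s.nb (t.lk j i) = {t.u j i, t.u j (i + 1)} ∧
      t.u j i ∈ σ.vs (t.bag j i) ∧ t.u j (i + 1) ∈ σ.vs (t.bag j i))
  bdc : ∀ x, σ.bd (t.ct x) ⊆ t.s.nb x ∪ t.Λ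
  bdb : ∀ j i, σ.bd (t.bag j i) ⊆ t.κ j i ∪ t.κ j (i + 1) ∪ t.Λ
  mkn : ∀ v ∈ t.Mk, Sum.inl v ∈ t.s.Vt → v ∈ t.s.Po
  link : ∀ j i l, t.Act j i l → Link (gr (σ.un univ)) (t.ter j i l) (t.ent j i l) (t.ent j (i + 1) l) ∧
    t.ent j i l ∈ t.ter j i l ∧ t.ent j (i + 1) l ∈ t.ter j i l ∧ t.ter j i l ⊆ Od \ t.Λ
  meet : ∀ j i l j' i' l', t.Act j i l → t.Act j' i' l' → ∀ z ∈ t.ter j i l ∩ t.ter j' i' l',
    j = j' ∧ l = l' ∧ ∀ k, i < k → k ≤ i' → z = t.ent j k l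
  inb : ∀ j i l, t.Act j i l → ∀ z ∈ t.ter j i l, ∀ j' i', z ∈ σ.vs (t.bag j' i') →
    j' = j ∧ (∀ k, i < k → k ≤ i' → z = t.ent j k l) ∧ ∀ k, i' < k → k ≤ i → z = t.ent j k l
  inc : ∀ j i l, t.Act j i l → ∀ z ∈ t.ter j i l, ∀ x, z ∈ σ.vs (t.ct x) →
    l = t.d j ∧ (z = t.u j i ∨ z = t.u j (i + 1) ∨ (x = t.lk j i ∧ z ∉ t.s.nb x))
  inr : ∀ j i l, t.Act j i l → ∀ z ∈ t.ter j i l, z ∈ σ.vs t.rest →
    (∀ k ≤ i, z = t.ent j k l) ∨ ∀ k ≤ t.m j, i < k → z = t.ent j k l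
  ink : ∀ j i l, t.Act j i l → ∀ z ∈ t.ter j i l, ∀ j', ∀ k ≤ t.m j', z ∈ t.κ j' k →
    j' = j ∧ z = t.ent j k l
  pay : ∀ (D : Set σ.ε) j l i0 i1, i0 ≤ i1 → (∀ i, i0 ≤ i → i < i1 → t.Act j i l) →
    ¬ (t.ent j i0 l ∈ σ.vs D ↔ t.ent j i1 l ∈ σ.vs D) →
    ∃ i, i0 ≤ i ∧ i < i1 ∧ (t.ter j i l ∩ σ.bd D).Nonempty

/-- `P` is a connected set of the bag that joins `v` and `w` and misses `Q` -/
def Ln (Q : Set W) (j : t.ι) (i : ℕ) (P : Set W) (v w : W) : Prop :=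
  Conn (gr (σ.un (t.bag j i))) P ∧ v ∈ P ∧ w ∈ P ∧ P ⊆ (σ.vs (t.bag j i) ∪ {v}) \ Q

/-- the axioms of a structure before the renaming: `Q j` are the vertices that get names in the
side `j`, the end cuts of different sides may meet, and the rest is the core -/
structure Mid (Q : t.ι → Set W) : Prop where
  ok : t.s.Ok
  spoke : t.s.Spk
  len : ∀ j, 0 < t.m j
  hole : ∀ j, t.φ0 j ∈ t.s.M.fl t.s.vx t.s.H
  sep : ∀ j j', ∀ i ≤ t.m j, ∀ i' ≤ t.m j', t.φ j' i' ≠ t.s.M.c (t.φ j i) ∧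
    (t.φ j' i' = t.φ j i → j = j' ∧ i = i')
  quad : ∀ j, ∀ i < t.m j, t.s.Quad (t.φ j i) ∧ t.lk j i ∈ t.s.Rm ∪ t.s.Ce
  lkinj : ∀ j j', ∀ i < t.m j, ∀ i' < t.m j', t.lk j i = t.lk j' i' → j = j' ∧ i = i'
  rim : ∀ y ∈ t.s.Rm ∩ t.s.Vt, ∃ j, ∃ i < t.m j, t.lk j i = y
  ownc : ∀ a x, t.own a = some (Sum.inl x) → x ∈ t.s.Ce
  ownb : ∀ a j i, t.own a = some (Sum.inr (j, i)) → i < t.m j
  lam : t.Λ ⊆ Od ∧ t.Λ.Finite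
  lamn : ∀ v ∈ t.Λ, Sum.inl v ∈ t.s.Vt → v ∈ t.s.far '' t.Fx
  nm : ∀ j, t.Λ ⊆ Q j ∧ Q j ⊆ Od ∧ (Q j).Finite ∧ ∀ v ∈ Q j, Sum.inl v ∈ t.s.Vt → v ∈ t.Λ
  ulam : ∀ j, ∀ i ≤ t.m j, t.u j i ∉ t.Λ
  inner : ∀ j, ∀ i ≤ t.m j, ∀ l < t.d j, t.β j i l ∈ Od ∧ Sum.inl (t.β j i l) ∉ t.s.Vt ∧
    t.β j i l ∉ Q j
  priv : ∀ j, ∀ i ≤ t.m j, ∀ i' ≤ t.m j, ∀ l < t.d j, ∀ l' < t.d j, t.β j i l = t.β j i' l' → l = l'
  conv : ∀ j, ∀ l < t.d j, ∀ i k i', i ≤ k → k ≤ i' → i' ≤ t.m j → t.β j i l = t.β j i' l →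
    t.β j k l = t.β j i l
  bdc : ∀ x, σ.bd (t.ct x) ⊆ t.s.nb x ∪ t.Λ
  ndc : ∀ x, ∀ v ∈ σ.vs (t.ct x) \ t.Λ, Sum.inl v ∈ t.s.Vt → v ∈ t.s.nb x
  shb : ∀ j, ∀ i < t.m j, ∀ v ∈ σ.vs (t.bag j i) \ Q j, v ∈ t.κ j i ∪ t.κ j (i + 1) ∨
    (Sum.inl v ∉ t.s.Vt ∧ v ∉ σ.vs (t.bag j i)ᶜ ∧ ∀ k ≤ t.m j, v ∉ t.κ j k)
  mid : ∀ j, ∀ i ≤ t.m j, ∀ l < t.d j, t.β j i l ∉ t.κ j 0 ∪ t.κ j (t.m j) →
    t.β j i l ∉ σ.vs (⋃ k, t.bag j k)ᶜ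
  node : ∀ v, Sum.inl v ∈ t.s.Vt → v ∈ σ.vs t.restᶜ ∧ (v ∈ t.Mk ∨ v ∉ σ.vs t.rest)
  solid : ∀ x ∈ t.s.Ce, Solid (σ.un (t.ct x)) (t.s.nb x) (t.Λ \ t.s.nb x) ∧
    t.s.nb x ⊆ σ.bd (t.ct x)
  lane : ∀ j, ∀ i < t.m j, ∀ l < t.d j, t.Ln (Q j) j i (t.L j i l) (t.β j i l) (t.β j (i + 1) l) ∧
    t.u j i ∉ t.L j i l ∧ t.u j (i + 1) ∉ t.L j i l
  path : ∀ j, ∀ i < t.m j, t.lk j i ∈ t.s.Rm →
    t.Ln (Q j) j i (t.L j i (t.d j)) (t.u j i) (t.u j (i + 1))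
  ldis : ∀ j, ∀ i < t.m j, ∀ l ≤ t.d j, ∀ l' ≤ t.d j, l ≠ l' → Disjoint (t.L j i l) (t.L j i l')
  lent : ∀ j, ∀ i < t.m j, ∀ l ≤ t.d j, ∀ l' < t.d j, l ≠ l' →
    t.β j i l' ∉ t.L j i l ∧ t.β j (i + 1) l' ∉ t.L j i l
  move : ∀ j, ∀ l < t.d j, t.β j 0 l ≠ t.β j (t.m j) l

/-- ready for the renaming: cells are atoms, and all atoms outside the core have labels -/
structure Rdy (Q : t.ι → Set W) (A : Set Lab) (K ν n : ℕ) : Prop where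
  mid : t.Mid Q
  atom : ∀ x ∈ t.s.Ce, ∃ a, t.ct x = {a}
  rob : ∀ j i, ∀ a ∈ t.bag j i, Robust (σ.pc a) (σ.bd {a}) ∧ Q j ∩ σ.inc a ⊆ σ.bd {a}
  root : ∀ x, ∀ a ∈ t.ct x, t.Λ ∩ σ.inc a ⊆ σ.bd {a}
  two : ∀ v ∈ t.Mk, ∀ a ∉ t.rest, v ∈ σ.inc a → v ∈ σ.bd {a}
  ovr : σ.Over t.restᶜ A K
  wid : ∀ j, ∀ i < t.m j, Wd σ.inc (t.bag j i) K
  names : ∀ a i, Sum.inr i ∈ VV (σ.pc a) → i < ν
  cnt : Fintype.card t.ι ≤ n ∧ t.Mk.ncard ≤ n ∧ t.Λ.ncard ≤ n ∧ ∀ j, (Q j).ncard ≤ n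

end Sh

/-- labels that arise by renaming, by naming roots with names below `n`, and by a choice of at
most `k` roots -/
def Nam (A : Set Lab) (n k : ℕ) : Set Lab :=
  {l | l.2.length ≤ k ∧ ∃ (X : Pc) (ρ : List W) (r : W → W), Mem A (X, ρ) ∧ ρ.length ≤ k ∧
    (∀ i, r (Sum.inr i) = Sum.inr i) ∧ InjOff r X ({v | v ∈ ρ} ∪ Nm) ∧
    (∀ v ∈ ρ, r v ∈ Od ∨ ∃ i < n, r v = Sum.inr i) ∧ l.1 = ren r X ∧ ∀ v ∈ l.2, ∃ u ∈ ρ, r u = v}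

/-- pendant edges to the names below `n` -/
def Pen (n : ℕ) : Set Lab :=
  {l | ∃ i < n, l.1 = {(Sum.inl 0, Sum.inr i)} ∧ (l.2 = [Sum.inl 0] ∨ l.2 = [])}

/-- the renamed structure -/
structure Blt {τ : AG} (t : Sh τ) (Q : t.ι → Set W) (A : Set Lab) (K ν n' : ℕ) (O : Set τ.ε)
    (ρO : List W) (σ' : AG) (β' : t.ι → ℕ → ℕ → W) (L' : t.ι → ℕ → ℕ → Set W)
    (own' : σ'.ε → Option (MV ⊕ t.ι × ℕ)) (mk' : W → ℕ) (ρN : List W) (P : Set ℕ) (π : W → W) :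
    Prop where
  rob : σ'.Rob
  ok : (t.re σ' ∅ β' L' own').Ok
  len : ρN.length ≤ n'
  marks : (t.re σ' ∅ β' L' own').Mk.ncard ≤ n' ∧
    (t.Px → (t.re σ' ∅ β' L' own').Mk.ncard ≤ t.Mk.ncard)
  atoms : σ'.Over univ (Nam A (ν + n') (K + 3) ∪ Pen (ν + n')) (K + 3)
  names : ∀ a i, Sum.inr i ∈ VV (σ'.pc a) → i < ν + n'
  cell : ∀ x ∈ t.s.Ce, ∃ a, (t.re σ' ∅ β' L' own').ct x = {a} ∧
    (∀ ρ ∈ t.s.Rd x, (σ'.pc a, ρ) ∈ Nam A (ν + n') (K + 3)) ∧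
    (τ.vs (t.ct x) ∩ t.Λ ⊆ t.s.nb x → σ'.pc a = τ.un (t.ct x))
  fits : ∀ j, ∀ i < t.m j, Wd σ'.inc ((t.re σ' ∅ β' L' own').bag j i) K ∧
    ∀ y, t.Fits j i y → Disjoint (Q j) (τ.vs (t.bag j i)) → (t.re σ' ∅ β' L' own').Fits j i y
  move : ∀ j, ∀ l < t.d j, β' j 0 l ≠ β' j (t.m j) l
  pend : ∀ a ∈ (t.re σ' ∅ β' L' own').rest, ∃ v ∈ (t.re σ' ∅ β' L' own').Mk,
    σ'.pc a = {(v, Sum.inr (mk' v))}
  pex : ∀ v ∈ (t.re σ' ∅ β' L' own').Mk, ∃ a ∈ (t.re σ' ∅ β' L' own').rest,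
    σ'.pc a = {(v, Sum.inr (mk' v))} ∧ ∀ a', Sum.inr (mk' v) ∈ VV (σ'.pc a') → a' = a
  desc : Desc ν P (τ.un Oᶜ) ρO (τ.un (t.rest \ O)) ρN (σ'.un univ) π
  roots : τ.bd (t.rest \ O) ⊆ {v | v ∈ ρO ++ ρN} ∧ ∀ v ∈ ρN, v ∈ τ.vs t.restᶜ

/-- the hull of the seed and the tangles that are cut off -/
structure Hull {σ : AG} {θ : ℕ} (T : Tangle σ.f θ) (e : σ.ε) (t : Sh σ) (Sd : Set σ.ε)
    (md : t.ι → Md) (n : ℕ) (Ws : Set σ.ε) (N : Set (Tangle σ.f θ)) : Prop where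
  sm : Ws ∈ T.sm ∧ σ.f Ws ≤ n ∧ Sd ⊆ Ws
  max : ∀ U ∈ T.sm, Ws ⊆ U → σ.f U ≤ σ.f Ws → U = Ws
  least : t.Str → ∀ U, Sd ⊆ U → U ⊆ Ws →
    (∀ j, md j = Md.new → ∀ i, t.bag j i ⊆ Ws → t.bag j i ⊆ U) → σ.f Ws ≤ σ.f U
  lam : ¬ t.Str → t.Λ ∩ σ.vs univ ⊆ σ.vs Ws
  nt : T ∉ N
  mem : ∀ T' : Tangle σ.f θ, (Wsᶜ ∈ T'.sm ∨ ∃ P, t.Part P ∧ Pᶜ ∈ T'.sm) → T' ∈ N
  cut : ∀ C ∈ Cut e T N, σ.f C ≤ n ∧ (C ⊆ Ws ∨ (e ∉ C ∧ Disjoint C Ws ∧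
    ((∃ x ∈ t.s.Ce, C ⊆ t.ct x) ∨ ∃ j, md j = Md.new ∧ ∃ i < t.m j, C ⊆ t.bag j i ∧
      σ.vs C ∩ (t.Λ ∪ t.κ j i ∪ t.κ j (i + 1)) ⊆ σ.bd C)))

/-- all data -/
structure Dat where
  σ : AG
  θ : ℕ
  g : ℕ
  w : ℕ
  R : ℕ
  n : ℕ
  T : Tangle σ.f θ
  e : σ.ε
  t : Sh σ
  Sd : Set σ.ε
  Sb : t.ι → ℕ → Prop
  md : t.ι → Md
  tt : t.ι → ℕ → Ty
  B : Fin g × Fin g → Set MV
  U0 : Set MV
  Ws : Set σ.ε
  N : Set (Tangle σ.f θ)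
  Cc : Set MV

/-- a new side: first bag, length, depth, inner vertices, lanes, named vertices -/
structure Run where
  lo : ℕ
  m : ℕ
  d : ℕ
  β : ℕ → ℕ → W
  L : ℕ → ℕ → Set W
  Q : Set W

namespace Dat

variable (D : Dat)

/-- boundary and vertices of the hull; cells in the hull, kept cells, exposed vertices -/
def Bd : Set W := D.σ.bd D.Ws
def Vw : Set W := D.σ.vs D.Ws
def Ci : Set MV := {x | x ∈ D.t.s.Ce ∧ D.t.ct x ⊆ D.Ws}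
def Ck : Set MV := D.t.s.Ce \ (D.Ci ∪ D.Cc)
def E : Set W := D.Bd ∪ ⋃ x ∈ D.Cc, D.t.s.nb x

/-- the cells that go to the core although they are not in the hull -/
structure CcOk : Prop where
  sub : D.Cc ⊆ D.t.s.Ce
  card : D.Cc.ncard ≤ 2 * D.n
  str : D.t.Str → D.Cc = ∅
  ins : ∀ x ∈ D.Ck, D.Bd ∩ D.σ.vs (D.t.ct x) ⊆ D.t.Λ ∪ D.t.s.nb x
  nodes : ∀ x ∈ D.t.s.Ce, ∀ v ∈ D.t.s.nb x ∩ D.σ.vs (D.t.ct x ∩ D.Ws),
    ∃ x' ∈ D.Ci ∪ D.Cc, v ∈ D.t.s.nb x'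

/-- the kept cells -/
structure Kc : Prop where
  fin : D.E.Finite ∧ D.E.ncard ≤ 7 * D.n ∧ D.Bd.Finite ∧ D.Bd.ncard ≤ D.n
  solid : ∀ x ∈ D.Ck, Solid (D.σ.un (D.t.ct x \ D.Ws)) (D.t.s.nb x) (D.t.Λ \ D.t.s.nb x)
  bd : ∀ x ∈ D.Ck, D.σ.bd (D.t.ct x \ D.Ws) =
    D.t.s.nb x ∪ D.t.Λ ∩ D.σ.vs (D.t.ct x \ D.Ws)
  out : ∀ x ∈ D.Ck, D.t.s.nb x ∩ D.Vw ⊆ D.Bd ∧ x ∉ D.t.Sc D.Sd
  ins : ∀ x ∈ D.Ci, D.t.s.nb x ⊆ D.Vw

/-- the standing assumptions -/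
structure Ok : Prop where
  pre : Pre D.T D.e D.t D.Sd D.Sb D.md D.tt D.B D.w D.R
  frame : D.t.s.M.Frame D.t.s.vx D.B D.t.s.H D.R D.U0
  up : D.t.Up
  ter : D.t.Ter
  hull : Hull D.T D.e D.t D.Sd D.md D.n D.Ws D.N
  num : D.w ≤ D.n ∧ 4 * D.n + 4 ≤ D.R ∧ 4 * D.n + 4 ≤ D.g ∧ 4 * D.n + 4 ≤ D.θ
  cc : D.CcOk
  kc : D.Kc

/-- the large component off the boundary of the hull and off `Y` -/
def K (Y : Set MV) : Set MV := D.t.s.bg D.B (Sum.inl '' D.Bd ∪ Y)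

/-- rims whose path meets the hull -/
def brk : Set MV := {y | y ∈ D.t.s.Rm ∧ ∃ j, ∃ i < D.t.m j, D.t.lk j i = y ∧
  ¬ Disjoint (D.t.L j i (D.t.d j)) D.Vw}

/-- holes, cells in the hull, nodes in its interior -/
def tr : Set MV := (D.t.s.H ∩ D.t.s.Vt) ∪ D.Ci ∪ (Sum.inl '' (D.Vw \ D.Bd) ∩ D.t.s.Vt)

/-- the trace of the hull hangs at the holes and misses the large component -/
structure Kf : Prop where
  att : ∀ v ∈ D.Bd, Sum.inl v ∈ D.t.s.Vt → ∃ h ∈ D.t.s.H ∩ D.t.s.Vt,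
    ∃ y ∈ fb.cp D.t.s.G D.tr h, D.t.s.G.Adj (Sum.inl v) y
  away : Disjoint D.U0 (D.Ci ∪ Sum.inl '' D.Vw)
  hole : D.Ci.Nonempty → (D.t.s.H ∩ D.t.s.Vt).Nonempty
  bk : D.brk ⊆ D.t.s.Rm ∩ D.t.s.Vt
  big : ∀ Y, D.brk ⊆ Y → Y ⊆ D.t.s.Rm ∩ D.t.s.Vt →
    Disjoint (D.K Y) (D.Ci ∪ Sum.inl '' D.Vw ∪ Y) ∧ Conn D.t.s.G (D.K Y) ∧ D.U0 ⊆ D.K Y ∧
    D.K Y ⊆ D.t.s.Vt \ D.t.s.H ∧ (∃ i j, Cross D.B i j ⊆ D.K Y) ∧
    ∀ x ∈ D.K Y, ∀ y, D.t.s.G.Adj x y → y ∈ D.K Y ∪ D.t.s.H ∪ Sum.inl '' D.Bd ∪ Y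

/-- the position is in or next to the large component -/
def Live (j : D.t.ι) (i : ℕ) : Prop :=
  Sum.inl (D.t.u j i) ∈ D.K D.brk ∨ ∃ y ∈ D.K D.brk, D.t.s.G.Adj (Sum.inl (D.t.u j i)) y

/-- a set that starts between two live positions and avoids them stays between them -/
def Xf : Prop :=
  ∀ j a i b (S : Set MV), a < i → i < b → b ≤ D.t.m j → D.Live j a → D.Live j b →
    S ⊆ D.t.s.Vt \ D.t.s.H → Conn D.t.s.G S →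
    Disjoint S (D.K D.brk ∪ {Sum.inl (D.t.u j a), Sum.inl (D.t.u j b)}) →
    Sum.inl (D.t.u j i) ∈ S → ∀ v ∈ D.t.s.Po, Sum.inl v ∈ S → ∃ k, a < k ∧ k < b ∧ v = D.t.u j k

/-- the dead ends of the sides lie in the hull -/
def Df : Prop :=
  ∀ j, (∀ i < D.t.m j, (∀ k ≤ i, ¬ D.Live j k) ∨ (∀ k ≤ D.t.m j, i < k → ¬ D.Live j k) →
      D.t.bag j i ⊆ D.Ws) ∧
    ∀ i ≤ D.t.m j, (∀ k ≤ i, ¬ D.Live j k) ∨ (∀ k ≤ D.t.m j, i ≤ k → ¬ D.Live j k) →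
      ∀ x ∈ D.t.s.Ce, D.t.u j i ∈ D.t.s.nb x → x ∈ D.Ci

/-- the cut misses the hull -/
def Clear (j : D.t.ι) (i : ℕ) : Prop := i ≤ D.t.m j ∧ Disjoint (D.t.κ j i) D.Vw

/-- the vertices of the bags `a`, ..., `b - 1` and of their cuts -/
def Reg (j : D.t.ι) (a b : ℕ) : Set W :=
  {v | ∃ i, a ≤ i ∧ i < b ∧ v ∈ D.σ.vs (D.t.bag j i) ∪ D.t.κ j i ∪ D.t.κ j (i + 1)}

/-- the live part of a kept side -/
structure Kp (j : D.t.ι) (a i b : ℕ) : Prop where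
  ord : a < i ∧ i < b ∧ b ≤ D.t.m j
  seed : ∀ k, a ≤ k → k < b → ¬ D.Sb j k
  ends : D.t.κ j a ∪ D.t.κ j b ⊆ D.Vw ∧ D.t.u j a ∈ D.Bd ∧ D.t.u j b ∈ D.Bd
  cnt : (D.Bd ∩ D.Reg j a b).ncard ≤ 2 * (D.t.d j + 1)
  outb : ∀ k < D.t.m j, k < a ∨ b ≤ k → D.t.bag j k ⊆ D.Ws
  outc : ∀ k ≤ D.t.m j, k < a ∨ b < k → ∀ x ∈ D.Ck, D.t.u j k ∉ D.t.s.nb x

/-- bags, nodes, cuts and roots of a new side -/
def bg (j : D.t.ι) (r : Run) (i : ℕ) : Set D.σ.ε := D.t.bag j (r.lo + i) \ D.Ws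
def ru (j : D.t.ι) (r : Run) (i : ℕ) : W := D.t.u j (r.lo + i)
def rk (j : D.t.ι) (r : Run) (i : ℕ) : Set W := {D.ru j r i} ∪ {v | ∃ l < r.d, r.β i l = v}
def rl (j : D.t.ι) (r : Run) (i : ℕ) : List W :=
  (D.ru j r i :: (List.range r.d).map (r.β i)) ++
    (D.ru j r (i + 1) :: (List.range r.d).map (r.β (i + 1)))

/-- a lane of a new side -/
def Ln (j : D.t.ι) (r : Run) (i : ℕ) (P : Set W) (v w : W) : Prop :=
  Conn (gr (D.σ.un (D.bg j r i))) P ∧ v ∈ P ∧ w ∈ P ∧ P ⊆ (D.σ.vs (D.bg j r i) ∪ {v}) \ r.Q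

/-- the axioms of a new side -/
structure RunOk (j : D.t.ι) (r : Run) : Prop where
  len : 0 < r.m ∧ r.lo + r.m ≤ D.t.m j
  dep : r.d ≤ D.t.d j
  seed : ∀ i < r.m, ¬ D.Sb j (r.lo + i)
  lk : ∀ i < r.m, D.t.lk j (r.lo + i) ∈ D.t.s.Rm ∪ D.Ck
  nm : D.t.Λ ⊆ r.Q ∧ r.Q ⊆ Od ∧ r.Q.Finite ∧ r.Q.ncard ≤ 2 * D.w ∧
    ∀ v ∈ r.Q \ D.t.Λ, Sum.inl v ∉ D.t.s.Vt ∧ ∃ i ≤ D.t.m j, v ∈ D.t.κ j i
  inner : ∀ i ≤ r.m, ∀ l < r.d, r.β i l ∈ Od ∧ Sum.inl (r.β i l) ∉ D.t.s.Vt ∧ r.β i l ∉ r.Q ∧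
    r.β i l ∈ D.σ.vs (⋃ k, D.t.bag j k) ∧ (r.β i l ∈ D.Bd ∨ ∃ k ≤ D.t.m j, r.β i l ∈ D.t.κ j k)
  priv : ∀ i ≤ r.m, ∀ i' ≤ r.m, ∀ l < r.d, ∀ l' < r.d, r.β i l = r.β i' l' → l = l'
  conv : ∀ l < r.d, ∀ i k i', i ≤ k → k ≤ i' → i' ≤ r.m → r.β i l = r.β i' l → r.β k l = r.β i l
  shb : ∀ i < r.m, ∀ v ∈ D.σ.vs (D.bg j r i) \ r.Q, v ∈ D.rk j r i ∪ D.rk j r (i + 1) ∨
    (Sum.inl v ∉ D.t.s.Vt ∧ v ∉ D.σ.vs (D.bg j r i)ᶜ ∧ ∀ k ≤ r.m, v ∉ D.rk j r k)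
  mid : ∀ i ≤ r.m, ∀ l < r.d, r.β i l ∉ D.rk j r 0 ∪ D.rk j r r.m →
    r.β i l ∉ D.σ.vs (⋃ k < r.m, D.bg j r k)ᶜ
  midu : ∀ i, 0 < i → i < r.m → D.ru j r i ∉ D.E ∪ D.Vw
  endu : ∀ i ≤ r.m, D.ru j r i ∉ D.Vw \ D.Bd
  lane : ∀ i < r.m, ∀ l < r.d, D.Ln j r i (r.L i l) (r.β i l) (r.β (i + 1) l) ∧
    D.ru j r i ∉ r.L i l ∧ D.ru j r (i + 1) ∉ r.L i l
  path : ∀ i < r.m, D.t.lk j (r.lo + i) ∈ D.t.s.Rm →
    D.Ln j r i (r.L i r.d) (D.ru j r i) (D.ru j r (i + 1))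
  ldis : ∀ i < r.m, ∀ l ≤ r.d, ∀ l' ≤ r.d, l ≠ l' → Disjoint (r.L i l) (r.L i l')
  lent : ∀ i < r.m, ∀ l ≤ r.d, ∀ l' < r.d, l ≠ l' →
    r.β i l' ∉ r.L i l ∧ r.β (i + 1) l' ∉ r.L i l
  move : ∀ l < r.d, r.β 0 l ≠ r.β r.m l

/-- the new side has the depth of the old one, and its letters are below the old letters -/
def Full (j : D.t.ι) (r : Run) : Prop :=
  D.md j ≠ Md.new ∧ r.d = D.t.d j ∧ ∀ i < r.m, Disjoint r.Q (D.σ.vs (D.bg j r i)) ∧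
    Le (D.σ.un (D.bg j r i), D.rl j r i) (D.t.letter j (r.lo + i))

/-- the new sides that come from one old side -/
structure Plan (j : D.t.ι) (Rs : Set Run) (n' : ℕ) : Prop where
  fin : Rs.Finite ∧ Rs.ncard ≤ n'
  ok : ∀ r ∈ Rs, D.RunOk j r
  sep : ∀ r ∈ Rs, ∀ r' ∈ Rs, r ≠ r' → r.lo + r.m < r'.lo ∨ r'.lo + r'.m < r.lo
  few : {i | i ≤ D.t.m j ∧ (∃ x ∈ D.Ck, D.t.u j i ∈ D.t.s.nb x) ∧
    ∀ r ∈ Rs, i < r.lo ∨ r.lo + r.m < i}.ncard ≤ n'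
  ty : ∀ r ∈ Rs, (D.Full j r ∧ (D.md j = Md.keep → Rs = {r})) ∨ (D.md j ≠ Md.new → r.d < D.t.d j)
  mark : D.md j = Md.keep → ∀ r ∈ Rs, r.d = D.t.d j → D.rk j r 0 ∪ D.rk j r r.m ⊆ D.Bd ∧
    ∀ i ≤ D.t.m j, i < r.lo ∨ r.lo + r.m < i → ∀ x ∈ D.Ck, D.t.u j i ∉ D.t.s.nb x

/-- the rims that are kept -/
def Rk (Rs : D.t.ι → Set Run) : Set MV :=
  {y | y ∈ D.t.s.Rm ∧ ∃ j, ∃ r ∈ Rs j, ∃ i < r.m, D.t.lk j (r.lo + i) = y}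

/-- the new structure before quotient and renaming -/
structure Rel (t1 : Sh D.σ) (Q : t1.ι → Set W) (src : t1.ι → D.t.ι) (lo : t1.ι → ℕ) (n' : ℕ) :
    Prop where
  mid : t1.Mid Q
  lam : t1.Λ = D.t.Λ
  eg : t1.s.M.eg ≤ D.t.s.M.eg
  fc : t1.s.FC
  holes : (t1.s.H ∩ t1.s.Vt).ncard ≤ (D.t.s.H ∩ D.t.s.Vt).ncard + n' ∧
    (D.t.Str → (t1.s.H ∩ t1.s.Vt).ncard ≤ (D.t.s.H ∩ D.t.s.Vt).ncard)
  cnt : Fintype.card t1.ι ≤ n' ∧ t1.Mk.ncard ≤ n' ∧ t1.Λ.ncard ≤ n' ∧ ∀ j, (Q j).ncard ≤ n'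
  ce : t1.s.Ce = D.Ck
  cell : ∀ x ∈ D.Ck, t1.ct x = D.t.ct x \ D.Ws ∧ t1.s.nb x = D.t.s.nb x ∧ t1.s.Rd x ⊆ D.t.s.Rd x
  bag : ∀ j, ∀ i < t1.m j, t1.bag j i = D.t.bag (src j) (lo j + i) \ D.Ws ∧
    lo j + i < D.t.m (src j) ∧ ¬ D.Sb (src j) (lo j + i)
  nm : ∀ j, (∀ v ∈ Q j \ D.t.Λ, ∃ i ≤ D.t.m (src j), v ∈ D.t.κ (src j) i) ∧
    ∀ i ≤ t1.m j, ∀ v ∈ t1.κ j i \ D.Bd, ∃ k ≤ D.t.m (src j), v ∈ D.t.κ (src j) k
  nd : t1.s.Nd ⊆ D.t.s.Nd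
  ty : ∀ j, (D.md (src j) ≠ Md.new ∧ t1.d j = D.t.d (src j) ∧
      (∀ i < t1.m j, Disjoint (Q j) (D.σ.vs (t1.bag j i)) ∧
        Le (t1.letter j i) (D.t.letter (src j) (lo j + i))) ∧
      (D.md (src j) = Md.keep → ∀ j', src j' = src j → j' = j)) ∨
    (t1.d j ≤ D.t.d (src j) ∧ (D.md (src j) ≠ Md.new → t1.d j < D.t.d (src j)))
  marks : D.t.Mk ⊆ D.σ.vs D.Sd → D.t.Str → D.t.Λ = ∅ →
    (∀ j, D.md j = Md.keep ∧ ∃ j', src j' = j ∧ t1.d j' = D.t.d j) → t1.Mk ⊆ D.Bd ∧ t1.Px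

end Dat

/-! ### The statements -/

/-- row UP -/
def UpS : Prop :=
  ∀ (σ : AG) (t : Sh σ) (g R : ℕ) (B : Fin g × Fin g → Set MV) (U0 : Set MV), t.Ok →
    t.s.M.Frame t.s.vx B t.s.H R U0 → 1 ≤ R → t.Up

/-- row TER -/
def TerS : Prop := ∀ (σ : AG) (t : Sh σ), t.Ok → t.Up → t.Ter

/-- row ISO: a set that avoids a few atoms is not cheaper than its part in a bag -/
def IsoS : Prop :=
  ∀ w, ∃ n, ∀ (σ : AG) (θ g R : ℕ) (T : Tangle σ.f θ) (e : σ.ε) (t : Sh σ) (Sd : Set σ.ε)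
    (Sb : t.ι → ℕ → Prop) (md : t.ι → Md) (tt : t.ι → ℕ → Ty) (B : Fin g × Fin g → Set MV),
    Pre T e t Sd Sb md tt B w R → t.Up → t.Ter → ∃ Wl Wb : Set σ.ε, Wl ⊆ Wb ∧ Wb.ncard ≤ n ∧
      t.Λ ∩ σ.vs univ ⊆ σ.vs Wl ∧ ∀ j, ∀ i < t.m j, ¬ Sb j i → ∀ C, Disjoint C Wb →
        σ.f (C ∩ t.bag j i) ≤ σ.f C ∧
        (C ⊆ t.bag j i → σ.vs C ∩ (t.Λ ∪ t.κ j i ∪ t.κ j (i + 1)) ⊆ σ.bd C)

/-- row HULL -/
def HullS : Prop :=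
  ∀ w K, ∃ n, w ≤ n ∧ ∀ (σ : AG) (θ g R : ℕ) (T : Tangle σ.f θ) (e : σ.ε) (t : Sh σ) (Sd : Set σ.ε)
    (Sb : t.ι → ℕ → Prop) (md : t.ι → Md) (tt : t.ι → ℕ → Ty) (B : Fin g × Fin g → Set MV),
    4 * n + 4 ≤ θ → (∀ a, σ.f {a} ≤ K) → Pre T e t Sd Sb md tt B w R → t.Up → t.Ter →
    ∃ Ws N, Hull T e t Sd md n Ws N

/-- row CELL -/
def CellS : Prop :=
  ∀ D : Dat, Pre D.T D.e D.t D.Sd D.Sb D.md D.tt D.B D.w D.R → D.t.Up → D.t.Ter →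
    Hull D.T D.e D.t D.Sd D.md D.n D.Ws D.N → D.w ≤ D.n → 4 * D.n + 4 ≤ D.θ →
    ∃ Cc, Dat.CcOk { D with Cc := Cc } ∧ Dat.Kc { D with Cc := Cc }

/-- row STR -/
def StrS : Prop := ∀ D : Dat, D.Ok → D.t.Str → D.Kf

/-- row X -/
def XS : Prop := ∀ D : Dat, D.Ok → D.Kf → D.Xf

/-- row DEAD -/
def FDeadS : Prop :=
  ∀ D : Dat, D.Ok → D.t.Str → D.t.Λ = ∅ → D.t.Mk ⊆ D.σ.vs D.Sd → D.Kf → D.Xf → D.Df

/-- row COUNT -/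
def CountS : Prop :=
  ∀ D : Dat, D.Ok → D.Kf → D.Xf → D.Df → ∀ j i, D.md j = Md.keep → D.Clear j i →
    ∃ a b, D.Kp j a i b

/-- row SLID -/
def SlidS : Prop :=
  ∀ D : Dat, D.Ok → ∀ j a i b, D.md j = Md.keep → D.Clear j i → D.Kp j a i b →
    ∃ r, D.Plan j {r} 1

/-- row GEN -/
def GenS : Prop :=
  ∀ n, ∃ n', ∀ D : Dat, D.Ok → D.n = n → ∀ j, (D.md j = Md.keep → ∀ i, ¬ D.Clear j i) →
    ∃ Rs, D.Plan j Rs n'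

/-- row Z: the components that become holes -/
def ZS : Prop :=
  ∀ D : Dat, D.Ok → (D.t.Str → D.Kf) → ∀ Rk ⊆ D.t.s.Rm,
    (∀ y ∈ Rk, Disjoint (D.t.s.nb y) (D.Vw \ D.Bd)) →
    ∃ Z ⊆ D.t.s.mg D.Ck Rk, D.t.s.H ∩ D.t.s.Vt ⊆ Z ∧
      (∀ z ∈ Z, fb.cp D.t.s.G (D.t.s.mg D.Ck Rk) z ⊆ Z) ∧
      (∀ x ∈ D.t.s.mg D.Ck Rk, ∃ z ∈ Z, ∀ v ∈ D.t.s.kn D.Ck Rk,
        (∃ y ∈ fb.cp D.t.s.G (D.t.s.mg D.Ck Rk) x, D.t.s.G.Adj v y) →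
        ∃ y ∈ fb.cp D.t.s.G (D.t.s.mg D.Ck Rk) z, D.t.s.G.Adj v y) ∧
      (fb.cp D.t.s.G (D.t.s.mg D.Ck Rk) '' Z).ncard ≤
        (D.t.s.H ∩ D.t.s.Vt).ncard + 2 ^ (7 * D.n) ∧
      (D.t.Str → (fb.cp D.t.s.G (D.t.s.mg D.Ck Rk) '' Z).ncard ≤ (D.t.s.H ∩ D.t.s.Vt).ncard)

/-- row MID -/
def MidS : Prop :=
  ∀ n n1, ∃ n', ∀ D : Dat, D.Ok → D.n = n → (D.t.Str → D.Kf) → ∀ Rs : D.t.ι → Set Run,
    (∀ j, D.Plan j (Rs j) n1) → ∃ t1 Q src lo, D.Rel t1 Q src lo n'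

/-- the labels of the atoms after the quotient -/
def Lq (A : Set Lab) (K : ℕ) : Set Lab := A ∪ ⋃ k ≤ K, Om A K k

/-- row QUO -/
def QuoS : Prop :=
  ∀ (D : Dat) (t1 : Sh D.σ) (Q : t1.ι → Set W) (src : t1.ι → D.t.ι) (lo : t1.ι → ℕ)
    (n' K ν : ℕ) (A A' : Set Lab), D.Ok → D.Rel t1 Q src lo n' → D.σ.Rob → D.σ.Over univ A K →
    (∀ a i, Sum.inr i ∈ VV (D.σ.pc a) → i < ν) →
    (∀ C ∈ Cut D.e D.T D.N, D.e ∉ C → InA A' (D.σ.un C) (D.σ.bd C)) →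
    ∃ (M : Set (Set D.σ.ε)) (own : parts M → Option (MV ⊕ t1.ι × ℕ)) (O : Set (parts M)),
      M.PairwiseDisjoint id ∧
      (t1.re (D.σ.quo M) t1.Λ t1.β t1.L own).Rdy Q (Lq (A ∪ A') (3 * D.θ + 2 * D.n + K))
        (3 * D.θ + 2 * D.n + K) ν n' ∧
      up O = Out D.e D.T D.N ∧ O ⊆ (t1.re (D.σ.quo M) t1.Λ t1.β t1.L own).rest ∧
      up (t1.re (D.σ.quo M) t1.Λ t1.β t1.L own).rest = t1.rest ∧
      (∀ x, up ((t1.re (D.σ.quo M) t1.Λ t1.β t1.L own).ct x) = t1.ct x) ∧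
      (∀ j i, up ((t1.re (D.σ.quo M) t1.Λ t1.β t1.L own).bag j i) = t1.bag j i) ∧
      ∀ j, ∀ i < t1.m j, ∀ y, D.md (src j) ≠ Md.new → t1.d j = D.t.d (src j) →
        D.t.Fits (src j) (lo j + i) y → Le (t1.letter j i) (D.t.letter (src j) (lo j + i)) →
        (t1.re (D.σ.quo M) t1.Λ t1.β t1.L own).Fits j i y

/-- row CORE -/
def FCoreS : Prop :=
  ∀ (D : Dat) (t1 : Sh D.σ) (Q : t1.ι → Set W) (src : t1.ι → D.t.ι) (lo : t1.ι → ℕ)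
    (n' K : ℕ) (A A' : Set Lab) (ρ : List W), D.Ok → D.Rel t1 Q src lo n' → D.σ.Rob →
    D.σ.Over univ A K → (∀ C ∈ Cut D.e D.T D.N, D.e ∉ C → InA A' (D.σ.un C) (D.σ.bd C)) →
    ρ.length + 12 * D.n + 4 ≤ D.θ → D.σ.bd (t1.rest \ Out D.e D.T D.N) ⊆ {v | v ∈ ρ} →
    (∀ v ∈ ρ, v ∈ D.σ.vs (t1.rest \ Out D.e D.T D.N)ᶜ) →
    (D.σ.un (t1.rest \ Out D.e D.T D.N), ρ) ∈ Om (A ∪ A') (3 * D.θ + 2 * D.n + K) ρ.length

/-- row NAM -/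
def NamS : Prop := ∀ A n k, (Pwo A → Pwo (Nam A n k)) ∧ Pwo (Pen n)

/-- row BUILD -/
def BuildS : Prop :=
  ∀ n, ∃ n', ∀ (τ : AG) (t : Sh τ) (Q : t.ι → Set W) (A : Set Lab) (K ν : ℕ) (O : Set τ.ε)
    (ρO : List W), t.Rdy Q A K ν n → O ⊆ t.rest → Enum ρO (τ.bd O) →
    ∃ σ' β' L' own' mk' ρN P π, Blt t Q A K ν n' O ρO σ' β' L' own' mk' ρN P π

end Pool.Agent.MP_9d78a0_co.gm

end MrgPart1

-- ======== part 2: formerly Pool.Agent.MP_9d78a0_co.gm.FCell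
section MrgPart2

/-! Block F, row CELL: solid cells against the hull. -/

set_option autoImplicit false

namespace Pool.Agent.MP_9d78a0_co.gm

open Set Function

namespace Cel

variable {σ : AG}

theorem mem_vs {U : Set σ.ε} {v : W} : v ∈ σ.vs U ↔ ∃ a ∈ U, v ∈ σ.inc a := by
  simp only [AG.vs, mem_iUnion, exists_prop]

theorem mem_bd {U : Set σ.ε} {v : W} :
    v ∈ σ.bd U ↔ (∃ a ∈ U, v ∈ σ.inc a) ∧ ∃ a ∉ U, v ∈ σ.inc a := Iff.rfl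

theorem vv_un {U : Set σ.ε} {v : W} (h : v ∈ VV (σ.un U)) (o : v ∈ Od) : v ∈ σ.vs U := by
  obtain ⟨p, hp, k⟩ := h
  obtain ⟨a, ha, hp⟩ := mem_iUnion₂.1 hp
  exact mem_vs.2 ⟨a, ha, ⟨p, hp, k⟩, o⟩

theorem vs_vv {U : Set σ.ε} {v : W} (h : v ∈ σ.vs U) : v ∈ VV (σ.un U) ∩ Od := by
  obtain ⟨a, ha, ⟨p, hp, k⟩, o⟩ := mem_vs.1 h
  exact ⟨⟨p, mem_iUnion₂.2 ⟨a, ha, hp⟩, k⟩, o⟩

theorem adj_vv {X : Pc} {u v : W} (h : (gr X).Adj u v) : v ∈ VV X := by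
  rcases h.2 with k | k
  exacts [⟨_, k, Or.inr rfl⟩, ⟨_, k, Or.inl rfl⟩]

/-- an edge at an ordinary vertex outside `Ws` comes from an atom outside `Ws` -/
theorem adj_out {X Ws : Set σ.ε} {u v : W} (h : (gr (σ.un X)).Adj u v) (o : u ∈ Od)
    (hu : u ∉ σ.vs Ws) : (gr (σ.un (X \ Ws))).Adj u v := by
  have key : ∀ p ∈ σ.un X, u = p.1 ∨ u = p.2 → p ∈ σ.un (X \ Ws) := fun p hp k => by
    obtain ⟨a, ha, hp⟩ := mem_iUnion₂.1 hp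
    exact mem_iUnion₂.2 ⟨a, ⟨ha, fun c => hu (mem_vs.2 ⟨a, c, ⟨p, hp, k⟩, o⟩)⟩, hp⟩
  exact ⟨h.1, h.2.imp (fun k => key _ k (Or.inl rfl)) fun k => key _ k (Or.inr rfl)⟩

/-- a solid piece with a root outside `Ws` stays solid when `Ws` is removed -/
theorem solid_out {X Ws : Set σ.ε} {R Λ : Set W} (h : Solid (σ.un X) R (Λ \ R))
    (ins : σ.bd Ws ∩ σ.vs X ⊆ Λ ∪ R) {r0 : W} (h0 : r0 ∈ R) (h1 : r0 ∉ σ.vs Ws) :
    Solid (σ.un (X \ Ws)) R (Λ \ R) := by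
  have pure : ∀ u v, (gr (σ.un (X \ Ws))).Adj u v → v ∈ Od \ (Λ \ R) → v ∉ R → v ∉ σ.vs Ws := by
    intro u v e hv hr c
    obtain ⟨a, ha, k⟩ := mem_vs.1 (vv_un (adj_vv e) hv.1)
    rcases ins ⟨mem_bd.2 ⟨mem_vs.1 c, a, ha.2, k⟩, mem_vs.2 ⟨a, ha.1, k⟩⟩ with l | l
    exacts [hv.2 ⟨l, hr⟩, hr l]
  have one : ∀ s ∈ R, Link (gr (σ.un (X \ Ws))) ((Od \ (Λ \ R)) \ (R \ {r0, s})) r0 s := by
    intro s hs
    have key : ∀ v, Link (gr (σ.un X)) ((Od \ (Λ \ R)) \ (R \ {r0, s})) r0 v →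
        Link (gr (σ.un (X \ Ws))) ((Od \ (Λ \ R)) \ (R \ {r0, s})) r0 s ∨
        (v ∉ σ.vs Ws ∧ Link (gr (σ.un (X \ Ws))) ((Od \ (Λ \ R)) \ (R \ {r0, s})) r0 v) := by
      intro v k
      induction k with
      | refl => exact Or.inr ⟨h1, Link.refl _ _ _⟩
      | @tail b c _ e ih =>
        rcases ih with ih | ⟨p, ih⟩
        · exact Or.inl ih
        have e' := adj_out e.2.2 e.1.1.1 p
        have l := Relation.ReflTransGen.tail ih ⟨e.1, e.2.1, e'⟩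
        by_cases c1 : c = s
        · exact Or.inl (c1 ▸ l)
        by_cases c2 : c = r0
        · exact Or.inr ⟨c2 ▸ h1, l⟩
        exact Or.inr ⟨pure b c e' e.2.1.1 fun d => e.2.1.2 ⟨d, fun k => k.elim c2 c1⟩, l⟩
    exact (key s (h.two r0 h0 s hs)).elim id fun k => k.2
  have three : R.ncard = 3 → ∃ Y ⊆ (Od \ (Λ \ R)) \ R, Conn (gr (σ.un (X \ Ws))) Y ∧
      ∀ r ∈ R, ∃ y ∈ Y, (gr (σ.un (X \ Ws))).Adj r y := by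
    intro c
    obtain ⟨Y, hY, hc, ha⟩ := h.three c
    obtain ⟨y0, m0, e0⟩ := ha r0 h0
    have p0 := pure _ _ (adj_out e0 (h.sub h0).1.2 h1) (hY m0).1 (hY m0).2
    have key : ∀ v, Link (gr (σ.un X)) Y y0 v →
        v ∉ σ.vs Ws ∧ Link (gr (σ.un (X \ Ws))) Y y0 v := by
      intro v k
      induction k with
      | refl => exact ⟨p0, Link.refl _ _ _⟩
      | @tail b c _ e ih =>
        have e' := adj_out e.2.2 (hY e.1).1.1 ih.1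
        exact ⟨pure b c e' (hY e.2.1).1 (hY e.2.1).2,
          Relation.ReflTransGen.tail ih.2 ⟨e.1, e.2.1, e'⟩⟩
    refine ⟨Y, hY, ⟨hc.1, fun u hu v hv => (key u (hc.2 _ m0 _ hu)).2.symm.trans
      (key v (hc.2 _ m0 _ hv)).2⟩, fun r hr => ?_⟩
    obtain ⟨y, m, e⟩ := ha r hr
    exact ⟨y, m, (adj_out e.symm (hY m).1.1 (key y (hc.2 _ m0 _ m)).1).symm⟩
  refine ⟨fun r hr => ⟨⟨?_, (h.sub hr).1.2⟩, (h.sub hr).2⟩, h.card, fun r hr s hs => ?_, three⟩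
  · by_cases c : r = r0
    · obtain ⟨a, ha, k⟩ := mem_vs.1 (vv_un (h.sub h0).1.1 (h.sub h0).1.2)
      rw [c]
      exact (vs_vv (U := X \ Ws) (mem_vs.2 ⟨a, ⟨ha, fun d => h1 (mem_vs.2 ⟨a, d, k⟩)⟩, k⟩)).1
    · rcases Relation.ReflTransGen.cases_tail (one r hr) with k | ⟨b, _, k⟩
      exacts [absurd k c, adj_vv k.2.2]
  by_cases c0 : r = s
  · exact c0 ▸ Link.refl _ _ _
  by_cases c1 : r = r0
  · exact c1 ▸ one s hs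
  by_cases c2 : s = r0
  · rw [pair_comm, c2]
    exact (one r hr).symm
  have c3 : R.ncard = 3 := by
    refine le_antisymm h.card.2 ?_
    rw [← ncard_eq_three.2 ⟨r, s, r0, c0, c1, c2, rfl⟩]
    exact ncard_le_ncard (insert_subset hr (insert_subset hs (singleton_subset_iff.2 h0))) h.card.1
  obtain ⟨Y, hY, hc, ha⟩ := three c3
  obtain ⟨y, m, e⟩ := ha r hr
  obtain ⟨y', m', e'⟩ := ha s hs
  have sY : Y ⊆ (Od \ (Λ \ R)) \ (R \ {r, s}) := fun v hv => ⟨(hY hv).1, fun d => (hY hv).2 d.1⟩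
  have sr : r ∈ (Od \ (Λ \ R)) \ (R \ {r, s}) :=
    ⟨⟨(h.sub hr).1.2, (h.sub hr).2⟩, fun d => d.2 (Or.inl rfl)⟩
  have ss : s ∈ (Od \ (Λ \ R)) \ (R \ {r, s}) :=
    ⟨⟨(h.sub hs).1.2, (h.sub hs).2⟩, fun d => d.2 (Or.inr rfl)⟩
  exact (Link.single sr (sY m) e).trans (((hc.2 _ m _ m').mono sY).trans
    (Link.single (sY m') ss e'.symm))

theorem ncard_nb {I : Type} (f : I → Set W) (S : Set I) (hS : S.Finite)
    (h : ∀ x ∈ S, (f x).Finite ∧ (f x).ncard ≤ 3) :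
    (⋃ x ∈ S, f x).Finite ∧ (⋃ x ∈ S, f x).ncard ≤ 3 * S.ncard := by
  refine ⟨hS.biUnion fun x hx => (h x hx).1, ?_⟩
  induction S, hS using Set.Finite.induction_on with
  | empty => simp
  | @insert a S ha hS ih =>
    have h1 := ih fun x hx => h x (mem_insert_of_mem _ hx)
    have h2 := (h a (mem_insert _ _)).2
    have h3 := ncard_union_le (f a) (⋃ x ∈ S, f x)
    rw [biUnion_insert, ncard_insert_of_notMem ha hS]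
    omega

end Cel

open Cel in
theorem cellS : CellS := by
  intro D pre _ ter hull _ hθ
  have ok := pre.ok
  have bfin : D.Bd.Finite := hbd_fin D.σ.inc_fin _
  have bcard : D.Bd.ncard ≤ D.n := hull.sm.2.1
  have lam : ∀ x ∈ D.t.s.Ce, ∀ v ∈ D.t.Λ, v ∈ D.σ.vs (D.t.ct x) → v ∈ D.t.s.nb x ∪ D.Vw := by
    intro x hx v hv k
    obtain ⟨a, ha, k⟩ := mem_vs.1 k
    by_cases c : D.t.Str
    · obtain ⟨b, h1, h2⟩ := c x hx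
      rw [h1] at ha
      exact Or.inl (h2 ⟨ha ▸ k, hv⟩)
    · exact Or.inr (hull.lam c ⟨hv, mem_vs.2 ⟨a, mem_univ _, k⟩⟩)
  have root : ∀ x ∈ D.t.s.Ce, x ∉ D.Ci → ∃ r ∈ D.t.s.nb x, r ∉ D.Vw := by
    intro x hx hi
    by_contra c
    have c' : D.t.s.nb x ⊆ D.Vw := fun r hr => by_contra fun d => c ⟨r, hr, d⟩
    have s : D.σ.bd (D.Ws ∪ D.t.ct x) ⊆ D.Bd := by
      rintro v ⟨⟨a, ha, k⟩, b, hb, l⟩
      refine mem_bd.2 ⟨?_, b, fun d => hb (Or.inl d), l⟩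
      rcases ha with ha | ha
      · exact ⟨a, ha, k⟩
      refine mem_vs.1 ?_
      rcases ter.bdc x (mem_bd.2 ⟨⟨a, ha, k⟩, b, fun d => hb (Or.inr d), l⟩) with o | o
      · exact c' o
      · exact (lam x hx v o (mem_vs.2 ⟨a, ha, k⟩)).elim (fun o => c' o) id
    have le : D.σ.f (D.Ws ∪ D.t.ct x) ≤ D.σ.f D.Ws := ncard_le_ncard s bfin
    have := hull.sm.2.1
    have e := hull.max _ (D.T.union_small hull.sm.1 (pre.cells x hx).1 (by omega))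
      subset_union_left le
    exact hi ⟨hx, union_eq_left.1 e⟩
  let C1 : Set MV := {x | x ∈ D.t.s.Ce ∧ ¬ D.Bd ∩ D.σ.vs (D.t.ct x) ⊆ D.t.Λ ∪ D.t.s.nb x}
  obtain ⟨ch, hch⟩ : ∃ ch : W → MV, ∀ v, (∃ x ∈ D.t.s.Ce, v ∈ D.t.s.nb x) →
      ch v ∈ D.t.s.Ce ∧ v ∈ D.t.s.nb (ch v) := by
    classical
    exact ⟨fun v => if h : ∃ x ∈ D.t.s.Ce, v ∈ D.t.s.nb x then h.choose else Sum.inr 0,
      fun v h => by simp only [dif_pos h]; exact h.choose_spec⟩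
  let B2 : Set W := {v | v ∈ D.Bd ∧ ¬ D.t.Str ∧ ∃ x ∈ D.t.s.Ce, v ∈ D.t.s.nb x}
  have f2 : B2.Finite := bfin.subset fun v h => h.1
  have n2 : (ch '' B2).ncard ≤ D.n :=
    (ncard_image_le f2).trans ((ncard_le_ncard (fun v h => h.1) bfin).trans bcard)
  obtain ⟨wi, hwi⟩ : ∃ wi : MV → W, ∀ x ∈ C1, wi x ∈ D.Bd ∩ D.σ.vs (D.t.ct x) ∧
      wi x ∉ D.t.Λ ∪ D.t.s.nb x := by
    have : ∀ x : MV, ∃ v : W, x ∈ C1 → v ∈ D.Bd ∩ D.σ.vs (D.t.ct x) ∧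
        v ∉ D.t.Λ ∪ D.t.s.nb x := fun x => by
      by_cases c : x ∈ C1
      · obtain ⟨v, h1, h2⟩ := not_subset.1 c.2
        exact ⟨v, fun _ => ⟨h1, h2⟩⟩
      · exact ⟨Sum.inl 0, fun d => absurd d c⟩
    exact ⟨fun x => (this x).choose, fun x => (this x).choose_spec⟩
  have inj : InjOn wi C1 := by
    intro x hx y hy e
    by_contra c
    obtain ⟨b, hb, k⟩ := mem_vs.1 (hwi y hy).1.2
    refine (hwi x hx).2 (Or.symm (ter.bdc x (mem_bd.2 ⟨mem_vs.1 (hwi x hx).1.2, b, fun d => c ?_,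
      e ▸ k⟩)))
    exact Sum.inl.inj (Option.some.inj (d.symm.trans hb))
  have mp : MapsTo wi C1 D.Bd := fun x hx => (hwi x hx).1.1
  have f1 : C1.Finite := Finite.of_injOn mp inj bfin
  have n1 : C1.ncard ≤ D.n := (ncard_le_ncard_of_injOn wi mp inj bfin).trans bcard
  have sub : C1 ∪ ch '' B2 ⊆ D.t.s.Ce := by
    rintro x (h | ⟨v, h, rfl⟩)
    exacts [h.1, (hch v h.2.2).1]
  have card : (C1 ∪ ch '' B2).ncard ≤ 2 * D.n := by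
    have := ncard_union_le C1 (ch '' B2)
    omega
  have ins : ∀ x ∈ D.t.s.Ce \ (D.Ci ∪ (C1 ∪ ch '' B2)),
      D.Bd ∩ D.σ.vs (D.t.ct x) ⊆ D.t.Λ ∪ D.t.s.nb x := fun x hx =>
    by_contra fun c => hx.2 (Or.inr (Or.inl ⟨hx.1, c⟩))
  have solid : ∀ x ∈ D.t.s.Ce \ (D.Ci ∪ (C1 ∪ ch '' B2)),
      Solid (D.σ.un (D.t.ct x \ D.Ws)) (D.t.s.nb x) (D.t.Λ \ D.t.s.nb x) := fun x hx => by
    obtain ⟨r, h1, h2⟩ := root x hx.1 fun c => hx.2 (Or.inl c)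
    exact solid_out (ok.solid x hx.1).1 (ins x hx) h1 h2
  have rv : ∀ x ∈ D.t.s.Ce \ (D.Ci ∪ (C1 ∪ ch '' B2)), ∀ v ∈ D.t.s.nb x,
      ∃ a ∈ D.t.ct x \ D.Ws, v ∈ D.σ.inc a := fun x hx v hv =>
    mem_vs.1 (vv_un ((solid x hx).sub hv).1.1 ((solid x hx).sub hv).1.2)
  have out : ∀ x ∈ D.t.s.Ce \ (D.Ci ∪ (C1 ∪ ch '' B2)), D.t.s.nb x ∩ D.Vw ⊆ D.Bd := by
    intro x hx v hv
    obtain ⟨a, ha, k⟩ := rv x hx v hv.1
    exact mem_bd.2 ⟨mem_vs.1 hv.2, a, ha.2, k⟩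
  obtain ⟨fE, nE⟩ := ncard_nb D.t.s.nb (C1 ∪ ch '' B2) (f1.union (f2.image _))
    fun x hx => (ok.solid x (sub hx)).1.card
  refine ⟨C1 ∪ ch '' B2, ⟨sub, card, fun st => ?_, ins, fun x hx v hv => ?_⟩,
    ⟨⟨bfin.union fE, ?_, bfin, bcard⟩, solid, fun x hx => ?_, fun x hx => ⟨out x hx, fun c => ?_⟩,
      fun x hx v hv => ?_⟩⟩
  · refine eq_empty_of_forall_notMem ?_
    rintro x (h | ⟨v, h, _⟩)
    · obtain ⟨a, h1, _⟩ := st x h.1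
      refine h.2 fun v hv => Or.symm (ter.bdc x (mem_bd.2 ⟨mem_vs.1 hv.2, ?_⟩))
      obtain ⟨⟨b, hb, k⟩, c, hc, l⟩ := mem_bd.1 hv.1
      rw [h1]
      by_cases d : b = a
      · exact ⟨c, fun o => hc (by rw [show c = a from o, ← d]; exact hb), l⟩
      · exact ⟨b, d, k⟩
    · exact h.2.1 st
  · by_cases c : x ∈ D.Ci ∪ (C1 ∪ ch '' B2)
    · exact ⟨x, c, hv.1⟩
    obtain ⟨a, ha, k⟩ := mem_vs.1 hv.2
    have st : ¬ D.t.Str := fun st => by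
      obtain ⟨b, h1, _⟩ := st x hx
      refine c (Or.inl ⟨hx, ?_⟩)
      have h2 := ha.1
      rw [h1] at h2 ⊢
      exact singleton_subset_iff.2 ((show a = b from h2) ▸ ha.2)
    have h3 : v ∈ B2 := ⟨out x ⟨hx, c⟩ ⟨hv.1, mem_vs.2 ⟨a, ha.2, k⟩⟩, st, x, hx, hv.1⟩
    exact ⟨ch v, Or.inr (Or.inr ⟨v, h3, rfl⟩), (hch v h3.2.2).2⟩
  · have := ncard_union_le D.Bd (⋃ x ∈ C1 ∪ ch '' B2, D.t.s.nb x)
    change (D.Bd ∪ ⋃ x ∈ C1 ∪ ch '' B2, D.t.s.nb x).ncard ≤ 7 * D.n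
    omega
  · have nb : D.t.s.nb x ⊆ D.σ.bd (D.t.ct x \ D.Ws) := fun v hv => by
      obtain ⟨_, b, hb, l⟩ := mem_bd.1 ((ok.solid x hx.1).2 hv)
      exact mem_bd.2 ⟨rv x hx v hv, b, fun d => hb d.1, l⟩
    refine subset_antisymm ?_ (union_subset nb fun v hv => ?_)
    · rintro v ⟨⟨a, ha, k⟩, b, hb, l⟩
      have h1 : v ∈ D.t.s.nb x ∪ D.t.Λ := by
        by_cases c : b ∈ D.t.ct x
        · exact Or.symm (ins x hx ⟨mem_bd.2 ⟨⟨b, by_contra fun d => hb ⟨c, d⟩, l⟩, a, ha.2, k⟩,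
            mem_vs.2 ⟨a, ha.1, k⟩⟩)
        · exact ter.bdc x (mem_bd.2 ⟨⟨a, ha.1, k⟩, b, c, l⟩)
      exact h1.imp id fun o => ⟨o, mem_vs.2 ⟨a, ha, k⟩⟩
    · obtain ⟨a, ha, k⟩ := mem_vs.1 hv.2
      rcases lam x hx.1 v hv.1 (mem_vs.2 ⟨a, ha.1, k⟩) with o | o
      · exact nb o
      · obtain ⟨b, hb, l⟩ := mem_vs.1 o
        exact mem_bd.2 ⟨⟨a, ha, k⟩, b, fun d => d.2 hb, l⟩
  · exact hx.2 (Or.inl ⟨hx.1, (pre.scell x c).1.trans hull.sm.2.2⟩)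
  · obtain ⟨⟨a, ha, k⟩, _⟩ := mem_bd.1 ((ok.solid x hx.1).2 hv)
    exact mem_vs.2 ⟨a, hx.2 ha, k⟩

end Pool.Agent.MP_9d78a0_co.gm

end MrgPart2

-- marker of a merged file
example : 731051 + 763801 = 731051 + 763801 := rfl
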