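import Mathlib.Logic.Hydra
import Pool.Agent.MP_9d78a0_co.gm.SpecJ
import Pool.Agent.MP_9d78a0_co.gm.BGrid

/-! The measure is well founded; the large component; sets of small width are small. -/

set_option autoImplicit false

namespace Pool.Agent.MP_9d78a0_co.gm

open Set Function

namespace JWf

theorem wf_of {α : Type} {r : α → α → Prop} (h : ∀ f : ℕ → α, ¬ ∀ n, r (f (n + 1)) (f n)) :
    WellFounded r :=
  wellFounded_iff_isEmpty_descending_chain.2 ⟨fun f => h f.1 f.2⟩

theorem wf_ins {S : Set Lab} (hS : Pwo S) : WellFounded fun F' F : Set Lab =>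
    ∃ ω ∈ S, (∀ ω' ∈ F, ¬ Le ω' ω) ∧ F' = insert ω F := by
  refine wf_of fun f h => ?_
  choose ω h1 h2 h3 using h
  have m : Monotone f := monotone_nat_of_le_succ fun n => h3 n ▸ subset_insert _ _
  obtain ⟨i, j, k, l⟩ := PartiallyWellOrderedOn.exists_lt hS h1
  exact h2 j _ (m (Nat.succ_le_of_lt k) (h3 i ▸ mem_insert _ _)) l

theorem wf_ty : WellFounded Ty.Lt := by
  have key : ∀ d, ∀ y : Ty, y.d = d → Acc Ty.Lt y := by
    intro d
    induction d using Nat.strong_induction_on with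
    | _ d ih =>
      rintro ⟨d', A, K, F⟩ rfl
      by_cases c : Pwo A
      · induction F using (wf_ins (omS A K (2 * d' + 2) c)).induction with
        | _ F ih' =>
          refine ⟨_, ?_⟩
          rintro y (h | ⟨-, ω, h, rfl⟩)
          exacts [ih _ h y rfl, ih' _ ⟨ω, h.1, h.2, rfl⟩ ih]
      · refine ⟨_, ?_⟩
        rintro y (h | ⟨h, -⟩)
        exacts [ih _ h y rfl, absurd h c]
  exact ⟨fun y => key _ y rfl⟩

theorem wf_I : WellFounded ILt := by
  refine wf_of fun f h => ?_
  choose h0 ω h1 h2 using h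
  have m : Antitone f := antitone_nat_of_succ_le fun n => h2 n ▸ fun _ k => k.1
  obtain ⟨i, j, k, l⟩ := PartiallyWellOrderedOn.exists_lt (h0 0) fun n => m n.zero_le (h1 n)
  have := m (Nat.succ_le_of_lt k) (h1 j)
  rw [h2 i] at this
  exact this.2 l

open Relation in
theorem rt_sum {α ι : Type} {r : α → α → Prop} (s : Finset ι) {N P : ι → Multiset α}
    (h : ∀ j ∈ s, ReflTransGen (CutExpand r) (N j) (P j)) :
    ReflTransGen (CutExpand r) (∑ j ∈ s, N j) (∑ j ∈ s, P j) := by
  classical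
  induction s using Finset.induction_on with
  | empty => exact .refl
  | insert a s ha ih =>
    rw [Finset.sum_insert ha, Finset.sum_insert ha]
    exact (ReflTransGen.lift (fun x => N a + x) (fun _ _ k => (cutExpand_add_left _).2 k) _ _
      (ih fun j k => h j (Finset.mem_insert_of_mem k))).trans
      (ReflTransGen.lift (fun x => x + ∑ j ∈ s, P j) (fun _ _ k => (cutExpand_add_right _).2 k)
        _ _ (h a (Finset.mem_insert_self _ _)))

theorem map_eq {α ι : Type} (s : Finset ι) (f : ι → α) :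
    s.val.map f = ∑ j ∈ s, ({f j} : Multiset α) := by
  rw [← Multiset.sum_map_singleton (s.val.map f), Multiset.map_map]
  rfl

open Relation in
theorem wf_ms : WellFounded MsLt := by
  classical
  refine Subrelation.wf (r := TransGen (CutExpand Ty.Lt)) ?_ wf_ty.cutExpand.transGen
  rintro _ _ ⟨ι, ι', _, _, f, f', src, rfl, rfl, h, j0, h0⟩
  let N : ι → Multiset Ty := fun j => ∑ j' ∈ Finset.univ.filter fun j' => src j' = j, {f' j'}
  have cut : ∀ j, (∀ j', src j' = j → (f' j').Lt (f j)) → CutExpand Ty.Lt (N j) {f j} := by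
    intro j k
    refine cutExpand_singleton fun x hx => ?_
    obtain ⟨j', a, b⟩ := Multiset.mem_sum.1 hx
    rw [Multiset.mem_singleton.1 b]
    exact k j' (Finset.mem_filter.1 a).2
  have rt : ∀ j, ReflTransGen (CutExpand Ty.Lt) (N j) {f j} := by
    intro j
    by_cases c : ∀ j', src j' = j → (f' j').Lt (f j)
    · exact .single (cut j c)
    · push Not at c
      obtain ⟨j', rfl, c⟩ := c
      obtain ⟨a, b⟩ := (h j').resolve_right c
      have e : (Finset.univ.filter fun j'' => src j'' = src j') = {j'} := by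
        ext x
        simp only [Finset.mem_filter, Finset.mem_univ, true_and, Finset.mem_singleton]
        exact ⟨b x, fun k => k ▸ rfl⟩
      have e' : N (src j') = {f (src j')} := by
        simp only [N, e, Finset.sum_singleton, a]
      rw [e']
  rw [map_eq, map_eq, ← Finset.sum_fiberwise Finset.univ src,
    ← Finset.add_sum_erase _ _ (Finset.mem_univ j0),
    ← Finset.add_sum_erase _ (fun j => ({f j} : Multiset Ty)) (Finset.mem_univ j0)]
  exact TransGen.tail' (ReflTransGen.lift (fun x => N j0 + x)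
    (fun _ _ k => (cutExpand_add_left _).2 k) _ _ (rt_sum _ fun j _ => rt j))
    ((cutExpand_add_right _).2 (cut j0 h0))

section big

variable {V : Type} {G : SimpleGraph V} {g : ℕ} {B : Fin g × Fin g → Set V} {D0 D X : Set V}

theorem row_sub (i j k : Fin g) : B (i, k) ⊆ Cross B i j :=
  subset_union_left.trans (subset_iUnion (fun k => B (i, k) ∪ B (k, j)) k)

theorem col_sub (i j k : Fin g) : B (k, j) ⊆ Cross B i j :=
  subset_union_right.trans (subset_iUnion (fun k => B (i, k) ∪ B (k, j)) k)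

theorem cross_sub (h : Model (fb.grid g) G D0 B) (i j : Fin g) : Cross B i j ⊆ D0 :=
  iUnion_subset fun _ => union_subset (h.1 _) (h.1 _)

theorem cross_conn (h : Model (fb.grid g) G D0 B) (i j : Fin g) : Conn G (Cross B i j) := by
  have cr : Conn G (⋃ k, B (i, k)) := conn_line i.pos (fun _ => h.2.1 _)
    fun _ _ k => h.2.2.2 _ _ (Or.inl ⟨rfl, Or.inl k⟩)
  have cc : Conn G (⋃ k, B (k, j)) := conn_line i.pos (fun _ => h.2.1 _)
    fun _ _ k => h.2.2.2 _ _ (Or.inr ⟨rfl, Or.inl k⟩)
  obtain ⟨x, hx⟩ := (h.2.1 (i, j)).1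
  refine fb.conn_of_center (row_sub i j j hx) fun v hv => ?_
  obtain ⟨k, hv | hv⟩ := mem_iUnion.1 hv
  · exact (cr.2 x (mem_iUnion.2 ⟨j, hx⟩) v (mem_iUnion.2 ⟨k, hv⟩)).mono
      (iUnion_subset (row_sub i j))
  · exact (cc.2 x (mem_iUnion.2 ⟨i, hx⟩) v (mem_iUnion.2 ⟨k, hv⟩)).mono
      (iUnion_subset (col_sub i j))

theorem cross_big {i j : Fin g} (h : Disjoint (Cross B i j) X) : Cross B i j ⊆ big G B D X :=
  fun w k => ⟨i, j, h, w, k, Link.refl _ _ _⟩

theorem big_sub (h : Model (fb.grid g) G D0 B) (hD : D0 ⊆ D) : big G B D X ⊆ D \ X :=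
  fun _ ⟨i, j, a, _, b, c⟩ => c.mem ⟨hD (cross_sub h i j b), disjoint_left.1 a b⟩

theorem big_conn (h : Model (fb.grid g) G D0 B) (k : (big G B D X).Nonempty) :
    Conn G (big G B D X) := by
  obtain ⟨-, i0, j0, a0, w0, b0, -⟩ := k
  refine fb.conn_of_center (cross_big a0 b0) ?_
  rintro v ⟨i, j, a, w, b, c⟩
  obtain ⟨z, hz⟩ := (h.2.1 (i0, j)).1
  refine (((cross_conn h i0 j0).2 _ b0 z (row_sub _ _ _ hz)).mono (cross_big a0)).trans
    ((((cross_conn h i j).2 z (col_sub _ _ _ hz) w b).mono (cross_big a)).trans ?_)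
  induction c with
  | refl => exact Link.refl _ _ _
  | tail h1 h2 ih =>
    exact ih.trans (Link.single ⟨i, j, a, w, b, h1⟩ ⟨i, j, a, w, b, h1.tail h2⟩ h2.2.2)

theorem miss {n : ℕ} {R : Fin n → Set V} (hR : ∀ i j x, x ∈ R i → x ∈ R j → i = j)
    (hX : X.Finite) (h : X.ncard < n) : ∃ i, Disjoint (R i) X := by
  by_contra c
  simp only [not_exists, not_disjoint_iff] at c
  choose v h1 h2 using c
  have h3 := ncard_le_ncard_of_injOn (s := (univ : Set (Fin n))) v (fun i _ => h2 i)
    (fun i _ j _ k => hR i j _ (h1 i) (k ▸ h1 j)) hX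
  rw [ncard_univ, Nat.card_eq_fintype_card, Fintype.card_fin] at h3
  omega

theorem miss2 (h : Model (fb.grid g) G D0 B) {n : ℕ} {e1 e2 : Fin n → Fin g} (h1 : Injective e1)
    (h2 : Injective e2) (hX : X.Finite) (k : X.ncard < n) :
    ∃ i j, Disjoint (Cross B (e1 i) (e2 j)) X := by
  have dj : ∀ p q x, x ∈ B p → x ∈ B q → p = q := fun p q x k l =>
    not_not.1 fun m => disjoint_left.1 (h.2.2.1 p q m) k l
  obtain ⟨i, a⟩ := miss (R := fun i => ⋃ l, B (e1 i, l)) (fun i i' x k l => by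
    obtain ⟨j, k⟩ := mem_iUnion.1 k
    obtain ⟨j', l⟩ := mem_iUnion.1 l
    exact h1 (congrArg Prod.fst (dj _ _ x k l))) hX k
  obtain ⟨j, b⟩ := miss (R := fun j => ⋃ l, B (l, e2 j)) (fun i i' x k l => by
    obtain ⟨j, k⟩ := mem_iUnion.1 k
    obtain ⟨j', l⟩ := mem_iUnion.1 l
    exact h2 (congrArg Prod.snd (dj _ _ x k l))) hX k
  refine ⟨i, j, disjoint_left.2 fun x hx => ?_⟩
  obtain ⟨l, c | c⟩ := mem_iUnion.1 hx
  exacts [disjoint_left.1 a (mem_iUnion.2 ⟨l, c⟩), disjoint_left.1 b (mem_iUnion.2 ⟨l, c⟩)]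

end big

end JWf

open JWf

theorem wfS : WfS := by
  refine Subrelation.wf (r := InvImage (Prod.Lex (· < ·) (Prod.Lex ILt (Prod.Lex (· < ·)
    (Prod.Lex MsLt (· < ·))))) fun p : Par => (p.k, p.I, p.q, p.Ms, p.c)) ?_
    (InvImage.wf _ (wellFounded_lt.prod_lex (wf_I.prod_lex (wellFounded_lt.prod_lex
      (wf_ms.prod_lex wellFounded_lt)))))
  intro p' p h
  simp only [InvImage, Prod.lex_def]
  exact h

theorem bigS : BigS := by
  intro V G g B D0 D h hD
  refine ⟨?_, fun X => ⟨big_sub h hD, big_conn h, ?_, fun i j => cross_big⟩, fun X Z k => ?_,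
    fun X a b => miss2 h injective_id injective_id a b, ?_⟩
  · rintro X X' k v ⟨i, j, a, w, b, c⟩
    exact ⟨i, j, a.mono_right k, w, b, c.mono (sdiff_subset_sdiff_right k)⟩
  · rintro u hu v hv e
    have := big_sub h hD hu
    obtain ⟨i, j, a, w, b, c⟩ := hu
    exact ⟨i, j, a, w, b, c.trans (Link.single this hv e)⟩
  · ext v
    simp only [big, mem_ofPred_eq, disjoint_union_right, sdiff_sdiff, union_comm Z X,
      k.mono_left (cross_sub h _ _), and_true]
  · rintro g' B' ⟨i0, j0, e1, e2, a1, a2, a3⟩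
    have i1 : Injective e1 := fun i i' k => Fin.ext (by have := a1 i; have := a1 i'; omega)
    have i2 : Injective e2 := fun i i' k => Fin.ext (by have := a2 i; have := a2 i'; omega)
    have h' : Model (fb.grid g') G D0 B' := by
      refine ⟨fun p => a3 p ▸ h.1 _, fun p => a3 p ▸ h.2.1 _, fun p q k => ?_, fun p q k => ?_⟩
      · rw [a3, a3]
        exact h.2.2.1 _ _ fun l =>
          k (Prod.ext (i1 (congrArg Prod.fst l)) (i2 (congrArg Prod.snd l)))
      · rw [a3, a3]
        refine h.2.2.2 _ _ ?_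
        simp only [fb.grid, fb.gridN, SimpleGraph.comap_adj, a1, a2] at k ⊢
        omega
    refine ⟨h', fun X Y b1 b2 b3 => ?_⟩
    obtain ⟨i, j, c⟩ := miss2 h i1 i2 b1 b2
    have c1 : Disjoint (Cross B (e1 i) (e2 j)) (X ∪ Y) :=
      disjoint_union_right.2 ⟨c, b3.mono_left (cross_sub h _ _)⟩
    have s : Cross B' i j ⊆ Cross B (e1 i) (e2 j) := iUnion_subset fun l => by
      rw [a3, a3]
      exact union_subset (row_sub _ _ _) (col_sub _ _ _)
    have c2 := c1.mono_left s
    obtain ⟨w, hw⟩ := (cross_conn h' i j).1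
    refine subset_antisymm (fun v hv => ⟨_, _, c1, w, s hw, ?_⟩) fun v hv => ⟨_, _, c2, w, hw, ?_⟩
    all_goals first
      | exact ((big_conn h' ⟨v, hv⟩).2 w (cross_big c2 hw) v hv).mono (big_sub h' hD)
      | exact ((big_conn h ⟨v, hv⟩).2 w (cross_big c1 (s hw)) v hv).mono (big_sub h hD)

theorem bagS : BagS := by
  intro ε ν _ inc θ K T Y hi ⟨D, hD⟩ hK
  have key : ∀ n, ∀ s ∈ D, s.ncard = n → Subtype.val '' s ∈ T.sm := by
    intro n
    induction n using Nat.strong_induction_on with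
    | _ n ih =>
      intro s hs hn
      have h1 : hf inc (Subtype.val '' s) < θ := by
        refine lt_of_le_of_lt (le_trans (ncard_le_ncard
          (t := hbd (fun a : Y => inc a.1) s ∪ hbd inc Y) ?_
          ((hbd_fin (fun a : Y => hi a.1) s).union (hbd_fin hi Y)))
          ((ncard_union_le _ _).trans (add_le_add (hD.wid s hs) le_rfl))) hK
        rintro v ⟨⟨_, ⟨a, ha, rfl⟩, k⟩, b, hb, l⟩
        by_cases c : b ∈ Y
        exacts [Or.inl ⟨⟨a, ha, k⟩, ⟨b, c⟩, fun m => hb ⟨_, m, rfl⟩, l⟩,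
          Or.inr ⟨⟨a, a.2, k⟩, b, c, l⟩]
      rcases s.subsingleton_or_nontrivial with h | h
      · refine (T.tot _ h1).resolve_right ?_
        rcases h.eq_empty_or_singleton with rfl | ⟨a, rfl⟩
        · rw [image_empty, compl_empty]
          exact T.univ_not
        · rw [image_singleton]
          exact T.atom _
      · obtain ⟨l, hl, a1, ⟨x, hx⟩, ⟨y, hy⟩, a4⟩ := hD.split s hs h
        have b1 : l.ncard < n :=
          hn ▸ ncard_lt_ncard ⟨a1, fun k => hy.2 (k hy.1)⟩ (toFinite s)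
        have b2 : (s \ l).ncard < n :=
          hn ▸ ncard_lt_ncard ⟨sdiff_subset, fun k => (k (a1 hx)).2 hx⟩ (toFinite s)
        have := T.union_small (ih _ b1 l hl rfl) (ih _ b2 _ a4 rfl)
        rw [← image_union, union_sdiff_cancel a1] at this
        exact this h1
  have := key _ _ hD.top rfl
  rwa [image_univ, Subtype.range_coe] at this

end Pool.Agent.MP_9d78a0_co.gm
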