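import Pool.Agent.MP_9d78a0_co.gm.BGrid
import Pool.Agent.MP_9d78a0_co.gm.SpecOp
import Pool.Agent.MP_9d78a0_co.gm.FCell
import Pool.Agent.MP_9d78a0_co.gm.COp2
import Pool.Agent.MP_9d78a0_co.gm.Tg
import Pool.Agent.MP_9d78a0_co.gm.JWf

-- ======== part 0: formerly Pool.Agent.MP_9d78a0_co.gm.A5
section MrgPart0

/-! Block A: descending from the new graph to the old piece. -/

set_option autoImplicit false

namespace Pool.Agent.MP_9d78a0_co.gm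

open Set Function

theorem ren_congr {π π' : W → W} {X : Pc} (h : ∀ v ∈ VV X, π v = π' v) : ren π X = ren π' X :=
  image_congr fun p hp => Prod.ext (h _ ⟨p, hp, Or.inl rfl⟩) (h _ ⟨p, hp, Or.inr rfl⟩)

theorem ofFn_elim {m n : ℕ} (a : Fin m → W) (b : Fin n → W) :
    List.ofFn a ++ List.ofFn b = List.ofFn (Sum.elim a b ∘ finSumFinEquiv.symm) := by
  rw [← List.ofFn_fin_append]
  congr 1
  funext i
  refine Fin.addCases (fun i => ?_) (fun i => ?_) i <;> simp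

theorem le_append {m n : ℕ} {X X' : Pc} {a a' : Fin m → W} {b b' : Fin n → W}
    (h : Le (X, List.ofFn a ++ List.ofFn b) (X', List.ofFn a' ++ List.ofFn b')) :
    RLe X (Sum.elim a b) X' (Sum.elim a' b') := by
  rw [ofFn_elim, ofFn_elim] at h
  simpa only [comp_assoc, Equiv.symm_comp_self, comp_id] using
    (le_ofFn.1 h).comp_surj finSumFinEquiv.surjective

theorem RLe.names {ι : Type} {X X' : Pc} {ρ ρ' : ι → W} (h : RLe X ρ X' ρ') :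
    RLe X (Sum.elim ρ Sum.inr) X' (Sum.elim ρ' Sum.inr) := by
  obtain ⟨B, h1, h2, h3⟩ := rle_iff.1 h
  refine rle_iff.2 ⟨B, ?_, by rintro (i | i); exacts [h2 i, h3 i], h3⟩
  simpa only [range_nm, union_assoc, union_self] using h1

/-- the map with the unused names fixed -/
def fixN (k : ℕ) (π : W → W) : W → W :=
  Sum.elim (fun v => π (Sum.inl v)) fun i => if i < k then π (Sum.inr i) else Sum.inr i

theorem Desc.dn {ν m n : ℕ} {P : Set ℕ} {X F G : Pc} {a : Fin m → W} {b : Fin n → W} {π : W → W}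
    (h : Desc ν P X (List.ofFn a) F (List.ofFn b) G π) :
    ren (fixN (ν + n) π) G = ren π G ∧
    Dn F (Sum.elim (Sum.elim a b) Sum.inr) G {i | ν ≤ i ∧ i < ν + n} ((ν + ·) '' P)
      (fun i => if c : i - ν < n then Sum.inl (Sum.inr ⟨i - ν, c⟩) else Sum.inr 0)
      (fixN (ν + n) π) := by
  have o : ∀ v ∈ Od, fixN (ν + n) π v = π v := by
    rintro _ ⟨v, rfl⟩
    rfl
  have nw : ∀ j (c : j < n), π (Sum.inr (ν + j)) = b ⟨j, c⟩ := fun j c => by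
    rw [h.new j (by simpa using c), List.getElem_ofFn]
  refine ⟨ren_congr fun v hv => ?_, fun j hj => ?_, fun j hj => ?_, ?_, fun u hu => ?_⟩
  · rcases od_or_nm v with c | ⟨i, rfl⟩
    · exact o v c
    · exact if_pos (by simpa using h.nmG i hv)
  · obtain ⟨j, rfl⟩ := Nat.exists_eq_add_of_le hj.1
    have c : j < n := by have := hj.2; omega
    simp only [fixN, Sum.elim_inr, if_pos hj.2, Nat.add_sub_cancel_left, dif_pos c, Sum.elim_inl]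
    exact nw j c
  · simp only [fixN, Sum.elim_inr]
    split_ifs with c
    exacts [h.old j (not_le.1 fun d => hj ⟨d, c⟩), rfl]
  · rintro _ ⟨j, hj, rfl⟩
    obtain ⟨c, u, a1, a2, a3⟩ := h.pend j hj
    have c : j < n := by simpa using c
    refine ⟨⟨by simp, by simpa using c⟩, u, ?_, a3⟩
    simp only [Nat.add_sub_cancel_left, dif_pos c, Sum.elim_inl, Sum.elim_inr]
    rw [o u a1, a2, nw j c]
  · refine (h.tied u hu).imp (fun ⟨j, hj, k⟩ => ⟨_, ⟨j, hj, rfl⟩, k⟩) fun k => ?_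
    rw [o u hu.2]
    refine ⟨⟨h.od.1 u hu.2, ?_⟩, fun u' hu' e => k.2.2.2 u' hu'.1 (o u' hu'.2 ▸ e)⟩
    rintro (c | ⟨(i | i) | i, c⟩)
    exacts [k.1 c, k.2.2.1 (List.mem_ofFn.2 ⟨i, c⟩), k.2.1 (List.mem_ofFn.2 ⟨i, c⟩),
      od_iff.1 (h.od.1 u hu.2) ⟨i, c⟩]

theorem descS : DescS := by
  intro ν P X X' F F' G G' a a' b b' π π' h h' e hF hG
  have e' : b'.length = b.length := by
    have := hF.length
    simp only [List.length_append] at this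
    omega
  obtain ⟨m, a', rfl⟩ := exists_ofFn' a'
  obtain ⟨a, rfl⟩ := exists_ofFn_len e
  obtain ⟨n, b, rfl⟩ := exists_ofFn' b
  obtain ⟨b', rfl⟩ := exists_ofFn_len e'
  obtain ⟨c1, c2⟩ := h.dn
  obtain ⟨d1, d2⟩ := h'.dn
  have k := dnS _ _ _ _ _ _ _ _ _ _ _ _ c2 d2 (le_append hF).names hG
  rw [c1, d1] at k
  have k1 : RLe X (Sum.elim (Sum.elim a b) Sum.inr) (F ∪ ren π G) _ := subS _ _ _ _
    (fun u v e => (h.cover.2 u v e).elim (fun c => gr_mono subset_union_left c)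
      fun ⟨u', v', c, d, d'⟩ => gr_mono subset_union_right (gr_ren.2 ⟨e.ne, u', v', c, d, d'⟩))
    fun v hv => Or.inl (Or.inl (by rw [VV_union, VV_ren]; exact h.cover.1 hv))
  have k2 : RLe (F' ∪ ren π' G') (Sum.elim (Sum.elim a' b') Sum.inr) X' _ := subS _ _ _ _
    (fun u v e => (gr_union e).elim (fun c => gr_mono h'.sub c) fun c => by
      obtain ⟨n, u', v', d, rfl, rfl⟩ := gr_ren.1 c
      exact (h'.back.2 u' v' d).resolve_left n) (by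
    rw [VV_union, VV_ren]
    rintro v (c | ⟨u, hu, rfl⟩)
    · exact Or.inl (Or.inl (VV_mono h'.sub c))
    rcases od_or_nm u with o | ⟨i, rfl⟩
    · exact Or.inl (Or.inl (h'.back.1 ⟨u, ⟨hu, o⟩, rfl⟩))
    by_cases c : i < ν
    · exact Or.inr ⟨i, (h'.old i c).symm⟩
    · obtain ⟨j, rfl⟩ := Nat.exists_eq_add_of_le (not_lt.1 c)
      rw [h'.new j (by simpa using h'.nmG _ hu)]
      exact Or.inl (Or.inl (h'.od.2.2 _ (List.getElem_mem _)).2))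
  refine le_ofFn.2 ((k1.trans (k.trans k2)).comp (Sum.inl ∘ Sum.inl) ?_)
  rintro ((i | i) | i) -
  exacts [Or.inl (Or.inr ⟨i, rfl⟩), Or.inl (Or.inl (h'.od.2.2 _ (List.mem_ofFn.2 ⟨i, rfl⟩)).2),
    Or.inr ⟨i, rfl⟩]

end Pool.Agent.MP_9d78a0_co.gm

end MrgPart0

-- ======== part 1: formerly Pool.Agent.MP_9d78a0_co.gm.FFin
section MrgPart1

/-! Block F: the assembly. -/

set_option autoImplicit false

namespace Pool.Agent.MP_9d78a0_co.gm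

open Set Function

namespace FFin

theorem up_diff {ε : Type} {M : Set (Set ε)} (hd : M.PairwiseDisjoint id) (A B : Set (parts M)) :
    up (A \ B) = up A \ up B := by
  have e : A \ B = (Aᶜ ∪ B)ᶜ := by ext; simp
  rw [e, up_compl hd, up_union, up_compl hd]
  ext; simp

theorem over_mono {σ : AG} {Y Y' : Set σ.ε} {A A' : Set Lab} {K K' : ℕ} (h : σ.Over Y A K)
    (hY : Y' ⊆ Y) (hA : A ⊆ A') (hK : K ≤ K') : σ.Over Y' A' K' :=
  fun a k => ⟨(h a (hY k)).1.mono hA, (h a (hY k)).2.trans hK⟩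

theorem om_mono {A A' : Set Lab} {K K' n : ℕ} (hA : A ⊆ A') (hK : K ≤ K') :
    Om A K n ⊆ Om A' K' n := by
  rintro l ⟨h0, σ, Y, h1, h2, h3, h4⟩
  exact ⟨h0, σ, Y, h1, over_mono h2 subset_rfl hA hK,
    (wdS _ _ σ.inc σ.inc_fin).1 Y Y K K' subset_rfl hK h3, h4⟩

theorem plan_mono {D : Dat} {j : D.t.ι} {Rs : Set Run} {n n' : ℕ} (h : D.Plan j Rs n)
    (k : n ≤ n') : D.Plan j Rs n' :=
  ⟨⟨h.fin.1, h.fin.2.trans k⟩, h.ok, h.sep, h.few.trans k, h.ty, h.mark⟩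

theorem pwo_lq {A : Set Lab} (h : Pwo A) (K : ℕ) : Pwo (Lq A K) :=
  h.union (pwo_le (fun k => omS A K k h) K)

/-- every side has a plan -/
theorem plans (hS : StrS) (hX : XS) (hD : FDeadS) (hC : CountS) (hL : SlidS) {D : Dat} (h : D.Ok)
    {n : ℕ} (hG : ∀ j, (D.md j = Md.keep → ∀ i, ¬ D.Clear j i) → ∃ Rs, D.Plan j Rs n) (j : D.t.ι) :
    ∃ Rs, D.Plan j Rs (n + 1) := by
  by_cases c : D.md j = Md.keep → ∀ i, ¬ D.Clear j i
  · obtain ⟨Rs, k⟩ := hG j c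
    exact ⟨Rs, plan_mono k (Nat.le_succ n)⟩
  · push Not at c
    obtain ⟨c, i, ci⟩ := c
    obtain ⟨k1, k2, -⟩ := h.pre.keep j c
    have k3 := (h.pre.old j (by rw [c]; exact fun e => Md.noConfusion e)).1
    have kf := hS D h k2
    have xf := hX D h kf
    obtain ⟨a, b, kp⟩ := hC D h kf xf (hD D h k2 k3 k1 kf xf) j i c ci
    obtain ⟨r, k⟩ := hL D h j a i b c ci kp
    exact ⟨{r}, plan_mono k (Nat.le_add_left 1 n)⟩

/-- the atoms of the result -/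
def Fn (A : Set Lab) (ν K : ℕ) : Set Lab := A ∪ (Nam (Lq A K) ν (K + 3) ∪ Pen ν)

theorem last (hQ : QuoS) (hCo : FCoreS) {D : Dat} (ok : D.Ok) {t1 : Sh D.σ} {Q : t1.ι → Set W}
    {src : t1.ι → D.t.ι} {lo : t1.ι → ℕ} {n2 n3 K ν w' : ℕ} {A A' : Set Lab}
    (rel : D.Rel t1 Q src lo n2) (rob : D.σ.Rob) (ovr : D.σ.Over univ A K)
    (nms : ∀ a i, Sum.inr i ∈ VV (D.σ.pc a) → i < ν)
    (hA' : ∀ C ∈ Cut D.e D.T D.N, D.e ∉ C → InA A' (D.σ.un C) (D.σ.bd C))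
    (hθ : 13 * D.n + n3 + 4 ≤ D.θ) (hw : D.n + n2 + n3 ≤ w')
    (hB : ∀ (τ : AG) (t : Sh τ) (Q : t.ι → Set W) (A : Set Lab) (K ν : ℕ) (O : Set τ.ε)
      (ρO : List W), t.Rdy Q A K ν n2 → O ⊆ t.rest → Enum ρO (τ.bd O) →
      ∃ σ' β' L' own' mk' ρN P π, Blt t Q A K ν n3 O ρO σ' β' L' own' mk' ρN P π)
    (G : Set Lab) (hG : G = Fn (A ∪ A') (ν + n3) (3 * D.θ + 2 * D.n + K)) (K' : ℕ)
    (hK : K' = 3 * D.θ + 2 * D.n + K + 3) :
    ∃ (F : Pc) (ρO ρN : List W) (P : Set ℕ) (π : W → W) (σ' : AG) (t' : Sh σ')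
      (ty' : t'.ι → Ty) (mk' : W → ℕ) (src : t'.ι → D.t.ι),
      Enum ρO (D.σ.bd (Out D.e D.T D.N)) ∧ ρO.length ≤ w' ∧ ρN.length ≤ w' ∧
      (F, ρO ++ ρN) ∈ Om G K' (ρO.length + ρN.length) ∧
      Desc ν P (D.σ.un (Out D.e D.T D.N)ᶜ) ρO F ρN (σ'.un univ) π ∧
      Fintype.card t'.ι ≤ w' ∧ t'.Mk.ncard ≤ w' ∧ Src D.t D.Sd D.Sb D.md D.tt t' ty' G K' src ∧
      ∀ k I q, D.t.s.M.eg ≤ (k : ℕ) → (I = G ∨ (D.t.Str ∧ D.t.Lb D.Sd I)) →
        ((D.t.s.H ∩ D.t.s.Vt).ncard + w' ≤ q ∨ (D.t.Str ∧ (D.t.s.H ∩ D.t.s.Vt).ncard ≤ q)) →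
        ∀ c, t'.Mk.ncard ≤ c →
          Tame ⟨k, I, q, Finset.univ.val.map ty', c, G, K', ν + w'⟩ σ' t' ty' mk' := by
  classical
  have g1 : A ∪ A' ⊆ G := hG ▸ subset_union_left
  obtain ⟨M, own, O, hd, rdy, hO, hO1, hr, hct, hbag, hfit⟩ :=
    hQ D t1 Q src lo n2 K ν A A' ok rel rob ovr nms hA'
  obtain ⟨ρO, eO⟩ := Enum.exists ((D.σ.quo M).bd_fin O)
  obtain ⟨σ', β', L', own', mk', ρN, P, π, bl⟩ :=
    hB (D.σ.quo M) (t1.re (D.σ.quo M) t1.Λ t1.β t1.L own) Q _ _ ν O ρO rdy hO1 eO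
  have g2 : σ'.Over univ G K' :=
    over_mono bl.atoms subset_rfl (hG ▸ subset_union_right) hK.ge
  have eO' : Enum ρO (D.σ.bd (Out D.e D.T D.N)) := by
    have := D.σ.quo_bd hd O
    rw [hO] at this
    exact this ▸ eO
  have lO : ρO.length ≤ D.n := by
    rw [eO'.length]
    rcases out_cases (e := D.e) (T := D.T) (N := D.N) D.σ.sym with k | k
    · rw [k.1]
      have : D.σ.bd ∅ = ∅ := by
        rw [D.σ.bd_eq]; simp [AG.vs]
      rw [this]; simp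
    · exact (ok.hull.cut _ k.1).1
  have eR : up (M := M) ((t1.re (D.σ.quo M) t1.Λ t1.β t1.L own).rest \ O) =
      t1.rest \ Out D.e D.T D.N := (up_diff hd _ _).trans (congrArg₂ _ hr hO)
  have lN := bl.len
  let full : t1.ι → Prop := fun j => D.md (src j) ≠ Md.new ∧ t1.d j = D.t.d (src j) ∧
      (∀ i < t1.m j, Disjoint (Q j) (D.σ.vs (t1.bag j i)) ∧
        Le (t1.letter j i) (D.t.letter (src j) (lo j + i))) ∧
      (D.md (src j) = Md.keep → ∀ j', src j' = src j → j' = j)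
  refine ⟨D.σ.un (t1.rest \ Out D.e D.T D.N), ρO, ρN, P, π, σ',
    (t1.re (D.σ.quo M) t1.Λ t1.β t1.L own).re σ' ∅ β' L' own',
    fun j => if full j then D.tt (src j) (lo j) else ⟨t1.d j, G, K', ∅⟩,
    mk', src, eO', by omega, by omega, ?_, ?_, rel.cnt.1.trans (by omega),
    bl.marks.1.trans (by omega), ⟨fun j => ?_, fun k1 k2 k3 k4 => ?_⟩, ?_⟩
  · rw [← List.length_append]
    refine om_mono g1 (by omega)
      (hCo D t1 Q src lo n2 K A A' (ρO ++ ρN) ok rel rob ovr hA' ?_ ?_ ?_)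
    · rw [List.length_append]; omega
    · exact ((D.σ.quo_bd hd _).trans (congrArg D.σ.bd eR)).symm.subset.trans bl.roots.1
    · intro v hv
      rcases List.mem_append.1 hv with k | k
      · have k' : v ∈ D.σ.bd (Out D.e D.T D.N) := eO'.2.subset k
        exact D.σ.vs_mono (subset_compl_iff_disjoint_right.2 disjoint_sdiff_right)
          (D.σ.bd_vs _ k')
      · have := ((D.σ.quo_vs _).trans (congrArg D.σ.vs
          ((up_compl hd _).trans (congrArg compl hr)))).subset (bl.roots.2 v k)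
        exact D.σ.vs_mono (compl_subset_compl.2 sdiff_subset) this
  · have e1 := (D.σ.quo_un Oᶜ).trans (congrArg D.σ.un ((up_compl hd _).trans (congrArg compl hO)))
    have e2 := (D.σ.quo_un _).trans (congrArg D.σ.un eR)
    exact e1 ▸ e2 ▸ bl.desc
  · by_cases c : full j
    · left
      have := (rel.bag j 0 (rel.mid.len j)).2
      exact ⟨c.1, ⟨lo j, this.1, this.2, if_pos c⟩, c.2.2.2⟩
    · right
      exact ⟨if_neg c, (rel.ty j).resolve_left c⟩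
  · obtain ⟨k5, k6⟩ := rel.marks k1 k2 k3 k4
    refine (bl.marks.2 k6).trans ((ncard_le_ncard k5 ok.kc.fin.2.2.1).trans ?_)
    refine ok.hull.least k2 D.Sd subset_rfl ok.hull.sm.2.2 fun j hj => ?_
    rw [(k4 j).1] at hj
    exact Md.noConfusion hj
  · intro k I q hk hI hq c hc
    refine ⟨bl.rob, bl.ok, rfl, rel.eg.trans hk, ?_, rfl, hc, g2,
      fun a i h => (bl.names a i h).trans_le (show ν + n3 ≤ ν + w' by omega), rel.fc,
      fun x hx => ?_, fun j i hi => ?_, bl.move, bl.pend, bl.pex⟩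
    · rcases hq with hq | hq
      · exact rel.holes.1.trans (le_trans (by omega) hq)
      · exact (rel.holes.2 hq.1).trans hq.2
    · obtain ⟨a, h1, h2, h3⟩ := bl.cell x hx
      refine ⟨a, h1, fun ρ hρ => ?_⟩
      rcases hI with rfl | ⟨hs, hI⟩
      · exact Mem.of_mem (hG.symm.subset (Or.inr (Or.inl (h2 ρ hρ))))
      · have hx' : x ∈ D.Ck := rel.ce.subset hx
        obtain ⟨c1, c2, c3⟩ := rel.cell x hx'
        obtain ⟨b, b1, b2⟩ := hs x hx'.1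
        have e1 : t1.ct x = D.t.ct x := by
          refine c1.trans (sdiff_eq_left.2 (disjoint_left.2 fun y hy hw =>
            hx'.2 (Or.inl ⟨hx'.1, ?_⟩)))
          rw [b1] at hy ⊢
          exact singleton_subset_iff.2 ((show y = b from hy) ▸ hw)
        have e3 := (hct x).trans e1
        have e2 := h3 (by
          intro v hv
          have := ((D.σ.quo_vs _).trans (congrArg D.σ.vs (e3.trans b1))).subset hv.1
          exact c2.symm.subset (b2 ⟨by simpa [AG.vs] using this, rel.lam.subset hv.2⟩))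
        rw [e2.trans ((D.σ.quo_un _).trans (congrArg D.σ.un e3))]
        exact hI x ⟨hx'.1, (ok.kc.out x hx').2⟩ ρ (c3 hρ)
    · by_cases c : full j
      · have ho := (ok.pre.old _ c.1).2
        have hc : ∀ i < t1.m j, D.tt (src j) (lo j + i) = D.tt (src j) (lo j) := by
          intro i
          induction i with
          | zero => exact fun _ => rfl
          | succ i ih =>
            intro hi
            have b1 := (rel.bag j i (by omega)).2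
            have b2 := (rel.bag j (i + 1) hi).2
            exact ((ho _ b1.1).2.2 b2.1 b1.2 b2.2).symm.trans (ih (by omega))
        have b1 := (rel.bag j i hi).2
        have f1 := (ho _ b1.1).2.1 b1.2
        rw [hc i hi] at f1
        have f2 := hfit j i hi _ c.1 c.2.1 f1 (c.2.2.1 i hi).2
        have f3 := (bl.fits j i hi).2 _ f2 ((c.2.2.1 i hi).1.mono_right
          ((D.σ.quo_vs _).trans (congrArg D.σ.vs (hbag j i))).subset)
        exact (if_pos c).symm ▸ f3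
      · have f3 : ((t1.re (D.σ.quo M) t1.Λ t1.β t1.L own).re σ' ∅ β' L' own').Fits j i
            ⟨t1.d j, G, K', ∅⟩ := ⟨rfl, over_mono g2 (subset_univ _) subset_rfl le_rfl,
          (wdS _ _ σ'.inc σ'.inc_fin).1 _ _ _ _ subset_rfl
            (show 3 * D.θ + 2 * D.n + K ≤ K' by omega) (bl.fits j i hi).1, fun ω h => h.elim⟩
        exact (if_neg c).symm ▸ f3

end FFin

open FFin in
theorem finS (hU : UpS) (hT : TerS) (hH : HullS) (hCe : CellS) (hS : StrS) (hX : XS) (hD : FDeadS)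
    (hC : CountS) (hL : SlidS) (hG : GenS) (hM : MidS) (hQ : QuoS) (hCo : FCoreS) (hN : NamS)
    (hB : BuildS) : FinS := by
  intro w ν K
  obtain ⟨n, hwn, hH⟩ := hH w K
  obtain ⟨n1, hG⟩ := hG n
  obtain ⟨n2, hM⟩ := hM n (n1 + 1)
  obtain ⟨n3, hB⟩ := hB n2
  refine ⟨13 * n + n3 + 4, n + n2 + n3, fun θ hθ => ⟨3 * θ + 2 * n + K + 3, fun A hA =>
    ⟨fun A' => Fn (A ∪ A') (ν + n3) (3 * θ + 2 * n + K), fun A' hA' => (hA.union hA').union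
      (((hN _ _ _).1 (pwo_lq (hA.union hA') _)).union (hN ∅ _ 0).2), ?_⟩⟩⟩
  intro σ T e t Sd Sb md tt g R B hR hg rob ovr nms pre
  obtain ⟨U0, fr⟩ := pre.frame
  have up0 := hU σ t g R B U0 pre.ok fr (by omega)
  have ter := hT σ t pre.ok up0
  obtain ⟨Ws, N, hull⟩ := hH σ θ g R T e t Sd Sb md tt B (by omega)
    (fun a => (ovr a trivial).2) pre up0 ter
  refine ⟨N, hull.nt, fun A' hA' => ?_⟩
  obtain ⟨Cc, cc, kc⟩ := hCe ⟨σ, θ, g, w, R, n, T, e, t, Sd, Sb, md, tt, B, U0, Ws, N, ∅⟩ pre up0 ter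
    hull hwn (show 4 * n + 4 ≤ θ by omega)
  have ok : Dat.Ok ⟨σ, θ, g, w, R, n, T, e, t, Sd, Sb, md, tt, B, U0, Ws, N, Cc⟩ :=
    ⟨pre, fr, up0, ter, hull, ⟨hwn, show 4 * n + 4 ≤ R by omega,
      show 4 * n + 4 ≤ g by omega, show 4 * n + 4 ≤ θ by omega⟩, cc, kc⟩
  choose Rs hRs using plans hS hX hD hC hL ok (hG _ ok rfl)
  obtain ⟨t1, Q, src, lo, rel⟩ := hM _ ok rfl (hS _ ok) Rs hRs
  exact last hQ hCo ok rel rob ovr nms hA' hθ le_rfl hB _ rfl _ rfl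

end Pool.Agent.MP_9d78a0_co.gm

end MrgPart1

-- ======== part 2: formerly Pool.Agent.MP_9d78a0_co.gm.FUp
section MrgPart2

/-! Block F: spokes go to different nodes; sets between live positions stay between them. -/

set_option autoImplicit false

namespace Pool.Agent.MP_9d78a0_co.gm

open Set Function

namespace FUp

theorem rot_fl {s : Sk} (h : s.Ok) {f : s.Φ} (hf : f ∈ s.M.fl s.vx s.H) (i : ℕ) :
    s.M.rot^[i] f ∈ s.M.fl s.vx s.H := by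
  induction i with
  | zero => exact hf
  | succ i ih => rw [iterate_succ_apply']; exact ((fSkS s h).2.1 _ ih).2.2.1

theorem adj_a {s : Sk} (h : s.Ok) {f : s.Φ} (hf : f ∈ s.M.S) :
    s.G.Adj (s.vx f) (s.vx (s.M.a f)) := ⟨(h.hm.simple f hf).1, f, hf, Or.inl ⟨rfl, rfl⟩⟩

end FUp

open FUp

theorem upS : UpS := by
  intro σ t g R B U0 h F hR
  obtain ⟨a1, a2, -, a4⟩ := fSepS _ _ _ _ _ U0 g R B h.ok.hm F hR
  have one : ∀ f ∈ t.s.M.fl t.s.vx t.s.H, ∀ g ∈ t.s.M.fl t.s.vx t.s.H,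
      t.s.vx (t.s.M.a f) = t.s.vx (t.s.M.a g) → t.s.vx f = t.s.vx g := by
    intro f hf g hg e
    have r : ∀ f ∈ t.s.M.fl t.s.vx t.s.H, t.s.vx f ∈ t.s.M.rad t.s.vx t.s.H := fun f hf =>
      ⟨f, hf.1, hf.2, f, Relation.ReflTransGen.refl, rfl⟩
    refine a4 {t.s.vx f, t.s.vx (t.s.M.a f), t.s.vx g} (a1.mono_left ?_) _
      ⟨⟨hf.2, by simp⟩, f, hf.1, rfl⟩ _ ⟨hg.2, g, hg.1, rfl⟩
      ((Link.single (by simp) (by simp) (adj_a h.ok hf.1)).trans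
        (Link.single (by simp) (by simp) (e ▸ (adj_a h.ok hg.1).symm)))
    rintro _ (rfl | rfl | rfl)
    exacts [r f hf, a2 f hf, r g hg]
  have key : ∀ j i, ∀ f ∈ t.s.M.fl t.s.vx t.s.H, t.s.far f = t.u j i →
      f = t.φ j i ∨ f = t.s.M.c (t.φ j i) := fun j i f hf e => by
    have p := rot_fl h.ok (h.hole j) i
    have q : t.s.vx (t.s.M.a f) = t.s.vx (t.s.M.a (t.φ j i)) := by
      rw [((fSkS _ h.ok).2.1 _ hf).1, e]
      exact ((fSkS _ h.ok).2.1 _ p).1.symm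
    exact h.spoke _ p f hf.1 (one f hf _ p q) q
  refine ⟨one, fun j j' i hi i' hi' e => ?_, fun f hf j i hi e => ?_⟩
  · exact (key j i _ (rot_fl h.ok (h.hole j') i') e.symm).elim (h.sep j j' i hi i' hi').2
      fun k => absurd k (h.sep j j' i hi i' hi').1
  · exact (key j i f hf.1 e).elim (hf.2 j i hi).1 (hf.2 j i hi).2

theorem xS : XS := by
  intro D hD hK j a i b S ai ib bm la lb s1 s2 s3 s4 v ⟨x, hx, hv⟩ hS
  have h := hD.pre.ok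
  have hM := h.ok.hm.ok
  have hL := h.ok.hm.lbl
  obtain ⟨-, k2, k3, k4, -⟩ := hK.big _ subset_rfl hK.bk
  obtain ⟨f, hf, rfl, rfl⟩ := (fSkS _ h.ok).2.2.1 x hx v hv
  have fl := rot_fl h.ok (h.hole j)
  have vu : ∀ k, D.t.s.vx (D.t.s.M.a (D.t.s.M.rot^[k] (D.t.φ0 j))) = Sum.inl (D.t.u j k) :=
    fun k => ((fSkS _ h.ok).2.1 _ (fl k)).1
  obtain ⟨r1, r2, r3, r4, -⟩ := fRotS _ _ _ hM (h.hole j).1
  have vh : ∀ k, D.t.s.vx (D.t.φ0 j) = D.t.s.vx (D.t.s.M.rot^[k] (D.t.φ0 j)) := fun k =>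
    (hL _ (h.hole j).1 _ (r3 k).2).2 (r3 k).1
  have e : D.t.s.vx (D.t.φ0 j) = D.t.s.vx f := by
    refine (fSepS _ _ _ _ _ _ _ _ _ h.ok.hm hD.frame (by have := hD.num; omega)).2.2.2
      (S ∪ {D.t.s.vx (D.t.φ0 j), D.t.s.vx f}) (disjoint_union_left.2
        ⟨s3.mono_right (k3.trans subset_union_left), disjoint_left.2 ?_⟩) _
      ⟨⟨(h.hole j).2, by simp⟩, _, (h.hole j).1, rfl⟩ _ ⟨hf.2, f, hf.1, rfl⟩ ?_
    · rintro _ (rfl | rfl) k
      exacts [(hD.frame.sub k).2 (h.hole j).2, (hD.frame.sub k).2 hf.2]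
    · refine Link.trans (Link.trans (Link.single (Or.inr (Or.inl rfl)) (Or.inl s4) ?_)
        ((s2.2 _ s4 _ hS).mono subset_union_left)) (Link.single (Or.inl hS) (Or.inr (Or.inr rfl)) ?_)
      · rw [vh i, ← vu i]; exact adj_a h.ok (fl i).1
      · rw [← ((fSkS _ h.ok).2.1 _ hf).1]; exact (adj_a h.ok hf.1).symm
  obtain ⟨k, c1, c2⟩ := r4 f ((hL _ (h.hole j).1 _ hf.1).1 e)
  have c3 : D.t.s.far f = D.t.u j k := by
    rcases c2 with rfl | rfl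
    exacts [rfl, ((fSkS _ h.ok).2.1 _ (fl k)).2.2.2.2.2.2.1]
  rw [c3] at hS ⊢
  by_contra n
  have n1 : k ≠ a := fun q => disjoint_left.1 s3 hS (Or.inr (Or.inl (q ▸ rfl)))
  have n2 : k ≠ b := fun q => disjoint_left.1 s3 hS (Or.inr (Or.inr (q ▸ rfl)))
  have n3 : ¬ (a < k ∧ k < b) := fun q => n ⟨k, q.1, q.2, rfl⟩
  have bn : b < (D.t.s.M.vo (D.t.φ0 j)).ncard / 2 := by
    by_contra q
    have := ((h.sep j j 0 (by omega) _ ((not_lt.1 q).trans bm)).2 r2).2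
    omega
  have cn : ∀ c, D.Live j c → ∀ y ∈ D.K D.brk,
      Link D.t.s.G (D.K D.brk ∪ {Sum.inl (D.t.u j c)}) y (Sum.inl (D.t.u j c)) := by
    rintro c (l | ⟨z, z1, z2⟩) y hy
    exacts [(k2.2 _ hy _ l).mono subset_union_left, ((k2.2 _ hy _ z1).mono subset_union_left).trans
      (Link.single (Or.inl z1) (Or.inr rfl) z2.symm)]
  obtain ⟨y, hy⟩ := k2.1
  refine FM.cross hM hL (K := D.K D.brk ∪ {Sum.inl (D.t.u j a), Sum.inl (D.t.u j b)})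
    (fb.conn_of_center (Or.inl hy) ?_) (hD.frame.full.mono hM hL (k3.trans subset_union_left)).1
    s3.symm (h.hole j).1 ?_ (fun q => (s1 q).2 (h.hole j).2) ai ib (by omega) bn c1
    (vu a ▸ Or.inr (Or.inl rfl)) (vu b ▸ Or.inr (Or.inr rfl)) (vu i ▸ s4) (vu k ▸ hS)
    (by rw [vu, vu]; exact s2.2 _ s4 _ hS)
  · rintro z (q | rfl | rfl)
    exacts [(k2.2 _ hy _ q).mono subset_union_left,
      (cn a la y hy).mono (union_subset_union_right _ (by simp)),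
      (cn b lb y hy).mono (union_subset_union_right _ (by simp))]
  · obtain ⟨n, q⟩ := h.ok.hr.1 (h.hole j).2
    rintro (z | z | z)
    exacts [(k4 z).2 (h.hole j).2, Sum.inr_ne_inl (q.trans z), Sum.inr_ne_inl (q.trans z)]

end Pool.Agent.MP_9d78a0_co.gm

end MrgPart2

-- ======== part 3: formerly Pool.Agent.MP_9d78a0_co.gm.FTer
section MrgPart3

/-! Block F, row TER: cuts, parts and territories. -/

set_option autoImplicit false

namespace Pool.Agent.MP_9d78a0_co.gm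

open Set Function

namespace FTer

variable {σ : AG} {t : Sh σ}

theorem mem_vs {U : Set σ.ε} {v : W} : v ∈ σ.vs U ↔ ∃ a ∈ U, v ∈ σ.inc a := by
  simp only [AG.vs, mem_iUnion, exists_prop]

theorem vs_od {U : Set σ.ε} {v : W} (h : v ∈ σ.vs U) : v ∈ Od := by
  obtain ⟨a, -, k⟩ := mem_vs.1 h
  exact k.2

theorem un_mono (U : Set σ.ε) : σ.un U ⊆ σ.un univ := biUnion_subset_biUnion_left (subset_univ _)

theorem link_up {X X' : Pc} {S : Set W} {u v : W} (h : X ⊆ X') (k : Link (gr X) S u v) :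
    Link (gr X') S u v :=
  Link.map (G' := gr X') id (fun _ ha _ hb e => Link.single ha hb (gr_mono h e)) k

/-- a walk along which the membership in `vs D` changes meets the boundary of `D` -/
theorem link_pay {S : Set W} (D : Set σ.ε) (hS : S ⊆ Od) {x y : W}
    (h : Link (gr (σ.un univ)) S x y) (c : ¬ (x ∈ σ.vs D ↔ y ∈ σ.vs D)) :
    (S ∩ σ.bd D).Nonempty := by
  induction h with
  | refl => exact absurd Iff.rfl c
  | @tail b d _ hbd ih =>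
    by_cases e : x ∈ σ.vs D ↔ b ∈ σ.vs D
    · obtain ⟨hb, hd, -, k⟩ := hbd
      have key : ∃ a, b ∈ σ.inc a ∧ d ∈ σ.inc a := by
        rcases k with k | k <;> simp only [AG.un, mem_iUnion] at k <;> obtain ⟨a, -, k⟩ := k
        · exact ⟨a, ⟨⟨_, k, Or.inl rfl⟩, hS hb⟩, ⟨⟨_, k, Or.inr rfl⟩, hS hd⟩⟩
        · exact ⟨a, ⟨⟨_, k, Or.inr rfl⟩, hS hb⟩, ⟨⟨_, k, Or.inl rfl⟩, hS hd⟩⟩
      obtain ⟨a, h1, h2⟩ := key
      by_cases ha : a ∈ D
      · exact absurd (e.trans (iff_of_true (mem_vs.2 ⟨a, ha, h1⟩) (mem_vs.2 ⟨a, ha, h2⟩))) c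
      · by_cases q : b ∈ σ.vs D
        · exact ⟨b, hb, mem_vs.1 q, a, ha, h1⟩
        · have q' : d ∈ σ.vs D := by
            by_contra q'
            exact c (e.trans (iff_of_false q q'))
          exact ⟨d, hd, mem_vs.1 q', a, ha, h2⟩
    · exact ih e

theorem ent_lt {j : t.ι} {i l : ℕ} (h : l < t.d j) : t.ent j i l = t.β j i l := if_pos h

theorem ent_d (j : t.ι) (i : ℕ) : t.ent j i (t.d j) = t.u j i := if_neg (lt_irrefl _)

theorem mem_kap {j : t.ι} {i : ℕ} {v : W} : v ∈ t.κ j i ↔ ∃ l ≤ t.d j, t.ent j i l = v := by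
  constructor
  · rintro (h | ⟨l, hl, h⟩)
    · exact ⟨_, le_rfl, (ent_d j i).trans h.symm⟩
    · exact ⟨l, hl.le, (ent_lt hl).trans h⟩
  · rintro ⟨l, hl, h⟩
    rcases hl.lt_or_eq with hl | rfl
    · exact Or.inr ⟨l, hl, (ent_lt hl).symm.trans h⟩
    · exact Or.inl (h.symm.trans (ent_d j i))

theorem cut (j : t.ι) (i : ℕ) : t.κ j i = {v | ∃ l ≤ t.d j, t.ent j i l = v} ∧ (t.κ j i).Finite ∧
    (t.κ j i).ncard ≤ t.d j + 1 := by
  have e : t.κ j i = t.ent j i '' Iic (t.d j) := Set.ext fun _ => mem_kap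
  refine ⟨Set.ext fun _ => mem_kap, e ▸ (finite_Iic _).image _, ?_⟩
  rw [e]
  refine (ncard_image_le (finite_Iic _)).trans ?_
  rw [← Finset.coe_Iic, ncard_coe_finset, Nat.card_Iic]

theorem phi_succ (j : t.ι) (i : ℕ) : t.φ j (i + 1) = t.s.M.rot (t.φ j i) :=
  Function.iterate_succ_apply' _ _ _

theorem nb_vt (h : t.Ok) {x : MV} {v : W} (k : v ∈ t.s.nb x) : Sum.inl v ∈ t.s.Vt :=
  ((fSkS t.s h.ok).2.2.2.1 _ _ (SimpleGraph.Adj.symm k)).1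

theorem phi_fl (h : t.Ok) (j : t.ι) (i : ℕ) :
    t.φ j i ∈ t.s.M.fl t.s.vx t.s.H ∧ t.s.vx (t.φ j i) = t.s.vx (t.φ0 j) := by
  induction i with
  | zero => exact ⟨h.hole j, rfl⟩
  | succ i ih =>
    obtain ⟨-, -, k1, k2, -⟩ := (fSkS t.s h.ok).2.1 _ ih.1
    rw [phi_succ]
    exact ⟨k1, k2.trans ih.2⟩

theorem u_nb (h : t.Ok) (j : t.ι) (i : ℕ) : t.u j i ∈ t.s.nb (t.s.vx (t.φ0 j)) :=
  (phi_fl h j i).2 ▸ ((fSkS t.s h.ok).2.1 _ (phi_fl h j i).1).2.1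

theorem u_vt (h : t.Ok) (j : t.ι) (i : ℕ) : Sum.inl (t.u j i) ∈ t.s.Vt := nb_vt h (u_nb h j i)

theorem u_od (h : t.Ok) (j : t.ι) (i : ℕ) : t.u j i ∈ Od := h.ok.od _ (u_vt h j i)

theorem far_po (h : t.Ok) {f : t.s.Φ} (hf : f ∈ t.Fx) : t.s.far f ∈ t.s.Po :=
  ⟨_, hf.1.2, ((fSkS t.s h.ok).2.1 _ hf.1).2.1⟩

theorem po_vt (h : t.Ok) {v : W} (k : v ∈ t.s.Po) : Sum.inl v ∈ t.s.Vt := by
  obtain ⟨x, -, k⟩ := k
  exact nb_vt h k

theorem lk_nb (h : t.Ok) {j : t.ι} {i : ℕ} (hi : i < t.m j) :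
    t.u j i ∈ t.s.nb (t.lk j i) ∧ t.u j (i + 1) ∈ t.s.nb (t.lk j i) ∧
      (t.lk j i ∈ t.s.Rm → t.s.nb (t.lk j i) = {t.u j i, t.u j (i + 1)}) := by
  obtain ⟨k1, k2, -, k3⟩ :=
    ((fSkS t.s h.ok).2.1 _ (phi_fl h j i).1).2.2.2.2.2.2.2 (h.quad j i hi).1
  have e : t.u j (i + 1) = t.s.far (t.s.M.rot (t.φ j i)) := congrArg _ (phi_succ j i)
  rw [e]
  exact ⟨k1, k2, k3⟩

theorem rim_vs (h : t.Ok) (hu : t.Up) {j : t.ι} {i : ℕ} (hi : i < t.m j)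
    (r : t.lk j i ∈ t.s.Rm) :
    t.u j i ∈ σ.vs (t.bag j i) ∧ t.u j (i + 1) ∈ σ.vs (t.bag j i) := by
  obtain ⟨k1, k2, k3, k4⟩ := h.path j i hi r
  have ne : t.u j (i + 1) ≠ t.u j i := fun e => by
    have := (hu.pos j j (i + 1) hi i hi.le e).2
    omega
  refine ⟨?_, ((k4 k3).1.resolve_right ne)⟩
  rw [← AG.vs_un]
  refine ⟨?_, u_od h j i⟩
  by_contra c
  exact ne (conn_out k1 k2 k3 c)

/-- nodes and vertices of cuts -/
def Sp (t : Sh σ) (v : W) : Prop := Sum.inl v ∈ t.s.Vt ∨ ∃ j, ∃ i ≤ t.m j, v ∈ t.κ j i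

theorem mk_sp (h : t.Ok) {v : W} (k : v ∈ t.Mk) : Sp t v := by
  rcases k with k | ⟨f, hf, rfl⟩
  · obtain ⟨j, k | k⟩ := mem_iUnion.1 k
    exacts [Or.inr ⟨j, 0, Nat.zero_le _, k⟩, Or.inr ⟨j, _, le_rfl, k⟩]
  · exact Or.inl (po_vt h (far_po h hf))

/-- sharing, with the unowned atoms included -/
theorem shr (h : t.Ok) {a : σ.ε} {v : W} (hv : v ∈ σ.inc a) (hl : v ∉ t.Λ)
    (k : Sp t v ∨ ∃ a', t.own a' ≠ t.own a ∧ v ∈ σ.inc a') :
    (∀ x, t.own a = some (Sum.inl x) → v ∈ t.s.nb x) ∧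
    (∀ j i, t.own a = some (Sum.inr (j, i)) → v ∈ t.κ j i ∪ t.κ j (i + 1)) ∧
    (t.own a = none → v ∈ t.Mk) := by
  refine h.share a v ⟨hv, hl⟩ ?_
  rcases k with (k | k) | ⟨a', k1, k2⟩
  · exact Or.inl k
  · exact Or.inr (Or.inl k)
  · by_cases c : t.own a' = none
    · have := (h.share a' v ⟨k2, hl⟩
        (Or.inr (Or.inr ⟨a, k1.symm, fun e => k1 (c.trans e.symm), hv⟩))).2.2 c
      exact (mk_sp h this).imp_right Or.inl
    · exact Or.inr (Or.inr ⟨a', k1, c, k2⟩)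

theorem bdc (h : t.Ok) (x : MV) : σ.bd (t.ct x) ⊆ t.s.nb x ∪ t.Λ := by
  rintro v ⟨⟨a, ha, hv⟩, a', ha', hv'⟩
  by_cases c : v ∈ t.Λ
  · exact Or.inr c
  · exact Or.inl ((shr h hv c (Or.inr ⟨a', fun e => ha' (e.trans ha), hv'⟩)).1 x ha)

theorem bdb (h : t.Ok) (j : t.ι) (i : ℕ) :
    σ.bd (t.bag j i) ⊆ t.κ j i ∪ t.κ j (i + 1) ∪ t.Λ := by
  rintro v ⟨⟨a, ha, hv⟩, a', ha', hv'⟩
  by_cases c : v ∈ t.Λ
  · exact Or.inr c
  · exact Or.inl ((shr h hv c (Or.inr ⟨a', fun e => ha' (e.trans ha), hv'⟩)).2.1 j i ha)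

theorem mkn (h : t.Ok) (v : W) (k : v ∈ t.Mk) (hv : Sum.inl v ∈ t.s.Vt) : v ∈ t.s.Po := by
  have key : ∀ j, ∀ i ≤ t.m j, v ∈ t.κ j i → v ∈ t.s.Po := by
    rintro j i hi (rfl | ⟨l, hl, rfl⟩)
    · exact ⟨_, (h.hole j).2, u_nb h j i⟩
    · by_cases c : t.β j i l ∈ t.Λ
      · obtain ⟨f, hf, e⟩ := h.lamn _ c hv
        exact e ▸ far_po h hf
      · exact absurd hv ((h.inner j i hi l hl).2 c)
  rcases k with k | ⟨f, hf, rfl⟩
  · obtain ⟨j, k | k⟩ := mem_iUnion.1 k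
    exacts [key j 0 (Nat.zero_le _) k, key j _ le_rfl k]
  · exact far_po h hf

/-- an entry off `Λ` that is a node belongs to the last lane -/
theorem ent_node (h : t.Ok) {j : t.ι} {i l : ℕ} (hi : i ≤ t.m j) (hl : l ≤ t.d j)
    (c : t.ent j i l ∉ t.Λ) (k : Sum.inl (t.ent j i l) ∈ t.s.Vt) : l = t.d j := by
  rcases hl.lt_or_eq with hl | hl
  · rw [ent_lt hl] at c k
    exact absurd k ((h.inner j i hi l hl).2 c)
  · exact hl

theorem ent_inj (h : t.Ok) (hu : t.Up) {j j' : t.ι} {i i' l l' : ℕ} (hi : i ≤ t.m j)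
    (hi' : i' ≤ t.m j') (hl : l ≤ t.d j) (hl' : l' ≤ t.d j') (c : t.ent j i l ∉ t.Λ)
    (e : t.ent j i l = t.ent j' i' l') : j = j' ∧ l = l' := by
  rcases hl.lt_or_eq with k | rfl
  · rcases hl'.lt_or_eq with k' | rfl
    · rw [ent_lt k] at c e
      rw [ent_lt k'] at e
      exact h.priv j j' i hi i' hi' l k l' k' c e
    · rw [ent_d] at e
      exact absurd (ent_node h hi hl c (e ▸ u_vt h j' i')) k.ne
  · have k' : l' = t.d j' := ent_node h hi' hl' (e ▸ c) (e ▸ (ent_d j i).symm ▸ u_vt h j i)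
    subst k'
    rw [ent_d, ent_d] at e
    obtain ⟨rfl, -⟩ := hu.pos j j' i hi i' hi' e
    exact ⟨rfl, rfl⟩

theorem ent_conv (h : t.Ok) (hu : t.Up) {j : t.ι} {i k i' l : ℕ} {z : W} (hl : l ≤ t.d j)
    (h1 : i ≤ k) (h2 : k ≤ i') (h3 : i' ≤ t.m j) (c : z ∉ t.Λ) (e : z = t.ent j i l)
    (e' : z = t.ent j i' l) : z = t.ent j k l := by
  rcases hl.lt_or_eq with q | rfl
  · rw [ent_lt q] at e e' ⊢
    subst e
    exact (h.conv j l q i k i' h1 h2 h3 c e').symm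
  · rw [ent_d] at e e' ⊢
    have := (hu.pos j j i (by omega) i' h3 (e.symm.trans e')).2
    obtain rfl : k = i := by omega
    exact e

theorem ter_bag {j : t.ι} {i l : ℕ} (c : l < t.d j ∨ t.lk j i ∈ t.s.Rm) :
    t.ter j i l = t.L j i l := if_pos c

theorem ter_cell {j : t.ι} {i l : ℕ} (c : ¬ (l < t.d j ∨ t.lk j i ∈ t.s.Rm)) :
    t.ter j i l =
      {t.u j i, t.u j (i + 1)} ∪ σ.vs (t.ct (t.lk j i)) \ (t.Λ ∪ t.s.nb (t.lk j i)) := if_neg c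

theorem act_lane (h : t.Ok) {j : t.ι} {i l : ℕ} (a : t.Act j i l)
    (c : l < t.d j ∨ t.lk j i ∈ t.s.Rm) :
    t.Lane j i (t.L j i l) (t.ent j i l) (t.ent j (i + 1) l) := by
  obtain ⟨hi, hl, c1, c2⟩ := a
  rcases hl.lt_or_eq with q | rfl
  · rw [ent_lt q] at c1 c2
    rw [ent_lt q, ent_lt q]
    exact (h.lane j i hi l q c1 c2).1
  · rw [ent_d, ent_d]
    exact h.path j i hi (c.resolve_left (lt_irrefl _))

theorem act_d {j : t.ι} {i l : ℕ} (a : t.Act j i l) (c : ¬ (l < t.d j ∨ t.lk j i ∈ t.s.Rm)) :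
    l = t.d j := le_antisymm a.2.1 (not_lt.1 fun q => c (Or.inl q))

theorem link (h : t.Ok) (j : t.ι) (i l : ℕ) (a : t.Act j i l) :
    Link (gr (σ.un univ)) (t.ter j i l) (t.ent j i l) (t.ent j (i + 1) l) ∧
    t.ent j i l ∈ t.ter j i l ∧ t.ent j (i + 1) l ∈ t.ter j i l ∧ t.ter j i l ⊆ Od \ t.Λ := by
  by_cases c : l < t.d j ∨ t.lk j i ∈ t.s.Rm
  · obtain ⟨k1, k2, k3, k4⟩ := act_lane h a c
    rw [ter_bag c]
    refine ⟨link_up (un_mono _) (k1.2 _ k2 _ k3), k2, k3, fun z hz => ⟨?_, (k4 hz).2⟩⟩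
    rcases (k4 hz).1 with q | q
    · exact vs_od q
    · rw [mem_singleton_iff.1 q]
      rcases a.2.1.lt_or_eq with q | rfl
      · rw [ent_lt q]
        exact (h.inner j i a.1.le l q).1
      · rw [ent_d]
        exact u_od h j i
  · obtain rfl := act_d a c
    have hc : t.lk j i ∈ t.s.Ce := (h.quad j i a.1).2.resolve_left fun q => c (Or.inr q)
    obtain ⟨n1, n2, -⟩ := lk_nb h a.1
    rw [ter_cell c, ent_d, ent_d]
    refine ⟨link_up (un_mono (t.ct (t.lk j i))) ?_, Or.inl (Or.inl rfl), Or.inl (Or.inr rfl), ?_⟩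
    · have key : ∀ z ∈ (Od \ (t.Λ \ t.s.nb (t.lk j i))) \
          (t.s.nb (t.lk j i) \ {t.u j i, t.u j (i + 1)}), z ∈ VV (σ.un (t.ct (t.lk j i))) →
          z ∈ ({t.u j i, t.u j (i + 1)} ∪
            σ.vs (t.ct (t.lk j i)) \ (t.Λ ∪ t.s.nb (t.lk j i)) : Set W) := by
        rintro z ⟨⟨z1, z2⟩, z3⟩ z4
        by_cases q : z ∈ t.s.nb (t.lk j i)
        · exact Or.inl (by_contra fun q' => z3 ⟨q, q'⟩)
        · refine Or.inr ⟨σ.vs_un _ ▸ ⟨z4, z1⟩, ?_⟩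
          rintro (q' | q')
          exacts [z2 ⟨q', q⟩, q q']
      exact Link.map (G' := gr (σ.un (t.ct (t.lk j i)))) id
        (fun x hx y hy e => Link.single (key x hx (gr_mem e)) (key y hy (gr_mem e.symm)) e)
        ((h.solid _ hc).1.two _ n1 _ n2)
    · rintro z ((rfl | rfl) | ⟨q, q'⟩)
      exacts [⟨u_od h j i, h.ulam j i a.1.le⟩, ⟨u_od h j _, h.ulam j _ a.1⟩,
        ⟨vs_od q, fun r => q' (Or.inl r)⟩]

open Classical in
/-- the owner of the interior of a territory -/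
noncomputable def ow (t : Sh σ) (j : t.ι) (i l : ℕ) : Option (MV ⊕ t.ι × ℕ) :=
  if l < t.d j ∨ t.lk j i ∈ t.s.Rm then some (Sum.inr (j, i)) else some (Sum.inl (t.lk j i))

/-- a vertex of a lane that lies in one of the two cuts is the entry of the lane -/
theorem lane_cut (h : t.Ok) {j : t.ι} {i l : ℕ} (a : t.Act j i l) {z : W} (hz : z ∈ t.L j i l)
    (k : z ∈ t.κ j i ∪ t.κ j (i + 1)) : z = t.ent j i l ∨ z = t.ent j (i + 1) l := by
  obtain ⟨hi, hl, c1, c2⟩ := a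
  have hu : l ≠ t.d j → t.u j i ∉ t.L j i l ∧ t.u j (i + 1) ∉ t.L j i l := fun q => by
    have q' := lt_of_le_of_ne hl q
    rw [ent_lt q'] at c1 c2
    exact (h.lane j i hi l q' c1 c2).2
  rcases k with k | k <;> obtain ⟨l', hl', rfl⟩ := mem_kap.1 k <;> by_cases e : l = l'
  · exact Or.inl (e ▸ rfl)
  · rcases hl'.lt_or_eq with q | rfl
    · exact absurd (ent_lt q ▸ hz) (h.lent j i hi l hl l' q e).1
    · exact absurd (ent_d j i ▸ hz) (hu e).1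
  · exact Or.inr (e ▸ rfl)
  · rcases hl'.lt_or_eq with q | rfl
    · exact absurd (ent_lt q ▸ hz) (h.lent j i hi l hl l' q e).2
    · exact absurd (ent_d j (i + 1) ▸ hz) (hu e).2

/-- a vertex of a territory is an entry or private -/
theorem tri (h : t.Ok) {j : t.ι} {i l : ℕ} (a : t.Act j i l) {z : W} (hz : z ∈ t.ter j i l) :
    (∃ k, i ≤ k ∧ k ≤ i + 1 ∧ z = t.ent j k l) ∨
      (¬ Sp t z ∧ (∃ b, z ∈ σ.inc b) ∧ ∀ b, z ∈ σ.inc b → t.own b = ow t j i l) := by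
  have hl := ((link h j i l a).2.2.2 hz).2
  by_cases e : z = t.ent j i l ∨ z = t.ent j (i + 1) l
  · rcases e with e | e
    exacts [Or.inl ⟨i, le_rfl, by omega, e⟩, Or.inl ⟨i + 1, by omega, le_rfl, e⟩]
  right
  by_cases c : l < t.d j ∨ t.lk j i ∈ t.s.Rm
  · rw [ter_bag c] at hz
    obtain ⟨b, hb, hzb⟩ := mem_vs.1
      (((act_lane h a c).2.2.2 hz).1.resolve_right fun q => e (Or.inl q))
    have key : ¬ (Sp t z ∨ ∃ a', t.own a' ≠ t.own b ∧ z ∈ σ.inc a') := fun q =>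
      e (lane_cut h a hz ((shr h hzb hl q).2.1 j i hb))
    refine ⟨fun q => key (Or.inl q), ⟨b, hzb⟩, fun b' hb' => ?_⟩
    rw [ow, if_pos c]
    exact (by_contra fun q => key (Or.inr ⟨b', q, hb'⟩) : t.own b' = t.own b).trans hb
  · obtain rfl := act_d a c
    rw [ter_cell c] at hz
    rw [ent_d, ent_d] at e
    obtain ⟨q1, q2⟩ := hz.resolve_left e
    obtain ⟨b, hb, hzb⟩ := mem_vs.1 q1
    have key : ¬ (Sp t z ∨ ∃ a', t.own a' ≠ t.own b ∧ z ∈ σ.inc a') := fun q =>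
      q2 (Or.inr ((shr h hzb hl q).1 _ hb))
    refine ⟨fun q => key (Or.inl q), ⟨b, hzb⟩, fun b' hb' => ?_⟩
    rw [ow, if_neg c]
    exact (by_contra fun q => key (Or.inr ⟨b', q, hb'⟩) : t.own b' = t.own b).trans hb

theorem ent_sp {j : t.ι} {k l : ℕ} {z : W} (hk : k ≤ t.m j) (hl : l ≤ t.d j)
    (e : z = t.ent j k l) : Sp t z := Or.inr ⟨j, k, hk, mem_kap.2 ⟨l, hl, e.symm⟩⟩

theorem ink (h : t.Ok) (hu : t.Up) (j : t.ι) (i l : ℕ) (a : t.Act j i l) (z : W)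
    (hz : z ∈ t.ter j i l) (j' : t.ι) (k : ℕ) (hk : k ≤ t.m j') (q : z ∈ t.κ j' k) :
    j' = j ∧ z = t.ent j k l := by
  have hl := ((link h j i l a).2.2.2 hz).2
  rcases tri h a hz with ⟨k0, -, k2, rfl⟩ | ⟨c, -⟩
  · obtain ⟨l', hl', e⟩ := mem_kap.1 q
    obtain ⟨rfl, rfl⟩ := ent_inj h hu (k2.trans a.1) hk a.2.1 hl' hl e.symm
    exact ⟨rfl, e.symm⟩
  · exact absurd (Or.inr ⟨j', k, hk, q⟩) c

theorem meet (h : t.Ok) (hu : t.Up) (j : t.ι) (i l : ℕ) (j' : t.ι) (i' l' : ℕ) (a : t.Act j i l)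
    (a' : t.Act j' i' l') (z : W) (hz : z ∈ t.ter j i l ∩ t.ter j' i' l') :
    j = j' ∧ l = l' ∧ ∀ k, i < k → k ≤ i' → z = t.ent j k l := by
  have hl := ((link h j i l a).2.2.2 hz.1).2
  rcases tri h a hz.1 with ⟨k0, -, k2, e⟩ | ⟨c, ⟨b, hb⟩, o⟩
  · rcases tri h a' hz.2 with ⟨k1, k3, k4, e'⟩ | ⟨c, -⟩
    · obtain ⟨rfl, rfl⟩ := ent_inj h hu (k2.trans a.1) (k4.trans a'.1) a.2.1 a'.2.1 (e ▸ hl)
        (e.symm.trans e')
      exact ⟨rfl, rfl, fun k p1 p2 =>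
        ent_conv h hu a.2.1 (by omega) (by omega) (k4.trans a'.1) hl e e'⟩
    · exact absurd (ent_sp (k2.trans a.1) a.2.1 e) c
  · rcases tri h a' hz.2 with ⟨k1, -, k4, e'⟩ | ⟨-, -, o'⟩
    · exact absurd (ent_sp (k4.trans a'.1) a'.2.1 e') c
    · have e := (o b hb).symm.trans (o' b hb)
      unfold ow at e
      split_ifs at e with p p' p'
      · obtain ⟨rfl, rfl⟩ := Prod.mk.inj (Sum.inr.inj (Option.some.inj e))
        refine ⟨rfl, by_contra fun q => ?_, fun k p1 p2 => by omega⟩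
        have h1 := hz.1
        have h2 := hz.2
        rw [ter_bag p] at h1
        rw [ter_bag p'] at h2
        exact disjoint_left.1 (h.ldis j i a.1 l a.2.1 l' a'.2.1 q) h1 h2
      · cases e
      · cases e
      · obtain ⟨rfl, rfl⟩ := h.lkinj j j' i a.1 i' a'.1 (Sum.inl.inj (Option.some.inj e))
        exact ⟨rfl, (act_d a p).trans (act_d a' p').symm, fun k p1 p2 => by omega⟩

theorem inb (h : t.Ok) (hu : t.Up) (j : t.ι) (i l : ℕ) (a : t.Act j i l) (z : W)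
    (hz : z ∈ t.ter j i l) (j' : t.ι) (i' : ℕ) (q : z ∈ σ.vs (t.bag j' i')) :
    j' = j ∧ (∀ k, i < k → k ≤ i' → z = t.ent j k l) ∧
      ∀ k, i' < k → k ≤ i → z = t.ent j k l := by
  have hl := ((link h j i l a).2.2.2 hz).2
  obtain ⟨b, hb, hzb⟩ := mem_vs.1 q
  have hi' := h.ownb b j' i' hb
  rcases tri h a hz with ⟨k0, k1, k2, e⟩ | ⟨-, -, o⟩
  · have key : ∃ k3, i' ≤ k3 ∧ k3 ≤ i' + 1 ∧ z ∈ t.κ j' k3 := by
      rcases (shr h hzb hl (Or.inl (ent_sp (k2.trans a.1) a.2.1 e))).2.1 j' i' hb with r | r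
      exacts [⟨i', le_rfl, by omega, r⟩, ⟨i' + 1, by omega, le_rfl, r⟩]
    obtain ⟨k3, k4, k5, r⟩ := key
    obtain ⟨rfl, e'⟩ := ink h hu j i l a z hz j' k3 (k5.trans hi') r
    exact ⟨rfl, fun k p1 p2 => ent_conv h hu a.2.1 (by omega) (by omega) (k5.trans hi') hl e e',
      fun k p1 p2 => ent_conv h hu a.2.1 (by omega) (by omega) (k2.trans a.1) hl e' e⟩
  · have e := (o b hzb).symm.trans hb
    unfold ow at e
    split_ifs at e
    · obtain ⟨rfl, rfl⟩ := Prod.mk.inj (Sum.inr.inj (Option.some.inj e))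
      exact ⟨rfl, fun k p1 p2 => by omega, fun k p1 p2 => by omega⟩
    · cases e

theorem inc (h : t.Ok) (j : t.ι) (i l : ℕ) (a : t.Act j i l) (z : W)
    (hz : z ∈ t.ter j i l) (x : MV) (q : z ∈ σ.vs (t.ct x)) :
    l = t.d j ∧ (z = t.u j i ∨ z = t.u j (i + 1) ∨ (x = t.lk j i ∧ z ∉ t.s.nb x)) := by
  have hl := ((link h j i l a).2.2.2 hz).2
  obtain ⟨b, hb, hzb⟩ := mem_vs.1 q
  rcases tri h a hz with ⟨k0, k1, k2, e⟩ | ⟨c, -, o⟩
  · have r := (shr h hzb hl (Or.inl (ent_sp (k2.trans a.1) a.2.1 e))).1 x hb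
    obtain rfl := ent_node h (k2.trans a.1) a.2.1 (e ▸ hl) (e ▸ nb_vt h r)
    rw [ent_d] at e
    obtain rfl | rfl : k0 = i ∨ k0 = i + 1 := by omega
    exacts [⟨rfl, Or.inl e⟩, ⟨rfl, Or.inr (Or.inl e)⟩]
  · have e := (o b hzb).symm.trans hb
    unfold ow at e
    split_ifs at e with p
    · cases e
    · exact ⟨act_d a p, Or.inr (Or.inr ⟨(Sum.inl.inj (Option.some.inj e)).symm,
        fun r => c (Or.inl (nb_vt h r))⟩)⟩

theorem inr (h : t.Ok) (hu : t.Up) (j : t.ι) (i l : ℕ) (a : t.Act j i l) (z : W)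
    (hz : z ∈ t.ter j i l) (q : z ∈ σ.vs t.rest) :
    (∀ k ≤ i, z = t.ent j k l) ∨ ∀ k ≤ t.m j, i < k → z = t.ent j k l := by
  have hl := ((link h j i l a).2.2.2 hz).2
  obtain ⟨b, hb, hzb⟩ := mem_vs.1 q
  rcases tri h a hz with ⟨k0, k1, k2, e⟩ | ⟨-, -, o⟩
  · rcases (shr h hzb hl (Or.inl (ent_sp (k2.trans a.1) a.2.1 e))).2.2 hb with r | ⟨f, hf, r⟩
    · obtain ⟨j', r | r⟩ := mem_iUnion.1 r
      · obtain ⟨-, e'⟩ := ink h hu j i l a z hz j' 0 (Nat.zero_le _) r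
        exact Or.inl fun k p =>
          ent_conv h hu a.2.1 (Nat.zero_le _) (by omega) (k2.trans a.1) hl e' e
      · obtain ⟨rfl, e'⟩ := ink h hu j i l a z hz j' _ le_rfl r
        exact Or.inr fun k p1 p2 => ent_conv h hu a.2.1 (by omega) p1 le_rfl hl e e'
    · obtain rfl := ent_node h (k2.trans a.1) a.2.1 (e ▸ hl) (e ▸ r ▸ po_vt h (far_po h hf))
      rw [ent_d] at e
      exact absurd (r.trans e) (hu.fx f hf j k0 (k2.trans a.1))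
  · have e := (o b hzb).symm.trans hb
    unfold ow at e
    split_ifs at e

theorem pay (h : t.Ok) (D : Set σ.ε) (j : t.ι) (l i0 i1 : ℕ) (hi : i0 ≤ i1)
    (a : ∀ i, i0 ≤ i → i < i1 → t.Act j i l)
    (c : ¬ (t.ent j i0 l ∈ σ.vs D ↔ t.ent j i1 l ∈ σ.vs D)) :
    ∃ i, i0 ≤ i ∧ i < i1 ∧ (t.ter j i l ∩ σ.bd D).Nonempty := by
  induction i1, hi using Nat.le_induction with
  | base => exact absurd Iff.rfl c
  | succ n hn ih =>
    by_cases e : t.ent j i0 l ∈ σ.vs D ↔ t.ent j n l ∈ σ.vs D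
    · obtain ⟨k1, -, -, k2⟩ := link h j n l (a n hn (Nat.lt_succ_self n))
      exact ⟨n, hn, Nat.lt_succ_self n,
        link_pay D (fun z hz => (k2 hz).1) k1 fun q => c (e.trans q)⟩
    · obtain ⟨i, p1, p2, p3⟩ := ih (fun i p1 p2 => a i p1 (by omega)) e
      exact ⟨i, p1, by omega, p3⟩

end FTer

/-- row TER -/
theorem terS : TerS := fun _ _ h hu =>
  { cut := FTer.cut
    node := fun j i _ =>
      ⟨⟨FTer.u_vt h j i, _, rfl⟩, (FTer.phi_fl h j i).1, (FTer.phi_fl h j i).2, FTer.u_nb h j i⟩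
    lk := fun _ _ hi => ⟨(FTer.lk_nb h hi).1, (FTer.lk_nb h hi).2.1,
      fun r => ⟨(FTer.lk_nb h hi).2.2 r, FTer.rim_vs h hu hi r⟩⟩
    bdc := FTer.bdc h
    bdb := FTer.bdb h
    mkn := FTer.mkn h
    link := FTer.link h
    meet := FTer.meet h hu
    inb := FTer.inb h hu
    inc := FTer.inc h
    inr := FTer.inr h hu
    ink := FTer.ink h hu
    pay := FTer.pay h }

end Pool.Agent.MP_9d78a0_co.gm

end MrgPart3

-- ======== part 4: formerly Pool.Agent.MP_9d78a0_co.gm.FIso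
section MrgPart4

/-! Row ISO: a set that avoids a few atoms is not cheaper than its part in a bag. -/

set_option autoImplicit false

namespace Pool.Agent.MP_9d78a0_co.gm

open Set Function

namespace FIso

variable {σ : AG} {t : Sh σ}

theorem mem_vs {U : Set σ.ε} {v : W} : v ∈ σ.vs U ↔ ∃ a ∈ U, v ∈ σ.inc a := by
  simp only [AG.vs, mem_iUnion, exists_prop]

theorem mem_bd {U : Set σ.ε} {v : W} : v ∈ σ.bd U ↔ v ∈ σ.vs U ∧ v ∈ σ.vs Uᶜ := by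
  rw [mem_vs, mem_vs]; rfl

theorem bd_compl (U : Set σ.ε) : σ.bd Uᶜ = σ.bd U := hbd_compl U

theorem vs_mono {U U' : Set σ.ε} (h : U ⊆ U') : σ.vs U ⊆ σ.vs U' := fun _ hv =>
  let ⟨a, ha, k⟩ := mem_vs.1 hv
  mem_vs.2 ⟨a, h ha, k⟩

/-- along a run of bags without a transition the entries of a lane stay outside the exceptional set -/
theorem step (ok : t.Ok) {j : t.ι} {k l : ℕ} (hk : k < t.m j) (htr : (j, k) ∉ t.Tr) :
    t.ent j k l ∈ t.Λ ↔ t.ent j (k + 1) l ∈ t.Λ := by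
  unfold Sh.ent
  split_ifs with h
  · by_contra c
    exact htr ⟨hk, l, h, c⟩
  · exact iff_of_false (ok.ulam j k hk.le) (ok.ulam j (k + 1) hk)

theorem run (ok : t.Ok) {j : t.ι} {a l : ℕ} (b : ℕ) (hab : a ≤ b) (hb : b ≤ t.m j)
    (htr : ∀ k, a ≤ k → k < b → (j, k) ∉ t.Tr) :
    t.ent j a l ∈ t.Λ ↔ t.ent j b l ∈ t.Λ := by
  induction b, hab using Nat.le_induction with
  | base => rfl
  | succ b hab ih =>
    exact (ih (by omega) fun k h1 h2 => htr k h1 (by omega)).trans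
      (step ok hb (htr b hab (by omega)))

theorem act (ok : t.Ok) {j : t.ι} {a b c l : ℕ} (hl : l ≤ t.d j) (hb : b ≤ t.m j)
    (htr : ∀ k, a ≤ k → k < b → (j, k) ∉ t.Tr) (h1 : a ≤ c) (h2 : c ≤ b)
    (hc : t.ent j c l ∉ t.Λ) {k : ℕ} (k1 : a ≤ k) (k2 : k < b) : t.Act j k l := by
  have h0 : t.ent j a l ∉ t.Λ := fun h =>
    hc ((run ok c h1 (h2.trans hb) fun k x y => htr k x (by omega)).1 h)
  refine ⟨by omega, hl, fun h => h0 ?_, fun h => h0 ?_⟩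
  · exact (run ok k k1 (by omega) fun k x y => htr k x (by omega)).2 h
  · exact (run ok (k + 1) (by omega) (by omega) fun k x y => htr k x (by omega)).2 h

/-- an inner vertex of `C` and a guarded vertex are separated by `C` or by its complement -/
theorem side {C : Set σ.ε} {v x : W} (h1 : v ∈ σ.vs C) (h2 : v ∉ σ.vs Cᶜ)
    (hx : x ∈ σ.vs univ → x ∈ σ.vs Cᶜ) :
    ∃ D, σ.bd D = σ.bd C ∧ ¬ (x ∈ σ.vs D ↔ v ∈ σ.vs D) := by
  by_cases c : x ∈ σ.vs univ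
  · exact ⟨Cᶜ, bd_compl C, fun h => h2 (h.1 (hx c))⟩
  · exact ⟨C, rfl, fun h => c (vs_mono (subset_univ _) (h.2 h1))⟩

/-- `z` pays for `v` -/
def Pays (t : Sh σ) (j : t.ι) (i : ℕ) (v z : W) : Prop :=
  ∃ l k, t.Act j k l ∧ z ∈ t.ter j k l ∧
    ((k < i ∧ v = t.ent j i l) ∨ (i < k ∧ v = t.ent j (i + 1) l))

theorem pays (ok : t.Ok) (ter : t.Ter) {Sb : t.ι → ℕ → Prop} (htr : ∀ p ∈ t.Tr, Sb p.1 p.2)
    {C : Set σ.ε} {j : t.ι} {i : ℕ} (hi : i < t.m j) (hs : ¬ Sb j i)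
    (hg : ∀ k, k = 0 ∨ k = t.m j ∨ (0 < k ∧ k < t.m j ∧ ¬ (Sb j (k - 1) ↔ Sb j k)) →
      ∀ l ≤ t.d j, t.ent j k l ∈ σ.vs univ → t.ent j k l ∈ σ.vs Cᶜ)
    {v : W} (h1 : v ∈ σ.vs C) (h2 : v ∉ σ.vs Cᶜ) (h3 : v ∉ t.Λ)
    (h4 : v ∈ t.κ j i ∪ t.κ j (i + 1)) : ∃ z ∈ σ.bd C, Pays t j i v z := by
  classical
  rw [(ter.cut j i).1, (ter.cut j (i + 1)).1] at h4
  rcases h4 with ⟨l, hl, rfl⟩ | ⟨l, hl, rfl⟩
  · have ex : ∃ a, a ≤ i ∧ ∀ k, a ≤ k → k ≤ i → ¬ Sb j k :=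
      ⟨i, le_rfl, fun k x y => by rwa [le_antisymm y x]⟩
    obtain ⟨a1, a2⟩ := Nat.find_spec ex
    set a := Nat.find ex with ha
    have hA : ∀ k, a ≤ k → k < i → t.Act j k l := fun k x y =>
      act ok hl hi.le (fun k x y h => a2 k x y.le (htr _ h)) a1 le_rfl h3 x y
    have ga : a = 0 ∨ a = t.m j ∨ (0 < a ∧ a < t.m j ∧ ¬ (Sb j (a - 1) ↔ Sb j a)) := by
      rcases Nat.eq_zero_or_pos a with h | h
      · exact .inl h
      refine .inr (.inr ⟨h, by omega, fun c => Nat.find_min ex (m := a - 1) (by omega)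
        ⟨by omega, fun k x y => ?_⟩⟩)
      rcases x.eq_or_lt with rfl | x
      · exact fun s => a2 a le_rfl a1 (c.1 s)
      · exact a2 k (by omega) y
    obtain ⟨D, d1, d2⟩ := side h1 h2 (hg a ga l hl)
    obtain ⟨k, k1, k2, z, z1, z2⟩ := ter.pay D j l a i a1 hA d2
    exact ⟨z, d1 ▸ z2, l, k, hA k k1 k2, z1, .inl ⟨k2, rfl⟩⟩
  · have ex : ∃ b, i + 1 ≤ b ∧ (b = t.m j ∨ Sb j b) := ⟨t.m j, hi, .inl rfl⟩
    obtain ⟨b1, b2⟩ := Nat.find_spec ex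
    have b3 : Nat.find ex ≤ t.m j := Nat.find_min' ex ⟨hi, .inl rfl⟩
    set b := Nat.find ex with hb
    have b4 : ∀ k, i ≤ k → k < b → ¬ Sb j k := fun k x y => by
      rcases x.eq_or_lt with rfl | x
      · exact hs
      · exact fun s => Nat.find_min ex y ⟨x, .inr s⟩
    have hA : ∀ k, i + 1 ≤ k → k < b → t.Act j k l := fun k x y =>
      act ok hl b3 (fun k x y h => b4 k (by omega) y (htr _ h)) le_rfl b1 h3 x y
    have gb : b = 0 ∨ b = t.m j ∨ (0 < b ∧ b < t.m j ∧ ¬ (Sb j (b - 1) ↔ Sb j b)) := by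
      rcases b3.eq_or_lt with h | h
      · exact .inr (.inl h)
      exact .inr (.inr ⟨by omega, h, fun c => b4 (b - 1) (by omega) (by omega)
        (c.2 (b2.resolve_left h.ne))⟩)
    obtain ⟨D, d1, d2⟩ := side h1 h2 (hg b gb l hl)
    obtain ⟨k, k1, k2, z, z1, z2⟩ := ter.pay D j l (i + 1) b b1 hA fun c => d2 c.symm
    exact ⟨z, d1 ▸ z2, l, k, hA k k1 k2, z1, .inr ⟨k1, rfl⟩⟩

theorem Pays.out (ter : t.Ter) {j : t.ι} {i : ℕ} {v z : W} (h : Pays t j i v z)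
    (hz : z ∈ σ.vs (t.bag j i)) : z = v := by
  obtain ⟨l, k, a, z1, ⟨k1, rfl⟩ | ⟨k1, rfl⟩⟩ := h
  · exact (ter.inb j k l a z z1 j i hz).2.1 i k1 le_rfl
  · exact (ter.inb j k l a z z1 j i hz).2.2 (i + 1) (by omega) k1

theorem Pays.inj (ter : t.Ter) {j : t.ι} {i : ℕ} {v v' z : W} (h : Pays t j i v z)
    (h' : Pays t j i v' z) : v = v' ∨ z = v ∨ z = v' := by
  obtain ⟨l, k, a, z1, c⟩ := h
  obtain ⟨l', k', a', z2, c'⟩ := h'
  obtain ⟨-, rfl, m1⟩ := ter.meet j k l j k' l' a a' z ⟨z1, z2⟩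
  obtain ⟨-, -, m2⟩ := ter.meet j k' l j k l a' a z ⟨z2, z1⟩
  rcases c with ⟨k1, rfl⟩ | ⟨k1, rfl⟩ <;> rcases c' with ⟨k2, rfl⟩ | ⟨k2, rfl⟩
  · exact .inl rfl
  · exact .inr (.inl (m1 i k1 k2.le))
  · exact .inr (.inr (m2 i k2 k1.le))
  · exact .inl rfl

theorem core (ter : t.Ter) {C : Set σ.ε} {j : t.ι} {i : ℕ}
    (hl : ∀ v ∈ t.Λ, v ∈ σ.vs univ → v ∈ σ.vs Cᶜ)
    (hp : ∀ v ∈ σ.vs C, v ∉ σ.vs Cᶜ → v ∉ t.Λ → v ∈ t.κ j i ∪ t.κ j (i + 1) →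
      ∃ z ∈ σ.bd C, Pays t j i v z) :
    σ.f (C ∩ t.bag j i) ≤ σ.f C ∧
      (C ⊆ t.bag j i → σ.vs C ∩ (t.Λ ∪ t.κ j i ∪ t.κ j (i + 1)) ⊆ σ.bd C) := by
  have := σ.fin
  constructor
  · have ex : ∀ v, ∃ z, v ∈ σ.bd (C ∩ t.bag j i) → z ∈ σ.bd C ∧
        ((z = v ∧ v ∈ σ.vs (t.bag j i)) ∨ (v ∉ σ.bd C ∧ Pays t j i v z)) := by
      intro v
      by_cases hv : v ∈ σ.bd (C ∩ t.bag j i)
      swap
      · exact ⟨v, fun h => absurd h hv⟩
      obtain ⟨v1, v2⟩ := mem_bd.1 hv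
      have v3 := vs_mono inter_subset_left v1
      have v4 := vs_mono inter_subset_right v1
      by_cases c : v ∈ σ.vs Cᶜ
      · exact ⟨v, fun _ => ⟨mem_bd.2 ⟨v3, c⟩, .inl ⟨rfl, v4⟩⟩⟩
      have nl : v ∉ t.Λ := fun h => c (hl v h (vs_mono (subset_univ _) v3))
      obtain ⟨a, a1, a2⟩ := mem_vs.1 v2
      have a3 : a ∈ (t.bag j i)ᶜ := fun h => a1 ⟨by_contra fun k => c (mem_vs.2 ⟨a, k, a2⟩), h⟩
      obtain ⟨z, z1, z2⟩ := hp v v3 c nl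
        ((ter.bdb j i (mem_bd.2 ⟨v4, mem_vs.2 ⟨a, a3, a2⟩⟩)).resolve_right nl)
      exact ⟨z, fun _ => ⟨z1, .inr ⟨fun h => c (mem_bd.1 h).2, z2⟩⟩⟩
    choose F hF using ex
    refine ncard_le_ncard_of_injOn F (fun v hv => (hF v hv).1) (fun v hv v' hv' e => ?_)
      (hbd_fin σ.inc_fin C)
    obtain ⟨z1, c⟩ := hF v hv
    obtain ⟨-, c'⟩ := hF v' hv'
    rw [← e] at c'
    rcases c with ⟨c1, c2⟩ | ⟨c1, c2⟩ <;> rcases c' with ⟨c3, c4⟩ | ⟨c3, c4⟩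
    · exact c1.symm.trans c3
    · exact absurd (c4.out ter (by rw [c1]; exact c2) ▸ z1) c3
    · exact absurd (c2.out ter (by rw [c3]; exact c4) ▸ z1) c1
    · rcases c2.inj ter c4 with h | h | h
      · exact h
      · exact absurd (h ▸ z1) c1
      · exact absurd (h ▸ z1) c3
  · rintro hC v ⟨v1, v2⟩
    refine mem_bd.2 ⟨v1, by_contra fun c => ?_⟩
    have nl : v ∉ t.Λ := fun h => c (hl v h (vs_mono (subset_univ _) v1))
    rw [union_assoc] at v2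
    obtain ⟨z, z1, z2⟩ := hp v v1 c nl (v2.resolve_left nl)
    exact c (z2.out ter (vs_mono hC (mem_bd.1 z1).1) ▸ (mem_bd.1 z1).2)

end FIso

open FIso in
theorem isoS : IsoS := by
  intro w
  refine ⟨w + 3 * w * (w + 1), fun σ θ g R T e t Sd Sb md tt B pre _ ter => ?_⟩
  have ex : ∀ v, ∃ a, v ∈ σ.vs univ → v ∈ σ.inc a := fun v => by
    by_cases h : v ∈ σ.vs univ
    · obtain ⟨a, -, k⟩ := mem_vs.1 h
      exact ⟨a, fun _ => k⟩
    · exact ⟨e, fun k => absurd k h⟩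
  choose ch hch using ex
  obtain ⟨-, c1, c2, -, c3⟩ := pre.cnt
  set Bk : Set (t.ι × ℕ) := {p | p.2 + 1 < t.m p.1 ∧ ¬ (Sb p.1 p.2 ↔ Sb p.1 (p.2 + 1))} with hBk
  have bf : Bk.Finite := by
    refine (finite_iUnion fun j : t.ι => ((finite_lt_nat (t.m j)).image fun i => (j, i))).subset ?_
    rintro ⟨j, i⟩ h
    exact mem_iUnion.2 ⟨j, i, (by omega : i + 1 < t.m j → i < t.m j) h.1, rfl⟩
  set Ps : Set (t.ι × ℕ) := (range fun j => (j, 0)) ∪ (range fun j => (j, t.m j)) ∪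
    (fun p => (p.1, p.2 + 1)) '' Bk with hPs
  have pf : Ps.Finite := ((finite_range _).union (finite_range _)).union (bf.image _)
  have rc : ∀ F : t.ι → t.ι × ℕ, (range F).ncard ≤ w := fun F => by
    rw [← image_univ]
    refine (ncard_image_le finite_univ).trans ?_
    rwa [ncard_univ, Nat.card_eq_fintype_card]
  have pc : Ps.ncard ≤ 3 * w := by
    have h1 := rc fun j => (j, 0)
    have h2 := rc fun j => (j, t.m j)
    have h3 := (ncard_image_le (f := fun p : t.ι × ℕ => (p.1, p.2 + 1)) bf).trans pre.brk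
    refine (ncard_union_le _ _).trans ((add_le_add (ncard_union_le _ _) h3).trans (by omega))
  set X : Set W := (fun q : (t.ι × ℕ) × ℕ => t.ent q.1.1 q.1.2 q.2) '' (Ps ×ˢ Iic w) with hX
  have xf : X.Finite := (pf.prod (finite_Iic w)).image _
  have xc : X.ncard ≤ 3 * w * (w + 1) := by
    refine (ncard_image_le (pf.prod (finite_Iic w))).trans ?_
    rw [ncard_prod, ← Finset.coe_Iic, ncard_coe_finset, Nat.card_Iic]
    exact Nat.mul_le_mul_right _ pc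
  refine ⟨ch '' t.Λ, ch '' (t.Λ ∪ X), image_mono subset_union_left,
    (ncard_image_le (pre.ok.lam.2.union xf)).trans ((ncard_union_le _ _).trans (add_le_add c2 xc)),
    fun v hv => mem_vs.2 ⟨ch v, mem_image_of_mem _ hv.1, hch v hv.2⟩, fun j i hi hs C hC => ?_⟩
  have gd : ∀ v ∈ t.Λ ∪ X, v ∈ σ.vs univ → v ∈ σ.vs Cᶜ := fun v hv h =>
    mem_vs.2 ⟨ch v, fun k => disjoint_left.1 hC k (mem_image_of_mem _ hv), hch v h⟩
  refine core ter (fun v hv => gd v (.inl hv)) fun v h1 h2 h3 h4 =>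
    pays pre.ok ter pre.tr hi hs (fun k hk l hl => gd _ (.inr ⟨((j, k), l), ⟨?_, hl.trans (c3 j)⟩,
      rfl⟩)) h1 h2 h3 h4
  rcases hk with rfl | rfl | ⟨k1, k2, k3⟩
  · exact .inl (.inl ⟨j, rfl⟩)
  · exact .inl (.inr ⟨j, rfl⟩)
  · obtain ⟨k, rfl⟩ : ∃ k', k = k' + 1 := ⟨k - 1, by omega⟩
    exact .inr ⟨(j, k), ⟨k2, k3⟩, rfl⟩

end Pool.Agent.MP_9d78a0_co.gm

end MrgPart4

-- ======== part 5: formerly Pool.Agent.MP_9d78a0_co.gm.FHull
section MrgPart5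

/-! Block F, row HULL: the hull of the seed. -/

set_option autoImplicit false

namespace Pool.Agent.MP_9d78a0_co.gm

open Set Function

namespace HullAux

variable {ε : Type} {f : Set ε → ℕ} {θ : ℕ}

/-- a small set together with few small sets of small order is small -/
theorem add_small (hf : Sym f) (T : Tangle f θ) {S : Set ε} (hS : S ∈ T.sm) {P : ε → Set ε}
    {c : ℕ} {I : Set ε} (hI : I.Finite) (hP : ∀ a ∈ I, P a ∈ T.sm ∧ f (P a) ≤ c)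
    (h : f S + I.ncard * c < θ) :
    S ∪ ⋃ a ∈ I, P a ∈ T.sm ∧ f (S ∪ ⋃ a ∈ I, P a) ≤ f S + I.ncard * c := by
  induction I, hI using Finite.induction_on with
  | empty => simpa using hS
  | @insert a I ha hI ih =>
    rw [ncard_insert_of_notMem ha hI, add_mul, one_mul] at h ⊢
    obtain ⟨h1, h2⟩ := ih (fun b hb => hP b (Or.inr hb)) (by omega)
    obtain ⟨h3, h4⟩ := hP a (Or.inl rfl)
    rw [biUnion_insert, union_comm (P a), ← union_assoc]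
    have k := hf.sub (S ∪ ⋃ a ∈ I, P a) (P a)
    exact ⟨T.union_small h1 h3 (by omega), by omega⟩

/-- the largest among the cheapest small supersets -/
theorem exists_hull [Finite ε] (T : Tangle f θ) {S : Set ε} (hS : S ∈ T.sm) :
    ∃ W ∈ T.sm, S ⊆ W ∧ f W ≤ f S ∧ (∀ U ∈ T.sm, W ⊆ U → f U ≤ f W → U = W) ∧
      ∀ U, S ⊆ U → U ⊆ W → f W ≤ f U := by
  obtain ⟨U0, h0, h1⟩ := exists_min_image {U | U ∈ T.sm ∧ S ⊆ U} f (toFinite _) ⟨S, hS, Subset.rfl⟩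
  obtain ⟨W, -, ⟨⟨a, b⟩, c⟩, d⟩ :=
    (toFinite {U | (U ∈ T.sm ∧ S ⊆ U) ∧ f U ≤ f U0}).exists_le_maximal (a := U0) ⟨h0, le_rfl⟩
  refine ⟨W, a, b, c.trans (h1 S ⟨hS, Subset.rfl⟩), fun U k1 k2 k3 =>
    subset_antisymm (d ⟨⟨k1, b.trans k2⟩, k3.trans c⟩ k2) k2, fun U k1 k2 => ?_⟩
  by_contra k
  have k' : f U < f W := not_le.1 k
  have := h1 U ⟨T.sub_small a k2 (k'.trans (T.ord W a)), k1⟩
  omega

theorem part_disj {σ : AG} {t : Sh σ} {P P' : Set σ.ε} (h : t.Part P) (h' : t.Part P')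
    (ne : P ≠ P') : Disjoint P P' := by
  rw [Set.disjoint_left]
  intro a ha ha'
  apply ne
  rcases h with ⟨x, -, rfl⟩ | ⟨j, i, -, rfl⟩ <;> rcases h' with ⟨x', -, rfl⟩ | ⟨j', i', -, rfl⟩ <;>
    have k := (show t.own a = _ from ha).symm.trans (show t.own a = _ from ha')
  · cases k; rfl
  · cases k
  · cases k
  · cases k; rfl

end HullAux

open HullAux in
theorem hullS : IsoS → HullS := by
  classical
  intro hI w K
  obtain ⟨n0, hI⟩ := hI w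
  refine ⟨w + n0 * K + (n0 + w + 1) * w + K, by omega, ?_⟩
  intro σ θ g R T e t Sd Sb md tt B hθ hK hP hU hT
  obtain ⟨Wl, Wb, hlb, hb, hlam, hiso⟩ := hI σ θ g R T e t Sd Sb md tt B hP hU hT
  obtain ⟨Wc, hc, hcell⟩ := hP.iso
  have hf := σ.sym
  have pT : ∀ P, t.Part P → P ∈ T.sm ∧ σ.f P ≤ w := by
    rintro P (⟨x, hx, rfl⟩ | ⟨j, i, hi, rfl⟩)
    exacts [hP.cells x hx, hP.bags j i hi]
  let N1 : Set (Tangle σ.f θ) := {T' | ∃ P, t.Part P ∧ Pᶜ ∈ T'.sm}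
  have ch : ∀ a, ∃ P, (P = Sd ∨ (t.Part P ∧ ∃ T' : Tangle σ.f θ, Pᶜ ∈ T'.sm)) ∧
      ∀ C ∈ Cut e T N1, a ∈ C → ∃ T', IsDist e T T' C ∧ Pᶜ ∈ T'.sm := fun a => by
    by_cases c : ∃ C ∈ Cut e T N1, a ∈ C
    · obtain ⟨C, h1, h2⟩ := c
      obtain ⟨T', ⟨P, h3, h4⟩, h5⟩ := cut_dist h1
      refine ⟨P, Or.inr ⟨h3, T', h4⟩, fun C' k1 k2 => ⟨T', ?_, h4⟩⟩
      by_cases d : C' = C
      · exact d ▸ h5
      · exact absurd h2 (Set.disjoint_left.1 (cut_disj hf k1 h1 d) k2)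
    · exact ⟨Sd, Or.inl rfl, fun C k1 k2 => absurd ⟨C, k1, k2⟩ c⟩
  choose P hP1 hP2 using ch
  obtain ⟨Wl', l1, l2, l3⟩ : ∃ Wl' ⊆ Wl, (t.Str → Wl' = ∅) ∧ (¬ t.Str → Wl' = Wl) := by
    by_cases c : t.Str
    exacts [⟨∅, empty_subset _, fun _ => rfl, fun k => absurd c k⟩,
      ⟨Wl, Subset.rfl, fun k => absurd k c, fun _ => rfl⟩]
  have c1 : Wl'.ncard * K ≤ n0 * K :=
    Nat.mul_le_mul_right _ ((ncard_le_ncard (l1.trans hlb)).trans hb)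
  have c2 : (insert e (Wb ∪ Wc)).ncard * w ≤ (n0 + w + 1) * w := Nat.mul_le_mul_right _
    ((ncard_insert_le _ _).trans (Nat.succ_le_succ ((ncard_union_le _ _).trans (add_le_add hb hc))))
  have s0 := hP.sm.2
  obtain ⟨s1, s2⟩ := add_small hf T hP.sm.1 (P := fun a => {a}) (c := K) (toFinite Wl')
    (fun a _ => ⟨T.small_or (T.atom a) ((hK a).trans_lt (by omega)), hK a⟩) (by omega)
  rw [biUnion_of_singleton] at s1 s2
  obtain ⟨s3, s4⟩ := add_small hf T s1 (P := P) (c := w) (toFinite (insert e (Wb ∪ Wc)))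
    (fun a _ => (hP1 a).elim (fun k => k ▸ hP.sm) fun k => pT _ k.1) (by omega)
  obtain ⟨Ws, w1, w2, w3, w4, w5⟩ := exists_hull T s3
  have sS : Sd ⊆ Ws := (subset_union_left.trans subset_union_left).trans w2
  have sP : ∀ a ∈ insert e (Wb ∪ Wc), P a ⊆ Ws := fun a ha =>
    ((subset_biUnion_of_mem (u := P) ha).trans subset_union_right).trans w2
  have new : ∀ j, ∀ i < t.m j, ∀ T' : Tangle σ.f θ, (t.bag j i)ᶜ ∈ T'.sm → md j = Md.new :=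
    fun j i hi T' k => by_contra fun c => T'.not_both (((hP.old j c).2 i hi).1 T') k
  have big : ∀ (T' : Tangle σ.f θ) C, IsDist e T T' C → Wsᶜ ∈ T'.sm → C ⊆ Ws := fun T' C k1 k2 => by
    have a := k1.max hf k2
    have b := hf.sub C Ws
    have o : σ.f (C ∪ Ws) ≤ σ.f Ws := by omega
    exact union_eq_right.1 (w4 _ (T.union_small k1.1 w1 (o.trans_lt (T.ord _ w1)))
      subset_union_right o)
  refine ⟨Ws, {T' | Wsᶜ ∈ T'.sm ∨ ∃ P, t.Part P ∧ Pᶜ ∈ T'.sm}, ⟨w1, by omega, sS⟩, w4,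
    fun hs U u1 u2 u3 => w5 U ?_ u2, fun hs => ?_, ?_, fun _ k => k, fun C hC => ?_⟩
  · refine union_subset (union_subset u1 (l2 hs ▸ empty_subset _)) (iUnion₂_subset fun a ha => ?_)
    rcases hP1 a with k | ⟨⟨x, hx, k⟩ | ⟨j, i, hi, k⟩, T', k'⟩
    · exact k ▸ u1
    · obtain ⟨b, hb', -⟩ := hs x hx
      rw [k, hb'] at k'
      exact absurd k' (T'.atom b)
    · have := sP a ha
      rw [k] at k' this ⊢
      exact u3 j (new j i hi T' k') i this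
  · refine hlam.trans (biUnion_subset_biUnion_left ?_)
    exact l3 hs ▸ (subset_union_right.trans subset_union_left).trans w2
  · rintro (k | ⟨Q, k1, k2⟩)
    exacts [T.not_both w1 k, T.not_both (pT Q k1).1 k2]
  obtain ⟨T', hT', hd⟩ := cut_dist hC
  by_cases c : Wsᶜ ∈ T'.sm
  · exact ⟨(hd.fmin w1 c).trans (by omega), Or.inl (big T' C hd c)⟩
  obtain ⟨Q, q1, q2⟩ := hT'.resolve_left c
  refine ⟨(hd.fmin (pT Q q1).1 q2).trans ((pT Q q1).2.trans (by omega)), ?_⟩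
  have hC1 : C ∈ Cut e T N1 := ⟨⟨T', ⟨Q, q1, q2⟩, hd⟩,
    fun C' ⟨T'', k1, k2⟩ k => hC.2 C' ⟨T'', Or.inr k1, k2⟩ k⟩
  by_cases d : ∃ a ∈ insert e (Wb ∪ Wc), a ∈ C
  · obtain ⟨a, a1, a2⟩ := d
    obtain ⟨T'', k1, k2⟩ := hP2 a C hC1 a2
    exact Or.inl (big T'' C k1 (T''.sup_big hf k2 (sP a a1) (T.ord _ w1)))
  push Not at d
  have he : e ∉ C := d e (Or.inl rfl)
  have db : Disjoint C Wb := Set.disjoint_right.2 fun a ha => d a (Or.inr (Or.inl ha))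
  have dc : Disjoint C Wc := Set.disjoint_right.2 fun a ha => d a (Or.inr (Or.inr ha))
  have nQ : ¬ Q ⊆ Ws := fun k => c (T'.sup_big hf q2 k (T.ord _ w1))
  have fin : C ⊆ Q → Disjoint Q Sd → Disjoint C Ws := fun k1 k2 => by
    have a : Disjoint C (Sd ∪ Wl' ∪ ⋃ a ∈ insert e (Wb ∪ Wc), P a) := by
      refine disjoint_union_right.2 ⟨disjoint_union_right.2 ⟨k2.mono_left k1,
        db.mono_right (l1.trans hlb)⟩, disjoint_iUnion₂_right.2 fun a ha => ?_⟩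
      rcases hP1 a with k | ⟨k, -⟩
      · exact k ▸ k2.mono_left k1
      · exact (part_disj q1 k fun l => nQ (l ▸ sP a ha)).mono_left k1
    have b := w5 (Ws \ C) (subset_sdiff.2 ⟨w2, a.symm⟩) sdiff_subset
    have p := hf.pos C Ws
    refine subset_compl_iff_disjoint_right.1 (hd.min he ?_ ?_)
    · rw [compl_compl]
      exact T'.small_or c (T.ord _ w1)
    · rw [← sdiff_eq]
      omega
  refine Or.inr ⟨he, ?_⟩
  rcases q1 with ⟨x, hx, rfl⟩ | ⟨j, i, hi, rfl⟩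
  · have k := hcell x hx T' C hd q2 he dc
    exact ⟨fin k (by_contra fun l => nQ ((hP.scell x ⟨hx, l⟩).1.trans sS)), Or.inl ⟨x, hx, k⟩⟩
  · have ns : ¬ Sb j i := fun l => nQ (((hP.sbag j i hi).1 l).trans sS)
    obtain ⟨i1, i2⟩ := hiso j i hi ns C db
    have k := hd.min he q2 i1
    exact ⟨fin k ((hP.sbag j i hi).2 ns), Or.inr ⟨j, new j i hi T' q2, i, hi, k, i2 k⟩⟩

end Pool.Agent.MP_9d78a0_co.gm

end MrgPart5

-- ======== part 6: formerly Pool.Agent.MP_9d78a0_co.gm.FStr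
section MrgPart6

/-! Block F: the trace of the hull hangs at the holes and misses the large component. -/

set_option autoImplicit false

namespace Pool.Agent.MP_9d78a0_co.gm

open Set Function JWf

namespace FStr

theorem mem_vs {σ : AG} {U : Set σ.ε} {v : W} : v ∈ σ.vs U ↔ ∃ a ∈ U, v ∈ σ.inc a := by
  simp [AG.vs]

theorem mem_bd {σ : AG} {U : Set σ.ε} {v : W} :
    v ∈ σ.bd U ↔ (∃ a ∈ U, v ∈ σ.inc a) ∧ ∃ a ∉ U, v ∈ σ.inc a := Iff.rfl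

section sk

variable {s : Sk} {x y : MV} {v : W}

theorem adj_vt (h : s.Ok) (e : s.G.Adj x y) : x ∈ s.Vt := ((fSkS s h).2.2.2.1 x y e).1

theorem kind (h : s.Ok) (e : s.G.Adj (Sum.inl v) y) : y ∈ s.H ∨ y ∈ s.Rm ∨ y ∈ s.Ce := by
  have h1 := ((fSkS s h).2.2.2.1 _ y e).2.1 ⟨adj_vt h e, v, rfl⟩
  have h2 := adj_vt h e.symm
  rcases y with y | y
  · exact absurd ⟨h2, y, rfl⟩ h1
  · by_contra c
    simp only [not_or] at c
    exact c.2.2 ⟨⟨h2, y, rfl⟩, fun k => k.elim c.1 c.2.1⟩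

theorem ce_adj (h : s.Ok) (hx : x ∈ s.Ce) (e : s.G.Adj x y) : ∃ v, y = Sum.inl v := by
  by_contra c
  obtain ⟨-, v, e1⟩ := ((fSkS s h).2.2.2.1 x y e).2.2 fun k => c (k.2.imp fun _ k => k.symm)
  obtain ⟨k, e2⟩ := hx.1.2
  cases e1.trans e2.symm

theorem rim_rad (h : s.Ok) : s.Rm ∩ s.Vt ⊆ s.M.rad s.vx s.H := fun y hy => by
  obtain ⟨f, hf, q, rfl⟩ := h.rim y hy
  exact (((fSkS s h).2.1 f hf).2.2.2.2.2.2.2 q).2.2.1

theorem T_sub (h : s.Ok) : s.T ⊆ s.M.tv s.vx s.H := by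
  rintro x (hx | hx)
  · refine ⟨hx.1, fun k => ?_⟩
    obtain ⟨v, rfl⟩ := hx.2
    obtain ⟨_, e⟩ := h.hr.1 k
    cases e
  · exact ⟨hx.1.1, fun k => hx.2 (.inl k)⟩

theorem adj_rad (h : s.Ok) {E : Set MV} (hy : y ∈ E) (e : s.G.Adj y x) : x ∈ s.M.rad s.vx E := by
  obtain ⟨f, hf, e1, e2⟩ := FM.exists_adj h.hm.ok e
  exact ⟨f, hf, e1 ▸ hy, _, Relation.ReflTransGen.single (.inl rfl), e2⟩

/-- a set that is closed under adjacency contains all vertices -/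
theorem all_of (h : s.Ok) {K : Set MV} (hx : x ∈ K) (hv : x ∈ s.Vt)
    (cl : ∀ x ∈ K, ∀ y, s.G.Adj x y → y ∈ K) : s.Vt ⊆ K := by
  obtain ⟨f, hf, rfl⟩ := hv
  rintro _ ⟨g, hg, rfl⟩
  have k := h.hm.con f hf g hg
  clear hg
  have : g ∈ s.M.S ∧ s.vx g ∈ K := by
    induction k with
    | refl => exact ⟨hf, hx⟩
    | @tail y z _ e ih =>
      rcases e with rfl | rfl | rfl
      · exact ⟨(h.hm.ok.ia y ih.1).1, cl _ ih.2 _ ⟨(h.hm.simple y ih.1).1, y, ih.1, .inl ⟨rfl, rfl⟩⟩⟩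
      · exact ⟨(h.hm.ok.ib y ih.1).1, (h.hm.lbl y ih.1 _ (h.hm.ok.ib y ih.1).1).2
          (Relation.ReflTransGen.single (.inl rfl)) ▸ ih.2⟩
      · exact ⟨(h.hm.ok.ic y ih.1).1, (h.hm.lbl y ih.1 _ (h.hm.ok.ic y ih.1).1).2
          (Relation.ReflTransGen.single (.inr rfl)) ▸ ih.2⟩
  exact this.2

end sk

/-- a node of an atom is a position or a node of the cell of the atom -/
theorem node_of {σ : AG} {t : Sh σ} (h : t.Ok) (ht : t.Ter) {a : σ.ε} {v : W} (hv : v ∈ σ.inc a)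
    (hn : Sum.inl v ∈ t.s.Vt) : v ∈ t.s.Po ∨ ∃ x ∈ t.s.Ce, a ∈ t.ct x ∧ v ∈ t.s.nb x := by
  by_cases c : v ∈ t.Λ
  · obtain ⟨f, hf, rfl⟩ := h.lamn v c hn
    exact .inl ⟨_, hf.1.2, ((fSkS _ h.ok).2.1 f hf.1).2.1⟩
  obtain ⟨s1, s2, s3⟩ := h.share a v ⟨hv, c⟩ (.inl hn)
  rcases e : t.own a with _ | x | ⟨j, i⟩
  · exact .inl (ht.mkn v (s3 e) hn)
  · exact .inr ⟨x, h.ownc a x e, e, s1 x e⟩
  · have hi := h.ownb a j i e
    have k : ∀ k ≤ t.m j, v ∈ t.κ j k → v ∈ t.s.Po := by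
      rintro k hk (rfl | ⟨l, hl, rfl⟩)
      · exact ⟨_, (h.hole j).2, (ht.node j k hk).2.2.2⟩
      · exact absurd hn ((h.inner j k hk l hl).2 c)
    exact .inl ((s2 j i e).elim (k i hi.le) (k _ hi))

variable {D : Dat}

/-- the part of the trace that hangs at the holes -/
def D0 (D : Dat) : Set MV := {y | ∃ h ∈ D.t.s.H ∩ D.t.s.Vt, y ∈ fb.cp D.t.s.G D.tr h}

theorem D0_closed {x y : MV} (hx : x ∈ D0 D) (hy : y ∈ D.tr) (e : D.t.s.G.Adj x y) : y ∈ D0 D :=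
  let ⟨h, h1, h2⟩ := hx; ⟨h, h1, fb.cp_closed h2 hy e⟩

theorem D0_hole {x : MV} (hx : x ∈ D.t.s.H ∩ D.t.s.Vt) : x ∈ D0 D :=
  ⟨x, hx, fb.cp_self (.inl (.inl hx))⟩

theorem att (hD : D.Ok) (hS : D.t.Str) : ∀ v ∈ D.Bd, Sum.inl v ∈ D.t.s.Vt →
    ∃ y ∈ D0 D, D.t.s.G.Adj (Sum.inl v) y := by
  have ho := hD.pre.ok
  have hs := ho.ok
  obtain ⟨U, hU⟩ : ∃ U : Set D.σ.ε, U = {a | a ∈ D.Ws ∧ ∀ x ∈ D.Ci, a ∈ D.t.ct x → x ∈ D0 D} :=
    ⟨_, rfl⟩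
  have key : ∀ a ∈ U, ∀ v ∈ D.σ.inc a, Sum.inl v ∈ D.t.s.Vt →
      ∃ y ∈ D0 D, D.t.s.G.Adj (Sum.inl v) y := by
    intro a ha v hv hn
    rw [hU] at ha
    rcases node_of ho hD.ter hv hn with ⟨x, h1, h2⟩ | ⟨x, h1, h2, h3⟩
    · exact ⟨x, D0_hole ⟨h1, adj_vt hs h2⟩, h2.symm⟩
    · obtain ⟨b, e, -⟩ := hS x h1
      refine ⟨x, ha.2 x ⟨h1, ?_⟩ h2, h3.symm⟩
      rw [e] at h2 ⊢
      exact singleton_subset_iff.2 (h2 ▸ ha.1)
  have sub : D.σ.bd U ⊆ D.Bd := by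
    rintro v ⟨⟨a, ha, hv⟩, a', ha', hv'⟩
    by_contra c
    have haW : a ∈ D.Ws := by rw [hU] at ha; exact ha.1
    have haW' : a' ∈ D.Ws := by
      by_contra k
      exact c ⟨⟨a, haW, hv⟩, a', k, hv'⟩
    obtain ⟨x, hx, h1, h2⟩ : ∃ x ∈ D.Ci, a' ∈ D.t.ct x ∧ x ∉ D0 D := by
      by_contra k
      refine ha' (hU ▸ ⟨haW', fun x hx h1 => ?_⟩)
      by_contra k'
      exact k ⟨x, hx, h1, k'⟩
    have h3 : v ∈ D.t.s.nb x := by
      have h4 : a ∉ D.t.ct x := fun k => h2 (by rw [hU] at ha; exact ha.2 x hx k)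
      refine (hD.ter.bdc x ⟨⟨a', h1, hv'⟩, a, h4, hv⟩).elim id fun k => ?_
      obtain ⟨b, e, h5⟩ := hS x hx.1
      rw [e] at h1
      exact h5 ⟨h1 ▸ hv', k⟩
    have hn : Sum.inl v ∈ D.t.s.Vt := adj_vt hs h3.symm
    obtain ⟨y, hy, e⟩ := key a ha v hv hn
    exact h2 (D0_closed (D0_closed hy (.inr ⟨⟨v, ⟨mem_vs.2 ⟨a, haW, hv⟩, c⟩, rfl⟩, hn⟩) e.symm)
      (.inl (.inr hx)) h3.symm)
  have hSd := hD.hull.sm.2.2
  have le := hD.hull.least hS U (fun a ha => hU ▸ ⟨hSd ha, fun x hx h1 => ?_⟩)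
    (fun a ha => by rw [hU] at ha; exact ha.1) fun j _ i hb a ha => hU ▸ ⟨hb ha, fun x _ h1 => ?_⟩
  · have e : D.σ.bd U = D.Bd := eq_of_subset_of_ncard_le sub le hD.kc.fin.2.2.1
    intro v hv hn
    rw [← e] at hv
    obtain ⟨a, ha, hv⟩ := hv.1
    exact key a ha v hv hn
  · obtain ⟨-, h, hh, k⟩ := hD.pre.scell x ⟨hx.1, not_disjoint_iff.2 ⟨a, h1, ha⟩⟩
    have tr : ∀ y ∈ D.t.Sc D.Sd ∪ {h} ∪ Sum.inl '' (D.σ.vs D.Sd \ D.σ.bd D.Sd),
        y ∈ D.t.s.Vt → y ∈ D.tr := by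
      rintro y ((hy | rfl) | ⟨v, ⟨hv, hv'⟩, rfl⟩) hn
      · exact .inl (.inr ⟨hy.1, (hD.pre.scell y hy).1.trans hSd⟩)
      · exact .inl (.inl ⟨hh, hn⟩)
      · obtain ⟨b, hb, hv⟩ := mem_vs.1 hv
        exact .inr ⟨⟨v, ⟨mem_vs.2 ⟨b, hSd hb, hv⟩, fun ⟨_, b', c1, c2⟩ =>
          hv' ⟨⟨b, hb, hv⟩, b', fun c => c1 (hSd c), c2⟩⟩, rfl⟩, hn⟩
    have hV : h ∈ D.t.s.Vt := by
      rcases Relation.ReflTransGen.cases_head k with rfl | ⟨_, e, -⟩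
      exacts [hx.1.1.1, adj_vt hs e.2.2]
    exact ⟨h, ⟨hh, hV⟩, .inl (.inr hx), Link.map (G' := D.t.s.G) id (fun p hp q hq e =>
      Link.single (tr p hp (adj_vt hs e)) (tr q hq (adj_vt hs e.symm)) e) k⟩
  · cases ha.symm.trans h1

theorem bk (hD : D.Ok) : D.brk ⊆ D.t.s.Rm ∩ D.t.s.Vt := by
  rintro y ⟨hy, j, i, hi, rfl, -⟩
  exact ⟨hy, adj_vt hD.pre.ok.ok (hD.ter.lk j i hi).1⟩

section K

variable (hD : D.Ok) {Y : Set MV}
include hD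

theorem K_sub : D.K Y ⊆ D.t.s.M.tv D.t.s.vx D.t.s.H \ (Sum.inl '' D.Bd ∪ Y) :=
  big_sub hD.pre.grid (sdiff_subset.trans (T_sub hD.pre.ok.ok))

theorem X_card : (Sum.inl '' D.Bd : Set MV).Finite ∧ (Sum.inl '' D.Bd : Set MV).ncard ≤ D.n :=
  ⟨hD.kc.fin.2.2.1.image _, (ncard_image_le hD.kc.fin.2.2.1).trans hD.kc.fin.2.2.2⟩

theorem K_cross (hY : Y ⊆ D.t.s.Rm ∩ D.t.s.Vt) : ∃ i j, Cross D.B i j ⊆ D.K Y := by
  have hn := hD.num
  obtain ⟨i, j, k⟩ := miss2 hD.pre.grid injective_id injective_id (X_card hD).1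
    (by have := (X_card hD).2; omega)
  exact ⟨i, j, cross_big (disjoint_union_right.2 ⟨k, disjoint_left.2 fun x hx hy =>
    (cross_sub hD.pre.grid i j hx).2 (rim_rad hD.pre.ok.ok (hY hy))⟩)⟩

theorem K_conn (hY : Y ⊆ D.t.s.Rm ∩ D.t.s.Vt) : Conn D.t.s.G (D.K Y) := by
  obtain ⟨i, j, k⟩ := K_cross hD hY
  exact big_conn hD.pre.grid ((cross_conn hD.pre.grid i j).1.mono k)

theorem K_clo {x y : MV} (hx : x ∈ D.K Y) (e : D.t.s.G.Adj x y) :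
    y ∈ D.K Y ∪ D.t.s.H ∪ Sum.inl '' D.Bd ∪ Y := by
  by_contra c
  simp only [mem_union, not_or] at c
  have h1 := K_sub hD hx
  obtain ⟨i, j, k, w, hw, l⟩ := hx
  exact c.1.1.1 ⟨i, j, k, w, hw, l.trans (Link.single h1
    ⟨⟨adj_vt hD.pre.ok.ok e.symm, c.1.1.2⟩, fun k => k.elim c.1.2 c.2⟩ e)⟩

theorem K_dis (hS : D.t.Str) (hb : D.brk ⊆ Y) (hY : Y ⊆ D.t.s.Rm ∩ D.t.s.Vt) :
    Disjoint (D.K Y) (D.Ci ∪ Sum.inl '' D.Vw ∪ Y) := by
  have ho := hD.pre.ok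
  have hs := ho.ok
  have main : ∀ x ∈ D.K Y, x ∉ D.Ci ∪ Sum.inl '' D.Vw := by
    intro x hx hz
    have all : ∀ y ∈ D.K Y, y ∈ D.Ci ∪ Sum.inl '' D.Vw := fun y hy => by
      have k := (K_conn hD hY).2 x hx y hy
      clear hy
      induction k with
      | refl => exact hz
      | @tail p q _ e ih =>
        obtain ⟨hp, hq, e⟩ := e
        rcases ih with ih | ⟨v, hv, rfl⟩
        · obtain ⟨v, rfl⟩ := ce_adj hs ih.1 e
          exact .inr ⟨v, hD.kc.ins p ih e, rfl⟩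
        · have hB : v ∉ D.Bd := fun c => (K_sub hD hp).2 (.inl ⟨v, c, rfl⟩)
          rcases kind hs e with k | k | k
          · exact absurd k (K_sub hD hq).1.2
          · obtain ⟨j, i, hi, rfl⟩ := ho.rim q ⟨k, (K_sub hD hq).1.1⟩
            refine absurd (.inr (hb ⟨k, j, i, hi, rfl, not_disjoint_iff.2 ⟨v, ?_, hv⟩⟩))
              (K_sub hD hq).2
            have h1 : v ∈ D.t.s.nb (D.t.lk j i) := e.symm
            rw [((hD.ter.lk j i hi).2.2 k).1] at h1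
            rcases h1 with rfl | rfl
            exacts [(ho.path j i hi k).2.1, (ho.path j i hi k).2.2.1]
          · obtain ⟨a, ea, -⟩ := hS q k
            obtain ⟨b, hb', h1⟩ := ((ho.solid q k).2 e.symm).1
            refine .inl ⟨k, ?_⟩
            rw [ea] at hb' ⊢
            obtain rfl : b = a := hb'
            by_contra c
            exact hB ⟨mem_vs.1 hv, b, fun k => c (singleton_subset_iff.2 k), h1⟩
    obtain ⟨i, j, k⟩ := K_cross hD hY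
    have hn := hD.num
    have h1 := hD.hull.sm
    refine D.T.not_both h1.1 (hD.pre.ctl _ (by rw [D.σ.sym.cpl]; omega) ⟨i, j, fun v hv c => ?_⟩)
    rcases all _ (k c) with k' | ⟨w, hw, e⟩
    · obtain ⟨_, e⟩ := k'.1.1.2
      cases e
    · obtain rfl := Sum.inl_injective e
      exact (K_sub hD (k c)).2 (.inl ⟨w, ⟨mem_vs.1 hw, mem_vs.1 hv⟩, rfl⟩)
  exact disjoint_left.2 fun x hx c => c.elim (main x hx) fun c => (K_sub hD hx).2 (.inr c)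

theorem U0_sub (hS : D.t.Str) (hb : D.brk ⊆ Y) (hY : Y ⊆ D.t.s.Rm ∩ D.t.s.Vt) : D.U0 ⊆ D.K Y := by
  have hs := hD.pre.ok.ok
  have hn := hD.num
  have hc := X_card hD
  have hr := hY.trans (rim_rad hs)
  have far := hD.frame.far _ Y (D0 D) hc.1 (by omega) hr
    (fun v ⟨h, h1, h2⟩ => ⟨h, ⟨h1.1, D0_hole h1⟩, ((fb.cp_conn (.inl (.inl h1))).2 h
      (fb.cp_self (.inl (.inl h1))) v h2).mono fun _ k => show _ ∈ D0 D from ⟨h, h1, k⟩⟩)
    (disjoint_left.2 fun v ⟨h, _, h2⟩ c => by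
      rcases h2.1 with (k | k) | k
      · exact (K_sub hD c).1.2 k.1
      · exact disjoint_left.1 (K_dis hD hS hb hY) c (.inl (.inl k))
      · exact disjoint_left.1 (K_dis hD hS hb hY) c (.inl (.inr (image_mono sdiff_subset k.1))))
  refine hD.frame.ins _ Y hc.1 (by omega) hr (disjoint_union_left.2 ⟨disjoint_left.2 ?_,
    (fSepS _ _ _ _ _ _ _ _ _ hs.hm hD.frame (by omega)).1.mono_left hr⟩)
  rintro _ ⟨v, hv, rfl⟩ c
  obtain ⟨y, hy, e⟩ := att hD hS v hv (hD.frame.sub c).1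
  exact disjoint_left.1 far (FM.rad_sub_iter hs.hm.ok (by omega) (adj_rad hs hy e.symm)) c

end K

end FStr

open FStr

theorem strS : StrS := by
  intro D hD hS
  have hs := hD.pre.ok.ok
  refine ⟨fun v hv hn => ?_, ((K_dis hD hS subset_rfl (bk hD)).mono_right subset_union_left).mono_left
    (U0_sub hD hS subset_rfl (bk hD)), fun ⟨x, hx⟩ => ?_, bk hD, fun Y hb hY =>
      ⟨K_dis hD hS hb hY, K_conn hD hY, U0_sub hD hS hb hY, fun _ k => (K_sub hD k).1,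
        K_cross hD hY, fun _ hx _ e => K_clo hD hx e⟩⟩
  · obtain ⟨y, ⟨h, h1, h2⟩, e⟩ := att hD hS v hv hn
    exact ⟨h, h1, y, h2, e⟩
  · by_contra c
    obtain ⟨z, hz⟩ := (K_conn hD (bk hD)).1
    refine disjoint_left.1 (K_dis hD hS subset_rfl (bk hD))
      (all_of hs hz (K_sub hD hz).1.1 (fun p hp q e => ?_) hx.1.1.1) (.inl (.inl hx))
    have hq := adj_vt hs e.symm
    rcases K_clo hD hp e with ((k | k) | ⟨v, hv, rfl⟩) | k
    · exact k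
    · exact absurd ⟨q, k, hq⟩ c
    · obtain ⟨_, ⟨h, h1, -⟩, -⟩ := att hD hS v hv hq
      exact absurd ⟨h, h1⟩ c
    · obtain ⟨f, hf, -⟩ := hs.rim q (bk hD k)
      exact absurd ⟨_, hf.2, f, hf.1, rfl⟩ c

end Pool.Agent.MP_9d78a0_co.gm

end MrgPart6

-- ======== part 7: formerly Pool.Agent.MP_9d78a0_co.gm.FZ
section MrgPart7

/-! Block F: the components that become holes. -/

set_option autoImplicit false

namespace Pool.Agent.MP_9d78a0_co.gm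

open Set Function fb

namespace FZ

section abs

variable {V : Type} {G : SimpleGraph V} {M : Set V}

theorem cp_eq {r z : V} (h : z ∈ cp G M r) : cp G M z = cp G M r := by
  ext v
  exact ⟨fun k => ⟨k.1, h.2.trans k.2⟩, fun k => ⟨k.1, h.2.symm.trans k.2⟩⟩

/-- the union of the components of a finite set of representatives -/
theorem reps {R : Set V} (hR : R ⊆ M) (hf : R.Finite) :
    ∃ Z ⊆ M, R ⊆ Z ∧ (∀ z ∈ Z, cp G M z ⊆ Z) ∧ (cp G M '' Z).ncard ≤ R.ncard := by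
  refine ⟨{z | ∃ r ∈ R, z ∈ cp G M r}, ?_, ?_, ?_, ?_⟩
  · rintro z ⟨r, -, hz⟩
    exact hz.1
  · exact fun r hr => ⟨r, hr, cp_self (hR hr)⟩
  · rintro z ⟨r, hr, hz⟩ v hv
    exact ⟨r, hr, cp_eq hz ▸ hv⟩
  · refine le_trans (ncard_le_ncard ?_ (hf.image (cp G M))) (ncard_image_le hf)
    rintro _ ⟨z, ⟨r, hr, hz⟩, rfl⟩
    exact ⟨r, hr, (cp_eq hz).symm⟩

/-- one point for each value of a map into the subsets of a finite set -/
theorem pats {U : Type} (X : Set V) (p : V → Set U) {E : Set U} (hE : E.Finite)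
    (hp : ∀ x ∈ X, p x ⊆ E) :
    ∃ R ⊆ X, R.Finite ∧ R.ncard ≤ 2 ^ E.ncard ∧ ∀ x ∈ X, ∃ r ∈ R, p r = p x := by
  obtain ⟨R, h1, h2⟩ := exists_subset_bijOn X p
  have hs : p '' X ⊆ 𝒫 E := by
    rintro _ ⟨x, hx, rfl⟩
    exact hp x hx
  have hf : (p '' X).Finite := hE.powerset.subset hs
  refine ⟨R, h1, ?_, ?_, fun x hx => ?_⟩
  · exact (hf.subset h2.mapsTo.image_subset).of_finite_image h2.injOn
  · rw [← h2.injOn.ncard_image, h2.image_eq, ← ncard_powerset E hE]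
    exact ncard_le_ncard hs hE.powerset
  · obtain ⟨r, hr, e⟩ := h2.surjOn ⟨x, hx, rfl⟩
    exact ⟨r, hr, e⟩

end abs

variable {D : Dat} {Rk : Set MV}

theorem vt_cases {s : Sk} {x : MV} (hx : x ∈ s.Vt) :
    x ∈ s.Nd ∨ x ∈ s.H ∨ x ∈ s.Rm ∨ x ∈ s.Ce := by
  by_cases h1 : x ∈ s.H
  · exact Or.inr (Or.inl h1)
  by_cases h2 : x ∈ s.Rm
  · exact Or.inr (Or.inr (Or.inl h2))
  rcases x with v | k
  · exact Or.inl ⟨hx, v, rfl⟩
  · exact Or.inr (Or.inr (Or.inr ⟨⟨hx, k, rfl⟩, fun k => k.elim h1 h2⟩))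

theorem bd_vw : D.Bd ⊆ D.Vw := by
  rintro v ⟨⟨a, ha, hv⟩, -⟩
  exact mem_biUnion ha hv

/-- a kept node of the hull lies on its boundary -/
theorem kn_bd (h : D.Ok) (hR : ∀ y ∈ Rk, Disjoint (D.t.s.nb y) (D.Vw \ D.Bd)) {v : W}
    (hv : Sum.inl v ∈ D.t.s.kn D.Ck Rk) (hw : v ∈ D.Vw) : v ∈ D.Bd := by
  obtain ⟨-, y, hy | hy, e⟩ := hv
  · exact (h.kc.out y hy).1 ⟨e.symm, hw⟩
  · by_contra k
    exact disjoint_left.1 (hR y hy) e.symm ⟨hw, k⟩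

/-- a neighbour of a node in the merged part -/
theorem nb_cases (h : D.Ok) {v y : MV} (hv : v ∈ D.t.s.Nd) (hy : y ∈ D.t.s.mg D.Ck Rk)
    (e : D.t.s.G.Adj v y) : y ∈ D.t.s.H ∩ D.t.s.Vt ∨ y ∈ D.Ci ∨ y ∈ D.Cc := by
  rcases hy with (hy | hy) | hy
  · exact Or.inl hy
  · by_contra k
    exact hy.2 ⟨hy.1, fun c => k (Or.inr c)⟩
  · exact absurd hy.1 (((fSkS _ h.pre.ok.ok).2.2.2.1 v y e).2.1 hv)

theorem tr_sub (h : D.Ok) (hR : ∀ y ∈ Rk, Disjoint (D.t.s.nb y) (D.Vw \ D.Bd)) :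
    D.tr ⊆ D.t.s.mg D.Ck Rk := by
  rintro x ((hx | hx) | ⟨⟨v, hv, rfl⟩, hx⟩)
  · exact Or.inl (Or.inl hx)
  · exact Or.inl (Or.inr ⟨hx.1, fun k => k.2 (Or.inl hx)⟩)
  · exact Or.inr ⟨⟨hx, v, rfl⟩, fun k => hv.2 (kn_bd h hR k hv.1)⟩

/-- the set in which the islands and their holes live -/
def Y (D : Dat) : Set MV := (D.t.s.H ∩ D.t.s.Vt) ∪ D.Ci ∪ Sum.inl '' D.Vw

theorem tr_Y : D.tr ⊆ Y D := by
  rintro x ((hx | hx) | ⟨⟨v, hv, rfl⟩, -⟩)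
  · exact Or.inl (Or.inl hx)
  · exact Or.inl (Or.inr hx)
  · exact Or.inr ⟨v, hv.1, rfl⟩

theorem link_Y (h : D.Ok) (hc : D.Cc = ∅) {y y' : MV} (hy : y ∈ Y D)
    (hh : ∀ z ∈ cp D.t.s.G (D.t.s.mg D.Ck Rk) y, z ∉ D.t.s.H)
    (l : Link D.t.s.G (D.t.s.mg D.Ck Rk) y y') : y' ∈ Y D ∧ Link D.t.s.G (Y D) y y' := by
  induction l with
  | refl => exact ⟨hy, Link.refl _ _ _⟩
  | @tail a b l e ih =>
    have hb : b ∈ Y D := by
      rcases e.2.1 with (hb | hb) | hb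
      · exact Or.inl (Or.inl hb)
      · refine Or.inl (Or.inr ?_)
        by_contra k
        exact hb.2 ⟨hb.1, fun c => c.elim k fun c => by rw [hc] at c; exact c⟩
      · rcases nb_cases h hb.1 e.1 e.2.2.symm with ha | ha | ha
        · exact absurd ha.1 (hh a ⟨e.1, l⟩)
        · obtain ⟨⟨-, v, rfl⟩, -⟩ := hb
          exact Or.inr ⟨v, h.kc.ins a ha e.2.2, rfl⟩
        · rw [hc] at ha
          exact ha.elim
    exact ⟨hb, ih.2.trans (Link.single ih.1 hb e.2.2)⟩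

theorem holes (h : D.Ok) (k : D.Kf) (hc : D.Cc = ∅) {x : MV} (hx : x ∈ D.t.s.mg D.Ck Rk) :
    (D.t.s.H ∩ D.t.s.Vt).Nonempty := by
  have ci : ∀ y ∈ D.t.s.Ce, y ∉ D.Ck → (D.t.s.H ∩ D.t.s.Vt).Nonempty := fun y hy hn => by
    refine k.hole ⟨y, ?_⟩
    by_contra c
    exact hn ⟨hy, fun c' => c'.elim c fun c' => by rw [hc] at c'; exact c'⟩
  have sk := fSkS _ h.pre.ok.ok
  rcases hx with (hx | hx) | hx
  · exact ⟨x, hx⟩
  · exact ci x hx.1 hx.2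
  · obtain ⟨y, e⟩ := sk.2.2.2.2.1 x hx.1.1
    have hy := (sk.2.2.2.1 y x e.symm).1
    rcases vt_cases hy with c | c | c | c
    · exact absurd c ((sk.2.2.2.1 x y e).2.1 hx.1)
    · exact ⟨y, c, hy⟩
    · obtain ⟨f, hf, -⟩ := h.pre.ok.ok.rim y ⟨c, hy⟩
      exact ⟨_, hf.2, f, hf.1, rfl⟩
    · exact ci y c fun c' => hx.2 ⟨hx.1, y, Or.inl c', e⟩

/-- an island is dominated by a hole -/
theorem isl (h : D.Ok) (k : D.Kf) (hc : D.Cc = ∅)
    (hR : ∀ y ∈ Rk, Disjoint (D.t.s.nb y) (D.Vw \ D.Bd)) {x : MV} (hx : x ∈ D.t.s.mg D.Ck Rk)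
    (hh : ∀ z ∈ cp D.t.s.G (D.t.s.mg D.Ck Rk) x, z ∉ D.t.s.H) :
    ∃ z ∈ D.t.s.H ∩ D.t.s.Vt, ∀ v ∈ D.t.s.kn D.Ck Rk,
      (∃ y ∈ cp D.t.s.G (D.t.s.mg D.Ck Rk) x, D.t.s.G.Adj v y) →
      ∃ y ∈ cp D.t.s.G (D.t.s.mg D.Ck Rk) z, D.t.s.G.Adj v y := by
  have sk := fSkS _ h.pre.ok.ok
  have one : ∀ v ∈ D.t.s.kn D.Ck Rk, ∀ y ∈ cp D.t.s.G (D.t.s.mg D.Ck Rk) x, D.t.s.G.Adj v y →
      y ∈ Y D ∧ y ∉ D.t.s.Nd ∧ ∃ z ∈ D.t.s.H ∩ D.t.s.Vt, Link D.t.s.G (Y D) z y ∧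
        ∃ y' ∈ cp D.t.s.G (D.t.s.mg D.Ck Rk) z, D.t.s.G.Adj v y' := by
    intro v hv y hy e
    have hci : y ∈ D.Ci := by
      rcases nb_cases h hv.1 hy.1 e with c | c | c
      · exact absurd c.1 (hh y hy)
      · exact c
      · rw [hc] at c
        exact c.elim
    obtain ⟨hv1, u, rfl⟩ := hv.1
    have hw : u ∈ D.Vw := h.kc.ins y hci e.symm
    obtain ⟨z, hz, y', hy', e'⟩ := k.att u (kn_bd h hR hv hw) hv1
    have a1 : y ∈ Y D := Or.inl (Or.inr hci)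
    have a2 : Sum.inl u ∈ Y D := Or.inr ⟨u, hw, rfl⟩
    refine ⟨a1, (sk.2.2.2.1 _ y e).2.1 hv.1, z, hz, ?_, y',
      ⟨tr_sub h hR hy'.1, hy'.2.mono (tr_sub h hR)⟩, e'⟩
    exact ((hy'.2.mono tr_Y).trans (Link.single (tr_Y hy'.1) a2 e'.symm)).trans
      (Link.single a2 a1 e)
  by_cases c : ∃ v ∈ D.t.s.kn D.Ck Rk, ∃ y ∈ cp D.t.s.G (D.t.s.mg D.Ck Rk) x, D.t.s.G.Adj v y
  · obtain ⟨v0, hv0, y0, hy0, e0⟩ := c
    obtain ⟨a1, a2, z0, hz0, l0, -⟩ := one v0 hv0 y0 hy0 e0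
    refine ⟨z0, hz0, ?_⟩
    rintro v hv ⟨y, hy, e⟩
    obtain ⟨-, -, z, hz, l, r⟩ := one v hv y hy e
    have l1 := (link_Y h hc a1 (fun w hw => hh w (cp_eq hy0 ▸ hw)) (hy0.2.symm.trans hy.2)).2
    have hd : Disjoint (Y D) D.U0 := by
      refine disjoint_union_left.2 ⟨disjoint_union_left.2 ⟨?_, ?_⟩, ?_⟩
      · exact disjoint_left.2 fun w hw hu => (h.frame.sub hu).2 hw.1
      · exact (k.away.mono_right subset_union_left).symm
      · exact (k.away.mono_right subset_union_right).symm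
    have := h.num
    have eq := (fSepS _ _ _ _ _ _ _ _ _ h.pre.ok.ok.hm h.frame (by omega)).2.2.2 (Y D) hd z0
      ⟨⟨hz0.1, Or.inl (Or.inl hz0)⟩, hz0.2⟩ z hz ((l0.trans l1).trans l.symm)
    rw [eq]
    exact r
  · obtain ⟨z, hz⟩ := holes h k hc hx
    exact ⟨z, hz, fun v hv hy => (c ⟨v, hv, hy⟩).elim⟩

end FZ

open FZ

theorem zS : ZS := by
  intro D h hk Rk _ hR
  have sk := fSkS _ h.pre.ok.ok
  have hf : (D.t.s.H ∩ D.t.s.Vt).Finite := sk.2.2.2.2.2.subset inter_subset_right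
  have hs : D.t.s.H ∩ D.t.s.Vt ⊆ D.t.s.mg D.Ck Rk := fun _ hx => Or.inl (Or.inl hx)
  have inh : ∀ x, ∀ z ∈ cp D.t.s.G (D.t.s.mg D.Ck Rk) x, z ∈ D.t.s.H →
      z ∈ D.t.s.H ∩ D.t.s.Vt ∧ ∀ v ∈ D.t.s.kn D.Ck Rk,
        (∃ y ∈ cp D.t.s.G (D.t.s.mg D.Ck Rk) x, D.t.s.G.Adj v y) →
        ∃ y ∈ cp D.t.s.G (D.t.s.mg D.Ck Rk) z, D.t.s.G.Adj v y := by
    intro x z hz hH
    refine ⟨⟨hH, ?_⟩, fun v _ hy => by rw [cp_eq hz]; exact hy⟩
    rcases hz.1 with (c | c) | c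
    · exact c.2
    · exact c.1.1.1
    · exact c.1.1
  by_cases st : D.t.Str
  · obtain ⟨Z, h1, h2, h3, h4⟩ := reps (G := D.t.s.G) hs hf
    refine ⟨Z, h1, h2, h3, fun x hx => ?_, h4.trans (Nat.le_add_right _ _), fun _ => h4⟩
    by_cases c : ∃ z ∈ cp D.t.s.G (D.t.s.mg D.Ck Rk) x, z ∈ D.t.s.H
    · obtain ⟨z, hz, hH⟩ := c
      exact ⟨z, h2 (inh x z hz hH).1, (inh x z hz hH).2⟩
    · obtain ⟨z, hz, r⟩ := isl h (hk st) (h.cc.str st) hR hx fun z hz hH => c ⟨z, hz, hH⟩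
      exact ⟨z, h2 hz, r⟩
  · obtain ⟨R, r1, r2, r3, r4⟩ := pats
      {x | x ∈ D.t.s.mg D.Ck Rk ∧ ∀ z ∈ cp D.t.s.G (D.t.s.mg D.Ck Rk) x, z ∉ D.t.s.H}
      (fun x => {u : W | Sum.inl u ∈ D.t.s.kn D.Ck Rk ∧
        ∃ y ∈ cp D.t.s.G (D.t.s.mg D.Ck Rk) x, D.t.s.G.Adj (Sum.inl u) y}) h.kc.fin.1 (by
        rintro x ⟨-, hx⟩ u ⟨hu, y, hy, e⟩
        rcases nb_cases h hu.1 hy.1 e with c | c | c
        · exact absurd c.1 (hx y hy)
        · exact Or.inl (kn_bd h hR hu (h.kc.ins y c e.symm))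
        · exact Or.inr (mem_biUnion c e.symm))
    obtain ⟨Z, h1, h2, h3, h4⟩ := reps (G := D.t.s.G)
      (union_subset hs fun x hx => (r1 hx).1) (hf.union r2)
    refine ⟨Z, h1, subset_union_left.trans h2, h3, fun x hx => ?_, ?_, fun c => absurd c st⟩
    · by_cases c : ∃ z ∈ cp D.t.s.G (D.t.s.mg D.Ck Rk) x, z ∈ D.t.s.H
      · obtain ⟨z, hz, hH⟩ := c
        exact ⟨z, h2 (Or.inl (inh x z hz hH).1), (inh x z hz hH).2⟩
      · obtain ⟨r, hr, e⟩ := r4 x ⟨hx, fun z hz hH => c ⟨z, hz, hH⟩⟩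
        refine ⟨r, h2 (Or.inr hr), fun v hv hy => ?_⟩
        obtain ⟨-, u, rfl⟩ := hv.1
        exact ((Set.ext_iff.1 e u).2 ⟨hv, hy⟩).2
    · refine h4.trans ((ncard_union_le _ _).trans (Nat.add_le_add_left (r3.trans ?_) _))
      exact Nat.pow_le_pow_right (by norm_num) h.kc.fin.2.1

end Pool.Agent.MP_9d78a0_co.gm

end MrgPart7

-- ======== part 8: formerly Pool.Agent.MP_9d78a0_co.gm.FMid1
section MrgPart8

/-! Row MID: the map after the surgery. -/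

set_option autoImplicit false

namespace Pool.Agent.MP_9d78a0_co.gm

open Set Function

namespace FMid

/-- the result of the surgery -/
structure Sx (s : Sk) (Ck Rk Z : Set MV) (M' : FM s.Φ) (vx' : s.Φ → MV) (H' : Set MV)
    (pos' : s.Φ → Prop) : Prop where
  ok : s.Ok
  ck : Ck ⊆ s.Ce
  rk : Rk ⊆ s.Rm
  z : Z ⊆ s.mg Ck Rk
  su : s.Surg Ck Rk Z M' vx' H' pos'

namespace Sx

variable {s : Sk} {Ck Rk Z H' : Set MV} {M' : FM s.Φ} {vx' : s.Φ → MV} {pos' : s.Φ → Prop}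
  (h : Sx s Ck Rk Z M' vx' H' pos')

include h

theorem mg_not {x : MV} (hx : x ∈ s.mg Ck Rk) : x ∉ Ck ∪ Rk ∪ s.kn Ck Rk := by
  obtain ⟨a1, a2, a3⟩ := h.ok.hr
  have lr : ∀ y : MV, y ∈ range Sum.inl → y ∈ range Sum.inr → False := by
    rintro _ ⟨_, rfl⟩ ⟨_, ⟨⟩⟩
  rintro ((k | k) | k) <;> rcases hx with (l | l) | l
  · exact (h.ck k).2 (Or.inl l.1)
  · exact l.2 k
  · exact lr _ l.1.2 (h.ck k).1.2
  · exact disjoint_left.1 a3 l.1 (h.rk k)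
  · exact l.1.2 (Or.inr (h.rk k))
  · exact lr _ l.1.2 (a2 (h.rk k))
  · exact lr _ k.1.2 (a1 l.1)
  · exact lr _ k.1.2 l.1.1.2
  · exact l.2 k

theorem vxk {f : s.Φ} (hf : f ∈ M'.S) (k : s.vx f ∈ Ck ∪ Rk ∪ s.kn Ck Rk) :
    vx' f = s.vx f ∧ vx' f ∉ H' :=
  ((h.su.vx f hf).resolve_right fun l => h.mg_not (h.z l.1) k).2

theorem vxh {f : s.Φ} (hf : f ∈ M'.S) (k : s.vx f ∈ s.H) : vx' f ∈ H' :=
  ((h.su.vx f hf).resolve_left fun l =>
    h.mg_not (Or.inl (Or.inl ⟨k, f, h.su.sub hf, rfl⟩)) l.1).2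

theorem amem {f : s.Φ} (hf : f ∈ M'.S) : s.M.a f ∈ M'.S :=
  h.su.ac.1 ▸ (h.su.ok.hm.ok.ia f hf).1

theorem vt {v : W} (k : Sum.inl v ∈ (s.re M' vx' H' Rk pos').Vt) : Sum.inl v ∈ s.kn Ck Rk :=
  h.su.nd ▸ ⟨k, v, rfl⟩

theorem spoke {f : s.Φ} (hf : f ∈ s.M.fl s.vx s.H) (k : Sum.inl (s.far f) ∈ s.kn Ck Rk) :
    f ∈ M'.fl vx' H' ∧ (s.re M' vx' H' Rk pos').far f = s.far f := by
  have e := ((fSkS s h.ok).2.1 f hf).1
  have m := h.su.old f hf (e ▸ k)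
  refine ⟨⟨m, h.vxh m hf.2⟩, ?_⟩
  show nodeOf (vx' (M'.a f)) = nodeOf (s.vx (s.M.a f))
  rw [h.su.ac.1, (h.vxk (h.amem m) (Or.inr (e ▸ k))).1]

theorem corner {f : s.Φ} (hf : f ∈ s.M.fl s.vx s.H) (q : s.Quad f) (k : s.link f ∈ Ck ∪ Rk) :
    Sum.inl (s.far f) ∈ s.kn Ck Rk ∧ Sum.inl (s.far (s.M.rot f)) ∈ s.kn Ck Rk ∧
      M'.rot f = s.M.rot f ∧ (s.re M' vx' H' Rk pos').Quad f ∧
      (s.re M' vx' H' Rk pos').link f = s.link f := by
  have hM := h.ok.hm.ok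
  obtain ⟨e1, -, r1, -, -, -, -, r2⟩ := (fSkS s h.ok).2.1 f hf
  obtain ⟨e2, -, -, -, c1, -, c2, -⟩ := (fSkS s h.ok).2.1 _ r1
  obtain ⟨n1, n2, -⟩ := r2 q
  have k1 : Sum.inl (s.far f) ∈ s.kn Ck Rk :=
    ⟨⟨⟨_, (hM.ia f hf.1).1, e1⟩, _, rfl⟩, _, k, n1.symm⟩
  have k2 : Sum.inl (s.far (s.M.rot f)) ∈ s.kn Ck Rk :=
    ⟨⟨⟨_, (hM.ia _ r1.1).1, e2⟩, _, rfl⟩, _, k, n2.symm⟩
  have m0 := (h.spoke hf k1).1.1
  have eb : s.M.c (s.M.rot f) = s.M.b f := (hM.ic _ (hM.ib f hf.1).1).2.1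
  have mb : s.M.b f ∈ M'.S := eb ▸ (h.spoke c1 (c2 ▸ k2)).1.1
  have s1 := (hM.ib _ (hM.ia f hf.1).1).1
  have s2 := (hM.ib _ (hM.ia _ s1).1).1
  have s3 := (hM.ib _ (hM.ia _ s2).1).1
  have m1a : s.M.a (s.M.b (s.M.a f)) ∈ M'.S := h.su.keep _ (hM.ia _ s1).1 k
  have m1 : s.M.b (s.M.a f) ∈ M'.S := (hM.ia _ s1).2.1 ▸ h.amem m1a
  have v2 : s.vx (s.M.a (s.M.b (s.M.a f))) = s.vx (s.M.b (s.M.a (s.M.b (s.M.a f)))) :=
    (h.ok.hm.lbl _ (hM.ia _ s1).1 _ s2).2 (Relation.ReflTransGen.single (Or.inl rfl))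
  have m2 : s.M.b (s.M.a (s.M.b (s.M.a f))) ∈ M'.S := h.su.keep _ s2 (v2 ▸ k)
  have q' : s.M.b (s.M.a (s.M.b (s.M.a (s.M.b (s.M.a (s.M.b (s.M.a f))))))) = f := q
  have e3 : s.M.a (s.M.b (s.M.a (s.M.b (s.M.a (s.M.b (s.M.a f)))))) = s.M.b f := by
    conv_rhs => rw [← q']
    exact (hM.ib _ (hM.ia _ s3).1).2.1.symm
  have m3 : s.M.b (s.M.a (s.M.b (s.M.a (s.M.b (s.M.a f))))) ∈ M'.S :=
    (hM.ia _ s3).2.1 ▸ h.amem (e3 ▸ mb)
  have b1 := h.su.b _ (h.amem m0) m1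
  refine ⟨k1, k2, ?_, ?_, ?_⟩
  · show M'.c (M'.b f) = s.M.c (s.M.b f)
    rw [h.su.ac.2, h.su.b f m0 mb]
  · show M'.b (M'.a (M'.b (M'.a (M'.b (M'.a (M'.b (M'.a f))))))) = f
    rw [h.su.ac.1, b1, h.su.b _ m1a m2, h.su.b _ (h.amem m2) m3,
      h.su.b _ (h.amem m3) (q'.symm ▸ m0), q']
  · show vx' (M'.a (M'.b (M'.a f))) = s.vx (s.M.a (s.M.b (s.M.a f)))
    rw [h.su.ac.1, b1]
    exact (h.vxk m1a (Or.inl k)).1

theorem back {f : s.Φ} (hf : f ∈ M'.fl vx' H') :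
    (s.re M' vx' H' Rk pos').far f = s.far f ∧ Sum.inl (s.far f) ∈ s.kn Ck Rk ∧ f ∈ s.M.S ∧
      (s.vx f ∈ s.H ∨ (s.vx f ∈ s.Ce \ Ck ∧ s.far f ∈ s.nb (s.vx f))) := by
  have e := ((fSkS _ h.su.ok).2.1 f hf).1
  have m := h.amem hf.1
  have e' : vx' (s.M.a f) = Sum.inl ((s.re M' vx' H' Rk pos').far f) := h.su.ac.1 ▸ e
  have a := (h.su.vx _ m).resolve_right fun l =>
    h.su.ok.hm.ind f hf.1 hf.2 (show vx' (M'.a f) ∈ H' from h.su.ac.1 ▸ l.2)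
  have e1 : s.vx (s.M.a f) = Sum.inl ((s.re M' vx' H' Rk pos').far f) := a.2.1 ▸ e'
  have e2 : (s.re M' vx' H' Rk pos').far f = s.far f := (congrArg nodeOf e1).symm
  have k := h.vt ⟨_, m, e'⟩
  have z := h.z ((h.su.vx f hf.1).resolve_left fun l => l.2.2 hf.2).1
  have sf := h.su.sub hf.1
  rw [e2] at e1 k
  refine ⟨e2, k, sf, ?_⟩
  rcases z with (z | z) | z
  · exact Or.inl z.1
  · exact Or.inr ⟨z, e1 ▸ (h.ok.hm.simple f sf).1, f, sf, Or.inl ⟨rfl, e1⟩⟩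
  · exact absurd (e1 ▸ k.1) ((h.ok.bip f sf).1 z.1)

theorem has {v : W} {x : MV} (k : Sum.inl v ∈ s.kn Ck Rk) (hx : x ∈ s.H ∨ x ∈ s.Ce \ Ck)
    (a : v ∈ s.nb x) : ∃ f ∈ M'.fl vx' H', (s.re M' vx' H' Rk pos').far f = v := by
  obtain ⟨f, hf, e⟩ := h.su.has _ k x
    (Or.inl (hx.imp (fun l => ⟨l, ((fSkS s h.ok).2.2.2.1 _ _ a).1⟩) id)) a.symm
  exact ⟨f, hf, congrArg nodeOf e⟩

end Sx

end FMid

end Pool.Agent.MP_9d78a0_co.gm

end MrgPart8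

-- ======== part 9: formerly Pool.Agent.MP_9d78a0_co.gm.FNam
section MrgPart9

/-! Block F: named labels are well-quasi-ordered. -/

set_option autoImplicit false

namespace Pool.Agent.MP_9d78a0_co.gm

open Set Function

namespace FNam

theorem fix {A : Set Lab} (hA : Pwo A) (n a b : ℕ) :
    Pwo {l | l.2.length = b ∧ ∃ (X : Pc) (ρ : List W) (r : W → W), Mem A (X, ρ) ∧ ρ.length = a ∧
      (∀ i, r (Sum.inr i) = Sum.inr i) ∧ InjOff r X ({v | v ∈ ρ} ∪ Nm) ∧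
      (∀ v ∈ ρ, r v ∈ Od ∨ ∃ i < n, r v = Sum.inr i) ∧ l.1 = ren r X ∧
      ∀ v ∈ l.2, ∃ u ∈ ρ, r u = v} := by
  refine partiallyWellOrderedOn_iff_exists_lt.2 fun f hf => ?_
  choose X ρ r a1 a2 a3 a4 a5 a6 a7 using fun i => (hf i).2
  choose l hl using fun i => exists_ofFn (hf i).1
  choose p hp using fun i => exists_ofFn (a2 i)
  have k : ∀ i (m : Fin b), ∃ s : Fin a, r i (p i s) = l i m := fun i m => by
    obtain ⟨u, h1, h2⟩ := a7 i (l i m) (by rw [hl]; simp)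
    rw [hp, List.mem_ofFn] at h1
    obtain ⟨s, rfl⟩ := h1
    exact ⟨s, h2⟩
  choose φ hφ using k
  have : IsPreorder Lab Le := { refl := Le.refl, trans := fun _ _ _ => Le.trans }
  obtain ⟨g, hg⟩ := hA.mem.exists_monotone_subseq (f := fun i => (X i, ρ i)) a1
  obtain ⟨i, -, j, -, c1, c2, -⟩ := pl.pigeon infinite_univ
    (fun i => (φ (g i), (fun s s' => r (g i) (p (g i) s) = r (g i) (p (g i) s')),
      (fun s (m : Fin n) => r (g i) (p (g i) s) = Sum.inr m.1), fun s => r (g i) (p (g i) s) ∈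
        VV (ren (r (g i)) (X (g i))) ∪ range (l (g i)))) (fun _ => 0) fun _ => le_rfl
  simp only [Prod.mk.injEq] at c2
  obtain ⟨c2, c3, c4, c5⟩ := c2
  have h0 := hg i j c1.le
  simp only [hp] at h0
  have nm : ∀ i s m, r i (p i s) = Sum.inr m → m < n := fun i s m e => by
    rcases a5 i (p i s) (by rw [hp]; simp) with ⟨x, hx⟩ | ⟨x, hx, e'⟩
    · rw [e] at hx; cases hx
    · rw [e] at e'; cases e'; exact hx
  have io : ∀ i, InjOff (r i) (X i) (range (p i) ∪ Nm) := fun i => by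
    have := a4 i
    rwa [hp, set_ofFn] at this
  have h1 := pushS _ _ _ _ _ _ _ (le_ofFn.1 h0) (a3 _) (a3 _) (io _) (io _)
    (fun s s' => (congrFun (congrFun c3 s) s').to_iff) fun s m =>
      ⟨fun e => (congrFun (congrFun c4 s) ⟨m, nm _ _ _ e⟩).mp e,
        fun e => (congrFun (congrFun c4 s) ⟨m, nm _ _ _ e⟩).mpr e⟩
  have e1 : (r (g i) ∘ p (g i)) ∘ φ (g i) = l (g i) := funext (hφ _)
  have e2 : (r (g j) ∘ p (g j)) ∘ φ (g i) = l (g j) := c2 ▸ funext (hφ _)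
  have h2 := h1.comp (φ (g i)) (by
    rw [e1, e2]
    exact fun s h => Or.inl ((congrFun c5 s).mp h))
  rw [e1, e2] at h2
  have e : ∀ i, f i = (ren (r i) (X i), List.ofFn (l i)) := fun i => Prod.ext (a6 i) (hl i)
  refine ⟨g i, g j, g.strictMono c1, ?_⟩
  rw [e, e]
  exact le_ofFn.2 h2

end FNam

theorem namS : NamS := by
  intro A n k
  refine ⟨fun hA => (pwo_le (fun a => pwo_le (fun b => FNam.fix hA n a b) k) k).mono ?_, ?_⟩
  · rintro l ⟨h0, X, ρ, r, h1, h2, h3⟩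
    exact mem_biUnion h2 (mem_biUnion h0 ⟨rfl, X, ρ, r, h1, rfl, h3⟩)
  · have : IsPreorder Lab Le := { refl := Le.refl, trans := fun _ _ _ => Le.trans }
    refine Finite.partiallyWellOrderedOn ((((finite_lt_nat n).image fun i =>
      ({(Sum.inl 0, Sum.inr i)} : Pc)).prod (toFinite {[(Sum.inl 0 : W)], []})).subset ?_)
    rintro l ⟨i, h, e, e'⟩
    exact ⟨⟨i, h, e.symm⟩, e'⟩

end Pool.Agent.MP_9d78a0_co.gm

end MrgPart9

-- marker of a merged file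
example : 731051 + 803176 = 731051 + 803176 := rfl
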