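import Pool.Agent.MP_9d78a0_co.gm.SpecJ
import Mathlib.Data.Nat.Nth
import Pool.Agent.MP_9d78a0_co.gm.COp2
import Pool.Agent.MP_9d78a0_co.gm.SpecM
import Pool.Agent.MP_9d78a0_co.gm.FNam
import Pool.Agent.MP_9d78a0_co.gm.BGrid
import Mathlib.Data.Set.Card.Arithmetic
import Pool.Agent.MP_9d78a0_co.gm.FCell

-- ======== part 0: formerly Pool.Agent.MP_9d78a0_co.gm.BReg
section MrgPart0

/-! Row REGION: a region in which every tangle lives in a part has bounded width. -/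

set_option autoImplicit false

namespace Pool.Agent.MP_9d78a0_co.gm

open Set Function

namespace BReg

variable {ε ν ι : Type} {inc : ε → Set ν} {pt : ι → Set ε}

theorem arob_single (f : Set ε → ℕ) (a : ε) : ARob f {a} := fun U hU => by
  rcases subset_singleton_iff_eq.1 hU with rfl | rfl
  · exact Or.inr (by rw [sdiff_empty])
  · exact Or.inl le_rfl

theorem core [Finite ε] [Finite ι] {θ r : ℕ} (hi : ∀ a, (inc a).Finite)
    (hd : Pairwise (Disjoint on pt)) (hr : ∀ i, ARob (hf inc) (pt i)) (hb : ∀ i, hf inc (pt i) ≤ r)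
    (hT : ∀ T : Tangle (hf inc) θ, (∀ U, hf inc U < θ → (∀ i, Disjoint U (pt i)) → U ∈ T.sm) →
      ∃ i, (pt i)ᶜ ∈ T.sm) :
    ∃ D, pl.Dec (hf fun i => hv inc (pt i)) (3 * θ + r) D := by
  refine pl.dec_of_split (fun X hX hn => ?_) (by simp [hf, hbd])
  set Z := hbd (fun i => hv inc (pt i)) X with hZ
  have zf0 : Z.Finite := hbd_fin (fun i => hv_fin hi _) X
  have out : ∀ {i j}, i ≠ j → hv inc (pt i) ⊆ hv inc (pt j)ᶜ := fun h =>
    hv_mono (hd h).subset_compl_right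
  have z1 : ∀ k, Z ⊆ hv inc (pt k)ᶜ := by
    rintro k v ⟨⟨i, h1, h2⟩, j, h3, h4⟩
    by_cases c : i = k
    exacts [out (fun e : j = k => h3 (by rwa [e, ← c])) h4, out c h2]
  change Z.ncard ≤ _ at hX
  rcases le_or_gt Z.ncard (3 * θ) with k | k
  · obtain ⟨i, h1, j, h2, hij⟩ := hn
    refine ⟨{i}, singleton_subset_iff.2 h1, singleton_nonempty _, ⟨j, h2, hij.symm⟩,
      ((ncard_le_ncard ?_ (hbd_fin hi _)).trans (hb i)).trans (Nat.le_add_left _ _),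
      (ncard_le_ncard (t := Z ∪ hbd inc (pt i)) ?_ (zf0.union (hbd_fin hi _))).trans
        ((ncard_union_le _ _).trans (add_le_add k (hb i)))⟩
    · rintro v ⟨⟨_, rfl, a⟩, l, b, c⟩
      exact ⟨a, out b c⟩
    · rintro v ⟨⟨l, a, b⟩, m, c, d⟩
      by_cases e : m = i
      · exact Or.inr ⟨e ▸ d, out a.2 b⟩
      · exact Or.inl ⟨⟨l, a.1, b⟩, m, fun x => c ⟨x, e⟩, d⟩
  have big : ∀ U, Z ⊆ hv inc U → ¬ (Z ∩ hv inc U).ncard ≤ θ := fun U h => by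
    rw [inter_eq_left.2 h]
    omega
  by_cases tot : ∀ U, hf inc U < θ → (Z ∩ hv inc U).ncard ≤ θ ∨ (Z ∩ hv inc Uᶜ).ncard ≤ θ
  · obtain ⟨i, h⟩ := hT ⟨{U | hf inc U < θ ∧ (Z ∩ hv inc U).ncard ≤ θ}, fun _ h => h.1,
      fun U h => (tot U h).imp (fun l => ⟨h, l⟩) fun l => ⟨by rwa [(hf_sym hi).cpl], l⟩,
      fun A a B b C c e => by
        have e1 : Z = Z ∩ hv inc A ∪ Z ∩ hv inc B ∪ Z ∩ hv inc C := by
          rw [← inter_union_distrib_left, ← inter_union_distrib_left, ← hv_union, ← hv_union, e]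
          refine (inter_eq_left.2 ?_).symm
          rintro v ⟨⟨_, -, h⟩, -⟩
          exact hv_mono (subset_univ _) h
        have h1 := ncard_union_le (Z ∩ hv inc A ∪ Z ∩ hv inc B) (Z ∩ hv inc C)
        have h2 := ncard_union_le (Z ∩ hv inc A) (Z ∩ hv inc B)
        rw [← e1] at h1
        have := a.2
        have := b.2
        have := c.2
        omega,
      fun a h => big _ (by
        rintro v ⟨⟨i, h1, x, h2, h2'⟩, j, h3, y, h4, h4'⟩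
        by_cases c : x = a
        · exact ⟨y, fun e => disjoint_left.1 (hd fun e : i = j => h3 (e ▸ h1)) h2
            (c.trans (show y = a from e).symm ▸ h4), h4'⟩
        · exact ⟨x, c, h2'⟩) h.2⟩ fun U h1 h2 => ⟨h1, le_trans (ncard_le_ncard (t := hbd inc U) (by
          rintro v ⟨⟨⟨i, -, h3⟩, -⟩, h4⟩
          exact ⟨h4, hv_mono (h2 i).symm.subset_compl_right h3⟩) (hbd_fin hi _)) h1.le⟩
    exact absurd h.2 (big _ (z1 i))
  push Not at tot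
  obtain ⟨U, u0, u1, u2⟩ := tot
  have lt : ∀ W, hf inc W < θ → θ < (Z ∩ hv inc Wᶜ).ncard → zf inc Z W < Z.ncard := fun W a b => by
    have h1 : zf inc Z W ≤ (hbd inc W ∪ Z \ hv inc Wᶜ).ncard := ncard_le_ncard (by
      rintro v ⟨c, d⟩
      by_cases e : v ∈ hv inc Wᶜ
      exacts [Or.inl ⟨c, e⟩, Or.inr ⟨d.resolve_left e, e⟩]) ((hbd_fin hi _).union zf0.sdiff)
    have h2 := ncard_union_le (hbd inc W) (Z \ hv inc Wᶜ)
    have h3 := ncard_inter_add_ncard_sdiff_eq_ncard Z (hv inc Wᶜ) zf0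
    unfold hf at a
    omega
  obtain ⟨R, R', a1, -, a3, a4, a5, -⟩ := unc2 (zf_subm hi Z) (finite_range pt)
    (by
      rintro _ ⟨i, rfl⟩ _ ⟨j, rfl⟩ e
      exact hd fun x => e (x ▸ rfl))
    (by
      rintro _ ⟨i, rfl⟩ W hW
      have e : zf inc Z (pt i) = hf inc (pt i) := by
        rw [zf, zbd, union_eq_left.2 (z1 i)]
        rfl
      have l : ∀ W, hf inc W ≤ zf inc Z W := fun W =>
        ncard_le_ncard (inter_subset_inter_right _ subset_union_left) (zbd_fin hi Z W)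
      rw [e]
      exact (hr i W hW).imp (·.trans (l _)) (·.trans (l _)))
    (disjoint_compl_right (a := U)) (fun _ _ => by simp)
  have b1 : hf (fun i => hv inc (pt i)) {i | i ∈ X ∧ pt i ⊆ R} < Z.ncard :=
    lt_of_le_of_lt (ncard_le_ncard (by
      rintro v ⟨⟨i, h1, h2⟩, j, h3, h4⟩
      refine ⟨hv_mono h1.2 h2, ?_⟩
      by_cases c : j ∈ X
      · exact Or.inl (hv_mono (((a5 _ ⟨j, rfl⟩).1.resolve_left fun e => h3 ⟨c, e⟩).trans
          a1.symm.subset_compl_right) h4)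
      · exact Or.inr ⟨⟨i, h1.1, h2⟩, j, c, h4⟩) (zbd_fin hi Z R)) (a3.trans_lt (lt U u0 u2))
  have b2 : hf (fun i => hv inc (pt i)) (X \ {i | i ∈ X ∧ pt i ⊆ R}) < Z.ncard :=
    lt_of_le_of_lt (ncard_le_ncard (by
      rintro v ⟨⟨i, h1, h2⟩, j, h3, h4⟩
      refine ⟨hv_mono ((a5 _ ⟨i, rfl⟩).1.resolve_left fun e => h1.2 ⟨h1.1, e⟩) h2, ?_⟩
      by_cases c : j ∈ X
      · exact Or.inl (hv_mono ((not_not.1 fun e => h3 ⟨c, e⟩ : j ∈ {i | i ∈ X ∧ pt i ⊆ R}).2.trans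
          a1.subset_compl_right) h4)
      · exact Or.inr ⟨⟨i, h1.1, h2⟩, j, c, h4⟩) (zbd_fin hi Z R'))
      (a4.trans_lt (lt Uᶜ (by rwa [(hf_sym hi).cpl]) (by rwa [compl_compl])))
  refine ⟨_, fun _ h => h.1, nonempty_iff_ne_empty.2 fun e => ?_,
    nonempty_iff_ne_empty.2 fun e => ?_, b1.le.trans hX, b2.le.trans hX⟩
  · rw [e, sdiff_empty] at b2
    exact b2.false
  · rw [subset_antisymm (fun _ h => h.1) (sdiff_eq_empty.1 e)] at b1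
    exact b1.false

end BReg

open BReg

theorem regionS : RegionS := by
  intro ε ν _ inc θ r M Y hi hd hr hb hT
  refine core (ι := Y) (pt := fun P => P.1.1) hi
    (fun P Q h => disjoint_left.2 fun a p q => h (Subtype.ext (part_eq hd p q))) (fun P => ?_)
    (fun P => hb P.1 P.2) fun T h => ?_
  · rcases P.1.2 with p | ⟨a, -, p⟩
    · exact hr _ p
    · rw [p]
      exact arob_single _ a
  · obtain ⟨P, p, q⟩ := hT T fun U a b =>
      h U a fun P => b.mono_right (show P.1.1 ⊆ up Y from fun x hx => ⟨P.1, P.2, hx⟩)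
    exact ⟨⟨P, p⟩, q⟩

theorem region0S : Region0S := by
  intro ε ν _ inc θ r Y hi hb hT
  have h := core (ι := Y) (pt := fun a => {a.1}) (θ := θ) hi
    (fun a b h => disjoint_singleton.2 fun e => h (Subtype.ext e)) (fun a => arob_single _ _)
    (fun a => hb a.1 a.2) fun T h => absurd (fun U a b =>
      h U a fun x => b.mono_right (singleton_subset_iff.2 x.2)) (hT T)
  rwa [show (fun a : Y => hv inc {a.1}) = fun a : Y => inc a.1 from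
    funext fun a => by ext v; simp [hv]] at h

end Pool.Agent.MP_9d78a0_co.gm

end MrgPart0

-- ======== part 1: formerly Pool.Agent.MP_9d78a0_co.gm.JCode
section MrgPart1

/-! Infinitely many tame structures look the same at the holes. -/

set_option autoImplicit false

namespace Pool.Agent.MP_9d78a0_co.gm

open Set Function

namespace JCode

variable {p : Par}

theorem vx_c {s : Sk} (h : s.Ok) {f : s.Φ} (hf : f ∈ s.M.S) : s.vx (s.M.c f) = s.vx f :=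
  ((h.hm.lbl f hf _ (h.hm.ok.ic f hf).1).2
    (Relation.ReflTransGen.single (Or.inr rfl))).symm

theorem far_c {s : Sk} (h : s.Ok) {f : s.Φ} (hf : f ∈ s.M.S) : s.far (s.M.c f) = s.far f := by
  unfold Sk.far
  rw [(h.hm.ok.ac f hf).1, vx_c h (h.hm.ok.ia f hf).1]

theorem phi_mem (x : TM p) (j : x.t.ι) (i : ℕ) : x.t.φ j i ∈ x.t.s.M.S := by
  have h := x.h.ok.ok.hm.ok
  induction i with
  | zero => exact (x.h.ok.hole j).1
  | succ i ih =>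
    have : x.t.φ j (i + 1) = x.t.s.M.rot (x.t.φ j i) := iterate_succ_apply' _ _ _
    rw [this]
    exact (h.ic _ (h.ib _ ih).1).1

theorem sg_sub (x : TM p) : x.t.Sg ⊆ x.t.s.M.S := by
  have h := x.h.ok.ok.hm.ok
  rintro f (hf | ⟨j, rfl | rfl | rfl | rfl⟩)
  · exact hf.1.1
  · exact phi_mem x j 0
  · exact (h.ic _ (phi_mem x j 0)).1
  · exact phi_mem x j _
  · exact (h.ic _ (phi_mem x j _)).1

theorem sg_c (x : TM p) {f : x.t.s.Φ} (hf : f ∈ x.t.Sg) : x.t.s.M.c f ∈ x.t.Sg := by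
  have h := x.h.ok.ok.hm.ok
  rcases hf with hf | ⟨j, rfl | rfl | rfl | rfl⟩
  · refine Or.inl ⟨⟨(h.ic f hf.1.1).1, ?_⟩, fun j i hi => ⟨fun e => (hf.2 j i hi).2 ?_,
      fun e => (hf.2 j i hi).1 ?_⟩⟩
    · rw [vx_c x.h.ok.ok hf.1.1]; exact hf.1.2
    · rw [← e, (h.ic f hf.1.1).2.1]
    · rw [← (h.ic f hf.1.1).2.1, e, (h.ic _ (phi_mem x j i)).2.1]
  · exact Or.inr ⟨j, Or.inr (Or.inl rfl)⟩
  · exact Or.inr ⟨j, Or.inl (h.ic _ (phi_mem x j 0)).2.1⟩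
  · exact Or.inr ⟨j, Or.inr (Or.inr (Or.inr rfl))⟩
  · exact Or.inr ⟨j, Or.inr (Or.inr (Or.inl (h.ic _ (phi_mem x j _)).2.1))⟩

theorem sg_ret (x : TM p) {f : x.t.s.Φ} (hf : f ∈ x.t.Sg) :
    ret x.t.s.M.rot x.t.Sg (x.t.s.M.rot f) ∈ x.t.Sg := by
  obtain ⟨-, h1, h2, -⟩ := rotS _ _ x.h.ok.ok.hm.ok f (sg_sub x hf)
  have hne : {n | x.t.s.M.rot^[n] (x.t.s.M.rot f) ∈ x.t.Sg}.Nonempty := by
    refine ⟨(x.t.s.M.vo f).ncard / 2 - 1, ?_⟩
    show _ ∈ x.t.Sg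
    rw [← iterate_succ_apply, Nat.succ_eq_add_one, Nat.sub_add_cancel h1,
      (h2 _ 0).2 (Nat.modEq_zero_iff_dvd.2 dvd_rfl)]
    exact hf
  exact Nat.sInf_mem hne

theorem sg_far (x : TM p) {f : x.t.s.Φ} (hf : f ∈ x.t.Sg) : x.t.s.far f ∈ x.t.Mk := by
  rcases hf with hf | ⟨j, rfl | rfl | rfl | rfl⟩
  · exact Or.inr ⟨f, hf, rfl⟩
  · exact Or.inl (mem_iUnion.2 ⟨j, Or.inl (Or.inl rfl)⟩)
  · rw [far_c x.h.ok.ok (phi_mem x j 0)]
    exact Or.inl (mem_iUnion.2 ⟨j, Or.inl (Or.inl rfl)⟩)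
  · exact Or.inl (mem_iUnion.2 ⟨j, Or.inr (Or.inl rfl)⟩)
  · rw [far_c x.h.ok.ok (phi_mem x j _)]
    exact Or.inl (mem_iUnion.2 ⟨j, Or.inr (Or.inl rfl)⟩)

theorem num {α : Type*} (S : Set α) (hS : S.Finite) :
    ∃ ix : α → ℕ, InjOn ix S ∧ ∀ a ∈ S, ix a < S.ncard := by
  classical
  have := hS.to_subtype
  refine ⟨fun a => if h : a ∈ S then (Finite.equivFin S ⟨a, h⟩ : ℕ) else 0, ?_, ?_⟩
  · intro a ha b hb e
    simp only [dif_pos ha, dif_pos hb] at e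
    exact congrArg Subtype.val ((Finite.equivFin S).injective (Fin.ext e))
  · intro a ha
    simp only [dif_pos ha]
    exact (Finite.equivFin S ⟨a, ha⟩).2

/-- the relations of the code -/
def rel (x : TM p) (ix : x.t.s.Φ → ℕ) (jx : x.t.ι → ℕ) (tn : Ty → ℕ) (t : Fin 8)
    (a b c d : ℕ) : Prop :=
  (t = 0 → ∃ f ∈ x.t.Sg, ix f = a ∧ ix (x.t.s.M.c f) = b ∧
    ix (ret x.t.s.M.rot x.t.Sg (x.t.s.M.rot f)) = c ∧ x.nm (x.t.s.far f) = d) ∧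
  (t = 1 → ∃ f ∈ x.t.Sg, ∃ g ∈ x.t.Sg, ix f = a ∧ ix g = b ∧ x.t.s.vx f = x.t.s.vx g) ∧
  (t = 2 → ∃ f ∈ x.t.Sg, ix f = a ∧ x.t.s.pos f) ∧
  (t = 3 → ∃ j, jx j = a ∧ ix (x.t.φ j 0) = b ∧ ix (x.t.φ j (x.t.m j)) = c ∧ tn (x.ty j) = d) ∧
  (t = 4 → ∃ j, jx j = a ∧ x.nm (x.t.β j 0 b) = c ∧ x.nm (x.t.β j (x.t.m j) b) = d) ∧
  (t = 5 → x.t.s.M.eg = a) ∧ (t = 6 → ∃ o, x.t.s.M.Ori o) ∧ (t = 7 → Nonempty x.t.s.Φ)

/-- the numberings are injective and bounded -/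
structure Num (x : TM p) (ix : x.t.s.Φ → ℕ) (jx : x.t.ι → ℕ) (tn : Ty → ℕ) (M : ℕ) : Prop where
  pos : 0 < M
  ii : InjOn ix x.t.Sg
  il : ∀ f ∈ x.t.Sg, ix f < M
  ji : Injective jx
  jl : ∀ j, jx j < M
  tl : ∀ j, tn (x.ty j) < M
  tm : ∀ j, x.ty j ∈ p.Ms
  nl : ∀ v ∈ x.t.Mk, x.nm v < M
  dl : ∀ j, x.t.d j ≤ M
  el : ∃ a < M, x.t.s.M.eg = (a : ℕ)

variable {x x' : TM p} {ix : x.t.s.Φ → ℕ} {jx : x.t.ι → ℕ} {ix' : x'.t.s.Φ → ℕ}
  {jx' : x'.t.ι → ℕ} {tn : Ty → ℕ} {M : ℕ}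

/-- the code of `x` is contained in the code of `x'` -/
def Sub (x x' : TM p) (ix : x.t.s.Φ → ℕ) (jx : x.t.ι → ℕ) (ix' : x'.t.s.Φ → ℕ)
    (jx' : x'.t.ι → ℕ) (tn : Ty → ℕ) (M : ℕ) : Prop :=
  ∀ t, ∀ a < M, ∀ b < M, ∀ c < M, ∀ d < M, rel x ix jx tn t a b c d → rel x' ix' jx' tn t a b c d

theorem s0 (h : Num x ix jx tn M) (k : Sub x x' ix jx ix' jx' tn M) {f : x.t.s.Φ}
    (hf : f ∈ x.t.Sg) : ∃ g ∈ x'.t.Sg, ix' g = ix f ∧ ix' (x'.t.s.M.c g) = ix (x.t.s.M.c f) ∧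
      ix' (ret x'.t.s.M.rot x'.t.Sg (x'.t.s.M.rot g)) =
        ix (ret x.t.s.M.rot x.t.Sg (x.t.s.M.rot f)) ∧
      x'.nm (x'.t.s.far g) = x.nm (x.t.s.far f) :=
  (k 0 _ (h.il f hf) _ (h.il _ (sg_c x hf)) _ (h.il _ (sg_ret x hf)) _ (h.nl _ (sg_far x hf))
    ⟨fun _ => ⟨f, hf, rfl, rfl, rfl, rfl⟩, by simp⟩).1 rfl

theorem s1 (h : Num x ix jx tn M) (k : Sub x x' ix jx ix' jx' tn M) {f g : x.t.s.Φ}
    (hf : f ∈ x.t.Sg) (hg : g ∈ x.t.Sg) (e : x.t.s.vx f = x.t.s.vx g) :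
    ∃ f' ∈ x'.t.Sg, ∃ g' ∈ x'.t.Sg, ix' f' = ix f ∧ ix' g' = ix g ∧
      x'.t.s.vx f' = x'.t.s.vx g' :=
  (k 1 _ (h.il f hf) _ (h.il g hg) _ h.pos _ h.pos
    ⟨by simp, fun _ => ⟨f, hf, g, hg, rfl, rfl, e⟩, by simp⟩).2.1 rfl

theorem s2 (h : Num x ix jx tn M) (k : Sub x x' ix jx ix' jx' tn M) {f : x.t.s.Φ}
    (hf : f ∈ x.t.Sg) (e : x.t.s.pos f) : ∃ g ∈ x'.t.Sg, ix' g = ix f ∧ x'.t.s.pos g :=
  (k 2 _ (h.il f hf) _ h.pos _ h.pos _ h.pos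
    ⟨by simp, by simp, fun _ => ⟨f, hf, rfl, e⟩, by simp⟩).2.2.1 rfl

theorem e0 (x : TM p) (j : x.t.ι) : x.t.φ j 0 ∈ x.t.Sg := Or.inr ⟨j, Or.inl rfl⟩

theorem e1 (x : TM p) (j : x.t.ι) : x.t.φ j (x.t.m j) ∈ x.t.Sg :=
  Or.inr ⟨j, Or.inr (Or.inr (Or.inl rfl))⟩

theorem s3 (h : Num x ix jx tn M) (k : Sub x x' ix jx ix' jx' tn M) (j : x.t.ι) :
    ∃ j', jx' j' = jx j ∧ ix' (x'.t.φ j' 0) = ix (x.t.φ j 0) ∧
      ix' (x'.t.φ j' (x'.t.m j')) = ix (x.t.φ j (x.t.m j)) ∧ tn (x'.ty j') = tn (x.ty j) :=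
  (k 3 _ (h.jl j) _ (h.il _ (e0 x j)) _ (h.il _ (e1 x j)) _ (h.tl j)
    ⟨by simp, by simp, by simp, fun _ => ⟨j, rfl, rfl, rfl, rfl⟩, by simp⟩).2.2.2.1 rfl

theorem s4 (h : Num x ix jx tn M) (k : Sub x x' ix jx ix' jx' tn M) (j : x.t.ι) {l : ℕ}
    (hl : l < x.t.d j) : ∃ j', jx' j' = jx j ∧ x'.nm (x'.t.β j' 0 l) = x.nm (x.t.β j 0 l) ∧
      x'.nm (x'.t.β j' (x'.t.m j') l) = x.nm (x.t.β j (x.t.m j) l) :=
  (k 4 _ (h.jl j) _ (hl.trans_le (h.dl j))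
    _ (h.nl _ (Or.inl (mem_iUnion.2 ⟨j, Or.inl (Or.inr ⟨l, hl, rfl⟩)⟩)))
    _ (h.nl _ (Or.inl (mem_iUnion.2 ⟨j, Or.inr (Or.inr ⟨l, hl, rfl⟩)⟩)))
    ⟨by simp, by simp, by simp, by simp, fun _ => ⟨j, rfl, rfl, rfl⟩, by simp⟩).2.2.2.2.1 rfl

theorem s5 (h : Num x ix jx tn M) (k : Sub x x' ix jx ix' jx' tn M) :
    x.t.s.M.eg = x'.t.s.M.eg := by
  obtain ⟨a, ha, e⟩ := h.el
  rw [e]
  exact ((k 5 _ ha _ h.pos _ h.pos _ h.pos
    ⟨by simp, by simp, by simp, by simp, by simp, fun _ => e, by simp⟩).2.2.2.2.2.1 rfl).symm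

theorem s6 (h : Num x ix jx tn M) (k : Sub x x' ix jx ix' jx' tn M) (e : ∃ o, x.t.s.M.Ori o) :
    ∃ o, x'.t.s.M.Ori o :=
  (k 6 _ h.pos _ h.pos _ h.pos _ h.pos ⟨by simp, by simp, by simp, by simp, by simp, by simp,
    fun _ => e, by simp⟩).2.2.2.2.2.2.1 rfl

theorem s7 (h : Num x ix jx tn M) (k : Sub x x' ix jx ix' jx' tn M) (e : Nonempty x.t.s.Φ) :
    Nonempty x'.t.s.Φ :=
  (k 7 _ h.pos _ h.pos _ h.pos _ h.pos ⟨by simp, by simp, by simp, by simp, by simp, by simp,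
    by simp, fun _ => e⟩).2.2.2.2.2.2.2 rfl

theorem mat (ht : InjOn tn {y | y ∈ p.Ms}) (h : Num x ix jx tn M) (h' : Num x' ix' jx' tn M)
    (k : Sub x x' ix jx ix' jx' tn M) (k' : Sub x' x ix' jx' ix jx tn M) :
    ∃ e μ, Match x x' e μ := by
  choose a ha using s3 h k
  choose b hb using s3 h' k'
  have hμ : ∀ f : x.t.s.Φ, ∃ g : x'.t.s.Φ, f ∈ x.t.Sg → g ∈ x'.t.Sg ∧ ix' g = ix f := by
    intro f
    by_cases hf : f ∈ x.t.Sg
    · obtain ⟨g, hg, e, -⟩ := s0 h k hf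
      exact ⟨g, fun _ => ⟨hg, e⟩⟩
    · obtain ⟨g⟩ := s7 h k ⟨f⟩
      exact ⟨g, fun q => absurd q hf⟩
  choose μ hμ using hμ
  have key : ∀ f ∈ x.t.Sg, ∀ g ∈ x'.t.Sg, ix' g = ix f → μ f = g := fun f hf g hg e =>
    h'.ii (hμ f hf).1 hg ((hμ f hf).2.trans e.symm)
  refine ⟨⟨a, b, fun j => h.ji ((hb _).1.trans (ha j).1), fun j => h'.ji ((ha _).1.trans (hb j).1)⟩,
    μ, s5 h k, ⟨s6 h k, s6 h' k'⟩, fun j => ht (h'.tm _) (h.tm _) (ha j).2.2.2,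
    ⟨fun f hf => (hμ f hf).1, fun f hf g hg e => h.ii hf hg ?_, fun g hg => ?_⟩,
    fun f hf g hg => ⟨fun e => ?_, fun e => ?_⟩, fun f hf => ?_, fun f hf => ?_,
    fun f hf => ⟨fun e => ?_, fun e => ?_⟩,
    fun j => ⟨key _ (e0 x j) _ (e0 x' _) (ha j).2.1, key _ (e1 x j) _ (e1 x' _) (ha j).2.2.1⟩,
    fun f hf => ?_, fun j l hl => ?_⟩
  · rw [← (hμ f hf).2, ← (hμ g hg).2, e]
  · obtain ⟨f, hf, e, -⟩ := s0 h' k' hg
    exact ⟨f, hf, key f hf g hg e.symm⟩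
  · obtain ⟨f', hf', g', hg', e1, e2, e3⟩ := s1 h k hf hg e
    rw [key f hf f' hf' e1, key g hg g' hg' e2, e3]
  · obtain ⟨f', hf', g', hg', e1, e2, e3⟩ := s1 h' k' (hμ f hf).1 (hμ g hg).1 e
    rw [← h.ii hf' hf (e1.trans (hμ f hf).2), ← h.ii hg' hg (e2.trans (hμ g hg).2), e3]
  · obtain ⟨g, hg, e1, e2, -⟩ := s0 h k hf
    rw [key f hf g hg e1]
    exact key _ (sg_c x hf) _ (sg_c x' hg) e2
  · obtain ⟨g, hg, e1, -, e2, -⟩ := s0 h k hf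
    rw [key f hf g hg e1]
    exact key _ (sg_ret x hf) _ (sg_ret x' hg) e2
  · obtain ⟨g, hg, e1, e2⟩ := s2 h k hf e
    rw [key f hf g hg e1]; exact e2
  · obtain ⟨g, hg, e1, e2⟩ := s2 h' k' (hμ f hf).1 e
    rw [← h.ii hg hf (e1.trans (hμ f hf).2)]; exact e2
  · obtain ⟨g, hg, e1, -, -, e2⟩ := s0 h k hf
    rw [key f hf g hg e1, e2]
  · obtain ⟨j', e1, e2, e3⟩ := s4 h k j hl
    obtain rfl : j' = a j := h'.ji (e1.trans (ha j).1.symm)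
    exact ⟨e2.symm, e3.symm⟩

end JCode

open JCode in
theorem codeS (hT : TameS) : CodeS := by
  intro p x
  obtain ⟨n, hn⟩ := hT p
  obtain ⟨tn, ht, htl⟩ := num {y | y ∈ p.Ms} p.Ms.finite_toSet
  set M := n + p.k + p.ν + {y | y ∈ p.Ms}.ncard + 1 with hM
  have ex : ∀ y : TM p, ∃ ix jx, Num y ix jx tn M := by
    intro y
    obtain ⟨a1, a2, a3, a4, -, -, a7, -⟩ := hn y
    obtain ⟨ix, b1, b2⟩ := num _ a3
    obtain ⟨jx, c1, c2⟩ := num (univ : Set y.t.ι) finite_univ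
    rw [ncard_univ, Nat.card_eq_fintype_card] at c2
    have d1 := (monoS _ _ y.h.ok.ok.hm.ok).1
    have d2 := y.h.eg
    refine ⟨ix, jx, by omega, b1, fun f hf => ?_, injOn_univ.1 c1, fun j => ?_, fun j => ?_,
      fun j => (a1 j).1, fun v hv => ?_, fun j => ?_, y.t.s.M.eg.toNat, by omega, by omega⟩
    · have := b2 f hf; omega
    · have := c2 j (mem_univ j); omega
    · have := htl _ (a1 j).1; omega
    · have := a7 v hv; omega
    · have := (a1 j).2.2; omega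
  choose ix jx hx using ex
  let code : ℕ → Fin 8 → Fin M → Fin M → Fin M → Fin M → Prop :=
    fun i t a b c d => rel (x i) (ix _) (jx _) tn t a b c d
  obtain ⟨y, hy⟩ := Finite.exists_infinite_fiber code
  have hy' : {i | code i = y}.Infinite := infinite_coe_iff.1 hy
  have sub : ∀ i i', code i = y → code i' = y →
      Sub (x i) (x i') (ix _) (jx _) (ix _) (jx _) tn M := by
    intro i i' e e' t a ha b hb c hc d hd r
    have : code i t ⟨a, ha⟩ ⟨b, hb⟩ ⟨c, hc⟩ ⟨d, hd⟩ := r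
    rw [e, ← e'] at this
    exact this
  refine ⟨Nat.nth fun i => code i = y, Nat.nth_strictMono hy', fun m => ?_⟩
  have q0 := Nat.nth_mem_of_infinite hy' 0
  have qm := Nat.nth_mem_of_infinite hy' m
  exact mat ht (hx _) (hx _) (sub _ _ q0 qm) (sub _ _ qm q0)

end Pool.Agent.MP_9d78a0_co.gm

end MrgPart1

-- ======== part 2: formerly Pool.Agent.MP_9d78a0_co.gm.JStep
section MrgPart2

/-! Block J: the step. -/

set_option autoImplicit false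

namespace Pool.Agent.MP_9d78a0_co.gm

open Set Function

namespace JStep

variable {s : Sk} {Y : Set MV} {g : ℕ} {B : Fin g × Fin g → Set MV}

theorem ce_fin (h : s.Ok) : s.Ce.Finite := (h.hm.ok.fin.image s.vx).subset fun _ q => q.1.1

theorem t_tv (h : s.H ⊆ range Sum.inr) : s.T ⊆ s.M.tv s.vx s.H := by
  rintro z (⟨a, v, rfl⟩ | ⟨a, b⟩)
  · exact ⟨a, fun c => by simpa using h c⟩
  · exact ⟨a.1, fun c => b (.inl c)⟩

theorem inr (h : s.Ok) (hY : Y ⊆ s.Ce) : s.H ∪ Y ⊆ range Sum.inr :=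
  union_subset h.hr.1 fun _ q => (hY q).1.2

theorem hm (h : s.Ok) (hY : Y ⊆ s.Ce) : s.M.Hm s.vx (s.H ∪ Y) := by
  have k : ∀ z ∈ s.H ∪ Y, z ∉ s.Nd := fun z a b => by
    obtain ⟨v, rfl⟩ := b.2
    simpa using inr h hY a
  exact ⟨h.hm.ok, h.hm.lbl, h.hm.con, fun f hf => ⟨(h.hm.simple f hf).1, fun x hx a b =>
    (h.hm.simple f hf).2 x hx (fun c => a (.inl c)) fun c => b (.inl c)⟩,
    fun f hf a b => k _ a ((h.bip f hf).2 (k _ b))⟩

theorem grid (k : (s.site Y).Grid B) : s.Grid B :=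
  ⟨fun w _ a => ⟨(k.1 w a).1.imp id fun c => ⟨c.1, fun d => c.2 (d.imp .inl id)⟩,
    fun ⟨f, hf, c, d⟩ => (k.1 w a).2 ⟨f, hf, .inl c, d⟩⟩, k.2⟩

theorem model (h : s.H ⊆ range Sum.inr) (k : s.Grid B) :
    Model (fb.grid g) (s.M.gph s.vx) (s.M.tv s.vx s.H \ s.M.rad s.vx s.H) B :=
  ⟨fun w => (k.1 w).trans (sdiff_subset_sdiff_left (t_tv h)), k.2⟩

theorem nf {n : ℕ} (h : s.Ok) (hY : Y ⊆ s.Ce) (k : (s.site Y).Grid B) (q : (s.site Y).NF B n) :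
    s.NF B n := fun X hX hn => by
  have a := q (X \ Y) (fun z c => ⟨(hX c.1).1, fun d => d.elim (hX c.1).2 c.2⟩)
    ((ncard_le_ncard sdiff_subset ((h.hm.ok.fin.image s.vx).subset fun _ c => (hX c).1)).trans hn)
  refine FM.full_mono h.hm.ok h.hm.lbl ?_ ⟨a.1, fun p hp x hx b c => a.2 p hp x hx (.inl b) (.inl c)⟩
  rintro v ⟨i, j, d, w, hw, l⟩
  refine ⟨i, j, disjoint_left.2 fun z b c => disjoint_left.1 d b ⟨c, fun e => ?_⟩, w, hw,
    Link.mono (fun z b => ?_) l⟩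
  · obtain ⟨m, b⟩ := mem_iUnion.1 b
    exact b.elim (fun b => (model (s := s.site Y) (inr h hY) k).1 _ b |>.1.2 (.inr e))
      fun b => (model (s := s.site Y) (inr h hY) k).1 _ b |>.1.2 (.inr e)
  · exact ⟨⟨b.1.1, fun c => b.1.2 (.inl c)⟩, fun c => b.2 ⟨c, fun e => b.1.2 (.inr e)⟩⟩

theorem fl (h : s.Ok) (hY : Y ⊆ s.Ce) : (s.M.fl s.vx Y).ncard ≤ 6 * Y.ncard := by
  induction Y, (ce_fin h).subset hY using Set.Finite.induction_on with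
  | empty => simp [FM.fl]
  | @insert y Y a b ih =>
    have c : (s.M.fl s.vx {y}).ncard ≤ 6 := by
      rcases (s.M.fl s.vx {y}).eq_empty_or_nonempty with e | ⟨f, hf⟩
      · simp [e]
      · have e : s.vx f = y := hf.2
        have k := (h.deg f hf.1).1 (e ▸ hY (mem_insert _ _))
        refine le_trans (ncard_le_ncard (fun x hx => (h.hm.lbl f hf.1 x hx.1).1 (e.trans hx.2.symm))
          (h.hm.ok.fin.subset fun x hx => ?_)) k
        induction hx with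
        | refl => exact hf.1
        | tail _ r ih => rcases r with rfl | rfl; exacts [(h.hm.ok.ib _ ih).1, (h.hm.ok.ic _ ih).1]
    have d : s.M.fl s.vx (insert y Y) = s.M.fl s.vx {y} ∪ s.M.fl s.vx Y := by
      ext f; simp [FM.fl, and_or_left]
    have := ncard_union_le (s.M.fl s.vx {y}) (s.M.fl s.vx Y)
    have := ih ((subset_insert _ _).trans hY)
    rw [d, ncard_insert_of_notMem a b]
    omega

/-- the cuts of a structure -/
def cuts {σ : AG} (t : Sh σ) : Set (t.ι × ℕ) := {q | q.2 ≤ t.m q.1}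

theorem cuts_fin {σ : AG} (t : Sh σ) : (cuts t).Finite :=
  (finite_iUnion fun j : t.ι => (finite_Iic (t.m j)).image (Prod.mk j)).subset
    fun q a => mem_iUnion.2 ⟨q.1, q.2, a, rfl⟩

theorem tI {p : Par} (x0 x : TM p) (e : x0.t.ι ≃ x.t.ι) (ch : x0.t.ι → ℕ → ℕ) (hY : Y ⊆ x.t.s.Ce) :
    ((x.t.site Y).tI (chosen x0 x e ch)).Finite ∧ ((x.t.site Y).tI (chosen x0 x e ch)).ncard ≤
      (cuts x0.t).ncard + (x.t.Sg.ncard + 6 * Y.ncard) := by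
  have h := x.h.ok.ok
  have a : (x.t.site Y).tI (chosen x0 x e ch) ⊆
      (fun q => Sum.inl (e q.1, start (ch q.1) q.2)) '' cuts x0.t ∪
        (fun f => Sum.inr (x.t.s.far f)) '' (x.t.Fx ∪ x.t.s.M.fl x.t.s.vx Y) := by
    rintro _ (⟨⟨j, i⟩, ⟨-, b⟩, rfl⟩ | ⟨_, ⟨f, hf, rfl⟩, rfl⟩)
    · by_cases c : i = 0
      · exact .inl ⟨(e.symm j, 0), Nat.zero_le _, by simp [start, c]⟩
      · obtain ⟨k, hk, d⟩ := b.resolve_left c
        refine .inl ⟨(e.symm j, k + 1), hk, ?_⟩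
        simp only at d
        simp only [start, Equiv.apply_symm_apply, Nat.add_sub_cancel, if_neg k.succ_ne_zero, d]
        rw [Nat.sub_add_cancel (Nat.pos_of_ne_zero c)]
    · exact .inr ⟨f, hf.1.2.imp (fun c => ⟨⟨hf.1.1, c⟩, hf.2⟩) fun c => ⟨hf.1.1, c⟩, rfl⟩
  have b : (x.t.Fx ∪ x.t.s.M.fl x.t.s.vx Y).Finite :=
    h.hm.ok.fin.subset fun _ q => q.elim (·.1.1) (·.1)
  have c := ((cuts_fin x0.t).image fun q => (Sum.inl (e q.1, start (ch q.1) q.2) : _ ⊕ W)).union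
    (b.image fun f => Sum.inr (x.t.s.far f))
  refine ⟨c.subset a, (ncard_le_ncard a c).trans ((ncard_union_le _ _).trans (add_le_add
    (ncard_image_le (cuts_fin _)) ((ncard_image_le b).trans ((ncard_union_le _ _).trans
      (add_le_add (ncard_le_ncard subset_union_left (h.hm.ok.fin.subset ?_)) (fl h hY))))))⟩
  have r : ∀ j i, x.t.φ j i ∈ x.t.s.M.S := fun j i => by
    induction i with
    | zero => exact (x.h.ok.hole j).1
    | succ i ih =>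
      rw [Sh.φ, iterate_succ_apply']
      exact (h.hm.ok.ic _ (h.hm.ok.ib _ ih).1).1
  rintro f (q | ⟨j, rfl | rfl | rfl | rfl⟩)
  exacts [q.1.1, r _ _, (h.hm.ok.ic _ (r _ _)).1, r _ _, (h.hm.ok.ic _ (r _ _)).1]

theorem emp {p : Par} (x : TM p) [h : IsEmpty x.t.s.Φ] : x.σ.un univ = ∅ := by
  refine iUnion_eq_empty.2 fun a => False.elim ?_
  rcases e : x.t.own a with _ | y | j
  · obtain ⟨v, hv | ⟨f, -⟩, -⟩ := x.h.pend a e
    · obtain ⟨j, -⟩ := mem_iUnion.1 hv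
      exact h.elim (x.t.φ0 j)
    · exact h.elim f
  · obtain ⟨f, -⟩ := (x.h.ok.ownc a y e).1.1
    exact h.elim f
  · exact h.elim (x.t.φ0 j.1)

end JStep

open JStep in
theorem stepS (tame : TameS) (_big : BigS) (rt : RtS) (site : SiteS) (j23 : J23S) (loc : LocS)
    (mat : MatS) (real : RealS) : StepS := by
  intro p x0 ρ
  rcases isEmpty_or_nonempty x0.t.s.Φ with ne | ne
  · exact ⟨∅, 0, 0, finite_empty, fun x _ _ _ _ _ => .inl (Le.mono (emp x0 ▸ empty_subset _) [])⟩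
  obtain ⟨n0, h0⟩ := tame p
  obtain ⟨Ω2, w2, R1, f2, h2⟩ := j23 p x0
  obtain ⟨R, r1, r2, r3⟩ : ∃ R, R1 ≤ R ∧ (∀ w ≤ w2, ρ w ≤ R) ∧
      (cuts x0.t).ncard + (n0 + 6 * x0.t.s.Ce.ncard) + 2 ≤ R :=
    ⟨R1 + (Finset.range (w2 + 1)).sup ρ + _, by omega, fun w hw =>
      (Finset.le_sup (f := ρ) (Finset.mem_range.2 (Nat.lt_succ_of_le hw))).trans
        ((Nat.le_add_left _ _).trans (Nat.le_add_right _ _)), Nat.le_add_left _ _⟩
  obtain ⟨n, g0, h3⟩ := rt p.k (p.q + x0.t.s.Ce.ncard) R x0.t.s.M.S.ncard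
  obtain ⟨Ω1, w1, θ0, f1, h1⟩ := site p x0 n (g0 + R + 2 + 3 * n + 10) R ρ ne
  refine ⟨Ω1 ∪ Ω2, w1 + w2, θ0 + R, f1.union f2, fun x θ T e hθ ⟨eq, μ, hμ⟩ => ?_⟩
  have h := x.h.ok.ok
  rcases h1 x θ T e (by omega) (by omega) (by omega) with
    ⟨fl0, fl, B, st, gr, ct, q, np⟩ | ⟨t, Sd, ⟨w, hw, a⟩, b⟩
  · have hY : sites x0 x fl ⊆ x.t.s.Ce := by
      rintro _ ⟨y, hy, rfl⟩
      exact (st.tgt y hy).2.1
    have cY : (sites x0 x fl).ncard ≤ x0.t.s.Ce.ncard := ncard_image_le (ce_fin x0.h.ok.ok)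
    have hq := x.h.holes
    obtain ⟨ro, fr⟩ := h3 _ (by omega) _ _ _ _ _ B (hm h hY) x.h.eg (by
      rw [union_inter_distrib_right]
      exact (ncard_union_le _ _).trans (add_le_add hq
        ((ncard_le_ncard inter_subset_left ((ce_fin h).subset hY)).trans cY)))
      (model (s := x.t.s.site _) (inr h hY) gr) q
    obtain ⟨-, fr0⟩ := h3 _ (by omega) _ _ _ _ _ B h.hm x.h.eg (le_add_right hq)
      (model h.hr.1 (grid gr)) (nf h hY gr q)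
    rcases h2 x θ _ R T e B eq r1 ⟨grid gr, ct, fr0, by omega, by omega⟩ hμ.ty with
      ⟨ch, c1, c2⟩ | ⟨w, hw, Sd, Sb, md, tt, a, b⟩
    · have k := tI x0 x eq ch hY
      have := (h0 x).2.2.2.1
      obtain ⟨Z, hZ⟩ := mat p x0 x eq μ fl0 fl ch _ R B hμ st c1 gr fr (by omega) ro
        (loc p x _ R B _ _ hY gr fr k.1 (by omega) (by omega) np c2)
      exact .inl (real p x0 x eq μ fl0 fl ch Z hμ st c1 hZ)
    · refine .inr (.inr ⟨w, _, R, B, by omega, r2 w hw, (r2 w hw).trans (by omega),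
        Sd, Sb, md, tt, a, fun j => (b.ty j).imp id fun c => ⟨c.1, fun i hi d => ?_⟩, b.drop⟩)
      obtain ⟨ω, k, l⟩ := c.2 i hi d
      exact ⟨ω, .inr k, l⟩
  · refine .inr (.inl ⟨t, Sd, ⟨w, by omega, a⟩, b.imp (fun c => ⟨c.1, by omega⟩) fun c =>
      ⟨c.1, c.2.1, c.2.2.imp (fun ⟨d, ω, k, l⟩ => ⟨by omega, ω, ⟨.inl k.1, k.2⟩, l⟩) id⟩⟩)

end Pool.Agent.MP_9d78a0_co.gm

end MrgPart2

-- ======== part 3: formerly Pool.Agent.MP_9d78a0_co.gm.JSite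
section MrgPart3

/-! Block J: sites. -/

set_option autoImplicit false

namespace Pool.Agent.MP_9d78a0_co.gm

open Set Function

namespace JSite

variable {s : Sk} {Y : Set MV} {g : ℕ} {B : Fin g × Fin g → Set MV}

theorem site0 (s : Sk) : s.site ∅ = s := by simp [Sk.site]

theorem site1 (s : Sk) (Y : Set MV) (y : MV) : (s.site Y).site {y} = s.site (insert y Y) := by
  simp [Sk.site]

theorem ce (h : s.Ok) {y : MV} : y ∈ (s.site Y).Ce ↔ y ∈ s.Ce \ Y :=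
  have _ := h
  ⟨fun a => ⟨⟨a.1, fun b => a.2 (b.imp .inl id)⟩, fun b => a.2 (.inl (.inr b))⟩,
    fun a => ⟨a.1.1, fun b => b.elim (·.elim (fun c => a.1.2 (.inl c)) a.2) fun c => a.1.2 (.inr c)⟩⟩

theorem enc {n n' : ℕ} {y : MV} (h : s.Enc B n y) (k : n ≤ n') : s.Enc B n' y :=
  let ⟨X, a, b, c⟩ := h
  ⟨X, a, b.trans k, c⟩

theorem nf {n n' : ℕ} (h : s.NF B n) (k : n' ≤ n) : s.NF B n' := fun X a b => h X a (b.trans k)

theorem ctl {σ : AG} {θ a b : ℕ} {T : Tangle σ.f θ} (h : Ctl σ T B a) (k : b ≤ a) : Ctl σ T B b :=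
  fun U c => h U (c.trans_le k)

theorem pre {σ : AG} {θ a b : ℕ} {T : Tangle σ.f θ} {e : σ.ε} {ρ : ℕ → ℕ} {t : Sh σ} {Sd : Set σ.ε}
    (h : PreN T e ρ a t Sd) (k : a ≤ b) : PreN T e ρ b t Sd :=
  let ⟨w, c, d⟩ := h
  ⟨w, c.trans k, d⟩

/-- a small pocket is a small pocket of the map with sites -/
theorem small (h : s.Ok) (hY : ∀ y ∈ Y, s.NoPk B y) {z : MV} (k : ¬ s.NoPk B z) :
    ∃ S, s.Pk S ∧ z ∈ S ∧ (s.site Y).Pk S ∧
      Disjoint S (big (s.site Y).G B (s.site Y).T ((s.site Y).N S)) := by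
  simp only [Sk.NoPk, not_forall] at k
  obtain ⟨S, a, b, c⟩ := k
  refine ⟨S, a, b, ⟨fun v hv => (a.sub hv).imp id fun d => (ce h).2 ⟨d, fun e => c (hY v e S a hv)⟩,
    a.conn, a.node, a.out, a.cl, a.card⟩, disjoint_left.2 fun v hv ⟨i, j, d, w, hw, l⟩ =>
      c ⟨v, hv, i, j, d, w, hw, Link.mono (fun u hu => ?_) l⟩⟩
  exact ⟨hu.1.imp id fun d => ((ce h).1 d).1, hu.2⟩

/-- the outcome when all cells above `ω` are enclosed -/
theorem out {p : Par} (x : TM p) (lb : x.t.Lb ∅ p.I) {r : Rw x.σ} (hr : r.s = x.t.s.site Y)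
    (hc : ∀ y ∈ x.t.s.Ce, r.ct y = x.t.ct y) {m : ℕ} {ω : Lab} {t : Sh x.σ} (Sd : Set x.σ.ε)
    (h : ∀ y ∈ t.s.Ce, y ∈ r.s.Good ∧ t.ct y = r.ct y ∧ t.s.Rd y ⊆ r.s.Rd y ∧ ¬ r.s.Enc B m y)
    (k : ∀ f ∈ x.t.s.M.S, x.t.s.pos f → x.t.s.vx f ∈ x.t.s.Ce \ Y →
      Le ω (x.σ.un (x.t.ct (x.t.s.vx f)), x.t.s.rts f) → (x.t.s.site Y).Enc B m (x.t.s.vx f)) :
    t.Lb Sd (cutI p.I ω) := fun y hy ρ hρ => by
  obtain ⟨a, b, c, d⟩ := h y hy.1
  have c := c hρ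
  rw [hr] at a c d
  have a := (ce x.h.ok.ok).1 a.1
  obtain ⟨l, e, q⟩ := lb y ⟨a.1, fun e => e.2 (disjoint_empty _)⟩ ρ c
  obtain ⟨f, hf, rfl, u, rfl⟩ := c
  rw [b, hc _ a.1]
  exact ⟨l, ⟨e, fun v => d (k f hf u a (v.trans q.2))⟩, q⟩

theorem flag (h : s.Ok) {y : MV} (hy : y ∈ s.Vt) : ∃ f ∈ s.M.S, s.vx f = y ∧ s.pos f := by
  obtain ⟨f, hf, rfl⟩ := hy
  by_cases c : s.pos f
  · exact ⟨f, hf, rfl, c⟩
  · have k := (h.hm.ok.ic f hf).1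
    exact ⟨_, k, ((h.hm.lbl f hf _ k).2 (.single (.inr rfl))).symm,
      h.ps.elim (fun o => (o f hf).2.2.2 c) fun o => o.2 _⟩

theorem blk {g' : ℕ} (h : g' ≤ g) : ∃ B' : Fin g' × Fin g' → Set MV, Blk B B' :=
  ⟨_, 0, 0, Fin.castLE h, Fin.castLE h, by simp, by simp, fun _ => rfl⟩

end JSite

open JSite

theorem site1S (tame : TameS) (_big : BigS) (cb : CtlBlkS) (raw : ToRawS) (patch : PatchJS)
    (hE : EncS) (vort : VortS) : Site1S := by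
  intro p j n' g' ρ
  obtain ⟨_, h0⟩ := tame p
  obtain ⟨s, D, h1⟩ := raw p (j + 1)
  obtain ⟨wa, n1, ga, θa, ha⟩ := vort p.k (p.q + (j + 1)) s D 0 (3 * n' + 3 + 4) ρ
  obtain ⟨wb, n3, gb, θb, hb⟩ := vort p.k (p.q + (j + 1)) s D 0 (3 * n' + 3 + (3 * n1 + 3 + 4)) ρ
  obtain ⟨g1, k1⟩ : ∃ g1, g1 = ga + θa + 9 * n1 + 9 * n' + 20 := ⟨_, rfl⟩
  obtain ⟨gp, hp⟩ := patch p.k (p.q + (j + 1)) g'
  obtain ⟨gq, hq⟩ := patch p.k (p.q + (j + 1)) g1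
  refine ⟨n' + n1 + n3 + 1, gp + gq + gb, θa + θb, wa + wb + (p.q + (j + 1)),
    fun x θ g T e Y B ω hg' hg hθ hY cY gr ct q np => or_iff_not_imp_left.2 fun no => ?_⟩
  have lb := (h0 x).2.2.2.2.2.2.2.2.2.2.2.1 ∅
  have h := x.h.ok.ok
  obtain ⟨r, r1, r2, r3, r4, r5⟩ := h1 x Y hY (by omega)
  have ok : (x.t.s.site Y).Ok := r1 ▸ r2.ok
  have ho : ((x.t.s.site Y).H ∩ (x.t.s.site Y).Vt).ncard ≤ p.q + (j + 1) := r1 ▸ r2.holes
  have A : ∀ f ∈ x.t.s.M.S, x.t.s.pos f → x.t.s.vx f ∈ x.t.s.Ce \ Y →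
      Le ω (x.σ.un (x.t.ct (x.t.s.vx f)), x.t.s.rts f) → x.t.s.NoPk B (x.t.s.vx f) →
      (x.t.s.site Y).Enc B (3 * n' + 3) (x.t.s.vx f) := fun f a b c d u => by
    obtain ⟨B', v, w⟩ := hp _ g B _ (by omega) ok x.h.eg ho ((ce h).2 c) gr
    exact (hE _ g g' _ n' B B' _ ok gr v ((ce h).2 c) w hg').1 q (by omega) fun z =>
      no ⟨f, a, b, c, d, u, B', v, site1 _ _ _ ▸ w, site1 _ _ _ ▸ z⟩
  by_cases H : ∀ f ∈ x.t.s.M.S, x.t.s.pos f → x.t.s.vx f ∈ x.t.s.Ce \ Y →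
      Le ω (x.σ.un (x.t.ct (x.t.s.vx f)), x.t.s.rts f) →
      (x.t.s.site Y).Enc B (3 * n' + 3 + (3 * n1 + 3 + 4)) (x.t.s.vx f)
  · obtain ⟨t, Sd, a, b⟩ := hb x.σ θ T e r g B p.I (by omega) (by omega) x.h.rob r2 r3 r4 (r1 ▸ gr)
      (ctl ct (by omega)) (r1 ▸ nf q (by omega))
    exact ⟨t, Sd, pre a (by omega), b.elim (fun c => by omega) fun c => by omega,
      b.imp (·.1) fun c => ⟨c.1, c.2.2.1, out x lb r1 r5 Sd c.2.2.2 H⟩⟩
  simp only [not_forall] at H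
  obtain ⟨f0, a0, b0, c0, d0, e0⟩ := H
  obtain ⟨S, s1, s2, s3, s4⟩ := small h np fun u => e0 (enc (A f0 a0 b0 c0 d0 u) (by omega))
  obtain ⟨B1, v, w⟩ := hq _ g B _ (by omega) ok x.h.eg ho ((ce h).2 c0) gr
  have E := fun m => hE _ g g1 (n' + n1 + n3 + 1) m B B1 _ ok gr v ((ce h).2 c0) w
  have q1 : ((x.t.s.site Y).site {x.t.s.vx f0}).NF B1 n1 := by
    by_contra u
    exact e0 (enc ((E n1 (by omega)).1 q (by omega) u) (by omega))
  obtain ⟨r', t1, t2, t3, t4, t5⟩ := h1 x (insert (x.t.s.vx f0) Y) (insert_subset c0.1 hY)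
    ((ncard_insert_le _ _).trans (by omega))
  obtain ⟨t, Sd, a, b⟩ := ha x.σ θ T e r' g1 B1 p.I (by omega) (by omega) x.h.rob t2 t3 t4
    (t1 ▸ site1 _ _ _ ▸ w) (cb p x θ g g1 _ θa T B B1 (JStep.grid gr) v ct (by omega) (by omega)
      (by omega)) (t1 ▸ site1 _ _ _ ▸ q1)
  refine ⟨t, Sd, pre a (by omega), b.elim (fun c => by omega) fun c => by omega,
    b.imp (·.1) fun c => ⟨c.1, c.2.2.1, out x lb t1 t5 Sd c.2.2.2 fun f a b c d => ?_⟩⟩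
  rw [← site1]
  by_cases u : x.t.s.NoPk B (x.t.s.vx f)
  · exact enc ((E _ (by omega)).2.1 _ (A f a b ⟨c.1, fun z => c.2 (.inr z)⟩ d u)) (by omega)
  · obtain ⟨S', u1, u2, u3, u4⟩ := small h np u
    exact enc ((E 0 (by omega)).2.2 S S' s3 u3 s4 u4 (x.h.fc S S' s1 u1) s2 _ u2).1 (by omega)

theorem siteS (tame : TameS) (bg : BigS) (gj : GridJS) (cb : CtlBlkS) (raw : ToRawS) (drop : DropS)
    (one : Site1S) : SiteS := by
  classical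
  intro p x0 n g θ1 ρ ne
  obtain ⟨_, h0⟩ := tame p
  have h00 := x0.h.ok.ok
  have : ∀ y, ∃ (f : x0.t.s.Φ) (ω : Lab), y ∈ x0.t.s.Ce → (f ∈ x0.t.s.M.S ∧ x0.t.s.vx f = y ∧
      x0.t.s.pos f) ∧ ω ∈ p.I ∧ Le (x0.σ.un (x0.t.ct y), x0.t.s.rts f) ω := fun y => by
    by_cases hy : y ∈ x0.t.s.Ce
    · obtain ⟨f, a, b, c⟩ := flag h00 hy.1.1
      obtain ⟨l, d, e⟩ := (h0 x0).2.2.2.2.2.2.2.2.2.2.2.1 ∅ y
        ⟨hy, fun e => e.2 (disjoint_empty _)⟩ _ ⟨f, a, b, c, rfl⟩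
      exact ⟨f, l, fun _ => ⟨⟨a, b, c⟩, d, e.1⟩⟩
    · exact ⟨ne.some, (∅, []), fun c => absurd c hy⟩
  choose fl0 ω hω using this
  suffices H : ∀ Z ⊆ x0.t.s.Ce, ∀ n g θ1 : ℕ, ∃ w1 θ0 : ℕ, ∀ (x : TM p) (θ : ℕ)
      (T : Tangle x.σ.f θ) (e : x.σ.ε), θ0 ≤ θ → θ1 ≤ g → 3 * n + 9 < g →
      (∃ fl, ∃ B : Fin g × Fin g → Set MV, Sites x0 x Z fl0 fl ∧
        (x.t.s.site ((fun y => x.t.s.vx (fl y)) '' Z)).Grid B ∧ Ctl x.σ T B θ1 ∧
        (x.t.s.site ((fun y => x.t.s.vx (fl y)) '' Z)).NF B n ∧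
        ∀ y ∈ (fun y => x.t.s.vx (fl y)) '' Z, x.t.s.NoPk B y) ∨
      ∃ (t : Sh x.σ) (Sd : Set x.σ.ε), PreN T e ρ w1 t Sd ∧ ResN p (ω '' x0.t.s.Ce) w1 t Sd by
    obtain ⟨w1, θ0, k⟩ := H _ subset_rfl n g θ1
    exact ⟨_, w1, θ0, (JStep.ce_fin h00).image ω, fun x θ T e a b c =>
      (k x θ T e a b c).imp (fun d => ⟨fl0, d⟩) id⟩
  intro Z hZ
  induction Z, (JStep.ce_fin h00).subset hZ using Set.Finite.induction_on with
  | empty =>
    intro n g θ1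
    obtain ⟨s, D, h1⟩ := raw p 0
    obtain ⟨w1, g0, θ2, h2⟩ := drop p.k (p.q + 0) s D 0 n ρ
    obtain ⟨θ0, h3⟩ := gj p (g + g0) (θ1 + θ2)
    refine ⟨w1, θ0 + θ2, fun x θ T e a b c => ?_⟩
    obtain ⟨B1, gr, ct⟩ := h3 x θ T (by omega)
    by_cases q : x.t.s.NF B1 n
    · obtain ⟨B, v⟩ := blk (B := B1) (Nat.le_add_right g g0)
      obtain ⟨_, f, -⟩ : x.t.s.Vt.Nonempty :=
        (gr.2.1 (⟨0, by omega⟩, ⟨0, by omega⟩)).1.mono fun _ u => (gr.1 _ u).1.elim (·.1) (·.1.1)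
      have k := (bg _ _ _ B1 _ _ gr (sdiff_subset.trans (JStep.t_tv x.h.ok.ok.hr.1))).2.2.2.2 g B v
      refine .inl ⟨fun _ => f, B, ⟨by simp, by simp, by simp, by simp⟩, ?_,
        cb p x θ _ g _ θ1 T B1 B gr v ct (by omega) b (by omega), ?_, by simp⟩ <;>
        rw [image_empty, site0]
      · exact k.1
      · intro X hX cX
        have := k.2 X ∅ ((x.h.ok.ok.hm.ok.fin.image _).subset fun _ u => (hX u).1) (by omega)
          (disjoint_empty _)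
        rw [union_empty] at this
        exact (show big x.t.s.G B _ X = _ from this) ▸ q X hX cX
    · obtain ⟨r, r1, r2, r3, r4, -⟩ := h1 x ∅ (empty_subset _) (by simp)
      rw [site0] at r1
      obtain ⟨t, Sd, u, v⟩ := h2 x.σ θ T e r _ B1 p.I (by omega) (by omega) x.h.rob r2 r3 r4
        (r1 ▸ gr) (ctl ct (by omega)) (r1 ▸ q)
      exact .inr ⟨t, Sd, u, v.imp id fun d => ⟨d.1, d.2.2.1, .inr ⟨d.2.1, d.2.2.2⟩⟩⟩
  | @insert y Z hy fZ ih =>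
    intro n' g' θ'
    obtain ⟨n, g0, θ1, w1, h1⟩ := one p Z.ncard n' g' ρ
    obtain ⟨w, θ0, h2⟩ := ih ((subset_insert _ _).trans hZ) n (g0 + θ1 + θ' + 3 * n + 10) (θ1 + θ')
    have hy0 := hZ (mem_insert _ _)
    refine ⟨w + w1, θ0 + θ1, fun x θ T e a b c => ?_⟩
    rcases h2 x θ T e (by omega) (by omega) (by omega) with
      ⟨fl, B, st, gr, ct, q, np⟩ | ⟨t, Sd, u, v⟩
    · rcases h1 x θ _ T e _ B (ω y) c (by omega) (by omega)
        (by rintro _ ⟨z, hz, rfl⟩; exact (st.tgt z hz).2.1) (ncard_image_le fZ) gr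
        (ctl ct (by omega)) q np with ⟨f, f1, f2, f3, f4, f5, B', v, gr', q'⟩ | ⟨t, Sd, u, v, k⟩
      · have o : ∀ z ∈ Z, update fl y f z = fl z := fun z hz =>
          update_of_ne (ne_of_mem_of_not_mem hz hy) _ _
        have im : (fun z => x.t.s.vx (update fl y f z)) '' insert y Z =
            insert (x.t.s.vx f) ((fun y => x.t.s.vx (fl y)) '' Z) := by
          rw [image_insert_eq, update_self, image_congr fun z hz => congrArg _ (o z hz)]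
        refine .inl ⟨update fl y f, B', ⟨fun z hz => (hω z (hZ hz)).1, ?_, ?_, ?_⟩, im ▸ gr',
          cb p x θ _ g' _ θ' T B B' (JStep.grid gr) v ct (by omega) b (by omega), im ▸ q', ?_⟩
        · rintro z (rfl | hz)
          · rw [update_self]; exact ⟨f1, f3.1, f2⟩
          · rw [o z hz]; exact st.tgt z hz
        · rw [injOn_insert hy]
          refine ⟨fun z hz z' hz' k => st.inj hz hz' (by simpa only [o z hz, o z' hz'] using k), ?_⟩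
          rw [image_congr fun z hz => congrArg _ (o z hz), update_self]
          exact f3.2
        · rintro z (rfl | hz)
          · rw [update_self]; exact (hω z hy0).2.2.trans f4
          · rw [o z hz]; exact st.le z hz
        · intro z hz S hS k
          have := ((bg _ _ _ B _ x.t.s.T (JStep.grid gr) sdiff_subset).2.2.2.2 g' B' v).2
            (x.t.s.N S) ∅ ((x.h.ok.ok.hm.ok.fin.image _).subset fun _ u => (hS.out u).1)
            (by have := hS.card; omega) (disjoint_empty _)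
          rw [union_empty] at this
          rw [im] at hz
          exact this ▸ hz.elim (fun d => d ▸ f5) (np z) S hS k
      · exact .inr ⟨t, Sd, pre u (by omega), k.imp (fun d => ⟨d, by omega⟩) fun d =>
          ⟨d.1, d.2.1, .inl ⟨by omega, ω y, ⟨⟨y, hy0, rfl⟩, (hω y hy0).2.1⟩, d.2.2⟩⟩⟩
    · exact .inr ⟨t, Sd, pre u (by omega), v.imp (fun c => ⟨c.1, by omega⟩) fun c =>
        ⟨c.1, c.2.1, c.2.2.imp (fun d => ⟨by omega, d.2⟩) id⟩⟩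

end Pool.Agent.MP_9d78a0_co.gm

end MrgPart3

-- ======== part 4: formerly Pool.Agent.MP_9d78a0_co.gm.FMid2
section MrgPart4

/-! Row MID: the new structure and its axioms. -/

set_option autoImplicit false

namespace Pool.Agent.MP_9d78a0_co.gm

open Set Function

namespace FMid

/-- the new sides -/
abbrev Ix (D : Dat) (Rs : D.t.ι → Set Run) : Type := {p : D.t.ι × Run // p.2 ∈ Rs p.1}

/-- the data of the construction -/
structure Dt where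
  D : Dat
  Rs : D.t.ι → Set Run
  n1 : ℕ
  fin : Fintype (Ix D Rs)
  Z : Set MV
  M : FM D.t.s.Φ
  vx : D.t.s.Φ → MV
  H : Set MV
  pos : D.t.s.Φ → Prop
  own : D.σ.ε → Option (MV ⊕ Ix D Rs × ℕ)

namespace Dt

/-- the new structure -/
def t (X : Dt) : Sh X.D.σ :=
  ⟨X.D.t.s.re X.M X.vx X.H (X.D.Rk X.Rs) X.pos, X.D.t.Λ, Ix X.D X.Rs, X.fin, fun p => p.1.2.m,
    fun p => p.1.2.d, fun p => X.D.t.φ p.1.1 p.1.2.lo, fun p => p.1.2.β, fun p => p.1.2.L, X.own⟩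

/-- the kept nodes -/
abbrev kn (X : Dt) : Set MV := X.D.t.s.kn X.D.Ck (X.D.Rk X.Rs)

structure Ok (X : Dt) : Prop where
  ok : X.D.Ok
  plan : ∀ j, X.D.Plan j (X.Rs j) X.n1
  sx : Sx X.D.t.s X.D.Ck (X.D.Rk X.Rs) X.Z X.M X.vx X.H X.pos
  oc : ∀ a x, X.own a = some (Sum.inl x) ↔
    a ∉ X.D.Ws ∧ X.D.t.own a = some (Sum.inl x) ∧ x ∈ X.D.Ck
  ob : ∀ a p i, X.own a = some (Sum.inr (p, i)) ↔
    a ∉ X.D.Ws ∧ X.D.t.own a = some (Sum.inr (p.1.1, p.1.2.lo + i)) ∧ i < p.1.2.m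

theorem vs_mem {σ : AG} {U : Set σ.ε} {v : W} : v ∈ σ.vs U ↔ ∃ a ∈ U, v ∈ σ.inc a := by
  simp only [AG.vs, mem_iUnion, exists_prop]

namespace Ok

variable {X : Dt} (h : X.Ok)

include h

theorem run (p : Ix X.D X.Rs) : X.D.RunOk p.1.1 p.1.2 := (h.plan _).ok _ p.2

theorem le (p : Ix X.D X.Rs) {i : ℕ} (hi : i ≤ p.1.2.m) : p.1.2.lo + i ≤ X.D.t.m p.1.1 :=
  (Nat.add_le_add_left hi _).trans (h.run p).len.2

theorem lt (p : Ix X.D X.Rs) {i : ℕ} (hi : i < p.1.2.m) : p.1.2.lo + i < X.D.t.m p.1.1 :=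
  (Nat.add_lt_add_left hi _).trans_le (h.run p).len.2

theorem cor (p : Ix X.D X.Rs) {i : ℕ} (hi : i < p.1.2.m) :
    Sum.inl (X.D.ru p.1.1 p.1.2 i) ∈ X.kn ∧ Sum.inl (X.D.ru p.1.1 p.1.2 (i + 1)) ∈ X.kn ∧
      X.M.rot (X.D.t.φ p.1.1 (p.1.2.lo + i)) = X.D.t.φ p.1.1 (p.1.2.lo + (i + 1)) ∧
      X.t.s.Quad (X.D.t.φ p.1.1 (p.1.2.lo + i)) ∧
      X.t.s.link (X.D.t.φ p.1.1 (p.1.2.lo + i)) = X.D.t.lk p.1.1 (p.1.2.lo + i) ∧
      X.D.t.lk p.1.1 (p.1.2.lo + i) ∈ X.D.Ck ∪ X.D.Rk X.Rs := by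
  have k : X.D.t.lk p.1.1 (p.1.2.lo + i) ∈ X.D.Ck ∪ X.D.Rk X.Rs :=
    ((h.run p).lk i hi).symm.imp id fun l => ⟨l, p.1.1, p.1.2, p.2, i, hi, rfl⟩
  have e : X.D.t.φ p.1.1 (p.1.2.lo + (i + 1)) = X.D.t.s.M.rot (X.D.t.φ p.1.1 (p.1.2.lo + i)) :=
    iterate_succ_apply' _ _ _
  obtain ⟨a1, a2, a3, a4, a5⟩ := h.sx.corner (h.ok.ter.node _ _ (h.le p hi.le)).2.1
    (h.ok.pre.ok.quad _ _ (h.lt p hi)).1 k
  exact ⟨a1, by rwa [← e] at a2, a3.trans e.symm, a4, a5, k⟩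

theorem phi (p : Ix X.D X.Rs) {i : ℕ} (hi : i ≤ p.1.2.m) :
    X.t.φ p i = X.D.t.φ p.1.1 (p.1.2.lo + i) := by
  induction i with
  | zero => rfl
  | succ i ih =>
    rw [← (h.cor p hi).2.2.1, ← ih (by omega)]
    exact iterate_succ_apply' _ _ _

theorem kn (p : Ix X.D X.Rs) {i : ℕ} (hi : i ≤ p.1.2.m) :
    Sum.inl (X.D.ru p.1.1 p.1.2 i) ∈ X.kn := by
  cases i with
  | zero => exact (h.cor p (h.run p).len.1).1
  | succ i => exact (h.cor p hi).2.1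

theorem spk (p : Ix X.D X.Rs) {i : ℕ} (hi : i ≤ p.1.2.m) :
    X.t.φ p i ∈ X.M.fl X.vx X.H ∧ X.t.u p i = X.D.ru p.1.1 p.1.2 i := by
  unfold Sh.u
  rw [h.phi p hi]
  exact h.sx.spoke (h.ok.ter.node _ _ (h.le p hi)).2.1 (h.kn p hi)

theorem lk (p : Ix X.D X.Rs) {i : ℕ} (hi : i < p.1.2.m) :
    X.t.lk p i = X.D.t.lk p.1.1 (p.1.2.lo + i) := by
  unfold Sh.lk
  rw [h.phi p hi.le]
  exact (h.cor p hi).2.2.2.2.1

theorem kap (p : Ix X.D X.Rs) {i : ℕ} (hi : i ≤ p.1.2.m) :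
    X.t.κ p i = X.D.rk p.1.1 p.1.2 i := by
  unfold Sh.κ
  rw [(h.spk p hi).2]
  rfl

theorem ct {x : MV} (hx : x ∈ X.D.Ck) : X.t.ct x = X.D.t.ct x \ X.D.Ws :=
  Set.ext fun a => (h.oc a x).trans ⟨fun k => ⟨k.2.1, k.1⟩, fun k => ⟨k.2, k.1, hx⟩⟩

theorem ct0 {x : MV} (hx : x ∉ X.D.Ck) : X.t.ct x = ∅ :=
  eq_empty_of_forall_notMem fun a k => hx ((h.oc a x).1 k).2.2

theorem bag (p : Ix X.D X.Rs) {i : ℕ} (hi : i < p.1.2.m) :
    X.t.bag p i = X.D.bg p.1.1 p.1.2 i :=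
  Set.ext fun a => (h.ob a p i).trans ⟨fun k => ⟨k.2.1, k.1⟩, fun k => ⟨k.2, k.1, hi⟩⟩

theorem same {p p' : Ix X.D X.Rs} {i i' : ℕ} (hi : i ≤ p.1.2.m) (hi' : i' ≤ p'.1.2.m)
    (e : p.1.1 = p'.1.1 ∧ p.1.2.lo + i = p'.1.2.lo + i') : p = p' ∧ i = i' := by
  obtain ⟨⟨j, r⟩, a⟩ := p
  obtain ⟨⟨j', r'⟩, a'⟩ := p'
  obtain ⟨rfl, e⟩ := e
  dsimp only at *
  obtain rfl : r = r' := by
    by_contra c
    have := (h.plan j).sep r a r' a' c
    omega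
  exact ⟨rfl, by omega⟩

theorem vt {v : W} (k : Sum.inl v ∈ X.t.s.Vt) : Sum.inl v ∈ X.D.t.s.Vt := (h.sx.vt k).1.1

/-- the neighbours of a kept rim -/
theorem rim {v : W} {y : MV} (hy : y ∈ X.D.Rk X.Rs) (k : v ∈ X.D.t.s.nb y) :
    ∃ p : Ix X.D X.Rs, ∃ i < p.1.2.m, X.D.t.lk p.1.1 (p.1.2.lo + i) ∈ X.D.t.s.Rm ∧
      (v = X.D.ru p.1.1 p.1.2 i ∨ v = X.D.ru p.1.1 p.1.2 (i + 1)) := by
  obtain ⟨a, j, r, b, i, c, rfl⟩ := hy
  rw [((h.ok.ter.lk j _ (h.lt ⟨(j, r), b⟩ c)).2.2 a).1] at k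
  exact ⟨⟨(j, r), b⟩, i, c, a, k⟩

theorem knB {v : W} (k : Sum.inl v ∈ X.kn) (a : v ∈ X.D.Vw) : v ∈ X.D.Bd := by
  obtain ⟨-, y, b | b, c⟩ := k
  · exact (h.ok.kc.out y b).1 ⟨c.symm, a⟩
  · by_contra d
    obtain ⟨p, i, e, -, rfl | rfl⟩ := h.rim b c.symm
    exacts [(h.run p).endu i e.le ⟨a, d⟩, (h.run p).endu _ e ⟨a, d⟩]

theorem kapn {j : X.D.t.ι} {i : ℕ} {v : W} (hi : i < X.D.t.m j)
    (k : v ∈ X.D.t.κ j i ∪ X.D.t.κ j (i + 1)) (a : v ∉ X.D.t.Λ) (b : Sum.inl v ∈ X.D.t.s.Vt) :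
    v = X.D.t.u j i ∨ v = X.D.t.u j (i + 1) := by
  rcases k with (k | ⟨l, k, rfl⟩) | (k | ⟨l, k, rfl⟩)
  exacts [Or.inl k, absurd b ((h.ok.pre.ok.inner j i hi.le l k).2 a), Or.inr k,
    absurd b ((h.ok.pre.ok.inner j _ hi l k).2 a)]

theorem rest_ws {a : X.D.σ.ε} (k : X.D.t.own a = none) : a ∈ X.D.Ws :=
  h.ok.hull.sm.2.2 (h.ok.pre.rest k)

theorem node1 {v : W} (k : Sum.inl v ∈ X.kn) : v ∈ X.D.σ.vs X.t.restᶜ := by
  have od := h.sx.ok.od v k.1.1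
  obtain ⟨-, y, b | b, c⟩ := k
  · have : v ∈ X.D.σ.bd (X.D.t.ct y \ X.D.Ws) := (h.ok.kc.bd y b).symm ▸ Or.inl c.symm
    refine X.D.σ.vs_mono (U' := X.t.restᶜ) (fun a k l => ?_) (X.D.σ.bd_vs _ this)
    cases ((h.oc a y).2 ⟨k.2, k.1, b⟩).symm.trans l
  · obtain ⟨p, i, e, f, g⟩ := h.rim b c.symm
    obtain ⟨a1, a2, a3, a4⟩ := (h.run p).path i e f
    have ne : X.D.ru p.1.1 p.1.2 i ≠ X.D.ru p.1.1 p.1.2 (i + 1) := fun l => by
      have := (h.ok.up.pos _ _ _ (h.le p e.le) _ (h.le p e) l).2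
      omega
    refine X.D.σ.vs_mono (U := X.D.bg p.1.1 p.1.2 i) (U' := X.t.restᶜ) (fun a k l => ?_) ?_
    · cases ((h.ob a p i).2 ⟨k.2, k.1, e⟩).symm.trans l
    · rcases g with rfl | rfl
      · obtain ⟨z, ⟨-, -, -, l | l⟩, -⟩ := (a1.2 _ a2 _ a3).cases_head.resolve_left ne
        exacts [X.D.σ.vs_un _ ▸ ⟨⟨_, l, Or.inl rfl⟩, od⟩, X.D.σ.vs_un _ ▸ ⟨⟨_, l, Or.inr rfl⟩, od⟩]
      · exact (a4 a3).1.resolve_right ne.symm

theorem node2 {v : W} (k : Sum.inl v ∈ X.kn) (l : v ∈ X.D.σ.vs X.t.rest) : v ∈ X.t.Mk := by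
  obtain ⟨a, ha, l⟩ := vs_mem.1 l
  have O := h.ok.pre.ok
  have cell : ∀ x, X.D.t.own a = some (Sum.inl x) → x ∈ X.D.Ck → a ∈ X.D.Ws := fun x b c => by
    by_contra d
    cases ((h.oc a x).2 ⟨d, b, c⟩).symm.trans ha
  have step : ∃ x, (x ∈ X.D.t.s.H ∨ x ∈ X.D.t.s.Ce \ X.D.Ck) ∧ v ∈ X.D.t.s.nb x := by
    by_cases c : v ∈ X.D.t.Λ
    · obtain ⟨f, b, rfl⟩ := O.lamn v c k.1.1
      exact ⟨_, Or.inl b.1.2, ((fSkS _ O.ok).2.1 f b.1).2.1⟩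
    · obtain ⟨s1, s2, s3⟩ := O.share a v ⟨l, c⟩ (Or.inl k.1.1)
      rcases e : X.D.t.own a with _ | x | ⟨j, i⟩
      · obtain ⟨x, b⟩ := h.ok.ter.mkn v (s3 e) k.1.1
        exact ⟨x, Or.inl b.1, b.2⟩
      · by_cases d : x ∈ X.D.Ck
        · obtain ⟨x', b1, b2⟩ := h.ok.cc.nodes x d.1 v
            ⟨s1 x e, vs_mem.2 ⟨a, ⟨e, cell x e d⟩, l⟩⟩
          exact ⟨x', Or.inr ⟨b1.elim (·.1) fun m => h.ok.cc.sub m, fun m => m.2 b1⟩, b2⟩
        · exact ⟨x, Or.inr ⟨O.ownc a x e, d⟩, s1 x e⟩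
      · have m := O.ownb a j i e
        refine ⟨_, Or.inl (O.hole j).2, ?_⟩
        rcases h.kapn m (s2 j i e) c k.1.1 with rfl | rfl
        exacts [(h.ok.ter.node j i m.le).2.2.2, (h.ok.ter.node j _ m).2.2.2]
  obtain ⟨x, b1, b2⟩ := step
  obtain ⟨f, hf, e⟩ := h.sx.has k b1 b2
  by_cases c : f ∈ X.t.Fx
  · exact Or.inr ⟨f, c, e⟩
  have : ∃ p : Ix X.D X.Rs, ∃ i ≤ p.1.2.m, v = X.t.u p i := by
    by_contra d
    refine c ⟨hf, fun p i hi => ⟨fun m => d ⟨p, i, hi, ?_⟩, fun m => d ⟨p, i, hi, ?_⟩⟩⟩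
    · rw [← e, m]
      rfl
    · rw [← e, m]
      exact ((fSkS _ h.sx.su.ok).2.1 _ (h.spk p hi).1).2.2.2.2.2.2.1
  obtain ⟨p, i, hi, e⟩ := this
  rcases Nat.eq_zero_or_pos i with rfl | i0
  · exact Or.inl (mem_iUnion.2 ⟨p, Or.inl (Or.inl e)⟩)
  rcases hi.eq_or_lt with rfl | i1
  · exact Or.inl (mem_iUnion.2 ⟨p, Or.inr (Or.inl e)⟩)
  rw [(h.spk p hi).2] at e
  subst e
  have n := (h.run p).midu i i0 i1
  have aw : a ∉ X.D.Ws := fun m => n (Or.inr (vs_mem.2 ⟨a, m, l⟩))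
  have c := O.ulam _ _ (h.le p hi)
  obtain ⟨s1, s2, -⟩ := O.share a _ ⟨l, c⟩ (Or.inl k.1.1)
  exfalso
  rcases e : X.D.t.own a with _ | x | ⟨j, i'⟩
  · exact aw (h.rest_ws e)
  · by_cases d : x ∈ X.D.Ci ∪ X.D.Cc
    · exact d.elim (fun m => aw (m.2 e)) fun m => n (Or.inl (Or.inr (mem_biUnion m (s1 x e))))
    · exact aw (cell x e ⟨O.ownc a x e, d⟩)
  · have m := O.ownb a j i' e
    have : p.1.1 = j ∧ (p.1.2.lo + i = i' ∨ p.1.2.lo + i = i' + 1) := by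
      rcases h.kapn m (s2 j i' e) c k.1.1 with q | q
      · exact (h.ok.up.pos _ _ _ (h.le p hi) _ m.le q).imp id Or.inl
      · exact (h.ok.up.pos _ _ _ (h.le p hi) _ m q).imp id Or.inr
    obtain ⟨rfl, q⟩ := this
    have r : i' = p.1.2.lo + (i' - p.1.2.lo) := by omega
    cases ((h.ob a p (i' - p.1.2.lo)).2 ⟨aw, r ▸ e, by omega⟩).symm.trans ha

theorem mid : X.t.Mid fun p => p.1.2.Q := by
  have O := h.ok.pre.ok
  have S := h.sx.su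
  have ub : ∀ p : Ix X.D X.Rs, ⋃ k, X.t.bag p k = ⋃ k < p.1.2.m, X.D.bg p.1.1 p.1.2 k := by
    intro p
    refine subset_antisymm (iUnion_subset fun k a ha => ?_)
      (iUnion₂_subset fun k hk => h.bag p hk ▸ subset_iUnion _ k)
    have := ((h.ob a p k).1 ha).2.2
    exact mem_iUnion₂.2 ⟨k, this, h.bag p this ▸ ha⟩
  refine ⟨S.ok, S.spoke, fun p => (h.run p).len.1, fun p => (h.spk p (Nat.zero_le _)).1,
    fun p p' i hi i' hi' => ?_, fun p i hi => ?_, fun p p' i hi i' hi' e => ?_, ?_,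
    fun a x k => S.ce.symm ▸ ((h.oc a x).1 k).2.2, fun a p i k => ((h.ob a p i).1 k).2.2, O.lam,
    fun v a b => ?_, fun p => ?_, fun p i hi => ?_, fun p i hi l hl => ?_, fun p => (h.run p).priv,
    fun p => (h.run p).conv, fun x => ?_, fun x v a b => ?_, fun p i hi v a => ?_,
    fun p i hi l hl a => ?_, fun v a => ⟨h.node1 (h.sx.vt a),
      or_iff_not_imp_right.2 fun b => h.node2 (h.sx.vt a) (not_not.1 b)⟩, fun x a => ?_,
    fun p i hi l hl => ?_, fun p i hi a => ?_, fun p => (h.run p).ldis, fun p => (h.run p).lent,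
    fun p => (h.run p).move⟩
  · rw [h.phi p hi, h.phi p' hi']
    obtain ⟨a, b⟩ := O.sep _ _ _ (h.le p hi) _ (h.le p' hi')
    exact ⟨fun e => a (e.trans (congrFun S.ac.2 _)), fun e => h.same hi hi' (b e)⟩
  · rw [h.lk p hi, h.phi p hi.le]
    exact ⟨(h.cor p hi).2.2.2.1, (h.cor p hi).2.2.2.2.2.symm.imp id fun k => S.ce.symm ▸ k⟩
  · rw [h.lk p hi, h.lk p' hi'] at e
    exact h.same hi.le hi'.le (O.lkinj _ _ _ (h.lt p hi) _ (h.lt p' hi') e)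
  · rintro _ ⟨⟨-, j, r, b, i, c, rfl⟩, -⟩
    exact ⟨⟨(j, r), b⟩, i, c, h.lk _ c⟩
  · obtain ⟨f, hf, rfl⟩ := O.lamn v a (h.vt b)
    obtain ⟨c, d⟩ := h.sx.spoke hf.1 (h.sx.vt b)
    refine ⟨f, ⟨c, fun p i hi => ?_⟩, d⟩
    rw [h.phi p hi]
    exact (hf.2 _ _ (h.le p hi)).imp id fun k e => k (e.trans (congrFun S.ac.2 _))
  · obtain ⟨a, b, c, -, d⟩ := (h.run p).nm
    exact ⟨a, b, c, fun v k l => not_not.1 fun m => (d v ⟨k, m⟩).1 (h.vt l)⟩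
  · rw [(h.spk p hi).2]
    exact O.ulam _ _ (h.le p hi)
  · obtain ⟨a, b, c, -⟩ := (h.run p).inner i hi l hl
    exact ⟨a, fun k => b (h.vt k), c⟩
  · by_cases c : x ∈ X.D.Ck
    · rw [h.ct c, h.ok.kc.bd x c]
      exact union_subset_union (S.nb x (Or.inl c)).ge inter_subset_left
    · rw [h.ct0 c]
      rintro v ⟨⟨_, ⟨⟩, -⟩, -⟩
  · obtain ⟨e, k, l⟩ := vs_mem.1 a.1
    obtain ⟨-, k1, k2⟩ := (h.oc e x).1 k
    exact (S.nb x (Or.inl k2)).ge ((O.share e v ⟨l, a.2⟩ (Or.inl (h.vt b))).1 x k1)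
  · rw [h.bag p hi] at a ⊢
    rw [h.kap p hi.le, h.kap p hi]
    exact ((h.run p).shb i hi v a).imp id fun k =>
      ⟨fun l => k.1 (h.vt l), k.2.1, fun m hm => h.kap p hm ▸ k.2.2 m hm⟩
  · rw [ub]
    rw [h.kap p (Nat.zero_le _)] at a
    exact (h.run p).mid i hi l hl (h.kap p le_rfl ▸ a)
  · have c : x ∈ X.D.Ck := S.ce ▸ a
    rw [h.ct c, show X.t.s.nb x = X.D.t.s.nb x from S.nb x (Or.inl c), h.ok.kc.bd x c]
    exact ⟨h.ok.kc.solid x c, subset_union_left⟩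
  · unfold Sh.Ln
    rw [h.bag p hi, (h.spk p hi.le).2, (h.spk p hi).2]
    exact (h.run p).lane i hi l hl
  · unfold Sh.Ln
    rw [h.lk p hi] at a
    rw [h.bag p hi, (h.spk p hi.le).2, (h.spk p hi).2]
    exact (h.run p).path i hi a.1

end Ok

end Dt

end FMid

end Pool.Agent.MP_9d78a0_co.gm

end MrgPart4

-- ======== part 5: formerly Pool.Agent.MP_9d78a0_co.gm.FMid
section MrgPart5

/-! Row MID: the bounds and the relation to the old structure. -/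

set_option autoImplicit false

namespace Pool.Agent.MP_9d78a0_co.gm

open Set Function

namespace FMid

theorem ncard_iU {ι β : Type} [Fintype ι] {N : ι → Set β} {m n : ℕ} (h : ∀ i, (N i).ncard ≤ m)
    (k : Fintype.card ι ≤ n) : (⋃ i, N i).ncard ≤ n * m :=
  (ncard_iUnion_le_of_fintype N).trans ((Finset.sum_le_card_nsmul _ _ m fun i _ => h i).trans
    (Nat.mul_le_mul_right m k))

theorem ix_eq (D : Dat) (Rs : D.t.ι → Set Run) :
    {p : D.t.ι × Run | p.2 ∈ Rs p.1} = ⋃ j, Prod.mk j '' Rs j := by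
  ext ⟨j, r⟩
  simp

theorem kap_card {σ : AG} (t : Sh σ) (j : t.ι) (i : ℕ) :
    (t.κ j i).Finite ∧ (t.κ j i).ncard ≤ t.d j + 1 := by
  have e : t.κ j i = insert (t.u j i) (t.β j i '' Iio (t.d j)) := rfl
  rw [e]
  refine ⟨((finite_Iio _).image _).insert _, (ncard_insert_le _ _).trans
    (Nat.succ_le_succ ((ncard_image_le (finite_Iio _)).trans ?_))⟩
  rw [← Finset.coe_range, ncard_coe_finset, Finset.card_range]

namespace Dt

/-- positions with a kept cell outside all runs -/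
def few (X : Dt) (j : X.D.t.ι) : Set ℕ :=
  {i | i ≤ X.D.t.m j ∧ (∃ x ∈ X.D.Ck, X.D.t.u j i ∈ X.D.t.s.nb x) ∧
    ∀ r ∈ X.Rs j, i < r.lo ∨ r.lo + r.m < i}

namespace Ok

variable {X : Dt} (h : X.Ok)

include h

theorem fx {f : X.D.t.s.Φ} (hf : f ∈ X.t.Fx) : Sum.inl (X.t.s.far f) ∈ X.kn ∧
    (X.t.s.far f ∈ X.D.t.Mk ∨ (∃ j, ∃ i ∈ X.few j, X.D.t.u j i = X.t.s.far f) ∨
      (∃ x ∈ X.D.Cc, X.t.s.far f ∈ X.D.t.s.nb x) ∨ X.t.s.far f ∈ X.D.Bd) := by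
  obtain ⟨a1, a2, a3, a4⟩ := h.sx.back hf.1
  rw [show X.t.s.far f = X.D.t.s.far f from a1]
  refine ⟨a2, ?_⟩
  rcases a4 with a4 | ⟨a4, a5⟩
  · by_cases c : f ∈ X.D.t.Fx
    · exact Or.inl (Or.inr ⟨f, c, rfl⟩)
    have : ∃ j, ∃ i ≤ X.D.t.m j, f = X.D.t.φ j i ∨ f = X.D.t.s.M.c (X.D.t.φ j i) := by
      by_contra d
      exact c ⟨⟨a3, a4⟩, fun j i hi => ⟨fun m => d ⟨j, i, hi, Or.inl m⟩,
        fun m => d ⟨j, i, hi, Or.inr m⟩⟩⟩
    obtain ⟨j, i, hi, e⟩ := this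
    have e' : X.D.t.u j i = X.D.t.s.far f := by
      rcases e with rfl | rfl
      exacts [rfl, ((fSkS _ h.sx.ok).2.1 _ (h.ok.ter.node j i hi).2.1).2.2.2.2.2.2.1.symm]
    have out : ∀ r ∈ X.Rs j, i < r.lo ∨ r.lo + r.m < i := fun r hr => by
      by_contra d
      have b : i - r.lo ≤ r.m := by omega
      have := hf.2 ⟨(j, r), hr⟩ _ b
      rw [h.phi _ b, show r.lo + (i - r.lo) = i by omega] at this
      exact e.elim this.1 fun m => this.2 (m.trans (congrFun h.sx.su.ac.2 _).symm)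
    refine Or.inr (Or.inl ⟨j, i, ⟨hi, ?_, out⟩, e'⟩)
    obtain ⟨-, y, b | b, d⟩ := a2
    · exact ⟨y, b, e' ▸ d.symm⟩
    · exfalso
      obtain ⟨⟨⟨j', r⟩, hr⟩, k, b1, -, b2 | b2⟩ := h.rim b d.symm
      · obtain ⟨rfl, q⟩ := h.ok.up.pos _ _ _ hi _ (h.le ⟨_, hr⟩ b1.le) (e'.trans b2)
        have := out r hr
        dsimp only at *
        omega
      · obtain ⟨rfl, q⟩ := h.ok.up.pos _ _ _ hi _ (h.le ⟨_, hr⟩ b1) (e'.trans b2)
        have := out r hr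
        dsimp only at *
        omega
  · rcases (not_not.1 fun m => a4.2 ⟨a4.1, m⟩ : _ ∈ X.D.Ci ∪ X.D.Cc) with c | c
    · exact Or.inr (Or.inr (Or.inr (h.knB a2 (h.ok.kc.ins _ c a5))))
    · exact Or.inr (Or.inr (Or.inl ⟨_, c, a5⟩))

theorem card : Fintype.card X.t.ι ≤ X.D.n * X.n1 := by
  rw [Fintype.card_eq_nat_card]
  refine (Nat.card_coe_set_eq {p : X.D.t.ι × Run | p.2 ∈ X.Rs p.1}).trans_le ?_
  rw [ix_eq]
  exact ncard_iU (fun j => (ncard_image_le (h.plan j).fin.1).trans (h.plan j).fin.2)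
    (h.ok.pre.cnt.2.1.trans h.ok.num.1)

theorem marks : X.t.Mk.ncard ≤
    X.D.n * X.n1 * (2 * X.D.n + 2) + (X.D.n + X.D.n * X.n1 + 7 * X.D.n) := by
  have w := h.ok.num.1
  have fw : ∀ j, (X.few j).Finite := fun j => (finite_Iic _).subset fun _ k => k.1
  refine (ncard_union_le _ _).trans (add_le_add (ncard_iU (fun p => ?_) h.card) ?_)
  · have a := (kap_card X.t p 0).2
    have b := (kap_card X.t p (X.t.m p)).2
    have c : X.t.d p ≤ X.D.n := (h.run p).dep.trans ((h.ok.pre.cnt.2.2.2.2 _).trans w)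
    have := ncard_union_le (X.t.κ p 0) (X.t.κ p (X.t.m p))
    omega
  · refine (ncard_le_ncard (t := X.D.t.Mk ∪ (⋃ j, X.D.t.u j '' X.few j) ∪ X.D.E) ?_ ?_).trans
      ((ncard_union_le _ _).trans (add_le_add ((ncard_union_le _ _).trans (add_le_add
        (h.ok.pre.cnt.1.trans w) (ncard_iU (fun j => (ncard_image_le (fw j)).trans (h.plan j).few)
          (h.ok.pre.cnt.2.1.trans w)))) h.ok.kc.fin.2.1))
    · rintro _ ⟨f, hf, rfl⟩
      rcases (h.fx hf).2 with k | ⟨j, k⟩ | ⟨x, k, l⟩ | k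
      exacts [Or.inl (Or.inl k), Or.inl (Or.inr (mem_iUnion.2 ⟨j, k⟩)),
        Or.inr (Or.inr (mem_biUnion k l)), Or.inr (Or.inl k)]
    · exact (((finite_iUnion fun j => (kap_card _ _ _).1.union (kap_card _ _ _).1).union
        ((h.sx.ok.hm.ok.fin.subset fun _ k => k.1.1).image _)).union
        (finite_iUnion fun j => (fw j).image _)).union h.ok.kc.fin.1

theorem exact (a1 : X.D.t.Mk ⊆ X.D.σ.vs X.D.Sd) (a2 : X.D.t.Str) (a3 : X.D.t.Λ = ∅)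
    (a4 : ∀ j, X.D.md j = Md.keep ∧ ∃ p : Ix X.D X.Rs, p.1.1 = j ∧ p.1.2.d = X.D.t.d j) :
    X.t.Mk ⊆ X.D.Bd ∧ X.t.Px := by
  have O := h.ok.pre.ok
  have one : ∀ j, ∃ r, X.Rs j = {r} ∧ r.d = X.D.t.d j := fun j => by
    obtain ⟨k, ⟨⟨_, r⟩, hr⟩, rfl, e⟩ := a4 j
    rcases (h.plan _).ty r hr with l | l
    · exact ⟨r, l.2 k, e⟩
    · exact absurd e (l (by rw [k]; nofun)).ne
  have dep : ∀ j, ∀ r ∈ X.Rs j, r.d = X.D.t.d j := fun j r hr => by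
    obtain ⟨r', e, k⟩ := one j
    rw [e] at hr
    exact hr ▸ k
  refine ⟨?_, ?_⟩
  · rintro v (k | ⟨f, hf, rfl⟩)
    · obtain ⟨p, k⟩ := mem_iUnion.1 k
      rw [h.kap p (Nat.zero_le _)] at k
      exact ((h.plan _).mark (a4 _).1 _ p.2 (dep _ _ p.2)).1 (h.kap p le_rfl ▸ k)
    · obtain ⟨b, k | ⟨j, i, ⟨k1, ⟨x, k2, k3⟩, k4⟩, -⟩ | ⟨x, k, -⟩ | k⟩ := h.fx hf
      · exact h.knB b (X.D.σ.vs_mono h.ok.hull.sm.2.2 (a1 k))
      · obtain ⟨r, e, d⟩ := one j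
        have m : r ∈ X.Rs j := e ▸ rfl
        exact absurd k3 (((h.plan j).mark (a4 j).1 r m d).2 i k1 (k4 r m) x k2)
      · rw [h.ok.cc.str a2] at k
        exact k.elim
      · exact k
  · rintro ⟨⟨j, r⟩, hr⟩ ⟨⟨j', r'⟩, hr'⟩ i hi i' hi' l hl l' hl' e
    have e' : r.β i l = r'.β i' l' := e
    obtain rfl : j = j' := by
      by_contra c
      obtain ⟨-, b1, -, b2, -⟩ := (h.run ⟨_, hr⟩).inner i hi l hl
      obtain ⟨-, -, -, b3, -⟩ := (h.run ⟨_, hr'⟩).inner i' hi' l' hl'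
      dsimp only at b1 b2 b3
      rw [← e'] at b3
      obtain ⟨a, ha, k⟩ := vs_mem.1 b2
      obtain ⟨a', ha', k'⟩ := vs_mem.1 b3
      obtain ⟨m, (ha : X.D.t.own a = _)⟩ := mem_iUnion.1 ha
      obtain ⟨m', (ha' : X.D.t.own a' = _)⟩ := mem_iUnion.1 ha'
      have nl : r.β i l ∉ X.D.t.Λ := a3 ▸ notMem_empty _
      have ne : X.D.t.own a' ≠ X.D.t.own a := by
        rw [ha, ha']
        exact fun q => c (congrArg Prod.fst (Sum.inr.inj (Option.some.inj q))).symm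
      have key : ∀ j m, m < X.D.t.m j → r.β i l ∈ X.D.t.κ j m ∪ X.D.t.κ j (m + 1) →
          ∃ k ≤ X.D.t.m j, ∃ q < X.D.t.d j, X.D.t.β j k q = r.β i l := by
        rintro j m hm ((k | k) | (k | k))
        exacts [absurd (k ▸ (h.ok.ter.node j m hm.le).1.1) b1, ⟨m, hm.le, k⟩,
          absurd (k ▸ (h.ok.ter.node j _ hm).1.1) b1, ⟨_, hm, k⟩]
      obtain ⟨k1, c1, q1, d1, e1⟩ := key j m (O.ownb _ _ _ ha) ((O.share a _ ⟨k, nl⟩
        (Or.inr (Or.inr ⟨a', ne, by rw [ha']; nofun, k'⟩))).2.1 _ _ ha)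
      obtain ⟨k2, c2, q2, d2, e2⟩ := key j' m' (O.ownb _ _ _ ha') ((O.share a' _ ⟨k', nl⟩
        (Or.inr (Or.inr ⟨a, ne.symm, by rw [ha]; nofun, k⟩))).2.1 _ _ ha')
      exact c (O.priv _ _ _ c1 _ c2 _ d1 _ d2 (e1 ▸ nl) (e1.trans e2.symm)).1
    obtain ⟨r0, e0, -⟩ := one j
    obtain rfl : r = r' := by
      rw [e0] at hr hr'
      exact Eq.trans hr (Eq.symm hr')
    rfl

end Ok

end Dt

theorem own_ex {D : Dat} {Rs : D.t.ι → Set Run} {n1 : ℕ} (h : ∀ j, D.Plan j (Rs j) n1)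
    (a : D.σ.ε) : ∃ o : Option (MV ⊕ Ix D Rs × ℕ),
      (∀ x, o = some (Sum.inl x) ↔ a ∉ D.Ws ∧ D.t.own a = some (Sum.inl x) ∧ x ∈ D.Ck) ∧
      ∀ p i, o = some (Sum.inr (p, i)) ↔
        a ∉ D.Ws ∧ D.t.own a = some (Sum.inr (p.1.1, p.1.2.lo + i)) ∧ i < p.1.2.m := by
  by_cases c1 : ∃ x, a ∉ D.Ws ∧ D.t.own a = some (Sum.inl x) ∧ x ∈ D.Ck
  · obtain ⟨x, c⟩ := c1
    refine ⟨some (Sum.inl x), fun y => ⟨fun k => ?_, fun k => ?_⟩, fun p i => ⟨nofun, fun k => ?_⟩⟩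
    · cases k
      exact c
    · cases c.2.1.symm.trans k.2.1
      rfl
    · cases c.2.1.symm.trans k.2.1
  by_cases c2 : ∃ (p : Ix D Rs) (i : ℕ),
      a ∉ D.Ws ∧ D.t.own a = some (Sum.inr (p.1.1, p.1.2.lo + i)) ∧ i < p.1.2.m
  · obtain ⟨p, i, c⟩ := c2
    refine ⟨some (Sum.inr (p, i)), fun y => ⟨nofun, fun k => (c1 ⟨y, k⟩).elim⟩,
      fun p' i' => ⟨fun k => ?_, fun k => ?_⟩⟩
    · cases k
      exact c
    · obtain ⟨⟨j, r⟩, hr⟩ := p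
      obtain ⟨⟨j', r'⟩, hr'⟩ := p'
      obtain ⟨rfl, e⟩ := Prod.mk.inj (Sum.inr.inj (Option.some.inj (c.2.1.symm.trans k.2.1)))
      have b1 := c.2.2
      have b2 := k.2.2
      dsimp only at *
      obtain rfl : r = r' := by
        by_contra d
        have := (h j).sep r hr r' hr' d
        omega
      obtain rfl : i = i' := by omega
      rfl
  exact ⟨none, fun x => ⟨nofun, fun k => (c1 ⟨x, k⟩).elim⟩,
    fun p i => ⟨nofun, fun k => (c2 ⟨p, i, k⟩).elim⟩⟩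

end FMid

open FMid in
theorem midS : FSurgS → ZS → MidS := by
  intro surg zs n n1
  refine ⟨2 ^ (7 * n) + n * n1 * (2 * n + 2) + (n + n * n1 + 7 * n), ?_⟩
  rintro D hD rfl hK Rs hP
  have O := hD.pre.ok
  have rk : D.Rk Rs ⊆ D.t.s.Rm := fun _ k => k.1
  obtain ⟨Z, z1, z2, z3, z4, z5, z6⟩ := zs D hD hK (D.Rk Rs) rk (by
    rintro _ ⟨a, j, r, b, i, c, rfl⟩
    have R := (hP j).ok r b
    rw [((hD.ter.lk j _ ((Nat.add_lt_add_left c _).trans_le R.len.2)).2.2 a).1, disjoint_left]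
    rintro _ (rfl | rfl)
    exacts [R.endu i c.le, R.endu _ c])
  obtain ⟨M, vx, H, pos, su⟩ := surg D.t.s D.Ck (D.Rk Rs) Z O.ok O.spoke sdiff_subset rk hD.up.one
    z1 z2 z3 z4
  choose own oc ob using own_ex hP
  have fin : Finite (Ix D Rs) := (ix_eq D Rs ▸ finite_iUnion fun j => (hP j).fin.1.image _ :
    {p : D.t.ι × Run | p.2 ∈ Rs p.1}.Finite)
  let X : Dt := ⟨D, Rs, n1, Fintype.ofFinite _, Z, M, vx, H, pos, own⟩
  have h : X.Ok := ⟨hD, hP, ⟨O.ok, sdiff_subset, rk, z1, su⟩, oc, ob⟩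
  have w := hD.num.1
  have w2 := Nat.two_pow_pos (7 * D.n)
  generalize 2 ^ (7 * D.n) = c at *
  refine ⟨X.t, fun p => p.1.2.Q, fun p => p.1.1, fun p => p.1.2.lo, h.mid, rfl, su.eg,
    su.fc hD.pre.fc, ⟨su.holes.trans (z5.trans (by omega)), fun k => su.holes.trans (z6 k)⟩,
    ⟨h.card.trans (show D.n * n1 ≤ _ by omega), h.marks.trans (show D.n * n1 * (2 * D.n + 2) +
      (D.n + D.n * n1 + 7 * D.n) ≤ _ by omega), hD.pre.cnt.2.2.1.trans (by omega),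
      fun p => (h.run p).nm.2.2.2.1.trans (show 2 * D.w ≤ _ by omega)⟩, su.ce,
    fun x k => ⟨h.ct k, su.nb x (Or.inl k), su.rd x k⟩,
    fun p i k => ⟨h.bag p k, h.lt p k, (h.run p).seed i k⟩,
    fun p => ⟨fun v k => ((h.run p).nm.2.2.2.2 v k).2, fun i hi v k => ?_⟩,
    fun v k => (su.nd.le k).1, fun p => ?_, h.exact⟩
  · rw [h.kap p hi] at k
    obtain ⟨rfl | ⟨l, a, rfl⟩, b⟩ := k
    · exact ⟨_, h.le p hi, Or.inl rfl⟩
    · exact ((h.run p).inner i hi l a).2.2.2.2.resolve_left b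
  · refine ((hP _).ty _ p.2).imp (fun k => ⟨k.1.1, k.1.2.1, fun i hi => ?_, fun a p' e => ?_⟩)
      fun k => ⟨(h.run p).dep, k⟩
    · unfold Sh.letter Sh.rl
      rw [h.bag p hi, (h.spk p hi.le).2, (h.spk p hi).2]
      exact k.1.2.2 i hi
    · obtain ⟨⟨j, r⟩, hr⟩ := p
      obtain ⟨⟨j', r'⟩, hr'⟩ := p'
      obtain rfl : j' = j := e
      obtain rfl : r' = r := (k.2 a ▸ hr' : r' ∈ ({r} : Set Run))
      rfl

end Pool.Agent.MP_9d78a0_co.gm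

end MrgPart5

-- ======== part 6: formerly Pool.Agent.MP_9d78a0_co.gm.FQuo1
section MrgPart6

/-! Row QUO, part one: quotients along homogeneous parts, and regions off the hull. -/

set_option autoImplicit false

namespace Pool.Agent.MP_9d78a0_co.gm

open Set Function

namespace FQuo

section hom

variable {σ : AG} {M : Set (Set σ.ε)}

theorem part_ne (hn : ∀ C ∈ M, C.Nonempty) (P : parts M) : P.1.Nonempty := by
  rcases P.2 with p | ⟨a, -, p⟩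
  · exact hn _ p
  · exact p ▸ singleton_nonempty a

theorem exists_own {O : Type} (own : σ.ε → O) (hn : ∀ C ∈ M, C.Nonempty)
    (hh : ∀ C ∈ M, ∀ a ∈ C, ∀ b ∈ C, own a = own b) :
    ∃ own' : parts M → O, ∀ P : parts M, ∀ a ∈ P.1, own a = own' P := by
  refine ⟨fun P => own (part_ne hn P).some, fun P a ha => ?_⟩
  have hb := (part_ne hn P).some_mem
  rcases P.2 with p | ⟨c, -, p⟩
  · exact hh _ p _ ha _ hb
  · have e1 : a = c := by rw [p] at ha; exact ha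
    have e2 : ∀ b ∈ P.1, b = c := fun b k => by rw [p] at k; exact k
    exact congrArg own (e1.trans (e2 _ hb).symm)

theorem up_fib {O : Type} {own : σ.ε → O} {own' : parts M → O}
    (ho : ∀ P : parts M, ∀ a ∈ P.1, own a = own' P) (o : O) :
    up {P : parts M | own' P = o} = {a | own a = o} := by
  ext a
  refine ⟨fun ⟨P, h, k⟩ => (ho P a k).trans h, fun h => ?_⟩
  obtain ⟨P, k⟩ := exists_part M a
  exact ⟨P, (ho P a k).symm.trans h, k⟩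

theorem up_iUnion {κ : Type} (Y : κ → Set (parts M)) : up (⋃ k, Y k) = ⋃ k, up (Y k) := by
  ext a
  simp only [up, mem_iUnion, mem_ofPred_eq]
  exact ⟨fun ⟨P, ⟨k, h⟩, l⟩ => ⟨k, P, h, l⟩, fun ⟨k, P, h, l⟩ => ⟨P, ⟨k, h⟩, l⟩⟩

theorem inc_q (P : (σ.quo M).ε) : (σ.quo M).inc P = σ.vs P.1 := σ.vs_un P.1

theorem bd_q (hd : M.PairwiseDisjoint id) (P : (σ.quo M).ε) : (σ.quo M).bd {P} = σ.bd P.1 :=
  (σ.quo_bd hd {P}).trans (congrArg σ.bd (up_single P))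

theorem f_q (hd : M.PairwiseDisjoint id) (P : (σ.quo M).ε) : (σ.quo M).f {P} = σ.f P.1 :=
  congrArg Set.ncard (bd_q hd P)

theorem vs_single (a : σ.ε) : σ.vs {a} = σ.inc a := by simp [AG.vs]

theorem mem_vs {U : Set σ.ε} {v : W} : v ∈ σ.vs U ↔ ∃ a ∈ U, v ∈ σ.inc a := by simp [AG.vs]

variable {t : Sh σ} {own : parts M → Option (MV ⊕ t.ι × ℕ)}

theorem up_ct (ho : ∀ P : parts M, ∀ a ∈ P.1, t.own a = own P) (x : MV) :
    up ((t.re (σ.quo M) t.Λ t.β t.L own).ct x) = t.ct x := up_fib ho _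

theorem up_bag (ho : ∀ P : parts M, ∀ a ∈ P.1, t.own a = own P) (j : t.ι) (i : ℕ) :
    up ((t.re (σ.quo M) t.Λ t.β t.L own).bag j i) = t.bag j i := up_fib ho _

theorem up_rest (ho : ∀ P : parts M, ∀ a ∈ P.1, t.own a = own P) :
    up (t.re (σ.quo M) t.Λ t.β t.L own).rest = t.rest := up_fib ho _

theorem mid_quo {Q : t.ι → Set W} (h : t.Mid Q) (hd : M.PairwiseDisjoint id)
    (hn : ∀ C ∈ M, C.Nonempty) (ho : ∀ P : parts M, ∀ a ∈ P.1, t.own a = own P) :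
    (t.re (σ.quo M) t.Λ t.β t.L own).Mid Q := by
  have vq : ∀ (Y : Set (σ.quo M).ε) (Z : Set σ.ε), up (M := M) Y = Z → (σ.quo M).vs Y = σ.vs Z ∧
      (σ.quo M).vs Yᶜ = σ.vs Zᶜ ∧ (σ.quo M).un Y = σ.un Z ∧
      (σ.quo M).bd Y = σ.bd Z := by
    rintro Y _ rfl
    exact ⟨σ.quo_vs Y, (σ.quo_vs Yᶜ).trans (congrArg σ.vs (up_compl hd Y)), σ.quo_un Y,
      σ.quo_bd hd Y⟩
  have c := fun x => vq _ _ (up_ct ho x)
  have b := fun j i => vq _ _ (up_bag ho j i)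
  have r := vq _ _ (up_rest ho)
  have bu := fun j => vq (⋃ k, (t.re (σ.quo M) t.Λ t.β t.L own).bag j k) (⋃ k, t.bag j k)
    ((up_iUnion _).trans (iUnion_congr fun k => up_bag ho j k))
  have ln : ∀ j i P v w, t.Ln (Q j) j i P v w →
      (t.re (σ.quo M) t.Λ t.β t.L own).Ln (Q j) j i P v w := by
    intro j i P v w k
    unfold Sh.Ln
    rw [(b j i).1, (b j i).2.2.1]
    exact k
  refine ⟨h.ok, h.spoke, h.len, h.hole, h.sep, h.quad, h.lkinj, h.rim, fun P x k => ?_,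
    fun P j i k => ?_, h.lam, h.lamn, h.nm, h.ulam, h.inner, h.priv, h.conv, fun x => ?_,
    fun x => ?_, fun j i hi => ?_, fun j i hi l hl k => ?_, fun v hv => ?_, fun x hx => ?_,
    fun j i hi l hl => ⟨ln _ _ _ _ _ (h.lane j i hi l hl).1, (h.lane j i hi l hl).2⟩,
    fun j i hi k => ln _ _ _ _ _ (h.path j i hi k), h.ldis, h.lent, h.move⟩
  · obtain ⟨a, ha⟩ := part_ne hn P
    exact h.ownc a x ((ho P a ha).trans k)
  · obtain ⟨a, ha⟩ := part_ne hn P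
    exact h.ownb a j i ((ho P a ha).trans k)
  · rw [(c x).2.2.2]
    exact h.bdc x
  · rw [(c x).1]
    exact h.ndc x
  · rw [(b j i).1, (b j i).2.1]
    exact h.shb j i hi
  · rw [(bu j).2.1]
    exact h.mid j i hi l hl k
  · rw [r.1, r.2.1]
    exact h.node v hv
  · rw [(c x).2.2.1, (c x).2.2.2]
    exact h.solid x hx

theorem part_disj {P P' : Set σ.ε} (h : t.Part P) (h' : t.Part P') {a : σ.ε} (k : a ∈ P)
    (k' : a ∈ P') : P = P' := by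
  rcases h with ⟨x, -, rfl⟩ | ⟨j, i, -, rfl⟩ <;> rcases h' with ⟨x', -, rfl⟩ | ⟨j', i', -, rfl⟩
  · have e : some (Sum.inl x) = some (Sum.inl x') := Eq.trans (Eq.symm k) k'
    cases e; rfl
  · have e : some (Sum.inl x) = some (Sum.inr (j', i')) := Eq.trans (Eq.symm k) k'
    cases e
  · have e : some (Sum.inr (j, i)) = some (Sum.inl x') := Eq.trans (Eq.symm k) k'
    cases e
  · have e : some (Sum.inr (j, i)) = some (Sum.inr (j', i')) := Eq.trans (Eq.symm k) k'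
    cases e; rfl

end hom

variable {D : Dat}

/-- the members of the cut off the root side -/
def M0 (D : Dat) : Set (Set D.σ.ε) := {C | C ∈ Cut D.e D.T D.N ∧ D.e ∉ C}

theorem m0_disj : (M0 D).PairwiseDisjoint id := (cut_disj D.σ.sym).subset fun _ k => k.1

theorem cut_ne {C : Set D.σ.ε} (h : C ∈ Cut D.e D.T D.N) : C.Nonempty :=
  let ⟨_, _, k⟩ := cut_dist h; k.nonempty

theorem cut_robust (hr : D.σ.Rob) {C : Set D.σ.ε} (h : C ∈ Cut D.e D.T D.N) :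
    Robust (D.σ.un C) (D.σ.bd C) := robUnS D.σ C hr (cut_rob D.σ.sym h)

/-- a member that meets a part off the hull lies in it -/
theorem cut_in (h : D.Ok) {P C : Set D.σ.ε} (hP : D.t.Part P) (hC : C ∈ Cut D.e D.T D.N)
    {a : D.σ.ε} (k : a ∈ C) (k' : a ∈ P \ D.Ws) : C ⊆ P \ D.Ws ∧ D.e ∉ C := by
  rcases (h.hull.cut C hC).2 with l | ⟨l0, l1, l2⟩
  · exact absurd (l k) k'.2
  · have : ∃ P', D.t.Part P' ∧ C ⊆ P' := by
      rcases l2 with ⟨x, hx, l⟩ | ⟨j, -, i, hi, l, -⟩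
      exacts [⟨_, Or.inl ⟨x, hx, rfl⟩, l⟩, ⟨_, Or.inr ⟨j, i, hi, rfl⟩, l⟩]
    obtain ⟨P', p, q⟩ := this
    rw [part_disj hP p k'.1 (q k)]
    exact ⟨fun b hb => ⟨q hb, disjoint_left.1 l1 hb⟩, l0⟩

theorem part_ord (h : D.Ok) {P : Set D.σ.ε} (hP : D.t.Part P) : D.σ.f P ≤ D.w := by
  rcases hP with ⟨x, hx, rfl⟩ | ⟨j, i, hi, rfl⟩
  exacts [(h.pre.cells x hx).2, (h.pre.bags j i hi).2]

/-- a part off the hull has bounded width over the members -/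
theorem region (h : D.Ok) {K : ℕ} {A A' : Set Lab} (ha : D.σ.Over univ A K)
    (hc : ∀ C ∈ Cut D.e D.T D.N, D.e ∉ C → InA A' (D.σ.un C) (D.σ.bd C)) {P : Set D.σ.ε}
    (hP : D.t.Part P) :
    up {Z : parts (M0 D) | Z.1 ⊆ P \ D.Ws} = P \ D.Ws ∧
      (D.σ.quo (M0 D)).Over {Z : parts (M0 D) | Z.1 ⊆ P \ D.Ws} (A ∪ A') (D.n + K) ∧
      Wd (D.σ.quo (M0 D)).inc {Z : parts (M0 D) | Z.1 ⊆ P \ D.Ws} (3 * D.θ + (D.n + K)) := by
  have e : up {Z : parts (M0 D) | Z.1 ⊆ P \ D.Ws} = P \ D.Ws := up_sub fun C hC => by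
    by_cases c : Disjoint C (P \ D.Ws)
    · exact Or.inr c
    · obtain ⟨a, k, k'⟩ := not_disjoint_iff.1 c
      exact Or.inl (cut_in h hP hC.1 k k').1
  have ov : ∀ Z : parts (M0 D), InA (A ∪ A') (D.σ.un Z.1) (D.σ.bd Z.1) ∧ D.σ.f Z.1 ≤ D.n + K := by
    intro Z
    rcases Z.2 with p | ⟨a, -, p⟩
    · exact ⟨(hc _ p.1 p.2).mono subset_union_right,
        (h.hull.cut _ p.1).1.trans (Nat.le_add_right _ _)⟩
    · rw [p, D.σ.un_single]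
      exact ⟨(ha a trivial).1.mono subset_union_left, (ha a trivial).2.trans (Nat.le_add_left _ _)⟩
  refine ⟨e, fun Z _ => ?_, ?_⟩
  · rw [bd_q m0_disj, f_q m0_disj]
    exact ov Z
  · rw [D.σ.quo_inc]
    refine regionS D.σ.ε W D.σ.inc D.θ (D.n + K) (M0 D) _ D.σ.inc_fin m0_disj
      (fun C hC => cut_rob D.σ.sym hC.1) (fun Z _ => (ov Z).2) fun T' hT0 => ?_
    have hT : ∀ U, D.σ.f U < D.θ → Disjoint U (P \ D.Ws) → U ∈ T'.sm := fun U a b =>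
      hT0 U a (b.mono_right e.subset)
    have o : D.σ.f Pᶜ < D.θ := by
      rw [D.σ.sym.cpl]
      have := part_ord h hP
      have := h.num
      omega
    have n : T' ∈ D.N := h.hull.mem T' (Or.inr ⟨P, hP, hT _ o
      (disjoint_compl_left.mono_right sdiff_subset)⟩)
    obtain ⟨C, h1, h2⟩ := big_on_cut (e := D.e) (T := D.T) D.σ.sym n
      fun k => h.hull.nt (k ▸ n)
    by_cases c : Disjoint C (P \ D.Ws)
    · exact absurd h2 (T'.not_both (hT C (D.T.ord C (cut_small h1)) c))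
    · obtain ⟨a, k, k'⟩ := not_disjoint_iff.1 c
      obtain ⟨p, q⟩ := cut_in h hP h1 k k'
      exact ⟨⟨C, Or.inl ⟨h1, q⟩⟩, p, h2⟩

/-- the label of a part off the hull -/
theorem part_lab (h : D.Ok) {K : ℕ} {A A' : Set Lab} (hr : D.σ.Rob) (ha : D.σ.Over univ A K)
    (hc : ∀ C ∈ Cut D.e D.T D.N, D.e ∉ C → InA A' (D.σ.un C) (D.σ.bd C)) {P : Set D.σ.ε}
    (hP : D.t.Part P) :
    InA (Lq (A ∪ A') (3 * D.θ + 2 * D.n + K)) (D.σ.un (P \ D.Ws)) (D.σ.bd (P \ D.Ws)) ∧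
      D.σ.f (P \ D.Ws) ≤ 3 * D.θ + 2 * D.n + K := by
  obtain ⟨e, o, wd⟩ := region h ha hc hP
  have hf : D.σ.f (P \ D.Ws) ≤ 3 * D.θ + 2 * D.n + K := by
    have := D.σ.sym.pos P D.Ws
    have := part_ord h hP
    have := h.num.1
    have := h.hull.sm.2.1
    omega
  obtain ⟨ρ, hρ⟩ := Enum.exists (D.σ.bd_fin (P \ D.Ws))
  refine ⟨Or.inr ⟨ρ, hρ, Mem.of_mem (Or.inr (mem_iUnion₂.2 ⟨ρ.length, ?_, rfl, D.σ.quo (M0 D),
    {Z : parts (M0 D) | Z.1 ⊆ P \ D.Ws}, D.σ.quo_rob m0_disj hr fun C k => cut_robust hr k.1,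
    fun Z k => ⟨(o Z k).1, (o Z k).2.trans (by omega)⟩, ?_, ?_, ?_, fun v hv => ?_⟩))⟩, hf⟩
  · rw [hρ.length]
    exact hf
  · exact (wdS _ _ _ (D.σ.quo (M0 D)).inc_fin).1 _ _ _ _ subset_rfl (by omega) wd
  · exact ((D.σ.quo_un _).trans (congrArg D.σ.un e)).symm
  · exact ((D.σ.quo_bd m0_disj _).trans (congrArg D.σ.bd e)).subset.trans hρ.2.superset
  · have k : v ∈ D.σ.bd (P \ D.Ws) := hρ.2.subset hv
    exact ⟨D.σ.bd_od _ k, fun _ =>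
      ((D.σ.quo_bd m0_disj _).trans (congrArg D.σ.bd e)).superset k⟩

end FQuo

end Pool.Agent.MP_9d78a0_co.gm

end MrgPart6

-- ======== part 7: formerly Pool.Agent.MP_9d78a0_co.gm.FQuo
section MrgPart7

/-! Row QUO: kept cells and the members inside kept bags become atoms. -/

set_option autoImplicit false

namespace Pool.Agent.MP_9d78a0_co.gm

open Set Function

namespace FQuo

variable {D : Dat} {t1 : Sh D.σ} {Q : t1.ι → Set W} {src : t1.ι → D.t.ι} {lo : t1.ι → ℕ} {n' : ℕ}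

/-- exceptional vertices, nodes and vertices of cuts -/
def Sp (D : Dat) (v : W) : Prop :=
  v ∈ D.t.Λ ∨ Sum.inl v ∈ D.t.s.Vt ∨ ∃ j, ∃ k ≤ D.t.m j, v ∈ D.t.κ j k

theorem key_bd {Z : Set D.σ.ε} (hZ : Disjoint Z D.Ws) {v : W} (h1 : v ∈ D.σ.vs Z)
    (h2 : v ∈ D.Bd) : v ∈ D.σ.bd Z := by
  rw [D.σ.bd_eq]
  exact ⟨h1, D.σ.vs_mono hZ.symm.subset_compl_right (D.σ.bd_vs _ h2)⟩

theorem key_cell (h : D.Ok) {x : MV} (hx : x ∈ D.Ck) {v : W} (h1 : v ∈ D.σ.vs (D.t.ct x \ D.Ws))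
    (h2 : Sp D v) : v ∈ D.σ.bd (D.t.ct x \ D.Ws) := by
  rw [h.kc.bd x hx]
  by_cases c : v ∈ D.t.Λ
  · exact Or.inr ⟨c, h1⟩
  · obtain ⟨a, ha, k⟩ := mem_vs.1 h1
    exact Or.inl ((h.pre.ok.share a v ⟨k, c⟩ ((h2.resolve_left c).imp id Or.inl)).1 x ha.1)

theorem cut_bag (h : D.Ok) {j : D.t.ι} {i : ℕ} {C : Set D.σ.ε} (hC : C ∈ Cut D.e D.T D.N)
    (hs : C ⊆ D.t.bag j i \ D.Ws) : D.md j = Md.new ∧
      D.σ.vs C ∩ (D.t.Λ ∪ D.t.κ j i ∪ D.t.κ j (i + 1)) ⊆ D.σ.bd C := by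
  obtain ⟨a, ha⟩ := cut_ne hC
  rcases (h.hull.cut C hC).2 with l | ⟨-, -, ⟨x, -, l⟩ | ⟨j', p, i', -, l, q⟩⟩
  · exact absurd (l ha) (hs ha).2
  · have e : some (Sum.inl x) = some (Sum.inr (j, i)) := Eq.trans (Eq.symm (l ha)) (hs ha).1
    cases e
  · have e : some (Sum.inr (j', i')) = some (Sum.inr (j, i)) :=
      Eq.trans (Eq.symm (l ha)) (hs ha).1
    cases e
    exact ⟨p, q⟩

theorem key_bag (h : D.Ok) {j : D.t.ι} {i : ℕ} (hi : i < D.t.m j) {Z : Set D.σ.ε}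
    (hs : Z ⊆ D.t.bag j i \ D.Ws) (hZ : Z ∈ Cut D.e D.T D.N ∨ ∃ a, Z = {a}) {v : W}
    (h1 : v ∈ D.σ.vs Z) (h2 : Sp D v) : v ∈ D.σ.bd Z := by
  obtain ⟨a, ha, k⟩ := mem_vs.1 h1
  have s : v ∈ D.t.Λ ∨ v ∈ D.t.κ j i ∪ D.t.κ j (i + 1) := by
    by_cases c : v ∈ D.t.Λ
    · exact Or.inl c
    · exact Or.inr ((h.pre.ok.share a v ⟨k, c⟩ ((h2.resolve_left c).imp id Or.inl)).2.1 j i
        (hs ha).1)
  rcases hZ with hZ | ⟨b, rfl⟩
  · refine (cut_bag h hZ hs).2 ⟨h1, ?_⟩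
    rcases s with s | s | s
    exacts [Or.inl (Or.inl s), Or.inl (Or.inr s), Or.inr s]
  · obtain rfl : a = b := ha
    rcases s with s | s | s
    exacts [h.pre.ok.root a v ⟨s, k⟩, h.pre.ok.two j i hi.le v s a k,
      h.pre.ok.two j (i + 1) hi v s a k]

/-- the members inside kept bags and the kept cells -/
def M1 (D : Dat) (t1 : Sh D.σ) : Set (Set D.σ.ε) :=
  {C | C ∈ Cut D.e D.T D.N ∧ ∃ j, ∃ i < t1.m j, C ⊆ t1.bag j i} ∪ {C | ∃ x ∈ D.Ck, C = t1.ct x}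

theorem m1_ne (hR : D.Rel t1 Q src lo n') : ∀ C ∈ M1 D t1, C.Nonempty := by
  rintro C (k | ⟨x, hx, rfl⟩)
  · exact cut_ne k.1
  · rw [(hR.cell x hx).1]
    exact sdiff_nonempty.2 fun l => hx.2 (Or.inl ⟨hx.1, l⟩)

theorem m1_hom : ∀ C ∈ M1 D t1, ∀ a ∈ C, ∀ b ∈ C, t1.own a = t1.own b := by
  rintro C (⟨-, j, i, -, k⟩ | ⟨x, -, rfl⟩) a ha b hb
  · exact Eq.trans (k ha) (Eq.symm (k hb))
  · exact Eq.trans ha (Eq.symm hb)

theorem m1_disj : (M1 D t1).PairwiseDisjoint id := by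
  rintro C (⟨p, j, i, -, k⟩ | ⟨x, -, rfl⟩) C' (⟨p', j', i', -, k'⟩ | ⟨x', -, rfl⟩) n
  · exact cut_disj D.σ.sym p p' n
  · refine disjoint_left.2 fun a ha ha' => ?_
    have e : some (Sum.inr (j, i)) = some (Sum.inl x') := Eq.trans (Eq.symm (k ha)) ha'
    cases e
  · refine disjoint_left.2 fun a ha ha' => ?_
    have e : some (Sum.inr (j', i')) = some (Sum.inl x) := Eq.trans (Eq.symm (k' ha')) ha
    cases e
  · refine disjoint_left.2 fun a ha ha' => n ?_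
    have e : some (Sum.inl x) = some (Sum.inl x') := Eq.trans (Eq.symm ha) ha'
    cases e; rfl

theorem m1_off (hR : D.Rel t1 Q src lo n') : ∀ C ∈ M1 D t1, Disjoint C D.Ws := by
  rintro C (⟨-, j, i, hi, k⟩ | ⟨x, hx, rfl⟩)
  · rw [(hR.bag j i hi).1] at k
    exact disjoint_sdiff_left.mono_left k
  · rw [(hR.cell x hx).1]
    exact disjoint_sdiff_left

variable {own : parts (M1 D t1) → Option (MV ⊕ t1.ι × ℕ)}

theorem kind_cell (hR : D.Rel t1 Q src lo n')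
    (ho : ∀ P : parts (M1 D t1), ∀ a ∈ P.1, t1.own a = own P) {P : parts (M1 D t1)} {x : MV}
    (k : own P = some (Sum.inl x)) : x ∈ D.Ck ∧ P.1 = t1.ct x := by
  obtain ⟨a, ha⟩ := part_ne (m1_ne hR) P
  have e : t1.own a = some (Sum.inl x) := (ho P a ha).trans k
  have hx : x ∈ D.Ck := hR.ce ▸ hR.mid.ownc a x e
  exact ⟨hx, congrArg Subtype.val
    (part_eq m1_disj (Q := ⟨t1.ct x, Or.inl (Or.inr ⟨x, hx, rfl⟩)⟩) ha e)⟩

theorem kind_bag (hR : D.Rel t1 Q src lo n')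
    (ho : ∀ P : parts (M1 D t1), ∀ a ∈ P.1, t1.own a = own P) {P : parts (M1 D t1)} {j : t1.ι}
    {i : ℕ} (k : own P = some (Sum.inr (j, i))) :
    i < t1.m j ∧ P.1 ⊆ D.t.bag (src j) (lo j + i) \ D.Ws ∧
      (P.1 ∈ Cut D.e D.T D.N ∨ ∃ a, P.1 = {a} ∧ ∀ C ∈ M1 D t1, a ∉ C) := by
  obtain ⟨a, ha⟩ := part_ne (m1_ne hR) P
  have hi : i < t1.m j := hR.mid.ownb a j i ((ho P a ha).trans k)
  refine ⟨hi, (hR.bag j i hi).1 ▸ fun b hb => (ho P b hb).trans k, ?_⟩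
  rcases P.2 with (p | ⟨x, -, p⟩) | ⟨b, p, q⟩
  · exact Or.inl p.1
  · have e : some (Sum.inl x) = some (Sum.inr (j, i)) :=
      Eq.trans (Eq.symm (p.subset ha)) ((ho P a ha).trans k)
    cases e
  · exact Or.inr ⟨b, q, p⟩

theorem mk_sp (hR : D.Rel t1 Q src lo n') {v : W} (hv : v ∈ t1.Mk) : v ∈ D.Bd ∨ Sp D v := by
  by_cases c : v ∈ D.Bd
  · exact Or.inl c
  refine Or.inr (Or.inr ?_)
  rcases hv with hv | ⟨f, hf, rfl⟩
  · obtain ⟨j, k | k⟩ := mem_iUnion.1 hv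
    exacts [Or.inr ⟨_, (hR.nm j).2 0 (Nat.zero_le _) v ⟨k, c⟩⟩,
      Or.inr ⟨_, (hR.nm j).2 _ le_rfl v ⟨k, c⟩⟩]
  · obtain ⟨-, a, -, b, -⟩ := fSkS t1.s hR.mid.ok
    exact Or.inl (hR.nd ⟨(b _ _ (SimpleGraph.Adj.symm (a f hf.1).2.1)).1, _, rfl⟩).1

theorem key_all (h : D.Ok) (hR : D.Rel t1 Q src lo n')
    (ho : ∀ P : parts (M1 D t1), ∀ a ∈ P.1, t1.own a = own P) {P : parts (M1 D t1)}
    (hP : own P ≠ none) {v : W} (h1 : v ∈ D.σ.vs P.1) (h2 : v ∈ D.Bd ∨ Sp D v) :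
    v ∈ D.σ.bd P.1 := by
  obtain ⟨x | ⟨j, i⟩, k⟩ := Option.ne_none_iff_exists'.1 hP
  · obtain ⟨hx, e⟩ := kind_cell hR ho k
    rw [e, (hR.cell x hx).1] at h1 ⊢
    exact h2.elim (key_bd disjoint_sdiff_left h1) (key_cell h hx h1)
  · obtain ⟨hi, s, z⟩ := kind_bag hR ho k
    exact h2.elim (key_bd (disjoint_sdiff_left.mono_left s) h1)
      (key_bag h (hR.bag j i hi).2.1 s (z.imp id fun ⟨a, p, _⟩ => ⟨a, p⟩) h1)

theorem wid_bag (h : D.Ok) (hR : D.Rel t1 Q src lo n') {K : ℕ} {A A' : Set Lab}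
    (ha : D.σ.Over univ A K)
    (hc : ∀ C ∈ Cut D.e D.T D.N, D.e ∉ C → InA A' (D.σ.un C) (D.σ.bd C))
    (ho : ∀ P : parts (M1 D t1), ∀ a ∈ P.1, t1.own a = own P) (j : t1.ι) (i : ℕ)
    (hi : i < t1.m j) :
    Wd (D.σ.quo (M1 D t1)).inc {P : parts (M1 D t1) | own P = some (Sum.inr (j, i))}
      (3 * D.θ + 2 * D.n + K) := by
  classical
  have hP : D.t.Part (D.t.bag (src j) (lo j + i)) := Or.inr ⟨_, _, (hR.bag j i hi).2.1, rfl⟩
  obtain ⟨-, -, wd⟩ := region h ha hc hP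
  have mem : ∀ P : parts (M1 D t1), own P = some (Sum.inr (j, i)) → P.1 ∈ parts (M0 D) := by
    intro P k
    obtain ⟨-, s, z | ⟨a, p, q⟩⟩ := kind_bag hR ho k
    · obtain ⟨a, l⟩ := cut_ne z
      exact Or.inl ⟨z, (cut_in h hP z l (s l)).2⟩
    · refine Or.inr ⟨a, fun C hC l => q C (Or.inl ⟨hC.1, j, i, hi, ?_⟩) l, p⟩
      rw [(hR.bag j i hi).1]
      exact (cut_in h hP hC.1 l (s (p.superset rfl))).1
  obtain ⟨P0, -⟩ := exists_part (M0 D) D.e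
  obtain ⟨e, he⟩ : ∃ e : parts (M1 D t1) → parts (M0 D),
      ∀ P, own P = some (Sum.inr (j, i)) → (e P).1 = P.1 :=
    ⟨fun P => if k : P.1 ∈ parts (M0 D) then ⟨P.1, k⟩ else P0, fun P k => by
      simp only [dif_pos (mem P k)]⟩
  have := wdMapS (D.σ.quo (M0 D)).ε (D.σ.quo (M1 D t1)).ε W W (D.σ.quo (M0 D)).inc
    (D.σ.quo (M1 D t1)).inc e id _ {P : parts (M1 D t1) | own P = some (Sum.inr (j, i))} ∅ _
    (D.σ.quo (M0 D)).inc_fin finite_empty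
    (fun P k P' k' l => Subtype.ext ((he P k).symm.trans ((congrArg Subtype.val l).trans (he P' k'))))
    (fun P k => (he P k).subset.trans (kind_bag hR ho k).2.1) (injOn_id _)
    (fun P k v hv => (inc_q (e P)).superset ((he P k).symm ▸ (inc_q P).subset hv.1)) wd
  exact (wdS _ _ _ (D.σ.quo (M1 D t1)).inc_fin).1 _ _ _ _ subset_rfl (by simp; omega) this

theorem fits_bag (h : D.Ok) (hR : D.Rel t1 Q src lo n')
    (ho : ∀ P : parts (M1 D t1), ∀ a ∈ P.1, t1.own a = own P) (j : t1.ι) (i : ℕ) (y : Ty)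
    (hm : D.md (src j) ≠ Md.new) (hd : t1.d j = D.t.d (src j))
    (hf : D.t.Fits (src j) (lo j + i) y)
    (hl : Le (t1.letter j i) (D.t.letter (src j) (lo j + i))) :
    (t1.re (D.σ.quo (M1 D t1)) t1.Λ t1.β t1.L own).Fits j i y := by
  have one : ∀ P : parts (M1 D t1), own P = some (Sum.inr (j, i)) →
      ∃ a, P.1 = {a} ∧ a ∈ D.t.bag (src j) (lo j + i) := by
    intro P k
    obtain ⟨-, s, z | ⟨a, p, -⟩⟩ := kind_bag hR ho k
    · exact absurd (cut_bag h z s).1 hm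
    · exact ⟨a, p, (s (p.superset rfl)).1⟩
  refine ⟨hf.dep.trans hd.symm, fun P k => ?_, ?_, fun ω hω l => hf.forb ω hω (Le.trans ?_ hl)⟩
  · obtain ⟨a, p, q⟩ := one P k
    rw [bd_q m1_disj, f_q m1_disj]
    change InA y.A (D.σ.un P.1) _ ∧ _
    rw [p, D.σ.un_single]
    exact hf.atoms a q
  · obtain ⟨e, he⟩ : ∃ e : parts (M1 D t1) → D.σ.ε, ∀ P, e P ∈ P.1 :=
      ⟨fun P => (part_ne (m1_ne hR) P).some, fun P => (part_ne (m1_ne hR) P).some_mem⟩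
    have := wdMapS D.σ.ε (D.σ.quo (M1 D t1)).ε W W D.σ.inc (D.σ.quo (M1 D t1)).inc e id _
      {P : parts (M1 D t1) | own P = some (Sum.inr (j, i))} ∅ _ D.σ.inc_fin finite_empty
      (fun P _ P' _ l => part_eq m1_disj (he P) (l ▸ he P'))
      (fun P k => ((kind_bag hR ho k).2.1 (he P)).1) (injOn_id _) (fun P k v hv => ?_) hf.wid
    · rw [ncard_empty, add_zero] at this
      exact this
    · obtain ⟨a, p, -⟩ := one P k
      have e1 : e P = a := p.subset (he P)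
      have e2 : v ∈ D.σ.vs P.1 := (inc_q P).subset hv.1
      rw [p, vs_single] at e2
      exact e1 ▸ e2
  · have e : (t1.re (D.σ.quo (M1 D t1)) t1.Λ t1.β t1.L own).letter j i = t1.letter j i :=
      Prod.ext ((D.σ.quo_un _).trans (congrArg D.σ.un (up_bag ho j i))) rfl
    exact e ▸ l

end FQuo

open FQuo

theorem quoS : QuoS := by
  intro D t1 Q src lo n' K ν A A' h hR hr ha hn hc
  obtain ⟨own, ho⟩ := exists_own t1.own (m1_ne hR) (m1_hom (D := D) (t1 := t1))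
  have hd : (M1 D t1).PairwiseDisjoint id := m1_disj
  have out : Out D.e D.T D.N ⊆ D.Ws := sUnion_subset fun C k =>
    (h.hull.cut C k.1).2.resolve_right fun l => l.1 k.2
  refine ⟨M1 D t1, own, {P | P.1 ⊆ Out D.e D.T D.N}, hd,
    ⟨mid_quo hR.mid hd (m1_ne hR) ho, fun x hx => ?_, fun j i P k => ⟨?_, ?_⟩, fun x P k => ?_,
      fun v hv P k l => ?_, fun P k => ?_, fun j i hi => wid_bag h hR ha hc ho j i hi,
      fun P i k => ?_, hR.cnt⟩,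
    up_sub fun C k => Or.inr ((m1_off hR C k).mono_right out), fun P k => ?_, up_rest ho,
    up_ct ho, up_bag ho, fun j i _ y => fits_bag h hR ho j i y⟩
  · have hx' : x ∈ D.Ck := hR.ce ▸ hx
    refine ⟨⟨t1.ct x, Or.inl (Or.inr ⟨x, hx', rfl⟩)⟩, subset_antisymm (fun P k => ?_) ?_⟩
    · exact Subtype.ext (kind_cell hR ho k).2
    · rintro _ rfl
      obtain ⟨a, l⟩ := m1_ne hR _ (Or.inr ⟨x, hx', rfl⟩)
      exact (ho _ a l).symm.trans l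
  · rw [bd_q hd]
    change Robust (D.σ.un P.1) _
    obtain ⟨-, -, z | ⟨a, p, -⟩⟩ := kind_bag hR ho k
    · exact cut_robust hr z
    · rw [p, D.σ.un_single]
      exact hr a
  · rw [bd_q hd, inc_q]
    refine fun v hv => key_all h hR ho (fun l => ?_) hv.2 (Or.inr ?_)
    · cases l.symm.trans k
    · by_cases c : v ∈ D.t.Λ
      exacts [Or.inl c, Or.inr (Or.inr ⟨_, (hR.nm j).1 v ⟨hv.1, c⟩⟩)]
  · rw [bd_q hd, inc_q]
    refine fun v hv => key_all h hR ho (fun l => ?_) hv.2 (Or.inr (Or.inl (hR.lam ▸ hv.1)))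
    cases l.symm.trans k
  · rw [bd_q hd]
    exact key_all h hR ho k ((inc_q P).subset l) (mk_sp hR hv)
  · rw [bd_q hd, f_q hd]
    change InA _ (D.σ.un P.1) _ ∧ _
    obtain ⟨x | ⟨j, i⟩, l⟩ := Option.ne_none_iff_exists'.1 (show own P ≠ none from k)
    · obtain ⟨hx, e⟩ := kind_cell hR ho l
      rw [e, (hR.cell x hx).1]
      exact part_lab h hr ha hc (Or.inl ⟨x, hx.1, rfl⟩)
    · obtain ⟨hi, s, z | ⟨a, p, -⟩⟩ := kind_bag hR ho l
      · obtain ⟨a, m⟩ := cut_ne z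
        have := (h.hull.cut _ z).1
        exact ⟨(hc _ z (cut_in h (Or.inr ⟨_, _, (hR.bag j i hi).2.1, rfl⟩) z m (s m)).2).mono
          (subset_union_right.trans subset_union_left), by omega⟩
      · rw [p, D.σ.un_single]
        exact ⟨(ha a trivial).1.mono (subset_union_left.trans subset_union_left),
          (ha a trivial).2.trans (Nat.le_add_left _ _)⟩
  · obtain ⟨p, hp, l⟩ := k
    obtain ⟨a, -, m⟩ := mem_iUnion₂.1 hp
    exact hn a i ⟨p, m, l⟩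
  · by_contra c
    obtain ⟨a, l⟩ := part_ne (m1_ne hR) P
    obtain ⟨x | ⟨j, i⟩, m⟩ := Option.ne_none_iff_exists'.1 (show own P ≠ none from c)
    · obtain ⟨hx, e⟩ := kind_cell hR ho m
      exact ((e.trans (hR.cell x hx).1).subset l).2 (out (k l))
    · exact ((kind_bag hR ho m).2.1 l).2 (out (k l))

end Pool.Agent.MP_9d78a0_co.gm

end MrgPart7

-- ======== part 8: formerly Pool.Agent.MP_9d78a0_co.gm.FCore
section MrgPart8

/-! Row CORE: the core has bounded width over the members of the cut. -/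

set_option autoImplicit false

namespace Pool.Agent.MP_9d78a0_co.gm

open Set Function

namespace FCore

variable {D : Dat}

theorem len_le (ρ : List W) : {v | v ∈ ρ}.ncard ≤ ρ.length := by
  classical
  rw [← List.coe_toFinset, ncard_coe_finset]
  exact ρ.toFinset_card_le

/-- a vertex off `Λ` in two cuts lies in all cuts between them -/
theorem cut_mid (h : D.Ok) {v : W} (hv : v ∉ D.t.Λ) {j j' : D.t.ι} {p p' : ℕ} (hp : p ≤ D.t.m j)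
    (hp' : p' ≤ D.t.m j') (a : v ∈ D.t.κ j p) (b : v ∈ D.t.κ j' p') :
    j = j' ∧ ∀ k, p ≤ k → k ≤ p' → v ∈ D.t.κ j k := by
  have o := h.pre.ok
  rcases a with rfl | ⟨l, hl, rfl⟩ <;> rcases b with b | ⟨l', hl', b⟩
  · obtain ⟨rfl, rfl⟩ := h.up.pos j j' p hp p' hp' b
    exact ⟨rfl, fun k k1 k2 => by rw [le_antisymm k2 k1]; exact Or.inl rfl⟩
  · exact absurd (b ▸ (h.ter.node j p hp).1.1) ((o.inner j' p' hp' l' hl').2 (b ▸ hv))
  · exact absurd ((show D.t.β j p l = D.t.u j' p' from b) ▸ (h.ter.node j' p' hp').1.1)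
      ((o.inner j p hp l hl).2 hv)
  · obtain ⟨rfl, rfl⟩ := o.priv j j' p hp p' hp' l hl l' hl' hv b.symm
    exact ⟨rfl, fun k k1 k2 => Or.inr ⟨l, hl, o.conv j l hl p k p' k1 k2 hp' hv b.symm⟩⟩

/-- the part of `Y` in the hull and in the parts with owner in `G` -/
def Z (D : Dat) (Y : Set D.σ.ε) (G : Set (MV ⊕ D.t.ι × ℕ)) : Set D.σ.ε :=
  Y ∩ (D.Ws ∪ {a | ∃ o ∈ G, D.t.own a = some o})

theorem bd_Z (h : D.Ok) {Y : Set D.σ.ε}
    (hY : ∀ a ∈ Y \ D.Ws, ∀ x, D.t.own a = some (Sum.inl x) → x ∈ D.Cc)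
    {G : Set (MV ⊕ D.t.ι × ℕ)} {κ : Set W}
    (hG : ∀ j i i', Sum.inr (j, i) ∈ G → Sum.inr (j, i') ∉ G →
      ∃ k, i < k ∧ k ≤ i' ∧ D.t.κ j k ⊆ κ) :
    D.σ.bd (Z D Y G) ⊆ D.σ.bd Y ∪ D.E ∪ D.t.Λ ∪ κ := by
  rintro v ⟨⟨a, ha, va⟩, b, hb, vb⟩
  by_cases c : b ∈ Y
  swap
  · exact .inl (.inl (.inl ⟨⟨a, ha.1, va⟩, b, c, vb⟩))
  have bw : b ∉ D.Ws := fun k => hb ⟨c, .inl k⟩
  by_cases aw : a ∈ D.Ws
  · exact .inl (.inl (.inr (.inl ⟨⟨a, aw, va⟩, b, bw, vb⟩)))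
  obtain ⟨o, oG, eo⟩ := ha.2.resolve_left aw
  have ne : D.t.own b ≠ some o := fun k => hb ⟨c, .inr ⟨o, oG, k⟩⟩
  by_cases vl : v ∈ D.t.Λ
  · exact .inl (.inr vl)
  have cell : ∀ x ∈ D.Cc, v ∈ D.σ.bd (D.t.ct x) → v ∈ D.σ.bd Y ∪ D.E ∪ D.t.Λ ∪ κ :=
    fun x hx k => .inl (.inl (.inr (.inr (mem_biUnion hx ((h.ter.bdc x k).resolve_right vl)))))
  rcases o with x | ⟨j, i⟩
  · exact cell x (hY a ⟨ha.1, aw⟩ x eo) ⟨⟨a, eo, va⟩, b, ne, vb⟩
  rcases eb : D.t.own b with _ | x | ⟨j', i'⟩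
  · exact absurd (h.hull.sm.2.2 (h.pre.rest eb)) bw
  · exact cell x (hY b ⟨c, bw⟩ x eb) ⟨⟨b, eb, vb⟩, a, fun k => (by
      cases (show D.t.own a = _ from k).symm.trans eo), va⟩
  have hi := h.pre.ok.ownb a j i eo
  have hi' := h.pre.ok.ownb b j' i' eb
  have k1 := (h.ter.bdb j i ⟨⟨a, eo, va⟩, b, ne, vb⟩).resolve_right vl
  have k2 := (h.ter.bdb j' i' ⟨⟨b, eb, vb⟩, a, fun k => ne (by
    rw [eb, ← eo]; exact (show D.t.own a = _ from k).symm), va⟩).resolve_right vl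
  obtain ⟨p, p1, p2⟩ : ∃ p ≤ i + 1, v ∈ D.t.κ j p :=
    k1.elim (fun k => ⟨i, by omega, k⟩) fun k => ⟨i + 1, le_rfl, k⟩
  obtain ⟨p', q0, q1, q2⟩ : ∃ p' ≤ i' + 1, i' ≤ p' ∧ v ∈ D.t.κ j' p' :=
    k2.elim (fun k => ⟨i', by omega, le_rfl, k⟩) fun k => ⟨i' + 1, le_rfl, by omega, k⟩
  obtain ⟨rfl, m⟩ := cut_mid h vl (by omega) (by omega) p2 q2
  obtain ⟨k, r1, r2, r3⟩ := hG j i i' oG fun k => hb ⟨c, .inr ⟨_, k, eb⟩⟩
  exact .inr (r3 (m k (by omega) (by omega)))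

/-- a tangle outside `N` is small on a region that misses the kept cells -/
theorem small (h : D.Ok) {Y : Set D.σ.ε}
    (hY : ∀ a ∈ Y \ D.Ws, ∀ x, D.t.own a = some (Sum.inl x) → x ∈ D.Cc)
    (hf : D.σ.f Y + 12 * D.n + 4 ≤ D.θ) {T' : Tangle D.σ.f D.θ} (hT : T' ∉ D.N) :
    Y ∈ T'.sm := by
  have n1 := h.num.1
  have n2 := h.num.2.2.2
  have bf : ∀ U, (D.σ.bd U).Finite := hbd_fin D.σ.inc_fin
  have ws : D.Ws ∈ T'.sm :=
    T'.small_or (fun k => hT (h.hull.mem T' (.inl k))) (by have := h.hull.sm.2.1; omega)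
  have ord : ∀ (G : Set (MV ⊕ D.t.ι × ℕ)) (κ : Set W), κ.Finite → κ.ncard ≤ D.n + 1 →
      (∀ j i i', Sum.inr (j, i) ∈ G → Sum.inr (j, i') ∉ G →
        ∃ k, i < k ∧ k ≤ i' ∧ D.t.κ j k ⊆ κ) → D.σ.f (Z D Y G) < D.θ := fun G κ a b c => by
    have e1 := ncard_le_ncard (bd_Z h hY c)
      ((((bf Y).union h.kc.fin.1).union h.pre.ok.lam.2).union a)
    have e2 := ncard_union_le (D.σ.bd Y ∪ D.E ∪ D.t.Λ) κ
    have e3 := ncard_union_le (D.σ.bd Y ∪ D.E) D.t.Λ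
    have e4 := ncard_union_le (D.σ.bd Y) D.E
    have e5 := h.kc.fin.2.1
    have e6 := h.pre.cnt.2.2.1
    change (D.σ.bd Y).ncard + _ + _ ≤ _ at hf
    change (D.σ.bd _).ncard < _
    omega
  have step : ∀ {U U' P : Set D.σ.ε}, U ∈ T'.sm → P ∈ T'.sm → U' ⊆ U ∪ P → D.σ.f U' < D.θ →
      U' ∈ T'.sm := fun {U U' P} a b c d => (T'.tot U' d).resolve_right fun k =>
    T'.cov _ a _ b _ k (eq_univ_of_forall fun x => (em (x ∈ U')).elim (fun l => .inl (c l)) .inr)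
  have part : ∀ P, D.t.Part P → D.σ.f P ≤ D.w → P ∈ T'.sm := fun P a b =>
    T'.small_or (fun k => hT (h.hull.mem T' (.inr ⟨P, a, k⟩))) (by omega)
  have emp : ∅ ∈ T'.sm := T'.sub_small ws (empty_subset _) (by
    have : D.σ.f ∅ = 0 := by simp [AG.f, gm.hf, hbd]
    omega)
  have bag : ∀ j i, D.t.bag j i ∈ T'.sm := fun j i => by
    by_cases c : i < D.t.m j
    · exact part _ (.inr ⟨j, i, c, rfl⟩) (h.pre.bags j i c).2
    · rwa [show D.t.bag j i = ∅ from eq_empty_of_forall_notMem fun a k =>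
        c (h.pre.ok.ownb a j i k)]
  have cell : ∀ x, D.t.ct x ∈ T'.sm := fun x => by
    by_cases c : x ∈ D.t.s.Ce
    · exact part _ (.inl ⟨x, c, rfl⟩) (h.pre.cells x c).2
    · rwa [show D.t.ct x = ∅ from eq_empty_of_forall_notMem fun a k => c (h.pre.ok.ownc a x k)]
  have s1 : ∀ S : Set MV, S.Finite → Z D Y (Sum.inl '' S) ∈ T'.sm := fun S hS => by
    have o : ∀ S : Set MV, D.σ.f (Z D Y (Sum.inl '' S)) < D.θ := fun S =>
      ord _ ∅ finite_empty (by simp) (by rintro j i i' ⟨_, -, k⟩; cases k)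
    induction S, hS using Set.Finite.induction_on with
    | empty => exact T'.sub_small ws (by
        rintro a ⟨-, k | ⟨_, ⟨_, k, -⟩, -⟩⟩
        exacts [k, k.elim]) (o _)
    | @insert x S _ _ ih => exact step ih (cell x) (by
        rintro a ⟨y, k | ⟨_, ⟨z, rfl | k, rfl⟩, l⟩⟩
        exacts [.inl ⟨y, .inl k⟩, .inr l, .inl ⟨y, .inr ⟨_, ⟨z, k, rfl⟩, l⟩⟩]) (o _)
  let G : Set D.t.ι → Set (D.t.ι × ℕ) → Set (MV ⊕ D.t.ι × ℕ) := fun J X =>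
    range Sum.inl ∪ Sum.inr '' ({p | p.1 ∈ J} ∪ X)
  have mem : ∀ J X p, Sum.inr p ∈ G J X ↔ p.1 ∈ J ∨ p ∈ X := fun J X p => by simp [G]
  have o0 : ∀ J, D.σ.f (Z D Y (G J ∅)) < D.θ := fun J =>
    ord _ ∅ finite_empty (by simp) fun j i i' a b =>
      (b ((mem _ _ _).2 (.inl (((mem _ _ _).1 a).resolve_right id)))).elim
  have s2 : ∀ J : Set D.t.ι, J.Finite → Z D Y (G J ∅) ∈ T'.sm := fun J hJ => by
    induction J, hJ using Set.Finite.induction_on with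
    | empty =>
      refine T'.sub_small (s1 {x | ∃ a, D.t.own a = some (Sum.inl x)} ?_) ?_ (o0 _)
      · exact Finite.preimage (f := fun x => some (Sum.inl x))
          (fun _ _ _ _ k => by cases k; rfl) (finite_range D.t.own)
      · rintro a ⟨y, k | ⟨_, ⟨x, rfl⟩ | ⟨_, k | k, -⟩, l⟩⟩
        exacts [⟨y, .inl k⟩, ⟨y, .inr ⟨_, ⟨x, ⟨a, l⟩, rfl⟩, l⟩⟩, k.elim, k.elim]
    | @insert j J _ _ ih =>
      have s3 : ∀ k, Z D Y (G J {p | p.1 = j ∧ p.2 < k}) ∈ T'.sm := fun k => by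
        induction k with
        | zero => simpa using ih
        | succ k ik =>
          refine step ik (bag j k) ?_ (ord _ (D.t.κ j (k + 1)) (h.ter.cut j _).2.1
            ((h.ter.cut j _).2.2.trans (by have := h.pre.cnt.2.2.2.2 j; omega))
            fun j' i i' a b => ?_)
          · rintro a ⟨y, c | ⟨x | ⟨j', i⟩, c, l⟩⟩
            · exact .inl ⟨y, .inl c⟩
            · exact .inl ⟨y, .inr ⟨_, .inl ⟨x, rfl⟩, l⟩⟩
            · rcases (mem _ _ _).1 c with c' | ⟨c1, c2⟩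
              · exact .inl ⟨y, .inr ⟨_, (mem _ _ _).2 (.inl c'), l⟩⟩
              · obtain rfl : j' = j := c1
                rcases Nat.lt_succ_iff_lt_or_eq.1 (show i < k + 1 from c2) with c' | rfl
                exacts [.inl ⟨y, .inr ⟨_, (mem _ _ _).2 (.inr ⟨rfl, c'⟩), l⟩⟩, .inr l]
          · rcases (mem _ _ _).1 a with a' | ⟨c1, c2⟩
            · exact (b ((mem _ _ _).2 (.inl a'))).elim
            · obtain rfl : j' = j := c1
              exact ⟨k + 1, c2, not_lt.1 fun c => b ((mem _ _ _).2 (.inr ⟨rfl, c⟩)), Subset.rfl⟩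
      refine T'.sub_small (s3 (D.t.m j)) ?_ (o0 _)
      rintro a ⟨y, c | ⟨x | ⟨j', i⟩, c, l⟩⟩
      · exact ⟨y, .inl c⟩
      · exact ⟨y, .inr ⟨_, .inl ⟨x, rfl⟩, l⟩⟩
      · refine ⟨y, .inr ⟨_, (mem _ _ _).2 ?_, l⟩⟩
        rcases ((mem _ _ _).1 c).resolve_right id with rfl | c
        exacts [.inr ⟨rfl, h.pre.ok.ownb a _ i l⟩, .inl c]
  refine T'.sub_small (s2 univ (toFinite _)) (fun a y => ⟨y, ?_⟩) (by omega)
  rcases e : D.t.own a with _ | x | p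
  exacts [.inl (h.hull.sm.2.2 (h.pre.rest e)), .inr ⟨_, .inl ⟨x, rfl⟩, e⟩,
    .inr ⟨_, (mem _ _ _).2 (.inl trivial), e⟩]

variable {t1 : Sh D.σ} {Q : t1.ι → Set W} {src : t1.ι → D.t.ι} {lo : t1.ι → ℕ} {n' : ℕ}

/-- an atom with a new owner lies off the hull, and so does the rest of its old part -/
theorem kept (r : D.Rel t1 Q src lo n') {a : D.σ.ε} (ha : a ∉ t1.rest) :
    a ∉ D.Ws ∧ ∀ b ∉ D.Ws, D.t.own b = D.t.own a → b ∉ t1.rest := by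
  rcases e : t1.own a with _ | x | ⟨j, i⟩
  · exact absurd e ha
  · have c := (r.cell x (r.ce ▸ r.mid.ownc a x e)).1
    have k : a ∈ D.t.ct x \ D.Ws := c ▸ e
    refine ⟨k.2, fun b b1 b2 b3 => ?_⟩
    have : b ∈ t1.ct x := c ▸ ⟨b2.trans k.1, b1⟩
    cases (show t1.own b = _ from this).symm.trans b3
  · have c := (r.bag j i (r.mid.ownb a j i e)).1
    have k : a ∈ D.t.bag (src j) (lo j + i) \ D.Ws := c ▸ e
    refine ⟨k.2, fun b b1 b2 b3 => ?_⟩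
    have : b ∈ t1.bag j i := c ▸ ⟨b2.trans k.1, b1⟩
    cases (show t1.own b = _ from this).symm.trans b3

/-- a member of the cut lies in the rest or misses it -/
theorem cut_or (h : D.Ok) (r : D.Rel t1 Q src lo n') {C : Set D.σ.ε} (hC : C ∈ Cut D.e D.T D.N) :
    C ⊆ t1.rest ∨ Disjoint C t1.rest := by
  by_cases c : C ⊆ t1.rest
  · exact .inl c
  obtain ⟨a, a1, a2⟩ := not_subset.1 c
  obtain ⟨k1, k2⟩ := kept r a2
  rcases (h.hull.cut C hC).2 with w | ⟨-, w, ⟨x, -, p⟩ | ⟨j, -, i, -, p, -⟩⟩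
  · exact absurd (w a1) k1
  all_goals exact .inr (disjoint_left.2 fun b hb =>
    k2 b (disjoint_left.1 w hb) ((show D.t.own b = _ from p hb).trans (Eq.symm (p a1))))

end FCore

open FCore

theorem fCoreS : FCoreS := by
  intro D t1 Q src lo n' K A A' ρ h r hR hO hA hθ h1 h2
  set Y := t1.rest \ Out D.e D.T D.N with hY
  set M : Set (Set D.σ.ε) := {C | C ∈ Cut D.e D.T D.N ∧ D.e ∉ C ∧ C ⊆ Y}
  have sy := D.σ.sym
  have hd : M.PairwiseDisjoint id := (cut_disj sy).subset fun _ k => k.1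
  obtain ⟨Y', hY', hu⟩ : ∃ Y' : Set (parts M), (∀ P, P.1 ⊆ Y → P ∈ Y') ∧ up Y' = Y :=
    ⟨{P | P.1 ⊆ Y}, fun _ => id, up_sub fun _ k => .inl k.2.2⟩
  have fY : D.σ.f Y ≤ ρ.length :=
    (ncard_le_ncard h1 (List.finite_toSet ρ)).trans (len_le ρ)
  have hb : ∀ P : parts M, InA (A ∪ A') (D.σ.un P.1) (D.σ.bd P.1) ∧ D.σ.f P.1 ≤ 2 * D.n + K := by
    have mo : ∀ {B : Set Lab} {X R}, B ⊆ A ∪ A' → InA B X R → InA (A ∪ A') X R := fun s k =>
      k.imp_right fun ⟨l, a, l', b, c⟩ => ⟨l, a, l', s b, c⟩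
    rintro ⟨P, p | ⟨a, p, rfl⟩⟩
    · exact ⟨mo subset_union_right (hA P p.1 p.2.1), by
        have := (h.hull.cut P p.1).1
        change D.σ.f P ≤ _
        omega⟩
    · have e : D.σ.un {a} = D.σ.pc a := by simp [AG.un]
      exact ⟨mo subset_union_left (e ▸ (hO a trivial).1),
        (hO a trivial).2.trans (Nat.le_add_left _ _)⟩
  refine ⟨rfl, D.σ.quo M, Y',
    D.σ.quo_rob hd hR fun C k => robUnS _ C hR (cut_rob sy k.1), fun P _ => ?_, ?_,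
    ((D.σ.quo_un _).trans (congrArg _ hu)).symm, ?_, fun v hv => ?_⟩
  · have e : (D.σ.quo M).bd {P} = D.σ.bd P.1 :=
      (D.σ.quo_bd hd {P}).trans (congrArg D.σ.bd (up_single P))
    refine ⟨e ▸ (hb P).1, ?_⟩
    have e' : (D.σ.quo M).f {P} = D.σ.f P.1 := congrArg Set.ncard e
    have := (hb P).2
    omega
  · rw [AG.quo_inc, add_assoc]
    refine regionS _ _ D.σ.inc D.θ _ M _ D.σ.inc_fin hd (fun C k => cut_rob sy k.1)
      (fun P _ => (hb P).2) fun T' hT => ?_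
    rw [hu] at hT
    by_cases c : T' ∈ D.N
    · obtain ⟨C, c1, c2⟩ := big_on_cut (e := D.e) (T := D.T) sy c fun k => h.hull.nt (k ▸ c)
      have nd : ¬ Disjoint C Y := fun k => T'.not_both (hT C (T'.compl_ord sy c2) k) c2
      have ne : D.e ∉ C := fun k => nd (out_eq sy c1 k ▸ disjoint_sdiff_right)
      have sub : C ⊆ Y := subset_sdiff.2 ⟨(cut_or h r c1).resolve_right fun k =>
        nd (k.mono_right sdiff_subset), out_disj sy c1 ne⟩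
      exact ⟨⟨C, .inl ⟨c1, ne, sub⟩⟩, hY' _ sub, c2⟩
    · refine absurd (hT Yᶜ (by
        have := sy.cpl Y
        change D.σ.f Yᶜ < _
        omega) disjoint_compl_left) (T'.not_both (small h (fun a ha x e => ?_) (by omega) c))
      by_contra nc
      have xc := h.pre.ok.ownc a x e
      have xk : x ∈ D.Ck := ⟨xc, fun k => k.elim (fun k => ?_) nc⟩
      · have : a ∈ t1.ct x := (r.cell x xk).1 ▸ ⟨e, ha.2⟩
        cases (show t1.own a = _ from this).symm.trans ha.1.1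
      · exact ha.2 (k.2 e)
  · rw [D.σ.quo_bd hd, hu]
    exact h1
  · have k := h2 v hv
    rw [AG.quo_vs, D.σ.quo_bd hd, hu]
    refine ⟨((D.σ.vs_un _).symm ▸ k : v ∈ VV (D.σ.un Yᶜ) ∩ Od).2, fun l => ?_⟩
    rw [AG.vs_eq] at k l
    exact ⟨l, k⟩

end Pool.Agent.MP_9d78a0_co.gm

end MrgPart8

-- marker of a merged file
example : 731051 + 867397 = 731051 + 867397 := rfl
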