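import Pool.Agent.MP_9d78a0_co.gm.SpecJ
import Pool.Agent.MP_9d78a0_co.gm.COp2
import Pool.Agent.MP_9d78a0_co.st.Ord
import Pool.Agent.MP_9d78a0_co.gm.BGrid
import Pool.Agent.MP_9d78a0_co.gm.COp
import Pool.Agent.MP_9d78a0_co.gm.FCell

-- ======== part 0: formerly Pool.Agent.MP_9d78a0_co.gm.JLoc
section MrgPart0

/-! Freeness is local. -/

set_option autoImplicit false

namespace Pool.Agent.MP_9d78a0_co.gm

open Set Function

namespace Loc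

section graph

variable {V : Type} {G : SimpleGraph V} {g : ℕ} {B : Fin g × Fin g → Set V} {D0 T : Set V}

theorem cross_sub (m : Model (fb.grid g) G D0 B) (i j : Fin g) : Cross B i j ⊆ D0 :=
  iUnion_subset fun _ => union_subset (m.1 _) (m.1 _)

/-- a closed set that misses a free cross misses the large component -/
theorem dead (hB : BigS) (m : Model (fb.grid g) G D0 B) (hT : D0 ⊆ T) {Z E : Set V}
    (cl : ∀ u ∈ E, ∀ w ∈ T \ Z, G.Adj u w → w ∈ E) {i j : Fin g} (h1 : Disjoint (Cross B i j) Z)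
    (h2 : Disjoint (Cross B i j) E) : Disjoint E (big G B T Z) := by
  obtain ⟨a, b, -, d⟩ := (hB V G g B D0 T m hT).2.1 Z
  refine disjoint_left.2 fun u hu hk => ?_
  obtain ⟨c, hc⟩ := (m.2.1 (i, j)).1
  have hc' : c ∈ Cross B i j := mem_iUnion.2 ⟨j, Or.inl hc⟩
  have key : ∀ w, Link G (big G B T Z) u w → w ∈ E := fun w h => by
    induction h with
    | refl => exact hu
    | tail _ e ih => exact cl _ ih _ (a e.2.1) e.2.2
  exact disjoint_left.1 h2 hc' (key c ((b ⟨u, hk⟩).2 u hk c (d i j h1 hc')))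

theorem comp_link {A : Set V} {a v : V} (h : Link G A a v) : Link G {w | Link G A a w} a v := by
  induction h with
  | refl => exact Link.refl _ _ _
  | tail k e ih => exact ih.trans (Link.single k (k.tail e) e.2.2)

/-- cuts may be taken among the vertices of `Nd` if the others have degree at most three -/
theorem nodes (hB : BigS) (m : Model (fb.grid g) G D0 B) (hT : D0 ⊆ T) {ι : Type} {I : Set ι}
    {σ : ι → Set V} {Nd : Set V} (hg : I.ncard < g)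
    (hσ : ∀ i ∈ I, Disjoint D0 (σ i))
    (deg : ∀ x ∈ T \ Nd, {v | G.Adj x v} ⊆ Nd ∧ {v | G.Adj x v}.Finite ∧ {v | G.Adj x v}.ncard ≤ 3)
    (h : ∀ X ⊆ Nd, X.Finite → (∀ i ∈ I, Disjoint X (σ i)) → ∀ J ⊆ I, X.ncard + J.ncard < I.ncard →
      ∃ i ∈ I \ J, (σ i ∩ big G B T (X ∪ ⋃ j ∈ J, σ j)).Nonempty) (n : ℕ) :
    ∀ X ⊆ T, (X \ Nd).ncard = n → X.Finite → (∀ i ∈ I, Disjoint X (σ i)) → ∀ J ⊆ I,
      X.ncard + J.ncard < I.ncard →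
      ∃ i ∈ I \ J, (σ i ∩ big G B T (X ∪ ⋃ j ∈ J, σ j)).Nonempty := by
  induction n using Nat.strong_induction_on with
  | _ n ih =>
  intro X hX hn hf hd J hJ hc
  by_cases e : X ⊆ Nd
  · exact h X e hf hd J hJ hc
  obtain ⟨x, hx, hxn⟩ := not_subset.1 e
  by_contra bad
  have bad' : ∀ i ∈ I, i ∉ J → ∀ w ∈ σ i, w ∉ big G B T (X ∪ ⋃ j ∈ J, σ j) :=
    fun i hi hj w hw hk => bad ⟨i, ⟨hi, hj⟩, w, hw, hk⟩
  obtain ⟨k1, -, k3, k4⟩ := (hB V G g B D0 T m hT).2.1 (X ∪ ⋃ j ∈ J, σ j)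
  have cr := (hB V G g B D0 T m hT).2.2.2.1
  generalize big G B T (X ∪ ⋃ j ∈ J, σ j) = K at bad' k1 k3 k4
  obtain ⟨d1, d2, d3⟩ := deg x ⟨hX hx, hxn⟩
  have c1 := ncard_sdiff_singleton_add_one hx hf
  have step : ∀ (A : Set V) (J' : Set ι) (b : Prop), A ⊆ T ∩ {v | G.Adj x v} → A.ncard ≤ 1 →
      (∀ i ∈ I, Disjoint A (σ i)) → J ⊆ J' → J' ⊆ I → A.ncard + J'.ncard ≤ J.ncard + 1 →
      (¬ b → ∀ u ∈ (T \ (X ∪ ⋃ j ∈ J, σ j)) \ K, G.Adj x u → u ∈ A ∪ ⋃ j ∈ J', σ j) →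
      (b → ∀ u ∈ K, G.Adj x u → u ∈ A) → False := by
    intro A J' b a1 a2 a3 j1 j2 a4 b1 b2
    have af : A.Finite := d2.subset fun _ k => (a1 k).2
    have c2 := ncard_union_le (X \ {x}) A
    have c3 := ncard_union_le X A
    have lt : (((X \ {x}) ∪ A) \ Nd).ncard < n := by
      rw [← hn]
      refine ncard_lt_ncard ⟨fun w k => ⟨k.1.elim (·.1) fun k' => (k.2 (d1 (a1 k').2)).elim, k.2⟩,
        fun k => ?_⟩ (hf.subset sdiff_subset)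
      exact (k ⟨hx, hxn⟩).1.elim (fun k' => k'.2 rfl) fun k' => hxn (d1 (a1 k').2)
    obtain ⟨i, hi, w, hw, hk⟩ := ih _ lt ((X \ {x}) ∪ A)
      (union_subset (sdiff_subset.trans hX) fun _ k => (a1 k).1) rfl
      ((hf.subset sdiff_subset).union af)
      (fun i hi => disjoint_union_left.2 ⟨(hd i hi).mono_left sdiff_subset, a3 i hi⟩) J' j2 (by omega)
    obtain ⟨i0, j0, hc0⟩ := cr (X ∪ A) (hf.union af) (by omega)
    have cσ : ∀ J0 ⊆ I, Disjoint (Cross B i0 j0) (⋃ j ∈ J0, σ j) := fun J0 k =>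
      disjoint_iUnion₂_right.2 fun j hj => (hσ j (k hj)).mono_left (cross_sub m _ _)
    have cK := k4 i0 j0 (disjoint_union_right.2 ⟨hc0.mono_right subset_union_left, cσ J hJ⟩)
    have sJ : (⋃ j ∈ J, σ j) ⊆ ⋃ j ∈ J', σ j := biUnion_subset_biUnion_left j1
    have old : ∀ w ∈ T \ (((X \ {x}) ∪ A) ∪ ⋃ j ∈ J', σ j), w ≠ x → w ∈ T \ (X ∪ ⋃ j ∈ J, σ j) :=
      fun w k ne => ⟨k.1, fun k' => k.2 (k'.elim (fun k2 => Or.inl (Or.inl ⟨k2, ne⟩))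
        fun k2 => Or.inr (sJ k2))⟩
    have dd := dead hB m hT (Z := ((X \ {x}) ∪ A) ∪ ⋃ j ∈ J', σ j)
      (E := {w | (w ∈ (T \ (X ∪ ⋃ j ∈ J, σ j)) \ K ∨ (b ∧ w = x)) ∧
        w ∉ ((X \ {x}) ∪ A) ∪ ⋃ j ∈ J', σ j}) (i := i0) (j := j0) ?_
      (disjoint_union_right.2 ⟨hc0.mono_right (union_subset_union_left _ sdiff_subset), cσ J' j2⟩)
      (disjoint_left.2 fun w k k' => k'.1.elim (fun k2 => k2.2 (cK k))
        fun k2 => disjoint_left.1 hc0 k (Or.inl (k2.2 ▸ hx)))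
    · have hw' := ((hB V G g B D0 T m hT).2.1 _).1 hk
      exact disjoint_left.1 dd ⟨Or.inl ⟨old w hw' fun k => disjoint_left.1 (hd i hi.1) (k ▸ hx) hw,
        bad' i hi.1 (fun k => hi.2 (j1 k)) w hw⟩, hw'.2⟩ hk
    · rintro u ⟨hu | ⟨hb, rfl⟩, hu'⟩ w hw' ad
      · by_cases e : w = x
        · subst e
          by_cases hb : b
          · exact ⟨Or.inr ⟨hb, rfl⟩, hw'.2⟩
          · exact (hu' ((b1 hb u hu ad.symm).elim (fun k => Or.inl (Or.inr k)) Or.inr)).elim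
        · exact ⟨Or.inl ⟨old w hw' e, fun k => hu.2 (k3 w k u hu.1 ad.symm)⟩, hw'.2⟩
      · exact ⟨Or.inl ⟨old w hw' ad.ne', fun k => hw'.2 (Or.inl (Or.inr (b2 hb w k ad)))⟩, hw'.2⟩
  have c4 : ({v | G.Adj x v} ∩ K).ncard + ({v | G.Adj x v} \ K).ncard ≤ 3 := by
    rwa [ncard_inter_add_ncard_sdiff_eq_ncard _ _ d2]
  by_cases q : ({v | G.Adj x v} ∩ K).ncard ≤ 1
  · exact step ({v | G.Adj x v} ∩ K) J True (fun _ k => ⟨(k1 k.2).1, k.1⟩) q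
      (fun i hi => disjoint_left.2 fun w k k' => by
        by_cases e : i ∈ J
        exacts [(k1 k.2).2 (Or.inr (mem_biUnion e k')), bad' i hi e w k' k.2])
      subset_rfl hJ (by omega) (fun k => (k trivial).elim) fun _ u k k' => ⟨k', k⟩
  have q' : ({v | G.Adj x v} ∩ ((T \ (X ∪ ⋃ j ∈ J, σ j)) \ K)).ncard ≤ 1 :=
    (ncard_le_ncard (t := {v | G.Adj x v} \ K) (fun _ k => ⟨k.1, k.2.2⟩)
      (d2.subset sdiff_subset)).trans (by omega)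
  by_cases r : ∀ i ∈ I, Disjoint ({v | G.Adj x v} ∩ ((T \ (X ∪ ⋃ j ∈ J, σ j)) \ K)) (σ i)
  · exact step _ J False (fun _ k => ⟨k.2.1.1, k.1⟩) q' r subset_rfl hJ (by omega)
      (fun _ u k k' => Or.inl ⟨k', k⟩) False.elim
  simp only [not_forall, not_disjoint_iff] at r
  obtain ⟨i, hi, v, hv, hv'⟩ := r
  have c5 := ncard_insert_le i J
  refine step ∅ (insert i J) False (empty_subset _) (by simp) (fun _ _ => empty_disjoint _)
    (subset_insert _ _) (insert_subset hi hJ) (by rw [ncard_empty]; omega)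
    (fun _ u k k' => Or.inr (mem_biUnion (mem_insert i J) ?_)) False.elim
  rwa [(ncard_le_one (d2.subset inter_subset_left)).1 q' u ⟨k', k⟩ v hv]

end graph

/-- counting over groups -/
theorem count {α β γ : Type} {Γ : Set γ} (hΓ : Γ.Finite) (I : γ → Set α) (P : γ → Set β) :
    ∀ (X : Set β) (J : Set α), X.Finite → J.Finite →
    (∀ y ∈ Γ, ∀ y' ∈ Γ, y ≠ y' → Disjoint (X ∩ P y) (P y') ∧ Disjoint (J ∩ I y) (I y')) →
    (∀ y ∈ Γ, (I y).ncard ≤ (X ∩ P y).ncard + (J ∩ I y).ncard) →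
    (⋃ y ∈ Γ, I y).ncard ≤ X.ncard + J.ncard := by
  induction Γ, hΓ using Set.Finite.induction_on with
  | empty => intros; simp
  | @insert a Γ ha _ ih =>
    intro X J hX hJ hd hc
    rw [biUnion_insert]
    have c1 := ncard_union_le (I a) (⋃ y ∈ Γ, I y)
    have c2 := hc a (mem_insert _ _)
    have c3 := ncard_inter_add_ncard_sdiff_eq_ncard X (P a) hX
    have c4 := ncard_inter_add_ncard_sdiff_eq_ncard J (I a) hJ
    have c5 := ih (X \ P a) (J \ I a) (hX.subset sdiff_subset) (hJ.subset sdiff_subset)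
      (fun y hy y' hy' ne => let k := hd y (Or.inr hy) y' (Or.inr hy') ne
        ⟨k.1.mono_left (inter_subset_inter_left _ sdiff_subset),
          k.2.mono_left (inter_subset_inter_left _ sdiff_subset)⟩) fun y hy => by
        have k := hd y (Or.inr hy) a (mem_insert _ _) fun e => ha (e ▸ hy)
        refine (hc y (Or.inr hy)).trans (add_le_add (ncard_le_ncard ?_ ?_) (ncard_le_ncard ?_ ?_))
        exacts [fun w e => ⟨⟨e.1, disjoint_left.1 k.1 e⟩, e.2⟩, hX.subset fun _ e => e.1.1,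
          fun w e => ⟨⟨e.1, disjoint_left.1 k.2 e⟩, e.2⟩, hJ.subset fun _ e => e.1.1]
    omega

section sk

variable {s : Sk} {Y : Set MV} {u w : MV}

theorem adj_vt (h : s.Ok) (a : s.G.Adj u w) : u ∈ s.Vt ∧ w ∈ s.Vt ∧ (u ∈ s.Nd ↔ w ∉ s.Nd) := by
  obtain ⟨f, hf, rfl, rfl⟩ := FM.exists_adj h.hm.ok a
  exact ⟨⟨f, hf, rfl⟩, ⟨_, h.hm.ok.a_mem hf, rfl⟩, h.bip f hf⟩

theorem not_nd (k : u ∈ range (Sum.inr : ℕ → MV)) : u ∉ s.Nd := by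
  rintro ⟨-, v, rfl⟩
  obtain ⟨n, e⟩ := k
  cases e

theorem mem_site (hY : Y ⊆ s.Ce) : w ∈ (s.site Y).T ↔ w ∈ s.T ∧ w ∉ Y :=
  ⟨fun k => k.elim (fun k => ⟨Or.inl k, fun k' => not_nd (hY k').1.2 k⟩) fun k =>
    ⟨Or.inr ⟨k.1, fun k' => k.2 (k'.elim (fun e => Or.inl (Or.inl e)) Or.inr)⟩,
      fun k' => k.2 (Or.inl (Or.inr k'))⟩,
    fun k => k.1.elim Or.inl fun k' => Or.inr ⟨k'.1, fun e => e.elim
      (fun e => e.elim (fun e => k'.2 (Or.inl e)) k.2) fun e => k'.2 (Or.inr e)⟩⟩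

theorem mem_T (k : w ∈ s.Vt) (h1 : w ∉ s.H) (h2 : w ∉ s.Rm) : w ∈ s.T := by
  rcases w with v | n
  exacts [Or.inl ⟨k, v, rfl⟩, Or.inr ⟨⟨k, n, rfl⟩, fun e => e.elim h1 h2⟩]

theorem of_T (h : s.Ok) (k : w ∈ s.T) : w ∈ s.Vt ∧ w ∉ s.H ∧ w ∉ s.Rm :=
  k.elim (fun k => ⟨k.1, fun e => not_nd (h.hr.1 e) k, fun e => not_nd (h.hr.2.1 e) k⟩)
    fun k => ⟨k.1.1, fun e => k.2 (Or.inl e), fun e => k.2 (Or.inr e)⟩

theorem far_rad (h : s.Ok) {f : s.Φ} (hf : f ∈ s.M.S) (k : s.vx f ∉ s.Nd) {D : Set MV}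
    (hD : s.vx f ∈ D) : Sum.inl (s.far f) ∈ s.M.rad s.vx D :=
  ⟨f, hf, hD, s.M.a f, Relation.ReflTransGen.single (Or.inl rfl), Sk.vx_far h hf k⟩

end sk

section sh

variable {σ : AG} {t : Sh σ} {Y : Set MV} {C : t.ι → ℕ → Prop}

theorem phi_fl (h : t.Ok) (j : t.ι) (i : ℕ) : t.φ j i ∈ t.s.M.fl t.s.vx t.s.H := by
  have hM := h.ok.hm.ok
  have k := (rotS _ _ hM _ (h.hole j).1).1 i
  exact ⟨hM.vo_mem (h.hole j).1 k, (h.ok.hm.lbl.of_vo hM (h.hole j).1 k).symm ▸ (h.hole j).2⟩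

/-- the terminals with sites -/
theorem tI_site (h : t.Ok) (hY : Y ⊆ t.s.Ce) :
    (t.site Y).tI C = t.tI C ∪ ⋃ y ∈ Y, Sum.inr '' t.s.nb y := by
  have hM := h.ok.hm.ok
  ext i
  constructor
  · rintro (k | ⟨_, ⟨f, ⟨⟨hf, k | k⟩, k'⟩, rfl⟩, rfl⟩)
    · exact Or.inl (Or.inl k)
    · exact Or.inl (Or.inr ⟨_, ⟨f, ⟨⟨hf, k⟩, k'⟩, rfl⟩, rfl⟩)
    · exact Or.inr (mem_biUnion k ⟨_, Sk.far_mem_nb h.ok hf (not_nd (hY k).1.2), rfl⟩)
  · rintro ((k | ⟨_, ⟨f, ⟨⟨hf, k⟩, k'⟩, rfl⟩, rfl⟩) | k)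
    · exact Or.inl k
    · exact Or.inr ⟨_, ⟨f, ⟨⟨hf, Or.inl k⟩, k'⟩, rfl⟩, rfl⟩
    · obtain ⟨y, hy, v, hv, rfl⟩ := mem_iUnion₂.1 k
      obtain ⟨f, hf, rfl, -, rfl⟩ := Sk.exists_far h.ok hv
      refine Or.inr ⟨_, ⟨f, ⟨⟨hf, Or.inr hy⟩, fun j i _ => ⟨fun e => ?_, fun e => ?_⟩⟩, rfl⟩, rfl⟩
      · exact (hY hy).2 (Or.inl (e ▸ (phi_fl h j i).2))
      · refine (hY hy).2 (Or.inl ?_)
        rw [show f = t.s.M.c (t.φ j i) from e, h.ok.hm.lbl.c hM (phi_fl h j i).1]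
        exact (phi_fl h j i).2

end sh

/-- terminals hang at the holes -/
theorem term (hT : TameS) {p : Par} (x : TM p) {C : x.t.ι → ℕ → Prop} {i : (x.t.ι × ℕ) ⊕ W}
    (hi : i ∈ x.t.tI C) {w : MV} (hw : w ∈ x.t.seg C i) : w ∈ x.t.s.M.rad x.t.s.vx x.t.s.H ∧
    ∃ h ∈ x.t.s.H, ∃ v ∈ x.t.seg C i, x.t.s.G.Adj h v ∧ (w = v ∨ x.t.s.G.Adj v w) := by
  obtain ⟨n, hn⟩ := hT p
  obtain ⟨-, -, -, -, -, -, -, -, -, -, -, -, sd, -⟩ := hn x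
  have h := x.h.ok
  rcases hi with ⟨⟨j, a⟩, -, rfl⟩ | ⟨_, ⟨f, ⟨⟨hf, k⟩, -⟩, rfl⟩, rfl⟩
  · obtain ⟨i, h1, h2, h3, e⟩ := hw
    have k := phi_fl h j i
    have k' := not_nd (s := x.t.s) (h.ok.hr.1 k.2)
    refine ⟨?_, _, k.2, Sum.inl (x.t.u j i), ⟨i, h1, h2, h3, Or.inl rfl⟩,
      Sk.far_mem_nb h.ok k.1 k', ?_⟩
    · rcases e with rfl | ⟨e, rfl⟩
      exacts [far_rad h.ok k.1 k' k.2, (sd j (i - 1) (by dsimp only at *; omega)).2.2.2.2.2.2.1]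
    · rcases e with rfl | ⟨e, rfl⟩
      · exact Or.inl rfl
      · have := (sd j (i - 1) (by dsimp only at *; omega)).2.2.2.2.2.1
        rw [show i - 1 + 1 = i by dsimp only at *; omega] at this
        exact Or.inr (SimpleGraph.Adj.symm this)
  · obtain rfl : w = Sum.inl (x.t.s.far f) := hw
    have k' := not_nd (s := x.t.s) (h.ok.hr.1 k)
    exact ⟨far_rad h.ok hf k' k, _, k, _, rfl, Sk.far_mem_nb h.ok hf k', Or.inl rfl⟩

theorem main (hT : TameS) (hB : BigS) {p : Par} (x : TM p) {g R : ℕ} {B : Fin g × Fin g → Set MV}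
    {Y U0 : Set MV} {C : x.t.ι → ℕ → Prop} {I' : Set ((x.t.ι × ℕ) ⊕ W)}
    (eI : I' = x.t.tI C ∪ ⋃ y ∈ Y, Sum.inr '' x.t.s.nb y) (hY : Y ⊆ x.t.s.Ce)
    (hG : (x.t.s.site Y).Grid B) (hF : x.t.s.M.Frame x.t.s.vx B (x.t.s.H ∪ Y) R U0)
    (hI : I'.Finite) (hR : I'.ncard + 2 ≤ R) (hg : R + 2 ≤ g) (hP : ∀ y ∈ Y, x.t.s.NoPk B y)
    (hFr : x.t.Fr B C x.t.s.Nd) :
    x.t.s.M.Free x.t.s.vx B (x.t.s.site Y).T (x.t.s.site Y).T I' (x.t.seg C) := by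
  have h := x.h.ok
  have ok := h.ok
  have hM := ok.hm.ok
  obtain ⟨n, hn⟩ := hT p
  obtain ⟨-, -, -, -, -, -, -, -, -, -, -, -, -, -, -, -, rmb⟩ := hn x
  have m : Model (fb.grid g) x.t.s.G
    ((x.t.s.site Y).T \ x.t.s.M.rad x.t.s.vx (x.t.s.H ∪ Y)) B := hG
  have fnb : ∀ y ∈ x.t.s.Ce, (x.t.s.nb y).Finite ∧ (x.t.s.nb y).ncard ≤ 3 :=
    fun y hy => (h.solid y hy).1.card
  have rad : ∀ i ∈ I', x.t.seg C i ⊆ x.t.s.M.rad x.t.s.vx (x.t.s.H ∪ Y) := by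
    intro i hi w hw
    rcases eI ▸ hi with k | k
    · exact FM.rad_mono subset_union_left (term hT x k hw).1
    · obtain ⟨y, hy, v, hv, rfl⟩ := mem_iUnion₂.1 k
      obtain ⟨f, hf, rfl, -, rfl⟩ := Sk.exists_far ok hv
      obtain rfl : w = Sum.inl (x.t.s.far f) := hw
      exact far_rad ok hf (not_nd (hY hy).1.2) (Or.inr hy)
  have hσ : ∀ i ∈ I', Disjoint
      ((x.t.s.site Y).T \ x.t.s.M.rad x.t.s.vx (x.t.s.H ∪ Y)) (x.t.seg C i) :=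
    fun i hi => disjoint_left.2 fun w k k' => k.2 (rad i hi k')
  refine fun X hX => nodes (Nd := x.t.s.Nd) (σ := x.t.seg C) hB m sdiff_subset (by omega) hσ
    ?_ ?_ _ X hX rfl
  · intro y hy
    have hc : y ∈ x.t.s.Ce := ((mem_site hY).1 hy.1).1.resolve_left hy.2
    have e : {v | x.t.s.G.Adj y v} = Sum.inl '' x.t.s.nb y := by
      ext v
      refine ⟨fun a => ?_, ?_⟩
      · obtain ⟨-, v, rfl⟩ : v ∈ x.t.s.Nd := by_contra fun k => hy.2 ((adj_vt ok a).2.2.2 k)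
        exact ⟨v, a, rfl⟩
      · rintro ⟨v, a, rfl⟩
        exact a
    refine ⟨fun v a => by_contra fun k => hy.2 ((adj_vt ok a).2.2.2 k), ?_⟩
    rw [e, ncard_image_of_injective _ Sum.inl_injective]
    exact ⟨(fnb y hc).1.image _, (fnb y hc).2⟩
  clear hX X
  intro X hX hf hd J hJ hc
  by_contra bad
  have sT : (x.t.s.site Y).T ⊆ x.t.s.T := fun _ k => ((mem_site hY).1 k).1
  obtain ⟨k1, -, k3, k4⟩ := (hB _ _ g B _ _ m sdiff_subset).2.1 (X ∪ ⋃ j ∈ J, x.t.seg C j)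
  obtain ⟨i0, j0, hc0⟩ := (hB _ _ g B _ _ m sdiff_subset).2.2.2.1 X hf (by omega)
  have cZ : Disjoint (Cross B i0 j0) (X ∪ ⋃ j ∈ J, x.t.seg C j) := disjoint_union_right.2 ⟨hc0,
    disjoint_iUnion₂_right.2 fun j hj => (hσ j (hJ hj)).mono_left (cross_sub m _ _)⟩
  have cK := k4 i0 j0 cZ
  have all : ∀ i ∈ I', ∀ w ∈ x.t.seg C i,
      w ∉ big x.t.s.G B (x.t.s.site Y).T (X ∪ ⋃ j ∈ J, x.t.seg C j) := fun i hi w hw hk => by
    by_cases e : i ∈ J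
    exacts [(k1 hk).2 (Or.inr (mem_biUnion e hw)), bad ⟨i, ⟨hi, e⟩, w, hw, hk⟩]
  have eK : big x.t.s.G B (x.t.s.M.tv x.t.s.vx (x.t.s.H ∪ Y))
      (X ∪ ((⋃ j ∈ J, x.t.seg C j) ∪ x.t.s.Rm ∩ x.t.s.Vt)) =
      big x.t.s.G B (x.t.s.site Y).T (X ∪ ⋃ j ∈ J, x.t.seg C j) := by
    rw [← union_assoc, ← (hB _ _ g B _ (x.t.s.M.tv x.t.s.vx (x.t.s.H ∪ Y)) m fun w k =>
      ⟨(of_T ok (sT k.1)).1, fun e => e.elim (of_T ok (sT k.1)).2.1
        ((mem_site hY).1 k.1).2⟩).2.2.1 _ _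
      (disjoint_left.2 fun w k k' => (of_T ok (sT k.1)).2.2 k'.1)]
    congr 1
    ext w
    rw [mem_site hY]
    exact ⟨fun k => ⟨mem_T k.1.1 (fun e => k.1.2 (Or.inl e)) fun e => k.2 ⟨e, k.1.1⟩,
      fun e => k.1.2 (Or.inr e)⟩, fun k => ⟨⟨(of_T ok k.1).1,
        fun e => e.elim (of_T ok k.1).2.1 k.2⟩, fun e => (of_T ok k.1).2.2 e.1⟩⟩
  generalize big x.t.s.G B (x.t.s.site Y).T (X ∪ ⋃ j ∈ J, x.t.seg C j) = K at *
  have hK : ∀ a ∈ x.t.s.H ∪ Y, a ∉ K := fun a ha k =>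
    ha.elim (of_T ok (sT (k1 k).1)).2.1 ((mem_site hY).1 (k1 k).1).2
  have sep : ∀ a ∈ x.t.s.H ∪ Y, a ∈ x.t.s.Vt → ∀ b ∈ x.t.s.H ∪ Y, Link x.t.s.G Kᶜ a b → a = b := by
    intro a ha va b hb l
    refine farS _ _ x.t.s.M x.t.s.vx (x.t.s.H ∪ Y) U0 g R B hM ok.hm.lbl hF (by omega) X
      ((⋃ j ∈ J, x.t.seg C j) ∪ x.t.s.Rm ∩ x.t.s.Vt) {w | Link x.t.s.G Kᶜ a w}
      {w | Link x.t.s.G Kᶜ a w} hf (by omega) ?_ a ⟨⟨ha, Link.refl _ _ _⟩, va⟩ b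
      ⟨⟨hb, l⟩, FM.link_img hM l va⟩ (fun v k => comp_link k)
      (fun v k => (comp_link l).symm.trans (comp_link k)) ?_ ?_
    · refine union_subset (iUnion₂_subset fun j hj => rad j (hJ hj)) fun w k => ?_
      obtain ⟨-, -, -, -, -, -, -, -, -, -, -, -, -, -, -, rm, -⟩ := hn x
      exact FM.rad_mono subset_union_left (rm k)
    · rw [union_self]
      exact disjoint_left.2 fun w k k' => Link.mem k (hK a ha) (eK ▸ k')
    · obtain ⟨f, hf, rfl⟩ := va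
      exact ⟨_, ⟨f, hf, Link.refl _ _ _, f, .refl, rfl⟩, f, hf, Link.refl _ _ _, f, .refl, rfl⟩
  have yV : ∀ y ∈ Y, y ∈ x.t.s.Vt := fun y hy => (hY hy).1.1
  have sepH : ∀ y ∈ Y, ∀ a ∈ x.t.s.H, ¬ Link x.t.s.G Kᶜ y a := fun y hy a ha l =>
    (hY hy).2 (Or.inl (sep y (Or.inr hy) (yV y hy) a (Or.inl ha) l ▸ ha))
  have sI : x.t.tI C ⊆ I' := eI ▸ subset_union_left
  have sY : ∀ y ∈ Y, ∀ v ∈ x.t.s.nb y, Sum.inr v ∈ I' := fun y hy v hv =>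
    eI ▸ Or.inr (mem_biUnion hy ⟨v, hv, rfl⟩)
  have tH : ∀ i ∈ x.t.tI C, ∀ w ∈ x.t.seg C i, ∃ a ∈ x.t.s.H, Link x.t.s.G Kᶜ a w := by
    intro i hi w hw
    obtain ⟨-, a, ha, v, hv, ad, e⟩ := term hT x hi hw
    have l : Link x.t.s.G Kᶜ a v := Link.single (hK a (Or.inl ha)) (all i (sI hi) v hv) ad
    rcases e with rfl | e
    exacts [⟨a, ha, l⟩, ⟨a, ha, l.trans (Link.single (all i (sI hi) v hv) (all i (sI hi) w hw) e)⟩]
  have tY : ∀ y ∈ Y, ∀ v ∈ x.t.s.nb y, Link x.t.s.G Kᶜ y (Sum.inl v) := fun y hy v hv =>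
    Link.single (hK y (Or.inr hy)) (all _ (sY y hy v hv) _ rfl) hv
  have tJ : ∀ j ∈ J, ∀ w ∈ x.t.seg C j, j ∈ x.t.tI C ∨
      ∃ y ∈ Y, ∃ v ∈ x.t.s.nb y, j = Sum.inr v ∧ w = Sum.inl v := fun j hj w hw =>
    (eI.subset (hJ hj)).elim Or.inl fun k => Or.inr <| by
      obtain ⟨y, hy, v, hv, rfl⟩ := mem_iUnion₂.1 k
      exact ⟨y, hy, v, hv, rfl, hw⟩
  have fJ : J.Finite := hI.subset hJ
  have gH : (x.t.tI C).ncard ≤ (X ∩ {w | ∃ a ∈ x.t.s.H, Link x.t.s.G Kᶜ a w}).ncard +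
      (J ∩ x.t.tI C).ncard := by
    by_contra lt
    obtain ⟨i, hi, w, hw, hk⟩ := hFr (X ∩ {w | ∃ a ∈ x.t.s.H, Link x.t.s.G Kᶜ a w})
      (fun _ k => hX k.1) (hf.subset inter_subset_left)
      (fun i hi => (hd i (sI hi)).mono_left inter_subset_left) (J ∩ x.t.tI C) inter_subset_right
      (by omega)
    have mem : ∀ w, (∃ a ∈ x.t.s.H, Link x.t.s.G Kᶜ a w) →
        w ∉ (X ∩ {w | ∃ a ∈ x.t.s.H, Link x.t.s.G Kᶜ a w}) ∪ ⋃ j ∈ J ∩ x.t.tI C, x.t.seg C j →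
        w ∉ Y ∧ w ∉ X ∪ ⋃ j ∈ J, x.t.seg C j := by
      rintro w ⟨a, ha, l⟩ k
      refine ⟨fun e => sepH w e a ha l.symm, fun e => e.elim (fun e => k (Or.inl ⟨e, a, ha, l⟩))
        fun e => ?_⟩
      obtain ⟨j, hj, e⟩ := mem_iUnion₂.1 e
      rcases tJ j hj w e with k' | ⟨y, hy, v, hv, rfl, rfl⟩
      exacts [k (Or.inr (mem_biUnion ⟨hj, k'⟩ e)), sepH y hy a ha ((tY y hy v hv).trans l.symm)]
    have hw' := ((hB _ _ g B _ x.t.s.T m fun _ k => sT k.1).2.1 _).1 hk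
    refine disjoint_left.1 (dead hB m (fun _ k => sT k.1) (i := i0) (j := j0)
      (E := {w | (∃ a ∈ x.t.s.H, Link x.t.s.G Kᶜ a w) ∧ w ∈ x.t.s.T \
        ((X ∩ {w | ∃ a ∈ x.t.s.H, Link x.t.s.G Kᶜ a w}) ∪ ⋃ j ∈ J ∩ x.t.tI C, x.t.seg C j)}) ?_
      (cZ.mono_right (union_subset_union inter_subset_left
        (biUnion_subset_biUnion_left (t := x.t.seg C) inter_subset_left)))
      (disjoint_left.2 fun w k ⟨⟨a, ha, l⟩, _⟩ => l.mem (hK a (Or.inl ha)) (cK k)))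
      ⟨tH i hi.1 w hw, hw'⟩ hk
    rintro u ⟨⟨a, ha, l⟩, hu⟩ w hw ad
    have k := mem u ⟨a, ha, l⟩ hu.2
    have uK := l.mem (hK a (Or.inl ha))
    exact ⟨⟨a, ha, l.trans (Link.single uK
      (fun e => uK (k3 w e u ⟨(mem_site hY).2 ⟨hu.1, k.1⟩, k.2⟩ ad.symm)) ad)⟩, hw⟩
  have gY : ∀ y ∈ Y, (Sum.inr '' x.t.s.nb y : Set ((x.t.ι × ℕ) ⊕ W)).ncard ≤
      (X ∩ {w | Link x.t.s.G Kᶜ y w}).ncard + (J ∩ Sum.inr '' x.t.s.nb y).ncard := by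
    intro y hy
    by_contra lt
    have c1 : (Sum.inr '' x.t.s.nb y : Set ((x.t.ι × ℕ) ⊕ W)).ncard ≤ 3 := by
      rw [ncard_image_of_injective _ Sum.inr_injective]; exact (fnb y (hY hy)).2
    have yK := hK y (Or.inr hy)
    have yN : y ∉ x.t.s.Nd := not_nd (hY hy).1.2
    have zY : ∀ j ∈ J, ∀ w ∈ x.t.seg C j, Link x.t.s.G Kᶜ y w →
        ∃ v ∈ x.t.s.nb y, j = Sum.inr v ∧ w = Sum.inl v := fun j hj w hw l => by
      rcases tJ j hj w hw with k | ⟨y', hy', v, hv, rfl, rfl⟩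
      · obtain ⟨a, ha, l'⟩ := tH j k w hw
        exact (sepH y hy a ha (l.trans l'.symm)).elim
      · obtain rfl := sep y (Or.inr hy) (yV y hy) y' (Or.inr hy') (l.trans (tY y' hy' v hv).symm)
        exact ⟨v, hv, rfl, rfl⟩
    have yZ : y ∈ Kᶜ \ (X ∪ ⋃ j ∈ J, x.t.seg C j) := ⟨yK, fun e => e.elim (fun e => yN (hX e))
      fun e => by
        obtain ⟨j, hj, e⟩ := mem_iUnion₂.1 e
        obtain ⟨v, -, -, rfl⟩ := zY j hj y e (Link.refl _ _ _)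
        exact yN ⟨yV _ hy, v, rfl⟩⟩
    obtain ⟨S, hS⟩ : ∃ S, S = {w | Link x.t.s.G (Kᶜ \ (X ∪ ⋃ j ∈ J, x.t.seg C j)) y w} := ⟨_, rfl⟩
    have s0 : y ∈ S := hS ▸ Link.refl _ _ _
    have s1 : ∀ w ∈ S, Link x.t.s.G Kᶜ y w := fun w k => Link.mono sdiff_subset (hS ▸ k :)
    have s2 : S ⊆ Kᶜ \ (X ∪ ⋃ j ∈ J, x.t.seg C j) := fun w k => Link.mem (hS ▸ k :) yZ
    have s3 : ∀ u ∈ S, ∀ w ∈ Kᶜ \ (X ∪ ⋃ j ∈ J, x.t.seg C j), x.t.s.G.Adj u w → w ∈ S :=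
      fun u hu w hw ad => hS ▸ Link.trans (hS ▸ hu :) (Link.single (s2 hu) hw ad)
    have s4 : S ⊆ x.t.s.T := fun w k => by
      refine mem_T (FM.link_img hM (s1 w k) (yV y hy)) (fun e => sepH y hy w e (s1 w k)) fun e => ?_
      rcases Relation.ReflTransGen.cases_tail (s1 w k) with e' | ⟨u, l, hu, -, ad⟩
      · exact (hY hy).2 (Or.inr (e' ▸ e))
      · obtain ⟨-, v, rfl⟩ := (adj_vt ok ad).2.2.2 (not_nd (ok.hr.2.1 e))
        obtain ⟨a, ha, ad'⟩ := rmb w e (show v ∈ x.t.s.nb w from ad.symm)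
        exact sepH y hy a ha (Link.trans l (Link.single hu (hK a (Or.inl ha))
          (SimpleGraph.Adj.symm ad')))
    have s5 : x.t.s.N S ⊆ (X ∩ {w | Link x.t.s.G Kᶜ y w}) ∪
        (fun i => Sum.inl (Sum.elim (fun _ => Sum.inl 0) id i)) ''
          (J ∩ Sum.inr '' x.t.s.nb y) ∩ ((⋃ j ∈ J, x.t.seg C j) ∩ x.t.s.Nd) := by
      rintro w ⟨hw, u, hu, ad⟩
      have wK : w ∉ K := fun e => by
        by_cases e' : u ∈ Y
        · obtain rfl := sep y (Or.inr hy) (yV y hy) u (Or.inr e') (s1 u hu)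
          obtain ⟨-, v, rfl⟩ : w ∈ x.t.s.Nd := by_contra fun k => yN ((adj_vt ok ad).2.2.2 k)
          exact all _ (sY y hy v ad) _ rfl e
        · exact (s2 hu).1 (k3 w e u ⟨(mem_site hY).2 ⟨s4 hu, e'⟩, (s2 hu).2⟩ ad.symm)
      have l := (s1 u hu).trans (Link.single (s2 hu).1 wK ad)
      rcases (by_contra fun k => hw (s3 u hu w ⟨wK, k⟩ ad) : w ∈ X ∪ ⋃ j ∈ J, x.t.seg C j)
        with e | e
      · exact Or.inl ⟨e, l⟩
      · obtain ⟨j, hj, e'⟩ := mem_iUnion₂.1 e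
        obtain ⟨v, hv, rfl, rfl⟩ := zY j hj w e' l
        exact Or.inr ⟨⟨_, ⟨hj, v, hv, rfl⟩, rfl⟩, e, (adj_vt ok ad).2.1, v, rfl⟩
    have s6 : x.t.s.N S ⊆ x.t.s.Nd := fun w k => (s5 k).elim (fun e => hX e.1) fun e => e.2.2
    have pk : x.t.s.Pk S := by
      refine ⟨s4, ⟨⟨y, s0⟩, fun u hu v hv => ?_⟩, ?_, s6, fun v hv w ad => by_contra fun k =>
        (adj_vt ok ad).2.2.1 hv.2 (s6 ⟨k, v, hv.1, ad⟩), ?_⟩
      · subst hS
        exact (comp_link hu).symm.trans (comp_link hv)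
      · obtain ⟨_, ⟨v, hv, rfl⟩, hj⟩ := not_subset.1 fun k : Sum.inr '' x.t.s.nb y ⊆ J => by
          rw [inter_eq_self_of_subset_right k] at lt; omega
        refine ⟨Sum.inl v, s3 y s0 _ ⟨all _ (sY y hy v hv) _ rfl, fun e => e.elim
          (fun e => disjoint_left.1 (hd _ (sY y hy v hv)) e rfl) fun e => ?_⟩ hv,
          (adj_vt ok hv).2.1, v, rfl⟩
        obtain ⟨j, hj', e⟩ := mem_iUnion₂.1 e
        obtain ⟨v', -, rfl, e'⟩ := zY j hj' _ e (tY y hy v hv)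
        exact hj (Sum.inl_injective e' ▸ hj')
      · have f2 := (fJ.subset (inter_subset_left (t := Sum.inr '' x.t.s.nb y))).image
          fun i => (Sum.inl (Sum.elim (fun _ => Sum.inl 0) id i) : MV)
        have c2 := (ncard_le_ncard s5 ((hf.subset inter_subset_left).union
          (f2.subset inter_subset_left))).trans ((ncard_union_le _ _).trans (add_le_add le_rfl
            ((ncard_le_ncard inter_subset_left f2).trans
              (ncard_image_le (fJ.subset inter_subset_left)))))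
        omega
    obtain ⟨w, hw, hk⟩ := hP y hy S pk s0
    exact disjoint_left.1 (dead hB m (fun _ k => sT k.1) (i := i0) (j := j0) (E := S)
      (Z := x.t.s.N S) (fun u hu w hw ad => by_contra fun k => hw.2 ⟨k, u, hu, ad⟩)
      (cZ.mono_right fun w k => (s5 k).imp (·.1) (·.2.1))
      (disjoint_left.2 fun w k k' => (s2 k').1 (cK k))) hw hk
  have fY : Y.Finite := (hM.fin.image x.t.s.vx).subset yV
  have c1 := count fY (fun y => (Sum.inr '' x.t.s.nb y : Set ((x.t.ι × ℕ) ⊕ W)))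
    (fun y => {w | Link x.t.s.G Kᶜ y w}) (X \ {w | ∃ a ∈ x.t.s.H, Link x.t.s.G Kᶜ a w})
    (J \ x.t.tI C) (hf.subset sdiff_subset) (fJ.subset sdiff_subset)
    (fun y hy y' hy' ne => ⟨disjoint_left.2 fun w k k' => ne
        (sep y (Or.inr hy) (yV y hy) y' (Or.inr hy') (Link.trans k.2 (Link.symm k'))),
      disjoint_left.2 fun w ⟨_, v, hv, e⟩ ⟨v', hv', e'⟩ => ne
        (sep y (Or.inr hy) (yV y hy) y' (Or.inr hy') ((tY y hy v hv).trans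
          (Sum.inr_injective (e'.trans e.symm) ▸ (tY y' hy' v' hv').symm)))⟩)
    fun y hy => by
      refine (gY y hy).trans (add_le_add (ncard_le_ncard ?_ ?_) (ncard_le_ncard ?_ ?_))
      · exact fun w k => ⟨⟨k.1, fun ⟨a, ha, l⟩ => sepH y hy a ha (Link.trans k.2 l.symm)⟩, k.2⟩
      · exact hf.subset fun _ e => e.1.1
      · rintro _ ⟨k, v, hv, rfl⟩
        refine ⟨⟨k, fun e => ?_⟩, v, hv, rfl⟩
        obtain ⟨a, ha, l⟩ := tH _ e _ rfl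
        exact sepH y hy a ha ((tY y hy v hv).trans l.symm)
      · exact fJ.subset fun _ e => e.1.1
  have c2 := ncard_inter_add_ncard_sdiff_eq_ncard X {w | ∃ a ∈ x.t.s.H, Link x.t.s.G Kᶜ a w} hf
  have c3 := ncard_inter_add_ncard_sdiff_eq_ncard J (x.t.tI C) fJ
  have c4 := ncard_union_le (x.t.tI C) (⋃ y ∈ Y, Sum.inr '' x.t.s.nb y)
  rw [← eI] at c4
  omega

end Loc

theorem locS (hT : TameS) (hB : BigS) (_ : PosS) : LocS :=
  fun _ x _ _ _ _ _ hY hG ⟨_, hF⟩ hI hR hg hP hFr =>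
    Loc.main hT hB x (Loc.tI_site x.h.ok hY) hY hG hF hI hR hg hP hFr

end Pool.Agent.MP_9d78a0_co.gm

end MrgPart0

-- ======== part 1: formerly Pool.Agent.MP_9d78a0_co.gm.JReal0
section MrgPart1

/-! Block J: positions of a side, and facts on one tame structure. -/

set_option autoImplicit false

namespace Pool.Agent.MP_9d78a0_co.gm

open Set Function

namespace jr

/-- position `i` of the target belongs to position `k` of the source -/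
def Bel (m0 m : ℕ) (c : ℕ → ℕ) (k i : ℕ) : Prop :=
  k ≤ m0 ∧ i ≤ m ∧ (∀ k' < k, c k' < i) ∧ ∀ k', k ≤ k' → k' < m0 → i ≤ c k'

section bel

variable {m0 m k k' i i' : ℕ} {c : ℕ → ℕ}

theorem cmono (hm : ∀ k, k + 1 < m0 → c k < c (k + 1)) (h : k < k') (h' : k' < m0) :
    c k < c k' := by
  induction h with
  | refl => exact hm _ h'
  | step _ ih => exact (ih (by omega)).trans (hm _ h')

theorem cle (hm : ∀ k, k + 1 < m0 → c k < c (k + 1)) (h : k ≤ k') (h' : k' < m0) :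
    c k ≤ c k' := h.eq_or_lt.elim (fun e => e ▸ le_rfl) fun e => (cmono hm e h').le

theorem Bel.le (h : Bel m0 m c k i) (h' : Bel m0 m c k' i') (e : i ≤ i') : k ≤ k' := by
  by_contra n
  have a := h.2.2.1 k' (by omega)
  have b := h'.2.2.2 k' le_rfl (by have := h.1; omega)
  omega

theorem Bel.uniq (h : Bel m0 m c k i) (h' : Bel m0 m c k' i) : k = k' :=
  le_antisymm (h.le h' le_rfl) (h'.le h le_rfl)

theorem bel_0 : Bel m0 m c 0 0 :=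
  ⟨Nat.zero_le _, Nat.zero_le _, fun _ h => absurd h (Nat.not_lt_zero _), fun _ _ _ => Nat.zero_le _⟩

theorem bel_m (hl : ∀ k < m0, c k < m) : Bel m0 m c m0 m :=
  ⟨le_rfl, le_rfl, hl, fun _ a b => absurd b (not_lt.2 a)⟩

theorem bel_c (hm : ∀ k, k + 1 < m0 → c k < c (k + 1)) (hl : ∀ k < m0, c k < m) (h : k < m0) :
    Bel m0 m c k (c k) :=
  ⟨h.le, (hl k h).le, fun _ a => cmono hm a h, fun _ a b => cle hm a b⟩

theorem bel_c1 (hm : ∀ k, k + 1 < m0 → c k < c (k + 1)) (hl : ∀ k < m0, c k < m) (h : k < m0) :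
    Bel m0 m c (k + 1) (c k + 1) :=
  ⟨h, hl k h, fun _ a => Nat.lt_succ_of_le (cle hm (by omega) h), fun _ a b => cmono hm a b⟩

theorem bel_ex (hm : ∀ k, k + 1 < m0 → c k < c (k + 1)) (hl : ∀ k < m0, c k < m) (h : i ≤ m) :
    ∃ k, Bel m0 m c k i := by
  induction i with
  | zero => exact ⟨0, bel_0⟩
  | succ i ih =>
    obtain ⟨k, hk⟩ := ih (by omega)
    by_cases e : k < m0 ∧ c k = i
    · exact ⟨k + 1, e.2 ▸ bel_c1 hm hl e.1⟩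
    · refine ⟨k, hk.1, h, fun k' a => (hk.2.2.1 k' a).trans (Nat.lt_succ_self _), fun k' a b => ?_⟩
      have a1 := hk.2.2.2 k le_rfl (by omega)
      have a2 := cle hm a b
      have a3 : c k ≠ i := fun d => e ⟨by omega, d⟩
      omega

theorem Bel.step (hm : ∀ k, k + 1 < m0 → c k < c (k + 1)) (h : Bel m0 m c k i)
    (h' : Bel m0 m c k' (i + 1)) : k' = k ∨ (k' = k + 1 ∧ k < m0 ∧ c k = i) := by
  have a := h.le h' (Nat.le_succ _)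
  have b := h'.1
  rcases a.eq_or_lt with e | e
  · exact Or.inl e.symm
  have a1 := h'.2.2.1 k e
  have a2 := h.2.2.2 k le_rfl (by omega)
  refine Or.inr ⟨?_, by omega, by omega⟩
  by_contra n
  have a3 := h'.2.2.1 (k + 1) (by omega)
  have a4 := hm k (by omega)
  omega

theorem Bel.nch (h : Bel m0 m c k i) (h' : Bel m0 m c k (i + 1)) (e : k' < m0) : c k' ≠ i := by
  by_cases a : k' < k
  · exact (h.2.2.1 k' a).ne
  · have := h'.2.2.2 k' (by omega) e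
    omega

theorem Bel.start (hm : ∀ k, k + 1 < m0 → c k < c (k + 1)) (h : Bel m0 m c k i) :
    start c k ≤ i ∧ ∀ i', start c k ≤ i' → i' < i → ∀ k' < m0, c k' ≠ i' := by
  unfold gm.start
  split_ifs with e
  · refine ⟨Nat.zero_le _, fun i' _ b k' d => ?_⟩
    have := h.2.2.2 k' (by omega) d
    omega
  · refine ⟨h.2.2.1 _ (by omega), fun i' a b k' d => ?_⟩
    by_cases n : k' < k
    · have := cle hm (show k' ≤ k - 1 by omega) (by have := h.1; omega)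
      omega
    · have := h.2.2.2 k' (by omega) d
      omega

end bel

theorem reach {V : Type} {G : SimpleGraph V} {D : Set V} {r w : V} (h : Link G D r w) :
    Link G {w | Link G D r w} r w := by
  induction h with
  | refl => exact Link.refl _ _ _
  | tail p q ih => exact ih.trans (Link.single p (p.tail q) q.2.2)

theorem rsymm {V : Type} {R : V → V → Prop} (h : ∀ a b, R a b → R b a) {a b : V}
    (k : Relation.ReflTransGen R a b) : Relation.ReflTransGen R b a := by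
  induction k with
  | refl => exact .refl
  | tail _ q ih => exact .head (h _ _ q) ih

section sk

variable {s : Sk} {v : W} {a b : MV}

theorem nd_of (h : Sum.inl v ∈ s.Vt) : Sum.inl v ∈ s.Nd := ⟨h, v, rfl⟩

theorem nb_vt (h : s.Ok) (k : v ∈ s.nb a) : Sum.inl v ∈ s.Vt :=
  let ⟨_, hg, _, e, _⟩ := Sk.exists_far h k; ⟨_, h.hm.ok.a_mem hg, e⟩

theorem adj_bip (h : s.Ok) (k : s.G.Adj a b) : a ∈ s.Nd ↔ b ∉ s.Nd := by
  obtain ⟨-, f, hf, ⟨rfl, rfl⟩ | ⟨rfl, rfl⟩⟩ := k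
  · exact h.bip f hf
  · rw [h.bip f hf, not_not]

theorem ce_nd (k : a ∈ s.Ce) : a ∉ s.Nd := by
  rintro ⟨-, v, rfl⟩
  obtain ⟨n, e⟩ := k.1.2
  cases e

theorem inr_nd (k : a ∈ range (Sum.inr : ℕ → MV)) : a ∉ s.Nd := by
  rintro ⟨-, v, rfl⟩
  obtain ⟨n, e⟩ := k
  cases e

theorem far_vt (h : s.Ok) {f : s.Φ} (hf : f ∈ s.M.fl s.vx s.H) : Sum.inl (s.far f) ∈ s.Vt :=
  ⟨_, h.hm.ok.a_mem hf.1, Sk.vx_far h hf.1 (inr_nd (h.hr.1 hf.2))⟩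

/-- a rim has two neighbours -/
theorem rim_nb (h : s.Ok) (k : a ∈ s.Rm) {u w : W} (h1 : u ∈ s.nb a) (h2 : w ∈ s.nb a)
    (n : u ≠ w) (h3 : v ∈ s.nb a) : v = u ∨ v = w := by
  obtain ⟨g, hg, rfl, -⟩ := Sk.exists_far h h1
  have l : (s.rts g).length = 2 := by rw [Sk.rts_length, (h.deg g hg).2 k]
  rw [← Sk.rts_set h hg (inr_nd (h.hr.2.1 k))] at h1 h2 h3
  obtain ⟨p, q, e⟩ := List.length_eq_two.1 l
  simp only [e, mem_ofPred_eq, List.mem_cons, List.not_mem_nil, or_false] at h1 h2 h3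
  rcases h1 with rfl | rfl <;> rcases h2 with rfl | rfl
  exacts [absurd rfl n, h3, h3.symm, absurd rfl n]

end sk

section sh

variable {σ : AG} (t : Sh σ)

/-- the atoms of an owner, the roots of an owner, and the shared vertices -/
def cn (o : MV ⊕ t.ι × ℕ) : Set σ.ε := {a | t.own a = some o}
def rt : MV ⊕ t.ι × ℕ → Set W := Sum.elim t.s.nb fun q => t.κ q.1 q.2 ∪ t.κ q.1 (q.2 + 1)
def Kv (w : W) : Prop := Sum.inl w ∈ t.s.Vt ∨ ∃ j, ∃ i ≤ t.m j, w ∈ t.κ j i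
def Val : MV ⊕ t.ι × ℕ → Prop := Sum.elim (· ∈ t.s.Ce) fun q => q.2 < t.m q.1

variable {t}

theorem share1 (h : t.Ok) (h0 : t.Λ = ∅) {o : MV ⊕ t.ι × ℕ} {w : W} (hw : w ∈ σ.vs (cn t o))
    (k : Kv t w ∨ ∃ o', o' ≠ o ∧ w ∈ σ.vs (cn t o')) : w ∈ rt t o := by
  obtain ⟨a, ha, hw⟩ := mem_iUnion₂.1 hw
  have := h.share a w ⟨hw, h0 ▸ notMem_empty w⟩ (by
    rcases k with (k | k) | ⟨o', n, k⟩
    · exact Or.inl k
    · exact Or.inr (Or.inl k)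
    · obtain ⟨a', ha', k⟩ := mem_iUnion₂.1 k
      refine Or.inr (Or.inr ⟨a', ?_, ?_, k⟩)
      · rw [ha, ha']; exact fun e => n (Option.some.inj e)
      · rw [ha']; exact Option.some_ne_none _)
  rcases o with x | ⟨j, i⟩
  exacts [this.1 x ha, this.2.1 j i ha]

theorem rt_kv (h : t.Ok) {o : MV ⊕ t.ι × ℕ} (ho : Val t o) {w : W} (hw : w ∈ rt t o) : Kv t w := by
  rcases o with x | ⟨j, i⟩
  · exact Or.inl (nb_vt h.ok hw)
  · exact hw.elim (fun k => Or.inr ⟨j, i, le_of_lt ho, k⟩) fun k => Or.inr ⟨j, i + 1, ho, k⟩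

theorem mk_kv (h : t.Ok) {w : W} (hw : w ∈ t.Mk) : Kv t w := by
  rcases hw with hw | ⟨f, hf, rfl⟩
  · obtain ⟨j, k | k⟩ := mem_iUnion.1 hw
    exacts [Or.inr ⟨j, 0, Nat.zero_le _, k⟩, Or.inr ⟨j, _, le_rfl, k⟩]
  · exact Or.inl (far_vt h.ok hf.1)

theorem mem_rl {j : t.ι} {i : ℕ} {v : W} : v ∈ t.rl j i ↔ v ∈ t.κ j i ∪ t.κ j (i + 1) := by
  simp only [Sh.rl, Sh.κ, List.mem_append, List.mem_cons, List.mem_map, List.mem_range, mem_union,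
    mem_singleton_iff, mem_ofPred_eq]

theorem zip_rl {σ' : AG} {t' : Sh σ'} {j : t.ι} {j' : t'.ι} {k i : ℕ} {a b : W}
    (hd : t'.d j' = t.d j) : (a, b) ∈ (t.rl j k).zip (t'.rl j' i) ↔
      ((a = t.u j k ∧ b = t'.u j' i) ∨ ∃ l < t.d j, t.β j k l = a ∧ t'.β j' i l = b) ∨
      (a = t.u j (k + 1) ∧ b = t'.u j' (i + 1)) ∨
        ∃ l < t.d j, t.β j (k + 1) l = a ∧ t'.β j' (i + 1) l = b := by
  unfold Sh.rl
  rw [List.zip_append (by simp [hd]), hd]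
  simp only [List.zip_cons_cons, List.zip_map', List.mem_append, List.mem_cons, List.mem_map,
    List.mem_range, Prod.mk.injEq]

end sh

/-- the facts on a tame structure that are used -/
structure Fa {p : Par} (x : TM p) : Prop where
  ty : ∀ j, (x.ty j).d = x.t.d j
  mv : x.t.Mk ⊆ x.σ.vs x.t.rest
  nd : ∀ j, ∀ i ≤ x.t.m j, Sum.inl (x.t.u j i) ∈ x.t.s.Vt
  nb : ∀ j, ∀ i < x.t.m j, x.t.u j i ∈ x.t.s.nb (x.t.lk j i) ∧
    x.t.u j (i + 1) ∈ x.t.s.nb (x.t.lk j i)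
  inj : ∀ j, ∀ i ≤ x.t.m j, ∀ i' ≤ x.t.m j, x.t.u j i = x.t.u j i' → i = i'
  po : ∀ v ∈ x.t.s.Po, v ∈ x.t.s.far '' x.t.Fx ∨ ∃ j, ∃ i ≤ x.t.m j, v = x.t.u j i
  rm : ∀ y ∈ x.t.s.Rm, x.t.s.nb y ⊆ x.t.s.Po

variable {p : Par} {x : TM p}

theorem fa (tame : TameS) (x : TM p) : Fa x := by
  obtain ⟨n, H⟩ := tame p
  obtain ⟨a1, -, -, -, -, -, -, -, a2, -, -, -, a3, a4, a5, -, a6⟩ := H x
  refine ⟨fun j => (a1 j).2.1, a2, fun j i hi => ?_,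
    fun j i hi => ⟨(a3 j i hi).2.2.2.2.1, (a3 j i hi).2.2.2.2.2.1⟩, a4, a5, a6⟩
  cases i with
  | zero => exact (a3 j 0 (x.h.ok.len j)).2.2.1.1
  | succ i => exact (a3 j i hi).2.2.2.1.1

theorem nl (x : TM p) (v : W) : v ∉ x.t.Λ := x.h.lam ▸ notMem_empty v

theorem beta_nv {j : x.t.ι} {i l : ℕ} (hi : i ≤ x.t.m j) (hl : l < x.t.d j) :
    Sum.inl (x.t.β j i l) ∉ x.t.s.Vt := (x.h.ok.inner j i hi l hl).2 (nl x _)

theorem lane {j : x.t.ι} {i l : ℕ} (hi : i < x.t.m j) (hl : l < x.t.d j) :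
    x.t.Lane j i (x.t.L j i l) (x.t.β j i l) (x.t.β j (i + 1) l) ∧ x.t.u j i ∉ x.t.L j i l ∧
      x.t.u j (i + 1) ∉ x.t.L j i l := x.h.ok.lane j i hi l hl (nl x _) (nl x _)

theorem Fa.kv_od (h : Fa x) {v : W} (k : Kv x.t v) : v ∈ Od := by
  rcases k with k | ⟨j, i, hi, rfl | ⟨l, hl, rfl⟩⟩
  exacts [x.h.ok.ok.od v k, x.h.ok.ok.od _ (h.nd j i hi), (x.h.ok.inner j i hi l hl).1]

theorem Fa.kv_cases (h : Fa x) {v : W} (k : Kv x.t v) : Sum.inl v ∈ x.t.s.Vt ∨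
    ∃ j, ∃ i ≤ x.t.m j, ∃ l < x.t.d j, x.t.β j i l = v := by
  rcases k with k | ⟨j, i, hi, rfl | ⟨l, hl, rfl⟩⟩
  exacts [Or.inl k, Or.inl (h.nd j i hi), Or.inr ⟨j, i, hi, l, hl, rfl⟩]

theorem Fa.mk_vs (h : Fa x) : x.t.Mk ⊆ x.σ.vs univ := h.mv.trans (x.σ.vs_mono (subset_univ _))

theorem nb_vs {z : MV} (hz : z ∈ x.t.s.Ce) : x.t.s.nb z ⊆ x.σ.vs (x.t.ct z) :=
  (x.h.ok.solid z hz).2.trans (x.σ.bd_vs _)

theorem Fa.kv_vs (h : Fa x) {v : W} (k : Kv x.t v) : v ∈ x.σ.vs univ := by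
  have ok := x.h.ok
  have su : ∀ U, x.σ.vs U ⊆ x.σ.vs univ := fun U => x.σ.vs_mono (subset_univ _)
  rcases h.kv_cases k with ⟨f, hf, e⟩ | ⟨j, i, hi, l, hl, rfl⟩
  · have n : x.t.s.vx (x.t.s.M.a f) ∉ x.t.s.Nd := (ok.ok.bip f hf).1 (e ▸ nd_of ⟨f, hf, e⟩)
    have a : v ∈ x.t.s.nb (x.t.s.vx (x.t.s.M.a f)) :=
      ⟨fun c => n (c ▸ nd_of ⟨f, hf, e⟩), f, hf, Or.inr ⟨e, rfl⟩⟩
    have m : x.t.s.vx (x.t.s.M.a f) ∈ x.t.s.Vt := ⟨_, ok.ok.hm.ok.a_mem hf, rfl⟩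
    by_cases c : x.t.s.vx (x.t.s.M.a f) ∈ x.t.s.H ∪ x.t.s.Rm
    · rcases h.po v (c.elim (fun c => ⟨_, c, a⟩) fun c => h.rm _ c a) with d | ⟨j, i, hi, rfl⟩
      · exact h.mk_vs (Or.inr d)
      cases i with
      | zero => exact h.mk_vs (Or.inl (mem_iUnion.2 ⟨j, Or.inl (Or.inl rfl)⟩))
      | succ i =>
        rcases (ok.quad j i hi).2 with d | d
        · obtain ⟨-, -, b, b'⟩ := ok.path j i hi d
          refine su _ ((b' b).1.resolve_right fun q => ?_)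
          have := h.inj j _ hi i (by omega) q
          omega
        · exact su _ (nb_vs d (h.nb j i hi).2)
    · refine su _ (nb_vs ⟨⟨m, ?_⟩, c⟩ a)
      rcases q : x.t.s.vx (x.t.s.M.a f) with w | n'
      exacts [absurd ⟨m, w, q.symm⟩ n, ⟨n', rfl⟩]
  · clear k
    induction i with
    | zero => exact h.mk_vs (Or.inl (mem_iUnion.2 ⟨j, Or.inl (Or.inr ⟨l, hl, rfl⟩)⟩))
    | succ i ih =>
      obtain ⟨⟨-, -, b, b'⟩, -⟩ := lane hi hl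
      exact (b' b).1.elim (su _ ·) fun q => (show _ = _ from q) ▸ ih (by omega)

end jr

end Pool.Agent.MP_9d78a0_co.gm

end MrgPart1

-- ======== part 2: formerly Pool.Agent.MP_9d78a0_co.gm.JReal
section MrgPart2

/-! Block J: from the routing to a model. -/

set_option autoImplicit false

namespace Pool.Agent.MP_9d78a0_co.gm

open Set Function

namespace jr

variable {p : Par} (x0 x : TM p) (e : x0.t.ι ≃ x.t.ι) (μ : x0.t.s.Φ → x.t.s.Φ)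
  (fl0 : MV → x0.t.s.Φ) (fl : MV → x.t.s.Φ) (ch : x0.t.ι → ℕ → ℕ) (Y : W → Set MV)

/-- the hypotheses -/
structure Cx : Prop where
  f0 : Fa x0
  f : Fa x
  M : Match x0 x e μ
  S : Sites x0 x x0.t.s.Ce fl0 fl
  C : ∀ j, Ch1 x0 x j (e j) (ch j)
  N : Net x0 x e μ fl0 fl ch Y

/-- positions of the side `j` -/
abbrev Bl (j : x0.t.ι) (k i : ℕ) : Prop := Bel (x0.t.m j) (x.t.m (e j)) (ch j) k i

/-- the vertices that a cell may use for the node `v` -/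
def Dz (v : W) (z : MV) : Set W := {w | w ∈ Od ∧ (w ∈ x.t.s.nb z → Sum.inl w ∈ Y v)}

/-- the connector of a node -/
def Yn (v : W) : Set W := {w | Sum.inl w ∈ Y v ∨
  (∃ z ∈ Y v ∩ x.t.s.Ce, ∃ r ∈ x.t.s.nb z, Sum.inl r ∈ Y v ∧
    Link (gr (x.σ.un (x.t.ct z))) (Dz x Y v z) r w) ∨
  ∃ j, ∃ i < x.t.m j, x.t.lk j i ∈ Y v ∩ x.t.s.Rm ∧ w ∈ x.t.L j i (x.t.d j)}

/-- the connector of a cut vertex -/
def Yb (v : W) : Set W := {w | ∃ j k i, ∃ l < x0.t.d j, x0.t.β j k l = v ∧ Bl x0 x e ch j k i ∧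
  (w = x.t.β (e j) i l ∨ (Bl x0 x e ch j k (i + 1) ∧ w ∈ x.t.L (e j) i l))}

/-- the connectors -/
def Yr (v : W) : Set W := {w | (Sum.inl v ∈ x0.t.s.Vt ∧ w ∈ Yn x Y v) ∨ w ∈ Yb x0 x e ch v}

/-- the owner of a private vertex of a connector -/
def Tag (v w : W) : MV ⊕ x.t.ι × ℕ → Prop :=
  Sum.elim (fun z => Sum.inl v ∈ x0.t.s.Vt ∧ z ∈ Y v) fun q => ¬ chosen x0 x e ch q.1 q.2 ∧
    q.2 < x.t.m q.1 ∧ ((Sum.inl v ∈ x0.t.s.Vt ∧ x.t.lk q.1 q.2 ∈ Y v ∧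
      w ∈ x.t.L q.1 q.2 (x.t.d q.1)) ∨ ∃ j k, ∃ l < x0.t.d j, q.1 = e j ∧ x0.t.β j k l = v ∧
        Bl x0 x e ch j k q.2 ∧ w ∈ x.t.L q.1 q.2 l)

/-- the target of a cell or bag, and the lists of roots -/
def tg : MV ⊕ x0.t.ι × ℕ → MV ⊕ x.t.ι × ℕ :=
  Sum.map (fun y => x.t.s.vx (fl y)) fun q => (e q.1, ch q.1 q.2)
noncomputable def l0 : MV ⊕ x0.t.ι × ℕ → List W :=
  Sum.elim (fun y => x0.t.s.rts (fl0 y)) fun q => x0.t.rl q.1 q.2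
noncomputable def l1 : MV ⊕ x0.t.ι × ℕ → List W :=
  Sum.elim (fun y => x.t.s.rts (fl y)) fun q => x.t.rl (e q.1) (ch q.1 q.2)

variable {x0 x e μ fl0 fl ch Y}

theorem chosen_iff {j : x0.t.ι} {i : ℕ} :
    chosen x0 x e ch (e j) i ↔ ∃ k < x0.t.m j, ch j k = i := by
  simp only [chosen, Equiv.symm_apply_apply]

namespace Cx

variable (h : Cx x0 x e μ fl0 fl ch Y) {u v w : W}
include h

theorem d (j : x0.t.ι) : x.t.d (e j) = x0.t.d j := by rw [← h.f.ty, ← h.f0.ty, h.M.ty]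

theorem u_mem {j : x0.t.ι} {k i : ℕ} (b : Bl x0 x e ch j k i) :
    Sum.inl (x.t.u (e j) i) ∈ Y (x0.t.u j k) := by
  obtain ⟨a1, a2⟩ := b.start (h.C j).mono
  refine h.N.side j k b.1 ⟨i, a1, b.2.1, fun i' c1 c2 c3 => ?_, Or.inl rfl⟩
  obtain ⟨k', c4, c5⟩ := chosen_iff.1 c3
  exact a2 i' c1 c2 k' c4 c5

theorem yq (hu : Sum.inl u ∈ x0.t.s.Vt) (hv : Sum.inl v ∈ x0.t.s.Vt) {z : MV} (a : z ∈ Y u)
    (b : z ∈ Y v) : u = v := by
  by_contra c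
  exact disjoint_left.1 (h.N.dis u v (nd_of hu) (nd_of hv) c) a b

theorem ycase (hv : Sum.inl v ∈ x0.t.s.Vt) {z : MV} (hz : z ∈ Y v) :
    z ∈ x.t.s.Nd ∨ z ∈ x.t.s.Ce ∨ (z ∈ x.t.s.Rm ∧ ∃ j, ∃ i < x.t.m j, z = x.t.lk j i ∧
      ¬ chosen x0 x e ch j i ∧ Sum.inl (x.t.u j i) ∈ Y v ∧ Sum.inl (x.t.u j (i + 1)) ∈ Y v) := by
  rcases (h.N.conn v (nd_of hv)).2 hz with ⟨c | c, -⟩ | c
  · exact Or.inl c
  · exact Or.inr (Or.inl c)
  obtain ⟨_, ⟨⟨j', a⟩, ⟨a1, a2⟩, rfl⟩ | ⟨_, ⟨f, hf, rfl⟩, rfl⟩, c⟩ := mem_iUnion₂.1 c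
  swap
  · obtain rfl : z = Sum.inl _ := c
    exact Or.inl (nd_of (far_vt x.h.ok.ok hf.1))
  have c0 := c
  obtain ⟨i, i1, i2, i3, rfl | ⟨i4, rfl⟩⟩ := c
  · exact Or.inl (nd_of (h.f.nd _ i i2))
  obtain ⟨i, rfl⟩ : ∃ n, i = n + 1 := ⟨i - 1, by omega⟩
  obtain ⟨j, rfl⟩ := e.surjective j'
  simp only [Nat.add_sub_cancel] at *
  rcases (x.h.ok.quad (e j) i i2).2 with q | q
  swap
  · exact Or.inr (Or.inl q)
  obtain ⟨k, k1, rfl⟩ : ∃ k ≤ x0.t.m j, a = start (ch j) k := by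
    cases a with
    | zero => exact ⟨0, Nat.zero_le _, rfl⟩
    | succ a =>
      obtain ⟨k, k1, k2⟩ := chosen_iff.1 (a2.resolve_left (Nat.succ_ne_zero _))
      exact ⟨k + 1, k1, by simp [start, k2]⟩
  have s := h.N.side j k k1
  obtain rfl := h.yq hv (h.f0.nd j k k1) hz (s c0)
  refine Or.inr (Or.inr ⟨q, e j, i, i2, rfl, i3 i (by omega) (by omega),
    s ⟨i, by omega, Nat.le_of_succ_le i2, fun k a b => i3 k a (by omega), Or.inl rfl⟩,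
    s ⟨i + 1, i1, i2, i3, Or.inl rfl⟩⟩)

theorem y_vt (hv : Sum.inl v ∈ x0.t.s.Vt) (hw : Sum.inl w ∈ Y v) : Sum.inl w ∈ x.t.s.Vt := by
  rcases h.ycase hv hw with c | c | c
  · exact c.1
  · exact c.1.1
  · obtain ⟨n, k⟩ := x.h.ok.ok.hr.2.1 c.1
    cases k

theorem yrim (hv : Sum.inl v ∈ x0.t.s.Vt) {j : x.t.ι} {i : ℕ} (hi : i < x.t.m j)
    (k : x.t.lk j i ∈ Y v ∩ x.t.s.Rm) : ¬ chosen x0 x e ch j i ∧ Sum.inl (x.t.u j i) ∈ Y v ∧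
      Sum.inl (x.t.u j (i + 1)) ∈ Y v := by
  rcases h.ycase hv k.1 with c | c | ⟨-, j', i', c1, c2, c⟩
  · exact absurd c (inr_nd (x.h.ok.ok.hr.2.1 k.2))
  · exact absurd (Or.inr k.2) c.2
  · obtain ⟨rfl, rfl⟩ := x.h.ok.lkinj j j' i hi i' c1 c2
    exact c

/-- the three kinds of vertices of a connector -/
theorem cls (hw : w ∈ Yr x0 x e ch Y v) : (Sum.inl v ∈ x0.t.s.Vt ∧ Sum.inl w ∈ Y v) ∨
    (∃ j k i, ∃ l < x0.t.d j, x0.t.β j k l = v ∧ Bl x0 x e ch j k i ∧ w = x.t.β (e j) i l) ∨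
    ∃ o, w ∈ x.σ.vs (cn x.t o) ∧ w ∉ rt x.t o ∧ Tag x0 x e ch Y v w o := by
  have ok := x.h.ok
  rcases hw with ⟨hv, c | ⟨z, hz, r, r1, r2, c⟩ | ⟨j, i, hi, c1, c2⟩⟩ |
    ⟨j, k, i, l, hl, a, b, c | ⟨b', c⟩⟩
  · exact Or.inl ⟨hv, c⟩
  · have s := (ok.solid z hz.2).1.sub r1
    have m := (link_VV c).mem ⟨⟨s.1.2, fun _ => r2⟩, s.1.1⟩
    by_cases n : w ∈ x.t.s.nb z
    · exact Or.inl ⟨hv, m.1.2 n⟩
    · exact Or.inr (Or.inr ⟨Sum.inl z, (x.σ.vs_un _).le ⟨m.2, m.1.1⟩, n, hv, hz.1⟩)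
  · obtain ⟨y1, y2, y3⟩ := h.yrim hv hi c1
    rcases ((ok.path j i hi c1.2).2.2.2 c2).1 with m | m
    swap
    · exact Or.inl ⟨hv, (show w = _ from m) ▸ y2⟩
    by_cases n : w ∈ rt x.t (Sum.inr (j, i))
    · rcases n with (rfl | ⟨l, hl, rfl⟩) | rfl | ⟨l, hl, rfl⟩
      exacts [Or.inl ⟨hv, y2⟩, absurd c2 (ok.lent j i hi _ le_rfl l hl hl.ne').1, Or.inl ⟨hv, y3⟩,
        absurd c2 (ok.lent j i hi _ le_rfl l hl hl.ne').2]
    · exact Or.inr (Or.inr ⟨Sum.inr (j, i), m, n, y1, hi, Or.inl ⟨hv, c1.1, c2⟩⟩)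
  · exact Or.inr (Or.inl ⟨j, k, i, l, hl, a, b, c⟩)
  · have hi : i < x.t.m (e j) := b'.2.1
    have hl' : l < x.t.d (e j) := h.d j ▸ hl
    obtain ⟨q1, q2, q3⟩ := lane hi hl'
    rcases (q1.2.2.2 c).1 with m | m
    swap
    · exact Or.inr (Or.inl ⟨j, k, i, l, hl, a, b, m⟩)
    by_cases n : w ∈ rt x.t (Sum.inr (e j, i))
    · rcases n with (rfl | ⟨l', hl2, rfl⟩) | rfl | ⟨l', hl2, rfl⟩
      · exact absurd c q2
      · obtain rfl : l = l' := by_contra fun n => (ok.lent _ i hi l hl'.le l' hl2 n).1 c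
        exact Or.inr (Or.inl ⟨j, k, i, l, hl, a, b, rfl⟩)
      · exact absurd c q3
      · obtain rfl : l = l' := by_contra fun n => (ok.lent _ i hi l hl'.le l' hl2 n).2 c
        exact Or.inr (Or.inl ⟨j, k, i + 1, l, hl, a, b', rfl⟩)
    · refine Or.inr (Or.inr ⟨Sum.inr (e j, i), m, n, fun q => ?_, hi,
        Or.inr ⟨j, k, l, hl, rfl, a, b, c⟩⟩)
      obtain ⟨k', q4, q5⟩ := chosen_iff.1 q
      exact b.nch b' q4 q5

theorem kv1 (a : Sum.inl v ∈ x0.t.s.Vt ∧ Sum.inl w ∈ Y v) : Kv x.t w := Or.inl (h.y_vt a.1 a.2)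

theorem kv2 (a : ∃ j k i, ∃ l < x0.t.d j, x0.t.β j k l = v ∧ Bl x0 x e ch j k i ∧
    w = x.t.β (e j) i l) : Kv x.t w :=
  let ⟨j, _, i, l, hl, _, b, c⟩ := a
  Or.inr ⟨e j, i, b.2.1, Or.inr ⟨l, h.d j ▸ hl, c.symm⟩⟩

theorem yr_vs (hw : w ∈ Yr x0 x e ch Y v) : w ∈ x.σ.vs univ := by
  rcases h.cls hw with c | c | ⟨o, c, -⟩
  exacts [h.f.kv_vs (h.kv1 c), h.f.kv_vs (h.kv2 c), x.σ.vs_mono (subset_univ _) c]

theorem zipb {j : x0.t.ι} {k l : ℕ} (hl : l < x0.t.d j) :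
    (x0.t.β j k l, x.t.β (e j) (ch j k) l) ∈ (x0.t.rl j k).zip (x.t.rl (e j) (ch j k)) ∧
    (x0.t.β j (k + 1) l, x.t.β (e j) (ch j k + 1) l) ∈
      (x0.t.rl j k).zip (x.t.rl (e j) (ch j k)) :=
  ⟨(zip_rl (h.d j)).2 (Or.inl (Or.inr ⟨l, hl, rfl, rfl⟩)),
    (zip_rl (h.d j)).2 (Or.inr (Or.inr ⟨l, hl, rfl, rfl⟩))⟩

/-- equal cut vertices of the target belong to equal cut vertices -/
theorem beq {j : x0.t.ι} {l : ℕ} (hl : l < x0.t.d j) {k i : ℕ} (b : Bl x0 x e ch j k i) (n : ℕ) :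
    ∀ k', Bl x0 x e ch j k' (i + n) → x.t.β (e j) i l = x.t.β (e j) (i + n) l →
      x0.t.β j k l = x0.t.β j k' l := by
  induction n with
  | zero => exact fun k' b' _ => by rw [b.uniq b']
  | succ n ih =>
    intro k' b' q
    obtain ⟨k2, b2⟩ := bel_ex (h.C j).mono (h.C j).lt (show i + n ≤ _ from Nat.le_of_succ_le b'.2.1)
    have q2 := x.h.ok.conv (e j) l (h.d j ▸ hl) i (i + n) (i + (n + 1)) (by omega) (by omega) b'.2.1
      (nl x _) q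
    refine (ih k2 b2 q2.symm).trans ?_
    rcases b2.step (h.C j).mono b' with rfl | ⟨rfl, a1, a2⟩
    · rfl
    · refine Le.zip_inj ((h.C j).le k2 a1) (h.zipb hl).1 ?_
      have := (h.zipb (k := k2) hl).2
      rwa [a2, show i + n + 1 = i + (n + 1) from rfl, ← q, ← q2, ← a2] at this

theorem yr_inj (a : w ∈ Yr x0 x e ch Y u) (b : w ∈ Yr x0 x e ch Y v) : u = v := by
  have ok := x.h.ok
  have nk : ∀ o, w ∈ x.σ.vs (cn x.t o) → w ∉ rt x.t o → ¬ Kv x.t w := fun o c1 c2 c3 =>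
    c2 (share1 ok x.h.lam c1 (Or.inl c3))
  have nb : ∀ {u v : W}, (Sum.inl u ∈ x0.t.s.Vt ∧ Sum.inl w ∈ Y u) → ¬ ∃ j k i, ∃ l < x0.t.d j,
      x0.t.β j k l = v ∧ Bl x0 x e ch j k i ∧ w = x.t.β (e j) i l := by
    rintro u v c ⟨j, k, i, l, hl, -, q, rfl⟩
    exact beta_nv q.2.1 (h.d j ▸ hl) (h.y_vt c.1 c.2)
  rcases h.cls a with a | a | ⟨o, a1, a2, a3⟩ <;> rcases h.cls b with b | b | ⟨o', b1, b2, b3⟩
  · exact h.yq a.1 b.1 a.2 b.2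
  · exact absurd b (nb a)
  · exact absurd (h.kv1 a) (nk _ b1 b2)
  · exact absurd a (nb b)
  · obtain ⟨j, k, i, l, hl, rfl, q, rfl⟩ := a
    obtain ⟨j', k', i', l', hl', rfl, q', c⟩ := b
    obtain ⟨c1, rfl⟩ := ok.priv _ _ i q.2.1 i' q'.2.1 l (h.d j ▸ hl) l' (h.d j' ▸ hl') (nl x _) c
    obtain rfl := e.injective c1
    rcases le_total i i' with r | r <;> obtain ⟨n, rfl⟩ := Nat.exists_eq_add_of_le r
    exacts [h.beq hl q n k' q' c, (h.beq hl q' n k q c.symm).symm]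
  · exact absurd (h.kv2 a) (nk _ b1 b2)
  · exact absurd (h.kv1 b) (nk _ a1 a2)
  · exact absurd (h.kv2 b) (nk _ a1 a2)
  obtain rfl : o' = o := by_contra fun n => a2 (share1 ok x.h.lam a1 (Or.inr ⟨o', n, b1⟩))
  rcases o' with z | ⟨j', i⟩
  · exact h.yq a3.1 b3.1 a3.2 b3.2
  have ld : ∀ l ≤ x.t.d j', ∀ l' ≤ x.t.d j', w ∈ x.t.L j' i l → w ∈ x.t.L j' i l' → l = l' :=
    fun l hl l' hl' c c' => by_contra fun n =>
      disjoint_left.1 (ok.ldis j' i a3.2.1 l hl l' hl' n) c c'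
  rcases a3.2.2 with ⟨c1, c2, c3⟩ | ⟨j, k, l, hl, c0, c1, c2, c3⟩ <;>
    rcases b3.2.2 with ⟨d1, d2, d3⟩ | ⟨j2, k2, l2, hl2, d0, d1, d2, d3⟩
  · exact h.yq c1 d1 c2 d2
  · obtain rfl : j' = e j2 := d0
    have := ld _ le_rfl l2 (h.d j2 ▸ hl2.le) c3 d3
    have := h.d j2
    dsimp only at *
    omega
  · obtain rfl : j' = e j := c0
    have := ld _ le_rfl l (h.d j ▸ hl.le) d3 c3
    have := h.d j
    dsimp only at *
    omega
  · obtain rfl : j' = e j := c0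
    obtain rfl := e.injective d0
    obtain rfl := ld l (h.d j ▸ hl.le) l2 (h.d j ▸ hl2.le) c3 d3
    rw [← c1, ← d1, c2.uniq d2]

omit h in
theorem sub_un (U : Set x.σ.ε) : gr (x.σ.un U) ≤ gr (x.σ.un univ) :=
  gr_mono (x.σ.un_mono (subset_univ _))

omit h in
theorem link_up {V : Type} {G G' : SimpleGraph V} {D D' : Set V} {a b : V} (k : Link G D a b)
    (h1 : G ≤ G') (h2 : D ⊆ D') : Link G' D' a b :=
  Link.map id (fun _ ha _ hb q => Link.single (h2 ha) (h2 hb) (h1 q)) k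

theorem cell_link (hv : Sum.inl v ∈ x0.t.s.Vt) {z : MV} (hz : z ∈ Y v ∩ x.t.s.Ce) {r : W}
    (r1 : r ∈ x.t.s.nb z) (r2 : Sum.inl r ∈ Y v)
    (c : Link (gr (x.σ.un (x.t.ct z))) (Dz x Y v z) r w) :
    Link (gr (x.σ.un univ)) (Yr x0 x e ch Y v) r w :=
  link_up (reach c) (sub_un _) fun _ k => Or.inl ⟨hv, Or.inr (Or.inl ⟨z, hz, r, r1, r2, k⟩)⟩

theorem rim_link (hv : Sum.inl v ∈ x0.t.s.Vt) {j : x.t.ι} {i : ℕ} (hi : i < x.t.m j)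
    (k : x.t.lk j i ∈ Y v ∩ x.t.s.Rm) {a b : W} (ha : a ∈ x.t.L j i (x.t.d j))
    (hb : b ∈ x.t.L j i (x.t.d j)) : Link (gr (x.σ.un univ)) (Yr x0 x e ch Y v) a b :=
  link_up ((x.h.ok.path j i hi k.2).1.2 a ha b hb) (sub_un _) fun _ q =>
    Or.inl ⟨hv, Or.inr (Or.inr ⟨j, i, hi, k, q⟩)⟩

theorem node_link (hv : Sum.inl v ∈ x0.t.s.Vt) {r s : W} (hr : Sum.inl r ∈ Y v)
    (hs : Sum.inl s ∈ Y v) : Link (gr (x.σ.un univ)) (Yr x0 x e ch Y v) r s := by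
  have ok := x.h.ok
  have key : ∀ z, Link x.t.s.G (Y v) (Sum.inl r) z → ∀ s, Sum.inl s ∈ Y v →
      (z = Sum.inl s ∨ (s ∈ x.t.s.nb z ∧ z ∉ x.t.s.Nd)) →
      Link (gr (x.σ.un univ)) (Yr x0 x e ch Y v) r s := by
    intro z k
    induction k with
    | refl =>
      rintro s - (c | c)
      · obtain rfl := Sum.inl.inj c
        exact Link.refl _ _ _
      · exact absurd (nd_of (h.y_vt hv hr)) c.2
    | @tail z z' _ q ih =>
      rintro s hs (rfl | ⟨c1, c2⟩)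
      · exact ih s hs (Or.inr ⟨q.2.2, fun c => (adj_bip ok.ok q.2.2).1 c (nd_of (h.y_vt hv hs))⟩)
      obtain ⟨-, s0, rfl⟩ := (adj_bip ok.ok q.2.2).2 c2
      have c0 : s0 ∈ x.t.s.nb z' := q.2.2.symm
      refine (ih s0 q.1 (Or.inl rfl)).trans ?_
      rcases h.ycase hv q.2.1 with c | c | ⟨c, j, i, hi, rfl, -⟩
      · exact absurd c c2
      · refine h.cell_link hv ⟨q.2.1, c⟩ c0 q.1 (((ok.solid z' c).1.two s0 c0 s c1).mono ?_)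
        refine fun w hw => ⟨hw.1.1, fun n => ?_⟩
        rcases not_not.1 fun n' => hw.2 ⟨n, n'⟩ with rfl | rfl
        exacts [q.1, hs]
      · obtain ⟨-, p1, p2, -⟩ := ok.path j i hi c
        have t : ∀ s ∈ x.t.s.nb (x.t.lk j i), s ∈ x.t.L j i (x.t.d j) := fun s hs => by
          rcases rim_nb ok.ok c (h.f.nb j i hi).1 (h.f.nb j i hi).2 (fun n => by
            have := h.f.inj j i hi.le _ hi n
            omega) hs with rfl | rfl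
          exacts [p1, p2]
        exact h.rim_link hv hi ⟨q.2.1, c⟩ (t _ c0) (t _ c1)
  exact key _ ((h.N.conn v (nd_of hv)).1.2 _ hr _ hs) s hs (Or.inl rfl)

theorem yn_link (hv : Sum.inl v ∈ x0.t.s.Vt) (hw : w ∈ Yn x Y v) :
    ∃ r, Sum.inl r ∈ Y v ∧ Link (gr (x.σ.un univ)) (Yr x0 x e ch Y v) r w := by
  rcases hw with c | ⟨z, hz, r, r1, r2, c⟩ | ⟨j, i, hi, c1, c2⟩
  exacts [⟨w, c, Link.refl _ _ _⟩, ⟨r, r2, h.cell_link hv hz r1 r2 c⟩,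
    ⟨_, (h.yrim hv hi c1).2.1, h.rim_link hv hi c1 (x.h.ok.path j i hi c1.2).2.1 c2⟩]

theorem lane_link {j : x0.t.ι} {k i l : ℕ} (hl : l < x0.t.d j) (b : Bl x0 x e ch j k i)
    (b' : Bl x0 x e ch j k (i + 1)) (hw : w ∈ x.t.L (e j) i l) :
    Link (gr (x.σ.un univ)) (Yr x0 x e ch Y (x0.t.β j k l)) (x.t.β (e j) i l) w :=
  have q := (lane (x := x) (j := e j) b'.2.1 (h.d j ▸ hl)).1
  link_up (q.1.2 _ q.2.1 _ hw) (sub_un _) fun _ c =>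
    Or.inr ⟨j, k, i, l, hl, rfl, b, Or.inr ⟨b', c⟩⟩

/-- the connectors are joined by edges and through the chosen bags -/
theorem joined {R : W → W → Prop} (R0 : ∀ a b, R a b → R b a)
    (R1 : ∀ a b, Link (gr (x.σ.un univ)) (Yr x0 x e ch Y v) a b → Relation.ReflTransGen R a b)
    (R2 : ∀ j, ∀ k < x0.t.m j, ∀ a b, (v, a) ∈ (x0.t.rl j k).zip (x.t.rl (e j) (ch j k)) →
      (v, b) ∈ (x0.t.rl j k).zip (x.t.rl (e j) (ch j k)) → R a b)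
    {a b : W} (ha : a ∈ Yr x0 x e ch Y v) (hb : b ∈ Yr x0 x e ch Y v) :
    Relation.ReflTransGen R a b := by
  by_cases hv : Sum.inl v ∈ x0.t.s.Vt
  · have t : ∀ a ∈ Yr x0 x e ch Y v, a ∈ Yn x Y v := by
      rintro a (c | ⟨j, k, i, l, hl, rfl, q, -⟩)
      exacts [c.2, absurd hv (beta_nv q.1 hl)]
    obtain ⟨r, r1, r2⟩ := h.yn_link hv (t a ha)
    obtain ⟨s, s1, s2⟩ := h.yn_link hv (t b hb)
    exact R1 _ _ (r2.symm.trans ((h.node_link hv r1 s1).trans s2))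
  have t : ∀ a ∈ Yr x0 x e ch Y v, ∃ j k i, ∃ l < x0.t.d j, x0.t.β j k l = v ∧
      Bl x0 x e ch j k i ∧ Link (gr (x.σ.un univ)) (Yr x0 x e ch Y v) (x.t.β (e j) i l) a := by
    rintro a (c | ⟨j, k, i, l, hl, rfl, q, rfl | ⟨q', c⟩⟩)
    exacts [absurd c.1 hv, ⟨j, k, i, l, hl, rfl, q, Link.refl _ _ _⟩,
      ⟨j, k, i, l, hl, rfl, q, h.lane_link hl q q' c⟩]
  have chain : ∀ j k i l, l < x0.t.d j → x0.t.β j k l = v → Bl x0 x e ch j k i → ∀ n k',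
      Bl x0 x e ch j k' (i + n) → x0.t.β j k' l = v →
      Relation.ReflTransGen R (x.t.β (e j) i l) (x.t.β (e j) (i + n) l) := by
    intro j k i l hl c q n
    induction n with
    | zero => exact fun _ _ _ => .refl
    | succ n ih =>
      intro k' q' c'
      obtain ⟨k2, q2⟩ := bel_ex (h.C j).mono (h.C j).lt
        (show i + n ≤ _ from Nat.le_of_succ_le q'.2.1)
      have c2 : x0.t.β j k2 l = v := (x0.h.ok.conv j l hl k k2 k' (q.le q2 (by omega))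
        (q2.le q' (by omega)) q'.1 (nl x0 _) (c.trans c'.symm)).trans c
      refine (ih k2 q2 c2).trans ?_
      rcases q2.step (h.C j).mono q' with rfl | ⟨rfl, a1, a2⟩
      · exact R1 _ _ (c' ▸ h.lane_link hl q2 q'
          (lane (x := x) (j := e j) q'.2.1 (h.d j ▸ hl)).1.2.2.1)
      · refine .single (R2 j k2 a1 _ _ ?_ ?_)
        · rw [← c2, ← a2]; exact (h.zipb hl).1
        · rw [← c', show i + (n + 1) = i + n + 1 from rfl, ← a2]; exact (h.zipb hl).2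
  obtain ⟨j, k, i, l, hl, c, q, a1⟩ := t a ha
  obtain ⟨j', k', i', l', hl', c', q', b1⟩ := t b hb
  obtain ⟨rfl, rfl⟩ := x0.h.ok.priv j j' k q.1 k' q'.1 l hl l' hl' (nl x0 _) (c.trans c'.symm)
  refine (R1 _ _ a1.symm).trans (.trans ?_ (R1 _ _ b1))
  rcases le_total i i' with r | r <;> obtain ⟨n, rfl⟩ := Nat.exists_eq_add_of_le r
  exacts [chain j k i l hl c q n k' q' c', rsymm R0 (chain j k' i' l hl c' q' n k q c)]

omit h in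
theorem y_mem (hv : Sum.inl v ∈ x0.t.s.Vt) (hw : Sum.inl w ∈ Y v) : w ∈ Yr x0 x e ch Y v :=
  Or.inl ⟨hv, Or.inl hw⟩

omit h in
theorem b_mem {j : x0.t.ι} {k i l : ℕ} (hl : l < x0.t.d j) (b : Bl x0 x e ch j k i) :
    x.t.β (e j) i l ∈ Yr x0 x e ch Y (x0.t.β j k l) := Or.inr ⟨j, k, i, l, hl, rfl, b, Or.inl rfl⟩

theorem mu_fx {f : x0.t.s.Φ} (hf : f ∈ x0.t.Fx) : μ f ∈ x.t.Fx := by
  have s : f ∈ x0.t.Sg := Or.inl hf
  refine (h.M.bij.mapsTo s).resolve_right ?_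
  rintro ⟨j', c⟩
  obtain ⟨j, rfl⟩ := e.surjective j'
  have s1 : x0.t.φ j 0 ∈ x0.t.Sg := Or.inr ⟨j, Or.inl rfl⟩
  have s2 : x0.t.φ j (x0.t.m j) ∈ x0.t.Sg := Or.inr ⟨j, Or.inr (Or.inr (Or.inl rfl))⟩
  rw [← (h.M.ends j).1, ← (h.M.ends j).2, ← h.M.mc _ s1, ← h.M.mc _ s2] at c
  rcases c with c | c | c | c
  · exact (hf.2 j 0 (Nat.zero_le _)).1 (h.M.bij.injOn s s1 c)
  · exact (hf.2 j 0 (Nat.zero_le _)).2 (h.M.bij.injOn s (Or.inr ⟨j, Or.inr (Or.inl rfl)⟩) c)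
  · exact (hf.2 j _ le_rfl).1 (h.M.bij.injOn s s2 c)
  · exact (hf.2 j _ le_rfl).2 (h.M.bij.injOn s (Or.inr ⟨j, Or.inr (Or.inr (Or.inr rfl))⟩) c)

/-- a marked vertex has a marked partner with the same name -/
theorem partner (hv : v ∈ x0.t.Mk) :
    ∃ w ∈ x.t.Mk, x.nm w = x0.nm v ∧ w ∈ Yr x0 x e ch Y v := by
  rcases hv with hv | ⟨f, hf, rfl⟩
  · obtain ⟨j, (rfl | ⟨l, hl, rfl⟩) | rfl | ⟨l, hl, rfl⟩⟩ := mem_iUnion.1 hv
    · refine ⟨_, Or.inl (mem_iUnion.2 ⟨e j, Or.inl (Or.inl rfl)⟩), ?_,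
        y_mem (h.f0.nd j 0 (Nat.zero_le _)) (h.u_mem bel_0)⟩
      have := h.M.nmf _ (Or.inr ⟨j, Or.inl rfl⟩)
      rw [(h.M.ends j).1] at this
      exact this.symm
    · exact ⟨_, Or.inl (mem_iUnion.2 ⟨e j, Or.inl (Or.inr ⟨l, h.d j ▸ hl, rfl⟩)⟩),
        (h.M.nmb j l hl).1.symm, b_mem hl bel_0⟩
    · refine ⟨_, Or.inl (mem_iUnion.2 ⟨e j, Or.inr (Or.inl rfl)⟩), ?_,
        y_mem (h.f0.nd j _ le_rfl) (h.u_mem (bel_m (h.C j).lt))⟩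
      have := h.M.nmf _ (Or.inr ⟨j, Or.inr (Or.inr (Or.inl rfl))⟩)
      rw [(h.M.ends j).2] at this
      exact this.symm
    · exact ⟨_, Or.inl (mem_iUnion.2 ⟨e j, Or.inr (Or.inr ⟨l, h.d j ▸ hl, rfl⟩)⟩),
        (h.M.nmb j l hl).2.symm, b_mem hl (bel_m (h.C j).lt)⟩
  · exact ⟨_, Or.inr ⟨_, h.mu_fx hf, rfl⟩, (h.M.nmf f (Or.inl hf)).symm,
      y_mem (far_vt x0.h.ok.ok hf.1) (h.N.fix f hf)⟩

variable {o o' : MV ⊕ x0.t.ι × ℕ}

theorem le_tg (ho : Val x0.t o) : Le (x0.σ.un (cn x0.t o), l0 x0 fl0 o)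
    (x.σ.un (cn x.t (tg x0 x e fl ch o)), l1 x0 x e fl ch o) := by
  rcases o with y | ⟨j, k⟩
  exacts [h.S.le y ho, (h.C j).le k ho]

theorem mem_l0 (ho : Val x0.t o) (k : v ∈ rt x0.t o) : v ∈ l0 x0 fl0 o := by
  rcases o with y | ⟨j, k⟩
  · obtain ⟨a1, a2, -⟩ := h.S.src y ho
    exact (Sk.rts_set x0.h.ok.ok a1 (by rw [a2]; exact ce_nd ho)).ge (by rw [a2]; exact k)
  · exact mem_rl.2 k

theorem mem_l1 (ho : Val x0.t o) (k : v ∈ rt x.t (tg x0 x e fl ch o)) : v ∈ l1 x0 x e fl ch o := by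
  rcases o with y | ⟨j, k⟩
  · obtain ⟨a1, a2, -⟩ := h.S.tgt y ho
    exact (Sk.rts_set x.h.ok.ok a1 (ce_nd a2)).ge k
  · exact mem_rl.2 k

theorem tg_inj (ho : Val x0.t o) (ho' : Val x0.t o')
    (k : tg x0 x e fl ch o = tg x0 x e fl ch o') : o = o' := by
  rcases o with y | ⟨j, i⟩ <;> rcases o' with y' | ⟨j', i'⟩
  · exact congrArg _ (h.S.inj ho ho' (Sum.inl.inj k))
  · cases k
  · cases k
  · obtain ⟨a, b⟩ := Prod.mk.inj (Sum.inr.inj k)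
    obtain rfl := e.injective a
    rcases lt_trichotomy i i' with c | rfl | c
    exacts [absurd b (cmono (h.C j).mono c ho').ne, rfl, absurd b (cmono (h.C j).mono c ho).ne']

theorem zip_mem (ho : Val x0.t o) {a b : W} (k : (a, b) ∈ (l0 x0 fl0 o).zip (l1 x0 x e fl ch o)) :
    Kv x0.t a ∧ b ∈ Yr x0 x e ch Y a := by
  rcases o with y | ⟨j, i⟩
  · obtain ⟨a1, a2, -⟩ := h.S.src y ho
    have c : Sum.inl a ∈ x0.t.s.Vt := nb_vt x0.h.ok.ok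
      ((Sk.rts_set x0.h.ok.ok a1 (by rw [a2]; exact ce_nd ho)).le (List.of_mem_zip k).1)
    exact ⟨Or.inl c, y_mem c (List.forall₂_zip (h.N.cell y ho) k)⟩
  · have b0 := bel_c (h.C j).mono (h.C j).lt ho
    have b1 := bel_c1 (h.C j).mono (h.C j).lt ho
    refine ⟨rt_kv x0.h.ok ho (mem_rl.1 (List.of_mem_zip k).1), ?_⟩
    rcases (zip_rl (h.d j)).1 k with (⟨rfl, rfl⟩ | ⟨l, hl, rfl, rfl⟩) | ⟨rfl, rfl⟩ | ⟨l, hl, rfl, rfl⟩
    exacts [y_mem (h.f0.nd j i b0.1) (h.u_mem b0), b_mem hl b0,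
      y_mem (h.f0.nd j _ b1.1) (h.u_mem b1), b_mem hl b1]

theorem yr_rt (ho : Val x0.t o) (hw : w ∈ Yr x0 x e ch Y v)
    (k : w ∈ x.σ.vs (cn x.t (tg x0 x e fl ch o))) : w ∈ rt x.t (tg x0 x e fl ch o) := by
  refine share1 x.h.ok x.h.lam k ?_
  rcases h.cls hw with c | c | ⟨o', c1, -, c3⟩
  exacts [Or.inl (h.kv1 c), Or.inl (h.kv2 c), Or.inr ⟨o', fun n => by
    subst n
    rcases o with y | ⟨j, i⟩
    exacts [disjoint_left.1 (h.N.off v (nd_of c3.1)) c3.2 ⟨y, ho, rfl⟩,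
      c3.1 (chosen_iff.2 ⟨i, ho, rfl⟩)], c1⟩]

theorem real : Le x0.σ.lab x.σ.lab := by
  choose pt p1 p2 p3 using fun v : x0.t.Mk => h.partner v.2
  have o0 : ∀ v ∈ x0.t.Mk, v ∈ Od := fun v hv => h.f0.kv_od (mk_kv x0.h.ok hv)
  have o1 : ∀ v, pt v ∈ Od := fun v => h.f.kv_od (mk_kv x.h.ok (p1 v))
  have pv : ∀ (a b : W) (n : ℕ), b ∈ VV {(a, Sum.inr n)} → b ∈ Od → b = a := by
    rintro a b n ⟨_, rfl, c | c⟩ k
    exacts [c, absurd ⟨n, c.symm⟩ (od_iff.1 k)]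
  have key := glue2L (ι := {o // Val x0.t o} ⊕ x0.t.Mk)
    (Sum.elim (fun o => x0.σ.un (cn x0.t o.1)) fun v => {(v.1, Sum.inr (x0.nm v))})
    (Sum.elim (fun o => x.σ.un (cn x.t (tg x0 x e fl ch o.1))) fun v => {(pt v, Sum.inr (x0.nm v))})
    (Sum.elim (fun o => l0 x0 fl0 o.1) fun v => [v.1])
    (Sum.elim (fun o => l1 x0 x e fl ch o.1) fun v => [pt v]) (x.σ.un univ) {v | Kv x0.t v}
    (Yr x0 x e ch Y) (fun v hv => h.f0.kv_od hv) ?_ ?_ ?_ ?_ ?_ ?_ ?_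
    fun u _ v _ n => disjoint_left.2 fun w a b => n (h.yr_inj a b)
  · refine (Le.mono (iUnion₂_subset fun a _ => ?_) []).trans key
    rcases c : x0.t.own a with _ | o
    · obtain ⟨v, hv, q⟩ := x0.h.pend a c
      exact subset_iUnion_of_subset (Sum.inr ⟨v, hv⟩) q.le
    · have ho : Val x0.t o := by
        rcases o with y | ⟨j, i⟩
        exacts [x0.h.ok.ownc a y c, x0.h.ok.ownb a j i c]
      exact subset_iUnion_of_subset (Sum.inl ⟨o, ho⟩)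
        (subset_biUnion_of_mem (u := x0.σ.pc) (show a ∈ cn x0.t o from c))
  · rintro (o | v)
    exacts [h.le_tg o.2, le_pend (o0 v v.2) (o1 v) _]
  · rintro (o | v) a b k
    · exact h.zip_mem o.2 k
    · obtain ⟨rfl, rfl⟩ := Prod.mk.inj (List.mem_singleton.1 k)
      exact ⟨mk_kv x0.h.ok v.2, p3 v⟩
  · rintro (o | v) w ⟨a, b⟩
    · exact h.mem_l0 o.2 (share1 x0.h.ok x0.h.lam ((x0.σ.vs_un _).le ⟨b, h.f0.kv_od a⟩) (Or.inl a))
    · exact List.mem_singleton.2 (pv _ _ _ b (h.f0.kv_od a))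
  · rintro (o | v) (o' | v') n w ⟨⟨a, b⟩, c⟩
    · exact rt_kv x0.h.ok o.2 (share1 x0.h.ok x0.h.lam ((x0.σ.vs_un _).le ⟨a, c⟩)
        (Or.inr ⟨o'.1, fun q => n (congrArg _ (Subtype.ext q.symm)), (x0.σ.vs_un _).le ⟨b, c⟩⟩))
    · exact pv _ _ _ b c ▸ mk_kv x0.h.ok v'.2
    · exact pv _ _ _ a c ▸ mk_kv x0.h.ok v.2
    · exact pv _ _ _ a c ▸ mk_kv x0.h.ok v.2
  · rintro (o | v)
    · exact x.σ.un_mono (subset_univ _)
    · obtain ⟨a, -, q, -⟩ := x.h.pex _ (p1 v)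
      rw [p2] at q
      exact q.ge.trans (subset_biUnion_of_mem (u := x.σ.pc) (mem_univ a))
  · rintro (o | v) i n w ⟨⟨a, b⟩, c⟩
    · refine h.mem_l1 o.2 (share1 x.h.ok x.h.lam ((x.σ.vs_un _).le ⟨a, c⟩) ?_)
      rcases i with o' | v'
      · exact Or.inr ⟨_, fun q => n (congrArg _ (Subtype.ext (h.tg_inj o'.2 o.2 q).symm)),
          (x.σ.vs_un _).le ⟨b, c⟩⟩
      · exact Or.inl (pv _ _ _ b c ▸ mk_kv x.h.ok (p1 v'))
    · exact List.mem_singleton.2 (pv _ _ _ a c)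
  · intro v _
    have od : Yr x0 x e ch Y v ⊆ Od := fun w hw => x.σ.vs_od _ (h.yr_vs hw)
    refine ⟨od, fun w hw => x.σ.vs_VV _ (h.yr_vs hw), ?_, fun a ha b hb => h.joined ?_
      (fun a b => Relation.ReflTransGen.mono (fun _ _ => Or.inl) _ _)
      (fun j k hk a b c1 c2 => Or.inr ⟨Sum.inl ⟨Sum.inr (j, k), hk⟩, c1, c2⟩) ha hb⟩
    · rintro (o | v') w ⟨a, b⟩
      · exact h.mem_l1 o.2 (h.yr_rt o.2 a ((x.σ.vs_un _).le ⟨b, od a⟩))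
      · exact List.mem_singleton.2 (pv _ _ _ b (od a))
    · rintro a b (⟨c1, c2, c3⟩ | ⟨i, c1, c2⟩)
      exacts [Or.inl ⟨c2, c1, c3.symm⟩, Or.inr ⟨i, c2, c1⟩]

end Cx

end jr

theorem realS (tame : TameS) : RealS := fun _ x0 x _ _ _ _ _ _ hM hS hC hN =>
  jr.Cx.real ⟨jr.fa tame x0, jr.fa tame x, hM, hS, hC, hN⟩

end Pool.Agent.MP_9d78a0_co.gm

end MrgPart2

-- ======== part 3: formerly Pool.Agent.MP_9d78a0_co.gm.FDead
section MrgPart3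

/-! Block F, row DEAD: the dead ends of the sides lie in the hull. -/

set_option autoImplicit false

namespace Pool.Agent.MP_9d78a0_co.gm

open Set Function

namespace FDead

section defs

variable (D : Dat)

/-- outer dead positions and outer bags -/
def OD (j : D.t.ι) (i : ℕ) : Prop :=
  i ≤ D.t.m j ∧ ((∀ k ≤ i, ¬ D.Live j k) ∨ ∀ k ≤ D.t.m j, i ≤ k → ¬ D.Live j k)

def OB (j : D.t.ι) (i : ℕ) : Prop :=
  i < D.t.m j ∧ ((∀ k ≤ i, ¬ D.Live j k) ∨ ∀ k ≤ D.t.m j, i < k → ¬ D.Live j k)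

def Q : Set MV := (D.t.s.Vt \ D.t.s.H) \ (Sum.inl '' D.Bd ∪ D.brk)

def P0 : Set MV := {y | ∃ j i, OD D j i ∧ y = Sum.inl (D.t.u j i)}

/-- what hangs at the outer dead positions -/
def DD : Set MV := {y | ∃ p ∈ P0 D, y ∈ fb.cp D.t.s.G (Q D ∪ P0 D) p}

/-- the enlarged hull -/
def Z : Set D.σ.ε := {a | a ∈ D.Ws ∨ (∃ x ∈ DD D, D.t.own a = some (Sum.inl x)) ∨
  ∃ j i, OB D j i ∧ D.t.own a = some (Sum.inr (j, i))}

/-- the first and the last live position -/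
def Lf (j : D.t.ι) (c : ℕ) : Prop := c ≤ D.t.m j ∧ D.Live j c ∧ ∀ k < c, ¬ D.Live j k

def Rt (j : D.t.ι) (c : ℕ) : Prop :=
  c ≤ D.t.m j ∧ D.Live j c ∧ ∀ k ≤ D.t.m j, c < k → ¬ D.Live j k

structure Hy : Prop where
  ok : D.Ok
  lam : D.t.Λ = ∅
  mrk : D.t.Mk ⊆ D.σ.vs D.Sd
  kf : D.Kf
  xf : D.Xf

end defs

variable {D : Dat}

theorem mem_vs {σ : AG} {U : Set σ.ε} {v : W} : v ∈ σ.vs U ↔ ∃ a ∈ U, v ∈ σ.inc a := by
  simp only [AG.vs, mem_iUnion, exists_prop]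

theorem exists_lf {j : D.t.ι} {a : ℕ} (h1 : a ≤ D.t.m j) (h2 : D.Live j a) :
    ∃ c ≤ a, Lf D j c := by
  classical
  have e : ∃ a, D.Live j a := ⟨a, h2⟩
  have k := Nat.find_min' e h2
  exact ⟨Nat.find e, k, k.trans h1, Nat.find_spec e, fun _ c => Nat.find_min e c⟩

theorem exists_rt {j : D.t.ι} {b : ℕ} (h1 : b ≤ D.t.m j) (h2 : D.Live j b) :
    ∃ c, b ≤ c ∧ Rt D j c := by
  classical
  exact ⟨Nat.findGreatest (D.Live j) (D.t.m j), Nat.le_findGreatest h1 h2,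
    Nat.findGreatest_le _, Nat.findGreatest_spec h1 h2,
    fun k a b => Nat.findGreatest_is_greatest b a⟩

theorem not_ob {j : D.t.ι} {i : ℕ} (h1 : i < D.t.m j) (h2 : ¬ OB D j i) :
    (∃ a ≤ i, D.Live j a) ∧ ∃ b ≤ D.t.m j, i < b ∧ D.Live j b := by
  by_contra c
  refine h2 ⟨h1, (not_and_or.1 c).imp (fun c k a b => c ⟨k, a, b⟩) fun c k a b e => c ⟨k, a, b, e⟩⟩

theorem ent_d {σ : AG} (t : Sh σ) (j : t.ι) (i : ℕ) : t.ent j i (t.d j) = t.u j i :=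
  if_neg (lt_irrefl _)

theorem p0_dd {j : D.t.ι} {i : ℕ} (h : OD D j i) : Sum.inl (D.t.u j i) ∈ DD D :=
  ⟨_, ⟨j, i, h, rfl⟩, fb.cp_self (Or.inr ⟨j, i, h, rfl⟩)⟩

theorem dd_step {x y : MV} (hy : y ∈ DD D) (hx : x ∈ Q D) (e : D.t.s.G.Adj y x) : x ∈ DD D := by
  obtain ⟨p, h1, h2⟩ := hy
  exact ⟨p, h1, fb.cp_closed h2 (Or.inl hx) e⟩

theorem od_dead {j : D.t.ι} {i : ℕ} (h : OD D j i) : ¬ D.Live j i :=
  h.2.elim (fun c => c i le_rfl) fun c => c i h.1 le_rfl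

theorem cellQ {x : MV} (hx : x ∈ D.t.s.Ce) : x ∈ Q D := by
  refine ⟨⟨hx.1.1, fun c => hx.2 (Or.inl c)⟩, ?_⟩
  rintro (⟨v, -, rfl⟩ | c)
  · obtain ⟨_, c⟩ := hx.1.2
    cases c
  · exact hx.2 (Or.inr c.1)

namespace Hy

variable (h : Hy D)
include h

theorem tok : D.t.Ok := h.ok.pre.ok

theorem nl (v : W) : v ∉ D.t.Λ := by
  rw [h.lam]
  exact notMem_empty v

theorem act {j : D.t.ι} {i l : ℕ} (h1 : i < D.t.m j) (h2 : l ≤ D.t.d j) : D.t.Act j i l :=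
  ⟨h1, h2, h.nl _, h.nl _⟩

theorem notH (v : W) : Sum.inl v ∉ D.t.s.H := fun c => by
  obtain ⟨_, c⟩ := h.tok.ok.hr.1 c
  cases c

theorem nodeQ {v : W} (h1 : Sum.inl v ∈ D.t.s.Vt) (h2 : v ∉ D.Bd) : Sum.inl v ∈ Q D := by
  refine ⟨⟨h1, h.notH v⟩, ?_⟩
  rintro (⟨w, hw, e⟩ | c)
  · exact h2 (Sum.inl_injective e ▸ hw)
  · obtain ⟨_, c⟩ := h.tok.ok.hr.2.1 c.1
    cases c

theorem nbV {x : MV} {v : W} (e : v ∈ D.t.s.nb x) : Sum.inl v ∈ D.t.s.Vt :=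
  ((fSkS _ h.tok.ok).2.2.2.1 _ _ (D.t.s.G.adj_symm e)).1

theorem closeK {x y : MV} (hy : y ∈ D.K D.brk) (e : D.t.s.G.Adj y x) (hx : x ∈ Q D) :
    x ∈ D.K D.brk := by
  rcases (h.kf.big _ subset_rfl h.kf.bk).2.2.2.2.2 y hy x e with ((c | c) | c) | c
  exacts [c, absurd c hx.1.2, absurd (Or.inl c) hx.2, absurd (Or.inr c) hx.2]

theorem adjK {x y : MV} (hx : x ∈ Q D ∪ P0 D) (h1 : x ∉ D.K D.brk) (hy : y ∈ D.K D.brk) :
    ¬ D.t.s.G.Adj x y := fun e => by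
  rcases hx with c | ⟨j, i, c, rfl⟩
  · exact h1 (h.closeK hy e.symm c)
  · exact od_dead c (Or.inr ⟨y, hy, e⟩)

theorem dd_off {y : MV} (hy : y ∈ DD D) : y ∉ D.K D.brk := by
  obtain ⟨p, ⟨j, i, c, rfl⟩, h1, h2⟩ := hy
  clear h1
  induction h2 with
  | refl => exact fun k => od_dead c (Or.inl k)
  | tail _ e ih => exact fun k => h.adjK e.1 ih k e.2.2

theorem dd_dead {j : D.t.ι} {k : ℕ} (h1 : Sum.inl (D.t.u j k) ∈ DD D) : ¬ D.Live j k := by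
  rintro (c | ⟨y, hy, e⟩)
  · exact h.dd_off h1 c
  · obtain ⟨p, h2, h3⟩ := id h1
    exact h.adjK h3.1 (h.dd_off h1) hy e

/-- nothing hangs between two live positions -/
theorem mid {j : D.t.ι} {a k b : ℕ} (h1 : a ≤ k) (h2 : k ≤ b) (h3 : b ≤ D.t.m j)
    (ha : D.Live j a) (hb : D.Live j b) : Sum.inl (D.t.u j k) ∉ DD D := fun c => by
  have hk := h.dd_dead c
  obtain ⟨p, hp, hc⟩ := c
  obtain ⟨j', i', o, rfl⟩ := id hp
  have n := h.ok.ter.node j' i' o.1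
  have s1 : fb.cp D.t.s.G (Q D ∪ P0 D) (Sum.inl (D.t.u j' i')) ⊆ D.t.s.Vt \ D.t.s.H := by
    rintro y ⟨c | ⟨j'', i'', c, rfl⟩, -⟩
    · exact c.1
    · exact ⟨(h.ok.ter.node j'' i'' c.1).1.1, h.notH _⟩
  have s2 : Disjoint (fb.cp D.t.s.G (Q D ∪ P0 D) (Sum.inl (D.t.u j' i')))
      (D.K D.brk ∪ {Sum.inl (D.t.u j a), Sum.inl (D.t.u j b)}) := by
    rw [disjoint_left]
    rintro y hy (c | rfl | rfl)
    · exact h.dd_off ⟨_, hp, hy⟩ c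
    · exact h.dd_dead ⟨_, hp, hy⟩ ha
    · exact h.dd_dead ⟨_, hp, hy⟩ hb
  obtain ⟨k', k1, k2, k3⟩ := h.xf j a k b _ (lt_of_le_of_ne h1 fun e => hk (e ▸ ha))
    (lt_of_le_of_ne h2 fun e => hk (e ▸ hb)) h3 ha hb s1 (fb.cp_conn (Or.inr hp)) s2 hc
    (D.t.u j' i') ⟨_, (h.tok.hole j').2, n.2.2.2⟩ (fb.cp_self (Or.inr hp))
  obtain ⟨rfl, rfl⟩ := h.ok.up.pos j' j i' o.1 k' (by omega) k3
  rcases o.2 with c | c
  · exact c a k1.le ha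
  · exact c b h3 k2.le hb

theorem knode {j : D.t.ι} {i : ℕ} {v : W} (h1 : i ≤ D.t.m j) (h2 : v ∈ D.t.κ j i)
    (h3 : Sum.inl v ∈ D.t.s.Vt) : v = D.t.u j i := by
  rcases h2 with c | ⟨l, hl, rfl⟩
  · exact c
  · exact absurd h3 ((h.tok.inner j i h1 l hl).2 (h.nl _))

theorem shc {a : D.σ.ε} {x : MV} {v : W} (h1 : D.t.own a = some (Sum.inl x)) (h2 : v ∈ D.σ.inc a)
    (h3 : Sum.inl v ∈ D.t.s.Vt) : v ∈ D.t.s.nb x :=
  (h.tok.share a v ⟨h2, h.nl v⟩ (Or.inl h3)).1 x h1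

theorem shb {a : D.σ.ε} {j : D.t.ι} {i : ℕ} {v : W} (h1 : D.t.own a = some (Sum.inr (j, i)))
    (h2 : v ∈ D.σ.inc a) (h3 : Sum.inl v ∈ D.t.s.Vt) : v = D.t.u j i ∨ v = D.t.u j (i + 1) := by
  have k := h.tok.ownb a j i h1
  exact ((h.tok.share a v ⟨h2, h.nl v⟩ (Or.inl h3)).2.1 j i h1).imp
    (fun c => h.knode k.le c h3) fun c => h.knode k c h3

theorem rest {a : D.σ.ε} (h1 : a ∉ D.Ws) : D.t.own a ≠ none := fun c =>
  h1 (h.ok.hull.sm.2.2 (h.ok.pre.rest c))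

/-- the owner of an atom outside the enlarged hull -/
theorem outside {a : D.σ.ε} (h1 : a ∉ Z D) :
    (∃ x, D.t.own a = some (Sum.inl x) ∧ x ∈ D.t.s.Ce ∧ x ∉ DD D) ∨
      ∃ j i, D.t.own a = some (Sum.inr (j, i)) ∧ i < D.t.m j ∧ ¬ OB D j i := by
  obtain ⟨x | ⟨j, i⟩, e⟩ := Option.ne_none_iff_exists'.1 (h.rest fun c => h1 (Or.inl c))
  · exact Or.inl ⟨x, e, h.tok.ownc a x e, fun c => h1 (Or.inr (Or.inl ⟨x, c, e⟩))⟩
  · exact Or.inr ⟨j, i, e, h.tok.ownb a j i e, fun c => h1 (Or.inr (Or.inr ⟨j, i, c, e⟩))⟩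

/-- a node that hangs at a dead end is not seen from outside -/
theorem inside {v : W} (h1 : Sum.inl v ∈ DD D) (h2 : Sum.inl v ∈ D.t.s.Vt) {a : D.σ.ε}
    (h3 : a ∉ Z D) : v ∉ D.σ.inc a := fun c => by
  rcases h.outside h3 with ⟨x, e, k1, k2⟩ | ⟨j, i, e, k1, k2⟩
  · exact k2 (dd_step h1 (cellQ k1) (D.t.s.G.adj_symm (h.shc e c h2)))
  · obtain ⟨⟨a0, a1, a2⟩, b0, b1, b2, b3⟩ := not_ob k1 k2
    rcases h.shb e c h2 with rfl | rfl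
    · exact h.mid a1 b2.le b1 a2 b3 h1
    · exact h.mid (a1.trans (Nat.le_succ i)) b2 b1 a2 b3 h1

/-- the new boundary vertices are entries of the first or last live cut -/
theorem classify {v : W} (h1 : v ∈ D.σ.bd (Z D)) (h2 : v ∉ D.Vw) :
    ∃ j c l, l ≤ D.t.d j ∧ v = D.t.ent j c l ∧ (Lf D j c ∨ Rt D j c) := by
  obtain ⟨⟨a, ha, va⟩, a', ha', va'⟩ := h1
  have hW : a ∉ D.Ws := fun c => h2 (mem_vs.2 ⟨a, c, va⟩)
  have hB : v ∉ D.Bd := fun c => h2 (mem_vs.2 c.1)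
  have hne : D.t.own a' ≠ D.t.own a := fun e => by
    rcases ha with c | c | c
    · exact hW c
    · exact ha' (Or.inr (Or.inl (e ▸ c)))
    · exact ha' (Or.inr (Or.inr (e ▸ c)))
  have sh := h.tok.share a v ⟨va, h.nl v⟩
    (Or.inr (Or.inr ⟨a', hne, h.rest fun c => ha' (Or.inl c), va'⟩))
  rcases ha with c | ⟨x, hx, e⟩ | ⟨j, i, o, e⟩
  · exact absurd c hW
  · have n := sh.1 x e
    exact absurd va' (h.inside (dd_step hx (h.nodeQ (h.nbV n) hB) n) (h.nbV n) ha')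
  rcases h.outside ha' with ⟨x, e', k1, k2⟩ | ⟨j', i', e', k1, k2⟩
  · have n := h.nbV ((h.tok.share a' v ⟨va', h.nl v⟩
      (Or.inr (Or.inr ⟨a, hne.symm, h.rest hW, va⟩))).1 x e')
    have nd : Sum.inl v ∉ DD D := fun c => h.inside c n ha' va'
    rcases h.shb e va n with rfl | rfl
    · refine ⟨j, i, _, le_rfl, (ent_d _ _ _).symm, Or.inr ⟨o.1.le, ?_, ?_⟩⟩
      · by_contra c
        refine nd (p0_dd ⟨o.1.le, o.2.imp id fun c' k a b => ?_⟩)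
        rcases b.eq_or_lt with rfl | b
        exacts [c, c' k a b]
      · exact o.2.resolve_left fun c => nd (p0_dd ⟨o.1.le, Or.inl c⟩)
    · refine ⟨j, i + 1, _, le_rfl, (ent_d _ _ _).symm, Or.inl ⟨o.1, ?_, ?_⟩⟩
      · by_contra c
        refine nd (p0_dd ⟨o.1, o.2.imp (fun c' k b => ?_) id⟩)
        rcases b.eq_or_lt with rfl | b
        exacts [c, c' k (by omega)]
      · have := o.2.resolve_right fun c => nd (p0_dd ⟨o.1, Or.inr c⟩)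
        exact fun k b => this k (by omega)
  · obtain ⟨l, hl, hv⟩ : ∃ l ≤ D.t.d j, v ∈ D.t.ter j i l := by
      rcases sh.2.1 j i e with c | c <;> rw [(h.ok.ter.cut j _).1] at c <;>
        obtain ⟨l, hl, rfl⟩ := c
      · exact ⟨l, hl, (h.ok.ter.link j i l (h.act o.1 hl)).2.1⟩
      · exact ⟨l, hl, (h.ok.ter.link j i l (h.act o.1 hl)).2.2.1⟩
    obtain ⟨rfl, n1, n2⟩ := h.ok.ter.inb j i l (h.act o.1 hl) v hv j' i' (mem_vs.2 ⟨a', e', va'⟩)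
    obtain ⟨⟨a0, a1, a2⟩, b0, b1, b2, b3⟩ := not_ob k1 k2
    rcases o.2 with o' | o'
    · obtain ⟨c, c1, c2⟩ := exists_lf (by omega) a2
      exact ⟨j', c, l, hl, n1 c (not_le.1 fun k => o' c k c2.2.1) (by omega), Or.inl c2⟩
    · obtain ⟨c, c1, c2⟩ := exists_rt b1 b3
      exact ⟨j', c, l, hl, n2 c (by omega) (not_lt.1 fun k => o' c c2.1 k c2.2.1), Or.inr c2⟩

theorem mkW {j : D.t.ι} {i l : ℕ} (h1 : i = 0 ∨ i = D.t.m j) (h2 : l ≤ D.t.d j) :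
    D.t.ent j i l ∈ D.Vw := by
  have k : D.t.ent j i l ∈ D.t.κ j i := by
    rw [(h.ok.ter.cut j i).1]
    exact ⟨l, h2, rfl⟩
  have k2 : D.t.ent j i l ∈ D.t.Mk := by
    rcases h1 with rfl | rfl
    · exact Or.inl (mem_iUnion.2 ⟨j, Or.inl k⟩)
    · exact Or.inl (mem_iUnion.2 ⟨j, Or.inr k⟩)
  obtain ⟨a, ha, va⟩ := mem_vs.1 (h.mrk k2)
  exact mem_vs.2 ⟨a, h.ok.hull.sm.2.2 ha, va⟩

/-- a new boundary vertex is paid by an old one that has become interior -/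
theorem pays {j : D.t.ι} {c l : ℕ} (hl : l ≤ D.t.d j) (hv : D.t.ent j c l ∉ D.Vw)
    (hc : Lf D j c ∨ Rt D j c) : ∃ i z, i < D.t.m j ∧ z ∈ D.t.ter j i l ∧ z ∈ D.Bd ∧
      z ∉ D.σ.bd (Z D) ∧ ((Lf D j c ∧ i < c) ∨ (Rt D j c ∧ c ≤ i)) := by
  have key : ∀ i z, i < D.t.m j → z ∈ D.t.ter j i l → z ∈ D.Bd →
      (Lf D j c ∧ i < c) ∨ (Rt D j c ∧ c ≤ i) → z ∉ D.σ.bd (Z D) := by
    rintro i z hi hz hb hc ⟨-, a, ha, za⟩
    have ne : z ≠ D.t.ent j c l := fun e => hv (e ▸ mem_vs.2 hb.1)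
    have od : ∀ k, k = i ∨ k = i + 1 → k ≠ c → Sum.inl (D.t.u j k) ∈ DD D := fun k k1 k2 =>
      p0_dd ⟨by omega, hc.imp (fun o k' k3 => o.1.2.2 k' (by have := o.2; omega))
        fun o k' k3 k4 => o.1.2.2 k' k3 (by have := o.2; omega)⟩
    have nd : ∀ k, k = i ∨ k = i + 1 → l = D.t.d j → z ≠ D.t.u j k := fun k k1 k2 e => by
      have k3 : k ≠ c := fun e' => ne (by rw [e, k2, ent_d, e'])
      exact h.inside (od k k1 k3) (h.ok.ter.node j k (by omega)).1.1 ha (e ▸ za)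
    rcases h.outside ha with ⟨x, e, k1, k2⟩ | ⟨j', i', e, k1, k2⟩
    · obtain ⟨n1, n2 | n2 | ⟨rfl, -⟩⟩ :=
        h.ok.ter.inc j i l (h.act hi hl) z hz x (mem_vs.2 ⟨a, e, za⟩)
      · exact nd i (Or.inl rfl) n1 n2
      · exact nd (i + 1) (Or.inr rfl) n1 n2
      · have n := h.ok.ter.lk j i hi
        by_cases ic : i = c
        · exact k2 (dd_step (od (i + 1) (Or.inr rfl) (by omega)) (cellQ k1)
            (D.t.s.G.adj_symm n.2.1))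
        · exact k2 (dd_step (od i (Or.inl rfl) ic) (cellQ k1) (D.t.s.G.adj_symm n.1))
    · obtain ⟨rfl, n1, n2⟩ := h.ok.ter.inb j i l (h.act hi hl) z hz j' i' (mem_vs.2 ⟨a, e, za⟩)
      obtain ⟨⟨a0, a1, a2⟩, b0, b1, b2, b3⟩ := not_ob k1 k2
      rcases hc with ⟨o, o'⟩ | ⟨o, o'⟩
      · exact ne (n1 c o' ((not_lt.1 fun k => o.2.2 a0 k a2).trans a1))
      · exact ne (n2 c (b2.trans_le (not_lt.1 fun k => o.2.2 b0 b1 k b3)) o')
  rcases hc with o | o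
  · obtain ⟨i, -, i2, z, z1, z2⟩ := h.ok.ter.pay D.Ws j l 0 c (Nat.zero_le c)
      (fun i _ k => h.act (k.trans_le o.1) hl) fun k => hv (k.1 (h.mkW (Or.inl rfl) hl))
    exact ⟨i, z, i2.trans_le o.1, z1, z2, key i z (i2.trans_le o.1) z1 z2 (Or.inl ⟨o, i2⟩),
      Or.inl ⟨o, i2⟩⟩
  · obtain ⟨i, i1, i2, z, z1, z2⟩ := h.ok.ter.pay D.Ws j l c (D.t.m j) o.1
      (fun i _ k => h.act k hl) fun k => hv (k.2 (h.mkW (Or.inr rfl) hl))
    exact ⟨i, z, i2, z1, z2, key i z i2 z1 z2 (Or.inr ⟨o, i1⟩), Or.inr ⟨o, i1⟩⟩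

theorem order : D.σ.f (Z D) ≤ D.σ.f D.Ws := by
  classical
  have ex : ∀ v, v ∈ D.σ.bd (Z D) → v ∉ D.Vw → ∃ z, ∃ j c l i, l ≤ D.t.d j ∧
      v = D.t.ent j c l ∧ i < D.t.m j ∧ z ∈ D.t.ter j i l ∧ z ∈ D.Bd ∧
      z ∉ D.σ.bd (Z D) ∧ ((Lf D j c ∧ i < c) ∨ (Rt D j c ∧ c ≤ i)) := fun v h1 h2 => by
    obtain ⟨j, c, l, hl, rfl, hc⟩ := h.classify h1 h2
    obtain ⟨i, z, k⟩ := h.pays hl h2 hc
    exact ⟨z, j, c, l, i, hl, rfl, k⟩
  choose! z hz using ex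
  refine ncard_le_ncard_of_injOn (fun v => if v ∈ D.Vw then v else z v) (fun v hv => ?_)
    (fun v hv w hw e => ?_) h.ok.kc.fin.2.2.1
  · split_ifs with c
    · obtain ⟨a, ha, va⟩ := hv.2
      exact ⟨mem_vs.1 c, a, fun k => ha (Or.inl k), va⟩
    · obtain ⟨j, c', l, i, k⟩ := hz v hv c
      exact k.2.2.2.2.1
  · dsimp only at e
    split_ifs at e with c1 c2 c2
    · exact e
    · obtain ⟨j, c, l, i, k⟩ := hz w hw c2
      exact absurd hv (e ▸ k.2.2.2.2.2.1)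
    · obtain ⟨j, c, l, i, k⟩ := hz v hv c1
      exact absurd hw (e ▸ k.2.2.2.2.2.1)
    · obtain ⟨j, c, l, i, k1, k2, k3, k4, k5, -, k6⟩ := hz v hv c1
      obtain ⟨j', c', l', i', m1, m2, m3, m4, m5, -, m6⟩ := hz w hw c2
      rw [← e] at m4 m5
      obtain ⟨rfl, rfl, n1⟩ :=
        h.ok.ter.meet j i l j' i' l' (h.act k3 k1) (h.act m3 m1) _ ⟨k4, m4⟩
      obtain ⟨-, -, n2⟩ := h.ok.ter.meet j i' l j i l (h.act m3 m1) (h.act k3 k1) _ ⟨m4, k4⟩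
      have zw : z v ∈ D.Vw := mem_vs.2 k5.1
      rcases k6 with ⟨o, p⟩ | ⟨o, p⟩ <;> rcases m6 with ⟨o', p'⟩ | ⟨o', p'⟩
      · rw [k2, m2, le_antisymm (not_lt.1 fun k => o.2.2 c' k o'.2.1)
          (not_lt.1 fun k => o'.2.2 c k o.2.1)]
      · exact absurd (k2 ▸ n1 c p ((not_lt.1 fun k => o'.2.2 c o.1 k o.2.1).trans p') ▸ zw) c1
      · exact absurd (m2 ▸ n2 c' p' ((not_lt.1 fun k => o.2.2 c' o'.1 k o'.2.1).trans p) ▸ zw) c2
      · rw [k2, m2, le_antisymm (not_lt.1 fun k => o'.2.2 c o.1 k o.2.1)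
          (not_lt.1 fun k => o.2.2 c' o'.1 k o'.2.1)]

theorem small : Z D ∈ D.T.sm := by
  obtain ⟨b1, -, -, b2, ⟨i, j, b3⟩, -⟩ := h.kf.big _ subset_rfl h.kf.bk
  refine h.ok.pre.ctl _ ?_ ⟨i, j, fun v hv c => ?_⟩
  · have := h.order
    have := h.ok.hull.sm.2.1
    have := h.ok.num.2.1
    omega
  have k := b3 c
  obtain ⟨a, ha | ⟨x, hx, e⟩ | ⟨j', i', o, e⟩, va⟩ := mem_vs.1 hv
  · exact disjoint_left.1 b1 k (Or.inl (Or.inr ⟨v, mem_vs.2 ⟨a, ha, va⟩, rfl⟩))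
  · exact h.dd_off hx (h.closeK k (D.t.s.G.adj_symm (h.shc e va (b2 k).1))
      (cellQ (h.tok.ownc a x e)))
  · have r : ∀ k ≤ D.t.m j', Sum.inl (D.t.u j' k) ∈ D.t.s.M.rad D.t.s.vx D.t.s.H := fun k hk => by
      have n := (h.ok.ter.node j' k hk).2.1
      exact ⟨_, n.1, n.2, _, Relation.ReflTransGen.single (Or.inl rfl),
        ((fSkS _ h.tok.ok).2.1 _ n).1⟩
    have r2 : Sum.inl v ∉ D.t.s.M.rad D.t.s.vx D.t.s.H := by
      obtain ⟨k', c | c⟩ := mem_iUnion.1 c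
      · exact (h.ok.pre.grid.1 _ c).2
      · exact (h.ok.pre.grid.1 _ c).2
    rcases h.shb e va (b2 k).1 with rfl | rfl
    · exact r2 (r _ o.1.le)
    · exact r2 (r _ o.1)

end Hy

end FDead

open FDead in
theorem fDeadS : FDeadS := by
  intro D h1 _ h2 h3 h4 h5
  have h : Hy D := ⟨h1, h2, h3, h4, h5⟩
  have e : Z D = D.Ws := h1.hull.max _ h.small (fun _ c => Or.inl c) h.order
  refine fun j => ⟨fun i hi o a ha => ?_, fun i hi o x hx n => ⟨hx, fun a ha => ?_⟩⟩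
  · exact e ▸ Or.inr (Or.inr ⟨j, i, ⟨hi, o⟩, ha⟩)
  · exact e ▸ Or.inr (Or.inl ⟨x, dd_step (p0_dd ⟨hi, o⟩) (cellQ hx) (D.t.s.G.adj_symm n), ha⟩)

end Pool.Agent.MP_9d78a0_co.gm

end MrgPart3

-- ======== part 4: formerly Pool.Agent.MP_9d78a0_co.gm.FCount
section MrgPart4

/-! Block F, row COUNT: the live part of a kept side. -/

set_option autoImplicit false

namespace Pool.Agent.MP_9d78a0_co.gm

open Set Function FDead

namespace FCount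

variable {D : Dat}

theorem vw_of {U : Set D.σ.ε} (h : U ⊆ D.Ws) {v : W} (c : v ∈ D.σ.vs U) : v ∈ D.Vw :=
  D.σ.vs_mono h c

theorem uk {σ : AG} (t : Sh σ) (j : t.ι) (i : ℕ) : t.u j i ∈ t.κ j i := Or.inl rfl

theorem cell_ne {x : MV} (hx : x ∈ D.t.s.Ce) (v : W) : x ≠ Sum.inl v := by
  rintro rfl
  obtain ⟨_, c⟩ := hx.1.2
  cases c

/-- a cut with only dead positions before it lies in the hull -/
theorem left (h : Hy D) (hd : D.Df) {j : D.t.ι} :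
    ∀ c, c ≤ D.t.m j → (∀ k < c, ¬ D.Live j k) → D.t.κ j c ⊆ D.Vw := by
  intro c
  induction c with
  | zero =>
    intro _ _ v hv
    rw [(h.ok.ter.cut j 0).1] at hv
    obtain ⟨l, hl, rfl⟩ := hv
    exact h.mkW (Or.inl rfl) hl
  | succ c ih =>
    intro h1 h2
    have h3 : ∀ k ≤ c, ¬ D.Live j k := fun k hk => h2 k (by omega)
    have hb := (hd j).1 c h1 (Or.inl h3)
    have n := h.ok.ter.lk j c h1
    rintro v (rfl | ⟨l, hl, rfl⟩)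
    · rcases (h.tok.quad j c h1).2 with e | e
      · exact vw_of hb (n.2.2 e).2.2
      · exact h.ok.kc.ins _ ((hd j).2 c (by omega) (Or.inl h3) _ e n.1) n.2.1
    · obtain ⟨⟨-, -, k1, k2⟩, -⟩ := h.tok.lane j c h1 l hl (h.nl _) (h.nl _)
      rcases (k2 k1).1 with e | e
      · exact vw_of hb e
      · rw [show D.t.β j (c + 1) l = D.t.β j c l from e]
        exact ih (by omega) (fun k hk => h2 k (by omega)) (Or.inr ⟨l, hl, rfl⟩)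

/-- a cut with only dead positions after it lies in the hull -/
theorem right (h : Hy D) (hd : D.Df) {j : D.t.ι} :
    ∀ n c, c + n = D.t.m j → (∀ k ≤ D.t.m j, c < k → ¬ D.Live j k) → D.t.κ j c ⊆ D.Vw := by
  intro n
  induction n with
  | zero =>
    intro c h1 _ v hv
    rw [(h.ok.ter.cut j c).1] at hv
    obtain ⟨l, hl, rfl⟩ := hv
    exact h.mkW (Or.inr h1) hl
  | succ n ih =>
    intro c h0 h2
    have h1 : c < D.t.m j := by omega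
    have hb := (hd j).1 c h1 (Or.inr h2)
    have m := h.ok.ter.lk j c h1
    rintro v (rfl | ⟨l, hl, rfl⟩)
    · rcases (h.tok.quad j c h1).2 with e | e
      · exact vw_of hb (m.2.2 e).2.1
      · exact h.ok.kc.ins _ ((hd j).2 (c + 1) h1 (Or.inr h2) _ e m.2.1) m.1
    · obtain ⟨⟨k0, k1, k2, -⟩, -⟩ := h.tok.lane j c h1 l hl (h.nl _) (h.nl _)
      by_cases e : D.t.β j c l ∈ VV (D.σ.un (D.t.bag j c))
      · exact vw_of hb (D.σ.vs_un _ ▸ ⟨e, (h.tok.inner j c h1.le l hl).1⟩)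
      · rw [← conn_out k0 k1 k2 e]
        exact ih (c + 1) (by omega) (fun k a b => h2 k a (by omega)) (Or.inr ⟨l, hl, rfl⟩)

theorem offK (h : Hy D) {y : MV} (c : y ∈ D.Ci ∪ Sum.inl '' D.Vw ∪ D.brk) : y ∉ D.K D.brk :=
  disjoint_right.1 (h.kf.big _ subset_rfl h.kf.bk).1 c

/-- a live position in the hull is on its boundary -/
theorem live_bd (h : Hy D) {j : D.t.ι} {c : ℕ} (h1 : c ≤ D.t.m j) (h2 : D.Live j c)
    (h3 : D.t.u j c ∈ D.Vw) : D.t.u j c ∈ D.Bd := by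
  by_contra k
  refine offK h (Or.inl (Or.inr ⟨_, h3, rfl⟩)) (h2.elim id fun ⟨y, hy, e⟩ => ?_)
  exact h.closeK hy e.symm (h.nodeQ (h.ok.ter.node j c h1).1.1 k)

theorem sc_ci (h : Hy D) {x : MV} (hx : x ∈ D.t.Sc D.Sd) : x ∈ D.Ci :=
  ⟨hx.1, (h.ok.pre.scell x hx).1.trans h.ok.hull.sm.2.2⟩

/-- a position in the hull without a neighbour among the cells off the seed is dead -/
theorem dead (h : Hy D) {j : D.t.ι} {c : ℕ} (h1 : c ≤ D.t.m j) (h2 : D.t.u j c ∈ D.Vw)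
    (h3 : ¬ D.t.Att D.Sd (D.t.u j c)) : ¬ D.Live j c := by
  rintro (k | ⟨y, hy, e⟩)
  · exact offK h (Or.inl (Or.inr ⟨_, h2, rfl⟩)) k
  have k1 := (h.kf.big _ subset_rfl h.kf.bk).2.2.2.1 hy
  have k2 : y ∉ D.t.s.Nd := ((fSkS _ h.tok.ok).2.2.2.1 _ _ e).2.1 (h.ok.ter.node j c h1).1
  have n : D.t.u j c ∈ D.t.s.nb y := e.symm
  by_cases r : y ∈ D.t.s.Rm
  · obtain ⟨j', i', hi, rfl⟩ := h.tok.rim y ⟨r, k1.1⟩
    obtain ⟨-, p1, p2, -⟩ := h.tok.path j' i' hi r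
    refine offK h (Or.inr ⟨r, j', i', hi, rfl, not_disjoint_iff.2 ⟨_, ?_, h2⟩⟩) hy
    rw [((h.ok.ter.lk j' i' hi).2.2 r).1] at n
    rcases n with n | n <;> rw [n]
    exacts [p1, p2]
  · have k3 : y ∈ D.t.s.Ce := by
      refine ⟨⟨k1.1, ?_⟩, fun c => c.elim k1.2 r⟩
      rcases y with v | v
      · exact absurd ⟨k1.1, v, rfl⟩ k2
      · exact ⟨v, rfl⟩
    refine offK h (Or.inl (Or.inl (sc_ci h ?_))) hy
    by_contra k4
    exact h3 ⟨y, ⟨k3, k4⟩, n⟩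

theorem seedW (h : Hy D) {j : D.t.ι} {i : ℕ} (h1 : i < D.t.m j) (h2 : D.Sb j i) {v : W}
    (h3 : v = D.t.u j i ∨ v = D.t.u j (i + 1)) (h4 : ¬ D.t.Att D.Sd v) : v ∈ D.Vw := by
  have n := h.ok.ter.lk j i h1
  rcases (h.tok.quad j i h1).2 with e | e
  · refine vw_of (((h.ok.pre.sbag j i h1).1 h2).trans h.ok.hull.sm.2.2) ?_
    rcases h3 with rfl | rfl
    exacts [(n.2.2 e).2.1, (n.2.2 e).2.2]
  · have m : v ∈ D.t.s.nb (D.t.lk j i) := by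
      rcases h3 with rfl | rfl
      exacts [n.1, n.2.1]
    refine h.ok.kc.ins _ (sc_ci h ?_) m
    by_contra k
    exact h4 ⟨_, ⟨e, k⟩, m⟩

/-- two cuts with a common vertex -/
theorem cuts (h : Hy D) {j j' : D.t.ι} {k k' : ℕ} {v : W} (h1 : k ≤ D.t.m j) (h2 : k' ≤ D.t.m j')
    (h3 : v ∈ D.t.κ j k) (h4 : v ∈ D.t.κ j' k') :
    j = j' ∧ ∀ c, (k ≤ c ∧ c ≤ k') ∨ (k' ≤ c ∧ c ≤ k) → v ∈ D.t.κ j c := by
  by_cases n : Sum.inl v ∈ D.t.s.Vt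
  · obtain ⟨rfl, rfl⟩ := h.ok.up.pos j j' k h1 k' h2
      ((h.knode h1 h3 n).symm.trans (h.knode h2 h4 n))
    exact ⟨rfl, fun c hc => (show k = c by omega) ▸ h3⟩
  rcases h3 with rfl | ⟨l, hl, rfl⟩
  · exact absurd (h.ok.ter.node j k h1).1.1 n
  rcases h4 with e | ⟨l', hl', e⟩
  · exact absurd (e ▸ (h.ok.ter.node j' k' h2).1.1) n
  obtain ⟨rfl, rfl⟩ := h.tok.priv j j' k h1 k' h2 l hl l' hl' (h.nl _) e.symm
  refine ⟨rfl, fun c hc => Or.inr ⟨l, hl, ?_⟩⟩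
  rcases hc with ⟨a, b⟩ | ⟨a, b⟩
  · exact h.tok.conv j l hl k c k' a b h2 (h.nl _) e.symm
  · exact (h.tok.conv j l hl k' c k a b h1 (h.nl _) e).trans e

section defs

variable (D) (j : D.t.ι) (a b : ℕ)

def Z : Set MV := (D.Ci ∪ Sum.inl '' D.Vw ∩ D.t.s.Vt) \ {Sum.inl (D.t.u j a), Sum.inl (D.t.u j b)}

/-- what hangs inside the hull at the positions between `a` and `b` -/
def P : Set MV := {y | ∃ k, a < k ∧ k < b ∧ y ∈ fb.cp D.t.s.G (Z D j a b) (Sum.inl (D.t.u j k))}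

/-- the reduced hull -/
def U : Set D.σ.ε := {x | x ∈ D.Ws ∧ (∀ k, a ≤ k → k < b → D.t.own x ≠ some (Sum.inr (j, k))) ∧
  ∀ y ∈ P D j a b, D.t.own x ≠ some (Sum.inl y)}

structure Hz : Prop where
  hy : Hy D
  str : D.t.Str
  bm : b ≤ D.t.m j
  la : D.Live j a
  lb : D.Live j b
  ua : D.t.u j a ∈ D.Bd
  ub : D.t.u j b ∈ D.Bd
  seed : ∀ k, a ≤ k → k < b → ¬ D.Sb j k ∧ D.t.lk j k ∉ D.t.Sc D.Sd

end defs

variable {j : D.t.ι} {a b : ℕ}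

theorem p_step {x y : MV} (hy : y ∈ P D j a b) (hx : x ∈ Z D j a b) (e : D.t.s.G.Adj y x) :
    x ∈ P D j a b := by
  obtain ⟨k, h1, h2, h3⟩ := hy
  exact ⟨k, h1, h2, fb.cp_closed h3 hx e⟩

theorem ci_z {x : MV} (hx : x ∈ D.Ci) : x ∈ Z D j a b :=
  ⟨Or.inl hx, fun c => c.elim (cell_ne hx.1 _) (cell_ne hx.1 _)⟩

theorem node_z {v : W} (h1 : v ∈ D.Vw) (h2 : Sum.inl v ∈ D.t.s.Vt) (h3 : v ≠ D.t.u j a)
    (h4 : v ≠ D.t.u j b) : Sum.inl v ∈ Z D j a b :=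
  ⟨Or.inr ⟨⟨v, h1, rfl⟩, h2⟩,
    fun c => c.elim (fun c => h3 (Sum.inl_injective c)) fun c => h4 (Sum.inl_injective c)⟩

namespace Hz

variable (h : Hz D j a b)
include h

theorem zsub : Z D j a b ⊆ D.t.s.Vt \ D.t.s.H := by
  rintro y ⟨c | ⟨⟨v, -, rfl⟩, c⟩, -⟩
  · exact (cellQ c.1).1
  · exact ⟨c, h.hy.notH v⟩

theorem between {v : W} (h1 : v ∈ D.t.s.Po) (h2 : Sum.inl v ∈ P D j a b) :
    ∃ k, a < k ∧ k < b ∧ v = D.t.u j k := by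
  obtain ⟨k, k1, k2, k3⟩ := h2
  have k4 := k3.2.symm.mem k3.1
  refine h.hy.xf j a k b _ k1 k2 h.bm h.la h.lb (fb.cp_sub.trans h.zsub) (fb.cp_conn k4) ?_
    (fb.cp_self k4) v h1 k3
  rw [disjoint_left]
  rintro y ⟨⟨c1, c2⟩, -⟩ (c | c)
  · exact offK h.hy (Or.inl (c1.imp id fun c => c.1)) c
  · exact c2 c

theorem own_ci {x : D.σ.ε} {y : MV} (h1 : x ∈ D.Ws) (h2 : D.t.own x = some (Sum.inl y)) :
    y ∈ D.Ci := by
  have k := h.hy.tok.ownc x y h2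
  obtain ⟨z, e, -⟩ := h.str y k
  refine ⟨k, ?_⟩
  have : x ∈ D.t.ct y := h2
  rw [e] at this ⊢
  exact singleton_subset_iff.2 (this ▸ h1)

theorem inner {v : W} (h1 : v ∈ D.σ.vs D.Sd \ D.σ.bd D.Sd) {x : D.σ.ε} (h2 : v ∈ D.σ.inc x) :
    x ∈ D.Sd := by
  by_contra c
  exact h1.2 ⟨mem_vs.1 h1.1, x, c, h2⟩

theorem nobad {v : W} (h1 : v ∈ D.t.s.Po) (h2 : v ∈ D.σ.vs D.Sd \ D.σ.bd D.Sd) :
    Sum.inl v ∉ P D j a b := fun h3 => by
  obtain ⟨k, k1, k2, rfl⟩ := h.between h1 h3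
  have k3 : k < D.t.m j := k2.trans_le h.bm
  have n := h.hy.ok.ter.lk j k k3
  have s := h.seed k k1.le k2
  rcases (h.hy.tok.quad j k k3).2 with e | e
  · obtain ⟨x, x1, x2⟩ := mem_vs.1 (n.2.2 e).2.1
    exact disjoint_left.1 ((h.hy.ok.pre.sbag j k k3).2 s.1) x1 (h.inner h2 x2)
  · obtain ⟨⟨x, x1, x2⟩, -⟩ := (h.hy.tok.solid _ e).2 n.1
    exact s.2 ⟨e, not_disjoint_iff.2 ⟨x, x1, h.inner h2 x2⟩⟩

theorem nosc {x : MV} (h1 : x ∈ P D j a b) : x ∉ D.t.Sc D.Sd := fun h2 => by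
  obtain ⟨-, o, ho, l⟩ := h.hy.ok.pre.scell x h2
  have sw := h.hy.ok.hull.sm.2.2
  have key : ∀ y, Link D.t.s.G (D.t.Sc D.Sd ∪ {o} ∪ Sum.inl '' (D.σ.vs D.Sd \ D.σ.bd D.Sd)) x y →
      y ∈ P D j a b := by
    intro y hy
    induction hy with
    | refl => exact h1
    | @tail y z _ e ih =>
      have sk := (fSkS _ h.hy.tok.ok).2.2.2.1
      rcases e.2.1 with (c | rfl) | ⟨v, hv, rfl⟩
      · exact p_step ih (ci_z (sc_ci h.hy c)) e.2.2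
      · exfalso
        rcases e.1 with (c | rfl) | ⟨v, hv, rfl⟩
        · obtain ⟨-, v, rfl⟩ := (sk _ _ e.2.2).2.2 fun ⟨_, v, k⟩ => h.hy.notH v (k ▸ ho)
          exact cell_ne c.1 v rfl
        · exact e.2.2.ne rfl
        · exact h.nobad ⟨z, ho, e.2.2.symm⟩ hv ih
      · have ne : ∀ w ∈ D.Bd, v ≠ w := by
          rintro w ⟨-, x, x1, x2⟩ rfl
          exact x1 (sw (h.inner hv x2))
        exact p_step ih (node_z (vw_of sw hv.1) (sk _ _ e.2.2.symm).1 (ne _ h.ua) (ne _ h.ub)) e.2.2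
  obtain ⟨k, -, -, c, -⟩ := key o l.symm
  exact (h.zsub c).2 ho

theorem sd_u : D.Sd ⊆ U D j a b := fun x hx =>
  ⟨h.hy.ok.hull.sm.2.2 hx, fun k k1 k2 e => disjoint_left.1
      ((h.hy.ok.pre.sbag j k (k2.trans_le h.bm)).2 (h.seed k k1 k2).1) e hx,
    fun y hy e => h.nosc hy ⟨h.hy.tok.ownc x y e, not_disjoint_iff.2 ⟨x, e, hx⟩⟩⟩

/-- the vertices of the reduced hull off the two end cuts are outside the region -/
theorem offreg {x : D.σ.ε} {v : W} (h1 : x ∈ U D j a b) (h2 : v ∈ D.σ.inc x)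
    (h3 : v ∉ D.t.κ j a ∪ D.t.κ j b) : v ∉ D.Reg j a b := by
  rintro ⟨i, i1, i2, c⟩
  have bm := h.bm
  obtain ⟨k, k1, k2, k3⟩ : ∃ k, a < k ∧ k < b ∧ v ∈ D.t.κ j k := by
    have c' : v ∈ D.t.κ j i ∪ D.t.κ j (i + 1) := by
      rcases c with (c | c) | c
      · exact (h.hy.ok.ter.bdb j i ⟨mem_vs.1 c, x, h1.2.1 i i1 i2, h2⟩).resolve_right (h.hy.nl v)
      · exact Or.inl c
      · exact Or.inr c
    rcases c' with c | c
    · exact ⟨i, lt_of_le_of_ne i1 fun e => h3 (Or.inl (e ▸ c)), i2, c⟩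
    · exact ⟨i + 1, by omega, lt_of_le_of_ne i2 fun e => h3 (Or.inr (e ▸ c)), c⟩
  have out : ∀ j' k', k' ≤ D.t.m j' → v ∈ D.t.κ j' k' → j' = j ∧ a < k' ∧ k' < b := by
    intro j' k' m1 m2
    obtain ⟨rfl, m3⟩ := cuts h.hy (by omega) m1 k3 m2
    refine ⟨rfl, ?_⟩
    by_contra m4
    rcases (by omega : k' ≤ a ∨ b ≤ k') with m5 | m5
    · exact h3 (Or.inl (m3 a (Or.inr ⟨m5, k1.le⟩)))
    · exact h3 (Or.inr (m3 b (Or.inl ⟨k2.le, m5⟩)))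
  have sh := h.hy.tok.share x v ⟨h2, h.hy.nl v⟩ (Or.inr (Or.inl ⟨j, k, by omega, k3⟩))
  rcases e : D.t.own x with _ | y | ⟨j', i'⟩
  · rcases sh.2.2 e with c | ⟨f, hf, rfl⟩
    · obtain ⟨j', c | c⟩ := mem_iUnion.1 c
      · have := out j' 0 (Nat.zero_le _) c
        omega
      · obtain ⟨rfl, -, m⟩ := out j' _ le_rfl c
        omega
    · have n := ((fSkS _ h.hy.tok.ok).2.1 f hf.1).2.1
      exact h.hy.ok.up.fx f hf j k (by omega) (h.hy.knode (by omega) k3 (h.hy.nbV n))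
  · have n := sh.1 y e
    have z := node_z (j := j) (a := a) (b := b) (mem_vs.2 ⟨x, h1.1, h2⟩) (h.hy.nbV n)
      (fun c => h3 (Or.inl (Or.inl c))) fun c => h3 (Or.inr (Or.inl c))
    have q := h.hy.knode (by omega) k3 (h.hy.nbV n)
    exact h1.2.2 y (p_step ⟨k, k1, k2, q ▸ fb.cp_self z⟩ (ci_z (h.own_ci h1.1 e))
      (D.t.s.G.adj_symm n)) e
  · have m := h.hy.tok.ownb x j' i' e
    rcases sh.2.1 j' i' e with c | c
    · obtain ⟨rfl, m1, m2⟩ := out j' i' m.le c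
      exact h1.2.1 i' m1.le m2 e
    · obtain ⟨rfl, m1, m2⟩ := out j' (i' + 1) m c
      exact h1.2.1 i' (by omega) (by omega) e

theorem bd_u : D.σ.bd (U D j a b) ⊆ (D.Bd \ D.Reg j a b) ∪ (D.t.κ j a ∪ D.t.κ j b) := by
  rintro v ⟨⟨x, hx, vx⟩, y, hy, vy⟩
  by_cases h3 : v ∈ D.t.κ j a ∪ D.t.κ j b
  · exact Or.inr h3
  have r := h.offreg hx vx h3
  refine Or.inl ⟨⟨⟨x, hx.1, vx⟩, y, fun c => hy ⟨c, fun k k1 k2 e => ?_, fun z hz e => ?_⟩, vy⟩, r⟩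
  · exact r ⟨k, k1, k2, Or.inl (Or.inl (mem_vs.2 ⟨y, e, vy⟩))⟩
  have n := (h.hy.ok.ter.bdc z ⟨⟨y, e, vy⟩, x, hx.2.2 z hz, vx⟩).resolve_right (h.hy.nl v)
  have nv := h.hy.nbV n
  have p := p_step hz (node_z (mem_vs.2 ⟨x, hx.1, vx⟩) nv (fun c => h3 (Or.inl (Or.inl c)))
    fun c => h3 (Or.inr (Or.inl c))) n
  have po : v ∉ D.t.s.Po := fun c => by
    obtain ⟨k, k1, k2, k3⟩ := h.between c p
    exact r ⟨k, k1.le, k2, Or.inl (Or.inr (Or.inl k3))⟩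
  rcases e' : D.t.own x with _ | w | ⟨j', i'⟩
  · exact po (h.hy.ok.ter.mkn v ((h.hy.tok.share x v ⟨vx, h.hy.nl v⟩ (Or.inl nv)).2.2 e') nv)
  · exact hx.2.2 w (p_step p (ci_z (h.own_ci hx.1 e'))
      (D.t.s.G.adj_symm (h.hy.shc e' vx nv))) e'
  · have m := h.hy.tok.ownb x j' i' e'
    rcases h.hy.shb e' vx nv with c | c
    · exact po ⟨_, (h.hy.tok.hole j').2, c ▸ (h.hy.ok.ter.node j' i' m.le).2.2.2⟩
    · exact po ⟨_, (h.hy.tok.hole j').2, c ▸ (h.hy.ok.ter.node j' (i' + 1) m).2.2.2⟩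

theorem cnt (hn : ∀ j', D.md j' ≠ Md.new) :
    (D.Bd ∩ D.Reg j a b).ncard ≤ 2 * (D.t.d j + 1) := by
  have f := h.hy.ok.kc.fin.2.2.1
  have ca := (h.hy.ok.ter.cut j a).2
  have cb := (h.hy.ok.ter.cut j b).2
  have k1 : D.Bd.ncard ≤ (D.σ.bd (U D j a b)).ncard :=
    h.hy.ok.hull.least h.str _ h.sd_u (fun _ c => c.1) fun j' c => absurd c (hn j')
  have k2 := ncard_le_ncard h.bd_u ((f.subset sdiff_subset).union (ca.1.union cb.1))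
  have k3 := ncard_union_le (D.Bd \ D.Reg j a b) (D.t.κ j a ∪ D.t.κ j b)
  have k4 := ncard_union_le (D.t.κ j a) (D.t.κ j b)
  have k5 := ncard_inter_add_ncard_sdiff_eq_ncard D.Bd (D.Reg j a b) f
  omega

end Hz

end FCount

open FCount in
theorem countS : CountS := by
  intro D h1 h2 h3 hd j i hk hc
  obtain ⟨m1, m2, m3, lo, hi, l1, l2, l3, l4, l5⟩ := h1.pre.keep j hk
  have h : Hy D := ⟨h1, (h1.pre.old j (m3 j)).1, m1, h2, h3⟩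
  have c1 := hc.1
  have nc : ¬ D.t.κ j i ⊆ D.Vw := fun c => disjoint_left.1 hc.2 (uk _ j i) (c (uk _ j i))
  obtain ⟨a0, a1, a2⟩ : ∃ k < i, D.Live j k := by
    by_contra c
    exact nc (left h hd i c1 fun k a b => c ⟨k, a, b⟩)
  obtain ⟨b0, b1, b2, b3⟩ : ∃ k ≤ D.t.m j, i < k ∧ D.Live j k := by
    by_contra c
    exact nc (right h hd (D.t.m j - i) i (by omega) fun k a b e => c ⟨k, a, b, e⟩)
  obtain ⟨a, a3, a4, a5, a6⟩ := exists_lf (by omega) a2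
  obtain ⟨b, b4, b5, b6, b7⟩ := exists_rt b1 b3
  have ka := left h hd a a4 a6
  have kb := right h hd (D.t.m j - b) b (by omega) b7
  have ua := live_bd h a4 a5 (ka (uk _ j a))
  have ub := live_bd h b5 b6 (kb (uk _ j b))
  have la : lo ≤ a := not_lt.1 fun c =>
    have n := l4 a a4 (Or.inl c)
    dead h a4 (seedW h (by omega) ((l3 a (by omega)).2 (Or.inl c)) (Or.inl rfl) n) n a5
  have lb : b ≤ hi := not_lt.1 fun c => by
    have n := l4 b b5 (Or.inr c)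
    obtain ⟨b, rfl⟩ : ∃ b', b = b' + 1 := ⟨b - 1, by omega⟩
    exact dead h b5 (seedW h b5 ((l3 b b5).2 (Or.inr (by omega))) (Or.inr rfl) n) n b6
  have sd : ∀ k, a ≤ k → k < b → ¬ D.Sb j k := fun k k1 k2 c => by
    have := (l3 k (by omega)).1 c
    omega
  have hz : Hz D j a b := ⟨h, m2, b5, a5, b6, ua, ub,
    fun k k1 k2 => ⟨sd k k1 k2, l5 k (by omega) (by omega)⟩⟩
  refine ⟨a, b, ⟨by omega, by omega, b5⟩, sd, ⟨union_subset ka kb, ua, ub⟩, hz.cnt m3,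
    fun k k1 k2 => (hd j).1 k k1 ?_, fun k k1 k2 x hx n => hx.2 (Or.inl ((hd j).2 k k1 ?_ x hx.1 n))⟩
  · exact k2.imp (fun c k' e => a6 k' (by omega)) fun c k' e e' => b7 k' e (by omega)
  · exact k2.imp (fun c k' e => a6 k' (by omega)) fun c k' e e' => b7 k' e (by omega)

end Pool.Agent.MP_9d78a0_co.gm

end MrgPart4

-- marker of a merged file
example : 731051 + 622826 = 731051 + 622826 := rfl
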