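import Pool.Agent.MP_9d78a0_co.gm.SpecM
import Pool.Agent.MP_9d78a0_co.gm.SpecOp
import Pool.Agent.MP_9d78a0_co.gm.CPot

/-! Block H: curves, cycles, and facts on graphs: the statements. -/

set_option autoImplicit false

namespace Pool.Agent.MP_9d78a0_co.gm

open Set Function

namespace FM

variable {Φ V : Type} (M : FM Φ)

/-- curves from a vertex to a vertex: passages through a face between two corners with flags in
`Fb`, and edges with a flag in `Fc`; the last two arguments are the weights on corners and on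
half edges -/
inductive Cv (vx : Φ → V) (Fb Fc : Set Φ) : V → V → (Φ → ZMod 2) → (Φ → ZMod 2) → Prop
  | nil (u : V) : Cv vx Fb Fc u u 0 0
  | face {u v : V} {ob oc : Φ → ZMod 2} (f g : Φ) : Cv vx Fb Fc u v ob oc → f ∈ M.S → g ∈ M.fo f →
      vx f = v → f ∈ Fb → g ∈ Fb → Cv vx Fb Fc u (vx g) (ob + Cy.one M.b f + Cy.one M.b g) oc
  | edge {u v : V} {ob oc : Φ → ZMod 2} (f : Φ) : Cv vx Fb Fc u v ob oc → f ∈ M.S → vx f = v →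
      f ∈ Fc → Cv vx Fb Fc u (vx (M.a f)) ob (oc + Cy.one M.c f + Cy.one M.c (M.a f))

/-- a colouring of the edges at the vertex of `f` that changes in two corners at most -/
def Two (f : Φ) (χ : Φ → ZMod 2) : Prop :=
  (∀ g ∈ M.vo f, χ (M.c g) = χ g) ∧ ({g | g ∈ M.vo f ∧ χ (M.b g) ≠ χ g} : Set Φ).ncard ≤ 4

end FM

/-- curves and their two sides -/
def CurS : Prop :=
  ∀ (Φ V : Type) (M : FM Φ) (vx : Φ → V), M.Ok → M.Lbl vx →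
    (∀ Fb Fc Fb' Fc' u v ob oc, Fb ⊆ Fb' → Fc ⊆ Fc' → M.Cv vx Fb Fc u v ob oc →
      M.Cv vx Fb' Fc' u v ob oc) ∧
    (∀ Fb Fc u v w ob oc ob' oc', M.Cv vx Fb Fc u v ob oc → M.Cv vx Fb Fc v w ob' oc' →
      M.Cv vx Fb Fc u w (ob + ob') (oc + oc')) ∧
    (∀ Fb Fc u v ob oc, M.Cv vx Fb Fc u v ob oc → M.Cv vx Fb (M.a '' Fc) v u ob oc) ∧
    (∀ Fb Fc u v ob oc, M.Cv vx Fb Fc u v ob oc → ∀ f ∈ M.S,
      ob (M.b f) = ob f ∧ oc (M.c f) = oc f ∧ oc (M.a f) = oc f ∧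
      (ob f ≠ 0 → f ∈ Fb ∨ M.b f ∈ Fb) ∧ (oc f ≠ 0 → ∃ g ∈ Fc ∩ M.S, f ∈ M.eo g)) ∧
    (∀ D u v, Link (M.gph vx) D u v → ∃ oc, M.Cv vx ∅ (M.ind vx D) u v 0 oc) ∧
    ∀ U Fb Fc u ob oc, M.Es U → (M.sub U).Con → (M.sub U).eg = M.eg → M.Cv vx Fb Fc u u ob oc →
      (∀ f ∈ M.sat U, ob f = 0 ∧ oc f = 0) →
      ∃ χ, Pot M.S M.a 0 χ ∧ Pot M.S M.b ob χ ∧ Pot M.S M.c oc χ ∧ ∀ f ∈ M.sat U, χ f = 0

/-- cycles of two involutions -/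
def CycS : Prop :=
  ∀ (α : Type) (S : Set α) (p q : α → α) (z : α), S.Finite → Inv S p → Inv S q → z ∈ S →
    (∀ g ∈ orb p q z, ∀ g' ∈ orb p q z, Ev p q 0 (Cy.one q g + Cy.one q g') z ∧
      Ev p q (Cy.one p g) (Cy.one q g') z) ∧
    (∀ g ∈ orb p q z, ∀ g' ∈ orb p q z, g' ≠ g → g' ≠ q g → ∃ h, (h = g' ∨ h = q g') ∧
      ∀ χ, Pot (orb p q z) p 0 χ → Pot (orb p q z) q (Cy.one q g + Cy.one q g') χ → χ g = χ h) ∧
    ∀ g ∈ orb p q z, ∀ g' ∈ orb p q z, g' ≠ g → g' ≠ q g → ∀ lam : α → ZMod 2,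
      Pot (orb p q z) p 0 lam → Pot (orb p q z) q (Cy.one q g + Cy.one q g') lam → ∀ s,
      (∀ (A : Type) (φ : α → A), (∀ y ∈ orb p q z, lam y = s → φ (p y) = φ y) →
        (∀ y ∈ orb p q z, lam y = s → lam (q y) = s → φ (q y) = φ y) →
        ∀ y ∈ orb p q z, ∀ y' ∈ orb p q z, lam y = s → lam y' = s → φ y = φ y') ∧
      ∀ d ∈ orb p q z, lam d = s → ∀ χ : α → ZMod 2,
        (∀ y ∈ orb p q z, lam y = s → χ (p y) = χ y + Cy.one p d y) →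
        (∀ y ∈ orb p q z, lam y = s → lam (q y) = s → χ (q y) = χ y) →
        ∀ h h', (h = g ∨ h = q g) → (h' = g' ∨ h' = q g') → lam h = s → lam h' = s →
          χ h' = χ h + 1

/-- colourings with two changes are the arcs of the rotation -/
def ArcS : Prop :=
  ∀ (Φ : Type) (M : FM Φ) (f : Φ), M.Ok → f ∈ M.S →
    (∀ g, g ∈ M.vo f ↔ ∃ i < (M.vo f).ncard / 2, g = M.rot^[i] f ∨ g = M.c (M.rot^[i] f)) ∧
    (∀ i < (M.vo f).ncard / 2, ∀ j < (M.vo f).ncard / 2, M.rot^[j] f ≠ M.c (M.rot^[i] f) ∧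
      (M.rot^[i] f = M.rot^[j] f → i = j)) ∧
    (∀ n ≤ (M.vo f).ncard / 2, ∃ χ, M.Two f χ ∧ ∀ i < (M.vo f).ncard / 2,
      χ (M.rot^[i] f) = if i < n then 0 else 1) ∧
    ∀ χ, M.Two f χ → ∃ f' ∈ M.vo f, ∃ n ≤ (M.vo f).ncard / 2, ∀ i < (M.vo f).ncard / 2,
      χ (M.rot^[i] f') = if i < n then 0 else 1

/-! Two facts on graphs -/

section graphs

variable {V : Type} (G : SimpleGraph V)

/-- fewer than `e` vertices do not separate `L` from `R` in `D` -/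
def Sepn (D L R : Set V) (e : ℕ) : Prop :=
  ∀ X ⊆ D, X.ncard < e → ∃ S ⊆ D \ X, Conn G S ∧ (S ∩ L).Nonempty ∧ (S ∩ R).Nonempty

/-- `e` disjoint induced paths from `L` to `R` in `D`; path `l` is `y l 0`, ..., `y l (n l)` -/
structure Lns (D L R : Set V) (e : ℕ) (n : ℕ → ℕ) (y : ℕ → ℕ → V) : Prop where
  mem : ∀ l < e, ∀ i ≤ n l, y l i ∈ D
  adj : ∀ l < e, ∀ i < n l, G.Adj (y l i) (y l (i + 1))
  ind : ∀ l < e, ∀ i j, i + 1 < j → j ≤ n l → ¬ G.Adj (y l i) (y l j)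
  inj : ∀ l < e, ∀ l' < e, ∀ i ≤ n l, ∀ j ≤ n l', y l i = y l' j → l = l' ∧ i = j
  left : ∀ l < e, ∀ i ≤ n l, y l i ∈ L ↔ i = 0
  right : ∀ l < e, ∀ i ≤ n l, y l i ∈ R ↔ i = n l

/-- nested separations `(A k, B k)`, `k < s`, of order `e`; path `l` meets number `k` at the
place `c k l` -/
structure Chn (D L R : Set V) (e : ℕ) (n : ℕ → ℕ) (y : ℕ → ℕ → V) (s : ℕ) (A B : ℕ → Set V)
    (c : ℕ → ℕ → ℕ) : Prop where
  cov : ∀ k < s, D ⊆ A k ∪ B k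
  sep : ∀ k < s, ∀ u ∈ D, ∀ v ∈ D, u ∉ B k → v ∉ A k → ¬ G.Adj u v
  mono : ∀ k k', k ≤ k' → k' < s → A k ⊆ A k' ∧ B k' ⊆ B k
  le : ∀ k < s, ∀ l < e, c k l ≤ n l
  pos : ∀ k < s, ∀ l < e, ∀ i ≤ n l, (y l i ∈ A k ↔ i ≤ c k l) ∧ (y l i ∈ B k ↔ c k l ≤ i)
  cut : ∀ k < s, ∀ v ∈ D ∩ A k ∩ B k, ∃ l < e, v = y l (c k l)

end graphs

/-- paths from the absence of small cuts, with a path of largest weight first -/
def PathS : Prop :=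
  ∀ (V : Type) (G : SimpleGraph V) (D L R : Set V) (e : ℕ) (wt : V → ℕ), D.Finite → Disjoint L R →
    Sepn G D L R e → ∃ n y, Lns G D L R e n y ∧ ∀ l < e, wt (y l 0) ≤ wt (y 0 0)

/-- nested cuts through chosen vertices of the first path; a vertex in a cut lies on a path -/
def ChainS : Prop :=
  ∀ (V : Type) (G : SimpleGraph V) (D L R : Set V) (e : ℕ) (n : ℕ → ℕ) (y : ℕ → ℕ → V),
    D.Finite → Lns G D L R e n y →
    (∀ v ∈ D, ¬ Sepn G (D \ {v}) L R e → ∃ l < e, ∃ i ≤ n l, v = y l i) ∧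
    ∀ (s : ℕ) (ix : ℕ → ℕ), 0 < e → (∀ k k', k < k' → k' < s → ix k < ix k') →
      (∀ k < s, ix k ≤ n 0 ∧ ¬ Sepn G (D \ {y 0 (ix k)}) L R e) →
      ∃ A B c, Chn G D L R e n y s A B c ∧ ∀ k < s, c k 0 = ix k

/-- from paths through cliques to real paths: the units `X u` have roots `R u`, meet only in
roots off `Δ`, and a cut through a unit has as many inner vertices as it separates roots -/
def LinkHS : Prop :=
  ∀ (V μ ι : Type) [Finite μ] [Finite ι] (X : μ → SimpleGraph V) (Vs R : μ → Set V) (Δ : Set V)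
    (G' : SimpleGraph V) (o n : ι → V) (Q : ι → Set V), (∀ u, (Vs u).Finite ∧ R u ⊆ Vs u) →
    (∀ u v w, (X u).Adj v w → v ∈ Vs u) →
    (∀ u u', u ≠ u' → Vs u ∩ Vs u' ⊆ R u ∪ Δ) →
    (∀ u b, (o b ∈ Vs u → o b ∈ R u) ∧ (n b ∈ Vs u → n b ∈ R u)) →
    (∀ u (A B : Set V), Vs u ⊆ A ∪ B → Δ ⊆ A ∩ B →
      (∀ v w, (X u).Adj v w → v ∉ B → w ∈ A) →
      (R u \ A).ncard ≤ ((A ∩ B ∩ Vs u) \ (R u ∪ Δ)).ncard ∨
        (R u \ B).ncard ≤ ((A ∩ B ∩ Vs u) \ (R u ∪ Δ)).ncard) →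
    (∀ b, Conn G' (Q b) ∧ o b ∈ Q b ∧ n b ∈ Q b ∧ Disjoint (Q b) Δ ∧
      ∀ v ∈ Q b, ∀ w ∈ Q b, G'.Adj v w → ∃ u, v ∈ R u ∧ w ∈ R u) → Pairwise (Disjoint on Q) →
    ∃ (θ : Equiv.Perm ι) (P : ι → Set V), Pairwise (Disjoint on P) ∧ ∀ b,
      Conn (⨆ u, X u) (P b) ∧ o b ∈ P b ∧ n (θ b) ∈ P b ∧ P b ⊆ ((⋃ u, Vs u) ∪ {o b}) \ Δ

/-- renumbering of the lanes along a chain of cuts: `τ k` matches cut `k` with cut `k + 1` -/
def PermS : Prop :=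
  ∀ (V : Type) (d s : ℕ) (β : ℕ → ℕ → V) (Λ : Set V) (τ : ℕ → ℕ → ℕ),
    (∀ k < s, ∀ k' < s, ∀ l < d, ∀ l' < d, β k l ∉ Λ → β k l = β k' l' → l = l') →
    (∀ l < d, ∀ i k i', i ≤ k → k ≤ i' → i' < s → β i l ∉ Λ → β i l = β i' l → β k l = β i l) →
    (∀ k, k + 1 < s → BijOn (τ k) (Iio d) (Iio d) ∧ ∀ l < d,
      (β k l ∈ Λ ∨ β (k + 1) l ∈ Λ ∨ β k l = β (k + 1) l → τ k l = l)) →
    ∃ π : ℕ → ℕ → ℕ, (∀ k < s, BijOn (π k) (Iio d) (Iio d)) ∧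
      (∀ k, k + 1 < s → ∀ l < d, π (k + 1) l = τ k (π k l)) ∧
      (∀ k < s, ∀ k' < s, ∀ l < d, ∀ l' < d, β k (π k l) ∉ Λ → β k (π k l) = β k' (π k' l') →
        l = l') ∧
      ∀ l < d, ∀ i k i', i ≤ k → k ≤ i' → i' < s → β i (π i l) ∉ Λ → β i (π i l) = β i' (π i' l) →
        β k (π k l) = β i (π i l)

end Pool.Agent.MP_9d78a0_co.gm
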