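import Pool.Agent.MP_9d78a0_co.gm.SpecH2
import Pool.Agent.MP_9d78a0_co.gm.SpecM
import Pool.Agent.MP_9d78a0_co.gm.JWf
import Pool.Agent.MP_9d78a0_co.gm.HOp
import Pool.Agent.MP_9d78a0_co.gm.COp2
import Pool.Agent.MP_9d78a0_co.gm.BGrid

-- ======== part 0: formerly Pool.Agent.MP_9d78a0_co.gm.HNf
section MrgPart0

/-! Block H: cuts of the new map are cuts of the old map; rings give the separation property. -/

set_option autoImplicit false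

namespace Pool.Agent.MP_9d78a0_co.gm

open Set Function

namespace hnf

theorem link_ind {V : Type} {G : SimpleGraph V} {S : Set V} (Q : V → Prop)
    (st : ∀ x ∈ S, ∀ y ∈ S, G.Adj x y → Q x → Q y) {u v : V} (h : Link G S u v) (hu : Q u) :
    Q v := by
  induction h with
  | refl => exact hu
  | tail _ e ih => exact st _ e.1 _ e.2.1 e.2.2 ih

theorem link_keep {V : Type} {G G' : SimpleGraph V} {S : Set V}
    (k : ∀ x ∈ S, ∀ y ∈ S, G.Adj x y → G'.Adj x y) {u v : V} (h : Link G S u v) : Link G' S u v :=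
  link_ind (fun z => Link G' S u z)
    (fun x hx y hy e q => q.trans (Link.single hx hy (k x hx y hy e))) h (Link.refl _ _ _)

theorem blk_le {V : Type} {g g' : ℕ} {B : Fin g × Fin g → Set V} {B' : Fin g' × Fin g' → Set V}
    (h : Blk B B') (k : 3 ≤ g') : 3 ≤ g := by
  obtain ⟨i0, -, e1, -, h1, -⟩ := h
  have a := h1 ⟨2, by omega⟩
  have b := (e1 ⟨2, by omega⟩).2
  simp only at a
  omega

section sk

variable {s : Sk}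

theorem T_tv (h : s.Ok0) : s.T ⊆ s.tv := by
  rintro v (⟨h1, w, rfl⟩ | ⟨h1, h2⟩)
  · refine ⟨h1, fun k => ?_⟩
    obtain ⟨z, e⟩ := h.hr.1 k
    cases e
  · exact ⟨h1.1, fun k => h2 (Or.inl k)⟩

theorem D_tv (h : s.Ok0) : s.T \ s.M.rad s.vx s.H ⊆ s.M.tv s.vx s.H := fun _ k => T_tv h k.1

theorem nb_nd (h : s.Ok0) {x : MV} {v : W} (k : v ∈ s.nb x) : Sum.inl v ∈ s.Nd := by
  obtain ⟨-, f, hf, ⟨-, e⟩ | ⟨e, -⟩⟩ := k
  · exact ⟨⟨_, (h.hm.ok.ia f hf).1, e⟩, v, rfl⟩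
  · exact ⟨⟨f, hf, e⟩, v, rfl⟩

theorem rg_cls (h : s.Ok0) (K : Set MV) {f : s.Φ} (hf : f ∈ s.M.S) :
    s.rg K f ⊆ s.M.S ∧ ∀ g ∈ s.rg K f, s.rg K g = s.rg K f :=
  let a := regBS orbS minorS _ s.M _ h.hm.ok (FM.es_ind h.hm.ok h.hm.lbl K) f hf
  ⟨a.1, a.2.1⟩

theorem rg_anti {K K' : Set MV} (k : K ⊆ K') (f : s.Φ) : s.rg K' f ⊆ s.rg K f :=
  FM.reg_anti (FM.ind_mono k) f

theorem rg_self (K : Set MV) (f : s.Φ) : f ∈ s.rg K f := Relation.ReflTransGen.refl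

/-- two holes that come into one region lower the number of regions with a hole -/
theorem hr_lt (h : s.Ok0) {K K' : Set MV} (k : K' ⊆ K) {p q : s.Φ} (hp : p ∈ s.M.fl s.vx s.H)
    (hq : q ∈ s.M.fl s.vx s.H) (h1 : q ∈ s.rg K' p) (h2 : q ∉ s.rg K p) :
    (s.rg K' '' s.M.fl s.vx s.H).ncard < (s.rg K '' s.M.fl s.vx s.H).ncard := by
  have fin : (s.rg K '' s.M.fl s.vx s.H).Finite :=
    (h.hm.ok.fin.subset fun _ a => a.1).image _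
  have e : ∀ f ∈ s.M.S, (⋃ x ∈ s.rg K f, s.rg K' x) = s.rg K' f := by
    intro f hf
    refine subset_antisymm (iUnion₂_subset fun x hx => ?_) (subset_biUnion_of_mem (rg_self K f))
    exact ((rg_cls h K' hf).2 x (rg_anti k f hx)).le
  have e2 : s.rg K' '' s.M.fl s.vx s.H =
      (fun R : Set s.Φ => ⋃ x ∈ R, s.rg K' x) '' (s.rg K '' s.M.fl s.vx s.H) := by
    rw [image_image]
    exact image_congr fun f hf => (e f hf.1).symm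
  rw [e2]
  refine lt_of_le_of_ne (ncard_image_le fin) fun c => h2 ?_
  have := (ncard_image_iff fin).1 c ⟨p, hp, rfl⟩ ⟨q, hq, rfl⟩
    (by simp only [e p hp.1, e q hq.1]; exact ((rg_cls h K' hp.1).2 q h1).symm)
  rw [this]
  exact rg_self K q

end sk

variable {σ : AG} {r r' : Rw σ} {K : Set MV} {hm : r.s.Φ → MV}

theorem dp_old (h' : r'.s.Ok0) (A : r.Am r' K hm) {x : MV} (hx : x ∈ r'.s.Dp) : x ∈ r.s.Dp := by
  obtain ⟨h1, -, h3, -⟩ := A.cell x hx.1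
  refine ⟨h1, fun v hv k => ?_⟩
  rw [← h3] at hv
  exact hx.2 v hv (A.rh ⟨k, T_tv h' (Or.inl (nb_nd h' hv))⟩)

end hnf

namespace HB

open hnf in
theorem nfS : BasS → NfS := by
  intro hb σ r r' k q D l k' q' D' l' g g' n n' B B' X hm co co' hB bl hB' hX hn hg A
  have h := co.ok0
  have h' := co'.ok0
  have g3 : 3 ≤ g' := by omega
  obtain ⟨fin, -, -, -, -, -, -, -, -, bg⟩ := hb.2 r.s h
  obtain ⟨-, -, -, -, -, -, -, -, -, bg'⟩ := hb.2 r'.s h'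
  refine ⟨?_, fun nf => ?_⟩
  · rintro (m | m)
    · refine Or.inl fun S hS d => ?_
      obtain ⟨p1, p2⟩ := A.pk S hS
      refine ((bg g B hB (blk_le bl g3)).2.2.2.2 g' B' bl g3).2.2 S p1 (m S p1 ?_)
      rw [← p2]
      refine disjoint_left.2 fun v hv k => disjoint_left.1 d hv (A.rh ⟨k, T_tv h' ?_⟩)
      exact hv.elim (fun a => hS.sub a) fun a => Or.inl (hS.out a)
    · refine Or.inr ⟨fun x hx => ?_, fun S S' a b => m.fc S S' (A.pk S a).1 (A.pk S' b).1⟩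
      obtain ⟨-, h2, h3, -⟩ := A.cell x hx.1
      rw [h2, h3, A.lam]
      exact m.atom x (dp_old h' A hx)
  · simp only [Sk.NF, FM.NF, not_forall] at nf
    obtain ⟨X0, hX0, c0, nf⟩ := nf
    obtain ⟨X1, hX1, c1, sub1⟩ := (bg' g' B' hB' g3).1 X0 hX0
    have hX1' : X1 ⊆ r.s.Nd := fun v hv =>
      ⟨(A.sub.2 (T_tv h' (Or.inl (hX1 hv)))).1, (hX1 hv).2⟩
    have hc : (X ∪ X1).ncard ≤ n + 3 * n' := (ncard_union_le _ _).trans (by omega)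
    have hN : X ∪ X1 ⊆ r.s.Nd := union_subset hX hX1'
    refine ⟨X ∪ X1, hN, subset_union_left, hc, ?_⟩
    obtain ⟨b1, -, -, -, b5⟩ := bigS MV r.s.G g B _ _ hB (D_tv h)
    have kK : r.s.bg B (X ∪ X1) ⊆ r.s.bg B X := b1 _ _ subset_union_left
    have kt : r.s.bg B (X ∪ X1) ⊆ r'.s.tv := kK.trans A.sub.1
    have e := (b5 g' B' bl).2 (X ∪ X1) ∅ (fin.subset fun v hv => (hN hv).1) (by omega)
      (disjoint_empty _)
    rw [union_empty] at e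
    have k1 : r.s.bg B (X ∪ X1) ⊆ r'.s.bg B' X1 := by
      intro v hv
      have hv' : v ∈ big r.s.G B' (r.s.M.tv r.s.vx r.s.H) (X ∪ X1) := e ▸ hv
      obtain ⟨i, j, d, w, hw, lk⟩ := hv'
      refine ⟨i, j, d.mono_right subset_union_right, w, hw, ?_⟩
      refine (link_ind (fun z => Link r.s.G (r.s.M.tv r.s.vx r.s.H \ (X ∪ X1)) w z ∧
        Link r'.s.G (r'.s.M.tv r'.s.vx r'.s.H \ X1) w z) ?_ lk
        ⟨Link.refl _ _ _, Link.refl _ _ _⟩).2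
      rintro x hx y hy a ⟨q1, q2⟩
      have q3 := q1.trans (Link.single hx hy a)
      have x1 : x ∈ r'.s.tv := kt (show x ∈ big _ _ _ _ from e ▸ ⟨i, j, d, w, hw, q1⟩)
      have y1 : y ∈ r'.s.tv := kt (show y ∈ big _ _ _ _ from e ▸ ⟨i, j, d, w, hw, q3⟩)
      exact ⟨q3, q2.trans (Link.single ⟨x1, fun c => hx.2 (Or.inr c)⟩
        ⟨y1, fun c => hy.2 (Or.inr c)⟩ ((A.adj x x1 y y1).2 a))⟩
    have nf2 : ¬ r'.s.M.Full r'.s.vx r'.s.H (r.s.bg B (X ∪ X1)) := fun c =>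
      nf (FM.full_mono h'.hm.ok h'.hm.lbl (k1.trans sub1) c)
    have le : r.s.gn (r.s.bg B (X ∪ X1)) ≤ r.s.M.eg :=
      FM.eg_sub_le h.hm.ok (FM.es_ind h.hm.ok h.hm.lbl _)
    rcases le.lt_or_eq with c | c
    · exact Or.inl c
    right
    by_contra nlt
    refine nf2 ⟨(A.gn _ kt).trans (c.trans A.eg.symm), fun p' hp' q' hq' a1 a2 a3 => ?_⟩
    have m1 : r'.s.vx p' ∈ hm '' r.s.M.fl r.s.vx r.s.H := A.img ▸ ⟨a1, p', hp', rfl⟩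
    have m2 : r'.s.vx q' ∈ hm '' r.s.M.fl r.s.vx r.s.H := A.img ▸ ⟨a2, q', hq', rfl⟩
    obtain ⟨p, hp, e1⟩ := m1
    obtain ⟨p2, hp2, e2⟩ := m2
    rw [← e1, ← e2]
    by_contra ne
    exact nlt (hr_lt h kK hp hp2
      ((A.reg _ kt p hp p' hp' e1.symm).2 p2 hp2 ⟨q', a3, e2.symm⟩)
      fun c => ne ((A.heq p hp p2 hp2).2 c))

open hnf in
theorem sepHS : BasS → SepHS := by
  intro hb σ r r' t k q D l k' q' D' l' g g1 w m B B1 X O Wv hm co co' hB bl hg hX A vo hO hO'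
  have h := co.ok0
  have h' := co'.ok0
  obtain ⟨fin, -, -, -, -, -, -, r1, r2, -⟩ := hb.2 r.s h
  refine ⟨fun x hx X' hX' c p hp hE => ?_, fun x hx => ?_⟩
  · have m1 : hm p ∈ r'.s.H ∩ r'.s.Vt := A.img ▸ ⟨p, hp, rfl⟩
    obtain ⟨m1, p', hp', e⟩ := m1
    obtain ⟨C, pw, hC⟩ := vo.ring p' ⟨hp', e ▸ m1⟩
    have fX : X'.Finite := fin.subset fun v hv => (hX' hv).1
    obtain ⟨i, di⟩ : ∃ i, Disjoint (C i) X' := by
      by_contra n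
      simp only [not_exists, not_disjoint_iff] at n
      choose z z1 z2 using n
      have inj : Injective z := fun a b ab => by
        by_contra ne
        exact disjoint_left.1 (pw ne) (z1 a) (ab ▸ z1 b)
      have := ncard_le_ncard (show range z ⊆ X' from range_subset_iff.2 z2) fX
      rw [ncard_range_of_injective inj, Nat.card_eq_fintype_card, Fintype.card_fin] at this
      omega
    have R := hC i
    generalize C i = C0 at di R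
    have er := (A.reg C0 R.sub p hp p' hp' e).1
    have cm : C0 ⊆ r.s.vx '' r.s.rg C0 p := fun v hv => (er.le ⟨R.mem hv, R.sub hv⟩).1
    have ou : ∀ y ∈ t.s.Ce ∪ O, y ∈ r'.s.tv → y ∉ r.s.vx '' r.s.rg C0 p := fun y hy y1 y2 =>
      disjoint_left.1 R.out hy (er.ge ⟨y2, y1⟩).1
    obtain ⟨-, b2, -, -, b5⟩ := bigS MV r.s.G g B _ _ hB (D_tv h)
    obtain ⟨c1, c2, c3, -⟩ := b2 X'
    have dC : Disjoint C0 (r.s.bg B X') := by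
      refine disjoint_left.2 fun u hu hu' => ?_
      have sub : C0 ⊆ r.s.bg B X' := fun v hv =>
        link_ind (fun z => z ∈ r.s.bg B X') (fun a ha b hb' ab qa => c3 a qa b
          ⟨A.sub.2 (R.sub hb'), disjoint_left.1 di hb'⟩ ((A.adj a (R.sub ha) b (R.sub hb')).1 ab))
          (R.conn.2 u hu v hv) hu'
      exact ou x (Or.inl hx) (T_tv h' (Or.inr (vo.kept x hx).1.1))
        (image_mono (rg_anti sub p) hE.1)
    have dK : ∀ v ∈ r.s.bg B X', v ∉ r.s.vx '' r.s.rg C0 p := by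
      rintro v hv ⟨f, hf, rfl⟩
      have e1 := (b5 g1 B1 bl).2 X' ∅ fX (by omega) (disjoint_empty _)
      rw [union_empty] at e1
      have hv' : r.s.vx f ∈ big r.s.G B1 (r.s.M.tv r.s.vx r.s.H) X' := e1 ▸ hv
      obtain ⟨i, j, d, z, hz, lk⟩ := hv'
      have zK : z ∈ r.s.bg B X' :=
        show z ∈ big _ _ _ _ from e1 ▸ ⟨i, j, d, z, hz, Link.refl _ _ _⟩
      have zO : z ∈ O := by
        obtain ⟨a, ha⟩ := mem_iUnion.1 hz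
        exact ha.elim (fun a => hO _ a) fun a => hO _ a
      obtain ⟨f', hf', rfl⟩ := (c1 zK).1.1
      have fS := (rg_cls h C0 hp.1).1 hf
      have := r2 C0 f fS f' hf' (disjoint_right.1 dC hv)
        (((c2 ⟨_, hv⟩).2 _ hv _ zK).mono fun a ha => disjoint_right.1 dC ha)
      rw [(rg_cls h C0 hp.1).2 f hf] at this
      exact ou _ (Or.inr zO) (hO' zO) ⟨f', this, rfl⟩
    have s1 : r.s.rg C0 p ⊆ r.s.rg (r.s.bg B X') p :=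
      r1 _ _ p hp.1 (disjoint_right.2 fun v hv a => dK v hv a.1)
    have s2 : r.s.rg (r.s.bg B X) p ⊆ r.s.rg C0 p :=
      r1 _ _ p hp.1 (disjoint_left.2 fun v a hv => a.2 (A.ins p hp ⟨a.1, R.sub hv⟩))
    refine ⟨fun v hv => ⟨image_mono (s2.trans s1) hv.1, fun a => dK v a (image_mono s2 hv.1)⟩,
      fun a => ?_⟩
    obtain ⟨u, hu⟩ := R.conn.1
    have := a ⟨image_mono s1 (cm hu), disjoint_left.1 dC hu⟩
    exact this.2 (A.ins p hp ⟨this.1, R.sub hu⟩)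
  · obtain ⟨k1, k2, k3, k4, k5⟩ := vo.kept x hx
    obtain ⟨-, h2, h3, h4⟩ := A.cell x k1.1
    rw [h2, h3, A.lam] at k5
    exact ⟨dp_old h' A k1, k2.trans h2, k3.trans h3, k4.trans h4, k5⟩

end HB

end Pool.Agent.MP_9d78a0_co.gm

end MrgPart0

-- ======== part 1: formerly Pool.Agent.MP_9d78a0_co.gm.HStage
section MrgPart1

/-! Block H: one stage of the loop. -/

set_option autoImplicit false

namespace Pool.Agent.MP_9d78a0_co.gm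

open Set Function

namespace hst

theorem blk_trans {V : Type} {g g' g'' : ℕ} {B : Fin g × Fin g → Set V}
    {B' : Fin g' × Fin g' → Set V} {B'' : Fin g'' × Fin g'' → Set V} (h : Blk B B')
    (k : Blk B' B'') : Blk B B'' := by
  obtain ⟨i0, j0, e1, e2, a1, a2, a3⟩ := h
  obtain ⟨i1, j1, f1, f2, b1, b2, b3⟩ := k
  refine ⟨i0 + i1, j0 + j1, e1 ∘ f1, e2 ∘ f2, fun i => ?_, fun j => ?_, fun p => ?_⟩
  · rw [comp_apply, a1, b1, add_assoc]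
  · rw [comp_apply, a2, b2, add_assoc]
  · rw [b3, a3]; rfl

theorem co_mono {σ : AG} {r : Rw σ} {k q q' D l : ℕ} (h : r.Co k q D l) (hq : q ≤ q') :
    r.Co k q' D l :=
  ⟨h.ok0, h.eg, h.holes.trans hq, h.lam, h.lamn, h.root, h.owner, h.share, h.solid, h.dep⟩

theorem ctl_mono {σ : AG} {θ g θ1 θ2 : ℕ} {T : Tangle σ.f θ} {B : Fin g × Fin g → Set MV}
    (h : Ctl σ T B θ1) (k : θ2 ≤ θ1) : Ctl σ T B θ2 := fun U a b => h U (a.trans_le k) b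

theorem grid_model {s : Sk} (h : s.Ok0) {g : ℕ} {B : Fin g × Fin g → Set MV} (hB : s.Grid B) :
    Model (fb.grid g) (s.M.gph s.vx) (s.M.tv s.vx s.H \ s.M.rad s.vx s.H) B :=
  ⟨fun p _ hv => ⟨hnf.T_tv h (hB.1 p hv).1, (hB.1 p hv).2⟩, hB.2⟩

theorem rad_step {Φ V : Type} {M : FM Φ} {vx : Φ → V} {D : Set V} {v : V} (hv : v ∈ vx '' M.S)
    (k : v ∈ D) : v ∈ M.rad vx D := by
  obtain ⟨f, hf, rfl⟩ := hv
  exact ⟨f, hf, k, f, Relation.ReflTransGen.refl, rfl⟩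

theorem rad_le {Φ V : Type} {M : FM Φ} {vx : Φ → V} {D : Set V} {v : V} (hv : v ∈ vx '' M.S)
    {R R' : ℕ} (h : R ≤ R') (k : v ∈ (M.rad vx)^[R] D) : v ∈ (M.rad vx)^[R'] D := by
  induction R', h using Nat.le_induction with
  | base => exact k
  | succ n _ ih => rw [iterate_succ_apply']; exact rad_step hv ih

/-- the block in the core of a frame -/
theorem core_blk {Φ V : Type} {M : FM Φ} {vx : Φ → V} {g R : ℕ} {B : Fin g × Fin g → Set V}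
    {H U0 : Set V} (h : M.Frame vx B H R U0) :
    ∃ B1 : Fin R × Fin R → Set V, Blk B B1 ∧ ∀ p, B1 p ⊆ U0 := by
  obtain ⟨i0, j0, a, b, c⟩ := h.core
  refine ⟨fun p => B (⟨i0 + p.1, by omega⟩, ⟨j0 + p.2, by omega⟩),
    ⟨i0, j0, fun i => ⟨i0 + i, by omega⟩, fun j => ⟨j0 + j, by omega⟩, fun _ => rfl, fun _ => rfl,
      fun _ => rfl⟩, fun p => c _ _ ?_ ?_ ?_ ?_⟩ <;> simp

theorem str_of {σ : AG} {r : Rw σ} {t : Sh σ} (kp : r.Kp) (h : r.Kept t) : t.Str := by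
  intro x hx
  obtain ⟨a1, a2, a3, -, a5⟩ := h x hx
  obtain ⟨a, b1, b2, -⟩ := kp.atom x a1
  refine ⟨a, a2.trans b1, fun v hv => ?_⟩
  have : v ∈ σ.vs (r.ct x) := by
    rw [b1]; exact mem_biUnion (mem_singleton a) hv.1
  rw [a3]
  exact (a5 ⟨this, hv.2⟩).resolve_left fun c => disjoint_left.1 b2 hv.1 c

end hst

namespace HB

open hst in
theorem stageS (rt : RtS) (hb : BasS) (hi : InS) (hc : CtlS) (hp : PatS) (ha : AbsMS)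
    (hv : VortexS) : StageS := by
  intro k q D l n m
  obtain ⟨D', ha⟩ := ha q D n
  obtain ⟨w, R, hv⟩ := hv q D' l m
  refine ⟨w, fun g2 θ2 hg2 => ?_⟩
  obtain ⟨g1, hp1⟩ := hp k q 0 g2
  obtain ⟨R', r1, r2, r3, r4⟩ : ∃ R', R ≤ R' ∧ g1 ≤ R' ∧ m < R' ∧ 3 ≤ R' :=
    ⟨R + g1 + m + 3, by omega, by omega, by omega, by omega⟩
  obtain ⟨n', g0', rt⟩ := rt k q R' 0
  obtain ⟨g', s1, s2⟩ : ∃ g', g0' ≤ g' ∧ n + 3 * n' + 3 ≤ g' :=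
    ⟨g0' + n + 3 * n' + 3, by omega, by omega⟩
  obtain ⟨g0, hp0⟩ := hp k q n g'
  refine ⟨n + 3 * n', g0 + n + 3, ?_⟩
  intro σ θ T r g B X hg rob co hB ctl mo hX hn gn
  have h := co.ok0
  obtain ⟨fin, -, -, -, -, -, -, -, -, bg⟩ := hb.2 r.s h
  obtain ⟨-, b2, -, -, b5⟩ := bg g B hB (by omega)
  obtain ⟨r', hm, ov, A⟩ := ha σ r k l g B X co hB (by omega) hX hn gn
  have hq : r.s.hr B X ≤ q := (b2 X).1.trans co.holes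
  have co' := co_mono ov.co hq
  have h' := co'.ok0
  obtain ⟨B', bl, hB'⟩ := hp0 g (by omega) r.s r'.s B X h h' co'.eg co'.holes hB
    (fin.subset fun v a => (hX a).1) hn (fun v a => A.sub.1 a.1)
    fun u a v b e => (A.adj u (A.sub.1 a.1) v (A.sub.1 b.1)).2 e
  obtain ⟨mo', nf⟩ := nfS hb σ r r' k q D l k q D' l g g' n n' B B' X hm co co' hB bl hB' hX hn
    s2 A
  by_cases c : r'.s.NF B' n'
  swap
  · exact Or.inl (nf c)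
  right
  have mo' := mo' mo
  obtain ⟨-, U0, fr⟩ := rt g' s1 _ _ r'.s.M r'.s.vx r'.s.H B' h'.hm co'.eg co'.holes
    (grid_model h' hB') c
  obtain ⟨B1, bl1, in1⟩ := core_blk fr
  obtain ⟨-, -, -, -, -, -, -, -, -, bg'⟩ := hb.2 r'.s h'
  obtain ⟨-, -, -, -, c5⟩ := bg' g' B' hB' (by omega)
  have hB1 := (c5 R' B1 bl1 r4).1
  have nt : U0.Nontrivial := by
    obtain ⟨u, hu⟩ := (hB1.2.1 (⟨0, by omega⟩, ⟨0, by omega⟩)).1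
    obtain ⟨v, hv⟩ := (hB1.2.1 (⟨1, by omega⟩, ⟨0, by omega⟩)).1
    refine ⟨u, in1 _ hu, v, in1 _ hv, fun e => ?_⟩
    exact disjoint_left.1 (hB1.2.2.1 _ _ (by simp)) hu (e ▸ hv)
  have far : ∀ x ∈ r'.s.H, Disjoint ((r'.s.M.rad r'.s.vx)^[R] {x}) U0 := by
    intro x hx
    have := fr.far ∅ ∅ {x} finite_empty (by simp) (empty_subset _)
      (by rintro v rfl; exact ⟨v, ⟨hx, rfl⟩, Link.refl _ _ _⟩)
      (disjoint_singleton_left.2 fun a =>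
        (((bigS MV r'.s.G g' B' _ _ hB' (hnf.D_tv h')).2.1 _).1 a).1.2 hx)
    exact disjoint_left.2 fun v a b => disjoint_left.1 this (rad_le (fr.sub b).1 r1 a) b
  obtain ⟨t, Wv, vo⟩ := hv σ r' k U0 rob ⟨co', ov.tvc⟩
    (hi.2 σ r' k q D' l g' B' co' hB' (by omega) mo') fr.sub fr.conn nt fr.full far
  have ht := hb.1 t.s vo.nice.ok.ok
  obtain ⟨B2, bl2, hB2⟩ := hp1 R' r2 r'.s t.s B1 ∅ h' ht (vo.eg.trans co'.eg)
    (vo.holes.trans co'.holes) hB1 finite_empty (by simp)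
    (fun v a => by
      obtain ⟨p, b⟩ := mem_iUnion.1 a.2
      exact hnf.T_tv ht (vo.core.1 (in1 p b)))
    (fun u a v b e => by
      obtain ⟨p, a⟩ := mem_iUnion.1 a.2
      obtain ⟨p', b⟩ := mem_iUnion.1 b.2
      exact vo.core.2 u (in1 p a) v (in1 p' b) e)
  have bl3 := blk_trans bl1 bl2
  obtain ⟨sp, kp⟩ := sepHS hb σ r r' t k q D l k q D' l g R' w m B B1 X U0 Wv hm co co' hB
    (blk_trans bl bl1) r3 hX A vo in1 fr.sub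
  refine ⟨t, Wv, B2, vo.nice, vo.eg.trans A.eg.le, vo.holes.trans ov.co.holes, hB2,
    hc σ θ T r k q D l g g2 θ2 B B2 t.s co hB ht hB2
      (b5 g2 B2 (blk_trans bl bl3) (by omega)).2.1 hg2 ctl, ?_, kp, sp⟩
  rcases mo' with mo' | mo'
  · refine Or.inl fun S hS => ?_
    obtain ⟨p1, -, p3⟩ := vo.pk S hS
    exact (c5 g2 B2 bl3 (by omega)).2.2 S p1 (mo' S p1 p3)
  · exact Or.inr ⟨str_of mo' vo.kept, fun S S' a b => mo'.fc S S' (vo.pk S a).1 (vo.pk S' b).1⟩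

end HB

end Pool.Agent.MP_9d78a0_co.gm

end MrgPart1

-- ======== part 2: formerly Pool.Agent.MP_9d78a0_co.gm.HMain
section MrgPart2

/-! Block H: the loop and the three statements that are used outside. -/

set_option autoImplicit false

namespace Pool.Agent.MP_9d78a0_co.gm

open Set Function

namespace hmn

open HB hst

/-- the loop with fewer than `q'` regions with a hole -/
def ML (k q' : ℕ) : Prop :=
  ∀ (q s D l n : ℕ) (ρ : ℕ → ℕ), ∃ w1 g0 θ1 : ℕ, ∀ (σ : AG) (θ : ℕ) (T : Tangle σ.f θ) (e : σ.ε)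
    (r : Rw σ) (g : ℕ) (B : Fin g × Fin g → Set MV) (X : Set MV), θ1 ≤ θ → g0 ≤ g → σ.Rob →
    r.In k q s D l → r.s.Grid B → Ctl σ T B θ1 → r.Mo B → X ⊆ r.s.Nd → X.ncard ≤ n →
    (r.s.gn (r.s.bg B X) < k ∨ r.s.hr B X < q') →
    ∃ (t : Sh σ) (Sd : Set σ.ε), PreN T e ρ w1 t Sd ∧
      ((t.s.M.eg < k ∧ (t.s.H ∩ t.s.Vt).ncard ≤ w1) ∨
        (¬ r.s.gn (r.s.bg B X) < k ∧ t.s.M.eg ≤ k ∧ (t.s.H ∩ t.s.Vt).ncard < q' ∧ r.Kept t))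

/-- the cells of `t'` are cells of `t` -/
def KS {σ : AG} (t t' : Sh σ) : Prop :=
  ∀ x ∈ t'.s.Ce, x ∈ t.s.Ce ∧ t'.ct x = t.ct x ∧ t'.s.nb x = t.s.nb x ∧ t'.s.Rd x ⊆ t.s.Rd x ∧
    σ.vs (t.ct x) ∩ t'.Λ ⊆ t.Λ ∪ t.s.nb x

/-- after a stage -/
def FA (k q' : ℕ) : Prop :=
  ∀ (w : ℕ) (ρ : ℕ → ℕ), ∃ w1 g2 θ2 : ℕ, 2 * θ2 + 3 ≤ g2 ∧ ∀ (σ : AG) (θ : ℕ) (T : Tangle σ.f θ)
    (e : σ.ε) (t : Sh σ) (Wv : Set W) (B : Fin g2 × Fin g2 → Set MV), θ2 ≤ θ → σ.Rob →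
    t.Nice Wv w → t.s.M.eg ≤ k → (t.s.H ∩ t.s.Vt).ncard ≤ q' → t.s.Grid B → Ctl σ T B θ2 →
    t.Mo B → ∃ (t' : Sh σ) (Sd : Set σ.ε), PreN T e ρ w1 t' Sd ∧
      ((t'.s.M.eg < k ∧ (t'.s.H ∩ t'.s.Vt).ncard ≤ w1) ∨
        (t'.s.M.eg ≤ k ∧ (t'.s.H ∩ t'.s.Vt).ncard ≤ q' ∧ KS t t'))

theorem pre_mono {σ : AG} {θ : ℕ} {T : Tangle σ.f θ} {e : σ.ε} {ρ : ℕ → ℕ} {w1 w2 : ℕ} {t : Sh σ}
    {Sd : Set σ.ε} (h : PreN T e ρ w1 t Sd) (k : w1 ≤ w2) : PreN T e ρ w2 t Sd :=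
  let ⟨w, a, b⟩ := h
  ⟨w, a.trans k, b⟩

theorem kept_ks {σ : AG} {r : Rw σ} {t t' : Sh σ} (h : r.Kept t) (k : KS t t') : r.Kept t' := by
  intro x hx
  obtain ⟨a1, a2, a3, a4, a5⟩ := k x hx
  obtain ⟨b1, b2, b3, b4, b5⟩ := h x a1
  refine ⟨b1, a2.trans b2, a3.trans b3, a4.trans b4, fun v hv => ?_⟩
  rcases a5 ⟨b2 ▸ hv.1, hv.2⟩ with c | c
  · exact b5 ⟨hv.1, c⟩
  · exact Or.inr (b3 ▸ c)

theorem gn_le {s : Sk} (h : s.Ok0) (K : Set MV) : 0 ≤ s.gn K ∧ s.gn K ≤ s.M.eg :=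
  ⟨(monoS _ _ (minorS _ s.M _ ∅ h.hm.ok (FM.es_ind h.hm.ok h.hm.lbl K) FM.es_empty).1).1,
    FM.eg_sub_le h.hm.ok (FM.es_ind h.hm.ok h.hm.lbl K)⟩

/-- a cut by nodes -/
theorem cut_of (hb : BasS) {s : Sk} (h : s.Ok0) {g n : ℕ} {B : Fin g × Fin g → Set MV}
    (hB : s.Grid B) (hg : 3 ≤ g) (nf : ¬ s.NF B n) : ∃ X ⊆ s.Nd, X.ncard ≤ 3 * n ∧
      (s.gn (s.bg B X) < s.M.eg ∨ s.hr B X < (s.H ∩ s.Vt).ncard) := by
  simp only [Sk.NF, FM.NF, not_forall] at nf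
  obtain ⟨X0, hX0, c0, nf⟩ := nf
  obtain ⟨-, -, -, -, -, -, -, -, -, bg⟩ := hb.2 s h
  obtain ⟨b1, b2, -⟩ := bg g B hB hg
  obtain ⟨X, hX, c1, sub⟩ := b1 X0 hX0
  refine ⟨X, hX, by omega, ?_⟩
  by_contra c
  push Not at c
  exact nf (FM.full_mono h.hm.ok h.hm.lbl sub ((b2 X).2.2
    ⟨le_antisymm (gn_le h _).2 c.1, le_antisymm (b2 X).1 c.2⟩))

theorem fa_of (rt : RtS) (hb : BasS) (hcv : ConvS) (hpre : PreS) {k q' : ℕ} (ih : ML k q') :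
    FA k q' := by
  intro w ρ
  obtain ⟨w', hpre⟩ := hpre w
  obtain ⟨n2, g02, rt⟩ := rt k q' (ρ w') 0
  obtain ⟨w1, g0, θ1, ih⟩ := ih q' (2 * w + 2 * q' * w) (4 * (w + 1)) (2 * w) (3 * n2) ρ
  refine ⟨w1 + w', 2 * (θ1 + ρ w' + w' + 1) + 3 + g0 + g02, θ1 + ρ w' + w' + 1, by omega, ?_⟩
  intro σ θ T e t Wv B hθ rob ni eg ho hB ctl mo
  have h := hb.1 t.s ni.ok.ok
  by_cases c : t.s.NF B n2
  · obtain ⟨-, fr⟩ := rt _ (by omega) _ _ t.s.M t.s.vx t.s.H B h.hm eg ho (grid_model h hB) c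
    obtain ⟨Sd, Sb, tt, p⟩ := hpre σ θ T e t Wv _ _ B ni hB ctl mo (by omega) (by omega) (by omega)
    exact ⟨t, Sd, ⟨w', by omega, Sb, tt, _, ρ w', B, le_rfl, by omega, p _ (by omega) fr⟩,
      Or.inr ⟨eg, ho, fun x hx => ⟨hx, rfl, rfl, Subset.rfl, fun v a => Or.inl a.2⟩⟩⟩
  · obtain ⟨X, hX, cX, lt⟩ := cut_of hb h hB (by omega) c
    obtain ⟨v1, v2, v3⟩ := hcv σ t Wv w k q' ni eg ho
    obtain ⟨t', Sd, p, o⟩ := ih σ θ T e t.toRw _ B X (by omega) (by omega) rob v1 hB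
      (ctl_mono ctl (by omega)) (v3 _ B mo) hX cX (lt.imp (·.trans_le eg) (·.trans_le ho))
    refine ⟨t', Sd, pre_mono p (by omega), o.imp (fun a => ⟨a.1, by omega⟩)
      fun a => ⟨a.2.1, a.2.2.1.le, fun x hx => ?_⟩⟩
    obtain ⟨a1, a2, a3, a4, a5⟩ := a.2.2.2 x hx
    obtain ⟨b1, b2⟩ := v2 x a1.1
    refine ⟨a1.1, a2.trans b1, a3, a4, fun v hv => ?_⟩
    rcases a5 ⟨b1 ▸ hv.1, hv.2⟩ with d | d
    · exact b2 ⟨hv.1, d⟩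
    · exact Or.inr d

/-- the loop in reset mode -/
def LP (k : ℕ) : Prop :=
  ∀ (q s D l : ℕ) (ρ : ℕ → ℕ), ∃ w1 g0 θ1 : ℕ, ∀ (σ : AG) (θ : ℕ) (T : Tangle σ.f θ) (e : σ.ε)
    (r : Rw σ) (g : ℕ) (B : Fin g × Fin g → Set MV), θ1 ≤ θ → g0 ≤ g → σ.Rob → r.In k q s D l →
    r.s.Grid B → Ctl σ T B θ1 →
    ∃ (t : Sh σ) (Sd : Set σ.ε), PreN T e ρ w1 t Sd ∧ t.s.M.eg ≤ k ∧ (t.s.H ∩ t.s.Vt).ncard ≤ w1

theorem lp_of (hb : BasS) (hc : CtlS) (hn : NormS) {k : ℕ} (ih : ∀ q', ML k q') : LP k := by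
  intro q s D l ρ
  obtain ⟨w1, g0, θ1, ih⟩ := ih (q + 1) q s D l 0 ρ
  refine ⟨w1 + q, g0 + 2 * θ1 + 5, θ1, ?_⟩
  intro σ θ T e r g B hθ hg rob hr hB ctl
  obtain ⟨r', B', hr', hB', sg, nd⟩ := hn σ r k q s D l g B hr hB (by omega)
  obtain ⟨-, -, -, -, -, -, -, -, -, bg⟩ := hb.2 r'.s hr'.co.ok0
  have := ((bg g B' hB' (by omega)).2.1 ∅).1.trans hr'.co.holes
  obtain ⟨t, Sd, p, o⟩ := ih σ θ T e r' g B' ∅ hθ (by omega) rob hr' hB'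
    (hc σ θ T r k q D l g g θ1 B B' r'.s hr.co hB hr'.co.ok0 hB' sg (by omega) ctl) (Or.inl nd)
    (empty_subset _) (by simp) (Or.inr (by omega))
  refine ⟨t, Sd, pre_mono p (by omega), ?_⟩
  rcases o with o | o
  · exact ⟨o.1.le, by omega⟩
  · exact ⟨o.2.1, by omega⟩

theorem ml_zero : ML 0 0 := by
  intro q s D l n ρ
  refine ⟨0, 0, 0, fun σ θ T e r g B X _ _ _ hr _ _ _ _ _ c => ?_⟩
  have := (gn_le hr.co.ok0 (r.s.bg B X)).1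
  omega

theorem ml_drop (hb : BasS) (hc : CtlS) (hp : PatS) (ha : AbsGS) {k : ℕ} (ih : LP k) :
    ML (k + 1) 0 := by
  intro q s D l n ρ
  obtain ⟨q', s', l', ha⟩ := ha q s D l n
  obtain ⟨w1, g1, θ1, ih⟩ := ih q' s' D l' ρ
  obtain ⟨g0, hp⟩ := hp k q' n (g1 + 2 * θ1 + 3)
  refine ⟨w1, g0 + n + 3, θ1, ?_⟩
  intro σ θ T e r g B X hθ hg rob hr hB ctl _ hX cX c
  have h := hr.co.ok0
  obtain ⟨fin, -, -, -, -, -, -, -, -, bg⟩ := hb.2 r.s h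
  obtain ⟨r', hr', a1, a2⟩ := ha σ r k g B X hr hB (by omega) hX cX (by omega)
  have h' := hr'.co.ok0
  have sub : r.s.bg B X ∩ (⋃ p, B p) ⊆ r.s.bg B X ∩ r.s.T := fun v a => by
    obtain ⟨p, b⟩ := mem_iUnion.1 a.2
    exact ⟨a.1, (hB.1 p b).1⟩
  obtain ⟨B', bl, hB'⟩ := hp g (by omega) r.s r'.s B X h h' hr'.co.eg hr'.co.holes hB
    (fin.subset fun v a => (hX a).1) cX (fun v a => hnf.T_tv h' (a1 (sub a)))
    fun u a v b e => a2 u (sub a) v (sub b) e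
  obtain ⟨t, Sd, p, o1, o2⟩ := ih σ θ T e r' _ B' hθ (by omega) rob hr' hB'
    (hc σ θ T r (k + 1) q D l g _ θ1 B B' r'.s hr.co hB h' hB'
      ((bg g B hB (by omega)).2.2.2.2 _ B' bl (by omega)).2.1 (by omega) ctl)
  exact ⟨t, Sd, p, Or.inl ⟨by omega, o2⟩⟩

theorem ml_succ (hs : StageS) {k q' : ℕ} (h0 : ML k 0) (ih : ML k q') (fa : FA k q') :
    ML k (q' + 1) := by
  intro q s D l n ρ
  obtain ⟨w, hs⟩ := hs k q D l n 0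
  obtain ⟨w1, g2, θ2, hg2, fa⟩ := fa w ρ
  obtain ⟨n1, g0, hs⟩ := hs g2 θ2 hg2
  obtain ⟨wa, ga, θa, ih⟩ := ih q s D l n1 ρ
  obtain ⟨wb, gb, θb, h0⟩ := h0 q s D l n ρ
  refine ⟨w1 + wa + wb, g0 + ga + gb, θ2 + θa + θb, ?_⟩
  intro σ θ T e r g B X hθ hg rob hr hB ctl mo hX cX c
  by_cases d : r.s.gn (r.s.bg B X) < k
  · obtain ⟨t, Sd, p, o⟩ := h0 σ θ T e r g B X (by omega) (by omega) rob hr hB
      (ctl_mono ctl (by omega)) mo hX cX (Or.inl d)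
    exact ⟨t, Sd, pre_mono p (by omega), Or.inl (o.elim (fun a => ⟨a.1, by omega⟩)
      fun a => absurd d a.1)⟩
  have c := c.resolve_left d
  have e1 := (gn_le hr.co.ok0 (r.s.bg B X)).2
  have e2 := hr.co.eg
  rcases hs σ θ T r g B X (by omega) rob hr.co hB (ctl_mono ctl (by omega)) mo hX cX (by omega)
    with ⟨X', hX', -, cX', lt⟩ | ⟨t, Wv, B2, ni, eg, ho, hB2, ctl2, mo2, kp, -⟩
  · obtain ⟨t, Sd, p, o⟩ := ih σ θ T e r g B X' (by omega) (by omega) rob hr hB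
      (ctl_mono ctl (by omega)) mo hX' cX' (lt.imp (·.trans_le e2) fun a => by omega)
    exact ⟨t, Sd, pre_mono p (by omega), o.imp (fun a => ⟨a.1, by omega⟩)
      fun a => ⟨d, a.2.1, by omega, a.2.2.2⟩⟩
  · obtain ⟨t', Sd, p, o⟩ := fa σ θ T e t Wv B2 (by omega) rob ni (eg.trans e2) (by omega) hB2
      ctl2 mo2
    exact ⟨t', Sd, pre_mono p (by omega), o.imp (fun a => ⟨a.1, by omega⟩)
      fun a => ⟨d, a.1, by omega, kept_ks kp a.2.2⟩⟩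

theorem ml_all (rt : RtS) (hb : BasS) (hc : CtlS) (hp : PatS) (ha : AbsGS) (hn : NormS)
    (hcv : ConvS) (hpre : PreS) (hs : StageS) (k : ℕ) : ∀ q', ML k q' := by
  have step : ∀ k, ML k 0 → ∀ q', ML k q' := fun k h0 q' => by
    induction q' with
    | zero => exact h0
    | succ q' ih => exact ml_succ hs h0 ih (fa_of rt hb hcv hpre ih)
  induction k with
  | zero => exact step 0 ml_zero
  | succ k ih => exact step _ (ml_drop hb hc hp ha (lp_of hb hc hn ih))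

theorem un_one {σ : AG} (a : σ.ε) : σ.un {a} = σ.pc a := by simp [AG.un]

/-- maximal enclosures, one for each hole -/
theorem max_enc (hb : BasS) {s : Sk} (h : s.Ok0) {g : ℕ} {B : Fin g × Fin g → Set MV}
    (hB : s.Grid B) (hg : 3 ≤ g) (m : ℕ) : ∃ X ⊆ s.Nd, X.ncard ≤ (s.H ∩ s.Vt).ncard * m ∧
      ∀ X' ⊆ s.Nd, X'.ncard ≤ m → ∀ p ∈ s.M.fl s.vx s.H, ¬ s.EnS B X p ⊂ s.EnS B X' p := by
  obtain ⟨fin, -, -, -, -, -, -, -, r2, bg⟩ := hb.2 s h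
  have mono := (bg g B hB hg).2.2.1
  have ex : ∀ x : MV, ∃ X ⊆ s.Nd, X.ncard ≤ m ∧ ∀ p ∈ s.M.fl s.vx s.H, s.vx p = x →
      ∀ X' ⊆ s.Nd, X'.ncard ≤ m → ¬ s.EnS B X p ⊂ s.EnS B X' p := by
    intro x
    by_cases c : ∃ p ∈ s.M.fl s.vx s.H, s.vx p = x
    swap
    · exact ⟨∅, empty_subset _, by simp, fun p a b => absurd ⟨p, a, b⟩ c⟩
    obtain ⟨p0, hp0, rfl⟩ := c
    have same : ∀ p ∈ s.M.fl s.vx s.H, s.vx p = s.vx p0 → ∀ X, s.EnS B X p = s.EnS B X p0 := by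
      intro p hp e X
      have : p ∈ s.rg (s.bg B X) p0 := r2 _ p0 hp0.1 p hp.1
        (fun a => (((bigS MV s.G g B _ _ hB (hnf.D_tv h)).2.1 _).1 a).1.2 hp0.2)
        (e ▸ Link.refl _ _ _)
      unfold Sk.EnS
      rw [(hnf.rg_cls h _ hp0.1).2 p this]
    have f2 : ∀ X, (s.EnS B X p0).Finite := fun X =>
      fin.subset fun v a => image_mono (hnf.rg_cls h _ hp0.1).1 a.1
    obtain ⟨X, hX, mx⟩ := exists_max_image {X | X ⊆ s.Nd ∧ X.ncard ≤ m}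
      (fun X => (s.EnS B X p0).ncard)
      ((fin.subset (inter_subset_left : s.Nd ⊆ _)).finite_subsets.subset fun _ a => a.1)
      ⟨∅, empty_subset _, by simp⟩
    refine ⟨X, hX.1, hX.2, fun p hp e X' a b c => ?_⟩
    rw [same p hp e, same p hp e] at c
    exact absurd (mx X' ⟨a, b⟩) (not_le.2 (ncard_lt_ncard c (f2 X')))
  choose F f1 f2 f3 using ex
  have fh : (s.H ∩ s.Vt).Finite := fin.subset inter_subset_right
  refine ⟨⋃ x ∈ s.H ∩ s.Vt, F x, iUnion₂_subset fun x _ => f1 x, ?_, fun X' a b p hp c => ?_⟩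
  · generalize s.H ∩ s.Vt = A at fh
    induction A, fh using Finite.induction_on with
    | empty => simp
    | @insert x A hx hA ih =>
      rw [biUnion_insert, ncard_insert_of_notMem hx hA, add_mul, one_mul]
      have := ncard_union_le (F x) (⋃ y ∈ A, F y)
      have := f2 x
      omega
  · refine f3 _ p hp rfl X' a b (lt_of_le_of_lt (mono _ _ ?_ p hp.1) c)
    exact subset_biUnion_of_mem (u := F) ⟨hp.2, p, hp.1, rfl⟩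

end hmn

namespace HB

open hmn hst

theorem mainHS (rt : RtS) (hb : BasS) (hc : CtlS) (hp : PatS) (ha : AbsGS) (hn : NormS)
    (hcv : ConvS) (hpre : PreS) (hs : StageS) : MainHS := by
  intro k q' q s D l n ρ
  obtain ⟨w1, g0, θ1, h⟩ := ml_all rt hb hc hp ha hn hcv hpre hs k (q' + 1) q s D l n ρ
  refine ⟨w1, g0, θ1, fun σ θ T e r g B X a1 a2 a3 a4 a5 a6 a7 a8 a9 c => ?_⟩
  obtain ⟨t, Sd, p, o⟩ := h σ θ T e r g B X a1 a2 a3 a4 a5 a6 a7 a8 a9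
    (c.imp id Nat.lt_succ_of_le)
  exact ⟨t, Sd, p, o.imp id fun a => ⟨a.1, a.2.1, by omega, a.2.2.2⟩⟩

theorem loopS (rt : RtS) (hb : BasS) (hi : InS) (hc : CtlS) (hp : PatS) (ha : AbsGS) (hn : NormS)
    (hcv : ConvS) (hpre : PreS) (hs : StageS) : LoopS := by
  intro k q s D l ρ
  obtain ⟨w1, g0, θ1, h⟩ := lp_of hb hc hn (ml_all rt hb hc hp ha hn hcv hpre hs k) q s D l ρ
  exact ⟨w1, g0, θ1, fun σ θ T e r g B a1 a2 a3 a4 a5 a6 a7 =>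
    h σ θ T e r g B a1 a2 a3 (hi.1 σ r k q s D l a4 a5).1 a6 a7⟩

theorem dropS (rt : RtS) (hb : BasS) (hi : InS) (hc : CtlS) (hp : PatS) (ha : AbsGS) (hn : NormS)
    (hcv : ConvS) (hpre : PreS) (hs : StageS) : DropS := by
  intro k q s D l n ρ
  obtain ⟨w1, g0, θ1, h⟩ := ml_all rt hb hc hp ha hn hcv hpre hs k q q s D l (3 * n) ρ
  refine ⟨w1, g0 + 3, θ1, fun σ θ T e r g B I a1 a2 a3 a4 a5 kp a6 a7 nf => ?_⟩
  obtain ⟨hr, kp'⟩ := hi.1 σ r k q s D l a4 a5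
  have kp' := kp' I kp
  obtain ⟨X, hX, cX, lt⟩ := cut_of hb hr.co.ok0 a6 (by omega) nf
  obtain ⟨t, Sd, p, o⟩ := h σ θ T e r g B X a1 (by omega) a3 hr a6 a7 (Or.inr kp') hX cX
    (lt.imp (·.trans_le hr.co.eg) (·.trans_le hr.co.holes))
  refine ⟨t, Sd, p, o.imp id fun a => ⟨a.2.1, a.2.2.1, str_of kp' a.2.2.2, fun x hx ρ' h' => ?_⟩⟩
  obtain ⟨b1, b2, -, b4, -⟩ := a.2.2.2 x hx.1
  obtain ⟨-, -, -, -, -, dp, -⟩ := hb.2 r.s hr.co.ok0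
  obtain ⟨c, c1, -, -, c4⟩ := kp.atom x (dp b1)
  rw [b2, c1, un_one]
  exact c4 ρ' (b4 h')

theorem vortS (rt : RtS) (hb : BasS) (hi : InS) (hc : CtlS) (hp : PatS) (ha : AbsGS) (hn : NormS)
    (hcv : ConvS) (hpre : PreS) (hs : StageS) : VortS := by
  intro k q s D l m ρ
  obtain ⟨w, hs'⟩ := hs k q D l (q * m) m
  obtain ⟨w1, g2, θ2, hg2, fa⟩ :=
    fa_of rt hb hcv hpre (ml_all rt hb hc hp ha hn hcv hpre hs k q) w ρ
  obtain ⟨n1, g0, hs'⟩ := hs' g2 θ2 hg2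
  refine ⟨w1, n1 + q * m, g0 + 3, θ2, fun σ θ T e r g B I a1 a2 a3 a4 a5 kp a6 a7 nf => ?_⟩
  obtain ⟨hr, kp'⟩ := hi.1 σ r k q s D l a4 a5
  have kp' := kp' I kp
  have h := hr.co.ok0
  obtain ⟨-, -, -, -, -, dp, -, -, -, bg⟩ := hb.2 r.s h
  have b2 := (bg g B a6 (by omega)).2.1
  have full : ∀ X ⊆ r.s.Nd, X.ncard ≤ n1 + q * m →
      r.s.gn (r.s.bg B X) = r.s.M.eg ∧ r.s.hr B X = (r.s.H ∩ r.s.Vt).ncard := fun X a b =>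
    (b2 X).2.1 (nf X (fun v c => hnf.T_tv h (Or.inl (a c))) b)
  obtain ⟨X, hX, cX, mx⟩ := max_enc hb h a6 (by omega) m
  have cX' : X.ncard ≤ q * m := cX.trans (Nat.mul_le_mul_right _ hr.co.holes)
  rcases hs' σ θ T r g B X (by omega) a3 hr.co a6 a7 (Or.inr kp') hX cX' (full X hX (by omega)).1
    with ⟨X', hX', -, c', lt⟩ | ⟨t, Wv, B2, ni, eg, ho, hB2, ctl2, mo2, kt, sp⟩
  · have := full X' hX' (by omega)
    have := (b2 X).1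
    omega
  obtain ⟨t', Sd, p, o⟩ := fa σ θ T e t Wv B2 a1 a3 ni (eg.trans hr.co.eg)
    (ho.trans ((b2 X).1.trans hr.co.holes)) hB2 ctl2 mo2
  refine ⟨t', Sd, p, o.imp id fun a => ⟨a.1, a.2.1, str_of kp' (kept_ks kt a.2.2), fun x hx => ?_⟩⟩
  obtain ⟨c1, c2, -, c4, -⟩ := kept_ks kt a.2.2 x hx
  refine ⟨dp c1, c2, c4, ?_⟩
  rintro ⟨X', d1, d2, d3, p0, d4, p1, d5, d6⟩
  exact mx X' d1 d2 p0 d4 (sp x (a.2.2 x hx).1 X' d1 d2 p0 d4 ⟨⟨p1, d5, d6⟩, d3⟩)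

end HB

end Pool.Agent.MP_9d78a0_co.gm

end MrgPart2

-- ======== part 3: formerly Pool.Agent.MP_9d78a0_co.gm.HArc
section MrgPart3

/-! Arcs of a rotation; renumbering of lanes. -/

set_option autoImplicit false

namespace Pool.Agent.MP_9d78a0_co.gm

open Set Function FM

namespace HArc

variable {Φ : Type} {M : FM Φ} {f : Φ} (h : M.Ok) (hf : f ∈ M.S)
include h hf

theorem mem (i : ℕ) : M.rot^[i] f ∈ M.S := h.gk.sV.sub hf ((rotS Φ M h f hf).1 i)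

theorem cmem (i : ℕ) : M.c (M.rot^[i] f) ∈ M.vo f :=
  cl_step (r := M.rV) ((rotS Φ M h f hf).1 i) (Or.inr rfl)

theorem b_rot (i : ℕ) : M.b (M.rot^[i] f) = M.c (M.rot^[i + 1] f) := by
  rw [iterate_succ_apply', rot, h.gk.cc (h.gk.bm (mem h hf i))]

theorem b_c (i : ℕ) : M.b (M.c (M.rot^[i + 1] f)) = M.rot^[i] f := by
  rw [← b_rot h hf, h.gk.bb (mem h hf i)]

theorem inj {i j : ℕ} (hi : i < (M.vo f).ncard / 2) (hj : j < (M.vo f).ncard / 2)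
    (e : M.rot^[i] f = M.rot^[j] f) : i = j :=
  Nat.ModEq.eq_of_lt_of_lt (((rotS Φ M h f hf).2.2.1 i j).1 e) hi hj

theorem per (i : ℕ) : M.rot^[i + (M.vo f).ncard / 2] f = M.rot^[i] f :=
  ((rotS Φ M h f hf).2.2.1 _ _).2 (by simp [Nat.ModEq])

theorem three {χ : Φ → ZMod 2} (t : M.Two f χ) {i j k : ℕ} (h1 : i < j) (h2 : j < k)
    (h3 : k < (M.vo f).ncard / 2) (a : χ (M.rot^[i + 1] f) ≠ χ (M.rot^[i] f))
    (b : χ (M.rot^[j + 1] f) ≠ χ (M.rot^[j] f)) (c : χ (M.rot^[k + 1] f) ≠ χ (M.rot^[k] f)) :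
    False := by
  obtain ⟨T, hT⟩ : ∃ T : Set ℕ, T = {i | i < (M.vo f).ncard / 2 ∧
    χ (M.rot^[i + 1] f) ≠ χ (M.rot^[i] f)} := ⟨_, rfl⟩
  have m : ∀ i ∈ T, i < (M.vo f).ncard / 2 ∧ χ (M.rot^[i + 1] f) ≠ χ (M.rot^[i] f) :=
    fun i q => by rwa [hT] at q
  have fT : T.Finite := (finite_lt_nat _).subset fun i q => (m i q).1
  have a1 : 2 < T.ncard := (two_lt_ncard_iff fT).2 ⟨i, j, k, hT ▸ ⟨by omega, a⟩,
    hT ▸ ⟨by omega, b⟩, hT ▸ ⟨h3, c⟩, by omega, by omega, by omega⟩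
  have a2 : ((fun i => M.rot^[i] f) '' T).ncard = T.ncard :=
    InjOn.ncard_image fun i p j q e => inj h hf (m i p).1 (m j q).1 e
  have a3 : ((fun i => M.b (M.rot^[i] f)) '' T).ncard = T.ncard :=
    InjOn.ncard_image fun i p j q e => inj h hf (m i p).1 (m j q).1 (by
      rw [← h.gk.bb (mem h hf i), show M.b (M.rot^[i] f) = _ from e, h.gk.bb (mem h hf j)])
  have a4 := ncard_union_eq (s := (fun i => M.rot^[i] f) '' T)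
    (t := (fun i => M.b (M.rot^[i] f)) '' T) (disjoint_left.2 (by
      rintro _ ⟨i, -, rfl⟩ ⟨j, -, e⟩
      exact (rotS Φ M h f hf).2.2.2.1 i (j + 1) (by rw [← b_rot h hf]; exact e.symm)))
    (fT.image _) (fT.image _)
  have a5 : ((fun i => M.rot^[i] f) '' T ∪ (fun i => M.b (M.rot^[i] f)) '' T).ncard ≤ 4 := by
    refine le_trans (ncard_le_ncard ?_ (h.fin.subset fun g q => h.gk.sV.sub hf q.1)) t.2
    rintro _ (⟨i, q, rfl⟩ | ⟨i, q, rfl⟩)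
    · refine ⟨(rotS Φ M h f hf).1 i, ?_⟩
      rw [b_rot h hf, t.1 _ ((rotS Φ M h f hf).1 _)]
      exact (m i q).2
    · beta_reduce
      rw [b_rot h hf]
      refine ⟨cmem h hf _, ?_⟩
      rw [b_c h hf, t.1 _ ((rotS Φ M h f hf).1 _)]
      exact (m i q).2.symm
  omega

end HArc

open HArc

theorem arcS : ArcS := by
  intro Φ M f h hf
  classical
  obtain ⟨r1, r2, r3, r4, r5, -⟩ := rotS Φ M h f hf
  refine ⟨fun g => ⟨r5 g, ?_⟩, fun i hi j hj => ⟨r4 j i, inj h hf hi hj⟩, fun n hn => ?_,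
    fun χ t => ?_⟩
  · rintro ⟨i, -, rfl | rfl⟩
    exacts [r1 i, cmem h hf i]
  · obtain ⟨χ, hχ⟩ : ∃ χ : Φ → ZMod 2, χ = fun g =>
      if ∃ i < n, g = M.rot^[i] f ∨ g = M.c (M.rot^[i] f) then 0 else 1 := ⟨_, rfl⟩
    have c1 : ∀ g ∈ M.vo f, χ (M.c g) = χ g := fun g hg => by
      have gS := h.gk.sV.sub hf hg
      rw [hχ]
      refine if_congr (exists_congr fun i => and_congr_right fun _ => ?_) rfl rfl
      constructor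
      · rintro (e | e)
        · exact Or.inr (by rw [← e, h.gk.cc gS])
        · exact Or.inl (by rw [← h.gk.cc gS, e, h.gk.cc (mem h hf i)])
      · rintro (rfl | rfl)
        · exact Or.inr rfl
        · exact Or.inl (h.gk.cc (mem h hf i))
    have c2 : ∀ i < (M.vo f).ncard / 2, χ (M.rot^[i] f) = if i < n then 0 else 1 := fun i hi => by
      rw [hχ]
      refine if_congr ⟨?_, fun q => ⟨i, q, Or.inl rfl⟩⟩ rfl rfl
      rintro ⟨j, hj, e | e⟩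
      · exact inj h hf hi (by omega) e ▸ hj
      · exact absurd e (r4 i j)
    have c3 : ∀ i, i + 1 < (M.vo f).ncard / 2 → i + 1 ≠ n →
        χ (M.rot^[i + 1] f) = χ (M.rot^[i] f) := fun i hi q => by
      rw [c2 _ hi, c2 _ (by omega)]
      exact if_congr (by omega) rfl rfl
    refine ⟨χ, ⟨c1, ?_⟩, c2⟩
    refine le_trans (ncard_le_ncard (t := {M.rot^[n - 1] f, M.rot^[(M.vo f).ncard / 2 - 1] f,
      M.c (M.rot^[n] f), M.c (M.rot^[0] f)}) ?_ (toFinite _)) ?_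
    · rintro g ⟨hg, q⟩
      obtain ⟨i, hi, rfl | rfl⟩ := r5 g hg
      · rw [b_rot h hf, c1 _ (r1 _)] at q
        by_cases p : i + 1 = n
        · exact Or.inl (by rw [← p]; rfl)
        · have : i = (M.vo f).ncard / 2 - 1 := by
            by_contra z
            exact q (c3 i (by omega) p)
          exact Or.inr (Or.inl (by rw [← this]))
      · rcases i with _ | i
        · exact Or.inr (Or.inr (Or.inr rfl))
        · rw [b_c h hf, c1 _ (r1 _)] at q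
          have : i + 1 = n := by
            by_contra z
            exact q (c3 i hi z).symm
          exact Or.inr (Or.inr (Or.inl (by rw [this])))
    · refine (ncard_insert_le _ _).trans (Nat.succ_le_succ ((ncard_insert_le _ _).trans
        (Nat.succ_le_succ ((ncard_insert_le _ _).trans (by simp)))))
  · have z2 : ∀ x : ZMod 2, x ≠ 0 ↔ x = 1 := by decide
    by_cases a0 : ∀ i, χ (M.rot^[i] f) = 0
    · exact ⟨f, cl_self M.rV f, _, le_rfl, fun i hi => by rw [a0, if_pos hi]⟩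
    by_cases a1 : ∀ i, χ (M.rot^[i] f) ≠ 0
    · exact ⟨f, cl_self M.rV f, 0, Nat.zero_le _, fun i _ => by simpa using (z2 _).1 (a1 i)⟩
    push Not at a0 a1
    obtain ⟨a, ha, hb⟩ : ∃ a, χ (M.rot^[a] f) ≠ 0 ∧ χ (M.rot^[a + 1] f) = 0 := by
      by_contra n
      push Not at n
      obtain ⟨j, hj⟩ := a0
      obtain ⟨i, hi⟩ := a1
      have : ∀ k, χ (M.rot^[j + k] f) ≠ 0 := fun k => by
        induction k with
        | zero => exact hj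
        | succ k ih => exact n _ ih
      have e : M.rot^[j + (i + j * ((M.vo f).ncard / 2 - 1))] f = M.rot^[i] f := (r3 _ _).2 (by
        obtain ⟨m, hm⟩ := Nat.exists_eq_succ_of_ne_zero r2.ne'
        rw [hm, Nat.succ_sub_one, show j + (i + j * m) = i + j * (m + 1) by ring]
        simp [Nat.ModEq])
      exact this _ (e ▸ hi)
    have fS := mem h hf (a + 1)
    have ev : M.vo (M.rot^[a + 1] f) = M.vo f := h.gk.sV.eq hf (r1 _)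
    have t' : M.Two (M.rot^[a + 1] f) χ := by
      unfold FM.Two
      rw [ev]
      exact t
    have w1 : χ (M.rot^[(M.vo f).ncard / 2 - 1] (M.rot^[a + 1] f)) ≠ 0 := by
      rwa [← iterate_add_apply, show (M.vo f).ncard / 2 - 1 + (a + 1) = a + (M.vo f).ncard / 2 by
        omega, per h hf]
    have w2 : χ (M.rot^[(M.vo f).ncard / 2 - 1 + 1] (M.rot^[a + 1] f)) = 0 := by
      rwa [← iterate_add_apply, show (M.vo f).ncard / 2 - 1 + 1 + (a + 1) =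
        a + 1 + (M.vo f).ncard / 2 by omega, per h hf]
    have ex : ∃ n, χ (M.rot^[n] (M.rot^[a + 1] f)) ≠ 0 := ⟨_, w1⟩
    have n1 := Nat.find_spec ex
    have n2 : ∀ i < Nat.find ex, χ (M.rot^[i] (M.rot^[a + 1] f)) = 0 := fun i hi =>
      not_not.1 (Nat.find_min ex hi)
    have n3 : Nat.find ex ≤ (M.vo f).ncard / 2 - 1 := Nat.find_le w1
    generalize Nat.find ex = n at n1 n2 n3
    refine ⟨_, r1 (a + 1), n, by omega, fun i hi => ?_⟩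
    split_ifs with q
    · exact n2 i q
    rw [← z2]
    rcases n with _ | n
    · exact absurd hb n1
    obtain ⟨k, rfl⟩ := Nat.exists_eq_add_of_le (not_lt.1 q)
    clear q
    induction k with
    | zero => exact n1
    | succ k ih =>
      intro z
      have := ih (by omega)
      have lt : n + 1 + k < (M.vo f).ncard / 2 - 1 := by omega
      exact three h fS t' (i := n) (j := n + 1 + k) (k := (M.vo f).ncard / 2 - 1) (by omega) lt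
        (by rw [ev]; omega) (by rw [n2 n (by omega)]; exact n1)
        (by rw [show n + 1 + k + 1 = n + 1 + (k + 1) from rfl, z]; exact this.symm)
        (by rw [w2]; exact w1.symm)

theorem permS : PermS := by
  intro V d s β Λ τ h1 h2 h3
  obtain ⟨π, p0, p1⟩ : ∃ π : ℕ → ℕ → ℕ, (∀ l, π 0 l = l) ∧ ∀ k l, π (k + 1) l = τ k (π k l) :=
    ⟨fun k => Nat.rec id (fun k g => τ k ∘ g) k, fun _ => rfl, fun _ _ => rfl⟩
  have bij : ∀ k < s, BijOn (π k) (Iio d) (Iio d) := fun k hk => by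
    induction k with
    | zero => exact (bijOn_id _).congr fun l _ => (p0 l).symm
    | succ k ih => exact ((h3 k hk).1.comp (ih (by omega))).congr fun l _ => (p1 k l).symm
  have stay : ∀ l < d, ∀ i i', i' < s → β i (π i l) ∉ Λ → β i (π i l) = β i' (π i l) →
      ∀ k, i ≤ k → k ≤ i' → π k l = π i l := by
    intro l hl i i' hi' n e k hk
    induction k, hk using Nat.le_induction with
    | base => exact fun _ => rfl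
    | succ k hk ih =>
      intro q
      have m := (bij i (by omega)).1 hl
      rw [p1, ih (by omega)]
      exact (h3 k (by omega)).2 _ m (Or.inr (Or.inr ((h2 _ m i k i' hk (by omega) hi' n e).trans
        (h2 _ m i (k + 1) i' (by omega) q hi' n e).symm)))
  have key : ∀ k k', k ≤ k' → k' < s → ∀ l < d, ∀ l' < d, β k (π k l) ∉ Λ →
      β k (π k l) = β k' (π k' l') → l = l' := by
    intro k k' hk hk' l hl l' hl' n e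
    have m := h1 k (by omega) k' hk' _ ((bij k (by omega)).1 hl) _ ((bij k' hk').1 hl') n e
    exact (bij k' hk').2.1 hl hl' ((stay l hl k k' hk' n (m ▸ e) k' hk le_rfl).trans m)
  refine ⟨π, bij, fun k _ l _ => p1 k l, fun k hk k' hk' l hl l' hl' n e => ?_,
    fun l hl i k i' a b c n e => ?_⟩
  · rcases le_total k k' with q | q
    · exact key k k' q hk' l hl l' hl' n e
    · exact (key k' k q hk l' hl' l hl (e ▸ n) e.symm).symm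
  · have m := h1 i (by omega) i' c _ ((bij i (by omega)).1 hl) _ ((bij i' c).1 hl) n e
    rw [← m] at e
    rw [stay l hl i i' c n e k a b]
    exact h2 _ ((bij i (by omega)).1 hl) i k i' a b c n e

end Pool.Agent.MP_9d78a0_co.gm

end MrgPart3

-- ======== part 4: formerly Pool.Agent.MP_9d78a0_co.gm.SpecH3
section MrgPart4

/-! Block H, second part: the vortex construction. -/

set_option autoImplicit false

namespace Pool.Agent.MP_9d78a0_co.gm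

open Set Function

namespace Sk

variable (s : Sk)

/-- the hole `x` and the nodes of radial level at most `j` -/
def Lv (x : MV) : ℕ → Set MV
  | 0 => {x}
  | j + 1 => Lv x j ∪ (s.Nd ∩ s.M.rad s.vx (Lv x j))

/-- the level -/
noncomputable def lev (x v : MV) : ℕ := sInf {j | v ∈ s.Lv x j}

/-- flags on faces with a vertex of level at most `j` -/
def lo (x : MV) (j : ℕ) : Set s.Φ := {f | f ∈ s.M.S ∧ ∃ g ∈ s.M.fo f, s.vx g ∈ s.Lv x j}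

/-- the region of `K` round `x` -/
def ar (K : Set MV) (x : MV) : Set s.Φ := {f | ∃ p ∈ s.M.S, s.vx p = x ∧ f ∈ s.rg K p}

/-- the component of `U0` above level `j`, its ring round `x`, and the area of `x` -/
def Kc (U0 : Set MV) (x : MV) (j : ℕ) : Set MV := {v | ∃ u ∈ U0, Link s.G (s.tv \ s.Lv x j) u v}
def Wr (U0 : Set MV) (x : MV) (j : ℕ) : Set MV :=
  s.Kc U0 x j ∩ s.vx '' s.ar (s.Kc U0 x j) x
def Ar (U0 : Set MV) (x : MV) : Set MV := s.vx '' s.ar U0 x \ U0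

/-- a frame at radial distance more than `R` from the holes -/
structure Zx (U0 : Set MV) (R : ℕ) : Prop where
  ok0 : s.Ok0
  tvc : Conn s.G s.tv
  sub : U0 ⊆ s.tv
  conn : Conn s.G U0
  two : U0.Nontrivial
  full : s.M.Full s.vx s.H U0
  far : ∀ h ∈ s.H, Disjoint ((s.M.rad s.vx)^[R] {h}) U0

/-- cells with a root outside `Z`, and the nodes of `Z` that are roots of such cells -/
def Kx (Z : Set MV) : Set MV := {y | y ∈ s.Ce ∧ ∃ v ∈ s.Nd \ Z, s.G.Adj y v}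
def Ex (Z : Set MV) : Set MV := {v | v ∈ Z ∧ ∃ y ∈ s.Kx Z, s.G.Adj y v}

/-- the edges with a side of colour 0 -/
def Ux (χ : s.Φ → ZMod 2) : Set s.Φ := {f | f ∈ s.M.S ∧ (χ f = 0 ∨ χ (s.M.c f) = 0)}

/-- a path node, cell, node, ... with `2 n` edges from `Γ` to `Γ`; `ed i` is the flag of edge `i`
at its first end on the inner side, where `χ = 1` -/
structure Pw (U0 : Set MV) (x : MV) (Z Γ : Set MV) (n : ℕ) (ed : ℕ → s.Φ) (χ : s.Φ → ZMod 2) :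
    Prop where
  pos : 0 < n
  mem : ∀ i < 2 * n, ed i ∈ s.M.S ∧ χ (ed i) = 1 ∧ χ (s.M.c (ed i)) = 0
  pa : Pot s.M.S s.M.a 0 χ
  step : ∀ i, i + 1 < 2 * n → (s.M.sub (s.Ux χ)).b (s.M.a (ed i)) = ed (i + 1)
  node : ∀ i < n, s.vx (ed (2 * i)) ∈ Z ∧ s.vx (ed (2 * i + 1)) ∈ s.Dp ∧
    s.vx (s.M.a (ed (2 * i + 1))) ∈ Z
  ends : ∀ i, 0 < i → i < n → s.vx (ed (2 * i)) ∉ Γ
  inj : ∀ i < 2 * n, ∀ j < 2 * n, s.vx (ed i) = s.vx (ed j) → i = j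
  kept : ∀ f ∈ s.M.S, s.vx f ∈ s.Kx Z → χ f = 1 →
    ∃ i < n, f = s.M.a (ed (2 * i)) ∨ f = ed (2 * i + 1)
  off : ∀ f ∈ s.M.S, f ∉ s.ar U0 x → χ f = 0
  reg : ∀ p ∈ s.M.S, s.vx p = x → ed 0 ∈ s.M.reg (s.Ux χ) p ∧
    ∀ v ∈ Γ, ∃ f ∈ s.M.reg (s.Ux χ) p, s.vx f = v

end Sk

/-- a radial geodesic `γ` from the hole `x` with its corners `p i` (upward) and `q i` (downward)
at `γ i`; `lam` tells the two sides at the nodes `γ i`, `rr + 2 ≤ i ≤ m` -/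
structure Zg (s : Sk) where
  x : MV
  rr : ℕ
  e : ℕ
  γ : ℕ → MV
  p : ℕ → s.Φ
  q : ℕ → s.Φ
  lam : s.Φ → ZMod 2

namespace Zg

variable {s : Sk} (z : Zg s)

/-- the top level -/
def m : ℕ := z.rr + 1 + z.e

/-- the copy of the node of a flag -/
def cp (f : s.Φ) : W × ZMod 2 := (nodeOf (s.vx f), z.lam f)

/-- cells with a root of level at most `rr` -/
def Fi : Set MV := {y | y ∈ s.Ce ∧ ∃ v ∈ s.Lv z.x z.rr, s.G.Adj y v}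

/-- the left (`c = 0`) and right (`c = 1`) copies of the split nodes -/
def Sd (c : ZMod 2) : Set (W × ZMod 2) :=
  {u | ∃ i, z.rr + 2 ≤ i ∧ i ≤ z.m ∧ u = (nodeOf (z.γ i), c)}

/-- the split nodes up to level `t` -/
def Γ (t : ℕ) : Set MV := {v | ∃ i, z.rr + 2 ≤ i ∧ i ≤ t ∧ v = z.γ i}

/-- the weights of the curve along the geodesic from `γ a` to `γ b` -/
noncomputable def ob (a b : ℕ) : s.Φ → ZMod 2 :=
  ∑ i ∈ Finset.Ico a b, (Cy.one s.M.b (z.p i) + Cy.one s.M.b (z.q (i + 1)))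

/-- the axioms of the geodesic -/
structure Geo (U0 : Set MV) : Prop where
  g0 : z.γ 0 = z.x
  pm : ∀ i ≤ z.m, z.p i ∈ s.M.S ∧ s.vx (z.p i) = z.γ i ∧ z.q (i + 1) ∈ s.M.fo (z.p i) ∧
    s.vx (z.q (i + 1)) = z.γ (i + 1) ∧ z.γ (i + 1) ∈ s.Lv z.x (i + 1) ∩ s.Kc U0 z.x i ∩ s.Nd
  face : ∀ i ≤ z.m, ∀ χ : s.Φ → ZMod 2, Pot (s.M.fo (z.p i)) s.M.a 0 χ →
    Pot (s.M.fo (z.p i)) s.M.b (Cy.one s.M.b (z.p i) + Cy.one s.M.b (z.q (i + 1))) χ →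
    χ (z.p i) = χ (z.q (i + 1))
  side : ∀ i, z.rr + 2 ≤ i → i ≤ z.m → Pot (s.M.vo (z.p i)) s.M.c 0 z.lam ∧
    Pot (s.M.vo (z.p i)) s.M.b (Cy.one s.M.b (z.q i) + Cy.one s.M.b (z.p i)) z.lam ∧
    z.lam (z.p i) = 0 ∧ z.lam (z.q i) = 0
  lam0 : ∀ f, s.vx f ∉ z.Γ z.m → z.lam f = 0

end Zg

/-- the geometric data of the zone of a hole: inner nodes, split nodes, targets, the path, and
the places `ix k`, `k < N`, of the new positions on it -/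
structure Zd (s : Sk) where
  Z : Set MV
  Γ : Set MV
  Wv : Set MV
  n : ℕ
  N : ℕ
  ed : ℕ → s.Φ
  ix : ℕ → ℕ
  χ : s.Φ → ZMod 2

/-- the data of the bags of a zone; atoms of level `k + 1` form bag `k` -/
structure Zb (σ : AG) where
  d : ℕ
  β : ℕ → ℕ → W
  L : ℕ → ℕ → Set W
  lev : σ.ε → ℕ

namespace Zd

variable {s : Sk} (d : Zd s)

/-- position `k`, its real vertex, and the cell that follows it on the path -/
def ps (k : ℕ) : MV := s.vx (d.ed (2 * d.ix k))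
def u (k : ℕ) : W := nodeOf (d.ps k)
def lk (k : ℕ) : MV := s.vx (d.ed (2 * d.ix k + 1))

/-- cut `k` -/
def κ {σ : AG} (b : Zb σ) (k : ℕ) : Set W := {d.u k} ∪ {v | ∃ l < b.d, b.β k l = v}

/-- the geometric axioms of a zone -/
structure Zo (U0 : Set MV) (x : MV) (m0 : ℕ) : Prop where
  sub : d.Z ⊆ s.Nd ∩ s.Ar U0 x
  low : s.Nd ∩ s.M.rad s.vx {x} ⊆ d.Z
  deep : Disjoint (s.Ex d.Z) s.RH
  gam : d.Γ ⊆ d.Z
  pw : s.Pw U0 x d.Z d.Γ d.n d.ed d.χ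
  ix : (∀ k k', k < k' → k' < d.N → d.ix k < d.ix k') ∧ ∀ k < d.N, 0 < d.ix k ∧ d.ix k < d.n
  ex : s.Ex d.Z \ d.Γ = {v | ∃ k < d.N, v = d.ps k}
  esc : d.Wv ⊆ s.Nd ∧ ∀ v ∈ s.Ex d.Z, ∃ w ∈ d.Wv, Link s.G (((s.T \ d.Z) \ U0) ∪ {v}) v w
  ring : ∀ p ∈ s.M.S, s.vx p = x → ∃ C : Fin (m0 + 1) → Set MV, Pairwise (Disjoint on C) ∧
    ∀ i, s.Ring (C i) p (s.Kx d.Z ∪ U0)

end Zd

/-- `P` is a connected set of the atoms `X` off `Λ` that joins `v` and `w` -/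
def AG.Lane (σ : AG) (X : Set σ.ε) (Λ P : Set W) (v w : W) : Prop :=
  Conn (gr (σ.un X)) P ∧ v ∈ P ∧ w ∈ P ∧ P ⊆ (σ.vs X ∪ {v}) \ Λ

/-- the new map: `J` is the set of holes with a side -/
structure Sk.Sg (s : Sk) (U0 : Set MV) (zd : MV → Zd s) (s' : Sk) (J : Set MV)
    (φ0 : MV → s'.Φ) : Prop where
  ok : s'.Ok
  spk : s'.Spk
  eg : s'.M.eg ≤ s.M.eg
  hole : s'.H = s.H ∧ s'.H ∩ s'.Vt ⊆ s.Vt
  cell : ∀ y ∈ s'.Ce, y ∈ s.Ce ∧ (∀ x ∈ s.H ∩ s.Vt, y ∈ s.Kx (zd x).Z) ∧ s'.nb y = s.nb y ∧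
    s'.Rd y ⊆ s.Rd y
  node : ∀ v ∈ s'.Nd, ∃ y ∈ s'.Ce, s.G.Adj y v
  clo : ∀ v ∈ s'.Nd, ∀ y ∈ s.Ce, (∀ x ∈ s.H ∩ s.Vt, y ∈ s.Kx (zd x).Z) → s.G.Adj y v → y ∈ s'.Ce
  core : U0 ⊆ s'.T
  spoke : ∀ x ∈ s.H ∩ s.Vt, Sum.inl '' s'.nb x = s'.Nd ∩ (zd x).Z
  sides : J = {x | x ∈ s.H ∩ s.Vt ∧ 2 ≤ (zd x).N ∧ (zd x).ps 0 ∈ s'.Nd}
  all : ∀ x ∈ s.H ∩ s.Vt, ∀ k < (zd x).N, ∀ k' < (zd x).N, (zd x).ps k ∈ s'.Nd →
    (zd x).ps k' ∈ s'.Nd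
  side : ∀ x ∈ J, φ0 x ∈ s'.M.S ∧ s'.vx (φ0 x) = x ∧
    (∀ k < (zd x).N, s'.far (s'.M.rot^[k] (φ0 x)) = (zd x).u k) ∧
    ∀ k, k + 1 < (zd x).N → s'.Quad (s'.M.rot^[k] (φ0 x)) ∧
      s'.link (s'.M.rot^[k] (φ0 x)) = (zd x).lk k ∧
      ((zd x).lk k ∈ s'.Ce ∨ ((zd x).lk k ∈ s'.Rm ∧ (zd x).lk k ∉ s.Kx (zd x).Z))
  rim : ∀ y ∈ s'.Rm ∩ s'.Vt, ∃ x ∈ J, ∃ k, k + 1 < (zd x).N ∧ y = (zd x).lk k

namespace Rw

variable {σ : AG} (r : Rw σ)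

/-- the atoms of the hole and of the low cells -/
def Un (z : Zg r.s) : Set σ.ε := {a | r.own a = some z.x ∨ ∃ y ∈ z.Fi, r.own a = some y}

/-- the graph of the zone: cliques on the roots of high cells and of the atoms of `Un` -/
def GG (z : Zg r.s) : SimpleGraph (W × ZMod 2) where
  Adj u v := u ≠ v ∧ ((∃ f ∈ r.s.M.S, ∃ g ∈ r.s.M.S, r.s.vx f = r.s.vx g ∧
      r.s.vx f ∈ r.s.Ce \ z.Fi ∧ u = z.cp (r.s.M.a f) ∧ v = z.cp (r.s.M.a g)) ∨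
    ∃ a ∈ r.Un z, u.2 = 0 ∧ v.2 = 0 ∧ u.1 ∈ σ.bd {a} ∧ v.1 ∈ σ.bd {a})
  symm := ⟨fun _ _ h => ⟨h.1.symm, h.2.imp
    (fun ⟨f, hf, g, hg, e, k, l, m⟩ => ⟨g, hg, f, hf, e.symm, e ▸ k, m, l⟩)
    fun ⟨a, ha, k, l, m, n⟩ => ⟨a, ha, l, k, n, m⟩⟩⟩
  loopless := ⟨fun _ h => h.1 rfl⟩

/-- the vertices of the graph of the zone that belong to the set `Z` of nodes -/
def Dm (z : Zg r.s) (Z : Set MV) : Set (W × ZMod 2) :=
  {u | u.1 ∉ r.Λ ∧ ((∃ f ∈ r.s.M.S, r.s.vx f ∈ Z ∧ u = z.cp f) ∨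
    (u.2 = 0 ∧ ∃ a ∈ r.Un z, u.1 ∈ σ.bd {a}))}

/-- the standing assumptions -/
structure Cx (k q D l : ℕ) (U0 : Set MV) (z : Zg r.s) : Prop where
  rob : σ.Rob
  co : r.Co k q D l
  tw : r.Tw
  zx : r.s.Zx U0 (z.m + 2)
  hole : z.x ∈ r.s.H ∩ r.s.Vt
  rr : 2 ≤ z.rr
  e : 4 * z.rr + 2 * D + 12 ≤ z.e
  geo : z.Geo U0

/-- admissible sets of inner nodes -/
structure Adm (U0 : Set MV) (z : Zg r.s) (Z : Set MV) (t : ℕ) : Prop where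
  sub : Z ⊆ r.s.Nd \ r.s.Kc U0 z.x z.m
  low : r.s.Lv z.x (z.rr + 1) ∩ r.s.Nd ⊆ Z
  rng : z.rr + 1 ≤ t ∧ t ≤ z.m
  gam : ∀ i, z.rr + 2 ≤ i → i ≤ z.m → (z.γ i ∈ Z ↔ i ≤ t)
  esc : ∀ v ∈ r.s.Nd \ Z, (v ∉ r.s.Kc U0 z.x z.m ∨ v ∈ r.s.Lv z.x (z.m + 1)) →
    ∃ i, t < i ∧ i ≤ z.m + 1 ∧ Link r.s.G ((r.s.T \ Z) \ U0) v (z.γ i)
  sep : Sepn (r.GG z) (r.Dm z Z) (z.Sd 0) (z.Sd 1) z.e

/-- the first lane is the path `ed`, and the other lanes are exposed at split nodes only -/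
structure Top (z : Zg r.s) (Z : Set MV) (t : ℕ) (n : ℕ → ℕ) (y : ℕ → ℕ → W × ZMod 2)
    (ed : ℕ → r.s.Φ) : Prop where
  path : ∀ i < n 0, z.cp (ed (2 * i)) = y 0 i ∧ z.cp (r.s.M.a (ed (2 * i + 1))) = y 0 (i + 1) ∧
    r.s.vx (ed (2 * i + 1)) ∉ z.Fi
  rest : ∀ l, 0 < l → l < z.e → ∀ i ≤ n l, Sum.inl (y l i).1 ∈ r.s.Ex Z →
    Sum.inl (y l i).1 ∈ z.Γ t

/-- the atoms of the zone -/
def Zn (x : MV) (Z : Set MV) : Set σ.ε :=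
  {a | r.own a = some x ∨ ∃ y ∈ r.s.Ce \ r.s.Kx Z, r.own a = some y}

/-- the axioms of the bags of a zone, with `Λ' = Λ + Γ` and `bg k` the bags -/
structure Zr' (x : MV) (d : Zd r.s) (b : Zb σ) (Λ' : Set W) (bg : ℕ → Set σ.ε) : Prop where
  groot : nodeOf '' d.Γ ⊆ σ.sh
  inner : ∀ k < d.N, ∀ l < b.d, b.β k l ∈ Od ∧
    (b.β k l ∉ Λ' → Sum.inl (b.β k l) ∉ r.s.Ex d.Z ∧ ∃ a ∈ r.Zn x d.Z, b.β k l ∈ σ.inc a)
  priv : ∀ k < d.N, ∀ k' < d.N, ∀ l < b.d, ∀ l' < b.d, b.β k l ∉ Λ' → b.β k l = b.β k' l' → l = l'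
  conv : ∀ l < b.d, ∀ i k i', i ≤ k → k ≤ i' → i' < d.N → b.β i l ∉ Λ' → b.β i l = b.β i' l →
    b.β k l = b.β i l
  two : ∀ k < d.N, d.κ b k ⊆ σ.sh
  le : ∀ a, b.lev a ≤ d.N
  sh1 : ∀ a ∈ r.Zn x d.Z, ∀ v ∈ σ.inc a \ Λ', ∀ k < d.N, v ∈ d.κ b k →
    (k < b.lev a → v ∈ d.κ b (b.lev a - 1)) ∧ (b.lev a ≤ k → v ∈ d.κ b (b.lev a))
  sh2 : ∀ a ∈ r.Zn x d.Z, ∀ a' ∈ r.Zn x d.Z, ∀ v ∈ (σ.inc a ∩ σ.inc a') \ Λ',
    b.lev a < b.lev a' → v ∈ d.κ b (b.lev a)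
  lane : ∀ k, k + 1 < d.N → ∀ l < b.d, b.β k l ∉ Λ' → b.β (k + 1) l ∉ Λ' →
    σ.Lane (bg k) Λ' (b.L k l) (b.β k l) (b.β (k + 1) l) ∧ d.u k ∉ b.L k l ∧
      d.u (k + 1) ∉ b.L k l
  path : ∀ k, k + 1 < d.N → d.lk k ∉ r.s.Kx d.Z →
    σ.Lane (bg k) Λ' (b.L k b.d) (d.u k) (d.u (k + 1))
  ldis : ∀ k, k + 1 < d.N → ∀ l ≤ b.d, ∀ l' ≤ b.d, l ≠ l' → Disjoint (b.L k l) (b.L k l')
  lent : ∀ k, k + 1 < d.N → ∀ l ≤ b.d, ∀ l' < b.d, l ≠ l' →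
    b.β k l' ∉ b.L k l ∧ b.β (k + 1) l' ∉ b.L k l
  tr : ({k | k + 1 < d.N ∧ ∃ l < b.d, ¬ (b.β k l ∈ Λ' ↔ b.β (k + 1) l ∈ Λ')} : Set ℕ).ncard ≤
    2 * b.d

def Zr (x : MV) (d : Zd r.s) (b : Zb σ) : Prop :=
  r.Zr' x d b (r.Λ ∪ nodeOf '' d.Γ) fun k => {a | a ∈ r.Zn x d.Z ∧ b.lev a = k + 1}

open Classical in
/-- the new structure -/
noncomputable def mkSh (zd : MV → Zd r.s) (zb : MV → Zb σ) (s' : Sk) (J : Set MV) (hJ : J.Finite)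
    (φ0 : MV → s'.Φ) : Sh σ where
  s := s'
  Λ := r.Λ ∪ ⋃ x ∈ r.s.H ∩ r.s.Vt, nodeOf '' (zd x).Γ
  ι := J
  fin := hJ.fintype
  m j := (zd j).N - 1
  d j := (zb j).d
  φ0 j := φ0 j
  β j := (zb j).β
  L j := (zb j).L
  own a := if h : ∃ y ∈ s'.Ce, r.own a = some y then some (Sum.inl h.choose) else
    if h : ∃ j : J, a ∈ r.Zn j (zd j).Z ∧ 0 < (zb j).lev a ∧ (zb j).lev a < (zd j).N then
      some (Sum.inr (h.choose, (zb h.choose).lev a - 1)) else none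

/-- all that is known when the new structure is put together -/
structure Vc (k q D l : ℕ) (U0 : Set MV) (R m0 w0 : ℕ) (zd : MV → Zd r.s) (zb : MV → Zb σ)
    (s' : Sk) (J : Set MV) (φ0 : MV → s'.Φ) : Prop where
  co : r.Co k q D l
  tw : r.Tw
  zx : r.s.Zx U0 R ∧ 2 ≤ R
  zone : ∀ x ∈ r.s.H ∩ r.s.Vt, (zd x).Zo U0 x m0 ∧ r.Zr x (zd x) (zb x) ∧
    (zd x).Γ.ncard ≤ w0 ∧ (zd x).Wv.ncard ≤ w0 ∧ (zb x).d ≤ w0
  sg : r.s.Sg U0 zd s' J φ0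

end Rw

namespace HB

/-- areas of holes -/
def AreaS : Prop :=
  ∀ (s : Sk) (U0 : Set MV) (R : ℕ) (x : MV), s.Zx U0 R → 1 ≤ R → x ∈ s.H ∩ s.Vt →
    (∀ K, x ∉ K → ∀ p ∈ s.M.S, s.vx p = x → s.ar K x = s.rg K p) ∧
    s.H ∩ s.Ar U0 x = {x} ∧ s.M.rad s.vx {x} ⊆ s.Ar U0 x ∧
    s.RH ∩ s.Ar U0 x ⊆ s.M.rad s.vx {x} ∧ Disjoint s.RH U0 ∧ U0 ⊆ s.T ∧
    (∀ y ∈ s.Rm ∩ s.Ar U0 x, s.nb y ⊆ s.nb x) ∧
    (∀ v ∈ s.Ar U0 x, ∀ w, s.G.Adj v w → w ∉ U0 → w ∈ s.Ar U0 x) ∧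
    (∀ f ∈ s.M.S, s.vx f ∈ s.Ar U0 x → f ∈ s.ar U0 x) ∧
    ∀ x' ∈ s.H ∩ s.Vt, x' ≠ x → Disjoint (s.ar U0 x) (s.ar U0 x') ∧
      Disjoint (s.Ar U0 x) (s.Ar U0 x')

/-- levels and rings -/
def LevS : Prop :=
  ∀ (s : Sk) (U0 : Set MV) (R : ℕ) (x : MV), s.Zx U0 R → x ∈ s.H ∩ s.Vt →
    (∀ i j, i ≤ j → s.Lv x i ⊆ s.Lv x j ∧ s.Kc U0 x j ⊆ s.Kc U0 x i) ∧
    (∀ j, s.Lv x j ⊆ {x} ∪ s.Nd ∧ s.Lv x j ⊆ (s.M.rad s.vx)^[j] {x} ∧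
      ∀ y ∈ s.tv \ s.Nd, ∀ u ∈ s.Lv x j, ∀ v, s.G.Adj y u → s.G.Adj y v → v ∈ s.Lv x (j + 1)) ∧
    (∀ j, ∀ v ∈ s.Lv x (j + 1), v ≠ x → ∃ C ⊆ s.Lv x (j + 1) ∩ s.Nd, v ∈ C ∧ C.ncard ≤ j + 1 ∧
      ∃ f0 ∈ s.M.S, s.vx f0 = x ∧
        ∃ ob, s.M.Cv s.vx ((s.M.fl s.vx C ∪ {f0}) ∩ s.lo x j) ∅ x v ob 0) ∧
    ∀ j < R, U0 ⊆ s.Kc U0 x j ∧ s.Kc U0 x j ⊆ s.tv \ s.Lv x j ∧ Conn s.G (s.Kc U0 x j) ∧
      s.M.Full s.vx s.H (s.Kc U0 x j) ∧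
      (∀ u ∈ s.Kc U0 x j, ∀ v ∈ s.tv \ s.Lv x j, s.G.Adj u v → v ∈ s.Kc U0 x j) ∧
      s.Lv x (j + 1) ⊆ s.Ar U0 x ∧ s.tv \ s.Kc U0 x j ⊆ s.Ar U0 x ∧
      (∀ y ∈ s.tv, ∀ v ∈ s.Nd \ s.Kc U0 x j, s.G.Adj y v → y ∈ s.Ar U0 x) ∧
      (∀ f ∈ s.M.S, s.vx f ∉ s.Kc U0 x j → s.vx f ∉ s.H \ {x} → f ∈ s.ar (s.Kc U0 x j) x) ∧
      (∀ f ∈ s.ar (s.Kc U0 x j) x, s.vx f ∈ s.Kc U0 x j → ∃ g ∈ s.M.fo f, s.vx g ∈ s.Lv x j ∧
        (s.vx g = x ∨ ∃ w ∈ s.Kc U0 x j, s.G.Adj w (s.vx g))) ∧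
      (∀ p ∈ s.M.S, s.vx p = x → s.Ring (s.Wr U0 x j) p (s.Kc U0 x j \ s.Wr U0 x j)) ∧
      s.Wr U0 x j ∩ s.Nd = s.Kc U0 x j ∩ s.Lv x (j + 1) ∧
      (∀ y ∈ s.Wr U0 x j \ s.Nd, ∃ v ∈ s.Wr U0 x j ∩ s.Nd, s.G.Adj y v) ∧
      s.Wr U0 x j ⊆ s.Ar U0 x ∧ (1 ≤ j → s.Wr U0 x j ⊆ s.T)

/-- the geodesic exists -/
def GeoS : Prop :=
  ∀ (s : Sk) (U0 : Set MV) (x : MV) (rr e : ℕ), s.Zx U0 (rr + 1 + e + 2) → x ∈ s.H ∩ s.Vt →
    ∃ z : Zg s, z.x = x ∧ z.rr = rr ∧ z.e = e ∧ z.Geo U0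

/-- facts on the geodesic and on the graph of the zone -/
def GamS : Prop :=
  ∀ (σ : AG) (r : Rw σ) (k q D l : ℕ) (U0 : Set MV) (z : Zg r.s), r.Cx k q D l U0 z →
    (∀ i ≤ z.m + 1, (∀ j, z.γ i ∈ r.s.Lv z.x j ↔ i ≤ j) ∧ r.s.lev z.x (z.γ i) = i) ∧
    (∀ i ≤ z.m, ∀ j ≤ z.m, z.p j ∈ r.s.M.fo (z.p i) → i = j) ∧
    (∀ i ≤ z.m, ∀ j < i, Disjoint (r.s.M.fo (z.p i)) (r.s.lo z.x j)) ∧
    (∀ i, 1 ≤ i → i ≤ z.m → z.q i ∈ r.s.M.vo (z.p i) ∧ z.q i ≠ z.p i ∧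
      z.q i ≠ r.s.M.b (z.p i)) ∧
    (∀ f ∈ r.s.M.S, z.lam (r.s.M.c f) = z.lam f) ∧
    (∀ a b, a ≤ b → b ≤ z.m + 1 → r.s.M.Cv r.s.vx univ ∅ (z.γ a) (z.γ b) (z.ob a b) 0 ∧
      (∀ f ∈ r.s.M.S, z.ob a b f ≠ 0 → ∃ i, a ≤ i ∧ i ≤ b ∧ r.s.vx f = z.γ i) ∧
      ∀ j ≤ z.m, (∀ f ∈ r.s.M.vo (z.p j), z.ob a b f =
          (if a ≤ j ∧ j < b then Cy.one r.s.M.b (z.p j) f else 0) +
          (if a < j ∧ j ≤ b then Cy.one r.s.M.b (z.q j) f else 0)) ∧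
        ∀ f ∈ r.s.M.fo (z.p j), z.ob a b f = if a ≤ j ∧ j < b then
          Cy.one r.s.M.b (z.p j) f + Cy.one r.s.M.b (z.q (j + 1)) f else 0) ∧
    (∀ y ∈ r.s.Ce \ z.Fi, y ∈ r.s.Ar U0 z.x → y ∈ r.s.Dp) ∧
    (∀ y ∈ z.Fi, ∀ v, r.s.G.Adj y v → v ∈ r.s.Lv z.x (z.rr + 1) ∩ r.s.Nd) ∧
    (∀ v ∈ r.Λ, Sum.inl v ∈ r.s.Ar U0 z.x → Sum.inl v ∈ r.s.Lv z.x 1) ∧
    (∀ a ∈ r.Un z, ∀ v ∈ σ.bd {a} \ r.Λ, Sum.inl v ∈ r.s.Vt →
      Sum.inl v ∈ r.s.Lv z.x (z.rr + 1)) ∧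
    Disjoint (z.Sd 0) (z.Sd 1) ∧
    ∀ Z ⊆ r.s.Nd, r.s.Lv z.x (z.rr + 1) ∩ r.s.Nd ⊆ Z → (r.Dm z Z).Finite ∧
      ∀ u ∈ r.Dm z Z, u.1 ∈ Od ∧ (Sum.inl u.1 ∈ r.s.Vt → Sum.inl u.1 ∈ Z) ∧
        (Sum.inl u.1 ∉ z.Γ z.m → u.2 = 0) ∧ (Sum.inl u.1 ∈ z.Γ z.m ↔ u ∈ z.Sd 0 ∪ z.Sd 1)

/-- the rings give an admissible set -/
def RingS : Prop :=
  ∀ (σ : AG) (r : Rw σ) (k q D l : ℕ) (U0 : Set MV) (z : Zg r.s), r.Cx k q D l U0 z →
    r.Adm U0 z (r.s.Nd \ r.s.Kc U0 z.x z.m) z.m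

/-- a colouring of the flags gives a colouring of the graph of the zone -/
def ColS : Prop :=
  ∀ (σ : AG) (r : Rw σ) (k q D l : ℕ) (U0 : Set MV) (z : Zg r.s) (Z : Set MV)
    (χ : r.s.Φ → ZMod 2) (U : Set σ.ε) (Cn : Set (W × ZMod 2)), r.Cx k q D l U0 z → Z ⊆ r.s.Nd →
    r.s.Lv z.x (z.rr + 1) ∩ r.s.Nd ⊆ Z → U ⊆ r.ct z.x → Pot r.s.M.S r.s.M.a 0 χ →
    (∀ f ∈ r.s.M.S, ∀ g ∈ r.s.M.S, r.s.vx f ∈ Z → r.s.vx g = r.s.vx f → z.lam g = z.lam f →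
      z.cp f ∉ Cn → χ f = χ g) →
    (∀ f ∈ r.s.M.S, ∀ g ∈ r.s.M.S, r.s.vx f = r.s.vx g → r.s.vx f ∈ r.s.Ce \ z.Fi →
      r.s.vx (r.s.M.a f) ∈ Z → r.s.vx (r.s.M.a g) ∈ Z → z.cp (r.s.M.a f) ∉ Cn →
      z.cp (r.s.M.a g) ∉ Cn → χ f = χ g) →
    (∀ f ∈ r.s.M.S, ∀ g ∈ r.s.M.S, r.s.vx f = r.s.vx g → r.s.vx f ∈ z.Fi → χ f = χ g) →
    ∃ ψ : W × ZMod 2 → ZMod 2, (∀ f ∈ r.s.M.S, r.s.vx f ∈ Z → z.cp f ∉ Cn → ψ (z.cp f) = χ f) ∧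
      ∀ u ∈ r.Dm z Z \ Cn, ∀ v ∈ r.Dm z Z \ Cn, u.1 ∉ r.dcut (z.p 0) χ U →
        v.1 ∉ r.dcut (z.p 0) χ U → (r.GG z).Adj u v → ψ u = ψ v

/-- no low node is exposed -/
def V0S : Prop :=
  ∀ (σ : AG) (r : Rw σ) (k q D l : ℕ) (U0 : Set MV) (z : Zg r.s) (Z : Set MV) (t : ℕ),
    r.Cx k q D l U0 z → r.Adm U0 z Z t → Disjoint (r.s.Ex Z) (r.s.Lv z.x (z.rr + 1))

/-- the lane with the highest start stays high -/
def V1S : Prop :=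
  ∀ (σ : AG) (r : Rw σ) (k q D l : ℕ) (U0 : Set MV) (z : Zg r.s) (Z : Set MV) (t : ℕ)
    (n : ℕ → ℕ) (y : ℕ → ℕ → W × ZMod 2), r.Cx k q D l U0 z → r.Adm U0 z Z t →
    Lns (r.GG z) (r.Dm z Z) (z.Sd 0) (z.Sd 1) z.e n y →
    (∀ j < z.e, r.s.lev z.x (Sum.inl (y j 0).1) ≤ r.s.lev z.x (Sum.inl (y 0 0).1)) →
    ∀ i ≤ n 0, Sum.inl (y 0 i).1 ∈ Z \ r.s.Lv z.x (z.rr + 1)

/-- the two sides of the top lane -/
def V2S : Prop :=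
  ∀ (σ : AG) (r : Rw σ) (k q D l : ℕ) (U0 : Set MV) (z : Zg r.s) (Z : Set MV) (t : ℕ)
    (n : ℕ → ℕ) (y : ℕ → ℕ → W × ZMod 2), r.Cx k q D l U0 z → r.Adm U0 z Z t →
    Lns (r.GG z) (r.Dm z Z) (z.Sd 0) (z.Sd 1) z.e n y →
    (∀ j < z.e, r.s.lev z.x (Sum.inl (y j 0).1) ≤ r.s.lev z.x (Sum.inl (y 0 0).1)) →
    (∀ i ≤ n 0, Sum.inl (y 0 i).1 ∈ Z \ r.s.Lv z.x (z.rr + 1)) →
    (∃ j < z.e, Sum.inl (y j 0).1 = z.γ t ∨ Sum.inl (y j (n j)).1 = z.γ t) →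
    ∃ ed χ, r.s.Pw U0 z.x Z (z.Γ t) (n 0) ed χ ∧ r.Top z Z t n y ed

/-- admissible sets of least size -/
def MinS : Prop :=
  ∀ (σ : AG) (r : Rw σ) (k q D l : ℕ) (U0 : Set MV) (z : Zg r.s) (Z : Set MV) (t : ℕ),
    r.Cx k q D l U0 z → r.Adm U0 z Z t → (∀ Z' t', r.Adm U0 z Z' t' → Z.ncard ≤ Z'.ncard) →
    (∀ v ∈ r.s.Ex Z, v ∉ r.s.Lv z.x (z.rr + 1) → v ∉ z.Γ t →
      ¬ Sepn (r.GG z) (r.Dm z Z \ {(nodeOf v, 0)}) (z.Sd 0) (z.Sd 1) z.e) ∧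
    ∀ n y, Lns (r.GG z) (r.Dm z Z) (z.Sd 0) (z.Sd 1) z.e n y →
      ∃ j < z.e, Sum.inl (y j 0).1 = z.γ t ∨ Sum.inl (y j (n j)).1 = z.γ t

/-- bags and lanes from a chain of cuts -/
def BagHS : Prop :=
  ∀ (σ : AG) (r : Rw σ) (k q D l m0 : ℕ) (U0 : Set MV) (z : Zg r.s) (t : ℕ) (d : Zd r.s)
    (n : ℕ → ℕ) (y : ℕ → ℕ → W × ZMod 2) (A B : ℕ → Set (W × ZMod 2)) (c : ℕ → ℕ → ℕ),
    r.Cx k q D l U0 z → r.Adm U0 z d.Z t → d.Zo U0 z.x m0 → d.Γ = z.Γ t → d.n = n 0 →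
    Lns (r.GG z) (r.Dm z d.Z) (z.Sd 0) (z.Sd 1) z.e n y → r.Top z d.Z t n y d.ed →
    Chn (r.GG z) (r.Dm z d.Z) (z.Sd 0) (z.Sd 1) z.e n y d.N A B c → (∀ j < d.N, c j 0 = d.ix j) →
    ∃ b : Zb σ, b.d ≤ z.e ∧ r.Zr z.x d b

/-- the zone of one hole -/
def ZoneS : Prop :=
  ∀ D m0 : ℕ, ∃ w0 R : ℕ, 2 ≤ R ∧ ∀ (σ : AG) (r : Rw σ) (k q l : ℕ) (U0 : Set MV) (x : MV),
    σ.Rob → r.Co k q D l → r.Tw → r.s.Zx U0 R → x ∈ r.s.H ∩ r.s.Vt →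
    ∃ (d : Zd r.s) (b : Zb σ), d.Zo U0 x m0 ∧ r.Zr x d b ∧ d.Γ.ncard ≤ w0 ∧ d.Wv.ncard ≤ w0 ∧
      b.d ≤ w0

/-- the new map -/
def SurgS : Prop :=
  ∀ (s : Sk) (U0 : Set MV) (R m0 : ℕ) (zd : MV → Zd s), s.Zx U0 R → 2 ≤ R →
    (∀ x ∈ s.H ∩ s.Vt, (zd x).Zo U0 x m0) →
    ∃ (s' : Sk) (J : Set MV) (φ0 : MV → s'.Φ), s.Sg U0 zd s' J φ0

/-- the axioms of the new structure -/
def ShAS : Prop :=
  ∀ (σ : AG) (r : Rw σ) (k q D l : ℕ) (U0 : Set MV) (R m0 w0 : ℕ) (zd : MV → Zd r.s)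
    (zb : MV → Zb σ) (s' : Sk) (J : Set MV) (hJ : J.Finite) (φ0 : MV → s'.Φ),
    r.Vc k q D l U0 R m0 w0 zd zb s' J φ0 → (r.mkSh zd zb s' J hJ φ0).Ok

/-- the other properties of the new structure -/
def ShBS : Prop :=
  ∀ q l w0 : ℕ, ∃ w : ℕ, ∀ (σ : AG) (r : Rw σ) (k D : ℕ) (U0 : Set MV) (R m0 : ℕ)
    (zd : MV → Zd r.s) (zb : MV → Zb σ) (s' : Sk) (J : Set MV) (hJ : J.Finite) (φ0 : MV → s'.Φ),
    r.Vc k q D l U0 R m0 w0 zd zb s' J φ0 → (r.mkSh zd zb s' J hJ φ0).Ok →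
    Vo r (r.mkSh zd zb s' J hJ φ0) U0 (⋃ x ∈ r.s.H ∩ r.s.Vt, nodeOf '' (zd x).Wv) w m0

end HB

end Pool.Agent.MP_9d78a0_co.gm

end MrgPart4

-- ======== part 5: formerly Pool.Agent.MP_9d78a0_co.gm.HLink
section MrgPart5

/-! Block H: from paths through cliques to real paths. -/

set_option autoImplicit false

namespace Pool.Agent.MP_9d78a0_co.gm

open Set Function fb

theorem linkHS : LinkHS := by
  classical
  intro V μ ι _ _ X Vs R Δ G' o n Q hV hX hI hE hC hQ hd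
  have fU : (((⋃ u, Vs u) ∪ range o) \ Δ).Finite :=
    ((finite_iUnion fun u => (hV u).1).union (finite_range o)).subset sdiff_subset
  have oU : ∀ b, o b ∈ ((⋃ u, Vs u) ∪ range o) \ Δ := fun b =>
    ⟨Or.inr ⟨b, rfl⟩, disjoint_left.1 (hQ b).2.2.2.1 (hQ b).2.1⟩
  obtain ⟨θ, P, h1, h2⟩ := mengerPS V ι (⨆ u, X u) _ o n fU fun Y hY hc => by
    by_contra no
    obtain ⟨A, hA⟩ : ∃ A : Set V, ∀ v, v ∈ A ↔ ∃ b, o b ∉ Y ∧
        v ∈ cp (⨆ u, X u) ((((⋃ u, Vs u) ∪ range o) \ Δ) \ Y) (o b) := ⟨_, fun _ => Iff.rfl⟩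
    have a1 : ∀ b, n b ∉ A := fun b m => by
      obtain ⟨b', k1, k2⟩ := (hA _).1 m
      exact no ⟨_, cp_sub, cp_conn ⟨oU b', k1⟩, ⟨b', cp_self ⟨oU b', k1⟩⟩, b, k2⟩
    have a2 : ∀ v ∈ A, v ∉ Y ∧ v ∉ Δ := fun v m => by
      obtain ⟨b', -, k2⟩ := (hA _).1 m
      exact ⟨k2.1.2, k2.1.1.2⟩
    have a3 : ∀ u, ∃ T : Set V, (T = R u \ (A ∪ Y ∪ Δ) ∨ T = R u \ Aᶜ) ∧
        T.ncard ≤ ((Y ∩ Vs u) \ (R u ∪ Δ)).ncard := by
      intro u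
      have e : ((A ∪ Y ∪ Δ) ∩ Aᶜ ∩ Vs u) \ (R u ∪ Δ) = (Y ∩ Vs u) \ (R u ∪ Δ) := by
        ext v
        constructor
        · rintro ⟨⟨⟨(k | k) | k, k1⟩, k2⟩, k3⟩
          exacts [(k1 k).elim, ⟨⟨k, k2⟩, k3⟩, (k3 (Or.inr k)).elim]
        · rintro ⟨⟨k, k2⟩, k3⟩
          exact ⟨⟨⟨Or.inl (Or.inr k), fun m => (a2 v m).1 k⟩, k2⟩, k3⟩
      rcases hC u (A ∪ Y ∪ Δ) Aᶜ (fun v _ => by
          by_cases c : v ∈ A
          exacts [Or.inl (Or.inl (Or.inl c)), Or.inr c])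
        (fun v m => ⟨Or.inr m, fun k => (a2 v k).2 m⟩) (fun v w k m => by
          obtain ⟨b, k1, k2⟩ := (hA v).1 (not_not.1 m)
          by_cases c : w ∈ Y
          · exact Or.inl (Or.inr c)
          by_cases c' : w ∈ Δ
          · exact Or.inr c'
          exact Or.inl (Or.inl ((hA w).2 ⟨b, k1, cp_closed k2
            ⟨⟨Or.inl (mem_iUnion.2 ⟨u, hX u w v k.symm⟩), c'⟩, c⟩ (le_iSup X u k)⟩))) with k | k
      · exact ⟨_, Or.inl rfl, e ▸ k⟩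
      · exact ⟨_, Or.inr rfl, e ▸ k⟩
    choose T t1 t2 using a3
    have fY := fU.subset hY
    have ne : Nonempty V := by
      obtain ⟨b⟩ := (Nat.card_pos_iff.1 (Nat.zero_lt_of_lt hc)).1
      exact ⟨o b⟩
    have a4 : ∀ u, ∃ g : V → V, T u ⊆ g ⁻¹' ((Y ∩ Vs u) \ (R u ∪ Δ)) ∧ InjOn g (T u) := by
      intro u
      have f1 : (T u).Finite := ((hV u).1.subset (hV u).2).subset (by
        rcases t1 u with k | k <;> rw [k] <;> exact sdiff_subset)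
      refine f1.exists_injOn_of_encard_le ?_
      rw [← f1.cast_ncard_eq, ← (fY.subset fun v (k : v ∈ (Y ∩ Vs u) \ (R u ∪ Δ)) =>
        k.1.1).cast_ncard_eq]
      exact_mod_cast t2 u
    choose g g1 g2 using a4
    have a5 : ∀ b, ∃ y ∈ Y, (y ∈ Q b ∧ ∀ u, y ∈ Vs u → y ∈ R u ∪ Δ) ∨
        ∃ u, ∃ x ∈ Q b ∩ T u, y = g u x := by
      intro b
      by_cases c : o b ∈ Y
      · exact ⟨_, c, Or.inl ⟨(hQ b).2.1, fun u k => Or.inl ((hE u b).1 k)⟩⟩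
      obtain ⟨v, w, k1, k2, k3, k4, k5, -⟩ := link_exit (T := A)
        ((hQ b).1.2 _ (hQ b).2.1 _ (hQ b).2.2.1) ((hA _).2 ⟨b, c, cp_self ⟨oU b, c⟩⟩) (a1 b)
      obtain ⟨u, r1, r2⟩ := (hQ b).2.2.2.2 v k1 w k2 k5
      by_cases c' : w ∈ Y
      · refine ⟨w, c', Or.inl ⟨k2, fun u' k => ?_⟩⟩
        by_cases e : u' = u
        · exact Or.inl (e ▸ r2)
        · exact hI u' u e ⟨k, (hV u).2 r2⟩
      rcases t1 u with k | k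
      · have m : w ∈ T u := k ▸ ⟨r2, by
          rintro ((m | m) | m)
          exacts [k4 m, c' m, disjoint_left.1 (hQ b).2.2.2.1 k2 m]⟩
        exact ⟨_, (g1 u m).1.1, Or.inr ⟨u, w, ⟨k2, m⟩, rfl⟩⟩
      · have m : v ∈ T u := k ▸ ⟨r1, fun m => m k3⟩
        exact ⟨_, (g1 u m).1.1, Or.inr ⟨u, v, ⟨k1, m⟩, rfl⟩⟩
    choose y y1 y2 using a5
    have inj : Injective y := fun b b' e => by
      by_contra ne
      have d := disjoint_left.1 (hd ne)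
      rcases y2 b with ⟨k1, k2⟩ | ⟨u, x, ⟨k1, k2⟩, k3⟩ <;>
        rcases y2 b' with ⟨m1, m2⟩ | ⟨u', x', ⟨m1, m2⟩, m3⟩
      · exact d k1 (e ▸ m1)
      · have m := g1 u' m2
        rw [mem_preimage, ← m3, ← e] at m
        exact m.2 (k2 u' m.1.2)
      · have m := g1 u k2
        rw [mem_preimage, ← k3, e] at m
        exact m.2 (m2 u m.1.2)
      · have m := g1 u k2
        have m' := g1 u' m2
        rw [mem_preimage, ← k3] at m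
        rw [mem_preimage, ← m3, ← e] at m'
        by_cases c : u = u'
        · subst c
          exact d k1 (g2 u k2 m2 (by rw [← k3, ← m3, e]) ▸ m1)
        · exact m.2 (hI u u' c ⟨m.1.2, m'.1.2⟩)
    have := ncard_le_ncard_of_injOn y (s := univ) (fun b _ => y1 b) inj.injOn fY
    rw [ncard_univ] at this
    omega
  refine ⟨θ, P, h2, fun b => ⟨(h1 b).2.1, (h1 b).2.2.1, (h1 b).2.2.2, fun v hv => ?_⟩⟩
  obtain ⟨k | ⟨b', rfl⟩, k'⟩ := (h1 b).1 hv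
  · exact ⟨Or.inl k, k'⟩
  · by_cases c : b' = b
    · exact ⟨Or.inr (congrArg o c), k'⟩
    · exact (disjoint_left.1 (h2 c) (h1 b').2.2.1 hv).elim

end Pool.Agent.MP_9d78a0_co.gm

end MrgPart5

-- ======== part 6: formerly Pool.Agent.MP_9d78a0_co.gm.HBag1
section MrgPart6

/-! Block H: bags and lanes from a chain of cuts, the combinatorial part. -/

set_option autoImplicit false

namespace Pool.Agent.MP_9d78a0_co.gm

open Set Function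

namespace HBag

/-- atoms `Zn` grouped into units with roots, and a chain of cuts of a graph on the roots -/
structure Dt (σ : AG) (Zn : Set σ.ε) (Λ : Set W) (N : ℕ) (pa : ℕ → Prop) where
  μ : Type
  Pub : Set W
  G : SimpleGraph (W × ZMod 2)
  D : Set (W × ZMod 2)
  L : Set (W × ZMod 2)
  R : Set (W × ZMod 2)
  e : ℕ
  n : ℕ → ℕ
  y : ℕ → ℕ → W × ZMod 2
  A : ℕ → Set (W × ZMod 2)
  B : ℕ → Set (W × ZMod 2)
  c : ℕ → ℕ → ℕ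
  un : σ.ε → μ
  Rt : μ → Set (W × ZMod 2)

/-- every cut through the piece has as many inner vertices as it separates roots -/
def Cp (X : Pc) (R Λ : Set W) : Prop :=
  ∀ A B : Set W, VV X ∩ Od ⊆ A ∪ B → (∀ v ∈ Od, ∀ w ∈ Od, (gr X).Adj v w → v ∉ B → w ∈ A) →
    (R \ A).ncard ≤ ((A ∩ B ∩ (VV X ∩ Od)) \ (R ∪ Λ)).ncard ∨
      (R \ B).ncard ≤ ((A ∩ B ∩ (VV X ∩ Od)) \ (R ∪ Λ)).ncard

namespace Dt

variable {σ : AG} {Zn : Set σ.ε} {Λ : Set W} {N : ℕ} {pa : ℕ → Prop} (t : Dt σ Zn Λ N pa)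

/-- atoms, real roots and level of a unit; bags; entries of the lanes -/
def At (u : t.μ) : Set σ.ε := {a | a ∈ Zn ∧ t.un a = u}
def Rr (u : t.μ) : Set W := Prod.fst '' t.Rt u
noncomputable def lv (u : t.μ) : ℕ := sInf {k | (k < N ∧ t.Rt u ⊆ t.A k) ∨ k = N}
def bg (k : ℕ) : Set σ.ε := {a | a ∈ Zn ∧ t.lv (t.un a) = k + 1}
def en (k l : ℕ) : W := (t.y l (t.c k l)).1

structure Ok : Prop where
  lns : Lns t.G t.D t.L t.R t.e t.n t.y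
  chn : Chn t.G t.D t.L t.R t.e t.n t.y N t.A t.B t.c
  pos : 0 < t.e
  dm : ∀ u ∈ t.D, u.1 ∈ Od ∧ (u.1 ∉ Λ → u.2 = 0) ∧ (u.1 ∈ Λ ↔ u ∈ t.L ∪ t.R)
  cl : ∀ a ∈ Zn, t.Rt (t.un a) ⊆ t.D ∧ (t.Rt (t.un a)).Pairwise t.G.Adj
  rt : ∀ a ∈ Zn, t.Rr (t.un a) ⊆ σ.vs (t.At (t.un a))
  pub : ∀ a ∈ Zn, ∀ v ∈ σ.inc a, v ∉ Λ →
    (v ∈ t.Pub ∨ ∃ a' ∈ Zn, t.un a' ≠ t.un a ∧ v ∈ σ.inc a') → (v, 0) ∈ t.Rt (t.un a)
  ln : ∀ l < t.e, ∀ i ≤ t.n l, (t.y l i).1 ∈ t.Pub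
  edge : ∀ l, 0 < l → l < t.e → ∀ i ≤ t.n l, (t.y l i).1 ∉ Λ → ∀ q ∈ t.D, t.G.Adj (t.y l i) q →
    ∃ a ∈ Zn, t.y l i ∈ t.Rt (t.un a) ∧ q ∈ t.Rt (t.un a)
  cut : ∀ a ∈ Zn, Cp (σ.un (t.At (t.un a))) (t.Rr (t.un a)) Λ
  ix : (∀ k < N, 0 < t.c k 0 ∧ t.c k 0 < t.n 0) ∧ ∀ k, k + 1 < N → t.c k 0 < t.c (k + 1) 0
  path : ∀ k, k + 1 < N → pa k → ∀ i, t.c k 0 ≤ i → i < t.c (k + 1) 0 → ∃ a ∈ Zn,
    t.y 0 i ∈ t.Rt (t.un a) ∧ t.y 0 (i + 1) ∈ t.Rt (t.un a) ∧ (t.Rr (t.un a)).ncard ≤ 3 ∧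
    Link (gr (σ.un (t.At (t.un a))))
      ((Od \ Λ) \ (t.Rr (t.un a) \ {(t.y 0 i).1, (t.y 0 (i + 1)).1})) (t.y 0 i).1 (t.y 0 (i + 1)).1

variable {t} {k k' l l' i j : ℕ} {a : σ.ε} {u : W × ZMod 2} {v : W}

theorem Ok.eq0 (h : t.Ok) (hu : u ∈ t.D) (c : u.1 ∉ Λ) : (u.1, 0) = u :=
  Prod.ext rfl ((h.dm u hu).2.1 c).symm

theorem Ok.lam (h : t.Ok) (hl : l < t.e) (hi : i ≤ t.n l) :
    (t.y l i).1 ∈ Λ ↔ i = 0 ∨ i = t.n l := by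
  rw [(h.dm _ (h.lns.mem l hl i hi)).2.2, mem_union, h.lns.left l hl i hi, h.lns.right l hl i hi]

theorem Ok.inj (h : t.Ok) (hl : l < t.e) (hl' : l' < t.e) (hi : i ≤ t.n l) (hj : j ≤ t.n l')
    (c : (t.y l i).1 ∉ Λ) (q : (t.y l i).1 = (t.y l' j).1) : l = l' ∧ i = j := by
  refine h.lns.inj l hl l' hl' i hi j hj ?_
  rw [← h.eq0 (h.lns.mem l hl i hi) c, ← h.eq0 (h.lns.mem l' hl' j hj) (q ▸ c), q]

theorem Ok.mono (h : t.Ok) (hk : k ≤ k') (hk' : k' < N) (hl : l < t.e) : t.c k l ≤ t.c k' l :=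
  have a := h.chn.le k (by omega) l hl
  (h.chn.pos k' hk' l hl _ a).1.1 ((h.chn.mono k k' hk hk').1
    ((h.chn.pos k (by omega) l hl _ a).1.2 le_rfl))

theorem Ok.side (h : t.Ok) (ha : a ∈ Zn) (hk : k < N) (c : ¬ t.Rt (t.un a) ⊆ t.A k) :
    t.Rt (t.un a) ⊆ t.B k := by
  obtain ⟨w, hw, c⟩ := not_subset.1 c
  obtain ⟨c1, c2⟩ := h.cl a ha
  intro u hu
  by_contra d
  by_cases q : u = w
  · exact (h.chn.cov k hk (c1 hu)).elim (q ▸ c) d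
  · exact h.chn.sep k hk u (c1 hu) w (c1 hw) d c (c2 hu hw q)

theorem lv_le (w : t.μ) : t.lv w ≤ N := Nat.sInf_le (Or.inr rfl)

theorem lv_A {w : t.μ} (c : t.lv w < N) : t.Rt w ⊆ t.A (t.lv w) :=
  ((Nat.sInf_mem (s := {k | (k < N ∧ t.Rt w ⊆ t.A k) ∨ k = N}) ⟨N, Or.inr rfl⟩).resolve_right
    c.ne).2

theorem Ok.lv_B (h : t.Ok) (ha : a ∈ Zn) (c : k < t.lv (t.un a)) : t.Rt (t.un a) ⊆ t.B k :=
  have hk := c.trans_le (lv_le _)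
  h.side ha hk fun d => Nat.notMem_of_lt_sInf c (Or.inl ⟨hk, d⟩)

theorem Ok.lv_eq (h : t.Ok) (ha : a ∈ Zn) (hk : k + 1 < N) (hl : l < t.e) (h1 : i < t.c (k + 1) l)
    (h2 : t.c k l < j) (hj : j ≤ t.n l) (m1 : t.y l i ∈ t.Rt (t.un a))
    (m2 : t.y l j ∈ t.Rt (t.un a)) : t.lv (t.un a) = k + 1 := by
  have a1 := h.chn.le _ hk l hl
  refine le_antisymm (Nat.sInf_le (Or.inl ⟨hk, by_contra fun c => ?_⟩)) (not_lt.1 fun c => ?_)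
  · have := (h.chn.pos _ hk l hl i (by omega)).2.1 (h.side ha hk c m1)
    omega
  · have := (h.chn.pos k (by omega) l hl j hj).1.1
      ((h.chn.mono _ k (by omega) (by omega)).1 (lv_A (by omega) m2))
    omega

theorem Ok.rr (h : t.Ok) {w : t.μ} (hv : v ∈ σ.vs (t.At w)) (c : v ∉ Λ)
    (p : v ∈ t.Pub ∨ ∃ a' ∈ Zn, t.un a' ≠ w ∧ v ∈ σ.inc a') : v ∈ t.Rr w := by
  obtain ⟨a, ⟨ha, rfl⟩, k⟩ := mem_iUnion₂.1 hv
  exact ⟨_, h.pub a ha v k c p, rfl⟩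

/-- the path of nodes in one bag -/
theorem Ok.node (h : t.Ok) (hk : k + 1 < N) : ∃ (Wc : Set t.μ) (P : Set W),
    (pa k → σ.Lane (t.bg k) Λ P (t.en k 0) (t.en (k + 1) 0)) ∧
    (∀ w ∈ Wc, ∀ l, 0 < l → l < t.e → ∀ i ≤ t.n l, ∀ j ≤ t.n l, (t.y l i).1 ∉ Λ →
      (t.y l j).1 ∉ Λ → t.y l i ∈ t.Rt w → t.y l j ∈ t.Rt w → i = j) ∧
    ∀ v ∈ P, v ∉ Λ ∧ ((∃ i ≤ t.n 0, v = (t.y 0 i).1) ∨
      (v ∉ t.Pub ∧ ∀ a ∈ Zn, t.un a ∉ Wc → v ∉ σ.inc a)) := by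
  by_cases p : pa k
  swap
  · exact ⟨∅, ∅, fun c => (p c).elim, fun _ c => c.elim, fun _ c => c.elim⟩
  obtain ⟨x1, -⟩ := h.ix.1 k (by omega)
  obtain ⟨-, x2⟩ := h.ix.1 _ hk
  have x3 := h.ix.2 k hk
  have : Nonempty σ.ε := ⟨(h.path k hk p _ le_rfl x3).choose⟩
  choose! a ha m1 m2 c3 lk using h.path k hk p
  have off : ∀ i, t.c k 0 ≤ i → i ≤ t.c (k + 1) 0 → (t.y 0 i).1 ∉ Λ := fun i i1 i2 c => by
    have := (h.lam h.pos (by omega)).1 c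
    omega
  obtain ⟨S, hS⟩ : ∃ S : ℕ → Set W, ∀ i, S i = fb.cp (gr (σ.un (t.At (t.un (a i)))))
      ((Od \ Λ) \ (t.Rr (t.un (a i)) \ {(t.y 0 i).1, (t.y 0 (i + 1)).1}) ∩
        VV (σ.un (t.At (t.un (a i))))) (t.y 0 i).1 := ⟨_, fun _ => rfl⟩
  have key : ∀ i, t.c k 0 ≤ i → i < t.c (k + 1) 0 → Conn (gr (σ.un (t.bg k))) (S i) ∧
      (t.y 0 i).1 ∈ S i ∧ (t.y 0 (i + 1)).1 ∈ S i ∧ t.At (t.un (a i)) ⊆ t.bg k ∧ ∀ v ∈ S i,
        v ∈ σ.vs (t.At (t.un (a i))) ∧ v ∉ Λ ∧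
          v ∉ t.Rr (t.un (a i)) \ {(t.y 0 i).1, (t.y 0 (i + 1)).1} := by
    intro i i1 i2
    have b1 : t.At (t.un (a i)) ⊆ t.bg k := fun b hb => ⟨hb.1, hb.2 ▸
      h.lv_eq (ha i i1 i2) hk h.pos i2 (j := i + 1) (by omega) (by omega) (m1 i i1 i2) (m2 i i1 i2)⟩
    have b2 := h.rt _ (ha i i1 i2) ⟨_, m1 i i1 i2, rfl⟩
    have b3 : (t.y 0 i).1 ∈ (Od \ Λ) \ (t.Rr (t.un (a i)) \ {(t.y 0 i).1, (t.y 0 (i + 1)).1}) ∩
        VV (σ.un (t.At (t.un (a i)))) :=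
      ⟨⟨⟨σ.vs_od _ b2, off i i1 i2.le⟩, fun c => c.2 (Or.inl rfl)⟩, σ.vs_VV _ b2⟩
    have b4 := link_VV (lk i i1 i2)
    rw [hS]
    exact ⟨pl.conn_mono (fb.cp_conn b3) (gr_mono (σ.un_mono b1)), fb.cp_self b3,
      ⟨b4.mem b3, b4⟩, b1, fun v hv => ⟨σ.vs_un _ ▸ ⟨hv.1.2, hv.1.1.1.1⟩, hv.1.1.1.2, hv.1.1.2⟩⟩
  refine ⟨{w | ∃ i, t.c k 0 ≤ i ∧ i < t.c (k + 1) 0 ∧ w = t.un (a i)},
    ⋃ i ∈ Icc (t.c k 0) (t.c (k + 1) 0 - 1), S i, fun _ => ⟨fb.conn_chain (by omega)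
      (fun i hi => (key i hi.1 (by have := hi.2; omega)).1) fun i i1 i2 => Or.inl
        ⟨_, (key i i1 (by omega)).2.2.1, (key (i + 1) (by omega) (by omega)).2.1⟩,
      mem_biUnion ⟨le_rfl, by omega⟩ (key _ le_rfl x3).2.1, ?_, iUnion₂_subset fun i hi v hv => ?_⟩,
    ?_, fun v hv => ?_⟩
  · have := (key (t.c (k + 1) 0 - 1) (by omega) (by omega)).2.2.1
    rw [Nat.sub_add_cancel (by omega)] at this
    exact mem_biUnion ⟨by omega, le_rfl⟩ this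
  · obtain ⟨-, -, -, b1, b2⟩ := key i hi.1 (by have := hi.2; omega)
    exact ⟨Or.inl (σ.vs_mono b1 (b2 v hv).1), (b2 v hv).2.1⟩
  · rintro _ ⟨m, i1, i2, rfl⟩ l l0 hl i hi j hj o1 o2 r1 r2
    have fin := (σ.vs_fin _).subset (h.rt _ (ha m i1 i2))
    have s1 : {(t.y 0 m).1, (t.y 0 (m + 1)).1} ⊆ t.Rr (t.un (a m)) :=
      pair_subset ⟨_, m1 m i1 i2, rfl⟩ ⟨_, m2 m i1 i2, rfl⟩
    have s2 := ncard_sdiff_add_ncard_of_subset s1 fin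
    rw [ncard_pair fun c => by
      have := (h.inj h.pos h.pos (by omega) (by omega) (off m i1 i2.le) c).2; omega] at s2
    have s3 := c3 m i1 i2
    have nm : ∀ i ≤ t.n l, (t.y l i).1 ∉ Λ → (t.y l i).1 ∉ ({(t.y 0 m).1, (t.y 0 (m + 1)).1} : Set W) :=
      fun i hi o c => c.elim (fun c => l0.ne' (h.inj hl h.pos hi (by omega) o c).1)
        fun c => l0.ne' (h.inj hl h.pos hi (by omega) o c).1
    exact (h.inj hl hl hi hj o1 ((ncard_le_one fin.sdiff).1 (by omega) _ ⟨⟨_, r1, rfl⟩, nm i hi o1⟩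
      _ ⟨⟨_, r2, rfl⟩, nm j hj o2⟩)).2
  · obtain ⟨i, ⟨i1, i2⟩, hv⟩ := mem_iUnion₂.1 hv
    obtain ⟨b1, b2, b3⟩ := (key i i1 (by omega)).2.2.2.2 v hv
    refine ⟨b2, ?_⟩
    by_cases c : v ∈ t.Rr (t.un (a i))
    · rcases not_not.1 fun d => b3 ⟨c, d⟩ with d | d
      exacts [Or.inl ⟨i, by omega, d⟩, Or.inl ⟨i + 1, by omega, d⟩]
    · exact Or.inr ⟨fun d => c (h.rr b1 b2 (Or.inl d)), fun b hb n d =>
        c (h.rr b1 b2 (Or.inr ⟨b, hb, fun q => n ⟨i, i1, by omega, q⟩, d⟩))⟩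

/-- the piece of a unit on its ordinary vertices -/
def Xg (w : t.μ) : SimpleGraph W where
  Adj v v' := v ∈ Od ∧ v' ∈ Od ∧ (gr (σ.un (t.At w))).Adj v v'
  symm := ⟨fun _ _ h => ⟨h.2.1, h.1, h.2.2.symm⟩⟩
  loopless := ⟨fun _ h => h.2.2.ne rfl⟩

/-- the lanes of one bag -/
theorem Ok.step (h : t.Ok) (hk : k + 1 < N) : ∃ (τ : ℕ → ℕ) (P : ℕ → Set W),
    (BijOn τ (Iio (t.e - 1)) (Iio (t.e - 1)) ∧ ∀ l < t.e - 1, (t.en k (l + 1) ∈ Λ ∨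
      t.en (k + 1) (l + 1) ∈ Λ ∨ t.en k (l + 1) = t.en (k + 1) (l + 1) → τ l = l)) ∧
    (∀ l < t.e - 1, t.en k (l + 1) ∉ Λ → t.en (k + 1) (τ l + 1) ∉ Λ →
      σ.Lane (t.bg k) Λ (P l) (t.en k (l + 1)) (t.en (k + 1) (τ l + 1)) ∧ t.en k 0 ∉ P l ∧
        t.en (k + 1) 0 ∉ P l) ∧
    (pa k → σ.Lane (t.bg k) Λ (P (t.e - 1)) (t.en k 0) (t.en (k + 1) 0)) ∧
    (∀ l ≤ t.e - 1, ∀ l' ≤ t.e - 1, l ≠ l' → Disjoint (P l) (P l')) ∧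
    ∀ l ≤ t.e - 1, ∀ l' < t.e - 1, l ≠ l' →
      t.en k (l' + 1) ∉ P l ∧ t.en (k + 1) (τ l' + 1) ∉ P l := by
  classical
  obtain ⟨Wc, P0, n1, n2, n3⟩ := h.node hk
  have hk' : k < N := by omega
  obtain ⟨ac, hac⟩ : ∃ ac : ℕ → Prop, ∀ l, ac l ↔
    l < t.e - 1 ∧ t.en k (l + 1) ∉ Λ ∧ t.en (k + 1) (l + 1) ∉ Λ := ⟨_, fun _ => Iff.rfl⟩
  obtain ⟨Δ, hΔ⟩ : ∃ Δ : Set W, ∀ v, v ∈ Δ ↔ v ∈ Λ ∨ (∃ i ≤ t.n 0, v = (t.y 0 i).1) ∨
    ∃ l < t.e - 1, ¬ ac l ∧ (v = t.en k (l + 1) ∨ v = t.en (k + 1) (l + 1)) :=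
    ⟨Set.ofPred _, fun _ => Iff.rfl⟩
  have ent : ∀ k < N, ∀ l < t.e, t.en k l ∈ t.Pub := fun k hk l hl =>
    h.ln l hl _ (h.chn.le k hk l hl)
  have dp : ∀ v ∈ Δ, v ∉ Λ → v ∈ t.Pub := fun v hv c => by
    rcases (hΔ v).1 hv with d | ⟨i, hi, rfl⟩ | ⟨l, hl, -, rfl | rfl⟩
    exacts [(c d).elim, h.ln 0 h.pos i hi, ent k hk' _ (by omega), ent _ hk _ (by omega)]
  have seg : ∀ l, ac l → l + 1 < t.e ∧ t.c k (l + 1) ≤ t.c (k + 1) (l + 1) ∧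
      ∀ i ∈ Icc (t.c k (l + 1)) (t.c (k + 1) (l + 1)), i ≤ t.n (l + 1) ∧ (t.y (l + 1) i).1 ∉ Λ ∧
        ((t.y (l + 1) i).1, 0) = t.y (l + 1) i := fun l c => by
    obtain ⟨c1, c2, c3⟩ := (hac l).1 c
    have hl : l + 1 < t.e := by omega
    have a1 := h.chn.le _ hk' _ hl
    have a2 := h.chn.le _ hk _ hl
    have a3 := h.mono (Nat.le_succ k) hk hl
    rw [en, h.lam hl a1] at c2
    rw [en, h.lam hl a2] at c3
    refine ⟨hl, a3, fun i ⟨i1, i2⟩ => ?_⟩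
    have o : (t.y (l + 1) i).1 ∉ Λ := by rw [h.lam hl (by omega)]; omega
    exact ⟨by omega, o, h.eq0 (h.lns.mem _ hl _ (by omega)) o⟩
  have f1 : Finite {w : t.μ // (∃ a ∈ Zn, t.un a = w) ∧ t.lv w = k + 1 ∧ w ∉ Wc} :=
    (((toFinite Zn).image t.un).subset fun w (c : (∃ a ∈ Zn, t.un a = w) ∧ t.lv w = k + 1 ∧ w ∉ Wc) =>
      c.1).to_subtype
  have f2 : Finite {l // ac l} :=
    ((finite_Iio (t.e - 1)).subset fun l (c : ac l) => ((hac l).1 c).1).to_subtype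
  obtain ⟨θ, P, p1, p2⟩ := linkHS W {w : t.μ // (∃ a ∈ Zn, t.un a = w) ∧ t.lv w = k + 1 ∧ w ∉ Wc}
    {l // ac l} (fun w => Xg w.1) (fun w => σ.vs (t.At w.1)) (fun w => t.Rr w.1) Δ
    (t.G.comap fun v => (v, 0)) (fun b => t.en k (b.1 + 1)) (fun b => t.en (k + 1) (b.1 + 1))
    (fun b => (fun i => (t.y (b.1 + 1) i).1) '' Icc (t.c k (b.1 + 1)) (t.c (k + 1) (b.1 + 1)))
    (by rintro ⟨_, ⟨a, ha, rfl⟩, -⟩; exact ⟨σ.vs_fin _, h.rt a ha⟩)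
    (fun w v v' c => σ.vs_un _ ▸ ⟨gr_mem c.2.2, c.1⟩)
    (fun w w' c v hv => by
      obtain ⟨a, ha, m⟩ := mem_iUnion₂.1 hv.2
      exact or_iff_not_imp_right.2 fun d => h.rr hv.1 (fun o => d ((hΔ v).2 (Or.inl o)))
        (Or.inr ⟨a, ha.1, fun q => c (Subtype.ext (q.symm.trans ha.2)), m⟩))
    (fun w b => ⟨fun c => h.rr c ((hac _).1 b.2).2.1 (Or.inl (ent k hk' _ (seg _ b.2).1)),
      fun c => h.rr c ((hac _).1 b.2).2.2 (Or.inl (ent _ hk _ (seg _ b.2).1))⟩)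
    (by
      rintro ⟨_, ⟨a, ha, rfl⟩, c0⟩ A B c1 - c2
      have := h.cut a ha A B (σ.vs_un _ ▸ c1) fun v hv w hw q => c2 v w ⟨hv, hw, q⟩
      rw [σ.vs_un] at this
      rwa [show (A ∩ B ∩ σ.vs (t.At (t.un a))) \ (t.Rr (t.un a) ∪ Δ) =
        (A ∩ B ∩ σ.vs (t.At (t.un a))) \ (t.Rr (t.un a) ∪ Λ) from Set.ext fun v =>
          and_congr_right fun hv => not_congr ⟨fun c => or_iff_not_imp_right.2 fun o =>
            c.elim id fun d => h.rr hv.2 o (Or.inl (dp v d o)),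
            Or.imp_right fun o => (hΔ v).2 (Or.inl o)⟩])
    (fun b => by
      obtain ⟨s1, s2, s3⟩ := seg _ b.2
      refine ⟨fb.conn_seg s2 fun i i1 i2 => ?_, ⟨_, ⟨le_rfl, s2⟩, rfl⟩, ⟨_, ⟨s2, le_rfl⟩, rfl⟩,
        disjoint_left.2 ?_, ?_⟩
      · show t.G.Adj ((t.y (b.1 + 1) i).1, 0) ((t.y (b.1 + 1) (i + 1)).1, 0)
        rw [(s3 i ⟨i1, i2.le⟩).2.2, (s3 _ ⟨i1.trans (Nat.le_succ i), i2⟩).2.2]
        exact h.lns.adj _ s1 i (s3 _ ⟨i1.trans (Nat.le_succ i), i2⟩).1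
      · rintro _ ⟨i, hi, rfl⟩ c
        obtain ⟨a1, a2, -⟩ := s3 i hi
        rcases (hΔ _).1 c with d | ⟨j, hj, d⟩ | ⟨l, hl, o, d | d⟩
        · exact a2 d
        · exact absurd (h.inj s1 h.pos a1 hj a2 d).1 (by omega)
        · exact o (Nat.succ_injective (h.inj s1 (by omega) a1
            (h.chn.le k hk' _ (by omega)) a2 d).1 ▸ b.2)
        · exact o (Nat.succ_injective (h.inj s1 (by omega) a1
            (h.chn.le _ hk _ (by omega)) a2 d).1 ▸ b.2)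
      · rintro _ ⟨i, hi, rfl⟩ _ ⟨j, hj, rfl⟩ c
        obtain ⟨a1, a2, a3⟩ := s3 i hi
        obtain ⟨b1, b2, b3⟩ := s3 j hj
        replace c : t.G.Adj ((t.y (b.1 + 1) i).1, 0) ((t.y (b.1 + 1) j).1, 0) := c
        rw [a3, b3] at c
        obtain ⟨a, ha, m1, m2⟩ := h.edge _ (Nat.succ_pos _) s1 i a1 a2 _ (h.lns.mem _ s1 j b1) c
        have ne : i ≠ j := fun q => c.ne (q ▸ rfl)
        refine ⟨⟨t.un a, ⟨a, ha, rfl⟩, ?_, fun o => ne (n2 _ o _ (Nat.succ_pos _) s1 i a1 j b1 a2 b2 m1 m2)⟩,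
          ⟨_, m1, rfl⟩, _, m2, rfl⟩
        obtain ⟨i1, i2⟩ := hi
        obtain ⟨j1, j2⟩ := hj
        rcases lt_or_gt_of_ne ne with q | q
        exacts [h.lv_eq ha hk s1 (by omega) (by omega) b1 m1 m2,
          h.lv_eq ha hk s1 (by omega) (by omega) a1 m2 m1])
    (fun b b' c => disjoint_left.2 (by
      rintro _ ⟨i, hi, rfl⟩ ⟨j, hj, q⟩
      obtain ⟨s1, -, s3⟩ := seg _ b.2
      obtain ⟨s2, -, s4⟩ := seg _ b'.2
      exact c (Subtype.ext (Nat.succ_injective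
        (h.inj s1 s2 (s3 i hi).1 (s4 j hj).1 (s3 i hi).2.1 q.symm).1))))
  have t1 : ∀ b : {l // ac l}, Equiv.Perm.ofSubtype θ b.1 = (θ b).1 := fun b =>
    Equiv.Perm.ofSubtype_apply_of_mem θ b.2
  have t2 : ∀ l, ¬ ac l → Equiv.Perm.ofSubtype θ l = l := fun l c =>
    Equiv.Perm.ofSubtype_apply_of_not_mem θ c
  have o0 : ∀ v ∈ P0, ∀ k < N, ∀ l, l + 1 < t.e → v ≠ t.en k (l + 1) := fun v hv k hk l hl q => by
    obtain ⟨o, ⟨i, hi, d⟩ | ⟨d, -⟩⟩ := n3 v hv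
    · exact absurd (h.inj h.pos hl hi (h.chn.le k hk _ hl) (d ▸ o) (d.symm.trans q)).1 (by omega)
    · exact d (q ▸ ent k hk _ hl)
  have o1 : ∀ b, Disjoint (P b) P0 := fun b => disjoint_left.2 fun v hv c => by
    obtain ⟨m, o⟩ := (p2 b).2.2.2 hv
    obtain ⟨-, d | ⟨-, d⟩⟩ := n3 v c
    · exact o ((hΔ v).2 (Or.inr (Or.inl d)))
    · rcases m with m | m
      · obtain ⟨w, m⟩ := mem_iUnion.1 m
        obtain ⟨a, ha, m⟩ := mem_iUnion₂.1 m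
        exact d a ha.1 (ha.2 ▸ w.2.2.2) m
      · exact o0 v c k hk' _ (seg _ b.2).1 m
  have lt : ∀ l < t.e - 1, Equiv.Perm.ofSubtype θ l < t.e - 1 := fun l hl => by
    by_cases c : ac l
    · exact t1 ⟨l, c⟩ ▸ ((hac _).1 (θ ⟨l, c⟩).2).1
    · rwa [t2 l c]
  refine ⟨Equiv.Perm.ofSubtype θ, fun l => {v | (∃ c : ac l, v ∈ P ⟨l, c⟩) ∨ (l = t.e - 1 ∧ v ∈ P0)},
    ⟨((finite_Iio _).injOn_iff_bijOn_of_mapsTo lt).1 (Equiv.injective _).injOn, fun l hl q => ?_⟩,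
    fun l hl c1 c2 => ?_, fun p => ?_, fun l hl l' hl' ne => disjoint_left.2 ?_,
    fun l hl l' hl' ne => ?_⟩
  · by_cases c : ac l
    · obtain ⟨b, hb⟩ := θ.surjective ⟨l, c⟩
      have q := (q.resolve_left ((hac l).1 c).2.1).resolve_left ((hac l).1 c).2.2
      have m := (p2 b).2.2.1
      rw [hb] at m
      obtain rfl : b = ⟨l, c⟩ := by_contra fun ne =>
        disjoint_left.1 (p1 ne) m (q ▸ (p2 ⟨l, c⟩).2.1)
      exact (t1 ⟨l, c⟩).trans (congrArg Subtype.val hb)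
    · exact t2 l c
  · have c : ac l := by_contra fun c => c ((hac l).2 ⟨hl, c1, t2 l c ▸ c2⟩)
    obtain ⟨a1, a2, a3, a4⟩ := p2 ⟨l, c⟩
    beta_reduce
    rw [show {v | (∃ c : ac l, v ∈ P ⟨l, c⟩) ∨ (l = t.e - 1 ∧ v ∈ P0)} = P ⟨l, c⟩ from Set.ext fun v =>
      ⟨fun m => m.elim (fun m => m.2) fun m => (hl.ne m.1).elim, fun m => Or.inl ⟨c, m⟩⟩,
      t1 ⟨l, c⟩]
    have sb : ∀ w : {w : t.μ // (∃ a ∈ Zn, t.un a = w) ∧ t.lv w = k + 1 ∧ w ∉ Wc},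
      t.At w.1 ⊆ t.bg k := fun w a ha => ⟨ha.1, ha.2 ▸ w.2.2.1⟩
    refine ⟨⟨pl.conn_mono a1 (iSup_le fun w v v' q => gr_mono (σ.un_mono (sb w)) q.2.2), a2, a3,
      fun v hv => ⟨(a4 hv).1.imp_left fun m => ?_, fun o => (a4 hv).2 ((hΔ v).2 (Or.inl o))⟩⟩,
      fun m => (a4 m).2 ((hΔ _).2 (Or.inr (Or.inl ⟨_, h.chn.le k hk' 0 h.pos, rfl⟩))),
      fun m => (a4 m).2 ((hΔ _).2 (Or.inr (Or.inl ⟨_, h.chn.le _ hk 0 h.pos, rfl⟩)))⟩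
    obtain ⟨w, m⟩ := mem_iUnion.1 m
    exact σ.vs_mono (sb w) m
  · beta_reduce
    rw [show {v | (∃ c : ac (t.e - 1), v ∈ P ⟨_, c⟩) ∨ (t.e - 1 = t.e - 1 ∧ v ∈ P0)} = P0 from
      Set.ext fun v => ⟨fun m => m.elim (fun m => (((hac _).1 m.1).1.false).elim) fun m => m.2,
        fun m => Or.inr ⟨rfl, m⟩⟩]
    exact n1 p
  · rintro v (⟨c, m⟩ | ⟨c, m⟩) (⟨c', m'⟩ | ⟨c', m'⟩)
    exacts [disjoint_left.1 (p1 fun q => ne (congrArg Subtype.val q)) m m',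
      disjoint_left.1 (o1 _) m m', disjoint_left.1 (o1 _) m' m, ne (c.trans c'.symm)]
  · have := lt l' hl'
    refine ⟨fun m => m.elim (fun ⟨c, m⟩ => ?_) fun m => o0 _ m.2 k hk' l' (by omega) rfl,
      fun m => m.elim (fun ⟨c, m⟩ => ?_) fun m => o0 _ m.2 _ hk _ (by omega) rfl⟩
    · by_cases c' : ac l'
      · exact disjoint_left.1 (p1 fun q => ne (congrArg Subtype.val q)) m (p2 ⟨l', c'⟩).2.1
      · exact ((p2 _).2.2.2 m).2 ((hΔ _).2 (Or.inr (Or.inr ⟨l', hl', c', Or.inl rfl⟩)))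
    · by_cases c' : ac l'
      · rw [t1 ⟨l', c'⟩] at m
        exact disjoint_left.1 (p1 fun q => ne (congrArg Subtype.val q)) m (p2 ⟨l', c'⟩).2.2.1
      · rw [t2 l' c'] at m
        exact ((p2 _).2.2.2 m).2 ((hΔ _).2 (Or.inr (Or.inr ⟨l', hl', c', Or.inr rfl⟩)))

theorem cnt {T : Set ℕ} {m : ℕ} (Φ : ℕ → ℕ → Prop) (h1 : ∀ k ∈ T, ∃ j < m, Φ j k)
    (h2 : ∀ j k k', k < k' → Φ j k → ¬ Φ j k') : T.ncard ≤ m := by
  choose! f f1 f2 using h1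
  refine (ncard_le_ncard_of_injOn f f1 (fun k hk k' hk' q => ?_) (finite_Iio m)).trans
    (by rw [← Finset.coe_range, ncard_coe_finset, Finset.card_range])
  rcases lt_trichotomy k k' with c | c | c
  exacts [(h2 _ _ _ c (f2 k hk) (q ▸ f2 k' hk')).elim, c, (h2 _ _ _ c (f2 k' hk') (q ▸ f2 k hk)).elim]

/-- the bags -/
theorem Ok.out {r : Rw σ} {x : MV} {d : Zd r.s}
    {t : Dt σ (r.Zn x d.Z) Λ d.N fun k => d.lk k ∉ r.s.Kx d.Z} (h : t.Ok)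
    (gs : nodeOf '' d.Γ ⊆ σ.sh) (ps : t.Pub ⊆ σ.sh) (hu : ∀ k < d.N, d.u k = t.en k 0)
    (ex : ∀ l, 0 < l → l < t.e → ∀ i ≤ t.n l, (t.y l i).1 ∉ Λ → Sum.inl (t.y l i).1 ∉ r.s.Ex d.Z) :
    ∃ b : Zb σ, b.d ≤ t.e ∧ r.Zr' x d b Λ fun k => {a | a ∈ r.Zn x d.Z ∧ b.lev a = k + 1} := by
  classical
  choose! τ P s1 s2 s3 s4 s5 using fun k (hk : k + 1 < d.N) => h.step hk
  have le := h.chn.le
  obtain ⟨π, q1, q2, q3, q4⟩ := permS W (t.e - 1) d.N (fun k l => t.en k (l + 1)) Λ τ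
    (fun k hk k' hk' l hl l' hl' c q => Nat.succ_injective (h.inj (by omega) (by omega)
      (le k hk _ (by omega)) (le k' hk' _ (by omega)) c q).1)
    (fun l hl i k i' i1 i2 i3 c q => by
      have a1 := (h.inj (by omega) (by omega) (le i (by omega) _ (by omega))
        (le i' i3 _ (by omega)) c q).2
      have a2 := h.mono i1 (by omega) (show l + 1 < t.e by omega)
      have a3 := h.mono i2 i3 (show l + 1 < t.e by omega)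
      simp only [en]
      rw [show t.c k (l + 1) = t.c i (l + 1) by omega]) s1
  have lt : ∀ k < d.N, ∀ l < t.e - 1, π k l < t.e - 1 := fun k hk l hl => (q1 k hk).1 hl
  obtain ⟨b, b1, b2, b3, b4⟩ : ∃ b : Zb σ, b.d = t.e - 1 ∧ (∀ k l, b.β k l = t.en k (π k l + 1)) ∧
      (∀ k l, b.L k l = P k (if l < t.e - 1 then π k l else t.e - 1)) ∧
      ∀ a, b.lev a = t.lv (t.un a) :=
    ⟨⟨_, _, _, _⟩, rfl, fun _ _ => rfl, fun _ _ => rfl, fun _ => rfl⟩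
  have mk : ∀ k < d.N, ∀ v, v ∈ d.κ b k ↔ ∃ l < t.e, v = t.en k l := fun k hk v => by
    constructor
    · rintro (c | ⟨l, hl, rfl⟩)
      exacts [⟨0, h.pos, hu k hk ▸ c⟩, ⟨_, by have := lt k hk l (b1 ▸ hl); omega, b2 k l⟩]
    · rintro ⟨_ | l, hl, rfl⟩
      · exact Or.inl (hu k hk).symm
      · obtain ⟨j, hj, rfl⟩ := (q1 k hk).2.2 (show l < t.e - 1 by omega)
        exact Or.inr ⟨j, b1 ▸ hj, b2 k j⟩
  have ct : ∀ k < d.N, ∀ a ∈ r.Zn x d.Z, ∀ v, (v, 0) ∈ t.Rt (t.un a) → (v, 0) ∈ t.A k →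
      (v, 0) ∈ t.B k → v ∈ d.κ b k := fun k hk a ha v m c1 c2 =>
    let ⟨l, hl, q⟩ := h.chn.cut k hk _ ⟨⟨(h.cl a ha).1 m, c1⟩, c2⟩
    (mk k hk v).2 ⟨l, hl, congrArg Prod.fst q⟩
  have ix : ∀ k < d.N, ∀ l ≤ t.e - 1, (if l < t.e - 1 then π k l else t.e - 1) ≤ t.e - 1 ∧
      ∀ l' ≤ t.e - 1, l ≠ l' → (if l < t.e - 1 then π k l else t.e - 1) ≠
        if l' < t.e - 1 then π k l' else t.e - 1 := fun k hk l hl => by
    refine ⟨?_, fun l' hl' ne => ?_⟩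
    · split_ifs with c
      exacts [(lt k hk l c).le, le_rfl]
    · split_ifs with c c' c'
      exacts [fun q => ne ((q1 k hk).2.1 c c' q), (lt k hk l c).ne, (lt k hk l' c').ne', by omega]
  refine ⟨b, by omega, gs, fun k hk l hl => ?_, ?_, ?_, fun k hk v hv => ?_,
    fun a => b4 a ▸ lv_le _, fun a ha v hv k hk m => ?_, fun a ha a' ha' v hv c => ?_,
    fun k hk l hl => ?_, fun k hk p => ?_, fun k hk l hl l' hl' ne => ?_,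
    fun k hk l hl l' hl' ne => ?_, ?_⟩
  · have a1 : π k l + 1 < t.e := by have := lt k hk l (b1 ▸ hl); omega
    have a2 := le k hk _ a1
    rw [b2]
    refine ⟨(h.dm _ (h.lns.mem _ a1 _ a2)).1, fun c => ⟨ex _ (Nat.succ_pos _) a1 _ a2 c, ?_⟩⟩
    have a3 := mt (h.lam a1 a2).2 c
    obtain ⟨a, ha, m, -⟩ := h.edge _ (Nat.succ_pos _) a1 _ a2 c _
      (h.lns.mem _ a1 _ (by omega)) (h.lns.adj _ a1 _ (by omega))
    obtain ⟨a', ha', m⟩ := mem_iUnion₂.1 (h.rt a ha ⟨_, m, rfl⟩)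
    exact ⟨a', ha'.1, m⟩
  · simpa only [b1, b2] using q3
  · simpa only [b1, b2] using q4
  · obtain ⟨l, hl, rfl⟩ := (mk k hk v).1 hv
    exact ps (h.ln l hl _ (le k hk l hl))
  · obtain ⟨l, hl, rfl⟩ := (mk k hk v).1 m
    have a1 := le k hk l hl
    have a2 := h.pub a ha _ hv.1 hv.2 (Or.inl (h.ln l hl _ a1))
    have a3 : (t.en k l, 0) = t.y l (t.c k l) := h.eq0 (h.lns.mem l hl _ a1) hv.2
    have a4 := h.chn.pos k hk l hl _ a1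
    have a5 : t.lv (t.un a) ≤ d.N := lv_le _
    rw [b4]
    refine ⟨fun c => ct _ (by omega) a ha _ a2 ((h.chn.mono k _ (by omega) (by omega)).1
      (a3 ▸ a4.1.2 le_rfl)) (h.lv_B ha (by omega) a2), fun c => ct _ (by omega) a ha _ a2
        (lv_A (by omega) a2) ((h.chn.mono _ k c hk).2 (a3 ▸ a4.2.2 le_rfl))⟩
  · rw [b4, b4] at c
    have ne : t.un a ≠ t.un a' := fun q => c.ne (congrArg _ q)
    have a1 := h.pub a ha _ hv.1.1 hv.2 (Or.inr ⟨a', ha', ne.symm, hv.1.2⟩)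
    have a2 := c.trans_le (lv_le _)
    rw [b4]
    exact ct _ a2 a ha _ a1 (lv_A a2 a1)
      (h.lv_B ha' c (h.pub a' ha' _ hv.1.2 hv.2 (Or.inr ⟨a, ha, ne, hv.1.1⟩)))
  · rw [b1] at hl
    simp only [b2, b3, b4, if_pos hl, q2 k hk l hl, hu k (by omega), hu _ hk]
    exact s2 k hk _ (lt k (by omega) l hl)
  · simp only [b1, b3, b4, if_neg (lt_irrefl _), hu k (by omega), hu _ hk]
    exact s3 k hk p
  · rw [b1] at hl hl'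
    rw [b3, b3]
    exact s4 k hk _ (ix k (by omega) l hl).1 _ (ix k (by omega) l' hl').1
      ((ix k (by omega) l hl).2 l' hl' ne)
  · rw [b1] at hl hl'
    have := (ix k (by omega) l hl).2 l' hl'.le ne
    rw [if_pos hl'] at this
    rw [b2, b2, b3, q2 k hk l' hl']
    exact s5 k hk _ (ix k (by omega) l hl).1 _ (lt k (by omega) l' hl') this
  · refine cnt (fun j k => k + 1 < d.N ∧ j / 2 + 1 < t.e ∧
      ((j % 2 = 0 ∧ t.c k (j / 2 + 1) = 0 ∧ t.c (k + 1) (j / 2 + 1) ≠ 0) ∨ (j % 2 = 1 ∧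
        t.c k (j / 2 + 1) ≠ t.n (j / 2 + 1) ∧ t.c (k + 1) (j / 2 + 1) = t.n (j / 2 + 1)))) ?_ ?_
    · rintro k ⟨hk, l, hl, c⟩
      rw [b1] at hl
      rw [b2, b2, q2 k hk l hl] at c
      have a1 := lt k (by omega) l hl
      obtain ⟨⟨t1, t2, -⟩, t3⟩ := s1 k hk
      have a2 : τ k (π k l) = π k l := by
        by_cases o : t.en k (π k l + 1) ∈ Λ
        · exact t3 _ a1 (Or.inl o)
        · exact t2 (t1 a1) a1 (t3 _ (t1 a1)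
            (Or.inr (Or.inl (by_contra fun o' => c (iff_of_false o o')))))
      have a3 : π k l + 1 < t.e := by omega
      have a4 := le k (by omega) _ a3
      have a5 := le _ hk _ a3
      have a6 := h.mono (Nat.le_add_right k 1) hk a3
      rw [a2, en, en, h.lam a3 a4, h.lam a3 a5] at c
      by_cases o : t.c k (π k l + 1) = 0
      · exact ⟨2 * π k l, by omega, hk, by omega, Or.inl (by
          rw [show 2 * π k l / 2 = π k l by omega]; omega)⟩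
      · exact ⟨2 * π k l + 1, by omega, hk, by omega, Or.inr (by
          rw [show (2 * π k l + 1) / 2 = π k l by omega]; omega)⟩
    · rintro j k k' c ⟨hk, hj, o⟩ ⟨hk', -, o'⟩
      have a1 := h.mono (show k + 1 ≤ k' from c) (by omega) hj
      have a2 := le k' (by omega) _ hj
      omega

end Dt

end HBag

end Pool.Agent.MP_9d78a0_co.gm

end MrgPart6

-- marker of a merged file
example : 731051 + 303773 = 731051 + 303773 := rfl
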