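import Pool.Agent.MP_9d78a0_co.gm.HOp
import Pool.Agent.MP_9d78a0_co.gm.COp

/-! Block H: cycles of two involutions, curves and their two sides. -/

set_option autoImplicit false

namespace Pool.Agent.MP_9d78a0_co.gm

open Set Function Cy

namespace HCur

section cyc

variable {α : Type} {S : Set α} {p q : α → α} {x z g g' : α}

theorem par_symm (op oq : α → ZMod 2) : par p q op oq z = par q p oq op z := by
  unfold par
  congr 1
  exact propext ⟨Ev.symm, Ev.symm⟩

theorem one_ne {y : α} (h : one p x y ≠ 0) : y = x ∨ y = p x := by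
  by_contra c
  exact h (if_neg c)

variable (hS : S.Finite) (hp : Inv S p) (hq : Inv S q)
include hS hp hq

open Classical in
theorem par_snd (hx : x ∈ S) (hz : z ∈ S) :
    par p q 0 (one q x) z = if z ∈ orb p q x then 1 else 0 := by
  rw [par_symm, par_one hS hq hp hx hz, orb_comm]

theorem par_p {op oq : α → ZMod 2} (hz : z ∈ S) (hx : x ∈ S) (h1 : ∀ y ∈ S, op (p y) = op y)
    (h2 : ∀ y ∈ S, oq (q y) = oq y) :
    par p q (op + one p x) oq z = par p q op oq z + par p q (one p x) 0 z := by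
  rw [← par_add hS hp hq hz h1 h2 (fun _ => one_sym hp.inv0 hx) fun _ _ => rfl, add_zero]

theorem par_q {op oq : α → ZMod 2} (hz : z ∈ S) (hx : x ∈ S) (h1 : ∀ y ∈ S, op (p y) = op y)
    (h2 : ∀ y ∈ S, oq (q y) = oq y) :
    par p q op (oq + one q x) z = par p q op oq z + par p q 0 (one q x) z := by
  rw [← par_add hS hp hq hz h1 h2 (fun _ _ => rfl) fun _ => one_sym hq.inv0 hx, add_zero]

theorem ev_pair (hg : g ∈ S) (hg' : g' ∈ orb p q g) (hz : z ∈ S) :
    Ev p q 0 (one q g + one q g') z := by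
  have m := orb_mem hp.inv0 hq.inv0 hg hg'
  rw [← par_eq_zero, par_q hS hp hq hz m (fun _ _ => rfl) fun _ => one_sym hq.inv0 hg,
    par_snd hS hp hq hg hz, par_snd hS hp hq m hz, orb_eq hp.inv0 hq.inv0 hg hg', z2_add_self]

omit hS hp in
/-- the weight of two different steps -/
theorem wt1 (hg : g ∈ S) (hg' : g' ∈ S) (n1 : g' ≠ g) (n2 : g' ≠ q g) {y : α}
    (h : (y = g ∨ y = q g) ∨ y = g' ∨ y = q g') : (one q g + one q g') y = 1 := by
  have e1 := (hq g hg).2.1
  have e2 := (hq g' hg').2.1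
  rw [Pi.add_apply, one, one]
  rcases h with h | h
  · rw [if_pos h, if_neg (by grind), add_zero]
  · rw [if_pos h, if_neg (by grind), zero_add]

omit hS hp hq in
theorem wt0 {y : α} (h1 : ¬(y = g ∨ y = q g)) (h2 : ¬(y = g' ∨ y = q g')) :
    (one q g + one q g') y = 0 := by
  rw [Pi.add_apply, one, one, if_neg h1, if_neg h2, add_zero]

end cyc

end HCur

open HCur

theorem cycS : CycS := by
  classical
  intro α S p q z hS hp hq hz
  have mem : ∀ y ∈ orb p q z, y ∈ S := fun y => orb_mem hp.inv0 hq.inv0 hz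
  have oe : ∀ y ∈ orb p q z, orb p q y = orb p q z := fun y => orb_eq hp.inv0 hq.inv0 hz
  have sy : ∀ y ∈ orb p q z, z ∈ orb p q y := fun y => orb_symm hp.inv0 hq.inv0 hz
  have n1 : ∀ a : ZMod 2, a + 1 ≠ a := by decide
  have n2 : ∀ a b : ZMod 2, a ≠ b → a + 1 = b := by decide
  have ev : ∀ g ∈ orb p q z, ∀ g' ∈ orb p q z, Ev p q 0 (one q g + one q g') z :=
    fun g hg g' hg' => ev_pair hS hp hq (mem g hg) (by rwa [oe g hg]) hz
  have side : ∀ g ∈ orb p q z, ∀ g' ∈ orb p q z, g' ≠ g → g' ≠ q g → ∀ lam : α → ZMod 2,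
      Pot (orb p q z) q (one q g + one q g') lam → ∀ s, ∃ h, (h = g' ∨ h = q g') ∧ lam h = s := by
    intro g hg g' hg' e1 e2 lam l2 s
    by_cases c : lam g' = s
    · exact ⟨g', .inl rfl, c⟩
    · exact ⟨q g', .inr rfl, by
        rw [l2 g' hg', wt1 hq (mem g hg) (mem g' hg') e1 e2 (.inr (.inl rfl)), n2 _ _ c]⟩
  refine ⟨fun g hg g' hg' => ⟨ev g hg g' hg', ?_⟩, fun g hg g' hg' e1 e2 => ?_,
    fun g hg g' hg' e1 e2 lam l1 l2 s => ?_⟩
  · have := par_q hS hp hq (op := one p g) (oq := 0) hz (mem g' hg')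
      (fun _ => one_sym hp.inv0 (mem g hg)) fun _ _ => rfl
    rw [← par_eq_zero, ← zero_add (one q g'), this, par_one hS hp hq (mem g hg) hz,
      par_snd hS hp hq (mem g' hg') hz, if_pos (sy g hg), if_pos (sy g' hg'), z2_add_self]
  · obtain ⟨lam, l1, l2⟩ := ev g hg g' hg'
    obtain ⟨h, hh, e⟩ := side g hg g' hg' e1 e2 lam l2 (lam g)
    refine ⟨h, hh, fun χ c1 c2 => ?_⟩
    have k : ∀ y ∈ orb p q z, χ y - lam y = χ z - lam z := fun y hy =>
      (orb_ind (P := fun y => y ∈ orb p q z ∧ χ y - lam y = χ z - lam z) hy ⟨orb_self .., rfl⟩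
        (fun w k => ⟨orb_p k.1, by rw [c1 w k.1, l1 w k.1, ← k.2]; ring⟩)
        fun w k => ⟨orb_q k.1, by rw [c2 w k.1, l2 w k.1, ← k.2]; ring⟩).2
    have hm : h ∈ orb p q z := by rcases hh with rfl | rfl; exacts [hg', orb_q hg']
    linear_combination k g hg - k h hm - e
  have w1 : ∀ y ∈ orb p q z, (y = g ∨ y = q g) ∨ y = g' ∨ y = q g' → lam (q y) = lam y + 1 :=
    fun y hy h => by rw [l2 y hy, wt1 hq (mem g hg) (mem g' hg') e1 e2 h]
  have lp : ∀ y ∈ orb p q z, lam (p y) = lam y := fun y hy => by rw [l1 y hy]; simp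
  have qq := (hq g (mem g hg)).2.1
  have qq' := (hq g' (mem g' hg')).2.1
  have key : ∀ (A : Type) (φ : α → A) (h' : α), (h' = g' ∨ h' = q g') → lam h' = s →
      (∀ y ∈ orb p q z, lam y = s → lam (q y) = s → φ (q y) = φ y) →
      ∀ y ∈ orb p q z, ¬(y = g ∨ y = q g) →
        (if lam (q y) = s then φ (q y) else φ h') = if lam y = s then φ y else φ h' := by
    intro A φ h' hh e h2 y hy c
    by_cases d : y = g' ∨ y = q g'
    · have k := w1 y hy (.inr d)
      have : y = h' ∨ q y = h' := by grind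
      rcases this with rfl | rfl
      · rw [if_pos e, if_neg (by rw [k, e]; exact n1 s)]
      · rw [if_pos e, if_neg fun c => n1 s (by rw [← c, ← k, e, c])]
    · have k : lam (q y) = lam y := by rw [l2 y hy, wt0 c d, add_zero]
      rw [k]
      split_ifs with f
      exacts [h2 y hy f (k.trans f), rfl]
  refine ⟨fun A φ h1 h2 y hy y' hy' f f' => ?_, fun d hd f χ h1 h2 h h' hh hh' e e' => ?_⟩
  · obtain ⟨h', hh, e⟩ := side g hg g' hg' e1 e2 lam l2 s
    have k : ∀ y ∈ orb p q z, (if lam y = s then φ y else φ h') =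
        if lam g = s then φ g else φ h' := fun y hy =>
      eq_of_cut hS hp hq (mem g hg) (φ := fun y => if lam y = s then φ y else φ h')
        (fun y hy => by
          rw [oe g hg] at hy
          simp only [lp y hy]
          split_ifs with f
          exacts [h1 y hy f, rfl])
        (fun y hy c1 c2 => key A φ h' hh e h2 y (oe g hg ▸ hy) fun c => c.elim c1 c2)
        (by rwa [oe g hg])
    have := (k y hy).trans (k y' hy').symm
    rwa [if_pos f, if_pos f'] at this
  · by_contra c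
    have c' : χ h' = χ h := by revert c; generalize χ h' = a, χ h = b; revert a b; decide
    have : Ev p q (one p d) 0 z := by
      refine ⟨fun y => if lam y = s then χ y else χ h', fun y hy => ?_, fun y hy => ?_⟩
      · simp only [lp y hy]
        split_ifs with k
        · exact h1 y hy k
        · rw [one, if_neg, add_zero]
          rintro (rfl | rfl)
          exacts [k f, k ((lp d hd).trans f)]
      · rw [Pi.zero_apply, add_zero]
        by_cases k : y = g ∨ y = q g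
        · have k1 := w1 y hy (.inl k)
          have : y = h ∨ q y = h := by grind
          rcases this with rfl | rfl
          · simp only [if_pos e, if_neg (show ¬lam (q y) = s by rw [k1, e]; exact n1 s), c']
          · simp only [if_pos e, if_neg (show ¬lam y = s from
              fun c => n1 s (by rw [← c, ← k1, e, c])), c']
        · exact key _ χ h' hh' e' h2 y hy k
    rw [← par_eq_zero, par_one hS hp hq (mem d hd) hz, if_pos (sy d hd)] at this
    exact one_ne_zero this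

namespace HCur

variable {Φ V : Type} {M : FM Φ} {vx : Φ → V} {Fb Fc : Set Φ} {u v w : V}
  {ob oc ob' oc' : Φ → ZMod 2}

theorem app (h : M.Cv vx Fb Fc u v ob oc) (h' : M.Cv vx Fb Fc v w ob' oc') :
    M.Cv vx Fb Fc u w (ob + ob') (oc + oc') := by
  induction h' with
  | nil => simpa using h
  | face f g _ h1 h2 h3 h4 h5 ih => simpa only [add_assoc] using ih.face f g h1 h2 h3 h4 h5
  | edge f _ h1 h2 h3 ih => simpa only [add_assoc] using ih.edge f h1 h2 h3

theorem rev (hM : M.Ok) (h : M.Cv vx Fb Fc u v ob oc) : M.Cv vx Fb (M.a '' Fc) v u ob oc := by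
  induction h with
  | nil => exact .nil _
  | @face v ob oc f g _ h1 h2 h3 h4 h5 ih =>
    have k := app ((FM.Cv.nil (vx g)).face g f (hM.fo_mem h1 h2) (hM.fo_symm h1 h2) rfl h5 h4)
      (h3 ▸ ih)
    rwa [zero_add, zero_add, add_comm _ ob, add_comm (one M.b g), ← add_assoc] at k
  | @edge v ob oc f _ h1 h2 h3 ih =>
    have k := (FM.Cv.nil (Fb := Fb) (vx (M.a f))).edge (M.a f) (hM.a_mem h1) rfl
      (mem_image_of_mem _ h3)
    rw [hM.aa h1] at k
    have k2 := app k (h2 ▸ ih)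
    rwa [zero_add, zero_add, add_comm _ oc, add_comm (one M.c (M.a f)), ← add_assoc] at k2

theorem one_a (hM : M.Ok) {e f : Φ} (he : e ∈ M.S) (hf : f ∈ M.S) :
    one M.c e (M.a f) = one M.c (M.a e) f := by
  have h1 := hM.aa he
  have h2 := hM.aa hf
  have h3 := hM.comm he
  have h4 := hM.aa (hM.c_mem he)
  unfold one
  congr 1
  exact propext ⟨fun h => by grind, fun h => by grind⟩

theorem sym (hM : M.Ok) (h : M.Cv vx Fb Fc u v ob oc) : ∀ f ∈ M.S,
    ob (M.b f) = ob f ∧ oc (M.c f) = oc f ∧ oc (M.a f) = oc f ∧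
      (ob f ≠ 0 → f ∈ Fb ∨ M.b f ∈ Fb) ∧ (oc f ≠ 0 → ∃ g ∈ Fc ∩ M.S, f ∈ M.eo g) := by
  have z3 : ∀ a b c : ZMod 2, a + b + c ≠ 0 → a ≠ 0 ∨ b ≠ 0 ∨ c ≠ 0 := by decide
  intro f hf
  induction h with
  | nil => exact ⟨rfl, rfl, rfl, fun h => absurd rfl h, fun h => absurd rfl h⟩
  | face e g _ h1 h2 _ h4 h5 ih =>
    have hg := hM.fo_mem h1 h2
    refine ⟨by simp only [Pi.add_apply, ih.1, one_sym hM.ib0 h1 hf, one_sym hM.ib0 hg hf],
      ih.2.1, ih.2.2.1, fun h => ?_, ih.2.2.2.2⟩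
    rcases z3 _ _ _ h with h | h | h
    · exact ih.2.2.2.1 h
    · rcases one_ne h with rfl | rfl
      exacts [.inl h4, .inr (by rwa [hM.bb h1])]
    · rcases one_ne h with rfl | rfl
      exacts [.inl h5, .inr (by rwa [hM.bb hg])]
  | edge e _ h1 _ h3 ih =>
    refine ⟨ih.1, by simp only [Pi.add_apply, ih.2.1, one_sym hM.ic0 h1 hf,
      one_sym hM.ic0 (hM.a_mem h1) hf], ?_, ih.2.2.2.1, fun h => ?_⟩
    · simp only [Pi.add_apply, ih.2.2.1, one_a hM h1 hf, one_a hM (hM.a_mem h1) hf, hM.aa h1]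
      ring
    rcases z3 _ _ _ h with h | h | h
    · exact ih.2.2.2.2 h
    · refine ⟨e, ⟨h3, h1⟩, ?_⟩
      rcases one_ne h with rfl | rfl
      exacts [orb_self .., orb_q (orb_self ..)]
    · refine ⟨e, ⟨h3, h1⟩, ?_⟩
      rcases one_ne h with rfl | rfl
      exacts [orb_p (orb_self ..), orb_q (orb_p (orb_self ..))]

theorem ev2 (hM : M.Ok) (h : M.Cv vx Fb Fc u v ob oc) {f : Φ} (hf : f ∈ M.S) :
    Ev M.a M.c 0 oc f ∧ Ev M.a M.b 0 ob f := by
  induction h with
  | nil => exact ⟨ev_zero fun _ _ => ⟨rfl, rfl⟩, ev_zero fun _ _ => ⟨rfl, rfl⟩⟩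
  | face e g _ h1 h2 _ _ _ ih =>
    have := ih.2.add (ev_pair hM.fin hM.ia hM.ib h1 h2 hf)
    exact ⟨ih.1, by simpa only [add_zero, add_assoc] using this⟩
  | edge e _ h1 _ _ ih =>
    have := ih.1.add (ev_pair hM.fin hM.ia hM.ic h1 (orb_p (orb_self ..)) hf)
    exact ⟨by simpa only [add_zero, add_assoc] using this, ih.2⟩

open Classical in
theorem ev3 (hM : M.Ok) (hL : M.Lbl vx) (h : M.Cv vx Fb Fc u v ob oc) {f : Φ} (hf : f ∈ M.S) :
    par M.b M.c ob oc f = (if u = vx f then 1 else 0) + if v = vx f then 1 else 0 := by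
  have k : ∀ e ∈ M.S, f ∈ orb M.b M.c e ↔ vx e = vx f := fun e he => (hL e he f hf).symm
  have z : ∀ a b c : ZMod 2, a + b + b + c = a + c := by decide
  induction h with
  | nil => rw [z2_add_self]; exact par_eq_zero.2 (ev_zero fun _ _ => ⟨rfl, rfl⟩)
  | face e g h0 h1 h2 h3 _ _ ih =>
    have hg := hM.fo_mem h1 h2
    have s := sym hM h0
    rw [par_p hM.fin hM.ib hM.ic hf hg (fun y hy => by
        simp only [Pi.add_apply, (s y hy).1, one_sym hM.ib0 h1 hy]) fun y hy => (s y hy).2.1,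
      par_p hM.fin hM.ib hM.ic hf h1 (fun y hy => (s y hy).1) fun y hy => (s y hy).2.1, ih,
      par_one hM.fin hM.ib hM.ic h1 hf, par_one hM.fin hM.ib hM.ic hg hf]
    simp only [k e h1, k g hg, h3, z]
  | edge e h0 h1 h2 _ ih =>
    have hg := hM.a_mem h1
    have s := sym hM h0
    rw [par_q hM.fin hM.ib hM.ic hf hg (fun y hy => (s y hy).1) (fun y hy => by
        simp only [Pi.add_apply, (s y hy).2.1, one_sym hM.ic0 h1 hy]),
      par_q hM.fin hM.ib hM.ic hf h1 (fun y hy => (s y hy).1) fun y hy => (s y hy).2.1, ih,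
      par_snd hM.fin hM.ib hM.ic h1 hf, par_snd hM.fin hM.ib hM.ic hg hf]
    simp only [k e h1, k _ hg, h2, z]

end HCur

theorem curS : CurS := by
  intro Φ V M vx hM hL
  refine ⟨fun Fb Fc Fb' Fc' u v ob oc hb hc h => ?_, fun _ _ _ _ _ _ _ _ _ => app,
    fun _ _ _ _ _ _ => rev hM, fun _ _ _ _ _ _ => sym hM, fun D u v h => ?_,
    fun U Fb Fc u ob oc hU hc he h h0 => ?_⟩
  · induction h with
    | nil => exact .nil _
    | face f g _ h1 h2 h3 h4 h5 ih => exact ih.face f g h1 h2 h3 (hb h4) (hb h5)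
    | edge f _ h1 h2 h3 ih => exact ih.edge f h1 h2 (hc h3)
  · induction h with
    | refl => exact ⟨0, .nil u⟩
    | tail _ k ih =>
      obtain ⟨oc, ih⟩ := ih
      obtain ⟨k1, k2, -, f, hf, ⟨rfl, rfl⟩ | ⟨rfl, rfl⟩⟩ := k
      · exact ⟨_, ih.edge f hf rfl ⟨hf, k1, k2⟩⟩
      · have := ih.edge (M.a f) (hM.a_mem hf) rfl ⟨hM.a_mem hf, k1, by rwa [hM.aa hf]⟩
        rw [hM.aa hf] at this
        exact ⟨_, this⟩
  · exact extC Φ M U 0 ob oc 0 hM hU hc he (fun f hf => (ev2 hM h hf).1)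
      (fun f hf => (ev2 hM h hf).2)
      (fun f hf _ _ => .inl (par_eq_zero.1 (by rw [ev3 hM hL h hf, z2_add_self])))
      (fun _ _ => by simp) (fun f hf => by simp [(h0 f hf).1]) fun f hf => by simp [(h0 f hf).2]

end Pool.Agent.MP_9d78a0_co.gm
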