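import Pool.Agent.MP_9d78a0_co.gm.SpecJ
import Pool.Agent.MP_9d78a0_co.gm.HOp

/-! Block H, first part: the loop (absorption, normal form, conversion, assembly). -/

set_option autoImplicit false

namespace Pool.Agent.MP_9d78a0_co.gm

open Set Function

/-- the ordinary vertices that lie in two atoms at least -/
def AG.sh (σ : AG) : Set W := ⋃ a, σ.bd {a}

namespace Sk

variable (s : Sk)

/-- the vertices on a face with a hole, and the vertices off the holes -/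
def RH : Set MV := s.M.rad s.vx s.H
def tv : Set MV := s.M.tv s.vx s.H

/-- deep cells: no root is on a face with a hole -/
def Dp : Set MV := {x | x ∈ s.Ce ∧ ∀ v ∈ s.nb x, Sum.inl v ∉ s.RH}

/-- the region of the edges inside `K` that contains a flag, and the genus of these edges -/
def rg (K : Set MV) (p : s.Φ) : Set s.Φ := s.M.reg (s.M.ind s.vx K) p
noncomputable def gn (K : Set MV) : ℤ := (s.M.sub (s.M.ind s.vx K)).eg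

/-- the axioms of a map in which rims may have degree 1, 2 or 3 -/
structure Ok0 : Prop where
  hm : s.M.Hm s.vx s.H
  ps : s.M.Pos s.pos
  hr : s.H ⊆ range Sum.inr ∧ s.Rm ⊆ range Sum.inr ∧ Disjoint s.H s.Rm
  od : ∀ v, Sum.inl v ∈ s.Vt → v ∈ Od
  bip : ∀ f ∈ s.M.S, s.vx f ∈ s.Nd ↔ s.vx (s.M.a f) ∉ s.Nd
  deg : ∀ f ∈ s.M.S, s.vx f ∉ s.Nd → s.vx f ∉ s.H → (s.M.vo f).ncard ≤ 6
  rim : ∀ y ∈ s.Rm ∩ s.Vt, ∃ h ∈ s.H ∩ s.Vt, y ∈ s.M.rad s.vx {h} ∧ s.nb y ⊆ s.nb h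

/-- the far ends of the edges of colour `c` at the vertex of `f` -/
def clr (f : s.Φ) (χ : s.Φ → ZMod 2) (c : ZMod 2) : Set W :=
  s.far '' {g | g ∈ s.M.vo f ∧ χ g = c}

variable {g : ℕ} (B : Fin g × Fin g → Set MV)

/-- deep pockets contain a cross; all pockets contain a cross -/
def NoD : Prop := ∀ S, s.Pk S → Disjoint (S ∪ s.N S) s.RH → ∃ i j, Cross B i j ⊆ S
def NoP : Prop := ∀ S, s.Pk S → ∃ i j, Cross B i j ⊆ S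

/-- the vertices that `X` encloses together with the flag `p` -/
def EnS (X : Set MV) (p : s.Φ) : Set MV := s.vx '' s.rg (s.bg B X) p \ s.bg B X

/-- the number of regions with a hole -/
noncomputable def hr (X : Set MV) : ℕ := (s.rg (s.bg B X) '' s.M.fl s.vx s.H).ncard

/-- `C` is a ring round the flag `p`, and `O` lies outside -/
structure Ring (C : Set MV) (p : s.Φ) (O : Set MV) : Prop where
  conn : Conn s.G C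
  sub : C ⊆ s.tv
  mem : C ⊆ s.vx '' s.rg C p
  out : Disjoint O (s.vx '' s.rg C p)

end Sk

/-- the nodes of the sets of `B'` lie in a subgrid of `B` -/
def SubG {g g' : ℕ} (B : Fin g × Fin g → Set MV) (B' : Fin g' × Fin g' → Set MV) : Prop :=
  ∃ e1 e2 : Fin g' → Fin g, Injective e1 ∧ Injective e2 ∧
    ∀ i j v, Sum.inl v ∈ B' (i, j) → Sum.inl v ∈ B (e1 i, e2 j)

namespace Rw

variable {σ : AG} (r : Rw σ)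

/-- the cut of the content of a hole that goes with a colouring of its spokes -/
def dcut (f : r.s.Φ) (χ : r.s.Φ → ZMod 2) (U : Set σ.ε) : Set W :=
  ((σ.vs U ∪ r.s.clr f χ 0) ∩ (σ.vs (r.ct (r.s.vx f) \ U) ∪ r.s.clr f χ 1) ∩ σ.sh) \
    (r.Λ ∪ r.s.clr f χ 0 ∩ r.s.clr f χ 1)

/-- depth -/
def Dep (D : ℕ) : Prop :=
  ∀ f ∈ r.s.M.fl r.s.vx r.s.H, ∀ χ, r.s.M.Two f χ →
    ∃ U ⊆ r.ct (r.s.vx f), (r.dcut f χ U).ncard ≤ D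

/-- the common axioms -/
structure Co (k q D l : ℕ) : Prop where
  ok0 : r.s.Ok0
  eg : r.s.M.eg ≤ k
  holes : (r.s.H ∩ r.s.Vt).ncard ≤ q
  lam : r.Λ ⊆ Od ∧ r.Λ.Finite ∧ r.Λ.ncard ≤ l
  lamn : ∀ v ∈ r.Λ, Sum.inl v ∈ r.s.Vt → v ∈ r.s.Po
  root : ∀ a, r.Λ ∩ σ.inc a ⊆ σ.sh
  owner : ∀ a x, r.own a = some x → x ∈ r.s.Ce ∪ (r.s.H ∩ r.s.Vt)
  share : ∀ a, ∀ v ∈ (σ.inc a ∩ σ.sh) \ r.Λ,
    (Sum.inl v ∈ r.s.Vt ∨ ∃ a', r.own a' ≠ r.own a ∧ v ∈ σ.inc a') →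
    ∃ x, r.own a = some x ∧ v ∈ r.s.nb x
  solid : ∀ x ∈ r.s.Ce, Solid (σ.un (r.ct x)) (r.s.nb x \ r.Λ) r.Λ
  dep : r.Dep D

/-- the input of the loop -/
structure In (k q s D l : ℕ) : Prop where
  co : r.Co k q D l
  ok : r.s.Ok
  spk : r.s.Spk
  op : r.opn.ncard ≤ s

/-- the input of the vortex construction -/
structure Ov (k q D l : ℕ) : Prop where
  co : r.Co k q D l
  tvc : Conn r.s.G r.s.tv

/-- the roots of deep cells lie in other parts -/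
def Tw : Prop := ∀ x ∈ r.s.Dp, r.s.nb x ⊆ σ.bd (r.ct x)

/-- deep cells are atoms, and pockets meet -/
structure Kp : Prop where
  atom : ∀ x ∈ r.s.Dp, ∃ a, r.ct x = {a} ∧ Disjoint (σ.inc a) r.Λ ∧ σ.bd {a} = r.s.nb x
  fc : r.s.FC

/-- the two modes -/
def Mo {g : ℕ} (B : Fin g × Fin g → Set MV) : Prop := r.s.NoD B ∨ r.Kp

/-- the cells of `t` are deep cells of `r` -/
def Kept (t : Sh σ) : Prop :=
  ∀ x ∈ t.s.Ce, x ∈ r.s.Dp ∧ t.ct x = r.ct x ∧ t.s.nb x = r.s.nb x ∧ t.s.Rd x ⊆ r.s.Rd x ∧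
    σ.vs (r.ct x) ∩ t.Λ ⊆ r.Λ ∪ r.s.nb x

/-- `r'` comes from `r`: each region of `K` that has a hole is one hole; `hm p` is the new hole
of the region of `p` -/
structure Am (r' : Rw σ) (K : Set MV) (hm : r.s.Φ → MV) : Prop where
  sub : K ⊆ r'.s.tv ∧ r'.s.tv ⊆ r.s.tv
  adj : ∀ u ∈ r'.s.tv, ∀ v ∈ r'.s.tv, r'.s.G.Adj u v ↔ r.s.G.Adj u v
  eg : r'.s.M.eg = r.s.M.eg
  gn : ∀ K' ⊆ r'.s.tv, r'.s.gn K' = r.s.gn K'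
  lam : r'.Λ = r.Λ
  cell : ∀ x ∈ r'.s.Ce, x ∈ r.s.Ce ∧ r'.ct x = r.ct x ∧ r'.s.nb x = r.s.nb x ∧
    r'.s.Rd x ⊆ r.s.Rd x
  rh : r.s.RH ∩ r'.s.tv ⊆ r'.s.RH
  pk : ∀ S, r'.s.Pk S → r.s.Pk S ∧ r'.s.N S = r.s.N S
  img : hm '' r.s.M.fl r.s.vx r.s.H = r'.s.H ∩ r'.s.Vt
  heq : ∀ p ∈ r.s.M.fl r.s.vx r.s.H, ∀ p' ∈ r.s.M.fl r.s.vx r.s.H, hm p = hm p' ↔ p' ∈ r.s.rg K p
  ins : ∀ p ∈ r.s.M.fl r.s.vx r.s.H, r.s.vx '' r.s.rg K p ∩ r'.s.tv ⊆ K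
  reg : ∀ K' ⊆ r'.s.tv, ∀ p ∈ r.s.M.fl r.s.vx r.s.H, ∀ p' ∈ r'.s.M.S, r'.s.vx p' = hm p →
    r'.s.vx '' r'.s.rg K' p' ∩ r'.s.tv = r.s.vx '' r.s.rg K' p ∩ r'.s.tv ∧
    ∀ p2 ∈ r.s.M.fl r.s.vx r.s.H, hm p2 ∈ r'.s.vx '' r'.s.rg K' p' → p2 ∈ r.s.rg K' p

/-- at most `m` nodes enclose a cell of `t` with a hole only if they enclose more than `X` -/
def Sep (t : Sh σ) {g : ℕ} (B : Fin g × Fin g → Set MV) (X : Set MV) (m : ℕ) : Prop :=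
  ∀ x ∈ t.s.Ce, ∀ X' ⊆ r.s.Nd, X'.ncard ≤ m → ∀ p ∈ r.s.M.fl r.s.vx r.s.H,
    x ∈ r.s.EnS B X' p → r.s.EnS B X p ⊂ r.s.EnS B X' p

end Rw

namespace Sh

variable {σ : AG} (t : Sh σ)

/-- the raw structure of a structure with sides -/
def toRw : Rw σ where
  s := t.s
  Λ := t.Λ ∪ t.Mk
  own a := (t.own a).map (Sum.elim id fun p => t.s.vx (t.φ0 p.1))

/-- the properties of the new structure that do not mention the old one; `Wv` is a set of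
targets for the routes that leave a side -/
structure Nice (Wv : Set W) (w : ℕ) : Prop where
  ok : t.Ok
  cnt : t.Mk.ncard ≤ w ∧ Fintype.card t.ι ≤ w ∧ t.Λ.ncard ≤ w ∧ t.Tr.ncard ≤ w ∧ ∀ j, t.d j ≤ w
  wv : Wv.Finite ∧ Wv.ncard ≤ w
  nd : ∀ v, Sum.inl v ∈ t.s.Vt → ∃ x ∈ t.s.Ce, v ∈ t.s.nb x
  lamc : ∀ x ∈ t.s.Ce, ∀ v ∈ σ.vs (t.ct x), Sum.inl v ∈ t.s.Vt → v ∈ t.s.nb x
  out : ∀ j i, 0 < i → i < t.m j → ∃ v ∈ Wv,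
    Link t.s.G ((t.s.T \ Sum.inl '' t.s.Po) ∪ {Sum.inl (t.u j i)}) (Sum.inl (t.u j i)) (Sum.inl v)

/-- the two modes -/
def Mo {g : ℕ} (B : Fin g × Fin g → Set MV) : Prop := t.s.NoP B ∨ (t.Str ∧ t.s.FC)

end Sh

/-- the output of the vortex construction; `O` lies outside of `m + 1` rings round each hole -/
structure Vo {σ : AG} (r : Rw σ) (t : Sh σ) (O : Set MV) (Wv : Set W) (w m : ℕ) : Prop where
  nice : t.Nice Wv w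
  eg : t.s.M.eg ≤ r.s.M.eg
  holes : (t.s.H ∩ t.s.Vt).ncard ≤ (r.s.H ∩ r.s.Vt).ncard
  kept : r.Kept t
  pk : ∀ S, t.s.Pk S → r.s.Pk S ∧ t.s.N S = r.s.N S ∧ Disjoint (S ∪ r.s.N S) r.s.RH
  core : O ⊆ t.s.T ∧ ∀ u ∈ O, ∀ v ∈ O, r.s.G.Adj u v → t.s.G.Adj u v
  ring : ∀ p ∈ r.s.M.fl r.s.vx r.s.H, ∃ C : Fin (m + 1) → Set MV, Pairwise (Disjoint on C) ∧
    ∀ i, r.s.Ring (C i) p (t.s.Ce ∪ O)

namespace HB

/-- small facts on maps -/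
def BasS : Prop :=
  (∀ s : Sk, s.Ok → s.Ok0) ∧
  ∀ s : Sk, s.Ok0 → s.Vt.Finite ∧ s.tv = s.T ∪ (s.Rm ∩ s.Vt) ∧ s.Rm ∩ s.Vt ⊆ s.RH ∧
    Sum.inl '' s.Po ⊆ s.RH ∧ (∀ h, Sum.inl '' s.nb h ⊆ s.M.rad s.vx {h}) ∧ s.Dp ⊆ s.Good ∧
    (∀ y ∈ s.tv \ s.Nd, (s.nb y).Finite ∧ (s.nb y).ncard ≤ 3 ∧
      ∀ u ∈ s.nb y, ∀ v ∈ s.nb y, Sum.inl v ∈ s.M.rad s.vx {Sum.inl u}) ∧
    (∀ K K' p, p ∈ s.M.S → Disjoint (s.vx '' s.rg K p \ K) K' → s.rg K p ⊆ s.rg K' p) ∧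
    (∀ K, ∀ f ∈ s.M.S, ∀ f' ∈ s.M.S, s.vx f ∉ K → Link s.G Kᶜ (s.vx f) (s.vx f') →
      f' ∈ s.rg K f) ∧
    ∀ (g : ℕ) (B : Fin g × Fin g → Set MV), s.Grid B → 3 ≤ g →
      (∀ X ⊆ s.tv, ∃ X' ⊆ s.Nd, X'.ncard ≤ 3 * X.ncard ∧ s.bg B X' ⊆ s.bg B X) ∧
      (∀ X, s.hr B X ≤ (s.H ∩ s.Vt).ncard ∧ (s.M.Full s.vx s.H (s.bg B X) ↔
        s.gn (s.bg B X) = s.M.eg ∧ s.hr B X = (s.H ∩ s.Vt).ncard)) ∧
      (∀ X X', X ⊆ X' → ∀ p ∈ s.M.S, s.EnS B X p ⊆ s.EnS B X' p) ∧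
      (s.NoP B → s.FC) ∧
      ∀ (g' : ℕ) (B' : Fin g' × Fin g' → Set MV), Blk B B' → 3 ≤ g' → s.Grid B' ∧ SubG B B' ∧
        ∀ S, s.Pk S → (∃ i j, Cross B i j ⊆ S) → ∃ i j, Cross B' i j ⊆ S

/-- the input of the loop from the external form; roots of deep cells -/
def InS : Prop :=
  (∀ (σ : AG) (r : Rw σ) (k q s D l : ℕ), r.Ok k q s D l → r.s.Spk → r.In k q s D l ∧
    ∀ I, r.Keep I → r.Kp) ∧
  ∀ (σ : AG) (r : Rw σ) (k q D l g : ℕ) (B : Fin g × Fin g → Set MV), r.Co k q D l →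
    r.s.Grid B → 3 ≤ g → r.Mo B → r.Tw

/-- control passes to subgrids -/
def CtlS : Prop :=
  ∀ (σ : AG) (θ : ℕ) (T : Tangle σ.f θ) (r : Rw σ) (k q D l g g' θ1 : ℕ)
    (B : Fin g × Fin g → Set MV) (B' : Fin g' × Fin g' → Set MV) (s' : Sk), r.Co k q D l →
    r.s.Grid B → s'.Ok0 → s'.Grid B' → SubG B B' → 2 * θ1 + 3 ≤ g' → Ctl σ T B θ1 →
    Ctl σ T B' θ1

/-- a block that is a grid of a new map -/
def PatS : Prop :=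
  ∀ k q n g' : ℕ, ∃ g0 : ℕ, ∀ g, g0 ≤ g → ∀ (s s' : Sk) (B : Fin g × Fin g → Set MV)
    (X : Set MV), s.Ok0 → s'.Ok0 → s'.M.eg ≤ k → (s'.H ∩ s'.Vt).ncard ≤ q → s.Grid B →
    X.Finite → X.ncard ≤ n → s.bg B X ∩ (⋃ p, B p) ⊆ s'.tv →
    (∀ u ∈ s.bg B X ∩ ⋃ p, B p, ∀ v ∈ s.bg B X ∩ ⋃ p, B p, s.G.Adj u v → s'.G.Adj u v) →
    ∃ B' : Fin g' × Fin g' → Set MV, Blk B B' ∧ s'.Grid B'

/-- the genus drops: the large component with its spokes, holes cut at open corners -/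
def AbsGS : Prop :=
  ∀ q s D l n : ℕ, ∃ q' s' l' : ℕ, ∀ (σ : AG) (r : Rw σ) (k g : ℕ) (B : Fin g × Fin g → Set MV)
    (X : Set MV), r.In (k + 1) q s D l → r.s.Grid B → n + 2 ≤ g → X ⊆ r.s.Nd → X.ncard ≤ n →
    r.s.gn (r.s.bg B X) ≤ k → ∃ r' : Rw σ, r'.In k q' s' D l' ∧
      r.s.bg B X ∩ r.s.T ⊆ r'.s.T ∧
      ∀ u ∈ r.s.bg B X ∩ r.s.T, ∀ v ∈ r.s.bg B X ∩ r.s.T, r.s.G.Adj u v → r'.s.G.Adj u v

/-- the depth of a region: `ψ` colours the face of `K` in the region, with two changes at most,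
none at a node -/
def AbsDS : Prop :=
  ∀ q D n : ℕ, ∃ D' : ℕ, ∀ (σ : AG) (r : Rw σ) (k l g : ℕ) (B : Fin g × Fin g → Set MV)
    (X K : Set MV) (p : r.s.Φ) (F : Set r.s.Φ) (ψ : r.s.Φ → ZMod 2) (Ct : Set σ.ε)
    (A : ZMod 2 → Set W), r.Co k q D l → r.s.Grid B → n + 2 ≤ g → X ⊆ r.s.Nd → X.ncard ≤ n →
    K = r.s.bg B X → r.s.gn K = r.s.M.eg → p ∈ r.s.M.S → F = r.s.M.ind r.s.vx K ∩ r.s.rg K p →
    (∀ f ∈ F, ψ (r.s.M.a f) = ψ f) →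
    (∀ f ∈ F, r.s.vx f ∈ r.s.Nd → ψ ((r.s.M.sub (r.s.M.ind r.s.vx K)).b f) = ψ f) →
    ({f | f ∈ F ∧ ψ ((r.s.M.sub (r.s.M.ind r.s.vx K)).b f) ≠ ψ f} : Set r.s.Φ).ncard ≤ 4 →
    Ct = {a | ∃ f ∈ r.s.rg K p \ r.s.M.ind r.s.vx K, r.own a = some (r.s.vx f)} →
    (∀ c, A c = {v | ∃ f ∈ F, r.s.vx f = Sum.inl v ∧ ψ f = c}) →
    ∃ U ⊆ Ct, (((σ.vs U ∪ A 0) ∩ (σ.vs (Ct \ U) ∪ A 1) ∩ σ.sh) \ (r.Λ ∪ A 0 ∩ A 1)).ncard ≤ D'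

/-- the genus stays: every region with a hole becomes one hole -/
def AbsMS : Prop :=
  ∀ q D n : ℕ, ∃ D' : ℕ, ∀ (σ : AG) (r : Rw σ) (k l g : ℕ) (B : Fin g × Fin g → Set MV)
    (X : Set MV), r.Co k q D l → r.s.Grid B → n + 2 ≤ g → X ⊆ r.s.Nd → X.ncard ≤ n →
    r.s.gn (r.s.bg B X) = r.s.M.eg → ∃ (r' : Rw σ) (hm : r.s.Φ → MV),
      r'.Ov k (r.s.hr B X) D' l ∧ r.Am r' (r.s.bg B X) hm

/-- a cut of the new map is a better cut of the old map; the mode passes to the new map -/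
def NfS : Prop :=
  ∀ (σ : AG) (r r' : Rw σ) (k q D l k' q' D' l' g g' n n' : ℕ) (B : Fin g × Fin g → Set MV)
    (B' : Fin g' × Fin g' → Set MV) (X : Set MV) (hm : r.s.Φ → MV), r.Co k q D l →
    r'.Co k' q' D' l' → r.s.Grid B → Blk B B' → r'.s.Grid B' → X ⊆ r.s.Nd → X.ncard ≤ n →
    n + 3 * n' + 3 ≤ g' → r.Am r' (r.s.bg B X) hm → (r.Mo B → r'.Mo B') ∧
    (¬ r'.s.NF B' n' → ∃ X'' ⊆ r.s.Nd, X ⊆ X'' ∧ X''.ncard ≤ n + 3 * n' ∧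
      (r.s.gn (r.s.bg B X'') < r.s.M.eg ∨ r.s.hr B X'' < r.s.hr B X))

/-- rings give the separation property; kept cells come from the old map -/
def SepHS : Prop :=
  ∀ (σ : AG) (r r' : Rw σ) (t : Sh σ) (k q D l k' q' D' l' g g1 w m : ℕ)
    (B : Fin g × Fin g → Set MV) (B1 : Fin g1 × Fin g1 → Set MV) (X O : Set MV) (Wv : Set W)
    (hm : r.s.Φ → MV), r.Co k q D l → r'.Co k' q' D' l' → r.s.Grid B → Blk B B1 → m < g1 →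
    X ⊆ r.s.Nd → r.Am r' (r.s.bg B X) hm → Vo r' t O Wv w m → (∀ p, B1 p ⊆ O) →
    O ⊆ r'.s.tv →
    r.Sep t B X m ∧ r.Kept t

/-- small deep pockets are merged into cells -/
def NormS : Prop :=
  ∀ (σ : AG) (r : Rw σ) (k q s D l g : ℕ) (B : Fin g × Fin g → Set MV), r.In k q s D l →
    r.s.Grid B → 5 ≤ g → ∃ (r' : Rw σ) (B' : Fin g × Fin g → Set MV), r'.In k q s D l ∧
      r'.s.Grid B' ∧ SubG B B' ∧ r'.s.NoD B'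

/-- back to a raw structure -/
def ConvS : Prop :=
  ∀ (σ : AG) (t : Sh σ) (Wv : Set W) (w k q : ℕ), t.Nice Wv w → t.s.M.eg ≤ k →
    (t.s.H ∩ t.s.Vt).ncard ≤ q → t.toRw.In k q (2 * w + 2 * q * w) (4 * (w + 1)) (2 * w) ∧
    (∀ x ∈ t.s.Ce, t.toRw.ct x = t.ct x ∧ σ.vs (t.ct x) ∩ t.toRw.Λ ⊆ t.Λ ∪ t.s.nb x) ∧
    ∀ (g : ℕ) (B : Fin g × Fin g → Set MV), t.Mo B → t.toRw.Mo B

/-- distinctions stay inside cells -/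
def IsoCS : Prop :=
  ∀ (σ : AG) (θ : ℕ) (T : Tangle σ.f θ) (e : σ.ε) (t : Sh σ) (Wv : Set W) (w g θ1 : ℕ)
    (B : Fin g × Fin g → Set MV), t.Nice Wv w → t.s.Grid B → Ctl σ T B θ1 → t.Mo B → 5 ≤ g →
    2 * w + 8 ≤ θ1 → 2 * w + 8 ≤ θ → ∃ Wc : Set σ.ε, Wc.ncard ≤ 6 * w ∧ ∀ x ∈ t.s.Ce,
      ∀ (T' : Tangle σ.f θ) (D : Set σ.ε), IsDist e T T' D → (t.ct x)ᶜ ∈ T'.sm → e ∉ D →
        Disjoint D Wc → D ⊆ t.ct x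

/-- the preliminary structure -/
def PreS : Prop :=
  ∀ w0 : ℕ, ∃ w : ℕ, ∀ (σ : AG) (θ : ℕ) (T : Tangle σ.f θ) (e : σ.ε) (t : Sh σ) (Wv : Set W)
    (g θ1 : ℕ) (B : Fin g × Fin g → Set MV), t.Nice Wv w0 → t.s.Grid B → Ctl σ T B θ1 → t.Mo B →
    w < g → w < θ1 → w < θ → ∃ (Sd : Set σ.ε) (Sb : t.ι → ℕ → Prop) (tt : t.ι → ℕ → Ty),
      ∀ R ≤ θ1, (∃ U0, t.s.M.Frame t.s.vx B t.s.H R U0) →
        Pre T e t Sd Sb (fun _ => Md.new) tt B w R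

/-- the vortex construction (proved in the second part) -/
def VortexS : Prop :=
  ∀ q D l m : ℕ, ∃ w R : ℕ, ∀ (σ : AG) (r : Rw σ) (k : ℕ) (U0 : Set MV), σ.Rob →
    r.Ov k q D l → r.Tw → U0 ⊆ r.s.tv → Conn r.s.G U0 → U0.Nontrivial →
    r.s.M.Full r.s.vx r.s.H U0 → (∀ h ∈ r.s.H, Disjoint ((r.s.M.rad r.s.vx)^[R] {h}) U0) →
    ∃ (t : Sh σ) (Wv : Set W), Vo r t U0 Wv w m

/-- one stage: a better cut, or a new structure -/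
def StageS : Prop :=
  ∀ k q D l n m : ℕ, ∃ w : ℕ, ∀ g2 θ2 : ℕ, 2 * θ2 + 3 ≤ g2 → ∃ n1 g0 : ℕ,
    ∀ (σ : AG) (θ : ℕ) (T : Tangle σ.f θ) (r : Rw σ) (g : ℕ) (B : Fin g × Fin g → Set MV) (X : Set MV), g0 ≤ g → σ.Rob →
    r.Co k q D l → r.s.Grid B → Ctl σ T B θ2 → r.Mo B → X ⊆ r.s.Nd → X.ncard ≤ n →
    r.s.gn (r.s.bg B X) = r.s.M.eg →
    (∃ X'' ⊆ r.s.Nd, X ⊆ X'' ∧ X''.ncard ≤ n1 ∧
      (r.s.gn (r.s.bg B X'') < r.s.M.eg ∨ r.s.hr B X'' < r.s.hr B X)) ∨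
    ∃ (t : Sh σ) (Wv : Set W) (B2 : Fin g2 × Fin g2 → Set MV), t.Nice Wv w ∧
      t.s.M.eg ≤ r.s.M.eg ∧ (t.s.H ∩ t.s.Vt).ncard ≤ r.s.hr B X ∧ t.s.Grid B2 ∧ Ctl σ T B2 θ2 ∧
      t.Mo B2 ∧ r.Kept t ∧ r.Sep t B X m

/-- the loop: genus at most `k`, at most `q'` regions with a hole -/
def MainAt (k q' : ℕ) : Prop :=
  ∀ (q s D l n : ℕ) (ρ : ℕ → ℕ), ∃ w1 g0 θ1 : ℕ, ∀ (σ : AG) (θ : ℕ) (T : Tangle σ.f θ) (e : σ.ε)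
    (r : Rw σ) (g : ℕ) (B : Fin g × Fin g → Set MV) (X : Set MV), θ1 ≤ θ → g0 ≤ g → σ.Rob →
    r.In k q s D l → r.s.Grid B → Ctl σ T B θ1 → r.Mo B → X ⊆ r.s.Nd → X.ncard ≤ n →
    (r.s.gn (r.s.bg B X) < k ∨ r.s.hr B X ≤ q') →
    ∃ (t : Sh σ) (Sd : Set σ.ε), PreN T e ρ w1 t Sd ∧
      ((t.s.M.eg < k ∧ (t.s.H ∩ t.s.Vt).ncard ≤ w1) ∨
        (¬ r.s.gn (r.s.bg B X) < k ∧ t.s.M.eg ≤ k ∧ (t.s.H ∩ t.s.Vt).ncard ≤ q' ∧ r.Kept t))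

def MainHS : Prop := ∀ k q', MainAt k q'

end HB

end Pool.Agent.MP_9d78a0_co.gm
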