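import Mathlib.Data.Set.Card.Arithmetic
import Pool.Agent.MP_9d78a0_co.gm.SpecJ
import Pool.Agent.MP_9d78a0_co.gm.COp2
import Pool.Agent.MP_9d78a0_co.gm.BGrid
import Pool.Agent.MP_9d78a0_co.gm.SpecH2
import Pool.Agent.MP_9d78a0_co.gm.JWf
import Pool.Agent.MP_9d78a0_co.gm.HBag1
import Pool.Agent.MP_9d78a0_co.gm.Tg
import Pool.Agent.MP_9d78a0_co.gm.HCur

-- ======== part 0: formerly Pool.Agent.MP_9d78a0_co.gm.JEnc
section MrgPart0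

/-! Block J: enclosed cells, a block that avoids a new site, different spokes. -/

set_option autoImplicit false

namespace Pool.Agent.MP_9d78a0_co.gm

open Set Function Relation FM

namespace JEnc

section map

variable {Φ V : Type} {M : FM Φ} {vx : Φ → V} {K K' D : Set V} {f g : Φ}

theorem reg_mono (h : K ⊆ K') (k : g ∈ M.reg (M.ind vx K') f) : g ∈ M.reg (M.ind vx K) f :=
  mem_reg.2 ((mem_reg.1 k).mono subset_rfl
    (compl_subset_compl.2 fun _ hx => ⟨hx.1, h hx.2.1, h hx.2.2⟩))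

theorem reg_link (hM : M.Ok) (hL : M.Lbl vx) (hD : Disjoint D K) (hf : f ∈ M.S) (hg : g ∈ M.S)
    (h0 : vx f ∈ D) (hw : Link (M.gph vx) D (vx f) (vx g)) : g ∈ M.reg (M.ind vx K) f := by
  have r : ∀ x ∈ M.S, ∀ y ∈ M.S, vx x ∈ D → vx x = vx y → M.R univ (M.ind vx K)ᶜ x y :=
    fun x hx y hy k e => (R_of_vx hM hL hx hy (disjoint_left.1 hD k) e).mono (empty_subset _)
      subset_rfl
  generalize e : vx g = v at hw
  induction hw generalizing g with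
  | refl => exact mem_reg.2 (r f hf g hg h0 e.symm)
  | tail _ k ih =>
    obtain ⟨-, k1, k⟩ := k
    obtain ⟨x, hx, rfl, rfl⟩ := exists_adj hM k
    exact mem_reg.2 (((mem_reg.1 (ih hx rfl)).a trivial).trans
      (r _ (hM.a_mem hx) g hg k1 e.symm))

end map

section big

variable {V : Type} {G : SimpleGraph V} {g : ℕ} {B : Fin g × Fin g → Set V} {D0 D X Y : Set V}

theorem big_sub (bs : BigS) (hB : Model (fb.grid g) G D0 B) (hD : D0 ⊆ D)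
    (h : Disjoint (big G B D Y) X) : big G B D Y ⊆ big G B D X := by
  obtain ⟨k1, k2, -, k4⟩ := (bs V G g B D0 D hB hD).2.1 Y
  intro v hv
  obtain ⟨i, j, c, w, hw, -⟩ := id hv
  exact ⟨i, j, h.mono_left (k4 i j c), w, hw, ((k2 ⟨v, hv⟩).2 w (k4 i j c hw) v hv).mono
    (show _ ⊆ D \ X from fun z hz => ⟨(k1 hz).1, disjoint_left.1 h hz⟩)⟩

theorem big_adj (bs : BigS) (hB : Model (fb.grid g) G D0 B) (hD : D0 ⊆ D) (hg : 2 ≤ g) {x : V}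
    (hx : x ∈ big G B D Y) : ∃ u ∈ big G B D Y, G.Adj x u := by
  obtain ⟨-, k2, -, k4⟩ := (bs V G g B D0 D hB hD).2.1 Y
  obtain ⟨i, j, c, -⟩ := id hx
  obtain ⟨w, hw, e⟩ : ∃ w ∈ Cross B i j, w ≠ x := by
    obtain ⟨a, ha⟩ := (hB.2.1 (i, ⟨0, by omega⟩)).1
    obtain ⟨b, hb⟩ := (hB.2.1 (i, ⟨1, by omega⟩)).1
    by_cases e : a = x
    · exact ⟨b, mem_iUnion.2 ⟨_, .inl hb⟩, fun e' =>
        disjoint_left.1 (hB.2.2.1 _ _ (by simp)) ha (e ▸ e' ▸ hb)⟩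
    · exact ⟨a, mem_iUnion.2 ⟨_, .inl ha⟩, e⟩
  rcases ((k2 ⟨x, hx⟩).2 x hx w (k4 i j c hw)).cases_head with h | ⟨u, h, -⟩
  exacts [absurd h.symm e, ⟨u, h.2.1, h.2.2⟩]

end big

variable {s : Sk} {g g' : ℕ} {B : Fin g × Fin g → Set MV} {B' : Fin g' × Fin g' → Set MV}
  {y : MV} {X S : Set MV}

theorem fin_Vt (h : s.Ok) : s.Vt.Finite := h.hm.ok.fin.image _

theorem T_sub (h : s.H ⊆ range Sum.inr) : s.T ⊆ s.M.tv s.vx s.H := by
  rintro v (hv | hv)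
  · refine ⟨hv.1, fun k => ?_⟩
    obtain ⟨a, rfl⟩ := hv.2
    obtain ⟨b, e⟩ := h k
    cases e
  · exact ⟨hv.1.1, fun k => hv.2 (.inl k)⟩

theorem D_sub (h : s.H ⊆ range Sum.inr) : s.T \ s.M.rad s.vx s.H ⊆ s.M.tv s.vx s.H :=
  sdiff_subset.trans (T_sub h)

theorem site_hr (h : s.Ok) (hy : y ∈ s.Ce) : (s.site {y}).H ⊆ range Sum.inr :=
  union_subset h.hr.1 (singleton_subset_iff.2 hy.1.2)

theorem y_rad (hy : y ∈ s.Ce) : y ∈ s.M.rad s.vx (s.H ∪ {y}) :=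
  rad_mono subset_union_right (sub_rad (singleton_subset_iff.2 hy.1.1) rfl)

/-- the large component after a new site -/
theorem bg_site (bs : BigS) (h : s.Ok) (hB : s.Grid B) (hb : Blk B B') (hy : y ∈ s.Ce)
    (hB' : (s.site {y}).Grid B') (hX : X ⊆ s.Vt) (hc : X.ncard + 1 < g') :
    (s.site {y}).bg B' X = s.bg B (X ∪ {y}) := by
  have e : (s.site {y}).M.tv (s.site {y}).vx (s.site {y}).H = s.M.tv s.vx s.H \ {y} :=
    (Set.sdiff_sdiff (s := s.vx '' s.M.S)).symm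
  have k1 := (bs MV s.G g' B' _ (s.M.tv s.vx s.H) hB'
    ((D_sub (site_hr h hy)).trans (e ▸ sdiff_subset))).2.2.1 X {y}
    (disjoint_singleton_right.2 fun k => k.2 (y_rad hy))
  have k2 := ((bs MV s.G g B _ _ hB (D_sub h.hr.1)).2.2.2.2 g' B' hb).2 (X ∪ {y}) ∅
    (((fin_Vt h).subset hX).union (finite_singleton y))
    ((ncard_union_le _ _).trans_lt (by rwa [ncard_singleton])) (disjoint_empty _)
  rw [union_empty] at k2
  rw [Sk.bg, e]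
  exact k1.trans k2

theorem bg_anti (bs : BigS) (h : s.Ok) (hB : s.Grid B) {X' : Set MV} (k : X ⊆ X') :
    s.bg B X' ⊆ s.bg B X := (bs MV s.G g B _ _ hB (D_sub h.hr.1)).1 X X' k

/-- a small pocket misses the large component -/
theorem pk_off (bs : BigS) (h : s.Ok) (hB : s.Grid B) (hd : Disjoint S (big s.G B s.T (s.N S)))
    (k : s.N S ⊆ X) : Disjoint S (s.bg B X) := by
  refine Disjoint.mono_right (bg_anti bs h hB k) (disjoint_left.2 ?_)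
  rintro v hv ⟨i, j, c, w, hw, l⟩
  refine disjoint_left.1 hd (?_ : w ∈ S) ⟨i, j, c, w, hw, Link.refl _ _ _⟩
  replace l := l.symm
  clear hw
  induction l with
  | refl => exact hv
  | tail _ e ih =>
    by_contra c'
    exact e.2.1.2 ⟨c', _, ih, e.2.2⟩

theorem nb_card (h : s.Ok) {x : MV} (hx : x ∈ s.M.tv s.vx s.H) (hn : x ∉ s.Nd) :
    (Sum.inl '' s.nb x : Set MV).ncard ≤ 3 ∧ Sum.inl '' s.nb x ⊆ s.Nd ∧
      ∀ u, s.G.Adj x u → u ∈ Sum.inl '' s.nb x := by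
  classical
  obtain ⟨⟨f, hf, rfl⟩, hH⟩ := hx
  obtain ⟨-, k1, k2⟩ := rtsS s h f hf hn
  refine ⟨?_, ?_, fun u hu => ?_⟩
  · rw [ncard_image_of_injective _ Sum.inl_injective, ← k1, ← List.coe_toFinset, ncard_coe_finset]
    exact (List.toFinset_card_le _).trans (k2 hH).2
  · rintro _ ⟨v, hv, rfl⟩
    obtain ⟨x, hx, -, e⟩ := exists_adj h.hm.ok hv
    exact ⟨⟨_, h.hm.ok.a_mem hx, e⟩, v, rfl⟩
  · obtain ⟨x, hx, e1, e2⟩ := exists_adj h.hm.ok hu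
    have k := Sk.vx_far h hx (e1 ▸ hn)
    exact ⟨s.far x, e1 ▸ Sk.far_mem_nb h hx (e1 ▸ hn), k ▸ e2⟩

/-- cells and rims are replaced by their neighbours -/
theorem nodes (bs : BigS) (h : s.Ok) (hB : s.Grid B) (hg : 2 ≤ g) (hX : X ⊆ s.M.tv s.vx s.H) :
    ∃ X' ⊆ s.Nd, X'.ncard ≤ 3 * X.ncard ∧ s.bg B X' ⊆ s.bg B X := by
  classical
  have hf : X.Finite := (fin_Vt h).subset fun v hv => (hX hv).1
  obtain ⟨F, hF⟩ : ∃ F : MV → Set MV, ∀ x, F x = if x ∈ s.Nd then {x} else Sum.inl '' s.nb x :=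
    ⟨_, fun _ => rfl⟩
  refine ⟨⋃ x ∈ X, F x, iUnion₂_subset fun x hx => ?_, ?_, big_sub bs hB (D_sub h.hr.1) ?_⟩
  · rw [hF]
    split_ifs with c
    exacts [singleton_subset_iff.2 c, (nb_card h (hX hx) c).2.1]
  · have := hf.toFinset.set_ncard_biUnion_le F
    simp only [Finite.mem_toFinset] at this
    refine this.trans ((Finset.sum_le_card_nsmul _ _ 3 fun x hx => ?_).trans ?_)
    · rw [hF]
      split_ifs with c
      exacts [by simp, (nb_card h (hX (hf.mem_toFinset.1 hx)) c).1]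
    · rw [ncard_eq_toFinset_card X hf, smul_eq_mul, mul_comm]
  · refine disjoint_left.2 fun x hx k => ?_
    by_cases c : x ∈ s.Nd
    · exact disjoint_right.1 big_disj hx (mem_biUnion k (by rw [hF, if_pos c]; rfl))
    · obtain ⟨u, hu, e⟩ := big_adj bs hB (D_sub h.hr.1) hg hx
      exact disjoint_right.1 big_disj hu
        (mem_biUnion k (by rw [hF, if_neg c]; exact (nb_card h (hX k) c).2.2 u e))

end JEnc

open JEnc in
theorem encS (bs : BigS) : EncS := by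
  intro s g g' n n' B B' y h hB hb hy hB' hg
  have hM := h.hm.ok
  have hL := h.hm.lbl
  have g2 : 2 ≤ g := by
    obtain ⟨i0, -, e1, -, k, -⟩ := hb
    have k1 := k ⟨1, by omega⟩
    have k2 := (e1 ⟨1, by omega⟩).2
    simp only at k1
    omega
  refine ⟨fun hn hle hn' => ?_, ?_, fun S S' hS hS' d d' hne hyS z hz => ?_⟩
  · obtain ⟨X, hX, hc, hF⟩ : ∃ X ⊆ (s.site {y}).M.tv (s.site {y}).vx (s.site {y}).H,
        X.ncard ≤ n' ∧ ¬s.M.Full s.vx (s.H ∪ {y}) ((s.site {y}).bg B' X) := by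
      by_contra c
      exact hn' fun X k1 k2 => not_not.1 fun k => c ⟨X, k1, k2, k⟩
    rw [bg_site bs h hB hb hy hB' (fun v hv => (hX hv).1) (by omega)] at hF
    have hX' : X ∪ {y} ⊆ s.M.tv s.vx s.H := union_subset
      (fun v hv => ⟨(hX hv).1, fun k => (hX hv).2 (.inl k)⟩)
      (singleton_subset_iff.2 (T_sub h.hr.1 (.inr hy)))
    have hc' : (X ∪ {y}).ncard ≤ n' + 1 :=
      (ncard_union_le _ _).trans (by rw [ncard_singleton]; omega)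
    have k := hn _ hX' (hc'.trans hle)
    obtain ⟨p, hp, q, hq, e⟩ : ∃ p ∈ s.M.fl s.vx s.H,
        ∃ q ∈ s.M.reg (s.M.ind s.vx (s.bg B (X ∪ {y}))) p, s.vx q = y := by
      by_contra c
      refine hF ⟨k.1, fun p hp q hq k1 k2 r => ?_⟩
      rcases k1 with k1 | k1 <;> rcases k2 with k2 | k2
      · exact k.2 p hp q hq k1 k2 r
      · exact absurd ⟨p, ⟨hp, k1⟩, q, r, k2⟩ c
      · exact absurd ⟨q, ⟨hq, k2⟩, p, (Gph.reg_back hM ((gphC _ _ _ _ hM hL).2.1 _) hp r).2, k1⟩ c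
      · exact k1.trans k2.symm
    obtain ⟨X', k1, k2, k3⟩ := nodes bs h hB g2 hX'
    exact ⟨X', k1, by omega, fun c => disjoint_right.1 big_disj (k3 c) (.inr rfl), p, hp, q,
      reg_mono k3 hq, e⟩
  · rintro z ⟨X, k1, k2, k3, p, hp, q, hq, e⟩
    have k : (s.site {y}).bg B' X ⊆ s.bg B X := by
      rw [bg_site bs h hB hb hy hB' (fun v hv => (k1 hv).1) (by omega)]
      exact bg_anti bs h hB subset_union_left
    exact ⟨X, k1, by omega, fun c => k3 (k c), p, ⟨hp.1, .inl hp.2⟩, q, reg_mono k hq, e⟩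
  · have hN : s.N S ∪ s.N S' ⊆ s.Nd := union_subset hS.out hS'.out
    have hc : (s.N S ∪ s.N S').ncard ≤ 4 :=
      (ncard_union_le _ _).trans (Nat.add_le_add hS.card hS'.card)
    have off : ∀ X, s.N S ∪ s.N S' ⊆ X → Disjoint (S ∪ S') (s.bg B X) := fun X k =>
      disjoint_union_left.2 ⟨pk_off bs h hB d (subset_union_left.trans k),
        pk_off bs h hB d' (subset_union_right.trans k)⟩
    obtain ⟨w, w1, w2⟩ := hne
    have l : Link s.G (S ∪ S') y z := ((hS.conn.2 y hyS w w1).mono subset_union_left).trans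
      ((hS'.conn.2 w w2 z hz).mono subset_union_right)
    obtain ⟨r, hr, rfl⟩ := (T_sub h.hr.1 (hS'.sub hz)).1
    refine ⟨?_, ?_⟩
    · obtain ⟨p, hp, e⟩ := hy.1.1
      have k := off _ (subset_union_left (t := {y}))
      rw [← bg_site bs h hB hb hy hB' (fun v hv => (hN hv).1) (by omega)] at k
      exact ⟨_, hN, hc, disjoint_left.1 k (.inr hz), p, ⟨hp, .inr e⟩, r,
        reg_link hM hL k hp hr (.inl (e ▸ hyS)) (e ▸ l), rfl⟩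
    · rintro ⟨X, k1, k2, -, p, hp, q, hq, e⟩
      have k := off _ (subset_union_right (s := X))
      have hq' := (Gph.reg_back hM ((gphC _ _ _ _ hM hL).2.1 _) hp.1 hq).1
      exact ⟨_, union_subset k1 hN, (ncard_union_le _ _).trans (Nat.add_le_add k2 hc),
        disjoint_left.1 k (.inr hz), p, hp, r,
        ReflTransGen.trans (reg_mono (bg_anti bs h hB subset_union_left) hq)
          (reg_link hM hL k hq' hr (.inl (e ▸ hyS)) (e ▸ l)), rfl⟩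

open JEnc in
theorem patchJS (bs : BigS) (pt : PatchS) : PatchJS := by
  intro k q g'
  obtain ⟨g1, pt⟩ := pt k (q + 1) g'
  refine ⟨2 * g1, fun s g B y hg h hk hq hy hB => ?_⟩
  obtain ⟨i0, hi, hi'⟩ : ∃ i0 ≤ g1, ∀ p : Fin g × Fin g, y ∈ B p → p.1 < i0 ∨ i0 + g1 ≤ p.1 := by
    by_cases c : ∃ p : Fin g × Fin g, y ∈ B p ∧ p.1 < g1
    · obtain ⟨p, c1, c2⟩ := c
      refine ⟨g1, le_rfl, fun p' k => .inl ?_⟩
      by_contra e
      exact disjoint_left.1 (hB.2.2.1 p p' fun e' => e (e' ▸ c2)) c1 k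
    · exact ⟨0, Nat.zero_le _, fun p k => .inr (by simpa using not_lt.1 fun e => c ⟨p, k, e⟩)⟩
  let e1 : Fin g1 → Fin g := fun i => ⟨i0 + i, by omega⟩
  let e2 : Fin g1 → Fin g := fun i => ⟨0 + i, by omega⟩
  have bl := (bs MV s.G g B _ _ hB (D_sub h.hr.1)).2.2.2.2
  have b1 := (bl g1 (fun p => B (e1 p.1, e2 p.2))
    ⟨i0, 0, e1, e2, fun _ => rfl, fun _ => rfl, fun _ => rfl⟩).1
  have nd : ∀ f ∈ s.M.S, s.vx f ∈ s.H ∪ {y} → s.vx (s.M.a f) ∉ s.H ∪ {y} := fun f hf k1 k2 => by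
    have t : ∀ x ∈ s.H ∪ {y}, x ∉ s.Nd := fun x hx c => by
      obtain ⟨a, rfl⟩ := c.2
      obtain ⟨b, e⟩ := site_hr h hy hx
      cases e
    exact t _ k1 ((h.bip f hf).2 (t _ k2))
  obtain ⟨i1, j1, d1, d2, a1, a2, a3⟩ := pt g1 le_rfl s.Φ MV s.M s.vx (s.H ∪ {y}) _
    ⟨h.hm.ok, h.hm.lbl, h.hm.con, fun f hf => ⟨(h.hm.simple f hf).1, fun x hx k1 k2 =>
      (h.hm.simple f hf).2 x hx (fun c => k1 (.inl c)) fun c => k2 (.inl c)⟩, nd⟩ hk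
    (by
      rw [union_inter_distrib_right]
      refine (ncard_union_le _ _).trans (Nat.add_le_add hq ?_)
      exact (ncard_le_ncard inter_subset_left (finite_singleton y)).trans (ncard_singleton y).le)
    ⟨fun p v hv => by
      have k := D_sub h.hr.1 (b1.1 p hv)
      refine ⟨k.1, ?_⟩
      rintro (c | rfl)
      · exact k.2 c
      · have k1 := hi' _ hv
        have k2 := p.1.2
        simp only [e1] at k1
        omega, b1.2⟩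
  have bk : Blk B fun p : Fin g' × Fin g' => B (e1 (d1 p.1), e2 (d2 p.2)) :=
    ⟨i0 + i1, j1, e1 ∘ d1, e2 ∘ d2, fun i => by simp [e1, a1, add_assoc], fun j => by simp [e2, a2],
      fun _ => rfl⟩
  have b2 := (bl g' _ bk).1
  refine ⟨_, bk, fun p v hv => ?_, b2.2⟩
  have k1 := disjoint_left.1 (a3 p.1 p.2) hv
  refine ⟨(b2.1 p hv).1.imp_right fun c => ⟨c.1, ?_⟩, k1⟩
  rintro ((e | rfl) | e)
  exacts [c.2 (.inl e), k1 (y_rad hy), c.2 (.inr e)]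

open JEnc in
theorem posS (bs : BigS) : PosS := by
  rintro s g R B h sp hB ⟨U0, hF⟩ hR
  have hM := h.hm.ok
  have two : ∀ x ∈ s.H, ∀ x' ∈ s.H, (s.M.rad s.vx {x} ∩ s.M.rad s.vx {x'}).Nonempty → x = x' := by
    intro x hx x' hx' hne
    obtain ⟨v, ⟨p, hp, e, -⟩, p', hp', e', -⟩ := id hne
    refine farS _ _ s.M s.vx s.H U0 g R B hM h.hm.lbl hF hR ∅ ∅ {x} {x'} finite_empty (by simp)
      (empty_subset _) x ⟨⟨hx, rfl⟩, p, hp, e⟩ x' ⟨⟨hx', rfl⟩, p', hp', e'⟩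
      (fun v hv => hv ▸ Link.refl _ _ _) (fun v hv => hv ▸ Link.refl _ _ _) ?_ hne
    refine disjoint_left.2 fun z hz k => ?_
    have k1 := (((bs MV s.G g B _ _ hB (D_sub h.hr.1)).2.1 _).1 k).1.2
    rcases hz with rfl | rfl
    exacts [k1 hx, k1 hx']
  refine ⟨fun f hf f' hf' e => ?_, two⟩
  have nn : ∀ f ∈ s.M.fl s.vx s.H, s.vx (s.M.a f) = Sum.inl (s.far f) := fun f hf =>
    Sk.vx_far h hf.1 fun c => by
      obtain ⟨a, e1⟩ := c.2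
      obtain ⟨b, e2⟩ := h.hr.1 hf.2
      cases e1.trans e2.symm
  have e1 : s.vx (s.M.a f') = s.vx (s.M.a f) := by rw [nn f hf, nn f' hf', e]
  exact sp f hf f' hf'.1 (two _ hf'.2 _ hf.2 ⟨s.vx (s.M.a f),
    ⟨f', hf'.1, rfl, _, ReflTransGen.single (.inl rfl), e1⟩,
    f, hf.1, rfl, _, ReflTransGen.single (.inl rfl), rfl⟩) e1

end Pool.Agent.MP_9d78a0_co.gm

end MrgPart0

-- ======== part 1: formerly Pool.Agent.MP_9d78a0_co.gm.JTame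
section MrgPart1

/-! Basic facts on tame structures. -/

set_option autoImplicit false

namespace Pool.Agent.MP_9d78a0_co.gm

open Set Function Relation

namespace JTame

section sk

variable {s : Sk} {f : s.Φ}

theorem not_nd (h : s.Ok) (hf : f ∈ s.M.fl s.vx s.H) : s.vx f ∉ s.Nd := fun k => by
  obtain ⟨_, e⟩ := k.2
  obtain ⟨_, e'⟩ := h.hr.1 hf.2
  exact Sum.inl_ne_inr (e.trans e'.symm)

theorem far_nd (h : s.Ok) (hf : f ∈ s.M.fl s.vx s.H) : Sum.inl (s.far f) ∈ s.Nd :=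
  ⟨⟨_, h.hm.ok.a_mem hf.1, Sk.vx_far h hf.1 (not_nd h hf)⟩, _, rfl⟩

theorem far_po (h : s.Ok) (hf : f ∈ s.M.fl s.vx s.H) : s.far f ∈ s.Po :=
  ⟨_, hf.2, Sk.far_mem_nb h hf.1 (not_nd h hf)⟩

theorem far_c (h : s.Ok) (hf : f ∈ s.M.S) : s.far (s.M.c f) = s.far f := by
  rw [Sk.far, Sk.far, h.hm.lbl.ac h.hm.ok hf]

theorem rot_fl (h : s.Ok) (hf : f ∈ s.M.fl s.vx s.H) (i : ℕ) : s.M.rot^[i] f ∈ s.M.fl s.vx s.H :=
  have k := (rotS _ _ h.hm.ok f hf.1).1 i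
  ⟨h.hm.ok.vo_mem hf.1 k, (h.hm.lbl.of_vo h.hm.ok hf.1 k).symm ▸ hf.2⟩

theorem nb_of (h : s.Ok) (hf : f ∈ s.M.S) {v : W} (e : s.vx (s.M.a f) = Sum.inl v) :
    v ∈ s.nb (s.vx f) := ⟨e ▸ (h.hm.simple f hf).1, f, hf, Or.inl ⟨rfl, e⟩⟩

/-- the two nodes of a closed corner are adjacent to its link -/
theorem link_nb (h : s.Ok) (hf : f ∈ s.M.fl s.vx s.H) (q : s.Quad f) :
    s.far f ∈ s.nb (s.link f) ∧ s.far (s.M.rot f) ∈ s.nb (s.link f) ∧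
      s.link f ∈ s.M.rad s.vx s.H := by
  have hM := h.hm.ok
  have hL := h.hm.lbl
  have m1 := hM.a_mem hf.1
  have m2 := hM.b_mem m1
  have m3 := hM.a_mem m2
  have m4 := hM.b_mem m3
  have m5 := hM.a_mem m4
  have m6 := hM.b_mem m5
  simp only [Sk.Quad, iterate_succ, iterate_zero, comp, id] at q
  have e : s.M.b (s.M.a (s.M.b (s.M.a (s.M.b (s.M.a f))))) = s.M.a (s.M.b f) := by
    conv_rhs => rw [← q]
    rw [hM.bb (hM.a_mem m6), hM.aa m6]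
  refine ⟨nb_of h m3 ?_, ?_, f, hf.1, hf.2, _, ?_, rfl⟩
  · rw [hM.aa m2, hL.b hM m1, Sk.vx_far h hf.1 (not_nd h hf)]
  · rw [Sk.link, ← hL.b hM m3]
    refine nb_of h m4 ?_
    rw [← hL.b hM m5, e, ← hL.ac hM (hM.b_mem hf.1)]
    exact Sk.vx_far h (rot_fl h hf 1).1 (not_nd h (rot_fl h hf 1))
  · exact cl_step (r := s.M.rF) (cl_step (cl_one (Or.inl rfl)) (Or.inr rfl)) (Or.inl rfl)

/-- the number of flags at holes with far ends in a finite set -/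
theorem card_fl (h : s.Ok) (hs : s.Spk) {A : Set s.Φ} (hA : A ⊆ s.M.fl s.vx s.H) {K : Set W}
    (hK : K.Finite) (k : s.far '' A ⊆ K) : A.ncard ≤ 2 * ((s.H ∩ s.Vt).ncard * K.ncard) := by
  rcases A.eq_empty_or_nonempty with rfl | ⟨f0, -⟩
  · simp
  have : Nonempty s.Φ := ⟨f0⟩
  have fin : ((s.H ∩ s.Vt) ×ˢ K).Finite :=
    ((h.hm.ok.fin.image _).subset inter_subset_right).prod hK
  let F : s.Φ → MV × W := fun f => (s.vx f, s.far f)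
  have sub : A ⊆ invFunOn F A '' ((s.H ∩ s.Vt) ×ˢ K) ∪
      (s.M.c ∘ invFunOn F A) '' ((s.H ∩ s.Vt) ×ˢ K) := by
    intro f hf
    have m : F f ∈ (s.H ∩ s.Vt) ×ˢ K := ⟨⟨(hA hf).2, f, (hA hf).1, rfl⟩, k ⟨f, hf, rfl⟩⟩
    obtain ⟨g1, g2⟩ := invFunOn_pos (f := F) (s := A) ⟨f, hf, rfl⟩
    have e := Prod.mk.inj g2
    refine (hs _ (hA g1) f (hA hf).1 e.1.symm ?_).imp (fun q => ⟨_, m, q.symm⟩)
      fun q => ⟨_, m, q.symm⟩
    rw [Sk.vx_far h (hA hf).1 (not_nd h (hA hf)), Sk.vx_far h (hA g1).1 (not_nd h (hA g1)), e.2]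
  refine (ncard_le_ncard sub ((fin.image _).union (fin.image _))).trans
    ((ncard_union_le _ _).trans ?_)
  rw [two_mul, ← ncard_prod]
  exact add_le_add (ncard_image_le fin) (ncard_image_le fin)

end sk

theorem vv_fin {X : Pc} (h : X.Finite) : (VV X).Finite :=
  ((h.image Prod.fst).union (h.image Prod.snd)).subset fun _ ⟨p, hp, k⟩ =>
    k.imp (fun e => ⟨p, hp, e.symm⟩) fun e => ⟨p, hp, e.symm⟩

theorem vv_one {X : Pc} {u v : W} (e : X = {(u, v)}) : u ∈ VV X ∧ v ∈ VV X :=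
  e ▸ ⟨⟨(u, v), rfl, Or.inl rfl⟩, (u, v), rfl, Or.inr rfl⟩

section sh

variable {σ : AG} {t : Sh σ} (h : t.Ok)
include h

theorem phi_fl (j : t.ι) (i : ℕ) : t.φ j i ∈ t.s.M.fl t.s.vx t.s.H := rot_fl h.ok (h.hole j) i

theorem u_nd (j : t.ι) (i : ℕ) : Sum.inl (t.u j i) ∈ t.s.Nd := far_nd h.ok (phi_fl h j i)

theorem u_inj {j : t.ι} {i i' : ℕ} (hi : i ≤ t.m j) (hi' : i' ≤ t.m j) (e : t.u j i = t.u j i') :
    i = i' := by
  have v : ∀ k, t.s.vx (t.φ j k) = t.s.vx (t.φ0 j) := fun k =>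
    h.ok.hm.lbl.of_vo h.ok.hm.ok (h.hole j).1 ((rotS _ _ h.ok.hm.ok _ (h.hole j).1).1 k)
  have k := h.sep j j i hi i' hi'
  refine ((h.spoke _ (phi_fl h j i) _ (phi_fl h j i').1 ((v i').trans (v i).symm) ?_).elim
    (fun q => (k.2 q).2) fun q => absurd q k.1)
  rw [Sk.vx_far h.ok (phi_fl h j i).1 (not_nd h.ok (phi_fl h j i)),
    Sk.vx_far h.ok (phi_fl h j i').1 (not_nd h.ok (phi_fl h j i'))]
  exact congrArg _ e.symm

theorem lk_nb {j : t.ι} {i : ℕ} (hi : i < t.m j) : t.u j i ∈ t.s.nb (t.lk j i) ∧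
    t.u j (i + 1) ∈ t.s.nb (t.lk j i) ∧ t.lk j i ∈ t.s.M.rad t.s.vx t.s.H := by
  have := link_nb h.ok (phi_fl h j i) (h.quad j i hi).1
  rwa [show t.s.M.rot (t.φ j i) = t.φ j (i + 1) from (iterate_succ_apply' _ _ _).symm] at this

theorem kap_od {j : t.ι} {i : ℕ} (hi : i ≤ t.m j) : t.κ j i ⊆ Od := by
  rintro _ (rfl | ⟨l, hl, rfl⟩)
  · exact h.ok.od _ (u_nd h j i).1
  · exact (h.inner j i hi l hl).1

theorem mk_od : t.Mk ⊆ Od := by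
  rintro v (k | ⟨f, hf, rfl⟩)
  · obtain ⟨j, k | k⟩ := mem_iUnion.1 k
    exacts [kap_od h (Nat.zero_le _) k, kap_od h le_rfl k]
  · exact h.ok.od _ (far_nd h.ok hf.1).1

theorem mk_fin : t.Mk.Finite := by
  have k : ∀ j i, (t.κ j i).Finite := fun j i => (finite_singleton _).union
    (((finite_Iio (t.d j)).image (t.β j i)).subset fun _ ⟨l, hl, e⟩ => ⟨l, hl, e⟩)
  exact (finite_iUnion fun j => (k j _).union (k j _)).union
    ((h.ok.hm.ok.fin.subset fun f (hf : f ∈ t.Fx) => hf.1.1).image _)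

omit h in
theorem lane_vs {j : t.ι} {i : ℕ} {P : Set W} {v w : W} (k : t.Lane j i P v w) (n : v ≠ w)
    (hv : v ∈ Od) : v ∈ σ.vs (t.bag j i) ∧ w ∈ σ.vs (t.bag j i) := by
  refine ⟨?_, (k.2.2.2 k.2.2.1).1.resolve_right n.symm⟩
  rcases (k.1.2 v k.2.1 w k.2.2.1).cases_head with e | ⟨z, ⟨-, -, -, e⟩, -⟩
  · exact absurd e n
  · rcases e with e | e <;> obtain ⟨a, ha, e⟩ := mem_iUnion₂.1 e
    · exact mem_biUnion ha ⟨⟨_, e, Or.inl rfl⟩, hv⟩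
    · exact mem_biUnion ha ⟨⟨_, e, Or.inr rfl⟩, hv⟩

/-- a vertex of one of the two cuts of a bag that is not in the other cut at the same place lies
in an atom of the bag or of a cell -/
theorem node_atom {j : t.ι} {i : ℕ} (hi : i < t.m j) {v : W}
    (hv : v = t.u j i ∨ v = t.u j (i + 1)) :
    ∃ a, v ∈ σ.inc a ∧ ∀ k, a ∈ t.bag j k → k = i := by
  rcases (h.quad j i hi).2 with k | k
  · have := lane_vs (h.path j i hi k) (fun e => by have := u_inj h hi.le hi e; omega)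
      (h.ok.od _ (u_nd h j i).1)
    obtain ⟨a, ha, m⟩ := mem_iUnion₂.1 (show v ∈ σ.vs (t.bag j i) from
      hv.elim (fun e => e ▸ this.1) fun e => e ▸ this.2)
    exact ⟨a, m, fun k hk => by cases ha.symm.trans hk; rfl⟩
  · obtain ⟨⟨a, ha, m⟩, -⟩ := (h.solid _ k).2 (show v ∈ t.s.nb (t.lk j i) from
      hv.elim (fun e => e ▸ (lk_nb h hi).1) fun e => e ▸ (lk_nb h hi).2.1)
    exact ⟨a, m, fun k hk => by cases ha.symm.trans hk⟩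

theorem inner_atom (h0 : t.Λ = ∅) {j : t.ι} {i l : ℕ} (hi : i < t.m j) (hl : l < t.d j)
    (n : t.β j i l ≠ t.β j (i + 1) l) {v : W} (hv : v = t.β j i l ∨ v = t.β j (i + 1) l) :
    ∃ a, v ∈ σ.inc a ∧ ∀ k, a ∈ t.bag j k → k = i := by
  have := lane_vs (h.lane j i hi l hl (by simp [h0]) (by simp [h0])).1 n (h.inner j i hi.le l hl).1
  obtain ⟨a, ha, m⟩ := mem_iUnion₂.1 (show v ∈ σ.vs (t.bag j i) from
    hv.elim (fun e => e ▸ this.1) fun e => e ▸ this.2)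
  exact ⟨a, m, fun k hk => by cases ha.symm.trans hk; rfl⟩

theorem left (h0 : t.Λ = ∅) (hm : t.Mk ⊆ σ.vs t.rest) (j : t.ι) :
    ∀ i ≤ t.m j, ∀ v ∈ t.κ j i, ∃ a, v ∈ σ.inc a ∧ ∀ k, a ∈ t.bag j k → k < i := by
  intro i
  induction i with
  | zero =>
    intro _ v hv
    obtain ⟨a, ha, m⟩ := mem_iUnion₂.1 (hm (Or.inl (mem_iUnion.2 ⟨j, Or.inl hv⟩)))
    exact ⟨a, m, fun k hk => by cases ha.symm.trans hk⟩
  | succ i ih =>
    rintro hi _ (rfl | ⟨l, hl, rfl⟩)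
    · exact (node_atom h hi (Or.inr rfl)).imp fun a k => ⟨k.1, fun _ q => by have := k.2 _ q; omega⟩
    · by_cases e : t.β j i l = t.β j (i + 1) l
      · exact (ih (by omega) _ (Or.inr ⟨l, hl, e⟩)).imp fun a k =>
          ⟨k.1, fun _ q => by have := k.2 _ q; omega⟩
      · exact (inner_atom h h0 hi hl e (Or.inr rfl)).imp fun a k =>
          ⟨k.1, fun _ q => by have := k.2 _ q; omega⟩

theorem right (h0 : t.Λ = ∅) (hm : t.Mk ⊆ σ.vs t.rest) (j : t.ι) :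
    ∀ i ≤ t.m j, ∀ v ∈ t.κ j i, ∃ a, v ∈ σ.inc a ∧ ∀ k, a ∈ t.bag j k → i ≤ k := by
  intro i hi
  induction hi using Nat.decreasingInduction with
  | self =>
    intro v hv
    obtain ⟨a, ha, m⟩ := mem_iUnion₂.1 (hm (Or.inl (mem_iUnion.2 ⟨j, Or.inr hv⟩)))
    exact ⟨a, m, fun k hk => by cases ha.symm.trans hk⟩
  | of_succ i hi ih =>
    rintro _ (rfl | ⟨l, hl, rfl⟩)
    · exact (node_atom h hi (Or.inl rfl)).imp fun a k => ⟨k.1, fun _ q => (k.2 _ q).ge⟩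
    · by_cases e : t.β j i l = t.β j (i + 1) l
      · exact (ih _ (Or.inr ⟨l, hl, e.symm⟩)).imp fun a k =>
          ⟨k.1, fun _ q => by have := k.2 _ q; omega⟩
      · exact (inner_atom h h0 hi hl e (Or.inl rfl)).imp fun a k => ⟨k.1, fun _ q => (k.2 _ q).ge⟩

theorem bd_bag (h0 : t.Λ = ∅) (hm : σ.vs t.rest ⊆ t.Mk) (j : t.ι) (i : ℕ) :
    σ.bd (t.bag j i) ⊆ t.κ j i ∪ t.κ j (i + 1) := by
  rintro v ⟨⟨a, ha, m⟩, a', ha', m'⟩
  refine (h.share a v ⟨m, by simp [h0]⟩ ?_).2.1 j i ha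
  by_cases e : t.own a' = none
  · rcases hm (mem_biUnion (show a' ∈ t.rest from e) m') with k | ⟨f, hf, rfl⟩
    · obtain ⟨j', k | k⟩ := mem_iUnion.1 k
      exacts [Or.inr (Or.inl ⟨j', 0, Nat.zero_le _, k⟩), Or.inr (Or.inl ⟨j', _, le_rfl, k⟩)]
    · exact Or.inl (far_nd h.ok hf.1).1
  · exact Or.inr (Or.inr ⟨a', fun q => ha' (q.trans ha), e, m'⟩)

omit h in
theorem mem_rl {j : t.ι} {i : ℕ} {v : W} : v ∈ t.rl j i ↔ v ∈ t.κ j i ∪ t.κ j (i + 1) := by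
  simp only [Sh.rl, Sh.κ, List.mem_append, List.mem_cons, List.mem_map, List.mem_range, mem_union,
    mem_singleton_iff, mem_ofPred_eq]

theorem po_cases {v : W} (hv : v ∈ t.s.Po) :
    v ∈ t.s.far '' t.Fx ∨ ∃ j, ∃ i ≤ t.m j, v = t.u j i := by
  obtain ⟨y, hy, hv⟩ := hv
  obtain ⟨g, hg, e, -, rfl⟩ := Sk.exists_far h.ok hv
  by_cases k : ∀ j, ∀ i ≤ t.m j, g ≠ t.φ j i ∧ g ≠ t.s.M.c (t.φ j i)
  · exact Or.inl ⟨g, ⟨⟨hg, e ▸ hy⟩, k⟩, rfl⟩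
  · push Not at k
    obtain ⟨j, i, hi, k⟩ := k
    refine Or.inr ⟨j, i, hi, ?_⟩
    by_cases q : g = t.φ j i
    · rw [q]; rfl
    · rw [k q, far_c h.ok (phi_fl h j i).1]; rfl

theorem rim_nb {y : MV} (hy : y ∈ t.s.Rm) : t.s.nb y ⊆ t.s.Po := by
  intro v hv
  obtain ⟨g, hg, e, -⟩ := Sk.exists_far h.ok hv
  obtain ⟨j, i, hi, rfl⟩ := h.rim y ⟨hy, g, hg, e⟩
  have n : t.s.vx g ∉ t.s.Nd := fun k => by
    obtain ⟨_, e1⟩ := k.2
    obtain ⟨_, e2⟩ := h.ok.hr.2.1 hy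
    exact Sum.inl_ne_inr (e1.trans (e.trans e2.symm))
  have l : (t.s.rts g).length = 2 := by rw [Sk.rts_length, (h.ok.deg g hg).2 (e ▸ hy)]
  have st := Sk.rts_set h.ok hg n
  obtain ⟨a, b, q⟩ := List.length_eq_two.1 l
  rw [q, e] at st
  obtain ⟨k1, k2, -⟩ := lk_nb h hi
  rw [← st] at hv k1 k2
  have ne : t.u j i ≠ t.u j (i + 1) := fun e => by have := u_inj h hi.le hi e; omega
  simp only [mem_ofPred_eq, List.mem_cons, List.not_mem_nil, or_false] at hv k1 k2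
  have : v = t.u j i ∨ v = t.u j (i + 1) := by grind
  exact this.elim (fun e => e ▸ far_po h.ok (phi_fl h j i)) fun e => e ▸ far_po h.ok (phi_fl h j _)

theorem sg_sub : t.Sg ⊆ t.s.M.S := by
  rintro f (k | ⟨j, rfl | rfl | rfl | rfl⟩)
  exacts [k.1.1, (phi_fl h j _).1, h.ok.hm.ok.c_mem (phi_fl h j _).1, (phi_fl h j _).1,
    h.ok.hm.ok.c_mem (phi_fl h j _).1]

theorem sg_card : t.Sg.ncard ≤
    2 * ((t.s.H ∩ t.s.Vt).ncard * t.Mk.ncard) + 4 * Fintype.card t.ι := by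
  refine (ncard_union_le _ _).trans (add_le_add
    (card_fl h.ok h.spoke (fun _ k => k.1) (mk_fin h) subset_union_right) ?_)
  let F : t.ι × Fin 4 → t.s.Φ := fun q => ![t.φ q.1 0, t.s.M.c (t.φ q.1 0), t.φ q.1 (t.m q.1),
    t.s.M.c (t.φ q.1 (t.m q.1))] q.2
  refine (ncard_le_ncard (t := F '' univ) ?_ (toFinite _)).trans
    ((ncard_image_le (toFinite _)).trans ?_)
  · rintro f ⟨j, rfl | rfl | rfl | rfl⟩
    exacts [⟨(j, 0), trivial, rfl⟩, ⟨(j, 1), trivial, rfl⟩, ⟨(j, 2), trivial, rfl⟩,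
      ⟨(j, 3), trivial, rfl⟩]
  · simp [ncard_univ, mul_comm]

end sh

end JTame

open JTame in
theorem tameS : TameS := by
  intro p
  refine ⟨(p.Ms.map Ty.d).sum + (p.Ms.map Ty.K).sum + (2 * (p.q * p.c) + 4 * p.Ms.card),
    fun ⟨σ, t, ty, nm, h⟩ => ?_⟩
  dsimp only
  have ok := h.ok
  have tm : ∀ j, ty j ∈ p.Ms := fun j => h.types ▸ Multiset.mem_map_of_mem _ (Finset.mem_univ j)
  have td : ∀ j, (ty j).d = t.d j := fun j => (h.fits j 0 (ok.len j)).dep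
  have cd : Fintype.card t.ι = p.Ms.card := by rw [← h.types]; simp
  have b1 : ∀ j, (ty j).d ≤ (p.Ms.map Ty.d).sum := fun j =>
    Multiset.single_le_sum (fun _ _ => Nat.zero_le _) _ (Multiset.mem_map_of_mem _ (tm j))
  have b2 : ∀ j, (ty j).K ≤ (p.Ms.map Ty.K).sum := fun j =>
    Multiset.single_le_sum (fun _ _ => Nat.zero_le _) _ (Multiset.mem_map_of_mem _ (tm j))
  have m1 : t.Mk ⊆ σ.vs t.rest := fun v hv => by
    obtain ⟨a, ha, e, -⟩ := h.pex v hv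
    exact mem_biUnion ha ⟨(vv_one e).1, mk_od ok hv⟩
  have m2 : σ.vs t.rest ⊆ t.Mk := fun v hv => by
    obtain ⟨a, ha, ⟨q, hq, e⟩, ⟨_, o⟩⟩ := mem_iUnion₂.1 hv
    obtain ⟨w, hw, e'⟩ := h.pend a ha
    rw [e'] at hq
    obtain rfl : q = _ := hq
    rcases e with rfl | rfl
    · exact hw
    · cases o
  refine ⟨fun j => ⟨tm j, td j, ?_⟩, by omega, ok.ok.hm.ok.fin.subset (sg_sub ok), ?_, mk_fin ok,
    fun v hv w hw e => ?_, fun v hv => ?_, ?_, m1, m2, fun y hy => ?_, fun Sd y hy ρ hρ => ?_,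
    fun j i hi => ⟨⟨⟨?_, σ, t.bag j i, h.rob, (h.fits j i hi).atoms, (h.fits j i hi).wid, rfl,
      fun v hv => mem_rl.2 (bd_bag ok h.lam m2 j i hv), fun v hv => ?_⟩, (h.fits j i hi).forb⟩,
      bd_bag ok h.lam m2 j i, u_nd ok j _, u_nd ok j _, (lk_nb ok hi).1, (lk_nb ok hi).2.1,
      (lk_nb ok hi).2.2, ?_⟩,
    fun j i hi i' hi' => u_inj ok hi hi', fun v hv => po_cases ok hv, fun y hy => ?_,
    fun y hy => rim_nb ok hy⟩
  · have := b1 j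
    have := td j
    omega
  · have := sg_card ok
    have := Nat.mul_le_mul h.holes h.marks
    omega
  · obtain ⟨a, -, e1, k⟩ := h.pex v hv
    obtain ⟨a', -, e2, -⟩ := h.pex w hw
    rw [k a' (e ▸ (vv_one e2).2), e1] at e2
    exact (Prod.mk.inj (singleton_injective e2)).1
  · obtain ⟨a, -, e, -⟩ := h.pex v hv
    exact h.names a _ (vv_one e).2
  · rcases t.rest.eq_empty_or_nonempty with e | ⟨a0, -⟩
    · rw [e, ncard_empty]; exact Nat.zero_le _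
    have : Nonempty σ.ε := ⟨a0⟩
    choose! F F1 F2 F3 using h.pex
    refine (ncard_le_ncard (t := F '' t.Mk) (fun a ha => ?_) ((mk_fin ok).image _)).trans
      ((ncard_image_le (mk_fin ok)).trans h.marks)
    obtain ⟨v, hv, e⟩ := h.pend a ha
    exact ⟨v, hv, (F3 v hv a (vv_one e).2).symm⟩
  · obtain ⟨a, e, -⟩ := h.cell y hy
    exact ⟨a, e, by simp [h.lam]⟩
  · obtain ⟨a, e, k⟩ := h.cell y hy.1
    rw [e, AG.un, biUnion_singleton]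
    exact k ρ hρ
  · simp [Sh.letter, Sh.rl, td j]
    omega
  · rcases mem_rl.1 hv with k | k
    · refine ⟨kap_od ok hi.le k, fun m => ?_⟩
      obtain ⟨a, ha, m⟩ := mem_iUnion₂.1 m
      obtain ⟨a', m', q⟩ := left ok h.lam m1 j i hi.le v k
      exact ⟨⟨a, ha, m⟩, a', fun r => lt_irrefl _ (q _ r), m'⟩
    · refine ⟨kap_od ok hi k, fun m => ?_⟩
      obtain ⟨a, ha, m⟩ := mem_iUnion₂.1 m
      obtain ⟨a', m', q⟩ := right ok h.lam m1 j (i + 1) hi v k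
      exact ⟨⟨a, ha, m⟩, a', fun r => Nat.not_succ_le_self _ (q _ r), m'⟩
  · refine (wdS _ _ σ.inc fun a => (vv_fin (σ.pfin a)).subset inter_subset_left).1 _ _ _ _
      Subset.rfl ?_ (h.fits j i hi).wid
    have := b2 j
    omega
  · obtain ⟨j, i, hi, rfl⟩ := ok.rim y hy
    exact (lk_nb ok hi).2.2

end Pool.Agent.MP_9d78a0_co.gm

end MrgPart1

-- ======== part 2: formerly Pool.Agent.MP_9d78a0_co.gm.HBas
section MrgPart2

/-! Block H: small facts on maps, and the input of the loop. -/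

set_option autoImplicit false

namespace Pool.Agent.MP_9d78a0_co.gm

open Set Function FM

namespace HBas

variable {s : Sk} {f p : s.Φ} {x y : MV} {u v : W} {K K' X S : Set MV}

theorem inr_nd (hy : y ∈ range (Sum.inr : ℕ → MV)) : y ∉ s.Nd := by
  rintro ⟨-, v, rfl⟩
  obtain ⟨n, e⟩ := hy
  cases e

theorem ok0 (h : s.Ok) : s.Ok0 := by
  refine ⟨h.hm, h.ps, h.hr, h.od, h.bip, fun f hf k1 k2 => ?_, fun y hy => ?_⟩
  · by_cases c : s.vx f ∈ s.Rm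
    · rw [(h.deg f hf).2 c]; omega
    · refine (h.deg f hf).1 ⟨⟨⟨f, hf, rfl⟩, ?_⟩, fun k => k.elim k2 c⟩
      rcases e : s.vx f with v | n
      exacts [(k1 ⟨⟨f, hf, rfl⟩, v, e.symm⟩).elim, ⟨n, rfl⟩]
  · obtain ⟨f, hf, q, rfl⟩ := h.rim y hy
    obtain ⟨-, a1, a2, a3, -, -, -, a4⟩ := (fSkS s h).2.1 f hf
    refine ⟨s.vx f, ⟨hf.2, f, hf.1, rfl⟩,
      ⟨f, hf.1, rfl, _, Cy.orb_p (Cy.orb_q (Cy.orb_p (Cy.orb_self ..))), rfl⟩, ?_⟩
    rw [(a4 q).2.2.2 hy.1]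
    rintro v (rfl | rfl)
    exacts [a1, a3 ▸ ((fSkS s h).2.1 _ a2).2.1]

theorem tv_eq (h : s.Ok0) : s.tv = s.T ∪ (s.Rm ∩ s.Vt) := by
  refine subset_antisymm (fun x hx => ?_) (union_subset (JEnc.T_sub h.hr.1)
    fun x hx => ⟨hx.2, fun k => disjoint_left.1 h.hr.2.2 k hx.1⟩)
  rcases x with v | n
  · exact Or.inl (Or.inl ⟨hx.1, v, rfl⟩)
  · by_cases c : Sum.inr n ∈ s.Rm
    exacts [Or.inr ⟨c, hx.1⟩, Or.inl (Or.inr ⟨⟨hx.1, n, rfl⟩, fun k => k.elim hx.2 c⟩)]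

theorem nb_rad (h : s.Ok0) (hv : v ∈ s.nb x) : Sum.inl v ∈ s.M.rad s.vx {x} :=
  let ⟨f, hf, e1, e2⟩ := exists_adj h.hm.ok hv
  ⟨f, hf, e1, _, Cy.orb_p (Cy.orb_self ..), e2⟩

theorem po_rh (h : s.Ok0) (hv : v ∈ s.Po) : Sum.inl v ∈ s.RH :=
  let ⟨_, hx, k⟩ := hv; rad_mono (singleton_subset_iff.2 hx) (nb_rad h k)

theorem rm_rh (h : s.Ok0) (hy : y ∈ s.Rm ∩ s.Vt) : y ∈ s.RH :=
  let ⟨_, hx, k, _⟩ := h.rim y hy; rad_mono (singleton_subset_iff.2 hx.1) k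

theorem far_eq (h : s.Ok0) (hf : f ∈ s.M.S) (hx : s.vx f ∉ s.Nd) :
    s.vx (s.M.a f) = Sum.inl (s.far f) := by
  obtain ⟨-, v, e⟩ : s.vx (s.M.a f) ∈ s.Nd := by_contra fun k => hx ((h.bip f hf).2 k)
  rw [Sk.far, ← e]; rfl

theorem adj_nd (h : s.Ok0) (a : s.G.Adj x y) : x ∈ s.Vt ∧ (x ∈ s.Nd ↔ y ∉ s.Nd) := by
  obtain ⟨f, hf, rfl, rfl⟩ := exists_adj h.hm.ok a
  exact ⟨⟨f, hf, rfl⟩, h.bip f hf⟩

theorem dp_good (h : s.Ok0) (hx : x ∈ s.Dp) : x ∈ s.Good := by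
  refine ⟨hx.1, ?_⟩
  rintro ⟨f, hf, k, g, hg, rfl⟩
  have g1 := h.hm.ok.fo_mem hf hg
  have e := far_eq h g1 (inr_nd hx.1.1.2)
  exact hx.2 (s.far g) ⟨e ▸ (h.hm.simple g g1).1, g, g1, Or.inl ⟨rfl, e⟩⟩
    ⟨f, hf, k, _, Cy.orb_p hg, e⟩

theorem corner (h : s.Ok0) (hf : f ∈ s.M.S) :
    s.vx (s.M.a (s.M.rot f)) ∈ s.M.rad s.vx {s.vx (s.M.a f)} := by
  have hM := h.hm.ok
  refine ⟨_, hM.a_mem hf, rfl, s.M.a (s.M.b f), ?_, (h.hm.lbl.ac hM (hM.b_mem hf)).symm⟩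
  have : s.M.a (s.M.a f) ∈ s.M.fo (s.M.a f) := Cy.orb_p (Cy.orb_self ..)
  rw [hM.aa hf] at this
  exact Cy.orb_p (Cy.orb_q this)

theorem nb_idx (h : s.Ok0) (hf : f ∈ s.M.S) (a : s.G.Adj (s.vx f) y) :
    ∃ i < (s.M.vo f).ncard / 2, y = s.vx (s.M.a (s.M.rot^[i] f)) := by
  have hM := h.hm.ok
  obtain ⟨g, hg, e, rfl⟩ := exists_adj hM a
  obtain ⟨r1, -, -, -, r2, -⟩ := rotS _ _ hM f hf
  obtain ⟨i, hi, k | k⟩ := r2 g ((h.hm.lbl f hf g hg).1 e.symm)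
  exacts [⟨i, hi, by rw [k]⟩, ⟨i, hi, by rw [k, h.hm.lbl.ac hM (hM.vo_mem hf (r1 i))]⟩]

theorem nb_card (h : s.Ok0) (hy : y ∈ s.tv \ s.Nd) : (s.nb y).Finite ∧ (s.nb y).ncard ≤ 3 := by
  obtain ⟨⟨⟨f, hf, rfl⟩, hH⟩, hn⟩ := hy
  have d := h.deg f hf hn hH
  have k : s.nb (s.vx f) ⊆ (fun i => s.far (s.M.rot^[i] f)) '' Iio 3 := fun v hv => by
    obtain ⟨i, hi, e⟩ := nb_idx h hf hv
    exact ⟨i, show i < 3 by omega, congrArg nodeOf e.symm⟩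
  exact ⟨((finite_Iio 3).image _).subset k, (ncard_le_ncard k ((finite_Iio 3).image _)).trans
    ((ncard_image_le (finite_Iio 3)).trans (by rw [← Finset.coe_range, ncard_coe_finset]; simp))⟩

theorem nb_face (h : s.Ok0) (hy : y ∈ s.tv \ s.Nd) (hu : u ∈ s.nb y) (hv : v ∈ s.nb y) :
    Sum.inl v ∈ s.M.rad s.vx {Sum.inl u} := by
  have hM := h.hm.ok
  obtain ⟨f, hf, rfl, e⟩ := exists_adj hM hu
  have d := h.deg f hf hy.2 hy.1.2
  obtain ⟨i, hi, k⟩ := nb_idx h hf hv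
  rw [k, ← e]
  obtain rfl | rfl | rfl : i = 0 ∨ i = 1 ∨ i = 2 := by omega
  · exact sub_rad (singleton_subset_iff.2 ⟨_, hM.a_mem hf, rfl⟩) rfl
  · exact corner h hf
  · have := corner h (hM.vo_mem hf ((rotS _ _ hM f hf).1 2))
    have e3 := (fRotS _ _ f hM hf).2.1
    rw [show (s.M.vo f).ncard / 2 = 2 + 1 by omega, iterate_succ_apply'] at e3
    rw [e3] at this
    exact rad_symm hM this

theorem rg_sub (h : s.Ok0) (hp : p ∈ s.M.S) (d : Disjoint (s.vx '' s.rg K p \ K) K') :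
    s.rg K p ⊆ s.rg K' p := fun _ hz =>
  mem_reg.2 ((mem_reg.1 hz).ind (p := fun z => s.M.R univ (s.M.ind s.vx K)ᶜ p z ∧
    s.M.R univ (s.M.ind s.vx K')ᶜ p z) h.hm.ok hp ⟨.rfl, .rfl⟩ (fun _ _ k => ⟨k.1.b, k.2.b⟩)
    (fun _ _ _ k => ⟨k.1.a trivial, k.2.a trivial⟩) fun z hz n k => ⟨k.1.c n, k.2.c fun m => n
      ⟨hz, by_contra fun c => disjoint_left.1 d ⟨⟨z, mem_reg.2 k.1, rfl⟩, c⟩ m.2.1,
        by_contra fun c => disjoint_left.1 d ⟨⟨_, mem_reg.2 (k.1.a trivial), rfl⟩, c⟩ m.2.2⟩⟩).2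

theorem rg_eq (h : s.Ok0) (hp : p ∈ s.M.S) (k : f ∈ s.rg K p) : s.rg K f = s.rg K p := by
  have hM := h.hm.ok
  have c : s.M.Cl (s.M.ind s.vx K) := fun z hz m => ⟨⟨hM.a_mem hz, m.2.2, by
    rw [hM.aa hz]; exact m.2.1⟩, hM.c_mem hz, by rw [h.hm.lbl.c hM hz]; exact m.2.1, by
      rw [h.hm.lbl.ac hM hz]; exact m.2.2⟩
  have k1 := mem_reg.1 k
  exact subset_antisymm (fun z hz => mem_reg.2 (k1.trans (mem_reg.1 hz))) fun z hz =>
    mem_reg.2 ((k1.symm hM cl_univ (c.compl hM) hp).trans (mem_reg.1 hz))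

variable {g g' : ℕ} {B : Fin g × Fin g → Set MV} {B' : Fin g' × Fin g' → Set MV}

theorem nodes (h : s.Ok0) (hB : s.Grid B) (hg : 2 ≤ g) (hX : X ⊆ s.tv) :
    ∃ X' ⊆ s.Nd, X'.ncard ≤ 3 * X.ncard ∧ s.bg B X' ⊆ s.bg B X := by
  classical
  have hf : X.Finite := (h.hm.ok.fin.image _).subset fun v hv => (hX hv).1
  have nd : ∀ x y, x ∉ s.Nd → s.G.Adj x y → y ∈ s.Nd := fun x y c e =>
    by_contra fun k => c ((adj_nd h e).2.2 k)
  obtain ⟨F, hF⟩ : ∃ F : MV → Set MV, ∀ x, F x = if x ∈ s.Nd then {x} else Sum.inl '' s.nb x :=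
    ⟨_, fun _ => rfl⟩
  refine ⟨⋃ x ∈ X, F x, iUnion₂_subset fun x hx => ?_, ?_,
    JEnc.big_sub bigS hB (JEnc.D_sub h.hr.1) ?_⟩
  · rw [hF]
    split_ifs with c
    exacts [singleton_subset_iff.2 c, by rintro _ ⟨v, hv, rfl⟩; exact nd _ _ c hv]
  · have := hf.toFinset.set_ncard_biUnion_le F
    simp only [Finite.mem_toFinset] at this
    refine this.trans ((Finset.sum_le_card_nsmul _ _ 3 fun x hx => ?_).trans ?_)
    · rw [hF]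
      split_ifs with c
      · simp
      · rw [ncard_image_of_injective _ Sum.inl_injective]
        exact (nb_card h ⟨hX (hf.mem_toFinset.1 hx), c⟩).2
    · rw [ncard_eq_toFinset_card X hf, smul_eq_mul, mul_comm]
  · refine disjoint_left.2 fun x hx k => ?_
    by_cases c : x ∈ s.Nd
    · exact disjoint_right.1 big_disj hx (mem_biUnion k (by rw [hF, if_pos c]; rfl))
    · obtain ⟨u, hu, e⟩ := JEnc.big_adj bigS hB (JEnc.D_sub h.hr.1) hg hx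
      obtain ⟨-, v, rfl⟩ := nd _ _ c e
      exact disjoint_right.1 big_disj hu (mem_biUnion k (by rw [hF, if_neg c]; exact ⟨v, e, rfl⟩))

theorem holes (h : s.Ok0) (hK : K ⊆ s.tv) :
    (s.rg K '' s.M.fl s.vx s.H).ncard ≤ (s.H ∩ s.Vt).ncard ∧ (s.M.Full s.vx s.H K ↔
      s.gn K = s.M.eg ∧ (s.rg K '' s.M.fl s.vx s.H).ncard = (s.H ∩ s.Vt).ncard) := by
  have hM := h.hm.ok
  have fin : (s.H ∩ s.Vt).Finite := (hM.fin.image _).subset inter_subset_right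
  obtain ⟨ψ, hψ⟩ : ∃ ψ : MV → Set s.Φ, ∀ p ∈ s.M.fl s.vx s.H, ψ (s.vx p) = s.rg K p := by
    refine ⟨fun x => ⋃ p ∈ s.M.fl s.vx {x}, s.rg K p, fun p hp => subset_antisymm
      (iUnion₂_subset fun q hq => (rg_eq h hp.1 (mem_reg.2 ((R_of_vx hM h.hm.lbl hp.1 hq.1
        (fun k => (hK k).2 hp.2) hq.2.symm).mono (empty_subset _) subset_rfl))).subset)
      (subset_biUnion_of_mem (u := fun p => s.rg K p) ⟨hp.1, rfl⟩)⟩
  have e : s.rg K '' s.M.fl s.vx s.H = ψ '' (s.H ∩ s.Vt) := by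
    ext A
    constructor
    · rintro ⟨p, hp, rfl⟩
      exact ⟨_, ⟨hp.2, p, hp.1, rfl⟩, hψ p hp⟩
    · rintro ⟨_, ⟨k, p, hp, rfl⟩, rfl⟩
      exact ⟨p, ⟨hp, k⟩, (hψ p ⟨hp, k⟩).symm⟩
  rw [e]
  refine ⟨ncard_image_le fin, and_congr Iff.rfl ⟨fun k => InjOn.ncard_image ?_, fun k => ?_⟩⟩
  · rintro _ ⟨k1, p, hp, rfl⟩ _ ⟨k2, q, hq, rfl⟩ e
    rw [hψ p ⟨hp, k1⟩, hψ q ⟨hq, k2⟩] at e
    exact k p hp q hq k1 k2 (show q ∈ s.rg K p from e ▸ mem_reg.2 .rfl)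
  · intro p hp q hq k1 k2 m
    exact injOn_of_ncard_image_eq k fin ⟨k1, p, hp, rfl⟩ ⟨k2, q, hq, rfl⟩
      (by rw [hψ p ⟨hp, k1⟩, hψ q ⟨hq, k2⟩, rg_eq h hp m])

theorem meet (hB : s.Grid B) (i j i' j' : Fin g) : (Cross B i j ∩ Cross B i' j').Nonempty :=
  let ⟨z, hz⟩ := (hB.2.1 (i, j')).1; ⟨z, JWf.row_sub _ _ _ hz, JWf.col_sub _ _ _ hz⟩

theorem block (h : s.Ok0) (hB : s.Grid B) (hb : Blk B B') (hg : 3 ≤ g') : s.Grid B' ∧ SubG B B' ∧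
    ∀ S, s.Pk S → (∃ i j, Cross B i j ⊆ S) → ∃ i j, Cross B' i j ⊆ S := by
  have k := ((bigS _ _ _ B _ _ hB subset_rfl).2.2.2.2 g' B' hb).1
  obtain ⟨i0, j0, e1, e2, a1, a2, a3⟩ := hb
  have i1 : Injective e1 := fun i i' k => Fin.ext (by have := a1 i; have := a1 i'; omega)
  have i2 : Injective e2 := fun i i' k => Fin.ext (by have := a2 i; have := a2 i'; omega)
  refine ⟨k, ⟨e1, e2, i1, i2, fun i j v hv => by rwa [a3] at hv⟩, ?_⟩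
  rintro S hS ⟨i, j, c⟩
  obtain ⟨i', j', d⟩ := JWf.miss2 hB i1 i2 ((h.hm.ok.fin.image _).subset fun v hv => (hS.out hv).1)
    (hS.card.trans_lt (by omega : 2 < g'))
  obtain ⟨z, z1, z2⟩ := meet hB i j (e1 i') (e2 j')
  have key : ∀ y, Link s.G (Cross B (e1 i') (e2 j')) z y → y ∈ S := fun y l => by
    induction l with
    | refl => exact c z1
    | tail _ e ih => exact by_contra fun n => disjoint_left.1 d e.2.1 ⟨n, _, ih, e.2.2⟩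
  refine ⟨i', j', Subset.trans (iUnion_subset fun l => ?_)
    fun y hy => key y ((JWf.cross_conn hB _ _).2 z z2 y hy)⟩
  rw [a3, a3]
  exact union_subset (JWf.row_sub _ _ _) (JWf.col_sub _ _ _)

variable {σ : AG} {r : Rw σ}

theorem dep {k q n D l : ℕ} (h : r.Ok k q n D l) : r.Dep D := by
  intro f hf χ t
  have hM := h.ok.hm.ok
  have hL := h.ok.hm.lbl
  obtain ⟨f', h1, m, hm, h2⟩ := (arcS _ _ f hM hf.1).2.2.2 χ t
  have s1 := hM.vo_mem hf.1 h1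
  have e1 := hM.vo_eq hf.1 h1
  have e2 := hL.of_vo hM hf.1 h1
  obtain ⟨r1, -, -, -, r2, -⟩ := rotS _ _ hM f' s1
  rw [e1] at r1 r2
  have key : ∀ c a b, (∀ i < (r.s.M.vo f).ncard / 2, (if i < m then 0 else 1 : ZMod 2) = c ↔
      a ≤ i ∧ i < b) → b ≤ (r.s.M.vo f).ncard / 2 → r.s.clr f χ c = r.arc f' a b := by
    intro c a b k hb
    ext v
    constructor
    · rintro ⟨g, ⟨g1, g2⟩, rfl⟩
      obtain ⟨i, hi, rfl | rfl⟩ := r2 g g1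
      · exact ⟨i, ((k i hi).1 (h2 i hi ▸ g2)).1, ((k i hi).1 (h2 i hi ▸ g2)).2, rfl⟩
      · rw [t.1 _ (r1 i), h2 i hi] at g2
        exact ⟨i, ((k i hi).1 g2).1, ((k i hi).1 g2).2,
          congrArg nodeOf (hL.ac hM (hM.vo_mem hf.1 (r1 i))).symm⟩
    · rintro ⟨i, i1, i2, rfl⟩
      exact ⟨_, ⟨r1 i, (h2 i (by omega)).trans ((k i (by omega)).2 ⟨i1, i2⟩)⟩, rfl⟩
  have dg : r.dg f' = (r.s.M.vo f).ncard / 2 := by rw [Rw.dg, e1]
  obtain ⟨U, u1, u2⟩ := h.depth f' ⟨s1, e2 ▸ hf.2⟩ m (dg ▸ hm)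
  rw [e2] at u1 u2
  refine ⟨U, u1, le_trans (ncard_le_ncard ?_ ?_) u2⟩
  · rw [Rw.dcut, key 0 0 m (fun i _ => by split_ifs <;> simp [*]) hm,
      key 1 m (r.dg f') (fun i hi => by split_ifs <;> simp [*]; omega) dg.le]
    exact sdiff_subset_sdiff_left inter_subset_left
  · refine (Finite.inter_of_left (Finite.union ?_ ?_) _).sdiff
    · exact (hv_fin σ.inc_fin U).subset fun v hv => by simpa [AG.vs, gm.hv] using hv
    · exact ((finite_Iio m).image fun i => r.s.far (r.s.M.rot^[i] f')).subset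
        fun v ⟨i, _, i2, e⟩ => ⟨i, i2, e⟩

theorem off_lam {k q D l : ℕ} {x : MV} (h : r.Co k q D l) (hx : x ∈ r.s.Dp) (hv : v ∈ r.s.nb x) :
    v ∉ r.Λ := fun c =>
  hx.2 v hv (po_rh h.ok0 (h.lamn v c (adj_nd h.ok0 (SimpleGraph.Adj.symm hv)).1))

theorem tw {k q D l : ℕ} (h : r.Co k q D l) (hB : r.s.Grid B) (hg : 3 ≤ g) (hn : r.s.NoD B) :
    r.Tw := by
  intro x hx v hv
  have h0 := h.ok0
  have at1 : ∀ y ∈ r.s.Ce, v ∈ r.s.nb y → ∃ a ∈ r.ct y, v ∈ σ.inc a := fun y hy k => by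
    obtain ⟨⟨⟨p, hp, e⟩, o⟩, -⟩ := (h.solid y hy).sub ⟨k, off_lam h hx hv⟩
    obtain ⟨a, ha, hp⟩ := mem_iUnion₂.1 hp
    exact ⟨a, ha, ⟨p, hp, e⟩, o⟩
  by_contra c
  have xn : x ∉ r.s.Nd := inr_nd hx.1.1.2
  have vn : Sum.inl v ∈ r.s.Nd := by_contra fun k => xn ((adj_nd h0 hv).2.2 k)
  have only : ∀ y, r.s.G.Adj (Sum.inl v) y → y = x := fun y a => by
    have yn := (adj_nd h0 a).2.1 vn
    have yv := (adj_nd h0 a.symm).1
    have yH : y ∉ r.s.H := fun k => hx.2 v hv (po_rh h0 ⟨y, k, a.symm⟩)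
    rcases (tv_eq h0).subset ⟨yv, yH⟩ with (k | k) | k
    · exact (yn k).elim
    · obtain ⟨a', h1, h2⟩ := at1 y k a.symm
      have : a' ∈ r.ct x := by_contra fun n => c ⟨at1 x hx.1 hv, a', n, h2⟩
      exact Option.some_injective _ (h1.symm.trans this)
    · obtain ⟨z, z1, -, z2⟩ := h0.rim y k
      exact (hx.2 v hv (po_rh h0 ⟨z, z1.1, z2 a.symm⟩)).elim
  have xt : x ∈ r.s.tv \ r.s.Nd := ⟨JEnc.T_sub h0.hr.1 (Or.inr hx.1), xn⟩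
  have nS : r.s.N {x, Sum.inl v} ⊆ Sum.inl '' (r.s.nb x \ {v}) := by
    rintro y ⟨y1, _, rfl | rfl, a⟩
    · obtain ⟨-, w, rfl⟩ : y ∈ r.s.Nd := by_contra fun k => xn ((adj_nd h0 a).2.2 k)
      exact ⟨w, ⟨a, fun e => y1 (Or.inr (congrArg _ e))⟩, rfl⟩
    · exact (y1 (Or.inl (only y a))).elim
  have no : ¬ ∃ i j, Cross B i j ⊆ {x, Sum.inl v} := by
    rintro ⟨i, j, k⟩
    obtain ⟨m, d⟩ := JWf.miss (R := fun m => B (i, m)) (X := {x, Sum.inl v})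
      (fun m m' z a b => by_contra fun n => disjoint_left.1 (hB.2.2.1 _ _ fun e =>
        n (congrArg Prod.snd e)) a b) (toFinite _)
      ((ncard_insert_le _ _).trans_lt (by rw [ncard_singleton]; omega))
    obtain ⟨z, hz⟩ := (hB.2.1 (i, m)).1
    exact disjoint_left.1 d hz (k (JWf.row_sub _ _ _ hz))
  refine no (hn _ ⟨pair_subset (Or.inr hx.1) (Or.inl vn), ?_, ⟨_, Or.inr rfl, vn⟩, ?_, ?_, ?_⟩ ?_)
  · refine fb.conn_of_center (Or.inl rfl) ?_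
    rintro y (rfl | rfl)
    exacts [Link.refl .., Link.single (Or.inl rfl) (Or.inr rfl) hv]
  · intro y hy
    obtain ⟨w, hw, rfl⟩ := nS hy
    exact by_contra fun k => xn ((adj_nd h0 hw.1).2.2 k)
  · rintro y ⟨rfl | rfl, k⟩ z a
    exacts [(xn k).elim, Or.inl (only z a)]
  · obtain ⟨f1, f2⟩ := nb_card h0 xt
    refine (ncard_le_ncard nS (f1.sdiff.image _)).trans ?_
    rw [ncard_image_of_injective _ Sum.inl_injective, ncard_sdiff_singleton_of_mem hv]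
    omega
  · refine disjoint_left.2 ?_
    rintro y ((rfl | rfl) | k)
    · exact (dp_good h0 hx).2
    · exact hx.2 v hv
    · obtain ⟨w, hw, rfl⟩ := nS k
      exact hx.2 w hw.1

end HBas

namespace HB

open HBas

theorem basS : BasS := by
  refine ⟨fun s => ok0, fun s h => ⟨h.hm.ok.fin.image _, tv_eq h, fun _ => rm_rh h, ?_, ?_,
    fun _ => dp_good h, fun y hy => ⟨(nb_card h hy).1, (nb_card h hy).2,
      fun u hu v hv => nb_face h hy hu hv⟩, fun K K' p => rg_sub h, fun K f hf f' hf' k l =>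
      JEnc.reg_link h.hm.ok h.hm.lbl disjoint_compl_left hf hf' k l, fun g B hB hg =>
      ⟨fun X => nodes h hB (by omega), fun X => holes h fun z hz =>
        (JWf.big_sub hB (JEnc.D_sub h.hr.1) hz).1, fun X X' k p _ => ?_, fun k S S' a b => ?_,
        fun g' B' => block h hB⟩⟩⟩
  · rintro _ ⟨v, hv, rfl⟩
    exact po_rh h hv
  · rintro x _ ⟨v, hv, rfl⟩
    exact nb_rad h hv
  · have m := (bigS _ _ _ B _ _ hB (JEnc.D_sub h.hr.1)).1 X X' k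
    exact sdiff_subset_sdiff (image_mono fun z => JEnc.reg_mono m) m
  · obtain ⟨i, j, c⟩ := k S a
    obtain ⟨i', j', c'⟩ := k S' b
    exact (meet hB i j i' j').mono (inter_subset_inter c c')

theorem inS (_ : BasS) : InS := by
  refine ⟨fun σ r k q s D l h hs => ?_, fun σ r k q D l g B h hB hg m => m.elim (tw h hB hg)
    fun m x hx => ?_⟩
  · have co : r.Co k q D l := ⟨ok0 h.ok, h.eg, h.holes, h.lam, h.lamn,
      fun a v hv => mem_iUnion.2 ⟨a, h.root a v hv⟩, h.owner,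
      fun a v hv => h.share a v ⟨hv.1.1, hv.2⟩, h.solid, dep h⟩
    refine ⟨⟨co, h.ok, hs, h.op⟩, fun I hI => ⟨fun x hx => ?_, hI.fc⟩⟩
    obtain ⟨a, a1, a2, a3, -⟩ := hI.atom x (dp_good co.ok0 hx)
    exact ⟨a, a1, disjoint_left.2 fun v h1 h2 => off_lam co hx (a2 ⟨h1, h2⟩) h2, a3⟩
  · obtain ⟨a, a1, -, a2⟩ := m.atom x hx
    rw [a1, a2]

end HB

end Pool.Agent.MP_9d78a0_co.gm

end MrgPart2

-- ======== part 3: formerly Pool.Agent.MP_9d78a0_co.gm.HIso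
section MrgPart3

/-! Distinctions stay inside cells. -/

set_option autoImplicit false

namespace Pool.Agent.MP_9d78a0_co.gm

open Set Function

namespace HIso

variable {σ : AG}

theorem mem_vs {U : Set σ.ε} {v : W} : v ∈ σ.vs U ↔ ∃ a ∈ U, v ∈ σ.inc a := by
  simp only [AG.vs, mem_iUnion, exists_prop]

theorem bd_vs {U : Set σ.ε} {v : W} (h : v ∈ σ.bd U) : v ∈ σ.vs U := mem_vs.2 h.1

theorem vs_od {U : Set σ.ε} {v : W} (h : v ∈ σ.vs U) : v ∈ Od :=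
  let ⟨_, _, k⟩ := mem_vs.1 h; k.2

/-- the vertices all of whose atoms lie in `D` -/
def In (D : Set σ.ε) : Set W := σ.vs D \ σ.bd D

theorem in_mem {D : Set σ.ε} {v : W} {a : σ.ε} (h : v ∈ In D) (k : v ∈ σ.inc a) : a ∈ D :=
  by_contra fun n => h.2 ⟨mem_vs.1 h.1, a, n, k⟩

theorem walk {D U : Set σ.ε} {P : Set W} (hP : P ⊆ Od) {r s : W}
    (h : Link (gr (σ.un U)) P r s) (hr : r ∈ In D) (hs : s ∉ In D) :
    ∃ z ∈ P, z ∈ σ.bd D ∧ z ∈ σ.vs U := by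
  induction h with
  | refl => exact absurd hr hs
  | @tail b c _ k ih =>
    by_cases e : b ∈ In D
    · obtain ⟨hb, hc, -, k⟩ := k
      have key : ∃ a ∈ U, b ∈ σ.inc a ∧ c ∈ σ.inc a := by
        rcases k with k | k <;> obtain ⟨a, ha, k⟩ := mem_iUnion₂.1 k
        · exact ⟨a, ha, ⟨⟨_, k, Or.inl rfl⟩, hP hb⟩, ⟨⟨_, k, Or.inr rfl⟩, hP hc⟩⟩
        · exact ⟨a, ha, ⟨⟨_, k, Or.inr rfl⟩, hP hb⟩, ⟨⟨_, k, Or.inl rfl⟩, hP hc⟩⟩
      obtain ⟨a, ha, h1, h2⟩ := key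
      exact ⟨c, hc, by_contra fun n => hs ⟨mem_vs.2 ⟨a, in_mem e h1, h2⟩, n⟩, mem_vs.2 ⟨a, ha, h2⟩⟩
    · exact ih e

theorem adj_vt {s : Sk} (h : s.Ok) {x y : MV} (k : s.G.Adj x y) :
    y ∈ s.Vt ∧ (x ∈ s.Nd ↔ y ∉ s.Nd) := by
  obtain ⟨-, f, hf, ⟨rfl, rfl⟩ | ⟨rfl, rfl⟩⟩ := k
  · exact ⟨⟨_, (h.hm.ok.ia f hf).1, rfl⟩, h.bip f hf⟩
  · exact ⟨⟨_, hf, rfl⟩, by have := h.bip f hf; tauto⟩

theorem ce_nd {s : Sk} {x : MV} (h : x ∈ s.Ce) : x ∉ s.Nd := fun k => by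
  obtain ⟨_, e⟩ := k.2
  obtain ⟨_, e'⟩ := h.1.2
  exact Sum.inl_ne_inr (e.trans e'.symm)

variable {t : Sh σ}

theorem mk_alt (h : t.Ok) {v : W} (k : v ∈ t.Mk) :
    Sum.inl v ∈ t.s.Vt ∨ ∃ j, ∃ i ≤ t.m j, v ∈ t.κ j i := by
  rcases k with k | ⟨f, hf, rfl⟩
  · obtain ⟨j, k | k⟩ := mem_iUnion.1 k
    exacts [Or.inr ⟨j, 0, Nat.zero_le _, k⟩, Or.inr ⟨j, _, le_rfl, k⟩]
  · exact Or.inl (JTame.far_nd h.ok hf.1).1

theorem share' (h : t.Ok) {a a' : σ.ε} {v : W} (hv : v ∈ σ.inc a) (hl : v ∉ t.Λ)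
    (hv' : v ∈ σ.inc a') (n : t.own a' ≠ t.own a) :
    (∀ x, t.own a = some (Sum.inl x) → v ∈ t.s.nb x) ∧
    ∀ j i, t.own a = some (Sum.inr (j, i)) → v ∈ t.κ j i ∪ t.κ j (i + 1) := by
  by_cases e : t.own a' = none
  · have m := (h.share a' v ⟨hv', hl⟩ (Or.inr (Or.inr ⟨a, n.symm, e ▸ n.symm, hv⟩))).2.2 e
    have := h.share a v ⟨hv, hl⟩ ((mk_alt h m).imp id Or.inl)
    exact ⟨this.1, this.2.1⟩
  · have := h.share a v ⟨hv, hl⟩ (Or.inr (Or.inr ⟨a', n, e, hv'⟩))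
    exact ⟨this.1, this.2.1⟩

/-- a vertex that is no node and lies in one bag of the side only -/
def Priv (t : Sh σ) (z : W) (j : t.ι) (i : ℕ) : Prop :=
  Sum.inl z ∉ t.s.Vt ∧ z ∈ σ.vs (t.bag j i) ∧ ∀ k, z ∈ σ.vs (t.bag j k) → k = i

/-- the set of blockers -/
structure Bl (t : Sh σ) (D : Set σ.ε) (X : Set W) : Prop where
  fin : X.Finite
  node : ∀ z ∈ σ.bd D, Sum.inl z ∈ t.s.Vt → z ∈ X
  cell : ∀ y ∈ t.s.Ce, ∀ r ∈ t.s.nb y, r ∈ In D → r ∉ X → ∀ s ∈ t.s.nb y, s ∈ In D ∨ s ∈ X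
  bag : ∀ z ∈ σ.bd D, z ∉ t.Λ → (∀ y ∈ t.s.Ce, z ∉ σ.vs (t.ct y)) → z ∈ X

theorem exists_bl (h : t.Ok)
    (lc : ∀ x ∈ t.s.Ce, ∀ v ∈ σ.vs (t.ct x), Sum.inl v ∈ t.s.Vt → v ∈ t.s.nb x)
    {D : Set σ.ε} {Z : Set W} (hf : Z.Finite)
    (hZ : ∀ z ∈ σ.bd D, z ∉ t.Λ ∨ Sum.inl z ∈ t.s.Vt → z ∈ Z) :
    ∃ X, Bl t D X ∧ X.ncard ≤ Z.ncard := by
  classical
  have ex : ∀ y, ∃ ρ : W, y ∈ t.s.Ce → ∀ r ∈ t.s.nb y, r ∈ In D → r ≠ ρ →
      ∀ s ∈ t.s.nb y, s ∉ σ.vs D → s = ρ := by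
    intro y
    by_contra c
    push Not at c
    obtain ⟨hy, r, hr, ir, -, s, hs, os, -⟩ := c (Sum.inl 0)
    obtain ⟨-, r', hr', ir', nr, -⟩ := c r
    obtain ⟨-, -, -, -, -, s', hs', os', ns⟩ := c s
    have d : ∀ {a b : W}, a ∈ In D → b ∉ σ.vs D → a ≠ b := fun k l e => l (e ▸ k.1)
    have := (three_lt_ncard (h.solid y hy).1.card.1).2 ⟨r, hr, r', hr', s, hs, s', hs', nr.symm,
      d ir os, d ir os', d ir' os, d ir' os', ns.symm⟩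
    have := (h.solid y hy).1.card.2
    omega
  choose ρ hρ using ex
  let π : W → W := fun z =>
    if k : ∃ y ∈ t.s.Ce, z ∈ σ.vs (t.ct y) ∧ Sum.inl z ∉ t.s.Vt then ρ k.choose else z
  have n1 : ∀ z ∈ σ.bd D, Sum.inl z ∈ t.s.Vt → z ∈ π '' Z := fun z hz k =>
    ⟨z, hZ z hz (Or.inr k), dif_neg fun ⟨_, _, _, l⟩ => l k⟩
  refine ⟨π '' Z, ⟨hf.image _, n1, ?_, fun z hz k l =>
    ⟨z, hZ z hz (Or.inl k), dif_neg fun ⟨y, hy, m, _⟩ => l y hy m⟩⟩, ncard_image_le hf⟩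
  intro y hy r hr ir nr s hs
  by_contra c
  rw [not_or] at c
  have os : s ∉ σ.vs D := fun k =>
    c.2 (n1 s (by_contra fun n => c.1 ⟨k, n⟩) (adj_vt h.ok hs).1)
  obtain ⟨z, z1, z2, z3⟩ := walk (fun _ k => k.1.1) ((h.solid y hy).1.two r hr s hs) ir c.1
  have z4 : z ∉ t.s.nb y := fun k => z1.2 ⟨k, by
    rintro (rfl | rfl)
    exacts [ir.2 z2, os (bd_vs z2)]⟩
  have z5 : z ∉ t.Λ := fun k => z1.1.2 ⟨k, z4⟩
  have k : ∃ y ∈ t.s.Ce, z ∈ σ.vs (t.ct y) ∧ Sum.inl z ∉ t.s.Vt :=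
    ⟨y, hy, z3, fun m => z4 (lc y hy z z3 m)⟩
  have e : k.choose = y := by
    obtain ⟨a, ha, ka⟩ := mem_vs.1 z3
    obtain ⟨a', ha', ka'⟩ := mem_vs.1 k.choose_spec.2.1
    by_contra n
    refine z4 ((share' h ka z5 ka' fun q => n ?_).1 y ha)
    exact Sum.inl.inj (Option.some.inj (ha'.symm.trans (q.trans ha)))
  have m : ρ y ∈ π '' Z := ⟨z, hZ z z2 (Or.inl z5), (dif_pos k).trans (congrArg ρ e)⟩
  exact c.2 (hρ y hy r hr ir (fun q => nr (q ▸ m)) s hs os ▸ m)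

variable {D : Set σ.ε} {X : Set W}

/-- one step along a side -/
theorem step (h : t.Ok) (b : Bl t D X) {j : t.ι} {i : ℕ} (hi : i < t.m j) {p q : W}
    (e : (p = t.u j i ∧ q = t.u j (i + 1)) ∨ (p = t.u j (i + 1) ∧ q = t.u j i))
    (ip : p ∈ In D) (np : p ∉ X) : q ∈ In D ∨ q ∈ X ∨ ∃ z ∈ X, Priv t z j i := by
  have lk := JTame.lk_nb h hi
  rcases (h.quad j i hi).2 with k | k
  · obtain ⟨cn, m1, m2, sub⟩ := h.path j i hi k
    by_contra c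
    rw [not_or, not_or] at c
    have pP : p ∈ t.L j i (t.d j) := e.elim (fun e => e.1 ▸ m1) fun e => e.1 ▸ m2
    have qP : q ∈ t.L j i (t.d j) := e.elim (fun e => e.2 ▸ m2) fun e => e.2 ▸ m1
    have qn : Sum.inl q ∈ t.s.Vt :=
      e.elim (fun e => e.2 ▸ (JTame.u_nd h j _).1) fun e => e.2 ▸ (JTame.u_nd h j _).1
    obtain ⟨z, z1, z2, z3⟩ := walk (D := D) (fun v hv => (sub hv).1.elim vs_od
      fun e => e ▸ h.ok.od _ (JTame.u_nd h j i).1) (cn.2 p pP q qP) ip c.1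
    have z4 : z ∉ t.Λ := (sub z1).2
    have zp : z ≠ p := fun q => ip.2 (q ▸ z2)
    have zq : z ≠ q := fun l => c.2.1 (l ▸ b.node z z2 (l ▸ qn))
    have zk : z ∉ t.κ j i ∪ t.κ j (i + 1) := by
      rintro ((l | ⟨l, hl, rfl⟩) | (l | ⟨l, hl, rfl⟩))
      · exact e.elim (fun e => zp (l.trans e.1.symm)) fun e => zq (l.trans e.2.symm)
      · exact (h.lent j i hi _ le_rfl l hl hl.ne').1 z1
      · exact e.elim (fun e => zq (l.trans e.2.symm)) fun e => zp (l.trans e.1.symm)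
      · exact (h.lent j i hi _ le_rfl l hl hl.ne').2 z1
    obtain ⟨a, ha, ka⟩ := mem_vs.1 z3
    have one : ∀ a', z ∈ σ.inc a' → t.own a' = some (Sum.inr (j, i)) := fun a' ka' =>
      by_contra fun n => zk ((share' h ka z4 ka' fun q => n (q.trans ha)).2 j i ha)
    refine c.2.2 ⟨z, b.bag z z2 z4 fun y _ l => ?_, fun l => ?_, z3, fun k l => ?_⟩
    · obtain ⟨a', ha', ka'⟩ := mem_vs.1 l
      cases ha'.symm.trans (one a' ka')
    · exact zk ((h.share a z ⟨ka, z4⟩ (Or.inl l)).2.1 j i ha)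
    · obtain ⟨a', ha', ka'⟩ := mem_vs.1 l
      cases ha'.symm.trans (one a' ka')
      rfl
  · have pn : p ∈ t.s.nb (t.lk j i) := e.elim (fun e => e.1 ▸ lk.1) fun e => e.1 ▸ lk.2.1
    have qn : q ∈ t.s.nb (t.lk j i) := e.elim (fun e => e.2 ▸ lk.2.1) fun e => e.2 ▸ lk.1
    exact (b.cell _ k p pn ip np q qn).imp id Or.inl

theorem left (h : t.Ok) (b : Bl t D X) {j : t.ι} (h0 : t.u j 0 ∉ In D) :
    ∀ i ≤ t.m j, t.u j i ∈ In D → t.u j i ∉ X →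
      ∃ z ∈ X, ∃ k < i, z = t.u j k ∨ Priv t z j k := by
  intro i
  induction i with
  | zero => exact fun _ k => absurd k h0
  | succ i ih =>
    intro hi k n
    by_cases c : t.u j i ∈ X
    · exact ⟨_, c, i, by omega, Or.inl rfl⟩
    rcases step h b hi (Or.inr ⟨rfl, rfl⟩) k n with l | l | ⟨z, hz, l⟩
    · obtain ⟨z, hz, k, hk, l⟩ := ih (by omega) l c
      exact ⟨z, hz, k, by omega, l⟩
    · exact absurd l c
    · exact ⟨z, hz, i, by omega, Or.inr l⟩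

theorem right (h : t.Ok) (b : Bl t D X) {j : t.ι} (h0 : t.u j (t.m j) ∉ In D) :
    ∀ i ≤ t.m j, t.u j i ∈ In D → t.u j i ∉ X →
      ∃ z ∈ X, ∃ k, i ≤ k ∧ k < t.m j ∧ (z = t.u j (k + 1) ∨ Priv t z j k) := by
  intro i hi
  induction hi using Nat.decreasingInduction with
  | self => exact fun k => absurd k h0
  | of_succ i hi ih =>
    intro k n
    by_cases c : t.u j (i + 1) ∈ X
    · exact ⟨_, c, i, le_rfl, hi, Or.inl rfl⟩
    rcases step h b hi (Or.inl ⟨rfl, rfl⟩) k n with l | l | ⟨z, hz, l⟩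
    · obtain ⟨z, hz, k, hk, l⟩ := ih l c
      exact ⟨z, hz, k, by omega, l⟩
    · exact absurd l c
    · exact ⟨z, hz, i, le_rfl, hi, Or.inr l⟩

/-- the component of a cell off the blockers -/
def Cp (t : Sh σ) (X : Set W) (x : MV) : Set MV :=
  {y | Link t.s.G (t.s.T \ Sum.inl '' X) x y}

theorem cp_inv (h : t.Ok) (b : Bl t D X) {x : MV} (hx : x ∈ t.s.Ce)
    (hD : ∀ v ∈ t.s.nb x, v ∈ σ.vs D) {y : MV} (hy : y ∈ Cp t X x) :
    y ∈ t.s.T \ Sum.inl '' X ∧ (∀ v, y = Sum.inl v → v ∈ In D) ∧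
      (y ∈ t.s.Ce → ∀ v ∈ t.s.nb y, v ∈ In D ∨ v ∈ X) := by
  induction hy with
  | refl =>
    refine ⟨⟨Or.inr hx, fun ⟨v, _, e⟩ => ce_nd hx ⟨hx.1.1, v, e⟩⟩,
      fun v e => (ce_nd hx ⟨hx.1.1, v, e.symm⟩).elim, fun _ v hv => ?_⟩
    by_cases c : v ∈ σ.bd D
    · exact Or.inr (b.node v c (adj_vt h.ok hv).1)
    · exact Or.inl ⟨hD v hv, c⟩
  | @tail p q _ k ih =>
    obtain ⟨hp, hq, k⟩ := k
    have a := adj_vt h.ok k
    refine ⟨hq, ?_, fun c => ?_⟩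
    · rintro v rfl
      have pc : p ∈ t.s.Ce := hp.1.resolve_left fun n => a.2.1 n ⟨a.1, v, rfl⟩
      exact (ih.2.2 pc v k).resolve_right fun n => hq.2 ⟨v, n, rfl⟩
    · obtain ⟨-, r, rfl⟩ := a.2.2 (ce_nd c)
      exact b.cell q c r k.symm (ih.2.1 r rfl) fun n => hp.2 ⟨r, n, rfl⟩

theorem no_pos {Wv : Set W} {w : ℕ} (h : t.Nice Wv w) (b : Bl t D X) (hX : X.ncard ≤ 2)
    (hW : ∀ v ∈ t.Mk ∪ Wv, Sum.inl v ∈ t.s.Vt → v ∉ In D) {x : MV} (hx : x ∈ t.s.Ce)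
    (hD : ∀ v ∈ t.s.nb x, v ∈ σ.vs D) {v : W} (hv : Sum.inl v ∈ Cp t X x) : v ∉ t.s.Po := by
  rintro ⟨y, hy, k⟩
  have ok := h.ok
  have inv := fun {y} => cp_inv (y := y) ok b hx hD
  have iv := (inv hv).2.1 v rfl
  have nv : v ∉ X := fun n => (inv hv).1.2 ⟨v, n, rfl⟩
  have vt := (adj_vt ok.ok k).1
  obtain ⟨f, hf, rfl, -, e⟩ := Sk.exists_far ok.ok k
  have nF : f ∉ t.Fx := fun n => hW v (Or.inl (Or.inr ⟨f, n, e⟩)) vt iv
  have : ∃ j, ∃ i ≤ t.m j, v = t.u j i := by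
    by_contra c
    refine nF ⟨⟨hf, hy⟩, fun j i hi => ⟨fun q => c ⟨j, i, hi, ?_⟩, fun q => c ⟨j, i, hi, ?_⟩⟩⟩
    · rw [← e, q]; rfl
    · rw [← e, q, JTame.far_c ok.ok (JTame.phi_fl ok j i).1]; rfl
  obtain ⟨j, i, hi, rfl⟩ := this
  have h0 : t.u j 0 ∉ In D := hW _ (Or.inl (Or.inl (mem_iUnion.2 ⟨j, Or.inl (Or.inl rfl)⟩)))
    (JTame.u_nd ok j _).1
  have h1 : t.u j (t.m j) ∉ In D := hW _ (Or.inl (Or.inl (mem_iUnion.2 ⟨j, Or.inr (Or.inl rfl)⟩)))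
    (JTame.u_nd ok j _).1
  have i0 : 0 < i := Nat.pos_of_ne_zero fun q => h0 (q ▸ iv)
  have i1 : i < t.m j := lt_of_le_of_ne hi fun q => h1 (q ▸ iv)
  obtain ⟨z1, x1, k1, l1, p1⟩ := left ok b h0 i hi iv nv
  obtain ⟨z2, x2, k2, l2, l2', p2⟩ := right ok b h1 i hi iv nv
  obtain ⟨v', hv', lk⟩ := h.out j i i0 i1
  have key : ∀ y, Link t.s.G ((t.s.T \ Sum.inl '' t.s.Po) ∪ {Sum.inl (t.u j i)})
      (Sum.inl (t.u j i)) y → y ∈ Cp t X x ∨ ∃ z ∈ X, Sum.inl z ∈ t.s.Vt ∧ z ∉ t.s.Po := by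
    intro y l
    induction l with
    | refl => exact Or.inl hv
    | @tail p q _ k ih =>
      rcases ih with ih | ih
      · rcases k.2.1 with c | c
        · by_cases d : q ∈ Sum.inl '' X
          · obtain ⟨z, hz, rfl⟩ := d
            exact Or.inr ⟨z, hz, (adj_vt ok.ok k.2.2).1, fun n => c.2 ⟨z, n, rfl⟩⟩
          · exact Or.inl (Relation.ReflTransGen.tail ih ⟨(inv ih).1, ⟨c.1, d⟩, k.2.2⟩)
        · exact Or.inl (c ▸ hv)
      · exact Or.inr ih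
  rcases key _ lk with c | ⟨z3, x3, n3, p3⟩
  · refine hW v' (Or.inr hv') ?_ ((inv c).2.1 v' rfl)
    exact (inv c).1.1.elim (·.1) (·.1.1)
  have po : ∀ k, t.u j k ∈ t.s.Po := fun k => JTame.far_po ok.ok (JTame.phi_fl ok j k)
  have := (two_lt_ncard b.fin).2 ⟨z1, x1, z2, x2, z3, x3, ?_, ?_, ?_⟩
  · omega
  · rintro rfl
    rcases p1 with p1 | p1 <;> rcases p2 with p2 | p2
    · have := JTame.u_inj ok (by omega) (by omega) (p1.symm.trans p2)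
      omega
    · exact p2.1 (p1 ▸ (JTame.u_nd ok j _).1)
    · exact p1.1 (p2 ▸ (JTame.u_nd ok j _).1)
    · have := p1.2.2 _ p2.2.1
      omega
  · rintro rfl
    exact p1.elim (fun e => p3 (e ▸ po _)) fun e => e.1 n3
  · rintro rfl
    exact p2.elim (fun e => p3 (e ▸ po _)) fun e => e.1 n3

theorem pocket {Wv : Set W} {w : ℕ} (h : t.Nice Wv w) (h0 : t.s.Ok0) (b : Bl t D X) {x : MV}
    (hx : x ∈ t.s.Ce) (hX : X.ncard < (t.s.nb x).ncard)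
    (hW : ∀ v ∈ t.Mk ∪ Wv, Sum.inl v ∈ t.s.Vt → v ∉ In D)
    (hD : ∀ v ∈ t.s.nb x, v ∈ σ.vs D) : t.s.Pk (Cp t X x) := by
  have ok := h.ok
  have cd := (ok.solid x hx).1.card
  have X2 : X.ncard ≤ 2 := by omega
  have inv := fun {y} => cp_inv (y := y) ok b hx hD
  have x0 : x ∈ Cp t X x := Link.refl _ _ _
  have cl : ∀ v ∈ Cp t X x ∩ t.s.Nd, ∀ y, t.s.G.Adj v y → y ∈ Cp t X x := by
    rintro _ ⟨hv, vt, r, rfl⟩ y k
    have a := adj_vt ok.ok k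
    have yn : y ∉ t.s.Nd := a.2.1 ⟨vt, r, rfl⟩
    have np := no_pos h b X2 hW hx hD hv
    have yc : y ∈ t.s.Ce := by
      refine ⟨⟨a.1, ?_⟩, ?_⟩
      · rcases y with y | y
        exacts [absurd ⟨a.1, y, rfl⟩ yn, ⟨y, rfl⟩]
      · rintro (c | c)
        · exact np ⟨y, c, k.symm⟩
        · obtain ⟨z, hz, -, m⟩ := h0.rim y ⟨c, a.1⟩
          exact np ⟨z, hz.1, m k.symm⟩
    exact Relation.ReflTransGen.tail hv ⟨(inv hv).1, ⟨Or.inr yc, fun ⟨u, _, e⟩ =>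
      yn ⟨a.1, u, e⟩⟩, k⟩
  have out : ∀ y ∈ t.s.N (Cp t X x), y ∈ t.s.Nd ∧ y ∈ Sum.inl '' X := by
    rintro y ⟨n, p, hp, k⟩
    have a := adj_vt ok.ok k
    have yn : y ∈ t.s.Nd := by_contra fun c => n (cl p ⟨hp, a.2.2 c⟩ y k)
    exact ⟨yn, by_contra fun c =>
      n (Relation.ReflTransGen.tail hp ⟨(inv hp).1, ⟨Or.inl yn, c⟩, k⟩)⟩
  refine ⟨fun y hy => (inv hy).1.1, fb.conn_of_center x0 fun y hy => ?_, ?_,
    fun y hy => (out y hy).1, cl, ?_⟩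
  · induction hy with
    | refl => exact Link.refl _ _ _
    | tail h1 h2 ih => exact ih.trans (Link.single h1 (h1.tail h2) h2.2.2)
  · obtain ⟨r, hr, nr⟩ : ∃ r ∈ t.s.nb x, r ∉ X := by
      by_contra c
      push Not at c
      exact absurd (ncard_le_ncard c b.fin) (not_le.2 hX)
    have m : Sum.inl r ∈ t.s.Nd := ⟨(adj_vt ok.ok hr).1, r, rfl⟩
    exact ⟨_, Link.single (inv x0).1 ⟨Or.inl m, fun ⟨u, hu, e⟩ => nr (Sum.inl.inj e ▸ hu)⟩ hr, m⟩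
  · refine (ncard_le_ncard (fun y hy => (out y hy).2) (b.fin.image _)).trans ?_
    exact (ncard_image_le b.fin).trans X2

theorem bd_ct (h : t.Ok) {x : MV} : σ.bd (t.ct x) ⊆ t.s.nb x ∪ t.Λ := by
  rintro v ⟨⟨a, ha, k⟩, a', ha', k'⟩
  by_cases c : v ∈ t.Λ
  · exact Or.inr c
  · exact Or.inl ((share' h k c k' fun q => ha' (q.trans ha)).1 x ha)

end HIso

open HIso

theorem isoCS (bas : HB.BasS) : HB.IsoCS := by
  intro σ θ T e t Wv w g θ1 B h hB ctl mo g5 t1 _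
  have ok := h.ok
  rcases mo with mo | ⟨mo, -⟩
  swap
  · refine ⟨∅, by simp, fun x hx T' D _ k => ?_⟩
    obtain ⟨a, ea, -⟩ := mo x hx
    exact absurd (ea ▸ k) (T'.atom a)
  have : Nonempty (σ.ε × σ.ε) := ⟨(e, e)⟩
  let Q : Set W := {v | v ∈ t.Λ ∪ t.Mk ∪ Wv ∧
    ∃ p : σ.ε × σ.ε, t.own p.1 ≠ t.own p.2 ∧ v ∈ σ.inc p.1 ∧ v ∈ σ.inc p.2}
  have hp : ∀ v ∈ Q, ∃ p : σ.ε × σ.ε, t.own p.1 ≠ t.own p.2 ∧ v ∈ σ.inc p.1 ∧ v ∈ σ.inc p.2 :=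
    fun v hv => hv.2
  choose! p hp using hp
  have f3 : (t.Λ ∪ t.Mk ∪ Wv).Finite := (ok.lam.2.union (JTame.mk_fin ok)).union h.wv.1
  have fQ : Q.Finite := f3.subset fun v hv => hv.1
  have cQ : Q.ncard ≤ 3 * w := by
    have a1 := ncard_le_ncard (fun v (hv : v ∈ Q) => hv.1) f3
    have a2 := ncard_union_le (t.Λ ∪ t.Mk) Wv
    have a3 := ncard_union_le t.Λ t.Mk
    have := h.cnt
    have := h.wv.2
    omega
  refine ⟨(fun v => (p v).1) '' Q ∪ (fun v => (p v).2) '' Q, ?_, ?_⟩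
  · have a1 := ncard_union_le ((fun v => (p v).1) '' Q) ((fun v => (p v).2) '' Q)
    have a2 := ncard_image_le (f := fun v => (p v).1) fQ
    have a3 := ncard_image_le (f := fun v => (p v).2) fQ
    omega
  intro x hx T' D hD hY he dj
  have so := ok.solid x hx
  have cd := so.1.card
  have bf : ∀ U, (σ.bd U).Finite := hbd_fin σ.inc_fin
  have fY : σ.f (t.ct x) < θ1 := by
    have a1 := ncard_le_ncard (bd_ct ok (x := x)) (cd.1.union ok.lam.2)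
    have a2 := ncard_union_le (t.s.nb x) t.Λ
    have := h.cnt
    change (σ.bd _).ncard < _
    omega
  have sY : t.ct x ∈ T.sm := by
    obtain ⟨i, j, k⟩ := JWf.miss2 hB injective_id injective_id (X := Sum.inl '' t.s.nb x)
      (cd.1.image _) ((ncard_image_le cd.1).trans_lt (by omega))
    refine ctl _ fY ⟨i, j, fun v hv n => disjoint_left.1 k n ⟨v, h.lamc x hx v hv ?_, rfl⟩⟩
    exact (JWf.cross_sub hB i j n).1.elim (·.1) (·.1.1)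
  refine hD.min he hY (by_contra fun c => ?_)
  have lt : (σ.bd (D ∪ t.ct x)).ncard < (σ.bd (t.ct x)).ncard := by
    have := σ.sym.sub D (t.ct x)
    change σ.f _ < σ.f _
    omega
  have two : ∀ v ∈ Q, ∃ a ∉ D ∪ t.ct x, v ∈ σ.inc a := by
    intro v hv
    obtain ⟨n, k1, k2⟩ := hp v hv
    have d1 : (p v).1 ∉ D := fun q => disjoint_left.1 dj q (Or.inl ⟨v, hv, rfl⟩)
    have d2 : (p v).2 ∉ D := fun q => disjoint_left.1 dj q (Or.inr ⟨v, hv, rfl⟩)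
    by_cases q : (p v).1 ∈ t.ct x
    · exact ⟨_, fun l => l.elim d2 fun l => n (q.trans l.symm), k2⟩
    · exact ⟨_, fun l => l.elim d1 q, k1⟩
  have own2 : ∀ y v, v ∈ σ.bd (t.ct y) →
      ∃ p : σ.ε × σ.ε, t.own p.1 ≠ t.own p.2 ∧ v ∈ σ.inc p.1 ∧ v ∈ σ.inc p.2 :=
    fun y v ⟨⟨a, ha, k⟩, a', ha', k'⟩ => ⟨(a, a'), fun q => ha' (q.symm.trans ha), k, k'⟩
  let A : Set W := (σ.bd (t.ct x) ∩ t.Λ) \ t.s.nb x
  have hA : A ⊆ σ.bd (D ∪ t.ct x) := by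
    rintro v ⟨⟨k, l⟩, -⟩
    obtain ⟨a, ha, m⟩ := k.1
    exact ⟨⟨a, Or.inr ha, m⟩, two v ⟨Or.inl (Or.inl l), own2 x v k⟩⟩
  have cZ : (σ.bd (D ∪ t.ct x) \ A).ncard < (t.s.nb x).ncard := by
    have a1 := ncard_sdiff_add_ncard_of_subset hA (bf _)
    have a2 : (σ.bd (t.ct x)).ncard ≤ (t.s.nb x ∪ A).ncard := by
      refine ncard_le_ncard (fun v hv => ?_) (cd.1.union ((bf _).subset hA))
      by_cases q : v ∈ t.s.nb x
      · exact Or.inl q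
      · exact Or.inr ⟨⟨hv, (bd_ct ok hv).resolve_left q⟩, q⟩
    have a3 := ncard_union_le (t.s.nb x) A
    omega
  obtain ⟨X, b, cX⟩ := exists_bl ok h.lamc (D := D ∪ t.ct x) ((bf _).subset (sdiff_subset (t := A)))
    fun z hz k => ⟨hz, fun q => q.2 (h.lamc x hx z (bd_vs q.1.1) (k.resolve_left (· q.1.2)))⟩
  have hW : ∀ v ∈ t.Mk ∪ Wv, Sum.inl v ∈ t.s.Vt → v ∉ In (D ∪ t.ct x) := by
    intro v hv k n
    obtain ⟨y, hy, l⟩ := h.nd v k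
    obtain ⟨a, ha, m⟩ := two v ⟨hv.elim (fun q => Or.inl (Or.inr q)) Or.inr,
      own2 y v ((ok.solid y hy).2 l)⟩
    exact ha (in_mem n m)
  have hx' : ∀ v ∈ t.s.nb x, v ∈ σ.vs (D ∪ t.ct x) := fun v hv =>
    let ⟨a, ha, m⟩ := (so.2 hv).1; mem_vs.2 ⟨a, Or.inr ha, m⟩
  obtain ⟨i, j, cr⟩ := mo _ (pocket h (bas.1 _ ok.ok) b hx (cX.trans_lt cZ) hW hx')
  have sC : (D ∪ t.ct x)ᶜ ∈ T.sm := by
    refine ctl _ ?_ ⟨i, j, fun v hv n => ?_⟩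
    · rw [σ.sym.cpl]
      exact lt.trans fY
    · obtain ⟨a, ha, m⟩ := mem_vs.1 hv
      exact ha (in_mem ((cp_inv ok b hx hx' (cr n)).2.1 v rfl) m)
  exact T.cov _ hD.1 _ sY _ sC (union_compl_self _)

end Pool.Agent.MP_9d78a0_co.gm

end MrgPart3

-- ======== part 4: formerly Pool.Agent.MP_9d78a0_co.gm.HGeo
section MrgPart4

/-! Block H: the radial geodesic from a hole. -/

set_option autoImplicit false

namespace Pool.Agent.MP_9d78a0_co.gm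

open Set Function FM Cy

namespace HGeo

/-- choice of a sequence from the top down -/
theorem down {α : Type} {A : ℕ → α → Prop} {R : ℕ → α → α → Prop} (m : ℕ)
    (h : ∀ i ≤ m, ∀ Q, A i Q → ∃ Q', R i Q Q' ∧ ∀ j, i = j + 1 → A j Q') (Q0 : α) (h0 : A m Q0) :
    ∃ q : ℕ → α, q (m + 1) = Q0 ∧ ∀ i ≤ m, A i (q (i + 1)) ∧ R i (q (i + 1)) (q i) := by
  induction m generalizing Q0 with
  | zero =>
    obtain ⟨Q', k, -⟩ := h 0 le_rfl Q0 h0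
    refine ⟨fun n => if n = 0 then Q' else Q0, rfl, fun i hi => ?_⟩
    obtain rfl : i = 0 := by omega
    exact ⟨h0, k⟩
  | succ m ih =>
    obtain ⟨Q', k, k'⟩ := h (m + 1) le_rfl Q0 h0
    obtain ⟨q, e, hq⟩ := ih (fun i hi => h i (by omega)) Q' (k' m rfl)
    refine ⟨fun n => if n = m + 2 then Q0 else q n, if_pos rfl, fun i hi => ?_⟩
    by_cases c : i = m + 1
    · subst c
      simp only [if_true, if_neg (show m + 1 ≠ m + 2 by omega), e]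
      exact ⟨h0, k⟩
    · simp only [if_neg (show i + 1 ≠ m + 2 by omega), if_neg (show i ≠ m + 2 by omega)]
      exact hq i (by omega)

theorem one_flip {α : Type} {p : α → α} {g h : α} (e : p (p g) = g) (k : h = g ∨ h = p g) :
    one p h = one p g := by
  rcases k with rfl | rfl
  · rfl
  · funext y
    unfold one
    congr 1
    rw [e, or_comm]

variable {s : Sk} {x : MV} {f g : s.Φ} {j : ℕ}

theorem lv_up (hf : f ∈ s.M.S) (k : s.vx f ∈ s.Lv x j) (hg : g ∈ s.M.fo f) (n : s.vx g ∈ s.Nd) :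
    s.vx g ∈ s.Lv x (j + 1) := Or.inr ⟨n, f, hf, k, g, hg, rfl⟩

theorem ar_mem (h : s.M.Ok) {K : Set MV} (hf : f ∈ s.ar K x) : f ∈ s.M.S := by
  obtain ⟨p, hp, -, k⟩ := hf
  induction k with
  | refl => exact hp
  | tail _ e ih =>
    rcases e with rfl | rfl | ⟨-, rfl⟩
    exacts [(h.ia _ ih).1, (h.ib _ ih).1, (h.ic _ ih).1]

theorem ar_b {K : Set MV} (hf : f ∈ s.ar K x) : s.M.b f ∈ s.ar K x :=
  let ⟨p, hp, e, k⟩ := hf; ⟨p, hp, e, Relation.ReflTransGen.tail k (Or.inr (Or.inl rfl))⟩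

theorem nd_tv (h : s.Ok0) {v : MV} (hv : v ∈ s.Nd) : v ∈ s.tv :=
  ⟨hv.1, fun k => HBas.inr_nd (h.hr.1 k) hv⟩

theorem nd_eq {v : MV} (hv : v ∈ s.Nd) : Sum.inl (nodeOf v) = v := by
  obtain ⟨-, w, rfl⟩ := hv
  rfl

/-- the data of one step of the geodesic -/
structure St (s : Sk) (x : MV) (i : ℕ) (Q Q' P : s.Φ) (lam : s.Φ → ZMod 2) : Prop where
  mem : P ∈ s.M.S
  fo : Q ∈ s.M.fo P
  face : ∀ χ : s.Φ → ZMod 2, Pot (s.M.fo P) s.M.a 0 χ →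
    Pot (s.M.fo P) s.M.b (one s.M.b P + one s.M.b Q) χ → χ P = χ Q
  zero : i = 0 → s.vx P = x
  pos : i ≠ 0 → s.vx P = s.vx Q' ∧ Pot (s.M.vo P) s.M.c 0 lam ∧
    Pot (s.M.vo P) s.M.b (one s.M.b Q' + one s.M.b P) lam ∧ lam P = 0 ∧ lam Q' = 0

theorem step (hL : HB.LevS) {U0 : Set MV} {R : ℕ} (hz : s.Zx U0 R) (hx : x ∈ s.H ∩ s.Vt)
    {i : ℕ} (hi : i < R) {Q : s.Φ}
    (hQ : Q ∈ s.ar (s.Kc U0 x i) x ∧ s.vx Q ∈ s.Kc U0 x i ∩ s.Nd) :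
    ∃ Q', (∃ P lam, St s x i Q Q' P lam) ∧ ∀ j, i = j + 1 →
      Q' ∈ s.ar (s.Kc U0 x j) x ∧ s.vx Q' ∈ s.Kc U0 x j ∩ s.Nd := by
  obtain ⟨mono, l2, -, l4⟩ := hL s U0 R x hz hx
  have hM := hz.ok0.hm.ok
  have hl := hz.ok0.hm.lbl
  obtain ⟨-, ks, -, -, -, -, -, -, -, kf, -⟩ := l4 i hi
  have QS := ar_mem hM hQ.1
  have Qn : s.vx Q ∉ s.Lv x i := (ks hQ.2.1).2
  obtain ⟨g, hg, g1, g2⟩ := kf Q hQ.1 hQ.2.1
  have gS := hM.fo_mem QS hg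
  obtain ⟨P, hP, fc⟩ := (cycS _ s.M.S s.M.a s.M.b Q hM.fin hM.ia hM.ib QS).2.1 Q (orb_self ..) g hg
    (fun e => Qn (e ▸ g1)) fun e => Qn (hl.b hM QS ▸ e ▸ g1)
  have PQ : P ∈ s.M.fo Q := hP.elim (fun e => e ▸ hg) fun e => e ▸ orb_q hg
  have PS := hM.fo_mem QS PQ
  have QP := hM.fo_symm QS PQ
  have eP : s.vx P = s.vx g := hP.elim (fun e => e ▸ rfl) fun e => e ▸ hl.b hM gS
  have eo : s.M.fo P = orb s.M.a s.M.b Q := orb_eq hM.ia.inv0 hM.ib.inv0 QS PQ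
  have fc' : ∀ χ : s.Φ → ZMod 2, Pot (s.M.fo P) s.M.a 0 χ →
      Pot (s.M.fo P) s.M.b (one s.M.b P + one s.M.b Q) χ → χ P = χ Q := fun χ k1 k2 => by
    rw [eo] at k1 k2
    rw [one_flip (hM.ib g gS).2.1 hP, add_comm] at k2
    exact (fc χ k1 k2).symm
  rcases i with _ | j
  · exact ⟨Q, ⟨P, 0, PS, QP, fc', fun _ => eP.trans g1, fun k => (k rfl).elim⟩,
      fun j e => by omega⟩
  obtain ⟨-, ks', -, -, kc', -, -, -, -, kf', -, kw', -⟩ := l4 j (by omega)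
  have gn : s.vx g ∉ s.Lv x j := fun k => Qn (lv_up gS k (hM.fo_symm QS hg) hQ.2.2)
  have gx : s.vx g ≠ x := fun e => gn ((mono 0 j (Nat.zero_le _)).1 e)
  have gN : s.vx g ∈ s.Nd := ((l2 _).1 g1).resolve_left gx
  obtain ⟨w, hw, aw⟩ := g2.resolve_left gx
  have gK : s.vx g ∈ s.Kc U0 x j :=
    kc' w ((mono j (j + 1) (Nat.le_succ _)).2 hw) _ ⟨nd_tv hz.ok0 gN, gn⟩ aw
  obtain ⟨⟨-, t, ht, et⟩, -⟩ : s.vx g ∈ s.Wr U0 x j ∩ s.Nd := kw' ▸ ⟨gK, g1⟩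
  have tS := ar_mem hM ht
  obtain ⟨t', ht', t1, -⟩ := kf' t ht (et ▸ gK)
  have nt : t ∉ s.M.fo P := fun k =>
    Qn (lv_up (hM.fo_mem tS ht') t1
      (orb_trans (hM.fo_symm tS ht') (orb_trans (hM.fo_symm PS k) QP)) hQ.2.2)
  have tP : t ∈ orb s.M.c s.M.b P := orb_comm s.M.b s.M.c P ▸ (hl P PS t tS).1 (eP.trans et.symm)
  obtain ⟨c1, c2, -⟩ := cycS _ s.M.S s.M.c s.M.b P hM.fin hM.ic hM.ib PS
  obtain ⟨Q', hQ', sc⟩ := c2 P (orb_self ..) t tP (fun e => nt (e ▸ orb_self ..))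
    fun e => nt (e ▸ orb_q (orb_self ..))
  obtain ⟨⟨χ, x1, x2⟩, -⟩ := c1 P (orb_self ..) t tP
  have eQ : s.vx Q' = s.vx g :=
    hQ'.elim (fun e => e ▸ et) fun e => e ▸ (hl.b hM tS).trans et
  refine ⟨Q', ⟨P, fun y => χ y + χ P, PS, QP, fc', fun k => by omega, fun _ =>
    ⟨eP.trans eQ.symm, fun y hy => ?_, fun y hy => ?_, z2_add_self _, ?_⟩⟩, fun j' e => ?_⟩
  · rw [FM.vo, orb_comm] at hy
    beta_reduce
    rw [x1 y hy, add_right_comm]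
  · rw [FM.vo, orb_comm] at hy
    beta_reduce
    rw [x2 y hy, one_flip (hM.ib t tS).2.1 hQ', add_right_comm, add_comm (one s.M.b t)]
  · rw [← sc χ x1 x2]
    exact z2_add_self _
  · obtain rfl : j' = j := by omega
    exact ⟨hQ'.elim (fun e => e ▸ ht) fun e => e ▸ ar_b ht, eQ ▸ ⟨gK, gN⟩⟩

end HGeo

namespace HB

open HGeo

theorem geoS (hL : LevS) : GeoS := by
  classical
  intro s U0 x rr e hz hx
  obtain ⟨mono, -, -, l4⟩ := hL s U0 _ x hz hx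
  have hM := hz.ok0.hm.ok
  have hl := hz.ok0.hm.lbl
  obtain ⟨Q0, h0⟩ : ∃ Q0, Q0 ∈ s.ar (s.Kc U0 x (rr + 1 + e)) x ∧
      s.vx Q0 ∈ s.Kc U0 x (rr + 1 + e) ∩ s.Nd := by
    obtain ⟨-, -, -, -, -, -, -, -, -, -, kr, -, kn, -⟩ := l4 (rr + 1 + e) (by omega)
    obtain ⟨p, hp, ep⟩ := hx.2
    obtain ⟨y, hy⟩ := (kr p hp ep).conn.1
    obtain ⟨v, ⟨v1, Q0, v2, rfl⟩, v3⟩ : ∃ v, v ∈ s.Wr U0 x (rr + 1 + e) ∩ s.Nd := by
      by_cases c : y ∈ s.Nd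
      exacts [⟨y, hy, c⟩, let ⟨v, k, _⟩ := kn y ⟨hy, c⟩; ⟨v, k⟩]
    exact ⟨Q0, v2, v1, v3⟩
  obtain ⟨q, -, hq⟩ := down (rr + 1 + e)
    (fun i hi Q hQ => step hL hz hx (show i < rr + 1 + e + 2 by omega) hQ) Q0 h0
  have hq' : ∀ i, ∃ P lam, i ≤ rr + 1 + e → St s x i (q (i + 1)) (q i) P lam := fun i => by
    by_cases c : i ≤ rr + 1 + e
    exacts [let ⟨P, lam, k⟩ := (hq i c).2; ⟨P, lam, fun _ => k⟩, ⟨Q0, 0, fun k => (c k).elim⟩]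
  choose p lam st using hq'
  have lv : ∀ i ≤ rr + 1 + e, s.vx (q (i + 1)) ∈ s.Lv x (i + 1) ∧ s.vx (q (i + 1)) ∉ s.Lv x i :=
    fun i hi => by
      obtain ⟨-, ks, -, -, -, -, -, -, -, -, -, kw, -⟩ := l4 i (by omega)
      obtain ⟨a1, a2, a3⟩ := (hq i hi).1
      exact ⟨(kw ▸ (⟨⟨a2, _, a1, rfl⟩, a3⟩ : _ ∈ s.Wr U0 x i ∩ s.Nd) :
        _ ∈ s.Kc U0 x i ∩ s.Lv x (i + 1)).2, (ks a2).2⟩
  have inj : ∀ i j, rr + 2 ≤ i → i ≤ rr + 1 + e → rr + 2 ≤ j → j ≤ rr + 1 + e →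
      s.vx (q i) = s.vx (q j) → i = j := fun i j i1 i2 j1 j2 k => by
    obtain ⟨i, rfl⟩ : ∃ i', i = i' + 1 := ⟨i - 1, by omega⟩
    obtain ⟨j, rfl⟩ : ∃ j', j = j' + 1 := ⟨j - 1, by omega⟩
    by_contra n
    rcases Nat.lt_or_gt_of_ne n with c | c
    · exact (lv j (by omega)).2 ((mono (i + 1) j (by omega)).1 (k ▸ (lv i (by omega)).1))
    · exact (lv i (by omega)).2 ((mono (j + 1) i (by omega)).1 (k ▸ (lv j (by omega)).1))
  let L : s.Φ → ZMod 2 := fun f =>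
    if h : ∃ i, rr + 2 ≤ i ∧ i ≤ rr + 1 + e ∧ s.vx f = s.vx (q i) then lam h.choose f else 0
  have hLam : ∀ i, rr + 2 ≤ i → i ≤ rr + 1 + e → ∀ f ∈ s.M.vo (p i), L f = lam i f :=
    fun i i1 i2 f hf => by
      have ef : s.vx f = s.vx (q i) :=
        (hl.of_vo hM (st i i2).mem hf).trans ((st i i2).pos (by omega)).1
      have h : ∃ i, rr + 2 ≤ i ∧ i ≤ rr + 1 + e ∧ s.vx f = s.vx (q i) := ⟨i, i1, i2, ef⟩
      simp only [L, dif_pos h]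
      rw [inj _ i h.choose_spec.1 h.choose_spec.2.1 i1 i2 (h.choose_spec.2.2.symm.trans ef)]
  refine ⟨⟨x, rr, e, fun i => if i = 0 then x else s.vx (q i), p, q, L⟩, rfl, rfl, rfl, rfl,
    fun i hi => ⟨(st i hi).mem, ?_, (st i hi).fo, rfl, ⟨(lv i hi).1, (hq i hi).1.2.1⟩,
      (hq i hi).1.2.2⟩, fun i hi => (st i hi).face, fun i i1 i2 => ?_, fun f hf => dif_neg ?_⟩
  · by_cases c : i = 0
    exacts [((st i hi).zero c).trans (if_pos c).symm, ((st i hi).pos c).1.trans (if_neg c).symm]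
  · obtain ⟨a0, a1, a2, a3, a4⟩ := (st i i2).pos (show i ≠ 0 by have : rr + 2 ≤ i := i1; omega)
    obtain ⟨j, rfl⟩ : ∃ j, i = j + 1 := ⟨i - 1, by have : rr + 2 ≤ i := i1; omega⟩
    have qv : q (j + 1) ∈ s.M.vo (p (j + 1)) := (hl _ (st _ i2).mem _
      (ar_mem hM (hq j (Nat.le_of_succ_le i2)).1.1)).1 a0
    refine ⟨fun y hy => ?_, fun y hy => ?_, (hLam _ i1 i2 _ (orb_self ..)).trans a3,
      (hLam _ i1 i2 _ qv).trans a4⟩
    · exact (hLam _ i1 i2 _ (orb_q hy)).trans ((a1 y hy).trans (by rw [← hLam _ i1 i2 y hy]))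
    · exact (hLam _ i1 i2 _ (orb_p hy)).trans ((a2 y hy).trans (by rw [← hLam _ i1 i2 y hy]))
  · rintro ⟨i, i1, i2, k⟩
    exact hf ⟨i, i1, i2, k.trans (if_neg (show i ≠ 0 by omega)).symm⟩

theorem gamS (_ : BasS) (hA : AreaS) (hL : LevS) : GamS := by
  classical
  intro σ r k q D l U0 z hc
  have h0 := hc.co.ok0
  have hM := h0.hm.ok
  have hl := h0.hm.lbl
  have ge := hc.geo
  have hr := hc.rr
  obtain ⟨mono, l2, -, l4⟩ := hL r.s U0 _ z.x hc.zx hc.hole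
  obtain ⟨-, -, -, a4, a5, -, -, a8, -⟩ := hA r.s U0 _ z.x hc.zx (by omega) hc.hole
  have pS := fun i hi => (ge.pm i hi).1
  have pv := fun i hi => (ge.pm i hi).2.1
  have qf := fun i hi => (ge.pm i hi).2.2.1
  have qv := fun i hi => (ge.pm i hi).2.2.2.1
  have qS : ∀ i ≤ z.m, z.q (i + 1) ∈ r.s.M.S := fun i hi => hM.fo_mem (pS i hi) (qf i hi)
  have gN : ∀ i ≤ z.m, z.γ (i + 1) ∈ r.s.Nd := fun i hi => (ge.pm i hi).2.2.2.2.2
  have c1 : ∀ i ≤ z.m + 1, ∀ j, z.γ i ∈ r.s.Lv z.x j ↔ i ≤ j := fun i hi j => by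
    rcases i with _ | i
    · exact iff_of_true ((mono 0 j (Nat.zero_le _)).1 ge.g0) (Nat.zero_le _)
    · obtain ⟨⟨k1, k2⟩, -⟩ := (ge.pm i (by omega)).2.2.2.2
      exact ⟨fun c => by_contra fun n =>
        ((l4 i (by omega)).2.1 k2).2 ((mono j i (by omega)).1 c), fun c => (mono _ j c).1 k1⟩
  have inj : ∀ i ≤ z.m + 1, ∀ j ≤ z.m + 1, z.γ i = z.γ j → i = j := fun i hi j hj e =>
    le_antisymm ((c1 i hi j).1 (e ▸ (c1 j hj j).2 le_rfl)) ((c1 j hj i).1 (e ▸ (c1 i hi i).2 le_rfl))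
  have c3 : ∀ i ≤ z.m, ∀ j, ∀ g ∈ r.s.M.fo (z.p i), r.s.vx g ∈ r.s.Lv z.x j → i ≤ j :=
    fun i hi j g hg k => by
      have := lv_up (hM.fo_mem (pS i hi) hg) k (orb_trans (hM.fo_symm (pS i hi) hg) (qf i hi))
        (qv i hi ▸ gN i hi)
      rw [qv i hi, c1 (i + 1) (by omega)] at this
      omega
  have c2 : ∀ i ≤ z.m, ∀ j ≤ z.m, z.p j ∈ r.s.M.fo (z.p i) → i = j := fun i hi j hj k =>
    le_antisymm (c3 i hi j _ k (pv j hj ▸ (c1 j (by omega) j).2 le_rfl))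
      (c3 j hj i _ (hM.fo_symm (pS i hi) k) (pv i hi ▸ (c1 i (by omega) i).2 le_rfl))
  have ov : ∀ g ∈ r.s.M.S, ∀ f, one r.s.M.b g f ≠ 0 → r.s.vx f = r.s.vx g ∧ f ∈ r.s.M.fo g :=
    fun g hg f k => by
      rcases HCur.one_ne k with rfl | rfl
      exacts [⟨rfl, orb_self ..⟩, ⟨hl.b hM hg, orb_q (orb_self ..)⟩]
  have l1 : ∀ v, Sum.inl v ∈ r.s.M.rad r.s.vx {z.x} → Sum.inl v ∈ r.s.Lv z.x 1 := fun v k =>
    Or.inr ⟨⟨rad_sub hM k, v, rfl⟩, k⟩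
  have c8 : ∀ y ∈ z.Fi, ∀ v, r.s.G.Adj y v → v ∈ r.s.Lv z.x (z.rr + 1) ∩ r.s.Nd :=
    fun y ⟨hy, u, hu, a⟩ v a' =>
      have n : y ∉ r.s.Nd := HBas.inr_nd hy.1.2
      ⟨(l2 _).2.2 y ⟨⟨hy.1.1, fun k => hy.2 (Or.inl k)⟩, n⟩ u hu v a a',
        by_contra fun k => n ((HBas.adj_nd h0 a').2.2 k)⟩
  have c10 : ∀ a ∈ r.Un z, ∀ v ∈ σ.bd {a} \ r.Λ, Sum.inl v ∈ r.s.Vt →
      Sum.inl v ∈ r.s.Lv z.x (z.rr + 1) := fun a ha v hv k => by
    obtain ⟨⟨a', rfl, k1⟩, -⟩ := id hv.1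
    obtain ⟨y, e, ky⟩ := hc.co.share a' v ⟨⟨k1, mem_iUnion.2 ⟨a', hv.1⟩⟩, hv.2⟩ (Or.inl k)
    rcases ha with e' | ⟨y', hy', e'⟩
    · obtain rfl : y = z.x := Option.some.inj (e.symm.trans e')
      exact (mono 1 _ (by omega)).1 (l1 v (HBas.nb_rad h0 ky))
    · obtain rfl : y = y' := Option.some.inj (e.symm.trans e')
      exact (c8 y hy' _ ky).1
  refine ⟨fun i hi => ⟨c1 i hi, ?_⟩, c2, fun i hi j hj => disjoint_left.2 fun f hf ⟨_, g, hg, k⟩ =>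
    absurd (c3 i hi j g (orb_trans hf hg) k) (by omega), fun i i1 i2 => ?_, fun f hf => ?_,
    fun a b ab hb => ⟨?_, fun f _ k => ?_, fun j hj => ⟨fun f hf => ?_, fun f hf => ?_⟩⟩,
    fun y hy ha => ⟨hy.1, fun v hv k => hy.2 ⟨hy.1, Sum.inl v, (mono 1 _ (by omega)).1
      (l1 v (a4 ⟨k, a8 y ha _ hv (disjoint_left.1 a5 k)⟩)), hv⟩⟩, c8, fun v hv ha => ?_, c10,
    disjoint_left.2 ?_, fun Z hZ low => ⟨?_, fun u hu => ?_⟩⟩
  · rw [Sk.lev, show {j | z.γ i ∈ r.s.Lv z.x j} = Ici i from Set.ext (c1 i hi), csInf_Ici]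
  · obtain ⟨j, rfl⟩ : ∃ j, i = j + 1 := ⟨i - 1, by omega⟩
    have n : z.q (j + 1) ∉ r.s.M.fo (z.p (j + 1)) := fun k =>
      absurd (c2 (j + 1) i2 j (by omega)
        (orb_trans k (hM.fo_symm (pS j (by omega)) (qf j (by omega))))) (by omega)
    exact ⟨(hl _ (pS _ i2) _ (qS j (by omega))).1 ((pv _ i2).trans (qv j (by omega)).symm),
      fun e => n (e ▸ orb_self ..), fun e => n (e ▸ orb_q (orb_self ..))⟩
  · by_cases c : r.s.vx f ∈ z.Γ z.m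
    · obtain ⟨i, i1, i2, e⟩ := c
      exact ((ge.side i i1 i2).1 f ((hl _ (pS i i2) f hf).1 ((pv i i2).trans e.symm))).trans
        (add_zero _)
    · rw [ge.lam0 f c, ge.lam0 _ (hl.c hM hf ▸ c)]
  · induction b, ab using Nat.le_induction with
    | base => rw [Zg.ob, Finset.Ico_self, Finset.sum_empty]; exact .nil _
    | succ b ab ih =>
      rw [Zg.ob, Finset.sum_Ico_succ_top ab, ← add_assoc, ← qv b (by omega)]
      exact .face _ _ (ih (by omega)) (pS b (by omega)) (qf b (by omega)) (pv b (by omega))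
        trivial trivial
  · rw [Zg.ob, Finset.sum_apply] at k
    obtain ⟨i, hi, k⟩ := Finset.exists_ne_zero_of_sum_ne_zero k
    rw [Finset.mem_Ico] at hi
    by_cases c : one r.s.M.b (z.p i) f = 0
    · rw [Pi.add_apply, c, zero_add] at k
      exact ⟨i + 1, by omega, by omega, (ov _ (qS i (by omega)) f k).1.trans (qv i (by omega))⟩
    · exact ⟨i, by omega, by omega, (ov _ (pS i (by omega)) f c).1.trans (pv i (by omega))⟩
  · have ef : r.s.vx f = z.γ j := (hl.of_vo hM (pS j hj) hf).trans (pv j hj)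
    simp only [Zg.ob, Finset.sum_apply, Pi.add_apply, Finset.sum_add_distrib]
    congr 1
    · have z0 : ∀ i ∈ Finset.Ico a b, i ≠ j → one r.s.M.b (z.p i) f = 0 := fun i hi n => by
        rw [Finset.mem_Ico] at hi
        exact by_contra fun k => n (inj i (by omega) j (by omega)
          (((ov _ (pS i (by omega)) f k).1.trans (pv i (by omega))).symm.trans ef))
      split_ifs with c
      · exact Finset.sum_eq_single_of_mem j (Finset.mem_Ico.2 c) z0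
      · exact Finset.sum_eq_zero fun i hi => z0 i hi fun e => c (e ▸ Finset.mem_Ico.1 hi)
    · have z0 : ∀ i ∈ Finset.Ico a b, i + 1 ≠ j → one r.s.M.b (z.q (i + 1)) f = 0 :=
        fun i hi n => by
          rw [Finset.mem_Ico] at hi
          exact by_contra fun k => n (inj (i + 1) (by omega) j (by omega)
            (((ov _ (qS i (by omega)) f k).1.trans (qv i (by omega))).symm.trans ef))
      split_ifs with c
      · obtain ⟨i, rfl⟩ : ∃ i, j = i + 1 := ⟨j - 1, by omega⟩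
        exact Finset.sum_eq_single_of_mem i (Finset.mem_Ico.2 (by omega)) fun i' hi n =>
          z0 i' hi (by omega)
      · exact Finset.sum_eq_zero fun i hi => z0 i hi fun e =>
          c (by rw [Finset.mem_Ico] at hi; omega)
  · have fS := hM.fo_mem (pS j hj) hf
    have z0 : ∀ i ∈ Finset.Ico a b, i ≠ j →
        (one r.s.M.b (z.p i) + one r.s.M.b (z.q (i + 1))) f = 0 := fun i hi n => by
      rw [Finset.mem_Ico] at hi
      have i2 : i ≤ z.m := by omega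
      have n' : f ∉ r.s.M.fo (z.p i) := fun k =>
        n (c2 i i2 j hj (orb_trans k (hM.fo_symm (pS j hj) hf)))
      have e1 : one r.s.M.b (z.p i) f = 0 := by_contra fun k => n' (ov _ (pS i i2) f k).2
      have e2 : one r.s.M.b (z.q (i + 1)) f = 0 :=
        by_contra fun k => n' (orb_trans (qf i i2) (ov _ (qS i i2) f k).2)
      rw [Pi.add_apply, e1, e2, add_zero]
    rw [Zg.ob, Finset.sum_apply]
    split_ifs with c
    · exact Finset.sum_eq_single_of_mem j (Finset.mem_Ico.2 c) z0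
    · exact Finset.sum_eq_zero fun i hi => z0 i hi fun e => c (e ▸ Finset.mem_Ico.1 hi)
  · obtain ⟨⟨f, hf, e⟩, -⟩ := id ha
    exact l1 v (a4 ⟨HBas.po_rh h0 (hc.co.lamn v hv ⟨f, ar_mem hM hf, e⟩), ha⟩)
  · rintro _ ⟨i, -, -, rfl⟩ ⟨j, -, -, e⟩
    exact absurd (congrArg Prod.snd e) (show (0 : ZMod 2) ≠ 1 by decide)
  · refine ((hM.fin.image z.cp).union ((σ.vs_fin univ).prod (toFinite univ))).subset ?_
    rintro u ⟨-, ⟨f, hf, -, e⟩ | ⟨-, a, -, ⟨a', -, k⟩, -⟩⟩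
    exacts [Or.inl ⟨f, hf, e.symm⟩, Or.inr ⟨mem_biUnion (mem_univ a') k, trivial⟩]
  · have sd : Sum.inl u.1 ∈ z.Γ z.m ↔ u ∈ z.Sd 0 ∪ z.Sd 1 := by
      constructor
      · rintro ⟨i, i1, i2, e⟩
        have e' : ∀ c, u.2 = c → u = (nodeOf (z.γ i), c) := fun c k => by rw [← e, ← k]; rfl
        exact (z2_cases u.2).imp (fun k => ⟨i, i1, i2, e' _ k⟩) fun k => ⟨i, i1, i2, e' _ k⟩
      · rintro (⟨i, i1, i2, rfl⟩ | ⟨i, i1, i2, rfl⟩) <;>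
        · obtain ⟨j, rfl⟩ : ∃ j, i = j + 1 := ⟨i - 1, by omega⟩
          exact ⟨_, i1, i2, nd_eq (gN j (by omega))⟩
    obtain ⟨n, ⟨f, hf, k, rfl⟩ | ⟨e, a, ha, k⟩⟩ := hu
    · have e : Sum.inl (z.cp f).1 = r.s.vx f := nd_eq (hZ k)
      exact ⟨h0.od _ ⟨f, hf, e.symm⟩, fun _ => e ▸ k, fun c => ge.lam0 f (e ▸ c), sd⟩
    · obtain ⟨⟨a', -, k1⟩, -⟩ := id k
      exact ⟨k1.2, fun c => low ⟨c10 a ha _ ⟨k, n⟩ c, c, _, rfl⟩, fun _ => e, sd⟩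

end HB

end Pool.Agent.MP_9d78a0_co.gm

end MrgPart4

-- ======== part 5: formerly Pool.Agent.MP_9d78a0_co.gm.HLev
section MrgPart5

/-! Block H: areas of holes, levels and rings. -/

set_option autoImplicit false

namespace Pool.Agent.MP_9d78a0_co.gm

open Set Function FM HBas

namespace HLev

variable {s : Sk} {f g p : s.Φ} {x y u v w : MV} {K K' U0 : Set MV} {R i j : ℕ}

theorem ar_R (k : f ∈ s.ar K x) (e : s.M.R univ (s.M.ind s.vx K)ᶜ f g) : g ∈ s.ar K x :=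
  let ⟨p, hp, e1, k⟩ := k; ⟨p, hp, e1, mem_reg.2 ((mem_reg.1 k).trans e)⟩

theorem ar_mem (h : s.Ok0) (k : f ∈ s.ar K x) : f ∈ s.M.S :=
  let ⟨_, hp, _, k⟩ := k; (mem_reg.1 k).mem h.hm.ok hp

theorem ar_self (hp : p ∈ s.M.S) (e : s.vx p = x) : p ∈ s.ar K x := ⟨p, hp, e, mem_reg.2 .rfl⟩

theorem ar_fo (k : f ∈ s.ar K x) (e : g ∈ s.M.fo f) : g ∈ s.ar K x :=
  ar_R k ((mem_fo.1 e).mono subset_rfl (empty_subset _))

theorem ar_a (k : f ∈ s.ar K x) : s.M.a f ∈ s.ar K x := ar_R k (R.rfl.a trivial)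

theorem ar_vx (h : s.Ok0) (hf : f ∈ s.M.S) (k : s.vx f ∈ s.Ar K x) : f ∈ s.ar K x :=
  let ⟨⟨_, k1, e⟩, k2⟩ := k
  ar_R k1 ((R_of_vx h.hm.ok h.hm.lbl (ar_mem h k1) hf (e ▸ k2) e).mono (empty_subset _) subset_rfl)

theorem ar_eq (h : s.Ok0) (hx : x ∉ K) (hp : p ∈ s.M.S) (e : s.vx p = x) : s.ar K x = s.rg K p :=
  subset_antisymm (fun _ ⟨_, hq, e1, k⟩ => mem_reg.2 (((R_of_vx h.hm.ok h.hm.lbl hp hq (e ▸ hx)
    (e.trans e1.symm)).mono (empty_subset _) subset_rfl).trans (mem_reg.1 k)))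
    fun _ k => ⟨p, hp, e, k⟩

theorem ar_anti (k : K ⊆ K') : s.ar K' x ⊆ s.ar K x := fun _ ⟨p, hp, e, m⟩ =>
  ⟨p, hp, e, JEnc.reg_mono k m⟩

theorem Ar_adj (h : s.Ok0) (hv : v ∈ s.Ar K x) (a : s.G.Adj v w) (hw : w ∉ K) : w ∈ s.Ar K x := by
  obtain ⟨f, hf, rfl, rfl⟩ := exists_adj h.hm.ok a
  exact ⟨⟨_, ar_a (ar_vx h hf hv), rfl⟩, hw⟩

theorem Ar_rad (h : s.Ok0) {D : Set MV} (hD : D ⊆ s.Ar K x) :
    s.M.rad s.vx D ⊆ s.vx '' s.ar K x := fun _ ⟨_, hf, k, g, hg, e⟩ =>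
  ⟨g, ar_fo (ar_vx h hf (hD k)) hg, e⟩

theorem hole_eq (h : s.Ok0) (hK : s.M.Full s.vx s.H K) (hx : x ∈ s.H) (k : f ∈ s.ar K x)
    (hf : s.vx f ∈ s.H) : s.vx f = x :=
  let ⟨p, hp, e, m⟩ := id k; (e ▸ hK.2 p hp f (ar_mem h k) (e ▸ hx) hf m).symm

theorem rad_eq (h : s.Ok0) (hK : s.M.Full s.vx s.H K) (hx : x ∈ s.H) (hy : y ∈ s.H)
    (hv : v ∈ s.Ar K x) (k : v ∈ s.M.rad s.vx {y}) : y = x := by
  obtain ⟨f, hf, rfl, g, hg, rfl⟩ := k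
  exact hole_eq h hK hx (ar_fo (ar_vx h (h.hm.ok.fo_mem hf hg) hv) (h.hm.ok.fo_symm hf hg)) hy

theorem lv_mono (k : i ≤ j) : s.Lv x i ⊆ s.Lv x j :=
  monotone_nat_of_le_succ (f := s.Lv x) (fun _ => subset_union_left) k

theorem lv_zero : x ∈ s.Lv x j := lv_mono j.zero_le rfl

theorem lv_nd : s.Lv x j ⊆ {x} ∪ s.Nd := by
  induction j with
  | zero => exact subset_union_left
  | succ j ih => exact union_subset ih fun _ k => Or.inr k.1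

theorem it_succ (h : s.Ok0) (hx : x ∈ s.Vt) :
    (s.M.rad s.vx)^[j] {x} ⊆ (s.M.rad s.vx)^[j + 1] {x} := by
  rw [iterate_succ_apply']
  refine sub_rad ?_
  cases j with
  | zero => exact singleton_subset_iff.2 hx
  | succ j => rw [iterate_succ_apply']; exact rad_sub h.hm.ok

theorem lv_it (h : s.Ok0) (hx : x ∈ s.Vt) : s.Lv x j ⊆ (s.M.rad s.vx)^[j] {x} := by
  induction j with
  | zero => exact subset_rfl
  | succ j ih =>
    refine union_subset (ih.trans (it_succ h hx)) fun _ k => ?_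
    rw [iterate_succ_apply']
    exact rad_mono ih k.2

theorem rad_far (h : s.Zx U0 R) (hx : x ∈ s.H ∩ s.Vt) (hj : j < R) :
    Disjoint (s.M.rad s.vx (s.Lv x j)) U0 := by
  refine (h.far x hx.1).mono_left (((rad_mono (lv_it h.ok0 hx.2)).trans ?_).trans
    (monotone_nat_of_le_succ (f := fun j => (s.M.rad s.vx)^[j] {x})
      (fun _ => it_succ h.ok0 hx.2) (show j + 1 ≤ R from hj)))
  exact (iterate_succ_apply' ..).superset

theorem lv_far (h : s.Zx U0 R) (hx : x ∈ s.H ∩ s.Vt) (hj : j ≤ R) : Disjoint (s.Lv x j) U0 := by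
  induction j with
  | zero => exact disjoint_singleton_left.2 fun k => (h.sub k).2 hx.1
  | succ j ih =>
    exact disjoint_union_left.2 ⟨ih (by omega), (rad_far h hx hj).mono_left inter_subset_right⟩

theorem lv_Ar (h : s.Ok0) (hx : x ∈ s.Vt) (d : Disjoint (s.Lv x j) K) : s.Lv x j ⊆ s.Ar K x := by
  induction j with
  | zero =>
    obtain ⟨p, hp, e⟩ := hx
    exact singleton_subset_iff.2 ⟨⟨p, ar_self hp e, e⟩, disjoint_left.1 d lv_zero⟩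
  | succ j ih =>
    have k := ih (d.mono_left subset_union_left)
    exact union_subset k fun v m => ⟨Ar_rad h k m.2, disjoint_left.1 d (Or.inr m)⟩

theorem cv_one (h : s.Ok0) (hf : f ∈ s.M.S) (hg : g ∈ s.M.fo f) {C : Set MV} {f0 : s.Φ}
    {ob : s.Φ → ZMod 2} (k : s.M.Cv s.vx ((s.M.fl s.vx C ∪ {f0}) ∩ s.lo x j) ∅ x (s.vx f) ob 0)
    (k1 : s.vx f ∈ C ∨ f = f0) (k2 : s.vx g ∈ C) (k3 : s.vx f ∈ s.Lv x j) :
    ∃ ob, s.M.Cv s.vx ((s.M.fl s.vx C ∪ {f0}) ∩ s.lo x j) ∅ x (s.vx g) ob 0 :=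
  have g1 := h.hm.ok.fo_mem hf hg
  ⟨_, k.face f g hf hg rfl ⟨k1.imp_left fun m => ⟨hf, m⟩, hf, f, Cy.orb_self .., k3⟩
    ⟨Or.inl ⟨g1, k2⟩, g1, f, h.hm.ok.fo_symm hf hg, k3⟩⟩

theorem cv_mono {A B : Set s.Φ} {ob : s.Φ → ZMod 2} (k : s.M.Cv s.vx A ∅ x v ob 0) (e : A ⊆ B) :
    s.M.Cv s.vx B ∅ x v ob 0 := by
  generalize (0 : s.Φ → ZMod 2) = oc at k
  induction k with
  | nil => exact .nil _
  | face f g _ h1 h2 h3 h4 h5 ih => exact ih.face f g h1 h2 h3 (e h4) (e h5)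
  | edge f _ h1 h2 h3 ih => exact ih.edge f h1 h2 h3

theorem curve (h : s.Ok0) (j : ℕ) : ∀ v ∈ s.Lv x (j + 1), v ≠ x → ∃ C ⊆ s.Lv x (j + 1) ∩ s.Nd,
    v ∈ C ∧ C.ncard ≤ j + 1 ∧ ∃ f0 ∈ s.M.S, s.vx f0 = x ∧
      ∃ ob, s.M.Cv s.vx ((s.M.fl s.vx C ∪ {f0}) ∩ s.lo x j) ∅ x v ob 0 := by
  have one : ∀ j, ∀ f ∈ s.M.S, s.vx f = x → ∀ g ∈ s.M.fo f, s.vx g ∈ s.Nd →
      ∃ C ⊆ s.Lv x (j + 1) ∩ s.Nd, s.vx g ∈ C ∧ C.ncard ≤ j + 1 ∧ ∃ f0 ∈ s.M.S, s.vx f0 = x ∧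
        ∃ ob, s.M.Cv s.vx ((s.M.fl s.vx C ∪ {f0}) ∩ s.lo x j) ∅ x (s.vx g) ob 0 :=
    fun j f hf e g hg k => ⟨{s.vx g}, singleton_subset_iff.2 ⟨Or.inr ⟨k, f, hf, e ▸ lv_zero, g, hg,
      rfl⟩, k⟩, rfl, by simp, f, hf, e,
      cv_one h hf hg (by rw [e]; exact .nil _) (Or.inr rfl) rfl (e ▸ lv_zero)⟩
  induction j with
  | zero =>
    rintro _ (k | ⟨k, f, hf, e, g, hg, rfl⟩) n
    exacts [(n k).elim, one 0 f hf e g hg k]
  | succ j ih =>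
    have mo : ∀ {C C' : Set MV} {f0 : s.Φ}, C ⊆ C' → (s.M.fl s.vx C ∪ {f0}) ∩ s.lo x j ⊆
        (s.M.fl s.vx C' ∪ {f0}) ∩ s.lo x (j + 1) := fun e z k =>
      ⟨k.1.imp_left fun m => ⟨m.1, e m.2⟩, k.2.1, k.2.2.imp fun _ m => ⟨m.1, Or.inl m.2⟩⟩
    rintro v (k | ⟨k, f, hf, e, g, hg, rfl⟩) n
    · obtain ⟨C, c1, c2, c3, f0, c4, c5, ob, c6⟩ := ih v k n
      exact ⟨C, c1.trans (inter_subset_inter_left _ subset_union_left), c2, by omega, f0, c4, c5,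
        ob, cv_mono c6 (mo subset_rfl)⟩
    by_cases c : s.vx f = x
    · exact one _ f hf c g hg k
    obtain ⟨C, c1, c2, c3, f0, c4, c5, ob, c6⟩ := ih _ e c
    exact ⟨insert (s.vx g) C, insert_subset ⟨Or.inr ⟨k, f, hf, e, g, hg, rfl⟩, k⟩
      (c1.trans (inter_subset_inter_left _ subset_union_left)), Or.inl rfl,
      (ncard_insert_le _ _).trans (by omega), f0, c4, c5,
      cv_one h hf hg (cv_mono c6 (mo (subset_insert _ _))) (Or.inl (Or.inr c2)) (Or.inl rfl) e⟩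

theorem u_kc : U0 ⊆ s.Kc U0 x j := fun u hu => ⟨u, hu, Link.refl ..⟩

theorem kc_sub (h : s.Zx U0 R) (hx : x ∈ s.H ∩ s.Vt) (hj : j ≤ R) :
    s.Kc U0 x j ⊆ s.tv \ s.Lv x j := fun _ ⟨_, hu, l⟩ =>
  l.mem ⟨h.sub hu, disjoint_right.1 (lv_far h hx hj) hu⟩

theorem kc_conn (h : s.Zx U0 R) : Conn s.G (s.Kc U0 x j) := by
  obtain ⟨u0, h0⟩ := h.conn.1
  refine fb.conn_of_center (u_kc h0) ?_
  rintro v ⟨u, hu, l⟩
  refine ((h.conn.2 u0 h0 u hu).mono u_kc).trans ?_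
  induction l with
  | refl => exact Link.refl ..
  | tail l e ih => exact ih.trans (Link.single ⟨u, hu, l⟩ ⟨u, hu, l.tail e⟩ e.2.2)

theorem kc_adj (h : s.Zx U0 R) (hx : x ∈ s.H ∩ s.Vt) (hj : j ≤ R) (hu : u ∈ s.Kc U0 x j)
    (hv : v ∈ s.tv \ s.Lv x j) (a : s.G.Adj u v) : v ∈ s.Kc U0 x j :=
  let ⟨w, hw, l⟩ := id hu; ⟨w, hw, l.trans (Link.single (kc_sub h hx hj hu) hv a)⟩

theorem kc_lv (h : s.Zx U0 R) (hx : x ∈ s.H ∩ s.Vt) (hj : j ≤ R) :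
    s.Lv x j ⊆ s.Ar (s.Kc U0 x j) x :=
  lv_Ar h.ok0 hx.2 (disjoint_right.2 fun _ k => (kc_sub h hx hj k).2)

theorem kc_out (h : s.Zx U0 R) (hx : x ∈ s.H ∩ s.Vt) (hj : j ≤ R) :
    s.tv \ s.Kc U0 x j ⊆ s.Ar (s.Kc U0 x j) x := by
  intro v hv
  obtain ⟨u, hu⟩ := h.conn.1
  obtain ⟨w, w', w1, -, w2, w3, a, l⟩ := fb.link_exit (T := (s.Kc U0 x j)ᶜ)
    (h.tvc.2 v hv.1 u (h.sub hu)) hv.2 fun k => k (u_kc hu)
  have k : w ∈ s.Ar (s.Kc U0 x j) x := kc_lv h hx hj (by_contra fun n =>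
    w2 (kc_adj h hx hj (not_not.1 w3) ⟨w1, n⟩ a.symm))
  replace l := l.symm
  clear hv
  induction l with
  | refl => exact k
  | tail _ e ih => exact Ar_adj h.ok0 ih e.2.2 e.2.1.2

theorem face (h : s.Zx U0 R) (hx : x ∈ s.H ∩ s.Vt) (hj : j ≤ R) (hf : f ∈ s.ar (s.Kc U0 x j) x)
    (k : s.vx f ∈ s.Kc U0 x j) : ∃ g ∈ s.M.fo f, s.vx g ∈ s.Lv x j ∧
      (s.vx g = x ∨ ∃ w ∈ s.Kc U0 x j, s.G.Adj w (s.vx g)) := by
  have h0 := h.ok0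
  have hM := h0.hm.ok
  have f1 := ar_mem h0 hf
  obtain ⟨z, z1, z2, z3⟩ : ∃ z ∈ s.M.fo f, s.vx z ∈ s.Kc U0 x j ∧
      s.vx (s.M.a z) ∉ s.Kc U0 x j := by
    by_contra! c
    obtain ⟨p, hp, e, m⟩ := hf
    have m' : p ∈ s.rg (s.Kc U0 x j) f := by rw [rg_eq h0 hp m]; exact mem_reg.2 .rfl
    refine (kc_sub h hx hj (e ▸ ((mem_reg.1 m').ind
      (p := fun z => z ∈ s.M.fo f ∧ s.vx z ∈ s.Kc U0 x j) hM f1 ⟨Cy.orb_self .., k⟩
      (fun z hz m => ⟨Cy.orb_q m.1, by rw [h0.hm.lbl.b hM hz]; exact m.2⟩)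
      (fun z _ _ m => ⟨Cy.orb_p m.1, c z m.1 m.2⟩)
      fun z hz n m => (n ⟨hz, m.2, c z m.1 m.2⟩).elim).2)).2 lv_zero
  have z0 := hM.fo_mem f1 z1
  have a : s.G.Adj (s.vx z) (s.vx (s.M.a z)) := ⟨(h0.hm.simple z z0).1, z, z0, Or.inl ⟨rfl, rfl⟩⟩
  refine ⟨_, Cy.orb_p z1, ?_, Or.inr ⟨_, z2, a⟩⟩
  by_cases c : s.vx (s.M.a z) ∈ s.H
  · rw [hole_eq h0 (h.full.mono hM h0.hm.lbl u_kc) hx.1 (ar_a (ar_fo hf z1)) c]
    exact lv_zero
  · exact by_contra fun n => z3 (kc_adj h hx hj z2 ⟨⟨⟨_, hM.a_mem z0, rfl⟩, c⟩, n⟩ a)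

theorem wr_flag (h : s.Zx U0 R) (hv : v ∈ s.Wr U0 x j) :
    ∃ f ∈ s.ar (s.Kc U0 x j) x ∩ s.M.ind s.vx (s.Kc U0 x j), s.vx f = v := by
  have h0 := h.ok0
  have hM := h0.hm.ok
  have hL := h0.hm.lbl
  obtain ⟨k, g, hg, rfl⟩ := hv
  have g1 := ar_mem h0 hg
  obtain ⟨u, hu, n⟩ := h.two.exists_ne (s.vx g)
  obtain e | ⟨w, e, -⟩ := ((kc_conn h).2 _ k u (u_kc hu)).cases_head
  · exact (n e.symm).elim
  obtain ⟨z, hz, e1, rfl⟩ := exists_adj hM e.2.2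
  have hU := es_ind hM hL (s.Kc U0 x j)
  obtain ⟨w, hw, r⟩ := sat_R hU ⟨z, ⟨hz, e1 ▸ k, e.2.1⟩, (hL z hz g g1).1 e1⟩
  exact ⟨w, ⟨ar_R hg ((r.symm hM cl_empty (hU.cl.compl hM) hw.1).mono (empty_subset _) subset_rfl),
    hw⟩, (hL w hw.1 g g1).2 (mem_vo.2 (r.mono subset_rfl (subset_univ _)))⟩

theorem ring (h : s.Zx U0 R) (hx : x ∈ s.H ∩ s.Vt) (hj : j ≤ R) (hp : p ∈ s.M.S)
    (e : s.vx p = x) : s.Ring (s.Wr U0 x j) p (s.Kc U0 x j \ s.Wr U0 x j) := by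
  have h0 := h.ok0
  have hM := h0.hm.ok
  have hL := h0.hm.lbl
  have hU := es_ind hM hL (s.Kc U0 x j)
  have e1 := ar_eq h0 (fun k => (kc_sub h hx hj k).2 lv_zero) hp e
  refine ⟨?_, fun v k => (kc_sub h hx hj k.1).1, fun v ⟨_, g, hg, k⟩ =>
    ⟨g, JEnc.reg_mono inter_subset_left (e1.subset hg), k⟩, disjoint_left.2 ?_⟩
  · obtain ⟨f, f1, f2⟩ : (s.rg (s.Kc U0 x j) p ∩ s.M.ind s.vx (s.Kc U0 x j)).Nonempty := by
      obtain ⟨u, hu, v, hv, n⟩ := h.two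
      obtain k | ⟨w, k, -⟩ := (h.conn.2 u hu v hv).cases_head
      · exact (n k).elim
      obtain ⟨z, hz, rfl, rfl⟩ := exists_adj hM k.2.2
      exact (regBC _ _ _ hM hU p hp).2.2.2.2 ⟨z, h0.hm.con p hp z hz, hz, u_kc k.1, u_kc k.2.1⟩
    refine fb.conn_of_center (a := s.vx f) ⟨f2.2.1, f, e1.superset f1, rfl⟩ fun v hv => ?_
    obtain ⟨g, ⟨g1, g2⟩, rfl⟩ := wr_flag h hv
    have m : g ∈ s.rg (s.Kc U0 x j) f := by rw [rg_eq h0 hp f1]; exact e1.subset g1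
    have m1 := (sub_R hM hU f2 g2).1 (mem_fo.1 (((regS _ _ _ hM hU (con_ind hM hL (kc_conn h))
      (h.full.mono hM hL u_kc).1).2 f f2).subset ⟨m, g2⟩))
    exact (m1.ind (p := fun z => z ∈ s.ar (s.Kc U0 x j) x ∧
      Link s.G (s.Wr U0 x j) (s.vx f) (s.vx z)) hM f2.1 ⟨e1.superset f1, Link.refl ..⟩
      (fun z hz k => ⟨ar_R k.1 FM.R.rfl.b, by rw [hL.b hM hz]; exact k.2⟩)
      (fun z hz n k => ⟨ar_a k.1, k.2.trans (Gph.link_a hz ⟨n.2.2.1, z, k.1, rfl⟩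
        ⟨n.2.2.2, _, ar_a k.1, rfl⟩)⟩)
      fun z hz n k => ⟨ar_R k.1 (FM.R.rfl.c (n.resolve_left id)), by
        rw [hL.c hM hz]; exact k.2⟩).2
  · rintro _ k ⟨g, hg, rfl⟩
    refine k.2 ⟨k.1, g, (mem_reg.1 hg).ind (p := fun z => z ∈ s.ar (s.Kc U0 x j) x) hM hp
      (ar_self hp e) (fun z _ k => ar_R k FM.R.rfl.b) (fun z _ _ k => ar_a k)
      (fun z hz n k => ar_R k (FM.R.rfl.c fun m =>
        n ⟨hz, ⟨m.2.1, z, k, rfl⟩, m.2.2, _, ar_a k, rfl⟩)), rfl⟩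

theorem wr_rad (h : s.Zx U0 R) (hx : x ∈ s.H ∩ s.Vt) (hj : j ≤ R) :
    s.Wr U0 x j ⊆ s.M.rad s.vx (s.Lv x j) := by
  rintro _ ⟨k, f, hf, rfl⟩
  obtain ⟨g, hg, m, -⟩ := face h hx hj hf k
  have f1 := ar_mem h.ok0 hf
  exact ⟨g, h.ok0.hm.ok.fo_mem f1 hg, m, f, h.ok0.hm.ok.fo_symm f1 hg, rfl⟩

theorem wr_node (h : s.Zx U0 R) (hy : y ∈ s.Wr U0 x j \ s.Nd) :
    ∃ v ∈ s.Wr U0 x j ∩ s.Nd, s.G.Adj y v := by
  obtain ⟨f, ⟨f1, f2⟩, rfl⟩ := wr_flag h hy.1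
  exact ⟨_, ⟨⟨f2.2.2, _, ar_a f1, rfl⟩, by_contra fun k => hy.2 ((h.ok0.bip f f2.1).2 k)⟩,
    (h.ok0.hm.simple f f2.1).1, f, f2.1, Or.inl ⟨rfl, rfl⟩⟩

end HLev

namespace HB

open HLev

theorem areaS (_ : BasS) : AreaS := by
  intro s U0 R x h hR hx
  have h0 := h.ok0
  have hM := h0.hm.ok
  have d : Disjoint s.RH U0 := disjoint_left.2 fun v ⟨f, hf, k, m⟩ =>
    disjoint_left.1 (h.far _ k) (rad_sub_iter hM hR ⟨f, hf, rfl, m⟩)
  have ax : ∀ x ∈ s.H ∩ s.Vt, x ∈ s.Ar U0 x := fun x hx =>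
    lv_Ar h0 hx.2 (lv_far h hx R.zero_le) rfl
  refine ⟨fun K k p hp e => ar_eq h0 k hp e, subset_antisymm ?_ (singleton_subset_iff.2
    ⟨hx.1, ax x hx⟩), fun v k => ⟨Ar_rad h0 (singleton_subset_iff.2 (ax x hx)) k,
      disjoint_left.1 d (rad_mono (singleton_subset_iff.2 hx.1) k)⟩, ?_, d, fun v k => ?_,
    fun y k => ?_, fun v k w => Ar_adj h0 k, fun f => ar_vx h0, fun x' hx' n => ?_⟩
  · rintro _ ⟨k, ⟨f, hf, rfl⟩, -⟩
    exact hole_eq h0 h.full hx.1 hf k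
  · rintro v ⟨⟨f, hf, k, m⟩, k1⟩
    exact rad_eq h0 h.full hx.1 k k1 ⟨f, hf, rfl, m⟩ ▸ ⟨f, hf, rfl, m⟩
  · exact ((tv_eq h0).subset (h.sub k)).resolve_right fun m => disjoint_left.1 d (rm_rh h0 m) k
  · obtain ⟨z, z1, z2, z3⟩ := h0.rim y ⟨k.1, image_mono (fun _ => ar_mem h0) k.2.1⟩
    exact rad_eq h0 h.full hx.1 z1.1 k.2 z2 ▸ z3
  · have d1 : Disjoint (s.ar U0 x) (s.ar U0 x') := disjoint_left.2 fun f k ⟨p, hp, e, m⟩ => by
      have m' : p ∈ s.rg U0 f := by rw [rg_eq h0 hp m]; exact mem_reg.2 .rfl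
      exact n (e ▸ hole_eq h0 h.full hx.1 (ar_R k (mem_reg.1 m')) (e ▸ hx'.1))
    refine ⟨d1, disjoint_left.2 ?_⟩
    rintro _ ⟨⟨f, hf, rfl⟩, -⟩ k
    exact disjoint_left.1 d1 hf (ar_vx h0 (ar_mem h0 hf) k)

theorem levS (_ : BasS) (ha : AreaS) : LevS := by
  intro s U0 R x h hx
  have h0 := h.ok0
  have hM := h0.hm.ok
  have nd : ∀ y v, y ∉ s.Nd → s.G.Adj y v → v ∈ s.Nd := fun y v c e =>
    by_contra fun k => c ((adj_nd h0 e).2.2 k)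
  refine ⟨fun i j k => ⟨lv_mono k, fun _ ⟨u, hu, l⟩ =>
    ⟨u, hu, l.mono (sdiff_subset_sdiff_right (lv_mono k))⟩⟩, fun j => ⟨lv_nd, lv_it h0 hx.2,
      fun y hy u hu v a b => ?_⟩, curve h0, fun j hj => ?_⟩
  · obtain ⟨-, u, rfl⟩ := nd _ _ hy.2 a
    obtain ⟨k, v, rfl⟩ := nd _ _ hy.2 b
    exact Or.inr ⟨⟨k, v, rfl⟩, rad_mono (singleton_subset_iff.2 hu) (nb_face h0 hy a b)⟩
  have o1 : s.tv \ s.Kc U0 x j ⊆ s.Ar U0 x := fun v k =>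
    ⟨image_mono (ar_anti u_kc) (kc_out h hx hj.le k).1, fun m => k.2 (u_kc m)⟩
  have o2 : s.Wr U0 x j ⊆ s.Ar U0 x := fun v k =>
    ⟨image_mono (ar_anti u_kc) k.2, disjoint_left.1 (rad_far h hx hj) (wr_rad h hx hj.le k)⟩
  refine ⟨u_kc, kc_sub h hx hj.le, kc_conn h, h.full.mono hM h0.hm.lbl u_kc,
    fun u hu v => kc_adj h hx hj.le hu, lv_Ar h0 hx.2 (lv_far h hx hj), o1,
    fun y hy v hv a => ?_, fun f hf k1 k2 => ?_, fun f => face h hx hj.le,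
    fun p => ring h hx hj.le, subset_antisymm (fun v k => ⟨k.1.1, Or.inr ⟨k.2,
      wr_rad h hx hj.le k.1⟩⟩) ?_, fun y => wr_node h, o2, fun h1 v k => ?_⟩
  · have v1 : v ∈ s.tv := (tv_eq h0).superset (Or.inl (Or.inl hv.1))
    refine Ar_adj h0 (o1 ⟨v1, hv.2⟩) a.symm fun k => ?_
    obtain ⟨f, hf, rfl, rfl⟩ := exists_adj hM a.symm
    exact disjoint_left.1 (rad_far h hx hj) ⟨f, hf, by_contra fun n =>
      hv.2 (kc_adj h hx hj.le (u_kc k) ⟨v1, n⟩ a), _, Cy.orb_p (Cy.orb_self ..), rfl⟩ k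
  · by_cases c : s.vx f ∈ s.H
    · exact ar_self hf (by_contra fun n => k2 ⟨c, n⟩)
    · exact ar_vx h0 hf (kc_out h hx hj.le ⟨⟨⟨f, hf, rfl⟩, c⟩, k1⟩)
  · rintro v ⟨k, m | m⟩
    exacts [((kc_sub h hx hj.le k).2 m).elim, ⟨⟨k, Ar_rad h0 (kc_lv h hx hj.le) m.2⟩, m.1⟩]
  · refine ((tv_eq h0).subset (kc_sub h hx hj.le k.1).1).resolve_right fun m => ?_
    obtain ⟨_, ⟨u1, u2, u, rfl⟩, a⟩ := wr_node h ⟨k, inr_nd (h0.hr.2.1 m.1)⟩
    exact (kc_sub h hx hj.le u1.1).2 (lv_mono h1 (Or.inr ⟨⟨u2, u, rfl⟩, nb_rad h0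
      ((ha s U0 R x h (by omega) hx).2.2.2.2.2.2.1 v ⟨m.1, o2 k⟩ a)⟩))

end HB

end Pool.Agent.MP_9d78a0_co.gm

end MrgPart5

-- marker of a merged file
example : 731051 + 425626 = 731051 + 425626 := rfl
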