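import Mathlib.Data.ZMod.Basic
import Pool.Agent.MP_9d78a0_co.fb.S2
import Pool.Agent.MP_9d78a0_co.gm.CSame
import Mathlib.Combinatorics.SimpleGraph.Tutte
import Mathlib.Data.Set.Finite.List

-- ======== part 0: formerly Pool.Agent.MP_9d78a0_co.gm.OddDef
section MrgPart0

/-! Odd paths between the vertices of a set, and odd cycles on a stem: the statements. -/

set_option autoImplicit false

namespace Pool.Agent.MP_9d78a0_co.gm

open Set Function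

variable {V : Type}

/-- the parity of the steps `s, …, l - 1` of a sequence -/
def par (β : V → V → ZMod 2) (f : ℕ → V) (s l : ℕ) : ZMod 2 :=
  ∑ j ∈ Finset.Ico s l, β (f j) (f (j + 1))

/-- an odd path in `D` with its ends, and only its ends, in `A` -/
structure OddP (G : SimpleGraph V) (β : V → V → ZMod 2) (D A : Set V) (f : ℕ → V) (l : ℕ) :
    Prop where
  path : fb.IsPath G D f l
  first : f 0 ∈ A
  last : f l ∈ A
  inner : ∀ j, 0 < j → j < l → f j ∉ A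
  odd : par β f 0 l = 1

/-- a path in `D` from `A` whose last vertex is joined to the vertex `f s`, closing an odd cycle -/
structure Lol (G : SimpleGraph V) (β : V → V → ZMod 2) (D A : Set V) (f : ℕ → V) (s l : ℕ) :
    Prop where
  path : fb.IsPath G D f l
  first : f 0 ∈ A
  inner : ∀ j, 0 < j → j ≤ l → f j ∉ A
  le : s + 2 ≤ l
  close : G.Adj (f l) (f s)
  odd : par β f s l + β (f l) (f s) = 1

/-- many disjoint odd paths, or a small set that meets all of them -/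
def OddS : Prop :=
  ∀ (V : Type) (G : SimpleGraph V) (β : V → V → ZMod 2) (D A : Set V) (N : ℕ), D.Finite →
    (∀ u v, β u v = β v u) →
    (∃ (f : Fin N → ℕ → V) (l : Fin N → ℕ), (∀ i, OddP G β D A (f i) (l i)) ∧
      Pairwise (Disjoint on fun i => f i '' Iic (l i))) ∨
    ∃ X ⊆ D, X.ncard ≤ 2 * N ∧ ∀ f l, ¬ OddP G β (D \ X) A f l

/-- without odd paths: many disjoint odd cycles on stems, or a potential off a small set -/
def WalkS : Prop :=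
  ∀ (V : Type) (G : SimpleGraph V) (β : V → V → ZMod 2) (D A : Set V) (N : ℕ), D.Finite →
    (∀ u v, β u v = β v u) → (∀ f l, ¬ OddP G β D A f l) →
    (∃ (f : Fin N → ℕ → V) (s l : Fin N → ℕ), (∀ i, Lol G β D A (f i) (s i) (l i)) ∧
      Pairwise (Disjoint on fun i => f i '' Iic (l i))) ∨
    ∃ X ⊆ D, X.ncard < N ∧ ∃ φ : V → ZMod 2, (∀ a ∈ A, φ a = 0) ∧
      ∀ a ∈ A, a ∈ D \ X → ∀ u, Link G (D \ X) a u → ∀ v ∈ D \ X, G.Adj u v → β u v = φ u + φ v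

end Pool.Agent.MP_9d78a0_co.gm

end MrgPart0

-- ======== part 1: formerly Pool.Agent.MP_9d78a0_co.gm.SpecR0
section MrgPart1

/-! Routing (blocks D, E): general statements on maps. -/

set_option autoImplicit false

namespace Pool.Agent.MP_9d78a0_co.gm

open Set Function

namespace FM

variable {Φ V : Type} (M : FM Φ)

open Classical in
/-- one step of the walk round a face of the submap on `C`, seen in `M` -/
noncomputable def wk (C : Set Φ) (x : Φ) : Φ := M.b (if x ∈ C then M.a x else M.c x)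

/-- `O 0, …, O (n - 1)` is one turn of the walk round a face of the submap on `C` -/
structure Turn (C : Set Φ) (O : ℕ → Φ) (n : ℕ) : Prop where
  pos : 0 < n
  mem : ∀ i, O i ∈ M.S
  step : ∀ i, O (i + 1) = M.wk C (O i)
  per : ∀ i j, O i = O j ↔ i ≡ j [MOD n]
  two : ∀ i j, O i ≠ M.b (O j)
  face : ∀ g, g ∈ (M.gh C ∅).fo (O 0) ↔ ∃ i < n, g = O i ∨ g = M.b (O i)

variable (vx : Φ → V)

/-- walks along edges of `C` inside the vertex set `D` -/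
def EL (C : Set Φ) (D : Set V) (u v : V) : Prop :=
  Relation.ReflTransGen (fun u v => u ∈ D ∧ v ∈ D ∧ ∃ x ∈ C, vx x = u ∧ vx (M.a x) = v) u v

/-- a function on the edges that is even on the faces without a hole -/
def Adm (H : Set V) (β : Φ → ZMod 2) : Prop :=
  M.Ech β ∧ ∀ f ∈ M.S, Disjoint (vx '' M.fo f) H → Ev M.a M.b β 0 f

/-- `ψ` is a potential of `β` on the edges `E` -/
def Pt (β : Φ → ZMod 2) (ψ : V → ZMod 2) (E : Set Φ) : Prop :=
  ∀ f ∈ E, β f = ψ (vx f) + ψ (vx (M.a f))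

/-- `β` has a potential on the edges inside `K` -/
def Cob (β : Φ → ZMod 2) (K : Set V) : Prop := ∃ ψ, M.Pt vx β ψ (M.ind vx K)

/-- the face of `U` through `f` fills its region, which is a disc without a hole -/
structure Good (H : Set V) (U : Set Φ) (f : Φ) : Prop where
  hole : ∀ g ∈ M.reg U f, vx g ∉ H
  face : M.reg U f ∩ M.sat U ⊆ (M.gh U ∅).fo f
  pot : ∀ β, M.Adm vx H β →
    ∃ χ, Pot (M.reg U f) M.a β χ ∧ Pot (M.reg U f) M.b 0 χ ∧ Pot (M.reg U f \ U) M.c 0 χ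

end FM

/-- the walk round a face -/
def TurnS : Prop :=
  ∀ (Φ : Type) (M : FM Φ) (C : Set Φ), M.Ok → M.Es C → ∀ f ∈ M.S,
    ∃ n, M.Turn C (fun i => (M.wk C)^[i] f) n

/-- on a sphere, two disjoint connected sets do not alternate round a face -/
def XfS : Prop :=
  ∀ (Φ V : Type) (M : FM Φ) (vx : Φ → V) (C : Set Φ) (O : ℕ → Φ) (n i1 i2 i3 i4 : ℕ)
    (P Q : Set V), M.Ok → M.Lbl vx → M.Es C → (M.sub C).eg = 0 → M.Turn C O n → i1 < i2 →
    i2 < i3 → i3 < i4 → i4 < i1 + n → Disjoint P Q → vx (O i1) ∈ P → vx (O i2) ∈ Q →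
    M.EL vx C P (vx (O i1)) (vx (O i3)) → M.EL vx C Q (vx (O i2)) (vx (O i4)) → False

/-- adding bridges -/
def TreeS : Prop :=
  ∀ (Φ V : Type) (M : FM Φ) (vx : Φ → V) (C C' : Set Φ), M.Ok → M.Lbl vx → M.Es C → M.Es C' →
    C ⊆ C' → (∀ e ∈ C' \ C, M.BrIn C' e) → (M.sub C').eg = (M.sub C).eg ∧
    (∀ f ∈ M.S, (M.gh C ∅).fo f ⊆ (M.gh C' ∅).fo f) ∧
    (∀ e ∈ C' \ C, M.c e ∈ (M.gh C' ∅).fo e) ∧
    ∀ β ψ, M.Ech β → (M.sub C).Con → M.Pt vx β ψ C →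
      ∃ ψ', M.Pt vx β ψ' C' ∧ ∀ f ∈ C, ψ' (vx f) = ψ (vx f)

/-- a spanning forest relative to a set of edges -/
def RelS : Prop :=
  ∀ (Φ V : Type) (M : FM Φ) (vx : Φ → V) (C E : Set Φ), M.Ok → M.Lbl vx → M.Es C → M.Es E →
    C ⊆ E → ∃ C', C ⊆ C' ∧ C' ⊆ E ∧ M.Es C' ∧ (∀ e ∈ C' \ C, M.BrIn C' e) ∧
      ∀ u v, M.EL vx E univ u v → M.EL vx C' univ u v

/-- contraction of a disc keeps the genus -/
def ContrS : Prop :=
  ∀ (Φ : Type) (M : FM Φ) (U C : Set Φ), M.Ok → M.Es U → M.Es C → Disjoint U C →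
    (M.sub C).Con → (M.sub C).eg = 0 →
    (∀ f ∈ U ∩ M.sat C, ∀ g ∈ U ∩ M.sat C, g ∈ (M.gh C ∅).fo f) →
    (M.minor U C).eg = (M.sub (U ∪ C)).eg

/-- a region does not have exactly one odd face -/
def SumS : Prop :=
  ∀ (Φ : Type) (M : FM Φ) (U : Set Φ) (β : Φ → ZMod 2), M.Ok → M.Es U → M.Ech β →
    (∀ f ∈ U, β f = 0) → ∀ p ∈ M.S, (∀ g ∈ M.reg U p, g ∉ M.fo p → Ev M.a M.b β 0 g) →
    Ev M.a M.b β 0 p

/-- a face of a submap is made of the segments after the flags of a face of the minor -/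
def SegS : Prop :=
  ∀ (Φ : Type) (M : FM Φ) (U C : Set Φ), M.Ok → M.Es U → M.Es C → Disjoint U C → ∀ f ∈ U,
    (M.minor U C).fo f = (M.gh (U ∪ C) ∅).fo f ∩ U ∧
    (M.sub (U ∪ C)).fo f = (M.gh (U ∪ C) ∅).fo f ∩ (U ∪ C) ∧
    (∃ d, (∀ d' < d, (M.wk C)^[d'] (M.b f) ∉ U) ∧ (M.minor U C).b f = (M.wk C)^[d] (M.b f)) ∧
    ∀ g ∈ (M.gh (U ∪ C) ∅).fo f, ∃ p ∈ (M.minor U C).fo f, ∃ d,
      (∀ d' < d, (M.wk C)^[d'] (M.b p) ∉ U) ∧
      (g = (M.wk C)^[d] (M.b p) ∨ M.b g = (M.wk C)^[d] (M.b p))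

/-- few faces of a connected submap are not good -/
def GoodS : Prop :=
  ∀ (k q : ℕ) (Φ V : Type) (M : FM Φ) (vx : Φ → V) (H : Set V) (U : Set Φ), M.Ok → M.Lbl vx →
    M.eg ≤ k → (H ∩ vx '' M.S).ncard ≤ q → M.Es U → (M.sub U).Con → Disjoint H (vx '' U) →
    ((M.sub U).fo '' {f | f ∈ U ∧ ¬ M.Good vx H U f}).ncard ≤ k + q

end Pool.Agent.MP_9d78a0_co.gm

end MrgPart1

-- ======== part 2: formerly Pool.Agent.MP_9d78a0_co.gm.SpecR1
section MrgPart2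

/-! Routing (blocks D, E): charts, shells, bands, combs. -/

set_option autoImplicit false

namespace Pool.Agent.MP_9d78a0_co.gm

open Set Function

/-- a block of a grid with doubled coordinates -/
structure Ch (V : Type) where
  s : ℕ
  i0 : ℕ
  j0 : ℕ
  Ω : Set V
  x : V → ℕ
  y : V → ℕ

namespace Ch

variable {Φ V : Type} (ch : Ch V)

/-- a rectangle -/
def box (a a' b b' : ℕ) : Set V :=
  {v | v ∈ ch.Ω ∧ a ≤ ch.x v ∧ ch.x v ≤ a' ∧ b ≤ ch.y v ∧ ch.y v ≤ b'}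

/-- the cell in row `r` and column `c` -/
def cell (r c : ℕ) : Set V := ch.box (2 * r) (2 * r) (2 * c) (2 * c)

/-- the open and the closed unit square -/
def zone (r c : ℕ) : Set V := ch.box (2 * r + 1) (2 * r + 1) (2 * c + 1) (2 * c + 1)
def sq (r c : ℕ) : Set V := ch.box (2 * r) (2 * r + 2) (2 * c) (2 * c + 2)

/-- the concentric square at depth `t` -/
def core (t : ℕ) : Set V := ch.box (2 * t) (2 * (ch.s - t)) (2 * t) (2 * (ch.s - t))

/-- central columns -/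
def cen (μ c : ℕ) : Prop := μ < c ∧ c + μ < ch.s

/-- a vertex of an open square is joined inside it to a cell -/
def Lk (G : SimpleGraph V) (r c : ℕ) (v : V) (r' c' : ℕ) : Prop :=
  ∃ u ∈ ch.cell r' c', Link G (ch.zone r c ∪ {u}) v u

/-- the rules of a chart -/
structure Ok (M : FM Φ) (vx : Φ → V) (H : Set V) {g : ℕ} (B : Fin g × Fin g → Set V) : Prop where
  sub : ch.Ω ⊆ M.tv vx H \ M.rad vx H
  le : ∀ v ∈ ch.Ω, ch.x v ≤ 2 * ch.s ∧ ch.y v ≤ 2 * ch.s ∧ ch.x v % 2 = ch.y v % 2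
  fit : ch.i0 + ch.s < g ∧ ch.j0 + ch.s < g
  br : ∀ r ≤ ch.s, ∀ c ≤ ch.s, ∀ p : Fin g × Fin g, (p.1 : ℕ) = ch.i0 + r →
    (p.2 : ℕ) = ch.j0 + c → B p ⊆ ch.cell r c
  conn : ∀ r ≤ ch.s, ∀ c ≤ ch.s, Conn (M.gph vx) (ch.cell r c)
  hor : ∀ r ≤ ch.s, ∀ c < ch.s, fb.Touch (M.gph vx) (ch.cell r c) (ch.cell r (c + 1))
  ver : ∀ r < ch.s, ∀ c ≤ ch.s, fb.Touch (M.gph vx) (ch.cell r c) (ch.cell (r + 1) c)
  zone : ∀ r c, ∀ v ∈ ch.zone r c,
    (ch.Lk (M.gph vx) r c v r c ∧ ch.Lk (M.gph vx) r c v (r + 1) (c + 1)) ∨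
      (ch.Lk (M.gph vx) r c v r (c + 1) ∧ ch.Lk (M.gph vx) r c v (r + 1) c)
  face : ∀ f ∈ M.S, vx f ∈ ch.box 1 (2 * ch.s - 1) 1 (2 * ch.s - 1) →
    ∃ r < ch.s, ∃ c < ch.s, ∀ g ∈ M.fo f, vx g ∈ ch.sq r c
  cob : ∀ β, M.Adm vx H β → M.Cob vx β ch.Ω

end Ch

/-- every small set misses a cross that meets `D` -/
def Hit {V : Type} {g : ℕ} (B : Fin g × Fin g → Set V) (D : Set V) (n : ℕ) : Prop :=
  ∀ X : Set V, X.Finite → X.ncard ≤ n →
    ∃ i j, Disjoint (Cross B i j) X ∧ (Cross B i j ∩ D).Nonempty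

namespace FM

variable {Φ V : Type} (M : FM Φ) (vx : Φ → V)

/-- the vertices of height strictly between `0` and `2 m` -/
def mid (ht : V → ℕ) (m : ℕ) : Set V := {v | v ∈ vx '' M.S ∧ 0 < ht v ∧ ht v < 2 * m}

/-- a set `P` that is protected by `m` shells, with the pegs `A` -/
structure Shell {g : ℕ} (B : Fin g × Fin g → Set V) (H P A : Set V) (ht : V → ℕ) (R n m : ℕ) :
    Prop where
  zero : ∀ v, v ∈ P ↔ v ∈ vx '' M.S ∧ ht v = 0
  step : ∀ f ∈ M.S, ∀ g ∈ M.fo f, ∀ j ≤ m, ht (vx f) < 2 * j → ht (vx g) ≤ 2 * j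
  hole : ∀ v ∈ M.rad vx H, 2 * m ≤ ht v
  peg : A ⊆ M.mid vx ht m
  hit : Hit B P n
  gate : ∀ X : Set V, X.Finite → X.ncard ≤ n → ∃ j, R < j ∧ j < m ∧ ∀ v ∈ vx '' M.S,
    ht v = 2 * j → v ∉ X ∧ ∃ a ∈ A, a ∉ X ∧ Link (M.gph vx) (M.mid vx ht m \ X) v a ∧
      ∃ i i', Disjoint (Cross B i i') X ∧ a ∈ Cross B i i'

/-- the edges `e 0, …, e l` form a walk whose vertices after the first and before the last are
different and lie in `D` -/
structure Ear (D : Set V) (e : ℕ → Φ) (l : ℕ) : Prop where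
  pos : 0 < l
  mem : ∀ j ≤ l, e j ∈ M.S
  next : ∀ j < l, vx (M.a (e j)) = vx (e (j + 1))
  inner : ∀ j, 0 < j → j ≤ l → vx (e j) ∈ D
  inj : ∀ i, 0 < i → i ≤ l → ∀ j, 0 < j → j ≤ l → vx (e i) = vx (e j) → i = j

end FM

/-- the inner vertices of an ear -/
def earV {Φ V : Type} (vx : Φ → V) (e : ℕ → Φ) (l : ℕ) : Set V := (fun j => vx (e j)) '' Icc 1 l

/-- `r` bands of `w` strands -/
structure Bn (V : Type) where
  r : ℕ
  w : ℕ
  col : ℕ → Bool → ℕ → ℕ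
  up : ℕ → Bool
  St : ℕ → ℕ → Set V
  Zo : ℕ → ℕ → Set V

namespace Bn

variable {Φ V : Type} (bn : Bn V) (ch : Ch V)

/-- the extreme columns of an end of a band -/
def lo (b : ℕ) (e : Bool) : ℕ := min (bn.col b e 0) (bn.col b e (bn.w - 1))
def hi (b : ℕ) (e : Bool) : ℕ := max (bn.col b e 0) (bn.col b e (bn.w - 1))

/-- the part of row `t` between two consecutive strands, and under the whole end -/
def seg (t b : ℕ) (e : Bool) (j : ℕ) : Set V :=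
  ch.box (2 * t) (2 * t) (2 * min (bn.col b e j) (bn.col b e (j + 1)))
    (2 * max (bn.col b e j) (bn.col b e (j + 1)))
def segA (t b : ℕ) (e : Bool) : Set V := ch.box (2 * t) (2 * t) (2 * bn.lo b e) (2 * bn.hi b e)

/-- the closed zone between two consecutive strands -/
def tile (t b j : ℕ) : Set V :=
  bn.St b j ∪ bn.St b (j + 1) ∪ bn.Zo b j ∪ bn.seg ch t b false j ∪ bn.seg ch t b true j

/-- the vertices of a band; without the two outer strands -/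
def body (b : ℕ) : Set V := {v | (∃ j < bn.w, v ∈ bn.St b j) ∨ ∃ j, j + 1 < bn.w ∧ v ∈ bn.Zo b j}
def inner (b : ℕ) : Set V :=
  {v | (∃ j, 0 < j ∧ j + 1 < bn.w ∧ v ∈ bn.St b j) ∨ ∃ j, j + 1 < bn.w ∧ v ∈ bn.Zo b j}

/-- a band with the rows under its ends -/
def disc (t b : ℕ) : Set V := bn.body b ∪ bn.segA ch t b false ∪ bn.segA ch t b true

/-- the core with all bands; with their inner parts -/
def prot (t : ℕ) : Set V := ch.core t ∪ {v | ∃ b < bn.r, v ∈ bn.body b}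
def inn (t : ℕ) : Set V := ch.core t ∪ {v | ∃ b < bn.r, v ∈ bn.inner b}

/-- central columns that are under no band -/
def free (μ c : ℕ) : Prop := ch.cen μ c ∧ ∀ b < bn.r, ∀ e, c < bn.lo b e ∨ bn.hi b e < c

/-- the bands prolonged by `m` rows, without `ρ` strands on each side -/
def ext (t m ρ : ℕ) : Bn V where
  r := bn.r
  w := bn.w - 2 * ρ
  col := fun b e j => bn.col b e (j + ρ)
  up := bn.up
  St := fun b j => bn.St b (j + ρ) ∪ ⋃ e, ch.box (2 * t) (2 * (t + m) - 1)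
    (2 * bn.col b e (j + ρ)) (2 * bn.col b e (j + ρ))
  Zo := fun b j => bn.Zo b (j + ρ) ∪ ⋃ e, ch.box (2 * t) (2 * (t + m) - 1)
    (2 * min (bn.col b e (j + ρ)) (bn.col b e (j + ρ + 1)) + 1)
    (2 * max (bn.col b e (j + ρ)) (bn.col b e (j + ρ + 1)) - 1)

variable (M : FM Φ) (vx : Φ → V) (H : Set V)

/-- the parity of `β` along the band `b` is `ε` -/
def Par (t : ℕ) (β : Φ → ZMod 2) (b : ℕ) (ε : ZMod 2) : Prop :=
  ∃ ψ ψ', M.Pt vx β ψ (M.ind vx (ch.core t)) ∧ M.Pt vx β ψ' (M.ind vx (bn.disc ch t b)) ∧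
    (∀ v ∈ bn.segA ch t b false, ψ' v = ψ v) ∧ ∀ v ∈ bn.segA ch t b true, ψ' v = ψ v + ε

/-- the invariant -/
structure Ok (t μ : ℕ) : Prop where
  two : 2 ≤ bn.w
  mo0 : ∀ b < bn.r, ∀ j, j + 1 < bn.w → bn.col b false j < bn.col b false (j + 1)
  mo1 : ∀ b < bn.r, ∀ j, j + 1 < bn.w →
    (bn.up b = true → bn.col b true j < bn.col b true (j + 1)) ∧
      (bn.up b = false → bn.col b true (j + 1) < bn.col b true j)
  cen : ∀ b < bn.r, ∀ e, ∀ j < bn.w, ch.cen μ (bn.col b e j)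
  gap : ∀ b < bn.r, ∀ e, ∀ b' < bn.r, ∀ e', (b, e) ≠ (b', e') →
    bn.hi b e + 1 < bn.lo b' e' ∨ bn.hi b' e' + 1 < bn.lo b e
  sub : ∀ b < bn.r, bn.body b ⊆ (M.tv vx H \ M.rad vx H) \ ch.core t
  dss : ∀ b < bn.r, ∀ j < bn.w, ∀ b' < bn.r, ∀ j' < bn.w, (b, j) ≠ (b', j') →
    Disjoint (bn.St b j) (bn.St b' j')
  dsz : ∀ b < bn.r, ∀ j < bn.w, ∀ b' < bn.r, ∀ j', j' + 1 < bn.w →
    Disjoint (bn.St b j) (bn.Zo b' j')
  dzz : ∀ b < bn.r, ∀ j, j + 1 < bn.w → ∀ b' < bn.r, ∀ j', j' + 1 < bn.w → (b, j) ≠ (b', j') →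
    Disjoint (bn.Zo b j) (bn.Zo b' j')
  conn : ∀ b < bn.r, ∀ j < bn.w, Conn (M.gph vx) (bn.St b j) ∧
    ∀ e, fb.Touch (M.gph vx) (bn.St b j) (ch.cell t (bn.col b e j))
  face : ∀ b < bn.r, ∀ f ∈ M.S, (vx f ∈ bn.inner b ∨
      ∃ e, vx f ∈ ch.box (2 * t) (2 * t) (2 * bn.lo b e + 1) (2 * bn.hi b e - 1)) →
    (∀ g ∈ M.fo f, vx g ∈ ch.core t) ∨ ∃ j, j + 1 < bn.w ∧ ∀ g ∈ M.fo f, vx g ∈ bn.tile ch t b j
  par : ∀ β, M.Adm vx H β → ∀ b < bn.r, ∃ ε, bn.Par ch M vx t β b ε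
  tri : ∀ b < bn.r, ∃ β, M.Adm vx H β ∧ bn.Par ch M vx t β b 1 ∧
    ∀ b' < b, bn.Par ch M vx t β b' 0

/-- the bands see every function that has no potential -/
def Complete (t : ℕ) : Prop :=
  ∀ β, M.Adm vx H β → (∀ b < bn.r, bn.Par ch M vx t β b 0) → M.Cob vx β (M.tv vx H)

end Bn

/-- a column of the top row of the core with the vertices that hang on it -/
def Ch.colm {V : Type} (ch : Ch V) (t : ℕ) (K : Set V) (rt : V → ℕ) (c : ℕ) : Set V :=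
  ch.cell t c ∪ {v | v ∈ K ∧ rt v = c}

/-- the core with trees that hang on central columns of its top row -/
structure Ch.Comb {Φ V : Type} (ch : Ch V) (M : FM Φ) (vx : Φ → V) (t μ : ℕ) (K : Set V)
    (rt : V → ℕ) (C : Set Φ) : Prop where
  es : M.Es C
  core : M.ind vx (ch.core t) ⊆ C
  dis : Disjoint K (ch.core t)
  br : ∀ e ∈ C \ M.ind vx (ch.core t), M.BrIn C e
  ends : ∀ e ∈ C \ M.ind vx (ch.core t), ∃ c, ch.cen μ c ∧ vx e ∈ ch.colm t K rt c ∧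
    vx (M.a e) ∈ ch.colm t K rt c
  root : ∀ v ∈ K, ch.cen μ (rt v) ∧
    ∃ u ∈ ch.cell t (rt v), M.EL vx C (ch.colm t K rt (rt v)) u v

/-- the outer walk of a comb runs through the columns from left to right -/
structure Ch.Ord {Φ V : Type} (ch : Ch V) (M : FM Φ) (vx : Φ → V) (t μ : ℕ) (K : Set V)
    (rt : V → ℕ) (C : Set Φ) (O : ℕ → Φ) (n : ℕ) : Prop where
  turn : M.Turn C O n
  con : (M.sub C).Con
  eg : (M.sub C).eg = 0
  vtx : vx '' C = K ∪ ch.core t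
  base : ∀ c, ch.cen μ c → vx (O 0) ∉ ch.colm t K rt c
  cover : ∀ f ∈ M.S, vx f ∈ K ∪ ch.core t →
    (∃ i < n, f = O i ∨ f = M.b (O i)) ∨ (f ∈ C ∧ ∀ g ∈ M.fo f, vx g ∈ ch.core t)
  mono : ∀ i < n, ∀ j < n, ∀ c c', ch.cen μ c → ch.cen μ c' → vx (O i) ∈ ch.colm t K rt c →
    vx (O j) ∈ ch.colm t K rt c' → c < c' → i < j
  btw : ∀ i l j c c', i < l → l < j → j < n → ch.cen μ c → ch.cen μ c' →
    vx (O i) ∈ ch.colm t K rt c → vx (O j) ∈ ch.colm t K rt c' →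
    ∃ c'', ch.cen μ c'' ∧ vx (O l) ∈ ch.colm t K rt c''

/-- the standing assumptions -/
structure Stg {Φ V : Type} (k q : ℕ) (M : FM Φ) (vx : Φ → V) (H : Set V) {g : ℕ}
    (B : Fin g × Fin g → Set V) (ch : Ch V) : Prop where
  hm : M.Hm vx H
  eg : M.eg ≤ k
  hq : (H ∩ vx '' M.S).ncard ≤ q
  model : Model (fb.grid g) (M.gph vx) (M.tv vx H \ M.rad vx H) B
  ch : ch.Ok M vx H B

/-! ### charts -/

/-- row CHART -/
def ChartS : Prop :=
  ∀ k q s : ℕ, ∃ g0 : ℕ, ∀ g, g0 ≤ g → ∀ (Φ V : Type) (M : FM Φ) (vx : Φ → V) (H : Set V)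
    (B : Fin g × Fin g → Set V), M.Hm vx H → M.eg ≤ k → (H ∩ vx '' M.S).ncard ≤ q →
    Model (fb.grid g) (M.gph vx) (M.tv vx H) B → ∃ ch : Ch V, ch.s = s ∧ ch.Ok M vx H B

/-- row CORE: cores are connected discs that meet many crosses -/
def CoreS : Prop :=
  ∀ (k q g : ℕ) (Φ V : Type) (M : FM Φ) (vx : Φ → V) (H : Set V) (B : Fin g × Fin g → Set V)
    (ch : Ch V) (t : ℕ), Stg k q M vx H B ch → 2 * t < ch.s →
    Conn (M.gph vx) (ch.core t) ∧ (M.sub (M.ind vx (ch.core t))).eg = 0 ∧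
    (M.sub (M.ind vx (ch.core t))).Con ∧ vx '' M.ind vx (ch.core t) = ch.core t ∧
    (∀ n, 2 * t + n ≤ ch.s → Hit B (ch.core t) n) ∧
    (∀ (β : Φ → ZMod 2) (ψ ψ' : V → ZMod 2) (D : Set V), Conn (M.gph vx) D → M.Ech β →
      M.Pt vx β ψ (M.ind vx D) → M.Pt vx β ψ' (M.ind vx D) → ∃ κ, ∀ v ∈ D, ψ' v = ψ v + κ) ∧
    (1 ≤ t → ∀ f ∈ M.S, ∀ f' ∈ M.S, vx f ∈ ch.core t → vx (M.a f) ∉ ch.core t →
      vx f' ∈ ch.core t → vx (M.a f') ∉ ch.core t →
      f' ∈ (M.gh (M.ind vx (ch.core t)) ∅).fo f)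

/-! ### shells -/

/-- row ALT: many odd ears or many odd cycles on stems -/
def AltS : Prop :=
  ∀ (N N' n R m g : ℕ) (Φ V : Type) (M : FM Φ) (vx : Φ → V) (H P A : Set V) (ht : V → ℕ)
    (B : Fin g × Fin g → Set V) (ft : V → V) (β : Φ → ZMod 2) (ψ : V → ZMod 2),
    2 * N + N' ≤ n → M.Hm vx H → Model (fb.grid g) (M.gph vx) (M.tv vx H \ M.rad vx H) B →
    M.NF vx B H (M.tv vx H) n → M.Shell vx B H P A ht R n m →
    (∀ a ∈ A, ft a ∈ P ∧ (M.gph vx).Adj a (ft a)) → M.Adm vx H β →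
    M.Pt vx β ψ (M.ind vx (P ∪ M.mid vx ht m)) → ¬ M.Cob vx β (M.tv vx H) →
    (∃ (e : Fin N → ℕ → Φ) (l : Fin N → ℕ), Pairwise (Disjoint on fun i => earV vx (e i) (l i)) ∧
      ∀ i, M.Ear vx (M.tv vx H \ P) (e i) (l i) ∧ 2 ≤ l i ∧ vx (e i 1) ∈ A ∧
        vx (e i (l i)) ∈ A ∧ vx (e i 0) = ft (vx (e i 1)) ∧
        vx (M.a (e i (l i))) = ft (vx (e i (l i))) ∧
        ∑ j ∈ Finset.range (l i + 1), β (e i j) + ψ (vx (e i 0)) + ψ (vx (M.a (e i (l i)))) = 1) ∨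
    ∃ (e : Fin N' → ℕ → Φ) (s l : Fin N' → ℕ),
      Pairwise (Disjoint on fun i => earV vx (e i) (l i)) ∧
      ∀ i, M.Ear vx (M.tv vx H \ P) (e i) (l i) ∧ vx (e i 1) ∈ A ∧
        vx (e i 0) = ft (vx (e i 1)) ∧ 0 < s i ∧ s i + 2 ≤ l i ∧
        vx (M.a (e i (l i))) = vx (e i (s i)) ∧ ∑ j ∈ Finset.Icc (s i) (l i), β (e i j) = 1

/-- row MENG: free terminals are joined to different pegs -/
def MengS : Prop :=
  ∀ (n R m g : ℕ) (Φ V ι : Type) (M : FM Φ) (vx : Φ → V) (H P A T : Set V) (ht : V → ℕ)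
    (B : Fin g × Fin g → Set V) (I : Set ι) (σ : ι → Set V), M.Hm vx H →
    Model (fb.grid g) (M.gph vx) (M.tv vx H \ M.rad vx H) B → M.Shell vx B H P A ht R n m →
    I.Finite → I.ncard ≤ n → M.tv vx H \ M.rad vx H ⊆ T → T ⊆ M.tv vx H →
    (∀ i ∈ I, Conn (M.gph vx) (σ i) ∧ σ i ⊆ M.tv vx H ∩ M.rad vx H) →
    (∀ i ∈ I, ∀ j ∈ I, i ≠ j → Disjoint (σ i) (σ j)) → M.Free vx B T T I σ →
    ∃ Q : ι → Set V, (∀ i ∈ I, Conn (M.gph vx) (Q i) ∧ σ i ⊆ Q i ∧ Q i ⊆ (T ∪ σ i) \ P ∧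
      (Q i ∩ A).Nonempty) ∧ ∀ i ∈ I, ∀ j ∈ I, i ≠ j → Disjoint (Q i) (Q j)

/-- row FAR: a protected full set is a frame -/
def FarRS : Prop :=
  ∀ (n R m g : ℕ) (Φ V : Type) (M : FM Φ) (vx : Φ → V) (H P A U0 : Set V) (ht : V → ℕ)
    (B : Fin g × Fin g → Set V), M.Hm vx H →
    Model (fb.grid g) (M.gph vx) (M.tv vx H \ M.rad vx H) B → M.Shell vx B H P A ht R n m →
    R ≤ n → U0 ⊆ P → Conn (M.gph vx) U0 → M.Full vx H U0 → Hit B U0 n →
    (∃ i0 j0, i0 + R ≤ g ∧ j0 + R ≤ g ∧ ∀ i j : Fin g, i0 ≤ i → (i : ℕ) < i0 + R → j0 ≤ j →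
      (j : ℕ) < j0 + R → B (i, j) ⊆ U0) → M.Frame vx B H R U0

/-! ### bands -/

/-- row EXT: prolongation; the parity is unique -/
def ExtBS : Prop :=
  ∀ (k q g : ℕ) (Φ V : Type) (M : FM Φ) (vx : Φ → V) (H : Set V) (B : Fin g × Fin g → Set V)
    (ch : Ch V) (bn : Bn V) (t μ m ρ : ℕ), Stg k q M vx H B ch → bn.Ok ch M vx H t μ → 1 ≤ t →
    1 ≤ m → t + m ≤ μ → 2 * μ < ch.s → 1 ≤ ρ → 2 * ρ + 2 ≤ bn.w →
    (bn.ext ch t m ρ).Ok ch M vx H (t + m) μ ∧ ∀ β, M.Adm vx H β → ∀ b < bn.r, ∀ ε,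
      (bn.ext ch t m ρ).Par ch M vx (t + m) β b ε ↔ bn.Par ch M vx t β b ε

/-- row SHELL: the prolonged bands are protected -/
def ShellS : Prop :=
  ∀ (k q g : ℕ) (Φ V : Type) (M : FM Φ) (vx : Φ → V) (H : Set V) (B : Fin g × Fin g → Set V)
    (ch : Ch V) (bn : Bn V) (t μ m ρ R n : ℕ), Stg k q M vx H B ch → bn.Ok ch M vx H t μ →
    1 ≤ t → R + n + 1 < m → m + n + 2 ≤ ρ → t + m ≤ μ → 2 * μ + 2 * n + 4 ≤ ch.s →
    2 * ρ + 2 ≤ bn.w →
    ∃ (A : Set V) (ht : V → ℕ) (ft : V → V) (cA : V → ℕ),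
      M.Shell vx B H ((bn.ext ch t m ρ).prot ch (t + m)) A ht R n m ∧
      (bn.ext ch t m ρ).prot ch (t + m) ∪ M.mid vx ht m ⊆ bn.inn ch t ∧ InjOn cA A ∧
      ∀ a ∈ A, (bn.ext ch t m ρ).free ch μ (cA a) ∧ ft a ∈ ch.cell (t + m) (cA a) ∧
        (M.gph vx).Adj a (ft a)

/-- row GLUE: a function that is even on all bands has a potential on the inner part -/
def GlueBS : Prop :=
  ∀ (k q g : ℕ) (Φ V : Type) (M : FM Φ) (vx : Φ → V) (H : Set V) (B : Fin g × Fin g → Set V)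
    (ch : Ch V) (bn : Bn V) (t μ : ℕ) (β : Φ → ZMod 2), Stg k q M vx H B ch →
    bn.Ok ch M vx H t μ → 1 ≤ t → t ≤ μ → 2 * μ < ch.s → M.Adm vx H β →
    (∀ b < bn.r, bn.Par ch M vx t β b 0) → M.Cob vx β (bn.inn ch t)

/-- row HANG: trees in given sets of edges -/
def HangS : Prop :=
  ∀ (k q g : ℕ) (Φ V ι : Type) (M : FM Φ) (vx : Φ → V) (H : Set V) (B : Fin g × Fin g → Set V)
    (ch : Ch V) (t μ : ℕ) (I : Set ι) (K : ι → Set V) (E : ι → Set Φ) (Cs : ι → Set ℕ),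
    Stg k q M vx H B ch → t ≤ μ → 2 * μ < ch.s →
    (∀ i ∈ I, ∀ j ∈ I, i ≠ j → Disjoint (K i) (K j)) →
    (∀ i ∈ I, Disjoint (K i) (ch.core t) ∧ M.Es (E i) ∧ (∀ c ∈ Cs i, ch.cen μ c) ∧
      (∀ e ∈ E i, vx e ∈ K i ∨ ∃ c ∈ Cs i, vx e ∈ ch.cell t c) ∧
      ∀ v ∈ K i, ∃ u ∈ ch.core t, M.EL vx (E i) univ u v) →
    ∃ rt C, ch.Comb M vx t μ (⋃ i ∈ I, K i) rt C ∧
      C ⊆ M.ind vx (ch.core t) ∪ ⋃ i ∈ I, E i ∧ (∀ i ∈ I, ∀ v ∈ K i, rt v ∈ Cs i) ∧
      ∀ i ∈ I, ∀ e ∈ E i, ∀ D ⊆ K i, vx e ∉ D → vx (M.a e) ∈ D →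
        (∀ x ∈ E i, x ∉ M.eo e → vx x ∈ D → vx (M.a x) ∈ D) → e ∈ C

/-- row ORDER -/
def OrderS : Prop :=
  ∀ (k q g : ℕ) (Φ V : Type) (M : FM Φ) (vx : Φ → V) (H : Set V) (B : Fin g × Fin g → Set V)
    (ch : Ch V) (t μ : ℕ) (K : Set V) (rt : V → ℕ) (C : Set Φ), Stg k q M vx H B ch → 1 ≤ t →
    t < μ → 2 * μ < ch.s → ch.Comb M vx t μ K rt C → ∃ O n, ch.Ord M vx t μ K rt C O n

/-- row NEW: many odd ears give a new band -/
def NewS : Prop :=
  ∀ k q r w : ℕ, ∃ N : ℕ, ∀ (g : ℕ) (Φ V : Type) (M : FM Φ) (vx : Φ → V) (H : Set V)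
    (B : Fin g × Fin g → Set V) (ch : Ch V) (bn : Bn V) (t μ : ℕ) (β : Φ → ZMod 2)
    (ψ : V → ZMod 2) (e : Fin N → ℕ → Φ) (l : Fin N → ℕ) (c : Fin N × Bool → ℕ),
    Stg k q M vx H B ch → bn.Ok ch M vx H t μ → bn.r = r → bn.w = w → 1 ≤ t → t < μ →
    2 * μ < ch.s → M.Adm vx H β → M.Pt vx β ψ (M.ind vx (ch.core t)) →
    (∀ b < bn.r, bn.Par ch M vx t β b 0) → Injective c → (∀ p, bn.free ch μ (c p)) →
    Pairwise (Disjoint on fun i => earV vx (e i) (l i)) →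
    (∀ i, M.Ear vx (M.tv vx H \ bn.prot ch t) (e i) (l i) ∧ vx (e i 0) ∈ ch.cell t (c (i, false)) ∧
      vx (M.a (e i (l i))) ∈ ch.cell t (c (i, true)) ∧
      ∑ j ∈ Finset.range (l i + 1), β (e i j) + ψ (vx (e i 0)) + ψ (vx (M.a (e i (l i)))) = 1) →
    ∃ bn' : Bn V, bn'.r = r + 1 ∧ bn'.w = w ∧ bn'.Ok ch M vx H t μ

/-- row LOL: few odd cycles on stems -/
def LolS : Prop :=
  ∀ k q : ℕ, ∃ N : ℕ, ∀ (g : ℕ) (Φ V : Type) (M : FM Φ) (vx : Φ → V) (H : Set V)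
    (B : Fin g × Fin g → Set V) (ch : Ch V) (t μ : ℕ) (β : Φ → ZMod 2)
    (e : Fin N → ℕ → Φ) (s l : Fin N → ℕ) (c : Fin N → ℕ), Stg k q M vx H B ch → 1 ≤ t → t < μ →
    2 * μ < ch.s → M.Adm vx H β → Injective c → (∀ i, ch.cen μ (c i)) →
    Pairwise (Disjoint on fun i => earV vx (e i) (l i)) →
    (∀ i, M.Ear vx (M.tv vx H \ ch.core t) (e i) (l i) ∧ vx (e i 0) ∈ ch.cell t (c i) ∧
      0 < s i ∧ s i + 2 ≤ l i ∧ vx (M.a (e i (l i))) = vx (e i (s i)) ∧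
      ∑ j ∈ Finset.Icc (s i) (l i), β (e i j) = 1) → False

/-- row STOP: few bands -/
def StopS : Prop :=
  ∀ (k q g : ℕ) (Φ V : Type) (M : FM Φ) (vx : Φ → V) (H : Set V) (B : Fin g × Fin g → Set V)
    (ch : Ch V) (bn : Bn V) (t μ : ℕ), Stg k q M vx H B ch → bn.Ok ch M vx H t μ → 1 ≤ t →
    t < μ → 2 * μ < ch.s → bn.r ≤ 2 * k + q + 1

/-- row STEP -/
def StepRS : Prop :=
  ∀ k q r w : ℕ, 2 ≤ w → ∃ n m ρ : ℕ, ∀ (g : ℕ) (Φ V : Type) (M : FM Φ) (vx : Φ → V) (H : Set V)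
    (B : Fin g × Fin g → Set V) (ch : Ch V) (bn : Bn V) (t μ : ℕ), Stg k q M vx H B ch →
    M.NF vx B H (M.tv vx H) n → bn.Ok ch M vx H t μ → bn.r = r → bn.w = w + 2 * ρ → 1 ≤ t →
    t + m < μ → 2 * μ + 2 * n + 4 ≤ ch.s → ¬ bn.Complete ch M vx H t →
    ∃ bn' : Bn V, bn'.r = r + 1 ∧ bn'.w = w ∧ bn'.Ok ch M vx H (t + m) μ

/-- row ITER: a complete system of wide bands -/
def IterS : Prop :=
  ∀ k q w m : ℕ, ∃ n μ s0 : ℕ, ∀ (g : ℕ) (Φ V : Type) (M : FM Φ) (vx : Φ → V) (H : Set V)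
    (B : Fin g × Fin g → Set V) (ch : Ch V), Stg k q M vx H B ch → s0 ≤ ch.s →
    M.NF vx B H (M.tv vx H) n → ∃ (t : ℕ) (bn : Bn V), 1 ≤ t ∧ t + m < μ ∧ w ≤ bn.w ∧
      bn.r ≤ 2 * k + q + 1 ∧ bn.Ok ch M vx H t μ ∧ bn.Complete ch M vx H t

/-- the edge set `E` carries the genus and separates the holes -/
def FM.FullE {Φ V : Type} (M : FM Φ) (vx : Φ → V) (H : Set V) (E : Set Φ) : Prop :=
  (M.sub E).eg = M.eg ∧
    ∀ p ∈ M.S, ∀ q ∈ M.S, vx p ∈ H → vx q ∈ H → q ∈ M.reg E p → vx p = vx q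

/-- every edge set that contains the core and runs along every band is full -/
def Bn.Thin {Φ V : Type} (bn : Bn V) (ch : Ch V) (M : FM Φ) (vx : Φ → V) (H : Set V) (t : ℕ) :
    Prop :=
  ∀ E, M.Es E → M.ind vx (ch.core t) ⊆ E → E ⊆ M.ind vx (M.tv vx H) →
    (∀ b < bn.r, ∃ u ∈ bn.segA ch t b false, ∃ v ∈ bn.segA ch t b true,
      M.EL vx (E ∩ M.ind vx (bn.disc ch t b)) univ u v) → M.FullE vx H E

/-- row FULL -/
def FullS : Prop :=
  ∀ (k q g n : ℕ) (Φ V : Type) (M : FM Φ) (vx : Φ → V) (H : Set V) (B : Fin g × Fin g → Set V)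
    (ch : Ch V) (bn : Bn V) (t μ : ℕ), Stg k q M vx H B ch → M.NF vx B H (M.tv vx H) n →
    bn.Ok ch M vx H t μ → 1 ≤ t → t ≤ μ → 2 * μ < ch.s → bn.Complete ch M vx H t →
    bn.Thin ch M vx H t

end Pool.Agent.MP_9d78a0_co.gm

end MrgPart2

-- ======== part 3: formerly Pool.Agent.MP_9d78a0_co.gm.SpecR2
section MrgPart3

/-! Routing (blocks D, E): star maps, drawings, the assembly. -/

set_option autoImplicit false

namespace Pool.Agent.MP_9d78a0_co.gm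

open Set Function

/-- a list without alternation -/
def NCL (l : List ℕ) : Prop := ∀ x y, x ≠ y → ¬ [x, y, x, y].Sublist l

namespace FM

variable {Φ : Type} (W : FM Φ)

/-- a map with one central vertex, read as the list `L`, and marked vertices with the flags `Hf`;
no face has two marked corners -/
structure Star (Hf : Set Φ) (L : List Φ) : Prop where
  ok : W.Ok
  sub : Hf ⊆ W.S
  cl : ∀ f ∈ Hf, W.b f ∈ Hf ∧ W.c f ∈ Hf ∧ W.a f ∉ Hf
  mem : ∀ f, f ∈ W.S \ Hf ↔ f ∈ L ∨ ∃ g ∈ L, f = W.c g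
  nodup : (L ++ L.map W.c).Nodup
  next : ∀ i, ∀ h : i < L.length,
    W.b (W.c L[i]) = L[(i + 1) % L.length]'(Nat.mod_lt _ (Nat.zero_lt_of_lt h))
  one : ∀ f ∈ Hf, ∀ g ∈ Hf, g ∈ W.fo f → g = f ∨ g = W.b f

/-- two pieces are joined by a strand -/
def Lnk (Hf : Set Φ) (φ : Φ → List ℕ) (x y : ℕ) : Prop :=
  ∃ f ∈ W.S \ Hf, W.a f ∉ Hf ∧ ∃ i < (φ f).length, (φ f).getD i 0 = x ∧ (φ (W.a f)).getD i 0 = y

/-- the pattern `ν` on the marked flags is drawn with at most `n` strands along every loop -/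
def Draw {U : Type} (Hf : Set Φ) (L : List Φ) (n : ℕ) (ν : Φ → U) : Prop :=
  ∃ φ : Φ → List ℕ,
    (∀ f ∈ W.S \ Hf, φ (W.c f) = (φ f).reverse ∧ (φ f).length ≤ n ∧
      (W.a f ∉ Hf → (φ (W.a f)).length = (φ f).length)) ∧
    (∀ p ∈ Hf, (φ (W.a p)).length = 1) ∧ NCL (L.flatMap φ) ∧
    ∀ p ∈ Hf, ∀ p' ∈ Hf, ν p = ν p' ↔
      Relation.EqvGen (W.Lnk Hf φ) ((φ (W.a p)).getD 0 0) ((φ (W.a p')).getD 0 0)

end FM

/-- block WORDS: star maps with the same invariants have the same drawings -/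
def ClassS : Prop :=
  ∀ N : ℕ, ∃ n : ℕ, ∀ (Φ Ψ U : Type) (W : FM Φ) (W' : FM Ψ) (Hf : Set Φ) (Hf' : Set Ψ)
    (L : List Φ) (L' : List Ψ) (μ : Ψ → Φ) (ν : Φ → U) (ν' : Ψ → U) (n' : ℕ), W.S.ncard ≤ N →
    W.Star Hf L → W'.Star Hf' L' → BijOn μ Hf' Hf →
    (∀ p ∈ Hf', μ (W'.b p) = W.b (μ p) ∧ μ (W'.c p) = W.c (μ p)) → W'.eg = W.eg →
    (((¬ ∃ o, W.Ori o) ∧ ¬ ∃ o, W'.Ori o) ∨
      ∃ o o', W.Ori o ∧ W'.Ori o' ∧ ∀ p ∈ Hf', o' p ↔ o (μ p)) →
    (∀ p ∈ Hf', ν (μ p) = ν' p) → W'.Draw Hf' L' n' ν' → W.Draw Hf L n ν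

/-- row SRC: the star map of a source -/
def SrcS : Prop :=
  ∀ (Ψ U : Type) (S : FM Ψ) (sx : Ψ → U) (Mk : Set U), S.Ok → S.Lbl sx → S.Con →
    (∀ f ∈ S.S, sx f ∈ Mk ↔ sx (S.a f) ∉ Mk) →
    ∃ (Ψ' : Type) (W : FM Ψ') (L : List Ψ') (j : Ψ → Ψ') (ν : Ψ' → U), InjOn j (S.fl sx Mk) ∧
      W.Star (j '' S.fl sx Mk) L ∧ W.eg = S.eg ∧
      (∀ f ∈ S.fl sx Mk, W.b (j f) = j (S.b f) ∧ W.c (j f) = j (S.c f) ∧ ν (j f) = sx (S.a f)) ∧
      (∀ o, S.Ori o → ∃ o', W.Ori o' ∧ ∀ f ∈ S.fl sx Mk, o' (j f) ↔ o f) ∧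
      ((∃ o, W.Ori o) → ∃ o, S.Ori o) ∧ W.Draw (j '' S.fl sx Mk) L 1 ν

open Classical in
/-- row TW: the function that counts the crossings with a loop -/
def TwS : Prop :=
  ∀ (Φ : Type) (M : FM Φ) (C : Set Φ) (O : ℕ → Φ) (n i1 i2 : ℕ), M.Ok → M.Es C → M.Turn C O n →
    i1 < i2 → i2 < n → O i1 ∉ C → (M.a (O i1) = O i2 ∨ M.a (O i1) = M.c (O i2)) →
    ∃ β : Φ → ZMod 2, M.Ech β ∧ (∀ f ∈ M.S, Ev M.a M.b β 0 f) ∧ (∀ f ∈ C, β f = 0) ∧
      β (O i1) = (if M.a (O i1) = O i2 then 1 else 0) ∧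
      ∀ j1 < n, ∀ j2 < n, j1 ≠ i1 → j1 ≠ i2 → j2 ≠ i1 → j2 ≠ i2 → O j1 ∉ C →
        (M.a (O j1) = O j2 ∨ M.a (O j1) = M.c (O j2)) →
        β (O j1) = (if i1 < j1 ∧ j1 < i2 then 1 else 0) + (if i1 < j2 ∧ j2 < i2 then 1 else 0)

/-- row ONE: if the loops carry the genus, a face has one corner at most at a marked vertex -/
def OneCS : Prop :=
  ∀ (Φ : Type) (W : FM Φ) (Hf : Set Φ), W.Ok → Hf ⊆ W.S →
    (∀ f ∈ Hf, W.b f ∈ Hf ∧ W.c f ∈ Hf ∧ W.a f ∉ Hf) →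
    (∀ f ∈ W.S \ Hf, ∀ g ∈ W.S \ Hf, g ∈ W.vo f) →
    (W.sub {f | f ∈ W.S ∧ f ∉ Hf ∧ W.a f ∉ Hf}).eg = W.eg →
    ∀ f ∈ Hf, ∀ g ∈ Hf, g ∈ W.vo f → g ∈ W.fo f → g = f ∨ g = W.b f

/-- terminals that hang on free columns, with their spokes `Sp` -/
structure Trm {Φ V ι : Type} (M : FM Φ) (vx : Φ → V) (H : Set V) (ch : Ch V) (bn : Bn V)
    (t μ : ℕ) (Sp : Set Φ) (τ : Φ → ι) (Q : ι → Set V) (cq : ι → ℕ) : Prop where
  sub : Sp ⊆ M.fl vx H
  cl : ∀ p ∈ Sp, M.c p ∈ Sp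
  term : ∀ p ∈ Sp, ∀ p' ∈ Sp, τ p = τ p' ↔ p' = p ∨ p' = M.c p
  land : ∀ p ∈ Sp, vx (M.a p) ∈ Q (τ p)
  conn : ∀ p ∈ Sp, Conn (M.gph vx) (Q (τ p)) ∧ Q (τ p) ⊆ M.tv vx H \ bn.prot ch t ∧
    bn.free ch μ (cq (τ p)) ∧ fb.Touch (M.gph vx) (Q (τ p)) (ch.cell t (cq (τ p)))
  dis : ∀ p ∈ Sp, ∀ p' ∈ Sp, τ p ≠ τ p' → Disjoint (Q (τ p)) (Q (τ p')) ∧ cq (τ p) ≠ cq (τ p')

/-- the other end of the loop of band `b`, as a letter -/
def Bn.pr {Φ V : Type} (bn : Bn V) (W : FM Φ) (fl : ℕ → Φ) (b : ℕ) : Φ :=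
  if bn.up b = true then W.a (fl b) else W.c (W.a (fl b))

/-- the letters of the target word stand in the order of their columns -/
structure Key {Φ V ι : Type} (W : FM Φ) (bn : Bn V) (Sp : Set Φ) (τ : Φ → ι) (cq : ι → ℕ)
    (L : List Φ) (fl : ℕ → Φ) (key : Φ → ℕ) : Prop where
  sort : L.Pairwise fun f g => key f < key g
  band : ∀ b < bn.r, fl b ∈ L ∧ bn.pr W fl b ∈ L ∧ W.a (fl b) ∉ Sp ∧
    key (fl b) = bn.col b false 0 ∧ key (bn.pr W fl b) = bn.col b true 0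
  term : ∀ p ∈ Sp, W.a p ∈ L → key (W.a p) = cq (τ p)
  all : ∀ f ∈ L, (∃ b < bn.r, f = fl b ∨ f = bn.pr W fl b) ∨ W.a f ∈ Sp

/-- row TGT: the star map of the target -/
def TgtS : Prop :=
  ∀ (k q g : ℕ) (Φ V ι : Type) (M : FM Φ) (vx : Φ → V) (H : Set V) (B : Fin g × Fin g → Set V)
    (ch : Ch V) (bn : Bn V) (t μ : ℕ) (Sp : Set Φ) (τ : Φ → ι) (Q : ι → Set V) (cq : ι → ℕ),
    Stg k q M vx H B ch → bn.Ok ch M vx H t μ → bn.Thin ch M vx H t → 1 ≤ t → t < μ →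
    2 * μ < ch.s → Trm M vx H ch bn t μ Sp τ Q cq →
    ∃ (W : FM Φ) (L : List Φ) (fl : ℕ → Φ) (key : Φ → ℕ), W.Star Sp L ∧
      Key W bn Sp τ cq L fl key ∧ W.S.ncard ≤ 4 * bn.r + 2 * Sp.ncard ∧ W.eg = M.eg ∧
      (∀ p ∈ Sp, W.c p = M.c p ∧ W.c (W.b p) = ret M.rot Sp (M.rot p)) ∧
      (∀ o, M.Ori o → W.Ori o) ∧ ((∃ o, W.Ori o) → ∃ o, M.Ori o)

/-- row GRID: a partition without alternation is drawn under the top row of a grid -/
def GridRS : Prop :=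
  ∀ (lo p : ℕ) (Cs : Set ℕ) (lab : ℕ → ℕ), Cs ⊆ Icc lo (lo + p) →
    (∀ c1 ∈ Cs, ∀ c2 ∈ Cs, ∀ c3 ∈ Cs, ∀ c4 ∈ Cs, c1 < c2 → c2 < c3 → c3 < c4 → lab c1 = lab c3 →
      lab c2 = lab c4 → lab c1 = lab c2) →
    ∃ R : ℕ → Set (ℕ × ℕ), (∀ c ∈ Cs, Conn fb.gridN (R (lab c)) ∧ (0, c) ∈ R (lab c) ∧
      ∀ z ∈ R (lab c), z.1 ≤ p ∧ z.2 ∈ Icc lo (lo + p)) ∧
      ∀ c ∈ Cs, ∀ c' ∈ Cs, lab c ≠ lab c' → Disjoint (R (lab c)) (R (lab c'))

/-- row DRAW: a drawing of the target word is realised in the graph -/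
def DrawRS : Prop :=
  ∀ (k q g : ℕ) (Φ V ι U : Type) (M : FM Φ) (vx : Φ → V) (H : Set V)
    (B : Fin g × Fin g → Set V) (ch : Ch V) (bn : Bn V) (t μ n : ℕ) (Sp : Set Φ) (τ : Φ → ι)
    (Q : ι → Set V) (cq : ι → ℕ) (W : FM Φ) (L : List Φ) (fl : ℕ → Φ) (key : Φ → ℕ) (ν : Φ → U),
    Stg k q M vx H B ch → bn.Ok ch M vx H t μ → t ≤ μ → 2 * μ < ch.s →
    Trm M vx H ch bn t μ Sp τ Q cq → W.Star Sp L → Key W bn Sp τ cq L fl key →
    (∀ p ∈ Sp, W.c p = M.c p) → n ≤ bn.w → W.Draw Sp L n ν →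
    ∃ Y : U → Set V, (∀ p ∈ Sp, Conn (M.gph vx) (Y (ν p)) ∧ Q (τ p) ⊆ Y (ν p) ∧
      Y (ν p) ⊆ bn.prot ch t ∪ ⋃ p' ∈ Sp, Q (τ p')) ∧
      ∀ p ∈ Sp, ∀ p' ∈ Sp, ν p ≠ ν p' → Disjoint (Y (ν p)) (Y (ν p'))

/-- row ASM: the assembly -/
def RtAsmS : Prop :=
  ChartS → CoreS → IterS → ExtBS → ShellS → FullS → FarRS → MengS → TgtS → SrcS → ClassS →
    DrawRS → RtS

end Pool.Agent.MP_9d78a0_co.gm

end MrgPart3

-- ======== part 4: formerly Pool.Agent.MP_9d78a0_co.gm.RIter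
section MrgPart4

/-! Routing: one more band, and the iteration up to a complete system. -/

set_option autoImplicit false

namespace Pool.Agent.MP_9d78a0_co.gm

open Set Function

namespace RIter

variable {Φ V : Type}

theorem pt_mono (M : FM Φ) (vx : Φ → V) {β : Φ → ZMod 2} {ψ : V → ZMod 2} {K K' : Set V}
    (h : K ⊆ K') (hp : M.Pt vx β ψ (M.ind vx K')) : M.Pt vx β ψ (M.ind vx K) :=
  fun f hf => hp f ⟨hf.1, h hf.2.1, h hf.2.2⟩

theorem nf_mono (M : FM Φ) (vx : Φ → V) {g : ℕ} {B : Fin g × Fin g → Set V} {H Nd : Set V}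
    {n n' : ℕ} (h : n ≤ n') (hn : M.NF vx B H Nd n') : M.NF vx B H Nd n :=
  fun X hX hc => hn X hX (hc.trans h)

theorem ear_mono (M : FM Φ) (vx : Φ → V) {D D' : Set V} {e : ℕ → Φ} {l : ℕ} (h : D ⊆ D')
    (he : M.Ear vx D e l) : M.Ear vx D' e l :=
  ⟨he.pos, he.mem, he.next, fun j h0 h1 => h (he.inner j h0 h1), he.inj⟩

theorem cell_core (ch : Ch V) {t μ c : ℕ} (ht : t < μ) (hs : 2 * μ < ch.s) (hc : ch.cen μ c) :
    ch.cell t c ⊆ ch.core t := by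
  rintro v ⟨h0, h1, h2, h3, h4⟩
  obtain ⟨hc1, hc2⟩ := hc
  exact ⟨h0, h1, by omega, by omega, by omega⟩

theorem back (hS : StepRS) (hT : StopS) (k q w : ℕ) : ∀ j r : ℕ, r + j = 2 * k + q + 2 →
    ∃ W n T : ℕ, 2 ≤ W ∧ w ≤ W ∧ ∀ (g : ℕ) (Φ V : Type) (M : FM Φ) (vx : Φ → V) (H : Set V)
      (B : Fin g × Fin g → Set V) (ch : Ch V) (bn : Bn V) (t μ : ℕ), Stg k q M vx H B ch →
      M.NF vx B H (M.tv vx H) n → bn.Ok ch M vx H t μ → bn.r = r → bn.w = W → 1 ≤ t →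
      t + T < μ → 2 * μ + 2 * n + 4 ≤ ch.s →
      ∃ (t' : ℕ) (bn' : Bn V), 1 ≤ t' ∧ t' ≤ t + T ∧ w ≤ bn'.w ∧ bn'.Ok ch M vx H t' μ ∧
        bn'.Complete ch M vx H t' := by
  intro j
  induction j with
  | zero =>
    intro r hr
    refine ⟨w + 2, 0, 0, by omega, by omega, ?_⟩
    intro g Φ V M vx H B ch bn t μ hst _ hok h1 _ h3 h4 h5
    have := hT k q g Φ V M vx H B ch bn t μ hst hok h3 (by omega) (by omega)
    omega
  | succ j ih =>
    intro r hr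
    obtain ⟨W, n, T, hW2, hWw, hI⟩ := ih (r + 1) (by omega)
    obtain ⟨n', m, ρ, hst'⟩ := hS k q r W hW2
    refine ⟨W + 2 * ρ, n + n', m + T, by omega, by omega, ?_⟩
    intro g Φ V M vx H B ch bn t μ hst hnf hok h1 h2 h3 h4 h5
    by_cases hc : bn.Complete ch M vx H t
    · exact ⟨t, bn, h3, by omega, by omega, hok, hc⟩
    · obtain ⟨bn', a1, a2, a3⟩ := hst' g Φ V M vx H B ch bn t μ hst
        (nf_mono M vx (by omega) hnf) hok h1 h2 h3 (by omega) (by omega) hc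
      obtain ⟨t', bn'', b1, b2, b3, b4, b5⟩ := hI g Φ V M vx H B ch bn' (t + m) μ hst
        (nf_mono M vx (by omega) hnf) a3 a1 a2 (by omega) (by omega) (by omega)
      exact ⟨t', bn'', b1, by omega, b3, b4, b5⟩

end RIter

open RIter

theorem stepRS (hE : ExtBS) (hSh : ShellS) (hG : GlueBS) (hA : AltS) (hN : NewS) (hL : LolS) :
    StepRS := by
  intro k q r w hw
  obtain ⟨N, hN⟩ := hN k q r w
  obtain ⟨N', hL⟩ := hL k q
  refine ⟨2 * N + N', 2 * N + N' + 2, 2 * (2 * N + N') + 4, ?_⟩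
  intro g Φ V M vx H B ch bn t μ hst hnf hok hr hbw ht htm hs hnc
  set n := 2 * N + N' with hn
  set m := n + 2 with hm
  set ρ := 2 * n + 4 with hρ
  have hs' : 2 * μ < ch.s := by omega
  obtain ⟨hok2, hpar⟩ := hE k q g Φ V M vx H B ch bn t μ m ρ hst hok ht (by omega) (by omega) hs'
    (by omega) (by omega)
  obtain ⟨A, hh, ft, cA, hsh, hsub, hinj, hA'⟩ := hSh k q g Φ V M vx H B ch bn t μ m ρ 0 n hst hok
    ht (by omega) (by omega) (by omega) hs (by omega)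
  have hβ : ∃ β, M.Adm vx H β ∧ (∀ b < bn.r, bn.Par ch M vx t β b 0) ∧
      ¬ M.Cob vx β (M.tv vx H) := by
    by_contra hcon
    apply hnc
    intro β h1 h2
    by_contra h3
    exact hcon ⟨β, h1, h2, h3⟩
  obtain ⟨β, hadm, hp0, hncob⟩ := hβ
  obtain ⟨ψ, hψ⟩ := hG k q g Φ V M vx H B ch bn t μ β hst hok ht (by omega) hs' hadm hp0
  have hcp : ch.core (t + m) ⊆ (bn.ext ch t m ρ).prot ch (t + m) := subset_union_left
  have hft : ∀ a ∈ A, ft a ∈ (bn.ext ch t m ρ).prot ch (t + m) ∧ (M.gph vx).Adj a (ft a) :=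
    fun a ha => ⟨hcp (cell_core ch htm hs' (hA' a ha).1.1 (hA' a ha).2.1), (hA' a ha).2.2⟩
  rcases hA N N' n 0 m g Φ V M vx H _ A hh B ft β ψ le_rfl hst.hm hst.model hnf hsh hft hadm
    (pt_mono M vx hsub hψ) hncob with ⟨e, l, hd, he⟩ | ⟨e, s, l, hd, he⟩
  · have hmem : ∀ p : Fin N × Bool, vx (e p.1 (if p.2 = true then l p.1 else 1)) ∈ A := by
      rintro ⟨i, x⟩
      cases x
      · exact (he i).2.2.1
      · exact (he i).2.2.2.1
    have hrg : ∀ p : Fin N × Bool, 1 ≤ (if p.2 = true then l p.1 else 1) ∧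
        (if p.2 = true then l p.1 else 1) ≤ l p.1 := by
      rintro ⟨i, x⟩
      have := (he i).2.1
      cases x
      · simp only [Bool.false_eq_true, if_false]
        omega
      · simp only [if_true]
        omega
    refine hN g Φ V M vx H B ch (bn.ext ch t m ρ) (t + m) μ β ψ e l
      (fun p => cA (vx (e p.1 (if p.2 = true then l p.1 else 1)))) hst hok2 hr ?_ (by omega) htm
      hs' hadm (pt_mono M vx (hcp.trans (subset_union_left.trans hsub)) hψ)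
      (fun b hb => (hpar β hadm b hb 0).2 (hp0 b hb)) ?_ (fun p => (hA' _ (hmem p)).1) hd ?_
    · show bn.w - 2 * ρ = w
      omega
    · intro p p' hpp
      have h1 := hinj (hmem p) (hmem p') hpp
      have h2 : p.1 = p'.1 := by
        by_contra h2
        exact Set.disjoint_left.1 (hd h2) ⟨_, hrg p, rfl⟩ ⟨_, hrg p', h1.symm⟩
      obtain ⟨i, x⟩ := p
      obtain ⟨i', x'⟩ := p'
      obtain rfl : i = i' := h2
      have h3 := (he i).1.inj _ (hrg (i, x)).1 (hrg (i, x)).2 _ (hrg (i, x')).1 (hrg (i, x')).2 h1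
      have h4 := (he i).2.1
      cases x <;> cases x'
      · rfl
      · simp only [Bool.false_eq_true, if_false, if_true] at h3
        omega
      · simp only [Bool.false_eq_true, if_false, if_true] at h3
        omega
      · rfl
    · intro i
      obtain ⟨a1, _, a3, a4, a5, a6, a7⟩ := he i
      refine ⟨a1, ?_, ?_, a7⟩
      · rw [a5]
        exact (hA' _ a3).2.1
      · rw [a6]
        exact (hA' _ a4).2.1
  · exfalso
    refine hL g Φ V M vx H B ch (t + m) μ β e s l (fun i => cA (vx (e i 1))) hst (by omega) htm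
      hs' hadm ?_ (fun i => (hA' _ (he i).2.1).1.1) hd ?_
    · intro i i' hii
      have h1 := hinj (he i).2.1 (he i').2.1 hii
      by_contra h2
      exact Set.disjoint_left.1 (hd h2) ⟨1, ⟨le_rfl, (he i).1.pos⟩, rfl⟩
        ⟨1, ⟨le_rfl, (he i').1.pos⟩, h1.symm⟩
    · intro i
      obtain ⟨a1, a2, a3, a4, a5, a6, a7⟩ := he i
      refine ⟨ear_mono M vx (sdiff_subset_sdiff_right hcp) a1, ?_, a4, a5, a6, a7⟩
      rw [a3]
      exact (hA' _ a2).2.1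

theorem iterS (hS : StepRS) (hT : StopS) : IterS := by
  intro k q w m
  obtain ⟨W, n, T, hW2, _, hI⟩ := back hS hT k q w (2 * k + q + 2) 0 (by omega)
  refine ⟨n, T + m + 2, 2 * (T + m + 2) + 2 * n + 4, ?_⟩
  intro g Φ V M vx H B ch hst hs hnf
  let bn : Bn V := ⟨0, W, fun _ _ _ => 0, fun _ => true, fun _ _ => ∅, fun _ _ => ∅⟩
  have h0 : ∀ b, ¬ b < bn.r := fun b => Nat.not_lt_zero b
  have hok : bn.Ok ch M vx H 1 (T + m + 2) :=
    ⟨hW2, fun b hb => (h0 b hb).elim, fun b hb => (h0 b hb).elim, fun b hb => (h0 b hb).elim,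
      fun b hb => (h0 b hb).elim, fun b hb => (h0 b hb).elim, fun b hb => (h0 b hb).elim,
      fun b hb => (h0 b hb).elim, fun b hb => (h0 b hb).elim, fun b hb => (h0 b hb).elim,
      fun b hb => (h0 b hb).elim, fun _ _ b hb => (h0 b hb).elim, fun b hb => (h0 b hb).elim⟩
  obtain ⟨t, bn', a1, a2, a3, a4, a5⟩ := hI g Φ V M vx H B ch bn 1 (T + m + 2) hst hnf hok rfl rfl
    le_rfl (by omega) hs
  exact ⟨t, bn', a1, by omega, a3,
    hT k q g Φ V M vx H B ch bn' t _ hst a4 a1 (by omega) (by omega), a4, a5⟩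

end Pool.Agent.MP_9d78a0_co.gm

end MrgPart4

-- ======== part 5: formerly Pool.Agent.MP_9d78a0_co.gm.Odd
section MrgPart5

/-! Disjoint odd paths or a small hitting set, from Tutte's theorem. -/

set_option autoImplicit false

namespace Pool.Agent.MP_9d78a0_co.gm

open Set Function

namespace OddK

/-- Tutte's theorem on a finite set of even size -/
theorem tutte_set {W : Type} (H : SimpleGraph W) {U : Set W} (hU : U.Finite) (he : Even U.ncard) :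
    (∃ m : W → W, Involutive m ∧ (∀ p ∈ U, m p ∈ U ∧ H.Adj p (m p)) ∧ ∀ p ∉ U, m p = p) ∨
    ∃ Y ⊆ U, ∃ (ι : Type) (k : W → ι) (O : Set ι), (∀ p ∈ U \ Y, ∀ q ∈ U \ Y, H.Adj p q → k p = k q) ∧
      (∀ o ∈ O, Odd {p | p ∈ U \ Y ∧ k p = o}.ncard) ∧ Y.ncard + 2 ≤ O.ncard := by
  classical
  have : Finite U := hU
  by_cases h : ∃ M : (H.induce U).Subgraph, M.IsPerfectMatching
  · obtain ⟨M, hM⟩ := h
    choose g h1 h2 using SimpleGraph.Subgraph.isPerfectMatching_iff.1 hM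
    refine Or.inl ⟨fun p => if h : p ∈ U then (g ⟨p, h⟩).1 else p, fun p => ?_, fun p hp => ?_,
      fun p hp => dif_neg hp⟩
    · by_cases hp : p ∈ U
      · simp only [dif_pos hp, dif_pos (g _).2]
        exact congrArg Subtype.val (h2 (g ⟨p, hp⟩) ⟨p, hp⟩ (h1 _).symm).symm
      · simp only [dif_neg hp]
    · simp only [dif_pos hp]
      exact ⟨(g _).2, M.adj_sub (h1 ⟨p, hp⟩)⟩
  rw [SimpleGraph.tutte] at h
  push Not at h
  obtain ⟨u, hu⟩ := h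
  set K := ((⊤ : (H.induce U).Subgraph).deleteVerts u).coe with hK
  have hy : ∀ p (hp : p ∈ U), p ∈ Subtype.val '' u ↔ (⟨p, hp⟩ : U) ∈ u := fun p hp =>
    Subtype.val_injective.mem_set_image (a := ⟨p, hp⟩)
  have e1 : (Subtype.val '' u).ncard = u.ncard := ncard_image_of_injective _ Subtype.val_injective
  refine Or.inr ⟨Subtype.val '' u, Subtype.coe_image_subset _ _, Option K.ConnectedComponent,
    fun p => if h : p ∈ U \ Subtype.val '' u then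
      some (K.connectedComponentMk ⟨⟨p, h.1⟩, trivial, fun c => h.2 ((hy p h.1).2 c)⟩) else none,
    some '' K.oddComponents, fun p hp q hq e => ?_, ?_, ?_⟩
  · simp only [dif_pos hp, dif_pos hq]
    congr 1
    refine SimpleGraph.ConnectedComponent.connectedComponentMk_eq_of_adj ?_
    exact ⟨⟨trivial, fun c => hp.2 ((hy p hp.1).2 c)⟩, ⟨trivial, fun c => hq.2 ((hy q hq.1).2 c)⟩, e⟩
  · rintro _ ⟨c, hc, rfl⟩
    have e2 := ncard_image_of_injective c.supp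
      (Subtype.val_injective.comp Subtype.val_injective)
    rw [mem_ofPred_eq, ← e2] at hc
    convert hc using 2
    ext p
    constructor
    · rintro ⟨hp, e⟩
      simp only [dif_pos hp] at e
      exact ⟨_, Option.some.inj e, rfl⟩
    · rintro ⟨⟨⟨p, h1⟩, h2⟩, h3, rfl⟩
      have hp : p ∈ U \ Subtype.val '' u := ⟨h1, fun c => h2.2 ((hy p h1).1 c)⟩
      refine ⟨hp, ?_⟩
      simp only [comp_apply, dif_pos hp]
      exact congrArg some h3
  · rw [ncard_image_of_injective _ (Option.some_injective _), e1]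
    have e3 := K.odd_ncard_oddComponents
    have e4 : Nat.card ((⊤ : (H.induce U).Subgraph).deleteVerts u).verts + u.ncard = U.ncard := by
      rw [Nat.card_coe_set_eq, SimpleGraph.Subgraph.deleteVerts_verts,
        SimpleGraph.Subgraph.verts_top, ncard_sdiff_add_ncard_of_subset (subset_univ _), ncard_univ,
        Nat.card_coe_set_eq]
    have e5 : u.ncard < K.oddComponents.ncard := hu
    rw [Nat.odd_iff, Nat.odd_iff] at e3
    rw [Nat.even_iff] at he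
    omega

variable {V : Type}

/-- the other copy -/
def mu (p : V × ZMod 2) : V × ZMod 2 := (p.1, p.2 + 1)

theorem mu_mu (p : V × ZMod 2) : mu (mu p) = p := by
  refine Prod.ext rfl ?_
  change p.2 + 1 + 1 = p.2
  generalize p.2 = c
  decide +revert

theorem mu_inj : Injective (mu (V := V)) := Involutive.injective mu_mu

theorem mu_ne (p : V × ZMod 2) : mu p ≠ p := fun e => by
  have : p.2 + 1 = p.2 := congrArg Prod.snd e
  revert this
  generalize p.2 = c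
  decide +revert

theorem eq_or_mu {p q : V × ZMod 2} (h : p.1 = q.1) : p = q ∨ p = mu q := by
  have : ∀ c d : ZMod 2, c = d ∨ c = d + 1 := by decide
  exact (this p.2 q.2).imp (Prod.ext h) (Prod.ext h)

theorem z01 {c : ZMod 2} (h : c ≠ 1) : c = 0 := by decide +revert

/-- the auxiliary graph -/
def aux (G : SimpleGraph V) (β : V → V → ZMod 2) (A : Set V) : SimpleGraph (V × ZMod 2) where
  Adj p q := p ≠ q ∧ (p.1 = q.1 ∨ (p.1 ∈ A ∧ q.1 ∈ A ∧ p.2 ≠ q.2) ∨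
    (G.Adj p.1 q.1 ∧ ¬(p.1 ∈ A ∧ p.2 = 1) ∧ ¬(q.1 ∈ A ∧ q.2 = 1) ∧
      q.2 + 1 = p.2 + β p.1 q.1 ∧ p.2 + 1 = q.2 + β q.1 p.1))
  symm := ⟨fun _ _ h => ⟨h.1.symm, h.2.imp Eq.symm (Or.imp (fun k => ⟨k.2.1, k.1, k.2.2.symm⟩)
    fun k => ⟨k.1.symm, k.2.2.1, k.2.1, k.2.2.2.2, k.2.2.2.1⟩)⟩⟩
  loopless := ⟨fun _ h => h.1 rfl⟩

/-- its vertices -/
def vs (D B : Set V) : Set (V × ZMod 2) := {p | p.1 ∈ D ∧ ¬(p.1 ∈ B ∧ p.2 = 1)}

theorem par_succ (β : V → V → ZMod 2) (f : ℕ → V) {s l : ℕ} (h : s ≤ l) :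
    par β f s (l + 1) = par β f s l + β (f l) (f (l + 1)) := Finset.sum_Ico_succ_top h _

theorem par_self (β : V → V → ZMod 2) (f : ℕ → V) (s : ℕ) : par β f s s = 0 := by simp [par]

variable {G : SimpleGraph V} {β : V → V → ZMod 2} {D A B : Set V}

section primal

variable {m : V × ZMod 2 → V × ZMod 2}

/-- the alternating sequence -/
def sq (m : V × ZMod 2 → V × ZMod 2) (a : V) (j : ℕ) : V × ZMod 2 := (mu ∘ m)^[j] (a, 0)

theorem sq_succ (a : V) (j : ℕ) : sq m a (j + 1) = mu (m (sq m a j)) := iterate_succ_apply' _ _ _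

theorem sq_cancel (hm : Involutive m) {a b : V} {i j : ℕ} (h : sq m a i = sq m b (i + j)) :
    (a, 0) = sq m b j := by
  rw [sq, sq, iterate_add_apply] at h
  exact (mu_inj.comp hm.injective).iterate i h

theorem sq_flip (hm : Involutive m) {a b : V} (t : ℕ) :
    ∀ {i j : ℕ}, sq m a (i + t) = mu (sq m b j) → sq m a i = mu (sq m b (j + t)) := by
  induction t with
  | zero => exact id
  | succ t ih =>
    intro i j h
    rw [← add_assoc, sq_succ] at h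
    rw [add_comm t, ← add_assoc]
    exact ih (by rw [sq_succ, mu_mu, ← mu_inj h, hm])

/-- the data of a perfect matching -/
structure Pm (G : SimpleGraph V) (β : V → V → ZMod 2) (D A B : Set V)
    (m : V × ZMod 2 → V × ZMod 2) : Prop where
  fin : D.Finite
  sub : B ⊆ A
  inv : Involutive m
  adj : ∀ p ∈ vs D B, m p ∈ vs D B ∧ (aux G β A).Adj p (m p)
  fix : ∀ p ∉ vs D B, m p = p

/-- the starting points -/
def St (D A : Set V) (m : V × ZMod 2 → V × ZMod 2) : Set V :=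
  {a | a ∈ A ∧ a ∈ D ∧ ¬((m (a, 0)).1 ∈ A ∧ (m (a, 0)).2 = 1)}

/-- the length -/
noncomputable def ln (A : Set V) (m : V × ZMod 2 → V × ZMod 2) (a : V) : ℕ :=
  sInf {j | 0 < j ∧ (sq m a j).1 ∈ A}

variable (h : Pm G β D A B m) {a b : V}
include h

theorem Pm.mem (ha : a ∈ D) (j : ℕ) : (sq m a j).1 ∈ D := by
  induction j with
  | zero => exact ha
  | succ j ih =>
    rw [sq_succ]
    by_cases c : sq m a j ∈ vs D B
    · exact (h.adj _ c).1.1
    · rw [h.fix _ c]; exact ih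

theorem Pm.ln_spec (ha : a ∈ St D A m) : 0 < ln A m a ∧ (sq m a (ln A m a)).1 ∈ A := by
  have fin := h.fin.prod (toFinite (univ : Set (ZMod 2)))
  obtain ⟨i, j, h1, h2⟩ := Set.Finite.exists_lt_map_eq_of_forall_mem (f := sq m a)
    (fun j => mk_mem_prod (h.mem ha.2.1 j) (mem_univ _)) fin
  obtain ⟨t, rfl⟩ := Nat.exists_eq_add_of_le h1.le
  exact Nat.sInf_mem (s := {j | 0 < j ∧ (sq m a j).1 ∈ A})
    ⟨t, by omega, by rw [← sq_cancel h.inv h2]; exact ha.1⟩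

omit h in
theorem ln_min {j : ℕ} (h0 : 0 < j) (hj : j < ln A m a) : (sq m a j).1 ∉ A :=
  fun c => Nat.notMem_of_lt_sInf hj ⟨h0, c⟩

theorem Pm.step (ha : a ∈ St D A m) {j : ℕ} (hj : j < ln A m a) :
    G.Adj (sq m a j).1 (sq m a (j + 1)).1 ∧
      (sq m a (j + 1)).2 = (sq m a j).2 + β (sq m a j).1 (sq m a (j + 1)).1 ∧
      ((sq m a (j + 1)).1 ∈ A → (sq m a (j + 1)).2 = 1) ∧ m (sq m a j) ≠ sq m a j := by
  have h0 : (sq m a j).1 ∈ A → sq m a j = (a, 0) := fun c => by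
    rcases j.eq_zero_or_pos with rfl | hp
    exacts [rfl, absurd c (ln_min hp hj)]
  obtain ⟨-, h1, h2 | h2 | h2⟩ := h.adj (sq m a j) ⟨h.mem ha.2.1 j, fun c => by
    have := c.2
    rw [h0 (h.sub c.1)] at this
    exact zero_ne_one this⟩
  · have h3 : sq m a j = sq m a (j + 1) := by
      rw [sq_succ, (eq_or_mu h2.symm).resolve_left h1.symm, mu_mu]
    have h4 : m (a, 0) = mu (a, 0) := mu_inj (by rw [mu_mu]; exact (sq_cancel h.inv h3).symm)
    exact absurd (by rw [h4]; exact ⟨ha.1, zero_add 1⟩) ha.2.2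
  · rw [h0 h2.1] at h2
    exact absurd ⟨h2.2.1, by_contra fun c => h2.2.2 (z01 c).symm⟩ ha.2.2
  · rw [sq_succ]
    refine ⟨h2.1, h2.2.2.2.1, fun c => ?_, h1.symm⟩
    change (m (sq m a j)).2 + 1 = 1
    rw [z01 fun e => h2.2.2.1 ⟨c, e⟩, zero_add]

theorem Pm.last (ha : a ∈ St D A m) : (sq m a (ln A m a)).2 = 1 := by
  obtain ⟨h1, h2⟩ := h.ln_spec ha
  obtain ⟨j, hj⟩ := Nat.exists_eq_succ_of_ne_zero h1.ne'
  rw [hj] at h2 ⊢
  exact (h.step ha (by omega)).2.2.1 h2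

theorem Pm.eq (ha : a ∈ St D A m) (hb : b ∈ St D A m) {i j : ℕ} (hij : i ≤ j)
    (hj : j ≤ ln A m b) (e : sq m a i = sq m b j) : a = b ∧ i = j := by
  obtain ⟨t, rfl⟩ := Nat.exists_eq_add_of_le hij
  have h1 := sq_cancel h.inv e
  rcases t.eq_zero_or_pos with rfl | hp
  · exact ⟨congrArg Prod.fst h1, rfl⟩
  · have h2 : t = ln A m b := by_contra fun c =>
      ln_min (A := A) (m := m) (a := b) hp (by omega) (by rw [← h1]; exact ha.1)
    have h3 := h.last hb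
    rw [← h2, ← h1] at h3
    exact absurd h3 zero_ne_one

theorem Pm.meet (ha : a ∈ St D A m) (hb : b ∈ St D A m) {i j : ℕ} (hi : i ≤ ln A m a)
    (hj : j ≤ ln A m b) (e : (sq m a i).1 = (sq m b j).1) :
    (a = b ∧ i = j) ∨ (a = (sq m b (ln A m b)).1 ∧ sq m a i = mu (sq m b j)) := by
  rcases eq_or_mu e with e | e
  · rcases le_total i j with c | c
    · exact Or.inl (h.eq ha hb c hj e)
    · exact Or.inl ((h.eq hb ha c hi e.symm).imp Eq.symm Eq.symm)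
  refine Or.inr ⟨?_, e⟩
  obtain ⟨t, ht⟩ := Nat.exists_eq_add_of_le hj
  rcases le_or_gt t i with c | c
  · obtain ⟨s, rfl⟩ := Nat.exists_eq_add_of_le' c
    have h1 := sq_flip h.inv t e
    rw [← ht] at h1
    rcases s.eq_zero_or_pos with rfl | hp
    · exact congrArg Prod.fst h1
    · have h2 : s = ln A m a :=
        by_contra fun c => ln_min (A := A) (m := m) (a := a) hp (by omega)
          (by rw [h1]; exact (h.ln_spec hb).2)
      have h3 := h.last ha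
      rw [← h2, h1, mu, h.last hb] at h3
      exact absurd h3 (by decide : ¬(1 + 1 : ZMod 2) = 1)
  · have h1 := sq_flip h.inv i (i := 0) (by rw [zero_add]; exact e)
    rcases (j + i).eq_zero_or_pos with h2 | hp
    · rw [h2] at h1
      exact absurd (congrArg Prod.snd h1) (by decide : ¬(0 : ZMod 2) = 0 + 1)
    · have h2 : a = (sq m b (j + i)).1 := congrArg Prod.fst h1
      exact absurd (by rw [← h2]; exact ha.1) (ln_min (A := A) (m := m) (a := b) hp (by omega))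

theorem Pm.nomu (ha : a ∈ St D A m) {i j : ℕ} (hij : j ≤ i) (hi : i ≤ ln A m a) :
    sq m a i ≠ mu (sq m a j) := by
  intro e
  obtain ⟨t, ht | ht⟩ := Nat.even_or_odd' (i - j)
  · rw [show i = j + t + t by omega] at e
    exact mu_ne _ (sq_flip h.inv t e).symm
  · rw [show i = j + t + 1 + t by omega] at e
    have h1 := sq_flip h.inv t e
    rw [sq_succ] at h1
    exact (h.step ha (by omega)).2.2.2 (mu_inj h1)

theorem Pm.oddP (ha : a ∈ St D A m) : OddP G β D A (fun j => (sq m a j).1) (ln A m a) := by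
  refine ⟨⟨fun j _ => h.mem ha.2.1 j, fun j hj => (h.step ha hj).1, fun i hi j hj e => ?_⟩, ha.1,
    (h.ln_spec ha).2, fun j => ln_min, ?_⟩
  · rcases h.meet ha ha hi hj e with c | ⟨-, c⟩
    · exact c.2
    · rcases le_total j i with d | d
      · exact absurd c (h.nomu ha d hi)
      · exact absurd (by rw [c, mu_mu]) (h.nomu ha d hj)
  · have k : ∀ j ≤ ln A m a, par β (fun j => (sq m a j).1) 0 j = (sq m a j).2 := by
      intro j hj
      induction j with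
      | zero => exact par_self _ _ _
      | succ j ih => rw [par_succ _ _ j.zero_le, ih (by omega), (h.step ha hj).2.1]
    rw [k _ le_rfl, h.last ha]

theorem Pm.card (hB : B ⊆ D) : B.ncard ≤ (St D A m).ncard := by
  have h0 : (A ∩ D).Finite := h.fin.inter_of_right _
  have h1 : ((A ∩ D) \ St D A m).ncard ≤ ((A ∩ D) \ B).ncard := by
    have k : ∀ a ∈ (A ∩ D) \ St D A m, (m (a, 0)).1 ∈ A ∧ (m (a, 0)).2 = 1 := fun a ha =>
      by_contra fun c => ha.2 ⟨ha.1.1, ha.1.2, c⟩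
    refine ncard_le_ncard_of_injOn (fun a => (m (a, 0)).1) (fun a ha => ?_) (fun a ha b hb e => ?_)
      h0.sdiff
    · have := (h.adj (a, 0) ⟨ha.1.2, fun c => zero_ne_one c.2⟩).1
      exact ⟨⟨(k a ha).1, this.1⟩, fun c => this.2 ⟨c, (k a ha).2⟩⟩
    · exact congrArg Prod.fst (h.inv.injective (Prod.ext e ((k a ha).2.trans (k b hb).2.symm)))
  have h2 := ncard_sdiff_add_ncard_of_subset
    (show St D A m ⊆ A ∩ D from fun a ha => ⟨ha.1, ha.2.1⟩) h0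
  have h3 := ncard_sdiff_add_ncard_of_subset (subset_inter h.sub hB) h0
  omega

theorem Pm.paths (hB : B ⊆ D) {N : ℕ} (hN : B.ncard = 2 * N) :
    ∃ (f : Fin N → ℕ → V) (l : Fin N → ℕ), (∀ i, OddP G β D A (f i) (l i)) ∧
      Pairwise (Disjoint on fun i => f i '' Iic (l i)) := by
  obtain ⟨_, -⟩ := exists_wellFoundedLT V
  have fin : (St D A m).Finite := h.fin.subset fun a ha => ha.2.1
  have key : ∀ I ⊆ St D A m, N ≤ I.ncard → (∀ a ∈ I, ∀ b ∈ I, a = (sq m b (ln A m b)).1 →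
      b ≠ (sq m a (ln A m a)).1) → ∃ (f : Fin N → ℕ → V) (l : Fin N → ℕ),
      (∀ i, OddP G β D A (f i) (l i)) ∧ Pairwise (Disjoint on fun i => f i '' Iic (l i)) := by
    intro I h1 h2 h3
    rw [ncard_eq_toFinset_card I (fin.subset h1)] at h2
    set g := (fin.subset h1).toFinset.orderEmbOfCardLe h2
    have hg : ∀ i, g i ∈ I := fun i =>
      (fin.subset h1).mem_toFinset.1 (Finset.orderEmbOfCardLe_mem _ h2 i)
    refine ⟨fun i j => (sq m (g i) j).1, fun i => ln A m (g i), fun i => h.oddP (h1 (hg i)),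
      fun i j hij => disjoint_left.2 ?_⟩
    rintro _ ⟨s, hs, rfl⟩ ⟨t, ht, e⟩
    have ne : g i ≠ g j := g.injective.ne hij
    exact h3 _ (hg i) _ (hg j)
      ((h.meet (h1 (hg i)) (h1 (hg j)) hs ht e.symm).resolve_left fun c => ne c.1).1
      ((h.meet (h1 (hg j)) (h1 (hg i)) ht hs e).resolve_left fun c => ne c.1.symm).1
  have h4 : St D A m = {a | a ∈ St D A m ∧ a < (sq m a (ln A m a)).1} ∪
      {a | a ∈ St D A m ∧ (sq m a (ln A m a)).1 < a} := by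
    refine Subset.antisymm (fun a ha => ?_) (union_subset (fun a ha => ha.1) fun a ha => ha.1)
    have := (h.oddP ha).path.2.2 0 (Nat.zero_le _) _ le_rfl
    exact (lt_or_gt_of_ne fun e : a = _ => (h.ln_spec ha).1.ne (this e)).imp
      (fun c => ⟨ha, c⟩) fun c => ⟨ha, c⟩
  have h5 := h.card hB
  rw [h4, hN] at h5
  have h6 := h5.trans (ncard_union_le _ _)
  by_cases c : N ≤ {a | a ∈ St D A m ∧ a < (sq m a (ln A m a)).1}.ncard
  · exact key _ (fun a ha => ha.1) c fun a ha b hb e e' => lt_asymm (e' ▸ ha.2) (e ▸ hb.2)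
  · exact key {a | a ∈ St D A m ∧ (sq m a (ln A m a)).1 < a} (fun a ha => ha.1) (by omega)
      fun a ha b hb e e' => lt_asymm (e' ▸ ha.2) (e ▸ hb.2)

end primal

theorem even_of_mu {S : Set (V × ZMod 2)} (hS : S.Finite) (h : ∀ p ∈ S, mu p ∈ S) :
    Even S.ncard := by
  have := Finset.sum_involution (s := hS.toFinset) (f := fun _ => (1 : ZMod 2)) (fun p _ => mu p)
    (fun _ _ => by decide) (fun p _ _ => mu_ne p)
    (fun p hp => hS.mem_toFinset.2 (h p (hS.mem_toFinset.1 hp))) fun p _ => mu_mu p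
  rw [Finset.sum_const, nsmul_one, ZMod.natCast_eq_zero_iff_even] at this
  rwa [ncard_eq_toFinset_card S hS]

theorem dual (hD : D.Finite) (hs : ∀ u v, β u v = β v u) (hA : B ⊆ A) (hB : B ⊆ D)
    {Y : Set (V × ZMod 2)} (hY : Y ⊆ vs D B) {ι : Type} {k : V × ZMod 2 → ι} {O : Set ι}
    (h1 : ∀ p ∈ vs D B \ Y, ∀ q ∈ vs D B \ Y, (aux G β A).Adj p q → k p = k q)
    (h2 : ∀ o ∈ O, Odd {p | p ∈ vs D B \ Y ∧ k p = o}.ncard) (h3 : Y.ncard + 2 ≤ O.ncard) :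
    ∃ X ⊆ D, X.ncard ≤ B.ncard ∧ ∀ f l, ¬ OddP G β (D \ X) A f l := by
  have fU : (vs D B).Finite :=
    (hD.prod (toFinite (univ : Set (ZMod 2)))).subset fun p hp => mk_mem_prod hp.1 trivial
  have fY := fU.subset hY
  set Sp : Set (V × ZMod 2) := {p | p ∈ vs D B \ Y ∧ (p.1 ∈ A ∨ mu p ∈ Y)} with hSp
  have fS : Sp.Finite := fU.subset fun p hp => hp.1.1
  have ad : ∀ p, (aux G β A).Adj p (mu p) := fun p => ⟨(mu_ne p).symm, Or.inl rfl⟩
  have h4 : ∀ o ∈ O, ∃ p ∈ Sp, k p = o := fun o ho => by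
    by_contra c
    refine Nat.not_even_iff_odd.2 (h2 o ho) (even_of_mu (fU.subset fun p hp => hp.1.1) ?_)
    rintro p ⟨hp, e⟩
    have d := not_or.1 fun d => c ⟨p, ⟨hp, d⟩, e⟩
    have hq : mu p ∈ vs D B \ Y := ⟨⟨hp.1.1, fun x => d.1 (hA x.1)⟩, d.2⟩
    exact ⟨hq, (h1 p hp _ hq (ad p)).symm.trans e⟩
  have : Nonempty (V × ZMod 2) := by
    obtain ⟨o, ho⟩ := nonempty_of_ncard_ne_zero (by omega : O.ncard ≠ 0)
    exact ⟨(h4 o ho).choose⟩
  choose! s s1 s2 using h4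
  have si : InjOn s O := fun o ho o' ho' e => by rw [← s2 o ho, e, s2 o' ho']
  have z0 : ∀ a ∈ D, ((a, 0) : V × ZMod 2) ∈ vs D B := fun a ha => ⟨ha, fun c => zero_ne_one c.2⟩
  have h5 : ∀ z ∈ vs D B, z.1 ∈ A → z.2 = 1 → z ∈ Y := by
    intro z hz a1 a2
    by_contra c
    have a0 : ∀ p ∈ vs D B \ Y, p.1 ∈ A → p.2 ≠ 1 → k p = k z := fun p hp b1 b2 =>
      h1 p hp z ⟨hz, c⟩ ⟨fun e => b2 (e ▸ a2), Or.inr (Or.inl ⟨b1, a1, a2 ▸ b2⟩)⟩
    have a3 : (O \ {k z}).ncard ≤ Y.ncard := by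
      refine ncard_le_ncard_of_injOn (fun o => mu (s o)) (fun o ho => by_contra fun d => ho.2 ?_)
        (fun o ho o' ho' e => si ho.1 ho'.1 (mu_inj e)) fY
      obtain ⟨b1, b2⟩ := s1 o ho.1
      have b3 := b2.resolve_right d
      rw [← s2 o ho.1]
      by_cases e : (s o).2 = 1
      · have b4 : (mu (s o)).2 ≠ 1 := by
          change (s o).2 + 1 ≠ 1
          rw [e]; decide
        have b5 : mu (s o) ∈ vs D B \ Y := ⟨⟨b1.1.1, fun x => b4 x.2⟩, d⟩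
        exact (h1 _ b1 _ b5 (ad _)).trans (a0 _ b5 b3 b4)
      · exact a0 _ b1 b3 e
    have a4 := pred_ncard_le_ncard_sdiff_singleton O (k z)
    omega
  set X1 : Set V := {v | (v, 0) ∈ Y ∧ (v ∈ A ∨ (v, 1) ∈ Y)} with hX1
  have x1 : X1 ⊆ D := fun v hv => (hY hv.1).1
  have pi : ∀ c : ZMod 2, Injective fun v : V => (v, c) := fun c => Prod.mk_left_injective c
  have h6 : X1.ncard + Sp.ncard ≤ Y.ncard + B.ncard := by
    rw [← ncard_image_of_injective X1 (pi 0), ← ncard_image_of_injective Sp mu_inj,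
      ← ncard_image_of_injective B (pi 1), ← ncard_union_eq _ ((hD.subset x1).image _) (fS.image _)]
    · refine le_trans (ncard_le_ncard (union_subset ?_ ?_) (fY.union ((hD.subset hB).image _)))
        (ncard_union_le _ _)
      · rintro _ ⟨v, hv, rfl⟩
        exact Or.inl hv.1
      · rintro _ ⟨p, ⟨b1, b2⟩, rfl⟩
        refine or_iff_not_imp_left.2 fun d => ?_
        have b3 := b2.resolve_right d
        have b4 : (mu p).2 = 1 := by
          change p.2 + 1 = 1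
          rw [z01 fun e => b1.2 (h5 p b1.1 b3 e), zero_add]
        exact ⟨p.1, by_contra fun x => d (h5 _ ⟨b1.1.1, fun y => x y.1⟩ b3 b4),
          Prod.ext rfl b4.symm⟩
    · rw [disjoint_left]
      rintro _ ⟨v, hv, rfl⟩ ⟨p, hp, e⟩
      obtain rfl : p = (v, 1) := mu_inj (e.trans (Prod.ext rfl (by decide : (0 : ZMod 2) = 1 + 1)))
      exact hp.1.2 (hv.2.elim (fun a => h5 _ hp.1.1 a rfl) id)
  have h7 := ncard_sdiff_add_ncard_of_subset (image_subset_iff.2 s1 : s '' O ⊆ Sp) fS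
  rw [si.ncard_image] at h7
  refine ⟨X1 ∪ Prod.fst '' (Sp \ s '' O), union_subset x1 ?_, ?_, fun f l hf => ?_⟩
  · rintro _ ⟨p, hp, rfl⟩
    exact hp.1.1.1.1
  · have := ncard_image_le (f := Prod.fst) (fS.sdiff (t := s '' O))
    have := ncard_union_le X1 (Prod.fst '' (Sp \ s '' O))
    omega
  obtain ⟨⟨g1, g2, g3⟩, g4, g5, g6, g7⟩ := hf
  have c1 : ∀ j ≤ l, ∀ c, (f j, c) ∈ Sp → k (f j, c) ∈ O ∧ (s (k (f j, c))).1 = f j := by
    intro j hj c hp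
    obtain ⟨o, ho, e⟩ : (f j, c) ∈ s '' O := by_contra fun d => (g1 j hj).2 (Or.inr ⟨_, ⟨hp, d⟩, rfl⟩)
    rw [← e, s2 o ho, e]
    exact ⟨ho, rfl⟩
  have c2 : ∀ j ≤ l, f j ∈ A → (f j, 0) ∈ Sp := fun j hj a =>
    ⟨⟨z0 _ (g1 j hj).1, fun d => (g1 j hj).2 (Or.inl ⟨d, Or.inl a⟩)⟩, Or.inl a⟩
  have c3 : ∀ j < l, (f j, par β f 0 j) ∈ vs D B \ Y → k (f j, par β f 0 j) ∈ O →
      (∃ i ≤ j, (s (k (f j, par β f 0 j))).1 = f i) →
      mu (f (j + 1), par β f 0 (j + 1)) ∈ vs D B \ Y → ¬(f (j + 1) ∈ A ∧ par β f 0 (j + 1) + 1 = 1) →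
      k (f j, par β f 0 j) = k (mu (f (j + 1), par β f 0 (j + 1))) ∧
        mu (f (j + 1), par β f 0 (j + 1)) ∉ Sp := by
    rintro j hj a1 a2 ⟨i, hi, a3⟩ a4 a5
    have a6 := h1 _ a1 _ a4 ⟨fun e => (g2 j hj).ne (congrArg Prod.fst e),
      Or.inr (Or.inr ⟨g2 j hj, fun d => ?_, a5, ?_, ?_⟩)⟩
    · refine ⟨a6, fun d => ?_⟩
      have a7 := (c1 (j + 1) hj _ d).2
      have a8 := g3 i (by omega) (j + 1) hj (by rw [← a3, a6]; exact a7)
      omega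
    · rcases j.eq_zero_or_pos with rfl | hp
      · exact zero_ne_one ((par_self β f 0).symm.trans d.2)
      · exact g6 j hp hj d.1
    all_goals
      simp only [mu, par_succ β f j.zero_le, hs (f (j + 1))]
      generalize par β f 0 j = x
      generalize β (f j) (f (j + 1)) = y
      decide +revert
  have c4 : ∀ j < l, (f j, par β f 0 j) ∈ vs D B \ Y ∧ k (f j, par β f 0 j) ∈ O ∧
      ∃ i ≤ j, (s (k (f j, par β f 0 j))).1 = f i := by
    intro j hj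
    induction j with
    | zero =>
      rw [par_self]
      exact ⟨(c2 0 hj.le g4).1, (c1 0 hj.le _ (c2 0 hj.le g4)).imp id fun e => ⟨0, le_rfl, e⟩⟩
    | succ j ih =>
      obtain ⟨a1, a2, a3⟩ := ih (by omega)
      have b1 := g6 (j + 1) j.succ_pos hj
      have b2 : ∀ c, (f (j + 1), c) ∈ vs D B := fun c => ⟨(g1 _ hj.le).1, fun d => b1 (hA d.1)⟩
      by_cases d : mu (f (j + 1), par β f 0 (j + 1)) ∈ Y
      · have b3 : (f (j + 1), par β f 0 (j + 1)) ∈ Sp := by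
          refine ⟨⟨b2 _, fun e => (g1 _ hj.le).2 (Or.inl ?_)⟩, Or.inr d⟩
          by_cases x : par β f 0 (j + 1) = 1
          · rw [x] at d e
            exact ⟨d, Or.inr e⟩
          · rw [z01 x] at d e
            exact ⟨e, Or.inr d⟩
        exact ⟨b3.1, (c1 _ hj.le _ b3).imp id fun e => ⟨_, le_rfl, e⟩⟩
      · obtain ⟨b3, b4⟩ := c3 j (by omega) a1 a2 a3 ⟨b2 _, d⟩ fun e => b1 e.1
        have b5 : (f (j + 1), par β f 0 (j + 1)) ∈ vs D B \ Y :=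
          ⟨b2 _, fun e => b4 ⟨⟨b2 _, d⟩, Or.inr (by rwa [mu_mu])⟩⟩
        rw [(h1 _ b5 _ ⟨b2 _, d⟩ (ad _)).trans b3.symm]
        exact ⟨b5, a2, a3.imp fun i hi => ⟨by omega, hi.2⟩⟩
  rcases l with _ | j
  · exact zero_ne_one ((par_self β f 0).symm.trans g7)
  obtain ⟨a1, a2, a3⟩ := c4 j j.lt_succ_self
  have a4 := c3 j j.lt_succ_self a1 a2 a3
  rw [g7] at a4
  exact (a4 (c2 _ le_rfl g5).1 fun e => absurd e.2 (by decide)).2 (c2 _ le_rfl g5)

end OddK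

open OddK

theorem oddS : OddS := by
  intro V G β D A N hD hs
  by_cases c : 2 * N ≤ (A ∩ D).ncard
  · obtain ⟨B, h1, h2⟩ := exists_subset_card_eq c
    have hA := h1.trans inter_subset_left
    have hB := h1.trans inter_subset_right
    have fP := hD.prod (toFinite (univ : Set (ZMod 2)))
    have e : vs D B = D ×ˢ univ \ B ×ˢ {1} := by
      ext p; simp [vs]
    have he : Even (vs D B).ncard := by
      have := ncard_sdiff_add_ncard_of_subset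
        (prod_mono hB (subset_univ _) : B ×ˢ ({1} : Set (ZMod 2)) ⊆ _) fP
      rw [← e, ncard_prod, ncard_prod, ncard_singleton, ncard_univ, Nat.card_zmod] at this
      rw [Nat.even_iff]
      omega
    rcases tutte_set (aux G β A) (e ▸ fP.sdiff) he with ⟨m, a1, a2, a3⟩ | ⟨Y, hY, ι, k, O, a1, a2, a3⟩
    · exact Or.inl (Pm.paths ⟨hD, hA, a1, a2, a3⟩ hB h2)
    · exact Or.inr (h2 ▸ dual hD hs hA hB hY a1 a2 a3)
  · exact Or.inr ⟨A ∩ D, inter_subset_right, by omega, fun f l h =>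
      (h.path.1 0 l.zero_le).2 ⟨h.first, (h.path.1 0 l.zero_le).1⟩⟩

end Pool.Agent.MP_9d78a0_co.gm

end MrgPart5

-- ======== part 6: formerly Pool.Agent.MP_9d78a0_co.gm.SpecW
section MrgPart6

/-! Routing (block WORDS): words, slides and their invariants. -/

set_option autoImplicit false

namespace Pool.Agent.MP_9d78a0_co.gm

open Set Function

/-- an alphabet: `c u` is the inverse letter, `a u` the other end of a loop; the fixed points of
`a` are the terminals -/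
structure Al (Φ : Type) where
  a : Φ → Φ
  c : Φ → Φ
  aa : ∀ u, a (a u) = u
  cc : ∀ u, c (c u) = u
  ac : ∀ u, a (c u) = c (a u)
  ne : ∀ u, a u = c u → a u = u

namespace Al

variable {Φ : Type} (A : Al Φ)

/-- the letters and their inverses -/
def dbl (L : List Φ) : List Φ := L ++ L.map A.c

/-- the mirror image -/
def inv (L : List Φ) : List Φ := (L.map A.c).reverse

/-- the terminals and their inverses -/
def tm (L : List Φ) : Set Φ := {u | u ∈ A.dbl L ∧ A.a u = u}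

/-- no repeated letter, and both ends of every loop -/
def WF (L : List Φ) : Prop := (A.dbl L).Nodup ∧ ∀ u ∈ A.dbl L, A.a u ∈ A.dbl L

/-- the word is a walk, the letter `u` leads from `l u` to `l (c u)` -/
def Path {Λ : Type} (l : Φ → Λ) : Λ → List Φ → Λ → Prop
  | p, [], q => p = q
  | p, u :: X, q => l u = p ∧ Path l (l (A.c u)) X q

/-- a function that is constant along the boundary of the faces -/
def Lab {Λ : Type} (L : List Φ) (l : Φ → Λ) : Prop :=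
  (∀ u, l (A.a u) = l u) ∧ ∃ p, A.Path l p L p

/-- a lower bound for twice the number of faces without terminal, less the length -/
def Big (L : List Φ) (m : ℤ) : Prop :=
  ∃ (Λ : Type) (l : Φ → Λ), A.Lab L l ∧
    m + L.length ≤ 2 * ((l '' {u | u ∈ A.dbl L} \ l '' A.tm L).ncard : ℤ)

/-- two pieces are joined by a strand -/
def Lk (L : List Φ) (φ : Φ → List ℕ) (x y : ℕ) : Prop :=
  ∃ u ∈ A.dbl L, (x, y) ∈ (φ u).zip (φ (A.a u))

/-- the pattern `π` is drawn, and the numbers of strands have the property `B` -/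
def Fe (B : ℕ → Prop) (L : List Φ) (π : Φ → Φ → Prop) : Prop :=
  ∃ φ : Φ → List ℕ,
    (∀ u ∈ A.dbl L, φ (A.c u) = (φ u).reverse ∧ (φ (A.a u)).length = (φ u).length ∧
      (A.a u = u → (φ u).length = 1) ∧ B (φ u).length) ∧ NCL (L.flatMap φ) ∧
    ∀ s ∈ A.tm L, ∀ t ∈ A.tm L,
      π s t ↔ Relation.EqvGen (A.Lk L φ) ((φ s).getD 0 0) ((φ t).getD 0 0)

/-- no twisted loop -/
def Ori (L : List Φ) : Prop := ∀ u ∈ L, A.a u ∈ L → A.a u = u

/-- the letter `y` slides along the loop of `x` -/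
inductive Sl : List Φ → List Φ → Prop
  | u1 (P Z R : List Φ) (x y : Φ) : A.a x ≠ x →
      Sl (P ++ y :: x :: (Z ++ A.c (A.a x) :: R)) (P ++ x :: (Z ++ A.c (A.a x) :: y :: R))
  | u2 (P Z R : List Φ) (x y : Φ) : A.a x ≠ x →
      Sl (P ++ x :: y :: (Z ++ A.c (A.a x) :: R)) (P ++ x :: (Z ++ y :: A.c (A.a x) :: R))
  | t1 (P Z R : List Φ) (x y : Φ) : A.a x ≠ x →
      Sl (P ++ y :: x :: (Z ++ A.a x :: R)) (P ++ x :: (Z ++ A.c y :: A.a x :: R))
  | t2 (P Z R : List Φ) (x y : Φ) : A.a x ≠ x →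
      Sl (P ++ x :: y :: (Z ++ A.a x :: R)) (P ++ x :: (Z ++ A.a x :: A.c y :: R))

/-- what passes between a word and a new word -/
structure Sim (L L1 : List Φ) : Prop where
  wf : A.WF L1
  fe : ∀ π, A.Fe (fun _ => True) L π ↔ A.Fe (fun _ => True) L1 π
  big : ∀ m, A.Big L m ↔ A.Big L1 m
  lab : ∀ (Λ : Type) (l : Φ → Λ), A.Lab L l → ∃ l1, A.Lab L1 l1 ∧ ∀ t, A.a t = t → l1 t = l t
  tm : A.tm L1 = A.tm L
  ori : A.Ori L ↔ A.Ori L1
  sgn : A.Ori L → ∀ t ∈ L1, A.a t = t → t ∈ L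

end Al

/-- rotation and mirror image -/
def RotWS : Prop :=
  ∀ (Φ : Type) (A : Al Φ), (∀ P R, A.WF (P ++ R) → A.Sim (P ++ R) (R ++ P)) ∧
    ∀ L, A.WF L → A.WF (A.inv L) ∧ (∀ B π, A.Fe B L π ↔ A.Fe B (A.inv L) π) ∧
      (∀ m, A.Big L m ↔ A.Big (A.inv L) m) ∧
      (∀ (Λ : Type) (l : Φ → Λ), A.Lab L l ↔ A.Lab (A.inv L) l) ∧ A.tm (A.inv L) = A.tm L ∧
      (A.Ori L ↔ A.Ori (A.inv L))

/-- slides -/
def SlideS : Prop :=
  ∀ (Φ : Type) (A : Al Φ) (L L1 : List Φ), A.WF L → Relation.EqvGen A.Sl L L1 → A.Sim L L1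

/-- deletion of an empty loop -/
def DelWS : Prop :=
  ∀ (Φ : Type) (A : Al Φ) (P R : List Φ) (x : Φ), A.a x ≠ x → P ++ R ≠ [] →
    A.WF (P ++ x :: A.c (A.a x) :: R) → A.Sim (P ++ x :: A.c (A.a x) :: R) (P ++ R)

/-- change of the alphabet -/
def RenWS : Prop :=
  ∀ (Φ Ψ : Type) (A : Al Φ) (A1 : Al Ψ) (j : Ψ → Φ) (L1 : List Ψ) (B : ℕ → Prop)
    (π : Φ → Φ → Prop), A1.WF L1 → InjOn j {u | u ∈ A1.dbl L1} →
    (∀ u ∈ A1.dbl L1, j (A1.a u) = A.a (j u) ∧ j (A1.c u) = A.c (j u)) →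
    (A.Fe B (L1.map j) π ↔ A1.Fe B L1 fun s t => π (j s) (j t))

/-- a bound for the number of strands -/
def BndWS : Prop :=
  ∀ N : ℕ, ∃ n : ℕ, ∀ (Φ : Type) (A : Al Φ) (L : List Φ) (π : Φ → Φ → Prop), A.WF L →
    L.length ≤ N → A.Fe (fun _ => True) L π → A.Fe (fun k => k ≤ n) L π

/-- without twisted loops a terminal of the word has a next and a previous one -/
def ParWS : Prop :=
  ∀ (Φ Λ : Type) (A : Al Φ) (L : List Φ) (l : Φ → Λ), A.WF L → A.Lab L l → A.Ori L →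
    ∀ u ∈ L, A.a u = u → (∃ v ∈ L, A.a v = v ∧ l v = l (A.c u)) ∧
      ∃ w ∈ L, A.a w = w ∧ l (A.c w) = l u

/-- words with the same invariants have the same drawings -/
def WordS : Prop :=
  ∀ (Φ Ψ Λ Λ' : Type) (A : Al Φ) (A' : Al Ψ) (L : List Φ) (L' : List Ψ) (τ : Ψ → Φ) (l : Φ → Λ)
    (l' : Ψ → Λ') (π : Φ → Φ → Prop), A.WF L → A'.WF L' → BijOn τ (A'.tm L') (A.tm L) →
    (∀ t ∈ A'.tm L', τ (A'.c t) = A.c (τ t)) → A.Lab L l → A'.Lab L' l' →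
    (∀ t ∈ A.tm L, ∀ t1 ∈ A.tm L, ∀ t2 ∈ A.tm L, l t1 = l t → l t2 = l t → t1 ≠ t → t2 ≠ t →
      t1 = t2) →
    (∀ s ∈ A'.tm L', ∀ t ∈ A'.tm L', l' s = l' t → l (τ s) = l (τ t)) →
    (∀ m, A.Big L m ↔ A'.Big L' m) → (A'.tm L').Nonempty →
    ((¬ A.Ori L ∧ ¬ A'.Ori L') ∨ (A.Ori L ∧ A'.Ori L' ∧
      ((∀ t ∈ L', A'.a t = t → τ t ∈ L) ∨ ∀ t ∈ L', A'.a t = t → τ t ∉ L))) →
    A'.Fe (fun _ => True) L' (fun s t => π (τ s) (τ t)) → A.Fe (fun _ => True) L π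

open Classical in
/-- twice the genus of a star map, read from the word -/
def StarWS : Prop :=
  ∀ (Φ : Type) (W : FM Φ) (Hf : Set Φ) (L : List Φ) (A : Al Φ), W.Star Hf L → Hf.Nonempty →
    (∀ u, A.a u = if u ∈ W.S \ Hf ∧ W.a u ∉ Hf then W.a u else u) → (∀ u ∈ W.S, A.c u = W.c u) →
    ∀ m : ℤ, A.Big L m ↔
      4 * W.eg + 2 * m + 4 * (W.vo '' Hf).ncard + 4 * (W.fo '' Hf).ncard ≤ 4 + Hf.ncard

/-- from words to star maps -/
def BridgeS : Prop := ParWS → StarWS → BndWS → WordS → ClassS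

end Pool.Agent.MP_9d78a0_co.gm

end MrgPart6

-- ======== part 7: formerly Pool.Agent.MP_9d78a0_co.gm.RWordC
section MrgPart7

/-! Words: change of the alphabet, a bound for the strands, next and previous terminals. -/

set_option autoImplicit false

namespace Pool.Agent.MP_9d78a0_co.gm

open Set Function

namespace RWordC

variable {Φ Ψ : Type} {A : Al Φ} {A1 : Al Ψ}

theorem mem_dbl {L : List Φ} {u : Φ} : u ∈ A.dbl L ↔ u ∈ L ∨ A.c u ∈ L := by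
  unfold Al.dbl
  rw [List.mem_append, List.mem_map]
  refine or_congr Iff.rfl ⟨?_, fun h => ⟨_, h, A.cc u⟩⟩
  rintro ⟨v, hv, rfl⟩
  rwa [A.cc]

theorem c_mem {L : List Φ} {u : Φ} (h : u ∈ A.dbl L) : A.c u ∈ A.dbl L := by
  rw [mem_dbl] at h ⊢
  rw [A.cc]
  exact h.symm

theorem dbl_map {j : Ψ → Φ} {L1 : List Ψ}
    (hj : ∀ u ∈ A1.dbl L1, j (A1.a u) = A.a (j u) ∧ j (A1.c u) = A.c (j u)) :
    A.dbl (L1.map j) = (A1.dbl L1).map j := by
  unfold Al.dbl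
  rw [List.map_append, List.map_map, List.map_map]
  congr 1
  exact List.map_congr_left fun u hu => ((hj u (mem_dbl.2 (Or.inl hu))).2).symm

/-- the body of `Fe` -/
def Body (A : Al Φ) (B : ℕ → Prop) (L : List Φ) (π : Φ → Φ → Prop) (φ : Φ → List ℕ) : Prop :=
  (∀ u ∈ A.dbl L, φ (A.c u) = (φ u).reverse ∧ (φ (A.a u)).length = (φ u).length ∧
      (A.a u = u → (φ u).length = 1) ∧ B (φ u).length) ∧ NCL (L.flatMap φ) ∧
    ∀ s ∈ A.tm L, ∀ t ∈ A.tm L,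
      π s t ↔ Relation.EqvGen (A.Lk L φ) ((φ s).getD 0 0) ((φ t).getD 0 0)

theorem body_iff {j : Ψ → Φ} {L1 : List Ψ} {B : ℕ → Prop} {π : Φ → Φ → Prop} (wf : A1.WF L1)
    (inj : InjOn j {u | u ∈ A1.dbl L1})
    (hj : ∀ u ∈ A1.dbl L1, j (A1.a u) = A.a (j u) ∧ j (A1.c u) = A.c (j u))
    {φ : Φ → List ℕ} {φ1 : Ψ → List ℕ} (hφ : ∀ u ∈ A1.dbl L1, φ (j u) = φ1 u) :
    Body A B (L1.map j) π φ ↔ Body A1 B L1 (fun s t => π (j s) (j t)) φ1 := by
  have ht : ∀ u ∈ A1.dbl L1, A.a (j u) = j u ↔ A1.a u = u := fun u hu => by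
    rw [← (hj u hu).1]
    exact ⟨fun e => inj (wf.2 u hu) hu e, fun e => by rw [e]⟩
  have ha : ∀ u ∈ A1.dbl L1, φ (A.a (j u)) = φ1 (A1.a u) := fun u hu => by
    rw [← (hj u hu).1, hφ _ (wf.2 u hu)]
  have hc : ∀ u ∈ A1.dbl L1, φ (A.c (j u)) = φ1 (A1.c u) := fun u hu => by
    rw [← (hj u hu).2, hφ _ (c_mem hu)]
  have hm : ∀ P : Φ → Prop, (∀ u ∈ A.dbl (L1.map j), P u) ↔ ∀ u ∈ A1.dbl L1, P (j u) := fun P => by
    rw [dbl_map hj]
    exact List.forall_mem_map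
  have htm : ∀ P : Φ → Prop, (∀ u ∈ A.tm (L1.map j), P u) ↔ ∀ u ∈ A1.tm L1, P (j u) := fun P => by
    constructor
    · intro h u hu
      refine h _ ⟨?_, (ht u hu.1).2 hu.2⟩
      rw [dbl_map hj]
      exact List.mem_map_of_mem hu.1
    · rintro h u ⟨h1, h2⟩
      rw [dbl_map hj] at h1
      obtain ⟨v, hv, rfl⟩ := List.mem_map.1 h1
      exact h v ⟨hv, (ht v hv).1 h2⟩
  have hl : A.Lk (L1.map j) φ = A1.Lk L1 φ1 := by
    funext x y
    apply propext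
    unfold Al.Lk
    rw [dbl_map hj]
    constructor
    · rintro ⟨u, hu, h⟩
      obtain ⟨v, hv, rfl⟩ := List.mem_map.1 hu
      exact ⟨v, hv, by rwa [hφ v hv, ha v hv] at h⟩
    · rintro ⟨v, hv, h⟩
      exact ⟨j v, List.mem_map_of_mem hv, by rwa [hφ v hv, ha v hv]⟩
  have hf : (L1.map j).flatMap φ = L1.flatMap φ1 := by
    rw [List.flatMap_map]
    exact List.flatMap_congr fun u hu => hφ u (mem_dbl.2 (Or.inl hu))
  unfold Body
  rw [hm, htm, hl, hf]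
  refine and_congr (forall₂_congr fun u hu => ?_) (and_congr Iff.rfl
    (forall₂_congr fun s hs => ?_))
  · rw [ha u hu, hc u hu, hφ u hu, ht u hu]
  · rw [htm]
    refine forall₂_congr fun t ht' => ?_
    rw [hφ s hs.1, hφ t ht'.1]

theorem fe_mono {B B' : ℕ → Prop} {L : List Φ} {π : Φ → Φ → Prop} (h : ∀ k, B k → B' k)
    (f : A.Fe B L π) : A.Fe B' L π := by
  obtain ⟨φ, h1, h2⟩ := f
  exact ⟨φ, fun u hu => ⟨(h1 u hu).1, (h1 u hu).2.1, (h1 u hu).2.2.1, h _ (h1 u hu).2.2.2⟩, h2⟩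

theorem fe_bd (A : Al Φ) (L : List Φ) (π : Φ → Φ → Prop) :
    ∃ n, A.Fe (fun _ => True) L π → A.Fe (fun k => k ≤ n) L π := by
  by_cases h : A.Fe (fun _ => True) L π
  · obtain ⟨φ, h1, h2⟩ := h
    obtain ⟨n, hn⟩ := ((List.finite_toSet (A.dbl L)).image fun u => (φ u).length).bddAbove
    exact ⟨n, fun _ => ⟨φ, fun u hu => ⟨(h1 u hu).1, (h1 u hu).2.1, (h1 u hu).2.2.1,
      hn ⟨u, hu, rfl⟩⟩, h2⟩⟩
  · exact ⟨0, fun k => absurd k h⟩

theorem al_finite [Finite Φ] : Finite (Al Φ) :=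
  Finite.of_injective (fun A : Al Φ => (A.a, A.c)) (by
    rintro ⟨a, c, _, _, _, _⟩ ⟨a', c', _, _, _, _⟩ e
    obtain ⟨rfl, rfl⟩ := Prod.mk.inj e
    rfl)

theorem bd_fin (N : ℕ) (Φ : Type) [Finite Φ] : ∃ n, ∀ (A : Al Φ) (L : List Φ) (π : Φ → Φ → Prop),
    L.length ≤ N → A.Fe (fun _ => True) L π → A.Fe (fun k => k ≤ n) L π := by
  have := al_finite (Φ := Φ)
  choose f hf using fun (x : Al Φ × List Φ × (Φ → Φ → Prop)) => fe_bd x.1 x.2.1 x.2.2
  have hS : (univ ×ˢ ({L : List Φ | L.length ≤ N} ×ˢ univ) :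
      Set (Al Φ × List Φ × (Φ → Φ → Prop))).Finite :=
    finite_univ.prod ((List.finite_length_le Φ N).prod finite_univ)
  obtain ⟨n, hn⟩ := (hS.image f).bddAbove
  exact ⟨n, fun A L π hL h => fe_mono
    (fun k hk => le_trans hk (hn ⟨(A, L, π), ⟨trivial, hL, trivial⟩, rfl⟩)) (hf (A, L, π) h)⟩

/-- the alphabet of a word, carried over to another type -/
def tr (A : Al Φ) (L : List Φ) (wf : A.WF L) (e : Ψ ≃ {u // u ∈ A.dbl L}) : Al Ψ where
  a := fun x => e.symm ⟨A.a (e x), wf.2 _ (e x).2⟩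
  c := fun x => e.symm ⟨A.c (e x), c_mem (e x).2⟩
  aa := fun x => by simp [A.aa]
  cc := fun x => by simp [A.cc]
  ac := fun x => by simp [A.ac]
  ne := fun x h => by
    have h1 := Subtype.ext_iff.1 (e.symm.injective h)
    rw [Equiv.symm_apply_eq]
    exact Subtype.ext (A.ne _ h1)

theorem path_eq {Λ : Type} {l : Φ → Λ} {L : List Φ} {p q : Λ} (h : A.Path l p L q) :
    p :: L.map (l ∘ A.c) = L.map l ++ [q] := by
  induction L generalizing p with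
  | nil =>
    have e : p = q := h
    simp [e]
  | cons u X ih =>
    obtain ⟨h1, h2⟩ := h
    have := ih h2
    simp only [List.map_cons, List.cons_append, comp_apply, h1]
    rw [this]

end RWordC

open RWordC

theorem renWS : RenWS := by
  intro Φ Ψ A A1 j L1 B π wf inj hj
  constructor
  · rintro ⟨φ, h⟩
    exact ⟨φ ∘ j, (body_iff wf inj hj (φ := φ) (φ1 := φ ∘ j) fun _ _ => rfl).1 h⟩
  · rintro ⟨φ1, h⟩
    classical
    have : ∃ φ : Φ → List ℕ, ∀ u ∈ A1.dbl L1, φ (j u) = φ1 u := by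
      refine ⟨fun v => if k : ∃ u ∈ A1.dbl L1, j u = v then φ1 k.choose else [], fun u hu => ?_⟩
      have k : ∃ u' ∈ A1.dbl L1, j u' = j u := ⟨u, hu, rfl⟩
      simp only [dif_pos k]
      rw [inj k.choose_spec.1 hu k.choose_spec.2]
    obtain ⟨φ, hφ⟩ := this
    exact ⟨φ, (body_iff wf inj hj hφ).2 h⟩

theorem bndWS : BndWS := by
  intro N
  choose f hf using fun k => bd_fin N (Fin k)
  obtain ⟨n, hn⟩ := ((finite_Iic (2 * N)).image f).bddAbove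
  refine ⟨n, fun Φ A L π wf hL h => ?_⟩
  classical
  have hc : (A.dbl L).length ≤ 2 * N := by
    unfold Al.dbl
    rw [List.length_append, List.length_map]
    omega
  let e := List.Nodup.getEquiv (A.dbl L) wf.1
  let j : Fin (A.dbl L).length → Φ := fun x => (e x).1
  let L1 : List (Fin (A.dbl L).length) :=
    L.attach.map fun u => e.symm ⟨u.1, mem_dbl.2 (Or.inl u.2)⟩
  have hm : L1.map j = L := by
    simp only [L1, j, List.map_map]
    have : ((fun x => (e x).1) ∘ fun u : {x // x ∈ L} => e.symm ⟨u.1, mem_dbl.2 (Or.inl u.2)⟩) =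
        Subtype.val := by
      funext u
      simp
    rw [this, List.attach_map_subtype_val]
  have hi : Injective j := Subtype.val_injective.comp e.injective
  have hj : ∀ u ∈ (tr A L wf e).dbl L1, j ((tr A L wf e).a u) = A.a (j u) ∧
      j ((tr A L wf e).c u) = A.c (j u) := fun u _ => by simp [j, tr]
  have hd := dbl_map hj
  rw [hm] at hd
  have wf1 : (tr A L wf e).WF L1 := by
    refine ⟨List.Nodup.of_map j (hd ▸ wf.1), fun u hu => ?_⟩
    have : j ((tr A L wf e).a u) ∈ ((tr A L wf e).dbl L1).map j := hd ▸ (e _).2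
    obtain ⟨v, hv, ev⟩ := List.mem_map.1 this
    exact hi ev ▸ hv
  have r := fun B => renWS Φ _ A (tr A L wf e) j L1 B π wf1 hi.injOn hj
  rw [hm] at r
  refine (r _).2 (fe_mono (fun k hk => le_trans hk (hn ⟨_, hc, rfl⟩))
    (hf _ _ L1 _ ?_ ((r _).1 h)))
  rw [← hm, List.length_map] at hL
  exact hL

theorem parWS : ParWS := by
  intro Φ Λ A L l wf ⟨ha, p, hp⟩ ori u hu ht
  classical
  have nd : L.Nodup := (List.nodup_append.1 wf.1).1
  have p1 : (L.map (l ∘ A.c)).Perm (L.map l) := by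
    have : (p :: L.map (l ∘ A.c)).Perm (p :: L.map l) := by
      rw [path_eq hp]
      exact List.perm_append_singleton _ _
    exact this.cons_inv
  let T : Φ → Bool := fun v => decide (A.a v = v)
  have gm : ∀ v ∈ L.filter fun v => !T v, A.c (A.a v) ∈ L.filter fun v => !T v := fun v hv => by
    obtain ⟨h1, h2⟩ := List.mem_filter.1 hv
    have h3 : A.a v ≠ v := by simpa [T] using h2
    refine List.mem_filter.2 ⟨(mem_dbl.1 (wf.2 v (mem_dbl.2 (Or.inl h1)))).resolve_left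
      fun k => h3 (ori v h1 k), ?_⟩
    have : A.a (A.c (A.a v)) ≠ A.c (A.a v) := fun k => by
      rw [A.ac, A.aa] at k
      have := congrArg A.c k
      rw [A.cc, A.cc] at this
      exact h3 this.symm
    simpa [T] using this
  have gg : ∀ v, A.c (A.a (A.c (A.a v))) = v := fun v => by rw [A.ac, A.aa, A.cc]
  have p2 : ((L.filter fun v => !T v).map fun v => A.c (A.a v)).Perm (L.filter fun v => !T v) := by
    refine (List.perm_ext_iff_of_nodup ((nd.filter _).map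
      (LeftInverse.injective (g := fun v => A.c (A.a v)) gg)) (nd.filter _)).2 fun v => ⟨?_, ?_⟩
    · intro hv
      obtain ⟨w, hw, rfl⟩ := List.mem_map.1 hv
      exact gm w hw
    · exact fun hv => List.mem_map.2 ⟨_, gm v hv, gg v⟩
  have p3 : ((L.filter fun v => !T v).map (l ∘ A.c)).Perm ((L.filter fun v => !T v).map l) := by
    refine (p2.map (l ∘ A.c)).symm.trans (List.Perm.of_eq ?_)
    rw [List.map_map]
    exact List.map_congr_left fun v _ => by simp [A.cc, ha]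
  have sp := List.filter_append_perm T L
  have p4 : ((L.filter T).map (l ∘ A.c)).Perm ((L.filter T).map l) := by
    have q := ((sp.map (l ∘ A.c)).trans p1).trans (sp.map l).symm
    rw [List.map_append, List.map_append] at q
    exact (List.perm_append_right_iff _).1 (q.trans (p3.symm.append_left _))
  have hT : u ∈ L.filter T := List.mem_filter.2 ⟨hu, by simpa [T] using ht⟩
  constructor
  · obtain ⟨v, hv, e⟩ := List.mem_map.1 (p4.subset (List.mem_map_of_mem hT))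
    obtain ⟨h1, h2⟩ := List.mem_filter.1 hv
    exact ⟨v, h1, by simpa [T] using h2, e⟩
  · obtain ⟨v, hv, e⟩ := List.mem_map.1 (p4.symm.subset (List.mem_map_of_mem hT))
    obtain ⟨h1, h2⟩ := List.mem_filter.1 hv
    exact ⟨v, h1, by simpa [T] using h2, e⟩

end Pool.Agent.MP_9d78a0_co.gm

end MrgPart7

-- marker of a merged file
example : 731051 + 21942 = 731051 + 21942 := rfl
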