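import Pool.Agent.MP_9d78a0_co.gm.BGrid
import Pool.Agent.MP_9d78a0_co.gm.RWordC
import Pool.Agent.MP_9d78a0_co.gm.HBag1
import Pool.Agent.MP_9d78a0_co.gm.HLev
import Pool.Agent.MP_9d78a0_co.gm.SpecJ

-- ======== part 0: formerly Pool.Agent.MP_9d78a0_co.gm.Walk
section MrgPart0

/-! Disjoint odd cycles on stems, or a potential off a small set. -/

set_option autoImplicit false

namespace Pool.Agent.MP_9d78a0_co.gm

open Set Function

namespace WalkK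

variable {V : Type} {G : SimpleGraph V} {β : V → V → ZMod 2} {D A S T : Set V} {u v x y : V}
  {c d : ZMod 2}

theorem par_succ (β : V → V → ZMod 2) (f : ℕ → V) {s l : ℕ} (h : s ≤ l) :
    par β f s (l + 1) = par β f s l + β (f l) (f (l + 1)) := Finset.sum_Ico_succ_top h _

theorem par_self (β : V → V → ZMod 2) (f : ℕ → V) (s : ℕ) : par β f s s = 0 := by simp [par]

theorem par_add (β : V → V → ZMod 2) (f : ℕ → V) {r s t : ℕ} (h : r ≤ s) (h' : s ≤ t) :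
    par β f r s + par β f s t = par β f r t := Finset.sum_Ico_consecutive _ h h'

theorem par_shift (β : V → V → ZMod 2) (f : ℕ → V) (j s l : ℕ) :
    par β (fun k => f (j + k)) s l = par β f (j + s) (j + l) := by
  rw [par, par, add_comm j s, add_comm j l, ← Finset.sum_Ico_add]
  rfl

theorem par_tel {f : ℕ → V} {ψ : ℕ → ZMod 2} {s l : ℕ} (h : s ≤ l)
    (hf : ∀ j, s ≤ j → j < l → β (f j) (f (j + 1)) = ψ j + ψ (j + 1)) :
    par β f s l = ψ s + ψ l := by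
  induction l, h using Nat.le_induction with
  | base => rw [par_self, CharTwo.add_self_eq_zero]
  | succ l h ih =>
    rw [par_succ _ _ h, ih fun j a b => hf j a (by omega), hf l h l.lt_succ_self, add_assoc,
      CharTwo.add_cancel_left]

theorem z01 : ∀ c : ZMod 2, c = 0 ∨ c = 1 := by decide

/-- the edges on which `β` is the coboundary of `φ` -/
def cs (G : SimpleGraph V) (β : V → V → ZMod 2) (φ : V → ZMod 2) : SimpleGraph V where
  Adj u v := G.Adj u v ∧ β u v = φ u + φ v ∧ β v u = φ v + φ u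
  symm := ⟨fun _ _ h => ⟨h.1.symm, h.2.symm⟩⟩
  loopless := ⟨fun _ h => h.1.ne rfl⟩

/-- a path of parity `c` in `S` -/
def PL (G : SimpleGraph V) (β : V → V → ZMod 2) (S : Set V) (u v : V) (c : ZMod 2) : Prop :=
  u ∈ S ∧ ∃ φ, Link (cs G β φ) S u v ∧ φ u + φ v = c

theorem PL.symm (h : PL G β S u v c) : PL G β S v u c := by
  obtain ⟨h0, φ, h1, h2⟩ := h
  exact ⟨h1.mem h0, φ, h1.symm, (add_comm _ _).trans h2⟩

theorem PL.mono (h : PL G β S u v c) (hT : S ⊆ T) : PL G β T u v c :=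
  ⟨hT h.1, h.2.imp fun _ k => ⟨k.1.mono hT, k.2⟩⟩

theorem PL.glue (h : PL G β S u x c) (h' : PL G β T x v d) (e : S ∩ T ⊆ {x}) :
    PL G β (S ∪ T) u v (c + d) := by
  classical
  obtain ⟨h0, φ, h1, rfl⟩ := h
  obtain ⟨h3, ψ, h4, rfl⟩ := h'
  set χ : V → ZMod 2 := fun z => if z ∈ S then φ z else ψ z + (φ x + ψ x) with hχ
  have a : ∀ z ∈ S, χ z = φ z := fun z hz => if_pos hz
  have b : ∀ z ∈ T, χ z = ψ z + (φ x + ψ x) := fun z hz => by
    by_cases k : z ∈ S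
    · rw [a z k, show z = x from e ⟨k, hz⟩, add_comm (φ x), CharTwo.add_cancel_left]
    · exact if_neg k
  have t : ∀ p q r : ZMod 2, p + r + (q + r) = p + q := by decide
  refine ⟨Or.inl h0, χ, Link.trans (h1.map id fun p hp q hq k => ?_) (h4.map id fun p hp q hq k => ?_),
    ?_⟩
  · exact Link.single (Or.inl hp) (Or.inl hq)
      ⟨k.1, by rw [id, id, a p hp, a q hq]; exact k.2⟩
  · exact Link.single (Or.inr hp) (Or.inr hq)
      ⟨k.1, by rw [id, id, b p hp, b q hq, t, t]; exact k.2⟩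
  · rw [a u h0, b v (h4.mem h3)]; ring

theorem pl_edge (hs : ∀ u v, β u v = β v u) (h : G.Adj x y) : PL G β {x, y} x y (β x y) := by
  classical
  refine ⟨Or.inl rfl, fun z => if z = y then β x y else 0,
    Link.single (Or.inl rfl) (Or.inr rfl) ⟨h, ?_⟩, ?_⟩ <;> simp [h.ne, hs y x]

theorem pl_seg (hs : ∀ u v, β u v = β v u) {f : ℕ → V} {l i j : ℕ} (h : fb.IsPath G D f l)
    (hij : i ≤ j) (hj : j ≤ l) : PL G β (f '' Icc i j) (f i) (f j) (par β f i j) := by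
  induction j, hij using Nat.le_induction with
  | base => exact ⟨⟨i, left_mem_Icc.2 le_rfl, rfl⟩, 0, Link.refl _ _ _, by simp [par_self]⟩
  | succ j hij ih =>
    rw [par_succ _ _ hij]
    refine ((ih (by omega)).glue (pl_edge hs (h.2.1 j hj)) ?_).mono (union_subset
      (image_mono (Icc_subset_Icc_right j.le_succ)) ?_)
    · rintro _ ⟨⟨k, hk, rfl⟩, e | e⟩
      · exact e
      · have := h.2.2 k (by have := hk.2; omega) _ hj e
        have := hk.2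
        omega
    · rintro _ (rfl | rfl)
      exacts [⟨j, ⟨hij, j.le_succ⟩, rfl⟩, ⟨j + 1, ⟨by omega, le_rfl⟩, rfl⟩]

theorem pl_link (hs : ∀ u v, β u v = β v u) (h : Link G S u v) (hu : u ∈ S) :
    ∃ c, PL G β S u v c := by
  obtain ⟨f, l, h1, rfl, rfl⟩ := fb.link_path h hu
  exact ⟨_, (pl_seg hs h1 l.zero_le le_rfl).mono (image_subset_iff.2 fun j hj => h1.1 j hj.2)⟩

theorem path_shift {f : ℕ → V} {l i n : ℕ} (h : fb.IsPath G S f l) (hi : i + n ≤ l) :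
    fb.IsPath G S (fun k => f (i + k)) n :=
  ⟨fun j _ => h.1 _ (by omega), fun j _ => h.2.1 (i + j) (by omega),
    fun j _ k _ e => by have := h.2.2 _ (by omega) _ (by omega) e; omega⟩

theorem PL.oddP (h : PL G β S u v 1) (hu : u ∈ A) (hv : v ∈ A) : ∃ f l, OddP G β S A f l := by
  classical
  obtain ⟨h0, φ, h1, h2⟩ := h
  obtain ⟨f, l, h3, rfl, rfl⟩ := fb.link_path h1 h0
  have ex : ∃ n i, i + n ≤ l ∧ f i ∈ A ∧ f (i + n) ∈ A ∧ φ (f i) + φ (f (i + n)) = 1 :=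
    ⟨l, 0, by simpa using ⟨hu, hv, h2⟩⟩
  obtain ⟨i, a1, a2, a3, a4⟩ := Nat.find_spec ex
  have mn := fun m => Nat.find_min ex (m := m)
  generalize Nat.find ex = n at *
  have h4 := path_shift h3 a1
  refine ⟨fun k => f (i + k), n, ⟨h4.1, fun j hj => (h4.2.1 j hj).1, h4.2.2⟩, a2, a3,
    fun j b1 b2 b3 => ?_, ?_⟩
  · have t : ∀ p q r : ZMod 2, p + q = 1 → p + r = 1 ∨ r + q = 1 := by decide
    rcases t _ _ (φ (f (i + j))) a4 with e | e
    · exact mn j b2 ⟨i, by omega, a2, b3, e⟩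
    · refine mn (n - j) (by omega) ⟨i + j, by omega, b3, ?_⟩
      rw [show i + j + (n - j) = i + n by omega]
      exact ⟨a3, e⟩
  · exact (par_tel (ψ := fun k => φ (f (i + k))) n.zero_le fun j _ hj => (h4.2.1 j hj).2.1).trans a4

/-- an odd cycle `f s, …, f l` at the end of a path -/
structure Cy (G : SimpleGraph V) (β : V → V → ZMod 2) (D : Set V) (f : ℕ → V) (s l : ℕ) :
    Prop where
  path : fb.IsPath G D f l
  le : s + 2 ≤ l
  close : G.Adj (f l) (f s)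
  odd : par β f s l + β (f l) (f s) = 1

variable {f : ℕ → V} {s l : ℕ}

theorem Cy.both (hs : ∀ u v, β u v = β v u) (h : Cy G β D f s l) (hx : x ∈ f '' Icc s l)
    (hy : y ∈ f '' Icc s l) (ne : x ≠ y) (c : ZMod 2) : PL G β (f '' Icc s l) x y c := by
  obtain ⟨i, ⟨i1, i2⟩, rfl⟩ := hx
  obtain ⟨j, ⟨j1, j2⟩, rfl⟩ := hy
  wlog hij : i < j generalizing i j
  · exact (this j j1 j2 i i1 i2 ne.symm
      (lt_of_le_of_ne (not_lt.1 hij) fun e => ne (e ▸ rfl))).symm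
  have inj := h.path.2.2
  by_cases e : c = par β f i j
  · exact e ▸ (pl_seg hs h.path hij.le j2).mono (image_mono (Icc_subset_Icc i1 j2))
  have a := ((pl_seg hs h.path j2 le_rfl).glue (pl_edge hs h.close) ?_).glue
    (pl_seg hs h.path i1 i2) ?_
  · have t : ∀ c p q r b : ZMod 2, c ≠ q → p + q + r + b = 1 → r + b + p = c := by decide
    rw [t c _ _ _ _ e (by rw [par_add _ _ i1 hij.le, par_add _ _ j1 j2, h.odd])] at a
    refine a.symm.mono (union_subset (union_subset (image_mono (Icc_subset_Icc_left j1)) ?_)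
      (image_mono (Icc_subset_Icc_right i2)))
    rintro _ (rfl | rfl)
    exacts [⟨l, ⟨by omega, le_rfl⟩, rfl⟩, ⟨s, ⟨le_rfl, by omega⟩, rfl⟩]
  · rintro _ ⟨⟨k, ⟨k1, k2⟩, rfl⟩, d | d⟩
    · exact d
    · have := inj k k2 s (by omega) d
      omega
  · rintro _ ⟨⟨k, ⟨k1, k2⟩, d⟩ | d | d, k', ⟨k3, k4⟩, rfl⟩
    · have := inj k k2 k' (by omega) d
      omega
    · have := inj k' (by omega) l le_rfl d
      omega
    · exact d

theorem Cy.sub (h : Cy G β D f s l) : f '' Icc s l ⊆ D :=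
  image_subset_iff.2 fun j hj => h.path.1 j hj.2

theorem Cy.two (hs : ∀ u v, β u v = β v u) (h : Cy G β D f s l) (hx : x ∈ f '' Icc s l)
    (hy : y ∈ f '' Icc s l) (hS : S ⊆ D) (hT : T ⊆ D) (dis : Disjoint S T)
    (hu : u ∈ A) (hv : v ∈ A) (su : u ∈ S) (tv : v ∈ T) (l1 : Link G S u x) (l2 : Link G T v y)
    (e1 : S ∩ f '' Icc s l ⊆ {x}) (e2 : T ∩ f '' Icc s l ⊆ {y}) : ∃ f l, OddP G β D A f l := by
  obtain ⟨c, h1⟩ := pl_link hs l1 su
  obtain ⟨d, h2⟩ := pl_link hs l2 tv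
  have ne : x ≠ y := fun e => disjoint_left.1 dis (l1.mem su) (e ▸ l2.mem tv)
  have a := (h1.glue (h.both hs hx hy ne (1 + c + d)) e1).glue h2.symm
    fun z ⟨k, k'⟩ => k.elim (fun k => absurd k' (disjoint_left.1 dis k)) fun k => e2 ⟨k', k⟩
  have t : ∀ c d : ZMod 2, c + (1 + c + d) + d = 1 := by decide
  rw [t] at a
  exact (a.mono (union_subset (union_subset hS h.sub) hT)).oddP hu hv

/-- the double cover -/
def cov (G : SimpleGraph V) (β : V → V → ZMod 2) : SimpleGraph (V × ZMod 2) where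
  Adj p q := G.Adj p.1 q.1 ∧ β p.1 q.1 = p.2 + q.2 ∧ β q.1 p.1 = q.2 + p.2
  symm := ⟨fun _ _ h => ⟨h.1.symm, h.2.symm⟩⟩
  loopless := ⟨fun _ h => h.1.ne rfl⟩

/-- a walk of parity `c` in `S` -/
def WL (G : SimpleGraph V) (β : V → V → ZMod 2) (S : Set V) (u v : V) (c : ZMod 2) : Prop :=
  ∀ d, Link (cov G β) (Prod.fst ⁻¹' S) (u, d) (v, d + c)

theorem PL.wl (h : PL G β S u v c) : WL G β S u v c := by
  obtain ⟨-, φ, h1, rfl⟩ := h
  intro d
  have t : ∀ p q r : ZMod 2, p + r + (q + r) = p + q := by decide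
  have a := Link.map (G := cs G β φ) (G' := cov G β) (T := Prod.fst ⁻¹' S)
    (fun z => (z, φ z + (φ u + d)))
    (fun p hp q hq k => Link.single hp hq ⟨k.1, by simp only [t]; exact k.2⟩) h1
  rwa [CharTwo.add_cancel_left, show φ v + (φ u + d) = d + (φ u + φ v) by ring] at a

theorem WL.trans (h : WL G β S u x c) (h' : WL G β S x v d) : WL G β S u v (c + d) :=
  fun e => (h e).trans (add_assoc e c d ▸ h' _)

theorem WL.symm (h : WL G β S u v c) : WL G β S v u c := fun e => by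
  have := (h (e + c)).symm
  rwa [CharTwo.add_cancel_right] at this

theorem WL.lol (hs : ∀ u v, β u v = β v u) (no : ∀ f l, ¬ OddP G β D A f l) (hS : S ⊆ D)
    (h : WL G β S u v 1) (hu : u ∈ A) (hv : v ∈ A) (su : u ∈ S) :
    ∃ f s l, Lol G β S A f s l := by
  classical
  obtain ⟨F, L, ⟨h1, h2, h3⟩, h4, h5⟩ := fb.link_path (h 0) su
  have tel : ∀ i j, i ≤ j → j ≤ L → par β (fun k => (F k).1) i j = (F i).2 + (F j).2 :=
    fun i j a b => par_tel (ψ := fun k => (F k).2) a fun k _ c => (h2 k (by omega)).2.1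
  have pa : ∀ n ≤ L, (∀ j ≤ n, ¬(j ≤ L ∧ ∃ i < j, (F i).1 = (F j).1)) →
      fb.IsPath G S (fun k => (F k).1) n := fun n a b =>
    ⟨fun j c => h1 j (by omega), fun j c => (h2 j (by omega)).1, fun i c j d e =>
      by_contra fun x => (lt_or_gt_of_ne x).elim (fun y => b j d ⟨by omega, i, y, e⟩)
        fun y => b i c ⟨by omega, j, y, e.symm⟩⟩
  have ex : ∃ j, j ≤ L ∧ ∃ i < j, (F i).1 = (F j).1 := by
    by_contra c
    have a := pa L le_rfl fun j _ d => c ⟨j, d⟩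
    have b := pl_seg hs a L.zero_le le_rfl
    simp only [tel 0 L L.zero_le le_rfl, h4, h5, zero_add] at b
    obtain ⟨f, l, k⟩ := (b.mono (image_subset_iff.2 fun j hj => hS (a.1 j hj.2))).oddP hu hv
    exact no f l k
  obtain ⟨a1, s, a2, a3⟩ := Nat.find_spec ex
  have mn := fun m => Nat.find_min ex (m := m)
  generalize Nat.find ex = n at *
  obtain ⟨l, rfl⟩ := Nat.exists_eq_add_one_of_ne_zero (by omega : n ≠ 0)
  have a4 := pa l (by omega) fun j c => mn j (by omega)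
  have a5 : par β (fun k => (F k).1) s l + β (F l).1 (F s).1 = 1 := by
    rw [a3, ← par_succ β (fun k => (F k).1) (by omega), tel _ _ a2.le a1]
    have t : ∀ p q : ZMod 2, p ≠ q → p + q = 1 := by decide
    exact t _ _ fun e => a2.ne (h3 s (by omega) _ a1 (Prod.ext a3 e))
  have a6 : G.Adj (F l).1 (F s).1 := a3 ▸ (h2 l a1).1
  have a7 : s + 2 ≤ l := by
    by_contra c
    rcases (by omega : s = l ∨ l = s + 1) with rfl | rfl
    · exact a6.ne rfl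
    · rw [par_succ _ _ le_rfl, par_self, zero_add, hs, CharTwo.add_self_eq_zero] at a5
      exact zero_ne_one a5
  have f0 : (fun k => (F k).1) 0 ∈ A := by simp only [h4]; exact hu
  have cy : Cy G β D (fun k => (F k).1) s l := ⟨⟨fun j c => hS (a4.1 j c), a4.2⟩, a7, a6, a5⟩
  generalize (fun k => (F k).1) = f at a4 f0 cy
  have b1 := Nat.findGreatest_spec (P := fun j => f j ∈ A) s.zero_le f0
  have b2 := Nat.findGreatest_le (P := fun j => f j ∈ A) s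
  have b3 := fun k => Nat.findGreatest_is_greatest (P := fun j => f j ∈ A) (n := s) (k := k)
  generalize Nat.findGreatest (fun j => f j ∈ A) s = j at b1 b2 b3
  obtain ⟨s, rfl⟩ := Nat.exists_eq_add_of_le b2
  obtain ⟨l, rfl⟩ := Nat.exists_eq_add_of_le (by omega : j ≤ l)
  refine ⟨fun k => f (j + k), s, l, path_shift a4 le_rfl, b1, fun k c1 c2 c3 => ?_, by omega,
    cy.close, by rw [par_shift]; exact cy.odd⟩
  rcases le_or_gt k s with c | c
  · exact b3 _ (by omega) (by omega) c3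
  have c4 := fb.conn_seg (G := G) (f := f) (j + s).zero_le fun i _ d => a4.2.1 i (by omega)
  obtain ⟨g, m, k⟩ := cy.two hs (S := f '' Icc 0 (j + s)) (T := {f (j + k)})
    ⟨j + s, ⟨le_rfl, by omega⟩, rfl⟩ ⟨j + k, ⟨by omega, by omega⟩, rfl⟩
    (image_subset_iff.2 fun i d => cy.path.1 i (by have := d.2; omega))
    (singleton_subset_iff.2 (cy.path.1 _ (by omega)))
    (disjoint_singleton_right.2 fun ⟨i, d, e⟩ => by
      have := d.2
      have := a4.2.2 i (by omega) _ (by omega) e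
      omega) f0 c3 ⟨0, ⟨le_rfl, b2.trans' j.zero_le⟩, rfl⟩ rfl
    (c4.2 _ ⟨0, ⟨le_rfl, Nat.zero_le _⟩, rfl⟩ _ ⟨_, ⟨Nat.zero_le _, le_rfl⟩, rfl⟩) (Link.refl _ _ _)
    (by
      rintro _ ⟨⟨i, ⟨-, d⟩, rfl⟩, i', ⟨d1, d2⟩, e⟩
      have := a4.2.2 i' d2 i (by omega) e
      exact congrArg f (by omega)) inter_subset_left
  exact no g m k

theorem Cy.conn (h : Cy G β D f s l) : Conn G (f '' Icc s l) :=
  fb.conn_seg (by have := h.le; omega) fun i _ d => h.path.2.1 i d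

/-- a stem inside a connected set -/
theorem stem {R W : Set V} (h : Conn G R) (hu : u ∈ R) (hW : (R ∩ W).Nonempty) :
    ∃ P w, P ⊆ R ∧ u ∈ P ∧ w ∈ W ∧ Link G P u w ∧ P ∩ W ⊆ {w} := by
  by_cases c : u ∈ W
  · exact ⟨{u}, u, singleton_subset_iff.2 hu, rfl, c, Link.refl _ _ _, inter_subset_left⟩
  obtain ⟨v, h1, h2⟩ := hW
  obtain ⟨x, y, -, a2, a3, a4, a5, a6⟩ := fb.link_exit (T := Wᶜ) (h.2 u hu v h1) c (not_not.2 h2)
  exact ⟨insert y (R ∩ Wᶜ), y, insert_subset a2 inter_subset_left, Or.inr ⟨hu, c⟩, not_not.1 a4,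
    (a6.mono (subset_insert _ _)).trans (Link.single (Or.inr (a6.mem ⟨hu, c⟩)) (Or.inl rfl) a5),
    fun z hz => hz.1.resolve_right fun d => d.2 hz.2⟩

end WalkK

open WalkK

theorem walkS : WalkS := by
  classical
  intro V G β D A N hD hs no
  set W : Set V := {v | ∃ f s l, Cy G β D f s l ∧ v ∈ f '' Icc s l} with hW
  by_cases c : ∀ X ⊆ D, X.ncard < N →
      ∃ S ⊆ D \ X, Conn G S ∧ (S ∩ A).Nonempty ∧ (S ∩ W).Nonempty
  · obtain ⟨R, h1, h2⟩ := fb.mengerS V G D A W N hD c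
    choose a a1 a2 using fun i => (h1 i).2.2.1
    choose P w p1 p2 p3 p4 p5 using fun i => stem (h1 i).2.1 (a1 i) (h1 i).2.2.2
    choose g s l c1 c2 using p3
    have cw : ∀ i, g i '' Icc (s i) (l i) ⊆ W := fun i v hv => ⟨_, _, _, c1 i, hv⟩
    have pd : ∀ i, P i ⊆ D := fun i => (p1 i).trans (h1 i).1
    have pc : ∀ i j, P i ∩ g j '' Icc (s j) (l j) ⊆ {w i} := fun i j =>
      (inter_subset_inter_right _ (cw j)).trans (p5 i)
    have d1 : ∀ i j, i ≠ j → Disjoint (P i) (P j) := fun i j e => (h2 e).mono (p1 i) (p1 j)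
    have d2 : ∀ i j, i ≠ j → Disjoint (P i) (g j '' Icc (s j) (l j)) := fun i j e =>
      disjoint_left.2 fun v k k' => by
        obtain rfl : v = w i := pc i j ⟨k, k'⟩
        obtain ⟨f, m, x⟩ := (c1 j).two hs k' (c2 j) (pd i) (pd j) (d1 i j e) (a2 i) (a2 j) (p2 i)
          (p2 j) (p4 i) (p4 j) (pc i j) (pc j j)
        exact no f m x
    have d3 : ∀ i j, i ≠ j → Disjoint (g i '' Icc (s i) (l i)) (g j '' Icc (s j) (l j)) :=
      fun i j e => disjoint_iff_inter_eq_empty.2 (not_nonempty_iff_eq_empty.1 fun k => by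
        obtain ⟨Q, y, q1, q2, q3, q4, q5⟩ := stem (c1 i).conn (c2 i) k
        obtain ⟨f, m, x⟩ := (c1 j).two hs q3 (c2 j) (union_subset (pd i) (q1.trans (c1 i).sub))
          (pd j) (disjoint_union_left.2 ⟨d1 i j e, ((d2 j i e.symm).mono_right q1).symm⟩) (a2 i)
          (a2 j) (Or.inl (p2 i)) (p2 j)
          (((p4 i).mono subset_union_left).trans (q4.mono subset_union_right)) (p4 j)
          (fun z hz => hz.1.elim (fun y => absurd hz.2 (disjoint_left.1 (d2 i j e) y))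
            fun y => q5 ⟨y, hz.2⟩) (pc j j)
        exact no f m x)
    have key : ∀ i, ∃ f s' l', Lol G β (P i ∪ g i '' Icc (s i) (l i)) A f s' l' := by
      intro i
      have le := (c1 i).le
      obtain ⟨y, y1, y2⟩ : ∃ y ∈ g i '' Icc (s i) (l i), w i ≠ y := by
        by_cases e : w i = g i (s i)
        · exact ⟨_, ⟨l i, ⟨by omega, le_rfl⟩, rfl⟩, e ▸ (c1 i).close.ne'⟩
        · exact ⟨_, ⟨s i, ⟨le_rfl, by omega⟩, rfl⟩, e⟩
      obtain ⟨d, k⟩ := pl_link hs (p4 i) (p2 i)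
      have k1 := (k.mono (subset_union_left (t := g i '' Icc (s i) (l i)))).wl
      have k2 := fun e => (((c1 i).both hs (c2 i) y1 y2 e).mono (subset_union_right (s := P i))).wl
      have k3 := ((k1.trans (k2 0)).trans (k2 1).symm).trans k1.symm
      have t : ∀ d : ZMod 2, d + 0 + 1 + d = 1 := by decide
      rw [t] at k3
      exact k3.lol hs no (union_subset (pd i) (c1 i).sub) (a2 i) (a2 i) (Or.inl (p2 i))
    choose f s' l' hf using key
    refine Or.inl ⟨f, s', l', fun i => ⟨⟨fun j hj => union_subset (pd i) (c1 i).sub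
      ((hf i).path.1 j hj), (hf i).path.2⟩, (hf i).first, (hf i).inner, (hf i).le, (hf i).close,
      (hf i).odd⟩, fun i j e => Disjoint.mono (image_subset_iff.2 (hf i).path.1)
        (image_subset_iff.2 (hf j).path.1) ?_⟩
    exact disjoint_union_left.2 ⟨disjoint_union_right.2 ⟨d1 i j e, d2 i j e⟩,
      disjoint_union_right.2 ⟨(d2 j i e.symm).symm, d3 i j e⟩⟩
  push Not at c
  obtain ⟨X, h1, h2, h3⟩ := c
  have nw : ∀ a ∈ A, a ∈ D \ X → ∀ b ∈ A, ¬WL G β (D \ X) a b 1 := by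
    intro a a1 a2 b b1 k
    obtain ⟨f, s, l, hf⟩ := k.lol hs no sdiff_subset a1 b1 a2
    have le := hf.le
    refine Set.Nonempty.ne_empty (s := f '' Icc 0 l ∩ W) ⟨f s, ⟨s, ⟨s.zero_le, by omega⟩, rfl⟩, f, s, l,
      ⟨⟨fun j hj => (hf.path.1 j hj).1, hf.path.2⟩, le, hf.close, hf.odd⟩, s,
      ⟨le_rfl, by omega⟩, rfl⟩ (h3 (f '' Icc 0 l) (image_subset_iff.2 fun j hj => hf.path.1 j hj.2)
      (fb.conn_seg l.zero_le fun i _ d => hf.path.2.1 i d)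
      ⟨f 0, ⟨0, ⟨le_rfl, l.zero_le⟩, rfl⟩, hf.first⟩)
  set φ : V → ZMod 2 := fun v => if ∃ a ∈ A, a ∈ D \ X ∧ WL G β (D \ X) a v 1 then 1 else 0
  have val : ∀ a ∈ A, a ∈ D \ X → ∀ v c, WL G β (D \ X) a v c → φ v = c := by
    intro a a1 a2 v c k
    rcases z01 c with rfl | rfl
    · exact if_neg fun ⟨b, b1, b2, k'⟩ => nw b b1 b2 a a1 (k'.trans k.symm)
    · exact if_pos ⟨a, a1, a2, k⟩
  refine Or.inr ⟨X, h1, h2, φ, fun a ha => if_neg fun ⟨b, b1, b2, k⟩ => nw b b1 b2 a ha k,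
    fun a a1 a2 u hu v hv e => ?_⟩
  obtain ⟨c, k⟩ := pl_link hs hu a2
  rw [val a a1 a2 u c k.wl, val a a1 a2 v _ (k.wl.trans ((pl_edge hs e).mono
    (insert_subset (hu.mem a2) (singleton_subset_iff.2 hv))).wl), CharTwo.add_cancel_left]

end Pool.Agent.MP_9d78a0_co.gm

end MrgPart0

-- ======== part 1: formerly Pool.Agent.MP_9d78a0_co.gm.HShA
section MrgPart1

/-! The axioms of the structure that the vortex construction gives. -/

set_option autoImplicit false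

namespace Pool.Agent.MP_9d78a0_co.gm

open Set Function

namespace HShA

variable {σ : AG}

theorem mem_vs {U : Set σ.ε} {v : W} : v ∈ σ.vs U ↔ ∃ a ∈ U, v ∈ σ.inc a := by
  simp only [AG.vs, mem_iUnion, exists_prop]

theorem sh_two {a a' : σ.ε} {v : W} (n : a' ≠ a) (k : v ∈ σ.inc a) (k' : v ∈ σ.inc a') :
    v ∈ σ.sh := mem_iUnion.2 ⟨a, ⟨a, rfl, k⟩, a', n, k'⟩

theorem sh_bd {a : σ.ε} {v : W} (h : v ∈ σ.sh) (k : v ∈ σ.inc a) : v ∈ σ.bd {a} := by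
  obtain ⟨b, ⟨_, rfl, k1⟩, c, n, k2⟩ := mem_iUnion.1 h
  by_cases e : c = a
  · exact ⟨⟨a, rfl, k⟩, _, fun q => n (e.trans q.symm), k1⟩
  · exact ⟨⟨a, rfl, k⟩, c, e, k2⟩

theorem bd_sh {U : Set σ.ε} {v : W} (h : v ∈ σ.bd U) : v ∈ σ.sh := by
  obtain ⟨⟨a, ha, k⟩, a', ha', k'⟩ := h
  exact sh_two (fun e : a' = a => ha' (e ▸ ha)) k k'

theorem inl_node {s : Sk} {v : MV} (h : v ∈ s.Nd) : Sum.inl (nodeOf v) = v := by
  obtain ⟨-, w, rfl⟩ := h
  rfl

variable {r : Rw σ} {k q D l : ℕ} {U0 : Set MV} {R m0 w0 : ℕ} {zd : MV → Zd r.s}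
  {zb : MV → Zb σ} {s' : Sk} {J : Set MV} {φ0 : MV → s'.Φ}

/-- the hypotheses, with disjoint zones -/
structure Hy (r : Rw σ) (k q D l : ℕ) (U0 : Set MV) (R m0 w0 : ℕ) (zd : MV → Zd r.s)
    (zb : MV → Zb σ) (s' : Sk) (J : Set MV) (φ0 : MV → s'.Φ) : Prop where
  v : r.Vc k q D l U0 R m0 w0 zd zb s' J φ0
  dj : ∀ x ∈ r.s.H ∩ r.s.Vt, ∀ x' ∈ r.s.H ∩ r.s.Vt, ∀ u ∈ (zd x).Z, u ∈ (zd x').Z → x = x'

/-- the new exceptional vertices -/
def Lm (r : Rw σ) (zd : MV → Zd r.s) : Set W := r.Λ ∪ ⋃ x ∈ r.s.H ∩ r.s.Vt, nodeOf '' (zd x).Γ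

theorem lm_loc {x : MV} (hx : x ∈ r.s.H ∩ r.s.Vt) {v : W} (h : v ∉ Lm r zd) :
    v ∉ r.Λ ∪ nodeOf '' (zd x).Γ := fun c => h (c.imp id fun c => mem_biUnion hx c)

variable (h : Hy r k q D l U0 R m0 w0 zd zb s' J φ0)
include h

theorem jh {x : MV} (hx : x ∈ J) : x ∈ r.s.H ∩ r.s.Vt ∧ 2 ≤ (zd x).N ∧ (zd x).ps 0 ∈ s'.Nd := by
  rwa [h.v.sg.sides] at hx

theorem deep {y : MV} (hy : y ∈ s'.Ce) : y ∈ r.s.Dp := by
  obtain ⟨c1, c2, -⟩ := h.v.sg.cell y hy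
  refine ⟨c1, fun v hv n => ?_⟩
  obtain ⟨f, hf, k, g⟩ := n
  have hx : r.s.vx f ∈ r.s.H ∩ r.s.Vt := ⟨k, f, hf, rfl⟩
  have z := (h.v.zone _ hx).1
  refine disjoint_left.1 z.deep ⟨z.low ⟨⟨(HBas.adj_nd h.v.co.ok0 (SimpleGraph.Adj.symm hv)).1,
    v, rfl⟩, f, hf, rfl, g⟩, y, c2 _ hx, hv⟩ ⟨f, hf, k, g⟩

theorem node {v : W} (hv : Sum.inl v ∈ s'.Vt) : Sum.inl v ∈ r.s.Vt ∧ v ∉ r.Λ ∧ v ∈ σ.sh ∧
    ∀ x ∈ r.s.H ∩ r.s.Vt, Sum.inl v ∈ (zd x).Z → Sum.inl v ∈ r.s.Ex (zd x).Z := by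
  obtain ⟨y, hy, a⟩ := h.v.sg.node _ ⟨hv, v, rfl⟩
  exact ⟨(HBas.adj_nd h.v.co.ok0 a.symm).1, HBas.off_lam h.v.co (deep h hy) a,
    bd_sh (h.v.tw y (deep h hy) a), fun x hx k => ⟨k, y, (h.v.sg.cell y hy).2.1 x hx, a⟩⟩

theorem zn_own {x : MV} (hx : x ∈ r.s.H ∩ r.s.Vt) {a : σ.ε} (ha : a ∈ r.Zn x (zd x).Z) :
    ∃ o, r.own a = some o ∧ (r.s.nb o).Nonempty ∧ ∀ v ∈ r.s.nb o, Sum.inl v ∈ (zd x).Z := by
  have h0 := h.v.co.ok0
  have ne : ∀ o ∈ r.s.Vt, o ∈ range Sum.inr → (r.s.nb o).Nonempty := by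
    rintro _ ⟨f, hf, rfl⟩ k
    have e := HBas.far_eq h0 hf (HBas.inr_nd k)
    exact ⟨_, e ▸ (h0.hm.simple f hf).1, f, hf, Or.inl ⟨rfl, e⟩⟩
  have nd : ∀ {o v}, v ∈ r.s.nb o → Sum.inl v ∈ r.s.Nd := fun k =>
    ⟨(HBas.adj_nd h0 (SimpleGraph.Adj.symm k)).1, _, rfl⟩
  rcases ha with e | ⟨y, hy, e⟩
  · exact ⟨x, e, ne x hx.2 (h0.hr.1 hx.1), fun v hv =>
      (h.v.zone x hx).1.low ⟨nd hv, HBas.nb_rad h0 hv⟩⟩
  · exact ⟨y, e, ne y hy.1.1.1 hy.1.1.2, fun v hv =>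
      by_contra fun n => hy.2 ⟨hy.1, _, ⟨nd hv, n⟩, hv⟩⟩

theorem zn_in {x : MV} (hx : x ∈ r.s.H ∩ r.s.Vt) {a : σ.ε} (ha : a ∈ r.Zn x (zd x).Z) {v : W}
    (k : v ∈ σ.inc a) (s : v ∈ σ.sh) (n : v ∉ r.Λ)
    (c : Sum.inl v ∈ r.s.Vt ∨ ∃ a', r.own a' ≠ r.own a ∧ v ∈ σ.inc a') :
    Sum.inl v ∈ (zd x).Z := by
  obtain ⟨o, e, -, m⟩ := zn_own h hx ha
  obtain ⟨o', e', m'⟩ := h.v.co.share a v ⟨⟨k, s⟩, n⟩ c
  cases e.symm.trans e'
  exact m v m'

theorem zn_eq {x x' : MV} (hx : x ∈ r.s.H ∩ r.s.Vt) (hx' : x' ∈ r.s.H ∩ r.s.Vt) {a a' : σ.ε}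
    (ha : a ∈ r.Zn x (zd x).Z) (ha' : a' ∈ r.Zn x' (zd x').Z) (e : r.own a' = r.own a) :
    x = x' := by
  obtain ⟨o, e1, ⟨v, hv⟩, m⟩ := zn_own h hx ha
  obtain ⟨o', e2, -, m'⟩ := zn_own h hx' ha'
  cases e1.symm.trans (e.symm.trans e2)
  exact h.dj x hx x' hx' _ (m v hv) (m' v hv)

theorem zn_meet {x x' : MV} (hx : x ∈ r.s.H ∩ r.s.Vt) (hx' : x' ∈ r.s.H ∩ r.s.Vt) {a a' : σ.ε}
    (ha : a ∈ r.Zn x (zd x).Z) (ha' : a' ∈ r.Zn x' (zd x').Z) {v : W} (k : v ∈ σ.inc a)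
    (k' : v ∈ σ.inc a') (n : v ∉ r.Λ) : x = x' := by
  by_cases e : r.own a' = r.own a
  · exact zn_eq h hx hx' ha ha' e
  · have s := sh_two (fun q => e (congrArg _ q)) k k'
    exact h.dj x hx x' hx' _ (zn_in h hx ha k s n (Or.inr ⟨a', e, k'⟩))
      (zn_in h hx' ha' k' s n (Or.inr ⟨a, Ne.symm e, k⟩))

theorem zn_cell {x : MV} (hx : x ∈ r.s.H ∩ r.s.Vt) {a : σ.ε} (ha : a ∈ r.Zn x (zd x).Z) :
    ¬ ∃ y ∈ s'.Ce, r.own a = some y := by
  rintro ⟨y, hy, e⟩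
  obtain ⟨c1, c2, -⟩ := h.v.sg.cell y hy
  rcases ha with e' | ⟨y', hy', e'⟩ <;> cases e.symm.trans e'
  · exact c1.2 (Or.inl hx.1)
  · exact hy'.2 (c2 x hx)

theorem ps_mem {x : MV} (hx : x ∈ r.s.H ∩ r.s.Vt) {i : ℕ} (hi : i < (zd x).N) :
    (zd x).ps i ∈ r.s.Ex (zd x).Z \ (zd x).Γ ∧ Sum.inl ((zd x).u i) = (zd x).ps i := by
  have z := (h.v.zone x hx).1
  have m : (zd x).ps i ∈ r.s.Ex (zd x).Z \ (zd x).Γ := z.ex ▸ ⟨i, hi, rfl⟩
  exact ⟨m, inl_node (z.sub m.1.1).1⟩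

theorem gam_in {x : MV} (hx : x ∈ r.s.H ∩ r.s.Vt) {v : W} (hv : v ∈ nodeOf '' (zd x).Γ) :
    Sum.inl v ∈ (zd x).Γ ∧ Sum.inl v ∈ (zd x).Z ∧ Sum.inl v ∈ r.s.Vt ∧ v ∈ σ.sh := by
  have z := h.v.zone x hx
  have s := z.2.1.groot hv
  obtain ⟨g, hg, rfl⟩ := hv
  have n := (z.1.sub (z.1.gam hg)).1
  rw [inl_node n]
  exact ⟨hg, z.1.gam hg, n.1, s⟩

theorem u_node {x : MV} (hx : x ∈ J) {i : ℕ} (hi : i < (zd x).N) :
    Sum.inl ((zd x).u i) ∈ s'.Vt := by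
  have j := jh h hx
  rw [(ps_mem h j.1 hi).2]
  exact (h.v.sg.all x j.1 0 (by omega) i hi j.2.2).1

theorem u_lam {x : MV} (hx : x ∈ J) {i : ℕ} (hi : i < (zd x).N) : (zd x).u i ∉ Lm r zd := by
  have j := jh h hx
  rintro (c | c)
  · exact (node h (u_node h hx hi)).2.1 c
  · obtain ⟨x', hx', c⟩ := mem_iUnion₂.1 c
    have g := gam_in h hx' c
    have p := ps_mem h j.1 hi
    rw [p.2] at g
    cases h.dj x j.1 x' hx' _ p.1.1.1 g.2.1
    exact p.1.2 g.1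

theorem u_inj {x : MV} (hx : x ∈ r.s.H ∩ r.s.Vt) {i i' : ℕ} (hi : i < (zd x).N)
    (hi' : i' < (zd x).N) (e : (zd x).u i = (zd x).u i') : i = i' := by
  have z := (h.v.zone x hx).1
  have e' : (zd x).ps i = (zd x).ps i' := by rw [← (ps_mem h hx hi).2, e, (ps_mem h hx hi').2]
  have := z.pw.inj _ (by have := z.ix.2 i hi; omega) _ (by have := z.ix.2 i' hi'; omega) e'
  rcases lt_trichotomy i i' with c | c | c
  · have := z.ix.1 _ _ c hi'; omega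
  · exact c
  · have := z.ix.1 _ _ c hi; omega

theorem zn_pos {x : MV} (hx : x ∈ r.s.H ∩ r.s.Vt) {v : W} (k : Sum.inl v ∈ r.s.Ex (zd x).Z)
    (n : v ∉ Lm r zd) : ∃ i < (zd x).N, v = (zd x).u i ∧ Sum.inl v = (zd x).ps i := by
  have m : Sum.inl v ∈ r.s.Ex (zd x).Z \ (zd x).Γ :=
    ⟨k, fun c => lm_loc hx n (Or.inr ⟨_, c, rfl⟩)⟩
  rw [(h.v.zone x hx).1.ex] at m
  obtain ⟨i, hi, e⟩ := m
  exact ⟨i, hi, by rw [Zd.u, ← e]; rfl, e⟩

theorem lane {x : MV} (hx : x ∈ r.s.H ∩ r.s.Vt) {X : Set σ.ε} (hX : X ⊆ r.Zn x (zd x).Z)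
    {P : Set W} {v w : W} (k : σ.Lane X (r.Λ ∪ nodeOf '' (zd x).Γ) P v w) (n : v ∉ Lm r zd) :
    σ.Lane X (Lm r zd) P v w := by
  refine ⟨k.1, k.2.1, k.2.2.1, fun p hp => ⟨(k.2.2.2 hp).1, ?_⟩⟩
  obtain ⟨c | c, m⟩ := k.2.2.2 hp
  · rintro (e | e)
    · exact m (Or.inl e)
    · obtain ⟨x', hx', e⟩ := mem_iUnion₂.1 e
      obtain ⟨a, ha, c⟩ := mem_vs.1 c
      have g := gam_in h hx' e
      cases h.dj x hx x' hx' _ (zn_in h hx (hX ha) c g.2.2.2 (fun q => m (Or.inl q))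
        (Or.inl g.2.2.1)) g.2.1
      exact m (Or.inr e)
  · exact c ▸ n

variable (hJ : J.Finite)

omit h in
theorem own_cell {a : σ.ε} {y : MV} : (r.mkSh zd zb s' J hJ φ0).own a = some (Sum.inl y) ↔
    y ∈ s'.Ce ∧ r.own a = some y := by
  simp only [Rw.mkSh]
  split_ifs with c1 c2
  · constructor
    · intro e
      cases e
      exact c1.choose_spec
    · intro e
      rw [Option.some.inj (c1.choose_spec.2.symm.trans e.2)]
  · exact iff_of_false (fun e => by cases e) fun e => c1 ⟨y, e⟩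
  · exact iff_of_false (fun e => by cases e) fun e => c1 ⟨y, e⟩

theorem own_bag {a : σ.ε} {j : J} {i : ℕ} :
    (r.mkSh zd zb s' J hJ φ0).own a = some (Sum.inr (j, i)) ↔
      a ∈ r.Zn j (zd j).Z ∧ (zb j).lev a = i + 1 ∧ i + 1 < (zd j).N := by
  simp only [Rw.mkSh]
  split_ifs with c1 c2
  · exact iff_of_false (fun e => by cases e) fun e => zn_cell h (jh h j.2).1 e.1 c1
  · have sp := c2.choose_spec
    constructor
    · intro e
      cases e
      exact ⟨sp.1, by omega, by omega⟩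
    · intro e
      have q : c2.choose = j :=
        Subtype.ext (zn_eq h (jh h c2.choose.2).1 (jh h j.2).1 sp.1 e.1 rfl)
      rw [q, e.2.1]
      rfl
  · exact iff_of_false (fun e => by cases e) fun e => c2 ⟨j, e.1, by omega, by omega⟩

theorem phi (j : J) (i : ℕ) : (r.mkSh zd zb s' J hJ φ0).φ j i ∈ s'.M.S ∧
    s'.vx ((r.mkSh zd zb s' J hJ φ0).φ j i) = j := by
  have hM := h.v.sg.ok.hm
  have p := h.v.sg.side j j.2
  have k := (rotS _ _ hM.ok _ p.1).1 i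
  exact ⟨hM.ok.vo_mem p.1 k, (hM.lbl.of_vo hM.ok p.1 k).trans p.2.1⟩

theorem u_eq (j : J) {i : ℕ} (hi : i < (zd j).N) :
    (r.mkSh zd zb s' J hJ φ0).u j i = (zd j).u i := (h.v.sg.side j j.2).2.2.1 i hi

theorem kap_eq (j : J) {i : ℕ} (hi : i < (zd j).N) :
    (r.mkSh zd zb s' J hJ φ0).κ j i = (zd j).κ (zb j) i := by
  rw [Sh.κ, u_eq h hJ j hi]
  rfl

theorem spoke {x : MV} (hx : x ∈ r.s.H ∩ r.s.Vt) {v : W} (hv : Sum.inl v ∈ s'.Vt)
    (hz : Sum.inl v ∈ (zd x).Z) (n : x ∈ J → ∀ i < (zd x).N, v ≠ (zd x).u i) :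
    v ∈ s'.far '' (r.mkSh zd zb s' J hJ φ0).Fx := by
  have ok := h.v.sg.ok
  have m : (Sum.inl v : MV) ∈ Sum.inl '' s'.nb x := by
    rw [h.v.sg.spoke x hx]
    exact ⟨⟨hv, v, rfl⟩, hz⟩
  obtain ⟨_, m, e⟩ := m
  cases e
  obtain ⟨f, hf, e1, -, e2⟩ := Sk.exists_far ok m
  have key : ∀ (j : J) i, i ≤ (zd j).N - 1 → s'.vx f = j →
      s'.far f ≠ (r.mkSh zd zb s' J hJ φ0).u j i := by
    intro j i hi e q
    have := (jh h j.2).2.1
    obtain ⟨j, hj⟩ := j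
    cases e1.symm.trans e
    exact n hj i (by omega) (e2.symm.trans (q.trans (u_eq h hJ ⟨_, hj⟩ (by omega))))
  refine ⟨f, ⟨⟨hf, ?_⟩, fun j i hi => ⟨fun q => ?_, fun q => ?_⟩⟩, e2⟩
  · change s'.vx f ∈ s'.H
    rw [e1, h.v.sg.hole.1]
    exact hx.1
  · exact key j i hi (q ▸ (phi h hJ j i).2) (congrArg s'.far q)
  · have p := phi h hJ j i
    exact key j i hi ((congrArg s'.vx q).trans ((ok.hm.lbl.c ok.hm.ok p.1).trans p.2))
      ((congrArg s'.far q).trans (JTame.far_c ok p.1))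

theorem share (a : σ.ε) (v : W) (hv : v ∈ σ.inc a \ Lm r zd)
    (hy : Sum.inl v ∈ s'.Vt ∨
      (∃ j, ∃ i ≤ (r.mkSh zd zb s' J hJ φ0).m j, v ∈ (r.mkSh zd zb s' J hJ φ0).κ j i) ∨
      ∃ a', (r.mkSh zd zb s' J hJ φ0).own a' ≠ (r.mkSh zd zb s' J hJ φ0).own a ∧
        (r.mkSh zd zb s' J hJ φ0).own a' ≠ none ∧ v ∈ σ.inc a') :
    (∀ x, (r.mkSh zd zb s' J hJ φ0).own a = some (Sum.inl x) → v ∈ s'.nb x) ∧
    (∀ j i, (r.mkSh zd zb s' J hJ φ0).own a = some (Sum.inr (j, i)) →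
      v ∈ (r.mkSh zd zb s' J hJ φ0).κ j i ∪ (r.mkSh zd zb s' J hJ φ0).κ j (i + 1)) ∧
    ((r.mkSh zd zb s' J hJ φ0).own a = none → v ∈ (r.mkSh zd zb s' J hJ φ0).Mk) := by
  obtain ⟨ka, nl⟩ := hv
  have n0 : v ∉ r.Λ := fun c => nl (Or.inl c)
  have H : v ∈ σ.sh ∧ (Sum.inl v ∈ s'.Vt ∨ ∃ j : J, ∃ a' ∈ r.Zn j (zd j).Z, v ∈ σ.inc a' ∧
      ((∃ i < (zd j).N, v ∈ (zd j).κ (zb j) i) ∨ ((a ∈ r.Zn j (zd j).Z →
        (zb j).lev a' ≠ (zb j).lev a) ∧ (zb j).lev a' < (zd j).N))) := by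
    rcases hy with c | ⟨j : J, i, hi, c⟩ | ⟨a', n1, n2, c⟩
    · exact ⟨(node h c).2.2.1, Or.inl c⟩
    · have j1 := jh h j.2
      have hi' : i < (zd j).N := by change i ≤ (zd j).N - 1 at hi; omega
      rw [kap_eq h hJ j hi'] at c
      have z := (h.v.zone j j1.1).2.1
      refine ⟨z.two i hi' c, ?_⟩
      rcases c with c | ⟨l, hl, c⟩
      · exact Or.inl (c ▸ u_node h j.2 hi')
      · obtain ⟨-, a', ha', m⟩ := (z.inner i hi' l hl).2 (c ▸ lm_loc j1.1 nl)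
        exact Or.inr ⟨j, a', ha', c ▸ m, Or.inl ⟨i, hi', Or.inr ⟨l, hl, c⟩⟩⟩
    · have s := sh_two (fun q => n1 (congrArg _ q)) ka c
      refine ⟨s, ?_⟩
      obtain ⟨y | ⟨j, i⟩, e⟩ := Option.ne_none_iff_exists'.1 n2
      · have e' := (own_cell hJ).1 e
        obtain ⟨y', e1, m⟩ := h.v.co.share a' v ⟨⟨c, s⟩, n0⟩ (Or.inr ⟨a, fun q =>
          n1 (e.trans ((own_cell hJ).2 ⟨e'.1, q.trans e'.2⟩).symm), ka⟩)
        cases e'.2.symm.trans e1
        rw [← (h.v.sg.cell _ e'.1).2.2.1] at m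
        exact Or.inl (HBas.adj_nd (HBas.ok0 h.v.sg.ok) (SimpleGraph.Adj.symm m)).1
      · have e' := (own_bag h hJ).1 e
        exact Or.inr ⟨j, a', e'.1, c, Or.inr ⟨fun p q =>
          n1 (e.trans ((own_bag h hJ).2 ⟨p, q ▸ e'.2.1, e'.2.2⟩).symm), by omega⟩⟩
  obtain ⟨s, H⟩ := H
  have cellc : ∀ y, r.own a = some y → (∀ x ∈ r.s.H ∩ r.s.Vt, a ∉ r.Zn x (zd x).Z) →
      v ∈ r.s.nb y := by
    intro y e nz
    obtain ⟨y', e1, m⟩ := h.v.co.share a v ⟨⟨ka, s⟩, n0⟩ (H.imp (fun c => (node h c).1)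
      fun ⟨j, a', ha', c, _⟩ => ⟨a', fun q => nz j (jh h j.2).1 (by
        unfold Rw.Zn at ha' ⊢; rw [mem_ofPred_eq, ← q]; exact ha'), c⟩)
    cases e.symm.trans e1
    exact m
  have zone : ∀ j : J, a ∈ r.Zn j (zd j).Z →
      (0 < (zb j).lev a ∧ v ∈ (zd j).κ (zb j) ((zb j).lev a - 1)) ∨
        ((zb j).lev a < (zd j).N ∧ v ∈ (zd j).κ (zb j) ((zb j).lev a)) := by
    intro j ha
    have j1 := (jh h j.2).1
    have z := (h.v.zone j j1).2.1
    have nl' := lm_loc j1 nl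
    have s1 : ∀ i < (zd j).N, v ∈ (zd j).κ (zb j) i →
        (0 < (zb j).lev a ∧ v ∈ (zd j).κ (zb j) ((zb j).lev a - 1)) ∨
          ((zb j).lev a < (zd j).N ∧ v ∈ (zd j).κ (zb j) ((zb j).lev a)) := fun i hi m =>
      (lt_or_ge i ((zb j).lev a)).imp
        (fun c => ⟨by omega, (z.sh1 a ha v ⟨ka, nl'⟩ i hi m).1 c⟩)
        fun c => ⟨by omega, (z.sh1 a ha v ⟨ka, nl'⟩ i hi m).2 c⟩
    rcases H with c | ⟨j', a', ha', c, m⟩
    · have nd := node h c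
      obtain ⟨i, hi, e, -⟩ := zn_pos h j1 (nd.2.2.2 j j1 (zn_in h j1 ha ka s n0 (Or.inl nd.1))) nl
      exact s1 i hi (Or.inl e)
    · obtain rfl : j = j' := Subtype.ext (zn_meet h j1 (jh h j'.2).1 ha ha' ka c n0)
      rcases m with ⟨i, hi, m⟩ | ⟨m1, m2⟩
      · exact s1 i hi m
      · rcases lt_or_gt_of_ne (m1 ha) with d | d
        · exact s1 _ m2 (z.sh2 a' ha' a ha v ⟨⟨c, ka⟩, nl'⟩ d)
        · exact Or.inr ⟨by omega, z.sh2 a ha a' ha' v ⟨⟨ka, c⟩, nl'⟩ d⟩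
  refine ⟨fun x e => ?_, fun j i e => ?_, fun e => ?_⟩
  · have e' := (own_cell hJ).1 e
    rw [(h.v.sg.cell _ e'.1).2.2.1]
    exact cellc x e'.2 fun x' hx' c => zn_cell h hx' c ⟨x, e'⟩
  · have e' := (own_bag h hJ).1 e
    rw [kap_eq h hJ j (by omega), kap_eq h hJ j e'.2.2]
    have := zone j e'.1
    rw [e'.2.1] at this
    exact this.imp (·.2) (·.2)
  · by_cases c : ∃ x ∈ r.s.H ∩ r.s.Vt, a ∈ r.Zn x (zd x).Z
    · obtain ⟨x, hx, ha⟩ := c
      by_cases hj : x ∈ J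
      · have j1 := (jh h hj).2.1
        have le := (h.v.zone x hx).2.1.le a
        have nb : ¬ (0 < (zb x).lev a ∧ (zb x).lev a < (zd x).N) := fun p => by
          have := (own_bag h hJ (j := ⟨x, hj⟩) (i := (zb x).lev a - 1)).2
            ⟨ha, by dsimp only; omega, by dsimp only; omega⟩
          cases e.symm.trans this
        refine Or.inl (mem_iUnion.2 ⟨⟨x, hj⟩, ?_⟩)
        rw [kap_eq h hJ ⟨x, hj⟩ (i := 0) (by dsimp only; omega),
          kap_eq h hJ ⟨x, hj⟩ (by change (zd x).N - 1 < (zd x).N; omega)]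
        rcases zone ⟨x, hj⟩ ha with p | p
        · have q : (zb x).lev a = (zd x).N := by have := p.1; dsimp only at this; omega
          exact Or.inr (by have := p.2; dsimp only at this; rw [q] at this; exact this)
        · have q : (zb x).lev a = 0 := by have := p.1; dsimp only at this; omega
          exact Or.inl (by have := p.2; dsimp only at this; rw [q] at this; exact this)
      · rcases H with p | ⟨j, a', ha', p, -⟩
        · exact Or.inr (spoke h hJ hx p (zn_in h hx ha ka s n0 (Or.inl (node h p).1))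
            fun q => absurd q hj)
        · exact absurd (zn_meet h hx (jh h j.2).1 ha ha' ka p n0 ▸ j.2) hj
    · have nz : ∀ x ∈ r.s.H ∩ r.s.Vt, a ∉ r.Zn x (zd x).Z := fun x hx p => c ⟨x, hx, p⟩
      obtain ⟨y, e1, m⟩ := h.v.co.share a v ⟨⟨ka, s⟩, n0⟩ (H.imp (fun c => (node h c).1)
        fun ⟨j, a', ha', c, _⟩ => ⟨a', fun q => nz j (jh h j.2).1 (by
          unfold Rw.Zn at ha' ⊢; rw [mem_ofPred_eq, ← q]; exact ha'), c⟩)
      have yc : y ∈ r.s.Ce := (h.v.co.owner a y e1).resolve_right fun p => nz y p (Or.inl e1)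
      have yk : ∀ x ∈ r.s.H ∩ r.s.Vt, y ∈ r.s.Kx (zd x).Z := fun x hx =>
        by_contra fun p => nz x hx (Or.inr ⟨y, ⟨yc, p⟩, e1⟩)
      have vn : Sum.inl v ∈ s'.Nd := by
        rcases H with p | ⟨j, a', ha', p, -⟩
        · exact ⟨p, v, rfl⟩
        · have j1 := jh h j.2
          obtain ⟨i, hi, -, q⟩ := zn_pos h j1.1 ⟨zn_in h j1.1 ha' p s n0 (Or.inl
            (HBas.adj_nd h.v.co.ok0 (SimpleGraph.Adj.symm m)).1), y, yk j j1.1, m⟩ nl
          exact q ▸ h.v.sg.all j j1.1 0 (by omega) i hi j1.2.2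
      cases e.symm.trans ((own_cell hJ).2 ⟨h.v.sg.clo _ vn y yc yk m, e1⟩)

theorem ok : (r.mkSh zd zb s' J hJ φ0).Ok := by
  have sg := h.v.sg
  have co := h.v.co
  have hM := sg.ok.hm
  have lt : ∀ (j : J) {i}, i ≤ (r.mkSh zd zb s' J hJ φ0).m j → i < (zd j).N := fun j i hi => by
    have := (jh h j.2).2.1
    change i ≤ (zd j).N - 1 at hi
    omega
  have lt1 : ∀ (j : J) {i}, i < (r.mkSh zd zb s' J hJ φ0).m j → i + 1 < (zd j).N :=
    fun j i hi => lt j hi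
  have zr : ∀ j : J, r.Zr j (zd j) (zb j) := fun j => (h.v.zone j (jh h j.2).1).2.1
  have fl : ∀ (j : J) i, (r.mkSh zd zb s' J hJ φ0).φ j i ∈ s'.M.fl s'.vx s'.H := fun j i =>
    ⟨(phi h hJ j i).1, by rw [(phi h hJ j i).2, sg.hole.1]; exact (jh h j.2).1.1⟩
  have lk : ∀ (j : J) {i}, i < (r.mkSh zd zb s' J hJ φ0).m j →
      (r.mkSh zd zb s' J hJ φ0).lk j i = (zd j).lk i := fun j i hi =>
    ((sg.side j j.2).2.2.2 i (lt1 j hi)).2.1
  have bg : ∀ (j : J) {i}, i < (r.mkSh zd zb s' J hJ φ0).m j →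
      (r.mkSh zd zb s' J hJ φ0).bag j i = {a | a ∈ r.Zn j (zd j).Z ∧ (zb j).lev a = i + 1} :=
    fun j i hi => Set.ext fun a => (own_bag h hJ).trans
      ⟨fun e => ⟨e.1, e.2.1⟩, fun e => ⟨e.1, e.2, lt1 j hi⟩⟩
  have ct : ∀ y ∈ s'.Ce, (r.mkSh zd zb s' J hJ φ0).ct y = r.ct y := fun y hy =>
    Set.ext fun a => (own_cell hJ).trans ⟨fun e => e.2, fun e => ⟨hy, e⟩⟩
  have ul : ∀ (j : J) {i}, i ≤ (r.mkSh zd zb s' J hJ φ0).m j →
      (r.mkSh zd zb s' J hJ φ0).u j i ∉ Lm r zd := fun j i hi =>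
    u_eq h hJ j (lt j hi) ▸ u_lam h j.2 (lt j hi)
  refine
    { ok := sg.ok, spoke := sg.spk, lam := ⟨?_, ?_⟩, lamn := ?_, root := ?_, len := ?_,
      hole := fun j => fl j 0, sep := ?_, quad := ?_, lkinj := ?_, rim := ?_,
      ulam := fun j i hi => ul j hi, ownc := fun a x e => ((own_cell hJ).1 e).1, ownb := ?_,
      inner := ?_, priv := ?_, conv := ?_, share := share h hJ, two := ?_, solid := ?_,
      lane := ?_, path := ?_, ldis := fun j i hi => (zr j).ldis i (lt1 j hi),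
      lent := fun j i hi => (zr j).lent i (lt1 j hi) }
  · rintro v (c | c)
    · exact co.lam.1 c
    · obtain ⟨x, hx, c⟩ := mem_iUnion₂.1 c
      exact co.ok0.od v (gam_in h hx c).2.2.1
  · refine co.lam.2.1.union (((co.ok0.hm.ok.fin.image r.s.vx).image nodeOf).subset fun v c => ?_)
    obtain ⟨x, hx, c⟩ := mem_iUnion₂.1 c
    exact ⟨_, (gam_in h hx c).2.2.1, rfl⟩
  · rintro v (c | c) hv
    · exact absurd c (node h hv).2.1
    · obtain ⟨x, hx, c⟩ := mem_iUnion₂.1 c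
      refine spoke h hJ hx hv (gam_in h hx c).2.1 fun hj i hi e => u_lam h hj hi ?_
      exact e ▸ Or.inr (mem_biUnion hx c)
  · rintro a v ⟨c | c, k⟩
    · exact sh_bd (co.root a ⟨c, k⟩) k
    · obtain ⟨x, hx, c⟩ := mem_iUnion₂.1 c
      exact sh_bd (gam_in h hx c).2.2.2 k
  · intro (j : J)
    have := (jh h j.2).2.1
    change 0 < (zd j).N - 1
    omega
  · intro (j : J) (j' : J) i hi i' hi'
    have p := phi h hJ j i
    have p' := phi h hJ j' i'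
    refine ⟨fun e => ?_, fun e => ?_⟩
    · obtain rfl : j' = j := Subtype.ext (p'.2.symm.trans
        ((congrArg s'.vx e).trans ((hM.lbl.c hM.ok p.1).trans p.2)))
      exact (rotS _ _ hM.ok _ (sg.side j' j'.2).1).2.2.2.1 i' i e
    · obtain rfl : j' = j := Subtype.ext (p'.2.symm.trans ((congrArg s'.vx e).trans p.2))
      refine ⟨rfl, u_inj h (jh h j'.2).1 (lt j' hi) (lt j' hi') ?_⟩
      rw [← u_eq h hJ j' (lt j' hi), ← u_eq h hJ j' (lt j' hi')]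
      exact (congrArg s'.far e).symm
  · intro (j : J) i hi
    have p := (sg.side j j.2).2.2.2 i (lt1 j hi)
    exact ⟨p.1, lk j hi ▸ p.2.2.symm.imp (·.1) id⟩
  · intro (j : J) (j' : J) i hi i' hi' e
    have j1 := jh h j.2
    have j2 := jh h j'.2
    by_cases c : j = j'
    · subst c
      have z := (h.v.zone j j1.1).1
      rw [lk j hi, lk j hi'] at e
      have := z.pw.inj _ (by have := z.ix.2 i (lt j hi.le); omega) _
        (by have := z.ix.2 i' (lt j hi'.le); omega) e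
      refine ⟨rfl, ?_⟩
      rcases lt_trichotomy i i' with c | c | c
      · have := z.ix.1 _ _ c (lt j hi'.le); omega
      · exact c
      · have := z.ix.1 _ _ c (lt j hi.le); omega
    · have nb : ∀ (j : J) {i}, i < (r.mkSh zd zb s' J hJ φ0).m j →
          (zd j).u i ∈ s'.nb ((r.mkSh zd zb s' J hJ φ0).lk j i) ∧
          (zd j).u (i + 1) ∈ s'.nb ((r.mkSh zd zb s' J hJ φ0).lk j i) := fun j i hi => by
        have := JTame.link_nb sg.ok (fl j i) ((sg.side j j.2).2.2.2 i (lt1 j hi)).1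
        rw [← u_eq h hJ j (lt j hi.le), ← u_eq h hJ j (lt1 j hi)]
        refine ⟨this.1, ?_⟩
        have e : (r.mkSh zd zb s' J hJ φ0).φ j (i + 1) =
            s'.M.rot ((r.mkSh zd zb s' J hJ φ0).φ j i) := iterate_succ_apply' _ _ _
        rw [Sh.u, e]
        exact this.2.1
      have a1 := nb j hi
      have a2 := nb j' hi'
      rw [← e] at a2
      have h0 := HBas.ok0 sg.ok
      have aj := HBas.adj_nd h0 a1.1
      have p := (sg.side j j.2).2.2.2 i (lt1 j hi)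
      rw [← lk j hi] at p
      have cd := HBas.nb_card h0 (y := (r.mkSh zd zb s' J hJ φ0).lk j i) ⟨⟨aj.1, fun c =>
        p.2.2.elim (fun d => d.2 (Or.inl c)) fun d => disjoint_left.1 h0.hr.2.2 c d.1⟩,
        fun c => aj.2.1 c ⟨(HBas.adj_nd h0 (SimpleGraph.Adj.symm a1.1)).1, _, rfl⟩⟩
      have d : ∀ a < (zd j).N, ∀ b < (zd j').N, (zd j).u a ≠ (zd j').u b := fun a ha b hb q => by
        have p1 := ps_mem h j1.1 ha
        have p2 := ps_mem h j2.1 hb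
        exact c (Subtype.ext (h.dj j j1.1 j' j2.1 _ p1.1.1.1 (by
          rw [← p1.2, q, p2.2]; exact p2.1.1.1)))
      have := (three_lt_ncard cd.1).2 ⟨_, a1.1, _, a1.2, _, a2.1, _, a2.2,
        fun q => by have := u_inj h j1.1 (lt j hi.le) (lt1 j hi) q; omega,
        d _ (lt j hi.le) _ (lt j' hi'.le), d _ (lt j hi.le) _ (lt1 j' hi'),
        d _ (lt1 j hi) _ (lt j' hi'.le), d _ (lt1 j hi) _ (lt1 j' hi'),
        fun q => by have := u_inj h j2.1 (lt j' hi'.le) (lt1 j' hi') q; omega⟩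
      omega
  · intro y hy
    obtain ⟨x, hx, i, hi, e⟩ := sg.rim y hy
    have : i < (r.mkSh zd zb s' J hJ φ0).m ⟨x, hx⟩ := by change i < (zd x).N - 1; omega
    exact ⟨⟨x, hx⟩, i, this, (lk ⟨x, hx⟩ this).trans e.symm⟩
  · intro a (j : J) i e
    have := ((own_bag h hJ).1 e).2.2
    change i < (zd j).N - 1
    omega
  · intro (j : J) i hi l hl
    have j1 := (jh h j.2).1
    have p := (zr j).inner i (lt j hi) l hl
    refine ⟨p.1, fun n c => ?_⟩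
    obtain ⟨p1, a, ha, k⟩ := p.2 (lm_loc j1 n)
    have nd := node h c
    exact p1 (nd.2.2.2 j j1 (zn_in h j1 ha k nd.2.2.1 nd.2.1 (Or.inl nd.1)))
  · intro (j : J) (j' : J) i hi i' hi' l hl l' hl' n e
    have j1 := (jh h j.2).1
    have j2 := (jh h j'.2).1
    obtain ⟨-, a, ha, k⟩ := ((zr j).inner i (lt j hi) l hl).2 (lm_loc j1 n)
    obtain ⟨-, a', ha', k'⟩ := ((zr j').inner i' (lt j' hi') l' hl').2
      (lm_loc j2 (show (r.mkSh zd zb s' J hJ φ0).β j' i' l' ∉ Lm r zd from e ▸ n))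
    obtain rfl : j = j' := Subtype.ext (zn_meet h j1 j2 ha ha' k
      (show (r.mkSh zd zb s' J hJ φ0).β j i l ∈ σ.inc a' from e ▸ k') fun c => n (Or.inl c))
    exact ⟨rfl, (zr j).priv i (lt j hi) i' (lt j hi') l hl l' hl' (lm_loc j1 n) e⟩
  · intro (j : J) l hl i k i' h1 h2 h3 n e
    exact (zr j).conv l hl i k i' h1 h2 (lt j h3) (lm_loc (jh h j.2).1 n) e
  · intro (j : J) i hi v hv a k
    rw [kap_eq h hJ j (lt j hi)] at hv
    exact sh_bd ((zr j).two i (lt j hi) hv) k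
  · intro x hx
    have dp := deep h hx
    have e : r.s.nb x \ r.Λ = r.s.nb x :=
      sdiff_eq_left.2 (disjoint_left.2 fun v hv => HBas.off_lam co dp hv)
    have so := co.solid x dp.1
    rw [e] at so
    change Solid _ (s'.nb x) (_ \ s'.nb x) ∧ s'.nb x ⊆ _
    rw [ct x hx, (sg.cell x hx).2.2.1]
    refine ⟨solidS.2 _ _ _ _ _ so subset_rfl ?_, h.v.tw x dp⟩
    rintro v ⟨⟨c | c, n⟩, m⟩
    · exact c
    · obtain ⟨z, hz, c⟩ := mem_iUnion₂.1 c
      have g := gam_in h hz c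
      obtain ⟨a, ha, k⟩ := mem_vs.1 (σ.vs_un _ ▸ ⟨m, co.ok0.od v g.2.2.1⟩ : v ∈ σ.vs (r.ct x))
      by_contra n0
      obtain ⟨y, e1, m⟩ := co.share a v ⟨⟨k, g.2.2.2⟩, n0⟩ (Or.inl g.2.2.1)
      cases e1.symm.trans ha
      exact n m
  · intro (j : J) i hi l hl n1 n2
    have j1 := (jh h j.2).1
    have p := (zr j).lane i (lt1 j hi) l hl (lm_loc j1 n1) (lm_loc j1 n2)
    rw [u_eq h hJ j (lt j hi.le), u_eq h hJ j (lt1 j hi), Sh.Lane, bg j hi]
    exact ⟨lane h j1 (fun _ c => c.1) p.1 n1, p.2⟩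
  · intro (j : J) i hi c
    have p := ((sg.side j j.2).2.2.2 i (lt1 j hi)).2.2
    rw [lk j hi] at c
    have p := (zr j).path i (lt1 j hi) (p.resolve_left fun d => d.2 (Or.inr c)).2
    rw [u_eq h hJ j (lt j hi.le), u_eq h hJ j (lt1 j hi), Sh.Lane, bg j hi]
    exact lane h (jh h j.2).1 (fun _ c => c.1) p (u_lam h j.2 (lt j hi.le))

end HShA

theorem shAS (_ : HB.BasS) (ar : HB.AreaS) : HB.ShAS := by
  intro σ r k q D l U0 R m0 w0 zd zb s' J hJ φ0 h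
  refine HShA.ok ⟨h, fun x hx x' hx' u h1 h2 => by_contra fun n => ?_⟩ hJ
  exact disjoint_left.1 ((ar r.s U0 R x h.zx.1 (by have := h.zx.2; omega) hx).2.2.2.2.2.2.2.2.2
    x' hx' (Ne.symm n)).2 ((h.zone x hx).1.sub h1).2 ((h.zone x' hx').1.sub h2).2

end Pool.Agent.MP_9d78a0_co.gm

end MrgPart1

-- marker of a merged file
example : 731051 + 582859 = 731051 + 582859 := rfl
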