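import Pool.Agent.MP_9d78a0_co.gm.SpecM
import Pool.Agent.MP_9d78a0_co.gm.COp

/-! Contraction of the components of a set of vertices. -/

set_option autoImplicit false

namespace Pool.Agent.MP_9d78a0_co.gm

open Set Function Relation

variable {Φ V : Type}

namespace FM

variable {M : FM Φ} {U C : Set Φ}

theorem Ori.minor (h : M.Ok) (hU : M.Es U) (hC : M.Es C) {o : Φ → Prop} (k : M.Ori o) :
    (M.minor U C).Ori o := fun f hf =>
  ⟨(k f (hU.1 hf)).1, mate_ori h.ib (h.gk.sg hC) (fun x q => (k x q).2.1) (fun x q => by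
    by_cases t : x ∈ C
    · rw [sg_in t]; exact (k x q).1
    · rw [sg_out t]; exact (k x q).2.2) (hU.1 hf), (k f (hU.1 hf)).2.2⟩

theorem exists_pos_minor (h : M.Ok) (hU : M.Es U) (hC : M.Es C) {pos : Φ → Prop}
    (k : M.Pos pos) : ∃ pos', (M.minor U C).Pos pos' ∧ ∀ f, pos' f → pos f := by
  rcases k with k | k
  · exact ⟨pos, Or.inl (k.minor h hU hC), fun _ q => q⟩
  · by_cases t : ∃ o, (M.minor U C).Ori o
    · obtain ⟨o, t⟩ := t
      exact ⟨o, Or.inl t, fun f _ => k.2 f⟩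
    · exact ⟨fun _ => True, Or.inr ⟨t, fun _ => trivial⟩, fun f _ => k.2 f⟩

theorem minor_b_keep {f : Φ} (k : M.b f ∈ U) : (M.minor U C).b f = M.b f := mate_of_mem k

/-- components of the spanning submap, read on the vertices -/
theorem spn_co (h : M.Ok) {vx : Φ → V} (hl : M.Lbl vx) (hU : M.Es U) {f g : Φ} (hf : f ∈ M.S)
    (hg : g ∈ M.S) : g ∈ (M.spn U).co f ↔
      ReflTransGen (fun u v => ∃ x ∈ U, vx x = u ∧ vx (M.a x) = v) (vx f) (vx g) := by
  have s := (h.gk.spn hU).sC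
  constructor
  · intro k
    refine cl_ind (r := (M.spn U).rC) (P := fun y => ReflTransGen
      (fun u v => ∃ x ∈ U, vx x = u ∧ vx (M.a x) = v) (vx f) (vx y)) .refl ?_ k
    intro x y hx ih e
    have xS : x ∈ M.S := s.sub hf hx
    rcases e with rfl | rfl | rfl
    · by_cases t : x ∈ U
      · rw [show (M.spn U).a x = M.a x from sg_in t]; exact ih.tail ⟨x, t, rfl, rfl⟩
      · rw [show (M.spn U).a x = M.c x from sg_out t, Gph.vx_c h hl xS]; exact ih
    · rw [show (M.spn U).b x = M.b x from rfl, Gph.vx_b h hl xS]; exact ih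
    · rw [show (M.spn U).c x = M.c x from rfl, Gph.vx_c h hl xS]; exact ih
  · intro k
    have vo : ∀ x ∈ M.S, ∀ y ∈ M.S, vx x = vx y → y ∈ cl (M.spn U).rC x := fun x hx y hy e =>
      cl_le h.gk.sV (fun z _ w t => cl_one (Or.inr t)) hx ((hl x hx y hy).1 e)
    have : ∀ v, ReflTransGen (fun u v => ∃ x ∈ U, vx x = u ∧ vx (M.a x) = v) (vx f) v →
        ∀ y ∈ M.S, vx y = v → y ∈ cl (M.spn U).rC f := by
      intro v k
      induction k with
      | refl => exact fun y hy e => vo f hf y hy e.symm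
      | tail _ e ih =>
        obtain ⟨x, hx, e1, e2⟩ := e
        intro y hy e
        exact cl_trans (cl_step (ih x (hU.1 hx) e1) (Or.inl (sg_in hx).symm))
          (vo _ (h.gk.am (hU.1 hx)) y hy (e2.trans e.symm))
    exact this _ k g hg rfl

theorem link_ind (h : M.Ok) {vx : Φ → V} {D : Set V} {u v : V} : Link (M.gph vx) D u v ↔
    ReflTransGen (fun u v => ∃ x ∈ M.ind vx D, vx x = u ∧ vx (M.a x) = v) u v := by
  constructor
  · refine ReflTransGen.mono ?_ _ _
    rintro u v ⟨hu, hv, -, x, hx, ⟨rfl, rfl⟩ | ⟨rfl, rfl⟩⟩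
    · exact ⟨x, ⟨hx, hu, hv⟩, rfl, rfl⟩
    · exact ⟨M.a x, ⟨h.gk.am hx, hu, by rw [h.gk.aa hx]; exact hv⟩, rfl, by rw [h.gk.aa hx]⟩
  · intro k
    induction k with
    | refl => exact Link.refl _ _ _
    | tail _ e ih =>
      obtain ⟨x, hx, rfl, rfl⟩ := e
      exact ih.trans (Gph.link_a hx.1 hx.2.1 hx.2.2)

theorem forest_fo (h : M.Ok) (hC : M.Es C) (k : ∀ e ∈ C, M.BrIn C e) {f : Φ} (hf : f ∈ M.S) :
    cl (M.spn C).rC f = cl (M.spn C).rF f := by
  have g := h.gk.spn hC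
  refine cl_congr g.sC g.sF ?_ (fun x _ y e => cl_one (e.imp id Or.inl)) hf
  rintro x hx y (e | e | rfl)
  · exact cl_one (Or.inl e)
  · exact cl_one (Or.inr e)
  · by_cases n : (M.spn C).a x = (M.spn C).c x
    · exact cl_one (Or.inl n.symm)
    · have t : x ∈ C := by by_contra q; exact n (sg_out q)
      by_contra q
      exact (brIn_iff g hx).1 (spn_bridge h hC t (k x t)) ((del_count g hx n).1 q).1

theorem brIn_sub (h : M.Ok) (hU : M.Es U) {e : Φ} (he : e ∈ U) (k : M.BrIn C e) :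
    (M.sub U).BrIn C e := by
  intro q
  refine k ?_
  have s := (h.minor hU es_empty).gk
  have : ∀ y, ReflTransGen (fun x y => y = (M.sub U).b x ∨ y = M.c x ∨
      (x ∈ C \ M.eo e ∧ y = M.a x)) e y → y ∈ U ∧ ReflTransGen
        (fun x y => y = M.b x ∨ y = M.c x ∨ (x ∈ C \ M.eo e ∧ y = M.a x)) e y := by
    intro y q
    induction q with
    | refl => exact ⟨he, .refl⟩
    | @tail x y _ t ih =>
      rcases t with rfl | rfl | ⟨m, rfl⟩
      · refine ⟨s.bm ih.1, ih.2.trans ?_⟩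
        refine cl_le (cut_sy h.ib (h.gk.sg es_empty) fun _ k => hU.sg k) ?_ (hU.1 ih.1)
          (mate_spec h.fin h.ib (h.gk.sg es_empty) hU.1 (fun _ k => hU.sg k) ih.1).2.1
        rintro z - w (rfl | ⟨-, rfl⟩)
        · exact cl_one (Or.inl rfl)
        · exact cl_one (Or.inr (Or.inl (sg_out (notMem_empty z))))
      · exact ⟨(hU.2 x ih.1).2, ih.2.tail (Or.inr (Or.inl rfl))⟩
      · exact ⟨(hU.2 x ih.1).1, ih.2.tail (Or.inr (Or.inr ⟨m, rfl⟩))⟩
  exact (this _ q).2

theorem eg_minor_forest (h : M.Ok) (hU : M.Es U) (hC : M.Es C) (d : Disjoint U C)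
    (k : ∀ e ∈ C, M.BrIn C e) : (M.minor U C).eg = (M.sub (U ∪ C)).eg := by
  have hW := hU.union hC
  have g := h.minor hW es_empty
  have e1 := (forestS Φ _ C g (hC.of_sub subset_union_right)
    fun e he => brIn_sub h hW (Or.inr he) (k e he)).1
  have e2 : (M.minor (U ∪ C) ∅).S \ C = U := by
    show (U ∪ C) \ C = U
    rw [union_sdiff_right, sdiff_eq_left.2 d]
  rw [e2] at e1
  have t := transS Φ M (U ∪ C) ∅ U C h hW es_empty hU hC subset_union_left
  rw [empty_sdiff, empty_union, inter_eq_left.2 subset_union_right] at t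
  exact (t.iso.eg (g.minor (hU.of_sub subset_union_left) (hC.of_sub subset_union_right))).trans e1

end FM

open FM

theorem mergeS : MergeS := by
  intro Φ V M vx D h hl
  have hI := es_ind h hl D
  obtain ⟨C, sub, hC, br, co⟩ := spanS Φ M _ h hI
  refine ⟨C, sub, hC, fun U hU d => ?_⟩
  have d' : Disjoint U C := d.mono_right sub
  have g := (h.gk.gh hU hC).1
  have gc : (M.gh U C).c = M.sg C := by
    funext x
    by_cases t : x ∈ U
    · exact (gc_in t).trans (sg_out (Set.disjoint_left.1 d' t)).symm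
    · exact gc_out t
  have ga : (M.gh U C).a = M.sg (U ∪ C) := by
    funext x
    by_cases t : x ∈ U ∪ C
    · exact (if_pos t).trans (sg_in t).symm
    · exact (if_neg t).trans (sg_out t).symm
  have gi : ∀ x ∈ U ∪ C, (M.gh U C).a x = M.a x := fun x t => ga ▸ sg_in t
  have lk : ∀ f ∈ M.S, ∀ x ∈ M.S, x ∈ (M.gh U C).vo f ↔ Link (M.gph vx) D (vx f) (vx x) := by
    intro f hf x hx
    rw [link_ind h, ← spn_co h hl hI hf hx, ← gh_empty, ← co f hf, gh_empty, co_eq,
      forest_fo h hC br hf, ← con_rV]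
    show x ∈ orb M.b (M.gh U C).c f ↔ x ∈ orb M.b (M.sg C) f
    rw [gc]
  refine ⟨h.minor hU hC, eg_minor_forest h hU hC d' br, fun f hf x hx => ?_, fun f hf x hx => ?_,
    fun f hf k => ?_, fun f _ k => minor_b_keep k, fun o k => k.minor h hU hC,
    fun U0 s0 h0 => ⟨fun f hf x hx => ?_, fun k => ?_⟩⟩
  · rw [(compV h.gk hU hC).1 f hf, ← lk f (hU.1 hf) x (hU.1 hx)]
    exact and_iff_left hx
  · rw [(compC h.gk hU hC).1 f hf, ← spn_co h hl (hU.union hI) (hU.1 hf) (hU.1 hx), mem_inter_iff,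
      and_iff_left hx]
    have g' := h.gk.spn (hU.union hI)
    refine Set.ext_iff.1 (cl_congr g.sC g'.sC ?_ ?_ (hU.1 hf)) x
    · have st : ∀ W ⊆ U ∪ M.ind vx D, ∀ y, M.sg W y ∈ cl (M.spn (U ∪ M.ind vx D)).rC y := by
        intro W hW y
        by_cases t : y ∈ W
        · exact cl_one (Or.inl ((sg_in t).trans (sg_in (hW t)).symm))
        · exact cl_one (Or.inr (Or.inr (sg_out t)))
      rintro y - z (rfl | rfl | rfl)
      · rw [ga]; exact st _ (union_subset_union_right _ sub) y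
      · exact cl_one (Or.inr (Or.inl rfl))
      · rw [gc]; exact st _ (sub.trans subset_union_right) y
    · have vo : ∀ y ∈ M.S, ∀ z ∈ M.S, Link (M.gph vx) D (vx y) (vx z) → z ∈ cl (M.gh U C).rC y :=
        fun y hy z hz t => cl_le g.sV (fun _ _ _ t => cl_one (Or.inr t)) hy ((lk y hy z hz).2 t)
      rintro y hy z (rfl | rfl | rfl)
      · by_cases t : y ∈ U
        · exact cl_one (Or.inl ((sg_in (M := M) (show y ∈ U ∪ M.ind vx D from Or.inl t)).trans
            (gi y (Or.inl t)).symm))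
        · by_cases t' : y ∈ M.ind vx D
          · rw [show (M.spn (U ∪ M.ind vx D)).a y = M.a y from sg_in (Or.inr t')]
            exact vo y hy _ (h.gk.am hy) (Gph.link_a hy t'.2.1 t'.2.2)
          · rw [show (M.spn (U ∪ M.ind vx D)).a y = M.c y from sg_out fun m => m.elim t t']
            exact vo y hy _ (h.gk.cm hy) (by rw [Gph.vx_c h hl hy]; exact Link.refl _ _ _)
      · exact cl_one (Or.inr (Or.inl rfl))
      · exact vo y hy (M.c y) (h.gk.cm hy) (by rw [Gph.vx_c h hl hy]; exact Link.refl _ _ _)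
  · rw [(compF h.gk hU hC).1 f hf]
    congr 1
    refine Subset.antisymm (cl_avoid (r := M.rF) (U := (U ∪ C)ᶜ) ?_ fun y hy n => n (k hy))
      fun y hy => ?_
    · intro y n z t
      exact t.imp (fun t => t.trans (gi _ (not_not.1 n))) id
    · refine cl_ind (r := M.rF) (P := fun y => y ∈ cl (M.gh U C).rF f) (cl_self _ _) ?_ hy
      intro y z hy ih t
      exact cl_step ih (t.imp (fun t => t.trans (gi _ (k hy)).symm) id)
  · rw [compR h.gk hU hC U0 f hf] at hx
    refine ReflTransGen.mono ?_ _ _ hx.1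
    rintro y z (rfl | rfl | ⟨n, rfl⟩)
    · rw [ga]
      by_cases t : y ∈ U ∪ C
      · exact Or.inl (sg_in t)
      · exact Or.inr (Or.inr ⟨fun m => t (Or.inl (s0 m)), sg_out t⟩)
    · exact Or.inr (Or.inl rfl)
    · rw [gc]
      by_cases t : y ∈ C
      · exact Or.inl (sg_in t)
      · exact Or.inr (Or.inr ⟨n, sg_out t⟩)
  · have t := transS Φ M U C U0 ∅ h hU hC h0 es_empty s0
    refine ⟨rfl, fun f hf => ⟨rfl, ?_, rfl⟩⟩
    have hf' : f ∈ U0 := hf
    rw [show ((M.minor U C).sub U0).b f = _ from (t.2 f hf).2.1]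
    have e2 : M.Es (C \ U ∪ ∅ ∩ U) := (h.gk.es_diff hC hU).union (es_empty.inter hU)
    have sp := mate_spec h.fin h.ib (h.gk.sg es_empty) h0.1 (fun _ k => h0.sg k) hf'
    have iv := mate_inv h.fin h.ib (h.gk.sg es_empty) h0.1 (fun _ k => h0.sg k) f hf'
    refine (mate_eq h.fin h.ib (h.gk.sg e2) h0.1 (fun _ k => h0.sg k) hf' sp.1 ?_ iv.2.2).symm
    refine (cl_ind (r := cut M.b (M.sg ∅) U0) (P := fun y => (y ∈ M.S ∧ vx y = vx f) ∧
      y ∈ cl (cut M.b (M.sg (C \ U ∪ ∅ ∩ U)) U0) f) ⟨⟨h0.1 hf', rfl⟩, cl_self _ _⟩ ?_ sp.2.1).2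
    rintro y z - ⟨⟨hy, e⟩, ih⟩ (rfl | ⟨n, rfl⟩)
    · exact ⟨⟨h.gk.bm hy, (Gph.vx_b h hl hy).trans e⟩, cl_step ih (Or.inl rfl)⟩
    · rw [sg_out (notMem_empty y)]
      refine ⟨⟨h.gk.cm hy, (Gph.vx_c h hl hy).trans e⟩, cl_step ih (Or.inr ⟨n, (sg_out ?_).symm⟩)⟩
      rintro (m | m)
      · exact k f hf' (e ▸ (sub m.1).2.1)
      · exact m.1

end Pool.Agent.MP_9d78a0_co.gm
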