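import Pool.Agent.MP_9d78a0_co.gm.COp
import Pool.Agent.MP_9d78a0_co.gm.RWordC
import Mathlib.Data.Nat.Nth

-- ======== part 0: formerly Pool.Agent.MP_9d78a0_co.gm.R0b
section MrgPart0

/-! Routing: alternation on a sphere, sums over regions, good faces. -/

set_option autoImplicit false

namespace Pool.Agent.MP_9d78a0_co.gm

open Set Function Relation Cy FM

namespace FM

variable {Φ V : Type} {M : FM Φ} {vx : Φ → V} {C : Set Φ} {D : Set V} {u v : V} {f g : Φ}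

theorem gh_fo : g ∈ (M.gh C ∅).fo f ↔ M.R C Cᶜ f g := by
  have e1 : ∀ x ∈ C, (M.gh C ∅).a x = M.a x := fun x => Gph.ga_mem
  have e2 : ∀ x ∉ C, (M.gh C ∅).a x = M.c x := fun x => Gph.ga_not
  rw [mem_fo]
  refine ⟨fun h => h.ind0 .rfl (fun _ => R.b) (fun z _ k => ?_) fun z k => k.elim,
    fun h => h.ind0 .rfl (fun _ => R.b) (fun z h1 k => e1 z h1 ▸ k.a trivial)
      fun z h1 k => e2 z h1 ▸ k.a trivial⟩
  by_cases h1 : z ∈ C
  exacts [e1 z h1 ▸ k.a h1, e2 z h1 ▸ k.c h1]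

theorem EL.mem (h : M.EL vx C D u v) (hu : u ∈ D) : v ∈ D := by
  induction h with
  | refl => exact hu
  | tail _ e _ => exact e.2.1

theorem Chn.el (hM : M.Ok) (hL : M.Lbl vx) (hC : M.Es C) (h : M.EL vx C D u v) :
    ∃ oc, M.Chn vx u v 0 oc ∧ ∀ f ∉ C ∩ M.ind vx D, oc f = 0 := by
  induction h with
  | refl => exact ⟨0, .refl u, fun _ _ => rfl⟩
  | tail _ e ih =>
    obtain ⟨oc, h1, h2⟩ := ih
    obtain ⟨hu, hv, x, hx, rfl, rfl⟩ := e
    refine ⟨_, by simpa using h1.trans hM (.edge hM hL (hC.1 hx)), fun f hf => ?_⟩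
    rw [Pi.add_apply, h2 f hf, ed_zero (fun k => hf ((hC.inter (es_ind hM hL D)).eo_sub
      ⟨hx, hC.1 hx, hu, hv⟩ k)) hM (hC.1 hx), add_zero]

/-- functions that are constant at the vertices of `D` and along the edges of `C` -/
theorem EL.eq {A : Type} {χ : Φ → A} (hM : M.Ok) (hL : M.Lbl vx) (hC : C ⊆ M.S)
    (h : M.EL vx C D u v) (hu : u ∈ D) (ha : ∀ x ∈ C, vx x ∈ D → χ (M.a x) = χ x)
    (hb : ∀ x ∈ M.S, vx x ∈ D → χ (M.b x) = χ x ∧ χ (M.c x) = χ x) (hf : f ∈ M.S) (e : vx f = u) :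
    ∀ g ∈ M.S, vx g = v → χ g = χ f := by
  have k : ∀ x ∈ M.S, ∀ y ∈ M.S, vx x ∈ D → vx x = vx y → χ y = χ x := fun x hx y hy k e =>
    (orb_ind (P := fun z => z ∈ M.vo x ∧ χ z = χ x) ((hL x hx y hy).1 e) ⟨orb_self .., rfl⟩
      (fun z h => ⟨orb_p h.1, (hb z (hM.vo_mem hx h.1) (hL.of_vo hM hx h.1 ▸ k)).1.trans h.2⟩)
      fun z h => ⟨orb_q h.1, (hb z (hM.vo_mem hx h.1) (hL.of_vo hM hx h.1 ▸ k)).2.trans h.2⟩).2
  induction h with
  | refl => exact fun g hg e' => k f hf g hg (e ▸ hu) (e.trans e'.symm)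
  | tail _ e ih =>
    obtain ⟨h1, h2, x, hx, rfl, rfl⟩ := e
    exact fun g hg e' => by
      rw [k _ (hM.a_mem (hC hx)) g hg h2 e'.symm, ha x hx h1, ih x (hC hx) rfl]

end FM

theorem xfS : XfS := by
  classical
  intro Φ V M vx C O n i1 i2 i3 i4 P Q hM hL hC he hT l1 l2 l3 l4 hd m1 m2 w1 w2
  obtain ⟨gk, g0⟩ := (ghostS Φ M hM).2.2 C ∅ hC (Gph.es_empty M)
  have e1 : ∀ x ∈ C, (M.gh C ∅).a x = M.a x := fun x => Gph.ga_mem
  have e2 : ∀ x ∉ C, (M.gh C ∅).a x = M.c x := fun x => Gph.ga_not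
  have e3 : (M.gh C ∅).c = M.c := Gph.gc_empty M C
  have st : ∀ i, O (i + 1) = M.b ((M.gh C ∅).a (O i)) := fun i => by
    rw [hT.step, wk]
    split_ifs with k
    exacts [by rw [e1 _ k], by rw [e2 _ k]]
  have m3 := w1.mem m1
  obtain ⟨β, b1, b2⟩ := Chn.el hM hL hC w1
  have s1 := fun y => one_sym (y := y) hM.ib0 (hT.mem i1)
  have s3 := fun y => one_sym (y := y) hM.ib0 (hT.mem i3)
  have sb : ∀ y ∈ M.S, (one M.b (O i1) + one M.b (O i3)) (M.b y) =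
      (one M.b (O i1) + one M.b (O i3)) y := fun y hy => by simp only [Pi.add_apply, s1 y hy, s3 y hy]
  have fo : ∀ i, orb M.b (M.gh C ∅).a (O i) = orb M.b (M.gh C ∅).a (O 0) := fun i =>
    orb_eq hM.ib0 gk.ia.inv0 (hT.mem 0) (by
      induction i with
      | zero => exact orb_self ..
      | succ i ih => rw [st]; exact orb_p (orb_q ih))
  obtain ⟨χ, c1, c2, c3⟩ := sphereS Φ (M.gh C ∅) 0 (one M.b (O i1) + one M.b (O i3)) β gk
    (g0.trans he) (fun f hf => by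
      rw [e3]
      by_cases k : f ∈ C
      · exact (ev_edge hM.dual (fun x hx => (b1.ec x hx).symm) hf).symm.congr fun y hy =>
          ⟨e1 y (hC.eo_sub k hy), rfl, rfl, rfl⟩
      · refine ev_zero fun y hy => ⟨rfl, b2 y fun k1 => ?_⟩
        exact (orb_ind (P := fun y => y ∈ M.S ∧ y ∉ C) hy ⟨hf, k⟩
          (fun z h => e2 z h.2 ▸ ⟨hM.c_mem h.1, (hC.cl.c_iff hM h.1).not.2 h.2⟩)
          fun z h => ⟨hM.c_mem h.1, (hC.cl.c_iff hM h.1).not.2 h.2⟩).2 k1.1)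
    (fun f hf => par_eq_zero.1 (by
      rw [par_symm]
      refine (par_two hM.fin hM.ib gk.ia (hT.mem i1) (hT.mem i3) hf).trans ?_
      rw [fo, fo i3, z2_add_self]))
    fun f hf _ _ => Or.inl (par_eq_zero.1 (by
      have iv : ∀ i, f ∈ orb M.b M.c (O i) ↔ vx f = vx (O i) := fun i =>
        (hL _ (hT.mem i) f hf).symm.trans eq_comm
      have := par_add (oq := 0) (op' := 0) hM.fin hM.ib hM.ic hf sb (fun _ _ => rfl)
        (fun _ _ => rfl) fun y hy => (b1.ec y hy).2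
      rw [add_zero, zero_add, b1.ve f hf, par_two hM.fin hM.ib hM.ic (hT.mem i1) (hT.mem i3) hf,
        if_congr (iv i1) rfl rfl, if_congr (iv i3) rfl rfl, z2_add_self] at this
      rw [e3]; exact this))
  rw [e3] at c3
  have e0 : ∀ i, vx (O i) ∈ P → ∀ y, vx y ∈ Q → one M.b (O i) y = 0 := fun i k y hy => if_neg (by
    rintro (rfl | rfl)
    exacts [disjoint_left.1 hd k hy, disjoint_left.1 hd k (hL.b hM (hT.mem i) ▸ hy)])
  have k1 := w2.eq (χ := χ) hM hL hC.1 m2 (fun x hx _ => by simpa [e1 x hx] using c1 x (hC.1 hx))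
    (fun x hx k => ⟨(c2 x hx).trans (by simp [e0 i1 m1 x k, e0 i3 m3 x k]),
      by rw [c3 x hx, b2 x fun k1 => disjoint_left.1 hd k1.2.2.1 k, add_zero]⟩)
    (hT.mem i2) rfl _ (hT.mem i4) rfl
  have e4 : ∀ i j, i1 ≤ i → i1 ≤ j → i < i1 + n → j < i1 + n →
      one M.b (O i) (O j) = if j = i then 1 else 0 := fun i j h1 h2 h3 h4 =>
    if_congr ⟨fun k => k.elim (fun k => ((hT.per j i).1 k).eq_of_abs_lt (by rw [abs_lt]; omega))
      fun k => (hT.two j i k).elim, fun e => Or.inl (by rw [e])⟩ rfl rfl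
  have e5 : ∀ j, i2 ≤ j → j ≤ i4 → χ (O j) = χ (O i2) + if i3 ≤ j then 1 else 0 := by
    intro j hj
    induction j, hj using Nat.le_induction with
    | base => intro _; rw [if_neg (by omega), add_zero]
    | succ j hj ih =>
      intro h
      have k := (gk.ia _ (hT.mem j)).1
      have := c2 _ k
      rw [← sb _ k, c1 _ (hT.mem j), ih (by omega)] at this
      rw [st, show χ (M.b _) = _ from this, ← st, Pi.add_apply, e4 i1 _ le_rfl (by omega) (by omega)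
        (by omega), e4 i3 _ (by omega) (by omega) (by omega) (by omega)]
      split_ifs <;> first | omega | simp
  rw [e5 i4 (by omega) le_rfl, if_pos l3.le] at k1
  simp at k1

theorem sumS : SumS := by
  classical
  intro Φ M U β hM hU hβ h0 p hp h
  have rS : ∀ g ∈ M.reg U p, g ∈ M.S := fun g hg => (mem_reg.1 hg).mem hM hp
  obtain ⟨χ1, c1, c2⟩ := path_pot (op := β) (oq := 0) hM.fin hM.ia hM.ib hp
    (fun y hy => (hβ y (hM.fo_mem hp hy)).1) fun _ _ => rfl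
  obtain ⟨χ2, d1, d2⟩ := Cy.glue (A := M.reg U p \ M.fo p) hM.ia0 hM.ib0 (fun g hg => rS g hg.1)
    fun g hg => h g hg.1 hg.2
  let χ : Φ → ZMod 2 := fun x => if x ∈ M.fo p then χ1 x else χ2 x
  have e1 : ∀ x ∈ M.fo p, χ x = χ1 x := fun x k => if_pos k
  have e2 : ∀ x ∉ M.fo p, χ x = χ2 x := fun x k => if_neg k
  have ca : ∀ x ∈ M.reg U p, χ (M.a x) = χ x + β x := fun x hx => by
    by_cases k : x ∈ M.fo p
    · rw [e1 _ (orb_p k), e1 x k, c1 x k]
    · rw [e2 _ fun k1 => k (hM.aa (rS x hx) ▸ orb_p k1), e2 x k, d1 x ⟨hx, k⟩]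
  have cb : ∀ x ∈ M.reg U p \ {p, M.b p}, χ (M.b x) = χ x := fun x hx => by
    by_cases k : x ∈ M.fo p
    · rw [e1 _ (orb_q k), e1 x k, c2 x ⟨k, hx.2⟩, Pi.zero_apply, add_zero]
    · rw [e2 _ fun k1 => k (hM.bb (rS x hx.1) ▸ orb_q k1), e2 x k, d2 x ⟨hx.1, k⟩, Pi.zero_apply,
        add_zero]
  have sm : ∀ (A : Finset Φ) (i : Φ → Φ), (∀ x ∈ A, i x ∈ A ∧ i (i x) = x ∧ i x ≠ x ∧
      χ (i x) = χ x) → ∑ x ∈ A, χ x = 0 := fun A i k =>
    Finset.sum_involution (fun x _ => i x) (fun x hx => by rw [(k x hx).2.2.2, z2_add_self])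
      (fun x hx _ => (k x hx).2.2.1) (fun x hx => (k x hx).1) fun x hx => (k x hx).2.1
  obtain ⟨A, hA⟩ := (hM.fin.subset rS).exists_finset_coe
  have mA : ∀ x, x ∈ A ↔ M.R univ Uᶜ p x := fun x => by rw [← mem_reg, ← hA, Finset.mem_coe]
  have s1 := sm A (fun x => if β x = 0 then M.a x else if χ (M.c x) = χ x then M.c x
      else M.a (M.c x)) fun x hx => by
    have r := (mA x).1 hx
    have hS := r.mem hM hp
    have a1 := ca x (mem_reg.2 r)
    by_cases k : β x = 0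
    · simp [k, (hβ x hS).1, (mA _).2 (r.a trivial), hM.aa hS, hM.a_ne hS, a1]
    have r1 := r.c fun k1 => k (h0 x k1)
    have b1 := (hβ x hS).2
    by_cases k1 : χ (M.c x) = χ x
    · simp [k, k1, b1, (mA _).2 r1, hM.cc hS, hM.c_ne hS]
    have a2 := ca _ (mem_reg.2 r1)
    have b2 := (hβ _ (hM.c_mem hS)).1
    have a3 : χ (M.a (M.c x)) = χ x := by
      rw [a2, b1]; revert k k1; generalize χ (M.c x) = s, χ x = t, β x = r; revert s t r; decide
    have a4 : M.c (M.a (M.c x)) = M.a x := by rw [hM.comm hS, hM.cc (hM.a_mem hS)]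
    simp [k, k1, b1, b2, a1, a3, a4, (mA _).2 (r1.a trivial), hM.aa hS, hM.ac_ne hS]
  have s2 := sm (A \ {p, M.b p}) M.b fun x hx => by
    obtain ⟨k1, k2⟩ := Finset.mem_sdiff.1 hx
    have r := (mA x).1 k1
    have hS := r.mem hM hp
    refine ⟨Finset.mem_sdiff.2 ⟨(mA _).2 r.b, fun k => k2 ?_⟩, hM.bb hS, hM.b_ne hS,
      cb x ⟨mem_reg.2 r, by simpa using k2⟩⟩
    have := hM.bb hS
    have := hM.bb hp
    simp only [Finset.mem_insert, Finset.mem_singleton] at k ⊢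
    grind
  have s3 := Finset.sum_sdiff (f := χ) (show {p, M.b p} ⊆ A by
    simp [Finset.insert_subset_iff, (mA _).2 .rfl, (mA _).2 R.rfl.b])
  rw [s1, s2, zero_add, Finset.sum_pair (hM.b_ne hp).symm, e1 p (orb_self ..),
    e1 _ (orb_q (orb_self ..))] at s3
  refine ev_of_path hM.ib hp c1 c2 rfl ?_
  rw [Pi.zero_apply]; revert s3; generalize χ1 p = s, χ1 (M.b p) = t; revert s t; decide

theorem goodS : GoodS := by
  intro k q Φ V M vx H U hM hL hk hq hU hc hd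
  have h1 := cleanS Φ M U hM hU hc
  have h2 := (monoS Φ _ (hM.sub hU)).1
  have cU := hU.cl.compl hM
  have h3 : (M.sub U).fo '' {f | f ∈ U ∧ ¬ M.Good vx H U f} ⊆
      (M.sub U).fo '' {f | f ∈ U ∧ ¬ M.Clean U f} ∪
      (fun x => {w | w ∈ U ∧ ∃ g ∈ M.S, vx g = x ∧ M.R univ Uᶜ g w}) '' (H ∩ vx '' M.S) := by
    rintro _ ⟨f, ⟨hf, hg⟩, rfl⟩
    by_cases k1 : M.Clean U f
    swap; · exact Or.inl ⟨f, ⟨hf, k1⟩, rfl⟩
    have rS : ∀ g ∈ M.reg U f, g ∈ M.S := fun g hg => (mem_reg.1 hg).mem hM (hU.1 hf)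
    by_cases k2 : ∀ g ∈ M.reg U f, vx g ∉ H
    · refine (hg ⟨k2, fun g hg => ?_, fun β hβ => k1.disc β 0 0 (fun g hg => hβ.2 g (rS g hg) ?_)
        (fun g hg _ => ev_edge hM hβ.1 (rS g hg)) fun _ _ _ => ev_zero fun _ _ => ⟨rfl, rfl⟩⟩).elim
      · obtain ⟨w, hw, r⟩ := sat_R hU hg.2
        have := k1.alone ⟨mem_reg.2 ((mem_reg.1 hg.1).trans ((r.mono (empty_subset _)
          subset_rfl).symm hM cl_univ cU (hU.1 hw))), hw⟩
        rw [mem_fo, sub_R hM hU hf hw, univ_inter, empty_union] at this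
        exact gh_fo.2 (this.trans (r.mono (empty_subset _) subset_rfl))
      · refine disjoint_left.2 ?_
        rintro _ ⟨y, hy, rfl⟩
        exact k2 y (mem_reg.2 ((mem_reg.1 hg).trans ((mem_fo.1 hy).mono subset_rfl (empty_subset _))))
    · simp only [not_forall, not_not] at k2
      obtain ⟨g, hg, k2⟩ := k2
      have gS := rS g hg
      refine Or.inr ⟨vx g, ⟨k2, g, gS, rfl⟩, Set.ext fun w => ⟨fun ⟨hw, g', hg', e, r⟩ =>
        k1.alone ⟨mem_reg.2 (((mem_reg.1 hg).trans (mem_reg.1 ((regBC Φ M U hM hU g gS).2.2.1 ?_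
          ((hL g gS g' hg').1 e.symm)))).trans r), hw⟩, fun hw => ⟨(hM.sub hU).fo_mem hf hw, g, gS,
        rfl, ((mem_reg.1 hg).symm hM cl_univ cU (hU.1 hf)).trans
          (mem_reg.1 ((regBC Φ M U hM hU f (hU.1 hf)).2.2.2.1 hf hw))⟩⟩⟩
      exact fun ⟨y, hy, k⟩ => disjoint_left.1 hd k2 ⟨y, hy, (hL.of_vo hM (hU.1 hy) k).symm⟩
  have f1 : (H ∩ vx '' M.S).Finite := (hM.fin.image _).subset inter_subset_right
  have h4 := (ncard_le_ncard h3 (((hM.fin.subset fun _ k => hU.1 k.1).image _).union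
    (f1.image _))).trans ((ncard_union_le _ _).trans (Nat.add_le_add_left (ncard_image_le f1) _))
  omega

end Pool.Agent.MP_9d78a0_co.gm

end MrgPart0

-- ======== part 1: formerly Pool.Agent.MP_9d78a0_co.gm.RNewA
section MrgPart1

/-! Routing, row NEW: parallel loops of a bouquet, read along a walk. -/

set_option autoImplicit false

namespace Pool.Agent.MP_9d78a0_co.gm.Nw

open Set Function FM

variable {Φ : Type}

/-- all flags of `U` lie on the walk round a face of `C` -/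
structure Dk (M : FM Φ) (U C : Set Φ) (O : ℕ → Φ) (n : ℕ) : Prop where
  ok : M.Ok
  eU : M.Es U
  eC : M.Es C
  dis : Disjoint U C
  turn : M.Turn C O n
  cov : ∀ f ∈ U, ∃ i < n, f = O i ∨ f = M.b (O i)
  ne : U.Nonempty

/-- the times at which the walk meets `U` -/
noncomputable def ix (U : Set Φ) (O : ℕ → Φ) (s : ℕ) : ℕ := Nat.nth (fun i => O i ∈ U) s

/-- the darts -/
noncomputable def pp (U : Set Φ) (O : ℕ → Φ) (s : ℕ) : Φ := O (ix U O s)

open Classical in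
/-- the number of darts -/
noncomputable def LL (U : Set Φ) (O : ℕ → Φ) (n : ℕ) : ℕ := Nat.count (fun i => O i ∈ U) n

/-- the flags between two consecutive darts -/
def Seg (M : FM Φ) (U : Set Φ) (O : ℕ → Φ) (s : ℕ) : Set Φ :=
  {x | ∃ i, ix U O s < i ∧ i ≤ ix U O (s + 1) ∧ (x = O i ∨ x = M.b (O i))}

theorem exists_run {A : Set ℕ} (hA : A.Finite) {d : ℕ} (hd : A.ncard ≤ d) (m : ℕ) :
    ∃ s0, s0 + m ≤ (d + 1) * m ∧ ∀ J < m, s0 + J ∉ A := by
  by_contra! h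
  choose J h1 h2 using fun i : Fin (d + 1) => h (i * m) (by
    rw [← Nat.succ_mul]; exact Nat.mul_le_mul_right _ i.2)
  have inj : Injective fun i : Fin (d + 1) => i * m + J i := fun i j e => by
    have := congrArg (· / m) e
    have m0 : 0 < m := (Nat.zero_le _).trans_lt (h1 i)
    simp only [Nat.mul_comm _ m, Nat.mul_add_div m0, Nat.div_eq_of_lt (h1 _)] at this
    exact Fin.ext this
  have := ncard_le_ncard (range_subset_iff.2 h2) hA
  rw [ncard_range_of_injective inj, Nat.card_eq_fintype_card, Fintype.card_fin] at this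
  omega

variable {M : FM Φ} {U C : Set Φ} {O : ℕ → Φ} {n : ℕ}

theorem sgm_mem (hM : M.Ok) {x : Φ} (hx : x ∈ M.S) : M.sgm C x ∈ M.S := by
  unfold sgm
  split_ifs
  exacts [hM.a_mem hx, hM.c_mem hx]

theorem sgm_iff (hM : M.Ok) (hU : M.Es U) {x : Φ} (hx : x ∈ M.S) : M.sgm C x ∈ U ↔ x ∈ U := by
  unfold sgm
  split_ifs
  exacts [hU.cl.a_iff hM hx, hU.cl.c_iff hM hx]

theorem sgm_sgm (hM : M.Ok) (hC : M.Es C) {x : Φ} (hx : x ∈ M.S) : M.sgm C (M.sgm C x) = x := by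
  by_cases c : x ∈ C
  · rw [show M.sgm C x = M.a x from if_pos c, show M.sgm C _ = _ from if_pos (hC.2 x c).1, hM.aa hx]
  · rw [show M.sgm C x = M.c x from if_neg c,
      show M.sgm C _ = _ from if_neg fun k => c ((hC.cl.c_iff hM hx).1 k), hM.cc hx]

theorem R_sgm {x y : Φ} (h : M.R (C \ U) (Uᶜ \ C) x y) (hy : y ∉ U) :
    M.R (C \ U) (Uᶜ \ C) x (M.sgm C y) := by
  unfold sgm
  split_ifs with c
  exacts [h.a ⟨c, hy⟩, h.c ⟨hy, c⟩]

namespace Dk

variable (h : Dk M U C O n)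
include h

theorem step (i : ℕ) : O (i + 1) = M.b (M.sgm C (O i)) := h.turn.step i

theorem bO (i : ℕ) : M.b (O (i + 1)) = M.sgm C (O i) := by
  rw [h.step, h.ok.bb (sgm_mem h.ok (h.turn.mem i))]

theorem sgm_U {x : Φ} (hx : x ∈ U) : M.sgm C x = M.c x := if_neg (disjoint_left.1 h.dis hx)

theorem cov' {f : Φ} (hf : f ∈ U) : ∃ i < n, O i ∈ U ∧ (f = O i ∨ f = M.c (O i)) := by
  obtain ⟨i, hi, rfl | e⟩ := h.cov f hf
  · exact ⟨i, hi, hf, Or.inl rfl⟩
  have n0 := h.turn.pos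
  have e1 : O i = O (i + n - 1 + 1) := (h.turn.per _ _).2 (by
    rw [Nat.sub_add_cancel (by omega)]; exact (Nat.add_modEq_right).symm)
  have e2 : O (i + n - 1) = O ((i + n - 1) % n) := (h.turn.per _ _).2 (Nat.mod_modEq _ _).symm
  rw [e1, h.bO, e2] at e
  have m := (sgm_iff h.ok h.eU (h.turn.mem _)).1 (e ▸ hf)
  exact ⟨_, Nat.mod_lt _ n0, m, Or.inr (e.trans (h.sgm_U m))⟩

theorem inf : {i | O i ∈ U}.Infinite := by
  obtain ⟨f, hf⟩ := h.ne
  obtain ⟨i, -, m, -⟩ := h.cov' hf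
  have n0 := h.turn.pos
  refine infinite_of_injective_forall_mem (f := fun k => i + k * n) (fun k k' e => ?_) fun k => ?_
  · exact Nat.eq_of_mul_eq_mul_right n0 (Nat.add_left_cancel e)
  · have : O (i + k * n) = O i := (h.turn.per _ _).2 (by simp [Nat.ModEq])
    exact (this.symm ▸ m : O (i + k * n) ∈ U)

theorem mono : StrictMono (ix U O) := Nat.nth_strictMono h.inf

theorem pU (s : ℕ) : pp U O s ∈ U := Nat.nth_mem_of_infinite h.inf s

theorem pS (s : ℕ) : pp U O s ∈ M.S := h.turn.mem _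

theorem cU (s : ℕ) : M.c (pp U O s) ∈ U := (h.eU.2 _ (h.pU s)).2

theorem ex {i : ℕ} (hi : O i ∈ U) : ∃ s, ix U O s = i := by
  have : i ∈ range (Nat.nth fun i => O i ∈ U) := by
    rw [Nat.range_nth_of_infinite h.inf]; exact hi
  exact this

theorem btw {s i : ℕ} (h1 : ix U O s < i) (h2 : i < ix U O (s + 1)) : O i ∉ U := fun c => by
  obtain ⟨t, rfl⟩ := h.ex c
  have := h.mono.lt_iff_lt.1 h1
  have := h.mono.lt_iff_lt.1 h2
  omega

theorem lt_iff {s : ℕ} : s < LL U O n ↔ ix U O s < n := by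
  classical
  exact Nat.lt_nth_iff_count_lt h.inf

theorem cp (s : ℕ) : M.c (pp U O s) = M.b (O (ix U O s + 1)) :=
  ((h.bO _).trans (h.sgm_U (h.pU s))).symm

theorem dart {f : Φ} (hf : f ∈ U) : ∃ s < LL U O n, f = pp U O s ∨ f = M.c (pp U O s) := by
  obtain ⟨i, hi, m, e⟩ := h.cov' hf
  obtain ⟨s, rfl⟩ := h.ex m
  exact ⟨s, h.lt_iff.2 hi, e⟩

theorem O_inj {i j : ℕ} (hi : i < n) (hj : j < n) (e : O i = O j) : i = j :=
  Nat.ModEq.eq_of_lt_of_lt ((h.turn.per _ _).1 e) hi hj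

theorem p_inj {s t : ℕ} (hs : s < LL U O n) (ht : t < LL U O n) (e : pp U O s = pp U O t) : s = t :=
  h.mono.injective (h.O_inj (h.lt_iff.1 hs) (h.lt_iff.1 ht) e)

theorem p_ne (s t : ℕ) : pp U O s ≠ M.c (pp U O t) := h.cp t ▸ h.turn.two _ _

theorem c_inj {x y : Φ} (hx : x ∈ M.S) (hy : y ∈ M.S) (e : M.c x = M.c y) : x = y := by
  rw [← h.ok.cc hx, e, h.ok.cc hy]

theorem cp_seg (s : ℕ) : M.c (pp U O s) ∈ Seg M U O s :=
  ⟨_, Nat.lt_succ_self _, h.mono (Nat.lt_succ_self s), Or.inr (h.cp s)⟩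

theorem p_seg (s : ℕ) : pp U O (s + 1) ∈ Seg M U O s :=
  ⟨_, h.mono (Nat.lt_succ_self s), le_rfl, Or.inl rfl⟩

theorem seg_S {s : ℕ} {x : Φ} (hx : x ∈ Seg M U O s) : x ∈ M.S := by
  obtain ⟨i, -, -, rfl | rfl⟩ := hx
  exacts [h.turn.mem i, h.ok.b_mem (h.turn.mem i)]

theorem seg_R {s : ℕ} {x : Φ} (hx : x ∈ Seg M U O s) :
    M.R (C \ U) (Uᶜ \ C) (M.c (pp U O s)) x := by
  have k : ∀ d, ix U O s + 1 + d ≤ ix U O (s + 1) →
      M.R (C \ U) (Uᶜ \ C) (M.c (pp U O s)) (O (ix U O s + 1 + d)) := by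
    intro d
    induction d with
    | zero =>
      intro _
      have := (R.rfl (M := M) (P := C \ U) (Q := Uᶜ \ C) (x := M.c (pp U O s))).b
      rwa [h.cp s, h.ok.bb (h.turn.mem _), ← h.cp s] at this
    | succ d ih =>
      intro c
      rw [← add_assoc, h.step]
      exact (R_sgm (ih (by omega)) (h.btw (s := s) (by omega) (by omega))).b
  obtain ⟨i, a, b, e⟩ := hx
  obtain ⟨d, rfl⟩ := Nat.exists_eq_add_of_le (show ix U O s + 1 ≤ i from a)
  rcases e with rfl | rfl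
  exacts [k d b, (k d b).b]

theorem mb (s : ℕ) : (M.minor U C).b (M.c (pp U O s)) = pp U O (s + 1) :=
  minor_b_eq h.ok h.eU h.eC.cl (h.cU s) (h.pU _) (h.seg_R (h.p_seg s)) (h.p_ne _ _)

theorem mok : (M.minor U C).Ok := h.ok.minorC h.eU h.eC.cl

theorem mb' (s : ℕ) : (M.minor U C).b (pp U O (s + 1)) = M.c (pp U O s) := by
  rw [← h.mb s]
  exact h.mok.bb (h.cU s)

theorem seg_step {s : ℕ} {x : Φ} (hx : x ∈ Seg M U O s) : M.b x ∈ Seg M U O s ∧
    (x ∉ U → M.sgm C x ∈ Seg M U O s) ∧ (x ∈ U → x = M.c (pp U O s) ∨ x = pp U O (s + 1)) := by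
  obtain ⟨i, a, b, rfl | rfl⟩ := hx
  · refine ⟨⟨i, a, b, Or.inr rfl⟩, fun c => ?_, fun c => Or.inr ?_⟩
    · have : i ≠ ix U O (s + 1) := fun e => c (e ▸ h.pU (s + 1))
      exact ⟨i + 1, by omega, by omega, Or.inr (h.bO i).symm⟩
    · rw [show i = ix U O (s + 1) from le_antisymm b (not_lt.1 fun d => h.btw a d c)]
      rfl
  · obtain ⟨j, rfl⟩ : ∃ j, i = j + 1 := ⟨i - 1, by omega⟩
    refine ⟨⟨_, a, b, Or.inl (h.ok.bb (h.turn.mem _))⟩, fun c => ?_, fun c => Or.inl ?_⟩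
    · have : j ≠ ix U O s := fun e => c (by rw [e, ← h.cp]; exact h.cU s)
      exact ⟨j, by omega, by omega, Or.inl (by rw [h.bO, sgm_sgm h.ok h.eC (h.turn.mem _)])⟩
    · rw [h.bO, sgm_iff h.ok h.eU (h.turn.mem _)] at c
      rw [show j = ix U O s from le_antisymm (not_lt.1 fun d => h.btw d (by omega) c) (by omega),
        h.cp]

theorem seg_uniq {s t : ℕ} {x : Φ} (hs : s + 1 < LL U O n) (ht : t + 1 < LL U O n)
    (h1 : x ∈ Seg M U O s) (h2 : x ∈ Seg M U O t) : s = t := by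
  obtain ⟨i, a, b, e⟩ := h1
  obtain ⟨j, a', b', e'⟩ := h2
  have : i = j := by
    refine h.O_inj (b.trans_lt (h.lt_iff.1 hs)) (b'.trans_lt (h.lt_iff.1 ht)) ?_
    rcases e with rfl | rfl <;> rcases e' with e' | e'
    exacts [e', absurd e' (h.turn.two _ _), absurd e'.symm (h.turn.two _ _),
      by rw [← h.ok.bb (h.turn.mem i), e', h.ok.bb (h.turn.mem j)]]
  subst this
  have := h.mono.lt_iff_lt.1 (a.trans_le b')
  have := h.mono.lt_iff_lt.1 (a'.trans_le b)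
  omega

theorem seg_of {s t i : ℕ} (h1 : ix U O s < i) (h2 : i ≤ ix U O t) :
    ∃ r, s ≤ r ∧ r < t ∧ ix U O r < i ∧ i ≤ ix U O (r + 1) := by
  induction t with
  | zero => exact absurd (h.mono.lt_iff_lt.1 (h1.trans_le h2)) (Nat.not_lt_zero _)
  | succ t ih =>
    by_cases c : i ≤ ix U O t
    · obtain ⟨r, a, b, d⟩ := ih c
      exact ⟨r, a, by omega, d⟩
    · exact ⟨t, Nat.lt_succ_iff.1 (h.mono.lt_iff_lt.1 (h1.trans_le h2)), by omega, not_le.1 c, h2⟩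

theorem close {s t : ℕ} (a1 : M.a (M.c (pp U O s)) ∈ Seg M U O t)
    (a2 : M.a (pp U O (s + 1)) ∈ Seg M U O t) (a3 : M.a (M.c (pp U O t)) ∈ Seg M U O s)
    (a4 : M.a (pp U O (t + 1)) ∈ Seg M U O s) {x : Φ}
    (hx : M.R (U ∪ C) (U ∪ C)ᶜ (M.c (pp U O s)) x) : x ∈ Seg M U O s ∪ Seg M U O t := by
  refine hx.ind0 (p := (· ∈ Seg M U O s ∪ Seg M U O t)) (Or.inl (h.cp_seg s))
    (fun z k => k.imp (fun k => (h.seg_step k).1) fun k => (h.seg_step k).1) (fun z hz k => ?_)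
    fun z hz k => ?_
  · by_cases c : z ∈ U
    · rcases k with k | k <;> rcases (h.seg_step k).2.2 c with rfl | rfl
      exacts [Or.inr a1, Or.inr a2, Or.inl a3, Or.inl a4]
    · rw [← show M.sgm C z = M.a z from if_pos (hz.resolve_left c)]
      exact k.imp (fun k => (h.seg_step k).2.1 c) fun k => (h.seg_step k).2.1 c
  · have c : z ∉ U := fun d => hz (Or.inl d)
    rw [← show M.sgm C z = M.c z from if_neg fun d => hz (Or.inr d)]
    exact k.imp (fun k => (h.seg_step k).2.1 c) fun k => (h.seg_step k).2.1 c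

theorem one_vertex : ∀ f ∈ (M.minor U C).S, ∀ g ∈ (M.minor U C).S, g ∈ (M.minor U C).vo f := by
  have k : ∀ f ∈ U, M.R C Cᶜ (O 0) f := fun f hf => gh_fo.1 ((h.turn.face f).2 (h.cov f hf))
  intro f hf g hg
  rw [mem_vo, minor_R h.ok h.eU h.eC.cl hf hg]
  refine (((k f hf).symm h.ok h.eC.cl (h.eC.cl.compl h.ok) (h.turn.mem 0)).trans (k g hg)).mono
    (fun x hx => Or.inr ⟨hx, disjoint_right.1 h.dis hx⟩) fun x hx => ?_
  by_cases c : x ∈ U
  exacts [Or.inl ⟨trivial, c⟩, Or.inr ⟨c, hx⟩]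

theorem few {G : Φ → Prop} {d : ℕ}
    (hG : ((M.sub (U ∪ C)).fo '' {f | f ∈ U ∪ C ∧ ¬ G f}).ncard ≤ d) :
    {f | f ∈ U ∧ M.a ((M.minor U C).b (M.a ((M.minor U C).b f))) = f ∧ ¬ G f}.ncard ≤ 4 * d := by
  classical
  set A := {f | f ∈ U ∧ M.a ((M.minor U C).b (M.a ((M.minor U C).b f))) = f ∧ ¬ G f}
  have fU : U.Finite := h.ok.fin.subset h.eU.1
  have fA : A.Finite := fU.subset fun _ k => k.1
  have hE := h.eU.union h.eC
  have key : fA.toFinset.card ≤ 4 * (fA.toFinset.image (M.sub (U ∪ C)).fo).card := by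
    refine Finset.card_le_mul_card_image _ 4 fun F hF => ?_
    obtain ⟨f, hf, rfl⟩ := Finset.mem_image.1 hF
    obtain ⟨f1, f2, -⟩ : f ∈ A := fA.mem_toFinset.1 hf
    refine (Finset.card_le_card (t := {f, M.a f, (M.minor U C).b f, M.a ((M.minor U C).b f)})
      fun g hg => ?_).trans Finset.card_le_four
    obtain ⟨g1, g2⟩ := Finset.mem_filter.1 hg
    have g1 : g ∈ U := (fA.mem_toFinset.1 g1).1
    have g3 : g ∈ (M.sub (U ∪ C)).fo f := g2 ▸ Cy.orb_self _ _ _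
    rw [mem_fo, sub_R h.ok hE (Or.inl f1) (Or.inl g1)] at g3
    have g4 : (M.minor U C).R univ ∅ f g := by
      rw [minor_R h.ok h.eU h.eC.cl f1 g1]
      refine g3.mono (fun x hx => ?_) fun x hx => Or.inr ?_
      · by_cases c : x ∈ U
        exacts [Or.inl ⟨trivial, c⟩, Or.inr ⟨hx.2.resolve_left c, c⟩]
      · have := hx.resolve_left id
        exact ⟨fun c => this (Or.inl c), fun c => this (Or.inr c)⟩
    have m1 := h.mok.b_mem f1
    have m2 := h.mok.a_mem m1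
    have e : (M.minor U C).b (M.a ((M.minor U C).b f)) = M.a f := by
      conv_rhs => rw [← f2]
      exact (h.mok.aa (h.mok.b_mem m2)).symm
    simp only [Finset.mem_insert, Finset.mem_singleton]
    refine g4.ind0 (p := fun g => g = f ∨ g = M.a f ∨ g = (M.minor U C).b f ∨
      g = M.a ((M.minor U C).b f)) (Or.inl rfl) ?_ ?_ fun _ k => k.elim
    · rintro _ (rfl | rfl | rfl | rfl)
      exacts [Or.inr (Or.inr (Or.inl rfl)), Or.inr (Or.inr (Or.inr (e ▸ h.mok.bb m2))),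
        Or.inl (h.mok.bb f1), Or.inr (Or.inl e)]
    · rintro _ - (rfl | rfl | rfl | rfl)
      exacts [Or.inr (Or.inl rfl), Or.inl (h.mok.aa f1), Or.inr (Or.inr (Or.inr rfl)),
        Or.inr (Or.inr (Or.inl (h.mok.aa m1)))]
  rw [ncard_eq_toFinset_card A fA]
  refine key.trans (Nat.mul_le_mul_left 4 (le_trans ?_ hG))
  rw [← ncard_coe_finset, Finset.coe_image, fA.coe_toFinset]
  exact ncard_le_ncard (image_mono fun f k => ⟨Or.inl k.1, k.2.2⟩)
    (((h.ok.fin.subset hE.1).subset fun _ k => k.1).image _)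

end Dk

/-- `m + 1` consecutive darts whose partners `u` are consecutive -/
structure Run (M : FM Φ) (U C : Set Φ) (O : ℕ → Φ) (L : ℕ) (Z : Set ℕ) (G : Φ → Prop) (m s0 : ℕ)
    (u : ℕ → ℕ) (up : Bool) : Prop where
  lt : s0 + m < L ∧ ∀ J ≤ m, u J < L
  par : ∀ J ≤ m, M.a (pp U O (s0 + J)) = pp U O (u J) ∨
    M.a (pp U O (s0 + J)) = M.c (pp U O (u J))
  up1 : up = true → ∀ J < m, u (J + 1) = u J + 1
  up0 : up = false → ∀ J < m, u J = u (J + 1) + 1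
  sep : (∀ J ≤ m, s0 + m < u J) ∨ ∀ J ≤ m, u J < s0
  good : ∀ J < m, G (M.c (pp U O (s0 + J))) ∧ s0 + J ∉ Z ∧ min (u J) (u (J + 1)) ∉ Z ∧
    M.a (M.c (pp U O (s0 + J))) ∈ Seg M U O (min (u J) (u (J + 1))) ∧
    M.a (pp U O (s0 + J + 1)) ∈ Seg M U O (min (u J) (u (J + 1))) ∧
    ∀ x, M.R (U ∪ C) (U ∪ C)ᶜ (M.c (pp U O (s0 + J))) x →
      x ∈ Seg M U O (s0 + J) ∪ Seg M U O (min (u J) (u (J + 1)))

theorem Dk.run (h : Dk M U C O n) {G : Φ → Prop} {d k z m : ℕ} {Z : Set ℕ} (hk : M.eg ≤ k)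
    (hG : ((M.sub (U ∪ C)).fo '' {f | f ∈ U ∪ C ∧ ¬ G f}).ncard ≤ d)
    (h1' : ∀ f ∈ U, M.a ((M.minor U C).b f) = f → ¬ G f)
    (hZ : Z.Finite) (hz : Z.ncard ≤ z) (m0 : 0 < m)
    (hL : (16 * d + 12 * k + 4 * z + 5) * m ≤ LL U O n) :
    ∃ s0 u up, Run M U C O (LL U O n) Z G m s0 u up := by
  classical
  set L := LL U O n
  set p := pp U O
  set W := M.minor U C
  have fU : U.Finite := h.ok.fin.subset h.eU.1
  let B1 := {f | f ∈ U ∧ M.a (W.b f) ≠ f ∧ M.a (W.b (M.a (W.b f))) ≠ f}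
  let B2 := {f | f ∈ U ∧ M.a (W.b (M.a (W.b f))) = f ∧ ¬ G f}
  let Zf := (fun s => M.c (p s)) '' insert (L - 1) Z ∪ insert (p 0) ((fun s => p (s + 1)) '' Z)
  have c2 : B2.ncard ≤ 4 * d := h.few hG
  have f2 : B2.Finite := fU.subset fun _ k => k.1
  have c1 : B1.ncard ≤ 12 * d + 12 * k := by
    have a := bouqS Φ W h.mok h.one_vertex
    have b : W.eg ≤ k := ((monoS Φ M h.ok).2 U C h.eU h.eC).trans hk
    have c : {f | f ∈ W.S ∧ W.a (W.b f) = f}.ncard ≤ B2.ncard := ncard_le_ncard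
      (fun f k => ⟨k.1, by rw [show M.a (W.b f) = f from k.2]; exact k.2, h1' f k.1 k.2⟩) f2
    have e : B1 = {f | f ∈ W.S ∧ W.a (W.b f) ≠ f ∧ W.a (W.b (W.a (W.b f))) ≠ f} := rfl
    rw [← e] at a
    omega
  have f3 : Zf.Finite := ((hZ.insert _).image _).union ((hZ.image _).insert _)
  have c3 : Zf.ncard ≤ 2 * z + 2 := by
    have a := ncard_union_le ((fun s => M.c (p s)) '' insert (L - 1) Z)
      (insert (p 0) ((fun s => p (s + 1)) '' Z))
    have b := ncard_image_le (f := fun s => M.c (p s)) (hZ.insert (L - 1))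
    have b' := ncard_insert_le (L - 1) Z
    have c := ncard_insert_le (p 0) ((fun s => p (s + 1)) '' Z)
    have c' := ncard_image_le (f := fun s => p (s + 1)) hZ
    change Zf.ncard ≤ _ at a
    omega
  let B := B1 ∪ B2 ∪ (Zf ∪ M.a '' Zf)
  have fB : B.Finite := ((fU.subset fun _ k => k.1).union f2).union (f3.union (f3.image _))
  have cB : B.ncard ≤ 16 * d + 12 * k + 4 * z + 4 := by
    have a := ncard_union_le (B1 ∪ B2) (Zf ∪ M.a '' Zf)
    have b := ncard_union_le B1 B2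
    have c := ncard_union_le Zf (M.a '' Zf)
    have c' := ncard_image_le (f := M.a) f3
    change B.ncard ≤ _ at a
    omega
  obtain ⟨s0, r1, r2⟩ := exists_run (A := {s | s < L ∧ M.c (p s) ∈ B})
    ((finite_lt_nat L).subset fun _ k => k.1)
    ((ncard_le_ncard_of_injOn (fun s => M.c (p s)) (fun _ k => k.2) (fun s a t b e =>
      h.p_inj a.1 b.1 (h.c_inj (h.pS s) (h.pS t) e)) fB).trans cB) m
  replace r1 : s0 + m ≤ L := r1.trans hL
  have r3 : ∀ J < m, M.c (p (s0 + J)) ∉ B := fun J hJ c => r2 J hJ ⟨by omega, c⟩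
  have cor : ∀ s < L, M.c (p s) ∉ B → s + 1 < L ∧ s ∉ Z ∧ G (M.c (p s)) ∧ ∃ t, t + 1 < L ∧ t ∉ Z ∧
      ((M.a (p s) = p t ∧ M.a (p (s + 1)) = p (t + 1)) ∨
        (M.a (p s) = M.c (p (t + 1)) ∧ M.a (p (s + 1)) = M.c (p t))) := by
    intro s hs c
    have z1 : ∀ t < L, M.c (p t) ∉ Zf → t + 1 < L ∧ t ∉ Z := fun t a b =>
      ⟨lt_of_le_of_ne a fun e => b (Or.inl ⟨L - 1, Or.inl rfl, by rw [← e]; rfl⟩),
        fun e => b (Or.inl ⟨t, Or.inr e, rfl⟩)⟩
    obtain ⟨a1, a2⟩ := z1 s hs fun e => c (Or.inr (Or.inl e))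
    have dg : M.a (W.b (M.a (W.b (M.c (p s))))) = M.c (p s) := by
      by_contra e
      exact c (Or.inl (Or.inl ⟨h.cU s, fun e' => e (by rw [e', e']), e⟩))
    have cS := h.ok.c_mem (h.pS s)
    have aU : ∀ x ∈ U, M.a x ∈ U := fun x k => (h.eU.2 x k).1
    have e : W.b (M.a (M.c (p s))) = M.a (p (s + 1)) := by
      rw [← dg, h.mb s]
      have m := aU _ (h.pU (s + 1))
      exact (congrArg W.b (h.mok.aa (h.mok.b_mem m))).trans (h.mok.bb m)
    have nz : M.a (M.c (p s)) ∉ Zf := fun k => c (Or.inr (Or.inr ⟨_, k, h.ok.aa cS⟩))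
    refine ⟨a1, a2, not_not.1 fun g => c (Or.inl (Or.inr ⟨h.cU s, dg, g⟩)), ?_⟩
    obtain ⟨t, ht, k | k⟩ := h.dart (aU _ (h.cU s))
    · obtain ⟨t, rfl⟩ : ∃ t', t = t' + 1 := ⟨t - 1, by
        rcases t with _ | t
        exacts [absurd (Or.inr (Or.inl k)) nz, rfl]⟩
      refine ⟨t, ht, fun g => nz (Or.inr (Or.inr ⟨t, g, k.symm⟩)), Or.inr ⟨?_, ?_⟩⟩
      · rw [← show M.a (M.c (p s)) = p (t + 1) from k, h.ok.comm (h.pS s),
          h.ok.cc (h.ok.a_mem (h.pS s))]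
      · rw [← e, k, h.mb']
    · obtain ⟨b1, b2⟩ := z1 t ht (k ▸ nz)
      refine ⟨t, b1, b2, Or.inl ⟨h.c_inj (h.ok.a_mem (h.pS s)) (h.pS t) ?_, ?_⟩⟩
      · rw [← h.ok.comm (h.pS s)]; exact k
      · rw [← e, k, h.mb]
  choose u u1 u2 using fun J => h.dart (h.eU.2 _ (h.pU (s0 + J))).1
  have st : ∀ J < m, ∃ t, t ∉ Z ∧ ((u J = t ∧ u (J + 1) = t + 1 ∧ M.a (p (s0 + J)) = p t ∧
      M.a (p (s0 + J + 1)) = p (t + 1)) ∨ (u J = t + 1 ∧ u (J + 1) = t ∧
      M.a (p (s0 + J)) = M.c (p (t + 1)) ∧ M.a (p (s0 + J + 1)) = M.c (p t))) := by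
    intro J hJ
    obtain ⟨-, -, -, t, a, b, c⟩ := cor _ (by omega) (r3 J hJ)
    have i1 : ∀ J t, t < L → M.a (p (s0 + J)) = p t → u J = t := fun J t a b =>
      h.p_inj (u1 J) a (((u2 J).resolve_right fun e => h.p_ne _ _ (b.symm.trans e)).symm.trans b)
    have i2 : ∀ J t, t < L → M.a (p (s0 + J)) = M.c (p t) → u J = t := fun J t a b =>
      h.p_inj (u1 J) a (h.c_inj (h.pS _) (h.pS _)
        (((u2 J).resolve_left fun e => h.p_ne _ _ (e.symm.trans b)).symm.trans b))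
    exact ⟨t, b, c.imp (fun c => ⟨i1 _ _ (by omega) c.1, i1 (J + 1) _ a c.2, c⟩)
      fun c => ⟨i2 _ _ a c.1, i2 (J + 1) _ (by omega) c.2, c⟩⟩
  have ty : ∀ J ≤ m, (M.a (p (s0 + J)) = p (u J) ↔ M.a (p (s0 + 0)) = p (u 0)) := by
    intro J
    induction J with
    | zero => exact fun _ => Iff.rfl
    | succ J ih =>
      intro c
      rw [← ih (by omega)]
      obtain ⟨t, -, ⟨a1, a2, a3, a4⟩ | ⟨a1, a2, a3, a4⟩⟩ := st J c
      · exact iff_of_true (a2 ▸ a4) (a1 ▸ a3)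
      · exact iff_of_false (fun e => h.p_ne _ _ (e.symm.trans a4))
          fun e => h.p_ne _ _ (e.symm.trans a3)
  have lt : s0 + m < L := by
    have := (cor _ (by omega) (r3 (m - 1) (by omega))).1
    omega
  have v1 : M.a (p (s0 + 0)) = p (u 0) → ∀ J < m, u (J + 1) = u J + 1 := fun e J hJ => by
    obtain ⟨t, -, ⟨a1, a2, -⟩ | ⟨-, -, a3, -⟩⟩ := st J hJ
    exacts [by omega, absurd (((ty J hJ.le).2 e).symm.trans a3) (h.p_ne _ _)]
  have v0 : M.a (p (s0 + 0)) ≠ p (u 0) → ∀ J < m, u J = u (J + 1) + 1 := fun e J hJ => by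
    obtain ⟨t, -, ⟨a1, -, a3, -⟩ | ⟨a1, a2, -⟩⟩ := st J hJ
    exacts [absurd ((ty J hJ.le).1 (a1 ▸ a3)) e, by omega]
  refine ⟨s0, u, decide (M.a (p (s0 + 0)) = p (u 0)), ⟨lt, fun J _ => u1 J⟩, fun J _ => u2 J,
    fun e => v1 (of_decide_eq_true e), fun e => v0 (of_decide_eq_false e), ?_, fun J hJ => ?_⟩
  · by_cases e : M.a (p (s0 + 0)) = p (u 0)
    · have l : ∀ J ≤ m, u J = u 0 + J := fun J => by
        induction J with
        | zero => exact fun _ => rfl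
        | succ J ih => exact fun c => by have := ih (by omega); have := v1 e J c; omega
      by_contra! c
      obtain ⟨⟨J, c1, c2⟩, J', c3, c4⟩ := c
      have := l J c1
      have := l J' c3
      have ne : s0 ≠ u 0 := fun g => h.ok.a_ne (h.pS s0) (e.trans (congrArg p g.symm))
      rcases le_total s0 (u 0) with g | g
      · obtain ⟨x, hx⟩ := Nat.exists_eq_add_of_le g
        have q := (ty x (by omega)).2 e
        rw [← hx, ← e, h.ok.aa (h.pS _)] at q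
        have := h.p_inj (by omega) (u1 x) q
        have := l x (by omega)
        omega
      · obtain ⟨x, hx⟩ := Nat.exists_eq_add_of_le g
        have q := (ty x (by omega)).2 e
        rw [l x (by omega), ← hx] at q
        have q' : p (s0 + x) = p (u 0) := by
          rw [← e, add_zero, ← q, h.ok.aa (h.pS _)]
        have := h.p_inj (by omega) (u1 0) q'
        omega
    · have l : ∀ J ≤ m, u J + J = u 0 := fun J => by
        induction J with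
        | zero => exact fun _ => rfl
        | succ J ih => exact fun c => by have := ih (by omega); have := v0 e J c; omega
      by_contra! c
      obtain ⟨⟨J, c1, c2⟩, J', c3, c4⟩ := c
      have := l J c1
      have := l J' c3
      have xm : (u 0 - s0) / 2 ≤ m := by omega
      have q := (u2 _).resolve_left fun g => e ((ty _ xm).1 g)
      have := l _ xm
      rcases Nat.mod_two_eq_zero_or_one (u 0 - s0) with g | g
      · rw [show u ((u 0 - s0) / 2) = s0 + (u 0 - s0) / 2 by omega] at q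
        exact h.ok.a_ne_c (h.pS _) q
      · rw [show u ((u 0 - s0) / 2) = s0 + (u 0 - s0) / 2 + 1 by omega] at q
        refine h1' _ (h.cU _) ?_ (cor _ (by omega) (r3 ((u 0 - s0) / 2) (by omega))).2.2.1
        rw [h.mb, ← h.ok.cc (h.pS (_ + 1)), ← q, h.ok.comm (h.ok.a_mem (h.pS _)), h.ok.aa (h.pS _)]
  · obtain ⟨-, b1, b2, -⟩ := cor _ (by omega) (r3 J hJ)
    have sS := h.pS (s0 + J)
    have sS' := h.pS (s0 + J + 1)
    obtain ⟨t, b3, ⟨a1, a2, a3, a4⟩ | ⟨a1, a2, a3, a4⟩⟩ := st J hJ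
    · rw [show min (u J) (u (J + 1)) = t by omega]
      have k1 : M.a (M.c (p (s0 + J))) ∈ Seg M U O t := by
        rw [h.ok.comm sS, a3]; exact h.cp_seg t
      have k2 : M.a (p (s0 + J + 1)) ∈ Seg M U O t := a4 ▸ h.p_seg t
      refine ⟨b2, b1, b3, k1, k2, fun x => h.close k1 k2 ?_ ?_⟩
      · rw [← show M.a (p (s0 + J)) = pp U O t from a3, h.ok.comm (h.ok.a_mem sS), h.ok.aa sS]
        exact h.cp_seg _
      · rw [← show M.a (p (s0 + J + 1)) = pp U O (t + 1) from a4, h.ok.aa sS']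
        exact h.p_seg _
    · rw [show min (u J) (u (J + 1)) = t by omega]
      have k0 : M.a (M.c (p (s0 + J))) = p (t + 1) := by
        rw [h.ok.comm sS, a3, h.ok.cc (h.pS _)]
      have k1 : M.a (M.c (p (s0 + J))) ∈ Seg M U O t := k0 ▸ h.p_seg t
      have k2 : M.a (p (s0 + J + 1)) ∈ Seg M U O t := a4 ▸ h.cp_seg t
      refine ⟨b2, b1, b3, k1, k2, fun x => h.close k1 k2 ?_ ?_⟩
      · rw [← show M.a (p (s0 + J + 1)) = M.c (pp U O t) from a4, h.ok.aa sS']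
        exact h.p_seg _
      · rw [← show M.a (M.c (p (s0 + J))) = pp U O (t + 1) from k0, h.ok.aa (h.ok.c_mem sS)]
        exact h.cp_seg _

end Pool.Agent.MP_9d78a0_co.gm.Nw

end MrgPart1

-- ======== part 2: formerly Pool.Agent.MP_9d78a0_co.gm.RNewB
section MrgPart2

/-! Routing, row NEW: a band is added to a system of bands. -/

set_option autoImplicit false

namespace Pool.Agent.MP_9d78a0_co.gm.Nw

open Set Function

variable {Φ V : Type} {x y bn nb : Bn V} {b b' : ℕ} {ch : Ch V} {M : FM Φ} {vx : Φ → V} {H : Set V}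
  {t μ : ℕ}

/-- band `b` of `x` is band `b'` of `y` -/
structure Ag (x y : Bn V) (b b' : ℕ) : Prop where
  w : x.w = y.w
  col : x.col b = y.col b'
  up : x.up b = y.up b'
  St : x.St b = y.St b'
  Zo : x.Zo b = y.Zo b'

namespace Ag

variable (h : Ag x y b b')
include h

theorem lo (e : Bool) : x.lo b e = y.lo b' e := by simp only [Bn.lo, h.w, h.col]

theorem hi (e : Bool) : x.hi b e = y.hi b' e := by simp only [Bn.hi, h.w, h.col]

theorem segA (e : Bool) : x.segA ch t b e = y.segA ch t b' e := by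
  simp only [Bn.segA, h.lo, h.hi]

theorem tile (j : ℕ) : x.tile ch t b j = y.tile ch t b' j := by
  simp only [Bn.tile, Bn.seg, h.col, h.St, h.Zo]

theorem body : x.body b = y.body b' := by simp only [Bn.body, h.w, h.St, h.Zo]

theorem inner : x.inner b = y.inner b' := by simp only [Bn.inner, h.w, h.St, h.Zo]

theorem par (β : Φ → ZMod 2) (ε : ZMod 2) :
    x.Par ch M vx t β b ε ↔ y.Par ch M vx t β b' ε := by
  simp only [Bn.Par, Bn.disc, h.body, h.segA]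

end Ag

/-- the band `0` of `nb` is added -/
def add (bn nb : Bn V) : Bn V where
  r := bn.r + 1
  w := bn.w
  col b := if b < bn.r then bn.col b else nb.col 0
  up b := if b < bn.r then bn.up b else nb.up 0
  St b := if b < bn.r then bn.St b else nb.St 0
  Zo b := if b < bn.r then bn.Zo b else nb.Zo 0

theorem ag_old (h : b < bn.r) : Ag (add bn nb) bn b b :=
  ⟨rfl, if_pos h, if_pos h, if_pos h, if_pos h⟩

theorem ag_new (h : bn.w = nb.w) : Ag (add bn nb) nb bn.r 0 :=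
  ⟨h, if_neg (lt_irrefl _), if_neg (lt_irrefl _), if_neg (lt_irrefl _), if_neg (lt_irrefl _)⟩

theorem St_body {j : ℕ} (h : j < x.w) : x.St b j ⊆ x.body b := fun _ k => Or.inl ⟨j, h, k⟩

theorem Zo_body {j : ℕ} (h : j + 1 < x.w) : x.Zo b j ⊆ x.body b := fun _ k => Or.inr ⟨j, h, k⟩

theorem add_ok (h : bn.Ok ch M vx H t μ) (h' : nb.Ok ch M vx H t μ) (hw : bn.w = nb.w)
    (hr : nb.r = 1)
    (gap : ∀ b < bn.r, ∀ e e', bn.hi b e + 1 < nb.lo 0 e' ∨ nb.hi 0 e' + 1 < bn.lo b e)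
    (dis : ∀ b < bn.r, Disjoint (bn.body b) (nb.body 0)) {β : Φ → ZMod 2} (hβ : M.Adm vx H β)
    (p1 : nb.Par ch M vx t β 0 1) (p0 : ∀ b < bn.r, bn.Par ch M vx t β b 0) :
    (add bn nb).Ok ch M vx H t μ := by
  have z : 0 < nb.r := by omega
  have cs : ∀ b < (add bn nb).r, (b < bn.r ∧ Ag (add bn nb) bn b b) ∨
      (b = bn.r ∧ Ag (add bn nb) nb b 0) := fun b hb =>
    (Nat.lt_succ_iff_lt_or_eq.1 hb).imp (fun k => ⟨k, ag_old k⟩) fun k => ⟨k, k ▸ ag_new hw⟩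
  have one : ∀ b < (add bn nb).r, ∃ (y : Bn V) (b' : ℕ), y.Ok ch M vx H t μ ∧ b' < y.r ∧
      Ag (add bn nb) y b b' := fun b hb =>
    (cs b hb).elim (fun k => ⟨bn, b, h, k⟩) fun k => ⟨nb, 0, h', z, k.2⟩
  refine ⟨h.two, fun b hb => ?_, fun b hb => ?_, fun b hb => ?_, fun b hb e b' hb' e' n => ?_,
    fun b hb => ?_, fun b hb j hj b' hb' j' hj' n => ?_, fun b hb j hj b' hb' j' hj' => ?_,
    fun b hb j hj b' hb' j' hj' n => ?_, fun b hb => ?_, fun b hb => ?_, fun γ hγ b hb => ?_,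
    fun b hb => ?_⟩
  · obtain ⟨y, b', k, l, a⟩ := one b hb
    simpa only [a.w, a.col] using k.mo0 b' l
  · obtain ⟨y, b', k, l, a⟩ := one b hb
    simpa only [a.w, a.col, a.up] using k.mo1 b' l
  · obtain ⟨y, b', k, l, a⟩ := one b hb
    simpa only [a.w, a.col] using k.cen b' l
  · rcases cs b hb with ⟨k, a⟩ | ⟨k, a⟩ <;> rcases cs b' hb' with ⟨k', a'⟩ | ⟨k', a'⟩ <;>
      rw [a.lo, a.hi, a'.lo, a'.hi]
    exacts [h.gap b k e b' k' e' n, gap b k e e', (gap b' k' e' e).symm,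
      h'.gap 0 z e 0 z e' fun c => n (by rw [k, k', (Prod.mk.inj c).2])]
  · obtain ⟨y, b', k, l, a⟩ := one b hb
    exact a.body ▸ k.sub b' l
  · rcases cs b hb with ⟨k, a⟩ | ⟨k, a⟩ <;> rcases cs b' hb' with ⟨k', a'⟩ | ⟨k', a'⟩ <;>
      rw [a.St, a'.St]
    exacts [h.dss b k j hj b' k' j' hj' n, (dis b k).mono (St_body hj) (St_body (hw ▸ hj')),
      (dis b' k').symm.mono (St_body (hw ▸ hj)) (St_body hj'),
      h'.dss 0 z j (hw ▸ hj) 0 z j' (hw ▸ hj') fun c => n (by rw [k, k', (Prod.mk.inj c).2])]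
  · rcases cs b hb with ⟨k, a⟩ | ⟨k, a⟩ <;> rcases cs b' hb' with ⟨k', a'⟩ | ⟨k', a'⟩ <;>
      rw [a.St, a'.Zo]
    exacts [h.dsz b k j hj b' k' j' hj', (dis b k).mono (St_body hj) (Zo_body (hw ▸ hj')),
      (dis b' k').symm.mono (St_body (hw ▸ hj)) (Zo_body hj'),
      h'.dsz 0 z j (hw ▸ hj) 0 z j' (hw ▸ hj')]
  · rcases cs b hb with ⟨k, a⟩ | ⟨k, a⟩ <;> rcases cs b' hb' with ⟨k', a'⟩ | ⟨k', a'⟩ <;>
      rw [a.Zo, a'.Zo]
    exacts [h.dzz b k j hj b' k' j' hj' n, (dis b k).mono (Zo_body hj) (Zo_body (hw ▸ hj')),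
      (dis b' k').symm.mono (Zo_body (hw ▸ hj)) (Zo_body hj'),
      h'.dzz 0 z j (hw ▸ hj) 0 z j' (hw ▸ hj') fun c => n (by rw [k, k', (Prod.mk.inj c).2])]
  · obtain ⟨y, b', k, l, a⟩ := one b hb
    simpa only [a.w, a.col, a.St] using k.conn b' l
  · obtain ⟨y, b', k, l, a⟩ := one b hb
    simpa only [a.w, a.inner, a.lo, a.hi, a.tile] using k.face b' l
  · obtain ⟨y, b', k, l, a⟩ := one b hb
    simpa only [a.par] using k.par γ hγ b' l
  · rcases cs b hb with ⟨k, a⟩ | ⟨k, a⟩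
    · obtain ⟨γ, a1, a2, a3⟩ := h.tri b k
      exact ⟨γ, a1, (a.par _ _).2 a2, fun b' l => ((ag_old (l.trans k)).par _ _).2 (a3 b' l)⟩
    · exact ⟨β, hβ, (a.par _ _).2 p1, fun b' l => ((ag_old (k ▸ l)).par _ _).2 (p0 b' (k ▸ l))⟩

theorem mono_le {f : ℕ → ℕ} {w : ℕ} (h : ∀ j, j + 1 < w → f j < f (j + 1)) {i j : ℕ} (hij : i ≤ j)
    (hj : j < w) : f i ≤ f j := by
  induction hij with
  | refl => exact le_rfl
  | step _ ih => exact (ih (by omega)).trans (h _ hj).le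

theorem anti_le {f : ℕ → ℕ} {w : ℕ} (h : ∀ j, j + 1 < w → f (j + 1) < f j) {i j : ℕ} (hij : i ≤ j)
    (hj : j < w) : f j ≤ f i := by
  induction hij with
  | refl => exact le_rfl
  | step _ ih => exact (h _ hj).le.trans (ih (by omega))

theorem col_btw (h : bn.Ok ch M vx H t μ) (hb : b < bn.r) (e : Bool) {j : ℕ} (hj : j < bn.w) :
    bn.lo b e ≤ bn.col b e j ∧ bn.col b e j ≤ bn.hi b e := by
  have k : (∀ j, j + 1 < bn.w → bn.col b e j < bn.col b e (j + 1)) ∨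
      ∀ j, j + 1 < bn.w → bn.col b e (j + 1) < bn.col b e j := by
    cases e
    · exact Or.inl (h.mo0 b hb)
    · cases u : bn.up b
      exacts [Or.inr fun j c => (h.mo1 b hb j c).2 u, Or.inl fun j c => (h.mo1 b hb j c).1 u]
  unfold Bn.lo Bn.hi
  rcases k with k | k
  · have := mono_le k (Nat.zero_le j) hj
    have := mono_le k (show j ≤ bn.w - 1 by omega) (by omega)
    omega
  · have := anti_le k (Nat.zero_le j) hj
    have := anti_le k (show j ≤ bn.w - 1 by omega) (by omega)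
    omega

end Pool.Agent.MP_9d78a0_co.gm.Nw

end MrgPart2

-- ======== part 3: formerly Pool.Agent.MP_9d78a0_co.gm.RNewC
section MrgPart3

/-! Routing, row NEW: columns of darts and regions between parallel ears. -/

set_option autoImplicit false

namespace Pool.Agent.MP_9d78a0_co.gm.Nw

open Set Function FM

variable {Φ V ι : Type}

/-- ears that hang on the core, each with one edge `dd` off the comb -/
structure Ears (M : FM Φ) (vx : Φ → V) (H : Set V) (ch : Ch V) (bn : Bn V) (t μ : ℕ)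
    (EV : ι → Set V) (c : ι × Bool → ℕ) (dd : ι × Bool → Φ) (K : Set V) (rt : V → ℕ)
    (U C : Set Φ) (O : ℕ → Φ) (n : ℕ) : Prop where
  hm : M.Hm vx H
  le : ∀ v ∈ ch.Ω, ch.x v % 2 = ch.y v % 2
  tm : t < μ ∧ 2 * μ < ch.s
  ord : ch.Ord M vx t μ K rt C O n
  dk : Dk M U C O n
  core : M.ind vx (ch.core t) ⊆ C
  K_eq : ∀ v, v ∈ K ↔ ∃ i, v ∈ EV i
  rt_eq : ∀ i, ∀ v ∈ EV i, rt v = c (i, false)
  sub : ∀ i, EV i ⊆ M.tv vx H \ bn.prot ch t
  inj : Injective c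
  free : ∀ q, bn.free ch μ (c q)
  U_eq : ∀ x, x ∈ U ↔ ∃ q, x = dd q ∨ x = M.c (dd q)
  dda : ∀ i δ, M.a (dd (i, δ)) = dd (i, !δ)
  ddv : ∀ q, dd q ∈ M.S ∧ vx (dd q) ∈ ch.colm t K rt (c q)
  conn : ∀ i, Conn (M.gph vx) (EV i) ∧ ∀ δ, fb.Touch (M.gph vx) (EV i) (ch.cell t (c (i, δ)))

open Classical in
/-- the column of a vertex -/
noncomputable def cO (ch : Ch V) (K : Set V) (rt : V → ℕ) (v : V) : ℕ :=
  if v ∈ K then rt v else ch.y v / 2

variable {M : FM Φ} {vx : Φ → V} {H : Set V} {ch : Ch V} {bn : Bn V} {t μ : ℕ} {EV : ι → Set V}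
  {c : ι × Bool → ℕ} {dd : ι × Bool → Φ} {K : Set V} {rt : V → ℕ} {U C : Set Φ} {O : ℕ → Φ} {n : ℕ}

theorem cell_core (h : t < μ ∧ 2 * μ < ch.s) {d : ℕ} (hd : ch.cen μ d) :
    ch.cell t d ⊆ ch.core t := fun v k => by
  obtain ⟨a, b, b', e, e'⟩ := k
  obtain ⟨d1, d2⟩ := hd
  exact ⟨a, b, by omega, by omega, by omega⟩

theorem pot_R (hM : M.Ok) (hl : M.Lbl vx) {β χ : Φ → ZMod 2} {ψ : V → ZMod 2} {f x y : Φ}
    (hf : f ∈ M.S) (h1 : Pot (M.reg (U ∪ C) f) M.a β χ) (h2 : Pot (M.reg (U ∪ C) f) M.b 0 χ)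
    (h3 : Pot (M.reg (U ∪ C) f \ (U ∪ C)) M.c 0 χ) (hψ : M.Pt vx β ψ C)
    (hx : x ∈ M.reg (U ∪ C) f) (h : M.R (C \ U) (Uᶜ \ C) x y) :
    χ y + ψ (vx y) = χ x + ψ (vx x) := by
  refine (h.ind (p := fun z => z ∈ M.reg (U ∪ C) f ∧ χ z + ψ (vx z) = χ x + ψ (vx x)) hM
    ((mem_reg.1 hx).mem hM hf) ⟨hx, rfl⟩ (fun z hz k => ⟨mem_reg.2 (mem_reg.1 k.1).b, ?_⟩)
    (fun z _ d k => ⟨mem_reg.2 ((mem_reg.1 k.1).a trivial), ?_⟩) fun z hz d k => ?_).2
  · rw [h2 z k.1, hl.b hM hz, Pi.zero_apply, add_zero, k.2]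
  · rw [h1 z k.1, hψ z d.1, ← k.2]
    exact (by decide : ∀ a b e : ZMod 2, a + (b + e) + e = a + b) _ _ _
  · have m : z ∉ U ∪ C := fun e => e.elim d.1 d.2
    exact ⟨mem_reg.2 ((mem_reg.1 k.1).c m), by
      rw [h3 z ⟨k.1, m⟩, hl.c hM hz, Pi.zero_apply, add_zero, k.2]⟩

namespace Ears

variable (h : Ears M vx H ch bn t μ EV c dd K rt U C O n)
include h

theorem ok : M.Ok := h.hm.ok

theorem Kc {v : V} (hv : v ∈ K) : v ∉ ch.core t :=
  let ⟨i, k⟩ := (h.K_eq v).1 hv; fun e => (h.sub i k).2 (Or.inl e)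

theorem cO_eq {v : V} {d : ℕ} (hd : ch.cen μ d) (hv : v ∈ ch.colm t K rt d) : cO ch K rt v = d := by
  rcases hv with k | k
  · rw [cO, if_neg fun e => h.Kc e (cell_core h.tm hd k)]
    obtain ⟨-, -, -, a, b⟩ := k
    omega
  · rw [cO, if_pos k.1, k.2]

theorem colm_sub {d : ℕ} (hd : ch.cen μ d) : ch.colm t K rt d ⊆ K ∪ ch.core t := fun _ k =>
  k.elim (fun k => Or.inr (cell_core h.tm hd k)) fun k => Or.inl k.1

theorem dv {q : ι × Bool} {x : Φ} (e : x = dd q ∨ x = M.c (dd q)) :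
    vx x ∈ ch.colm t K rt (c q) := by
  rcases e with rfl | rfl
  exacts [(h.ddv q).2, (h.hm.lbl.c h.ok (h.ddv q).1).symm ▸ (h.ddv q).2]

theorem d_uniq {q q' : ι × Bool} {x : Φ} (e : x = dd q ∨ x = M.c (dd q))
    (e' : x = dd q' ∨ x = M.c (dd q')) : q = q' :=
  h.inj ((h.cO_eq (h.free q).1 (h.dv e)).symm.trans (h.cO_eq (h.free q').1 (h.dv e')))

theorem vE {x : Φ} (hx : x ∈ U ∪ C) : vx x ∈ K ∪ ch.core t := by
  rcases hx with k | k
  · obtain ⟨q, e⟩ := (h.U_eq x).1 k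
    exact h.colm_sub (h.free q).1 (h.dv e)
  · exact h.ord.vtx ▸ mem_image_of_mem vx k

theorem esE : M.Es (U ∪ C) := h.dk.eU.union h.dk.eC

theorem sat {x : Φ} (hx : x ∈ M.S) (hv : vx x ∈ K ∪ ch.core t) : ∃ y ∈ C, x ∈ M.vo y := by
  obtain ⟨y, a, b⟩ : vx x ∈ vx '' C := h.ord.vtx ▸ hv
  exact ⟨y, a, (h.hm.lbl y (h.dk.eC.1 a) x hx).1 b⟩

theorem conE : (M.sub (U ∪ C)).Con := by
  have k : ∀ x ∈ U ∪ C, ∃ y ∈ C, M.R (U ∪ C) univ y x := fun x hx =>
    let ⟨y, a, b⟩ := h.sat (h.esE.1 hx) (h.vE hx)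
    ⟨y, a, (mem_vo.1 b).mono (empty_subset _) subset_rfl⟩
  intro f hf g hg
  obtain ⟨x, a, b⟩ := k f hf
  obtain ⟨y, a', b'⟩ := k g hg
  have := h.ord.con x a y a'
  rw [mem_co, sub_R h.ok h.dk.eC a a'] at this
  rw [mem_co, sub_R h.ok h.esE hf hg]
  exact (((b.symm h.ok h.esE.cl cl_univ (h.dk.eC.1 a)).trans
    (this.mono (fun _ k => Or.inr k.2) (subset_univ _))).trans b').mono
    (fun _ k => ⟨trivial, k⟩) fun _ _ => Or.inl trivial

/-- the flags at a vertex off the comb lie in one region -/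
theorem vo_reg {f x y : Φ} (hf : f ∈ M.S) (hx : x ∈ M.reg (U ∪ C) f) (hy : y ∈ M.S)
    (e : vx x = vx y) (hv : vx x ∉ K ∪ ch.core t) : y ∈ M.reg (U ∪ C) f := by
  have xS := (mem_reg.1 hx).mem h.ok hf
  exact Relation.ReflTransGen.trans hx (Gph.vo_reg
    (fun z k m => hv (h.hm.lbl.of_vo h.ok xS k ▸ h.vE m)) ((h.hm.lbl x xS y hy).1 e))

theorem exI (s : ℕ) : ∃ q, pp U O s = dd q ∨ pp U O s = M.c (dd q) := (h.U_eq _).1 (h.dk.pU s)

/-- the ear and the end of a dart -/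
noncomputable def I (s : ℕ) : ι × Bool := (h.exI s).choose

theorem I_spec (s : ℕ) : pp U O s = dd (h.I s) ∨ pp U O s = M.c (dd (h.I s)) :=
  (h.exI s).choose_spec

theorem pv (s : ℕ) : vx (O (ix U O s)) ∈ ch.colm t K rt (c (h.I s)) := h.dv (h.I_spec s)

theorem exs (q : ι × Bool) : ∃ s < LL U O n, h.I s = q := by
  obtain ⟨s, a, b⟩ := h.dk.dart ((h.U_eq _).2 ⟨q, Or.inl rfl⟩)
  refine ⟨s, a, h.d_uniq (h.I_spec s) (b.imp Eq.symm fun b => ?_)⟩
  rw [b, h.ok.cc (h.dk.pS s)]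

theorem col_lt {s s' : ℕ} (h1 : s < s') (h2 : s' < LL U O n) : c (h.I s) < c (h.I s') := by
  have a := h.dk.lt_iff.1 h2
  have b := h.dk.mono h1
  rcases lt_trichotomy (c (h.I s)) (c (h.I s')) with k | k | k
  · exact k
  · exfalso
    have e := h.inj k
    have S := (h.ddv (h.I s)).1
    rcases h.I_spec s with k1 | k1 <;> rcases e ▸ h.I_spec s' with k2 | k2
    · exact h1.ne (h.dk.p_inj (h1.trans h2) h2 (k1.trans k2.symm))
    · exact h.dk.p_ne s' s (k2.trans (congrArg M.c k1.symm))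
    · exact h.dk.p_ne s s' (k1.trans (congrArg M.c k2.symm))
    · exact h1.ne (h.dk.p_inj (h1.trans h2) h2 (k1.trans k2.symm))
  · exact absurd (h.ord.mono _ a _ (b.trans a) _ _ (h.free _).1 (h.free _).1 (h.pv s') (h.pv s) k)
      (not_lt.2 b.le)

theorem col_le {s s' : ℕ} (h1 : s ≤ s') (h2 : s' < LL U O n) : c (h.I s) ≤ c (h.I s') :=
  h1.eq_or_lt.elim (fun e => e ▸ le_rfl) fun e => (h.col_lt e h2).le

theorem le_col {s s' : ℕ} (h2 : s < LL U O n) (h1 : c (h.I s) ≤ c (h.I s')) : s ≤ s' :=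
  not_lt.1 fun k => absurd (h.col_lt k h2) (not_lt.2 h1)

theorem seg_v {s : ℕ} (hs : s + 1 < LL U O n) {x : Φ} (hx : x ∈ Seg M U O s) :
    ∃ d, ch.cen μ d ∧ c (h.I s) ≤ d ∧ d ≤ c (h.I (s + 1)) ∧ vx x ∈ ch.colm t K rt d := by
  obtain ⟨i, a, b, e⟩ := hx
  have e' : vx x = vx (O i) := by
    rcases e with rfl | rfl
    exacts [rfl, h.hm.lbl.b h.ok (h.dk.turn.mem i)]
  have l := h.dk.lt_iff.1 hs
  rw [e']
  rcases b.eq_or_lt with rfl | b
  · exact ⟨_, (h.free _).1, h.col_le (Nat.le_succ s) hs, le_rfl, h.pv _⟩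
  obtain ⟨d, k1, k2⟩ := h.ord.btw _ _ _ _ _ a b l (h.free _).1 (h.free _).1 (h.pv s) (h.pv (s + 1))
  exact ⟨d, k1, not_lt.1 fun g => absurd (h.ord.mono i (by omega) _ (by omega) _ _ k1 (h.free _).1 k2
    (h.pv s) g) (by omega), not_lt.1 fun g => absurd (h.ord.mono _ l i (by omega) _ _ (h.free _).1 k1
    (h.pv (s + 1)) k2 g) (by omega), k2⟩

theorem seg_K {s : ℕ} (hs : s + 1 < LL U O n) {x : Φ} (hx : x ∈ Seg M U O s) (hK : vx x ∈ K) :
    vx x ∈ EV (h.I s).1 ∪ EV (h.I (s + 1)).1 := by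
  obtain ⟨d, k1, k2, k3, k4⟩ := h.seg_v hs hx
  obtain ⟨i, hi⟩ := (h.K_eq _).1 hK
  obtain ⟨r, a, b⟩ := h.exs (i, false)
  have e : c (h.I r) = d := by
    rw [b, ← h.rt_eq i _ hi, ← h.cO_eq k1 k4, cO, if_pos hK]
  have := h.le_col (by omega) (e ▸ k2)
  have := h.le_col a (e ▸ k3)
  obtain rfl | rfl : r = s ∨ r = s + 1 := by omega
  exacts [Or.inl (b ▸ hi), Or.inr (b ▸ hi)]

theorem seg_btw {s s' d : ℕ} (hs : s < LL U O n) (hs' : s' < LL U O n) (hd : ch.cen μ d)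
    (h1 : c (h.I s) < d) (h2 : d < c (h.I s')) {f : Φ} (hf : f ∈ M.S)
    (hv : vx f ∈ ch.colm t K rt d) :
    (∀ g ∈ M.fo f, vx g ∈ ch.core t) ∨ ∃ r, s ≤ r ∧ r < s' ∧ f ∈ Seg M U O r := by
  refine (h.ord.cover f hf (h.colm_sub hd hv)).symm.imp (·.2) fun ⟨i, a, e1⟩ => ?_
  have e' : vx (O i) ∈ ch.colm t K rt d := by
    rcases e1 with rfl | rfl
    exacts [hv, h.hm.lbl.b h.ok (h.dk.turn.mem i) ▸ hv]
  obtain ⟨r, b1, b2, b3, b4⟩ := h.dk.seg_of
    (h.ord.mono _ (h.dk.lt_iff.1 hs) i a _ _ (h.free _).1 hd (h.pv s) e' h1)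
    (h.ord.mono i a _ (h.dk.lt_iff.1 hs') _ _ hd (h.free _).1 e' (h.pv s') h2).le
  exact ⟨r, b1, b2, i, b3, b4, e1⟩

theorem I_par {s s' : ℕ}
    (e : M.a (pp U O s) = pp U O s' ∨ M.a (pp U O s) = M.c (pp U O s')) :
    h.I s' = ((h.I s).1, !(h.I s).2) := by
  refine h.d_uniq (h.I_spec s') ?_
  rw [← h.dda]
  have S := (h.ddv (h.I s)).1
  rcases h.I_spec s with k | k <;> rw [k] at e <;> rcases e with e | e
  · exact Or.inl e.symm
  · exact Or.inr (by rw [e, h.ok.cc (h.dk.pS _)])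
  · exact Or.inr (by rw [← e, h.ok.comm S])
  · exact Or.inl (h.dk.c_inj (h.dk.pS _) (h.ok.a_mem S) (by rw [← e, h.ok.comm S]))

/-- corners whose columns are separated by an old band -/
def Zb : Set ℕ := {s | s + 1 < LL U O n ∧
  ∃ b < bn.r, ∃ e, c (h.I s) < bn.lo b e ∧ bn.lo b e < c (h.I (s + 1))}

theorem Zb_card : h.Zb.Finite ∧ h.Zb.ncard ≤ 2 * bn.r := by
  refine ⟨(finite_lt_nat (LL U O n)).subset fun s k => Nat.lt_of_succ_lt k.1, ?_⟩
  have : ∀ s, ∃ z : ℕ × Bool, s ∈ h.Zb →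
      z.1 < bn.r ∧ c (h.I s) < bn.lo z.1 z.2 ∧ bn.lo z.1 z.2 < c (h.I (s + 1)) := fun s => by
    by_cases k : s ∈ h.Zb
    · obtain ⟨-, b, a, e, d⟩ := k
      exact ⟨(b, e), fun _ => ⟨a, d⟩⟩
    · exact ⟨(0, true), fun d => absurd d k⟩
  choose z hz using this
  refine (ncard_le_ncard_of_injOn z (t := Iio bn.r ×ˢ univ) (fun s k => ⟨(hz s k).1, trivial⟩)
    (fun s k s' k' e => ?_) ((finite_Iio _).prod finite_univ)).trans_eq ?_
  · obtain ⟨-, a, b⟩ := hz s k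
    obtain ⟨-, a', b'⟩ := hz s' k'
    rw [← e] at a' b'
    rcases lt_trichotomy s s' with g | g | g
    · have := h.col_le (show s + 1 ≤ s' from g) (Nat.lt_of_succ_lt k'.1)
      omega
    · exact g
    · have := h.col_le (show s' + 1 ≤ s from g) (Nat.lt_of_succ_lt k.1)
      omega
  · rw [ncard_prod, ncard_univ, ← Finset.coe_Iio, ncard_coe_finset, Nat.card_Iio,
      Nat.card_eq_fintype_card, Fintype.card_bool, mul_comm]

theorem nZ (hb : bn.Ok ch M vx H t μ) {s : ℕ} (hs : s + 1 < LL U O n) (hz : s ∉ h.Zb) {b : ℕ}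
    (k : b < bn.r) (e : Bool) : c (h.I (s + 1)) < bn.lo b e ∨ bn.hi b e < c (h.I s) := by
  have a := (h.free (h.I s)).2 b k e
  have a' := (h.free (h.I (s + 1))).2 b k e
  have := col_btw hb k e (show 0 < bn.w by have := hb.two; omega)
  by_contra! g
  exact hz ⟨hs, b, k, e, by omega, by omega⟩

/-- a region whose vertices in the core are under no old band misses the old bands -/
theorem old (hb : bn.Ok ch M vx H t μ) {f : Φ} (hf : f ∈ M.S) {b : ℕ} (k : b < bn.r)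
    (h1 : ∀ g ∈ M.reg (U ∪ C) f, ∀ e, vx g ∉ bn.segA ch t b e) :
    ∀ g ∈ M.reg (U ∪ C) f, vx g ∉ bn.body b := by
  have off : ∀ v ∈ bn.body b, v ∉ K ∪ ch.core t := by
    rintro v hv (m | m)
    · obtain ⟨i, m⟩ := (h.K_eq v).1 m
      exact (h.sub i m).2 (Or.inr ⟨b, k, hv⟩)
    · exact (hb.sub b k hv).2 m
  have s1 : ∀ g ∈ M.reg (U ∪ C) f, ∀ j < bn.w, vx g ∉ bn.St b j := by
    intro g hg j hj m
    obtain ⟨a1, a2⟩ := hb.conn b k j hj
    obtain ⟨u, hu, u', hu', -, x, xS, e⟩ := a2 false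
    obtain ⟨x, xS, rfl, rfl⟩ : ∃ x ∈ M.S, vx x = u ∧ vx (M.a x) = u' :=
      e.elim (⟨x, xS, ·⟩) fun e => ⟨M.a x, h.ok.a_mem xS, e.2, by rw [h.ok.aa xS, e.1]⟩
    have := (gphS orbS minorS Φ V M vx h.ok h.hm.lbl).2.2.2.2 _ h.esE (bn.St b j)
      (disjoint_left.2 (by rintro _ a ⟨y, b', rfl⟩; exact off _ (St_body hj a) (h.vE b'))) g
      ((mem_reg.1 hg).mem h.ok hf) x xS m (a1.2 _ m _ hu)
    refine h1 (M.a x) (mem_reg.2 (((mem_reg.1 hg).trans (mem_reg.1 this)).a trivial)) false ?_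
    obtain ⟨c1, c2, c3, c4, c5⟩ := hu'
    have := col_btw hb k false hj
    exact ⟨c1, c2, c3, by omega, by omega⟩
  rintro g hg (⟨j, hj, m⟩ | m)
  · exact s1 g hg j hj m
  have gS := (mem_reg.1 hg).mem h.ok hf
  obtain ⟨y, hy⟩ := h.dk.ne
  obtain ⟨j, hj, m'⟩ := ((mem_co.1 (h.hm.con g gS y (h.dk.eU.1 hy))).ind
    (p := fun z => z ∈ M.reg (U ∪ C) f ∧ ∃ j, j + 1 < bn.w ∧ vx z ∈ bn.Zo b j) h.ok gS ⟨hg, m⟩
    (fun z hz a => ⟨mem_reg.2 (mem_reg.1 a.1).b, (h.hm.lbl.b h.ok hz).symm ▸ a.2⟩)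
    (fun z hz _ a => by
      have r : M.a z ∈ M.reg (U ∪ C) f := mem_reg.2 ((mem_reg.1 a.1).a trivial)
      refine ⟨r, ?_⟩
      rcases hb.face b k z hz (Or.inl (Or.inr a.2)) with d | ⟨j, hj, d⟩
      · exact absurd (Or.inr (d z (Cy.orb_self _ _ _))) (off _ (Or.inr a.2))
      have sg : ∀ e, vx (M.a z) ∉ bn.seg ch t b e j := fun e d => h1 _ r e (by
        obtain ⟨c1, c2, c3, c4, c5⟩ := d
        have := col_btw hb k e hj
        have := col_btw hb k e (show j < bn.w by omega)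
        exact ⟨c1, c2, c3, by omega, by omega⟩)
      rcases d (M.a z) (Cy.orb_p (Cy.orb_self _ _ _)) with (((d | d) | d) | d) | d
      exacts [absurd d (s1 _ r j (by omega)), absurd d (s1 _ r _ hj), ⟨j, hj, d⟩, absurd d (sg _),
        absurd d (sg _)])
    fun z hz _ a => ⟨mem_reg.2 ((mem_reg.1 a.1).c fun d => off _ (Or.inr a.2) (h.vE d)),
      (h.hm.lbl.c h.ok hz).symm ▸ a.2⟩).2
  exact off _ (Zo_body hj m') (h.vE (Or.inl hy))

end Ears

end Pool.Agent.MP_9d78a0_co.gm.Nw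

end MrgPart3

-- marker of a merged file
example : 731051 + 12835 = 731051 + 12835 := rfl
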