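import Pool.Agent.MP_9d78a0_co.gm.RWordC
import Pool.Agent.MP_9d78a0_co.gm.OpMerge
import Pool.Agent.MP_9d78a0_co.gm.SpecM
import Pool.Agent.MP_9d78a0_co.gm.RNewC

-- ======== part 0: formerly Pool.Agent.MP_9d78a0_co.gm.R0c
section MrgPart0

/-! Routing: adding bridges, spanning forests relative to a set of edges. -/

set_option autoImplicit false

namespace Pool.Agent.MP_9d78a0_co.gm

open Set Function Relation FM

namespace R0c

variable {Φ V : Type} {M : FM Φ} {vx : Φ → V} {C C' : Set Φ}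

/-- a step along an edge of `C`, read on the vertices -/
def St (M : FM Φ) (vx : Φ → V) (C : Set Φ) (u v : V) : Prop := ∃ x ∈ C, vx x = u ∧ vx (M.a x) = v

theorem st_iff (h : M.Ok) (hl : M.Lbl vx) (hC : M.Es C) {f g : Φ} (hf : f ∈ M.S) (hg : g ∈ M.S) :
    ReflTransGen (CSpan.St M C) f g ↔ vx g ∈ cl (St M vx C) (vx f) := by
  rw [← CSpan.co_iff, gh_empty]
  exact spn_co h hl hC hf hg

theorem st_sy (h : M.Ok) (hC : M.Es C) : Sy univ (St M vx C) := by
  rintro _ - _ ⟨x, hx, rfl, rfl⟩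
  exact ⟨trivial, M.a x, (hC.2 x hx).1, rfl, by rw [h.gk.aa (hC.1 hx)]⟩

theorem el_iff {u v : V} : M.EL vx C univ u v ↔ v ∈ cl (St M vx C) u :=
  ⟨ReflTransGen.mono (fun _ _ e => e.2.2) _ _,
    ReflTransGen.mono (fun _ _ e => ⟨trivial, trivial, e⟩) _ _⟩

theorem st_mono (k : C ⊆ C') (u : V) : cl (St M vx C) u ⊆ cl (St M vx C') u := fun _ =>
  ReflTransGen.mono (fun _ _ ⟨x, hx, e⟩ => ⟨x, k hx, e⟩) _ _

theorem brIn_anti (k : C ⊆ C') {e : Φ} (q : M.BrIn C' e) : M.BrIn C e := fun m =>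
  q (ReflTransGen.mono (fun _ _ t => t.imp_right (Or.imp_right fun t =>
    ⟨⟨k t.1.1, t.1.2⟩, t.2⟩)) _ _ m)

theorem lt_diff (h : M.Ok) (hC' : M.Es C') {e : Φ} (he : e ∈ C' \ C) :
    ((C' \ M.eo e) \ C).ncard < (C' \ C).ncard :=
  ncard_lt_ncard ⟨fun _ k => ⟨k.1.1, k.2⟩, fun k => (k he).1.2 (cl_self M.rE e)⟩
    (h.fin.subset fun _ k => hC'.1 k.1)

theorem sub_diff (h : M.Ok) (hC : M.Es C) (hC' : M.Es C') (k : C ⊆ C') {e : Φ}
    (he : e ∈ C' \ C) : C ⊆ C' \ M.eo e :=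
  fun _ q => ⟨k q, fun m => ((h.gk.es_diff hC' hC).eo_sub he m).2 q⟩

theorem pot (h : M.Ok) (hl : M.Lbl vx) (hC : M.Es C) {β : Φ → ZMod 2} {ψ : V → ZMod 2}
    (hβ : M.Ech β) (hc : (M.sub C).Con) (hψ : M.Pt vx β ψ C) (hC' : M.Es C') (k : C ⊆ C')
    (br : ∀ e ∈ C' \ C, M.BrIn C' e) :
    ∃ ψ', M.Pt vx β ψ' C' ∧ ∀ f ∈ C, ψ' (vx f) = ψ (vx f) := by
  classical
  induction' hn : (C' \ C).ncard using Nat.strong_induction_on with n ih generalizing C'
  rcases (C' \ C).eq_empty_or_nonempty with z | ⟨e, he⟩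
  · exact ⟨ψ, fun f hf => hψ f (sdiff_eq_empty.1 z hf), fun _ _ => rfl⟩
  have eS := hC'.1 he.1
  have hD := h.gk.es_diff hC' (h.gk.es_eo eS)
  have sub := sub_diff h hC hC' k he
  obtain ⟨φ, p1, p2⟩ := ih _ (hn ▸ lt_diff h hC' he) hD sub
    (fun x hx => brIn_anti sdiff_subset (br x ⟨hx.1.1, hx.2⟩)) rfl
  have sy : Sy univ (St M vx (C' \ M.eo e)) := st_sy h hD
  have nb : vx (M.a e) ∉ cl (St M vx (C' \ M.eo e)) (vx e) := fun m =>
    br e he ((st_iff h hl hD eS (h.gk.am eS)).2 m)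
  have cc : ∀ f ∈ C, ∀ g ∈ C, vx g ∈ cl (St M vx (C' \ M.eo e)) (vx f) := fun f hf g hg => by
    have := hc f hf g hg
    rw [sub_co h.gk hC hf] at this
    exact st_mono sub _ ((spn_co h hl hC (hC.1 hf) (hC.1 hg)).1 this.1)
  have cls : ∀ u, ∀ x ∈ C' \ M.eo e, vx x ∈ cl (St M vx (C' \ M.eo e)) u ↔
      vx (M.a x) ∈ cl (St M vx (C' \ M.eo e)) u := fun u x hx =>
    ⟨fun m => cl_step m ⟨x, hx, rfl, rfl⟩,
      fun m => cl_step m (sy _ trivial _ ⟨x, hx, rfl, rfl⟩).2⟩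
  obtain ⟨K, k1, k2, k3⟩ : ∃ K : Set V, (vx e ∈ K ↔ vx (M.a e) ∉ K) ∧
      (∀ x ∈ C' \ M.eo e, vx x ∈ K ↔ vx (M.a x) ∈ K) ∧ ∀ f ∈ C, vx f ∉ K := by
    by_cases c : ∀ f ∈ C, vx f ∉ cl (St M vx (C' \ M.eo e)) (vx e)
    · exact ⟨_, iff_of_true (cl_self _ _) nb, cls _, c⟩
    · push Not at c
      obtain ⟨f, hf, m⟩ := c
      exact ⟨_, iff_of_false (fun t => nb (sy.symm trivial t)) (not_not.2 (cl_self _ _)), cls _,
        fun g hg t => nb (cl_trans (cl_trans m (cc f hf g hg)) (sy.symm trivial t))⟩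
  refine ⟨fun v => φ v + if v ∈ K then β e + φ (vx e) + φ (vx (M.a e)) else 0, fun f hf => ?_,
    fun f hf => by simp only [if_neg (k3 f hf), add_zero, p2 f hf]⟩
  by_cases c : f ∈ M.eo e
  · have z1 := z2_add_self (φ (vx e))
    have z2 := z2_add_self (φ (vx (M.a e)))
    have one : β e = (φ (vx e) + if vx e ∈ K then β e + φ (vx e) + φ (vx (M.a e)) else 0) +
        (φ (vx (M.a e)) + if vx (M.a e) ∈ K then β e + φ (vx e) + φ (vx (M.a e)) else 0) := by
      by_cases t : vx e ∈ K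
      · rw [if_pos t, if_neg (k1.1 t)]; linear_combination -z1 - z2
      · rw [if_neg t, if_pos (not_not.1 fun m => t (k1.2 m))]; linear_combination -z1 - z2
    have vc := Gph.vx_c h hl eS
    have vac : vx (M.a (M.c e)) = vx (M.a e) := by
      rw [h.gk.ac e eS]; exact Gph.vx_c h hl (h.gk.am eS)
    beta_reduce
    rcases (h.gk.mem_eo eS).1 c with rfl | rfl | rfl | rfl
    · exact one
    · rw [h.gk.aa eS, (hβ e eS).1, add_comm]; exact one
    · rw [vc, vac, (hβ e eS).2]; exact one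
    · rw [h.gk.aa (h.gk.cm eS), vc, vac, (hβ _ (h.gk.cm eS)).1, (hβ e eS).2, add_comm]; exact one
  · have := p1 f ⟨hf, c⟩
    beta_reduce
    by_cases t : vx f ∈ K
    · rw [if_pos t, if_pos ((k2 f ⟨hf, c⟩).1 t)]
      linear_combination this - z2_add_self (β e + φ (vx e) + φ (vx (M.a e)))
    · rw [if_neg t, if_neg fun m => t ((k2 f ⟨hf, c⟩).2 m)]
      linear_combination this

end R0c

open R0c

theorem treeS : TreeS := by
  intro Φ V M vx C C' h hl hC hC' k br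
  have g := h.gk.spn hC'
  have c3 : ∀ e ∈ C' \ C, M.c e ∈ (M.spn C').fo e := fun e he => by
    have n : (M.spn C').a e ≠ (M.spn C').c e := by
      rw [show (M.spn C').a e = M.a e from sg_in he.1]; exact h.ne (hC'.1 he.1)
    by_contra q
    exact (brIn_iff g (hC'.1 he.1)).1 (spn_bridge h hC' he.1 (br e he))
      ((del_count g (hC'.1 he.1) n).1 q).1
  simp only [gh_empty]
  refine ⟨?_, fun f hf => cl_le (h.gk.spn hC).sF (r' := (M.spn C').rF) ?_ hf, c3,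
    fun β ψ hβ hc hψ => pot h hl hC hβ hc hψ hC' k br⟩
  · have d := h.gk.es_diff hC' hC
    have hD : (M.spn C').Es (C' \ C) := ⟨d.1, fun x q =>
      ⟨by rw [show (M.spn C').a x = M.a x from sg_in q.1]; exact (d.2 x q).1, (d.2 x q).2⟩⟩
    have sm : ((M.spn C').del (C' \ C)).Same (M.spn C) := by
      refine ⟨rfl, fun f _ => ⟨?_, rfl, rfl⟩⟩
      by_cases q : f ∈ C' \ C
      · rw [del_a_pos q]; exact (sg_out (M := M) q.2).symm
      · rw [del_a_neg q]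
        by_cases t : f ∈ C
        · exact (sg_in (k t)).trans (sg_in t).symm
        · exact (sg_out fun m => q ⟨m, t⟩).trans (sg_out t).symm
    rw [← h.geg_spn hC', ← h.geg_spn hC, (geg_congr (g.del hD) sm).2.1,
      geg_del_bridges g hD fun e he _ => spn_bridge h hC' he.1 (br e he)]
  · rintro x - y (rfl | rfl)
    · by_cases t : x ∈ C
      · exact cl_one (Or.inl ((sg_in t).trans (sg_in (k t)).symm))
      · by_cases q : x ∈ C'
        · rw [show (M.spn C).a x = M.c x from sg_out t]; exact c3 x ⟨q, t⟩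
        · exact cl_one (Or.inl ((sg_out t).trans (sg_out q).symm))
    · exact cl_one (Or.inr rfl)

theorem relS : RelS := by
  intro Φ V M vx C E h hl hC hE k
  induction' hn : (E \ C).ncard using Nat.strong_induction_on with n ih generalizing E
  by_cases c : ∀ e ∈ E \ C, M.BrIn E e
  · exact ⟨E, k, Subset.rfl, hE, c, fun _ _ q => q⟩
  push Not at c
  obtain ⟨e, he, c⟩ := c
  have eS := hE.1 he.1
  have hD := h.gk.es_diff hE (h.gk.es_eo eS)
  obtain ⟨C', a1, a2, a3, a4, a5⟩ := ih _ (hn ▸ lt_diff h hE he) _ hD (sub_diff h hC hE k he) rfl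
  refine ⟨C', a1, a2.trans sdiff_subset, a3, a4, fun u v q => a5 u v (el_iff.2 ?_)⟩
  refine cl_le (st_sy h hE) ?_ trivial (el_iff.1 q)
  rintro _ - _ ⟨x, hx, rfl, rfl⟩
  by_cases t : x ∈ M.eo e
  · exact (st_iff h hl hD (hE.1 hx) (h.gk.am (hE.1 hx))).1
      (CSpan.along h hD eS (not_not.1 c) t).2
  · exact cl_one ⟨x, ⟨hx, t⟩, rfl, rfl⟩

end Pool.Agent.MP_9d78a0_co.gm

end MrgPart0

-- ======== part 1: formerly Pool.Agent.MP_9d78a0_co.gm.R0a
section MrgPart1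

/-! Routing, general statements: the walk round a face and its segments. -/

set_option autoImplicit false

namespace Pool.Agent.MP_9d78a0_co.gm

open Set Function Relation FM

namespace R0a

variable {Φ : Type} {S : Set Φ} {b p : Φ → Φ}

theorem two (hb : Inv S b) (hp : Inv S p) {O : ℕ → Φ} (m : ∀ i, O i ∈ S)
    (s : ∀ i, O (i + 1) = b (p (O i))) (i j : ℕ) : O i ≠ b (O j) := by
  have key : ∀ d i, O i ≠ b (O (i + d)) := fun d => by
    induction d using Nat.twoStepInduction with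
    | zero => exact fun i e => (hb _ (m i)).2.2 e.symm
    | one =>
      intro i e
      rw [s, (hb _ (hp _ (m i)).1).2.1] at e
      exact (hp _ (m i)).2.2 e.symm
    | more d ih _ =>
      intro i e
      refine ih (i + 1) ?_
      rw [← add_assoc i (d + 1) 1, s, (hb _ (hp _ (m _)).1).2.1] at e
      rw [s, e, (hp _ (m _)).2.1, add_right_comm, add_assoc]
  intro e
  rcases le_total i j with k | k
  · obtain ⟨d, rfl⟩ := Nat.exists_eq_add_of_le k
    exact key d i e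
  · obtain ⟨d, rfl⟩ := Nat.exists_eq_add_of_le k
    exact key d j (by rw [e, (hb _ (m _)).2.1])

/-- a face is one turn of the walk -/
theorem face (hb : Inv S b) (hp : Inv S p) {O : ℕ → Φ} {n : ℕ} (hn : 0 < n) (m : ∀ i, O i ∈ S)
    (s : ∀ i, O (i + 1) = b (p (O i))) (per : ∀ i j, i ≡ j [MOD n] → O i = O j) (g : Φ) :
    g ∈ orb p b (O 0) ↔ ∃ i < n, g = O i ∨ g = b (O i) := by
  constructor
  · intro hg
    obtain ⟨i, k⟩ : ∃ i, g = O i ∨ g = b (O i) := by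
      refine cl_ind (r := fun x y => y = p x ∨ y = b x) (P := fun g => ∃ i, g = O i ∨ g = b (O i))
        ⟨0, Or.inl rfl⟩ ?_ hg
      rintro x y - ⟨i, rfl | rfl⟩ (rfl | rfl)
      · exact ⟨i + 1, Or.inr (by rw [s, (hb _ (hp _ (m i)).1).2.1])⟩
      · exact ⟨i, Or.inr rfl⟩
      · refine ⟨i + (n - 1), Or.inl ?_⟩
        rw [per i (i + (n - 1) + 1) (by
          rw [add_assoc, Nat.sub_add_cancel hn]; exact (Nat.add_modEq_right).symm), s,
          (hb _ (hp _ (m _)).1).2.1, (hp _ (m _)).2.1]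
      · exact ⟨i, Or.inl (hb _ (m i)).2.1⟩
    exact ⟨i % n, Nat.mod_lt _ hn, per _ _ (Nat.mod_modEq i n) ▸ k⟩
  · have o : ∀ i, O i ∈ cl (fun x y => y = p x ∨ y = b x) (O 0) := fun i => by
      induction i with
      | zero => exact cl_self _ _
      | succ i ih => exact cl_step (cl_step ih (Or.inl rfl)) (Or.inr (s i))
    rintro ⟨i, -, rfl | rfl⟩
    exacts [o i, cl_step (o i) (Or.inr rfl)]

end R0a

open R0a in
theorem turnS : TurnS := by
  intro Φ M C h hC f hf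
  have hp := h.gk.sg hC
  have w : M.wk C = fun x => M.b (M.sg C x) := rfl
  have mS : MapsTo (M.wk C) M.S M.S := fun z hz => (h.ib _ (hp z hz).1).1
  have m : ∀ i, (M.wk C)^[i] f ∈ M.S := fun i => mS.iterate i hf
  have s : ∀ i, (M.wk C)^[i + 1] f = M.b (M.sg C ((M.wk C)^[i] f)) := fun i =>
    iterate_succ_apply' _ _ _
  have pp : f ∈ periodicPts (M.wk C) := by
    obtain ⟨n, hn⟩ := exists_return h.fin h.ib hp (hp f hf).1
    rw [(hp f hf).2.1] at hn
    exact mk_mem_periodicPts n.succ_pos hn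
  have pos := minimalPeriod_pos_of_mem_periodicPts pp
  have per : ∀ i j, (M.wk C)^[i] f = (M.wk C)^[j] f ↔ i ≡ j [MOD minimalPeriod (M.wk C) f] :=
    fun i j => by
      rw [← iterate_mod_minimalPeriod_eq (n := i), ← iterate_mod_minimalPeriod_eq (n := j)]
      exact iterate_eq_iterate_iff_of_lt_minimalPeriod (Nat.mod_lt _ pos) (Nat.mod_lt _ pos)
  refine ⟨_, pos, m, s, per, two h.ib hp m s, fun g => ?_⟩
  rw [gh_empty]
  exact face h.ib hp pos m s (fun i j => (per i j).2) g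

theorem segS : SegS := by
  intro Φ M U C h hU hC _ f hf
  have hp := h.gk.sg hC
  have mS : MapsTo (M.wk C) M.S M.S := fun z hz => (h.ib _ (hp z hz).1).1
  have s : ∀ i x, (M.wk C)^[i + 1] x = M.b (M.sg C ((M.wk C)^[i] x)) := fun i x =>
    iterate_succ_apply' _ _ _
  have ga : M.ga (U ∪ C) ∅ = M.ga U C := by
    funext x
    by_cases t : x ∈ U ∪ C
    · exact (ga_in t).trans (if_pos t).symm
    · exact (if_neg fun k => k.elim t (notMem_empty x)).trans (if_neg t).symm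
  have e : (M.gh (U ∪ C) ∅).fo f = (M.gh U C).fo f := by
    show orb (M.ga (U ∪ C) ∅) M.b f = orb (M.ga U C) M.b f
    rw [ga]
  have e1 := (compF h.gk hU hC).1 f hf
  refine ⟨e ▸ e1, (compF h.gk (hU.union hC) es_empty).1 f (Or.inl hf),
    ⟨_, fun _ k => Nat.notMem_of_lt_sInf (s := {n | (M.wk C)^[n] (M.b f) ∈ U}) k, rfl⟩,
    fun g hg => ?_⟩
  rw [e] at hg
  have sS := (h.gk.gh hU hC).1.sF.sub (hU.1 hf)
  refine cl_ind (r := (M.gh U C).rF) (P := fun g => ∃ p ∈ (M.minor U C).fo f, ∃ d,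
    (∀ d' < d, (M.wk C)^[d'] (M.b p) ∉ U) ∧
      (g = (M.wk C)^[d] (M.b p) ∨ M.b g = (M.wk C)^[d] (M.b p)))
    ⟨f, cl_self (M.minor U C).rF f, 0, fun _ k => absurd k (Nat.not_lt_zero _), Or.inr rfl⟩ ?_ hg
  rintro x y hx ⟨p, k1, d, k2, k3⟩ (rfl | rfl)
  · by_cases t : x ∈ U
    · refine ⟨_, ?_, 0, fun _ k => absurd k (Nat.not_lt_zero _), Or.inr rfl⟩
      rw [e1]
      exact ⟨cl_step hx (Or.inl rfl), by
        rw [show (M.gh U C).a x = _ from ga_in t]; exact (hU.2 x t).1⟩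
    rw [show (M.gh U C).a x = _ from ga_out t]
    have pU : p ∈ U := (e1 ▸ k1).2
    rcases k3 with k3 | k3
    · refine ⟨p, k1, d + 1, fun d' k => ?_, Or.inr (by rw [s, ← k3])⟩
      rcases Nat.lt_succ_iff_lt_or_eq.1 k with l | rfl
      exacts [k2 d' l, k3 ▸ t]
    · have k4 := congrArg M.b k3
      rw [h.gk.bb (sS hx)] at k4
      cases d with
      | zero => exact absurd (k4.trans (h.gk.bb (hU.1 pU)) ▸ pU) t
      | succ d =>
        have z := mS.iterate d (h.gk.bm (hU.1 pU))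
        rw [s, h.gk.bb (hp _ z).1] at k4
        exact ⟨p, k1, d, fun d' k => k2 d' (by omega), Or.inl (by rw [k4, (hp _ z).2.1])⟩
  · exact ⟨p, k1, d, k2, k3.symm.imp id fun k => (h.gk.bb (sS hx)).trans k⟩

end Pool.Agent.MP_9d78a0_co.gm

end MrgPart1

-- ======== part 2: formerly Pool.Agent.MP_9d78a0_co.gm.R0d
section MrgPart2

/-! Contraction of a disc keeps the genus. -/

set_option autoImplicit false

namespace Pool.Agent.MP_9d78a0_co.gm

open Set Function Relation FM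

namespace R0d

variable {Φ : Type} {M : FM Φ} {W C : Set Φ}

/-- faces of the spanning submap, read in a submap that contains the edges -/
theorem spn_sub (h : M.Ok) (hW : M.Es W) (hC : M.Es C) (k : C ⊆ W) :
    ∀ f ∈ W, cl ((M.sub W).spn C).rF f = cl (M.spn C).rF f ∩ W := by
  refine compress_cl h.fin h.ib (h.gk.sg es_empty) hW.1 (fun _ q => hW.sg q)
    (fun x hx y e => ((h.gk.spn hC).sF x hx y e).1) ?_ ?_ (fun _ _ => Or.inr rfl) ?_
  · rintro x - y (rfl | ⟨q, rfl⟩)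
    · exact Or.inr rfl
    · exact Or.inl ((sg_out (notMem_empty x)).trans (sg_out fun m => q (k m)).symm)
  · rintro x - y (rfl | rfl)
    · by_cases q : x ∈ W
      · exact Or.inr ⟨q, hW.sg q, Or.inl rfl⟩
      · exact Or.inl (Or.inr ⟨q, (sg_out fun m => q (k m)).trans (sg_out (notMem_empty x)).symm⟩)
    · exact Or.inl (Or.inl rfl)
  · rintro x q y (rfl | rfl)
    · exact Or.inr ⟨hW.sg q, Or.inl rfl⟩
    · exact Or.inl rfl

/-- two flags of `C` in one region are on one face, if all other edges leave on one face -/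
theorem one_face (h : M.Gk) (hC : M.Es C)
    (k : ∀ f ∈ (M.S \ C) ∩ M.sat C, ∀ g ∈ (M.S \ C) ∩ M.sat C, g ∈ cl (M.spn C).rF f)
    {f g : Φ} (hf : f ∈ C) (hg : g ∈ C) (e : g ∈ cl (M.con C).rC f) : g ∈ cl (M.spn C).rF f := by
  have own : ∀ x ∈ C, x ∈ M.sat C := fun x q => ⟨x, q, cl_self M.rV x⟩
  have st : ∀ x ∈ M.sat C, ∀ y, M.rV x y → y ∈ M.sat C := fun x ⟨u, hu, q⟩ y t =>
    ⟨u, hu, cl_step (r := M.rV) q t⟩
  have sat : ∀ x ∈ cl (M.spn C).rF f, x ∈ M.sat C := fun x hx => by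
    refine cl_ind (P := fun x => x ∈ M.sat C) (own f hf) ?_ hx
    rintro x y - q (rfl | rfl)
    · by_cases t : x ∈ C
      · exact own _ (hC.sg t)
      · exact st x q _ (Or.inr (sg_out t))
    · exact st x q _ (Or.inl rfl)
  have key : g ∈ cl (M.spn C).rF f ∨
      ((∃ u ∈ (M.S \ C) ∩ M.sat C, u ∈ cl (M.spn C).rF f) ∧ g ∉ M.sat C) := by
    refine cl_ind (P := fun x => x ∈ cl (M.spn C).rF f ∨
      ((∃ u ∈ (M.S \ C) ∩ M.sat C, u ∈ cl (M.spn C).rF f) ∧ x ∉ M.sat C))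
      (Or.inl (cl_self _ _)) ?_ e
    intro x y hx ih t
    have xS : x ∈ M.S := (h.con hC).sC.sub (hC.1 hf) hx
    have out : x ∉ C → (∃ u ∈ (M.S \ C) ∩ M.sat C, u ∈ cl (M.spn C).rF f) →
        M.a x ∈ cl (M.spn C).rF f ∨
          ((∃ u ∈ (M.S \ C) ∩ M.sat C, u ∈ cl (M.spn C).rF f) ∧ M.a x ∉ M.sat C) :=
      fun n ⟨u, hu, q⟩ => (em (M.a x ∈ M.sat C)).imp
        (fun s => cl_trans q (k u hu _ ⟨⟨h.am xS, fun m => n ((h.es_a hC xS).1 m)⟩, s⟩))
        fun s => ⟨⟨u, hu, q⟩, s⟩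
    rcases ih with ih | ⟨ex, n⟩
    · rcases t with rfl | rfl | rfl
      · by_cases q : x ∈ C
        · exact Or.inl (cl_step ih (Or.inl (sg_in (M := M) q).symm))
        · exact out q ⟨x, ⟨⟨xS, q⟩, sat x ih⟩, ih⟩
      · exact Or.inl (cl_step ih (Or.inr rfl))
      · exact Or.inl (cl_step ih (Or.inl rfl))
    · have q : x ∉ C := fun m => n (own x m)
      rcases t with rfl | rfl | rfl
      · exact out q ex
      · exact Or.inr ⟨ex, fun m => n (st _ m x (Or.inl (h.bb xS).symm))⟩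
      · refine Or.inr ⟨ex, fun m => n (st _ m x (Or.inr ?_))⟩
        rw [show (M.con C).c x = M.c x from sg_out q, h.cc xS]
  exact key.resolve_right fun q => q.2 (own g hg)

end R0d

open R0d

theorem contrS : ContrS := by
  intro Φ M U C h hU hC d con e0 k
  rcases C.eq_empty_or_nonempty with rfl | ne
  · rw [union_empty]; rfl
  have hW := hU.union hC
  have g : (M.sub (U ∪ C)).Ok := h.minor hW es_empty
  have hC' : (M.sub (U ∪ C)).Es C := hC.of_sub subset_union_right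
  have hU' : (M.sub (U ∪ C)).Es U := hU.of_sub subset_union_left
  have s := (sub_sub h hW hC subset_union_right).iso
  have gs : ((M.sub (U ∪ C)).sub C).Ok := g.minor hC' es_empty
  have e1 := geg_add_con g hC' ((s.con gs).1 con) ne
  have e2 : (M.sub (U ∪ C)).S \ C = U := by
    show (U ∪ C) \ C = U
    rw [union_sdiff_right, sdiff_eq_left.2 d]
  have t := transS Φ M (U ∪ C) ∅ U C h hW es_empty hU hC subset_union_left
  rw [empty_sdiff, empty_union, inter_eq_left.2 subset_union_right] at t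
  have e3 : (M.minor U C).eg = ((M.sub (U ∪ C)).minor U C).eg := t.iso.eg (g.minor hU' hC')
  have e4 : nc ((M.sub (U ∪ C)).con C).rC C ≤ nc ((M.sub (U ∪ C)).sub C).rF C :=
    nc_le_on g.fin hC'.1 fun f q x _ m => sub_fo_le g hC' q m
  have sat : ∀ x ∈ (M.sub (U ∪ C)).sat C, x ∈ M.sat C := fun x ⟨u, hu, q⟩ => by
    have := (compV h.gk hW es_empty).1 u (Or.inr hu)
    rw [gh_empty] at this
    exact ⟨u, hu, (this.subset q).1⟩
  have e5 : nc ((M.sub (U ∪ C)).sub C).rF C ≤ nc ((M.sub (U ∪ C)).con C).rC C := by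
    refine nc_le_on g.fin hC'.1 fun f hf x hx m => (sub_fo g.gk hC' hf).superset
      ⟨one_face g.gk hC' (fun y hy z hz => ?_) hf hx m, hx⟩
    rw [e2] at hy hz
    rw [spn_sub h hW hC subset_union_right y (Or.inl hy.1)]
    have := k y ⟨hy.1, sat y hy.2⟩ z ⟨hz.1, sat z hz.2⟩
    rw [gh_empty] at this
    exact ⟨this, Or.inl hz.1⟩
  rw [← s.eg gs, e0, g.geg_con hC', e2, ← e3] at e1
  omega

end Pool.Agent.MP_9d78a0_co.gm

end MrgPart2

-- ======== part 3: formerly Pool.Agent.MP_9d78a0_co.gm.RLol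
section MrgPart3

/-! Routing: few odd cycles on stems. -/

set_option autoImplicit false

namespace Pool.Agent.MP_9d78a0_co.gm

open Set Function Relation FM

namespace RLol

variable {Φ V : Type} {M : FM Φ} {vx : Φ → V} {U C : Set Φ}

theorem ends (h : M.Ok) (hl : M.Lbl vx) {e x : Φ} (he : e ∈ M.S) (hx : x ∈ M.eo e) :
    (vx x = vx e ∧ vx (M.a x) = vx (M.a e)) ∨ (vx x = vx (M.a e) ∧ vx (M.a x) = vx e) := by
  rcases (h.gk.mem_eo he).1 hx with rfl | rfl | rfl | rfl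
  · exact Or.inl ⟨rfl, rfl⟩
  · exact Or.inr ⟨rfl, by rw [h.aa he]⟩
  · exact Or.inl ⟨hl.c h he, hl.ac h he⟩
  · exact Or.inr ⟨hl.ac h he, by rw [h.aa (h.c_mem he), hl.c h he]⟩

theorem con_iff (h : M.Ok) (hl : M.Lbl vx) (hC : M.Es C) {f g : Φ} (hf : f ∈ C) (hg : g ∈ C) :
    g ∈ (M.sub C).co f ↔ vx g ∈ cl (R0c.St M vx C) (vx f) := by
  rw [← R0c.st_iff h hl hC (hC.1 hf) (hC.1 hg), ← CSpan.co_iff]
  have := (compC h.gk hC es_empty).1 f hf
  exact ⟨fun k => (this.subset k).1, fun k => this.superset ⟨k, hg⟩⟩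

theorem con_union (h : M.Ok) (hl : M.Lbl vx) (hU : M.Es U) (hC : M.Es C) (con : (M.sub C).Con)
    (hv : vx '' U ⊆ vx '' C) : (M.sub (U ∪ C)).Con := by
  have t : ∀ f ∈ U ∪ C, ∃ f' ∈ C, vx f' = vx f := fun f k =>
    k.elim (fun k => hv ⟨f, k, rfl⟩) fun k => ⟨f, k, rfl⟩
  intro f hf g hg
  obtain ⟨f', a1, a2⟩ := t f hf
  obtain ⟨g', b1, b2⟩ := t g hg
  rw [con_iff h hl (hU.union hC) hf hg, ← a2, ← b2]
  exact R0c.st_mono subset_union_right _ ((con_iff h hl hC a1 b1).1 (con f' a1 g' b1))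

theorem one_vo (h : M.Ok) (hU : M.Es U) (hC : M.Es C) (d : Disjoint U C) {f g : Φ} (hf : f ∈ U)
    (hg : g ∈ U) (k : g ∈ (M.gh C ∅).fo f) : g ∈ (M.minor U C).vo f := by
  rw [(compV h.gk hU hC).1 f hf]
  refine ⟨(gh_fo.1 k).ind0 (p := fun z => z ∈ cl (M.gh U C).rV f) (cl_self _ _)
    (fun z q => cl_step q (Or.inl rfl)) (fun z m q => cl_step q (Or.inr ?_))
    fun z m q => cl_step q (Or.inr ?_), hg⟩
  · exact (if_pos ⟨fun n => Set.disjoint_left.1 d n m, m⟩ : M.gc U C z = M.a z).symm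
  · exact (if_neg fun n => m n.2 : M.gc U C z = M.c z).symm

/-- a good face with one corner is even -/
theorem mono_even (h : M.Ok) (hl : M.Lbl vx) (hU : M.Es U) (hC : M.Es C) {H : Set V}
    {β : Φ → ZMod 2} {ψ : V → ZMod 2} (hβ : M.Adm vx H β) (hψ : M.Pt vx β ψ C) {f : Φ}
    (hf : f ∈ U) (e : (M.minor U C).b f = M.a f) (g : M.Good vx H (U ∪ C) f) :
    β f = ψ (vx f) + ψ (vx (M.a f)) := by
  obtain ⟨χ, p1, p2, p3⟩ := g.pot β hβ
  have r := minor_b_R h hU hC.cl hf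
  rw [e] at r
  have f0 : f ∈ M.reg (U ∪ C) f := mem_reg.2 R.rfl
  have key := r.ind (p := fun z => z ∈ M.reg (U ∪ C) f ∧ χ z + ψ (vx z) = χ f + ψ (vx f)) h
    (hU.1 hf) ⟨f0, rfl⟩
    (fun z hz k => ⟨mem_reg.2 (mem_reg.1 k.1).b, by
      rw [p2 z k.1, hl.b h hz, Pi.zero_apply, add_zero, k.2]⟩)
    (fun z hz m k => ⟨mem_reg.2 ((mem_reg.1 k.1).a trivial), by
      rw [p1 z k.1, hψ z m.1, ← k.2]
      generalize χ z = a, ψ (vx z) = b, ψ (vx (M.a z)) = c
      decide +revert⟩)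
    fun z hz m k => ⟨mem_reg.2 ((mem_reg.1 k.1).c fun n => n.elim m.1 m.2), by
      rw [p3 z ⟨k.1, fun n => n.elim m.1 m.2⟩, hl.c h hz, Pi.zero_apply, add_zero, k.2]⟩
  have := key.2
  rw [p1 f f0] at this
  revert this
  generalize χ f = a, ψ (vx f) = b, ψ (vx (M.a f)) = c, β f = d
  decide +revert

theorem two_to_one {α γ : Type} {A : Set α} {I : Set γ} (hI : I.Finite) (F : α → γ) (p : α → α)
    (h1 : ∀ x ∈ A, F x ∈ I) (h2 : ∀ x ∈ A, ∀ y ∈ A, F x = F y → y = x ∨ y = p x) :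
    A.ncard ≤ 2 * I.ncard := by
  rcases A.eq_empty_or_nonempty with rfl | ⟨x0, -⟩
  · simp
  have : ∀ i : γ, ∃ x, ∀ y ∈ A, F y = i → y = x ∨ y = p x := fun i => by
    by_cases k : ∃ x ∈ A, F x = i
    · obtain ⟨x, a, b⟩ := k
      exact ⟨x, fun y hy e => h2 x a y hy (b.trans e.symm)⟩
    · exact ⟨x0, fun y hy e => (k ⟨y, hy, e⟩).elim⟩
  choose r hr using this
  have s : A ⊆ r '' I ∪ (p ∘ r) '' I := fun y hy =>
    (hr _ y hy rfl).imp (fun k => ⟨_, h1 y hy, k.symm⟩) fun k => ⟨_, h1 y hy, k.symm⟩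
  have a1 := ncard_le_ncard s ((hI.image _).union (hI.image _))
  have a2 := ncard_union_le (r '' I) ((p ∘ r) '' I)
  have a3 := ncard_image_le (f := r) hI
  have a4 := ncard_image_le (f := p ∘ r) hI
  omega

/-- odd loops with neighbouring ends on a contracted disc are few -/
theorem few {k q N : ℕ} {H : Set V} (h : M.Ok) (hl : M.Lbl vx) (hk : M.eg ≤ k)
    (hq : (H ∩ vx '' M.S).ncard ≤ q) (hU : M.Es U) (hC : M.Es C) (d : Disjoint U C)
    (con : (M.sub C).Con) (e0 : (M.sub C).eg = 0)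
    (one : ∀ f ∈ U, ∀ g ∈ U, g ∈ (M.gh C ∅).fo f) (hv : vx '' U ⊆ vx '' C)
    (hH : Disjoint H (vx '' C)) {β : Φ → ZMod 2} {ψ : V → ZMod 2} (hβ : M.Adm vx H β)
    (hψ : M.Pt vx β ψ C) (odd : ∀ f ∈ U, β f ≠ ψ (vx f) + ψ (vx (M.a f))) (x : Fin N → Φ)
    (hx : ∀ i, x i ∈ U ∧ (M.minor U C).b (x i) ∈ M.eo (x i))
    (dis : ∀ i j, x j ∈ M.eo (x i) → i = j) (two : 2 ≤ N) : N ≤ 20 * k + 8 * q := by
  set W := M.minor U C with hW
  have ok : W.Ok := h.minor hU hC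
  have v1 : ∀ f ∈ U, ∀ g ∈ U, g ∈ W.vo f := fun f a g b => one_vo h hU hC d a b (one f a g b)
  have g1 : W.eg ≤ k := by
    rw [contrS Φ M U C h hU hC d con e0 fun f a g b => one f a.1 g b.1]
    exact (eg_sub_le h (hU.union hC)).trans hk
  have b1 := bouqS Φ W ok v1
  set A := {f | f ∈ W.S ∧ W.a (W.b f) = f} with hA
  set Z := {f | f ∈ W.S ∧ W.a (W.b f) ≠ f ∧ W.a (W.b (W.a (W.b f))) ≠ f} with hZ
  have ba : ∀ f ∈ A, W.b f = M.a f := fun f m => by
    rw [← ok.aa (ok.b_mem m.1), m.2]; rfl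
  have b2 := goodS k q Φ V M vx H (U ∪ C) h hl hk hq (hU.union hC) (con_union h hl hU hC con hv)
    (by rw [image_union, union_eq_right.2 hv]; exact hH)
  have b3 := two_to_one (A := A) ((h.fin.subset fun f (m : f ∈ {f | f ∈ U ∪ C ∧
      ¬ M.Good vx H (U ∪ C) f}) => (hU.union hC).1 m.1).image (M.sub (U ∪ C)).fo)
    (M.sub (U ∪ C)).fo M.a
    (fun f m => ⟨f, ⟨Or.inl m.1, fun g => odd f m.1 (mono_even h hl hU hC hβ hψ m.1 (ba f m) g)⟩,
      rfl⟩) (by
    intro f m g n e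
    have s := segS Φ M U C h hU hC d f m.1
    have a1 : g ∈ (M.sub (U ∪ C)).fo f := e ▸ cl_self (M.sub (U ∪ C)).rF g
    have a2 : g ∈ W.fo f := s.1.superset ⟨(s.2.1.subset a1).1, n.1⟩
    refine cl_ind (r := W.rF) (P := fun g => g = f ∨ g = M.a f) (Or.inl rfl) ?_ a2
    rintro _ _ - (rfl | rfl) (rfl | rfl)
    · exact Or.inr rfl
    · exact Or.inr (ba _ m)
    · exact Or.inl (ok.aa m.1)
    · exact Or.inl (by rw [← ba f m, ok.bb m.1]))
  have cls : ∀ i, ¬ ∀ y ∈ W.vo (x i), y ∈ M.eo (x i) := fun i m => by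
    obtain ⟨j, hj⟩ : ∃ j : Fin N, i ≠ j :=
      @exists_ne (Fin N) (Fin.nontrivial_iff_two_le.2 two) i |>.imp fun _ k => k.symm
    exact hj (dis i j (m _ (v1 _ (hx i).1 _ (hx j).1)))
  have mem : ∀ i, x i ∈ A ∪ Z := fun i => by
    obtain ⟨a1, a2⟩ := hx i
    have xS := hU.1 a1
    have cU := (hU.2 _ a1).2
    by_cases m : W.a (W.b (x i)) = x i
    · exact Or.inl ⟨a1, m⟩
    refine Or.inr ⟨a1, m, fun n => cls i fun y hy => ?_⟩
    have e1 : M.c (M.c (x i)) = x i := h.cc xS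
    rcases (h.gk.mem_eo xS).1 a2 with e | e | e | e
    · exact (ok.b_ne a1 e).elim
    · exact (m (by rw [e]; exact h.aa xS)).elim
    · refine (h.gk.mem_eo xS).2 (Or.imp_right (fun k => Or.inr (Or.inl k)) ?_)
      refine cl_ind (r := W.rV) (P := fun y => y = x i ∨ y = M.c (x i)) (Or.inl rfl) ?_ hy
      rintro _ _ - (rfl | rfl) (rfl | rfl)
      · exact Or.inr e
      · exact Or.inr rfl
      · exact Or.inl (by rw [← e, ok.bb a1])
      · exact Or.inl e1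
    · have e2 : W.b (M.c (x i)) = M.a (x i) := by
        rw [e, show W.a (M.a (M.c (x i))) = M.c (x i) from h.aa (h.c_mem xS)] at n
        rw [← ok.aa (ok.b_mem cU), n]; rfl
      refine (h.gk.mem_eo xS).2 (cl_ind (r := W.rV) (P := fun y => y = x i ∨ y = M.a (x i) ∨
        y = M.c (x i) ∨ y = M.a (M.c (x i))) (Or.inl rfl) ?_ hy)
      rintro _ _ - (rfl | rfl | rfl | rfl) (rfl | rfl)
      · exact Or.inr (Or.inr (Or.inr e))
      · exact Or.inr (Or.inr (Or.inl rfl))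
      · exact Or.inr (Or.inr (Or.inl (by rw [← e2, ok.bb cU])))
      · exact Or.inr (Or.inr (Or.inr (h.comm xS).symm))
      · exact Or.inr (Or.inl e2)
      · exact Or.inl e1
      · exact Or.inl (by rw [← e, ok.bb a1])
      · exact Or.inr (Or.inl (by rw [h.comm xS]; exact h.cc (h.a_mem xS)))
  have b4 : N ≤ (A ∪ Z).ncard := by
    have := ncard_le_ncard_of_injOn (s := univ) x (fun i _ => mem i)
      (fun i _ j _ e => dis i j (e ▸ cl_self M.rE (x i)))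
      (ok.fin.subset fun f m => m.elim (fun m => m.1) fun m => m.1)
    simpa using this
  have b5 := ncard_union_le A Z
  omega

/-- along one turn, the flag after a flag of `U` -/
theorem next {O : ℕ → Φ} {n p p' : ℕ} (h : M.Ok) (hU : M.Es U) (hC : M.Es C) (d : Disjoint U C)
    (t : M.Turn C O n) (h1 : O p ∈ U) (h2 : O p' ∈ U) (lt : p < p') :
    ∃ j, p < j ∧ j ≤ p' ∧ (M.minor U C).b (M.c (O p)) = O j := by
  classical
  have ex : ∃ j, p < j ∧ O j ∈ U := ⟨p', lt, h2⟩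
  have sp := Nat.find_spec ex
  have e1 : O (p + 1) = M.b (M.c (O p)) := by
    rw [t.step, wk, if_neg (Set.disjoint_left.1 d h1)]
  refine ⟨Nat.find ex, sp.1, Nat.find_min' ex ⟨lt, h2⟩,
    minor_b_eq h hU hC.cl (hU.2 _ h1).2 sp.2 ?_ fun e => t.two (Nat.find ex) (p + 1) ?_⟩
  · have : ∀ j, p + 1 ≤ j → j ≤ Nat.find ex → M.R (C \ U) (Uᶜ \ C) (M.c (O p)) (O j) := by
      intro j hj
      induction j, hj using Nat.le_induction with
      | base => exact fun _ => e1 ▸ R.rfl.b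
      | succ j hj ih =>
        intro le
        have nU : O j ∉ U := fun m => Nat.find_min ex (show j < Nat.find ex by omega) ⟨hj, m⟩
        rw [t.step, wk]
        split_ifs with m
        · exact ((ih (by omega)).a ⟨m, nU⟩).b
        · exact ((ih (by omega)).c ⟨nU, m⟩).b
    exact this _ sp.1 le_rfl
  · rw [e, e1, h.bb (h.c_mem (t.mem p))]

/-- an end of an edge off `C` is met by the turn -/
theorem dart {O : ℕ → Φ} {n i : ℕ} {x : Φ} (h : M.Ok) (hC : M.Es C) (t : M.Turn C O n)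
    (hx : x ∉ C) (hi : i < n) (e : x = O i ∨ x = M.b (O i)) :
    ∃ j < n, O j = x ∨ O j = M.c x := by
  rcases e with e | e
  · exact ⟨i, hi, Or.inl e.symm⟩
  have e1 : O (i + n - 1 + 1) = O i := (t.per _ _).2 (by
    rw [show i + n - 1 + 1 = i + n by omega]; exact Nat.add_modEq_right)
  have e2 : O ((i + n - 1) % n) = O (i + n - 1) := (t.per _ _).2 (Nat.mod_modEq _ _)
  refine ⟨(i + n - 1) % n, Nat.mod_lt _ t.pos, Or.inr ?_⟩
  rw [e2, e, ← e1, t.step, wk]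
  have m := t.mem (i + n - 1)
  split_ifs with q
  · rw [e, ← e1, t.step, wk, if_pos q, h.bb (h.a_mem m)] at hx
    exact (hx (hC.2 _ q).1).elim
  · rw [h.bb (h.c_mem m), h.cc m]

theorem tel {β : ℕ → ZMod 2} {ψ : ℕ → ZMod 2} {s l : ℕ} (h : s ≤ l)
    (k : ∀ j < l, β j = ψ j + ψ (j + 1)) : ∑ j ∈ Finset.Icc s l, β j = ψ s + ψ l + β l := by
  induction l, h using Nat.le_induction with
  | base => rw [Finset.Icc_self, Finset.sum_singleton, Cy.z2_add_self, zero_add]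
  | succ l h ih =>
    rw [Finset.sum_Icc_succ_top (by omega), ih fun j m => k j (by omega), k l (by omega)]
    generalize ψ s = a, ψ l = b, ψ (l + 1) = c, β (l + 1) = d
    decide +revert

end RLol

open RLol

theorem lolS (hH : HangS) (hO : OrderS) (hC : CoreS) : LolS := by
  intro k q
  refine ⟨20 * k + 8 * q + 2, ?_⟩
  intro g Φ V M vx H B ch t μ β e s l c st t1 tμ μs hβ ci cen dis E
  have h := st.hm.ok
  have hl := st.hm.lbl
  have S : ∀ i, ∀ j ≤ l i, e i j ∈ M.S := fun i => (E i).1.mem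
  have c0 : ∀ i, vx (e i 0) ∈ ch.core t := fun i => by
    obtain ⟨a, b⟩ := (E i).2.1
    have := cen i
    exact ⟨a, by simp only [Ch.cen] at this; omega⟩
  have mK : ∀ i j, 0 < j → j ≤ l i → vx (e i j) ∈ earV vx (e i) (l i) := fun i j a b =>
    ⟨j, ⟨a, b⟩, rfl⟩
  have nK : ∀ i, ∀ v ∈ earV vx (e i) (l i), v ∈ M.tv vx H \ ch.core t := by
    rintro i _ ⟨j, m, rfl⟩
    exact (E i).1.inner j m.1 m.2
  have idx : ∀ i, ∀ j ≤ l i, ∀ j', 0 < j' → j' ≤ l i → vx (e i j) = vx (e i j') → j = j' := by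
    intro i j a j' b b' m
    rcases Nat.eq_zero_or_pos j with rfl | p
    · exact (((E i).1.inner j' b b').2 (m ▸ c0 i)).elim
    · exact (E i).1.inj j p a j' b b' m
  have same : ∀ i i', ∀ v ∈ earV vx (e i) (l i), v ∈ earV vx (e i') (l i') → i = i' :=
    fun i i' v a b => by_contra fun n => Set.disjoint_left.1 (dis n) a b
  set P : Fin (20 * k + 8 * q + 2) → Set Φ := fun i => {x | ∃ j < l i, x ∈ M.eo (e i j)} with hP
  have en : ∀ i, ∀ j < l i, ∀ x ∈ M.eo (e i j),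
      (vx x = vx (e i j) ∧ vx (M.a x) = vx (e i (j + 1))) ∨
        (vx x = vx (e i (j + 1)) ∧ vx (M.a x) = vx (e i j)) := fun i j m x hx =>
    (E i).1.next j m ▸ ends h hl (S i j m.le) hx
  obtain ⟨rt, C, cb, sub, hrt, inC⟩ := hH k q g Φ V _ M vx H B ch t μ univ
    (fun i => earV vx (e i) (l i)) P (fun i => {c i}) st tμ.le μs (fun i _ j _ n => dis n) (by
    refine fun i _ => ⟨Set.disjoint_left.2 fun v a => (nK i v a).2, ⟨?_, ?_⟩, ?_, ?_, ?_⟩
    · exact fun x ⟨j, a, b⟩ => (h.gk.es_eo (S i j a.le)).1 b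
    · exact fun x ⟨j, a, b⟩ => ⟨⟨j, a, ((h.gk.es_eo (S i j a.le)).2 x b).1⟩,
        j, a, ((h.gk.es_eo (S i j a.le)).2 x b).2⟩
    · rintro _ rfl
      exact cen i
    · rintro x ⟨j, a, b⟩
      rcases en i j a x b with m | m
      · rw [m.1]
        rcases Nat.eq_zero_or_pos j with rfl | p
        · exact Or.inr ⟨c i, rfl, (E i).2.1⟩
        · exact Or.inl (mK i j p a.le)
      · rw [m.1]; exact Or.inl (mK i _ (by omega) a)
    · rintro _ ⟨j, m, rfl⟩
      refine ⟨_, c0 i, ?_⟩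
      have : ∀ j ≤ l i, M.EL vx (P i) univ (vx (e i 0)) (vx (e i j)) := by
        intro j hj
        induction j with
        | zero => exact ReflTransGen.refl
        | succ j ih => exact (ih (by omega)).tail ⟨trivial, trivial, e i j,
            ⟨j, hj, cl_self M.rE _⟩, rfl, (E i).1.next j hj⟩
      exact this j m.2)
  have eC : ∀ i, ∀ j < l i, e i j ∈ C := fun i j a => by
    refine inC i trivial _ ⟨j, a, cl_self M.rE _⟩ ((fun j => vx (e i j)) '' Icc (j + 1) (l i))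
      (image_mono (Icc_subset_Icc_left (by omega))) ?_ ⟨j + 1, ⟨le_rfl, a⟩, ((E i).1.next j a).symm⟩ ?_
    · rintro ⟨j', m, p⟩
      have := idx i j a.le j' (by have := m.1; omega) m.2 p.symm
      have := m.1
      omega
    · rintro x ⟨j', a', b⟩ n ⟨j2, m, p⟩
      have m1 := m.1
      have ne : j' ≠ j := fun z => n (z ▸ b)
      rcases en i j' a' x b with u | u
      · have := idx i j' a'.le j2 (by omega) m.2 (u.1.symm.trans p.symm)
        exact ⟨j' + 1, ⟨by omega, a'⟩, u.2.symm⟩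
      · have := idx i (j' + 1) a' j2 (by omega) m.2 (u.1.symm.trans p.symm)
        exact ⟨j', ⟨by omega, a'.le⟩, u.2.symm⟩
  obtain ⟨O, n, od⟩ := hO k q g Φ V M vx H B ch t μ _ rt C st t1 tμ μs cb
  set U : Set Φ := {x | ∃ i, x ∈ M.eo (e i (l i))} with hUd
  have hU : M.Es U := ⟨fun x ⟨i, b⟩ => (h.gk.es_eo (S i _ le_rfl)).1 b, fun x ⟨i, b⟩ =>
    ⟨⟨i, ((h.gk.es_eo (S i _ le_rfl)).2 x b).1⟩, i, ((h.gk.es_eo (S i _ le_rfl)).2 x b).2⟩⟩
  have sl : ∀ i, 0 < s i ∧ s i + 2 ≤ l i := fun i => ⟨(E i).2.2.1, (E i).2.2.2.1⟩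
  have eu : ∀ i, ∀ x ∈ M.eo (e i (l i)),
      (vx x = vx (e i (l i)) ∧ vx (M.a x) = vx (e i (s i))) ∨
        (vx x = vx (e i (s i)) ∧ vx (M.a x) = vx (e i (l i))) := fun i x hx =>
    (E i).2.2.2.2.1 ▸ ends h hl (S i _ le_rfl) hx
  have uK : ∀ i, ∀ x ∈ M.eo (e i (l i)), vx x ∈ earV vx (e i) (l i) := fun i x hx => by
    have := sl i
    rcases eu i x hx with m | m <;> rw [m.1] <;> exact mK i _ (by omega) (by omega)
  have d : Disjoint U C := by
    refine Set.disjoint_left.2 ?_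
    rintro x ⟨i, a⟩ m
    have k1 := uK i x a
    have k2 := uK i _ ((h.gk.es_eo (S i _ le_rfl)).2 x a).1
    rcases sub m with m | m
    · exact (nK i _ k1).2 m.2.1
    obtain ⟨i', -, j, b, m⟩ := mem_iUnion₂.1 m
    have k3 := mK i' (j + 1) (by omega) b
    obtain rfl : i = i' := (en i' j b x m).elim (fun u => same i i' _ k2 (u.2 ▸ k3))
      fun u => same i i' _ k1 (u.1 ▸ k3)
    have := sl i
    rcases en i j b x m with u | u <;> rcases eu i x a with w | w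
    · have := idx i j b.le _ (by omega) le_rfl (u.1.symm.trans w.1)
      omega
    · have := idx i j b.le _ (by omega) (by omega) (u.1.symm.trans w.1)
      have := idx i (j + 1) b _ (by omega) le_rfl (u.2.symm.trans w.2)
      omega
    · have := idx i j b.le _ (by omega) (by omega) (u.2.symm.trans w.2)
      have := idx i (j + 1) b _ (by omega) le_rfl (u.1.symm.trans w.1)
      omega
    · have := idx i j b.le _ (by omega) le_rfl (u.2.symm.trans w.2)
      omega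
  have uK' : ∀ x ∈ U, vx x ∈ ⋃ i ∈ univ, earV vx (e i) (l i) := fun x ⟨i, a⟩ =>
    mem_biUnion (mem_univ i) (uK i x a)
  have cov : ∀ x ∈ U, ∃ i < n, x = O i ∨ x = M.b (O i) := fun x a =>
    (od.cover x (hU.1 a) (Or.inl (uK' x a))).resolve_right fun m => Set.disjoint_left.1 d a m.1
  obtain ⟨ψ0, p0⟩ := st.ch.cob β hβ
  obtain ⟨ψ, hψ, -⟩ := (treeS Φ V M vx _ C h hl (es_ind h hl _) cb.es cb.core cb.br).2.2.2 β ψ0
    hβ.1 (hC k q g Φ V M vx H B ch t st (by omega)).2.2.1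
    fun f m => p0 f (ind_mono (fun _ z => z.1) m)
  have col : ∀ i, ∀ x ∈ M.eo (e i (l i)),
      vx x ∈ ch.colm t (⋃ i ∈ univ, earV vx (e i) (l i)) rt (c i) := fun i x a =>
    Or.inr ⟨uK' x ⟨i, a⟩, hrt i trivial _ (uK i x a)⟩
  have adj : ∀ i p p', p < p' → p' < n → O p ∈ M.eo (e i (l i)) → O p' ∈ M.eo (e i (l i)) →
      ∃ x ∈ M.eo (e i (l i)), (M.minor U C).b x ∈ M.eo (e i (l i)) := by
    intro i p p' lt pn a b
    obtain ⟨j, j1, j2, j3⟩ := next h hU cb.es d od.turn ⟨i, a⟩ ⟨i, b⟩ lt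
    refine ⟨_, ((h.gk.es_eo (S i _ le_rfl)).2 _ a).2, ?_⟩
    obtain ⟨i', m⟩ : O j ∈ U := j3 ▸ minor_b_mem h hU cb.es.cl (hU.2 _ ⟨i, a⟩).2
    obtain rfl : i = i' := by
      refine ci (le_antisymm (not_lt.1 fun z => ?_) (not_lt.1 fun z => ?_))
      · have := od.mono j (by omega) p (by omega) _ _ (cen i') (cen i) (col i' _ m) (col i _ a) z
        omega
      · have := od.mono p' pn j (by omega) _ _ (cen i) (cen i') (col i _ b) (col i' _ m) z
        omega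
    exact j3 ▸ m
  have : ∀ i, ∃ x ∈ M.eo (e i (l i)), (M.minor U C).b x ∈ M.eo (e i (l i)) := fun i => by
    have es := h.gk.es_eo (S i _ le_rfl)
    have dt : ∀ x ∈ M.eo (e i (l i)), ∃ p < n, O p ∈ M.eo (e i (l i)) ∧ vx (O p) = vx x := by
      intro x a
      obtain ⟨p, p1, p2⟩ := cov x ⟨i, a⟩
      obtain ⟨j, j1, j2⟩ := dart h cb.es od.turn (Set.disjoint_left.1 d ⟨i, a⟩) p1 p2
      refine ⟨j, j1, ?_⟩
      rcases j2 with z | z <;> rw [z]
      · exact ⟨a, rfl⟩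
      · exact ⟨(es.2 x a).2, hl.c h (es.1 a)⟩
    obtain ⟨p, p1, p2, p3⟩ := dt _ (cl_self M.rE _)
    obtain ⟨r, r1, r2, r3⟩ := dt _ (es.2 _ (cl_self M.rE _)).1
    rcases lt_trichotomy p r with z | z | z
    · exact adj i p r z r1 p2 r2
    · have := sl i
      have := idx i _ le_rfl (s i) (by omega) (by omega)
        (by rw [← p3, z, r3, (E i).2.2.2.2.1])
      omega
    · exact adj i r p z p1 r2 p2
  choose x x1 x2 using this
  have ee : ∀ i, M.eo (x i) = M.eo (e i (l i)) := fun i => h.eo_eq (S i _ le_rfl) (x1 i)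
  have := few h hl st.eg st.hq hU cb.es d od.con od.eg (fun f a y b => ?_) ?_ ?_ hβ hψ ?_ x
    (fun i => ⟨⟨i, x1 i⟩, ee i ▸ x2 i⟩)
    (fun i j m => same i j _ (uK i _ (ee i ▸ m)) (uK j _ (x1 j))) (by omega)
  · omega
  · have sy := (h.gk.gh cb.es es_empty).1.sF
    exact cl_trans (sy.symm (od.turn.mem 0) ((od.turn.face f).2 (cov f a)))
      ((od.turn.face y).2 (cov y b))
  · rw [od.vtx]
    rintro _ ⟨y, a, rfl⟩
    exact Or.inl (uK' y a)
  · rw [od.vtx]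
    refine Set.disjoint_right.2 fun v m => m.elim (fun m => ?_) fun m => (st.ch.sub m.1).1.2
    obtain ⟨i, -, m⟩ := mem_iUnion₂.1 m
    exact (nK i v m).1.2
  · rintro f ⟨i, a⟩ m
    have b1 : β f = β (e i (l i)) := by
      have z := hβ.1 _ (S i _ le_rfl)
      rcases (h.gk.mem_eo (S i _ le_rfl)).1 a with rfl | rfl | rfl | rfl
      · rfl
      · exact z.1
      · exact z.2
      · exact (hβ.1 _ (h.c_mem (S i _ le_rfl))).1.trans z.2
    have b2 := (E i).2.2.2.2.2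
    rw [tel (ψ := fun j => ψ (vx (e i j))) (by have := sl i; omega)
      fun j z => by rw [hψ _ (eC i j z), (E i).1.next j z], ← b1, m] at b2
    revert b2
    rcases eu i f a with w | w <;> rw [w.1, w.2] <;>
      generalize ψ (vx (e i (s i))) = a, ψ (vx (e i (l i))) = b <;> decide +revert

end Pool.Agent.MP_9d78a0_co.gm

end MrgPart3

-- ======== part 4: formerly Pool.Agent.MP_9d78a0_co.gm.RNewD
section MrgPart4

/-! Routing, row NEW: the band of a run of parallel ears. -/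

set_option autoImplicit false

namespace Pool.Agent.MP_9d78a0_co.gm.Nw

open Set Function FM

variable {Φ V ι : Type} {M : FM Φ} {vx : Φ → V} {H : Set V} {ch : Ch V} {bn : Bn V} {t μ : ℕ}
  {EV : ι → Set V} {c : ι × Bool → ℕ} {dd : ι × Bool → Φ} {K : Set V} {rt : V → ℕ} {U C : Set Φ}
  {O : ℕ → Φ} {n m w s0 : ℕ} {u : ℕ → ℕ} {up : Bool}

/-- the darts at the two ends -/
def ixx (s0 : ℕ) (u : ℕ → ℕ) (e : Bool) (J : ℕ) : ℕ := cond e (u J) (s0 + J)

/-- the corners at the two ends -/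
def kp (s0 : ℕ) (u : ℕ → ℕ) (e : Bool) (J : ℕ) : ℕ := min (ixx s0 u e J) (ixx s0 u e (J + 1))

/-- the region between two consecutive ears -/
def rg (M : FM Φ) (U C : Set Φ) (O : ℕ → Φ) (s : ℕ) : Set Φ := M.reg (U ∪ C) (M.c (pp U O s))

/-- the parity of an edge -/
def od (M : FM Φ) (vx : Φ → V) (β : Φ → ZMod 2) (ψ : V → ZMod 2) (x : Φ) : ZMod 2 :=
  β x + ψ (vx x) + ψ (vx (M.a x))

namespace Ears

variable (h : Ears M vx H ch bn t μ EV c dd K rt U C O n)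

/-- the new band -/
noncomputable def nbd (w s0 : ℕ) (u : ℕ → ℕ) (up : Bool) : Bn V where
  r := 1
  w := w
  col _ e j := c (h.I (ixx s0 u e (j + 1)))
  up _ := up
  St _ j := EV (h.I (s0 + (j + 1))).1
  Zo _ j := vx '' rg M U C O (s0 + (j + 1)) \ (K ∪ ch.core t)

variable (r : Run M U C O (LL U O n) h.Zb (M.Good vx H (U ∪ C)) m s0 u up)
include h r

theorem ix_lt (e : Bool) {J : ℕ} (hJ : J ≤ m) : ixx s0 u e J < LL U O n := by
  cases e
  exacts [(Nat.add_le_add_left hJ s0).trans_lt r.lt.1, r.lt.2 J hJ]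

theorem dirn (e : Bool) : (∀ J ≤ m, ixx s0 u e J = ixx s0 u e 0 + J) ∨
    ∀ J ≤ m, ixx s0 u e J + J = ixx s0 u e 0 := by
  cases e
  · exact Or.inl fun _ _ => rfl
  cases up
  · refine Or.inr fun J => ?_
    induction J with
    | zero => exact fun _ => rfl
    | succ J ih =>
      intro k
      have := ih (by omega); have := r.up0 rfl J k; simp only [ixx, cond] at *; omega
  · refine Or.inl fun J => ?_
    induction J with
    | zero => exact fun _ => rfl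
    | succ J ih =>
      intro k
      have := ih (by omega); have := r.up1 rfl J k; simp only [ixx, cond] at *; omega

theorem kp_or (e : Bool) {J : ℕ} (hJ : J < m) :
    (ixx s0 u e J = kp s0 u e J ∧ ixx s0 u e (J + 1) = kp s0 u e J + 1) ∨
      (ixx s0 u e J = kp s0 u e J + 1 ∧ ixx s0 u e (J + 1) = kp s0 u e J) := by
  unfold kp
  rcases h.dirn r e with k | k <;> have := k J hJ.le <;> have := k (J + 1) hJ <;> omega

theorem kp_lt (e : Bool) {J : ℕ} (hJ : J < m) : kp s0 u e J + 1 < LL U O n := by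
  have := h.ix_lt r e hJ.le
  have := h.ix_lt r e (show J + 1 ≤ m from hJ)
  have := h.kp_or r e hJ
  omega

omit h r in
theorem kp_false (J : ℕ) : kp s0 u false J = s0 + J := min_eq_left (Nat.le_succ _)

theorem ear (e : Bool) {J : ℕ} (hJ : J ≤ m) :
    h.I (ixx s0 u e J) = ((h.I (s0 + J)).1, xor e (h.I (s0 + J)).2) := by
  cases e
  · simp [ixx]
  · simpa [ixx] using h.I_par (r.par J hJ)

theorem kZ (e : Bool) {J : ℕ} (hJ : J < m) : kp s0 u e J ∉ h.Zb := by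
  cases e
  exacts [kp_false (s0 := s0) (u := u) J ▸ (r.good J hJ).2.1, (r.good J hJ).2.2.1]

omit r in
theorem cS (s : ℕ) : M.c (pp U O s) ∈ M.S := h.ok.c_mem (h.dk.pS s)

omit r in
theorem rgS {s : ℕ} {g : Φ} (hg : g ∈ rg M U C O s) : g ∈ M.S := (mem_reg.1 hg).mem h.ok (h.cS s)

omit r in
theorem seg_rel {s : ℕ} {x y : Φ} (hx : x ∈ Seg M U O s) (hy : y ∈ Seg M U O s) :
    M.R (C \ U) (Uᶜ \ C) x y :=
  ((h.dk.seg_R hx).symm h.ok (h.dk.eC.cl.diff h.dk.eU.cl h.ok)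
    ((h.dk.eU.cl.compl h.ok).diff h.dk.eC.cl h.ok) (h.cS s)).trans (h.dk.seg_R hy)

omit h r in
theorem R_rg {s : ℕ} {x y : Φ} (hx : x ∈ rg M U C O s) (k : M.R (C \ U) (Uᶜ \ C) x y) :
    y ∈ rg M U C O s :=
  mem_reg.2 ((mem_reg.1 hx).trans (k.mono (subset_univ _) fun _ a b => b.elim a.1 a.2))

omit h r in
theorem a_rg {s : ℕ} {x : Φ} (hx : x ∈ rg M U C O s) : M.a x ∈ rg M U C O s :=
  mem_reg.2 ((mem_reg.1 hx).a trivial)

omit h r in
theorem fo_rg {s : ℕ} {x y : Φ} (hx : x ∈ rg M U C O s) (k : y ∈ M.fo x) : y ∈ rg M U C O s :=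
  mem_reg.2 ((mem_reg.1 hx).trans ((mem_fo.1 k).mono subset_rfl (empty_subset _)))

omit h r in
theorem self_rg (s : ℕ) : M.c (pp U O s) ∈ rg M U C O s := mem_reg.2 R.rfl

theorem seg_rg (e : Bool) {J : ℕ} (hJ : J < m) {x : Φ} (hx : x ∈ Seg M U O (kp s0 u e J)) :
    x ∈ rg M U C O (s0 + J) := by
  cases e
  · rw [kp_false] at hx
    exact R_rg (self_rg _) (h.dk.seg_R hx)
  · exact R_rg (a_rg (self_rg _)) (h.seg_rel (r.good J hJ).2.2.2.1 hx)

theorem rg_seg {J : ℕ} (hJ : J < m) {g : Φ} (hg : g ∈ rg M U C O (s0 + J))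
    (hv : vx g ∈ K ∪ ch.core t) : ∃ e, g ∈ Seg M U O (kp s0 u e J) := by
  obtain ⟨y, a, b⟩ := h.sat (h.rgS hg) hv
  rcases (r.good J hJ).2.2.2.2.2 g (gh_fo.1 ((r.good J hJ).1.face ⟨hg, y, Or.inr a, b⟩)) with k | k
  exacts [⟨false, (kp_false J).symm ▸ k⟩, ⟨true, k⟩]

theorem rg_uniq {J J' : ℕ} (hJ : J < m) (hJ' : J' < m) {g : Φ} (hg : g ∈ rg M U C O (s0 + J))
    (hg' : g ∈ rg M U C O (s0 + J')) : J = J' := by
  have a : M.c (pp U O (s0 + J')) ∈ rg M U C O (s0 + J) := mem_reg.2 ((mem_reg.1 hg).trans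
    ((mem_reg.1 hg').symm h.ok cl_univ (h.esE.cl.compl h.ok) (h.cS _)))
  obtain ⟨e, k⟩ := h.rg_seg r hJ a (h.vE (Or.inl (h.dk.cU _)))
  have := h.dk.seg_uniq (h.kp_lt r e hJ) (by have := r.lt.1; omega) k (h.dk.cp_seg _)
  cases e
  · rw [kp_false] at this
    omega
  · have := h.kp_or r true hJ
    simp only [ixx, cond] at this
    rcases r.sep with k | k <;> have := k J hJ.le <;> have := k (J + 1) hJ <;> omega

theorem col_in (e : Bool) {A J B : ℕ} (h1 : A ≤ J) (h2 : J ≤ B) (h3 : B ≤ m) :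
    min (c (h.I (ixx s0 u e A))) (c (h.I (ixx s0 u e B))) ≤ c (h.I (ixx s0 u e J)) ∧
      c (h.I (ixx s0 u e J)) ≤ max (c (h.I (ixx s0 u e A))) (c (h.I (ixx s0 u e B))) := by
  have a := h.ix_lt r e (h1.trans (h2.trans h3))
  have b := h.ix_lt r e (h2.trans h3)
  have d := h.ix_lt r e h3
  rcases h.dirn r e with k | k <;> have := k A (by omega) <;> have := k J (by omega) <;>
    have := k B h3
  · exact ⟨(min_le_left _ _).trans (h.col_le (by omega) b),
      (h.col_le (by omega) d).trans (le_max_right _ _)⟩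
  · exact ⟨(min_le_right _ _).trans (h.col_le (by omega) b),
      (h.col_le (by omega) a).trans (le_max_left _ _)⟩

theorem col_in' (e : Bool) {A J B : ℕ} (h1 : A < J) (h2 : J < B) (h3 : B ≤ m) :
    min (c (h.I (ixx s0 u e A))) (c (h.I (ixx s0 u e B))) < c (h.I (ixx s0 u e J)) ∧
      c (h.I (ixx s0 u e J)) < max (c (h.I (ixx s0 u e A))) (c (h.I (ixx s0 u e B))) := by
  have a := h.ix_lt r e (show A ≤ m by omega)
  have b := h.ix_lt r e (show J ≤ m by omega)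
  have d := h.ix_lt r e h3
  rcases h.dirn r e with k | k <;> have := k A (by omega) <;> have := k J (by omega) <;>
    have := k B h3
  · exact ⟨(min_le_left _ _).trans_lt (h.col_lt (by omega) b),
      (h.col_lt (by omega) d).trans_le (le_max_right _ _)⟩
  · exact ⟨(min_le_right _ _).trans_lt (h.col_lt (by omega) b),
      (h.col_lt (by omega) a).trans_le (le_max_left _ _)⟩

theorem col_sep : (∀ J ≤ m, ∀ J' ≤ m, c (h.I (ixx s0 u false J)) < c (h.I (ixx s0 u true J'))) ∨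
    ∀ J ≤ m, ∀ J' ≤ m, c (h.I (ixx s0 u true J')) < c (h.I (ixx s0 u false J)) :=
  r.sep.imp (fun k _ a J' b => h.col_lt ((Nat.add_le_add_left a s0).trans_lt (k J' b))
    (h.ix_lt r true b)) fun k J a J' b => h.col_lt ((k J' b).trans_le (Nat.le_add_right s0 J))
    (h.ix_lt r false a)

theorem btw (e : Bool) {A B d : ℕ} (h1 : A < B) (h3 : B ≤ m) (hd : ch.cen μ d)
    (k1 : min (c (h.I (ixx s0 u e A))) (c (h.I (ixx s0 u e B))) < d)
    (k2 : d < max (c (h.I (ixx s0 u e A))) (c (h.I (ixx s0 u e B)))) {f : Φ} (hf : f ∈ M.S)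
    (hv : vx f ∈ ch.colm t K rt d) :
    (∀ g ∈ M.fo f, vx g ∈ ch.core t) ∨ ∃ J, A ≤ J ∧ J < B ∧ f ∈ rg M U C O (s0 + J) := by
  have a := h.ix_lt r e (show A ≤ m by omega)
  have b := h.ix_lt r e h3
  rcases h.dirn r e with k | k <;> have := k A (by omega) <;> have := k B h3
  · have := h.col_lt (show ixx s0 u e A < ixx s0 u e B by omega) b
    refine (h.seg_btw a b hd (by omega) (by omega) hf hv).imp id fun ⟨s, c1, c2, c3⟩ => ?_
    have := k (s - ixx s0 u e 0) (by omega)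
    have := k (s - ixx s0 u e 0 + 1) (by omega)
    exact ⟨s - ixx s0 u e 0, by omega, by omega, h.seg_rg r e (by omega)
      (by rwa [show kp s0 u e (s - ixx s0 u e 0) = s by unfold kp; omega])⟩
  · have := h.col_lt (show ixx s0 u e B < ixx s0 u e A by omega) a
    refine (h.seg_btw b a hd (by omega) (by omega) hf hv).imp id fun ⟨s, c1, c2, c3⟩ => ?_
    have := k (ixx s0 u e 0 - s - 1) (by omega)
    have := k (ixx s0 u e 0 - s - 1 + 1) (by omega)
    exact ⟨ixx s0 u e 0 - s - 1, by omega, by omega, h.seg_rg r e (by omega)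
      (by rwa [show kp s0 u e (ixx s0 u e 0 - s - 1) = s by unfold kp; omega])⟩

theorem kp_v (e : Bool) {J : ℕ} (hJ : J < m) {x : Φ} (hx : x ∈ Seg M U O (kp s0 u e J)) :
    ∃ d, ch.cen μ d ∧ min (c (h.I (ixx s0 u e J))) (c (h.I (ixx s0 u e (J + 1)))) ≤ d ∧
      d ≤ max (c (h.I (ixx s0 u e J))) (c (h.I (ixx s0 u e (J + 1)))) ∧
      vx x ∈ ch.colm t K rt d := by
  obtain ⟨d, a1, a2, a3, a4⟩ := h.seg_v (h.kp_lt r e hJ) hx
  refine ⟨d, a1, ?_, ?_, a4⟩ <;> rcases h.kp_or r e hJ with ⟨k, k'⟩ | ⟨k, k'⟩ <;> rw [k, k'] <;> omega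

theorem St_rg {J : ℕ} (h1 : 0 < J) (h2 : J < m) {f : Φ} (hf : f ∈ M.S)
    (hv : vx f ∈ EV (h.I (s0 + J)).1) :
    ∃ J', J - 1 ≤ J' ∧ J' < J + 1 ∧ f ∈ rg M U C O (s0 + J') := by
  have hK := (h.K_eq _).2 ⟨_, hv⟩
  have e := h.ear r (h.I (s0 + J)).2 h2.le
  rw [Bool.xor_self] at e
  have k := h.col_in' r (h.I (s0 + J)).2 (show J - 1 < J by omega) (Nat.lt_succ_self J) h2
  rw [e] at k
  exact (h.btw r _ (by omega) h2 (h.free _).1 k.1 k.2 hf
    (Or.inr ⟨hK, h.rt_eq _ _ hv⟩)).resolve_left fun d => h.Kc hK (d f (Cy.orb_self _ _ _))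

theorem old_rg (hb : bn.Ok ch M vx H t μ) {J b : ℕ} (hJ : J < m) (k : b < bn.r) :
    ∀ g ∈ rg M U C O (s0 + J), vx g ∉ bn.body b := by
  refine h.old hb (h.cS _) k fun g hg e hv => ?_
  have z := hb.two
  have l := col_btw hb k e (show 0 < bn.w by omega)
  have l' := col_btw hb k e (show bn.w - 1 < bn.w by omega)
  have co : vx g ∈ ch.core t := by
    obtain ⟨a, b1, b2, b3, b4⟩ := hv
    obtain ⟨c1, c2⟩ := hb.cen b k e 0 (by omega)
    obtain ⟨c3, c4⟩ := hb.cen b k e (bn.w - 1) (by omega)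
    have := h.tm
    unfold Bn.lo at b3
    unfold Bn.hi at b4
    exact ⟨a, b1, by omega, by omega, by omega⟩
  obtain ⟨e', s⟩ := h.rg_seg r hJ hg (Or.inr co)
  obtain ⟨d, -, a2, a3, ⟨-, -, -, a4, a5⟩ | a4⟩ := h.seg_v (h.kp_lt r e' hJ) s
  · have := h.nZ hb (h.kp_lt r e' hJ) (h.kZ r e' hJ) k e
    obtain ⟨-, -, -, b3, b4⟩ := hv
    omega
  · exact h.Kc a4.1 co

theorem side (hb : bn.Ok ch M vx H t μ) {b : ℕ} (k : b < bn.r) (e e' : Bool) :
    (∀ J ≤ m, c (h.I (ixx s0 u e' J)) < bn.lo b e) ∨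
      ∀ J ≤ m, bn.hi b e < c (h.I (ixx s0 u e' J)) := by
  have l := col_btw hb k e (show 0 < bn.w by have := hb.two; omega)
  have st : ∀ J < m, (c (h.I (ixx s0 u e' J)) < bn.lo b e ∧
      c (h.I (ixx s0 u e' (J + 1))) < bn.lo b e) ∨ (bn.hi b e < c (h.I (ixx s0 u e' J)) ∧
      bn.hi b e < c (h.I (ixx s0 u e' (J + 1)))) := fun J hJ => by
    have := h.nZ hb (h.kp_lt r e' hJ) (h.kZ r e' hJ) k e
    have := h.col_lt (Nat.lt_succ_self _) (h.kp_lt r e' hJ)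
    simp only [Nat.succ_eq_add_one] at this
    rcases h.kp_or r e' hJ with ⟨k, k'⟩ | ⟨k, k'⟩ <;> rw [k, k'] <;> omega
  refine ((h.free (h.I (ixx s0 u e' 0))).2 b k e).imp (fun z J => ?_) fun z J => ?_
  all_goals
    induction J with
    | zero => exact fun _ => z
    | succ J ih => exact fun a => by have := ih (by omega); have := st J a; omega

end Ears

end Pool.Agent.MP_9d78a0_co.gm.Nw

end MrgPart4

-- ======== part 5: formerly Pool.Agent.MP_9d78a0_co.gm.RNewE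
section MrgPart5

/-! Routing, row NEW: the new band satisfies the invariant. -/

set_option autoImplicit false

namespace Pool.Agent.MP_9d78a0_co.gm.Nw

open Set Function FM

variable {Φ V ι : Type} {M : FM Φ} {vx : Φ → V} {H : Set V} {ch : Ch V} {bn : Bn V} {t μ : ℕ}
  {EV : ι → Set V} {c : ι × Bool → ℕ} {dd : ι × Bool → Φ} {K : Set V} {rt : V → ℕ} {U C : Set Φ}
  {O : ℕ → Φ} {n w s0 : ℕ} {u : ℕ → ℕ} {up : Bool}

theorem a_pot (hM : M.Ok) {A : Set Φ} {β χ : Φ → ZMod 2} (ψ : V → ZMod 2) (h : Pot A M.a β χ)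
    {x : Φ} (hx : x ∈ A) : χ (M.a x) + ψ (vx (M.a x)) = χ x + ψ (vx x) + od M vx β ψ x := by
  have _ := hM
  rw [h x hx, od]
  exact (by decide : ∀ a b d e : ZMod 2, a + b + e = a + d + (b + d + e)) _ _ _ _

theorem od_c (hM : M.Ok) (hl : M.Lbl vx) {β : Φ → ZMod 2} (hβ : M.Ech β) (ψ : V → ZMod 2) {x : Φ}
    (hx : x ∈ M.S) : od M vx β ψ (M.c x) = od M vx β ψ x := by
  rw [od, od, (hβ x hx).2, hl.c hM hx, hl.ac hM hx]

namespace Ears

variable (h : Ears M vx H ch bn t μ EV c dd K rt U C O n)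
  (r : Run M U C O (LL U O n) h.Zb (M.Good vx H (U ∪ C)) (w + 1) s0 u up) (w2 : 2 ≤ w)
include h r w2

omit r in
theorem lo_eq (e : Bool) : (h.nbd w s0 u up).lo 0 e =
    min (c (h.I (ixx s0 u e 1))) (c (h.I (ixx s0 u e w))) := by
  change min _ (c (h.I (ixx s0 u e (w - 1 + 1)))) = _
  rw [Nat.sub_add_cancel (by omega)]
  rfl

omit r in
theorem hi_eq (e : Bool) : (h.nbd w s0 u up).hi 0 e =
    max (c (h.I (ixx s0 u e 1))) (c (h.I (ixx s0 u e w))) := by
  change max _ (c (h.I (ixx s0 u e (w - 1 + 1)))) = _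
  rw [Nat.sub_add_cancel (by omega)]
  rfl

theorem lohi (e : Bool) :
    min (c (h.I (ixx s0 u e 0))) (c (h.I (ixx s0 u e (w + 1)))) < (h.nbd w s0 u up).lo 0 e ∧
      (h.nbd w s0 u up).hi 0 e < max (c (h.I (ixx s0 u e 0))) (c (h.I (ixx s0 u e (w + 1)))) := by
  have := h.col_in' r e Nat.one_pos (show 1 < w + 1 by omega) le_rfl
  have := h.col_in' r e (show 0 < w by omega) (show w < w + 1 by omega) (le_refl (w + 1))
  rw [h.lo_eq w2, h.hi_eq w2]
  omega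

theorem gap : (h.nbd w s0 u up).hi 0 false + 1 < (h.nbd w s0 u up).lo 0 true ∨
    (h.nbd w s0 u up).hi 0 true + 1 < (h.nbd w s0 u up).lo 0 false := by
  have := h.lohi r w2 false
  have := h.lohi r w2 true
  rcases h.col_sep r with k | k <;> have := k 0 (by omega) 0 (by omega) <;>
    have := k 0 (by omega) _ le_rfl <;> have := k _ le_rfl 0 (by omega) <;>
    have := k _ le_rfl _ le_rfl <;> omega

omit r in
theorem segA_col (e : Bool) {v : V} (hv : v ∈ (h.nbd w s0 u up).segA ch t 0 e) :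
    ∃ d, ch.cen μ d ∧ v ∈ ch.cell t d ∧ (h.nbd w s0 u up).lo 0 e ≤ d ∧
      d ≤ (h.nbd w s0 u up).hi 0 e := by
  obtain ⟨a, b1, b2, b3, b4⟩ := hv
  have := h.le v a
  obtain ⟨c1, c2⟩ := (h.free (h.I (ixx s0 u e 1))).1
  obtain ⟨c3, c4⟩ := (h.free (h.I (ixx s0 u e w))).1
  have := h.lo_eq (s0 := s0) (u := u) (up := up) w2 e
  have := h.hi_eq (s0 := s0) (u := u) (up := up) w2 e
  exact ⟨ch.y v / 2, ⟨by omega, by omega⟩, ⟨a, b1, b2, by omega, by omega⟩, by omega, by omega⟩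

omit w2 in
theorem body_rg {f : Φ} (hf : f ∈ M.S) (hv : vx f ∈ (h.nbd w s0 u up).body 0) :
    ∃ J < w + 1, f ∈ rg M U C O (s0 + J) := by
  rcases hv with ⟨j, a, k⟩ | ⟨j, a, ⟨g, k, e⟩, k'⟩
  · obtain ⟨J, -, b, d⟩ := h.St_rg r (Nat.succ_pos j) (Nat.succ_lt_succ a) hf k
    exact ⟨J, by change j < w at a; omega, d⟩
  · exact ⟨j + 1, Nat.lt_succ_of_lt a, h.vo_reg (h.cS _) k hf e (e ▸ k')⟩

omit w2 in
theorem tile {j : ℕ} (hj : j + 1 < w) {g : Φ} (hg : g ∈ rg M U C O (s0 + (j + 1))) :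
    vx g ∈ (h.nbd w s0 u up).tile ch t 0 j := by
  by_cases k : vx g ∈ K ∪ ch.core t
  swap
  · exact Or.inl (Or.inl (Or.inr ⟨⟨g, hg, rfl⟩, k⟩))
  have l : j + 1 < w + 1 := by omega
  obtain ⟨e, s⟩ := h.rg_seg r l hg k
  obtain ⟨d, -, a2, a3, ⟨a, b1, b2, b3, b4⟩ | a4⟩ := h.kp_v r e l s
  · have : vx g ∈ (h.nbd w s0 u up).seg ch t 0 e j :=
      ⟨a, b1, b2, (Nat.mul_le_mul_left 2 a2).trans b3, b4.trans (Nat.mul_le_mul_left 2 a3)⟩
    cases e
    exacts [Or.inl (Or.inr this), Or.inr this]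
  · have := h.seg_K (h.kp_lt r e l) s a4.1
    refine Or.inl (Or.inl (Or.inl ?_))
    rcases h.kp_or r e l with ⟨k1, k2⟩ | ⟨k1, k2⟩
    · rw [← k2, ← k1, h.ear r e l.le, h.ear r e (show j + 1 + 1 ≤ w + 1 from l)] at this
      exact this
    · rw [← k1, ← k2, h.ear r e l.le, h.ear r e (show j + 1 + 1 ≤ w + 1 from l)] at this
      exact this.symm

theorem par {g : ℕ} {B : Fin g × Fin g → Set V} (hch : ch.Ok M vx H B) (t1 : 1 ≤ t)
    {β : Φ → ZMod 2} {ψ : V → ZMod 2} (hβ : M.Adm vx H β) (hψ : M.Pt vx β ψ C) :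
    (h.nbd w s0 u up).Par ch M vx t β 0 (od M vx β ψ (pp U O s0)) := by
  classical
  choose! χ x1 x2 x3 using fun J (hJ : J < w + 1) => (r.good J hJ).1.pot β hβ
  set ε := od M vx β ψ (pp U O s0)
  let α : ℕ → ZMod 2 := fun J => χ J (M.c (pp U O (s0 + J))) + ψ (vx (M.c (pp U O (s0 + J))))
  have sq : ∀ J < w + 1, ∀ e, ∀ x ∈ Seg M U O (kp s0 u e J), ∀ y ∈ Seg M U O (kp s0 u e J),
      χ J y + ψ (vx y) = χ J x + ψ (vx x) := fun J hJ e x hx y hy =>
    pot_R h.ok h.hm.lbl (h.cS _) (x1 J hJ) (x2 J hJ) (x3 J hJ) hψ (h.seg_rg r e hJ hx)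
      (h.seg_rel hx hy)
  have s0' : ∀ J < w + 1, ∀ y ∈ Seg M U O (kp s0 u false J), χ J y + ψ (vx y) = α J :=
    fun J hJ y hy => sq J hJ false _ ((kp_false J).symm ▸ h.dk.cp_seg _) y hy
  have s1 : ∀ J < w + 1, ∀ y ∈ Seg M U O (kp s0 u true J),
      χ J y + ψ (vx y) = α J + od M vx β ψ (pp U O (s0 + J)) := fun J hJ y hy => by
    rw [sq J hJ true _ (r.good J hJ).2.2.2.1 y hy, a_pot h.ok ψ (x1 J hJ) (self_rg _),
      od_c h.ok h.hm.lbl hβ.1 ψ (h.dk.pS _)]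
  have oe : ∀ J < w + 1, od M vx β ψ (pp U O (s0 + J)) = ε := by
    intro J
    induction J with
    | zero => exact fun _ => rfl
    | succ J ih =>
      intro k
      have l : J < w + 1 := by omega
      have m : pp U O (s0 + J + 1) ∈ Seg M U O (kp s0 u false J) :=
        (kp_false J).symm ▸ h.dk.p_seg _
      have := s1 J l _ (r.good J l).2.2.2.2.1
      rw [a_pot h.ok ψ (x1 J l) (h.seg_rg r false l m), s0' J l _ m, ih l] at this
      exact add_left_cancel this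
  let tr : ℕ → Prop := fun d => min (c (h.I (ixx s0 u true 0))) (c (h.I (ixx s0 u true (w + 1)))) ≤ d ∧
    d ≤ max (c (h.I (ixx s0 u true 0))) (c (h.I (ixx s0 u true (w + 1))))
  have ntr : ∀ d, min (c (h.I (ixx s0 u false 0))) (c (h.I (ixx s0 u false (w + 1)))) ≤ d →
      d ≤ max (c (h.I (ixx s0 u false 0))) (c (h.I (ixx s0 u false (w + 1)))) → ¬ tr d := by
    rintro d a b ⟨a', b'⟩
    rcases h.col_sep r with k | k <;> have := k 0 (by omega) 0 (by omega) <;>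
      have := k 0 (by omega) _ le_rfl <;> have := k _ le_rfl 0 (by omega) <;>
      have := k _ le_rfl _ le_rfl <;> omega
  have sc : ∀ J < w + 1, ∀ e, ∀ x ∈ Seg M U O (kp s0 u e J),
      min (c (h.I (ixx s0 u e 0))) (c (h.I (ixx s0 u e (w + 1)))) ≤ cO ch K rt (vx x) ∧
      cO ch K rt (vx x) ≤ max (c (h.I (ixx s0 u e 0))) (c (h.I (ixx s0 u e (w + 1)))) := by
    intro J hJ e x hx
    obtain ⟨d, a1, a2, a3, a4⟩ := h.kp_v r e hJ hx
    have := h.col_in r e (Nat.zero_le J) hJ.le le_rfl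
    have := h.col_in r e (Nat.zero_le (J + 1)) hJ le_rfl
    rw [h.cO_eq a1 a4]
    omega
  let ψ' : V → ZMod 2 := fun v => if v ∈ K ∪ ch.core t then ψ v + if tr (cO ch K rt v) then ε else 0
    else if k : ∃ z : ℕ × Φ, z.1 < w + 1 ∧ z.2 ∈ rg M U C O (s0 + z.1) ∧ vx z.2 = v then
      χ k.choose.1 k.choose.2 + α k.choose.1 else 0
  have star : ∀ J < w + 1, ∀ g ∈ rg M U C O (s0 + J), ψ' (vx g) = χ J g + α J := by
    intro J hJ g hg
    by_cases k : vx g ∈ K ∪ ch.core t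
    · obtain ⟨e, s⟩ := h.rg_seg r hJ hg k
      have a := sc J hJ e g s
      cases e
      · simp only [ψ', if_pos k, if_neg (ntr _ a.1 a.2), ← s0' J hJ g s]
        exact (by decide : ∀ a b : ZMod 2, b + 0 = a + (a + b)) _ _
      · have := s1 J hJ g s
        rw [oe J hJ] at this
        simp only [ψ', if_pos k, if_pos (show tr _ from a)]
        exact (by decide : ∀ a b d e : ZMod 2, a + b = d + e → b + e = a + d) _ _ _ _ this
    · have k' : ∃ z : ℕ × Φ, z.1 < w + 1 ∧ z.2 ∈ rg M U C O (s0 + z.1) ∧ vx z.2 = vx g :=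
        ⟨(J, g), hJ, hg, rfl⟩
      simp only [ψ', if_neg k, dif_pos k']
      obtain ⟨a1, a2, a3⟩ := k'.choose_spec
      generalize k'.choose = z at a1 a2 a3
      obtain ⟨J', y⟩ := z
      have gS := h.rgS hg
      obtain rfl : J' = J :=
        h.rg_uniq r a1 hJ (h.vo_reg (h.cS _) a2 gS a3 (a3 ▸ k)) hg
      have key : ∀ z ∈ M.vo g, z ∈ rg M U C O (s0 + J') := fun z hz =>
        h.vo_reg (h.cS _) hg (h.ok.vo_mem gS hz) (h.hm.lbl.of_vo h.ok gS hz).symm k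
      congr 1
      refine (Cy.orb_ind (P := fun z => z ∈ M.vo g ∧ χ J' z = χ J' g)
        ((h.hm.lbl g gS y (h.rgS a2)).1 a3.symm) ⟨Cy.orb_self _ _ _, rfl⟩
        (fun z a => ⟨Cy.orb_p a.1, ?_⟩) fun z a => ⟨Cy.orb_q a.1, ?_⟩).2
      · rw [x2 J' hJ z (key z a.1), Pi.zero_apply, add_zero, a.2]
      · rw [x3 J' hJ z ⟨key z a.1, fun d => k (h.hm.lbl.of_vo h.ok gS a.1 ▸ h.vE d)⟩, Pi.zero_apply,
          add_zero, a.2]
  have sA : ∀ e, ∀ v ∈ (h.nbd w s0 u up).segA ch t 0 e,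
      v ∈ ch.core t ∧ ψ' v = ψ v + cond e ε 0 := fun e v hv => by
    obtain ⟨d, a1, a2, a3, a4⟩ := h.segA_col w2 e hv
    have co := cell_core h.tm a1 a2
    have l := h.lohi r w2 e
    refine ⟨co, ?_⟩
    simp only [ψ', if_pos (show v ∈ K ∪ ch.core t from Or.inr co), h.cO_eq a1 (Or.inl a2)]
    cases e
    · rw [if_neg (ntr d (by omega) (by omega))]; rfl
    · rw [if_pos (show tr d from ⟨by omega, by omega⟩)]; rfl
  refine ⟨ψ, ψ', fun f hf => hψ f (h.core hf), fun f hf => ?_,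
    fun v hv => by simpa using (sA false v hv).2, fun v hv => (sA true v hv).2⟩
  have k1 : ∀ f ∈ M.S, vx f ∈ (h.nbd w s0 u up).body 0 → β f = ψ' (vx f) + ψ' (vx (M.a f)) := by
    intro f hf hv
    obtain ⟨J, a, b⟩ := h.body_rg r hf hv
    rw [star J a f b, star J a _ (a_rg b), x1 J a f b]
    exact (by decide : ∀ a b d : ZMod 2, b = a + d + (a + b + d)) _ _ _
  obtain ⟨fS, f1, f2⟩ := hf
  by_cases c1 : vx f ∈ (h.nbd w s0 u up).body 0
  · exact k1 f fS c1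
  by_cases c2 : vx (M.a f) ∈ (h.nbd w s0 u up).body 0
  · have := k1 _ (h.ok.a_mem fS) c2
    rwa [(hβ.1 f fS).1, h.ok.aa fS, add_comm] at this
  obtain ⟨e, g1⟩ : ∃ e, vx f ∈ (h.nbd w s0 u up).segA ch t 0 e :=
    f1.elim (fun k => ⟨false, k.resolve_left c1⟩) fun k => ⟨true, k⟩
  obtain ⟨e', g2⟩ : ∃ e, vx (M.a f) ∈ (h.nbd w s0 u up).segA ch t 0 e :=
    f2.elim (fun k => ⟨false, k.resolve_left c2⟩) fun k => ⟨true, k⟩
  obtain rfl : e = e' := by
    by_contra ne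
    obtain ⟨d, ⟨a0, a1⟩, ⟨a2, b1, b2, b3, b4⟩, a3, a4⟩ := h.segA_col w2 e g1
    obtain ⟨d', -, ⟨-, -, -, b5, b6⟩, a5, a6⟩ := h.segA_col w2 e' g2
    have := h.tm
    obtain ⟨x, -, y, -, k⟩ := hch.face f fS ⟨a2, by omega, by omega, by omega, by omega⟩
    obtain ⟨-, -, -, e1, e2⟩ := k f (Cy.orb_self _ _ _)
    obtain ⟨-, -, -, e3, e4⟩ := k _ (Cy.orb_p (Cy.orb_self _ _ _))
    have := h.gap r w2
    cases e <;> cases e'
    exacts [ne rfl, by omega, by omega, ne rfl]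
  rw [(sA e _ g1).2, (sA e _ g2).2, hψ f (h.core ⟨fS, (sA e _ g1).1, (sA e _ g2).1⟩)]
  exact (by decide : ∀ a b d : ZMod 2, a + b = a + d + (b + d)) _ _ _

theorem nok {g : ℕ} {B : Fin g × Fin g → Set V} (hch : ch.Ok M vx H B) (t1 : 1 ≤ t)
    (hψ : ∀ β, M.Adm vx H β → ∃ ψ, M.Pt vx β ψ C) {β : Φ → ZMod 2} (hβ : M.Adm vx H β)
    (p1 : (h.nbd w s0 u up).Par ch M vx t β 0 1) : (h.nbd w s0 u up).Ok ch M vx H t μ := by
  have z : ∀ b < (h.nbd w s0 u up).r, b = 0 := fun b k => Nat.lt_one_iff.1 k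
  refine ⟨w2, fun _ _ j hj => ?_, fun _ _ j hj => ⟨fun e => ?_, fun e => ?_⟩,
    fun _ _ _ _ _ => (h.free _).1, fun b k e b' k' e' ne => ?_, fun b k v hv => ?_,
    fun b k j hj b' k' j' hj' ne => ?_, fun _ _ j _ _ _ j' _ => ?_,
    fun b k j hj b' k' j' hj' ne => ?_, fun _ _ j hj => ⟨(h.conn _).1, fun e => ?_⟩,
    fun b k f hf hv => ?_, fun γ hγ b k => ?_, fun b k => ?_⟩
  · exact h.col_lt (Nat.lt_succ_self _) (h.ix_lt r false (J := j + 1 + 1) (Nat.succ_le_succ hj.le))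
  · exact h.col_lt (by have := r.up1 e (j + 1) (Nat.lt_succ_of_lt hj); simp only [ixx, cond]; omega)
      (h.ix_lt r true (J := j + 1 + 1) (Nat.succ_le_succ hj.le))
  · exact h.col_lt (by have := r.up0 e (j + 1) (Nat.lt_succ_of_lt hj); simp only [ixx, cond]; omega)
      (h.ix_lt r true (J := j + 1) (Nat.lt_succ_of_lt hj).le)
  · obtain rfl := z b k
    obtain rfl := z b' k'
    cases e <;> cases e'
    exacts [absurd rfl ne, h.gap r w2, (h.gap r w2).symm, absurd rfl ne]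
  · obtain rfl := z b k
    obtain ⟨⟨f, hf, rfl⟩, co⟩ : v ∈ vx '' M.S ∧ v ∉ ch.core t := by
      rcases hv with ⟨j, -, a⟩ | ⟨j, -, ⟨g, a, rfl⟩, b⟩
      exacts [⟨(h.sub _ a).1.1, fun d => (h.sub _ a).2 (Or.inl d)⟩,
        ⟨⟨g, h.rgS a, rfl⟩, fun d => b (Or.inr d)⟩]
    obtain ⟨J, a, b⟩ := h.body_rg r hf hv
    refine ⟨⟨⟨⟨f, hf, rfl⟩, (r.good J a).1.hole f b⟩, ?_⟩, co⟩
    rintro ⟨x, xS, a1, y, a2, a3⟩
    obtain ⟨J, a, b⟩ := h.body_rg r (h.ok.fo_mem xS a2) (a3 ▸ hv)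
    exact (r.good J a).1.hole x (fo_rg b (h.ok.fo_symm xS a2)) a1
  · refine disjoint_left.2 fun v a a' => ne ?_
    change j < w at hj
    change j' < w at hj'
    have e : (h.I (s0 + (j + 1))).1 = (h.I (s0 + (j' + 1))).1 :=
      (Prod.mk.inj (h.inj ((h.rt_eq _ v a).symm.trans (h.rt_eq _ v a')))).1
    have e1 := h.ear r (xor (h.I (s0 + (j + 1))).2 (h.I (s0 + (j' + 1))).2)
      (show j + 1 ≤ w + 1 by omega)
    rw [Bool.xor_comm, Bool.xor_assoc, Bool.xor_self, Bool.xor_false, e] at e1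
    have l := h.ix_lt r false (show j' + 1 ≤ w + 1 by omega)
    have l' := h.ix_lt r (xor (h.I (s0 + (j' + 1))).2 (h.I (s0 + (j + 1))).2)
      (show j + 1 ≤ w + 1 by omega)
    have e2 := le_antisymm (h.le_col l' (congrArg c e1).le) (h.le_col l (congrArg c e1).ge)
    generalize xor (h.I (s0 + (j' + 1))).2 (h.I (s0 + (j + 1))).2 = δ at e2
    cases δ <;> simp only [ixx, cond] at e2
    · rw [z b k, z b' k', show j = j' by omega]
    · rcases r.sep with d | d <;> have := d (j + 1) (by omega) <;> omega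
  · exact disjoint_left.2 fun v a a' => a'.2 (Or.inl ((h.K_eq v).2 ⟨_, a⟩))
  · refine disjoint_left.2 ?_
    rintro _ ⟨⟨g, a, rfl⟩, a'⟩ ⟨⟨g', d, e⟩, -⟩
    have := h.rg_uniq r (Nat.lt_succ_of_lt hj) (Nat.lt_succ_of_lt hj')
      (h.vo_reg (h.cS _) a (h.rgS d) e.symm a') d
    exact ne (by rw [z b k, z b' k', show j = j' by omega])
  · change fb.Touch _ _ (ch.cell t (c (h.I (ixx s0 u e (j + 1)))))
    rw [h.ear r e (Nat.succ_le_succ hj.le)]
    exact (h.conn _).2 _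
  · obtain rfl := z b k
    have fin : (∃ J, 1 ≤ J ∧ J < w ∧ f ∈ rg M U C O (s0 + J)) → ∃ j, j + 1 < w ∧
        ∀ g ∈ M.fo f, vx g ∈ (h.nbd w s0 u up).tile ch t 0 j := fun ⟨J, a, b, d⟩ => by
      obtain ⟨j, rfl⟩ := Nat.exists_eq_add_of_le' a
      exact ⟨j, b, fun g e => h.tile r b (fo_rg d e)⟩
    rcases hv with (⟨j, a, b, d⟩ | ⟨j, a, ⟨g, d, e⟩, d'⟩) | ⟨e, a, b1, b2, b3, b4⟩
    · obtain ⟨J, c1, c2, c3⟩ := h.St_rg r (Nat.succ_pos j) (Nat.lt_succ_of_lt b) hf d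
      change j + 1 < w at b
      exact Or.inr (fin ⟨J, by omega, by omega, c3⟩)
    · exact Or.inr (fin ⟨j + 1, by omega, a, h.vo_reg (h.cS _) d hf e (e ▸ d')⟩)
    · obtain ⟨d, a1, a2, -, -⟩ := h.segA_col (s0 := s0) (u := u) (up := up) w2 e ⟨a, b1, b2, by omega, by omega⟩
      rw [h.lo_eq w2] at b3
      rw [h.hi_eq w2] at b4
      have := a2.2.2.2
      exact (h.btw r e (show 1 < w from w2) (Nat.le_succ w) a1 (by omega) (by omega) hf
        (Or.inl a2)).imp id fin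
  · obtain rfl := z b k
    obtain ⟨ψ, a⟩ := hψ γ hγ
    exact ⟨_, h.par r w2 hch t1 hγ a⟩
  · obtain rfl := z b k
    exact ⟨β, hβ, p1, fun _ d => absurd d (Nat.not_lt_zero _)⟩

omit r w2 in
theorem band {g k q : ℕ} {B : Fin g × Fin g → Set V} (hS : Stg k q M vx H B ch) (t1 : 1 ≤ t)
    (hb : bn.Ok ch M vx H t μ) (hψ : ∀ β, M.Adm vx H β → ∃ ψ, M.Pt vx β ψ C) {β : Φ → ZMod 2}
    {ψ : V → ZMod 2} (hβ : M.Adm vx H β) (h1 : M.Pt vx β ψ C) (h2 : ∀ x ∈ U, od M vx β ψ x = 1)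
    (p0 : ∀ b < bn.r, bn.Par ch M vx t β b 0)
    (hL : (16 * (k + q) + 12 * k + 4 * (2 * bn.r) + 5) * (bn.w + 1) ≤ LL U O n) :
    ∃ bn' : Bn V, bn'.r = bn.r + 1 ∧ bn'.w = bn.w ∧ bn'.Ok ch M vx H t μ := by
  obtain ⟨s0, u, up, r⟩ := h.dk.run (G := M.Good vx H (U ∪ C)) hS.eg
    (goodS k q Φ V M vx H _ h.ok h.hm.lbl hS.eg hS.hq h.esE h.conE (disjoint_right.2 (by
      rintro _ ⟨x, a, rfl⟩ b
      rcases h.vE a with d | d
      · obtain ⟨i, d⟩ := (h.K_eq _).1 d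
        exact (h.sub i d).1.2 b
      · exact (hS.ch.sub d.1).1.2 b)))
    (fun f hf e G => by
      obtain ⟨χ, x1, x2, x3⟩ := G.pot β hβ
      have m : f ∈ M.reg (U ∪ C) f := mem_reg.2 R.rfl
      have R1 := minor_b_R h.ok h.dk.eU h.dk.eC.cl hf
      have a := pot_R h.ok h.hm.lbl (h.dk.eU.1 hf) x1 x2 x3 h1 m R1
      have b := a_pot h.ok ψ x1 (vx := vx) (mem_reg.2 (R1.mono (subset_univ _)
        fun _ a b => b.elim a.1 a.2))
      rw [e, a, h2 _ (h.dk.mok.b_mem hf)] at b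
      exact (by decide : ∀ a : ZMod 2, a ≠ a + 1) _ b)
    h.Zb_card.1 h.Zb_card.2 (show 0 < bn.w + 1 by omega) hL
  have p1 := h.par r hb.two hS.ch t1 hβ h1
  rw [h2 _ (h.dk.pU _)] at p1
  refine ⟨add bn (h.nbd bn.w s0 u up), rfl, rfl, add_ok hb (h.nok r hb.two hS.ch t1 hψ hβ p1) rfl rfl
    (fun b k e e' => ?_) (fun b k => disjoint_right.2 ?_) hβ p1 p0⟩
  · have := h.lohi r hb.two e'
    rcases h.side r hb k e e' with d | d <;> have := d 0 (by omega) <;>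
      have := d (bn.w + 1) le_rfl <;> omega
  · rintro v (⟨j, -, a⟩ | ⟨j, a, ⟨g, d, rfl⟩, -⟩)
    exacts [fun d => (h.sub _ a).2 (Or.inr ⟨b, k, d⟩), h.old_rg r hb (Nat.lt_succ_of_lt a) k g d]

end Ears

end Pool.Agent.MP_9d78a0_co.gm.Nw

end MrgPart5

-- ======== part 6: formerly Pool.Agent.MP_9d78a0_co.gm.RNew
section MrgPart6

/-! Routing, row NEW: many odd ears give a new band. -/

set_option autoImplicit false

namespace Pool.Agent.MP_9d78a0_co.gm

open Set Function Relation FM Nw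

namespace Nw

theorem tel {β ψ : ℕ → ZMod 2} (l : ℕ) (k : ∀ j < l, β j = ψ j + ψ (j + 1)) :
    ∑ j ∈ Finset.range (l + 1), β j = ψ 0 + ψ l + β l := by
  rw [← RLol.tel (Nat.zero_le l) k, Nat.range_succ_eq_Icc_zero]

end Nw

theorem newS (hH : HangS) (hO : OrderS) (hC : CoreS) : NewS := by
  intro k q r w
  refine ⟨(16 * (k + q) + 12 * k + 4 * (2 * r) + 5) * (w + 1), ?_⟩
  generalize hN : (16 * (k + q) + 12 * k + 4 * (2 * r) + 5) * (w + 1) = N
  intro g Φ V M vx H B ch bn t μ β ψ e l c st hb hr hw t1 tμ μs hβ hψ p0 ci fr dis E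
  subst hr hw
  have h := st.hm.ok
  have hl := st.hm.lbl
  have S : ∀ i, ∀ j ≤ l i, e i j ∈ M.S := fun i => (E i).1.mem
  have c0 : ∀ i, vx (e i 0) ∈ ch.core t := fun i => cell_core ⟨tμ, μs⟩ (fr _).1 (E i).2.1
  have c1 : ∀ i, vx (M.a (e i (l i))) ∈ ch.core t := fun i =>
    cell_core ⟨tμ, μs⟩ (fr _).1 (E i).2.2.1
  have mK : ∀ i j, 0 < j → j ≤ l i → vx (e i j) ∈ earV vx (e i) (l i) := fun i j a b =>
    ⟨j, ⟨a, b⟩, rfl⟩
  have nP : ∀ i, earV vx (e i) (l i) ⊆ M.tv vx H \ bn.prot ch t := by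
    rintro i _ ⟨j, m, rfl⟩
    exact (E i).1.inner j m.1 m.2
  have nK : ∀ i, ∀ v ∈ earV vx (e i) (l i), v ∉ ch.core t := fun i v a b => (nP i a).2 (Or.inl b)
  have idx : ∀ i, ∀ j ≤ l i, ∀ j', 0 < j' → j' ≤ l i → vx (e i j) = vx (e i j') → j = j' := by
    intro i j a j' b b' m
    rcases Nat.eq_zero_or_pos j with rfl | p
    · exact (nK i _ (mK i j' b b') (m ▸ c0 i)).elim
    · exact (E i).1.inj j p a j' b b' m
  have same : ∀ i i', ∀ v ∈ earV vx (e i) (l i), v ∈ earV vx (e i') (l i') → i = i' :=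
    fun i i' v a b => by_contra fun n => Set.disjoint_left.1 (dis n) a b
  have lK : ∀ i, vx (e i (l i)) ∈ earV vx (e i) (l i) := fun i => mK i _ (E i).1.pos le_rfl
  set P : Fin N → Set Φ := fun i => {x | ∃ j < l i, x ∈ M.eo (e i j)} with hP
  have en : ∀ i, ∀ j < l i, ∀ x ∈ M.eo (e i j),
      (vx x = vx (e i j) ∧ vx (M.a x) = vx (e i (j + 1))) ∨
        (vx x = vx (e i (j + 1)) ∧ vx (M.a x) = vx (e i j)) := fun i j m x hx =>
    (E i).1.next j m ▸ RLol.ends h hl (S i j m.le) hx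
  obtain ⟨rt, C, cb, sub, hrt, inC⟩ := hH k q g Φ V _ M vx H B ch t μ univ
    (fun i => earV vx (e i) (l i)) P (fun i => {c (i, false)}) st tμ.le μs
    (fun i _ j _ n => dis n) (by
    refine fun i _ => ⟨Set.disjoint_left.2 (nK i), ⟨?_, ?_⟩, ?_, ?_, ?_⟩
    · exact fun x ⟨j, a, b⟩ => (h.gk.es_eo (S i j a.le)).1 b
    · exact fun x ⟨j, a, b⟩ => ⟨⟨j, a, ((h.gk.es_eo (S i j a.le)).2 x b).1⟩,
        j, a, ((h.gk.es_eo (S i j a.le)).2 x b).2⟩
    · rintro _ rfl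
      exact (fr _).1
    · rintro x ⟨j, a, b⟩
      rcases en i j a x b with m | m
      · rw [m.1]
        rcases Nat.eq_zero_or_pos j with rfl | p
        · exact Or.inr ⟨_, rfl, (E i).2.1⟩
        · exact Or.inl (mK i j p a.le)
      · rw [m.1]; exact Or.inl (mK i _ (by omega) a)
    · rintro _ ⟨j, m, rfl⟩
      refine ⟨_, c0 i, ?_⟩
      have : ∀ j ≤ l i, M.EL vx (P i) univ (vx (e i 0)) (vx (e i j)) := by
        intro j hj
        induction j with
        | zero => exact ReflTransGen.refl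
        | succ j ih => exact (ih (by omega)).tail ⟨trivial, trivial, e i j,
            ⟨j, hj, cl_self M.rE _⟩, rfl, (E i).1.next j hj⟩
      exact this j m.2)
  have eC : ∀ i, ∀ j < l i, e i j ∈ C := fun i j a => by
    refine inC i trivial _ ⟨j, a, cl_self M.rE _⟩ ((fun j => vx (e i j)) '' Icc (j + 1) (l i))
      (image_mono (Icc_subset_Icc_left (by omega))) ?_
      ⟨j + 1, ⟨le_rfl, a⟩, ((E i).1.next j a).symm⟩ ?_
    · rintro ⟨j', m, p⟩
      have := idx i j a.le j' (by have := m.1; omega) m.2 p.symm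
      have := m.1
      omega
    · rintro x ⟨j', a', b⟩ n ⟨j2, m, p⟩
      have m1 := m.1
      have ne : j' ≠ j := fun z => n (z ▸ b)
      rcases en i j' a' x b with u | u
      · have := idx i j' a'.le j2 (by omega) m.2 (u.1.symm.trans p.symm)
        exact ⟨j' + 1, ⟨by omega, a'⟩, u.2.symm⟩
      · have := idx i (j' + 1) a' j2 (by omega) m.2 (u.1.symm.trans p.symm)
        exact ⟨j', ⟨by omega, a'.le⟩, u.2.symm⟩
  obtain ⟨O, n, ord⟩ := hO k q g Φ V M vx H B ch t μ _ rt C st t1 tμ μs cb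
  set K := ⋃ i ∈ (univ : Set (Fin N)), earV vx (e i) (l i) with hK
  have Keq : ∀ v, v ∈ K ↔ ∃ i, v ∈ earV vx (e i) (l i) := fun v => by simp [hK]
  let dd : Fin N × Bool → Φ := fun p => cond p.2 (M.a (e p.1 (l p.1))) (e p.1 (l p.1))
  set U : Set Φ := {x | ∃ i, x ∈ M.eo (e i (l i))} with hUd
  have hU : M.Es U := ⟨fun x ⟨i, b⟩ => (h.gk.es_eo (S i _ le_rfl)).1 b, fun x ⟨i, b⟩ =>
    ⟨⟨i, ((h.gk.es_eo (S i _ le_rfl)).2 x b).1⟩, i, ((h.gk.es_eo (S i _ le_rfl)).2 x b).2⟩⟩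
  have Ueq : ∀ x, x ∈ U ↔ ∃ p, x = dd p ∨ x = M.c (dd p) := fun x => by
    constructor
    · rintro ⟨i, a⟩
      rcases (h.gk.mem_eo (S i _ le_rfl)).1 a with b | b | b | b
      exacts [⟨(i, false), Or.inl b⟩, ⟨(i, true), Or.inl b⟩, ⟨(i, false), Or.inr b⟩,
        ⟨(i, true), Or.inr (b.trans (h.comm (S i _ le_rfl)))⟩]
    · rintro ⟨⟨i, δ⟩, a⟩
      have m : dd (i, δ) ∈ U := by
        cases δ
        exacts [⟨i, cl_self M.rE _⟩, (hU.2 _ ⟨i, cl_self M.rE _⟩).1]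
      rcases a with rfl | rfl
      exacts [m, (hU.2 _ m).2]
  have eu := fun i x (hx : x ∈ M.eo (e i (l i))) => RLol.ends h hl (S i _ le_rfl) hx
  have d : Disjoint U C := by
    refine Set.disjoint_left.2 ?_
    have key : ∀ i, ∀ x ∈ C, vx x = vx (e i (l i)) → vx (M.a x) = vx (M.a (e i (l i))) → False := by
      intro i x m a b
      obtain ⟨z, z0, z1, z2⟩ := cb.ends x ⟨m, fun u => nK i _ (lK i) (a ▸ u.2.1)⟩
      have y1 : z = c (i, false) := z1.elim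
        (fun u => (nK i _ (lK i) (a ▸ cell_core ⟨tμ, μs⟩ z0 u)).elim)
        fun u => u.2.symm.trans (hrt i trivial _ (a ▸ lK i))
      have y2 : z = c (i, true) := z2.elim (fun u => by
          obtain ⟨-, -, -, u1, u2⟩ := u
          obtain ⟨-, -, -, u3, u4⟩ := (E i).2.2.1
          rw [b] at u1 u2
          omega)
        fun u => let ⟨j, u⟩ := (Keq _).1 u.1; (nK j _ u (b ▸ c1 i)).elim
      exact Bool.false_ne_true (Prod.mk.inj (ci (y1.symm.trans y2))).2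
    rintro x ⟨i, a⟩ m
    rcases eu i x a with u | u
    · exact key i x m u.1 u.2
    · exact key i _ (cb.es.2 x m).1 u.2 ((h.aa (cb.es.1 m)).symm ▸ u.1)
  have uK : ∀ x ∈ U, vx x ∈ K ∪ ch.core t := fun x ⟨i, a⟩ => (eu i x a).elim
    (fun u => Or.inl ((Keq _).2 ⟨i, u.1 ▸ lK i⟩)) fun u => Or.inr (u.1 ▸ c1 i)
  have N0 : 0 < N := hN ▸ Nat.mul_pos (by omega) (by omega)
  have hE : Ears M vx H ch bn t μ (fun i => earV vx (e i) (l i)) c dd K rt U C O n := by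
    refine ⟨st.hm, fun v a => (st.ch.le v a).2.2, ⟨tμ, μs⟩, ord, ⟨h, hU, cb.es, d, ord.turn,
      fun x a => (ord.cover x (hU.1 a) (uK x a)).resolve_right
        fun m => Set.disjoint_left.1 d a m.1, ⟨_, ⟨0, N0⟩, cl_self M.rE _⟩⟩, cb.core, Keq,
      fun i v a => hrt i trivial v a, nP, ci, fr, Ueq, fun i δ => ?_, fun ⟨i, δ⟩ => ?_,
      fun i => ⟨⟨⟨_, lK i⟩, ?_⟩, fun δ => ?_⟩⟩
    · cases δ
      exacts [rfl, h.aa (S i _ le_rfl)]
    · cases δ
      exacts [⟨S i _ le_rfl, Or.inr ⟨(Keq _).2 ⟨i, lK i⟩, hrt i trivial _ (lK i)⟩⟩,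
        ⟨h.a_mem (S i _ le_rfl), Or.inl (E i).2.2.1⟩]
    · have : ∀ j, 1 ≤ j → j ≤ l i →
          Link (M.gph vx) (earV vx (e i) (l i)) (vx (e i 1)) (vx (e i j)) := by
        intro j hj
        induction j, hj using Nat.le_induction with
        | base => exact fun _ => Link.refl _ _ _
        | succ j hj ih =>
          exact fun a => (ih (by omega)).tail ⟨mK i j hj (by omega), mK i _ (by omega) a,
            fun z => by have := idx i j (by omega) _ (by omega) a z; omega,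
            e i j, S i j (by omega), Or.inl ⟨rfl, (E i).1.next j a⟩⟩
      rintro _ ⟨j, a, rfl⟩ _ ⟨j', b, rfl⟩
      exact (this j a.1 a.2).symm.trans (this j' b.1 b.2)
    · cases δ
      · have m := mK i 1 Nat.one_pos (E i).1.pos
        exact ⟨_, m, _, (E i).2.1, fun z => nK i _ m (z ▸ c0 i), e i 0, S i 0 (Nat.zero_le _),
          Or.inr ⟨rfl, (E i).1.next 0 (E i).1.pos⟩⟩
      · exact ⟨_, lK i, _, (E i).2.2.1, fun z => nK i _ (lK i) (z ▸ c1 i), _, S i _ le_rfl,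
          Or.inl ⟨rfl, rfl⟩⟩
  obtain ⟨-, -, co, im, -⟩ := hC k q g Φ V M vx H B ch t st (by omega)
  have tr := (treeS Φ V M vx _ C h hl (es_ind h hl _) cb.es cb.core cb.br).2.2.2
  obtain ⟨ψ', q1, q2⟩ := tr β ψ hβ.1 co hψ
  have q3 : ∀ v ∈ ch.core t, ψ' v = ψ v := fun v a => by
    obtain ⟨f, b, rfl⟩ : v ∈ vx '' M.ind vx (ch.core t) := im.symm ▸ a
    exact q2 f b
  have o1 : ∀ i, od M vx β ψ' (e i (l i)) = 1 := fun i => by
    have b := (E i).2.2.2
    rw [tel (ψ := fun j => ψ' (vx (e i j))) _ fun j z => by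
      rw [q1 _ (eC i j z), (E i).1.next j z], ← q3 _ (c0 i), ← q3 _ (c1 i)] at b
    rw [od, ← b]
    exact (by decide : ∀ a b d e : ZMod 2, a + b + d = e + b + a + e + d) _ _ _ _
  refine hE.band st t1 hb (fun γ hγ => ?_) hβ q1 (fun x a => ?_) p0 ?_
  · obtain ⟨χ, a⟩ := st.ch.cob γ hγ
    exact (tr γ χ hγ.1 co fun f m => a f (ind_mono (fun _ z => z.1) m)).imp fun _ z => z.1
  · have o2 : ∀ p, od M vx β ψ' (dd p) = 1 := by
      rintro ⟨i, _ | _⟩
      · exact o1 i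
      · rw [← o1 i]
        change od M vx β ψ' (M.a _) = _
        rw [od, od, (hβ.1 _ (S i _ le_rfl)).1, h.aa (S i _ le_rfl), add_right_comm]
    obtain ⟨p, rfl | rfl⟩ := (Ueq x).1 a
    · exact o2 p
    · rw [od_c h hl hβ.1 _ (hE.ddv p).1, o2]
  · choose s s1 s2 using fun i : Fin N => hE.exs (i, false)
    have := Fintype.card_le_of_injective (fun i => (⟨s i, s1 i⟩ : Fin (LL U O n))) fun i j z =>
      (Prod.mk.inj ((s2 i).symm.trans ((congrArg hE.I (Fin.mk.inj z)).trans (s2 j)))).1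
    rw [Fintype.card_fin, Fintype.card_fin] at this
    exact hN ▸ this

end Pool.Agent.MP_9d78a0_co.gm

end MrgPart6

-- marker of a merged file
example : 731051 + 229098 = 731051 + 229098 := rfl
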