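import Pool.Agent.MP_9d78a0_co.gm.RWordC
import Pool.Agent.MP_9d78a0_co.gm.RNew
import Pool.Agent.MP_9d78a0_co.gm.RNewC
import Pool.Agent.MP_9d78a0_co.gm.CSame
import Pool.Agent.MP_9d78a0_co.gm.OpMerge

-- ======== part 0: formerly Pool.Agent.MP_9d78a0_co.gm.RTg1
section MrgPart0

/-! Contraction of a disc gives a star map. -/

set_option autoImplicit false

namespace Pool.Agent.MP_9d78a0_co.gm

open Set Function FM

namespace Tg1

variable {Φ : Type} {M : FM Φ} {C U Sp : Set Φ} {O : ℕ → Φ} {n : ℕ}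

theorem ret_eq {π : Φ → Φ} {U : Set Φ} {x : Φ} {d : ℕ} (h : π^[d] x ∈ U)
    (h' : ∀ d' < d, π^[d'] x ∉ U) : ret π U x = π^[d] x := by
  have : sInf {n | π^[n] x ∈ U} = d := by
    apply le_antisymm (Nat.sInf_le h)
    by_contra k
    exact h' _ (not_le.1 k) (Nat.sInf_mem (s := {n | π^[n] x ∈ U}) ⟨d, h⟩)
  rw [ret, this]

theorem wk_not {x : Φ} (h : x ∉ C) : M.wk C x = M.b (M.c x) := by simp [FM.wk, h]

theorem wk_mem {x : Φ} (h : x ∈ C) : M.wk C x = M.b (M.a x) := by simp [FM.wk, h]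

theorem minor_b (x : Φ) : (M.minor U C).b x = ret (M.wk C) U (M.b x) := rfl

theorem it (h : M.Turn C O n) (i d : ℕ) : (M.wk C)^[d] (O i) = O (i + d) := by
  induction d with
  | zero => rfl
  | succ d ih => rw [iterate_succ_apply', ih, ← h.step]; rfl

theorem md (h : M.Turn C O n) (i : ℕ) : O (i % n) = O i := (h.per _ _).2 (Nat.mod_modEq _ _)

theorem inj (h : M.Turn C O n) {i j : ℕ} (hi : i < n) (hj : j < n) (e : O i = O j) : i = j :=
  Nat.ModEq.eq_of_lt_of_lt ((h.per _ _).1 e) hi hj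

theorem ne_c (h : M.Turn C O n) {i j : ℕ} (k : O j ∉ C) : O i ≠ M.c (O j) := by
  intro e
  refine h.two (j + 1) i ?_
  rw [h.step, wk_not k, e]

/-- a flag off `C` on the face is a flag of the walk or its mate across the edge -/
theorem side (h : M.Turn C O n) (hM : M.Ok) (hC : M.Es C) {f : Φ} (k : f ∉ C)
    (e : ∃ i < n, f = O i ∨ f = M.b (O i)) : ∃ i < n, f = O i ∨ f = M.c (O i) := by
  obtain ⟨i, hi, e | e⟩ := e
  · exact ⟨i, hi, Or.inl e⟩
  · have p := h.pos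
    have e1 : O i = O (i + (n - 1) + 1) := (h.per _ _).2 (by
      rw [show i + (n - 1) + 1 = i + n by omega]; exact (Nat.add_modEq_right).symm)
    refine ⟨(i + (n - 1)) % n, Nat.mod_lt _ p, Or.inr ?_⟩
    rw [md h]
    have m := h.mem (i + (n - 1))
    by_cases t : O (i + (n - 1)) ∈ C
    · rw [e1, h.step, wk_mem t, hM.bb (hM.a_mem m)] at e
      exact absurd (e ▸ (hC.2 _ t).1) k
    · rwa [e1, h.step, wk_not t, hM.bb (hM.c_mem m)] at e

open Classical in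
/-- the indices of the flags of `U` on the walk -/
noncomputable def idxs (U : Set Φ) (O : ℕ → Φ) (n : ℕ) : List ℕ :=
  (List.range n).filter fun i => O i ∈ U

theorem mem_idxs {i : ℕ} : i ∈ idxs U O n ↔ i < n ∧ O i ∈ U := by simp [idxs]

theorem idxs_sort : (idxs U O n).Pairwise (· < ·) := List.pairwise_lt_range.filter _

theorem next (h : M.Turn C O n) (d : Disjoint U C) (i : ℕ) (hi : i < (idxs U O n).length) :
    (M.minor U C).b (M.c (O (idxs U O n)[i])) =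
      O ((idxs U O n)[(i + 1) % (idxs U O n).length]'(Nat.mod_lt _ (Nat.zero_lt_of_lt hi))) := by
  have s := List.pairwise_iff_getElem.1 (idxs_sort (U := U) (O := O) (n := n))
  have m : ∀ j (hj : j < (idxs U O n).length), (idxs U O n)[j] < n ∧ O (idxs U O n)[j] ∈ U :=
    fun j hj => mem_idxs.1 (List.getElem_mem hj)
  have le : ∀ j k (hj : j < (idxs U O n).length) (hk : k < (idxs U O n).length), j ≤ k →
      (idxs U O n)[j] ≤ (idxs U O n)[k] := fun j k hj hk e => by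
    rcases e.eq_or_lt with rfl | e
    exacts [le_rfl, (s j k hj hk e).le]
  have ex : ∀ x < n, O x ∈ U → ∃ j, ∃ hj : j < (idxs U O n).length, (idxs U O n)[j] = x :=
    fun x h1 h2 => List.getElem_of_mem (mem_idxs.2 ⟨h1, h2⟩)
  rw [minor_b, ← wk_not (disjoint_left.1 d (m i hi).2), ← h.step]
  by_cases c : i + 1 < (idxs U O n).length
  · have l := s i (i + 1) hi c (by omega)
    have e : (i + 1) % (idxs U O n).length = i + 1 := Nat.mod_eq_of_lt c
    simp only [e]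
    rw [ret_eq (d := (idxs U O n)[i + 1] - ((idxs U O n)[i] + 1)), it h]
    · congr 1; omega
    · rw [it h, show (idxs U O n)[i] + 1 + ((idxs U O n)[i + 1] - ((idxs U O n)[i] + 1)) =
        (idxs U O n)[i + 1] by omega]
      exact (m _ c).2
    · intro d' hd k
      rw [it h] at k
      obtain ⟨j, hj, e⟩ := ex _ (by have := (m _ c).1; omega) k
      rcases le_or_gt j i with t | t
      · have := le j i hj hi t; omega
      · have := le (i + 1) j c hj t; omega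
  · have e : (i + 1) % (idxs U O n).length = 0 := by
      rw [show i + 1 = (idxs U O n).length by omega, Nat.mod_self]
    have z : 0 < (idxs U O n).length := by omega
    have l := (m i hi).1
    simp only [e]
    have e2 : O ((idxs U O n)[i] + 1 + (n + (idxs U O n)[0] - ((idxs U O n)[i] + 1))) =
        O (idxs U O n)[0] := (h.per _ _).2 (by
      rw [show (idxs U O n)[i] + 1 + (n + (idxs U O n)[0] - ((idxs U O n)[i] + 1)) =
        n + (idxs U O n)[0] by omega]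
      exact Nat.add_modEq_left)
    rw [ret_eq (d := n + (idxs U O n)[0] - ((idxs U O n)[i] + 1)), it h, e2]
    · rw [it h, e2]; exact (m _ z).2
    · intro d' hd k
      rw [it h] at k
      by_cases t : (idxs U O n)[i] + 1 + d' < n
      · obtain ⟨j, hj, e⟩ := ex _ t k
        have := le j i hj hi (by omega); omega
      · have e3 : O ((idxs U O n)[i] + 1 + d' - n) = O ((idxs U O n)[i] + 1 + d') :=
          (h.per _ _).2 (by
            have : (idxs U O n)[i] + 1 + d' = (idxs U O n)[i] + 1 + d' - n + n := by omega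
            conv_rhs => rw [this]
            exact (Nat.add_modEq_right).symm)
        obtain ⟨j, hj, e⟩ := ex _ (by have := (m _ z).1; omega) (e3 ▸ k)
        have := le 0 j z hj (Nat.zero_le _); omega

/-- the situation -/
structure Sit (M : FM Φ) (C U Sp : Set Φ) (O : ℕ → Φ) (n : ℕ) : Prop where
  ok : M.Ok
  esC : M.Es C
  esU : M.Es U
  dis : Disjoint U C
  turn : M.Turn C O n
  con : (M.sub C).Con
  eg : (M.sub C).eg = 0
  sub : Sp ⊆ U
  vo : ∀ p ∈ Sp, ∀ g ∈ M.vo p, g ∉ C ∧ (g ∈ U → g ∈ Sp)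
  a : ∀ p ∈ Sp, M.a p ∉ Sp
  cov : ∀ f ∈ U \ Sp, ∃ i < n, f = O i ∨ f = M.c (O i)
  no : ∀ i, O i ∉ Sp
  ne : (∃ i, O i ∈ C) ∨ C = ∅

/-- the loops -/
def lp (M : FM Φ) (U Sp : Set Φ) : Set Φ := {f | f ∈ U ∧ f ∉ Sp ∧ M.a f ∉ Sp}

namespace Sit

variable (h : Sit M C U Sp O n)
include h

theorem cSp {p : Φ} (hp : p ∈ Sp) : M.c p ∈ Sp :=
  (h.vo p hp _ (Cy.orb_q (Cy.orb_self ..))).2 (h.esU.2 _ (h.sub hp)).2

theorem cSp' {p : Φ} (hp : p ∈ U) (k : M.c p ∈ Sp) : p ∈ Sp := by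
  have := h.cSp k
  rwa [h.ok.cc (h.esU.1 hp)] at this

theorem es_lp : M.Es (lp M U Sp) := by
  refine ⟨fun f hf => h.esU.1 hf.1, fun f hf => ?_⟩
  have m := h.esU.1 hf.1
  refine ⟨⟨(h.esU.2 _ hf.1).1, hf.2.2, by rw [h.ok.aa m]; exact hf.2.1⟩,
    (h.esU.2 _ hf.1).2, fun k => hf.2.1 (h.cSp' hf.1 k), fun k => hf.2.2 ?_⟩
  rw [h.ok.comm m] at k
  exact h.cSp' (h.esU.2 _ hf.1).1 k

theorem onR (i : ℕ) : M.R C Cᶜ (O 0) (O i) := by
  refine gh_fo.1 ((h.turn.face _).2 ⟨i % n, Nat.mod_lt _ h.turn.pos, Or.inl (md h.turn i).symm⟩)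

theorem offR {f : Φ} (hf : f ∈ U \ Sp) : M.R C Cᶜ (O 0) f := by
  obtain ⟨i, -, rfl | e⟩ := h.cov f hf
  · exact h.onR i
  · rw [e]
    refine (h.onR i).c fun k => disjoint_left.1 h.dis hf.1 ?_
    rw [e]; exact (h.esC.2 _ k).2

theorem offR2 {f g : Φ} (hf : f ∈ U \ Sp) (hg : g ∈ U \ Sp) : M.R C Cᶜ f g :=
  ((h.offR hf).symm h.ok h.esC.cl (h.esC.cl.compl h.ok) (h.turn.mem 0)).trans (h.offR hg)

theorem eg_minor {U' : Set Φ} (hU : M.Es U') (k : U' ⊆ U) :
    (M.minor U' C).eg = (M.sub (U' ∪ C)).eg := by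
  refine contrS Φ M U' C h.ok hU h.esC (h.dis.mono_left k) h.con h.eg fun f hf g hg => ?_
  have t : ∀ f ∈ U' ∩ M.sat C, f ∈ U \ Sp := by
    rintro f ⟨h1, x, hx, h2⟩
    exact ⟨k h1, fun q => (h.vo f q x (h.ok.vo_symm (h.esC.1 hx) h2)).1 hx⟩
  exact gh_fo.2 (h.offR2 (t f hf) (t g hg))

theorem one_vo {f g : Φ} (hf : f ∈ U \ Sp) (hg : g ∈ U \ Sp) : g ∈ (M.minor U C).vo f := by
  rw [mem_vo, minor_R h.ok h.esU h.esC.cl hf.1 hg.1]
  refine (h.offR2 hf hg).mono (fun z hz => Or.inr ⟨hz, fun k => disjoint_left.1 h.dis k hz⟩)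
    fun z hz => ?_
  by_cases t : z ∈ U
  exacts [Or.inl ⟨trivial, t⟩, Or.inr ⟨t, hz⟩]

theorem wk_vo {p : Φ} (hp : p ∈ Sp) (d : ℕ) : (M.wk C)^[d] (M.b p) ∈ M.vo p ∧
    M.c ((M.wk C)^[d] (M.b p)) = M.rot^[d] (M.rot p) := by
  induction d with
  | zero => exact ⟨Cy.orb_p (Cy.orb_self ..), rfl⟩
  | succ d ih =>
    rw [iterate_succ_apply', iterate_succ_apply', wk_not (h.vo p hp _ ih.1).1, ← ih.2]
    exact ⟨Cy.orb_p (Cy.orb_q ih.1), rfl⟩

theorem hole {p : Φ} (hp : p ∈ Sp) : (M.minor U C).b p ∈ Sp ∧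
    M.c ((M.minor U C).b p) = ret M.rot Sp (M.rot p) := by
  obtain ⟨-, -, ⟨d, h1, h2⟩, -⟩ := segS Φ M U C h.ok h.esU h.esC h.dis p (h.sub hp)
  have m := minor_b_mem h.ok h.esU h.esC.cl (h.sub hp)
  have m2 : (M.minor U C).b p ∈ Sp := (h.vo p hp _ (h2 ▸ (h.wk_vo hp d).1)).2 m
  refine ⟨m2, ?_⟩
  rw [ret_eq (d := d), h2, (h.wk_vo hp d).2]
  · rw [← (h.wk_vo hp d).2, ← h2]; exact h.cSp m2
  · intro d' hd k
    rw [← (h.wk_vo hp d').2] at k
    have q := (h.esU.2 _ (h.sub k)).2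
    rw [h.ok.cc (h.ok.vo_mem (h.esU.1 (h.sub hp)) (h.wk_vo hp d').1)] at q
    exact h1 d' hd q

theorem star (hO : OneCS) (e1 : (M.sub (lp M U Sp ∪ C)).eg = M.eg)
    (e2 : ∀ p ∈ Sp, ∀ q ∈ Sp, q ∈ M.reg (lp M U Sp ∪ C) p → q ∈ M.vo p) :
    (M.minor U C).Star Sp ((idxs U O n).map O) ∧ (M.minor U C).eg = M.eg := by
  have hW := h.ok.minorC h.esU h.esC.cl
  have hl := h.es_lp
  have sl : lp M U Sp ⊆ U := fun _ k => k.1
  have eg : (M.minor U C).eg = M.eg := by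
    rw [h.eg_minor h.esU subset_rfl]
    refine le_antisymm (eg_sub_le h.ok (h.esU.union h.esC)) (e1 ▸ ?_)
    exact eg_sub_mono h.ok (h.esU.union h.esC) (hl.union h.esC) (union_subset_union_left _ sl)
  have cl : ∀ f ∈ Sp, (M.minor U C).b f ∈ Sp ∧ (M.minor U C).c f ∈ Sp ∧
      (M.minor U C).a f ∉ Sp := fun f hf => ⟨(h.hole hf).1, h.cSp hf, h.a f hf⟩
  have mL : ∀ f, f ∈ (idxs U O n).map O ↔ ∃ i < n, O i ∈ U ∧ O i = f := fun f => by
    simp only [List.mem_map, mem_idxs, and_assoc]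
  refine ⟨⟨hW, h.sub, cl, fun f => ⟨fun hf => ?_, ?_⟩, ?_, fun i hi => ?_, fun f hf g hg k => ?_⟩,
    eg⟩
  · obtain ⟨i, hi, e | e⟩ := h.cov f hf
    · exact Or.inl ((mL f).2 ⟨i, hi, e ▸ hf.1, e.symm⟩)
    · refine Or.inr ⟨O i, (mL _).2 ⟨i, hi, ?_, rfl⟩, e⟩
      have := (h.esU.2 _ hf.1).2
      rwa [e, h.ok.cc (h.turn.mem i)] at this
  · rintro (k | ⟨g, k, rfl⟩)
    · obtain ⟨i, -, h1, rfl⟩ := (mL _).1 k
      exact ⟨h1, h.no i⟩
    · obtain ⟨i, -, h1, rfl⟩ := (mL _).1 k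
      exact ⟨(h.esU.2 _ h1).2, fun q => h.no i (h.cSp' h1 q)⟩
  · have nd : ((idxs U O n).map O).Nodup := by
      refine List.Nodup.map_on (fun i hi j hj e => inj h.turn (mem_idxs.1 hi).1 (mem_idxs.1 hj).1 e)
        (idxs_sort.imp fun k => k.ne)
    refine List.Nodup.append nd (nd.map_on fun x hx y hy e => ?_) fun x hx hy => ?_
    · obtain ⟨i, -, -, rfl⟩ := (mL _).1 hx
      obtain ⟨j, -, -, rfl⟩ := (mL _).1 hy
      have := congrArg M.c e
      simp only [minor_c] at this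
      rwa [h.ok.cc (h.turn.mem i), h.ok.cc (h.turn.mem j)] at this
    · obtain ⟨i, -, -, rfl⟩ := (mL _).1 hx
      obtain ⟨y, hy, e⟩ := List.mem_map.1 hy
      obtain ⟨j, -, h1, rfl⟩ := (mL _).1 hy
      exact ne_c h.turn (disjoint_left.1 h.dis h1) e.symm
  · simp only [List.getElem_map, List.length_map, minor_c]
    exact next h.turn h.dis i (by simpa using hi)
  · refine hO Φ _ Sp hW h.sub cl (fun f hf g hg => h.one_vo hf hg) ?_ f hf g hg ?_ k
    · have t := transS Φ M U C (lp M U Sp) ∅ h.ok h.esU h.esC hl es_empty sl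
      rw [empty_inter, union_empty, sdiff_eq_left.2 h.dis.symm] at t
      have := t.iso.eg (hW.sub (hl.of_sub sl : (M.minor U C).Es _))
      show ((M.minor U C).sub (lp M U Sp)).eg = _
      rw [eg, ← e1, ← h.eg_minor hl sl]
      exact this.symm
    · have k1 : g ∈ M.vo f := by
        refine e2 f hf g hg ?_
        rw [mem_fo, minor_R h.ok h.esU h.esC.cl (h.sub hf) (h.sub hg)] at k
        rw [mem_reg]
        refine k.mono (subset_univ _) ?_
        rintro z (⟨k, -⟩ | ⟨k1, k2⟩)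
        · exact k.elim
        · rintro (q | q)
          exacts [k1 q.1, k2 q]
      rw [mem_vo, minor_R h.ok h.esU h.esC.cl (h.sub hf) (h.sub hg)]
      have : ∀ z ∈ M.vo f, M.R (∅ ∩ U ∪ C \ U) (univ ∩ U ∪ Uᶜ \ C) f z := by
        intro z hz
        refine (Cy.orb_ind (P := fun z => z ∈ M.vo f ∧
          M.R (∅ ∩ U ∪ C \ U) (univ ∩ U ∪ Uᶜ \ C) f z) hz ⟨Cy.orb_self .., .rfl⟩
          (fun z k => ⟨Cy.orb_p k.1, k.2.b⟩) fun z k => ⟨Cy.orb_q k.1, k.2.c ?_⟩).2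
        by_cases t : z ∈ U
        exacts [Or.inl ⟨trivial, t⟩, Or.inr ⟨t, (h.vo f hf z k.1).1⟩]
      exact this g k1

theorem conW : (M.minor U C).Con := by
  have hW := h.ok.minorC h.esU h.esC.cl
  have t : ∀ f ∈ U, ∃ f' ∈ U \ Sp, (M.minor U C).R univ univ f' f := fun f hf => by
    by_cases k : f ∈ Sp
    · refine ⟨M.a f, ⟨(h.esU.2 _ hf).1, h.a f k⟩, ?_⟩
      have := (R.rfl (M := M.minor U C) (P := univ) (Q := univ) (x := M.a f)).a trivial
      rwa [minor_a, h.ok.aa (h.esU.1 hf)] at this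
    · exact ⟨f, ⟨hf, k⟩, .rfl⟩
  intro f hf g hg
  obtain ⟨f', h1, h2⟩ := t f hf
  obtain ⟨g', h3, h4⟩ := t g hg
  exact mem_co.2 (((h2.symm hW cl_univ cl_univ h1.1).trans
    ((mem_vo.1 (h.one_vo h1 h3)).mono (empty_subset _) subset_rfl)).trans h4)

theorem conS : (M.sub (U ∪ C)).Con := by
  have hE := h.esU.union h.esC
  have t : ∀ f ∈ U ∪ C, M.R (U ∪ C) univ (O 0) f := by
    have u : ∀ f ∈ U \ Sp, M.R (U ∪ C) univ (O 0) f := fun f hf =>
      (h.offR hf).mono subset_union_right (subset_univ _)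
    rintro f (hf | hf)
    · by_cases k : f ∈ Sp
      · have := (u _ ⟨(h.esU.2 _ hf).1, h.a f k⟩).a (Or.inl (h.esU.2 _ hf).1)
        rwa [h.ok.aa (h.esU.1 hf)] at this
      · exact u f ⟨hf, k⟩
    · rcases h.ne with ⟨i, hi⟩ | e
      · have := mem_co.1 (h.con _ hi f hf)
        rw [sub_R h.ok h.esC hi hf] at this
        exact ((h.onR i).mono subset_union_right (subset_univ _)).trans
          (this.mono (fun z k => Or.inr k.2) (subset_univ _))
      · exact absurd hf (e ▸ notMem_empty f)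
  intro f hf g hg
  rw [mem_co, sub_R h.ok hE hf hg]
  exact (((t f hf).symm h.ok hE.cl cl_univ (h.turn.mem 0)).trans (t g hg)).mono
    (fun z k => ⟨trivial, k⟩) fun z _ => Or.inl trivial

theorem ori (eg : (M.minor U C).eg = M.eg) (k : ∃ o, (M.minor U C).Ori o) : ∃ o, M.Ori o := by
  obtain ⟨o, k⟩ := k
  have hE := h.esU.union h.esC
  have hS := h.ok.sub hE
  have hU : (M.sub (U ∪ C)).Es U := h.esU.of_sub subset_union_left
  have hC : (M.sub (U ∪ C)).Es C := h.esC.of_sub subset_union_right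
  have e0 := h.eg_minor h.esU subset_rfl
  have t := transS Φ M (U ∪ C) ∅ U C h.ok hE es_empty h.esU h.esC subset_union_left
  rw [empty_sdiff, empty_union, inter_eq_left.2 subset_union_right] at t
  have hm := hS.minorC hU hC.cl
  have d := (dualS Φ _ hS).2.2 U C hU hC
  rw [show (M.sub (U ∪ C)).S \ (U ∪ C) = ∅ from Set.sdiff_self] at d
  have k1 : ((M.sub (U ∪ C)).minor U C).Ori o := t.iso.ori k
  have k2 : ((M.sub (U ∪ C)).minor U C).dual.Ori o := fun f hf =>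
    ⟨(k1 f hf).2.2, (k1 f hf).2.1, (k1 f hf).1⟩
  have c1 : ((M.sub (U ∪ C)).minor U C).Con := (t.iso.con hm).1 h.conW
  have c2 : ((M.sub (U ∪ C)).minor U C).dual.Con := fun f hf g hg =>
    mem_co.2 (dual_R.2 (mem_co.1 (c1 f hf g hg)))
  obtain ⟨o', k3, -⟩ := (oriC Φ _ hS.dual).2 U _ hU.dualE ((d.iso.con hm.dual).2 c2) (by
    have a1 := d.iso.eg hm.dual
    have a2 := (dualS Φ _ hm).2.1
    have a3 := t.iso.eg hm
    have a4 := (dualS Φ _ hS).2.1
    show ((M.sub (U ∪ C)).dual.minor U ∅).eg = _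
    exact a1.trans (a2.trans (a3.symm.trans (e0.trans a4.symm)))) (d.iso.ori' hm.dual k2)
  obtain ⟨o'', k4, -⟩ := (oriC Φ M h.ok).2 (U ∪ C) o' hE h.conS (e0 ▸ eg) fun f hf =>
    ⟨(k3 f hf).2.2, (k3 f hf).2.1, (k3 f hf).1⟩
  exact ⟨o'', k4⟩

end Sit

end Tg1

end Pool.Agent.MP_9d78a0_co.gm

end MrgPart0

-- ======== part 1: formerly Pool.Agent.MP_9d78a0_co.gm.RStop
section MrgPart1

/-! Routing: a system of independent bands has few bands. -/

set_option autoImplicit false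

namespace Pool.Agent.MP_9d78a0_co.gm

open Set Function Relation FM

namespace RStop

variable {Φ V : Type}

theorem z2 (a : ZMod 2) : a + a = 0 := by revert a; decide

/-- a face cannot have exactly one odd side -/
theorem parity {W : FM Φ} (hW : W.Ok) {f0 x : Φ} (h0 : f0 ∈ W.S) (θ δ : Φ → ZMod 2)
    (sd : Φ → Prop) (hs : ∀ g ∈ W.S, (sd (W.a g) ↔ ¬ sd g) ∧ (sd (W.c g) ↔ sd g)) (hδ : W.Ech δ)
    (ha : ∀ g ∈ W.fo f0, θ (W.a g) = θ g + δ g) (hb : ∀ g ∈ W.fo f0, θ (W.b g) = θ g)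
    (hx : x ∈ W.fo f0) (hc : W.c x ∉ W.fo f0) (h1 : δ x = 1)
    (hz : ∀ g ∈ W.fo f0, W.c g ∉ W.fo f0 → g ∉ W.eo x → δ g = 0) : False := by
  classical
  have hk := hW.gk
  have hsub : W.fo f0 ⊆ W.S := hk.sF.sub h0
  have hfin : (W.fo f0).Finite := hW.fin.subset hsub
  have fa : ∀ g ∈ W.fo f0, W.a g ∈ W.fo f0 := fun g hg => cl_step (r := W.rF) hg (Or.inl rfl)
  have fb : ∀ g ∈ W.fo f0, W.b g ∈ W.fo f0 := fun g hg => cl_step (r := W.rF) hg (Or.inr rfl)
  set F := hfin.toFinset with hF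
  have mF : ∀ g, g ∈ F ↔ g ∈ W.fo f0 := fun g => hfin.mem_toFinset
  set lam : Φ → ZMod 2 := fun g => if sd g then δ g else 0 with hlam
  have la : ∀ g ∈ W.S, lam g + lam (W.a g) = δ g := by
    intro g hg
    by_cases k : sd g
    · simp only [hlam, if_pos k, if_neg (fun m => (hs g hg).1.1 m k), add_zero]
    · simp only [hlam, if_neg k, if_pos ((hs g hg).1.2 k), zero_add, (hδ g hg).1]
  have lc : ∀ g ∈ W.S, lam (W.c g) = lam g := by
    intro g hg
    simp only [hlam, (hs g hg).2, (hδ g hg).2]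
  have s1 : ∑ g ∈ F, θ g = 0 :=
    Finset.sum_involution (fun g _ => W.b g)
      (fun g hg => by rw [hb g ((mF g).1 hg)]; exact z2 _)
      (fun g hg _ => (hW.ib g (hsub ((mF g).1 hg))).2.2)
      (fun g hg => (mF _).2 (fb g ((mF g).1 hg)))
      fun g hg => hk.bb (hsub ((mF g).1 hg))
  have s2 : ∑ g ∈ F, (θ g + lam g) = 0 :=
    Finset.sum_involution (fun g _ => W.a g)
      (fun g hg => by
        rw [ha g ((mF g).1 hg), ← la g (hsub ((mF g).1 hg))]
        generalize θ g = p; generalize lam g = q; generalize lam (W.a g) = r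
        revert p q r; decide)
      (fun g hg _ => (hW.ia g (hsub ((mF g).1 hg))).2.2)
      (fun g hg => (mF _).2 (fa g ((mF g).1 hg)))
      fun g hg => hk.aa (hsub ((mF g).1 hg))
  rw [Finset.sum_add_distrib, s1, zero_add,
    ← Finset.sum_filter_add_sum_filter_not F fun g => W.c g ∈ W.fo f0] at s2
  have s3 : ∑ g ∈ F.filter fun g => W.c g ∈ W.fo f0, lam g = 0 :=
    Finset.sum_involution (fun g _ => W.c g)
      (fun g hg => by rw [lc g (hsub ((mF g).1 (Finset.mem_filter.1 hg).1))]; exact z2 _)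
      (fun g hg _ => (hW.ic g (hsub ((mF g).1 (Finset.mem_filter.1 hg).1))).2.2)
      (fun g hg => Finset.mem_filter.2 ⟨(mF _).2 (Finset.mem_filter.1 hg).2, by
        rw [hk.cc (hsub ((mF g).1 (Finset.mem_filter.1 hg).1))]
        exact (mF g).1 (Finset.mem_filter.1 hg).1⟩)
      fun g hg => hk.cc (hsub ((mF g).1 (Finset.mem_filter.1 hg).1))
  have hxS := hsub hx
  have hac : W.a (W.c x) ∉ W.fo f0 := fun m => hc (hk.aa (hk.cm hxS) ▸ fa _ m)
  have s4 : ∑ g ∈ F.filter fun g => ¬ W.c g ∈ W.fo f0, lam g = lam x + lam (W.a x) := by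
    refine Finset.sum_eq_add_of_mem x (W.a x) (Finset.mem_filter.2 ⟨(mF _).2 hx, hc⟩)
      (Finset.mem_filter.2 ⟨(mF _).2 (fa x hx), by rw [← hk.ac x hxS]; exact hac⟩)
      (hW.ia x hxS).2.2.symm fun g hg hn => ?_
    have g1 := (mF g).1 (Finset.mem_filter.1 hg).1
    have : δ g = 0 := hz g g1 (Finset.mem_filter.1 hg).2 fun m => by
      rcases (hk.mem_eo hxS).1 m with rfl | rfl | rfl | rfl
      · exact hn.1 rfl
      · exact hn.2 rfl
      · exact hc g1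
      · exact hac g1
    simp only [hlam, this, ite_self]
  rw [s3, s4, la x hxS, h1, zero_add] at s2
  exact one_ne_zero s2

variable {M : FM Φ} {vx : Φ → V}

/-- a connected submap stays connected when edges between its vertices are added -/
theorem con_union (hM : M.Ok) (hl : M.Lbl vx) {U C : Set Φ} (hU : M.Es U) (hC : M.Es C)
    (hc : (M.sub C).Con) (hv : vx '' U ⊆ vx '' C) : (M.sub (U ∪ C)).Con := by
  have hUC := hU.union hC
  have g0 := gphS orbS minorS Φ V M vx hM hl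
  have g1 := gphS orbS minorS Φ V (M.sub C) vx (hM.minor hC FM.es_empty) (g0.1 C hC)
  have g2 := gphS orbS minorS Φ V (M.sub (U ∪ C)) vx (hM.minor hUC FM.es_empty) (g0.1 _ hUC)
  have key : ∀ f ∈ U ∪ C, ∃ f' ∈ C, vx f' = vx f := fun f hf =>
    hf.elim (fun k => hv ⟨f, k, rfl⟩) fun k => ⟨f, k, rfl⟩
  intro f hf g hg
  obtain ⟨f', hf', e1⟩ := key f hf
  obtain ⟨g', hg', e2⟩ := key g hg
  refine (g2.2.2.2.1 f hf g hg).2 ?_
  rw [← e1, ← e2]
  refine Link.map (G := (M.sub C).gph vx) id (fun a _ b _ hab => ?_)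
    ((g1.2.2.2.1 f' hf' g' hg').1 (hc f' hf' g' hg'))
  obtain ⟨n, y, hy, k⟩ := hab
  exact Link.single (mem_univ _) (mem_univ _) ⟨n, y, Or.inr hy, k⟩

/-- loops on a disc with triangular parities are few -/
theorem few {k q r : ℕ} {H : Set V} (hM : M.Ok) (hl : M.Lbl vx) (hk : M.eg ≤ k)
    (hq : (H ∩ vx '' M.S).ncard ≤ q) {C : Set Φ} (hC : M.Es C) (hc : (M.sub C).Con)
    (hH : Disjoint H (vx '' C)) (u : ℕ → Φ) (D : Set V) (f1 : Φ) (hf1 : f1 ∈ M.S)
    (hu : ∀ b < r, u b ∈ M.S ∧ vx (u b) ∉ D ∧ vx (M.a (u b)) ∈ D ∧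
      ∀ g ∈ M.eo (u b), g ∉ C ∧ vx g ∈ vx '' C ∧ g ∈ (M.gh C ∅).fo f1)
    (hinj : ∀ b < r, ∀ b' < r, u b' ∈ M.eo (u b) → b = b')
    (htri : ∀ b < r, ∃ β ψ, M.Adm vx H β ∧ M.Pt vx β ψ C ∧
      β (u b) + ψ (vx (u b)) + ψ (vx (M.a (u b))) = 1 ∧
      ∀ b' < b, β (u b') + ψ (vx (u b')) + ψ (vx (M.a (u b'))) = 0) : r ≤ 2 * k + q + 1 := by
  classical
  by_contra hr
  have hG := hM.gk
  set U : Set Φ := {g | ∃ b < r, g ∈ M.eo (u b)} with hUd
  have hU : M.Es U := ⟨fun g ⟨b, hb, k⟩ => (hG.es_eo (hu b hb).1).1 k, fun g ⟨b, hb, k⟩ =>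
    ⟨⟨b, hb, ((hG.es_eo (hu b hb).1).2 g k).1⟩, b, hb, ((hG.es_eo (hu b hb).1).2 g k).2⟩⟩
  have hd : Disjoint U C := disjoint_left.2 fun g ⟨b, hb, k⟩ => ((hu b hb).2.2.2 g k).1
  have hv : vx '' U ⊆ vx '' C := by
    rintro _ ⟨g, ⟨b, hb, k⟩, rfl⟩
    exact ((hu b hb).2.2.2 g k).2.1
  have hUC := hU.union hC
  set W := M.minor U C with hWd
  have hW : W.Ok := hM.minor hU hC
  have hWG := hW.gk
  have hUf : U.Finite := hM.fin.subset hU.1
  have u0 : u 0 ∈ U := ⟨0, by omega, cl_self M.rE _⟩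
  -- one vertex
  have hone : ∀ f ∈ U, ∀ g ∈ U, g ∈ W.vo f := by
    rintro f hf g hg
    rw [((minorS Φ M U C hM hU hC).2 f hf).1]
    refine ⟨?_, hg⟩
    have e : M.ga C ∅ = M.gc U C := funext fun x => by
      by_cases m : x ∈ C
      · have : x ∉ U := fun n => disjoint_left.1 hd n m
        simp [FM.ga, FM.gc, m, this]
      · simp [FM.ga, FM.gc, m]
    have hk2 := ((ghostS Φ M hM).2.2 C ∅ hC FM.es_empty).1
    obtain ⟨b, hb, k1⟩ := hf
    obtain ⟨b', hb', k2⟩ := hg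
    have k3 : g ∈ cl (M.gh C ∅).rF f :=
      cl_trans (hk2.sF.symm hf1 ((hu b hb).2.2.2 f k1).2.2) ((hu b' hb').2.2.2 g k2).2.2
    refine cl_ind (P := fun y => y ∈ cl (M.gh U C).rV f) (cl_self _ _)
      (fun x y _ ih m => cl_step ih ?_) k3
    rcases m with m | m
    · exact Or.inr (by rw [m]; exact congrFun e x)
    · exact Or.inl m
  have n1 : nc W.rV W.S = 1 := nc_one hWG.sV u0 u0 fun g hg => hone _ u0 g hg
  have n2 : 1 ≤ nc W.rC W.S := nc_pos hUf u0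
  have n3 : r ≤ nc W.rE W.S := by
    have : (Finset.range r : Set ℕ).ncard ≤ nc W.rE W.S := by
      refine ncard_le_ncard_of_injOn (fun b => M.eo (u b))
        (fun b hb => ⟨u b, ⟨b, by simpa using hb, cl_self M.rE _⟩, rfl⟩)
        (fun b hb b' hb' e => hinj b (by simpa using hb) b' (by simpa using hb') ?_) (hUf.image _)
      have e' : M.eo (u b) = M.eo (u b') := e
      rw [e']; exact cl_self M.rE _
    rwa [ncard_coe_finset, Finset.card_range] at this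
  have n4 : W.eg ≤ k := ((monoS Φ M hM).2 U C hU hC).trans hk
  rw [FM.eg_eq, n1] at n4
  have n5 : k + q + 2 ≤ nc W.rF W.S := by omega
  have sg := segS Φ M U C hM hU hC hd
  -- a good face
  obtain ⟨f0, h0, hgood⟩ : ∃ f0 ∈ U, M.Good vx H (U ∪ C) f0 := by
    by_contra hn
    have gd := goodS k q Φ V M vx H (U ∪ C) hM hl hk hq hUC (con_union hM hl hU hC hc hv)
      (by rw [image_union, union_eq_right.2 hv]; exact hH)
    have : W.fo '' U ⊆ (fun A => A ∩ U) ''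
        ((M.sub (U ∪ C)).fo '' {f | f ∈ U ∪ C ∧ ¬ M.Good vx H (U ∪ C) f}) := by
      rintro _ ⟨f, hf, rfl⟩
      refine ⟨_, ⟨f, ⟨Or.inl hf, fun m => hn ⟨f, hf, m⟩⟩, rfl⟩, ?_⟩
      show _ ∩ U = _
      rw [(sg f hf).1, (sg f hf).2.1, inter_assoc, inter_eq_right.2 subset_union_left]
    have fin2 : ((M.sub (U ∪ C)).fo '' {f | f ∈ U ∪ C ∧ ¬ M.Good vx H (U ∪ C) f}).Finite :=
      ((hM.fin.subset hUC.1).subset fun _ m => m.1).image _
    have l1 := (ncard_le_ncard this (fin2.image _)).trans (ncard_image_le fin2)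
    have : nc W.rF W.S ≤ k + q := l1.trans gd
    omega
  have hsub : W.fo f0 ⊆ U := hWG.sF.sub h0
  have fa : ∀ g ∈ W.fo f0, W.a g ∈ W.fo f0 := fun g hg => cl_step (r := W.rF) hg (Or.inl rfl)
  have fb : ∀ g ∈ W.fo f0, W.b g ∈ W.fo f0 := fun g hg => cl_step (r := W.rF) hg (Or.inr rfl)
  -- an edge with one side on the face
  have hex : ∃ b, b < r ∧ ∃ x ∈ M.eo (u b), x ∈ W.fo f0 ∧ W.c x ∉ W.fo f0 := by
    by_contra hn
    have fc : ∀ g ∈ W.fo f0, W.c g ∈ W.fo f0 := fun g hg => by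
      obtain ⟨b, hb, m⟩ := hsub hg
      by_contra m'
      exact hn ⟨b, hb, g, m, hg, m'⟩
    have : nc W.rF W.S = 1 := nc_one hWG.sF h0 h0 fun g hg =>
      cl_ind (r := W.rV) (P := fun y => y ∈ W.fo f0) (cl_self W.rF _)
        (fun x y _ m e => e.elim (fun e => e ▸ fb x m) fun e => e ▸ fc x m) (hone f0 h0 g hg)
    omega
  obtain ⟨b, ⟨hb, x, hxb, hx, hcx⟩, hmax⟩ := (Set.finite_Iio r |>.subset
    (t := {b | b < r ∧ ∃ x ∈ M.eo (u b), x ∈ W.fo f0 ∧ W.c x ∉ W.fo f0})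
      fun _ m => m.1).exists_maximal hex
  obtain ⟨β, ψ, hβ, hψ, hb1, hb0⟩ := htri b hb
  obtain ⟨χ, pa, pb, pc⟩ := hgood.pot β hβ
  set δ : Φ → ZMod 2 := fun g => β g + ψ (vx g) + ψ (vx (M.a g)) with hδ
  have ech : M.Ech δ := fun g hg => ⟨by
      simp only [hδ, (hβ.1 g hg).1, hG.aa hg]; ring, by
      simp only [hδ, (hβ.1 g hg).2, hG.ac g hg, Gph.vx_c hM hl hg, Gph.vx_c hM hl (hG.am hg)]⟩
  have δe : ∀ y ∈ M.S, ∀ g ∈ M.eo y, δ g = δ y := fun y hy g hg => by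
    rcases (hG.mem_eo hy).1 hg with rfl | rfl | rfl | rfl
    · rfl
    · exact (ech y hy).1
    · exact (ech y hy).2
    · rw [(ech _ (hG.cm hy)).1, (ech y hy).2]
  set R := M.reg (U ∪ C) f0 with hR
  have RS : R ⊆ M.S := (regBS orbS minorS Φ M _ hM hUC f0 (hU.1 h0)).1
  have Ra : ∀ g ∈ R, M.a g ∈ R := fun g hg => ReflTransGen.tail hg (Or.inl rfl)
  have Rb : ∀ g ∈ R, M.b g ∈ R := fun g hg => ReflTransGen.tail hg (Or.inr (Or.inl rfl))
  set θ : Φ → ZMod 2 := fun g => χ g + ψ (vx g) with hθ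
  have θa : ∀ g ∈ R, θ (M.a g) = θ g + δ g := fun g hg => by
    simp only [hθ, hδ, pa g hg]
    generalize χ g = p1; generalize β g = p2; generalize ψ (vx g) = p3
    generalize ψ (vx (M.a g)) = p4
    revert p1 p2 p3 p4; decide
  have θb : ∀ g ∈ R, θ (M.b g) = θ g := fun g hg => by
    simp only [hθ, pb g hg, Gph.vx_b hM hl (RS hg), Pi.zero_apply, add_zero]
  have wk1 : ∀ g ∈ R, g ∉ U → M.wk C g ∈ R ∧ θ (M.wk C g) = θ g := by
    intro g hg hn
    by_cases m : g ∈ C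
    · have e : M.wk C g = M.b (M.a g) := by simp [FM.wk, m]
      rw [e, θb _ (Ra g hg), θa g hg]
      refine ⟨Rb _ (Ra g hg), ?_⟩
      simp only [hδ, hψ g m]
      generalize ψ (vx g) = p3; generalize ψ (vx (M.a g)) = p4; generalize θ g = p1
      revert p1 p3 p4; decide
    · have e : M.wk C g = M.b (M.c g) := by simp [FM.wk, m]
      have n : g ∉ U ∪ C := fun z => z.elim hn m
      have Rc : M.c g ∈ R := ReflTransGen.tail hg (Or.inr (Or.inr ⟨n, rfl⟩))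
      rw [e, θb _ Rc]
      refine ⟨Rb _ Rc, ?_⟩
      simp only [hθ, pc g ⟨hg, n⟩, Gph.vx_c hM hl (RS hg), Pi.zero_apply, add_zero]
  have wb : ∀ g ∈ R, g ∈ U → W.b g ∈ R ∧ θ (W.b g) = θ g := by
    intro g hg hn
    obtain ⟨d, d1, d2⟩ := (sg g hn).2.2.1
    rw [d2]
    clear d2
    induction d with
    | zero => exact ⟨Rb g hg, θb g hg⟩
    | succ d ih =>
      have i1 := ih fun d' m => d1 d' (by omega)
      have i2 := wk1 _ i1.1 (d1 d (by omega))
      rw [iterate_succ_apply']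
      exact ⟨i2.1, i2.2.trans i1.2⟩
  have FR : W.fo f0 ⊆ R := fun g hg =>
    cl_ind (r := W.rF) (P := fun y => y ∈ R) ReflTransGen.refl
      (fun x y hx m e => e.elim (fun e => e ▸ Ra x m) fun e => e ▸ (wb x m (hsub hx)).1) hg
  refine parity hW h0 θ δ (fun g => vx g ∈ D) (fun g hg => ?_) (fun g hg => ech g (hU.1 hg))
    (fun g hg => θa g (FR hg)) (fun g hg => (wb g (FR hg) (hsub hg)).2) hx hcx
    ((δe _ (hu b hb).1 x hxb).trans hb1) fun g hg hcg hn => ?_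
  · refine ⟨?_, by show vx (M.c g) ∈ D ↔ _; rw [Gph.vx_c hM hl (hU.1 hg)]⟩
    obtain ⟨b', hb', m⟩ := hg
    obtain ⟨y1, y2, y3, -⟩ := hu b' hb'
    show vx (M.a g) ∈ D ↔ vx g ∉ D
    rcases (hG.mem_eo y1).1 m with rfl | rfl | rfl | rfl
    · exact iff_of_true y3 y2
    · rw [hG.aa y1]; exact iff_of_false y2 (not_not.2 y3)
    · rw [hG.ac _ y1, Gph.vx_c hM hl y1, Gph.vx_c hM hl (hG.am y1)]; exact iff_of_true y3 y2
    · rw [hG.aa (hG.cm y1), hG.ac _ y1, Gph.vx_c hM hl y1, Gph.vx_c hM hl (hG.am y1)]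
      exact iff_of_false y2 (not_not.2 y3)
  · obtain ⟨b', hb', m⟩ := hsub hg
    rcases lt_trichotomy b' b with l | l | l
    · exact (δe _ (hu b' hb').1 g m).trans (hb0 b' l)
    · subst l
      exact (hn (by
        show g ∈ M.eo x
        rw [show M.eo x = M.eo (u b') from hG.sE.eq (hu b' hb').1 hxb]; exact m)).elim
    · exact absurd (hmax ⟨hb', g, m, hg, hcg⟩ l.le) (not_le.2 l)

/-- an edge between two sets, as a flag -/
theorem touch_flag (hM : M.Ok) {A B : Set V} (h : fb.Touch (M.gph vx) A B) :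
    ∃ p ∈ M.S, vx p ∈ A ∧ vx (M.a p) ∈ B := by
  obtain ⟨x, hx, y, hy, -, f, hf, ⟨rfl, rfl⟩ | ⟨rfl, rfl⟩⟩ := h
  · exact ⟨f, hf, hx, hy⟩
  · exact ⟨M.a f, hM.gk.am hf, hx, by rw [hM.gk.aa hf]; exact hy⟩

/-- the ends of the flags of an edge -/
theorem ends (hM : M.Ok) (hl : M.Lbl vx) {p g : Φ} (hp : p ∈ M.S) (hg : g ∈ M.eo p) :
    (vx g = vx p ∧ vx (M.a g) = vx (M.a p)) ∨ (vx g = vx (M.a p) ∧ vx (M.a g) = vx p) := by
  have hG := hM.gk
  rcases (hG.mem_eo hp).1 hg with rfl | rfl | rfl | rfl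
  · exact Or.inl ⟨rfl, rfl⟩
  · exact Or.inr ⟨rfl, by rw [hG.aa hp]⟩
  · exact Or.inl ⟨Gph.vx_c hM hl hp, by rw [hG.ac _ hp, Gph.vx_c hM hl (hG.am hp)]⟩
  · exact Or.inr ⟨by rw [hG.ac _ hp, Gph.vx_c hM hl (hG.am hp)],
      by rw [hG.aa (hG.cm hp), Gph.vx_c hM hl hp]⟩

theorem link_el (hM : M.Ok) {K : Set V} {E : Set Φ} (hE : M.ind vx K ⊆ E) {x y : V}
    (h : Link (M.gph vx) K x y) : M.EL vx E univ x y := by
  induction h with
  | refl => exact ReflTransGen.refl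
  | tail _ e ih =>
    obtain ⟨h1, h2, -, f, hf, ⟨rfl, rfl⟩ | ⟨rfl, rfl⟩⟩ := e
    · exact ih.tail ⟨mem_univ _, mem_univ _, f, hE ⟨hf, h1, h2⟩, rfl, rfl⟩
    · exact ih.tail ⟨mem_univ _, mem_univ _, M.a f,
        hE ⟨hM.gk.am hf, h1, by rw [hM.gk.aa hf]; exact h2⟩, rfl, by rw [hM.gk.aa hf]⟩

end RStop

open RStop

theorem stopS (hH : HangS) (hO : OrderS) (hC : CoreS) : StopS := by
  classical
  intro k q g Φ V M vx H B ch bn t μ st ok t1 tμ μs
  have hM := st.hm.ok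
  have hl := st.hm.lbl
  have hG := hM.gk
  have w0 : 0 < bn.w := by have := ok.two; omega
  have cc : ∀ b < bn.r, ∀ e, ch.cell t (bn.col b e 0) ⊆ ch.core t := by
    rintro b hb e v ⟨v0, v1, v2, v3, v4⟩
    obtain ⟨c1, c2⟩ := ok.cen b hb e 0 w0
    exact ⟨v0, v1, by omega, by omega, by omega⟩
  have cs : ∀ b e, ch.cell t (bn.col b e 0) ⊆ bn.segA ch t b e := by
    rintro b e v ⟨v0, v1, v2, v3, v4⟩
    have a1 : bn.lo b e ≤ bn.col b e 0 := min_le_left _ _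
    have a2 : bn.col b e 0 ≤ bn.hi b e := le_max_left _ _
    exact ⟨v0, v1, v2, by omega, by omega⟩
  have cd : ∀ b < bn.r, ∀ v ∈ ch.cell t (bn.col b true 0), v ∉ ch.cell t (bn.col b false 0) := by
    rintro b hb v ⟨-, -, -, v3, v4⟩ ⟨-, -, -, v5, v6⟩
    have a1 : ∀ e, bn.lo b e ≤ bn.col b e 0 := fun e => min_le_left _ _
    have a2 : ∀ e, bn.col b e 0 ≤ bn.hi b e := fun e => le_max_left _ _
    have := ok.gap b hb true b hb false (by simp)
    have := a1 true; have := a1 false; have := a2 true; have := a2 false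
    omega
  have sb : ∀ b, bn.St b 0 ⊆ bn.body b := fun b v hv => Or.inl ⟨0, w0, hv⟩
  have sc : ∀ b < bn.r, ∀ v ∈ bn.St b 0, v ∉ ch.core t := fun b hb v hv =>
    (ok.sub b hb (sb b hv)).2
  have su : ∀ b < bn.r, ∀ b' < bn.r, ∀ v ∈ bn.St b 0, v ∈ bn.St b' 0 → b = b' := by
    intro b hb b' hb' v h1 h2
    by_contra n
    exact disjoint_left.1 (ok.dss b hb 0 w0 b' hb' 0 w0 (by simpa using n)) h1 h2
  have ex : ∀ (e : Bool) (b : ℕ), b < bn.r → ∃ p ∈ M.S, vx p ∈ bn.St b 0 ∧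
      vx (M.a p) ∈ ch.cell t (bn.col b e 0) := fun e b hb =>
    touch_flag hM ((ok.conn b hb 0 w0).2 e)
  rcases Nat.eq_zero_or_pos bn.r with r0 | r0
  · omega
  have : Nonempty Φ := ⟨(ex true 0 r0).choose⟩
  choose! p p1 p2 p3 using ex
  have esi := (gphS orbS minorS Φ V M vx hM hl).2.1
  obtain ⟨rt, C, cb, cE, -⟩ := hH k q g Φ V ℕ M vx H B ch t μ (Iio bn.r) (fun b => bn.St b 0)
    (fun b => M.ind vx (bn.St b 0) ∪ M.eo (p false b)) (fun b => {bn.col b false 0}) st tμ.le μs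
    (fun i hi j hj n => disjoint_left.2 fun v h1 h2 => n (su i hi j hj v h1 h2))
    fun b hb => ⟨disjoint_left.2 (sc b hb), (esi _).union (hG.es_eo (p1 false b hb)),
      fun c hc => hc ▸ ok.cen b hb false 0 w0, fun e he => by
        rcases he with he | he
        · exact Or.inl he.2.1
        · rcases ends hM hl (p1 false b hb) he with m | m
          · exact Or.inl (m.1 ▸ p2 false b hb)
          · exact Or.inr ⟨_, rfl, m.1 ▸ p3 false b hb⟩, fun v hv =>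
      ⟨vx (M.a (p false b)), cc b hb false (p3 false b hb), ReflTransGen.head
        ⟨mem_univ _, mem_univ _, M.a (p false b),
          Or.inr (cl_one (r := M.rE) (Or.inl rfl)), rfl, by rw [hG.aa (p1 false b hb)]⟩
        (link_el hM subset_union_left ((ok.conn b hb 0 w0).1.2 _ (p2 false b hb) v hv))⟩⟩
  obtain ⟨O, n, od⟩ := hO k q g Φ V M vx H B ch t μ _ rt C st t1 tμ μs cb
  have co := hC k q g Φ V M vx H B ch t st (by omega)
  have nC : ∀ b < bn.r, ∀ x ∈ M.eo (p true b), x ∉ C := by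
    intro b hb x hx hc
    have e := ends hM hl (p1 true b hb) hx
    have y1 := p2 true b hb
    have y2 := p3 true b hb
    rcases cE hc with m | m
    · rcases e with e | e
      · exact sc b hb _ y1 (e.1 ▸ m.2.1)
      · exact sc b hb _ y1 (e.2 ▸ m.2.2)
    · obtain ⟨b', hb', m⟩ := mem_iUnion₂.1 m
      rcases m with m | m
      · rcases e with e | e
        · exact sc b' hb' _ (e.2 ▸ m.2.2) (cc b hb true y2)
        · exact sc b' hb' _ (e.1 ▸ m.2.1) (cc b hb true y2)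
      · have z1 := p2 false b' hb'
        have z2 := p3 false b' hb'
        have k1 : vx (p true b) = vx (p false b') → vx (M.a (p true b)) = vx (M.a (p false b')) →
            False := fun a1 a2 => by
          obtain rfl := su b hb b' hb' _ y1 (a1 ▸ z1)
          exact cd b hb _ y2 (a2 ▸ z2)
        have k2 : vx (p true b) = vx (M.a (p false b')) → False := fun a1 =>
          sc b hb _ y1 (a1 ▸ cc b' hb' false z2)
        rcases e with e | e <;> rcases ends hM hl (p1 false b' hb') m with e' | e'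
        · exact k1 (e.1.symm.trans e'.1) (e.2.symm.trans e'.2)
        · exact k2 (e.1.symm.trans e'.1)
        · exact k2 (e.2.symm.trans e'.2)
        · exact k1 (e.2.symm.trans e'.2) (e.1.symm.trans e'.1)
  refine few hM hl st.eg st.hq cb.es od.con ?_ (p true) (ch.core t) (O 0) (od.turn.mem 0)
    (fun b hb => ⟨p1 true b hb, sc b hb _ (p2 true b hb), cc b hb true (p3 true b hb),
      fun x hx => ?_⟩) (fun b hb b' hb' m => ?_) fun b hb => ?_
  · rw [od.vtx]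
    refine disjoint_left.2 fun v hv m => ?_
    rcases m with m | m
    · obtain ⟨b, hb, m⟩ := mem_iUnion₂.1 m
      exact (ok.sub b hb (sb b m)).1.1.2 hv
    · exact (st.ch.sub m.1).1.2 hv
  · have hv : vx x ∈ (⋃ i ∈ Iio bn.r, bn.St i 0) ∪ ch.core t := by
      rcases ends hM hl (p1 true b hb) hx with e | e
      · exact Or.inl (mem_iUnion₂.2 ⟨b, hb, e.1 ▸ p2 true b hb⟩)
      · exact Or.inr (e.1 ▸ cc b hb true (p3 true b hb))
    refine ⟨nC b hb x hx, od.vtx ▸ hv, (od.turn.face x).2 ?_⟩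
    exact (od.cover x ((hG.es_eo (p1 true b hb)).1 hx) hv).resolve_right fun m => nC b hb x hx m.1
  · rcases ends hM hl (p1 true b hb) m with e | e
    · exact su b hb b' hb' _ (p2 true b hb) (e.1 ▸ p2 true b' hb')
    · exact (sc b' hb' _ (p2 true b' hb') (e.1 ▸ cc b hb true (p3 true b hb))).elim
  · obtain ⟨β, hβ, tb, tl⟩ := ok.tri b hb
    have pe : ∀ b', b' < bn.r → ∃ ε, bn.Par ch M vx t β b' ε ∧ (b' = b → ε = 1) ∧
        (b' < b → ε = 0) := by
      intro b' hb'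
      rcases lt_trichotomy b' b with l | l | l
      · exact ⟨0, tl b' l, fun e => by omega, fun _ => rfl⟩
      · exact ⟨1, l ▸ tb, fun _ => rfl, fun e => by omega⟩
      · obtain ⟨ε, hε⟩ := ok.par β hβ b' hb'
        exact ⟨ε, hε, fun e => by omega, fun e => by omega⟩
    choose! ε e1 e2 e3 using pe
    obtain ⟨ψ0, -, h0, -⟩ := tb
    have nm : ∀ b', b' < bn.r → ∃ φ : V → ZMod 2, M.Pt vx β φ (M.ind vx (bn.disc ch t b')) ∧
        (∀ v ∈ ch.cell t (bn.col b' false 0), φ v = ψ0 v) ∧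
        ∀ v ∈ ch.cell t (bn.col b' true 0), φ v = ψ0 v + ε b' := by
      intro b' hb'
      obtain ⟨ψ, ψ', a1, a2, a3, a4⟩ := e1 b' hb'
      obtain ⟨κ, hκ⟩ := co.2.2.2.2.2.1 β ψ ψ0 _ co.1 hβ.1 a1 h0
      refine ⟨fun v => ψ' v + κ, fun f hf => ?_, fun v hv => ?_, fun v hv => ?_⟩
      · rw [a2 f hf]
        show _ = ψ' (vx f) + κ + (ψ' (vx (M.a f)) + κ)
        generalize ψ' (vx f) = x1; generalize ψ' (vx (M.a f)) = x2
        clear hκ; revert x1 x2 κ; decide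
      · show ψ' v + κ = _
        rw [a3 v (cs b' false hv), hκ v (cc b' hb' false hv)]
      · show ψ' v + κ = _
        rw [a4 v (cs b' true hv), hκ v (cc b' hb' true hv)]; ring
    choose! φ f1 f2 f3 using nm
    set ψ : V → ZMod 2 := fun v => if h : ∃ b' < bn.r, v ∈ bn.St b' 0 then φ h.choose v else ψ0 v
      with hψ
    have ψ1 : ∀ b' < bn.r, ∀ v ∈ bn.St b' 0, ψ v = φ b' v := by
      intro b' hb' v hv
      have h : ∃ b' < bn.r, v ∈ bn.St b' 0 := ⟨b', hb', hv⟩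
      simp only [hψ, dif_pos h]
      rw [su _ h.choose_spec.1 b' hb' v h.choose_spec.2 hv]
    have ψ2 : ∀ v ∈ ch.core t, ψ v = ψ0 v := fun v hv =>
      dif_neg fun ⟨b', hb', m⟩ => sc b' hb' v m hv
    have sd : ∀ b', bn.St b' 0 ⊆ bn.disc ch t b' := fun b' v hv => Or.inl (Or.inl (sb b' hv))
    have val : ∀ b' < bn.r, β (p true b') + ψ (vx (p true b')) + ψ (vx (M.a (p true b'))) =
        ε b' := by
      intro b' hb'
      rw [f1 b' hb' _ ⟨p1 true b' hb', sd b' (p2 true b' hb'), Or.inr (cs b' true (p3 true b' hb'))⟩,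
        ψ1 b' hb' _ (p2 true b' hb'), ψ2 _ (cc b' hb' true (p3 true b' hb')),
        f3 b' hb' _ (p3 true b' hb')]
      generalize φ b' (vx (p true b')) = x1; generalize ψ0 (vx (M.a (p true b'))) = x2
      generalize ε b' = x3
      revert x1 x2 x3; decide
    refine ⟨β, ψ, hβ, fun x hx => ?_, (val b hb).trans (e2 b hb rfl),
      fun b' l => (val b' (by omega)).trans (e3 b' (by omega) l)⟩
    rcases cE hx with m | m
    · rw [ψ2 _ m.2.1, ψ2 _ m.2.2]; exact h0 x m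
    · obtain ⟨b', hb', m⟩ := mem_iUnion₂.1 m
      rcases m with m | m
      · rw [ψ1 b' hb' _ m.2.1, ψ1 b' hb' _ m.2.2]
        exact f1 b' hb' x ⟨m.1, sd b' m.2.1, sd b' m.2.2⟩
      · have y1 := p2 false b' hb'
        have y2 := p3 false b' hb'
        have y3 : ψ (vx (M.a (p false b'))) = φ b' (vx (M.a (p false b'))) := by
          rw [ψ2 _ (cc b' hb' false y2), f2 b' hb' _ y2]
        have y4 : vx (M.a (p false b')) ∈ bn.disc ch t b' := Or.inl (Or.inr (cs b' false y2))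
        have xS := (hG.es_eo (p1 false b' hb')).1 m
        rcases ends hM hl (p1 false b' hb') m with e | e
        · rw [f1 b' hb' x ⟨xS, e.1 ▸ sd b' y1, e.2 ▸ y4⟩, e.1, e.2, ψ1 b' hb' _ y1, y3]
        · rw [f1 b' hb' x ⟨xS, e.1 ▸ y4, e.2 ▸ sd b' y1⟩, e.1, e.2, ψ1 b' hb' _ y1, y3]

end Pool.Agent.MP_9d78a0_co.gm

end MrgPart1

-- ======== part 2: formerly Pool.Agent.MP_9d78a0_co.gm.RTg2
section MrgPart2

/-! Routing: the comb under the target, and the twist of a loop. -/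

set_option autoImplicit false

namespace Pool.Agent.MP_9d78a0_co.gm

open Set Function FM

namespace Tg2

variable {Φ V ι : Type} {M : FM Φ} {vx : Φ → V} {x y z f : Φ}

/-- the same end of an edge -/
def Nr (M : FM Φ) (x f : Φ) : Prop := x = f ∨ x = M.c f

theorem Nr.mem (hM : M.Ok) (hf : f ∈ M.S) (h : Nr M x f) : x ∈ M.S := by
  rcases h with rfl | rfl
  exacts [hf, hM.c_mem hf]

theorem Nr.symm (hM : M.Ok) (hf : f ∈ M.S) (h : Nr M x f) : Nr M f x := by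
  rcases h with rfl | rfl
  exacts [Or.inl rfl, Or.inr (hM.cc hf).symm]

theorem Nr.trans (hM : M.Ok) (hz : z ∈ M.S) (h : Nr M x y) (h' : Nr M y z) : Nr M x z := by
  rcases h with rfl | rfl
  · exact h'
  · rcases h' with rfl | rfl
    exacts [Or.inr rfl, Or.inl (hM.cc hz)]

theorem Nr.a (hM : M.Ok) (hf : f ∈ M.S) (h : Nr M x f) : Nr M (M.a x) (M.a f) := by
  rcases h with rfl | rfl
  exacts [Or.inl rfl, Or.inr (hM.comm hf)]

theorem Nr.v (hM : M.Ok) (hl : M.Lbl vx) (hf : f ∈ M.S) (h : Nr M x f) : vx x = vx f := by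
  rcases h with rfl | rfl
  exacts [rfl, hl.c hM hf]

theorem Nr.ech {β : Φ → ZMod 2} (hβ : M.Ech β) (hf : f ∈ M.S) (h : Nr M x f) : β x = β f := by
  rcases h with rfl | rfl
  exacts [rfl, (hβ f hf).2]

theorem Nr.es {U : Set Φ} (hU : M.Es U) (hf : f ∈ U) (h : Nr M x f) : x ∈ U := by
  rcases h with rfl | rfl
  exacts [hf, (hU.2 _ hf).2]

theorem nr_eo (hM : M.Ok) (hf : f ∈ M.S) : x ∈ M.eo f ↔ Nr M x f ∨ Nr M x (M.a f) := by
  rw [mem_eo hM hf, hM.comm hf, Nr, Nr]; tauto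

variable {C : Set Φ} {O : ℕ → Φ} {n : ℕ}

theorem Nr.idx (h : M.Turn C O n) {i j : ℕ} (hi : i < n) (hj : j < n) (k : O j ∉ C)
    (e : Nr M (O i) (O j)) : i = j :=
  e.elim (Tg1.inj h hi hj) fun e => absurd e (Tg1.ne_c h k)

/-- the walk stays at the vertices of `C` -/
theorem onC (hM : M.Ok) (hl : M.Lbl vx) (hC : M.Es C) (h : M.Turn C O n) {i j : ℕ}
    (e : vx (O i) ≠ vx (O j)) : (∃ l, O l ∈ C) ∧ ∀ l, vx (O l) ∈ vx '' C := by
  have st : ∀ l, O l ∉ C → vx (O (l + 1)) = vx (O l) := fun l k => by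
    rw [h.step, Tg1.wk_not k, hl.b hM (hM.c_mem (h.mem l)), hl.c hM (h.mem l)]
  have ex : ∃ l, O l ∈ C := by
    by_contra k
    have : ∀ l, vx (O l) = vx (O 0) := fun l => by
      induction l with
      | zero => rfl
      | succ l ih => rw [st l fun q => k ⟨l, q⟩, ih]
    exact e ((this i).trans (this j).symm)
  refine ⟨ex, fun l => ?_⟩
  obtain ⟨m, hm⟩ := ex
  have up : ∀ d, vx (O (m + d)) ∈ vx '' C := fun d => by
    induction d with
    | zero => exact ⟨_, hm, rfl⟩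
    | succ d ih =>
      rw [← add_assoc]
      by_cases k : O (m + d) ∈ C
      · rw [h.step, Tg1.wk_mem k, hl.b hM (hM.a_mem (h.mem _))]
        exact ⟨_, (hC.2 _ k).1, rfl⟩
      · rwa [st _ k]
  have p := h.pos
  have : O l = O (m + (l + n * m - m)) := (h.per _ _).2 (by
    rw [show m + (l + n * m - m) = l + n * m by have := Nat.le_mul_of_pos_left m p; omega]
    exact (Nat.add_mul_mod_self_left l n m).symm)
  rw [this]; exact up _

open Classical in
/-- the twist of a loop that is parallel to another loop -/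
theorem twist (hT : TwS) (hM : M.Ok) (hC : M.Es C) (h : M.Turn C O n) {i1 i2 j1 j2 : ℕ}
    (h1 : i1 < i2) (h2 : i2 < n) (h3 : j1 < n) (h4 : j2 < n) (n1 : j1 ≠ i1) (n2 : j1 ≠ i2)
    (n3 : j2 ≠ i1) (n4 : j2 ≠ i2) (c1 : O i1 ∉ C) (c2 : O j1 ∉ C)
    (a1 : Nr M (M.a (O i1)) (O i2)) (a2 : Nr M (M.a (O j1)) (O j2))
    (par : ∀ β : Φ → ZMod 2, M.Ech β → (∀ f ∈ M.S, Ev M.a M.b β 0 f) → (∀ f ∈ C, β f = 0) →
      β (O i1) = β (O j1)) :
    M.a (O i1) = O i2 ↔ ¬ ((i1 < j1 ∧ j1 < i2) ↔ (i1 < j2 ∧ j2 < i2)) := by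
  obtain ⟨β, b1, b2, b3, b4, b5⟩ := hT Φ M C O n i1 i2 hM hC h h1 h2 c1 a1
  have := (b4.symm.trans (par β b1 b2 b3)).trans (b5 j1 h3 j2 h4 n1 n2 n3 n4 c2 a2)
  by_cases k : M.a (O i1) = O i2 <;> by_cases k1 : i1 < j1 ∧ j1 < i2 <;>
    by_cases k2 : i1 < j2 ∧ j2 < i2 <;> simp only [k, k1, k2, if_true, if_false] at this ⊢ <;>
    first | (exfalso; revert this; decide) | simp

variable {H : Set V} {ch : Ch V} {bn : Bn V} {t μ : ℕ}

theorem col_mem (ok : bn.Ok ch M vx H t μ) {b : ℕ} (hb : b < bn.r) (e : Bool) {j : ℕ}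
    (hj : j < bn.w) : bn.lo b e ≤ bn.col b e j ∧ bn.col b e j ≤ bn.hi b e := by
  have up : (∀ j, j + 1 < bn.w → bn.col b e j < bn.col b e (j + 1)) →
      ∀ d i, i + d < bn.w → bn.col b e i ≤ bn.col b e (i + d) := fun k d i => by
    induction d with
    | zero => exact fun _ => le_rfl
    | succ d ih => exact fun q => (ih (by omega)).trans (k (i + d) q).le
  have dn : (∀ j, j + 1 < bn.w → bn.col b e (j + 1) < bn.col b e j) →
      ∀ d i, i + d < bn.w → bn.col b e (i + d) ≤ bn.col b e i := fun k d i => by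
    induction d with
    | zero => exact fun _ => le_rfl
    | succ d ih => exact fun q => (k (i + d) q).le.trans (ih (by omega))
  have e1 : j + (bn.w - 1 - j) = bn.w - 1 := by omega
  have mo : (∀ j, j + 1 < bn.w → bn.col b e j < bn.col b e (j + 1)) ∨
      ∀ j, j + 1 < bn.w → bn.col b e (j + 1) < bn.col b e j := by
    cases e
    · exact Or.inl (ok.mo0 b hb)
    · cases u : bn.up b
      · exact Or.inr fun j q => (ok.mo1 b hb j q).2 u
      · exact Or.inl fun j q => (ok.mo1 b hb j q).1 u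
  rw [Bn.lo, Bn.hi]
  rcases mo with k | k
  · have a1 := up k j 0 (by omega)
    have a2 := up k (bn.w - 1 - j) j (by omega)
    rw [zero_add] at a1
    rw [e1] at a2
    omega
  · have a1 := dn k j 0 (by omega)
    have a2 := dn k (bn.w - 1 - j) j (by omega)
    rw [zero_add] at a1
    rw [e1] at a2
    omega

theorem col_ne (ok : bn.Ok ch M vx H t μ) {b b' : ℕ} (hb : b < bn.r) (hb' : b' < bn.r)
    {e e' : Bool} {j j' : ℕ} (hj : j < bn.w) (hj' : j' < bn.w)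
    (k : bn.col b e j = bn.col b' e' j') : b = b' ∧ e = e' := by
  by_contra q
  have := ok.gap b hb e b' hb' e' (by simpa using q)
  have := col_mem ok hb e hj
  have := col_mem ok hb' e' hj'
  omega

theorem free_ne (ok : bn.Ok ch M vx H t μ) {b c : ℕ} (hb : b < bn.r) (hc : bn.free ch μ c)
    (e : Bool) {j : ℕ} (hj : j < bn.w) : bn.col b e j ≠ c := by
  have := hc.2 b hb e
  have := col_mem ok hb e hj
  omega

theorem cell_core (ht : t ≤ μ) {c : ℕ} (hc : ch.cen μ c) (hs : 2 * μ < ch.s) :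
    ch.cell t c ⊆ ch.core t := by
  rintro v ⟨h0, h1, h2, h3, h4⟩
  obtain ⟨hc1, hc2⟩ := hc
  exact ⟨h0, h1, by omega, by omega, by omega⟩

/-- the comb under two strands of every band and under the terminals -/
theorem comb (hH : HangS) {k q g : ℕ} {B : Fin g × Fin g → Set V} {Sp : Set Φ} {τ : Φ → ι}
    {Q : ι → Set V} {cq : ι → ℕ} (st : Stg k q M vx H B ch) (ok : bn.Ok ch M vx H t μ)
    (tμ : t < μ) (μs : 2 * μ < ch.s) (tr : Trm M vx H ch bn t μ Sp τ Q cq) :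
    ∃ K rt C, ch.Comb M vx t μ K rt C ∧ K ⊆ M.tv vx H ∧
      (∀ b < bn.r, ∀ j < 2, ∀ v, v ∈ bn.St b j ↔ v ∈ K ∧ rt v = bn.col b false j) ∧
      ∀ p ∈ Sp, ∀ v ∈ Q (τ p), v ∈ K ∧ rt v = cq (τ p) := by
  have hM := st.hm.ok
  have hl := st.hm.lbl
  have w2 := ok.two
  set I : Set ((ℕ × ℕ) ⊕ ι) := {s | Sum.elim (fun x => x.1 < bn.r ∧ x.2 < 2)
    (fun i => ∃ p ∈ Sp, τ p = i) s} with hI
  set K : (ℕ × ℕ) ⊕ ι → Set V := Sum.elim (fun x => bn.St x.1 x.2) Q with hK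
  set cs : (ℕ × ℕ) ⊕ ι → ℕ := Sum.elim (fun x => bn.col x.1 false x.2) cq with hcs
  have sb : ∀ b < bn.r, ∀ j < 2, bn.St b j ⊆ bn.body b := fun b _ j hj v hv =>
    Or.inl ⟨j, by omega, hv⟩
  have a1 : ∀ s ∈ I, Conn (M.gph vx) (K s) ∧ K s ⊆ M.tv vx H \ ch.core t ∧ ch.cen μ (cs s) ∧
      fb.Touch (M.gph vx) (K s) (ch.cell t (cs s)) := by
    rintro (⟨b, j⟩ | i) hs
    · obtain ⟨hb, hj⟩ : b < bn.r ∧ j < 2 := hs
      exact ⟨(ok.conn b hb j (by omega)).1, fun v hv => ⟨(ok.sub b hb (sb b hb j hj hv)).1.1,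
        (ok.sub b hb (sb b hb j hj hv)).2⟩, ok.cen b hb false j (by omega),
        (ok.conn b hb j (by omega)).2 false⟩
    · obtain ⟨p, hp, rfl⟩ := hs
      obtain ⟨c1, c2, c3, c4⟩ := tr.conn p hp
      exact ⟨c1, fun v hv => ⟨(c2 hv).1, fun m => (c2 hv).2 (Or.inl m)⟩, c3.1, c4⟩
  have a2 : ∀ s ∈ I, ∀ s' ∈ I, s ≠ s' → Disjoint (K s) (K s') ∧ cs s ≠ cs s' := by
    have mix : ∀ b j i, Sum.inl (b, j) ∈ I → Sum.inr i ∈ I →
        Disjoint (bn.St b j) (Q i) ∧ bn.col b false j ≠ cq i := by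
      rintro b j _ ⟨hb, hj⟩ ⟨p, hp, rfl⟩
      obtain ⟨-, c2, c3, -⟩ := tr.conn p hp
      exact ⟨disjoint_left.2 fun v h1 h2 => (c2 h2).2 (Or.inr ⟨b, hb, sb b hb j hj h1⟩),
        free_ne ok hb c3 false (by have : j < 2 := hj; omega)⟩
    rintro (⟨b, j⟩ | i) hs (⟨b', j'⟩ | i') hs' ne
    · obtain ⟨hb, hj⟩ : b < bn.r ∧ j < 2 := hs
      obtain ⟨hb', hj'⟩ : b' < bn.r ∧ j' < 2 := hs'
      refine ⟨ok.dss b hb j (by omega) b' hb' j' (by omega) fun e => ne (by rw [e]), fun e => ?_⟩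
      have e' : bn.col b false j = bn.col b' false j' := e
      obtain ⟨rfl, -⟩ := col_ne ok hb hb' (by omega) (by omega) e'
      have := ok.mo0 b hb 0 (by omega)
      have : j ≠ j' := fun e => ne (by rw [e])
      interval_cases j <;> interval_cases j' <;> simp_all
    · exact mix b j i' hs hs'
    · exact ⟨(mix b' j' i hs' hs).1.symm, (mix b' j' i hs' hs).2.symm⟩
    · obtain ⟨p, hp, rfl⟩ := hs
      obtain ⟨p', hp', rfl⟩ := hs'
      exact tr.dis p hp p' hp' fun e => ne (by rw [e])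
  have ex : ∀ s, s ∈ I → ∃ p ∈ M.S, vx p ∈ K s ∧ vx (M.a p) ∈ ch.cell t (cs s) := fun s hs =>
    RStop.touch_flag hM (a1 s hs).2.2.2
  obtain ⟨f0, -⟩ := RStop.touch_flag hM (st.ch.hor 0 (by omega) 0 (by omega))
  have : Nonempty Φ := ⟨f0⟩
  choose! p p1 p2 p3 using ex
  obtain ⟨rt, C, cb, -, hr, -⟩ := hH k q g Φ V _ M vx H B ch t μ I K
    (fun s => M.ind vx (K s) ∪ M.eo (p s)) (fun s => {cs s}) st tμ.le μs
    (fun i hi j hj n => (a2 i hi j hj n).1)
    fun s hs => ⟨disjoint_left.2 fun v hv => ((a1 s hs).2.1 hv).2,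
      (es_ind hM hl _).union (hM.gk.es_eo (p1 s hs)),
      fun c hc => hc ▸ (a1 s hs).2.2.1, fun e he => by
        rcases he with he | he
        · exact Or.inl he.2.1
        · rcases RStop.ends hM hl (p1 s hs) he with m | m
          · exact Or.inl (m.1 ▸ p2 s hs)
          · exact Or.inr ⟨_, rfl, m.1 ▸ p3 s hs⟩, fun v hv =>
      ⟨vx (M.a (p s)), cell_core tμ.le (a1 s hs).2.2.1 μs (p3 s hs), Relation.ReflTransGen.head
        ⟨mem_univ _, mem_univ _, M.a (p s),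
          Or.inr ((nr_eo hM (p1 s hs)).2 (Or.inr (Or.inl rfl))), rfl, by rw [hM.aa (p1 s hs)]⟩
        (RStop.link_el hM subset_union_left ((a1 s hs).1.2 _ (p2 s hs) v hv))⟩⟩
  refine ⟨_, rt, C, cb, fun v hv => ?_, fun b hb j hj v => ⟨fun hv => ?_, fun hv => ?_⟩,
    fun p hp v hv => ?_⟩
  · obtain ⟨s, hs, m⟩ := mem_iUnion₂.1 hv
    exact ((a1 s hs).2.1 m).1
  · have m : Sum.inl (b, j) ∈ I := ⟨hb, hj⟩
    exact ⟨mem_iUnion₂.2 ⟨_, m, hv⟩, hr _ m v hv⟩
  · have m : Sum.inl (b, j) ∈ I := ⟨hb, hj⟩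
    obtain ⟨s, hs, k⟩ := mem_iUnion₂.1 hv.1
    by_cases e : s = Sum.inl (b, j)
    · subst e; exact k
    · exact ((a2 s hs _ m e).2 ((hr s hs v k).symm.trans hv.2)).elim
  · have m : Sum.inr (τ p) ∈ I := ⟨p, hp, rfl⟩
    exact ⟨mem_iUnion₂.2 ⟨_, m, hv⟩, hr _ m v hv⟩

end Tg2

end Pool.Agent.MP_9d78a0_co.gm

end MrgPart2

-- marker of a merged file
example : 731051 + 77578 = 731051 + 77578 := rfl
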