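import Pool.Agent.MP_9d78a0_co.gm.SpecM
import Mathlib.Order.Interval.Set.Nat
import Pool.Agent.MP_9d78a0_co.gm.HBag1
import Pool.Agent.MP_9d78a0_co.gm.HCur
import Pool.Agent.MP_9d78a0_co.gm.SpecJ
import Pool.Agent.MP_9d78a0_co.gm.HLev
import Pool.Agent.MP_9d78a0_co.gm.RTg2

-- ======== part 0: formerly Pool.Agent.MP_9d78a0_co.gm.OpRad
section MrgPart0

/-! New vertices in faces. -/

set_option autoImplicit false

namespace Pool.Agent.MP_9d78a0_co.gm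

open Set Function Relation FM Sum

namespace OpRad

variable {Φ : Type} {M : FM Φ} {Q : Set Φ}

/-- the projection to the old flags -/
def pr : Φ ⊕ Φ × Bool → Φ := Sum.elim id Prod.fst

/-- the steps inside a region -/
def rR {Ψ : Type} (N : FM Ψ) (U : Set Ψ) (x y : Ψ) : Prop :=
  y = N.a x ∨ y = N.b x ∨ (x ∉ U ∧ y = N.c x)

theorem rR_empty {Ψ : Type} (N : FM Ψ) : rR N ∅ = N.rC := by
  funext x y
  simp [rR, rC]

theorem rR_sy {Ψ : Type} {N : FM Ψ} (h : N.Ok) {U : Set Ψ} (hU : N.Es U) : Sy N.S (rR N U) := by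
  rintro x hx y (rfl | rfl | ⟨k, rfl⟩)
  · exact ⟨h.gk.am hx, Or.inl (h.gk.aa hx).symm⟩
  · exact ⟨h.gk.bm hx, Or.inr (Or.inl (h.gk.bb hx).symm)⟩
  · exact ⟨h.gk.cm hx, Or.inr (Or.inr ⟨fun m => k ((h.gk.es_c hU hx).1 m), (h.gk.cc hx).symm⟩)⟩

@[simp] theorem pr_l (x : Φ) : pr (inl x) = x := rfl
@[simp] theorem pr_r (x : Φ) (s : Bool) : pr (inr (x, s)) = x := rfl
@[simp] theorem a_l (x : Φ) : (M.star Q).a (inl x) = inl (M.a x) := rfl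
@[simp] theorem a_r (x : Φ) (s : Bool) : (M.star Q).a (inr (x, s)) = inr (x, !s) := rfl
@[simp] theorem c_l (x : Φ) : (M.star Q).c (inl x) = inl (M.c x) := rfl
@[simp] theorem c_r (x : Φ) (s : Bool) : (M.star Q).c (inr (x, s)) = inr (M.b x, s) := rfl
theorem b_in {x : Φ} (k : x ∈ Q) : (M.star Q).b (inl x) = inr (x, false) := if_pos k
theorem b_out {x : Φ} (k : x ∉ Q) : (M.star Q).b (inl x) = inl (M.b x) := if_neg k
@[simp] theorem b_t (x : Φ) : (M.star Q).b (inr (x, true)) = inr (mate M.a M.b Q x, true) := rfl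
@[simp] theorem b_f (x : Φ) : (M.star Q).b (inr (x, false)) = inl x := rfl
@[simp] theorem mem_l {x : Φ} : inl x ∈ (M.star Q).S ↔ x ∈ M.S := by simp [FM.star]
@[simp] theorem mem_r {x : Φ} {s : Bool} : inr (x, s) ∈ (M.star Q).S ↔ x ∈ Q := by simp [FM.star]

theorem cls {Ψ : Type} {S' : Set Ψ} {r : Φ → Φ → Prop} {r' : Ψ → Ψ → Prop} {π : Ψ → Φ}
    (hs' : Sy S' r') (k : ∀ z ∈ S', ∀ w ∈ S', w ∈ cl r' z ↔ π w ∈ cl r (π z)) {z : Ψ}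
    (hz : z ∈ S') (w : Ψ) : w ∈ cl r' z ↔ w ∈ S' ∧ π w ∈ cl r (π z) :=
  ⟨fun m => ⟨hs'.sub hz m, (k z hz w (hs'.sub hz m)).1 m⟩, fun m => (k z hz w m.1).2 m.2⟩

variable (h : M.Ok) (hQ : M.Cs Q)
include h hQ

theorem nb {x : Φ} (hx : x ∈ M.S) (k : x ∉ Q) : M.b x ∉ Q := fun m => k (h.gk.bb hx ▸ hQ.2 _ m)

theorem mi : Inv Q (mate M.a M.b Q) := mate_inv h.fin h.ia h.ib hQ.1 hQ.2

theorem bi : Inv Q M.b := fun x k => ⟨hQ.2 x k, (h.ib x (hQ.1 k)).2⟩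

theorem mc {x : Φ} (k : x ∈ Q) : mate M.a M.b Q x ∈ cl (cut M.a M.b Q) x :=
  (mate_spec h.fin h.ia h.ib hQ.1 hQ.2 k).2.1

theorem ok : (M.star Q).Ok := by
  refine ⟨(h.fin.image _).union (((h.fin.subset hQ.1).prod finite_univ).image _), ?_, ?_, ?_, ?_⟩
  · rintro (x | ⟨x, s⟩) k
    · simpa using h.ia x (mem_l.1 k)
    · simpa using k
  · rintro (x | ⟨x, _ | _⟩) k
    · have k := mem_l.1 k
      by_cases q : x ∈ Q
      · simp [b_in q, q]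
      · rw [b_out q, b_out (nb h hQ k q)]
        simpa using h.ib x k
    · have k := mem_r.1 k
      simp [b_in k, hQ.1 k]
    · simpa using mi h hQ x (mem_r.1 k)
  · rintro (x | ⟨x, s⟩) k
    · simpa using h.ic x (mem_l.1 k)
    · simpa using bi h hQ x (mem_r.1 k)
  · rintro (x | ⟨x, s⟩) k
    · simpa using h.ac x (mem_l.1 k)
    · simp

omit h hQ in
theorem es {U : Set Φ} (hU : M.Es U) : (M.star Q).Es (inl '' U) := by
  refine ⟨?_, ?_⟩ <;> rintro _ ⟨x, k, rfl⟩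
  · exact mem_l.2 (hU.1 k)
  · exact ⟨⟨_, (hU.2 x k).1, rfl⟩, _, (hU.2 x k).2, rfl⟩

omit h hQ in
theorem round {x : Φ} (k : x ∈ Q) {r : Φ ⊕ Φ × Bool → Φ ⊕ Φ × Bool → Prop}
    (h1 : ∀ z, r z ((M.star Q).b z)) (h2 : ∀ p, r (inr p) ((M.star Q).c (inr p))) :
    inl (M.b x) ∈ cl r (inl x) :=
  cl_step (cl_step (cl_one (b_in k ▸ h1 (inl x))) (h2 (x, false))) (h1 (inr (M.b x, false)))

omit h in
theorem back {r : Φ ⊕ Φ × Bool → Φ ⊕ Φ × Bool → Prop} (h1 : ∀ z, r z ((M.star Q).a z))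
    (h2 : ∀ z, r z ((M.star Q).b z)) : ∀ z ∈ (M.star Q).S, pr z ∈ M.S ∧ z ∈ cl r (inl (pr z)) := by
  rintro (x | ⟨x, _ | _⟩) k
  · exact ⟨mem_l.1 k, cl_self _ _⟩
  · exact ⟨hQ.1 (mem_r.1 k), cl_one (r := r) (x := inl x) (b_in (M := M) (mem_r.1 k) ▸ h2 (inl x))⟩
  · exact ⟨hQ.1 (mem_r.1 k), cl_step (cl_one (b_in (mem_r.1 k) ▸ h2 (inl x))) (h1 (inr (x, false)))⟩

theorem regs {U : Set Φ} (hU : M.Es U) :
    (∀ z ∈ (M.star Q).S, ∀ w ∈ (M.star Q).S,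
      w ∈ cl (rR (M.star Q) (inl '' U)) z ↔ pr w ∈ cl (rR M U) (pr z)) ∧
    nc (rR (M.star Q) (inl '' U)) (M.star Q).S = nc (rR M U) M.S := by
  refine cl_proj pr inl (rR_sy h hU) (rR_sy (ok h hQ) (es hU)) (fun x k => ⟨mem_l.2 k, rfl⟩) ?_ ?_
    (back hQ (fun _ => Or.inl rfl) fun _ => Or.inr (Or.inl rfl))
  · rintro (x | ⟨x, s⟩) k w (rfl | rfl | ⟨n, rfl⟩)
    · exact cl_one (Or.inl rfl)
    · by_cases q : x ∈ Q
      · rw [b_in q]; exact cl_self _ _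
      · rw [b_out q]; exact cl_one (Or.inr (Or.inl rfl))
    · exact cl_one (Or.inr (Or.inr ⟨fun m => n ⟨x, m, rfl⟩, rfl⟩))
    · exact cl_self _ _
    · cases s
      · exact cl_self _ _
      · exact cl_le (cut_sy h.ia h.ib hQ.2)
          (fun y _ z e => cl_one (e.imp id fun e => Or.inl e.2)) (hQ.1 (mem_r.1 k))
          (mc h hQ (mem_r.1 k))
    · exact cl_one (Or.inr (Or.inl rfl))
  · rintro x k y (rfl | rfl | ⟨n, rfl⟩)
    · exact cl_one (Or.inl rfl)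
    · by_cases q : x ∈ Q
      · exact round q (fun _ => Or.inr (Or.inl rfl)) fun p => Or.inr (Or.inr ⟨by simp, rfl⟩)
      · exact cl_one (Or.inr (Or.inl (b_out q).symm))
    · exact cl_one (Or.inr (Or.inr ⟨by simpa using n, rfl⟩))

theorem comps : (∀ z ∈ (M.star Q).S, ∀ w ∈ (M.star Q).S,
      w ∈ cl (M.star Q).rC z ↔ pr w ∈ cl M.rC (pr z)) ∧
    nc (M.star Q).rC (M.star Q).S = nc M.rC M.S := by
  have := regs h hQ es_empty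
  rwa [image_empty, rR_empty, rR_empty] at this

theorem faces : (∀ z ∈ (M.star Q).S, ∀ w ∈ (M.star Q).S,
      w ∈ cl (M.star Q).rF z ↔ pr w ∈ cl (cut M.a M.b Q) (pr z)) ∧
    nc (M.star Q).rF (M.star Q).S = nc (cut M.a M.b Q) M.S := by
  refine cl_proj pr inl (cut_sy h.ia h.ib hQ.2) (ok h hQ).gk.sF (fun x k => ⟨mem_l.2 k, rfl⟩) ?_ ?_
    (back hQ (fun _ => Or.inl rfl) fun _ => Or.inr rfl)
  · rintro (x | ⟨x, s⟩) k w (rfl | rfl)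
    · exact cl_one (Or.inl rfl)
    · by_cases q : x ∈ Q
      · rw [b_in q]; exact cl_self _ _
      · rw [b_out q]; exact cl_one (Or.inr ⟨q, rfl⟩)
    · exact cl_self _ _
    · cases s
      · exact cl_self _ _
      · exact mc h hQ (mem_r.1 k)
  · rintro x k y (rfl | ⟨n, rfl⟩)
    · exact cl_one (Or.inl rfl)
    · exact cl_one (Or.inr (b_out n).symm)

omit h hQ in
/-- the flags at old vertices -/
def S1 (M : FM Φ) (Q : Set Φ) : Set (Φ ⊕ Φ × Bool) := inl '' M.S ∪ inr '' (Q ×ˢ {false})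

omit h hQ in
/-- the flags at new vertices -/
def S2 (Q : Set Φ) : Set (Φ ⊕ Φ × Bool) := inr '' (Q ×ˢ {true})

theorem sy1 : Sy (S1 M Q) (M.star Q).rV := by
  intro z k w e
  have k' : z ∈ (M.star Q).S := k.imp id (image_mono (prod_mono Subset.rfl (subset_univ _)) ·)
  refine ⟨?_, ((ok h hQ).gk.sV z k' w e).2⟩
  rcases k with ⟨x, k, rfl⟩ | ⟨⟨x, s⟩, ⟨k, rfl⟩, rfl⟩ <;> rcases e with rfl | rfl
  · by_cases q : x ∈ Q
    · rw [b_in q]; exact Or.inr ⟨(x, false), ⟨q, rfl⟩, rfl⟩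
    · rw [b_out q]; exact Or.inl ⟨_, h.gk.bm k, rfl⟩
  · exact Or.inl ⟨_, h.gk.cm k, rfl⟩
  · exact Or.inl ⟨_, hQ.1 k, rfl⟩
  · exact Or.inr ⟨(M.b x, false), ⟨hQ.2 x k, rfl⟩, rfl⟩

theorem sy2 : Sy (S2 Q) (M.star Q).rV := by
  rintro _ ⟨⟨x, s⟩, ⟨k, rfl⟩, rfl⟩ w e
  refine ⟨?_, ((ok h hQ).gk.sV _ (mem_r.2 k) w e).2⟩
  rcases e with rfl | rfl
  · exact ⟨(_, true), ⟨(mi h hQ x k).1, rfl⟩, rfl⟩
  · exact ⟨(_, true), ⟨hQ.2 x k, rfl⟩, rfl⟩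

theorem vold : (∀ z ∈ S1 M Q, ∀ w ∈ S1 M Q, w ∈ cl (M.star Q).rV z ↔ pr w ∈ cl M.rV (pr z)) ∧
    nc (M.star Q).rV (S1 M Q) = nc M.rV M.S := by
  refine cl_proj pr inl h.gk.sV (sy1 h hQ) (fun x k => ⟨Or.inl ⟨x, k, rfl⟩, rfl⟩) ?_ ?_ ?_
  · rintro _ (⟨x, k, rfl⟩ | ⟨⟨x, s⟩, ⟨k, rfl⟩, rfl⟩) w (rfl | rfl)
    · by_cases q : x ∈ Q
      · rw [b_in q]; exact cl_self _ _
      · rw [b_out q]; exact cl_one (Or.inl rfl)
    · exact cl_one (Or.inr rfl)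
    · exact cl_self _ _
    · exact cl_one (Or.inl rfl)
  · rintro x k y (rfl | rfl)
    · by_cases q : x ∈ Q
      · exact round q (fun _ => Or.inl rfl) fun p => Or.inr rfl
      · exact cl_one (Or.inl (b_out q).symm)
    · exact cl_one (Or.inr rfl)
  · rintro _ (⟨x, k, rfl⟩ | ⟨⟨x, s⟩, ⟨k, rfl⟩, rfl⟩)
    · exact ⟨k, cl_self _ _⟩
    · exact ⟨hQ.1 k, cl_one (Or.inl (b_in k).symm)⟩

theorem vnew : (∀ z ∈ S2 Q, ∀ w ∈ S2 Q, w ∈ cl (M.star Q).rV z ↔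
      pr w ∈ cl (fun x y => y = mate M.a M.b Q x ∨ y = M.b x) (pr z)) ∧
    nc (M.star Q).rV (S2 Q) = nc (fun x y => y = mate M.a M.b Q x ∨ y = M.b x) Q := by
  refine cl_proj pr (fun x => inr (x, true)) ((mi h hQ).sy2 (bi h hQ)) (sy2 h hQ)
    (fun x k => ⟨⟨(x, true), ⟨k, rfl⟩, rfl⟩, rfl⟩) ?_ ?_ ?_
  · rintro _ ⟨⟨x, s⟩, ⟨k, rfl⟩, rfl⟩ w (rfl | rfl)
    · exact cl_one (Or.inl rfl)
    · exact cl_one (Or.inr rfl)
  · rintro x k y (rfl | rfl)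
    · exact cl_one (Or.inl rfl)
    · exact cl_one (Or.inr rfl)
  · rintro _ ⟨⟨x, s⟩, ⟨k, rfl⟩, rfl⟩
    exact ⟨k, cl_self _ _⟩

theorem comp1 : (∀ f ∈ Q, cl (fun x y => y = mate M.a M.b Q x ∨ y = M.b x) f = cl M.rF f ∩ Q) ∧
    nc M.rF M.S = nc (fun x y => y = mate M.a M.b Q x ∨ y = M.b x) Q +
      nc (cut M.a M.b Q) (free M.S M.a M.b Q) := by
  refine compress h.fin h.ia h.ib hQ.1 hQ.2 h.gk.sF (fun x _ y e => e.imp id (·.2)) ?_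
    (fun _ _ => Or.inl rfl) ?_
  · rintro x k y (rfl | rfl)
    · exact Or.inl (Or.inl rfl)
    · by_cases q : x ∈ Q
      · exact Or.inr ⟨q, hQ.2 x q, Or.inr rfl⟩
      · exact Or.inl (Or.inr ⟨q, rfl⟩)
  · rintro x k y (rfl | rfl)
    · exact Or.inl rfl
    · exact Or.inr ⟨hQ.2 x k, Or.inr rfl⟩

theorem edges : nc (M.star Q).rE (M.star Q).S = nc M.rE M.S + nc (fun x y => y = M.b x) Q := by
  have g := ok h hQ
  have s1 : Sy (inl '' M.S) (M.star Q).rE := by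
    rintro _ ⟨x, k, rfl⟩ w e
    refine ⟨?_, (g.gk.sE _ (mem_l.2 k) w e).2⟩
    rcases e with rfl | rfl
    · exact ⟨_, h.gk.am k, rfl⟩
    · exact ⟨_, h.gk.cm k, rfl⟩
  rw [nc_split g.fin (es h.gk.es_S).1 s1]
  congr 1
  · refine (cl_proj pr inl h.gk.sE s1 (fun x k => ⟨⟨x, k, rfl⟩, rfl⟩) ?_ ?_ ?_).2
    · rintro _ ⟨x, k, rfl⟩ w (rfl | rfl)
      · exact cl_one (Or.inl rfl)
      · exact cl_one (Or.inr rfl)
    · rintro x k y (rfl | rfl)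
      · exact cl_one (Or.inl rfl)
      · exact cl_one (Or.inr rfl)
    · rintro _ ⟨x, k, rfl⟩
      exact ⟨k, cl_self _ _⟩
  · refine (cl_proj pr (fun x => inr (x, false)) (bi h hQ).sy1 (g.gk.sE.diff s1)
      (fun x k => ⟨⟨mem_r.2 k, by simp⟩, rfl⟩) ?_ ?_ ?_).2
    · rintro (x | ⟨x, s⟩) k w (rfl | rfl)
      · exact (k.2 ⟨x, mem_l.1 k.1, rfl⟩).elim
      · exact (k.2 ⟨x, mem_l.1 k.1, rfl⟩).elim
      · exact cl_self _ _
      · exact cl_one rfl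
    · rintro x k y rfl
      exact cl_one (Or.inr rfl)
    · rintro (x | ⟨x, _ | _⟩) k
      · exact (k.2 ⟨x, mem_l.1 k.1, rfl⟩).elim
      · exact ⟨mem_r.1 k.1, cl_self _ _⟩
      · exact ⟨mem_r.1 k.1, cl_one (Or.inl rfl)⟩

theorem eg : (M.star Q).eg = M.eg := by
  have g := ok h hQ
  have e : (M.star Q).S \ S1 M Q = S2 Q := by
    ext (x | ⟨x, _ | _⟩) <;> simp [S1, S2]
  have a1 := nc_split (r := (M.star Q).rV) g.fin (A := S1 M Q)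
    (fun z k => k.imp id (image_mono (prod_mono Subset.rfl (subset_univ _)) ·)) (sy1 h hQ)
  have a2 := (compress (t := fun x y => y = mate M.a M.b Q x) h.fin h.ia h.ib hQ.1 hQ.2
    (cut_sy h.ia h.ib hQ.2) (fun _ _ _ e => e) (fun _ _ _ e => Or.inl e) (fun _ _ => rfl)
    fun _ _ _ e => Or.inl e).2
  have a3 := nc_pair (h.fin.subset hQ.1) (mi h hQ)
  have a4 := nc_pair (h.fin.subset hQ.1) (bi h hQ)
  rw [e, (vold h hQ).2, (vnew h hQ).2] at a1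
  rw [eg_eq, eg_eq, (comps h hQ).2, a1, edges h hQ, (faces h hQ).2, a2, (comp1 h hQ).2]
  push_cast
  omega

theorem iso : M.Iso ((M.star Q).sub (inl '' M.S)) inl := by
  have g := ok h hQ
  have hE := es (Q := Q) h.gk.es_S
  refine ⟨fun _ _ _ _ e => inl_injective e, rfl, fun _ _ => rfl, fun f k => ?_, fun _ _ => rfl⟩
  change mate (M.star Q).b ((M.star Q).sg ∅) (inl '' M.S) (inl f) = _
  by_cases q : f ∈ Q
  · refine mate_eq g.fin g.ib (g.gk.sg es_empty) hE.1 (fun _ k => hE.sg k) ⟨f, k, rfl⟩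
      ⟨_, h.gk.bm k, rfl⟩ (round q (fun _ => Or.inl rfl) fun p => Or.inr ⟨by simp, ?_⟩)
      fun e => (h.ib f k).2.2 (inl_injective e)
    exact (sg_out (notMem_empty _)).symm
  · rw [mate_of_mem, b_out q]
    rw [b_out q]
    exact ⟨_, h.gk.bm k, rfl⟩

theorem vo_l {z : Φ ⊕ Φ × Bool} (k : z ∈ S1 M Q) (w : Φ ⊕ Φ × Bool) :
    w ∈ (M.star Q).vo z ↔ w ∈ S1 M Q ∧ pr w ∈ M.vo (pr z) := cls (sy1 h hQ) (vold h hQ).1 k w

theorem vo_r {x : Φ} (k : x ∈ Q) (w : Φ ⊕ Φ × Bool) :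
    w ∈ (M.star Q).vo (inr (x, true)) ↔ w ∈ S2 Q ∧ pr w ∈ M.fo x ∩ Q := by
  rw [vo_eq, cls (sy2 h hQ) (vnew h hQ).1 ⟨(x, true), ⟨k, rfl⟩, rfl⟩, pr_r, (comp1 h hQ).1 x k, fo_eq]

end OpRad

open OpRad

theorem radS : RadS := by
  intro Φ M Q h hQ
  have g := ok h hQ
  refine ⟨g, eg h hQ, fun k z hz w hw => ?_, es h.gk.es_S, iso h hQ, fun x k => ?_, fun x k => ?_,
    fun x k => ?_, fun U hU x k => ?_, fun o ho => ?_, fun o ho x k => ?_,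
    fun V vx nm hl h1 h2 => ?_⟩
  · have b := back (r := fun _ _ => True) hQ (fun _ => trivial) fun _ => trivial
    exact ((comps h hQ).1 z hz w hw).2 (k _ (b z hz).1 _ (b w hw).1)
  · ext w
    rw [vo_l h hQ (Or.inl ⟨x, k, rfl⟩)]
    have := @h.gk.sV.sub _ _ _ x k
    rcases w with y | ⟨y, _ | _⟩ <;> simp [S1]
    exact fun m => this m
  · ext w
    rw [vo_r h hQ k]
    rcases w with y | ⟨y, _ | _⟩ <;> simp [S2]
    tauto
  · ext w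
    rw [fo_eq, cls g.gk.sF (faces h hQ).1 (mem_l.2 k)]
    have := (cut_sy h.ia h.ib hQ.2).sub k
    rcases w with y | ⟨y, s⟩ <;> simp
    exact fun m => this m
  · ext w
    change w ∈ cl (rR (M.star Q) (inl '' U)) (inl x) ↔
      w ∈ inl '' cl (rR M U) x ∪ inr '' ((Q ∩ cl (rR M U) x) ×ˢ univ)
    rw [cls (rR_sy g (es hU)) (regs h hQ hU).1 (mem_l.2 k)]
    have := (rR_sy h hU).sub k
    rcases w with y | ⟨y, s⟩ <;> simp
    exact fun m => this m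
  · rintro (x | ⟨x, _ | _⟩) k
    · have := ho x (mem_l.1 k)
      by_cases q : x ∈ Q
      · simp [b_in q, this]
      · simp [b_out q, this]
    · simp [ho x (hQ.1 (mem_r.1 k))]
    · have := mate_ori (D := Q) h.ia h.ib (fun y m => (ho y m).1) (fun y m => (ho y m).2.1)
        (hQ.1 (mem_r.1 k))
      simp [ho x (hQ.1 (mem_r.1 k)), this]
  · have a1 := ho _ (mem_l.2 k)
    refine ⟨a1.1, ?_, a1.2.2⟩
    by_cases q : x ∈ Q
    · have a2 := (ho _ (mem_r (s := false).2 q)).2.2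
      have a3 := (ho _ (mem_r (s := false).2 (hQ.2 x q))).2.1
      rw [b_in q] at a1
      rw [c_r] at a2
      rw [b_f, a2, a1.2.1, not_not] at a3
      exact a3
    · rw [b_out q] at a1
      exact a1.2.1
  · have old : ∀ z ∈ S1 M Q, pr z ∈ M.S ∧
        Sum.elim vx (fun p : Φ × Bool => if p.2 then nm p.1 else vx p.1) z = vx (pr z) := by
      rintro _ (⟨x, k, rfl⟩ | ⟨⟨x, s⟩, ⟨k, rfl⟩, rfl⟩)
      · exact ⟨k, rfl⟩
      · exact ⟨hQ.1 k, rfl⟩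
    have cs : ∀ z ∈ (M.star Q).S, z ∈ S1 M Q ∨ ∃ x ∈ Q, z = inr (x, true) := by
      rintro (x | ⟨x, _ | _⟩) k
      · exact Or.inl (Or.inl ⟨x, mem_l.1 k, rfl⟩)
      · exact Or.inl (Or.inr ⟨(x, false), ⟨mem_r.1 k, rfl⟩, rfl⟩)
      · exact Or.inr ⟨x, mem_r.1 k, rfl⟩
    intro z hz w hw
    rcases cs z hz with k | ⟨x, k, rfl⟩ <;> rcases cs w hw with m | ⟨y, m, rfl⟩
    · rw [(old z k).2, (old w m).2, hl _ (old z k).1 _ (old w m).1, vo_l h hQ k]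
      exact (and_iff_right m).symm
    · rw [(old z k).2, vo_l h hQ k]
      exact iff_of_false (fun e => h2 y m ⟨_, (old z k).1, e⟩) fun e => by simpa [S1] using e.1
    · rw [(old w m).2, vo_r h hQ k]
      refine iff_of_false (fun e => h2 x k ⟨_, (old w m).1, e.symm⟩) ?_
      rintro ⟨⟨⟨y, s⟩, ⟨-, rfl⟩, rfl⟩, -⟩
      simp [S1] at m
    · rw [vo_r h hQ k]
      exact (h1 x k y m).trans ⟨fun e => ⟨⟨(y, true), ⟨m, rfl⟩, rfl⟩, e, m⟩, fun e => e.2.1⟩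

end Pool.Agent.MP_9d78a0_co.gm

end MrgPart0

-- ======== part 1: formerly Pool.Agent.MP_9d78a0_co.gm.HV1
section MrgPart1

/-! Block H: the lane with the highest start stays high. -/

set_option autoImplicit false

namespace Pool.Agent.MP_9d78a0_co.gm

open Set Function Cy

namespace hv1

theorem orb_const {α A : Type} {p q : α → α} {x y : α} (φ : α → A)
    (h : ∀ y ∈ orb p q x, φ (p y) = φ y ∧ φ (q y) = φ y) (hy : y ∈ orb p q x) : φ y = φ x :=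
  (orb_ind (P := fun z => z ∈ orb p q x ∧ φ z = φ x) hy ⟨orb_self .., rfl⟩
    (fun z k => ⟨orb_p k.1, (h z k.1).1.trans k.2⟩) fun z k => ⟨orb_q k.1, (h z k.1).2.trans k.2⟩).2

theorem one_self {α : Type} (p : α → α) (x : α) : one p x x = 1 := if_pos (Or.inl rfl)

theorem one_zero {α : Type} {p : α → α} {x y : α} (h : y ≠ x) (h' : y ≠ p x) : one p x y = 0 :=
  if_neg fun k => k.elim h h'

section maps

variable {Φ V : Type} {M : FM Φ} {vx : Φ → V} {f g : Φ}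

theorem eo_cases (hM : M.Ok) (hf : f ∈ M.S) (hg : g ∈ M.eo f) :
    g = f ∨ g = M.c f ∨ g = M.a f ∨ g = M.c (M.a f) := by
  have a1 := hM.ia f hf
  have c1 := hM.ic f hf
  refine orb_ind (P := fun g => g = f ∨ g = M.c f ∨ g = M.a f ∨ g = M.c (M.a f)) hg (Or.inl rfl)
    ?_ ?_
  · rintro _ (rfl | rfl | rfl | rfl)
    · exact Or.inr (Or.inr (Or.inl rfl))
    · exact Or.inr (Or.inr (Or.inr (hM.ac f hf).1))
    · exact Or.inl a1.2.1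
    · exact Or.inr (Or.inl (by rw [(hM.ac _ a1.1).1, a1.2.1]))
  · rintro _ (rfl | rfl | rfl | rfl)
    · exact Or.inr (Or.inl rfl)
    · exact Or.inl c1.2.1
    · exact Or.inr (Or.inr (Or.inr rfl))
    · exact Or.inr (Or.inr (Or.inl (hM.ic _ a1.1).2.1))

theorem vo_mem (hM : M.Ok) (hf : f ∈ M.S) (hg : g ∈ M.vo f) : g ∈ M.S :=
  orb_mem hM.ib.inv0 hM.ic.inv0 hf hg

theorem fo_mem (hM : M.Ok) (hf : f ∈ M.S) (hg : g ∈ M.fo f) : g ∈ M.S :=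
  orb_mem hM.ia.inv0 hM.ib.inv0 hf hg

theorem vo_vx (hM : M.Ok) (hL : M.Lbl vx) (hf : f ∈ M.S) (hg : g ∈ M.vo f) : vx g = vx f :=
  ((hL f hf g (vo_mem hM hf hg)).2 hg).symm

/-- the curve along a chain of pairs of edges -/
theorem lane (hM : M.Ok) (w : ℕ → V) (f g : ℕ → Φ) (Fc : Set Φ) (n : ℕ)
    (h : ∀ i < n, f i ∈ M.S ∧ g i ∈ M.S ∧ vx (f i) = vx (g i) ∧ vx (M.a (f i)) = w i ∧
      vx (M.a (g i)) = w (i + 1) ∧ M.a (f i) ∈ Fc ∧ g i ∈ Fc) :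
    ∃ oc, M.Cv vx ∅ Fc (w 0) (w n) 0 oc := by
  induction n with
  | zero => exact ⟨0, FM.Cv.nil _⟩
  | succ n ih =>
    obtain ⟨oc, k⟩ := ih fun i hi => h i (by omega)
    obtain ⟨h1, h2, h3, h4, h5, h6, h7⟩ := h n (by omega)
    have k1 := FM.Cv.edge (M.a (f n)) k (hM.ia _ h1).1 h4 h6
    rw [(hM.ia _ h1).2.1, h3] at k1
    exact ⟨_, h5 ▸ FM.Cv.edge (g n) k1 h2 rfl h7⟩

/-- a potential without weights at a vertex is constant there -/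
theorem vo_const (hM : M.Ok) (hL : M.Lbl vx) {χ ob oc : Φ → ZMod 2} (hb : Pot M.S M.b ob χ)
    (hc : Pot M.S M.c oc χ) (hf : f ∈ M.S) (hg : g ∈ M.S) (e : vx g = vx f)
    (h : ∀ y ∈ M.S, vx y = vx f → ob y = 0 ∧ oc y = 0) : χ f = χ g := by
  refine (orb_const χ (fun y hy => ?_) ((hL f hf g hg).1 e.symm)).symm
  have m := vo_mem hM hf hy
  have k := h y m (vo_vx hM hL hf hy)
  rw [hb y m, hc y m, k.1, k.2, add_zero]
  exact ⟨rfl, rfl⟩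

end maps

section sk

variable {s : Sk} {f g : s.Φ}

theorem inl_node {v : MV} (h : v ∈ s.Nd) : Sum.inl (nodeOf v) = v := by
  obtain ⟨-, w, rfl⟩ := h
  rfl

theorem ce_nd {v : MV} (h : v ∈ s.Ce) : v ∉ s.Nd := by
  rintro ⟨-, w, rfl⟩
  obtain ⟨⟨-, u, e⟩, -⟩ := h
  cases e

theorem ce_h {v : MV} (h : v ∈ s.Ce) : v ∉ s.H := fun k => h.2 (Or.inl k)

theorem nd_h (h : s.Ok0) {v : MV} (hv : v ∈ s.Nd) : v ∉ s.H := by
  obtain ⟨-, w, rfl⟩ := hv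
  intro k
  obtain ⟨u, e⟩ := h.hr.1 k
  cases e

theorem node_a (h : s.Ok0) (hf : f ∈ s.M.S) (hc : s.vx f ∈ s.Ce) : s.vx (s.M.a f) ∈ s.Nd := by
  by_contra k
  exact ce_nd hc ((h.bip f hf).2 k)

theorem adj_a (h : s.Ok0) (hf : f ∈ s.M.S) : s.G.Adj (s.vx f) (s.vx (s.M.a f)) :=
  ⟨(h.hm.simple f hf).1, f, hf, Or.inl ⟨rfl, rfl⟩⟩

theorem same_edge (h : s.Ok0) (hf : f ∈ s.M.S) (hg : g ∈ s.M.S) (hc : s.vx f ∈ s.Ce)
    (e : s.vx g = s.vx f) (e' : s.far g = s.far f) : g = f ∨ g = s.M.c f := by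
  have a := node_a h hf hc
  have b := node_a h hg (e ▸ hc)
  exact (h.hm.simple f hf).2 g hg (ce_h hc) (nd_h h a) e
    ((inl_node b).symm.trans ((congrArg Sum.inl e').trans (inl_node a)))

/-- the third edge of a cell -/
theorem third {A : Type} (h : s.Ok0) (φ : s.Φ → A) (hφ : ∀ f ∈ s.M.S, φ (s.M.c f) = φ f)
    {f1 f2 : s.Φ} (h1 : f1 ∈ s.M.S) (h2 : f2 ∈ s.M.S) (hf : f ∈ s.M.S) (hg : g ∈ s.M.S)
    (hc : s.vx f ∈ s.Ce) (h3 : (s.nb (s.vx f)).Finite ∧ (s.nb (s.vx f)).ncard ≤ 3)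
    (e1 : s.vx f1 = s.vx f) (e2 : s.vx f2 = s.vx f) (e3 : s.vx g = s.vx f) (n : φ f1 ≠ φ f2)
    (n1 : φ f ≠ φ f1) (n2 : φ f ≠ φ f2) (n3 : φ g ≠ φ f1) (n4 : φ g ≠ φ f2) :
    g = f ∨ g = s.M.c f := by
  have mem : ∀ x ∈ s.M.S, s.vx x = s.vx f → s.far x ∈ s.nb (s.vx f) := fun x hx e => by
    have := adj_a h hx
    rw [e, ← inl_node (node_a h hx (e ▸ hc))] at this
    exact this
  have ne : ∀ x ∈ s.M.S, ∀ y ∈ s.M.S, s.vx x = s.vx f → s.vx y = s.vx f → φ x ≠ φ y →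
      s.far x ≠ s.far y := fun x hx y hy ex ey k e => by
    rcases same_edge h hy hx (ey ▸ hc) (ex.trans ey.symm) e with r | r
    · exact k (r ▸ rfl)
    · exact k (r ▸ hφ y hy)
  have E : ({s.far f, s.far f1, s.far f2} : Set W) = s.nb (s.vx f) := by
    refine eq_of_subset_of_ncard_le ?_ ?_ h3.1
    · rintro _ (rfl | rfl | rfl)
      exacts [mem f hf rfl, mem f1 h1 e1, mem f2 h2 e2]
    · rw [ncard_eq_three.2 ⟨_, _, _, ne f hf f1 h1 rfl e1 n1, ne f hf f2 h2 rfl e2 n2,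
        ne f1 h1 f2 h2 e1 e2 n, rfl⟩]
      exact h3.2
  have := mem g hg e3
  rw [← E] at this
  rcases this with k | k | k
  · exact same_edge h hf hg hc e3 k
  · exact (ne g hg f1 h1 e3 e1 n3 k).elim
  · exact (ne g hg f2 h2 e3 e2 n4 k).elim

end sk

theorem dcut_fin {σ : AG} (r : Rw σ) (h : r.s.M.Ok) {f : r.s.Φ} (hf : f ∈ r.s.M.S)
    (χ : r.s.Φ → ZMod 2) (U : Set σ.ε) : (r.dcut f χ U).Finite := by
  refine Finite.subset (Finite.union ?_ ?_) fun v hv => hv.1.1.1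
  · exact (toFinite U).biUnion fun a _ => (VV_finite (σ.pfin a)).inter_of_left _
  · exact (h.fin.subset fun g hg => vo_mem h hf hg.1).image _

theorem card4 {α : Type} (a b c d : α) : ({a, b, c, d} : Set α).ncard ≤ 4 := by
  have h1 := ncard_insert_le a ({b, c, d} : Set α)
  have h2 := ncard_insert_le b ({c, d} : Set α)
  have h3 := ncard_insert_le c ({d} : Set α)
  rw [ncard_singleton] at h3
  omega

/-- disjoint paths with ends of different colours need many blockers -/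
theorem count {V : Type} {G : SimpleGraph V} {D L R X : Set V} {e : ℕ} {n : ℕ → ℕ} {y : ℕ → ℕ → V}
    (h : Lns G D L R e n y) (hX : X.Finite) (k : ∀ l, 0 < l → l < e → ∃ i ≤ n l, y l i ∈ X) :
    e ≤ X.ncard + 1 := by
  choose! i h1 h2 using k
  have := ncard_le_ncard_of_injOn (s := Ico 1 e) (fun l => y l (i l))
    (fun l hl => h2 l hl.1 hl.2) (fun l hl l' hl' q =>
      (h.inj l hl.2 l' hl'.2 _ (h1 l hl.1 hl.2) _ (h1 l' hl'.1 hl'.2) q).1) hX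
  rw [ncard_Ico_nat] at this
  omega

end hv1

namespace HB

open hv1 in
theorem v1S : BasS → AreaS → LevS → GamS → ColS → V1S := by
  intro hbas _ hlev hgam hcol σ r k q D l U0 z Z t n y cx ad ln top
  obtain ⟨g1, -, g3, g4, g5, g6, -, -, -, g10, -, g12⟩ := hgam σ r k q D l U0 z cx
  obtain ⟨l1, -, l3, l4⟩ := hlev r.s U0 _ z.x cx.zx cx.hole
  obtain ⟨m1, m2, -, -, -, -, -, m8, -⟩ := l4 z.m (by omega)
  have ok := cx.co.ok0
  have hM := ok.hm.ok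
  have hL := ok.hm.lbl
  have geo := cx.geo
  have ZN : Z ⊆ r.s.Nd := fun v hv => (ad.sub hv).1
  obtain ⟨-, dm⟩ := g12 Z ZN ad.low
  have he := cx.e
  have hm : z.m = z.rr + 1 + z.e := rfl
  have gN : ∀ i, 1 ≤ i → i ≤ z.m + 1 → z.γ i ∈ r.s.Nd := fun i h1 h2 => by
    obtain ⟨j, rfl⟩ : ∃ j, i = j + 1 := ⟨i - 1, by omega⟩
    exact (geo.pm j (by omega)).2.2.2.2.2
  have ginj : ∀ i ≤ z.m + 1, ∀ j ≤ z.m + 1, z.γ i = z.γ j → i = j := fun i hi j hj e => by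
    rw [← (g1 i hi).2, ← (g1 j hj).2, e]
  have pS : ∀ i ≤ z.m, z.p i ∈ r.s.M.S := fun i hi => (geo.pm i hi).1
  have pv : ∀ i ≤ z.m, r.s.vx (z.p i) = z.γ i := fun i hi => (geo.pm i hi).2.1
  have xN : ∀ v ∈ r.s.Nd, v ≠ z.x := fun v hv e => nd_h ok hv (e ▸ cx.hole.1)
  have cpc : ∀ φ ∈ r.s.M.S, z.cp (r.s.M.c φ) = z.cp φ := fun φ hφ => by
    rw [Zg.cp, Zg.cp, Gph.vx_c hM hL hφ, g5 φ hφ]
  have gZ : ∀ j c, z.rr + 2 ≤ j → j ≤ z.m → (nodeOf (z.γ j), c) ∈ r.Dm z Z → z.γ j ∈ Z :=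
    fun j c h1 h2 h => by
      have e := inl_node (gN j (by omega) (by omega))
      exact e ▸ (dm _ h).2.1 (e.symm ▸ (gN j (by omega) (by omega)).1)
  obtain ⟨a, a1, a2, ha⟩ := (ln.left 0 (by omega) 0 (Nat.zero_le _)).2 rfl
  have w0 : Sum.inl (y 0 0).1 = z.γ a := by rw [ha]; exact inl_node (gN a (by omega) (by omega))
  by_contra hc
  have hex : ∃ i, i ≤ n 0 ∧ Sum.inl (y 0 i).1 ∉ Z \ r.s.Lv z.x (z.rr + 1) := by
    push Not at hc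
    exact hc
  classical
  obtain ⟨i0, ⟨i1, i2⟩, hmin⟩ : ∃ i0, (i0 ≤ n 0 ∧ Sum.inl (y 0 i0).1 ∉ Z \ r.s.Lv z.x (z.rr + 1)) ∧
      ∀ i < i0, Sum.inl (y 0 i).1 ∈ Z \ r.s.Lv z.x (z.rr + 1) :=
    ⟨Nat.find hex, Nat.find_spec hex, fun i hi => by
      by_contra c
      exact Nat.find_min hex hi ⟨hi.le.trans (Nat.find_spec hex).1, c⟩⟩
  have yD : ∀ i ≤ i0, y 0 i ∈ r.Dm z Z := fun i hi => ln.mem 0 (by omega) i (by omega)
  have i3 : i0 ≠ 0 := by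
    rintro rfl
    refine i2 ⟨w0 ▸ gZ a 0 a1 a2 (ha ▸ yD 0 le_rfl), fun c => ?_⟩
    have := ((g1 a (by omega)).1 _).1 (w0 ▸ c)
    omega
  have edge : ∀ i < i0, ∃ f g, f ∈ r.s.M.S ∧ g ∈ r.s.M.S ∧ r.s.vx f = r.s.vx g ∧
      r.s.vx f ∈ r.s.Ce \ z.Fi ∧ y 0 i = z.cp (r.s.M.a f) ∧ y 0 (i + 1) = z.cp (r.s.M.a g) := by
    intro i hi
    rcases (ln.adj 0 (by omega) i (by omega)).2 with ⟨f, hf, g, hg, e⟩ | ⟨b, hb, -, -, e, -⟩
    · exact ⟨f, g, hf, hg, e⟩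
    · exact ((hmin i hi).2 (g10 b hb _ ⟨e, (yD i hi.le).1⟩ (ZN (hmin i hi).1).1)).elim
  have : Nonempty r.s.Φ := ⟨z.p 0⟩
  choose! f g fS gS fg fC yf yg using edge
  have wf : ∀ i < i0, r.s.vx (r.s.M.a (f i)) = Sum.inl (y 0 i).1 := fun i hi => by
    rw [yf i hi]; exact (inl_node (node_a ok (fS i hi) (fC i hi).1)).symm
  have wg : ∀ i < i0, r.s.vx (r.s.M.a (g i)) = Sum.inl (y 0 (i + 1)).1 := fun i hi => by
    rw [yg i hi]; exact (inl_node (node_a ok (gS i hi) (fg i hi ▸ (fC i hi).1))).symm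
  have wZ : ∀ i ≤ i0, Sum.inl (y 0 i).1 ∈ Z := fun i hi => by
    rcases hi.lt_or_eq with h | rfl
    · exact (hmin i h).1
    · obtain ⟨j, rfl⟩ : ∃ j, i = j + 1 := ⟨i - 1, by omega⟩
      exact (dm _ (yD _ le_rfl)).2.1 ⟨_, (hM.ia _ (gS j (by omega))).1, wg j (by omega)⟩
  have low : Sum.inl (y 0 i0).1 ∈ r.s.Lv z.x (z.rr + 1) := by
    by_contra c
    exact i2 ⟨wZ i0 le_rfl, c⟩
  obtain ⟨C, hC, -, cC, f0, f0S, f0x, obr, cvr⟩ := l3 z.rr _ low (xN _ (ZN (wZ i0 le_rfl)))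
  obtain ⟨cva, sa, oba⟩ := g6 0 a (Nat.zero_le _) (by omega)
  obtain ⟨oc, cvl⟩ := lane hM (vx := r.s.vx) (fun i => Sum.inl (y 0 i).1) f g
    {φ | ∃ i < i0, φ = r.s.M.a (f i) ∨ φ = g i} i0 fun i hi =>
      ⟨fS i hi, gS i hi, fg i hi, wf i hi, wg i hi, ⟨i, hi, Or.inl rfl⟩, ⟨i, hi, Or.inr rfl⟩⟩
  obtain ⟨c1, c2, c3, c4, -, c6⟩ := curS _ _ r.s.M r.s.vx hM hL
  have cv : r.s.M.Cv r.s.vx univ univ z.x z.x (z.ob 0 a + obr) oc := by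
    have k1 := c1 _ _ univ univ _ _ _ _ subset_rfl (subset_univ _) cva
    have k2 := c1 _ _ univ univ _ _ _ _ (subset_univ _) (subset_univ _) cvl
    have k3 := c1 _ _ univ univ _ _ _ _ (subset_univ _) (subset_univ _) (c3 _ _ _ _ _ _ cvr)
    rw [geo.g0, ← w0] at k1
    simpa only [add_zero, zero_add] using c2 _ _ _ _ _ _ _ _ _ (c2 _ _ _ _ _ _ _ _ _ k1 k2) k3
  have sr : ∀ φ ∈ r.s.M.S, obr φ ≠ 0 → (r.s.vx φ ∈ C ∨ φ = f0 ∨ φ = r.s.M.b f0) ∧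
      (φ ∈ r.s.lo z.x z.rr ∨ r.s.M.b φ ∈ r.s.lo z.x z.rr) := fun φ hφ h => by
    rcases (c4 _ _ _ _ _ _ cvr φ hφ).2.2.2.1 h with ⟨u | u, v⟩ | ⟨u | u, v⟩
    · exact ⟨Or.inl u.2, Or.inl v⟩
    · exact ⟨Or.inr (Or.inl u), Or.inl v⟩
    · exact ⟨Or.inl (Gph.vx_b hM hL hφ ▸ u.2), Or.inr v⟩
    · exact ⟨Or.inr (Or.inr (by rw [← show r.s.M.b φ = f0 from u, (hM.ib φ hφ).2.1])), Or.inr v⟩
  have sr' : ∀ φ ∈ r.s.M.S, r.s.vx φ ∉ C → r.s.vx φ ≠ z.x → obr φ = 0 := fun φ hφ h h' => by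
    by_contra c
    rcases (sr φ hφ c).1 with u | rfl | rfl
    exacts [h u, h' f0x, h' ((Gph.vx_b hM hL f0S).trans f0x)]
  have sc : ∀ φ ∈ r.s.M.S, oc φ ≠ 0 →
      (∃ i < i0, r.s.vx φ = r.s.vx (f i) ∧ ∃ j ≤ i0, z.cp (r.s.M.a φ) = y 0 j) ∨
        (r.s.vx φ ∈ Z ∧ ∃ j ≤ i0, z.cp φ = y 0 j) := fun φ hφ h => by
    obtain ⟨i, hi, u, uS, uv, j, hj, uy, uZ, hu⟩ : ∃ i < i0, ∃ u ∈ r.s.M.S,
        r.s.vx u = r.s.vx (f i) ∧ ∃ j ≤ i0, z.cp (r.s.M.a u) = y 0 j ∧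
          r.s.vx (r.s.M.a u) ∈ Z ∧ φ ∈ r.s.M.eo u := by
      obtain ⟨_, ⟨⟨i, hi, rfl | rfl⟩, -⟩, e⟩ := (c4 _ _ _ _ _ _ cvl φ hφ).2.2.2.2 h
      · exact ⟨i, hi, f i, fS i hi, rfl, i, hi.le, (yf i hi).symm, wf i hi ▸ wZ i hi.le,
          orb_trans (orb_p (orb_self ..)) e⟩
      · exact ⟨i, hi, g i, gS i hi, (fg i hi).symm, i + 1, hi, (yg i hi).symm,
          wg i hi ▸ wZ (i + 1) hi, e⟩
    have aS := (hM.ia u uS).1
    rcases eo_cases hM uS hu with rfl | rfl | rfl | rfl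
    · exact Or.inl ⟨i, hi, uv, j, hj, uy⟩
    · exact Or.inl ⟨i, hi, (Gph.vx_c hM hL uS).trans uv, j, hj, by
        rw [(hM.ac u uS).1, cpc _ aS, uy]⟩
    · exact Or.inr ⟨uZ, j, hj, uy⟩
    · exact Or.inr ⟨(Gph.vx_c hM hL aS).symm ▸ uZ, j, hj, (cpc _ aS).trans uy⟩
  have scN : ∀ φ ∈ r.s.M.S, r.s.vx φ ∉ r.s.Ce → (∀ j ≤ i0, z.cp φ ≠ y 0 j) ∨ r.s.vx φ ∉ Z →
      oc φ = 0 := fun φ hφ h h' => by
    by_contra c
    rcases sc φ hφ c with ⟨i, hi, u, -⟩ | ⟨u, j, hj, v⟩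
    · exact h (u ▸ (fC i hi).1)
    · exact h'.elim (fun w => w j hj v) fun w => w u
  have obz : ∀ φ ∈ r.s.M.S, (∀ i ≤ a, r.s.vx φ ≠ z.γ i) → z.ob 0 a φ = 0 := fun φ hφ h => by
    by_contra c
    obtain ⟨i, -, hi, e⟩ := sa φ hφ c
    exact h i hi e
  obtain ⟨χ, pa, pb, pc, -⟩ := c6 (r.s.M.ind r.s.vx U0) univ univ z.x _ oc (FM.es_ind hM hL U0)
    (FM.con_ind hM hL cx.zx.conn) cx.zx.full.1 cv fun φ hφ => by
      have h0 := FM.vx_sat hM hL hφ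
      have hS : φ ∈ r.s.M.S := let ⟨_, hg, k⟩ := hφ; vo_mem hM hg.1 k
      have h1 := (m2 (m1 h0)).2
      have h2 : ∀ i ≤ a, r.s.vx φ ≠ z.γ i := fun i hi e =>
        h1 (e ▸ ((g1 i (by omega)).1 _).2 (by omega))
      refine ⟨by rw [Pi.add_apply, obz φ hS h2, sr' φ hS
        (fun c => h1 ((l1 _ _ (by omega)).1 (hC c).1)) (geo.g0 ▸ h2 0 (Nat.zero_le _)),
        add_zero], ?_⟩
      by_contra c
      rcases sc φ hS c with ⟨i, hi, u, -⟩ | ⟨u, -⟩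
      · exact (m8 _ ⟨⟨_, fS i hi, rfl⟩, ce_h (fC i hi).1⟩ _ (ad.sub (wf i hi ▸ wZ i hi.le))
          (adj_a ok (fS i hi))).2 (u ▸ h0)
      · exact (ad.sub u).2 (m1 h0)
  have p0 := pS 0 (Nat.zero_le _)
  have p0x : r.s.vx (z.p 0) = z.x := (pv 0 (Nat.zero_le _)).trans geo.g0
  have two : r.s.M.Two (z.p 0) χ := by
    refine ⟨fun φ hφ => ?_, (ncard_le_ncard ?_ (toFinite _)).trans
      (card4 (z.p 0) (r.s.M.b (z.p 0)) f0 (r.s.M.b f0))⟩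
    · have hS := vo_mem hM p0 hφ
      have e := (vo_vx hM hL p0 hφ).trans p0x
      rw [pc φ hS, scN φ hS (fun c => ce_h c (e ▸ cx.hole.1)) (Or.inr fun c => xN _ (ZN c) e),
        add_zero]
    · rintro φ ⟨hφ, h⟩
      have hS := vo_mem hM p0 hφ
      have e := (vo_vx hM hL p0 hφ).trans p0x
      by_contra c
      simp only [mem_insert_iff, mem_singleton_iff, not_or] at c
      refine h ?_
      have e1 : obr φ = 0 := by
        by_contra c'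
        rcases (sr φ hS c').1 with u | u | u
        exacts [xN _ (hC u).2 e, c.2.2.1 u, c.2.2.2 u]
      rw [pb φ hS, Pi.add_apply, e1, (oba 0 (Nat.zero_le _)).1 φ hφ,
        if_pos ⟨le_rfl, by omega⟩, if_neg (by omega), one_zero c.1 c.2.1]
      simp
  obtain ⟨U, hU, hD⟩ := cx.co.dep (z.p 0) ⟨p0, p0x ▸ cx.hole.1⟩ χ two
  rw [p0x] at hU
  have inL : ∀ j c, z.rr + 2 ≤ j → j ≤ z.m → ∀ i ≤ i0, (nodeOf (z.γ j), c) = y 0 i →
      j = a ∧ c = 0 := fun j c h1 h2 i hi e => by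
    have e' : Sum.inl (y 0 i).1 = z.γ j := by
      rw [← e]; exact inl_node (gN j (by omega) (by omega))
    rcases (dm _ (yD i hi)).2.2.2.1 ⟨j, h1, h2, e'⟩ with u | u
    · obtain rfl := (ln.left 0 (by omega) i (by omega)).1 u
      exact ⟨ginj j (by omega) a (by omega) (e'.symm.trans w0), congrArg Prod.snd (e.trans ha)⟩
    · have := (ln.right 0 (by omega) i (by omega)).1 u
      obtain rfl : i = i0 := by omega
      have := ((g1 j (by omega)).1 _).1 (e' ▸ low)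
      omega
  have obv : ∀ j, z.rr + 2 ≤ j → j ≤ z.m → ∀ φ ∈ r.s.M.vo (z.p j), χ (r.s.M.b φ) = χ φ +
      ((if j < a then one r.s.M.b (z.p j) φ else 0) +
        if j ≤ a then one r.s.M.b (z.q j) φ else 0) := fun j h1 h2 φ hφ => by
    have hS := vo_mem hM (pS j h2) hφ
    have e := (vo_vx hM hL (pS j h2) hφ).trans (pv j h2)
    rw [pb φ hS, Pi.add_apply, sr' φ hS (fun c => ?_) (e ▸ xN _ (gN j (by omega) (by omega))),
      add_zero, (oba j h2).1 φ hφ]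
    · simp only [Nat.zero_le, true_and, show 0 < j by omega]
    · have := ((g1 j (by omega)).1 _).1 (e ▸ (hC c).1)
      omega
  have harc : ∀ j c, z.rr + 2 ≤ j → j ≤ z.m → ¬ (j = a ∧ c = 0) → ∀ φ ∈ r.s.M.vo (z.p j),
      ∀ φ' ∈ r.s.M.vo (z.p j), z.lam φ = c → z.lam φ' = c → χ φ = χ φ' := by
    intro j c h1 h2 h3
    obtain ⟨s1, s2, s3, s4⟩ := geo.side j h1 h2
    obtain ⟨q1, q2, q3⟩ := g4 j (by omega) h2
    have qS := vo_mem hM (pS j h2) q1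
    have e : r.s.M.vo (z.p j) = orb r.s.M.c r.s.M.b (z.p j) := orb_comm _ _ _
    have := ((cycS _ r.s.M.S r.s.M.c r.s.M.b (z.p j) hM.fin hM.ic hM.ib (pS j h2)).2.2 (z.q j)
      (e ▸ q1) (z.p j) (orb_self ..) q2.symm (fun u => q3 (by rw [u, (hM.ib _ qS).2.1])) z.lam
      (e ▸ s1) (e ▸ s2) c).1 _ χ
    rw [← e] at this
    refine this (fun φ hφ u => ?_) fun φ hφ u v => ?_
    · have hS := vo_mem hM (pS j h2) hφ
      have e := (vo_vx hM hL (pS j h2) hφ).trans (pv j h2)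
      rw [pc φ hS, scN φ hS (fun c => ce_nd c (e ▸ gN j (by omega) (by omega)))
        (Or.inl fun i hi w => h3 (inL j c h1 h2 i hi (by rw [← w, Zg.cp, e, u]))), add_zero]
    · have w := s2 φ hφ
      rw [u, v, Pi.add_apply, left_eq_add] at w
      rw [obv j h1 h2 φ hφ]
      rcases lt_trichotomy j a with o | o | o
      · rw [if_pos o, if_pos o.le, add_comm (one _ _ _), w, add_zero]
      · have c1 : c ≠ 0 := fun o' => h3 ⟨o, o'⟩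
        rw [if_neg (by omega), if_pos o.le, one_zero (fun o' => c1 (by rw [← u, o', s4]))
          fun o' => c1 (by rw [← v, o', (hM.ib _ qS).2.1, s4])]
        simp
      · rw [if_neg (by omega), if_neg (by omega)]
        simp
  have CF : C.Finite := (hM.fin.image _).subset fun v hv => (hC hv).2.1
  obtain ⟨Sm, hSm⟩ : ∃ Sm : Set (W × ZMod 2),
      Sm = (fun v => (nodeOf v, 0)) '' (C ∪ z.γ '' Icc 1 (z.rr + 1)) := ⟨_, rfl⟩
  obtain ⟨ψ, ψ1, ψ2⟩ := hcol σ r k q D l U0 z Z χ U ({u | ∃ j ≤ i0, u = y 0 j} ∪ Sm) cx ZN ad.low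
    hU pa
    (by
      intro φ hφ φ' hφ' hZ e e' hn
      by_cases c : r.s.vx φ ∈ z.Γ z.m
      · obtain ⟨j, h1, h2, ej⟩ := c
        refine harc j (z.lam φ) h1 h2 (fun u => hn (Or.inl ⟨0, Nat.zero_le _, ?_⟩)) φ
          ((hL _ (pS j h2) φ hφ).1 ((pv j h2).trans ej.symm)) φ'
          ((hL _ (pS j h2) φ' hφ').1 ((pv j h2).trans (e.trans ej).symm)) rfl e'
        rw [Zg.cp, ej, u.1, u.2, ha]
      have cp0 : ∀ x, r.s.vx x = r.s.vx φ → z.cp x = (nodeOf (r.s.vx φ), 0) := fun x ex => by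
        rw [Zg.cp, ex, geo.lam0 x (ex ▸ c)]
      refine vo_const hM hL pb pc hφ hφ' e fun x hx ex => ⟨?_, scN x hx
        (fun u => ce_nd u (ex ▸ ZN hZ)) (Or.inl fun j hj u => hn (Or.inl ⟨j, hj, ?_⟩))⟩
      · rw [Pi.add_apply, obz x hx fun i hi u => ?_, sr' x hx (fun u => hn (Or.inr ?_))
          (ex ▸ xN _ (ZN hZ)), add_zero]
        · exact hSm ▸ ⟨_, Or.inl (ex ▸ u), (cp0 φ rfl).symm⟩
        · rw [ex] at u
          have i0' : i ≠ 0 := fun o => xN _ (ZN hZ) (by rw [u, o, geo.g0])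
          by_cases o : i ≤ z.rr + 1
          · exact hn (Or.inr (hSm ▸ ⟨_, Or.inr ⟨i, ⟨by omega, o⟩, u.symm⟩, (cp0 φ rfl).symm⟩))
          · exact c ⟨i, by omega, by omega, u⟩
      · rw [cp0 φ rfl, ← cp0 x ex, u])
    (by
      intro φ hφ φ' hφ' e hce _ _ n1 n2
      have ob0 : ∀ x ∈ r.s.M.S, r.s.vx x = r.s.vx φ → (z.ob 0 a + obr) x = 0 := fun x hx ex => by
        rw [Pi.add_apply, obz x hx fun i hi u => ?_, sr' x hx (fun u => ce_nd hce.1 (ex ▸ (hC u).2))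
          (fun u => ce_h hce.1 (ex ▸ u ▸ cx.hole.1)), add_zero]
        rcases Nat.eq_zero_or_pos i with rfl | o
        · exact ce_h hce.1 (ex ▸ u ▸ geo.g0 ▸ cx.hole.1)
        · exact ce_nd hce.1 (ex ▸ u ▸ gN i o (by omega))
      by_cases c : ∃ i < i0, r.s.vx φ = r.s.vx (f i)
      · obtain ⟨i, hi, ei⟩ := c
        have h3 := (hbas.2 r.s ok).2.2.2.2.2.2.1 _ ⟨⟨⟨φ, hφ, rfl⟩, ce_h hce.1⟩, ce_nd hce.1⟩
        rcases third ok (fun x => z.cp (r.s.M.a x))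
          (fun x hx => by rw [(hM.ac x hx).1, cpc _ (hM.ia x hx).1]) (fS i hi) (gS i hi) hφ hφ'
          hce.1 ⟨h3.1, h3.2.1⟩ ei.symm (ei.trans (fg i hi)).symm e.symm
          (fun u => (ln.adj 0 (by omega) i (by omega)).1 ((yf i hi).trans (u.trans (yg i hi).symm)))
          (fun u => n1 (Or.inl ⟨i, hi.le, u.trans (yf i hi).symm⟩))
          (fun u => n1 (Or.inl ⟨i + 1, hi, u.trans (yg i hi).symm⟩))
          (fun u => n2 (Or.inl ⟨i, hi.le, u.trans (yf i hi).symm⟩))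
          (fun u => n2 (Or.inl ⟨i + 1, hi, u.trans (yg i hi).symm⟩)) with rfl | rfl
        · rfl
        · have : oc φ = 0 := by
            by_contra u
            rcases sc φ hφ u with ⟨-, -, -, v⟩ | ⟨v, -⟩
            exacts [n1 (Or.inl v), ce_nd hce.1 (ZN v)]
          rw [pc φ hφ, this, add_zero]
      refine vo_const hM hL pb pc hφ hφ' e.symm fun x hx ex => ⟨ob0 x hx ex, ?_⟩
      by_contra u
      rcases sc x hx u with ⟨i, hi, v, -⟩ | ⟨v, -⟩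
      exacts [c ⟨i, hi, ex ▸ v⟩, ce_nd hce.1 (ex ▸ ZN v)])
    (by
      intro φ hφ φ' hφ' e hF
      refine vo_const hM hL pb pc hφ hφ' e.symm fun x hx ex => ⟨?_, ?_⟩
      · rw [Pi.add_apply, obz x hx fun i hi u => ?_, sr' x hx (fun u => ce_nd hF.1 (ex ▸ (hC u).2))
          (fun u => ce_h hF.1 (ex ▸ u ▸ cx.hole.1)), add_zero]
        rcases Nat.eq_zero_or_pos i with rfl | o
        · exact ce_h hF.1 (ex ▸ u ▸ geo.g0 ▸ cx.hole.1)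
        · exact ce_nd hF.1 (ex ▸ u ▸ gN i o (by omega))
      · by_contra u
        rcases sc x hx u with ⟨i, hi, v, -⟩ | ⟨v, -⟩
        exacts [(fC i hi).2 (v ▸ ex ▸ hF), ce_nd hF.1 (ex ▸ ZN v)])
  have obf : ∀ j, z.rr < j → j ≤ z.m → ∀ φ ∈ r.s.M.fo (z.p j), χ (r.s.M.b φ) = χ φ +
      if j < a then one r.s.M.b (z.p j) φ + one r.s.M.b (z.q (j + 1)) φ else 0 :=
    fun j h1 h2 φ hφ => by
      have hS := fo_mem hM (pS j h2) hφ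
      have e : obr φ = 0 := by
        by_contra c
        rcases (sr φ hS c).2 with u | u
        · exact disjoint_left.1 (g3 j h2 _ h1) hφ u
        · exact disjoint_left.1 (g3 j h2 _ h1) (orb_q hφ) u
      rw [pb φ hS, Pi.add_apply, e, add_zero, (oba j h2).2 φ hφ]
      simp only [Nat.zero_le, true_and]
  have face : ∀ j, z.rr < j → j ≤ z.m → χ (z.p j) = χ (z.q (j + 1)) := fun j h1 h2 => by
    by_cases c : j < a
    · exact geo.face j h2 χ (pa.mono fun φ hφ => fo_mem hM (pS j h2) hφ) fun φ hφ => by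
        rw [obf j h1 h2 φ hφ, if_pos c]; rfl
    · refine (orb_const χ (fun φ hφ => ⟨?_, ?_⟩) (geo.pm j h2).2.2.1).symm
      · rw [pa φ (fo_mem hM (pS j h2) hφ)]; simp
      · rw [obf j h1 h2 φ hφ, if_neg c, add_zero]
  have pq : ∀ j, z.rr + 2 ≤ j → j ≤ z.m → j ≠ a → χ (z.p j) = χ (z.q j) := fun j h1 h2 h3 =>
    harc j 0 h1 h2 (fun u => h3 u.1) _ (orb_self ..) _ (g4 j (by omega) h2).1
      (geo.side j h1 h2).2.2.1 (geo.side j h1 h2).2.2.2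
  have oq : ∀ j, 1 ≤ j → j ≤ z.m → one r.s.M.b (z.q j) (z.p j) = 0 := fun j h1 h2 => by
    obtain ⟨q1, q2, q3⟩ := g4 j h1 h2
    exact one_zero q2.symm fun u => q3 (by rw [u, (hM.ib _ (vo_mem hM (pS j h2) q1)).2.1])
  have lb : ∀ j, z.rr + 2 ≤ j → j ≤ z.m → z.lam (r.s.M.b (z.p j)) = 1 := fun j h1 h2 => by
    obtain ⟨-, s2, s3, -⟩ := geo.side j h1 h2
    rw [s2 _ (orb_self ..), s3, Pi.add_apply, oq j (by omega) h2, one_self]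
    simp
  have dn : ∀ j, z.rr + 2 ≤ j → j ≤ a → χ (z.q j) = χ (z.q (z.rr + 2)) := fun j h1 h2 => by
    induction j, h1 using Nat.le_induction with
    | base => rfl
    | succ j h1 ih => rw [← face j (by omega) (by omega), pq j h1 (by omega) (by omega), ih (by omega)]
  have bp : ∀ j, z.rr + 2 ≤ j → a ≤ j → j ≤ z.m → χ (r.s.M.b (z.p j)) = χ (z.p j) :=
    fun j h1 h2 h3 => by
      rw [obv j h1 h3 _ (orb_self ..), if_neg (by omega), oq j (by omega) h3]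
      simp
  have up : ∀ j, a ≤ j → j ≤ z.m → χ (z.p j) = χ (z.q (z.rr + 2)) + 1 := fun j h1 h2 => by
    induction j, h1 using Nat.le_induction with
    | base =>
      obtain ⟨-, s2, -, s4⟩ := geo.side a a1 a2
      obtain ⟨q1, q2, q3⟩ := g4 a (by omega) a2
      have u : z.lam (r.s.M.b (z.q a)) = 1 := by
        rw [s2 _ q1, s4, Pi.add_apply, one_zero q2 q3, one_self]
        simp
      rw [← bp a a1 le_rfl a2, harc a 1 a1 a2 (fun u => one_ne_zero u.2) _ (orb_p (orb_self ..)) _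
        (orb_p q1) (lb a a1 a2) u, obv a a1 a2 _ q1, if_neg (lt_irrefl _), if_pos le_rfl, one_self,
        dn a a1 le_rfl, zero_add]
    | succ j h1 ih =>
      rw [pq (j + 1) (by omega) h2 (by omega), ← face j (by omega) (by omega), ih (by omega)]
  have rt : ∀ j, z.rr + 2 ≤ j → j ≤ z.m → χ (r.s.M.b (z.p j)) = χ (z.q (z.rr + 2)) + 1 :=
    fun j h1 h2 => by
      by_cases c : j < a
      · rw [obv j h1 h2 _ (orb_self ..), if_pos c, oq j (by omega) h2, one_self,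
          pq j h1 h2 c.ne, dn j h1 c.le]
        simp
      · rw [bp j h1 (by omega) h2, up j (by omega) h2]
  have dF := dcut_fin r hM p0 χ U
  have cnt := count (X := Sm ∪ r.dcut (z.p 0) χ U ×ˢ univ) ln
    ((hSm ▸ (CF.union ((finite_Icc _ _).image _)).image _).union (dF.prod finite_univ)) (by
      intro j j0 j1
      by_contra c
      push Not at c
      have nC : ∀ i ≤ n j, y j i ∈ r.Dm z Z \ ({u | ∃ j ≤ i0, u = y 0 j} ∪ Sm) := fun i hi =>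
        ⟨ln.mem j j1 i hi, by
          rintro (⟨i', h', u⟩ | u)
          · have := (ln.inj j j1 0 (by omega) i hi i' (by omega) u).1
            omega
          · exact c i hi (Or.inl u)⟩
      have cst : ∀ i ≤ n j, ψ (y j i) = ψ (y j 0) := fun i hi => by
        induction i with
        | zero => rfl
        | succ i ih =>
          rw [← ih (by omega)]
          exact (ψ2 _ (nC i (by omega)) _ (nC _ hi) (fun u => c i (by omega) (Or.inr ⟨u, trivial⟩))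
            (fun u => c _ hi (Or.inr ⟨u, trivial⟩)) (ln.adj j j1 i (by omega))).symm
      obtain ⟨b, b1, b2, hb⟩ := (ln.left j j1 0 (Nat.zero_le _)).2 rfl
      obtain ⟨d, d1, d2, hd⟩ := (ln.right j j1 _ le_rfl).2 rfl
      have ba : b < a := by
        have u := top j j1
        rw [w0, hb, inl_node (gN b (by omega) (by omega)), (g1 b (by omega)).2,
          (g1 a (by omega)).2] at u
        refine lt_of_le_of_ne u fun v => ?_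
        have := (ln.inj j j1 0 (by omega) 0 (Nat.zero_le _) 0 (Nat.zero_le _)
          (by rw [hb, ha, v])).1
        omega
      have e1 : z.cp (z.p b) = y j 0 := by
        rw [Zg.cp, pv b b2, (geo.side b b1 b2).2.2.1, hb]
      have e2 : z.cp (r.s.M.b (z.p d)) = y j (n j) := by
        rw [Zg.cp, Gph.vx_b hM hL (pS d d2), pv d d2, lb d d1 d2, hd]
      have u1 := ψ1 _ (pS b b2) (pv b b2 ▸ gZ b 0 b1 b2 (hb ▸ (nC 0 (Nat.zero_le _)).1))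
        (e1 ▸ (nC 0 (Nat.zero_le _)).2)
      have u2 := ψ1 _ (hM.ib _ (pS d d2)).1 (by
        rw [Gph.vx_b hM hL (pS d d2), pv d d2]
        exact gZ d 1 d1 d2 (hd ▸ (nC _ le_rfl).1)) (e2 ▸ (nC _ le_rfl).2)
      rw [e1, pq b b1 b2 ba.ne, dn b b1 ba.le] at u1
      rw [e2, cst _ le_rfl, u1, rt d d1 d2, left_eq_add] at u2
      exact one_ne_zero u2)
  have k1 := ncard_union_le Sm (r.dcut (z.p 0) χ U ×ˢ (univ : Set (ZMod 2)))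
  have k2 : Sm.ncard ≤ C.ncard + (z.rr + 1) := by
    rw [hSm]
    refine (ncard_image_le (CF.union ((finite_Icc _ _).image _))).trans
      ((ncard_union_le _ _).trans (Nat.add_le_add_left ?_ _))
    refine (ncard_image_le (finite_Icc _ _)).trans ?_
    rw [ncard_Icc_nat]
    omega
  rw [ncard_prod, ncard_univ, Nat.card_zmod] at k1
  omega

end HB

end Pool.Agent.MP_9d78a0_co.gm

end MrgPart1

-- ======== part 2: formerly Pool.Agent.MP_9d78a0_co.gm.HSurgA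
section MrgPart2

/-! Block H: the new map, first part: kept edges and contracted paths. -/

set_option autoImplicit false

namespace Pool.Agent.MP_9d78a0_co.gm

open Set Function FM Tg2

namespace HSurg

variable (s : Sk) (U0 : Set MV) (zd : MV → Zd s)

/-- the kept cells -/
def KC : Set MV := {y | y ∈ s.Ce ∧ ∀ x ∈ s.H ∩ s.Vt, y ∈ s.Kx (zd x).Z}

/-- `v` is an inner vertex of a piece of a path that becomes a rim -/
def In (x : MV) (k : ℕ) (v : MV) : Prop :=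
  x ∈ s.H ∩ s.Vt ∧ k + 1 < (zd x).N ∧ (zd x).lk k ∉ s.Kx (zd x).Z ∧
    ∃ i, 2 * (zd x).ix k < i ∧ i < 2 * (zd x).ix (k + 1) ∧ v = s.vx ((zd x).ed i)

def Dv : Set MV := {v | ∃ x k, In s zd x k v}

def E0 : Set s.Φ := {f | f ∈ s.M.S ∧ (s.vx f ∈ KC s zd ∨ s.vx (s.M.a f) ∈ KC s zd)} ∪
  {f | ∃ x ∈ s.H ∩ s.Vt, ∃ i, 2 * (zd x).ix 0 ≤ i ∧ i < 2 * (zd x).ix ((zd x).N - 1) ∧
    f ∈ s.M.eo ((zd x).ed i)}

def Ks : Set MV := {v | ∃ u ∈ U0, s.M.EL s.vx (E0 s zd) univ u v}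

def E1 : Set s.Φ := {f | f ∈ E0 s zd ∧ s.vx f ∈ Ks s U0 zd}

def Cc : Set s.Φ := {f | f ∈ E1 s U0 zd ∧ s.vx f ∈ Dv s zd ∧ s.vx (s.M.a f) ∈ Dv s zd}

def Uu : Set s.Φ := E1 s U0 zd \ Cc s U0 zd

open Classical in
/-- the new labels -/
noncomputable def lb (v : MV) : MV :=
  if h : ∃ p : MV × ℕ, In s zd p.1 p.2 v then (zd h.choose.1).lk h.choose.2 else v

/-- the standing assumptions -/
structure Cx (R m0 : ℕ) : Prop where
  zx : s.Zx U0 R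
  zo : ∀ x ∈ s.H ∩ s.Vt, (zd x).Zo U0 x m0
  uT : U0 ⊆ s.T
  ar : ∀ x ∈ s.H ∩ s.Vt, ∀ f ∈ s.M.S, s.vx f ∈ s.Ar U0 x → f ∈ s.ar U0 x
  dis : ∀ x ∈ s.H ∩ s.Vt, ∀ x' ∈ s.H ∩ s.Vt, x' ≠ x → Disjoint (s.ar U0 x) (s.ar U0 x') ∧
    Disjoint (s.Ar U0 x) (s.Ar U0 x')

variable {s U0 zd} {R m0 : ℕ} {x x' v y : MV} {i j k k' : ℕ} {f g : s.Φ}

theorem ce_nd (hy : y ∈ s.Ce) : y ∉ s.Nd := HBas.inr_nd hy.1.2

theorem z2 {a : ZMod 2} (h : a ≠ 0) : a = 1 := by revert a; decide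

namespace Cx

variable (h : Cx s U0 zd R m0)
include h

theorem ok : s.M.Ok := h.zx.ok0.hm.ok
theorem lbl : s.M.Lbl s.vx := h.zx.ok0.hm.lbl

theorem adj (hf : f ∈ s.M.S) : s.G.Adj (s.vx f) (s.vx (s.M.a f)) :=
  ⟨(h.zx.ok0.hm.simple f hf).1, f, hf, Or.inl ⟨rfl, rfl⟩⟩

theorem zN (hx : x ∈ s.H ∩ s.Vt) (hv : v ∈ (zd x).Z) : v ∈ s.Nd := ((h.zo x hx).sub hv).1

theorem zU (hx : x ∈ s.H ∩ s.Vt) (hx' : x' ∈ s.H ∩ s.Vt) (hv : v ∈ (zd x).Z)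
    (hv' : v ∈ (zd x').Z) : x' = x := by
  by_contra n
  exact disjoint_left.1 (h.dis x hx x' hx' n).2 ((h.zo x hx).sub hv).2 ((h.zo x' hx').sub hv').2

theorem kc (hx : x ∈ s.H ∩ s.Vt) (hy : y ∈ s.Kx (zd x).Z) (hv : v ∈ (zd x).Z)
    (a : s.G.Adj y v) : y ∈ KC s zd := by
  refine ⟨hy.1, fun x' hx' => ?_⟩
  by_cases e : x' = x
  · exact e ▸ hy
  · exact ⟨hy.1, v, ⟨h.zN hx hv, fun m => e (h.zU hx hx' hv m)⟩, a⟩

theorem ixl (hx : x ∈ s.H ∩ s.Vt) (hk : k < (zd x).N) : (zd x).ix k < (zd x).n :=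
  ((h.zo x hx).ix.2 k hk).2

theorem ixm (hx : x ∈ s.H ∩ s.Vt) (hk : k ≤ k') (hk' : k' < (zd x).N) :
    (zd x).ix k ≤ (zd x).ix k' := by
  rcases hk.eq_or_lt with rfl | l
  exacts [le_rfl, ((h.zo x hx).ix.1 k k' l hk').le]

theorem top (hx : x ∈ s.H ∩ s.Vt) (h1 : 2 * (zd x).ix 0 ≤ i)
    (h2 : i < 2 * (zd x).ix ((zd x).N - 1)) : i + 1 < 2 * (zd x).n ∧ ∃ k, k + 1 < (zd x).N ∧
      2 * (zd x).ix k ≤ i ∧ i < 2 * (zd x).ix (k + 1) := by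
  have t : ∀ m, m < (zd x).N → i < 2 * (zd x).ix m → ∃ k, k + 1 < (zd x).N ∧
      2 * (zd x).ix k ≤ i ∧ i < 2 * (zd x).ix (k + 1) := fun m => by
    induction m with
    | zero => intro _ l; omega
    | succ m ih =>
      intro l1 l2
      by_cases c : i < 2 * (zd x).ix m
      exacts [ih (by omega) c, ⟨m, l1, by omega, l2⟩]
  have n0 : 0 < (zd x).N := by
    by_contra z
    rw [show (zd x).N - 1 = 0 by omega] at h2
    omega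
  have := h.ixl hx (k := (zd x).N - 1) (by omega)
  exact ⟨by omega, t _ (by omega) h2⟩

theorem edS (hx : x ∈ s.H ∩ s.Vt) (hi : i < 2 * (zd x).n) : (zd x).ed i ∈ s.M.S :=
  ((h.zo x hx).pw.mem i hi).1

theorem chi (hx : x ∈ s.H ∩ s.Vt) (hf : f ∈ s.M.S) : (zd x).χ (s.M.a f) = (zd x).χ f := by
  simpa using (h.zo x hx).pw.pa f hf

theorem esX (hx : x ∈ s.H ∩ s.Vt) : s.M.Es (s.Ux (zd x).χ) := by
  refine ⟨fun f hf => hf.1, fun f hf => ⟨⟨h.ok.a_mem hf.1, ?_⟩, h.ok.c_mem hf.1, ?_⟩⟩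
  · rw [← h.ok.comm hf.1, h.chi hx hf.1, h.chi hx (h.ok.c_mem hf.1)]; exact hf.2
  · rw [h.ok.cc hf.1]; exact hf.2.symm

theorem edX (hx : x ∈ s.H ∩ s.Vt) (hi : i < 2 * (zd x).n) : (zd x).ed i ∈ s.Ux (zd x).χ :=
  ⟨h.edS hx hi, Or.inr ((h.zo x hx).pw.mem i hi).2.2⟩

theorem stepR (hx : x ∈ s.H ∩ s.Vt) (hi : i + 1 < 2 * (zd x).n) :
    s.M.R ∅ (s.Ux (zd x).χ)ᶜ (s.M.a ((zd x).ed i)) ((zd x).ed (i + 1)) := by
  rw [← (h.zo x hx).pw.step i hi]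
  exact sub_b_R h.ok (h.esX hx) ((h.esX hx).2 _ (h.edX hx (by omega))).1

theorem vxR {P : Set s.Φ} (hf : f ∈ s.M.S) (k : s.M.R ∅ P f g) : s.vx g = s.vx f :=
  h.lbl.of_vo h.ok hf (mem_vo.2 (k.mono subset_rfl (subset_univ _)))

theorem nxt (hx : x ∈ s.H ∩ s.Vt) (hi : i + 1 < 2 * (zd x).n) :
    s.vx (s.M.a ((zd x).ed i)) = s.vx ((zd x).ed (i + 1)) :=
  (h.vxR (h.ok.a_mem (h.edS hx (by omega))) (h.stepR hx hi)).symm

theorem evn (hx : x ∈ s.H ∩ s.Vt) (hj : j < (zd x).n) : s.vx ((zd x).ed (2 * j)) ∈ (zd x).Z :=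
  ((h.zo x hx).pw.node j hj).1

theorem odd (hx : x ∈ s.H ∩ s.Vt) (hj : j < (zd x).n) : s.vx ((zd x).ed (2 * j + 1)) ∈ s.Ce :=
  ((h.zo x hx).pw.node j hj).2.1.1

theorem psE (hx : x ∈ s.H ∩ s.Vt) (hk : k < (zd x).N) : (zd x).ps k ∈ s.Ex (zd x).Z :=
  ((h.zo x hx).ex.superset ⟨k, hk, rfl⟩).1

theorem noE (hx : x ∈ s.H ∩ s.Vt) (hk : k + 1 < (zd x).N) (h1 : (zd x).ix k < j)
    (h2 : j < (zd x).ix (k + 1)) : s.vx ((zd x).ed (2 * j)) ∉ s.Ex (zd x).Z := fun m => by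
  have l := h.ixl hx hk
  obtain ⟨k', hk', e⟩ := (h.zo x hx).ex.subset ⟨m, (h.zo x hx).pw.ends j (by omega) (by omega)⟩
  have l' := h.ixl hx hk'
  have := (h.zo x hx).pw.inj _ (by omega) _ (by omega) e
  rcases le_or_gt k' k with c | c
  · have := h.ixm hx c (by omega); omega
  · have := h.ixm hx (k := k + 1) c hk'; omega

theorem adjE (hx : x ∈ s.H ∩ s.Vt) (hi : i + 1 < 2 * (zd x).n) :
    s.G.Adj (s.vx ((zd x).ed i)) (s.vx ((zd x).ed (i + 1))) :=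
  h.nxt hx hi ▸ h.adj (h.edS hx (by omega))

theorem inn (m : In s zd x k v) : (v ∈ (zd x).Z ∧ v ∉ s.Ex (zd x).Z) ∨
    (v ∈ s.Ce ∧ v ∉ s.Kx (zd x).Z) := by
  obtain ⟨hx, hk, n, i, h1, h2, rfl⟩ := m
  have l := h.ixl hx hk
  rcases Nat.even_or_odd' i with ⟨j, rfl | rfl⟩
  · exact Or.inl ⟨h.evn hx (by omega), h.noE hx hk (by omega) (by omega)⟩
  · refine Or.inr ⟨h.odd hx (by omega), fun m => ?_⟩
    by_cases e : j = (zd x).ix k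
    · subst e; exact n m
    · exact h.noE hx hk (j := j) (by omega) (by omega)
        ⟨h.evn hx (by omega), _, m, (h.adjE hx (by omega)).symm⟩

theorem sup (hx : x ∈ s.H ∩ s.Vt) (hk : k + 1 < (zd x).N) (m : (zd x).lk k ∈ s.Kx (zd x).Z) :
    (zd x).ix (k + 1) = (zd x).ix k + 1 ∧ (zd x).lk k ∈ KC s zd := by
  have l := h.ixl hx hk
  have l' := (h.zo x hx).ix.1 k (k + 1) (by omega) hk
  refine ⟨?_, h.kc hx m (h.evn hx (by omega)) (h.adjE hx (by omega)).symm⟩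
  by_contra n
  exact h.noE hx hk (j := (zd x).ix k + 1) (by omega) (by omega)
    ⟨h.evn hx (by omega), _, m, h.adjE hx (by omega)⟩

theorem own (hx : x ∈ s.H ∩ s.Vt) (hf : f ∈ s.M.S) (m : In s zd x' k (s.vx f))
    (z : s.vx f ∈ (zd x).Z ∨ s.vx (s.M.a f) ∈ (zd x).Z) : x' = x := by
  rcases h.inn m with a | a <;> rcases z with z | z
  · exact h.zU hx m.1 z a.1
  · exact absurd (h.zN hx z) ((h.zx.ok0.bip f hf).1 (h.zN m.1 a.1))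
  · exact absurd (h.zN hx z) (ce_nd a.1)
  · by_contra n
    exact a.2 ⟨a.1, _, ⟨h.zN hx z, fun q => n (h.zU hx m.1 z q)⟩, h.adj hf⟩

theorem edZ (hx : x ∈ s.H ∩ s.Vt) (hi : i + 1 < 2 * (zd x).n) (m : f ∈ s.M.eo ((zd x).ed i)) :
    s.vx f ∈ (zd x).Z ∨ s.vx (s.M.a f) ∈ (zd x).Z := by
  have : s.vx ((zd x).ed i) ∈ (zd x).Z ∨ s.vx (s.M.a ((zd x).ed i)) ∈ (zd x).Z := by
    rcases Nat.even_or_odd' i with ⟨j, rfl | rfl⟩
    exacts [Or.inl (h.evn hx (by omega)), Or.inr ((h.zo x hx).pw.node j (by omega)).2.2]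
  rcases RStop.ends h.ok h.lbl (h.edS hx (by omega)) m with e | e <;> rw [e.1, e.2]
  exacts [this, this.symm]

theorem idx (hx : x ∈ s.H ∩ s.Vt) (hi : i < 2 * (zd x).n) (m : In s zd x k (s.vx ((zd x).ed i))) :
    2 * (zd x).ix k < i ∧ i < 2 * (zd x).ix (k + 1) := by
  obtain ⟨-, hk, -, j, h1, h2, e⟩ := m
  have l := h.ixl hx hk
  have := (h.zo x hx).pw.inj _ hi _ (by omega) e
  omega

theorem near (hx : x ∈ s.H ∩ s.Vt) (hk : k + 1 < (zd x).N) (hk' : k' + 1 < (zd x).N)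
    (h1 : 2 * (zd x).ix k < i) (h2 : i < 2 * (zd x).ix (k + 1)) (h3 : 2 * (zd x).ix k' < j)
    (h4 : j < 2 * (zd x).ix (k' + 1)) (h5 : i ≤ j + 1) (h6 : j ≤ i + 1) : k = k' := by
  rcases lt_trichotomy k k' with c | c | c
  · have := h.ixm hx (k := k + 1) c (by omega); omega
  · exact c
  · have := h.ixm hx (k := k' + 1) c (by omega); omega

theorem inU (m : In s zd x k v) (m' : In s zd x' k' v) : x' = x ∧ k' = k := by
  obtain ⟨hx, hk, n, i, h1, h2, rfl⟩ := m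
  have l := h.ixl hx hk
  obtain rfl := h.own hx (h.edS hx (by omega)) m' (h.edZ hx (by omega) (Cy.orb_self ..))
  have := h.idx hx (by omega) m'
  exact ⟨rfl, h.near hx m'.2.1 hk this.1 this.2 h1 h2 (by omega) (by omega)⟩

theorem lb_in (m : In s zd x k v) : lb s zd v = (zd x).lk k := by
  have e : ∃ p : MV × ℕ, In s zd p.1 p.2 v := ⟨(x, k), m⟩
  obtain ⟨a, b⟩ := h.inU m e.choose_spec
  rw [lb, dif_pos e, b, a]

omit h in
theorem lb_out (m : v ∉ Dv s zd) : lb s zd v = v := dif_neg fun ⟨p, k⟩ => m ⟨p.1, p.2, k⟩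

theorem lkIn (hx : x ∈ s.H ∩ s.Vt) (hk : k + 1 < (zd x).N) (n : (zd x).lk k ∉ s.Kx (zd x).Z) :
    In s zd x k ((zd x).lk k) :=
  ⟨hx, hk, n, _, by omega, by have := (h.zo x hx).ix.1 k (k + 1) (by omega) hk; omega, rfl⟩

theorem kcD (m : v ∈ KC s zd) : v ∉ Dv s zd := fun ⟨x, _, k⟩ =>
  (h.inn k).elim (fun a => ce_nd m.1 (h.zN k.1 a.1)) fun a => a.2 (m.2 x k.1)

theorem exD (hx : x ∈ s.H ∩ s.Vt) (m : v ∈ s.Ex (zd x).Z) : v ∉ Dv s zd := by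
  rintro ⟨x', k, q⟩
  obtain ⟨f, hf, rfl⟩ := (h.zN hx m.1).1
  obtain rfl := h.own hx hf q (Or.inl m.1)
  exact (h.inn q).elim (fun a => a.2 m) fun a => ce_nd a.1 (h.zN hx m.1)

theorem e0S (m : f ∈ E0 s zd) : f ∈ s.M.S := by
  rcases m with m | ⟨x, hx, i, h1, h2, m⟩
  exacts [m.1, h.ok.eo_mem (h.edS hx (by have := (h.top hx h1 h2).1; omega)) m]

theorem es0 : s.M.Es (E0 s zd) := by
  refine ⟨fun f => h.e0S, fun f m => ?_⟩
  have hf := h.e0S m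
  rcases m with m | ⟨x, hx, i, h1, h2, m⟩
  · refine ⟨Or.inl ⟨h.ok.a_mem hf, ?_⟩, Or.inl ⟨h.ok.c_mem hf, ?_⟩⟩
    · rw [h.ok.aa hf]; exact m.2.symm
    · rw [h.lbl.c h.ok hf, h.lbl.ac h.ok hf]; exact m.2
  · exact ⟨Or.inr ⟨x, hx, i, h1, h2, Cy.orb_p m⟩, Or.inr ⟨x, hx, i, h1, h2, Cy.orb_q m⟩⟩

theorem es1 : s.M.Es (E1 s U0 zd) := by
  refine ⟨fun f m => h.e0S m.1, fun f m => ⟨⟨(h.es0.2 f m.1).1, ?_⟩, (h.es0.2 f m.1).2, ?_⟩⟩
  · obtain ⟨u, hu, k⟩ := m.2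
    exact ⟨u, hu, k.tail ⟨trivial, trivial, f, m.1, rfl, rfl⟩⟩
  · rw [h.lbl.c h.ok (h.e0S m.1)]; exact m.2

theorem esC : s.M.Es (Cc s U0 zd) := by
  refine ⟨fun f m => h.es1.1 m.1, fun f m => ?_⟩
  have hf := h.es1.1 m.1
  refine ⟨⟨(h.es1.2 f m.1).1, m.2.2, ?_⟩, (h.es1.2 f m.1).2, ?_, ?_⟩
  · rw [h.ok.aa hf]; exact m.2.1
  · rw [h.lbl.c h.ok hf]; exact m.2.1
  · rw [h.lbl.ac h.ok hf]; exact m.2.2

theorem esU : s.M.Es (Uu s U0 zd) :=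
  ⟨fun _ m => h.es1.1 m.1, fun f m => (h.es1.cl.diff h.esC.cl h.ok) f (h.es1.1 m.1) m⟩

theorem atD (hf : f ∈ E0 s zd) (m : In s zd x k (s.vx f)) : ∃ i, 2 * (zd x).ix k < i ∧
    i < 2 * (zd x).ix (k + 1) ∧ (Nr s.M f ((zd x).ed i) ∨ Nr s.M f (s.M.a ((zd x).ed (i - 1)))) := by
  have fS := h.e0S hf
  rcases hf with ⟨-, q | q⟩ | ⟨x', hx, i, h1, h2, q⟩
  · exact (h.kcD q ⟨x, k, m⟩).elim
  · rcases h.inn m with a | a
    · exact (a.2 ⟨a.1, _, q.2 x m.1, (h.adj fS).symm⟩).elim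
    · exact (ce_nd q.1 (by_contra fun z => ce_nd a.1 ((h.zx.ok0.bip f fS).2 z))).elim
  · have l := (h.top hx h1 h2).1
    obtain rfl := h.own hx fS m (h.edZ hx l q)
    have eS := h.edS hx (i := i) (by omega)
    rcases (nr_eo h.ok eS).1 q with e | e
    · rw [e.v h.ok h.lbl eS] at m
      exact ⟨i, (h.idx hx (by omega) m).1, (h.idx hx (by omega) m).2, Or.inl e⟩
    · rw [e.v h.ok h.lbl (h.ok.a_mem eS), h.nxt hx l] at m
      exact ⟨i + 1, (h.idx hx l m).1, (h.idx hx l m).2, Or.inr e⟩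

theorem far (hx : x ∈ s.H ∩ s.Vt) (h0 : 0 < i) (hi : i + 1 < 2 * (zd x).n) :
    (Nr s.M f ((zd x).ed i) → s.vx (s.M.a f) = s.vx ((zd x).ed (i + 1))) ∧
    (Nr s.M f (s.M.a ((zd x).ed (i - 1))) → s.vx (s.M.a f) = s.vx ((zd x).ed (i - 1))) := by
  have e1 := h.edS hx (i := i) (by omega)
  have e2 := h.edS hx (i := i - 1) (by omega)
  refine ⟨fun e => ?_, fun e => ?_⟩
  · rw [(e.a h.ok e1).v h.ok h.lbl (h.ok.a_mem e1), h.nxt hx hi]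
  · rw [(e.a h.ok (h.ok.a_mem e2)).v h.ok h.lbl (h.ok.a_mem (h.ok.a_mem e2)), h.ok.aa e2]

theorem lbC (m : f ∈ Cc s U0 zd) : lb s zd (s.vx (s.M.a f)) = lb s zd (s.vx f) := by
  obtain ⟨hf, ⟨x, k, a⟩, x', k', b⟩ := m
  obtain ⟨i, h1, h2, e⟩ := h.atD hf.1 a
  have l := h.ixl a.1 a.2.1
  have fS := h.e0S hf.1
  have e1 := h.edS a.1 (i := i) (by omega)
  have e2 := h.edS a.1 (i := i - 1) (by omega)
  have t := h.far (f := f) a.1 (i := i) (by omega) (by omega)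
  obtain rfl : x' = x := by
    refine h.own a.1 (h.ok.a_mem fS) b ?_
    rw [h.ok.aa fS]
    rcases e with e | e
    · exact (h.edZ a.1 (by omega) ((nr_eo h.ok e1).2 (Or.inl e))).symm
    · exact (h.edZ a.1 (by omega) ((nr_eo h.ok e2).2 (Or.inr e))).symm
  obtain rfl : k = k' := by
    rcases e with e | e
    · rw [t.1 e] at b
      have := h.idx a.1 (by omega) b
      exact h.near a.1 a.2.1 b.2.1 h1 h2 this.1 this.2 (by omega) (by omega)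
    · rw [t.2 e] at b
      have := h.idx a.1 (by omega) b
      exact h.near a.1 a.2.1 b.2.1 h1 h2 this.1 this.2 (by omega) (by omega)
  rw [h.lb_in a, h.lb_in b]

theorem rimU (hf : f ∈ Uu s U0 zd) (m : In s zd x k (s.vx f)) :
    Nr s.M f (s.M.a ((zd x).ed (2 * (zd x).ix k))) ∨
      Nr s.M f ((zd x).ed (2 * (zd x).ix (k + 1) - 1)) := by
  obtain ⟨i, h1, h2, e⟩ := h.atD hf.1.1 m
  have l := h.ixl m.1 m.2.1
  have t := h.far (f := f) m.1 (i := i) (by omega) (by omega)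
  have n : s.vx (s.M.a f) ∉ Dv s zd := fun q => hf.2 ⟨hf.1, ⟨x, k, m⟩, q⟩
  rcases e with e | e
  · by_cases c : i + 1 < 2 * (zd x).ix (k + 1)
    · exact (n ⟨x, k, m.1, m.2.1, m.2.2.1, i + 1, by omega, c, t.1 e⟩).elim
    · exact Or.inr (by rwa [show 2 * (zd x).ix (k + 1) - 1 = i by omega])
  · by_cases c : 2 * (zd x).ix k < i - 1
    · exact (n ⟨x, k, m.1, m.2.1, m.2.2.1, i - 1, c, by omega, t.2 e⟩).elim
    · exact Or.inl (by rwa [show 2 * (zd x).ix k = i - 1 by omega])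

theorem vcls (hf : f ∈ E0 s zd) : (∃ y ∈ KC s zd, s.G.Adj y (s.vx f)) ∨ s.vx f ∈ Dv s zd ∨
    s.vx f ∈ KC s zd := by
  have fS := h.e0S hf
  rcases hf with ⟨-, q | q⟩ | ⟨x, hx, i, h1, h2, q⟩
  · exact Or.inr (Or.inr q)
  · exact Or.inl ⟨_, q, (h.adj fS).symm⟩
  · obtain ⟨l, k, hk, h3, h4⟩ := h.top hx h1 h2
    obtain ⟨j, h5, h6, e⟩ : ∃ j, 2 * (zd x).ix k ≤ j ∧ j ≤ 2 * (zd x).ix (k + 1) ∧
        s.vx f = s.vx ((zd x).ed j) := by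
      rcases RStop.ends h.ok h.lbl (h.edS hx (by omega)) q with e | e
      exacts [⟨i, h3, h4.le, e.1⟩, ⟨i + 1, by omega, h4, e.1.trans (h.nxt hx l)⟩]
    have t : ∀ k < (zd x).N, ∃ y ∈ KC s zd, s.G.Adj y ((zd x).ps k) := fun k hk =>
      let ⟨a, y, b, c⟩ := h.psE hx hk; ⟨y, h.kc hx b a c, c⟩
    rw [e]
    rcases h5.eq_or_lt with rfl | h5
    · exact Or.inl (t k (by omega))
    rcases h6.eq_or_lt with rfl | h6
    · exact Or.inl (t _ hk)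
    by_cases c : (zd x).lk k ∈ s.Kx (zd x).Z
    · obtain ⟨a, b⟩ := h.sup hx hk c
      obtain rfl : j = 2 * (zd x).ix k + 1 := by omega
      exact Or.inr (Or.inr b)
    · exact Or.inr (Or.inl ⟨x, k, hx, hk, c, j, h5, h6, rfl⟩)

theorem e0X (hx : x ∈ s.H ∩ s.Vt) : E0 s zd ⊆ s.Ux (zd x).χ := fun f hf => by
  have fS := h.e0S hf
  have t : ∀ g ∈ s.M.S, s.vx g ∈ KC s zd → g ∈ s.Ux (zd x).χ := fun g hg m => by
    refine ⟨hg, by_contra fun n => ?_⟩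
    rw [not_or] at n
    obtain ⟨i, hi, e | e⟩ := (h.zo x hx).pw.kept g hg (m.2 x hx) (z2 n.1)
    · have eS := h.edS hx (i := 2 * i) (by omega)
      rw [e, ← h.ok.comm eS, h.chi hx (h.ok.c_mem eS)] at n
      exact n.2 ((h.zo x hx).pw.mem _ (by omega)).2.2
    · rw [e] at n
      exact n.2 ((h.zo x hx).pw.mem _ (by omega)).2.2
  have back : s.M.a f ∈ s.Ux (zd x).χ → f ∈ s.Ux (zd x).χ := fun m =>
    h.ok.aa fS ▸ ((h.esX hx).2 _ m).1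
  rcases hf with ⟨-, q | q⟩ | ⟨x', hx', i, h1, h2, q⟩
  · exact t f fS q
  · exact back (t _ (h.ok.a_mem fS) q)
  · have l := (h.top hx' h1 h2).1
    by_cases e : x' = x
    · subst e
      have m := h.edX hx (i := i) (by omega)
      rcases (nr_eo h.ok m.1).1 q with e | e
      exacts [e.es (h.esX hx) m, e.es (h.esX hx) ((h.esX hx).2 _ m).1]
    · have u : ∀ g ∈ s.M.S, s.vx g ∈ (zd x').Z → g ∈ s.Ux (zd x).χ := fun g hg m =>
        ⟨hg, Or.inl ((h.zo x hx).pw.off g hg fun z => disjoint_left.1 (h.dis x hx x' hx' e).1 z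
          (h.ar x' hx' g hg ((h.zo x' hx').sub m).2))⟩
      exact (h.edZ hx' l q).elim (u f fS) fun m => back (u _ (h.ok.a_mem fS) m)

theorem indE : s.M.ind s.vx U0 ⊆ E1 s U0 zd := fun f hf => by
  have t : ∀ g ∈ s.M.S, s.vx g ∈ U0 → s.vx (s.M.a g) ∈ U0 → s.vx g ∉ s.Nd → s.vx g ∈ KC s zd := by
    intro g hg a b n
    have c := (h.uT a).resolve_left n
    exact ⟨c, fun x hx => ⟨c, _, ⟨by_contra fun z => n ((h.zx.ok0.bip g hg).2 z),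
      fun m => ((h.zo x hx).sub m).2.2 b⟩, h.adj hg⟩⟩
  refine ⟨Or.inl ⟨hf.1, ?_⟩, _, hf.2.1, Relation.ReflTransGen.refl⟩
  by_cases c : s.vx f ∈ s.Nd
  · exact Or.inr (t _ (h.ok.a_mem hf.1) hf.2.2 (by rw [h.ok.aa hf.1]; exact hf.2.1)
      ((h.zx.ok0.bip f hf.1).1 c))
  · exact Or.inl (t f hf.1 hf.2.1 hf.2.2 c)

theorem pathK (hx : x ∈ s.H ∩ s.Vt) (h1 : 2 * (zd x).ix 0 ≤ i)
    (h2 : i ≤ 2 * (zd x).ix ((zd x).N - 1)) :
    s.vx ((zd x).ed i) ∈ Ks s U0 zd ↔ (zd x).ps 0 ∈ Ks s U0 zd := by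
  induction i, h1 using Nat.le_induction with
  | base => rfl
  | succ i h1 ih =>
    have m : (zd x).ed i ∈ E0 s zd := Or.inr ⟨x, hx, i, h1, h2, Cy.orb_self ..⟩
    rw [← ih (by omega), ← h.nxt hx (h.top hx h1 h2).1]
    exact ⟨fun k => by
      have := (h.es1.2 _ ⟨(h.es0.2 _ m).1, k⟩).1.2
      rwa [h.ok.aa (h.e0S m)] at this, fun k => (h.es1.2 _ ⟨m, k⟩).1.2⟩

end Cx

/-- the map after the contraction of the paths, with the faces `F x` for the holes -/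
structure Mid (s : Sk) (U0 : Set MV) (zd : MV → Zd s) (M1 : FM s.Φ) (vx1 : s.Φ → MV)
    (F : MV → Set s.Φ) : Prop where
  ok : M1.Ok
  lbl : M1.Lbl vx1
  con : M1.Con
  eg : M1.eg ≤ s.M.eg
  sub : M1.S ⊆ s.M.S
  ha : M1.a = s.M.a
  hc : M1.c = s.M.c
  ori : ∀ o, s.M.Ori o → M1.Ori o
  ind : s.M.ind s.vx U0 ⊆ M1.S
  node : ∀ f ∈ M1.S, s.vx f ∈ s.Nd → vx1 f = s.vx f ∧ ∃ y ∈ KC s zd, s.G.Adj y (s.vx f)
  cell : ∀ f ∈ M1.S, s.vx f ∈ KC s zd → vx1 f = s.vx f ∧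
    ∀ g ∈ s.M.S, s.vx g = s.vx f → g ∈ M1.S ∧ M1.b g = s.M.b g
  cls : ∀ f ∈ M1.S, s.vx f ∈ s.Nd ∨ s.vx f ∈ KC s zd ∨ ∃ x ∈ s.H ∩ s.Vt, ∃ k, k + 1 < (zd x).N ∧
    (zd x).lk k ∉ s.Kx (zd x).Z ∧ vx1 f = (zd x).lk k ∧ s.vx f ∈ s.Ce ∧
    (Nr s.M f (s.M.a ((zd x).ed (2 * (zd x).ix k))) ∨
      Nr s.M f ((zd x).ed (2 * (zd x).ix (k + 1) - 1)))
  clo : ∀ f ∈ M1.S, ∀ g ∈ s.M.S, s.vx g = s.vx f → s.vx (s.M.a g) ∈ KC s zd → g ∈ M1.S
  seg : ∀ x ∈ s.H ∩ s.Vt, ∀ k0 < (zd x).N, (∃ f ∈ M1.S, s.vx f = (zd x).ps k0) →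
    (∀ k < (zd x).N, ∃ f ∈ M1.S, s.vx f = (zd x).ps k) ∧ ∀ k, k + 1 < (zd x).N →
      (zd x).ed (2 * (zd x).ix k) ∈ F x ∧ (zd x).ed (2 * (zd x).ix (k + 1) - 1) ∈ F x ∧
      M1.b (s.M.a ((zd x).ed (2 * (zd x).ix k))) = (zd x).ed (2 * (zd x).ix (k + 1) - 1) ∧
      vx1 (s.M.a ((zd x).ed (2 * (zd x).ix k))) = (zd x).lk k ∧ (k + 2 < (zd x).N →
        M1.b (s.M.a ((zd x).ed (2 * (zd x).ix (k + 1) - 1))) = (zd x).ed (2 * (zd x).ix (k + 1)))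
  fsub : ∀ x, F x ⊆ M1.S
  face : ∀ x ∈ s.H ∩ s.Vt, ∀ f ∈ F x, ∀ g ∈ M1.S, g ∈ F x ↔ g ∈ M1.fo f
  fdis : ∀ x ∈ s.H ∩ s.Vt, ∀ x' ∈ s.H ∩ s.Vt, x' ≠ x → Disjoint (F x) (F x')
  fex : ∀ x ∈ s.H ∩ s.Vt, ∀ f ∈ M1.S, s.vx f ∈ (zd x).Z → ∃ g ∈ F x, s.vx g = s.vx f

end HSurg

end Pool.Agent.MP_9d78a0_co.gm

end MrgPart2

-- ======== part 3: formerly Pool.Agent.MP_9d78a0_co.gm.HSurgC
section MrgPart3

/-! Block H: the new map, last part: the holes are put back into their faces. -/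

set_option autoImplicit false

namespace Pool.Agent.MP_9d78a0_co.gm

open Set Function FM Tg2 Sum

namespace HSurg

variable {s : Sk} {U0 : Set MV} {zd : MV → Zd s} {R m0 : ℕ} {M1 : FM s.Φ} {vx1 : s.Φ → MV}
  {F : MV → Set s.Φ} {x x' v y : MV} {k k' : ℕ} {f g : s.Φ}

variable (zd) in
/-- the first edge of piece `k`, and its last edge -/
def eA (x : MV) (k : ℕ) : s.Φ := (zd x).ed (2 * (zd x).ix k)
variable (zd) in
def eB (x : MV) (k : ℕ) : s.Φ := (zd x).ed (2 * (zd x).ix (k + 1) - 1)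

variable (zd) in
/-- the new rims -/
def Rn : Set MV := {y | ∃ x ∈ s.H ∩ s.Vt, ∃ k, k + 1 < (zd x).N ∧ (zd x).lk k ∉ s.Kx (zd x).Z ∧
  y = (zd x).lk k}

namespace Cx

variable (h : Cx s U0 zd R m0) (hx : x ∈ s.H ∩ s.Vt)
include h hx

theorem aS (hk : k < (zd x).N) : eA zd x k ∈ s.M.S := h.edS hx (by have := h.ixl hx hk; omega)

theorem bS (hk : k + 1 < (zd x).N) : eB zd x k ∈ s.M.S := h.edS hx (by have := h.ixl hx hk; omega)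

theorem bV (hk : k + 1 < (zd x).N) : s.vx (s.M.a (eB zd x k)) = (zd x).ps (k + 1) := by
  have := h.ixl hx hk
  have := ((h.zo x hx).ix.2 _ hk).1
  rw [eB, h.nxt hx (by omega), show 2 * (zd x).ix (k + 1) - 1 + 1 = 2 * (zd x).ix (k + 1) by omega]
  rfl

theorem aV (hk : k < (zd x).N) : s.vx (s.M.a (eA zd x k)) = (zd x).lk k :=
  h.nxt hx (by have := h.ixl hx hk; omega)

theorem psZ (hk : k < (zd x).N) : (zd x).ps k ∈ (zd x).Z := (h.psE hx hk).1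

theorem psI (hk : k < (zd x).N) (hk' : k' < (zd x).N) (e : (zd x).ps k = (zd x).ps k') : k = k' := by
  have := h.ixl hx hk
  have := h.ixl hx hk'
  have := (h.zo x hx).pw.inj _ (by omega) _ (by omega) e
  rcases lt_trichotomy k k' with c | c | c
  · have := (h.zo x hx).ix.1 _ _ c hk'; omega
  · exact c
  · have := (h.zo x hx).ix.1 _ _ c hk; omega

theorem lkC (hk : k < (zd x).N) : (zd x).lk k ∈ s.Ce := h.odd hx (h.ixl hx hk)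

theorem nrA (hk : k < (zd x).N) (e : Nr s.M f (s.M.a (eA zd x k))) :
    s.vx (s.M.a f) = (zd x).ps k := by
  have a := h.ok.a_mem (h.aS hx hk)
  rw [(e.a h.ok a).v h.ok h.lbl (h.ok.a_mem a), h.ok.aa (h.aS hx hk)]
  rfl

theorem nrB (hk : k + 1 < (zd x).N) (e : Nr s.M f (eB zd x k)) :
    s.vx (s.M.a f) = (zd x).ps (k + 1) := by
  rw [(e.a h.ok (h.bS hx hk)).v h.ok h.lbl (h.ok.a_mem (h.bS hx hk)), h.bV hx hk]

omit hx in
theorem rnC (m : y ∈ Rn zd) : y ∈ s.Ce ∧ y ∉ KC s zd :=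
  let ⟨x, hx, _, hk, n, e⟩ := m
  e ▸ ⟨h.lkC hx (by omega), fun q => n (q.2 x hx)⟩

end Cx

variable (zd M1 F) in
/-- the chosen corners and the names of the new vertices -/
structure Ch (Q : Set s.Φ) (nm : s.Φ → MV) : Prop where
  cs : M1.Cs Q
  qn : ∀ g ∈ Q, nm g ∈ s.H ∩ s.Vt ∧ g ∈ F (nm g) ∧ s.vx g ∈ (zd (nm g)).Z
  q1 : ∀ g ∈ Q, ∀ g' ∈ Q, s.vx g' = s.vx g → g' = g ∨ g' = M1.b g
  qe : ∀ x ∈ s.H ∩ s.Vt, ∀ f ∈ M1.S, s.vx f ∈ (zd x).Z → ∃ g ∈ Q, s.vx g = s.vx f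
  qp : ∀ x ∈ s.H ∩ s.Vt, (∃ f ∈ M1.S, s.vx f = (zd x).ps 0) → ∀ k, k + 1 < (zd x).N →
    eA zd x k ∈ Q ∧ s.M.a (eB zd x k) ∈ Q

namespace Mid

variable (h : Cx s U0 zd R m0) (m : Mid s U0 zd M1 vx1 F)
include m

theorem am (hf : f ∈ M1.S) : s.M.a f ∈ M1.S := m.ha ▸ m.ok.a_mem hf
theorem cm (hf : f ∈ M1.S) : s.M.c f ∈ M1.S := m.hc ▸ m.ok.c_mem hf

theorem fa (hx : x ∈ s.H ∩ s.Vt) (hf : f ∈ F x) : s.M.a f ∈ F x :=
  (m.face x hx f hf _ (m.am (m.fsub x hf))).2 (m.ha ▸ Cy.orb_p (Cy.orb_self ..))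

theorem fb (hx : x ∈ s.H ∩ s.Vt) (hf : f ∈ F x) : M1.b f ∈ F x :=
  (m.face x hx f hf _ (m.ok.b_mem (m.fsub x hf))).2 (Cy.orb_q (Cy.orb_self ..))

theorem tri (hf : f ∈ M1.S) : (s.vx f ∈ s.Nd ∧ vx1 f = s.vx f) ∨
    (s.vx f ∈ KC s zd ∧ vx1 f = s.vx f) ∨ (s.vx f ∈ s.Ce ∧ vx1 f ∈ Rn zd) := by
  rcases m.cls f hf with a | a | ⟨x, hx, k, hk, n, e, a, -⟩
  exacts [Or.inl ⟨a, (m.node f hf a).1⟩, Or.inr (Or.inl ⟨a, (m.cell f hf a).1⟩),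
    Or.inr (Or.inr ⟨a, x, hx, k, hk, n, e⟩)]

include h

theorem v1T (hf : f ∈ M1.S) : vx1 f ∈ s.T := by
  rcases m.tri hf with a | a | a
  exacts [Or.inl (a.2 ▸ a.1), Or.inr (a.2 ▸ a.1.1), Or.inr (h.rnC a.2).1]

theorem v1H (hf : f ∈ M1.S) : vx1 f ∉ s.H := fun q => (m.v1T h hf).elim
  (HBas.inr_nd (h.zx.ok0.hr.1 q)) fun a => a.2 (Or.inl q)

theorem v1N (hf : f ∈ M1.S) : vx1 f ∈ s.Nd ↔ s.vx f ∈ s.Nd := by
  rcases m.tri hf with a | a | a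
  · rw [a.2]
  · rw [a.2]
  · exact ⟨fun q => (ce_nd (h.rnC a.2).1 q).elim, fun q => (ce_nd a.1 q).elim⟩

theorem v1L (hf : f ∈ M1.S) : vx1 f ∈ range inl ↔ s.vx f ∈ s.Nd :=
  Iff.trans ⟨fun q => (m.v1T h hf).resolve_right fun a => HBas.inr_nd (s := s) a.1.2 ⟨a.1.1, q⟩,
    fun q => q.2⟩ (m.v1N h hf)

theorem v1K (hf : f ∈ M1.S) (a : vx1 f ∈ KC s zd) : s.vx f = vx1 f := by
  rcases m.tri hf with b | b | b
  exacts [b.2.symm, b.2.symm, ((h.rnC b.2).2 a).elim]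

theorem v1E (hf : f ∈ M1.S) (a : vx1 f ∈ s.Nd) : s.vx f = vx1 f :=
  (m.node f hf ((m.v1N h hf).1 a)).1.symm

theorem vb (hf : f ∈ M1.S) (a : s.vx f ∈ s.Nd) : s.vx (M1.b f) = s.vx f := by
  have e := (m.lbl.b m.ok hf).trans (m.node f hf a).1
  exact (m.v1E h (m.ok.b_mem hf) (e ▸ a)).trans e

/-- the flags at a new rim -/
theorem atR (hf : f ∈ M1.S) (hx : x ∈ s.H ∩ s.Vt) (hk : k + 1 < (zd x).N)
    (n : (zd x).lk k ∉ s.Kx (zd x).Z) (e : vx1 f = (zd x).lk k) :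
    Nr s.M f (s.M.a (eA zd x k)) ∨ Nr s.M f (eB zd x k) := by
  have r := h.rnC ⟨x, hx, k, hk, n, e⟩
  rcases m.cls f hf with a | a | ⟨x', hx', k', hk', n', e', -, a⟩
  · exact (ce_nd r.1 ((m.v1N h hf).2 a)).elim
  · exact (r.2 ((m.cell f hf a).1 ▸ a)).elim
  · obtain ⟨rfl, rfl⟩ := h.inU (h.lkIn hx hk n) (e.symm.trans e' ▸ h.lkIn hx' hk' n')
    exact a

theorem onR (hf : f ∈ M1.S) (hx : x ∈ s.H ∩ s.Vt) (hk : k + 1 < (zd x).N)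
    (n : (zd x).lk k ∉ s.Kx (zd x).Z) (e : vx1 f = (zd x).lk k) :
    ∃ f ∈ M1.S, s.vx f = (zd x).ps 0 := by
  rcases m.atR h hf hx hk n e with a | a
  · exact (m.seg x hx k (by omega) ⟨_, m.am hf, h.nrA hx (by omega) a⟩).1 0 (by omega)
  · exact (m.seg x hx _ hk ⟨_, m.am hf, h.nrB hx hk a⟩).1 0 (by omega)

theorem simple0 (hf : f ∈ M1.S) (hg : g ∈ M1.S) (n : s.vx f ∉ s.Nd) (e : vx1 g = vx1 f)
    (e' : vx1 (s.M.a g) = vx1 (s.M.a f)) : Nr s.M g f := by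
  have fS := m.sub hf
  have n1 : s.vx (s.M.a f) ∈ s.Nd := by_contra fun q => n ((h.zx.ok0.bip f fS).2 q)
  have e1 := (m.node _ (m.am hf) n1).1
  have e2 : s.vx (s.M.a g) = s.vx (s.M.a f) :=
    (m.v1E h (m.am hg) (by rw [e', e1]; exact n1)).trans (e'.trans e1)
  rcases m.tri hf with a | a | ⟨-, x, hx, k, hk, q, a⟩
  · exact (n a.1).elim
  · exact (h.zx.ok0.hm.simple f fS).2 g (m.sub hg) (fun q => a.1.1.2 (Or.inl q))
      (fun q => HBas.inr_nd (h.zx.ok0.hr.1 q) n1)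
      ((m.v1K h hg (by rw [e, a.2]; exact a.1)).trans (e.trans a.2)) e2
  have ne : (zd x).ps k ≠ (zd x).ps (k + 1) := fun z => by
    have := h.psI hx (by omega) hk z
    omega
  rcases m.atR h hf hx hk q a with b | b <;> rcases m.atR h hg hx hk q (e.trans a) with c | c
  · exact c.trans h.ok fS (b.symm h.ok (h.ok.a_mem (h.aS hx (by omega))))
  · exact (ne ((h.nrA hx (by omega) b).symm.trans (e2.symm.trans (h.nrB hx hk c)))).elim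
  · exact (ne ((h.nrA hx (by omega) c).symm.trans (e2.trans (h.nrB hx hk b)))).elim
  · exact c.trans h.ok fS (b.symm h.ok (h.bS hx hk))

theorem simple1 (hf : f ∈ M1.S) (hg : g ∈ M1.S) (e : vx1 g = vx1 f)
    (e' : vx1 (s.M.a g) = vx1 (s.M.a f)) : Nr s.M g f := by
  by_cases n : s.vx f ∈ s.Nd
  · have fS := m.sub hf
    have := (m.simple0 h (m.am hf) (m.am hg) ((h.zx.ok0.bip f fS).1 n) e'
      (by rw [h.ok.aa fS, h.ok.aa (m.sub hg), e])).a h.ok (h.ok.a_mem fS)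
    rwa [h.ok.aa fS, h.ok.aa (m.sub hg)] at this
  · exact m.simple0 h hf hg n e e'

theorem voK (hf : f ∈ M1.S) (a : s.vx f ∈ KC s zd) : M1.vo f = s.M.vo f := by
  have e := (m.cell f hf a).1
  ext g
  constructor
  · intro q
    have b := m.ok.vo_mem hf q
    have c := (m.lbl.of_vo m.ok hf q).trans e
    exact (h.lbl f (m.sub hf) g (m.sub b)).1 ((m.v1K h b (c ▸ a)).trans c).symm
  · intro q
    have c := h.lbl.of_vo h.ok (m.sub hf) q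
    have b := ((m.cell f hf a).2 g (h.ok.vo_mem (m.sub hf) q) c).1
    exact (m.lbl f hf g b).1 (e.trans (c.symm.trans (m.cell g b (c ▸ a)).1.symm))

theorem voR (hf : f ∈ M1.S) (a : vx1 f ∈ Rn zd) : (M1.vo f).ncard = 4 := by
  obtain ⟨x, hx, k, hk, n, e⟩ := a
  obtain ⟨a1, a2, a3, a4, -⟩ := (m.seg x hx 0 (by omega) (m.onR h hf hx hk n e)).2 k hk
  have k0 : k < (zd x).N := by omega
  have b1 : s.M.a (eA zd x k) ∈ M1.vo f :=
    (m.lbl f hf _ (m.am (m.fsub x a1))).1 (e.trans a4.symm)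
  have b2 : eB zd x k ∈ M1.vo f := by
    have e3 : M1.b (s.M.a (eA zd x k)) = eB zd x k := a3
    exact e3 ▸ Cy.orb_p b1
  have cc : ∀ g ∈ M1.vo f, s.M.c g ∈ M1.vo f := fun g q => m.hc ▸ Cy.orb_q q
  have ne : ∀ g g', Nr s.M g (s.M.a (eA zd x k)) → Nr s.M g' (eB zd x k) → g ≠ g' := by
    rintro g _ p q rfl
    have := h.psI hx k0 hk ((h.nrA hx k0 p).symm.trans (h.nrB hx hk q))
    omega
  have : M1.vo f = {s.M.a (eA zd x k), s.M.c (s.M.a (eA zd x k)), eB zd x k, s.M.c (eB zd x k)} := by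
    ext g
    constructor
    · intro q
      rcases m.atR h (m.ok.vo_mem hf q) hx hk n ((m.lbl.of_vo m.ok hf q).trans e) with
        (b | b) | b | b <;> simp [b]
    · rintro (rfl | rfl | rfl | rfl)
      exacts [b1, cc _ b1, b2, cc _ b2]
  rw [this, ncard_insert_of_notMem, ncard_insert_of_notMem, ncard_pair (h.ok.c_ne (h.bS hx hk)).symm]
  · rintro (q | q)
    exacts [ne _ _ (Or.inr rfl) (Or.inl rfl) q, ne _ _ (Or.inr rfl) (Or.inr rfl) q]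
  · rintro (q | q | q)
    exacts [h.ok.c_ne (h.ok.a_mem (h.aS hx k0)) q.symm, ne _ _ (Or.inl rfl) (Or.inl rfl) q,
      ne _ _ (Or.inl rfl) (Or.inr rfl) q]

theorem exists_ch : ∃ Q nm, Ch zd M1 F Q nm := by
  classical
  obtain ⟨_, u⟩ := h.zx.conn.1
  obtain ⟨⟨f0, -, -⟩, -⟩ := h.zx.sub u
  have : Nonempty s.Φ := ⟨f0⟩
  have ex : ∀ x v, x ∈ s.H ∩ s.Vt ∧ v ∈ (zd x).Z ∧ v ∈ s.vx '' M1.S → ∃ g, g ∈ F x ∧ s.vx g = v ∧
      (∀ k, k + 1 < (zd x).N → v = (zd x).ps k → g = eA zd x k) ∧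
      ∀ k, k + 2 = (zd x).N → v = (zd x).ps (k + 1) → g = s.M.a (eB zd x k) := by
    rintro x _ ⟨hx, hv, f, hf, rfl⟩
    by_cases c1 : ∃ k, k + 1 < (zd x).N ∧ s.vx f = (zd x).ps k
    · obtain ⟨k, hk, e⟩ := c1
      refine ⟨eA zd x k, ((m.seg x hx k (by omega) ⟨f, hf, e⟩).2 k hk).1, e.symm,
        fun k' hk' e' => ?_, fun k' hk' e' => ?_⟩
      · rw [h.psI hx (by omega) (by omega) (e.symm.trans e')]
      · have := h.psI hx (by omega) (by omega) (e.symm.trans e')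
        omega
    by_cases c2 : ∃ k, k + 2 = (zd x).N ∧ s.vx f = (zd x).ps (k + 1)
    · obtain ⟨k, hk, e⟩ := c2
      refine ⟨s.M.a (eB zd x k), m.fa hx ((m.seg x hx _ (by omega) ⟨f, hf, e⟩).2 k (by omega)).2.1,
        (h.bV hx (by omega)).trans e.symm, fun k' hk' e' => (c1 ⟨k', hk', e'⟩).elim,
        fun k' hk' _ => ?_⟩
      rw [show k' = k by omega]
    obtain ⟨g, a, b⟩ := m.fex x hx f hf hv
    exact ⟨g, a, b, fun k a b => (c1 ⟨k, a, b⟩).elim, fun k a b => (c2 ⟨k, a, b⟩).elim⟩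
  choose! sel s1 s2 s3 s4 using ex
  have nx : ∀ v, ∃ y, ∀ x ∈ s.H ∩ s.Vt, v ∈ (zd x).Z → y = x := fun v => by
    by_cases c : ∃ y ∈ s.H ∩ s.Vt, v ∈ (zd y).Z
    · exact let ⟨y, a, b⟩ := c; ⟨y, fun x hx d => h.zU hx a d b⟩
    · exact ⟨v, fun x hx d => (c ⟨x, hx, d⟩).elim⟩
  choose hn nn using nx
  set Q : Set s.Φ := {g | ∃ x v, (x ∈ s.H ∩ s.Vt ∧ v ∈ (zd x).Z ∧ v ∈ s.vx '' M1.S) ∧
    (g = sel x v ∨ g = M1.b (sel x v))} with hQ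
  have key : ∀ x v, (x ∈ s.H ∩ s.Vt ∧ v ∈ (zd x).Z ∧ v ∈ s.vx '' M1.S) → ∀ g,
      (g = sel x v ∨ g = M1.b (sel x v)) → g ∈ F x ∧ s.vx g = v := by
    rintro x v t g (rfl | rfl)
    · exact ⟨s1 x v t, s2 x v t⟩
    · exact ⟨m.fb t.1 (s1 x v t), (m.vb h (m.fsub x (s1 x v t))
        ((s2 x v t).symm ▸ h.zN t.1 t.2.1)).trans (s2 x v t)⟩
  refine ⟨Q, fun g => hn (s.vx g), ⟨fun g ⟨x, v, t, e⟩ => m.fsub x (key x v t g e).1, ?_⟩, ?_, ?_,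
    fun x hx f hf z => ⟨_, ⟨x, _, ⟨hx, z, f, hf, rfl⟩, Or.inl rfl⟩, s2 x _ ⟨hx, z, f, hf, rfl⟩⟩,
    fun x hx act k hk => ?_⟩
  · rintro g ⟨x, v, t, rfl | rfl⟩
    exacts [⟨x, v, t, Or.inr rfl⟩, ⟨x, v, t, Or.inl (m.ok.bb (m.fsub x (s1 x v t)))⟩]
  · rintro g ⟨x, v, t, e⟩
    obtain ⟨a, rfl⟩ := key x v t g e
    rw [nn _ x t.1 t.2.1]
    exact ⟨t.1, a, t.2.1⟩
  · rintro g ⟨x, v, t, e⟩ g' ⟨x', v', t', e'⟩ q
    obtain rfl : v' = v := (key x' v' t' g' e').2.symm.trans (q.trans (key x v t g e).2)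
    obtain rfl := h.zU t.1 t'.1 t.2.1 t'.2.1
    have := m.ok.bb (m.fsub _ (s1 _ _ t))
    rcases e with rfl | rfl <;> rcases e' with rfl | rfl
    exacts [Or.inl rfl, Or.inr rfl, Or.inr this.symm, Or.inl rfl]
  · have sg := m.seg x hx 0 (by omega) act
    have t : ∀ k < (zd x).N, x ∈ s.H ∩ s.Vt ∧ (zd x).ps k ∈ (zd x).Z ∧
        (zd x).ps k ∈ s.vx '' M1.S := fun k hk => ⟨hx, h.psZ hx hk, sg.1 k hk⟩
    refine ⟨⟨x, _, t k (by omega), Or.inl (s3 x _ (t k (by omega)) k hk rfl).symm⟩, x, _, t _ hk, ?_⟩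
    by_cases c : k + 2 < (zd x).N
    · right
      rw [s3 x _ (t _ hk) _ c rfl, eA, ← (sg.2 k hk).2.2.2.2 c,
        m.ok.bb (m.am (m.fsub x (sg.2 k hk).2.1))]
      rfl
    · exact Or.inl (s4 x _ (t _ hk) k (by omega) rfl).symm

end Mid

variable (zd M1 vx1) in
/-- the new map -/
noncomputable def nw (Q : Set s.Φ) (nm : s.Φ → MV) (pos : s.Φ ⊕ s.Φ × Bool → Prop) : Sk where
  Φ := s.Φ ⊕ s.Φ × Bool
  M := M1.star Q
  vx := Sum.elim vx1 fun p => if p.2 then nm p.1 else vx1 p.1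
  H := s.H
  Rm := Rn zd
  pos := pos

variable (U0 zd R m0 M1 vx1 F) in
structure Al (Q : Set s.Φ) (nm : s.Φ → MV) : Prop where
  h : Cx s U0 zd R m0
  m : Mid s U0 zd M1 vx1 F
  c : Ch zd M1 F Q nm

namespace Al

open OpRad

variable {Q : Set s.Φ} {nm : s.Φ → MV} {pos : s.Φ ⊕ s.Φ × Bool → Prop}
  {z w : s.Φ ⊕ s.Φ × Bool} (a : Al U0 zd R m0 M1 vx1 F Q nm)

theorem cas (hz : z ∈ (M1.star Q).S) : (∃ f ∈ M1.S, z = inl f) ∨ (∃ g ∈ Q, z = inr (g, false)) ∨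
    ∃ g ∈ Q, z = inr (g, true) := by
  rcases z with f | ⟨g, _ | _⟩
  exacts [Or.inl ⟨f, mem_l.1 hz, rfl⟩, Or.inr (Or.inl ⟨g, mem_r.1 hz, rfl⟩),
    Or.inr (Or.inr ⟨g, mem_r.1 hz, rfl⟩)]

include a

theorem qN (hg : g ∈ Q) : s.vx g ∈ s.Nd := a.h.zN (a.c.qn g hg).1 (a.c.qn g hg).2.2
theorem qV (hg : g ∈ Q) : vx1 g = s.vx g := (a.m.node g (a.c.cs.1 hg) (a.qN hg)).1

theorem qX (hg : g ∈ Q) (hx : x ∈ s.H ∩ s.Vt) (k : s.vx g ∈ (zd x).Z) : nm g = x :=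
  a.h.zU hx (a.c.qn g hg).1 k (a.c.qn g hg).2.2

theorem ok' : (M1.star Q).Ok := (radS _ M1 Q a.m.ok a.c.cs).1

theorem lbl' : (M1.star Q).Lbl (nw zd M1 vx1 Q nm pos).vx := by
  refine (radS _ M1 Q a.m.ok a.c.cs).2.2.2.2.2.2.2.2.2.2.2 MV vx1 nm a.m.lbl (fun f hf g hg => ?_)
    fun f hf ⟨g, hg, e⟩ => a.m.v1H a.h hg (e ▸ (a.c.qn f hf).1.1)
  obtain ⟨p1, p2, -⟩ := a.c.qn f hf
  obtain ⟨q1, q2, -⟩ := a.c.qn g hg
  rw [← a.m.face _ p1 f p2 g (a.c.cs.1 hg)]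
  exact ⟨fun e => e ▸ q2, fun k => by_contra fun n =>
    Set.disjoint_left.1 (a.m.fdis _ q1 _ p1 n) q2 k⟩

theorem fl' : z ∈ (M1.star Q).fl (nw zd M1 vx1 Q nm pos).vx s.H ↔ ∃ g ∈ Q, z = inr (g, true) := by
  constructor
  · rintro ⟨hz, k⟩
    rcases cas hz with ⟨f, hf, rfl⟩ | ⟨f, hf, rfl⟩ | q
    exacts [(a.m.v1H a.h hf k).elim, (a.m.v1H a.h (a.c.cs.1 hf) k).elim, q]
  · rintro ⟨g, hg, rfl⟩
    exact ⟨mem_r.2 hg, (a.c.qn g hg).1.1⟩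

theorem vt' : y ∈ (nw zd M1 vx1 Q nm pos).Vt ↔ (∃ f ∈ M1.S, vx1 f = y) ∨ ∃ g ∈ Q, nm g = y := by
  constructor
  · rintro ⟨z, hz, rfl⟩
    rcases cas hz with ⟨f, hf, rfl⟩ | ⟨f, hf, rfl⟩ | ⟨f, hf, rfl⟩
    exacts [Or.inl ⟨f, hf, rfl⟩, Or.inl ⟨f, a.c.cs.1 hf, rfl⟩, Or.inr ⟨f, hf, rfl⟩]
  · rintro (⟨f, hf, rfl⟩ | ⟨f, hf, rfl⟩)
    exacts [⟨inl f, mem_l.2 hf, rfl⟩, ⟨inr (f, true), mem_r.2 hf, rfl⟩]

theorem vt1 (k : y ∈ (nw zd M1 vx1 Q nm pos).Vt) (n : y ∉ s.H) : ∃ f ∈ M1.S, vx1 f = y :=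
  (a.vt'.1 k).resolve_right fun ⟨g, hg, e⟩ => n (e ▸ (a.c.qn g hg).1.1)

theorem nd' : v ∈ (nw zd M1 vx1 Q nm pos).Nd ↔ v ∈ s.Nd ∧ ∃ f ∈ M1.S, s.vx f = v := by
  constructor
  · rintro ⟨k, q⟩
    obtain ⟨f, hf, rfl⟩ := a.vt1 k fun n =>
      HBas.inr_nd (s := nw zd M1 vx1 Q nm pos) (a.h.zx.ok0.hr.1 n) ⟨k, q⟩
    have b := (a.m.v1L a.h hf).1 q
    have e := (a.m.node f hf b).1
    exact ⟨e ▸ b, f, hf, e.symm⟩
  · rintro ⟨k, f, hf, rfl⟩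
    exact ⟨a.vt'.2 (Or.inl ⟨f, hf, (a.m.node f hf k).1⟩), k.2⟩

theorem ce' : y ∈ (nw zd M1 vx1 Q nm pos).Ce ↔ y ∈ KC s zd ∧ ∃ f ∈ M1.S, s.vx f = y := by
  constructor
  · rintro ⟨⟨k, q⟩, n⟩
    obtain ⟨f, hf, rfl⟩ := a.vt1 k fun q => n (Or.inl q)
    rcases a.m.tri hf with b | b | b
    · exact (HBas.inr_nd q (b.2 ▸ b.1)).elim
    · exact ⟨b.2 ▸ b.1, f, hf, b.2.symm⟩
    · exact (n (Or.inr b.2)).elim
  · rintro ⟨k, f, hf, rfl⟩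
    exact ⟨⟨a.vt'.2 (Or.inl ⟨f, hf, (a.m.cell f hf k).1⟩), k.1.1.2⟩,
      fun q => q.elim (fun q => k.1.2 (Or.inl q)) fun q => (a.h.rnC q).2 k⟩

theorem ndl (hf : f ∈ M1.S) : vx1 f ∈ (nw zd M1 vx1 Q nm pos).Nd ↔ s.vx f ∈ s.Nd :=
  Iff.trans ⟨fun k => k.2, fun k => ⟨a.vt'.2 (Or.inl ⟨f, hf, rfl⟩), k⟩⟩ (a.m.v1L a.h hf)

theorem bip' (hz : z ∈ (M1.star Q).S) :
    (nw zd M1 vx1 Q nm pos).vx z ∈ (nw zd M1 vx1 Q nm pos).Nd ↔
      (nw zd M1 vx1 Q nm pos).vx ((M1.star Q).a z) ∉ (nw zd M1 vx1 Q nm pos).Nd := by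
  have t : ∀ g ∈ Q, vx1 g ∈ (nw zd M1 vx1 Q nm pos).Nd ∧ nm g ∉ (nw zd M1 vx1 Q nm pos).Nd :=
    fun g hg => ⟨(a.ndl (a.c.cs.1 hg)).2 (a.qN hg),
      HBas.inr_nd (a.h.zx.ok0.hr.1 (a.c.qn g hg).1.1)⟩
  rcases cas hz with ⟨f, hf, rfl⟩ | ⟨f, hf, rfl⟩ | ⟨f, hf, rfl⟩
  · refine (a.ndl hf).trans (Iff.trans ?_ (a.ndl (a.m.ok.a_mem hf)).not.symm)
    rw [a.m.ha]
    exact a.h.zx.ok0.bip f (a.m.sub hf)
  · exact iff_of_true (t f hf).1 (t f hf).2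
  · exact iff_of_false (t f hf).2 (not_not.2 (t f hf).1)

theorem ne' (hz : z ∈ (M1.star Q).S) :
    (nw zd M1 vx1 Q nm pos).vx z ≠ (nw zd M1 vx1 Q nm pos).vx ((M1.star Q).a z) := fun e =>
  iff_not_self (e ▸ a.bip' hz : _ ∈ (nw zd M1 vx1 Q nm pos).Nd ↔ _ ∉ _)

theorem old (hz : z ∈ (M1.star Q).S) (n : (nw zd M1 vx1 Q nm pos).vx z ∉ s.H)
    (n' : (nw zd M1 vx1 Q nm pos).vx ((M1.star Q).a z) ∉ s.H) : ∃ f ∈ M1.S, z = inl f := by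
  rcases cas hz with q | ⟨f, hf, rfl⟩ | ⟨f, hf, rfl⟩
  exacts [q, (n' (a.c.qn f hf).1.1).elim, (n (a.c.qn f hf).1.1).elim]

theorem simple' : (M1.star Q).Simple (nw zd M1 vx1 Q nm pos).vx s.H := by
  refine fun z hz => ⟨a.ne' hz, fun w hw n n' e e' => ?_⟩
  obtain ⟨f, hf, rfl⟩ := a.old hz n n'
  obtain ⟨g, hg, rfl⟩ := a.old hw (e ▸ n) (e' ▸ n')
  have e2 : vx1 (M1.a g) = vx1 (M1.a f) := e'
  rw [a.m.ha] at e2
  rw [c_l, a.m.hc]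
  exact (a.m.simple1 a.h hf hg e e2).imp (congrArg inl) (congrArg inl)

theorem vo' (hf : f ∈ M1.S) (n : s.vx f ∉ s.Nd) :
    ((M1.star Q).vo (inl f)).ncard = (M1.vo f).ncard := by
  have : Q ∩ M1.vo f = ∅ := eq_empty_of_forall_notMem fun g k =>
    n ((a.m.v1N a.h hf).1 (a.m.lbl.of_vo a.m.ok hf k.2 ▸ (a.qV k.1).symm ▸ a.qN k.1))
  rw [(radS _ M1 Q a.m.ok a.c.cs).2.2.2.2.2.1 f hf, this, empty_prod, image_empty, union_empty,
    ncard_image_of_injective _ inl_injective]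

theorem nonl (hz : z ∈ (M1.star Q).S) (k : (nw zd M1 vx1 Q nm pos).vx z ∈ s.Ce) :
    ∃ f ∈ M1.S, z = inl f ∧ s.vx f ∉ s.Nd := by
  rcases cas hz with ⟨f, hf, rfl⟩ | ⟨f, hf, rfl⟩ | ⟨f, hf, rfl⟩
  · exact ⟨f, hf, rfl, fun q => ce_nd k ((a.m.v1N a.h hf).2 q)⟩
  · exact (ce_nd k ((a.m.v1N a.h (a.c.cs.1 hf)).2 (a.qN hf))).elim
  · exact (k.2 (Or.inl (a.c.qn f hf).1.1)).elim

/-- the corner of a hole between two positions -/
theorem corner (hx : x ∈ s.H ∩ s.Vt) (act : ∃ f ∈ M1.S, s.vx f = (zd x).ps 0)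
    (hk : k + 1 < (zd x).N) : (nw zd M1 vx1 Q nm pos).Quad (inr (eA zd x k, true)) ∧
      (nw zd M1 vx1 Q nm pos).link (inr (eA zd x k, true)) = (zd x).lk k ∧
      (M1.star Q).rot (inr (eA zd x k, true)) = inr (M1.b (s.M.a (eB zd x k)), true) := by
  obtain ⟨q1, q2⟩ := a.c.qp x hx act k hk
  obtain ⟨-, a2, a3, a4, -⟩ := (a.m.seg x hx 0 (by omega) act).2 k hk
  have e3 : M1.b (M1.a (eA zd x k)) = eB zd x k := a.m.ha ▸ a3
  have e4 : vx1 (M1.a (eA zd x k)) = (zd x).lk k := a.m.ha ▸ a4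
  rw [← a.m.ha] at q2 ⊢
  have n : M1.a (eA zd x k) ∉ Q := fun q => by
    have := a.qN q
    rw [a.m.ha, a.h.aV hx (by omega)] at this
    exact ce_nd (a.h.lkC hx (by omega)) this
  have e1 : mate M1.a M1.b Q (eA zd x k) = M1.a (eB zd x k) := by
    refine mate_eq a.m.ok.fin a.m.ok.ia a.m.ok.ib a.c.cs.1 a.c.cs.2 q1 q2
      (((Relation.ReflTransGen.single (r := cut M1.a M1.b Q) (Or.inl rfl)).tail
        (Or.inr ⟨n, e3.symm⟩)).tail (Or.inl rfl)) fun e => ?_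
    have := congrArg s.vx e
    rw [a.m.ha, a.h.bV hx hk] at this
    have := a.h.psI hx hk (k' := k) (by omega) this
    omega
  have e2 : mate M1.a M1.b Q (M1.a (eB zd x k)) = eA zd x k :=
    e1 ▸ (mi a.m.ok a.c.cs _ q1).2.1
  refine ⟨?_, e4, ?_⟩
  · show (M1.star Q).b ((M1.star Q).a ((M1.star Q).b ((M1.star Q).a ((M1.star Q).b
      ((M1.star Q).a ((M1.star Q).b ((M1.star Q).a (inr (eA zd x k, true))))))))) = _
    rw [a_r, Bool.not_true, b_f, a_l, b_out n, e3, a_l, b_in q2, a_r, Bool.not_false, b_t, e2]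
  · rw [rot, b_t, c_r, e1]

theorem act (k : y ∈ Rn zd ∩ (nw zd M1 vx1 Q nm pos).Vt) : ∃ x ∈ s.H ∩ s.Vt, ∃ k,
    k + 1 < (zd x).N ∧ y = (zd x).lk k ∧ ∃ f ∈ M1.S, s.vx f = (zd x).ps 0 := by
  obtain ⟨f, hf, e⟩ := a.vt1 k.2 fun q => (a.h.rnC k.1).1.2 (Or.inl q)
  obtain ⟨x, hx, j, hj, n, e'⟩ := k.1
  exact ⟨x, hx, j, hj, e', a.m.onR a.h hf hx hj n (e.trans e')⟩

theorem okN (hp : (M1.star Q).Pos pos) : (nw zd M1 vx1 Q nm pos).Ok where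
  hm := ⟨a.ok', a.lbl', (radS _ M1 Q a.m.ok a.c.cs).2.2.1 a.m.con, a.simple', fun z hz k => by
    obtain ⟨g, hg, rfl⟩ := a.fl'.1 ⟨hz, k⟩
    exact fun q => a.m.v1H a.h (a.c.cs.1 hg) q⟩
  ps := hp
  hr := ⟨a.h.zx.ok0.hr.1, fun _ k => (a.h.rnC k).1.1.2,
    Set.disjoint_left.2 fun _ q k => (a.h.rnC k).1.2 (Or.inl q)⟩
  od := fun v k => a.h.zx.ok0.od v (a.nd'.1 ⟨k, v, rfl⟩).1.1
  bip := fun _ => a.bip'
  deg := fun z hz => by
    refine ⟨fun k => ?_, fun k => ?_⟩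
    · have b := (a.ce'.1 k).1
      obtain ⟨f, hf, rfl, n⟩ := a.nonl hz b.1
      have e : s.vx f ∈ KC s zd := (a.m.v1K a.h hf b).symm ▸ b
      refine (a.vo' hf n).trans_le ?_
      rw [a.m.voK a.h hf e]
      exact a.h.zx.ok0.deg f (a.m.sub hf) n fun q => e.1.2 (Or.inl q)
    · obtain ⟨f, hf, rfl, n⟩ := a.nonl hz (a.h.rnC k).1
      exact (a.vo' hf n).trans (a.m.voR a.h hf k)
  rim := fun y k => by
    obtain ⟨x, hx, j, hj, e, ac⟩ := a.act k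
    have := a.corner (pos := pos) hx ac hj
    exact ⟨_, a.fl'.2 ⟨_, (a.c.qp x hx ac j hj).1, rfl⟩, this.1, this.2.1.trans e.symm⟩

theorem spk' : (nw zd M1 vx1 Q nm pos).Spk := by
  intro z hz w hw e e'
  obtain ⟨f, hf, rfl⟩ := a.fl'.1 hz
  obtain ⟨g, hg, rfl⟩ := a.fl'.1 ⟨hw, e ▸ hz.2⟩
  have e2 : vx1 g = vx1 f := e'
  rw [a.qV hf, a.qV hg] at e2
  rcases a.c.q1 f hf g hg e2 with rfl | rfl
  exacts [Or.inl rfl, Or.inr rfl]

theorem adj' (hz : z ∈ (M1.star Q).S) : (nw zd M1 vx1 Q nm pos).G.Adj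
    ((nw zd M1 vx1 Q nm pos).vx z) ((nw zd M1 vx1 Q nm pos).vx ((M1.star Q).a z)) :=
  ⟨a.ne' hz, z, hz, Or.inl ⟨rfl, rfl⟩⟩

theorem farK (hf : f ∈ M1.S) (k : s.vx f ∈ KC s zd) : vx1 (M1.a f) = s.vx (s.M.a f) := by
  rw [a.m.ha]
  exact (a.m.node _ (a.m.am hf)
    (by_contra fun q => ce_nd k.1 ((a.h.zx.ok0.bip f (a.m.sub hf)).2 q))).1

theorem nbK (hf : f ∈ M1.S) (k : s.vx f ∈ KC s zd) :
    (nw zd M1 vx1 Q nm pos).nb (s.vx f) = s.nb (s.vx f) := by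
  ext v
  constructor
  · intro q
    obtain ⟨z, hz, e, e'⟩ := exists_adj a.ok' q
    obtain ⟨g, hg, rfl, -⟩ := a.nonl hz (e ▸ k.1)
    have e1 : vx1 g = s.vx f := e
    have e2 := (a.m.v1K a.h hg (e1 ▸ k)).trans e1
    have e3 : vx1 (M1.a g) = inl v := e'
    rw [a.farK hg (e2 ▸ k)] at e3
    have := a.h.adj (a.m.sub hg)
    rwa [e2, e3] at this
  · intro q
    obtain ⟨g, hg, e, e'⟩ := exists_adj a.h.ok q
    have b := ((a.m.cell f hf k).2 g hg e).1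
    have : (nw zd M1 vx1 Q nm pos).G.Adj (vx1 g) (vx1 (M1.a g)) := a.adj' (mem_l.2 b)
    rwa [a.farK b (e ▸ k), (a.m.cell g b (e ▸ k)).1, e, e'] at this

theorem rtsK (hf : f ∈ M1.S) (k : s.vx f ∈ KC s zd) :
    (nw zd M1 vx1 Q nm pos).rts (inl f) = s.rts f := by
  have it : ∀ i, (M1.star Q).rot^[i] (inl f) = inl (s.M.rot^[i] f) ∧ s.M.rot^[i] f ∈ s.M.S ∧
      s.vx (s.M.rot^[i] f) = s.vx f := by
    intro i
    induction i with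
    | zero => exact ⟨rfl, a.m.sub hf, rfl⟩
    | succ i ih =>
      obtain ⟨e, b, c⟩ := ih
      rw [iterate_succ_apply', iterate_succ_apply', e, rot, rot,
        b_out fun q => ce_nd k.1 (c ▸ a.qN q), c_l, ((a.m.cell f hf k).2 _ b c).2, a.m.hc]
      exact ⟨rfl, a.h.ok.c_mem (a.h.ok.b_mem b), by
        rw [a.h.lbl.c a.h.ok (a.h.ok.b_mem b), a.h.lbl.b a.h.ok b, c]⟩
  show (List.range (((M1.star Q).vo (inl f)).ncard / 2)).map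
    (fun i => (nw zd M1 vx1 Q nm pos).far ((M1.star Q).rot^[i] (inl f))) = _
  rw [a.vo' hf (ce_nd k.1), a.m.voK a.h hf k, Sk.rts]
  refine List.map_congr_left fun i _ => ?_
  obtain ⟨e, b, c⟩ := it i
  rw [e]
  exact congrArg nodeOf (a.farK ((a.m.cell f hf k).2 _ b c).1 (c ▸ k))

theorem clo' (hv : v ∈ (nw zd M1 vx1 Q nm pos).Nd) (k : y ∈ KC s zd) (q : s.G.Adj y v) :
    y ∈ (nw zd M1 vx1 Q nm pos).Ce := by
  obtain ⟨-, f, hf, rfl⟩ := a.nd'.1 hv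
  obtain ⟨g, hg, e, rfl⟩ := exists_adj a.h.ok q.symm
  exact a.ce'.2 ⟨k, _, a.m.am (a.m.clo f hf g hg e k), rfl⟩

theorem core' : U0 ⊆ (nw zd M1 vx1 Q nm pos).T := by
  intro u hu
  obtain ⟨w, hw, n⟩ := a.h.zx.two.exists_ne u
  rcases Relation.ReflTransGen.cases_head (a.h.zx.conn.2 u hu w hw) with e | ⟨t, e, -⟩
  · exact (n e.symm).elim
  obtain ⟨f, hf, rfl, rfl⟩ := exists_adj a.h.ok e.2.2
  have b := a.m.ind ⟨hf, hu, e.2.1⟩
  rcases a.h.uT hu with c | c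
  · exact Or.inl (a.nd'.2 ⟨c, f, b, rfl⟩)
  · exact Or.inr (a.ce'.2 ⟨⟨c, fun x hx => ⟨c, _,
      ⟨by_contra fun z => ce_nd c ((a.h.zx.ok0.bip f hf).2 z),
        fun q => ((a.h.zo x hx).sub q).2.2 e.2.1⟩, e.2.2⟩⟩, f, b, rfl⟩)

theorem spoke' (hx : x ∈ s.H ∩ s.Vt) :
    inl '' (nw zd M1 vx1 Q nm pos).nb x = (nw zd M1 vx1 Q nm pos).Nd ∩ (zd x).Z := by
  ext w
  constructor
  · rintro ⟨v, q, rfl⟩
    obtain ⟨z, hz, e, e'⟩ := exists_adj a.ok' q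
    obtain ⟨g, hg, rfl⟩ := a.fl'.1 ⟨hz, e ▸ hx.1⟩
    obtain rfl : nm g = x := e
    have e2 : vx1 g = inl v := e'
    rw [← e2, a.qV hg]
    exact ⟨a.nd'.2 ⟨a.qN hg, g, a.c.cs.1 hg, rfl⟩, (a.c.qn g hg).2.2⟩
  · rintro ⟨k, q⟩
    obtain ⟨⟨-, v, e⟩, f, hf, rfl⟩ := a.nd'.1 k
    obtain ⟨g, hg, e'⟩ := a.c.qe x hx f hf q
    have : (nw zd M1 vx1 Q nm pos).G.Adj (nm g) (vx1 g) := a.adj' (z := inr (g, true)) (mem_r.2 hg)
    rw [a.qX hg hx (e' ▸ q), a.qV hg, e', ← e] at this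
    exact ⟨v, this, e⟩

theorem walk (hx : x ∈ s.H ∩ s.Vt) (act : ∃ f ∈ M1.S, s.vx f = (zd x).ps 0) (h2 : 2 ≤ (zd x).N)
    (hk : k < (zd x).N) : ∃ g ∈ Q, (M1.star Q).rot^[k] (inr (eA zd x 0, true)) = inr (g, true) ∧
      s.vx g = (zd x).ps k ∧ (k + 1 < (zd x).N → g = eA zd x k) := by
  induction k with
  | zero => exact ⟨_, (a.c.qp x hx act 0 h2).1, rfl, rfl, fun _ => rfl⟩
  | succ k ih =>
    obtain ⟨g, -, e, -, e'⟩ := ih (by omega)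
    have q := (a.c.qp x hx act k hk).2
    refine ⟨_, a.c.cs.2 _ q, ?_, (a.m.vb a.h (a.c.cs.1 q) (a.qN q)).trans (a.h.bV hx hk),
      ((a.m.seg x hx 0 (by omega) act).2 k hk).2.2.2.2⟩
    rw [iterate_succ_apply', e, e' hk, (a.corner (pos := fun _ => True) hx act hk).2.2]

theorem sg (hp : (M1.star Q).Pos pos) (hq : ∀ f ∈ M1.S, pos (inl f) → s.pos f) :
    s.Sg U0 zd (nw zd M1 vx1 Q nm pos)
      {x | x ∈ s.H ∩ s.Vt ∧ 2 ≤ (zd x).N ∧ (zd x).ps 0 ∈ (nw zd M1 vx1 Q nm pos).Nd}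
      fun x => inr (eA zd x 0, true) where
  ok := a.okN hp
  spk := a.spk'
  eg := (radS _ M1 Q a.m.ok a.c.cs).2.1.trans_le a.m.eg
  hole := ⟨rfl, fun _ k => (a.vt'.1 k.2).elim (fun ⟨_, hf, e⟩ => (a.m.v1H a.h hf (e ▸ k.1)).elim)
    fun ⟨g, hg, e⟩ => e ▸ (a.c.qn g hg).1.2⟩
  cell := fun y k => by
    obtain ⟨b, f, hf, rfl⟩ := a.ce'.1 k
    refine ⟨b.1, b.2, a.nbK hf b, ?_⟩
    rintro _ ⟨z, hz, e, p, rfl⟩
    obtain ⟨g, hg, rfl, -⟩ := a.nonl hz (e ▸ b.1)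
    have e1 : vx1 g = s.vx f := e
    have e2 := (a.m.v1K a.h hg (e1 ▸ b)).trans e1
    exact ⟨g, a.m.sub hg, e2, hq g hg p, a.rtsK hg (e2 ▸ b)⟩
  node := fun v k => by
    obtain ⟨b, f, hf, rfl⟩ := a.nd'.1 k
    obtain ⟨y, c, d⟩ := (a.m.node f hf b).2
    exact ⟨y, a.clo' k c d, d⟩
  clo := fun _ k _ b c d => a.clo' k ⟨b, c⟩ d
  core := a.core'
  spoke := fun _ => a.spoke'
  sides := rfl
  all := fun x hx k hk k' hk' q => a.nd'.2 ⟨a.h.zN hx (a.h.psZ hx hk'),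
    (a.m.seg x hx k hk (a.nd'.1 q).2).1 k' hk'⟩
  side := by
    rintro x ⟨hx, h2, q⟩
    have act := (a.nd'.1 q).2
    have q0 := (a.c.qp x hx act 0 h2).1
    refine ⟨mem_r.2 q0, a.qX q0 hx (a.h.psZ hx (by omega)), fun k hk => ?_, fun k hk => ?_⟩
    · obtain ⟨g, hg, e, e', -⟩ := a.walk hx act h2 hk
      refine (congrArg (nw zd M1 vx1 Q nm pos).far e).trans ?_
      exact congrArg nodeOf ((a.qV hg).trans e')
    · obtain ⟨g, -, e, -, e'⟩ := a.walk hx act h2 (k := k) (by omega)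
      obtain ⟨c1, c2, -⟩ := a.corner (pos := pos) hx act hk
      rw [← e' hk, ← e] at c1 c2
      refine ⟨c1, c2, (em _).imp (fun n => a.ce'.2 ⟨(a.h.sup hx hk n).2, _,
        a.m.am (a.c.cs.1 (a.c.qp x hx act k hk).1), a.h.aV hx (by omega)⟩)
        fun n => ⟨⟨x, hx, k, hk, n, rfl⟩, n⟩⟩
  rim := fun y k => by
    obtain ⟨x, hx, k, hk, e, act⟩ := a.act k
    exact ⟨x, ⟨hx, by omega, a.nd'.2 ⟨a.h.zN hx (a.h.psZ hx (by omega)), act⟩⟩, k, hk, e⟩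

end Al

theorem fin (h : Cx s U0 zd R m0) (m : Mid s U0 zd M1 vx1 F) :
    ∃ (s' : Sk) (J : Set MV) (φ0 : MV → s'.Φ), s.Sg U0 zd s' J φ0 := by
  obtain ⟨Q, nm, c⟩ := m.exists_ch h
  obtain ⟨pos, p1, p2⟩ := h.zx.ok0.ps.map (N := M1.star Q) inl M1.S fun o ho =>
    ⟨_, (radS _ M1 Q m.ok c.cs).2.2.2.2.2.2.2.2.2.1 o (m.ori o ho), fun _ _ => Iff.rfl⟩
  exact ⟨_, _, _, Al.sg ⟨h, m, c⟩ p1 p2⟩

end HSurg

end Pool.Agent.MP_9d78a0_co.gm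

end MrgPart3

-- marker of a merged file
example : 731051 + 786272 = 731051 + 786272 := rfl
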