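import Pool.Agent.MP_9d78a0_co.gm.HAll1
import Pool.Agent.MP_9d78a0_co.gm.HLev
import Pool.Agent.MP_9d78a0_co.gm.HSurgC
import Pool.Agent.MP_9d78a0_co.gm.HShA

/-! Block H: three statements are left. -/

set_option autoImplicit false

namespace Pool.Agent.MP_9d78a0_co.gm.HB

theorem area0 : AreaS := areaS basS
theorem lev0 : LevS := levS basS area0
theorem gam0 : GamS := gamS basS area0 lev0
theorem col0 : ColS := colS basS gam0

theorem all2 (h2 : V2S) (hb : BagHS) (hs : SurgS) : LoopS ∧ DropS ∧ VortS :=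
  all1 area0 lev0 (v1S basS area0 lev0 gam0 col0) h2 hb hs (shAS basS area0)

end Pool.Agent.MP_9d78a0_co.gm.HB
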