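import Pool.Agent.MP_9d78a0_co.gm.HBag1
import Pool.Agent.MP_9d78a0_co.gm.HLev

/-! Block H: bags and lanes from a chain of cuts. -/

set_option autoImplicit false

namespace Pool.Agent.MP_9d78a0_co.gm

open Set Function FM

namespace HBag

theorem cp_rob {X : Pc} {R R0 Λ : Set W} (h : Robust X R0) (hX : X.Finite) (h0 : R0.Finite)
    (h1 : R ⊆ R0) (h2 : VV X ∩ Od ∩ Λ ⊆ R0) : Cp X R Λ := by
  intro A B c1 c2
  obtain ⟨U, hU⟩ : ∃ U : Pc, ∀ p, p ∈ U ↔ p ∈ X ∧ ∀ v ∈ Od, v = p.1 ∨ v = p.2 → v ∈ A :=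
    ⟨Set.ofPred _, fun _ => Iff.rfl⟩
  have sb : U ⊆ X := fun p hp => ((hU p).1 hp).1
  have a1 : ∀ v ∈ Od, v ∈ VV U → v ∈ A := fun v o ⟨p, hp, e⟩ => ((hU p).1 hp).2 v o e
  have a2 : ∀ v ∈ Od, v ∈ VV (X \ U) → v ∈ B := fun v o ⟨p, hp, e⟩ => by_contra fun c => by
    refine hp.2 ((hU p).2 ⟨hp.1, fun w o' e' => ?_⟩)
    by_cases q : v = w
    · exact (c1 ⟨⟨p, hp.1, e'⟩, o'⟩).resolve_right (q ▸ c)
    · refine c2 v o w o' ⟨q, ?_⟩ c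
      rcases e with rfl | rfl <;> rcases e' with rfl | rfl
      exacts [(q rfl).elim, Or.inl hp.1, Or.inr hp.1, (q rfl).elim]
  have key : ∀ (S : Set W) (Y : Pc), Y ⊆ X → (∀ v ∈ Od, v ∈ VV Y → v ∈ S) →
      (∀ v ∈ Od, v ∈ VV Y → v ∈ VV (X \ Y) → v ∈ A ∩ B) → R0.ncard ≤ (rb X R0 Y).ncard →
      (R \ S).ncard ≤ ((A ∩ B ∩ (VV X ∩ Od)) \ (R ∪ Λ)).ncard := fun S Y y1 y2 y3 c => by
    have b1 := ncard_le_ncard (show rb X R0 Y ⊆ R0 ∩ S ∪ (A ∩ B ∩ (VV X ∩ Od)) \ (R ∪ Λ) from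
      fun v ⟨o, m, k⟩ => (em (v ∈ R0)).imp (fun d => ⟨d, y2 v o m⟩) fun d =>
        ⟨⟨y3 v o m (k.resolve_left d), VV_mono y1 m, o⟩,
          fun q => d (q.elim (@h1 v) fun q => h2 ⟨⟨VV_mono y1 m, o⟩, q⟩)⟩)
      ((h0.inter_of_left _).union (((VV_finite hX).inter_of_left _).inter_of_right _).sdiff)
    have b2 := ncard_union_le (R0 ∩ S) ((A ∩ B ∩ (VV X ∩ Od)) \ (R ∪ Λ))
    have b3 := ncard_inter_add_ncard_sdiff_eq_ncard R0 S h0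
    have b4 := ncard_le_ncard (sdiff_subset_sdiff_left h1 : R \ S ⊆ R0 \ S) h0.sdiff
    omega
  exact (h U sb).imp (key A U sb a1 fun v o m m' => ⟨a1 v o m, a2 v o m'⟩)
    (key B _ sdiff_subset a2 fun v o m m' =>
      ⟨a1 v o (VV_mono (fun p hp => not_not.1 fun c => hp.2 ⟨hp.1, c⟩) m'), a2 v o m⟩)

theorem cp_sol {X : Pc} {R Λ Λ' : Set W} (h : Solid X R Λ) (hX : X.Finite)
    (h2 : VV X ∩ Od ∩ Λ' ⊆ R ∪ Λ) : Cp X R Λ' := by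
  intro A B c1 c2
  rcases (R \ A).eq_empty_or_nonempty with e | ⟨r, r1, r2⟩
  · exact Or.inl (by rw [e, ncard_empty]; omega)
  rcases (R \ B).eq_empty_or_nonempty with e | ⟨s, s1, s2⟩
  · exact Or.inr (by rw [e, ncard_empty]; omega)
  obtain ⟨x, y, x1, y1, x2, y2, a, -⟩ := fb.link_exit (T := Bᶜ) (h.two s s1 r r1) s2
    (not_not.2 ((c1 (h.sub r1).1).resolve_left r2))
  have y3 := c2 x x1.1.1 y y1.1.1 a x2
  have y4 : y ∈ B := not_not.1 y2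
  have y5 : y ∉ R := fun c => y1.2 ⟨c, fun q => q.elim (fun q => s2 (q ▸ y4)) fun q => r2 (q ▸ y3)⟩
  have b1 := (ncard_pos (((VV_finite hX).inter_of_left _).inter_of_right _).sdiff).2
    (⟨y, ⟨⟨y3, y4⟩, gr_mem a.symm, y1.1.1⟩, fun q => q.elim y5 fun q =>
      (h2 ⟨⟨gr_mem a.symm, y1.1.1⟩, q⟩).elim y5 y1.1.2⟩ :
        ((A ∩ B ∩ (VV X ∩ Od)) \ (R ∪ Λ')).Nonempty)
  have b2 := ncard_union_eq (disjoint_left.2 fun v (m : v ∈ R \ A) (m' : v ∈ R \ B) =>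
    (c1 (h.sub m.1).1).elim m.2 m'.2) h.card.1.sdiff h.card.1.sdiff
  have b3 := ncard_le_ncard (union_subset sdiff_subset sdiff_subset : R \ A ∪ R \ B ⊆ R) h.card.1
  have := h.card.2
  omega

theorem sub_b_vo {Φ : Type} (M : FM Φ) (U : Set Φ) (f : Φ) : (M.sub U).b f ∈ M.vo f := by
  have k : ∀ π : Φ → Φ, MapsTo π (M.vo f) (M.vo f) → ret π U (M.b f) ∈ M.vo f :=
    fun π h => h.iterate _ (Cy.orb_p (Cy.orb_self ..))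
  refine k _ fun x hx => ?_
  rw [if_neg (notMem_empty _)]
  exact Cy.orb_p (Cy.orb_q hx)

variable {σ : AG} {a : σ.ε} {v : W}

theorem bd_sh {U : Set σ.ε} (h : v ∈ σ.bd U) : v ∈ σ.sh :=
  let ⟨⟨a, ha, m⟩, b, hb, m'⟩ := h
  mem_iUnion.2 ⟨a, ⟨a, rfl, m⟩, b, fun c => hb (c ▸ ha), m'⟩

theorem sh_bd (h : v ∈ σ.sh) (m : v ∈ σ.inc a) : v ∈ σ.bd {a} := by
  obtain ⟨b, hb⟩ := mem_iUnion.1 h
  by_cases c : b = a
  · exact c ▸ hb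
  · obtain ⟨⟨_, rfl, k⟩, -⟩ := hb
    exact ⟨⟨a, rfl, m⟩, _, c, k⟩

variable (r : Rw σ) (z : Zg r.s)

open Classical in
/-- the unit of an atom, its roots, the public vertices -/
noncomputable def un (a : σ.ε) : σ.ε ⊕ Option MV :=
  if a ∈ r.Un z then Sum.inl a else Sum.inr (r.own a)

def Rt : σ.ε ⊕ Option MV → Set (W × ZMod 2)
  | Sum.inl a => {u | u.2 = 0 ∧ u.1 ∈ σ.bd {a} \ r.Λ}
  | Sum.inr o => {u | ∃ f ∈ r.s.M.S, o = some (r.s.vx f) ∧ u = z.cp (r.s.M.a f)}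

def Pub : Set W := {v | v ∈ σ.sh ∧ (Sum.inl v ∈ r.s.Vt ∨ ∃ a ∈ r.Un z, v ∈ σ.inc a)}

/-- the facts on the zone that are used -/
structure Fx (k q D l : ℕ) (Z Γ : Set MV) : Prop where
  rob : σ.Rob
  co : r.Co k q D l
  tw : r.Tw
  hx : z.x ∈ r.s.H
  dp : ∀ y ∈ r.s.Ce \ z.Fi, ∀ w ∈ Z, r.s.G.Adj y w → y ∈ r.s.Dp
  fi : Disjoint z.Fi (r.s.Kx Z)
  gam : Γ ⊆ Z ∧ Z ⊆ r.s.Nd ∧ nodeOf '' Γ ⊆ σ.sh
  dm : ∀ u ∈ r.Dm z Z, u.1 ∈ Od ∧ (u.1 ∉ r.Λ ∪ nodeOf '' Γ → u.2 = 0) ∧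
    (u.1 ∈ r.Λ ∪ nodeOf '' Γ ↔ u ∈ z.Sd 0 ∪ z.Sd 1)
  nd : ∀ u ∈ r.Dm z Z, Sum.inl u.1 ∈ r.s.Vt → Sum.inl u.1 ∈ Z

variable {r z} {k q D l : ℕ} {Z Γ : Set MV} {y : MV} {f : r.s.Φ} {u w : W × ZMod 2}

theorem un_pos (c : a ∈ r.Un z) : un r z a = Sum.inl a := if_pos c
theorem un_neg (c : a ∉ r.Un z) : un r z a = Sum.inr (r.own a) := if_neg c

theorem far_nb (h : r.s.Ok0) (hf : f ∈ r.s.M.S) (c : r.s.vx f ∈ r.s.Ce) :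
    r.s.vx (r.s.M.a f) = Sum.inl (r.s.far f) ∧ r.s.far f ∈ r.s.nb (r.s.vx f) ∧
      Sum.inl (r.s.far f) ∈ r.s.Nd :=
  have e := HBas.far_eq h hf (HBas.inr_nd c.1.2)
  ⟨e, ⟨e ▸ (h.hm.simple f hf).1, f, hf, Or.inl ⟨rfl, e⟩⟩, ⟨_, h.hm.ok.a_mem hf, e⟩, _, rfl⟩

theorem Fx.at_un (h : Fx r z k q D l Z Γ) (c : a ∈ r.Un z) :
    {b | b ∈ r.Zn z.x Z ∧ un r z b = Sum.inl a} = {a} := by
  ext b
  constructor
  · rintro ⟨-, e⟩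
    by_cases d : b ∈ r.Un z
    · exact Sum.inl_injective ((un_pos d).symm.trans e)
    · cases (un_neg d).symm.trans e
  · rintro rfl
    exact ⟨c.imp_right fun ⟨y, hy, e⟩ => ⟨y, ⟨hy.1, disjoint_left.1 h.fi hy⟩, e⟩, un_pos c⟩

theorem Fx.not_un (h : Fx r z k q D l Z Γ) (hy : y ∈ r.s.Ce \ z.Fi) (e : r.own a = some y) :
    a ∉ r.Un z := by
  rintro (c | ⟨y', hy', c⟩) <;> obtain rfl := Option.some_injective _ (e.symm.trans c)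
  exacts [hy.1.2 (Or.inl h.hx), hy.2 hy']

/-- the cells of the zone -/
theorem Fx.cell (h : Fx r z k q D l Z Γ) (hy : y ∈ r.s.Ce \ z.Fi) (n : y ∉ r.s.Kx Z) :
    {b | b ∈ r.Zn z.x Z ∧ un r z b = Sum.inr (some y)} = r.ct y ∧
    Prod.fst '' Rt r z (Sum.inr (some y)) = r.s.nb y ∧ Rt r z (Sum.inr (some y)) ⊆ r.Dm z Z ∧
    r.s.nb y ⊆ σ.bd (r.ct y) ∧ (∃ a ∈ r.Zn z.x Z, un r z a = Sum.inr (some y)) ∧
    Solid (σ.un (r.ct y)) (r.s.nb y) r.Λ ∧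
    VV (σ.un (r.ct y)) ∩ Od ∩ (r.Λ ∪ nodeOf '' Γ) ⊆ r.s.nb y ∪ r.Λ := by
  have h0 := h.co.ok0
  have nz : ∀ f ∈ r.s.M.S, r.s.vx f = y → r.s.vx (r.s.M.a f) ∈ Z := by
    rintro f hf rfl
    obtain ⟨e1, e2, e3⟩ := far_nb h0 hf hy.1
    exact e1 ▸ by_contra fun c => n ⟨hy.1, _, ⟨e3, c⟩, e2⟩
  obtain ⟨f, hf, rfl⟩ := hy.1.1.1
  obtain ⟨e1, e2, -⟩ := far_nb h0 hf hy.1
  have dp := h.dp _ hy _ (e1 ▸ nz f hf rfl) e2
  have a1 : {b | b ∈ r.Zn z.x Z ∧ un r z b = Sum.inr (some (r.s.vx f))} = r.ct (r.s.vx f) := by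
    ext b
    constructor
    · rintro ⟨-, e⟩
      by_cases d : b ∈ r.Un z
      · cases (un_pos d).symm.trans e
      · exact Sum.inr_injective ((un_neg d).symm.trans e)
    · exact fun e => ⟨Or.inr ⟨_, ⟨hy.1, n⟩, e⟩, (un_neg (h.not_un hy e)).trans (congrArg _ e)⟩
  obtain ⟨b, hb, -⟩ := (h.tw _ dp e2).1
  have a2 := h.co.solid _ hy.1
  rw [sdiff_eq_left.2 (disjoint_left.2 fun v hv => HBas.off_lam h.co dp hv)] at a2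
  refine ⟨a1, subset_antisymm ?_ fun v hv => ?_, ?_, h.tw _ dp, ⟨b, a1.ge hb⟩, a2, ?_⟩
  · rintro _ ⟨_, ⟨g, hg, e, rfl⟩, rfl⟩
    obtain e := Option.some_injective _ e
    exact e ▸ (far_nb h0 hg (e ▸ hy.1)).2.1
  · obtain ⟨g, hg, e, e'⟩ := exists_adj h0.hm.ok hv
    exact ⟨_, ⟨g, hg, congrArg _ e.symm, rfl⟩, congrArg nodeOf e'⟩
  · rintro _ ⟨g, hg, e, rfl⟩
    obtain e := Option.some_injective _ e
    exact ⟨HBas.off_lam h.co dp (e ▸ (far_nb h0 hg (e ▸ hy.1)).2.1),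
      Or.inl ⟨_, h0.hm.ok.a_mem hg, nz g hg e.symm, rfl⟩⟩
  · rintro v ⟨m, c⟩
    refine or_iff_not_imp_right.2 fun o => ?_
    have c := c.resolve_left o
    obtain ⟨b, hb, m⟩ := mem_iUnion₂.1 ((σ.vs_un _).le m)
    obtain ⟨x, e, m'⟩ := h.co.share b v ⟨⟨m, h.gam.2.2 c⟩, o⟩ (Or.inl (by
      obtain ⟨w, hw, rfl⟩ := c
      obtain ⟨m1, w', rfl⟩ := h.gam.2.1 (h.gam.1 hw)
      exact m1))
    exact Option.some_injective _ (e.symm.trans hb) ▸ m'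

theorem kinds (ha : a ∈ r.Zn z.x Z) : a ∈ r.Un z ∨ ∃ y ∈ r.s.Ce \ z.Fi, y ∉ r.s.Kx Z ∧
    r.own a = some y ∧ un r z a = Sum.inr (some y) :=
  or_iff_not_imp_left.2 fun c => ha.elim (fun e => (c (Or.inl e)).elim) fun ⟨y, hy, e⟩ =>
    ⟨y, ⟨hy.1, fun d => c (Or.inr ⟨y, d, e⟩)⟩, hy.2, e, (un_neg c).trans (congrArg _ e)⟩

theorem Fx.nbr (h : Fx r z k q D l Z Γ) (hu : u ∈ r.Dm z Z) (a : (r.GG z).Adj u w) :
    u.1 ∈ Pub r z := by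
  rcases a.2 with ⟨f, hf, -, -, -, c, rfl, -⟩ | ⟨a, ha, -, -, m, -⟩
  · obtain ⟨-, e2, e3⟩ := far_nb h.co.ok0 hf c.1
    exact ⟨bd_sh (h.tw _ (h.dp _ c _ (h.nd _ hu e3.1) e2) e2), Or.inl e3.1⟩
  · obtain ⟨⟨_, rfl, m'⟩, -⟩ := id m
    exact ⟨bd_sh m, Or.inr ⟨_, ha, m'⟩⟩

theorem Fx.pub (h : Fx r z k q D l Z Γ) (ha : a ∈ r.Zn z.x Z) (hv : v ∈ σ.inc a)
    (o : v ∉ r.Λ ∪ nodeOf '' Γ)
    (p : v ∈ Pub r z ∨ ∃ a' ∈ r.Zn z.x Z, un r z a' ≠ un r z a ∧ v ∈ σ.inc a') :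
    (v, 0) ∈ Rt r z (un r z a) := by
  have sh : v ∈ σ.sh := p.elim (·.1) fun ⟨a', _, n, m⟩ =>
    bd_sh (U := {a}) ⟨⟨a, rfl, hv⟩, a', fun e => n (congrArg _ e), m⟩
  rcases kinds ha with c | ⟨y, hy, n, e, c⟩
  · rw [un_pos c]
    exact ⟨rfl, sh_bd sh hv, fun d => o (Or.inl d)⟩
  · obtain ⟨x, e', m⟩ := h.co.share a v ⟨⟨hv, sh⟩, fun d => o (Or.inl d)⟩ (by
      rcases p with ⟨-, p | ⟨b, hb, m⟩⟩ | ⟨b, -, p, m⟩
      exacts [Or.inl p, Or.inr ⟨b, fun d => h.not_un hy (d.trans e) hb, m⟩, Or.inr ⟨b, fun d =>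
        p (((un_neg (h.not_un hy (d.trans e))).trans (congrArg _ (d.trans e))).trans c.symm), m⟩])
    obtain rfl := Option.some_injective _ (e.symm.trans e')
    obtain ⟨-, c2, c3, -⟩ := h.cell hy n
    obtain ⟨u, hu, rfl⟩ := c2.ge m
    rwa [c, ← (h.dm u (c3 hu)).2.1 o]

theorem fx (hA : HB.AreaS) (hL : HB.LevS) (hG : HB.GamS) {U0 : Set MV} {t : ℕ}
    (cx : r.Cx k q D l U0 z) (ad : r.Adm U0 z Z t) (ar : Z ⊆ r.s.Ar U0 z.x) :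
    Fx r z k q D l Z (z.Γ t) := by
  have h0 := cx.co.ok0
  obtain ⟨g1, -, -, -, -, -, g2, g3, -, -, -, g4⟩ := hG σ r k q D l U0 z cx
  have zn : Z ⊆ r.s.Nd := fun v hv => (ad.sub hv).1
  replace g4 := (g4 Z zn ad.low).2
  have rh := (hA r.s U0 _ z.x cx.zx (by omega) cx.hole).2.2.2.1
  have l1 := ((hL r.s U0 _ z.x cx.zx cx.hole).2.2.2 z.m (by omega)).2.2.2.2.2.2.2.1
  have tm := ad.rng.2
  have dp : ∀ y ∈ r.s.Ce \ z.Fi, ∀ w ∈ Z, r.s.G.Adj y w → y ∈ r.s.Dp := fun y hy w hw a =>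
    g2 y hy (l1 y (JEnc.T_sub h0.hr.1 (Or.inr hy.1)) w (ad.sub hw) a)
  have gz : z.Γ t ⊆ Z := by
    rintro _ ⟨i, i1, i2, rfl⟩
    exact (ad.gam i i1 (by omega)).2 i2
  refine ⟨cx.rob, cx.co, cx.tw, cx.hole.1, dp, disjoint_left.2 fun y hy ⟨_, v, hv, a⟩ =>
    hv.2 (ad.low (g3 y hy v a)), ⟨gz, zn, ?_⟩, fun u hu => ?_, fun u hu => (g4 u hu).2.1⟩
  · rintro _ ⟨_, ⟨i, i1, i2, rfl⟩, rfl⟩
    have iz := gz ⟨i, i1, i2, rfl⟩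
    obtain ⟨p1, p2, -⟩ := cx.geo.pm i (by omega)
    obtain ⟨-, v, e⟩ := zn iz
    have a : r.s.G.Adj (r.s.vx (r.s.M.a (z.p i))) (z.γ i) :=
      ⟨p2 ▸ (h0.hm.simple _ p1).1.symm, _, p1, Or.inr ⟨p2, rfl⟩⟩
    obtain ⟨a1, a2⟩ := HBas.adj_nd h0 a
    have lv := (g1 i (by omega)).1
    have po : v ∉ r.s.Po := fun c => by
      have := (lv 1).1 (Or.inr ⟨zn iz, rh ⟨e ▸ HBas.po_rh h0 c, ar iz⟩⟩)
      omega
    have a3 : v ∈ r.s.nb _ := e ▸ a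
    have ce : r.s.vx (r.s.M.a (z.p i)) ∈ r.s.Ce := by
      rcases (HBas.tv_eq h0).subset ⟨a1, fun c => po ⟨_, c, a3⟩⟩ with (c | c) | c
      · exact (a2.1 c (zn iz)).elim
      · exact c
      · obtain ⟨x, x1, -, x2⟩ := h0.rim _ c
        exact (po ⟨x, x1.1, x2 a3⟩).elim
    rw [← e]
    refine bd_sh (cx.tw _ (dp _ ⟨ce, fun c => ?_⟩ _ iz a) a3)
    have := (lv _).1 (g3 _ c _ a).1
    omega
  · obtain ⟨u1, u2, u3, u4⟩ := g4 u hu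
    have key : u.1 ∈ r.Λ ∪ nodeOf '' z.Γ t ↔ Sum.inl u.1 ∈ z.Γ z.m := by
      constructor
      · rintro (c | ⟨w, hw, e⟩)
        · exact (hu.1 c).elim
        · obtain ⟨-, v, rfl⟩ := zn (gz hw)
          obtain ⟨i, i1, i2, e'⟩ := hw
          exact ⟨i, i1, by omega, e ▸ e'⟩
      · rintro ⟨i, i1, i2, e⟩
        obtain ⟨p1, p2, -⟩ := cx.geo.pm i i2
        exact Or.inr ⟨_, ⟨i, i1, (ad.gam i i1 i2).1 (e ▸ u2 ⟨_, p1, p2.trans e.symm⟩), e⟩, rfl⟩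
    exact ⟨u1, fun c => u3 (mt key.2 c), key.trans u4⟩

end HBag

open HBag in
theorem HB.bagHS : HB.BasS → HB.AreaS → HB.LevS → HB.GamS → HB.BagHS := by
  intro _ hA hL hG σ r k q D l m0 U0 z t d n y A B c cx ad zo hΓ hn lns top chn hc
  have h := fx hA hL hG cx ad fun v hv => (zo.sub hv).2
  have h0 := cx.co.ok0
  have hM := h0.hm.ok
  have pos : 0 < z.e := by have := cx.e; omega
  have np : ∀ j < z.e, 0 < n j := fun j hj => Nat.pos_of_ne_zero fun e => disjoint_left.1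
    (hG σ r k q D l U0 z cx).2.2.2.2.2.2.2.2.2.2.1 ((lns.left j hj 0 (by omega)).2 rfl)
      ((lns.right j hj 0 (by omega)).2 e.symm)
  have ex : ∀ j, 0 < j → j < z.e → ∀ i ≤ n j, (y j i).1 ∉ r.Λ ∪ nodeOf '' z.Γ t →
      Sum.inl (y j i).1 ∉ r.s.Ex d.Z := fun j j0 hj i hi o m =>
    o (Or.inr ⟨_, top.rest j j0 hj i hi m, rfl⟩)
  obtain ⟨i1, i2⟩ := zo.ix
  have pw := zo.pw
  rw [hn] at i2 pw
  simp only [Rw.Zr, hΓ]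
  refine HBag.Dt.Ok.out (t := ⟨_, Pub r z, r.GG z, r.Dm z d.Z, z.Sd 0, z.Sd 1, z.e, n, y, A, B, c,
    un r z, Rt r z⟩) ⟨lns, chn, pos, h.dm, fun a ha => ?_, fun a ha => ?_,
      fun a ha v hv => h.pub ha hv, fun j hj i hi => ?_, fun j j0 hj i hi o w hw a => ?_,
      fun a ha => ?_, ⟨fun j hj => show 0 < c j 0 ∧ c j 0 < n 0 from hc j hj ▸ i2 j hj,
        fun j hj => ?_⟩, fun j hj p i a1 a2 => ?_⟩
    (hΓ ▸ h.gam.2.2) (fun v hv => hv.1) (fun j hj => ?_) ex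
  · show Rt r z (un r z a) ⊆ _ ∧ (Rt r z (un r z a)).Pairwise (r.GG z).Adj
    rcases kinds ha with e | ⟨x, hx, nk, -, e⟩
    · rw [un_pos e]
      exact ⟨fun u hu => ⟨hu.2.2, Or.inr ⟨hu.1, a, e, hu.2.1⟩⟩, fun u hu w hw ne =>
        ⟨ne, Or.inr ⟨a, e, hu.1, hw.1, hu.2.1, hw.2.1⟩⟩⟩
    · rw [e]
      refine ⟨(h.cell hx nk).2.2.1, fun u ⟨f, hf, f1, f2⟩ w ⟨g, hg, g1, g2⟩ ne => ?_⟩
      exact ⟨ne, Or.inl ⟨f, hf, g, hg, Option.some_injective _ (f1.symm.trans g1),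
        Option.some_injective _ f1 ▸ hx, f2, g2⟩⟩
  · show Prod.fst '' Rt r z (un r z a) ⊆ σ.vs {b | b ∈ r.Zn z.x d.Z ∧ un r z b = un r z a}
    rcases kinds ha with e | ⟨x, hx, nk, -, e⟩
    · rw [un_pos e, h.at_un e]
      rintro _ ⟨u, hu, rfl⟩
      exact σ.bd_vs _ hu.2.1
    · obtain ⟨c1, c2, -, c3, -⟩ := h.cell hx nk
      rw [e, c1, c2]
      exact c3.trans (σ.bd_vs _)
  · rcases hi.lt_or_eq with e | e
    · exact h.nbr (lns.mem j hj i hi) (lns.adj j hj i e)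
    · replace e : i = n j := e
      have a := lns.adj j hj (i - 1) (by have := np j hj; omega)
      rw [Nat.sub_add_cancel (by have := np j hj; omega)] at a
      exact h.nbr (lns.mem j hj i hi) a.symm
  · have hu := lns.mem j hj i hi
    rcases a.2 with ⟨f, hf, g, hg, e, m, e1, e2⟩ | ⟨a, ha, e1, e2, m1, m2⟩
    · obtain ⟨-, b2, b3⟩ := far_nb h0 hf m.1
      have e3 : (y j i).1 = r.s.far f := congrArg Prod.fst e1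
      obtain ⟨a, ha, e'⟩ := (h.cell m fun nk => ex j j0 hj i hi o
        ⟨h.nd _ hu (e3 ▸ b3.1), _, nk, e3 ▸ b2⟩).2.2.2.2.1
      exact ⟨a, ha, show _ ∈ Rt r z (un r z a) from e' ▸ ⟨f, hf, rfl, e1⟩,
        show _ ∈ Rt r z (un r z a) from e' ▸ ⟨g, hg, congrArg _ e, e2⟩⟩
    · exact ⟨a, ((h.at_un ha).ge rfl).1, show _ ∈ Rt r z (un r z a) from un_pos ha ▸ ⟨e1, m1, hu.1⟩,
        show _ ∈ Rt r z (un r z a) from un_pos ha ▸ ⟨e2, m2, hw.1⟩⟩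
  · show Cp (σ.un {b | b ∈ r.Zn z.x d.Z ∧ un r z b = un r z a}) (Prod.fst '' Rt r z (un r z a)) _
    rcases kinds ha with e | ⟨x, hx, nk, -, e⟩
    · rw [un_pos e, h.at_un e, σ.un_single]
      refine cp_rob (cx.rob a) (σ.pfin a) (σ.bd_fin _) ?_ fun v hv => sh_bd
        (hv.2.elim (fun o => cx.co.root a ⟨o, hv.1⟩) fun o => h.gam.2.2 o) hv.1
      rintro _ ⟨u, hu, rfl⟩
      exact hu.2.1
    · obtain ⟨c1, c2, -, -, -, c3, c4⟩ := h.cell hx nk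
      rw [e, c1, c2]
      exact cp_sol c3 (σ.un_fin _) c4
  · show c j 0 < c (j + 1) 0
    rw [hc j (by omega), hc _ hj]
    exact i1 j _ (by omega) hj
  · replace a1 : d.ix j ≤ i := hc j (by omega) ▸ a1
    replace a2 : i < d.ix (j + 1) := hc _ hj ▸ a2
    obtain ⟨b1, -⟩ := i2 j (by omega)
    obtain ⟨-, b2⟩ := i2 _ hj
    obtain ⟨t1, t2, t3⟩ := top.path i (by omega)
    obtain ⟨n1, n2, -⟩ := pw.node i (by omega)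
    have s1 := (pw.mem (2 * i) (by omega)).1
    have s2 := (pw.mem (2 * i + 1) (by omega)).1
    have e : r.s.vx (d.ed (2 * i + 1)) = r.s.vx (r.s.M.a (d.ed (2 * i))) :=
      pw.step (2 * i) (by omega) ▸ h0.hm.lbl.of_vo hM (hM.a_mem s1) (sub_b_vo ..)
    have nk : r.s.vx (d.ed (2 * i + 1)) ∉ r.s.Kx d.Z := fun nk => by
      obtain ⟨j', hj', e'⟩ := zo.ex.le ⟨⟨n1, _, nk, e ▸ (h0.hm.simple _ s1).1.symm, _, s1,
        Or.inr ⟨rfl, e.symm⟩⟩, pw.ends i (by omega) (by omega)⟩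
      have b3 := pw.inj _ (by omega) _ (by have := (i2 j' hj').2; omega) e'
      rcases lt_trichotomy j' j with o | rfl | o
      · have := i1 _ _ o (by omega)
        omega
      · exact p (show r.s.vx (d.ed (2 * d.ix j' + 1)) ∈ _ from b3 ▸ nk)
      · rcases (show j + 1 = j' ∨ j + 1 < j' by omega) with rfl | o
        · omega
        · have := i1 _ _ o hj'
          omega
    obtain ⟨c1, c2, -, -, ⟨a, ha, e'⟩, c3, c4⟩ := h.cell ⟨n2.1, t3⟩ nk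
    have m1 : y 0 i ∈ Rt r z (Sum.inr (some (r.s.vx (d.ed (2 * i + 1))))) :=
      ⟨_, hM.a_mem s1, congrArg _ e, by rw [hM.aa s1, t1]⟩
    have m2 : y 0 (i + 1) ∈ Rt r z (Sum.inr (some (r.s.vx (d.ed (2 * i + 1))))) :=
      ⟨_, s2, rfl, t2.symm⟩
    have off : ∀ i, 0 < i → i < n 0 → (y 0 i).1 ∉ r.Λ ∪ nodeOf '' z.Γ t := fun i o1 o2 o =>
      ((h.dm _ (lns.mem 0 pos i o2.le)).2.2.1 o).elim
        (fun o => o1.ne' ((lns.left 0 pos i o2.le).1 o)) fun o => o2.ne ((lns.right 0 pos i o2.le).1 o)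
    refine ⟨a, ha, show _ ∈ Rt r z (un r z a) from e' ▸ m1, show _ ∈ Rt r z (un r z a) from e' ▸ m2, ?_⟩
    show (Prod.fst '' Rt r z (un r z a)).ncard ≤ 3 ∧
      Link (gr (σ.un {b | b ∈ r.Zn z.x d.Z ∧ un r z b = un r z a}))
        ((Od \ _) \ (Prod.fst '' Rt r z (un r z a) \ {(y 0 i).1, (y 0 (i + 1)).1})) _ _
    rw [e', c1, c2]
    refine ⟨c3.card.2, (link_VV (c3.two _ (c2.le ⟨_, m1, rfl⟩) _ (c2.le ⟨_, m2, rfl⟩))).mono ?_⟩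
    intro v hv
    refine ⟨⟨hv.1.1.1, fun o => hv.1.2 ⟨(c4 ⟨⟨hv.2, hv.1.1.1⟩, o⟩).resolve_right hv.1.1.2, ?_⟩⟩,
      hv.1.2⟩
    rintro (rfl | rfl)
    exacts [off i (by omega) (by omega) o, off (i + 1) (by omega) (by omega) o]
  · show nodeOf _ = (y 0 (c j 0)).1
    rw [hc j hj, ← (top.path _ (i2 j hj).2).1]
    rfl

end Pool.Agent.MP_9d78a0_co.gm
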