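import Pool.Agent.MP_9d78a0_co.gm.HSurg0
import Pool.Agent.MP_9d78a0_co.gm.HSurgC

/-! Block H: the new map. -/

set_option autoImplicit false

namespace Pool.Agent.MP_9d78a0_co.gm

theorem HB.surgS (_ : HB.BasS) (hA : HB.AreaS) : HB.SurgS := fun _ _ _ _ _ zx hR zo =>
  HSurg.fin (HSurg.cx hA zx hR zo) (HSurg.cx hA zx hR zo).mid

end Pool.Agent.MP_9d78a0_co.gm
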