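import Pool.Agent.MP_9d78a0_co.gm.HV2b

/-! Block H: the two sides of the top lane. -/

set_option autoImplicit false

namespace Pool.Agent.MP_9d78a0_co.gm

open Set Function Cy Gph hv2

theorem HB.v2S (_ : HB.BasS) (hA : HB.AreaS) (hL : HB.LevS) (hG : HB.GamS) (hC : HB.ColS) :
    HB.V2S := by
  intro σ r k q D0 l U0 z Z t n y cx ad ln hlev hi ht
  obtain ⟨a, b, P, ed, χ, D, ya, yb, mt, cpy, z0, PA⟩ := build hL hG cx ad ln hi
  have ok := cx.co.ok0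
  have hM := ok.hm.ok
  have hl := ok.hm.lbl
  have hm : z.m = z.rr + 1 + z.e := rfl
  have e0 : 0 < z.e := by have := cx.e; omega
  have ra := D.ra
  have rb := D.rb
  have rt := ad.rng
  have pos := D.pos
  obtain ⟨-, -, -, -, -, -, -, -, a9, -⟩ := hA r.s U0 _ z.x cx.zx (by omega) cx.hole
  obtain ⟨-, -, -, l4⟩ := hL r.s U0 _ z.x cx.zx cx.hole
  obtain ⟨g1, -, -, -, -, -, g7, -, -, -, -, g12⟩ := hG σ r k q D0 l U0 z cx
  obtain ⟨m1, -, m3, -, -, -, m7, -⟩ := l4 z.m (by omega)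
  replace g12 := (g12 Z D.zn ad.low).2
  have offN : ∀ u ∈ r.s.M.S, r.s.vx u ∈ r.s.Nd → r.s.vx (r.s.M.a u) ∉ Z := fun u hu c k =>
    (ok.bip u hu).1 c (D.zn k)
  have exa : ∀ {u v}, r.s.G.Adj u v → ∃ x ∈ r.s.M.S, r.s.vx x = u ∧ r.s.vx (r.s.M.a x) = v :=
    fun ⟨_, x, hx, e⟩ => e.elim (⟨x, hx, ·⟩) fun e => ⟨_, hM.a_mem hx, e.2, by rw [hM.aa hx, e.1]⟩
  have star : ∀ u ∈ U0, ∃ g ∈ r.s.M.ind r.s.vx U0, r.s.vx g = u := by
    intro u hu
    obtain ⟨w, hw, ne⟩ := cx.zx.two.exists_ne u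
    rcases (cx.zx.conn.2 u hu w hw).cases_head with c | ⟨v, ⟨h1, h2, h3⟩, -⟩
    · exact absurd c.symm ne
    · obtain ⟨g, hg, e1, e2⟩ := exa h3
      exact ⟨g, ⟨hg, e1 ▸ h1, e2 ▸ h2⟩, e1⟩
  have Q0 : ∀ f ∈ r.s.M.S, r.s.vx f ∈ U0 → χ f = 0 := fun f hf c =>
    let ⟨g, hg, e⟩ := star _ c
    z0 f ⟨g, hg, (hl g hg.1 f hf).1 e⟩
  obtain ⟨u0, hu0⟩ := cx.zx.conn.1
  have QK : ∀ f ∈ r.s.M.S, r.s.vx f ∈ r.s.Kc U0 z.x z.m ∩ r.s.Nd → χ f = 0 := fun f hf c =>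
    D.prop (disjoint_left.2 fun _ h h' => (ad.sub h').2 h) (m3.2 u0 (m1 hu0) _ c.1)
      (fun g hg e _ => Q0 g hg (e ▸ hu0)) f hf rfl (offN f hf c.2)
  obtain ⟨t1, -, t3, t4, t5⟩ := cx.geo.pm z.m le_rfl
  have top : χ (z.q (z.m + 1)) = 0 := QK _ (fo_mem hM t1 t3) (t4 ▸ ⟨t5.1.2, t5.2⟩)
  have pab : ∀ i ≤ 2 * n 0, ∀ j, z.rr + 2 ≤ j → j ≤ z.m → P i = z.γ j → j = a ∨ j = b := by
    intro i h j h1 h2 e
    rcases D.pg h h1 h2 e with rfl | rfl
    · exact Or.inl (D.ginj j (by omega) a (by omega) (e.symm.trans D.p0.1))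
    · exact Or.inr (D.ginj j (by omega) b (by omega) (e.symm.trans D.pn.1))
  have gam0 : ∀ i, max a b < i → i ≤ z.m + 1 → ∀ f ∈ r.s.M.S, r.s.vx f = z.γ i → χ f = 0 := by
    intro i h1 h2 f hf e
    rcases h2.lt_or_eq with c | rfl
    · obtain ⟨pS, vp, -⟩ := cx.geo.pm i (by omega)
      rw [D.free (fun j hj k => by have := pab j hj i (by omega) (by omega) k; omega)
        (fun j _ _ k => by have := D.ginj j (by omega) i h2 k; omega) hf pS e vp,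
        D.col_p top (by omega) (by omega), if_neg (by omega)]
    · exact QK f hf (e ▸ ⟨t5.1.2, t5.2⟩)
  have QN : ∀ f ∈ r.s.M.S, r.s.vx f ∈ r.s.Nd \ Z → χ f = 0 := by
    intro f hf c
    by_cases hK : r.s.vx f ∈ r.s.Kc U0 z.x z.m
    · exact QK f hf ⟨hK, c.1⟩
    · obtain ⟨i, h1, h2, lk⟩ := ad.esc _ c (Or.inl hK)
      exact D.prop (disjoint_left.2 fun _ h h' => h.1.2 h') lk.symm
        (fun g hg e _ => gam0 i (by omega) h2 g hg e) f hf rfl (offN f hf c.1)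
  have par : ∀ i ≤ 2 * n 0, P i ∉ r.s.Nd → ∃ j < n 0, i = 2 * j + 1 := by
    intro i h c
    rcases Nat.even_or_odd' i with ⟨j, rfl | rfl⟩
    · exact absurd (D.zn (D.nd j (by omega)).1) c
    · exact ⟨j, by omega, rfl⟩
  have kept : ∀ f ∈ r.s.M.S, r.s.vx f ∈ r.s.Kx Z → χ f = 1 →
      ∃ i < n 0, f = r.s.M.a (ed (2 * i)) ∨ f = ed (2 * i + 1) := by
    rintro f hf ⟨fC, v, hv, ad'⟩ c
    obtain ⟨g, hg, e1, e2⟩ := exa ad'
    have g0 : χ g = 0 := (D.xa hg).symm.trans (QN _ (hM.a_mem hg) (e2 ▸ hv))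
    have g1 : χ (r.s.M.c g) = 0 := (D.xa (hM.c_mem hg)).symm.trans
      (QN _ (hM.a_mem (hM.c_mem hg)) (by rw [hM.comm hg, vx_c hM hl (hM.a_mem hg), e2]; exact hv))
    have f0 : χ (r.s.M.c f) = 0 := (z2_cases _).resolve_right fun k => z2_01
      (g0.symm.trans ((D.nonnode hf hg e1 (ce_nd fC) (k.trans c.symm) (g1.trans g0.symm)).symm.trans c))
    obtain ⟨i, h, ⟨e, k⟩ | ⟨e, k⟩⟩ := D.chg1 hf c f0
    · obtain ⟨j, hj, rfl⟩ := par i h.le (e ▸ ce_nd fC)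
      exact ⟨j, hj, Or.inr k⟩
    · obtain ⟨j, hj, e'⟩ := par (i + 1) h (e ▸ ce_nd fC)
      obtain rfl : i = 2 * j := by omega
      exact ⟨j, hj, Or.inl k⟩
  have ZA : Z ⊆ r.s.Ar U0 z.x := fun u hu => m7 ⟨hnf.T_tv ok (Or.inl (ad.sub hu).1), (ad.sub hu).2⟩
  have off : ∀ f ∈ r.s.M.S, f ∉ r.s.ar U0 z.x → χ f = 0 := by
    intro f hf c
    obtain ⟨g0, hg0, -⟩ := star u0 hu0
    obtain ⟨g, hg, gU⟩ := (regBS orbS minorS _ r.s.M _ hM (FM.es_ind hM hl U0) f hf).2.2.2.2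
      ⟨g0, ok.hm.con f hf g0 hg0.1, hg0⟩
    have na : ∀ u ∈ r.s.rg U0 f, u ∈ r.s.M.S ∧ r.s.vx u ∉ r.s.Ar U0 z.x := fun u hu =>
      ⟨(hnf.rg_cls ok U0 hf).1 hu, fun k => by
        obtain ⟨p, hp, e, m⟩ := a9 u ((hnf.rg_cls ok U0 hf).1 hu) k
        refine c ⟨p, hp, e, ?_⟩
        rw [← (hnf.rg_cls ok U0 hp).2 u m, (hnf.rg_cls ok U0 hf).2 u hu]
        exact hnf.rg_self U0 f⟩
    have cs : ∀ u ∈ r.s.rg U0 f, χ u = χ f := by
      intro u hu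
      induction hu with
      | refl => rfl
      | tail m e ih =>
        obtain ⟨uS, nA⟩ := na _ m
        rcases e with rfl | rfl | ⟨-, rfl⟩
        · exact (D.xa uS).trans ih
        · refine Eq.trans (by_contra fun k => ?_) ih
          obtain ⟨i, h1, h2, e⟩ := D.b0 _ uS k
          exact nA (e ▸ ZA (D.gz i h1 h2))
        · refine Eq.trans (by_contra fun k => ?_) ih
          obtain ⟨i, h, ⟨e, -⟩ | ⟨e, -⟩⟩ := D.chg uS k
          · exact nA (e ▸ PA i h.le)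
          · exact nA (e ▸ PA (i + 1) h)
    exact (cs g hg).symm.trans (Q0 g gU.1 gU.2.1)
  have cnE : ∀ f ∈ r.s.M.S, r.s.vx f ∉ r.s.Nd → χ (r.s.M.c f) ≠ χ f →
      ∃ i ≤ n 0, z.cp (r.s.M.a f) = y 0 i := by
    intro f hf c k
    obtain ⟨i, h, ⟨e, -, k⟩ | ⟨e, -, k⟩⟩ := D.chg hf k
    · obtain ⟨j, hj, rfl⟩ := par i h.le (e ▸ c)
      have eS := (D.edg _ h).1
      refine ⟨j + 1, hj, ?_⟩
      rcases k with rfl | rfl
      · exact (cpy j hj).2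
      · rw [hM.comm eS, cp_c ok D.lc (hM.a_mem eS), (cpy j hj).2]
    · obtain ⟨j, hj, e'⟩ := par (i + 1) h (e ▸ c)
      obtain rfl : i = 2 * j := by omega
      have eS := (D.edg _ h).1
      refine ⟨j, hj.le, ?_⟩
      rcases k with rfl | rfl
      · rw [hM.aa eS, (cpy j hj).1]
      · rw [hM.comm (hM.a_mem eS), hM.aa eS, cp_c ok D.lc eS, (cpy j hj).1]
  obtain ⟨ψ, ψ1, ψ2⟩ := hC σ r k q D0 l U0 z Z χ ∅ {u | ∃ i ≤ n 0, u = y 0 i} cx D.zn ad.low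
    (empty_subset _) D.pa
    (by
      intro f hf g hg fZ e el nc
      by_cases c : r.s.vx f ∈ z.Γ z.m
      · obtain ⟨j, h1, h2, ej⟩ := c
        obtain ⟨pS, vp, -⟩ := cx.geo.pm j h2
        refine D.arc_cst h1 h2 _ (fun k c => nc ⟨0, Nat.zero_le _, ?_⟩)
          (fun k c => nc ⟨_, le_rfl, ?_⟩) ((hl _ pS f hf).1 (vp.trans ej.symm))
          ((hl _ pS g hg).1 (vp.trans (e.trans ej).symm)) rfl el
        · rw [ya]
          exact Prod.ext (congrArg nodeOf (c ▸ ej)) k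
        · rw [yb]
          exact Prod.ext (congrArg nodeOf (c ▸ ej)) k
      · refine D.free (fun i h k => ?_) (fun i h1 h2 k => c ⟨i, by omega, by omega, k.symm⟩)
          hf hg rfl e
        rcases Nat.even_or_odd' i with ⟨j, rfl | rfl⟩
        · rcases (show j ≤ n 0 by omega).lt_or_eq with hj | rfl
          · have e1 := (D.edg (2 * j) (by omega)).2.1.trans k
            refine nc ⟨j, hj.le, Eq.trans ?_ (cpy j hj).1⟩
            exact Prod.ext (congrArg nodeOf e1.symm)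
              ((cx.geo.lam0 f c).trans (cx.geo.lam0 _ (e1 ▸ c)).symm)
          · exact c ⟨b, rb.1, rb.2, k.symm.trans D.pn.1⟩
        · exact ce_nd (D.cell j (by omega)).1 (k ▸ D.zn fZ))
    (fun f hf g hg e fC _ _ fn gn => D.nonnode hf hg e.symm (ce_nd fC.1)
      (by_contra fun c => fn (cnE f hf (ce_nd fC.1) c))
      (by_contra fun c => gn (cnE g hg (e ▸ ce_nd fC.1) c)))
    (by
      intro f hf g hg e fF
      refine D.free (fun i h k => ?_) (fun i h1 h2 k => ce_nd fF.1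
        (by rw [← k]; exact D.zn (D.gz i h1 h2))) hf hg rfl e.symm
      obtain ⟨j, hj, rfl⟩ := par i h (k ▸ ce_nd fF.1)
      exact (D.cell j hj).2 (k ▸ fF))
  have nod : ∀ u, u ∉ r.dcut (z.p 0) χ ∅ := by
    rintro u ⟨⟨⟨h | ⟨g, ⟨hg, e⟩, -⟩, -⟩, -⟩, -⟩
    · simp [AG.vs] at h
    · obtain ⟨pS, vp, -⟩ := cx.geo.pm 0 (Nat.zero_le _)
      have gS := vo_mem hM pS hg
      exact z2_01 (e.symm.trans (D.col_low top (Nat.zero_le _) gS
        (((hl _ pS g gS).2 hg).symm.trans vp)))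
  have oth : ∀ l, 0 < l → l < z.e → ∀ i ≤ n l, ¬ ∃ j ≤ n 0, y l i = y 0 j := by
    rintro l h0 h i hi ⟨j, hj, e⟩
    exact h0.ne' (ln.inj l h 0 e0 i hi j hj e).1
  have vγ : ∀ j, z.rr + 2 ≤ j → j ≤ z.m → Sum.inl (nodeOf (z.γ j)) = z.γ j := fun j h1 h2 =>
    nd_inl (D.gnd (by omega) (by omega))
  have inZ : ∀ l < z.e, ∀ i ≤ n l, ∀ j c, z.rr + 2 ≤ j → j ≤ z.m → y l i = (nodeOf (z.γ j), c) →
      z.γ j ∈ Z := by
    intro l h i hi j c h1 h2 e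
    have := (g12 _ (ln.mem l h i hi)).2.1
    rw [e, vγ j h1 h2] at this
    exact this (D.gnd (by omega) (by omega)).1
  have st : ∀ l, 0 < l → l < z.e → ∀ j, z.rr + 2 ≤ j → j ≤ z.m → y l 0 = (nodeOf (z.γ j), 0) →
      j < a := by
    intro l h0 h j h1 h2 e
    have := hlev l h
    rw [e, ya, vγ j h1 h2, vγ a ra.1 ra.2, (g1 j (by omega)).2, (g1 a (by omega)).2] at this
    refine this.lt_of_ne fun c => oth l h0 h 0 (Nat.zero_le _) ⟨0, Nat.zero_le _, ?_⟩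
    rw [e, ya, c]
  have one : ∀ l, 0 < l → l < z.e → ∀ i ≤ n l, ψ (y l i) = 1 := by
    intro l h0 h i
    induction i with
    | zero =>
      intro hi
      obtain ⟨j, h1, h2, e⟩ := (ln.left l h 0 hi).2 rfl
      obtain ⟨pS, vp, -⟩ := cx.geo.pm j h2
      have ec : z.cp (z.p j) = y l 0 :=
        (Prod.ext (congrArg nodeOf vp) (cx.geo.side j h1 h2).2.2.1).trans e.symm
      rw [← ec, ψ1 _ pS (vp ▸ inZ l h 0 hi j 0 h1 h2 e) (ec ▸ oth l h0 h 0 hi),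
        D.col_p top (by omega) h2, if_pos (st l h0 h j h1 h2 e)]
    | succ i ih =>
      intro hi
      rw [← ψ2 _ ⟨ln.mem l h i (by omega), oth l h0 h i (by omega)⟩ _
        ⟨ln.mem l h _ hi, oth l h0 h _ hi⟩ (nod _) (nod _) (ln.adj l h i hi), ih (by omega)]
  have en : ∀ l, 0 < l → l < z.e → ∀ j, z.rr + 2 ≤ j → j ≤ z.m →
      y l (n l) = (nodeOf (z.γ j), 1) → j < b := by
    intro l h0 h j h1 h2 e
    obtain ⟨pS, vp, -⟩ := cx.geo.pm j h2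
    have vb := (vx_b hM hl pS).trans vp
    have ec : z.cp (r.s.M.b (z.p j)) = y l (n l) :=
      (Prod.ext (congrArg nodeOf vb) (D.lam_b h1 h2).1).trans e.symm
    have := one l h0 h _ le_rfl
    rw [← ec, ψ1 _ (hM.b_mem pS) (vb ▸ inZ l h _ le_rfl j 1 h1 h2 e) (ec ▸ oth l h0 h _ le_rfl),
      D.col_bp top h1 h2] at this
    by_contra c
    rw [if_neg c] at this
    exact z2_01 this
  have tm : t ≤ max a b := by
    obtain ⟨l, h, e | e⟩ := ht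
    · obtain ⟨j, h1, h2, ej⟩ := (ln.left l h 0 (Nat.zero_le _)).2 rfl
      rw [ej, vγ j h1 h2] at e
      obtain rfl := D.ginj j (by omega) t (by omega) e
      rcases Nat.eq_zero_or_pos l with rfl | h0
      · have := congrArg (fun u => (Sum.inl u.1 : MV)) (ej.symm.trans ya)
        simp only [vγ j h1 h2, vγ a ra.1 ra.2] at this
        have := D.ginj j (by omega) a (by omega) this
        omega
      · have := st l h0 h j h1 h2 ej
        omega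
    · obtain ⟨j, h1, h2, ej⟩ := (ln.right l h _ le_rfl).2 rfl
      rw [ej, vγ j h1 h2] at e
      obtain rfl := D.ginj j (by omega) t (by omega) e
      rcases Nat.eq_zero_or_pos l with rfl | h0
      · have := congrArg (fun u => (Sum.inl u.1 : MV)) (ej.symm.trans yb)
        simp only [vγ j h1 h2, vγ b rb.1 rb.2] at this
        have := D.ginj j (by omega) b (by omega) this
        omega
      · have := en l h0 h j h1 h2 ej
        omega
  refine ⟨ed, χ, ⟨pos, fun i h => ⟨(D.edg i h).1, (D.edg i h).2.2.2⟩, D.pa, fun i h => D.step h,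
    fun i h => ?_, fun i h0 h c => ?_, fun i h j h' c => ?_, kept, off, fun p hp e => ?_⟩,
    fun i h => ⟨(cpy i h).1, (cpy i h).2, ?_⟩, ?_⟩
  · rw [(D.edg (2 * i) (by omega)).2.1, (D.edg (2 * i + 1) (by omega)).2.1,
      (D.edg (2 * i + 1) (by omega)).2.2.1]
    exact ⟨(D.nd i h.le).1, g7 _ (D.cell i h) (PA _ (by omega)), (D.nd (i + 1) h).1⟩
  · obtain ⟨j, h1, h2, e⟩ := c
    exact D.mid i h0 h ⟨j, h1, by omega, (D.edg (2 * i) (by omega)).2.1.symm.trans e⟩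
  · exact D.inj i h j h' ((D.edg i h).2.1.symm.trans (c.trans (D.edg j h').2.1))
  · obtain ⟨h1, h2⟩ := D.regs top hp e
    refine ⟨h1, ?_⟩
    rintro v ⟨j, j1, j2, rfl⟩
    exact h2 j j1 (by omega)
  · rw [(D.edg (2 * i + 1) (by omega)).2.1]
    exact (D.cell i h).2
  · rintro l h0 h i hi ⟨vZ, w, wK, aw⟩
    by_cases c : Sum.inl (y l i).1 ∈ z.Γ z.m
    · obtain ⟨j, h1, h2, e⟩ := c
      exact ⟨j, h1, (ad.gam j h1 h2).1 (e ▸ vZ), e⟩
    · obtain ⟨g, hg, e1, e2⟩ := exa aw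
      have ec : z.cp (r.s.M.a g) = y l i := Prod.ext (congrArg nodeOf e2)
        ((cx.geo.lam0 _ (e2 ▸ c)).trans ((g12 _ (ln.mem l h i hi)).2.2.1 c).symm)
      have c1 := one l h0 h i hi
      rw [← ec, ψ1 _ (hM.a_mem hg) (e2 ▸ vZ) (ec ▸ oth l h0 h i hi), D.xa hg] at c1
      obtain ⟨j, hj, e | e⟩ := kept g hg (e1 ▸ wK) c1
      · exact absurd ⟨j, hj.le, by
          rw [← ec, e, hM.aa (D.edg _ (by omega)).1, (cpy j hj).1]⟩ (oth l h0 h i hi)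
      · exact absurd ⟨j + 1, hj, by rw [← ec, e, (cpy j hj).2]⟩ (oth l h0 h i hi)

end Pool.Agent.MP_9d78a0_co.gm
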