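import Pool.Agent.MP_9d78a0_co.gm.KPre
import Pool.Agent.MP_9d78a0_co.gm.HAll2
import Pool.Agent.MP_9d78a0_co.gm.HV2
import Pool.Agent.MP_9d78a0_co.gm.HBag
import Pool.Agent.MP_9d78a0_co.gm.HSurg

/-! The graph minor theorem. -/

set_option autoImplicit false

namespace Pool.Agent.MP_9d78a0_co.gm

open HB in
theorem blockH : LoopS ∧ DropS ∧ VortS :=
  all2 (v2S basS area0 lev0 gam0 col0) (bagHS basS area0 lev0 gam0) (surgS basS area0)

/-- finite graphs are well-quasi-ordered by the minor relation -/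
theorem gmt (G : ℕ → Σ k : ℕ, SimpleGraph (Fin k)) : ∃ i j, i < j ∧ IsMinor (G i).2 (G j).2 :=
  rs_of_H blockH.1 blockH.2.1 blockH.2.2 G

end Pool.Agent.MP_9d78a0_co.gm
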