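import Pool.Agent.MP_9d78a0_co.gm.HAbsD0
import Pool.Agent.MP_9d78a0_co.gm.SpecH2
import Pool.Agent.MP_9d78a0_co.gm.JWf
import Pool.Agent.MP_9d78a0_co.gm.Tg

/-! Block H: the depth of a region. -/

set_option autoImplicit false

namespace Pool.Agent.MP_9d78a0_co.gm

open Set Function Cy FM

namespace AD

theorem card_un {ι α : Type} {t : Set ι} (ht : t.Finite) {s : ι → Set α} {m : ℕ}
    (h : ∀ i ∈ t, (s i).ncard ≤ m) : (⋃ i ∈ t, s i).ncard ≤ t.ncard * m := by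
  induction t, ht using Finite.induction_on with
  | empty => simp
  | @insert a t ha ht ih =>
    rw [biUnion_insert, ncard_insert_of_notMem ha ht, add_mul, one_mul, add_comm]
    exact (ncard_union_le _ _).trans
      (add_le_add (h a (Or.inl rfl)) (ih fun i k => h i (Or.inr k)))

theorem far_hole {s : Sk} (ok : s.Ok0) {f : s.Φ} (hf : f ∈ s.M.S) (h : s.vx f ∈ s.H) :
    s.vx (s.M.a f) = Sum.inl (s.far f) := by
  obtain ⟨-, v, e⟩ := (ok.bip _ (ok.hm.ok.a_mem hf)).2 (by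
    rw [ok.hm.ok.aa hf]
    rintro ⟨-, v, e⟩
    obtain ⟨i, k⟩ := ok.hr.1 h
    cases e.trans k.symm)
  rw [Sk.far, ← e]; rfl

end AD

open AD

theorem absDS (hB : HB.BasS) : HB.AbsDS := by
  classical
  intro q D n
  refine ⟨n + q * D + 2 * 3, ?_⟩
  intro σ r k l g B X K p F ψ Ct A co hg _ hX cX eK gn hp eF ha hn hb eC eA
  have ok := co.ok0
  have hM := ok.hm.ok
  have hL := ok.hm.lbl
  obtain ⟨fV, tv, -, -, -, -, nb3, -⟩ := hB.2 r.s ok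
  obtain ⟨k1, k2, k3, -⟩ := (bigS MV r.s.G g B _ r.s.tv hg fun x h => tv ▸ Or.inl h.1).2.1 X
  change K = big r.s.G B r.s.tv X at eK
  rw [← eK] at k1 k2 k3
  have fH : (r.s.H ∩ r.s.Vt).Finite := fV.inter_of_right _
  have fX : X.Finite := fV.subset fun x h => (hX h).1
  unfold Sk.gn at gn
  unfold Sk.rg at eF eC
  have hU := es_ind hM hL K
  have sK : ∀ x ∈ r.s.M.ind r.s.vx K, r.s.vx x ∈ K := fun x h => h.2.1
  have rv := fun f g hf hg => R_of_vx (K := K) (f := f) (g := g) hM hL hf hg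
  obtain ⟨χ, G, g1, g2, c0, c1⟩ := colour hM hL (fX.union fH) (K := K)
    (disjoint_left.2 fun x h m => h.elim (k1 m).2 fun h => (k1 m).1.2 h.1) rfl
    (by
      rcases K.eq_empty_or_nonempty with e | e
      · exact fun f hf => by simpa [e] using sK f hf
      · exact con_ind hM hL (k2 e)) gn
    (fun f hf m => by_contra fun c => c (Or.inl (k3 _ m _
      ⟨⟨⟨_, hM.a_mem hf, rfl⟩, fun h => c (Or.inr (Or.inr ⟨h, _, hM.a_mem hf, rfl⟩))⟩,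
        fun h => c (Or.inr (Or.inl h))⟩ ⟨(ok.hm.simple f hf).1, f, hf, Or.inl ⟨rfl, rfl⟩⟩)))
    hp eF ha hb
  generalize r.s.M.ind r.s.vx K = U at *
  have rS : ∀ f ∈ r.s.M.reg U p, f ∈ r.s.M.S := fun f h => (mem_reg.1 h).mem hM hp
  have rR : ∀ f ∈ r.s.M.reg U p, ∀ f', r.s.M.R ∅ Uᶜ f f' → f' ∈ r.s.M.reg U p := fun f h f' w =>
    mem_reg.2 ((mem_reg.1 h).trans (w.mono (empty_subset _) subset_rfl))
  have ra : ∀ f ∈ r.s.M.reg U p, r.s.M.a f ∈ r.s.M.reg U p := fun f h =>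
    mem_reg.2 ((mem_reg.1 h).a trivial)
  have hK : ∀ h ∈ r.s.H, h ∉ K := fun h m e => (k1 e).1.2 m
  have : Nonempty r.s.Φ := ⟨p⟩
  have : ∀ h ∈ r.s.H ∩ r.s.Vt, ∃ f ∈ r.s.M.S, r.s.vx f = h ∧ ∃ Uh ⊆ r.ct h,
      (r.dcut f χ Uh).ncard ≤ D := by
    rintro _ ⟨m, f, hf, rfl⟩
    exact ⟨f, hf, rfl, co.dep f ⟨hf, m⟩ χ ⟨fun x hx => (c1 x (hM.vo_mem hf hx)).2.1 fun e =>
      hK _ m (hL.of_vo hM hf hx ▸ sK x e), (c1 f hf).2.2.2 (Or.inr ⟨m, f, hf, rfl⟩)⟩⟩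
  choose! fh f1 f2 Uh u1 u2 using this
  obtain ⟨U0, hU0⟩ : ∃ U0 : Set σ.ε, ∀ a, a ∈ U0 ↔ a ∈ Ct ∧ ∃ x, r.own a = some x ∧
      if x ∈ r.s.H then a ∈ Uh x else ∃ f ∈ r.s.M.reg U p \ U, r.s.vx f = x ∧ χ f = 0 :=
    ⟨{a | a ∈ Ct ∧ ∃ x, r.own a = some x ∧
      if x ∈ r.s.H then a ∈ Uh x else ∃ f ∈ r.s.M.reg U p \ U, r.s.vx f = x ∧ χ f = 0},
      fun _ => Iff.rfl⟩
  refine ⟨U0, fun a h => ((hU0 a).1 h).1, ?_⟩
  have fG : G.Finite := hM.fin.subset fun f h => hU.1 (eF ▸ (g1 f h).1).1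
  have yG : ∀ f ∈ G, r.s.vx f ∈ r.s.tv \ r.s.Nd := fun f h =>
    ⟨(k1 (sK f (eF ▸ (g1 f h).1).1)).1, fun m => (g1 f h).2 (hn f (g1 f h).1 m)⟩
  have fsh : σ.sh.Finite := finite_iUnion fun a => hbd_fin σ.inc_fin _
  have sub : ((σ.vs U0 ∪ A 0) ∩ (σ.vs (Ct \ U0) ∪ A 1) ∩ σ.sh) \ (r.Λ ∪ A 0 ∩ A 1) ⊆
      (Sum.inl ⁻¹' X ∪ ⋃ h ∈ r.s.H ∩ r.s.Vt, r.dcut (fh h) χ (Uh h)) ∪
        ⋃ f ∈ G, r.s.nb (r.s.vx f) := by
    rintro v ⟨⟨⟨w0, w1⟩, sh⟩, nl⟩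
    by_contra nn
    simp only [mem_union, mem_iUnion, not_or, not_exists, mem_preimage] at nn nl
    obtain ⟨⟨nX, nD⟩, nG⟩ := nn
    -- the cut of a hole
    have dc : ∀ h ∈ r.s.H ∩ r.s.Vt, ∀ c : ZMod 2, ∀ a ∈ r.ct h, (c = 0 ↔ a ∈ Uh h) → v ∈ σ.inc a →
        ((∃ a ∈ r.ct h, (c + 1 = 0 ↔ a ∈ Uh h) ∧ v ∈ σ.inc a) ∨ v ∈ r.s.clr (fh h) χ (c + 1)) →
        v ∈ r.s.clr (fh h) χ c := by
      intro h m c a a1 a2 a3 o
      by_contra nc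
      refine nD h m ⟨⟨?_, sh⟩, fun e => e.elim nl.1 fun e => nc ?_⟩
      · rw [f2 h m]
        rcases z2_cases c with rfl | rfl
        · exact ⟨Or.inl (mem_biUnion (a2.1 rfl) a3), o.imp (fun ⟨b, b1, b2, b3⟩ =>
            mem_biUnion (x := b) ⟨b1, fun e => by simpa using b2.2 e⟩ b3) fun e => by simpa using e⟩
        · exact ⟨o.imp (fun ⟨b, _, b2, b3⟩ => mem_biUnion (x := b) (b2.1 (by decide)) b3) id,
            Or.inl (mem_biUnion (x := a) ⟨a1, fun e => by simpa using a2.2 e⟩ a3)⟩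
      · rcases z2_cases c with rfl | rfl
        exacts [e.1, e.2]
    have cl : ∀ h ∈ r.s.H ∩ r.s.Vt, ∀ c, v ∈ r.s.clr (fh h) χ c → ∃ e ∈ r.s.M.S, r.s.vx e = h ∧
        r.s.vx (r.s.M.a e) = Sum.inl v ∧ χ e = c := by
      rintro h m c ⟨e, ⟨e1, e2⟩, rfl⟩
      have me := hM.vo_mem (f1 h m) e1
      have ve := (hL.of_vo hM (f1 h m) e1).trans (f2 h m)
      exact ⟨e, me, ve, far_hole ok me (ve ▸ m.1), e2⟩
    -- the owners
    have ow : ∀ a ∈ Ct, ∀ c : ZMod 2, (c = 0 ↔ a ∈ U0) → ∃ f ∈ r.s.M.reg U p \ U,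
        r.own a = some (r.s.vx f) ∧ (r.s.vx f ∈ r.s.H → (c = 0 ↔ a ∈ Uh (r.s.vx f))) ∧
        (r.s.vx f ∉ r.s.H → χ f = c) := by
      intro a m c e
      obtain ⟨f, hf, o⟩ := eC ▸ m
      have e' : c = 0 ↔ if r.s.vx f ∈ r.s.H then a ∈ Uh (r.s.vx f) else
          ∃ f' ∈ r.s.M.reg U p \ U, r.s.vx f' = r.s.vx f ∧ χ f' = 0 := by
        rw [e, hU0]
        exact ⟨fun ⟨_, x, x1, x2⟩ => by rwa [Option.some.inj (o.symm.trans x1)],
          fun h => ⟨m, _, o, h⟩⟩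
      by_cases hh : r.s.vx f ∈ r.s.H
      · exact ⟨f, hf, o, fun _ => by rwa [if_pos hh] at e', fun n => (n hh).elim⟩
      rw [if_neg hh] at e'
      rcases z2_cases c with rfl | rfl
      · obtain ⟨f', h1, h2, h3⟩ := e'.1 rfl
        exact ⟨f', h1, h2 ▸ o, fun m => (hh (h2 ▸ m)).elim, fun _ => h3⟩
      · exact ⟨f, hf, o, fun m => (hh m).elim, fun _ => (z2_cases _).resolve_left fun e =>
          by simpa using e'.2 ⟨f, hf, rfl, e⟩⟩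
    have w0' : (∃ a ∈ Ct, ((0 : ZMod 2) = 0 ↔ a ∈ U0) ∧ v ∈ σ.inc a) ∨ v ∈ A 0 := w0.imp_left fun h =>
      let ⟨a, a1, a2⟩ := mem_iUnion₂.1 h; ⟨a, ((hU0 a).1 a1).1, by simpa using a1, a2⟩
    have w1' : (∃ a ∈ Ct, ((1 : ZMod 2) = 0 ↔ a ∈ U0) ∧ v ∈ σ.inc a) ∨ v ∈ A 1 := w1.imp_left fun h =>
      let ⟨a, a1, a2⟩ := mem_iUnion₂.1 h; ⟨a, a1.1, by simpa using a1.2, a2⟩
    have aV : ∀ c, v ∈ A c → ∃ f ∈ r.s.M.reg U p, r.s.vx f = Sum.inl v ∧ χ f = c := fun c h => by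
      obtain ⟨f, h1, h2, h3⟩ := eA c ▸ h
      exact ⟨f, (eF ▸ h1).2, h2, (c0 f h1).trans h3⟩
    by_cases nd : Sum.inl v ∈ r.s.Vt
    swap
    · have nA : ∀ c, v ∉ A c := fun c h => let ⟨f, h1, h2, _⟩ := aV c h; nd ⟨f, rS f h1, h2⟩
      obtain ⟨a0, m0, e0, i0⟩ := w0'.resolve_right (nA 0)
      obtain ⟨a1, m1, e1, i1⟩ := w1'.resolve_right (nA 1)
      have eo : r.own a1 = r.own a0 := by_contra fun ne => by
        obtain ⟨x, -, hx⟩ := co.share a0 v ⟨⟨i0, sh⟩, nl.1⟩ (Or.inr ⟨a1, ne, i1⟩)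
        obtain ⟨e, he, -, ve⟩ := exists_adj hM hx
        exact nd ⟨_, hM.a_mem he, ve⟩
      obtain ⟨x0, n0, o0, p0, -⟩ := ow a0 m0 0 e0
      obtain ⟨x1, -, o1, p1, -⟩ := ow a1 m1 1 e1
      have ex : r.s.vx x1 = r.s.vx x0 := Option.some.inj (o1.symm.trans (eo.trans o0))
      by_cases hh : r.s.vx x0 ∈ r.s.H
      · have m : r.s.vx x0 ∈ r.s.H ∩ r.s.Vt := ⟨hh, x0, rS _ n0.1, rfl⟩
        obtain ⟨e, he, -, ve, -⟩ := cl _ m _ (dc _ m 0 a0 o0 (p0 hh) i0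
          (Or.inl ⟨a1, eo.trans o0, by rw [zero_add, ← ex]; exact p1 (ex ▸ hh), i1⟩))
        exact nd ⟨_, hM.a_mem he, ve⟩
      · obtain ⟨-, x, h1, h2⟩ := (hU0 a0).1 (e0.1 rfl)
        have hx : x ∉ r.s.H := Option.some.inj (o0.symm.trans h1) ▸ hh
        rw [if_neg hx] at h2
        simpa using e1.2 ((hU0 a1).2 ⟨m1, x, eo.trans h1, by rwa [if_neg hx]⟩)
    -- the colour does not change round `v`
    have vb : ∀ f ∈ r.s.M.S, r.s.vx f = Sum.inl v → χ (r.s.M.b f) = χ f := fun f hf e =>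
      by_contra fun c => by
        rcases (c1 f hf).2.2.1 c with (h | h) | ⟨y, hy, h⟩
        · exact nX (e ▸ h)
        · obtain ⟨i, h⟩ := ok.hr.1 h.1
          cases h.trans e
        · exact (yG y hy).2 (h.trans e ▸ ⟨nd, v, rfl⟩)
    have run : ∀ f ∈ r.s.M.S, r.s.vx f = Sum.inl v → ∀ f', r.s.M.R ∅ Uᶜ f f' →
        r.s.vx f' = Sum.inl v ∧ χ f' = χ f := fun f hf e f' w =>
      w.ind (p := fun x => r.s.vx x = Sum.inl v ∧ χ x = χ f) hM hf ⟨e, rfl⟩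
        (fun x hx h => ⟨(hL.b hM hx).trans h.1, (vb x hx h.1).trans h.2⟩) (fun _ _ h => h.elim)
        fun x hx m h => ⟨(hL.c hM hx).trans h.1, ((c1 x hx).2.1 m).trans h.2⟩
    have inA : ∀ f ∈ r.s.M.reg U p, r.s.vx f = Sum.inl v → f ∈ r.s.M.sat U → v ∈ A (χ f) := by
      intro f hf e s
      obtain ⟨w, hw, h⟩ := sat_R hU s
      have h' := h.symm hM cl_empty (hU.cl.compl hM) (hU.1 hw)
      obtain ⟨t1, t2⟩ := run f (rS f hf) e w h'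
      have m : w ∈ F := eF ▸ ⟨hw, rR f hf w h'⟩
      rw [eA]
      exact ⟨w, m, t1, (c0 w m).symm.trans t2⟩
    have star : ∀ c : ZMod 2, (∃ f ∈ r.s.M.reg U p, r.s.vx f = Sum.inl v ∧ χ f = c) →
        (∃ f ∈ r.s.M.reg U p, r.s.vx f = Sum.inl v ∧ χ f = c + 1) → False := by
      rintro c ⟨f, h1, h2, h3⟩ ⟨f', h4, h5, h6⟩
      have vo := (hL f (rS f h1) f' (rS f' h4)).1 (h2.trans h5.symm)
      by_cases s : f ∈ r.s.M.sat U
      · have t1 := inA f h1 h2 s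
        have t2 := inA f' h4 h5 (let ⟨w, hw, h⟩ := s; ⟨w, hw, orb_trans h vo⟩)
        rw [h3] at t1
        rw [h6] at t2
        rcases z2_cases c with rfl | rfl
        exacts [nl.2 ⟨t1, t2⟩, nl.2 ⟨t2, t1⟩]
      · have w : r.s.M.R ∅ Uᶜ f f' := ((mem_vo.1 vo).ind
          (p := fun x => x ∈ r.s.M.vo f ∧ r.s.M.R ∅ Uᶜ f x) hM (rS f h1) ⟨orb_self .., .rfl⟩
          (fun _ _ h => ⟨orb_p h.1, h.2.b⟩) (fun _ _ h => h.elim) fun x _ _ h =>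
            ⟨orb_q h.1, h.2.c fun m => s ⟨x, m, hM.vo_symm (rS f h1) h.1⟩⟩).2
        have := (run f (rS f h1) h2 f' w).2
        rw [h3, h6] at this
        simp at this
    have wit : ∀ c : ZMod 2, ((∃ a ∈ Ct, (c = 0 ↔ a ∈ U0) ∧ v ∈ σ.inc a) ∨ v ∈ A c) →
        ∃ f ∈ r.s.M.reg U p, r.s.vx f = Sum.inl v ∧ χ f = c := by
      rintro c (⟨a, m, e, i⟩ | h)
      swap
      · exact aV c h
      obtain ⟨f, ⟨hf, nf⟩, o, p1, p2⟩ := ow a m c e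
      have mf := rS f hf
      obtain ⟨x, h1, h2⟩ := co.share a v ⟨⟨i, sh⟩, nl.1⟩ (Or.inl nd)
      obtain rfl : r.s.vx f = x := Option.some.inj (o.symm.trans h1)
      obtain ⟨e, he, ve, va⟩ := exists_adj hM h2
      by_cases hh : r.s.vx f ∈ r.s.H
      · have mh : r.s.vx f ∈ r.s.H ∩ r.s.Vt := ⟨hh, f, mf, rfl⟩
        have sp : ∀ e ∈ r.s.M.S, r.s.vx e = r.s.vx f → r.s.vx (r.s.M.a e) = Sum.inl v →
            ∃ f ∈ r.s.M.reg U p, r.s.vx f = Sum.inl v ∧ χ f = χ e := fun e he ve va =>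
          ⟨_, ra e (rR f hf e (rv f e mf he (hK _ hh) ve.symm)), va, (c1 e he).1⟩
        by_cases ec : χ e = c
        · exact ec ▸ sp e he ve va
        · have ec' : χ e = c + 1 := (by decide : ∀ u c : ZMod 2, ¬u = c → u = c + 1) _ _ ec
          obtain ⟨e', t1, t2, t3, t4⟩ := cl _ mh _ (dc _ mh c a o (p1 hh) i (Or.inr ⟨e,
            ⟨(hL _ (f1 _ mh) e he).1 ((f2 _ mh).trans ve.symm), ec'⟩, by rw [Sk.far, va]; rfl⟩))
          exact t4 ▸ sp e' t1 t2 t3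
      · obtain ⟨⟨-, j, ej⟩, -⟩ := (co.owner a _ o).resolve_right fun h => hh h.1
        have nn : r.s.vx f ∉ r.s.Nd := fun ⟨_, u, eu⟩ => by cases ej.trans eu.symm
        have fb : ∀ y ∈ r.s.M.S, r.s.vx y = r.s.vx f → χ (r.s.M.b y) = χ y := fun y hy ey =>
          by_contra fun c => by
            rcases (c1 y hy).2.2.1 c with (h | h) | ⟨z, hz, h⟩
            exacts [nn (ey ▸ hX h), hh (ey ▸ h.1), nG z hz (h.trans ey ▸ h2)]
        obtain ⟨x, t1, t2⟩ := near hM mf (ok.deg f mf nn hh) ((hL f mf e he).1 ve.symm)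
        have t3 : x ∈ r.s.M.reg U p ∧ χ x = χ f := by
          rcases t2 with rfl | rfl | rfl
          · exact ⟨hf, rfl⟩
          · exact ⟨rR f hf _ R.rfl.b, fb f mf rfl⟩
          · exact ⟨rR f hf _ (R.rfl.c nf).b,
              (fb _ (hM.c_mem mf) (hL.c hM mf)).trans ((c1 f mf).2.1 nf)⟩
        refine ⟨_, ra x t3.1, ?_, (c1 x (rS x t3.1)).1.trans (t3.2.trans (p2 hh))⟩
        rcases t1 with rfl | rfl
        exacts [va, (hL.ac hM he).trans va]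
    exact star 0 (wit 0 w0') (wit 1 w1')
  refine (ncard_le_ncard sub (((fX.preimage Sum.inl_injective.injOn).union (fH.biUnion fun h _ =>
    fsh.subset fun v m => m.1.2)).union (fG.biUnion fun f h => (nb3 _ (yG f h)).1))).trans
    ((ncard_union_le _ _).trans (add_le_add ((ncard_union_le _ _).trans (add_le_add ?_ ?_)) ?_))
  · exact (ncard_le_ncard_of_injOn Sum.inl (fun _ h => h) Sum.inl_injective.injOn fX).trans cX
  · exact (card_un fH u2).trans (Nat.mul_le_mul_right _ co.holes)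
  · exact (card_un fG fun f h => (nb3 _ (yG f h)).2.1).trans (Nat.mul_le_mul_right _ g2)

end Pool.Agent.MP_9d78a0_co.gm
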