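import Pool.Agent.MP_9d78a0_co.gm.HCur
import Pool.Agent.MP_9d78a0_co.gm.COp2

/-! Block H: a colouring of a face of a submap extends to the region of the face. -/

set_option autoImplicit false

namespace Pool.Agent.MP_9d78a0_co.gm.AD

open Set Function Cy FM HCur

variable {Φ V : Type} {M : FM Φ} {vx : Φ → V} {Z K : Set V} {f g g' : Φ}

/-- the edges with an end in `Z` -/
def E (M : FM Φ) (vx : Φ → V) (Z : Set V) : Set Φ := {x | vx x ∈ Z ∨ vx (M.a x) ∈ Z}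

theorem cl_E (hM : M.Ok) (hL : M.Lbl vx) : M.Cl (E M vx Z) := fun x hx h => by
  unfold E at h ⊢
  rw [mem_setOf_eq, mem_setOf_eq, hM.aa hx, hL.c hM hx, hL.ac hM hx]
  exact ⟨h.symm, h⟩

theorem sup4 (b : Φ → Φ) (x y : Φ) {A : Set Φ} (h : ∀ w ∈ A, (one b x + one b y) w ≠ 0) :
    A.ncard ≤ 4 := by
  have : A ⊆ {x, b x, y, b y} := fun w hw => by
    by_contra c
    simp only [mem_insert_iff, mem_singleton_iff, not_or] at c
    exact h w hw (wt0 (by tauto) (by tauto))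
  refine (ncard_le_ncard this (toFinite _)).trans ?_
  refine (ncard_insert_le _ _).trans (Nat.succ_le_succ ((ncard_insert_le _ _).trans
    (Nat.succ_le_succ ((ncard_insert_le _ _).trans (by simp)))))

/-- a chain of faces through the vertices of `Z` that passes each vertex once -/
theorem chain (hM : M.Ok) (hL : M.Lbl vx) (hZ : Z.Finite) : ∀ g ∈ M.S, ∀ g', M.R univ (E M vx Z) g g' →
    ∃ ob : Φ → ZMod 2, ∀ f ∈ M.S, Ev M.a M.b 0 (ob + (one M.b g + one M.b g')) f ∧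
      Ev M.b M.c ob 0 f ∧ (ob f ≠ 0 → vx f ∈ Z ∧ M.R univ (E M vx Z) g f) ∧
      ({x | x ∈ M.vo f ∧ ob x ≠ 0} : Set Φ).ncard ≤ 4 := by
  induction Z, hZ using Finite.induction_on with
  | empty =>
    intro g hg g' h
    refine ⟨0, fun f hf => ⟨?_, ev_zero fun _ _ => ⟨rfl, rfl⟩, fun k => (k rfl).elim, by simp⟩⟩
    rw [zero_add]
    exact ev_pair hM.fin hM.ia hM.ib hg (mem_fo.2 (h.mono subset_rfl fun x k => by simp [E] at k)) hf
  | @insert z Z hz _ ih =>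
    intro g hg g' h
    have mo : E M vx Z ⊆ E M vx (insert z Z) := fun x k => k.imp Or.inr Or.inr
    by_cases c : M.R univ (E M vx Z) g g'
    · obtain ⟨ob, k⟩ := ih g hg g' c
      exact ⟨ob, fun f hf => ⟨(k f hf).1, (k f hf).2.1, fun e => ⟨Or.inr ((k f hf).2.2.1 e).1,
        ((k f hf).2.2.1 e).2.mono subset_rfl mo⟩, (k f hf).2.2.2⟩⟩
    have first : ∀ x ∈ M.S, ∀ y, M.R univ (E M vx (insert z Z)) x y → M.R univ (E M vx Z) x y ∨
        ∃ w, vx w = z ∧ M.R univ (E M vx Z) x w := fun x hx y k =>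
      k.ind0 (p := fun y => M.R univ (E M vx Z) x y ∨ ∃ w, vx w = z ∧ M.R univ (E M vx Z) x w)
        (Or.inl .rfl) (fun _ e => e.imp_left R.b) (fun _ _ e => e.imp_left fun e => e.a trivial)
        fun w hw e => e.elim (fun e => by
          rcases hw with (k | k) | k | k
          exacts [Or.inr ⟨w, k, e⟩, Or.inl (e.c (Or.inl k)), Or.inr ⟨_, k, e.a trivial⟩,
            Or.inl (e.c (Or.inr k))]) Or.inr
    have sy : ∀ {Y : Set V} {x y : Φ}, x ∈ M.S → M.R univ (E M vx Y) x y → M.R univ (E M vx Y) y x :=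
      fun hx k => k.symm hM cl_univ (cl_E hM hL) hx
    have vt : ∀ {Y : Set V} {x y : Φ}, x ∈ M.S → y ∈ M.S → vx x ∈ Y → vx x = vx y →
        M.R univ (E M vx Y) x y := fun {Y x y} hx hy k e =>
      ((mem_vo.1 ((hL x hx y hy).1 e)).ind (p := fun w => vx w = vx x ∧ M.R univ (E M vx Y) x w)
        hM hx ⟨rfl, .rfl⟩ (fun w hw q => ⟨(hL.b hM hw).trans q.1, q.2.b⟩) (fun _ _ q => q.elim)
        fun w hw _ q => ⟨(hL.c hM hw).trans q.1, q.2.c (Or.inl (q.1 ▸ k))⟩).2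
    have hg' := h.mem hM hg
    obtain ⟨g1, z1, w1⟩ := (first g hg g' h).resolve_left c
    obtain ⟨g2, z2, w2⟩ := (first g' hg' g (sy hg h)).resolve_left fun k => c (sy hg' k)
    have m1 := w1.mem hM hg
    have m2 := w2.mem hM hg'
    obtain ⟨o1, k1⟩ := ih g hg g1 w1
    obtain ⟨o2, k2⟩ := ih g' hg' g2 w2
    have at_z : ∀ f ∈ M.S, (one M.b g1 + one M.b g2) f ≠ 0 → vx f = z := fun f _ e => by
      by_contra n
      refine e (wt0 ?_ ?_) <;> rintro (rfl | rfl)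
      exacts [n z1, n ((hL.b hM m1).trans z1), n z2, n ((hL.b hM m2).trans z2)]
    refine ⟨o1 + o2 + (one M.b g1 + one M.b g2), fun f hf => ⟨?_, ?_, fun e => ?_, ?_⟩⟩
    · refine ((k1 f hf).1.add (k2 f hf).1).congr fun y _ => ⟨rfl, rfl, (add_zero _).symm, ?_⟩
      simp only [Pi.add_apply]; ring
    · have := (ev_pair hM.fin hM.ic hM.ib m1 (g' := g2)
        (by rw [orb_comm]; exact (hL g1 m1 g2 m2).1 (z1.trans z2.symm)) hf).symm
      exact (((k1 f hf).2.1.add (k2 f hf).2.1).add this).congr fun y _ =>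
        ⟨rfl, rfl, rfl, by simp⟩
    · by_cases e1 : o1 f = 0
      · by_cases e2 : o2 f = 0
        · have := at_z f hf fun k => e (by rw [Pi.add_apply, Pi.add_apply, e1, e2, k]; rfl)
          exact ⟨Or.inl this, (w1.mono subset_rfl mo).trans
            (vt m1 hf (Or.inl z1) (z1.trans this.symm))⟩
        · exact ⟨Or.inr ((k2 f hf).2.2.1 e2).1, h.trans (((k2 f hf).2.2.1 e2).2.mono subset_rfl mo)⟩
      · exact ⟨Or.inr ((k1 f hf).2.2.1 e1).1, ((k1 f hf).2.2.1 e1).2.mono subset_rfl mo⟩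
    have hv : ∀ x ∈ M.vo f, x ∈ M.S ∧ vx x = vx f := fun x k => ⟨hM.vo_mem hf k, hL.of_vo hM hf k⟩
    have fin : ∀ o : Φ → ZMod 2, ({x | x ∈ M.vo f ∧ o x ≠ 0} : Set Φ).Finite := fun o =>
      hM.fin.subset fun x k => (hv x k.1).1
    by_cases e : vx f = z
    · refine sup4 M.b g1 g2 fun w k n => k.2 ?_
      have q := (hv w k.1).2.trans e
      have e1 : o1 w = 0 := by_contra fun n => hz (q ▸ ((k1 w (hv w k.1).1).2.2.1 n).1)
      have e2 : o2 w = 0 := by_contra fun n => hz (q ▸ ((k2 w (hv w k.1).1).2.2.1 n).1)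
      rw [Pi.add_apply, Pi.add_apply, e1, e2, n]; rfl
    have e0 : ∀ x ∈ M.vo f, (one M.b g1 + one M.b g2) x = 0 := fun x k =>
      by_contra fun n => e ((hv x k).2 ▸ at_z x (hv x k).1 n)
    by_cases e2 : ∀ x ∈ M.vo f, o2 x = 0
    · refine le_trans (ncard_le_ncard (fun x k => ?_) (fin o1)) (k1 f hf).2.2.2
      refine ⟨k.1, fun n => k.2 ?_⟩
      rw [Pi.add_apply, Pi.add_apply, n, e2 x k.1, e0 x k.1]; rfl
    · push Not at e2
      obtain ⟨y, hy, n2⟩ := e2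
      refine le_trans (ncard_le_ncard (fun x k => ?_) (fin o2)) (k2 f hf).2.2.2
      refine ⟨k.1, fun n => k.2 ?_⟩
      have e1 : o1 x = 0 := by_contra fun n1 => by
        have a1 := (k1 x (hv x k.1).1).2.2.1 n1
        have a2 := (k2 y (hv y hy).1).2.2.1 n2
        exact c (a1.2.trans ((vt (hv x k.1).1 (hv y hy).1 a1.1
          ((hv x k.1).2.trans (hv y hy).2.symm)).trans (sy hg' a2.2)))
      rw [Pi.add_apply, Pi.add_apply, n, e1, e0 x k.1]; rfl

/-- the colouring of the face extends to the map -/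
theorem colour (hM : M.Ok) (hL : M.Lbl vx) (hZ : Z.Finite) (hd : Disjoint Z K) {U F : Set Φ}
    (eU : U = M.ind vx K) (hc : (M.sub U).Con) (he : (M.sub U).eg = M.eg)
    (hcl : ∀ f ∈ M.S, vx f ∈ K → vx (M.a f) ∈ K ∪ Z) {p : Φ} (hp : p ∈ M.S)
    (hF : F = U ∩ M.reg U p) {ψ : Φ → ZMod 2} (ha : ∀ f ∈ F, ψ (M.a f) = ψ f)
    (hb : ({f | f ∈ F ∧ ψ ((M.sub U).b f) ≠ ψ f} : Set Φ).ncard ≤ 4) :
    ∃ (χ : Φ → ZMod 2) (G : Set Φ), (∀ f ∈ G, f ∈ F ∧ ψ ((M.sub U).b f) ≠ ψ f) ∧ G.ncard ≤ 2 ∧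
      (∀ f ∈ F, χ f = ψ f) ∧ ∀ f ∈ M.S, χ (M.a f) = χ f ∧ (f ∉ U → χ (M.c f) = χ f) ∧
        (χ (M.b f) ≠ χ f → vx f ∈ Z ∪ vx '' G) ∧
        (vx f ∈ Z → ({g | g ∈ M.vo f ∧ χ (M.b g) ≠ χ g} : Set Φ).ncard ≤ 4) := by
  classical
  have hU : M.Es U := eU ▸ es_ind hM hL K
  have h1 := hM.sub hU
  have sK : ∀ x ∈ M.sat U, vx x ∈ K := fun x k => vx_sat hM hL (eU ▸ k)
  have FU : F ⊆ U := hF ▸ inter_subset_left
  have Fa : ∀ x ∈ F, M.a x ∈ F := fun x k => by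
    rw [hF] at k ⊢; exact ⟨(hU.2 x k.1).1, mem_reg.2 ((mem_reg.1 k.2).a trivial)⟩
  have Fb : ∀ x ∈ F, (M.sub U).b x ∈ F := fun x k => by
    rw [hF] at k ⊢
    exact ⟨h1.b_mem k.1, mem_reg.2 ((mem_reg.1 k.2).trans
      ((sub_b_R hM hU k.1).mono (empty_subset _) subset_rfl))⟩
  have bb : ∀ x ∈ U, (M.sub U).b ((M.sub U).b x) = x := fun x k => h1.bb k
  generalize hb1 : (M.sub U).b = b1 at Fb bb hb
  obtain ⟨G, hG⟩ : ∃ G : Set Φ, ∀ x, x ∈ G ↔ x ∈ F ∧ ψ (b1 x) ≠ ψ x ∧ ψ x = 0 :=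
    ⟨{x | x ∈ F ∧ ψ (b1 x) ≠ ψ x ∧ ψ x = 0}, fun _ => Iff.rfl⟩
  have GU : G ⊆ U := fun x k => FU ((hG x).1 k).1
  have fU := hM.fin.subset hU.1
  have fG := fU.subset GU
  have cG : G.ncard ≤ 2 := by
    have k := ncard_union_eq (s := G) (t := b1 '' G) (disjoint_left.2 (by
      rintro _ k ⟨x, hx, rfl⟩
      exact ((hG x).1 hx).2.1 (((hG _).1 k).2.2.trans ((hG x).1 hx).2.2.symm))) fG (fG.image _)
    rw [ncard_image_of_injOn fun x hx y hy e => by rw [← bb x (GU hx), e, bb y (GU hy)]] at k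
    have : (G ∪ b1 '' G).ncard ≤ 4 := le_trans (ncard_le_ncard (by
      rintro x (k | ⟨x, k, rfl⟩) <;> have q := (hG _).1 k
      exacts [⟨q.1, q.2.1⟩, ⟨Fb x q.1, by rw [bb x (GU k)]; exact q.2.1.symm⟩])
      (fU.subset fun x k => FU k.1)) hb
    omega
  obtain ⟨i1, hi⟩ : ∃ i1 : Φ → ZMod 2, ∀ x, i1 x = if x ∈ G then 1 else 0 := ⟨_, fun _ => rfl⟩
  have i0 : ∀ x ∉ G, i1 x = 0 := fun x k => by rw [hi, if_neg k]
  obtain ⟨φ, p1, -, p2⟩ := minor_ext hM hU cl_empty (fun x => if x ∈ F then ψ x + i1 x else 0)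
    (fun x hx => by
      change (if (M.sub U).b x ∈ F then ψ ((M.sub U).b x) + i1 ((M.sub U).b x) else 0) = _
      rw [hb1]
      by_cases k : x ∈ F
      · rw [if_pos k, if_pos (Fb x k), hi, hi, hG, hG, bb x hx]
        simp only [k, Fb x k, true_and]
        generalize ψ x = u, ψ (b1 x) = w
        revert u w; decide
      · rw [if_neg k, if_neg fun e => k (bb x hx ▸ Fb _ e)]) 0
  have x0 : ∀ x ∈ U, (φ + i1) x = if x ∈ F then ψ x else 0 := fun x hx => by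
    rw [Pi.add_apply, p1 x hx]
    split_ifs with k
    · rw [add_assoc, z2_add_self, add_zero]
    · rw [zero_add, i0 x fun e => k ((hG x).1 e).1]
  obtain ⟨ob, ho⟩ : ∃ ob : Φ → ZMod 2, ∀ f ∈ M.S, Ev M.a M.b 0 (ob + fun x => i1 (M.b x) + i1 x) f ∧
      Ev M.b M.c ob 0 f ∧ (ob f ≠ 0 → vx f ∈ Z) ∧
      ({x | x ∈ M.vo f ∧ ob x ≠ 0} : Set Φ).ncard ≤ 4 := by
    have rg : ∀ x ∈ F, ∀ y, y ∈ (M.sub U).fo x ↔ y ∈ F := fun x hx y => by
      rw [← (regS Φ M U hM hU hc he).2 x (FU hx), (regBC Φ M U hM hU p hp).2.1 x (hF ▸ hx).2, hF,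
        inter_comm]
    obtain e | e | e : G.ncard = 0 ∨ G.ncard = 1 ∨ G.ncard = 2 := by omega
    · rw [ncard_eq_zero fG] at e
      refine ⟨0, fun f _ => ⟨ev_zero fun y _ => ⟨rfl, ?_⟩, ev_zero fun _ _ => ⟨rfl, rfl⟩,
        fun k => (k rfl).elim, by simp⟩⟩
      simp [hi, e]
    · obtain ⟨z, e⟩ := ncard_eq_one.1 e
      have q := (hG z).1 (e ▸ mem_singleton z)
      refine (q.2.1 ?_).elim
      rw [← hb1]
      refine eq_of_cut h1.fin h1.ia h1.ib (FU q.1) (φ := ψ) (fun y k => ha y ((rg z q.1 y).1 k))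
        (fun y k n1 n2 => by_contra fun n => ?_) (orb_q (orb_self ..))
      have m := (rg z q.1 y).1 k
      rw [hb1] at n n2
      rcases z2_cases (ψ y) with r | r
      · exact n1 (by simpa [e] using (hG y).2 ⟨m, n, r⟩)
      · have : b1 y = z := by
          simpa [e] using (hG (b1 y)).2 ⟨Fb y m, by rw [bb y (FU m)]; exact Ne.symm n,
            (z2_cases _).resolve_right fun s => n (s.trans r.symm)⟩
        exact n2 (by rw [← this, bb y (FU m)])
    · obtain ⟨y, z, ne, e⟩ := ncard_eq_two.1 e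
      have qy := ((hG y).1 (by simp [e])).1
      have qz := ((hG z).1 (by simp [e])).1
      have my := hU.1 (FU qy)
      have mz := hU.1 (FU qz)
      have w := (sub_R hM hU (FU qy) (FU qz)).1 (mem_fo.1 ((rg y qy z).2 qz))
      obtain ⟨ob, k⟩ := chain hM hL hZ y my z
        (w.ind (p := fun x => x ∈ M.sat U ∧ M.R univ (E M vx Z) y x) hM my ⟨sub_sat (FU qy), .rfl⟩
          (fun x _ k => ⟨sat_b k.1, k.2.b⟩)
          (fun x _ m k => ⟨sub_sat (hU.2 x m.2).1, k.2.a trivial⟩)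
          fun x hx m k => ⟨sat_c k.1, k.2.c (Or.inr ((hcl x hx (sK x k.1)).resolve_left fun n =>
            m.elim id fun m => m (eU ▸ ⟨hx, sK x k.1, n⟩)))⟩).2
      refine ⟨ob, fun f hf => ⟨(k f hf).1.congr fun x hx => ⟨rfl, rfl, rfl, ?_⟩, (k f hf).2.1,
        fun n => ((k f hf).2.2.1 n).1, (k f hf).2.2.2⟩⟩
      have mx := hM.fo_mem hf hx
      have e1 := hM.bb mx
      have e2 := hM.bb my
      have e3 := hM.bb mz
      have e4 := hM.b_ne mx
      have one' : ∀ w ∈ M.S, one M.b w x =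
          (if M.b x = w then 1 else 0) + if x = w then 1 else 0 := fun w hw => by
        have e5 := hM.bb hw
        unfold one
        by_cases c1 : x = w <;> by_cases c2 : M.b x = w
        · exact (e4 (c2.trans c1.symm)).elim
        · rw [if_pos (Or.inl c1), if_neg c2, if_pos c1, zero_add]
        · rw [if_pos (Or.inr (by rw [← c2, e1])), if_pos c2, if_neg c1, add_zero]
        · rw [if_neg (by grind), if_neg c2, if_neg c1, add_zero]
      have i2 : ∀ w, i1 w = (if w = y then 1 else 0) + if w = z then 1 else 0 := fun w => by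
        rw [hi, e]
        by_cases c1 : w = y <;> by_cases c2 : w = z <;> simp_all
      simp only [Pi.add_apply, one' y my, one' z mz, i2]
      ring
  have o0 : ∀ x ∈ M.sat U, ob x = 0 := fun x k => by_contra fun n =>
    disjoint_left.1 hd ((ho x (sat_sub hM hU.1 k)).2.2.1 n) (sK x k)
  have q1 : Pot U M.a 0 (φ + i1) := fun x hx => by
    rw [x0 x hx, x0 _ (hU.2 x hx).1, Pi.zero_apply, add_zero]
    by_cases k : x ∈ F
    · rw [if_pos k, if_pos (Fa x k), ha x k]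
    · rw [if_neg k, if_neg fun e => k (hM.aa (hU.1 hx) ▸ Fa _ e)]
  have q2 : Pot (M.sat U) M.b (ob + fun x => i1 (M.b x) + i1 x) (φ + i1) := fun x hx => by
    simp only [Pi.add_apply, (p2 x (sat_sub hM hU.1 hx)).1, o0 x hx]
    generalize φ x = u, i1 x = v, i1 (M.b x) = w
    revert u v w; decide
  obtain ⟨oc, hoc⟩ : ∃ oc : Φ → ZMod 2, ∀ x, oc x =
    if x ∈ U then (φ + i1) (M.c x) + (φ + i1) x else 0 := ⟨_, fun _ => rfl⟩
  have c0 : ∀ x ∉ U, oc x = 0 := fun x k => by rw [hoc, if_neg k]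
  have q3 : Pot (M.sat U) M.c oc (φ + i1) := fun x hx => by
    have mx := sat_sub hM hU.1 hx
    by_cases k : x ∈ U
    · rw [hoc, if_pos k, add_comm ((φ + i1) (M.c x)), ← add_assoc, z2_add_self, zero_add]
    · rw [c0 x k, add_zero, Pi.add_apply, Pi.add_apply, (p2 x mx).2.2 ⟨k, id⟩, i0 x fun e => k (GU e),
        i0 _ fun e => k ((hU.cl.c_iff hM mx).1 (GU e))]
  have ns : ∀ f ∈ M.S, f ∉ M.sat U → ∀ x ∈ M.vo f, x ∉ M.sat U := fun f hf n x hx ⟨w, hw, k⟩ =>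
    n ⟨w, hw, orb_trans k (hM.vo_symm hf hx)⟩
  have b0 : ∀ x ∉ M.sat U, x ∈ M.S → i1 (M.b x) + i1 x = 0 := fun x n hx => by
    rw [i0 x fun e => n (sub_sat (GU e)), i0 _ fun e => n (hM.bb hx ▸ sat_b (sub_sat (GU e))), add_zero]
  obtain ⟨χ, r1, r2, r3, r4⟩ := extC Φ M U 0 _ oc (φ + i1) hM hU hc he (fun f hf => by
      by_cases k : f ∈ U
      · have : M.eo f ⊆ U := fun x hx => orb_ind (P := (· ∈ U)) hx k (fun z q => (hU.2 z q).1)
          fun z q => (hU.2 z q).2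
        exact ⟨φ + i1, q1.mono this, q3.mono (this.trans sub_sat)⟩
      · refine ev_zero fun x hx => ⟨rfl, c0 x ?_⟩
        exact (orb_ind (P := fun x => x ∈ M.S ∧ x ∉ U) hx ⟨hf, k⟩
          (fun z q => ⟨hM.a_mem q.1, fun e => q.2 ((hU.cl.a_iff hM q.1).1 e)⟩)
          fun z q => ⟨hM.c_mem q.1, fun e => q.2 ((hU.cl.c_iff hM q.1).1 e)⟩).2)
    (fun f hf => (ho f hf).1) (fun f hf _ _ => Or.inl (by
      by_cases k : f ∈ M.sat U
      · have : M.vo f ⊆ M.sat U := fun x hx => orb_ind (P := (· ∈ M.sat U)) hx k (fun _ => sat_b)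
          fun _ => sat_c
        exact ⟨φ + i1, q2.mono this, q3.mono this⟩
      · exact (ho f hf).2.1.congr fun x hx => ⟨rfl, rfl, by
          rw [Pi.add_apply, b0 x (ns f hf k x hx) (hM.vo_mem hf hx), add_zero],
          c0 x fun e => ns f hf k x hx (sub_sat e)⟩)) q1 q2 q3
  refine ⟨χ, G, fun f k => ⟨((hG f).1 k).1, ((hG f).1 k).2.1⟩, cG,
    fun f k => by rw [r4 f (sub_sat (FU k)), x0 f (FU k), if_pos k],
    fun f hf => ⟨by rw [r1 f hf, Pi.zero_apply, add_zero], fun k => by rw [r3 f hf, c0 f k, add_zero],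
    fun k => by_contra fun n => k ?_, fun k => le_trans (ncard_le_ncard (fun x q => ?_)
      (hM.fin.subset fun x q => hM.vo_mem hf q.1)) (ho f hf).2.2.2⟩⟩
  · have e1 : ob f = 0 := by_contra fun e => n (Or.inl ((ho f hf).2.2.1 e))
    rw [r2 f hf, Pi.add_apply, e1, i0 f fun e => n (Or.inr ⟨f, e, rfl⟩),
      i0 _ fun e => n (Or.inr ⟨_, e, hL.b hM hf⟩)]
    simp
  · refine ⟨q.1, fun e => q.2 ?_⟩
    have mx := hM.vo_mem hf q.1
    rw [r2 x mx, Pi.add_apply, e, b0 x (ns f hf (fun s => disjoint_left.1 hd k (sK f s)) x q.1) mx]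
    simp

/-- at a vertex of degree three at most every edge is next to a given edge -/
theorem near (hM : M.Ok) (hf : f ∈ M.S) (h6 : (M.vo f).ncard ≤ 6) (hg : g ∈ M.vo f) :
    ∃ x, (x = g ∨ x = M.c g) ∧ (x = f ∨ x = M.b f ∨ x = M.b (M.c f)) := by
  obtain ⟨-, -, h1, h2, -, -, h3⟩ := rot_enum hM hf
  obtain ⟨i, hi, e⟩ := h3 g hg
  have key : ∀ y ∈ M.S, g = y ∨ g = M.c y → y = g ∨ y = M.c g := fun y hy k =>
    k.imp Eq.symm fun k => by rw [k, hM.cc hy]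
  obtain rfl | rfl | rfl : i = 0 ∨ i = 1 ∨ i = 2 := by omega
  · exact ⟨f, key f hf e, Or.inl rfl⟩
  · refine ⟨M.b f, key _ (hM.b_mem hf) (e.symm.imp_left fun k => ?_), Or.inr (Or.inl rfl)⟩
    rw [k]; exact hM.cc (hM.b_mem hf)
  · refine ⟨_, key _ (hM.vo_mem hf (h2 2)) e, Or.inr (Or.inr ?_)⟩
    rw [show (M.vo f).ncard / 2 = 2 + 1 by omega, iterate_succ_apply'] at h1
    have m := hM.vo_mem hf (h2 2)
    rw [← congrArg (fun x => M.b (M.c x)) h1, rot, hM.cc (hM.b_mem m), hM.bb m]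

end Pool.Agent.MP_9d78a0_co.gm.AD
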