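import Pool.Agent.MP_9d78a0_co.gm.RCh1
import Pool.Agent.MP_9d78a0_co.gm.RNewC
import Pool.Agent.MP_9d78a0_co.gm.RNew
import Pool.Agent.MP_9d78a0_co.gm.RWordC
import Pool.Agent.MP_9d78a0_co.gm.SpecH2
import Pool.Agent.MP_9d78a0_co.gm.JWf
import Pool.Agent.MP_9d78a0_co.gm.COp2
import Pool.Agent.MP_9d78a0_co.gm.HCur
import Pool.Agent.MP_9d78a0_co.gm.OpMerge
import Pool.Agent.MP_9d78a0_co.gm.HSurgC

-- ======== part 0: formerly Pool.Agent.MP_9d78a0_co.gm.RCh2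
section MrgPart0

/-! The skeleton of a model of a grid in a map. -/

set_option autoImplicit false

namespace Pool.Agent.MP_9d78a0_co.gm

open Set Function Relation Cy fb

namespace FM

variable {Φ V : Type} {M : FM Φ} {vx : Φ → V} {H VB : Set V} {cl : V → ℕ × ℕ} {E C : Set Φ}
  {g : ℕ} {f x y e : Φ}

theorem adj_flag (hM : M.Ok) {u v : V} (h : (M.gph vx).Adj u v) :
    ∃ f ∈ M.S, vx f = u ∧ vx (M.a f) = v :=
  let ⟨_, x, hx, e⟩ := h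
  e.elim (⟨x, hx, ·⟩) fun e => ⟨M.a x, hM.a_mem hx, e.2, by rw [hM.aa hx, e.1]⟩

/-- trees `C` in the cells and one edge in `E` for every edge of the grid -/
structure Skl (M : FM Φ) (vx : Φ → V) (VB : Set V) (cl : V → ℕ × ℕ) (g : ℕ) (E C : Set Φ) :
    Prop where
  ok : M.Ok
  lbl : M.Lbl vx
  esE : M.Es E
  esC : M.Es C
  br : ∀ e ∈ C, M.BrIn C e
  inC : ∀ f ∈ C, vx f ∈ VB ∧ cl (vx (M.a f)) = cl (vx f)
  inE : ∀ f ∈ E, vx f ∈ VB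
  bd : ∀ v ∈ VB, (cl v).1 < g ∧ (cl v).2 < g
  walk : ∀ x ∈ M.S, ∀ y ∈ M.S, vx x ∈ VB → vx y ∈ VB → cl (vx x) = cl (vx y) → M.R C Cᶜ x y
  grd : (M.minor E C).GM (fun f => cl (vx f)) g

theorem exists_skl (hM : M.Ok) (hL : M.Lbl vx) (hg : 2 ≤ g) {T : Set V}
    {B : Fin g × Fin g → Set V} (hB : Model (grid g) (M.gph vx) T B) :
    ∃ cl E C, M.Skl vx (⋃ p, B p) cl g E C ∧ ∀ p, ∀ v ∈ B p, cl v = (p.1.1, p.2.1) := by
  classical
  obtain ⟨-, b2, b3, b4⟩ := hB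
  let cl : V → ℕ × ℕ := fun v => if h : ∃ p, v ∈ B p then (h.choose.1.1, h.choose.2.1) else 0
  have hcl : ∀ p, ∀ v ∈ B p, cl v = (p.1.1, p.2.1) := fun p v hv => by
    have h : ∃ p, v ∈ B p := ⟨p, hv⟩
    have : h.choose = p := by
      by_contra c
      exact disjoint_left.1 (b3 _ _ c) h.choose_spec hv
    simp only [cl, dif_pos h, this]
  have same : ∀ p, ∀ u ∈ B p, ∀ v ∈ ⋃ p, B p, cl u = cl v → v ∈ B p := by
    intro p u hu v hv e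
    obtain ⟨q, hq⟩ := mem_iUnion.1 hv
    rw [hcl p u hu, hcl q v hq, Prod.ext_iff] at e
    exact (Prod.ext (Fin.ext e.1) (Fin.ext e.2) : p = q) ▸ hq
  have hD : M.Es {f | f ∈ M.S ∧ ∃ p, vx f ∈ B p ∧ vx (M.a f) ∈ B p} :=
    ⟨fun _ k => k.1, fun f ⟨k, p, a, b⟩ => ⟨⟨hM.a_mem k, p, b, by rwa [hM.aa k]⟩, hM.c_mem k, p,
      by rwa [hL.c hM k], by rwa [hL.ac hM k]⟩⟩
  obtain ⟨C, c1, c2, c3, c4⟩ := spanS Φ M _ hM hD
  have inC : ∀ f ∈ C, vx f ∈ (⋃ p, B p) ∧ cl (vx (M.a f)) = cl (vx f) := fun f k =>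
    let ⟨_, p, a, b⟩ := c1 k; ⟨mem_iUnion.2 ⟨p, a⟩, by rw [hcl p _ a, hcl p _ b]⟩
  have t0 := (treeS Φ V M vx ∅ C hM hL es_empty c2 (empty_subset _) fun e k => c3 e k.1).2.2.1
  have walk : ∀ x ∈ M.S, ∀ y ∈ M.S, vx x ∈ (⋃ p, B p) → vx y ∈ (⋃ p, B p) →
      cl (vx x) = cl (vx y) → M.R C Cᶜ x y := by
    intro x hx y hy h1 h2 e
    obtain ⟨p, hp⟩ := mem_iUnion.1 h1
    have := Gph.pull (R := CSpan.St M {f | f ∈ M.S ∧ ∃ p, vx f ∈ B p ∧ vx (M.a f) ∈ B p}) hM hL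
      (fun x _ _ y k => ReflTransGen.mono (fun _ _ l => l.imp_right Or.inl) _ _ k)
      (fun x k a b => Or.inr (Or.inr ⟨⟨k, p, a, b⟩, rfl⟩)) hx hp
      ((b2 p).2 _ hp _ (same p _ hp _ h2 e)) y hy rfl
    rw [← CSpan.co_iff, ← c4 x hx, CSpan.co_iff] at this
    clear hy h2 e
    induction this with
    | refl => exact .rfl
    | @tail z _ _ k ih =>
      rcases k with rfl | rfl | ⟨k, rfl⟩
      · exact ih.b
      · by_cases c : z ∈ C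
        exacts [ih.trans (gh_fo.1 (t0 z ⟨c, id⟩)), ih.c c]
      · exact ih.a k
  let κ : Φ → ℕ × ℕ := fun f => cl (vx f)
  let X : Set Φ := {f | f ∈ M.S ∧ vx f ∈ (⋃ p, B p) ∧ vx (M.a f) ∈ (⋃ p, B p) ∧
    gridN.Adj (κ f) (κ (M.a f))}
  let m : Φ → ℕ × ℕ := fun f => κ f + κ (M.a f)
  have kc : ∀ f ∈ M.S, κ (M.c f) = κ f ∧ κ (M.a (M.c f)) = κ (M.a f) := fun f k =>
    ⟨congrArg cl (hL.c hM k), congrArg cl (hL.ac hM k)⟩
  have hX : ∀ f ∈ X, (M.a f ∈ X ∧ m (M.a f) = m f) ∧ M.c f ∈ X ∧ m (M.c f) = m f :=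
    fun f ⟨k, a, b, c⟩ => ⟨⟨⟨hM.a_mem k, b, by rwa [hM.aa k], by rw [hM.aa k]; exact c.symm⟩, by
      simp only [m, hM.aa k, add_comm]⟩, ⟨hM.c_mem k, by rwa [hL.c hM k], by rwa [hL.ac hM k], by
        rwa [(kc f k).1, (kc f k).2]⟩, by simp only [m, (kc f k).1, (kc f k).2]⟩
  have : ∀ z : ℕ × ℕ, ∃ K : Set Φ, ∀ f ∈ X, m f = z → ∃ r ∈ X, m r = z ∧ K = M.eo r := fun z => by
    by_cases c : ∃ r ∈ X, m r = z
    · obtain ⟨r, a, b⟩ := c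
      exact ⟨_, fun _ _ _ => ⟨r, a, b, rfl⟩⟩
    · exact ⟨∅, fun f a b => absurd ⟨f, a, b⟩ c⟩
  choose K hK using this
  have hE : M.Es {f | f ∈ X ∧ f ∈ K (m f)} := ⟨fun _ k => k.1.1, fun f ⟨a, b⟩ => by
    obtain ⟨r, -, -, l⟩ := hK _ f a rfl
    exact ⟨⟨(hX f a).1.1, by rw [(hX f a).1.2, l]; exact orb_p (l ▸ b :)⟩, (hX f a).2.1, by
      rw [(hX f a).2.2, l]; exact orb_q (l ▸ b :)⟩⟩
  have dj : ∀ f ∈ X, f ∉ C := fun f a b => a.2.2.2.ne (inC f b).2.symm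
  have bd : ∀ v ∈ ⋃ p, B p, (cl v).1 < g ∧ (cl v).2 < g := fun v hv => by
    obtain ⟨p, hp⟩ := mem_iUnion.1 hv
    rw [hcl p v hp]
    exact ⟨p.1.2, p.2.2⟩
  refine ⟨cl, _, C, ⟨hM, hL, hE, c2, c3, inC, fun f k => k.1.2.1, bd, walk, hM.minorC hE c2.cl,
    fun f hf f' hf' => ?_, hg, fun f k => bd _ k.1.2.1, fun f k => k.1.2.2.2,
    fun f hf f' hf' e1 e2 => ?_, fun p q p1 p2 q1 q2 a => ?_⟩, hcl⟩
  · rw [mem_vo, minor_R hM hE c2.cl hf hf']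
    refine ⟨fun e => (walk f hf.1.1 f' hf'.1.1 hf.1.2.1 hf'.1.2.1 e).mono
      (fun z k => Or.inr ⟨k, fun l => dj z l.1 k⟩) fun z k => ?_, fun k => ?_⟩
    · by_cases c : z ∈ {f | f ∈ X ∧ f ∈ K (m f)}
      exacts [Or.inl ⟨trivial, c⟩, Or.inr ⟨c, k⟩]
    · exact (k.eq (φ := κ) hM hf.1.1 (fun z k => congrArg cl (hL.b hM k))
        (fun z _ k => (inC z (k.elim (·.1.elim) (·.1))).2) fun z k _ => (kc z k).1).symm
  · obtain ⟨r, a, -, l⟩ := hK _ f hf.1 rfl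
    have e3 : m f' = m f := by simp only [m]; exact congrArg₂ _ e1.symm e2.symm
    have k : f' ∈ M.eo f := by
      rw [hM.eo_eq a.1 (l ▸ hf.2 :), ← l, ← e3]
      exact hf'.2
    have n := hf.1.2.2.2.ne
    rcases (mem_eo hM hf.1.1).1 k with l | l | l | l
    · exact Or.inl l
    · exact absurd (l ▸ e1 :) n
    · exact Or.inr l
    · exact absurd (e1.trans (l ▸ (kc f hf.1.1).2 :)) n
  · obtain ⟨u, hu, v, hv, k⟩ := b4 (⟨p.1, p1⟩, ⟨p.2, p2⟩) (⟨q.1, q1⟩, ⟨q.2, q2⟩) a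
    obtain ⟨x, hx, rfl, rfl⟩ := adj_flag hM k
    have x1 : κ x = p := hcl _ _ hu
    have x2 : κ (M.a x) = q := hcl _ _ hv
    obtain ⟨r, r1, r2, l⟩ := hK _ x ⟨hx, mem_iUnion.2 ⟨_, hu⟩, mem_iUnion.2 ⟨_, hv⟩, by
      rwa [x1, x2]⟩ rfl
    have rE : r ∈ {f | f ∈ X ∧ f ∈ K (m f)} := ⟨r1, by rw [r2, l]; exact orb_self _ _ _⟩
    have a' := r1.2.2.2
    have : (κ r = p ∧ κ (M.a r) = q) ∨ (κ (M.a r) = p ∧ κ r = q) := by
      simp only [m, x1, x2, gridN, Prod.ext_iff, Prod.fst_add, Prod.snd_add] at r2 a a' ⊢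
      omega
    rcases this with k | k
    · exact ⟨r, rE, k⟩
    · exact ⟨M.a r, (hE.2 r rE).1, k.1, by rw [minor_a, hM.aa r1.1]; exact k.2⟩

namespace Skl

variable (h : M.Skl vx VB cl g E C)
include h

theorem esU : M.Es (E ∪ C) := h.esE.union h.esC

theorem dj (he : e ∈ E) : e ∉ C := fun k => (h.grd.adj e he).ne (h.inC e k).2.symm

theorem inU (he : e ∈ E ∪ C) : vx e ∈ VB := he.elim (h.inE e) fun k => (h.inC e k).1

/-- faces of the grid map, seen in the map -/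
theorem fo_iff (hx : x ∈ E) (hy : y ∈ E) :
    y ∈ (M.minor E C).fo x ↔ M.R (E ∪ C) (E ∪ C)ᶜ x y := by
  rw [mem_fo, minor_R h.ok h.esE h.esC.cl hx hy, univ_inter, union_sdiff_self, empty_inter,
    empty_union, compl_union, sdiff_eq]

theorem cell_eq {Q : Set Φ} (hx : x ∈ M.S) (k : M.R C Q x y) : cl (vx y) = cl (vx x) :=
  k.eq (φ := fun f => cl (vx f)) h.ok hx (fun _ k => congrArg cl (h.lbl.b h.ok k))
    (fun z _ k => (h.inC z k).2) fun _ k _ => congrArg cl (h.lbl.c h.ok k)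

theorem exE {p : ℕ × ℕ} (h1 : p.1 < g) (h2 : p.2 < g) : ∃ e ∈ E, cl (vx e) = p := by
  have := h.grd.two
  obtain ⟨e, a, b, -⟩ := h.grd.full p (if p.1 = 0 then 1 else p.1 - 1, p.2) h1 h2
    (by split_ifs <;> simp only <;> omega) h2
    (by simp only [gridN, true_and]; split_ifs <;> omega)
  exact ⟨e, a, b⟩

/-- from a flag at a cell to a flag of the grid map -/
theorem toE (hf : f ∈ M.S) (hv : vx f ∈ VB) : ∃ e ∈ E, M.R C (E ∪ C)ᶜ f e := by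
  obtain ⟨e, he, l⟩ := h.exE (h.bd _ hv).1 (h.bd _ hv).2
  have := (h.walk f hf e (h.esE.1 he) hv (h.inE e he) l.symm).ind0
    (p := fun z => (∃ e ∈ E, M.R C (E ∪ C)ᶜ f e) ∨ M.R C (E ∪ C)ᶜ f z) (Or.inr .rfl)
    (fun _ k => k.imp_right R.b) (fun _ a k => k.imp_right (·.a a)) fun z a k => by
      by_cases c : z ∈ E
      exacts [Or.inl (k.elim id fun k => ⟨z, c, k⟩), k.imp_right (·.c fun l => l.elim c a)]
  exact this.elim id fun k => ⟨e, he, k⟩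

theorem sat (hf : f ∈ M.S) (hv : vx f ∈ VB) : f ∈ M.sat (E ∪ C) := by
  by_contra c
  have n : ∀ z ∈ M.vo f, z ∉ E ∪ C := fun z k l => c ⟨z, l, h.ok.vo_symm hf k⟩
  obtain ⟨e, he, k⟩ := h.toE hf hv
  exact n e (k.ind0 (p := (· ∈ M.vo f)) (orb_self _ _ _) (fun _ => orb_p)
    (fun z a l => absurd (Or.inr a) (n z l)) fun _ _ => orb_q) (Or.inl he)

theorem vo_reg (hf : f ∈ M.S) (hv : vx f ∉ VB) (hy : y ∈ M.S) (k : vx y = vx f) :
    M.R ∅ (E ∪ C)ᶜ f y := by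
  have n : ∀ z ∈ M.vo f, z ∉ E ∪ C := fun z k l => hv (h.lbl.of_vo h.ok hf k ▸ h.inU l)
  exact (orb_ind (P := fun z => z ∈ M.vo f ∧ M.R ∅ (E ∪ C)ᶜ f z) ((h.lbl f hf y hy).1 k.symm)
    ⟨orb_self _ _ _, .rfl⟩ (fun _ k => ⟨orb_p k.1, k.2.b⟩)
    fun z k => ⟨orb_q k.1, k.2.c (n z k.1)⟩).2

theorem con : (M.sub (E ∪ C)).Con := by
  have := h.grd.two
  obtain ⟨e0, h0, l0⟩ := h.exE (p := (0, 0)) (by omega) (by omega)
  have w : ∀ x ∈ M.S, ∀ y ∈ M.S, vx x ∈ VB → vx y ∈ VB → cl (vx x) = cl (vx y) →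
      M.R (E ∪ C) univ x y := fun x a y b c d e =>
    (h.walk x a y b c d e).mono subset_union_right (subset_univ _)
  have key : ∀ n, ∀ x ∈ M.S, vx x ∈ VB → (cl (vx x)).1 + (cl (vx x)).2 = n →
      M.R (E ∪ C) univ e0 x := by
    intro n
    induction n with
    | zero => exact fun x a b c => w _ (h.esE.1 h0) x a (h.inE _ h0) b (by
        rw [l0, Prod.ext_iff]; simp only; omega)
    | succ n ih =>
      intro x a b c
      have d := h.bd _ b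
      obtain ⟨q, q1, q2, q3, q4⟩ : ∃ q : ℕ × ℕ, q.1 < g ∧ q.2 < g ∧ gridN.Adj q (cl (vx x)) ∧
          q.1 + q.2 = n := by
        by_cases c : (cl (vx x)).1 = 0
        · exact ⟨(0, n), by simp only [gridN]; omega⟩
        · exact ⟨((cl (vx x)).1 - 1, (cl (vx x)).2), by simp only [gridN, true_and]; omega⟩
      obtain ⟨e, he, e1, e2⟩ := h.grd.full q _ q1 q2 d.1 d.2 q3
      have ae := (h.esE.2 e he).1
      exact ((ih e (h.esE.1 he) (h.inE e he) (e1 ▸ q4 :)).a (Or.inl he)).trans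
        (w _ (h.esE.1 ae) x a (h.inE _ ae) b e2)
  intro x hx y hy
  rw [mem_co, sub_R h.ok h.esU hx hy, univ_inter, univ_union]
  exact ((key _ x (h.esU.1 hx) (h.inU hx) rfl).symm h.ok h.esU.cl cl_univ (h.esE.1 h0)).trans
    (key _ y (h.esU.1 hy) (h.inU hy) rfl)

theorem bad_le {k q : ℕ} (hk : M.eg ≤ k) (hq : (H ∩ vx '' M.S).ncard ≤ q) (hH : Disjoint H VB) :
    {e | e ∈ E ∧ ¬ ((M.minor E C).Sq e ∧ M.Good vx H (E ∪ C) e)}.ncard ≤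
      72 * (g + k) + 8 * (k + q) := by
  classical
  have h1 := h.grd.bad_le (((monoS Φ M h.ok).2 E C h.esE h.esC).trans hk)
  have h2 := goodS k q Φ V M vx H _ h.ok h.lbl hk hq h.esU h.con
    (hH.mono_right (by rintro _ ⟨x, a, rfl⟩; exact h.inU a))
  have fin : E.Finite := h.ok.fin.subset h.esE.1
  obtain ⟨A, hA⟩ := (fin.subset (fun _ k => k.1 :
    {e | e ∈ E ∧ (M.minor E C).Sq e ∧ ¬ M.Good vx H (E ∪ C) e} ⊆ E)).exists_finset_coe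
  have h3 : A.card ≤ 8 * (A.image (M.sub (E ∪ C)).fo).card := by
    refine Finset.card_le_mul_card_image _ _ fun K hK => ?_
    obtain ⟨f, hf, rfl⟩ := Finset.mem_image.1 hK
    have f1 : f ∈ E ∧ _ := (hA ▸ Finset.mem_coe.2 hf :)
    refine le_trans (Finset.card_le_card fun x hx => List.mem_toFinset.2
      (GM.sq_face h.grd.ok f1.1 f1.2.1 ?_)) (List.toFinset_card_le _)
    have x1 : x ∈ E ∧ _ := (hA ▸ Finset.mem_coe.2 (Finset.mem_filter.1 hx).1 :)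
    have : x ∈ (M.sub (E ∪ C)).fo f := (Finset.mem_filter.1 hx).2 ▸ orb_self _ _ _
    rwa [mem_fo, sub_R h.ok h.esU (Or.inl f1.1) (Or.inl x1.1), univ_inter, empty_union,
      ← h.fo_iff f1.1 x1.1] at this
  have h4 : (A.image (M.sub (E ∪ C)).fo).card ≤ k + q := by
    rw [← ncard_coe_finset, Finset.coe_image, hA]
    refine le_trans (ncard_le_ncard (image_mono fun x a => ?_)
      ((h.ok.fin.subset fun _ a => h.esU.1 a.1).image _)) h2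
    exact ⟨Or.inl a.1, a.2.2⟩
  refine (ncard_le_ncard (t := {f | f ∈ (M.minor E C).S ∧ ¬ (M.minor E C).Sq f} ∪ A)
    (fun x a => ?_) ((fin.subset fun _ k => k.1).union A.finite_toSet)).trans
    ((ncard_union_le _ _).trans (by rw [ncard_coe_finset]; omega))
  by_cases c : (M.minor E C).Sq x
  · right
    rw [hA]
    exact ⟨a.1, c, fun l => a.2 ⟨c, l⟩⟩
  · exact Or.inl ⟨a.1, c⟩

/-- the cells in a good region -/
theorem face_of (he : e ∈ E) (hg : M.Good vx H (E ∪ C) e) (hf : f ∈ M.reg (E ∪ C) e)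
    (hv : vx f ∈ VB) : M.R (E ∪ C) (E ∪ C)ᶜ e f :=
  gh_fo.1 (hg.face ⟨hf, h.sat ((mem_reg.1 hf).mem h.ok (h.esE.1 he)) hv⟩)

theorem cell_of (he : e ∈ E) (hg : M.Good vx H (E ∪ C) e) (hf : f ∈ M.reg (E ∪ C) e)
    (hv : vx f ∈ VB) : ∃ x ∈ (M.minor E C).fo e, cl (vx x) = cl (vx f) := by
  have fS := (mem_reg.1 hf).mem h.ok (h.esE.1 he)
  obtain ⟨x, a, b⟩ := h.toE fS hv
  exact ⟨x, (h.fo_iff he a).2 ((h.face_of he hg hf hv).trans (b.mono subset_union_right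
    Subset.rfl)), h.cell_eq fS b⟩

/-- a potential on the cells of a block that fits the good squares -/
theorem pot {I J L : ℕ} (hI : I + L < g) (hJ : J + L < g)
    (hb : ∀ e ∈ E, I ≤ (cl (vx e)).1 → (cl (vx e)).1 < I + L → J ≤ (cl (vx e)).2 →
      (cl (vx e)).2 < J + L → (M.minor E C).Sq e ∧ M.Good vx H (E ∪ C) e)
    {β : Φ → ZMod 2} (hβ : M.Adm vx H β) : ∃ ψ : V → ZMod 2, ∀ e ∈ E, M.Good vx H (E ∪ C) e →
      ∀ r c, (M.minor E C).Box (fun f => cl (vx f)) e r c → I ≤ r → r < I + L → J ≤ c → c < J + L →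
      ∃ χ, Pot (M.reg (E ∪ C) e) M.a β χ ∧ Pot (M.reg (E ∪ C) e) M.b 0 χ ∧
        Pot (M.reg (E ∪ C) e \ (E ∪ C)) M.c 0 χ ∧
        ∀ z ∈ M.reg (E ∪ C) e, vx z ∈ VB → χ z = ψ (vx z) := by
  classical
  have hM := h.ok
  obtain ⟨ψ0, p0, -⟩ := (treeS Φ V M vx ∅ C hM h.lbl es_empty h.esC (empty_subset _)
    fun e k => h.br e k.1).2.2.2 β 0 hβ.1 (fun _ k => k.elim) fun _ k => k.elim
  let β' : Φ → ZMod 2 := fun f => β f + ψ0 (vx f) + ψ0 (vx (M.a f))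
  let w : ℕ × ℕ → ℕ × ℕ → ZMod 2 := fun p q =>
    if ∃ f ∈ E, cl (vx f) = p ∧ cl (vx (M.a f)) = q ∧ β' f = 1 then 1 else 0
  have ba : ∀ f ∈ M.S, β' (M.a f) = β' f ∧ β' (M.c f) = β' f := fun f k => by
    simp only [β', (hβ.1 f k).1, (hβ.1 f k).2, hM.aa k, h.lbl.c hM k, h.lbl.ac hM k,
      add_right_comm, and_self]
  have w1 : ∀ f ∈ E, w (cl (vx f)) (cl (vx (M.a f))) = β' f := fun f k => by
    simp only [w]
    split_ifs with c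
    · obtain ⟨x, a, b, c, d⟩ := c
      rcases h.grd.simple f k x a b.symm c.symm with l | l
      · rw [← l, d]
      · rw [← (ba f (h.esE.1 k)).2]
        exact d.symm.trans (congrArg β' l)
    · exact ((z2_cases _).resolve_right fun l => c ⟨f, k, rfl, rfl, l⟩).symm
  have w2 : ∀ p q, (∃ f ∈ E, cl (vx f) = p ∧ cl (vx (M.a f)) = q ∧ β' f = 1) →
      ∃ f ∈ E, cl (vx f) = q ∧ cl (vx (M.a f)) = p ∧ β' f = 1 := fun p q ⟨f, a, b, c, d⟩ =>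
    ⟨M.a f, (h.esE.2 f a).1, c, by rwa [hM.aa (h.esE.1 a)], (ba f (h.esE.1 a)).1.trans d⟩
  have sub : ∀ {e z}, M.R (E ∪ C) (E ∪ C)ᶜ e z → z ∈ M.reg (E ∪ C) e := fun k =>
    mem_reg.2 (k.mono (subset_univ _) Subset.rfl)
  obtain ⟨P, hP⟩ := grid_pot w (fun p q => if_congr ⟨w2 p q, w2 q p⟩ rfl rfl) I J L
    fun r hr c hc => by
      obtain ⟨f, hf, f1, f2, f3⟩ := h.grd.corner (r := I + r) (c := J + c) (by omega) (by omega)
        fun f a b => (hb f a (by rw [show cl (vx f) = _ from b]; simp) (by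
          rw [show cl (vx f) = _ from b]; simpa) (by rw [show cl (vx f) = _ from b]; simp)
          (by rw [show cl (vx f) = _ from b]; simpa)).1
      obtain ⟨s, gd⟩ := hb f hf (by rw [show cl (vx f) = _ from f1]; simp) (by
          rw [show cl (vx f) = _ from f1]; simpa) (by rw [show cl (vx f) = _ from f1]; simp)
          (by rw [show cl (vx f) = _ from f1]; simpa)
      obtain ⟨χ, c1, c2, c3⟩ := gd.pot β hβ
      have st : ∀ x ∈ (M.minor E C).fo f, x ∈ E ∧ (M.minor E C).b (M.a x) ∈ (M.minor E C).fo f ∧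
          χ ((M.minor E C).b (M.a x)) + ψ0 (vx ((M.minor E C).b (M.a x))) =
            χ x + ψ0 (vx x) + w (cl (vx x)) (cl (vx (M.a x))) := by
        intro x hx
        have xE : x ∈ E := h.grd.ok.fo_mem hf hx
        have aE := (h.esE.2 x xE).1
        have k := (h.fo_iff hf xE).1 hx
        refine ⟨xE, orb_q (orb_p hx), ?_⟩
        have := ((minor_b_R hM h.esE h.esC.cl aE).ind (p := fun z => M.R (E ∪ C) (E ∪ C)ᶜ f z ∧
          χ z + ψ0 (vx z) = χ (M.a x) + ψ0 (vx (M.a x))) hM (h.esE.1 aE) ⟨k.a (Or.inl xE), rfl⟩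
          (fun z a b => ⟨b.1.b, by rw [c2 z (sub b.1), h.lbl.b hM a, ← b.2]; simp⟩)
          (fun z _ a b => ⟨b.1.a (Or.inr a.1), by
            rw [c1 z (sub b.1), p0 z a.1, ← b.2]
            exact (by decide : ∀ a b c : ZMod 2, a + (b + c) + c = a + b) _ _ _⟩)
          fun z a d b => ⟨b.1.c fun l => l.elim d.1 d.2, by
            rw [c3 z ⟨sub b.1, fun l => l.elim d.1 d.2⟩, h.lbl.c hM a, ← b.2]; simp⟩).2
        rw [this, c1 x (sub k), w1 x xE]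
        exact (by decide : ∀ a b c d : ZMod 2, a + b + d = a + c + (b + c + d)) _ _ _ _
      obtain ⟨a1, a2, a3, a4, a5, a6, b1, b2, b3, b4, b5, b6⟩ := h.grd.sq_cells hf s
      have s0 := st f (orb_self _ _ _)
      have s1 := st _ s0.2.1
      have s2 := st _ s1.2.1
      have s3 := st _ s2.2.1
      simp only [minor_a] at a1 a2 a3 a4 a5 a6 b1 b2 b3 b4 b5 b6 f2 f3
      rw [a5] at f3
      have f4 : cl (vx ((M.minor E C).b (M.a ((M.minor E C).b (M.a f))))) =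
          (I + r + 1, J + c + 1) := by
        simp only [gridN, ne_eq, Prod.ext_iff, a1, f1, f2, f3] at b2 b3 b5 ⊢
        omega
      have e3 := s3.2.2
      rw [a6, s2.2.2, s1.2.2, s0.2.2, a4, ← a3, ← a2, ← a1, f4, f3, a1, f2, f1] at e3
      revert e3
      exact (by decide : ∀ x a b c d : ZMod 2, x = x + a + b + c + d → a + b + c + d = 0) _ _ _ _ _
  refine ⟨fun v => ψ0 v + P (cl v), fun e he gd r c bx r1 r2 c1 c2 => ?_⟩
  obtain ⟨χ, d1, d2, d3⟩ := gd.pot β hβ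
  refine ⟨fun z => χ z + (χ e + (ψ0 (vx e) + P (cl (vx e)))), fun z k => ?_, fun z k => ?_,
    fun z k => ?_, fun z k hv => ?_⟩
  · simp only [d1 z k, add_right_comm]
  · simp only [d2 z k, add_right_comm]
  · simp only [d3 z k, add_right_comm]
  refine ((h.face_of he gd k hv).ind (p := fun z => M.R (E ∪ C) (E ∪ C)ᶜ e z ∧
    χ z + (χ e + (ψ0 (vx e) + P (cl (vx e)))) = ψ0 (vx z) + P (cl (vx z))) hM (h.esE.1 he)
    ⟨.rfl, by rw [← add_assoc, z2_add_self, zero_add]⟩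
    (fun z a b => ⟨b.1.b, by rw [d2 z (sub b.1), h.lbl.b hM a, ← b.2]; simp⟩)
    (fun z _ a b => ⟨b.1.a a, ?_⟩) fun z a d b => ⟨b.1.c d, by
      rw [d3 z ⟨sub b.1, d⟩, h.lbl.c hM a, ← b.2]; simp⟩).2
  rw [d1 z (sub b.1), add_right_comm, b.2]
  rcases a with a | a
  · have o := (h.fo_iff he a).2 b.1
    have b1 := bx z o
    have b2 := bx _ (orb_p o)
    beta_reduce at b1 b2
    have := hP _ _ (h.grd.adj z a) (by omega) (by omega) (by omega) (by omega) (by omega)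
      (by omega) (by omega) (by omega)
    rw [minor_a, w1 z a] at this
    revert this
    exact (by decide : ∀ x a b c d : ZMod 2, x + a + b = c + d → a + c + x = b + d) _ _ _ _ _
  · rw [p0 z a, (h.inC z a).2]
    exact (by decide : ∀ a b c : ZMod 2, a + c + (a + b) = b + c) _ _ _

end Skl

end FM

end Pool.Agent.MP_9d78a0_co.gm

end MrgPart0

-- ======== part 1: formerly Pool.Agent.MP_9d78a0_co.gm.RChart
section MrgPart1

/-! Charts: clean blocks of a model of a grid. -/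

set_option autoImplicit false

namespace Pool.Agent.MP_9d78a0_co.gm

open Set Function Relation Cy fb FM

namespace RChart

theorem block {A : Set (ℕ × ℕ)} (hA : A.Finite) {L g n : ℕ} (hL : 0 < L)
    (h : A.ncard ≤ 72 * g + n) (hg : (144 * L + n + 1) * L + 1 ≤ g) :
    ∃ I J, I + L < g ∧ J + L < g ∧
      ∀ p ∈ A, I ≤ p.1 → p.1 < I + L → J ≤ p.2 → p.2 < J + L → False := by
  classical
  obtain ⟨m, hm⟩ : ∃ m, m = (g - 1) / L := ⟨_, rfl⟩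
  have m1 : 144 * L + n + 1 ≤ m := hm ▸ (Nat.le_div_iff_mul_le hL).2 (by omega)
  have m2 : m * L ≤ g - 1 := hm ▸ Nat.div_mul_le_self _ _
  have m3 : g - 1 < m * L + L := hm ▸ Nat.lt_div_mul_add hL
  have m4 : 72 * g + n < m * m := by
    have : g ≤ m * L + L := by omega
    have : L ≤ m * L := Nat.le_mul_of_pos_left _ (by omega)
    nlinarith
  obtain ⟨p, p1, p2⟩ := exists_mem_notMem_of_ncard_lt_ncard
    (s := (fun p : ℕ × ℕ => (p.1 / L, p.2 / L)) '' A)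
    (t := (Finset.range m ×ˢ Finset.range m : Finset (ℕ × ℕ))) (by
      rw [ncard_coe_finset, Finset.card_product, Finset.card_range]
      exact ((ncard_image_le hA).trans h).trans_lt m4) (hA.image _)
  simp only [Finset.coe_product, Finset.coe_range, mem_prod, mem_Iio] at p1
  have k : ∀ a < m, a * L + L < g := fun a k => by
    have : (a + 1) * L ≤ m * L := Nat.mul_le_mul_right _ k
    rw [add_mul, one_mul] at this
    omega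
  exact ⟨_, _, k _ p1.1, k _ p1.2, fun x hx a b c d => p2 ⟨x, hx, Prod.ext
    (Nat.div_eq_of_lt_le a (by rwa [add_mul, one_mul]))
    (Nat.div_eq_of_lt_le c (by rwa [add_mul, one_mul]))⟩⟩

variable {Φ V : Type} {M : FM Φ} {vx : Φ → V} {H VB : Set V} {cl : V → ℕ × ℕ} {E C : Set Φ}
  {g r c r' c' : ℕ} {f : Φ} {v w : V}

variable (M vx H cl E C) in
/-- the flag lies in the good region of the unit square with corner `r`, `c` -/
def In (f : Φ) (r c : ℕ) : Prop :=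
  ∃ e ∈ E, (M.minor E C).Sq e ∧ M.Good vx H (E ∪ C) e ∧
    (M.minor E C).Box (fun f => cl (vx f)) e r c ∧ f ∈ M.reg (E ∪ C) e

variable (M vx H VB cl E C) in
/-- the vertex lies inside the unit square with corner `r`, `c` -/
def Z (v : V) (r c : ℕ) : Prop := v ∉ VB ∧ ∃ f, vx f = v ∧ In M vx H cl E C f r c

theorem In.step {f' : Φ} (k : In M vx H cl E C f r c) (l : M.R univ (E ∪ C)ᶜ f f') :
    In M vx H cl E C f' r c :=
  let ⟨e, a, b, c, d, m⟩ := k; ⟨e, a, b, c, d, mem_reg.2 ((mem_reg.1 m).trans l)⟩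

theorem In.fo {f' : Φ} (k : In M vx H cl E C f r c) (l : f' ∈ M.fo f) : In M vx H cl E C f' r c :=
  k.step ((mem_fo.1 l).mono Subset.rfl (empty_subset _))

theorem In.hole (k : In M vx H cl E C f r c) : vx f ∉ H :=
  let ⟨_, _, _, c, _, m⟩ := k; c.hole f m

variable (h : M.Skl vx VB cl g E C)
include h

theorem In.mem (k : In M vx H cl E C f r c) : f ∈ M.S :=
  let ⟨_, a, _, _, _, m⟩ := k; (mem_reg.1 m).mem h.ok (h.esE.1 a)

theorem In.box (k : In M vx H cl E C f r c) (hv : vx f ∈ VB) :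
    r ≤ (cl (vx f)).1 ∧ (cl (vx f)).1 ≤ r + 1 ∧ c ≤ (cl (vx f)).2 ∧ (cl (vx f)).2 ≤ c + 1 :=
  let ⟨_, a, _, b, d, m⟩ := k
  let ⟨x, p, q⟩ := h.cell_of a b m hv
  q ▸ d x p

theorem Z.all (k : Z M vx H VB cl E C v r c) (hf : f ∈ M.S) (e : vx f = v) :
    In M vx H cl E C f r c := by
  obtain ⟨a, x, rfl, b⟩ := k
  exact b.step ((h.vo_reg (b.mem h) a hf e).mono (empty_subset _) Subset.rfl)

theorem Z.adj (k : Z M vx H VB cl E C v r c) (a : (M.gph vx).Adj v w) :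
    (w ∉ VB → Z M vx H VB cl E C w r c) ∧
      (w ∈ VB → r ≤ (cl w).1 ∧ (cl w).1 ≤ r + 1 ∧ c ≤ (cl w).2 ∧ (cl w).2 ≤ c + 1) := by
  obtain ⟨f, hf, rfl, rfl⟩ := adj_flag h.ok a
  have := (k.all h hf rfl).step (R.rfl.a trivial)
  exact ⟨fun n => ⟨n, _, rfl, this⟩, this.box h⟩

theorem Z.link (k : Z M vx H VB cl E C v r c) (l : Link (M.gph vx) VBᶜ v w) :
    Z M vx H VB cl E C w r c := by
  induction l with
  | refl => exact k
  | tail _ a ih => exact (ih.adj h a.2.2).1 a.2.1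

theorem exists_in (hf : f ∈ M.S) (hv : vx f ∈ VB) (hb : ∀ e ∈ E, cl (vx e) = cl (vx f) →
    (M.minor E C).Sq e ∧ M.Good vx H (E ∪ C) e) : ∃ r c, In M vx H cl E C f r c := by
  obtain ⟨e, a, b⟩ := h.toE hf hv
  obtain ⟨b1, b2⟩ := hb e a (h.cell_eq hf b)
  obtain ⟨r, c, -, -, d, -⟩ := h.grd.box a b1
  exact ⟨r, c, e, a, b1, b2, d, mem_reg.2 ((b.symm h.ok h.esC.cl (h.esU.cl.compl h.ok) hf).mono
    (subset_univ _) Subset.rfl)⟩

/-- every vertex off the cells is joined to a cell -/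
theorem touch (hc : M.Con) (hf : f ∈ M.S) (hv : vx f ∉ VB) :
    ∃ w u, Link (M.gph vx) VBᶜ (vx f) w ∧ u ∈ VB ∧ (M.gph vx).Adj w u := by
  have := h.grd.two
  obtain ⟨e, he, -⟩ := h.exE (p := (0, 0)) (by omega) (by omega)
  refine ((mem_co.1 (hc f hf e (h.esE.1 he))).ind (p := fun z =>
    (∃ w u, Link (M.gph vx) VBᶜ (vx f) w ∧ u ∈ VB ∧ (M.gph vx).Adj w u) ∨
      Link (M.gph vx) VBᶜ (vx f) (vx z)) h.ok hf (Or.inr (Link.refl _ _ _))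
    (fun z a k => by rwa [h.lbl.b h.ok a]) (fun z a _ k => k.elim Or.inl fun k => ?_)
    fun z a _ k => by rwa [h.lbl.c h.ok a]).resolve_right fun k => k.mem hv (h.inE e he)
  by_cases c : vx (M.a z) ∈ VB
  · exact Or.inl ⟨_, _, k, c, fun l => k.mem hv (l ▸ c), z, a, Or.inl ⟨rfl, rfl⟩⟩
  · exact Or.inr (k.trans (Gph.link_a a (k.mem hv) c))

/-- a potential near the vertices all of whose flags lie in good squares of the block -/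
theorem cob {I J L : ℕ} (hI : I + L < g) (hJ : J + L < g)
    (hb : ∀ e ∈ E, I ≤ (cl (vx e)).1 → (cl (vx e)).1 < I + L → J ≤ (cl (vx e)).2 →
      (cl (vx e)).2 < J + L → (M.minor E C).Sq e ∧ M.Good vx H (E ∪ C) e) {Ω : Set V}
    (hΩ : ∀ f ∈ M.S, vx f ∈ Ω → ∃ r c, In M vx H cl E C f r c ∧ I ≤ r ∧ r < I + L ∧ J ≤ c ∧
      c < J + L) {β : Φ → ZMod 2} (hβ : M.Adm vx H β) : M.Cob vx β Ω := by
  classical
  obtain ⟨ψ, hψ⟩ := h.pot hI hJ hb hβ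
  have : ∀ ρ : Set Φ, ∃ χ : Φ → ZMod 2, ∀ f ∈ M.S, vx f ∈ Ω → ρ = M.reg (E ∪ C) f →
      Pot ρ M.a β χ ∧ Pot ρ M.b 0 χ ∧ Pot (ρ \ (E ∪ C)) M.c 0 χ ∧
        ∀ z ∈ ρ, vx z ∈ VB → χ z = ψ (vx z) := fun ρ => by
    by_cases c : ∃ f ∈ M.S, vx f ∈ Ω ∧ ρ = M.reg (E ∪ C) f
    · obtain ⟨f, a, b, rfl⟩ := c
      obtain ⟨r, c, ⟨e, e1, -, e2, e3, e4⟩, d⟩ := hΩ f a b
      obtain ⟨χ, k⟩ := hψ e e1 e2 r c e3 d.1 d.2.1 d.2.2.1 d.2.2.2
      rw [← (regBS orbS minorS Φ M _ h.ok h.esU e (h.esE.1 e1)).2.1 f e4] at k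
      exact ⟨χ, fun _ _ _ _ => k⟩
    · exact ⟨0, fun f a b d => absurd ⟨f, a, b, d⟩ c⟩
  choose X hX using this
  have : ∀ v, ∃ t, ∀ f ∈ M.S, vx f = v → v ∈ Ω → X (M.reg (E ∪ C) f) f = t := fun v => by
    by_cases c : v ∈ VB
    · refine ⟨ψ v, ?_⟩
      rintro f a rfl b
      exact (hX _ f a b rfl).2.2.2 f .refl c
    by_cases d : ∃ f ∈ M.S, vx f = v
    · obtain ⟨f, a, rfl⟩ := d
      refine ⟨X (M.reg (E ∪ C) f) f, fun x x1 x2 b => ?_⟩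
      have k := h.vo_reg a c x1 x2
      have u : ∀ {z}, M.R ∅ (E ∪ C)ᶜ f z → z ∈ M.reg (E ∪ C) f := fun k =>
        mem_reg.2 (k.mono (empty_subset _) Subset.rfl)
      obtain ⟨-, p2, p3, -⟩ := hX _ f a b rfl
      rw [(regBS orbS minorS Φ M _ h.ok h.esU f a).2.1 x (u k)]
      exact (k.ind0 (p := fun z => M.R ∅ (E ∪ C)ᶜ f z ∧
          X (M.reg (E ∪ C) f) z = X (M.reg (E ∪ C) f) f) ⟨.rfl, rfl⟩
        (fun z l => ⟨l.1.b, by rw [p2 z (u l.1), l.2]; simp⟩) (fun _ l => l.elim)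
        fun z m l => ⟨l.1.c m, by rw [p3 z ⟨u l.1, m⟩, l.2]; simp⟩).2
    · exact ⟨0, fun f a b => absurd ⟨f, a, b⟩ d⟩
  choose t ht using this
  refine ⟨t, fun f ⟨a, b, c⟩ => ?_⟩
  rw [← ht _ f a rfl b, ← ht _ _ (h.ok.a_mem a) rfl c, (regBS orbS minorS Φ M _ h.ok h.esU f a).2.1
    _ (mem_reg.2 (R.rfl.a trivial)), (hX _ f a b rfl).1 f .refl, ← add_assoc, z2_add_self, zero_add]

end RChart

open RChart in
theorem chartS : ChartS := by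
  classical
  intro k q s
  refine ⟨(144 * (s + 2) + (80 * k + 8 * q) + 1) * (s + 2) + 1,
    fun g hg Φ V M vx H B hM hk hq hB => ?_⟩
  obtain ⟨cl, E, C, h, hcl⟩ := exists_skl hM.ok hM.lbl (le_trans (by nlinarith) hg) hB
  set VB := ⋃ p, B p
  have tv : VB ⊆ M.tv vx H := iUnion_subset hB.1
  have b1 := h.bad_le hk hq (disjoint_left.2 fun v a b => (tv b).2 a)
  have fin := hM.ok.fin.subset fun e (k : e ∈ {e | e ∈ E ∧
    ¬ ((M.minor E C).Sq e ∧ M.Good vx H (E ∪ C) e)}) => h.esE.1 k.1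
  obtain ⟨I, J, hI, hJ, b2⟩ := block (fin.image fun e => cl (vx e)) (L := s + 2) (by omega)
    ((ncard_image_le fin).trans (b1.trans (by omega))) hg
  have hb : ∀ e ∈ E, I ≤ (cl (vx e)).1 → (cl (vx e)).1 < I + (s + 2) → J ≤ (cl (vx e)).2 →
      (cl (vx e)).2 < J + (s + 2) → (M.minor E C).Sq e ∧ M.Good vx H (E ∪ C) e :=
    fun e a b c d f => by_contra fun n => b2 _ ⟨e, ⟨a, n⟩, rfl⟩ b c d f
  let At : V → Set (ℕ × ℕ) := fun v =>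
    {p | ∃ w u, Link (M.gph vx) VBᶜ v w ∧ u ∈ VB ∧ (M.gph vx).Adj w u ∧ cl u = p}
  let co : V → ℕ × ℕ := fun v => if v ∈ VB then cl v else Classical.epsilon (· ∈ At v)
  have c1 : ∀ v ∈ VB, co v = cl v := fun v k => if_pos k
  have c2 : ∀ v r c, Z M vx H VB cl E C v r c → co v ∈ At v := by
    rintro _ r c ⟨a, f, rfl, b⟩
    obtain ⟨w, u, k1, k2, k3⟩ := touch h hM.con (b.mem h) a
    simp only [co, if_neg a]
    exact Classical.epsilon_spec (p := (· ∈ At (vx f))) ⟨_, w, u, k1, k2, k3, rfl⟩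
  have c3 : ∀ v r c, Z M vx H VB cl E C v r c →
      r ≤ (co v).1 ∧ (co v).1 ≤ r + 1 ∧ c ≤ (co v).2 ∧ (co v).2 ≤ c + 1 := fun v r c k => by
    obtain ⟨w, u, k1, k2, k3, k4⟩ := c2 v r c k
    exact k4 ▸ ((k.link h k1).adj h k3).2 k2
  have c4 : ∀ v ∉ VB, ∀ w, Link (M.gph vx) VBᶜ v w → co w = co v := fun v a w k => by
    have : At w = At v := Subset.antisymm (fun _ ⟨x, u, l, m⟩ => ⟨x, u, k.trans l, m⟩)
      fun _ ⟨x, u, l, m⟩ => ⟨x, u, k.symm.trans l, m⟩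
    simp only [co, if_neg a, if_neg (k.mem a), this]
  let ch : Ch V := ⟨s, I + 1, J + 1, {v | (v ∈ VB ∧ I + 1 ≤ (cl v).1 ∧ (cl v).1 ≤ I + 1 + s ∧
      J + 1 ≤ (cl v).2 ∧ (cl v).2 ≤ J + 1 + s) ∨ ∃ r c, Z M vx H VB cl E C v r c ∧ I + 1 ≤ r ∧
      r < I + 1 + s ∧ J + 1 ≤ c ∧ c < J + 1 + s}, fun v => 2 * ((co v).1 - (I + 1)),
    fun v => 2 * ((co v).2 - (J + 1))⟩
  have o1 : ∀ v ∈ ch.Ω, I + 1 ≤ (co v).1 ∧ (co v).1 ≤ I + 1 + s ∧ J + 1 ≤ (co v).2 ∧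
      (co v).2 ≤ J + 1 + s := by
    rintro v (k | ⟨r, c, k, l⟩)
    · rw [c1 v k.1]; exact k.2
    · have := c3 v r c k
      omega
  have o2 : ∀ f ∈ M.S, vx f ∈ ch.Ω → ∃ r c, In M vx H cl E C f r c ∧
      r ≤ (co (vx f)).1 ∧ (co (vx f)).1 ≤ r + 1 ∧ c ≤ (co (vx f)).2 ∧ (co (vx f)).2 ≤ c + 1 ∧
      (vx f ∉ VB → I + 1 ≤ r ∧ r < I + 1 + s ∧ J + 1 ≤ c ∧ c < J + 1 + s) := by
    rintro f a (k | ⟨r, c, k, l⟩)
    · obtain ⟨r, c, l⟩ := exists_in (H := H) h a k.1 fun e b d =>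
        hb e b (by rw [d]; omega) (by rw [d]; omega) (by rw [d]; omega) (by rw [d]; omega)
      have := l.box h k.1
      rw [c1 _ k.1]
      exact ⟨r, c, l, this.1, this.2.1, this.2.2.1, this.2.2.2, fun n => absurd k.1 n⟩
    · have := c3 _ r c k
      exact ⟨r, c, k.all h a rfl, this.1, this.2.1, this.2.2.1, this.2.2.2, fun _ => l⟩
  have br : ∀ r ≤ s, ∀ c ≤ s, ∀ p : Fin g × Fin g, (p.1 : ℕ) = I + 1 + r → (p.2 : ℕ) = J + 1 + c →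
      B p ⊆ ch.cell r c := fun r a c b p p1 p2 v k => by
    have m : v ∈ VB := mem_iUnion.2 ⟨p, k⟩
    refine ⟨Or.inl ⟨m, ?_⟩, ?_⟩ <;> simp only [ch, c1 v m, hcl p v k] <;> omega
  let P : ∀ r ≤ s, ∀ c ≤ s, Fin g × Fin g := fun r _ c _ =>
    (⟨I + 1 + r, by omega⟩, ⟨J + 1 + c, by omega⟩)
  refine ⟨ch, rfl, fun v k => ?_, fun v k => ?_, ⟨by simp only [ch]; omega, by simp only [ch]; omega⟩,
    br, fun r a c b => ?_, fun r a c b => ?_, fun r a c b => ?_, fun r c v k => ?_,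
    fun f a k => ?_, fun β => cob h hI hJ hb fun f a k => ?_⟩
  · obtain ⟨f, a, rfl⟩ : v ∈ vx '' M.S := k.elim (fun k => (tv k.1).1)
      fun ⟨_, _, ⟨_, f, a, b⟩, _⟩ => ⟨f, b.mem h, a⟩
    refine ⟨⟨⟨f, a, rfl⟩, let ⟨_, _, l, _⟩ := o2 f a k; l.hole⟩, fun ⟨x, x1, x2, y, y1, y2⟩ => ?_⟩
    obtain ⟨r, c, l, -⟩ := o2 y (hM.ok.fo_mem x1 y1) (y2 ▸ k)
    exact (l.fo (hM.ok.fo_symm x1 y1)).hole x2
  · have := o1 v k
    simp only [ch]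
    omega
  · have sb := br r a c b (P r a c b) rfl rfl
    obtain ⟨⟨u0, h0⟩, cn⟩ := hB.2.1 (P r a c b)
    have inB : ∀ u ∈ VB, cl u = (I + 1 + r, J + 1 + c) →
        Link (M.gph vx) (ch.cell r c) u u0 := fun u k l => by
      obtain ⟨p, hp⟩ := mem_iUnion.1 k
      rw [hcl p u hp, Prod.ext_iff] at l
      obtain rfl : p = P r a c b := Prod.ext (Fin.ext l.1) (Fin.ext l.2)
      exact (cn u hp u0 h0).mono sb
    have key : ∀ v ∈ ch.cell r c, Link (M.gph vx) (ch.cell r c) v u0 := fun v k => by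
      have e : co v = (I + 1 + r, J + 1 + c) := by
        have := o1 v k.1
        have := k.2
        simp only [ch, Prod.ext_iff] at this ⊢
        omega
      rcases k.1 with l | ⟨r', c', l, m⟩
      · exact inB v l.1 ((c1 v l.1).symm.trans e)
      obtain ⟨w, u, k1, k2, k3, k4⟩ := c2 v r' c' l
      have mem : ∀ w, Link (M.gph vx) VBᶜ v w → w ∈ ch.cell r c := fun w t =>
        ⟨Or.inr ⟨r', c', l.link h t, m⟩, by simpa only [ch, c4 v l.1 w t] using k.2⟩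
      have : Link (M.gph vx) (ch.cell r c) v w := by
        clear k3
        induction k1 with
        | refl => exact Link.refl _ _ _
        | tail t a ih => exact ih.trans (Link.single (mem _ t) (mem _ (t.tail a)) a.2.2)
      have lu := inB u k2 (k4.trans e)
      exact this.trans ((Link.single (mem w k1) (lu.symm.mem (sb h0)) k3).trans lu)
    exact ⟨⟨u0, sb h0⟩, fun u a v b => (key u a).trans (key v b).symm⟩
  · obtain ⟨u, u1, v, v1, k⟩ := hB.2.2.2 (P r a c b.le) (P r a (c + 1) b)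
      (Or.inl ⟨rfl, Or.inl rfl⟩)
    exact ⟨u, br r a c b.le _ rfl rfl u1, v, br r a _ b _ rfl rfl v1, k⟩
  · obtain ⟨u, u1, v, v1, k⟩ := hB.2.2.2 (P r a.le c b) (P (r + 1) a c b)
      (Or.inr ⟨rfl, Or.inl rfl⟩)
    exact ⟨u, br r a.le c b _ rfl rfl u1, v, br _ a c b _ rfl rfl v1, k⟩
  · have := k.2
    simp only [ch] at this
    omega
  · obtain ⟨r, c, l, m⟩ := o2 f a k.1
    have k2 := k.2
    have k3 := o1 _ k.1
    simp only [ch] at k2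
    have rg : I + 1 ≤ r ∧ r < I + 1 + s ∧ J + 1 ≤ c ∧ c < J + 1 + s := by omega
    refine ⟨r - (I + 1), by simp only [ch]; omega, c - (J + 1), by simp only [ch]; omega,
      fun x hx => ?_⟩
    by_cases d : vx x ∈ VB
    · have := (l.fo hx).box h d
      refine ⟨Or.inl ⟨d, by omega⟩, ?_⟩
      simp only [ch, c1 _ d]
      omega
    · have z : Z M vx H VB cl E C (vx x) r c := ⟨d, x, rfl, l.fo hx⟩
      have := c3 _ r c z
      refine ⟨Or.inr ⟨r, c, z, rg⟩, ?_⟩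
      simp only [ch]
      omega
  · obtain ⟨r, c, l, m⟩ := o2 f a k
    have := o1 _ k
    exact ⟨r, c, l, by omega⟩

theorem patchS : PatchS := by
  intro k q s
  obtain ⟨g0, h⟩ := chartS k q s
  refine ⟨g0, fun g hg Φ V M vx H B hM hk hq hB => ?_⟩
  obtain ⟨ch, rfl, c⟩ := h g hg Φ V M vx H B hM hk hq hB
  have := c.fit
  exact ⟨ch.i0, ch.j0, fun i => ⟨ch.i0 + i, by omega⟩, fun j => ⟨ch.j0 + j, by omega⟩,
    fun _ => rfl, fun _ => rfl, fun i j => disjoint_left.2 fun v a =>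
      (c.sub (c.br i i.2.le j j.2.le _ rfl rfl a).1).2⟩

end Pool.Agent.MP_9d78a0_co.gm

end MrgPart1

-- ======== part 2: formerly Pool.Agent.MP_9d78a0_co.gm.HCtl
section MrgPart2

/-! Block H: control passes to subgrids; a block that is a grid of a new map. -/

set_option autoImplicit false

namespace Pool.Agent.MP_9d78a0_co.gm

open Set Function FM

namespace HCtl

theorem bip {s : Sk} (h : s.Ok0) {y z : MV} (e : s.G.Adj y z) : y ∈ s.Nd ↔ z ∉ s.Nd := by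
  obtain ⟨f, hf, rfl, rfl⟩ := exists_adj h.hm.ok e
  exact h.bip f hf

theorem adj_vt {s : Sk} (h : s.Ok0) {y z : MV} (e : s.G.Adj y z) : z ∈ s.Vt := by
  obtain ⟨f, hf, -, rfl⟩ := exists_adj h.hm.ok e
  exact ⟨_, h.hm.ok.a_mem hf, rfl⟩

theorem ce_nd {s : Sk} {y : MV} (h : y ∈ s.Ce) : y ∉ s.Nd := by
  rintro ⟨-, a, rfl⟩
  obtain ⟨b, e⟩ := h.1.2
  cases e

variable {σ : AG} {r : Rw σ} {k q D l : ℕ} {U : Set σ.ε}

/-- the vertex `v` of the boundary spoils the set `Q` -/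
def Sp (r : Rw σ) (U : Set σ.ε) (v : W) (Q : Set MV) : Prop :=
  v ∈ σ.bd U ∧ (Sum.inl v ∈ Q ∨
    (v ∉ r.Λ ∧ Sum.inl v ∉ r.s.Vt ∧ ∃ x ∈ Q ∩ r.s.Ce, v ∈ σ.vs (r.ct x)))

theorem mem_vs {v : W} : v ∈ σ.vs U ↔ ∃ a ∈ U, v ∈ σ.inc a := by simp [AG.vs]

theorem sh_of {v : W} {a a' : σ.ε} (h : v ∈ σ.inc a) (h' : v ∈ σ.inc a') (e : a' ≠ a) :
    v ∈ σ.sh := mem_iUnion.2 ⟨a, ⟨a, rfl, h⟩, a', e, h'⟩

theorem sp_one (h : r.Co k q D l) {v : W} {Q Q' : Set MV} (s : Q ⊆ r.s.Vt) (s' : Q' ⊆ r.s.Vt)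
    (a : Sp r U v Q) (b : Sp r U v Q') : (Q ∩ Q').Nonempty := by
  obtain ⟨-, a | ⟨a1, a2, x, hx, a3⟩⟩ := a <;> obtain ⟨-, b | ⟨-, b2, x', hx', b3⟩⟩ := b
  · exact ⟨_, a, b⟩
  · exact absurd (s a) b2
  · exact absurd (s' b) a2
  · obtain ⟨e, he, a4⟩ := mem_vs.1 a3
    obtain ⟨e', he', b4⟩ := mem_vs.1 b3
    by_cases c : x = x'
    · exact ⟨x, hx.1, c ▸ hx'.1⟩
    · have c' : r.own e' ≠ r.own e := fun m =>
        c (Option.some.inj ((Eq.symm he).trans (m.symm.trans he')))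
      obtain ⟨y, -, hy⟩ := h.share e v ⟨⟨a4, sh_of a4 b4 fun m => c' (m ▸ rfl)⟩, a1⟩
        (.inr ⟨e', c', b4⟩)
      exact absurd (adj_vt h.ok0 hy) a2

theorem thru (h : r.Co k q D l) {Q : Set MV} (hΛ : ∀ v ∈ r.Λ, Sum.inl v ∉ Q)
    (hQ : ∀ v, ¬ Sp r U v Q) {x : MV} (hx : x ∈ Q ∩ r.s.Ce) {v w : W} (hv : v ∈ r.s.nb x)
    (hw : w ∈ r.s.nb x) (hv' : Sum.inl v ∈ Q) (hw' : Sum.inl w ∈ Q) (hU : v ∈ σ.vs U) :
    w ∈ σ.vs U := by
  have k1 := (h.solid x hx.2).two v ⟨hv, fun c => hΛ v c hv'⟩ w ⟨hw, fun c => hΛ w c hw'⟩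
  have key : ∀ z, Link (gr (σ.un (r.ct x))) ((Od \ r.Λ) \ ((r.s.nb x \ r.Λ) \ {v, w})) v z →
      z ∈ σ.vs U := by
    intro z hz
    induction hz with
    | refl => exact hU
    | @tail a b _ e ih =>
      obtain ⟨ha, hb, -, e⟩ := e
      obtain ⟨t, ht, m1, m2⟩ : ∃ t ∈ r.ct x, a ∈ σ.inc t ∧ b ∈ σ.inc t := by
        rcases e with e | e <;> obtain ⟨t, ht, e⟩ := mem_iUnion₂.1 e
        · exact ⟨t, ht, ⟨⟨_, e, .inl rfl⟩, ha.1.1⟩, ⟨_, e, .inr rfl⟩, hb.1.1⟩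
        · exact ⟨t, ht, ⟨⟨_, e, .inr rfl⟩, ha.1.1⟩, ⟨_, e, .inl rfl⟩, hb.1.1⟩
      by_cases c : t ∈ U
      · exact mem_vs.2 ⟨t, c, m2⟩
      obtain ⟨t', ht', m3⟩ := mem_vs.1 ih
      refine absurd ⟨⟨⟨t', ht', m3⟩, t, c, m1⟩, ?_⟩ (hQ a)
      by_cases c1 : Sum.inl a ∈ r.s.Vt
      · obtain ⟨y, e1, hy⟩ := h.share t a ⟨⟨m1, sh_of m1 m3 fun m => c (m ▸ ht')⟩, ha.1.2⟩ (.inl c1)
        obtain rfl : x = y := Option.some.inj ((Eq.symm ht).trans e1)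
        have : a ∈ ({v, w} : Set W) := by
          by_contra c2
          exact ha.2 ⟨⟨hy, ha.1.2⟩, c2⟩
        rcases this with rfl | rfl
        exacts [.inl hv', .inl hw']
      · exact .inr ⟨ha.1.2, c1, x, hx, mem_vs.2 ⟨t, ht, m1⟩⟩
  exact key w k1

theorem all (h : r.Co k q D l) {Q : Set MV} (hc : Conn r.s.G Q) (hT : Q ⊆ r.s.T)
    (hΛ : ∀ v ∈ r.Λ, Sum.inl v ∉ Q) (hQ : ∀ v, ¬ Sp r U v Q) {v w : W} (hv : Sum.inl v ∈ Q)
    (hw : Sum.inl w ∈ Q) (hU : v ∈ σ.vs U) : w ∈ σ.vs U := by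
  have key : ∀ y, Link r.s.G Q (Sum.inl v) y → ∃ u, Sum.inl u ∈ Q ∧ u ∈ σ.vs U ∧
      (y = Sum.inl u ∨ (y ∈ r.s.Ce ∧ u ∈ r.s.nb y)) := by
    intro y hy
    induction hy with
    | refl => exact ⟨v, hv, hU, .inl rfl⟩
    | @tail a b _ e ih =>
      obtain ⟨ha, hb, e⟩ := e
      obtain ⟨u, h1, h2, rfl | ⟨h3, h4⟩⟩ := ih
      · exact ⟨u, h1, h2, .inr ⟨(hT hb).resolve_left
          ((bip h.ok0 e).1 ⟨adj_vt h.ok0 e.symm, u, rfl⟩), e.symm⟩⟩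
      · obtain ⟨-, z, rfl⟩ := (bip h.ok0 e.symm).2 (ce_nd h3)
        exact ⟨z, hb, thru h hΛ hQ ⟨ha, h3⟩ h4 e h1 hb h2, .inl rfl⟩
  obtain ⟨u, -, h2, e | ⟨⟨⟨-, _, e⟩, -⟩, -⟩⟩ := key _ (hc.2 _ hv _ hw)
  · exact Sum.inl.inj e ▸ h2
  · cases e

/-- among disjoint lines with a node off `U`, one has no node in `U` -/
theorem line (h : r.Co k q D l) {n : ℕ} {Q : Fin n → Set MV} (hc : ∀ i, Conn r.s.G (Q i))
    (hT : ∀ i, Q i ⊆ r.s.T) (hΛ : ∀ i, ∀ v ∈ r.Λ, Sum.inl v ∉ Q i)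
    (hd : ∀ i j, (Q i ∩ Q j).Nonempty → i = j) (hn : σ.f U < n)
    (ho : ∀ i, ∃ w, Sum.inl w ∈ Q i ∧ w ∉ σ.vs U) : ∃ i, ∀ v ∈ σ.vs U, Sum.inl v ∉ Q i := by
  have vt : ∀ i, Q i ⊆ r.s.Vt := fun i => (hT i).trans
    (union_subset inter_subset_left (sdiff_subset.trans inter_subset_left))
  obtain ⟨i, hi⟩ := JWf.miss (R := fun i => {v | Sp r U v (Q i)})
    (fun i j v a b => hd i j (sp_one h (vt i) (vt j) a b)) (σ.bd_fin U) hn
  obtain ⟨w, h1, h2⟩ := ho i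
  exact ⟨i, fun v hv c => h2 (all h (hc i) (hT i) (hΛ i)
    (fun z hz => disjoint_left.1 hi hz hz.1) c h1 hv)⟩

/-- one of two sets that touch holds a node -/
theorem nodes {s : Sk} (h : s.Ok0) {n g : ℕ} (hg : 2 * n ≤ g) {Q : Fin g → Set MV}
    (ht : ∀ i j : Fin g, (i : ℕ) + 1 = j → fb.Touch s.G (Q i) (Q j)) :
    ∃ c : Fin n → Fin g, Injective c ∧ ∀ i, ∃ w, Sum.inl w ∈ Q (c i) := by
  have : ∀ i : Fin n, ∃ j : Fin g, (j : ℕ) / 2 = i ∧ ∃ w, Sum.inl w ∈ Q j := by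
    intro i
    obtain ⟨u, hu, v, hv, e⟩ := ht ⟨2 * i, by omega⟩ ⟨2 * i + 1, by omega⟩ rfl
    by_cases c : v ∈ s.Nd
    · obtain ⟨-, w, rfl⟩ := c
      exact ⟨_, by simp only; omega, w, hv⟩
    · obtain ⟨-, w, rfl⟩ := (bip h e).2 c
      exact ⟨_, by simp only; omega, w, hu⟩
  choose c h1 h2 using this
  exact ⟨c, fun i j e => Fin.ext (by rw [← h1, ← h1, e]), h2⟩

end HCtl

namespace HB

open HCtl JWf in
theorem ctlS (bs : BasS) : CtlS := by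
  rintro σ θ T r k q D l g g' θ1 B B' s' h hB h' hB' ⟨e1, e2, i1, i2, hs⟩ hg hC U hU ⟨i0, j0, h0⟩
  have dj : ∀ p q x, x ∈ B p → x ∈ B q → p = q := fun p q x k l =>
    not_not.1 fun m => disjoint_left.1 (hB.2.2.1 p q m) k l
  have hΛ : ∀ p, ∀ v ∈ r.Λ, Sum.inl v ∉ B p := fun p v hv c =>
    (hB.1 p c).2 ((bs.2 _ h.ok0).2.2.2.1 ⟨v, h.lamn v hv ((hB.1 p c).1.elim (·.1) (·.1.1)), rfl⟩)
  obtain ⟨c, c1, c2⟩ := nodes h' (n := θ1) (g := g') (by omega) (Q := fun j => B' (i0, j))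
    fun i j e => hB'.2.2.2 _ _ (.inl ⟨rfl, .inl e⟩)
  obtain ⟨d, d1, d2⟩ := nodes h' (n := θ1) (g := g') (by omega) (Q := fun i => B' (i, j0))
    fun i j e => hB'.2.2.2 _ _ (.inr ⟨rfl, .inl e⟩)
  obtain ⟨j, hj⟩ := line h (Q := fun j => ⋃ m, B (m, e2 (c j)))
    (fun j => conn_line (e1 i0).pos (fun _ => hB.2.1 _)
      fun _ _ k => hB.2.2.2 _ _ (.inr ⟨rfl, .inl k⟩))
    (fun j => iUnion_subset fun m => (hB.1 _).trans sdiff_subset)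
    (fun j v hv a => let ⟨_, a⟩ := mem_iUnion.1 a; hΛ _ v hv a)
    (fun i j ⟨x, a, b⟩ => let ⟨_, a⟩ := mem_iUnion.1 a; let ⟨_, b⟩ := mem_iUnion.1 b
      c1 (i2 (congrArg Prod.snd (dj _ _ x a b)))) hU
    fun j => let ⟨w, a⟩ := c2 j
      ⟨w, mem_iUnion.2 ⟨_, hs _ _ w a⟩, fun b => h0 w b (row_sub _ _ _ a)⟩
  obtain ⟨i, hi⟩ := line h (Q := fun i => ⋃ m, B (e1 (d i), m))
    (fun j => conn_line (e1 i0).pos (fun _ => hB.2.1 _)
      fun _ _ k => hB.2.2.2 _ _ (.inl ⟨rfl, .inl k⟩))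
    (fun j => iUnion_subset fun m => (hB.1 _).trans sdiff_subset)
    (fun j v hv a => let ⟨_, a⟩ := mem_iUnion.1 a; hΛ _ v hv a)
    (fun i j ⟨x, a, b⟩ => let ⟨_, a⟩ := mem_iUnion.1 a; let ⟨_, b⟩ := mem_iUnion.1 b
      d1 (i1 (congrArg Prod.fst (dj _ _ x a b)))) hU
    fun j => let ⟨w, a⟩ := d2 j
      ⟨w, mem_iUnion.2 ⟨_, hs _ _ w a⟩, fun b => h0 w b (col_sub _ _ _ a)⟩
  refine hC U hU ⟨e1 (d i), e2 (c j), fun v hv a => ?_⟩
  obtain ⟨m, a | a⟩ := mem_iUnion.1 a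
  exacts [hi v hv (mem_iUnion.2 ⟨m, a⟩), hj v hv (mem_iUnion.2 ⟨m, a⟩)]

open JWf in
theorem patS (bs : BasS) : PatS := by
  intro k q n g'
  obtain ⟨g1, pt⟩ := patchS k q g'
  refine ⟨(n + 1) * g1, fun g hg s s' B X _ h' hk hq hB hX hn h1 h2 => ?_⟩
  have dj : ∀ p q x, x ∈ B p → x ∈ B q → p = q := fun p q x k l =>
    not_not.1 fun m => disjoint_left.1 (hB.2.2.1 p q m) k l
  have blk : ∀ π : Fin g × Fin g → Fin g, ∃ i0, i0 + g1 ≤ g ∧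
      ∀ p, i0 ≤ (π p).1 → (π p).1 < i0 + g1 → Disjoint (B p) X := fun π => by
    obtain ⟨i, hi⟩ := miss (n := n + 1)
      (R := fun i => {x | ∃ p, x ∈ B p ∧ i.1 * g1 ≤ (π p).1 ∧ (π p).1 < i.1 * g1 + g1})
      (fun i j x ⟨p, a, a1, a2⟩ ⟨p', b, b1, b2⟩ => by
        obtain rfl := dj _ _ x a b
        refine Fin.ext (le_antisymm ?_ ?_) <;> by_contra c <;>
          have := Nat.mul_le_mul_right g1 (Nat.succ_le_of_lt (not_le.1 c)) <;>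
          rw [Nat.succ_mul] at this <;> omega) hX (by omega)
    refine ⟨i.1 * g1, le_trans ?_ hg, fun p a b =>
      disjoint_left.2 fun x hx => disjoint_left.1 hi ⟨p, hx, a, b⟩⟩
    rw [← Nat.succ_mul]
    exact Nat.mul_le_mul_right g1 i.2
  obtain ⟨i0, a1, a2⟩ := blk Prod.fst
  obtain ⟨j0, b1, b2⟩ := blk Prod.snd
  let e1 : Fin g1 → Fin g := fun i => ⟨i0 + i, by omega⟩
  let e2 : Fin g1 → Fin g := fun i => ⟨j0 + i, by omega⟩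
  have m := ((bigS MV s.G g B _ _ hB subset_rfl).2.2.2.2 g1 (fun p => B (e1 p.1, e2 p.2))
    ⟨i0, j0, e1, e2, fun _ => rfl, fun _ => rfl, fun _ => rfl⟩).1
  have sub : ∀ p : Fin g1 × Fin g1, B (e1 p.1, e2 p.2) ⊆ s.bg B X ∩ ⋃ p, B p := fun p =>
    subset_inter ((row_sub _ (e2 p.2) _).trans (cross_big (disjoint_iUnion_left.2 fun m =>
      disjoint_union_left.2 ⟨a2 _ (Nat.le_add_right _ _) (Nat.add_lt_add_left p.1.2 _),
        b2 _ (Nat.le_add_right _ _) (Nat.add_lt_add_left p.2.2 _)⟩))) (subset_iUnion B _)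
  have m' : Model (fb.grid g1) s'.G s'.tv fun p => B (e1 p.1, e2 p.2) :=
    ⟨fun p => (sub p).trans h1, fun p => ⟨(m.2.1 p).1, fun u hu v hv =>
      ((m.2.1 p).2 u hu v hv).map id fun a ha b hb e =>
        Link.single ha hb (h2 a (sub p ha) b (sub p hb) e)⟩, m.2.2.1, fun p p' e =>
      let ⟨u, hu, v, hv, e⟩ := m.2.2.2 p p' e
      ⟨u, hu, v, hv, h2 u (sub p hu) v (sub p' hv) e⟩⟩
  obtain ⟨i1, j1, d1, d2, c1, c2, c3⟩ := pt g1 le_rfl s'.Φ MV s'.M s'.vx s'.H _ h'.hm hk hq m'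
  have m2 := ((bigS MV s'.G g1 _ _ _ m' subset_rfl).2.2.2.2 g'
    (fun p => B (e1 (d1 p.1), e2 (d2 p.2))) ⟨i1, j1, d1, d2, c1, c2, fun _ => rfl⟩).1
  obtain ⟨-, t1, t2, -⟩ := bs.2 s' h'
  refine ⟨_, ⟨i0 + i1, j0 + j1, e1 ∘ d1, e2 ∘ d2, fun i => by simp [e1, c1, add_assoc],
    fun j => by simp [e2, c2, add_assoc], fun _ => rfl⟩, fun p v hv => ?_, m2.2⟩
  have k1 := disjoint_left.1 (c3 p.1 p.2) hv
  have k2 : v ∈ s'.T ∪ (s'.Rm ∩ s'.Vt) := t1 ▸ m2.1 p hv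
  exact ⟨k2.resolve_right fun c => k1 (t2 c), k1⟩

end HB

end Pool.Agent.MP_9d78a0_co.gm

end MrgPart2

-- ======== part 3: formerly Pool.Agent.MP_9d78a0_co.gm.HAbsE
section MrgPart3

/-! Block H: the depth of a region. -/

set_option autoImplicit false

namespace Pool.Agent.MP_9d78a0_co.gm

open Set Function Cy FM Relation

namespace HAbsE

section chain

variable {Φ V : Type} {M : FM Φ} {vx : Φ → V} {Z Z' : Set V} {f g x : Φ} {z : V}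

/-- passages through faces and through vertices of `Z` -/
def Rc (M : FM Φ) (vx : Φ → V) (Z : Set V) : Φ → Φ → Prop :=
  ReflTransGen fun u v => u ∈ M.S ∧ v ∈ M.S ∧ (v ∈ M.fo u ∨ (vx u ∈ Z ∧ vx v = vx u))

theorem Rc.mem (h : Rc M vx Z f g) (hf : f ∈ M.S) : g ∈ M.S := by
  induction h with
  | refl => exact hf
  | tail _ e _ => exact e.2.1

theorem Rc.symm (hM : M.Ok) (h : Rc M vx Z f g) : Rc M vx Z g f := by
  induction h with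
  | refl => exact .refl
  | tail _ e ih =>
    exact .head ⟨e.2.1, e.1, e.2.2.imp (orb_symm hM.ia0 hM.ib0 e.1)
      fun ⟨k1, k2⟩ => ⟨k2 ▸ k1, k2.symm⟩⟩ ih

theorem Rc.mono (h : Rc M vx Z f g) (hZ : Z ⊆ Z') : Rc M vx Z' f g := by
  induction h with
  | refl => exact .refl
  | tail _ e ih => exact ih.tail ⟨e.1, e.2.1, e.2.2.imp id fun k => ⟨hZ k.1, k.2⟩⟩

theorem Rc.face (hM : M.Ok) (h : Rc M vx Z f g) (hf : f ∈ M.S) (hx : x ∈ M.fo g) :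
    Rc M vx Z f x := h.tail ⟨h.mem hf, hM.fo_mem (h.mem hf) hx, .inl hx⟩

theorem Rc.vert (h : Rc M vx Z f g) (hf : f ∈ M.S) (hx : x ∈ M.S) (hz : vx g ∈ Z)
    (e : vx x = vx g) : Rc M vx Z f x := h.tail ⟨h.mem hf, hx, .inr ⟨hz, e⟩⟩

theorem Rc.split (h : Rc M vx (insert z Z) f g) : Rc M vx Z f g ∨
    ∃ x, ∃ y ∈ M.S, vx x = z ∧ vx y = z ∧ Rc M vx Z f x ∧ Rc M vx Z y g := by
  induction h with
  | @refl => exact .inl .refl
  | @tail u v _ e ih =>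
    by_cases c : v ∈ M.fo u ∨ (vx u ∈ Z ∧ vx v = vx u)
    · exact ih.imp (·.tail ⟨e.1, e.2.1, c⟩) fun ⟨x, y, a, b1, b2, b3, b4⟩ =>
        ⟨x, y, a, b1, b2, b3, b4.tail ⟨e.1, e.2.1, c⟩⟩
    · obtain ⟨k1, k2⟩ := e.2.2.resolve_left fun k => c (.inl k)
      have k3 : vx u = z := k1.resolve_right fun k => c (.inr ⟨k, k2⟩)
      rcases ih with ih | ⟨x, -, -, b1, -, b3, -⟩
      exacts [.inr ⟨u, v, e.2.1, k3, k2.trans k3, ih, .refl⟩,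
        .inr ⟨x, v, e.2.1, b1, k2.trans k3, b3, .refl⟩]

/-- a chain of corners from the face of `f` to the face of `g` -/
structure Ch (M : FM Φ) (vx : Φ → V) (Z : Set V) (f g : Φ) (ob : Φ → ZMod 2) : Prop where
  face : ∀ x ∈ M.S, Ev M.a M.b 0 (ob + one M.b f + one M.b g) x
  vert : ∀ x ∈ M.S, Ev M.b M.c ob 0 x
  sup : ∀ x ∈ M.S, ob x ≠ 0 → vx x ∈ Z ∧ Rc M vx Z f x
  two : ∀ z, ∃ u v, ∀ y ∈ M.S, vx y = z → ob y ≠ 0 → y ∈ ({u, M.b u, v, M.b v} : Set Φ)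

theorem or4 {a b c d : ZMod 2} (h : a + b + (c + d) ≠ 0) : a ≠ 0 ∨ b ≠ 0 ∨ c ≠ 0 ∨ d ≠ 0 := by
  revert a b c d; decide

theorem chain (hM : M.Ok) (hL : M.Lbl vx) (hZ : Z.Finite) :
    ∀ f ∈ M.S, ∀ g, Rc M vx Z f g → ∃ ob, Ch M vx Z f g ob := by
  induction Z, hZ using Finite.induction_on with
  | empty =>
    intro f hf g h
    have k : g ∈ M.fo f := by
      induction h with
      | refl => exact orb_self ..
      | tail _ e ih => exact orb_trans ih (e.2.2.resolve_right fun k => k.1)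
    exact ⟨0, fun x hx => by simpa only [zero_add] using HCur.ev_pair hM.fin hM.ia hM.ib hf k hx,
      fun x _ => ev_zero fun _ _ => ⟨rfl, rfl⟩, fun _ _ k => absurd rfl k,
      fun _ => ⟨f, f, fun _ _ _ k => absurd rfl k⟩⟩
  | @insert z Z hz _ ih =>
    intro f hf g h
    by_cases c : Rc M vx Z f g
    · obtain ⟨ob, k⟩ := ih f hf g c
      exact ⟨ob, k.face, k.vert, fun x hx e =>
        ⟨.inr (k.sup x hx e).1, (k.sup x hx e).2.mono (subset_insert _ _)⟩, k.two⟩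
    obtain ⟨x, y, hy, e1, e2, r1, r2⟩ := h.split.resolve_left c
    have hx := r1.mem hf
    obtain ⟨o1, k1⟩ := ih f hf x r1
    obtain ⟨o2, k2⟩ := ih y hy g r2
    have s1 := r1.mono (subset_insert z Z)
    have s2 := s1.vert hf hy (.inl e1) (e2.trans e1.symm)
    have at1 : ∀ u ∈ M.S, vx u = z → Rc M vx (insert z Z) f u → ∀ w, one M.b u w ≠ 0 →
        vx w = z ∧ Rc M vx (insert z Z) f w := fun u hu e r w k => by
      rcases HCur.one_ne k with rfl | rfl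
      exacts [⟨e, r⟩, ⟨(hL.b hM hu).trans e, r.face hM hf (orb_q (orb_self ..))⟩]
    refine ⟨o1 + o2 + (one M.b x + one M.b y), fun w hw => ?_, fun w hw => ?_, fun w hw k => ?_,
      fun z' => ?_⟩
    · have := (k1.face w hw).add (k2.face w hw)
      rwa [add_zero, show o1 + one M.b f + one M.b x + (o2 + one M.b y + one M.b g) =
        o1 + o2 + (one M.b x + one M.b y) + one M.b f + one M.b g by abel] at this
    · have := ((k1.vert w hw).add (k2.vert w hw)).add (HCur.ev_pair hM.fin hM.ic hM.ib hx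
        ((orb_comm M.b M.c x).subset ((hL x hx y hy).1 (e1.trans e2.symm))) hw).symm
      simpa only [add_zero] using this
    · rcases or4 k with k | k | k | k
      · exact ⟨.inr (k1.sup w hw k).1, (k1.sup w hw k).2.mono (subset_insert _ _)⟩
      · exact ⟨.inr (k2.sup w hw k).1, s2.trans ((k2.sup w hw k).2.mono (subset_insert _ _))⟩
      · exact (at1 x hx e1 s1 w k).imp .inl id
      · exact (at1 y hy e2 s2 w k).imp .inl id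
    by_cases e : z' = z
    · refine ⟨x, y, fun w hw ew k => ?_⟩
      rcases or4 k with k | k | k | k
      · exact absurd (k1.sup w hw k).1 (ew ▸ e ▸ hz)
      · exact absurd (k2.sup w hw k).1 (ew ▸ e ▸ hz)
      · exact (HCur.one_ne k).imp id .inl
      · exact .inr (.inr (HCur.one_ne k))
    have two : ∀ w ∈ M.S, vx w = z' → (o1 + o2 + (one M.b x + one M.b y)) w ≠ 0 →
        o1 w ≠ 0 ∨ o2 w ≠ 0 := fun w _ ew k => by
      rcases or4 k with k | k | k | k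
      exacts [.inl k, .inr k, absurd (ew.symm.trans (at1 x hx e1 s1 w k).1) e,
        absurd (ew.symm.trans (at1 y hy e2 s2 w k).1) e]
    by_cases d : ∃ w ∈ M.S, vx w = z' ∧ o1 w ≠ 0
    · obtain ⟨w, hw, ew, k⟩ := d
      obtain ⟨u, v, t⟩ := k1.two z'
      refine ⟨u, v, fun w' hw' ew' k' => t w' hw' ew' ((two w' hw' ew' k').resolve_right fun j => ?_)⟩
      exact c ((((k1.sup w hw k).2.vert hf hw' (k1.sup w hw k).1 (ew'.trans ew.symm)).trans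
        ((k2.sup w' hw' j).2.symm hM)).trans r2)
    · obtain ⟨u, v, t⟩ := k2.two z'
      exact ⟨u, v, fun w hw ew k => t w hw ew ((two w hw ew k).resolve_left fun j =>
        d ⟨w, hw, ew, j⟩)⟩

theorem deg6 (hM : M.Ok) (hf : f ∈ M.S) (h : (M.vo f).ncard ≤ 6) (hg : g ∈ M.vo f) :
    ∃ e, (e = f ∨ e = M.b f ∨ e = M.b (M.c f)) ∧ (g = e ∨ g = M.c e) := by
  obtain ⟨r1, -, r2, -, r3, -⟩ := rotS Φ M hM f hf
  obtain ⟨i, hi, e⟩ := r3 g hg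
  have c1 := hM.cc (hM.b_mem hf)
  obtain rfl | rfl | rfl : i = 0 ∨ i = 1 ∨ i = 2 := by omega
  · exact ⟨f, .inl rfl, e⟩
  · exact ⟨_, .inr (.inl rfl), e.symm.imp (·.trans c1) id⟩
  · have m := hM.vo_mem hf (r1 2)
    have e3 : M.c (M.b (M.rot^[2] f)) = f :=
      (iterate_succ_apply' M.rot 2 f).symm.trans ((r2 3 0).2 (by
        rw [show (M.vo f).ncard / 2 = 3 by omega]; rfl))
    refine ⟨_, .inr (.inr rfl), ?_⟩
    rwa [← congrArg (fun y => M.b (M.c y)) e3, hM.cc (hM.b_mem m), hM.bb m]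

theorem z01 {a : ZMod 2} (h : a ≠ 0) : a = 1 := (z2_cases a).resolve_left h

/-- the colouring of a face has no change or two changes -/
theorem pair {S : Set Φ} {p q : Φ → Φ} {ψ : Φ → ZMod 2} (hS : S.Finite) (hp : Inv S p)
    (hq : Inv S q) (hf : f ∈ S) (h1 : ∀ y ∈ orb p q f, ψ (p y) = ψ y)
    (h2 : ({y | y ∈ orb p q f ∧ ψ (q y) ≠ ψ y} : Set Φ).ncard ≤ 4) :
    ∃ u ∈ orb p q f, ∃ v ∈ orb p q f, Pot (orb p q f) q (one q u + one q v) ψ ∧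
      (u = v ∨ (ψ (q u) ≠ ψ u ∧ ψ (q v) ≠ ψ v)) := by
  have mem : ∀ y ∈ orb p q f, y ∈ S := fun y => orb_mem hp.inv0 hq.inv0 hf
  have n2 : ∀ a b : ZMod 2, a ≠ b → a = b + 1 := by decide
  have cl : ∀ y ∈ orb p q f, ψ (q y) ≠ ψ y → ψ (q (q y)) ≠ ψ (q y) := fun y hy k => by
    rw [(hq y (mem y hy)).2.1]; exact k.symm
  by_cases c : ∃ u ∈ orb p q f, ψ (q u) ≠ ψ u
  swap
  · exact ⟨f, orb_self .., f, orb_self .., fun y hy => by
      rw [Pi.add_apply, z2_add_self, add_zero]; exact not_not.1 fun k => c ⟨y, hy, k⟩, .inl rfl⟩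
  obtain ⟨u, hu, cu⟩ := c
  by_cases c : ∃ v ∈ orb p q f, ψ (q v) ≠ ψ v ∧ v ≠ u ∧ v ≠ q u
  · obtain ⟨v, hv, cv, n1, n3⟩ := c
    refine ⟨u, hu, v, hv, fun y hy => ?_, .inr ⟨cu, cv⟩⟩
    by_cases d : (y = u ∨ y = q u) ∨ y = v ∨ y = q v
    · rw [HCur.wt1 hq (mem u hu) (mem v hv) n1 n3 d]
      rcases d with (rfl | rfl) | rfl | rfl
      exacts [n2 _ _ cu, n2 _ _ (cl u hu cu), n2 _ _ cv, n2 _ _ (cl v hv cv)]
    · rw [HCur.wt0 (fun k => d (.inl k)) fun k => d (.inr k), add_zero]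
      by_contra cy
      have a1 := hq u (mem u hu)
      have a2 := hq v (mem v hv)
      have k := (ncard_le_ncard (s := {y, u, q u, v, q v}) (by
        rintro _ (rfl | rfl | rfl | rfl | rfl)
        exacts [⟨hy, cy⟩, ⟨hu, cu⟩, ⟨orb_q hu, cl u hu cu⟩, ⟨hv, cv⟩, ⟨orb_q hv, cl v hv cv⟩])
        (hS.subset fun y (k : y ∈ orb p q f ∧ ψ (q y) ≠ ψ y) => mem y k.1)).trans h2
      rw [ncard_insert_of_notMem (by grind), ncard_insert_of_notMem (by grind),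
        ncard_insert_of_notMem (by grind), ncard_pair (by grind)] at k
      omega
  · have ev : Ev p q 0 (one q u) f := ⟨ψ, fun y hy => by rw [h1 y hy]; simp, fun y hy => by
      by_cases d : y = u ∨ y = q u
      · rw [one, if_pos d]
        rcases d with rfl | rfl
        exacts [n2 _ _ cu, n2 _ _ (cl u hu cu)]
      · rw [one, if_neg d, add_zero]
        exact not_not.1 fun k => c ⟨y, hy, k, fun e => d (.inl e), fun e => d (.inr e)⟩⟩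
    rw [← par_eq_zero, HCur.par_snd hS hp hq (mem u hu) hf,
      if_pos (orb_symm hp.inv0 hq.inv0 hf hu)] at ev
    exact absurd ev (by decide)

/-- a colouring of a face of a full connected submap extends to its region -/
theorem col {K : Set V} {p : Φ} {ψ : Φ → ZMod 2} (hM : M.Ok) (hL : M.Lbl vx) (hZ : Z.Finite)
    (hK : ∀ u ∈ K, ∀ v ∈ K, Link (M.gph vx) K u v) (he : (M.sub (M.ind vx K)).eg = M.eg)
    (hp : p ∈ M.S) (hd : Disjoint Z K) (hc : ∀ x ∈ M.S, vx x ∈ K → vx (M.a x) ∈ K ∪ Z)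
    (h1 : ∀ f ∈ M.ind vx K ∩ M.reg (M.ind vx K) p, ψ (M.a f) = ψ f)
    (h2 : ({f | f ∈ M.ind vx K ∩ M.reg (M.ind vx K) p ∧
      ψ ((M.sub (M.ind vx K)).b f) ≠ ψ f} : Set Φ).ncard ≤ 4) :
    ∃ (χ : Φ → ZMod 2) (Y : Set V), Y.Finite ∧ Y.ncard ≤ 2 ∧
      (∀ y ∈ Y, ∃ f ∈ M.ind vx K ∩ M.reg (M.ind vx K) p, vx f = y ∧
        ψ ((M.sub (M.ind vx K)).b f) ≠ ψ f) ∧
      (∀ f ∈ M.ind vx K ∩ M.reg (M.ind vx K) p, χ f = ψ f) ∧
      ∀ f ∈ M.reg (M.ind vx K) p, χ (M.a f) = χ f ∧ (f ∉ M.ind vx K → χ (M.c f) = χ f) ∧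
        (χ (M.b f) ≠ χ f → vx f ∈ Z ∪ Y) ∧
        (vx f ∉ K → ({g | g ∈ M.vo f ∧ χ (M.b g) ≠ χ g} : Set Φ).ncard ≤ 4) := by
  classical
  have hU := es_ind hM hL K
  have hc' : (M.sub (M.ind vx K)).Con := fun f hf g hg =>
    ((gphC Φ V M vx hM hL).2.2.1 K f hf g hg).2 (hK _ hf.2.1 _ hg.2.1)
  have hK0 : ∀ x ∈ M.ind vx K, vx x ∈ K := fun x k => k.2.1
  have hK1 : ∀ x ∈ M.S, vx x ∈ K → x ∉ M.ind vx K → vx (M.a x) ∈ Z := fun x hx k n =>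
    (hc x hx k).resolve_left fun j => n ⟨hx, k, j⟩
  generalize M.ind vx K = U at *
  rcases (U ∩ M.reg U p).eq_empty_or_nonempty with e0 | ⟨f0, m0, r0⟩
  · exact ⟨0, ∅, finite_empty, by simp, fun _ k => k.elim, fun f k => by simp [e0] at k,
      fun f _ => ⟨rfl, fun _ => rfl, fun k => absurd rfl k, fun _ => by simp⟩⟩
  have hN := hM.sub hU
  have rS := (regBC Φ M U hM hU p hp).1
  have rE := (regBC Φ M U hM hU p hp).2.1
  have eF : U ∩ M.reg U p = orb M.a (M.sub U).b f0 := by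
    rw [← rE f0 r0, inter_comm]; exact (regS Φ M U hM hU hc' he).2 f0 m0
  rw [eF] at h1 h2 ⊢
  have mU : ∀ y ∈ orb M.a (M.sub U).b f0, y ∈ U ∧ y ∈ M.reg U p := fun y k => eF.ge k
  obtain ⟨u, hu, v, hv, pt, huv⟩ := pair (S := U) hN.fin hN.ia hN.ib m0 h1 h2
  have uS := hU.1 (mU u hu).1
  have vS := hU.1 (mU v hv).1
  have rc : ∀ y ∈ orb M.a (M.sub U).b f0, Rc M vx Z f0 y := fun y hy =>
    (orb_ind (P := fun y => y ∈ U ∧ Rc M vx Z f0 y) hy ⟨m0, .refl⟩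
      (fun w k => ⟨(hU.2 w k.1).1, k.2.face hM (hU.1 m0) (orb_p (orb_self ..))⟩)
      fun w k => ⟨(hN.ib w k.1).1, ((sub_b_R hM hU k.1).ind (p := fun t => vx t ∈ K ∧
        Rc M vx Z f0 t) hM (hU.1 k.1) ⟨hK0 w k.1, k.2⟩
        (fun t ht j => ⟨by rw [hL.b hM ht]; exact j.1, j.2.face hM (hU.1 m0) (orb_q (orb_self ..))⟩)
        (fun _ _ j => j.elim) fun t ht n j => ⟨by rw [hL.c hM ht]; exact j.1,
          ((j.2.face hM (hU.1 m0) (orb_p (orb_self ..))).vert (hU.1 m0) (hM.a_mem (hM.c_mem ht))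
            (hK1 t ht j.1 n) (hL.ac hM ht)).face hM (hU.1 m0) (by
              simpa only [hM.aa (hM.c_mem ht), FM.fo] using
                orb_p (orb_self M.a M.b (M.a (M.c t))))⟩).2⟩).2
  obtain ⟨ob, ch⟩ := chain hM hL hZ u uS v (((rc u hu).symm hM).trans (rc v hv))
  have cn : M.Clean U f0 := by
    by_contra c
    have k := cleanS Φ M U hM hU hc'
    have k2 := (ncard_pos (s := (M.sub U).fo '' {f | f ∈ U ∧ ¬ M.Clean U f})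
      ((hN.fin.subset fun _ k => k.1).image _)).2 ⟨_, f0, ⟨m0, c⟩, rfl⟩
    omega
  have o0 : ∀ w ∈ U, ∀ y, vx y ∉ K → one M.b w y = 0 := fun w hw y hy => if_neg (by
    rintro (rfl | rfl)
    exacts [hy (hK0 _ hw), hy (by rw [hL.b hM (hU.1 hw)]; exact hK0 _ hw)])
  obtain ⟨χ, c1, c2, c3⟩ := cn.disc 0 (ob + one M.b u + one M.b v) 0
    (fun g k => ch.face g (rS (rE f0 r0 ▸ k))) (fun g _ _ => ev_zero fun _ _ => ⟨rfl, rfl⟩)
    fun g k n => (ch.vert g (rS (rE f0 r0 ▸ k))).congr fun y hy => ⟨rfl, rfl, by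
      have gS := rS (rE f0 r0 ▸ k)
      have z : ∀ w ∈ U, one M.b w y = 0 := fun w hw => if_neg (by
        rintro (rfl | rfl)
        · exact n ⟨_, hw, orb_symm hM.ib0 hM.ic0 gS hy⟩
        · exact n ⟨w, hw, orb_trans (orb_p (orb_self ..)) (orb_symm hM.ib0 hM.ic0 gS hy)⟩)
      simp only [Pi.add_apply, z u (mU u hu).1, z v (mU v hv).1, add_zero], rfl⟩
  rw [rE f0 r0] at c1 c2 c3
  have ob0 : ∀ y ∈ M.S, vx y ∈ K → ob y = 0 := fun y hy k =>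
    not_not.1 fun j => disjoint_left.1 hd (ch.sup y hy j).1 k
  have ind : ∀ {T : Set Φ} {q : Φ → Φ}, Inv T q → ∀ w ∈ T, ∀ y ∈ T,
      (if q y = w then 1 else 0) = (if y = w then (1 : ZMod 2) else 0) + one q w y := by
    intro T q hq w hw y hy
    have a1 := hq w hw
    have a2 := hq y hy
    unfold one
    split_ifs <;> first | rfl | grind
  have run : ∀ y ∈ orb M.a (M.sub U).b f0, χ ((M.sub U).b y) =
      χ y + (one (M.sub U).b u + one (M.sub U).b v) y := fun y hy => by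
    have k := ((sub_b_R hM hU (mU y hy).1).ind (p := fun t => vx t ∈ K ∧ t ∈ M.reg U p ∧
      χ t + (if t = u then 1 else 0) + (if t = v then 1 else 0) =
        χ y + (if y = u then 1 else 0) + if y = v then 1 else 0) hM (hU.1 (mU y hy).1)
      ⟨hK0 y (mU y hy).1, (mU y hy).2, rfl⟩
      (fun t ht j => ⟨by rw [hL.b hM ht]; exact j.1, j.2.1.tail (.inr (.inl rfl)), by
        rw [← j.2.2, c2 t j.2.1, ind hM.ib u uS t ht, ind hM.ib v vS t ht]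
        simp only [Pi.add_apply, ob0 t ht j.1]
        linear_combination z2_add_self (one M.b u t) + z2_add_self (one M.b v t)⟩)
      (fun _ _ j => j.elim) fun t ht n j => ⟨by rw [hL.c hM ht]; exact j.1,
        j.2.1.tail (.inr (.inr ⟨n, rfl⟩)), by
          have n' : M.c t ∉ U := fun k => n ((hU.cl.c_iff hM ht).1 k)
          rw [← j.2.2, c3 t ⟨j.2.1, n⟩, if_neg fun e : M.c t = u => n' (e ▸ (mU u hu).1),
            if_neg fun e : M.c t = v => n' (e ▸ (mU v hv).1),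
            if_neg fun e : t = u => n (e ▸ (mU u hu).1),
            if_neg fun e : t = v => n (e ▸ (mU v hv).1)]
          simp⟩).2.2
    rw [ind hN.ib u (mU u hu).1 y (mU y hy).1, ind hN.ib v (mU v hv).1 y (mU y hy).1] at k
    rw [Pi.add_apply]
    linear_combination k - z2_add_self (one (M.sub U).b u y) - z2_add_self (one (M.sub U).b v y)
  refine ⟨fun y => χ y + (ψ f0 - χ f0), if u = v then ∅ else {vx u, vx v}, by split_ifs <;> simp,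
    ?_, fun y hy => ?_, fun y hy => ?_, fun f hf => ⟨by simp [c1 f hf], fun n => by
      simp [c3 f ⟨hf, n⟩], fun k => ?_, fun n => ?_⟩⟩
  · split_ifs
    exacts [by simp, (ncard_insert_le _ _).trans (by simp)]
  · split_ifs at hy with e
    · exact hy.elim
    · rcases hy with rfl | rfl
      exacts [⟨u, hu, rfl, (huv.resolve_left e).1⟩, ⟨v, hv, rfl, (huv.resolve_left e).2⟩]
  · exact (orb_ind (P := fun y => y ∈ orb M.a (M.sub U).b f0 ∧ χ y + (ψ f0 - χ f0) = ψ y) hy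
      ⟨orb_self .., by ring⟩ (fun w k => ⟨orb_p k.1, by
        rw [h1 w k.1, c1 w (mU w k.1).2, ← k.2]; simp⟩)
      fun w k => ⟨orb_q k.1, by rw [pt w k.1, run w k.1, ← k.2]; ring⟩).2
  · by_contra c
    refine k ?_
    have z : ob f = 0 := not_not.1 fun j => c (.inl (ch.sup f (rS hf) j).1)
    simp only [c2 f hf, Pi.add_apply, z, add_left_inj, add_eq_left, zero_add]
    split_ifs at c with e
    · rw [e, z2_add_self]
    · have z' : ∀ w ∈ M.S, vx w ≠ vx f → one M.b w f = 0 := fun w hw j => if_neg (by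
        rintro (rfl | rfl); exacts [j rfl, j (hL.b hM hw).symm])
      rw [z' u uS fun j => c (.inr (.inl j.symm)), z' v vS fun j => c (.inr (.inr j.symm)), add_zero]
  · obtain ⟨s, t, k⟩ := ch.two (vx f)
    refine (ncard_le_ncard (t := {s, M.b s, t, M.b t}) (fun g j => ?_) (toFinite _)).trans
      ((ncard_insert_le _ _).trans (Nat.succ_le_succ ((ncard_insert_le _ _).trans
        (Nat.succ_le_succ ((ncard_insert_le _ _).trans (by simp))))))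
    have eg := hL.of_vo hM (rS hf) j.1
    have gR : g ∈ M.reg U p := rE f hf ▸ (regBC Φ M U hM hU f (rS hf)).2.2.1
      (fun ⟨w, hw, i⟩ => n (hL.of_vo hM (hU.1 hw) i ▸ hK0 w hw)) j.1
    refine k g (rS gR) eg fun z => j.2 ?_
    simp only [c2 g gR, Pi.add_apply, z, o0 u (mU u hu).1 g (eg ▸ n), o0 v (mU v hv).1 g (eg ▸ n),
      add_zero]

end chain

theorem bi_le {α β : Type} {X : Set α} (hX : X.Finite) (N : α → Set β) (m : ℕ) :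
    (∀ x ∈ X, (N x).ncard ≤ m) → (⋃ x ∈ X, N x).ncard ≤ X.ncard * m := by
  induction X, hX using Finite.induction_on with
  | empty => simp
  | @insert a X ha hX ih =>
    intro h
    rw [biUnion_insert, ncard_insert_of_notMem ha hX, add_mul, one_mul, add_comm]
    exact (ncard_union_le _ _).trans (add_le_add (h a (.inl rfl)) (ih fun x k => h x (.inr k)))

/-- from the colouring of the region to the cut -/
theorem fin {σ : AG} {r : Rw σ} {k q D l n : ℕ} {X Y K : Set MV} {p : r.s.Φ}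
    {χ : r.s.Φ → ZMod 2} (h : r.Co k q D l) (hp : p ∈ r.s.M.S) (hK : Disjoint K r.s.H)
    (hX : X ⊆ r.s.Nd) (xn : X.ncard ≤ n) (yf : Y.Finite) (yn : Y.ncard ≤ 2)
    (hY : ∀ y ∈ Y, y ∉ r.s.Nd ∧ (r.s.nb y).Finite ∧ (r.s.nb y).ncard ≤ 3)
    (hc : ∀ f ∈ r.s.rg K p, χ (r.s.M.a f) = χ f ∧ (f ∉ r.s.M.ind r.s.vx K → χ (r.s.M.c f) = χ f) ∧
      (χ (r.s.M.b f) ≠ χ f → r.s.vx f ∈ X ∪ r.s.H ∩ r.s.Vt ∪ Y) ∧ (r.s.vx f ∉ K →
        ({g | g ∈ r.s.M.vo f ∧ χ (r.s.M.b g) ≠ χ g} : Set r.s.Φ).ncard ≤ 4))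
    {Ct : Set σ.ε} {A : ZMod 2 → Set W}
    (eC : Ct = {a | ∃ f ∈ r.s.rg K p \ r.s.M.ind r.s.vx K, r.own a = some (r.s.vx f)})
    (eA : ∀ c v, v ∈ A c ↔
      ∃ f ∈ r.s.M.ind r.s.vx K ∩ r.s.rg K p, r.s.vx f = Sum.inl v ∧ χ f = c) :
    ∃ U ⊆ Ct, (((σ.vs U ∪ A 0) ∩ (σ.vs (Ct \ U) ∪ A 1) ∩ σ.sh) \ (r.Λ ∪ A 0 ∩ A 1)).ncard ≤
      n + 6 + q * D := by
  have hM := h.ok0.hm.ok
  have hL := h.ok0.hm.lbl
  have rS : r.s.rg K p ⊆ r.s.M.S := (regBC _ _ _ hM (es_ind hM hL K) p hp).1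
  have ra : ∀ f ∈ r.s.rg K p, r.s.M.a f ∈ r.s.rg K p := fun _ k => k.tail (.inl rfl)
  have rb : ∀ f ∈ r.s.rg K p, r.s.M.b f ∈ r.s.rg K p := fun _ k => k.tail (.inr (.inl rfl))
  have rc : ∀ f ∈ r.s.rg K p, f ∉ r.s.M.ind r.s.vx K → r.s.M.c f ∈ r.s.rg K p :=
    fun _ k n => k.tail (.inr (.inr ⟨n, rfl⟩))
  have vf : r.s.Vt.Finite := hM.fin.image _
  have nH : ∀ x ∈ r.s.H, x ∉ r.s.Nd := fun x a b => by
    obtain ⟨_, rfl⟩ := h.ok0.hr.1 a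
    obtain ⟨_, e⟩ := b.2
    cases e
  have vo : ∀ f ∈ r.s.rg K p, r.s.vx f ∈ r.s.H → ∀ g ∈ r.s.M.vo f,
      g ∈ r.s.rg K p ∧ g ∉ r.s.M.ind r.s.vx K := fun f hf k g hg => by
    have n : ∀ g ∈ r.s.M.vo f, g ∉ r.s.M.ind r.s.vx K := fun g hg j =>
      disjoint_left.1 hK j.2.1 (hL.of_vo hM (rS hf) hg ▸ k)
    exact ⟨(orb_ind (P := fun g => g ∈ r.s.M.vo f ∧ g ∈ r.s.rg K p) hg ⟨orb_self .., hf⟩
      (fun z j => ⟨orb_p j.1, rb z j.2⟩) fun z j => ⟨orb_q j.1, rc z j.2 (n z j.1)⟩).2, n g hg⟩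
  have shf : σ.sh.Finite := finite_iUnion fun a => σ.bd_fin {a}
  have ex : ∀ x : MV, ∃ (U : Set σ.ε) (C : Set W), C.Finite ∧ C.ncard ≤ D ∧
      ∀ f ∈ r.s.rg K p, r.s.vx f = x → x ∈ r.s.H → r.dcut f χ U ⊆ C := fun x => by
    by_cases c : ∃ f ∈ r.s.rg K p, r.s.vx f = x ∧ x ∈ r.s.H
    · obtain ⟨f, hf, rfl, k⟩ := c
      obtain ⟨U, -, u⟩ := h.dep f ⟨rS hf, k⟩ χ ⟨fun g hg => (hc g (vo f hf k g hg).1).2.1
        (vo f hf k g hg).2, (hc f hf).2.2.2 fun j => disjoint_left.1 hK j k⟩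
      refine ⟨U, _, shf.subset fun _ j => j.1.2, u, fun g hg e _ => ?_⟩
      simp only [Rw.dcut, Sk.clr, e, hM.vo_eq (rS hf) ((hL f (rS hf) g (rS hg)).1 e.symm)]
      exact subset_rfl
    · exact ⟨∅, ∅, finite_empty, by simp, fun f hf e k => absurd ⟨f, hf, e, k⟩ c⟩
  choose Uh Ch c1 c2 c3 using ex
  refine ⟨{a | ∃ f ∈ r.s.rg K p \ r.s.M.ind r.s.vx K, r.own a = some (r.s.vx f) ∧
    ((r.s.vx f ∉ r.s.H ∧ χ f = 0) ∨ (r.s.vx f ∈ r.s.H ∧ a ∈ Uh (r.s.vx f)))},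
    fun a ⟨f, k1, k2, _⟩ => eC ▸ ⟨f, k1, k2⟩, (ncard_le_ncard
      (t := nodeOf '' X ∪ (⋃ y ∈ Y, r.s.nb y) ∪ ⋃ x ∈ r.s.H ∩ r.s.Vt, Ch x) ?_
      ((((vf.subset fun _ k => (hX k).1).image _).union (yf.biUnion fun y k => (hY y k).2.1)).union
        ((vf.inter_of_right _).biUnion fun x _ => c1 x))).trans ?_⟩
  swap
  · have e1 := ncard_image_le (f := nodeOf) (vf.subset fun _ k => (hX k).1)
    have e2 := bi_le yf r.s.nb 3 fun y k => (hY y k).2.2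
    have e3 := (bi_le (vf.inter_of_right r.s.H) Ch D fun x _ => c2 x).trans
      (Nat.mul_le_mul_right D h.holes)
    have e4 := ncard_union_le (nodeOf '' X) (⋃ y ∈ Y, r.s.nb y)
    have e5 := ncard_union_le (nodeOf '' X ∪ ⋃ y ∈ Y, r.s.nb y) (⋃ x ∈ r.s.H ∩ r.s.Vt, Ch x)
    omega
  rintro v ⟨⟨⟨s0, s1⟩, sh⟩, nv⟩
  by_contra c
  simp only [mem_union, not_or, mem_iUnion, not_exists] at c nv
  obtain ⟨⟨vX, vY⟩, vC⟩ := c
  have edge : ∀ f ∈ r.s.M.S, v ∈ r.s.nb (r.s.vx f) →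
      ∃ e ∈ r.s.M.vo f, r.s.vx (r.s.M.a e) = Sum.inl v := by
    rintro f hf ⟨-, e, he, k | k⟩
    · exact ⟨e, (hL f hf e he).1 k.1.symm, k.2⟩
    · exact ⟨_, (hL f hf _ (hM.a_mem he)).1 k.2.symm, by rw [hM.aa he, k.1]⟩
  let Has : ZMod 2 → Prop := fun c => ∃ f ∈ r.s.rg K p, r.s.vx f = Sum.inl v ∧ χ f = c
  have both : ∀ c c', c ≠ c' → Has c → Has c' → v ∈ A c := by
    rintro _ _ ne ⟨f, hf, e, rfl⟩ ⟨f', hf', e', rfl⟩
    by_contra j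
    have nd : r.s.vx f ∈ r.s.Nd := ⟨⟨f, rS hf, rfl⟩, v, e.symm⟩
    refine ne (orb_ind (P := fun g => g ∈ r.s.rg K p ∧ r.s.vx g = r.s.vx f ∧ χ g = χ f)
      ((hL f (rS hf) f' (rS hf')).1 (e.trans e'.symm)) ⟨hf, rfl, rfl⟩
      (fun z i => ⟨rb z i.1, (hL.b hM (rS i.1)).trans i.2.1, Eq.trans (not_not.1 fun t => ?_) i.2.2⟩)
      fun z i => ?_).2.2.symm
    · rcases i.2.1 ▸ (hc z i.1).2.2.1 t with (t | t) | t
      exacts [vX ⟨_, t, by rw [e]; rfl⟩, nH _ t.1 nd, (hY _ t).1 nd]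
    · have n : z ∉ r.s.M.ind r.s.vx K := fun t => j ((eA _ v).2 ⟨z, ⟨t, i.1⟩, i.2.1.trans e, i.2.2⟩)
      exact ⟨rc z i.1 n, (hL.c hM (rS i.1)).trans i.2.1, ((hc z i.1).2.1 n).trans i.2.2⟩
  have cell : ∀ f ∈ r.s.rg K p \ r.s.M.ind r.s.vx K, r.s.vx f ∉ r.s.H → r.s.vx f ∉ r.s.Nd →
      v ∈ r.s.nb (r.s.vx f) → Has (χ f) := fun f hf n1 n2 hv => by
    have fS := rS hf.1
    have bb : ∀ z ∈ r.s.rg K p, r.s.vx z = r.s.vx f → χ (r.s.M.b z) = χ z := fun z hz e =>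
      not_not.1 fun t => by
        rcases e ▸ (hc z hz).2.2.1 t with (t | t) | t
        exacts [n2 (hX t), n1 t.1, vY _ t hv]
    obtain ⟨e, he, ev⟩ := edge f fS hv
    obtain ⟨e1, k1, k2⟩ := deg6 hM fS (h.ok0.deg f fS n2 n1) he
    have k3 : e1 ∈ r.s.rg K p ∧ χ e1 = χ f := by
      rcases k1 with rfl | rfl | rfl
      exacts [⟨hf.1, rfl⟩, ⟨rb f hf.1, bb f hf.1 rfl⟩, ⟨rb _ (rc f hf.1 hf.2),
        (bb _ (rc f hf.1 hf.2) (hL.c hM fS)).trans ((hc f hf.1).2.1 hf.2)⟩]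
    refine ⟨_, ra e1 k3.1, ?_, (hc e1 k3.1).1.trans k3.2⟩
    rcases k2 with rfl | rfl
    exacts [ev, (hL.ac hM (rS k3.1)).symm.trans ev]
  have clr : ∀ f ∈ r.s.rg K p, r.s.vx f ∈ r.s.H → ∀ c, v ∈ r.s.clr f χ c → Has c := by
    rintro f hf k c ⟨g, ⟨hg, e⟩, ev⟩
    have gR := (vo f hf k g hg).1
    obtain ⟨-, w, ew⟩ : r.s.vx (r.s.M.a g) ∈ r.s.Nd := not_not.1 fun j =>
      nH _ k (hL.of_vo hM (rS hf) hg ▸ (h.ok0.bip g (rS gR)).2 j)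
    exact ⟨_, ra g gR, by rw [← ev, Sk.far, ← ew]; rfl, (hc g gR).1.trans e⟩
  have hole : ∀ f ∈ r.s.rg K p, r.s.vx f ∈ r.s.H →
      v ∈ σ.vs (Uh (r.s.vx f)) ∪ r.s.clr f χ 0 →
      v ∈ σ.vs (r.ct (r.s.vx f) \ Uh (r.s.vx f)) ∪ r.s.clr f χ 1 → Has 0 ∧ Has 1 :=
    fun f hf k a b => by
      have j : v ∈ r.s.clr f χ 0 ∩ r.s.clr f χ 1 := not_not.1 fun j => vC _ ⟨k, f, rS hf, rfl⟩
        (c3 _ f hf rfl k ⟨⟨⟨a, b⟩, sh⟩, fun t => t.elim nv.1 j⟩)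
      exact ⟨clr f hf k 0 j.1, clr f hf k 1 j.2⟩
  have nb : ∀ a f, f ∈ r.s.M.S → r.own a = some (r.s.vx f) → v ∈ σ.inc a →
      (Sum.inl v ∈ r.s.Vt ∨ ∃ a', r.own a' ≠ r.own a ∧ v ∈ σ.inc a') →
      v ∈ r.s.nb (r.s.vx f) ∧ r.s.vx f ∉ r.s.Nd ∧ ∃ c, v ∈ r.s.clr f χ c :=
    fun a f hf e hv pr => by
      obtain ⟨x, e1, e2⟩ := h.share a v ⟨⟨hv, sh⟩, nv.1⟩ pr
      obtain rfl := Option.some_injective _ (e.symm.trans e1)
      obtain ⟨g, hg, ev⟩ := edge f hf e2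
      refine ⟨e2, fun j => ?_, χ g, g, ⟨hg, rfl⟩, by rw [Sk.far, ev]; rfl⟩
      rcases h.owner a _ e with t | t
      · obtain ⟨_, e3⟩ := t.1.2
        obtain ⟨_, e4⟩ := j.2
        cases e3.trans e4.symm
      · exact nH _ t.1 j
  have mv : ∀ {U : Set σ.ε} {a}, a ∈ U → v ∈ σ.inc a → v ∈ σ.vs U := fun a b => mem_biUnion a b
  have t0 : ∀ a f, f ∈ r.s.rg K p \ r.s.M.ind r.s.vx K → r.own a = some (r.s.vx f) →
      (r.s.vx f ∉ r.s.H ∧ χ f = 0) ∨ (r.s.vx f ∈ r.s.H ∧ a ∈ Uh (r.s.vx f)) → v ∈ σ.inc a →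
      (Sum.inl v ∈ r.s.Vt ∨ ∃ a', r.own a' ≠ r.own a ∧ v ∈ σ.inc a') → Has 0 := by
    intro a f hf e k hv pr
    obtain ⟨n1, n2, c, n3⟩ := nb a f (rS hf.1) e hv pr
    rcases k with k | k
    · exact k.2 ▸ cell f hf k.1 n2 n1
    · rcases z2_cases c with rfl | rfl
      exacts [clr f hf.1 k.1 0 n3, (hole f hf.1 k.1 (.inl (mv k.2 hv)) (.inr n3)).1]
  have t1 : ∀ a f, f ∈ r.s.rg K p \ r.s.M.ind r.s.vx K → r.own a = some (r.s.vx f) →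
      ¬ ((r.s.vx f ∉ r.s.H ∧ χ f = 0) ∨ (r.s.vx f ∈ r.s.H ∧ a ∈ Uh (r.s.vx f))) → v ∈ σ.inc a →
      (Sum.inl v ∈ r.s.Vt ∨ ∃ a', r.own a' ≠ r.own a ∧ v ∈ σ.inc a') → Has 1 := by
    intro a f hf e k hv pr
    obtain ⟨n1, n2, c, n3⟩ := nb a f (rS hf.1) e hv pr
    by_cases j : r.s.vx f ∈ r.s.H
    · rcases z2_cases c with rfl | rfl
      exacts [(hole f hf.1 j (.inr n3) (.inl (mv ⟨e, fun t => k (.inr ⟨j, t⟩)⟩ hv))).2,
        clr f hf.1 j 1 n3]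
    · exact z01 (fun t => k (.inl ⟨j, t⟩)) ▸ cell f hf j n2 n1
  have hA : ∀ c, v ∈ A c → Has c ∧ Sum.inl v ∈ r.s.Vt := fun c k =>
    let ⟨f, a, b, d⟩ := (eA c v).1 k
    ⟨⟨f, a.2, b, d⟩, f, rS a.2, b⟩
  suffices k : Has 0 ∧ Has 1 from
    nv.2 ⟨both 0 1 (by decide) k.1 k.2, both 1 0 (by decide) k.2 k.1⟩
  subst eC
  rcases s0 with s0 | s0 <;> rcases s1 with s1 | s1
  · obtain ⟨a, ⟨f, hf, e, k⟩, hv⟩ := mem_iUnion₂.1 s0
    obtain ⟨a', ⟨⟨f', hf', e'⟩, k'⟩, hv'⟩ := mem_iUnion₂.1 s1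
    by_cases j : r.own a' = r.own a
    · rcases k with k | k
      · exact absurd ⟨f, hf, j.trans e, .inl k⟩ k'
      · exact hole f hf.1 k.1 (.inl (mv k.2 hv))
          (.inl (mv ⟨j.trans e, fun t => k' ⟨f, hf, j.trans e, .inr ⟨k.1, t⟩⟩⟩ hv'))
    · exact ⟨t0 a f hf e k hv (.inr ⟨a', j, hv'⟩), t1 a' f' hf' e' (fun t => k' ⟨f', hf', e', t⟩)
        hv' (.inr ⟨a, Ne.symm j, hv⟩)⟩
  · obtain ⟨a, ⟨f, hf, e, k⟩, hv⟩ := mem_iUnion₂.1 s0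
    exact ⟨t0 a f hf e k hv (.inl (hA 1 s1).2), (hA 1 s1).1⟩
  · obtain ⟨a', ⟨⟨f', hf', e'⟩, k'⟩, hv'⟩ := mem_iUnion₂.1 s1
    exact ⟨(hA 0 s0).1, t1 a' f' hf' e' (fun t => k' ⟨f', hf', e', t⟩) hv' (.inl (hA 0 s0).2)⟩
  · exact ⟨(hA 0 s0).1, (hA 1 s1).1⟩

theorem absD : HB.BasS → HB.AbsDS := by
  intro bas q D n
  refine ⟨n + 6 + q * D, ?_⟩
  rintro σ r k l g B X _ p _ ψ Ct A h hB - hX xn rfl he hp rfl h1 h2 h3 eC eA
  have hM := h.ok0.hm.ok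
  have vf : r.s.Vt.Finite := hM.fin.image _
  have b0 := bas.2 r.s h.ok0
  have tt : r.s.T \ r.s.M.rad r.s.vx r.s.H ⊆ r.s.tv := fun _ k => b0.2.1 ▸ .inl k.1
  have ks : r.s.bg B X ⊆ r.s.tv \ X := JWf.big_sub hB tt
  obtain ⟨χ, Y, y1, y2, y3, e, hc⟩ := col (Z := X ∪ r.s.H ∩ r.s.Vt) (K := r.s.bg B X) (ψ := ψ) hM
    h.ok0.hm.lbl ((vf.subset fun _ k => (hX k).1).union (vf.inter_of_right _))
    (fun u hu => (JWf.big_conn hB ⟨u, hu⟩).2 u hu) he hp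
    (disjoint_left.2 fun _ a b => a.elim (ks b).2 fun a => (ks b).1.2 a.1)
    (fun x hx ⟨i, j, a, w, b, c⟩ => by
      by_contra t
      simp only [mem_union, not_or] at t
      have m : r.s.vx (r.s.M.a x) ∈ r.s.Vt := ⟨_, hM.a_mem hx, rfl⟩
      exact t.1 ⟨i, j, a, w, b, c.trans (Link.single (ks ⟨i, j, a, w, b, c⟩)
        ⟨⟨m, fun s => t.2.2 ⟨s, m⟩⟩, t.2.1⟩ ⟨(h.ok0.hm.simple x hx).1, x, hx, .inl ⟨rfl, rfl⟩⟩)⟩)
    h1 h3
  refine fin h hp (disjoint_left.2 fun _ a => (ks a).1.2) hX xn y1 y2 (fun y hy => ?_) hc eC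
    fun c v => by rw [eA]; exact exists_congr fun f => and_congr_right fun k => by rw [e f k]
  obtain ⟨f, hf, rfl, j⟩ := y3 y hy
  have n1 : r.s.vx f ∉ r.s.Nd := fun t => j (h2 f hf t)
  have k := b0.2.2.2.2.2.2.1 _ ⟨(ks hf.1.2.1).1, n1⟩
  exact ⟨n1, k.1, k.2.1⟩

end HAbsE

end Pool.Agent.MP_9d78a0_co.gm

end MrgPart3

-- ======== part 4: formerly Pool.Agent.MP_9d78a0_co.gm.HAbsM1
section MrgPart4

/-! Block H, absorption with the same genus: the regions with a hole. -/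

set_option autoImplicit false

namespace Pool.Agent.MP_9d78a0_co.gm

open Set Function Relation FM

namespace AbsM

variable (s : Sk) (K : Set MV)

/-- the edges inside `K`, the regions with a hole, the edges that stay, the corners that are
joined to the new holes -/
def E0 : Set s.Φ := s.M.ind s.vx K
def Hq : Set s.Φ := {f | ∃ p ∈ s.M.fl s.vx s.H, f ∈ s.rg K p}
def U : Set s.Φ := {f | f ∈ s.M.S ∧ (f ∈ Hq s K → f ∈ E0 s K)}
def Q : Set s.Φ := {f | f ∈ E0 s K ∧ f ∈ Hq s K ∧ s.vx f ∈ s.Nd}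

/-- the steps inside a region -/
def rR (x y : s.Φ) : Prop := y = s.M.a x ∨ y = s.M.b x ∨ (x ∉ E0 s K ∧ y = s.M.c x)

/-- the name of the hole of a region -/
noncomputable def nm (f : s.Φ) : MV := Classical.epsilon fun h => h ∈ s.H ∧ h ∈ s.vx '' s.rg K f

/-- the assumptions -/
structure Hy : Prop where
  ok0 : s.Ok0
  sub : K ⊆ s.tv
  conn : Conn s.G K
  two : K.Nontrivial
  gn : s.gn K = s.M.eg

variable {s K} {f g x p : s.Φ}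

theorem rg_eq : s.rg K = cl (rR s K) := rfl

theorem rg_a (k : x ∈ s.rg K f) : s.M.a x ∈ s.rg K f := cl_step (r := rR s K) k (Or.inl rfl)

theorem rg_b (k : x ∈ s.rg K f) : s.M.b x ∈ s.rg K f :=
  cl_step (r := rR s K) k (Or.inr (Or.inl rfl))

theorem rg_c (k : x ∈ s.rg K f) (n : x ∉ E0 s K) : s.M.c x ∈ s.rg K f :=
  cl_step (r := rR s K) k (Or.inr (Or.inr ⟨n, rfl⟩))

theorem rg_self (f : s.Φ) : f ∈ s.rg K f := cl_self (rR s K) f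

theorem hq_of (k : f ∈ Hq s K) (m : g ∈ s.rg K f) : g ∈ Hq s K :=
  k.imp fun _ k => ⟨k.1, cl_trans (r := rR s K) k.2 m⟩

theorem e0U (k : f ∈ E0 s K) : f ∈ U s K := ⟨k.1, fun _ => k⟩

theorem fo_rg (k : g ∈ s.M.fo f) : g ∈ s.rg K f :=
  cl_ind (r := s.M.rF) (P := fun x => x ∈ s.rg K f) (rg_self f)
    (fun _ _ _ ih e => e.elim (fun e => e ▸ rg_a ih) fun e => e ▸ rg_b ih) k

namespace Hy

variable (y : Hy s K)
include y

theorem ok : s.M.Ok := y.ok0.hm.ok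
theorem lbl : s.M.Lbl s.vx := y.ok0.hm.lbl
theorem e0 : s.M.Es (E0 s K) := es_ind y.ok y.lbl K

theorem sR : Sy s.M.S (rR s K) := by
  have h := y.ok.gk
  rintro x hx _ (rfl | rfl | ⟨n, rfl⟩)
  · exact ⟨h.am hx, Or.inl (h.aa hx).symm⟩
  · exact ⟨h.bm hx, Or.inr (Or.inl (h.bb hx).symm)⟩
  · exact ⟨h.cm hx, Or.inr (Or.inr ⟨mt (h.es_c y.e0 hx).1 n, (h.cc hx).symm⟩)⟩

theorem hqS (k : f ∈ Hq s K) : f ∈ s.M.S := k.elim fun _ k => y.sR.sub k.1.1 k.2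

theorem hq_back (hf : f ∈ s.M.S) (m : g ∈ s.rg K f) (k : g ∈ Hq s K) : f ∈ Hq s K :=
  hq_of k (y.sR.symm hf m)

theorem vK {v : MV} (hv : v ∈ K) : ∃ f ∈ E0 s K, s.vx f = v := by
  obtain ⟨w, hw, n⟩ := y.two.exists_ne v
  rcases ReflTransGen.cases_head ((link_ind y.ok).1 (y.conn.2 v hv w hw)) with e | ⟨_, e, -⟩
  · exact (n e.symm).elim
  · obtain ⟨x, hx, e, -⟩ := e
    exact ⟨x, hx, e⟩

theorem off (hf : f ∈ s.M.S) (n : s.vx f ∉ K) (hg : g ∈ s.M.S) (e : s.vx g = s.vx f) :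
    g ∈ s.rg K f := by
  refine cl_ind (r := s.M.rV) (P := fun x => x ∈ s.rg K f) (rg_self f) ?_
    ((y.lbl f hf g hg).1 e.symm)
  rintro u _ hu ih (rfl | rfl)
  · exact rg_b ih
  · exact rg_c ih fun m => n ((y.lbl f hf u m.1).2 hu ▸ m.2.1)

theorem hit (hf : f ∈ s.M.S) (k : s.vx f ∈ K) :
    ∃ z ∈ E0 s K, z ∈ s.rg K f ∧ s.vx z = s.vx f := by
  obtain ⟨u, hu, e⟩ := y.vK k
  obtain ⟨z, hz, m⟩ := first_hit (r := s.M.rV) (U := E0 s K)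
    (r' := fun x y => y = s.M.b x ∨ (x ∉ E0 s K ∧ y = s.M.c x))
    (fun x n _ e => e.imp id fun e => ⟨n, e⟩) hu ((y.lbl f hf u hu.1).1 e.symm)
  exact ⟨z, hz, ReflTransGen.mono (fun _ _ e => Or.inr e) _ _ m, ((y.lbl f hf z hz.1).2
    (ReflTransGen.mono (fun _ _ e => e.imp id And.right) _ _ m)).symm⟩

theorem hole (k : p ∈ s.M.fl s.vx s.H) : p ∈ Hq s K ∧ p ∉ E0 s K :=
  ⟨⟨p, k, rg_self p⟩, fun m => (y.sub m.2.1).2 k.2⟩

theorem nm_spec (k : f ∈ Hq s K) : nm s K f ∈ s.H ∧ nm s K f ∈ s.vx '' s.rg K f := by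
  obtain ⟨p, hp, m⟩ := k
  exact Classical.epsilon_spec (p := fun h => h ∈ s.H ∧ h ∈ s.vx '' s.rg K f)
    ⟨s.vx p, hp.2, p, y.sR.symm hp.1 m, rfl⟩

theorem nm_congr (hf : f ∈ s.M.S) (m : g ∈ s.rg K f) : nm s K g = nm s K f := by
  unfold nm
  rw [show s.rg K g = s.rg K f from y.sR.eq hf m]

theorem nm_inj (hf : f ∈ Hq s K) (hg : g ∈ Hq s K) (e : nm s K f = nm s K g) : g ∈ s.rg K f := by
  obtain ⟨a1, u, a2, a3⟩ := y.nm_spec hf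
  obtain ⟨-, v, b2, b3⟩ := y.nm_spec hg
  have uS := y.sR.sub (y.hqS hf) a2
  have := y.off uS (fun m => (y.sub m).2 (a3 ▸ a1)) (y.sR.sub (y.hqS hg) b2)
    (b3.trans (e.symm.trans a3.symm))
  exact cl_trans (cl_trans a2 this) (y.sR.symm (y.hqS hg) b2)

theorem nm_inr (k : f ∈ Hq s K) : nm s K f ∈ range (Sum.inr : ℕ → MV) :=
  y.ok0.hr.1 (y.nm_spec k).1

theorem eU : s.M.Es (U s K) := by
  have h := y.ok.gk
  refine ⟨fun _ k => k.1, fun f k => ⟨⟨h.am k.1, fun m => ?_⟩, h.cm k.1, fun m => ?_⟩⟩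
  · exact (y.e0.2 f (k.2 (y.hq_back k.1 (rg_a (rg_self f)) m))).1
  · by_cases n : f ∈ E0 s K
    · exact (y.e0.2 f n).2
    · exact (n (k.2 (y.hq_back k.1 (rg_c (rg_self f) n) m))).elim

theorem uH (k : f ∈ U s K) : s.vx f ∉ s.H := fun m =>
  (y.hole ⟨k.1, m⟩).2 (k.2 (y.hole ⟨k.1, m⟩).1)

theorem uK {v : MV} (k : v ∈ s.vx '' U s K) (hg : g ∈ Hq s K) (e : s.vx g = v) : v ∈ K := by
  obtain ⟨f, hf, rfl⟩ := k
  by_contra n
  exact n (hf.2 (hq_of hg (y.off (y.hqS hg) (e ▸ n) hf.1 e.symm))).2.1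

theorem adjU (hg : g ∈ s.M.S) (k : s.vx g ∈ s.vx '' U s K)
    (k' : s.vx (s.M.a g) ∈ s.vx '' U s K) : g ∈ U s K :=
  ⟨hg, fun m => ⟨hg, y.uK k m rfl, y.uK k' (hq_of m (rg_a (rg_self g))) rfl⟩⟩

theorem kU : K ⊆ s.vx '' U s K := fun _ k => (y.vK k).imp fun _ k => ⟨e0U k.1, k.2⟩

omit y in
theorem rgU {W : Set s.Φ} (hW : W ⊆ U s K) (k : f ∈ Hq s K) : s.rg K f ⊆ s.M.reg W f := by
  intro g hg
  refine cl_ind (r := rR s K) (P := fun x => x ∈ s.M.reg W f) ReflTransGen.refl ?_ hg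
  exact fun u v hu ih e => ReflTransGen.tail ih (e.imp id (Or.imp id fun e =>
    ⟨fun m => e.1 ((hW m).2 (hq_of k hu)), e.2⟩))

theorem ok1 : (s.M.sub (U s K)).Ok := y.ok.minor y.eU es_empty

theorem lbl1 : (s.M.sub (U s K)).Lbl s.vx :=
  (gphS orbS minorS _ _ _ _ y.ok y.lbl).1 _ y.eU

theorem b1 (k : f ∈ E0 s K) (m : f ∈ Hq s K) :
    (s.M.sub (U s K)).b f = (s.M.sub (E0 s K)).b f := by
  have h := y.ok
  have sp := mate_spec h.fin h.ib (h.gk.sg es_empty) y.e0.1 (fun _ k => y.e0.sg k) k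
  refine mate_eq h.fin h.ib (h.gk.sg es_empty) y.eU.1 (fun _ k => y.eU.sg k) (e0U k) (e0U sp.1) ?_
    ((h.minor y.e0 es_empty).ib f k).2.2
  refine (cl_ind (P := fun x => x ∈ Hq s K ∧ x ∈ cl (cut s.M.b (s.M.sg ∅) (U s K)) f)
    ⟨m, cl_self _ _⟩ ?_ sp.2.1).2
  rintro u _ - ⟨a, ih⟩ (rfl | ⟨n, rfl⟩)
  · exact ⟨hq_of a (rg_b (rg_self u)), cl_step ih (Or.inl rfl)⟩
  · refine ⟨?_, cl_step ih (Or.inr ⟨fun m => n (m.2 a), rfl⟩)⟩
    rw [sg_out (notMem_empty u)]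
    exact hq_of a (rg_c (rg_self u) n)

theorem fo0 (k : f ∈ E0 s K) : s.rg K f ∩ E0 s K = (s.M.sub (E0 s K)).fo f :=
  (regS _ _ _ y.ok y.e0 (con_ind y.ok y.lbl y.conn) y.gn).2 f k

theorem fo1 (k : f ∈ E0 s K) (m : f ∈ Hq s K) :
    (s.M.sub (U s K)).fo f = s.rg K f ∩ E0 s K := by
  have t : ∀ x ∈ (s.M.sub (E0 s K)).fo f,
      (s.M.sub (U s K)).b x = (s.M.sub (E0 s K)).b x := fun x hx => by
    rw [← y.fo0 k] at hx
    exact y.b1 hx.2 (hq_of m hx.1)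
  rw [y.fo0 k]
  refine Subset.antisymm (fun x hx => ?_) fun x hx => ?_
  · refine cl_ind (r := (s.M.sub (U s K)).rF) (P := fun x => x ∈ cl (s.M.sub (E0 s K)).rF f)
      (cl_self _ _) ?_ hx
    exact fun u v _ ih e => cl_step ih (e.imp id fun e => e.trans (t u ih))
  · refine cl_ind (r := (s.M.sub (E0 s K)).rF) (P := fun x => x ∈ cl (s.M.sub (U s K)).rF f)
      (cl_self _ _) ?_ hx
    exact fun u v hu ih e => cl_step ih (e.imp id fun e => e.trans (t u hu).symm)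

theorem meet (hf : f ∈ s.M.S) : ∃ z ∈ E0 s K, z ∈ s.rg K f := by
  obtain ⟨u, hu, -⟩ := y.vK y.conn.1.some_mem
  obtain ⟨z, hz⟩ := (regBS orbS minorS _ _ _ y.ok y.e0 f hf).2.2.2.2
    ⟨u, y.ok0.hm.con f hf u hu.1, hu⟩
  exact ⟨z, hz.2, hz.1⟩

theorem qa (k : f ∈ E0 s K) (m : f ∈ Hq s K) (n : s.vx f ∉ s.Nd) : s.M.a f ∈ Q s K :=
  ⟨(y.e0.2 f k).1, hq_of m (rg_a (rg_self f)), by_contra fun c => n ((y.ok0.bip f k.1).2 c)⟩

theorem meetQ (k : f ∈ Hq s K) : ∃ z ∈ Q s K, z ∈ s.rg K f := by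
  obtain ⟨z, hz, m⟩ := y.meet (y.hqS k)
  by_cases n : s.vx z ∈ s.Nd
  · exact ⟨z, ⟨hz, hq_of k m, n⟩, m⟩
  · exact ⟨_, y.qa hz (hq_of k m) n, rg_a m⟩

theorem con1 : (s.M.sub (U s K)).Con := by
  have h := y.ok
  have sy := (h.gk.spn y.eU).sC
  have t : ∀ f ∈ U s K, ∃ z ∈ E0 s K, z ∈ cl (s.M.spn (U s K)).rC f := by
    intro f hf
    by_cases m : f ∈ Hq s K
    · exact ⟨f, hf.2 m, cl_self _ _⟩
    obtain ⟨z, hz, k⟩ := y.meet hf.1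
    refine ⟨z, hz, cl_ind (r := rR s K) (P := fun x => x ∈ cl (s.M.spn (U s K)).rC f)
      (cl_self _ _) ?_ k⟩
    rintro u _ hu ih (rfl | rfl | ⟨-, rfl⟩)
    · have : u ∈ U s K := ⟨y.sR.sub hf.1 hu, fun c => (m (y.hq_back hf.1 hu c)).elim⟩
      exact cl_step ih (Or.inl (sg_in this).symm)
    · exact cl_step ih (Or.inr (Or.inl rfl))
    · exact cl_step ih (Or.inr (Or.inr rfl))
  intro f hf g hg
  rw [sub_co h.gk y.eU hf]
  obtain ⟨z, hz, k⟩ := t f hf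
  obtain ⟨w, hw, m⟩ := t g hg
  refine ⟨cl_trans (cl_trans k ((spn_co h y.lbl y.eU hz.1 hw.1).2 ?_)) (sy.symm hg.1 m), hg⟩
  exact ReflTransGen.mono (fun _ _ ⟨x, hx, e⟩ => ⟨x, e0U hx, e⟩) _ _
    ((link_ind h).1 (y.conn.2 _ hz.2.1 _ hw.2.1))

theorem eg1 : (s.M.sub (U s K)).eg = s.M.eg :=
  le_antisymm (eg_sub_le y.ok y.eU) (y.gn ▸ eg_sub_mono y.ok y.eU y.e0 fun _ => e0U)

theorem cs : (s.M.sub (U s K)).Cs (Q s K) := by
  refine ⟨fun _ k => e0U k.1, fun x k => ?_⟩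
  have : (s.M.sub (U s K)).b x ∈ s.rg K x ∩ E0 s K :=
    y.fo1 k.1 k.2.1 ▸ cl_one (r := (s.M.sub (U s K)).rF) (Or.inr rfl)
  refine ⟨this.2, hq_of k.2.1 this.1, ?_⟩
  rw [y.lbl1.b y.ok1 (e0U k.1)]
  exact k.2.2

/-- a vertex of degree at most three: every other edge has a flag in the region of `f` -/
theorem six (hf : f ∈ s.M.S) (n : f ∉ E0 s K) (nn : s.vx f ∉ s.Nd) (hg : g ∈ s.M.S)
    (e : s.vx g = s.vx f) : g ∈ s.rg K f ∨ s.M.c g ∈ s.rg K f := by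
  by_cases k : s.vx f ∈ K
  swap
  · exact Or.inl (y.off hf k hg e)
  have h := y.ok.gk
  have d := y.ok0.deg f hf nn (y.sub k).2
  obtain ⟨r1, -, r3, -, r5, -⟩ := rotS _ _ y.ok f hf
  obtain ⟨i, hi, m⟩ := r5 g ((y.lbl f hf g hg).1 e.symm)
  have t : s.M.rot^[i] f ∈ s.rg K f ∨ s.M.c (s.M.rot^[i] f) ∈ s.rg K f := by
    obtain rfl | rfl | rfl : i = 0 ∨ i = 1 ∨ i = 2 := by omega
    · exact Or.inl (rg_self f)
    · right
      show s.M.c (s.M.c (s.M.b f)) ∈ _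
      rw [h.cc (h.bm hf)]
      exact rg_b (rg_self f)
    · left
      have e3 : s.M.rot^[3] f = s.M.rot^[0] f := (r3 3 0).2 (by
        rw [show (s.M.vo f).ncard / 2 = 3 by omega]; rfl)
      have m2 : s.M.rot^[2] f ∈ s.M.S := h.sV.sub hf (r1 2)
      rw [iterate_succ_apply'] at e3
      have e4 : s.M.c (s.M.b (s.M.rot^[2] f)) = f := e3
      rw [← h.bb m2, ← h.cc (h.bm m2), e4]
      exact rg_b (rg_c (rg_self f) n)
  rcases m with rfl | rfl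
  · exact t
  · rw [h.cc (h.sV.sub hf (r1 i))]; exact t.symm

theorem one (hf : f ∈ s.M.S) (n : f ∉ E0 s K) (nn : s.vx f ∉ s.Nd) (hg : g ∈ s.M.S)
    (n' : g ∉ E0 s K) (e : s.vx g = s.vx f) : g ∈ s.rg K f :=
  (y.six hf n nn hg e).elim id fun k =>
    y.ok.gk.cc hg ▸ rg_c k (mt (y.ok.gk.es_c y.e0 hg).1 n')

end Hy

end AbsM

end Pool.Agent.MP_9d78a0_co.gm

end MrgPart4

-- ======== part 5: formerly Pool.Agent.MP_9d78a0_co.gm.HAbsM2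
section MrgPart5

/-! Block H, absorption with the same genus: the new map. -/

set_option autoImplicit false

namespace Pool.Agent.MP_9d78a0_co.gm

open Set Function Relation FM Sum

namespace AbsM

/-- the new map -/
noncomputable def nw (s : Sk) (K : Set MV) (ps : s.Φ ⊕ s.Φ × Bool → Prop) : Sk where
  Φ := s.Φ ⊕ s.Φ × Bool
  M := (s.M.sub (U s K)).star (Q s K)
  vx := Sum.elim s.vx fun p => if p.2 then nm s K p.1 else s.vx p.1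
  H := nm s K '' s.M.fl s.vx s.H
  Rm := s.Rm ∪ {x | x ∈ s.Ce ∧ ∃ f ∈ Hq s K \ E0 s K, s.vx f = x}
  pos := ps

variable {s : Sk} {K : Set MV} {ps : s.Φ ⊕ s.Φ × Bool → Prop} {f g x : s.Φ} {u v : MV}

theorem flag {w : s.Φ ⊕ s.Φ × Bool} (k : w ∈ (nw s K ps).M.S) : (∃ f ∈ U s K, w = inl f) ∨
    (∃ x ∈ Q s K, w = inr (x, false)) ∨ ∃ x ∈ Q s K, w = inr (x, true) := by
  rcases w with f | ⟨x, _ | _⟩
  · exact Or.inl ⟨f, OpRad.mem_l.1 k, rfl⟩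
  · exact Or.inr (Or.inl ⟨x, OpRad.mem_r.1 k, rfl⟩)
  · exact Or.inr (Or.inr ⟨x, OpRad.mem_r.1 k, rfl⟩)

theorem mem_l (k : f ∈ U s K) : (inl f : s.Φ ⊕ s.Φ × Bool) ∈ (nw s K ps).M.S := OpRad.mem_l.2 k

theorem mem_r (k : x ∈ Q s K) (e : Bool) :
    (inr (x, e) : s.Φ ⊕ s.Φ × Bool) ∈ (nw s K ps).M.S := OpRad.mem_r.2 k

theorem gadj {Φ V : Type} {M : FM Φ} {vx : Φ → V} {u v : V} (h : M.Ok)
    (k : (M.gph vx).Adj u v) : ∃ f ∈ M.S, vx f = u ∧ vx (M.a f) = v := by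
  obtain ⟨-, f, hf, k | k⟩ := k
  · exact ⟨f, hf, k⟩
  · exact ⟨M.a f, h.gk.am hf, k.2, by rw [h.gk.aa hf]; exact k.1⟩

theorem nd_of (hf : f ∈ s.M.S) {w : W} (e : s.vx f = inl w) : s.vx f ∈ s.Nd :=
  ⟨⟨f, hf, rfl⟩, w, e.symm⟩

theorem not_nd (k : v ∈ range (inr : ℕ → MV)) {t : Sk} : v ∉ t.Nd := by
  rintro ⟨-, w, rfl⟩
  obtain ⟨n, e⟩ := k
  cases e

namespace Hy

variable (y : Hy s K)
include y

theorem memH : v ∈ (nw s K ps).H ↔ ∃ f ∈ Hq s K, nm s K f = v :=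
  ⟨fun ⟨p, hp, e⟩ => ⟨p, (y.hole hp).1, e⟩,
    fun ⟨_, ⟨p, hp, m⟩, e⟩ => ⟨p, hp, (y.nm_congr hp.1 m).symm.trans e⟩⟩

theorem nmH (k : f ∈ Hq s K) : nm s K f ∈ (nw s K ps).H := y.memH.2 ⟨f, k, rfl⟩

theorem subH : (nw s K ps).H ⊆ s.H := fun _ k => by
  obtain ⟨f, hf, rfl⟩ := y.memH.1 k
  exact (y.nm_spec hf).1

theorem uH' (k : v ∈ s.vx '' U s K) : v ∉ (nw s K ps).H := fun m => by
  obtain ⟨f, hf, rfl⟩ := k
  exact y.uH hf (y.subH m)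

theorem ok' : (nw s K ps).M.Ok := (radS _ _ _ y.ok1 y.cs).1

theorem lbl' : (nw s K ps).M.Lbl (nw s K ps).vx := by
  refine (radS _ _ _ y.ok1 y.cs).2.2.2.2.2.2.2.2.2.2.2 _ _ _ y.lbl1 (fun x hx z hz => ?_)
    fun x hx m => y.uH' (ps := ps) m (y.nmH hx.2.1)
  rw [y.fo1 hx.1 hx.2.1]
  exact ⟨fun e => ⟨y.nm_inj hx.2.1 hz.2.1 e, hz.1⟩, fun m => (y.nm_congr hx.1.1 m.1).symm⟩

theorem memVt : v ∈ (nw s K ps).Vt ↔ v ∈ s.vx '' U s K ∨ v ∈ (nw s K ps).H := by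
  constructor
  · rintro ⟨w, hw, rfl⟩
    rcases flag hw with ⟨f, hf, rfl⟩ | ⟨x, hx, rfl⟩ | ⟨x, hx, rfl⟩
    · exact Or.inl ⟨f, hf, rfl⟩
    · exact Or.inl ⟨x, e0U hx.1, rfl⟩
    · exact Or.inr (y.nmH hx.2.1)
  · rintro (⟨f, hf, rfl⟩ | k)
    · exact ⟨inl f, mem_l hf, rfl⟩
    · obtain ⟨f, hf, rfl⟩ := y.memH.1 k
      obtain ⟨z, hz, m⟩ := y.meetQ hf
      exact ⟨inr (z, true), mem_r hz _, y.nm_congr (y.hqS hf) m⟩

theorem hVt : (nw s K ps).H ∩ (nw s K ps).Vt = (nw s K ps).H :=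
  inter_eq_left.2 fun _ k => y.memVt.2 (Or.inr k)

theorem tv_eq : (nw s K ps).tv = s.vx '' U s K :=
  Subset.antisymm (fun _ k => (y.memVt.1 k.1).resolve_right k.2)
    fun _ k => ⟨y.memVt.2 (Or.inl k), y.uH' k⟩

theorem memNd : v ∈ (nw s K ps).Nd ↔ v ∈ s.vx '' U s K ∧ v ∈ s.Nd :=
  ⟨fun k => have m := (y.memVt.1 k.1).resolve_right fun m => not_nd (y.ok0.hr.1 (y.subH m)) k
    ⟨m, image_mono y.eU.1 m, k.2⟩, fun k => ⟨y.memVt.2 (Or.inl k.1), k.2.2⟩⟩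

theorem memCe : v ∈ (nw s K ps).Ce ↔ v ∈ s.Ce ∧ ∀ f ∈ s.M.S, s.vx f = v → f ∈ U s K := by
  constructor
  · rintro ⟨⟨k1, k2⟩, k3⟩
    have m := (y.memVt.1 k1).resolve_right fun m => k3 (Or.inl m)
    have c : v ∈ s.Ce := ⟨⟨image_mono y.eU.1 m, k2⟩, fun c => c.elim
      (fun c => m.elim fun f e => y.uH e.1 (e.2 ▸ c)) fun c => k3 (Or.inr (Or.inl c))⟩
    exact ⟨c, fun f hf e => ⟨hf, fun q => by_contra fun n =>
      k3 (Or.inr (Or.inr ⟨c, f, ⟨q, n⟩, e⟩))⟩⟩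
  · rintro ⟨c, k⟩
    obtain ⟨f, hf, e⟩ := c.1.1
    refine ⟨⟨y.memVt.2 (Or.inl ⟨f, k f hf e, e⟩), c.1.2⟩, ?_⟩
    rintro (m | m | ⟨-, g, hg, e⟩)
    · exact c.2 (Or.inl (y.subH m))
    · exact c.2 (Or.inr m)
    · exact hg.2 ((k g (y.hqS hg.1) e).2 hg.1)

theorem ceU (k : v ∈ (nw s K ps).Ce) : v ∈ s.vx '' U s K :=
  (y.memVt.1 k.1.1).resolve_right fun m => k.2 (Or.inl m)

theorem adj_l (k : f ∈ U s K) : (nw s K ps).G.Adj (s.vx f) (s.vx (s.M.a f)) :=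
  ⟨(y.ok0.hm.simple f k.1).1, inl f, mem_l k, Or.inl ⟨rfl, rfl⟩⟩

theorem adj_r (k : x ∈ Q s K) : (nw s K ps).G.Adj (nm s K x) (s.vx x) :=
  ⟨fun e => y.uH' (ps := ps) ⟨x, e0U k.1, e.symm⟩ (y.nmH k.2.1), inr (x, true), mem_r k _,
    Or.inl ⟨rfl, rfl⟩⟩

theorem adj_old (hu : u ∉ (nw s K ps).H) (hv : v ∉ (nw s K ps).H) (k : (nw s K ps).G.Adj u v) :
    ∃ f ∈ U s K, s.vx f = u ∧ s.vx (s.M.a f) = v := by
  obtain ⟨w, hw, rfl, rfl⟩ := gadj y.ok' k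
  rcases flag hw with ⟨f, hf, rfl⟩ | ⟨x, hx, rfl⟩ | ⟨x, hx, rfl⟩
  · exact ⟨f, hf, rfl, rfl⟩
  · exact (hv (y.nmH hx.2.1)).elim
  · exact (hu (y.nmH hx.2.1)).elim

theorem adj_iff (hu : u ∈ s.vx '' U s K) (hv : v ∈ s.vx '' U s K) :
    (nw s K ps).G.Adj u v ↔ s.G.Adj u v := by
  constructor
  · intro k
    obtain ⟨f, hf, e⟩ := y.adj_old (y.uH' hu) (y.uH' hv) k
    exact ⟨k.ne, f, hf.1, Or.inl e⟩
  · intro k
    obtain ⟨f, hf, rfl, rfl⟩ := gadj y.ok k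
    exact y.adj_l (y.adjU hf hu hv)

theorem inlH (w : W) : (inl w : MV) ∉ (nw s K ps).H := fun m => by
  obtain ⟨n, e⟩ := y.ok0.hr.1 (y.subH m)
  cases e

theorem nb_eq (k : v ∈ (nw s K ps).Ce) : (nw s K ps).nb v = s.nb v := by
  ext w
  constructor
  · intro m
    obtain ⟨f, hf, e⟩ := y.adj_old (fun c => k.2 (Or.inl c)) (y.inlH w) m
    exact ⟨m.1, f, hf.1, Or.inl e⟩
  · intro m
    obtain ⟨f, hf, e, e'⟩ := gadj y.ok m
    have := y.adj_l (ps := ps) ((y.memCe.1 k).2 f hf e)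
    rwa [e, e'] at this

/-- a vertex of `K` with a flag in a region with a hole sees the new hole -/
theorem see (hx : x ∈ Hq s K) (k : s.vx x ∈ K) :
    s.vx x ∈ (nw s K ps).M.rad (nw s K ps).vx {nm s K x} ∧
      (s.vx x ∈ s.Nd → (nw s K ps).G.Adj (nm s K x) (s.vx x)) := by
  obtain ⟨z, hz, m, e⟩ := y.hit (y.hqS hx) k
  have zH := hq_of hx m
  rw [← y.nm_congr (y.hqS hx) m, ← e]
  refine ⟨?_, fun n => y.adj_r ⟨hz, zH, n⟩⟩
  by_cases n : s.vx z ∈ s.Nd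
  · exact ⟨inr (z, true), mem_r ⟨hz, zH, n⟩ _, rfl, inr (z, false),
      cl_one (r := (nw s K ps).M.rF) (Or.inl rfl), rfl⟩
  · refine ⟨inr (s.M.a z, true), mem_r (y.qa hz zH n) _, y.nm_congr hz.1 (rg_a (rg_self z)),
      inl (s.M.a (s.M.a z)), cl_step (r := (nw s K ps).M.rF) (cl_step (r := (nw s K ps).M.rF)
        (cl_one (r := (nw s K ps).M.rF) (y := inr (s.M.a z, false)) (Or.inl rfl))
        (y := inl (s.M.a z)) (Or.inr rfl)) (Or.inl rfl), ?_⟩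
    rw [y.ok.gk.aa hz.1]; rfl

theorem vo_l (k : f ∈ U s K) (n : s.vx f ∉ s.Nd) :
    (nw s K ps).M.vo (inl f) = inl '' (s.M.vo f ∩ U s K) := by
  ext w
  constructor
  · intro m
    have hw := y.ok'.gk.sV.sub (mem_l k) m
    have e := (y.lbl' _ (mem_l k) w hw).2 m
    rcases flag hw with ⟨g, hg, rfl⟩ | ⟨x, hx, rfl⟩ | ⟨x, hx, rfl⟩
    · exact ⟨g, ⟨(y.lbl f k.1 g hg.1).1 e, hg⟩, rfl⟩
    · exact (n ((show s.vx f = s.vx x from e) ▸ hx.2.2)).elim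
    · exact (y.uH' (ps := ps) ⟨f, k, e⟩ (y.nmH hx.2.1)).elim
  · rintro ⟨g, ⟨m, hg⟩, rfl⟩
    exact (y.lbl' _ (mem_l k) _ (mem_l hg)).1 ((y.lbl f k.1 g hg.1).2 m)

theorem vo_r (k : x ∈ Q s K) {w : s.Φ ⊕ s.Φ × Bool} : w ∈ (nw s K ps).M.vo (inr (x, true)) ↔
    ∃ z ∈ Q s K, z ∈ s.rg K x ∧ w = inr (z, true) := by
  have := (radS _ _ _ y.ok1 y.cs).2.2.2.2.2.2.1 x k
  rw [y.fo1 k.1 k.2.1] at this
  refine (Set.ext_iff.1 this w).trans ⟨?_, ?_⟩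
  · rintro ⟨⟨z, _⟩, ⟨m, rfl⟩, rfl⟩
    exact ⟨z, m.1, m.2.1, rfl⟩
  · rintro ⟨z, hz, m, rfl⟩
    exact ⟨(z, true), ⟨⟨hz, m, hz.1⟩, rfl⟩, rfl⟩

theorem exists_pos : ∃ ps : s.Φ ⊕ s.Φ × Bool → Prop,
    ((s.M.sub (U s K)).star (Q s K)).Pos ps ∧ ∀ f, ps (inl f) → s.pos f := by
  rcases y.ok0.ps with k | k
  · exact ⟨_, Or.inl ((radS _ _ _ y.ok1 y.cs).2.2.2.2.2.2.2.2.2.1 _
      (k.minor y.ok y.eU es_empty)), fun _ q => q⟩
  · by_cases t : ∃ o, ((s.M.sub (U s K)).star (Q s K)).Ori o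
    · exact t.imp fun o t => ⟨Or.inl t, fun f _ => k.2 f⟩
    · exact ⟨fun _ => True, Or.inr ⟨t, fun _ => trivial⟩, fun f _ => k.2 f⟩

theorem hm' : (nw s K ps).M.Hm (nw s K ps).vx (nw s K ps).H := by
  refine ⟨y.ok', y.lbl', (radS _ _ _ y.ok1 y.cs).2.2.1 y.con1, fun w hw => ?_, fun w hw m => ?_⟩
  · rcases flag hw with ⟨f, hf, rfl⟩ | ⟨x, hx, rfl⟩ | ⟨x, hx, rfl⟩
    · refine ⟨(y.ok0.hm.simple f hf.1).1, fun z hz n1 n2 e1 e2 => ?_⟩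
      rcases flag hz with ⟨g, hg, rfl⟩ | ⟨x, hx, rfl⟩ | ⟨x, hx, rfl⟩
      · exact ((y.ok0.hm.simple f hf.1).2 g hg.1 (y.uH hf) (y.uH (y.eU.2 f hf).1) e1 e2).imp
          (congrArg inl) (congrArg inl)
      · exact (n2 (e2 ▸ y.nmH hx.2.1)).elim
      · exact (n1 (e1 ▸ y.nmH hx.2.1)).elim
    · exact ⟨(y.adj_r (ps := ps) hx).ne', fun _ _ _ n => (n (y.nmH hx.2.1)).elim⟩
    · exact ⟨(y.adj_r (ps := ps) hx).ne, fun _ _ n => (n (y.nmH hx.2.1)).elim⟩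
  · rcases flag hw with ⟨f, hf, rfl⟩ | ⟨x, hx, rfl⟩ | ⟨x, hx, rfl⟩
    · exact (y.uH' ⟨f, hf, rfl⟩ m).elim
    · exact (y.uH' ⟨x, e0U hx.1, rfl⟩ m).elim
    · exact y.uH' ⟨x, e0U hx.1, rfl⟩

theorem rim' (k : v ∈ (nw s K ps).Rm ∩ (nw s K ps).Vt) : ∃ h ∈ (nw s K ps).H ∩ (nw s K ps).Vt,
    v ∈ (nw s K ps).M.rad (nw s K ps).vx {h} ∧ (nw s K ps).nb v ⊆ (nw s K ps).nb h := by
  have h := y.ok.gk
  have r : v ∈ range (inr : ℕ → MV) ∧ v ∉ s.H := k.1.elim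
    (fun c => ⟨y.ok0.hr.2.1 c, Set.disjoint_right.1 y.ok0.hr.2.2 c⟩)
    fun c => ⟨c.1.1.2, fun m => c.1.2 (Or.inl m)⟩
  have vU := (y.memVt.1 k.2).resolve_right fun m => r.2 (y.subH m)
  have fin : ∀ x ∈ Hq s K, s.vx x = v → (∀ g ∈ U s K, s.vx g = v →
      ∃ z ∈ s.rg K x, s.vx z = s.vx (s.M.a g)) → ∃ h ∈ (nw s K ps).H ∩ (nw s K ps).Vt,
      v ∈ (nw s K ps).M.rad (nw s K ps).vx {h} ∧ (nw s K ps).nb v ⊆ (nw s K ps).nb h := by
    intro x hx e t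
    refine ⟨nm s K x, y.hVt.symm ▸ y.nmH hx, e ▸ (y.see hx (e ▸ y.uK vU hx e)).1, fun w m => ?_⟩
    obtain ⟨g, hg, e1, e2⟩ := y.adj_old (y.uH' vU) (y.inlH w) m
    obtain ⟨z, hz, e3⟩ := t g hg e1
    have zH := hq_of hx hz
    have := (y.see (ps := ps) zH (e3 ▸ y.uK ⟨_, (y.eU.2 g hg).1, rfl⟩ zH e3)).2
      (nd_of (y.hqS zH) (e3.trans e2))
    rwa [y.nm_congr (y.hqS hx) hz, e3, e2] at this
  rcases k.1 with c | ⟨-, x, hx, e⟩
  · obtain ⟨h0, ⟨hH, -⟩, ⟨p, hp, e0, x, hx, e⟩, nb⟩ := y.ok0.rim v ⟨c, image_mono y.eU.1 vU⟩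
    have pH : p ∈ s.M.fl s.vx s.H := ⟨hp, (show s.vx p = h0 from e0) ▸ hH⟩
    refine fin x ⟨p, pH, fo_rg hx⟩ e fun g hg e1 => ?_
    obtain ⟨-, w, e2⟩ : s.vx (s.M.a g) ∈ s.Nd :=
      by_contra fun n => not_nd r.1 (e1 ▸ (y.ok0.bip g hg.1).2 n)
    obtain ⟨z, hz, e3, e4⟩ := gadj y.ok
      (nb (show w ∈ s.nb v from ⟨e1 ▸ e2 ▸ (y.ok0.hm.simple g hg.1).1, g, hg.1,
        Or.inl ⟨e1, e2.symm⟩⟩))
    refine ⟨s.M.a z, rg_a (cl_trans (r := rR s K) (y.sR.symm hp (fo_rg hx))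
      (y.off hp (fun m => (y.sub m).2 pH.2) hz (e3.trans (Eq.symm e0)))), e4.trans e2⟩
  · refine fin x hx.1 e fun g hg e1 => ?_
    rcases y.six (y.hqS hx.1) hx.2 (e ▸ not_nd r.1) hg.1 (e1.trans e.symm) with m | m
    · exact ⟨_, rg_a m, rfl⟩
    · exact ⟨_, rg_a m, y.lbl.ac y.ok hg.1⟩

theorem ok0' (hp : (nw s K ps).M.Pos ps) : (nw s K ps).Ok0 := by
  refine ⟨y.hm', hp, ⟨y.subH.trans y.ok0.hr.1, union_subset y.ok0.hr.2.1 fun _ c => c.1.1.2, ?_⟩,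
    fun w k => ?_, fun w hw => ?_, fun w hw n1 n2 => ?_, fun _ => y.rim'⟩
  · exact Set.disjoint_left.2 fun v m c => c.elim (Set.disjoint_left.1 y.ok0.hr.2.2 (y.subH m))
      fun c => c.1.2 (Or.inl (y.subH m))
  · exact y.ok0.od w (image_mono y.eU.1 ((y.memVt.1 k).resolve_right (y.inlH w)))
  · rcases flag hw with ⟨f, hf, rfl⟩ | ⟨x, hx, rfl⟩ | ⟨x, hx, rfl⟩
    · rw [y.memNd, y.memNd]
      exact ⟨fun k m => (y.ok0.bip f hf.1).1 k.2 m.2, fun k => ⟨⟨f, hf, rfl⟩,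
        (y.ok0.bip f hf.1).2 fun m => k ⟨⟨_, (y.eU.2 f hf).1, rfl⟩, m⟩⟩⟩
    · exact iff_of_true (y.memNd.2 ⟨⟨x, e0U hx.1, rfl⟩, hx.2.2⟩) (not_nd (y.nm_inr hx.2.1))
    · exact iff_of_false (not_nd (y.nm_inr hx.2.1))
        (not_not.2 (y.memNd.2 ⟨⟨x, e0U hx.1, rfl⟩, hx.2.2⟩))
  · rcases flag hw with ⟨f, hf, rfl⟩ | ⟨x, hx, rfl⟩ | ⟨x, hx, rfl⟩
    · have n : s.vx f ∉ s.Nd := fun m => n1 (y.memNd.2 ⟨⟨f, hf, rfl⟩, m⟩)
      rw [y.vo_l hf n]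
      exact ((ncard_image_of_injective _ inl_injective).trans_le
        (ncard_le_ncard inter_subset_left (y.ok.fin.subset (y.ok.gk.sV.sub hf.1)))).trans
        (y.ok0.deg f hf.1 n (y.uH hf))
    · exact (n1 (y.memNd.2 ⟨⟨x, e0U hx.1, rfl⟩, hx.2.2⟩)).elim
    · exact (n2 (y.nmH hx.2.1)).elim

theorem tvc : Conn (nw s K ps).G (nw s K ps).tv := by
  rw [y.tv_eq]
  refine ⟨y.conn.1.mono y.kU, ?_⟩
  rintro _ ⟨f, hf, rfl⟩ _ ⟨g, hg, rfl⟩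
  have := y.con1 f hf g hg
  rw [sub_co y.ok.gk y.eU hf] at this
  refine ReflTransGen.mono ?_ _ _ ((spn_co y.ok y.lbl y.eU hf.1 hg.1).1 this.1)
  rintro _ _ ⟨x, hx, rfl, rfl⟩
  exact ⟨⟨x, hx, rfl⟩, ⟨_, (y.eU.2 x hx).1, rfl⟩, y.adj_l hx⟩

end Hy

end AbsM

end Pool.Agent.MP_9d78a0_co.gm

end MrgPart5

-- ======== part 6: formerly Pool.Agent.MP_9d78a0_co.gm.HAbsM3
section MrgPart6

/-! Block H, absorption with the same genus: the new map and the old map. -/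

set_option autoImplicit false

namespace Pool.Agent.MP_9d78a0_co.gm

open Set Function Relation FM Sum

namespace AbsM

variable {s : Sk} {K K' : Set MV} {ps : s.Φ ⊕ s.Φ × Bool → Prop} {f g x p : s.Φ} {u v : MV}

namespace Hy

variable (y : Hy s K)
include y

theorem indU (k : K' ⊆ s.vx '' U s K) : s.M.ind s.vx K' ⊆ U s K :=
  fun _ hf => y.adjU hf.1 (k hf.2.1) (k hf.2.2)

theorem ind' (k : K' ⊆ s.vx '' U s K) :
    (nw s K ps).M.ind (nw s K ps).vx K' = inl '' s.M.ind s.vx K' := by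
  ext w
  constructor
  · intro m
    rcases flag m.1 with ⟨f, hf, rfl⟩ | ⟨x, hx, rfl⟩ | ⟨x, hx, rfl⟩
    · exact ⟨f, ⟨hf.1, m.2⟩, rfl⟩
    · exact (y.uH' (ps := ps) (k m.2.2) (y.nmH hx.2.1)).elim
    · exact (y.uH' (ps := ps) (k m.2.1) (y.nmH hx.2.1)).elim
  · rintro ⟨f, hf, rfl⟩
    exact ⟨mem_l (y.indU k hf), hf.2⟩

theorem eg' : (nw s K ps).M.eg = s.M.eg := (radS _ _ _ y.ok1 y.cs).2.1.trans y.eg1

theorem gn' (k : K' ⊆ s.vx '' U s K) : (nw s K ps).gn K' = s.gn K' := by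
  have e := es_ind y.ok y.lbl K'
  have e1 := e.of_sub (y.indU k)
  have r := radS _ _ _ y.ok1 y.cs
  unfold Sk.gn
  rw [y.ind' k, (sub_sub y.ok y.eU e (y.indU k)).iso.eg (y.ok1.minor e1 es_empty)]
  exact (Iso.sub_old y.ok1 r.1 r.2.2.2.1 r.2.2.2.2.1 e1).2.eg (y.ok1.minor e1 es_empty)

theorem rd (hp : ∀ f, ps (inl f) → s.pos f) (k : v ∈ (nw s K ps).Ce) :
    (nw s K ps).Rd v ⊆ s.Rd v := by
  rintro _ ⟨w, hw, e, q, rfl⟩
  have c := y.memCe.1 k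
  have nn : v ∉ s.Nd := not_nd k.1.2
  rcases flag hw with ⟨f, hf, rfl⟩ | ⟨x, hx, rfl⟩ | ⟨x, hx, rfl⟩
  · have e' : s.vx f = v := e
    have t : ∀ i, (s.M.rot^[i] f ∈ s.M.S ∧ s.vx (s.M.rot^[i] f) = v) ∧
        (nw s K ps).M.rot^[i] (inl f) = inl (s.M.rot^[i] f) := by
      intro i
      induction i with
      | zero => exact ⟨⟨hf.1, e'⟩, rfl⟩
      | succ i ih =>
        obtain ⟨⟨a, b⟩, d⟩ := ih
        have a' := y.ok.gk.bm a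
        have b' := (y.lbl.b y.ok a).trans b
        rw [iterate_succ_apply', iterate_succ_apply', d]
        refine ⟨⟨y.ok.gk.cm a', (y.lbl.c y.ok a').trans b'⟩, ?_⟩
        show ((s.M.sub (U s K)).star (Q s K)).c (((s.M.sub (U s K)).star (Q s K)).b _) = _
        rw [OpRad.b_out fun m => nn (b ▸ m.2.2), OpRad.c_l, FM.sub, minor_b_keep (c.2 _ a' b')]
        rfl
    refine ⟨f, hf.1, e', hp f q, ?_⟩
    have n : ((nw s K ps).M.vo (inl f)).ncard = (s.M.vo f).ncard := by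
      have : s.M.vo f ⊆ U s K := fun g hg => c.2 g (y.ok.gk.sV.sub hf.1 hg)
        ((y.lbl.of_vo y.ok hf.1 hg).trans e')
      rw [y.vo_l hf (e' ▸ nn), inter_eq_left.2 this]
      exact ncard_image_of_injective _ inl_injective
    unfold Sk.rts
    rw [n]
    exact List.map_congr_left fun i _ => by rw [(t i).2]; rfl
  · exact (nn ((show s.vx x = v from e) ▸ hx.2.2)).elim
  · exact (k.2 (Or.inl (e ▸ y.nmH hx.2.1))).elim

theorem rh : s.RH ∩ (nw s K ps).tv ⊆ (nw s K ps).RH := by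
  rintro _ ⟨⟨p, hp, m, g, hg, rfl⟩, k⟩
  have gH : g ∈ Hq s K := ⟨p, ⟨hp, m⟩, fo_rg hg⟩
  obtain ⟨w, hw, e, r⟩ := (y.see (ps := ps) gH (y.uK (y.tv_eq ▸ k) gH rfl)).1
  exact ⟨w, hw, (show _ = nm s K g from e) ▸ y.nmH gH, r⟩

theorem subT (k : v ∈ (nw s K ps).T) : v ∈ s.T ∧ v ∈ s.vx '' U s K :=
  k.elim (fun k => ⟨Or.inl (y.memNd.1 k).2, (y.memNd.1 k).1⟩)
    fun k => ⟨Or.inr (y.memCe.1 k).1, y.ceU k⟩

theorem pk {S : Set MV} (k : (nw s K ps).Pk S) : s.Pk S ∧ (nw s K ps).N S = s.N S := by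
  have t : ∀ u ∈ S, ∀ v, s.G.Adj u v → (nw s K ps).G.Adj u v := by
    intro u hu v m
    obtain ⟨f, hf, rfl, rfl⟩ := gadj y.ok m
    refine y.adj_l ((k.sub hu).elim (fun c => ⟨hf, fun q => ?_⟩) fun c => (y.memCe.1 c).2 f hf rfl)
    have c' := y.memNd.1 c
    exact (y.uH' (y.subT (k.sub (k.cl _ ⟨hu, c⟩ _
      ((y.see q (y.uK c'.1 q rfl)).2 c'.2).symm))).2 (y.nmH (ps := ps) q)).elim
  have e : (nw s K ps).N S = s.N S := Subset.antisymm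
    (fun v m => ⟨m.1, m.2.imp fun u c => ⟨c.1, (y.adj_iff (y.subT (k.sub c.1)).2
      (y.memNd.1 (k.out m)).1).1 c.2⟩⟩) fun v m => ⟨m.1, m.2.imp fun u c => ⟨c.1, t u c.1 v c.2⟩⟩
  refine ⟨⟨fun v m => (y.subT (k.sub m)).1, ⟨k.conn.1, fun u hu v hv => ReflTransGen.mono
    (fun a b c => ⟨c.1, c.2.1, (y.adj_iff (y.subT (k.sub c.1)).2 (y.subT (k.sub c.2.1)).2).1
      c.2.2⟩) _ _ (k.conn.2 u hu v hv)⟩, k.node.imp fun v m => ⟨m.1, (y.memNd.1 m.2).2⟩,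
    fun v m => (y.memNd.1 (k.out (e ▸ m))).2, fun v m w c => k.cl v
      ⟨m.1, y.memNd.2 ⟨(y.subT (k.sub m.1)).2, m.2⟩⟩ w (t v m.1 w c), e ▸ k.card⟩, e⟩

theorem reg_sub {E : Set s.Φ} (k : E ⊆ U s K) (hx : x ∈ U s K) :
    (s.M.sub (U s K)).reg E x ⊆ s.M.reg E x ∩ U s K := by
  rw [FM.sub, compR y.ok.gk y.eU es_empty E x hx, gh_empty]
  refine inter_subset_inter_left _ fun g hg => ReflTransGen.mono ?_ _ _ hg
  rintro u _ (rfl | e)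
  · by_cases m : u ∈ U s K
    · exact Or.inl (sg_in m)
    · exact Or.inr (Or.inr ⟨fun c => m (k c), sg_out m⟩)
  · exact Or.inr e

theorem reg_back {E : Set s.Φ} (hx : x ∈ Q s K) (hp : p ∈ s.rg K x) (hg : g ∈ s.M.reg E p) :
    (g ∈ Hq s K → s.rg K g ∩ E0 s K ⊆ (s.M.sub (U s K)).reg E x) ∧
      (g ∉ Hq s K → g ∈ (s.M.sub (U s K)).reg E x) := by
  have h := y.ok.gk
  have xS := hx.1.1
  have t : ∀ z ∈ (s.M.sub (U s K)).reg E x, z ∈ E0 s K → z ∈ Hq s K →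
      s.rg K z ∩ E0 s K ⊆ (s.M.sub (U s K)).reg E x := fun z hz a b w hw =>
    ReflTransGen.trans hz (ReflTransGen.mono (fun _ _ e => e.imp id Or.inl) _ _
      (show w ∈ (s.M.sub (U s K)).fo z from y.fo1 a b ▸ hw))
  refine (cl_ind (P := fun g => g ∈ s.M.S ∧ (g ∈ Hq s K → s.rg K g ∩ E0 s K ⊆
    (s.M.sub (U s K)).reg E x) ∧ (g ∉ Hq s K → g ∈ (s.M.sub (U s K)).reg E x))
    ⟨y.sR.sub xS hp, fun _ => ?_, fun n => (n (hq_of hx.2.1 hp)).elim⟩ ?_ hg).2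
  · rw [show s.rg K p = s.rg K x from y.sR.eq xS hp]
    exact t x ReflTransGen.refl hx.1 hx.2.1
  · intro u w _ ⟨uS, i1, i2⟩ e
    have same : w ∈ s.rg K u → (u ∉ Hq s K → w ∉ Hq s K → w ∈ (s.M.sub (U s K)).reg E x) →
        w ∈ s.M.S ∧ (w ∈ Hq s K → s.rg K w ∩ E0 s K ⊆ (s.M.sub (U s K)).reg E x) ∧
          (w ∉ Hq s K → w ∈ (s.M.sub (U s K)).reg E x) := fun m c =>
      ⟨y.sR.sub uS m, fun q => (show s.rg K w = s.rg K u from y.sR.eq uS m) ▸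
        i1 (y.hq_back uS m q), fun q => c (fun a => q (hq_of a m)) q⟩
    rcases e with rfl | rfl | ⟨n, rfl⟩
    · exact same (rg_a (rg_self u)) fun a _ => ReflTransGen.tail (i2 a) (Or.inl rfl)
    · exact same (rg_b (rg_self u)) fun a b => ReflTransGen.tail (i2 a) (Or.inr (Or.inl
        (minor_b_keep (U := U s K) (C := ∅) ⟨h.bm uS, fun c => (b c).elim⟩).symm))
    · by_cases m : u ∈ E0 s K
      · have uR : u ∈ (s.M.sub (U s K)).reg E x := by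
          by_cases q : u ∈ Hq s K
          · exact i1 q ⟨rg_self u, m⟩
          · exact i2 q
        have wR : s.M.c u ∈ (s.M.sub (U s K)).reg E x :=
          ReflTransGen.tail uR (Or.inr (Or.inr ⟨n, rfl⟩))
        exact ⟨h.cm uS, t _ wR (y.e0.2 u m).2, fun _ => wR⟩
      · exact same (rg_c (rg_self u) m) fun a _ =>
          ReflTransGen.tail (i2 a) (Or.inr (Or.inr ⟨n, rfl⟩))

theorem reg' (k : K' ⊆ (nw s K ps).tv) (hp : p ∈ s.M.fl s.vx s.H) {w : s.Φ ⊕ s.Φ × Bool}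
    (hw : w ∈ (nw s K ps).M.S) (e : (nw s K ps).vx w = nm s K p) :
    (nw s K ps).vx '' (nw s K ps).rg K' w ∩ (nw s K ps).tv =
      s.vx '' s.rg K' p ∩ (nw s K ps).tv ∧ ∀ p2 ∈ s.M.fl s.vx s.H,
      nm s K p2 ∈ (nw s K ps).vx '' (nw s K ps).rg K' w → p2 ∈ s.rg K' p := by
  rw [y.tv_eq] at k ⊢
  have pH := (y.hole hp).1
  rcases flag hw with ⟨f, hf, rfl⟩ | ⟨x, hx, rfl⟩ | ⟨x, hx, rfl⟩
  · exact (y.uH' (ps := ps) ⟨f, hf, e⟩ (y.nmH pH)).elim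
  · exact (y.uH' (ps := ps) ⟨x, e0U hx.1, e⟩ (y.nmH pH)).elim
  have px : p ∈ s.rg K x := y.nm_inj hx.2.1 pH e
  have eE := es_ind y.ok y.lbl K'
  have sub := y.indU k
  have r := radS _ _ _ y.ok1 y.cs
  have r1 := r.2.2.2.2.2.2.2.2.1 _ (eE.of_sub sub) x (e0U hx.1)
  have r2 : (nw s K ps).rg K' (inr (x, true)) = inl '' (s.M.sub (U s K)).reg (s.M.ind s.vx K') x ∪
      inr '' ((Q s K ∩ (s.M.sub (U s K)).reg (s.M.ind s.vx K') x) ×ˢ univ) := by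
    unfold Sk.rg
    rw [y.ind' k, ← r1]
    refine (regBS orbS minorS _ _ _ r.1 (Iso.sub_old y.ok1 r.1 r.2.2.2.1 r.2.2.2.2.1
      (eE.of_sub sub)).1 _ (mem_l (ps := ps) (e0U hx.1))).2.1 _ ?_
    rw [r1]
    exact Or.inr ⟨(x, true), ⟨⟨hx, ReflTransGen.refl⟩, trivial⟩, rfl⟩
  have fwd : (s.M.sub (U s K)).reg (s.M.ind s.vx K') x ⊆ s.rg K' p := fun z hz =>
    ReflTransGen.trans (rgU sub pH (y.sR.symm hx.1.1 px)) (y.reg_sub sub (e0U hx.1) hz).1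
  rw [r2]
  refine ⟨Subset.antisymm ?_ ?_, ?_⟩
  · rintro _ ⟨⟨_, ⟨z, hz, rfl⟩ | ⟨⟨z, _ | _⟩, hz, rfl⟩, rfl⟩, m⟩
    · exact ⟨⟨z, fwd hz, rfl⟩, m⟩
    · exact ⟨⟨z, fwd hz.1.2, rfl⟩, m⟩
    · exact (y.uH' (ps := ps) m (y.nmH hz.1.1.2.1)).elim
  · rintro _ ⟨⟨g, hg, rfl⟩, m⟩
    have b := y.reg_back hx px hg
    refine ⟨?_, m⟩
    by_cases q : g ∈ Hq s K
    · obtain ⟨z, a1, a2, a3⟩ := y.hit (y.hqS q) (y.uK m q rfl)
      exact ⟨inl z, Or.inl ⟨z, b.1 q ⟨a2, a1⟩, rfl⟩, a3⟩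
    · exact ⟨inl g, Or.inl ⟨g, b.2 q, rfl⟩, rfl⟩
  · rintro p2 h2 ⟨_, ⟨z, hz, rfl⟩ | ⟨⟨z, _ | _⟩, hz, rfl⟩, m⟩
    · exact (y.uH' (ps := ps) ⟨z, (y.reg_sub sub (e0U hx.1) hz).2, m⟩ (y.nmH (y.hole h2).1)).elim
    · exact (y.uH' (ps := ps) ⟨z, e0U hz.1.1.1, m⟩ (y.nmH (y.hole h2).1)).elim
    · exact ReflTransGen.trans (fwd hz.1.2)
        (rgU sub hz.1.1.2.1 (y.nm_inj hz.1.1.2.1 (y.hole h2).1 m))

end Hy

end AbsM

end Pool.Agent.MP_9d78a0_co.gm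

end MrgPart6

-- marker of a merged file
example : 731051 + 385086 = 731051 + 385086 := rfl
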