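import Pool.Agent.MP_9d78a0_co.gm.HAll2
import Pool.Agent.MP_9d78a0_co.gm.HV2
import Pool.Agent.MP_9d78a0_co.gm.HBag
import Pool.Agent.MP_9d78a0_co.gm.HSurg

/-! Block H without hypotheses. -/

set_option autoImplicit false

namespace Pool.Agent.MP_9d78a0_co.gm

theorem hAll : LoopS ∧ DropS ∧ VortS :=
  HB.all2 (HB.v2S HB.basS HB.area0 HB.lev0 HB.gam0 HB.col0)
    (HB.bagHS HB.basS HB.area0 HB.lev0 HB.gam0) (HB.surgS HB.basS HB.area0)

end Pool.Agent.MP_9d78a0_co.gm
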