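import Pool.Agent.MP_9d78a0_co.gm.COp2
import Pool.Agent.MP_9d78a0_co.gm.OpMerge
import Pool.Agent.MP_9d78a0_co.gm.SpecH2
import Pool.Agent.MP_9d78a0_co.gm.JWf

-- ======== part 0: formerly Pool.Agent.MP_9d78a0_co.gm.FSurg
section MrgPart0

/-! Block F: the surgery on the map. -/

set_option autoImplicit false

namespace Pool.Agent.MP_9d78a0_co.gm

open Set Function Relation FM

namespace Srg

theorem adj_iff {Φ V : Type} {M : FM Φ} {vx : Φ → V} (h : M.Ok)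
    (ne : ∀ f ∈ M.S, vx f ≠ vx (M.a f)) {u v : V} :
    (M.gph vx).Adj u v ↔ ∃ f ∈ M.S, vx f = u ∧ vx (M.a f) = v := by
  constructor
  · rintro ⟨-, f, hf, k | k⟩
    · exact ⟨f, hf, k⟩
    · exact ⟨M.a f, h.a_mem hf, k.2, by rw [h.aa hf]; exact k.1⟩
  · rintro ⟨f, hf, rfl, rfl⟩
    exact ⟨ne f hf, f, hf, Or.inl ⟨rfl, rfl⟩⟩

theorem cp_eq {V : Type} {G : SimpleGraph V} {D : Set V} {u v : V} (k : v ∈ fb.cp G D u) :
    fb.cp G D v = fb.cp G D u := by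
  ext x
  exact ⟨fun q => ⟨q.1, k.2.trans q.2⟩, fun q => ⟨q.1, k.2.symm.trans q.2⟩⟩

/-- a vertex of a set that is not a node -/
noncomputable def rp (Q : Set MV) : MV := Classical.epsilon fun y => y ∈ Q ∧ y ∈ range Sum.inr

theorem rp_spec {Q : Set MV} {z : MV} (h1 : z ∈ Q) (h2 : z ∈ range Sum.inr) :
    rp Q ∈ Q ∧ rp Q ∈ range Sum.inr :=
  Classical.epsilon_spec (p := fun y => y ∈ Q ∧ y ∈ range Sum.inr) ⟨z, h1, h2⟩

variable (s : Sk)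

/-- an edge from `Q` to `v`, from a hole if possible -/
def Pr (Q : Set MV) (v : MV) (x : s.Φ) : Prop :=
  x ∈ s.M.S ∧ s.vx x ∈ Q ∧ s.vx (s.M.a x) = v ∧
    (s.vx x ∈ s.H ∨ ∀ y ∈ s.M.S, s.vx y ∈ Q → s.vx (s.M.a y) = v → s.vx y ∉ s.H)

/-- the chosen one -/
def Ch (Q : Set MV) (v : MV) (x : s.Φ) : Prop := ∃ h : ∃ y, Pr s Q v y, x = h.choose

variable {s}

theorem Ch.pr {Q : Set MV} {v : MV} {x : s.Φ} (h : Ch s Q v x) : Pr s Q v x := by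
  obtain ⟨h, rfl⟩ := h; exact h.choose_spec

theorem Ch.eq {Q : Set MV} {v : MV} {x y : s.Φ} (h : Ch s Q v x) (k : Ch s Q v y) : x = y := by
  obtain ⟨h, rfl⟩ := h; obtain ⟨k, rfl⟩ := k; rfl

theorem exists_ch {Q : Set MV} {v : MV} {y : s.Φ} (h1 : y ∈ s.M.S) (h2 : s.vx y ∈ Q)
    (h3 : s.vx (s.M.a y) = v) : ∃ x, Ch s Q v x := by
  have : ∃ x, Pr s Q v x := by
    by_cases k : ∀ y ∈ s.M.S, s.vx y ∈ Q → s.vx (s.M.a y) = v → s.vx y ∉ s.H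
    · exact ⟨y, h1, h2, h3, Or.inr k⟩
    · push Not at k
      obtain ⟨x, k1, k2, k3, k4⟩ := k
      exact ⟨x, k1, k2, k3, Or.inl k4⟩
  exact ⟨_, this, rfl⟩

theorem inr_of {x : MV} (hx : x ∈ s.Vt) (n : x ∉ s.Nd) :
    x ∈ range Sum.inr := by
  cases x with
  | inl v => exact (n ⟨hx, v, rfl⟩).elim
  | inr v => exact ⟨v, rfl⟩

theorem not_nd {x : MV} (k : x ∈ range Sum.inr) : x ∉ s.Nd := by
  rintro ⟨-, v, e⟩
  obtain ⟨n, rfl⟩ := k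
  cases e

end Srg

open Srg

theorem fSurgS : FSurgS := by
  classical
  intro s Ck Rk Z h spk hC hR one hZ hH hcp hN
  obtain ⟨-, k2, -, k4, -, fV⟩ := fSkS s h
  have hM := h.hm.ok
  have hL := h.hm.lbl
  have ne : ∀ f ∈ s.M.S, s.vx f ≠ s.vx (s.M.a f) := fun f hf => (h.hm.simple f hf).1
  have adj : ∀ u v, s.G.Adj u v ↔ ∃ f ∈ s.M.S, s.vx f = u ∧ s.vx (s.M.a f) = v :=
    fun _ _ => adj_iff hM ne
  set kn := s.kn Ck Rk with hkn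
  set mg := s.mg Ck Rk with hmg
  set cp := fb.cp s.G mg with hcpd
  have cpe : ∀ {u v : MV}, v ∈ cp u → cp v = cp u := fun k => cp_eq k
  have vt : ∀ f ∈ s.M.S, s.vx f ∈ s.Vt := fun f hf => ⟨f, hf, rfl⟩
  have cr1 : ∀ x ∈ Ck ∪ Rk, x ∈ range Sum.inr := fun x k =>
    k.elim (fun k => (hC k).1.2) fun k => h.hr.2.1 (hR k)
  have cr2 : ∀ x ∈ Ck ∪ Rk, x ∉ s.H := fun x k => k.elim (fun k m => (hC k).2 (Or.inl m))
    fun k m => Set.disjoint_left.1 h.hr.2.2 m (hR k)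
  have cr3 : ∀ x ∈ Ck ∪ Rk, x ∉ mg := by
    rintro x k ((m | m) | m)
    · exact cr2 x k m.1
    · exact k.elim m.2 fun k => m.1.2 (Or.inr (hR k))
    · exact not_nd (cr1 x k) m.1
  have kn1 : ∀ v ∈ kn, v ∉ mg := by
    rintro v k ((m | m) | m)
    · exact not_nd (h.hr.1 m.1) k.1
    · exact not_nd m.1.1.2 k.1
    · exact m.2 k
  have kn2 : ∀ u v, u ∈ Ck ∪ Rk → s.G.Adj u v → v ∈ kn := fun u v k e =>
    ⟨by_contra fun n => not_nd (cr1 u k) ((k4 u v e).2.2 n), u, k, e.symm⟩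
  have rimb : ∀ y ∈ s.Vt, y ∈ s.Rm → ∃ x ∈ s.H ∩ s.Vt, ∀ v, s.G.Adj y v → s.G.Adj x v := by
    intro y hy m
    obtain ⟨f, hf, q, e⟩ := h.rim y ⟨m, hy⟩
    obtain ⟨-, a2, a3, a4, -, -, -, a5⟩ := k2 f hf
    refine ⟨s.vx f, ⟨hf.2, vt f hf.1⟩, fun v k => ?_⟩
    have nv : v ∈ s.Nd := by_contra fun n => not_nd (h.hr.2.1 m) ((k4 y v k).2.2 n)
    obtain ⟨-, w, rfl⟩ := nv
    have : w ∈ s.nb (s.link f) := e ▸ k
    rw [(a5 q).2.2.2 (e ▸ m)] at this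
    rcases this with rfl | rfl
    · exact a2
    · exact a4 ▸ (k2 _ a3).2.1
  have tri : ∀ x ∈ s.Vt, x ∈ Ck ∪ Rk ∪ kn ∨ x ∈ mg ∨ x ∈ s.Rm \ Rk := by
    intro x hx
    by_cases n : x ∈ s.Nd
    · exact (em (x ∈ kn)).imp Or.inr fun k => Or.inl (Or.inr ⟨n, k⟩)
    by_cases q : x ∈ s.H
    · exact Or.inr (Or.inl (Or.inl (Or.inl ⟨q, hx⟩)))
    by_cases r : x ∈ s.Rm
    · exact (em (x ∈ Rk)).imp (fun k => Or.inl (Or.inr k)) fun k => Or.inr ⟨r, k⟩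
    have : x ∈ s.Ce := ⟨⟨hx, inr_of hx n⟩, fun m => m.elim q r⟩
    exact (em (x ∈ Ck)).imp (fun k => Or.inl (Or.inl k)) fun k => Or.inl (Or.inl (Or.inr ⟨this, k⟩))
  set A : s.Φ → Prop := fun x => s.vx x ∈ Ck ∪ Rk ∨ (s.vx x ∈ Z ∧ s.vx (s.M.a x) ∈ kn ∧
    (Ch s (cp (s.vx x)) (s.vx (s.M.a x)) x ∨ Ch s (cp (s.vx x)) (s.vx (s.M.a x)) (s.M.c x)))
    with hA
  set U : Set s.Φ := {x | x ∈ s.M.S ∧ (A x ∨ A (s.M.a x))} with hUd
  have Ac : ∀ x ∈ s.M.S, A x → A (s.M.c x) := fun x hx k => by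
    simp only [hA, hL.c hM hx, hL.ac hM hx, hM.cc hx] at k ⊢
    exact k.imp id fun k => ⟨k.1, k.2.1, k.2.2.symm⟩
  have Ak : ∀ x ∈ s.M.S, A x → s.vx (s.M.a x) ∈ kn := fun x hx k =>
    k.elim (fun k => kn2 _ _ k ((adj _ _).2 ⟨x, hx, rfl, rfl⟩)) fun k => k.2.1
  have hU : s.M.Es U := ⟨fun _ k => k.1, fun x k =>
    ⟨⟨hM.a_mem k.1, by rw [hM.aa k.1]; exact k.2.symm⟩, hM.c_mem k.1,
      k.2.imp (Ac x k.1) fun q => by rw [hM.comm k.1]; exact Ac _ (hM.a_mem k.1) q⟩⟩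
  have Uk : ∀ x ∈ U, ¬ A x → s.vx x ∈ kn := fun x k n => by
    have := Ak _ (hM.a_mem k.1) (k.2.resolve_left n)
    rwa [hM.aa k.1] at this
  set vx' : s.Φ → MV := fun f => if s.vx f ∈ Z then rp (cp (s.vx f)) else s.vx f with hvx
  set H' : Set MV := {y | ∃ z ∈ Z, z ∈ range Sum.inr ∧ y = rp (cp z)} with hH'
  have H1 : ∀ y ∈ H', y ∈ Z ∧ y ∈ range Sum.inr := by
    rintro _ ⟨z, hz, k, rfl⟩
    have := rp_spec (fb.cp_self (G := s.G) (hZ hz)) k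
    exact ⟨hcp z hz this.1, this.2⟩
  have nZ : ∀ x ∈ Ck ∪ Rk ∪ kn, x ∉ Z := fun x k m => k.elim (cr3 x) (kn1 x) (hZ m)
  have v1 : ∀ f, s.vx f ∈ Ck ∪ Rk ∪ kn → vx' f = s.vx f := fun f k => if_neg (nZ _ k)
  have cls : ∀ f ∈ U, (s.vx f ∈ Ck ∪ Rk ∪ kn ∧ vx' f = s.vx f ∧ vx' f ∉ H') ∨
      (s.vx f ∈ Z ∧ vx' f ∈ H' ∧ s.vx f ∈ range Sum.inr ∧ vx' f = rp (cp (s.vx f)) ∧
        s.vx (s.M.a f) ∈ kn ∧ (Ch s (cp (s.vx f)) (s.vx (s.M.a f)) f ∨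
          Ch s (cp (s.vx f)) (s.vx (s.M.a f)) (s.M.c f))) := by
    intro f hf
    by_cases k : s.vx f ∈ Ck ∪ Rk ∪ kn
    · exact Or.inl ⟨k, v1 f k, fun m => nZ _ k (v1 f k ▸ (H1 _ m).1)⟩
    · have q : A f := by_contra fun n => k (Or.inr (Uk f hf n))
      have q := q.resolve_left fun m => k (Or.inl m)
      have r : s.vx f ∈ range Sum.inr := inr_of (vt f hf.1)
        fun n => (h.bip f hf.1).1 n q.2.1.1
      have e : vx' f = rp (cp (s.vx f)) := if_pos q.1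
      exact Or.inr ⟨q.1, ⟨_, q.1, r, e⟩, r, e, q.2⟩
  have dU : Disjoint U (s.M.ind s.vx Z) := Set.disjoint_left.2 fun x k m => by
    by_cases q : A x
    · exact nZ _ (Or.inr (Ak x k.1 q)) m.2.2
    · exact nZ _ (Or.inr (Uk x k q)) m.2.1
  obtain ⟨C, -, eC, mg'⟩ := mergeS _ _ s.M s.vx Z hM hL
  obtain ⟨m1, -, m3, m4, -, m6, -, -⟩ := mg' U hU dU
  obtain ⟨pos', p1, p2⟩ := exists_pos_minor hM hU eC h.ps
  set N := s.M.minor U C with hNd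
  have lkZ : ∀ u ∈ Z, ∀ v, Link s.G Z u v ↔ v ∈ cp u := fun u hu v =>
    ⟨fun k => ⟨hZ (k.mem hu), k.mono hZ⟩, fun k =>
      ((fb.cp_conn (hZ hu)).2 u (fb.cp_self (hZ hu)) v k).mono (hcp u hu)⟩
  have lk0 : ∀ u, u ∉ Z → ∀ v, Link s.G Z u v → u = v := fun u n v k => by
    rcases ReflTransGen.cases_head k with e | ⟨_, e, -⟩
    · exact e
    · exact (n e.1).elim
  have cpq : ∀ f g, s.vx f ∈ Z → s.vx g ∈ Z → s.vx f ∈ range Sum.inr → s.vx g ∈ range Sum.inr →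
      rp (cp (s.vx f)) = rp (cp (s.vx g)) → cp (s.vx g) = cp (s.vx f) := by
    intro f g a1 a2 a3 a4 e
    have b1 := (rp_spec (fb.cp_self (G := s.G) (hZ a1)) a3).1
    have b2 := (rp_spec (fb.cp_self (G := s.G) (hZ a2)) a4).1
    exact (cp_eq b2).symm.trans (e ▸ cp_eq b1)
  have lbl : N.Lbl vx' := by
    intro f hf g hg
    rw [m3 f hf g hg]
    rcases cls f hf with a | a <;> rcases cls g hg with b | b
    · rw [a.2.1, b.2.1]
      exact ⟨fun e => e ▸ Link.refl _ _ _, lk0 _ (nZ _ a.1) _⟩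
    · exact ⟨fun e => (a.2.2 (e ▸ b.2.1)).elim,
        fun k => (nZ _ a.1 (lk0 _ (nZ _ a.1) _ k ▸ b.1)).elim⟩
    · exact ⟨fun e => (b.2.2 (e ▸ a.2.1)).elim, fun k => (nZ _ b.1 (k.mem a.1)).elim⟩
    · rw [a.2.2.2.1, b.2.2.2.1]
      refine Iff.trans ?_ (lkZ _ a.1 _).symm
      exact ⟨fun e => cpq f g a.1 b.1 a.2.2.1 b.2.2.1 e ▸ fb.cp_self (hZ b.1),
        fun k => congrArg rp (cp_eq k).symm⟩
  have keep : ∀ f ∈ s.M.S, s.vx f ∈ Ck ∪ Rk → f ∈ U := fun f hf k => ⟨hf, Or.inl (Or.inl k)⟩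
  have att : ∀ z ∈ Z, ∀ v ∈ kn, (∃ y ∈ cp z, s.G.Adj v y) →
      ∃ x ∈ U, s.vx x ∈ cp z ∧ s.vx (s.M.a x) = v := by
    rintro z hz v hv ⟨y, hy, e⟩
    obtain ⟨f, hf, e1, e2⟩ := (adj _ _).1 e.symm
    obtain ⟨x, k⟩ := exists_ch (Q := cp z) hf (e1 ▸ hy) e2
    obtain ⟨b1, b2, b3, -⟩ := k.pr
    refine ⟨x, ⟨b1, Or.inl (Or.inr ⟨hcp z hz b2, b3 ▸ hv, Or.inl ?_⟩)⟩, b2, b3⟩
    rw [b3, show cp (s.vx x) = cp z from cp_eq b2]; exact k
  have old : ∀ f ∈ s.M.fl s.vx s.H, s.vx (s.M.a f) ∈ kn → f ∈ U := by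
    intro f hf hv
    have z := hH ⟨hf.2, vt f hf.1⟩
    obtain ⟨x, k⟩ := exists_ch (Q := cp (s.vx f)) hf.1 (fb.cp_self (hZ z)) rfl
    obtain ⟨b1, b2, b3, b4⟩ := k.pr
    have b5 := b4.resolve_right fun q => q f hf.1 (fb.cp_self (hZ z)) rfl hf.2
    refine ⟨hf.1, Or.inl (Or.inr ⟨z, hv, ?_⟩)⟩
    rcases spk f hf x b1 (one x ⟨b1, b5⟩ f hf b3) b3 with rfl | rfl
    · exact Or.inl k
    · exact Or.inr k
  have nd' : ∀ f ∈ U, (vx' f ∈ range Sum.inl ↔ s.vx f ∈ s.Nd) := fun f hf => by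
    rcases cls f hf with a | a
    · rw [a.2.1]; exact ⟨fun k => ⟨vt f hf.1, k⟩, fun k => k.2⟩
    · refine ⟨fun ⟨v, e⟩ => ?_, fun k => (not_nd a.2.2.1 k).elim⟩
      obtain ⟨n, e'⟩ := (H1 _ a.2.1).2
      rw [← e] at e'; cases e'
  have ndk : ∀ f ∈ U, s.vx f ∈ s.Nd → s.vx f ∈ kn := fun f hf k => by
    rcases cls f hf with a | a
    · exact a.1.resolve_left fun m => not_nd (cr1 _ m) k
    · exact (not_nd a.2.2.1 k).elim
  have ne' : ∀ f ∈ N.S, vx' f ≠ vx' (N.a f) := fun f hf e => by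
    have a1 := nd' f hf
    have a2 := nd' _ (hU.2 f hf).1
    have a3 := h.bip f (hU.1 hf)
    rw [e] at a1
    have a4 : vx' (s.M.a f) ∈ range Sum.inl ↔ s.vx f ∈ s.Nd := a1
    tauto
  set t := s.re N vx' H' Rk pos' with ht
  have adj' : ∀ u v, t.G.Adj u v ↔ ∃ f ∈ U, vx' f = u ∧ vx' (s.M.a f) = v :=
    fun _ _ => adj_iff m1 ne'
  have eNd : t.Nd = kn := by
    ext v
    constructor
    · rintro ⟨⟨f, hf, rfl⟩, k⟩
      have := ndk f hf ((nd' f hf).1 k)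
      show vx' f ∈ kn
      rw [v1 f (Or.inr this)]; exact this
    · rintro ⟨k, y, hy, e⟩
      obtain ⟨f, hf, e1, e2⟩ := (adj _ _).1 e.symm
      refine ⟨⟨s.M.a f, (hU.2 f (keep f hf (e1 ▸ hy))).1, ?_⟩, k.2⟩
      exact (v1 _ (Or.inr (e2 ▸ ⟨k, y, hy, e⟩))).trans e2
  have eCe : t.Ce = Ck := by
    ext x
    constructor
    · rintro ⟨⟨⟨f, hf, rfl⟩, k⟩, n⟩
      rcases cls f hf with a | a
      · have e : t.vx f = s.vx f := a.2.1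
        rw [e] at k n ⊢
        rcases a.1 with (m | m) | m
        · exact m
        · exact (n (Or.inr m)).elim
        · exact (not_nd k m.1).elim
      · exact (n (Or.inl a.2.1)).elim
    · intro k
      obtain ⟨f, hf, e⟩ := (hC k).1.1
      refine ⟨⟨⟨f, keep f hf (e ▸ Or.inl k), (v1 f (e ▸ Or.inl (Or.inl k))).trans e⟩, (hC k).1.2⟩, ?_⟩
      rintro (m | m)
      · exact nZ _ (Or.inl (Or.inl k)) (H1 _ m).1
      · exact (hC k).2 (Or.inr (hR m))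
  have back : ∀ f ∈ U, vx' f ∈ Ck ∪ Rk ∪ kn → vx' f = s.vx f := fun f hf k =>
    (cls f hf).elim (fun a => a.2.1) fun a => (nZ _ k (H1 _ a.2.1).1).elim
  have adj1 : ∀ u ∈ Ck ∪ Rk, ∀ v, s.G.Adj u v → t.G.Adj u v := fun u k v e => by
    obtain ⟨f, hf, rfl, rfl⟩ := (adj _ _).1 e
    exact (adj' _ _).2 ⟨f, keep f hf k, v1 f (Or.inl k), v1 _ (Or.inr (kn2 _ _ k e))⟩
  have adj2 : ∀ u ∈ Ck ∪ Rk ∪ kn, ∀ v, v ∉ H' → t.G.Adj u v → s.G.Adj u v := fun u k v n e => by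
    obtain ⟨f, hf, rfl, rfl⟩ := (adj' _ _).1 e
    rw [back f hf k, (cls _ (hU.2 f hf).1).elim (fun a => a.2.1) fun a => (n a.2.1).elim]
    exact (adj _ _).2 ⟨f, hf.1, rfl, rfl⟩
  have has : ∀ v ∈ kn, ∀ x ∈ mg, s.G.Adj v x → ∃ f ∈ N.fl vx' H', vx' (N.a f) = v := by
    intro v hv x hx e
    obtain ⟨z, hz, k⟩ := hN x hx
    obtain ⟨f, hf, a1, a2⟩ := att z hz v hv (k v hv ⟨x, fb.cp_self hx, e⟩)
    refine ⟨f, ⟨hf, ?_⟩, (v1 _ (Or.inr (a2 ▸ hv))).trans a2⟩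
    exact (cls f hf).elim (fun a => (nZ _ a.1 (hcp z hz a1)).elim) fun a => a.2.1
  have vo : ∀ f ∈ s.M.S, s.vx f ∈ Ck ∪ Rk → N.vo f = s.M.vo f := by
    intro f hf k
    ext g
    constructor
    · intro q
      have gU : g ∈ U := m1.gk.sV.sub (keep f hf k) q
      exact (hL f hf g gU.1).1 (lk0 _ (nZ _ (Or.inl k)) _ ((m3 f (keep f hf k) g gU).1 q))
    · intro q
      have gS := hM.gk.sV.sub hf q
      have e := (hL f hf g gS).2 q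
      exact (m3 f (keep f hf k) g (keep g gS (e ▸ k))).2 (e ▸ Link.refl _ _ _)
  have con : N.Con := by
    set L : MV → MV → Prop := ReflTransGen
      fun u v => ∃ x ∈ U ∪ s.M.ind s.vx Z, s.vx x = u ∧ s.vx (s.M.a x) = v with hLd
    have Lu : ∀ x ∈ U, L (s.vx x) (s.vx (s.M.a x)) := fun x k => .single ⟨x, Or.inl k, rfl, rfl⟩
    have Lu' : ∀ x ∈ U, L (s.vx (s.M.a x)) (s.vx x) := fun x k => by
      have := Lu _ (hU.2 x k).1
      rwa [hM.aa k.1] at this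
    have Lz : ∀ z ∈ Z, ∀ u ∈ cp z, ∀ v ∈ cp z, L u v := fun z hz u hu v hv =>
      ReflTransGen.mono (fun _ _ ⟨x, k, e⟩ => ⟨x, Or.inr k, e⟩) _ _ ((link_ind hM).1
        (((lkZ z hz u).2 hu).symm.trans ((lkZ z hz v).2 hv)))
    have Lk : ∀ x ∈ mg, ∀ v ∈ kn, ∀ w ∈ kn, (∃ y ∈ cp x, s.G.Adj v y) → (∃ y ∈ cp x, s.G.Adj w y) →
        L v w := by
      intro x hx v hv w hw a b
      obtain ⟨z, hz, k⟩ := hN x hx
      obtain ⟨f, hf, a1, rfl⟩ := att z hz v hv (k v hv a)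
      obtain ⟨g, hg, b1, rfl⟩ := att z hz w hw (k w hw b)
      exact ((Lu' f hf).trans (Lz z hz _ a1 _ b1)).trans (Lu g hg)
    have key : ∀ u ∈ kn, ∀ v, Link s.G univ u v → v ∈ s.Vt →
        (v ∈ Ck ∪ Rk ∪ kn → L u v) ∧
        (v ∈ mg → ∀ w ∈ kn, (∃ y ∈ cp v, s.G.Adj w y) → L u w) ∧
        (v ∈ s.Rm \ Rk → ∀ x ∈ s.H ∩ s.Vt, (∀ w, s.G.Adj v w → s.G.Adj x w) →
          ∀ w ∈ kn, (∃ y ∈ cp x, s.G.Adj w y) → L u w) := by
      intro u hu v k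
      induction k with
      | refl => exact fun _ => ⟨fun _ => .refl, fun m => (kn1 u hu m).elim,
          fun m => (not_nd (h.hr.2.1 m.1) hu.1).elim⟩
      | @tail v v' _ e ih =>
        intro hv'
        have e := e.2.2
        have hv := (k4 v v' e).1
        obtain ⟨i1, i2, i3⟩ := ih hv
        have hm : ∀ x ∈ s.H ∩ s.Vt, x ∈ mg := fun x q => Or.inl (Or.inl q)
        rcases tri v hv with a | a | a
        · refine ⟨fun b => ?_, fun b w hw c => ?_, fun b x hx q w hw c => ?_⟩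
          · obtain ⟨f, hf, rfl, rfl⟩ := (adj _ _).1 e
            refine (i1 a).trans (Lu f ?_)
            rcases a with a | a
            · exact keep f hf a
            · exact ⟨hf, Or.inr (Or.inl (b.resolve_right fun m => (h.bip f hf).1 a.1 m.1))⟩
          · have a' : v ∈ kn := a.resolve_left fun m => kn1 _ (kn2 _ _ m e) b
            exact (i1 a).trans (Lk v' b v a' w hw ⟨v', fb.cp_self b, e⟩ c)
          · have a' : v ∈ kn := a.resolve_left fun m => not_nd (h.hr.2.1 b.1) (kn2 _ _ m e).1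
            exact (i1 a).trans (Lk x (hm x hx) v a' w hw ⟨x, fb.cp_self (hm x hx),
              (q v e.symm).symm⟩ c)
        · refine ⟨fun b => ?_, fun b w hw c => ?_, fun b x hx q w hw c => ?_⟩
          · exact i2 a v' (b.resolve_left fun m => kn1 _ (kn2 _ _ m e.symm) a)
              ⟨v, fb.cp_self a, e.symm⟩
          · exact i2 a w hw (cpe (fb.cp_closed (fb.cp_self a) b e) ▸ c)
          · exact i2 a w hw (cpe (fb.cp_closed (fb.cp_self a) (hm x hx) (q v e.symm).symm) ▸ c)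
        · obtain ⟨x, hx, q⟩ := rimb v hv a.1
          have n' : v' ∈ s.Nd := by_contra fun n => not_nd (h.hr.2.1 a.1) ((k4 v v' e).2.2 n)
          refine ⟨fun b => ?_, fun b w hw c => ?_, fun b => (not_nd (h.hr.2.1 b.1) n').elim⟩
          · exact i3 a x hx q v' (b.resolve_left fun m => not_nd (cr1 _ m) n')
              ⟨x, fb.cp_self (hm x hx), (q v' e).symm⟩
          · exact i3 a x hx q w hw (cpe (fb.cp_closed (fb.cp_self (hm x hx)) b (q v' e)) ▸ c)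
    have fin : ∀ f ∈ U, ∃ x ∈ s.M.S, s.vx x ∈ kn ∧ L (s.vx f) (s.vx x) ∧ L (s.vx x) (s.vx f) :=
      fun f hf => by
        by_cases q : A f
        · exact ⟨_, hM.a_mem hf.1, Ak f hf.1 q, Lu f hf, Lu' f hf⟩
        · exact ⟨f, hf.1, Uk f hf q, .refl, .refl⟩
    intro f hf g hg
    obtain ⟨x, hx, a1, a2, -⟩ := fin f hf
    obtain ⟨y, hy, b1, -, b2⟩ := fin g hg
    have := ((gphS orbS minorS _ _ s.M s.vx hM hL).2.2.2.1 x hx y hy).1 (h.hm.con x hx y hy)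
    exact (m4 f hf g hg).2 ((a2.trans ((key _ a1 _ this (vt y hy)).1 (Or.inr b1))).trans b2)
  have nH : ∀ f ∈ U, vx' f ∉ H' → s.vx f ∉ s.H ∧ vx' f = s.vx f := fun f hf n =>
    (cls f hf).elim (fun a => ⟨fun m => nZ _ a.1 (hH ⟨m, vt f hf.1⟩), a.2.1⟩)
      fun a => (n a.2.1).elim
  have inH : ∀ f ∈ U, vx' f ∈ H' → s.vx (s.M.a f) ∈ kn := fun f hf k =>
    (cls f hf).elim (fun a => (a.2.2 k).elim) fun a => a.2.2.2.2.1
  have nb : ∀ x ∈ Ck ∪ Rk, t.nb x = s.nb x := fun x k => Set.ext fun v =>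
    ⟨adj2 x (Or.inl k) _ fun m => (H1 _ m).2.elim fun _ e => Sum.inr_ne_inl e, adj1 x k _⟩
  have fT : t.Vt.Finite := m1.fin.image _
  refine ⟨N, vx', H', pos', ⟨⟨m1, lbl, con, fun f hf => ⟨ne' f hf, fun g hg a b c d => ?_⟩,
    fun f hf k m => ?_⟩, p1, ⟨fun y k => (H1 y k).2, fun y k => cr1 y (Or.inr k),
      Set.disjoint_left.2 fun y k m => nZ y (Or.inl (Or.inr m)) (H1 y k).1⟩, fun v k => ?_,
    fun f hf => ?_, fun f hf => ⟨fun k => ?_, fun k => ?_⟩, fun y k => ?_⟩, fun f hf g hg a b => ?_,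
    (monoS _ _ hM).2 _ _ hU eC, hU.1, ⟨rfl, rfl⟩, m6,
    fun f _ => p2 f, fun f hf => (cls f hf).imp id fun a => ⟨a.1, a.2.1⟩, keep, old, has, eNd, eCe,
    nb, ?_, ?_, fun fc S S' a b => ?_⟩
  · obtain ⟨a1, a2⟩ := nH f hf a
    obtain ⟨b1, b2⟩ := nH _ (hU.2 f hf).1 b
    have c' : vx' g = vx' f := c
    have d' : vx' (s.M.a g) = vx' (s.M.a f) := d
    exact (h.hm.simple f (hU.1 hf)).2 g (hU.1 hg) a1 b1
      ((nH g hg (c' ▸ a)).2.symm.trans (c'.trans a2))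
      ((nH _ (hU.2 g hg).1 (d' ▸ b)).2.symm.trans (d'.trans b2))
  · have := inH f hf k
    have m' : vx' (s.M.a f) ∈ H' := m
    exact nZ _ (Or.inr this) (v1 _ (Or.inr this) ▸ (H1 _ m').1)
  · have : Sum.inl v ∈ t.Nd := ⟨k, v, rfl⟩
    rw [eNd] at this
    exact h.od v this.1.1
  · have a1 := nd' f hf
    have a2 := nd' _ (hU.2 f hf).1
    have a3 := h.bip f (hU.1 hf)
    have a4 : t.vx f ∈ t.Nd ↔ vx' f ∈ range Sum.inl := and_iff_right ⟨f, hf, rfl⟩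
    have a5 : t.vx (t.M.a f) ∈ t.Nd ↔ vx' (s.M.a f) ∈ range Sum.inl :=
      and_iff_right ⟨_, (hU.2 f hf).1, rfl⟩
    rw [a4, a5, a1, a2]; exact a3
  · rw [eCe] at k
    have e := back f hf (Or.inl (Or.inl k))
    have k' : s.vx f ∈ Ck := e ▸ k
    exact (vo f (hU.1 hf) (Or.inl k')).symm ▸ (h.deg f (hU.1 hf)).1 (hC k')
  · have e := back f hf (Or.inl (Or.inr k))
    have k' : s.vx f ∈ Rk := e ▸ k
    exact (vo f (hU.1 hf) (Or.inr k')).symm ▸ (h.deg f (hU.1 hf)).2 (hR k')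
  · obtain ⟨g, hg, e⟩ := k.2
    have k1 : y ∈ Rk := k.1
    have e' : s.vx g = y := (back g hg (Or.inl (Or.inr (e ▸ k1 :)))).symm.trans e
    obtain ⟨f, hf, q, l⟩ := h.rim y ⟨hR k1, e' ▸ vt g (hU.1 hg)⟩
    obtain ⟨a1, -, a3, -, -, -, -, a5⟩ := k2 f hf
    obtain ⟨b1, b2, -⟩ := a5 q
    have fS := hf.1
    have u0 : f ∈ U := old f hf (a1 ▸ kn2 y _ (Or.inr k1) (l ▸ b1))
    have u4 : s.M.rot f ∈ U := old _ a3 ((k2 _ a3).1 ▸ kn2 y _ (Or.inr k1) (l ▸ b2))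
    have u5 : s.M.b f ∈ U := by
      have := (hU.2 _ u4).2
      rwa [FM.rot, hM.cc (hM.b_mem fS)] at this
    have s1 := hM.b_mem (hM.a_mem fS)
    have s2 := hM.b_mem (hM.a_mem s1)
    have s3 := hM.b_mem (hM.a_mem s2)
    have l' : s.vx (s.M.a (s.M.b (s.M.a f))) = y := l
    have w1 : s.M.a (s.M.b (s.M.a f)) ∈ U := keep _ (hM.a_mem s1) (l' ▸ Or.inr k1)
    have u1 : s.M.b (s.M.a f) ∈ U := (hM.gk.es_a hU s1).1 w1
    have u2 : s.M.b (s.M.a (s.M.b (s.M.a f))) ∈ U :=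
      keep _ s2 (by rw [hL.b hM (hM.a_mem s1), l']; exact Or.inr k1)
    have q' : s.M.b (s.M.a (s.M.b (s.M.a (s.M.b (s.M.a (s.M.b (s.M.a f))))))) = f := q
    have u3 : s.M.b (s.M.a (s.M.b (s.M.a (s.M.b (s.M.a f))))) ∈ U := by
      refine (hM.gk.es_a hU s3).1 ?_
      rw [← hM.bb (hM.a_mem s3), q']; exact u5
    have t1 : ∀ x ∈ U, s.M.b (s.M.a x) ∈ U → N.b (N.a x) = s.M.b (s.M.a x) := fun x k m =>
      m6 _ (hU.2 x k).1 m
    refine ⟨f, ⟨u0, ?_⟩, ?_, ?_⟩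
    · exact (cls f u0).elim (fun a => (nZ _ a.1 (hH ⟨hf.2, vt f fS⟩)).elim) fun a => a.2.1
    · show N.b (N.a (N.b (N.a (N.b (N.a (N.b (N.a f))))))) = f
      rw [t1 f u0 u1, t1 _ u1 u2, t1 _ u2 u3, t1 _ u3 (q'.symm ▸ u0), q']
    · show vx' (N.a (N.b (N.a f))) = y
      rw [t1 f u0 u1]
      exact (v1 _ (Or.inl (Or.inr (l' ▸ k1)))).trans l'
  · have a' : vx' g = vx' f := a
    have b' : vx' (s.M.a g) = vx' (s.M.a f) := b
    have c1 := (cls f hf.1).resolve_left fun m => m.2.2 hf.2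
    have c2 := (cls g hg).resolve_left fun m => m.2.2 (a' ▸ hf.2)
    rw [v1 _ (Or.inr c1.2.2.2.2.1), v1 _ (Or.inr c2.2.2.2.2.1)] at b'
    have e := cpq f g c1.1 c2.1 c1.2.2.1 c2.2.2.1 (c1.2.2.2.1.symm.trans (a'.symm.trans c2.2.2.2.1))
    have d1 := c1.2.2.2.2.2
    have d2 := c2.2.2.2.2.2
    rw [e, b'] at d2
    have fS := hU.1 hf.1
    have gS := hU.1 hg
    show g = f ∨ g = s.M.c f
    rcases d1 with d1 | d1 <;> rcases d2 with d2 | d2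
    · exact Or.inl (d2.eq d1)
    · exact Or.inr (by rw [← d2.eq d1, hM.cc gS])
    · exact Or.inr (d2.eq d1)
    · exact Or.inl (by rw [← hM.cc gS, d2.eq d1, hM.cc fS])
  · rintro x k _ ⟨f, hf, e, p, rfl⟩
    have e' : s.vx f = x := (back f hf (Or.inl (Or.inl (e ▸ k :)))).symm.trans e
    have fS := hU.1 hf
    refine ⟨f, fS, e', p2 f p, ?_⟩
    have it : ∀ i, (s.M.rot^[i] f ∈ s.M.S ∧ s.vx (s.M.rot^[i] f) = x) ∧
        N.rot^[i] f = s.M.rot^[i] f := by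
      intro i
      induction i with
      | zero => exact ⟨⟨fS, e'⟩, rfl⟩
      | succ i ih =>
        rw [iterate_succ_apply', iterate_succ_apply', ih.2]
        have b1 := hM.b_mem ih.1.1
        have b2 := (hL.b hM ih.1.1).trans ih.1.2
        refine ⟨⟨hM.c_mem b1, (hL.c hM b1).trans b2⟩, congrArg s.M.c ?_⟩
        exact m6 _ (keep _ ih.1.1 (ih.1.2 ▸ Or.inl k)) (keep _ b1 (b2 ▸ Or.inl k))
    show (List.range ((N.vo f).ncard / 2)).map (fun i => nodeOf (vx' (s.M.a (N.rot^[i] f)))) = _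
    rw [vo f fS (e' ▸ Or.inl k)]
    refine List.map_congr_left fun i _ => ?_
    rw [(it i).2, v1 _ (Or.inr (Ak _ (it i).1.1 (Or.inl ((it i).1.2 ▸ Or.inl k))))]
    rfl
  · have fZ : Z.Finite := fV.subset fun z k => by
      rcases hZ k with (m | m) | m
      · exact m.2
      · exact m.1.1.1
      · exact m.1.1
    refine le_trans (ncard_le_ncard ?_ ((fZ.image cp).image rp)) (ncard_image_le (fZ.image cp))
    rintro _ ⟨⟨z, hz, -, rfl⟩, -⟩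
    exact ⟨_, ⟨z, hz, rfl⟩, rfl⟩
  · have pk : ∀ S, t.Pk S → s.Pk S := by
      intro S p
      have sub : ∀ x ∈ S, x ∈ kn ∨ x ∈ Ck := fun x k => by
        have : x ∈ t.Nd ∪ t.Ce := p.sub k
        rwa [eNd, eCe] at this
      have sub' : ∀ x ∈ S, x ∈ Ck ∪ Rk ∪ kn := fun x k =>
        (sub x k).elim Or.inr fun m => Or.inl (Or.inl m)
      have cl' : ∀ v ∈ S, v ∈ kn → ∀ y, s.G.Adj v y → y ∈ S := by
        intro v hv k y e
        have noH : ∀ x ∈ mg, ¬ s.G.Adj v x := fun x hx e => by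
          obtain ⟨f, hf, q⟩ := has v k x hx e
          have := p.cl v ⟨hv, eNd ▸ k⟩ (vx' f) ((adj' _ _).2 ⟨f, hf.1, rfl, q⟩).symm
          exact nZ _ (sub' _ this) (H1 _ hf.2).1
        rcases tri y (k4 y v e.symm).1 with (a | a) | a | a
        · exact p.cl v ⟨hv, eNd ▸ k⟩ y (adj1 y a v e.symm).symm
        · exact ((k4 v y e).2.1 k.1 a.1).elim
        · exact (noH y a e).elim
        · obtain ⟨x, hx, q⟩ := rimb y (k4 y v e.symm).1 a.1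
          exact (noH x (Or.inl (Or.inl hx)) (q v e.symm).symm).elim
      have nn : s.N S ⊆ t.N S := by
        rintro y ⟨n, x, hx, e⟩
        rcases sub x hx with a | a
        · exact (n (cl' x hx a y e)).elim
        · exact ⟨n, x, hx, adj1 x (Or.inl a) y e⟩
      refine ⟨fun x k => (sub x k).imp (fun m => m.1) fun m => hC m, ⟨p.conn.1, fun u hu v hv =>
        Link.map (G' := s.G) id (fun a ha b hb e => Link.single ha hb (adj2 a (sub' a ha) b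
          (fun m => nZ _ (sub' b hb) (H1 _ m).1) e)) (p.conn.2 u hu v hv)⟩, ?_,
        fun y k => ?_, fun v k => cl' v k.1 ((sub v k.1).resolve_right
          fun m => not_nd (cr1 _ (Or.inl m)) k.2), ?_⟩
      · obtain ⟨v, k1, k2⟩ := p.node
        rw [eNd] at k2
        exact ⟨v, k1, k2.1⟩
      · have := p.out (nn k)
        rw [eNd] at this
        exact this.1
      · exact (ncard_le_ncard nn (fT.subset fun y k => (p.out k).1)).trans p.card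
    exact fc S S' (pk S a) (pk S' b)

end Pool.Agent.MP_9d78a0_co.gm

end MrgPart0

-- ======== part 1: formerly Pool.Agent.MP_9d78a0_co.gm.HNorm
section MrgPart1

/-! Block H: small deep pockets are merged into cells. -/

set_option autoImplicit false

namespace Pool.Agent.MP_9d78a0_co.gm

open Set Function Relation FM

namespace HNorm

section grid

variable {V : Type} {G G' : SimpleGraph V} {g : ℕ} {B : Fin g × Fin g → Set V} {T T' S N : Set V}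

theorem in_or (hN : ∀ x ∈ S, ∀ y, G.Adj x y → y ∈ S ∨ y ∈ N) {K : Set V} (hK : Conn G K)
    (k : (K ∩ S).Nonempty) : K ⊆ S ∨ (K ∩ N).Nonempty := by
  obtain ⟨u, h1, h2⟩ := k
  refine or_iff_not_imp_left.2 fun n => ?_
  obtain ⟨v, h3, h4⟩ := not_subset.1 n
  obtain ⟨x, y, -, a, b, c, e, -⟩ := fb.link_exit (hK.2 u h1 v h3) h2 h4
  exact ⟨y, a, (hN x b y e).resolve_left c⟩

theorem two_pts (h : N.Finite) (k : N.ncard ≤ 2) (x : V) : ∃ a b, N ⊆ {a, b} := by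
  rcases (show N.ncard = 0 ∨ N.ncard = 1 ∨ N.ncard = 2 by omega) with e | e | e
  · exact ⟨x, x, (ncard_eq_zero h).1 e ▸ empty_subset _⟩
  · obtain ⟨a, rfl⟩ := ncard_eq_one.1 e
    exact ⟨a, a, singleton_subset_iff.2 (Or.inl rfl)⟩
  · obtain ⟨a, b, -, rfl⟩ := ncard_eq_two.1 e
    exact ⟨a, b, subset_rfl⟩

/-- `x` and its neighbours lie in `{a, b}` -/
def Cor (g a b x : ℕ) : Prop :=
  x < g ∧ (x = a ∨ x = b) ∧ (x + 1 < g → x + 1 = a ∨ x + 1 = b) ∧ (0 < x → x - 1 = a ∨ x - 1 = b)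

theorem Cor.eq {a b x y : ℕ} (hg : 3 ≤ g) (h : Cor g a b x) (k : Cor g a b y) : x = y := by
  unfold Cor at h k
  omega

theorem Cor.ne {a b x : ℕ} (hg : 3 ≤ g) (h : Cor g a b x) : a ≠ b := by
  unfold Cor at h
  omega

theorem pick (hB : Model (fb.grid g) G T B) (hg : 3 ≤ g)
    (hN : ∀ x ∈ S, ∀ y, G.Adj x y → y ∈ S ∨ y ∈ N) {n1 n2 : V} (h2 : N ⊆ {n1, n2})
    (nc : ∀ i j, ¬ Cross B i j ⊆ S) : ∃ p1, ∀ p ≠ p1, (B p ∩ S).Nonempty →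
      (B p ∩ N).Nonempty ∧ (B p ∩ N).Subsingleton ∧ (B p1 ∩ S).Nonempty ∧
        ∀ p', (fb.grid g).Adj p p' → (B p' ∩ (S ∪ N)).Nonempty → p' = p1 := by
  have loc : ∀ n, ∃ q, ∀ p, n ∈ B p → p = q := fun n => by
    by_cases k : ∃ q, n ∈ B q
    · obtain ⟨q, k⟩ := k
      exact ⟨q, fun p m => by_contra fun e => disjoint_left.1 (hB.2.2.1 p q e) m k⟩
    · exact ⟨(⟨0, by omega⟩, ⟨0, by omega⟩), fun p m => (k ⟨p, m⟩).elim⟩
  obtain ⟨q1, l1⟩ := loc n1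
  obtain ⟨q2, l2⟩ := loc n2
  have lq : ∀ p, (B p ∩ N).Nonempty → p = q1 ∨ p = q2 := fun p ⟨x, a, b⟩ =>
    (h2 b).imp (fun e : x = n1 => l1 p (e ▸ a)) fun e : x = n2 => l2 p (e ▸ a)
  have sg : ∀ p, q1 ≠ q2 → (B p ∩ N).Subsingleton := by
    rintro p n x ⟨a, b⟩ y ⟨c, d⟩
    rcases h2 b with rfl | rfl <;> rcases h2 d with rfl | rfl
    exacts [rfl, (n ((l1 p a).symm.trans (l2 p c))).elim, (n ((l1 p c).symm.trans (l2 p a))).elim,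
      rfl]
  by_cases hA : ∃ p0, B p0 ⊆ S
  swap
  · have io : ∀ p, (B p ∩ S).Nonempty → (B p ∩ N).Nonempty := fun p k =>
      (in_or hN (hB.2.1 p) k).resolve_left fun m => hA ⟨p, m⟩
    by_cases k : ∃ p1, (B p1 ∩ S).Nonempty
    · obtain ⟨p1, k⟩ := k
      refine ⟨p1, fun p n m => ⟨io p m, sg p ?_, k, fun p' e ⟨x, a, b⟩ => ?_⟩⟩
      · rintro rfl
        exact n (((lq p (io p m)).elim id id).trans ((lq p1 (io p1 k)).elim id id).symm)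
      · have c : (B p' ∩ N).Nonempty := b.elim (fun b => io p' ⟨x, a, b⟩) fun b => ⟨x, a, b⟩
        have d := e.ne
        rcases lq p (io p m) with rfl | rfl <;> rcases lq p' c with rfl | rfl <;>
          rcases lq p1 (io p1 k) with rfl | rfl <;>
          first | rfl | exact (d rfl).elim | exact (n rfl).elim
    · exact ⟨q1, fun p _ m => (k ⟨p, m⟩).elim⟩
  obtain ⟨p0, h0⟩ := hA
  have fr : ∀ a b : Fin g, ∃ c : Fin g, c ≠ a ∧ c ≠ b := fun a b => by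
    by_contra n
    push Not at n
    have h0 := n ⟨0, by omega⟩
    have h1 := n ⟨1, by omega⟩
    have h2 := n ⟨2, by omega⟩
    simp only [ne_eq, Fin.ext_iff] at h0 h1 h2
    omega
  have cr : ∀ i j, i ≠ q1.1 → i ≠ q2.1 → j ≠ q1.2 → j ≠ q2.2 → ¬ (Cross B i j ∩ S).Nonempty := by
    intro i j a b c d k
    obtain ⟨x, e, f⟩ := (in_or hN (JWf.cross_conn hB i j) k).resolve_left (nc i j)
    obtain ⟨l, e | e⟩ := mem_iUnion.1 e <;> rcases lq _ ⟨x, e, f⟩ with rfl | rfl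
    exacts [a rfl, b rfl, c rfl, d rfl]
  have box : ∀ p, (B p ∩ (S ∪ N)).Nonempty →
      ((p.1 : ℕ) = q1.1 ∨ (p.1 : ℕ) = q2.1) ∧ ((p.2 : ℕ) = q1.2 ∨ (p.2 : ℕ) = q2.2) := by
    rintro ⟨i, j⟩ ⟨x, a, b | b⟩
    · obtain ⟨i0, i1, i2⟩ := fr q1.1 q2.1
      obtain ⟨j0, j1, j2⟩ := fr q1.2 q2.2
      constructor <;> by_contra n <;> rw [not_or, ← Fin.ext_iff, ← Fin.ext_iff] at n
      · exact cr i j0 n.1 n.2 j1 j2 ⟨x, JWf.row_sub _ _ _ a, b⟩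
      · exact cr i0 j i1 i2 n.1 n.2 ⟨x, JWf.col_sub _ _ _ a, b⟩
    · rcases lq _ ⟨x, a, b⟩ with rfl | rfl <;> simp
  have nbr : ∀ p, B p ⊆ S → ∀ p', (fb.grid g).Adj p p' → (B p' ∩ (S ∪ N)).Nonempty :=
    fun p k p' e => let ⟨u, a, v, b, c⟩ := hB.2.2.2 p p' e; ⟨v, b, hN u (k a) v c⟩
  have cor : ∀ p, B p ⊆ S → Cor g q1.1 q2.1 p.1 ∧ Cor g q1.2 q2.2 p.2 := by
    rintro ⟨i, j⟩ k
    obtain ⟨x, hx⟩ := (hB.2.1 (i, j)).1
    have b := box _ ⟨x, hx, Or.inl (k hx)⟩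
    refine ⟨⟨i.2, b.1, fun a => ?_, fun a => ?_⟩, j.2, b.2, fun a => ?_, fun a => ?_⟩
    · exact (box _ (nbr _ k (⟨i + 1, a⟩, j) (Or.inr ⟨rfl, Or.inl rfl⟩))).1
    · exact (box _ (nbr _ k (⟨i - 1, (Nat.sub_le _ _).trans_lt i.2⟩, j)
        (Or.inr ⟨rfl, Or.inr (Nat.sub_add_cancel a)⟩))).1
    · exact (box _ (nbr _ k (i, ⟨j + 1, a⟩) (Or.inl ⟨rfl, Or.inl rfl⟩))).2
    · exact (box _ (nbr _ k (i, ⟨j - 1, (Nat.sub_le _ _).trans_lt j.2⟩)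
        (Or.inl ⟨rfl, Or.inr (Nat.sub_add_cancel a)⟩))).2
  have c0 := cor p0 h0
  have io : ∀ p ≠ p0, (B p ∩ S).Nonempty → (B p ∩ N).Nonempty := fun p n k =>
    (in_or hN (hB.2.1 p) k).resolve_left fun m => n
      (Prod.ext (Fin.ext ((cor p m).1.eq hg c0.1)) (Fin.ext ((cor p m).2.eq hg c0.2)))
  obtain ⟨x0, hx0⟩ := (hB.2.1 p0).1
  refine ⟨p0, fun p n m => ⟨io p n m, sg p fun e => c0.1.ne hg (e ▸ rfl), ⟨x0, hx0, h0 hx0⟩,
    fun p' e ⟨x, a, b⟩ => by_contra fun n' => ?_⟩⟩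
  have c : (B p' ∩ N).Nonempty := b.elim (fun b => io p' n' ⟨x, a, b⟩) fun b => ⟨x, a, b⟩
  have e' : (p.1 : ℕ) = p'.1 ∨ (p.2 : ℕ) = p'.2 := Or.imp And.left And.left e
  rcases lq p (io p n m) with rfl | rfl <;> rcases lq p' c with rfl | rfl
  exacts [e.ne rfl, e'.elim (c0.1.ne hg) (c0.2.ne hg),
    e'.elim (c0.1.ne hg).symm (c0.2.ne hg).symm, e.ne rfl]

theorem grid_merge (hB : Model (fb.grid g) G T B) (hg : 3 ≤ g)
    (hN : ∀ y, y ∈ N ↔ y ∉ S ∧ ∃ x ∈ S, G.Adj x y) (fN : N.Finite) (cN : N.ncard ≤ 2)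
    (nc : ∀ i j, ¬ Cross B i j ⊆ S) {x0 : V} (h0 : x0 ∈ S)
    (a1 : ∀ u ∉ S, ∀ v ∉ S, G.Adj u v → G'.Adj u v) (a2 : ∀ n ∈ N, G'.Adj x0 n)
    (t1 : T \ S ⊆ T') (t2 : x0 ∈ T') :
    ∃ B', Model (fb.grid g) G' T' B' ∧ ∀ p, B' p ⊆ B p ∪ {x0} := by
  obtain ⟨n1, n2, h2⟩ := two_pts fN cN x0
  have hN' : ∀ x ∈ S, ∀ y, G.Adj x y → y ∈ S ∨ y ∈ N := fun x k y e =>
    (em (y ∈ S)).imp_right fun n => (hN y).2 ⟨n, x, k, e⟩
  obtain ⟨p1, pk⟩ := pick hB hg hN' h2 nc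
  have lk : ∀ K u v, Disjoint K S → Link G K u v → Link G' K u v := fun K u v d k =>
    Link.map (G' := G') id (fun a ha b hb e => Link.single ha hb
      (a1 a (disjoint_left.1 d ha) b (disjoint_left.1 d hb) e)) k
  have ex : ∀ p, (B p ∩ S).Nonempty → ∀ v ∈ B p \ S, ∃ x ∈ B p ∩ N, Link G' (B p \ S) x v := by
    rintro p ⟨u, b1, b2⟩ v hv
    obtain ⟨x, y, c1, -, c2, c3, e, l⟩ :=
      fb.link_exit (T := Sᶜ) ((hB.2.1 p).2 v hv.1 u b1) hv.2 (not_not.2 b2)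
    exact ⟨x, ⟨c1, (hN x).2 ⟨c2, y, not_not.1 c3, e.symm⟩⟩, (lk _ _ _ disjoint_sdiff_left l).symm⟩
  have ad : ∀ p p', (fb.grid g).Adj p p' → ∀ u ∈ B p, ∀ v ∈ B p', G.Adj u v → u ∈ S →
      ∃ u ∈ (B p \ S) ∪ {x | x = x0 ∧ p = p1 ∧ (B p1 ∩ S).Nonempty},
        ∃ v ∈ (B p' \ S) ∪ {x | x = x0 ∧ p' = p1 ∧ (B p1 ∩ S).Nonempty}, G'.Adj u v := by
    intro p p' e u hu v hv a k
    by_cases c : p = p1
    · obtain ⟨n, d1, d2⟩ : (B p' ∩ N).Nonempty := (hN' u k v a).elim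
        (fun m => (pk p' (c ▸ e.ne.symm) ⟨v, hv, m⟩).1) fun m => ⟨v, hv, m⟩
      exact ⟨x0, Or.inr ⟨rfl, c, u, c ▸ hu, k⟩, n, Or.inl ⟨d1, ((hN n).1 d2).1⟩, a2 n d2⟩
    · obtain ⟨⟨n, d1, d2⟩, -, d3, d4⟩ := pk p c ⟨u, hu, k⟩
      exact ⟨n, Or.inl ⟨d1, ((hN n).1 d2).1⟩, x0, Or.inr ⟨rfl, d4 p' e ⟨v, hv, hN' u k v a⟩, d3⟩,
        (a2 n d2).symm⟩
  refine ⟨fun p => (B p \ S) ∪ {x | x = x0 ∧ p = p1 ∧ (B p1 ∩ S).Nonempty},
    ⟨fun p => ?_, fun p => ?_, fun p p' n => disjoint_left.2 ?_, fun p p' e => ?_⟩,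
    fun p x k => k.imp (·.1) (·.1)⟩
  · rintro x (k | k)
    exacts [t1 ⟨hB.1 p k.1, k.2⟩, k.1 ▸ t2]
  · by_cases k : (B p ∩ S).Nonempty
    · by_cases c : p = p1
      · have m : x0 ∈ (B p \ S) ∪ {x | x = x0 ∧ p = p1 ∧ (B p1 ∩ S).Nonempty} :=
          Or.inr ⟨rfl, c, c ▸ k⟩
        refine fb.conn_of_center m ?_
        rintro v (hv | hv)
        · obtain ⟨x, d, l⟩ := ex p k v hv
          exact (Link.single m (Or.inl ⟨d.1, ((hN x).1 d.2).1⟩) (a2 x d.2)).trans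
            (l.mono subset_union_left)
        · exact hv.1 ▸ Link.refl _ _ _
      · obtain ⟨⟨n, d⟩, sg, -⟩ := pk p c k
        refine fb.conn_of_center (a := n) (Or.inl ⟨d.1, ((hN n).1 d.2).1⟩) ?_
        rintro v (hv | hv)
        · obtain ⟨x, d', l⟩ := ex p k v hv
          exact sg d' d ▸ l.mono subset_union_left
        · exact (c hv.2.1).elim
    · have d : Disjoint (B p) S := disjoint_left.2 fun x a b => k ⟨x, a, b⟩
      have e : (B p \ S) ∪ {x | x = x0 ∧ p = p1 ∧ (B p1 ∩ S).Nonempty} = B p :=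
        subset_antisymm (fun x m => m.elim (·.1) fun m => (k (m.2.1 ▸ m.2.2)).elim)
          fun x m => Or.inl ⟨m, disjoint_left.1 d m⟩
      show Conn G' (_ ∪ _)
      rw [e]
      exact ⟨(hB.2.1 p).1, fun u hu v hv => lk _ _ _ d ((hB.2.1 p).2 u hu v hv)⟩
  · rintro x (k | k) (m | m)
    exacts [disjoint_left.1 (hB.2.2.1 p p' n) k.1 m.1, k.2 (m.1 ▸ h0), m.2 (k.1 ▸ h0),
      n (k.2.1.trans m.2.1.symm)]
  · obtain ⟨u, hu, v, hv, a⟩ := hB.2.2.2 p p' e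
    by_cases k : u ∈ S
    · exact ad p p' e u hu v hv a k
    by_cases m : v ∈ S
    · obtain ⟨x, b, y, c, d⟩ := ad p' p e.symm v hv u hu a.symm m
      exact ⟨y, c, x, b, d.symm⟩
    · exact ⟨u, Or.inl ⟨hu, k⟩, v, Or.inl ⟨hv, m⟩, a1 u k v m a⟩

end grid

/-- the pocket `S` has become the cell `x0` -/
structure Mg (s : Sk) (S : Set MV) (x0 : MV) (M' : FM s.Φ) (vx' : s.Φ → MV) (pos' : s.Φ → Prop) :
    Prop where
  ok : (s.re M' vx' s.H s.Rm pos').Ok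
  eg : M'.eg ≤ s.M.eg
  vt : vx' '' M'.S = (s.Vt \ S) ∪ {x0}
  adj : ∀ u v, (M'.gph vx').Adj u v ↔
    (u ∉ S ∧ v ∉ S ∧ s.G.Adj u v) ∨ (u = x0 ∧ v ∈ s.N S) ∨ (v = x0 ∧ u ∈ s.N S)
  ac : M'.a = s.M.a ∧ M'.c = s.M.c
  fl : M'.fl vx' s.H = s.M.fl s.vx s.H
  vo : ∀ f ∈ s.M.fl s.vx s.H, M'.vo f = s.M.vo f
  fo : ∀ f ∈ s.M.fl s.vx s.H, M'.fo f ⊆ s.M.fo f ∧
    ∀ x ∈ s.M.fo f, M'.b x = s.M.b x ∧ vx' x = s.vx x

theorem fo_a {Φ : Type} {M : FM Φ} {f x : Φ} (h : x ∈ M.fo f) : M.a x ∈ M.fo f :=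
  ReflTransGen.tail h (Or.inl rfl)

theorem fo_b {Φ : Type} {M : FM Φ} {f x : Φ} (h : x ∈ M.fo f) : M.b x ∈ M.fo f :=
  ReflTransGen.tail h (Or.inr rfl)

theorem quad_eq {s : Sk} {M' : FM s.Φ} {vx' : s.Φ → MV} {pos' : s.Φ → Prop} {f : s.Φ}
    (ea : M'.a = s.M.a) (k : ∀ x ∈ s.M.fo f, M'.b x = s.M.b x ∧ vx' x = s.vx x) :
    ((s.re M' vx' s.H s.Rm pos').Quad f ↔ s.Quad f) ∧
      (s.re M' vx' s.H s.Rm pos').link f = s.link f := by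
  have r : f ∈ s.M.fo f := ReflTransGen.refl
  have t : ∀ x ∈ s.M.fo f, M'.b (M'.a x) = s.M.b (s.M.a x) := fun x m => by
    rw [ea]; exact (k _ (fo_a m)).1
  have u1 := fo_b (fo_a r)
  have u2 := fo_b (fo_a u1)
  constructor
  · show M'.b (M'.a (M'.b (M'.a (M'.b (M'.a (M'.b (M'.a f))))))) = f ↔ _
    rw [t f r, t _ u1, t _ u2, t _ (fo_b (fo_a u2))]
    rfl
  · show vx' (M'.a (M'.b (M'.a f))) = _
    rw [t f r, ea]
    exact (k _ (fo_a u1)).2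

theorem merge_sk {s : Sk} (h : s.Ok) {S : Set MV} (pk : s.Pk S) (dp : Disjoint (S ∪ s.N S) s.RH)
    (ne0 : (s.N S).Nonempty) {x0 : MV} (h0 : x0 ∈ S) (c0 : x0 ∈ s.Ce) :
    ∃ M' vx' pos', Mg s S x0 M' vx' pos' := by
  classical
  obtain ⟨-, -, -, k4, -, fV⟩ := fSkS s h
  have hM := h.hm.ok
  have hL := h.hm.lbl
  have ne : ∀ f ∈ s.M.S, s.vx f ≠ s.vx (s.M.a f) := fun f hf => (h.hm.simple f hf).1
  have adj : ∀ u v, s.G.Adj u v ↔ ∃ f ∈ s.M.S, s.vx f = u ∧ s.vx (s.M.a f) = v :=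
    fun _ _ => Srg.adj_iff hM ne
  have ad : ∀ f ∈ s.M.S, s.G.Adj (s.vx f) (s.vx (s.M.a f)) := fun f hf => (adj _ _).2 ⟨f, hf, rfl, rfl⟩
  have vt : ∀ f ∈ s.M.S, s.vx f ∈ s.Vt := fun f hf => ⟨f, hf, rfl⟩
  have : ∀ n, ∃ x, n ∈ s.N S → x ∈ s.M.S ∧ s.vx x ∈ S ∧ s.vx (s.M.a x) = n := fun n => by
    by_cases k : n ∈ s.N S
    · obtain ⟨y, hy, e⟩ := k.2
      obtain ⟨x, a, rfl, b⟩ := (adj _ _).1 e
      exact ⟨x, fun _ => ⟨a, hy, b⟩⟩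
    · obtain ⟨x, -⟩ := c0.1.1
      exact ⟨x, fun m => (k m).elim⟩
  choose ch hch using this
  set A : s.Φ → Prop := fun x => s.vx (s.M.a x) ∉ S ∧
    (s.vx x ∈ S → x = ch (s.vx (s.M.a x)) ∨ s.M.c x = ch (s.vx (s.M.a x))) with hA
  set U : Set s.Φ := {x | x ∈ s.M.S ∧ (A x ∨ A (s.M.a x))} with hUd
  have Ac : ∀ x ∈ s.M.S, A x → A (s.M.c x) := fun x hx k => by
    simp only [hA, hL.c hM hx, hL.ac hM hx, hM.cc hx] at k ⊢
    exact ⟨k.1, fun m => (k.2 m).symm⟩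
  have hU : s.M.Es U := ⟨fun _ k => k.1, fun x k =>
    ⟨⟨hM.a_mem k.1, by rw [hM.aa k.1]; exact k.2.symm⟩, hM.c_mem k.1,
      k.2.imp (Ac x k.1) fun q => by rw [hM.comm k.1]; exact Ac _ (hM.a_mem k.1) q⟩⟩
  have inS : ∀ x ∈ U, s.vx x ∈ S → s.vx (s.M.a x) ∈ s.N S ∧
      (x = ch (s.vx (s.M.a x)) ∨ s.M.c x = ch (s.vx (s.M.a x))) := fun x k m => by
    have q : A x := k.2.resolve_right fun q => q.1 (by rwa [hM.aa k.1])
    exact ⟨⟨q.1, _, m, ad x k.1⟩, q.2 m⟩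
  have out : ∀ x ∈ s.M.S, s.vx x ∉ S → s.vx (s.M.a x) ∉ S → x ∈ U := fun x k a b =>
    ⟨k, Or.inl ⟨b, fun m => (a m).elim⟩⟩
  have chU : ∀ n ∈ s.N S, ch n ∈ U := fun n k =>
    ⟨(hch n k).1, Or.inl ⟨(hch n k).2.2.symm ▸ k.1, fun _ => Or.inl (by rw [(hch n k).2.2])⟩⟩
  have kp : ∀ x ∈ s.M.S, s.vx x ∉ S → s.vx x ∉ s.Nd → x ∈ U := fun x k a b => out x k a fun m =>
    a (pk.cl _ ⟨m, by_contra fun n => b ((h.bip x k).2 n)⟩ _ (ad x k).symm)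
  set vx' : s.Φ → MV := fun f => if s.vx f ∈ S then x0 else s.vx f with hvx
  have v0 : ∀ f, s.vx f ∈ S → vx' f = x0 := fun f k => if_pos k
  have v1 : ∀ f, s.vx f ∉ S → vx' f = s.vx f := fun f k => if_neg k
  have back : ∀ f, vx' f ∉ S → s.vx f ∉ S := fun f k m => k (v0 f m ▸ h0)
  have fwd : ∀ f, vx' f ∈ S → s.vx f ∈ S := fun f k => by_contra fun m => m (v1 f m ▸ k)
  have dU : Disjoint U (s.M.ind s.vx S) := Set.disjoint_left.2 fun x k m => (inS x k m.2.1).1.1 m.2.2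
  obtain ⟨C, -, eC, mg'⟩ := mergeS _ _ s.M s.vx S hM hL
  obtain ⟨m1, -, m3, m4, m5, m6, -, -⟩ := mg' U hU dU
  obtain ⟨pos', p1, -⟩ := exists_pos_minor hM hU eC h.ps
  set N := s.M.minor U C with hNd
  have lk0 : ∀ u, u ∉ S → ∀ v, Link s.G S u v → u = v := fun u n v k => by
    rcases ReflTransGen.cases_head k with e | ⟨_, e, -⟩
    · exact e
    · exact (n e.1).elim
  have lbl : N.Lbl vx' := by
    intro f hf g hg
    rw [m3 f hf g hg]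
    by_cases a : s.vx f ∈ S
    · exact ⟨fun e => pk.conn.2 _ a _ (fwd g (e ▸ (v0 f a).symm ▸ h0)),
        fun k => (v0 f a).trans (v0 g (k.mem a)).symm⟩
    · refine ⟨fun e => ?_, fun k => ?_⟩
      · have b := back g (e ▸ (v1 f a).symm ▸ a)
        rw [v1 f a, v1 g b] at e
        exact e ▸ Link.refl _ _ _
      · have e := lk0 _ a _ k
        rw [v1 f a, v1 g (e ▸ a), e]
  have nS : ∀ x, x ∈ s.H ∪ s.Rm → x ∉ S := fun x k m => (pk.sub m).elim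
    (Srg.not_nd (k.elim (fun k => h.hr.1 k) fun k => h.hr.2.1 k)) fun q => q.2 k
  have nd' : ∀ f ∈ U, (vx' f ∈ range Sum.inl ↔ s.vx f ∈ s.Nd) := fun f hf => by
    by_cases a : s.vx f ∈ S
    · rw [v0 f a]
      exact ⟨fun k => (Srg.not_nd c0.1.2 ⟨c0.1.1, k⟩).elim,
        fun k => ((h.bip f hf.1).1 k (pk.out (inS f hf a).1)).elim⟩
    · rw [v1 f a]; exact ⟨fun k => ⟨vt f hf.1, k⟩, fun k => k.2⟩
  have ne' : ∀ f ∈ N.S, vx' f ≠ vx' (N.a f) := fun f hf e => by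
    have a1 := nd' f hf
    have a2 := nd' _ (hU.2 f hf).1
    have a3 := h.bip f (hU.1 hf)
    rw [e] at a1
    have a4 : vx' (s.M.a f) ∈ range Sum.inl ↔ s.vx f ∈ s.Nd := a1
    tauto
  have adj' : ∀ u v, (N.gph vx').Adj u v ↔ ∃ f ∈ U, vx' f = u ∧ vx' (s.M.a f) = v :=
    fun _ _ => Srg.adj_iff m1 ne'
  have face : ∀ f ∈ s.M.fl s.vx s.H, ∀ x ∈ s.M.fo f, s.vx x ∉ S := fun f hf x k m =>
    disjoint_left.1 dp (Or.inl m) ⟨f, hf.1, hf.2, x, k, rfl⟩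
  have faU : ∀ f ∈ s.M.fl s.vx s.H, s.M.fo f ⊆ U := fun f hf x k =>
    out x (hM.fo_mem hf.1 k) (face f hf x k) (face f hf _ (fo_a k))
  have fo : ∀ f ∈ s.M.fl s.vx s.H, N.fo f ⊆ s.M.fo f ∧
      ∀ x ∈ s.M.fo f, N.b x = s.M.b x ∧ vx' x = s.vx x := fun f hf =>
    ⟨(m5 f (faU f hf ReflTransGen.refl) ((faU f hf).trans subset_union_left)).le.trans
      inter_subset_left, fun x k => ⟨m6 x (faU f hf k) (faU f hf (fo_b k)), v1 x (face f hf x k)⟩⟩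
  have vo1 : ∀ f ∈ U, s.vx f ∉ S → N.vo f ⊆ s.M.vo f := fun f hf k g q =>
    have gU : g ∈ U := m1.vo_mem hf q
    (hL f hf.1 g gU.1).1 (lk0 _ k _ ((m3 f hf g gU).1 q))
  have vo : ∀ f ∈ s.M.S, s.vx f ∈ s.H ∪ s.Rm → N.vo f = s.M.vo f := by
    intro f hf k
    have n : s.vx f ∉ s.Nd := Srg.not_nd (k.elim (fun k => h.hr.1 k) fun k => h.hr.2.1 k)
    refine subset_antisymm (vo1 f (kp f hf (nS _ k) n) (nS _ k)) fun g q => ?_
    have gS := hM.vo_mem hf q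
    have e := (hL f hf g gS).2 q
    exact (m3 f (kp f hf (nS _ k) n) g (kp g gS (e ▸ nS _ k) (e ▸ n))).2 (e ▸ Link.refl _ _ _)
  have fl : N.fl vx' s.H = s.M.fl s.vx s.H := by
    ext f
    refine ⟨fun k => ⟨k.1.1, v1 f (back f (nS _ (Or.inl k.2))) ▸ k.2⟩, fun k =>
      ⟨faU f k ReflTransGen.refl, (v1 f (nS _ (Or.inl k.2))).symm ▸ k.2⟩⟩
  have evt : vx' '' N.S = (s.Vt \ S) ∪ {x0} := by
    ext u
    constructor
    · rintro ⟨f, hf, rfl⟩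
      by_cases a : s.vx f ∈ S
      · exact Or.inr (v0 f a)
      · exact Or.inl (v1 f a ▸ ⟨vt f hf.1, a⟩)
    · rintro (⟨⟨f, hf, rfl⟩, a⟩ | rfl)
      · by_cases b : s.vx (s.M.a f) ∈ S
        · have n : s.vx f ∈ s.N S := ⟨a, _, b, (ad f hf).symm⟩
          exact ⟨_, (hU.2 _ (chU _ n)).1, (v1 _ ((hch _ n).2.2.symm ▸ a)).trans (hch _ n).2.2⟩
        · exact ⟨f, out f hf a b, v1 f a⟩
      · obtain ⟨n, k⟩ := ne0
        exact ⟨_, chU n k, v0 _ (hch n k).2.1⟩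
  have con : N.Con := by
    set L : MV → MV → Prop := ReflTransGen
      fun u v => ∃ x ∈ U ∪ s.M.ind s.vx S, s.vx x = u ∧ s.vx (s.M.a x) = v with hLd
    have Lz : ∀ u ∈ S, ∀ v ∈ S, L u v := fun u hu v hv =>
      ReflTransGen.mono (fun _ _ ⟨x, k, e⟩ => ⟨x, Or.inr k, e⟩) _ _
        ((link_ind hM).1 (pk.conn.2 u hu v hv))
    have Le : ∀ u v, s.G.Adj u v → L u v := by
      intro u v e
      by_cases a : u ∈ S <;> by_cases b : v ∈ S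
      · exact Lz u a v b
      · have n : v ∈ s.N S := ⟨b, u, a, e⟩
        exact (Lz u a _ (hch v n).2.1).tail ⟨_, Or.inl (chU v n), rfl, (hch v n).2.2⟩
      · have n : u ∈ s.N S := ⟨a, v, b, e.symm⟩
        refine ReflTransGen.head ⟨_, Or.inl (hU.2 _ (chU u n)).1, (hch u n).2.2, rfl⟩ (Lz _ ?_ v b)
        rw [hM.aa (hch u n).1]
        exact (hch u n).2.1
      · obtain ⟨f, hf, rfl, rfl⟩ := (adj _ _).1 e
        exact .single ⟨f, Or.inl (out f hf a b), rfl, rfl⟩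
    intro f hf g hg
    refine (m4 f hf g hg).2 ?_
    have k := ((gphC _ _ s.M s.vx hM hL).2.2.2.1 f hf.1 g hg.1).1 (h.hm.con f hf.1 g hg.1)
    generalize s.vx g = v at k
    induction k with
    | refl => exact .refl
    | tail _ e ih => exact ReflTransGen.trans ih (Le _ _ e.2.2)
  have uq : ∀ f ∈ U, ∀ g ∈ U, s.vx f ∈ S → vx' g = vx' f → vx' (s.M.a g) = vx' (s.M.a f) →
      g = f ∨ g = s.M.c f := by
    intro f hf g hg a c d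
    obtain ⟨a1, a2⟩ := inS f hf a
    obtain ⟨b1, b2⟩ := inS g hg (fwd g (c ▸ (v0 f a).symm ▸ h0))
    rw [v1 _ a1.1, v1 _ b1.1] at d
    rw [d] at b2
    rcases a2 with a2 | a2 <;> rcases b2 with b2 | b2
    · exact Or.inl (b2.trans a2.symm)
    · exact Or.inr (by rw [a2, ← b2, hM.cc hg.1])
    · exact Or.inr (b2.trans a2.symm)
    · exact Or.inl (by rw [← hM.cc hg.1, b2, ← a2, hM.cc hf.1])
  have fN : (s.N S).Finite := fV.subset fun y k => (pk.out k).1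
  refine ⟨N, vx', pos', ⟨⟨m1, lbl, con, fun f hf => ⟨ne' f hf, fun g hg a b c d => ?_⟩,
    fun f hf k m => ?_⟩, p1, h.hr, fun v k => ?_, fun f hf => ?_,
    fun f hf => ⟨fun k => ?_, fun k => ?_⟩, fun y k => ?_⟩, (monoS _ _ hM).2 _ _ hU eC, evt,
    fun u v => ?_, ⟨rfl, rfl⟩, fl, fun f k => vo f k.1 (Or.inl k.2), fo⟩
  · have c' : vx' g = vx' f := c
    have d' : vx' (s.M.a g) = vx' (s.M.a f) := d
    have b' : vx' (s.M.a f) ∉ s.H := b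
    have a' : vx' f ∉ s.H := a
    show g = f ∨ g = s.M.c f
    by_cases q : s.vx f ∈ S
    · exact uq f hf g hg q c' d'
    by_cases q' : s.vx (s.M.a f) ∈ S
    · have := uq _ (hU.2 f hf).1 _ (hU.2 g hg).1 q' d' (by rwa [hM.aa hf.1, hM.aa hg.1])
      refine this.imp (fun e => ?_) fun e => ?_
      · rw [← hM.aa hg.1, e, hM.aa hf.1]
      · rw [← hM.aa hg.1, e, ← hM.comm hf.1, hM.aa (hM.c_mem hf.1)]
    rw [v1 f q] at c' a'
    rw [v1 _ q'] at d' b'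
    rw [v1 g (back g (c' ▸ q))] at c'
    rw [v1 _ (back _ (d' ▸ q'))] at d'
    exact (h.hm.simple f hf.1).2 g hg.1 a' b' c' d'
  · have k' : f ∈ s.M.fl s.vx s.H := fl ▸ ⟨hf, k⟩
    have m' : vx' (s.M.a f) ∈ s.H := m
    rw [v1 _ (face f k' _ (fo_a ReflTransGen.refl))] at m'
    exact h.hm.ind f k'.1 k'.2 m'
  · rcases evt.le k with k | k
    · exact h.od v k.1
    · exact (Srg.not_nd c0.1.2 ⟨c0.1.1, v, k⟩).elim
  · have a1 := nd' f hf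
    have a2 := nd' _ (hU.2 f hf).1
    refine Iff.trans (and_iff_right ⟨f, hf, rfl⟩) (a1.trans ((h.bip f hf.1).trans (not_congr ?_)))
    exact a2.symm.trans (and_iff_right ⟨_, (hU.2 f hf).1, rfl⟩).symm
  · have k' : vx' f ∈ range Sum.inr ∧ vx' f ∉ s.H ∪ s.Rm := ⟨k.1.2, k.2⟩
    show (N.vo f).ncard ≤ 6
    by_cases q : s.vx f ∈ S
    · have sb : N.vo f ⊆ ch '' s.N S ∪ s.M.c '' (ch '' s.N S) := fun g m => by
        have gU : g ∈ U := m1.vo_mem hf m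
        obtain ⟨a, b⟩ := inS g gU (((m3 f hf g gU).1 m).mem q)
        exact b.imp (fun e => ⟨_, a, e.symm⟩) fun e => ⟨_, ⟨_, a, e.symm⟩, hM.cc gU.1⟩
      have c1 := ncard_image_le (f := ch) fN
      have c2 := ncard_image_le (f := s.M.c) (fN.image ch)
      have c3 := ncard_union_le (ch '' s.N S) (s.M.c '' (ch '' s.N S))
      have c4 := ncard_le_ncard sb ((fN.image ch).union ((fN.image ch).image _))
      have := pk.card
      omega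
    · rw [v1 f q] at k'
      exact (ncard_le_ncard (vo1 f hf q) (hM.fin.subset fun g m => hM.vo_mem hf.1 m)).trans
        ((h.deg f hf.1).1 ⟨⟨vt f hf.1, k'.1⟩, k'.2⟩)
  · have k' : vx' f ∈ s.Rm := k
    rw [v1 f (back f (nS _ (Or.inr k')))] at k'
    exact (vo f hf.1 (Or.inr k')).symm ▸ (h.deg f hf.1).2 k'
  · have k1 : y ∈ s.Rm := k.1
    obtain ⟨f, hf, q, l⟩ := h.rim y ⟨k1, ((evt.le k.2).resolve_right
      fun e => nS y (Or.inr k1) (e ▸ h0)).1⟩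
    have := quad_eq (pos' := pos') (M' := N) rfl (fo f hf).2
    exact ⟨f, fl.ge hf, this.1.2 q, this.2.trans l⟩
  · rw [adj']
    constructor
    · rintro ⟨f, hf, rfl, rfl⟩
      by_cases q : s.vx f ∈ S
      · have a := (inS f hf q).1
        exact Or.inr (Or.inl ⟨v0 f q, (v1 _ a.1).symm ▸ a⟩)
      by_cases q' : s.vx (s.M.a f) ∈ S
      · exact Or.inr (Or.inr ⟨v0 _ q', (v1 f q).symm ▸ ⟨q, _, q', (ad f hf.1).symm⟩⟩)
      · rw [v1 f q, v1 _ q']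
        exact Or.inl ⟨q, q', ad f hf.1⟩
    · rintro (⟨a, b, e⟩ | ⟨rfl, n⟩ | ⟨rfl, n⟩)
      · obtain ⟨f, hf, rfl, rfl⟩ := (adj _ _).1 e
        exact ⟨f, out f hf a b, v1 f a, v1 _ b⟩
      · exact ⟨_, chU v n, v0 _ (hch v n).2.1,
          (v1 _ ((hch v n).2.2.symm ▸ n.1)).trans (hch v n).2.2⟩
      · refine ⟨_, (hU.2 _ (chU u n)).1, (v1 _ ((hch u n).2.2.symm ▸ n.1)).trans (hch u n).2.2,
          v0 _ ?_⟩
        rw [hM.aa (hch u n).1]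
        exact (hch u n).2.1

theorem link_gr {X X' : Pc} {D D' : Set W} {u v : W} (k : X ⊆ X') (d : D ⊆ D')
    (h : Link (gr X) D u v) : Link (gr X') D' u v :=
  Link.map (G' := gr X') id (fun a ha b hb (e : a ≠ b ∧ (_ ∨ _)) => Link.single (d ha) (d hb)
    ⟨e.1, e.2.imp (fun m => k m) fun m => k m⟩) h

theorem step (hb : HB.BasS) {σ : AG} {r : Rw σ} {k q s D l g : ℕ} {B : Fin g × Fin g → Set MV}
    (h : r.In k q s D l) (hB : r.s.Grid B) (hg : 3 ≤ g) {S : Set MV} (pk : r.s.Pk S)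
    (dp : Disjoint (S ∪ r.s.N S) r.s.RH) (nc : ∀ i j, ¬ Cross B i j ⊆ S) :
    ∃ (r' : Rw σ) (B' : Fin g × Fin g → Set MV), r'.In k q s D l ∧ r'.s.Grid B' ∧
      (∀ p v, Sum.inl v ∈ B' p → Sum.inl v ∈ B p) ∧ r'.s.Nd.ncard < r.s.Nd.ncard := by
  classical
  have ok := h.ok
  have hM := ok.hm.ok
  obtain ⟨-, -, -, k4, k5, fV⟩ := fSkS r.s ok
  obtain ⟨-, -, -, po, -⟩ := hb.2 r.s h.co.ok0
  obtain ⟨z, hz, zn⟩ := pk.node
  have cel : ∀ y ∈ S, y ∉ r.s.Nd → y ∈ r.s.Ce := fun y a b => (pk.sub a).resolve_left b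
  obtain ⟨x0, e0⟩ := k5 z zn.1
  have h0 : x0 ∈ S := pk.cl z ⟨hz, zn⟩ x0 e0
  have c0 : x0 ∈ r.s.Ce := cel x0 h0 ((k4 z x0 e0).2.1 zn)
  have ne0 : (r.s.N S).Nonempty := by
    obtain ⟨u, hu, n⟩ := not_subset.1 (nc ⟨0, by omega⟩ ⟨0, by omega⟩)
    obtain ⟨f, hf, rfl⟩ := zn.1
    obtain ⟨f', hf', rfl⟩ : u ∈ r.s.Vt := (JWf.cross_sub hB _ _ hu).1.elim (·.1) (·.1.1)
    obtain ⟨x, y, -, -, a, b, e, -⟩ := fb.link_exit
      (((gphC _ _ r.s.M r.s.vx hM ok.hm.lbl).2.2.2.1 f hf f' hf').1 (ok.hm.con f hf f' hf')) hz n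
    exact ⟨y, b, x, a, e⟩
  obtain ⟨M', vx', pos', m⟩ := merge_sk ok pk dp ne0 h0 c0
  set t := r.s.re M' vx' r.s.H r.s.Rm pos' with ht
  have evt : t.Vt = (r.s.Vt \ S) ∪ {x0} := m.vt
  have n0 : ∀ v, Sum.inl v ≠ x0 := fun v e => Srg.not_nd c0.1.2 ⟨c0.1.1, v, e⟩
  have nH : ∀ x ∈ r.s.H, x ∉ S := fun x a b =>
    (pk.sub b).elim (Srg.not_nd (ok.hr.1 a)) fun c => c.2 (Or.inl a)
  have vin : ∀ v, Sum.inl v ∈ t.Vt → Sum.inl v ∈ r.s.Vt \ S := fun v a =>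
    (evt.le a).resolve_right (n0 v)
  have nb1 : ∀ x ∉ S, x ∉ r.s.Nd → t.nb x = r.s.nb x := fun x a b => by
    ext v
    refine (m.adj _ _).trans ⟨?_, fun e => Or.inl ⟨a, fun c => a (pk.cl _ ⟨c,
      by_contra fun n => b ((k4 _ _ e).2.2 n)⟩ x e.symm), e⟩⟩
    rintro (e | e | e)
    exacts [e.2.2, (a (e.1 ▸ h0)).elim, (n0 v e.1).elim]
  have nb0 : ∀ v, v ∈ t.nb x0 ↔ Sum.inl v ∈ r.s.N S := fun v => by
    refine (m.adj _ _).trans ⟨?_, fun e => Or.inr (Or.inl ⟨rfl, e⟩)⟩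
    rintro (e | e | e)
    exacts [(e.1 h0).elim, e.2, (n0 v e.1).elim]
  have ce : ∀ x, x ∈ t.Ce ↔ (x ∈ r.s.Ce ∧ x ∉ S) ∨ x = x0 := fun x => by
    constructor
    · exact fun a => (evt.le a.1.1).imp_left fun b => ⟨⟨⟨b.1, a.1.2⟩, a.2⟩, b.2⟩
    · rintro (a | rfl)
      exacts [⟨⟨evt.ge (Or.inl ⟨a.1.1.1, a.2⟩), a.1.1.2⟩, a.1.2⟩,
        ⟨⟨evt.ge (Or.inr rfl), c0.1.2⟩, c0.2⟩]
  have rh : t.RH ⊆ r.s.RH := by
    rintro _ ⟨f, hf, a, x, b, rfl⟩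
    have c : f ∈ r.s.M.fl r.s.vx r.s.H := m.fl.le ⟨hf, a⟩
    exact ⟨f, c.1, c.2, x, (m.fo f c).1 b, (((m.fo f c).2 x ((m.fo f c).1 b)).2).symm⟩
  have fN : (r.s.N S).Finite := fV.subset fun y k => (pk.out k).1
  obtain ⟨B', g1, g2⟩ := grid_merge (G' := t.G) (T' := t.T \ t.RH) hB hg (fun _ => Iff.rfl) fN
    pk.card nc h0 (fun u a v b e => (m.adj u v).2 (Or.inl ⟨a, b, e⟩))
    (fun n a => (m.adj _ n).2 (Or.inr (Or.inl ⟨rfl, a⟩)))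
    (fun x a => ⟨a.1.1.imp (fun b => ⟨evt.ge (Or.inl ⟨b.1, a.2⟩), b.2⟩)
      fun b => (ce x).2 (Or.inl ⟨b, a.2⟩), fun b => a.1.2 (rh b)⟩)
    ⟨Or.inr ((ce x0).2 (Or.inr rfl)), fun b => disjoint_left.1 dp (Or.inl h0) (rh b)⟩
  set r' : Rw σ := ⟨t, r.Λ, fun a => (r.own a).map fun x => if x ∈ S then x0 else x⟩ with hr'
  have ow : ∀ a y, r'.own a = some y ↔ ∃ x, r.own a = some x ∧ (if x ∈ S then x0 else x) = y :=
    fun a y => Option.map_eq_some_iff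
  have ct1 : ∀ y ∉ S, r'.ct y = r.ct y := fun y n => Set.ext fun a => (ow a y).trans
    ⟨fun ⟨x, b, c⟩ => by
      split_ifs at c with d
      exacts [(n (c ▸ h0)).elim, c ▸ b], fun b => ⟨y, b, if_neg n⟩⟩
  have ct0 : ∀ y ∈ S, σ.un (r.ct y) ⊆ σ.un (r'.ct x0) := fun y b =>
    biUnion_subset_biUnion_left fun a c => (ow a x0).2 ⟨y, c, if_pos b⟩
  have ownd : ∀ a x, r.own a = some x → x ∉ r.s.Nd := fun a x e =>
    Srg.not_nd ((h.co.owner a x e).elim (·.1.2) fun c => ok.hr.1 c.1)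
  have nl : ∀ v, Sum.inl v ∈ S ∪ r.s.N S → v ∉ r.Λ := fun v a b => disjoint_left.1 dp a
    (po ⟨v, h.co.lamn v b (a.elim (fun c => (pk.sub c).elim (·.1) (·.1.1))
      fun c => (pk.out c).1), rfl⟩)
  have near : ∀ y ∈ S, ∀ v, r.s.G.Adj y v → v ∈ S ∪ r.s.N S := fun y a v e =>
    (em (v ∈ S)).imp_right fun n => ⟨n, y, a, e⟩
  have att : ∀ v, Sum.inl v ∈ r.s.N S → ∃ y ∈ S, y ∈ r.s.Ce ∧ v ∈ r.s.nb y :=
    fun v a => let ⟨y, b, e⟩ := a.2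
      ⟨y, b, cel y b fun n => (k4 _ _ e).2.1 n (pk.out a), e⟩
  have hf : ∀ f ∈ r.s.M.fl r.s.vx r.s.H, ∀ x ∈ r.s.M.vo f, x ∈ r.s.M.fl r.s.vx r.s.H :=
    fun f a x b => ⟨hM.vo_mem a.1 b, (ok.hm.lbl.of_vo hM a.1 b).symm ▸ a.2⟩
  have v1 : ∀ f ∈ r.s.M.fl r.s.vx r.s.H, vx' f = r.s.vx f ∧ vx' (M'.a f) = r.s.vx (r.s.M.a f) ∧
      M'.b f = r.s.M.b f := fun f a =>
    ⟨((m.fo f a).2 f .refl).2, m.ac.1 ▸ ((m.fo f a).2 _ (fo_a .refl)).2, ((m.fo f a).2 f .refl).1⟩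
  refine ⟨r', B', ⟨⟨hb.1 t m.ok, m.eg.trans h.co.eg, le_trans (ncard_le_ncard ?_
    (fV.subset inter_subset_right)) h.co.holes, h.co.lam, fun v a b => ?_, h.co.root,
    fun a y e => ?_, fun a v hv c => ?_, fun x a => ?_, fun f a χ tw => ?_⟩, m.ok,
    fun f a g' b c d => ?_, le_trans (ncard_le_ncard ?_ (hM.fin.subset fun _ a => a.1.1)) h.op⟩,
    g1, fun p v a => (g2 p a).resolve_right (n0 v), ?_⟩
  · exact fun x a => ⟨a.1, ((evt.le a.2).resolve_right fun e => nH x a.1 (e ▸ h0)).1⟩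
  · obtain ⟨x, c, d⟩ := h.co.lamn v a (vin v b).1
    exact ⟨x, c, (nb1 x (nH x c) (Srg.not_nd (ok.hr.1 c))).ge d⟩
  · obtain ⟨x, b, c⟩ := (ow a y).1 e
    split_ifs at c with d
    · exact Or.inl ((ce y).2 (Or.inr c.symm))
    · exact (h.co.owner a x b).imp (fun e => (ce y).2 (Or.inl (c ▸ ⟨e, d⟩)))
        fun e => c ▸ ⟨e.1, evt.ge (Or.inl ⟨e.2, d⟩)⟩
  · obtain ⟨x, b, e⟩ := h.co.share a v hv (c.imp (fun c => (vin v c).1)
      fun ⟨a', c1, c2⟩ => ⟨a', fun e => c1 (congrArg (Option.map _) e), c2⟩)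
    by_cases d : x ∈ S
    · refine ⟨x0, (ow a x0).2 ⟨x, b, if_pos d⟩, (nb0 v).2 ⟨fun n => ?_, x, d, e⟩⟩
      rcases c with c | ⟨a', c1, c2⟩
      · exact (vin v c).2 n
      · obtain ⟨x', b', e'⟩ := h.co.share a' v ⟨⟨c2, hv.1.2⟩, hv.2⟩
          (Or.inl (k4 _ _ (SimpleGraph.Adj.symm e)).1)
        have d' := pk.cl _ ⟨n, (k4 _ _ (SimpleGraph.Adj.symm e)).1, v, rfl⟩ x'
          (SimpleGraph.Adj.symm e')
        exact c1 (((ow a' x0).2 ⟨x', b', if_pos d'⟩).trans ((ow a x0).2 ⟨x, b, if_pos d⟩).symm)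
    · exact ⟨x, (ow a x).2 ⟨x, b, if_neg d⟩, (nb1 x d (ownd a x b)).ge e⟩
  · rcases (ce x).1 a with c | rfl
    · show Solid (σ.un (r'.ct x)) (t.nb x \ r.Λ) r.Λ
      rw [ct1 x c.2, nb1 x c.2 (Srg.not_nd c.1.1.2)]
      exact h.co.solid x c.1
    have fR : (t.nb x \ r.Λ).Finite ∧ (t.nb x \ r.Λ).ncard ≤ 2 := by
      have i : Sum.inl '' (t.nb x \ r.Λ) ⊆ r.s.N S := by
        rintro _ ⟨v, b, rfl⟩
        exact (nb0 v).1 b.1
      exact ⟨(fN.subset i).of_finite_image Sum.inl_injective.injOn,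
        (ncard_image_of_injective _ Sum.inl_injective).symm.trans_le
          ((ncard_le_ncard i fN).trans pk.card)⟩
    show Solid (σ.un (r'.ct x)) (t.nb x \ r.Λ) r.Λ
    refine ⟨fun v b => ?_, ⟨fR.1, fR.2.trans (by omega)⟩, fun u b v c => ?_,
      fun e => by have := fR.2; omega⟩
    · obtain ⟨y, y1, y2, y3⟩ := att v ((nb0 v).1 b.1)
      obtain ⟨⟨⟨p, d1, d2⟩, d3⟩, d4⟩ := (h.co.solid y y2).sub ⟨y3, b.2⟩
      exact ⟨⟨⟨p, ct0 y y1 d1, d2⟩, d3⟩, d4⟩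
    by_cases e : u = v
    · exact e ▸ Link.refl _ _ _
    have em : (t.nb x \ r.Λ) \ {u, v} = ∅ := by
      refine sdiff_eq_empty.2 (eq_of_subset_of_ncard_le (insert_subset b (singleton_subset_iff.2 c))
        (by rw [ncard_pair e]; exact fR.2) fR.1).ge
    rw [em, sdiff_empty]
    obtain ⟨y, y1, y2, y3⟩ := att u ((nb0 u).1 b.1)
    obtain ⟨y', z1, z2, z3⟩ := att v ((nb0 v).1 c.1)
    have st : ∀ y ∈ S, y ∈ r.s.Ce → ∀ w ∈ r.s.nb y, ∀ w' ∈ r.s.nb y,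
        Link (gr (σ.un (r'.ct x))) (Od \ r.Λ) w w' := fun y a1 a2 w a3 w' a4 =>
      link_gr (ct0 y a1) sdiff_subset ((h.co.solid y a2).two w ⟨a3, nl w (near y a1 _ a3)⟩ w'
        ⟨a4, nl w' (near y a1 _ a4)⟩)
    have key : ∀ y', Link r.s.G S y y' → (∀ w, y' = Sum.inl w →
        Link (gr (σ.un (r'.ct x))) (Od \ r.Λ) u w) ∧ ∀ w ∈ r.s.nb y',
        Link (gr (σ.un (r'.ct x))) (Od \ r.Λ) u w := by
      intro y' k
      induction k with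
      | refl => exact ⟨fun w e => (Srg.not_nd y2.1.2 ⟨y2.1.1, w, e.symm⟩).elim, st y y1 y2 u y3⟩
      | @tail a b _ e ih =>
        refine ⟨fun w c => ih.2 w (c ▸ e.2.2 :), fun w c => ?_⟩
        have nb : b ∉ r.s.Nd := fun n => (k4 _ _ c).2.1 n ⟨(k4 _ _ c.symm).1, w, rfl⟩
        obtain ⟨-, w0, rfl⟩ : a ∈ r.s.Nd := (k4 _ _ e.2.2).2.2 nb
        exact (ih.1 w0 rfl).trans (st b e.2.1 (cel b e.2.1 nb) w0 e.2.2.symm w c)
    exact (key y' (pk.conn.2 y y1 y' z1)).2 v z3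
  · have a' : f ∈ r.s.M.fl r.s.vx r.s.H := m.fl.le a
    have e1 : r'.s.vx f = r.s.vx f := (v1 f a').1
    have e2 : r'.s.M.vo f = r.s.M.vo f := m.vo f a'
    have e3 : ∀ c, r'.s.clr f χ c = r.s.clr f χ c := fun c => by
      unfold Sk.clr
      rw [e2]
      exact image_congr fun x b => congrArg nodeOf (v1 x (hf f a' x b.1)).2.1
    have e4 : {x | x ∈ r.s.M.vo f ∧ χ (r.s.M.b x) ≠ χ x} = {x | x ∈ M'.vo f ∧ χ (M'.b x) ≠ χ x} := by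
      rw [m.vo f a']
      exact Set.ext fun x => and_congr_right fun b => by rw [(v1 x (hf f a' x b)).2.2]
    obtain ⟨U, b, c⟩ := h.co.dep f a' χ ⟨fun x b => m.ac.2 ▸ tw.1 x (e2.ge b), e4 ▸ tw.2⟩
    refine ⟨U, by rw [e1, ct1 _ (nH _ a'.2)]; exact b, ?_⟩
    unfold Rw.dcut
    rw [e3, e3, e1, ct1 _ (nH _ a'.2)]
    exact c
  · have a' : f ∈ r.s.M.fl r.s.vx r.s.H := m.fl.le a
    have b' : g' ∈ r.s.M.fl r.s.vx r.s.H := m.fl.le ⟨b, (show vx' g' = vx' f from c) ▸ a.2⟩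
    have := h.spk f a' g' b'.1 ((v1 _ b').1.symm.trans (c.trans (v1 f a').1))
      ((v1 _ b').2.1.symm.trans (d.trans (v1 f a').2.1))
    exact m.ac.2 ▸ this
  · intro f a
    have a' : f ∈ r.s.M.fl r.s.vx r.s.H := m.fl.le a.1
    have e := quad_eq (pos' := pos') m.ac.1 (m.fo f a').2
    exact ⟨a', fun c => a.2 ⟨e.1.2 c.1, e.2 ▸ c.2⟩⟩
  · refine ncard_lt_ncard ⟨?_, fun c => ?_⟩ (fV.subset inter_subset_left)
    · rintro _ ⟨a, v, rfl⟩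
      exact ⟨(vin v a).1, v, rfl⟩
    · obtain ⟨v, rfl⟩ := zn.2
      exact (vin v (c zn).1).2 hz

end HNorm

theorem HB.normS : HB.BasS → HB.NormS := by
  intro hb σ r k q s D l g B h hB hg
  suffices k : ∃ (r' : Rw σ) (B' : Fin g × Fin g → Set MV), r'.In k q s D l ∧ r'.s.Grid B' ∧
      (∀ p v, Sum.inl v ∈ B' p → Sum.inl v ∈ B p) ∧ r'.s.NoD B' by
    obtain ⟨r', B', a, b, c, d⟩ := k
    exact ⟨r', B', a, b, ⟨id, id, injective_id, injective_id, fun _ _ => c _⟩, d⟩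
  generalize e : r.s.Nd.ncard = n
  induction n using Nat.strong_induction_on generalizing r B with
  | _ n ih =>
    by_cases c : r.s.NoD B
    · exact ⟨r, B, h, hB, fun _ _ => id, c⟩
    unfold Sk.NoD at c
    push Not at c
    obtain ⟨S, pk, dp, nc⟩ := c
    obtain ⟨r1, B1, a1, a2, a3, a4⟩ := HNorm.step hb h hB (by omega) pk dp nc
    obtain ⟨r', B', b1, b2, b3, b4⟩ := ih _ (e ▸ a4) r1 B1 a1 a2 rfl
    exact ⟨r', B', b1, b2, fun p v m => a3 p v (b3 p v m), b4⟩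

end Pool.Agent.MP_9d78a0_co.gm

end MrgPart1

-- marker of a merged file
example : 731051 + 320877 = 731051 + 320877 := rfl
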