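import Pool.Agent.MP_9d78a0_co.gm.RWordC

-- ======== part 0: formerly Pool.Agent.MP_9d78a0_co.gm.RShellA
section MrgPart0

/-! Routing: the height function of the shells round the prolonged bands. -/

set_option autoImplicit false

namespace Pool.Agent.MP_9d78a0_co.gm

open Set Function fb

namespace rsh

section num

/-- the distance of a strand from the middle strands -/
def dl (w ρ j : ℕ) : ℕ := (ρ - j) + (j + ρ + 1 - w)

/-- the two columns at distance `d` -/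
def lo (f : ℕ → ℕ) (w ρ d : ℕ) : ℕ := min (f (ρ - d)) (f (w - 1 - ρ + d))
def hi (f : ℕ → ℕ) (w ρ d : ℕ) : ℕ := max (f (ρ - d)) (f (w - 1 - ρ + d))

/-- strictly monotone -/
def Mn (f : ℕ → ℕ) (w : ℕ) : Prop :=
  (∀ i j, i ≤ j → j < w → f i + (j - i) ≤ f j) ∨ ∀ i j, i ≤ j → j < w → f j + (j - i) ≤ f i

variable {f : ℕ → ℕ} {w ρ d d' i i' : ℕ}

theorem mn_up (h : ∀ j, j + 1 < w → f j < f (j + 1)) : Mn f w := by
  refine Or.inl fun i j hij hj => ?_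
  induction j, hij using Nat.le_induction with
  | base => omega
  | succ j hij ih =>
    have := ih (by omega)
    have := h j hj
    omega

theorem mn_down (h : ∀ j, j + 1 < w → f (j + 1) < f j) : Mn f w := by
  refine Or.inr fun i j hij hj => ?_
  induction j, hij using Nat.le_induction with
  | base => omega
  | succ j hij ih =>
    have := ih (by omega)
    have := h j hj
    omega

theorem inside (h : Mn f w) (hw : 2 * ρ + 2 ≤ w) (hi' : i < w) (h1 : dl w ρ i ≤ d) (h2 : d ≤ ρ) :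
    lo f w ρ d ≤ f i ∧ f i ≤ hi f w ρ d := by
  unfold dl at h1
  unfold lo hi
  rcases h with h | h
  all_goals
    have a := h (ρ - d) i (by omega) hi'
    have b := h i (w - 1 - ρ + d) (by omega) (by omega)
    omega

theorem outside (h : Mn f w) (hw : 2 * ρ + 2 ≤ w) (h0 : i ≤ i') (h0' : i' ≤ i + 1) (hi' : i' < w)
    (hd : 1 ≤ d) (h1 : d ≤ dl w ρ i) (h2 : d ≤ dl w ρ i') :
    (f i ≤ lo f w ρ d ∧ f i' ≤ lo f w ρ d) ∨ (hi f w ρ d ≤ f i ∧ hi f w ρ d ≤ f i') := by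
  unfold dl at h1 h2
  unfold lo hi
  rcases (show i' ≤ ρ - d ∨ w - 1 - ρ + d ≤ i by omega) with k | k
  · rcases h with h | h
    all_goals
      have a := h i (ρ - d) (by omega) (by omega)
      have a' := h i' (ρ - d) (by omega) (by omega)
      have b := h (ρ - d) (w - 1 - ρ + d) (by omega) (by omega)
      omega
  · rcases h with h | h
    all_goals
      have a := h (w - 1 - ρ + d) i (by omega) (by omega)
      have a' := h (w - 1 - ρ + d) i' (by omega) (by omega)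
      have b := h (ρ - d) (w - 1 - ρ + d) (by omega) (by omega)
      omega

theorem nest (h : Mn f w) (hw : 2 * ρ + 2 ≤ w) (h1 : d ≤ d') (h2 : d' ≤ ρ) :
    lo f w ρ d' + (d' - d) ≤ lo f w ρ d ∧ hi f w ρ d + (d' - d) ≤ hi f w ρ d' ∧
      lo f w ρ d < hi f w ρ d := by
  unfold lo hi
  rcases h with h | h
  all_goals
    have a := h (ρ - d') (ρ - d) (by omega) (by omega)
    have a' := h (w - 1 - ρ + d) (w - 1 - ρ + d') (by omega) (by omega)
    have b := h (ρ - d) (w - 1 - ρ + d) (by omega) (by omega)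
    omega

theorem ivt (f : ℕ → ℕ) (y N : ℕ) (h1 : 2 * min (f 0) (f N) ≤ y) (h2 : y ≤ 2 * max (f 0) (f N)) :
    (∃ j ≤ N, y = 2 * f j) ∨
      ∃ j < N, 2 * min (f j) (f (j + 1)) + 1 ≤ y ∧ y ≤ 2 * max (f j) (f (j + 1)) - 1 := by
  induction N with
  | zero => exact Or.inl ⟨0, le_rfl, by omega⟩
  | succ N ih =>
    by_cases k : 2 * min (f 0) (f N) ≤ y ∧ y ≤ 2 * max (f 0) (f N)
    · rcases ih k.1 k.2 with ⟨j, a, b⟩ | ⟨j, a, b⟩
      exacts [Or.inl ⟨j, by omega, b⟩, Or.inr ⟨j, by omega, b⟩]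
    · by_cases e : y = 2 * f (N + 1)
      · exact Or.inl ⟨N + 1, le_rfl, e⟩
      · exact Or.inr ⟨N, by omega, by omega⟩

/-- the distance from the square at depth `T` -/
def rd (s T x y : ℕ) : ℕ :=
  max (max (2 * T - x) (x - 2 * (s - T))) (max (2 * T - y) (y - 2 * (s - T)))

/-- the height inside the core -/
def hc (s T : ℕ) (κ : ℕ → ℕ) (x y : ℕ) : ℕ :=
  if x < 2 * T then min (rd s T x y) (κ y) else rd s T x y

theorem hc_spec (s T : ℕ) (κ : ℕ → ℕ) (x y : ℕ) :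
    (x < 2 * T ∧ hc s T κ x y = min (rd s T x y) (κ y)) ∨
      (2 * T ≤ x ∧ hc s T κ x y = rd s T x y) := by
  unfold hc
  split_ifs with h
  exacts [Or.inl ⟨h, rfl⟩, Or.inr ⟨by omega, rfl⟩]

end num

theorem pigeon {V : Type} {X : Set V} {n : ℕ} (hX : X.Finite) (hn : X.ncard ≤ n) (S : ℕ → Set V)
    (hS : ∀ i ≤ n, ∀ j ≤ n, ∀ v ∈ S i, v ∈ S j → i = j) : ∃ i ≤ n, Disjoint (S i) X := by
  by_contra k
  push Not at k
  have : ∀ i : Fin (n + 1), ∃ v, v ∈ S i ∧ v ∈ X := fun i =>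
    not_disjoint_iff.1 (k i (Nat.lt_succ_iff.1 i.2))
  choose f h1 h2 using this
  have inj : Injective f := fun i j e =>
    Fin.ext (hS i (Nat.lt_succ_iff.1 i.2) j (Nat.lt_succ_iff.1 j.2) _ (h1 i) (e ▸ h1 j))
  have := ncard_le_ncard (s := range f) (range_subset_iff.2 h2) hX
  rw [ncard_range_of_injective inj, Nat.card_eq_fintype_card, Fintype.card_fin] at this
  omega

section kap

variable {V : Type} (bn : Bn V) (ρ m : ℕ)

/-- the column `y` has height at most `k` -/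
def In (k y : ℕ) : Prop := ∃ b < bn.r, ∃ e,
  2 * lo (bn.col b e) bn.w ρ ((k + 1) / 2) + k % 2 ≤ y ∧
    y + k % 2 ≤ 2 * hi (bn.col b e) bn.w ρ ((k + 1) / 2)

open Classical in
/-- the height of a column -/
noncomputable def kap (y : ℕ) : ℕ :=
  Nat.find (p := fun k => 2 * m ≤ k ∨ In bn ρ k y) ⟨2 * m, Or.inl le_rfl⟩

variable {bn ρ m} {b j y : ℕ} {e : Bool}

theorem kap_le (hb : b < bn.r) (h1 : 2 * lo (bn.col b e) bn.w ρ j ≤ y)
    (h2 : y ≤ 2 * hi (bn.col b e) bn.w ρ j) : kap bn ρ m y ≤ 2 * j := by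
  classical
  refine Nat.find_min' _ (Or.inr ⟨b, hb, e, ?_⟩)
  rw [show (2 * j + 1) / 2 = j by omega]
  omega

theorem kap_lt (hb : b < bn.r) (hj : 1 ≤ j) (h1 : 2 * lo (bn.col b e) bn.w ρ j < y)
    (h2 : y < 2 * hi (bn.col b e) bn.w ρ j) : kap bn ρ m y < 2 * j := by
  classical
  refine lt_of_le_of_lt (Nat.find_min' (m := 2 * j - 1) _ (Or.inr ⟨b, hb, e, ?_⟩)) (by omega)
  rw [show (2 * j - 1 + 1) / 2 = j by omega]
  omega

variable (hM : ∀ b < bn.r, ∀ e, Mn (bn.col b e) bn.w) (hw : 2 * ρ + 2 ≤ bn.w) (hm : m ≤ ρ)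
include hM hw hm

theorem of_kap_lt (hj : j ≤ m) (h : kap bn ρ m y < 2 * j) : ∃ b < bn.r, ∃ e,
    2 * lo (bn.col b e) bn.w ρ j < y ∧ y < 2 * hi (bn.col b e) bn.w ρ j := by
  classical
  have := Nat.find_spec (p := fun k => 2 * m ≤ k ∨ In bn ρ k y) ⟨2 * m, Or.inl le_rfl⟩
  change 2 * m ≤ kap bn ρ m y ∨ In bn ρ (kap bn ρ m y) y at this
  obtain ⟨b, hb, e, h1, h2⟩ := this.resolve_left (by omega)
  have := nest (hM b hb e) hw (d := (kap bn ρ m y + 1) / 2) (d' := j) (by omega) (by omega)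
  exact ⟨b, hb, e, by omega⟩

theorem of_kap_le (hj : j < m) (h : kap bn ρ m y ≤ 2 * j) : ∃ b < bn.r, ∃ e,
    2 * lo (bn.col b e) bn.w ρ j ≤ y ∧ y ≤ 2 * hi (bn.col b e) bn.w ρ j := by
  classical
  have := Nat.find_spec (p := fun k => 2 * m ≤ k ∨ In bn ρ k y) ⟨2 * m, Or.inl le_rfl⟩
  change 2 * m ≤ kap bn ρ m y ∨ In bn ρ (kap bn ρ m y) y at this
  obtain ⟨b, hb, e, h1, h2⟩ := this.resolve_left (by omega)
  have := nest (hM b hb e) hw (d := (kap bn ρ m y + 1) / 2) (d' := j) (by omega) (by omega)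
  exact ⟨b, hb, e, by omega⟩

end kap

section chart

variable {Φ V : Type} {M : FM Φ} {vx : Φ → V} {H : Set V} {g : ℕ} {B : Fin g × Fin g → Set V}
  {ch : Ch V}

/-- two cells are joined inside `L` -/
def Jn (G : SimpleGraph V) (ch : Ch V) (L : Set V) (r c r' c' : ℕ) : Prop :=
  ∀ u ∈ ch.cell r c, ∀ u' ∈ ch.cell r' c', Link G L u u'

variable {L : Set V} {r c r' c' r'' c'' : ℕ}

theorem Jn.symm {G : SimpleGraph V} (h : Jn G ch L r c r' c') : Jn G ch L r' c' r c :=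
  fun u hu u' hu' => (h u' hu' u hu).symm

variable (C : ch.Ok M vx H B)
include C

theorem Jn.trans (h : Jn (M.gph vx) ch L r c r' c') (h' : Jn (M.gph vx) ch L r' c' r'' c'')
    (hr : r' ≤ ch.s) (hc : c' ≤ ch.s) : Jn (M.gph vx) ch L r c r'' c'' := by
  obtain ⟨z, hz⟩ := (C.conn r' hr c' hc).1
  exact fun u hu u' hu' => (h u hu z hz).trans (h' z hz u' hu')

theorem jn_row (hr : r ≤ ch.s) (h : c ≤ c') (hc : c' ≤ ch.s)
    (hL : ∀ i, c ≤ i → i ≤ c' → ch.cell r i ⊆ L) : Jn (M.gph vx) ch L r c r c' := by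
  have k := conn_chain (G := M.gph vx) (S := fun i => ch.cell r i) h
    (fun i hi => C.conn r hr i (hi.2.trans hc)) fun i _ h2 => Or.inr (C.hor r hr i (by omega))
  exact fun u hu u' hu' => (k.2 u (mem_biUnion (left_mem_Icc.2 h) hu) u'
    (mem_biUnion (right_mem_Icc.2 h) hu')).mono (iUnion₂_subset fun i hi => hL i hi.1 hi.2)

theorem jn_col (hc : c ≤ ch.s) (h : r ≤ r') (hr : r' ≤ ch.s)
    (hL : ∀ i, r ≤ i → i ≤ r' → ch.cell i c ⊆ L) : Jn (M.gph vx) ch L r c r' c := by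
  have k := conn_chain (G := M.gph vx) (S := fun i => ch.cell i c) h
    (fun i hi => C.conn i (hi.2.trans hr) c hc) fun i _ h2 => Or.inr (C.ver i (by omega) c hc)
  exact fun u hu u' hu' => (k.2 u (mem_biUnion (left_mem_Icc.2 h) hu) u'
    (mem_biUnion (right_mem_Icc.2 h) hu')).mono (iUnion₂_subset fun i hi => hL i hi.1 hi.2)

omit C in
/-- the branch set in a cell -/
def br (B : Fin g × Fin g → Set V) (ch : Ch V) (r c : ℕ) : Set V :=
  {v | ∃ p : Fin g × Fin g, (p.1 : ℕ) = ch.i0 + r ∧ (p.2 : ℕ) = ch.j0 + c ∧ v ∈ B p}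

theorem br_eq (hr : r ≤ ch.s) (hc : c ≤ ch.s) : br B ch r c =
    B (⟨ch.i0 + r, by have := C.fit; omega⟩, ⟨ch.j0 + c, by have := C.fit; omega⟩) := by
  ext v
  constructor
  · rintro ⟨⟨p, q⟩, h1, h2, h⟩
    convert h
    exacts [h1.symm, h2.symm]
  · exact fun h => ⟨_, rfl, rfl, h⟩

theorem br_sub (hr : r ≤ ch.s) (hc : c ≤ ch.s) : br B ch r c ⊆ ch.cell r c :=
  fun _ ⟨p, h1, h2, h⟩ => C.br r hr c hc p h1 h2 h

variable {D : Set V} (hB : Model (fb.grid g) (M.gph vx) D B)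
include hB

theorem br_conn (hr : r ≤ ch.s) (hc : c ≤ ch.s) : Conn (M.gph vx) (br B ch r c) :=
  br_eq C hr hc ▸ hB.2.1 _

theorem br_ver (hr : r < ch.s) (hc : c ≤ ch.s) :
    Touch (M.gph vx) (br B ch r c) (br B ch (r + 1) c) := by
  rw [br_eq C hr.le hc, br_eq C hr hc]
  exact hB.2.2.2 _ _ (Or.inr ⟨rfl, Or.inl rfl⟩)

end chart

section height

variable {V : Type} (ch : Ch V) (bn : Bn V) (t m ρ : ℕ)

/-- the height of a vertex -/
def Val (v : V) (h : ℕ) : Prop :=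
  (∃ b < bn.r, ∃ j < bn.w, v ∈ bn.St b j ∧ h = 2 * dl bn.w ρ j) ∨
  (∃ b < bn.r, ∃ j, j + 1 < bn.w ∧ v ∈ bn.Zo b j ∧ h = dl bn.w ρ j + dl bn.w ρ (j + 1)) ∨
  (v ∈ ch.core t ∧ h = hc ch.s (t + m) (kap bn ρ m) (ch.x v) (ch.y v)) ∨
  (v ∉ bn.prot ch t ∧ h = 2 * m + 1)

theorem val_ex (v : V) : ∃ h, Val ch bn t m ρ v h := by
  by_cases k : v ∈ bn.prot ch t
  · rcases k with k | ⟨b, hb, ⟨j, hj, k⟩ | ⟨j, hj, k⟩⟩
    · exact ⟨_, Or.inr (Or.inr (Or.inl ⟨k, rfl⟩))⟩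
    · exact ⟨_, Or.inl ⟨b, hb, j, hj, k, rfl⟩⟩
    · exact ⟨_, Or.inr (Or.inl ⟨b, hb, j, hj, k, rfl⟩)⟩
  · exact ⟨_, Or.inr (Or.inr (Or.inr ⟨k, rfl⟩))⟩

noncomputable def ht (v : V) : ℕ := (val_ex ch bn t m ρ v).choose

theorem ht_val (v : V) : Val ch bn t m ρ v (ht ch bn t m ρ v) := (val_ex ch bn t m ρ v).choose_spec

end height

/-- the numerical assumptions -/
structure Hy (s w t μ m ρ R n : ℕ) : Prop where
  t1 : 1 ≤ t
  hm : R + n + 1 < m
  hρ : m + n + 2 ≤ ρ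
  hμ : t + m ≤ μ
  hs : 2 * μ + 2 * n + 4 ≤ s
  hw : 2 * ρ + 2 ≤ w

section main

variable {Φ V : Type} {M : FM Φ} {vx : Φ → V} {H : Set V} {g : ℕ} {B : Fin g × Fin g → Set V}
  {ch : Ch V} {bn : Bn V} {t μ m ρ R n : ℕ} {b b' i i' j d d' y : ℕ} {e e' : Bool} {u v : V}

theorem lo_eq (hw : 2 * ρ + 2 ≤ bn.w) :
    bn.lo b e = lo (bn.col b e) bn.w ρ ρ ∧ bn.hi b e = hi (bn.col b e) bn.w ρ ρ := by
  unfold lo hi Bn.lo Bn.hi
  rw [Nat.sub_self, show bn.w - 1 - ρ + ρ = bn.w - 1 by omega]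
  exact ⟨rfl, rfl⟩

theorem lo_ext (hw : 2 * ρ + 2 ≤ bn.w) :
    (bn.ext ch t m ρ).lo b e = lo (bn.col b e) bn.w ρ 0 ∧
      (bn.ext ch t m ρ).hi b e = hi (bn.col b e) bn.w ρ 0 := by
  unfold lo hi Bn.lo Bn.hi Bn.ext
  dsimp only
  rw [show bn.w - 2 * ρ - 1 + ρ = bn.w - 1 - ρ + 0 by omega, Nat.zero_add, Nat.sub_zero]
  exact ⟨rfl, rfl⟩

variable (O : bn.Ok ch M vx H t μ)
include O

theorem st_core (hb : b < bn.r) (hj : j < bn.w) (h : v ∈ bn.St b j) : v ∉ ch.core t :=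
  (O.sub b hb (Or.inl ⟨j, hj, h⟩)).2

theorem zo_core (hb : b < bn.r) (hj : j + 1 < bn.w) (h : v ∈ bn.Zo b j) : v ∉ ch.core t :=
  (O.sub b hb (Or.inr ⟨j, hj, h⟩)).2

theorem ht_st (hb : b < bn.r) (hj : j < bn.w) (h : v ∈ bn.St b j) :
    ht ch bn t m ρ v = 2 * dl bn.w ρ j := by
  rcases ht_val ch bn t m ρ v with ⟨b', hb', j', hj', k, e⟩ | ⟨b', hb', j', hj', k, -⟩ | ⟨k, -⟩ |
    ⟨k, -⟩
  · by_contra n
    refine disjoint_left.1 (O.dss b hb j hj b' hb' j' hj' fun e' => n ?_) h k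
    rw [e, (Prod.mk.inj e').2]
  · exact (disjoint_left.1 (O.dsz b hb j hj b' hb' j' hj') h k).elim
  · exact (st_core O hb hj h k).elim
  · exact (k (Or.inr ⟨b, hb, Or.inl ⟨j, hj, h⟩⟩)).elim

theorem ht_zo (hb : b < bn.r) (hj : j + 1 < bn.w) (h : v ∈ bn.Zo b j) :
    ht ch bn t m ρ v = dl bn.w ρ j + dl bn.w ρ (j + 1) := by
  rcases ht_val ch bn t m ρ v with ⟨b', hb', j', hj', k, -⟩ | ⟨b', hb', j', hj', k, e⟩ | ⟨k, -⟩ |
    ⟨k, -⟩
  · exact (disjoint_left.1 (O.dsz b' hb' j' hj' b hb j hj) k h).elim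
  · by_contra n
    refine disjoint_left.1 (O.dzz b hb j hj b' hb' j' hj' fun e' => n ?_) h k
    rw [e, (Prod.mk.inj e').2]
  · exact (zo_core O hb hj h k).elim
  · exact (k (Or.inr ⟨b, hb, Or.inr ⟨j, hj, h⟩⟩)).elim

theorem ht_core (h : v ∈ ch.core t) :
    ht ch bn t m ρ v = hc ch.s (t + m) (kap bn ρ m) (ch.x v) (ch.y v) := by
  rcases ht_val ch bn t m ρ v with ⟨b', hb', j', hj', k, -⟩ | ⟨b', hb', j', hj', k, -⟩ | ⟨-, e⟩ |
    ⟨k, -⟩
  · exact (st_core O hb' hj' k h).elim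
  · exact (zo_core O hb' hj' k h).elim
  · exact e
  · exact (k (Or.inl h)).elim

theorem mn : ∀ b < bn.r, ∀ e, Mn (bn.col b e) bn.w := by
  intro b hb e
  cases e
  · exact mn_up (O.mo0 b hb)
  · cases h : bn.up b
    · exact mn_down fun j hj => (O.mo1 b hb j hj).2 h
    · exact mn_up fun j hj => (O.mo1 b hb j hj).1 h

variable (Y : Hy ch.s bn.w t μ m ρ R n)
include Y

theorem cenl (hb : b < bn.r) (hd : d ≤ ρ) :
    μ < lo (bn.col b e) bn.w ρ d ∧ hi (bn.col b e) bn.w ρ d + μ < ch.s := by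
  have hw := Y.hw
  have h1 := O.cen b hb e (ρ - d) (by omega)
  have h2 := O.cen b hb e (bn.w - 1 - ρ + d) (by omega)
  unfold Ch.cen at h1 h2
  unfold lo hi
  omega

theorem gapl (hb : b < bn.r) (hb' : b' < bn.r) (ne : (b, e) ≠ (b', e')) (hd : d ≤ ρ)
    (hd' : d' ≤ ρ) : hi (bn.col b e) bn.w ρ d + 1 < lo (bn.col b' e') bn.w ρ d' ∨
      hi (bn.col b' e') bn.w ρ d' + 1 < lo (bn.col b e) bn.w ρ d := by
  have h := O.gap b hb e b' hb' e' ne
  rw [(lo_eq Y.hw).1, (lo_eq Y.hw).1, (lo_eq Y.hw).2, (lo_eq Y.hw).2] at h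
  have := nest (mn O b hb e) Y.hw hd le_rfl
  have := nest (mn O b' hb' e') Y.hw hd' le_rfl
  omega

theorem klt (hj : j ≤ m) (h : kap bn ρ m y < 2 * j) : ∃ b < bn.r, ∃ e,
    2 * lo (bn.col b e) bn.w ρ j < y ∧ y < 2 * hi (bn.col b e) bn.w ρ j ∧
      μ < lo (bn.col b e) bn.w ρ j ∧ hi (bn.col b e) bn.w ρ j + μ < ch.s := by
  have := Y.hρ
  obtain ⟨b, hb, e, h1, h2⟩ := of_kap_lt (mn O) Y.hw (by omega) hj h
  exact ⟨b, hb, e, h1, h2, cenl O Y hb (by omega)⟩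

theorem kle (hj : j < m) (h : kap bn ρ m y ≤ 2 * j) : ∃ b < bn.r, ∃ e,
    2 * lo (bn.col b e) bn.w ρ j ≤ y ∧ y ≤ 2 * hi (bn.col b e) bn.w ρ j ∧
      μ < lo (bn.col b e) bn.w ρ j ∧ hi (bn.col b e) bn.w ρ j + μ < ch.s := by
  have := Y.hρ
  obtain ⟨b, hb, e, h1, h2⟩ := of_kap_le (mn O) Y.hw (by omega) hj h
  exact ⟨b, hb, e, h1, h2, cenl O Y hb (by omega)⟩

theorem kap_ge (hb : b < bn.r) (h0 : i ≤ i') (h0' : i' ≤ i + 1) (hi' : i' < bn.w)
    (h1 : 2 * min (bn.col b e i) (bn.col b e i') ≤ y)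
    (h2 : y ≤ 2 * max (bn.col b e i) (bn.col b e i')) (hj : j ≤ m) (k1 : j ≤ dl bn.w ρ i)
    (k2 : j ≤ dl bn.w ρ i') : 2 * j ≤ kap bn ρ m y := by
  by_contra k
  have := Y.hρ
  have hw := Y.hw
  obtain ⟨b', hb', e', a1, a2, -⟩ := klt O Y hj (not_le.1 k)
  by_cases q : (b, e) = (b', e')
  · obtain ⟨rfl, rfl⟩ := Prod.mk.inj q
    have := outside (mn O b hb e) hw h0 h0' hi' (by omega) k1 k2
    omega
  · have := gapl O Y hb hb' q le_rfl (d' := j) (by omega)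
    have := inside (mn O b hb e) hw (i := i) (by omega) (by unfold dl; omega) le_rfl
    have := inside (mn O b hb e) hw hi' (by unfold dl; omega) le_rfl
    omega

theorem tile_val (hb : b < bn.r) (hi : i + 1 < bn.w) (h : v ∈ bn.tile ch t b i) :
    ht ch bn t m ρ v = 2 * dl bn.w ρ i ∨ ht ch bn t m ρ v = 2 * dl bn.w ρ (i + 1) ∨
      ht ch bn t m ρ v = dl bn.w ρ i + dl bn.w ρ (i + 1) ∨
      ∃ e y, 2 * min (bn.col b e i) (bn.col b e (i + 1)) ≤ y ∧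
        y ≤ 2 * max (bn.col b e i) (bn.col b e (i + 1)) ∧
        ht ch bn t m ρ v = min (2 * m) (kap bn ρ m y) := by
  have sg : ∀ e, v ∈ bn.seg ch t b e i → ∃ e y, 2 * min (bn.col b e i) (bn.col b e (i + 1)) ≤ y ∧
      y ≤ 2 * max (bn.col b e i) (bn.col b e (i + 1)) ∧
      ht ch bn t m ρ v = min (2 * m) (kap bn ρ m y) := by
    rintro e ⟨h0, h1, h2, h3, h4⟩
    obtain ⟨a1, a2, a3, a4, a5, a6⟩ := Y
    have c1 := O.cen b hb e i (by omega)
    have c2 := O.cen b hb e (i + 1) hi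
    unfold Ch.cen at c1 c2
    refine ⟨e, ch.y v, h3, h4, ?_⟩
    rw [ht_core O ⟨h0, by omega, by omega, by omega, by omega⟩, hc, if_pos (by omega)]
    congr 1
    unfold rd
    omega
  rcases h with (((h | h) | h) | h) | h
  · exact Or.inl (ht_st O hb (by omega) h)
  · exact Or.inr (Or.inl (ht_st O hb hi h))
  · exact Or.inr (Or.inr (Or.inl (ht_zo O hb hi h)))
  · exact Or.inr (Or.inr (Or.inr (sg _ h)))
  · exact Or.inr (Or.inr (Or.inr (sg _ h)))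

theorem tile_step (hb : b < bn.r) (hi : i + 1 < bn.w) (hu : u ∈ bn.tile ch t b i)
    (hv : v ∈ bn.tile ch t b i) (hj : j ≤ m) (h : ht ch bn t m ρ u < 2 * j) :
    ht ch bn t m ρ v ≤ 2 * j := by
  have hw := Y.hw
  have hρ := Y.hρ
  have d1 : dl bn.w ρ i ≤ dl bn.w ρ (i + 1) + 1 ∧ dl bn.w ρ (i + 1) ≤ dl bn.w ρ i + 1 := by
    unfold dl
    omega
  have hd : dl bn.w ρ i ≤ j ∧ dl bn.w ρ (i + 1) ≤ j := by
    rcases tile_val O Y hb hi hu with k | k | k | ⟨e, y, h1, h2, k⟩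
    iterate 3 omega
    by_contra n
    have := kap_ge O Y hb (i := i) (i' := i + 1) (by omega) le_rfl hi h1 h2 hj (by omega)
      (by omega)
    omega
  rcases tile_val O Y hb hi hv with k | k | k | ⟨e, y, h1, h2, k⟩
  iterate 3 omega
  have := inside (mn O b hb e) hw (i := i) (by omega) hd.1 (by omega)
  have := inside (mn O b hb e) hw hi hd.2 (by omega)
  have := kap_le (m := m) (y := y) (ρ := ρ) (j := j) (e := e) hb (by omega) (by omega)
  omega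

theorem sq_step {r c : ℕ} (hu : u ∈ ch.sq r c) (hv : v ∈ ch.sq r c) (hu' : u ∈ ch.core t)
    (hv' : v ∈ ch.core t) (hj : j ≤ m) (h : ht ch bn t m ρ u < 2 * j) :
    ht ch bn t m ρ v ≤ 2 * j := by
  rw [ht_core O hu'] at h
  rw [ht_core O hv']
  obtain ⟨-, u1, u2, u3, u4⟩ := hu
  obtain ⟨-, v1, v2, v3, v4⟩ := hv
  have w1 : rd ch.s (t + m) (ch.x u) (ch.y u) < 2 * j →
      rd ch.s (t + m) (ch.x v) (ch.y v) ≤ 2 * j := by
    simp only [rd, max_lt_iff, max_le_iff]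
    rintro ⟨⟨a, b⟩, c, d⟩
    exact ⟨⟨by clear b c d; omega, by clear a c d; omega⟩, by clear a b d; omega,
      by clear a b c; omega⟩
  have su := hc_spec ch.s (t + m) (kap bn ρ m) (ch.x u) (ch.y u)
  have sv := hc_spec ch.s (t + m) (kap bn ρ m) (ch.x v) (ch.y v)
  by_cases k : rd ch.s (t + m) (ch.x u) (ch.y u) < 2 * j
  · have := w1 k
    omega
  obtain ⟨b, hb, e, h1, h2, h3, h4⟩ := klt O Y (y := ch.y u) hj (by omega)
  have := kap_le (m := m) (y := ch.y v) (ρ := ρ) (j := j) (e := e) hb (by omega) (by omega)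
  rcases sv with sv | sv
  · omega
  · have := Y.hμ
    have := Y.hs
    rw [sv.2]
    unfold rd
    omega

variable (C : ch.Ok M vx H B)
include C

theorem step : ∀ f ∈ M.S, ∀ g ∈ M.fo f, ∀ j ≤ m, ht ch bn t m ρ (vx f) < 2 * j →
    ht ch bn t m ρ (vx g) ≤ 2 * j := by
  intro f hf f' hf' j hj h
  have self : f ∈ M.fo f := Relation.ReflTransGen.refl
  have Y' := Y
  obtain ⟨a1, a2, a3, a4, a5, a6⟩ := Y'
  have sq : vx f ∈ ch.core t → ∃ r c, ∀ g ∈ M.fo f, vx g ∈ ch.sq r c := by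
    rintro ⟨h0, h1, h2, h3, h4⟩
    obtain ⟨r, -, c, -, k⟩ := C.face f hf ⟨h0, by omega, by omega, by omega, by omega⟩
    exact ⟨r, c, k⟩
  have fc : ∀ b < bn.r, (vx f ∈ bn.inner b ∨
      ∃ e, vx f ∈ ch.box (2 * t) (2 * t) (2 * bn.lo b e + 1) (2 * bn.hi b e - 1)) →
      ht ch bn t m ρ (vx f') ≤ 2 * j := by
    intro b hb k
    rcases O.face b hb f hf k with k | ⟨i, hi, k⟩
    · obtain ⟨r, c, k'⟩ := sq (k f self)
      exact sq_step O Y (k' f self) (k' f' hf') (k f self) (k f' hf') hj h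
    · exact tile_step O Y hb hi (k f self) (k f' hf') hj h
  rcases ht_val ch bn t m ρ (vx f) with ⟨b, hb, i, hi, k, e⟩ | ⟨b, hb, i, hi, k, -⟩ | ⟨k, e⟩ |
    ⟨-, e⟩
  · exact fc b hb (Or.inl (Or.inl ⟨i, by unfold dl at e; omega, by unfold dl at e; omega, k⟩))
  · exact fc b hb (Or.inl (Or.inr ⟨i, hi, k⟩))
  · by_cases q : rd ch.s (t + m) (ch.x (vx f)) (ch.y (vx f)) < 2 * m
    · obtain ⟨r, c, k'⟩ := sq k
      obtain ⟨-, u1, u2, u3, u4⟩ := k' f self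
      obtain ⟨v0, v1, v2, v3, v4⟩ := k' f' hf'
      unfold rd at q
      exact sq_step O Y (k' f self) (k' f' hf') k
        ⟨v0, by omega, by omega, by omega, by omega⟩ hj h
    · have su := hc_spec ch.s (t + m) (kap bn ρ m) (ch.x (vx f)) (ch.y (vx f))
      obtain ⟨b, hb, e', h1, h2, h3, h4⟩ := klt O Y (y := ch.y (vx f)) hj (by omega)
      have := nest (mn O b hb e') a6 (d := j) (by omega) le_rfl
      have x1 : ch.x (vx f) < 2 * (t + m) := by omega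
      obtain ⟨h0, u1, -⟩ := k
      refine fc b hb (Or.inr ⟨e', h0, u1, ?_, ?_, ?_⟩)
      · unfold rd at q
        omega
      · rw [(lo_eq a6).1]
        omega
      · rw [(lo_eq a6).2]
        omega
  · omega

omit C in
theorem zero_of (h : ht ch bn t m ρ v = 0) : v ∈ (bn.ext ch t m ρ).prot ch (t + m) := by
  have Y' := Y
  obtain ⟨a1, a2, a3, a4, a5, a6⟩ := Y'
  rcases ht_val ch bn t m ρ v with ⟨b, hb, i, hi, k, e⟩ | ⟨b, hb, i, hi, k, e⟩ | ⟨k, e⟩ | ⟨-, e⟩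
  · unfold dl at e
    obtain ⟨j, rfl⟩ : ∃ j, i = j + ρ := ⟨i - ρ, by omega⟩
    exact Or.inr ⟨b, hb, Or.inl ⟨j, show j < bn.w - 2 * ρ by omega, Or.inl k⟩⟩
  · unfold dl at e
    obtain ⟨j, rfl⟩ : ∃ j, i = j + ρ := ⟨i - ρ, by omega⟩
    exact Or.inr ⟨b, hb, Or.inr ⟨j, show j + 1 < bn.w - 2 * ρ by omega, Or.inl k⟩⟩
  · obtain ⟨h0, u1, -⟩ := k
    rcases hc_spec ch.s (t + m) (kap bn ρ m) (ch.x v) (ch.y v) with ⟨s1, s2⟩ | ⟨s1, s2⟩
    · have : kap bn ρ m (ch.y v) ≤ 2 * 0 := by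
        unfold rd at s2
        omega
      obtain ⟨b, hb, e', h1, h2, -⟩ := kle O Y (by omega) this
      rw [← (lo_ext (ch := ch) (t := t) (m := m) a6).1] at h1
      rw [← (lo_ext (ch := ch) (t := t) (m := m) a6).2] at h2
      rcases ivt (fun j => bn.col b e' (j + ρ)) (ch.y v) (bn.w - 2 * ρ - 1) h1 h2 with
        ⟨j, h3, h4⟩ | ⟨j, h3, h4, h5⟩
      · exact Or.inr ⟨b, hb, Or.inl ⟨j, show j < bn.w - 2 * ρ by omega,
          Or.inr (mem_iUnion.2 ⟨e', h0, u1, by omega, h4.ge, h4.le⟩)⟩⟩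
      · rw [show j + 1 + ρ = j + ρ + 1 by omega] at h4 h5
        exact Or.inr ⟨b, hb, Or.inr ⟨j, show j + 1 < bn.w - 2 * ρ by omega,
          Or.inr (mem_iUnion.2 ⟨e', h0, u1, by omega, h4, h5⟩)⟩⟩
    · unfold rd at s2
      exact Or.inl ⟨h0, by omega, by omega, by omega, by omega⟩
  · omega

theorem of_zero (h : v ∈ (bn.ext ch t m ρ).prot ch (t + m)) :
    v ∈ vx '' M.S ∧ ht ch bn t m ρ v = 0 := by
  have Y' := Y
  obtain ⟨a1, a2, a3, a4, a5, a6⟩ := Y'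
  have bx : ∀ b < bn.r, ∀ e i i', i < bn.w → i' < bn.w → dl bn.w ρ i ≤ 0 → dl bn.w ρ i' ≤ 0 →
      v ∈ ch.Ω → 2 * t ≤ ch.x v → ch.x v ≤ 2 * (t + m) - 1 →
      2 * min (bn.col b e i) (bn.col b e i') ≤ ch.y v →
      ch.y v ≤ 2 * max (bn.col b e i) (bn.col b e i') → v ∈ vx '' M.S ∧ ht ch bn t m ρ v = 0 := by
    intro b hb e i i' h1 h2 h3 h4 h0 x1 x2 y1 y2
    have := inside (mn O b hb e) a6 h1 h3 (Nat.zero_le _)
    have := inside (mn O b hb e) a6 h2 h4 (Nat.zero_le _)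
    have := cenl O Y (e := e) hb (Nat.zero_le _)
    have := kap_le (m := m) (y := ch.y v) (ρ := ρ) (j := 0) (e := e) hb (by omega) (by omega)
    refine ⟨(C.sub h0).1.1, ?_⟩
    rw [ht_core O ⟨h0, by omega, by omega, by omega, by omega⟩, hc, if_pos (by omega)]
    omega
  rcases h with ⟨h0, h1, h2, h3, h4⟩ | ⟨b, hb, ⟨j, hj, k | k⟩ | ⟨j, hj, k | k⟩⟩
  · refine ⟨(C.sub h0).1.1, ?_⟩
    rw [ht_core O ⟨h0, by omega, by omega, by omega, by omega⟩, hc, if_neg (by omega)]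
    unfold rd
    omega
  all_goals change _ < bn.w - 2 * ρ at hj
  · refine ⟨(O.sub b hb (Or.inl ⟨j + ρ, by omega, k⟩)).1.1.1, ?_⟩
    rw [ht_st O hb (by omega) k]
    unfold dl
    omega
  · obtain ⟨e, h0, h1, h2, h3, h4⟩ := mem_iUnion.1 k
    exact bx b hb e (j + ρ) (j + ρ) (by omega) (by omega) (by unfold dl; omega)
      (by unfold dl; omega) h0 h1 h2 (by omega) (by omega)
  · refine ⟨(O.sub b hb (Or.inr ⟨j + ρ, by omega, k⟩)).1.1.1, ?_⟩
    rw [ht_zo O hb (by omega) k]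
    unfold dl
    omega
  · obtain ⟨e, h0, h1, h2, h3, h4⟩ := mem_iUnion.1 k
    exact bx b hb e (j + ρ) (j + ρ + 1) (by omega) (by omega) (by unfold dl; omega)
      (by unfold dl; omega) h0 h1 h2 (by omega) (by omega)

omit O C in
theorem inn_of (h : ht ch bn t m ρ v < 2 * m) : v ∈ bn.inn ch t := by
  obtain ⟨a1, a2, a3, a4, a5, a6⟩ := Y
  rcases ht_val ch bn t m ρ v with ⟨b, hb, i, hi, k, e⟩ | ⟨b, hb, i, hi, k, -⟩ | ⟨k, -⟩ | ⟨-, e⟩
  · exact Or.inr ⟨b, hb, Or.inl ⟨i, by unfold dl at e; omega, by unfold dl at e; omega, k⟩⟩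
  · exact Or.inr ⟨b, hb, Or.inr ⟨i, hi, k⟩⟩
  · exact Or.inl k
  · omega

omit Y in
theorem hole (h : v ∈ M.rad vx H) : 2 * m ≤ ht ch bn t m ρ v := by
  rcases ht_val ch bn t m ρ v with ⟨b, hb, i, hi, k, -⟩ | ⟨b, hb, i, hi, k, -⟩ | ⟨k, -⟩ | ⟨-, e⟩
  · exact ((O.sub b hb (Or.inl ⟨i, hi, k⟩)).1.2 h).elim
  · exact ((O.sub b hb (Or.inr ⟨i, hi, k⟩)).1.2 h).elim
  · exact ((C.sub k.1).2 h).elim
  · omega

end main

end rsh

end Pool.Agent.MP_9d78a0_co.gm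

end MrgPart0

-- ======== part 1: formerly Pool.Agent.MP_9d78a0_co.gm.RShell
section MrgPart1

/-! Routing: the prolonged bands are protected by shells. -/

set_option autoImplicit false

namespace Pool.Agent.MP_9d78a0_co.gm

open Set Function fb

namespace rsh

variable {Φ V : Type} {M : FM Φ} {vx : Φ → V} {H : Set V} {g : ℕ} {B : Fin g × Fin g → Set V}
  {ch : Ch V} {bn : Bn V} {t μ m ρ R n j τ r c : ℕ} {v : V}

/-- a level -/
def Lv (M : FM Φ) (vx : Φ → V) (ch : Ch V) (bn : Bn V) (t m ρ j : ℕ) : Set V :=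
  {v | v ∈ vx '' M.S ∧ ht ch bn t m ρ v = 2 * j}

/-- the cell `r c` is joined inside the level to many central columns -/
def Q (M : FM Φ) (vx : Φ → V) (ch : Ch V) (bn : Bn V) (t μ m ρ n j τ r c : ℕ) : Prop :=
  ∃ c0, ∀ i ≤ n, ch.cen μ (c0 + i) ∧ 2 * j ≤ kap bn ρ m (2 * (c0 + i)) ∧
    Jn (M.gph vx) ch (Lv M vx ch bn t m ρ j) r c τ (c0 + i)

variable (O : bn.Ok ch M vx H t μ) (Y : Hy ch.s bn.w t μ m ρ R n) (C : ch.Ok M vx H B)
include O C

theorem cell_ht (h1 : t ≤ r) (h2 : r + t ≤ ch.s) (h3 : t ≤ c) (h4 : c + t ≤ ch.s)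
    (h : v ∈ ch.cell r c) :
    v ∈ vx '' M.S ∧ ht ch bn t m ρ v = hc ch.s (t + m) (kap bn ρ m) (2 * r) (2 * c) := by
  obtain ⟨h0, a1, a2, a3, a4⟩ := h
  refine ⟨(C.sub h0).1.1, ?_⟩
  rw [ht_core O ⟨h0, by omega, by omega, by omega, by omega⟩, le_antisymm a2 a1, le_antisymm a4 a3]

omit O in
theorem Q.tr {r' c' : ℕ} (h : Jn (M.gph vx) ch (Lv M vx ch bn t m ρ j) r c r' c')
    (hr : r' ≤ ch.s) (hc : c' ≤ ch.s) (k : Q M vx ch bn t μ m ρ n j τ r' c') :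
    Q M vx ch bn t μ m ρ n j τ r c := by
  obtain ⟨c0, k⟩ := k
  exact ⟨c0, fun i hi => ⟨(k i hi).1, (k i hi).2.1, h.trans C (k i hi).2.2 hr hc⟩⟩

include Y

theorem down_ht (h1 : t ≤ r) (h2 : r < t + m) (h3 : ch.cen μ c) (h : v ∈ ch.cell r c) :
    v ∈ vx '' M.S ∧ ht ch bn t m ρ v = min (2 * (t + m - r)) (kap bn ρ m (2 * c)) := by
  obtain ⟨a1, a2, a3, a4, a5, a6⟩ := Y
  obtain ⟨b1, b2⟩ := h3
  obtain ⟨k1, k2⟩ := cell_ht (m := m) (ρ := ρ) O C h1 (by omega) (by omega) (by omega) h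
  refine ⟨k1, ?_⟩
  rw [k2, hc, if_pos (by omega)]
  congr 1
  unfold rd
  omega

variable (j0 : 0 < j) (jm : j < m) (hτ : τ + j = t + m)
include j0 jm hτ

theorem ring_lv (h1 : τ ≤ r) (h2 : r + τ ≤ ch.s) (h3 : τ ≤ c) (h4 : c + τ ≤ ch.s)
    (h5 : r = τ ∨ r + τ = ch.s ∨ c = τ ∨ c + τ = ch.s)
    (h6 : r < t + m → 2 * j ≤ kap bn ρ m (2 * c)) : ch.cell r c ⊆ Lv M vx ch bn t m ρ j := by
  intro v h
  obtain ⟨a1, a2, a3, a4, a5, a6⟩ := Y
  obtain ⟨k1, k2⟩ := cell_ht (m := m) (ρ := ρ) O C (by omega) (by omega) (by omega) (by omega) h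
  have : rd ch.s (t + m) (2 * r) (2 * c) = 2 * j := by
    unfold rd
    omega
  have := hc_spec ch.s (t + m) (kap bn ρ m) (2 * r) (2 * c)
  exact ⟨k1, by omega⟩

omit C j0 hτ in
theorem side_good (h : c ≤ μ ∨ ch.s ≤ c + μ) : 2 * j ≤ kap bn ρ m (2 * c) := by
  by_contra k
  obtain ⟨b, -, e, h1, h2, h3, h4⟩ := klt O Y jm.le (not_le.1 k)
  omega

theorem q1 (h3 : τ ≤ c) (hg : 2 * j ≤ kap bn ρ m (2 * c))
    (hb : ∃ c1, c < c1 ∧ kap bn ρ m (2 * c1) < 2 * j) : Q M vx ch bn t μ m ρ n j τ τ c := by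
  classical
  have Y' := Y
  obtain ⟨a1, a2, a3, a4, a5, a6⟩ := Y'
  obtain ⟨s1, s2⟩ := Nat.find_spec hb
  have mi : ∀ c', c ≤ c' → c' < Nat.find hb → 2 * j ≤ kap bn ρ m (2 * c') := by
    intro c' h1 h2
    rcases h1.lt_or_eq with e | rfl
    · exact not_lt.1 fun k => Nat.find_min hb h2 ⟨e, k⟩
    · exact hg
  obtain ⟨b, hb', e, h1, h2, h4, h5⟩ := klt O Y jm.le s2
  have cl : c ≤ lo (bn.col b e) bn.w ρ j := by
    by_contra k
    have := kap_lt (m := m) (y := 2 * c) (ρ := ρ) (j := j) (e := e) hb' j0 (by omega) (by omega)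
    omega
  have ns := nest (mn O b hb' e) a6 (d := j) (by omega) le_rfl
  have cr := cenl O Y (e := e) hb' le_rfl
  have gd : ∀ c', lo (bn.col b e) bn.w ρ j ≤ c' + n → c' ≤ lo (bn.col b e) bn.w ρ j →
      2 * j ≤ kap bn ρ m (2 * c') := by
    intro c' k1 k2
    by_contra k
    obtain ⟨b', hb'', e', g1, g2, -⟩ := klt O Y jm.le (not_le.1 k)
    by_cases q : (b, e) = (b', e')
    · obtain ⟨rfl, rfl⟩ := Prod.mk.inj q
      omega
    · have := gapl O Y hb' hb'' q le_rfl (d' := j) (by omega)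
      omega
  refine ⟨lo (bn.col b e) bn.w ρ j - n, fun i hi => ⟨⟨by omega, by omega⟩,
    gd _ (by omega) (by omega), ?_⟩⟩
  refine (jn_row C (by omega) cl (by omega) fun c' k1 k2 => ?_).trans C
    (jn_row C (by omega) (by omega) (by omega) fun c' k1 k2 => ?_).symm (by omega) (by omega)
  · exact ring_lv O Y C j0 jm hτ le_rfl (by omega) (by omega) (by omega) (Or.inl rfl)
      fun _ => mi c' k1 (by omega)
  · exact ring_lv O Y C j0 jm hτ le_rfl (by omega) (by omega) (by omega) (Or.inl rfl)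
      fun _ => gd c' (by omega) k2

theorem q2 : Q M vx ch bn t μ m ρ n j τ τ τ := by
  have Y' := Y
  obtain ⟨a1, a2, a3, a4, a5, a6⟩ := Y'
  have g0 := side_good O Y jm (c := τ) (Or.inl (by omega))
  by_cases hb : ∃ c1, τ < c1 ∧ kap bn ρ m (2 * c1) < 2 * j
  · exact q1 O Y C j0 jm hτ le_rfl g0 hb
  push Not at hb
  refine ⟨μ + 1, fun i hi => ⟨⟨by omega, by omega⟩, hb _ (by omega), ?_⟩⟩
  refine jn_row C (by omega) (by omega) (by omega) fun c' k1 k2 => ?_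
  exact ring_lv O Y C j0 jm hτ le_rfl (by omega) k1 (by omega) (Or.inl rfl)
    fun _ => k1.lt_or_eq.elim (hb c') fun e => e ▸ g0

theorem q_left (h1 : τ ≤ r) (h2 : r + τ ≤ ch.s) : Q M vx ch bn t μ m ρ n j τ r τ := by
  have a4 := Y.hμ
  refine Q.tr C (jn_col C (by omega) h1 (by omega) fun r' k1 k2 => ?_).symm (by omega) (by omega)
    (q2 O Y C j0 jm hτ)
  exact ring_lv O Y C j0 jm hτ k1 (by omega) le_rfl (by omega) (by omega)
    fun _ => side_good O Y jm (Or.inl (by omega))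

theorem q_bot (h1 : τ ≤ c) (h2 : c + τ ≤ ch.s) : Q M vx ch bn t μ m ρ n j τ (ch.s - τ) c := by
  have a4 := Y.hμ
  have a5 := Y.hs
  refine Q.tr C (jn_row C (by omega) h1 (by omega) fun c' k1 k2 => ?_).symm (by omega) (by omega)
    (q_left O Y C j0 jm hτ (by omega) (by omega))
  exact ring_lv O Y C j0 jm hτ (by omega) (by omega) k1 (by omega) (by omega) fun _ => by omega

theorem q_right (h1 : τ ≤ r) (h2 : r + τ ≤ ch.s) : Q M vx ch bn t μ m ρ n j τ r (ch.s - τ) := by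
  have a4 := Y.hμ
  refine Q.tr C (jn_col C (r' := ch.s - τ) (by omega) (by omega) (by omega) fun r' k1 k2 => ?_)
    (by omega) (by omega) (q_bot O Y C j0 jm hτ (by omega) (by omega))
  exact ring_lv O Y C j0 jm hτ (by omega) (by omega) (by omega) (by omega) (by omega)
    fun _ => side_good O Y jm (Or.inr (by omega))

theorem q_top (h1 : τ ≤ c) (h2 : c + τ ≤ ch.s) (hg : 2 * j ≤ kap bn ρ m (2 * c)) :
    Q M vx ch bn t μ m ρ n j τ τ c := by
  by_cases hb : ∃ c1, c < c1 ∧ kap bn ρ m (2 * c1) < 2 * j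
  · exact q1 O Y C j0 jm hτ h1 hg hb
  push Not at hb
  refine Q.tr C (jn_row C (c' := ch.s - τ) (by omega) (by omega) (by omega) fun c' k1 k2 => ?_)
    (by omega) (by omega) (q_right O Y C j0 jm hτ le_rfl (by omega))
  exact ring_lv O Y C j0 jm hτ le_rfl (by omega) (by omega) (by omega) (Or.inl rfl)
    fun _ => k1.lt_or_eq.elim (hb c') fun e => e ▸ hg

omit j0 in
theorem col_lv (h1 : t ≤ r) (h2 : r ≤ τ) (h2' : τ < t + m) (hk : kap bn ρ m (2 * c) = 2 * j) :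
    ch.cen μ c ∧ ch.cell r c ⊆ Lv M vx ch bn t m ρ j := by
  obtain ⟨b, -, e, g1, g2, g3, g4⟩ := kle O Y jm hk.le
  have k : ch.cen μ c := ⟨by omega, by omega⟩
  refine ⟨k, fun v h => ?_⟩
  obtain ⟨k1, k2⟩ := down_ht O Y C h1 (by omega) k h
  exact ⟨k1, by omega⟩

theorem q_col (h1 : t ≤ r) (h2 : r ≤ τ) (hk : kap bn ρ m (2 * c) = 2 * j) :
    Q M vx ch bn t μ m ρ n j τ r c := by
  have a4 := Y.hμ
  obtain ⟨⟨b1, b2⟩, -⟩ := col_lv O Y C jm hτ h1 h2 (by omega) hk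
  exact Q.tr C (jn_col C (by omega) h2 (by omega) fun r' k1 k2 =>
    (col_lv O Y C jm hτ (by omega) k2 (by omega) hk).2) (by omega) (by omega)
    (q_top O Y C j0 jm hτ (by omega) (by omega) hk.ge)

theorem reach (hv : v ∈ Lv M vx ch bn t m ρ j) : ∃ r c, ∃ u ∈ ch.cell r c,
    Link (M.gph vx) (Lv M vx ch bn t m ρ j) v u ∧ Q M vx ch bn t μ m ρ n j τ r c := by
  have Y' := Y
  obtain ⟨a1, a2, a3, a4, a5, a6⟩ := Y'
  have e0 : ht ch bn t m ρ v = 2 * j := hv.2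
  rcases ht_val ch bn t m ρ v with ⟨b, hb, i, hi, k, e⟩ | ⟨b, hb, i, hi, k, e⟩ | ⟨k, e⟩ | ⟨-, e⟩
  · obtain ⟨c1, c2⟩ := O.conn b hb i hi
    obtain ⟨x, hx, u, hu, a⟩ := c2 false
    have sub : bn.St b i ⊆ Lv M vx ch bn t m ρ j := fun z hz =>
      ⟨(O.sub b hb (Or.inl ⟨i, hi, hz⟩)).1.1.1, by rw [ht_st O hb hi hz]; omega⟩
    have hk : kap bn ρ m (2 * bn.col b false i) = 2 * j := by
      have := inside (mn O b hb false) a6 hi (d := j) (by omega) (by omega)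
      exact le_antisymm (kap_le (e := false) hb (by omega) (by omega))
        (kap_ge O Y (e := false) hb le_rfl (Nat.le_succ i) hi (by omega) (by omega) jm.le
          (by omega) (by omega))
    exact ⟨t, _, u, hu, ((c1.2 v k x hx).mono sub).trans (Link.single (sub hx)
      ((col_lv O Y C jm hτ le_rfl (by omega) (by omega) hk).2 hu) a),
      q_col O Y C j0 jm hτ le_rfl (by omega) hk⟩
  · unfold dl at e
    omega
  · obtain ⟨h0, h1, h2, h3, h4⟩ := k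
    have par := (C.le v h0).2.2
    have fin : ∀ r c, ch.x v = 2 * r → ch.y v = 2 * c → Q M vx ch bn t μ m ρ n j τ r c →
        ∃ r c, ∃ u ∈ ch.cell r c, Link (M.gph vx) (Lv M vx ch bn t m ρ j) v u ∧
          Q M vx ch bn t μ m ρ n j τ r c := fun r c e1 e2 q =>
      ⟨r, c, v, ⟨h0, e1.ge, e1.le, e2.ge, e2.le⟩, Link.refl _ _ _, q⟩
    have sv := hc_spec ch.s (t + m) (kap bn ρ m) (ch.x v) (ch.y v)
    by_cases q : rd ch.s (t + m) (ch.x v) (ch.y v) = 2 * j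
    · have hg : ch.x v < 2 * (t + m) → 2 * j ≤ kap bn ρ m (ch.y v) := by omega
      clear sv e e0
      have q1 := q.le
      have q2 := q.ge
      simp only [rd, max_le_iff, le_max_iff] at q1 q2
      obtain ⟨⟨b1, b2⟩, b3, b4⟩ := q1
      clear q
      have ev : ch.x v % 2 = 0 := by omega
      obtain ⟨r, hr⟩ : ∃ r, ch.x v = 2 * r := ⟨ch.x v / 2, by omega⟩
      obtain ⟨c, hc⟩ : ∃ c, ch.y v = 2 * c := ⟨ch.y v / 2, by omega⟩
      refine fin r c hr hc ?_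
      rcases q2 with (q2 | q2) | q2 | q2
      · obtain rfl : r = τ := by omega
        exact q_top O Y C j0 jm hτ (by omega) (by omega) (hc ▸ hg (by omega))
      · obtain rfl : r = ch.s - τ := by omega
        exact q_bot O Y C j0 jm hτ (by omega) (by omega)
      · obtain rfl : c = τ := by omega
        exact q_left O Y C j0 jm hτ (by omega) (by omega)
      · obtain rfl : c = ch.s - τ := by omega
        exact q_right O Y C j0 jm hτ (by omega) (by omega)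
    · have hk : kap bn ρ m (ch.y v) = 2 * j := by omega
      have hr : 2 * j ≤ rd ch.s (t + m) (ch.x v) (ch.y v) ∧ ch.x v < 2 * (t + m) := by omega
      clear sv e e0 q
      obtain ⟨b, hb, e, g1, g2, g3, g4⟩ := kle O Y jm hk.le
      have ev : ch.y v % 2 = 0 := by
        by_contra n
        have := kap_lt (m := m) (y := ch.y v) (ρ := ρ) (j := j) (e := e) hb j0 (by omega) (by omega)
        omega
      obtain ⟨r, hr'⟩ : ∃ r, ch.x v = 2 * r := ⟨ch.x v / 2, by omega⟩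
      obtain ⟨c, hc⟩ : ∃ c, ch.y v = 2 * c := ⟨ch.y v / 2, by omega⟩
      refine fin r c hr' hc (q_col O Y C j0 jm hτ (by omega) ?_ (hc ▸ hk))
      simp only [rd, le_max_iff] at hr
      omega
  · omega

end rsh

open rsh

theorem shellS (hC : CoreS) : ShellS := by
  intro k q g Φ V M vx H B ch bn t μ m ρ R n S O a1 a2 a3 a4 a5 a6
  have Y : Hy ch.s bn.w t μ m ρ R n := ⟨a1, a2, a3, a4, a5, a6⟩
  have C := S.ch
  have hB := S.model
  have fit := C.fit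
  have : ∀ c, ∃ a f, c ≤ ch.s → a ∈ br B ch (t + m - 1) c ∧ f ∈ br B ch (t + m) c ∧
      (M.gph vx).Adj a f := by
    intro c
    obtain ⟨a, ha, f, hf, e⟩ := br_ver C hB (r := t + m - 1) (c := min c ch.s) (by omega)
      (min_le_right _ _)
    refine ⟨a, f, fun h => ?_⟩
    rw [min_eq_left h] at ha hf
    rw [show t + m - 1 + 1 = t + m by omega] at hf
    exact ⟨ha, hf, e⟩
  choose a f haf using this
  have ac : ∀ c, ch.cen μ c → a c ∈ ch.cell (t + m - 1) c ∧ ch.y (a c) / 2 = c := by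
    intro c ⟨h1, h2⟩
    have := br_sub C (by omega) (by omega) (haf c (by omega)).1
    refine ⟨this, ?_⟩
    obtain ⟨-, -, -, b1, b2⟩ := this
    omega
  refine ⟨a '' {c | ch.cen μ c ∧ 0 < kap bn ρ m (2 * c)}, ht ch bn t m ρ,
    fun v => f (ch.y v / 2), fun v => ch.y v / 2, ⟨fun v => ⟨of_zero O Y C, fun h => zero_of O Y h.2⟩,
    step O Y C, fun v => hole O C, ?_, fun X h1 h2 => ?_, fun X h1 h2 => ?_⟩, ?_, ?_, ?_⟩
  · rintro _ ⟨c, ⟨h1, h2⟩, rfl⟩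
    obtain ⟨k1, k2⟩ := down_ht O Y C (by omega) (by omega) h1 (ac c h1).1
    exact ⟨k1, by omega, by omega⟩
  · obtain ⟨i, j, h3, v, h4, h5⟩ :=
      (hC k q g Φ V M vx H B ch (t + m) S (by omega)).2.2.2.2.1 n (by omega) X h1 h2
    exact ⟨i, j, h3, v, h4, Or.inl h5⟩
  · obtain ⟨i, hi, hX⟩ := pigeon h1 h2 (fun i => Lv M vx ch bn t m ρ (R + 1 + i))
      fun i _ j _ v e1 e2 => by have := e1.2.symm.trans e2.2; omega
    refine ⟨R + 1 + i, by omega, by omega, fun v hv e => ⟨disjoint_left.1 hX ⟨hv, e⟩, ?_⟩⟩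
    obtain ⟨r, c, u, hu, lk, c0, hq⟩ := reach O Y C (j := R + 1 + i) (τ := t + m - (R + 1 + i))
      (by omega) (by omega) (by omega) ⟨hv, e⟩
    have un : ∀ p p' v, v ∈ B p → v ∈ B p' → p = p' := fun p p' v e1 e2 =>
      by_contra fun n => disjoint_left.1 (hB.2.2.1 p p' n) e1 e2
    obtain ⟨x, hx, hxX⟩ := pigeon h1 h2
      (fun x => {v | ∃ p : Fin g × Fin g, (p.2 : ℕ) = ch.j0 + (c0 + x) ∧ v ∈ B p}) (by
        rintro i - j - v ⟨p, e1, e2⟩ ⟨p', e3, e4⟩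
        obtain rfl := un p p' v e2 e4
        omega)
    obtain ⟨z, hz, hzX⟩ := pigeon h1 h2
      (fun x => {v | ∃ p : Fin g × Fin g, (p.1 : ℕ) = x ∧ v ∈ B p}) (by
        rintro i - j - v ⟨p, e1, e2⟩ ⟨p', e3, e4⟩
        obtain rfl := un p p' v e2 e4
        omega)
    obtain ⟨ce, gd, jn⟩ := hq x hx
    obtain ⟨ce1, ce2⟩ := id ce
    have bX : ∀ r, ∀ w ∈ br B ch r (c0 + x), w ∉ X := fun r w ⟨p, _, e1, e2⟩ =>
      disjoint_left.1 hxX ⟨p, e1, e2⟩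
    have am := (haf (c0 + x) (by omega)).1
    refine ⟨a (c0 + x), ⟨c0 + x, ⟨ce, by omega⟩, rfl⟩, bX _ _ am, ?_, ⟨z, by omega⟩,
      ⟨ch.j0 + (c0 + x), by omega⟩, disjoint_left.2 fun w hw => ?_, ?_⟩
    · have LX : Lv M vx ch bn t m ρ (R + 1 + i) ⊆ M.mid vx (ht ch bn t m ρ) m \ X :=
        fun w hw => ⟨⟨hw.1, by have := hw.2; omega, by have := hw.2; omega⟩,
          disjoint_left.1 hX hw⟩
      have le : t + m - (R + 1 + i) ≤ t + m - 1 := by omega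
      have cn := conn_chain (G := M.gph vx) (S := fun r => br B ch r (c0 + x)) le
        (fun r hr => br_conn C hB (by have := hr.2; omega) (by omega))
        fun r _ h2 => Or.inr (br_ver C hB (by omega) (by omega))
      obtain ⟨w, hw⟩ := (br_conn C hB (r := t + m - (R + 1 + i)) (c := c0 + x) (by omega)
        (by omega)).1
      refine ((lk.trans (jn u hu w (br_sub C (by omega) (by omega) hw))).mono LX).trans
        ((cn.2 w (mem_biUnion (left_mem_Icc.2 le) hw) _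
          (mem_biUnion (right_mem_Icc.2 le) am)).mono (iUnion₂_subset fun r hr w hw => ?_))
      obtain ⟨r1, r2⟩ := hr
      obtain ⟨k1, k2⟩ := down_ht O Y C (r := r) (by omega) (by omega) ce
        (br_sub C (by omega) (by omega) hw)
      exact ⟨⟨k1, by omega, by omega⟩, bX r w hw⟩
    · obtain ⟨l, hw | hw⟩ := mem_iUnion.1 hw
      · exact disjoint_left.1 hzX ⟨_, rfl, hw⟩
      · exact disjoint_left.1 hxX ⟨_, rfl, hw⟩
    · rw [br_eq C (by omega) (by omega)] at am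
      exact mem_iUnion.2 ⟨_, Or.inr am⟩
  · rintro v (h | h)
    · exact inn_of Y (by rw [(of_zero O Y C h).2]; omega)
    · exact inn_of Y h.2.2
  · rintro _ ⟨c, h, rfl⟩ _ ⟨c', h', rfl⟩ e
    have : c = c' := ((ac c h.1).2.symm.trans e).trans (ac c' h'.1).2
    rw [this]
  · rintro _ ⟨c, ⟨h1, h2⟩, rfl⟩
    simp only [(ac c h1).2]
    obtain ⟨b1, b2⟩ := id h1
    refine ⟨⟨h1, fun b hb e => ?_⟩, br_sub C (by omega) (by omega) (haf c (by omega)).2.1,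
      (haf c (by omega)).2.2⟩
    rw [(lo_ext a6).1, (lo_ext a6).2]
    by_contra n
    have := kap_le (bn := bn) (m := m) (y := 2 * c) (ρ := ρ) (j := 0) (e := e) hb (by omega)
      (by omega)
    omega

end Pool.Agent.MP_9d78a0_co.gm

end MrgPart1

-- marker of a merged file
example : 731051 + 249211 = 731051 + 249211 := rfl
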