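import Pool.Agent.MP_9d78a0_co.gm.RWordC
import Pool.Agent.MP_9d78a0_co.gm.CSame

-- ======== part 0: formerly Pool.Agent.MP_9d78a0_co.gm.RAsm
section MrgPart0

/-! Routing: the assembly. -/

set_option autoImplicit false

namespace Pool.Agent.MP_9d78a0_co.gm

open Set Function

namespace RAsm

variable {Φ V : Type} {M : FM Φ} {vx : Φ → V} {H : Set V}

theorem es_ind (hM : M.Ok) (hl : M.Lbl vx) (K : Set V) : M.Es (M.ind vx K) := by
  refine ⟨fun _ h => h.1, fun f hf => ⟨⟨(hM.ia f hf.1).1, hf.2.2, ?_⟩, (hM.ic f hf.1).1, ?_, ?_⟩⟩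
  · rw [(hM.ia f hf.1).2.1]
    exact hf.2.1
  · rw [Gph.vx_c hM hl hf.1]
    exact hf.2.1
  · rw [(hM.ac f hf.1).1, Gph.vx_c hM hl (hM.ia f hf.1).1]
    exact hf.2.2

theorem el_of_link (hM : M.Ok) {D : Set V} {E : Set Φ} (hE : M.ind vx D ⊆ E) {u v : V}
    (h : Link (M.gph vx) D u v) : M.EL vx E univ u v := by
  induction h with
  | refl => exact Relation.ReflTransGen.refl
  | tail _ e ih =>
    obtain ⟨hu, hv, -, x, hx, ⟨rfl, rfl⟩ | ⟨rfl, rfl⟩⟩ := e
    · exact ih.tail ⟨trivial, trivial, x, hE ⟨hx, hu, hv⟩, rfl, rfl⟩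
    · have e2 : vx (M.a (M.a x)) = vx x := by rw [(hM.ia x hx).2.1]
      exact ih.tail ⟨trivial, trivial, M.a x, hE ⟨(hM.ia x hx).1, hu, e2 ▸ hv⟩, rfl, e2⟩

theorem prot_sub {g : ℕ} {B : Fin g × Fin g → Set V} {ch : Ch V} {bn : Bn V} {t μ : ℕ}
    (hc : ch.Ok M vx H B) (hb : bn.Ok ch M vx H t μ) :
    bn.prot ch t ⊆ M.tv vx H \ M.rad vx H := by
  rintro v (hv | ⟨b, h1, h2⟩)
  · exact hc.sub hv.1
  · exact (hb.sub b h1 h2).1

/-- the core with the first strand of every band -/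
def U0 (ch : Ch V) (bn : Bn V) (t : ℕ) : Set V := ch.core t ∪ {v | ∃ b < bn.r, v ∈ bn.St b 0}

theorem cell_segA (ch : Ch V) (bn : Bn V) (t b : ℕ) (e : Bool) :
    ch.cell t (bn.col b e 0) ⊆ bn.segA ch t b e := by
  rintro v ⟨h0, h1, h2, h3, h4⟩
  have k1 : bn.lo b e ≤ bn.col b e 0 := min_le_left _ _
  have k2 : bn.col b e 0 ≤ bn.hi b e := le_max_left _ _
  exact ⟨h0, h1, h2, by omega, by omega⟩

theorem frame (hCo : CoreS) (hF : FarRS) {k q g n R m t μ : ℕ} {B : Fin g × Fin g → Set V}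
    {ch : Ch V} {bn : Bn V} {A : Set V} {ht : V → ℕ} (hst : Stg k q M vx H B ch)
    (hb : bn.Ok ch M vx H t μ) (hth : bn.Thin ch M vx H t) (htμ : t < μ)
    (hs : 2 * μ + n ≤ ch.s) (hs' : 2 * μ < ch.s)
    (hsh : M.Shell vx B H (bn.prot ch t) A ht R n m) (hR : R ≤ n) :
    M.Frame vx B H R (U0 ch bn t) := by
  obtain ⟨c1, -, -, -, c5, -⟩ := hCo k q g Φ V M vx H B ch t hst (by omega)
  have hw : 0 < bn.w := by have := hb.two; omega
  have hcc : ∀ b < bn.r, ∀ e, ch.cell t (bn.col b e 0) ⊆ ch.core t := fun b h e =>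
    RIter.cell_core ch htμ hs' (hb.cen b h e 0 hw)
  have hU : U0 ch bn t ⊆ bn.prot ch t := by
    rintro v (hv | ⟨b, h1, h2⟩)
    · exact Or.inl hv
    · exact Or.inr ⟨b, h1, Or.inl ⟨0, hw, h2⟩⟩
  have hUt : U0 ch bn t ⊆ M.tv vx H := fun v hv => (prot_sub hst.ch hb (hU hv)).1
  refine hF n R m g Φ V M vx H _ A _ ht B hst.hm hst.model hsh hR hU ?_ ?_ ?_ ?_
  · obtain ⟨x, hx⟩ := c1.1
    refine fb.conn_of_center (a := x) (Or.inl hx) ?_
    rintro v (hv | ⟨b, h1, h2⟩)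
    · exact (c1.2 x hx v hv).mono subset_union_left
    · obtain ⟨k1, k2⟩ := hb.conn b h1 0 hw
      have k3 := fb.conn_union_touch k1 c1 ((k2 false).mono Subset.rfl (hcc b h1 false))
      refine (k3.2 x (Or.inr hx) v (Or.inl h2)).mono ?_
      rintro z (hz | hz)
      · exact Or.inr ⟨b, h1, hz⟩
      · exact Or.inl hz
  · refine hth (M.ind vx (U0 ch bn t)) (es_ind hst.hm.ok hst.hm.lbl _)
      (fun f hf => ⟨hf.1, Or.inl hf.2.1, Or.inl hf.2.2⟩)
      (fun f hf => ⟨hf.1, hUt hf.2.1, hUt hf.2.2⟩) fun b h1 => ?_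
    obtain ⟨k1, k2⟩ := hb.conn b h1 0 hw
    obtain ⟨x, hx, u, hu, e1⟩ := k2 false
    obtain ⟨y, hy, v, hv, e2⟩ := k2 true
    refine ⟨u, cell_segA ch bn t b false hu, v, cell_segA ch bn t b true hv, ?_⟩
    have hD1 : bn.St b 0 ∪ {u, v} ⊆ U0 ch bn t := by
      rintro z (hz | rfl | rfl)
      · exact Or.inr ⟨b, h1, hz⟩
      · exact Or.inl (hcc b h1 false hu)
      · exact Or.inl (hcc b h1 true hv)
    have hD2 : bn.St b 0 ∪ {u, v} ⊆ bn.disc ch t b := by
      rintro z (hz | rfl | rfl)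
      · exact Or.inl (Or.inl (Or.inl ⟨0, hw, hz⟩))
      · exact Or.inl (Or.inr (cell_segA ch bn t b false hu))
      · exact Or.inr (cell_segA ch bn t b true hv)
    have hE : M.ind vx (bn.St b 0 ∪ {u, v}) ⊆
        M.ind vx (U0 ch bn t) ∩ M.ind vx (bn.disc ch t b) :=
      fun f hf => ⟨⟨hf.1, hD1 hf.2.1, hD1 hf.2.2⟩, hf.1, hD2 hf.2.1, hD2 hf.2.2⟩
    have l1 : Link (M.gph vx) (bn.St b 0 ∪ {u, v}) u x :=
      Link.single (Or.inr (Or.inl rfl)) (Or.inl hx) e1.symm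
    have l2 : Link (M.gph vx) (bn.St b 0 ∪ {u, v}) y v :=
      Link.single (Or.inl hy) (Or.inr (Or.inr rfl)) e2
    exact el_of_link hst.hm.ok hE ((l1.trans ((k1.2 x hx y hy).mono subset_union_left)).trans l2)
  · intro X h1 h2
    obtain ⟨i, j, k1, k2⟩ := c5 n (by omega) X h1 h2
    exact ⟨i, j, k1, k2.mono (inter_subset_inter_right _ subset_union_left)⟩
  · obtain ⟨f1, f2⟩ := hst.ch.fit
    refine ⟨ch.i0 + t, ch.j0 + t, by omega, by omega, fun i j k1 k2 k3 k4 v hv => Or.inl ?_⟩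
    obtain ⟨h0, h1, h2, h3, h4⟩ := hst.ch.br (i - ch.i0) (by omega) (j - ch.j0) (by omega) (i, j)
      (by simp only; omega) (by simp only; omega) hv
    exact ⟨h0, by omega, by omega, by omega, by omega⟩

/-- the bound of the drawings -/
def Cls (N n : ℕ) : Prop :=
  ∀ (Φ Ψ U : Type) (W : FM Φ) (W' : FM Ψ) (Hf : Set Φ) (Hf' : Set Ψ)
    (L : List Φ) (L' : List Ψ) (μ : Ψ → Φ) (ν : Φ → U) (ν' : Ψ → U) (n' : ℕ), W.S.ncard ≤ N →
    W.Star Hf L → W'.Star Hf' L' → BijOn μ Hf' Hf →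
    (∀ p ∈ Hf', μ (W'.b p) = W.b (μ p) ∧ μ (W'.c p) = W.c (μ p)) → W'.eg = W.eg →
    (((¬ ∃ o, W.Ori o) ∧ ¬ ∃ o, W'.Ori o) ∨
      ∃ o o', W.Ori o ∧ W'.Ori o' ∧ ∀ p ∈ Hf', o' p ↔ o (μ p)) →
    (∀ p ∈ Hf', ν (μ p) = ν' p) → W'.Draw Hf' L' n' ν' → W.Draw Hf L n ν

theorem route (hM : MengS) (hT : TgtS) (hS : SrcS) (hD : DrawRS) {k q g n n1 N R m t μ : ℕ}
    {B : Fin g × Fin g → Set V} {ch : Ch V} {bn : Bn V} {A : Set V} {ht : V → ℕ} {ft : V → V}
    {cA : V → ℕ} (hC : Cls (4 * (2 * k + q + 1) + 2 * N) n1) (hst : Stg k q M vx H B ch)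
    (hb : bn.Ok ch M vx H t μ) (hth : bn.Thin ch M vx H t) (h1t : 1 ≤ t) (htμ : t < μ)
    (hs' : 2 * μ < ch.s) (hr : bn.r ≤ 2 * k + q + 1) (hw : n1 ≤ bn.w)
    (hsh : M.Shell vx B H (bn.prot ch t) A ht R n m) (hN : N ≤ n) (hinj : InjOn cA A)
    (hA : ∀ a ∈ A, bn.free ch μ (cA a) ∧ ft a ∈ ch.cell t (cA a) ∧ (M.gph vx).Adj a (ft a)) :
    M.Route vx B H N := by
  intro Ψ U ι S sx Mk μ' τ σ T hcard hmat hT1 hT2 hσ1 hσ2 hfree
  have hab : ∀ x ∈ S.S, sx x ∉ Mk → S.a x ∈ S.fl sx Mk := fun x hx h =>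
    ⟨(hmat.ok.ia x hx).1, by
      by_contra h2
      exact h ((hmat.bip x hx).2 h2)⟩
  have hnode : ∀ u ∈ sx '' S.S \ Mk, ∃ f ∈ S.fl sx Mk, sx (S.a f) = u := by
    rintro _ ⟨⟨x, hx, rfl⟩, h⟩
    exact ⟨S.a x, hab x hx h, by rw [(hmat.ok.ia x hx).2.1]⟩
  rcases (S.fl sx Mk).eq_empty_or_nonempty with he | ⟨f0, -⟩
  · refine ⟨fun _ => ∅, fun u hu => ?_, fun u hu => ?_, fun f hf => ?_⟩
    · obtain ⟨f, hf, -⟩ := hnode u hu
      exact (he ▸ hf : f ∈ (∅ : Set Ψ)).elim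
    · obtain ⟨f, hf, -⟩ := hnode u hu
      exact (he ▸ hf : f ∈ (∅ : Set Ψ)).elim
    · exact (he ▸ hf : f ∈ (∅ : Set Ψ)).elim
  have : Nonempty Ψ := ⟨f0⟩
  have hfin : (S.fl sx Mk).Finite := hmat.ok.fin.subset fun _ h => h.1
  have hflN : (S.fl sx Mk).ncard ≤ N :=
    (ncard_le_ncard (fun _ h => h.1) hmat.ok.fin).trans hcard
  have hflb : ∀ f ∈ S.fl sx Mk, S.b f ∈ S.fl sx Mk := fun f hf =>
    ⟨(hmat.ok.ib f hf.1).1, by rw [Gph.vx_b hmat.ok hmat.lbl hf.1]; exact hf.2⟩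
  have hflc : ∀ f ∈ S.fl sx Mk, S.c f ∈ S.fl sx Mk := fun f hf =>
    ⟨(hmat.ok.ic f hf.1).1, by rw [Gph.vx_c hmat.ok hmat.lbl hf.1]; exact hf.2⟩
  obtain ⟨Q, hQ1, hQ2⟩ := hM n R m g Φ V ι M vx H _ A T ht B (τ '' S.fl sx Mk) σ hst.hm hst.model
    hsh (hfin.image τ) (((ncard_image_le hfin).trans hflN).trans hN) hT1 hT2 hσ1 hσ2 hfree
  have hVn : Nonempty V := ⟨vx (μ' f0)⟩
  choose! pg hpg using fun i (hi : i ∈ τ '' S.fl sx Mk) => (hQ1 i hi).2.2.2
  set Sp := μ' '' S.fl sx Mk with hSp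
  set iv := invFunOn μ' (S.fl sx Mk) with hiv
  have hl : ∀ f ∈ S.fl sx Mk, iv (μ' f) = f := fun f hf => hmat.inj.leftInvOn_invFunOn hf
  have htrm : Trm M vx H ch bn t μ Sp (fun p => τ (iv p)) Q (fun i => cA (pg i)) := by
    refine ⟨?_, ?_, ?_, ?_, ?_, ?_⟩
    · rintro _ ⟨f, hf, rfl⟩
      exact hmat.mem f hf
    · rintro _ ⟨f, hf, rfl⟩
      exact ⟨S.c f, hflc f hf, hmat.mc f hf⟩
    · rintro _ ⟨f, hf, rfl⟩ _ ⟨f', hf', rfl⟩
      rw [hl f hf, hl f' hf', hmat.term f hf f' hf', ← hmat.mc f hf]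
      constructor
      · rintro (rfl | rfl)
        exacts [Or.inl rfl, Or.inr rfl]
      · exact Or.imp (hmat.inj hf' hf) (hmat.inj hf' (hflc f hf))
    · rintro _ ⟨f, hf, rfl⟩
      rw [hl f hf]
      exact (hQ1 _ ⟨f, hf, rfl⟩).2.1 (hmat.land f hf)
    · rintro _ ⟨f, hf, rfl⟩
      rw [hl f hf]
      obtain ⟨k1, -, k3, -⟩ := hQ1 _ ⟨f, hf, rfl⟩
      obtain ⟨k5, k6⟩ := hpg _ ⟨f, hf, rfl⟩
      refine ⟨k1, fun v hv => ⟨?_, (k3 hv).2⟩, (hA _ k6).1, _, k5, _, (hA _ k6).2.1, (hA _ k6).2.2⟩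
      rcases (k3 hv).1 with h | h
      · exact hT2 h
      · exact ((hσ1 _ ⟨f, hf, rfl⟩).2 h).1
    · rintro _ ⟨f, hf, rfl⟩ _ ⟨f', hf', rfl⟩
      rw [hl f hf, hl f' hf']
      intro hne
      have k := hQ2 _ ⟨f, hf, rfl⟩ _ ⟨f', hf', rfl⟩ hne
      refine ⟨k, fun e => ?_⟩
      have e2 := hinj (hpg _ ⟨f, hf, rfl⟩).2 (hpg _ ⟨f', hf', rfl⟩).2 e
      exact Set.disjoint_left.1 k (hpg _ ⟨f, hf, rfl⟩).1 (e2 ▸ (hpg _ ⟨f', hf', rfl⟩).1)
  obtain ⟨W, L, fl, key, w1, w2, w3, w4, w5, w6, w7⟩ := hT k q g Φ V ι M vx H B ch bn t μ Sp _ Q _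
    hst hb hth h1t htμ hs' htrm
  obtain ⟨Ψ', W', L', j, ν', s1, s2, s3, s4, s5, s6, s7⟩ := hS Ψ U S sx Mk hmat.ok hmat.lbl
    hmat.con hmat.bip
  set jv := invFunOn j (S.fl sx Mk) with hjv
  have hj : ∀ f ∈ S.fl sx Mk, jv (j f) = f := fun f hf => s1.leftInvOn_invFunOn hf
  have hSpN : Sp.ncard ≤ N := (ncard_image_le hfin).trans hflN
  have hdraw : W.Draw Sp L n1 fun p => sx (S.a (iv p)) := by
    refine hC Φ Ψ' U W W' Sp (j '' S.fl sx Mk) L L' (fun x => μ' (jv x)) _ ν' 1 (by omega) w1 s2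
      ⟨?_, ?_, ?_⟩ ?_ (by rw [s3, w4, hmat.eg]) ?_ ?_ s7
    · rintro _ ⟨f, hf, rfl⟩
      exact ⟨f, hf, by simp only [hj f hf]⟩
    · rintro _ ⟨f, hf, rfl⟩ _ ⟨f', hf', rfl⟩ e
      simp only [hj f hf, hj f' hf'] at e
      rw [hmat.inj hf hf' e]
    · rintro _ ⟨f, hf, rfl⟩
      exact ⟨j f, ⟨f, hf, rfl⟩, by simp only [hj f hf]⟩
    · rintro _ ⟨f, hf, rfl⟩
      obtain ⟨k1, k2, -⟩ := s4 f hf
      simp only [k1, k2, hj f hf, hj _ (hflb f hf), hj _ (hflc f hf)]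
      obtain ⟨k3, k4⟩ := w5 _ ⟨f, hf, rfl⟩
      refine ⟨?_, by rw [k3, hmat.mc f hf]⟩
      have m1 : μ' f ∈ W.S := w1.sub ⟨f, hf, rfl⟩
      have m2 : μ' (S.b f) ∈ W.S := w1.sub ⟨_, hflb f hf, rfl⟩
      have k5 : W.c (W.b (μ' f)) = W.c (μ' (S.b f)) := by
        rw [k4, ← hmat.mr f hf, (w5 _ ⟨_, hflb f hf, rfl⟩).1, ← hmat.mc _ (hflb f hf)]
        rfl
      rw [← (w1.ok.ic _ m2).2.1, ← k5, (w1.ok.ic _ (w1.ok.ib _ m1).1).2.1]
    · obtain ⟨ps, pt, c1, c2, c3, c4⟩ := hmat.col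
      rcases c1 with c1 | c1
      · rcases c2 with c2 | c2
        · obtain ⟨o', c5, c6⟩ := s5 ps c1
          refine Or.inr ⟨pt, o', w6 pt c2, c5, ?_⟩
          rintro _ ⟨f, hf, rfl⟩
          simp only [hj f hf]
          exact (c6 f hf).trans (c4 f hf)
        · exact (c2.1 (c3.1 ⟨ps, c1⟩)).elim
      · exact Or.inl ⟨fun h => c1.1 (c3.2 (w7 h)), fun h => c1.1 (s6 h)⟩
    · rintro _ ⟨f, hf, rfl⟩
      simp only [hj f hf, hl f hf]
      exact (s4 f hf).2.2.symm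
  obtain ⟨Y, y1, y2⟩ := hD k q g Φ V ι U M vx H B ch bn t μ n1 Sp _ Q _ W L fl key _ hst hb
    htμ.le hs' htrm w1 w2 (fun p hp => (w5 p hp).1) hw hdraw
  refine ⟨Y, fun u hu => ?_, fun u hu u' hu' hne => ?_, fun f hf => ?_⟩
  · obtain ⟨f, hf, rfl⟩ := hnode u hu
    have k := y1 _ ⟨f, hf, rfl⟩
    simp only [hl f hf] at k
    refine ⟨k.1, fun v hv => ?_⟩
    rcases k.2.2 hv with h | h
    · exact Or.inl (hT1 (prot_sub hst.ch hb h))
    · obtain ⟨_, ⟨f', hf', rfl⟩, h⟩ := mem_iUnion₂.1 h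
      rw [hl f' hf'] at h
      rcases ((hQ1 _ ⟨f', hf', rfl⟩).2.2.1 h).1 with h | h
      · exact Or.inl h
      · exact Or.inr (mem_biUnion (⟨f', hf', rfl⟩ : τ f' ∈ τ '' S.fl sx Mk) h)
  · obtain ⟨f, hf, rfl⟩ := hnode u hu
    obtain ⟨f', hf', rfl⟩ := hnode u' hu'
    have k := y2 _ ⟨f, hf, rfl⟩ _ ⟨f', hf', rfl⟩
    simp only [hl f hf, hl f' hf'] at k
    exact k hne
  · have k := y1 _ ⟨f, hf, rfl⟩
    simp only [hl f hf] at k
    exact (hQ1 _ ⟨f, hf, rfl⟩).2.1.trans k.2.1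

end RAsm

open RAsm

theorem rtAsmS : RtAsmS := by
  intro hCh hCo hI hE hSh hFu hF hM hT hS hC hD k q R N
  obtain ⟨n1, hC⟩ := hC (4 * (2 * k + q + 1) + 2 * N)
  obtain ⟨n, μ, s0, hI⟩ := hI k q (n1 + 2 + 2 * (3 * R + 2 * N + 4)) (2 * R + N + 2)
  obtain ⟨g0, hCh⟩ := hCh k q (s0 + 2 * μ + 2 * (R + N) + 4)
  refine ⟨n, g0, fun g hg Φ V M vx H B hm heg hq hB hnf => ?_⟩
  obtain ⟨ch, c1, c2⟩ := hCh g hg Φ V M vx H B hm heg hq ⟨fun w _ h => (hB.1 w h).1, hB.2⟩
  have hst : Stg k q M vx H B ch := ⟨hm, heg, hq, hB, c2⟩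
  obtain ⟨t, bn, a1, a2, a3, a4, a5, a6⟩ := hI g Φ V M vx H B ch hst (by omega) hnf
  obtain ⟨hok, hpar⟩ := hE k q g Φ V M vx H B ch bn t μ (2 * R + N + 2) (3 * R + 2 * N + 4) hst a5
    a1 (by omega) (by omega) (by omega) (by omega) (by omega)
  obtain ⟨A, ht, ft, cA, hsh, -, hinj, hA⟩ := hSh k q g Φ V M vx H B ch bn t μ (2 * R + N + 2)
    (3 * R + 2 * N + 4) R (R + N) hst a5 a1 (by omega) (by omega) (by omega) (by omega) (by omega)
  have hth := hFu k q g n Φ V M vx H B ch _ _ μ hst hnf hok (by omega) (by omega) (by omega)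
    fun β h1 h2 => a6 β h1 fun b hb => (hpar β h1 b hb 0).1 (h2 b hb)
  refine ⟨route hM hT hS hD hC hst hok hth (by omega) a2 (by omega) a4 ?_ hsh (by omega) hinj hA,
    _, frame hCo hF hst hok hth a2 (by omega) (by omega) hsh (by omega)⟩
  show n1 ≤ bn.w - 2 * (3 * R + 2 * N + 4)
  omega

end Pool.Agent.MP_9d78a0_co.gm

end MrgPart0

-- ======== part 1: formerly Pool.Agent.MP_9d78a0_co.gm.RWordA
section MrgPart1

/-! Routing (block WORDS): rotation, mirror image, deletion of an empty loop. -/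

set_option autoImplicit false

namespace Pool.Agent.MP_9d78a0_co.gm

open Set Function

namespace RWordA

theorem ncl_sub {l l' : List ℕ} (h : NCL l) (hs : l'.Sublist l) : NCL l' :=
  fun x y hxy hh => h x y hxy (hh.trans hs)

theorem ncl_rot {P R : List ℕ} (h : NCL (P ++ R)) : NCL (R ++ P) := by
  intro x y hxy hs
  obtain ⟨l1, l2, he, h1, h2⟩ := List.sublist_append_iff.1 hs
  have h3 : (l2 ++ l1).Sublist (P ++ R) := h2.append h1
  match l1, he, h3 with
  | [], he, h3 =>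
    simp only [List.nil_append] at he
    subst he
    exact h x y hxy (by simpa using h3)
  | [a], he, h3 =>
    simp only [List.cons_append, List.nil_append, List.cons.injEq] at he
    obtain ⟨rfl, rfl⟩ := he
    exact h y x hxy.symm (by simpa using h3)
  | [a, b], he, h3 =>
    simp only [List.cons_append, List.nil_append, List.cons.injEq] at he
    obtain ⟨rfl, rfl, rfl⟩ := he
    exact h x y hxy (by simpa using h3)
  | [a, b, c], he, h3 =>
    simp only [List.cons_append, List.nil_append, List.cons.injEq] at he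
    obtain ⟨rfl, rfl, rfl, rfl⟩ := he
    exact h y x hxy.symm (by simpa using h3)
  | a :: b :: c :: d :: t, he, h3 =>
    simp only [List.cons_append, List.cons.injEq] at he
    obtain ⟨rfl, rfl, rfl, rfl, he⟩ := he
    obtain ⟨rfl, rfl⟩ := List.append_eq_nil_iff.1 he.symm
    exact h x y hxy (by simpa using h3)

theorem ncl_rev {l : List ℕ} (h : NCL l) : NCL l.reverse := by
  intro x y hxy hs
  have h1 := hs.reverse
  rw [List.reverse_reverse] at h1
  exact h y x hxy.symm (by simpa using h1)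

theorem ncl_merge0 {m n : ℕ} {Q : List ℕ} (h : NCL (m :: n :: Q)) :
    NCL (Q.map fun k => if k = n then m else k) := by
  intro x y hxy hs
  obtain ⟨l, hl, he⟩ := List.sublist_map_iff.1 hs
  have key : ∀ z w : ℕ, (z = m ∨ z = n) → z ≠ w → [w, z, w].Sublist Q → False := by
    intro z w hz hzw hq
    rcases hz with rfl | rfl
    · exact h z w hzw ((hq.cons n).cons_cons z)
    · exact h z w hzw ((hq.cons_cons z).cons m)
  match l, hl, he with
  | [], _, he => simp at he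
  | [_], _, he => simp at he
  | [_, _], _, he => simp at he
  | [_, _, _], _, he => simp at he
  | _ :: _ :: _ :: _ :: _ :: _, _, he => simp at he
  | [x1, y1, x2, y2], hl, he =>
    simp only [List.map_cons, List.map_nil, List.cons.injEq, and_true] at he
    obtain ⟨e1, e2, e3, e4⟩ := he
    by_cases hx : x = m
    · have hy1 : y1 ≠ n ∧ y = y1 := by split_ifs at e2 with hh <;> omega
      have hy2 : y2 ≠ n ∧ y = y2 := by split_ifs at e4 with hh <;> omega
      have hx2 : x2 = m ∨ x2 = n := by split_ifs at e3 with hh <;> omega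
      refine key x2 y hx2 (by omega) ?_
      have : [y1, x2, y2].Sublist Q := (List.sublist_cons_self x1 _).trans hl
      rw [← hy1.2, ← hy2.2] at this
      exact this
    · have hx1 : x1 ≠ n ∧ x = x1 := by split_ifs at e1 with hh <;> omega
      have hx2 : x2 ≠ n ∧ x = x2 := by split_ifs at e3 with hh <;> omega
      by_cases hy : y = m
      · have hy1 : y1 = m ∨ y1 = n := by split_ifs at e2 with hh <;> omega
        refine key y1 x hy1 (by omega) ?_
        have : [x1, y1, x2].Sublist Q :=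
          (List.sublist_append_left [x1, y1, x2] [y2]).trans hl
        rw [← hx1.2, ← hx2.2] at this
        exact this
      · have hy1 : y = y1 := by split_ifs at e2 with hh <;> omega
        have hy2 : y = y2 := by split_ifs at e4 with hh <;> omega
        rw [← hx1.2, ← hx2.2, ← hy1, ← hy2] at hl
        exact h x y hxy ((hl.cons n).cons m)

theorem ncl_merge1 {m n : ℕ} {X Q : List ℕ} (h : NCL (X ++ m :: n :: Q)) :
    NCL ((X ++ Q).map fun k => if k = n then m else k) := by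
  have h1 : NCL (m :: n :: (Q ++ X)) := ncl_rot h
  have h2 := ncl_merge0 h1
  rw [List.map_append] at h2 ⊢
  exact ncl_rot h2

theorem ncl_merge {E : ℕ → ℕ → Prop} (hE : Equivalence E) :
    ∀ (k : ℕ) (F G X Q : List ℕ), F.length = k → G.length = k →
      (∀ p ∈ F.zip G, E p.1 p.2) → NCL (X ++ (F.reverse ++ (G ++ Q))) →
      ∃ ρ : ℕ → ℕ, NCL ((X ++ Q).map ρ) ∧ F.map ρ = G.map ρ ∧ ∀ j, E j (ρ j) := by
  intro k
  induction k with
  | zero =>
    intro F G X Q hF hG _ h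
    obtain rfl := List.length_eq_zero_iff.1 hF
    obtain rfl := List.length_eq_zero_iff.1 hG
    exact ⟨id, by simpa using h, rfl, fun j => hE.refl j⟩
  | succ k ih =>
    intro F G X Q hF hG hz h
    obtain ⟨m, F', rfl⟩ := List.exists_cons_of_length_eq_add_one hF
    obtain ⟨n, G', rfl⟩ := List.exists_cons_of_length_eq_add_one hG
    have hmn : E m n := hz (m, n) (by simp)
    set r : ℕ → ℕ := fun j => if j = n then m else j with hr
    have hr1 : ∀ j, E j (r j) := by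
      intro j
      by_cases hj : j = n
      · subst hj
        simpa [hr] using hE.symm hmn
      · simpa [hr, hj] using hE.refl j
    have h1 : NCL ((X ++ F'.reverse) ++ m :: n :: (G' ++ Q)) := by simpa using h
    have h2 : NCL (X.map r ++ ((F'.map r).reverse ++ (G'.map r ++ Q.map r))) := by
      simpa [hr] using ncl_merge1 h1
    obtain ⟨ρ, a1, a2, a3⟩ := ih (F'.map r) (G'.map r) (X.map r) (Q.map r) (by simpa using hF)
      (by simpa using hG) (by
        intro p hp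
        rw [List.zip_map] at hp
        obtain ⟨q, hq, rfl⟩ := List.mem_map.1 hp
        have h3 : E q.1 q.2 := hz q (by simp [hq])
        exact hE.trans (hE.symm (hr1 q.1)) (hE.trans h3 (hr1 q.2))) h2
    refine ⟨ρ ∘ r, by simpa using a1, ?_, fun j => hE.trans (hr1 j) (a3 (r j))⟩
    have e : r m = r n := by simp [hr]
    simp only [List.map_cons, comp_apply, e, List.cons.injEq, true_and]
    simpa using a2

theorem eqv_map {r r' : ℕ → ℕ → Prop} {f : ℕ → ℕ}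
    (h : ∀ x y, r x y → Relation.EqvGen r' (f x) (f y)) {x y : ℕ} (hxy : Relation.EqvGen r x y) :
    Relation.EqvGen r' (f x) (f y) := by
  induction hxy with
  | rel x y hh => exact h x y hh
  | refl x => exact .refl _
  | symm x y _ ih => exact .symm _ _ ih
  | trans x y z _ _ ih1 ih2 => exact .trans _ _ _ ih1 ih2

theorem zip_eq {ρ : ℕ → ℕ} : ∀ {X Y : List ℕ}, X.map ρ = Y.map ρ → ∀ {m n : ℕ},
    (m, n) ∈ X.zip Y → ρ m = ρ n
  | [], _, _, _, _, h => by simp at h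
  | _ :: _, [], _, _, _, h => by simp at h
  | a :: X, b :: Y, he, m, n, h => by
    simp only [List.map_cons, List.cons.injEq] at he
    simp only [List.zip_cons_cons, List.mem_cons, Prod.mk.injEq] at h
    rcases h with ⟨rfl, rfl⟩ | h
    · exact he.1
    · exact zip_eq he.2 h

variable {Φ : Type} (A : Al Φ)

theorem c_inj {u v : Φ} (h : A.c u = A.c v) : u = v := by
  rw [← A.cc u, h, A.cc]

theorem mem_dbl {L : List Φ} {u : Φ} : u ∈ A.dbl L ↔ u ∈ L ∨ A.c u ∈ L := by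
  unfold Al.dbl
  rw [List.mem_append, List.mem_map]
  constructor
  · rintro (h | ⟨v, hv, rfl⟩)
    · exact Or.inl h
    · exact Or.inr (by rwa [A.cc])
  · rintro (h | h)
    · exact Or.inl h
    · exact Or.inr ⟨_, h, A.cc u⟩

theorem c_dbl {L : List Φ} {u : Φ} (h : u ∈ A.dbl L) : A.c u ∈ A.dbl L := by
  rw [mem_dbl] at h ⊢
  rw [A.cc]
  exact h.symm

theorem path_append {Λ : Type} (l : Φ → Λ) : ∀ (X Y : List Φ) (p q : Λ),
    A.Path l p (X ++ Y) q ↔ ∃ m, A.Path l p X m ∧ A.Path l m Y q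
  | [], Y, p, q => by simp [Al.Path]
  | u :: X, Y, p, q => by
    simp only [List.cons_append, Al.Path, path_append l X Y]
    constructor
    · rintro ⟨h, m, h1, h2⟩
      exact ⟨m, ⟨h, h1⟩, h2⟩
    · rintro ⟨m, ⟨h, h1⟩, h2⟩
      exact ⟨h, m, h1, h2⟩

theorem path_map {Λ Λ' : Type} (l : Φ → Λ) (l1 : Φ → Λ') (f : Λ → Λ') : ∀ (X : List Φ) (p q : Λ),
    (∀ u ∈ A.dbl X, l1 u = f (l u)) → A.Path l p X q → A.Path l1 (f p) X (f q)
  | [], p, q, _, h => congrArg f h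
  | u :: X, p, q, hl, h => by
    have h1 : u ∈ A.dbl (u :: X) := (mem_dbl A).2 (Or.inl (by simp))
    refine ⟨by rw [hl u h1, h.1], ?_⟩
    rw [hl _ (c_dbl A h1)]
    refine path_map l l1 f X _ q (fun v hv => hl v ?_) h.2
    rw [mem_dbl] at hv ⊢
    exact hv.imp (List.mem_cons_of_mem _) (List.mem_cons_of_mem _)

theorem path_inv {Λ : Type} (l : Φ → Λ) : ∀ (X : List Φ) (p q : Λ),
    A.Path l p X q → A.Path l q (A.inv X) p
  | [], p, q, h => h.symm
  | u :: X, p, q, h => by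
    have e : A.inv (u :: X) = A.inv X ++ [A.c u] := by simp [Al.inv]
    rw [e, path_append]
    exact ⟨_, path_inv l X _ q h.2, rfl, by rw [A.cc]; exact h.1⟩

theorem inv_inv (L : List Φ) : A.inv (A.inv L) = L := by
  have : A.c ∘ A.c = id := funext A.cc
  simp [Al.inv, this]

theorem dbl_inv (L : List Φ) : (A.dbl (A.inv L)).Perm (A.dbl L) := by
  have : A.c ∘ A.c = id := funext A.cc
  have e : A.dbl (A.inv L) = (L.map A.c).reverse ++ L.reverse := by simp [Al.dbl, Al.inv, this]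
  rw [e]
  exact List.perm_append_comm.trans ((List.reverse_perm _).append (List.reverse_perm _))

theorem dbl_perm {L L1 : List Φ} (h : L.Perm L1) : (A.dbl L).Perm (A.dbl L1) :=
  h.append (h.map _)

theorem wf_perm {L L1 : List Φ} (h : (A.dbl L).Perm (A.dbl L1)) (hw : A.WF L) : A.WF L1 :=
  ⟨h.nodup_iff.1 hw.1, fun u hu => h.mem_iff.1 (hw.2 u (h.mem_iff.2 hu))⟩

theorem tm_perm {L L1 : List Φ} (h : (A.dbl L).Perm (A.dbl L1)) : A.tm L1 = A.tm L := by
  ext u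
  simp only [Al.tm, mem_ofPred_eq, h.mem_iff]

theorem lk_perm {L L1 : List Φ} (h : (A.dbl L).Perm (A.dbl L1)) (φ : Φ → List ℕ) :
    A.Lk L1 φ = A.Lk L φ := by
  funext x y
  simp only [Al.Lk, h.mem_iff]

theorem fe_perm {L L1 : List Φ} (h : (A.dbl L).Perm (A.dbl L1))
    (hn : ∀ φ : Φ → List ℕ, (∀ u ∈ A.dbl L, φ (A.c u) = (φ u).reverse) → NCL (L.flatMap φ) →
      NCL (L1.flatMap φ)) {B : ℕ → Prop} {π : Φ → Φ → Prop} (hf : A.Fe B L π) : A.Fe B L1 π := by
  obtain ⟨φ, h1, h2, h3⟩ := hf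
  refine ⟨φ, fun u hu => h1 u (h.mem_iff.2 hu), hn φ (fun u hu => (h1 u hu).1) h2, ?_⟩
  rw [tm_perm A h, lk_perm A h]
  exact h3

theorem big_perm {L L1 : List Φ} (h : (A.dbl L).Perm (A.dbl L1))
    (hl : ∀ (Λ : Type) (l : Φ → Λ), A.Lab L l → A.Lab L1 l) {m : ℤ} (hb : A.Big L m) :
    A.Big L1 m := by
  obtain ⟨Λ, l, h1, h2⟩ := hb
  refine ⟨Λ, l, hl Λ l h1, ?_⟩
  have e : {u | u ∈ A.dbl L1} = {u | u ∈ A.dbl L} := by
    ext u
    simp only [mem_ofPred_eq, h.mem_iff]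
  have e1 : L1.length = L.length := by
    have := h.length_eq
    simp only [Al.dbl, List.length_append, List.length_map] at this
    omega
  rw [e, e1, tm_perm A h]
  exact h2

theorem lab_rot {Λ : Type} {l : Φ → Λ} {P R : List Φ} (h : A.Lab (P ++ R) l) :
    A.Lab (R ++ P) l := by
  obtain ⟨h1, p, hp⟩ := h
  obtain ⟨m, a1, a2⟩ := (path_append A l P R p p).1 hp
  exact ⟨h1, m, (path_append A l R P m m).2 ⟨p, a2, a1⟩⟩

theorem lab_inv {Λ : Type} {l : Φ → Λ} {L : List Φ} (h : A.Lab L l) : A.Lab (A.inv L) l := by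
  obtain ⟨h1, p, hp⟩ := h
  exact ⟨h1, p, path_inv A l L p p hp⟩

theorem flat_inv {φ : Φ → List ℕ} : ∀ {L : List Φ}, (∀ u ∈ L, φ (A.c u) = (φ u).reverse) →
    (A.inv L).flatMap φ = (L.flatMap φ).reverse
  | [], _ => by simp [Al.inv]
  | u :: X, h => by
    have e : A.inv (u :: X) = A.inv X ++ [A.c u] := by simp [Al.inv]
    rw [e, List.flatMap_append, flat_inv fun v hv => h v (List.mem_cons_of_mem _ hv)]
    simp [h u (by simp)]

theorem fe_rot {P R : List Φ} {B : ℕ → Prop} {π : Φ → Φ → Prop} (h : A.Fe B (P ++ R) π) :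
    A.Fe B (R ++ P) π := by
  refine fe_perm A (dbl_perm A List.perm_append_comm) (fun φ _ hn => ?_) h
  rw [List.flatMap_append] at hn ⊢
  exact ncl_rot hn

theorem fe_inv {L : List Φ} {B : ℕ → Prop} {π : Φ → Φ → Prop} (h : A.Fe B L π) :
    A.Fe B (A.inv L) π := by
  refine fe_perm A (dbl_inv A L).symm (fun φ hc hn => ?_) h
  rw [flat_inv A fun u hu => hc u ((mem_dbl A).2 (Or.inl hu))]
  exact ncl_rev hn

theorem mem_inv {L : List Φ} {u : Φ} : u ∈ A.inv L ↔ A.c u ∈ L := by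
  unfold Al.inv
  rw [List.mem_reverse, List.mem_map]
  constructor
  · rintro ⟨v, hv, rfl⟩
    rwa [A.cc]
  · intro h
    exact ⟨_, h, A.cc u⟩

theorem ori_inv {L : List Φ} (h : A.Ori L) : A.Ori (A.inv L) := by
  intro u hu hau
  rw [mem_inv] at hu hau
  rw [← A.ac] at hau
  have := h _ hu hau
  rw [A.ac] at this
  exact c_inj A this

theorem ori_perm {L L1 : List Φ} (h : L.Perm L1) (ho : A.Ori L) : A.Ori L1 :=
  fun u hu hau => ho u (h.mem_iff.2 hu) (h.mem_iff.2 hau)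

section del

variable {A} {P R : List Φ} {x : Φ}

theorem dbl_del : (A.dbl (P ++ x :: A.c (A.a x) :: R)).Perm
    (x :: A.c (A.a x) :: A.c x :: A.a x :: A.dbl (P ++ R)) := by
  classical
  rw [List.perm_iff_count]
  intro u
  simp only [Al.dbl, List.map_append, List.map_cons, A.cc, List.count_append, List.count_cons]
  omega

theorem mem_del {u : Φ} : u ∈ A.dbl (P ++ x :: A.c (A.a x) :: R) ↔
    u = x ∨ u = A.c (A.a x) ∨ u = A.c x ∨ u = A.a x ∨ u ∈ A.dbl (P ++ R) := by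
  rw [dbl_del.mem_iff]
  simp only [List.mem_cons]

/-- the four letters of the loop -/
def Four (A : Al Φ) (x u : Φ) : Prop := u = x ∨ u = A.c (A.a x) ∨ u = A.c x ∨ u = A.a x

theorem four_a {u : Φ} (h : Four A x u) : Four A x (A.a u) := by
  unfold Four at h ⊢
  rcases h with rfl | rfl | rfl | rfl <;> simp [A.ac, A.aa]

theorem four_c {u : Φ} (h : Four A x u) : Four A x (A.c u) := by
  unfold Four at h ⊢
  rcases h with rfl | rfl | rfl | rfl <;> simp [A.cc]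

theorem four_a' {u : Φ} (h : Four A x (A.a u)) : Four A x u := by
  have := four_a h
  rwa [A.aa] at this

theorem four_c' {u : Φ} (h : Four A x (A.c u)) : Four A x u := by
  have := four_c h
  rwa [A.cc] at this

theorem four_nt (hx : A.a x ≠ x) {u : Φ} (h : Four A x u) : A.a u ≠ u := by
  intro e
  rcases h with rfl | rfl | rfl | rfl
  · exact hx e
  · rw [A.ac, A.aa] at e
    exact hx (c_inj A e).symm
  · rw [A.ac] at e
    exact hx (c_inj A e)
  · rw [A.aa] at e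
    exact hx e.symm

theorem mem_del' {u : Φ} : u ∈ A.dbl (P ++ x :: A.c (A.a x) :: R) ↔
    Four A x u ∨ u ∈ A.dbl (P ++ R) := by
  rw [mem_del]
  unfold Four
  tauto

theorem not_four (hw : A.WF (P ++ x :: A.c (A.a x) :: R)) {u : Φ} (hu : u ∈ A.dbl (P ++ R)) :
    ¬ Four A x u := by
  have h := dbl_del.nodup_iff.1 hw.1
  simp only [List.nodup_cons, List.mem_cons, not_or] at h
  rintro (rfl | rfl | rfl | rfl)
  · exact h.1.2.2.2 hu
  · exact h.2.1.2.2 hu
  · exact h.2.2.1.2 hu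
  · exact h.2.2.2.1 hu

theorem wf_del (hw : A.WF (P ++ x :: A.c (A.a x) :: R)) : A.WF (P ++ R) := by
  have h := dbl_del.nodup_iff.1 hw.1
  simp only [List.nodup_cons] at h
  refine ⟨h.2.2.2.2, fun u hu => ?_⟩
  rcases mem_del'.1 (hw.2 u (mem_del'.2 (Or.inr hu))) with h1 | h1
  · exact absurd (four_a' h1) (not_four hw hu)
  · exact h1

theorem tm_del (hx : A.a x ≠ x) : A.tm (P ++ R) = A.tm (P ++ x :: A.c (A.a x) :: R) := by
  ext u
  simp only [Al.tm, mem_ofPred_eq, mem_del']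
  constructor
  · rintro ⟨h1, h2⟩
    exact ⟨Or.inr h1, h2⟩
  · rintro ⟨h1 | h1, h2⟩
    · exact absurd h2 (four_nt hx h1)
    · exact ⟨h1, h2⟩

theorem ori_del (hw : A.WF (P ++ x :: A.c (A.a x) :: R)) (h : A.Ori (P ++ R)) :
    A.Ori (P ++ x :: A.c (A.a x) :: R) := by
  have hd := List.disjoint_of_nodup_append hw.1
  have hm : ∀ u, u ∈ P ++ x :: A.c (A.a x) :: R ↔ u = x ∨ u = A.c (A.a x) ∨ u ∈ P ++ R := by
    intro u
    simp only [List.mem_append, List.mem_cons]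
    tauto
  intro u hu hau
  rcases (hm u).1 hu with e | e | hu1
  · rw [e] at hau
    exact (hd hau (List.mem_map.2 ⟨A.c (A.a x), (hm _).2 (Or.inr (Or.inl rfl)), A.cc _⟩)).elim
  · rw [e, A.ac, A.aa] at hau
    exact (hd hau (List.mem_map.2 ⟨x, (hm _).2 (Or.inl rfl), rfl⟩)).elim
  · have h4 := not_four hw ((mem_dbl A).2 (Or.inl hu1))
    rcases (hm _).1 hau with e | e | h1
    · exact absurd (four_a' (Or.inl e)) h4
    · exact absurd (four_a' (Or.inr (Or.inl e))) h4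
    · exact h u hu1 h1

theorem lab_del {Λ : Type} {l : Φ → Λ} (h : A.Lab (P ++ x :: A.c (A.a x) :: R) l) :
    ∃ p, A.Path l p P (l x) ∧ A.Path l (l x) R p ∧ l (A.c (A.a x)) = l (A.c x) := by
  obtain ⟨h1, p, hp⟩ := h
  obtain ⟨m, a1, a2, a3, a4⟩ := (path_append A l _ _ p p).1 hp
  rw [A.cc, h1] at a4
  exact ⟨p, a2 ▸ a1, a4, a3⟩

theorem lab_del' {Λ : Type} {l : Φ → Λ} (h : A.Lab (P ++ x :: A.c (A.a x) :: R) l) :
    A.Lab (P ++ R) l := by
  obtain ⟨p, a1, a2, _⟩ := lab_del h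
  exact ⟨h.1, p, (path_append A l _ _ p p).2 ⟨_, a1, a2⟩⟩

theorem mid_mem {Λ : Type} {l : Φ → Λ} {p m : Λ} (hne : P ++ R ≠ []) (a1 : A.Path l p P m)
    (a2 : A.Path l m R p) : m ∈ l '' {u | u ∈ A.dbl (P ++ R)} := by
  match P, R, hne, a1, a2 with
  | P, r :: R, _, _, a2 => exact ⟨r, (mem_dbl A).2 (Or.inl (by simp)), a2.1⟩
  | r :: P, [], _, a1, a2 => exact ⟨r, (mem_dbl A).2 (Or.inl (by simp)), a1.1.trans a2.symm⟩
  | [], [], hne, _, _ => exact (hne rfl).elim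

theorem fin_img {Λ : Type} (l : Φ → Λ) (L : List Φ) : (l '' {u | u ∈ A.dbl L}).Finite :=
  (List.finite_toSet _).image l

theorem big_del (hx : A.a x ≠ x) (hne : P ++ R ≠ []) {m : ℤ}
    (h : A.Big (P ++ x :: A.c (A.a x) :: R) m) : A.Big (P ++ R) m := by
  obtain ⟨Λ, l, h1, h2⟩ := h
  refine ⟨Λ, l, lab_del' h1, ?_⟩
  obtain ⟨p, a1, a2, a3⟩ := lab_del h1
  have hm := mid_mem hne a1 a2
  rw [← tm_del hx] at h2
  have hs : l '' {u | u ∈ A.dbl (P ++ x :: A.c (A.a x) :: R)} \ l '' A.tm (P ++ R) ⊆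
      insert (l (A.c x)) (l '' {u | u ∈ A.dbl (P ++ R)} \ l '' A.tm (P ++ R)) := by
    rintro _ ⟨⟨u, hu, rfl⟩, hn⟩
    rcases mem_del.1 hu with e | e | e | e | e
    · exact Or.inr ⟨by rw [e]; exact hm, hn⟩
    · exact Or.inl (by rw [e, a3])
    · exact Or.inl (by rw [e])
    · exact Or.inr ⟨by rw [e, h1.1]; exact hm, hn⟩
    · exact Or.inr ⟨⟨u, e, rfl⟩, hn⟩
  have h3 := (ncard_le_ncard hs (((fin_img l _).subset sdiff_subset).insert _)).trans
    (ncard_insert_le _ _)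
  simp only [List.length_append, List.length_cons] at h2 ⊢
  omega

theorem big_ins (hx : A.a x ≠ x) (hw : A.WF (P ++ x :: A.c (A.a x) :: R)) {m : ℤ}
    (h : A.Big (P ++ R) m) : A.Big (P ++ x :: A.c (A.a x) :: R) m := by
  classical
  obtain ⟨Λ, l, ⟨h1, p, hp⟩, h2⟩ := h
  obtain ⟨q, a1, a2⟩ := (path_append A l _ _ p p).1 hp
  have hn := dbl_del.nodup_iff.1 hw.1
  simp only [List.nodup_cons, List.mem_cons, not_or] at hn
  set l1 : Φ → Option Λ := fun u => if u = x ∨ u = A.a x then some q else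
    if Four A x u then none else some (l u) with hl1
  have e1 : l1 x = some q := by simp [hl1]
  have e2 : l1 (A.a x) = some q := by simp [hl1]
  have e3 : l1 (A.c x) = none := by
    have : Four A x (A.c x) := Or.inr (Or.inr (Or.inl rfl))
    simp [hl1, this, Ne.symm hn.1.2.1, hn.2.2.1.1]
  have e4 : l1 (A.c (A.a x)) = none := by
    have : Four A x (A.c (A.a x)) := Or.inr (Or.inl rfl)
    simp [hl1, this, Ne.symm hn.1.1, hn.2.1.2.1]
  have e5 : ∀ u, ¬ Four A x u → l1 u = some (l u) := by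
    intro u hu
    have : ¬ (u = x ∨ u = A.a x) := by
      rintro (e | e)
      · exact hu (Or.inl e)
      · exact hu (Or.inr (Or.inr (Or.inr e)))
    simp only [hl1, if_neg this, if_neg hu]
  have e6 : ∀ u ∈ A.dbl (P ++ R), l1 u = some (l u) := fun u hu => e5 u (not_four hw hu)
  refine ⟨Option Λ, l1, ⟨fun u => ?_, some p, (path_append A l1 _ _ _ _).2 ⟨some q, ?_, e1, ?_,
    ?_⟩⟩, ?_⟩
  · by_cases hu : Four A x u
    · rcases hu with e | e | e | e
      · rw [e, e1, e2]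
      · rw [e, A.ac, A.aa, e3, e4]
      · rw [e, A.ac, e3, e4]
      · rw [e, A.aa, e1, e2]
    · rw [e5 u hu, e5 _ fun hh => hu (four_a' hh), h1]
  · refine path_map A l l1 some P p q (fun u hu => e6 u ?_) a1
    rw [mem_dbl] at hu ⊢
    exact hu.imp (List.mem_append_left _) (List.mem_append_left _)
  · rw [e3, e4]
  · rw [A.cc, e2]
    refine path_map A l l1 some R q p (fun u hu => e6 u ?_) a2
    rw [mem_dbl] at hu ⊢
    exact hu.imp (List.mem_append_right _) (List.mem_append_right _)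
  · rw [← tm_del hx]
    have hs : insert none (some '' (l '' {u | u ∈ A.dbl (P ++ R)} \ l '' A.tm (P ++ R))) ⊆
        l1 '' {u | u ∈ A.dbl (P ++ x :: A.c (A.a x) :: R)} \ l1 '' A.tm (P ++ R) := by
      rintro _ (rfl | ⟨_, ⟨⟨u, hu, rfl⟩, hu2⟩, rfl⟩)
      · refine ⟨⟨A.c x, mem_del.2 (by simp), e3⟩, ?_⟩
        rintro ⟨t, ht, e⟩
        rw [e6 t ht.1] at e
        exact absurd e (by simp)
      · refine ⟨⟨u, mem_del'.2 (Or.inr hu), e6 u hu⟩, ?_⟩
        rintro ⟨t, ht, e⟩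
        rw [e6 t ht.1] at e
        exact hu2 ⟨t, ht, Option.some.inj e⟩
    have h3 := ncard_le_ncard hs ((fin_img l1 _).subset sdiff_subset)
    rw [ncard_insert_of_notMem (by simp) (((fin_img l _).subset sdiff_subset).image _),
      ncard_image_of_injective _ (Option.some_injective Λ)] at h3
    simp only [List.length_append, List.length_cons] at h2 ⊢
    omega

theorem fe_ins (hx : A.a x ≠ x) (hw : A.WF (P ++ x :: A.c (A.a x) :: R)) {π : Φ → Φ → Prop}
    (h : A.Fe (fun _ => True) (P ++ R) π) :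
    A.Fe (fun _ => True) (P ++ x :: A.c (A.a x) :: R) π := by
  classical
  obtain ⟨φ, h1, h2, h3⟩ := h
  have hw1 := wf_del hw
  set φ1 : Φ → List ℕ := fun u => if Four A x u then [] else φ u with hφ
  have e1 : ∀ u, Four A x u → φ1 u = [] := fun u hu => if_pos hu
  have e2 : ∀ u ∈ A.dbl (P ++ R), φ1 u = φ u := fun u hu => if_neg (not_four hw hu)
  have hlk : A.Lk (P ++ x :: A.c (A.a x) :: R) φ1 = A.Lk (P ++ R) φ := by
    funext m n
    apply propext
    constructor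
    · rintro ⟨u, hu, hz⟩
      rcases mem_del'.1 hu with h4 | h4
      · rw [e1 u h4] at hz
        simp at hz
      · rw [e2 u h4, e2 _ (hw1.2 u h4)] at hz
        exact ⟨u, h4, hz⟩
    · rintro ⟨u, hu, hz⟩
      refine ⟨u, mem_del'.2 (Or.inr hu), ?_⟩
      rw [e2 u hu, e2 _ (hw1.2 u hu)]
      exact hz
  refine ⟨φ1, fun u hu => ?_, ?_, fun s hs t ht => ?_⟩
  · rcases mem_del'.1 hu with h4 | h4
    · rw [e1 u h4, e1 _ (four_a h4), e1 _ (four_c h4)]
      exact ⟨rfl, rfl, fun e => absurd e (four_nt hx h4), trivial⟩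
    · rw [e2 u h4, e2 _ (hw1.2 u h4), e2 _ (c_dbl A h4)]
      exact h1 u h4
  · have hP : P.flatMap φ1 = P.flatMap φ := List.flatMap_congr fun u hu =>
      e2 u ((mem_dbl A).2 (Or.inl (List.mem_append_left _ hu)))
    have hR : R.flatMap φ1 = R.flatMap φ := List.flatMap_congr fun u hu =>
      e2 u ((mem_dbl A).2 (Or.inl (List.mem_append_right _ hu)))
    rw [List.flatMap_append, List.flatMap_cons, List.flatMap_cons, hP, hR, e1 x (Or.inl rfl),
      e1 _ (Or.inr (Or.inl rfl))]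
    simpa using h2
  · rw [← tm_del hx] at hs ht
    rw [hlk, e2 s hs.1, e2 t ht.1]
    exact h3 s hs t ht

theorem fe_del (hx : A.a x ≠ x) {π : Φ → Φ → Prop}
    (h : A.Fe (fun _ => True) (P ++ x :: A.c (A.a x) :: R) π) :
    A.Fe (fun _ => True) (P ++ R) π := by
  obtain ⟨φ, h1, h2, h3⟩ := h
  have hE := Relation.EqvGen.is_equivalence (A.Lk (P ++ x :: A.c (A.a x) :: R) φ)
  have m1 : x ∈ A.dbl (P ++ x :: A.c (A.a x) :: R) := mem_del.2 (by simp)
  have m2 : A.a x ∈ A.dbl (P ++ x :: A.c (A.a x) :: R) := mem_del.2 (by simp)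
  have m3 : A.c x ∈ A.dbl (P ++ x :: A.c (A.a x) :: R) := mem_del.2 (by simp)
  have c1 := (h1 x m1).1
  have c2 := (h1 _ m2).1
  have hl := (h1 x m1).2.1
  obtain ⟨ρ, a1, a2, a3⟩ := ncl_merge hE (φ x).length (φ (A.c x)) (φ (A.c (A.a x)))
    (P.flatMap φ) (R.flatMap φ) (by rw [c1, List.length_reverse])
    (by rw [c2, List.length_reverse, hl])
    (fun p hp => .rel _ _ ⟨A.c x, m3, by rw [A.ac]; exact hp⟩) (by
      rw [c1, List.reverse_reverse]
      simpa using h2)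
  have a4 : (φ x).map ρ = (φ (A.a x)).map ρ := by
    rw [c1, c2, List.map_reverse, List.map_reverse] at a2
    exact List.reverse_injective a2
  have hf : ∀ u, Four A x u → (φ u).map ρ = (φ (A.a u)).map ρ := by
    intro u hu
    rcases hu with e | e | e | e
    · rw [e, a4]
    · rw [e, A.ac, A.aa, a2]
    · rw [e, A.ac, a2]
    · rw [e, A.aa, a4]
  refine ⟨fun u => (φ u).map ρ, fun u hu => ?_, ?_, fun s hs t ht => ?_⟩
  · obtain ⟨b1, b2, b3, _⟩ := h1 u (mem_del'.2 (Or.inr hu))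
    exact ⟨by simp only [b1, List.map_reverse], by simpa using b2, by simpa using b3, trivial⟩
  · rw [← List.map_flatMap, List.flatMap_append]
    exact a1
  · have g : ∀ s ∈ A.tm (P ++ x :: A.c (A.a x) :: R),
        ((φ s).map ρ).getD 0 0 = ρ ((φ s).getD 0 0) := by
      intro s hs
      obtain ⟨k, e⟩ := List.length_eq_one_iff.1 ((h1 s hs.1).2.2.1 hs.2)
      simp [e]
    rw [tm_del hx] at hs ht
    rw [h3 s hs t ht, g s hs, g t ht]
    constructor
    · refine eqv_map ?_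
      rintro m n ⟨u, hu, hz⟩
      rcases mem_del'.1 hu with h4 | h4
      · rw [zip_eq (hf u h4) hz]
        exact .refl _
      · refine .rel _ _ ⟨u, h4, ?_⟩
        rw [List.zip_map]
        exact List.mem_map.2 ⟨_, hz, rfl⟩
    · intro hh
      have := eqv_map (r' := A.Lk (P ++ x :: A.c (A.a x) :: R) φ) (f := id) (by
        rintro m n ⟨u, hu, hz⟩
        rw [List.zip_map] at hz
        obtain ⟨q, hq, e⟩ := List.mem_map.1 hz
        obtain ⟨rfl, rfl⟩ := Prod.mk.inj e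
        exact hE.trans (hE.symm (a3 q.1))
          (hE.trans (.rel _ _ ⟨u, mem_del'.2 (Or.inr hu), hq⟩) (a3 q.2))) hh
      exact hE.trans (a3 _) (hE.trans this (hE.symm (a3 _)))

end del

end RWordA

open RWordA

theorem rotWS : RotWS := by
  intro Φ A
  refine ⟨fun P R hw => ?_, fun L hw => ?_⟩
  · have hp : (P ++ R).Perm (R ++ P) := List.perm_append_comm
    have hd := dbl_perm A hp
    exact ⟨wf_perm A hd hw, fun π => ⟨fe_rot A, fe_rot A⟩,
      fun m => ⟨big_perm A hd fun _ _ => lab_rot A, big_perm A hd.symm fun _ _ => lab_rot A⟩,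
      fun Λ l hl => ⟨l, lab_rot A hl, fun _ _ => rfl⟩, tm_perm A hd,
      ⟨ori_perm A hp, ori_perm A hp.symm⟩, fun _ t ht _ => hp.mem_iff.2 ht⟩
  · have hd := (dbl_inv A L).symm
    have hl : ∀ (Λ : Type) (l : Φ → Λ), A.Lab (A.inv L) l → A.Lab L l := by
      intro Λ l h
      have := lab_inv A h
      rwa [inv_inv] at this
    refine ⟨wf_perm A hd hw, fun B π => ⟨fe_inv A, fun h => ?_⟩,
      fun m => ⟨big_perm A hd fun _ _ => lab_inv A, big_perm A hd.symm hl⟩,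
      fun Λ l => ⟨lab_inv A, hl Λ l⟩, tm_perm A hd, ori_inv A, fun h => ?_⟩
    · have := fe_inv A h
      rwa [inv_inv] at this
    · have := ori_inv A h
      rwa [inv_inv] at this

theorem delWS : DelWS := by
  intro Φ A P R x hx hne hw
  refine ⟨wf_del hw, fun π => ⟨fe_del hx, fe_ins hx hw⟩, fun m => ⟨big_del hx hne, big_ins hx hw⟩,
    fun Λ l hl => ⟨l, lab_del' hl, fun _ _ => rfl⟩, tm_del hx, ⟨fun h u hu hau => h u ?_ ?_,
      ori_del hw⟩, fun _ t ht _ => ?_⟩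
  all_goals
    simp only [List.mem_append, List.mem_cons] at *
    tauto

end Pool.Agent.MP_9d78a0_co.gm

end MrgPart1

-- ======== part 2: formerly Pool.Agent.MP_9d78a0_co.gm.RWordD
section MrgPart2

/-! Routing (block WORDS): the genus of a star map, read from the word. -/

set_option autoImplicit false

namespace Pool.Agent.MP_9d78a0_co.gm

open Set Function

namespace RWordD

variable {Φ : Type}

theorem path_of {Λ : Type} (A : Al Φ) (l : Φ → Λ) : ∀ (X : List Φ) (f : ℕ → Λ),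
    (∀ i, ∀ h : i < X.length, l X[i] = f i ∧ l (A.c X[i]) = f (i + 1)) →
    A.Path l (f 0) X (f X.length)
  | [], _, _ => rfl
  | u :: X, f, h => by
    have h0 := h 0 (Nat.succ_pos _)
    refine ⟨h0.1, ?_⟩
    have := path_of A l X (fun i => f (i + 1)) fun i hi => h (i + 1) (Nat.succ_lt_succ hi)
    rw [show l (A.c u) = f (0 + 1) from h0.2]
    exact this

theorem of_path {Λ : Type} (A : Al Φ) (l : Φ → Λ) : ∀ (X : List Φ) (p q : Λ), A.Path l p X q →
    ∃ f : ℕ → Λ, f 0 = p ∧ f X.length = q ∧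
      ∀ i, ∀ h : i < X.length, l X[i] = f i ∧ l (A.c X[i]) = f (i + 1)
  | [], p, _, h => ⟨fun _ => p, rfl, h, fun i hi => absurd hi (Nat.not_lt_zero i)⟩
  | u :: X, p, q, h => by
    obtain ⟨f, f0, f1, k⟩ := of_path A l X _ q h.2
    refine ⟨fun i => Nat.casesOn i p f, rfl, f1, fun i hi => ?_⟩
    cases i with
    | zero => exact ⟨h.1, f0.symm⟩
    | succ i => exact k i (Nat.lt_of_succ_lt_succ hi)

/-- an edge has four flags -/
theorem nc_four {W : FM Φ} (h : W.Ok) {U : Set Φ} (hU : U ⊆ W.S) (s : Sy U W.rE) :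
    4 * nc W.rE U = U.ncard := by
  induction' hn : U.ncard using Nat.strong_induction_on with n ih generalizing U
  have hQ := h.fin.subset hU
  rcases U.eq_empty_or_nonempty with rfl | ⟨x, hx⟩
  · rw [nc_empty, ← hn]; simp
  have sub := s.sub hx
  have d := s.diff (s.cls hx)
  have a1 := ih _ (hn ▸ ncard_lt_ncard ⟨sdiff_subset, fun q => (q hx).2 (cl_self _ _)⟩ hQ)
    (U := U \ cl W.rE x) (sdiff_subset.trans hU) d rfl
  have a2 := nc_split hQ sub (s.cls hx)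
  rw [nc_cls s hx] at a2
  have a3 := ncard_sdiff_add_ncard_of_subset sub hQ
  have xS := hU hx
  have g := h.gk
  have a4 : (cl W.rE x).ncard = 4 := by
    refine ncard_eq_four.2 ⟨x, W.a x, W.c x, W.a (W.c x), (h.ia x xS).2.2.symm,
      (h.ic x xS).2.2.symm, (h.ac x xS).2.symm, h.ne xS, fun e => (h.ic x xS).2.2 ?_,
      (h.ia _ (g.cm xS)).2.2.symm, ?_⟩
    · rw [← g.aa (g.cm xS), ← e, g.aa xS]
    · ext y
      exact g.mem_eo xS
  omega

variable {W : FM Φ} {Hf : Set Φ} {L : List Φ}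

theorem memL (h : W.Star Hf L) {u : Φ} (hu : u ∈ L) : u ∈ W.S \ Hf := (h.mem u).2 (Or.inl hu)

theorem bD (h : W.Star Hf L) {u : Φ} (hu : u ∈ W.S \ Hf) : W.b u ∈ W.S \ Hf :=
  ⟨h.ok.gk.bm hu.1, fun k => hu.2 (h.ok.gk.bb hu.1 ▸ (h.cl _ k).1)⟩

theorem lenPos (h : W.Star Hf L) (ne : Hf.Nonempty) : 0 < L.length := by
  obtain ⟨f, hf⟩ := ne
  rcases (h.mem (W.a f)).1 ⟨h.ok.gk.am (h.sub hf), (h.cl f hf).2.2⟩ with k | ⟨g, k, -⟩
  · exact List.length_pos_of_mem k
  · exact List.length_pos_of_mem k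

theorem cardD (h : W.Star Hf L) : (W.S \ Hf).ncard = 2 * L.length := by
  classical
  have : W.S \ Hf = ↑(L ++ L.map W.c).toFinset := by
    ext f
    rw [h.mem f]
    simp [eq_comm]
  rw [this, ncard_coe_finset, List.toFinset_card_of_nodup h.nodup, List.length_append,
    List.length_map, two_mul]

/-- the flags off `Hf` belong to one vertex -/
theorem oneV (h : W.Star Hf L) (p : 0 < L.length) : W.S \ Hf ⊆ cl W.rV L[0] := by
  have k : ∀ i, ∀ hi : i < L.length, L[i] ∈ cl W.rV L[0] := by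
    intro i
    induction i with
    | zero => exact fun _ => cl_self _ _
    | succ i ih =>
      intro hi
      have := h.next i (by omega)
      simp only [Nat.mod_eq_of_lt hi] at this
      rw [← this]
      exact cl_step (cl_step (ih (by omega)) (Or.inr rfl)) (Or.inl rfl)
  intro f hf
  rcases (h.mem f).1 hf with q | ⟨g, q, rfl⟩
  · obtain ⟨i, hi, rfl⟩ := List.getElem_of_mem q
    exact k i hi
  · obtain ⟨i, hi, rfl⟩ := List.getElem_of_mem q
    exact cl_step (k i hi) (Or.inr rfl)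

theorem count (h : W.Star Hf L) (ne : Hf.Nonempty) :
    4 * W.eg + 4 * (W.vo '' Hf).ncard + 4 * (W.fo '' Hf).ncard +
      4 * ((W.fo '' W.S \ W.fo '' Hf).ncard : ℤ) = 4 + Hf.ncard + 2 * L.length := by
  have p := lenPos h ne
  have g := h.ok.gk
  have x0 := memL h (List.getElem_mem p)
  have sH : Sy Hf W.rV := fun x hx y e =>
    ⟨e.elim (fun e => e ▸ (h.cl x hx).1) fun e => e ▸ (h.cl x hx).2.1, (g.sV x (h.sub hx) y e).2⟩
  have e1 : nc W.rV W.S = (W.vo '' Hf).ncard + 1 := by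
    rw [nc_split h.ok.fin h.sub sH, nc_one g.sV x0.1 x0 (oneV h p)]
    rfl
  have le : cl W.rV L[0] ⊆ cl W.rC L[0] :=
    cl_le g.sV (fun x _ y e => cl_one (Or.inr e)) x0.1
  have e2 : nc W.rC W.S = 1 := by
    refine nc_one g.sC x0.1 x0.1 fun f hf => ?_
    by_cases k : f ∈ Hf
    · exact cl_step (le (oneV h p ⟨g.am hf, (h.cl f k).2.2⟩)) (Or.inl (g.aa hf).symm)
    · exact le (oneV h p ⟨hf, k⟩)
  have e3 := nc_four h.ok Subset.rfl g.sE
  have e4 : (W.fo '' W.S \ W.fo '' Hf).ncard + (W.fo '' Hf).ncard = nc W.rF W.S :=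
    ncard_sdiff_add_ncard_of_subset (image_mono h.sub) (h.ok.fin.image _)
  have e5 := ncard_sdiff_add_ncard_of_subset h.sub h.ok.fin
  have e6 := cardD h
  rw [W.eg_eq]
  omega

end RWordD

open RWordD in
theorem starWS : StarWS := by
  classical
  intro Φ W Hf L A h ne ha hc m
  have p := lenPos h ne
  have g := h.ok.gk
  have cnt := count h ne
  have hD : {u | u ∈ A.dbl L} = W.S \ Hf := by
    ext f
    rw [h.mem f]
    simp only [Al.dbl, mem_ofPred_eq, List.mem_append, List.mem_map]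
    refine or_congr Iff.rfl ⟨fun ⟨u, q, e⟩ => ⟨u, q, ?_⟩, fun ⟨u, q, e⟩ => ⟨u, q, ?_⟩⟩
    · rw [← e, hc u (memL h q).1]
    · rw [e, hc u (memL h q).1]
  have hT : ∀ u, u ∈ A.tm L ↔ u ∈ W.S \ Hf ∧ W.a u ∈ Hf := by
    intro u
    have e : u ∈ A.dbl L ↔ u ∈ W.S \ Hf := by rw [← hD]; rfl
    refine (and_congr e Iff.rfl).trans (and_congr_right fun hu => ⟨fun k => ?_, fun k => ?_⟩)
    · by_contra q
      rw [ha u, if_pos ⟨hu, q⟩] at k
      exact (h.ok.ia u hu.1).2.2 k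
    · rw [ha u, if_neg fun q => q.2 k]
  have fin : (W.S \ Hf).Finite := h.ok.fin.subset sdiff_subset
  suffices A.Big L m ↔ m + L.length ≤ 2 * ((W.fo '' W.S \ W.fo '' Hf).ncard : ℤ) by
    rw [this]
    omega
  constructor
  · rintro ⟨Λ, l, ⟨la, q, lp⟩, le⟩
    obtain ⟨f, f0, f1, k⟩ := of_path A l L q q lp
    have b1 : ∀ i, ∀ hi : i < L.length, l (W.b (W.c L[i])) = l (W.c L[i]) := by
      intro i hi
      rw [h.next i hi, (k _ _).1, ← hc _ (memL h (List.getElem_mem hi)).1, (k i hi).2]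
      rcases Nat.lt_or_ge (i + 1) L.length with t | t
      · rw [Nat.mod_eq_of_lt t]
      · rw [show i + 1 = L.length by omega, Nat.mod_self, f0, f1]
    have b2 : ∀ u ∈ W.S \ Hf, l (W.b u) = l u := by
      intro u hu
      rcases (h.mem u).1 hu with t | ⟨v, t, rfl⟩
      · obtain ⟨j, hj, rfl⟩ := List.getElem_of_mem t
        obtain ⟨i, hi, e⟩ : ∃ i, i < L.length ∧ (i + 1) % L.length = j := by
          cases j with
          | zero => exact ⟨L.length - 1, by omega, by rw [Nat.sub_add_cancel p, Nat.mod_self]⟩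
          | succ j => exact ⟨j, by omega, Nat.mod_eq_of_lt hj⟩
        subst e
        rw [← h.next i hi, g.bb (g.cm (memL h (List.getElem_mem hi)).1), b1 i hi]
      · obtain ⟨i, hi, rfl⟩ := List.getElem_of_mem t
        exact b1 i hi
    refine le.trans ?_
    rw [hD]
    have sub : l '' (W.S \ Hf) \ l '' A.tm L ⊆
        (fun K : Set Φ => if t : K.Nonempty then l t.some else q) ''
          (W.fo '' W.S \ W.fo '' Hf) := by
      rintro _ ⟨⟨u, hu, rfl⟩, n⟩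
      have cst : ∀ x ∈ cl W.rF u, x ∈ W.S \ Hf ∧ l x = l u := by
        intro x hx
        refine cl_ind (P := fun x => x ∈ W.S \ Hf ∧ l x = l u) ⟨hu, rfl⟩ ?_ hx
        rintro y z - ⟨y1, y2⟩ (rfl | rfl)
        · have t : W.a y ∉ Hf := fun t => n ⟨y, (hT y).2 ⟨y1, t⟩, y2⟩
          refine ⟨⟨g.am y1.1, t⟩, ?_⟩
          rw [← y2, ← la y, ha y, if_pos ⟨y1, t⟩]
        · exact ⟨bD h y1, (b2 y y1).trans y2⟩
      have t : (W.fo u).Nonempty := ⟨u, cl_self W.rF u⟩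
      refine ⟨W.fo u, ⟨⟨u, hu.1, rfl⟩, ?_⟩, ?_⟩
      · rintro ⟨v, hv, e⟩
        exact (cst v (Sy.of_eq (r := W.rF) e)).1.2 hv
      · exact (dif_pos t).trans (cst _ t.some_mem).2
    have fF : (W.fo '' W.S \ W.fo '' Hf).Finite := (h.ok.fin.image _).subset sdiff_subset
    have := (ncard_le_ncard sub (fF.image _)).trans (ncard_image_le fF)
    omega
  · intro le
    have fa : ∀ u ∈ W.S, W.fo (W.a u) = W.fo u := fun u hu =>
      g.sF.eq hu (cl_one (Or.inl rfl))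
    have fb : ∀ u ∈ W.S, W.fo (W.b u) = W.fo u := fun u hu =>
      g.sF.eq hu (cl_one (Or.inr rfl))
    refine ⟨Set Φ, W.fo, ⟨fun u => ?_, W.fo L[0], ?_⟩, le.trans ?_⟩
    · rw [ha u]
      split_ifs with t
      · exact fa u t.1.1
      · rfl
    · have := path_of A W.fo L (fun i => W.fo (L[i % L.length]'(Nat.mod_lt _ p))) fun i hi => by
        have uS := (memL h (List.getElem_mem hi)).1
        refine ⟨by simp only [Nat.mod_eq_of_lt hi], ?_⟩
        rw [hc _ uS, ← h.next i hi, fb _ (g.cm uS)]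
      simpa only [Nat.zero_mod, Nat.mod_self] using this
    · rw [hD]
      have sub : W.fo '' W.S \ W.fo '' Hf ⊆ W.fo '' (W.S \ Hf) \ W.fo '' A.tm L := by
        rintro _ ⟨⟨u, hu, rfl⟩, n⟩
        refine ⟨⟨u, ⟨hu, fun t => n ⟨u, t, rfl⟩⟩, rfl⟩, ?_⟩
        rintro ⟨v, hv, e⟩
        have t := (hT v).1 hv
        exact n ⟨W.a v, t.2, (fa v t.1.1).trans e⟩
      have := ncard_le_ncard sub ((fin.image _).subset sdiff_subset)
      omega

end Pool.Agent.MP_9d78a0_co.gm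

end MrgPart2

-- ======== part 3: formerly Pool.Agent.MP_9d78a0_co.gm.RWordE
section MrgPart3

/-! Routing (block WORDS): from words to star maps. -/

set_option autoImplicit false

namespace Pool.Agent.MP_9d78a0_co.gm

open Set Function Relation

namespace RWordE

variable {Φ Ψ U : Type} {W : FM Φ} {Hf : Set Φ} {L : List Φ} {u p q : Φ}

theorem c_iff (s : W.Star Hf L) (hu : u ∈ W.S) : W.c u ∈ Hf ↔ u ∈ Hf :=
  ⟨fun k => (s.ok.ic u hu).2.1 ▸ (s.cl _ k).2.1, fun k => (s.cl _ k).2.1⟩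

theorem b_iff (s : W.Star Hf L) (hu : u ∈ W.S) : W.b u ∈ Hf ↔ u ∈ Hf :=
  ⟨fun k => (s.ok.ib u hu).2.1 ▸ (s.cl _ k).1, fun k => (s.cl _ k).1⟩

open Classical in
/-- the alphabet of a star map -/
noncomputable def al (s : W.Star Hf L) : Al Φ where
  a u := if u ∈ W.S \ Hf ∧ W.a u ∉ Hf then W.a u else u
  c u := if u ∈ W.S then W.c u else u
  aa u := by
    by_cases k : u ∈ W.S \ Hf ∧ W.a u ∉ Hf
    · have := s.ok.ia u k.1.1
      rw [if_pos k, if_pos ⟨⟨this.1, k.2⟩, this.2.1.symm ▸ k.1.2⟩, this.2.1]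
    · rw [if_neg k, if_neg k]
  cc u := by
    by_cases k : u ∈ W.S
    · rw [if_pos k, if_pos (s.ok.ic u k).1, (s.ok.ic u k).2.1]
    · rw [if_neg k, if_neg k]
  ac u := by
    by_cases k : u ∈ W.S
    · have e : (W.c u ∈ W.S \ Hf ∧ W.a (W.c u) ∉ Hf) ↔ (u ∈ W.S \ Hf ∧ W.a u ∉ Hf) := by
        rw [(s.ok.ac u k).1, mem_sdiff, mem_sdiff, c_iff s k, c_iff s (s.ok.ia u k).1]
        simp only [k, (s.ok.ic u k).1]
      by_cases m : u ∈ W.S \ Hf ∧ W.a u ∉ Hf
      · rw [if_pos k, if_pos (e.2 m), if_pos m, if_pos (s.ok.ia u k).1, (s.ok.ac u k).1]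
      · rw [if_pos k, if_neg (mt e.1 m), if_neg m, if_pos k]
    · have m : ¬ (u ∈ W.S \ Hf ∧ W.a u ∉ Hf) := fun m => k m.1.1
      rw [if_neg k, if_neg m, if_neg k]
  ne u := by
    by_cases m : u ∈ W.S \ Hf ∧ W.a u ∉ Hf
    · rw [if_pos m, if_pos m.1.1]
      exact fun e => ((s.ok.ac u m.1.1).2 (by rw [← e, (s.ok.ia u m.1.1).2.1])).elim
    · rw [if_neg m]; exact fun _ => rfl

theorem c_eq (s : W.Star Hf L) (hu : u ∈ W.S) : (al s).c u = W.c u := if_pos hu

theorem a_pos (s : W.Star Hf L) (hu : u ∈ W.S \ Hf) (k : W.a u ∉ Hf) : (al s).a u = W.a u :=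
  if_pos ⟨hu, k⟩

theorem a_neg (s : W.Star Hf L) (k : W.a u ∈ Hf) : (al s).a u = u := if_neg fun m => m.2 k

theorem memL (s : W.Star Hf L) (hu : u ∈ L) : u ∈ W.S \ Hf := (s.mem u).2 (Or.inl hu)

theorem dbl_eq (s : W.Star Hf L) : (al s).dbl L = L ++ L.map W.c := by
  unfold Al.dbl
  rw [List.map_congr_left fun u hu => c_eq s (memL s hu).1]

theorem mem_dbl (s : W.Star Hf L) : u ∈ (al s).dbl L ↔ u ∈ W.S \ Hf := by
  rw [dbl_eq, s.mem, List.mem_append, List.mem_map]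
  exact or_congr_right (exists_congr fun g => and_congr_right fun _ => eq_comm)

theorem fix_iff (s : W.Star Hf L) (hu : u ∈ W.S \ Hf) : (al s).a u = u ↔ W.a u ∈ Hf :=
  ⟨fun e => by_contra fun k => (s.ok.ia u hu.1).2.2 (a_pos s hu k ▸ e), a_neg s⟩

theorem mem_tm (s : W.Star Hf L) : u ∈ (al s).tm L ↔ u ∈ W.S \ Hf ∧ W.a u ∈ Hf :=
  (and_congr_left' (mem_dbl s)).trans (and_congr_right fun k => fix_iff s k)

theorem a_tm (s : W.Star Hf L) (hp : p ∈ Hf) : W.a p ∈ (al s).tm L :=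
  (mem_tm s).2 ⟨⟨(s.ok.ia p (s.sub hp)).1, (s.cl p hp).2.2⟩, (s.ok.ia p (s.sub hp)).2.1.symm ▸ hp⟩

theorem wf (s : W.Star Hf L) : (al s).WF L := by
  refine ⟨dbl_eq s ▸ s.nodup, fun u hu => ?_⟩
  rw [mem_dbl] at hu ⊢
  by_cases k : W.a u ∈ Hf
  · rwa [a_neg s k]
  · rw [a_pos s hu k]; exact ⟨(s.ok.ia u hu.1).1, k⟩

theorem xor (s : W.Star Hf L) (hu : u ∈ W.S \ Hf) : W.c u ∈ L ↔ u ∉ L := by
  constructor
  · intro k m
    exact (List.nodup_append.1 s.nodup).2.2 _ k _ (List.mem_map_of_mem m) rfl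
  · intro k
    obtain ⟨g, hg, rfl⟩ := ((s.mem u).1 hu).resolve_left k
    rwa [(s.ok.ic g (memL s hg).1).2.1]

theorem fo_eq (s : W.Star Hf L) (hp : p ∈ W.S) (k : q ∈ W.fo p) : W.fo q = W.fo p :=
  (s.ok.ia.sy2 s.ok.ib).eq hp k

theorem fo_a (s : W.Star Hf L) (hp : p ∈ W.S) : W.fo (W.a p) = W.fo p :=
  fo_eq s hp (cl_one (Or.inl rfl))

theorem fo_b (s : W.Star Hf L) (hp : p ∈ W.S) : W.fo (W.b p) = W.fo p :=
  fo_eq s hp (cl_one (Or.inr rfl))

theorem fo_iff (s : W.Star Hf L) (hp : p ∈ Hf) (hq : q ∈ Hf) :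
    W.fo q = W.fo p ↔ q = p ∨ q = W.b p := by
  refine ⟨fun e => s.one p hp q hq (Sy.of_eq e), ?_⟩
  rintro (rfl | rfl)
  · rfl
  · exact fo_b s (s.sub hp)

theorem path_of {Λ : Type} (A : Al Φ) (l : Φ → Λ) (X : List Φ) (f : ℕ → Λ)
    (h : ∀ i, ∀ k : i < X.length, l X[i] = f i ∧ l (A.c X[i]) = f (i + 1)) :
    A.Path l (f 0) X (f X.length) := by
  induction X generalizing f with
  | nil => exact rfl
  | cons x X ih =>
    have h0 := h 0 (Nat.succ_pos _)
    refine ⟨h0.1, ?_⟩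
    rw [show l (A.c x) = f (0 + 1) from h0.2]
    exact ih (fun i => f (i + 1)) fun i k => h (i + 1) (Nat.succ_lt_succ k)

theorem lab (s : W.Star Hf L) : (al s).Lab L W.fo := by
  constructor
  · intro u
    by_cases m : u ∈ W.S \ Hf ∧ W.a u ∉ Hf
    · rw [a_pos s m.1 m.2, fo_a s m.1.1]
    · exact congrArg _ (if_neg m)
  · rcases Nat.eq_zero_or_pos L.length with z | z
    · rw [List.length_eq_zero_iff] at z
      subst z
      exact ⟨∅, rfl⟩
    · have := path_of (al s) W.fo L (fun i => W.fo (L[i % L.length]'(Nat.mod_lt _ z))) ?_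
      · simp only [Nat.mod_self, Nat.zero_mod] at this
        exact ⟨_, this⟩
      · intro i k
        have m := (memL s (List.getElem_mem k)).1
        refine ⟨by simp only [Nat.mod_eq_of_lt k], ?_⟩
        rw [c_eq s m, ← fo_b s (s.ok.ic _ m).1, s.next i k]

/-- all letters have one colour -/
theorem colour (s : W.Star Hf L) {o : Φ → Prop} (ho : W.Ori o) :
    ∃ z : Prop, ∀ u ∈ W.S \ Hf, u ∈ L ↔ (o u ↔ z) := by
  rcases Nat.eq_zero_or_pos L.length with z | z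
  · rw [List.length_eq_zero_iff] at z
    subst z
    exact ⟨True, fun u hu => by simpa using (s.mem u).1 hu⟩
  have k : ∀ i, ∀ k : i < L.length, o L[i] ↔ o L[0] := by
    intro i
    induction i with
    | zero => exact fun _ => Iff.rfl
    | succ i ih =>
      intro k
      have e := s.next i (by omega)
      have m := (memL s (List.getElem_mem (show i < L.length by omega))).1
      simp only [Nat.mod_eq_of_lt k] at e
      rw [← e, (ho _ (s.ok.ic _ m).1).2.1, (ho _ m).2.2, not_not, ih]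
  have k' : ∀ u ∈ L, o u ↔ o L[0] := fun u hu => by
    obtain ⟨i, hi, rfl⟩ := List.getElem_of_mem hu
    exact k i hi
  refine ⟨o L[0], fun u hu => ⟨k' u, fun e => by_contra fun m => ?_⟩⟩
  have := k' _ ((xor s hu).2 m)
  rw [(ho u hu.1).2.2] at this
  tauto

theorem ori_of (s : W.Star Hf L) {o : Φ → Prop} (ho : W.Ori o) : (al s).Ori L := by
  obtain ⟨z, hz⟩ := colour s ho
  intro u hu k
  have m := memL s hu
  refine (fix_iff s m).2 (by_contra fun n => ?_)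
  rw [a_pos s m n] at k
  have h1 := (hz u m).1 hu
  have h2 := (hz _ (memL s k)).1 k
  rw [(ho u m.1).1] at h2
  tauto

theorem of_ori (hP : ParWS) (s : W.Star Hf L) (ho : (al s).Ori L) : ∃ o, W.Ori o := by
  classical
  have h := s.ok
  have par := hP Φ _ (al s) L W.fo (wf s) (lab s) ho
  have two : ∀ u ∈ W.S \ Hf, W.a u ∉ Hf → u ∈ L → W.a u ∉ L := fun u hu k m n =>
    k ((fix_iff s hu).1 (ho u m (a_pos s hu k ▸ n)))
  have nx : ∀ p ∈ Hf, ∀ v ∈ W.S \ Hf, W.a v ∈ Hf → W.fo v = W.fo (W.a p) → v ≠ W.a p →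
      W.a (W.b p) = v := by
    intro p hp v hv k e n
    rw [fo_a s (s.sub hp), ← fo_a s hv.1] at e
    rcases (fo_iff s hp k).1 e with r | r
    · exact (n (by rw [← r, (h.ia v hv.1).2.1])).elim
    · rw [← r, (h.ia v hv.1).2.1]
  refine ⟨fun u => if u ∈ Hf then W.a u ∉ L else u ∈ L, fun f hf => ?_⟩
  by_cases p : f ∈ Hf
  · have t := (mem_tm s).1 (a_tm s p)
    simp only [if_pos p, if_neg (s.cl f p).2.2, if_pos (s.cl f p).1, if_pos (s.cl f p).2.1,
      not_not, true_and]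
    refine ⟨⟨fun k => by_contra fun m => ?_, fun k => ?_⟩, ?_⟩
    · have u := (xor s t.1).2 m
      have uS := memL s u
      obtain ⟨v, hv, e1, e2⟩ := (par _ u ((fix_iff s uS).2 (by
        rw [(h.ac _ t.1.1).1]; exact (s.cl _ t.2).2.1))).1
      rw [c_eq s uS.1, (h.ic _ t.1.1).2.1] at e2
      exact k (nx f p v (memL s hv) ((fix_iff s (memL s hv)).1 e1) e2 (fun e => m (e ▸ hv)) ▸ hv)
    · obtain ⟨w, hw, e1, e2⟩ := (par _ k ((fix_iff s t.1).2 t.2)).2
      have wS := memL s hw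
      have cw : W.c w ∈ W.S \ Hf := ⟨(h.ic w wS.1).1, mt (c_iff s wS.1).1 wS.2⟩
      have n : W.c w ∉ L := fun m => (xor s wS).1 m hw
      rw [c_eq s wS.1] at e2
      rw [nx f p _ cw (by
        rw [(h.ac _ wS.1).1]; exact (s.cl _ ((fix_iff s wS).1 e1)).2.1) e2 fun e => n (e ▸ k)]
      exact n
    · rw [(h.ac f hf).1, xor s t.1, not_not]
  · have m : f ∈ W.S \ Hf := ⟨hf, p⟩
    simp only [if_neg p, if_neg (mt (b_iff s hf).1 p), if_neg (mt (c_iff s hf).1 p)]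
    refine ⟨?_, ⟨fun k n => ?_, fun k => ?_⟩, xor s m⟩
    · by_cases r : W.a f ∈ Hf
      · rw [if_pos r, (h.ia f hf).2.1]
      · rw [if_neg r]
        refine ⟨fun k n => two f m r n k, fun k => by_contra fun n => ?_⟩
        have cf := (xor s m).2 k
        refine two _ (memL s cf) ?_ cf ?_
        · rw [(h.ac f hf).1, c_iff s (h.ia f hf).1]; exact r
        · rw [(h.ac f hf).1]; exact (xor s ⟨(h.ia f hf).1, r⟩).2 n
    · obtain ⟨j, hj, rfl⟩ := List.getElem_of_mem n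
      have e := s.next ((j + (L.length - 1)) % L.length) (Nat.mod_lt _ (by omega))
      have iS := memL s (List.getElem_mem
        (Nat.mod_lt (j + (L.length - 1)) (show 0 < L.length by omega)))
      have : ((j + (L.length - 1)) % L.length + 1) % L.length = j := by
        rw [Nat.mod_add_mod, show j + (L.length - 1) + 1 = j + L.length by omega,
          Nat.add_mod_right, Nat.mod_eq_of_lt hj]
      simp only [this] at e
      rw [← e, (h.ib _ (h.ic _ iS.1).1).2.1] at k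
      exact (xor s iS).1 k (List.getElem_mem _)
    · obtain ⟨g, hg, rfl⟩ := ((s.mem f).1 m).resolve_left k
      obtain ⟨i, hi, rfl⟩ := List.getElem_of_mem hg
      rw [s.next i hi]
      exact List.getElem_mem _

theorem eqv_le {α : Type} {r r' : α → α → Prop} (h : ∀ x y, r x y → EqvGen r' x y) {x y : α}
    (k : EqvGen r x y) : EqvGen r' x y := by
  induction k with
  | rel _ _ e => exact h _ _ e
  | refl => exact .refl _
  | symm _ _ _ ih => exact ih.symm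
  | trans _ _ _ _ _ i1 i2 => exact i1.trans _ _ _ i2

theorem getD_eq (l : List ℕ) {i : ℕ} (h : i < l.length) : l.getD i 0 = l[i] := by
  simp [List.getD, h]

theorem lk_iff (s : W.Star Hf L) {φ : Φ → List ℕ}
    (h : ∀ f ∈ W.S \ Hf, W.a f ∉ Hf → (φ (W.a f)).length = (φ f).length) (x y : ℕ) :
    EqvGen ((al s).Lk L φ) x y ↔ EqvGen (W.Lnk Hf φ) x y := by
  refine ⟨eqv_le ?_, eqv_le ?_⟩
  · rintro x y ⟨u, hu, k⟩
    rw [mem_dbl] at hu
    obtain ⟨i, hi, e⟩ := List.getElem_of_mem k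
    rw [List.getElem_zip, Prod.mk.injEq] at e
    rw [List.length_zip] at hi
    by_cases r : W.a u ∈ Hf
    · simp only [a_neg s r] at e
      rw [← e.1, ← e.2]; exact .refl _
    · simp only [a_pos s hu r] at e hi
      refine .rel _ _ ⟨u, hu, r, i, by omega, ?_, ?_⟩
      · rw [getD_eq _ (by omega), e.1]
      · rw [getD_eq _ (by omega), e.2]
  · rintro x y ⟨u, hu, r, i, hi, rfl, rfl⟩
    have := h u hu r
    refine .rel _ _ ⟨u, (mem_dbl s).2 hu, ?_⟩
    rw [a_pos s hu r, getD_eq _ hi, getD_eq _ (by omega),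
      ← List.getElem_zip (h := by rw [List.length_zip]; omega)]
    exact List.getElem_mem _

theorem fe_of (s : W.Star Hf L) {n : ℕ} {ν : Φ → U} {π : Φ → Φ → Prop}
    (hπ : ∀ p ∈ Hf, ∀ q ∈ Hf, π (W.a p) (W.a q) ↔ ν p = ν q) (d : W.Draw Hf L n ν) :
    (al s).Fe (fun _ => True) L π := by
  obtain ⟨φ, d1, d2, d3, d4⟩ := d
  refine ⟨φ, fun u hu => ?_, d3, fun x hx y hy => ?_⟩
  · rw [mem_dbl] at hu
    refine ⟨by rw [c_eq s hu.1, (d1 u hu).1], ?_, fun e => ?_, trivial⟩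
    · by_cases r : W.a u ∈ Hf
      · rw [a_neg s r]
      · rw [a_pos s hu r, (d1 u hu).2.2 r]
    · have := d2 _ ((fix_iff s hu).1 e)
      rwa [(s.ok.ia u hu.1).2.1] at this
  · rw [mem_tm] at hx hy
    have := (hπ _ hx.2 _ hy.2).trans (d4 _ hx.2 _ hy.2)
    rw [(s.ok.ia x hx.1.1).2.1, (s.ok.ia y hy.1.1).2.1] at this
    rw [this, lk_iff s fun f hf => (d1 f hf).2.2]

theorem of_fe (s : W.Star Hf L) {n : ℕ} {ν : Φ → U}
    (d : (al s).Fe (fun k => k ≤ n) L fun x y => ν (W.a x) = ν (W.a y)) : W.Draw Hf L n ν := by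
  obtain ⟨φ, d1, d2, d3⟩ := d
  have len : ∀ f ∈ W.S \ Hf, W.a f ∉ Hf → (φ (W.a f)).length = (φ f).length := fun f hf r =>
    a_pos s hf r ▸ (d1 f ((mem_dbl s).2 hf)).2.1
  refine ⟨φ, fun f hf => ⟨?_, (d1 f ((mem_dbl s).2 hf)).2.2.2, len f hf⟩, fun p hp => ?_, d2,
    fun p hp q hq => ?_⟩
  · rw [← c_eq s hf.1]; exact (d1 f ((mem_dbl s).2 hf)).1
  · exact (d1 _ (a_tm s hp).1).2.2.1 (a_tm s hp).2
  · have := d3 _ (a_tm s hp) _ (a_tm s hq)
    simp only [(s.ok.ia p (s.sub hp)).2.1, (s.ok.ia q (s.sub hq)).2.1] at this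
    rw [this, lk_iff s len]

theorem ncard_of {α β : Type} {A : Set Φ} {A' : Set Ψ} {μ : Ψ → Φ} (hμ : BijOn μ A' A)
    (F : Φ → α) (F' : Ψ → β) (h : ∀ p ∈ A', ∀ q ∈ A', F' p = F' q ↔ F (μ p) = F (μ q)) :
    (F '' A).ncard = (F' '' A').ncard := by
  have ch : ∀ b ∈ F' '' A', ∃ p ∈ A', F' p = b := fun _ k => k
  choose g g1 g2 using ch
  refine (ncard_congr (fun b hb => F (μ (g b hb))) ?_ ?_ ?_).symm
  · exact fun b hb => mem_image_of_mem _ (hμ.mapsTo (g1 b hb))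
  · intro a b ha hb e
    rw [← g2 a ha, ← g2 b hb]
    exact (h _ (g1 a ha) _ (g1 b hb)).2 e
  · rintro _ ⟨x, hx, rfl⟩
    obtain ⟨p, hp, rfl⟩ := hμ.surjOn hx
    exact ⟨F' p, mem_image_of_mem _ hp, (h _ (g1 _ _) p hp).1 (g2 _ _)⟩

end RWordE

open RWordE

theorem bridgeS : BridgeS := by
  intro hP hS hB hW N
  obtain ⟨n, hn⟩ := hB N
  refine ⟨n, ?_⟩
  intro Φ Ψ U W W' Hf Hf' L L' μ ν ν' n' hN s s' hμ hc heg hor hν d
  rcases Hf'.eq_empty_or_nonempty with rfl | ne'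
  · obtain rfl : Hf = ∅ := by rw [← hμ.image_eq, image_empty]
    refine ⟨fun _ => [], fun f _ => ⟨rfl, Nat.zero_le _, fun _ => rfl⟩, fun _ k => k.elim, ?_,
      fun _ k => k.elim⟩
    intro x y _ k
    have := k.length_le
    simp [List.length_flatMap] at this
  have ne : Hf.Nonempty := ne'.elim fun p hp => ⟨μ p, hμ.mapsTo hp⟩
  have h := s.ok
  have h' := s'.ok
  have aa : ∀ p ∈ Hf', W.a (W.a (μ p)) = μ p := fun p hp => (h.ia _ (s.sub (hμ.mapsTo hp))).2.1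
  have aa' : ∀ p ∈ Hf', W'.a (W'.a p) = p := fun p hp => (h'.ia _ (s'.sub hp)).2.1
  have len : L.length ≤ N := by
    have nd := (List.nodup_append.1 s.nodup).1
    classical
    rw [← List.toFinset_card_of_nodup nd, ← ncard_coe_finset]
    exact (ncard_le_ncard (fun u hu => (memL s (by simpa using hu)).1) h.fin).trans hN
  have fo2 : ∀ p ∈ Hf', ∀ q ∈ Hf', W'.fo p = W'.fo q ↔ W.fo (μ p) = W.fo (μ q) := by
    intro p hp q hq
    rw [fo_iff s' hq hp, fo_iff s (hμ.mapsTo hq) (hμ.mapsTo hp), ← (hc q hq).1,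
      hμ.injOn.eq_iff hp hq, hμ.injOn.eq_iff hp (s'.cl q hq).1]
  have vo2 : ∀ p ∈ Hf', ∀ q ∈ Hf', W'.vo p = W'.vo q ↔ W.vo (μ p) = W.vo (μ q) := by
    intro p hp q hq
    constructor
    · intro e
      refine (h.ib.sy2 h.ic).eq (s.sub (hμ.mapsTo hq)) ?_
      refine (cl_ind (P := fun x => x ∈ Hf' ∧ μ x ∈ cl (fun x y => y = W.b x ∨ y = W.c x) (μ q))
        ⟨hq, cl_self _ _⟩ ?_ (Sy.of_eq e)).2
      rintro x y - ⟨m, ih⟩ (rfl | rfl)
      · exact ⟨(s'.cl x m).1, cl_step ih (Or.inl (hc x m).1)⟩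
      · exact ⟨(s'.cl x m).2.1, cl_step ih (Or.inr (hc x m).2)⟩
    · intro e
      refine (h'.ib.sy2 h'.ic).eq (s'.sub hq) ?_
      obtain ⟨z, ⟨m, k⟩, e'⟩ := cl_ind (P := fun x => ∃ z, (z ∈ Hf' ∧
        z ∈ cl (fun x y => y = W'.b x ∨ y = W'.c x) q) ∧ μ z = x) ⟨q, ⟨hq, cl_self _ _⟩, rfl⟩
        (by
          rintro x y - ⟨z, ⟨m, ih⟩, rfl⟩ (rfl | rfl)
          · exact ⟨_, ⟨(s'.cl z m).1, cl_step ih (Or.inl rfl)⟩, (hc z m).1⟩
          · exact ⟨_, ⟨(s'.cl z m).2.1, cl_step ih (Or.inr rfl)⟩, (hc z m).2⟩) (Sy.of_eq e)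
      exact hμ.injOn m hp e' ▸ k
  refine of_fe s (hn Φ (al s) L _ (wf s) len (hW Φ Ψ _ _ (al s) (al s') L L'
    (fun t => W.a (μ (W'.a t))) W.fo W'.fo _ (wf s) (wf s') ⟨?_, ?_, ?_⟩ ?_ (lab s) (lab s') ?_ ?_
    ?_ (ne'.elim fun p hp => ⟨_, a_tm s' hp⟩) ?_ (fe_of s' ?_ d)))
  · exact fun t ht => a_tm s (hμ.mapsTo ((mem_tm s').1 ht).2)
  · intro x hx y hy e
    rw [mem_tm] at hx hy
    have e1 : μ (W'.a x) = μ (W'.a y) := by rw [← aa _ hx.2, ← aa _ hy.2]; exact congrArg _ e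
    rw [← (h'.ia x hx.1.1).2.1, hμ.injOn hx.2 hy.2 e1, (h'.ia y hy.1.1).2.1]
  · intro t ht
    rw [mem_tm] at ht
    obtain ⟨p, hp, e⟩ := hμ.surjOn ht.2
    exact ⟨W'.a p, a_tm s' hp, by simp only [aa' p hp, e, (h.ia t ht.1.1).2.1]⟩
  · intro t ht
    rw [mem_tm] at ht
    have m := s.sub (hμ.mapsTo ht.2)
    simp only [c_eq s' ht.1.1, c_eq s (h.ia _ m).1, (h'.ac t ht.1.1).1, (hc _ ht.2).2,
      (h.ac _ m).1]
  · intro t ht t1 h1 t2 h2 e1 e2 n1 n2
    rw [mem_tm] at ht h1 h2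
    have key : ∀ x, x ∈ W.S \ Hf ∧ W.a x ∈ Hf → W.fo x = W.fo t → x ≠ t →
        x = W.a (W.b (W.a t)) := by
      intro x hx e n
      rw [← fo_a s hx.1.1, ← fo_a s ht.1.1] at e
      rcases (fo_iff s ht.2 hx.2).1 e with r | r
      · exact (n (by rw [← (h.ia x hx.1.1).2.1, r, (h.ia t ht.1.1).2.1])).elim
      · rw [← r, (h.ia x hx.1.1).2.1]
    rw [key t1 h1 e1 n1, key t2 h2 e2 n2]
  · intro x hx y hy e
    rw [mem_tm] at hx hy
    rw [← fo_a s' hx.1.1, ← fo_a s' hy.1.1, fo2 _ hx.2 _ hy.2] at e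
    rw [fo_a s (s.sub (hμ.mapsTo hx.2)), fo_a s (s.sub (hμ.mapsTo hy.2)), e]
  · intro m
    rw [hS Φ W Hf L (al s) s ne (fun _ => rfl) fun _ => c_eq s,
      hS Ψ W' Hf' L' (al s') s' ne' (fun _ => rfl) fun _ => c_eq s', heg, ncard_of hμ _ _ vo2,
      ncard_of hμ _ _ fo2, ← hμ.image_eq, hμ.injOn.ncard_image]
  · rcases hor with ⟨n1, n2⟩ | ⟨o, o', h1, h2, h3⟩
    · exact Or.inl ⟨mt (of_ori hP s) n1, mt (of_ori hP s') n2⟩
    · refine Or.inr ⟨ori_of s h1, ori_of s' h2, ?_⟩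
      obtain ⟨z, hz⟩ := colour s h1
      obtain ⟨z', hz'⟩ := colour s' h2
      have key : ∀ t ∈ L', (al s').a t = t → (W.a (μ (W'.a t)) ∈ L ↔ (z' ↔ z)) := by
        intro t ht e
        have m := memL s' ht
        have r := (fix_iff s' m).1 e
        rw [hz _ ((mem_tm s).1 (a_tm s (hμ.mapsTo r))).1, (h1 _ (s.sub (hμ.mapsTo r))).1,
          ← h3 _ r, (h2 t m.1).1, not_not, (hz' t m).1 ht]
      by_cases k : z' ↔ z
      · exact Or.inl fun t ht e => (key t ht e).2 k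
      · exact Or.inr fun t ht e m => k ((key t ht e).1 m)
  · intro p hp q hq
    simp only [aa' p hp, aa' q hq, aa p hp, aa q hq, hν p hp, hν q hq]

end Pool.Agent.MP_9d78a0_co.gm

end MrgPart3

-- ======== part 4: formerly Pool.Agent.MP_9d78a0_co.gm.RWordF
section MrgPart4

/-! Words: the normal form under slides. -/

set_option autoImplicit false

namespace Pool.Agent.MP_9d78a0_co.gm.Wf

open Set Function

variable {Φ : Type} (A : Al Φ)

/-- equivalence under slides -/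
def E (L L1 : List Φ) : Prop := Relation.EqvGen A.Sl L L1

/-- the other end of an untwisted loop -/
def pr (x : Φ) : Φ := A.c (A.a x)

/-- a loop round a word -/
def hole (x : Φ) (Z : List Φ) : List Φ := x :: (Z ++ [pr A x])

/-- a word that commutes with all words -/
def Cen (B : List Φ) : Prop :=
  ∀ P W R : List Φ, E A (P ++ (W ++ (B ++ R))) (P ++ (B ++ (W ++ R)))

/-- a product of crosscaps -/
inductive Caps : List Φ → Prop
  | nil : Caps []
  | cons (x : Φ) (Q : List Φ) : A.a x ≠ x → Caps Q → Caps (x :: A.a x :: Q)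

/-- a product of handles -/
inductive Hans : List Φ → Prop
  | nil : Hans []
  | cons (x y : Φ) (Q : List Φ) : A.a x ≠ x → A.a y ≠ y → Hans Q →
      Hans (x :: y :: pr A x :: pr A y :: Q)

/-- a product of holes -/
def hw (H : List (Φ × List Φ)) : List Φ := H.flatMap fun h => hole A h.1 h.2

variable {A}

theorem E.refl (L : List Φ) : E A L L := Relation.EqvGen.refl _
theorem E.symm {L M : List Φ} (h : E A L M) : E A M L := Relation.EqvGen.symm _ _ h
theorem E.trans {L M N : List Φ} (h : E A L M) (k : E A M N) : E A L N :=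
  Relation.EqvGen.trans _ _ _ h k
theorem E.cast {L M L' M' : List Φ} (h : E A L M) (e1 : L' = L) (e2 : M = M') : E A L' M' :=
  e1 ▸ e2 ▸ h

theorem pr_pr (x : Φ) : pr A (pr A x) = x := by
  unfold pr; rw [A.ac, A.aa, A.cc]

theorem c_pr (x : Φ) : A.c (pr A x) = A.a x := A.cc _

theorem a_pr (x : Φ) : A.a (pr A x) = A.c x := by unfold pr; rw [A.ac, A.aa]

theorem c_inj {x y : Φ} (h : A.c x = A.c y) : x = y := by rw [← A.cc x, h, A.cc]

theorem nt_c {x : Φ} (h : A.a x ≠ x) : A.a (A.c x) ≠ A.c x := fun k => h (c_inj (A.ac x ▸ k))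

theorem nt_a {x : Φ} (h : A.a x ≠ x) : A.a (A.a x) ≠ A.a x := fun k =>
  h (by rw [← k, A.aa])

theorem nt_pr {x : Φ} (h : A.a x ≠ x) : A.a (pr A x) ≠ pr A x := nt_c (nt_a h)

theorem t_c {x : Φ} (h : A.a x = x) : A.a (A.c x) = A.c x := by rw [A.ac, h]

theorem pr_ne {x : Φ} (h : A.a x ≠ x) : pr A x ≠ x := fun k =>
  h (A.ne x (by rw [← c_pr, k]))

theorem inv_cons (y : Φ) (W : List Φ) : A.inv (y :: W) = A.inv W ++ [A.c y] := by simp [Al.inv]

theorem mem_dbl {L : List Φ} {u : Φ} : u ∈ A.dbl L ↔ u ∈ L ∨ A.c u ∈ L := by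
  simp only [Al.dbl, List.mem_append, List.mem_map]
  refine or_congr Iff.rfl ⟨fun ⟨w, hw, e⟩ => by rw [← e, A.cc]; exact hw, fun h => ⟨_, h, A.cc u⟩⟩

theorem mem_inv {L : List Φ} {u : Φ} : u ∈ A.inv L ↔ A.c u ∈ L := by
  simp only [Al.inv, List.mem_reverse, List.mem_map]
  exact ⟨fun ⟨w, hw, e⟩ => by rw [← e, A.cc]; exact hw, fun h => ⟨_, h, A.cc u⟩⟩

theorem dbl_append (X Y : List Φ) : (A.dbl (X ++ Y)).Perm (A.dbl X ++ A.dbl Y) := by
  classical
  rw [List.perm_iff_count]; intro u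
  simp only [Al.dbl, List.map_append, List.count_append]; omega

theorem dbl_perm {X Y : List Φ} (h : X.Perm Y) : (A.dbl X).Perm (A.dbl Y) :=
  h.append (h.map _)

theorem dbl_inv (X : List Φ) : (A.dbl (A.inv X)).Perm (A.dbl X) := by
  have : (A.c ∘ A.c) = id := funext A.cc
  simp only [Al.dbl, Al.inv, List.map_reverse, List.map_map, this, List.map_id]
  exact ((List.reverse_perm _).append (List.reverse_perm _)).trans List.perm_append_comm

theorem E.perm {L M : List Φ} (h : E A L M) : (A.dbl L).Perm (A.dbl M) := by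
  classical
  induction h with
  | rel _ _ h =>
    rw [List.perm_iff_count]; intro u
    cases h <;>
      simp only [Al.dbl, List.map_append, List.map_cons, List.count_append, List.count_cons,
        A.cc] <;> omega
  | refl => exact List.Perm.refl _
  | symm _ _ _ ih => exact ih.symm
  | trans _ _ _ _ _ i1 i2 => exact i1.trans i2

theorem wf_perm {L M : List Φ} (h : (A.dbl L).Perm (A.dbl M)) (w : A.WF L) : A.WF M :=
  ⟨h.nodup_iff.1 w.1, fun u hu => h.mem_iff.1 (w.2 u (h.mem_iff.2 hu))⟩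

theorem E.len {L M : List Φ} (h : E A L M) : L.length = M.length := by
  have := h.perm.length_eq
  simp only [Al.dbl, List.length_append, List.length_map] at this; omega

theorem wf_drop {B X : List Φ} (w : A.WF (B ++ X)) (hB : ∀ u ∈ A.dbl B, A.a u ∈ A.dbl B) :
    A.WF X := by
  have p := dbl_append (A := A) B X
  have n := List.nodup_append.1 (p.nodup_iff.1 w.1)
  refine ⟨n.2.1, fun u hu => ?_⟩
  rcases List.mem_append.1 (p.mem_iff.1 (w.2 u (p.mem_iff.2 (List.mem_append_right _ hu)))) with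
    h | h
  · have := hB _ h
    rw [A.aa] at this
    exact absurd rfl (n.2.2 u this u hu)
  · exact h

theorem E.ctx {X Y : List Φ} (h : E A X Y) (P : List Φ) : E A (P ++ X) (P ++ Y) := by
  induction h with
  | rel _ _ h =>
    refine Relation.EqvGen.rel _ _ ?_
    cases h with
    | u1 P' Z R x y h => simpa using Al.Sl.u1 (P ++ P') Z R x y h
    | u2 P' Z R x y h => simpa using Al.Sl.u2 (P ++ P') Z R x y h
    | t1 P' Z R x y h => simpa using Al.Sl.t1 (P ++ P') Z R x y h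
    | t2 P' Z R x y h => simpa using Al.Sl.t2 (P ++ P') Z R x y h
  | refl => exact E.refl _
  | symm _ _ _ ih => exact ih.symm
  | trans _ _ _ _ _ i1 i2 => exact i1.trans i2

theorem u1b {x : Φ} (h : A.a x ≠ x) (Z R W : List Φ) : ∀ P : List Φ,
    E A (P ++ (W ++ x :: (Z ++ pr A x :: R))) (P ++ x :: (Z ++ pr A x :: (W ++ R))) := by
  induction W with
  | nil => intro P; exact E.refl _
  | cons y W ih =>
    intro P
    refine ((ih (P ++ [y])).cast (by simp) ?_).trans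
      (Relation.EqvGen.rel _ _ (Al.Sl.u1 P Z (W ++ R) x y h))
    simp [pr]

theorem u2b {x : Φ} (h : A.a x ≠ x) (P R W : List Φ) : ∀ Z : List Φ,
    E A (P ++ x :: (W ++ (Z ++ pr A x :: R))) (P ++ x :: (Z ++ (W ++ pr A x :: R))) := by
  induction W with
  | nil => intro Z; exact E.refl _
  | cons y W ih =>
    intro Z
    refine (E.cast (Relation.EqvGen.rel _ _ (Al.Sl.u2 P (W ++ Z) R x y h)) (by simp [pr]) ?_).trans
      ((ih (Z ++ [y])).cast rfl (by simp))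
    simp [pr]

theorem t2b {x : Φ} (h : A.a x ≠ x) (P Z W : List Φ) : ∀ R : List Φ,
    E A (P ++ x :: (W ++ (Z ++ A.a x :: R))) (P ++ x :: (Z ++ A.a x :: (A.inv W ++ R))) := by
  induction W with
  | nil => intro R; exact E.refl _
  | cons y W ih =>
    intro R
    refine (E.cast (Relation.EqvGen.rel _ _ (Al.Sl.t2 P (W ++ Z) R x y h)) (by simp) ?_).trans
      ((ih (A.c y :: R)).cast rfl (by simp [inv_cons]))
    simp

theorem cen_hole {x : Φ} (h : A.a x ≠ x) (Z : List Φ) : Cen A (hole A x Z) := fun P W R =>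
  (u1b h Z R W P).cast (by simp [hole]) (by simp [hole])

theorem cen_cap {x : Φ} (h : A.a x ≠ x) : Cen A [x, A.a x] := by
  intro P W R
  induction W generalizing P with
  | nil => exact E.refl _
  | cons y W ih =>
    have h1 : E A (P ++ y :: x :: A.a x :: (W ++ R)) (P ++ x :: A.c y :: A.a x :: (W ++ R)) :=
      Relation.EqvGen.rel _ _ (Al.Sl.t1 P [] (W ++ R) x y h)
    have h2 : E A (P ++ x :: A.c y :: A.a x :: (W ++ R))
        (P ++ x :: A.a x :: A.c (A.c y) :: (W ++ R)) :=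
      Relation.EqvGen.rel _ _ (Al.Sl.t2 P [] (W ++ R) x (A.c y) h)
    exact ((ih (P ++ [y])).cast (by simp) (by simp)).trans (h1.trans (h2.cast rfl (by simp [A.cc])))

theorem cen_han {x y : Φ} (hx : A.a x ≠ x) (hy : A.a y ≠ y) :
    Cen A [x, y, pr A x, pr A y] := by
  intro P W R
  have h1 := u1b hx [y] (pr A y :: R) W P
  have h2 := u2b hy (P ++ [x]) R [pr A x] W
  have h3 := u2b hx P (pr A y :: R) [y] W
  have h4 := u1b hy [pr A x] R W (P ++ [x])
  exact (h1.cast (by simp) (by simp)).trans ((h2.cast rfl (by simp)).trans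
    ((h3.cast rfl (by simp)).trans (h4.cast rfl (by simp))))

theorem cap_ext {x : Φ} (h : A.a x ≠ x) (P X Z R : List Φ) :
    E A (P ++ (X ++ x :: (Z ++ A.a x :: R))) (P ++ x :: A.a x :: (X ++ (A.inv Z ++ R))) :=
  ((t2b h (P ++ X) [] Z R).cast (by simp) (by simp)).trans
    ((cen_cap h P X (A.inv Z ++ R)).cast rfl (by simp))

theorem han_ext {x y : Φ} (hx : A.a x ≠ x) (hy : A.a y ≠ y) (P X Y Z R : List Φ) :
    E A (P ++ x :: (X ++ y :: (Y ++ pr A x :: (Z ++ pr A y :: R))))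
      ([x, y, pr A x, pr A y] ++ (P ++ (Z ++ (Y ++ X)) ++ R)) := by
  have h1 := u2b hx P (Z ++ pr A y :: R) X (y :: Y)
  have h2 := u2b hy (P ++ [x]) R (Y ++ X) (pr A x :: Z)
  have h3 := (u1b hx [y] (pr A y :: R) (Z ++ (Y ++ X)) P).symm
  have h4 := cen_han hx hy [] (P ++ (Z ++ (Y ++ X))) R
  exact (h1.cast (by simp) (by simp)).trans ((h2.cast rfl (by simp)).trans
    ((h3.cast rfl (by simp)).trans (h4.cast rfl (by simp))))

theorem Caps.append {Q Q' : List Φ} (h : Caps A Q) (k : Caps A Q') : Caps A (Q ++ Q') := by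
  induction h with
  | nil => exact k
  | cons x Q hx _ ih => exact Caps.cons x _ hx ih

theorem cap_hans {Q : List Φ} (h : Hans A Q) {x : Φ} (hx : A.a x ≠ x) :
    ∃ C, Caps A C ∧ C ≠ [] ∧ ∀ P R, E A (P ++ x :: A.a x :: (Q ++ R)) (P ++ (C ++ R)) := by
  induction h with
  | nil => exact ⟨[x, A.a x], Caps.cons x _ hx Caps.nil, by simp, fun P R => E.refl _⟩
  | cons u v Q hu hv _ ih =>
    obtain ⟨C, hC, -, k⟩ := ih
    refine ⟨A.c v :: A.a (A.c v) :: A.a u :: A.a (A.a u) :: C,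
      Caps.cons _ _ (nt_c hv) (Caps.cons _ _ (nt_a hu) hC), by simp, fun P R => ?_⟩
    have h1 := (t2b hx P [] [A.c v, A.c u] (pr A u :: pr A v :: (Q ++ R))).symm
    have h2 := cap_ext (nt_c hv) P [x] [A.c u, A.a x, pr A u] (Q ++ R)
    have h3 := cap_ext (nt_a hu) (P ++ [A.c v, A.a (A.c v)]) [x] [A.c (A.a x)] (Q ++ R)
    have h4 := k (P ++ [A.c v, A.a (A.c v), A.a u, A.a (A.a u)]) R
    exact (h1.cast (by simp [Al.inv, A.cc]) (by simp [pr, A.ac])).trans
      ((h2.cast rfl (by simp [Al.inv, A.cc, A.aa, pr])).trans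
      ((h3.cast rfl (by simp [Al.inv, A.cc])).trans (h4.cast rfl (by simp))))

theorem two_split {X : List Φ} {x y : Φ} (hx : x ∈ X) (hy : y ∈ X) (h : x ≠ y) :
    (∃ P Z R, X = P ++ x :: (Z ++ y :: R)) ∨ ∃ P Z R, X = P ++ y :: (Z ++ x :: R) := by
  obtain ⟨P, R, rfl⟩ := List.append_of_mem hx
  rcases List.mem_append.1 hy with k | k
  · obtain ⟨P1, P2, rfl⟩ := List.append_of_mem k
    exact Or.inr ⟨P1, P2, R, by simp⟩
  · rcases List.mem_cons.1 k with k | k
    · exact absurd k.symm h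
    · obtain ⟨R1, R2, rfl⟩ := List.append_of_mem k
      exact Or.inl ⟨P, R1, R2, rfl⟩

theorem pr_split {X : List Φ} {x : Φ} (h : A.a x ≠ x) (hx : x ∈ X) (hy : pr A x ∈ X) :
    ∃ w P Z R, A.a w ≠ w ∧ X = P ++ w :: (Z ++ pr A w :: R) := by
  rcases two_split hx hy (pr_ne h).symm with ⟨P, Z, R, e⟩ | ⟨P, Z, R, e⟩
  · exact ⟨x, P, Z, R, h, e⟩
  · exact ⟨pr A x, P, Z, R, nt_pr h, by rw [pr_pr]; exact e⟩

theorem find {X : List Φ} (nd : X.Nodup) (cl : ∀ u ∈ X, A.a u ≠ u → pr A u ∈ X) :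
    ∀ (n : ℕ) (x : Φ) (P Z R : List Φ), Z.length < n → A.a x ≠ x →
      X = P ++ x :: (Z ++ pr A x :: R) →
      (∃ x P Z R, A.a x ≠ x ∧ (∀ u ∈ Z, A.a u = u) ∧ X = P ++ x :: (Z ++ pr A x :: R)) ∨
      ∃ x y P X1 Y Z R, A.a x ≠ x ∧ A.a y ≠ y ∧
        X = P ++ x :: (X1 ++ y :: (Y ++ pr A x :: (Z ++ pr A y :: R))) := by
  intro n
  induction n with
  | zero => intro x P Z R h; omega
  | succ n ih =>
    intro x P Z R hl hx e
    by_cases hZ : ∀ u ∈ Z, A.a u = u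
    · exact Or.inl ⟨x, P, Z, R, hx, hZ, e⟩
    obtain ⟨y, hy0⟩ := not_forall.1 hZ
    obtain ⟨hyZ, hy⟩ := Classical.not_imp.1 hy0
    have hm := cl y (by rw [e]; simp [hyZ]) hy
    have nd' := nd
    rw [e] at hm nd'
    simp only [List.mem_append, List.mem_cons] at hm
    simp only [List.nodup_append, List.nodup_cons, List.mem_append, List.mem_cons] at nd'
    rcases hm with k | k | k | k | k
    · obtain ⟨P1, P2, rfl⟩ := List.append_of_mem k
      obtain ⟨Z1, Z2, rfl⟩ := List.append_of_mem hyZ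
      exact Or.inr ⟨pr A y, x, P1, P2, Z1, Z2, R, nt_pr hy, hx, by rw [e, pr_pr]; simp⟩
    · exact absurd (by rw [← k, pr_pr]) (nd'.2.1.2.2.2 y hyZ _ (Or.inl rfl))
    · obtain ⟨w, P1, Z1, R1, hw, e1⟩ := pr_split hy hyZ k
      refine ih w (P ++ x :: P1) Z1 (R1 ++ pr A x :: R) ?_ hw (by rw [e, e1]; simp)
      have := congrArg List.length e1
      simp only [List.length_append, List.length_cons] at this
      omega
    · have : y = x := by rw [← pr_pr (A := A) y, k, pr_pr]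
      exact absurd (Or.inl (this ▸ hyZ)) nd'.2.1.1
    · obtain ⟨R1, R2, rfl⟩ := List.append_of_mem k
      obtain ⟨Z1, Z2, rfl⟩ := List.append_of_mem hyZ
      exact Or.inr ⟨x, y, P, Z1, Z2, R1, R2, hx, hy, by rw [e]; simp⟩

theorem nf0 : ∀ (n : ℕ) (X : List Φ), X.length < n → A.WF X →
    ∃ C Q H Y, Caps A C ∧ Hans A Q ∧ (∀ h ∈ H, A.a h.1 ≠ h.1 ∧ ∀ u ∈ h.2, A.a u = u) ∧
      (∀ u ∈ Y, A.a u = u) ∧ E A X (C ++ (Q ++ (hw A H ++ Y))) := by
  intro n
  induction n with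
  | zero => intro X h; omega
  | succ n ih =>
    intro X hl w
    have step : ∀ B X1 : List Φ, E A X (B ++ X1) → B ≠ [] → (∀ u ∈ B, A.a u ∈ A.dbl B) →
        ∃ C Q H Y, Caps A C ∧ Hans A Q ∧ (∀ h ∈ H, A.a h.1 ≠ h.1 ∧ ∀ u ∈ h.2, A.a u = u) ∧
        (∀ u ∈ Y, A.a u = u) ∧ E A X (B ++ (C ++ (Q ++ (hw A H ++ Y)))) := by
      intro B X1 e hB cl
      have l1 := e.len
      have l2 := List.length_pos_iff.2 hB
      rw [List.length_append] at l1
      obtain ⟨C, Q, H, Y, h1, h2, h3, h4, h5⟩ := ih X1 (by omega)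
        (wf_drop (wf_perm e.perm w) fun u hu => by
          rcases mem_dbl.1 hu with k | k
          · exact cl u k
          · have := cl _ k
            rw [A.ac, mem_dbl, A.cc] at this
            exact mem_dbl.2 this.symm)
      exact ⟨C, Q, H, Y, h1, h2, h3, h4, e.trans (h5.ctx B)⟩
    by_cases h1 : ∃ x ∈ X, A.a x ≠ x ∧ A.a x ∈ X
    · obtain ⟨x, P, Z, R, hx, e⟩ : ∃ x P Z R, A.a x ≠ x ∧ X = P ++ x :: (Z ++ A.a x :: R) := by
        obtain ⟨x, m1, hx, m2⟩ := h1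
        rcases two_split m1 m2 hx.symm with ⟨P, Z, R, e⟩ | ⟨P, Z, R, e⟩
        · exact ⟨x, P, Z, R, hx, e⟩
        · exact ⟨A.a x, P, Z, R, nt_a hx, by rw [A.aa]; exact e⟩
      obtain ⟨C, Q, H, Y, h1, h2, h3, h4, h5⟩ := step [x, A.a x] (P ++ (A.inv Z ++ R))
        ((cap_ext hx [] P Z R).cast e rfl) (by simp) (by simp [mem_dbl, A.aa])
      exact ⟨x :: A.a x :: C, Q, H, Y, Caps.cons _ _ hx h1, h2, h3, h4, h5⟩
    by_cases h2 : ∀ u ∈ X, A.a u = u
    · exact ⟨[], [], [], X, Caps.nil, Hans.nil, by simp, h2, E.refl _⟩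
    have cl : ∀ u ∈ X, A.a u ≠ u → pr A u ∈ X := fun u hu k =>
      (mem_dbl.1 (w.2 u (mem_dbl.2 (Or.inl hu)))).resolve_left fun m => h1 ⟨u, hu, k, m⟩
    obtain ⟨y, hy0⟩ := not_forall.1 h2
    obtain ⟨hyX, hy⟩ := Classical.not_imp.1 hy0
    obtain ⟨x, P, Z, R, hx, e⟩ := pr_split hy hyX (cl y hyX hy)
    rcases find (List.nodup_append.1 w.1).1 cl _ x P Z R (Nat.lt_add_one _) hx e with
      ⟨x, P, Z, R, hx, hZ, e⟩ | ⟨x, y, P, X1, Y, Z, R, hx, hy, e⟩
    · obtain ⟨C, Q, H, Y, h1, h2, h3, h4, h5⟩ := step (hole A x Z) (P ++ R)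
        ((cen_hole hx Z [] P R).cast (by rw [e]; simp [hole]) rfl) (by simp [hole]) (by
          intro u hu
          simp only [hole, List.mem_cons, List.mem_append, List.not_mem_nil, or_false] at hu
          rcases hu with rfl | hu | rfl
          · simp [mem_dbl, hole, pr]
          · rw [hZ u hu]; simp [mem_dbl, hole, hu]
          · simp [mem_dbl, hole, a_pr, A.cc])
      refine ⟨C, Q, (x, Z) :: H, Y, h1, h2, ?_, h4,
        h5.trans ((cen_hole hx Z [] (C ++ Q) (hw A H ++ Y)).symm.cast (by simp) (by simp [hw]))⟩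
      intro h hh
      rcases List.mem_cons.1 hh with rfl | hh
      · exact ⟨hx, hZ⟩
      · exact h3 h hh
    · obtain ⟨C, Q, H, Y', h1, h2, h3, h4, h5⟩ := step [x, y, pr A x, pr A y] _
        ((han_ext hx hy P X1 Y Z R).cast e rfl) (by simp)
        (by simp [mem_dbl, pr, A.ac, A.aa, A.cc])
      exact ⟨C, _, H, Y', h1, Hans.cons x y Q hx hy h2, h3, h4,
        h5.trans ((cen_han hx hy [] C (Q ++ (hw A H ++ Y'))).symm.cast (by simp) (by simp))⟩

/-- the normal form -/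
theorem nf {X : List Φ} (w : A.WF X) :
    ∃ Q H Y, ((Caps A Q ∧ Q ≠ []) ∨ Hans A Q) ∧
      (∀ h ∈ H, A.a h.1 ≠ h.1 ∧ ∀ u ∈ h.2, A.a u = u) ∧
      (∀ u ∈ Y, A.a u = u) ∧ E A X (Q ++ (hw A H ++ Y)) := by
  obtain ⟨C, Q, H, Y, h1, h2, h3, h4, h5⟩ := nf0 _ X (Nat.lt_add_one _) w
  cases h1 with
  | nil => exact ⟨Q, H, Y, Or.inr h2, h3, h4, h5⟩
  | cons x C hx hC =>
    obtain ⟨C1, k1, k2, k3⟩ := cap_hans h2 hx
    refine ⟨C ++ C1, H, Y, Or.inl ⟨hC.append k1, by simp [k2]⟩, h3, h4, h5.trans ?_⟩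
    exact ((cen_cap hx [] C (Q ++ (hw A H ++ Y))).symm.cast (by simp) (by simp)).trans
      ((k3 C (hw A H ++ Y)).cast rfl (by simp))

/-- holes are turned over after the word `Q` -/
def Fl (A : Al Φ) (Q : List Φ) : Prop :=
  ∀ (x : Φ) (Z W R : List Φ), A.a x ≠ x →
    E A (Q ++ (W ++ (hole A x Z ++ R))) (Q ++ (W ++ (hole A (A.a x) (A.inv Z) ++ R)))

theorem Fl.append {Q : List Φ} (h : Fl A Q) (V : List Φ) : Fl A (Q ++ V) := fun x Z W R hx =>
  (h x Z (V ++ W) R hx).cast (by simp) (by simp)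

theorem fl_cap {y : Φ} (hy : A.a y ≠ y) (P : List Φ) : Fl A (P ++ [y, A.a y]) := by
  intro x Z W R hx
  have e : A.inv (hole A (A.a x) (A.inv Z)) = hole A x Z := by
    have : (A.c ∘ A.c) = id := funext A.cc
    simp [Al.inv, hole, pr, A.aa, A.cc, List.map_reverse, List.map_map, this]
  have h1 := cen_hole hx Z (P ++ [y, A.a y]) W R
  have h2 := (t2b hy P [] (hole A (A.a x) (A.inv Z)) (W ++ R)).symm
  have h3 := (cen_hole (nt_a hx) (A.inv Z) (P ++ [y]) (A.a y :: W) R).symm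
  rw [e] at h2
  exact h1.trans ((h2.cast (by simp) (by simp)).trans (h3.cast rfl (by simp)))

end Pool.Agent.MP_9d78a0_co.gm.Wf

end MrgPart4

-- marker of a merged file
example : 731051 + 683853 = 731051 + 683853 := rfl
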