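import Pool.Agent.MP_9d78a0_co.gm.RWordC
import Pool.Agent.MP_9d78a0_co.gm.RWordF

-- ======== part 0: formerly Pool.Agent.MP_9d78a0_co.gm.RExt
section MrgPart0

/-! Routing: prolongation of bands, gluing of potentials. -/

set_option autoImplicit false

namespace Pool.Agent.MP_9d78a0_co.gm

open Set Function

namespace RExt

/-- strictly monotone on an initial interval -/
def Mo (c : ℕ → ℕ) (w : ℕ) : Prop :=
  (∀ j < w, ∀ i < j, c i < c j) ∨ ∀ j < w, ∀ i < j, c j < c i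

theorem chain {c : ℕ → ℕ} {w : ℕ} (h : ∀ j, j + 1 < w → c j < c (j + 1)) :
    ∀ j < w, ∀ i < j, c i < c j := by
  intro j
  induction j with
  | zero => intro _ i hi; omega
  | succ j ih =>
    intro hj i hi
    have h1 := h j hj
    rcases Nat.lt_succ_iff_lt_or_eq.1 hi with k | k
    · have := ih (by omega) i k
      omega
    · subst k; exact h1

theorem chain' {c : ℕ → ℕ} {w : ℕ} (h : ∀ j, j + 1 < w → c (j + 1) < c j) :
    ∀ j < w, ∀ i < j, c j < c i := by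
  intro j
  induction j with
  | zero => intro _ i hi; omega
  | succ j ih =>
    intro hj i hi
    have h1 := h j hj
    rcases Nat.lt_succ_iff_lt_or_eq.1 hi with k | k
    · have := ih (by omega) i k
      omega
    · subst k; exact h1

variable {c : ℕ → ℕ} {w : ℕ}

theorem Mo.cmp (h : Mo c w) {i j k : ℕ} (hij : i ≤ j) (hjk : j ≤ k) (hk : k < w) :
    min (c i) (c k) ≤ c j ∧ c j ≤ max (c i) (c k) := by
  rcases h with h | h
  · have h1 := h j (by omega) i
    have h2 := h k hk j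
    rcases hij.lt_or_eq with a | a <;> rcases hjk.lt_or_eq with b | b
    · have := h1 a; have := h2 b; omega
    · subst b; omega
    · subst a; omega
    · subst a; omega
  · have h1 := h j (by omega) i
    have h2 := h k hk j
    rcases hij.lt_or_eq with a | a <;> rcases hjk.lt_or_eq with b | b
    · have := h1 a; have := h2 b; omega
    · subst b; omega
    · subst a; omega
    · subst a; omega

theorem Mo.scmp (h : Mo c w) {i j k : ℕ} (hij : i < j) (hjk : j < k) (hk : k < w) :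
    min (c i) (c k) < c j ∧ c j < max (c i) (c k) := by
  rcases h with h | h
  · have h1 := h j (by omega) i hij
    have h2 := h k hk j hjk
    omega
  · have h1 := h j (by omega) i hij
    have h2 := h k hk j hjk
    omega

theorem Mo.inj (h : Mo c w) {i j : ℕ} (hi : i < w) (hj : j < w) (e : c i = c j) : i = j := by
  rcases lt_trichotomy i j with k | k | k
  · rcases h with h | h <;> have := h j hj i k <;> omega
  · exact k
  · rcases h with h | h <;> have := h i hi j k <;> omega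

theorem Mo.btw (h : Mo c w) {i j : ℕ} (hi : i < w) (hj : j + 1 < w)
    (h1 : min (c j) (c (j + 1)) < c i) (h2 : c i < max (c j) (c (j + 1))) : False := by
  rcases lt_trichotomy i j with k | k | k
  · rcases h with h | h
    · have := h j (by omega) i k; have := h (j + 1) hj i (by omega); omega
    · have := h j (by omega) i k; have := h (j + 1) hj i (by omega); omega
  · subst k; omega
  · rcases (Nat.succ_le_of_lt k).lt_or_eq with k' | k'
    · rcases h with h | h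
      · have := h i hi j k; have := h i hi (j + 1) k'; omega
      · have := h i hi j k; have := h i hi (j + 1) k'; omega
    · have : c (j + 1) = c i := by rw [← k']
      omega

theorem Mo.two (h : Mo c w) {i j y : ℕ} (hi : i + 1 < w) (hj : j + 1 < w)
    (h1 : 2 * min (c j) (c (j + 1)) < y) (h2 : y < 2 * max (c j) (c (j + 1)))
    (h3 : 2 * min (c i) (c (i + 1)) < y) (h4 : y < 2 * max (c i) (c (i + 1))) : i = j := by
  have key : ∀ i j : ℕ, i < j → j + 1 < w → 2 * min (c j) (c (j + 1)) < y →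
      y < 2 * max (c j) (c (j + 1)) → 2 * min (c i) (c (i + 1)) < y →
      y < 2 * max (c i) (c (i + 1)) → False := by
    intro i j k hj h1 h2 h3 h4
    rcases h with h | h
    · have a1 := h (j + 1) hj j (by omega)
      have a2 := h (i + 1) (by omega) i (by omega)
      rcases (Nat.succ_le_of_lt k).lt_or_eq with k' | k'
      · have := h j (by omega) (i + 1) k'; omega
      · have : c (i + 1) = c j := by rw [← k']
        omega
    · have a1 := h (j + 1) hj j (by omega)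
      have a2 := h (i + 1) (by omega) i (by omega)
      rcases (Nat.succ_le_of_lt k).lt_or_eq with k' | k'
      · have := h j (by omega) (i + 1) k'; omega
      · have : c (i + 1) = c j := by rw [← k']
        omega
  rcases lt_trichotomy i j with k | k | k
  · exact (key i j k hj h1 h2 h3 h4).elim
  · exact k
  · exact (key j i k hi h3 h4 h1 h2).elim

theorem ivt (c : ℕ → ℕ) (y : ℕ) : ∀ n, min (c 0) (c n) ≤ y → y + 1 ≤ max (c 0) (c n) →
    ∃ j < n, min (c j) (c (j + 1)) ≤ y ∧ y + 1 ≤ max (c j) (c (j + 1)) := by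
  intro n
  induction n with
  | zero => intro h1 h2; omega
  | succ n ih =>
    intro h1 h2
    by_cases k : min (c n) (c (n + 1)) ≤ y ∧ y + 1 ≤ max (c n) (c (n + 1))
    · exact ⟨n, by omega, k⟩
    · obtain ⟨j, hj, k'⟩ := ih (by omega) (by omega)
      exact ⟨j, by omega, k'⟩

theorem Mo.loc (h : Mo c w) {a b j y : ℕ} (hab : a < b) (hb : b < w) (hj : j + 1 < w)
    (h1 : 2 * min (c a) (c b) < y) (h2 : y < 2 * max (c a) (c b))
    (h3 : 2 * min (c j) (c (j + 1)) ≤ y) (h4 : y ≤ 2 * max (c j) (c (j + 1))) :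
    a ≤ j ∧ j < b := by
  rcases h with h | h
  · have a0 := h b hb a hab
    have a1 := h (j + 1) hj j (by omega)
    constructor
    · by_contra k
      rcases (show j + 1 ≤ a by omega).lt_or_eq with k' | k'
      · have := h a (by omega) (j + 1) k'; omega
      · have : c (j + 1) = c a := by rw [k']
        omega
    · by_contra k
      rcases (show b ≤ j by omega).lt_or_eq with k' | k'
      · have := h j (by omega) b k'; omega
      · have : c b = c j := by rw [k']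
        omega
  · have a0 := h b hb a hab
    have a1 := h (j + 1) hj j (by omega)
    constructor
    · by_contra k
      rcases (show j + 1 ≤ a by omega).lt_or_eq with k' | k'
      · have := h a (by omega) (j + 1) k'; omega
      · have : c (j + 1) = c a := by rw [k']
        omega
    · by_contra k
      rcases (show b ≤ j by omega).lt_or_eq with k' | k'
      · have := h j (by omega) b k'; omega
      · have : c b = c j := by rw [k']
        omega

variable {Φ V : Type} {M : FM Φ} {vx : Φ → V} {H : Set V} {ch : Ch V} {bn : Bn V} {t μ : ℕ}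

theorem mo (h : bn.Ok ch M vx H t μ) {b : ℕ} (hb : b < bn.r) (e : Bool) :
    Mo (bn.col b e) bn.w := by
  cases e with
  | false => exact Or.inl (chain (h.mo0 b hb))
  | true =>
    cases hu : bn.up b with
    | true => exact Or.inl (chain fun j hj => (h.mo1 b hb j hj).1 hu)
    | false => exact Or.inr (chain' fun j hj => (h.mo1 b hb j hj).2 hu)

theorem bd (h : bn.Ok ch M vx H t μ) {b : ℕ} (hb : b < bn.r) (e : Bool) {j : ℕ} (hj : j < bn.w) :
    bn.lo b e ≤ bn.col b e j ∧ bn.col b e j ≤ bn.hi b e :=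
  (mo h hb e).cmp (Nat.zero_le j) (by omega) (by omega)

theorem rng (h : bn.Ok ch M vx H t μ) {b : ℕ} (hb : b < bn.r) (e : Bool) :
    μ < bn.lo b e ∧ bn.hi b e + μ < ch.s := by
  have h2 := h.two
  have a := h.cen b hb e 0 (by omega)
  have a' := h.cen b hb e (bn.w - 1) (by omega)
  unfold Ch.cen at a a'
  unfold Bn.lo Bn.hi
  omega

/-- two ends whose doubled intervals come close are equal -/
theorem same (h : bn.Ok ch M vx H t μ) {b b' : ℕ} (hb : b < bn.r) (hb' : b' < bn.r)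
    {e e' : Bool} {y y' : ℕ} (h1 : 2 * bn.lo b e ≤ y) (h2 : y ≤ 2 * bn.hi b e)
    (h3 : 2 * bn.lo b' e' ≤ y') (h4 : y' ≤ 2 * bn.hi b' e') (h5 : y ≤ y' + 2) (h6 : y' ≤ y + 2) :
    b = b' ∧ e = e' := by
  by_contra k
  have := h.gap b hb e b' hb' e' (fun q => k (Prod.mk.inj q))
  omega

theorem segA_core (h : bn.Ok ch M vx H t μ) (ht : t ≤ μ) (hs : 2 * μ < ch.s) {b : ℕ}
    (hb : b < bn.r) (e : Bool) : bn.segA ch t b e ⊆ ch.core t := by
  rintro v ⟨h0, h1, h2, h3, h4⟩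
  have := rng h hb e
  exact ⟨h0, by omega, by omega, by omega, by omega⟩

theorem seg_segA (h : bn.Ok ch M vx H t μ) {b : ℕ} (hb : b < bn.r) (e : Bool) {j : ℕ}
    (hj : j + 1 < bn.w) : bn.seg ch t b e j ⊆ bn.segA ch t b e := by
  rintro v ⟨h0, h1, h2, h3, h4⟩
  have a := bd h hb e (j := j) (by omega)
  have a' := bd h hb e hj
  exact ⟨h0, h1, h2, by omega, by omega⟩

theorem tile_disc (h : bn.Ok ch M vx H t μ) {b : ℕ} (hb : b < bn.r) {j : ℕ}
    (hj : j + 1 < bn.w) : bn.tile ch t b j ⊆ bn.disc ch t b := by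
  rintro v ((((k | k) | k) | k) | k)
  · exact Or.inl (Or.inl (Or.inl ⟨j, by omega, k⟩))
  · exact Or.inl (Or.inl (Or.inl ⟨j + 1, hj, k⟩))
  · exact Or.inl (Or.inl (Or.inr ⟨j, hj, k⟩))
  · exact Or.inl (Or.inr (seg_segA h hb false hj k))
  · exact Or.inr (seg_segA h hb true hj k)

theorem inner_body {b : ℕ} : bn.inner b ⊆ bn.body b := by
  rintro v (⟨j, -, h2, k⟩ | k)
  · exact Or.inl ⟨j, by omega, k⟩
  · exact Or.inr k

theorem body_eq (h : bn.Ok ch M vx H t μ) {b b' : ℕ} (hb : b < bn.r) (hb' : b' < bn.r) {v : V}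
    (hv : v ∈ bn.body b) (hv' : v ∈ bn.body b') : b = b' := by
  by_contra k
  rcases hv with ⟨j, hj, a⟩ | ⟨j, hj, a⟩ <;> rcases hv' with ⟨j', hj', a'⟩ | ⟨j', hj', a'⟩
  · exact disjoint_left.1 (h.dss b hb j hj b' hb' j' hj' fun q => k (Prod.mk.inj q).1) a a'
  · exact disjoint_left.1 (h.dsz b hb j hj b' hb' j' hj') a a'
  · exact disjoint_left.1 (h.dsz b' hb' j' hj' b hb j hj) a' a
  · exact disjoint_left.1 (h.dzz b hb j hj b' hb' j' hj' fun q => k (Prod.mk.inj q).1) a a'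

theorem fo_self (f : Φ) : f ∈ M.fo f := Relation.ReflTransGen.refl

theorem fo_a (f : Φ) : M.a f ∈ M.fo f := Relation.ReflTransGen.single (Or.inl rfl)

/-- a face at an inner vertex lies in a tile -/
theorem inner_tile (h : bn.Ok ch M vx H t μ) {b : ℕ} (hb : b < bn.r) {f : Φ} (hf : f ∈ M.S)
    (hv : vx f ∈ bn.inner b) : ∃ j, j + 1 < bn.w ∧ ∀ g ∈ M.fo f, vx g ∈ bn.tile ch t b j := by
  rcases h.face b hb f hf (Or.inl hv) with k | k
  · exact ((h.sub b hb (inner_body hv)).2 (k f (fo_self f))).elim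
  · exact k

/-- it is enough to look at one of the two ends -/
theorem flip {β : Φ → ZMod 2} {ψ : V → ZMod 2} (hM : M.Ok) (hβ : M.Ech β) {f : Φ} (hf : f ∈ M.S)
    (h : β (M.a f) = ψ (vx (M.a f)) + ψ (vx (M.a (M.a f)))) :
    β f = ψ (vx f) + ψ (vx (M.a f)) := by
  rw [(hβ f hf).1, (hM.ia f hf).2.1] at h
  rw [h, add_comm]

theorem z2 (a b k : ZMod 2) : a + k + (b + k) = a + b := by
  have : k + k = 0 := CharTwo.add_self_eq_zero k
  linear_combination this

theorem core_sub (t : ℕ) : ch.core t ⊆ ch.Ω := fun _ h => h.1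

theorem ind_mono {K K' : Set V} (h : K ⊆ K') : M.ind vx K ⊆ M.ind vx K' :=
  fun _ k => ⟨k.1, h k.2.1, h k.2.2⟩

section ext

variable {m ρ g : ℕ} {B : Fin g × Fin g → Set V}

/-- the numerical assumptions -/
structure Nu (ch : Ch V) (bn : Bn V) (t μ m ρ : ℕ) : Prop where
  t1 : 1 ≤ t
  m1 : 1 ≤ m
  tm : t + m ≤ μ
  s : 2 * μ < ch.s
  r1 : 1 ≤ ρ
  w : 2 * ρ + 2 ≤ bn.w

theorem lo_ext (b : ℕ) (e : Bool) (hw : 2 * ρ + 2 ≤ bn.w) :
    (bn.ext ch t m ρ).lo b e = min (bn.col b e ρ) (bn.col b e (bn.w - ρ - 1)) ∧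
    (bn.ext ch t m ρ).hi b e = max (bn.col b e ρ) (bn.col b e (bn.w - ρ - 1)) := by
  have e1 : bn.w - 2 * ρ - 1 + ρ = bn.w - ρ - 1 := by omega
  simp only [Bn.lo, Bn.hi, Bn.ext, Nat.zero_add, e1, and_self]

theorem lo_le (h : bn.Ok ch M vx H t μ) (n : Nu ch bn t μ m ρ) {b : ℕ} (hb : b < bn.r) (e : Bool) :
    bn.lo b e ≤ (bn.ext ch t m ρ).lo b e ∧ (bn.ext ch t m ρ).hi b e ≤ bn.hi b e := by
  have hw := n.w
  obtain ⟨e1, e2⟩ := lo_ext (ch := ch) (t := t) (m := m) b e hw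
  have a := bd h hb e (j := ρ) (by omega)
  have a' := bd h hb e (j := bn.w - ρ - 1) (by omega)
  omega

theorem bd' (h : bn.Ok ch M vx H t μ) (n : Nu ch bn t μ m ρ) {b : ℕ} (hb : b < bn.r) (e : Bool)
    {j : ℕ} (h1 : ρ ≤ j) (h2 : j + ρ < bn.w) :
    (bn.ext ch t m ρ).lo b e ≤ bn.col b e j ∧ bn.col b e j ≤ (bn.ext ch t m ρ).hi b e := by
  have hw := n.w
  obtain ⟨e1, e2⟩ := lo_ext (ch := ch) (t := t) (m := m) b e hw
  rw [e1, e2]
  exact (mo h hb e).cmp h1 (by omega) (by omega)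

/-- the new rectangle over an end -/
def N (ch : Ch V) (bn : Bn V) (t m ρ b : ℕ) (e : Bool) : Set V :=
  ch.box (2 * t) (2 * (t + m)) (2 * (bn.ext ch t m ρ).lo b e) (2 * (bn.ext ch t m ρ).hi b e)

theorem N_core (h : bn.Ok ch M vx H t μ) (n : Nu ch bn t μ m ρ) {b : ℕ} (hb : b < bn.r)
    (e : Bool) : N ch bn t m ρ b e ⊆ ch.core t := by
  rintro v ⟨h0, h1, h2, h3, h4⟩
  have := rng h hb e
  have := lo_le h n hb e
  have := n.tm
  have := n.s
  exact ⟨h0, by omega, by omega, by omega, by omega⟩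

theorem St_cases (h : bn.Ok ch M vx H t μ) (n : Nu ch bn t μ m ρ) {b : ℕ} (hb : b < bn.r) {j : ℕ}
    (hj : j < bn.w - 2 * ρ) {v : V} (hv : v ∈ (bn.ext ch t m ρ).St b j) :
    v ∈ bn.St b (j + ρ) ∨ ∃ e, v ∈ N ch bn t m ρ b e ∧ ch.x v < 2 * (t + m) ∧
      ch.y v = 2 * bn.col b e (j + ρ) := by
  rcases hv with k | k
  · exact Or.inl k
  · obtain ⟨e, h0, h1, h2, h3, h4⟩ := mem_iUnion.1 k
    have := bd' h n hb e (j := j + ρ) (by omega) (by omega)
    have := n.m1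
    exact Or.inr ⟨e, ⟨h0, h1, by omega, by omega, by omega⟩, by omega, by omega⟩

theorem Zo_cases (h : bn.Ok ch M vx H t μ) (n : Nu ch bn t μ m ρ) {b : ℕ} (hb : b < bn.r) {j : ℕ}
    (hj : j + 1 < bn.w - 2 * ρ) {v : V} (hv : v ∈ (bn.ext ch t m ρ).Zo b j) :
    v ∈ bn.Zo b (j + ρ) ∨ ∃ e, v ∈ N ch bn t m ρ b e ∧ ch.x v < 2 * (t + m) ∧
      2 * min (bn.col b e (j + ρ)) (bn.col b e (j + ρ + 1)) < ch.y v ∧
      ch.y v < 2 * max (bn.col b e (j + ρ)) (bn.col b e (j + ρ + 1)) := by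
  rcases hv with k | k
  · exact Or.inl k
  · obtain ⟨e, h0, h1, h2, h3, h4⟩ := mem_iUnion.1 k
    have := bd' h n hb e (j := j + ρ) (by omega) (by omega)
    have := bd' h n hb e (j := j + ρ + 1) (by omega) (by omega)
    have := n.m1
    exact Or.inr ⟨e, ⟨h0, h1, by omega, by omega, by omega⟩, by omega, by omega, by omega⟩

theorem body_cases (h : bn.Ok ch M vx H t μ) (n : Nu ch bn t μ m ρ) {b : ℕ} (hb : b < bn.r)
    {v : V} (hv : v ∈ (bn.ext ch t m ρ).body b) :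
    v ∈ bn.inner b ∨ ∃ e, v ∈ N ch bn t m ρ b e ∧ ch.x v < 2 * (t + m) := by
  have := n.r1
  rcases hv with ⟨j, hj, k⟩ | ⟨j, hj, k⟩
  · have hj' : j < bn.w - 2 * ρ := hj
    rcases St_cases h n hb hj' k with k | ⟨e, k, k', -⟩
    · exact Or.inl (Or.inl ⟨j + ρ, by omega, by omega, k⟩)
    · exact Or.inr ⟨e, k, k'⟩
  · have hj' : j + 1 < bn.w - 2 * ρ := hj
    rcases Zo_cases h n hb hj' k with k | ⟨e, k, k', -⟩
    · exact Or.inl (Or.inr ⟨j + ρ, by omega, k⟩)
    · exact Or.inr ⟨e, k, k'⟩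

theorem N_same (h : bn.Ok ch M vx H t μ) (n : Nu ch bn t μ m ρ) {b b' : ℕ} (hb : b < bn.r)
    (hb' : b' < bn.r) {e e' : Bool} {u v : V} (hu : u ∈ N ch bn t m ρ b e)
    (hv : v ∈ N ch bn t m ρ b' e') (h1 : ch.y u ≤ ch.y v + 2) (h2 : ch.y v ≤ ch.y u + 2) :
    b = b' ∧ e = e' := by
  have a := lo_le h n hb e
  have a' := lo_le h n hb' e'
  obtain ⟨-, -, -, h3, h4⟩ := hu
  obtain ⟨-, -, -, h5, h6⟩ := hv
  exact same h hb hb' (y := ch.y u) (y' := ch.y v) (by omega) (by omega) (by omega) (by omega) h1 h2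

theorem N_box (h : bn.Ok ch M vx H t μ) (n : Nu ch bn t μ m ρ) {b : ℕ} (hb : b < bn.r) {e : Bool}
    {v : V} (hv : v ∈ N ch bn t m ρ b e) : v ∈ ch.box 1 (2 * ch.s - 1) 1 (2 * ch.s - 1) := by
  obtain ⟨h0, h1, h2, h3, h4⟩ := N_core h n hb e hv
  have := n.t1
  have := n.tm
  have := n.s
  exact ⟨h0, by omega, by omega, by omega, by omega⟩

/-- a part of the new rectangle between two consecutive columns lies in the new tile -/
theorem box_tile {b j : ℕ} (e : Bool) {v : V} (h0 : v ∈ ch.Ω) (h1 : 2 * t ≤ ch.x v)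
    (h2 : ch.x v ≤ 2 * (t + m))
    (h3 : 2 * min (bn.col b e (j + ρ)) (bn.col b e (j + ρ + 1)) ≤ ch.y v)
    (h4 : ch.y v ≤ 2 * max (bn.col b e (j + ρ)) (bn.col b e (j + ρ + 1))) :
    v ∈ (bn.ext ch t m ρ).tile ch (t + m) b j := by
  have e1 : j + 1 + ρ = j + ρ + 1 := by omega
  rcases h2.lt_or_eq with k | k
  · by_cases k1 : ch.y v = 2 * bn.col b e (j + ρ)
    · exact Or.inl (Or.inl (Or.inl (Or.inl (Or.inr (mem_iUnion.2
        ⟨e, h0, h1, by omega, by omega, by omega⟩)))))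
    · by_cases k2 : ch.y v = 2 * bn.col b e (j + ρ + 1)
      · refine Or.inl (Or.inl (Or.inl (Or.inr (Or.inr (mem_iUnion.2
          ⟨e, h0, h1, by omega, ?_, ?_⟩))))) <;> rw [e1] <;> omega
      · exact Or.inl (Or.inl (Or.inr (Or.inr (mem_iUnion.2
          ⟨e, h0, h1, by omega, by omega, by omega⟩))))
  · have : v ∈ (bn.ext ch t m ρ).seg ch (t + m) b e j := by
      refine ⟨h0, by omega, by omega, ?_, ?_⟩ <;> simp only [Bn.ext, e1] <;> omega
    cases e with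
    | false => exact Or.inl (Or.inr this)
    | true => exact Or.inr this

theorem tile_tile {b j : ℕ} :
    bn.tile ch t b (j + ρ) ⊆ (bn.ext ch t m ρ).tile ch (t + m) b j := by
  have e1 : j + 1 + ρ = j + ρ + 1 := by omega
  rintro v ((((k | k) | k) | k) | k)
  · exact Or.inl (Or.inl (Or.inl (Or.inl (Or.inl k))))
  · refine Or.inl (Or.inl (Or.inl (Or.inr (Or.inl ?_))))
    rw [e1]; exact k
  · exact Or.inl (Or.inl (Or.inr (Or.inl k)))
  · obtain ⟨h0, h1, h2, h3, h4⟩ := k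
    exact box_tile false h0 h1 (by omega) h3 h4
  · obtain ⟨h0, h1, h2, h3, h4⟩ := k
    exact box_tile true h0 h1 (by omega) h3 h4

theorem col_conn (hc : ch.Ok M vx H B) {c : ℕ} (hcs : c ≤ ch.s) (t : ℕ) :
    ∀ i, t + i ≤ ch.s → Conn (M.gph vx) (ch.box (2 * t) (2 * (t + i) + 1) (2 * c) (2 * c)) := by
  intro i
  induction i with
  | zero =>
    intro hi
    have : ch.box (2 * t) (2 * (t + 0) + 1) (2 * c) (2 * c) = ch.cell t c := by
      ext v
      constructor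
      · rintro ⟨h0, h1, h2, h3, h4⟩
        have := hc.le v h0
        exact ⟨h0, h1, by omega, h3, h4⟩
      · rintro ⟨h0, h1, h2, h3, h4⟩
        exact ⟨h0, h1, by omega, h3, h4⟩
    rw [this]
    exact hc.conn t (by omega) c hcs
  | succ i ih =>
    intro hi
    have : ch.box (2 * t) (2 * (t + (i + 1)) + 1) (2 * c) (2 * c) =
        ch.box (2 * t) (2 * (t + i) + 1) (2 * c) (2 * c) ∪ ch.cell (t + i + 1) c := by
      ext v
      constructor
      · rintro ⟨h0, h1, h2, h3, h4⟩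
        have := hc.le v h0
        by_cases k : ch.x v ≤ 2 * (t + i) + 1
        · exact Or.inl ⟨h0, h1, k, h3, h4⟩
        · exact Or.inr ⟨h0, by omega, by omega, h3, h4⟩
      · rintro (⟨h0, h1, h2, h3, h4⟩ | ⟨h0, h1, h2, h3, h4⟩)
        · exact ⟨h0, h1, by omega, h3, h4⟩
        · exact ⟨h0, by omega, by omega, h3, h4⟩
    rw [this]
    refine fb.conn_union_touch (ih (by omega)) (hc.conn _ (by omega) c hcs)
      ((hc.ver (t + i) (by omega) c hcs).mono ?_ Subset.rfl)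
    rintro v ⟨h0, h1, h2, h3, h4⟩
    exact ⟨h0, by omega, by omega, h3, h4⟩

theorem ext_conn (hc : ch.Ok M vx H B) (h : bn.Ok ch M vx H t μ) (n : Nu ch bn t μ m ρ) {b : ℕ}
    (hb : b < bn.r) {j : ℕ} (hj : j < bn.w - 2 * ρ) :
    Conn (M.gph vx) ((bn.ext ch t m ρ).St b j) ∧ ∀ e, fb.Touch (M.gph vx)
      ((bn.ext ch t m ρ).St b j) (ch.cell (t + m) ((bn.ext ch t m ρ).col b e j)) := by
  obtain ⟨m', rfl⟩ : ∃ m', m = m' + 1 := ⟨m - 1, by have := n.m1; omega⟩
  have htm := n.tm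
  have hs := n.s
  have hj' : j + ρ < bn.w := by omega
  obtain ⟨c0, c1⟩ := h.conn b hb _ hj'
  have cs : ∀ e, bn.col b e (j + ρ) ≤ ch.s := fun e => by
    have := (h.cen b hb e _ hj').2
    omega
  have e1 : 2 * (t + (m' + 1)) - 1 = 2 * (t + m') + 1 := by omega
  have tc : ∀ e, fb.Touch (M.gph vx) (bn.St b (j + ρ)) (ch.box (2 * t) (2 * (t + m') + 1)
      (2 * bn.col b e (j + ρ)) (2 * bn.col b e (j + ρ))) := fun e => by
    refine (c1 e).mono Subset.rfl ?_
    rintro v ⟨h0, h1, h2, h3, h4⟩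
    exact ⟨h0, h1, by omega, h3, h4⟩
  constructor
  · have a := fb.conn_union_touch (fb.conn_union_touch c0
      (col_conn hc (cs false) t m' (by omega)) (tc false))
      (col_conn hc (cs true) t m' (by omega)) ((tc true).mono subset_union_left Subset.rfl)
    convert a using 1
    simp only [Bn.ext, e1]
    ext v
    simp only [mem_union, mem_iUnion, Bool.exists_bool, or_assoc]
  · intro e
    refine (hc.ver (t + m') (by omega) _ (cs e)).mono ?_ Subset.rfl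
    rintro v ⟨h0, h1, h2, h3, h4⟩
    exact Or.inr (mem_iUnion.2 ⟨e, h0, by omega, by omega, h3, h4⟩)

theorem ext_face (hc : ch.Ok M vx H B) (h : bn.Ok ch M vx H t μ) (n : Nu ch bn t μ m ρ) {b : ℕ}
    (hb : b < bn.r) {f : Φ} (hf : f ∈ M.S) {e : Bool} (hv : vx f ∈ N ch bn t m ρ b e)
    (h1 : 2 * (bn.ext ch t m ρ).lo b e < ch.y (vx f))
    (h2 : ch.y (vx f) < 2 * (bn.ext ch t m ρ).hi b e) :
    (∀ g ∈ M.fo f, vx g ∈ ch.core (t + m)) ∨ ∃ j, j + 1 < bn.w - 2 * ρ ∧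
      ∀ g ∈ M.fo f, vx g ∈ (bn.ext ch t m ρ).tile ch (t + m) b j := by
  obtain ⟨r, -, c, -, hq⟩ := hc.face f hf (N_box h n hb hv)
  have hw := n.w
  have htm := n.tm
  have hs := n.s
  have hr := rng h hb e
  have hl := lo_le h n hb e
  obtain ⟨e1, e2⟩ := lo_ext (ch := ch) (t := t) (m := m) b e hw
  obtain ⟨-, q1, q2, q3, q4⟩ := hq f (fo_self f)
  obtain ⟨v0, v1, v2, v3, v4⟩ := hv
  have main : (∀ g ∈ M.fo f, 2 * t ≤ ch.x (vx g) ∧ ch.x (vx g) ≤ 2 * (t + m)) →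
      ∃ j, j + 1 < bn.w - 2 * ρ ∧
        ∀ g ∈ M.fo f, vx g ∈ (bn.ext ch t m ρ).tile ch (t + m) b j := by
    intro hx
    have e3 : bn.w - 2 * ρ - 1 + ρ = bn.w - ρ - 1 := by omega
    obtain ⟨j, hj, j1, j2⟩ := ivt (fun j => bn.col b e (j + ρ)) c (bn.w - 2 * ρ - 1)
      (by simp only [Nat.zero_add, e3]; omega) (by simp only [Nat.zero_add, e3]; omega)
    have e4 : j + 1 + ρ = j + ρ + 1 := by omega
    simp only [e4] at j1 j2
    refine ⟨j, by omega, fun g hg => ?_⟩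
    obtain ⟨p0, -, -, p3, p4⟩ := hq g hg
    exact box_tile e p0 (hx g hg).1 (hx g hg).2 (by omega) (by omega)
  by_cases k : t + m ≤ r
  · refine Or.inl fun g hg => ?_
    obtain ⟨p0, p1, p2, p3, p4⟩ := hq g hg
    exact ⟨p0, by omega, by omega, by omega, by omega⟩
  · by_cases k' : t ≤ r
    · refine Or.inr (main fun g hg => ?_)
      obtain ⟨p0, p1, p2, p3, p4⟩ := hq g hg
      omega
    · rcases h.face b hb f hf (Or.inr ⟨e, v0, v1, by omega, by omega, by omega⟩) with a | ⟨j, hj, a⟩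
      · refine Or.inr (main fun g hg => ?_)
        obtain ⟨p0, p1, p2, p3, p4⟩ := hq g hg
        have := (a g hg).2.1
        omega
      · have hcore : vx f ∈ ch.core t := ⟨v0, v1, by omega, by omega, by omega⟩
        have hseg : ∃ e', vx f ∈ bn.seg ch t b e' j := by
          rcases a f (fo_self f) with (((p | p) | p) | p) | p
          · exact ((h.sub b hb (Or.inl ⟨j, by omega, p⟩)).2 hcore).elim
          · exact ((h.sub b hb (Or.inl ⟨j + 1, hj, p⟩)).2 hcore).elim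
          · exact ((h.sub b hb (Or.inr ⟨j, hj, p⟩)).2 hcore).elim
          · exact ⟨false, p⟩
          · exact ⟨true, p⟩
        obtain ⟨e', p⟩ := hseg
        obtain ⟨-, -, -, s3, s4⟩ := seg_segA h hb e' hj p
        obtain ⟨-, rfl⟩ := same h hb hb (e := e) (e' := e') (y := ch.y (vx f)) (y' := ch.y (vx f))
          (by omega) (by omega) s3 s4 (by omega) (by omega)
        obtain ⟨-, -, -, p3, p4⟩ := p
        obtain ⟨l1, l2⟩ := (mo h hb e).loc (a := ρ) (b := bn.w - ρ - 1) (y := ch.y (vx f))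
          (by omega) (by omega) hj (by omega) (by omega) p3 p4
        obtain ⟨j, rfl⟩ : ∃ j', j = j' + ρ := ⟨j - ρ, by omega⟩
        exact Or.inr ⟨j, by omega, fun g hg => tile_tile (a g hg)⟩

theorem tile_idx (h : bn.Ok ch M vx H t μ) (ht : t ≤ μ) (hs : 2 * μ < ch.s) {b : ℕ}
    (hb : b < bn.r) {j : ℕ} (hj : j + 1 < bn.w) {v : V} (hv : v ∈ bn.tile ch t b j) :
    (∀ i < bn.w, v ∈ bn.St b i → i = j ∨ i = j + 1) ∧
      ∀ i, i + 1 < bn.w → v ∈ bn.Zo b i → i = j := by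
  have hseg : ∀ e, v ∈ bn.seg ch t b e j → v ∉ bn.body b := fun e p q =>
    (h.sub b hb q).2 (segA_core h ht hs hb e (seg_segA h hb e hj p))
  constructor
  · intro i hi k
    rcases hv with (((p | p) | p) | p) | p
    · by_contra q
      exact disjoint_left.1 (h.dss b hb i hi b hb j (by omega)
        fun z => q (Or.inl (Prod.mk.inj z).2)) k p
    · by_contra q
      exact disjoint_left.1 (h.dss b hb i hi b hb (j + 1) hj
        fun z => q (Or.inr (Prod.mk.inj z).2)) k p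
    · exact (disjoint_left.1 (h.dsz b hb i hi b hb j hj) k p).elim
    · exact (hseg false p (Or.inl ⟨i, hi, k⟩)).elim
    · exact (hseg true p (Or.inl ⟨i, hi, k⟩)).elim
  · intro i hi k
    rcases hv with (((p | p) | p) | p) | p
    · exact (disjoint_left.1 (h.dsz b hb j (by omega) b hb i hi) p k).elim
    · exact (disjoint_left.1 (h.dsz b hb (j + 1) hj b hb i hi) p k).elim
    · by_contra q
      exact disjoint_left.1 (h.dzz b hb i hi b hb j hj fun z => q (Prod.mk.inj z).2) k p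
    · exact (hseg false p (Or.inr ⟨i, hi, k⟩)).elim
    · exact (hseg true p (Or.inr ⟨i, hi, k⟩)).elim

theorem core_mono {t t' : ℕ} (h : t ≤ t') : ch.core t' ⊆ ch.core t := by
  rintro v ⟨h0, h1, h2, h3, h4⟩
  exact ⟨h0, by omega, by omega, by omega, by omega⟩

theorem par_ext (hM : M.Ok) (hc : ch.Ok M vx H B) (h : bn.Ok ch M vx H t μ)
    (n : Nu ch bn t μ m ρ) {β : Φ → ZMod 2} (hβ : M.Ech β) {b : ℕ} (hb : b < bn.r) {ε : ZMod 2}
    (hP : bn.Par ch M vx t β b ε) : (bn.ext ch t m ρ).Par ch M vx (t + m) β b ε := by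
  classical
  obtain ⟨ψ, ψ', a1, a2, a3, a4⟩ := hP
  have htm := n.tm
  have hs := n.s
  let χ : V → ZMod 2 := fun v => if v ∈ ch.core t then
    (if 2 * bn.lo b true ≤ ch.y v ∧ ch.y v ≤ 2 * bn.hi b true then ψ v + ε else ψ v) else ψ' v
  have c0 : ∀ v ∈ ch.core t, 2 * bn.lo b false ≤ ch.y v → ch.y v ≤ 2 * bn.hi b false →
      χ v = ψ v := by
    intro v hv p1 p2
    have : ¬ (2 * bn.lo b true ≤ ch.y v ∧ ch.y v ≤ 2 * bn.hi b true) := fun k => by
      have := (same h hb hb p1 p2 k.1 k.2 (by omega) (by omega)).2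
      cases this
    simp only [χ, if_pos hv, if_neg this]
  have c1 : ∀ v ∈ ch.core t, 2 * bn.lo b true ≤ ch.y v → ch.y v ≤ 2 * bn.hi b true →
      χ v = ψ v + ε := by
    intro v hv p1 p2
    simp only [χ, if_pos hv, if_pos (And.intro p1 p2)]
  have cd : ∀ v ∈ bn.disc ch t b, χ v = ψ' v := by
    rintro v ((hv | hv) | hv)
    · simp only [χ, if_neg (h.sub b hb hv).2]
    · rw [c0 v (segA_core h (by omega) hs hb false hv) hv.2.2.2.1 hv.2.2.2.2, a3 v hv]
    · rw [c1 v (segA_core h (by omega) hs hb true hv) hv.2.2.2.1 hv.2.2.2.2, a4 v hv]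
  have n0 : ∀ v ∈ N ch bn t m ρ b false, χ v = ψ v := fun v hv => by
    have := lo_le h n hb false
    have p1 := hv.2.2.2.1
    have p2 := hv.2.2.2.2
    exact c0 v (N_core h n hb false hv) (by omega) (by omega)
  have n1 : ∀ v ∈ N ch bn t m ρ b true, χ v = ψ v + ε := fun v hv => by
    have := lo_le h n hb true
    have p1 := hv.2.2.2.1
    have p2 := hv.2.2.2.2
    exact c1 v (N_core h n hb true hv) (by omega) (by omega)
  have sN : ∀ e, (bn.ext ch t m ρ).segA ch (t + m) b e ⊆ N ch bn t m ρ b e := by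
    rintro e v ⟨h0, h1, h2, h3, h4⟩
    exact ⟨h0, by omega, h2, h3, h4⟩
  have dc : ∀ v ∈ (bn.ext ch t m ρ).disc ch (t + m) b,
      v ∈ bn.inner b ∨ ∃ e, v ∈ N ch bn t m ρ b e := by
    rintro v ((hv | hv) | hv)
    · rcases body_cases h n hb hv with k | ⟨e, k, -⟩
      · exact Or.inl k
      · exact Or.inr ⟨e, k⟩
    · exact Or.inr ⟨false, sN false hv⟩
    · exact Or.inr ⟨true, sN true hv⟩
  have inn : ∀ f ∈ M.S, vx f ∈ bn.inner b → β f = χ (vx f) + χ (vx (M.a f)) := by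
    intro f hf hv
    obtain ⟨j, hj, k⟩ := inner_tile h hb hf hv
    have k1 := tile_disc h hb hj (k f (fo_self f))
    have k2 := tile_disc h hb hj (k _ (fo_a f))
    rw [cd _ k1, cd _ k2]
    exact a2 f ⟨hf, k1, k2⟩
  refine ⟨ψ, χ, fun f hf => a1 f (ind_mono (core_mono (by omega)) hf), fun f hf => ?_,
    fun v hv => n0 v (sN false hv), fun v hv => n1 v (sN true hv)⟩
  obtain ⟨hf, k1, k2⟩ := hf
  rcases dc _ k1 with k1 | ⟨e, k1⟩
  · exact inn f hf k1
  · rcases dc _ k2 with k2 | ⟨e', k2⟩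
    · exact flip hM hβ hf (inn _ (hM.ia f hf).1 k2)
    · obtain ⟨r, -, c, -, hq⟩ := hc.face f hf (N_box h n hb k1)
      obtain ⟨-, -, -, q3, q4⟩ := hq f (fo_self f)
      obtain ⟨-, -, -, q5, q6⟩ := hq _ (fo_a f)
      obtain ⟨-, rfl⟩ := N_same h n hb hb k1 k2 (by omega) (by omega)
      have a := a1 f ⟨hf, N_core h n hb e k1, N_core h n hb e k2⟩
      cases e with
      | false => rw [n0 _ k1, n0 _ k2, a]
      | true => rw [n1 _ k1, n1 _ k2, z2, a]

theorem ext_ok (hM : M.Ok) (hc : ch.Ok M vx H B) (h : bn.Ok ch M vx H t μ)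
    (n : Nu ch bn t μ m ρ) : (bn.ext ch t m ρ).Ok ch M vx H (t + m) μ := by
  have hw := n.w
  have htm := n.tm
  have hs := n.s
  have hr := n.r1
  have oS : ∀ b < bn.r, ∀ j < bn.w, ∀ v ∈ bn.St b j, v ∉ ch.core t := fun b hb j hj v hv =>
    (h.sub b hb (Or.inl ⟨j, hj, hv⟩)).2
  have oZ : ∀ b < bn.r, ∀ j, j + 1 < bn.w → ∀ v ∈ bn.Zo b j, v ∉ ch.core t :=
    fun b hb j hj v hv => (h.sub b hb (Or.inr ⟨j, hj, hv⟩)).2
  refine ⟨show 2 ≤ bn.w - 2 * ρ by omega, ?_, ?_, ?_, ?_, ?_, ?_, ?_, ?_, ?_, ?_, ?_, ?_⟩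
  · intro b hb j hj
    have hj' : j + 1 < bn.w - 2 * ρ := hj
    have e1 : j + 1 + ρ = j + ρ + 1 := by omega
    simp only [Bn.ext, e1]
    exact h.mo0 b hb (j + ρ) (by omega)
  · intro b hb j hj
    have hj' : j + 1 < bn.w - 2 * ρ := hj
    have e1 : j + 1 + ρ = j + ρ + 1 := by omega
    simp only [Bn.ext, e1]
    exact h.mo1 b hb (j + ρ) (by omega)
  · intro b hb e j hj
    have hj' : j < bn.w - 2 * ρ := hj
    exact h.cen b hb e (j + ρ) (by omega)
  · intro b hb e b' hb' e' k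
    have := h.gap b hb e b' hb' e' k
    have := lo_le h n hb e
    have := lo_le h n hb' e'
    omega
  · intro b hb v hv
    rcases body_cases h n hb hv with k | ⟨e, k, k'⟩
    · have := h.sub b hb (inner_body k)
      exact ⟨this.1, fun q => this.2 (core_mono (by omega) q)⟩
    · refine ⟨hc.sub k.1, fun q => ?_⟩
      have := q.2.1
      omega
  · intro b hb j hj b' hb' j' hj' k
    have hj : j < bn.w - 2 * ρ := hj
    have hj' : j' < bn.w - 2 * ρ := hj'
    refine disjoint_left.2 fun v p p' => ?_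
    rcases St_cases h n hb hj p with p | ⟨e, p, -, q⟩ <;>
      rcases St_cases h n hb' hj' p' with p' | ⟨e', p', -, q'⟩
    · refine disjoint_left.1 (h.dss b hb _ (by omega) b' hb' _ (by omega) fun z => k ?_) p p'
      obtain ⟨z1, z2⟩ := Prod.mk.inj z
      rw [z1, show j = j' by omega]
    · exact oS b hb _ (by omega) v p (N_core h n hb' e' p')
    · exact oS b' hb' _ (by omega) v p' (N_core h n hb e p)
    · obtain ⟨rfl, rfl⟩ := N_same h n hb hb' p p' (by omega) (by omega)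
      have := (mo h hb e).inj (i := j + ρ) (j := j' + ρ) (by omega) (by omega) (by omega)
      exact k (by rw [show j = j' by omega])
  · intro b hb j hj b' hb' j' hj'
    have hj : j < bn.w - 2 * ρ := hj
    have hj' : j' + 1 < bn.w - 2 * ρ := hj'
    refine disjoint_left.2 fun v p p' => ?_
    rcases St_cases h n hb hj p with p | ⟨e, p, -, q⟩ <;>
      rcases Zo_cases h n hb' hj' p' with p' | ⟨e', p', -, q', q''⟩
    · exact disjoint_left.1 (h.dsz b hb _ (by omega) b' hb' _ (by omega)) p p'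
    · exact oS b hb _ (by omega) v p (N_core h n hb' e' p')
    · exact oZ b' hb' _ (by omega) v p' (N_core h n hb e p)
    · obtain ⟨rfl, rfl⟩ := N_same h n hb hb' p p' (by omega) (by omega)
      exact (mo h hb e).btw (i := j + ρ) (j := j' + ρ) (by omega) (by omega) (by omega) (by omega)
  · intro b hb j hj b' hb' j' hj' k
    have hj : j + 1 < bn.w - 2 * ρ := hj
    have hj' : j' + 1 < bn.w - 2 * ρ := hj'
    refine disjoint_left.2 fun v p p' => ?_
    rcases Zo_cases h n hb hj p with p | ⟨e, p, -, q, q1⟩ <;>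
      rcases Zo_cases h n hb' hj' p' with p' | ⟨e', p', -, q', q''⟩
    · refine disjoint_left.1 (h.dzz b hb _ (by omega) b' hb' _ (by omega) fun z => k ?_) p p'
      obtain ⟨z1, z2⟩ := Prod.mk.inj z
      rw [z1, show j = j' by omega]
    · exact oZ b hb _ (by omega) v p (N_core h n hb' e' p')
    · exact oZ b' hb' _ (by omega) v p' (N_core h n hb e p)
    · obtain ⟨rfl, rfl⟩ := N_same h n hb hb' p p' (by omega) (by omega)
      have := (mo h hb e).two (i := j + ρ) (j := j' + ρ) (by omega) (by omega) q' q'' q q1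
      exact k (by rw [show j = j' by omega])
  · intro b hb j hj
    exact ext_conn hc h n hb hj
  · intro b hb f hf hv
    have old : (∀ j, j + 1 < bn.w → vx f ∈ bn.tile ch t b j → ρ ≤ j ∧ j + ρ + 1 < bn.w) →
        vx f ∈ bn.inner b → ∃ j, j + 1 < bn.w - 2 * ρ ∧
        ∀ g ∈ M.fo f, vx g ∈ (bn.ext ch t m ρ).tile ch (t + m) b j := by
      intro hi hv
      obtain ⟨j, hj, k⟩ := inner_tile h hb hf hv
      obtain ⟨l1, l2⟩ := hi j hj (k f (fo_self f))
      obtain ⟨j, rfl⟩ : ∃ j', j = j' + ρ := ⟨j - ρ, by omega⟩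
      exact ⟨j, by omega, fun g hg => tile_tile (k g hg)⟩
    rcases hv with (⟨j, j0, hj, k⟩ | ⟨j, hj, k⟩) | ⟨e, h0, h1, h2, h3, h4⟩
    · have hj : j + 1 < bn.w - 2 * ρ := hj
      rcases St_cases h n hb (by omega) k with k | ⟨e, k, -, q⟩
      · refine Or.inr (old (fun i hi p => ?_) (Or.inl ⟨j + ρ, by omega, by omega, k⟩))
        have := (tile_idx h (by omega) hs hb hi p).1 (j + ρ) (by omega) k
        omega
      · obtain ⟨e1, e2⟩ := lo_ext (ch := ch) (t := t) (m := m) b e hw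
        have := (mo h hb e).scmp (i := ρ) (j := j + ρ) (k := bn.w - ρ - 1) (by omega) (by omega)
          (by omega)
        exact ext_face hc h n hb hf k (by omega) (by omega)
    · have hj : j + 1 < bn.w - 2 * ρ := hj
      rcases Zo_cases h n hb hj k with k | ⟨e, k, -, q, q'⟩
      · refine Or.inr (old (fun i hi p => ?_) (Or.inr ⟨j + ρ, by omega, k⟩))
        have := (tile_idx h (by omega) hs hb hi p).2 (j + ρ) (by omega) k
        omega
      · have := bd' h n hb e (j := j + ρ) (by omega) (by omega)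
        have := bd' h n hb e (j := j + ρ + 1) (by omega) (by omega)
        exact ext_face hc h n hb hf k (by omega) (by omega)
    · have := rng h hb e
      have := lo_le h n hb e
      exact ext_face hc h n hb hf (e := e) ⟨h0, by omega, h2, by omega, by omega⟩ (by omega)
        (by omega)
  · intro β hβ b hb
    obtain ⟨ε, k⟩ := h.par β hβ b hb
    exact ⟨ε, par_ext hM hc h n hβ.1 hb k⟩
  · intro b hb
    obtain ⟨β, hβ, k, k'⟩ := h.tri b hb
    exact ⟨β, hβ, par_ext hM hc h n hβ.1 hb k,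
      fun b' hb' => par_ext hM hc h n hβ.1 (lt_trans hb' hb) (k' b' hb')⟩

end ext

/-- the parity along a band is unique -/
theorem par_uniq (hC : CoreS) {k q g : ℕ} {B : Fin g × Fin g → Set V} (hS : Stg k q M vx H B ch)
    (h : bn.Ok ch M vx H t μ) (ht : t ≤ μ) (hs : 2 * μ < ch.s) {β : Φ → ZMod 2} (hβ : M.Ech β)
    {b : ℕ} (hb : b < bn.r) {ε ε' : ZMod 2} (h1 : bn.Par ch M vx t β b ε)
    (h2 : bn.Par ch M vx t β b ε') : ε = ε' := by
  obtain ⟨hc, -, -, -, -, huniq, -⟩ := hC k q g Φ V M vx H B ch t hS (by omega)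
  obtain ⟨ψ, ψ', a1, a2, a3, a4⟩ := h1
  obtain ⟨χ, χ', b1, b2, b3, b4⟩ := h2
  have h2 := h.two
  obtain ⟨c0, c1⟩ := h.conn b hb 0 (by omega)
  have cc : ∀ e, Conn (M.gph vx) (ch.cell t (bn.col b e 0)) := fun e => by
    have := (h.cen b hb e 0 (by omega)).2
    exact hS.ch.conn t (by omega) _ (by omega)
  have cs : ∀ e, ch.cell t (bn.col b e 0) ⊆ bn.segA ch t b e := by
    rintro e v ⟨h0, p1, p2, p3, p4⟩
    have := bd h hb e (j := 0) (by omega)
    exact ⟨h0, p1, p2, by omega, by omega⟩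
  have hD := fb.conn_union_touch (fb.conn_union_touch c0 (cc false) (c1 false)) (cc true)
    ((c1 true).mono subset_union_left Subset.rfl)
  have hs' : bn.St b 0 ∪ ch.cell t (bn.col b false 0) ∪ ch.cell t (bn.col b true 0) ⊆
      bn.disc ch t b := by
    rintro v ((p | p) | p)
    · exact Or.inl (Or.inl (Or.inl ⟨0, by omega, p⟩))
    · exact Or.inl (Or.inr (cs false p))
    · exact Or.inr (cs true p)
  obtain ⟨κ, hκ⟩ := huniq β ψ χ _ hc hβ a1 b1
  obtain ⟨κ', hκ'⟩ := huniq β ψ' χ' _ hD hβ (fun f hf => a2 f (ind_mono hs' hf))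
    (fun f hf => b2 f (ind_mono hs' hf))
  obtain ⟨u, hu⟩ := (cc false).1
  obtain ⟨v, hv⟩ := (cc true).1
  have e1 := hκ u (segA_core h ht hs hb false (cs false hu))
  have e2 := hκ v (segA_core h ht hs hb true (cs true hv))
  have e3 := hκ' u (Or.inl (Or.inr hu))
  have e4 := hκ' v (Or.inr hv)
  have e5 := a3 u (cs false hu)
  have e6 := a4 v (cs true hv)
  have e7 := b3 u (cs false hu)
  have e8 := b4 v (cs true hv)
  linear_combination e8 - e6 - e4 + e2 - e1 + e3 - e7 + e5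

end RExt

open RExt

theorem glueBS (hC : CoreS) : GlueBS := by
  classical
  intro k q g Φ V M vx H B ch bn t μ β hS h _ htμ hs hβ hP
  obtain ⟨hc, -, -, -, -, huniq, -⟩ := hC k q g Φ V M vx H B ch t hS (by omega)
  obtain ⟨ψ0, h0⟩ := hS.ch.cob β hβ
  have h0' : M.Pt vx β ψ0 (M.ind vx (ch.core t)) := fun f hf => h0 f (ind_mono (core_sub t) hf)
  have key : ∀ b, ∃ χ : V → ZMod 2, b < bn.r → M.Pt vx β χ (M.ind vx (bn.disc ch t b)) ∧
      ∀ e, ∀ v ∈ bn.segA ch t b e, χ v = ψ0 v := by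
    intro b
    by_cases hb : b < bn.r
    · obtain ⟨ψ, ψ', a1, a2, a3, a4⟩ := hP b hb
      obtain ⟨κ, hκ⟩ := huniq β ψ ψ0 _ hc hβ.1 a1 h0'
      refine ⟨fun v => ψ' v + κ, fun _ => ⟨fun f hf => ?_, fun e v hv => ?_⟩⟩
      · rw [z2]; exact a2 f hf
      · have hv' := segA_core h htμ hs hb e hv
        cases e with
        | false => simp only [a3 v hv, hκ v hv']
        | true => simp only [a4 v hv, hκ v hv', add_zero]
    · exact ⟨0, fun k => (hb k).elim⟩
  choose χ hχ using key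
  let ψ : V → ZMod 2 := fun v => if v ∈ ch.core t then ψ0 v else
    if k : ∃ b < bn.r, v ∈ bn.body b then χ k.choose v else 0
  have hψ : ∀ b < bn.r, ∀ v ∈ bn.disc ch t b, ψ v = χ b v := by
    intro b hb v hv
    rcases hv with (hv | hv) | hv
    · have k : ∃ b < bn.r, v ∈ bn.body b := ⟨b, hb, hv⟩
      have e : k.choose = b := body_eq h k.choose_spec.1 hb k.choose_spec.2 hv
      simp only [ψ, if_neg (h.sub b hb hv).2, dif_pos k, e]
    · simp only [ψ, if_pos (segA_core h htμ hs hb false hv), (hχ b hb).2 false v hv]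
    · simp only [ψ, if_pos (segA_core h htμ hs hb true hv), (hχ b hb).2 true v hv]
  have inn : ∀ f ∈ M.S, ∀ b < bn.r, vx f ∈ bn.inner b →
      β f = ψ (vx f) + ψ (vx (M.a f)) := by
    intro f hf b hb hv
    obtain ⟨j, hj, k⟩ := inner_tile h hb hf hv
    have k1 := tile_disc h hb hj (k f (fo_self f))
    have k2 := tile_disc h hb hj (k _ (fo_a f))
    rw [hψ b hb _ k1, hψ b hb _ k2]
    exact (hχ b hb).1 f ⟨hf, k1, k2⟩
  refine ⟨ψ, fun f hf => ?_⟩
  obtain ⟨hf, k1, k2⟩ := hf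
  rcases k1 with k1 | ⟨b, hb, k1⟩
  · rcases k2 with k2 | ⟨b, hb, k2⟩
    · simp only [ψ, if_pos k1, if_pos k2]
      exact h0' f ⟨hf, k1, k2⟩
    · exact flip hS.hm.ok hβ.1 hf (inn _ (hS.hm.ok.ia f hf).1 b hb k2)
  · exact inn f hf b hb k1

theorem extBS (hC : CoreS) : ExtBS := by
  intro k q g Φ V M vx H B ch bn t μ m ρ hS h h1 h2 h3 h4 h5 h6
  have n : Nu ch bn t μ m ρ := ⟨h1, h2, h3, h4, h5, h6⟩
  have ok := ext_ok hS.hm.ok hS.ch h n
  refine ⟨ok, fun β hβ b hb ε => ⟨fun p => ?_, par_ext hS.hm.ok hS.ch h n hβ.1 hb⟩⟩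
  obtain ⟨ε0, p0⟩ := h.par β hβ b hb
  rw [par_uniq hC hS ok h3 h4 hβ.1 hb p (par_ext hS.hm.ok hS.ch h n hβ.1 hb p0)]
  exact p0

end Pool.Agent.MP_9d78a0_co.gm

end MrgPart0

-- ======== part 1: formerly Pool.Agent.MP_9d78a0_co.gm.RWordB
section MrgPart1

/-! Words: slides. -/

set_option autoImplicit false

namespace Pool.Agent.MP_9d78a0_co.gm

open Set Function Relation

namespace RWordB

variable {Φ : Type} {A : Al Φ} {L L1 L2 P R Z : List Φ} {x y u : Φ}

theorem ncl_ins {X Y : List ℕ} {f : ℕ} (h : NCL (X ++ Y)) (hf : f ∉ X ++ Y) :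
    NCL (X ++ f :: f :: Y) := by
  rw [List.mem_append, not_or] at hf
  have key : ∀ v, v ≠ f → ¬ [f, v, f].Sublist (X ++ f :: f :: Y) := by
    intro v hv k
    obtain ⟨l1, l2, e, k1, k2⟩ := List.sublist_append_iff.1 k
    cases l1 with
    | cons a l1 =>
      obtain rfl : f = a := (List.cons.inj e).1
      exact hf.1 (k1.subset (by simp))
    | nil =>
      obtain rfl : [f, v, f] = l2 := e
      have k3 : [v, f].Sublist (f :: Y) := by
        rcases List.sublist_cons_iff.1 k2 with k3 | ⟨r, e, k3⟩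
        · exact List.Sublist.trans (by simp) k3
        · exact (List.cons.inj e).2 ▸ k3
      rcases List.sublist_cons_iff.1 k3 with k4 | ⟨r, e, -⟩
      · exact hf.2 (k4.subset (by simp))
      · exact hv (List.cons.inj e).1
  intro u v ne k
  by_cases e : u = f
  · subst e
    exact key v ne.symm (List.Sublist.trans (by simp) k)
  by_cases e' : v = f
  · subst e'
    exact key u ne (List.Sublist.trans (by simp) k)
  have k' := k.filter fun z => decide (z ≠ f)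
  refine h u v ne (List.Sublist.trans ?_ (List.filter_sublist (p := fun z => decide (z ≠ f))))
  simpa [e, e'] using k'

theorem ncl_pair {X Y F : List ℕ} (h : NCL (X ++ Y)) (n : F.Nodup) (hf : ∀ f ∈ F, f ∉ X ++ Y) :
    NCL (X ++ F.reverse ++ F ++ Y) := by
  induction F with
  | nil => simpa using h
  | cons f F ih =>
    rw [List.nodup_cons] at n
    have := hf f (by simp)
    have := ncl_ins (X := X ++ F.reverse) (Y := F ++ Y) (f := f)
      (by simpa using ih n.2 fun g hg => hf g (by simp [hg])) (by simp_all)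
    simpa using this

theorem eqv_map {α β : Type} {r : α → α → Prop} {r' : β → β → Prop} (f : α → β)
    (h : ∀ p q, r p q → EqvGen r' (f p) (f q)) {p q : α} (k : EqvGen r p q) :
    EqvGen r' (f p) (f q) := by
  induction k with
  | rel _ _ e => exact h _ _ e
  | refl => exact .refl _
  | symm _ _ _ ih => exact .symm _ _ ih
  | trans _ _ _ _ _ i1 i2 => exact .trans _ _ _ i1 i2

theorem c_inj (A : Al Φ) : Injective A.c := Involutive.injective A.cc

theorem a_inj (A : Al Φ) : Injective A.a := Involutive.injective A.aa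

theorem mem_dbl : u ∈ A.dbl L ↔ u ∈ L ∨ A.c u ∈ L := by
  simp only [Al.dbl, List.mem_append, List.mem_map]
  exact or_congr_right ⟨fun ⟨v, hv, e⟩ => by rwa [← e, A.cc], fun h => ⟨_, h, A.cc u⟩⟩

theorem c_mem (h : u ∈ A.dbl L) : A.c u ∈ A.dbl L := by
  rw [mem_dbl] at *
  rw [A.cc]; exact h.symm

theorem c_ne (hW : A.WF L) (h : u ∈ A.dbl L) : A.c u ≠ u := fun e => by
  have k : u ∈ L := (mem_dbl.1 h).elim id fun k => e ▸ k
  exact (List.nodup_append.1 hW.1).2.2 u k u (List.mem_map.2 ⟨u, k, e⟩) rfl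

/-- the strands of `y` are led along the loop of `x` -/
theorem fe_core (hW : A.WF L) (hm : ∀ u, u ∈ A.dbl L1 ↔ u ∈ A.dbl L) (hx : x ∈ A.dbl L)
    (hy : y ∈ A.dbl L) (ax : A.a x ≠ x) (n1 : y ≠ x) (n2 : y ≠ A.a x) (n3 : y ≠ A.c x)
    (n4 : y ≠ A.c (A.a x))
    (hN : ∀ (φ φ1 : Φ → List ℕ) (F : List ℕ), F.Nodup → (∀ f ∈ F, f ∉ L.flatMap φ) →
      φ1 x = φ y ++ φ x → φ1 (A.a x) = F ++ φ (A.a x) →
      φ1 (A.c (A.a x)) = φ (A.c (A.a x)) ++ F.reverse → φ1 y = F → φ1 (A.c y) = F.reverse →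
      (∀ u, u ≠ x → u ≠ A.a x → u ≠ A.c x → u ≠ A.c (A.a x) → u ≠ y → u ≠ A.c y → φ1 u = φ u) →
      NCL (L.flatMap φ) → NCL (L1.flatMap φ1))
    {π : Φ → Φ → Prop} (h : A.Fe (fun _ => True) L π) : A.Fe (fun _ => True) L1 π := by
  classical
  obtain ⟨φ, h1, h2, h3⟩ := h
  obtain ⟨M, hM⟩ : ∃ M, ∀ u ∈ A.dbl L, ∀ k ∈ φ u, k < M :=
    ⟨((A.dbl L).flatMap φ).sum + 1, fun u hu k hk =>
      Nat.lt_succ_of_le (List.le_sum_of_mem (List.mem_flatMap.2 ⟨u, hu, hk⟩))⟩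
  have hax := hW.2 x hx
  have d1 : A.c x ≠ x := c_ne hW hx
  have d2 : A.c x ≠ A.a x := fun e => ax (A.ne x e.symm)
  have d3 : A.c (A.a x) ≠ x := fun e => d2 (by rw [← e, A.cc, e])
  have d4 : A.c (A.a x) ≠ A.a x := c_ne hW hax
  have d5 : A.c (A.a x) ≠ A.c x := fun e => ax (c_inj A e)
  have d6 : A.c y ≠ x := fun e => n3 (by rw [← e, A.cc])
  have d7 : A.c y ≠ A.a x := fun e => n4 (by rw [← e, A.cc])
  have d8 : A.c y ≠ A.c x := fun e => n1 (c_inj A e)
  have d9 : A.c y ≠ A.c (A.a x) := fun e => n2 (c_inj A e)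
  have d0 : A.c y ≠ y := c_ne hW hy
  set F := List.range' M (φ y).length with hF
  obtain ⟨φ1, p1, p2, p3, p4, p5, p6, p7⟩ : ∃ φ1 : Φ → List ℕ, φ1 x = φ y ++ φ x ∧
      φ1 (A.a x) = F ++ φ (A.a x) ∧ φ1 (A.c x) = φ (A.c x) ++ φ (A.c y) ∧
      φ1 (A.c (A.a x)) = φ (A.c (A.a x)) ++ F.reverse ∧ φ1 y = F ∧ φ1 (A.c y) = F.reverse ∧
      ∀ u, u ≠ x → u ≠ A.a x → u ≠ A.c x → u ≠ A.c (A.a x) → u ≠ y → u ≠ A.c y → φ1 u = φ u :=
    ⟨fun u => if u = x then φ y ++ φ x else if u = A.a x then F ++ φ (A.a x) else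
      if u = A.c x then φ (A.c x) ++ φ (A.c y) else
      if u = A.c (A.a x) then φ (A.c (A.a x)) ++ F.reverse else if u = y then F else
      if u = A.c y then F.reverse else φ u, by simp, by simp [ax], by simp [d1, d2],
      by simp [d3, d4, d5], by simp [n1, n2, n3, n4], by simp [d6, d7, d8, d9, d0],
      fun u a1 a2 a3 a4 a5 a6 => by simp [a1, a2, a3, a4, a5, a6]⟩
  let ρ : ℕ → ℕ := fun k => if k < M then k else (φ y).getD (k - M) 0
  have r1 : ∀ u ∈ A.dbl L, (φ u).map ρ = φ u := fun u hu =>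
    (List.map_congr_left (f := ρ) (g := id) fun k hk => if_pos (hM u hu k hk)).trans (List.map_id _)
  have r2 : F.map ρ = φ y := List.ext_getElem (by simp [hF]) fun i a b => by
    simp [hF, ρ, List.getD_eq_getElem?_getD, List.getElem?_eq_getElem b]
  have cy := (h1 y hy).1
  have r3 : F.reverse.map ρ = φ (A.c y) := by rw [List.map_reverse, r2, cy]
  obtain ⟨pre, post, q1, q2, q3⟩ : ∃ pre post : Φ → List ℕ,
      (∀ u ∈ A.dbl L, (φ1 u).map ρ = pre u ++ (φ u ++ post u)) ∧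
      (∀ u, pre (A.a u) = pre u ∧ post (A.a u) = post u) ∧
      ∀ u, A.a u = u → pre u = [] ∧ post u = [] := by
    refine ⟨fun u => if u = x ∨ A.a u = x then φ y else [],
      fun u => if A.c u = x ∨ A.c (A.a u) = x then φ (A.c y) else [], fun u hu => ?_,
      fun u => by simp only [A.aa, or_comm, and_self], fun u e => ?_⟩
    · have i1 : A.a u = x ↔ u = A.a x := ⟨fun e => by rw [← e, A.aa], fun e => by rw [e, A.aa]⟩
      have i2 : A.c u = x ↔ u = A.c x := ⟨fun e => by rw [← e, A.cc], fun e => by rw [e, A.cc]⟩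
      have i3 : A.c (A.a u) = x ↔ u = A.c (A.a x) :=
        ⟨fun e => by rw [← e, A.ac, A.cc, A.aa], fun e => by rw [e, A.ac, A.cc, A.aa]⟩
      simp only [i1, i2, i3]
      by_cases a1 : u = x
      · subst a1; simp [p1, r1 y hy, r1 u hu, d1.symm, d3.symm]
      by_cases a2 : u = A.a x
      · subst a2; simp [p2, r2, r1 _ hu, d2.symm, d4.symm]
      by_cases a3 : u = A.c x
      · subst a3; simp [p3, r1 _ hu, r1 _ (c_mem hy), d1, d2]
      by_cases a4 : u = A.c (A.a x)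
      · subst a4; rw [p4, List.map_append, r3, r1 _ hu]; simp [d3, d4]
      by_cases a5 : u = y
      · subst a5; simp [p5, r2, a1, a2, a3, a4]
      by_cases a6 : u = A.c y
      · subst a6; rw [p6, r3]; simp [a1, a2, a3, a4]
      simp [p7 u a1 a2 a3 a4 a5 a6, r1 u hu, a1, a2, a3, a4]
    · have a1 : u ≠ x := fun k => ax (k ▸ e)
      have a2 : A.c u ≠ x := fun k => ax (by rw [← k, A.ac, e])
      simp [e, a1, a2]
  have zz : ∀ u ∈ A.dbl L, ((φ1 u).zip (φ1 (A.a u))).map (Prod.map ρ ρ) =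
      (pre u).zip (pre u) ++ ((φ u).zip (φ (A.a u)) ++ (post u).zip (post u)) := fun u hu => by
    rw [← List.zip_map, q1 u hu, q1 _ (hW.2 u hu), (q2 u).1, (q2 u).2, List.zip_append rfl,
      List.zip_append (h1 u hu).2.1.symm]
  have len : ∀ u ∈ A.dbl L, (φ1 u).length = (pre u).length + ((φ u).length + (post u).length) :=
    fun u hu => by simpa using congrArg List.length (q1 u hu)
  have e0 : ∀ k ∈ F, EqvGen (A.Lk L1 φ1) k (ρ k) := fun k hk => by
    refine .symm _ _ (.rel _ _ ⟨x, (hm x).2 hx, ?_⟩)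
    rw [p1, p2, List.zip_append (by simp [hF]), ← r2, List.zip_map_left, List.zip_eq_zipWith,
      List.zipWith_self, List.map_map]
    exact List.mem_append_left _ (List.mem_map.2 ⟨k, hk, rfl⟩)
  have e1 : ∀ u ∈ A.dbl L, ∀ k ∈ φ1 u, EqvGen (A.Lk L1 φ1) k (ρ k) := fun u hu k hk => by
    have old : ∀ v ∈ A.dbl L, k ∈ φ v → EqvGen (A.Lk L1 φ1) k (ρ k) := fun v hv hk => by
      rw [show ρ k = k from if_pos (hM v hv k hk)]; exact .refl _
    by_cases a1 : u = x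
    · subst a1; rw [p1] at hk; exact (List.mem_append.1 hk).elim (old _ hy) (old _ hu)
    by_cases a2 : u = A.a x
    · subst a2; rw [p2] at hk; exact (List.mem_append.1 hk).elim (e0 k) (old _ hu)
    by_cases a3 : u = A.c x
    · subst a3; rw [p3] at hk; exact (List.mem_append.1 hk).elim (old _ hu) (old _ (c_mem hy))
    by_cases a4 : u = A.c (A.a x)
    · subst a4; rw [p4] at hk
      exact (List.mem_append.1 hk).elim (old _ hu) fun m => e0 k (List.mem_reverse.1 m)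
    by_cases a5 : u = y
    · subst a5; rw [p5] at hk; exact e0 k hk
    by_cases a6 : u = A.c y
    · subst a6; rw [p6] at hk; exact e0 k (List.mem_reverse.1 hk)
    rw [p7 u a1 a2 a3 a4 a5 a6] at hk; exact old _ hu hk
  have same : ∀ (l : List ℕ) (p q : ℕ), (p, q) ∈ l.zip l → p = q := fun l p q k => by
    rw [List.zip_eq_zipWith, List.zipWith_self] at k
    obtain ⟨_, _, e⟩ := List.mem_map.1 k
    exact (Prod.mk.inj e).1.symm.trans (Prod.mk.inj e).2
  have fw : ∀ p q, A.Lk L φ p q → EqvGen (A.Lk L1 φ1) (id p) (id q) := fun p q ⟨u, hu, k⟩ => by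
    obtain ⟨⟨p1, q1⟩, m, e⟩ := List.mem_map.1
      ((zz u hu).symm ▸ List.mem_append_right _ (List.mem_append_left _ k))
    obtain ⟨rfl, rfl⟩ : ρ p1 = p ∧ ρ q1 = q := Prod.mk.inj e
    exact .trans _ _ _ (.symm _ _ (e1 u hu p1 (List.of_mem_zip m).1)) (.trans _ _ _
      (.rel _ _ ⟨u, (hm u).2 hu, m⟩) (e1 _ (hW.2 u hu) q1 (List.of_mem_zip m).2))
  have bw : ∀ p q, A.Lk L1 φ1 p q → EqvGen (A.Lk L φ) (ρ p) (ρ q) := fun p q ⟨u, hu, k⟩ => by
    have m : (ρ p, ρ q) ∈ _ := zz u ((hm u).1 hu) ▸ List.mem_map.2 ⟨(p, q), k, rfl⟩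
    simp only [List.mem_append] at m
    rcases m with m | m | m
    · rw [same _ _ _ m]; exact .refl _
    · exact .rel _ _ ⟨u, (hm u).1 hu, m⟩
    · rw [same _ _ _ m]; exact .refl _
  have tm : ∀ s ∈ A.dbl L, A.a s = s → (φ1 s).getD 0 0 ∈ φ1 s ∧
      ρ ((φ1 s).getD 0 0) = (φ s).getD 0 0 := fun s hs e => by
    have l1 := len s hs
    have l2 := q1 s hs
    rw [(q3 s e).1, (q3 s e).2] at l1 l2
    rw [(h1 s hs).2.2.1 e] at l1
    obtain ⟨k, hk⟩ := List.length_eq_one_iff.1 l1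
    rw [List.nil_append, List.append_nil] at l2
    rw [← l2, hk]
    simp
  refine ⟨φ1, fun u hu => ?_, hN φ φ1 F (List.nodup_range' ..) (fun f hf k => ?_) p1 p2 p4 p5 p6 p7
    h2, fun s hs t ht => ?_⟩
  · rw [hm] at hu
    refine ⟨?_, by rw [len u hu, len _ (hW.2 u hu), (q2 u).1, (q2 u).2, (h1 u hu).2.1],
      fun e => by rw [len u hu, (q3 u e).1, (q3 u e).2, (h1 u hu).2.2.1 e]; rfl, trivial⟩
    have cx := (h1 x hx).1
    have cax := (h1 _ hax).1
    by_cases a1 : u = x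
    · subst a1; simp [p1, p3, cx, cy]
    by_cases a2 : u = A.a x
    · subst a2; simp [p2, p4, cax]
    by_cases a3 : u = A.c x
    · subst a3; simp [A.cc, p1, p3, cx, cy]
    by_cases a4 : u = A.c (A.a x)
    · subst a4; simp [A.cc, p2, p4, cax]
    by_cases a5 : u = y
    · subst a5; rw [p5, p6]
    by_cases a6 : u = A.c y
    · subst a6; simp [A.cc, p5, p6]
    have b : ∀ v, u ≠ A.c v → A.c u ≠ v := fun v k e => k (by rw [← e, A.cc])
    rw [p7 u a1 a2 a3 a4 a5 a6, p7 _ (b _ a3) (b _ a4) (fun e => a1 (c_inj A e))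
      (fun e => a2 (c_inj A e)) (b _ a6) fun e => a5 (c_inj A e), (h1 u hu).1]
  · obtain ⟨u, hu, k⟩ := List.mem_flatMap.1 k
    have := hM u (mem_dbl.2 (Or.inl hu)) f k
    have := List.mem_range'_1.1 hf
    omega
  · have hs' := (hm s).1 hs.1
    have ht' := (hm t).1 ht.1
    obtain ⟨s1, s2⟩ := tm s hs' hs.2
    obtain ⟨t1, t2⟩ := tm t ht' ht.2
    rw [h3 s ⟨hs', hs.2⟩ t ⟨ht', ht.2⟩]
    exact ⟨fun k => .trans _ _ _ (s2 ▸ e1 s hs' _ s1) (.trans _ _ _ (eqv_map id fw k)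
      (.symm _ _ (t2 ▸ e1 t ht' _ t1))), fun k => s2 ▸ t2 ▸ eqv_map ρ bw k⟩

theorem path_append {Λ : Type} {l : Φ → Λ} {X Y : List Φ} {p q : Λ} :
    A.Path l p (X ++ Y) q ↔ ∃ m, A.Path l p X m ∧ A.Path l m Y q := by
  induction X generalizing p with
  | nil => simp [Al.Path]
  | cons u X ih => simp [Al.Path, ih, and_assoc]

theorem path_congr {Λ : Type} {l l1 : Φ → Λ} {X : List Φ} {p q : Λ}
    (e : ∀ u ∈ X, l1 u = l u ∧ l1 (A.c u) = l (A.c u)) (h : A.Path l p X q) : A.Path l1 p X q := by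
  induction X generalizing p with
  | nil => exact h
  | cons u X ih =>
    obtain ⟨e1, e2⟩ := e u (by simp)
    exact ⟨e1.trans h.1, e2 ▸ ih (fun v hv => e v (by simp [hv])) h.2⟩

/-- what passes from a word to a new word -/
structure Tr (A : Al Φ) (L L1 : List Φ) : Prop where
  fe : ∀ π, A.Fe (fun _ => True) L π → A.Fe (fun _ => True) L1 π
  big : ∀ m, A.Big L m → A.Big L1 m
  lab : ∀ (Λ : Type) (l : Φ → Λ), A.Lab L l → ∃ l1, A.Lab L1 l1 ∧ ∀ t, A.a t = t → l1 t = l t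

theorem Tr.trans (h : Tr A L L1) (h' : Tr A L1 L2) : Tr A L L2 :=
  ⟨fun π k => h'.fe π (h.fe π k), fun m k => h'.big m (h.big m k), fun Λ l k =>
    let ⟨l1, a, b⟩ := h.lab Λ l k
    let ⟨l2, c, d⟩ := h'.lab Λ l1 a
    ⟨l2, c, fun t e => (d t e).trans (b t e)⟩⟩

theorem wf_perm (p : (A.dbl L).Perm (A.dbl L1)) (h : A.WF L) : A.WF L1 :=
  ⟨p.nodup_iff.1 h.1, fun u hu => p.mem_iff.1 (h.2 u (p.mem_iff.2 hu))⟩

theorem tm_perm (p : (A.dbl L).Perm (A.dbl L1)) : A.tm L1 = A.tm L :=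
  Set.ext fun _ => and_congr_left fun _ => p.mem_iff.symm

theorem dbl_perm (p : L.Perm L1) : (A.dbl L).Perm (A.dbl L1) := p.append (p.map _)

/-- the common part of the two front moves -/
theorem front (hW : A.WF L) (p : (A.dbl L).Perm (A.dbl L1)) (hx : x ∈ A.dbl L)
    (hy : y ∈ A.dbl L) (ax : A.a x ≠ x) (n1 : y ≠ x) (n2 : y ≠ A.a x) (n3 : y ≠ A.c x)
    (n4 : y ≠ A.c (A.a x))
    (hN : ∀ (φ φ1 : Φ → List ℕ) (F : List ℕ), F.Nodup → (∀ f ∈ F, f ∉ L.flatMap φ) →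
      φ1 x = φ y ++ φ x → φ1 (A.a x) = F ++ φ (A.a x) →
      φ1 (A.c (A.a x)) = φ (A.c (A.a x)) ++ F.reverse → φ1 y = F → φ1 (A.c y) = F.reverse →
      (∀ u, u ≠ x → u ≠ A.a x → u ≠ A.c x → u ≠ A.c (A.a x) → u ≠ y → u ≠ A.c y → φ1 u = φ u) →
      NCL (L.flatMap φ) → NCL (L1.flatMap φ1))
    (hL : ∀ (Λ : Type) (l l1 : Φ → Λ), (∀ u, l (A.a u) = l u) → l1 x = l y → l1 (A.a x) = l y →
      (∀ u, u ≠ x → u ≠ A.a x → l1 u = l u) → ∀ q, A.Path l q L q →
      l (A.c y) = l x ∧ A.Path l1 q L1 q) : Tr A L L1 := by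
  classical
  have key : ∀ (Λ : Type) (l : Φ → Λ), A.Lab L l → ∃ l1, A.Lab L1 l1 ∧
      (∀ t, A.a t = t → l1 t = l t) ∧ l '' {u | u ∈ A.dbl L} ⊆ l1 '' {u | u ∈ A.dbl L1} := by
    rintro Λ l ⟨h1, q, h2⟩
    have o : ∀ u, u ≠ x → u ≠ A.a x → (if u = x ∨ A.a u = x then l y else l u) = l u :=
      fun u a b => if_neg (not_or.2 ⟨a, fun e => b (by rw [← e, A.aa])⟩)
    obtain ⟨k1, k2⟩ := hL Λ l (fun u => if u = x ∨ A.a u = x then l y else l u) h1 (by simp)
      (by simp [A.aa]) o q h2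
    refine ⟨_, ⟨fun u => by simp only [A.aa, or_comm, h1], q, k2⟩, fun t e =>
      o t (fun k => ax (k ▸ e)) fun k => ax (k.symm.trans (a_inj A (e.trans k))), ?_⟩
    rintro _ ⟨u, hu, rfl⟩
    have cy := o (A.c y) (fun e => n3 (by rw [← e, A.cc])) fun e => n4 (by rw [← e, A.cc])
    by_cases a : u = x
    · exact ⟨A.c y, p.mem_iff.1 (c_mem hy), by rw [a, ← k1]; exact cy⟩
    by_cases b : u = A.a x
    · exact ⟨A.c y, p.mem_iff.1 (c_mem hy), by rw [b, h1, ← k1]; exact cy⟩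
    exact ⟨u, p.mem_iff.1 hu, o u a b⟩
  refine ⟨fun π => fe_core hW (fun _ => p.mem_iff.symm) hx hy ax n1 n2 n3 n4 hN, ?_,
    fun Λ l h => let ⟨l1, a, b, _⟩ := key Λ l h; ⟨l1, a, b⟩⟩
  rintro m ⟨Λ, l, h, k⟩
  obtain ⟨l1, a, b, c⟩ := key Λ l h
  refine ⟨Λ, l1, a, ?_⟩
  have e1 : L1.length = L.length := by
    have := p.length_eq
    simp only [Al.dbl, List.length_append, List.length_map] at this
    omega
  have e2 : l1 '' A.tm L1 = l '' A.tm L := by
    rw [tm_perm p]; exact image_congr fun t ht => b t ht.2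
  have := ncard_le_ncard (sdiff_subset_sdiff_left (t := l '' A.tm L) c)
    (((List.finite_toSet _).image _).subset sdiff_subset)
  rw [e1, e2]
  omega

theorem far (hW : A.WF L) {X Y : List Φ} (e : L.Perm (X ++ Y)) (hu : u ∈ X) {v : Φ} (hv : v ∈ Y) :
    v ≠ u ∧ v ≠ A.c u ∧ A.c v ≠ u := by
  have n := (wf_perm (dbl_perm e) hW).1
  simp only [Al.dbl, List.nodup_append, List.mem_append, List.mem_map] at n
  exact ⟨(n.1.2.2 u hu v hv).symm, n.2.2 v (Or.inr hv) _ ⟨u, Or.inl hu, rfl⟩,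
    (n.2.2 u (Or.inl hu) _ ⟨v, Or.inr hv, rfl⟩).symm⟩

theorem flat_congr {φ φ1 : Φ → List ℕ} (h : ∀ u ∈ Z, φ1 u = φ u) : Z.flatMap φ1 = Z.flatMap φ :=
  List.flatMap_congr h

theorem perm_u : (y :: x :: (Z ++ u :: R)).Perm (x :: (Z ++ u :: y :: R)) := by
  classical
  simp only [List.perm_iff_count, List.count_cons, List.count_append]
  intro _; omega

theorem perm_t : (A.dbl (y :: x :: (Z ++ u :: R))).Perm (A.dbl (x :: (Z ++ A.c y :: u :: R))) := by
  classical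
  simp only [Al.dbl, List.perm_iff_count, List.count_cons, List.count_append, List.map_cons,
    List.map_append, A.cc]
  intro _; omega

theorem perm_3 : (y :: x :: (Z ++ u :: R)).Perm ([y, x, u] ++ (Z ++ R)) := by
  classical
  simp only [List.perm_iff_count, List.count_cons, List.count_append, List.count_nil]
  intro _; omega

theorem frontU (ax : A.a x ≠ x) (hW : A.WF (y :: x :: (Z ++ A.c (A.a x) :: R))) :
    Tr A (y :: x :: (Z ++ A.c (A.a x) :: R)) (x :: (Z ++ A.c (A.a x) :: y :: R)) := by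
  have f1 := far hW (X := [y]) (u := y) (.refl _) (by simp) (v := x) (by simp)
  have f2 := far hW (X := [y]) (u := y) (.refl _) (by simp) (v := A.c (A.a x)) (by simp)
  rw [A.cc] at f2
  have hx : x ∈ A.dbl (y :: x :: (Z ++ A.c (A.a x) :: R)) := mem_dbl.2 (Or.inl (by simp))
  have g : ∀ v ∈ Z ++ R, (v ≠ x ∧ v ≠ A.a x ∧ v ≠ A.c x ∧ v ≠ A.c (A.a x) ∧ v ≠ y ∧ v ≠ A.c y) ∧
      A.c v ≠ x ∧ A.c v ≠ A.a x := fun v hv => by
    have a := far hW perm_3 (u := y) (by simp) hv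
    have b := far hW perm_3 (u := x) (by simp) hv
    have c := far hW perm_3 (u := A.c (A.a x)) (by simp) hv
    rw [A.cc] at c
    exact ⟨⟨b.1, c.2.1, b.2.1, c.1, a.1, a.2.1⟩, b.2.2, fun e => c.1 (by rw [← e, A.cc])⟩
  refine front hW (dbl_perm perm_u) hx (mem_dbl.2 (Or.inl (by simp))) ax f1.1.symm f2.2.2.symm
    f1.2.2.symm f2.1.symm (fun φ φ1 F n hf p1 _ p3 p4 _ p6 h => ?_) fun Λ l l1 h1 h2 h3 h4 q h => ?_
  · have o : ∀ v ∈ Z ++ R, φ1 v = φ v := fun v hv =>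
      let ⟨⟨a, b, c, d, e, f⟩, _⟩ := g v hv
      p6 v a b c d e f
    have := ncl_pair (X := φ y ++ φ x ++ Z.flatMap φ ++ φ (A.c (A.a x))) (Y := R.flatMap φ)
      (by simpa using h) n (by simpa using hf)
    simpa [p1, p3, p4, flat_congr fun v hv => o v (List.mem_append_left _ hv),
      flat_congr fun v hv => o v (List.mem_append_right _ hv)] using this
  · have o : ∀ v ∈ Z ++ R, l1 v = l v ∧ l1 (A.c v) = l (A.c v) := fun v hv =>
      let ⟨⟨a, b, _⟩, c, d⟩ := g v hv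
      ⟨h4 v a b, h4 _ c d⟩
    obtain ⟨a1, a2, h⟩ := h
    obtain ⟨m, a3, a4, a5⟩ := path_append.1 h
    have d2 : A.c x ≠ A.a x := fun e => ax (A.ne x e.symm)
    rw [A.cc, h1] at a5
    refine ⟨a2.symm, h2.trans a1, path_append.2 ⟨m, ?_, ?_, ?_, ?_⟩⟩
    · rw [h4 _ (c_ne hW hx) d2]
      exact path_congr (fun v hv => o v (List.mem_append_left _ hv)) a3
    · rw [h4 _ (fun e => d2 (by rw [← e, A.cc, e])) (c_ne hW (hW.2 x hx)), a4]
    · rw [A.cc, h3, h4 y f1.1.symm f2.2.2.symm]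
    · rw [h4 _ f1.2.1.symm fun e => f2.1 (by rw [← e, A.cc]), ← a2]
      exact path_congr (fun v hv => o v (List.mem_append_right _ hv)) a5

theorem frontT (ax : A.a x ≠ x) (hW : A.WF (y :: x :: (Z ++ A.a x :: R))) :
    Tr A (y :: x :: (Z ++ A.a x :: R)) (x :: (Z ++ A.c y :: A.a x :: R)) := by
  have f1 := far hW (X := [y]) (u := y) (.refl _) (by simp) (v := x) (by simp)
  have f2 := far hW (X := [y]) (u := y) (.refl _) (by simp) (v := A.a x) (by simp)
  have hx : x ∈ A.dbl (y :: x :: (Z ++ A.a x :: R)) := mem_dbl.2 (Or.inl (by simp))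
  have g : ∀ v ∈ Z ++ R, (v ≠ x ∧ v ≠ A.a x ∧ v ≠ A.c x ∧ v ≠ A.c (A.a x) ∧ v ≠ y ∧ v ≠ A.c y) ∧
      A.c v ≠ x ∧ A.c v ≠ A.a x := fun v hv => by
    have a := far hW perm_3 (u := y) (by simp) hv
    have b := far hW perm_3 (u := x) (by simp) hv
    have c := far hW perm_3 (u := A.a x) (by simp) hv
    exact ⟨⟨b.1, c.1, b.2.1, c.2.1, a.1, a.2.1⟩, b.2.2, c.2.2⟩
  refine front hW perm_t hx (mem_dbl.2 (Or.inl (by simp))) ax f1.1.symm f2.1.symm
    f1.2.2.symm f2.2.2.symm (fun φ φ1 F n hf p1 p2 _ _ p5 p6 h => ?_)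
    fun Λ l l1 h1 h2 h3 h4 q h => ?_
  · have o : ∀ v ∈ Z ++ R, φ1 v = φ v := fun v hv =>
      let ⟨⟨a, b, c, d, e, f⟩, _⟩ := g v hv
      p6 v a b c d e f
    have := ncl_pair (X := φ y ++ φ x ++ Z.flatMap φ) (Y := φ (A.a x) ++ R.flatMap φ)
      (by simpa using h) n (by simpa using hf)
    simpa [p1, p2, p5, flat_congr fun v hv => o v (List.mem_append_left _ hv),
      flat_congr fun v hv => o v (List.mem_append_right _ hv)] using this
  · have o : ∀ v ∈ Z ++ R, l1 v = l v ∧ l1 (A.c v) = l (A.c v) := fun v hv =>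
      let ⟨⟨a, b, _⟩, c, d⟩ := g v hv
      ⟨h4 v a b, h4 _ c d⟩
    obtain ⟨a1, a2, h⟩ := h
    obtain ⟨m, a3, a4, a5⟩ := path_append.1 h
    have d2 : A.c x ≠ A.a x := fun e => ax (A.ne x e.symm)
    refine ⟨a2.symm, h2.trans a1, path_append.2 ⟨m, ?_, ?_, ?_, ?_⟩⟩
    · rw [h4 _ (c_ne hW hx) d2]
      exact path_congr (fun v hv => o v (List.mem_append_left _ hv)) a3
    · rw [h4 _ f1.2.1.symm f2.2.1.symm, ← a2, ← a4, h1]
    · rw [A.cc, h3, h4 y f1.1.symm f2.1.symm]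
    · rw [h4 _ (fun e => d2 (by rw [← e, A.cc, e])) (c_ne hW (hW.2 x hx))]
      exact path_congr (fun v hv => o v (List.mem_append_right _ hv)) a5

theorem sl_perm (h : A.Sl L L1) : (A.dbl L).Perm (A.dbl L1) := by
  classical
  cases h <;>
  · simp only [Al.dbl, List.perm_iff_count, List.count_cons, List.count_append, List.map_cons,
      List.map_append, A.cc]
    intro _; omega

section moves

variable (hR : RotWS)
include hR

theorem rot {X Y : List Φ} (hW : A.WF L) (e : L = X ++ Y) (e1 : L1 = Y ++ X) :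
    A.WF L1 ∧ Tr A L L1 := by
  subst e e1
  have s := (hR Φ A).1 X Y hW
  exact ⟨s.wf, fun π => (s.fe π).1, fun m => (s.big m).1, s.lab⟩

/-- a move between rotated words -/
theorem conj {K K1 X Y X1 Y1 : List Φ} (hW : A.WF L) (hW1 : A.WF L1) (e : L = X ++ Y)
    (e' : K = Y ++ X) (e1 : L1 = X1 ++ Y1) (e1' : K1 = Y1 ++ X1)
    (h : A.WF K → A.WF K1 → Tr A K K1) : Tr A L L1 :=
  have a := rot hR hW e e'
  have b := (rot hR hW1 e1 e1').1
  (a.2.trans (h a.1 b)).trans (rot hR b e1' e1).2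

/-- a move between mirror images -/
theorem mirror {K K1 : List Φ} (hW : A.WF L) (hW1 : A.WF L1) (e : K = A.inv L) (e1 : K1 = A.inv L1)
    (h : A.WF K → A.WF K1 → Tr A K K1) : Tr A L L1 := by
  subst e e1
  obtain ⟨a1, a2, a3, a4, -⟩ := (hR Φ A).2 L hW
  obtain ⟨b1, b2, b3, b4, -⟩ := (hR Φ A).2 L1 hW1
  have t := h a1 b1
  exact ⟨fun π k => (b2 _ π).2 (t.fe π ((a2 _ π).1 k)), fun m k => (b3 m).2 (t.big m ((a3 m).1 k)),
    fun Λ l k => let ⟨l1, c, d⟩ := t.lab Λ l ((a4 Λ l).1 k); ⟨l1, (b4 Λ l1).2 c, d⟩⟩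

theorem u1f (ax : A.a x ≠ x) (h : A.WF (P ++ y :: x :: (Z ++ A.c (A.a x) :: R)))
    (h1 : A.WF (P ++ x :: (Z ++ A.c (A.a x) :: y :: R))) :
    Tr A (P ++ y :: x :: (Z ++ A.c (A.a x) :: R)) (P ++ x :: (Z ++ A.c (A.a x) :: y :: R)) :=
  conj hR h h1 rfl (by simp) rfl (by simp) fun k _ => frontU (R := R ++ P) (Z := Z) (y := y) ax k

theorem u1b (ax : A.a x ≠ x) (h : A.WF (P ++ x :: (Z ++ A.c (A.a x) :: y :: R)))
    (h1 : A.WF (P ++ y :: x :: (Z ++ A.c (A.a x) :: R))) :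
    Tr A (P ++ x :: (Z ++ A.c (A.a x) :: y :: R)) (P ++ y :: x :: (Z ++ A.c (A.a x) :: R)) :=
  mirror hR h h1 (by simp [Al.inv, A.aa, A.cc]) (by simp [Al.inv, A.aa, A.cc])
    (u1f hR (P := A.inv R) (Z := A.inv Z) (R := A.inv P) (x := A.a x) (y := A.c y)
      fun e => ax (a_inj A e))

theorem u2f (ax : A.a x ≠ x) (h : A.WF (P ++ x :: y :: (Z ++ A.c (A.a x) :: R)))
    (h1 : A.WF (P ++ x :: (Z ++ y :: A.c (A.a x) :: R))) :
    Tr A (P ++ x :: y :: (Z ++ A.c (A.a x) :: R)) (P ++ x :: (Z ++ y :: A.c (A.a x) :: R)) :=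
  conj hR (X := P ++ x :: y :: Z) (Y := A.c (A.a x) :: R) (X1 := P ++ x :: Z)
    (Y1 := y :: A.c (A.a x) :: R) h h1 (by simp) (by simp [A.ac, A.aa, A.cc]) (by simp)
    (by simp [A.ac, A.aa, A.cc])
    (u1b hR (P := []) (Z := R ++ P) (R := Z) (x := A.c (A.a x)) (y := y)
      fun e => ax (a_inj A (c_inj A (by rw [← A.ac, e]))))

theorem u2b (ax : A.a x ≠ x) (h : A.WF (P ++ x :: (Z ++ y :: A.c (A.a x) :: R)))
    (h1 : A.WF (P ++ x :: y :: (Z ++ A.c (A.a x) :: R))) :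
    Tr A (P ++ x :: (Z ++ y :: A.c (A.a x) :: R)) (P ++ x :: y :: (Z ++ A.c (A.a x) :: R)) :=
  conj hR (X1 := P ++ x :: y :: Z) (Y1 := A.c (A.a x) :: R) (X := P ++ x :: Z)
    (Y := y :: A.c (A.a x) :: R) h h1 (by simp) (by simp [A.ac, A.aa, A.cc]) (by simp)
    (by simp [A.ac, A.aa, A.cc])
    (u1f hR (P := []) (Z := R ++ P) (R := Z) (x := A.c (A.a x)) (y := y)
      fun e => ax (a_inj A (c_inj A (by rw [← A.ac, e]))))

theorem t1f (ax : A.a x ≠ x) (h : A.WF (P ++ y :: x :: (Z ++ A.a x :: R)))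
    (h1 : A.WF (P ++ x :: (Z ++ A.c y :: A.a x :: R))) :
    Tr A (P ++ y :: x :: (Z ++ A.a x :: R)) (P ++ x :: (Z ++ A.c y :: A.a x :: R)) :=
  conj hR h h1 rfl (by simp) rfl (by simp) fun k _ => frontT (R := R ++ P) (Z := Z) (y := y) ax k

theorem t1b (ax : A.a x ≠ x) (h : A.WF (P ++ x :: (Z ++ A.c y :: A.a x :: R)))
    (h1 : A.WF (P ++ y :: x :: (Z ++ A.a x :: R))) :
    Tr A (P ++ x :: (Z ++ A.c y :: A.a x :: R)) (P ++ y :: x :: (Z ++ A.a x :: R)) :=
  conj hR (X := P ++ x :: Z) (Y := A.c y :: A.a x :: R) (X1 := P ++ y :: x :: Z)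
    (Y1 := A.a x :: R) h h1 (by simp) (by simp [A.aa]) (by simp) (by simp [A.aa, A.cc])
    (t1f hR (P := []) (Z := R ++ P) (R := Z) (x := A.a x) (y := A.c y) fun e => ax (a_inj A e))

theorem t2f (ax : A.a x ≠ x) (h : A.WF (P ++ x :: y :: (Z ++ A.a x :: R)))
    (h1 : A.WF (P ++ x :: (Z ++ A.a x :: A.c y :: R))) :
    Tr A (P ++ x :: y :: (Z ++ A.a x :: R)) (P ++ x :: (Z ++ A.a x :: A.c y :: R)) :=
  mirror hR h h1 (by simp [Al.inv, A.ac, A.aa]) (by simp [Al.inv, A.ac, A.aa, A.cc])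
    (t1b hR (P := A.inv R) (Z := A.inv Z) (R := A.inv P) (x := A.c (A.a x)) (y := y)
      fun e => ax (a_inj A (c_inj A (by rw [← A.ac, e]))))

theorem t2b (ax : A.a x ≠ x) (h : A.WF (P ++ x :: (Z ++ A.a x :: A.c y :: R)))
    (h1 : A.WF (P ++ x :: y :: (Z ++ A.a x :: R))) :
    Tr A (P ++ x :: (Z ++ A.a x :: A.c y :: R)) (P ++ x :: y :: (Z ++ A.a x :: R)) :=
  mirror hR h h1 (by simp [Al.inv, A.ac, A.aa, A.cc]) (by simp [Al.inv, A.ac, A.aa])
    (t1f hR (P := A.inv R) (Z := A.inv Z) (R := A.inv P) (x := A.c (A.a x)) (y := y)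
      fun e => ax (a_inj A (c_inj A (by rw [← A.ac, e]))))

theorem sl_tr (h : A.Sl L L1) (hW : A.WF L) (hW1 : A.WF L1) : Tr A L L1 ∧ Tr A L1 L := by
  cases h with
  | u1 P Z R x y ax => exact ⟨u1f hR ax hW hW1, u1b hR ax hW1 hW⟩
  | u2 P Z R x y ax => exact ⟨u2f hR ax hW hW1, u2b hR ax hW1 hW⟩
  | t1 P Z R x y ax => exact ⟨t1f hR ax hW hW1, t1b hR ax hW1 hW⟩
  | t2 P Z R x y ax => exact ⟨t2f hR ax hW hW1, t2b hR ax hW1 hW⟩

end moves

theorem sl_ori (h : A.Sl L L1) : (∀ u, u ∈ L ↔ u ∈ L1) ∨ (¬ A.Ori L ∧ ¬ A.Ori L1) := by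
  cases h with
  | u1 P Z R x y ax => exact Or.inl fun u => by simp only [List.mem_append, List.mem_cons]; tauto
  | u2 P Z R x y ax => exact Or.inl fun u => by simp only [List.mem_append, List.mem_cons]; tauto
  | t1 P Z R x y ax =>
    exact Or.inr ⟨fun o => ax (o x (by simp) (by simp)), fun o => ax (o x (by simp) (by simp))⟩
  | t2 P Z R x y ax =>
    exact Or.inr ⟨fun o => ax (o x (by simp) (by simp)), fun o => ax (o x (by simp) (by simp))⟩

theorem sim_of (p : (A.dbl L).Perm (A.dbl L1)) (hW : A.WF L) (t : Tr A L L1) (t' : Tr A L1 L)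
    (o : (∀ u, u ∈ L ↔ u ∈ L1) ∨ (¬ A.Ori L ∧ ¬ A.Ori L1)) : A.Sim L L1 :=
  ⟨wf_perm p hW, fun π => ⟨t.fe π, t'.fe π⟩, fun m => ⟨t.big m, t'.big m⟩, t.lab, tm_perm p,
    o.elim (fun o => by simp only [Al.Ori, o]) fun o => iff_of_false o.1 o.2,
    fun k u hu _ => o.elim (fun o => (o u).2 hu) fun o => (o.1 k).elim⟩

theorem sim_trans (h : A.Sim L L1) (h' : A.Sim L1 L2) : A.Sim L L2 :=
  ⟨h'.wf, fun π => (h.fe π).trans (h'.fe π), fun m => (h.big m).trans (h'.big m), fun Λ l k =>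
    let ⟨l1, a, b⟩ := h.lab Λ l k
    let ⟨l2, c, d⟩ := h'.lab Λ l1 a
    ⟨l2, c, fun t e => (d t e).trans (b t e)⟩, h'.tm.trans h.tm, h.ori.trans h'.ori,
    fun o t ht e => h.sgn o t (h'.sgn (h.ori.1 o) t ht e) e⟩

end RWordB

open RWordB

theorem slideS (hR : RotWS) : SlideS := by
  intro Φ A L L1 hW h
  suffices k : (A.WF L → A.Sim L L1) ∧ (A.WF L1 → A.Sim L1 L) from k.1 hW
  clear hW
  induction h with
  | rel L L1 h =>
    have p := sl_perm h
    refine ⟨fun w => ?_, fun w => ?_⟩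
    · have t := sl_tr hR h w (wf_perm p w)
      exact sim_of p w t.1 t.2 (sl_ori h)
    · have t := sl_tr hR h (wf_perm p.symm w) w
      exact sim_of p.symm w t.2 t.1 ((sl_ori h).imp (fun o u => (o u).symm) And.symm)
  | refl L =>
    have k : A.WF L → A.Sim L L := fun w => ⟨w, fun _ => .rfl, fun _ => .rfl,
      fun _ l k => ⟨l, k, fun _ _ => rfl⟩, rfl, .rfl, fun _ _ k _ => k⟩
    exact ⟨k, k⟩
  | symm _ _ _ ih => exact ih.symm
  | trans _ _ _ _ _ i1 i2 =>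
    exact ⟨fun w => sim_trans (i1.1 w) (i2.1 (i1.1 w).wf),
      fun w => sim_trans (i2.2 w) (i1.2 (i2.2 w).wf)⟩

end Pool.Agent.MP_9d78a0_co.gm

end MrgPart1

-- ======== part 2: formerly Pool.Agent.MP_9d78a0_co.gm.RWordG
section MrgPart2

/-! Words: two normal forms with the same invariants agree. -/

set_option autoImplicit false

namespace Pool.Agent.MP_9d78a0_co.gm.Wf

open Set Function

variable {Φ Ψ Λ Λ' : Type} {A : Al Φ} {A' : Al Ψ} {l : Φ → Λ}

theorem path_append {X Y : List Φ} : ∀ {p q : Λ},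
    A.Path l p (X ++ Y) q ↔ ∃ m, A.Path l p X m ∧ A.Path l m Y q := by
  induction X with
  | nil => intro p q; simp [Al.Path]
  | cons u X ih => intro p q; simp only [List.cons_append, Al.Path, ih]; aesop

theorem path_congr {l1 : Φ → Λ} {X : List Φ} (h : ∀ u ∈ X, l1 u = l u ∧ l1 (A.c u) = l (A.c u)) :
    ∀ {p q : Λ}, A.Path l1 p X q → A.Path l p X q := by
  induction X with
  | nil => exact id
  | cons u X ih =>
    intro p q k
    have := h u List.mem_cons_self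
    exact ⟨this.1 ▸ k.1, this.2 ▸ ih (fun v hv => h v (List.mem_cons_of_mem _ hv)) k.2⟩

theorem path_inv {X : List Φ} : ∀ {p q : Λ}, A.Path l p X q → A.Path l q (A.inv X) p := by
  induction X with
  | nil => exact Eq.symm
  | cons u X ih =>
    intro p q k
    rw [inv_cons]
    exact path_append.2 ⟨_, ih k.2, rfl, by rw [A.cc]; exact k.1⟩

theorem path_map {l' : Ψ → Λ'} {T' : Set Ψ} {τ : Ψ → Φ} (hc : ∀ t ∈ T', τ (A'.c t) = A.c (τ t))
    (hl : ∀ s ∈ T', ∀ t ∈ T', l' s = l' t → l (τ s) = l (τ t)) {t : Ψ} (ht : t ∈ T')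
    {X : List Ψ} (hX : ∀ u ∈ X, u ∈ T' ∧ A'.c u ∈ T') : ∀ s ∈ T',
    A'.Path l' (l' s) X (l' t) → A.Path l (l (τ s)) (X.map τ) (l (τ t)) := by
  induction X with
  | nil => exact fun s hs k => hl s hs t ht k
  | cons u X ih =>
    intro s hs k
    have hu := hX u List.mem_cons_self
    refine ⟨hl u hu.1 s hs k.1, ?_⟩
    rw [← hc u hu.1]
    exact ih (fun v hv => hX v (List.mem_cons_of_mem _ hv)) _ hu.2 k.2

theorem sim_refl {L : List Φ} (w : A.WF L) : A.Sim L L :=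
  ⟨w, fun _ => Iff.rfl, fun _ => Iff.rfl, fun _ l h => ⟨l, h, fun _ _ => rfl⟩, rfl, Iff.rfl,
    fun _ _ h _ => h⟩

theorem sim_trans {L M N : List Φ} (h : A.Sim L M) (k : A.Sim M N) : A.Sim L N :=
  ⟨k.wf, fun π => (h.fe π).trans (k.fe π), fun m => (h.big m).trans (k.big m),
    fun Λ l hl => by
      obtain ⟨l1, h1, e1⟩ := h.lab Λ l hl
      obtain ⟨l2, h2, e2⟩ := k.lab Λ l1 h1
      exact ⟨l2, h2, fun t ht => (e2 t ht).trans (e1 t ht)⟩,
    k.tm.trans h.tm, h.ori.trans k.ori,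
    fun o t ht e => h.sgn o t (k.sgn (h.ori.1 o) t ht e) e⟩

theorem hw_cons (h : Φ × List Φ) (H : List (Φ × List Φ)) :
    hw A (h :: H) = hole A h.1 h.2 ++ hw A H := List.flatMap_cons

theorem hw_append (H K : List (Φ × List Φ)) : hw A (H ++ K) = hw A H ++ hw A K :=
  List.flatMap_append

theorem del_holes (hD : DelWS) (R : List Φ) (H : List (Φ × List Φ)) (hH : ∀ h ∈ H, A.a h.1 ≠ h.1) :
    ∀ P : List Φ, P ≠ [] → A.WF (P ++ (hw A H ++ R)) → ∃ H1 : List (Φ × List Φ),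
      (∀ h ∈ H1, h ∈ H ∧ h.2 ≠ []) ∧ A.Sim (P ++ (hw A H ++ R)) (P ++ (hw A H1 ++ R)) := by
  induction H with
  | nil => exact fun P _ w => ⟨[], by simp, sim_refl w⟩
  | cons h H ih =>
    intro P hP w
    have ih := ih fun k hk => hH k (List.mem_cons_of_mem _ hk)
    by_cases e : h.2 = []
    · have e1 : P ++ (hw A (h :: H) ++ R) = P ++ h.1 :: A.c (A.a h.1) :: (hw A H ++ R) := by
        simp [hw_cons, hole, e, pr]
      rw [e1] at w ⊢
      have s := hD Φ A P _ h.1 (hH h List.mem_cons_self) (by simp [hP]) w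
      obtain ⟨H1, k1, k2⟩ := ih P hP s.wf
      exact ⟨H1, fun g hg => ⟨List.mem_cons_of_mem _ (k1 g hg).1, (k1 g hg).2⟩, sim_trans s k2⟩
    · have e1 : ∀ H, P ++ (hw A (h :: H) ++ R) = (P ++ hole A h.1 h.2) ++ (hw A H ++ R) := by
        simp [hw_cons]
      rw [e1] at w ⊢
      obtain ⟨H1, k1, k2⟩ := ih _ (by simp [hP]) w
      refine ⟨h :: H1, fun g hg => ?_, by rw [e1]; exact k2⟩
      rcases List.mem_cons.1 hg with rfl | hg
      · exact ⟨List.mem_cons_self, e⟩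
      · exact ⟨List.mem_cons_of_mem _ (k1 g hg).1, (k1 g hg).2⟩

/-- the shape of a normal form -/
structure Sh (A : Al Φ) (z : Φ) (Q : List Φ) (H : List (Φ × List Φ)) (Y : List Φ) : Prop where
  z : A.a z = z
  q : (Caps A Q ∧ Q ≠ []) ∨ Hans A Q
  h : ∀ h ∈ H, A.a h.1 ≠ h.1 ∧ h.2 ≠ [] ∧ ∀ u ∈ h.2, A.a u = u
  y : ∀ u ∈ Y, A.a u = u

theorem nfs (hR : RotWS) (hS : SlideS) (hD : DelWS) {L : List Φ} {z : Φ} (w : A.WF L)
    (hz : z ∈ L) (tz : A.a z = z) :
    ∃ Q H Y, Sh A z Q H Y ∧ A.Sim L (z :: (Q ++ (hw A H ++ Y))) := by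
  obtain ⟨P, R, rfl⟩ := List.append_of_mem hz
  have s1 := (hR Φ A).1 P (z :: R) w
  have w1 : A.WF (R ++ P) := wf_drop (B := [z]) s1.wf (by
    intro u hu
    simp only [Al.dbl, List.map, List.mem_append, List.mem_singleton] at hu ⊢
    rcases hu with rfl | rfl
    · exact Or.inl tz
    · exact Or.inr (t_c tz))
  obtain ⟨Q, H, Y, h1, h2, h3, h4⟩ := nf w1
  have s2 := hS Φ A _ _ s1.wf (h4.ctx [z])
  obtain ⟨H1, k1, k2⟩ := del_holes hD Y H (fun h hh => (h2 h hh).1) (z :: Q) (by simp)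
    (by simpa using s2.wf)
  refine ⟨Q, H1, Y, ⟨tz, h1, fun h hh => ?_, h3⟩,
    sim_trans s1 (sim_trans s2 (by simpa using k2))⟩
  exact ⟨(h2 h (k1 h hh).1).1, (k1 h hh).2, (h2 h (k1 h hh).1).2⟩

theorem l_pr (ha : ∀ u, l (A.a u) = l u) (x : Φ) :
    l (pr A x) = l (A.c x) ∧ l (A.c (pr A x)) = l x :=
  ⟨by rw [← ha, a_pr], by rw [c_pr, ha]⟩

theorem Caps.path (ha : ∀ u, l (A.a u) = l u) {Q : List Φ} (h : Caps A Q) {p q : Λ}
    (k : A.Path l p Q q) : p = q ∧ ∀ u ∈ Q, l u = p ∧ l (A.c u) = p := by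
  induction h with
  | nil => exact ⟨k, by simp⟩
  | cons x Q hx _ ih =>
    obtain ⟨k1, k2, k3⟩ := k
    have e1 : l (A.c x) = p := by rw [← k2, ha, k1]
    have e2 : l (A.c (A.a x)) = p := by rw [← A.ac, ha, e1]
    rw [e2] at k3
    exact ⟨(ih k3).1, by simpa [k1, e1, e2, ha] using (ih k3).2⟩

theorem Hans.path (ha : ∀ u, l (A.a u) = l u) {Q : List Φ} (h : Hans A Q) {p q : Λ}
    (k : A.Path l p Q q) : p = q ∧ ∀ u ∈ Q, l u = p ∧ l (A.c u) = p := by
  induction h with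
  | nil => exact ⟨k, by simp⟩
  | cons x y Q hx hy _ ih =>
    obtain ⟨k1, k2, k3, k4, k5⟩ := k
    have a1 := l_pr ha x
    have a2 := l_pr ha y
    have e1 : l (A.c y) = p := by rw [← a2.1, k4, a1.2, k1]
    have e2 : l (A.c x) = p := by rw [← a1.1, k3, e1]
    have e3 : l y = p := by rw [k2, e2]
    rw [a2.2, e3] at k5
    exact ⟨(ih k5).1, by simpa [k1, e1, e2, e3, a1, a2] using (ih k5).2⟩

theorem hw_path (ha : ∀ u, l (A.a u) = l u) (H : List (Φ × List Φ)) {p q : Λ}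
    (k : A.Path l p (hw A H) q) :
    p = q ∧ ∀ h ∈ H, l h.1 = p ∧ A.Path l (l (A.c h.1)) h.2 (l (A.c h.1)) := by
  induction H with
  | nil => exact ⟨k, by simp⟩
  | cons h H ih =>
    rw [hw_cons, path_append] at k
    obtain ⟨m, ⟨k1, k2⟩, k3⟩ := k
    obtain ⟨m', k4, k5, k6⟩ := path_append.1 k2
    have a1 := l_pr ha h.1
    have e : m = p := by rw [← k1, ← a1.2]; exact k6.symm
    subst e
    rw [← k5, a1.1] at k4
    exact ⟨(ih k3).1, List.forall_mem_cons.2 ⟨⟨k1, k4⟩, (ih k3).2⟩⟩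

theorem mem_hw {H : List (Φ × List Φ)} {u : Φ} :
    u ∈ hw A H ↔ ∃ h ∈ H, u = h.1 ∨ u ∈ h.2 ∨ u = pr A h.1 := by
  simp [hw, hole]

section
variable {z : Φ} {Q Y : List Φ} {H : List (Φ × List Φ)}

theorem Sh.lab (s : Sh A z Q H Y) (h : A.Lab (z :: (Q ++ (hw A H ++ Y))) l) :
    (∀ u ∈ Q, l u = l (A.c z) ∧ l (A.c u) = l (A.c z)) ∧
    (∀ h ∈ H, l h.1 = l (A.c z) ∧ A.Path l (l (A.c h.1)) h.2 (l (A.c h.1))) ∧
    A.Path l (l (A.c z)) Y (l z) := by
  obtain ⟨ha, p, rfl, k⟩ := h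
  obtain ⟨m, k1, k2⟩ := path_append.1 k
  obtain ⟨m', k3, k4⟩ := path_append.1 k2
  obtain ⟨rfl, k5⟩ : l (A.c z) = m ∧ ∀ u ∈ Q, l u = l (A.c z) ∧ l (A.c u) = l (A.c z) := by
    rcases s.q with h | h
    exacts [h.1.path ha k1, h.path ha k1]
  obtain ⟨rfl, k6⟩ := hw_path ha H k3
  exact ⟨k5, k6, k4⟩

theorem tm_c {L : List Φ} {u : Φ} (h : u ∈ A.tm L) : A.c u ∈ A.tm L :=
  ⟨mem_dbl.2 (by rw [A.cc]; exact (mem_dbl.1 h.1).symm), t_c h.2⟩

theorem tm_of {L : List Φ} {u : Φ} (h : u ∈ L) (t : A.a u = u) : u ∈ A.tm L :=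
  ⟨mem_dbl.2 (Or.inl h), t⟩

theorem Sh.big (s : Sh A z Q H Y) (m : ℤ) : A.Big (z :: (Q ++ (hw A H ++ Y))) m ↔
    m + (z :: (Q ++ (hw A H ++ Y))).length ≤ 0 := by
  generalize e : z :: (Q ++ (hw A H ++ Y)) = N
  have hz : z ∈ A.tm N := tm_of (by simp [← e]) s.z
  constructor
  · rintro ⟨Λ, l, h, k⟩
    have ha := h.1
    obtain ⟨k1, k2, -⟩ := s.lab (e ▸ h)
    have g : ∀ u ∈ N, l u ∈ l '' A.tm N ∧ l (A.c u) ∈ l '' A.tm N := by
      intro u hu
      by_cases t : A.a u = u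
      · exact ⟨⟨_, tm_of hu t, rfl⟩, _, tm_c (tm_of hu t), rfl⟩
      have hu' := hu
      rw [← e] at hu'
      simp only [List.mem_cons, List.mem_append, mem_hw] at hu'
      rcases hu' with rfl | hu' | ⟨h, hh, hu'⟩ | hu'
      · exact absurd s.z t
      · exact ⟨⟨_, tm_c hz, (k1 u hu').1.symm⟩, _, tm_c hz, (k1 u hu').2.symm⟩
      · obtain ⟨y, Y1, e1⟩ := List.exists_cons_of_ne_nil (s.h h hh).2.1
        have hy : y ∈ h.2 := by simp [e1]
        have g1 : l h.1 ∈ l '' A.tm N := ⟨_, tm_c hz, (k2 h hh).1.symm⟩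
        have g2 : l (A.c h.1) ∈ l '' A.tm N := ⟨y, tm_of (by
          rw [← e]
          simp only [List.mem_cons, List.mem_append, mem_hw]
          exact Or.inr (Or.inr (Or.inl ⟨h, hh, Or.inr (Or.inl hy)⟩))) ((s.h h hh).2.2 y hy), by
            have := (k2 h hh).2
            rw [e1] at this
            exact this.1⟩
        rcases hu' with rfl | hu' | rfl
        · exact ⟨g1, g2⟩
        · exact absurd ((s.h h hh).2.2 u hu') t
        · rw [(l_pr ha h.1).1, (l_pr ha h.1).2]; exact ⟨g2, g1⟩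
      · exact absurd (s.y u hu') t
    have : l '' {u | u ∈ A.dbl N} \ l '' A.tm N = ∅ := by
      rw [sdiff_eq_empty]
      rintro _ ⟨u, hu, rfl⟩
      rcases mem_dbl.1 hu with hu | hu
      · exact (g u hu).1
      · exact A.cc u ▸ (g _ hu).2
    simpa [this] using k
  · intro k
    refine ⟨Unit, fun _ => (), ⟨fun _ => rfl, (), ?_⟩, k.trans (by positivity)⟩
    clear e hz k
    induction N with
    | nil => rfl
    | cons u N ih => exact ⟨rfl, ih⟩

theorem Hans.pr_mem (h : Hans A Q) : ∀ u ∈ Q, pr A u ∈ Q := by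
  induction h with
  | nil => simp
  | cons x y Q _ _ _ ih =>
    intro u hu
    simp only [List.mem_cons] at hu ⊢
    rcases hu with rfl | rfl | rfl | rfl | hu
    · simp
    · simp
    · simp [pr_pr]
    · simp [pr_pr]
    · simp [ih u hu]

theorem Sh.ori (s : Sh A z Q H Y) (w : A.WF (z :: (Q ++ (hw A H ++ Y)))) :
    (A.Ori (z :: (Q ++ (hw A H ++ Y))) → Hans A Q) ∧
    (¬ A.Ori (z :: (Q ++ (hw A H ++ Y))) → Caps A Q ∧ Q ≠ []) := by
  refine ⟨fun o => s.q.resolve_left ?_, fun o => s.q.resolve_right fun h => o ?_⟩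
  · rintro ⟨h, k⟩
    cases h with
    | nil => exact k rfl
    | cons x Q hx _ => exact hx (o x (by simp) (by simp))
  · intro u hu hu1
    by_contra t
    refine (List.nodup_append.1 w.1).2.2 _ hu1 _ (List.mem_map.2 ⟨pr A u, ?_, rfl⟩) (c_pr u).symm
    simp only [List.mem_cons, List.mem_append, mem_hw] at hu ⊢
    rcases hu with rfl | hu | ⟨g, hg, rfl | hu | rfl⟩ | hu
    · exact absurd s.z t
    · exact Or.inr (Or.inl (h.pr_mem u hu))
    · exact Or.inr (Or.inr (Or.inl ⟨g, hg, Or.inr (Or.inr rfl)⟩))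
    · exact absurd ((s.h g hg).2.2 u hu) t
    · exact Or.inr (Or.inr (Or.inl ⟨g, hg, Or.inl (pr_pr _)⟩))
    · exact absurd (s.y u hu) t

end

end Pool.Agent.MP_9d78a0_co.gm.Wf

end MrgPart2

-- ======== part 3: formerly Pool.Agent.MP_9d78a0_co.gm.RWordH
section MrgPart3

/-! Words: matching of two normal forms. -/

set_option autoImplicit false

namespace Pool.Agent.MP_9d78a0_co.gm.Wf

open Set Function

variable {Φ Ψ Λ Λ' : Type} {A : Al Φ} {A' : Al Ψ} {l : Φ → Λ}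

/-- a closed walk of letters of `T` -/
def Cy (A : Al Φ) (l : Φ → Λ) (T : Set Φ) (Y : List Φ) : Prop :=
  (∃ p, A.Path l p Y p) ∧ (A.dbl Y).Nodup ∧ ∀ u ∈ A.dbl Y, u ∈ T

/-- no value is taken three times -/
def Sep (l : Φ → Λ) (T : Set Φ) : Prop :=
  ∀ t ∈ T, ∀ t1 ∈ T, ∀ t2 ∈ T, l t1 = l t → l t2 = l t → t1 ≠ t → t2 ≠ t → t1 = t2

variable {T : Set Φ}

theorem Cy.rot {X Y : List Φ} (h : Cy A l T (X ++ Y)) : Cy A l T (Y ++ X) := by
  obtain ⟨⟨p, h1⟩, h2, h3⟩ := h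
  obtain ⟨m, k1, k2⟩ := path_append.1 h1
  have e := dbl_perm (A := A) (List.perm_append_comm (l₁ := X) (l₂ := Y))
  exact ⟨⟨m, path_append.2 ⟨p, k2, k1⟩⟩, e.nodup_iff.1 h2, fun u hu => h3 u (e.mem_iff.2 hu)⟩

theorem Cy.inv {X : List Φ} (h : Cy A l T X) : Cy A l T (A.inv X) :=
  ⟨h.1.imp fun _ k => path_inv k, (dbl_inv X).nodup_iff.2 h.2.1,
    fun u hu => h.2.2 u ((dbl_inv X).mem_iff.1 hu)⟩

theorem uniq0 (hs : Sep l T) {y : Φ} (hy : y ∈ T) (D1 D2 : List Φ)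
    (h1 : ∀ u ∈ D1, A.c u ∈ T ∧ A.c u ∉ D1 ∧ u ∈ T) (h2 : ∀ u ∈ D2, A.c u ∉ D2 ∧ u ∈ T)
    (y1 : y ∈ D1) (y2 : y ∈ D2) : ∀ (Y1 Y2 : List Φ) (s : Φ), s ∈ D1 → s ∈ D2 → Y1 ⊆ D1 → Y2 ⊆ D2 →
    y ∉ Y1 → y ∉ Y2 → A.Path l (l (A.c s)) Y1 (l y) → A.Path l (l (A.c s)) Y2 (l y) → Y1 = Y2 := by
  intro Y1
  induction Y1 with
  | nil =>
    intro Y2 s s1 s2 _ m2 _ n2 p1 p2
    cases Y2 with
    | nil => rfl
    | cons v Y2 =>
      have hv := m2 List.mem_cons_self
      exact absurd (hs _ (h1 s s1).1 y hy v (h2 v hv).2 (Eq.symm p1) p2.1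
        (fun e => (h1 s s1).2.1 (e ▸ y1)) (fun e => (h2 s s2).1 (e ▸ hv)) ▸ List.mem_cons_self) n2
  | cons u Y1 ih =>
    intro Y2 s s1 s2 m1 m2 n1 n2 p1 p2
    have hu := m1 List.mem_cons_self
    cases Y2 with
    | nil =>
      exact absurd (hs _ (h1 s s1).1 y hy u (h1 u hu).2.2 (Eq.symm p2) p1.1
        (fun e => (h2 s s2).1 (e ▸ y2)) (fun e => (h1 s s1).2.1 (e ▸ hu)) ▸ List.mem_cons_self) n1
    | cons v Y2 =>
      have hv := m2 List.mem_cons_self
      obtain rfl := hs _ (h1 s s1).1 u (h1 u hu).2.2 v (h2 v hv).2 p1.1 p2.1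
        (fun e => (h1 s s1).2.1 (e ▸ hu)) (fun e => (h2 s s2).1 (e ▸ hv))
      rw [ih Y2 u hu hv (fun _ k => m1 (List.mem_cons_of_mem _ k))
        (fun _ k => m2 (List.mem_cons_of_mem _ k)) (fun k => n1 (List.mem_cons_of_mem _ k))
        (fun k => n2 (List.mem_cons_of_mem _ k)) p1.2 p2.2]

theorem c_not {X : List Φ} (h : (A.dbl X).Nodup) {u : Φ} (hu : u ∈ X) : A.c u ∉ X := fun k =>
  (List.nodup_append.1 h).2.2 _ k _ (List.mem_map_of_mem hu) rfl

theorem uniq (hs : Sep l T) {y : Φ} {Y1 Y2 : List Φ} (h1 : Cy A l T (y :: Y1))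
    (h2 : Cy A l T (y :: Y2)) : Y1 = Y2 := by
  obtain ⟨⟨_, rfl, p1⟩, n1, t1⟩ := h1
  obtain ⟨⟨_, rfl, p2⟩, n2, t2⟩ := h2
  exact uniq0 hs (t1 y (mem_dbl.2 (Or.inl List.mem_cons_self))) (y :: Y1) (y :: Y2)
    (fun u hu => ⟨t1 _ (mem_dbl.2 (Or.inr (by rwa [A.cc]))), c_not n1 hu,
      t1 u (mem_dbl.2 (Or.inl hu))⟩)
    (fun u hu => ⟨c_not n2 hu, t2 u (mem_dbl.2 (Or.inl hu))⟩) List.mem_cons_self
    List.mem_cons_self Y1 Y2 y List.mem_cons_self List.mem_cons_self (List.subset_cons_self _ _)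
    (List.subset_cons_self _ _) (List.nodup_cons.1 (List.nodup_append.1 n1).1).1
    (List.nodup_cons.1 (List.nodup_append.1 n2).1).1 p1 p2

/-- the terminals of the holes -/
def th (H : List (Φ × List Φ)) : List Φ := (H.map Prod.snd).flatten

theorem hm (hs : Sep l T) (R : List Φ) (o : Φ → Prop) (Ys : List (List Φ)) :
    ∀ (H : List (Φ × List Φ)) (Q : List Φ), (∀ Y ∈ Ys, Y ≠ [] ∧ Cy A l T Y) →
    (∀ h ∈ H, A.a h.1 ≠ h.1 ∧ h.2 ≠ [] ∧ Cy A l T h.2) →
    (A.dbl (th H)).Perm (A.dbl Ys.flatten) →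
    (Fl A Q ∨ ((∀ u ∈ th H, ¬ o (A.c u)) ∧ ∀ u ∈ Ys.flatten, o u)) →
    ∃ H1 : List (Φ × List Φ), H1.map Prod.snd = Ys ∧ (∀ h ∈ H1, A.a h.1 ≠ h.1) ∧
      E A (Q ++ (hw A H ++ R)) (Q ++ (hw A H1 ++ R)) := by
  induction Ys with
  | nil =>
    intro H Q _ hH p _
    cases H with
    | nil => exact ⟨[], rfl, by simp, E.refl _⟩
    | cons h H =>
      have := p.length_eq
      have := List.length_pos_iff.2 (hH h List.mem_cons_self).2.1
      simp only [Al.dbl, th, List.map_cons, List.flatten_cons, List.length_append, List.length_map,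
        List.flatten_nil, List.length_nil] at *
      omega
  | cons Y Ys ih =>
    intro H Q hY hH p f
    obtain ⟨y, Y0, rfl⟩ := List.exists_cons_of_ne_nil (hY Y List.mem_cons_self).1
    obtain ⟨h, hh, hy⟩ : ∃ h ∈ H, y ∈ h.2 ∨ A.c y ∈ h.2 := by
      have := mem_dbl.1 (p.mem_iff.2 (mem_dbl.2 (Or.inl (List.mem_cons_self (a := y)))))
      simp only [th, List.mem_flatten, List.mem_map] at this
      rcases this with ⟨_, ⟨h, hh, rfl⟩, k⟩ | ⟨_, ⟨h, hh, rfl⟩, k⟩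
      exacts [⟨h, hh, Or.inl k⟩, ⟨h, hh, Or.inr k⟩]
    obtain ⟨H1, H2, rfl⟩ := List.append_of_mem hh
    obtain ⟨a1, -, a3⟩ := hH h hh
    obtain ⟨x, Z, hx, hZ, cZ, pZ, eZ⟩ : ∃ x Z, A.a x ≠ x ∧ y ∈ Z ∧ Cy A l T Z ∧
        (A.dbl Z).Perm (A.dbl h.2) ∧ E A (Q ++ (hw A H1 ++ (hole A h.1 h.2 ++ (hw A H2 ++ R))))
          (Q ++ (hw A H1 ++ (hole A x Z ++ (hw A H2 ++ R)))) := by
      rcases hy with hy | hy
      · exact ⟨h.1, h.2, a1, hy, a3, List.Perm.refl _, E.refl _⟩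
      · rcases f with f | f
        · exact ⟨_, _, nt_a a1, mem_inv.2 hy, a3.inv, dbl_inv _, f _ _ _ _ a1⟩
        · have := f.1 (A.c y) (List.mem_flatten.2 ⟨h.2, List.mem_map_of_mem hh, hy⟩)
          rw [A.cc] at this
          exact absurd (f.2 y List.mem_cons_self) this
    obtain ⟨Z1, Z2, rfl⟩ := List.append_of_mem hZ
    obtain rfl : Z2 ++ Z1 = Y0 := uniq hs cZ.rot (hY _ List.mem_cons_self).2
    have sub : ∀ g ∈ H1 ++ H2, g ∈ H1 ++ h :: H2 := fun g hg => by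
      simp only [List.mem_append, List.mem_cons] at hg ⊢; tauto
    have p1 : (th (H1 ++ h :: H2)).Perm (h.2 ++ th (H1 ++ H2)) := by
      simp only [th, List.map_append, List.map_cons, List.flatten_append, List.flatten_cons]
      exact List.perm_append_comm_assoc _ _ _
    obtain ⟨K, k1, k2, k3⟩ := ih (H1 ++ H2) (Q ++ hole A x (y :: (Z2 ++ Z1)))
      (fun Y hY' => hY Y (List.mem_cons_of_mem _ hY')) (fun g hg => hH g (sub g hg))
      ((List.perm_append_left_iff _).1 (((dbl_append _ _).symm.trans ((dbl_perm p1).symm.trans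
        (p.trans (dbl_append (y :: (Z2 ++ Z1)) _)))).trans (List.Perm.append_right _
        ((dbl_perm (List.perm_append_comm (l₁ := y :: Z2) (l₂ := Z1))).trans pZ))))
      (f.imp (fun f => f.append _) fun f =>
        ⟨fun u hu => f.1 u (p1.mem_iff.2 (List.mem_append_right _ hu)),
          fun u hu => f.2 u (List.mem_append_right _ hu)⟩)
    refine ⟨(x, y :: (Z2 ++ Z1)) :: K, by simp [k1], List.forall_mem_cons.2 ⟨hx, k2⟩, ?_⟩
    have e1 := cen_hole hx (Z1 ++ y :: Z2) Q (hw A H1) (hw A H2 ++ R)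
    have e2 := u2b hx Q (hw A H1 ++ (hw A H2 ++ R)) Z1 (y :: Z2)
    exact (eZ.cast (by simp [hw_append, hw_cons]) rfl).trans (e1.trans
      ((e2.cast (by simp [hole]) (by simp [hole, hw_append])).trans
      (k3.cast rfl (by simp [hw_cons]))))

/-- the product of two alphabets -/
def prod (A : Al Φ) (A' : Al Ψ) : Al (Φ × Ψ) where
  a := fun u => (A.a u.1, A'.a u.2)
  c := fun u => (A.c u.1, A'.c u.2)
  aa := fun u => by simp [A.aa, A'.aa]
  cc := fun u => by simp [A.cc, A'.cc]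
  ac := fun u => by simp [A.ac, A'.ac]
  ne := fun u h => Prod.ext (A.ne _ (congrArg Prod.fst h)) (A'.ne _ (congrArg Prod.snd h))

/-- two words with the same pattern of letters -/
def Mt (A : Al Φ) (A' : Al Ψ) (τ : Ψ → Φ) (X : List Φ) (X' : List Ψ) : Prop :=
  ∃ M : List (Φ × Ψ), M.map Prod.fst = X ∧ M.map Prod.snd = X' ∧
    ∀ u ∈ M, (prod A A').a u ∈ (prod A A').dbl M ∧ (A.a u.1 = u.1 → τ u.2 = u.1)

variable {τ : Ψ → Φ}

theorem Mt.append {X Y : List Φ} {X' Y' : List Ψ} (h : Mt A A' τ X X') (k : Mt A A' τ Y Y') :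
    Mt A A' τ (X ++ Y) (X' ++ Y') := by
  obtain ⟨M, rfl, rfl, h⟩ := h
  obtain ⟨N, rfl, rfl, k⟩ := k
  refine ⟨M ++ N, by simp, by simp, fun u hu => ?_⟩
  rw [(dbl_append M N).mem_iff, List.mem_append]
  rcases List.mem_append.1 hu with hu | hu
  exacts [⟨Or.inl (h u hu).1, (h u hu).2⟩, ⟨Or.inr (k u hu).1, (k u hu).2⟩]

theorem mt_nil : Mt A A' τ [] [] := ⟨[], rfl, rfl, by simp⟩

theorem mt_term {X' : List Ψ} (h : ∀ u ∈ X', A'.a u = u ∧ A.a (τ u) = τ u) :
    Mt A A' τ (X'.map τ) X' := by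
  refine ⟨X'.map fun u => (τ u, u), by simp, by simp [comp_def], fun u hu => ?_⟩
  obtain ⟨v, hv, rfl⟩ := List.mem_map.1 hu
  exact ⟨mem_dbl.2 (Or.inl (by simpa [prod, h v hv] using hv)), fun _ => rfl⟩

theorem mt_caps {Q : List Φ} (h : Caps A Q) : ∀ {Q' : List Ψ}, Caps A' Q' → Q.length = Q'.length →
    Mt A A' τ Q Q' := by
  induction h with
  | nil => intro Q' _ e; rw [List.length_eq_zero_iff.1 e.symm]; exact mt_nil
  | cons x Q hx _ ih =>
    intro Q' h' e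
    cases h' with
    | nil => simp at e
    | cons x' Q' hx' h' =>
      refine Mt.append (X := [x, A.a x]) (X' := [x', A'.a x'])
        ⟨[(x, x'), (A.a x, A'.a x')], rfl, rfl, ?_⟩ (ih h' (by simpa using e))
      simp [mem_dbl, prod, A.aa, A'.aa, hx, hx.symm]

theorem mt_hans {Q : List Φ} (h : Hans A Q) : ∀ {Q' : List Ψ}, Hans A' Q' → Q.length = Q'.length →
    Mt A A' τ Q Q' := by
  induction h with
  | nil => intro Q' _ e; rw [List.length_eq_zero_iff.1 e.symm]; exact mt_nil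
  | cons x y Q hx hy _ ih =>
    intro Q' h' e
    cases h' with
    | nil => simp at e
    | cons x' y' Q' hx' hy' h' =>
      refine Mt.append (X := [x, y, pr A x, pr A y]) (X' := [x', y', pr A' x', pr A' y'])
        ⟨[(x, x'), (y, y'), (pr A x, pr A' x'), (pr A y, pr A' y')], rfl, rfl, ?_⟩
        (ih h' (by simpa using e))
      have h1 := nt_pr hx
      have h2 := nt_pr hy
      simp only [List.forall_mem_cons, hx, hy, h1, h2, false_imp_iff, and_true]
      simp [mem_dbl, prod, A.aa, A'.aa, A.ac, A'.ac, A.cc, A'.cc, pr]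

theorem mt_hw (H' : List (Ψ × List Ψ)) : ∀ H : List (Φ × List Φ),
    H.map Prod.snd = H'.map (fun h => h.2.map τ) → (∀ h ∈ H, A.a h.1 ≠ h.1) →
    (∀ h ∈ H', ∀ u ∈ h.2, A'.a u = u ∧ A.a (τ u) = τ u) → Mt A A' τ (hw A H) (hw A' H') := by
  induction H' with
  | nil => intro H e _ _; rw [List.map_eq_nil_iff.1 e]; exact mt_nil
  | cons h' H' ih =>
    intro H e h1 h2
    cases H with
    | nil => simp at e
    | cons h H =>
      simp only [List.map_cons, List.cons.injEq] at e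
      rw [hw_cons, hw_cons]
      refine Mt.append ?_ (ih H e.2 (fun g hg => h1 g (List.mem_cons_of_mem _ hg))
        fun g hg => h2 g (List.mem_cons_of_mem _ hg))
      obtain ⟨M, m1, m2, m3⟩ := mt_term (A := A) (h2 h' List.mem_cons_self)
      have hx := h1 h List.mem_cons_self
      refine ⟨(h.1, h'.1) :: (M ++ [(pr A h.1, pr A' h'.1)]), by simp [hole, m1, e.1],
        by simp [hole, m2], fun u hu => ?_⟩
      simp only [List.mem_cons, List.mem_append, List.not_mem_nil, or_false] at hu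
      rcases hu with rfl | hu | rfl
      · exact ⟨by simp [mem_dbl, prod, pr], fun k => absurd k hx⟩
      · refine ⟨?_, (m3 u hu).2⟩
        have := (m3 u hu).1
        simp only [mem_dbl, List.mem_cons, List.mem_append] at this ⊢
        tauto
      · exact ⟨by simp [mem_dbl, prod, a_pr, A.cc, A'.cc], fun k => absurd k (nt_pr hx)⟩

theorem Mt.len {X : List Φ} {X' : List Ψ} (h : Mt A A' τ X X') : X.length = X'.length := by
  obtain ⟨M, rfl, rfl, -⟩ := h
  simp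

theorem fe_congr {B : ℕ → Prop} {L : List Φ} {π π1 : Φ → Φ → Prop}
    (h : ∀ s ∈ A.tm L, ∀ t ∈ A.tm L, π s t ↔ π1 s t) (k : A.Fe B L π) : A.Fe B L π1 :=
  k.imp fun _ k => ⟨k.1, k.2.1, fun s hs t ht => (h s hs t ht).symm.trans (k.2.2 s hs t ht)⟩

theorem Mt.fe (hN : RenWS) {X : List Φ} {X' : List Ψ} (h : Mt A A' τ X X') (w : A.WF X)
    (w' : A'.WF X') (hc : ∀ t ∈ A'.tm X', τ (A'.c t) = A.c (τ t)) {B : ℕ → Prop}
    {π : Φ → Φ → Prop} (k : A'.Fe B X' fun s t => π (τ s) (τ t)) : A.Fe B X π := by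
  obtain ⟨M, rfl, rfl, h⟩ := h
  have e1 : A.dbl (M.map Prod.fst) = ((prod A A').dbl M).map Prod.fst := by
    simp [Al.dbl, prod, comp_def]
  have e2 : A'.dbl (M.map Prod.snd) = ((prod A A').dbl M).map Prod.snd := by
    simp [Al.dbl, prod, comp_def]
  have wM : (prod A A').WF M := ⟨List.Nodup.of_map _ (e1 ▸ w.1), fun u hu => by
    rcases mem_dbl.1 hu with hu | hu
    · exact (h u hu).1
    · have := (h _ hu).1
      rw [Al.ac, mem_dbl, Al.cc] at this
      exact mem_dbl.2 this.symm⟩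
  have key : ∀ s ∈ (prod A A').tm M, τ s.2 = s.1 := fun s hs => by
    have t1 : A.a s.1 = s.1 := congrArg Prod.fst hs.2
    have t2 : A'.a s.2 = s.2 := congrArg Prod.snd hs.2
    rcases mem_dbl.1 hs.1 with hu | hu
    · exact (h s hu).2 t1
    · have := (h _ hu).2 (t_c t1)
      exact c_inj ((hc s.2 ⟨e2 ▸ List.mem_map_of_mem hs.1, t2⟩).symm.trans this)
  refine (hN _ _ A (prod A A') Prod.fst M B π wM
    (fun u hu v hv => List.inj_on_of_nodup_map (e1 ▸ w.1) hu hv) fun _ _ => ⟨rfl, rfl⟩).2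
    (fe_congr (fun s hs t ht => ?_) ((hN _ _ A' (prod A A') Prod.snd M B _ wM
    (fun u hu v hv => List.inj_on_of_nodup_map (e2 ▸ w'.1) hu hv) fun _ _ => ⟨rfl, rfl⟩).1 k))
  rw [key s hs, key t ht]

end Pool.Agent.MP_9d78a0_co.gm.Wf

end MrgPart3

-- ======== part 4: formerly Pool.Agent.MP_9d78a0_co.gm.RWordI
section MrgPart4

/-! Words with the same invariants have the same drawings. -/

set_option autoImplicit false

namespace Pool.Agent.MP_9d78a0_co.gm

open Set Function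

namespace Wf

variable {Φ Ψ Λ Λ' : Type} {A : Al Φ} {A' : Al Ψ} {l : Φ → Λ}

theorem nodup_sub {X Y : List Φ} (h : X.Sublist Y) (n : (A.dbl Y).Nodup) : (A.dbl X).Nodup :=
  n.sublist (h.append (h.map _))

theorem th_sub (H : List (Φ × List Φ)) : (th H).Sublist (hw A H) := by
  induction H with
  | nil => exact List.Sublist.refl _
  | cons h H ih =>
    rw [hw_cons]
    exact List.Sublist.append ((List.sublist_append_left _ _).cons _) ih

theorem mem_th {H : List (Φ × List Φ)} {u : Φ} : u ∈ th H ↔ ∃ h ∈ H, u ∈ h.2 := by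
  simp only [th, List.mem_flatten, List.mem_map]
  exact ⟨fun ⟨_, ⟨h, hh, e⟩, k⟩ => ⟨h, hh, e ▸ k⟩, fun ⟨h, hh, k⟩ => ⟨_, ⟨h, hh, rfl⟩, k⟩⟩

theorem Caps.nt {Q : List Φ} (h : Caps A Q) : ∀ u ∈ Q, A.a u ≠ u := by
  induction h with
  | nil => simp
  | cons x Q hx _ ih =>
    exact List.forall_mem_cons.2 ⟨hx, List.forall_mem_cons.2 ⟨nt_a hx, ih⟩⟩

theorem Hans.nt {Q : List Φ} (h : Hans A Q) : ∀ u ∈ Q, A.a u ≠ u := by
  induction h with
  | nil => simp
  | cons x y Q hx hy _ ih =>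
    exact List.forall_mem_cons.2 ⟨hx, List.forall_mem_cons.2 ⟨hy, List.forall_mem_cons.2
      ⟨nt_pr hx, List.forall_mem_cons.2 ⟨nt_pr hy, ih⟩⟩⟩⟩

/-- the terminals of a normal form -/
theorem Sh.term {z : Φ} {Q Y : List Φ} {H : List (Φ × List Φ)} (s : Sh A z Q H Y)
    (w : A.WF (z :: (Q ++ (hw A H ++ Y)))) :
    (A.dbl (z :: (th H ++ Y))).Nodup ∧
    (∀ u ∈ z :: (th H ++ Y), u ∈ z :: (Q ++ (hw A H ++ Y)) ∧ A.a u = u) ∧
    ∀ u, u ∈ A.dbl (z :: (th H ++ Y)) ↔ u ∈ A.tm (z :: (Q ++ (hw A H ++ Y))) := by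
  have sb : (z :: (th H ++ Y)).Sublist (z :: (Q ++ (hw A H ++ Y))) :=
    (((th_sub H).append_right Y).trans (List.sublist_append_right _ _)).cons_cons z
  have key : ∀ u, u ∈ z :: (th H ++ Y) ↔ u ∈ z :: (Q ++ (hw A H ++ Y)) ∧ A.a u = u := by
    intro u
    refine ⟨fun hu => ⟨sb.subset hu, ?_⟩, fun ⟨hu, t⟩ => ?_⟩
    · simp only [List.mem_cons, List.mem_append, mem_th] at hu
      rcases hu with rfl | ⟨h, hh, hu⟩ | hu
      exacts [s.z, (s.h h hh).2.2 u hu, s.y u hu]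
    · simp only [List.mem_cons, List.mem_append, mem_th, mem_hw] at hu ⊢
      rcases hu with rfl | hu | ⟨h, hh, rfl | hu | rfl⟩ | hu
      · exact Or.inl rfl
      · exact absurd t (s.q.elim (fun k => k.1.nt u hu) fun k => k.nt u hu)
      · exact absurd t (s.h h hh).1
      · exact Or.inr (Or.inl ⟨h, hh, hu⟩)
      · exact absurd t (nt_pr (s.h h hh).1)
      · exact Or.inr (Or.inr hu)
  refine ⟨nodup_sub sb w.1, fun u hu => (key u).1 hu, fun u => ?_⟩
  rw [mem_dbl, key, key]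
  refine ⟨fun h => h.elim (fun k => tm_of k.1 k.2) fun k => A.cc u ▸ tm_c (tm_of k.1 k.2),
    fun h => (mem_dbl.1 h.1).imp (fun k => ⟨k, h.2⟩) fun k => ⟨k, t_c h.2⟩⟩

theorem core (hR : RotWS) (hS : SlideS) (hD : DelWS) (hN : RenWS) {L : List Φ} {L' : List Ψ}
    {τ : Ψ → Φ} {l' : Ψ → Λ'} {π : Φ → Φ → Prop} (w : A.WF L) (w' : A'.WF L')
    (hb : BijOn τ (A'.tm L') (A.tm L)) (hc : ∀ t ∈ A'.tm L', τ (A'.c t) = A.c (τ t))
    (hl : A.Lab L l) (hl' : A'.Lab L' l') (hs : Sep l (A.tm L))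
    (hll : ∀ s ∈ A'.tm L', ∀ t ∈ A'.tm L', l' s = l' t → l (τ s) = l (τ t))
    (hB : ∀ m, A.Big L m ↔ A'.Big L' m) {z' : Ψ} (z1 : z' ∈ L') (z2 : A'.a z' = z')
    (z3 : τ z' ∈ L) (ho : (¬ A.Ori L ∧ ¬ A'.Ori L') ∨
      (A.Ori L ∧ A'.Ori L' ∧ ∀ t ∈ L', A'.a t = t → τ t ∈ L))
    (k : A'.Fe (fun _ => True) L' fun s t => π (τ s) (τ t)) : A.Fe (fun _ => True) L π := by
  have zt := tm_of z1 z2
  obtain ⟨Q, H, Y, s, e⟩ := nfs hR hS hD w z3 (hb.mapsTo zt).2
  obtain ⟨Q', H', Y', s', e'⟩ := nfs hR hS hD w' z1 z2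
  obtain ⟨l1, a1, a2⟩ := e.lab _ l hl
  obtain ⟨l1', a1', a2'⟩ := e'.lab _ l' hl'
  obtain ⟨-, b1, b2⟩ := s.lab a1
  obtain ⟨-, b1', b2'⟩ := s'.lab a1'
  obtain ⟨n, t0, t1⟩ := s.term e.wf
  obtain ⟨n', t0', t1'⟩ := s'.term e'.wf
  rw [e.tm] at t1
  rw [e'.tm] at t1'
  have dm : ∀ X : List Ψ, (∀ u ∈ X, u ∈ A'.tm L') → A.dbl (X.map τ) = (A'.dbl X).map τ := by
    intro X hX
    simp only [Al.dbl, List.map_append, List.map_map]
    exact congrArg _ (List.map_congr_left fun u hu => (hc u (hX u hu)).symm)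
  have cy : ∀ X : List Φ, X.Sublist (τ z' :: (th H ++ Y)) → (∃ p, A.Path l1 p X p) →
      Cy A l (A.tm L) X := fun X sb ⟨p, hp⟩ =>
    ⟨⟨p, path_congr (fun u hu => ⟨a2 u (t0 u (sb.subset hu)).2,
      a2 _ (t_c (t0 u (sb.subset hu)).2)⟩) hp⟩, nodup_sub sb n,
      fun u hu => (t1 u).1 ((sb.append (sb.map _)).subset hu)⟩
  have tm' : ∀ u ∈ z' :: (th H' ++ Y'), u ∈ A'.tm L' := fun u hu =>
    (t1' u).1 (mem_dbl.2 (Or.inl hu))
  have cy' : ∀ X : List Ψ, X.Sublist (z' :: (th H' ++ Y')) → X ≠ [] → (∃ p, A'.Path l1' p X p) →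
      Cy A l (A.tm L) (X.map τ) := by
    intro X sb hX ⟨p, hp⟩
    have hT := fun u hu => tm' u (sb.subset hu)
    have hT2 : ∀ u ∈ A'.dbl X, u ∈ A'.tm L' := fun u hu =>
      (t1' u).1 ((sb.append (sb.map _)).subset hu)
    have hp1 : A'.Path l' p X p := path_congr (fun u hu => ⟨a2' u (hT u hu).2,
      a2' _ (t_c (hT u hu).2)⟩) hp
    obtain ⟨y, X0, rfl⟩ := List.exists_cons_of_ne_nil hX
    obtain rfl : l' y = p := hp1.1
    have hy := hT y List.mem_cons_self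
    refine ⟨⟨_, path_map hc hll hy (fun u hu => ⟨hT u hu, tm_c (hT u hu)⟩) y hy hp1⟩, ?_, ?_⟩
    · rw [dm _ hT]
      exact List.Nodup.map_on (fun x hx y hy => hb.injOn (hT2 x hx) (hT2 y hy)) (nodup_sub sb n')
    · rw [dm _ hT]
      intro u hu
      obtain ⟨v, hv, rfl⟩ := List.mem_map.1 hu
      exact hb.mapsTo (hT2 v hv)
  obtain rfl : Y = Y'.map τ :=
    uniq hs (cy (τ z' :: Y) ((List.sublist_append_right _ _).cons_cons _) ⟨_, rfl, b2⟩)
      (cy' (z' :: Y') ((List.sublist_append_right _ _).cons_cons _) (by simp) ⟨_, rfl, b2'⟩)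
  have fl : (H'.map fun h => h.2.map τ).flatten = (th H').map τ := by
    simp [th, List.map_flatten, comp_def]
  have pm : (A.dbl (th H)).Perm (A.dbl ((th H').map τ)) := by
    have p0 : (A.dbl (τ z' :: (th H ++ Y'.map τ))).Perm (A.dbl ((z' :: (th H' ++ Y')).map τ)) := by
      rw [dm _ tm']
      refine (List.perm_ext_iff_of_nodup n (List.Nodup.map_on
        (fun x hx y hy => hb.injOn ((t1' x).1 hx) ((t1' y).1 hy)) n')).2 fun u => ?_
      rw [t1, List.mem_map, ← hb.image_eq]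
      exact exists_congr fun v => and_congr_left' (t1' v).symm
    rw [List.map_cons, List.map_append] at p0
    have p1 := (List.perm_append_left_iff _).1
      ((dbl_append [τ z'] _).symm.trans (p0.trans (dbl_append [τ z'] _)))
    exact (List.perm_append_right_iff _).1
      ((dbl_append _ _).symm.trans (p1.trans (dbl_append _ _)))
  have sbh : ∀ {Ξ : Type} (K : List (Ξ × List Ξ)) (z : Ξ) (X : List Ξ), ∀ h ∈ K,
      h.2.Sublist (z :: (th K ++ X)) := fun K z X h hh =>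
    ((List.sublist_flatten_of_mem (List.mem_map_of_mem hh)).trans
      (List.sublist_append_left _ _)).cons _
  obtain ⟨H1, c1, c2, c3⟩ := hm hs (Y'.map τ) (fun u => u ∈ L) (H'.map fun h => h.2.map τ) H
    (τ z' :: Q)
    (by
      intro X hX
      obtain ⟨h, hh, rfl⟩ := List.mem_map.1 hX
      exact ⟨by simpa using (s'.h h hh).2.1,
        cy' _ (sbh H' z' Y' h hh) (s'.h h hh).2.1 ⟨_, (b1' h hh).2⟩⟩)
    (fun h hh => ⟨(s.h h hh).1, (s.h h hh).2.1, cy _ (sbh H _ _ h hh) ⟨_, (b1 h hh).2⟩⟩)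
    (fl ▸ pm) (by
      rcases ho with ho | ho
      · obtain ⟨h, k⟩ := (s.ori e.wf).2 fun o => ho.1 (e.ori.2 o)
        cases h with
        | nil => exact absurd rfl k
        | cons x Q hx _ => exact Or.inl ((fl_cap hx [τ z']).append Q)
      · refine Or.inr ⟨fun u hu => ?_, fun u hu => ?_⟩
        · have := t0 u (List.mem_cons_of_mem _ (List.mem_append_left _ hu))
          exact c_not w.1 (e.sgn ho.1 u this.1 this.2)
        · rw [fl] at hu
          obtain ⟨v, hv, rfl⟩ := List.mem_map.1 hu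
          have := t0' v (List.mem_cons_of_mem _ (List.mem_append_left _ hv))
          exact ho.2.2 v (e'.sgn ho.2.1 v this.1 this.2) this.2)
  have e1 := sim_trans e (hS _ A _ _ e.wf c3)
  have tt : ∀ u ∈ z' :: (th H' ++ Y'), A'.a u = u ∧ A.a (τ u) = τ u := fun u hu =>
    ⟨(tm' u hu).2, (hb.mapsTo (tm' u hu)).2⟩
  have m1 : Mt A A' τ (hw A H1 ++ Y'.map τ) (hw A' H' ++ Y') :=
    (mt_hw H' H1 c1 c2 fun h hh u hu => tt u ((sbh H' z' Y' h hh).subset hu)).append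
      (mt_term fun u hu => tt u (List.mem_cons_of_mem _ (List.mem_append_right _ hu)))
  have len : Q.length = Q'.length := by
    have g := fun m => ((s.big m).symm.trans (e.big m).symm).trans
      ((hB m).trans ((e'.big m).trans (s'.big m)))
    have g1 := (g _).1 (neg_add_cancel _).le
    have g2 := (g _).2 (neg_add_cancel _).le
    have g3 := c3.len
    have g4 := m1.len
    simp only [List.length_cons, List.length_append] at g1 g2 g3 g4
    omega
  have m2 : Mt A A' τ Q Q' := by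
    rcases ho with ho | ho
    · exact mt_caps ((s.ori e.wf).2 fun o => ho.1 (e.ori.2 o)).1
        ((s'.ori e'.wf).2 fun o => ho.2 (e'.ori.2 o)).1 len
    · exact mt_hans ((s.ori e.wf).1 (e.ori.1 ho.1)) ((s'.ori e'.wf).1 (e'.ori.1 ho.2.1)) len
  have m3 := (mt_term (X' := [z']) fun u hu => tt u (by simp [List.mem_singleton.1 hu])).append
    (m2.append m1)
  exact (e1.fe π).2 (m3.fe hN e1.wf e'.wf (e'.tm ▸ hc) ((e'.fe _).1 k))

end Wf

open Wf in
theorem wordS (hR : RotWS) (hS : SlideS) (hD : DelWS) (hN : RenWS) : WordS := by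
  intro Φ Ψ Λ Λ' A A' L L' τ l l' π w w' hb hc hl hl' hs hll hB hne ho k
  obtain ⟨z', z1, z2⟩ : ∃ z' ∈ L', A'.a z' = z' := by
    obtain ⟨t, ht⟩ := hne
    rcases mem_dbl.1 ht.1 with h | h
    exacts [⟨t, h, ht.2⟩, ⟨_, h, t_c ht.2⟩]
  by_cases z3 : τ z' ∈ L
  · exact core hR hS hD hN w w' hb hc hl hl' hs hll hB z1 z2 z3
      (ho.imp_right fun o => ⟨o.1, o.2.1, o.2.2.resolve_right fun h => h z' z1 z2 z3⟩) k
  · obtain ⟨i1, i2, i3, i4, i5, i6⟩ := (hR Φ A).2 L w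
    have mi : ∀ t ∈ L', A'.a t = t → τ t ∉ L → τ t ∈ A.inv L := fun t h1 h2 h3 =>
      mem_inv.2 ((mem_dbl.1 (hb.mapsTo (tm_of h1 h2)).1).resolve_left h3)
    refine (i2 _ π).2 (core hR hS hD hN i1 w' (i5.symm ▸ hb) hc ((i4 _ l).1 hl) hl'
      (i5.symm ▸ hs) hll (fun m => (i3 m).symm.trans (hB m)) z1 z2 (mi z' z1 z2 z3)
      (ho.imp (fun o => ⟨fun h => o.1 (i6.2 h), o.2⟩) fun o => ⟨i6.1 o.1, o.2.1, fun t h1 h2 =>
        mi t h1 h2 ((o.2.2.resolve_left fun h => z3 (h z' z1 z2)) t h1 h2)⟩) k)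

end Pool.Agent.MP_9d78a0_co.gm

end MrgPart4

-- marker of a merged file
example : 731051 + 8516 = 731051 + 8516 := rfl
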