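import Pool.Agent.MP_9d78a0_co.gm.RWordC
import Pool.Agent.MP_9d78a0_co.gm.HShA
import Pool.Agent.MP_9d78a0_co.gm.SpecM
import Pool.Agent.MP_9d78a0_co.gm.CSame
import Pool.Agent.MP_9d78a0_co.gm.CExt
import Pool.Agent.MP_9d78a0_co.gm.BGrid
import Pool.Agent.MP_9d78a0_co.gm.RNew
import Pool.Agent.MP_9d78a0_co.gm.RNewC
import Pool.Agent.MP_9d78a0_co.gm.RTg2
import Pool.Agent.MP_9d78a0_co.gm.RWordF
import Pool.Agent.MP_9d78a0_co.gm.HAbsM3
import Pool.Agent.MP_9d78a0_co.gm.OpRim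
import Pool.Agent.MP_9d78a0_co.gm.RWordI

-- ======== part 0: formerly Pool.Agent.MP_9d78a0_co.gm.RAlt
section MrgPart0

/-! Routing, row ALT: many odd ears or many odd cycles on stems. -/

set_option autoImplicit false

namespace Pool.Agent.MP_9d78a0_co.gm

open Set Function

namespace RAlt

variable {Φ V : Type}

theorem chain {G : SimpleGraph V} {g : ℕ} {S : Set V} (C : Fin g → Set V) (hS : ∀ k, C k ⊆ S)
    (hc : ∀ k, Conn G (C k))
    (ht : ∀ k k' : Fin g, (k : ℕ) + 1 = k' → ∃ u ∈ C k, ∃ v ∈ C k', G.Adj u v) {k k' : Fin g}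
    {u v : V} (hu : u ∈ C k) (hv : v ∈ C k') : Link G S u v := by
  have h0 : 0 < g := k.pos
  obtain ⟨z, hz⟩ := (hc ⟨0, h0⟩).1
  have key : ∀ (n : ℕ) (h : n < g), ∀ v ∈ C ⟨n, h⟩, Link G S z v := by
    intro n
    induction n with
    | zero => exact fun h v hv => ((hc _).2 z hz v hv).mono (hS _)
    | succ n ih =>
      intro h v hv
      obtain ⟨x, hx, y, hy, e⟩ := ht ⟨n, by omega⟩ ⟨n + 1, h⟩ rfl
      exact ((ih _ x hx).trans (Link.single (hS _ hx) (hS _ hy) e)).trans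
        (((hc _).2 y hy v hv).mono (hS _))
  exact (key _ k.2 u hu).symm.trans (key _ k'.2 v hv)

/-- two crosses are joined inside every set that contains them -/
theorem cross_link {G : SimpleGraph V} {g : ℕ} {T S : Set V} {B : Fin g × Fin g → Set V}
    (hB : Model (fb.grid g) G T B) {i j i' j' : Fin g} (h1 : Cross B i j ⊆ S)
    (h2 : Cross B i' j' ⊆ S) {u v : V} (hu : u ∈ Cross B i j) (hv : v ∈ Cross B i' j') :
    Link G S u v := by
  have one : ∀ (i j k : Fin g), Cross B i j ⊆ S → ∀ u ∈ Cross B i j,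
      (∀ z ∈ B (i, k), Link G S u z) ∧ ∀ z ∈ B (k, j), Link G S u z := by
    intro i j k h u hu
    have r : ∀ {k k' : Fin g} {x y : V}, x ∈ B (i, k) → y ∈ B (i, k') → Link G S x y :=
      fun hx hy => chain (fun k => B (i, k))
        (fun k x hx => h (mem_iUnion.2 ⟨k, Or.inl hx⟩)) (fun k => hB.2.1 _)
        (fun k k' e => hB.2.2.2 _ _ (Or.inl ⟨rfl, Or.inl e⟩)) hx hy
    have c : ∀ {k k' : Fin g} {x y : V}, x ∈ B (k, j) → y ∈ B (k', j) → Link G S x y :=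
      fun hx hy => chain (fun k => B (k, j))
        (fun k x hx => h (mem_iUnion.2 ⟨k, Or.inr hx⟩)) (fun k => hB.2.1 _)
        (fun k k' e => hB.2.2.2 _ _ (Or.inr ⟨rfl, Or.inl e⟩)) hx hy
    obtain ⟨w, hw⟩ := (hB.2.1 (i, j)).1
    obtain ⟨k0, hk | hk⟩ := mem_iUnion.1 hu
    · exact ⟨fun z hz => r hk hz, fun z hz => (r hk hw).trans (c hw hz)⟩
    · exact ⟨fun z hz => (c hk hw).trans (r hw hz), fun z hz => c hk hz⟩
  obtain ⟨z, hz⟩ := (hB.2.1 (i, j')).1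
  exact ((one i j j' h1 u hu).1 z hz).trans ((one i' j' i h2 v hv).2 z hz).symm

theorem tele (p : ℕ → ZMod 2) (s t : ℕ) (h : s ≤ t) :
    ∑ j ∈ Finset.Ico s t, (p j + p (j + 1)) = p s + p t := by
  induction t, h using Nat.le_induction with
  | base => simp [CharTwo.add_self_eq_zero]
  | succ t h ih =>
    rw [Finset.sum_Ico_succ_top h, ih]
    generalize p s = x, p t = y, p (t + 1) = z
    revert x y z
    decide

variable {M : FM Φ} {vx : Φ → V} {H : Set V}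

theorem dart (hM : M.Ok) {u v : V} (h : (M.gph vx).Adj u v) :
    ∃ f ∈ M.S, vx f = u ∧ vx (M.a f) = v := by
  obtain ⟨-, f, hf, k | k⟩ := h
  · exact ⟨f, hf, k⟩
  · exact ⟨M.a f, (hM.ia f hf).1, k.2, by rw [(hM.ia f hf).2.1]; exact k.1⟩

/-- the parity as a function of the two ends -/
theorem exists_be (hm : M.Hm vx H) {β : Φ → ZMod 2} (hβ : M.Ech β) (ψ : V → ZMod 2) :
    ∃ be : V → V → ZMod 2, (∀ u v, be u v = be v u) ∧ ∀ f ∈ M.S, vx f ∉ H → vx (M.a f) ∉ H →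
      β f = be (vx f) (vx (M.a f)) + (ψ (vx f) + ψ (vx (M.a f))) := by
  classical
  have sy : ∀ u v, (∃ f ∈ M.S, vx f = u ∧ vx (M.a f) = v ∧ β f + (ψ u + ψ v) = 1) →
      ∃ f ∈ M.S, vx f = v ∧ vx (M.a f) = u ∧ β f + (ψ v + ψ u) = 1 := by
    rintro u v ⟨f, hf, h1, h2, h3⟩
    exact ⟨M.a f, (hm.ok.ia f hf).1, h2, by rw [(hm.ok.ia f hf).2.1]; exact h1,
      by rw [(hβ f hf).1, add_comm (ψ v)]; exact h3⟩
  refine ⟨fun u v => if ∃ f ∈ M.S, vx f = u ∧ vx (M.a f) = v ∧ β f + (ψ u + ψ v) = 1 then 1 else 0,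
    fun u v => if_congr ⟨sy u v, sy v u⟩ rfl rfl, fun f hf h1 h2 => ?_⟩
  have z2 : ∀ x y : ZMod 2, (x + y = 1 → x = 1 + y) ∧ (x + y ≠ 1 → x = 0 + y) := by decide
  dsimp only
  split_ifs with c
  · obtain ⟨g, hg, e1, e2, e3⟩ := c
    refine (z2 _ _).1 ?_
    rcases (hm.simple f hf).2 g hg h1 h2 e1 e2 with rfl | rfl
    · exact e3
    · rwa [(hβ f hf).2] at e3
  · exact (z2 _ _).2 fun e => c ⟨f, hf, rfl, rfl, e⟩

/-- a path with one more edge at each end is an ear -/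
theorem mk (hm : M.Hm vx H) {β : Φ → ZMod 2} {ψ : V → ZMod 2} {be : V → V → ZMod 2}
    (hb : ∀ f ∈ M.S, vx f ∉ H → vx (M.a f) ∉ H →
      β f = be (vx f) (vx (M.a f)) + (ψ (vx f) + ψ (vx (M.a f))))
    {D D' : Set V} (hD : D' ⊆ D) (hH : ∀ v ∈ D, v ∉ H) {f : ℕ → V} {l : ℕ} {y x : V}
    (hp : fb.IsPath (M.gph vx) D' f l) (hy : y ∉ H) (hx : x ∉ H)
    (h0 : (M.gph vx).Adj y (f 0)) (h1 : (M.gph vx).Adj (f l) x) :
    ∃ e : ℕ → Φ, M.Ear vx D e (l + 1) ∧ earV vx e (l + 1) ⊆ f '' Iic l ∧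
      (∀ j ≤ l, vx (e (j + 1)) = f j) ∧ vx (e 0) = y ∧ vx (M.a (e (l + 1))) = x ∧
      β (e 0) = be y (f 0) + (ψ y + ψ (f 0)) ∧
      ∀ s ≤ l, ∑ j ∈ Finset.Icc (s + 1) (l + 1), β (e j) =
        par be f s l + be (f l) x + (ψ (f s) + ψ x) := by
  obtain ⟨w, w0, w1, w2⟩ : ∃ w : ℕ → V, w 0 = y ∧ (∀ j ≤ l, w (j + 1) = f j) ∧ w (l + 2) = x :=
    ⟨fun j => if j = 0 then y else if j ≤ l + 1 then f (j - 1) else x, by simp,
      fun j hj => by simp [hj], by simp⟩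
  have wH : ∀ j ≤ l + 2, w j ∉ H := by
    intro j hj
    rcases j with _ | j
    · rwa [w0]
    · by_cases c : j ≤ l
      · rw [w1 j c]; exact hH _ (hD (hp.1 j c))
      · obtain rfl : j = l + 1 := by omega
        rwa [w2]
  have wa : ∀ j, ∃ e : Φ, j ≤ l + 1 → e ∈ M.S ∧ vx e = w j ∧ vx (M.a e) = w (j + 1) := by
    intro j
    obtain ⟨e0, he0⟩ := dart hm.ok h0
    by_cases hj : j ≤ l + 1
    · have : (M.gph vx).Adj (w j) (w (j + 1)) := by
        rcases j with _ | j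
        · rw [w0, w1 0 (by omega)]; exact h0
        · by_cases c : j < l
          · rw [w1 j c.le, w1 (j + 1) c]; exact hp.2.1 j c
          · obtain rfl : j = l := by omega
            rw [w1 j le_rfl, w2]; exact h1
      obtain ⟨e, he⟩ := dart hm.ok this
      exact ⟨e, fun _ => he⟩
    · exact ⟨e0, fun h => absurd h hj⟩
  choose e he using wa
  have ev : ∀ j ≤ l, vx (e (j + 1)) = f j := fun j hj => by
    rw [(he _ (by omega)).2.1, w1 j hj]
  have eb : ∀ j ≤ l + 1, β (e j) = be (w j) (w (j + 1)) + (ψ (w j) + ψ (w (j + 1))) := by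
    intro j hj
    obtain ⟨a1, a2, a3⟩ := he j hj
    rw [← a2, ← a3]
    exact hb _ a1 (a2 ▸ wH j (by omega)) (a3 ▸ wH (j + 1) (by omega))
  refine ⟨e, ⟨by omega, fun j hj => (he j hj).1, fun j hj => ?_, fun j h1 h2 => ?_,
    fun i a1 a2 j b1 b2 c => ?_⟩, ?_, ev, by rw [(he 0 (by omega)).2.1, w0],
    by rw [(he _ le_rfl).2.2, w2], by rw [eb 0 (by omega), w0, w1 0 (by omega)], fun s hs => ?_⟩
  · rw [(he j hj.le).2.2, (he (j + 1) hj).2.1]
  · obtain ⟨j, rfl⟩ : ∃ k, j = k + 1 := ⟨j - 1, by omega⟩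
    rw [ev j (by omega)]
    exact hD (hp.1 j (by omega))
  · obtain ⟨j, rfl⟩ : ∃ k, j = k + 1 := ⟨j - 1, by omega⟩
    obtain ⟨i, rfl⟩ : ∃ k, i = k + 1 := ⟨i - 1, by omega⟩
    rw [ev j (by omega), ev i (by omega)] at c
    rw [hp.2.2 i (by omega) j (by omega) c]
  · rintro _ ⟨j, ⟨h1, h2⟩, rfl⟩
    obtain ⟨j, rfl⟩ : ∃ k, j = k + 1 := ⟨j - 1, by omega⟩
    exact ⟨j, by show j ≤ l; omega, (ev j (by omega)).symm⟩
  · rw [← Finset.Ico_add_one_right_eq_Icc,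
      Finset.sum_congr rfl fun j hj => eb j (by have := Finset.mem_Ico.1 hj; omega),
      Finset.sum_add_distrib, tele (fun j => ψ (w j)) _ _ (by omega),
      Finset.sum_Ico_succ_top (by omega), w1 s hs, w1 l le_rfl,
      show l + 1 + 1 = l + 2 from rfl, w2, par,
      ← Finset.sum_Ico_add' (fun j => be (w j) (w (j + 1))) s l 1]
    congr 2
    refine Finset.sum_congr rfl fun j hj => ?_
    have := Finset.mem_Ico.1 hj
    rw [w1 j (by omega), w1 (j + 1) (by omega)]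

end RAlt

open RAlt in
theorem altS : AltS := by
  classical
  intro N N' n R m g Φ V M vx H P A ht B ft β ψ hn hm hB hNF hS hft hβ hψ hcob
  have hM := hm.ok
  obtain ⟨be, bs, hb⟩ := exists_be hm hβ.1 ψ
  have low : ∀ v ∈ vx '' M.S, ht v < 2 * m → v ∉ H := by
    rintro _ ⟨f, hf, rfl⟩ h c
    have := hS.hole (vx f) ⟨f, hf, c, f, Relation.ReflTransGen.refl, rfl⟩
    omega
  obtain ⟨j0, -, hj0, -⟩ := hS.gate ∅ finite_empty (by simp)
  have PH : ∀ v ∈ P, v ∉ H := fun v hv =>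
    low v ((hS.zero v).1 hv).1 (by rw [((hS.zero v).1 hv).2]; omega)
  have inV : ∀ {u v : V}, (M.gph vx).Adj u v → u ∈ vx '' M.S := fun h => by
    obtain ⟨f, hf, e, -⟩ := dart hM h
    exact ⟨f, hf, e⟩
  have b0 : ∀ {u v : V}, (M.gph vx).Adj u v → ht u < 2 * m → ht v < 2 * m → be u v = 0 := by
    intro u v h hu hv
    have a1 := inV h
    have a2 := inV h.symm
    have pm : ∀ w ∈ vx '' M.S, ht w < 2 * m → w ∈ P ∪ M.mid vx ht m := fun w a b => by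
      by_cases c : ht w = 0
      exacts [Or.inl ((hS.zero w).2 ⟨a, c⟩), Or.inr ⟨a, by omega, b⟩]
    obtain ⟨f, hf, rfl, rfl⟩ := dart hM h
    have e1 := hb f hf (low _ a1 hu) (low _ a2 hv)
    rw [hψ f ⟨hf, pm _ a1 hu, pm _ a2 hv⟩] at e1
    exact left_eq_add.1 (e1.trans (add_comm _ _))
  have bA : ∀ a ∈ A, be a (ft a) = 0 := fun a ha =>
    b0 (hft a ha).2 (hS.peg ha).2.2 (by rw [((hS.zero _).1 (hft a ha).1).2]; omega)
  have st : ∀ {u v : V}, (M.gph vx).Adj u v → ∀ j ≤ m, ht u < 2 * j → ht v ≤ 2 * j := by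
    intro u v h j hj hu
    obtain ⟨f, hf, rfl, rfl⟩ := dart hM h
    exact hS.step f hf _ (Relation.ReflTransGen.single (Or.inl rfl)) j hj hu
  have fin : (M.tv vx H \ P).Finite := ((hM.fin.image vx).subset sdiff_subset).subset sdiff_subset
  have DH : ∀ v ∈ M.tv vx H \ P, v ∉ H := fun v hv => hv.1.2
  rcases oddS V (M.gph vx) be _ A N fin bs with ⟨f, l, hf, hd⟩ | ⟨X1, hX1, c1, no⟩
  · left
    choose e he using fun i => mk hm hb Subset.rfl DH (hf i).path (PH _ (hft _ (hf i).first).1)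
      (PH _ (hft _ (hf i).last).1) (hft _ (hf i).first).2.symm (hft _ (hf i).last).2
    refine ⟨e, fun i => l i + 1, fun i j c => (hd c).mono (he i).2.1 (he j).2.1, fun i => ?_⟩
    obtain ⟨a1, -, a3, a4, a5, a6, a7⟩ := he i
    have o := (hf i).odd
    have l0 : l i ≠ 0 := fun c => by simp [c, par] at o
    have e0 := a3 0 (by omega)
    have el := a3 _ le_rfl
    refine ⟨a1, by dsimp only; omega, e0 ▸ (hf i).first, el ▸ (hf i).last, by rw [a4, e0], by rw [a5, el], ?_⟩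
    have := a7 0 (by omega)
    rw [o, bA _ (hf i).last] at this
    rw [Finset.range_eq_Ico, Finset.sum_eq_sum_Ico_succ_bot (by omega),
      Finset.Ico_add_one_right_eq_Icc, this, a6, bs, bA _ (hf i).first, a4, a5]
    generalize ψ (ft (f i 0)) = x, ψ (f i 0) = y, ψ (ft (f i (l i))) = z
    revert x y z
    decide
  rcases walkS V (M.gph vx) be _ A N' (fin.subset sdiff_subset) bs no with
    ⟨f, s, l, hf, hd⟩ | ⟨X2, hX2, c2, φ, φ0, hφ⟩
  · right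
    choose e he using fun i => mk hm hb sdiff_subset DH (hf i).path (PH _ (hft _ (hf i).first).1)
      (DH _ ((hf i).path.1 (s i) (by have := (hf i).le; omega)).1) (hft _ (hf i).first).2.symm
      (hf i).close
    refine ⟨e, fun i => s i + 1, fun i => l i + 1, fun i j c => (hd c).mono (he i).2.1 (he j).2.1,
      fun i => ?_⟩
    obtain ⟨a1, -, a3, a4, a5, -, a7⟩ := he i
    have le := (hf i).le
    have e0 := a3 0 (by omega)
    refine ⟨a1, e0 ▸ (hf i).first, by rw [a4, e0], by dsimp only; omega, by dsimp only; omega,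
      by rw [a5, a3 _ (by omega)], ?_⟩
    rw [a7 _ (by omega), (hf i).odd, CharTwo.add_self_eq_zero, add_zero]
  exfalso
  have XT : X1 ∪ X2 ⊆ M.tv vx H \ P := union_subset hX1 (hX2.trans sdiff_subset)
  have Xf : (X1 ∪ X2).Finite := fin.subset XT
  have Xn : (X1 ∪ X2).ncard ≤ n := (ncard_union_le _ _).trans (by omega)
  rw [Set.sdiff_sdiff] at hφ
  generalize X1 ∪ X2 = X at XT Xf Xn hφ
  obtain ⟨j, hj1, hj2, gate⟩ := hS.gate X Xf Xn
  have mE : M.mid vx ht m \ X ⊆ (M.tv vx H \ P) \ X := fun v hv =>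
    ⟨⟨⟨hv.1.1, low _ hv.1.1 hv.1.2.2⟩, fun c => by
      have := ((hS.zero v).1 c).2
      have := hv.1.2.1
      omega⟩, hv.2⟩
  obtain ⟨AL, hAL⟩ : ∃ AL : V → Prop, ∀ v, AL v ↔ ∃ a ∈ A, a ∈ (M.tv vx H \ P) \ X ∧
    Link (M.gph vx) ((M.tv vx H \ P) \ X) a v := ⟨_, fun _ => Iff.rfl⟩
  have ALE : ∀ v, AL v → v ∈ (M.tv vx H \ P) \ X := fun v h => by
    obtain ⟨a, -, h1, h2⟩ := (hAL v).1 h
    exact h2.mem h1
  have ALs : ∀ u v, AL u → v ∈ (M.tv vx H \ P) \ X → (M.gph vx).Adj u v →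
      AL v ∧ be u v = φ u + φ v := fun u v h hv e => by
    obtain ⟨a, h0, h1, h2⟩ := (hAL u).1 h
    exact ⟨(hAL v).2 ⟨a, h0, h1, h2.trans (Link.single (h2.mem h1) hv e)⟩, hφ a h0 h1 u h2 v hv e⟩
  have lev : ∀ v ∈ vx '' M.S, ht v = 2 * j → AL v ∧ φ v = 0 := by
    intro v hv e
    obtain ⟨-, a, ha, hX, hl, -⟩ := gate v hv e
    have am : a ∈ M.mid vx ht m \ X := ⟨hS.peg ha, hX⟩
    have hl' := hl.symm
    clear hl e hv
    induction hl' with
    | refl => exact ⟨(hAL a).2 ⟨a, ha, mE am, Link.refl _ _ _⟩, φ0 a ha⟩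
    | tail _ h ih =>
      obtain ⟨k1, k2⟩ := ALs _ _ ih.1 (mE h.2.1) h.2.2
      rw [b0 h.2.2 h.1.1.2.2 h.2.1.1.2.2, ih.2, zero_add] at k2
      exact ⟨k1, k2.symm⟩
  have clC : ∀ v, AL v → ht v ≤ 2 * j → φ v = 0 := by
    intro v h
    obtain ⟨a, ha, h1, h2⟩ := (hAL v).1 h
    clear h
    induction h2 with
    | refl => exact fun _ => φ0 a ha
    | @tail x y h3 h ih =>
      intro hy
      rcases hy.lt_or_eq with c | c
      · have hx := st h.2.2.symm j hj2.le c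
        have k := hφ a ha h1 x h3 y h.2.1 h.2.2
        rw [b0 h.2.2 (by omega) (by omega), ih hx, zero_add] at k
        exact k.symm
      · exact (lev y h.2.1.1.1.1 c).2
  have cr : ∀ i i', Disjoint (Cross B i i') X → Cross B i i' ⊆ M.tv vx H \ X := by
    intro i i' h v hv
    refine ⟨?_, disjoint_left.1 h hv⟩
    obtain ⟨k, hk | hk⟩ := mem_iUnion.1 hv <;> exact (hB.1 _ hk).1
  have KT : big (M.gph vx) B (M.tv vx H) X ⊆ M.tv vx H \ X := by
    rintro v ⟨i, i', h, w, hw, hl⟩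
    exact hl.mem (cr i i' h hw)
  have clD : ∀ v ∈ big (M.gph vx) B (M.tv vx H) X, ht v < 2 * j ∨ AL v := by
    rintro v ⟨i, i', h, w, hw, hl⟩
    obtain ⟨k, k', h', p, hp, hP⟩ := hS.hit X Xf Xn
    have hl' := (cross_link hB (cr _ _ h') (cr _ _ h) hp hw).trans hl
    clear hl
    induction hl' with
    | refl => exact Or.inl (by rw [((hS.zero p).1 hP).2]; omega)
    | @tail x y _ h ih =>
      rcases ih with c | c
      · rcases (st h.2.2 j hj2.le c).lt_or_eq with d | d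
        exacts [Or.inl d, Or.inr (lev y h.2.1.1.1 d).1]
      · by_cases d : y ∈ P
        · exact Or.inl (by rw [((hS.zero y).1 d).2]; omega)
        · exact Or.inr (ALs x y c ⟨⟨h.2.1.1, d⟩, h.2.1.2⟩ h.2.2).1
  have Kc : ∀ u ∈ big (M.gph vx) B (M.tv vx H) X, ∀ v ∈ big (M.gph vx) B (M.tv vx H) X,
      Link (M.gph vx) (big (M.gph vx) B (M.tv vx H) X) u v := by
    have up : ∀ i i', Disjoint (Cross B i i') X → ∀ w ∈ Cross B i i', ∀ v,
        Link (M.gph vx) (M.tv vx H \ X) w v →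
        Link (M.gph vx) (big (M.gph vx) B (M.tv vx H) X) w v := by
      intro i i' h w hw v hl
      induction hl with
      | refl => exact Link.refl _ _ _
      | tail h1 h2 ih =>
        exact ih.trans (Link.single ⟨i, i', h, w, hw, h1⟩ ⟨i, i', h, w, hw, h1.tail h2⟩ h2.2.2)
    rintro u ⟨i, i', h, w, hw, hl⟩ v ⟨k, k', h', w', hw', hl'⟩
    exact (up i i' h w hw u hl).symm.trans
      (up i i' h w hw v ((cross_link hB (cr _ _ h) (cr _ _ h') hw hw').trans hl'))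
  have full := hNF X (XT.trans sdiff_subset) Xn
  generalize big (M.gph vx) B (M.tv vx H) X = K at KT clD Kc full
  obtain ⟨-, g2, g3, -⟩ := gphS orbS minorS Φ V M vx hM hm.lbl
  have z : ∀ v, ht v ≤ 2 * j → (if AL v then φ v else 0) = 0 := fun v hv => by
    split_ifs with c
    exacts [clC v c hv, rfl]
  obtain ⟨ψ1, -, h1⟩ := ext1S (extS ghostS regS sphereS) Φ V M vx H (M.ind vx K) β
    (fun v => ψ v + if AL v then φ v else 0) hM hm.lbl (g2 K)
    (fun f hf g hg => (g3 K f hf g hg).2 (Kc _ hf.2.1 _ hg.2.1)) full.1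
    (disjoint_right.2 (by rintro _ ⟨f, hf, rfl⟩; exact (KT hf.2.1).1.2)) full.2 hβ.1 hβ.2
    (by
      rintro f ⟨hf, hu, hv⟩
      have e : (M.gph vx).Adj (vx f) (vx (M.a f)) :=
        ⟨(hm.simple f hf).1, f, hf, Or.inl ⟨rfl, rfl⟩⟩
      have key : be (vx f) (vx (M.a f)) = (if AL (vx f) then φ (vx f) else 0) +
          if AL (vx (M.a f)) then φ (vx (M.a f)) else 0 := by
        rcases clD _ hu with c | c
        · have := st e j hj2.le c
          rw [b0 e (by omega) (by omega), z _ c.le, z _ this, add_zero]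
        rcases clD _ hv with d | d
        · have := st e.symm j hj2.le d
          rw [b0 e (by omega) (by omega), z _ d.le, z _ this, add_zero]
        rw [if_pos c, if_pos d]
        exact (ALs _ _ c (ALE _ d) e).2
      rw [hb f hf (KT hu).1.2 (KT hv).1.2, key]
      ring)
  exact hcob ⟨ψ1, fun f hf => h1 f hf.1 hf.2.1.2 hf.2.2.2⟩

end Pool.Agent.MP_9d78a0_co.gm

end MrgPart0

-- ======== part 1: formerly Pool.Agent.MP_9d78a0_co.gm.RMeng
section MrgPart1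

/-! Routing: free terminals reach different pegs; a protected full set is a frame. -/

set_option autoImplicit false

namespace Pool.Agent.MP_9d78a0_co.gm

open Set Function

namespace RMeng

section graph

variable {V : Type} {G : SimpleGraph V} {g : ℕ} {B : Fin g × Fin g → Set V} {S : Set V}

theorem line {f : Fin g → Set V} (i : Fin g) (hc : ∀ k, Conn G (f k))
    (ht : ∀ k k' : Fin g, (k : ℕ) + 1 = k' → fb.Touch G (f k) (f k')) : Conn G (⋃ k, f k) := by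
  obtain ⟨n, rfl⟩ : ∃ n, g = n + 1 := ⟨g - 1, by have := i.2; omega⟩
  rw [← biUnion_univ]
  refine fb.conn_biUnion (mem_univ 0) (fun k _ => hc k) fun k _ => ?_
  induction k using Fin.induction with
  | zero => exact Relation.ReflTransGen.refl
  | succ k ih => exact (ih (mem_univ _)).tail ⟨mem_univ _, mem_univ _, Or.inr (ht _ _ (by simp))⟩

theorem cross_conn (h : Model (fb.grid g) G S B) (i j : Fin g) : Conn G (Cross B i j) := by
  obtain ⟨x, hx⟩ := (h.2.1 (i, j)).1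
  rw [Cross, iUnion_union_distrib]
  refine pl.conn_union (line (f := fun k => B (i, k)) i (fun _ => h.2.1 _) fun k k' e => ?_)
    (line (f := fun k => B (k, j)) i (fun _ => h.2.1 _) fun k k' e => ?_)
    (mem_iUnion.2 ⟨j, hx⟩) (mem_iUnion.2 ⟨i, hx⟩)
  · exact h.2.2.2 _ _ (Or.inl ⟨rfl, Or.inl e⟩)
  · exact h.2.2.2 _ _ (Or.inr ⟨rfl, Or.inl e⟩)

theorem cross_sub (h : Model (fb.grid g) G S B) (i j : Fin g) : Cross B i j ⊆ S :=
  iUnion_subset fun _ => union_subset (h.1 _) (h.1 _)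

/-- points of two crosses are joined inside the two crosses -/
theorem cross_link (h : Model (fb.grid g) G S B) {i j i' j' : Fin g} {Z : Set V} {u v : V}
    (h1 : Cross B i j ⊆ Z) (h2 : Cross B i' j' ⊆ Z) (hu : u ∈ Cross B i j)
    (hv : v ∈ Cross B i' j') : Link G Z u v := by
  obtain ⟨x, hx⟩ := (h.2.1 (i, j')).1
  exact (((cross_conn h i j).2 u hu x (mem_iUnion.2 ⟨j', Or.inl hx⟩)).mono h1).trans
    (((cross_conn h i' j').2 x (mem_iUnion.2 ⟨i, Or.inr hx⟩) v hv).mono h2)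

/-- the set that a vertex of the contracted graph stands for -/
def cel {ι : Type} (σ : ι → Set V) : V ⊕ ι → Set V
  | .inl v => {v}
  | .inr i => σ i

/-- the contracted graph -/
def con {ι : Type} (G : SimpleGraph V) (σ : ι → Set V) : SimpleGraph (V ⊕ ι) where
  Adj u v := u ≠ v ∧ fb.Touch G (cel σ u) (cel σ v)
  symm := ⟨fun _ _ h => ⟨h.1.symm, h.2.symm⟩⟩
  loopless := ⟨fun _ h => h.1 rfl⟩

/-- Menger's theorem for disjoint connected terminals -/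
theorem menger {ι : Type} {I : Set ι} {σ : ι → Set V} {D A : Set V} (hI : I.Finite)
    (hD : D.Finite) (hc : ∀ i ∈ I, Conn G (σ i))
    (hd : ∀ i ∈ I, ∀ j ∈ I, i ≠ j → Disjoint (σ i) (σ j)) (hA : ∀ i ∈ I, Disjoint A (σ i))
    (hx : ∀ X ⊆ D, X.Finite → (∀ i ∈ I, Disjoint X (σ i)) → ∀ J ⊆ I,
      X.ncard + J.ncard < I.ncard → ∃ i ∈ I \ J, ∃ v ∈ σ i, ∃ a ∈ A, a ∈ D \ X ∧
        Link G (D \ (X ∪ ⋃ j ∈ J, σ j)) v a) :
    ∃ Q : ι → Set V, (∀ i ∈ I, Conn G (Q i) ∧ σ i ⊆ Q i ∧ Q i ⊆ D ∪ σ i ∧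
      (Q i ∩ A).Nonempty) ∧ ∀ i ∈ I, ∀ j ∈ I, i ≠ j → Disjoint (Q i) (Q j) := by
  classical
  have : Finite I := hI
  set U : Set (V ⊕ ι) := Sum.inl '' (D \ ⋃ i ∈ I, σ i) ∪ Sum.inr '' I with hU
  have ex : ∀ v, ∃ u, (∃ i ∈ I, v ∈ σ i ∧ u = Sum.inr i) ∨
      ((∀ i ∈ I, v ∉ σ i) ∧ u = (Sum.inl v : V ⊕ ι)) := fun v => by
    by_cases e : ∃ i ∈ I, v ∈ σ i
    · obtain ⟨i, hi, e⟩ := e
      exact ⟨_, Or.inl ⟨i, hi, e, rfl⟩⟩
    · push Not at e
      exact ⟨_, Or.inr ⟨e, rfl⟩⟩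
  choose π hπ using ex
  have π1 : ∀ v, v ∈ cel σ (π v) := fun v => by
    rcases hπ v with ⟨i, -, e, e'⟩ | ⟨-, e'⟩ <;> rw [e']
    exacts [e, rfl]
  obtain ⟨R, hR, hRd⟩ := fb.mengerQS fb.mengerS (V ⊕ ι) I (con G σ) U (Sum.inl '' A)
    (fun i => Sum.inr i.1) (((hD.sdiff).image _).union (hI.image _)) fun X' hX hlt => by
      have fin : X'.Finite := (((hD.sdiff).image _).union (hI.image _)).subset hX
      have f1 : (Sum.inl ⁻¹' X' : Set V).Finite := fin.preimage Sum.inl_injective.injOn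
      have f2 : (Sum.inr ⁻¹' X' : Set ι).Finite := fin.preimage Sum.inr_injective.injOn
      have s1 : (Sum.inl ⁻¹' X' : Set V) ⊆ D \ ⋃ i ∈ I, σ i := fun v hv => by
        rcases hX hv with ⟨w, hw, e⟩ | ⟨w, -, e⟩
        · exact Sum.inl_injective e ▸ hw
        · cases e
      have s2 : (Sum.inr ⁻¹' X' : Set ι) ⊆ I := fun v hv => by
        rcases hX hv with ⟨w, -, e⟩ | ⟨w, hw, e⟩
        · cases e
        · exact Sum.inr_injective e ▸ hw
      have cd : (Sum.inl ⁻¹' X' : Set V).ncard + (Sum.inr ⁻¹' X' : Set ι).ncard = X'.ncard := by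
        rw [← ncard_image_of_injective _ (Sum.inl_injective (β := ι)),
          ← ncard_image_of_injective (Sum.inr ⁻¹' X') (Sum.inr_injective (α := V)),
          ← ncard_union_eq _ (f1.image _) (f2.image _),
          image_preimage_inl_union_image_preimage_inr]
        exact disjoint_image_inl_image_inr
      obtain ⟨i, hi, v, hv, a, ha, haD, hl⟩ := hx _ (fun v hv => (s1 hv).1) f1
        (fun i hi => disjoint_left.2 fun v hv c => (s1 hv).2 (mem_biUnion hi c)) _ s2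
        (by rw [cd]; exact hlt)
      have m : ∀ w ∈ D \ (Sum.inl ⁻¹' X' ∪ ⋃ j ∈ (Sum.inr ⁻¹' X' : Set ι), σ j),
          π w ∈ U \ X' := fun w hw => by
        rcases hπ w with ⟨k, hk, e, e'⟩ | ⟨e, e'⟩ <;> rw [e']
        · exact ⟨Or.inr ⟨k, hk, rfl⟩, fun c => hw.2 (Or.inr (mem_biUnion (t := σ) c e))⟩
        · refine ⟨Or.inl ⟨w, ⟨hw.1, fun c => ?_⟩, rfl⟩, fun c => hw.2 (Or.inl c)⟩
          obtain ⟨k, hk, c⟩ := mem_iUnion₂.1 c
          exact e k hk c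
      have l := Link.map (G' := con G σ) (T := U \ X') π (fun x hx y hy e => by
        by_cases d : π x = π y
        · rw [d]
          exact Link.refl _ _ _
        · exact Link.single (m x hx) (m y hy) ⟨d, x, π1 x, y, π1 y, e⟩) hl
      have e1 : π v = Sum.inr i := by
        rcases hπ v with ⟨k, hk, e, e'⟩ | ⟨e, -⟩
        · by_cases c : k = i
          · rw [e', c]
          · exact absurd hv (disjoint_left.1 (hd k hk i hi.1 c) e)
        · exact absurd hv (e i hi.1)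
      have e2 : π a = Sum.inl a := by
        rcases hπ a with ⟨k, hk, e, -⟩ | ⟨-, e'⟩
        · exact absurd e (disjoint_left.1 (hA k hk) ha)
        · exact e'
      rw [e1, e2] at l
      have mi : Sum.inr i ∈ U \ X' := ⟨Or.inr ⟨i, hi.1, rfl⟩, hi.2⟩
      exact ⟨fb.cp (con G σ) (U \ X') (Sum.inr i), fb.cp_sub, fb.cp_conn mi,
        ⟨⟨i, hi.1⟩, fb.cp_self mi⟩, _, ⟨l.mem mi, l⟩, a, ha, rfl⟩
  have own : ∀ (i : I) k, Sum.inr k ∈ R i → k = i := fun i k hk => by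
    rcases (hR i).1 hk with ⟨w, -, e⟩ | ⟨w, hw, e⟩
    · cases e
    · obtain rfl := Sum.inr_injective e
      by_contra c
      exact disjoint_left.1 (hRd (i := ⟨w, hw⟩) (j := i) fun e => c (congrArg Subtype.val e))
        (hR ⟨w, hw⟩).2.2.1 hk
  refine ⟨fun i => {v | ∃ h : i ∈ I, v ∈ ⋃ u ∈ R ⟨i, h⟩, cel σ u}, fun i hi => ?_,
    fun i hi j hj e => disjoint_left.2 ?_⟩
  · have eq : {v | ∃ h : i ∈ I, v ∈ ⋃ u ∈ R ⟨i, h⟩, cel σ u} = ⋃ u ∈ R ⟨i, hi⟩, cel σ u :=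
      Set.ext fun v => ⟨fun ⟨_, h⟩ => h, fun h => ⟨hi, h⟩⟩
    obtain ⟨h1, h2, h3, _, h4, a, ha, rfl⟩ := hR ⟨i, hi⟩
    simp only [eq]
    refine ⟨fb.conn_biUnion h3 (fun u hu => ?_) fun u hu => ?_,
      subset_biUnion_of_mem (u := cel σ) h3, iUnion₂_subset fun u hu => ?_,
      a, mem_biUnion h4 rfl, ha⟩
    · rcases u with u | u
      · exact conn_singleton _ _
      · rw [own _ u hu]
        exact hc i hi
    · have l := h2.2 _ h3 u hu
      clear hu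
      induction l with
      | refl => exact Relation.ReflTransGen.refl
      | tail _ e ih => exact ih.tail ⟨e.1, e.2.1, Or.inr e.2.2.2⟩
    · rcases u with u | u
      · rcases h1 hu with ⟨w, hw, e⟩ | ⟨w, -, e⟩
        · obtain rfl := Sum.inl_injective e
          exact singleton_subset_iff.2 (Or.inl hw.1)
        · cases e
      · rw [own _ u hu]
        exact subset_union_right
  · rintro v ⟨_, h1⟩ ⟨_, h2⟩
    obtain ⟨u, hu, h1⟩ := mem_iUnion₂.1 h1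
    obtain ⟨u', hu', h2⟩ := mem_iUnion₂.1 h2
    have ne : u ≠ u' := fun c => disjoint_left.1
      (hRd (i := ⟨i, hi⟩) (j := ⟨j, hj⟩) fun c => e (congrArg Subtype.val c)) hu (c ▸ hu')
    rcases (hR _).1 hu with ⟨w, hw, rfl⟩ | ⟨w, hw, rfl⟩ <;>
      rcases (hR _).1 hu' with ⟨w', hw', rfl⟩ | ⟨w', hw', rfl⟩
    · exact ne (congrArg _ (h1.symm.trans h2))
    · exact hw.2 (mem_biUnion hw' (h1 ▸ h2 :))
    · exact hw'.2 (mem_biUnion hw (h2 ▸ h1 :))
    · exact disjoint_left.1 (hd w hw w' hw' fun c => ne (congrArg _ c)) h1 h2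

end graph

section shell

variable {Φ V : Type} {M : FM Φ} {vx : Φ → V} {H P A : Set V} {ht : V → ℕ} {g R n m : ℕ}
  {B : Fin g × Fin g → Set V}

theorem fo_back (hM : M.Ok) {f f' : Φ} (hf : f ∈ M.S) (h : f' ∈ M.fo f) :
    f' ∈ M.S ∧ f ∈ M.fo f' := by
  induction h with
  | refl => exact ⟨hf, Relation.ReflTransGen.refl⟩
  | tail _ e ih =>
    rcases e with rfl | rfl
    · exact ⟨(hM.ia _ ih.1).1, Relation.ReflTransGen.head (Or.inl (hM.ia _ ih.1).2.1.symm) ih.2⟩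
    · exact ⟨(hM.ib _ ih.1).1, Relation.ReflTransGen.head (Or.inr (hM.ib _ ih.1).2.1.symm) ih.2⟩

theorem adj_face (hM : M.Ok) {u v : V} (h : (M.gph vx).Adj u v) :
    ∃ f ∈ M.S, vx f = u ∧ ∃ f' ∈ M.fo f, f' ∈ M.S ∧ vx f' = v := by
  obtain ⟨-, f, hf, ⟨h1, h2⟩ | ⟨h1, h2⟩⟩ := h
  · exact ⟨f, hf, h1, M.a f, Relation.ReflTransGen.single (Or.inl rfl), (hM.ia f hf).1, h2⟩
  · exact ⟨M.a f, (hM.ia f hf).1, h2, f,
      Relation.ReflTransGen.single (Or.inl (hM.ia f hf).2.1.symm), hf, h1⟩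

theorem link_vx (hM : M.Ok) {D : Set V} {u v : V} (h : Link (M.gph vx) D u v)
    (hu : u ∈ vx '' M.S) : v ∈ vx '' M.S := by
  induction h with
  | refl => exact hu
  | tail _ e _ =>
    obtain ⟨f, -, -, f', -, h1, h2⟩ := adj_face hM e.2.2
    exact ⟨f', h1, h2⟩

theorem hole_rad {v : V} (hv : v ∈ vx '' M.S) (h : v ∈ H) : v ∈ M.rad vx H := by
  obtain ⟨f, hf, rfl⟩ := hv
  exact ⟨f, hf, h, f, Relation.ReflTransGen.refl, rfl⟩

/-- a walk that goes below an even level passes it -/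
theorem level (hM : M.Ok) (hS : M.Shell vx B H P A ht R n m) {D : Set V} {u v : V} {j : ℕ}
    (hj : j ≤ m) (h : Link (M.gph vx) D u v) (hu : 2 * j ≤ ht u) (hv : ht v < 2 * j) :
    ∃ x ∈ D, x ∈ vx '' M.S ∧ ht x = 2 * j ∧
      Link (M.gph vx) (D ∩ {w | 2 * j ≤ ht w}) u x := by
  obtain ⟨x, y, h1, -, h3, h4, e, l⟩ :=
    fb.link_exit (T := {w | 2 * j ≤ ht w}) h hu (not_le.2 hv)
  obtain ⟨f, hf, rfl, f', hf', h5, rfl⟩ := adj_face hM e.symm
  exact ⟨_, h1, ⟨f', h5, rfl⟩, le_antisymm (hS.step f hf f' hf' j hj (not_le.1 h4)) h3, l⟩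

theorem mid_sub (hS : M.Shell vx B H P A ht R n m) :
    M.mid vx ht m ⊆ (M.tv vx H \ M.rad vx H) \ P := fun v hv => by
  have k : v ∉ M.rad vx H := fun c => absurd (hS.hole v c) (not_le.2 hv.2.2)
  exact ⟨⟨⟨hv.1, fun c => k (hole_rad hv.1 c)⟩, k⟩, fun c => hv.2.1.ne' ((hS.zero v).1 c).2⟩

theorem rad_ht (hM : M.Ok) (hS : M.Shell vx B H P A ht R n m) {D : Set V} (r : ℕ) :
    ∀ i v, i + r ≤ m → v ∈ (M.rad vx)^[r] D → v ∈ vx '' M.S → ht v ≤ 2 * i →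
      ∃ d ∈ D, d ∈ vx '' M.S ∧ ht d ≤ 2 * (i + r) := by
  induction r with
  | zero => exact fun i v _ h1 h2 h3 => ⟨v, h1, h2, h3⟩
  | succ r ih =>
    intro i v h0 h1 _ h3
    rw [iterate_succ_apply'] at h1
    obtain ⟨f, hf, h1, f', hf', rfl⟩ := h1
    obtain ⟨h4, h5⟩ := fo_back hM hf hf'
    obtain ⟨d, h6, h7, h8⟩ := ih (i + 1) _ (by omega) h1 ⟨f, hf, rfl⟩
      (hS.step f' h4 f h5 (i + 1) (by omega) (by omega))
    exact ⟨d, h6, h7, by omega⟩

/-- all clauses of a frame, given the block -/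
theorem frame {U0 : Set V} (hM : M.Hm vx H)
    (hB : Model (fb.grid g) (M.gph vx) (M.tv vx H \ M.rad vx H) B)
    (hS : M.Shell vx B H P A ht R n m) (hR : R ≤ n) (hU : U0 ⊆ P) (hc : Conn (M.gph vx) U0)
    (hf : M.Full vx H U0) (hh : Hit B U0 n)
    (hk : ∃ i0 j0, i0 + R ≤ g ∧ j0 + R ≤ g ∧ ∀ i j : Fin g, i0 ≤ i → (i : ℕ) < i0 + R → j0 ≤ j →
      (j : ℕ) < j0 + R → B (i, j) ⊆ U0) : M.Frame vx B H R U0 := by
  have sub : U0 ⊆ M.tv vx H := fun v hv => by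
    obtain ⟨h1, h2⟩ := (hS.zero v).1 (hU hv)
    obtain ⟨j, -, hj, -⟩ := hS.gate ∅ finite_empty (by simp)
    refine ⟨h1, fun c => ?_⟩
    have := hS.hole v (hole_rad h1 c)
    omega
  have cr : ∀ (X Y : Set V) i j, Y ⊆ M.rad vx H → Disjoint (Cross B i j) X →
      Disjoint (Cross B i j) (X ∪ Y) := fun X Y i j hY h => disjoint_union_right.2
    ⟨h, disjoint_left.2 fun v hv c => (cross_sub hB i j hv).2 (hY c)⟩
  refine ⟨sub, hc, hf, fun X Y D hX hXR hY hD hb => disjoint_left.2 fun v hv hv' => ?_,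
    fun X Y hX hXR hY hd v hv => ?_, hk⟩
  · obtain ⟨j, h1, h2, h3⟩ := hS.gate X hX (hXR.trans hR)
    obtain ⟨h4, h5⟩ := (hS.zero v).1 (hU hv')
    obtain ⟨d, h6, h7, h8⟩ := rad_ht hM.ok hS R 0 v (by omega) hv h4 (by omega)
    obtain ⟨x, hx, l⟩ := hD d h6
    have h9 := hS.hole x (hole_rad (link_vx hM.ok l.symm h7) hx.1)
    obtain ⟨w, hw, k1, k2, -⟩ := level hM.ok hS h2.le l (by omega) (by omega)
    obtain ⟨-, a, -, -, k3, i, i', k4, k5⟩ := h3 w k1 k2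
    refine disjoint_left.1 hb hw ⟨i, i', cr X Y i i' hY k4, a, k5, k3.symm.mono fun z hz => ?_⟩
    exact ⟨(mid_sub hS hz.1).1.1, fun c => c.elim hz.2 fun c => (mid_sub hS hz.1).1.2 (hY c)⟩
  · obtain ⟨i, j, h1, w, h2, h3⟩ := hh X hX (hXR.trans hR)
    refine ⟨i, j, cr X Y i j hY h1, w, h2, Link.mono (fun z hz => ?_) (hc.2 w h3 v hv)⟩
    exact ⟨sub hz, fun c => disjoint_left.1 hd c hz⟩

end shell

end RMeng

open RMeng in
theorem mengS : MengS := by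
  intro n R m g Φ V ι M vx H P A T ht B I σ hM hB hS hI hn h1 h2 hσ hd hF
  obtain ⟨j0, -, hm, -⟩ := hS.gate ∅ finite_empty (by simp)
  have hP : ∀ i ∈ I, ∀ v ∈ σ i, v ∉ P := fun i hi v hv c => by
    have := hS.hole v ((hσ i hi).2 hv).2
    have := ((hS.zero v).1 c).2
    omega
  obtain ⟨Q, q1, q2⟩ := menger (G := M.gph vx) (D := T \ P) (A := A) hI
    ((hM.ok.fin.image vx).subset fun v hv => (h2 hv.1).1) (fun i hi => (hσ i hi).1) hd
    (fun i hi => disjoint_left.2 fun a ha c => (mid_sub hS (hS.peg ha)).1.2 ((hσ i hi).2 c).2)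
    fun X hX hf hXσ J hJ hlt => by
      obtain ⟨i, hi, v, hv, a, b, k1, w, k2, k3⟩ := hF X (fun v hv => (hX hv).1) hf hXσ J hJ hlt
      have hXn : X.ncard ≤ n := by omega
      have hY : (⋃ j ∈ J, σ j) ⊆ M.rad vx H :=
        iUnion₂_subset fun j hj v hv => ((hσ j (hJ hj)).2 hv).2
      obtain ⟨a', b', k4, p, k5, k6⟩ := hS.hit X hf hXn
      obtain ⟨j, j1, j2, j3⟩ := hS.gate X hf hXn
      have l : Link (M.gph vx) (T \ (X ∪ ⋃ j ∈ J, σ j)) v p := k3.symm.trans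
        (cross_link hB (fun z hz => ⟨h1 (cross_sub hB _ _ hz), disjoint_left.1 k1 hz⟩)
          (fun z hz => ⟨h1 (cross_sub hB _ _ hz), fun c => c.elim (disjoint_left.1 k4 hz)
            fun c => (cross_sub hB _ _ hz).2 (hY c)⟩) k2 k5)
      have t1 := hS.hole v ((hσ i hi.1).2 hv).2
      have t2 := ((hS.zero p).1 k6).2
      obtain ⟨x, -, x1, x2, x3⟩ := level hM.ok hS j2.le l (by omega) (by omega)
      obtain ⟨-, y, y1, y2, y3, -⟩ := j3 x x1 x2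
      have my := mid_sub hS (hS.peg y1)
      refine ⟨i, hi, v, hv, y, y1, ⟨⟨h1 my.1, my.2⟩, y2⟩,
        (Link.mono (fun z hz => ?_) x3).trans (Link.mono (fun z hz => ?_) y3)⟩
      · refine ⟨⟨hz.1.1, fun c => ?_⟩, hz.1.2⟩
        have := ((hS.zero z).1 c).2
        have : 2 * j ≤ ht z := hz.2
        omega
      · have mz := mid_sub hS hz.1
        exact ⟨⟨h1 mz.1, mz.2⟩, fun c => c.elim hz.2 fun c => mz.1.2 (hY c)⟩
  refine ⟨Q, fun i hi => ⟨(q1 i hi).1, (q1 i hi).2.1, fun v hv => ?_, (q1 i hi).2.2.2⟩, q2⟩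
  rcases (q1 i hi).2.2.1 hv with c | c
  exacts [⟨Or.inl c.1, c.2⟩, ⟨Or.inr c, hP i hi v c⟩]

theorem farRS : FarRS := fun _ _ _ _ _ _ _ _ _ _ _ _ _ _ hM hB hS hR hU hc hf hh hk =>
  RMeng.frame hM hB hS hR hU hc hf hh hk

end Pool.Agent.MP_9d78a0_co.gm

end MrgPart1

-- ======== part 2: formerly Pool.Agent.MP_9d78a0_co.gm.RHang
section MrgPart2

/-! Routing: trees that hang on the core. -/

set_option autoImplicit false

namespace Pool.Agent.MP_9d78a0_co.gm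

open Set Function Relation FM R0c

namespace RHang

variable {Φ V : Type} {M : FM Φ} {vx : Φ → V} {C : Set Φ} {P : Set V}

/-- a step along an edge of `C` that ends outside `P` -/
def Away (M : FM Φ) (vx : Φ → V) (C : Set Φ) (P : Set V) (u v : V) : Prop :=
  St M vx C u v ∧ v ∉ P

theorem last {u v : V} (hu : u ∈ P) (k : v ∈ cl (St M vx C) u) :
    ∃ w ∈ P, v ∈ cl (Away M vx C P) w :=
  cl_ind (P := fun v => ∃ w ∈ P, v ∈ cl (Away M vx C P) w) ⟨u, hu, cl_self _ _⟩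
    (fun x y _ ⟨w, hw, ih⟩ e => by
      by_cases c : y ∈ P
      exacts [⟨y, c, cl_self _ _⟩, ⟨w, hw, cl_step ih ⟨e, c⟩⟩]) k

theorem ends (h : M.Ok) (hl : M.Lbl vx) {e x : Φ} (he : e ∈ M.S) (hx : x ∈ M.eo e) :
    vx x = vx e ∨ vx (M.a x) = vx e := by
  rcases (h.gk.mem_eo he).1 hx with rfl | rfl | rfl | rfl
  · exact Or.inl rfl
  · exact Or.inr (by rw [h.gk.aa he])
  · exact Or.inl (Gph.vx_c h hl he)
  · exact Or.inr (by rw [h.gk.aa (h.gk.cm he), Gph.vx_c h hl he])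

theorem avoid (h : M.Ok) (hl : M.Lbl vx) {e : Φ} (he : e ∈ M.S) (hP : vx e ∈ P) {u v : V}
    (hu : u ≠ vx e) (k : v ∈ cl (Away M vx C P) u) :
    v ≠ vx e ∧ v ∈ cl (St M vx (C \ M.eo e)) u := by
  refine cl_ind (P := fun v => v ≠ vx e ∧ v ∈ cl (St M vx (C \ M.eo e)) u) ⟨hu, cl_self _ _⟩ ?_ k
  rintro _ _ - ih ⟨⟨x, hx, rfl, rfl⟩, c⟩
  have n : vx (M.a x) ≠ vx e := fun q => c (q ▸ hP)
  exact ⟨n, cl_step ih.2 ⟨x, ⟨hx, fun q => (ends h hl he q).elim ih.1 n⟩, rfl, rfl⟩⟩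

theorem link_st (h : M.Ok) {u v : V} (k : Link (M.gph vx) P u v) :
    v ∈ cl (St M vx (M.ind vx P)) u := by
  induction k with
  | refl => exact cl_self _ _
  | tail _ e ih =>
    obtain ⟨h1, h2, -, f, hf, ⟨rfl, rfl⟩ | ⟨rfl, rfl⟩⟩ := e
    · exact cl_step ih ⟨f, ⟨hf, h1, h2⟩, rfl, rfl⟩
    · exact cl_step ih ⟨M.a f, ⟨h.gk.am hf, h1, by rw [h.gk.aa hf]; exact h2⟩, rfl,
        by rw [h.gk.aa hf]⟩

/-- the root is unique -/
theorem uniq (h : M.Ok) (hl : M.Lbl vx) (hC : M.Es C) (sub : M.ind vx P ⊆ C)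
    (br : ∀ e ∈ C \ M.ind vx P, M.BrIn C e) (hP : Conn (M.gph vx) P) {u u' v : V} (hu : u ∈ P)
    (hu' : u' ∈ P) (k : v ∈ cl (Away M vx C P) u) (k' : v ∈ cl (Away M vx C P) u') : u = u' := by
  by_contra n
  rcases ReflTransGen.cases_head k with rfl | ⟨_, ⟨⟨e, he, rfl, rfl⟩, c⟩, k⟩
  · rcases ReflTransGen.cases_tail k' with q | ⟨_, -, q⟩
    exacts [n q, q.2 hu]
  have eS := hC.1 he
  have he' : e ∈ C \ M.ind vx P := ⟨he, fun q => c q.2.2⟩
  have hD := h.gk.es_diff hC (h.gk.es_eo eS)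
  refine br e he' ((st_iff h hl hD eS (h.gk.am eS)).2 ?_)
  have k1 := st_mono (sub_diff h (es_ind h hl P) hC sub he') _ (link_st h (hP.2 _ hu _ hu'))
  have k2 := (avoid h hl eS hu (Ne.symm n) k').2
  have k3 := (avoid h hl eS hu (u := vx (M.a e)) (fun q => c (q ▸ hu)) k).2
  exact cl_trans (cl_trans k1 k2) ((st_sy h hD).symm trivial k3)

end RHang

open RHang in
theorem hangS (hC : CoreS) : HangS := by
  classical
  intro k q g Φ V ι M vx H B ch t μ I K E Cs st h1 h2 hK hI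
  have h := st.hm.ok
  have hl := st.hm.lbl
  have hP := (hC k q g Φ V M vx H B ch t st (by omega)).1
  have cc : ∀ c, ch.cen μ c → ch.cell t c ⊆ ch.core t := by
    rintro c ⟨a1, a2⟩ v ⟨b1, b2, b3, b4, b5⟩
    exact ⟨b1, b2, by omega, by omega, by omega⟩
  have cy : ∀ c, ∀ v ∈ ch.cell t c, ch.y v / 2 = c := by
    rintro c v ⟨-, -, -, b4, b5⟩
    omega
  have e0 := es_ind h hl (ch.core t)
  have e1 : M.Es (M.ind vx (ch.core t) ∪ ⋃ i ∈ I, E i) := by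
    refine ⟨union_subset e0.1 (iUnion₂_subset fun i hi => (hI i hi).2.1.1), ?_⟩
    rintro f (hf | hf)
    · exact ⟨Or.inl (e0.2 f hf).1, Or.inl (e0.2 f hf).2⟩
    · obtain ⟨i, hi, hf⟩ := mem_iUnion₂.1 hf
      exact ⟨Or.inr (mem_biUnion hi ((hI i hi).2.1.2 f hf).1),
        Or.inr (mem_biUnion hi ((hI i hi).2.1.2 f hf).2)⟩
  obtain ⟨C, a1, a2, a3, a4, a5⟩ := relS Φ V M vx _ _ h hl e0 e1 subset_union_left
  have kn : ∀ i ∈ I, ∀ v ∈ K i, v ∉ ch.core t := fun i hi v hv =>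
    disjoint_left.1 (hI i hi).1 hv
  have same : ∀ i ∈ I, ∀ j ∈ I, ∀ v ∈ K i, v ∈ K j → i = j := fun i hi j hj v hv hv' => by
    by_contra n
    exact disjoint_left.1 (hK i hi j hj n) hv hv'
  have ke : ∀ i ∈ I, ∀ e ∈ E i, vx e ∉ ch.core t → vx e ∈ K i := fun i hi e he n =>
    ((hI i hi).2.2.2.1 e he).resolve_right fun ⟨c, hc, m⟩ => n (cc c ((hI i hi).2.2.1 c hc) m)
  have ce : ∀ e ∈ C, e ∉ M.ind vx (ch.core t) → ∃ i ∈ I, e ∈ E i := fun e he n => by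
    obtain ⟨i, hi, m⟩ := mem_iUnion₂.1 ((a2 he).resolve_left n)
    exact ⟨i, hi, m⟩
  have lk : ∀ i ∈ I, ∀ v ∈ K i, ∃ u ∈ ch.core t, v ∈ cl (St M vx C) u := fun i hi v hv => by
    obtain ⟨u, hu, m⟩ := (hI i hi).2.2.2.2 v hv
    exact ⟨u, hu, el_iff.1 (a5 u v (el_iff.2
      (st_mono (fun x hx => Or.inr (mem_biUnion hi hx)) u (el_iff.1 m))))⟩
  obtain ⟨rt, hrt⟩ : ∃ rt : V → ℕ, ∀ u ∈ ch.core t, ∀ v ∈ cl (Away M vx C (ch.core t)) u,
      rt v = ch.y u / 2 := by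
    refine ⟨fun v => if m : ∃ u ∈ ch.core t, v ∈ cl (Away M vx C (ch.core t)) u then
      ch.y m.choose / 2 else 0, fun u hu v hv => ?_⟩
    have m : ∃ u ∈ ch.core t, v ∈ cl (Away M vx C (ch.core t)) u := ⟨u, hu, hv⟩
    simp only [dif_pos m]
    rw [uniq h hl a3 a1 a4 hP m.choose_spec.1 hu m.choose_spec.2 hv]
  have key : ∀ u ∈ ch.core t, ∀ v ∈ cl (Away M vx C (ch.core t)) u, v = u ∨
      ∃ i ∈ I, v ∈ K i ∧ ∃ c ∈ Cs i, u ∈ ch.cell t c ∧ rt v = c ∧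
        M.EL vx C (ch.colm t (⋃ i ∈ I, K i) rt c) u v := by
    intro u hu v hv
    refine cl_ind (P := fun v => v = u ∨ ∃ i ∈ I, v ∈ K i ∧ ∃ c ∈ Cs i, u ∈ ch.cell t c ∧
      rt v = c ∧ M.EL vx C (ch.colm t (⋃ i ∈ I, K i) rt c) u v) (Or.inl rfl) ?_ hv
    rintro _ _ hx ih ⟨⟨e, he, rfl, rfl⟩, n⟩
    obtain ⟨j, hj, ej⟩ := ce e he fun m => n m.2.2
    have b1 := ke j hj _ ((hI j hj).2.1.2 e ej).1 n
    have b2 := hrt u hu _ (cl_step hx ⟨⟨e, he, rfl, rfl⟩, n⟩)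
    refine Or.inr ⟨j, hj, b1, ?_⟩
    rcases ih with rfl | ⟨i, hi, b3, c, b4, b5, b6, b7⟩
    · obtain ⟨c, b4, b5⟩ := ((hI j hj).2.2.2.1 e ej).resolve_left fun m => kn j hj _ m hu
      have b6 := b2.trans (cy c _ b5)
      exact ⟨c, b4, b5, b6, ReflTransGen.single
        ⟨Or.inl b5, Or.inr ⟨mem_biUnion hj b1, b6⟩, e, he, rfl, rfl⟩⟩
    · obtain rfl := same i hi j hj _ b3 (ke j hj e ej (kn i hi _ b3))
      have b8 := b2.trans (cy c _ b5)
      exact ⟨c, b4, b5, b8, b7.tail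
        ⟨Or.inr ⟨mem_biUnion hi b3, b6⟩, Or.inr ⟨mem_biUnion hi b1, b8⟩, e, he, rfl, rfl⟩⟩
  have root : ∀ i ∈ I, ∀ v ∈ K i, ∃ c ∈ Cs i, ∃ u ∈ ch.cell t c, rt v = c ∧
      M.EL vx C (ch.colm t (⋃ i ∈ I, K i) rt c) u v := by
    intro i hi v hv
    obtain ⟨u, hu, m⟩ := lk i hi v hv
    obtain ⟨w, hw, m⟩ := last hu m
    rcases key w hw v m with rfl | ⟨j, hj, b3, c, b4, b5, b6, b7⟩
    · exact (kn i hi _ hv hw).elim
    · obtain rfl := same i hi j hj v hv b3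
      exact ⟨c, b4, w, b5, b6, b7⟩
  have en : ∀ e ∈ C, vx (M.a e) ∉ ch.core t → ∃ c, ch.cen μ c ∧
      vx e ∈ ch.colm t (⋃ i ∈ I, K i) rt c ∧ vx (M.a e) ∈ ch.colm t (⋃ i ∈ I, K i) rt c := by
    intro e he n
    obtain ⟨j, hj, ej⟩ := ce e he fun m => n m.2.2
    obtain ⟨u, hu, m⟩ : ∃ u ∈ ch.core t, vx e ∈ cl (Away M vx C (ch.core t)) u := by
      by_cases c : vx e ∈ ch.core t
      · exact ⟨_, c, cl_self _ _⟩
      · obtain ⟨u, hu, m⟩ := lk j hj _ (ke j hj e ej c)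
        exact last hu m
    rcases key u hu _ (cl_step m ⟨⟨e, he, rfl, rfl⟩, n⟩) with b | ⟨i, hi, b3, c, b4, b5, b6, -⟩
    · exact (n (b ▸ hu)).elim
    refine ⟨c, (hI i hi).2.2.1 c b4, ?_, Or.inr ⟨mem_biUnion hi b3, b6⟩⟩
    rcases key u hu _ m with b | ⟨i', hi', b7, -⟩
    · exact Or.inl (b ▸ b5)
    · exact Or.inr ⟨mem_biUnion hi' b7, (hrt u hu _ m).trans (cy c u b5)⟩
  refine ⟨rt, C, ⟨a3, a1, ?_, a4, fun e he => ?_, fun v hv => ?_⟩, a2, fun i hi v hv => ?_,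
    fun i hi e he D hD _ d1 d2 => ?_⟩
  · exact disjoint_iUnion₂_left.2 fun i hi => (hI i hi).1
  · by_cases c : vx (M.a e) ∈ ch.core t
    · have eS := a3.1 he.1
      obtain ⟨c', b1, b2, b3⟩ := en (M.a e) (a3.2 e he.1).1
        (by rw [h.gk.aa eS]; exact fun m => he.2 ⟨eS, m, c⟩)
      rw [h.gk.aa eS] at b3
      exact ⟨c', b1, b3, b2⟩
    · exact en e he.1 c
  · obtain ⟨i, hi, hv⟩ := mem_iUnion₂.1 hv
    obtain ⟨c, b1, u, b2, rfl, b3⟩ := root i hi v hv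
    exact ⟨(hI i hi).2.2.1 _ b1, u, b2, b3⟩
  · obtain ⟨c, b1, u, -, rfl, -⟩ := root i hi v hv
    exact b1
  · by_contra n
    have eS := (hI i hi).2.1.1 he
    obtain ⟨u, hu, m⟩ := lk i hi _ (hD d1)
    refine kn i hi u (hD (cl_ind (P := fun v => v ∈ D) d1 ?_ ((st_sy h a3).symm trivial m))) hu
    rintro _ _ - ih ⟨x, hx, rfl, rfl⟩
    have b := kn i hi _ (hD ih)
    obtain ⟨j, hj, xj⟩ := ce x hx fun m => b m.2.1
    obtain rfl := same i hi j hj _ (hD ih) (ke j hj x xj b)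
    refine d2 x xj (fun m => n ?_) ih
    rcases (h.gk.mem_eo eS).1 m with rfl | rfl | rfl | rfl
    · exact hx
    · exact (h.gk.es_a a3 eS).1 hx
    · exact (h.gk.es_c a3 eS).1 hx
    · exact (h.gk.es_c a3 eS).1 ((h.gk.es_a a3 (h.gk.cm eS)).1 hx)

end Pool.Agent.MP_9d78a0_co.gm

end MrgPart2

-- ======== part 3: formerly Pool.Agent.MP_9d78a0_co.gm.RFull
section MrgPart3

/-! Routing: a complete system of bands makes every edge set along the bands full. -/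

set_option autoImplicit false

namespace Pool.Agent.MP_9d78a0_co.gm

open Set Function

namespace RFull

variable {Φ V : Type} {M : FM Φ} {vx : Φ → V}

theorem z2 (a : ZMod 2) : a + a = 0 := by revert a; decide

theorem z2eq {a b : ZMod 2} (h : a + b = 0) : a = b := by revert a b; decide

theorem vxb (ho : M.Ok) (hl : M.Lbl vx) {f : Φ} (hf : f ∈ M.S) : vx (M.b f) = vx f :=
  ((hl f hf _ (ho.ib f hf).1).2 (Relation.ReflTransGen.single (Or.inl rfl))).symm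

theorem vxc (ho : M.Ok) (hl : M.Lbl vx) {f : Φ} (hf : f ∈ M.S) : vx (M.c f) = vx f :=
  ((hl f hf _ (ho.ic f hf).1).2 (Relation.ReflTransGen.single (Or.inr rfl))).symm

theorem es_empty : M.Es ∅ := ⟨empty_subset _, fun _ h => h.elim⟩

/-- a submap of a submap -/
theorem sub_sub (ho : M.Ok) {U T : Set Φ} (hU : M.Es U) (hT : M.Es T) (h : U ⊆ T) :
    ((M.sub T).sub U).eg = (M.sub U).eg := by
  have h1 := transS Φ M T ∅ U ∅ ho hT es_empty hU es_empty h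
  have e : ((∅ : Set Φ) \ T) ∪ (∅ ∩ T) = ∅ := by simp
  rw [e] at h1
  have hT' : (M.minor T ∅).Ok := (minorS Φ M T ∅ ho hT es_empty).1
  have hU' : (M.minor T ∅).Es U := ⟨h, hU.2⟩
  have h2 : ((M.minor T ∅).minor U ∅).Ok := (minorS Φ _ U ∅ hT' hU' es_empty).1
  exact ((sameS Φ _ _ h2 h1).2.1).symm

theorem sub_le (ho : M.Ok) {U T : Set Φ} (hU : M.Es U) (hT : M.Es T) (h : U ⊆ T) :
    (M.sub U).eg ≤ (M.sub T).eg := by
  rw [← sub_sub ho hU hT h]
  have hT' : (M.sub T).Ok := (minorS Φ M T ∅ ho hT es_empty).1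
  exact (monoS Φ _ hT').2 U ∅ ⟨h, hU.2⟩ es_empty

/-- evenness does not change when a coboundary is added -/
theorem ev_add (ho : M.Ok) (hl : M.Lbl vx) (ψ : V → ZMod 2) {β β' : Φ → ZMod 2}
    (h : ∀ f ∈ M.S, β' f = β f + ψ (vx f) + ψ (vx (M.a f))) {f : Φ} (hf : f ∈ M.S)
    (he : Ev M.a M.b β 0 f) : Ev M.a M.b β' 0 f := by
  obtain ⟨χ, h1, h2⟩ := he
  have hs := (orbS Φ M.S M.a M.b ho.ia ho.ib f hf).1
  refine ⟨fun g => χ g + ψ (vx g), fun g hg => ?_, fun g hg => ?_⟩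
  · have := z2 (ψ (vx g))
    show χ (M.a g) + ψ (vx (M.a g)) = χ g + ψ (vx g) + β' g
    rw [h1 g hg, h g (hs hg)]
    linear_combination -this
  · show χ (M.b g) + ψ (vx (M.b g)) = χ g + ψ (vx g) + 0
    rw [h2 g hg, vxb ho hl (hs hg)]
    simp

theorem fo_sub_reg (U : Set Φ) (p : Φ) : M.fo p ⊆ M.reg U p := by
  intro x h
  induction h with
  | refl => exact Relation.ReflTransGen.refl
  | tail _ k ih => exact Relation.ReflTransGen.tail ih (k.elim Or.inl fun k => Or.inr (Or.inl k))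

theorem fo_symm (ho : M.Ok) {p f : Φ} (hp : p ∈ M.S) (h : f ∈ M.fo p) : p ∈ M.fo f := by
  have := (orbS Φ M.S M.a M.b ho.ia ho.ib p hp).2 f h
  show p ∈ orb M.a M.b f
  rw [this]
  exact Relation.ReflTransGen.refl

theorem big_sub {g : ℕ} {B : Fin g × Fin g → Set V} {G : SimpleGraph V} {D D' : Set V}
    (hB : Model (fb.grid g) G D' B) (hD : D' ⊆ D) : big G B D ∅ ⊆ D := by
  rintro v ⟨i, j, -, w, hw, hl⟩
  rcases Relation.ReflTransGen.cases_tail hl with rfl | ⟨u, -, h⟩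
  · obtain ⟨k, hk⟩ := mem_iUnion.1 hw
    rcases hk with hk | hk <;> exact hD (hB.1 _ hk)
  · exact h.2.1.1

theorem segA_sub {H : Set V} {ch : Ch V} {bn : Bn V} {t μ : ℕ} (hb : bn.Ok ch M vx H t μ)
    (ht : t ≤ μ) (hs : 2 * μ < ch.s) {b : ℕ} (hr : b < bn.r) (e : Bool) :
    bn.segA ch t b e ⊆ ch.core t := by
  have h2 := hb.two
  have h0 := hb.cen b hr e 0 (by omega)
  have h1 := hb.cen b hr e (bn.w - 1) (by omega)
  rintro v ⟨hv, a1, a2, a3, a4⟩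
  simp only [Ch.cen] at h0 h1
  simp only [Bn.lo, Bn.hi] at a3 a4
  refine ⟨hv, a1, by omega, by omega, by omega⟩

/-- an admissible function that vanishes along the bands has a potential -/
theorem cob (hC : CoreS) {k q g : ℕ} {H : Set V} {B : Fin g × Fin g → Set V} {ch : Ch V}
    {bn : Bn V} {t μ : ℕ} (hst : Stg k q M vx H B ch) (hb : bn.Ok ch M vx H t μ) (ht : t ≤ μ)
    (hs : 2 * μ < ch.s) (hc : bn.Complete ch M vx H t) {E : Set Φ}
    (hcore : M.ind vx (ch.core t) ⊆ E)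
    (hE : ∀ b < bn.r, ∃ u ∈ bn.segA ch t b false, ∃ v ∈ bn.segA ch t b true,
      M.EL vx (E ∩ M.ind vx (bn.disc ch t b)) univ u v)
    {β : Φ → ZMod 2} (hβ : M.Adm vx H β) (h0 : ∀ f ∈ E, β f = 0) : M.Cob vx β (M.tv vx H) := by
  refine hc β hβ fun b hr => ?_
  obtain ⟨ε, ψ, ψ', p1, p2, p3, p4⟩ := hb.par β hβ b hr
  obtain ⟨hcon, -, -, -, -, huni, -⟩ := hC k q g Φ V M vx H B ch t hst (by omega)
  obtain ⟨κ, hκ⟩ := huni β (fun _ => 0) ψ _ hcon hβ.1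
    (fun f hf => by rw [h0 f (hcore hf)]; simp) p1
  obtain ⟨u, hu, v, hv, hw⟩ := hE b hr
  have huv : ψ' v = ψ' u := by
    clear hv
    induction hw with
    | refl => rfl
    | tail _ h ih =>
      obtain ⟨-, -, x, hx, rfl, rfl⟩ := h
      have := p2 x hx.2
      rw [h0 x hx.1] at this
      rw [← ih]
      exact (z2eq this.symm).symm
  have e1 := p3 u hu
  have e2 := p4 v hv
  rw [hκ u (segA_sub hb ht hs hr _ hu)] at e1
  rw [hκ v (segA_sub hb ht hs hr _ hv)] at e2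
  have hε : ε = 0 := by linear_combination huv + e1 - e2
  rw [hε] at p4
  exact ⟨ψ, ψ', p1, p2, p3, p4⟩

end RFull

open RFull in
theorem fullS (hC : CoreS) : FullS := by
  intro k q g n Φ V M vx H B ch bn t μ hst hnf hb _ ht hs hc E hE hcore hEt hw
  have ho := hst.hm.ok
  have hl := hst.hm.lbl
  obtain ⟨hlbl, hind, -⟩ := gphS orbS minorS Φ V M vx ho hl
  obtain ⟨hf1, hf2⟩ := hnf ∅ (empty_subset _) (by simp)
  obtain ⟨K, hK⟩ : ∃ K, K = big (M.gph vx) B (M.tv vx H) ∅ := ⟨_, rfl⟩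
  rw [← hK] at hf1 hf2
  have hKt : K ⊆ M.tv vx H := hK ▸ big_sub hst.model sdiff_subset
  have hKT : M.ind vx K ⊆ M.ind vx (M.tv vx H) := fun f hf => ⟨hf.1, hKt hf.2.1, hKt hf.2.2⟩
  have key := fun β => cob hC hst hb ht hs hc hcore hw (β := β)
  refine ⟨?_, fun p hp q' hq hpH hqH hreg => ?_⟩
  · obtain ⟨T, hT⟩ : ∃ T, T = M.ind vx (M.tv vx H) := ⟨_, rfl⟩
    have hTs : M.Es T := hT ▸ hind _
    rw [← hT] at hKT hEt
    have hle := (monoS Φ M ho).2 E ∅ hE es_empty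
    by_contra hne
    have hlt : ((M.sub T).sub E).eg < (M.sub T).eg := by
      rw [sub_sub ho hE hTs hEt]
      have h1 := sub_le ho (hind K) hTs hKT
      have h2 : (M.sub E).eg < M.eg := lt_of_le_of_ne hle hne
      omega
    have hN : (M.sub T).Ok := (minorS Φ M T ∅ ho hTs es_empty).1
    obtain ⟨β0, χ, c1, c2, c3, c4, e, he, c5, c6⟩ := noCobS Φ _ E hN ⟨hEt, hE.2⟩ hlt
    obtain ⟨β, d1, d2, d3⟩ := ext2S Φ M T β0 ho hTs c1 fun f hf => by
      have hs := (orbS Φ _ _ _ hN.ia hN.ib f hf).1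
      exact ⟨χ, fun x hx => c2 x (hs hx), fun x hx => c3 x (hs hx)⟩
    obtain ⟨ψ, hψ⟩ := key β ⟨d1, fun f hf _ => d3 f hf⟩ fun f hf => by
      rw [d2 f (hEt hf), c4 f hf]
    rw [← hT] at hψ
    have hinv : ∀ y, Relation.ReflTransGen (fun x y => y = (M.sub T).b x ∨ y = (M.sub T).c x ∨
        (β0 x = 0 ∧ y = (M.sub T).a x)) e y → y ∈ (M.sub T).S ∧ ψ (vx y) = ψ (vx e) := by
      intro y hy
      induction hy with
      | refl => exact ⟨he, rfl⟩
      | @tail x y _ h ih =>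
        obtain ⟨hx, ih⟩ := ih
        rcases h with rfl | rfl | ⟨h, rfl⟩
        · exact ⟨(hN.ib x hx).1, by rw [vxb hN (hlbl T hTs) hx, ih]⟩
        · exact ⟨(hN.ic x hx).1, by rw [vxc hN (hlbl T hTs) hx, ih]⟩
        · refine ⟨(hN.ia x hx).1, ?_⟩
          have := hψ x hx
          rw [d2 x hx, h] at this
          rw [← ih]
          exact (z2eq this.symm).symm
    have h1 := (hinv _ c6).2
    have h2 := hψ e he
    rw [d2 e he, c5] at h2
    have h3 : ψ (vx (M.a e)) = ψ (vx e) := h1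
    rw [h3, z2] at h2
    exact absurd h2 (by decide)
  · by_contra hne
    have hqp : q' ∉ M.fo p := fun h => hne (hf2 p hp q' hq hpH hqH (fo_sub_reg _ p h))
    obtain ⟨β, c1, c2, c3, c4⟩ := dualWS Φ M E p q' ho hE hp hreg hqp
    obtain ⟨ψ, hψ⟩ := key β ⟨c1, fun f hf hd => c4 f hf
      (fun h => disjoint_left.1 hd ⟨p, fo_symm ho hp h, rfl⟩ hpH)
      (fun h => disjoint_left.1 hd ⟨q', fo_symm ho hq h, rfl⟩ hqH)⟩ c2
    obtain ⟨β', hβ'⟩ : ∃ β' : Φ → ZMod 2,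
        ∀ f, β' f = β f + ψ (vx f) + ψ (vx (M.a f)) := ⟨_, fun _ => rfl⟩
    have hr := regBS orbS minorS Φ M _ ho (hind K) p hp
    have hev : Ev M.a M.b β' 0 p := by
      refine sumS Φ M (M.ind vx K) β' ho (hind K) (fun f hf => ⟨?_, ?_⟩) (fun f hf => ?_) p hp
        fun x hx hxp => ev_add ho hl ψ (fun f _ => hβ' f) (hr.1 hx) (c4 x (hr.1 hx) hxp fun h => ?_)
      · rw [hβ', hβ', (c1 f hf).1, (ho.ia f hf).2.1]
        ring
      · rw [hβ', hβ', (c1 f hf).2, (ho.ac f hf).1, vxc ho hl hf, vxc ho hl (ho.ia f hf).1]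
      · rw [hβ', hψ f (hKT hf)]
        have h1 := z2 (ψ (vx f))
        have h2 := z2 (ψ (vx (M.a f)))
        linear_combination h1 + h2
      · refine hne (hf2 p hp q' hq hpH hqH ?_)
        rw [← hr.2.1 x hx]
        exact fo_sub_reg _ x (fo_symm ho hq h)
    refine c3 (ev_add ho hl ψ (fun f _ => ?_) hp hev)
    rw [hβ']
    have h1 := z2 (ψ (vx f))
    have h2 := z2 (ψ (vx (M.a f)))
    linear_combination -h1 - h2

end Pool.Agent.MP_9d78a0_co.gm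

end MrgPart3

-- ======== part 4: formerly Pool.Agent.MP_9d78a0_co.gm.RSrc
section MrgPart4

/-! Routing, row SRC: the star map of a source. -/

set_option autoImplicit false

namespace Pool.Agent.MP_9d78a0_co.gm

open Set Function Sum

namespace RSrc

variable {Φ V U : Type} {M : FM Φ} {vx : Φ → V} {Hf C : Set Φ} {g0 : Φ}

open Classical in
theorem flat (O : ℕ → Φ) (p : Φ → Prop) (g : Φ → ℕ) (l : List ℕ) :
    (l.map O).flatMap (fun f => if p f then [g f] else []) =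
      (l.filter fun i => decide (p (O i))).map fun i => g (O i) := by
  induction l with
  | nil => rfl
  | cons i l ih =>
    rw [List.map_cons, List.flatMap_cons, ih]
    by_cases c : p (O i) <;> simp [c]

/-- the walk round the contracted tree is a subsequence of the walk round the tree -/
theorem steps (g1 : g0 ∈ M.S \ C) {n n' : ℕ}
    (t : M.Turn C (fun i => (M.wk C)^[i] g0) n)
    (t' : (M.minor (M.S \ C) C).Turn ∅ (fun i => ((M.minor (M.S \ C) C).wk ∅)^[i] g0) n') :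
    ∃ s : ℕ → ℕ, StrictMono s ∧ (∀ i < n', s i < n) ∧
      ∀ i, ((M.minor (M.S \ C) C).wk ∅)^[i] g0 = (M.wk C)^[s i] g0 := by
  let d : ℕ → ℕ := fun k => sInf {d | (M.wk C)^[d] ((M.wk C)^[k + 1] g0) ∈ M.S \ C}
  let s : ℕ → ℕ := fun i => Nat.rec 0 (fun _ k => d k + (k + 1)) i
  have s1 : ∀ i, s (i + 1) = d (s i) + (s i + 1) := fun _ => rfl
  have e : ∀ i, ((M.minor (M.S \ C) C).wk ∅)^[i] g0 = (M.wk C)^[s i] g0 := fun i => by
    induction i with
    | zero => rfl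
    | succ i ih =>
      have m : (M.wk C)^[s i] g0 ∈ M.S \ C := ih ▸ t'.mem i
      have k : M.b (M.c ((M.wk C)^[s i] g0)) = (M.wk C)^[s i + 1] g0 := by
        rw [iterate_succ_apply', FM.wk, if_neg m.2]
      rw [iterate_succ_apply', ih, s1, iterate_add_apply, FM.wk, if_neg (notMem_empty _), ← k]
      show ret (M.wk C) (M.S \ C) (M.b (M.c _)) = _
      rw [ret, k]
  refine ⟨s, strictMono_nat_of_lt_succ fun i => by rw [s1]; omega, fun i hi => ?_, e⟩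
  induction i with
  | zero => exact t.pos
  | succ i ih =>
    have a := ih (by omega)
    have z : (M.wk C)^[n] g0 = g0 := (t.per n 0).2 (by simp [Nat.ModEq])
    have b : d (s i) ≤ n - (s i + 1) := Nat.sInf_le (by
      show (M.wk C)^[n - (s i + 1)] ((M.wk C)^[s i + 1] g0) ∈ M.S \ C
      rw [← iterate_add_apply, Nat.sub_add_cancel a, z]
      exact g1)
    refine lt_of_le_of_ne (by rw [s1]; omega) fun c => ?_
    have k := (t'.per (i + 1) 0).1 (by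
      show _ = g0
      rw [e, c, z])
    have := Nat.ModEq.eq_of_lt_of_lt k hi t'.pos
    omega

theorem star_of (h : M.Ok) (hl : M.Lbl vx) (hC : M.Es C) (br : ∀ e ∈ C, M.BrIn C e)
    (sub : Hf ⊆ M.S \ C) (cls : ∀ f ∈ Hf, M.b f ∈ Hf ∧ M.c f ∈ Hf ∧ M.a f ∉ Hf)
    (g1 : g0 ∈ M.S \ C) (g2 : g0 ∉ Hf) (all : ∀ g ∈ M.S, g ∉ Hf → g ∈ (M.gh C ∅).co g0)
    (one : ∀ f ∈ Hf, ∀ g ∈ Hf, g ∈ M.fo f → g = f ∨ g = M.b f) {ν : Φ → U}
    (hν : ∀ p ∈ Hf, ∀ p' ∈ Hf, ν p = ν p' ↔ vx (M.a p) = vx (M.a p')) :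
    ∃ L, (M.minor (M.S \ C) C).Star Hf L ∧ (M.minor (M.S \ C) C).Draw Hf L 1 ν ∧
      (∀ f ∈ Hf, (M.minor (M.S \ C) C).b f = M.b f) ∧
      ((∃ o, (M.minor (M.S \ C) C).Ori o) → ∃ o, M.Ori o) := by
  classical
  have hU : M.Es (M.S \ C) := h.gk.es_diff h.gk.es_S hC
  obtain ⟨hW, hm⟩ := minorS Φ M _ C h hU hC
  obtain ⟨eg, fv⟩ := forestS Φ M C h hC br
  have wb : ∀ f ∈ Hf, (M.minor (M.S \ C) C).b f = M.b f := fun f hf => by
    show ret _ _ _ = _
    rw [ret, Nat.sInf_eq_zero.2 (Or.inl (show _ ∈ M.S \ C from sub (cls f hf).1))]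
    rfl
  have wa : (M.minor (M.S \ C) C).a = M.a := rfl
  have wc : (M.minor (M.S \ C) C).c = M.c := rfl
  have wS : (M.minor (M.S \ C) C).S = M.S \ C := rfl
  obtain ⟨n, t⟩ := turnS Φ M C h hC g0 g1.1
  obtain ⟨n', t'⟩ := turnS Φ _ ∅ hW FM.es_empty g0 g1
  obtain ⟨s, s1, s2, s3⟩ := steps g1 t t'
  have wo : ∀ f ∈ Hf, (M.minor (M.S \ C) C).fo f ⊆ M.fo f := fun f hf => by
    rw [(hm f (sub hf)).2.1]
    refine inter_subset_left.trans (cl_le (h.gk.gh hU hC).1.sF ?_ (sub hf).1)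
    rintro x hx y (rfl | rfl)
    · exact cl_one (Or.inl (if_pos ((em (x ∈ C)).symm.imp (fun k => ⟨hx, k⟩) id)))
    · exact cl_one (Or.inr rfl)
  have back : (M.minor (M.S \ C) C).Con → (∃ o, (M.minor (M.S \ C) C).Ori o) → ∃ o, M.Ori o := by
    rintro con ⟨o, ho⟩
    obtain ⟨d1, d2, d3⟩ := dualS Φ M h
    obtain ⟨d4, d5, -⟩ := dualS Φ _ hW
    have i := (d3 _ C hU hC).iso
    rw [show M.S \ (M.S \ C ∪ C) = ∅ from sdiff_eq_empty.2 fun x hx =>
      (em (x ∈ C)).symm.imp (fun k => ⟨hx, k⟩) id] at i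
    obtain ⟨o', k, -⟩ := (oriC Φ M.dual d1).2 (M.S \ C) _ ⟨hU.1, fun f hf => (hU.2 f hf).symm⟩
      ((i.con d4).2 fun f hf g hg => Relation.ReflTransGen.mono (fun x y e => by
        rcases e with e | e | e
        exacts [Or.inr (Or.inr e), Or.inr (Or.inl e), Or.inl e]) _ _ (con f hf g hg))
      ((i.eg d4).trans (d5.trans (eg.trans d2.symm)))
      (i.ori' d4 (o := o) fun f hf => ⟨(ho f hf).2.2, (ho f hf).2.1, (ho f hf).1⟩)
    exact ⟨o', fun f hf => ⟨(k f hf).2.2, (k f hf).2.1, (k f hf).1⟩⟩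
  generalize hO : (fun i => ((M.minor (M.S \ C) C).wk ∅)^[i] g0) = O at t'
  have o0 : O 0 = g0 := by rw [← hO]; rfl
  have os : ∀ i, O i = (M.wk C)^[s i] g0 := fun i => by rw [← hO]; exact s3 i
  generalize M.minor (M.S \ C) C = W at *
  have st : ∀ i, O (i + 1) = W.b (W.c (O i)) := fun i => by
    rw [t'.step, FM.wk, if_neg (notMem_empty _)]
  have hv : ∀ f, f ∈ W.S \ Hf ↔ f ∈ W.vo g0 := fun f => by
    refine ⟨fun k => ?_, fun k => ⟨hW.vo_mem (wS ▸ g1) k, fun c => g2 ?_⟩⟩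
    · rw [fv g0 g1]
      rw [wS] at k
      exact ⟨all f k.1.1 k.2, k.1.2⟩
    · refine cl_ind (r := W.rV) (P := fun x => x ∈ Hf) c ?_ (hW.vo_symm (wS ▸ g1) k)
      rintro x y - hx (rfl | rfl)
      exacts [wb x hx ▸ (cls x hx).1, wc ▸ (cls x hx).2.1]
  have fc : ∀ f, f ∈ W.vo g0 ↔ ∃ i < n', f = O i ∨ f = W.b (O i) := fun f => by
    rw [← t'.face, o0]
    have e : W.ga ∅ ∅ = W.c := funext fun x => if_neg fun k => k.elim id id
    show _ ↔ f ∈ orb (W.ga ∅ ∅) W.b g0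
    rw [e, CSame.orb_comm]
    rfl
  have con : W.Con := by
    have k : ∀ f ∈ W.S, f ∈ W.co g0 := fun f hf => by
      have v : ∀ x ∈ W.S \ Hf, x ∈ W.co g0 := fun x hx =>
        cl_le hW.gk.sV (fun _ _ _ e => cl_one (Or.inr e)) (wS ▸ g1) ((hv x).1 hx)
      by_cases c : f ∈ Hf
      · exact cl_step (v _ ⟨hW.gk.am hf, wa ▸ (cls f c).2.2⟩) (Or.inl (hW.gk.aa hf).symm)
      · exact v f ⟨hf, c⟩
    exact fun f hf g hg => cl_trans (hW.gk.sC.symm (wS ▸ g1) (k f hf)) (k g hg)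
  refine ⟨(List.range n').map O, ⟨hW, wS ▸ sub, fun f hf => ?_, fun f => ?_, ?_, fun i hi => ?_,
    fun f hf g hg k => ?_⟩, ?_, wb, back con⟩
  · rw [wb f hf, wa, wc]
    exact cls f hf
  · simp only [List.mem_map, List.mem_range]
    refine ⟨fun k => ?_, fun k => (hv f).2 ?_⟩
    · obtain ⟨i, hi, e | e⟩ := (fc f).1 ((hv f).1 k)
      · exact Or.inl ⟨i, hi, e.symm⟩
      · refine Or.inr ⟨_, ⟨(i + (n' - 1)) % n', Nat.mod_lt _ t'.pos, rfl⟩, ?_⟩
        have a : O ((i + (n' - 1)) % n' + 1) = O i := (t'.per _ _).2 (by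
          have := t'.pos
          refine ((Nat.mod_modEq _ _).add_right 1).trans ?_
          rw [show i + (n' - 1) + 1 = i + n' by omega]
          simp [Nat.ModEq])
        rw [e, ← a, st, hW.gk.bb (hW.gk.cm (t'.mem _))]
    · rcases k with ⟨i, hi, rfl⟩ | ⟨_, ⟨i, hi, rfl⟩, rfl⟩
      · exact (fc _).2 ⟨i, hi, Or.inl rfl⟩
      · exact cl_step ((fc _).2 ⟨i, hi, Or.inl rfl⟩) (Or.inr rfl)
  · have inj : ∀ i ∈ List.range n', ∀ j ∈ List.range n', O i = O j → i = j := fun i hi j hj e =>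
      Nat.ModEq.eq_of_lt_of_lt ((t'.per i j).1 e) (List.mem_range.1 hi) (List.mem_range.1 hj)
    refine List.nodup_append.2 ⟨List.Nodup.map_on inj List.nodup_range, ?_, ?_⟩
    · rw [List.map_map]
      refine List.Nodup.map_on (fun i hi j hj e => inj i hi j hj ?_) List.nodup_range
      rw [← hW.gk.cc (t'.mem i), ← hW.gk.cc (t'.mem j)]
      exact congrArg W.c e
    · simp only [List.mem_map]
      rintro _ ⟨i, -, rfl⟩ _ ⟨_, ⟨j, -, rfl⟩, rfl⟩ e
      exact t'.two (j + 1) i (by rw [st, e])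
  · simp only [List.getElem_map, List.getElem_range, List.length_map, List.length_range]
    rw [← st]
    exact (t'.per _ _).2 (Nat.mod_modEq _ _).symm
  · rw [wb f hf]
    exact one f hf g hg (wo f hf k)
  · obtain ⟨code, inj⟩ := countable_iff_exists_injOn.1 (h.fin.image vx).countable
    have aa : ∀ p ∈ Hf, M.a (M.a p) ∈ Hf := fun p hp => (h.gk.aa (sub hp).1).symm ▸ hp
    refine ⟨fun f => if M.a f ∈ Hf then [code (vx f)] else [], fun f hf => ?_, fun p hp => ?_,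
      fun x y ne k => ?_, fun p hp p' hp' => ?_⟩
    · have m : f ∈ M.S := (wS ▸ hf.1 : f ∈ M.S \ C).1
      have c : M.a (M.c f) ∈ Hf ↔ M.a f ∈ Hf := by
        rw [(h.ac f m).1]
        exact ⟨fun k => h.gk.cc (h.gk.am m) ▸ (cls _ k).2.1, fun k => (cls _ k).2.1⟩
      simp only [wa, wc, c, hl.c h m, h.gk.aa m, hf.2, if_false]
      by_cases d : M.a f ∈ Hf <;> simp [d]
    · simp only [wa, aa p hp, if_true, List.length_singleton]
    · rw [flat O (fun f => M.a f ∈ Hf) fun f => code (vx f)] at k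
      obtain ⟨l, l1, l2⟩ := List.sublist_map_iff.1 k
      obtain ⟨i1, i2, i3, i4, rfl⟩ : ∃ i1 i2 i3 i4, l = [i1, i2, i3, i4] := by
        have := congrArg List.length l2
        match l, this with
        | [i1, i2, i3, i4], _ => exact ⟨_, _, _, _, rfl⟩
      have l3 := l1.trans List.filter_sublist
      have p := List.pairwise_lt_range.sublist l3
      have q : i4 < n' := List.mem_range.1 (l3.subset (by simp))
      simp only [List.pairwise_cons, List.mem_cons, List.not_mem_nil, or_false, forall_eq_or_imp,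
        forall_eq] at p
      simp only [List.map_cons, List.map_nil, List.cons.injEq, and_true, os] at l2
      obtain ⟨e1, e2, e3, e4⟩ := l2
      have m : ∀ i, vx ((M.wk C)^[i] g0) ∈ vx '' M.S := fun i => ⟨_, t.mem i, rfl⟩
      have z : (M.sub C).eg = 0 := by
        rw [(treeS Φ V M vx ∅ C h hl FM.es_empty hC (empty_subset _) fun e he => br e he.1).1]
        simp [FM.eg, FM.sub, FM.minor]
      refine xfS Φ V M vx C _ n (s i1) (s i2) (s i3) (s i4) {vx ((M.wk C)^[s i1] g0)}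
        {vx ((M.wk C)^[s i2] g0)} h hl hC z t (s1 p.1.1) (s1 p.2.1.1) (s1 p.2.2.1)
        (by have := s2 i4 q; omega) (disjoint_singleton.2 fun c => ne (by rw [e1, e2, c])) rfl rfl
        ?_ ?_
      · rw [inj (m _) (m _) (e1.symm.trans e3)]
        exact Relation.ReflTransGen.refl
      · rw [inj (m _) (m _) (e2.symm.trans e4)]
        exact Relation.ReflTransGen.refl
    · simp only [wa, aa p hp, aa p' hp', if_true, List.getD_cons_zero]
      rw [hν p hp p' hp']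
      refine ⟨fun k => k ▸ Relation.EqvGen.refl _, fun k => inj ⟨_, h.gk.am (sub hp).1, rfl⟩
        ⟨_, h.gk.am (sub hp').1, rfl⟩ ?_⟩
      generalize code (vx (M.a p)) = x at k
      generalize code (vx (M.a p')) = y at k
      induction k with
      | rel x y r =>
        obtain ⟨f, -, a, i, b, -⟩ := r
        rw [wa] at a
        simp [a] at b
      | refl => rfl
      | symm _ _ _ ih => exact ih.symm
      | trans _ _ _ _ _ a b => exact a.trans b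

end RSrc

open RSrc in
theorem srcS (hR : RimS) : SrcS := by
  classical
  intro Ψ U S sx Mk h hl con bip
  rcases S.S.eq_empty_or_nonempty with e | ⟨f1, hf1⟩
  · have q : S.fl sx Mk = ∅ := by simp [FM.fl, e]
    refine ⟨Ψ, S, [], id, fun f => sx (S.a f), injOn_id _, ?_, rfl, fun f _ => ⟨rfl, rfl, rfl⟩,
      fun o ho => ⟨o, ho, fun _ _ => Iff.rfl⟩, id, fun _ => [], by simp [e], by simp [q],
      fun x y _ => by simp, by simp [q]⟩
    exact ⟨h, by simp [q], by simp [q], by simp [e], by simp, fun _ k => by simp at k, by simp [q]⟩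
  have qa : ∀ x ∈ S.S, S.a x ∈ S.fl sx Mk ↔ x ∉ S.fl sx Mk := fun x hx => by
    simp only [FM.fl, mem_ofPred_eq, hx, h.gk.am hx, true_and, bip x hx, not_not]
  have qb : ∀ x ∈ S.S, S.b x ∈ S.fl sx Mk ↔ x ∈ S.fl sx Mk := fun x hx => by
    simp only [FM.fl, mem_ofPred_eq, hx, h.gk.bm hx, true_and, hl.b h hx]
  have qc : ∀ x ∈ S.S, S.c x ∈ S.fl sx Mk ↔ x ∈ S.fl sx Mk := fun x hx => by
    simp only [FM.fl, mem_ofPred_eq, hx, h.gk.cm hx, true_and, hl.c h hx]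
  have qs : S.fl sx Mk ⊆ S.S := fun _ k => k.1
  generalize S.fl sx Mk = Q at *
  obtain ⟨f0, hf0, n0⟩ : ∃ f0 ∈ S.S, f0 ∉ Q := by
    by_cases c : f1 ∈ Q
    exacts [⟨S.a f1, h.gk.am hf1, fun k => (qa f1 hf1).1 k c⟩, ⟨f1, hf1, c⟩]
  obtain ⟨ok, eg, -, -, -, v1, v2, fo, -, -, o1, o2, lb⟩ := hR Ψ S Q h
    ⟨qs, fun x k => (qb x (qs k)).2 k⟩ fun x k c => (qa x (qs k)).1 c k
  have hl' := lb (U ⊕ Set Ψ) (fun x => inl (sx x)) (fun x => inr {x, S.b x})
    (fun f hf g hg => by rw [← hl f hf g hg, inl.injEq]) (fun x hx y hy => by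
      rw [inr.injEq]
      refine ⟨fun k => (k ▸ mem_insert _ _ : y ∈ ({x, S.b x} : Set Ψ)), ?_⟩
      rintro (rfl | rfl)
      · rfl
      · rw [h.gk.bb (qs hx), pair_comm]) (by rintro x - ⟨y, -, k⟩; cases k)
  have hD : (S.rim Q).Es (inr '' (Q ×ˢ univ)) := ⟨subset_union_right, by
    rintro _ ⟨p, hp, rfl⟩
    exact ⟨⟨(p.1, !p.2.1, p.2.2), ⟨hp.1, trivial⟩, rfl⟩, (p.1, p.2.1, !p.2.2), ⟨hp.1, trivial⟩, rfl⟩⟩
  obtain ⟨C, hCD, hC, br, co⟩ := spanS _ _ _ ok hD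
  have sl : ∀ x ∈ S.S, inl x ∈ (S.rim Q).S \ C := fun x hx =>
    ⟨Or.inl ⟨x, hx, rfl⟩, fun k => by obtain ⟨_, -, k⟩ := hCD k; cases k⟩
  have rv : ∀ x y, y ∈ (S.rim Q).vo x →
      Relation.ReflTransGen (CSpan.St (S.rim Q) (inr '' (Q ×ˢ univ))) x y :=
    fun x y => CSpan.mono fun _ _ e => e.imp id Or.inl
  have r0 : ∀ x ∈ S.S, ∀ y ∈ S.vo x,
      Relation.ReflTransGen (CSpan.St (S.rim Q) (inr '' (Q ×ˢ univ))) (inl x) (inl y) :=
    fun x hx y hy => rv _ _ (v1 x hx ▸ Or.inl ⟨y, hy, rfl⟩)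
  have r1 : ∀ x ∈ Q, ∀ e s, Relation.ReflTransGen (CSpan.St (S.rim Q) (inr '' (Q ×ˢ univ)))
      (inl (S.a x)) (inr (x, e, s)) := fun x hx e s => by
    have k := rv (inl (S.a x)) (inr (x, false, s)) (v1 _ (h.gk.am (qs hx)) ▸
      Or.inr ⟨(x, false, s), ⟨⟨hx, Relation.ReflTransGen.refl⟩, rfl, trivial⟩, rfl⟩)
    cases e
    · exact k
    · exact k.tail (Or.inr (Or.inr ⟨⟨_, ⟨hx, trivial⟩, rfl⟩, rfl⟩))
  have r2 : ∀ x ∈ S.S, (x ∈ Q → Relation.ReflTransGen (CSpan.St (S.rim Q) (inr '' (Q ×ˢ univ)))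
      (inl f0) (inl (S.a x))) ∧ (x ∉ Q → Relation.ReflTransGen
        (CSpan.St (S.rim Q) (inr '' (Q ×ˢ univ))) (inl f0) (inl x)) := fun x hx => by
    refine cl_ind (r := S.rC) (P := fun x => (x ∈ Q → Relation.ReflTransGen _ (inl f0)
      (inl (S.a x))) ∧ (x ∉ Q → Relation.ReflTransGen _ (inl f0) (inl x)))
      ⟨fun k => absurd k n0, fun _ => Relation.ReflTransGen.refl⟩ ?_ (con f0 hf0 x hx)
    intro x y hx ih e
    have m := h.gk.sC.sub hf0 hx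
    rcases e with rfl | rfl | rfl
    · rw [qa x m, h.gk.aa m, not_not]
      exact ih.symm
    · rw [qb x m]
      refine ⟨fun k => ((ih.1 k).trans (r1 x k true true)).trans ((rv _ (inr (S.b x, true, true))
        ((v2 x k true).1 ▸ ⟨(S.b x, true, true), ⟨Or.inr rfl, rfl, trivial⟩, rfl⟩)).trans ?_),
        fun k => (ih.2 k).trans (r0 x m _ (cl_one (Or.inl rfl)))⟩
      exact (CSpan.symm ok hD (sl _ (h.gk.am (h.gk.bm m))).1 (r1 _ ((qb x m).2 k) true true)).2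
    · rw [qc x m, (h.ac x m).1]
      exact ⟨fun k => (ih.1 k).trans (r0 _ (h.gk.am m) _ (cl_one (Or.inr rfl))),
        fun k => (ih.2 k).trans (r0 x m _ (cl_one (Or.inr rfl)))⟩
  obtain ⟨L, st, dr, wb, back⟩ := star_of (Hf := inl '' Q) (g0 := inl f0)
    (ν := Sum.elim (fun x => sx (S.a x)) fun p => sx p.1) ok hl' hC br
    (by rintro _ ⟨x, hx, rfl⟩; exact sl x (qs hx))
    (by
      rintro _ ⟨x, hx, rfl⟩
      refine ⟨(fo x hx).2.2.1 ▸ ⟨_, (qb x (qs hx)).2 hx, rfl⟩, ⟨_, (qc x (qs hx)).2 hx, rfl⟩, ?_⟩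
      rintro ⟨y, hy, k⟩
      exact (qa x (qs hx)).1 (inl_injective k ▸ hy) hx)
    (sl f0 hf0) (fun ⟨y, hy, k⟩ => n0 (inl_injective k ▸ hy))
    (by
      rw [co _ (sl f0 hf0).1]
      rintro _ (⟨x, hx, rfl⟩ | ⟨⟨x, e, s⟩, hx, rfl⟩) k
      · exact CSpan.co_iff.2 ((r2 x hx).2 fun c => k ⟨x, c, rfl⟩)
      · exact CSpan.co_iff.2 (((r2 x (qs hx.1)).1 hx.1).trans (r1 x hx.1 e s)))
    (by
      rintro _ ⟨x, hx, rfl⟩ _ ⟨y, hy, rfl⟩ k
      rw [(fo x hx).2.2.2] at k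
      rw [(fo x hx).2.2.1]
      obtain ⟨z, hz, k⟩ | ⟨_, -, k⟩ := k
      · obtain rfl := inl_injective k
        rcases hz with rfl | rfl | rfl | rfl
        · exact Or.inl rfl
        · exact absurd hx ((qa x (qs hx)).1 hy)
        · exact Or.inr rfl
        · exact absurd ((qb x (qs hx)).2 hx) ((qa _ (h.gk.bm (qs hx))).1 hy)
      · cases k)
    (by
      rintro _ ⟨x, hx, rfl⟩ _ ⟨y, hy, rfl⟩
      exact inl_injective.eq_iff.symm)
  have hU := ok.gk.es_diff ok.gk.es_S hC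
  refine ⟨_, _, L, inl, _, inl_injective.injOn, st, (forestS _ _ C ok hC br).1.trans eg,
    fun f hf => ⟨(wb _ ⟨f, hf, rfl⟩).trans (fo f hf).2.2.1, rfl, rfl⟩,
    fun o ho => ⟨_, (oriC _ _ ok).1 _ C _ hU hC (o1 o ho), fun _ _ => Iff.rfl⟩, fun k => ?_, dr⟩
  obtain ⟨o, ho⟩ := back k
  exact ⟨_, o2 o ho⟩

end Pool.Agent.MP_9d78a0_co.gm

end MrgPart4

-- ======== part 5: formerly Pool.Agent.MP_9d78a0_co.gm.RTw
section MrgPart5

/-! Routing: the crossing function of a loop; corners at marked vertices. -/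

set_option autoImplicit false

namespace Pool.Agent.MP_9d78a0_co.gm

open Set Function Cy

namespace RTw

variable {Φ : Type} {M : FM Φ} {C : Set Φ} {O : ℕ → Φ} {n i1 i2 : ℕ}

/-- the corners after `i1` up to `i2` -/
def P (M : FM Φ) (O : ℕ → Φ) (i1 i2 : ℕ) (g : Φ) : Prop :=
  ∃ i, i1 < i ∧ i ≤ i2 ∧ (g = O i ∨ g = M.b (O i))

theorem P_b (hM : M.Ok) (hT : M.Turn C O n) {g : Φ} (hg : g ∈ M.S) :
    P M O i1 i2 (M.b g) ↔ P M O i1 i2 g := by
  constructor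
  · rintro ⟨i, h1, h2, h | h⟩
    · exact ⟨i, h1, h2, Or.inr (by rw [← h, (hM.ib g hg).2.1])⟩
    · exact ⟨i, h1, h2, Or.inl (by rw [← (hM.ib g hg).2.1, h, (hM.ib _ (hT.mem i)).2.1])⟩
  · rintro ⟨i, h1, h2, rfl | rfl⟩
    · exact ⟨i, h1, h2, Or.inr rfl⟩
    · exact ⟨i, h1, h2, Or.inl (hM.ib _ (hT.mem i)).2.1⟩

theorem P_O (hT : M.Turn C O n) (h2 : i2 < n) {j : ℕ} (hj : j ≤ n) :
    P M O i1 i2 (O j) ↔ i1 < j ∧ j ≤ i2 := by
  constructor
  · rintro ⟨i, a, b, h | h⟩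
    · have e := (hT.per j i).1 h
      rcases hj.eq_or_lt with rfl | hj
      · rw [Nat.ModEq, Nat.mod_self, Nat.mod_eq_of_lt (by omega)] at e
        omega
      · have := e.eq_of_lt_of_lt hj (by omega)
        omega
    · exact (hT.two j i h).elim
  · exact fun h => ⟨j, h.1, h.2, Or.inl rfl⟩

theorem ga_mem (hM : M.Ok) (hC : M.Es C) {g : Φ} (hg : g ∈ M.S) :
    M.ga C ∅ g ∈ M.S ∧ M.ga C ∅ (M.ga C ∅ g) = g := by
  by_cases c : g ∈ C
  · simp [FM.ga, c, (hC.2 g c).1, (hM.ia g hg).1, (hM.ia g hg).2.1]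
  · have : M.c g ∉ C := fun h => c ((hM.ic g hg).2.1 ▸ (hC.2 _ h).2)
    simp [FM.ga, c, this, (hM.ic g hg).1, (hM.ic g hg).2.1]

theorem ga_O (hM : M.Ok) (hC : M.Es C) (hT : M.Turn C O n) (i : ℕ) :
    M.ga C ∅ (O i) = M.b (O (i + 1)) := by
  have h := (hM.ib _ (ga_mem hM hC (hT.mem i)).1).2.1
  rw [hT.step, ← h]
  by_cases c : O i ∈ C <;> simp [FM.wk, FM.ga, c]

theorem P_ga (hM : M.Ok) (hC : M.Es C) (hT : M.Turn C O n) {g : Φ} (h1 : g ≠ O i2)
    (h2 : g ≠ M.ga C ∅ (O i1)) (h : P M O i1 i2 g) : P M O i1 i2 (M.ga C ∅ g) := by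
  obtain ⟨i, a, b, rfl | rfl⟩ := h
  · have : i ≠ i2 := fun e => h1 (e ▸ rfl)
    exact ⟨i + 1, by omega, by omega, Or.inr (ga_O hM hC hT i)⟩
  · obtain ⟨j, rfl⟩ : ∃ j, i = j + 1 := ⟨i - 1, by omega⟩
    rw [← ga_O hM hC hT] at h2 ⊢
    have : j ≠ i1 := fun e => h2 (e ▸ rfl)
    exact ⟨j, by omega, by omega, Or.inl (ga_mem hM hC (hT.mem j)).2⟩

end RTw

open RTw

theorem twS : TwS := by
  classical
  intro Φ M C O n i1 i2 hM hC hT h12 h2 c1 ha
  have cc : ∀ g ∈ M.S, M.c (M.c g) = g := fun g hg => (hM.ic g hg).2.1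
  have aa : ∀ g ∈ M.S, M.a (M.a g) = g := fun g hg => (hM.ia g hg).2.1
  have ac : ∀ g ∈ M.S, M.a (M.c g) = M.c (M.a g) := fun g hg => (hM.ac g hg).1
  have na : ∀ g ∈ M.S, g ∉ C → M.a g ∉ C := fun g hg h k => h (aa g hg ▸ (hC.2 _ k).1)
  have nc : ∀ g ∈ M.S, g ∉ C → M.c g ∉ C := fun g hg h k => h (cc g hg ▸ (hC.2 _ k).2)
  have gc : ∀ g, g ∉ C → M.ga C ∅ g = M.c g := fun g h => by simp [FM.ga, h]
  have ga : ∀ g, g ∈ C → M.ga C ∅ g = M.a g := fun g h => by simp [FM.ga, h]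
  have pr : ∀ j1 j2, O j1 ∉ C → (M.a (O j1) = O j2 ∨ M.a (O j1) = M.c (O j2)) → O j2 ∉ C := by
    rintro j1 j2 h (e | e)
    · exact e ▸ na _ (hT.mem j1) h
    · exact fun k => na _ (hT.mem j1) h (e ▸ (hC.2 _ k).2)
  have c2 := pr i1 i2 c1 ha
  set E : Set Φ := {O i1, M.c (O i1), O i2, M.c (O i2)} with hE
  set χ : Φ → ZMod 2 := fun g => if P M O i1 i2 g then 1 else 0 with hχ
  have m1 := hT.mem i1
  have m2 := hT.mem i2
  have Ea : ∀ g ∈ E, M.a g ∈ E := by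
    have k : M.a (O i2) = O i1 ∨ M.a (O i2) = M.c (O i1) := by
      rcases ha with e | e
      · exact Or.inl (by rw [← e, aa _ m1])
      · exact Or.inr (by rw [← cc _ m2, ← e, ← ac _ m1, aa _ (hM.ic _ m1).1])
    rintro g (rfl | rfl | rfl | rfl)
    · rcases ha with e | e <;> simp [hE, e]
    · rcases ha with e | e <;> simp [hE, ac _ m1, e, cc _ m2]
    · rcases k with e | e <;> simp [hE, e]
    · rcases k with e | e <;> simp [hE, ac _ m2, e, cc _ m1]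
  have Ec : ∀ g ∈ E, M.c g ∈ E := by
    rintro g (rfl | rfl | rfl | rfl) <;> simp [hE, cc _ m1, cc _ m2]
  have EC : ∀ g ∈ E, g ∉ C := by
    rintro g (rfl | rfl | rfl | rfl)
    exacts [c1, nc _ m1 c1, c2, nc _ m2 c2]
  have xO : ∀ j ≤ n, χ (O j) = if i1 < j ∧ j ≤ i2 then 1 else 0 := fun j hj => by
    simp only [hχ, P_O hT h2 hj]
  have xc : ∀ j < n, O j ∉ C → χ (M.c (O j)) = if i1 < j + 1 ∧ j + 1 ≤ i2 then 1 else 0 :=
    fun j hj h => by
      rw [← gc _ h, ga_O hM hC hT, ← xO _ hj]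
      simp only [hχ, P_b hM hT (hT.mem _)]
  have off : ∀ g ∈ M.S, g ∉ E → χ (M.ga C ∅ g) = χ g := by
    have k : ∀ g, g ∉ E → P M O i1 i2 g → P M O i1 i2 (M.ga C ∅ g) := fun g h =>
      P_ga hM hC hT (fun e => h (by simp [hE, e])) fun e => h (by simp [hE, e, gc _ c1])
    intro g hg h
    have h' : M.ga C ∅ g ∉ E := fun e => h (by
      have := Ec _ e
      rwa [← gc _ (EC _ e), (ga_mem hM hC hg).2] at this)
    have : P M O i1 i2 (M.ga C ∅ g) ↔ P M O i1 i2 g :=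
      ⟨fun p => (ga_mem hM hC hg).2 ▸ k _ h' p, k g h⟩
    simp only [hχ, this]
  have onE : ∀ g ∈ E, χ (M.c g) = χ g + 1 := by
    have k1 : χ (M.c (O i1)) = χ (O i1) + 1 := by
      rw [xc _ (by omega) c1, xO _ (by omega), if_pos (by omega), if_neg (by omega), zero_add]
    have k2 : χ (M.c (O i2)) = χ (O i2) + 1 := by
      rw [xc _ h2 c2, xO _ h2.le, if_neg (by omega), if_pos (by omega), z2_add_self]
    rintro g (rfl | rfl | rfl | rfl)
    · exact k1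
    · rw [cc _ m1, k1, add_assoc, z2_add_self, add_zero]
    · exact k2
    · rw [cc _ m2, k2, add_assoc, z2_add_self, add_zero]
  have zero : ∀ f ∈ C, χ f + χ (M.a f) = 0 := fun f hf => by
    rw [← ga f hf, off f (hC.1 hf) fun e => EC f e hf, z2_add_self]
  refine ⟨fun f => χ f + χ (M.a f), fun f hf => ⟨?_, ?_⟩,
    fun f hf => ev_of_pot (χ := χ) hM.ia0 hM.ib0 (fun g _ => ?_) (fun g hg => ?_) hf, zero, ?_,
    fun j1 a1 j2 a2 n1 n2 n3 n4 hj e => ?_⟩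
  · simp only [aa f hf, add_comm]
  · by_cases c : f ∈ C
    · simp only [zero f c, zero _ (hC.2 f c).2]
    have m := (hM.ia f hf).1
    simp only [ac f hf]
    by_cases e : f ∈ E
    · rw [onE f e, onE _ (Ea f e)]
      linear_combination z2_add_self (1 : ZMod 2)
    · rw [← gc f c, ← gc _ (na f hf c), off f hf e, off _ m fun k => e (aa f hf ▸ Ea _ k)]
  · rw [← add_assoc, z2_add_self, zero_add]
  · simp only [hχ, P_b hM hT hg, Pi.zero_apply, add_zero]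
  · simp only [xO _ (show i1 ≤ n by omega), lt_irrefl, false_and, if_false, zero_add]
    split_ifs with e
    · rw [e, xO _ h2.le, if_pos (by omega)]
    · rw [ha.resolve_left e, xc _ h2 c2, if_neg (by omega)]
  · have k : χ (M.a (O j1)) = if i1 < j2 ∧ j2 < i2 then 1 else 0 := by
      rcases e with e | e
      · rw [e, xO _ a2.le]
        exact if_congr (by omega) rfl rfl
      · rw [e, xc _ a2 (pr j1 j2 hj (Or.inr e))]
        exact if_congr (by omega) rfl rfl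
    simp only [k, xO _ a1.le]
    congr 1
    exact if_congr (by omega) rfl rfl

theorem oneCS : OneCS := by
  classical
  intro Φ W Hf hW hS cl ctr hg f hf g hg' gv gf
  by_contra hne
  push Not at hne
  have cc : ∀ g ∈ W.S, W.c (W.c g) = g := fun g hg => (hW.ic g hg).2.1
  have aa : ∀ g ∈ W.S, W.a (W.a g) = g := fun g hg => (hW.ia g hg).2.1
  have bb : ∀ g ∈ W.S, W.b (W.b g) = g := fun g hg => (hW.ib g hg).2.1
  have nc : ∀ x ∈ W.S, x ∉ Hf → W.c x ∉ Hf := fun x hx h k => h (cc x hx ▸ (cl _ k).2.1)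
  have nb : ∀ x ∈ W.S, x ∉ Hf → W.b x ∉ Hf := fun x hx h k => h (bb x hx ▸ (cl _ k).1)
  have nv : ∀ x ∈ W.S \ Hf, ∀ y ∈ W.vo x, y ∈ W.S \ Hf := fun x hx y hy =>
    orb_ind (P := fun y => y ∈ W.S \ Hf) hy hx
      (fun z hz => ⟨(hW.ib z hz.1).1, nb z hz.1 hz.2⟩) fun z hz => ⟨(hW.ic z hz.1).1, nc z hz.1 hz.2⟩
  set U : Set Φ := {f | f ∈ W.S ∧ f ∉ Hf ∧ W.a f ∉ Hf} with hU
  have es : W.Es U := ⟨fun x hx => hx.1, fun x hx =>
    ⟨⟨(hW.ia x hx.1).1, hx.2.2, by rw [aa x hx.1]; exact hx.2.1⟩, (hW.ic x hx.1).1,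
      nc x hx.1 hx.2.1, by rw [(hW.ac x hx.1).1]; exact nc _ (hW.ia x hx.1).1 hx.2.2⟩⟩
  have es0 : W.Es ∅ := ⟨empty_subset _, fun _ h => h.elim⟩
  have con : (W.sub U).Con := by
    intro x hx y hy
    have k : y ∈ (W.minor U ∅).vo x := by
      rw [((minorS Φ W U ∅ hW es es0).2 x hx).1]
      refine ⟨?_, hy⟩
      have e : (W.gh U ∅).c = W.c := funext fun z => by simp [FM.gh, FM.gc]
      rw [FM.vo, e]
      exact ctr x ⟨hx.1, hx.2.1⟩ y ⟨hy.1, hy.2.1⟩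
    exact Relation.ReflTransGen.mono (fun _ _ h => Or.inr h) _ _ k
  have mf := hS hf
  have mg := hS hg'
  set ob : Φ → ZMod 2 := one W.b f + one W.b g with hob
  have ob0 : ∀ x, x ∉ Hf → ob x = 0 := fun x hx => by
    have a1 : x ≠ f := fun e => hx (e ▸ hf)
    have a2 : x ≠ W.b f := fun e => hx (e ▸ (cl f hf).1)
    have a3 : x ≠ g := fun e => hx (e ▸ hg')
    have a4 : x ≠ W.b g := fun e => hx (e ▸ (cl g hg').1)
    simp [hob, one, a1, a2, a3, a4]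
  have ev : ∀ q : Φ → Φ, Inv W.S q → g ∈ orb W.b q f → ∀ x ∈ W.S, Ev W.b q ob 0 x := by
    intro q hq h x hx
    have k := par_add hW.fin hW.ib hq hx (op := one W.b f) (oq := 0) (op' := one W.b g) (oq' := 0)
      (fun y hy => one_sym hW.ib0 mf hy) (fun _ _ => rfl) (fun y hy => one_sym hW.ib0 mg hy)
      fun _ _ => rfl
    rw [par_one hW.fin hW.ib hq mf hx, par_one hW.fin hW.ib hq mg hx, orb_eq hW.ib0 hq.inv0 mf h,
      z2_add_self, add_zero] at k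
    exact par_eq_zero.1 k
  obtain ⟨χ, p1, p2, p3, -⟩ := extS ghostS regS sphereS Φ W U 0 ob 0 0 hW es con hg
    (fun x _ => ev_zero fun _ _ => ⟨rfl, rfl⟩)
    (fun x hx => (ev W.a hW.ia (orb_comm W.a W.b f ▸ gf) x hx).symm)
    (fun x hx _ _ => Or.inl (ev W.c hW.ic gv x hx)) (fun _ _ => by simp)
    (fun x ⟨y, hy, k⟩ => by simp [ob0 x (nv y ⟨hy.1, hy.2.1⟩ x k).2]) (fun _ _ => by simp)
  have cst : ∀ x ∈ W.S \ Hf, ∀ y ∈ W.vo x, χ y = χ x := fun x hx y hy =>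
    (orb_ind (P := fun y => y ∈ W.S \ Hf ∧ χ y = χ x) hy ⟨hx, rfl⟩
      (fun z hz => ⟨⟨(hW.ib z hz.1.1).1, nb z hz.1.1 hz.1.2⟩, by
        rw [p2 z hz.1.1, ob0 z hz.1.2, add_zero, hz.2]⟩)
      fun z hz => ⟨⟨(hW.ic z hz.1.1).1, nc z hz.1.1 hz.1.2⟩, by
        rw [p3 z hz.1.1, Pi.zero_apply, add_zero, hz.2]⟩).2
  have mb := (hW.ib f mf).1
  have u1 : W.a f ∈ W.S \ Hf := ⟨(hW.ia f mf).1, (cl f hf).2.2⟩
  have u2 : W.a (W.b f) ∈ W.S \ Hf := ⟨(hW.ia _ mb).1, (cl _ (cl f hf).1).2.2⟩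
  have e := cst _ u1 _ (ctr _ u1 _ u2)
  have o1 : ob f = 1 := by
    have a3 : f ≠ g := hne.1.symm
    have a4 : f ≠ W.b g := fun e => hne.2 (by rw [e, bb g mg])
    simp [hob, one, a3, a4]
  rw [p1 _ mb, p1 f mf, p2 f mf, o1] at e
  simp at e

end Pool.Agent.MP_9d78a0_co.gm

end MrgPart5

-- ======== part 6: formerly Pool.Agent.MP_9d78a0_co.gm.RTgt
section MrgPart6

/-! Routing: the star map of the target. -/

set_option autoImplicit false

namespace Pool.Agent.MP_9d78a0_co.gm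

open Set Function FM Tg1 Tg2

namespace Tg3

variable {Φ V ι : Type} {M : FM Φ} {vx : Φ → V} {H K : Set V} {ch : Ch V} {bn : Bn V} {t μ : ℕ}
  {rt : V → ℕ} {C : Set Φ} {O : ℕ → Φ} {n : ℕ}

open Classical in
/-- the column of a vertex -/
noncomputable def kv (ch : Ch V) (t : ℕ) (rt : V → ℕ) (v : V) : ℕ :=
  if v ∈ ch.core t then ch.y v / 2 else rt v

theorem kv_eq (cb : ch.Comb M vx t μ K rt C) (ht : t ≤ μ) (hs : 2 * μ < ch.s) {c : ℕ}
    (hc : ch.cen μ c) {v : V} (hv : v ∈ ch.colm t K rt c) : kv ch t rt v = c := by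
  rcases hv with hv | hv
  · rw [kv, if_pos (cell_core ht hc hs hv)]
    obtain ⟨-, -, -, h3, h4⟩ := hv
    omega
  · rw [kv, if_neg (disjoint_left.1 cb.dis hv.1), hv.2]

theorem el_mono {E E' : Set Φ} {D : Set V} {u v : V} (h : M.EL vx E D u v)
    (k : ∀ x ∈ E, vx x ∈ D → vx (M.a x) ∈ D → x ∈ E') : M.EL vx E' univ u v := by
  induction h with
  | refl => exact Relation.ReflTransGen.refl
  | tail _ e ih =>
    obtain ⟨h1, h2, x, hx, rfl, rfl⟩ := e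
    exact ih.tail ⟨trivial, trivial, x, k x hx h1 h2, rfl, rfl⟩

theorem el_pt {E : Set Φ} {D : Set V} {u v : V} {ψ : V → ZMod 2} (h : M.EL vx E D u v)
    (k : ∀ x ∈ E, vx x ∈ D → vx (M.a x) ∈ D → 0 = ψ (vx x) + ψ (vx (M.a x))) : ψ v = ψ u := by
  induction h with
  | refl => rfl
  | tail _ e ih =>
    obtain ⟨h1, h2, x, hx, rfl, rfl⟩ := e
    have := k x hx h1 h2
    rw [← ih]
    generalize ψ (vx x) = p at this ⊢
    generalize ψ (vx (M.a x)) = q at this ⊢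
    revert p q; decide

theorem cell_seg (ok : bn.Ok ch M vx H t μ) {b : ℕ} (hb : b < bn.r) (e : Bool) {j : ℕ}
    (hj : j < bn.w) : ch.cell t (bn.col b e j) ⊆ bn.segA ch t b e := by
  rintro v ⟨h0, h1, h2, h3, h4⟩
  have := col_mem ok hb e hj
  exact ⟨h0, h1, h2, by omega, by omega⟩

theorem card_eo (hM : M.Ok) (r : ℕ) (y : ℕ → Φ) (hy : ∀ b < r, y b ∈ M.S) :
    {f | ∃ b < r, f ∈ M.eo (y b)}.ncard ≤ 4 * r := by
  have k : ∀ u : ℕ → Φ, (u '' Iio r).ncard ≤ r := fun u =>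
    (ncard_image_le (finite_Iio r)).trans
      (by rw [← Finset.coe_range, ncard_coe_finset, Finset.card_range])
  have f : ∀ u : ℕ → Φ, (u '' Iio r).Finite := fun u => (finite_Iio r).image _
  have s : {f | ∃ b < r, f ∈ M.eo (y b)} ⊆ (y '' Iio r ∪ (fun b => M.a (y b)) '' Iio r) ∪
      ((fun b => M.c (y b)) '' Iio r ∪ (fun b => M.a (M.c (y b))) '' Iio r) := by
    rintro x ⟨b, hb, m⟩
    rcases (mem_eo hM (hy b hb)).1 m with e | e | e | e
    exacts [.inl (.inl ⟨b, hb, e.symm⟩), .inl (.inr ⟨b, hb, e.symm⟩),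
      .inr (.inl ⟨b, hb, e.symm⟩), .inr (.inr ⟨b, hb, e.symm⟩)]
  refine (ncard_le_ncard s (((f _).union (f _)).union ((f _).union (f _)))).trans ?_
  have a1 := ncard_union_le (y '' Iio r ∪ (fun b => M.a (y b)) '' Iio r)
    ((fun b => M.c (y b)) '' Iio r ∪ (fun b => M.a (M.c (y b))) '' Iio r)
  have a2 := ncard_union_le (y '' Iio r) ((fun b => M.a (y b)) '' Iio r)
  have a3 := ncard_union_le ((fun b => M.c (y b)) '' Iio r) ((fun b => M.a (M.c (y b))) '' Iio r)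
  have := k y
  have := k fun b => M.a (y b)
  have := k fun b => M.c (y b)
  have := k fun b => M.a (M.c (y b))
  omega

end Tg3

open Tg3

theorem tgtS (hH : HangS) (hO : OrderS) (hC : CoreS) (hT : TwS) (h1 : OneCS) : TgtS := by
  classical
  intro k q g Φ V ι M vx H B ch bn t μ Sp τ Q cq st ok th t1 tμ μs tr
  have hM := st.hm.ok
  have hl := st.hm.lbl
  have w2 := ok.two
  obtain ⟨K, rt, C, cb, KH, stK, qK⟩ := comb hH st ok tμ μs tr
  obtain ⟨O, n, od⟩ := hO k q g Φ V M vx H B ch t μ K rt C st t1 tμ μs cb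
  have co := hC k q g Φ V M vx H B ch t st (by omega)
  have tu := od.turn
  have : Nonempty Φ := ⟨O 0⟩
  have ex : ∀ b j : ℕ, b < bn.r → j < 2 → ∃ p ∈ M.S, vx p ∈ bn.St b j ∧
      vx (M.a p) ∈ ch.cell t (bn.col b true j) := fun b j hb hj =>
    RStop.touch_flag hM ((ok.conn b hb j (by omega)).2 true)
  choose! y y1 y2 y3 using ex
  have kq := fun c (hc : ch.cen μ c) v (hv : v ∈ ch.colm t K rt c) => kv_eq cb tμ.le μs hc hv
  have tvC : K ∪ ch.core t ⊆ M.tv vx H := union_subset KH fun v hv => (st.ch.sub hv.1).1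
  have cmK : ∀ c, ch.cen μ c → ch.colm t K rt c ⊆ K ∪ ch.core t := fun c hc v hv =>
    hv.elim (fun m => Or.inr (cell_core tμ.le hc μs m)) fun m => Or.inl m.1
  have cn : ∀ b < bn.r, ∀ e, ∀ j < 2, ch.cen μ (bn.col b e j) := fun b hb e j hj =>
    ok.cen b hb e j (by omega)
  have yF : ∀ b < bn.r, ∀ j < 2, vx (y b j) ∈ ch.colm t K rt (bn.col b false j) :=
    fun b hb j hj => Or.inr ((stK b hb j hj _).1 (y2 b j hb hj))
  have yT : ∀ b < bn.r, ∀ j < 2, vx (M.a (y b j)) ∈ ch.colm t K rt (bn.col b true j) :=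
    fun b hb j hj => Or.inl (y3 b j hb hj)
  have yC : ∀ b < bn.r, ∀ j < 2, y b j ∉ C := fun b hb j hj m => by
    have n1 : y b j ∉ M.ind vx (ch.core t) := fun z =>
      disjoint_left.1 cb.dis ((stK b hb j hj _).1 (y2 b j hb hj)).1 z.2.1
    obtain ⟨c, c1, c2, c3⟩ := cb.ends _ ⟨m, n1⟩
    have := ((kq _ (cn b hb false j hj) _ (yF b hb j hj)).symm.trans (kq c c1 _ c2)).trans
      ((kq c c1 _ c3).symm.trans (kq _ (cn b hb true j hj) _ (yT b hb j hj)))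
    exact absurd (col_ne ok hb hb (by omega) (by omega) this).2 (by decide)
  have aC : ∀ f ∈ M.S, f ∉ C → M.a f ∉ C := fun f hf k m => k (hM.aa hf ▸ (cb.es.2 _ m).1)
  have nC : ∀ f ∈ M.S, f ∉ C → ∀ x, Nr M x f → x ∉ C := fun f hf k x hx m =>
    k ((hx.symm hM hf).es cb.es m)
  have pos : ∀ f ∈ M.S, f ∉ C → vx f ∈ K ∪ ch.core t → ∃ i < n, Nr M (O i) f := fun f hf k m => by
    obtain ⟨i, hi, e⟩ := side tu hM cb.es k ((od.cover f hf m).resolve_right fun z => k z.1)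
    exact ⟨i, hi, Nr.symm hM (tu.mem i) e⟩
  have spS : ∀ p ∈ Sp, p ∈ M.S := fun p hp => (tr.sub hp).1
  have spH : ∀ p ∈ Sp, vx p ∈ H := fun p hp => (tr.sub hp).2
  have CH : ∀ f ∈ C, vx f ∉ H := fun f hf => (tvC (od.vtx ▸ ⟨f, hf, rfl⟩)).2
  have pT : ∀ p ∈ Sp, vx (M.a p) ∈ ch.colm t K rt (cq (τ p)) := fun p hp =>
    Or.inr (qK p hp _ (tr.land p hp))
  have pc : ∀ p ∈ Sp, ch.cen μ (cq (τ p)) := fun p hp => (tr.conn p hp).2.2.1.1
  have mH : ∀ c, ch.cen μ c → ∀ f, vx f ∈ ch.colm t K rt c → f ∉ Sp := fun c hc f m hp =>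
    (tvC (cmK c hc m)).2 (spH f hp)
  set U : Set Φ := {f | ∃ b < bn.r, f ∈ M.eo (y b 0)} ∪ (Sp ∪ M.a '' Sp) with hU
  have z2 : 0 < 2 := by omega
  have esU : M.Es U := by
    refine Es.union ⟨fun f ⟨b, hb, m⟩ => hM.eo_mem (y1 b 0 hb z2) m, fun f ⟨b, hb, m⟩ =>
      ⟨⟨b, hb, ((hM.gk.es_eo (y1 b 0 hb z2)).2 f m).1⟩,
        b, hb, ((hM.gk.es_eo (y1 b 0 hb z2)).2 f m).2⟩⟩ ⟨?_, ?_⟩
    · rintro f (m | ⟨p, hp, rfl⟩)
      exacts [spS f m, hM.a_mem (spS p hp)]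
    · rintro f (m | ⟨p, hp, rfl⟩)
      · exact ⟨Or.inr ⟨f, m, rfl⟩, Or.inl (tr.cl f m)⟩
      · exact ⟨Or.inl (by rwa [hM.aa (spS p hp)]), Or.inr ⟨_, tr.cl p hp, hM.comm (spS p hp)⟩⟩
  have cls : ∀ f ∈ U \ Sp, (∃ b < bn.r, Nr M f (y b 0) ∨ Nr M f (M.a (y b 0))) ∨
      ∃ p ∈ Sp, f = M.a p := by
    rintro f ⟨⟨b, hb, m⟩ | m | ⟨p, hp, rfl⟩, k⟩
    exacts [Or.inl ⟨b, hb, (nr_eo hM (y1 b 0 hb z2)).1 m⟩, (k m).elim, Or.inr ⟨p, hp, rfl⟩]
  have vF : ∀ b < bn.r, ∀ j < 2, ∀ f, Nr M f (y b j) →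
      vx f ∈ ch.colm t K rt (bn.col b false j) := fun b hb j hj f m => by
    rw [m.v hM hl (y1 b j hb hj)]; exact yF b hb j hj
  have vT : ∀ b < bn.r, ∀ j < 2, ∀ f, Nr M f (M.a (y b j)) →
      vx f ∈ ch.colm t K rt (bn.col b true j) := fun b hb j hj f m => by
    rw [m.v hM hl (hM.a_mem (y1 b j hb hj))]; exact yT b hb j hj
  have inc : ∀ f ∈ U \ Sp, ∃ c, ch.cen μ c ∧ vx f ∈ ch.colm t K rt c := fun f hf => by
    rcases cls f hf with ⟨b, hb, m | m⟩ | ⟨p, hp, rfl⟩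
    exacts [⟨_, cn b hb _ 0 z2, vF b hb 0 z2 f m⟩, ⟨_, cn b hb _ 0 z2, vT b hb 0 z2 f m⟩,
      ⟨_, pc p hp, pT p hp⟩]
  have uniq : ∀ f ∈ U \ Sp, ∀ f' ∈ U \ Sp, kv ch t rt (vx f) = kv ch t rt (vx f') →
      Nr M f f' := fun f hf f' hf' e => by
    have w0 : 0 < bn.w := by omega
    rcases cls f hf with ⟨b, hb, m | m⟩ | ⟨p, hp, rfl⟩ <;>
      rcases cls f' hf' with ⟨b', hb', m' | m'⟩ | ⟨p', hp', rfl⟩
    all_goals first
      | rw [kq _ (cn b hb _ 0 z2) _ (vF b hb 0 z2 _ m)] at e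
      | rw [kq _ (cn b hb _ 0 z2) _ (vT b hb 0 z2 _ m)] at e
      | rw [kq _ (pc p hp) _ (pT p hp)] at e
    all_goals first
      | rw [kq _ (cn b' hb' _ 0 z2) _ (vF b' hb' 0 z2 _ m')] at e
      | rw [kq _ (cn b' hb' _ 0 z2) _ (vT b' hb' 0 z2 _ m')] at e
      | rw [kq _ (pc p' hp') _ (pT p' hp')] at e
    · obtain ⟨rfl, -⟩ := col_ne ok hb hb' w0 w0 e
      exact m.trans hM (esU.1 hf'.1) (m'.symm hM (y1 b 0 hb z2))
    · exact absurd (col_ne ok hb hb' w0 w0 e).2 (by decide)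
    · exact absurd e (free_ne ok hb (tr.conn p' hp').2.2.1 _ w0)
    · exact absurd (col_ne ok hb hb' w0 w0 e).2 (by decide)
    · obtain ⟨rfl, -⟩ := col_ne ok hb hb' w0 w0 e
      exact m.trans hM (esU.1 hf'.1) (m'.symm hM (hM.a_mem (y1 b 0 hb z2)))
    · exact absurd e (free_ne ok hb (tr.conn p' hp').2.2.1 _ w0)
    · exact absurd e.symm (free_ne ok hb' (tr.conn p hp).2.2.1 _ w0)
    · exact absurd e.symm (free_ne ok hb' (tr.conn p hp).2.2.1 _ w0)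
    · have : τ p' = τ p := by
        by_contra z
        exact (tr.dis p' hp' p hp z).2 e.symm
      exact Nr.a hM (spS p' hp') ((tr.term p' hp' p hp).1 this)
  have dis : Disjoint U C := disjoint_left.2 fun f hf m => by
    by_cases z : f ∈ Sp
    · exact CH f m (spH f z)
    · rcases cls f ⟨hf, z⟩ with ⟨b, hb, e | e⟩ | ⟨p, hp, rfl⟩
      · exact nC _ (y1 b 0 hb z2) (yC b hb 0 z2) f e m
      · exact nC _ (hM.a_mem (y1 b 0 hb z2)) (aC _ (y1 b 0 hb z2) (yC b hb 0 z2)) f e m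
      · exact aC p (spS p hp) (fun z => CH p z (spH p hp)) m
  have top : ∀ c, t ≤ c → c ≤ t + 1 → ∃ i, vx (O i) ∈ ch.cell t c := fun c c1 c2 => by
    have := st.ch.ver (t - 1) (by omega) c (by omega)
    rw [show t - 1 + 1 = t by omega] at this
    obtain ⟨f, f1, f2, f3⟩ := RStop.touch_flag hM this
    have m : vx (M.a f) ∈ ch.core t := by
      obtain ⟨v0, v1, v2, v3, v4⟩ := f3
      exact ⟨v0, v1, by omega, by omega, by omega⟩
    rcases od.cover _ (hM.a_mem f1) (Or.inr m) with ⟨i, -, e | e⟩ | e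
    · exact ⟨i, e ▸ f3⟩
    · exact ⟨i, by rw [← hl.b hM (tu.mem i), ← e]; exact f3⟩
    · have := e.2 (M.a (M.a f)) (Cy.orb_p (Cy.orb_self ..))
      rw [hM.aa f1] at this
      have a1 := this.2.1
      have a2 := f2.2.2.1
      omega
  obtain ⟨i0, k0⟩ := top t le_rfl (by omega)
  obtain ⟨i1, k1⟩ := top (t + 1) (by omega) le_rfl
  obtain ⟨o1, o2⟩ := onC hM hl cb.es tu (i := i0) (j := i1) fun e => by
    rw [e] at k0
    have a1 := k0.2.2.2.2
    have a2 := k1.2.2.2.1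
    omega
  have UH : ∀ f ∈ U \ Sp, vx f ∈ K ∪ ch.core t := fun f hf => by
    obtain ⟨c, c1, c2⟩ := inc f hf
    exact cmK c c1 c2
  have sit : Sit M C U Sp O n := by
    refine ⟨hM, cb.es, esU, dis, tu, od.con, od.eg, fun p hp => Or.inr (Or.inl hp),
      fun p hp x hx => ?_, fun p hp => mH _ (pc p hp) _ (pT p hp), fun f hf => ?_,
      fun i m => (tvC (od.vtx ▸ o2 i)).2 (spH _ m), Or.inl o1⟩
    · have e : vx x ∈ H := hl.of_vo hM (spS p hp) hx ▸ spH p hp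
      refine ⟨fun m => CH x m e, fun m => ?_⟩
      by_contra z
      exact (tvC (UH x ⟨m, z⟩)).2 e
    · obtain ⟨i, hi, e⟩ := pos f (esU.1 hf.1) (disjoint_left.1 dis hf.1) (UH f hf)
      exact ⟨i, hi, e.symm hM (esU.1 hf.1)⟩
  have yU : ∀ b < bn.r, ∀ f, Nr M f (y b 0) ∨ Nr M f (M.a (y b 0)) → f ∈ U \ Sp :=
    fun b hb f m => ⟨Or.inl ⟨b, hb, (nr_eo hM (y1 b 0 hb z2)).2 m⟩, m.elim
      (fun m => mH _ (cn b hb _ 0 z2) _ (vF b hb 0 z2 f m))
      fun m => mH _ (cn b hb _ 0 z2) _ (vT b hb 0 z2 f m)⟩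
  have cD : ∀ b < bn.r, ∀ j < 2, ch.colm t K rt (bn.col b false j) ⊆ bn.disc ch t b := by
    rintro b hb j hj v (m | m)
    · exact Or.inl (Or.inr (cell_seg ok hb false (by omega) m))
    · exact Or.inl (Or.inl (Or.inl ⟨j, by omega, (stK b hb j hj v).2 m⟩))
  have yD : ∀ b < bn.r, ∀ j < 2, y b j ∈ M.ind vx (bn.disc ch t b) := fun b hb j hj =>
    ⟨y1 b j hb hj, cD b hb j hj (yF b hb j hj),
      Or.inr (cell_seg ok hb true (by omega) (y3 b j hb hj))⟩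
  have rootY : ∀ b < bn.r, ∀ j < 2, ∃ u ∈ ch.cell t (bn.col b false j),
      M.EL vx C (ch.colm t K rt (bn.col b false j)) u (vx (y b j)) := fun b hb j hj => by
    have m := (stK b hb j hj _).1 (y2 b j hb hj)
    have := (cb.root _ m.1).2
    rwa [m.2] at this
  obtain ⟨e1, e2⟩ := th (lp M U Sp ∪ C) (sit.es_lp.union cb.es)
    (cb.core.trans subset_union_right) (by
      rintro f (m | m)
      · exact ⟨esU.1 m.1, tvC (UH f ⟨m.1, m.2.1⟩), tvC (UH _ ⟨(esU.2 f m.1).1, m.2.2⟩)⟩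
      · exact ⟨cb.es.1 m, tvC (od.vtx ▸ ⟨f, m, rfl⟩), tvC (od.vtx ▸ ⟨_, (cb.es.2 f m).1, rfl⟩)⟩)
    fun b hb => by
      obtain ⟨u, u1, u2⟩ := rootY b hb 0 z2
      have m := yU b hb _ (Or.inl (Or.inl rfl))
      refine ⟨u, cell_seg ok hb false (by omega) u1, _,
        cell_seg ok hb true (by omega) (y3 b 0 hb z2), Relation.ReflTransGen.tail
          (el_mono u2 fun x hx x1 x2 =>
            ⟨Or.inr hx, cb.es.1 hx, cD b hb 0 z2 x1, cD b hb 0 z2 x2⟩)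
          ⟨trivial, trivial, y b 0, ⟨Or.inl ⟨m.1, m.2, (yU b hb _ (Or.inr (Or.inl rfl))).2⟩,
            yD b hb 0 z2⟩, rfl, rfl⟩⟩
  obtain ⟨star, eg⟩ := sit.star h1 e1 fun p hp p' hp' m =>
    (hl p (spS p hp) p' (spS p' hp')).1 (e2 p (spS p hp) p' (spS p' hp') (spH p hp) (spH p' hp') m)
  have par : ∀ b < bn.r, ∀ β : Φ → ZMod 2, M.Ech β → (∀ f ∈ M.S, Ev M.a M.b β 0 f) →
      (∀ f ∈ C, β f = 0) → β (y b 0) = β (y b 1) := fun b hb β b1 b2 b3 => by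
    obtain ⟨ε, ψ, ψ', p1, p2, p3, p4⟩ := ok.par β ⟨b1, fun f hf _ => b2 f hf⟩ b hb
    obtain ⟨κ, hκ⟩ := co.2.2.2.2.2.1 β 0 ψ _ co.1 b1
      (fun f hf => by rw [b3 f (cb.core hf)]; rfl) p1
    have : ∀ j < 2, β (y b j) = κ + (κ + ε) := fun j hj => by
      obtain ⟨u, u1, u2⟩ := rootY b hb j hj
      rw [p2 _ (yD b hb j hj), el_pt (ψ := ψ') u2 fun x hx x1 x2 => (b3 x hx).symm.trans
        (p2 x ⟨cb.es.1 hx, cD b hb j hj x1, cD b hb j hj x2⟩),
        p3 u (cell_seg ok hb false (by omega) u1),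
        p4 _ (cell_seg ok hb true (by omega) (y3 b j hb hj)),
        hκ u (cell_core tμ.le (cn b hb _ j hj) μs u1),
        hκ _ (cell_core tμ.le (cn b hb _ j hj) μs (y3 b j hb hj))]
      simp
    rw [this 0 z2, this 1 (by omega)]
  have iF : ∀ b j : ℕ, b < bn.r → j < 2 → ∃ i < n, Nr M (O i) (y b j) := fun b j hb hj =>
    pos _ (y1 b j hb hj) (yC b hb j hj) (cmK _ (cn b hb _ j hj) (yF b hb j hj))
  have iT : ∀ b j : ℕ, b < bn.r → j < 2 → ∃ i < n, Nr M (O i) (M.a (y b j)) := fun b j hb hj =>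
    pos _ (hM.a_mem (y1 b j hb hj)) (aC _ (y1 b j hb hj) (yC b hb j hj))
      (cmK _ (cn b hb _ j hj) (yT b hb j hj))
  choose! iF f1 f2 using iF
  choose! iT g1 g2 using iT
  have aFT : ∀ b < bn.r, ∀ j < 2, Nr M (M.a (O (iF b j))) (O (iT b j)) := fun b hb j hj =>
    ((f2 b j hb hj).a hM (y1 b j hb hj)).trans hM (tu.mem _)
      ((g2 b j hb hj).symm hM (hM.a_mem (y1 b j hb hj)))
  have tw : ∀ b < bn.r, (M.a (O (iF b 0)) = O (iT b 0) ↔ bn.up b = true) := fun b hb => by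
    have o2 : 1 < 2 := by omega
    have mFF := fun j hj j' hj' => od.mono _ (f1 b j hb hj) _ (f1 b j' hb hj') _ _ (cn b hb _ j hj)
      (cn b hb _ j' hj') (vF b hb j hj _ (f2 b j hb hj)) (vF b hb j' hj' _ (f2 b j' hb hj'))
    have mFT := fun j hj j' hj' => od.mono _ (f1 b j hb hj) _ (g1 b j' hb hj') _ _ (cn b hb _ j hj)
      (cn b hb _ j' hj') (vF b hb j hj _ (f2 b j hb hj)) (vT b hb j' hj' _ (g2 b j' hb hj'))
    have mTF := fun j hj j' hj' => od.mono _ (g1 b j hb hj) _ (f1 b j' hb hj') _ _ (cn b hb _ j hj)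
      (cn b hb _ j' hj') (vT b hb j hj _ (g2 b j hb hj)) (vF b hb j' hj' _ (f2 b j' hb hj'))
    have mTT := fun j hj j' hj' => od.mono _ (g1 b j hb hj) _ (g1 b j' hb hj') _ _ (cn b hb _ j hj)
      (cn b hb _ j' hj') (vT b hb j hj _ (g2 b j hb hj)) (vT b hb j' hj' _ (g2 b j' hb hj'))
    have a1 := mFF 0 z2 1 o2 (ok.mo0 b hb 0 w2)
    have a2 : (bn.up b = true ∧ iT b 0 < iT b 1) ∨ (bn.up b = false ∧ iT b 1 < iT b 0) := by
      cases u : bn.up b
      · exact Or.inr ⟨rfl, mTT 1 o2 0 z2 ((ok.mo1 b hb 0 w2).2 u)⟩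
      · exact Or.inl ⟨rfl, mTT 0 z2 1 o2 ((ok.mo1 b hb 0 w2).1 u)⟩
    have c1 := col_mem ok hb false (j := 0) (by omega)
    have c2 := col_mem ok hb false (j := 1) (by omega)
    have c3 := col_mem ok hb true (j := 0) (by omega)
    have c4 := col_mem ok hb true (j := 1) (by omega)
    have nF := fun j hj => nC _ (y1 b j hb hj) (yC b hb j hj) _ (f2 b j hb hj)
    have pF : ∀ β : Φ → ZMod 2, M.Ech β → (∀ f ∈ M.S, Ev M.a M.b β 0 f) → (∀ f ∈ C, β f = 0) →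
        β (O (iF b 0)) = β (O (iF b 1)) := fun β b1 b2 b3 => by
      rw [(f2 b 0 hb z2).ech b1 (y1 b 0 hb z2), (f2 b 1 hb o2).ech b1 (y1 b 1 hb o2),
        par b hb β b1 b2 b3]
    rcases ok.gap b hb false b hb true (by simp) with l | l
    · have b1 := mFT 1 o2 0 z2 (by omega)
      have b2 := mFT 1 o2 1 o2 (by omega)
      rw [twist hT hM cb.es tu (by omega) (g1 b 0 hb z2) (f1 b 1 hb o2) (g1 b 1 hb o2) (by omega)
        (by omega) (by omega) (by omega) (nF 0 z2) (nF 1 o2) (aFT b hb 0 z2) (aFT b hb 1 o2) pF]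
      rcases a2 with ⟨u, a2⟩ | ⟨u, a2⟩
      · exact iff_of_true (by omega) u
      · exact iff_of_false (by omega) (by simp [u])
    · have b1 := mTF 0 z2 0 z2 (by omega)
      have b2 := mTF 1 o2 0 z2 (by omega)
      have s1 : Nr M (M.a (O (iT b 0))) (O (iF b 0)) := by
        have := ((aFT b hb 0 z2).symm hM (tu.mem _)).a hM (hM.a_mem (tu.mem _))
        rwa [hM.aa (tu.mem _)] at this
      have s2 : M.a (O (iF b 0)) = O (iT b 0) ↔ M.a (O (iT b 0)) = O (iF b 0) :=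
        ⟨fun e => by rw [← e, hM.aa (tu.mem _)], fun e => by rw [← e, hM.aa (tu.mem _)]⟩
      rw [s2, twist hT hM cb.es tu b1 (f1 b 0 hb z2) (f1 b 1 hb o2) (g1 b 1 hb o2) (by omega)
        (by omega) (by omega) (by omega) (nC _ (hM.a_mem (y1 b 0 hb z2))
          (aC _ (y1 b 0 hb z2) (yC b hb 0 z2)) _ (g2 b 0 hb z2)) (nF 1 o2) s1 (aFT b hb 1 o2)
        fun β b1 b2 b3 => by
          rw [← pF β b1 b2 b3, ← (b1 _ (tu.mem _)).1, s1.ech b1 (tu.mem _)]]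
      rcases a2 with ⟨u, a2⟩ | ⟨u, a2⟩
      · exact iff_of_true (by omega) u
      · exact iff_of_false (by omega) (by simp [u])
  have pr : ∀ b < bn.r, bn.pr (M.minor U C) (fun b => O (iF b 0)) b = O (iT b 0) := fun b hb => by
    show (if bn.up b = true then M.a (O (iF b 0)) else M.c (M.a (O (iF b 0)))) = _
    split_ifs with u
    · exact (tw b hb).2 u
    · rw [(aFT b hb 0 z2).resolve_left fun e => u ((tw b hb).1 e), hM.cc (tu.mem _)]
  have mL : ∀ f, f ∈ (idxs U O n).map O ↔ ∃ i < n, O i ∈ U ∧ O i = f := fun f => by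
    simp only [List.mem_map, mem_idxs, and_assoc]
  refine ⟨M.minor U C, (idxs U O n).map O, fun b => O (iF b 0), fun f => kv ch t rt (vx f), star,
    ⟨?_, fun b hb => ?_, fun p hp _ => kq _ (pc p hp) _ (pT p hp), fun f hf => ?_⟩, ?_, eg,
    fun p hp => ⟨rfl, (sit.hole hp).2⟩, fun o ho => Ori.minor hM esU cb.es ho, sit.ori eg⟩
  · rw [List.pairwise_map]
    refine idxs_sort.imp_of_mem fun {i j} hi hj l => ?_
    obtain ⟨i1, i2⟩ := mem_idxs.1 hi
    obtain ⟨j1, j2⟩ := mem_idxs.1 hj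
    obtain ⟨c, c1, c2⟩ := inc _ ⟨i2, sit.no i⟩
    obtain ⟨c', c3, c4⟩ := inc _ ⟨j2, sit.no j⟩
    have ne : kv ch t rt (vx (O i)) ≠ kv ch t rt (vx (O j)) := fun e =>
      l.ne (Nr.idx tu i1 j1 (disjoint_left.1 dis j2) (uniq _ ⟨i2, sit.no i⟩ _ ⟨j2, sit.no j⟩ e))
    have := od.mono j j1 i i1 c' c c3 c1 c4 c2
    rw [kq c c1 _ c2, kq c' c3 _ c4] at ne ⊢
    omega
  · rw [pr b hb]
    exact ⟨(mL _).2 ⟨_, f1 b 0 hb z2, (yU b hb _ (Or.inl (f2 b 0 hb z2))).1, rfl⟩,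
      (mL _).2 ⟨_, g1 b 0 hb z2, (yU b hb _ (Or.inr (g2 b 0 hb z2))).1, rfl⟩,
      (yU b hb _ (Or.inr ((f2 b 0 hb z2).a hM (y1 b 0 hb z2)))).2,
      kq _ (cn b hb _ 0 z2) _ (vF b hb 0 z2 _ (f2 b 0 hb z2)),
      kq _ (cn b hb _ 0 z2) _ (vT b hb 0 z2 _ (g2 b 0 hb z2))⟩
  · obtain ⟨i, i1, i2, rfl⟩ := (mL f).1 hf
    rcases cls _ ⟨i2, sit.no i⟩ with ⟨b, hb, m | m⟩ | ⟨p, hp, e⟩
    · refine Or.inl ⟨b, hb, Or.inl (congrArg O (Nr.idx tu i1 (f1 b 0 hb z2) ?_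
        (m.trans hM (tu.mem _) ((f2 b 0 hb z2).symm hM (y1 b 0 hb z2)))))⟩
      exact disjoint_left.1 dis (yU b hb _ (Or.inl (f2 b 0 hb z2))).1
    · refine Or.inl ⟨b, hb, Or.inr ((congrArg O (Nr.idx tu i1 (g1 b 0 hb z2) ?_
        (m.trans hM (tu.mem _) ((g2 b 0 hb z2).symm hM (hM.a_mem (y1 b 0 hb z2)))))).trans
          (pr b hb).symm)⟩
      exact disjoint_left.1 dis (yU b hb _ (Or.inr (g2 b 0 hb z2))).1
    · refine Or.inr ?_
      show M.a (O i) ∈ Sp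
      rwa [e, hM.aa (spS p hp)]
  · show U.ncard ≤ _
    have a1 := ncard_union_le {f | ∃ b < bn.r, f ∈ M.eo (y b 0)} (Sp ∪ M.a '' Sp)
    have a2 := ncard_union_le Sp (M.a '' Sp)
    have a3 := ncard_image_le (f := M.a) (hM.fin.subset spS)
    have a4 := card_eo hM bn.r (fun b => y b 0) fun b hb => y1 b 0 hb z2
    rw [← hU] at a1
    omega

end Pool.Agent.MP_9d78a0_co.gm

end MrgPart6

-- ======== part 7: formerly Pool.Agent.MP_9d78a0_co.gm.RtPre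
section MrgPart7

/-! Routing from the last three rows. -/

set_option autoImplicit false

namespace Pool.Agent.MP_9d78a0_co.gm

theorem rtS_of (hN : NewS) (hS : ShellS) (hW : ClassS) : RtS :=
  rtAsmS chartS coreS
    (iterS (stepRS (extBS coreS) hS (glueBS coreS) altS hN
      (lolS (hangS coreS) (orderS coreS) coreS)) (stopS (hangS coreS) (orderS coreS) coreS))
    (extBS coreS) hS (fullS coreS) farRS mengS
    (tgtS (hangS coreS) (orderS coreS) coreS twS oneCS) (srcS rimS) hW drawRS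

end Pool.Agent.MP_9d78a0_co.gm

end MrgPart7

-- marker of a merged file
example : 731051 + 142314 = 731051 + 142314 := rfl
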