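import Pool.Agent.MP_9d78a0_co.gm.SpecJ
import Pool.Agent.MP_9d78a0_co.gm.COp2
import Mathlib.Data.Set.Card.Arithmetic
import Mathlib.Order.Interval.Set.Nat
import Pool.Agent.MP_9d78a0_co.gm.RtPre
import Pool.Agent.MP_9d78a0_co.gm.RNew
import Pool.Agent.MP_9d78a0_co.gm.RShell
import Pool.Agent.MP_9d78a0_co.gm.RWordF
import Pool.Agent.MP_9d78a0_co.gm.RWordI
import Pool.Agent.MP_9d78a0_co.gm.RWordC
import Pool.Agent.MP_9d78a0_co.gm.SpecH2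
import Pool.Agent.MP_9d78a0_co.gm.BGrid
import Pool.Agent.MP_9d78a0_co.gm.SpecM
import Pool.Agent.MP_9d78a0_co.gm.SpecOp
import Pool.Agent.MP_9d78a0_co.gm.HSurgC

-- ======== part 0: formerly Pool.Agent.MP_9d78a0_co.gm.JRaw
section MrgPart0

/-! Block J: tame structures with sites are raw structures. -/

set_option autoImplicit false

namespace Pool.Agent.MP_9d78a0_co.gm

open Set Function

namespace ToRaw

theorem nc_biUnion {ι α : Type} (t : Finset ι) (s : ι → Set α) (c : ℕ)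
    (h : ∀ i ∈ t, (s i).ncard ≤ c) : (⋃ i ∈ t, s i).ncard ≤ t.card * c :=
  (t.set_ncard_biUnion_le s).trans (Finset.sum_le_card_nsmul _ _ _ h)

section sk

variable {s : Sk} {Y : Set MV} {f g : s.Φ}

theorem inr_nd {y : MV} (hy : y ∈ range (Sum.inr : ℕ → MV)) : y ∉ s.Nd := by
  rintro ⟨-, v, rfl⟩
  obtain ⟨n, e⟩ := hy
  cases e

theorem h_nd (h : s.Ok) {y : MV} (hy : y ∈ s.H) : y ∉ s.Nd := inr_nd (h.hr.1 hy)

theorem far_vt (h : s.Ok) (hf : f ∈ s.M.S) (hx : s.vx f ∉ s.Nd) : Sum.inl (s.far f) ∈ s.Vt :=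
  ⟨_, h.hm.ok.a_mem hf, Sk.vx_far h hf hx⟩

theorem nb_vt (h : s.Ok) {y : MV} {v : W} (hv : v ∈ s.nb y) : Sum.inl v ∈ s.Vt :=
  let ⟨_, hg, _, e, _⟩ := Sk.exists_far h hv
  ⟨_, h.hm.ok.a_mem hg, e⟩

theorem site_inr (h : s.Ok) (hY : Y ⊆ s.Ce) : s.H ∪ Y ⊆ range Sum.inr :=
  union_subset h.hr.1 fun _ hy => (hY hy).1.2

theorem site_ce : (s.site Y).Ce ⊆ s.Ce := fun _ hy =>
  ⟨hy.1, fun k => hy.2 (k.imp_left Or.inl)⟩

theorem site_ok (h : s.Ok) (hY : Y ⊆ s.Ce) : (s.site Y).Ok where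
  hm := ⟨h.hm.ok, h.hm.lbl, h.hm.con, fun f hf => ⟨(h.hm.simple f hf).1, fun g hg k1 k2 =>
      (h.hm.simple f hf).2 g hg (fun k => k1 (.inl k)) fun k => k2 (.inl k)⟩,
    fun f hf k k' => inr_nd (site_inr h hY k) ((h.bip f hf).2 (inr_nd (site_inr h hY k')))⟩
  ps := h.ps
  hr := ⟨site_inr h hY, h.hr.2.1, disjoint_union_left.2 ⟨h.hr.2.2,
    disjoint_left.2 fun _ hy k => (hY hy).2 (.inr k)⟩⟩
  od := h.od
  bip := h.bip
  deg := fun f hf => ⟨fun k => (h.deg f hf).1 (site_ce k), (h.deg f hf).2⟩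
  rim := fun y hy =>
    let ⟨f, hf, k⟩ := h.rim y hy
    ⟨f, ⟨hf.1, .inl hf.2⟩, k⟩

theorem site_spk (h : s.Ok) (hY : Y ⊆ s.Ce) (hs : s.Spk) : (s.site Y).Spk := by
  rintro f ⟨hf, k | k⟩ g hg e1 e2
  · exact hs f ⟨hf, k⟩ g hg e1 e2
  · exact (h.hm.simple f hf).2 g hg (fun c => (hY k).2 (.inl c))
      (fun c => inr_nd (hY k).1.2 ((h.bip f hf).2 (h_nd h c))) e1 e2

theorem site_fc (hs : s.FC) : (s.site Y).FC :=
  have k : ∀ S, (s.site Y).Pk S → s.Pk S := fun _ k =>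
    ⟨k.sub.trans (union_subset_union_right _ site_ce), k.conn, k.node, k.out, k.cl, k.card⟩
  fun S S' a b => hs S S' (k S a) (k S' b)

theorem quad_b (h : s.Ok) (hf : f ∈ s.M.S) (hq : s.Quad f) : s.Quad (s.M.b f) := by
  have hM := h.hm.ok
  have m : ∀ z ∈ s.M.S, s.M.b (s.M.a z) ∈ s.M.S := fun z hz => hM.b_mem (hM.a_mem hz)
  have e : ∀ z ∈ s.M.S, s.M.b (s.M.a (s.M.b (s.M.b (s.M.a z)))) = s.M.b z := fun z hz => by
    rw [hM.bb (hM.a_mem hz), hM.aa hz]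
  have hq' : s.M.b (s.M.a (s.M.b (s.M.a (s.M.b (s.M.a (s.M.b (s.M.a f))))))) = f := hq
  change s.M.b (s.M.a (s.M.b (s.M.a (s.M.b (s.M.a (s.M.b (s.M.a (s.M.b f)))))))) = s.M.b f
  conv_lhs => rw [← hq', e _ (m _ (m _ (m _ hf))), e _ (m _ (m _ hf)), e _ (m _ hf), e _ hf]

theorem link_b (h : s.Ok) (hf : f ∈ s.M.S) (hq : s.Quad f) : s.link (s.M.b f) = s.link f := by
  have hM := h.hm.ok
  have m : ∀ z ∈ s.M.S, s.M.b (s.M.a z) ∈ s.M.S := fun z hz => hM.b_mem (hM.a_mem hz)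
  have e : ∀ z ∈ s.M.S, s.M.a (s.M.b (s.M.b (s.M.a z))) = z := fun z hz => by
    rw [hM.bb (hM.a_mem hz), hM.aa hz]
  have hq' : s.M.b (s.M.a (s.M.b (s.M.a (s.M.b (s.M.a (s.M.b (s.M.a f))))))) = f := hq
  unfold Sk.link
  conv_lhs => rw [← hq', e _ (m _ (m _ (m _ hf))), e _ (m _ (m _ hf))]
  exact h.hm.lbl.b hM (hM.a_mem (m _ hf))

theorem fl_card (h : s.Ok) (hY : Y ⊆ s.Ce) : (s.M.fl s.vx Y).ncard ≤ Y.ncard * 6 := by
  have hf : Y.Finite := (h.hm.ok.fin.image s.vx).subset fun _ hy => (hY hy).1.1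
  have e : s.M.fl s.vx Y = ⋃ y ∈ hf.toFinset, s.M.fl s.vx {y} := by
    ext f
    simp [FM.fl, and_comm]
  rw [e, ncard_eq_toFinset_card Y hf]
  refine nc_biUnion _ _ _ fun y hy => ?_
  have hy' := hY (hf.mem_toFinset.1 hy)
  obtain ⟨f, hf', rfl⟩ := hy'.1.1
  refine le_trans (ncard_le_ncard (fun g hg => (h.hm.lbl f hf' g hg.1).1 hg.2.symm)
    (h.hm.ok.fin.subset fun _ hg => h.hm.ok.vo_mem hf' hg)) ((h.deg f hf').1 hy')

/-- along the rotation the first arc is left or entered at four positions only -/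
theorem chg (h : s.Ok) (hs : s.Spk) (hf : f ∈ s.M.fl s.vx s.H) {n : ℕ}
    (hn : n ≤ (s.M.vo f).ncard / 2) : ∃ Z : Finset W, Z.card ≤ 4 ∧ ∀ g ∈ s.M.S, s.vx g = s.vx f →
      ¬(s.far g ∈ {v | ∃ i, 0 ≤ i ∧ i < n ∧ s.far (s.M.rot^[i] f) = v} ↔
        s.far (s.M.rot g) ∈ {v | ∃ i, 0 ≤ i ∧ i < n ∧ s.far (s.M.rot^[i] f) = v}) →
      s.far (s.M.rot g) ∈ Z := by
  classical
  have hM := h.hm.ok
  obtain ⟨r1, r0, r2, r3, r4, -⟩ := rotS _ s.M hM f hf.1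
  set N := (s.M.vo f).ncard / 2
  set w : ℕ → W := fun i => s.far (s.M.rot^[i] f) with hw
  have rS := fun i => hM.vo_mem hf.1 (r1 i)
  have rx := fun i => h.hm.lbl.of_vo hM hf.1 (r1 i)
  have md : ∀ i j, i ≡ j [MOD N] → w i = w j := fun i j e => congrArg s.far ((r2 i j).2 e)
  have inj : ∀ i j, w i = w j → i ≡ j [MOD N] := fun i j e => by
    have e1 := Sk.vx_far h (rS i) (rx i ▸ h_nd h hf.2)
    have e2 := Sk.vx_far h (rS j) (rx j ▸ h_nd h hf.2)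
    exact (r2 i j).1 ((hs _ ⟨rS j, rx j ▸ hf.2⟩ _ (rS i) ((rx i).trans (rx j).symm)
      (e1.trans ((congrArg _ e).trans e2.symm))).resolve_right (r3 i j))
  have mem : ∀ i, w i ∈ {v | ∃ i, 0 ≤ i ∧ i < n ∧ s.far (s.M.rot^[i] f) = v} ↔ i % N < n :=
    fun i => ⟨fun ⟨j, _, k, e⟩ => by
      have : j % N = i % N := inj j i e
      rwa [← this, Nat.mod_eq_of_lt (by omega)],
      fun k => ⟨i % N, Nat.zero_le _, k, md _ _ (Nat.mod_modEq i N)⟩⟩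
  have step : ∀ i, ¬(i % N < n ↔ (i + 1) % N < n) →
      w i ∈ ({w (n - 1), w n, w (N - 1), w 0} : Finset W) ∧
        w (i + 1) ∈ ({w (n - 1), w n, w (N - 1), w 0} : Finset W) := fun i k => by
    have l := Nat.mod_lt i r0
    rw [← md _ _ (Nat.mod_modEq i N), ← md _ _ (Nat.mod_modEq (i + 1) N)]
    rw [← Nat.mod_add_mod] at k ⊢
    by_cases c : i % N + 1 < N
    · rw [Nat.mod_eq_of_lt c] at k ⊢
      rw [show i % N + 1 = n by omega, show i % N = n - 1 by omega]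
      simp
    · rw [show i % N + 1 = N by omega, Nat.mod_self, show i % N = N - 1 by omega]
      simp
  refine ⟨{w (n - 1), w n, w (N - 1), w 0}, Finset.card_le_four, fun g hg e k => ?_⟩
  have fc : ∀ z ∈ s.M.S, s.far (s.M.c z) = s.far z := fun z hz => by
    rw [Sk.far, Sk.far, h.hm.lbl.ac hM hz]
  obtain ⟨i, -, rfl | rfl⟩ := r4 g ((h.hm.lbl f hf.1 g hg).1 e.symm)
  · rw [← iterate_succ_apply' s.M.rot] at k ⊢
    exact (step i (by rwa [← mem, ← mem])).2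
  · have e1 : i ≡ (i + N - 1) + 1 [MOD N] := by
      rw [show i + N - 1 + 1 = i + N by omega]
      exact (Nat.add_modEq_right).symm
    rw [(r2 _ _).2 e1, iterate_succ_apply', (rotS _ s.M hM _ (rS _)).2.2.2.2.2, fc _ (rS _),
      ← iterate_succ_apply' s.M.rot, fc _ (rS _)] at *
    exact (step (i + N - 1) (by rw [← mem, ← mem]; exact fun c => k c.symm)).1

end sk

section sh

variable {p : Par} (x : TM p)

/-- the hole of a side -/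
def hole (j : x.t.ι) : MV := x.t.s.vx (x.t.φ0 j)

variable {x}

theorem nl (v : W) : v ∉ x.t.Λ := by rw [x.h.lam]; exact notMem_empty v

theorem hole_mem (j : x.t.ι) : hole x j ∈ x.t.s.H ∩ x.t.s.Vt :=
  ⟨(x.h.ok.hole j).2, _, (x.h.ok.hole j).1, rfl⟩

theorem phi_mem (j : x.t.ι) (i : ℕ) : x.t.φ j i ∈ x.t.s.M.S ∧ x.t.s.vx (x.t.φ j i) = hole x j :=
  have hM := x.h.ok.ok.hm.ok
  have k := (rotS _ _ hM _ (x.h.ok.hole j).1).1 i
  ⟨hM.vo_mem (x.h.ok.hole j).1 k, x.h.ok.ok.hm.lbl.of_vo hM (x.h.ok.hole j).1 k⟩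

theorem u_nb (j : x.t.ι) (i : ℕ) : x.t.u j i ∈ x.t.s.nb (hole x j) :=
  (phi_mem j i).2 ▸ Sk.far_mem_nb x.h.ok.ok (phi_mem j i).1
    ((phi_mem j i).2 ▸ h_nd x.h.ok.ok (hole_mem j).1)

theorem kap_u {j : x.t.ι} {i : ℕ} {v : W} (hi : i ≤ x.t.m j) (hv : v ∈ x.t.κ j i)
    (k : Sum.inl v ∈ x.t.s.Vt) : v = x.t.u j i :=
  hv.resolve_right fun ⟨l, hl, e⟩ => (x.h.ok.inner j i hi l hl).2 (nl _) (e ▸ k)

theorem kap_b {j : x.t.ι} {i : ℕ} {v : W} (hv : v ∈ x.t.κ j i) (k : Sum.inl v ∉ x.t.s.Vt) :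
    ∃ l < x.t.d j, x.t.β j i l = v :=
  hv.resolve_left fun e => k (e ▸ nb_vt x.h.ok.ok (u_nb j i))

theorem mk_cases {v : W} (hv : v ∈ x.t.Mk) :
    (∃ y ∈ x.t.s.H ∩ x.t.s.Vt, v ∈ x.t.s.nb y) ∨
      ∃ j, ∃ i ≤ x.t.m j, ∃ l < x.t.d j, x.t.β j i l = v := by
  rcases hv with hv | ⟨f, hf, rfl⟩
  · obtain ⟨j, (rfl | k) | rfl | k⟩ := mem_iUnion.1 hv
    exacts [.inl ⟨_, hole_mem j, u_nb j _⟩, .inr ⟨j, 0, Nat.zero_le _, k⟩,
      .inl ⟨_, hole_mem j, u_nb j _⟩, .inr ⟨j, _, le_rfl, k⟩]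
  · exact .inl ⟨_, ⟨hf.1.2, f, hf.1.1, rfl⟩,
      Sk.far_mem_nb x.h.ok.ok hf.1.1 (h_nd x.h.ok.ok hf.1.2)⟩

theorem mk_prem {v : W} (hv : v ∈ x.t.Mk) :
    Sum.inl v ∈ x.t.s.Vt ∨ ∃ j, ∃ i ≤ x.t.m j, v ∈ x.t.κ j i :=
  (mk_cases hv).imp (fun ⟨_, _, k⟩ => nb_vt x.h.ok.ok k) fun ⟨j, i, hi, k⟩ => ⟨j, i, hi, .inr k⟩

theorem kap_card (j : x.t.ι) (i : ℕ) : (x.t.κ j i).ncard ≤ x.t.d j + 1 := by
  have e : {v | ∃ l < x.t.d j, x.t.β j i l = v} = x.t.β j i '' Iio (x.t.d j) := rfl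
  refine (ncard_union_le _ _).trans ?_
  rw [e, ncard_singleton, add_comm]
  exact Nat.succ_le_succ ((ncard_image_le (finite_Iio _)).trans (by simp))

theorem kap_fin (j : x.t.ι) (i : ℕ) : (x.t.κ j i).Finite :=
  (finite_singleton _).union ((finite_Iio _).image (x.t.β j i))

/-- the new owners -/
structure Ow (x : TM p) (ow : x.σ.ε → MV) : Prop where
  c : ∀ a y, x.t.own a = some (Sum.inl y) → ow a = y
  b : ∀ a j i, x.t.own a = some (Sum.inr (j, i)) → ow a = hole x j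
  r : ∀ a, x.t.own a = none → ow a ∈ x.t.s.H ∩ x.t.s.Vt ∧ ∀ v ∈ x.σ.inc a, v ∈ x.t.Mk ∧
    (Sum.inl v ∈ x.t.s.Vt → v ∈ x.t.s.nb (ow a)) ∧
    (∀ j, ∀ i ≤ x.t.m j, ∀ l < x.t.d j, x.t.β j i l = v → ow a = hole x j) ∧
    ∀ a', x.t.own a' = none → v ∈ x.σ.inc a' → ow a' = ow a

theorem exists_ow (x : TM p) : ∃ ow, Ow x ow := by
  have h1 : ∀ v, ∃ y, v ∈ x.t.Mk → y ∈ x.t.s.H ∩ x.t.s.Vt ∧
      (Sum.inl v ∈ x.t.s.Vt → v ∈ x.t.s.nb y) ∧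
      ∀ j, ∀ i ≤ x.t.m j, ∀ l < x.t.d j, x.t.β j i l = v → y = hole x j := fun v => by
    by_cases hv : v ∈ x.t.Mk
    · rcases mk_cases hv with ⟨y, hy, k⟩ | ⟨j, i, hi, l, hl, rfl⟩
      · exact ⟨y, fun _ => ⟨hy, fun _ => k, fun j i hi l hl e =>
          ((x.h.ok.inner j i hi l hl).2 (nl _) (e ▸ nb_vt x.h.ok.ok k)).elim⟩⟩
      · exact ⟨hole x j, fun _ => ⟨hole_mem j, fun k =>
          ((x.h.ok.inner j i hi l hl).2 (nl _) k).elim, fun j' i' hi' l' hl' e => by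
            rw [(x.h.ok.priv j' j i' hi' i hi l' hl' l hl (nl _) e).1]⟩⟩
    · exact ⟨Sum.inr 0, fun k => (hv k).elim⟩
  choose h hh using h1
  have h2 : ∀ a, ∃ v, x.t.own a = none → v ∈ x.t.Mk ∧ ∀ w ∈ x.σ.inc a, w = v := fun a => by
    by_cases ha : x.t.own a = none
    · obtain ⟨v, hv, e⟩ := x.h.pend a ha
      refine ⟨v, fun _ => ⟨hv, ?_⟩⟩
      rintro w ⟨⟨q, hq, k⟩, n, hn⟩
      rw [e, mem_singleton_iff] at hq
      subst hq
      exact k.resolve_right fun k => by rw [k] at hn; cases hn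
    · exact ⟨Sum.inr 0, fun k => (ha k).elim⟩
  choose pv hp using h2
  refine ⟨fun a => (x.t.own a).elim (h (pv a)) (Sum.elim id fun q => hole x q.1),
    fun a y e => by simp [e], fun a j i e => by simp [e], fun a e => ?_⟩
  obtain ⟨k1, k2⟩ := hp a e
  simp only [e, Option.elim_none]
  refine ⟨(hh _ k1).1, fun v hv => ?_⟩
  obtain rfl := k2 v hv
  refine ⟨k1, (hh _ k1).2.1, (hh _ k1).2.2, fun a' e' k => ?_⟩
  simp only [e', Option.elim_none, ← (hp a' e').2 _ k]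

variable {ow : x.σ.ε → MV}

theorem Ow.ct (h : Ow x ow) {y : MV} (hy : y ∈ x.t.s.Ce) (a : x.σ.ε) :
    ow a = y ↔ x.t.own a = some (Sum.inl y) := by
  refine ⟨fun e => ?_, h.c a y⟩
  rcases k : x.t.own a with _ | z | ⟨j, i⟩
  · exact (hy.2 (.inl (e ▸ (h.r a k).1.1))).elim
  · rw [← e, h.c a z k]
  · exact (hy.2 (.inl (e ▸ h.b a j i k ▸ (hole_mem j).1))).elim

theorem Ow.node (h : Ow x ow) {a : x.σ.ε} {v : W} (hv : v ∈ x.σ.inc a)
    (k : Sum.inl v ∈ x.t.s.Vt) : v ∈ x.t.s.nb (ow a) := by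
  obtain ⟨s1, s2, -⟩ := x.h.ok.share a v ⟨hv, nl v⟩ (.inl k)
  rcases e : x.t.own a with _ | z | ⟨j, i⟩
  · exact ((h.r a e).2 v hv).2.1 k
  · exact h.c a z e ▸ s1 z e
  · have hi := x.h.ok.ownb a j i e
    rw [h.b a j i e]
    rcases s2 j i e with c | c
    · exact kap_u hi.le c k ▸ u_nb j i
    · exact kap_u hi c k ▸ u_nb j (i + 1)

theorem Ow.beta (h : Ow x ow) {a : x.σ.ε} {j : x.t.ι} {i l : ℕ} (hi : i ≤ x.t.m j)
    (hl : l < x.t.d j) (hv : x.t.β j i l ∈ x.σ.inc a) : ow a = hole x j := by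
  have k := (x.h.ok.inner j i hi l hl).2 (nl _)
  obtain ⟨s1, s2, -⟩ := x.h.ok.share a _ ⟨hv, nl _⟩ (.inr (.inl ⟨j, i, hi, .inr ⟨l, hl, rfl⟩⟩))
  rcases e : x.t.own a with _ | z | ⟨j', i'⟩
  · exact ((h.r a e).2 _ hv).2.2.1 j i hi l hl rfl
  · exact (k (nb_vt x.h.ok.ok (s1 z e))).elim
  · have hi' := x.h.ok.ownb a j' i' e
    rw [h.b a j' i' e]
    rcases s2 j' i' e with c | c <;> obtain ⟨l', hl', c⟩ := kap_b c k
    · rw [(x.h.ok.priv j' j i' hi'.le i hi l' hl' l hl (nl _) c).1]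
    · rw [(x.h.ok.priv j' j _ hi' i hi l' hl' l hl (nl _) c).1]

theorem shared {a a' : x.σ.ε} {v : W} (hv : v ∈ x.σ.inc a) (hv' : v ∈ x.σ.inc a')
    (k : Sum.inl v ∉ x.t.s.Vt) (h1 : x.t.own a' ≠ x.t.own a) (h2 : x.t.own a' ≠ none) :
    ∃ j, ∃ i ≤ x.t.m j, ∃ l < x.t.d j, x.t.β j i l = v := by
  obtain ⟨s1, s2, s3⟩ := x.h.ok.share a _ ⟨hv, nl _⟩ (.inr (.inr ⟨a', h1, h2, hv'⟩))
  rcases e : x.t.own a with _ | z | ⟨j, i⟩
  · exact (mk_cases (s3 e)).resolve_left fun ⟨_, _, c⟩ => k (nb_vt x.h.ok.ok c)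
  · exact (k (nb_vt x.h.ok.ok (s1 z e))).elim
  · have hi := x.h.ok.ownb a j i e
    exact (s2 j i e).elim (fun c => ⟨j, i, hi.le, kap_b c k⟩) fun c => ⟨j, _, hi, kap_b c k⟩

theorem Ow.same (h : Ow x ow) {a a' : x.σ.ε} {v : W} (hv : v ∈ x.σ.inc a) (hv' : v ∈ x.σ.inc a')
    (k : Sum.inl v ∉ x.t.s.Vt) : ow a' = ow a := by
  by_cases c : x.t.own a' = x.t.own a
  · rcases e : x.t.own a with _ | z | ⟨j, i⟩
    · exact ((h.r a e).2 v hv).2.2.2 a' (c.trans e) hv'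
    · rw [h.c a z e, h.c a' z (c.trans e)]
    · rw [h.b a j i e, h.b a' j i (c.trans e)]
  · obtain ⟨j, i, hi, l, hl, rfl⟩ : ∃ j, ∃ i ≤ x.t.m j, ∃ l < x.t.d j, x.t.β j i l = v := by
      by_cases c' : x.t.own a' = none
      · exact shared hv' hv k (Ne.symm c) fun e => c (c'.trans e.symm)
      · exact shared hv hv' k c c'
    rw [h.beta hi hl hv, h.beta hi hl hv']

theorem bd_cell {y : MV} (hy : y ∈ x.t.s.Ce) {a : x.σ.ε} (e : x.t.ct y = {a}) (h : Ow x ow) :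
    x.σ.bd {a} = x.t.s.nb y := by
  refine subset_antisymm ?_ (e ▸ (x.h.ok.solid y hy).2)
  rintro v ⟨⟨a0, h0, hv⟩, a', ha', hv'⟩
  rw [mem_singleton_iff.1 h0] at hv
  have ea : x.t.own a = some (Sum.inl y) := (e ▸ mem_singleton a : a ∈ x.t.ct y)
  refine (x.h.ok.share a v ⟨hv, nl v⟩ ?_).1 y ea
  by_cases c : x.t.own a' = none
  · exact (mk_prem ((h.r a' c).2 v hv').1).imp_right .inl
  · exact .inr (.inr ⟨a', fun k => ha' (e ▸ (k.trans ea : a' ∈ x.t.ct y)), c, hv'⟩)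

theorem exists_chg {P : ℕ → Prop} {i i' : ℕ} (hi : i ≤ i') (h : ¬(P i ↔ P i')) :
    ∃ k, i ≤ k ∧ k < i' ∧ ¬(P k ↔ P (k + 1)) := by
  induction i', hi using Nat.le_induction with
  | base => exact (h Iff.rfl).elim
  | succ n hn ih =>
    by_cases c : P n ↔ P (n + 1)
    · obtain ⟨k, k1, k2, k3⟩ := ih fun e => h (e.trans c)
      exact ⟨k, k1, by omega, k3⟩
    · exact ⟨n, hn, by omega, c⟩

/-- the cut of the content of a hole that belongs to a set `A` of positions -/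
theorem Ow.cut (h : Ow x ow) {y : MV} (hy : y ∈ x.t.s.H) {A A' : Set W}
    (hA : ∀ v ∈ A ∪ A', Sum.inl v ∈ x.t.s.Vt) : ∃ U ⊆ {a | ow a = y}, ∀ v,
      v ∈ ((x.σ.vs U ∪ A) ∩ (x.σ.vs ({a | ow a = y} \ U) ∪ A')) \ (∅ ∪ A ∩ A') → v ∈ x.t.Mk ∨
        ∃ j k, hole x j = y ∧ k < x.t.m j ∧ ¬(x.t.u j k ∈ A ↔ x.t.u j (k + 1) ∈ A) ∧
          v ∈ x.t.κ j (k + 1) := by
  refine ⟨{a | ow a = y ∧ ∀ j i, x.t.own a = some (Sum.inr (j, i)) → x.t.u j i ∈ A},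
    fun _ k => k.1, fun v ⟨⟨h0, h1⟩, h2⟩ => or_iff_not_imp_left.2 fun hm => ?_⟩
  have bag : ∀ a, ow a = y → v ∈ x.σ.inc a → ∃ j i, x.t.own a = some (Sum.inr (j, i)) ∧
      hole x j = y ∧ i < x.t.m j := fun a e hv => by
    rcases k : x.t.own a with _ | z | ⟨j, i⟩
    · exact (hm ((h.r a k).2 v hv).1).elim
    · exact ((x.h.ok.ownc a z k).2 (.inl (h.c a z k ▸ e ▸ hy))).elim
    · exact ⟨j, i, rfl, (h.b a j i k).symm.trans e, x.h.ok.ownb a j i k⟩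
  have b0 : v ∉ A → ∃ a j i, v ∈ x.σ.inc a ∧ x.t.own a = some (Sum.inr (j, i)) ∧
      hole x j = y ∧ i < x.t.m j ∧ x.t.u j i ∈ A := fun c => by
    obtain ⟨a, ha, hv⟩ := mem_iUnion₂.1 (h0.resolve_right c)
    obtain ⟨j, i, k1, k2, k3⟩ := bag a ha.1 hv
    exact ⟨a, j, i, hv, k1, k2, k3, ha.2 j i k1⟩
  have b1 : v ∉ A' → ∃ a j i, v ∈ x.σ.inc a ∧ x.t.own a = some (Sum.inr (j, i)) ∧
      hole x j = y ∧ i < x.t.m j ∧ x.t.u j i ∉ A := fun c => by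
    obtain ⟨a, ha, hv⟩ := mem_iUnion₂.1 (h1.resolve_right c)
    obtain ⟨j, i, k1, k2, k3⟩ := bag a ha.1 hv
    refine ⟨a, j, i, hv, k1, k2, k3, fun c => ha.2 ⟨ha.1, fun j' i' e => ?_⟩⟩
    obtain ⟨rfl, rfl⟩ := Prod.mk.inj (Sum.inr.inj (Option.some.inj (k1.symm.trans e)))
    exact c
  by_cases hn : Sum.inl v ∈ x.t.s.Vt
  · obtain ⟨a, j, i, k0, k1, k2, k3, k4⟩ : ∃ a j i, v ∈ x.σ.inc a ∧
        x.t.own a = some (Sum.inr (j, i)) ∧ hole x j = y ∧ i < x.t.m j ∧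
        ¬(x.t.u j i ∈ A ↔ v ∈ A) := by
      by_cases c : v ∈ A
      · obtain ⟨a, j, i, k0, k1, k2, k3, k4⟩ := b1 fun c' => h2 (.inr ⟨c, c'⟩)
        exact ⟨a, j, i, k0, k1, k2, k3, fun e => k4 (e.2 c)⟩
      · obtain ⟨a, j, i, k0, k1, k2, k3, k4⟩ := b0 c
        exact ⟨a, j, i, k0, k1, k2, k3, fun e => c (e.1 k4)⟩
    rcases (x.h.ok.share a v ⟨k0, nl v⟩ (.inl hn)).2.1 j i k1 with c | c
    · exact (k4 (by rw [← kap_u k3.le c hn])).elim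
    · exact ⟨j, i, k2, k3, kap_u k3 c hn ▸ k4, c⟩
  obtain ⟨a, j, i, k0, k1, k2, k3, k4⟩ := b0 fun c => hn (hA v (.inl c))
  obtain ⟨a', j', i', l0, l1, -, l3, l4⟩ := b1 fun c => hn (hA v (.inr c))
  have ne : x.t.own a' ≠ x.t.own a := fun e => by
    obtain ⟨rfl, rfl⟩ := Prod.mk.inj (Sum.inr.inj (Option.some.inj (k1.symm.trans (e.symm.trans l1))))
    exact l4 k4
  have one : ∀ {a a' j i}, v ∈ x.σ.inc a → v ∈ x.σ.inc a' → x.t.own a' ≠ x.t.own a →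
      x.t.own a' ≠ none → x.t.own a = some (Sum.inr (j, i)) →
      ∃ i1, i ≤ i1 ∧ i1 ≤ i + 1 ∧ ∃ l < x.t.d j, x.t.β j i1 l = v := fun {a a' j i} q0 q1 q2 q3 q4 =>
    ((x.h.ok.share a v ⟨q0, nl v⟩ (.inr (.inr ⟨a', q2, q3, q1⟩))).2.1 j i q4).elim
      (fun c => ⟨i, le_rfl, Nat.le_succ i, kap_b c hn⟩) fun c => ⟨_, Nat.le_succ i, le_rfl, kap_b c hn⟩
  obtain ⟨i1, m1, m2, l, hl, e⟩ := one k0 l0 ne (by simp [l1]) k1
  obtain ⟨i2, n1, n2, l', hl', e'⟩ := one l0 k0 ne.symm (by simp [k1]) l1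
  obtain ⟨rfl, rfl⟩ := x.h.ok.priv j j' i1 (by omega) i2 (by omega) l hl l' hl' (nl _)
    (e.trans e'.symm)
  rcases le_total i i' with c | c
  · obtain ⟨k, q1, q2, q3⟩ := exists_chg (P := fun i => x.t.u j i ∈ A) c fun e => l4 (e.1 k4)
    exact ⟨j, k, k2, by omega, q3, .inr ⟨l, hl, (x.h.ok.conv j l hl i1 (k + 1) i2 (by omega)
      (by omega) (by omega) (nl _) (e.trans e'.symm)).trans e⟩⟩
  · obtain ⟨k, q1, q2, q3⟩ := exists_chg (P := fun i => x.t.u j i ∈ A) c fun e => l4 (e.2 k4)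
    exact ⟨j, k, k2, by omega, q3, .inr ⟨l, hl, (x.h.ok.conv j l hl i2 (k + 1) i1 (by omega)
      (by omega) (by omega) (nl _) (e'.trans e.symm)).trans e'⟩⟩

/-- the spokes whose link is a site -/
def Ql (x : TM p) (Y : Set MV) : Set x.t.s.Φ :=
  {f | ∃ j, ∃ i < x.t.m j, f = x.t.φ j i ∧ x.t.lk j i ∈ Y}

theorem ql_card {Y : Set MV} (hY : Y.Finite) : (Ql x Y).Finite ∧ (Ql x Y).ncard ≤ Y.ncard := by
  refine ⟨x.h.ok.ok.hm.ok.fin.subset ?_, ncard_le_ncard_of_injOn x.t.s.link ?_ ?_ hY⟩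
  · rintro _ ⟨j, i, -, rfl, -⟩
    exact (phi_mem j i).1
  · rintro _ ⟨j, i, -, rfl, k⟩
    exact k
  · rintro _ ⟨j, i, hi, rfl, -⟩ _ ⟨j', i', hi', rfl, -⟩ e
    obtain ⟨rfl, rfl⟩ := x.h.ok.lkinj j j' i hi i' hi' e
    rfl

theorem opn_sub {Y : Set MV} {f : x.t.s.Φ} (hf : f ∈ x.t.s.M.fl x.t.s.vx (x.t.s.H ∪ Y))
    (hq : ¬(x.t.s.Quad f ∧ x.t.s.link f ∉ x.t.s.H ∪ Y)) :
    f ∈ (x.t.Sg ∪ x.t.s.M.fl x.t.s.vx Y) ∪ (Ql x Y ∪ x.t.s.M.b '' Ql x Y) := by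
  have ql : ∀ j, ∀ i < x.t.m j, x.t.lk j i ∈ x.t.s.H ∪ Y → x.t.φ j i ∈ Ql x Y := fun j i hi k =>
    ⟨j, i, hi, rfl, k.resolve_left fun c => (x.h.ok.quad j i hi).2.elim
      (disjoint_left.1 x.h.ok.ok.hr.2.2 c) fun c' => c'.2 (.inl c)⟩
  rcases hf.2 with k | k
  · by_cases c : f ∈ x.t.Fx
    · exact .inl (.inl (.inl c))
    obtain ⟨j, i, hi, e⟩ : ∃ j, ∃ i ≤ x.t.m j, f = x.t.φ j i ∨ f = x.t.s.M.c (x.t.φ j i) := by
      by_contra c'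
      exact c ⟨⟨hf.1, k⟩, fun j i hi =>
        ⟨fun e => c' ⟨j, i, hi, .inl e⟩, fun e => c' ⟨j, i, hi, .inr e⟩⟩⟩
    rcases e with rfl | rfl
    · rcases hi.lt_or_eq with hi | rfl
      · exact .inr (.inl (ql j i hi (by_contra fun q => hq ⟨(x.h.ok.quad j i hi).1, q⟩)))
      · exact .inl (.inl (.inr ⟨j, .inr (.inr (.inl rfl))⟩))
    · rcases i with _ | i
      · exact .inl (.inl (.inr ⟨j, .inr (.inl rfl)⟩))
      · have hM := x.h.ok.ok.hm.ok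
        have e : x.t.φ j (i + 1) = x.t.s.M.c (x.t.s.M.b (x.t.φ j i)) := iterate_succ_apply' _ _ _
        have q0 := (x.h.ok.quad j i hi).1
        rw [e, hM.cc (hM.b_mem (phi_mem j i).1)] at hq ⊢
        rw [link_b x.h.ok.ok (phi_mem j i).1 q0] at hq
        exact .inr (.inr ⟨_, ql j i hi (by_contra fun q =>
          hq ⟨quad_b x.h.ok.ok (phi_mem j i).1 q0, q⟩), rfl⟩)
  · exact .inl (.inr ⟨hf.1, k⟩)

end sh

end ToRaw

open ToRaw in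
theorem toRawS : TameS → ToRawS := by
  intro tm p n
  obtain ⟨n0, tm⟩ := tm p
  refine ⟨n0 + n * 6 + (n + n), p.c + n0 * (4 * (n0 + 1)) + 3, fun x Y hY hn => ?_⟩
  obtain ⟨t1, t2, t3, t4, t5, -, -, -, -, -, -, -, -, t6, -⟩ := tm x
  obtain ⟨ow, h⟩ := exists_ow x
  have hk := x.h.ok.ok
  have hM := hk.hm.ok
  have hYf : Y.Finite := (hM.fin.image x.t.s.vx).subset fun _ hy => (hY hy).1.1
  let r : Rw x.σ := ⟨x.t.s.site Y, ∅, fun a => some (ow a)⟩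
  have rc : ∀ y, r.ct y = {a | ow a = y} := fun y => Set.ext fun a => Option.some_inj
  have ct : ∀ y ∈ x.t.s.Ce, r.ct y = x.t.ct y := fun y hy => by
    rw [rc]
    exact Set.ext fun a => h.ct hy a
  refine ⟨r, rfl, ⟨site_ok hk hY, x.h.eg, ?_, ?_, ⟨empty_subset _, finite_empty, by simp [r]⟩,
    fun v k => k.elim, fun a v k => k.1.elim, fun a y e => ?_, fun a v hv k => ?_,
    fun y hy => ?_, fun f hf n' hn' => ?_⟩, site_spk hk hY x.h.ok.spoke,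
    ⟨fun y hy => ?_, site_fc x.h.fc⟩, ct⟩
  · refine le_trans (ncard_le_ncard (t := (x.t.s.H ∩ x.t.s.Vt) ∪ Y)
      (fun y hy => hy.1.imp_left fun k => ⟨k, hy.2⟩)
      (((hM.fin.image x.t.s.vx).subset inter_subset_right).union hYf)) ?_
    exact (ncard_union_le _ _).trans (add_le_add x.h.holes hn)
  · obtain ⟨q1, q2⟩ := ql_card (x := x) hYf
    refine le_trans (ncard_le_ncard (fun f hf => opn_sub hf.1 hf.2)
      ((t3.union (hM.fin.subset fun _ k => k.1)).union (q1.union (q1.image _)))) ?_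
    exact (ncard_union_le _ _).trans (add_le_add ((ncard_union_le _ _).trans (add_le_add t4
      ((fl_card hk hY).trans (Nat.mul_le_mul_right _ hn)))) ((ncard_union_le _ _).trans
      (add_le_add (q2.trans hn) ((ncard_image_le q1).trans (q2.trans hn)))))
  · obtain rfl := Option.some.inj e
    rcases k : x.t.own a with _ | z | ⟨j, i⟩
    · exact .inr ⟨.inl (h.r a k).1.1, (h.r a k).1.2⟩
    · have hz := x.h.ok.ownc a z k
      rw [h.c a z k]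
      by_cases c : z ∈ Y
      · exact .inr ⟨.inr c, hz.1.1⟩
      · exact .inl ⟨hz.1, fun q => q.elim (fun q => q.elim (fun q => hz.2 (.inl q)) c)
          fun q => hz.2 (.inr q)⟩
    · rw [h.b a j i k]
      exact .inr ⟨.inl (hole_mem j).1, (hole_mem j).2⟩
  · refine ⟨ow a, rfl, h.node hv.1 (by_contra fun c => ?_)⟩
    obtain ⟨a', e, hv'⟩ := k.resolve_left c
    exact e (congrArg some (h.same hv.1 hv' c))
  · have := (x.h.ok.solid y (site_ce hy)).1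
    rw [x.h.lam, empty_sdiff] at this
    rw [ct y (site_ce hy)]
    exact (sdiff_empty (s := x.t.s.nb y)).symm ▸ this
  · rcases hf.2 with k | k
    · have rt := (rotS _ _ hM f hf.1).1
      obtain ⟨Z, z1, z2⟩ := chg hk x.h.ok.spoke ⟨hf.1, k⟩ hn'
      obtain ⟨U, u1, u2⟩ := h.cut k (A := r.arc f 0 n') (A' := r.arc f n' (r.dg f)) (by
        rintro v (⟨i, -, -, rfl⟩ | ⟨i, -, -, rfl⟩) <;>
          exact far_vt hk (hM.vo_mem hf.1 (rt i)) (hk.hm.lbl.of_vo hM hf.1 (rt i) ▸ h_nd hk k))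
      rw [rc]
      refine ⟨U, u1, ?_⟩
      let K : x.t.ι → W → Set W := fun j z => {v | ∃ i ≤ x.t.m j, x.t.u j i = z ∧ v ∈ x.t.κ j i}
      have kk : ∀ j z, (K j z).Finite ∧ (K j z).ncard ≤ n0 + 1 := fun j z => by
        by_cases c : ∃ i ≤ x.t.m j, x.t.u j i = z
        · obtain ⟨i, hi, rfl⟩ := c
          have : K j (x.t.u j i) ⊆ x.t.κ j i := fun v ⟨i', hi', e, hv⟩ => t6 j i' hi' i hi e ▸ hv
          exact ⟨(kap_fin j i).subset this, (ncard_le_ncard this (kap_fin j i)).trans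
            ((kap_card j i).trans (Nat.succ_le_succ (t1 j).2.2))⟩
        · have : K j z = ∅ := eq_empty_of_forall_notMem fun v ⟨i, hi, e, _⟩ => c ⟨i, hi, e⟩
          simp [this]
      refine le_trans (ncard_le_ncard (t := x.t.Mk ∪ ⋃ j ∈ Finset.univ, ⋃ z ∈ Z, K j z)
        (fun v hv => (u2 v hv).imp_right ?_) (t5.union (Finset.univ.finite_toSet.biUnion
          fun j _ => Z.finite_toSet.biUnion fun z _ => (kk j z).1))) ?_
      · rintro ⟨j, i, e, hi, c, hv⟩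
        refine mem_iUnion₂.2 ⟨j, Finset.mem_univ j, mem_iUnion₂.2 ⟨_, ?_, i + 1, hi, rfl, hv⟩⟩
        have e1 : x.t.u j (i + 1) = x.t.s.far (x.t.s.M.rot (x.t.φ j i)) := by
          rw [Sh.u, Sh.φ, iterate_succ_apply']; rfl
        rw [e1] at c ⊢
        exact z2 _ (phi_mem j i).1 ((phi_mem j i).2.trans e) c
      · refine (ncard_union_le _ _).trans (le_trans (add_le_add x.h.marks
          ((nc_biUnion _ _ (4 * (n0 + 1)) fun j _ => (nc_biUnion _ _ _ fun z _ => (kk j z).2).trans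
            (Nat.mul_le_mul_right _ z1)).trans (Nat.mul_le_mul_right _ t2))) (Nat.le_add_right _ _))
    · refine ⟨∅, empty_subset _, le_trans (ncard_le_ncard
        (t := (fun i => x.t.s.far (x.t.s.M.rot^[i] f)) '' Iio 3) ?_ ((finite_Iio _).image _)) ?_⟩
      · rintro v ⟨⟨hv | ⟨i, -, hi, e⟩, -⟩, -⟩
        · simp [AG.vs] at hv
        · have : (x.t.s.M.vo f).ncard ≤ 6 := (hk.deg f hf.1).1 (hY k)
          have h3 : n' ≤ (x.t.s.M.vo f).ncard / 2 := hn'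
          exact ⟨i, show i < 3 by omega, e⟩
      · exact (ncard_image_le (finite_Iio _)).trans (by simp)
  · obtain ⟨a, e, k⟩ := x.h.cell y (site_ce hy.1)
    exact ⟨a, (ct y (site_ce hy.1)).trans e, fun v hv => hv.2.elim,
      bd_cell (site_ce hy.1) e h, k⟩

end Pool.Agent.MP_9d78a0_co.gm

end MrgPart0

-- ======== part 1: formerly Pool.Agent.MP_9d78a0_co.gm.RtMid
section MrgPart1

/-! Routing from the classification of words. -/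

set_option autoImplicit false

namespace Pool.Agent.MP_9d78a0_co.gm

theorem rtS_cls (hW : ClassS) : RtS :=
  rtS_of (newS (hangS coreS) (orderS coreS) coreS) (shellS coreS) hW

end Pool.Agent.MP_9d78a0_co.gm

end MrgPart1

-- ======== part 2: formerly Pool.Agent.MP_9d78a0_co.gm.RWord
section MrgPart2

/-! Block WORDS: star maps with the same invariants have the same drawings. -/

set_option autoImplicit false

namespace Pool.Agent.MP_9d78a0_co.gm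

theorem classS : ClassS :=
  bridgeS parWS starWS bndWS (wordS rotWS (slideS rotWS) delWS renWS)

end Pool.Agent.MP_9d78a0_co.gm

end MrgPart2

-- ======== part 3: formerly Pool.Agent.MP_9d78a0_co.gm.RtFin
section MrgPart3

/-! The routing theorem. -/

set_option autoImplicit false

namespace Pool.Agent.MP_9d78a0_co.gm

theorem rtS : RtS := rtS_cls classS

end Pool.Agent.MP_9d78a0_co.gm

end MrgPart3

-- ======== part 4: formerly Pool.Agent.MP_9d78a0_co.gm.HConv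
section MrgPart4

/-! Block H: a structure with sides is a raw structure. -/

set_option autoImplicit false

namespace Pool.Agent.MP_9d78a0_co.gm

open Set Function

namespace HConv

open ToRaw (h_nd far_vt nb_vt quad_b link_b exists_chg nc_biUnion)

theorem nc_bi {ι α : Type} {T : Set ι} (hT : T.Finite) (s : ι → Set α) (c : ℕ)
    (h : ∀ i ∈ T, (s i).ncard ≤ c) : (⋃ i ∈ T, s i).ncard ≤ T.ncard * c := by
  have e : (⋃ i ∈ T, s i) = ⋃ i ∈ hT.toFinset, s i := by simp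
  rw [e, ncard_eq_toFinset_card T hT]
  exact nc_biUnion _ _ _ fun i hi => h i (hT.mem_toFinset.1 hi)

theorem solid_cut {X : Pc} {R L : Set W} (h : Solid X R (L \ R)) : Solid X (R \ L) L where
  sub := fun r hr => ⟨(h.sub hr.1).1, hr.2⟩
  card := ⟨h.card.1.subset sdiff_subset,
    (ncard_le_ncard sdiff_subset h.card.1).trans h.card.2⟩
  two := fun r hr s hs => by
    refine Link.mono ?_ (h.two r hr.1 s hs.1)
    intro v hv
    refine ⟨⟨hv.1.1, fun k => ?_⟩, fun k => hv.2 ⟨k.1.1, k.2⟩⟩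
    have h1 : v ∈ R := by_contra fun c => hv.1.2 ⟨k, c⟩
    have h2 : v ∈ ({r, s} : Set W) := by_contra fun c => hv.2 ⟨h1, c⟩
    rcases h2 with rfl | rfl
    exacts [hr.2 k, hs.2 k]
  three := fun c => by
    have h1 := ncard_le_ncard (sdiff_subset (s := R) (t := L)) h.card.1
    have h2 := h.card.2
    obtain ⟨Y, a1, a2, a3⟩ := h.three (by omega)
    exact ⟨Y, fun y hy => ⟨⟨(a1 hy).1.1, fun k => (a1 hy).1.2 ⟨k, (a1 hy).2⟩⟩,
      fun k => (a1 hy).2 k.1⟩, a2, fun r hr => a3 r hr.1⟩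

theorem two_val {x : ZMod 2} (h : x ≠ 0) : x = 1 := by
  revert x; decide

variable {σ : AG} {t : Sh σ}

theorem sh_of_bd {U : Set σ.ε} {v : W} (h : v ∈ σ.bd U) : v ∈ σ.sh := by
  obtain ⟨⟨a, ha, hv⟩, a', ha', hv'⟩ := h
  exact mem_iUnion.2 ⟨a, ⟨a, rfl, hv⟩, a', fun e => ha' (mem_singleton_iff.1 e ▸ ha), hv'⟩

theorem phi_mem (h : t.Ok) (j : t.ι) (i : ℕ) :
    t.φ j i ∈ t.s.M.S ∧ t.s.vx (t.φ j i) = t.s.vx (t.φ0 j) :=
  have hM := h.ok.hm.ok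
  have k := (rotS _ _ hM _ (h.hole j).1).1 i
  ⟨hM.vo_mem (h.hole j).1 k, h.ok.hm.lbl.of_vo hM (h.hole j).1 k⟩

theorem u_nb (h : t.Ok) (j : t.ι) (i : ℕ) : t.u j i ∈ t.s.nb (t.s.vx (t.φ0 j)) :=
  (phi_mem h j i).2 ▸ Sk.far_mem_nb h.ok (phi_mem h j i).1
    ((phi_mem h j i).2 ▸ h_nd h.ok (h.hole j).2)

theorem kap_u (h : t.Ok) {j : t.ι} {i : ℕ} {v : W} (hi : i ≤ t.m j) (hv : v ∈ t.κ j i)
    (hl : v ∉ t.Λ) (k : Sum.inl v ∈ t.s.Vt) : v = t.u j i :=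
  hv.resolve_right fun ⟨l, hl', e⟩ => (h.inner j i hi l hl').2 (e ▸ hl) (e ▸ k)

theorem kap_b (h : t.Ok) {j : t.ι} {i : ℕ} {v : W} (hv : v ∈ t.κ j i)
    (k : Sum.inl v ∉ t.s.Vt) : ∃ l < t.d j, t.β j i l = v :=
  hv.resolve_left fun e => k (e ▸ nb_vt h.ok (u_nb h j i))

theorem kap_card (j : t.ι) (i : ℕ) : (t.κ j i).ncard ≤ t.d j + 1 := by
  have e : {v | ∃ l < t.d j, t.β j i l = v} = t.β j i '' Iio (t.d j) := rfl
  refine (ncard_union_le _ _).trans ?_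
  rw [e, ncard_singleton, add_comm]
  exact Nat.succ_le_succ ((ncard_image_le (finite_Iio _)).trans (by simp))

theorem kap_fin (j : t.ι) (i : ℕ) : (t.κ j i).Finite :=
  (finite_singleton _).union ((finite_Iio _).image (t.β j i))

theorem mk_cases {v : W} (hv : v ∈ t.Mk) :
    v ∈ t.s.far '' t.Fx ∨ ∃ j, ∃ i ≤ t.m j, v ∈ t.κ j i := by
  rcases hv with hv | hv
  · obtain ⟨j, k | k⟩ := mem_iUnion.1 hv
    exacts [.inr ⟨j, 0, Nat.zero_le _, k⟩, .inr ⟨j, _, le_rfl, k⟩]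
  · exact .inl hv

theorem fx_po (h : t.Ok) {v : W} (hv : v ∈ t.s.far '' t.Fx) : v ∈ t.s.Po := by
  obtain ⟨f, hf, rfl⟩ := hv
  exact ⟨_, hf.1.2, Sk.far_mem_nb h.ok hf.1.1 (h_nd h.ok hf.1.2)⟩

theorem fx_vt (h : t.Ok) {v : W} (hv : v ∈ t.s.far '' t.Fx) : Sum.inl v ∈ t.s.Vt :=
  let ⟨_, _, k⟩ := fx_po h hv
  nb_vt h.ok k

theorem mk_fin (h : t.Ok) : t.Mk.Finite :=
  (finite_iUnion fun j => (kap_fin j 0).union (kap_fin j _)).union
    ((h.ok.hm.ok.fin.subset fun _ k => k.1.1).image _)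

theorem mk_od (h : t.Ok) : t.Mk ⊆ Od := fun v hv => by
  rcases mk_cases hv with k | ⟨j, i, hi, rfl | ⟨l, hl, rfl⟩⟩
  · exact h.ok.od v (fx_vt h k)
  · exact h.ok.od _ (nb_vt h.ok (u_nb h j i))
  · exact (h.inner j i hi l hl).1

theorem lam_po (h : t.Ok) {v : W} (hv : v ∈ t.Λ ∪ t.Mk) (k : Sum.inl v ∈ t.s.Vt) :
    v ∈ t.s.Po := by
  by_cases c : v ∈ t.Λ
  · exact fx_po h (h.lamn v c k)
  rcases mk_cases (hv.resolve_left c) with q | ⟨j, i, hi, q⟩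
  · exact fx_po h q
  · exact ⟨_, (h.hole j).2, kap_u h hi q c k ▸ u_nb h j i⟩

theorem own_cases (a : σ.ε) (x : MV) : t.toRw.own a = some x ↔
    t.own a = some (Sum.inl x) ∨ ∃ j i, t.own a = some (Sum.inr (j, i)) ∧ t.s.vx (t.φ0 j) = x := by
  change (t.own a).map _ = _ ↔ _
  rcases t.own a with _ | y | ⟨j, i⟩
  · simp
  · simp
  · simp only [Option.map_some, Sum.elim_inr, Option.some.injEq, reduceCtorEq, false_or,
      Sum.inr.injEq, Prod.mk.injEq]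
    exact ⟨fun e => ⟨j, i, ⟨rfl, rfl⟩, e⟩, fun ⟨_, _, ⟨e1, _⟩, e⟩ => e1 ▸ e⟩

theorem ct_cell (h : t.Ok) {x : MV} (hx : x ∈ t.s.Ce) : t.toRw.ct x = t.ct x :=
  Set.ext fun a => (own_cases a x).trans ⟨fun k => k.resolve_right fun ⟨j, _, _, e⟩ =>
    hx.2 (.inl (e ▸ (h.hole j).2)), .inl⟩

theorem cell_lam (h : t.Ok) {x : MV} : σ.vs (t.ct x) ∩ (t.Λ ∪ t.Mk) ⊆ t.Λ ∪ t.s.nb x := by
  rintro v ⟨hv, hl⟩
  by_cases c : v ∈ t.Λ
  · exact .inl c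
  obtain ⟨a, ha, hv⟩ := mem_iUnion₂.1 hv
  exact .inr ((h.share a v ⟨hv, c⟩ ((mk_cases (hl.resolve_left c)).elim
    (fun k => .inl (fx_vt h k)) fun k => .inr (.inl k))).1 x ha)

theorem share (h : t.Ok) (a : σ.ε) (v : W) (hv : v ∈ σ.inc a) (hl : v ∉ t.Λ ∪ t.Mk)
    (k : Sum.inl v ∈ t.s.Vt ∨ ∃ a', t.toRw.own a' ≠ t.toRw.own a ∧ v ∈ σ.inc a') :
    ∃ x, t.toRw.own a = some x ∧ v ∈ t.s.nb x := by
  have l1 : v ∉ t.Λ := fun c => hl (.inl c)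
  have l2 : v ∉ t.Mk := fun c => hl (.inr c)
  by_cases hn : Sum.inl v ∈ t.s.Vt
  · obtain ⟨s1, s2, s3⟩ := h.share a v ⟨hv, l1⟩ (.inl hn)
    rcases e : t.own a with _ | z | ⟨j, i⟩
    · exact (l2 (s3 e)).elim
    · exact ⟨z, (own_cases a z).2 (.inl e), s1 z e⟩
    · have hi := h.ownb a j i e
      refine ⟨_, (own_cases a _).2 (.inr ⟨j, i, e, rfl⟩), ?_⟩
      rcases s2 j i e with c | c
      · exact kap_u h hi.le c l1 hn ▸ u_nb h j i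
      · exact kap_u h hi c l1 hn ▸ u_nb h j (i + 1)
  exfalso
  obtain ⟨a', ne, hv'⟩ := k.resolve_left hn
  have ne' : t.own a' ≠ t.own a := fun e => ne (congrArg (Option.map _) e)
  have one : ∀ {b b' : σ.ε}, v ∈ σ.inc b → v ∈ σ.inc b' → t.own b' ≠ t.own b → t.own b' ≠ none →
      ∃ j i, t.own b = some (Sum.inr (j, i)) ∧ ∃ i1 ≤ t.m j, ∃ l < t.d j, t.β j i1 l = v := by
    intro b b' q0 q1 q2 q3
    obtain ⟨s1, s2, s3⟩ := h.share b v ⟨q0, l1⟩ (.inr (.inr ⟨b', q2, q3, q1⟩))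
    rcases e : t.own b with _ | z | ⟨j, i⟩
    · exact (l2 (s3 e)).elim
    · exact (hn (nb_vt h.ok (s1 z e))).elim
    · have hi := h.ownb b j i e
      exact ⟨j, i, rfl, (s2 j i e).elim (fun c => ⟨i, hi.le, kap_b h c hn⟩)
        fun c => ⟨_, hi, kap_b h c hn⟩⟩
  have both : t.own a ≠ none ∧ t.own a' ≠ none := by
    by_cases c : t.own a' = none
    · obtain ⟨j, i, e, -⟩ := one hv' hv ne'.symm fun e => ne' (c.trans e.symm)
      rw [c] at e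
      cases e
    · obtain ⟨j, i, e, -⟩ := one hv hv' ne' c
      exact ⟨by simp [e], c⟩
  obtain ⟨j, i, e, i1, m1, l, hl1, q⟩ := one hv hv' ne' both.2
  obtain ⟨j', i', e', i2, m2, l', hl2, q'⟩ := one hv' hv ne'.symm both.1
  obtain ⟨rfl, -⟩ := h.priv j j' i1 m1 i2 m2 l hl1 l' hl2 (q ▸ l1) (q.trans q'.symm)
  exact ne (((own_cases a' _).2 (.inr ⟨j, i', e', rfl⟩)).trans
    ((own_cases a _).2 (.inr ⟨j, i, e, rfl⟩)).symm)

theorem phi_succ (j : t.ι) (i : ℕ) : t.φ j (i + 1) = t.s.M.c (t.s.M.b (t.φ j i)) :=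
  iterate_succ_apply' _ _ _

/-- the cut of the content of a hole lies in the cuts of the sides where the colour changes -/
theorem cut (h : t.Ok) {f : t.s.Φ} (hf : f ∈ t.s.M.fl t.s.vx t.s.H) (χ : t.s.Φ → ZMod 2) :
    ∃ U ⊆ t.toRw.ct (t.s.vx f), ∀ v ∈ t.toRw.dcut f χ U, ∃ j k, t.φ j k ∈ t.s.M.vo f ∧
      k < t.m j ∧ χ (t.φ j (k + 1)) ≠ χ (t.φ j k) ∧ v ∈ t.κ j (k + 1) := by
  refine ⟨{a | a ∈ t.toRw.ct (t.s.vx f) ∧
    ∀ j i, t.own a = some (Sum.inr (j, i)) → χ (t.φ j i) = 0}, fun _ k => k.1, ?_⟩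
  rintro v ⟨⟨⟨h0, h1⟩, -⟩, h2⟩
  have l1 : v ∉ t.Λ := fun c => h2 (.inl (.inl c))
  have vo : ∀ j i, t.s.vx (t.φ0 j) = t.s.vx f → t.φ j i ∈ t.s.M.vo f := fun j i e =>
    (h.ok.hm.lbl f hf.1 _ (phi_mem h j i).1).1 ((phi_mem h j i).2.trans e).symm
  have bag : ∀ a ∈ t.toRw.ct (t.s.vx f), ∃ j i, t.own a = some (Sum.inr (j, i)) ∧
      t.s.vx (t.φ0 j) = t.s.vx f ∧ i < t.m j := fun a ha => by
    rcases (own_cases a _).1 ha with k | ⟨j, i, k, e⟩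
    · exact ((h.ownc a _ k).2 (.inl hf.2)).elim
    · exact ⟨j, i, k, e, h.ownb a j i k⟩
  have b0 : v ∉ t.s.clr f χ 0 → ∃ a j i, v ∈ σ.inc a ∧ t.own a = some (Sum.inr (j, i)) ∧
      t.s.vx (t.φ0 j) = t.s.vx f ∧ i < t.m j ∧ χ (t.φ j i) = 0 := fun c => by
    obtain ⟨a, ha, hv⟩ := mem_iUnion₂.1 (h0.resolve_right c)
    obtain ⟨j, i, k1, k2, k3⟩ := bag a ha.1
    exact ⟨a, j, i, hv, k1, k2, k3, ha.2 j i k1⟩
  have b1 : v ∉ t.s.clr f χ 1 → ∃ a j i, v ∈ σ.inc a ∧ t.own a = some (Sum.inr (j, i)) ∧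
      t.s.vx (t.φ0 j) = t.s.vx f ∧ i < t.m j ∧ χ (t.φ j i) = 1 := fun c => by
    obtain ⟨a, ha, hv⟩ := mem_iUnion₂.1 (h1.resolve_right c)
    obtain ⟨j, i, k1, k2, k3⟩ := bag a ha.1
    refine ⟨a, j, i, hv, k1, k2, k3, two_val fun c => ha.2 ⟨ha.1, fun j' i' e => ?_⟩⟩
    obtain ⟨rfl, rfl⟩ := Prod.mk.inj (Sum.inr.inj (Option.some.inj (k1.symm.trans e)))
    exact c
  by_cases hn : Sum.inl v ∈ t.s.Vt
  · obtain ⟨c, a, j, i, hc, k0, k1, k2, k3, k4⟩ : ∃ c a j i, v ∉ t.s.clr f χ c ∧ v ∈ σ.inc a ∧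
        t.own a = some (Sum.inr (j, i)) ∧ t.s.vx (t.φ0 j) = t.s.vx f ∧ i < t.m j ∧
        χ (t.φ j i) = c := by
      by_cases c : v ∈ t.s.clr f χ 0
      · have c' : v ∉ t.s.clr f χ 1 := fun c' => h2 (.inr ⟨c, c'⟩)
        obtain ⟨a, j, i, k⟩ := b1 c'
        exact ⟨1, a, j, i, c', k⟩
      · obtain ⟨a, j, i, k⟩ := b0 c
        exact ⟨0, a, j, i, c, k⟩
    rcases (h.share a v ⟨k0, l1⟩ (.inl hn)).2.1 j i k1 with q | q
    · exact (hc ⟨_, ⟨vo j i k2, k4⟩, (kap_u h k3.le q l1 hn).symm⟩).elim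
    · exact ⟨j, i, vo j i k2, k3, fun e =>
        hc ⟨_, ⟨vo j _ k2, e.trans k4⟩, (kap_u h k3 q l1 hn).symm⟩, q⟩
  have nc : ∀ c, v ∉ t.s.clr f χ c := by
    rintro c ⟨g, hg, rfl⟩
    exact hn (far_vt h.ok (h.ok.hm.ok.vo_mem hf.1 hg.1)
      (h.ok.hm.lbl.of_vo h.ok.hm.ok hf.1 hg.1 ▸ h_nd h.ok hf.2))
  obtain ⟨a, j, i, k0, k1, k2, k3, k4⟩ := b0 (nc 0)
  obtain ⟨a', j', i', l0, l1', -, l3, l4⟩ := b1 (nc 1)
  have ne : t.own a' ≠ t.own a := fun e => by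
    obtain ⟨rfl, rfl⟩ :=
      Prod.mk.inj (Sum.inr.inj (Option.some.inj (k1.symm.trans (e.symm.trans l1'))))
    exact zero_ne_one (k4.symm.trans l4)
  have one : ∀ {a a' j i}, v ∈ σ.inc a → v ∈ σ.inc a' → t.own a' ≠ t.own a →
      t.own a' ≠ none → t.own a = some (Sum.inr (j, i)) →
      ∃ i1, i ≤ i1 ∧ i1 ≤ i + 1 ∧ ∃ l < t.d j, t.β j i1 l = v := fun {a a' j i} q0 q1 q2 q3 q4 =>
    ((h.share a v ⟨q0, l1⟩ (.inr (.inr ⟨a', q2, q3, q1⟩))).2.1 j i q4).elim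
      (fun c => ⟨i, le_rfl, Nat.le_succ i, kap_b h c hn⟩)
      fun c => ⟨_, Nat.le_succ i, le_rfl, kap_b h c hn⟩
  obtain ⟨i1, m1, m2, l, hl, e⟩ := one k0 l0 ne (by simp [l1']) k1
  obtain ⟨i2, n1, n2, l', hl', e'⟩ := one l0 k0 ne.symm (by simp [k1]) l1'
  obtain ⟨rfl, rfl⟩ := h.priv j j' i1 (by omega) i2 (by omega) l hl l' hl' (e ▸ l1)
    (e.trans e'.symm)
  have l5 : χ (t.φ j i') ≠ 0 := l4 ▸ one_ne_zero
  rcases le_total i i' with c | c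
  · obtain ⟨k, q1, q2, q3⟩ := exists_chg (P := fun i => χ (t.φ j i) = 0) c fun e => l5 (e.1 k4)
    exact ⟨j, k, vo j k k2, by omega, fun q => q3 (by rw [q]), .inr ⟨l, hl,
      (h.conv j l hl i1 (k + 1) i2 (by omega) (by omega) (by omega) (e ▸ l1)
        (e.trans e'.symm)).trans e⟩⟩
  · obtain ⟨k, q1, q2, q3⟩ := exists_chg (P := fun i => χ (t.φ j i) = 0) c fun e => l5 (e.2 k4)
    exact ⟨j, k, vo j k k2, by omega, fun q => q3 (by rw [q]), .inr ⟨l, hl,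
      (h.conv j l hl i2 (k + 1) i1 (by omega) (by omega) (by omega) (e' ▸ l1)
        (e'.trans e.symm)).trans e'⟩⟩

theorem dep (h : t.Ok) {w : ℕ} (hw : ∀ j, t.d j ≤ w) : t.toRw.Dep (4 * (w + 1)) := by
  intro f hf χ hχ
  obtain ⟨U, u1, u2⟩ := cut h hf χ
  refine ⟨U, u1, ?_⟩
  have hM := h.ok.hm.ok
  let Z : Set t.s.Φ := {g | g ∈ t.s.M.vo f ∧ χ (t.s.M.b g) ≠ χ g}
  have hZ : Z.Finite := hM.fin.subset fun _ k => hM.vo_mem hf.1 k.1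
  let K : t.s.Φ → Set W := fun g => {v | ∃ j, ∃ k < t.m j, t.φ j k = g ∧ v ∈ t.κ j (k + 1)}
  have kk : ∀ g, (K g).Finite ∧ (K g).ncard ≤ w + 1 := fun g => by
    by_cases c : ∃ j, ∃ k < t.m j, t.φ j k = g
    · obtain ⟨j, k, hk, rfl⟩ := c
      have : K (t.φ j k) ⊆ t.κ j (k + 1) := by
        rintro v ⟨j', k', hk', e, hv⟩
        obtain ⟨rfl, rfl⟩ := (h.sep j j' k hk.le k' hk'.le).2 e
        exact hv
      exact ⟨(kap_fin j _).subset this, (ncard_le_ncard this (kap_fin j _)).trans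
        ((kap_card j _).trans (Nat.succ_le_succ (hw j)))⟩
    · have : K g = ∅ := eq_empty_of_forall_notMem fun v ⟨j, k, hk, e, _⟩ => c ⟨j, k, hk, e⟩
      simp [this]
  refine le_trans (ncard_le_ncard (t := ⋃ g ∈ Z, K g) (fun v hv => ?_)
    (hZ.biUnion fun g _ => (kk g).1)) ((nc_bi hZ K _ fun g _ => (kk g).2).trans
      (Nat.mul_le_mul_right _ hχ.2))
  obtain ⟨j, k, q1, q2, q3, q4⟩ := u2 v hv
  refine mem_iUnion₂.2 ⟨t.φ j k, ⟨q1, fun e => q3 ?_⟩, j, k, q2, rfl, q4⟩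
  rw [phi_succ]
  exact (hχ.1 _ (Relation.ReflTransGen.tail q1 (.inl rfl))).trans e

theorem fx_card (h : t.Ok) : t.Fx.ncard ≤ (t.s.H ∩ t.s.Vt).ncard * (t.Mk.ncard * 2) := by
  have hM := h.ok.hm.ok
  have hH : (t.s.H ∩ t.s.Vt).Finite := (hM.fin.image t.s.vx).subset inter_subset_right
  let F : MV → W → Set t.s.Φ := fun y v => {f | f ∈ t.s.M.S ∧ t.s.vx f = y ∧ t.s.far f = v}
  refine le_trans (ncard_le_ncard (t := ⋃ y ∈ t.s.H ∩ t.s.Vt, ⋃ v ∈ t.Mk, F y v) (fun f hf => ?_)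
    (hH.biUnion fun y _ => (mk_fin h).biUnion fun v _ => hM.fin.subset fun _ k => k.1))
    (nc_bi hH _ _ fun y hy => nc_bi (mk_fin h) _ _ fun v _ => ?_)
  · exact mem_iUnion₂.2 ⟨_, ⟨hf.1.2, f, hf.1.1, rfl⟩,
      mem_iUnion₂.2 ⟨_, .inr ⟨f, hf, rfl⟩, hf.1.1, rfl, rfl⟩⟩
  rcases (F y v).eq_empty_or_nonempty with e | ⟨f, hf, e1, e2⟩
  · simp [e]
  have hy' : t.s.vx f ∈ t.s.H := e1 ▸ hy.1
  refine le_trans (ncard_le_ncard (t := {f, t.s.M.c f}) ?_ (toFinite _))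
    ((ncard_insert_le _ _).trans (by simp))
  rintro g ⟨hg, g1, g2⟩
  refine h.spoke f ⟨hf, hy'⟩ g hg (g1.trans e1.symm) ?_
  rw [Sk.vx_far h.ok hf (h_nd h.ok hy'), Sk.vx_far h.ok hg (g1 ▸ h_nd h.ok hy.1), g2, e2]

theorem opn_sub (h : t.Ok) : t.toRw.opn ⊆
    (range (fun j => t.φ j (t.m j)) ∪ range fun j => t.s.M.c (t.φ j 0)) ∪ t.Fx := by
  rintro f ⟨hf, hq⟩
  by_cases c : f ∈ t.Fx
  · exact .inr c
  have ql : ∀ j, ∀ i < t.m j, t.lk j i ∉ t.s.H := fun j i hi k => (h.quad j i hi).2.elim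
    (disjoint_left.1 h.ok.hr.2.2 k) fun c' => c'.2 (.inl k)
  obtain ⟨j, i, hi, e⟩ : ∃ j, ∃ i ≤ t.m j, f = t.φ j i ∨ f = t.s.M.c (t.φ j i) := by
    by_contra c'
    exact c ⟨hf, fun j i hi => ⟨fun e => c' ⟨j, i, hi, .inl e⟩, fun e => c' ⟨j, i, hi, .inr e⟩⟩⟩
  rcases e with rfl | rfl
  · rcases hi.lt_or_eq with hi | rfl
    · exact (hq ⟨(h.quad j i hi).1, ql j i hi⟩).elim
    · exact .inl (.inl ⟨j, rfl⟩)
  · rcases i with _ | i
    · exact .inl (.inr ⟨j, rfl⟩)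
    · have hM := h.ok.hm.ok
      have q0 := (h.quad j i hi).1
      have e : t.s.M.c (t.φ j (i + 1)) = t.s.M.b (t.φ j i) := by
        rw [phi_succ, hM.cc (hM.b_mem (phi_mem h j i).1)]
      refine (hq ?_).elim
      change t.s.Quad _ ∧ t.s.link _ ∉ t.s.H
      rw [e, link_b h.ok (phi_mem h j i).1 q0]
      exact ⟨quad_b h.ok (phi_mem h j i).1 q0, ql j i hi⟩

theorem range_card {α : Type} (F : t.ι → α) : (range F).ncard ≤ Fintype.card t.ι := by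
  rw [← image_univ]
  exact (ncard_image_le finite_univ).trans (by rw [ncard_univ, Nat.card_eq_fintype_card])

end HConv

open HConv ToRaw in
theorem convS : HB.BasS → HB.ConvS := by
  intro bas σ t Wv w k q hn hk hq
  have h := hn.ok
  obtain ⟨c1, c2, c3, -, c5⟩ := hn.cnt
  have hM := h.ok.hm.ok
  have ok0 := bas.1 t.s h.ok
  refine ⟨⟨⟨ok0, hk, hq, ⟨union_subset h.lam.1 (mk_od h), h.lam.2.union (mk_fin h),
      (ncard_union_le _ _).trans (by omega)⟩, fun v hv => lam_po h hv, ?_, fun a x e => ?_,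
      fun a v hv => share h a v hv.1.1 hv.2, fun x hx => ?_, dep h c5⟩, h.ok, h.spoke, ?_⟩,
    fun x hx => ⟨ct_cell h hx, cell_lam h⟩, fun g B hm => ?_⟩
  · rintro a v ⟨hv | hv, ha⟩
    · exact sh_of_bd (h.root a v ⟨hv, ha⟩)
    · rcases HConv.mk_cases hv with c | ⟨j, i, hi, c⟩
      · obtain ⟨x, hx, e⟩ := hn.nd v (fx_vt h c)
        exact sh_of_bd ((h.solid x hx).2 e)
      · exact sh_of_bd (h.two j i hi v c a ha)
  · rcases (own_cases a x).1 e with c | ⟨j, i, -, rfl⟩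
    · exact .inl (h.ownc a x c)
    · exact .inr ⟨(h.hole j).2, _, (h.hole j).1, rfl⟩
  · rw [ct_cell h hx]
    refine solid_cut (solidS.2 _ _ _ _ _ (h.solid x hx).1 subset_rfl ?_)
    rintro v ⟨⟨hv, hv'⟩, hx'⟩
    have : v ∈ σ.vs (t.ct x) :=
      σ.vs_un _ ▸ ⟨hx', union_subset h.lam.1 (mk_od h) hv⟩
    exact ⟨(cell_lam h ⟨this, hv⟩).resolve_right hv', hv'⟩
  · refine le_trans (ncard_le_ncard (HConv.opn_sub h) (((finite_range _).union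
      (finite_range _)).union (hM.fin.subset fun _ c => c.1.1))) ?_
    refine (ncard_union_le _ _).trans (add_le_add ((ncard_union_le _ _).trans ?_)
      ((fx_card h).trans ?_))
    · exact (add_le_add (range_card _) (range_card _)).trans (by omega)
    · exact (Nat.mul_le_mul hq (Nat.mul_le_mul_right 2 c1)).trans (le_of_eq (by ring))
  · rcases hm with hm | ⟨hs, hfc⟩
    · exact .inl fun S hS _ => hm S hS
    refine .inr ⟨fun x hx => ?_, hfc⟩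
    obtain ⟨a, e, ha⟩ := hs x hx.1
    have ea : a ∈ t.ct x := e ▸ mem_singleton a
    have hd : Disjoint (σ.inc a) (t.Λ ∪ t.Mk) := disjoint_left.2 fun v hv hl => by
      have hv' : v ∈ t.s.nb x := (cell_lam h ⟨mem_iUnion₂.2 ⟨a, ea, hv⟩, hl⟩).elim
        (fun c => ha ⟨hv, c⟩) id
      exact hx.2 v hv' ((bas.2 t.s ok0).2.2.2.1 ⟨v, lam_po h hl (nb_vt h.ok hv'), rfl⟩)
    refine ⟨a, (ct_cell h hx.1).trans e, hd, subset_antisymm ?_ (e ▸ (h.solid x hx.1).2)⟩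
    rintro v ⟨⟨a0, h0, hv⟩, a', ha', hv'⟩
    rw [mem_singleton_iff.1 h0] at hv
    have e1 : t.toRw.own a = some x := (own_cases a x).2 (.inl ea)
    have ne : t.toRw.own a' ≠ t.toRw.own a := fun c => ha' (by
      rw [← e, ← ct_cell h hx.1]
      exact c.trans e1)
    obtain ⟨y, e2, hy⟩ := share h a v hv (disjoint_left.1 hd hv) (.inr ⟨a', ne, hv'⟩)
    exact Option.some.inj (e1.symm.trans e2) ▸ hy

end Pool.Agent.MP_9d78a0_co.gm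

end MrgPart4

-- ======== part 5: formerly Pool.Agent.MP_9d78a0_co.gm.OpSplit
section MrgPart5

/-! Vertices are cut at corners; fans carry no genus. -/

set_option autoImplicit false

namespace Pool.Agent.MP_9d78a0_co.gm

open Set Function Relation

namespace OpSplit

variable {Φ V : Type} {M : FM Φ} {Q : Set Φ}

theorem b_in {x : Φ} (k : x ∈ Q) : (M.split Q).b x = mate M.c M.b Q x := if_pos k
theorem b_out {x : Φ} (k : x ∉ Q) : (M.split Q).b x = M.b x := if_neg k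

theorem ok (h : M.Ok) (hQ : M.Cs Q) : (M.split Q).Ok := by
  refine ⟨h.fin, h.ia, fun x hx => ?_, h.ic, h.ac⟩
  by_cases k : x ∈ Q
  · have iv := mate_inv h.fin h.ic h.ib hQ.1 hQ.2 x k
    rw [b_in k, b_in iv.1]
    exact ⟨hQ.1 iv.1, iv.2⟩
  · rw [b_out k, b_out fun m => k (h.gk.bb hx ▸ hQ.2 _ m)]
    exact h.ib x hx

theorem eg_le (hr : RadS) (h : M.Ok) (hQ : M.Cs Q) : (M.split Q).eg ≤ M.eg := by
  obtain ⟨d1, d2, -⟩ := dualS Φ M h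
  obtain ⟨r1, r2, -, r3, -⟩ := hr Φ M.dual Q d1 hQ
  obtain ⟨e1, e2, -⟩ := dualS _ _ r1
  have hE : (M.dual.star Q).dual.Es (Sum.inl '' M.S) := r3.dual
  have i : FM.Iso (M.split Q) ((M.dual.star Q).dual.sub (Sum.inl '' M.S)) Sum.inl := by
    refine ⟨Sum.inl_injective.injOn, rfl, fun _ _ => rfl, fun f hf => ?_, fun _ _ => rfl⟩
    show mate (M.dual.star Q).dual.b ((M.dual.star Q).dual.sg ∅) (Sum.inl '' M.S) (Sum.inl f) = _
    by_cases k : f ∈ Q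
    · have iv := mate_inv h.fin h.ic h.ib hQ.1 hQ.2 f k
      rw [b_in k]
      refine mate_eq e1.fin e1.ib (e1.gk.sg FM.es_empty) hE.1 (fun _ k => hE.sg k)
        ⟨f, hf, rfl⟩ ⟨_, hQ.1 iv.1, rfl⟩ ?_ fun e => iv.2.2 (Sum.inl_injective e)
      have s : ∀ (x : Φ) (u : Bool), cut (M.dual.star Q).dual.b ((M.dual.star Q).dual.sg ∅)
          (Sum.inl '' M.S) (Sum.inr (x, u)) (Sum.inr (x, !u)) := fun x u =>
        Or.inr ⟨by simp, by rw [FM.sg_out (notMem_empty _)]; rfl⟩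
      refine cl_step (cl_step (cl_step (cl_step (cl_one (y := Sum.inr (f, false)) (Or.inl ?_))
        (s f false)) (y := Sum.inr (mate M.c M.b Q f, true)) (Or.inl rfl)) (s _ true)) (Or.inl rfl)
      exact (if_pos k).symm
    · have e : (M.dual.star Q).dual.b (Sum.inl f) = Sum.inl (M.b f) := if_neg k
      rw [b_out k, mate_of_mem (e ▸ ⟨_, h.gk.bm hf, rfl⟩), e]
  rw [← i.eg (ok h hQ), ← d2, ← r2, ← e2]
  exact FM.eg_sub_le e1 hE

theorem cut_vo {x : Φ} : cl (cut M.c M.b Q) x ⊆ M.vo x := fun _ q =>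
  ReflTransGen.mono (fun _ _ e => e.elim Or.inr fun e => Or.inl e.2) _ _ q

end OpSplit

open OpSplit in
theorem splitS (hr : RadS) : SplitS := by
  intro Φ M Q h hQ
  have g := ok h hQ
  have sp := fun x (k : x ∈ Q) => mate_spec h.fin h.ic h.ib hQ.1 hQ.2 k
  refine ⟨g, eg_le hr h hQ, fun x hx => ?_, fun x _ hd => ?_, fun o ho f hf => ?_,
    fun U hU hd => ⟨⟨rfl, fun f hf => ⟨rfl, ?_, rfl⟩⟩, fun x _ y hy => ?_⟩⟩
  · refine cl_congr g.gk.sV (cut_sy h.ic h.ib hQ.2) ?_ ?_ hx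
    · rintro u - _ (rfl | rfl)
      · by_cases k : u ∈ Q
        · rw [b_in k]; exact (sp u k).2.1
        · exact cl_one (Or.inr ⟨k, b_out k⟩)
      · exact cl_one (Or.inl rfl)
    · rintro u - _ (rfl | ⟨k, rfl⟩)
      · exact cl_one (Or.inr rfl)
      · exact cl_one (Or.inl (b_out k).symm)
  · have n : ∀ u ∈ M.fo x, (M.split Q).b u = M.b u := fun u hu =>
      b_out (Set.disjoint_left.1 hd hu)
    refine Subset.antisymm (fun y hy => ?_) fun y hy => ?_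
    · exact cl_ind (r := (M.split Q).rF) (P := fun y => y ∈ cl M.rF x) (cl_self _ _)
        (fun u v _ ih e => cl_step ih (e.imp id fun e => e.trans (n u ih))) hy
    · exact cl_ind (r := M.rF) (P := fun y => y ∈ cl (M.split Q).rF x) (cl_self _ _)
        (fun u v hu ih e => cl_step ih (e.imp id fun e => e.trans (n u hu).symm)) hy
  · refine ⟨(ho f hf).1, ?_, (ho f hf).2.2⟩
    by_cases k : f ∈ Q
    · rw [b_in k]
      exact mate_ori h.ic h.ib (fun x hx => (ho x hx).2.2) (fun x hx => (ho x hx).2.1) hf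
    · rw [b_out k]; exact (ho f hf).2.1
  · have hU' : (M.split Q).Es U := hU
    have s1 := mate_spec h.fin h.ib (h.gk.sg FM.es_empty) hU.1 (fun _ k => hU.sg k) hf
    have s2 := mate_inv h.fin h.ib (h.gk.sg FM.es_empty) hU.1 (fun _ k => hU.sg k) f hf
    refine (mate_eq g.fin g.ib (g.gk.sg FM.es_empty) hU.1 (fun _ k => hU'.sg k) hf s1.1 ?_
      s2.2.2).symm
    refine (cl_ind (P := fun y => y ∈ cl M.rV f ∧
      y ∈ cl (cut (M.split Q).b ((M.split Q).sg ∅) U) f) ⟨cl_self _ _, cl_self _ _⟩ ?_ s1.2.1).2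
    rintro u _ - ⟨k1, k2⟩ (rfl | ⟨k, rfl⟩)
    · refine ⟨cl_step k1 (Or.inl rfl), cl_step k2 (Or.inl (b_out fun m => ?_).symm)⟩
      exact Set.disjoint_left.1 (hd u m) (h.gk.sV.symm (hU.1 hf) k1) hf
    · exact ⟨cl_step k1 (Or.inr (FM.sg_out (notMem_empty _))), cl_step k2 (Or.inr ⟨k, rfl⟩)⟩
  · refine cl_ind (P := fun y => y ∈ M.reg U x) (cl_self _ _) ?_ hy
    rintro u _ - ih (rfl | rfl | ⟨k, rfl⟩)
    · exact cl_step ih (Or.inl rfl)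
    · by_cases k : u ∈ Q
      · rw [b_in k]
        refine cl_ind (P := fun y => y ∈ M.reg U x) ih ?_ (sp u k).2.1
        rintro v _ hv ih (rfl | ⟨-, rfl⟩)
        · exact cl_step ih (Or.inr (Or.inr ⟨Set.disjoint_left.1 (hd u k) (cut_vo hv), rfl⟩))
        · exact cl_step ih (Or.inr (Or.inl rfl))
      · exact cl_step ih (Or.inr (Or.inl (b_out k)))
    · exact cl_step ih (Or.inr (Or.inr ⟨k, rfl⟩))

namespace OpSplit

variable {Φ V : Type} {M : FM Φ} {vx : Φ → V} {H : Set V}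

/-- in a closed corner only two flags of the face are at a hole -/
theorem face (h : M.Ok) (hl : M.Lbl vx) (h1 : ∀ f ∈ M.fl vx H, vx (M.a f) ∉ H) {f : Φ}
    (hf : f ∈ M.fl vx H) (e : (M.b ∘ M.a)^[4] f = f) (n : vx (M.a (M.b (M.a f))) ∉ H) :
    ∀ y ∈ M.fo f, vx y ∈ H → y = f ∨ y = M.b f := by
  have g := h.gk
  have vb : ∀ x ∈ M.S, vx (M.b x) = vx x := fun x hx =>
    ((hl x hx _ (g.bm hx)).2 (cl_one (r := M.rV) (Or.inl rfl))).symm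
  simp only [iterate_succ, iterate_zero, comp, id] at e
  have m1 := g.am hf.1
  have m2 := g.bm m1
  have m3 := g.am m2
  have m4 := g.bm m3
  have m5 := g.am m4
  have m6 := g.bm m5
  have m7 := g.am m6
  have e7 : M.a (M.b (M.a (M.b (M.a (M.b (M.a f)))))) = M.b f := by
    conv_rhs => rw [← e]
    rw [g.bb m7]
  have e6 : M.b (M.a (M.b (M.a (M.b (M.a f))))) = M.a (M.b f) := by rw [← e7, g.aa m6]
  have n1 := h1 f hf
  have n6 := h1 (M.b f) ⟨g.bm hf.1, vb f hf.1 ▸ hf.2⟩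
  intro y hy
  have : y = f ∨ y = M.a f ∨ y = M.b (M.a f) ∨ y = M.a (M.b (M.a f)) ∨
      y = M.b (M.a (M.b (M.a f))) ∨ y = M.a (M.b (M.a (M.b (M.a f)))) ∨ y = M.a (M.b f) ∨
      y = M.b f := by
    refine cl_ind (r := M.rF) (P := fun y => y = f ∨ y = M.a f ∨ y = M.b (M.a f) ∨
      y = M.a (M.b (M.a f)) ∨ y = M.b (M.a (M.b (M.a f))) ∨ y = M.a (M.b (M.a (M.b (M.a f)))) ∨
      y = M.a (M.b f) ∨ y = M.b f) (Or.inl rfl) ?_ hy
    have e5 : M.b (M.a (M.b f)) = M.a (M.b (M.a (M.b (M.a f)))) := by rw [← e6, g.bb m5]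
    rintro u _ - (rfl | rfl | rfl | rfl | rfl | rfl | rfl | rfl) (rfl | rfl) <;>
      simp only [g.aa hf.1, g.bb hf.1, g.bb m1, g.aa m2, g.bb m3, g.aa m4, e6, e5,
        g.aa (g.bm hf.1), true_or, or_true]
  rcases this with rfl | rfl | rfl | rfl | rfl | rfl | rfl | rfl <;> intro k
  · exact Or.inl rfl
  · exact absurd k n1
  · exact absurd (vb _ m1 ▸ k) n1
  · exact absurd k n
  · exact absurd (vb _ m3 ▸ k) n
  · exact absurd (e6 ▸ (vb _ m5).symm ▸ k) n6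
  · exact absurd k n6
  · exact Or.inr rfl

end OpSplit

open OpSplit in
theorem fanS (hr : RotS) : FanS := by
  intro Φ V M vx H Q h hl h1 h2 h3
  have g := h.gk
  have R := hr Φ M h
  have vv : ∀ x ∈ M.S, ∀ y ∈ M.vo x, y ∈ M.S ∧ vx y = vx x := fun x hx y hy =>
    ⟨g.sV.sub hx hy, ((hl x hx y (g.sV.sub hx hy)).2 hy).symm⟩
  have vc : ∀ x ∈ M.S, vx (M.c x) = vx x := fun x hx =>
    (vv x hx _ (cl_one (r := M.rV) (Or.inr rfl))).2
  have ex : ∀ v ∈ vx '' M.S, ∃ f ∈ M.S, vx f = v ∧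
      ∀ i, i + 1 < (M.vo f).ncard / 2 → M.rot^[i] f ∉ Q := by
    intro v k'
    by_cases k : ∃ q ∈ Q, q ∈ M.S ∧ vx q = v
    · obtain ⟨q, q1, q2, rfl⟩ := k
      obtain ⟨r1, -, r3, r4, -⟩ := R q q2
      refine ⟨M.rot q, (vv q q2 _ (r1 1)).1, (vv q q2 _ (r1 1)).2, fun i hi m => ?_⟩
      rw [show M.vo (M.rot q) = M.vo q from g.sV.eq q2 (r1 1)] at hi
      rw [← iterate_succ_apply] at m
      rcases h3 q q1 _ m (vv q q2 _ (r1 _)).2.symm with e | e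
      · have := Nat.le_of_dvd (Nat.succ_pos i) (Nat.modEq_zero_iff_dvd.1 ((r3 _ 0).1 e))
        omega
      · exact r4 _ 1 (e.trans (g.cc (g.bm q2)).symm)
    · obtain ⟨f, hf, rfl⟩ := k'
      exact ⟨f, hf, rfl, fun i _ m => k ⟨_, m, vv f hf _ ((R f hf).1 i)⟩⟩
  choose F F1 F2 F3 using ex
  obtain ⟨B, B1, B2, B3⟩ : ∃ B : Set Φ, (∀ f ∈ B, f ∈ M.fl vx H ∧
      ∀ i, i + 1 < (M.vo f).ncard / 2 → M.rot^[i] f ∉ Q) ∧
      (∀ p ∈ M.fl vx H, ∃ f ∈ B, p ∈ M.vo f) ∧ ∀ f ∈ B, ∀ f' ∈ B, vx f = vx f' → f = f' := by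
    refine ⟨{f | ∃ v ∈ H, ∃ hv, f = F v hv}, ?_, fun p hp => ?_, ?_⟩
    · rintro _ ⟨v, hv, k, rfl⟩
      exact ⟨⟨F1 v k, (F2 v k).symm ▸ hv⟩, F3 v k⟩
    · exact ⟨_, ⟨_, hp.2, ⟨p, hp.1, rfl⟩, rfl⟩, (hl _ (F1 _ _) p hp.1).1 (F2 _ _)⟩
    · rintro _ ⟨v, -, k, rfl⟩ _ ⟨v', -, k', rfl⟩ e
      rw [F2, F2] at e
      subst e
      rfl
  obtain ⟨rk, hrk⟩ : ∃ rk : Φ → ℕ, ∀ x, rk x = sInf {i | ∃ f ∈ B, M.rot^[i] f ∈ M.eo x} :=
    ⟨_, fun _ => rfl⟩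
  have re : ∀ x ∈ M.S, ∀ y ∈ M.eo x, rk y = rk x := fun x hx y hy => by
    rw [hrk, hrk, show M.eo y = M.eo x from g.sE.eq hx hy]
  have ea : ∀ x, M.a x ∈ M.eo x := fun x => cl_one (r := M.rE) (Or.inl rfl)
  have ec : ∀ x, M.c x ∈ M.eo x := fun x => cl_one (r := M.rE) (Or.inr rfl)
  have rf : ∀ f ∈ B, ∀ i, M.rot^[i] f ∈ M.fl vx H := fun f hf i =>
    have k := vv f (B1 f hf).1.1 _ ((R f (B1 f hf).1.1).1 i)
    ⟨k.1, k.2 ▸ (B1 f hf).1.2⟩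
  have K : ∀ f ∈ B, ∀ i < (M.vo f).ncard / 2, rk (M.rot^[i] f) = i := by
    intro f hf i hi
    rw [hrk]
    refine IsLeast.csInf_eq ⟨⟨f, hf, cl_self M.rE _⟩, ?_⟩
    rintro j ⟨f', hf', m⟩
    have k := rf f hf i
    have k' := rf f' hf' j
    obtain ⟨r1, -, r3, r4, -⟩ := R f (B1 f hf).1.1
    have e : vx (M.rot^[j] f') = vx (M.rot^[i] f) → f' = f := fun e => B3 _ hf' _ hf (by
      rw [← (vv f' (B1 f' hf').1.1 _ ((R f' (B1 f' hf').1.1).1 j)).2, e,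
        (vv f (B1 f hf).1.1 _ (r1 i)).2])
    rcases (g.mem_eo k.1).1 m with m | m | m | m
    · obtain rfl := e (congrArg vx m)
      have := (r3 _ _).1 m
      rw [Nat.ModEq, Nat.mod_eq_of_lt hi] at this
      exact this ▸ Nat.mod_le _ _
    · exact absurd (m ▸ k'.2) (h1 _ k)
    · obtain rfl := e (m ▸ vc _ k.1)
      exact absurd m (r4 _ _)
    · exact absurd (m ▸ k'.2) (h1 _ ⟨g.cm k.1, (vc _ k.1).symm ▸ k.2⟩)
  have loc : ∀ f ∈ B, ∀ p ∈ M.vo f, ∃ i < (M.vo f).ncard / 2, p ∈ M.eo (M.rot^[i] f) :=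
    fun f hf p hp => ((R f (B1 f hf).1.1).2.2.2.2.1 p hp).imp fun i k =>
      ⟨k.1, k.2.elim (fun e => e ▸ cl_self M.rE _) fun e => e ▸ ec _⟩
  let D : Set Φ := {x | x ∈ M.S ∧ (vx x ∈ H ∨ vx (M.a x) ∈ H)}
  have hD : M.Es D := ⟨fun _ k => k.1, fun x k => ⟨⟨g.am k.1, by
    rw [g.aa k.1]; exact k.2.symm⟩, g.cm k.1, by
    rw [g.ac x k.1, vc _ k.1, vc _ (g.am k.1)]; exact k.2⟩⟩
  have eD : M.ind vx (M.tv vx H) = M.S \ D := by
    ext x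
    exact ⟨fun k => ⟨k.1, fun m => m.2.elim k.2.1.2 k.2.2.2⟩, fun k => ⟨k.1,
      ⟨⟨x, k.1, rfl⟩, fun m => k.2 ⟨k.1, Or.inl m⟩⟩,
      ⟨⟨_, g.am k.1, rfl⟩, fun m => k.2 ⟨k.1, Or.inr m⟩⟩⟩⟩
  rw [eD]
  refine FM.peel h hD rk (fun e he => ⟨re e he.1 _ (ea e), re e he.1 _ (ec e)⟩) fun e he => ?_
  obtain ⟨f, hf, i, hi, m⟩ : ∃ f ∈ B, ∃ i < (M.vo f).ncard / 2, e ∈ M.eo (M.rot^[i] f) := by
    rcases he.2 with k | k
    · obtain ⟨f, hf, m⟩ := B2 e ⟨he.1, k⟩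
      exact ⟨f, hf, loc f hf e m⟩
    · obtain ⟨f, hf, m⟩ := B2 _ ⟨g.am he.1, k⟩
      obtain ⟨i, hi, m⟩ := loc f hf _ m
      exact ⟨f, hf, i, hi, g.aa he.1 ▸ cl_trans m (ea _)⟩
  have k := rf f hf i
  have ee : M.eo e = M.eo (M.rot^[i] f) := g.sE.eq k.1 m
  have ri : rk e = i := (re _ k.1 e m).trans (K f hf i hi)
  rw [ee, ri]
  refine ⟨M.rot^[i] f, cl_self M.rE _, ?_⟩
  by_cases hn : i + 1 < (M.vo f).ncard / 2
  · obtain ⟨q1, q2⟩ := h2 _ k ((B1 f hf).2 i hn)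
    have fc := face h hl h1 k q1 q2
    have rb : rk (M.b (M.rot^[i] f)) = i + 1 := by
      rw [← K f hf _ hn, iterate_succ_apply']
      exact (re _ (g.bm k.1) _ (ec _)).symm
    refine Or.inl ⟨fun q => ?_, fun y hy q => ?_⟩
    · rcases fc _ q ((vc _ k.1).symm ▸ k.2) with q | q
      · exact (h.ic _ k.1).2.2 q
      · rw [← q, re _ k.1 _ (ec _), K f hf i hi] at rb
        omega
    · have yS : y ∈ M.S := q.1
      rcases q.2 with q | q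
      · rcases fc y hy q with rfl | rfl
        · exact Or.inl (cl_self M.rE _)
        · exact Or.inr (by omega)
      · rcases fc _ (cl_step (r := M.rF) hy (Or.inl rfl)) q with q | q
        · exact Or.inl (q ▸ g.aa yS ▸ by rw [g.aa yS]; exact g.sE.symm yS (ea y))
        · exact Or.inr (by rw [← re y yS _ (ea y), q]; omega)
  · refine Or.inr fun q => ?_
    have fS := (B1 f hf).1.1
    have : M.a (M.rot^[i] f) ∈ M.vo f := by
      refine cl_ind (P := fun y => y ∈ cl M.rV f) ((R f fS).1 i) ?_ q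
      rintro x _ - ih (rfl | rfl | ⟨t, rfl⟩)
      · exact cl_step ih (Or.inl rfl)
      · exact cl_step ih (Or.inr rfl)
      obtain ⟨j, hj, mj⟩ := loc f hf x ih
      have rj : rk x = j := (re _ (rf f hf j).1 x mj).trans (K f hf j hj)
      by_cases l : j < i
      · exact (t.1.2 ⟨⟨t.1.1, Or.inl ((vv f fS x ih).2.symm ▸ (B1 f hf).1.2)⟩, rj ▸ l⟩).elim
      · obtain rfl : j = i := by omega
        exact (t.2 mj).elim
    exact h1 _ k ((vv f fS _ this).2.symm ▸ (B1 f hf).1.2)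

end Pool.Agent.MP_9d78a0_co.gm

end MrgPart5

-- ======== part 6: formerly Pool.Agent.MP_9d78a0_co.gm.HAbsG1
section MrgPart6

/-! Block H, row ABSG: the large component with its spokes; the holes are cut at open corners. -/

set_option autoImplicit false

namespace Pool.Agent.MP_9d78a0_co.gm

open Set Function Relation FM

namespace AbsG

section defs

variable (s : Sk) (K X : Set MV)

/-- `K` without the rims next to `X` -/
def K0 : Set MV := {y | y ∈ K ∧ (y ∈ s.Rm → ∀ x ∈ X, ¬ s.G.Adj y x)}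

/-- the kept edges -/
def U : Set s.Φ := s.M.ind s.vx (K0 s K X ∪ s.H)

/-- the corners at which the holes are cut -/
def O : Set s.Φ := {f | f ∈ U s K X ∧ s.vx f ∈ s.H ∧
  (¬ (s.Quad f ∧ s.link f ∉ s.H) ∨ s.M.b f ∉ U s K X)}

/-- the new map -/
noncomputable def M2 : FM s.Φ := (s.M.sub (U s K X)).split (O s K X)

open Classical in
/-- the new names of the vertices -/
noncomputable def vx2 (e : Set s.Φ → ℕ) (f : s.Φ) : MV :=
  if s.vx f ∈ s.H then Sum.inr (e ((M2 s K X).vo f)) else s.vx f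

/-- `K` is a component off `X` -/
structure Hy : Prop where
  ok : s.Ok
  spk : s.Spk
  sub : K ⊆ s.tv \ X
  conn : Conn s.G K
  clo : ∀ u ∈ K, ∀ v ∈ s.tv \ X, s.G.Adj u v → v ∈ K
  xn : X ⊆ s.Nd
  nt : (K ∩ s.T).Nontrivial

/-- the properties of the new map; the holes are cut at the corners in `Q` -/
structure New (M' : FM s.Φ) (vx' : s.Φ → MV) (H' Rk : Set MV) (pos' : s.Φ → Prop)
    (Q : Set s.Φ) : Prop where
  ok : (s.re M' vx' H' Rk pos').Ok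
  spk : (s.re M' vx' H' Rk pos').Spk
  eg : M'.eg ≤ s.gn K
  sub : M'.S ⊆ s.M.S
  ha : M'.a = s.M.a
  hc : M'.c = s.M.c
  hol : ∀ f ∈ s.M.S, vx' f ∈ H' ↔ s.vx f ∈ s.H
  off : ∀ f, s.vx f ∉ s.H → vx' f = s.vx f
  ink : ∀ f ∈ M'.S, s.vx f ∉ s.H → s.vx f ∈ K
  spoke : ∀ f ∈ s.M.S, s.vx f ∈ s.H → s.vx (s.M.a f) ∈ K → f ∈ M'.S
  edge : ∀ f ∈ s.M.S, s.vx f ∈ K ∩ s.T → s.vx (s.M.a f) ∈ K ∩ s.T → f ∈ M'.S
  vt : K ∩ s.T ⊆ (s.re M' vx' H' Rk pos').T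
  ce : (s.re M' vx' H' Rk pos').Ce = s.Ce ∩ K
  vo : ∀ f ∈ M'.S, M'.vo f ⊆ s.M.vo f
  qb : ∀ f ∈ M'.S, s.vx f ∈ s.H → f ∉ Q → M'.b f = s.M.b f ∧
    (s.re M' vx' H' Rk pos').Quad f ∧ (s.re M' vx' H' Rk pos').link f ∉ H'
  qq : ∀ f ∈ Q, M'.b f ∈ Q ∧ (∀ g ∈ Q, g ∈ M'.vo f → g = f ∨ g = M'.b f) ∧
    (s.M.b f ∈ M'.S → s.M.b f ∈ Q)
  qn : Q ⊆ {f | f ∈ s.M.fl s.vx s.H ∧ ¬ (s.Quad f ∧ s.link f ∉ s.H)} ∪
    s.M.b '' {g | g ∈ s.M.fl s.vx s.H ∧ s.vx (s.M.a g) ∈ X}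
  holes : (H' ∩ vx' '' M'.S).ncard ≤ (s.H ∩ s.Vt).ncard + Q.ncard

end defs

variable {s : Sk} {K X : Set MV} {f g : s.Φ} {x y : MV}

theorem nd_of (ho : s.Ok) (hx : x ∈ s.H ∪ s.Rm) : x ∉ s.Nd := fun ⟨_, v, e⟩ => by
  obtain ⟨n, k⟩ := hx.elim (ho.hr.1 ·) (ho.hr.2.1 ·)
  rw [← e] at k; cases k

theorem quad6 (hM : s.M.Ok) (hf : f ∈ s.M.S) (q : s.Quad f) :
    s.M.b (s.M.a (s.M.b (s.M.a (s.M.b (s.M.a f))))) = s.M.a (s.M.b f) := by
  have e : s.M.b (s.M.a (s.M.b (s.M.a (s.M.b (s.M.a (s.M.b (s.M.a f))))))) = f := q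
  have m6 := hM.b_mem (hM.a_mem (hM.b_mem (hM.a_mem (hM.b_mem (hM.a_mem hf)))))
  conv_rhs => rw [← e]
  rw [hM.bb (hM.a_mem m6), hM.aa m6]

theorem quad_b (hM : s.M.Ok) (hL : s.M.Lbl s.vx) (hf : f ∈ s.M.S) (q : s.Quad f) :
    s.Quad (s.M.b f) ∧ s.link (s.M.b f) = s.link f := by
  have m1 := hM.a_mem hf
  have m2 := hM.b_mem m1
  have m3 := hM.a_mem m2
  have m4 := hM.b_mem m3
  have m5 := hM.a_mem m4
  refine ⟨?_, ?_⟩
  · show s.M.b (s.M.a (s.M.b (s.M.a (s.M.b (s.M.a (s.M.b (s.M.a (s.M.b f)))))))) = s.M.b f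
    rw [← quad6 hM hf q, hM.bb m5, hM.aa m4, hM.bb m3, hM.aa m2, hM.bb m1, hM.aa hf]
  · rw [Sk.link, Sk.link, ← quad6 hM hf q, hM.bb m5, hM.aa m4, hL.b hM m3]

namespace Hy

variable (h : Hy s K X)
include h

theorem hM : s.M.Ok := h.ok.hm.ok
theorem hL : s.M.Lbl s.vx := h.ok.hm.lbl

theorem adj (hf : f ∈ s.M.S) : s.G.Adj (s.vx f) (s.vx (s.M.a f)) :=
  ⟨(h.ok.hm.simple f hf).1, f, hf, Or.inl ⟨rfl, rfl⟩⟩

theorem kH (hx : x ∈ K) : x ∉ s.H := (h.sub hx).1.2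

theorem nd0 (hx : x ∈ K) (n : x ∈ s.Nd) : x ∈ K0 s K X :=
  ⟨hx, fun k => (nd_of h.ok (Or.inr k) n).elim⟩

theorem T0 (hx : x ∈ K ∩ s.T) : x ∈ K0 s K X :=
  ⟨hx.1, fun k => (hx.2.elim (nd_of h.ok (Or.inr k)) fun c => c.2 (Or.inr k)).elim⟩

theorem esU : s.M.Es (U s K X) := es_ind h.hM h.hL _

theorem step (hx : x ∈ K) (e : s.G.Adj x y) (h1 : y ∉ s.H) (h2 : y ∉ X) : y ∈ K :=
  h.clo x hx y ⟨⟨((fSkS s h.ok).2.2.2.1 y x e.symm).1, h1⟩, h2⟩ e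

theorem far_nd (hf : f ∈ s.M.S) (k : s.vx f ∉ s.Nd) : s.vx (s.M.a f) ∈ s.Nd :=
  by_contra fun c => k ((h.ok.bip f hf).2 c)

theorem spoke (hf : f ∈ s.M.S) (k : s.vx f ∈ s.H) : f ∈ U s K X ↔ s.vx (s.M.a f) ∈ K :=
  ⟨fun c => (c.2.2.resolve_right (h.ok.hm.ind f hf k)).1,
    fun c => ⟨hf, Or.inr k, Or.inl (h.nd0 c (h.far_nd hf (nd_of h.ok (Or.inl k))))⟩⟩

theorem ok1 : (s.M.sub (U s K X)).Ok := h.hM.sub h.esU

theorem lbl1 : (s.M.sub (U s K X)).Lbl s.vx := (gphC _ _ _ _ h.hM h.hL).1 _ h.esU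

theorem b1 (hf : f ∈ U s K X) (k : s.M.b f ∈ U s K X) : (s.M.sub (U s K X)).b f = s.M.b f :=
  minor_b_of_mem h.hM h.esU cl_empty hf k

theorem O_b (hf : f ∈ O s K X) (k : s.M.b f ∈ U s K X) : s.M.b f ∈ O s K X := by
  have fS := hf.1.1
  refine ⟨k, (h.hL.b h.hM fS).symm ▸ hf.2.1, Or.inl fun c => hf.2.2.elim (fun n => n ?_) (· k)⟩
  have := quad_b h.hM h.hL (h.hM.b_mem fS) c.1
  rw [h.hM.bb fS] at this
  exact ⟨this.1, this.2 ▸ c.2⟩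

theorem csO : (s.M.sub (U s K X)).Cs (O s K X) := by
  refine ⟨fun _ k => k.1, fun f hf => ?_⟩
  by_cases k : s.M.b f ∈ U s K X
  · rw [h.b1 hf.1 k]; exact h.O_b hf k
  · have m : (s.M.sub (U s K X)).b f ∈ U s K X := h.ok1.b_mem hf.1
    refine ⟨m, (h.lbl1.b h.ok1 hf.1).symm ▸ hf.2.1, Or.inr fun c => k ?_⟩
    have := h.ok1.bb (x := f) hf.1
    rw [h.b1 m c] at this
    rw [← this, h.hM.bb m.1]
    exact m

theorem ok2 : (M2 s K X).Ok := OpSplit.ok h.ok1 h.csO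

theorem b2 (hf : f ∈ U s K X) (k : s.M.b f ∈ U s K X) (n : f ∉ O s K X) :
    (M2 s K X).b f = s.M.b f := (OpSplit.b_out n).trans (h.b1 hf k)

theorem vo2 (hf : f ∈ U s K X) : (M2 s K X).vo f =
    cl (cut (s.M.sub (U s K X)).c (s.M.sub (U s K X)).b (O s K X)) f :=
  (splitS radS _ _ _ h.ok1 h.csO).2.2.1 f hf

theorem vo21 (hf : f ∈ U s K X) (hg : g ∈ (M2 s K X).vo f) : g ∈ U s K X ∧ s.vx g = s.vx f := by
  rw [h.vo2 hf] at hg
  exact ⟨h.ok1.vo_mem hf (OpSplit.cut_vo hg), h.lbl1.of_vo h.ok1 hf (OpSplit.cut_vo hg)⟩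

theorem vo12 (hf : f ∈ U s K X) (n : ∀ g ∈ (M2 s K X).vo f, g ∉ O s K X) (hg : g ∈ U s K X)
    (e : s.vx f = s.vx g) : g ∈ (M2 s K X).vo f :=
  Cy.orb_ind (P := fun g => g ∈ (M2 s K X).vo f) ((h.lbl1 f hf g hg).1 e) (Cy.orb_self ..)
    (fun z hz => (OpSplit.b_out (M := s.M.sub (U s K X)) (n z hz)) ▸ Cy.orb_p hz)
    fun _ hz => Cy.orb_q hz

theorem vo_off (hf : f ∈ U s K X) (n : s.vx f ∉ s.H) (hg : g ∈ U s K X) (e : s.vx f = s.vx g) :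
    g ∈ (M2 s K X).vo f :=
  h.vo12 hf (fun _ hz c => n ((h.vo21 hf hz).2 ▸ c.2.1)) hg e

/-- a closed corner between kept edges is kept -/
theorem face (hf : f ∈ U s K X) (k : s.vx f ∈ s.H) (n : f ∉ O s K X) :
    (M2 s K X).b f = s.M.b f ∧ ((M2 s K X).b ∘ (M2 s K X).a)^[4] f = f ∧
      (M2 s K X).b (s.M.a f) = s.M.b (s.M.a f) ∧ s.link f ∉ s.H := by
  have hM := h.hM
  have hL := h.hL
  have fS := hf.1
  obtain ⟨⟨q, l⟩, m7⟩ : (s.Quad f ∧ s.link f ∉ s.H) ∧ s.M.b f ∈ U s K X :=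
    ⟨by_contra fun c => n ⟨hf, k, Or.inl c⟩, by_contra fun c => n ⟨hf, k, Or.inr c⟩⟩
  have kb : s.vx (s.M.b f) ∈ s.H := (hL.b hM fS).symm ▸ k
  have m1 := hM.a_mem fS
  have m2 := hM.b_mem m1
  have m3 := hM.a_mem m2
  have m4 := hM.b_mem m3
  have m5 := hM.a_mem m4
  have p1 := (h.spoke fS k).1 hf
  have p2 := (h.spoke (hM.b_mem fS) kb).1 m7
  have n1 := h.far_nd fS (nd_of h.ok (Or.inl k))
  have n2 := h.far_nd (hM.b_mem fS) (nd_of h.ok (Or.inl kb))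
  have n3 : s.link f ∉ s.Nd := (h.ok.bip _ m2).1 ((hL.b hM m1).symm ▸ n1)
  have e6 := quad6 hM fS q
  have v5 : s.vx (s.M.a (s.M.b (s.M.a (s.M.b (s.M.a f))))) = s.vx (s.M.a (s.M.b f)) := by
    rw [← e6, hL.b hM m5]
  have y0 : s.link f ∈ K0 s K X := by
    refine ⟨h.step p1 (hL.b hM m1 ▸ h.adj m2) l fun c => n3 (h.xn c), fun c x hx e => ?_⟩
    obtain ⟨r1, -, r2, -, -, -, -, r3⟩ := (fSkS s h.ok).2.1 f ⟨fS, k⟩
    obtain ⟨-, v, rfl⟩ := h.xn hx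
    have : v ∈ s.nb (s.link f) := e
    rw [(r3 q).2.2.2 c] at this
    rcases this with rfl | rfl
    · exact (h.sub p1).2 (r1 ▸ hx)
    · have := ((fSkS s h.ok).2.1 _ r2).1
      rw [rot, hL.ac hM (hM.b_mem fS)] at this
      exact (h.sub p2).2 (this ▸ hx)
  have u1 := (h.esU.2 f hf).1
  have u2 : s.M.b (s.M.a f) ∈ U s K X :=
    ⟨m2, Or.inl ((hL.b hM m1).symm ▸ h.nd0 p1 n1), Or.inl y0⟩
  have u3 := (h.esU.2 _ u2).1
  have u4 : s.M.b (s.M.a (s.M.b (s.M.a f))) ∈ U s K X :=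
    ⟨m4, Or.inl ((hL.b hM m3).symm ▸ y0), Or.inl (v5.symm ▸ h.nd0 p2 n2)⟩
  have u5 := (h.esU.2 _ u4).1
  have u6 := (h.esU.2 _ m7).1
  have c1 := h.b2 u1 u2 fun c => h.kH p1 c.2.1
  have c3 := h.b2 u3 u4 fun c => l c.2.1
  have c5 := h.b2 u5 (e6.symm ▸ u6) fun c => h.kH p2 (v5 ▸ c.2.1)
  have c7 := h.b2 m7 ((hM.bb fS).symm ▸ hf) fun c =>
    n (hM.bb fS ▸ h.O_b c ((hM.bb fS).symm ▸ hf))
  refine ⟨h.b2 hf m7 n, ?_, c1, l⟩
  show (M2 s K X).b (s.M.a ((M2 s K X).b (s.M.a ((M2 s K X).b (s.M.a ((M2 s K X).b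
    (s.M.a f))))))) = f
  rw [c1, c3, c5, e6, hM.aa (hM.b_mem fS), c7, hM.bb fS]

theorem leaf (hy : y ∈ K) (n : y ∉ K0 s K X) {z z' : MV} (hz : z ∈ K) (hz' : z' ∈ K)
    (e : s.G.Adj y z) (e' : s.G.Adj y z') : z = z' ∧ z ∈ K0 s K X := by
  obtain ⟨c, x, hx, ex⟩ : y ∈ s.Rm ∧ ∃ x ∈ X, s.G.Adj y x := by
    by_contra c
    exact n ⟨hy, fun k x hx e => c ⟨k, x, hx, e⟩⟩
  obtain ⟨f, hf, q, rfl⟩ := h.ok.rim y ⟨c, (h.sub hy).1.1⟩
  have r := (((fSkS s h.ok).2.1 f hf).2.2.2.2.2.2.2 q).2.2.2 c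
  have nd : ∀ z, s.G.Adj (s.link f) z → z ∈ s.Nd := fun z e => by_contra fun k =>
    nd_of h.ok (Or.inr c) (((fSkS s h.ok).2.2.2.1 _ _ e).2.2 k)
  refine ⟨?_, h.nd0 hz (nd z e)⟩
  obtain ⟨-, v, rfl⟩ := nd z e
  obtain ⟨-, v', rfl⟩ := nd z' e'
  obtain ⟨-, w, rfl⟩ := nd x ex
  have a1 : v ∈ s.nb (s.link f) := e
  have a2 : v' ∈ s.nb (s.link f) := e'
  have a3 : w ∈ s.nb (s.link f) := ex
  have d1 : v ≠ w := fun k => (h.sub hz).2 (k ▸ hx)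
  have d2 : v' ≠ w := fun k => (h.sub hz').2 (k ▸ hx)
  rw [r] at a1 a2 a3
  rcases a1 with a1 | a1 <;> rcases a2 with a2 | a2 <;> rcases a3 with a3 | a3 <;>
    first | exact congrArg _ (a1.trans a2.symm) | exact (d1 (a1.trans a3.symm)).elim |
      exact (d2 (a2.trans a3.symm)).elim

theorem conn0 (hx : x ∈ K0 s K X) (hy : y ∈ K0 s K X) : Link s.G (K0 s K X) x y := by
  have key : ∀ w, Link s.G K x w → (w ∈ K0 s K X → Link s.G (K0 s K X) x w) ∧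
      (w ∉ K0 s K X → ∀ z ∈ K, s.G.Adj w z → Link s.G (K0 s K X) x z) := by
    intro w hw
    induction hw with
    | refl => exact ⟨fun _ => .refl .., fun c => (c hx).elim⟩
    | @tail u w _ e ih =>
      refine ⟨fun c => ?_, fun c z hz ez => ?_⟩
      · by_cases k : u ∈ K0 s K X
        · exact (ih.1 k).trans (.single k c e.2.2)
        · exact ih.2 k w e.2.1 e.2.2
      · obtain ⟨rfl, k⟩ := h.leaf e.2.1 c hz e.1 ez e.2.2.symm
        exact ih.1 k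
  exact (key y (h.conn.2 x hx.1 y hy.1)).1 hy

theorem flag (hx : x ∈ K0 s K X) : ∃ f ∈ U s K X, s.vx f = x := by
  obtain ⟨y, hy, n⟩ := h.nt.exists_ne x
  rcases ReflTransGen.cases_head (h.conn0 hx (h.T0 hy)) with e | ⟨z, e, -⟩
  · exact (n e.symm).elim
  · obtain ⟨f, hf, rfl, rfl⟩ := exists_adj h.hM e.2.2
    exact ⟨f, ⟨hf, Or.inl e.1, Or.inl e.2.1⟩, rfl⟩

theorem vt0 (hx : x ∈ K0 s K X) : x ∈ s.Vt := (h.sub hx.1).1.1

omit h in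
theorem off0 (hf : f ∈ U s K X) (n : s.vx f ∉ s.H) : s.vx f ∈ K0 s K X := hf.2.1.resolve_right n

section names

variable {e : Set s.Φ → ℕ} (ei : InjOn e ((M2 s K X).vo '' U s K X))
  (ef : ∀ A, Sum.inr (e A) ∉ s.Vt)

omit h in
theorem v_on (k : s.vx f ∈ s.H) : vx2 s K X e f = Sum.inr (e ((M2 s K X).vo f)) := if_pos k

omit h in
theorem v_off (k : s.vx f ∉ s.H) : vx2 s K X e f = s.vx f := if_neg k

include ef

omit h in
theorem hol (hf : f ∈ s.M.S) :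
    vx2 s K X e f ∈ range (fun A => (Sum.inr (e A) : MV)) ↔ s.vx f ∈ s.H := by
  refine ⟨fun ⟨A, k⟩ => by_contra fun c => ef A ?_, fun k => ⟨_, (v_on k).symm⟩⟩
  rw [v_off c] at k
  exact ⟨f, hf, k.symm⟩

include ei

theorem lbl2 : (M2 s K X).Lbl (vx2 s K X e) := by
  intro f hf g hg
  have hf : f ∈ U s K X := hf
  have hg : g ∈ U s K X := hg
  by_cases k : s.vx f ∈ s.H <;> by_cases k' : s.vx g ∈ s.H
  · rw [v_on k, v_on k']
    refine ⟨fun c => ?_, fun c => by rw [h.ok2.vo_eq hf c]⟩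
    rw [ei ⟨f, hf, rfl⟩ ⟨g, hg, rfl⟩ (Sum.inr_injective c)]
    exact Cy.orb_self ..
  · exact ⟨fun c => (k' ((hol ef hg.1).1 (c ▸ (hol ef hf.1).2 k))).elim,
      fun c => (k' ((h.vo21 hf c).2 ▸ k)).elim⟩
  · exact ⟨fun c => (k ((hol ef hf.1).1 (c ▸ (hol ef hg.1).2 k'))).elim,
      fun c => (k ((h.vo21 hf c).2 ▸ k')).elim⟩
  · rw [v_off k, v_off k']
    exact ⟨h.vo_off hf k hg, fun c => (h.vo21 hf c).2.symm⟩

theorem con2 : (M2 s K X).Con := by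
  have k1 : ∀ u ∈ K0 s K X, ∀ v ∈ K0 s K X, Link ((M2 s K X).gph (vx2 s K X e)) univ u v := by
    intro u hu v hv
    refine Link.map id (fun a ha b hb ab => ?_) (h.conn0 hu hv)
    obtain ⟨f, hf, rfl, rfl⟩ := exists_adj h.hM ab
    have := Gph.link_a (M := M2 s K X) (vx := vx2 s K X e) (K := univ) (f := f)
      ⟨hf, Or.inl ha, Or.inl hb⟩ trivial trivial
    rwa [v_off (h.kH ha.1), show (M2 s K X).a f = s.M.a f from rfl, v_off (h.kH hb.1)] at this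
  have k2 : ∀ f ∈ U s K X, ∃ u ∈ K0 s K X,
      Link ((M2 s K X).gph (vx2 s K X e)) univ (vx2 s K X e f) u := by
    intro f hf
    by_cases k : s.vx f ∈ s.H
    · have n := h.ok.hm.ind f hf.1 k
      exact ⟨_, hf.2.2.resolve_right n, v_off (e := e) (K := K) (X := X) n ▸
        Gph.link_a (M := M2 s K X) hf trivial trivial⟩
    · exact ⟨_, off0 hf k, by rw [v_off k]; exact .refl ..⟩
  intro f hf g hg
  obtain ⟨u, hu, l⟩ := k2 f hf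
  obtain ⟨v, hv, l'⟩ := k2 g hg
  exact ((gphC _ _ _ _ h.ok2 (h.lbl2 ei ef)).2.2.2.1 f hf g hg).2 ((l.trans (k1 u hu v hv)).trans l'.symm)

omit ei ef in
theorem qq (hf : f ∈ O s K X) : (M2 s K X).b f ∈ O s K X ∧
    ∀ g ∈ O s K X, g ∈ (M2 s K X).vo f → g = f ∨ g = (M2 s K X).b f := by
  have := mate_spec h.ok1.fin h.ok1.ic h.ok1.ib h.csO.1 h.csO.2 hf
  rw [← OpSplit.b_in hf, ← h.vo2 hf.1] at this
  exact ⟨this.1, fun g hg k => this.2.2 g k hg⟩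

omit ei ef in
theorem qb (hf : f ∈ U s K X) (k : s.vx f ∈ s.H) (n : f ∉ O s K X) :
    vx2 s K X e ((M2 s K X).a ((M2 s K X).b ((M2 s K X).a f))) = s.link f := by
  obtain ⟨-, -, c, l⟩ := h.face hf k n
  show vx2 s K X e (s.M.a ((M2 s K X).b (s.M.a f))) = _
  rw [c]
  exact v_off l

theorem eg2 : (M2 s K X).eg ≤ s.gn K := by
  have nl : ∀ x, x ∈ s.Vt → x ∉ range fun A => (Sum.inr (e A) : MV) := fun x hx ⟨A, c⟩ =>
    ef A (by rw [show Sum.inr (e A) = x from c]; exact hx)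
  have e1 := fanS rotS _ _ (M2 s K X) (vx2 s K X e) (range fun A => (Sum.inr (e A) : MV))
    (O s K X) h.ok2 (h.lbl2 ei ef) (fun f hf c => h.ok.hm.ind f hf.1.1 ((hol ef hf.1.1).1 hf.2)
      ((hol ef (h.hM.a_mem hf.1.1)).1 c)) (fun f hf n => by
        have k := (hol ef hf.1.1).1 hf.2
        rw [h.qb hf.1 k n]
        refine ⟨(h.face hf.1 k n).2.1, nl _ ⟨_, h.hM.a_mem (h.hM.b_mem (h.hM.a_mem hf.1.1)), rfl⟩⟩)
    fun f hf g hg c => (h.qq hf).2 g hg ((h.lbl2 ei ef f hf.1 g hg.1).1 c)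
  have e2 : (M2 s K X).ind (vx2 s K X e) ((M2 s K X).tv (vx2 s K X e)
      (range fun A => (Sum.inr (e A) : MV))) = s.M.ind s.vx (K0 s K X) := by
    ext f
    constructor
    · rintro ⟨hf, ⟨-, c⟩, -, c'⟩
      have hf : f ∈ U s K X := hf
      exact ⟨hf.1, off0 hf fun k => c ((hol ef hf.1).2 k),
        hf.2.2.resolve_right fun k => c' ((hol ef (h.hM.a_mem hf.1)).2 k)⟩
    · rintro ⟨hf, c, c'⟩
      have u : f ∈ U s K X := ⟨hf, Or.inl c, Or.inl c'⟩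
      exact ⟨u, ⟨⟨f, u, rfl⟩, fun k => h.kH c.1 ((hol ef hf).1 k)⟩, ⟨_, (h.esU.2 f u).1, rfl⟩,
        fun k => h.kH c'.1 ((hol ef (h.hM.a_mem hf)).1 k)⟩
  have eI := es_ind h.hM h.hL (K0 s K X)
  have sI : s.M.ind s.vx (K0 s K X) ⊆ U s K X := ind_mono subset_union_left
  have e3 := ((splitS radS _ _ _ h.ok1 h.csO).2.2.2.2.2 _ (eI.of_sub sI) fun x hx =>
    disjoint_left.2 fun z hz c => h.kH c.2.1.1 ((h.lbl1.of_vo h.ok1 hx.1 hz).symm ▸ hx.2.1)).1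
  have g := h.ok1.sub (eI.of_sub sI)
  rw [← e1, e2]
  exact (e3.iso.eg g).le.trans (((sub_sub h.hM h.esU eI sI).iso.eg g).ge.trans
    (eg_sub_mono h.hM (es_ind h.hM h.hL K) eI (ind_mono fun _ k => k.1)))

theorem holes2 : (range (fun A => (Sum.inr (e A) : MV)) ∩ vx2 s K X e '' U s K X).ncard ≤
    (s.H ∩ s.Vt).ncard + (O s K X).ncard := by
  have f1 : (s.H ∩ s.Vt).Finite := (h.hM.fin.image _).subset inter_subset_right
  have f2 : (O s K X).Finite := h.ok1.fin.subset h.csO.1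
  refine (ncard_le_ncard (t := (fun x => (Sum.inr (e {g | g ∈ U s K X ∧ s.vx g = x}) : MV)) ''
    (s.H ∩ s.Vt) ∪ vx2 s K X e '' O s K X) ?_ ((f1.image _).union (f2.image _))).trans
    ((ncard_union_le _ _).trans (add_le_add (ncard_image_le f1) (ncard_image_le f2)))
  rintro _ ⟨c, f, hf, rfl⟩
  have k := (hol ef hf.1).1 c
  by_cases m : ∃ g ∈ (M2 s K X).vo f, g ∈ O s K X
  · obtain ⟨g, hg, m⟩ := m
    exact Or.inr ⟨g, m, ((h.lbl2 ei ef f hf g m.1).2 hg).symm⟩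
  · refine Or.inl ⟨s.vx f, ⟨k, f, hf.1, rfl⟩, ?_⟩
    rw [v_on k]
    refine congrArg (fun A => (Sum.inr (e A) : MV)) (Set.ext fun g => ⟨fun c => ?_, h.vo21 hf⟩)
    exact h.vo12 hf (fun z hz c => m ⟨z, hz, c⟩) c.1 c.2.symm

theorem new (pos : s.Φ → Prop) (hp : (M2 s K X).Pos pos) : New s K X (M2 s K X) (vx2 s K X e)
    (range fun A => (Sum.inr (e A) : MV)) (s.Rm ∩ K0 s K X) pos (O s K X) := by
  have hM := h.hM
  have hL := h.hL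
  set s' := s.re (M2 s K X) (vx2 s K X e) (range fun A => (Sum.inr (e A) : MV))
    (s.Rm ∩ K0 s K X) pos with hs
  have nl : ∀ x, x ∈ s.Vt → x ∉ range fun A => (Sum.inr (e A) : MV) := fun x hx ⟨A, c⟩ =>
    ef A (by rw [show Sum.inr (e A) = x from c]; exact hx)
  have nH : ∀ f ∈ s.M.S, vx2 s K X e f ∉ range (fun A => (Sum.inr (e A) : MV)) → s.vx f ∉ s.H :=
    fun f hf c k => c ((hol ef hf).2 k)
  have vs : ∀ f ∈ U s K X, (M2 s K X).vo f ⊆ s.M.vo f := fun f hf g hg =>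
    (hL f hf.1 g (h.vo21 hf hg).1.1).1 (h.vo21 hf hg).2.symm
  have nd : ∀ f ∈ U s K X, vx2 s K X e f ∈ s'.Nd ↔ s.vx f ∈ s.Nd := fun f hf => by
    by_cases k : s.vx f ∈ s.H
    · refine iff_of_false (fun c => ?_) (nd_of h.ok (Or.inl k))
      obtain ⟨v, c⟩ := c.2
      rw [v_on k] at c; cases c
    · exact ⟨fun c => ⟨⟨f, hf.1, rfl⟩, v_off (e := e) (K := K) (X := X) k ▸ c.2⟩,
        fun c => ⟨⟨f, hf, rfl⟩, (v_off (e := e) (K := K) (X := X) k).symm ▸ c.2⟩⟩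
  have v0 : ∀ x ∈ K0 s K X, x ∈ s'.Vt := fun x hx =>
    let ⟨f, hf, c⟩ := h.flag hx
    ⟨f, hf, (v_off (c ▸ h.kH hx.1)).trans c⟩
  have ce : s'.Ce = s.Ce ∩ K := by
    ext x
    constructor
    · rintro ⟨⟨⟨f, hf, rfl⟩, c⟩, n⟩
      have hf : f ∈ U s K X := hf
      have k := nH f hf.1 fun c => n (Or.inl c)
      have c1 : s'.vx f = s.vx f := v_off k
      rw [c1] at c n ⊢
      exact ⟨⟨⟨⟨f, hf.1, rfl⟩, c⟩, fun m => m.elim k fun m => n (Or.inr ⟨m, off0 hf k⟩)⟩,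
        (off0 hf k).1⟩
    · intro c
      exact ⟨⟨v0 x (h.T0 ⟨c.2, Or.inr c.1⟩), c.1.1.2⟩, fun m => m.elim (nl x c.1.1.1)
        fun m => c.1.2 (Or.inr m.1)⟩
  have hm : (M2 s K X).Hm (vx2 s K X e) (range fun A => (Sum.inr (e A) : MV)) := by
    refine ⟨h.ok2, h.lbl2 ei ef, h.con2 ei ef, fun f hf => ⟨fun c => ?_, fun g hg n1 n2 c1 c2 => ?_⟩,
      fun f hf c c' => h.ok.hm.ind f hf.1 ((hol ef hf.1).1 c) ((hol ef (hM.a_mem hf.1)).1 c')⟩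
    · have c : vx2 s K X e f = vx2 s K X e (s.M.a f) := c
      have m := hM.a_mem hf.1
      by_cases k : s.vx f ∈ s.H
      · exact h.ok.hm.ind f hf.1 k ((hol ef m).1 (c ▸ (hol ef hf.1).2 k))
      · have k' : s.vx (s.M.a f) ∉ s.H := fun k' => k ((hol ef hf.1).1 (c ▸ (hol ef m).2 k'))
        rw [v_off k, v_off k'] at c
        exact (h.ok.hm.simple f hf.1).1 c
    · have c2 : vx2 s K X e (s.M.a g) = vx2 s K X e (s.M.a f) := c2
      have k1 := nH f hf.1 n1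
      have k2 := nH _ (hM.a_mem hf.1) n2
      have k3 := nH g hg.1 (c1 ▸ n1)
      have k4 := nH _ (hM.a_mem hg.1) (c2 ▸ n2)
      rw [v_off k1, v_off k3] at c1
      rw [v_off k2, v_off k4] at c2
      exact (h.ok.hm.simple f hf.1).2 g hg.1 k1 k2 c1 c2
  have xn : ∀ y ∈ s.Rm ∩ K0 s K X, ∀ z, s.G.Adj y z → z ∈ K ∧ z ∈ s.Nd := fun y hy z c => by
    have n : z ∈ s.Nd := by_contra fun k =>
      nd_of h.ok (Or.inr hy.1) (((fSkS s h.ok).2.2.2.1 _ _ c).2.2 k)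
    exact ⟨h.step hy.2.1 c (fun k => nd_of h.ok (Or.inl k) n) fun k => hy.2.2 hy.1 z k c, n⟩
  refine ⟨⟨hm, hp, ⟨fun _ ⟨A, c⟩ => ⟨_, c⟩, fun _ c => h.ok.hr.2.1 c.1,
      disjoint_right.2 fun x c => nl x (h.vt0 c.2)⟩, ?_, fun f hf => ?_, fun f hf => ⟨fun c => ?_,
      fun c => ?_⟩, ?_⟩, fun f hf g hg c1 c2 => ?_, h.eg2 ei ef, fun _ c => c.1, rfl, rfl,
    fun f hf => hol ef hf, fun f => v_off, fun f hf n => (off0 hf n).1,
    fun f hf k c => (h.spoke hf k).2 c, fun f hf c c' => ⟨hf, Or.inl (h.T0 c), Or.inl (h.T0 c')⟩,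
    fun x c => c.2.imp (fun n => ⟨v0 x (h.T0 c), n.2⟩) fun n => ce ▸ ⟨n, c.1⟩, ce, vs,
    fun f hf k n => ⟨(h.face hf k n).1, (h.face hf k n).2.1, ?_⟩,
    fun f hf => ⟨(h.qq hf).1, (h.qq hf).2, h.O_b hf⟩, fun f hf => ?_, h.holes2 ei ef⟩
  · rintro v ⟨f, hf, c⟩
    have c : vx2 s K X e f = Sum.inl v := c
    refine h.ok.od v ⟨f, hf.1, (v_off fun k => ?_).symm.trans c⟩
    rw [v_on k] at c; cases c
  · exact (nd f hf).trans ((h.ok.bip f hf.1).trans (nd _ (h.esU.2 f hf).1).not.symm)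
  · have c : vx2 s K X e f ∈ s'.Ce := c
    have k := nH f hf.1 fun m => c.2 (Or.inl m)
    rw [ce, v_off k] at c
    exact (ncard_le_ncard (vs f hf) (hM.fin.subset fun _ => hM.vo_mem hf.1)).trans
      ((h.ok.deg f hf.1).1 c.1)
  · have c : vx2 s K X e f ∈ s.Rm ∩ K0 s K X := c
    have k := nH f hf.1 (nl _ (h.vt0 c.2))
    rw [v_off k] at c
    rw [← (h.ok.deg f hf.1).2 c.1]
    refine congrArg ncard ((vs f hf).antisymm fun g hg => ?_)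
    have gS := hM.vo_mem hf.1 hg
    have c1 := hL.of_vo hM hf.1 hg
    have c2 := xn _ c _ (c1 ▸ h.adj gS)
    exact h.vo_off hf k ⟨gS, Or.inl (c1 ▸ c.2), Or.inl (h.nd0 c2.1 c2.2)⟩ c1.symm
  · rintro y ⟨c, -⟩
    obtain ⟨f, hf, q, rfl⟩ := h.ok.rim y ⟨c.1, h.vt0 c.2⟩
    obtain ⟨r1, -, r2, -, -, -, -, r3⟩ := (fSkS s h.ok).2.1 f hf
    have r4 := ((fSkS s h.ok).2.1 _ r2).1
    rw [rot, hL.ac hM (hM.b_mem hf.1)] at r4
    have u : f ∈ U s K X := (h.spoke hf.1 hf.2).2 (r1 ▸ (xn _ c _ (r3 q).1).1)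
    have n : f ∉ O s K X := fun m => m.2.2.elim (fun m => m ⟨q, h.kH c.2.1⟩) fun m => m
      ((h.spoke (hM.b_mem hf.1) ((hL.b hM hf.1).symm ▸ hf.2)).2 (r4 ▸ (xn _ c _ (r3 q).2.1).1))
    exact ⟨f, ⟨u, (hol ef hf.1).2 hf.2⟩, (h.face u hf.2 n).2.1, h.qb u hf.2 n⟩
  · have c1 : vx2 s K X e g = vx2 s K X e f := c1
    have c2 : vx2 s K X e (s.M.a g) = vx2 s K X e (s.M.a f) := c2
    have k := (hol ef hf.1.1).1 hf.2
    have c3 := (h.vo21 hf.1 ((h.lbl2 ei ef f hf.1 g hg).1 c1.symm)).2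
    rw [v_off (h.ok.hm.ind f hf.1.1 k), v_off (h.ok.hm.ind g hg.1 (c3 ▸ k))] at c2
    exact h.spk f ⟨hf.1.1, k⟩ g hg.1 c3 c2
  · rw [show s'.link f = s.link f from h.qb hf k n]
    exact nl _ ⟨_, hM.a_mem (hM.b_mem (hM.a_mem hf.1)), rfl⟩
  · have fS := hf.1.1
    have k := hf.2.1
    by_cases q : s.Quad f ∧ s.link f ∉ s.H
    · have kb : s.vx (s.M.b f) ∈ s.H := (hL.b hM fS).symm ▸ k
      refine Or.inr ⟨s.M.b f, ⟨⟨hM.b_mem fS, kb⟩, by_contra fun c => ?_⟩, hM.bb fS⟩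
      obtain ⟨r1, -, r2, -, -, -, -, r3⟩ := (fSkS s h.ok).2.1 f ⟨fS, k⟩
      have r4 := ((fSkS s h.ok).2.1 _ r2).1
      rw [rot, hL.ac hM (hM.b_mem fS)] at r4
      have p1 := (h.spoke fS k).1 hf.1
      have a1 : s.G.Adj (s.link f) (s.vx (s.M.a f)) := r1 ▸ (r3 q.1).1
      have a2 : s.G.Adj (s.link f) (s.vx (s.M.a (s.M.b f))) := r4 ▸ (r3 q.1).2.1
      refine hf.2.2.resolve_left (· q) ((h.spoke (hM.b_mem fS) kb).2 (h.step (h.step p1 a1.symm q.2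
        fun m => ?_) a2 (h.ok.hm.ind _ (hM.b_mem fS) kb) c))
      exact ((fSkS s h.ok).2.2.2.1 _ _ a1).2.1 (h.xn m) (h.far_nd fS (nd_of h.ok (Or.inl k)))
    · exact Or.inl ⟨⟨fS, k⟩, q⟩

end names

theorem exists_new : ∃ M' vx' H' Rk pos' Q, New s K X M' vx' H' Rk pos' Q := by
  obtain ⟨e0, ei⟩ := Set.countable_iff_exists_injOn.1 (h.ok2.fin.image (M2 s K X).vo).countable
  obtain ⟨N, hN⟩ := ((h.hM.fin.image s.vx).preimage (Sum.inr_injective (α := W)).injOn).bddAbove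
  obtain ⟨pos, hp⟩ : ∃ pos, (M2 s K X).Pos pos := by
    by_cases k : ∃ o, (M2 s K X).Ori o
    · exact k.imp fun _ => Or.inl
    · exact ⟨fun _ => True, Or.inr ⟨k, fun _ => trivial⟩⟩
  refine ⟨_, _, _, _, pos, _, h.new (e := fun A => N + 1 + e0 A)
    (fun A hA B hB c => ei hA hB (Nat.add_left_cancel c)) (fun A c => ?_) pos hp⟩
  have := hN c
  omega

end Hy

end AbsG

end Pool.Agent.MP_9d78a0_co.gm

end MrgPart6

-- ======== part 7: formerly Pool.Agent.MP_9d78a0_co.gm.HSurgB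
section MrgPart7

/-! Block H: the new map, second part: the contraction of the paths. -/

set_option autoImplicit false

namespace Pool.Agent.MP_9d78a0_co.gm

open Set Function FM Tg2

namespace HSurg

variable {s : Sk} {U0 : Set MV} {zd : MV → Zd s} {R m0 : ℕ} {x x' v y : MV} {i j k k' : ℕ}
  {f g : s.Φ}

/-- the flags on the face for the hole `x` -/
def Fx (s : Sk) (U0 : Set MV) (zd : MV → Zd s) (x : MV) : Set s.Φ :=
  {f | f ∈ Uu s U0 zd ∧ ∃ p ∈ s.M.S, s.vx p = x ∧ f ∈ s.M.reg (E1 s U0 zd) p}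

theorem ce_h (hy : y ∈ s.Ce) : y ∉ s.H := fun m => hy.2 (Or.inl m)

namespace Cx

variable (h : Cx s U0 zd R m0)
include h

theorem nd_h (hv : v ∈ s.Nd) : v ∉ s.H := fun m => HBas.inr_nd (h.zx.ok0.hr.1 m) hv

theorem b1_eq (hf : f ∈ Uu s U0 zd) (hg : g ∈ Uu s U0 zd)
    (k : s.M.R (Cc s U0 zd) (E1 s U0 zd)ᶜ f g) (n : g ≠ f) :
    (s.M.minor (Uu s U0 zd) (Cc s U0 zd)).b f = g :=
  minor_b_eq h.ok h.esU h.esC.cl hf hg (k.mono (fun _ m => ⟨m, fun q => q.2 m⟩)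
    fun _ m => ⟨fun q => m q.1, fun q => m q.1⟩) n

theorem vo1 (hf : f ∈ Uu s U0 zd) (hg : g ∈ Uu s U0 zd) :
    g ∈ (s.M.minor (Uu s U0 zd) (Cc s U0 zd)).vo f ↔ s.M.R (Cc s U0 zd) (Cc s U0 zd)ᶜ f g := by
  rw [mem_vo, minor_R h.ok h.esU h.esC.cl hf hg]
  refine ⟨fun k => k.mono (fun z m => m.elim (fun q => q.1.elim) fun q => q.1)
    fun z m => m.elim (fun q => q.2.2) fun q => q.2, fun k => k.mono
      (fun z m => Or.inr ⟨m, fun q => q.2 m⟩) fun z m => ?_⟩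
  by_cases c : z ∈ Uu s U0 zd
  exacts [Or.inl ⟨trivial, c⟩, Or.inr ⟨c, m⟩]

theorem fo1 (hf : f ∈ Uu s U0 zd) (hg : g ∈ Uu s U0 zd) :
    g ∈ (s.M.minor (Uu s U0 zd) (Cc s U0 zd)).fo f ↔ s.M.R (E1 s U0 zd) (E1 s U0 zd)ᶜ f g := by
  rw [mem_fo, minor_R h.ok h.esU h.esC.cl hf hg]
  refine ⟨fun k => k.mono (fun z m => m.elim (fun q => q.2.1) fun q => q.1.1)
    fun z m => m.elim (fun q => q.1.elim) fun q e => q.1 ⟨e, q.2⟩, fun k => k.mono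
      (fun z m => ?_) fun z m => Or.inr ⟨fun q => m q.1, fun q => m q.1⟩⟩
  by_cases c : z ∈ Cc s U0 zd
  exacts [Or.inr ⟨c, fun q => q.2 c⟩, Or.inl ⟨trivial, m, c⟩]

theorem stepE (hx : x ∈ s.H ∩ s.Vt) (hi : i + 1 < 2 * (zd x).n) {P : Set s.Φ} :
    s.M.R P (E1 s U0 zd)ᶜ (s.M.a ((zd x).ed i)) ((zd x).ed (i + 1)) :=
  (h.stepR hx hi).mono (empty_subset _) fun _ m q => m (h.e0X hx q.1)

theorem stepN (hx : x ∈ s.H ∩ s.Vt) (hi : i + 1 < 2 * (zd x).n) :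
    (zd x).ed (i + 1) ≠ s.M.a ((zd x).ed i) := by
  rw [← (h.zo x hx).pw.step i hi]
  exact (h.ok.sub (h.esX hx)).b_ne ((h.esX hx).2 _ (h.edX hx (by omega))).1

theorem rng (hx : x ∈ s.H ∩ s.Vt) (hk : k + 1 < (zd x).N) : (zd x).ix 0 ≤ (zd x).ix k ∧
    (zd x).ix k < (zd x).ix (k + 1) ∧ (zd x).ix (k + 1) ≤ (zd x).ix ((zd x).N - 1) ∧
    (zd x).ix (k + 1) < (zd x).n :=
  ⟨h.ixm hx (by omega) (by omega), (h.zo x hx).ix.1 _ _ (by omega) hk,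
    h.ixm hx (by omega) (by omega), h.ixl hx hk⟩

theorem edE (hx : x ∈ s.H ∩ s.Vt) (a : (zd x).ps 0 ∈ Ks s U0 zd) (hk : k + 1 < (zd x).N)
    (h1 : 2 * (zd x).ix k ≤ i) (h2 : i < 2 * (zd x).ix (k + 1)) : (zd x).ed i ∈ E1 s U0 zd := by
  have := h.rng hx hk
  exact ⟨Or.inr ⟨x, hx, i, by omega, by omega, Cy.orb_self ..⟩,
    (h.pathK hx (by omega) (by omega)).2 a⟩

theorem pU (hx : x ∈ s.H ∩ s.Vt) (a : (zd x).ps 0 ∈ Ks s U0 zd) (hk : k + 1 < (zd x).N) :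
    (zd x).ed (2 * (zd x).ix k) ∈ Uu s U0 zd ∧
      (zd x).ed (2 * (zd x).ix (k + 1) - 1) ∈ Uu s U0 zd := by
  have := h.rng hx hk
  refine ⟨⟨h.edE hx a hk le_rfl (by omega), fun m => h.exD hx (h.psE hx (by omega)) m.2.1⟩,
    h.edE hx a hk (by omega) (by omega), fun m => h.exD hx (h.psE hx hk) ?_⟩
  have e := m.2.2
  rwa [h.nxt hx (by omega), show 2 * (zd x).ix (k + 1) - 1 + 1 = 2 * (zd x).ix (k + 1) by omega]
    at e

theorem walk (hx : x ∈ s.H ∩ s.Vt) (a : (zd x).ps 0 ∈ Ks s U0 zd) (hk : k + 1 < (zd x).N)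
    (h1 : 2 * (zd x).ix k + 1 ≤ i) (h2 : i < 2 * (zd x).ix (k + 1)) :
    s.M.R (Cc s U0 zd) (E1 s U0 zd)ᶜ (s.M.a ((zd x).ed (2 * (zd x).ix k))) ((zd x).ed i) := by
  have := h.rng hx hk
  induction i, h1 using Nat.le_induction with
  | base => exact h.stepE hx (by omega)
  | succ i h1 ih =>
    have n : (zd x).lk k ∉ s.Kx (zd x).Z := fun m => by have := (h.sup hx hk m).1; omega
    exact ((ih (by omega)).a ⟨h.edE hx a hk (by omega) (by omega),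
      ⟨x, k, hx, hk, n, i, by omega, by omega, rfl⟩,
      x, k, hx, hk, n, i + 1, by omega, h2, h.nxt hx (by omega)⟩).trans (h.stepE hx (by omega))

theorem lbl1 : (s.M.minor (Uu s U0 zd) (Cc s U0 zd)).Lbl fun f => lb s zd (s.vx f) := by
  intro f hf g hg
  have fS := h.esU.1 hf
  rw [h.vo1 hf hg]
  refine ⟨fun e => ?_, fun k => (k.eq (φ := fun f => lb s zd (s.vx f)) h.ok fS
    (fun z hz => by rw [h.lbl.b h.ok hz]) (fun z _ m => h.lbC m)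
    fun z hz _ => by rw [h.lbl.c h.ok hz]).symm⟩
  have e : lb s zd (s.vx f) = lb s zd (s.vx g) := e
  by_cases c : s.vx f ∈ Dv s zd <;> by_cases c' : s.vx g ∈ Dv s zd
  · obtain ⟨x, k, a⟩ := c
    obtain ⟨x', k', b⟩ := c'
    rw [h.lb_in a, h.lb_in b] at e
    obtain ⟨rfl, rfl⟩ := h.inU (h.lkIn a.1 a.2.1 a.2.2.1) (e ▸ h.lkIn b.1 b.2.1 b.2.2.1)
    have r := h.rng a.1 a.2.1
    have act : (zd x').ps 0 ∈ Ks s U0 zd := by
      obtain ⟨hx, -, -, i, h1, h2, e⟩ := a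
      exact (h.pathK hx (i := i) (by omega) (by omega)).1 (e ▸ hf.1.2)
    obtain ⟨p1, p2⟩ := h.pU a.1 act a.2.1
    have w := (h.walk a.1 act a.2.1 (i := 2 * (zd x').ix (k' + 1) - 1) (by omega)
      (by omega)).mono subset_rfl (Q' := (Cc s U0 zd)ᶜ) fun _ m q => m q.1
    have t : ∀ f ∈ Uu s U0 zd, In s zd x' k' (s.vx f) → s.M.R (Cc s U0 zd) (Cc s U0 zd)ᶜ
        (s.M.a ((zd x').ed (2 * (zd x').ix k'))) f := fun f hf m => by
      rcases h.rimU hf m with (rfl | rfl) | rfl | rfl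
      exacts [.rfl, FM.R.rfl.c (h.esU.2 _ p1).1.2, w, w.c p2.2]
    exact ((t f hf a).symm h.ok h.esC.cl (h.esC.cl.compl h.ok)
      (h.esU.1 (h.esU.2 _ p1).1)).trans (t g hg b)
  · obtain ⟨x, k, a⟩ := c
    rw [h.lb_in a, lb_out c'] at e
    exact (c' ⟨x, k, e ▸ h.lkIn a.1 a.2.1 a.2.2.1⟩).elim
  · obtain ⟨x, k, a⟩ := c'
    rw [h.lb_in a, lb_out c] at e
    exact (c ⟨x, k, e ▸ h.lkIn a.1 a.2.1 a.2.2.1⟩).elim
  · rw [lb_out c, lb_out c'] at e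
    exact ((mem_vo.1 ((h.lbl f fS g (h.esU.1 hg)).1 e)).ind
      (p := fun z => s.vx z = s.vx f ∧ s.M.R (Cc s U0 zd) (Cc s U0 zd)ᶜ f z) h.ok fS ⟨rfl, .rfl⟩
      (fun z hz k => ⟨(h.lbl.b h.ok hz).trans k.1, k.2.b⟩) (fun _ _ m => m.elim)
      fun z hz _ k => ⟨(h.lbl.c h.ok hz).trans k.1, k.2.c fun m => c (k.1 ▸ m.2.1)⟩).2

theorem toK (hf : f ∈ s.M.S) (a : s.vx f ∈ U0) (hv : v ∈ Ks s U0 zd) :
    ∀ g ∈ s.M.S, s.vx g = v → s.M.R (E1 s U0 zd) univ f g := by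
  obtain ⟨u, hu, k⟩ := hv
  induction k with
  | refl =>
    rintro g hg rfl
    exact ((link_iff h.ok h.lbl hf hg).1 (h.zx.conn.2 _ a _ hu)).mono h.indE subset_rfl
  | tail k1 k2 ih =>
    obtain ⟨-, -, z, hz, rfl, rfl⟩ := k2
    intro g hg e
    have zS := h.e0S hz
    exact ((ih z zS rfl).a ⟨hz, u, hu, k1⟩).trans ((mem_vo.1
      ((h.lbl _ (h.ok.a_mem zS) g hg).1 e.symm)).mono (empty_subset _) subset_rfl)

theorem conR (hf : f ∈ E1 s U0 zd) (hg : g ∈ E1 s U0 zd) : s.M.R (E1 s U0 zd) univ f g := by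
  obtain ⟨u, hu⟩ := h.zx.conn.1
  obtain ⟨z, hz, rfl⟩ := (h.zx.sub hu).1
  exact ((h.toK hz hu hf.2 f (h.es1.1 hf) rfl).symm h.ok h.es1.cl cl_univ hz).trans
    (h.toK hz hu hg.2 g (h.es1.1 hg) rfl)

theorem con1 : (s.M.minor (Uu s U0 zd) (Cc s U0 zd)).Con := by
  intro f hf g hg
  have vc : ∀ z ∈ Uu s U0 zd, ∀ w ∈ Uu s U0 zd, lb s zd (s.vx z) = lb s zd (s.vx w) →
      (s.M.minor (Uu s U0 zd) (Cc s U0 zd)).R univ univ z w := fun z hz w hw e =>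
    (mem_vo.1 ((h.lbl1 z hz w hw).1 e)).mono (empty_subset _) subset_rfl
  refine mem_co.2 ((h.conR hf.1 hg.1).ind (p := fun z => ∀ w ∈ Uu s U0 zd,
    lb s zd (s.vx z) = lb s zd (s.vx w) → (s.M.minor (Uu s U0 zd) (Cc s U0 zd)).R univ univ f w)
    h.ok (h.esU.1 hf) (vc f hf) (fun z hz k => by rwa [h.lbl.b h.ok hz]) (fun z hz m k => ?_)
    (fun z hz _ k => by rwa [h.lbl.c h.ok hz]) g hg rfl)
  by_cases c : z ∈ Cc s U0 zd
  · rwa [h.lbC c]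
  · exact fun w hw e => ((k z ⟨m, c⟩ rfl).a trivial).trans (vc _ (h.esU.2 z ⟨m, c⟩).1 w hw e)

theorem oneF (hf : f ∈ E1 s U0 zd) (hg : g ∈ E1 s U0 zd)
    (k : s.M.R univ (E1 s U0 zd)ᶜ f g) : s.M.R (E1 s U0 zd) (E1 s U0 zd)ᶜ f g := by
  have c : (s.M.sub (E1 s U0 zd)).Con := fun f hf g hg => mem_co.2
    ((sub_R h.ok h.es1 hf hg).2 ((h.conR hf hg).mono (fun _ m => ⟨trivial, m⟩) subset_union_left))
  have e : (s.M.sub (E1 s U0 zd)).eg = s.M.eg := le_antisymm (eg_sub_le h.ok h.es1)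
    (h.zx.full.1 ▸ eg_sub_mono h.ok h.es1 (es_ind h.ok h.lbl U0) h.indE)
  have := ((regS _ s.M _ h.ok h.es1 c e).2 f hf).subset ⟨mem_reg.2 k, hg⟩
  rw [mem_fo, sub_R h.ok h.es1 hf hg] at this
  exact this.mono inter_subset_right fun _ m => m.elim (fun q => q.elim) id

theorem offH (hf : f ∈ E0 s zd) : s.vx f ∉ s.H := by
  rcases h.vcls hf with ⟨y, a, b⟩ | ⟨x, k, a⟩ | a
  · exact h.nd_h (by_contra fun n => ce_nd a.1 ((HBas.adj_nd h.zx.ok0 b).2.2 n))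
  · exact (h.inn a).elim (fun b => h.nd_h (h.zN a.1 b.1)) fun b => ce_h b.1
  · exact ce_h a.1

theorem edR (hx : x ∈ s.H ∩ s.Vt) {p : s.Φ} (hp : p ∈ s.M.S) (e : s.vx p = x)
    (hi : i < 2 * (zd x).n) : s.M.R univ (E1 s U0 zd)ᶜ p ((zd x).ed i) := by
  induction i with
  | zero => exact mem_reg.1 (reg_anti (fun _ m => h.e0X hx m.1) p ((h.zo x hx).pw.reg p hp e).1)
  | succ i ih => exact ((ih (by omega)).a trivial).trans (h.stepE hx hi)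

theorem ndD (hf : f ∈ Uu s U0 zd) (a : In s zd x k (s.vx f)) : s.vx f ∈ s.Ce := by
  have r := h.rng a.1 a.2.1
  rcases h.rimU hf a with e | e
  · rw [e.v h.ok h.lbl (h.ok.a_mem (h.edS a.1 (by omega))), h.nxt a.1 (by omega)]
    exact h.odd a.1 (by omega)
  · rw [e.v h.ok h.lbl (h.edS a.1 (by omega)),
      show 2 * (zd x).ix (k + 1) - 1 = 2 * ((zd x).ix (k + 1) - 1) + 1 by omega]
    exact h.odd a.1 (by omega)

theorem node (hf : f ∈ Uu s U0 zd) (n : s.vx f ∈ s.Nd) :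
    s.vx f ∉ Dv s zd ∧ ∃ y ∈ KC s zd, s.G.Adj y (s.vx f) := by
  have d : s.vx f ∉ Dv s zd := fun ⟨_, _, a⟩ => ce_nd (h.ndD hf a) n
  exact ⟨d, ((h.vcls hf.1.1).resolve_right fun m => m.elim d fun m => ce_nd m.1 n)⟩

theorem mid : Mid s U0 zd (s.M.minor (Uu s U0 zd) (Cc s U0 zd)) (fun f => lb s zd (s.vx f))
    (Fx s U0 zd) := by
  have cE := h.es1.cl.compl h.ok
  have clo : ∀ f ∈ E1 s U0 zd, ∀ g ∈ s.M.S, s.vx g = s.vx f →
      s.vx g ∈ KC s zd ∨ s.vx (s.M.a g) ∈ KC s zd → g ∈ Uu s U0 zd := fun f hf g hg e m =>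
    ⟨⟨Or.inl ⟨hg, m⟩, e ▸ hf.2⟩, fun q => m.elim (fun m => h.kcD m q.2.1) fun m => h.kcD m q.2.2⟩
  refine ⟨h.ok.minorC h.esU h.esC.cl, h.lbl1, h.con1, (monoS _ s.M h.ok).2 _ _ h.esU h.esC,
    h.esU.1, rfl, rfl, fun o ho => Ori.minor h.ok h.esU h.esC ho, fun f hf => ⟨h.indE hf, ?_⟩,
    fun f hf n => ⟨lb_out (h.node hf n).1, (h.node hf n).2⟩,
    fun f hf m => ⟨lb_out (h.kcD m), fun g hg e => ?_⟩, fun f hf => ?_,
    fun f hf g hg e m => clo f hf.1 g hg e (Or.inr m), fun x hx k0 hk0 ⟨f, hf, e⟩ => ?_,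
    fun x f m => m.1, fun x hx f ⟨hf, p, hp, e, m⟩ g hg => ?_,
    fun x hx x' hx' n => (h.dis x hx x' hx' n).1.mono ?_ ?_, fun x hx f hf m => ?_⟩
  · rintro ⟨-, ⟨x, k, a⟩, x', k', b⟩
    rcases h.inn a with a' | a'
    · exact ((h.zo x a.1).sub a'.1).2.2 hf.2.1
    · rcases h.inn b with b' | b'
      · exact ((h.zo x' b.1).sub b'.1).2.2 hf.2.2
      · exact ce_nd a'.1 ((h.zx.ok0.bip f hf.1).2 (ce_nd b'.1))
  · have a := clo f hf.1 g hg e (Or.inl (e ▸ m))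
    have e' := (h.lbl.b h.ok hg).trans e
    exact ⟨a, minor_b_of_mem h.ok h.esU h.esC.cl a
      (clo f hf.1 _ (h.ok.b_mem hg) e' (Or.inl (e' ▸ m)))⟩
  · rcases h.vcls hf.1.1 with ⟨y, a, b⟩ | ⟨x, k, a⟩ | a
    · exact Or.inl (by_contra fun n => ce_nd a.1 ((HBas.adj_nd h.zx.ok0 b).2.2 n))
    · exact Or.inr (Or.inr ⟨x, a.1, k, a.2.1, a.2.2.1, h.lb_in a, h.ndD hf a, h.rimU hf a⟩)
    · exact Or.inr (Or.inl a)
  · have t : ∀ k < (zd x).N, ((zd x).ps k ∈ Ks s U0 zd ↔ (zd x).ps 0 ∈ Ks s U0 zd) := fun k hk =>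
      h.pathK hx (by have := h.ixm hx (Nat.zero_le k) hk; omega)
        (by have := h.ixm hx (k := k) (k' := (zd x).N - 1) (by omega) (by omega); omega)
    have act := (t k0 hk0).1 (e ▸ hf.1.2)
    refine ⟨fun k hk => ?_, fun k hk => ?_⟩
    · obtain ⟨a, y, b, c⟩ := h.psE hx hk
      obtain ⟨g, hg, e1, e2⟩ := exists_adj h.ok c.symm
      have m : s.vx (s.M.a g) ∈ KC s zd := e2 ▸ h.kc hx b a c
      exact ⟨g, ⟨⟨Or.inl ⟨hg, Or.inr m⟩, e1 ▸ (t k hk).2 act⟩, fun q => h.kcD m q.2.2⟩, e1⟩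
    · have r := h.rng hx hk
      obtain ⟨p1, p2⟩ := h.pU hx act hk
      obtain ⟨p, hp, e⟩ := hx.2
      refine ⟨⟨p1, p, hp, e, mem_reg.2 (h.edR hx hp e (by omega))⟩,
        ⟨p2, p, hp, e, mem_reg.2 (h.edR hx hp e (by omega))⟩,
        h.b1_eq (h.esU.2 _ p1).1 p2 (h.walk hx act hk (by omega) (by omega)) fun q => ?_, ?_,
        fun l => ?_⟩
      · have := (h.zo x hx).pw.inj _ (by omega) _ (by omega)
          ((congrArg s.vx q).trans (h.nxt hx (by omega)))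
        rw [this] at q
        exact h.stepN hx (by omega) q
      · show lb s zd (s.vx (s.M.a _)) = _
        rw [h.nxt hx (by omega)]
        by_cases c : (zd x).lk k ∈ s.Kx (zd x).Z
        exacts [lb_out (h.kcD (h.sup hx hk c).2), h.lb_in (h.lkIn hx hk c)]
      · have a := h.stepE hx (i := 2 * (zd x).ix (k + 1) - 1) (by omega) (P := Cc s U0 zd)
        have b := h.stepN hx (i := 2 * (zd x).ix (k + 1) - 1) (by omega)
        rw [show 2 * (zd x).ix (k + 1) - 1 + 1 = 2 * (zd x).ix (k + 1) by omega] at a b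
        exact h.b1_eq (h.esU.2 _ p2).1 (h.pU hx act l).1 a b
  · rw [h.fo1 hf hg]
    refine ⟨fun ⟨_, p', hp', e', m'⟩ => h.oneF hf.1 hg.1 ?_, fun k => ⟨hg, p, hp, e,
      mem_reg.2 ((mem_reg.1 m).trans (k.mono (subset_univ _) subset_rfl))⟩⟩
    refine (((mem_reg.1 m).symm h.ok cl_univ cE hp).trans ?_).trans (mem_reg.1 m')
    exact ((mem_vo.1 ((h.lbl p hp p' hp').1 (e.trans e'.symm))).ind
      (p := fun z => s.vx z = x ∧ s.M.R univ (E1 s U0 zd)ᶜ p z) h.ok hp ⟨e, .rfl⟩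
      (fun z hz k => ⟨(h.lbl.b h.ok hz).trans k.1, k.2.b⟩) (fun _ _ m => m.elim)
      fun z hz _ k => ⟨(h.lbl.c h.ok hz).trans k.1, k.2.c fun m => h.offH m.1 (k.1 ▸ hx.1)⟩).2
  · exact fun f ⟨_, p, hp, e, m⟩ => ⟨p, hp, e, reg_anti h.indE p m⟩
  · exact fun f ⟨_, p, hp, e, m⟩ => ⟨p, hp, e, reg_anti h.indE p m⟩
  · obtain ⟨d, y, a, b⟩ := h.node hf (h.zN hx m)
    have ex : s.vx f ∈ s.Ex (zd x).Z := ⟨m, y, a.2 x hx, b⟩
    obtain ⟨p, hp, e⟩ := hx.2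
    obtain ⟨g, g1, g2⟩ : ∃ g, s.M.R univ (E1 s U0 zd)ᶜ p g ∧ s.vx g = s.vx f := by
      by_cases c : s.vx f ∈ (zd x).Γ
      · obtain ⟨g, g1, g2⟩ := ((h.zo x hx).pw.reg p hp e).2 _ c
        exact ⟨g, mem_reg.1 (reg_anti (fun _ m => h.e0X hx m.1) p g1), g2⟩
      · obtain ⟨k, hk, e'⟩ := (h.zo x hx).ex.subset ⟨ex, c⟩
        exact ⟨_, h.edR hx hp e (by have := h.ixl hx hk; omega), e'.symm⟩
    have gS := g1.mem h.ok hp
    have fS := h.esU.1 hf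
    obtain ⟨w, w1, w2⟩ : ∃ w ∈ E1 s U0 zd, s.M.R ∅ (E1 s U0 zd)ᶜ w g := by
      refine (mem_vo.1 ((h.lbl f fS g gS).1 g2.symm)).ind
        (p := fun z => ∃ w ∈ E1 s U0 zd, s.M.R ∅ (E1 s U0 zd)ᶜ w z) h.ok fS ⟨f, hf.1, .rfl⟩
        (fun z _ ⟨w, a, b⟩ => ⟨w, a, b.b⟩) (fun _ _ m => m.elim) fun z _ _ ⟨w, a, b⟩ => ?_
      by_cases c : z ∈ E1 s U0 zd
      exacts [⟨_, (h.es1.2 z c).2, .rfl⟩, ⟨w, a, b.c c⟩]
    have e' : s.vx w = s.vx f := (h.vxR (h.es1.1 w1) w2).symm.trans g2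
    exact ⟨w, ⟨⟨w1, fun q => d (e' ▸ q.2.1)⟩, p, hp, e, mem_reg.2 (g1.trans
      ((w2.symm h.ok cl_empty cE (h.es1.1 w1)).mono (empty_subset _) subset_rfl))⟩, e'⟩

end Cx

end HSurg

end Pool.Agent.MP_9d78a0_co.gm

end MrgPart7

-- ======== part 8: formerly Pool.Agent.MP_9d78a0_co.gm.HSurg0
section MrgPart8

/-! Block H: the new map, the standing assumptions hold. -/

set_option autoImplicit false

namespace Pool.Agent.MP_9d78a0_co.gm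

open Set

theorem HSurg.cx (hA : HB.AreaS) {s : Sk} {U0 : Set MV} {R m0 : ℕ} {zd : MV → Zd s}
    (zx : s.Zx U0 R) (hR : 2 ≤ R) (zo : ∀ x ∈ s.H ∩ s.Vt, (zd x).Zo U0 x m0) :
    HSurg.Cx s U0 zd R m0 := by
  have A := fun x hx => hA s U0 R x zx (by omega) hx
  refine ⟨zx, zo, fun v hv => ?_, fun x hx => (A x hx).2.2.2.2.2.2.2.2.1,
    fun x hx => (A x hx).2.2.2.2.2.2.2.2.2⟩
  rcases (HBas.tv_eq zx.ok0).subset (zx.sub hv) with m | m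
  · exact m
  · obtain ⟨x, hx, -⟩ := zx.ok0.rim v m
    exact (A x hx).2.2.2.2.2.1 hv

end Pool.Agent.MP_9d78a0_co.gm

end MrgPart8

-- marker of a merged file
example : 731051 + 265821 = 731051 + 265821 := rfl
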