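import Mathlib.Data.Set.Card.Arithmetic
import Pool.Agent.MP_9d78a0_co.gm.SpecH2
import Pool.Agent.MP_9d78a0_co.gm.HBag1
import Pool.Agent.MP_9d78a0_co.gm.HCur
import Pool.Agent.MP_9d78a0_co.gm.HOp
import Pool.Agent.MP_9d78a0_co.gm.BGrid
import Pool.Agent.MP_9d78a0_co.gm.HLev

-- ======== part 0: formerly Pool.Agent.MP_9d78a0_co.gm.HPre
section MrgPart0

/-! The preliminary structure of a new structure with sides. -/

set_option autoImplicit false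

namespace Pool.Agent.MP_9d78a0_co.gm

open Set Function

namespace HPre

theorem avoid {V ι : Type} {g : ℕ} {A : Fin g → Set V} (hA : Pairwise (Disjoint on A))
    {X : Set ι} (f : ι → V) (hX : X.Finite) (h : X.ncard < g) : ∃ i, ∀ v ∈ X, f v ∉ A i := by
  by_contra c
  push Not at c
  choose v h1 h2 using c
  have inj : Injective v := fun i j e =>
    by_contra fun n => disjoint_left.1 (hA n) (h2 i) (e ▸ h2 j)
  have := ncard_le_ncard_of_injOn (s := univ) v (fun i _ => h1 i) inj.injOn hX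
  rw [ncard_univ, Nat.card_eq_fintype_card, Fintype.card_fin] at this
  omega

theorem free {V ι : Type} {G : SimpleGraph V} {g : ℕ} {B : Fin g × Fin g → Set V} {D : Set V}
    (m : Model (fb.grid g) G D B) {X : Set ι} (f : ι → V) (hX : X.Finite) (h : X.ncard < g) :
    ∃ i j, ∀ v ∈ X, f v ∉ Cross B i j := by
  obtain ⟨i, hi⟩ := avoid (A := fun i => ⋃ k, B (i, k)) (fun i j n => disjoint_iUnion_left.2
    fun k => disjoint_iUnion_right.2 fun k' => m.2.2.1 _ _ fun e => n (congrArg Prod.fst e)) f hX h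
  obtain ⟨j, hj⟩ := avoid (A := fun j => ⋃ k, B (k, j)) (fun i j n => disjoint_iUnion_left.2
    fun k => disjoint_iUnion_right.2 fun k' => m.2.2.1 _ _ fun e => n (congrArg Prod.snd e)) f hX h
  refine ⟨i, j, fun v hv c => ?_⟩
  obtain ⟨k, c | c⟩ := mem_iUnion.1 c
  exacts [hi v hv (mem_iUnion.2 ⟨k, c⟩), hj v hv (mem_iUnion.2 ⟨k, c⟩)]

variable {σ : AG} {t : Sh σ} (h : t.Ok)
include h

theorem phi_fl (j : t.ι) (i : ℕ) : t.φ j i ∈ t.s.M.fl t.s.vx t.s.H := by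
  induction i with
  | zero => exact h.hole j
  | succ i ih =>
    have o := h.ok.hm.ok
    have e : t.φ j (i + 1) = t.s.M.c (t.s.M.b (t.φ j i)) := iterate_succ_apply' _ _ _
    have s : t.φ j (i + 1) ∈ t.s.M.S := e ▸ (o.ic _ (o.ib _ ih.1).1).1
    refine ⟨s, (h.ok.hm.lbl _ ih.1 _ s).2 ?_ ▸ ih.2⟩
    exact Relation.ReflTransGen.tail (b := t.s.M.b (t.φ j i))
      (Relation.ReflTransGen.single (Or.inl rfl)) (Or.inr e)

theorem far_rad {f : t.s.Φ} (hf : f ∈ t.s.M.fl t.s.vx t.s.H) :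
    Sum.inl (t.s.far f) ∈ t.s.M.rad t.s.vx t.s.H := by
  have n : t.s.vx f ∉ t.s.Nd := by
    rintro ⟨-, v, e⟩
    obtain ⟨k, e'⟩ := h.ok.hr.1 hf.2
    cases e.trans e'.symm
  obtain ⟨-, v, e⟩ : t.s.vx (t.s.M.a f) ∈ t.s.Nd := not_not.1 fun c => n ((h.ok.bip f hf.1).2 c)
  refine ⟨f, hf.1, hf.2, t.s.M.a f, Relation.ReflTransGen.single (Or.inl rfl), ?_⟩
  unfold Sk.far
  rw [← e]
  rfl

theorem ka_rad {j : t.ι} {i : ℕ} (hi : i ≤ t.m j) {v : W} (hv : v ∈ t.κ j i) (hl : v ∉ t.Λ)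
    (k : Sum.inl v ∈ t.s.Vt) : Sum.inl v ∈ t.s.M.rad t.s.vx t.s.H := by
  rcases hv with rfl | ⟨l, l1, rfl⟩
  · exact far_rad h (phi_fl h j i)
  · exact absurd k ((h.inner j i hi l l1).2 hl)

/-- the nodes of atoms that belong to no cell are positions -/
theorem pos_rad {a : σ.ε} (ha : ∀ x, t.own a ≠ some (Sum.inl x)) {v : W} (hv : v ∈ σ.inc a)
    (k : Sum.inl v ∈ t.s.Vt) : Sum.inl v ∈ t.s.M.rad t.s.vx t.s.H := by
  by_cases l : v ∈ t.Λ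
  · obtain ⟨f, hf, rfl⟩ := h.lamn v l k
    exact far_rad h hf.1
  obtain ⟨-, s2, s3⟩ := h.share a v ⟨hv, l⟩ (Or.inl k)
  rcases e : t.own a with _ | x | ⟨j, i⟩
  · rcases s3 e with c | ⟨f, hf, rfl⟩
    · obtain ⟨j, c | c⟩ := mem_iUnion.1 c
      exacts [ka_rad h (Nat.zero_le _) c l k, ka_rad h le_rfl c l k]
    · exact far_rad h hf.1
  · exact absurd e (ha x)
  · have := h.ownb a j i e
    exact (s2 j i e).elim (fun c => ka_rad h (by omega) c l k) fun c => ka_rad h (by omega) c l k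

/-- the boundary of a union of parts -/
theorem bd_sub {U : Set σ.ε} {Z : Set W} (sat : ∀ a ∈ U, ∀ a', t.own a' = t.own a → a' ∈ U)
    (h1 : ∀ a ∈ U, ∀ x, t.own a = some (Sum.inl x) → t.s.nb x ⊆ Z)
    (h2 : ∀ a ∈ U, ∀ j i, t.own a = some (Sum.inr (j, i)) → t.κ j i ∪ t.κ j (i + 1) ⊆ Z) :
    σ.bd U ⊆ t.Λ ∪ t.Mk ∪ Z := by
  rintro v ⟨⟨a, a1, a2⟩, b, b1, b2⟩
  by_cases l : v ∈ t.Λ
  · exact Or.inl (Or.inl l)
  have ne : t.own b ≠ t.own a := fun e => b1 (sat a a1 b e)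
  by_cases n : t.own b = none
  · exact Or.inl (Or.inr ((h.share b v ⟨b2, l⟩
      (Or.inr (Or.inr ⟨a, ne.symm, fun e => ne (n.trans e.symm), a2⟩))).2.2 n))
  obtain ⟨s1, s2, s3⟩ := h.share a v ⟨a2, l⟩ (Or.inr (Or.inr ⟨b, ne, n, b2⟩))
  rcases e : t.own a with _ | x | ⟨j, i⟩
  exacts [Or.inl (Or.inr (s3 e)), Or.inr (h1 a a1 x e (s1 x e)), Or.inr (h2 a a1 j i e (s2 j i e))]

omit h in
theorem ka_card (j : t.ι) (i : ℕ) : (t.κ j i).Finite ∧ (t.κ j i).ncard ≤ t.d j + 1 := by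
  have e : t.κ j i = insert (t.u j i) (t.β j i '' Iio (t.d j)) := rfl
  rw [e]
  refine ⟨((finite_Iio _).image _).insert _, (ncard_insert_le _ _).trans ?_⟩
  have := ncard_image_le (f := t.β j i) (finite_Iio (t.d j))
  rw [← Finset.coe_range, ncard_coe_finset, Finset.card_range, Finset.coe_range] at this
  omega

theorem mk_fin : t.Mk.Finite :=
  (finite_iUnion fun j => (ka_card j 0).1.union (ka_card j _).1).union
    ((h.ok.hm.ok.fin.subset fun _ k => k.1.1).image _)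

omit h in
theorem tr_fin : t.Tr.Finite := by
  refine (finite_iUnion fun j => (finite_Iio (t.m j)).image (Prod.mk j)).subset ?_
  exact fun p hp => mem_iUnion.2 ⟨p.1, p.2, hp.1, rfl⟩

theorem f_le {U : Set σ.ε} {Z : Set W} {w : ℕ} (hU : σ.bd U ⊆ t.Λ ∪ t.Mk ∪ Z) (hZ : Z.Finite)
    (h1 : t.Mk.ncard ≤ w) (h2 : t.Λ.ncard ≤ w) : σ.f U ≤ 2 * w + Z.ncard := by
  have a := ncard_le_ncard hU ((h.lam.2.union (mk_fin h)).union hZ)
  have b := ncard_union_le (t.Λ ∪ t.Mk) Z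
  have c := ncard_union_le t.Λ t.Mk
  change (σ.bd U).ncard ≤ _
  omega

end HPre

namespace HB

open HPre

theorem preS : BasS → IsoCS → PreS := by
  intro hB hI w0
  refine ⟨w0 * (2 * (w0 + 1)) + 6 * w0 + 8, ?_⟩
  intro σ θ T e t Wv g θ1 B hN hG hC hM wg w1 wθ
  have h := hN.ok
  obtain ⟨c1, c2, c3, c4, c5⟩ := hN.cnt
  generalize hw : w0 * (2 * (w0 + 1)) = w2 at *
  let Sd : Set σ.ε := {a | t.own a = none ∨ ∃ p ∈ t.Tr, t.own a = some (Sum.inr p)}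
  have vt : ∀ i j, ∀ y ∈ Cross B i j, y ∈ t.s.Vt ∧ y ∉ t.s.M.rad t.s.vx t.s.H := by
    intro i j y hy
    obtain ⟨k, c⟩ := mem_iUnion.1 hy
    have := c.elim (fun c => hG.1 _ c) fun c => hG.1 _ c
    exact ⟨this.1.elim (fun c => c.1) fun c => c.1.1, this.2⟩
  have sm : ∀ U : Set σ.ε, σ.f U < θ1 → (∀ a ∈ U, ∀ x, t.own a ≠ some (Sum.inl x)) → U ∈ T.sm := by
    refine fun U h1 h2 => hC U h1 ⟨⟨0, by omega⟩, ⟨0, by omega⟩, fun v hv c => ?_⟩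
    obtain ⟨a, a1, a2⟩ := mem_iUnion₂.1 hv
    exact (vt _ _ _ c).2 (pos_rad h (h2 a a1) a2 (vt _ _ _ c).1)
  have kk : ∀ j i, (t.κ j i ∪ t.κ j (i + 1)).Finite ∧
      (t.κ j i ∪ t.κ j (i + 1)).ncard ≤ 2 * (w0 + 1) := fun j i =>
    ⟨(ka_card j i).1.union (ka_card j _).1, by
      have := ncard_union_le (t.κ j i) (t.κ j (i + 1))
      have := (ka_card j i).2
      have := (ka_card j (i + 1)).2
      have := c5 j
      omega⟩
  have fS : σ.f Sd ≤ w2 + 6 * w0 + 8 := by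
    have fin : (⋃ p ∈ t.Tr, t.κ p.1 p.2 ∪ t.κ p.1 (p.2 + 1)).Finite :=
      tr_fin.biUnion fun p _ => (kk p.1 p.2).1
    have a := f_le h (U := Sd) (bd_sub h (fun a ha a' e => by simpa only [Sd, mem_ofPred_eq, e] using ha)
      (fun a ha x e => by simp [Sd, e] at ha) fun a ha j i e => by
        refine subset_biUnion_of_mem (u := fun p : t.ι × ℕ => t.κ p.1 p.2 ∪ t.κ p.1 (p.2 + 1))
          (x := (j, i)) ?_
        simpa [Sd, e] using ha) fin c1 c3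
    have b : (⋃ p ∈ t.Tr, t.κ p.1 p.2 ∪ t.κ p.1 (p.2 + 1)).ncard ≤ t.Tr.ncard * (2 * (w0 + 1)) := by
      have k := Finset.set_ncard_biUnion_le (tr_fin (t := t)).toFinset
        fun p => t.κ p.1 p.2 ∪ t.κ p.1 (p.2 + 1)
      simp only [Finite.mem_toFinset] at k
      refine k.trans ((Finset.sum_le_card_nsmul _ _ _ fun p _ => (kk p.1 p.2).2).trans ?_)
      rw [ncard_eq_toFinset_card _ tr_fin, smul_eq_mul]
    have := Nat.mul_le_mul_right (2 * (w0 + 1)) c4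
    omega
  obtain ⟨Wc, i1, i2⟩ := hI σ θ T e t Wv w0 g θ1 B hN hG hC hM (by omega) (by omega) (by omega)
  refine ⟨Sd, fun j i => (j, i) ∈ t.Tr, fun _ _ => ⟨0, ∅, 0, ∅⟩, fun R hR hF => ⟨h, ?_, hG,
    fun U k => hC U (k.trans_le hR), hF, fun a ha => Or.inl ha,
    ⟨sm Sd (by omega) fun a ha x e => by simp [Sd, e] at ha, fS⟩,
    fun j i _ => ⟨fun k a ha => Or.inr ⟨_, k, ha⟩, fun k => disjoint_left.2 fun a ha c => k ?_⟩,
    fun x hx => absurd (disjoint_left.2 fun a ha c => ?_) hx.2,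
    ⟨by omega, by omega, by omega, by omega, fun j => by have := c5 j; omega⟩, fun p hp => hp, ?_,
    (ncard_le_ncard (fun p hp => hp.2.1) tr_fin).trans (by omega), fun x hx => ?_,
    fun j i _ => ?_, ⟨Wc, by omega, i2⟩, fun _ k => absurd rfl k, fun _ k => by cases k⟩⟩
  · exact hM.elim ((hB.2 t.s (hB.1 _ h.ok)).2.2.2.2.2.2.2.2.2 g B hG (by omega)).2.2.2.1 And.right
  · have e : t.own a = some (Sum.inr (j, i)) := ha
    simpa [Sd, e] using c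
  · have e : t.own a = some (Sum.inl x) := ha
    simp [Sd, e] at c
  · have a := ncard_union_le t.Tr ((fun p : t.ι × ℕ => (p.1, p.2 - 1)) '' t.Tr)
    have b := ncard_image_le (f := fun p : t.ι × ℕ => (p.1, p.2 - 1)) (tr_fin (t := t))
    refine (ncard_le_ncard (t := t.Tr ∪ (fun p : t.ι × ℕ => (p.1, p.2 - 1)) '' t.Tr)
      (fun p hp => ?_) (tr_fin.union (tr_fin.image _))).trans (by omega)
    by_cases k : p ∈ t.Tr
    · exact Or.inl k
    · exact Or.inr ⟨(p.1, p.2 + 1), by_contra fun k' => hp.2 (iff_of_false k k'), rfl⟩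
  · have s := (h.solid x hx).1.card
    have a := f_le h (U := t.ct x) (Z := t.s.nb x) (bd_sub h (fun a ha a' e => e.trans ha)
      (fun a ha y e => by cases (e.symm.trans ha : _ = _); exact Subset.rfl)
      fun a ha j i e => by cases (e.symm.trans ha : _ = _)) s.1 c1 c3
    obtain ⟨i, j, k⟩ := HPre.free hG (X := t.s.nb x) Sum.inl s.1 (by omega)
    exact ⟨hC _ (by omega) ⟨i, j, fun v hv c => k v (hN.lamc x hx v hv (vt _ _ _ c).1) c⟩, by omega⟩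
  · have a := f_le h (U := t.bag j i) (bd_sub h (fun a ha a' e => e.trans ha)
      (fun a ha y e => by cases (e.symm.trans ha : _ = _))
      fun a ha j i e => by cases (e.symm.trans ha : _ = _); exact Subset.rfl) (kk j i).1 c1 c3
    have := (kk j i).2
    exact ⟨sm _ (by omega) fun a ha x e => (by cases (e.symm.trans ha : _ = _)), by omega⟩

end HB

end Pool.Agent.MP_9d78a0_co.gm

end MrgPart0

-- ======== part 1: formerly Pool.Agent.MP_9d78a0_co.gm.HV0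
section MrgPart1

/-! Block H: no low node is exposed. -/

set_option autoImplicit false

namespace Pool.Agent.MP_9d78a0_co.gm

open Set Function Cy

namespace HV0

variable {Φ : Type} {M : FM Φ} {χ : Φ → ZMod 2} {f g : Φ}

theorem const (hg : g ∈ M.vo f) (hb : ∀ h ∈ M.vo f, χ (M.b h) = χ h)
    (hc : ∀ h ∈ M.vo f, χ (M.c h) = χ h) : χ g = χ f :=
  (orb_ind (P := fun h => h ∈ M.vo f ∧ χ h = χ f) hg ⟨orb_self .., rfl⟩
    (fun h k => ⟨orb_p k.1, (hb h k.1).trans k.2⟩) fun h k => ⟨orb_q k.1, (hc h k.1).trans k.2⟩).2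

theorem four (hM : M.Ok) (hf : f ∈ M.S) (hg : g ∈ M.vo f) (hb : ∀ h ∈ M.vo f, χ (M.b h) = χ h)
    (cf : χ (M.c f) = χ f) (ne : χ g ≠ χ f) : 4 ≤ {h | h ∈ M.vo f ∧ χ h = χ f}.ncard := by
  have h1 := hM.ib f hf
  have h2 := hM.ic f hf
  have h3 := hM.ib _ h2.1
  have e : M.b f ≠ M.c f := fun e => ne (by
    have : g = f ∨ g = M.c f := orb_ind (P := fun h => h = f ∨ h = M.c f) hg (Or.inl rfl)
      (by rintro _ (rfl | rfl); exacts [Or.inr e, Or.inl (e ▸ h1.2.1)])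
      (by rintro _ (rfl | rfl); exacts [Or.inr rfl, Or.inl h2.2.1])
    rcases this with rfl | rfl
    exacts [rfl, cf])
  have fin : (M.vo f).Finite := hM.fin.subset fun _ => orb_mem hM.ib.inv0 hM.ic.inv0 hf
  have c4 : ({f, M.c f, M.b f, M.b (M.c f)} : Set Φ).ncard = 4 := by
    rw [ncard_insert_of_notMem (by simp only [mem_insert_iff, mem_singleton_iff]; grind),
      ncard_insert_of_notMem (by simp only [mem_insert_iff, mem_singleton_iff]; grind),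
      ncard_pair (by grind)]
  refine c4 ▸ ncard_le_ncard ?_ (fin.subset fun _ h => h.1)
  have m0 : f ∈ M.vo f := orb_self ..
  rintro _ (rfl | rfl | rfl | rfl)
  exacts [⟨m0, rfl⟩, ⟨orb_q m0, cf⟩, ⟨orb_p m0, hb _ m0⟩,
    ⟨orb_p (orb_q m0), (hb _ (orb_q m0)).trans cf⟩]

theorem six (hM : M.Ok) (hf : f ∈ M.S) (hg : g ∈ M.vo f) (h6 : (M.vo f).ncard ≤ 6)
    (hb : ∀ h ∈ M.vo f, χ (M.b h) = χ h) (cf : χ (M.c f) = χ f) (cg : χ (M.c g) = χ g) :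
    χ f = χ g := by
  by_contra ne
  have e : M.vo g = M.vo f := orb_eq hM.ib.inv0 hM.ic.inv0 hf hg
  have h1 := four hM hf hg hb cf (Ne.symm ne)
  have h2 := four hM (orb_mem hM.ib.inv0 hM.ic.inv0 hf hg)
    (orb_symm hM.ib.inv0 hM.ic.inv0 hf hg) (e ▸ hb) cg ne
  have fin : (M.vo f).Finite := hM.fin.subset fun _ => orb_mem hM.ib.inv0 hM.ic.inv0 hf
  rw [e] at h2
  have h3 := ncard_union_eq (s := {h | h ∈ M.vo f ∧ χ h = χ f}) (t := {h | h ∈ M.vo f ∧ χ h = χ g})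
    (disjoint_left.2 fun h k k' => ne (k.2.symm.trans k'.2)) (fin.subset fun _ h => h.1)
    (fin.subset fun _ h => h.1)
  have h4 := ncard_le_ncard (union_subset (fun _ h => h.1) fun _ h => h.1 :
    {h | h ∈ M.vo f ∧ χ h = χ f} ∪ {h | h ∈ M.vo f ∧ χ h = χ g} ⊆ M.vo f) fin
  omega

theorem sh_fin (σ : AG) : σ.sh.Finite := by
  refine finite_iUnion fun a => ?_
  refine (((σ.pfin a).image Prod.fst).union ((σ.pfin a).image Prod.snd)).subset ?_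
  rintro v ⟨⟨_, rfl, ⟨p, hp, e⟩, -⟩, -⟩
  exact e.imp (fun e => ⟨p, hp, e.symm⟩) fun e => ⟨p, hp, e.symm⟩

theorem ends {V : Type} {vx : Φ → V} {D : Set V} (hM : M.Ok) (hl : M.Lbl vx) (hg : g ∈ M.ind vx D)
    (hf : f ∈ M.eo g) : vx f ∈ D ∧ vx (M.a f) ∈ D := by
  have vc : ∀ h ∈ M.S, vx (M.c h) = vx h := fun h hh =>
    ((hl h hh _ (hM.ic h hh).1).2 (orb_q (orb_self ..))).symm
  exact (orb_ind (P := fun h => h ∈ M.ind vx D) hf hg
    (fun h k => ⟨(hM.ia h k.1).1, k.2.2, (hM.ia h k.1).2.1.symm ▸ k.2.1⟩)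
    fun h k => ⟨(hM.ic h k.1).1, (vc h k.1).symm ▸ k.2.1, by
      rw [(hM.ac h k.1).1, vc _ (hM.ia h k.1).1]; exact k.2.2⟩).2

end HV0

open HV0 in
theorem HB.v0S (_ : HB.BasS) (_ : HB.AreaS) (hL : HB.LevS) (hG : HB.GamS) (hC : HB.ColS) :
    HB.V0S := by
  intro σ r k q D l U0 z Z t cx ad
  refine disjoint_left.2 ?_
  rintro v ⟨vZ, y, ⟨yC, w, wZ, yw⟩, yv⟩ vL
  have ok := cx.co.ok0
  have hM := ok.hm.ok
  have hl := ok.hm.lbl
  have hm : z.m = z.rr + 1 + z.e := rfl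
  obtain ⟨l1, l2, l3, l4⟩ := hL r.s U0 _ z.x cx.zx cx.hole
  obtain ⟨g1, -, g3, g4, -, g6, -, g8, -, -, -, g12⟩ := hG σ r k q D l U0 z cx
  obtain ⟨m1, -, -, -, -, m6, -, m8, -⟩ := l4 z.m (by omega)
  obtain ⟨-, c2, c3, c4, c5, c6⟩ := curS _ _ r.s.M r.s.vx hM hl
  have c1 := (curS _ _ r.s.M r.s.vx hM hl).1
  have ndl : ∀ u ∈ r.s.Nd, u ∉ range (Sum.inr : ℕ → MV) := by
    rintro _ ⟨-, a, rfl⟩ ⟨b, e⟩; cases e
  have xN : z.x ∉ r.s.Nd := fun h => ndl _ h (ok.hr.1 cx.hole.1)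
  have cN : ∀ u ∈ r.s.Ce, u ∉ r.s.Nd := fun u hu h => ndl u h hu.1.2
  have cT : ∀ u ∈ r.s.Ce, u ∈ r.s.tv := fun u hu => ⟨hu.1.1, fun h => hu.2 (Or.inl h)⟩
  have xC : z.x ∉ r.s.Ce := fun h => h.2 (Or.inl cx.hole.1)
  have vN := (ad.sub vZ).1
  have vx' : v ≠ z.x := fun e => xN (e ▸ vN)
  have vb : ∀ h ∈ r.s.M.S, r.s.vx (r.s.M.b h) = r.s.vx h := fun h hh =>
    ((hl h hh _ (hM.ib h hh).1).2 (orb_p (orb_self ..))).symm
  have vo' : ∀ {f h}, f ∈ r.s.M.S → h ∈ r.s.M.vo f → h ∈ r.s.M.S ∧ r.s.vx h = r.s.vx f :=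
    fun hf hh => ⟨orb_mem hM.ib.inv0 hM.ic.inv0 hf hh,
      ((hl _ hf _ (orb_mem hM.ib.inv0 hM.ic.inv0 hf hh)).2 hh).symm⟩
  obtain ⟨i, ti, im, lk⟩ := ad.esc w wZ (Or.inr ((l1 _ _ (by omega)).1
    ((l2 (z.rr + 1)).2.2 y ⟨cT y yC, cN y yC⟩ v vL w yv yw)))
  obtain ⟨C, hC1, vC, hC2, f0, f0S, f0x, ob1, k1⟩ := l3 z.rr v vL vx'
  have yU : y ∉ U0 := (m8 y (cT y yC) v (ad.sub vZ) yv).2
  have yD : y ∈ (r.s.T \ Z) \ U0 := ⟨⟨Or.inr yC, fun h => cN y yC (ad.sub h).1⟩, yU⟩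
  have wD : w ∈ (r.s.T \ Z) \ U0 := ⟨⟨Or.inl wZ.1, wZ.2⟩, (m6 ((l1 _ _ (by omega)).1
    ((l2 (z.rr + 1)).2.2 y ⟨cT y yC, cN y yC⟩ v vL w yv yw))).2⟩
  obtain ⟨oc1, k2⟩ := c5 {v, y} v y (Link.single (Or.inl rfl) (Or.inr rfl) yv.symm)
  obtain ⟨oc2, k3⟩ := c5 _ y (z.γ i) ((Link.single yD wD yw).trans lk)
  obtain ⟨k4, o1, o2⟩ := g6 0 i (Nat.zero_le _) im
  rw [cx.geo.g0] at k4
  have k5 := c2 univ univ _ _ _ _ _ _ _ (c2 univ univ _ _ _ _ _ _ _ (c2 univ univ _ _ _ _ _ _ _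
    (c1 _ _ _ _ _ _ _ _ (subset_univ _) (subset_univ _) k1)
    (c1 _ _ _ _ _ _ _ _ (subset_univ _) (subset_univ _) k2))
    (c1 _ _ _ _ _ _ _ _ (subset_univ _) (subset_univ _) k3))
    (c1 _ _ _ _ _ _ _ _ (subset_univ _) (subset_univ _) (c3 _ _ _ _ _ _ k4))
  simp only [add_zero, zero_add] at k5
  have b1 : ∀ f ∈ r.s.M.S, ob1 f ≠ 0 → (r.s.vx f ∈ C ∨ f = f0 ∨ f = r.s.M.b f0) ∧
      (f ∈ r.s.lo z.x z.rr ∨ r.s.M.b f ∈ r.s.lo z.x z.rr) := by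
    intro f hf ne
    rcases (c4 _ _ _ _ _ _ k1 f hf).2.2.2.1 ne with h | h
    · exact ⟨h.1.imp (fun h => h.2) Or.inl, Or.inl h.2⟩
    · exact ⟨h.1.imp (fun h => vb f hf ▸ h.2) fun h =>
        Or.inr (by rw [← mem_singleton_iff.1 h, (hM.ib f hf).2.1]), Or.inr h.2⟩
  have b1' : ∀ f ∈ r.s.M.S, r.s.vx f ∉ C → r.s.vx f ≠ z.x → ob1 f = 0 := by
    intro f hf h1 h2
    by_contra ne
    rcases (b1 f hf ne).1 with h | rfl | rfl
    exacts [h1 h, h2 f0x, h2 ((vb _ f0S).trans f0x)]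
  have b2 : ∀ f ∈ r.s.M.S, (∀ j ≤ i, r.s.vx f ≠ z.γ j) → z.ob 0 i f = 0 := by
    intro f hf h
    by_contra ne
    obtain ⟨j, -, h1, h2⟩ := o1 f hf ne
    exact h j h1 h2
  have b3 : ∀ f ∈ r.s.M.S, ¬ (r.s.vx f ∈ ({v, y} : Set MV) ∧ r.s.vx (r.s.M.a f) ∈ ({v, y} : Set MV)) →
      ¬ (r.s.vx f ∈ (r.s.T \ Z) \ U0 ∧ r.s.vx (r.s.M.a f) ∈ (r.s.T \ Z) \ U0) →
      (oc1 + oc2) f = 0 := by
    intro f hf h1 h2
    have e1 : oc1 f = 0 := by
      by_contra ne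
      obtain ⟨g, hg, e⟩ := (c4 _ _ _ _ _ _ k2 f hf).2.2.2.2 ne
      exact h1 (ends hM hl hg.1 e)
    have e2 : oc2 f = 0 := by
      by_contra ne
      obtain ⟨g, hg, e⟩ := (c4 _ _ _ _ _ _ k3 f hf).2.2.2.2 ne
      exact h2 (ends hM hl hg.1 e)
    simp [e1, e2]
  have γL : ∀ j ≤ z.m + 1, z.γ j ∈ r.s.Lv z.x j := fun j hj => ((g1 j hj).1 j).2 le_rfl
  have γN : ∀ j, 1 ≤ j → j ≤ z.m + 1 → z.γ j ∈ r.s.Nd := fun j h1 h2 => by
    obtain ⟨j, rfl⟩ : ∃ j', j = j' + 1 := ⟨j - 1, by omega⟩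
    exact (cx.geo.pm j (by omega)).2.2.2.2.2
  have CL : C ⊆ r.s.Lv z.x (z.m + 1) := fun u hu => (l1 _ _ (by omega)).1 (hC1 hu).1
  obtain ⟨-, ge, gc, -⟩ := gphC _ _ r.s.M r.s.vx hM hl
  obtain ⟨χ, pa, pb, pc, -⟩ := c6 _ _ _ _ _ _ (ge U0) (fun f hf g hg =>
    (gc U0 f hf g hg).2 (cx.zx.conn.2 _ hf.2.1 _ hg.2.1)) cx.zx.full.1 k5 (by
      rintro f ⟨g, hg, e⟩
      obtain ⟨hf, e⟩ := vo' hg.1 e
      have fU : r.s.vx f ∈ U0 := e ▸ hg.2.1
      have nL : r.s.vx f ∉ r.s.Lv z.x (z.m + 1) := fun h => (m6 h).2 fU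
      refine ⟨?_, b3 f hf (fun h => ?_) fun h => h.1.2 fU⟩
      · rw [Pi.add_apply, b1' f hf (fun h => nL (CL h)) (fun h => nL
          ((l1 _ _ (Nat.zero_le _)).1 h)), b2 f hf fun j hj h =>
            nL (h ▸ (l1 _ _ (by omega)).1 (γL j (by omega))), add_zero]
      · rcases h.1 with h | h
        exacts [nL (h ▸ CL vC), yU (h ▸ fU)])
  have pa' : ∀ f ∈ r.s.M.S, χ (r.s.M.a f) = χ f := fun f hf => by simpa using pa f hf
  have p0 := cx.geo.pm 0 (Nat.zero_le _)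
  have p0x : r.s.vx (z.p 0) = z.x := p0.2.1.trans cx.geo.g0
  obtain ⟨U, hU, hD⟩ := cx.co.dep (z.p 0) ⟨p0.1, p0x ▸ cx.hole.1⟩ χ ⟨fun g hg => by
      obtain ⟨gS, e⟩ := vo' p0.1 hg
      rw [p0x] at e
      rw [pc g gS, b3 g gS (fun h => ?_) (fun h => ?_), add_zero]
      · rcases h.1 with h | h
        exacts [vx' (h.symm.trans e), xC (e ▸ h ▸ yC)]
      · exact h.1.1.1.elim (fun h => xN (e ▸ h)) fun h => xC (e ▸ h), by
      refine le_trans (ncard_le_ncard (t := {f0, r.s.M.b f0, z.p 0, r.s.M.b (z.p 0)}) ?_)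
        ((ncard_insert_le _ _).trans (Nat.succ_le_succ ((ncard_insert_le _ _).trans
          (Nat.succ_le_succ ((ncard_insert_le _ _).trans (by simp))))))
      rintro g ⟨hg, ne⟩
      obtain ⟨gS, e⟩ := vo' p0.1 hg
      by_cases e1 : ob1 g = 0
      · have e2 := (o2 0 (Nat.zero_le _)).1 g hg
        rw [if_pos ⟨le_rfl, by omega⟩, if_neg (by omega), add_zero] at e2
        refine Or.inr (Or.inr (HCur.one_ne fun h => ne ?_))
        rw [pb g gS, Pi.add_apply, e1, e2, h, add_zero, add_zero]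
      · rcases (b1 g gS e1).1 with h | h | h
        exacts [absurd (hC1 h).2 (e ▸ p0x ▸ xN), Or.inl h, Or.inr (Or.inl h)]⟩
  rw [p0x] at hU
  have split : ∀ j, z.rr + 2 ≤ j → j ≤ t → ∀ f ∈ r.s.M.vo (z.p j), χ f = χ (z.p j) + z.lam f := by
    intro j h1 h2 f hf
    have jm : j ≤ z.m := h2.trans ad.rng.2
    obtain ⟨s1, s2, s3, -⟩ := cx.geo.side j h1 jm
    have pj := cx.geo.pm j jm
    have nL : z.γ j ∉ r.s.Lv z.x (z.rr + 1) := fun h => by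
      have := ((g1 j (by omega)).1 _).1 h; omega
    have := const (χ := χ + z.lam) hf (fun h hh => by
      obtain ⟨hS, e⟩ := vo' pj.1 hh
      rw [pj.2.1] at e
      have e2 := (o2 j jm).1 h hh
      rw [if_pos ⟨Nat.zero_le _, by omega⟩, if_pos ⟨by omega, by omega⟩] at e2
      simp only [Pi.add_apply, pb h hS, s2 h hh, e2, b1' h hS (fun k => nL (e ▸ (hC1 k).1))
        fun k => xN (k ▸ e ▸ γN j (by omega) (by omega))]
      generalize one r.s.M.b (z.p j) h = a, one r.s.M.b (z.q j) h = b, χ h = c, z.lam h = d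
      revert a b c d; decide) (fun h hh => by
      obtain ⟨hS, e⟩ := vo' pj.1 hh
      rw [pj.2.1] at e
      rw [Pi.add_apply, Pi.add_apply, pc h hS, s1 h hh, b3 h hS (fun k => ?_) fun k =>
        k.1.1.2 (e ▸ (ad.gam j h1 jm).2 h2)]
      · simp
      · rcases k.1 with k | k
        exacts [nL (e ▸ k ▸ vL), cN y yC (k ▸ e ▸ γN j (by omega) (by omega))])
    simp only [Pi.add_apply, s3, add_zero] at this
    rw [← this, add_assoc, z2_add_self, add_zero]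
  have same : ∀ j, z.rr + 2 ≤ j → j ≤ t → χ (z.p j) = χ (z.p (z.rr + 2)) := by
    intro j h1
    induction j, h1 using Nat.le_induction with
    | base => exact fun _ => rfl
    | succ j h1 ih =>
      intro h2
      have jm : j + 1 ≤ z.m := h2.trans ad.rng.2
      have pj := cx.geo.pm j (by omega)
      have fS : ∀ f ∈ r.s.M.fo (z.p j), f ∈ r.s.M.S := fun f => orb_mem hM.ia.inv0 hM.ib.inv0 pj.1
      rw [← ih (by omega), cx.geo.face j (by omega) χ (pa.mono fS) (fun f hf => ?_),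
        split (j + 1) (by omega) h2 _ (g4 (j + 1) (by omega) jm).1,
        (cx.geo.side (j + 1) (by omega) jm).2.2.2, add_zero]
      have e1 : ob1 f = 0 := by
        by_contra ne
        have dj := disjoint_left.1 (g3 j (by omega) z.rr (by omega))
        exact (b1 f (fS f hf) ne).2.elim (dj hf) (dj (orb_q hf))
      rw [pb f (fS f hf), Pi.add_apply, e1, (o2 j (by omega)).2 f hf,
        if_pos ⟨Nat.zero_le _, by omega⟩, zero_add, Pi.add_apply]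
  let Lo : Set MV := C ∪ z.γ '' Iic (z.rr + 1)
  let Cn : Set (W × ZMod 2) := (fun u => (nodeOf u, 0)) '' Lo
  have LoL : Lo ⊆ r.s.Lv z.x (z.rr + 1) := union_subset (fun u hu => (hC1 hu).1) (by
    rintro _ ⟨j, hj, rfl⟩
    exact ((g1 j (by have := mem_Iic.1 hj; omega)).1 _).2 hj)
  have cn : ∀ f, r.s.vx f ∈ Lo → z.cp f ∈ Cn := fun f hf => ⟨_, hf, Prod.ext rfl
    (cx.geo.lam0 f (by
      rintro ⟨j, h1, h2, e⟩
      have := ((g1 j (by omega)).1 _).1 (e ▸ LoL hf)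
      omega)).symm⟩
  have cb : ∀ f ∈ r.s.M.S, r.s.vx f ∈ r.s.Ce → ∀ h ∈ r.s.M.vo f, χ (r.s.M.b h) = χ h := by
    intro f hf fC h hh
    obtain ⟨hS, e⟩ := vo' hf hh
    rw [← e] at fC
    rw [pb h hS, Pi.add_apply, b1' h hS (fun k => cN _ fC (hC1 k).2) (fun k => xC (k ▸ fC)),
      b2 h hS fun j hj k => ?_, add_zero, add_zero]
    rcases Nat.eq_zero_or_pos j with rfl | j0
    exacts [xC (cx.geo.g0 ▸ k ▸ fC), cN _ fC (k ▸ γN j j0 (by omega))]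
  obtain ⟨ψ, ψ1, ψ2⟩ := hC σ r k q D l U0 z Z χ U Cn cx (fun u hu => (ad.sub hu).1) ad.low hU pa
    (by
      intro f hf g hg fZ e el nc
      have nLo : r.s.vx f ∉ Lo := fun h => nc (cn f h)
      have gv := (hl f hf g hg).1 e.symm
      by_cases hγ : ∃ j ≤ i, r.s.vx f = z.γ j
      · obtain ⟨j, ji, ej⟩ := hγ
        have h1 : z.rr + 2 ≤ j := by
          by_contra h
          exact nLo (Or.inr ⟨j, mem_Iic.2 (by omega), ej.symm⟩)
        have jm : j ≤ z.m := by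
          by_contra h
          obtain rfl : j = z.m + 1 := by omega
          exact (ad.sub fZ).2 (ej ▸ (cx.geo.pm z.m le_rfl).2.2.2.2.1.2)
        have h2 := (ad.gam j h1 jm).1 (ej ▸ fZ)
        have pj := cx.geo.pm j jm
        rw [split j h1 h2 f ((hl _ pj.1 f hf).1 (pj.2.1.trans ej.symm)),
          split j h1 h2 g ((hl _ pj.1 g hg).1 (pj.2.1.trans (e.trans ej).symm)), el]
      · refine (const gv (fun h hh => ?_) fun h hh => ?_).symm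
        · obtain ⟨hS, e⟩ := vo' hf hh
          rw [pb h hS, Pi.add_apply, b1' h hS (fun k => nLo (Or.inl (e ▸ k)))
            (fun k => xN (k ▸ e ▸ (ad.sub fZ).1)), b2 h hS fun j hj k => hγ ⟨j, hj, e ▸ k⟩,
            add_zero, add_zero]
        · obtain ⟨hS, e⟩ := vo' hf hh
          rw [pc h hS, b3 h hS (fun k => ?_) fun k => k.1.1.2 (e ▸ fZ), add_zero]
          rcases k.1 with k | k
          exacts [nLo (Or.inl (e ▸ k ▸ vC)), yD.1.2 (k ▸ e ▸ fZ)])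
    (by
      intro f hf g hg e fC fZ gZ fn gn
      have key : ∀ h ∈ r.s.M.S, r.s.vx (r.s.M.a h) ∈ Z → z.cp (r.s.M.a h) ∉ Cn →
          χ (r.s.M.c h) = χ h := by
        intro h hS hZ hn
        rw [pc h hS, b3 h hS (fun k => ?_) fun k => k.2.1.2 hZ, add_zero]
        rcases k.2 with k | k
        exacts [hn (cn _ (Or.inl (k ▸ vC))), yD.1.2 (k ▸ hZ)]
      exact six hM hf ((hl f hf g hg).1 e) (ok.deg f hf (cN _ fC.1) (cT _ fC.1).2)
        (cb f hf fC.1) (key f hf fZ fn) (key g hg gZ gn))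
    (by
      intro f hf g hg e fF
      refine (const ((hl f hf g hg).1 e) (cb f hf fF.1) fun h hh => ?_).symm
      obtain ⟨hS, e⟩ := vo' hf hh
      rw [pc h hS, b3 h hS (fun k => ?_) fun k => k.2.1.2 (ad.low (g8 _ fF _ ?_)), add_zero]
      · rcases k.1 with k | k
        exacts [cN _ fF.1 (e ▸ k ▸ vN), wZ.2 (ad.low (g8 y (k ▸ e ▸ fF) w yw))]
      · exact e ▸ ⟨(ok.hm.simple h hS).1, h, hS, Or.inl ⟨rfl, rfl⟩⟩)
  have dF : (r.dcut (z.p 0) χ U).Finite := (sh_fin σ).subset fun u hu => hu.1.2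
  have CF : C.Finite := (hM.fin.image r.s.vx).subset fun u hu => (hC1 hu).2.1
  obtain ⟨S, hS, cS, ⟨u0, u0S, j0, a0, a1, rfl⟩, u1, u1S, j1, a2, a3, rfl⟩ :=
    ad.sep ((Cn ∪ r.dcut (z.p 0) χ U ×ˢ univ) ∩ r.Dm z Z) inter_subset_right (by
      have LF : Lo.Finite := CF.union ((finite_Iic _).image _)
      have h1 := ncard_le_ncard (inter_subset_left (t := r.Dm z Z))
        ((LF.image fun u => ((nodeOf u, 0) : W × ZMod 2)).union (dF.prod finite_univ))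
      have h2 := ncard_union_le Cn (r.dcut (z.p 0) χ U ×ˢ univ)
      have h3 : Cn.ncard ≤ Lo.ncard := ncard_image_le LF
      have h4 := ncard_union_le C (z.γ '' Iic (z.rr + 1))
      have h5 : (z.γ '' Iic (z.rr + 1)).ncard ≤ (Iic (z.rr + 1)).ncard :=
        ncard_image_le (finite_Iic _)
      have h6 : (Iic (z.rr + 1)).ncard = z.rr + 2 := by simp [ncard_eq_toFinset_card']
      have h7 : (r.dcut (z.p 0) χ U ×ˢ (univ : Set (ZMod 2))).ncard =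
          (r.dcut (z.p 0) χ U).ncard * 2 := by rw [ncard_prod, ncard_univ, Nat.card_zmod]
      have := cx.e
      change ((Cn ∪ _) ∩ _).ncard ≤ (Cn ∪ _).ncard at h1
      change Lo.ncard ≤ _ at h4
      omega)
  have out : ∀ u ∈ S, u ∈ r.Dm z Z \ Cn ∧ u.1 ∉ r.dcut (z.p 0) χ U := fun u hu =>
    ⟨⟨(hS hu).1, fun h => (hS hu).2 ⟨Or.inl h, (hS hu).1⟩⟩,
      fun h => (hS hu).2 ⟨Or.inr ⟨h, trivial⟩, (hS hu).1⟩⟩
  have eψ : ∀ u u', Link (r.GG z) S u u' → ψ u = ψ u' := by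
    intro u u' h
    induction h with
    | refl => rfl
    | tail _ h ih => exact ih.trans (ψ2 _ (out _ h.1).1 _ (out _ h.2.1).1 (out _ h.1).2
        (out _ h.2.1).2 h.2.2)
  have inZ : ∀ j c, z.rr + 2 ≤ j → j ≤ z.m → (nodeOf (z.γ j), c) ∈ S → z.γ j ∈ Z := by
    intro j c h1 h2 h
    have hN := γN j (by omega) (by omega)
    obtain ⟨a, e⟩ := hN.2
    have := ((g12 Z (fun u hu => (ad.sub hu).1) ad.low).2 _ (hS h).1).2.1
    rw [← e] at this hN ⊢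
    exact this hN.1
  have z0 := inZ j0 0 a0 a1 u0S
  have z1 := inZ j1 1 a2 a3 u1S
  have p0' := cx.geo.pm j0 a1
  have p1' := cx.geo.pm j1 a3
  have e0 : z.cp (z.p j0) = (nodeOf (z.γ j0), 0) :=
    Prod.ext (congrArg nodeOf p0'.2.1) (cx.geo.side j0 a0 a1).2.2.1
  have lb : z.lam (r.s.M.b (z.p j1)) = 1 := by
    obtain ⟨-, s2, s3, -⟩ := cx.geo.side j1 a2 a3
    obtain ⟨q1, q2, q3⟩ := g4 j1 (by omega) a3
    have : one r.s.M.b (z.q j1) (z.p j1) = 0 := if_neg (by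
      rintro (h | h)
      exacts [q2 h.symm, q3 (by rw [h, (hM.ib _ (vo' p1'.1 q1).1).2.1])])
    rw [s2 _ (orb_self ..), s3, Pi.add_apply, this, zero_add, zero_add]
    exact if_pos (Or.inl rfl)
  have e1 : z.cp (r.s.M.b (z.p j1)) = (nodeOf (z.γ j1), 1) :=
    Prod.ext (congrArg nodeOf ((vb _ p1'.1).trans p1'.2.1)) lb
  have t0 := (ad.gam j0 a0 a1).1 z0
  have t1 := (ad.gam j1 a2 a3).1 z1
  have fin := eψ _ _ (cS.2 _ u0S _ u1S)
  rw [← e0, ← e1, ψ1 _ p0'.1 (p0'.2.1 ▸ z0) (e0 ▸ (out _ u0S).1.2),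
    ψ1 _ (hM.ib _ p1'.1).1 ((vb _ p1'.1).trans p1'.2.1 ▸ z1) (e1 ▸ (out _ u1S).1.2),
    split j1 a2 t1 _ (orb_p (orb_self ..)), lb, same j0 a0 t0, same j1 a2 t1] at fin
  simp at fin

end Pool.Agent.MP_9d78a0_co.gm

end MrgPart1

-- ======== part 2: formerly Pool.Agent.MP_9d78a0_co.gm.HPath
section MrgPart2

/-! Block H: induced paths from the absence of small cuts, and nested cuts. -/

set_option autoImplicit false

namespace Pool.Agent.MP_9d78a0_co.gm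

open Set Function

namespace HPath

variable {V : Type} {G : SimpleGraph V} {D L R : Set V}

/-- a walk from `L` to `R` in `S` -/
def Wk (G : SimpleGraph V) (S L R : Set V) (f : ℕ → V) (l : ℕ) : Prop :=
  (∀ j ≤ l, f j ∈ S) ∧ (∀ j < l, G.Adj (f j) (f (j + 1))) ∧ f 0 ∈ L ∧ f l ∈ R

theorem Wk.short {S : Set V} {f : ℕ → V} {l i d : ℕ} (h : Wk G S L R f l) (hd : i + d ≤ l)
    (h1 : i + d < l → G.Adj (f i) (f (i + 1 + d))) (h2 : i + d = l → f i ∈ R) :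
    Wk G S L R (fun k => if k ≤ i then f k else f (k + d)) (l - d) := by
  obtain ⟨a1, a2, a3, a4⟩ := h
  refine ⟨fun j hj => ?_, fun j hj => ?_, by simpa using a3, ?_⟩
  · dsimp only
    split_ifs
    exacts [a1 _ (by omega), a1 _ (by omega)]
  · dsimp only
    split_ifs with c1 c2 c2
    · exact a2 j (by omega)
    · obtain rfl : j = i := by omega
      exact h1 (by omega)
    · omega
    · rw [show j + 1 + d = j + d + 1 by omega]
      exact a2 _ (by omega)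
  · dsimp only
    split_ifs with c
    · rw [show l - d = i by omega]
      exact h2 (by omega)
    · rwa [show l - d + d = l by omega]

/-- a shortest walk is an induced path with only its ends in `L` and `R` -/
theorem shortest {S : Set V} (hc : Conn G S) (hL : (S ∩ L).Nonempty) (hR : (S ∩ R).Nonempty) :
    ∃ f l, Wk G S L R f l ∧ (∀ i j, i + 1 < j → j ≤ l → ¬ G.Adj (f i) (f j)) ∧
      (∀ i ≤ l, ∀ j ≤ l, f i = f j → i = j) ∧ (∀ i ≤ l, f i ∈ L ↔ i = 0) ∧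
      ∀ i ≤ l, f i ∈ R ↔ i = l := by
  classical
  obtain ⟨a, ha, ha'⟩ := hL
  obtain ⟨b, hb, hb'⟩ := hR
  have ex : ∃ l, ∃ f, Wk G S L R f l := by
    obtain ⟨f, l, hp, rfl, rfl⟩ := fb.link_path (hc.2 a ha b hb) ha
    exact ⟨l, f, hp.1, hp.2.1, ha', hb'⟩
  obtain ⟨f, hf⟩ := Nat.find_spec ex
  have mn : ∀ l < Nat.find ex, ∀ g, ¬ Wk G S L R g l := fun l hl g hg =>
    Nat.find_min ex hl ⟨g, hg⟩
  generalize Nat.find ex = l at hf mn
  have inj : ∀ i j, i < j → j ≤ l → f i ≠ f j := fun i j h1 h2 e =>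
    mn _ (by omega) _ (hf.short (i := i) (d := j - i) (by omega)
      (fun c => by
        rw [e, show i + 1 + (j - i) = j + 1 by omega]
        exact hf.2.1 j (by omega))
      fun c => by
        rw [e, show j = l by omega]
        exact hf.2.2.2)
  refine ⟨f, l, hf, fun i j h1 h2 e => ?_, fun i hi j hj e => ?_, fun i hi => ⟨fun h => ?_, ?_⟩,
    fun i hi => ⟨fun h => ?_, ?_⟩⟩
  · exact mn _ (by omega) _ (hf.short (i := i) (d := j - i - 1) (by omega)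
      (fun _ => by rwa [show i + 1 + (j - i - 1) = j by omega]) fun c => by omega)
  · rcases lt_trichotomy i j with c | c | c
    exacts [absurd e (inj i j c hj), c, absurd e.symm (inj j i c hi)]
  · by_contra c
    refine mn (l - i) (by omega) (fun k => f (k + i)) ⟨fun j hj => hf.1 _ (by omega),
      fun j hj => ?_, by simpa using h, ?_⟩
    · show G.Adj (f (j + i)) (f (j + 1 + i))
      rw [show j + 1 + i = j + i + 1 by omega]
      exact hf.2.1 _ (by omega)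
    · show f (l - i + i) ∈ R
      rw [show l - i + i = l by omega]
      exact hf.2.2.2
  · rintro rfl
    exact hf.2.2.1
  · by_contra c
    exact mn i (by omega) f ⟨fun j hj => hf.1 _ (by omega), fun j hj => hf.2.1 _ (by omega),
      hf.2.2.1, h⟩
  · rintro rfl
    exact hf.2.2.2

theorem path {e : ℕ} (wt : V → ℕ) (hD : D.Finite) (he : 0 < e) (h : Sepn G D L R e) :
    ∃ n y, Lns G D L R e n y ∧ ∀ l < e, wt (y l 0) ≤ wt (y 0 0) := by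
  obtain ⟨Q, hQ, hd⟩ := fb.mengerS V G D L R e hD h
  choose f l a1 a2 a3 a4 a5 using fun i => shortest (hQ i).2.1 (hQ i).2.2.1 (hQ i).2.2.2
  obtain ⟨i0, -, hi0⟩ := Finset.exists_max_image (Finset.univ : Finset (Fin e))
    (fun i => wt (f i 0)) ⟨⟨0, he⟩, Finset.mem_univ _⟩
  obtain ⟨π, p0, pi⟩ : ∃ π : ℕ → Fin e, π 0 = i0 ∧ ∀ k < e, ∀ k' < e, π k = π k' → k = k' := by
    refine ⟨fun k => Equiv.swap ⟨0, he⟩ i0 ⟨k % e, Nat.mod_lt _ he⟩, by simp,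
      fun k hk k' hk' c => ?_⟩
    have := congrArg Fin.val ((Equiv.swap _ _).injective c)
    simpa [Nat.mod_eq_of_lt hk, Nat.mod_eq_of_lt hk'] using this
  refine ⟨fun k => l (π k), fun k => f (π k), ⟨fun k _ i hi => (hQ _).1 ((a1 _).1 i hi),
    fun k _ => (a1 _).2.1, fun k _ => a2 _, fun k hk k' hk' i hi j hj c => ?_, fun k _ => a4 _,
    fun k _ => a5 _⟩, fun k _ => by dsimp only; rw [p0]; exact hi0 _ (Finset.mem_univ _)⟩
  have : π k = π k' := by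
    by_contra c'
    exact disjoint_left.1 (hd c') ((a1 _).1 i hi) (c ▸ (a1 _).1 j hj)
  obtain rfl := pi k hk k' hk' this
  exact ⟨rfl, a3 _ i hi j hj c⟩

variable {e : ℕ} {n : ℕ → ℕ} {y : ℕ → ℕ → V}

theorem run (h : Lns G D L R e n y) {S : Set V} {l i j : ℕ} (hl : l < e) (hij : i ≤ j)
    (hj : j ≤ n l) (hS : ∀ k, i ≤ k → k ≤ j → y l k ∈ S) : Link G S (y l i) (y l j) := by
  induction j, hij using Nat.le_induction with
  | base => exact Link.refl _ _ _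
  | succ j hij ih =>
    exact (ih (by omega) fun k a b => hS k a (by omega)).trans
      (Link.single (hS j hij (by omega)) (hS _ (by omega) le_rfl) (h.adj l hl j hj))

/-- one separation through a vertex -/
theorem sepv (hD : D.Finite) (h : Lns G D L R e n y) {v : V} (hv : v ∈ D)
    (hs : ¬ Sepn G (D \ {v}) L R e) :
    ∃ (A B : Set V) (c : ℕ → ℕ), v ∈ A ∧ v ∈ B ∧ D ⊆ A ∪ B ∧
      (∀ u ∈ D, ∀ w ∈ D, u ∉ B → w ∉ A → ¬ G.Adj u w) ∧ (∀ l < e, c l ≤ n l) ∧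
      (∀ l < e, ∀ i ≤ n l, (y l i ∈ A ↔ i ≤ c l) ∧ (y l i ∈ B ↔ c l ≤ i)) ∧
      ∀ w ∈ D ∩ A ∩ B, ∃ l < e, w = y l (c l) := by
  classical
  simp only [Sepn, not_forall] at hs
  obtain ⟨X, hX, hc, no⟩ := hs
  have YD : insert v X ⊆ D := insert_subset hv fun x hx => (hX hx).1
  have Yc : (insert v X).ncard ≤ e := (ncard_insert_le _ _).trans hc
  have no' : ∀ x ∈ L, x ∈ D \ insert v X → ∀ z ∈ R, ¬ Link G (D \ insert v X) x z := by
    intro x hx hx' z hz hl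
    have up : ∀ u, Link G (D \ insert v X) x u → Link G {u | Link G (D \ insert v X) x u} x u := by
      intro u hu
      induction hu with
      | refl => exact Link.refl _ _ _
      | tail h1 h2 ih => exact ih.trans (Link.single h1 (h1.tail h2) h2.2.2)
    refine no ⟨{u | Link G (D \ insert v X) x u}, fun u hu => ?_,
      ⟨⟨x, Link.refl _ _ _⟩, fun a ha b hb => (up a ha).symm.trans (up b hb)⟩,
      ⟨x, Link.refl _ _ _, hx⟩, z, hl, hz⟩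
    have := Link.mem hu hx'
    exact ⟨⟨this.1, fun c => this.2 (Or.inl c)⟩, fun c => this.2 (Or.inr c)⟩
  have vY : v ∈ insert v X := mem_insert _ _
  generalize insert v X = Y at YD Yc no' vY
  have meet : ∀ l, ∃ i, l < e → i ≤ n l ∧ y l i ∈ Y := by
    intro l
    by_contra c
    push Not at c
    have hl := (c 0).1
    have m : ∀ k ≤ n l, y l k ∈ D \ Y := fun k hk => ⟨h.mem l hl k hk, (c k).2 hk⟩
    exact no' _ ((h.left l hl 0 (by omega)).2 rfl) (m 0 (by omega)) _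
      ((h.right l hl _ le_rfl).2 rfl) (run h hl (by omega) le_rfl fun k _ hk => m k hk)
  choose c hc using meet
  have all : (fun l => y l (c l)) '' Iio e = Y := by
    refine eq_of_subset_of_ncard_le ?_ ?_ (hD.subset YD)
    · rintro _ ⟨l, hl, rfl⟩
      exact (hc l hl).2
    · have : InjOn (fun l => y l (c l)) (Iio e) := fun l hl l' hl' e =>
        (h.inj l hl l' hl' _ (hc l hl).1 _ (hc l' hl').1 e).1
      rwa [this.ncard_image, ← Finset.coe_range, ncard_coe_finset, Finset.card_range]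
  have one : ∀ l < e, ∀ i ≤ n l, y l i ∈ Y → i = c l := by
    intro l hl i hi hy
    rw [← all] at hy
    obtain ⟨l', hl', e⟩ := hy
    obtain ⟨rfl, rfl⟩ := h.inj l' hl' l hl _ (hc l' hl').1 i hi e
    rfl
  obtain ⟨A, hA⟩ : ∃ A : Set V, ∀ u, u ∈ A ↔ ∃ x ∈ L, x ∈ D \ Y ∧ Link G (D \ Y) x u :=
    ⟨{u | ∃ x ∈ L, x ∈ D \ Y ∧ Link G (D \ Y) x u}, fun _ => Iff.rfl⟩
  have AY : ∀ u ∈ A, u ∈ D \ Y := fun u hu => by
    obtain ⟨x, -, h1, h2⟩ := (hA u).1 hu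
    exact h2.mem h1
  have key : ∀ l < e, ∀ i ≤ n l, y l i ∈ A ↔ i < c l := by
    intro l hl i hi
    have m : ∀ k ≤ n l, k ≠ c l → y l k ∈ D \ Y := fun k hk e =>
      ⟨h.mem l hl k hk, fun d => e (one l hl k hk d)⟩
    refine ⟨fun hy => ?_, fun hy => (hA _).2 ⟨_, (h.left l hl 0 (by omega)).2 rfl,
      m 0 (by omega) (by omega), run h hl (by omega) hi fun k _ hk => m k (by omega) (by omega)⟩⟩
    by_contra d
    have ne : i ≠ c l := fun e => (AY _ hy).2 (e ▸ (hc l hl).2)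
    obtain ⟨x, h0, h1, h2⟩ := (hA _).1 hy
    exact no' x h0 h1 _ ((h.right l hl _ le_rfl).2 rfl)
      (h2.trans (run h hl hi le_rfl fun k a b => m k b (by omega)))
  refine ⟨A ∪ Y, Aᶜ, c, Or.inr vY, fun d => (AY v d).2 vY, fun u _ => ?_,
    fun u _ w hw h1 h2 e => ?_, fun l hl => (hc l hl).1, fun l hl i hi => ⟨?_, ?_⟩, ?_⟩
  · by_cases d : u ∈ A
    exacts [Or.inl (Or.inl d), Or.inr d]
  · have hu : u ∈ A := not_not.1 h1
    obtain ⟨x, a1, a2, a3⟩ := (hA u).1 hu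
    exact h2 (Or.inl ((hA w).2 ⟨x, a1, a2,
      a3.trans (Link.single (AY u hu) ⟨hw, fun d => h2 (Or.inr d)⟩ e)⟩))
  · rw [mem_union, key l hl i hi]
    refine ⟨fun d => d.elim le_of_lt fun d => (one l hl i hi d).le, fun d => ?_⟩
    rcases d.lt_or_eq with d | d
    exacts [Or.inl d, Or.inr (d ▸ (hc l hl).2)]
  · rw [mem_compl_iff, key l hl i hi, not_lt]
  · rintro w ⟨⟨-, d | d⟩, h2⟩
    · exact absurd d h2
    · rw [← all] at d
      obtain ⟨l, hl, e⟩ := d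
      exact ⟨l, hl, e.symm⟩

end HPath

/-- the statement `PathS` for a positive number of paths -/
theorem pathS' (V : Type) (G : SimpleGraph V) (D L R : Set V) (e : ℕ) (wt : V → ℕ) (hD : D.Finite)
    (he : 0 < e ∨ Nonempty V) (h : Sepn G D L R e) :
    ∃ n y, Lns G D L R e n y ∧ ∀ l < e, wt (y l 0) ≤ wt (y 0 0) := by
  rcases Nat.eq_zero_or_pos e with rfl | c
  · obtain ⟨v⟩ := he.resolve_left (lt_irrefl _)
    exact ⟨fun _ => 0, fun _ _ => v, by constructor <;> exact fun _ c => absurd c (by omega),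
      fun _ c => absurd c (by omega)⟩
  · exact HPath.path wt hD c h

open HPath in
theorem chainS : ChainS := by
  intro V G D L R e n y hD h
  refine ⟨fun v hv hs => ?_, fun s ix he hix hk => ?_⟩
  · obtain ⟨A, B, c, h1, h2, -, -, h3, -, h4⟩ := sepv hD h hv hs
    obtain ⟨l, hl, e⟩ := h4 v ⟨⟨hv, h1⟩, h2⟩
    exact ⟨l, hl, _, h3 l hl, e⟩
  have ex : ∀ k, ∃ (A B : Set V) (c : ℕ → ℕ), k < s → c 0 = ix k ∧ D ⊆ A ∪ B ∧
      (∀ u ∈ D, ∀ w ∈ D, u ∉ B → w ∉ A → ¬ G.Adj u w) ∧ (∀ l < e, c l ≤ n l) ∧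
      (∀ l < e, ∀ i ≤ n l, (y l i ∈ A ↔ i ≤ c l) ∧ (y l i ∈ B ↔ c l ≤ i)) ∧
      ∀ w ∈ D ∩ A ∩ B, ∃ l < e, w = y l (c l) := by
    intro k
    by_cases c : k < s
    · obtain ⟨A, B, c, h1, h2, h3, h4, h5, h6, h7⟩ :=
        sepv hD h (h.mem 0 he _ (hk k c).1) (hk k c).2
      have := h6 0 he _ (hk k ‹_›).1
      exact ⟨A, B, c, fun _ => ⟨le_antisymm (this.2.1 h2) (this.1.1 h1), h3, h4, h5, h6, h7⟩⟩
    · exact ⟨∅, ∅, id, fun d => absurd d c⟩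
  choose A B c hc using ex
  have mx : ∀ k l, ∃ k0 ≤ k, ∀ k2 ≤ k, c k2 l ≤ c k0 l := fun k l => by
    obtain ⟨k0, h1, h2⟩ := Finset.exists_max_image (Finset.range (k + 1)) (fun k2 => c k2 l)
      ⟨0, by simp⟩
    exact ⟨k0, by simpa [Nat.lt_succ_iff] using h1, fun k2 d => h2 k2 (by simpa [Nat.lt_succ_iff])⟩
  choose κ k1 k2 using mx
  have pos : ∀ k < s, ∀ l < e, ∀ i ≤ n l, (y l i ∈ {v | ∃ j ≤ k, v ∈ A j} ↔ i ≤ c (κ k l) l) ∧
      (y l i ∈ {v | ∀ j ≤ k, v ∈ B j} ↔ c (κ k l) l ≤ i) := by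
    intro k hk l hl i hi
    have p : ∀ j ≤ k, _ := fun j hj => (hc j (by omega)).2.2.2.2.1 l hl i hi
    exact ⟨⟨fun ⟨j, a, b⟩ => ((p j a).1.1 b).trans (k2 k l j a),
      fun d => ⟨_, k1 k l, (p _ (k1 k l)).1.2 d⟩⟩, fun d => (p _ (k1 k l)).2.1 (d _ (k1 k l)),
      fun d j a => (p j a).2.2 ((k2 k l j a).trans d)⟩
  refine ⟨fun k => {v | ∃ j ≤ k, v ∈ A j}, fun k => {v | ∀ j ≤ k, v ∈ B j},
    fun k l => c (κ k l) l, ⟨fun k hk v hv => ?_, fun k hk u hu w hw h1 h2 => ?_,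
      fun k k' a _ => ⟨fun v ⟨j, b, d⟩ => ⟨j, b.trans a, d⟩, fun v d j b => d j (b.trans a)⟩,
      fun k hk l hl => (hc _ (by have := k1 k l; omega)).2.2.2.1 l hl, pos, ?_⟩, fun k hk => ?_⟩
  · by_cases d : ∃ j ≤ k, v ∈ A j
    · exact Or.inl d
    · exact Or.inr fun j a => ((hc j (by omega)).2.1 hv).resolve_left fun b => d ⟨j, a, b⟩
  · simp only [mem_ofPred_eq, not_forall] at h1
    obtain ⟨j, a, b⟩ := h1
    exact (hc j (by omega)).2.2.1 u hu w hw b fun d => h2 ⟨j, a, d⟩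
  · rintro k hk v ⟨⟨hv, j, a, b⟩, d⟩
    obtain ⟨l, hl, rfl⟩ := (hc j (by omega)).2.2.2.2.2 v ⟨⟨hv, b⟩, d j a⟩
    have := (pos k hk l hl _ ((hc j (by omega)).2.2.2.1 l hl)).2.1 d
    exact ⟨l, hl, by rw [le_antisymm this (k2 k l j a)]⟩
  · have a := k1 k 0
    have b := k2 k 0 k le_rfl
    show c (κ k 0) 0 = ix k
    rw [(hc k hk).1, (hc _ (by omega)).1] at b
    rw [(hc _ (by omega)).1]
    rcases a.lt_or_eq with d | d
    · have := hix _ _ d hk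
      omega
    · rw [d]

end Pool.Agent.MP_9d78a0_co.gm

end MrgPart2

-- ======== part 3: formerly Pool.Agent.MP_9d78a0_co.gm.HZone
section MrgPart3

/-! Block H: the zone of a hole, and the vortex construction, from the other rows. -/

set_option autoImplicit false

namespace Pool.Agent.MP_9d78a0_co.gm

open Set Function

namespace HZone

theorem inl_node {s : Sk} {v : MV} (h : v ∈ s.Nd) : Sum.inl (nodeOf v) = v := by
  obtain ⟨-, u, rfl⟩ := h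
  rfl

theorem card_le (γ : ℕ → MV) (m : ℕ) {S : Set MV} (h : ∀ v ∈ S, ∃ i ≤ m, v = γ i) :
    S.ncard ≤ m + 1 := by
  have e : S ⊆ γ '' Iic m := fun v hv => let ⟨i, hi, e⟩ := h v hv; ⟨i, hi, e.symm⟩
  refine (ncard_le_ncard e ((finite_Iic m).image _)).trans ((ncard_image_le (finite_Iic m)).trans ?_)
  rw [← Finset.coe_Iic, ncard_coe_finset, Nat.card_Iic]

theorem enum (I : ℕ → Prop) (hI : {i | I i}.Finite) : ∃ (N : ℕ) (ix : ℕ → ℕ),
    (∀ k k', k < k' → k' < N → ix k < ix k') ∧ (∀ k < N, I (ix k)) ∧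
      ∀ i, I i → ∃ k < N, ix k = i :=
  ⟨hI.toFinset.card, Nat.nth I, fun _ _ h h' => Nat.nth_lt_nth_of_lt_card hI h h',
    fun _ h => Nat.nth_mem_of_lt_card hI h, fun _ h => Nat.exists_lt_card_finite_nth_eq hI h⟩

theorem least {α β : Type} (P : Set α → β → Prop) (h : ∃ Z t, P Z t) :
    ∃ Z t, P Z t ∧ ∀ Z' t', P Z' t' → Z.ncard ≤ Z'.ncard := by
  classical
  have ex : ∃ n, ∃ Z t, P Z t ∧ Z.ncard = n := let ⟨Z, t, k⟩ := h; ⟨_, Z, t, k, rfl⟩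
  obtain ⟨Z, t, k, e⟩ := Nat.find_spec ex
  exact ⟨Z, t, k, fun Z' t' k' => e ▸ Nat.find_min' ex ⟨Z', t', k', rfl⟩⟩

end HZone

namespace HB

open HZone

theorem zoneS (hb : BasS) (ha : AreaS) (hl : LevS) (hg : GeoS) (hγ : GamS) (hr : RingS)
    (h0 : V0S) (h1 : V1S) (h2 : V2S) (hm : MinS) (hbag : BagHS) : ZoneS := by
  intro D m0
  refine ⟨2 * m0 + 2 + 1 + (4 * (2 * m0 + 2) + 2 * D + 12) + 2,
    2 * m0 + 2 + 1 + (4 * (2 * m0 + 2) + 2 * D + 12) + 2, by omega, ?_⟩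
  intro σ r k q l U0 x rob co tw zx hx
  obtain ⟨z, rfl, er, ee, geo⟩ := hg r.s U0 x _ _ zx hx
  have em : z.m = z.rr + 1 + z.e := rfl
  have ew : 2 * m0 + 2 + 1 + (4 * (2 * m0 + 2) + 2 * D + 12) + 2 = z.m + 2 := by omega
  rw [ew] at zx ⊢
  have cx : r.Cx k q D l U0 z := ⟨rob, co, tw, zx, hx, by omega, by omega, geo⟩
  obtain ⟨Z, t, adm, hmin⟩ := least (r.Adm U0 z) ⟨_, _, hr σ r k q D l U0 z cx⟩
  obtain ⟨-, -, -, -, -, -, -, -, gΛ, -, -, gD⟩ := hγ σ r k q D l U0 z cx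
  obtain ⟨lm, l2, -, l4⟩ := hl r.s U0 _ z.x zx hx
  obtain ⟨-, -, -, aRH, -⟩ := ha r.s U0 _ z.x zx (by omega) hx
  obtain ⟨-, etv, -⟩ := hb.2 r.s co.ok0
  have Ttv : r.s.T ⊆ r.s.tv := etv ▸ subset_union_left
  have ZN : Z ⊆ r.s.Nd := fun v hv => (adm.sub hv).1
  obtain ⟨fD, gD⟩ := gD Z ZN adm.low
  obtain ⟨n, y, lns, hw⟩ := pathS' _ (r.GG z) (r.Dm z Z) (z.Sd 0) (z.Sd 1) z.e
    (fun u => r.s.lev z.x (Sum.inl u.1)) fD (Or.inl (by omega)) adm.sep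
  have v1 := h1 σ r k q D l U0 z Z t n y cx adm lns hw
  obtain ⟨mn1, mn2⟩ := hm σ r k q D l U0 z Z t cx adm hmin
  obtain ⟨ed, χ, pw, top⟩ := h2 σ r k q D l U0 z Z t n y cx adm lns hw v1 (mn2 n y lns)
  have v0 := disjoint_left.1 (h0 σ r k q D l U0 z Z t cx adm)
  obtain ⟨rt, tm⟩ := adm.rng
  obtain ⟨UK, Ktv, -, -, Kcl, LA, tA, yA, -⟩ := l4 z.m (by omega)
  have ZA : Z ⊆ r.s.Ar U0 z.x := fun v hv => tA ⟨Ttv (Or.inl (ZN hv)), (adm.sub hv).2⟩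
  have L1 : r.s.Lv z.x 1 ⊆ r.s.Lv z.x (z.rr + 1) := (lm 1 _ (by omega)).1
  have low : r.s.Nd ∩ r.s.M.rad r.s.vx {z.x} ⊆ r.s.Lv z.x (z.rr + 1) :=
    fun v hv => L1 (Or.inr hv)
  have γN : ∀ i, 1 ≤ i → i ≤ z.m + 1 → z.γ i ∈ r.s.Nd ∧ z.γ i ∈ r.s.Kc U0 z.x (i - 1) := by
    intro i a b
    obtain ⟨j, rfl⟩ : ∃ j, i = j + 1 := ⟨i - 1, by omega⟩
    have := (geo.pm j (by omega)).2.2.2.2
    exact ⟨this.2, this.1.2⟩
  have Γt : ∀ v ∈ Z, v ∈ z.Γ z.m → v ∈ z.Γ t := by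
    rintro v hv ⟨i, a, b, rfl⟩
    exact ⟨i, a, (adm.gam i a b).1 hv, rfl⟩
  have Sd : ∀ c, ∀ u ∈ z.Sd c, Sum.inl u.1 ∈ z.Γ z.m := by
    rintro c u ⟨i, a, b, rfl⟩
    exact ⟨i, a, b, inl_node (γN i (by omega) (by omega)).1⟩
  have cT : ∀ y ∈ r.s.Ce, y ∉ r.s.Nd := fun y hy => HBas.inr_nd hy.1.2
  have TL : ∀ j, ∀ v ∈ r.s.T, v ∈ r.s.Lv z.x j → v ∈ r.s.Nd := by
    intro j v hv a
    rcases (l2 j).1 a with rfl | b
    exacts [((Ttv hv).2 hx.1).elim, b]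
  have e0 : 0 < z.e := by omega
  obtain ⟨N, ix, ix1, ix2, ix3⟩ :=
    enum (fun i => i ≤ n 0 ∧ Sum.inl (y 0 i).1 ∈ r.s.Ex Z \ z.Γ t)
      ((finite_Iic (n 0)).subset fun i hi => hi.1)
  have ixr : ∀ k < N, 0 < ix k ∧ ix k < n 0 := by
    intro k hk
    obtain ⟨a, b, c⟩ := ix2 k hk
    refine ⟨Nat.pos_of_ne_zero fun e => c ?_, lt_of_le_of_ne a fun e => c ?_⟩
    · exact Γt _ b.1 (Sd 0 _ ((lns.left 0 e0 _ a).2 e))
    · exact Γt _ b.1 (Sd 1 _ ((lns.right 0 e0 _ a).2 e))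
  have ps : ∀ i < n 0, r.s.vx (ed (2 * i)) = Sum.inl (y 0 i).1 := by
    intro i hi
    rw [← (top.path i hi).1]
    exact (inl_node (ZN (pw.node i hi).1)).symm
  have ex : r.s.Ex Z \ z.Γ t = {v | ∃ k < N, v = r.s.vx (ed (2 * ix k))} := by
    refine subset_antisymm (fun v hv => ?_) ?_
    · have hZ := hv.1.1
      obtain ⟨f, hf, ef⟩ := (ZN hZ).1
      have mem : (nodeOf v, (0 : ZMod 2)) ∈ r.Dm z Z := by
        refine ⟨fun c => v0 hv.1 (L1 ?_), Or.inl ⟨f, hf, ef ▸ hZ, ?_⟩⟩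
        · have := gΛ _ c (by rw [inl_node (ZN hZ)]; exact ZA hZ)
          rwa [inl_node (ZN hZ)] at this
        · rw [Zg.cp, ef, geo.lam0 f fun c => hv.2 (Γt v hZ (ef ▸ c))]
      obtain ⟨j, hj, i, hi, e⟩ := (chainS _ _ _ _ _ _ n y fD lns).1 _ mem
        (mn1 v hv.1 (v0 hv.1) hv.2)
      have ev : Sum.inl (y j i).1 = v := by rw [← e]; exact inl_node (ZN hZ)
      rcases Nat.eq_zero_or_pos j with rfl | c
      · obtain ⟨k, hk, rfl⟩ := ix3 i ⟨hi, ev ▸ hv⟩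
        exact ⟨k, hk, by rw [ps _ (ixr k hk).2, ev]⟩
      · exact (hv.2 (ev ▸ top.rest j c hj i hi (ev ▸ hv.1))).elim
    · rintro v ⟨k, hk, rfl⟩
      rw [ps _ (ixr k hk).2]
      exact (ix2 k hk).2
  have esc : ∀ v ∈ r.s.Ex Z, ∃ w ∈ {v | ∃ i, t < i ∧ i ≤ z.m + 1 ∧ v = z.γ i},
      Link r.s.G (((r.s.T \ Z) \ U0) ∪ {v}) v w := by
    rintro v ⟨hv, c, ⟨hc, w, hw', cw⟩, cv⟩
    have ctv : c ∈ r.s.tv := Ttv (Or.inr hc)
    have cU : c ∉ U0 := (yA c ctv v (adm.sub hv) cv).2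
    have alt : w ∉ r.s.Kc U0 z.x z.m ∨ w ∈ r.s.Lv z.x (z.m + 1) := by
      by_cases a : w ∈ r.s.Kc U0 z.x z.m
      · have cK := Kcl w a c ⟨ctv, fun b => cT c hc (TL _ c (Or.inr hc) b)⟩ cw.symm
        have vL : v ∈ r.s.Lv z.x z.m := by_contra fun b =>
          (adm.sub hv).2 (Kcl c cK v ⟨Ttv (Or.inl (ZN hv)), b⟩ cv)
        exact Or.inr ((l2 z.m).2.2 c ⟨ctv, cT c hc⟩ v vL w cv cw)
      · exact Or.inl a
    have wU : w ∉ U0 := alt.elim (fun a b => a (UK b)) fun a => (LA a).2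
    obtain ⟨i, a, b, lk⟩ := adm.esc w hw' alt
    have cm : c ∈ ((r.s.T \ Z) \ U0) ∪ {v} :=
      Or.inl ⟨⟨Or.inr hc, fun a => cT c hc (ZN a)⟩, cU⟩
    have wm : w ∈ ((r.s.T \ Z) \ U0) ∪ {v} := Or.inl ⟨⟨Or.inl hw'.1, hw'.2⟩, wU⟩
    have vm : v ∈ ((r.s.T \ Z) \ U0) ∪ {v} := Or.inr rfl
    exact ⟨_, ⟨i, a, b, rfl⟩, ((Link.single vm cm cv.symm).trans
      (Link.single cm wm cw)).trans (lk.mono subset_union_left)⟩
  have ring : ∀ p ∈ r.s.M.S, r.s.vx p = z.x → ∃ C : Fin (m0 + 1) → Set MV,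
      Pairwise (Disjoint on C) ∧ ∀ i, r.s.Ring (C i) p (r.s.Kx Z ∪ U0) := by
    intro p hp ep
    have dis : ∀ j j', j + 2 ≤ j' → j' ≤ z.m →
        Disjoint (r.s.Wr U0 z.x j) (r.s.Wr U0 z.x j') := by
      intro j j' a b
      obtain ⟨-, Kt, -, -, -, -, -, -, -, -, -, wN, wC, -⟩ := l4 j (by omega)
      obtain ⟨-, Kt', -, -, -, -, -, -, -, -, -, -, wC', -⟩ := l4 j' (by omega)
      refine disjoint_left.2 fun v hv hv' => ?_
      by_cases c : v ∈ r.s.Nd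
      · have : v ∈ r.s.Kc U0 z.x j ∩ r.s.Lv z.x (j + 1) := wN ▸ ⟨hv, c⟩
        exact (Kt' hv'.1).2 ((lm _ _ (by omega)).1 this.2)
      · obtain ⟨u, hu, a1⟩ := wC v ⟨hv, c⟩
        obtain ⟨u', hu', a2⟩ := wC' v ⟨hv', c⟩
        have : u ∈ r.s.Kc U0 z.x j ∩ r.s.Lv z.x (j + 1) := wN ▸ hu
        exact (Kt' hu'.1.1).2 ((lm _ _ (by omega)).1
          ((l2 (j + 1)).2.2 v ⟨(Kt hv.1).1, c⟩ u this.2 u' a1 a2))
    refine ⟨fun i => r.s.Wr U0 z.x (2 * i), fun i i' c => ?_, fun i => ?_⟩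
    · have := i.2
      have := i'.2
      rcases lt_or_gt_of_ne (Fin.val_ne_of_ne c) with c | c
      exacts [dis _ _ (by omega) (by omega), (dis _ _ (by omega) (by omega)).symm]
    · have hi := i.2
      obtain ⟨UK', -, -, -, cl, -, -, -, -, -, rg, wN, wC, wA, -⟩ := l4 (2 * i) (by omega)
      have rg := rg p hp ep
      refine ⟨rg.conn, rg.sub, rg.mem, rg.out.mono_left ?_⟩
      rintro c (⟨hc, w, hw', cw⟩ | hc)
      · have ctv : c ∈ r.s.tv := Ttv (Or.inr hc)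
        have off : ∀ v ∈ r.s.T \ Z, v ∈ r.s.tv \ r.s.Lv z.x (2 * i) := fun v hv =>
          ⟨Ttv hv.1, fun b => hv.2 (adm.low ⟨(lm _ _ (by omega)).1 b, TL _ v hv.1 b⟩)⟩
        have wK : w ∈ r.s.Kc U0 z.x (2 * i) := by
          by_cases a : w ∈ r.s.Kc U0 z.x z.m
          · exact (lm _ _ (by omega)).2 a
          · obtain ⟨j, a, b, lk⟩ := adm.esc w hw' (Or.inl a)
            have st : z.γ j ∈ r.s.Kc U0 z.x (2 * i) :=
              (lm _ _ (by omega)).2 (γN j (by omega) b).2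
            have key : ∀ u, Link r.s.G ((r.s.T \ Z) \ U0) (z.γ j) u →
                u ∈ r.s.Kc U0 z.x (2 * i) := by
              intro u hu
              induction hu with
              | refl => exact st
              | tail _ hbc ih => exact cl _ ih _ (off _ hbc.2.1.1) hbc.2.2
            exact key w lk.symm
        refine ⟨cl w wK c (off c ⟨Or.inr hc, fun a => cT c hc (ZN a)⟩) cw.symm, fun a => ?_⟩
        obtain ⟨u, hu, a1⟩ := wC c ⟨a, cT c hc⟩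
        have : u ∈ r.s.Kc U0 z.x (2 * i) ∩ r.s.Lv z.x (2 * i + 1) := wN ▸ hu
        exact hw'.2 (adm.low ⟨(lm _ _ (by omega)).1
          ((l2 (2 * i + 1)).2.2 c ⟨ctv, cT c hc⟩ u this.2 w a1 cw), hw'.1⟩)
      · exact ⟨UK' hc, fun a => (wA a).2 hc⟩
  let d : Zd r.s := ⟨Z, z.Γ t, {v | ∃ i, t < i ∧ i ≤ z.m + 1 ∧ v = z.γ i}, n 0, N, ed, ix, χ⟩
  have zo : d.Zo U0 z.x m0 := by
    refine ⟨fun v hv => ⟨ZN hv, ZA hv⟩, fun v hv => adm.low ⟨low hv, hv.1⟩,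
      disjoint_left.2 fun v hv c => v0 hv (low ⟨ZN hv.1, aRH ⟨c, ZA hv.1⟩⟩), ?_, pw, ⟨ix1, ixr⟩,
      ex, ⟨?_, esc⟩, ring⟩
    · rintro v ⟨i, a, b, rfl⟩
      exact (adm.gam i a (by omega)).2 b
    · rintro v ⟨i, a, b, rfl⟩
      exact (γN i (by omega) b).1
  obtain ⟨A, B, c, chn, hc⟩ := (chainS _ _ _ _ _ _ n y fD lns).2 N ix e0 ix1 fun j hj => by
    obtain ⟨a, b, c⟩ := ix2 j hj
    refine ⟨a, ?_⟩
    have e2 := (gD _ (lns.mem 0 e0 _ a)).2.2.1 fun h => c (Γt _ b.1 h)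
    have e : y 0 (ix j) = (nodeOf (Sum.inl (y 0 (ix j)).1), 0) := Prod.ext rfl e2
    rw [e]
    exact mn1 _ b (v0 b) c
  obtain ⟨b, bd, zr⟩ := hbag σ r k q D l m0 U0 z t d n y A B c cx adm zo rfl rfl lns top chn hc
  refine ⟨d, b, zo, zr, card_le z.γ (z.m + 1) ?_, card_le z.γ (z.m + 1) ?_, by omega⟩
  · rintro v ⟨i, -, b, rfl⟩
    exact ⟨i, by omega, rfl⟩
  · rintro v ⟨i, -, b, rfl⟩
    exact ⟨i, b, rfl⟩

theorem vortexS (hb : BasS) (hz : ZoneS) (hs : SurgS) (hA : ShAS) (hB : ShBS) : VortexS := by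
  intro q D l m
  obtain ⟨w0, R, hR, hz⟩ := hz D m
  obtain ⟨w, hB⟩ := hB q l w0
  refine ⟨w, R, fun σ r k U0 rob ov tw sub conn two full far => ?_⟩
  have zx : r.s.Zx U0 R := ⟨ov.co.ok0, ov.tvc, sub, conn, two, full, far⟩
  obtain ⟨u, hu⟩ := conn.1
  obtain ⟨f0, -, -⟩ := (sub hu).1
  have ex : ∀ x, ∃ (d : Zd r.s) (b : Zb σ), x ∈ r.s.H ∩ r.s.Vt → d.Zo U0 x m ∧ r.Zr x d b ∧
      d.Γ.ncard ≤ w0 ∧ d.Wv.ncard ≤ w0 ∧ b.d ≤ w0 := by
    intro x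
    by_cases c : x ∈ r.s.H ∩ r.s.Vt
    · obtain ⟨d, b, h⟩ := hz σ r k q l U0 x rob ov.co tw zx c
      exact ⟨d, b, fun _ => h⟩
    · exact ⟨⟨∅, ∅, ∅, 0, 0, fun _ => f0, id, 0⟩, ⟨0, fun _ _ => Sum.inl 0, fun _ _ => ∅, 0⟩,
        fun h => absurd h c⟩
  choose zd zb hzz using ex
  obtain ⟨s', J, φ0, sg⟩ := hs r.s U0 R m zd zx hR fun x hx => (hzz x hx).1
  have hJ : J.Finite := (hb.2 r.s ov.co.ok0).1.subset fun x hx => by
    rw [sg.sides] at hx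
    exact hx.1.2
  have vc : r.Vc k q D l U0 R m w0 zd zb s' J φ0 := ⟨ov.co, tw, ⟨zx, hR⟩, hzz, sg⟩
  exact ⟨_, _, hB σ r k D U0 R m zd zb s' J hJ φ0 vc (hA σ r k q D l U0 R m w0 zd zb s' J hJ φ0 vc)⟩

end HB

end Pool.Agent.MP_9d78a0_co.gm

end MrgPart3

-- ======== part 4: formerly Pool.Agent.MP_9d78a0_co.gm.HV2a
section MrgPart4

/-! Block H: the two sides of the top lane, local analysis. -/

set_option autoImplicit false

namespace Pool.Agent.MP_9d78a0_co.gm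

open Set Function Cy Gph

namespace hv2

theorem z2_ne {a b : ZMod 2} (h : a ≠ b) : a = b + 1 := by revert a b; decide

theorem z2_01 : (0 : ZMod 2) ≠ 1 := by decide

section gen

variable {Φ V : Type} {M : FM Φ} {vx : Φ → V}

theorem eo_iff (hM : M.Ok) {x y : Φ} (hx : x ∈ M.S) :
    y ∈ M.eo x ↔ (y = x ∨ y = M.c x) ∨ y = M.a x ∨ y = M.c (M.a x) := by
  rw [FM.mem_eo hM hx, hM.comm hx]
  tauto

theorem path_cv (hM : M.Ok) (raw : ℕ → Φ) (P : ℕ → V) (L : ℕ)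
    (h1 : ∀ i < L, raw i ∈ M.S ∧ vx (raw i) = P i ∧ vx (M.a (raw i)) = P (i + 1))
    (h2 : ∀ i < L, ∀ j < L, raw j ∈ M.eo (raw i) → i = j) :
    ∃ oc, M.Cv vx ∅ univ (P 0) (P L) 0 oc ∧ ∀ f ∈ M.S, oc f = 1 ↔ ∃ i < L, f ∈ M.eo (raw i) := by
  induction L with
  | zero => exact ⟨0, .nil _, fun f _ => ⟨fun e => absurd e z2_01, fun ⟨_, h, _⟩ => absurd h (by omega)⟩⟩
  | succ L ih =>
    obtain ⟨oc, c1, c2⟩ := ih (fun i hi => h1 i (by omega)) fun i hi j hj => h2 i (by omega) j (by omega)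
    obtain ⟨a1, a2, a3⟩ := h1 L (by omega)
    refine ⟨_, a3 ▸ c1.edge (raw L) a1 a2 (mem_univ _), fun f hf => ?_⟩
    rw [add_assoc, Pi.add_apply]
    by_cases e : f ∈ M.eo (raw L)
    · rw [HCur.wt1 hM.ic a1 (hM.a_mem a1) (hM.a_ne a1) (hM.a_ne_c a1) ((eo_iff hM a1).1 e)]
      refine ⟨fun _ => ⟨L, by omega, e⟩, fun _ => ?_⟩
      rcases z2_cases (oc f) with k | k
      · rw [k, zero_add]
      · obtain ⟨i, hi, m⟩ := (c2 f hf).1 k
        have := h2 i (by omega) L (by omega)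
          (orb_trans m (orb_symm hM.ia.inv0 hM.ic.inv0 a1 e))
        omega
    · have e' := mt (eo_iff hM a1).2 e
      rw [HCur.wt0 (fun k => e' (Or.inl k)) (fun k => e' (Or.inr k)), add_zero, c2 f hf]
      refine ⟨fun ⟨i, hi, m⟩ => ⟨i, by omega, m⟩, fun ⟨i, hi, m⟩ => ⟨i, ?_, m⟩⟩
      rcases Nat.lt_succ_iff_lt_or_eq.1 hi with k | rfl
      · exact k
      · exact absurd m e

theorem cst {A : Type} {φ : Φ → A} {p q : Φ → Φ} {f : Φ} (hb : ∀ g ∈ orb p q f, φ (p g) = φ g)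
    (hc : ∀ g ∈ orb p q f, φ (q g) = φ g) : ∀ g ∈ orb p q f, φ g = φ f := by
  intro g hg
  induction hg with
  | refl => rfl
  | tail m e ih =>
    rcases e with rfl | rfl
    · exact (hb _ m).trans ih
    · exact (hc _ m).trans ih

theorem vo_mem (hM : M.Ok) {f g : Φ} (hf : f ∈ M.S) (hg : g ∈ M.vo f) : g ∈ M.S :=
  orb_mem hM.ib.inv0 hM.ic.inv0 hf hg

theorem fo_mem (hM : M.Ok) {f g : Φ} (hf : f ∈ M.S) (hg : g ∈ M.fo f) : g ∈ M.S :=
  orb_mem hM.ia.inv0 hM.ib.inv0 hf hg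

theorem seven {α : Type} {T : Set α} (fin : T.Finite) (h : T.ncard ≤ 6) {a b c d e f g : α}
    (m : a ∈ T ∧ b ∈ T ∧ c ∈ T ∧ d ∈ T ∧ e ∈ T ∧ f ∈ T ∧ g ∈ T)
    (n : [a, b, c, d, e, f, g].Nodup) : False := by
  classical
  have h1 : (↑([a, b, c, d, e, f, g].toFinset) : Set α) ⊆ T := by
    intro x hx
    simp only [List.coe_toFinset, List.mem_cons, List.not_mem_nil, or_false, mem_ofPred] at hx
    rcases hx with rfl | rfl | rfl | rfl | rfl | rfl | rfl <;> tauto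
  have h2 := ncard_le_ncard h1 fin
  rw [ncard_coe_finset, List.toFinset_card_of_nodup n] at h2
  simp only [List.length_cons, List.length_nil] at h2
  omega

end gen

/-- the lane, its edges and the colouring -/
structure Dt (s : Sk) (z : Zg s) (U0 Z : Set MV) (N a b : ℕ) (P : ℕ → MV) (ed : ℕ → s.Φ)
    (χ : s.Φ → ZMod 2) : Prop where
  ok : s.Ok0
  geo : z.Geo U0
  hole : z.x ∈ s.H
  ginj : ∀ i ≤ z.m + 1, ∀ j ≤ z.m + 1, z.γ i = z.γ j → i = j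
  low : ∀ i ≤ z.rr + 1, z.γ i ∈ s.Lv z.x (z.rr + 1)
  qv : ∀ i, 1 ≤ i → i ≤ z.m → z.q i ∈ s.M.vo (z.p i) ∧ z.q i ≠ z.p i ∧ z.q i ≠ s.M.b (z.p i)
  lc : ∀ f ∈ s.M.S, z.lam (s.M.c f) = z.lam f
  zn : Z ⊆ s.Nd
  pos : 0 < N
  ra : z.rr + 2 ≤ a ∧ a ≤ z.m
  rb : z.rr + 2 ≤ b ∧ b ≤ z.m
  gz : ∀ i, min a b ≤ i → i ≤ max a b → z.γ i ∈ Z
  edg : ∀ i < 2 * N, ed i ∈ s.M.S ∧ s.vx (ed i) = P i ∧ s.vx (s.M.a (ed i)) = P (i + 1) ∧
    χ (ed i) = 1 ∧ χ (s.M.c (ed i)) = 0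
  pa : Pot s.M.S s.M.a 0 χ
  b0 : ∀ f ∈ s.M.S, χ (s.M.b f) ≠ χ f → ∃ i, min a b ≤ i ∧ i ≤ max a b ∧ s.vx f = z.γ i
  bv : ∀ j ≤ z.m, ∀ f ∈ s.M.vo (z.p j), χ (s.M.b f) = χ f +
    ((if min a b ≤ j ∧ j < max a b then one s.M.b (z.p j) f else 0) +
      if min a b < j ∧ j ≤ max a b then one s.M.b (z.q j) f else 0)
  face : ∀ j ≤ z.m, χ (z.p j) = χ (z.q (j + 1))
  pc : ∀ f ∈ s.M.S, χ (s.M.c f) ≠ χ f → ∃ i < 2 * N, f ∈ s.M.eo (ed i)
  p0 : P 0 = z.γ a ∧ z.lam (ed 0) = 0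
  pn : P (2 * N) = z.γ b ∧ z.lam (s.M.a (ed (2 * N - 1))) = 1
  nd : ∀ i ≤ N, P (2 * i) ∈ Z \ s.Lv z.x (z.rr + 1)
  mid : ∀ i, 0 < i → i < N → P (2 * i) ∉ z.Γ z.m
  cell : ∀ i < N, P (2 * i + 1) ∈ s.Ce \ z.Fi
  inj : ∀ i < 2 * N, ∀ j < 2 * N, P i = P j → i = j
  ne : ∀ i, i + 1 < 2 * N → s.M.a (ed i) ≠ ed (i + 1)

variable {s : Sk} {z : Zg s} {U0 Z : Set MV} {N a b : ℕ} {P : ℕ → MV} {ed : ℕ → s.Φ}
  {χ : s.Φ → ZMod 2} {f g : s.Φ}

theorem ce_nd {y : MV} (h : y ∈ s.Ce) : y ∉ s.Nd := by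
  rintro ⟨-, v, rfl⟩
  obtain ⟨n, e⟩ := h.1.2
  cases e

namespace Dt

variable (D : Dt s z U0 Z N a b P ed χ)
include D

theorem hM : s.M.Ok := D.ok.hm.ok

theorem hL : s.M.Lbl s.vx := D.ok.hm.lbl

theorem xa (hf : f ∈ s.M.S) : χ (s.M.a f) = χ f := (D.pa f hf).trans (add_zero _)

theorem gnd {i : ℕ} (h1 : 1 ≤ i) (h2 : i ≤ z.m + 1) : z.γ i ∈ s.Nd := by
  obtain ⟨j, rfl⟩ : ∃ j, i = j + 1 := ⟨i - 1, by omega⟩
  exact (D.geo.pm j (by omega)).2.2.2.2.2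

theorem ae1 {i : ℕ} (hi : i < 2 * N) : χ (s.M.a (ed i)) = 1 ∧ χ (s.M.c (s.M.a (ed i))) = 0 := by
  obtain ⟨h1, -, -, h4, h5⟩ := D.edg i hi
  rw [← D.hM.comm h1, D.xa h1, D.xa (D.hM.c_mem h1)]
  exact ⟨h4, h5⟩

theorem chg (hf : f ∈ s.M.S) (h : χ (s.M.c f) ≠ χ f) : ∃ i < 2 * N,
    (s.vx f = P i ∧ s.vx (s.M.a f) = P (i + 1) ∧ (f = ed i ∨ f = s.M.c (ed i))) ∨
    (s.vx f = P (i + 1) ∧ s.vx (s.M.a f) = P i ∧
      (f = s.M.a (ed i) ∨ f = s.M.c (s.M.a (ed i)))) := by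
  obtain ⟨i, hi, m⟩ := D.pc f hf h
  obtain ⟨h1, h2, h3, -⟩ := D.edg i hi
  have hM := D.hM
  refine ⟨i, hi, ?_⟩
  rcases (eo_iff hM h1).1 m with (rfl | rfl) | rfl | rfl
  · exact Or.inl ⟨h2, h3, Or.inl rfl⟩
  · exact Or.inl ⟨by rw [vx_c hM D.hL h1, h2],
      by rw [hM.comm h1, vx_c hM D.hL (hM.a_mem h1), h3], Or.inr rfl⟩
  · exact Or.inr ⟨h3, by rw [hM.aa h1, h2], Or.inl rfl⟩
  · exact Or.inr ⟨by rw [vx_c hM D.hL (hM.a_mem h1), h3],
      by rw [hM.comm (hM.a_mem h1), hM.aa h1, vx_c hM D.hL h1, h2], Or.inr rfl⟩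

theorem chg1 (hf : f ∈ s.M.S) (h1 : χ f = 1) (h0 : χ (s.M.c f) = 0) : ∃ i < 2 * N,
    (s.vx f = P i ∧ f = ed i) ∨ (s.vx f = P (i + 1) ∧ f = s.M.a (ed i)) := by
  obtain ⟨i, hi, ⟨e, -, k | k⟩ | ⟨e, -, k | k⟩⟩ := D.chg hf (by rw [h0, h1]; exact z2_01)
  · exact ⟨i, hi, Or.inl ⟨e, k⟩⟩
  · exact absurd ((D.edg i hi).2.2.2.2.symm.trans (k ▸ h1)) z2_01
  · exact ⟨i, hi, Or.inr ⟨e, k⟩⟩
  · exact absurd ((D.ae1 hi).2.symm.trans (k ▸ h1)) z2_01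

theorem chgZ (hf : f ∈ s.M.S) (h : χ (s.M.c f) ≠ χ f) : s.vx f ∈ Z ∨ s.vx (s.M.a f) ∈ Z := by
  obtain ⟨i, hi, k⟩ := D.chg hf h
  have : P i ∈ Z ∨ P (i + 1) ∈ Z := by
    rcases Nat.even_or_odd' i with ⟨j, rfl | rfl⟩
    · exact Or.inl (D.nd j (by omega)).1
    · exact Or.inr (D.nd (j + 1) (by omega)).1
  rcases k with ⟨e1, e2, -⟩ | ⟨e1, e2, -⟩ <;> rw [e1, e2]
  · exact this
  · exact this.symm

theorem pg {i j : ℕ} (hi : i ≤ 2 * N) (h1 : z.rr + 2 ≤ j) (h2 : j ≤ z.m) (e : P i = z.γ j) :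
    i = 0 ∨ i = 2 * N := by
  rcases Nat.even_or_odd' i with ⟨k, rfl | rfl⟩
  · by_contra c
    exact D.mid k (by omega) (by omega) ⟨j, h1, h2, e⟩
  · exact absurd (e ▸ D.gnd (by omega) (by omega)) (ce_nd (D.cell k (by omega)).1)

theorem pinj {i j : ℕ} (hi : i ≤ 2 * N) (h0 : 0 < j) (hj : j < 2 * N) (e : P i = P j) : i = j := by
  rcases hi.lt_or_eq with k | rfl
  · exact D.inj i k j hj e
  · have := D.pg hj.le D.rb.1 D.rb.2 (e.symm.trans D.pn.1)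
    omega

theorem free {v : MV} (h1 : ∀ i ≤ 2 * N, P i ≠ v)
    (h2 : ∀ i, min a b ≤ i → i ≤ max a b → z.γ i ≠ v) (hf : f ∈ s.M.S) (hg : g ∈ s.M.S)
    (e1 : s.vx f = v) (e2 : s.vx g = v) : χ f = χ g := by
  have k : ∀ u ∈ s.M.vo f, u ∈ s.M.S ∧ s.vx u = v := fun u hu =>
    ⟨vo_mem D.hM hf hu, ((D.hL f hf u (vo_mem D.hM hf hu)).2 hu).symm.trans e1⟩
  refine (cst (φ := χ) (fun u hu => ?_) (fun u hu => ?_) g
    ((D.hL f hf g hg).1 (e1.trans e2.symm))).symm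
  · by_contra c
    obtain ⟨i, a1, a2, a3⟩ := D.b0 u (k u hu).1 c
    exact h2 i a1 a2 (a3.symm.trans (k u hu).2)
  · by_contra c
    obtain ⟨i, hi, ⟨e, -⟩ | ⟨e, -⟩⟩ := D.chg (k u hu).1 c
    · exact h1 i hi.le (e.symm.trans (k u hu).2)
    · exact h1 (i + 1) hi (e.symm.trans (k u hu).2)

theorem rng {i : ℕ} (h1 : min a b ≤ i) (h2 : i ≤ max a b) : z.rr + 2 ≤ i ∧ i ≤ z.m := by
  have := D.ra
  have := D.rb
  omega

theorem es : s.M.Es (s.Ux χ) := by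
  have hM := D.hM
  refine ⟨fun _ k => k.1, fun f hf => ⟨⟨hM.a_mem hf.1, ?_⟩, hM.c_mem hf.1, ?_⟩⟩
  · rw [← hM.comm hf.1, D.xa hf.1, D.xa (hM.c_mem hf.1)]
    exact hf.2
  · rw [hM.cc hf.1]
    exact hf.2.symm

theorem step {i : ℕ} (hi : i + 1 < 2 * N) : (s.M.sub (s.Ux χ)).b (s.M.a (ed i)) = ed (i + 1) := by
  have hM := D.hM
  obtain ⟨h1, -, h3, -⟩ := D.edg i (by omega)
  have hx := hM.a_mem h1
  have hU : s.M.a (ed i) ∈ s.Ux χ := ⟨hx, Or.inr (D.ae1 (by omega)).2⟩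
  have m1 : (s.M.sub (s.Ux χ)).b (s.M.a (ed i)) ∈ s.Ux χ := FM.minor_b_mem hM D.es FM.cl_empty hU
  have m2 : (s.M.sub (s.Ux χ)).b (s.M.a (ed i)) ≠ s.M.a (ed i) :=
    ((hM.sub D.es).ib _ hU).2.2
  have m3 := (FM.sub_b_R hM D.es hU).ind (p := fun u => s.vx u = P (i + 1) ∧ χ u = 1) hM hx
    ⟨h3, (D.ae1 (by omega)).1⟩ (fun u hu k => ⟨(vx_b hM D.hL hu).trans k.1, by
      by_contra c
      obtain ⟨j, a1, a2, a3⟩ := D.b0 u hu (by rw [k.2]; exact c)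
      have := D.pg hi.le (D.rng a1 a2).1 (D.rng a1 a2).2 (k.1.symm.trans a3)
      omega⟩) (fun _ _ k => k.elim) fun u hu n k => ⟨(vx_c hM D.hL hu).trans k.1,
        (z2_cases _).resolve_left fun c => n ⟨hu, Or.inr c⟩⟩
  generalize (s.M.sub (s.Ux χ)).b (s.M.a (ed i)) = u at m1 m2 m3
  obtain ⟨j, hj, ⟨e, k⟩ | ⟨e, k⟩⟩ :=
    D.chg1 m1.1 m3.2 (m1.2.resolve_left (by rw [m3.2]; exact z2_01.symm))
  · rw [k, D.pinj hj.le (by omega) hi (e.symm.trans m3.1)]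
  · have := D.pinj hj (by omega) hi (e.symm.trans m3.1)
    obtain rfl : j = i := by omega
    exact absurd k m2

theorem nonnode (hf : f ∈ s.M.S) (hg : g ∈ s.M.S) (e : s.vx g = s.vx f) (n : s.vx f ∉ s.Nd)
    (h1 : χ (s.M.c f) = χ f) (h2 : χ (s.M.c g) = χ g) : χ f = χ g := by
  have hM := D.hM
  by_cases c : ∃ i < N, s.vx f = P (2 * i + 1)
  · obtain ⟨i, hi, ei⟩ := c
    by_contra ne
    obtain ⟨a1, -, a3, -⟩ := D.edg (2 * i) (by omega)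
    obtain ⟨b1, b2, -, b4, b5⟩ := D.edg (2 * i + 1) (by omega)
    obtain ⟨a4, a5⟩ := D.ae1 (i := 2 * i) (by omega)
    have a6 := D.ne (2 * i) (by omega)
    have hA := hM.a_mem a1
    generalize s.M.a (ed (2 * i)) = A at a3 a4 a5 a6 hA
    generalize ed (2 * i + 1) = B at b1 b2 b4 b5 a6
    have mA : A ∈ s.M.vo f := (D.hL f hf A hA).1 (ei.trans a3.symm)
    have mB : B ∈ s.M.vo f := (D.hL f hf B b1).1 (ei.trans b2.symm)
    have c1 := hM.cc hA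
    have c2 := hM.cc b1
    have c3 := hM.c_ne hf
    have c4 := hM.cc hf
    have z := z2_01
    refine seven (hM.fin.subset fun u hu => vo_mem hM hf hu)
      (D.ok.deg f hf n (ei ▸ fun k => (D.cell i hi).1.2 (Or.inl k)))
      ⟨mA, orb_q mA, mB, orb_q mB, orb_self _ _ _, orb_q (orb_self _ _ _),
        (D.hL f hf g hg).1 e.symm⟩ ?_
    simp only [List.nodup_cons, List.mem_cons, List.not_mem_nil, or_false, not_or,
      not_false_eq_true, List.nodup_nil, and_true]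
    refine ⟨⟨?_, ?_, ?_, ?_, ?_, ?_⟩, ⟨?_, ?_, ?_, ?_, ?_⟩, ⟨?_, ?_, ?_, ?_⟩, ⟨?_, ?_, ?_⟩,
      ⟨?_, ?_⟩, ?_⟩ <;> grind
  · refine D.free (fun i hi k => ?_) (fun i a1 a2 k => ?_) hf hg rfl e
    · rcases Nat.even_or_odd' i with ⟨j, rfl | rfl⟩
      · exact n (k ▸ D.zn (D.nd j (by omega)).1)
      · exact c ⟨j, by omega, k.symm⟩
    · exact n (k ▸ D.zn (D.gz i a1 a2))

theorem offZ (hf : f ∈ s.M.S) (hg : g ∈ s.M.S) (e : s.vx g = s.vx f) (n : s.vx f ∉ Z)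
    (h1 : s.vx (s.M.a f) ∉ Z) (h2 : s.vx (s.M.a g) ∉ Z) : χ f = χ g := by
  by_cases c : s.vx f ∈ s.Nd
  · refine D.free (fun i hi k => ?_) (fun i a1 a2 k => n (by rw [← k]; exact D.gz i a1 a2)) hf hg rfl e
    rcases Nat.even_or_odd' i with ⟨j, rfl | rfl⟩
    · exact n (k ▸ (D.nd j (by omega)).1)
    · exact ce_nd (D.cell j (by omega)).1 (k ▸ c)
  · exact D.nonnode hf hg e c (by_contra fun k => (D.chgZ hf k).elim n h1)
      (by_contra fun k => (D.chgZ hg k).elim (e ▸ n) h2)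

theorem prop {K : Set MV} (d : Disjoint K Z) {u v : MV} (l : Link s.G K u v)
    (h : ∀ f ∈ s.M.S, s.vx f = u → s.vx (s.M.a f) ∉ Z → χ f = 0) :
    ∀ f ∈ s.M.S, s.vx f = v → s.vx (s.M.a f) ∉ Z → χ f = 0 := by
  have hM := D.hM
  refine hnf.link_ind (fun v => ∀ f ∈ s.M.S, s.vx f = v → s.vx (s.M.a f) ∉ Z → χ f = 0) ?_ l h
  intro x hx y hy e q f hf e1 e2
  obtain ⟨u, hu, a1, a2⟩ : ∃ u ∈ s.M.S, s.vx u = x ∧ s.vx (s.M.a u) = y := by
    obtain ⟨-, u, hu, k | k⟩ := e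
    · exact ⟨u, hu, k⟩
    · exact ⟨_, hM.a_mem hu, k.2, by rw [hM.aa hu]; exact k.1⟩
  rw [D.offZ hf (hM.a_mem hu) (a2.trans e1.symm) (e1 ▸ disjoint_left.1 d hy) e2
    (by rw [hM.aa hu, a1]; exact disjoint_left.1 d hx), D.xa hu]
  exact q u hu a1 (a2 ▸ disjoint_left.1 d hy)

section arcs

variable {j : ℕ} (h1 : z.rr + 2 ≤ j) (h2 : j ≤ z.m)
include h1 h2

theorem arc_b (hf : f ∈ s.M.vo (z.p j)) (e : z.lam (s.M.b f) = z.lam f) : χ (s.M.b f) = χ f := by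
  have hp := (D.geo.pm j h2).1
  obtain ⟨q1, q2, q3⟩ := D.qv j (by omega) h2
  have k := (D.geo.side j h1 h2).2.1 f hf
  rw [e, add_comm (one _ _)] at k
  have w := fun c => HCur.wt1 D.hM.ib hp (vo_mem D.hM hp q1) q2 q3 (y := f) c
  have n : ¬ ((f = z.p j ∨ f = s.M.b (z.p j)) ∨ f = z.q j ∨ f = s.M.b (z.q j)) := fun c => by
    rw [w c] at k
    revert k
    generalize z.lam f = t
    revert t
    decide
  rw [D.bv j h2 f hf, one, one, if_neg fun c => n (Or.inl c), if_neg fun c => n (Or.inr c)]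
  simp

theorem arc_c (hf : f ∈ s.M.vo (z.p j)) (e : χ (s.M.c f) ≠ χ f) :
    (j = a ∧ z.lam f = 0 ∧ (f = ed 0 ∨ f = s.M.c (ed 0))) ∨ (j = b ∧ z.lam f = 1) := by
  obtain ⟨hp, vp, -⟩ := D.geo.pm j h2
  have fS := vo_mem D.hM hp hf
  have vf : s.vx f = z.γ j := ((D.hL _ hp f fS).2 hf).symm.trans vp
  have := D.pos
  have := D.ra
  have := D.rb
  obtain ⟨i, hi, ⟨e1, -, k⟩ | ⟨e1, -, k⟩⟩ := D.chg fS e
  · have := D.pg hi.le h1 h2 (e1.symm.trans vf)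
    obtain rfl : i = 0 := by omega
    refine Or.inl ⟨D.ginj j (by omega) a (by omega) (vf.symm.trans (e1.trans D.p0.1)), ?_, k⟩
    rcases k with rfl | rfl
    · exact D.p0.2
    · exact (D.lc _ (D.edg 0 hi).1).trans D.p0.2
  · have := D.pg hi h1 h2 (e1.symm.trans vf)
    obtain rfl : i = 2 * N - 1 := by omega
    rw [show 2 * N - 1 + 1 = 2 * N by omega] at e1
    refine Or.inr ⟨D.ginj j (by omega) b (by omega) (vf.symm.trans (e1.trans D.pn.1)), ?_⟩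
    rcases k with rfl | rfl
    · exact D.pn.2
    · exact (D.lc _ (D.hM.a_mem (D.edg _ hi).1)).trans D.pn.2

theorem cyc (t : ZMod 2) :
    (∀ (A : Type) (φ : s.Φ → A), (∀ y ∈ s.M.vo (z.p j), z.lam y = t → φ (s.M.c y) = φ y) →
      (∀ y ∈ s.M.vo (z.p j), z.lam y = t → z.lam (s.M.b y) = t → φ (s.M.b y) = φ y) →
      ∀ y ∈ s.M.vo (z.p j), ∀ y' ∈ s.M.vo (z.p j), z.lam y = t → z.lam y' = t → φ y = φ y') ∧
    ∀ d ∈ s.M.vo (z.p j), z.lam d = t → ∀ ψ : s.Φ → ZMod 2,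
      (∀ y ∈ s.M.vo (z.p j), z.lam y = t → ψ (s.M.c y) = ψ y + one s.M.c d y) →
      (∀ y ∈ s.M.vo (z.p j), z.lam y = t → z.lam (s.M.b y) = t → ψ (s.M.b y) = ψ y) →
      ∀ h h', (h = z.p j ∨ h = s.M.b (z.p j)) → (h' = z.q j ∨ h' = s.M.b (z.q j)) →
        z.lam h = t → z.lam h' = t → ψ h' = ψ h + 1 := by
  have hp := (D.geo.pm j h2).1
  obtain ⟨q1, q2, q3⟩ := D.qv j (by omega) h2
  obtain ⟨s1, s2, -⟩ := D.geo.side j h1 h2
  have e : s.M.vo (z.p j) = orb s.M.c s.M.b (z.p j) := orb_comm _ _ _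
  rw [add_comm] at s2
  rw [e] at q1 s1 s2 ⊢
  exact (cycS _ s.M.S s.M.c s.M.b (z.p j) D.hM.fin D.hM.ic D.hM.ib hp).2.2 _ (orb_self _ _ _)
    _ q1 q2 q3 z.lam s1 s2 t

theorem arc_cst (t : ZMod 2) (ha : t = 0 → j ≠ a) (hb : t = 1 → j ≠ b) (hf : f ∈ s.M.vo (z.p j))
    (hg : g ∈ s.M.vo (z.p j)) (e1 : z.lam f = t) (e2 : z.lam g = t) : χ f = χ g := by
  refine (D.cyc h1 h2 t).1 _ χ (fun y hy e => ?_)
    (fun y hy e e' => D.arc_b h1 h2 hy (e'.trans e.symm)) f hf g hg e1 e2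
  by_contra c
  rcases D.arc_c h1 h2 hy c with k | k
  · exact ha (e.symm.trans k.2.1) k.1
  · exact hb (e.symm.trans k.2) k.1

theorem lam_b : z.lam (s.M.b (z.p j)) = 1 ∧ z.lam (s.M.b (z.q j)) = 1 := by
  have hp := (D.geo.pm j h2).1
  obtain ⟨q1, q2, q3⟩ := D.qv j (by omega) h2
  obtain ⟨-, s2, s3, s4⟩ := D.geo.side j h1 h2
  have w := fun y c => HCur.wt1 D.hM.ib hp (vo_mem D.hM hp q1) q2 q3 (y := y) c
  rw [s2 _ (orb_self _ _ _), s2 _ q1, add_comm (one _ _), w _ (Or.inl (Or.inl rfl)),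
    w _ (Or.inr (Or.inl rfl)), s3, s4]
  exact ⟨zero_add _, zero_add _⟩

end arcs

theorem ed0 : ed 0 ∈ s.M.vo (z.p a) := by
  obtain ⟨hp, vp, -⟩ := D.geo.pm a D.ra.2
  obtain ⟨e1, e2, -⟩ := D.edg 0 (by have := D.pos; omega)
  exact (D.hL _ hp _ e1).1 (vp.trans (e2.trans D.p0.1).symm)

theorem arc_a (ψ : s.Φ → ZMod 2)
    (hc : ∀ y ∈ s.M.vo (z.p a), χ (s.M.c y) = χ y → ψ (s.M.c y) = ψ y)
    (hd : ψ (s.M.c (ed 0)) = ψ (ed 0) + 1)
    (hb : ∀ y ∈ s.M.vo (z.p a), χ (s.M.b y) = χ y → ψ (s.M.b y) = ψ y) :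
    ψ (z.q a) = ψ (z.p a) + 1 := by
  obtain ⟨h1, h2⟩ := D.ra
  obtain ⟨-, -, s3, s4⟩ := D.geo.side a h1 h2
  obtain ⟨e1, -, -, e4, e5⟩ := D.edg 0 (by have := D.pos; omega)
  refine (D.cyc h1 h2 0).2 (ed 0) D.ed0 D.p0.2 ψ (fun y hy e => ?_)
    (fun y hy e e' => hb y hy (D.arc_b h1 h2 hy (e'.trans e.symm))) _ _ (Or.inl rfl) (Or.inl rfl)
    s3 s4
  by_cases c : y = ed 0 ∨ y = s.M.c (ed 0)
  · rw [one, if_pos c]
    rcases c with rfl | rfl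
    · exact hd
    · rw [D.hM.cc e1, hd, add_assoc, z2_add_self, add_zero]
  · rw [one, if_neg c, add_zero]
    refine hc y hy (by_contra fun k => ?_)
    rcases D.arc_c h1 h2 hy k with k | k
    · exact c k.2.2
    · exact z2_01 (e.symm.trans k.2)

section col

variable (top : χ (z.q (z.m + 1)) = 0)
include top

theorem col_q {j : ℕ} (h1 : z.rr + 2 ≤ j) (h2 : j ≤ z.m + 1) :
    χ (z.q j) = if j ≤ a then 1 else 0 := by
  have ra := D.ra
  induction h2 using Nat.decreasingInduction with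
  | self => rw [top, if_neg (by omega)]
  | of_succ k hk ih =>
    have k2 : k ≤ z.m := by omega
    have e := (D.face k k2).trans (ih (by omega))
    obtain ⟨-, -, s3, s4⟩ := D.geo.side k h1 k2
    by_cases c : k = a
    · subst c
      obtain ⟨-, -, -, e4, e5⟩ := D.edg 0 (by have := D.pos; omega)
      rw [D.arc_a χ (fun _ _ k => k) (by rw [e4, e5]; decide) (fun _ _ k => k), e,
        if_neg (by omega), if_pos le_rfl, zero_add]
    · rw [← D.arc_cst h1 k2 0 (fun _ => c) (fun k => absurd k z2_01) (orb_self _ _ _)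
        (D.qv k (by omega) k2).1 s3 s4, e]
      exact if_congr (by omega) rfl rfl

theorem col_p {j : ℕ} (h1 : z.rr + 1 ≤ j) (h2 : j ≤ z.m) :
    χ (z.p j) = if j < a then 1 else 0 :=
  (D.face j h2).trans (D.col_q top (by omega) (by omega))

theorem col_bp {j : ℕ} (h1 : z.rr + 2 ≤ j) (h2 : j ≤ z.m) :
    χ (s.M.b (z.p j)) = if j < b then 1 else 0 := by
  obtain ⟨q1, q2, q3⟩ := D.qv j (by omega) h2
  have hp := (D.geo.pm j h2).1
  have e := D.hM.bb (vo_mem D.hM hp q1)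
  have n : ¬ (z.p j = z.q j ∨ z.p j = s.M.b (z.q j)) := by
    rintro (k | k)
    · exact q2 k.symm
    · exact q3 (by rw [k, e])
  rw [D.bv j h2 _ (orb_self _ _ _), D.col_p top (by omega) h2, one, one, if_pos (Or.inl rfl),
    if_neg n]
  split_ifs <;> first | rfl | omega

theorem col_low {j : ℕ} (h : j ≤ z.rr + 1) (hf : f ∈ s.M.S) (e : s.vx f = z.γ j) : χ f = 1 := by
  have ra := D.ra
  have fr : ∀ k ≤ z.rr + 1, ∀ u ∈ s.M.S, s.vx u = z.γ k → χ u = χ (z.p k) := by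
    intro k hk u hu e
    obtain ⟨hp, vp, -⟩ := D.geo.pm k (by omega)
    refine D.free (fun i hi c => ?_) (fun i a1 a2 c => ?_) hu hp e vp
    · rcases Nat.even_or_odd' i with ⟨l, rfl | rfl⟩
      · exact (D.nd l (by omega)).2 (c ▸ D.low k hk)
      · rcases Nat.eq_zero_or_pos k with rfl | k0
        · exact (D.cell l (by omega)).1.2 (Or.inl (by rw [c, D.geo.g0]; exact D.hole))
        · exact ce_nd (D.cell l (by omega)).1 (c ▸ D.gnd k0 (by omega))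
    · have := D.rng a1 a2
      have := D.ginj i (by omega) k (by omega) c
      omega
  rw [fr j h f hf e]
  clear e
  induction h using Nat.decreasingInduction with
  | self => rw [D.col_p top le_rfl (by omega), if_pos (by omega)]
  | of_succ k hk ih =>
    obtain ⟨hp, -, m, vq, -⟩ := D.geo.pm k (by omega)
    rw [D.face k (by omega), fr (k + 1) hk _ (fo_mem D.hM hp m) vq, ih]

end col

end Dt

end hv2

end Pool.Agent.MP_9d78a0_co.gm

end MrgPart4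

-- ======== part 5: formerly Pool.Agent.MP_9d78a0_co.gm.HV2b
section MrgPart5

/-! Block H: the top lane, its colouring and the region inside. -/

set_option autoImplicit false

namespace Pool.Agent.MP_9d78a0_co.gm

open Set Function Cy Gph

namespace hv2

theorem ilv {A : Type} (u v : ℕ → A) :
    ∃ w : ℕ → A, (∀ i, w (2 * i) = u i) ∧ ∀ i, w (2 * i + 1) = v i :=
  ⟨fun i => if i % 2 = 0 then u (i / 2) else v (i / 2), fun i => by simp, fun i => by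
    beta_reduce
    rw [if_neg (by omega), show (2 * i + 1) / 2 = i by omega]⟩

theorem nd_inl {s : Sk} {v : MV} (h : v ∈ s.Nd) : Sum.inl (nodeOf v) = v := by
  obtain ⟨-, a, rfl⟩ := h
  rfl

theorem cp_c {s : Sk} {z : Zg s} (ok : s.Ok0) (lc : ∀ f ∈ s.M.S, z.lam (s.M.c f) = z.lam f)
    {f : s.Φ} (hf : f ∈ s.M.S) : z.cp (s.M.c f) = z.cp f :=
  Prod.ext (congrArg nodeOf (vx_c ok.hm.ok ok.hm.lbl hf)) (lc f hf)

variable {s : Sk} {z : Zg s} {U0 Z : Set MV} {N a b : ℕ} {P : ℕ → MV} {ed : ℕ → s.Φ}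
  {χ : s.Φ → ZMod 2} {f g : s.Φ}

theorem Dt.regs (D : Dt s z U0 Z N a b P ed χ) (top : χ (z.q (z.m + 1)) = 0) {p : s.Φ}
    (hp : p ∈ s.M.S) (e : s.vx p = z.x) : ed 0 ∈ s.M.reg (s.Ux χ) p ∧
      ∀ j, z.rr + 2 ≤ j → j ≤ max a b → ∃ f ∈ s.M.reg (s.Ux χ) p, s.vx f = z.γ j := by
  classical
  have hM := D.hM
  have ra := D.ra
  have rb := D.rb
  have p0 : p ∈ s.M.reg (s.Ux χ) p := Relation.ReflTransGen.refl
  have fa : ∀ u ∈ s.M.reg (s.Ux χ) p, s.M.a u ∈ s.M.reg (s.Ux χ) p :=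
    fun u k => Relation.ReflTransGen.tail k (Or.inl rfl)
  have fb : ∀ u ∈ s.M.reg (s.Ux χ) p, s.M.b u ∈ s.M.reg (s.Ux χ) p :=
    fun u k => Relation.ReflTransGen.tail k (Or.inr (Or.inl rfl))
  have fc : ∀ u ∈ s.M.reg (s.Ux χ) p, χ u = 1 → χ (s.M.c u) = 1 →
      s.M.c u ∈ s.M.reg (s.Ux χ) p := fun u k h1 h2 =>
    Relation.ReflTransGen.tail k (Or.inr (Or.inr ⟨fun c => c.2.elim
      (fun c => z2_01 (c.symm.trans h1)) fun c => z2_01 (c.symm.trans h2), rfl⟩))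
  generalize s.M.reg (s.Ux χ) p = R at p0 fa fb fc ⊢
  have mb : ∀ u ∈ s.M.S, (s.M.b u ∈ R) = (u ∈ R) := fun u hu =>
    propext ⟨fun k => hM.bb hu ▸ fb _ k, fb u⟩
  have mc : ∀ u ∈ s.M.S, χ u = 1 → χ (s.M.c u) = 1 → (s.M.c u ∈ R) = (u ∈ R) := fun u hu h1 h2 =>
    propext ⟨fun k => hM.cc hu ▸ fc _ k h2 (by rw [hM.cc hu]; exact h1), fun k => fc u k h1 h2⟩
  have fac : ∀ j ≤ z.m, z.p j ∈ R → z.q (j + 1) ∈ R := fun j hj k =>
    orb_ind (P := fun u => u ∈ R) (D.geo.pm j hj).2.2.1 k fa fb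
  have allv : ∀ j ≤ z.rr + 1, ∀ u ∈ s.M.S, s.vx u = z.γ j → u ∈ R →
      ∀ w ∈ s.M.S, s.vx w = z.γ j → w ∈ R := by
    intro j hj u hu e1 k w hw e2
    have v : ∀ y ∈ s.M.vo u, y ∈ s.M.S ∧ χ y = 1 := fun y hy => ⟨vo_mem hM hu hy,
      D.col_low top hj (vo_mem hM hu hy) (((D.hL u hu y (vo_mem hM hu hy)).2 hy).symm.trans e1)⟩
    exact (cst (φ := fun y => y ∈ R) (fun y hy => mb y (v y hy).1)
      (fun y hy => mc y (v y hy).1 (v y hy).2 (v _ (orb_q hy)).2) w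
      ((D.hL u hu w hw).1 (e1.trans e2.symm))).symm ▸ k
  have lo : ∀ j ≤ z.rr + 1, z.p j ∈ R := by
    intro j
    induction j with
    | zero =>
      exact fun h => allv 0 h p hp (e.trans D.geo.g0.symm) p0 _ (D.geo.pm 0 (by omega)).1
        (D.geo.pm 0 (by omega)).2.1
    | succ j ih =>
      intro h
      obtain ⟨h1, -, m, vq, -⟩ := D.geo.pm j (by omega)
      exact allv _ h _ (fo_mem hM h1 m) vq (fac j (by omega) (ih (by omega))) _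
        (D.geo.pm _ (by omega)).1 (D.geo.pm _ (by omega)).2.1
  have hi : ∀ j, z.rr + 1 ≤ j → j < max a b → z.p j ∈ R := by
    intro j h
    induction j, h using Nat.le_induction with
    | base => exact fun _ => lo _ le_rfl
    | succ j h ih =>
      intro h2
      have h1 : z.rr + 2 ≤ j + 1 := by omega
      have hm : j + 1 ≤ z.m := by omega
      have hq := fac j (by omega) (ih (by omega))
      obtain ⟨q1, -⟩ := D.qv (j + 1) (by omega) hm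
      obtain ⟨-, -, s3, s4⟩ := D.geo.side _ h1 hm
      obtain ⟨l1, l2⟩ := D.lam_b h1 hm
      have pS := (D.geo.pm _ hm).1
      have arc : ∀ t u, (t = 0 → j + 1 ≠ a) → (t = 1 → j + 1 ≠ b) → u ∈ s.M.vo (z.p (j + 1)) →
          z.lam u = t → χ u = 1 → ∀ w ∈ s.M.vo (z.p (j + 1)), z.lam w = t → (w ∈ R) = (u ∈ R) := by
        intro t u ha hb hu e1 c1 w hw e2
        have k : ∀ y ∈ s.M.vo (z.p (j + 1)), z.lam y = t → χ y = 1 := fun y hy e =>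
          (D.arc_cst h1 hm t ha hb hy hu e e1).trans c1
        exact (D.cyc h1 hm t).1 _ (fun y => y ∈ R) (fun y hy e => mc y (vo_mem hM pS hy) (k y hy e)
          (k _ (orb_q hy) ((D.lc y (vo_mem hM pS hy)).trans e)))
          (fun y hy _ _ => mb y (vo_mem hM pS hy)) w hw u hu e2 e1
      by_cases c : j + 1 < a
      · exact arc 0 _ (fun _ => c.ne) (fun k => absurd k z2_01) (orb_self _ _ _) s3
          (by rw [D.col_p top (by omega) hm, if_pos c]) _ q1 s4 ▸ hq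
      · have c' : j + 1 < b := by omega
        have := arc 1 _ (fun k => absurd k.symm z2_01) (fun _ => c'.ne) (orb_p (orb_self _ _ _)) l1
          (by rw [D.col_bp top h1 hm, if_pos c']) _ (orb_p q1) l2
        rw [mb _ pS] at this
        exact this ▸ fb _ hq
  have hq : ∀ j, z.rr + 2 ≤ j → j ≤ max a b → z.q j ∈ R ∧ s.vx (z.q j) = z.γ j := by
    intro j h1 h2
    obtain ⟨j, rfl⟩ : ∃ i, j = i + 1 := ⟨j - 1, by omega⟩
    exact ⟨fac j (by omega) (hi j (by omega) (by omega)), (D.geo.pm j (by omega)).2.2.2.1⟩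
  refine ⟨by_contra fun n => ?_, fun j h1 h2 => ⟨_, hq j h1 h2⟩⟩
  obtain ⟨-, -, -, e4, e5⟩ := D.edg 0 (by have := D.pos; omega)
  have pS := (D.geo.pm a ra.2).1
  have := D.arc_a (fun y => if y ∈ R ∨ χ y = 0 then 0 else 1) (fun y hy k => by
      rcases z2_cases (χ y) with c | c
      · rw [if_pos (Or.inr (k.trans c)), if_pos (Or.inr c)]
      · simp only [mc y (vo_mem hM pS hy) c (k.trans c), k])
    (by rw [if_pos (Or.inr e5), if_neg (fun k => k.elim n fun k => z2_01 (k.symm.trans e4))]; decide)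
    (fun y hy k => by simp only [mb y (vo_mem hM pS hy), k])
  rw [if_pos (Or.inl (hq a ra.1 (by omega)).1), if_pos (Or.inr (by
    rw [D.col_p top (by omega) ra.2, if_neg (by omega)]))] at this
  exact z2_01 (this.trans (zero_add _))

theorem build {σ : AG} {r : Rw σ} {k q D l : ℕ} {U0 : Set MV} {z : Zg r.s} {Z : Set MV} {t : ℕ}
    {n : ℕ → ℕ} {y : ℕ → ℕ → W × ZMod 2} (hL : HB.LevS) (hG : HB.GamS) (cx : r.Cx k q D l U0 z)
    (ad : r.Adm U0 z Z t) (ln : Lns (r.GG z) (r.Dm z Z) (z.Sd 0) (z.Sd 1) z.e n y)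
    (hi : ∀ i ≤ n 0, Sum.inl (y 0 i).1 ∈ Z \ r.s.Lv z.x (z.rr + 1)) :
    ∃ a b P ed χ, Dt r.s z U0 Z (n 0) a b P ed χ ∧ y 0 0 = (nodeOf (z.γ a), 0) ∧
      y 0 (n 0) = (nodeOf (z.γ b), 1) ∧ max a b ≤ t ∧
      (∀ i < n 0, z.cp (ed (2 * i)) = y 0 i ∧ z.cp (r.s.M.a (ed (2 * i + 1))) = y 0 (i + 1)) ∧
      (∀ f ∈ r.s.M.sat (r.s.M.ind r.s.vx U0), χ f = 0) ∧ ∀ i ≤ 2 * n 0, P i ∈ r.s.Ar U0 z.x := by
  have ok := cx.co.ok0
  have hM := ok.hm.ok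
  have hl := ok.hm.lbl
  have hm : z.m = z.rr + 1 + z.e := rfl
  have e0 : 0 < z.e := by have := cx.e; omega
  obtain ⟨l1, -, -, l4⟩ := hL r.s U0 _ z.x cx.zx cx.hole
  obtain ⟨g1, -, -, g4, g5, g6, -, -, -, g10, -, g12⟩ := hG σ r k q D l U0 z cx
  obtain ⟨m1, m2, -, -, -, -, m7, m8, -⟩ := l4 z.m (by omega)
  obtain ⟨c1, c2, c3, -, -, c6⟩ := curS _ _ r.s.M r.s.vx hM hl
  have zn : Z ⊆ r.s.Nd := fun u hu => (ad.sub hu).1
  replace g12 := (g12 Z zn ad.low).2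
  have γN : ∀ j, 1 ≤ j → j ≤ z.m + 1 → z.γ j ∈ r.s.Nd := fun j h1 h2 => by
    obtain ⟨j, rfl⟩ : ∃ j', j = j' + 1 := ⟨j - 1, by omega⟩
    exact (cx.geo.pm j (by omega)).2.2.2.2.2
  obtain ⟨a, a1, a2, ya⟩ := (ln.left 0 e0 0 (Nat.zero_le _)).2 rfl
  obtain ⟨b, b1, b2, yb⟩ := (ln.right 0 e0 _ le_rfl).2 rfl
  have pos : 0 < n 0 := Nat.pos_of_ne_zero fun c => by
    rw [c, ya] at yb
    exact z2_01 (congrArg Prod.snd yb)
  have va : Sum.inl (y 0 0).1 = z.γ a := by rw [ya]; exact nd_inl (γN a (by omega) (by omega))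
  have vb : Sum.inl (y 0 (n 0)).1 = z.γ b := by rw [yb]; exact nd_inl (γN b (by omega) (by omega))
  have at' := (ad.gam a a1 a2).1 (va ▸ (hi 0 (Nat.zero_le _)).1)
  have bt := (ad.gam b b1 b2).1 (vb ▸ (hi _ le_rfl).1)
  have adj : ∀ i < n 0, ∃ f ∈ r.s.M.S, ∃ g ∈ r.s.M.S, r.s.vx f = r.s.vx g ∧
      r.s.vx f ∈ r.s.Ce \ z.Fi ∧ y 0 i = z.cp (r.s.M.a f) ∧ y 0 (i + 1) = z.cp (r.s.M.a g) := by
    intro i h
    refine (ln.adj 0 e0 i h).2.resolve_right ?_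
    rintro ⟨c, hc, -, -, k, -⟩
    exact (hi i h.le).2 (g10 c hc _ ⟨k, (ln.mem 0 e0 i h.le).1⟩ (zn (hi i h.le).1).1)
  have : Nonempty r.s.Φ := ⟨z.p 0⟩
  choose! f hf g hg efg hc yf yg using adj
  have far : ∀ u ∈ r.s.M.S, r.s.vx u ∉ r.s.Nd → r.s.vx (r.s.M.a u) ∈ r.s.Nd := fun u hu c =>
    by_contra fun k => c ((ok.bip u hu).2 k)
  have fN : ∀ i < n 0, r.s.vx (f i) ∉ r.s.Nd := fun i h => ce_nd (hc i h).1
  have vf : ∀ i < n 0, r.s.vx (r.s.M.a (f i)) = Sum.inl (y 0 i).1 := fun i h => by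
    rw [yf i h]; exact (nd_inl (far _ (hf i h) (fN i h))).symm
  have vg : ∀ i < n 0, r.s.vx (r.s.M.a (g i)) = Sum.inl (y 0 (i + 1)).1 := fun i h => by
    rw [yg i h]; exact (nd_inl (far _ (hg i h) (efg i h ▸ fN i h))).symm
  obtain ⟨raw, r0, r1⟩ := ilv (fun i => r.s.M.a (f i)) g
  obtain ⟨P, P0, P1⟩ := ilv (fun i => (Sum.inl (y 0 i).1 : MV)) fun i => r.s.vx (f i)
  have h1 : ∀ i < 2 * n 0, raw i ∈ r.s.M.S ∧ r.s.vx (raw i) = P i ∧
      r.s.vx (r.s.M.a (raw i)) = P (i + 1) := by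
    intro i h
    rcases Nat.even_or_odd' i with ⟨j, rfl | rfl⟩
    · have hj : j < n 0 := by omega
      rw [r0, P0, P1, hM.aa (hf j hj)]
      exact ⟨hM.a_mem (hf j hj), vf j hj, rfl⟩
    · have hj : j < n 0 := by omega
      rw [r1, P1, show 2 * j + 1 + 1 = 2 * (j + 1) from rfl, P0]
      exact ⟨hg j hj, (efg j hj).symm, vg j hj⟩
  have mid : ∀ i, 0 < i → i < n 0 → Sum.inl (y 0 i).1 ∉ z.Γ z.m := fun i h0 h c => by
    rcases (g12 _ (ln.mem 0 e0 i h.le)).2.2.2.1 c with k | k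
    · exact h0.ne' ((ln.left 0 e0 i h.le).1 k)
    · exact h.ne ((ln.right 0 e0 i h.le).1 k)
  have y2 : ∀ i < n 0, (y 0 i).2 = 0 := fun i h => by
    rcases Nat.eq_zero_or_pos i with rfl | h0
    · rw [ya]
    · exact (g12 _ (ln.mem 0 e0 i h.le)).2.2.1 (mid i h0 h)
  have clt : ∀ i j, i < j → j < n 0 → r.s.vx (f i) ≠ r.s.vx (f j) := fun i j h hj c =>
    ln.ind 0 e0 i (j + 1) (by omega) hj ⟨fun c => by
      have := (ln.inj 0 e0 0 e0 i (by omega) (j + 1) hj c).2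
      omega, Or.inl ⟨f i, hf i (by omega), g j, hg j hj, c.trans (efg j hj), hc i (by omega),
        yf i (by omega), yg j hj⟩⟩
  have cinj : ∀ i < n 0, ∀ j < n 0, r.s.vx (f i) = r.s.vx (f j) → i = j := fun i h j hj c => by
    rcases lt_trichotomy i j with k | k | k
    exacts [absurd c (clt i j k hj), k, absurd c.symm (clt j i k h)]
  have nd : ∀ i ≤ n 0, P (2 * i) ∈ Z \ r.s.Lv z.x (z.rr + 1) := fun i h => P0 i ▸ hi i h
  have inj : ∀ i < 2 * n 0, ∀ j < 2 * n 0, P i = P j → i = j := by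
    intro i h j h' c
    rcases Nat.even_or_odd' i with ⟨i, rfl | rfl⟩ <;> rcases Nat.even_or_odd' j with ⟨j, rfl | rfl⟩
    · rw [P0, P0] at c
      rw [(ln.inj 0 e0 0 e0 i (by omega) j (by omega) (Prod.ext (Sum.inl_injective c)
        ((y2 i (by omega)).trans (y2 j (by omega)).symm))).2]
    · exact absurd (P1 j ▸ c ▸ zn (nd i (by omega)).1) (fN j (by omega))
    · exact absurd (P1 i ▸ c.symm ▸ zn (nd j (by omega)).1) (fN i (by omega))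
    · rw [P1, P1] at c
      rw [cinj i (by omega) j (by omega) c]
  have symm : ∀ {u w}, u ∈ r.s.M.S → w ∈ r.s.M.eo u → u ∈ r.s.M.eo w := fun hu h =>
    orb_symm hM.ia.inv0 hM.ic.inv0 hu h
  have h2 : ∀ i < 2 * n 0, ∀ j < 2 * n 0, raw j ∈ r.s.M.eo (raw i) → i = j := by
    have m : ∀ i < 2 * n 0, ∃ u ∈ r.s.M.S, raw i ∈ r.s.M.eo u ∧ r.s.vx u = r.s.vx (f (i / 2)) ∧
        z.cp (r.s.M.a u) = y 0 ((i + 1) / 2) := by
      intro i h
      rcases Nat.even_or_odd' i with ⟨j, rfl | rfl⟩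
      · have hj : j < n 0 := by omega
        rw [show 2 * j / 2 = j by omega, show (2 * j + 1) / 2 = j by omega, r0]
        exact ⟨_, hf j hj, orb_p (orb_self _ _ _), rfl, (yf j hj).symm⟩
      · have hj : j < n 0 := by omega
        rw [show (2 * j + 1) / 2 = j by omega, show (2 * j + 1 + 1) / 2 = j + 1 by omega, r1]
        exact ⟨_, hg j hj, orb_self _ _ _, (efg j hj).symm, (yg j hj).symm⟩
    intro i h j h' c
    obtain ⟨u, hu, u1, u2, u3⟩ := m i h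
    obtain ⟨w, hw, w1, w2, w3⟩ := m j h'
    have key : r.s.vx w = r.s.vx u ∧ z.cp (r.s.M.a w) = z.cp (r.s.M.a u) := by
      have wN : r.s.vx w ∉ r.s.Nd := w2 ▸ fN _ (by omega)
      have uN := far u hu (u2 ▸ fN _ (by omega))
      rcases (eo_iff hM hu).1 (orb_trans (orb_trans u1 c) (symm hw w1)) with (rfl | rfl) | rfl | rfl
      · exact ⟨rfl, rfl⟩
      · exact ⟨vx_c hM hl hu, by rw [hM.comm hu, cp_c ok g5 (hM.a_mem hu)]⟩
      · exact absurd uN wN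
      · exact absurd (vx_c hM hl (hM.a_mem hu) ▸ uN) wN
    have := cinj _ (by omega) _ (by omega) (w2.symm.trans (key.1.trans u2))
    have := (ln.inj 0 e0 0 e0 _ (by omega) _ (by omega) (w3.symm.trans (key.2.trans u3))).2
    omega
  have PA : ∀ i ≤ 2 * n 0, P i ∈ r.s.Ar U0 z.x := by
    intro i h
    rcases Nat.even_or_odd' i with ⟨j, rfl | rfl⟩
    · have := ad.sub (nd j (by omega)).1
      exact m7 ⟨hnf.T_tv ok (Or.inl this.1), this.2⟩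
    · have hj : j < n 0 := by omega
      rw [P1]
      exact m8 _ (hnf.T_tv ok (Or.inr (hc j hj).1)) _ (ad.sub (hi j hj.le).1)
        (vf j hj ▸ ⟨(ok.hm.simple _ (hf j hj)).1, _, hf j hj, Or.inl ⟨rfl, rfl⟩⟩)
  obtain ⟨oc, k1, o3⟩ := path_cv hM raw P _ h1 h2
  have p0 : P 0 = z.γ a := (P0 0).trans va
  have pn : P (2 * n 0) = z.γ b := (P0 _).trans vb
  rw [p0, pn] at k1
  obtain ⟨k2, o1, o2⟩ := g6 (min a b) (max a b) (by omega) (by omega)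
  have k3 : r.s.M.Cv r.s.vx univ univ (z.γ b) (z.γ a) (z.ob (min a b) (max a b)) 0 := by
    rcases le_total a b with c | c
    · have := c3 _ _ _ _ _ _ k2
      rw [show z.γ (max a b) = z.γ b by rw [max_eq_right c],
        show z.γ (min a b) = z.γ a by rw [min_eq_left c]] at this
      exact c1 _ _ _ _ _ _ _ _ (subset_univ _) (subset_univ _) this
    · rw [show z.γ (max a b) = z.γ a by rw [max_eq_left c],
        show z.γ (min a b) = z.γ b by rw [min_eq_right c]] at k2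
      exact c1 _ _ _ _ _ _ _ _ (subset_univ _) (subset_univ _) k2
  have k4 := c2 univ univ _ _ _ _ _ _ _ (c1 _ _ _ _ _ _ _ _ (subset_univ _) (subset_univ _) k1) k3
  rw [zero_add, add_zero] at k4
  obtain ⟨-, ge, gc, -⟩ := gphC _ _ r.s.M r.s.vx hM hl
  obtain ⟨χ, pa, pb, pc, z0⟩ := c6 _ _ _ _ _ _ (ge U0) (fun f hf g hg =>
    (gc U0 f hf g hg).2 (cx.zx.conn.2 _ hf.2.1 _ hg.2.1)) cx.zx.full.1 k4 (by
      rintro u ⟨w, hw, e⟩
      have hu := vo_mem hM hw.1 e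
      have uU : r.s.vx u ∈ U0 := (hl w hw.1 u hu).2 e ▸ hw.2.1
      refine ⟨by_contra fun c => ?_, (z2_cases _).resolve_right fun c => ?_⟩
      · obtain ⟨i, -, i2, e⟩ := o1 u hu c
        exact (m2 (m1 uU)).2 (e ▸ ((g1 i (by omega)).1 _).2 (by omega))
      · obtain ⟨i, h, e⟩ := (o3 u hu).1 c
        obtain ⟨a1, a2, a3⟩ := h1 i h
        rcases (eo_iff hM a1).1 e with (rfl | rfl) | rfl | rfl
        · exact (PA i h.le).2 (a2 ▸ uU)
        · exact (PA i h.le).2 (a2 ▸ vx_c hM hl a1 ▸ uU)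
        · exact (PA (i + 1) h).2 (a3 ▸ uU)
        · exact (PA (i + 1) h).2 (a3 ▸ vx_c hM hl (hM.a_mem a1) ▸ uU))
  have ex : ∀ i < 2 * n 0, ∃ u, (u = raw i ∨ u = r.s.M.c (raw i)) ∧ χ u = 1 ∧ χ (r.s.M.c u) = 0 := by
    intro i h
    have a1 := (h1 i h).1
    have e := pc _ a1
    rw [(o3 _ a1).2 ⟨i, h, orb_self _ _ _⟩] at e
    rcases z2_cases (χ (raw i)) with c | c
    · exact ⟨_, Or.inr rfl, by rw [e, c, zero_add], by rw [hM.cc a1, c]⟩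
    · exact ⟨_, Or.inl rfl, c, by rw [e, c]; decide⟩
  choose! ed e1 e2 e3 using ex
  have em : ∀ i < 2 * n 0, ed i ∈ r.s.M.eo (raw i) := fun i h =>
    (eo_iff hM (h1 i h).1).2 (Or.inl (e1 i h))
  have ecp : ∀ i < 2 * n 0, ed i ∈ r.s.M.S ∧ r.s.vx (ed i) = P i ∧
      r.s.vx (r.s.M.a (ed i)) = P (i + 1) ∧ z.cp (ed i) = z.cp (raw i) ∧
      z.cp (r.s.M.a (ed i)) = z.cp (r.s.M.a (raw i)) := by
    intro i h
    obtain ⟨a1, a2, a3⟩ := h1 i h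
    rcases e1 i h with c | c <;> rw [c]
    · exact ⟨a1, a2, a3, rfl, rfl⟩
    · rw [hM.comm a1, vx_c hM hl a1, vx_c hM hl (hM.a_mem a1), cp_c ok g5 a1,
        cp_c ok g5 (hM.a_mem a1)]
      exact ⟨hM.c_mem a1, a2, a3, rfl, rfl⟩
  have cpy : ∀ i < n 0, z.cp (ed (2 * i)) = y 0 i ∧
      z.cp (r.s.M.a (ed (2 * i + 1))) = y 0 (i + 1) := fun i h =>
    ⟨by rw [(ecp _ (by omega)).2.2.2.1, r0, yf i h], by rw [(ecp _ (by omega)).2.2.2.2, r1, yg i h]⟩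
  refine ⟨a, b, P, ed, χ, ⟨ok, cx.geo, cx.hole.1, fun i h j h' c => ?_,
    fun i h => ((g1 i (by omega)).1 _).2 h, g4, g5, zn, pos, ⟨a1, a2⟩, ⟨b1, b2⟩,
    fun i h h' => (ad.gam i (by omega) (by omega)).2 (by omega),
    fun i h => ⟨(ecp i h).1, (ecp i h).2.1, (ecp i h).2.2.1, e2 i h, e3 i h⟩, pa,
    fun u hu c => o1 u hu fun k => c (by rw [pb u hu, k, add_zero]), fun j hj u hu => ?_,
    fun j hj => ?_, fun u hu c => ?_, ⟨p0, ?_⟩, ⟨pn, ?_⟩, nd, fun i h h' => P0 i ▸ mid i h h',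
    fun i h => P1 i ▸ hc i h, inj, fun i h c => ?_⟩, ya, yb, by omega, cpy, z0, PA⟩
  · rw [← (g1 i h).2, c, (g1 j h').2]
  · rw [pb u (vo_mem hM (cx.geo.pm j hj).1 hu), (o2 j hj).1 u hu]
  · obtain ⟨pS, -, m, -⟩ := cx.geo.pm j hj
    by_cases c : min a b ≤ j ∧ j < max a b
    · refine cx.geo.face j hj χ (fun u hu => pa u (fo_mem hM pS hu)) fun u hu => ?_
      rw [pb u (fo_mem hM pS hu), (o2 j hj).2 u hu, if_pos c, Pi.add_apply]
    · refine (cst (φ := χ) (fun u hu => (pa u (fo_mem hM pS hu)).trans (add_zero _))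
        (fun u hu => ?_) _ m).symm
      rw [pb u (fo_mem hM pS hu), (o2 j hj).2 u hu, if_neg c, add_zero]
  · obtain ⟨i, h, e⟩ := (o3 u hu).1 ((z2_cases _).resolve_left fun k =>
      c (by rw [pc u hu, k, add_zero]))
    exact ⟨i, h, orb_trans (symm (h1 i h).1 (em i h)) e⟩
  · exact (congrArg Prod.snd (cpy 0 pos).1).trans (y2 0 pos)
  · have := congrArg Prod.snd (cpy (n 0 - 1) (by omega)).2
    rw [show 2 * (n 0 - 1) + 1 = 2 * n 0 - 1 by omega, show n 0 - 1 + 1 = n 0 by omega, yb] at this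
    exact this
  · have := h2 i (by omega) (i + 1) h (orb_trans (orb_trans (em i (by omega))
      (c ▸ orb_p (orb_self _ _ _))) (symm (h1 _ h).1 (em _ h)))
    omega

end hv2

end Pool.Agent.MP_9d78a0_co.gm

end MrgPart5

-- marker of a merged file
example : 731051 + 13681 = 731051 + 13681 := rfl
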