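import Pool.Agent.MP_9d78a0_co.gm.HAbsM3
import Pool.Agent.MP_9d78a0_co.gm.JWf
import Pool.Agent.MP_9d78a0_co.gm.HBag1
import Pool.Agent.MP_9d78a0_co.gm.HLev
import Pool.Agent.MP_9d78a0_co.gm.HNorm
import Pool.Agent.MP_9d78a0_co.gm.HSurg0
import Pool.Agent.MP_9d78a0_co.gm.HV2b
import Pool.Agent.MP_9d78a0_co.gm.SpecM

-- ======== part 0: formerly Pool.Agent.MP_9d78a0_co.gm.HAbsM
section MrgPart0

/-! Block H, absorption with the same genus. -/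

set_option autoImplicit false

namespace Pool.Agent.MP_9d78a0_co.gm

open Set Function Relation FM Sum

namespace AbsM

open Classical in
/-- the new owner -/
noncomputable def om (s : Sk) (K : Set MV) (v : MV) : MV :=
  if h : ∃ f ∈ Hq s K \ E0 s K, s.vx f = v then nm s K h.choose else v

variable {s : Sk} {K : Set MV} {f x : s.Φ} {v : MV}

theorem om_out (k : ∀ f ∈ s.M.S, s.vx f = v → f ∈ U s K) (y : Hy s K) : om s K v = v :=
  dif_neg fun ⟨f, hf, e⟩ => hf.2 ((k f (y.hqS hf.1) e).2 hf.1)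

theorem om_in (y : Hy s K) (k : f ∈ Hq s K \ E0 s K) (n : s.vx f ∉ s.Nd) :
    om s K (s.vx f) = nm s K f := by
  have h : ∃ g ∈ Hq s K \ E0 s K, s.vx g = s.vx f := ⟨f, k, rfl⟩
  rw [om, dif_pos h]
  exact y.nm_congr (y.hqS k.1) (y.one (y.hqS k.1) k.2 n (y.hqS h.choose_spec.1.1)
    h.choose_spec.1.2 h.choose_spec.2)

theorem cases (s : Sk) (K : Set MV) (v : MV) : (∃ f ∈ Hq s K \ E0 s K, s.vx f = v) ∨
    ∀ f ∈ s.M.S, s.vx f = v → f ∈ U s K :=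
  (em _).imp id fun n f hf e => ⟨hf, fun q => by_contra fun m => n ⟨f, ⟨q, m⟩, e⟩⟩

/-- the new structure -/
noncomputable def nr {σ : AG} (r : Rw σ) (K : Set MV) (ps : r.s.Φ ⊕ r.s.Φ × Bool → Prop) :
    Rw σ := ⟨nw r.s K ps, r.Λ, fun a => (r.own a).map (om r.s K)⟩

variable {σ : AG} {r : Rw σ} {ps : r.s.Φ ⊕ r.s.Φ × Bool → Prop} {k q D l : ℕ}

theorem own_nn (co : r.Co k q D l) {a : σ.ε} (e : r.own a = some v) : v ∉ r.s.Nd :=
  not_nd ((co.owner a v e).elim (fun c => c.1.2) fun c => co.ok0.hr.1 c.1)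

theorem own_cell (y : Hy r.s K) (co : r.Co k q D l) {a : σ.ε} (e : r.own a = some v)
    (m : ∀ f ∈ r.s.M.S, r.s.vx f = v → f ∈ U r.s K) : v ∈ (nw r.s K ps).Ce :=
  y.memCe.2 ⟨(co.owner a v e).resolve_right fun ⟨c, f, hf, e⟩ => y.uH (m f hf e) (e ▸ c), m⟩

theorem ct_cell (y : Hy r.s K) (co : r.Co k q D l) (c : v ∈ (nw r.s K ps).Ce) :
    (nr r K ps).ct v = r.ct v := by
  ext a
  show (r.own a).map _ = _ ↔ r.own a = _
  rw [Option.map_eq_some_iff]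
  refine ⟨fun ⟨u, e, e'⟩ => ?_, fun e => ⟨v, e, om_out (y.memCe.1 c).2 y⟩⟩
  rcases cases r.s K u with ⟨f, hf, rfl⟩ | m
  · rw [om_in y hf (own_nn co e)] at e'
    exact (c.2 (Or.inl (e' ▸ y.nmH hf.1))).elim
  · rw [e, ← e', om_out m y]

theorem ct_hole (y : Hy r.s K) (co : r.Co k q D l) {x : r.s.Φ} (hx : x ∈ Hq r.s K) :
    (nr r K ps).ct (nm r.s K x) =
      {a | ∃ f ∈ r.s.rg K x \ r.s.M.ind r.s.vx K, r.own a = some (r.s.vx f)} := by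
  ext a
  show (r.own a).map _ = _ ↔ _
  rw [Option.map_eq_some_iff]
  constructor
  · rintro ⟨u, e, e'⟩
    rcases cases r.s K u with ⟨f, hf, rfl⟩ | m
    · rw [om_in y hf (own_nn co e)] at e'
      exact ⟨f, ⟨y.nm_inj hx hf.1 e'.symm, hf.2⟩, e⟩
    · rw [om_out m y] at e'
      exact ((own_cell (ps := ps) y co e m).2 (Or.inl (e' ▸ y.nmH hx))).elim
  · rintro ⟨f, hf, e⟩
    exact ⟨_, e, (om_in y ⟨hq_of hx hf.1, hf.2⟩ (own_nn co e)).trans (y.nm_congr (y.hqS hx) hf.1)⟩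

theorem share' (y : Hy r.s K) (co : r.Co k q D l) (a : σ.ε) (w : W)
    (hw : w ∈ (σ.inc a ∩ σ.sh) \ r.Λ) (c : inl w ∈ (nw r.s K ps).Vt ∨
      ∃ a', (nr r K ps).own a' ≠ (nr r K ps).own a ∧ w ∈ σ.inc a') :
    ∃ x, (nr r K ps).own a = some x ∧ w ∈ (nw r.s K ps).nb x := by
  have old : inl w ∈ (nw r.s K ps).Vt → inl w ∈ r.s.vx '' U r.s K := fun c =>
    (y.memVt.1 c).resolve_right (y.inlH w)
  obtain ⟨u, e, m⟩ := co.share a w hw (c.imp (fun c => image_mono y.eU.1 (old c))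
    fun ⟨a', n, c⟩ => ⟨a', fun e => n (congrArg (Option.map _) e), c⟩)
  refine ⟨om r.s K u, congrArg (Option.map _) e, ?_⟩
  rcases cases r.s K u with ⟨f, hf, rfl⟩ | t
  swap
  · rw [om_out t y, y.nb_eq (own_cell y co e t)]; exact m
  rw [om_in y hf (own_nn co e)]
  obtain ⟨g, hg, e1, e2⟩ := gadj y.ok m
  obtain ⟨z, hz, e3⟩ : ∃ z ∈ r.s.rg K f, r.s.vx z = inl w := by
    rcases y.six (y.hqS hf.1) hf.2 (own_nn co e) hg e1 with t | t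
    · exact ⟨_, rg_a t, e2⟩
    · exact ⟨_, rg_a t, (y.lbl.ac y.ok hg).trans e2⟩
  have zH := hq_of hf.1 hz
  by_cases wK : inl w ∈ K
  · have := (y.see (ps := ps) zH (e3 ▸ wK)).2 (nd_of (y.hqS zH) e3)
    rwa [y.nm_congr (y.hqS hf.1) hz, e3] at this
  obtain ⟨a', n, c'⟩ := c.resolve_left fun c => wK (y.uK (old c) zH e3)
  obtain ⟨u', e', m'⟩ := co.share a' w ⟨⟨c', hw.1.2⟩, hw.2⟩ (Or.inl ⟨z, y.hqS zH, e3⟩)
  obtain ⟨g', hg', rfl, e5⟩ := gadj y.ok m'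
  have t : g' ∈ r.s.rg K f := y.ok.gk.aa hg' ▸ rg_a (cl_trans (r := rR r.s K) hz
    (y.off (y.hqS zH) (e3 ▸ wK) (y.ok.gk.am hg') (e5.trans e3.symm)))
  refine (n ?_).elim
  show (r.own a').map _ = (r.own a).map _
  rw [e, e', Option.map_some, Option.map_some, om_in y hf (own_nn co e),
    om_in y ⟨hq_of hf.1 t, fun c => wK (e5 ▸ c.2.2)⟩ (own_nn co e'), y.nm_congr (y.hqS hf.1) t]

theorem dep' (y : Hy r.s K) (co : r.Co k q D l) {D' : ℕ}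
    (hD : ∀ (p : r.s.Φ) (F : Set r.s.Φ) (ψ : r.s.Φ → ZMod 2) (Ct : Set σ.ε) (A : ZMod 2 → Set W),
      p ∈ r.s.M.S → F = r.s.M.ind r.s.vx K ∩ r.s.rg K p → (∀ f ∈ F, ψ (r.s.M.a f) = ψ f) →
      (∀ f ∈ F, r.s.vx f ∈ r.s.Nd → ψ ((r.s.M.sub (r.s.M.ind r.s.vx K)).b f) = ψ f) →
      ({f | f ∈ F ∧ ψ ((r.s.M.sub (r.s.M.ind r.s.vx K)).b f) ≠ ψ f} : Set r.s.Φ).ncard ≤ 4 →
      Ct = {a | ∃ f ∈ r.s.rg K p \ r.s.M.ind r.s.vx K, r.own a = some (r.s.vx f)} →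
      (∀ c, A c = {v | ∃ f ∈ F, r.s.vx f = Sum.inl v ∧ ψ f = c}) →
      ∃ U ⊆ Ct, (((σ.vs U ∪ A 0) ∩ (σ.vs (Ct \ U) ∪ A 1) ∩ σ.sh) \ (r.Λ ∪ A 0 ∩ A 1)).ncard ≤ D') :
    (nr r K ps).Dep D' := by
  classical
  intro w hw χ tw
  have h := y.ok.gk
  rcases flag hw.1 with ⟨f, hf, rfl⟩ | ⟨x, hx, rfl⟩ | ⟨x, hx, rfl⟩
  · exact (y.uH' ⟨f, hf, rfl⟩ hw.2).elim
  · exact (y.uH' ⟨x, e0U hx.1, rfl⟩ hw.2).elim
  have b1 : ∀ f ∈ E0 r.s K ∩ r.s.rg K x, (r.s.M.sub (U r.s K)).b f =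
      (r.s.M.sub (r.s.M.ind r.s.vx K)).b f := fun f hf => y.b1 hf.1 (hq_of hx.2.1 hf.2)
  have same : ∀ f ∈ E0 r.s K ∩ r.s.rg K x, r.s.vx f ∈ r.s.Nd ↔
      r.s.vx ((r.s.M.sub (r.s.M.ind r.s.vx K)).b f) ∈ r.s.Nd := fun f hf => by
    rw [← b1 f hf, y.lbl1.b y.ok1 (e0U hf.1)]
  have key : ∀ f ∈ E0 r.s K ∩ r.s.rg K x, r.s.vx f ∈ r.s.Nd →
      χ (inr ((r.s.M.sub (r.s.M.ind r.s.vx K)).b f, true)) = χ (inr (f, true)) := fun f hf n => by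
    rw [← b1 f hf]
    exact tw.1 (inr (f, true)) ((y.vo_r hx).2 ⟨f, ⟨hf.1, hq_of hx.2.1 hf.2, n⟩, hf.2, rfl⟩)
  refine hD x _ (fun g => if r.s.vx g ∈ r.s.Nd then χ (inr (g, true)) else χ (inr (r.s.M.a g, true)))
    _ ((nw r.s K ps).clr (inr (x, true)) χ) hx.1.1 rfl (fun f hf => ?_) (fun f hf n => ?_) ?_
    (ct_hole y co hx.2.1) fun c => ?_
  · by_cases n : r.s.vx f ∈ r.s.Nd
    · rw [if_pos n, if_neg ((co.ok0.bip f hf.1.1).1 n), h.aa hf.1.1]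
    · rw [if_neg n, if_pos (y.qa hf.1 (hq_of hx.2.1 hf.2) n).2.2]
  · rw [if_pos n, if_pos ((same f hf).1 n)]
    exact key f hf n
  · refine le_trans (ncard_le_ncard_of_injOn (fun f => inr (r.s.M.a f, true)) ?_ ?_
      ((y.ok' (ps := ps)).fin.subset fun z hz =>
        (y.ok' (ps := ps)).gk.sV.sub (mem_r hx true) hz.1)) tw.2
    · rintro f ⟨hf, ne⟩
      have fH := hq_of hx.2.1 hf.2
      have n : r.s.vx f ∉ r.s.Nd := fun n => ne (by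
        rw [if_pos n, if_pos ((same f hf).1 n)]; exact key f hf n)
      rw [if_neg n, if_neg (mt (same f hf).2 n), ← b1 f hf] at ne
      have aQ := y.qa hf.1 fH n
      refine ⟨(y.vo_r hx).2 ⟨_, aQ, rg_a hf.2, rfl⟩, ?_⟩
      have g := y.ok1
      have fU := e0U hf.1
      have bS : (r.s.M.sub (U r.s K)).b f ∈ r.s.rg K f ∩ E0 r.s K :=
        y.fo1 hf.1 fH ▸ cl_one (r := (r.s.M.sub (U r.s K)).rF) (Or.inr rfl)
      have e : mate (r.s.M.sub (U r.s K)).a (r.s.M.sub (U r.s K)).b (Q r.s K) (r.s.M.a f) =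
          r.s.M.a ((r.s.M.sub (U r.s K)).b f) := by
        refine mate_eq g.fin g.ia g.ib y.cs.1 y.cs.2 aQ (y.qa bS.2 (hq_of fH bS.1)
          (by rw [y.lbl1.b g fU]; exact n)) (cl_step (cl_step (cl_one (y := f)
            (Or.inl (h.aa hf.1.1).symm)) (Or.inr ⟨fun m => n m.2.2, rfl⟩)) (Or.inl rfl)) fun e => ?_
        exact (g.ib f fU).2.2 (by rw [← h.aa bS.2.1, e, h.aa hf.1.1])
      show χ (inr (mate _ _ _ _, true)) ≠ _
      rw [e]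
      exact ne
    · rintro f ⟨hf, -⟩ g ⟨hg, -⟩ e
      rw [← h.aa hf.1.1, ← h.aa hg.1.1, (Prod.mk.inj (inr.inj e)).1]
  · ext v
    constructor
    · rintro ⟨z, ⟨m, rfl⟩, rfl⟩
      obtain ⟨z, hz, m', rfl⟩ := (y.vo_r hx).1 m
      obtain ⟨u, e⟩ := hz.2.2.2
      refine ⟨z, ⟨hz.1, m'⟩, ?_, if_pos hz.2.2⟩
      show _ = inl (nodeOf (r.s.vx z))
      rw [← e]; rfl
    · rintro ⟨z, hz, e, rfl⟩
      have n := nd_of hz.1.1 e
      refine ⟨inr (z, true), ⟨(y.vo_r hx).2 ⟨z, ⟨hz.1, hq_of hx.2.1 hz.2, n⟩, hz.2, rfl⟩,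
        (if_pos n).symm⟩, ?_⟩
      show nodeOf (r.s.vx z) = v
      rw [e]; rfl

end AbsM

open AbsM

theorem HB.absMS (hB : HB.BasS) (hD : HB.AbsDS) : HB.AbsMS := by
  intro q D n
  obtain ⟨D', hD'⟩ := hD q D n
  refine ⟨D', fun σ r k l g B X co gr hg hX hn he => ?_⟩
  obtain ⟨fin, tv, -⟩ := hB.2 r.s co.ok0
  obtain ⟨-, b2, -, b4, -⟩ := bigS _ _ g B _ r.s.tv gr
    (tv ▸ sdiff_subset.trans subset_union_left)
  obtain ⟨i, j, dis⟩ := b4 X (fin.subset (hX.trans inter_subset_left)) (by omega)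
  have cr := (b2 X).2.2.2 i j dis
  obtain ⟨u, hu⟩ := (gr.2.1 (i, ⟨0, by omega⟩)).1
  obtain ⟨v, hv⟩ := (gr.2.1 (i, ⟨1, by omega⟩)).1
  have uK := cr (mem_iUnion.2 ⟨_, Or.inl hu⟩)
  have y : Hy r.s (r.s.bg B X) := ⟨co.ok0, (b2 X).1.trans sdiff_subset, (b2 X).2.1 ⟨u, uK⟩,
    ⟨u, uK, v, cr (mem_iUnion.2 ⟨_, Or.inl hv⟩), fun e => Set.disjoint_left.1
      (gr.2.2.1 _ _ (by simp)) hu (e ▸ hv)⟩, he⟩
  obtain ⟨ps, p1, p2⟩ := y.exists_pos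
  refine ⟨nr r _ ps, nm r.s _, ⟨⟨y.ok0' p1, y.eg'.trans_le co.eg, ?_, co.lam, fun w hw m => ?_,
    co.root, fun a x e => ?_, share' y co, fun x c => ?_,
    dep' y co fun p F ψ Ct A => hD' σ r k l g B X _ p F ψ Ct A co gr hg hX hn rfl he⟩, y.tvc⟩,
    ⟨y.tv_eq.symm ▸ y.kU, ?_⟩, ?_, y.eg', ?_, rfl,
    fun x c => ⟨(y.memCe.1 c).1, ct_cell y co c, y.nb_eq c, y.rd p2 c⟩, y.rh, fun S => y.pk,
    y.hVt.symm, fun p hp p' hp' => ⟨y.nm_inj (y.hole hp).1 (y.hole hp').1,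
      fun m => (y.nm_congr hp.1 m).symm⟩, ?_, fun K' k p hp w hw e => y.reg' k hp hw e⟩
  · show ((nw r.s _ ps).H ∩ (nw r.s _ ps).Vt).ncard ≤ _
    rw [y.hVt]
    refine le_trans (le_of_eq (congrArg ncard (image_image (fun A => Classical.epsilon fun h =>
      h ∈ r.s.H ∧ h ∈ r.s.vx '' A) (r.s.rg (r.s.bg B X)) _).symm)) (ncard_image_le ?_)
    exact (y.ok.fin.subset fun _ k => k.1).image _
  · have wU := (y.memVt.1 m).resolve_right (y.inlH w)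
    obtain ⟨x, hx, e⟩ := co.lamn w hw (image_mono y.eU.1 wU)
    obtain ⟨f, hf, e1, e2⟩ := gadj y.ok e
    have aH := hq_of (y.hole ⟨hf, e1 ▸ hx⟩).1 (rg_a (rg_self f))
    have := (y.see (ps := ps) aH (e2 ▸ y.uK wU aH e2)).2 (nd_of (y.hqS aH) e2)
    rw [e2] at this
    exact ⟨_, y.nmH aH, this⟩
  · obtain ⟨u, e1, rfl⟩ := Option.map_eq_some_iff.1 e
    rcases cases r.s (r.s.bg B X) u with ⟨f, hf, rfl⟩ | m
    · rw [om_in y hf (own_nn co e1)]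
      exact Or.inr (y.hVt.symm ▸ y.nmH hf.1)
    · rw [om_out m y]
      exact Or.inl (own_cell y co e1 m)
  · rw [ct_cell y co c, show (nr r _ ps).s.nb x = r.s.nb x from y.nb_eq c]
    exact co.solid x (y.memCe.1 c).1
  · show (nw r.s _ ps).tv ⊆ _
    rw [y.tv_eq]
    rintro _ ⟨f, hf, rfl⟩
    exact ⟨⟨f, hf.1, rfl⟩, y.uH hf⟩
  · exact fun u hu v hv => y.adj_iff (y.tv_eq ▸ hu) (y.tv_eq ▸ hv)
  · exact fun K' k => y.gn' (y.tv_eq ▸ k)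
  · rintro p hp _ ⟨⟨f, hf, rfl⟩, m⟩
    exact y.uK (y.tv_eq ▸ m) (hq_of (y.hole hp).1 hf) rfl

end Pool.Agent.MP_9d78a0_co.gm

end MrgPart0

-- ======== part 1: formerly Pool.Agent.MP_9d78a0_co.gm.HAll0
section MrgPart1

/-! Block H: the loop from the genus step and the vortex construction. -/

set_option autoImplicit false

namespace Pool.Agent.MP_9d78a0_co.gm.HB

theorem stage0 (hv : VortexS) : StageS :=
  stageS rtS basS (inS basS) (ctlS basS) (patS basS) (absMS basS (HAbsE.absD basS)) hv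

theorem all0 (ha : AbsGS) (hv : VortexS) : LoopS ∧ DropS ∧ VortS :=
  ⟨loopS rtS basS (inS basS) (ctlS basS) (patS basS) ha (normS basS) (convS basS)
      (preS basS (isoCS basS)) (stage0 hv),
    dropS rtS basS (inS basS) (ctlS basS) (patS basS) ha (normS basS) (convS basS)
      (preS basS (isoCS basS)) (stage0 hv),
    vortS rtS basS (inS basS) (ctlS basS) (patS basS) ha (normS basS) (convS basS)
      (preS basS (isoCS basS)) (stage0 hv)⟩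

end Pool.Agent.MP_9d78a0_co.gm.HB

end MrgPart1

-- ======== part 2: formerly Pool.Agent.MP_9d78a0_co.gm.HAbsG
section MrgPart2

/-! Block H, row ABSG: the contents of the new holes. -/

set_option autoImplicit false

namespace Pool.Agent.MP_9d78a0_co.gm

open Set Function Relation FM

namespace AbsG

theorem card_bU {ι α : Type} {I : Set ι} (hI : I.Finite) (C : ι → Set α) {D : ℕ}
    (h : ∀ i ∈ I, (C i).ncard ≤ D) : (⋃ i ∈ I, C i).ncard ≤ I.ncard * D := by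
  induction I, hI using Set.Finite.induction_on with
  | empty => simp
  | @insert a I ha hI ih =>
    rw [biUnion_insert, ncard_insert_of_notMem ha hI, add_mul, one_mul, add_comm]
    exact (ncard_union_le _ _).trans (add_le_add (h a (mem_insert _ _))
      (ih fun i hi => h i (mem_insert_of_mem _ hi)))

theorem solid_res {Y : Pc} {R R' Λ Λ' : Set W} (h : Solid Y R Λ) (h1 : R' ⊆ R)
    (h2 : ∀ v ∈ R', v ∉ Λ') (h3 : ∀ v ∈ VV Y ∩ Od, v ∈ Λ' → v ∉ Λ → v ∈ R) : Solid Y R' Λ' := by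
  refine ⟨fun v hv => ⟨(h.sub (h1 hv)).1, h2 v hv⟩,
    ⟨h.card.1.subset h1, (ncard_le_ncard h1 h.card.1).trans h.card.2⟩, fun u hu v hv => ?_,
    fun e => ?_⟩
  · have k : ∀ w ∈ (Od \ Λ) \ (R \ {u, v}), w ∈ VV Y → w ∈ (Od \ Λ') \ (R' \ {u, v}) :=
      fun w hw c => ⟨⟨hw.1.1, fun m => by
        have : w ∈ ({u, v} : Set W) := by_contra fun n => hw.2 ⟨h3 w ⟨c, hw.1.1⟩ m hw.1.2, n⟩
        rcases this with rfl | rfl
        exacts [h2 _ hu m, h2 _ hv m]⟩, fun m => hw.2 ⟨h1 m.1, m.2⟩⟩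
    exact Link.map id (fun a ha b hb e => .single (k a ha (gr_mem e)) (k b hb (gr_mem e.symm)) e)
      (h.two u (h1 hu) v (h1 hv))
  · obtain rfl : R' = R := eq_of_subset_of_ncard_le h1 (e ▸ h.card.2) h.card.1
    obtain ⟨Z, z1, z2, z3⟩ := h.three e
    obtain ⟨u, hu⟩ : R'.Nonempty := nonempty_of_ncard_ne_zero (by omega)
    obtain ⟨y, hy, a⟩ := z3 u hu
    refine ⟨Z, fun w hw => ⟨⟨(z1 hw).1.1, fun m => (z1 hw).2 (h3 w ⟨by_contra fun c => ?_,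
      (z1 hw).1.1⟩ m (z1 hw).1.2)⟩, (z1 hw).2⟩, z2, z3⟩
    exact c (conn_out z2 hw hy c ▸ gr_mem a.symm)

theorem mem_vs {σ : AG} {U : Set σ.ε} {v : W} : v ∈ σ.vs U ↔ ∃ a ∈ U, v ∈ σ.inc a := by
  simp [AG.vs]

theorem vs_mono {σ : AG} {U U' : Set σ.ε} (h : U ⊆ U') : σ.vs U ⊆ σ.vs U' :=
  biUnion_subset_biUnion_left h

theorem sh_inc {σ : AG} {v : W} (h : v ∈ σ.sh) : ∃ a, v ∈ σ.inc a := by
  obtain ⟨a, ⟨b, -, k⟩, -⟩ := mem_iUnion.1 h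
  exact ⟨b, k⟩

theorem sh_fin (σ : AG) : σ.sh.Finite :=
  (finite_iUnion fun a => (VV_finite (σ.pfin a)).subset (inter_subset_left (t := Od))).subset
    fun _ h => mem_iUnion.2 (sh_inc h)

variable {s : Sk} {K X : Set MV} {f g : s.Φ}

theorem clr_disj (ho : s.Ok) (hs : s.Spk) (hf : f ∈ s.M.S) (k : s.vx f ∈ s.H) {χ : s.Φ → ZMod 2}
    (hc : ∀ g ∈ s.M.vo f, χ (s.M.c g) = χ g) {v : W} (h0 : v ∈ s.clr f χ 0)
    (h1 : v ∈ s.clr f χ 1) : False := by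
  obtain ⟨g, ⟨g1, g2⟩, rfl⟩ := h0
  obtain ⟨g', ⟨g3, g4⟩, e⟩ := h1
  have a1 := ho.hm.lbl.of_vo ho.hm.ok hf g1
  have a2 := ho.hm.lbl.of_vo ho.hm.ok hf g3
  have m1 := ho.hm.ok.vo_mem hf g1
  have m2 := ho.hm.ok.vo_mem hf g3
  have n := nd_of ho (Or.inl k)
  rcases hs g ⟨m1, a1 ▸ k⟩ g' m2 (a2.trans a1.symm) (by
    rw [Sk.vx_far ho m1 (a1 ▸ n), Sk.vx_far ho m2 (a2 ▸ n), e]) with rfl | rfl
  · exact zero_ne_one (g2.symm.trans g4)
  · exact zero_ne_one (g2.symm.trans ((hc g g1).symm.trans g4))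

theorem spk_card (ho : s.Ok) (hs : s.Spk) (hX : X.Finite) :
    ({g | g ∈ s.M.fl s.vx s.H ∧ s.vx (s.M.a g) ∈ X} : Set s.Φ).ncard ≤
      (s.H ∩ s.Vt).ncard * X.ncard * 2 := by
  have f1 : (s.H ∩ s.Vt).Finite := (ho.hm.ok.fin.image _).subset inter_subset_right
  rw [← ncard_prod]
  refine le_trans (ncard_le_ncard ?_ (ho.hm.ok.fin.subset (iUnion₂_subset fun _ _ _ k => k.1)))
    (card_bU (f1.prod hX) (fun p => {g | g ∈ s.M.S ∧ s.vx g = p.1 ∧ s.vx (s.M.a g) = p.2})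
      fun p hp => ?_)
  · exact fun g hg => mem_biUnion (x := (s.vx g, s.vx (s.M.a g)))
      ⟨⟨hg.1.2, g, hg.1.1, rfl⟩, hg.2⟩ ⟨hg.1.1, rfl, rfl⟩
  · rcases eq_empty_or_nonempty
      {g | g ∈ s.M.S ∧ s.vx g = p.1 ∧ s.vx (s.M.a g) = p.2} with e | ⟨g, hg⟩
    · simp [e]
    · refine (ncard_le_ncard (t := {g, s.M.c g}) (fun g' hg' => hs g ⟨hg.1, hg.2.1 ▸ hp.1.1⟩ g' hg'.1
        (hg'.2.1.trans hg.2.1.symm) (hg'.2.2.trans hg.2.2.symm)) (toFinite _)).trans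
        ((ncard_insert_le _ _).trans (by simp))

namespace New

variable {M' : FM s.Φ} {vx' : s.Φ → MV} {H' Rk : Set MV} {pos' : s.Φ → Prop} {Q : Set s.Φ}
  (n : New s K X M' vx' H' Rk pos' Q) (ho : s.Ok)
include n

theorem hM : M'.Ok := n.ok.hm.ok
theorem hL : M'.Lbl vx' := n.ok.hm.lbl

theorem qtwo (hf : f ∈ M'.S) :
    ∃ o ∈ M'.vo f, ∀ g ∈ Q, g ∈ M'.vo f → g = o ∨ (g = M'.b o ∧ o ∈ Q) := by
  by_cases k : ∃ o ∈ M'.vo f, o ∈ Q
  · obtain ⟨o, h1, h2⟩ := k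
    exact ⟨o, h1, fun g hg c => ((n.qq o h2).2.1 g hg (n.hM.vo_eq hf h1 ▸ c)).imp_right (⟨·, h2⟩)⟩
  · exact ⟨f, Cy.orb_self .., fun g hg c => (k ⟨g, c, hg⟩).elim⟩

include ho

theorem vx_vo (hf : f ∈ M'.S) (hg : g ∈ M'.vo f) : s.vx g = s.vx f :=
  ho.hm.lbl.of_vo ho.hm.ok (n.sub hf) (n.vo f hf hg)

theorem b_eq (hf : f ∈ M'.S) (k : s.vx f ∈ s.H) (hg : g ∈ M'.vo f) (c : g ∉ Q) :
    M'.b g = s.M.b g := (n.qb g (n.hM.vo_mem hf hg) (n.vx_vo ho hf hg ▸ k) c).1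

theorem out (hf : f ∈ M'.S) (k : s.vx f ∈ s.H) (hg : g ∈ M'.vo f) (c : s.M.b g ∉ M'.vo f) :
    g ∈ Q := by_contra fun m => c (n.b_eq ho hf k hg m ▸ Cy.orb_p hg)

theorem b_eq' (hf : f ∈ M'.S) (k : s.vx f ∈ s.H) (hg : g ∈ M'.vo f) (c : s.M.b g ∈ M'.vo f) :
    M'.b g = s.M.b g := by
  by_cases m : g ∈ Q
  · exact (((n.qq g m).2.1 _ ((n.qq g m).2.2 (n.hM.vo_mem hf c)) (n.hM.vo_eq hf hg ▸ c)).resolve_left
      (ho.hm.ok.b_ne (n.sub (n.hM.vo_mem hf hg)))).symm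
  · exact n.b_eq ho hf k hg m

theorem c_iff (hg : g ∈ s.M.S) : s.M.c g ∈ M'.vo f ↔ g ∈ M'.vo f :=
  ⟨fun k => by
    have : M'.c (s.M.c g) ∈ M'.vo f := Cy.orb_q k
    rwa [n.hc, ho.hm.ok.cc hg] at this, fun k => n.hc ▸ Cy.orb_q k⟩

open Classical in
/-- a fan against the other spokes -/
theorem two_fan (hf : f ∈ M'.S) (k : s.vx f ∈ s.H) :
    s.M.Two f fun g => if g ∈ M'.vo f then 0 else 1 := by
  have hM := ho.hm.ok
  refine ⟨fun g hg => if_congr (n.c_iff ho (hM.vo_mem (n.sub hf) hg)) rfl rfl, ?_⟩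
  obtain ⟨o, -, h2⟩ := n.qtwo hf
  refine (ncard_le_ncard (t := {o, M'.b o, s.M.b o, s.M.b (M'.b o)}) ?_ (toFinite _)).trans
    ((ncard_insert_le _ _).trans (Nat.succ_le_succ ((ncard_insert_le _ _).trans
      (Nat.succ_le_succ ((ncard_insert_le _ _).trans (by simp))))))
  rintro g ⟨hg, c⟩
  have gS := hM.vo_mem (n.sub hf) hg
  by_cases a1 : g ∈ M'.vo f <;> by_cases a2 : s.M.b g ∈ M'.vo f
  · simp [a1, a2] at c
  · rcases h2 g (n.out ho hf k a1 a2) a1 with e | ⟨e, -⟩ <;> simp [e]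
  · rcases h2 _ (n.out ho hf k a2 (by rwa [hM.bb gS])) a2 with e | ⟨e, -⟩ <;>
      simp [← e, hM.bb gS]
  · simp [a1, a2] at c

/-- a colouring of a fan extends to the hole -/
theorem two_ext (hf : f ∈ M'.S) (k : s.vx f ∈ s.H) {χ : s.Φ → ZMod 2} (h : M'.Two f χ) :
    ∃ χ', s.M.Two f χ' ∧ ∀ g ∈ M'.vo f, χ' g = χ g := by
  classical
  have hM := ho.hm.ok
  obtain ⟨o, h1, h2⟩ := n.qtwo hf
  have oS := n.hM.vo_mem hf h1
  have fin : ({g | g ∈ M'.vo f ∧ χ (M'.b g) ≠ χ g} : Set s.Φ).Finite :=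
    n.hM.fin.subset fun _ c => n.hM.vo_mem hf c.1
  refine ⟨fun g => if g ∈ M'.vo f then χ g else χ o, ⟨fun g hg => ?_, ?_⟩, fun g hg => if_pos hg⟩
  · have := n.c_iff ho (f := f) (hM.vo_mem (n.sub hf) hg)
    by_cases a : g ∈ M'.vo f
    · simp only [this, a, if_true]
      exact n.hc ▸ h.1 g a
    · simp only [this, a, if_false]
  refine le_trans (ncard_le_ncard ?_ (fin.image fun g =>
    if g = o ∧ s.M.b o ∉ M'.vo f then s.M.b (M'.b o) else g)) ((ncard_image_le fin).trans h.2)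
  rintro g ⟨hg, c⟩
  have gS := hM.vo_mem (n.sub hf) hg
  by_cases a1 : g ∈ M'.vo f <;> by_cases a2 : s.M.b g ∈ M'.vo f <;>
    simp only [a1, a2, if_true, if_false] at c
  · exact ⟨g, ⟨a1, (n.b_eq' ho hf k a1 a2).symm ▸ c⟩, if_neg fun m => m.2 (m.1 ▸ a2)⟩
  · have ne : g ≠ o := fun e => c (e ▸ rfl)
    have e := ((h2 g (n.out ho hf k a1 a2) a1).resolve_left ne).1
    exact ⟨g, ⟨a1, by rwa [e, n.hM.bb oS, ← e]⟩, if_neg fun m => ne m.1⟩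
  · have e := ((h2 _ (n.out ho hf k a2 (by rwa [hM.bb gS])) a2).resolve_left
      fun e => c (e ▸ rfl)).1
    refine ⟨o, ⟨h1, e ▸ c⟩, (if_pos ⟨rfl, fun m => a1 ?_⟩).trans (by rw [← e, hM.bb gS])⟩
    rw [n.b_eq' ho hf k h1 m] at e
    rwa [← hM.bb gS, e, hM.bb (n.sub oS)]
  · exact (c rfl).elim

theorem far_eq (hf : f ∈ M'.S) (k : s.vx f ∈ s.H) :
    (s.re M' vx' H' Rk pos').far f = s.far f := by
  show nodeOf (vx' (M'.a f)) = _
  rw [n.ha, n.off _ (ho.hm.ind f (n.sub hf) k)]; rfl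

theorem far_nb (hf : f ∈ M'.S) (k : s.vx f ∈ s.H) :
    s.far f ∈ (s.re M' vx' H' Rk pos').nb (vx' f) :=
  n.far_eq ho hf k ▸ Sk.far_mem_nb n.ok hf (nd_of n.ok (Or.inl ((n.hol f (n.sub hf)).2 k)))

theorem far_K (hf : f ∈ M'.S) (k : s.vx f ∈ s.H) : Sum.inl (s.far f) ∈ K :=
  Sk.vx_far ho (n.sub hf) (nd_of ho (Or.inl k)) ▸
    n.ink _ (n.ha ▸ n.hM.a_mem hf) (ho.hm.ind f (n.sub hf) k)

omit ho in
theorem vt_old {x : MV} (hx : x ∈ (s.re M' vx' H' Rk pos').Vt) (k : x ∉ H') : x ∈ K ∩ s.Vt := by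
  obtain ⟨f, hf, rfl⟩ := hx
  have c : s.vx f ∉ s.H := fun c => k ((n.hol f (n.sub hf)).2 c)
  show vx' f ∈ _
  rw [n.off f c]
  exact ⟨n.ink f hf c, f, n.sub hf, rfl⟩

omit ho in
theorem inl_not (v : W) : (Sum.inl v : MV) ∉ H' := fun c => by
  obtain ⟨i, c⟩ := n.ok.hr.1 c
  cases c

theorem nb_old {x : MV} (k : x ∉ H') : (s.re M' vx' H' Rk pos').nb x ⊆ s.nb x := fun v hv => by
  obtain ⟨f, hf, e1, e2⟩ := exists_adj (vx := vx') n.hM hv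
  have fS := n.sub hf
  rw [n.ha] at e2
  rw [n.off f fun c => k (e1 ▸ (n.hol f fS).2 c)] at e1
  rw [n.off _ fun c => n.inl_not v (e2 ▸ (n.hol _ (ho.hm.ok.a_mem fS)).2 c)] at e2
  exact ⟨hv.1, f, fS, Or.inl ⟨e1, e2⟩⟩

theorem adj_new (hK : ∀ x ∈ K, x ∉ s.H) {u v : MV} (hu : u ∈ K ∩ s.T) (hv : v ∈ K ∩ s.T)
    (e : s.G.Adj u v) : (s.re M' vx' H' Rk pos').G.Adj u v := by
  obtain ⟨f, hf, rfl, rfl⟩ := exists_adj ho.hm.ok e
  exact ⟨e.1, f, n.edge f hf hu hv, Or.inl ⟨n.off f (hK _ hu.1),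
    (congrArg (fun p : s.Φ → s.Φ => vx' (p f)) n.ha).trans (n.off _ (hK _ hv.1))⟩⟩

theorem spoke' {x : MV} (hx : x ∈ s.H) {v : W} (hv : v ∈ s.nb x) (k : Sum.inl v ∈ K) :
    ∃ f ∈ M'.S, s.vx f = x ∧ s.far f = v := by
  obtain ⟨f, hf, e1, e2, e3⟩ := Sk.exists_far ho hv
  exact ⟨f, n.spoke f hf (e1 ▸ hx) (e2 ▸ k), e1, e3⟩

end New

theorem exists_own {ε : Type} (I P : Set MV) (Uf : MV → Set ε) (own : ε → Option MV) :
    ∃ own' : ε → Option MV,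
      (∀ a x, own' a = some x → (x ∈ I ∧ a ∈ Uf x) ∨ (x ∈ P ∧ own a = some x)) ∧
      (∀ a, ∀ i ∈ I, a ∈ Uf i → ∃ j ∈ I, a ∈ Uf j ∧ own' a = some j) ∧
      (∀ a, ∀ x ∈ P, own a = some x → (∀ i ∈ I, a ∉ Uf i) → own' a = some x) ∧
      ∀ a a', (∀ i ∈ I, a ∈ Uf i ↔ a' ∈ Uf i) → own a = own a' → own' a = own' a' := by
  classical
  let sel : Set MV → Option MV → Option MV := fun Z o =>
    if h : Z.Nonempty then some h.some else if ∃ x ∈ P, o = some x then o else none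
  refine ⟨fun a => sel {i | i ∈ I ∧ a ∈ Uf i} (own a), fun a x e => ?_, fun a i hi k => ?_,
    fun a x hx e k => ?_, fun a a' k e => ?_⟩
  · simp only [sel] at e
    split_ifs at e with c1 c2
    · exact Or.inl (Option.some.inj e ▸ c1.some_mem)
    · obtain ⟨y, hy, c⟩ := c2
      exact Or.inr ⟨Option.some.inj (c.symm.trans e) ▸ hy, e⟩
  · have c : {i | i ∈ I ∧ a ∈ Uf i}.Nonempty := ⟨i, hi, k⟩
    exact ⟨c.some, c.some_mem.1, c.some_mem.2, dif_pos c⟩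
  · exact (dif_neg fun ⟨i, c⟩ => k i c.1 c.2).trans ((if_pos ⟨x, hx, e⟩).trans e)
  · exact congrArg₂ sel (Set.ext fun i => and_congr_right (k i)) e

theorem step (hb : HB.BasS) {σ : AG} {r : Rw σ} {k k' q s D l n : ℕ} {K X : Set MV}
    (hr : r.In k q s D l) (h : Hy r.s K X) (hn : X.ncard ≤ n) (hk : r.s.gn K ≤ k') :
    ∃ r' : Rw σ, r'.In k' (q + (s + q * n * 2)) (s + q * n * 2) D
        (l + n + (q + (s + q * n * 2)) * D) ∧ K ∩ r.s.T ⊆ r'.s.T ∧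
      ∀ u ∈ K ∩ r.s.T, ∀ v ∈ K ∩ r.s.T, r.s.G.Adj u v → r'.s.G.Adj u v := by
  classical
  obtain ⟨M', vx', H', Rk, pos', Q, w⟩ := h.exists_new
  have ho := hr.ok
  have hM := h.hM
  have co := hr.co
  have hK : ∀ x ∈ K, x ∉ r.s.H := fun x => h.kH
  have fV : r.s.Vt.Finite := hM.fin.image _
  have fX : X.Finite := fV.subset fun _ c => (h.xn c).1
  have fO : r.opn.Finite := hM.fin.subset fun _ c => c.1.1
  have fZ : ({g | g ∈ r.s.M.fl r.s.vx r.s.H ∧ r.s.vx (r.s.M.a g) ∈ X} : Set r.s.Φ).Finite :=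
    hM.fin.subset fun _ c => c.1.1
  have fQ : Q.Finite := (fO.union (fZ.image _)).subset w.qn
  have cQ : Q.ncard ≤ s + q * n * 2 :=
    (ncard_le_ncard w.qn (fO.union (fZ.image _))).trans ((ncard_union_le _ _).trans
      (add_le_add hr.op ((ncard_image_le fZ).trans ((spk_card ho hr.spk fX).trans
        (Nat.mul_le_mul_right _ (Nat.mul_le_mul co.holes hn))))))
  set I : Set MV := H' ∩ vx' '' M'.S with hI
  have fI : I.Finite := (w.hM.fin.image _).subset inter_subset_right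
  have cI : I.ncard ≤ q + (s + q * n * 2) := w.holes.trans (add_le_add co.holes cQ)
  let χ : r.s.Φ → r.s.Φ → ZMod 2 := fun f g => if g ∈ M'.vo f then 0 else 1
  have ex : ∀ x ∈ I, ∃ f ∈ M'.S, vx' f = x ∧ r.s.vx f ∈ r.s.H ∧ ∃ U ⊆ r.ct (r.s.vx f),
      (r.dcut f (χ f) U).ncard ≤ D := by
    rintro _ ⟨c, f, hf, rfl⟩
    have k := (w.hol f (w.sub hf)).1 c
    exact ⟨f, hf, rfl, k, co.dep f ⟨w.sub hf, k⟩ _ (w.two_fan ho hf k)⟩
  have : Nonempty r.s.Φ := let ⟨_, hx, _⟩ := h.nt; ⟨(h.flag (h.T0 hx)).choose⟩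
  choose! φ φ1 φ2 φ3 Uf U1 U2 using ex
  obtain ⟨own', o1, o2, o3, o4⟩ := exists_own I (r.s.Ce ∩ K) Uf r.own
  let Λ' : Set W := r.Λ ∪ (Sum.inl ⁻¹' X ∩ σ.sh) ∪ ⋃ i ∈ I, r.dcut (φ i) (χ (φ i)) (Uf i)
  let r' : Rw σ := ⟨r.s.re M' vx' H' Rk pos', Λ', own'⟩
  have cs : ∀ i, r.dcut (φ i) (χ (φ i)) (Uf i) ⊆ σ.sh := fun i _ c => c.1.2
  have ls : ∀ v ∈ Λ', v ∉ r.Λ → v ∈ σ.sh := by
    rintro v ((c | c) | c) m
    · exact (m c).elim
    · exact c.2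
    · exact let ⟨i, _, c⟩ := mem_iUnion₂.1 c; cs i c
  have ceH : ∀ x ∈ r.s.Ce ∩ K, x ∉ H' := fun x c m => (w.ce ▸ c : x ∈ r'.s.Ce).2 (Or.inl m)
  have ow : ∀ i ∈ I, ∀ a ∈ Uf i, r.own a = some (r.s.vx (φ i)) := fun i hi a ha => U1 i hi ha
  have nu : ∀ a, ∀ x ∈ r.s.Ce, r.own a = some x → ∀ i ∈ I, a ∉ Uf i := fun a x hx e i hi c =>
    hx.2 (Or.inl (Option.some.inj ((ow i hi a c).symm.trans e) ▸ φ3 i hi))
  have cv : ∀ i ∈ I, ∀ c, ∀ v ∈ r.s.clr (φ i) (χ (φ i)) c, v ∈ r.s.nb (r.s.vx (φ i)) := by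
    rintro i hi c _ ⟨g, ⟨hg, -⟩, rfl⟩
    have e := h.hL.of_vo hM (w.sub (φ1 i hi)) hg
    exact e ▸ Sk.far_mem_nb ho (hM.vo_mem (w.sub (φ1 i hi)) hg)
      (nd_of ho (Or.inl (e ▸ φ3 i hi)))
  have cd : ∀ i ∈ I, ∀ v, v ∉ r.s.clr (φ i) (χ (φ i)) 0 ∩ r.s.clr (φ i) (χ (φ i)) 1 :=
    fun i hi v c => clr_disj ho hr.spk (w.sub (φ1 i hi)) (φ3 i hi)
      (w.two_fan ho (φ1 i hi) (φ3 i hi)).1 c.1 c.2
  have nv : ∀ x, ∀ v ∈ r.s.nb x, Sum.inl v ∈ r.s.Vt := fun x v c =>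
    ((fSkS _ ho).2.2.2.1 _ _ (r.s.G.adj_symm c)).1
  have cut : ∀ i ∈ I, ∀ v ∈ σ.sh \ Λ', v ∈ σ.vs (Uf i) ∪ r.s.clr (φ i) (χ (φ i)) 0 →
      v ∉ σ.vs (r.ct (r.s.vx (φ i)) \ Uf i) ∪ r.s.clr (φ i) (χ (φ i)) 1 :=
    fun i hi v hv c1 c2 => hv.2 (Or.inr (mem_biUnion hi ⟨⟨⟨c1, c2⟩, hv.1⟩,
      fun m => m.elim (fun m => hv.2 (Or.inl (Or.inl m))) (cd i hi v)⟩))
  have new : ∀ v ∈ Λ', v ∉ r.Λ → Sum.inl v ∈ X ∨ ∃ x ∈ r.s.H, v ∈ r.s.nb x ∨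
      ∃ a, r.own a = some x ∧ v ∈ σ.inc a := by
    rintro v ((c | c) | c) m
    · exact (m c).elim
    · exact Or.inl c.1
    · obtain ⟨i, hi, c⟩ := mem_iUnion₂.1 c
      refine Or.inr ⟨_, φ3 i hi, c.1.1.1.symm.imp (cv i hi 0 v) fun c => ?_⟩
      obtain ⟨a, ha, c⟩ := mem_vs.1 c
      exact ⟨a, ow i hi a ha, c⟩
  have ctc : ∀ x ∈ r.s.Ce ∩ K, r'.ct x = r.ct x := fun x hx => Set.ext fun a =>
    ⟨fun c => ((o1 a x c).resolve_left fun m => ceH x hx m.1.1).2,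
      fun c => o3 a x hx c (nu a x hx.1 c)⟩
  refine ⟨r', ⟨⟨hb.1 _ w.ok, w.eg.trans hk, cI, ⟨fun v c => ?_, ?_, ?_⟩, fun v c m => ?_,
    fun a v c => ?_, fun a x c => ?_, fun a v hv hy => ?_, fun x hx => ?_, fun f hf ψ hψ => ?_⟩,
    w.ok, w.spk, ?_⟩, w.vt, fun u hu v hv => w.adj_new ho hK hu hv⟩
  · by_cases m : v ∈ r.Λ
    · exact co.lam.1 m
    · exact let ⟨_, c⟩ := sh_inc (ls v c m); c.2
  · exact (co.lam.2.1.union (sh_fin σ)).subset fun v c => (em _).imp_right (ls v c)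
  · refine (ncard_union_le _ _).trans (add_le_add ((ncard_union_le _ _).trans
      (add_le_add co.lam.2.2 ?_)) ((card_bU fI _ U2).trans (Nat.mul_le_mul_right _ cI)))
    exact (ncard_le_ncard_of_injOn Sum.inl (fun _ c => c.1) Sum.inl_injective.injOn fX).trans hn
  · obtain ⟨m1, m2⟩ := w.vt_old m (w.inl_not v)
    obtain ⟨x, hx, e⟩ : v ∈ r.s.Po := by
      by_cases c' : v ∈ r.Λ
      · exact co.lamn v c' m2
      obtain c | ⟨x, hx, c | ⟨a, ha, c1⟩⟩ := new v c c'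
      · exact ((h.sub m1).2 c).elim
      · exact ⟨x, hx, c⟩
      · obtain ⟨y, e, c⟩ := co.share a v ⟨⟨c1, ls v c c'⟩, c'⟩ (Or.inl m2)
        exact ⟨x, hx, Option.some.inj (e.symm.trans ha) ▸ c⟩
    obtain ⟨f, hf, rfl, rfl⟩ := w.spoke' ho hx e m1
    exact ⟨vx' f, (w.hol f (w.sub hf)).2 hx, w.far_nb ho hf hx⟩
  · by_cases m : v ∈ r.Λ
    · exact co.root a ⟨m, c.2⟩
    · exact ls v c.1 m
  · exact (o1 a x c).symm.imp (fun m => w.ce ▸ m.1) fun m => m.1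
  · have n0 : v ∉ r.Λ := fun c => hv.2 (Or.inl (Or.inl c))
    have nX : Sum.inl v ∉ X := fun c => hv.2 (Or.inl (Or.inr ⟨c, hv.1.2⟩))
    have hv' : v ∈ σ.sh \ Λ' := ⟨hv.1.2, hv.2⟩
    by_cases vV : Sum.inl v ∈ r.s.Vt
    swap
    · obtain ⟨a', e, c⟩ := hy.resolve_left fun c => vV (w.vt_old c (w.inl_not v)).2
      have e1 : r.own a' = r.own a := by_contra fun m =>
        let ⟨x, _, c⟩ := co.share a v ⟨hv.1, n0⟩ (Or.inr ⟨a', m, c⟩); vV (nv x v c)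
      have key : ∀ b b', v ∈ σ.inc b → v ∈ σ.inc b' → r.own b = r.own b' → ∀ i ∈ I, b ∈ Uf i →
          b' ∈ Uf i := fun b b' h1 h2 e i hi m => by_contra fun m' =>
        cut i hi v hv' (Or.inl (mem_vs.2 ⟨b, m, h1⟩))
          (Or.inl (mem_vs.2 ⟨b', ⟨e.symm.trans (ow i hi b m), m'⟩, h2⟩))
      exact (e (o4 a' a (fun i hi => ⟨key a' a c hv.1.1 e1 i hi,
        key a a' hv.1.1 c e1.symm i hi⟩) e1)).elim
    have sh : ∀ b, v ∈ σ.inc b → ∃ x, r.own b = some x ∧ v ∈ r.s.nb x := fun b c =>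
      co.share b v ⟨⟨c, hv.1.2⟩, n0⟩ (Or.inl vV)
    have sp : ∀ b, v ∈ σ.inc b → ∀ i ∈ I, b ∈ Uf i → ∀ g ∈ r.s.M.S, r.s.vx g = r.s.vx (φ i) →
        r.s.far g = v → g ∈ M'.vo (φ i) := fun b c i hi m g hg e1 e2 => by_contra fun m' =>
      cut i hi v hv' (Or.inl (mem_vs.2 ⟨b, m, c⟩)) (Or.inr ⟨g, ⟨(h.hL _ (w.sub (φ1 i hi)) g hg).1
        e1.symm, if_neg m'⟩, e2⟩)
    by_cases vK : Sum.inl v ∈ K
    · obtain ⟨x, e, c⟩ := sh a hv.1.1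
      rcases co.owner a x e with hx | hx
      · have xK : x ∈ K := h.step vK (r.s.G.adj_symm c) (fun m => hx.2 (Or.inl m)) fun m => by
          obtain ⟨u, m⟩ := (h.xn m).2
          obtain ⟨j, m'⟩ := hx.1.2
          rw [← m] at m'; cases m'
        exact ⟨x, o3 a x ⟨hx, xK⟩ e (nu a x hx e), w.adj_new ho hK ⟨xK, Or.inr hx⟩
          ⟨vK, Or.inl ⟨vV, v, rfl⟩⟩ c⟩
      · obtain ⟨f, hf, rfl, rfl⟩ := w.spoke' ho hx.1 c vK
        have hi : vx' f ∈ I := ⟨(w.hol f (w.sub hf)).2 hx.1, f, hf, rfl⟩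
        have m := (w.hL _ (φ1 _ hi) f hf).1 (φ2 _ hi)
        have e1 := w.vx_vo ho (φ1 _ hi) m
        have aU : a ∈ Uf (vx' f) := by_contra fun m' => cut _ hi _ hv'
          (Or.inr ⟨f, ⟨w.vo _ (φ1 _ hi) m, if_pos m⟩, rfl⟩)
          (Or.inl (mem_vs.2 ⟨a, ⟨e1 ▸ e, m'⟩, hv.1.1⟩))
        obtain ⟨j, hj, aj, e2⟩ := o2 a _ hi aU
        have := sp a hv.1.1 j hj aj f (w.sub hf) (Option.some.inj (e.symm.trans (ow j hj a aj))) rfl
        refine ⟨j, e2, ?_⟩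
        rw [← φ2 j hj, (w.hL _ (φ1 j hj) f hf).2 this]
        exact w.far_nb ho hf hx.1
    · have no : ∀ b, v ∈ σ.inc b → own' b = none := fun b c => by
        refine Option.eq_none_iff_forall_ne_some.2 fun y e => vK ?_
        obtain ⟨x, e1, c1⟩ := sh b c
        rcases o1 b y e with m | m
        · obtain rfl := Option.some.inj (e1.symm.trans (ow y m.1 b m.2))
          obtain ⟨g, hg, e2, -, rfl⟩ := Sk.exists_far ho c1
          exact w.far_K ho (w.hM.vo_mem (φ1 y m.1) (sp b c y m.1 m.2 g hg e2 rfl))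
            (e2 ▸ φ3 y m.1)
        · obtain rfl := Option.some.inj (e1.symm.trans m.2)
          exact h.step m.1.2 c1 (fun k => nd_of ho (Or.inl k) ⟨vV, v, rfl⟩) nX
      obtain ⟨a', e, c⟩ := hy.resolve_left fun c => vK (w.vt_old c (w.inl_not v)).1
      exact (e ((no a' c).trans (no a hv.1.1).symm)).elim
  · have hx' : x ∈ r.s.Ce ∩ K := w.ce ▸ hx
    rw [ctc x hx']
    refine solid_res (co.solid x hx'.1) (fun v c => ⟨w.nb_old ho (ceH x hx') c.1,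
      fun m => c.2 (Or.inl (Or.inl m))⟩) (fun v c => c.2) fun v c m m' => ⟨?_, m'⟩
    obtain ⟨a, ha, c⟩ := mem_vs.1 (σ.vs_un _ ▸ c)
    obtain ⟨y, e, c⟩ := co.share a v ⟨⟨c, ls v m m'⟩, m'⟩ (by
      obtain c | ⟨y, hy, c | ⟨b, e, c⟩⟩ := new v m m'
      · exact Or.inl (h.xn c).1
      · exact Or.inl (nv y v c)
      · exact Or.inr ⟨b, fun e' => hx'.1.2 (Or.inl
          (Option.some.inj (e.symm.trans (e'.trans ha)) ▸ hy)), c⟩)
    exact Option.some.inj (e.symm.trans ha) ▸ c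
  · have fS : f ∈ M'.S := hf.1
    have k := (w.hol f (w.sub fS)).1 hf.2
    obtain ⟨ψ', t1, t2⟩ := w.two_ext ho fS k hψ
    obtain ⟨U, u1, u2⟩ := co.dep f ⟨w.sub fS, k⟩ ψ' t1
    have c1 : r'.ct (vx' f) ⊆ r.ct (r.s.vx f) := fun a c => by
      obtain ⟨hi, m⟩ := (o1 a _ c).resolve_right fun m => ceH _ m.1 hf.2
      exact w.vx_vo ho (φ1 _ hi) ((w.hL _ (φ1 _ hi) f fS).1 (φ2 _ hi)) ▸ U1 _ hi m
    have c2 : ∀ c, r'.s.clr f ψ c ⊆ r.s.clr f ψ' c := by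
      rintro c _ ⟨g, ⟨hg, e⟩, rfl⟩
      exact ⟨g, ⟨w.vo f fS hg, (t2 g hg).trans e⟩,
        (w.far_eq ho (w.hM.vo_mem fS hg) (w.vx_vo ho fS hg ▸ k)).symm⟩
    refine ⟨U ∩ r'.ct (vx' f), inter_subset_right,
      (ncard_le_ncard (fun v c => ?_) ((sh_fin σ).subset fun _ c => c.1.2)).trans u2⟩
    exact ⟨⟨⟨c.1.1.1.imp (vs_mono inter_subset_left ·) (c2 0 ·), c.1.1.2.imp
      (vs_mono (U' := r.ct (r.s.vx f) \ U) (fun a m => ⟨c1 m.1, fun m' => m.2 ⟨m', m.1⟩⟩) ·)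
      (c2 1 ·)⟩, c.1.2⟩,
      fun m => m.elim (fun m => c.2 (Or.inl (Or.inl (Or.inl m))))
        fun m => clr_disj ho hr.spk (w.sub fS) k t1.1 m.1 m.2⟩
  · refine (ncard_le_ncard (fun f c => by_contra fun m => c.2 ?_) fQ).trans cQ
    exact (w.qb f c.1.1 ((w.hol f (w.sub c.1.1)).1 c.1.2) m).2

end AbsG

open AbsG in
theorem absGS (hb : HB.BasS) : HB.AbsGS := by
  intro q s D l n
  refine ⟨_, _, _, fun σ r k g B X hr hB hg hX hn hk => step hb hr ?_ hn hk⟩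
  have fX : X.Finite := (hr.ok.hm.ok.fin.image _).subset fun _ c => (hX c).1
  have sT : r.s.T ⊆ r.s.tv := fun x c => c.elim
    (fun c => ⟨c.1, fun m => nd_of hr.ok (Or.inl m) c⟩) fun c => ⟨c.1.1, fun m => c.2 (Or.inl m)⟩
  obtain ⟨-, b2, -, b4, -⟩ := bigS _ r.s.G g B _ r.s.tv hB (sdiff_subset.trans sT)
  obtain ⟨i, j, d⟩ := b4 X fX (by omega)
  obtain ⟨c1, c2, c3, c4⟩ := b2 X
  have m : ∀ k, ∃ u ∈ B (i, k), u ∈ r.s.bg B X ∩ r.s.T := fun k =>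
    let ⟨u, hu⟩ := (hB.2.1 (i, k)).1
    ⟨u, hu, c4 i j d (mem_iUnion.2 ⟨k, Or.inl hu⟩), (hB.1 _ hu).1⟩
  obtain ⟨u, u1, u2⟩ := m ⟨0, by omega⟩
  obtain ⟨v, v1, v2⟩ := m ⟨1, by omega⟩
  exact ⟨hr.ok, hr.spk, c1, c2 ⟨u, u2.1⟩, c3, hX, u, u2, v, v2, fun e =>
    disjoint_left.1 (hB.2.2.1 _ _ (by simp)) u1 (e ▸ v1)⟩

end Pool.Agent.MP_9d78a0_co.gm

end MrgPart2

-- ======== part 3: formerly Pool.Agent.MP_9d78a0_co.gm.HRing
section MrgPart3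

/-! Block H: the rings round a hole give an admissible set. -/

set_option autoImplicit false

namespace Pool.Agent.MP_9d78a0_co.gm

open Set Function

namespace HB

namespace HRing

variable {σ : AG} {r : Rw σ} {k q D l : ℕ} {U0 : Set MV} {z : Zg r.s}

/-- the ring of level `j + 1`, cut at the geodesic, joins the two copies -/
theorem ring (hL : LevS) (hG : GamS) (h : r.Cx k q D l U0 z) {j : ℕ} (j1 : z.rr + 1 ≤ j)
    (j2 : j < z.m) : ∃ S ⊆ r.Dm z (r.s.Nd \ r.s.Kc U0 z.x z.m), Conn (r.GG z) S ∧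
      (S ∩ z.Sd 0).Nonempty ∧ (S ∩ z.Sd 1).Nonempty ∧
      ∀ u ∈ S, Sum.inl u.1 ∈ r.s.Lv z.x (j + 1) \ r.s.Lv z.x j := by
  classical
  have h0 := h.co.ok0
  have hM := h0.hm.ok
  have g := hM.gk
  have lb := h0.hm.lbl
  obtain ⟨l1, -, -, l4⟩ := hL r.s U0 _ z.x h.zx h.hole
  obtain ⟨-, k2, -, -, -, -, -, -, k9, k10, -, k12, k13, k14, k15⟩ := l4 j (by omega)
  have km := (l4 z.m (by omega)).2.1
  obtain ⟨g1, -, g3, g4, g5, -, -, g8, g9, -⟩ := hG σ r k q D l U0 z h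
  have vb : ∀ f ∈ r.s.M.S, r.s.vx (r.s.M.b f) = r.s.vx f := fun f hf =>
    ((lb f hf _ (g.bm hf)).2 (Cy.orb_p (Cy.orb_self ..))).symm
  have vc : ∀ f ∈ r.s.M.S, r.s.vx (r.s.M.c f) = r.s.vx f := fun f hf =>
    ((lb f hf _ (g.cm hf)).2 (Cy.orb_q (Cy.orb_self ..))).symm
  obtain ⟨K, hK⟩ : ∃ K, K = r.s.Kc U0 z.x j := ⟨_, rfl⟩
  obtain ⟨U, hU⟩ : ∃ U, U = r.s.M.ind r.s.vx K := ⟨_, rfl⟩
  have mU : ∀ f, f ∈ U ↔ f ∈ r.s.M.S ∧ r.s.vx f ∈ K ∧ r.s.vx (r.s.M.a f) ∈ K := fun f => by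
    rw [hU]; rfl
  have eU : r.s.M.Es U := by
    refine ⟨fun f hf => ((mU f).1 hf).1, fun f hf => ?_⟩
    obtain ⟨f1, f2, f3⟩ := (mU f).1 hf
    refine ⟨(mU _).2 ⟨g.am f1, f3, by rw [g.aa f1]; exact f2⟩,
      (mU _).2 ⟨g.cm f1, by rw [vc f f1]; exact f2, ?_⟩⟩
    rw [g.ac f f1, vc _ (g.am f1)]
    exact f3
  have ip := g.sg eU
  obtain ⟨p1, p2, p3, p4, p5⟩ := h.geo.pm j j2.le
  obtain ⟨p6, p7, -⟩ := h.geo.pm (j + 1) j2
  have q1 : z.q (j + 1) ∈ r.s.M.S := g.sF.sub p1 p3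
  have arS : ∀ f ∈ r.s.ar K z.x, r.s.M.a f ∈ r.s.ar K z.x ∧ r.s.M.b f ∈ r.s.ar K z.x ∧
      (f ∉ U → r.s.M.c f ∈ r.s.ar K z.x) := by
    rintro f ⟨p, hp, e, m⟩
    exact ⟨⟨p, hp, e, m.tail (Or.inl rfl)⟩, ⟨p, hp, e, m.tail (Or.inr (Or.inl rfl))⟩,
      fun n => ⟨p, hp, e, m.tail (Or.inr (Or.inr ⟨hU ▸ n, rfl⟩))⟩⟩
  have qa : z.q (j + 1) ∈ r.s.ar K z.x := by
    refine Cy.orb_ind (P := (· ∈ r.s.ar K z.x)) p3 ?_ (fun f m => (arS f m).1)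
      fun f m => (arS f m).2.1
    rw [hK]
    refine k9 _ p1 (fun m => (k2 m).2 (p2 ▸ ((g1 j (by omega)).1 j).2 le_rfl)) fun m => ?_
    obtain ⟨i, rfl⟩ : ∃ i, j = i + 1 := ⟨j - 1, by omega⟩
    obtain ⟨v, e⟩ := (h.geo.pm i (by omega)).2.2.2.2.2.2
    obtain ⟨n, e'⟩ := h0.hr.1 m.1
    rw [p2, ← e] at e'
    cases e'
  obtain ⟨F, hF⟩ : ∃ F, F = orb (r.s.M.sg U) r.s.M.b (z.q (j + 1)) := ⟨_, rfl⟩
  have fp : ∀ f ∈ F, r.s.M.sg U f ∈ F := fun f m => hF ▸ Cy.orb_p (hF ▸ m)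
  have fa : ∀ f ∈ F, f ∈ U → r.s.M.a f ∈ F := fun f m u => FM.sg_in u ▸ fp f m
  have mF : ∀ f ∈ F, f ∈ r.s.M.S ∧ r.s.vx f ∈ K ∧ f ∈ r.s.ar K z.x := by
    intro f m
    rw [hF] at m
    refine Cy.orb_ind (P := fun f => f ∈ r.s.M.S ∧ r.s.vx f ∈ K ∧ f ∈ r.s.ar K z.x) m
      ⟨q1, by rw [p4, hK]; exact p5.1.2, qa⟩ (fun f ⟨a1, a2, a3⟩ => ?_)
      fun f ⟨a1, a2, a3⟩ => ⟨g.bm a1, by rw [vb f a1]; exact a2, (arS f a3).2.1⟩
    by_cases u : f ∈ U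
    · rw [FM.sg_in u]
      exact ⟨g.am a1, ((mU f).1 u).2.2, (arS f a3).1⟩
    · rw [FM.sg_out u]
      exact ⟨g.cm a1, by rw [vc f a1]; exact a2, (arS f a3).2.2 u⟩
  have wF : ∀ f ∈ F, r.s.vx f ∈ r.s.Wr U0 z.x j := fun f m =>
    ⟨hK ▸ (mF f m).2.1, f, hK ▸ (mF f m).2.2, rfl⟩
  have nF : ∀ f ∈ F, f ∉ r.s.M.fo (z.p (j + 1)) := fun f m n => by
    obtain ⟨f', a1, a2, -⟩ := k10 f (hK ▸ (mF f m).2.2) (hK ▸ (mF f m).2.1)
    exact disjoint_left.1 (g3 (j + 1) j2 j (Nat.lt_succ_self j)) n ⟨(mF f m).1, f', a1, a2⟩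
  have lF : ∀ f ∈ F, r.s.vx f ∈ r.s.Nd → r.s.vx f ∈ r.s.Lv z.x (j + 1) \ r.s.Lv z.x j :=
    fun f m n => ⟨(k12.subset ⟨wF f m, n⟩).2, (k2 (wF f m).1).2⟩
  have cF : ∀ f ∈ F, r.s.vx f ∉ r.s.Nd → r.s.vx f ∈ r.s.Ce \ z.Fi := fun f m n => by
    refine ⟨(k15 (by omega) (wF f m)).resolve_left n, fun c => ?_⟩
    obtain ⟨v, v1, v2⟩ := k13 _ ⟨wF f m, n⟩
    exact (k2 v1.1.1).2 ((l1 _ _ j1).1 (g8 _ c v v2).1)
  have oz : ∀ f ∈ F, Cy.one r.s.M.b (z.p (j + 1)) f = 0 := fun f m => if_neg fun e =>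
    nF f m (e.elim (fun e => e ▸ Cy.orb_self ..) fun e => e ▸ Cy.orb_q (Cy.orb_self ..))
  obtain ⟨-, s2, -, s4⟩ := h.geo.side (j + 1) (by omega) j2
  obtain ⟨S, hS⟩ : ∃ S, S = {u | ∃ f ∈ F, r.s.vx f ∈ r.s.Nd ∧ u = z.cp f} := ⟨_, rfl⟩
  have mS : ∀ f ∈ F, r.s.vx f ∈ r.s.Nd → z.cp f ∈ S := fun f m n => hS ▸ ⟨f, m, n, rfl⟩
  have an : ∀ f ∈ F, r.s.vx f ∉ r.s.Nd → r.s.vx (r.s.M.a f) ∈ r.s.Nd := fun f m n =>
    by_contra fun c => n ((h0.bip f (mF f m).1).2 c)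
  let φ : r.s.Φ → Set (W × ZMod 2) := fun f =>
    {u | (r.s.vx f ∈ r.s.Nd ∧ Link (r.GG z) S (z.cp f) u) ∨ (r.s.vx f ∉ r.s.Nd ∧
      ∃ f' ∈ F ∩ U, r.s.vx f' = r.s.vx f ∧ Link (r.GG z) S (z.cp (r.s.M.a f')) u)}
  have same : ∀ f f', r.s.vx f' = r.s.vx f → (r.s.vx f ∈ r.s.Nd → z.lam f' = z.lam f) →
      φ f' = φ f := fun f f' e e' => by
    ext u
    simp only [φ, mem_ofPred_eq, e]
    refine or_congr (and_congr_right fun n => ?_) Iff.rfl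
    rw [Zg.cp, Zg.cp, e, e' n]
  have cell : ∀ f ∈ F, f ∈ U → r.s.vx f ∉ r.s.Nd → φ (r.s.M.a f) = φ f := fun f m u n => by
    have n' := an f m n
    ext w
    refine ⟨fun c => Or.inr ⟨n, f, ⟨m, u⟩, rfl, (c.resolve_right fun c => c.1 n').2⟩,
      fun c => Or.inl ⟨n', ?_⟩⟩
    obtain ⟨-, f', ⟨m', u'⟩, e, c⟩ := c.resolve_left fun c => n c.1
    refine Link.trans ?_ c
    by_cases e' : z.cp (r.s.M.a f) = z.cp (r.s.M.a f')
    · exact e' ▸ Link.refl _ _ _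
    · exact Link.single (mS _ (fa f m u) n') (mS _ (fa f' m' u') (an f' m' (e ▸ n)))
        ⟨e', Or.inl ⟨f, (mF f m).1, f', (mF f' m').1, e.symm, cF f m n, rfl, rfl⟩⟩
  have key : ∀ f ∈ F, φ f = φ (z.q (j + 1)) := by
    intro f m
    refine Cy.eq_of_cut hM.fin ip hM.ib q1 (φ := φ) (fun y hy => ?_) (fun y hy n1 n2 => ?_) (hF ▸ m)
    · rw [← hF] at hy
      have y1 := (mF y hy).1
      by_cases u : y ∈ U
      · rw [FM.sg_in u]
        by_cases n : r.s.vx y ∈ r.s.Nd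
        · have := cell _ (fa y hy u) (eU.2 y u).1 ((h0.bip y y1).1 n)
          rw [g.aa y1] at this
          exact this.symm
        · exact cell y hy u n
      · rw [FM.sg_out u]
        exact same _ _ (vc y y1) fun _ => g5 y y1
    · rw [← hF] at hy
      have y1 := (mF y hy).1
      refine same _ _ (vb y y1) fun n => ?_
      by_cases c : r.s.vx y ∈ z.Γ z.m
      · obtain ⟨i, i1, i2, e⟩ := c
        have a1 := lF y hy n
        rw [e] at a1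
        have a2 := ((g1 i (by omega)).1 _).1 a1.1
        have a3 : ¬ i ≤ j := fun t => a1.2 (((g1 i (by omega)).1 j).2 t)
        obtain rfl : i = j + 1 := by omega
        rw [s2 y ((lb _ p6 y y1).1 (p7.trans e.symm)), Pi.add_apply, oz y hy,
          show Cy.one r.s.M.b (z.q (j + 1)) y = 0 from if_neg fun t => t.elim n1 n2]
        simp
      · rw [h.geo.lam0 y c, h.geo.lam0 _ (by rw [vb y y1]; exact c)]
  have qF : z.q (j + 1) ∈ F := hF ▸ Cy.orb_self ..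
  have qN : r.s.vx (z.q (j + 1)) ∈ r.s.Nd := p4 ▸ p5.2
  have nd : ∀ f, r.s.vx f ∈ r.s.Nd → Sum.inl (z.cp f).1 = r.s.vx f := by
    rintro f ⟨-, v, e⟩
    rw [Zg.cp, ← e]
    rfl
  refine ⟨S, ?_, fb.conn_of_center (mS _ qF qN) ?_, ⟨_, mS _ qF qN, j + 1, by omega, j2, ?_⟩,
    ⟨_, mS (r.s.M.b (z.q (j + 1))) (hF ▸ Cy.orb_q (Cy.orb_self ..)) (by rw [vb _ q1]; exact qN),
      j + 1, by omega, j2, ?_⟩, ?_⟩
  · rw [hS]
    rintro _ ⟨f, m, n, rfl⟩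
    have a1 := lF f m n
    refine ⟨fun c => a1.2 ((l1 1 j (by omega)).1 ?_), Or.inl ⟨f, (mF f m).1,
      ⟨n, fun c => (km c).2 ((l1 _ _ j2).1 a1.1)⟩, rfl⟩⟩
    rw [← nd f n]
    exact g9 _ c (by rw [nd f n]; exact k14 (wF f m))
  · intro u hu
    rw [hS] at hu
    obtain ⟨f, m, n, rfl⟩ := hu
    have : z.cp f ∈ φ f := Or.inl ⟨n, Link.refl _ _ _⟩
    rw [key f m] at this
    exact (this.resolve_right fun c => c.1 qN).2
  · rw [Zg.cp, p4, s4]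
  · rw [Zg.cp, vb _ q1, p4, s2 _ (g4 (j + 1) (by omega) j2).1, s4, Pi.add_apply, oz _ qF,
      show Cy.one r.s.M.b (z.q (j + 1)) (z.q (j + 1)) = 1 from if_pos (Or.inl rfl)]
    simp
  · rw [hS]
    rintro _ ⟨f, m, n, rfl⟩
    rw [nd f n]
    exact lF f m n

end HRing

theorem ringS : BasS → AreaS → LevS → GamS → RingS := by
  intro _ _ hL hG σ r k q D l U0 z h
  obtain ⟨l1, -, -, l4⟩ := hL r.s U0 _ z.x h.zx h.hole
  obtain ⟨-, k2, -, -, -, -, -, -, -, -, k11, k12, -, k14, k15⟩ := l4 z.m (by omega)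
  have hm : z.m = z.rr + 1 + z.e := rfl
  have low : r.s.Lv z.x (z.rr + 1) ∩ r.s.Nd ⊆ r.s.Nd \ r.s.Kc U0 z.x z.m := fun v hv =>
    ⟨hv.2, fun c => (k2 c).2 ((l1 _ _ (by omega)).1 hv.1)⟩
  refine ⟨Subset.rfl, low, ⟨by omega, le_rfl⟩, fun i i1 i2 => iff_of_true ?_ i2, fun v hv c => ?_,
    fun X hX hc => ?_⟩
  · obtain ⟨i, rfl⟩ : ∃ j, i = j + 1 := ⟨i - 1, by omega⟩
    have := (h.geo.pm i (by omega)).2.2.2.2
    exact ⟨this.2, fun c => (k2 c).2 ((l1 _ _ i2).1 this.1.1)⟩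
  · have vK : v ∈ r.s.Kc U0 z.x z.m := by_contra fun n => hv.2 ⟨hv.1, n⟩
    obtain ⟨-, p, hp, e⟩ := h.hole
    have := (h.geo.pm z.m le_rfl).2.2.2.2
    refine ⟨z.m + 1, Nat.lt_succ_self _, le_rfl, Link.mono (fun w hw => ?_)
      ((k11 p hp e).conn.2 v (k12.superset ⟨vK, c.resolve_left fun n => n vK⟩).1 _
        (k12.superset ⟨this.1.2, this.1.1⟩).1)⟩
    exact ⟨⟨k15 (by omega) hw, fun n => n.2 hw.1⟩, (k14 hw).2⟩
  · have fin := ((hG σ r k q D l U0 z h).2.2.2.2.2.2.2.2.2.2.2 _ sdiff_subset low).1.subset hX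
    by_contra n
    have : ∀ i : ℕ, ∃ u, i < z.e → u ∈ X ∧
        Sum.inl u.1 ∈ r.s.Lv z.x (z.rr + 1 + i + 1) \ r.s.Lv z.x (z.rr + 1 + i) := fun i => by
      by_cases hi : i < z.e
      · obtain ⟨S, s1, s2, s3, s4, s5⟩ := HRing.ring hL hG h (j := z.rr + 1 + i) (by omega)
          (by omega)
        by_contra c
        exact n ⟨S, fun u hu => ⟨s1 hu, fun t => c ⟨u, fun _ => ⟨t, s5 u hu⟩⟩⟩, s2, s3, s4⟩
      · exact ⟨(Sum.inl 0, 0), fun t => absurd t hi⟩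
    choose u hu using this
    have := ncard_le_ncard_of_injOn (s := Iio z.e) u (fun i hi => (hu i hi).1)
      (fun i hi j hj e => by
        have a := (hu i hi).2
        have b := (hu j hj).2
        rw [e] at a
        rcases lt_trichotomy i j with t | t | t
        · exact absurd ((l1 _ _ (by omega)).1 a.1) b.2
        · exact t
        · exact absurd ((l1 _ _ (by omega)).1 b.1) a.2) fin
    rw [← Finset.coe_range, ncard_coe_finset, Finset.card_range] at this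
    omega

end HB

end Pool.Agent.MP_9d78a0_co.gm

end MrgPart3

-- ======== part 4: formerly Pool.Agent.MP_9d78a0_co.gm.HCol
section MrgPart4

/-! Block H, vortex: colourings of the graph of a zone, and admissible sets of least size. -/

set_option autoImplicit false

namespace Pool.Agent.MP_9d78a0_co.gm

open Set Function

namespace HCol

theorem nd_eq {s : Sk} {v : MV} (h : v ∈ s.Nd) : Sum.inl (nodeOf v) = v := by
  obtain ⟨-, w, rfl⟩ := h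
  rfl

theorem ce_nd {s : Sk} {v : MV} (h : v ∈ s.Ce) : v ∉ s.Nd := by
  rintro ⟨-, w, rfl⟩
  obtain ⟨⟨-, w', e⟩, -⟩ := h
  cases e

theorem adj_flag {s : Sk} (h : s.M.Ok) {u v : MV} (a : s.G.Adj u v) :
    ∃ g ∈ s.M.S, s.vx g = u ∧ s.vx (s.M.a g) = v := by
  obtain ⟨-, f, hf, k | k⟩ := a
  · exact ⟨f, hf, k⟩
  · exact ⟨s.M.a f, (h.ia f hf).1, k.2, by rw [(h.ia f hf).2.1]; exact k.1⟩

theorem vo_mem {Φ : Type} {M : FM Φ} (h : M.Ok) {f g : Φ} (hf : f ∈ M.S) (hg : g ∈ M.vo f) :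
    g ∈ M.S := by
  induction hg with
  | refl => exact hf
  | tail _ k ih =>
    rcases k with rfl | rfl
    · exact (h.ib _ ih).1
    · exact (h.ic _ ih).1

theorem two (c : ZMod 2) : c = 0 ∨ c = 1 := by revert c; decide

theorem sep_mono {V : Type} {G : SimpleGraph V} {D D' L R : Set V} {e : ℕ} (h : Sepn G D L R e)
    (hD : D ⊆ D') (hf : D'.Finite) : Sepn G D' L R e := by
  intro X hX hc
  obtain ⟨S, h1, h2⟩ := h (X ∩ D) inter_subset_right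
    ((ncard_le_ncard inter_subset_left (hf.subset hX)).trans_lt hc)
  exact ⟨S, fun v hv => ⟨hD (h1 hv).1, fun k => (h1 hv).2 ⟨k, (h1 hv).1⟩⟩, h2⟩

theorem sep_lanes {V : Type} {G : SimpleGraph V} {D D' L R : Set V} {e : ℕ} {n : ℕ → ℕ}
    {y : ℕ → ℕ → V} (h : Lns G D L R e n y) (hD : ∀ l < e, ∀ i ≤ n l, y l i ∈ D')
    (hf : D'.Finite) : Sepn G D' L R e := by
  intro X hX hc
  have key : ∃ l < e, ∀ i ≤ n l, y l i ∉ X := by
    by_contra c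
    push Not at c
    choose! i h1 h2 using c
    have := ncard_le_ncard_of_injOn (s := Iio e) (t := X) (fun l => y l (i l))
      (fun l hl => h2 l hl) (fun l hl l' hl' k => (h.inj l hl l' hl' _ (h1 l hl) _ (h1 l' hl') k).1)
      (hf.subset hX)
    rw [show (Iio e).ncard = e by
      rw [← Finset.coe_range, ncard_coe_finset, Finset.card_range]] at this
    omega
  obtain ⟨l, hl, hy⟩ := key
  have lk : ∀ i ≤ n l, Link G {v | ∃ i ≤ n l, v = y l i} (y l 0) (y l i) := by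
    intro i
    induction i with
    | zero => exact fun _ => Link.refl _ _ _
    | succ i ih =>
      exact fun hi => (ih (by omega)).trans
        (Link.single ⟨i, by omega, rfl⟩ ⟨i + 1, hi, rfl⟩ (h.adj l hl i (by omega)))
  refine ⟨{v | ∃ i ≤ n l, v = y l i}, ?_, ⟨⟨_, 0, Nat.zero_le _, rfl⟩, ?_⟩,
    ⟨y l 0, ⟨0, Nat.zero_le _, rfl⟩, (h.left l hl 0 (Nat.zero_le _)).2 rfl⟩,
    ⟨y l (n l), ⟨n l, le_rfl, rfl⟩, (h.right l hl _ le_rfl).2 rfl⟩⟩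
  · rintro _ ⟨i, hi, rfl⟩
    exact ⟨hD l hl i hi, hy i hi⟩
  · rintro _ ⟨i, hi, rfl⟩ _ ⟨j, hj, rfl⟩
    exact (lk i hi).symm.trans (lk j hj)

end HCol

namespace HB

open HCol

theorem colS : BasS → GamS → ColS := by
  intro _ gam σ r k q D l U0 z Z χ U Cn cx hZ low hU pa H1 H2 H3
  classical
  obtain ⟨g1, -, -, -, -, -, -, -, -, g10, -, g12⟩ := gam σ r k q D l U0 z cx
  obtain ⟨-, dm⟩ := g12 Z hZ low
  have ok := cx.co.ok0
  have hM := ok.hm.ok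
  have pa' : ∀ f ∈ r.s.M.S, χ (r.s.M.a f) = χ f := fun f hf => by simpa using pa f hf
  have xN : z.x ∉ r.s.Nd := by
    rintro ⟨-, w, e⟩
    obtain ⟨w', e'⟩ := ok.hr.1 cx.hole.1
    rw [← e] at e'
    cases e'
  obtain ⟨p0, px, -⟩ := cx.geo.pm 0 (Nat.zero_le _)
  rw [cx.geo.g0] at px
  have lam0 : ∀ f, r.s.vx f ∈ r.s.Lv z.x (z.rr + 1) → z.lam f = 0 := by
    intro f hf
    refine cx.geo.lam0 f ?_
    rintro ⟨i, h1, h2, e⟩
    rw [e] at hf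
    have := ((g1 i (by omega)).1 _).1 hf
    omega
  let sd : σ.ε → ZMod 2 := fun a => if a ∈ U then 0 else if r.own a = some z.x then 1 else
    if h : ∃ f ∈ r.s.M.S, r.own a = some (r.s.vx f) then χ h.choose else 0
  have sdc : ∀ a, ∀ g ∈ r.s.M.S, r.s.vx g ∈ z.Fi → r.own a = some (r.s.vx g) → sd a = χ g := by
    intro a g hg hF ho
    have n1 : r.own a ≠ some z.x := by
      rw [ho]
      intro e
      exact hF.1.2 (Or.inl (Option.some.inj e ▸ cx.hole.1))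
    have n2 : a ∉ U := fun h => n1 (hU h)
    have h : ∃ f ∈ r.s.M.S, r.own a = some (r.s.vx f) := ⟨g, hg, ho⟩
    simp only [sd, if_neg n1, if_neg n2, dif_pos h]
    exact (H3 g hg _ h.choose_spec.1 (Option.some.inj (ho.symm.trans h.choose_spec.2)) hF).symm
  let ψ : W × ZMod 2 → ZMod 2 := fun u =>
    if h : ∃ f ∈ r.s.M.S, r.s.vx f ∈ Z ∧ u = z.cp f then χ h.choose else
    if h : ∃ a ∈ r.Un z, u.1 ∈ σ.bd {a} then sd h.choose else 0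
  have c1 : ∀ f ∈ r.s.M.S, r.s.vx f ∈ Z → z.cp f ∉ Cn → ψ (z.cp f) = χ f := by
    intro f hf hz hc
    have h : ∃ g ∈ r.s.M.S, r.s.vx g ∈ Z ∧ z.cp f = z.cp g := ⟨f, hf, hz, rfl⟩
    simp only [ψ, dif_pos h]
    obtain ⟨k1, k2, k3⟩ := h.choose_spec
    refine (H1 f hf _ k1 hz ?_ (congrArg Prod.snd k3).symm hc).symm
    rw [← nd_eq (hZ k2), ← nd_eq (hZ hz)]
    exact congrArg Sum.inl (congrArg Prod.fst k3).symm
  have c2 : ∀ u ∈ r.Dm z Z \ Cn, u.1 ∉ r.dcut (z.p 0) χ U → u.2 = 0 → ∀ a ∈ r.Un z,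
      u.1 ∈ σ.bd {a} → ψ u = sd a := by
    intro u hu hd u2 a ha hb
    have nl : u.1 ∉ r.Λ := hu.1.1
    have inc : ∀ a, u.1 ∈ σ.bd {a} → u.1 ∈ σ.inc a := by
      rintro a ⟨⟨_, rfl, h⟩, -⟩
      exact h
    have sh : u.1 ∈ σ.sh := mem_iUnion.2 ⟨a, hb⟩
    have vs : ∀ {a} {Y : Set σ.ε}, a ∈ Y → u.1 ∈ σ.bd {a} → u.1 ∈ σ.vs Y :=
      fun h h' => mem_biUnion h (inc _ h')
    have clr : ∀ c, u.1 ∈ r.s.clr (z.p 0) χ c → ∃ g ∈ r.s.M.S,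
        r.s.vx (r.s.M.a g) = Sum.inl u.1 ∧ χ g = c := by
      rintro c ⟨g, ⟨hg, hc⟩, e⟩
      have gS := vo_mem hM p0 hg
      have gx : r.s.vx g = z.x := ((ok.hm.lbl _ p0 _ gS).2 hg).symm.trans px
      have : r.s.vx (r.s.M.a g) ∈ r.s.Nd := by
        by_contra n
        exact xN (gx ▸ (ok.bip g gS).2 n)
      exact ⟨g, gS, by rw [← e]; exact (nd_eq this).symm, hc⟩
    have cut : u.1 ∉ r.s.clr (z.p 0) χ 0 ∩ r.s.clr (z.p 0) χ 1 →
        u.1 ∈ σ.vs U ∪ r.s.clr (z.p 0) χ 0 →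
        u.1 ∈ σ.vs (r.ct z.x \ U) ∪ r.s.clr (z.p 0) χ 1 → False := by
      intro h0 h1 h2
      refine hd ⟨⟨⟨h1, by rw [px]; exact h2⟩, sh⟩, ?_⟩
      rintro (h | h)
      exacts [nl h, h0 h]
    by_cases hv : Sum.inl u.1 ∈ r.s.Vt
    · have lv := g10 a ha u.1 ⟨hb, nl⟩ hv
      have uZ := (dm u hu.1).2.1 hv
      have col : ∀ f ∈ r.s.M.S, r.s.vx f = Sum.inl u.1 → ψ u = χ f := by
        intro f hf e
        have : u = z.cp f := by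
          refine Prod.ext ?_ ?_
          · show u.1 = nodeOf (r.s.vx f)
            rw [e]
            rfl
          · exact u2.trans (lam0 f (e ▸ lv)).symm
        rw [this]
        exact c1 f hf (e ▸ uZ) (this ▸ hu.2)
      have col' : ∀ g ∈ r.s.M.S, r.s.vx (r.s.M.a g) = Sum.inl u.1 → ψ u = χ g :=
        fun g hg e => (col _ (hM.ia g hg).1 e).trans (pa' g hg)
      obtain ⟨x', ho, hn⟩ := cx.co.share a u.1 ⟨⟨inc a hb, sh⟩, nl⟩ (Or.inl hv)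
      obtain ⟨g, gS, gx, ga⟩ := adj_flag hM hn
      rw [col' g gS ga]
      rcases ha with ha | ⟨y, hy, ha⟩
      · have gx' : r.s.vx g = z.x := gx.trans (Option.some.inj (ho.symm.trans ha))
        have mem : u.1 ∈ r.s.clr (z.p 0) χ (χ g) :=
          ⟨g, ⟨(ok.hm.lbl _ p0 _ gS).1 (px.trans gx'.symm), rfl⟩, by
            show nodeOf _ = _
            rw [ga]
            rfl⟩
        have nb : u.1 ∉ r.s.clr (z.p 0) χ 0 ∩ r.s.clr (z.p 0) χ 1 := by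
          rintro ⟨h0, h1⟩
          obtain ⟨g0, s0, e0, k0⟩ := clr 0 h0
          obtain ⟨g1, s1, e1, k1⟩ := clr 1 h1
          have := (col' g0 s0 e0).symm.trans (col' g1 s1 e1)
          rw [k0, k1] at this
          exact absurd this (by decide)
        by_cases aU : a ∈ U
        · simp only [sd, if_pos aU]
          rcases two (χ g) with h | h
          · exact h
          · exact (cut nb (Or.inl (vs aU hb)) (Or.inr (h ▸ mem))).elim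
        · simp only [sd, if_neg aU, if_pos ha]
          rcases two (χ g) with h | h
          · exact (cut nb (Or.inr (h ▸ mem)) (Or.inl (vs ⟨ha, aU⟩ hb))).elim
          · exact h
      · have e : r.s.vx g = y := gx.trans (Option.some.inj (ho.symm.trans ha))
        exact (sdc a g gS (e ▸ hy) (e ▸ ha)).symm
    · have n1 : ¬ ∃ f ∈ r.s.M.S, r.s.vx f ∈ Z ∧ u = z.cp f := by
        rintro ⟨f, hf, hz, rfl⟩
        exact hv (by
          show Sum.inl (nodeOf (r.s.vx f)) ∈ _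
          rw [nd_eq (hZ hz)]
          exact ⟨f, hf, rfl⟩)
      have h : ∃ a ∈ r.Un z, u.1 ∈ σ.bd {a} := ⟨a, ha, hb⟩
      simp only [ψ, dif_neg n1, dif_pos h]
      obtain ⟨ha', hb'⟩ := h.choose_spec
      generalize h.choose = a' at ha' hb'
      have eo : r.own a' = r.own a := by
        by_contra n
        obtain ⟨x', -, hn⟩ := cx.co.share a u.1 ⟨⟨inc a hb, sh⟩, nl⟩ (Or.inr ⟨a', n, inc a' hb'⟩)
        obtain ⟨g, gS, -, ga⟩ := adj_flag hM hn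
        exact hv ⟨_, (hM.ia g gS).1, ga⟩
      have nb : u.1 ∉ r.s.clr (z.p 0) χ 0 ∩ r.s.clr (z.p 0) χ 1 := by
        rintro ⟨h0, -⟩
        obtain ⟨g, gS, ga, -⟩ := clr 0 h0
        exact hv ⟨_, (hM.ia g gS).1, ga⟩
      rcases ha with ha | ⟨y, hy, ha⟩
      · by_cases aU : a ∈ U <;> by_cases aU' : a' ∈ U
        · simp only [sd, if_pos aU, if_pos aU']
        · exact (cut nb (Or.inl (vs aU hb)) (Or.inl (vs ⟨eo.trans ha, aU'⟩ hb'))).elim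
        · exact (cut nb (Or.inl (vs aU' hb')) (Or.inl (vs ⟨ha, aU⟩ hb))).elim
        · simp only [sd, if_neg aU, if_neg aU', if_pos ha, if_pos (eo.trans ha)]
      · obtain ⟨g, gS, rfl⟩ := hy.1.1.1
        rw [sdc a g gS hy ha, sdc a' g gS hy (eo.trans ha)]
  refine ⟨ψ, c1, ?_⟩
  rintro u hu v hv du dv ⟨-, ⟨f, hf, g, hg, e, hc, rfl, rfl⟩ | ⟨a, ha, u2, v2, ub, vb⟩⟩
  · have inZ : ∀ f ∈ r.s.M.S, r.s.vx f ∈ r.s.Ce → z.cp (r.s.M.a f) ∈ r.Dm z Z →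
        r.s.vx (r.s.M.a f) ∈ Z := by
      intro f hf hc hd
      have : r.s.vx (r.s.M.a f) ∈ r.s.Nd := by
        by_contra n
        exact ce_nd hc ((ok.bip f hf).2 n)
      have k := (dm _ hd).2.1
      rw [show Sum.inl (z.cp (r.s.M.a f)).1 = r.s.vx (r.s.M.a f) from nd_eq this] at k
      exact k this.1
    have zf := inZ f hf hc.1 hu.1
    have zg := inZ g hg (e ▸ hc.1) hv.1
    rw [c1 _ (hM.ia f hf).1 zf hu.2, c1 _ (hM.ia g hg).1 zg hv.2, pa' f hf, pa' g hg]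
    exact H2 f hf g hg e hc zf zg hu.2 hv.2
  · rw [c2 u hu du u2 a ha ub, c2 v hv dv v2 a ha vb]

theorem minS : BasS → AreaS → LevS → GamS → MinS := by
  intro bas _ lev gam σ r k q D l U0 z Z t cx ad mn
  obtain ⟨g1, -, -, -, -, -, -, -, -, -, -, g12⟩ := gam σ r k q D l U0 z cx
  have hZ : Z ⊆ r.s.Nd := fun v hv => (ad.sub hv).1
  obtain ⟨dfin, dm⟩ := g12 Z hZ ad.low
  have ok := cx.co.ok0
  obtain ⟨vf, htv, -⟩ := bas.2 r.s ok
  have zf : Z.Finite := vf.subset fun v hv => (hZ hv).1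
  obtain ⟨-, l2, -, l4⟩ := lev r.s U0 _ z.x cx.zx cx.hole
  obtain ⟨k1, -, -, -, k5, k6, -, k8, -⟩ := l4 z.m (by omega)
  have less : ∀ v ∈ Z, ∀ t', ¬ r.Adm U0 z (Z \ {v}) t' := by
    intro v hv t' h
    have := mn _ _ h
    have := ncard_sdiff_singleton_lt_of_mem hv zf
    omega
  have dsub : ∀ v, r.Dm z (Z \ {v}) ⊆ r.Dm z Z := by
    rintro v u ⟨h1, ⟨f, hf, hz, e⟩ | h2⟩
    exacts [⟨h1, Or.inl ⟨f, hf, hz.1, e⟩⟩, ⟨h1, Or.inr h2⟩]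
  have tsub : ∀ v, (r.s.T \ Z) \ U0 ⊆ (r.s.T \ (Z \ {v})) \ U0 :=
    fun v w hw => ⟨⟨hw.1.1, fun h => hw.1.2 h.1⟩, hw.2⟩
  have Ttv : r.s.T ⊆ r.s.tv := by
    rw [htv]
    exact subset_union_left
  have gN : ∀ i, 1 ≤ i → i ≤ z.m + 1 → z.γ i ∈ r.s.Nd := by
    intro i h1 h2
    obtain ⟨j, rfl⟩ : ∃ j, i = j + 1 := ⟨i - 1, by omega⟩
    exact (cx.geo.pm j (by omega)).2.2.2.2.2
  constructor
  · rintro v ⟨vZ, y, ⟨yc, w, ⟨wN, wZ⟩, yw⟩, yv⟩ nl ng sp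
    refine less v vZ t ⟨fun u hu => ad.sub hu.1, fun u hu => ⟨ad.low hu, ?_⟩, ad.rng, ?_, ?_, ?_⟩
    · rintro rfl
      exact nl hu.1
    · intro i h1 h2
      refine ⟨fun h => (ad.gam i h1 h2).1 h.1, fun h => ⟨(ad.gam i h1 h2).2 h, ?_⟩⟩
      intro e
      exact ng ⟨i, h1, h, (mem_singleton_iff.1 e).symm⟩
    · intro u hu hk
      by_cases e : u = v
      · subst e
        have ytv : y ∈ r.s.tv := Ttv (Or.inr yc)
        have yA := k8 y ytv u (ad.sub vZ) yv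
        have hw : w ∉ r.s.Kc U0 z.x z.m ∨ w ∈ r.s.Lv z.x (z.m + 1) := by
          by_cases wK : w ∈ r.s.Kc U0 z.x z.m
          · right
            have yL : y ∉ r.s.Lv z.x z.m := by
              intro h
              rcases (l2 z.m).1 h with h | h
              · exact yc.2 (Or.inl ((mem_singleton_iff.1 h).symm ▸ cx.hole.1))
              · exact ce_nd yc h
            have yK := k5 w wK y ⟨ytv, yL⟩ yw.symm
            have uL : u ∈ r.s.Lv z.x z.m := by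
              by_contra n
              exact (ad.sub vZ).2 (k5 y yK u ⟨Ttv (Or.inl (hZ vZ)), n⟩ yv)
            exact (l2 z.m).2.2 y ⟨ytv, ce_nd yc⟩ u uL w yv yw
          · exact Or.inl wK
        have wU : w ∉ U0 := by
          rcases hw with h | h
          exacts [fun c => h (k1 c), (k6 h).2]
        obtain ⟨i, h1, h2, lk⟩ := ad.esc w ⟨wN, wZ⟩ hw
        have my : y ∈ (r.s.T \ (Z \ {u})) \ U0 :=
          ⟨⟨Or.inr yc, fun h => ce_nd yc (hZ h.1)⟩, yA.2⟩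
        have mu : u ∈ (r.s.T \ (Z \ {u})) \ U0 :=
          ⟨⟨Or.inl (hZ vZ), fun h => h.2 rfl⟩, fun c => (ad.sub vZ).2 (k1 c)⟩
        have mw : w ∈ (r.s.T \ (Z \ {u})) \ U0 := ⟨⟨Or.inl wN, fun h => wZ h.1⟩, wU⟩
        exact ⟨i, h1, h2, (Link.single mu my yv.symm).trans
          ((Link.single my mw yw).trans (lk.mono (tsub u)))⟩
      · obtain ⟨i, h1, h2, lk⟩ := ad.esc u ⟨hu.1, fun h => hu.2 ⟨h, e⟩⟩ hk
        exact ⟨i, h1, h2, lk.mono (tsub v)⟩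
    · refine sep_mono sp ?_ (dfin.subset (dsub v))
      rintro u ⟨⟨h1, ⟨f, hf, hz, e⟩ | h2⟩, ne⟩
      · refine ⟨h1, Or.inl ⟨f, hf, ⟨hz, fun c => ne ?_⟩, e⟩⟩
        have c' : r.s.vx f = v := c
        have : z.lam f = 0 := by
          refine cx.geo.lam0 f ?_
          rintro ⟨i, h1, h2, e'⟩
          exact ng ⟨i, h1, (ad.gam i h1 h2).1 (e' ▸ hz), c'.symm.trans e'⟩
        rw [e, mem_singleton_iff, Zg.cp, this, c']
      · exact ⟨h1, Or.inr h2⟩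
  · intro n y ln
    by_contra c
    push Not at c
    have he : 0 < z.e := by
      have := cx.e
      omega
    have ht : z.rr + 2 ≤ t := by
      obtain ⟨i, h1, h2, e⟩ := (ln.left 0 he 0 (Nat.zero_le _)).2 rfl
      have hN := gN i (by omega) (by omega)
      have k := (dm _ (ln.mem 0 he 0 (Nat.zero_le _))).2.1
      rw [e, show Sum.inl ((nodeOf (z.γ i), (0 : ZMod 2)) : W × ZMod 2).1 = z.γ i from
        nd_eq hN] at k
      have := (ad.gam i h1 h2).1 (k hN.1)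
      omega
    have tm := ad.rng.2
    refine less (z.γ t) ((ad.gam t ht tm).2 le_rfl) (t - 1) ⟨fun u hu => ad.sub hu.1,
      fun u hu => ⟨ad.low hu, ?_⟩, ⟨by omega, by omega⟩, ?_, ?_, ?_⟩
    · rintro rfl
      have := ((g1 t (by omega)).1 _).1 hu.1
      omega
    · intro i h1 h2
      constructor
      · intro h
        have := (ad.gam i h1 h2).1 h.1
        have : i ≠ t := fun e => h.2 (by rw [e]; rfl)
        omega
      · intro h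
        refine ⟨(ad.gam i h1 h2).2 (by omega), fun e => ?_⟩
        have e1 := (g1 i (by omega)).2
        rw [mem_singleton_iff.1 e, (g1 t (by omega)).2] at e1
        omega
    · intro u hu hk
      by_cases e : u = z.γ t
      · exact ⟨t, by omega, by omega, e ▸ Link.refl _ _ _⟩
      · obtain ⟨i, h1, h2, lk⟩ := ad.esc u ⟨hu.1, fun h => hu.2 ⟨h, e⟩⟩ hk
        exact ⟨i, by omega, h2, lk.mono (tsub _)⟩
    · refine sep_lanes ln ?_ (dfin.subset (dsub _))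
      intro j hj i hi
      have hm := ln.mem j hj i hi
      have ne : Sum.inl (y j i).1 ≠ z.γ t := by
        intro e
        rcases (dm _ hm).2.2.2.1 ⟨t, ht, tm, e⟩ with h | h
        · rw [(ln.left j hj i hi).1 h] at e
          exact (c j hj).1 e
        · rw [(ln.right j hj i hi).1 h] at e
          exact (c j hj).2 e
      obtain ⟨h1, ⟨f, hf, hz, e⟩ | h2⟩ := hm
      · refine ⟨h1, Or.inl ⟨f, hf, ⟨hz, fun c' => ne ?_⟩, e⟩⟩
        rw [e]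
        exact (nd_eq (hZ hz)).trans c'
      · exact ⟨h1, Or.inr h2⟩

end HB

end Pool.Agent.MP_9d78a0_co.gm

end MrgPart4

-- ======== part 5: formerly Pool.Agent.MP_9d78a0_co.gm.HShB
section MrgPart5

/-! Block H: the properties of the new structure that the loop uses. -/

set_option autoImplicit false

namespace Pool.Agent.MP_9d78a0_co.gm.HB

open Set Function

namespace shb

section maps

variable {s : Sk}

theorem adj_bip (h : s.Ok0) {u v : MV} (k : s.G.Adj u v) :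
    u ∈ s.Vt ∧ v ∈ s.Vt ∧ (u ∈ s.Nd ↔ v ∉ s.Nd) := by
  obtain ⟨-, f, hf, e⟩ := k
  have h1 : s.vx f ∈ s.Vt := ⟨f, hf, rfl⟩
  have h2 : s.vx (s.M.a f) ∈ s.Vt := ⟨_, (h.hm.ok.ia f hf).1, rfl⟩
  have h3 := h.bip f hf
  rcases e with ⟨rfl, rfl⟩ | ⟨rfl, rfl⟩
  · exact ⟨h1, h2, h3⟩
  · exact ⟨h2, h1, by tauto⟩

theorem inr_not_nd {y : MV} (hy : y ∈ range (Sum.inr : ℕ → MV)) : y ∉ s.Nd := by
  rintro ⟨-, v, rfl⟩
  obtain ⟨n, hn⟩ := hy
  cases hn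

theorem ce_not_nd {y : MV} (hy : y ∈ s.Ce) {s' : Sk} : y ∉ s'.Nd := inr_not_nd hy.1.2

theorem nd_eq {v : MV} (hv : v ∈ s.Nd) : Sum.inl (nodeOf v) = v := by
  obtain ⟨-, w, rfl⟩ := hv
  rfl

theorem adj_nd (h : s.Ok0) {y v : MV} (hy : y ∉ s.Nd) (k : s.G.Adj y v) : v ∈ s.Nd := by
  have := (adj_bip h k).2.2
  tauto

theorem hole_far (h : s.Ok0) {f : s.Φ} (hf : f ∈ s.M.S) (hx : s.vx f ∈ s.H) :
    s.vx (s.M.a f) = Sum.inl (s.far f) ∧ s.far f ∈ s.nb (s.vx f) := by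
  have h1 : s.vx f ∉ s.Nd := inr_not_nd (h.hr.1 hx)
  have h2 : s.vx (s.M.a f) ∈ s.Nd := by
    have := h.bip f hf
    tauto
  have h3 : s.vx (s.M.a f) = Sum.inl (s.far f) := (nd_eq h2).symm
  refine ⟨h3, ?_⟩
  refine ⟨fun e => h1 (e ▸ h3 ▸ h2), f, hf, Or.inl ⟨rfl, h3⟩⟩

theorem rot_mem (h : s.Ok0) {f : s.Φ} (hf : f ∈ s.M.S) (i : ℕ) :
    s.M.rot^[i] f ∈ s.M.S ∧ s.vx (s.M.rot^[i] f) = s.vx f := by
  induction i with
  | zero => exact ⟨hf, rfl⟩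
  | succ i ih =>
    rw [Function.iterate_succ_apply']
    have h1 := (h.hm.ok.ib _ ih.1).1
    have h2 := (h.hm.ok.ic _ h1).1
    refine ⟨h2, ?_⟩
    rw [← ih.2]
    refine ((h.hm.lbl _ ih.1 _ h2).2 ?_).symm
    show Relation.ReflTransGen _ _ _
    exact Relation.ReflTransGen.tail (b := s.M.b (s.M.rot^[i] f))
      (Relation.ReflTransGen.single (Or.inl rfl)) (Or.inr rfl)

end maps

theorem ncard_bU {α β : Type} {I : Set α} (hI : I.Finite) (F : α → Set β) (c : ℕ)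
    (hF : ∀ x ∈ I, (F x).Finite ∧ (F x).ncard ≤ c) :
    (⋃ x ∈ I, F x).Finite ∧ (⋃ x ∈ I, F x).ncard ≤ I.ncard * c := by
  induction I, hI using Set.Finite.induction_on with
  | empty => simp
  | @insert a I ha hI ih =>
    have h1 := ih fun x hx => hF x (mem_insert_of_mem _ hx)
    have h2 := hF a (mem_insert _ _)
    rw [biUnion_insert, ncard_insert_of_notMem ha hI]
    refine ⟨h2.1.union h1.1, (ncard_union_le _ _).trans ?_⟩
    rw [add_mul, one_mul]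
    omega

theorem bd_sh {σ : AG} {U : Set σ.ε} : σ.bd U ⊆ σ.sh := by
  rintro v ⟨⟨a, ha, k⟩, a', ha', k'⟩
  refine mem_iUnion.2 ⟨a, ⟨a, rfl, k⟩, a', fun e => ha' ?_, k'⟩
  rw [mem_singleton_iff.1 e]
  exact ha

variable {σ : AG} {r : Rw σ} {k q D l : ℕ} {U0 : Set MV} {R m0 w0 : ℕ} {zd : MV → Zd r.s}
  {zb : MV → Zb σ} {s' : Sk} {J : Set MV} {φ0 : MV → s'.Φ}

section main

variable (hB : BasS) (hA : AreaS) (V : r.Vc k q D l U0 R m0 w0 zd zb s' J φ0)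

include hB V in
theorem ok0' : s'.Ok0 := hB.1 _ V.sg.ok

include hB V in
theorem adj_iff {y : MV} (hy : y ∈ s'.Ce) (v : MV) : s'.G.Adj y v ↔ r.s.G.Adj y v := by
  have e := (V.sg.cell y hy).2.2.1
  constructor
  · intro h
    have h1 := adj_nd (ok0' hB V) (ce_not_nd hy) h
    rw [← nd_eq h1] at h ⊢
    exact (e ▸ (h : nodeOf v ∈ s'.nb y) : nodeOf v ∈ r.s.nb y)
  · intro h
    have h1 := adj_nd V.co.ok0 (ce_not_nd hy) h
    rw [← nd_eq h1] at h ⊢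
    exact (e.symm ▸ (h : nodeOf v ∈ r.s.nb y) : nodeOf v ∈ s'.nb y)

include V in
theorem nd_sub {v : MV} (hv : v ∈ s'.Nd) : v ∈ r.s.Nd := by
  obtain ⟨y, hy, h⟩ := V.sg.node v hv
  exact adj_nd V.co.ok0 (ce_not_nd hy) h

include V in
theorem deep {y : MV} (hy : y ∈ s'.Ce) : y ∈ r.s.Dp := by
  obtain ⟨h1, h2, -⟩ := V.sg.cell y hy
  refine ⟨h1, fun v hv hR => ?_⟩
  have hR' := hR
  obtain ⟨f, hf, hx, g, hg, e⟩ := hR'
  have hx' : r.s.vx f ∈ r.s.H ∩ r.s.Vt := ⟨hx, f, hf, rfl⟩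
  have Z := (V.zone _ hx').1
  have h3 : Sum.inl v ∈ (zd (r.s.vx f)).Z :=
    Z.low ⟨adj_nd V.co.ok0 (ce_not_nd hy) hv, f, hf, rfl, g, hg, e⟩
  exact disjoint_left.1 Z.deep ⟨h3, y, h2 _ hx', hv⟩ hR

include V in
theorem nd_off {v : MV} (hv : v ∈ s'.Nd) : v ∉ r.s.RH := by
  obtain ⟨y, hy, h⟩ := V.sg.node v hv
  rw [← nd_eq hv] at h ⊢
  exact (deep V hy).2 _ h

theorem ct_eq (hJ : J.Finite) {x : MV} (hx : x ∈ s'.Ce) :
    (r.mkSh zd zb s' J hJ φ0).ct x = r.ct x := by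
  ext a
  simp only [Sh.ct, Rw.ct, Rw.mkSh, mem_ofPred_eq]
  constructor
  · intro h
    split_ifs at h with h1 h2
    · have := h1.choose_spec.2
      rw [this]
      simp only [Option.some.injEq, Sum.inl.injEq] at h
      rw [h]
    · simp at h
  · intro h
    have h1 : ∃ y ∈ s'.Ce, r.own a = some y := ⟨x, hx, h⟩
    rw [dif_pos h1]
    exact congrArg (fun y => some (Sum.inl y)) (Option.some.inj (h.symm.trans h1.choose_spec.2)).symm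

include V in
theorem root_of {x : MV} {v : W} (hv : v ∈ σ.vs (r.ct x)) (h1 : v ∈ σ.sh) (h2 : v ∉ r.Λ)
    (h3 : Sum.inl v ∈ r.s.Vt) : v ∈ r.s.nb x := by
  obtain ⟨a, ha, k⟩ := mem_iUnion₂.1 hv
  obtain ⟨y, e, hy⟩ := V.co.share a v ⟨⟨k, h1⟩, h2⟩ (Or.inl h3)
  have e' : r.own a = some x := ha
  rw [e'] at e
  rw [Option.some.inj e]
  exact hy

include hB V in
theorem hfin : (r.s.H ∩ r.s.Vt).Finite := (hB.2 _ V.co.ok0).1.subset inter_subset_right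

include hB V in
theorem ndfin : r.s.Nd.Finite := (hB.2 _ V.co.ok0).1.subset inter_subset_left

include V in
theorem gam_nd {x : MV} (hx : x ∈ r.s.H ∩ r.s.Vt) : (zd x).Γ ⊆ r.s.Nd := fun _ h =>
  ((V.zone x hx).1.sub ((V.zone x hx).1.gam h)).1

include V in
theorem jsub : J ⊆ r.s.H ∩ r.s.Vt := by
  intro x hx
  rw [V.sg.sides] at hx
  exact hx.1

include V in
theorem kept (hJ : J.Finite) : r.Kept (r.mkSh zd zb s' J hJ φ0) := by
  intro x hx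
  obtain ⟨-, -, h3, h4⟩ := V.sg.cell x hx
  refine ⟨deep V hx, ct_eq hJ hx, h3, h4, ?_⟩
  rintro v ⟨hv, hΛ⟩
  by_cases h : v ∈ r.Λ
  · exact Or.inl h
  right
  rcases hΛ with hΛ | hΛ
  · exact absurd hΛ h
  obtain ⟨y, hy, k⟩ := mem_iUnion₂.1 hΛ
  have h5 := (V.zone y hy).2.1.groot k
  obtain ⟨u, hu, rfl⟩ := k
  have h6 := gam_nd V hy hu
  exact root_of V hv h5 h ((nd_eq h6).symm ▸ h6.1)

include hB V in
theorem lamc (hJ : J.Finite) {x : MV} (hx : x ∈ s'.Ce) {v : W}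
    (hv : v ∈ σ.vs ((r.mkSh zd zb s' J hJ φ0).ct x)) (h : Sum.inl v ∈ s'.Vt) : v ∈ s'.nb x := by
  rw [ct_eq hJ hx] at hv
  have h1 : Sum.inl v ∈ s'.Nd := ⟨h, v, rfl⟩
  obtain ⟨y, hy, k⟩ := V.sg.node _ h1
  have h2 := (nd_sub V h1).1
  rw [(V.sg.cell x hx).2.2.1]
  refine root_of V hv (bd_sh (V.tw y (deep V hy) k)) (fun e => nd_off V h1 ?_) h2
  exact (hB.2 _ V.co.ok0).2.2.2.1 ⟨v, V.co.lamn v e h2, rfl⟩

include hB V in
theorem pk_adj {S : Set MV} (hS : s'.Pk S) {u : MV} (hu : u ∈ S) (y : MV) :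
    s'.G.Adj u y ↔ r.s.G.Adj u y := by
  have o' := ok0' hB V
  rcases hS.sub hu with hn | hc
  swap
  · exact adj_iff hB V hc y
  constructor
  · intro h
    rcases hS.sub (hS.cl u ⟨hu, hn⟩ y h) with h1 | h1
    · exact absurd h1 ((adj_bip o' h).2.2.1 hn)
    · exact ((adj_iff hB V h1 u).1 h.symm).symm
  · intro h
    have hn0 := nd_sub V hn
    have hoff := nd_off V hn
    have B := hB.2 _ V.co.ok0
    have hZ : ∀ x ∈ r.s.H ∩ r.s.Vt, u ∉ (zd x).Z := by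
      intro x hx hu'
      have h1 : u ∈ Sum.inl '' s'.nb x := by
        rw [V.sg.spoke x hx]
        exact ⟨hn, hu'⟩
      obtain ⟨v, hv, rfl⟩ := h1
      have h2 : x ∈ s'.H := V.sg.hole.1.symm ▸ hx.1
      rcases hS.sub (hS.cl _ ⟨hu, hn⟩ x (SimpleGraph.Adj.symm hv)) with h3 | h3
      · exact inr_not_nd (o'.hr.1 h2) h3
      · exact h3.2 (Or.inl h2)
    obtain ⟨-, hy, hb⟩ := adj_bip V.co.ok0 h
    have hy1 : y ∉ r.s.Nd := hb.1 hn0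
    have hPo : nodeOf u ∉ r.s.Po := fun e => hoff (B.2.2.2.1 ⟨_, e, nd_eq hn0⟩)
    have hnb : nodeOf u ∈ r.s.nb y := by
      show r.s.G.Adj y (Sum.inl (nodeOf u))
      rw [nd_eq hn0]
      exact h.symm
    have hc : y ∈ r.s.Ce := by
      refine ⟨⟨hy, ?_⟩, ?_⟩
      · cases y with
        | inl v => exact absurd ⟨hy, v, rfl⟩ hy1
        | inr n => exact ⟨n, rfl⟩
      · rintro (h1 | h1)
        · exact hPo ⟨y, h1, hnb⟩
        · obtain ⟨x, hx, -, h2⟩ := V.co.ok0.rim y ⟨h1, hy⟩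
          exact hPo ⟨x, hx.1, h2 hnb⟩
    have hc' := V.sg.clo u hn y hc (fun x hx => ⟨hc, u, ⟨hn0, hZ x hx⟩, h.symm⟩) h.symm
    exact ((adj_iff hB V hc' u).2 h.symm).symm

include hB V in
theorem pk {S : Set MV} (hS : s'.Pk S) :
    r.s.Pk S ∧ s'.N S = r.s.N S ∧ Disjoint (S ∪ r.s.N S) r.s.RH := by
  have e : s'.N S = r.s.N S := by
    ext y
    exact and_congr_right fun _ => exists_congr fun x => and_congr_right fun hx =>
      pk_adj hB V hS hx y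
  refine ⟨⟨?_, ⟨hS.conn.1, fun u hu v hv => ?_⟩, ?_, ?_, ?_, e ▸ hS.card⟩, e, ?_⟩
  · intro u hu
    exact (hS.sub hu).imp (nd_sub V) fun h => (V.sg.cell u h).1
  · exact Link.map (G' := r.s.G) id
      (fun a ha b hb h => Link.single ha hb ((pk_adj hB V hS ha b).1 h)) (hS.conn.2 u hu v hv)
  · obtain ⟨v, h1, h2⟩ := hS.node
    exact ⟨v, h1, nd_sub V h2⟩
  · intro y hy
    exact nd_sub V (hS.out (e ▸ hy))
  · rintro v ⟨h1, h2⟩ y h
    rcases hS.sub h1 with h3 | h3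
    · exact hS.cl v ⟨h1, h3⟩ y ((pk_adj hB V hS h1 y).2 h)
    · exact absurd h2 (ce_not_nd h3)
  · refine disjoint_left.2 fun u hu => ?_
    rcases hu with hu | hu
    · rcases hS.sub hu with h | h
      · exact nd_off V h
      · exact ((hB.2 _ V.co.ok0).2.2.2.2.2.1 (deep V h)).2
    · exact nd_off V (hS.out (e ▸ hu))

include hB V in
theorem core : ∀ u ∈ U0, ∀ v ∈ U0, r.s.G.Adj u v → s'.G.Adj u v := by
  intro u hu v hv h
  rcases V.sg.core hu with h1 | h1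
  · rcases V.sg.core hv with h2 | h2
    · exact absurd (nd_sub V h2) ((adj_bip V.co.ok0 h).2.2.1 (nd_sub V h1))
    · exact ((adj_iff hB V h2 u).2 h.symm).symm
  · exact (adj_iff hB V h1 v).2 h

include V in
theorem ring : ∀ p ∈ r.s.M.fl r.s.vx r.s.H, ∃ C : Fin (m0 + 1) → Set MV,
    Pairwise (Disjoint on C) ∧ ∀ i, r.s.Ring (C i) p (s'.Ce ∪ U0) := by
  intro p hp
  have hx : r.s.vx p ∈ r.s.H ∩ r.s.Vt := ⟨hp.2, p, hp.1, rfl⟩
  obtain ⟨C, h1, h2⟩ := (V.zone _ hx).1.ring p hp.1 rfl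
  refine ⟨C, h1, fun i => ⟨(h2 i).conn, (h2 i).sub, (h2 i).mem, (h2 i).out.mono_left ?_⟩⟩
  exact union_subset_union_left _ fun y hy => (V.sg.cell y hy).2.1 _ hx

include hA V in
theorem ar_dis {x x' : MV} (hx : x ∈ r.s.H ∩ r.s.Vt) (hx' : x' ∈ r.s.H ∩ r.s.Vt) {v : MV}
    (h : v ∈ r.s.Ar U0 x) (h' : v ∈ (zd x').Z) : x' = x := by
  by_contra e
  have A := hA r.s U0 R x V.zx.1 (by have := V.zx.2; omega) hx
  exact disjoint_left.1 (A.2.2.2.2.2.2.2.2.2 x' hx' e).2 h ((V.zone x' hx').1.sub h').2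

include hB hA V in
theorem out_link {x : MV} (hx : x ∈ r.s.H ∩ r.s.Vt) {v w : MV} (hv : v ∈ s'.Nd)
    (hZ : v ∈ (zd x).Z) (hw : w ∈ r.s.Nd)
    (h : Link r.s.G (((r.s.T \ (zd x).Z) \ U0) ∪ {v}) v w) :
    Link s'.G ((s'.T \ Sum.inl '' s'.Po) ∪ {v}) v w := by
  have A := hA r.s U0 R x V.zx.1 (by have := V.zx.2; omega) hx
  have o' := ok0' hB V
  have hvA : v ∈ r.s.Ar U0 x := ((V.zone x hx).1.sub hZ).2
  have key : w ∈ r.s.Ar U0 x ∧ ∃ z ∈ s'.Nd, Link s'.G ((s'.T \ Sum.inl '' s'.Po) ∪ {v}) v z ∧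
      (w ∈ r.s.Nd → z = w) ∧ (w ∉ r.s.Nd → r.s.G.Adj w z) := by
    clear hw
    induction h with
    | refl => exact ⟨hvA, v, hv, Link.refl _ _ _, fun _ => rfl, fun e => absurd (nd_sub V hv) e⟩
    | @tail b c _ hbc ih =>
      obtain ⟨hb, hc, hadj⟩ := hbc
      obtain ⟨hbA, z, hz, hl, e1, e2⟩ := ih
      have hbip := (adj_bip V.co.ok0 hadj).2.2
      rcases hc with hc | hc
      swap
      · rw [mem_singleton_iff.1 hc]
        exact ⟨hvA, v, hv, Link.refl _ _ _, fun _ => rfl, fun e => absurd (nd_sub V hv) e⟩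
      have hcA : c ∈ r.s.Ar U0 x := A.2.2.2.2.2.2.2.1 b hbA c hadj hc.2
      refine ⟨hcA, ?_⟩
      by_cases hbn : b ∈ r.s.Nd
      · refine ⟨z, hz, hl, fun e => absurd e (hbip.1 hbn), fun _ => ?_⟩
        rw [e1 hbn]
        exact hadj.symm
      have hcn : c ∈ r.s.Nd := by tauto
      have hbc : b ∈ r.s.Ce := by
        rcases hb with hb | hb
        · exact hb.1.1.resolve_left hbn
        · exact absurd (mem_singleton_iff.1 hb ▸ nd_sub V hv) hbn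
      have hcZ : ∀ x' ∈ r.s.H ∩ r.s.Vt, c ∉ (zd x').Z := fun x' hx' e =>
        hc.1.2 (ar_dis hA V hx hx' hcA e ▸ e)
      have hb' := V.sg.clo z hz b hbc (fun x' hx' => ⟨hbc, c, ⟨hcn, hcZ x' hx'⟩, hadj⟩) (e2 hbn)
      have a1 := (adj_iff hB V hb' z).2 (e2 hbn)
      have a2 := (adj_iff hB V hb' c).2 hadj
      have hc' : c ∈ s'.Nd := adj_nd o' (ce_not_nd hb') a2
      have m1 : b ∈ (s'.T \ Sum.inl '' s'.Po) ∪ {v} := by
        refine Or.inl ⟨Or.inr hb', ?_⟩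
        rintro ⟨p, -, rfl⟩
        exact hbn ⟨hbc.1.1, p, rfl⟩
      have m2 : c ∈ (s'.T \ Sum.inl '' s'.Po) ∪ {v} := by
        refine Or.inl ⟨Or.inl hc', ?_⟩
        rintro ⟨p, ⟨y, hy, hp⟩, rfl⟩
        have hy' : y ∈ r.s.H ∩ r.s.Vt :=
          ⟨V.sg.hole.1 ▸ hy, V.sg.hole.2 ⟨hy, (adj_bip o' hp).1⟩⟩
        have : Sum.inl p ∈ s'.Nd ∩ (zd y).Z := V.sg.spoke y hy' ▸ ⟨p, hp, rfl⟩
        exact hcZ y hy' this.2
      exact ⟨c, hc', (hl.trans (Link.single (hl.mem (Or.inr rfl)) m1 a1.symm)).trans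
        (Link.single m1 m2 a2), fun _ => rfl, fun e => absurd hcn e⟩
  obtain ⟨-, z, -, hl, e, -⟩ := key
  exact e hw ▸ hl

include hB hA V in
theorem out (hJ : J.Finite) (j : J) (i : ℕ) (hi : i < (zd j).N - 1) :
    ∃ v ∈ ⋃ x ∈ r.s.H ∩ r.s.Vt, nodeOf '' (zd x).Wv,
      Link s'.G ((s'.T \ Sum.inl '' s'.Po) ∪ {Sum.inl ((r.mkSh zd zb s' J hJ φ0).u j i)})
        (Sum.inl ((r.mkSh zd zb s' J hJ φ0).u j i)) (Sum.inl v) := by
  have hx := jsub V j.2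
  have hj : (j : MV) ∈ {x | x ∈ r.s.H ∩ r.s.Vt ∧ 2 ≤ (zd x).N ∧ (zd x).ps 0 ∈ s'.Nd} :=
    V.sg.sides ▸ j.2
  have hi' : i < (zd j).N := by omega
  have Z := (V.zone _ hx).1
  have h1 : (zd j).ps i ∈ s'.Nd := V.sg.all _ hx 0 (by omega) i hi' hj.2.2
  have h2 : (zd j).ps i ∈ r.s.Ex (zd j).Z \ (zd j).Γ := Z.ex ▸ ⟨i, hi', rfl⟩
  have h3 : Sum.inl ((r.mkSh zd zb s' J hJ φ0).u j i) = (zd j).ps i := by
    rw [← nd_eq h1]
    exact congrArg Sum.inl ((V.sg.side _ j.2).2.2.1 i hi')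
  obtain ⟨w, hw, hl⟩ := Z.esc.2 _ h2.1
  have hw' := Z.esc.1 hw
  refine ⟨nodeOf w, mem_iUnion₂.2 ⟨_, hx, w, hw, rfl⟩, ?_⟩
  rw [h3, nd_eq hw']
  exact out_link hB hA V hx h1 h2.1.1 hw' hl

include hB hA V in
theorem lam_iff (hJ : J.Finite) {x : MV} (hx : x ∈ r.s.H ∩ r.s.Vt) {i : ℕ} (hi : i < (zd x).N)
    {n : ℕ} (hn : n < (zb x).d) : (zb x).β i n ∈ (r.mkSh zd zb s' J hJ φ0).Λ ↔
      (zb x).β i n ∈ r.Λ ∪ nodeOf '' (zd x).Γ := by
  constructor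
  swap
  · rintro (h | h)
    · exact Or.inl h
    · exact Or.inr (mem_iUnion₂.2 ⟨x, hx, h⟩)
  intro h
  by_contra e
  have A := hA r.s U0 R x V.zx.1 (by have := V.zx.2; omega) hx
  obtain ⟨-, a, ha, hv⟩ := ((V.zone x hx).2.1.inner i hi n hn).2 e
  rcases h with h | h
  · exact e (Or.inl h)
  obtain ⟨y, hy, k⟩ := mem_iUnion₂.1 h
  have h5 := (V.zone y hy).2.1.groot k
  obtain ⟨u, hu, eu⟩ := k
  have h6 := gam_nd V hy hu
  have h7 : Sum.inl ((zb x).β i n) = u := eu ▸ nd_eq h6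
  have h8 : ∀ c, r.own a = some c → r.s.G.Adj c u := fun c hc => h7 ▸
    root_of V (mem_iUnion₂.2 ⟨a, hc, hv⟩) h5 (fun e' => e (Or.inl e')) (h7.symm ▸ h6.1)
  have h9 : u ∈ r.s.Ar U0 x := by
    rcases ha with ha | ⟨c, hc, ha⟩
    · refine A.2.2.1 ((hB.2 _ V.co.ok0).2.2.2.2.1 x ⟨(zb x).β i n, ?_, h7⟩)
      show r.s.G.Adj x (Sum.inl _)
      rw [h7]
      exact h8 x ha
    · by_contra e'
      exact hc.2 ⟨hc.1, u, ⟨h6, fun e'' => e' ((V.zone x hx).1.sub e'').2⟩, h8 c ha⟩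
  have h10 := ar_dis hA V hx hy h9 ((V.zone y hy).1.gam hu)
  subst h10
  exact e (Or.inr ⟨u, hu, eu⟩)

include hB hA V in
theorem tr_le (hJ : J.Finite) : (r.mkSh zd zb s' J hJ φ0).Tr.ncard ≤ q * (2 * w0) := by
  have h1 := ncard_bU hJ (fun x => Prod.mk x '' {i | i + 1 < (zd x).N ∧ ∃ n < (zb x).d,
      ¬ ((zb x).β i n ∈ r.Λ ∪ nodeOf '' (zd x).Γ ↔ (zb x).β (i + 1) n ∈ r.Λ ∪ nodeOf '' (zd x).Γ)})
    (2 * w0) fun x hx => by
      have hx' := jsub V hx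
      have f : ({i | i + 1 < (zd x).N ∧ ∃ n < (zb x).d,
          ¬ ((zb x).β i n ∈ r.Λ ∪ nodeOf '' (zd x).Γ ↔
            (zb x).β (i + 1) n ∈ r.Λ ∪ nodeOf '' (zd x).Γ)} : Set ℕ).Finite :=
        (finite_lt_nat (zd x).N).subset fun i hi => Nat.lt_of_succ_lt hi.1
      refine ⟨f.image _, (ncard_image_le f).trans ((V.zone x hx').2.1.tr.trans ?_)⟩
      have := (V.zone x hx').2.2.2.2
      omega
  have h2 : J.ncard ≤ q := (ncard_le_ncard (jsub V) (hfin hB V)).trans V.co.holes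
  refine le_trans ?_ (h1.2.trans (Nat.mul_le_mul_right _ h2))
  refine ncard_le_ncard_of_injOn (fun p : J × ℕ => ((p.1 : MV), p.2)) ?_ ?_ h1.1
  · rintro ⟨⟨j, hj⟩, i⟩ ⟨hi, n, hn, h⟩
    have hi' : i < (zd j).N - 1 := hi
    have hx := jsub V hj
    refine mem_iUnion₂.2 ⟨j, hj, i, ⟨by omega, n, hn, fun e => h ?_⟩, rfl⟩
    exact (lam_iff hB hA V hJ hx (by omega) hn).trans
      (e.trans (lam_iff hB hA V hJ hx (by omega) hn).symm)
  · rintro ⟨j, i⟩ - ⟨j', i'⟩ - e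
    simp only [Prod.mk.injEq] at e
    rw [Subtype.ext e.1, e.2]

include hB V in
theorem fx_sub (hJ : J.Finite) : s'.far '' (r.mkSh zd zb s' J hJ φ0).Fx ⊆
    ⋃ x ∈ r.s.H ∩ r.s.Vt, insert ((zd x).u 0) (nodeOf '' (zd x).Γ) := by
  rintro _ ⟨f, ⟨hf, hno⟩, rfl⟩
  have o' := ok0' hB V
  have hf1 : f ∈ s'.M.S := hf.1
  have hf2 : s'.vx f ∈ s'.H := hf.2
  have hx : s'.vx f ∈ r.s.H ∩ r.s.Vt := ⟨V.sg.hole.1 ▸ hf2, V.sg.hole.2 ⟨hf2, f, hf1, rfl⟩⟩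
  obtain ⟨e1, e2⟩ := hole_far o' hf1 hf2
  have h1 : Sum.inl (s'.far f) ∈ s'.Nd ∩ (zd (s'.vx f)).Z := V.sg.spoke _ hx ▸ ⟨_, e2, rfl⟩
  obtain ⟨y, hy, hadj⟩ := V.sg.node _ h1.1
  refine mem_iUnion₂.2 ⟨_, hx, ?_⟩
  by_cases hΓ : Sum.inl (s'.far f) ∈ (zd (s'.vx f)).Γ
  · exact Or.inr ⟨_, hΓ, rfl⟩
  have h2 : Sum.inl (s'.far f) ∈ {v | ∃ i < (zd (s'.vx f)).N, v = (zd (s'.vx f)).ps i} :=
    (V.zone _ hx).1.ex ▸ ⟨⟨h1.2, y, (V.sg.cell y hy).2.1 _ hx, hadj⟩, hΓ⟩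
  obtain ⟨i, hi, e⟩ := h2
  have eu : (zd (s'.vx f)).u i = s'.far f := by
    unfold Zd.u
    rw [← e]
    rfl
  by_cases hj : s'.vx f ∈ J
  · exfalso
    obtain ⟨p1, p2, p3, -⟩ := V.sg.side _ hj
    obtain ⟨m1, m2⟩ := rot_mem o' p1 i
    rw [p2] at m2
    have m3 := (hole_far o' m1 (m2.symm ▸ hf2)).1
    rw [p3 i hi, eu] at m3
    have := V.sg.spk _ ⟨m1, m2.symm ▸ hf2⟩ f hf1 m2.symm (e1.trans m3.symm)
    have hn := hno ⟨_, hj⟩ i (show i ≤ (zd (s'.vx f)).N - 1 by omega)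
    exact this.elim hn.1 hn.2
  · left
    have h3 := V.sg.all _ hx i hi 0 (by omega) (e ▸ h1.1)
    have h4 : ¬ 2 ≤ (zd (s'.vx f)).N := fun e' => hj (V.sg.sides ▸ ⟨hx, e', h3⟩)
    have h5 : i = 0 := by omega
    rw [← eu, h5]

theorem kap_le {σ : AG} (t : Sh σ) (j : t.ι) (i : ℕ) :
    (t.κ j i).Finite ∧ (t.κ j i).ncard ≤ t.d j + 1 := by
  have e : t.κ j i = insert (t.u j i) (t.β j i '' Iio (t.d j)) := rfl
  have f : (Iio (t.d j)).Finite := finite_Iio _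
  rw [e]
  refine ⟨(f.image _).insert _, (ncard_insert_le _ _).trans ?_⟩
  have := ncard_image_le (f := t.β j i) f
  have e2 : (Iio (t.d j)).ncard = t.d j := by
    rw [← Finset.coe_range, ncard_coe_finset, Finset.card_range]
  omega

include hB V in
theorem gam_le {x : MV} (hx : x ∈ r.s.H ∩ r.s.Vt) :
    (nodeOf '' (zd x).Γ).Finite ∧ (nodeOf '' (zd x).Γ).ncard ≤ w0 :=
  have f := (ndfin hB V).subset (gam_nd V hx)
  ⟨f.image _, (ncard_image_le f).trans (V.zone x hx).2.2.1⟩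

include hB V in
theorem card_le (hJ : J.Finite) : Fintype.card (r.mkSh zd zb s' J hJ φ0).ι ≤ q := by
  rw [← Nat.card_eq_fintype_card]
  exact (ncard_le_ncard (jsub V) (hfin hB V)).trans V.co.holes

include hB V in
theorem mk_le (hJ : J.Finite) :
    (r.mkSh zd zb s' J hJ φ0).Mk.ncard ≤ q * (2 * (w0 + 1)) + q * (w0 + 1) := by
  refine (ncard_union_le _ _).trans (Nat.add_le_add ?_ ?_)
  · have h1 := ncard_bU (finite_univ (α := (r.mkSh zd zb s' J hJ φ0).ι))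
      (fun j => (r.mkSh zd zb s' J hJ φ0).κ j 0 ∪
        (r.mkSh zd zb s' J hJ φ0).κ j ((r.mkSh zd zb s' J hJ φ0).m j)) (2 * (w0 + 1)) fun j _ => by
        have a1 := kap_le _ j 0
        have a2 := kap_le _ j ((r.mkSh zd zb s' J hJ φ0).m j)
        have a3 : (r.mkSh zd zb s' J hJ φ0).d j ≤ w0 := (V.zone _ (jsub V j.2)).2.2.2.2
        refine ⟨a1.1.union a2.1, (ncard_union_le _ _).trans ?_⟩
        omega
    rw [biUnion_univ, ncard_univ, Nat.card_eq_fintype_card] at h1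
    exact h1.2.trans (Nat.mul_le_mul_right _ (card_le hB V hJ))
  · have h1 := ncard_bU (hfin hB V) (fun x => insert ((zd x).u 0) (nodeOf '' (zd x).Γ)) (w0 + 1)
      fun x hx => ⟨(gam_le hB V hx).1.insert _,
        (ncard_insert_le _ _).trans (Nat.succ_le_succ (gam_le hB V hx).2)⟩
    exact (ncard_le_ncard (fx_sub hB V hJ) h1.1).trans
      (h1.2.trans (Nat.mul_le_mul_right _ V.co.holes))

end main

end shb

open shb in
theorem shBS (hB : BasS) (hA : AreaS) : ShBS := by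
  intro q l w0
  refine ⟨q * (2 * (w0 + 1)) + q * (w0 + 1) + q + l + q * w0 + q * (2 * w0) + w0, ?_⟩
  intro σ r k D U0 R m0 zd zb s' J hJ φ0 V ok
  have h1 := ncard_bU (hfin hB V) (fun x => nodeOf '' (zd x).Γ) w0 fun x hx => gam_le hB V hx
  have h2 := ncard_bU (hfin hB V) (fun x => nodeOf '' (zd x).Wv) w0 fun x hx =>
    have f := (ndfin hB V).subset (V.zone x hx).1.esc.1
    ⟨f.image _, (ncard_image_le f).trans (V.zone x hx).2.2.2.1⟩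
  have h3 := Nat.mul_le_mul_right w0 V.co.holes
  refine ⟨⟨ok, ⟨?_, ?_, ?_, ?_, fun j => ?_⟩, ⟨h2.1, ?_⟩, fun v hv => ?_,
    fun x hx v hv h => lamc hB V hJ hx hv h, fun j i _ hi => out hB hA V hJ j i hi⟩, V.sg.eg,
    ncard_le_ncard (fun x hx => ⟨V.sg.hole.1 ▸ hx.1, V.sg.hole.2 hx⟩) (hfin hB V), kept V hJ,
    fun S hS => pk hB V hS, ⟨V.sg.core, core hB V⟩, ring V⟩
  · have := mk_le hB V hJ
    omega
  · have := card_le hB V hJ
    omega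
  · have a1 := V.co.lam.2.2
    have a2 := h1.2
    refine (ncard_union_le _ _).trans ?_
    omega
  · have := tr_le hB hA V hJ
    omega
  · have : (r.mkSh zd zb s' J hJ φ0).d j ≤ w0 := (V.zone _ (jsub V j.2)).2.2.2.2
    omega
  · have := h2.2
    omega
  · obtain ⟨y, hy, h⟩ := V.sg.node _ ⟨hv, v, rfl⟩
    exact ⟨y, hy, (adj_iff hB V hy _).2 h⟩

end Pool.Agent.MP_9d78a0_co.gm.HB

end MrgPart5

-- ======== part 6: formerly Pool.Agent.MP_9d78a0_co.gm.HAll1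
section MrgPart6

/-! Block H: what is left. -/

set_option autoImplicit false

namespace Pool.Agent.MP_9d78a0_co.gm.HB

theorem all1 (hA : AreaS) (hL : LevS) (h1 : V1S) (h2 : V2S) (hb : BagHS) (hs : SurgS)
    (ha : ShAS) : LoopS ∧ DropS ∧ VortS :=
  have hG := gamS basS hA hL
  all0 (absGS basS) (vortexS basS (zoneS basS hA hL (geoS hL) hG (ringS basS hA hL hG)
    (v0S basS hA hL hG (colS basS hG)) h1 h2 (minS basS hA hL hG) hb) hs ha (shBS basS hA))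

end Pool.Agent.MP_9d78a0_co.gm.HB

end MrgPart6

-- marker of a merged file
example : 731051 + 633624 = 731051 + 633624 := rfl
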