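import Pool.Agent.MP_9d78a0_co.gm.SpecH2

/-! Row NORM, first part: a model of a grid after the contraction of a set with two neighbours. -/

set_option autoImplicit false

namespace Pool.Agent.MP_9d78a0_co.gm.NormK

open Set Function

theorem line_in {g : ℕ} {P : Fin g → Prop}
    (st : ∀ i j : Fin g, P i → ((i : ℕ) + 1 = j ∨ (j : ℕ) + 1 = i) → P j) {i : Fin g} (h : P i)
    (j : Fin g) : P j := by
  have k : ∀ n (hn : n < g), P ⟨n, hn⟩ ↔ P ⟨0, by omega⟩ := by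
    intro n
    induction n with
    | zero => exact fun _ => Iff.rfl
    | succ n ih =>
      intro hn
      rw [← ih (by omega)]
      exact ⟨fun q => st _ _ q (Or.inr rfl), fun q => st _ _ q (Or.inl rfl)⟩
  exact (k j.1 j.2).2 ((k i.1 i.2).1 h)

theorem third {g : ℕ} (hg : 3 ≤ g) (a b : Fin g) : ∃ j : Fin g, j ≠ a ∧ j ≠ b := by
  by_contra c
  push Not at c
  have h0 := c ⟨0, by omega⟩
  have h1 := c ⟨1, by omega⟩
  have h2 := c ⟨2, by omega⟩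
  simp only [ne_eq, Fin.ext_iff] at h0 h1 h2
  omega

theorem adj_row {g : ℕ} (c : Fin g) {i j : Fin g} (h : (i : ℕ) + 1 = j ∨ (j : ℕ) + 1 = i) :
    (fb.grid g).Adj (c, i) (c, j) := Or.inl ⟨rfl, h⟩

theorem adj_col {g : ℕ} (c : Fin g) {i j : Fin g} (h : (i : ℕ) + 1 = j ∨ (j : ℕ) + 1 = i) :
    (fb.grid g).Adj (i, c) (j, c) := Or.inr ⟨rfl, h⟩

/-- two points cut off one point at most -/
theorem one_in {g : ℕ} (hg : 3 ≤ g) {I Z : Set (Fin g × Fin g)} {z1 z2 : Fin g × Fin g}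
    (hZ : ∀ p ∈ Z, p = z1 ∨ p = z2) (dis : ∀ p ∈ I, p ∉ Z)
    (st : ∀ p ∈ I, ∀ q, (fb.grid g).Adj p q → q ∈ I ∨ q ∈ Z)
    (nc : ∀ i j, ¬ ∀ k, (i, k) ∈ I ∧ (k, j) ∈ I) : ∀ p ∈ I, ∀ q ∈ I, p = q := by
  have row : ∀ c d, (c, d) ∈ I → (∀ k, (c, k) ∉ Z) → ∀ k, (c, k) ∈ I := fun c d h n =>
    line_in (P := fun k => (c, k) ∈ I)
      (fun i j a b => (st _ a _ (adj_row c b)).resolve_right (n j)) h
  have col : ∀ c d, (c, d) ∈ I → (∀ k, (k, d) ∉ Z) → ∀ k, (k, d) ∈ I := fun c d h n =>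
    line_in (P := fun k => (k, d) ∈ I)
      (fun i j a b => (st _ a _ (adj_col d b)).resolve_right (n j)) h
  obtain ⟨i0, i1, i2⟩ := third hg z1.1 z2.1
  obtain ⟨j0, j1, j2⟩ := third hg z1.2 z2.2
  have zi : ∀ k, (i0, k) ∉ Z := fun k m =>
    (hZ _ m).elim (fun e => i1 (congrArg Prod.fst e)) fun e => i2 (congrArg Prod.fst e)
  have zj : ∀ k, (k, j0) ∉ Z := fun k m =>
    (hZ _ m).elim (fun e => j1 (congrArg Prod.snd e)) fun e => j2 (congrArg Prod.snd e)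
  have hr : ∀ c d, (c, d) ∈ I → ∃ k, (c, k) ∈ Z := fun c d h => by
    by_contra n
    have a := row c d h fun k m => n ⟨k, m⟩
    exact nc c j0 fun k => ⟨a k, col c j0 (a j0) zj k⟩
  have hc : ∀ c d, (c, d) ∈ I → ∃ k, (k, d) ∈ Z := fun c d h => by
    by_contra n
    have a := col c d h fun k m => n ⟨k, m⟩
    exact nc i0 d fun k => ⟨row i0 d (a i0) zi k, a k⟩
  have F : ∀ c d, (c, d) ∈ I → (c = z1.1 ∧ d = z2.2) ∨ (c = z2.1 ∧ d = z1.2) := fun c d h => by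
    obtain ⟨k, a⟩ := hr c d h
    obtain ⟨k', b⟩ := hc c d h
    have n := dis _ h
    rcases hZ _ a with e | e <;> rcases hZ _ b with e' | e'
    · obtain rfl : k = d := congrArg Prod.snd (e.trans e'.symm)
      exact (n a).elim
    · exact Or.inl ⟨congrArg Prod.fst e, congrArg Prod.snd e'⟩
    · exact Or.inr ⟨congrArg Prod.fst e, congrArg Prod.snd e'⟩
    · obtain rfl : k = d := congrArg Prod.snd (e.trans e'.symm)
      exact (n a).elim
  have Gn : ∀ c d, (c, d) ∈ I → ∀ j : Fin g, ((d : ℕ) + 1 = j ∨ (j : ℕ) + 1 = d) →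
      j = z1.2 ∨ j = z2.2 := fun c d h j a => by
    rcases st _ h _ (adj_row c a) with k | k
    · exact (F _ _ k).elim (fun e => Or.inr e.2) fun e => Or.inl e.2
    · exact (hZ _ k).imp (congrArg Prod.snd) (congrArg Prod.snd)
  have fin : ∀ c c', (c, z1.2) ∈ I → (c', z2.2) ∈ I → False := fun c c' a b =>
    (line_in (P := fun k => k = z1.2 ∨ k = z2.2) (fun i j k m =>
      k.elim (fun e => Gn c _ a j (e ▸ m)) fun e => Gn c' _ b j (e ▸ m)) (Or.inl rfl) j0).elim j1 j2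
  rintro ⟨a, b⟩ hp ⟨a', b'⟩ hq
  rcases F _ _ hp with ⟨rfl, rfl⟩ | ⟨rfl, rfl⟩ <;> rcases F _ _ hq with ⟨rfl, rfl⟩ | ⟨rfl, rfl⟩
  · rfl
  · exact (fin _ _ hq hp).elim
  · exact (fin _ _ hp hq).elim
  · rfl

theorem nbr {g : ℕ} (hg : 3 ≤ g) (a : Fin g) : ∃ j : Fin g, (a : ℕ) + 1 = j ∨ (j : ℕ) + 1 = a := by
  by_cases c : (a : ℕ) = 0
  · exact ⟨⟨1, by omega⟩, Or.inl (by simp [c])⟩
  · exact ⟨⟨a - 1, by omega⟩, Or.inr (by simp only; omega)⟩

theorem two_nbr {g : ℕ} (hg : 3 ≤ g) (p : Fin g × Fin g) : ∃ t t', (fb.grid g).Adj p t ∧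
    (fb.grid g).Adj p t' ∧ t ≠ t' ∧ ¬ (fb.grid g).Adj t t' := by
  obtain ⟨a, b⟩ := p
  obtain ⟨a', h⟩ := nbr hg a
  obtain ⟨b', h'⟩ := nbr hg b
  refine ⟨(a, b'), (a', b), adj_row a h', adj_col b h, fun e => ?_, fun e => ?_⟩
  · have := congrArg (fun p => (p.1 : ℕ)) e
    simp only at this
    omega
  · rcases e with ⟨e, -⟩ | ⟨e, -⟩ <;> simp only at e <;> omega

open Classical in
/-- the set `S` is sent to one point -/
noncomputable def pr {V : Type} (S : Set V) (x0 w : V) : V := if w ∈ S then x0 else w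

section

variable {V : Type} {S : Set V} {x0 w y : V}

theorem pr_in (h : w ∈ S) : pr S x0 w = x0 := if_pos h
theorem pr_out (h : w ∉ S) : pr S x0 w = w := if_neg h

theorem pr_cases (S : Set V) (x0 w : V) :
    (w ∈ S ∧ pr S x0 w = x0) ∨ (w ∉ S ∧ pr S x0 w = w) :=
  (em (w ∈ S)).imp (fun h => ⟨h, pr_in h⟩) fun h => ⟨h, pr_out h⟩

theorem pr_eq (hx : x0 ∈ S) (hy : y ∉ S) : pr S x0 w = y ↔ w = y := by
  rcases pr_cases S x0 w with ⟨a, b⟩ | ⟨a, b⟩ <;> rw [b]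
  exact ⟨fun e => (hy (e ▸ hx)).elim, fun e => (hy (e ▸ a)).elim⟩

theorem pr_eq0 (hx : x0 ∈ S) : pr S x0 w = x0 ↔ w ∈ S := by
  rcases pr_cases S x0 w with ⟨a, b⟩ | ⟨a, b⟩ <;> rw [b]
  · exact ⟨fun _ => a, fun _ => rfl⟩
  · exact ⟨fun e => e ▸ hx, fun e => (a e).elim⟩

end

/-- the contraction of a set with at most two neighbours and no cross keeps a model of a grid -/
theorem contr {V : Type} {G G' : SimpleGraph V} {S N D D' : Set V} {x0 u v : V} {g : ℕ}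
    {B : Fin g × Fin g → Set V} (hg : 3 ≤ g) (m : Model (fb.grid g) G D B)
    (hx : x0 ∈ S) (hN : ∀ x ∈ S, ∀ y, y ∉ S → G.Adj x y → y ∈ N) (n1 : ∀ y ∈ N, y = u ∨ y = v)
    (n2 : ∀ y ∈ N, y ∉ S) (a1 : ∀ a, a ∉ S → ∀ b, b ∉ S → G.Adj a b → G'.Adj a b)
    (a2 : ∀ y ∈ N, G'.Adj x0 y) (d1 : D \ S ⊆ D') (d2 : x0 ∈ D')
    (nc : ∀ i j, ¬ Cross B i j ⊆ S) :
    ∃ B', Model (fb.grid g) G' D' B' ∧ ∀ p, B' p ⊆ B p ∪ {x0} := by
  classical
  obtain ⟨m1, m2, m3, m4⟩ := m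
  have same : ∀ p q y, y ∈ B p → y ∈ B q → p = q := fun p q y a b =>
    by_contra fun n => disjoint_left.1 (m3 p q n) a b
  have pick : ∀ y, ∃ z, ∀ p, y ∈ B p → p = z := fun y => by
    by_cases c : ∃ z, y ∈ B z
    · exact c.imp fun z a p b => same p z y b a
    · exact ⟨(⟨0, by omega⟩, ⟨0, by omega⟩), fun p b => (c ⟨p, b⟩).elim⟩
  obtain ⟨z1, e1⟩ := pick u
  obtain ⟨z2, e2⟩ := pick v
  set I : Set (Fin g × Fin g) := {p | B p ⊆ S} with hI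
  set Z : Set (Fin g × Fin g) := {p | ∃ y ∈ B p, y ∈ N} with hZ
  have ex : ∀ p, (∃ y ∈ B p, y ∈ S) → p ∈ I ∨ p ∈ Z := by
    rintro p ⟨y, a, b⟩
    by_cases c : B p ⊆ S
    · exact Or.inl c
    obtain ⟨w, w1, w2⟩ := not_subset.1 c
    obtain ⟨x, z, -, k1, k2, k3, k4, -⟩ := fb.link_exit ((m2 p).2 y a w w1) b w2
    exact Or.inr ⟨z, k1, hN x k2 z k3 k4⟩
  have ex2 : ∀ q y z, y ∈ S → z ∈ B q → G.Adj y z → q ∈ I ∨ q ∈ Z := fun q y z a b c =>
    (em (z ∈ S)).elim (fun k => ex q ⟨z, b, k⟩) fun k => Or.inr ⟨z, b, hN y a z k c⟩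
  have st : ∀ p ∈ I, ∀ q, (fb.grid g).Adj p q → q ∈ I ∨ q ∈ Z := fun p a q b =>
    let ⟨y, y1, z, z1, c⟩ := m4 p q b; ex2 q y z (a y1) z1 c
  have one := one_in hg (I := I) (Z := Z) (z1 := z1) (z2 := z2)
    (fun p ⟨y, a, b⟩ => (n1 y b).elim (fun e => Or.inl (e1 p (e ▸ a))) fun e => Or.inr (e2 p (e ▸ a)))
    (fun p a ⟨y, b, c⟩ => n2 y c (a b)) st
    fun i j k => nc i j (iUnion_subset fun l => union_subset (k l).1 (k l).2)
  obtain ⟨p0, q1, q2⟩ : ∃ p0, (∀ p ∈ I, p = p0) ∧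
      ∀ p, (∃ y ∈ B p, y ∈ S) → ∃ y ∈ B p0, y ∈ S := by
    by_cases c : ∃ p, p ∈ I
    · obtain ⟨p, c⟩ := c
      exact ⟨p, fun q a => one q a p c, fun _ _ => let ⟨y, a⟩ := (m2 p).1; ⟨y, a, c a⟩⟩
    by_cases c' : ∃ p, ∃ y ∈ B p, y ∈ S
    · obtain ⟨p, c'⟩ := c'
      exact ⟨p, fun q a => (c ⟨q, a⟩).elim, fun _ _ => c'⟩
    · exact ⟨z1, fun q a => (c ⟨q, a⟩).elim, fun p a => (c' ⟨p, a⟩).elim⟩
  have key : (∃ y ∈ B p0, y ∈ S) → ∀ q q', q ≠ p0 → q' ≠ p0 → (∀ y ∈ N, y ∈ B q ∨ y ∈ B q') →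
      (q = q' ∨ (fb.grid g).Adj q q') → False := by
    intro k q q' c c' hn ad
    have i0 : p0 ∈ I := (ex p0 k).resolve_right fun ⟨y, a, b⟩ =>
      (hn y b).elim (fun e => c (same _ _ y e a)) fun e => c' (same _ _ y e a)
    have nb : ∀ t, (fb.grid g).Adj p0 t → t = q ∨ t = q' := fun t a => by
      obtain ⟨y, b, d⟩ := (st p0 i0 t a).resolve_left fun e => a.ne (q1 t e).symm
      exact (hn y d).imp (same _ _ y b) (same _ _ y b)
    obtain ⟨t, t', t1, t2, t3, t4⟩ := two_nbr hg p0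
    rcases nb t t1 with rfl | rfl <;> rcases nb t' t2 with e | e
    · exact t3 e.symm
    · exact ad.elim (fun d => t3 (d.trans e.symm)) fun d => t4 (e ▸ d)
    · exact ad.elim (fun d => t3 (d.symm.trans e.symm)) fun d => t4 (e ▸ d.symm)
    · exact t3 e.symm
  set B' : Fin g × Fin g → Set V := fun p => if p = p0 then pr S x0 '' B p else B p \ S with hB
  have b0 : ∀ p, ∀ w ∈ B' p, (w ∈ B p ∧ w ∉ S) ∨ (p = p0 ∧ w = x0) := fun p w a => by
    by_cases c : p = p0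
    · simp only [hB, if_pos c] at a
      obtain ⟨y, y1, rfl⟩ := a
      rcases pr_cases S x0 y with ⟨k, e⟩ | ⟨k, e⟩ <;> rw [e]
      exacts [Or.inr ⟨c, rfl⟩, Or.inl ⟨y1, k⟩]
    · simp only [hB, if_neg c] at a
      exact Or.inl a
  have b1 : ∀ p, ∀ w ∈ B p, w ∉ S → w ∈ B' p := fun p w a b => by
    by_cases c : p = p0
    · simp only [hB, if_pos c]
      exact ⟨w, a, pr_out b⟩
    · simp only [hB, if_neg c]
      exact ⟨a, b⟩
  have b2 : (∃ y ∈ B p0, y ∈ S) → x0 ∈ B' p0 := fun ⟨y, a, b⟩ => by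
    simp only [hB, if_pos]
    exact ⟨y, a, pr_in b⟩
  have T : ∀ p q, (fb.grid g).Adj p q → ∀ y ∈ B p, y ∈ S → ∀ z ∈ B q, G.Adj y z →
      fb.Touch G' (B' p) (B' q) := by
    intro p q ad y y1 y2 z z1 c
    have k := q2 p ⟨y, y1, y2⟩
    have zp : p ≠ p0 → p ∈ Z := fun n => (ex p ⟨y, y1, y2⟩).resolve_left fun e => n (q1 p e)
    have zq : q ≠ p0 → q ∈ Z := fun n => (ex2 q y z y2 z1 c).resolve_left fun e => n (q1 q e)
    by_cases c1 : p = p0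
    · obtain ⟨n, k1, k2⟩ := zq (c1 ▸ ad.ne')
      exact ⟨x0, c1 ▸ b2 k, n, b1 q n k1 (n2 n k2), a2 n k2⟩
    by_cases c2 : q = p0
    · obtain ⟨n, k1, k2⟩ := zp c1
      exact ⟨n, b1 p n k1 (n2 n k2), x0, c2 ▸ b2 k, (a2 n k2).symm⟩
    obtain ⟨n, k1, k2⟩ := zp c1
    obtain ⟨n', k3, k4⟩ := zq c2
    have ne : n ≠ n' := fun e => ad.ne (same _ _ n k1 (e ▸ k3))
    refine (key k p q c1 c2 (fun w a => ?_) (Or.inr ad)).elim
    have : w = n ∨ w = n' := by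
      have := n1 w a
      have := n1 n k2
      have := n1 n' k4
      grind
    exact this.elim (fun e => Or.inl (e ▸ k1)) fun e => Or.inr (e ▸ k3)
  refine ⟨B', ⟨fun p w a => ?_, fun p => ?_, fun p q n => disjoint_left.2 fun w a b => ?_,
    fun p q ad => ?_⟩, fun p w a => (b0 p w a).imp (·.1) (·.2)⟩
  · exact (b0 p w a).elim (fun k => d1 ⟨m1 p k.1, k.2⟩) fun k => k.2 ▸ d2
  · by_cases c : p = p0
    · simp only [hB, if_pos c]
      refine ⟨(m2 p).1.image _, ?_⟩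
      rintro _ ⟨a, ha, rfl⟩ _ ⟨b, hb, rfl⟩
      refine Link.map (pr S x0) (fun a ha b hb ad => ?_) ((m2 p).2 a ha b hb)
      have l : G'.Adj (pr S x0 a) (pr S x0 b) → Link G' (pr S x0 '' B p) (pr S x0 a) (pr S x0 b) :=
        Link.single ⟨a, ha, rfl⟩ ⟨b, hb, rfl⟩
      rcases pr_cases S x0 a with ⟨k, e⟩ | ⟨k, e⟩ <;> rcases pr_cases S x0 b with ⟨k', e'⟩ | ⟨k', e'⟩
      · rw [e, e']; exact Link.refl _ _ _
      · exact l (by rw [e, e']; exact a2 b (hN a k b k' ad))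
      · exact l (by rw [e, e']; exact (a2 a (hN b k' a k ad.symm)).symm)
      · exact l (by rw [e, e']; exact a1 a k b k' ad)
    · simp only [hB, if_neg c]
      obtain ⟨n, hn⟩ : ∃ n, ∀ a ∈ B p, a ∈ S → ∀ y ∈ B p, y ∈ N → y = n := by
        by_cases k : ∃ y ∈ B p, y ∈ S
        · obtain ⟨w, w1, w2⟩ : ∃ w ∈ N, w ∉ B p := by
            by_contra a
            exact key (q2 p k) p p c c
              (fun y b => Or.inl (by_contra fun d => a ⟨y, b, d⟩)) (Or.inl rfl)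
          rcases n1 w w1 with rfl | rfl
          · exact ⟨v, fun _ _ _ y a b => (n1 y b).resolve_left fun e => w2 (e ▸ a)⟩
          · exact ⟨u, fun _ _ _ y a b => (n1 y b).resolve_right fun e => w2 (e ▸ a)⟩
        · exact ⟨x0, fun a b d => (k ⟨a, b, d⟩).elim⟩
      refine ⟨not_subset.1 fun e => c (q1 p e), fun a ha b hb => ?_⟩
      have := Link.map (G' := G') (T := B p \ S) (pr S n) (fun a ha b hb ad => ?_)
        ((m2 p).2 a ha.1 b hb.1)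
      · rwa [pr_out ha.2, pr_out hb.2] at this
      rcases pr_cases S n a with ⟨k, e⟩ | ⟨k, e⟩ <;> rcases pr_cases S n b with ⟨k', e'⟩ | ⟨k', e'⟩ <;>
        rw [e, e']
      · exact Link.refl _ _ _
      · rw [hn a ha k b hb (hN a k b k' ad)]; exact Link.refl _ _ _
      · rw [hn b hb k' a ha (hN b k' a k ad.symm)]; exact Link.refl _ _ _
      · exact Link.single ⟨ha, k⟩ ⟨hb, k'⟩ (a1 a k b k' ad)
  · rcases b0 p w a with k | k <;> rcases b0 q w b with k' | k'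
    · exact n (same _ _ w k.1 k'.1)
    · exact k.2 (k'.2 ▸ hx)
    · exact k'.2 (k.2 ▸ hx)
    · exact n (k.1.trans k'.1.symm)
  · obtain ⟨y, y1, z, z1, c⟩ := m4 p q ad
    by_cases c1 : y ∈ S
    · exact T p q ad y y1 c1 z z1 c
    by_cases c2 : z ∈ S
    · exact (T q p ad.symm z z1 c2 y y1 c.symm).symm
    exact ⟨y, b1 p y y1 c1, z, b1 q z z1 c2, a1 y c1 z c2 c⟩

end Pool.Agent.MP_9d78a0_co.gm.NormK
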