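import Pool.Agent.MP_9d78a0_co.gm.HNorm1
import Pool.Agent.MP_9d78a0_co.gm.OpMerge
import Pool.Agent.MP_9d78a0_co.gm.COp2

/-! Row NORM, second part: the map in which a pocket is one cell. -/

set_option autoImplicit false

namespace Pool.Agent.MP_9d78a0_co.gm.NormK

open Set Function Relation Cy FM

/-- `M'` comes from the map of `s`: the set `S` is one vertex with one edge to each neighbour -/
structure Dat (s : Sk) (S : Set MV) (M' : FM s.Φ) : Prop where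
  ok : M'.Ok
  a : M'.a = s.M.a
  c : M'.c = s.M.c
  sub : M'.S ⊆ s.M.S
  keep : ∀ f ∈ s.M.S, s.vx f ∉ S → s.vx (s.M.a f) ∉ S → f ∈ M'.S
  nin : ∀ f ∈ M'.S, s.vx f ∈ S → s.vx (s.M.a f) ∉ S
  att : ∀ y ∈ s.N S, ∃ f ∈ M'.S, s.vx f ∈ S ∧ s.vx (s.M.a f) = y
  uniq : ∀ f ∈ M'.S, ∀ g ∈ M'.S, s.vx f ∈ S → s.vx g ∈ S → s.vx (s.M.a g) = s.vx (s.M.a f) →
    g = f ∨ g = s.M.c f
  vo : ∀ f ∈ M'.S, ∀ g ∈ M'.S, g ∈ M'.vo f ↔ Link s.G S (s.vx f) (s.vx g)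
  con : M'.Con
  b : ∀ f ∈ M'.S, s.M.b f ∈ M'.S → M'.b f = s.M.b f
  eg : M'.eg ≤ s.M.eg

theorem adj_of {s : Sk} {f : s.Φ} (hf : f ∈ s.M.S) (n : s.vx f ≠ s.vx (s.M.a f)) :
    s.G.Adj (s.vx f) (s.vx (s.M.a f)) := ⟨n, f, hf, Or.inl ⟨rfl, rfl⟩⟩

theorem mem_N {s : Sk} {S : Set MV} {f : s.Φ} (hf : f ∈ s.M.S) (h : s.vx f ∈ S)
    (h' : s.vx (s.M.a f) ∉ S) : s.vx (s.M.a f) ∈ s.N S :=
  ⟨h', _, h, adj_of hf fun e => h' (e ▸ h)⟩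

theorem exists_dat (s : Sk) (hm : s.M.Hm s.vx s.H) {S : Set MV} (hS : Conn s.G S) :
    ∃ M', Dat s S M' := by
  have hM := hm.ok
  have hL := hm.lbl
  have : ∀ y, ∃ x : Option s.Φ, y ∈ s.N S →
      ∃ f ∈ s.M.S, x = some f ∧ s.vx f ∈ S ∧ s.vx (s.M.a f) = y := fun y => by
    by_cases k : y ∈ s.N S
    · obtain ⟨-, x, x1, x2⟩ := k
      obtain ⟨f, f1, f2, f3⟩ := exists_adj hM x2
      exact ⟨some f, fun _ => ⟨f, f1, rfl, f2 ▸ x1, f3⟩⟩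
    · exact ⟨none, fun m => (k m).elim⟩
  choose ch hch using this
  set A : s.Φ → Prop := fun f => s.vx f ∈ S ∧ s.vx (s.M.a f) ∉ S ∧
    (ch (s.vx (s.M.a f)) = some f ∨ ch (s.vx (s.M.a f)) = some (s.M.c f)) with hA
  set U : Set s.Φ := {f | f ∈ s.M.S ∧
    ((s.vx f ∉ S ∧ s.vx (s.M.a f) ∉ S) ∨ A f ∨ A (s.M.a f))} with hUd
  have Ac : ∀ x ∈ s.M.S, A x → A (s.M.c x) := fun x hx k => by
    simp only [hA, hL.c hM hx, hL.ac hM hx, hM.cc hx] at k ⊢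
    exact ⟨k.1, k.2.1, k.2.2.symm⟩
  have hU : s.M.Es U := ⟨fun _ k => k.1, fun x k =>
    ⟨⟨hM.a_mem k.1, by rw [hM.aa k.1]; exact k.2.imp And.symm Or.symm⟩, hM.c_mem k.1, by
      rw [hL.c hM k.1, hL.ac hM k.1]
      exact k.2.imp id (Or.imp (Ac x k.1) fun q => by
        rw [hM.comm k.1]; exact Ac _ (hM.a_mem k.1) q)⟩⟩
  have UA : ∀ x ∈ U, s.vx x ∈ S → A x := fun x k m => by
    rcases k.2 with q | q | q
    · exact (q.1 m).elim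
    · exact q
    · exact (q.2.1 (by rw [hM.aa k.1]; exact m)).elim
  have att : ∀ y ∈ s.N S, ∃ f ∈ U, s.vx f ∈ S ∧ s.vx (s.M.a f) = y := fun y hy => by
    obtain ⟨f, f1, f2, f3, rfl⟩ := hch y hy
    exact ⟨f, ⟨f1, Or.inr (Or.inl ⟨f3, hy.1, Or.inl f2⟩)⟩, f3, rfl⟩
  have dU : Disjoint U (s.M.ind s.vx S) :=
    Set.disjoint_left.2 fun x k m => (UA x k m.2.1).2.1 m.2.2
  obtain ⟨C, -, eC, mg⟩ := mergeS _ _ s.M s.vx S hM hL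
  obtain ⟨m1, m2, m3, m4, -, m6, -, -⟩ := mg U hU dU
  have eUC : s.M.Es (U ∪ C) := ⟨union_subset hU.1 eC.1, fun f k => k.elim
    (fun q => ⟨Or.inl (hU.2 f q).1, Or.inl (hU.2 f q).2⟩)
    fun q => ⟨Or.inr (eC.2 f q).1, Or.inr (eC.2 f q).2⟩⟩
  refine ⟨s.M.minor U C, m1, rfl, rfl, hU.1, fun f a b c => ⟨a, Or.inl ⟨b, c⟩⟩,
    fun f a b => (UA f a b).2.1, att, fun f a g b c d e => ?_, m3, fun f a g b => ?_, m6,
    m2 ▸ eg_sub_le hM eUC⟩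
  · have k1 := (UA f a c).2.2
    have k2 := (UA g b d).2.2
    rw [e] at k2
    have c1 := hM.cc a.1
    have c2 := hM.cc b.1
    rcases k1 with k1 | k1 <;> rcases k2 with k2 | k2 <;>
      have k3 := Option.some.inj (k2.symm.trans k1)
    · exact Or.inl k3
    · exact Or.inr (by rw [← k3, c2])
    · exact Or.inr k3
    · exact Or.inl (by rw [← c2, k3, c1])
  · rw [m4 f a g b]
    have ins : ∀ u ∈ S, ∀ v ∈ S, ReflTransGen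
        (fun u v => ∃ x ∈ U ∪ s.M.ind s.vx S, s.vx x = u ∧ s.vx (s.M.a x) = v) u v :=
      fun u hu v hv => ReflTransGen.mono (fun _ _ ⟨x, k, e⟩ => ⟨x, Or.inr k, e⟩) _ _
        ((link_ind hM).1 (hS.2 u hu v hv))
    refine (mem_co.1 (hm.con f a.1 g b.1)).ind (p := fun z => ReflTransGen
      (fun u v => ∃ x ∈ U ∪ s.M.ind s.vx S, s.vx x = u ∧ s.vx (s.M.a x) = v) (s.vx f) (s.vx z))
      hM a.1 .refl (fun z hz k => by rwa [hL.b hM hz]) (fun z hz _ k => k.trans ?_)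
      fun z hz _ k => by rwa [hL.c hM hz]
    by_cases c1 : s.vx z ∈ S <;> by_cases c2 : s.vx (s.M.a z) ∈ S
    · exact ins _ c1 _ c2
    · obtain ⟨x, x1, x2, x3⟩ := att _ (mem_N hz c1 c2)
      exact (ins _ c1 _ x2).tail ⟨x, Or.inl x1, rfl, x3⟩
    · obtain ⟨x, x1, x2, x3⟩ := att _ (mem_N (hM.a_mem hz) c2 (by rwa [hM.aa hz]))
      rw [hM.aa hz] at x3
      exact ReflTransGen.head ⟨s.M.a x, Or.inl (hU.2 x x1).1, x3, by rw [hM.aa x1.1]⟩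
        (ins _ x2 _ c2)
    · exact ReflTransGen.single ⟨z, Or.inl ⟨hz, Or.inl ⟨c1, c2⟩⟩, rfl, rfl⟩

/-- the new map -/
noncomputable def mg (s : Sk) (S : Set MV) (x0 : MV) (M' : FM s.Φ) (pos : s.Φ → Prop) : Sk where
  Φ := s.Φ
  M := M'
  vx := fun f => pr S x0 (s.vx f)
  H := s.H
  Rm := s.Rm
  pos := pos

/-- the standing assumptions -/
structure Su (s : Sk) (S : Set MV) (x0 : MV) (M' : FM s.Φ) : Prop where
  ok : s.Ok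
  pk : s.Pk S
  dis : Disjoint (S ∪ s.N S) s.RH
  x0 : x0 ∈ S ∧ x0 ∈ s.Ce
  ne : (s.N S).Nonempty
  dat : Dat s S M'

namespace Su

variable {s : Sk} {S : Set MV} {x0 y z : MV} {M' : FM s.Φ} {pos : s.Φ → Prop} {f g : s.Φ}

theorem nd_iff (hf : f ∈ s.M.S) : s.vx f ∈ s.Nd ↔ s.vx f ∈ range Sum.inl :=
  ⟨fun k => k.2, fun k => ⟨⟨f, hf, rfl⟩, k⟩⟩

theorem lr {y : MV} (a : y ∈ range Sum.inl) (b : y ∈ range Sum.inr) : False := by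
  obtain ⟨_, rfl⟩ := a
  obtain ⟨_, e⟩ := b
  cases e

variable (h : Su s S x0 M')
include h

theorem hole_out (k : y ∈ s.H) : y ∉ S := fun m =>
  (h.pk.sub m).elim (fun q => lr q.2 (h.ok.hr.1 k)) fun q => q.2 (Or.inl k)

theorem rim_out (k : y ∈ s.Rm) : y ∉ S := fun m =>
  (h.pk.sub m).elim (fun q => lr q.2 (h.ok.hr.2.1 k)) fun q => q.2 (Or.inr k)

theorem hole_nd (k : y ∈ s.H) : y ∉ s.Nd := fun q => lr q.2 (h.ok.hr.1 k)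

theorem out (a : y ∉ S) (b : y ∉ s.Nd) (c : s.G.Adj y z) : z ∉ S := fun m =>
  b (h.pk.out ⟨a, z, m, c.symm⟩)

theorem out_fl (hf : f ∈ s.M.S) (a : s.vx f ∉ S) (b : s.vx f ∉ s.Nd) :
    s.vx (s.M.a f) ∉ S ∧ f ∈ M'.S :=
  have k := h.out a b (adj_of hf (h.ok.hm.simple f hf).1)
  ⟨k, h.dat.keep f hf a k⟩

theorem a_mem (hf : f ∈ M'.S) : s.M.a f ∈ M'.S := h.dat.a ▸ h.dat.ok.a_mem hf

theorem adj_iff : (mg s S x0 M' pos).G.Adj y z ↔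
    y ≠ z ∧ ∃ f ∈ M'.S, pr S x0 (s.vx f) = y ∧ pr S x0 (s.vx (s.M.a f)) = z := by
  constructor
  · intro k
    obtain ⟨f, f1, f2, f3⟩ := exists_adj h.dat.ok k
    exact ⟨k.ne, f, f1, f2, h.dat.a ▸ f3⟩
  · rintro ⟨n, f, f1, f2, f3⟩
    exact ⟨n, f, f1, Or.inl ⟨f2, h.dat.a.symm ▸ f3⟩⟩

theorem adj1 (a : y ∉ S) (b : z ∉ S) : (mg s S x0 M' pos).G.Adj y z ↔ s.G.Adj y z := by
  rw [h.adj_iff]
  constructor
  · rintro ⟨n, f, f1, f2, f3⟩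
    rw [pr_eq h.x0.1 a] at f2
    rw [pr_eq h.x0.1 b] at f3
    exact ⟨n, f, h.dat.sub f1, Or.inl ⟨f2, f3⟩⟩
  · intro k
    obtain ⟨f, f1, rfl, rfl⟩ := exists_adj h.ok.hm.ok k
    exact ⟨k.ne, f, h.dat.keep f f1 a b, pr_out a, pr_out b⟩

theorem adj2 : (mg s S x0 M' pos).G.Adj x0 z ↔ z ∈ s.N S := by
  rw [h.adj_iff]
  constructor
  · rintro ⟨-, f, f1, f2, rfl⟩
    rw [pr_eq0 h.x0.1] at f2
    rw [pr_out (h.dat.nin f f1 f2)]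
    exact mem_N (h.dat.sub f1) f2 (h.dat.nin f f1 f2)
  · intro k
    obtain ⟨f, f1, f2, f3⟩ := h.dat.att z k
    exact ⟨fun e => k.1 (e ▸ h.x0.1), f, f1, pr_in f2, (pr_eq h.x0.1 k.1).2 f3⟩

theorem vt : y ∈ (mg s S x0 M' pos).Vt ↔ (y ∈ s.Vt ∧ y ∉ S) ∨ y = x0 := by
  constructor
  · rintro ⟨f, f1, rfl⟩
    show (pr S x0 (s.vx f) ∈ _ ∧ pr S x0 (s.vx f) ∉ _) ∨ pr S x0 (s.vx f) = _
    rcases pr_cases S x0 (s.vx f) with ⟨a, e⟩ | ⟨a, e⟩ <;> rw [e]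
    exacts [Or.inr rfl, Or.inl ⟨⟨f, h.dat.sub f1, rfl⟩, a⟩]
  · rintro (⟨⟨f, f1, rfl⟩, a⟩ | rfl)
    · by_cases c : s.vx (s.M.a f) ∈ S
      · have k := mem_N (h.ok.hm.ok.a_mem f1) c (by rwa [h.ok.hm.ok.aa f1])
        rw [h.ok.hm.ok.aa f1] at k
        obtain ⟨x, x1, -, x3⟩ := h.dat.att _ k
        exact ⟨_, h.a_mem x1, (pr_eq h.x0.1 a).2 x3⟩
      · exact ⟨f, h.dat.keep f f1 a c, pr_out a⟩
    · obtain ⟨z, hz⟩ := h.ne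
      obtain ⟨x, x1, x2, -⟩ := h.dat.att _ hz
      exact ⟨x, x1, pr_in x2⟩

theorem nd : y ∈ (mg s S x0 M' pos).Nd ↔ y ∈ s.Nd ∧ y ∉ S :=
  ⟨fun k => (h.vt.1 k.1).elim (fun q => ⟨⟨q.1, k.2⟩, q.2⟩)
    fun q => (lr k.2 (q ▸ h.x0.2.1.2)).elim, fun k => ⟨h.vt.2 (Or.inl ⟨k.1.1, k.2⟩), k.1.2⟩⟩

theorem ce : y ∈ (mg s S x0 M' pos).Ce ↔ (y ∈ s.Ce ∧ y ∉ S) ∨ y = x0 :=
  ⟨fun k => (h.vt.1 k.1.1).imp (fun q => ⟨⟨⟨q.1, k.1.2⟩, k.2⟩, q.2⟩) id, fun k => k.elim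
    (fun q => ⟨⟨h.vt.2 (Or.inl ⟨q.1.1.1, q.2⟩), q.1.1.2⟩, q.1.2⟩)
    fun q => ⟨⟨h.vt.2 (Or.inr q), q ▸ h.x0.2.1.2⟩, q ▸ h.x0.2.2⟩⟩

theorem inl_out {v : W} (k : (mg s S x0 M' pos).G.Adj y (Sum.inl v)) : Sum.inl v ∉ S := by
  obtain ⟨-, f, f1, -, e⟩ := h.adj_iff.1 k
  exact ((h.nd (pos := pos)).1 ⟨⟨_, h.a_mem f1, e⟩, v, rfl⟩).2

theorem nb (a : y ∉ S) (b : y ∉ s.Nd) : (mg s S x0 M' pos).nb y = s.nb y :=
  Set.ext fun _ => ⟨fun k => (h.adj1 a (h.inl_out k)).1 k, fun k => (h.adj1 a (h.out a b k)).2 k⟩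

theorem nb0 {v : W} : v ∈ (mg s S x0 M' pos).nb x0 ↔ Sum.inl v ∈ s.N S := h.adj2

theorem pr_hole : pr S x0 y ∈ s.H ↔ y ∈ s.H := by
  rcases pr_cases S x0 y with ⟨a, e⟩ | ⟨a, e⟩ <;> rw [e]
  exact ⟨fun k => (h.hole_out k h.x0.1).elim, fun k => (h.hole_out k a).elim⟩

theorem fl : f ∈ M'.fl (mg s S x0 M' pos).vx s.H ↔ f ∈ s.M.fl s.vx s.H :=
  ⟨fun k => ⟨h.dat.sub k.1, h.pr_hole.1 k.2⟩, fun k =>
    ⟨(h.out_fl k.1 (h.hole_out k.2) (h.hole_nd k.2)).2, h.pr_hole.2 k.2⟩⟩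

theorem face0 (hf : f ∈ s.M.fl s.vx s.H) (hg : g ∈ s.M.fo f) : s.vx g ∉ S := fun m =>
  Set.disjoint_left.1 h.dis (Or.inl m) ⟨f, hf.1, hf.2, g, hg, rfl⟩

theorem face1 (hf : f ∈ s.M.fl s.vx s.H) (hg : g ∈ s.M.fo f) : g ∈ M'.S :=
  h.dat.keep g (h.ok.hm.ok.fo_mem hf.1 hg) (h.face0 hf hg) (h.face0 hf (orb_p hg))

theorem face2 (hf : f ∈ s.M.fl s.vx s.H) (hg : g ∈ s.M.fo f) : M'.b g = s.M.b g :=
  h.dat.b g (h.face1 hf hg) (h.face1 hf (orb_q hg))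

theorem face3 (hf : f ∈ s.M.fl s.vx s.H) (hg : g ∈ M'.fo f) : g ∈ s.M.fo f :=
  orb_ind (P := fun g => g ∈ s.M.fo f) hg (orb_self ..) (fun _ k => h.dat.a ▸ orb_p k)
    fun _ k => h.face2 hf k ▸ orb_q k

theorem rh : (mg s S x0 M' pos).RH ⊆ s.RH := by
  rintro _ ⟨f, f1, f2, g, g1, rfl⟩
  have a := h.fl.1 ⟨f1, f2⟩
  have b := h.face3 a g1
  exact ⟨f, a.1, a.2, g, b, (pr_out (h.face0 a b)).symm⟩

theorem quad (hf : f ∈ s.M.fl s.vx s.H) : (mg s S x0 M' pos).Quad f ↔ s.Quad f := by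
  have k : ∀ n, (M'.b ∘ M'.a)^[n] f = (s.M.b ∘ s.M.a)^[n] f ∧ (s.M.b ∘ s.M.a)^[n] f ∈ s.M.fo f := by
    intro n
    induction n with
    | zero => exact ⟨rfl, orb_self ..⟩
    | succ n ih =>
      rw [iterate_succ_apply', iterate_succ_apply', ih.1, comp_apply, comp_apply, h.dat.a]
      exact ⟨h.face2 hf (orb_p ih.2), orb_q (orb_p ih.2)⟩
  show (M'.b ∘ M'.a)^[4] f = f ↔ _
  rw [(k 4).1]
  rfl

theorem link (hf : f ∈ s.M.fl s.vx s.H) : (mg s S x0 M' pos).link f = s.link f := by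
  show pr S x0 (s.vx (M'.a (M'.b (M'.a f)))) = _
  rw [h.dat.a, h.face2 hf (orb_p (orb_self ..))]
  exact pr_out (h.face0 hf (orb_p (orb_q (orb_p (orb_self ..)))))

omit h in
theorem link_out (a : y ∉ S) (k : Link s.G S y z) : y = z := by
  rcases ReflTransGen.cases_head k with e | ⟨_, e, -⟩
  exacts [e, (a e.1).elim]

theorem lbl : M'.Lbl (mg s S x0 M' pos).vx := by
  intro f hf g hg
  rw [h.dat.vo f hf g hg]
  show pr S x0 (s.vx f) = pr S x0 (s.vx g) ↔ _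
  rcases pr_cases S x0 (s.vx f) with ⟨a, e⟩ | ⟨a, e⟩ <;> rw [e, eq_comm]
  · rw [pr_eq0 h.x0.1]
    exact ⟨h.pk.conn.2 _ a _, fun k => k.mem a⟩
  · rw [pr_eq h.x0.1 a]
    exact ⟨fun k => k ▸ Link.refl _ _ _, fun k => (link_out a k).symm⟩

theorem vo_sub (hf : f ∈ M'.S) (a : s.vx f ∉ S) : M'.vo f ⊆ s.M.vo f := fun g k =>
  have b := h.dat.ok.vo_mem hf k
  (h.ok.hm.lbl f (h.dat.sub hf) g (h.dat.sub b)).1 (link_out a ((h.dat.vo f hf g b).1 k))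

theorem vo_eq (hf : f ∈ s.M.S) (a : s.vx f ∉ S) (b : s.vx f ∉ s.Nd) : M'.vo f = s.M.vo f :=
  (h.vo_sub (h.out_fl hf a b).2 a).antisymm fun g k => by
    have e := h.ok.hm.lbl.of_vo h.ok.hm.ok hf k
    rw [h.dat.vo f (h.out_fl hf a b).2 g
      (h.out_fl (h.ok.hm.ok.vo_mem hf k) (e ▸ a) (e ▸ b)).2, e]
    exact Link.refl _ _ _

theorem two : ∃ u v, ∀ y ∈ s.N S, y = u ∨ y = v := by
  have fin : (s.N S).Finite :=
    (h.ok.hm.ok.fin.image s.vx).subset fun _ k => (h.pk.out k).1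
  obtain ⟨u, hu⟩ := h.ne
  by_cases c : ∃ v ∈ s.N S, v ≠ u
  · obtain ⟨v, hv, n⟩ := c
    refine ⟨u, v, fun y hy => by_contra fun k => ?_⟩
    push Not at k
    have := (Set.two_lt_ncard_iff fin).2 ⟨y, u, v, hy, hu, hv, k.1, k.2, n.symm⟩
    have := h.pk.card
    omega
  · exact ⟨u, u, fun y hy => Or.inl (by_contra fun k => c ⟨y, hy, k⟩)⟩

theorem deg0 (hf : f ∈ M'.S) (a : s.vx f ∈ S) : (M'.vo f).ncard ≤ 6 := by
  obtain ⟨u, v, k⟩ := h.two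
  have one : ∀ y, ({g | g ∈ M'.S ∧ s.vx g ∈ S ∧ s.vx (s.M.a g) = y} : Set s.Φ).ncard ≤ 2 := by
    intro y
    rcases eq_empty_or_nonempty {g | g ∈ M'.S ∧ s.vx g ∈ S ∧ s.vx (s.M.a g) = y} with e | ⟨x, e⟩
    · rw [e]; simp
    · exact (ncard_le_ncard (t := {x, s.M.c x}) fun g q =>
        h.dat.uniq x e.1 g q.1 e.2.1 q.2.1 (q.2.2.trans e.2.2.symm)).trans
          ((ncard_insert_le _ _).trans (by simp))
  have sub : M'.vo f ⊆ {g | g ∈ M'.S ∧ s.vx g ∈ S ∧ s.vx (s.M.a g) = u} ∪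
      {g | g ∈ M'.S ∧ s.vx g ∈ S ∧ s.vx (s.M.a g) = v} := fun g q => by
    have b := h.dat.ok.vo_mem hf q
    have c := ((h.dat.vo f hf g b).1 q).mem a
    exact (k _ (mem_N (h.dat.sub b) c (h.dat.nin g b c))).imp (fun e => ⟨b, c, e⟩) fun e => ⟨b, c, e⟩
  have := (ncard_le_ncard sub ((h.dat.ok.fin.subset fun _ q => q.1).union
    (h.dat.ok.fin.subset fun _ q => q.1))).trans (ncard_union_le _ _)
  have := one u
  have := one v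
  omega

theorem simple : M'.Simple (mg s S x0 M' pos).vx s.H := by
  intro f hf
  have hf' := h.dat.sub hf
  have hM := h.ok.hm.ok
  rw [h.dat.a, h.dat.c]
  show pr S x0 (s.vx f) ≠ pr S x0 (s.vx (s.M.a f)) ∧ ∀ g ∈ M'.S, pr S x0 (s.vx f) ∉ s.H →
    pr S x0 (s.vx (s.M.a f)) ∉ s.H → pr S x0 (s.vx g) = pr S x0 (s.vx f) →
    pr S x0 (s.vx (s.M.a g)) = pr S x0 (s.vx (s.M.a f)) → g = f ∨ g = s.M.c f
  simp only [h.pr_hole]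
  rcases pr_cases S x0 (s.vx f) with ⟨a, e⟩ | ⟨a, e⟩ <;> rw [e]
  · have b := h.dat.nin f hf a
    rw [pr_out b]
    exact ⟨fun k => b (k ▸ h.x0.1), fun g hg _ _ k k' =>
      h.dat.uniq f hf g hg a ((pr_eq0 h.x0.1).1 k) ((pr_eq h.x0.1 b).1 k')⟩
  rcases pr_cases S x0 (s.vx (s.M.a f)) with ⟨b, e⟩ | ⟨b, e⟩ <;> rw [e]
  · refine ⟨fun k => a (k ▸ h.x0.1), fun g hg _ _ k k' => ?_⟩
    have hg' := h.dat.sub hg
    have := h.dat.uniq _ (h.a_mem hf) _ (h.a_mem hg) b ((pr_eq0 h.x0.1).1 k')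
      (by rw [hM.aa hf', hM.aa hg']; exact (pr_eq h.x0.1 a).1 k)
    refine this.imp (fun q => ?_) fun q => ?_
    · rw [← hM.aa hg', q, hM.aa hf']
    · rw [← hM.aa hg', q, hM.comm (hM.a_mem hf'), hM.aa hf']
  · exact ⟨(h.ok.hm.simple f hf').1, fun g hg n n' k k' => (h.ok.hm.simple f hf').2 g
      (h.dat.sub hg) n n' ((pr_eq h.x0.1 a).1 k) ((pr_eq h.x0.1 b).1 k')⟩

theorem nd_fl (hf : f ∈ M'.S) :
    (mg s S x0 M' pos).vx f ∈ (mg s S x0 M' pos).Nd ↔ s.vx f ∈ s.Nd := by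
  rw [h.nd]
  show pr S x0 (s.vx f) ∈ s.Nd ∧ pr S x0 (s.vx f) ∉ S ↔ _
  rcases pr_cases S x0 (s.vx f) with ⟨a, e⟩ | ⟨a, e⟩ <;> rw [e]
  · refine ⟨fun k => (k.2 h.x0.1).elim, fun k => (h.dat.nin f hf a ?_).elim⟩
    exact h.pk.cl _ ⟨a, k⟩ _ (adj_of (h.dat.sub hf) (h.ok.hm.simple f (h.dat.sub hf)).1)
  · exact ⟨fun k => k.1, fun k => ⟨k, a⟩⟩

theorem ok' (hp : M'.Pos pos) : (mg s S x0 M' pos).Ok where
  hm := ⟨h.dat.ok, h.lbl, h.dat.con, h.simple, fun f hf k q =>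
    h.ok.hm.ind f (h.dat.sub hf) (h.pr_hole.1 k) (h.dat.a ▸ h.pr_hole.1 q)⟩
  ps := hp
  hr := h.ok.hr
  od := fun v k => h.ok.od v (h.nd.1 ⟨k, v, rfl⟩).1.1
  bip := fun f hf => by
    refine (h.nd_fl hf).trans (Iff.trans ?_ (h.nd_fl (h.dat.ok.a_mem hf)).not.symm)
    rw [h.dat.a]
    exact h.ok.bip f (h.dat.sub hf)
  deg := fun f hf => by
    have hf' := h.dat.sub hf
    refine ⟨fun k => ?_, fun k => ?_⟩
    · by_cases a : s.vx f ∈ S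
      · exact h.deg0 hf a
      have e : (mg s S x0 M' pos).vx f = s.vx f := pr_out a
      rw [e, h.ce] at k
      have k' := (k.resolve_right fun q => a (q ▸ h.x0.1)).1
      exact (ncard_le_ncard (h.vo_sub hf a) (h.ok.hm.ok.fin.subset fun _ q =>
        h.ok.hm.ok.vo_mem hf' q)).trans ((h.ok.deg f hf').1 k')
    · have e : s.vx f = (mg s S x0 M' pos).vx f := (pr_eq h.x0.1 (h.rim_out k)).1 rfl
      rw [← e] at k
      have := h.vo_eq hf' (h.rim_out k) fun q => lr q.2 (h.ok.hr.2.1 k)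
      exact this ▸ (h.ok.deg f hf').2 k
  rim := fun y k => by
    obtain ⟨f, f1, f2, f3⟩ := h.ok.rim y
      ⟨k.1, ((h.vt.1 k.2).resolve_right fun q => h.rim_out k.1 (q ▸ h.x0.1)).1⟩
    exact ⟨f, h.fl.2 f1, (h.quad f1).2 f2, (h.link f1).trans f3⟩

theorem spk (k : s.Spk) : (mg s S x0 M' pos).Spk := by
  intro f hf g hg e e'
  have a := h.fl.1 hf
  have b := h.hole_out a.2
  have c := (h.out_fl a.1 b (h.hole_nd a.2)).1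
  change pr S x0 (s.vx g) = pr S x0 (s.vx f) at e
  change pr S x0 (s.vx (M'.a g)) = pr S x0 (s.vx (M'.a f)) at e'
  rw [pr_out b, pr_eq h.x0.1 b] at e
  rw [h.dat.a, pr_out c, pr_eq h.x0.1 c] at e'
  exact (k f a g (h.dat.sub hg) e e').imp id fun q => q.trans (congrFun h.dat.c f).symm

theorem far (hf : f ∈ s.M.S) (a : s.vx f ∉ S) (b : s.vx f ∉ s.Nd) :
    (mg s S x0 M' pos).far f = s.far f := by
  show nodeOf (pr S x0 (s.vx (M'.a f))) = _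
  rw [h.dat.a, pr_out (h.out_fl hf a b).1]
  rfl

theorem grid {n : ℕ} {B : Fin n × Fin n → Set MV} (hn : 3 ≤ n) (m : s.Grid B)
    (nc : ∀ i j, ¬ Cross B i j ⊆ S) :
    ∃ B' : Fin n × Fin n → Set MV, (mg s S x0 M' pos).Grid B' ∧ SubG B B' := by
  obtain ⟨u, v, k⟩ := h.two
  obtain ⟨B', b1, b2⟩ := contr (G' := (mg s S x0 M' pos).G)
    (D' := (mg s S x0 M' pos).T \ (mg s S x0 M' pos).RH) hn m h.x0.1
    (N := s.N S) (fun x a y b c => ⟨b, x, a, c⟩) k (fun _ a => a.1) (fun _ a _ b => (h.adj1 a b).2)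
    (fun _ => h.adj2.2)
    (fun y a => ⟨a.1.1.imp (fun q => h.nd.2 ⟨q, a.2⟩) fun q => h.ce.2 (Or.inl ⟨q, a.2⟩),
      fun q => a.1.2 (h.rh q)⟩)
    ⟨Or.inr (h.ce.2 (Or.inr rfl)), fun q =>
      Set.disjoint_left.1 h.dis (Or.inl h.x0.1) (h.rh q)⟩ nc
  exact ⟨B', b1, id, id, injective_id, injective_id, fun i j w a =>
    (b2 _ a).resolve_right fun q => lr ⟨w, q⟩ h.x0.2.1.2⟩

theorem fewer : (mg s S x0 M' pos).Nd.ncard < s.Nd.ncard := by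
  obtain ⟨w, a, b⟩ := h.pk.node
  exact ncard_lt_ncard ⟨fun _ k => (h.nd.1 k).1, fun k => (h.nd.1 (k b)).2 a⟩
    ((h.ok.hm.ok.fin.image s.vx).subset fun _ k => k.1)

end Su

end Pool.Agent.MP_9d78a0_co.gm.NormK
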