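import Pool.Agent.MP_9d78a0_co.gm.SpecJ
import Pool.Agent.MP_9d78a0_co.gm.COp2

/-! Block J: removed links, and the gaps of dead positions. -/

set_option autoImplicit false

namespace Pool.Agent.MP_9d78a0_co.gm

open Set Function

namespace JD

variable {s : Sk} {f f' g0 : s.Φ} {v w : W} {x y z : MV} {X Y K D : Set MV}

theorem not_T (h : s.Ok) (hx : x ∈ s.H ∪ s.Rm) : x ∉ s.T := by
  rintro (⟨-, v, e⟩ | k)
  · obtain ⟨n, k⟩ := hx.elim (h.hr.1 ·) (h.hr.2.1 ·)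
    rw [← e] at k; cases k
  · exact k.2 hx

theorem T_eq (h : s.Ok) : s.T = s.M.tv s.vx s.H \ (s.Rm ∩ s.Vt) := by
  ext x
  constructor
  · intro k
    exact ⟨⟨k.elim (·.1) (·.1.1), fun e => not_T h (Or.inl e) k⟩, fun e => not_T h (Or.inr e.1) k⟩
  · rintro ⟨⟨k1, k2⟩, k3⟩
    rcases x with v | n
    · exact Or.inl ⟨k1, v, rfl⟩
    · exact Or.inr ⟨⟨k1, n, rfl⟩, fun e => e.elim k2 fun e => k3 ⟨e, k1⟩⟩

theorem ce_nd (hx : x ∈ s.Ce) : x ∉ s.Nd := fun ⟨_, v, e⟩ => by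
  obtain ⟨n, k⟩ := hx.1.2
  rw [← e] at k; cases k

theorem ce_ne (hx : x ∈ s.Ce) : x ≠ Sum.inl v := fun e => ce_nd hx ⟨hx.1.1, v, e.symm⟩

theorem nd_of (h : s.Ok) (a : s.G.Adj (Sum.inl v) y) : Sum.inl v ∈ s.Nd :=
  ⟨((fSkS s h).2.2.2.1 _ _ a).1, v, rfl⟩

theorem cell_of (h : s.Ok) (hy : y ∈ s.T) (a : s.G.Adj (Sum.inl v) y) : y ∈ s.Ce :=
  hy.resolve_left (((fSkS s h).2.2.2.1 _ _ a).2.1 (nd_of h a))

theorem node_of (h : s.Ok) (hx : x ∈ s.Ce) (a : s.G.Adj x y) : y ∈ s.Nd :=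
  by_contra fun k => ce_nd hx (((fSkS s h).2.2.2.1 _ _ a).2.2 k)

theorem far_adj (h : s.Ok) (hf : f ∈ s.M.fl s.vx s.H) : s.G.Adj (s.vx f) (Sum.inl (s.far f)) :=
  ((fSkS s h).2.1 f hf).2.1

theorem far_po (h : s.Ok) (hf : f ∈ s.M.fl s.vx s.H) : s.far f ∈ s.Po := ⟨_, hf.2, far_adj h hf⟩

theorem po_fl (h : s.Ok) (hv : v ∈ s.Po) : ∃ f ∈ s.M.fl s.vx s.H, s.far f = v :=
  let ⟨x, hx, k⟩ := hv
  let ⟨f, hf, _, e⟩ := (fSkS s h).2.2.1 x hx v k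
  ⟨f, hf, e⟩

theorem far_face (h : s.Ok) (hf : f ∈ s.M.fl s.vx s.H) :
    ∃ g ∈ s.M.fo f, s.vx g = Sum.inl (s.far f) :=
  ⟨_, Cy.orb_p (Cy.orb_self ..), ((fSkS s h).2.1 f hf).1⟩

theorem po_rad (h : s.Ok) (hv : v ∈ s.Po) : Sum.inl v ∈ s.M.rad s.vx s.H := by
  obtain ⟨f, hf, rfl⟩ := po_fl h hv
  exact ⟨f, hf.1, hf.2, far_face h hf⟩

theorem po_nd (h : s.Ok) (hv : v ∈ s.Po) : Sum.inl v ∈ s.Nd :=
  let ⟨_, _, k⟩ := hv; nd_of h (SimpleGraph.Adj.symm k)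

theorem fl_c (h : s.Ok) (hf : f ∈ s.M.fl s.vx s.H) : s.M.c f ∈ s.M.fl s.vx s.H :=
  ((fSkS s h).2.1 f hf).2.2.2.2.1

theorem vx_c (h : s.Ok) (hf : f ∈ s.M.fl s.vx s.H) : s.vx (s.M.c f) = s.vx f :=
  ((fSkS s h).2.1 f hf).2.2.2.2.2.1

theorem far_c (h : s.Ok) (hf : f ∈ s.M.fl s.vx s.H) : s.far (s.M.c f) = s.far f :=
  ((fSkS s h).2.1 f hf).2.2.2.2.2.2.1

theorem rot_vo (h : s.Ok) (hf : f ∈ s.M.fl s.vx s.H) (i : ℕ) : s.M.rot^[i] f ∈ s.M.vo f :=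
  (rotS _ _ h.hm.ok f hf.1).1 i

theorem vx_rot (h : s.Ok) (hf : f ∈ s.M.fl s.vx s.H) (i : ℕ) : s.vx (s.M.rot^[i] f) = s.vx f :=
  h.hm.lbl.of_vo h.hm.ok hf.1 (rot_vo h hf i)

theorem fl_rot (h : s.Ok) (hf : f ∈ s.M.fl s.vx s.H) (i : ℕ) :
    s.M.rot^[i] f ∈ s.M.fl s.vx s.H :=
  ⟨h.hm.ok.vo_mem hf.1 (rot_vo h hf i), (vx_rot h hf i).symm ▸ hf.2⟩

theorem back (h : s.Ok) (hf : f ∈ s.M.fl s.vx s.H) (t k : ℕ) :
    s.M.rot^[t] (s.M.c (s.M.rot^[t + k] f)) = s.M.c (s.M.rot^[k] f) := by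
  induction t with
  | zero => simp
  | succ t ih =>
    rw [show t + 1 + k = t + k + 1 by omega, iterate_succ_apply' _ (t + k), iterate_succ_apply,
      (rotS _ _ h.hm.ok _ (fl_rot h hf (t + k)).1).2.2.2.2.2, ih]

theorem rot_inj (h : s.Ok) (hf : f ∈ s.M.fl s.vx s.H) (hf' : f' ∈ s.M.fl s.vx s.H) (k : ℕ)
    (e : s.M.rot^[k] f = s.M.rot^[k] f') : f = f' := by
  have e1 := back h hf k 0
  have e2 := back h hf' k 0
  simp only [add_zero, iterate_zero, id] at e1 e2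
  rw [← h.hm.ok.cc hf.1, ← e1, e, e2, h.hm.ok.cc hf'.1]

theorem rot_per (h : s.Ok) (hf : f ∈ s.M.fl s.vx s.H) :
    s.M.rot^[(s.M.vo f).ncard / 2] f = f := (fRotS _ _ f h.hm.ok hf.1).2.1

/-- reading backwards -/
theorem far_back (h : s.Ok) (hf : f ∈ s.M.fl s.vx s.H) {i k : ℕ}
    (e : i + k = (s.M.vo f).ncard / 2) :
    s.far (s.M.rot^[i] (s.M.c f)) = s.far (s.M.rot^[k] f) := by
  have := back h hf i k
  rw [e, rot_per h hf] at this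
  rw [this, far_c h (fl_rot h hf k)]

/-- all spokes of a hole -/
theorem far_idx (h : s.Ok) (hf : f ∈ s.M.fl s.vx s.H) (hf' : f' ∈ s.M.fl s.vx s.H)
    (e : s.vx f = s.vx f') : ∃ k < (s.M.vo f).ncard / 2, s.far f' = s.far (s.M.rot^[k] f) := by
  obtain ⟨k, hk, e | e⟩ := (rotS _ _ h.hm.ok f hf.1).2.2.2.2.1 f' ((h.hm.lbl f hf.1 f' hf'.1).1 e)
  exacts [⟨k, hk, by rw [e]⟩, ⟨k, hk, by rw [e, far_c h (fl_rot h hf k)]⟩]

/-- a cell has three neighbours at most -/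
theorem three (h : s.Ok) (hx : x ∈ s.Ce) {a b c d : W} (ha : a ∈ s.nb x) (hb : b ∈ s.nb x)
    (hc : c ∈ s.nb x) (hd : d ∈ s.nb x) (ab : a ≠ b) (ac : a ≠ c) (bc : b ≠ c) (ad : a ≠ d)
    (bd : b ≠ d) : c = d := by
  classical
  obtain ⟨f, hf, rfl⟩ := hx.1.1
  obtain ⟨e, l, -⟩ := (fSkS s h).1 f hf (ce_nd hx)
  by_contra cd
  have k : ({a, b, c, d} : Finset W) ⊆ (s.rts f).toFinset := by
    intro v hv
    simp only [Finset.mem_insert, Finset.mem_singleton] at hv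
    have : v ∈ s.nb (s.vx f) := by rcases hv with rfl | rfl | rfl | rfl <;> assumption
    rw [← e] at this
    exact List.mem_toFinset.2 this
  have k1 := (Finset.card_le_card k).trans ((List.toFinset_card_le _).trans (l hx))
  rw [Finset.card_insert_of_notMem (by simp [ab, ac, ad]),
    Finset.card_insert_of_notMem (by simp [bc, bd]), Finset.card_pair cd] at k1
  omega

/-- vertices with one neighbour can be avoided -/
theorem avoid {V : Type} {G : SimpleGraph V} {D L : Set V} {a b : V}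
    (hL : ∀ l ∈ L, ∀ c ∈ D, ∀ d ∈ D, G.Adj l c → G.Adj l d → c = d ∧ c ∉ L) (ha : a ∉ L)
    (k : Link G D a b) : (b ∉ L ∧ Link G (D \ L) a b) ∨
      ∃ c ∈ D, b ∈ L ∧ G.Adj b c ∧ Link G (D \ L) a c := by
  induction k with
  | refl => exact Or.inl ⟨ha, Link.refl ..⟩
  | @tail b c _ e ih =>
    rcases ih with ⟨k1, k2⟩ | ⟨d, hd, k1, k2, k3⟩
    · by_cases hc : c ∈ L
      · exact Or.inr ⟨b, e.1, hc, e.2.2.symm, k2⟩
      · exact Or.inl ⟨hc, k2.trans (Link.single ⟨e.1, k1⟩ ⟨e.2.1, hc⟩ e.2.2)⟩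
    · obtain ⟨rfl, k4⟩ := hL b k1 c e.2.1 d hd e.2.2 k2
      exact Or.inl ⟨k4, k3⟩

theorem cross_sub {V : Type} {G : SimpleGraph V} {g : ℕ} {B : Fin g × Fin g → Set V} {D : Set V}
    (h : Model (fb.grid g) G D B) (i j : Fin g) : Cross B i j ⊆ D :=
  iUnion_subset fun _ => union_subset (h.1 _) (h.1 _)

theorem cross_ne {V : Type} {G : SimpleGraph V} {g : ℕ} {B : Fin g × Fin g → Set V} {D : Set V}
    (h : Model (fb.grid g) G D B) (i j : Fin g) : (Cross B i j).Nonempty :=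
  let ⟨a, ha⟩ := (h.2.1 (i, j)).1; ⟨a, mem_iUnion.2 ⟨j, Or.inl ha⟩⟩

/-! The gap of a dead position -/

/-- what is used about the large component `K` -/
structure Cx (s : Sk) (X Y K : Set MV) : Prop where
  ok : s.Ok
  hX : X ⊆ s.Nd \ Sum.inl '' s.Po
  hY : Y ⊆ Sum.inl '' s.Po
  cl : ∀ u ∈ K, ∀ v ∈ s.T \ (X ∪ Y), s.G.Adj u v → v ∈ K
  live : ∀ v ∈ s.Po, Sum.inl v ∈ K → s.Live K v
  same : ∀ D, Conn s.G D → Disjoint D K → ∀ f ∈ s.M.fl s.vx s.H, ∀ f' ∈ s.M.fl s.vx s.H,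
    Sum.inl (s.far f) ∈ D → Sum.inl (s.far f') ∈ D → s.vx f = s.vx f'
  cr : ∀ D, Conn s.G D → D ⊆ s.T → Disjoint D K → ∀ f ∈ s.M.fl s.vx s.H, ∀ i j1 j2, j1 < i →
    i ≤ j2 → j2 < (s.M.vo f).ncard / 2 → s.Live K (s.far f) → s.Live K (s.far (s.M.rot^[i] f)) →
    Sum.inl (s.far f) ∉ D → Sum.inl (s.far (s.M.rot^[i] f)) ∉ D →
    (∃ g ∈ s.M.fo (s.M.rot^[j1] f), s.vx g ∈ D) → Sum.inl (s.far (s.M.rot^[j2] f)) ∈ D → False
  pos : ∀ f ∈ s.M.fl s.vx s.H, ∀ f' ∈ s.M.fl s.vx s.H, s.far f = s.far f' → f' = f ∨ f' = s.M.c f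

/-- the first `i` positions from `f` on are dead -/
def Run (s : Sk) (K : Set MV) (f : s.Φ) (i : ℕ) : Prop :=
  ∀ k < i, ¬ s.Live K (s.far (s.M.rot^[k] f))

/-- the gap -/
def Gp (s : Sk) (K : Set MV) (g0 : s.Φ) : Set W :=
  {v | ∃ f, (f = g0 ∨ f = s.M.c g0) ∧ ∃ i, v = s.far (s.M.rot^[i] f) ∧ Run s K f (i + 1)}

/-- the zone of the walks -/
def Zn (s : Sk) (X K : Set MV) (g0 : s.Φ) : Set MV := s.T \ (X ∪ Sum.inl '' (s.Po \ Gp s K g0))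

/-- what hangs at the gap -/
def Ez (s : Sk) (X K : Set MV) (g0 : s.Φ) : Set MV :=
  {z | ∃ v ∈ Gp s K g0, Link s.G (Zn s X K g0) (Sum.inl v) z}

theorem two_fl (h : s.Ok) (hg : g0 ∈ s.M.fl s.vx s.H) (e : f = g0 ∨ f = s.M.c g0) :
    f ∈ s.M.fl s.vx s.H ∧ s.vx f = s.vx g0 ∧ s.far f = s.far g0 ∧
      (s.M.c f = g0 ∨ s.M.c f = s.M.c g0) := by
  rcases e with rfl | rfl
  exacts [⟨hg, rfl, rfl, Or.inr rfl⟩,
    ⟨fl_c h hg, vx_c h hg, far_c h hg, Or.inl (h.hm.ok.cc hg.1)⟩]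

theorem gp_po (h : s.Ok) (hg : g0 ∈ s.M.fl s.vx s.H) (hv : v ∈ Gp s K g0) : v ∈ s.Po := by
  obtain ⟨f, e, i, rfl, -⟩ := hv
  exact far_po h (fl_rot h (two_fl h hg e).1 i)

theorem gp_dead (hv : v ∈ Gp s K g0) : ¬ s.Live K v := by
  obtain ⟨f, -, i, rfl, k⟩ := hv
  exact k i (Nat.lt_succ_self i)

theorem gp_zn (c : Cx s X Y K) (hg : g0 ∈ s.M.fl s.vx s.H) (hv : v ∈ Gp s K g0) :
    Sum.inl v ∈ Zn s X K g0 := by
  refine ⟨Or.inl (po_nd c.ok (gp_po c.ok hg hv)), ?_⟩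
  rintro (k | ⟨w, k, e⟩)
  · exact (c.hX k).2 ⟨v, gp_po c.ok hg hv, rfl⟩
  · exact k.2 (Sum.inl_injective e ▸ hv)

theorem ez_zn (c : Cx s X Y K) (hg : g0 ∈ s.M.fl s.vx s.H) (hz : z ∈ Ez s X K g0) :
    z ∈ Zn s X K g0 := let ⟨_, hv, k⟩ := hz; k.mem (gp_zn c hg hv)

theorem zn_po (hv : v ∈ s.Po) (k : Sum.inl v ∈ Zn s X K g0) : v ∈ Gp s K g0 :=
  by_contra fun e => k.2 (Or.inr ⟨v, ⟨hv, e⟩, rfl⟩)

theorem gp_ez (hv : v ∈ Gp s K g0) : Sum.inl v ∈ Ez s X K g0 := ⟨v, hv, Link.refl ..⟩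

theorem ez_gp (c : Cx s X Y K) (hg : g0 ∈ s.M.fl s.vx s.H) (hv : v ∈ s.Po)
    (k : Sum.inl v ∈ Ez s X K g0) : v ∈ Gp s K g0 := zn_po hv (ez_zn c hg k)

theorem ez_off (c : Cx s X Y K) (hg : g0 ∈ s.M.fl s.vx s.H) (hz : z ∈ Ez s X K g0) : z ∉ K := by
  obtain ⟨v, hv, k⟩ := hz
  induction k with
  | refl => exact fun k => gp_dead hv (c.live v (gp_po c.ok hg hv) k)
  | @tail a b _ e ih =>
    intro hb
    by_cases ha : a ∈ Y
    · obtain ⟨w, hw, rfl⟩ := c.hY ha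
      exact gp_dead (zn_po hw e.1) ⟨b, ⟨hb, cell_of c.ok e.2.1.1 e.2.2⟩, e.2.2.symm⟩
    · exact ih (c.cl b hb a ⟨e.1.1, fun k => k.elim (fun k => e.1.2 (Or.inl k)) ha⟩ e.2.2.symm)

/-- the first live position is on the border -/
theorem first (c : Cx s X Y K) (hg : g0 ∈ s.M.fl s.vx s.H) (hd : ¬ s.Live K (s.far g0))
    (e : f = g0 ∨ f = s.M.c g0) {k : ℕ} (hk : s.far (s.M.rot^[k] f) ∉ Gp s K g0) :
    ∃ b ≤ k, 0 < b ∧ Run s K f b ∧ s.Live K (s.far (s.M.rot^[b] f)) ∧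
      s.far (s.M.rot^[b] f) ∈ s.Br (Ez s X K g0) := by
  classical
  have ex : ∃ b, b ≤ k ∧ s.Live K (s.far (s.M.rot^[b] f)) := by
    by_contra n
    exact hk ⟨f, e, k, rfl, fun i hi l => n ⟨i, Nat.lt_succ_iff.1 hi, l⟩⟩
  obtain ⟨h1, h2⟩ := Nat.find_spec ex
  have h3 : Run s K f (Nat.find ex) := fun i hi l => Nat.find_min ex hi ⟨by omega, l⟩
  generalize Nat.find ex = b at h1 h2 h3
  obtain ⟨h4, -, h5, -⟩ := two_fl c.ok hg e
  rcases b with _ | b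
  · exact (hd (h5 ▸ h2)).elim
  · exact ⟨b + 1, h1, b.succ_pos, h3, h2,
      fun k => gp_dead (ez_gp c hg (far_po c.ok (fl_rot c.ok h4 _)) k) h2, _, fl_rot c.ok h4 b,
      gp_ez ⟨f, e, b, rfl, h3⟩, by rw [iterate_succ_apply']⟩

theorem run_lt {a b : ℕ} (ha : Run s K f (a + 1)) (hb : s.Live K (s.far (s.M.rot^[b] f))) :
    a < b := by
  by_contra n
  exact ha b (by omega) hb

/-- what is joined to the gap -/
def Ev (s : Sk) (X K : Set MV) (g0 : s.Φ) (v : W) : Set MV :=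
  {z | Link s.G (Zn s X K g0) (Sum.inl v) z}

theorem ev_conn : Conn s.G (Ev s X K g0 v) := by
  have k : ∀ z ∈ Ev s X K g0 v, Link s.G (Ev s X K g0 v) (Sum.inl v) z := fun z hz => by
    induction hz with
    | refl => exact Link.refl ..
    | tail h e ih => exact ih.trans (Link.single h (h.tail e) e.2.2)
  exact ⟨⟨_, Link.refl ..⟩, fun a ha b hb => (k a ha).symm.trans (k b hb)⟩

theorem conn_insert {V : Type} {G : SimpleGraph V} {D : Set V} {a b : V} (h : Conn G D)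
    (ha : a ∈ D) (e : G.Adj a b) : Conn G (insert b D) := by
  have k : ∀ z ∈ insert b D, Link G (insert b D) a z := by
    rintro z (rfl | hz)
    exacts [Link.single (Or.inr ha) (Or.inl rfl) e, (h.2 a ha z hz).mono (subset_insert ..)]
  exact ⟨⟨b, Or.inl rfl⟩, fun u hu v hv => (k u hu).symm.trans (k v hv)⟩

/-- the positions next to what hangs at the gap -/
theorem border (c : Cx s X Y K) (hg : g0 ∈ s.M.fl s.vx s.H) (hd : ¬ s.Live K (s.far g0))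
    (hx : x ∈ Ez s X K g0) (hc : x ∈ s.Ce) (hw : w ∈ s.Po) (hw' : w ∉ Gp s K g0)
    (a : s.G.Adj x (Sum.inl w)) : w ∈ s.Br (Ez s X K g0) := by
  have h := c.ok
  obtain ⟨v, hv, l⟩ := id hx
  have sub : Ev s X K g0 v ⊆ Ez s X K g0 := fun z hz => ⟨v, hv, hz⟩
  have cD : Conn s.G (insert (Sum.inl w) (Ev s X K g0 v)) := conn_insert ev_conn l a
  have dD : Disjoint (insert (Sum.inl w) (Ev s X K g0 v)) K := by
    refine disjoint_left.2 ?_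
    rintro z (rfl | hz) k
    · exact ez_off c hg hx (c.cl _ k x ⟨Or.inr hc, fun k => k.elim
        (fun k => ce_nd hc (c.hX k).1) fun k => let ⟨_, _, e⟩ := c.hY k; ce_ne hc e.symm⟩ a.symm)
    · exact ez_off c hg (sub hz) k
  have sD : insert (Sum.inl w) (Ev s X K g0 v) ⊆ s.T :=
    insert_subset (Or.inl (po_nd h hw)) fun z hz => (ez_zn c hg (sub hz)).1
  obtain ⟨f', hf', rfl⟩ := po_fl h hw
  obtain ⟨f, e, m, rfl, hm⟩ := id hv
  obtain ⟨e1, e2, -⟩ := two_fl h hg e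
  have hs := c.same _ cD dD _ (fl_rot h e1 m) _ hf' (Or.inr (Link.refl ..)) (Or.inl rfl)
  rw [vx_rot h e1, e2] at hs
  obtain ⟨k, hk, ek⟩ := far_idx h hg hf' hs
  set n := (s.M.vo g0).ncard / 2 with hn
  have ek' : s.far f' = s.far (s.M.rot^[n - k] (s.M.c g0)) := by
    rw [ek, far_back h hg (i := n - k) (k := k) (by omega)]
  obtain ⟨b, b1, b2, -, b4, b5⟩ := first c hg hd (Or.inl rfl) (ek ▸ hw')
  obtain ⟨d, d1, d2, -, d4, d5⟩ := first c hg hd (Or.inr rfl) (ek' ▸ hw')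
  by_contra hb
  have b6 : b ≠ k := fun e => hb (by rw [ek, ← e]; exact b5)
  have d6 : d ≠ n - k := fun e => hb (by rw [ek', ← e]; exact d5)
  have sh : ∀ i, s.M.rot^[i] (s.M.rot^[b] g0) = s.M.rot^[i + b] g0 := fun i => by
    rw [iterate_add_apply]
  have ed : s.far (s.M.rot^[n - d - b] (s.M.rot^[b] g0)) = s.far (s.M.rot^[d] (s.M.c g0)) := by
    rw [sh, far_back h hg (i := d) (k := n - d) (by omega), show n - d - b + b = n - d by omega]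
  have nb : ∀ u ∈ s.Br (Ez s X K g0), Sum.inl u ∉ insert (Sum.inl (s.far f')) (Ev s X K g0
      (s.far (s.M.rot^[m] f))) := by
    rintro u hu (k | k)
    exacts [hb (Sum.inl_injective k ▸ hu), hu.1 (sub k)]
  obtain ⟨j, j1, j2, j3⟩ : ∃ j, n - d - b ≤ j ∧ j < n ∧
      s.far (s.M.rot^[j] (s.M.rot^[b] g0)) = s.far (s.M.rot^[m] f) := by
    rcases e with rfl | rfl
    · have := run_lt hm b4
      refine ⟨n - b + m, by omega, by omega, ?_⟩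
      rw [sh, show n - b + m + b = m + n by omega, iterate_add_apply, rot_per h hg]
    · have := run_lt hm d4
      refine ⟨n - m - b, by omega, by omega, ?_⟩
      rw [sh, far_back h hg (i := m) (k := n - m) (by omega), show n - m - b + b = n - m by omega]
  refine c.cr _ cD sD dD _ (fl_rot h hg b) (n - d - b) (k - b) j (by omega) j1
    (by rwa [h.hm.ok.vo_eq hg.1 (rot_vo h hg b)]) b4 (ed ▸ d4) (nb _ b5) (ed ▸ nb _ d5) ?_
    (j3 ▸ Or.inr (Link.refl ..))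
  obtain ⟨g, g1, g2⟩ := far_face h (fl_rot h (fl_rot h hg b) (k - b))
  exact ⟨g, g1, Or.inl (by rw [g2, sh, show k - b + b = k by omega, ek])⟩

/-- the border consists of first live positions -/
theorem br_sub (c : Cx s X Y K) (hg : g0 ∈ s.M.fl s.vx s.H) (hv : v ∈ s.Br (Ez s X K g0)) :
    ∃ f, (f = g0 ∨ f = s.M.c g0) ∧ ∃ b, v = s.far (s.M.rot^[b] f) ∧ Run s K f b ∧ s.Live K v := by
  have h := c.ok
  obtain ⟨h1, f', hf', h2, rfl⟩ := hv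
  obtain ⟨f, e, i, h3, h4⟩ := ez_gp c hg (far_po h hf') h2
  obtain ⟨e1, -, e3, e4⟩ := two_fl h hg e
  have main : ∀ f, (f = g0 ∨ f = s.M.c g0) → ∀ i, Run s K f (i + 1) → f' = s.M.rot^[i] f →
      ∃ f, (f = g0 ∨ f = s.M.c g0) ∧ ∃ b, s.far (s.M.rot f') = s.far (s.M.rot^[b] f) ∧
        Run s K f b ∧ s.Live K (s.far (s.M.rot f')) := by
    rintro f e i r rfl
    rw [← iterate_succ_apply' s.M.rot] at h1 ⊢
    refine ⟨f, e, i + 1, rfl, r, by_contra fun n => h1 (gp_ez ⟨f, e, i + 1, rfl, fun k hk => ?_⟩)⟩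
    rcases Nat.lt_succ_iff_lt_or_eq.1 hk with hk | rfl
    exacts [r k hk, n]
  rcases c.pos _ (fl_rot h e1 i) _ hf' h3.symm with k | k
  · exact main f e i h4 k
  · rcases i with _ | i
    · refine main _ e4 0 (fun j hj => ?_) k
      obtain rfl : j = 0 := by omega
      have := h4 0 Nat.zero_lt_one
      simp only [iterate_zero, id] at this ⊢
      rwa [far_c h e1]
    · have := back h e1 1 i
      rw [iterate_one, add_comm, ← k] at this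
      exact (h1 (gp_ez ⟨f, e, i, by rw [this, far_c h (fl_rot h e1 i)],
        fun j hj => h4 j (by omega)⟩)).elim

theorem br_card (c : Cx s X Y K) (hg : g0 ∈ s.M.fl s.vx s.H) :
    (s.Br (Ez s X K g0)).ncard ≤ 2 := by
  have one : ∀ f, {v | ∃ b, v = s.far (s.M.rot^[b] f) ∧ Run s K f b ∧ s.Live K v}.Subsingleton := by
    rintro f _ ⟨a, rfl, a1, a2⟩ _ ⟨b, rfl, b1, b2⟩
    rcases lt_trichotomy a b with k | rfl | k
    exacts [(b1 a k a2).elim, rfl, (a1 b k b2).elim]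
  have le : ∀ A : Set W, A.Subsingleton → A.ncard ≤ 1 := fun A k => by
    rcases k.eq_empty_or_singleton with rfl | ⟨_, rfl⟩ <;> simp
  refine (ncard_le_ncard (fun v hv => ?_) ((one g0).finite.union (one (s.M.c g0)).finite)).trans
    ((ncard_union_le _ _).trans (add_le_add (le _ (one _)) (le _ (one _))))
  obtain ⟨f, rfl | rfl, k⟩ := br_sub c hg hv
  exacts [Or.inl k, Or.inr k]

/-- a closed corner between two border positions -/
theorem corner (c : Cx s X Y K) (hg : g0 ∈ s.M.fl s.vx s.H) (hf : f ∈ s.M.fl s.vx s.H)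
    (hx : s.link f ∈ Ez s X K g0) (h1 : s.far f ∈ s.Br (Ez s X K g0))
    (h2 : s.far (s.M.rot f) ∈ s.Br (Ez s X K g0)) : False := by
  have h := c.ok
  obtain ⟨v, hv, l⟩ := id hx
  have sub : Ev s X K g0 v ⊆ Ez s X K g0 := fun z hz => ⟨v, hv, hz⟩
  obtain ⟨f1, e, b, eb, -, l1⟩ := br_sub c hg h1
  obtain ⟨-, -, -, -, -, l2⟩ := br_sub c hg h2
  obtain ⟨e1, e2, -⟩ := two_fl h hg e
  obtain ⟨f2, e', m, rfl, -⟩ := id hv
  obtain ⟨e3, e4, -⟩ := two_fl h hg e'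
  have hs : s.vx f = s.vx (s.M.rot^[m] f2) := by
    rw [vx_rot h e3, e4, ← e2, ← vx_rot h e1 b]
    rcases c.pos _ hf _ (fl_rot h e1 b) eb with k | k
    exacts [by rw [k], by rw [k, vx_c h hf]]
  obtain ⟨k, hk, ek⟩ := far_idx h hf (fl_rot h e3 m) hs
  have k0 : k ≠ 0 := by
    rintro rfl
    exact h1.1 (gp_ez (show s.far (s.M.rot^[0] f) ∈ _ from ek ▸ hv))
  exact c.cr _ ev_conn (fun z hz => (ez_zn c hg (sub hz)).1)
    (disjoint_left.2 fun z hz => ez_off c hg (sub hz)) f hf 1 0 k Nat.zero_lt_one (by omega) hk l1 l2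
    (fun k => h1.1 (sub k)) (fun k => h2.1 (sub k))
    ⟨_, Cy.orb_p (Cy.orb_q (Cy.orb_p (Cy.orb_self ..))), l⟩ (ek ▸ Link.refl ..)

/-- a gap meets a run of spokes that does not have its origin inside at the ends only -/
theorem ends (c : Cx s X Y K) (hg : g0 ∈ s.M.fl s.vx s.H) (hf : f ∈ s.M.fl s.vx s.H) {m i k i' : ℕ}
    (hq : ∀ i, 0 < i → i < m → s.far (s.M.rot^[i] f) ≠ s.far g0) (h1 : i ≤ k) (h2 : k ≤ i')
    (h3 : i' ≤ m) (hk : s.far (s.M.rot^[k] f) ∈ Gp s K g0) :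
    s.far (s.M.rot^[i] f) ∈ Gp s K g0 ∨ s.far (s.M.rot^[i'] f) ∈ Gp s K g0 := by
  have h := c.ok
  obtain ⟨f1, e, t, ht, r⟩ := id hk
  obtain ⟨e1, -, e3, -⟩ := two_fl h hg e
  rcases c.pos _ (fl_rot h e1 t) _ (fl_rot h hf k) ht.symm with q | q
  · by_cases l : k ≤ t
    · obtain ⟨t, rfl⟩ := Nat.exists_eq_add_of_le l
      rw [iterate_add_apply] at q
      obtain rfl := rot_inj h hf (fl_rot h e1 t) k q
      exact Or.inl ⟨f1, e, i + t, by rw [iterate_add_apply], fun j hj => r j (by omega)⟩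
    · obtain ⟨d, rfl⟩ := Nat.exists_eq_add_of_le (not_le.1 l).le
      rw [iterate_add_apply] at q
      have q' := rot_inj h (fl_rot h hf d) e1 t q
      have : ¬ d < m := fun l' => hq d (by omega) l' (by rw [q', e3])
      exact Or.inr ((show t + d = i' by omega) ▸ hk)
  · obtain ⟨d, rfl⟩ := Nat.exists_eq_add_of_le h2
    by_cases l : d ≤ t
    · obtain ⟨t, rfl⟩ := Nat.exists_eq_add_of_le l
      refine Or.inr ⟨f1, e, t, ?_, fun j hj => r j (by omega)⟩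
      rw [add_comm, iterate_add_apply, q, back h e1, far_c h (fl_rot h e1 t)]
    · have q' := back h e1 t 0
      rw [add_zero, ← q, ← iterate_add_apply] at q'
      have : ¬ 0 < t + k := fun l' => hq _ l' (by omega) (by
        rw [q', iterate_zero, id, far_c h e1, e3])
      exact Or.inl ((show k = i by omega) ▸ hk)

theorem conn_union {V : Type} {G : SimpleGraph V} {A C : Set V} {a b : V} (hA : Conn G A)
    (hC : Conn G C) (ha : a ∈ A) (hb : b ∈ C) (e : a = b ∨ G.Adj a b) : Conn G (A ∪ C) := by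
  have ab : Link G (A ∪ C) a b := by
    rcases e with rfl | e
    exacts [Link.refl .., Link.single (Or.inl ha) (Or.inr hb) e]
  have k : ∀ z ∈ A ∪ C, Link G (A ∪ C) a z := by
    rintro z (hz | hz)
    exacts [(hA.2 a ha z hz).mono subset_union_left,
      ab.trans ((hC.2 b hb z hz).mono subset_union_right)]
  exact ⟨⟨a, Or.inl ha⟩, fun u hu v hv => (k u hu).symm.trans (k v hv)⟩

/-- the large component has the properties that are used -/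
theorem cx (hB : BigS) (hP : PosS) {g R : ℕ} {B : Fin g × Fin g → Set MV} (h : s.Ok) (hs : s.Spk)
    (hG : s.Grid B) (hF : s.Frm B R) (hR : 1 ≤ R) (hrm : s.Rm ∩ s.Vt ⊆ s.M.rad s.vx s.H)
    (hX : X ⊆ s.Nd \ Sum.inl '' s.Po) (xf : X.Finite) (xR : X.ncard ≤ R) (xg : X.ncard < g)
    (hY : Y ⊆ Sum.inl '' s.Po) : Cx s X Y (big s.G B s.T (X ∪ Y)) := by
  have pos := (hP s g R B h hs hG hF hR).1
  obtain ⟨U0, hF⟩ := hF
  have hM := h.hm.ok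
  have hL := h.hm.lbl
  obtain ⟨-, b2, -, b4, -⟩ := hB _ _ _ B _ s.T hG sdiff_subset
  have Ttv : s.T ⊆ s.M.tv s.vx s.H := by rw [T_eq h]; exact sdiff_subset
  obtain ⟨-, c2, c3, -⟩ := hB _ _ _ B _ (s.M.tv s.vx s.H) hG (sdiff_subset.trans Ttv)
  set Y' := Y ∪ s.Rm ∩ s.Vt with hY'
  have yr : Y' ⊆ s.M.rad s.vx s.H :=
    union_subset (fun z hz => by obtain ⟨v, hv, rfl⟩ := hY hz; exact po_rad h hv) hrm
  have eK : big s.G B s.T (X ∪ Y) = big s.G B (s.M.tv s.vx s.H) (X ∪ Y') := by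
    rw [hY', ← union_assoc, ← c3 _ _ (disjoint_left.2 fun z hz k => hz.2 (hrm k)), ← T_eq h]
  obtain ⟨k1, k2, k3, -⟩ := b2 (X ∪ Y)
  have live : ∀ v ∈ s.Po, Sum.inl v ∈ big s.G B s.T (X ∪ Y) → s.Live (big s.G B s.T (X ∪ Y)) v := by
    rintro v hv ⟨i, j, d, w, hw, l⟩
    rcases l.cases_tail with e | ⟨y, l', e⟩
    · exact ((cross_sub hG i j hw).2 (e ▸ po_rad h hv)).elim
    · exact ⟨y, ⟨⟨i, j, d, w, hw, l'⟩, cell_of h e.1.1 e.2.2.symm⟩, e.2.2⟩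
  generalize hK : big s.G B s.T (X ∪ Y) = K at *
  have hrU := (fSepS _ _ _ _ _ _ _ _ B h.hm hF hR).1
  have hH : ∀ f ∈ s.M.fl s.vx s.H, s.vx f ∉ U0 := fun f hf k => (hF.sub k).2 hf.2
  have hHK : ∀ f ∈ s.M.fl s.vx s.H, s.vx f ∉ K := fun f hf k => not_T h (Or.inl hf.2) (k1 k).1
  have offU : ∀ D, Conn s.G D → Disjoint D K → ∀ f ∈ s.M.fl s.vx s.H, Sum.inl (s.far f) ∈ D →
      Disjoint D U0 := fun D cD dD f hf m => by
    have l := (conn_insert cD m (far_adj h hf).symm).2 _ (Or.inl rfl)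
    refine ((hF.far X Y' (insert (s.vx f) D) xf xR yr
      (fun v hv => ⟨_, ⟨hf.2, Or.inl rfl⟩, l v hv⟩) ?_).mono_left
      (FM.sub_rad_iter (fun v hv => FM.link_img hM (l v hv) ⟨f, hf.1, rfl⟩) R)).mono_left
      (subset_insert ..)
    exact eK ▸ disjoint_insert_left.2 ⟨hHK f hf, dD⟩
  have cKU : Conn s.G (K ∪ U0) := by
    obtain ⟨i, j, d⟩ := b4 X xf xg
    have dY : Disjoint (Cross B i j) Y' := disjoint_left.2 fun z hz k => (cross_sub hG i j hz).2 (yr k)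
    obtain ⟨w, hw⟩ := cross_ne hG i j
    have wK : w ∈ K := eK ▸ (c2 _).2.2.2 i j (disjoint_union_right.2 ⟨d, dY⟩) hw
    have ins := hF.ins (X \ U0) Y' xf.sdiff ((ncard_le_ncard sdiff_subset xf).trans xR) yr
      (disjoint_union_left.2 ⟨disjoint_sdiff_left, hrU.mono_left yr⟩)
    obtain ⟨u, hu⟩ := hF.conn.1
    obtain ⟨m1, m2, -, m4⟩ := c2 (X \ U0 ∪ Y')
    have l := ((m2 ⟨u, ins hu⟩).2 w
      (m4 i j (disjoint_union_right.2 ⟨d.mono_right sdiff_subset, dY⟩) hw) u (ins hu)).mono m1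
    have key : ∀ z, Link s.G (s.M.tv s.vx s.H \ (X \ U0 ∪ Y')) w z →
        z ∈ K ∨ Conn s.G (K ∪ U0) := fun z l => by
      induction l with
      | refl => exact Or.inl wK
      | @tail a b _ e ih =>
        refine ih.elim (fun ha => ?_) Or.inr
        by_cases hb : b ∈ U0
        · exact Or.inr (conn_union (k2 ⟨w, wK⟩) hF.conn ha hb (Or.inr e.2.2))
        · exact Or.inl (eK ▸ (c2 (X ∪ Y')).2.2.1 a (eK ▸ ha) b
            ⟨e.2.1.1, fun k => e.2.1.2 (k.imp (⟨·, hb⟩) id)⟩ e.2.2)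
    exact (key u l).elim (fun k => conn_union (k2 ⟨w, wK⟩) hF.conn k hu (Or.inl rfl)) id
  refine ⟨h, hX, hY, k3, live, fun D cD dD f hf f' hf' m m' => ?_, ?_, pos⟩
  · have c1 := conn_insert cD m (far_adj h hf).symm
    have c1' := conn_insert c1 (Or.inr m') (far_adj h hf').symm
    exact (fSepS _ _ _ _ _ _ _ _ B h.hm hF hR).2.2.2 (insert (s.vx f') (insert (s.vx f) D))
      (disjoint_insert_left.2 ⟨hH f' hf', disjoint_insert_left.2 ⟨hH f hf, offU D cD dD f hf m⟩⟩)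
      _ ⟨⟨hf.2, Or.inr (Or.inl rfl)⟩, f, hf.1, rfl⟩ _ ⟨hf'.2, f', hf'.1, rfl⟩
      (c1'.2 _ (Or.inr (Or.inl rfl)) _ (Or.inl rfl))
  · rintro D cD sD dD f hf i j1 j2 l1 l2 l3 ⟨y, hy, a⟩ ⟨y', hy', a'⟩ n1 n2 m1 m2
    have c1 := conn_insert (conn_insert cKU (Or.inl hy.1) a) (Or.inr (Or.inl hy'.1)) a'
    have nH : ∀ v, s.vx f ≠ Sum.inl v := fun v e => by
      obtain ⟨n, k⟩ := h.hr.1 hf.2
      rw [e] at k; cases k
    refine crossS _ _ s.M s.vx _ D f i j1 j2 hM hL c1 cD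
      (disjoint_insert_left.2 ⟨n2, disjoint_insert_left.2 ⟨n1, disjoint_union_left.2
        ⟨dD.symm, (offU D cD dD _ (fl_rot h hf j2) m2).symm⟩⟩⟩)
      ((sepS _ _ s.M s.vx s.H U0 hM hL hF.full).1 s.H _ subset_rfl
        fun z hz => Or.inr (Or.inr (Or.inr hz))).1 hf.1 ?_ (fun k => not_T h (Or.inl hf.2) (sD k))
      l1 l2 l3 (Or.inr (Or.inl ((fSkS s h).2.1 f hf).1))
      (Or.inl ((fSkS s h).2.1 _ (fl_rot h hf i)).1) m1 ?_
    · rintro (k | k | k | k)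
      exacts [nH _ k, nH _ k, hHK f hf k, hH f hf k]
    · obtain ⟨g, g1, g2⟩ := far_face h (fl_rot h hf j2)
      exact ⟨g, g1, g2 ▸ m2⟩

theorem br_empty : s.Br ∅ = ∅ := eq_empty_of_forall_notMem fun _ ⟨_, _, _, k, _⟩ => k

theorem br_union {E E' : Set MV} : s.Br (E ∪ E') ⊆ s.Br E ∪ s.Br E' := by
  rintro v ⟨h1, f, hf, h2 | h2, e⟩
  exacts [Or.inl ⟨fun k => h1 (Or.inl k), f, hf, h2, e⟩,
    Or.inr ⟨fun k => h1 (Or.inr k), f, hf, h2, e⟩]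

theorem po_fin (h : s.Ok) : s.Po.Finite :=
  (h.hm.ok.fin.image s.far).subset fun _ hv => let ⟨f, hf, e⟩ := po_fl h hv; ⟨f, hf.1, e⟩

variable {σ : AG} {t : Sh σ} {g : ℕ} {B : Fin g × Fin g → Set MV} {E X' E' : Set MV}

theorem dead_empty (hX : X ⊆ t.s.Nd) (xf : X.Finite) : t.Dead B X ∅ :=
  ⟨⟨hX, xf⟩, empty_subset _, fun _ k => k.1.elim, fun _ k => k.1.elim, fun _ k => k.elim,
    empty_disjoint _, fun _ _ _ k => k.elim⟩

theorem dead_union (mono : ∀ X X', X ⊆ X' → big t.s.G B t.s.T X' ⊆ big t.s.G B t.s.T X)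
    (d : t.Dead B X E) (d' : t.Dead B X' E') : t.Dead B (X ∪ X') (E ∪ E') := by
  refine ⟨⟨union_subset d.nd.1 d'.nd.1, d.nd.2.union d'.nd.2⟩, union_subset d.sub d'.sub,
    ?_, ?_, ?_, disjoint_union_left.2
      ⟨d.off.mono_right (mono _ _ (union_subset_union_left _ subset_union_left)),
      d'.off.mono_right (mono _ _ (union_subset_union_left _ subset_union_right))⟩, ?_⟩
  · rintro v ⟨k | k, hv⟩ x hx a
    exacts [Or.inl (d.cl v ⟨k, hv⟩ x hx a), Or.inr (d'.cl v ⟨k, hv⟩ x hx a)]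
  · rintro x ⟨k | k, hx⟩ v a
    · rcases d.nb x ⟨k, hx⟩ v a with (m | m) | ⟨w, ⟨m, f, hf, m1, m2⟩, rfl⟩
      · exact Or.inl (Or.inl (Or.inl m))
      · exact Or.inl (Or.inr (Or.inl m))
      · by_cases e : Sum.inl w ∈ E ∪ E'
        exacts [Or.inl (Or.inl e), Or.inr ⟨w, ⟨e, f, hf, Or.inl m1, m2⟩, rfl⟩]
    · rcases d'.nb x ⟨k, hx⟩ v a with (m | m) | ⟨w, ⟨m, f, hf, m1, m2⟩, rfl⟩
      · exact Or.inl (Or.inl (Or.inr m))
      · exact Or.inl (Or.inr (Or.inr m))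
      · by_cases e : Sum.inl w ∈ E ∪ E'
        exacts [Or.inl (Or.inl e), Or.inr ⟨w, ⟨e, f, hf, Or.inr m1, m2⟩, rfl⟩]
  · rintro z (k | k)
    · obtain ⟨v, hv, m, l⟩ := d.lnk z k
      exact ⟨v, hv, Or.inl m, l.mono subset_union_left⟩
    · obtain ⟨v, hv, m, l⟩ := d'.lnk z k
      exact ⟨v, hv, Or.inr m, l.mono subset_union_right⟩
  · rintro j i hi (k | k)
    exacts [(d.lk j i hi k).imp Or.inl Or.inl, (d'.lk j i hi k).imp Or.inr Or.inr]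

theorem pfx_union {j : t.ι} (d : t.Pfx E j) (d' : t.Pfx E' j) : t.Pfx (E ∪ E') j := by
  rintro i k i' h1 h2 h3 (m | m)
  exacts [(d i k i' h1 h2 h3 m).imp Or.inl Or.inl, (d' i k i' h1 h2 h3 m).imp Or.inr Or.inr]

/-- the gap of one dead position -/
theorem dead_one (ht : t.Ok) (c : Cx t.s X Y K) (xf : X.Finite)
    (hK : big t.s.G B t.s.T (X ∪ Sum.inl '' t.s.Po) ⊆ K) {q : W} (hq : q ∈ t.s.Po)
    (hd : ¬ t.s.Live K q) : ∃ E, t.Dead B X E ∧ Sum.inl q ∈ E ∧ (t.s.Br E).ncard ≤ 2 ∧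
      (∀ v ∈ t.s.Br E, t.s.Live K v) ∧
      ∀ j, (∀ i, 0 < i → i < t.m j → t.u j i ≠ q) → t.Pfx E j := by
  have h := c.ok
  obtain ⟨g0, hg, rfl⟩ := po_fl h hq
  have hφ : ∀ j i, t.φ j i ∈ t.s.M.fl t.s.vx t.s.H := fun j i => fl_rot h (ht.hole j) i
  have hb : ∀ x ∈ Ez t.s X K g0, x ∈ t.s.Ce → ∀ w ∈ t.s.Po, Sum.inl w ∉ Ez t.s X K g0 →
      t.s.G.Adj x (Sum.inl w) → w ∈ t.s.Br (Ez t.s X K g0) := fun x hx hc w hw n a =>
    border c hg hd hx hc hw (fun k => n (gp_ez k)) a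
  refine ⟨Ez t.s X K g0, ⟨⟨fun z hz => (c.hX hz).1, xf⟩, fun z hz => (ez_zn c hg hz).1, ?_, ?_, ?_,
    disjoint_left.2 fun z hz k => ez_off c hg hz (hK k), fun j i hi k => ?_⟩,
    gp_ez ⟨g0, Or.inl rfl, 0, rfl, fun k hk => ?_⟩, br_card c hg,
    fun v hv => let ⟨_, _, _, _, _, l⟩ := br_sub c hg hv; l, fun j hj i k i' h1 h2 h3 m => ?_⟩
  · rintro v ⟨hv, -⟩ x hx a
    obtain ⟨w, hw, l⟩ := id hv
    exact ⟨w, hw, l.trans (Link.single (ez_zn c hg hv) ⟨Or.inr hx, fun k => k.elim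
      (fun k => ce_nd hx (c.hX k).1) fun ⟨_, _, e⟩ => ce_ne hx e.symm⟩ a)⟩
  · rintro x ⟨hx, hc⟩ v a
    by_cases k : v ∈ Zn t.s X K g0
    · obtain ⟨w, hw, l⟩ := id hx
      exact Or.inl (Or.inl ⟨w, hw, l.trans (Link.single (ez_zn c hg hx) k a)⟩)
    · rcases not_not.1 (fun n => k ⟨Or.inl (node_of h hc a), n⟩) with m | ⟨w, m, rfl⟩
      exacts [Or.inl (Or.inr m), Or.inr ⟨w, border c hg hd hx hc m.1 m.2 a, rfl⟩]
  · rintro z ⟨v, hv, l⟩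
    exact ⟨v, gp_po h hg hv, gp_ez hv,
      (ev_conn.2 _ (Link.refl ..) z l).mono fun y hy => Exists.intro v ⟨hv, hy⟩⟩
  · by_contra n
    rw [not_or] at n
    have hc : t.lk j i ∈ t.s.Ce :=
      (ht.quad j i hi).2.resolve_left fun m => not_T h (Or.inr m) (ez_zn c hg k).1
    obtain ⟨a1, a2, -⟩ := ((fSkS _ h).2.1 _ (hφ j i)).2.2.2.2.2.2.2 (ht.quad j i hi).1
    have e : t.s.M.rot (t.φ j i) = t.φ j (i + 1) := (iterate_succ_apply' ..).symm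
    exact corner c hg (hφ j i) k (hb _ k hc _ (far_po h (hφ j i)) n.1 a1)
      (hb _ k hc _ (e ▸ far_po h (hφ j _)) (e ▸ n.2) a2)
  · obtain rfl : k = 0 := by omega
    exact hd
  · exact (ends c hg (ht.hole j) hj h1 h2 h3 (ez_gp c hg (far_po h (hφ j k)) m)).imp gp_ez gp_ez

end JD

open JD in
theorem supS (hT : TameS) (hB : BigS) : SupS := by
  rintro p x g B C X J v hG hJ hv hn ⟨y, ⟨hy, hc⟩, a⟩
  have h := x.h.ok.ok
  obtain ⟨n, hn'⟩ := hT p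
  obtain ⟨-, -, -, -, -, -, -, -, -, -, -, -, t1, t2, -⟩ := hn' x
  obtain ⟨-, b2, -⟩ := hB _ _ _ B _ x.t.s.T hG sdiff_subset
  set S : Set MV := ⋃ i ∈ J, x.t.seg C i with hS
  set P : Set MV := Sum.inl '' x.t.s.Po ∩ S with hP
  have hu : ∀ j i, x.t.u j i ∈ x.t.s.Po := fun j i => far_po h (fl_rot h (x.h.ok.hole j) i)
  have key : ∀ z ∈ S \ P, ∃ j, ∃ i < x.t.m j, z = x.t.lk j i ∧ Sum.inl (x.t.u j i) ∈ P ∧
      Sum.inl (x.t.u j (i + 1)) ∈ P := by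
    rintro z ⟨hz, hz'⟩
    obtain ⟨q, hq, hz1⟩ := mem_iUnion₂.1 hz
    rcases hJ hq with ⟨⟨j, a⟩, -, rfl⟩ | ⟨_, ⟨f, hf, rfl⟩, rfl⟩
    · obtain ⟨i, h1, h2, h3, rfl | ⟨h4, rfl⟩⟩ := hz1
      · exact (hz' ⟨⟨_, hu j i, rfl⟩, hz⟩).elim
      · obtain ⟨i, rfl⟩ : ∃ k, i = k + 1 := ⟨i - 1, by omega⟩
        exact ⟨j, i, h2, rfl, ⟨⟨_, hu j i, rfl⟩, mem_iUnion₂.2 ⟨_, hq, i, Nat.lt_succ_iff.1 h4,
          Nat.le_of_succ_le h2, fun k k1 k2 => h3 k k1 (by omega), Or.inl rfl⟩⟩,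
          ⟨⟨_, hu j _, rfl⟩, mem_iUnion₂.2 ⟨_, hq, i + 1, h1, h2, h3, Or.inl rfl⟩⟩⟩
    · exact (hz' ⟨⟨_, far_po h hf.1, (hz1 : z = _).symm⟩, hz⟩).elim
  have hv1 : Sum.inl v ∈ big x.t.s.G B x.t.s.T (X ∪ P) := (b2 _).2.2.1 y hy _
    ⟨Or.inl (nd_of h (SimpleGraph.Adj.symm a)), fun k => hv (k.imp id (·.2))⟩ a
  obtain ⟨i, j, d, w, hw, l⟩ := hv1
  have off : ∀ z ∈ Cross B i j, z ∉ S \ P := fun z hz k => by
    obtain ⟨j', i', hi, rfl, -⟩ := key z k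
    exact (cross_sub hG i j hz).2 (t1 j' i' hi).2.2.2.2.2.2.1
  have e : (x.t.s.T \ (X ∪ P)) \ (S \ P) ⊆ x.t.s.T \ (X ∪ S) := fun z hz =>
    ⟨hz.1.1, fun k => k.elim (fun k => hz.1.2 (Or.inl k)) fun k =>
      hz.2 ⟨k, fun k' => hz.1.2 (Or.inr k')⟩⟩
  refine hn ⟨i, j, disjoint_left.2 fun z hz k => ?_, w, hw, ?_⟩
  · exact k.elim (fun k => disjoint_left.1 d hz (Or.inl k)) fun k =>
      off z hz ⟨k, fun k' => disjoint_left.1 d hz (Or.inr k')⟩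
  · refine ((avoid (L := (S \ P) ∩ x.t.s.T) ?_ (fun k => off w hw k.1) l).resolve_right
      fun ⟨_, _, k, _⟩ => hv (Or.inr k.1.1)).2.mono fun z hz => e ⟨hz.1, fun k => hz.2 ⟨k, hz.1.1⟩⟩
    rintro l ⟨hl, hl'⟩ c hc d hd a1 a2
    obtain ⟨j', i', hi, rfl, p1, p2⟩ := key l hl
    have ce : ∀ z ∈ S \ P, z ∈ x.t.s.T → z ∈ x.t.s.Ce := fun z hz k => by
      obtain ⟨j', i', hi, rfl, -⟩ := key z hz
      exact (x.h.ok.quad j' i' hi).2.resolve_left fun k' => not_T h (Or.inr k') k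
    have hce := ce _ hl hl'
    have n1 := node_of h hce a1
    obtain ⟨-, c, rfl⟩ := node_of h hce a1
    obtain ⟨-, d, rfl⟩ := node_of h hce a2
    refine ⟨congrArg _ (three h hce (t1 j' i' hi).2.2.2.2.1 (t1 j' i' hi).2.2.2.2.2.1 a1 a2
      (fun e => by have := t2 j' i' hi.le (i' + 1) hi e; omega) ?_ ?_ ?_ ?_),
      fun k => ce_nd (ce _ k.1 k.2) n1⟩
    exacts [fun e => hc.2 (Or.inr (e ▸ p1)), fun e => hc.2 (Or.inr (e ▸ p2)),
      fun e => hd.2 (Or.inr (e ▸ p1)), fun e => hd.2 (Or.inr (e ▸ p2))]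

open JD in
theorem deadS (hT : TameS) (hB : BigS) (hP : PosS) : DeadS := by
  intro p x g R B hG hF hR
  have h := x.h.ok.ok
  obtain ⟨n, hn⟩ := hT p
  obtain ⟨-, -, -, -, -, -, -, -, -, -, -, -, -, -, -, t1, -⟩ := hn x
  obtain ⟨mono, -⟩ := hB _ _ _ B _ x.t.s.T hG sdiff_subset
  refine ⟨⟨dead_empty (empty_subset _) finite_empty, fun X E X' E' d d' =>
    ⟨dead_union mono d d', br_union, fun j => pfx_union⟩⟩, fun X Y Q hX xf xR xg hY hQ hd => ?_⟩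
  have c := cx hB hP h x.h.ok.spoke hG hF hR t1 hX xf xR xg hY
  have hK := mono _ _ (union_subset_union_right X hY)
  have qf := (po_fin h).subset hQ
  induction Q, qf using Set.Finite.induction_on with
  | empty => exact ⟨∅, dead_empty (fun z hz => (hX hz).1) xf, by simp, by simp [br_empty],
      by simp [br_empty], fun j _ i k i' _ _ _ m => m.elim⟩
  | @insert q Q hq qf ih =>
    obtain ⟨E, d, e1, e2, e3, e4⟩ := dead_one x.h.ok c xf hK (hQ (Or.inl rfl)) (hd q (Or.inl rfl))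
    obtain ⟨E', d', e1', e2', e3', e4'⟩ :=
      ih (fun v hv => hQ (Or.inr hv)) fun v hv => hd v (Or.inr hv)
    have fin : ∀ E, (x.t.s.Br E).Finite := fun E => (h.hm.ok.fin.image fun f =>
      x.t.s.far (x.t.s.M.rot f)).subset fun v hv => by
        obtain ⟨-, f, hf, -, e⟩ := hv
        exact ⟨f, hf.1, e⟩
    have du := dead_union mono d d'
    rw [union_self] at du
    refine ⟨E ∪ E', du, ?_, ?_,
      fun v hv => (br_union hv).elim (e3 v) (e3' v), fun j hj => pfx_union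
        (e4 j fun i h1 h2 e => hj i h1 h2 (Or.inl e)) (e4' j fun i h1 h2 e => hj i h1 h2 (Or.inr e))⟩
    · rintro _ ⟨v, rfl | hv, rfl⟩
      exacts [Or.inl e1, Or.inr (e1' ⟨v, hv, rfl⟩)]
    · have := (ncard_le_ncard (br_union (E := E) (E' := E')) ((fin _).union (fin _))).trans
        (ncard_union_le _ _)
      rw [ncard_insert_of_notMem hq qf]
      omega

end Pool.Agent.MP_9d78a0_co.gm
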