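import Pool.Agent.MP_9d78a0_co.gm.SpecJ
import Pool.Agent.MP_9d78a0_co.fb.StepB
import Pool.Agent.MP_9d78a0_co.gm.FCore
import Pool.Agent.MP_9d78a0_co.gm.BGrid
import Mathlib.Data.Set.Finite.List
import Pool.Agent.MP_9d78a0_co.gm.FNam
import Pool.Agent.MP_9d78a0_co.gm.SpecM
import Pool.Agent.MP_9d78a0_co.gm.COp2
import Mathlib.Data.Set.Card.Arithmetic
import Mathlib.Order.Interval.Set.Nat
import Pool.Agent.MP_9d78a0_co.gm.FCell

-- ======== part 0: formerly Pool.Agent.MP_9d78a0_co.gm.BSel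
section MrgPart0

/-! Tangles: centres whose cuts match. -/

set_option autoImplicit false

namespace Pool.Agent.MP_9d78a0_co.gm

open Set Function

namespace Sel

variable {ε : Type} [Finite ε] {f : Set ε → ℕ} {θ : ℕ}

/-- all distinctions -/
def LL (f : Set ε → ℕ) (θ : ℕ) (e : ε) : Set (Set ε) :=
  {D | ∃ s t : Tangle f θ, IsDist e s t D}

/-- the tangles for which all members of `F` are small -/
def KK (f : Set ε → ℕ) (θ : ℕ) (F : Set (Set ε)) : Set (Tangle f θ) := {t | ∀ D ∈ F, D ∈ t.sm}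

/-- `n` is big on `E` and small on all distinctions strictly inside `E` -/
def Node (e : ε) (E : Set ε) (n : Tangle f θ) : Prop :=
  Eᶜ ∈ n.sm ∧ ∀ D ∈ LL f θ e, D ⊆ E → D ≠ E → D ∈ n.sm

variable {e : ε} {D E : Set ε} {F : Set (Set ε)} {N : Tangle f θ → Set (Tangle f θ)}

theorem ll_ord (h : D ∈ LL f θ e) : f D < θ := let ⟨_, _, k⟩ := h; k.ord

theorem ll_compl (hf : Sym f) (h : D ∈ LL f θ e) : Dᶜ ∈ LL f θ e :=
  let ⟨s, t, k⟩ := h; ⟨t, s, k.symm hf⟩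

theorem ll_big (h : D ∈ LL f θ e) {t : Tangle f θ} (k : D ∉ t.sm) : Dᶜ ∈ t.sm :=
  (t.tot D (ll_ord h)).resolve_left k

theorem ll_nested (hf : Sym f) (h : D ∈ LL f θ e) (h' : E ∈ LL f θ e) {P Q : Tangle f θ}
    (a : D ∈ P.sm) (a' : E ∈ P.sm) (b : Dᶜ ∈ Q.sm) (b' : Eᶜ ∈ Q.sm) : D ⊆ E ∨ E ⊆ D :=
  let ⟨_, _, k⟩ := h; let ⟨_, _, k'⟩ := h'; k.nested hf k' a a' b b'

theorem cut_ll {T : Tangle f θ} {M : Set (Tangle f θ)} : Cut e T M ⊆ LL f θ e := fun _ h =>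
  let ⟨t, _, k⟩ := cut_dist h; ⟨T, t, k⟩

theorem exists_node (hf : Sym f) (hE : E ∈ LL f θ e) : ∃ n : Tangle f θ, Node e E n := by
  by_contra hc
  have hc' : ∀ n : Tangle f θ, Eᶜ ∈ n.sm → ∃ D ∈ LL f θ e, D ⊆ E ∧ D ≠ E ∧ D ∉ n.sm := by
    intro n hn
    by_contra c
    refine hc ⟨n, hn, fun D a b d => ?_⟩
    by_contra g
    exact c ⟨D, a, b, d, g⟩
  set I : Set (Set ε) := {D | D ∈ LL f θ e ∧ D ⊆ E ∧ D ≠ E} with hI
  set St : Set (Set ε) := insert Eᶜ {D | Maximal (· ∈ I) D} with hSt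
  have hne : E ≠ univ := by
    obtain ⟨s, _, k⟩ := hE
    rintro rfl
    exact s.univ_not k.1
  have h1 : ∀ X ∈ St, X ∈ LL f θ e := by
    rintro X (rfl | k)
    exacts [ll_compl hf hE, k.1.1]
  have h2 : ∀ X ∈ St, ∀ Y ∈ St, X ≠ Y → Disjoint X Y ∧ Yᶜ ≠ X := by
    rintro X (rfl | k) Y (rfl | l) n
    · exact absurd rfl n
    · exact ⟨disjoint_compl_left.mono_right l.1.2.1, fun c => l.1.2.2 (compl_injective c)⟩
    · exact ⟨disjoint_compl_right.mono_left k.1.2.1,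
        fun c => k.1.2.2 (c.symm.trans (compl_compl E))⟩
    · have hu : X ∪ Y ≠ univ := fun c =>
        hne (univ_subset_iff.1 (c ▸ union_subset k.1.2.1 l.1.2.1))
      refine ⟨?_, fun c => hu (by rw [← c, compl_union_self])⟩
      obtain ⟨_, _, a⟩ := k.1.1
      obtain ⟨_, _, b⟩ := l.1.1
      rcases a.laminar hf b with d | d | d | d
      exacts [absurd (subset_antisymm d (k.2 l.1 d)) n, absurd (subset_antisymm (l.2 k.1 d) d) n,
        d, absurd d hu]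
  have h3 : ∀ n : Tangle f θ, ∃ X ∈ St, Xᶜ ∈ n.sm := by
    intro n
    by_cases c : E ∈ n.sm
    · exact ⟨Eᶜ, Or.inl rfl, by rwa [compl_compl]⟩
    · obtain ⟨D, a, b, d, g⟩ := hc' n (ll_big hE c)
      obtain ⟨X, k, l⟩ := (toFinite I).exists_le_maximal (a := D) ⟨a, b, d⟩
      exact ⟨X, Or.inr l, n.sup_big hf (ll_big a g) k (ll_ord l.1.1)⟩
  obtain ⟨X, hX, hm⟩ := exists_lam_max (f := f) (e := e) (A := St) ⟨Eᶜ, Or.inl rfl⟩
  obtain ⟨s, t, k⟩ := h1 X hX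
  obtain ⟨Y, hY, hs⟩ := h3 s
  have hn : X ≠ Y := by
    rintro rfl
    exact s.not_both k.1 hs
  obtain ⟨d1, d2⟩ := h2 X hX Y hY hn
  have ht : Y ∈ t.sm := by
    by_contra c
    exact (t.big_meet k.2.1 (ll_big (h1 Y hY) c)).ne_empty d1.inter_eq
  exact d2 (k.eq_of hs (by rwa [compl_compl]) ((LamLe.compl_left hf).2 (hm Y hY)))

theorem convex (hf : Sym f) (hF : F ⊆ LL f θ e) (hE : E ∈ LL f θ e) {a b n : Tangle f θ}
    (ha : a ∈ KK f θ F) (hb : b ∈ KK f θ F) (ha' : E ∈ a.sm) (hb' : Eᶜ ∈ b.sm)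
    (hn : Node e E n) : n ∈ KK f θ F := by
  intro D hD
  by_contra c
  have k : E ⊆ D := by
    rcases ll_nested hf (hF hD) hE (ha D hD) ha' (ll_big (hF hD) c) hn.1 with l | l
    · by_contra g
      exact c (hn.2 D (hF hD) l fun m => g m.ge)
    · exact l
  exact b.not_both (hb D hD) (b.sup_big hf hb' k (ll_ord (hF hD)))

/-- the territory of a tangle -/
def SS (e : ε) (N : Tangle f θ → Set (Tangle f θ)) (t : Tangle f θ) : Set (Tangle f θ) :=
  KK f θ (Cut e t (N t))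

theorem self_mem (t : Tangle f θ) : t ∈ SS e N t := fun _ h => cut_small h

/-- the territories of the members of `R` partition `X` -/
def Part (e : ε) (N : Tangle f θ → Set (Tangle f θ)) (X R : Set (Tangle f θ)) : Prop :=
  R ⊆ X ∧ ∀ s ∈ X, (∃ t ∈ R, s ∈ SS e N t) ∧
    ∀ t ∈ R, ∀ t' ∈ R, s ∈ SS e N t → s ∈ SS e N t' → t = t'

omit [Finite ε] in
theorem mem_ins {t : Tangle f θ} : t ∈ KK f θ (insert E F) ↔ E ∈ t.sm ∧ t ∈ KK f θ F :=
  forall_mem_insert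

/-- `E` is least among the distinctions inside `KK F` -/
def Least (f : Set ε → ℕ) (θ : ℕ) (e : ε) (F : Set (Set ε)) (E : Set ε) : Prop :=
  E ∈ LL f θ e ∧ ∀ s ∈ KK f θ F, ∀ t ∈ KK f θ F, ∀ D, IsDist e s t D → LamLe f e E D

theorem Least.compl (hf : Sym f) (h : Least f θ e F E) : Least f θ e F Eᶜ :=
  ⟨ll_compl hf h.1, fun s a t b D k => (LamLe.compl_left hf).2 (h.2 s a t b D k)⟩

theorem all_or_none (hf : Sym f) (h : Least f θ e F E) {t b1 b2 : Tangle f θ}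
    (ht : t ∈ KK f θ (insert E F)) (h1 : b1 ∈ KK f θ (insert Eᶜ F))
    (h2 : b2 ∈ KK f θ (insert Eᶜ F)) (k : b2 ∈ SS e N t) : b1 ∈ SS e N t := by
  intro D hD
  by_contra c
  rw [mem_ins] at ht h1 h2
  have hb := ll_big (cut_ll hD) c
  obtain ⟨t', -, d⟩ := cut_dist hD
  obtain ⟨D1, d1⟩ := exists_dist_of (e := e) ht.1 h1.1
  have l : LamLe f e E D := (h.2 t ht.2 b1 h1.2 D1 d1).trans (d1.2.2 D d.1 hb)
  have m : E ⊆ D := by
    rcases ll_nested hf (cut_ll hD) h.1 d.1 ht.1 hb h1.1 with g | g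
    · exact (d.eq_of ht.1 (t'.sup_big hf d.2.1 g (ll_ord h.1)) l).le
    · exact g
  exact b2.not_both (k D hD) (b2.sup_big hf h2.1 m d.ord)

theorem sides (h : Least f θ e F E) {s : Tangle f θ} (hs : s ∈ KK f θ F) :
    s ∈ KK f θ (insert E F) ∨ s ∈ KK f θ (insert Eᶜ F) :=
  (s.tot E (ll_ord h.1)).imp (fun k => mem_ins.2 ⟨k, hs⟩) fun k => mem_ins.2 ⟨k, hs⟩

theorem half (hf : Sym f) (hF : F ⊆ LL f θ e) (h : Least f θ e F E) {R : Set (Tangle f θ)}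
    (hR : Part e N (KK f θ (insert E F)) R) {t b : Tangle f θ} (ht : t ∈ R)
    (hb : b ∈ KK f θ (insert Eᶜ F)) (k : b ∈ SS e N t) : Part e N (KK f θ F) R := by
  refine ⟨fun x a => (mem_ins.1 (hR.1 a)).2, fun s hs => ?_⟩
  rcases sides h hs with c | c
  · exact hR.2 s c
  refine ⟨⟨t, ht, all_or_none hf h (hR.1 ht) c hb k⟩, fun t1 a1 t2 a2 b1 b2 => ?_⟩
  obtain ⟨n, hn⟩ := exists_node hf (ll_compl hf h.1)
  have e1 : ∀ x ∈ R, Eᶜᶜ ∈ x.sm := fun x a => by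
    rw [compl_compl]
    exact (mem_ins.1 (hR.1 a)).1
  have c1 := (mem_ins.1 c).1
  have n0 : n ∈ KK f θ (insert E F) := mem_ins.2 ⟨compl_compl E ▸ hn.1,
    convex hf hF (ll_compl hf h.1) hs (mem_ins.1 (hR.1 a1)).2 c1 (e1 t1 a1) hn⟩
  exact (hR.2 n n0).2 t1 a1 t2 a2
    (convex hf cut_ll (ll_compl hf h.1) b1 (self_mem t1) c1 (e1 t1 a1) hn)
    (convex hf cut_ll (ll_compl hf h.1) b2 (self_mem t2) c1 (e1 t2 a2) hn)

theorem partition (hf : Sym f) (m : ℕ) : ∀ F : Set (Set ε), F ⊆ LL f θ e →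
    (KK f θ F).ncard ≤ m → ∃ R, Part e N (KK f θ F) R := by
  have : Finite (Tangle f θ) := Finite.of_injective Tangle.sm fun _ _ k => Tangle.ext k
  induction m with
  | zero =>
    intro F _ h
    have h0 : KK f θ F = ∅ := (ncard_eq_zero (toFinite _)).1 (Nat.le_zero.1 h)
    rw [h0]
    exact ⟨∅, Subset.rfl, fun _ k => k.elim⟩
  | succ m ih =>
    intro F hF h
    by_cases c : (KK f θ F).Subsingleton
    · exact ⟨KK f θ F, Subset.rfl, fun s hs => ⟨⟨s, hs, self_mem s⟩, fun t a t' b _ _ => c a b⟩⟩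
    obtain ⟨a0, ha0, b0, hb0, n0⟩ := not_subsingleton_iff.1 c
    obtain ⟨D0, d0⟩ := exists_dist (e := e) n0
    obtain ⟨E, ⟨a, ha, b, hb, d⟩, hm⟩ := exists_lam_min (f := f) (e := e)
      (A := {D | ∃ s ∈ KK f θ F, ∃ t ∈ KK f θ F, IsDist e s t D}) ⟨D0, a0, ha0, b0, hb0, d0⟩
    have hE : Least f θ e F E := ⟨⟨a, b, d⟩, fun s k t l D g => hm D ⟨s, k, t, l, g⟩⟩
    have hlt : ∀ (X : Set ε) (x : Tangle f θ), x ∈ KK f θ F → X ∉ x.sm →
        (KK f θ (insert X F)).ncard ≤ m := by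
      intro X x k l
      have := ncard_lt_ncard (s := KK f θ (insert X F)) (t := KK f θ F)
        ⟨fun y g => (mem_ins.1 g).2, fun g => l (mem_ins.1 (g k)).1⟩ (toFinite _)
      omega
    obtain ⟨RA, hA⟩ := ih (insert E F) (insert_subset hE.1 hF)
      (hlt E b hb fun k => b.not_both k d.2.1)
    obtain ⟨RB, hB⟩ := ih (insert Eᶜ F) (insert_subset (hE.compl hf).1 hF)
      (hlt Eᶜ a ha (a.not_both d.1))
    by_cases c1 : ∃ t ∈ RA, ∃ x ∈ KK f θ (insert Eᶜ F), x ∈ SS e N t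
    · obtain ⟨t, k, x, l, g⟩ := c1
      exact ⟨RA, half hf hF hE hA k l g⟩
    by_cases c2 : ∃ t ∈ RB, ∃ x ∈ KK f θ (insert E F), x ∈ SS e N t
    · obtain ⟨t, k, x, l, g⟩ := c2
      exact ⟨RB, half hf hF (hE.compl hf) hB k (by rwa [compl_compl]) g⟩
    refine ⟨RA ∪ RB, union_subset (fun x k => (mem_ins.1 (hA.1 k)).2)
      fun x k => (mem_ins.1 (hB.1 k)).2, fun s hs => ?_⟩
    rcases sides hE hs with g | g
    · obtain ⟨⟨t, k, l⟩, u⟩ := hA.2 s g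
      exact ⟨⟨t, Or.inl k, l⟩, fun t1 a1 t2 a2 b1 b2 =>
        u t1 (a1.resolve_right fun z => c2 ⟨t1, z, s, g, b1⟩) t2
          (a2.resolve_right fun z => c2 ⟨t2, z, s, g, b2⟩) b1 b2⟩
    · obtain ⟨⟨t, k, l⟩, u⟩ := hB.2 s g
      exact ⟨⟨t, Or.inr k, l⟩, fun t1 a1 t2 a2 b1 b2 =>
        u t1 (a1.resolve_left fun z => c1 ⟨t1, z, s, g, b1⟩) t2
          (a2.resolve_left fun z => c1 ⟨t2, z, s, g, b2⟩) b1 b2⟩

end Sel

open Sel

theorem selS : SelS := by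
  intro ε _ f θ e N hf ⟨s0⟩
  obtain ⟨R, -, hR⟩ := partition (e := e) (N := N) hf _ ∅ (empty_subset _) le_rfl
  have hR' := fun s : Tangle f θ => hR s fun _ k => k.elim
  refine ⟨R, let ⟨t, k, _⟩ := (hR' s0).1; ⟨t, k⟩, fun t ht D hD => ?_⟩
  have hL : D ∈ LL f θ e := cut_ll hD
  obtain ⟨n1, hn1⟩ := exists_node hf hL
  obtain ⟨n2, hn2⟩ := exists_node hf (ll_compl hf hL)
  obtain ⟨t', ht', o1⟩ := (hR' n1).1
  have s2 : n2 ∈ SS e N t := by
    intro C hC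
    by_cases c : C = D
    · rw [c, ← compl_compl D]
      exact hn2.1
    · refine hn2.2 C (cut_ll hC) (subset_compl_iff_disjoint_right.2 (cut_disj hf hC hD c)) ?_
      rintro rfl
      exact t.not_both (cut_small hD) (cut_small hC)
  have s3 : n2 ∉ SS e N t' := fun k => by
    have := (hR' n2).2 t ht t' ht' s2 k
    subst this
    exact n1.not_both (o1 D hD) hn1.1
  have b1 : Dᶜ ∈ t'.sm := ll_big hL fun k =>
    s3 (convex hf cut_ll (ll_compl hf hL) o1 (self_mem t') hn1.1 (by rwa [compl_compl]) hn2)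
  have c1 : Dᶜ ∈ Cut e t' (N t') := by
    by_contra c
    refine s3 fun C hC => ?_
    by_contra g
    have hne : C ≠ Dᶜ := fun z => c (z ▸ hC)
    rcases ll_nested hf (cut_ll hC) (ll_compl hf hL) (cut_small hC) b1 (ll_big (cut_ll hC) g)
      hn2.1 with l | l
    · exact g (hn2.2 C (cut_ll hC) l hne)
    · exact n1.not_both (o1 C hC) (hn1.2 Cᶜ (ll_compl hf (cut_ll hC)) (compl_subset_comm.1 l)
        fun z => hne (by rw [← z, compl_compl]))
  refine ⟨t', ht', ?_, c1⟩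
  obtain ⟨D1, d1⟩ := exists_dist_of (e := e) (cut_small hD) b1
  have lm : LamLe f e D1 D := d1.2.2 D (cut_small hD) b1
  obtain ⟨t1, -, e1⟩ := cut_dist hD
  obtain ⟨t2, -, e2⟩ := cut_dist c1
  have : D1 = D := by
    rcases e1.nested hf d1 e1.1 d1.1 b1 d1.2.1 with l | l
    · exact e1.eq_of d1.1 (t1.sup_big hf e1.2.1 l d1.ord) lm
    · exact compl_injective (e2.eq_of d1.2.1
        (t2.sup_big hf e2.2.1 (compl_subset_compl.2 l) (d1.symm hf).ord)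
        ((LamLe.compl_left hf).2 ((LamLe.compl_right hf).2 lm)))
  exact this ▸ d1

end Pool.Agent.MP_9d78a0_co.gm

end MrgPart0

-- ======== part 1: formerly Pool.Agent.MP_9d78a0_co.gm.BTl
section MrgPart1

/-! The tangle lemma. -/

set_option autoImplicit false

namespace Pool.Agent.MP_9d78a0_co.gm

open Set Function Relation

theorem cut_ssub {ε : Type} [Finite ε] {f : Set ε → ℕ} {θ : ℕ} {e : ε} {T : Tangle f θ}
    {N : Set (Tangle f θ)} {C : Set ε} (hf : Sym f) (h : C ∈ Cut e T N) (h0 : e ∉ C) :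
    C ⊂ (Out e T N)ᶜ := by
  refine ⟨(out_disj hf h h0).subset_compl_right, fun k => ?_⟩
  rcases out_cases (e := e) (T := T) (N := N) hf with ⟨a, -⟩ | ⟨a, -⟩
  · rw [a, compl_empty, univ_subset_iff] at k
    exact T.univ_not (k ▸ cut_small h)
  · exact T.small_miss (cut_small a) (cut_small h) (compl_subset_iff_union.1 k)

theorem tlS (hL : LinkS) (hO : OrdS) : TlS := by
  intro θ σ e N hR hne hH
  choose Z hZ0 hZ using fun n => selS _ (σ n).f θ (e n) (N n) (σ n).sym (hne n)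
  let α := Σ n, Tangle (σ n).f θ
  let P : ∀ a : α, Set (σ a.1).ε := fun a => (Out (e a.1) a.2 (N a.1 a.2))ᶜ
  let lb : α → Pc × Set W := fun a => ((σ a.1).un (P a), (σ a.1).bd (P a))
  let r : α → α → Prop := fun a b => ULe (lb a).1 (lb a).2 (lb b).1 (lb b).2
  let ch : α → α → Prop := fun b a => ∃ T' : Tangle (σ a.1).f θ, b = ⟨a.1, T'⟩ ∧ T' ∈ Z a.1 ∧
    P ⟨a.1, T'⟩ ∈ Cut (e a.1) a.2 (N a.1 a.2) ∧ e a.1 ∉ P ⟨a.1, T'⟩ ∧
      IsDist (e a.1) a.2 T' (P ⟨a.1, T'⟩)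
  have kid : ∀ a : α, a.2 ∈ Z a.1 → ∀ C ∈ Cut (e a.1) a.2 (N a.1 a.2), e a.1 ∉ C →
      ∃ T', ch ⟨a.1, T'⟩ a ∧ P ⟨a.1, T'⟩ = C := by
    intro a ha C hC h0
    obtain ⟨T', h1, h2, h3⟩ := hZ _ _ ha C hC
    have k : P ⟨a.1, T'⟩ = C :=
      (congrArg compl (out_eq (σ a.1).sym h3 (show e a.1 ∈ Cᶜ from h0))).trans (compl_compl C)
    exact ⟨T', ⟨T', rfl, h1, k ▸ hC, k ▸ h0, k ▸ h2⟩, k⟩
  have key := pl.forest (r := r) (ch := ch) (lab := fun a => (σ a.1).f (P a))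
    (size := fun a => (P a).ncard) (S := {a | a.2 ∈ Z a.1}) (K := θ) (fun _ _ _ => ULe.trans)
    (fun a _ => ?_) (by rintro _ a - ⟨T', rfl, k, -⟩; exact k) (by
      rintro _ a ⟨T', rfl, -, k1, k2, -⟩
      exact ncard_lt_ncard (cut_ssub (σ a.1).sym k1 k2)) ?_ ?_
  · have root : ∀ n, ∃ T ∈ Z n, P ⟨n, T⟩ = univ := by
      intro n
      obtain ⟨T, h1, h2⟩ : ∃ T ∈ Z n, ∀ T' ∈ Z n, (P ⟨n, T'⟩).ncard ≤ (P ⟨n, T⟩).ncard := by
        obtain ⟨s, ⟨T, h1, rfl⟩, h2⟩ := exists_max_image (α := Set (σ n).ε)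
          ((fun T => P ⟨n, T⟩) '' Z n) Set.ncard (toFinite _) ((hZ0 n).image _)
        exact ⟨T, h1, fun T' k => h2 _ ⟨T', k, rfl⟩⟩
      refine ⟨T, h1, ?_⟩
      rcases out_cases (e := e n) (T := T) (N := N n T) (σ n).sym with ⟨a, -⟩ | ⟨a, b⟩
      · exact (congrArg compl a).trans compl_empty
      · obtain ⟨T', c1, -, c2⟩ := hZ n T h1 _ a
        exact absurd (ncard_lt_ncard (cut_ssub (σ n).sym c2 fun k => k b)) (not_lt.2 (h2 T' c1))
    choose T h1 h2 using root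
    obtain ⟨m, n, h3, ρ, ρ', a, b, c⟩ := key.exists_lt (f := fun n => ⟨n, T n⟩) h1
    have z : ∀ n (l : List W), Enum l (lb ⟨n, T n⟩).2 → l = [] := fun n l k => by
      have : (lb ⟨n, T n⟩).2 = ∅ := by
        change (σ n).bd (P ⟨n, T n⟩) = ∅
        rw [h2]
        simp [AG.bd, hbd]
      exact List.eq_nil_iff_forall_not_mem.2 fun v hv => (this ▸ k.2 ▸ hv : v ∈ (∅ : Set W))
    have y : ∀ n, (lb ⟨n, T n⟩).1 = (σ n).un univ := fun n => congrArg (σ n).un (h2 n)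
    rw [z _ _ a, z _ _ b, y, y] at c
    exact ⟨m, n, h3, c⟩
  · change (σ a.1).f (Out _ _ _)ᶜ ≤ θ
    rw [(σ a.1).sym.cpl]
    rcases out_cases (e := e a.1) (T := a.2) (N := N a.1 a.2) (σ a.1).sym with ⟨k, -⟩ | ⟨k, -⟩
    · rw [k, (σ a.1).sym.emp]
      exact Nat.zero_le _
    · exact (a.2.ord _ (cut_small k)).le
  · intro k b a ha hd hb hk
    have : ∃ T' : Tangle (σ a.1).f θ, b = ⟨a.1, T'⟩ ∧ P ⟨a.1, T'⟩ ⊆ P a ∧ k < θ ∧
        ∀ U, P ⟨a.1, T'⟩ ⊆ U → (σ a.1).f U < k → Uᶜ ∈ a.2.sm := by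
      clear hb hk ha
      induction hd with
      | single hd =>
        obtain ⟨⟨T', rfl, -, c1, c2, c3⟩, c4, -⟩ := hd
        have o := c4.trans_lt c3.ord
        refine ⟨T', rfl, (cut_ssub (AG.sym _) c1 c2).1, o, fun U d1 d2 => ?_⟩
        refine (Tangle.tot _ U (d2.trans o)).resolve_left fun d3 => ?_
        exact absurd (c4.trans (c3.fmin d3 (T'.sup_big (AG.sym _) c3.2.1 d1 (d2.trans o))))
          (not_le.2 d2)
      | tail _ hd ih =>
        obtain ⟨⟨T', rfl, -, c1, c2, c3⟩, c4, -⟩ := hd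
        obtain ⟨T'', rfl, b1, o, b2⟩ := ih
        refine ⟨T'', rfl, b1.trans (cut_ssub (AG.sym _) c1 c2).1, o, fun U d1 d2 => ?_⟩
        refine (Tangle.tot _ U (d2.trans o)).resolve_left fun d3 => ?_
        exact absurd (c4.trans (c3.fmin d3 (b2 U d1 d2))) (not_le.2 d2)
    obtain ⟨T', rfl, c1, o, c2⟩ := this
    refine hL _ _ _ (hR _) c1 (fun U d1 d2 => ?_) (hb.trans hk.symm)
    by_contra d3
    have d4 : (σ a.1).f U < k := hb ▸ not_le.1 d3
    have d5 : (σ a.1).f (Out (e a.1) a.2 (N a.1 a.2)) = k := ((σ a.1).sym.cpl _).symm.trans hk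
    rcases out_cases (e := e a.1) (T := a.2) (N := N a.1 a.2) (σ a.1).sym with ⟨l, -⟩ | ⟨l, -⟩
    · rw [l, (σ a.1).sym.emp] at d5
      omega
    · obtain ⟨T'', -, l1, -⟩ := hZ _ _ ha _ l
      have := l1.fmin (c2 U d1 d4) (by
        rw [compl_compl]
        exact T''.sub_small l1.2.1 d2 (d4.trans o))
      rw [(σ a.1).sym.cpl] at this
      omega
  · intro g hg hp
    have a1 := hO (lb '' {b | ∃ n, ch b (g n)}) θ (by
      rintro _ ⟨_, ⟨n, T', rfl, -, -, -, k⟩, rfl⟩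
      exact ⟨hbd_fin (σ _).inc_fin _, k.ord.le⟩) (hp.image_of_monotone_on fun _ _ _ _ k => k)
    obtain ⟨i, j, h1, h2⟩ := hH _ a1 (fun i => (g i).1) (fun i => (g i).2) fun i C hC h0 => by
      obtain ⟨T', b1, rfl⟩ := kid (g i) (hg i) C hC h0
      obtain ⟨ρ, hρ⟩ := Enum.exists (hbd_fin (σ (g i).1).inc_fin (P ⟨(g i).1, T'⟩))
      exact Or.inr ⟨ρ, hρ, _, ⟨_, ⟨_, ⟨i, b1⟩, rfl⟩, rfl, hρ⟩, Le.refl _, Le.refl _⟩
    refine ⟨i, j, h1, ?_⟩
    have z : ∀ a : α, (lb a).2 = (σ a.1).bd (Out (e a.1) a.2 (N a.1 a.2)) := fun a => hbd_compl _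
    change ULe _ (lb (g i)).2 _ (lb (g j)).2
    rw [z, z]
    exact h2

end Pool.Agent.MP_9d78a0_co.gm

end MrgPart1

-- ======== part 2: formerly Pool.Agent.MP_9d78a0_co.gm.BCtrl
section MrgPart2

/-! Block B: the big bridge of a distinction; a tangle of large order controls a grid. -/

set_option autoImplicit false

namespace Pool.Agent.MP_9d78a0_co.gm

open Set Function

namespace BCtrl

variable {ε ν : Type} {inc : ε → Set ν}

theorem ig_adj {v : ν} {a : ε} (h : v ∈ inc a) : (ig inc).Adj (Sum.inl v) (Sum.inr a) :=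
  ⟨v, a, h, Or.inl ⟨rfl, rfl⟩⟩

/-- an inner vertex lies in edges of the set only -/
theorem inner {P : Set ε} {v : ν} {a : ε} (h : v ∈ hv inc P \ hbd inc P) (k : v ∈ inc a) : a ∈ P :=
  not_not.1 fun c => h.2 ⟨h.1, a, c, k⟩

/-- the skeleton over the parts -/
def sk (inc : ε → Set ν) (M : Set (Set ε)) (P : parts M) :
    Set {v : ν // ∃ Q : parts M, v ∈ hbd inc Q.1} := {v | v.1 ∈ hbd inc P.1}

theorem sk_bd {M : Set (Set ε)} (hd : M.PairwiseDisjoint id) (Y : Set (parts M)) :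
    hf (sk inc M) Y = hf inc (up Y) := by
  rw [hf, hf, ← ncard_image_of_injective _ Subtype.val_injective]
  congr 1
  ext v
  constructor
  · rintro ⟨w, ⟨⟨P, hP, ⟨a, ha, k⟩, -⟩, Q, hQ, ⟨b, hb, l⟩, -⟩, rfl⟩
    exact ⟨⟨a, ⟨P, hP, ha⟩, k⟩, b, fun ⟨R, hR, m⟩ => hQ (part_eq hd m hb ▸ hR), l⟩
  · rintro ⟨⟨a, ⟨P, hP, ha⟩, k⟩, b, hb, l⟩
    obtain ⟨Q, hQ⟩ := exists_part M b
    have n : Q ∉ Y := fun c => hb ⟨Q, c, hQ⟩
    have p : v ∈ hbd inc P.1 := ⟨⟨a, ha, k⟩, b, fun c => hb ⟨P, hP, c⟩, l⟩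
    exact ⟨⟨v, P, p⟩, ⟨⟨P, hP, p⟩, Q, n, ⟨b, hQ, l⟩, a, fun c => n (part_eq hd ha c ▸ hP), k⟩, rfl⟩

end BCtrl

open BCtrl

theorem starS : StarS := by
  intro ε ν _ inc θ e T T' D hfin h
  have hs := hf_sym hfin
  set S : Set (ν ⊕ ε) := Sum.inr '' D ∪ Sum.inl '' (hv inc D \ hbd inc D) with hS
  set K : ε → Set ε := fun a => {b | b ∈ D ∧ Link (ig inc) S (Sum.inr a) (Sum.inr b)} with hK
  have bd : ∀ A : Set ε, hbd inc (⋃ a ∈ A, K a) ⊆ hbd inc D := by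
    rintro A v ⟨⟨b, hb, k⟩, b', hb', l⟩
    obtain ⟨a, ha, hb⟩ := mem_iUnion₂.1 hb
    by_contra c
    have m : v ∈ hv inc D \ hbd inc D := ⟨⟨b, hb.1, k⟩, c⟩
    have m' : Sum.inl v ∈ S := Or.inr ⟨v, m, rfl⟩
    exact hb' (mem_iUnion₂.2 ⟨a, ha, inner m l, hb.2.trans
      ((Link.single (u := Sum.inr b) (Or.inl ⟨b, hb.1, rfl⟩) m' (ig_adj k).symm).trans
        (Link.single m' (Or.inl ⟨b', inner m l, rfl⟩) (ig_adj l)))⟩)
  have od : ∀ A : Set ε, hf inc (⋃ a ∈ A, K a) < θ := fun A =>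
    (ncard_le_ncard (bd A) (hbd_fin hfin D)).trans_lt h.ord
  obtain ⟨a, ha, big⟩ : ∃ a ∈ D, (K a)ᶜ ∈ T'.sm := by
    by_contra c
    push Not at c
    have all : ∀ A : Set ε, A.Finite → A ⊆ D → (⋃ a ∈ A, K a) ∈ T'.sm := by
      intro A hA
      induction A, hA using Finite.induction_on with
      | empty => exact fun _ => T'.sub_small h.2.1 (by simp) (od _)
      | @insert a A _ _ ih =>
        intro k
        have o := od (insert a A)
        have o1 := od {a}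
        rw [biUnion_insert] at o ⊢
        rw [biUnion_singleton] at o1
        exact T'.union_small (T'.small_or (c a (k (mem_insert _ _))) o1)
          (ih ((subset_insert _ _).trans k)) o
    refine T'.not_both (T'.sub_small (all D (toFinite D) Subset.rfl) (fun a k => ?_) h.ord) h.2.1
    exact mem_iUnion₂.2 ⟨a, k, k, Link.refl _ _ _⟩
  have b1 := bd {a}
  rw [biUnion_singleton] at b1
  have b2 : hf inc D ≤ hf inc (K a) := h.strong hs (fun _ k => k.1) big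
  refine ⟨K a, fun _ k => k.1, big, eq_of_subset_of_ncard_le b1 b2 (hbd_fin hfin D), ?_⟩
  set S' : Set (ν ⊕ ε) := Sum.inr '' K a ∪ Sum.inl '' (hv inc (K a) \ hbd inc D) with hS'
  have a0 : Sum.inr a ∈ S' := Or.inl ⟨a, ⟨ha, Link.refl _ _ _⟩, rfl⟩
  have key : ∀ x, Link (ig inc) S (Sum.inr a) x → Link (ig inc) S' (Sum.inr a) x := by
    intro x hx
    induction hx with
    | refl => exact Link.refl _ _ _
    | @tail y x p q ih =>
      refine ih.trans (Link.single (Link.mem ih a0) ?_ q.2.2)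
      rcases q.2.1 with ⟨b, hb, rfl⟩ | ⟨v, hv', rfl⟩
      · exact Or.inl ⟨b, ⟨hb, Relation.ReflTransGen.tail p q⟩, rfl⟩
      · obtain ⟨w, b, k, ⟨-, l⟩ | ⟨l, rfl⟩⟩ := q.2.2
        · cases l
        · cases l
          exact Or.inr ⟨v, ⟨⟨b, ⟨inner hv' k, p⟩, k⟩, hv'.2⟩, rfl⟩
  have al : ∀ x ∈ S', Link (ig inc) S' (Sum.inr a) x := by
    rintro x (⟨b, hb, rfl⟩ | ⟨v, ⟨⟨b, hb, k⟩, l⟩, rfl⟩)
    · exact key _ hb.2
    · exact (key _ hb.2).trans
        (Link.single (Or.inl ⟨b, hb, rfl⟩) (Or.inr ⟨v, ⟨⟨b, hb, k⟩, l⟩, rfl⟩) (ig_adj k).symm)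
  exact ⟨⟨_, a0⟩, fun u hu v hv => (al u hu).symm.trans (al v hv)⟩

theorem ctrlS (hN : NoTgS) (hW : WdIgS) (hG : GridTgS) : CtrlS := by
  intro g c r h3 h4
  obtain ⟨K, hK⟩ := fb.gridS g
  refine ⟨max (K * (max c r + 1) + 1) c, fun ε ν _ inc θ T hθ hfin hr => ?_⟩
  obtain ⟨h1, h2⟩ := max_le_iff.1 hθ
  have hs := hf_sym hfin
  obtain ⟨e⟩ : Nonempty ε := by
    by_contra n
    rw [not_nonempty_iff] at n
    rcases T.tot ∅ (by rw [hs.emp]; omega) with k | k <;>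
      exact T.univ_not (Subsingleton.elim _ (univ : Set ε) ▸ k)
  set T0 := T.trunc hs h2 with hT0
  set M := Cut e T0 univ with hM
  have hd : M.PairwiseDisjoint id := cut_disj hs
  have : Finite {v : ν // ∃ Q : parts M, v ∈ hbd inc Q.1} :=
    ((hv_fin hfin univ).subset (t := {v : ν | ∃ Q : parts M, v ∈ hbd inc Q.1})
      fun v ⟨_, ⟨a, _, k⟩, _⟩ => ⟨a, trivial, k⟩).to_subtype
  have s' : Sym (hf (sk inc M)) := hf_sym fun _ => toFinite _
  obtain ⟨B', hB'⟩ : ∃ B', Model (fb.grid g) (ig (sk inc M)) univ B' := by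
    refine (isMinor_iff _ _).1 (not_not.1 fun n => ?_)
    have key : ∀ P, (sk inc M P).ncard ≤ max c r := fun P => ?_
    · obtain ⟨D, hD⟩ := hW _ _ (sk inc M) K (max c r) key (hK _ _ n)
      refine (hN _ _ θ _ D s' hD h1).elim (T.push s' up (up_compl hd) up_union
        (fun U k => by rwa [← sk_bd hd]) fun P => ?_)
      rw [up_single]
      obtain ⟨P, p | ⟨a, -, rfl⟩⟩ := P
      exacts [T.not_both (cut_small p).1, T.atom a]
    · refine (ncard_le_ncard_of_injOn Subtype.val (fun v k => k) Subtype.val_injective.injOn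
        (hbd_fin hfin P.1)).trans ?_
      obtain ⟨P, p | ⟨a, -, rfl⟩⟩ := P
      exacts [le_max_of_le_left (cut_small p).2.le, le_max_of_le_right (hr a)]
  have st : ∀ P : parts M, ∃ X : Set (ν ⊕ ε), Conn (ig inc) X ∧
      (∀ a, Sum.inr a ∈ X → a ∈ P.1) ∧ (∀ v, Sum.inl v ∈ X → v ∈ hv inc P.1 \ hbd inc P.1) ∧
      ∀ v ∈ hbd inc P.1, ∃ a, Sum.inr a ∈ X ∧ v ∈ inc a := by
    rintro ⟨P, p | ⟨a, -, rfl⟩⟩
    · obtain ⟨T', -, k⟩ := cut_dist p
      obtain ⟨L, l1, -, l3, l4⟩ := starS ε ν inc c e T0 T' P hfin k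
      refine ⟨_, l4, ?_, ?_, fun v hv' => ?_⟩
      · rintro a (⟨b, hb, m⟩ | ⟨w, -, m⟩) <;> cases m
        exact l1 hb
      · rintro v (⟨b, -, m⟩ | ⟨w, hw, m⟩) <;> cases m
        exact ⟨hv_mono l1 hw.1, hw.2⟩
      · obtain ⟨a, ha, m⟩ := (l3.symm ▸ hv' : v ∈ hbd inc L).1
        exact ⟨a, Or.inl ⟨a, ha, rfl⟩, m⟩
    · refine ⟨{Sum.inr a}, conn_singleton _ _, fun b k => Sum.inr_injective k,
        fun v k => (by cases k), ?_⟩
      exact fun v ⟨⟨b, l, k⟩, _⟩ => ⟨b, congrArg _ l, k⟩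
  choose X x1 x2 x3 x4 using st
  have d1 : ∀ (v : {v : ν // ∃ Q : parts M, v ∈ hbd inc Q.1}) P, Disjoint {Sum.inl v.1} (X P) := by
    rintro ⟨v, Q, ⟨a, ha, k⟩, b, hb, l⟩ P
    refine disjoint_singleton_left.2 fun m => hb ?_
    exact part_eq hd (inner (x3 P v m) k) ha ▸ inner (x3 P v m) l
  have hB := hB'.comp (G' := ig inc) (T := univ) (Sum.elim (fun v => {Sum.inl v.1}) X)
    (fun _ _ => subset_univ _) (by rintro (v | P) -; exacts [conn_singleton _ _, x1 P])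
    (by
      rintro (v | P) - (w | Q) - n
      · exact disjoint_singleton.2 fun k => n (congrArg _ (Subtype.ext (Sum.inl_injective k)))
      · exact d1 v Q
      · exact (d1 w P).symm
      · refine disjoint_left.2 ?_
        rintro (v | a) k l
        · obtain ⟨a, ha, m⟩ := (x3 P v k).1
          exact n (congrArg _ (part_eq hd ha (inner (x3 Q v l) m)))
        · exact n (congrArg _ (part_eq hd (x2 P a k) (x2 Q a l))))
    (by
      rintro _ - _ - ⟨v, P, k, ⟨rfl, rfl⟩ | ⟨rfl, rfl⟩⟩ <;> obtain ⟨a, l, m⟩ := x4 P v.1 k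
      exacts [⟨_, rfl, _, l, ig_adj m⟩, ⟨_, l, _, rfl, (ig_adj m).symm⟩])
  obtain ⟨Tg, hTg⟩ := hG ε ν inc g c _ hfin h3 h4 hB
  have eq : T0 = Tg := by
    by_contra n
    obtain ⟨D, p, k⟩ := big_on_cut (e := e) (N := univ) hs trivial n
    refine Tg.not_both ((hTg D).2 ⟨(cut_small p).2, not_not.1 fun o => ?_⟩) k
    have al : ∀ i, ∃ j, Sum.inr ⟨D, Or.inl p⟩ ∈ B' (i, j) := by
      intro i
      by_contra m
      refine o ⟨i, fun j a l ha => m ⟨j, ?_⟩⟩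
      obtain ⟨v | P, l1, l2⟩ := mem_iUnion₂.1 l
      · cases l2
      · exact part_eq hd (x2 P a l2) (Q := ⟨D, Or.inl p⟩) ha ▸ l1
    obtain ⟨j, k0⟩ := al ⟨0, by omega⟩
    obtain ⟨j', k1⟩ := al ⟨1, by omega⟩
    exact disjoint_left.1 (hB'.2.2.1 _ _ (by simp)) k0 k1
  exact ⟨_, hB, fun U k l => (eq.symm ▸ (hTg U).2 ⟨k, l⟩ : U ∈ T0.sm).1⟩

end Pool.Agent.MP_9d78a0_co.gm

end MrgPart2

-- ======== part 3: formerly Pool.Agent.MP_9d78a0_co.gm.BSub
section MrgPart3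

/-! From a grid model in the incidence graph to a grid model in the graph. -/

set_option autoImplicit false

namespace Pool.Agent.MP_9d78a0_co.gm

open Set Function Sum

namespace BSub

variable {ε ν : Type} {inc : ε → Set ν} {G : SimpleGraph ν} {S : Set (ν ⊕ ε)} {a : ε} {u v : ν}
  {x y : ν ⊕ ε} {U : Set ε}

lemma adj_inr (h : (ig inc).Adj (inr a) y) : ∃ v ∈ inc a, y = inl v := by
  obtain ⟨v, b, h, ⟨k, -⟩ | ⟨rfl, k⟩⟩ := h
  · cases k
  · cases k; exact ⟨v, h, rfl⟩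

lemma adj_inl (h : (ig inc).Adj (inl v) y) : ∃ a, v ∈ inc a ∧ y = inr a := by
  obtain ⟨w, b, h, ⟨k, rfl⟩ | ⟨-, k⟩⟩ := h
  · cases k; exact ⟨b, h, rfl⟩
  · cases k

lemma edge (hG : Gph inc G) (hu : u ∈ inc a) (hv : v ∈ inc a) (h : u ≠ v) : G.Adj u v := by
  obtain ⟨s, t, k, l⟩ := hG a
  rcases k hu with rfl | rfl <;> rcases k hv with rfl | rfl
  · exact absurd rfl h
  · exact l hu hv h
  · exact (l hv hu h.symm).symm
  · exact absurd rfl h

lemma fin (hG : Gph inc G) (a : ε) : (inc a).Finite :=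
  let ⟨_, _, k, _⟩ := hG a
  (toFinite _).subset k

lemma link (hG : Gph inc G) (hu : inl u ∈ S) (h : Link (ig inc) S (inl u) x) :
    ∃ w, inl w ∈ S ∧ Link G (inl ⁻¹' S) u w ∧ (x = inl w ∨ ∃ a, w ∈ inc a ∧ x = inr a) := by
  induction h with
  | refl => exact ⟨u, hu, .refl _ _ _, .inl rfl⟩
  | tail _ k ih =>
    obtain ⟨w, h1, h2, rfl | ⟨a, h3, rfl⟩⟩ := ih
    · exact ⟨w, h1, h2, .inr (adj_inl k.2.2)⟩
    · obtain ⟨w', h4, rfl⟩ := adj_inr k.2.2
      refine ⟨w', k.2.1, ?_, .inl rfl⟩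
      by_cases c : w = w'
      · exact c ▸ h2
      · exact h2.trans (.single h1 k.2.1 (edge hG h3 h4 c))

/-- the inner rows and columns -/
def inn {g : ℕ} (i : Fin g) : Fin (g + 2) := ⟨i + 1, by omega⟩

variable {g : ℕ} {B : Fin (g + 2) × Fin (g + 2) → Set (ν ⊕ ε)}

/-- an atom of an inner branch set has an end in it -/
lemma atom (hG : Gph inc G) (hB : Model (fb.grid (g + 2)) (ig inc) univ B) (i j : Fin g)
    (h : inr a ∈ B (inn i, inn j)) : ∃ v ∈ inc a, inl v ∈ B (inn i, inn j) := by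
  by_contra H
  push Not at H
  have k : ∀ q, (fb.grid (g + 2)).Adj (inn i, inn j) q → ∃ v ∈ inc a, inl v ∈ B q := by
    intro q hq
    obtain ⟨x, hx, y, hy, l⟩ := hB.2.2.2 _ _ hq
    rcases ((hB.2.1 _).2 _ h x hx).cases_head with rfl | ⟨c, l', -⟩
    · obtain ⟨v, h1, rfl⟩ := adj_inr l
      exact ⟨v, h1, hy⟩
    · obtain ⟨v, h1, rfl⟩ := adj_inr l'.2.2
      exact absurd l'.2.1 (H v h1)
  obtain ⟨v1, a1, b1⟩ := k (inn i, ⟨j, by omega⟩) (.inl ⟨rfl, .inr rfl⟩)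
  obtain ⟨v2, a2, b2⟩ := k (inn i, ⟨j + 2, by omega⟩) (.inl ⟨rfl, .inl rfl⟩)
  obtain ⟨v3, a3, b3⟩ := k (⟨i, by omega⟩, inn j) (.inr ⟨rfl, .inr rfl⟩)
  have d : ∀ {p q v w}, inl v ∈ B p → inl w ∈ B q → p ≠ q → v ≠ w := fun h1 h2 c e =>
    disjoint_left.1 (hB.2.2.1 _ _ c) h1 (e ▸ h2)
  have d1 := d b1 b2 (by simp)
  have d2 := d b1 b3 (by simp [inn])
  have d3 := d b2 b3 (by simp [inn])
  obtain ⟨s, t, l, -⟩ := hG a
  rcases l a1 with rfl | rfl <;> rcases l a2 with rfl | rfl <;> rcases l a3 with e | e <;>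
    first | exact d1 rfl | exact d2 e.symm | exact d3 e.symm

lemma model (hG : Gph inc G) (hB : Model (fb.grid (g + 2)) (ig inc) univ B) :
    Model (fb.grid g) G univ fun p => inl ⁻¹' B (inn p.1, inn p.2) := by
  have ne : ∀ p q : Fin g × Fin g, p ≠ q → (inn p.1, inn p.2) ≠ (inn q.1, inn q.2) :=
    fun p q h e => h (by simpa [inn, Prod.ext_iff, Fin.ext_iff] using e)
  refine ⟨fun _ => subset_univ _, fun p => ⟨?_, fun u hu v hv => ?_⟩,
    fun p q h => (hB.2.2.1 _ _ (ne p q h)).preimage _, fun p q h => ?_⟩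
  · obtain ⟨v | a, h⟩ := (hB.2.1 (inn p.1, inn p.2)).1
    · exact ⟨v, h⟩
    · exact (atom hG hB _ _ h).imp fun _ k => k.2
  · obtain ⟨w, -, h, k | ⟨a, -, k⟩⟩ := link hG hu ((hB.2.1 _).2 _ hu _ hv)
    · cases k; exact h
    · cases k
  · have d := disjoint_left.1 (hB.2.2.1 _ _ (ne p q h.ne))
    obtain ⟨v | a, hx, y, hy, l⟩ := hB.2.2.2 (inn p.1, inn p.2) (inn q.1, inn q.2) (by
      have : fb.gridN.Adj _ _ := h
      simp only [fb.grid, fb.gridN, SimpleGraph.comap_adj, inn] at this ⊢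
      omega)
    · obtain ⟨a, h1, rfl⟩ := adj_inl l
      obtain ⟨w, h2, h3⟩ := atom hG hB _ _ hy
      exact ⟨v, hx, w, h3, edge hG h1 h2 fun e => d hx (e ▸ h3)⟩
    · obtain ⟨v, h1, rfl⟩ := adj_inr l
      obtain ⟨w, h2, h3⟩ := atom hG hB _ _ hx
      exact ⟨w, h3, v, hy, edge hG h2 h1 fun e => d h3 (e ▸ hy)⟩

/-- the far side of the set `U` -/
def Far (inc : ε → Set ν) (U : Set ε) : ν ⊕ ε → Prop
  | inl v => v ∉ hv inc U
  | inr a => a ∉ U

lemma far_step (h : (ig inc).Adj x y) (hy : ∀ w ∈ hbd inc U, y ≠ inl w) (k : Far inc U x) :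
    Far inc U y := by
  rcases x with v | a
  · obtain ⟨a, h1, rfl⟩ := adj_inl h
    exact fun l => k ⟨a, l, h1⟩
  · obtain ⟨v, h1, rfl⟩ := adj_inr h
    exact fun l => hy v ⟨l, a, k, h1⟩ rfl

lemma far_conn (h : Conn (ig inc) S) (hS : ∀ w ∈ hbd inc U, inl w ∉ S) (hx : x ∈ S)
    (k : Far inc U x) (hy : y ∈ S) : Far inc U y := by
  have := h.2 x hx y hy
  clear hy
  induction this with
  | refl => exact k
  | tail _ l ih => exact far_step l.2.2 (fun w hw e => hS w hw (e ▸ l.2.1)) ih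

end BSub

open BSub in
theorem subdivS : SubdivS := by
  intro ε ν _ inc G g B hG hB
  refine ⟨_, model hG hB, fun U hU ⟨j0, hj⟩ => ?_⟩
  obtain ⟨i, hi⟩ : ∃ i : Fin g, ∀ j, ∀ w ∈ hbd inc U, inl w ∉ B (inn i, j) := by
    by_contra H
    push Not at H
    choose j w h1 h2 using H
    have inj : Injective w := fun i i' e => by
      by_contra c
      exact disjoint_left.1 (hB.2.2.1 (inn i, j i) (inn i', j i') fun l => c (by
        simpa [inn, Fin.ext_iff] using congrArg Prod.fst l)) (h2 i) (e ▸ h2 i')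
    have := ncard_le_ncard (range_subset_iff.2 h1) (hbd_fin (fin hG) U)
    rw [ncard_range_of_injective inj, Nat.card_eq_fintype_card, Fintype.card_fin] at this
    exact hU.not_ge this
  have st : ∀ j j', (fb.grid (g + 2)).Adj (inn i, j) (inn i, j') →
      (∀ x ∈ B (inn i, j), Far inc U x) → ∀ x ∈ B (inn i, j'), Far inc U x := fun j j' h k z hz => by
    obtain ⟨x, hx, y, hy, l⟩ := hB.2.2.2 _ _ h
    exact far_conn (hB.2.1 _) (hi j') hy
      (far_step l (fun w hw e => hi j' w hw (e ▸ hy)) (k x hx)) hz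
  have all : ∀ j, (∀ x ∈ B (inn i, j), Far inc U x) ↔ ∀ x ∈ B (inn i, 0), Far inc U x := by
    intro j
    induction j using Fin.induction with
    | zero => rfl
    | succ j ih =>
      exact Iff.trans ⟨st _ j.castSucc (.inl ⟨rfl, .inr rfl⟩),
        st j.castSucc _ (.inl ⟨rfl, .inl rfl⟩)⟩ ih
  obtain ⟨v, hv⟩ := ((model hG hB).2.1 (i, j0)).1
  exact ⟨inn i, fun j a h => (all j).2 ((all (inn j0)).1 fun x hx =>
    far_conn (hB.2.1 _) (hi _) hv (disjoint_left.1 (hj i) hv) hx) _ h⟩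

theorem ctrlGS (hC : CtrlS) (hS : SubdivS) : CtrlGS := by
  intro g c h1 h2
  obtain ⟨θ0, h⟩ := hC (g + 2) c 2 (by omega) (by omega)
  refine ⟨θ0, fun ε ν _ inc G θ T hθ hG => ?_⟩
  obtain ⟨B, hB, k⟩ := h ε ν inc θ T hθ (BSub.fin hG) fun a => by
    obtain ⟨u, v, l, -⟩ := hG a
    refine (ncard_le_ncard (t := {u, v}) ?_ (toFinite _)).trans
      ((ncard_insert_le _ _).trans (by simp))
    rintro w ⟨⟨b, rfl, hb⟩, -⟩
    exact l hb
  obtain ⟨B', hB', k'⟩ := hS ε ν inc G g B hG hB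
  exact ⟨B', hB', fun U hU l => k U hU (k' U (by omega) l)⟩

end Pool.Agent.MP_9d78a0_co.gm

end MrgPart3

-- ======== part 4: formerly Pool.Agent.MP_9d78a0_co.gm.BFin
section MrgPart4

/-! Block B: the closed statements. -/

set_option autoImplicit false

namespace Pool.Agent.MP_9d78a0_co.gm

theorem ctrl0 : CtrlS := ctrlS noTgS wdIgS gridTgS

theorem ctrlG0 : CtrlGS := ctrlGS ctrl0 subdivS

end Pool.Agent.MP_9d78a0_co.gm

end MrgPart4

-- ======== part 5: formerly Pool.Agent.MP_9d78a0_co.gm.JHeart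
section MrgPart5

/-! The tangle lemma together with the finishing step. -/

set_option autoImplicit false

namespace Pool.Agent.MP_9d78a0_co.gm

open Set Function

theorem pwo_biUnion {ι : Type} {I : Set ι} (hI : I.Finite) {A : ι → Set Lab}
    (h : ∀ i ∈ I, Pwo (A i)) : Pwo (⋃ i ∈ I, A i) := by
  induction I, hI using Finite.induction_on with
  | empty => simp [Pwo]
  | @insert a I _ _ ih =>
    rw [biUnion_insert]
    exact (h a (Or.inl rfl)).union (ih fun i k => h i (Or.inr k))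

theorem pwo_three {γ : Type} {A A' : Set Lab} {C : Set γ} (h : Pwo A) (h' : Pwo A')
    (hC : C.Finite) {a a' : ℕ → Lab} {c : ℕ → γ} (ha : ∀ n, a n ∈ A) (ha' : ∀ n, a' n ∈ A')
    (hc : ∀ n, c n ∈ C) : ∃ i j, i < j ∧ Le (a i) (a j) ∧ Le (a' i) (a' j) ∧ c i = c j := by
  have k : C.PartiallyWellOrderedOn (· = ·) := hC.partiallyWellOrderedOn
  exact (PartiallyWellOrderedOn.prod h (PartiallyWellOrderedOn.prod h' k)).exists_lt
    (f := fun n => (a n, a' n, c n)) fun n => ⟨ha n, ha' n, hc n⟩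

theorem multiset_fin {α : Type} {S : Set α} (hS : S.Finite) (n : ℕ) :
    {M : Multiset α | M.card ≤ n ∧ ∀ y ∈ M, y ∈ S}.Finite := by
  have := hS.to_subtype
  refine ((List.finite_length_le S n).image fun l => ((l.map Subtype.val : List α) : Multiset α)).subset ?_
  rintro M ⟨h1, h2⟩
  induction M using Quotient.inductionOn with
  | h l =>
    refine ⟨l.attachWith (· ∈ S) fun y hy => h2 y hy, ?_, ?_⟩
    · simpa using h1
    · simp

theorem par_fin {k q c ν n : ℕ} {II AA : Set (Set Lab)} {TT : Set Ty} {KK : Set ℕ}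
    (h1 : II.Finite) (h2 : AA.Finite) (h3 : TT.Finite) (h4 : KK.Finite) :
    {p : Par | p.k ≤ k ∧ p.I ∈ II ∧ p.q ≤ q ∧ (p.Ms.card ≤ n ∧ ∀ y ∈ p.Ms, y ∈ TT) ∧ p.c ≤ c ∧
      p.A ∈ AA ∧ p.K ∈ KK ∧ p.ν ≤ ν}.Finite := by
  refine Finite.of_finite_image (f := fun p => (p.k, p.I, p.q, p.Ms, p.c, p.A, p.K, p.ν))
    (((finite_Iic k).prod (h1.prod ((finite_Iic q).prod ((multiset_fin h3 n).prod
      ((finite_Iic c).prod (h2.prod (h4.prod (finite_Iic ν)))))))).subset ?_) ?_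
  · rintro _ ⟨p, ⟨a1, a2, a3, a4, a5, a6, a7, a8⟩, rfl⟩
    exact ⟨a1, a2, a3, a4, a5, a6, a7, a8⟩
  · rintro ⟨_, _, _, _, _, _, _, _⟩ - ⟨_, _, _, _, _, _, _, _⟩ - h
    simp only [Prod.mk.injEq] at h
    obtain ⟨rfl, rfl, rfl, rfl, rfl, rfl, rfl, rfl⟩ := h
    rfl

theorem lab_om {σ : AG} {A : Set Lab} {K θ : ℕ} (h1 : σ.Rob) (h2 : σ.Over univ A K)
    (h3 : IsEmpty (Tangle σ.f θ)) : σ.lab ∈ Om A (3 * θ + K) 0 := by
  refine ⟨rfl, σ, univ, h1, fun a ha => ⟨(h2 a ha).1, (h2 a ha).2.trans (by omega)⟩,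
    region0S σ.ε W σ.inc θ K univ σ.inc_fin (fun a ha => (h2 a ha).2) (fun T => h3.elim T),
    rfl, ?_, by simp [AG.lab]⟩
  rintro v ⟨-, a, ha, -⟩
  exact (ha trivial).elim

theorem heartJS (hF : FinS) : HeartJS := by
  intro G A K ν k1 σ hG hA hσ hstep
  choose R0 w' hF using fun w => hF w ν K
  obtain ⟨w1, θ0, Is, Ts, hIs, hTs, hstep⟩ := hstep R0
  obtain ⟨θ, hθ1, hθ0, hθ⟩ : ∃ θ, 0 < θ ∧ θ0 ≤ θ ∧ ∀ w ≤ w1, R0 w ≤ θ :=
    ⟨max θ0 ((Finset.range (w1 + 1)).sup R0) + 1, by omega, by omega, fun w hw =>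
      (Finset.le_sup (f := R0) (Finset.mem_range.2 (by omega))).trans
        ((le_max_right _ _).trans (Nat.le_succ _))⟩
  obtain ⟨W1, hW⟩ : ∃ W1, ∀ w ≤ w1, w' w ≤ W1 :=
    ⟨(Finset.range (w1 + 1)).sup w', fun w hw =>
      Finset.le_sup (f := w') (Finset.mem_range.2 (by omega))⟩
  choose K' hF using fun w : Iic w1 => hF w θ (hθ w w.2)
  choose Fn hFn hF using fun w : Iic w1 => hF w A hA
  by_cases hZ : {n | IsEmpty (Tangle (σ n).f θ)}.Infinite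
  · obtain ⟨m, n, a, b⟩ := PartiallyWellOrderedOn.exists_lt (omS A (3 * θ + K) 0 hA)
      (f := fun n => (σ (Nat.nth _ n)).lab) fun n =>
        lab_om (hσ _).1 (hσ _).2.1 (Nat.nth_mem_of_infinite hZ n)
    exact ⟨_, _, Nat.nth_strictMono hZ a, b⟩
  obtain ⟨N0, hN0⟩ := (not_infinite.1 hZ).bddAbove
  have hne : ∀ n, Nonempty (Tangle (σ (n + (N0 + 1))).f θ) := fun n => by
    by_contra c
    have := hN0 (not_nonempty_iff.1 c)
    omega
  have he : ∀ n, Nonempty (σ (n + (N0 + 1))).ε := fun n => by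
    obtain ⟨T⟩ := hne n
    by_contra c
    have : IsEmpty (σ (n + (N0 + 1))).ε := not_nonempty_iff.1 c
    have h0 : (σ (n + (N0 + 1))).f ∅ < θ := (σ _).sym.emp ▸ hθ1
    exact T.univ_not ((T.tot _ h0).elim (fun k => (univ_eq_empty_iff.2 this).symm ▸ k)
      fun k => compl_empty ▸ k)
  let e : ∀ n, (σ (n + (N0 + 1))).ε := fun n => (he n).some
  -- the finite set of parameters
  let PP : Set Lab → Set Par := fun A' => {p : Par | p.k ≤ k1 ∧
    p.I ∈ Is ∪ range (fun w => Fn w A') ∧ p.q ≤ w1 + W1 ∧ (p.Ms.card ≤ W1 ∧ ∀ y ∈ p.Ms, y ∈ Ts ∪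
      (fun x : ℕ × Iic w1 => (⟨x.1, Fn x.2 A', K' x.2, ∅⟩ : Ty)) '' (Iic w1 ×ˢ univ)) ∧ p.c ≤ W1 ∧
    p.A ∈ range (fun w => Fn w A') ∧ p.K ∈ range K' ∧ p.ν ≤ ν + W1}
  have hPP : ∀ A', (PP A').Finite := fun A' =>
    par_fin (hIs.union (finite_range _)) (finite_range _)
      (hTs.union (((finite_Iic _).prod finite_univ).image _)) (finite_range _)
  have key : ∀ (n : ℕ) (T : Tangle (σ (n + (N0 + 1))).f θ), ∃ N : Set (Tangle (σ (n + (N0 + 1))).f θ),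
      ∀ A', Pwo A' → (∀ C ∈ Cut (e n) T N, e n ∉ C →
        InA A' ((σ (n + (N0 + 1))).un C) ((σ (n + (N0 + 1))).bd C)) →
      ∃ (F : Pc) (ρO ρN : List W) (P : Set ℕ) (π : W → W) (G' : Pc),
        Enum ρO ((σ (n + (N0 + 1))).bd (Out (e n) T N)) ∧ (ρO.length, P) ∈ Iic W1 ×ˢ 𝒫 (Iic W1) ∧
        (F, ρO ++ ρN) ∈ (⋃ x ∈ (univ ×ˢ Iic (W1 + W1) : Set (Iic w1 × ℕ)),
          Om (Fn x.1 A') (K' x.1) x.2) ∧
        Desc ν P ((σ (n + (N0 + 1))).un (Out (e n) T N)ᶜ) ρO F ρN G' π ∧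
        (G', []) ∈ ⋃ p ∈ PP A' ∩ {p | G p}, Cls p := by
    intro n T
    obtain ⟨t, Sd, Sb, md, tt, w, g, R, B, hw, hR, hg, hP, hN1, hN2⟩ := hstep θ hθ0 _ T (e n)
    obtain ⟨N, -, hN⟩ := hF ⟨w, hw⟩ _ T (e n) t Sd Sb md tt g R B hR hg (hσ _).1 (hσ _).2.1
      (hσ _).2.2 hP
    refine ⟨N, fun A' hA' hC => ?_⟩
    obtain ⟨F, ρO, ρN, P, π, σ', t', ty', mk', src, a1, a2, a3, a4, a5, a6, a7, a8, a9⟩ := hN A' hC
    have hw' := hW w hw
    have dep : ∀ j', (ty' j').d = t'.d j' := fun j' => by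
      have h := a9 t.s.M.eg.toNat _ _ (Int.self_le_toNat _) (Or.inl rfl) (Or.inl le_rfl) _ le_rfl
      exact (h.fits j' 0 (h.ok.len j')).dep
    obtain ⟨k, I, q, c, b1, b2, b3, b4, b5, b6, b7, b8, b9⟩ :=
      hN2 _ _ _ σ' t' ty' src (hFn ⟨w, hw⟩ A' hA') a8 a7 dep
    refine ⟨F, ρO, ρN, P, π, σ'.un univ, a1, ⟨a2.trans hw', fun j hj => ?_⟩,
      mem_biUnion (x := (⟨w, hw⟩, ρO.length + ρN.length)) ⟨trivial, ?_⟩ a4, a5,
      mem_biUnion ⟨⟨b1, ?_, ?_, ⟨?_, ?_⟩, b4.trans hw', ⟨_, rfl⟩, ⟨_, rfl⟩, ?_⟩, b9⟩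
        ⟨σ', t', ty', mk', a9 k I q b5 b6 b7 c b8, rfl⟩⟩
    · exact (a5.pend j hj).1.le.trans (a3.trans hw')
    · exact add_le_add (a2.trans hw') (a3.trans hw')
    · exact b2.symm.imp id fun h => ⟨_, h.symm⟩
    · exact b3.trans (Nat.add_le_add_left hw' _)
    · simpa using a6.trans hw'
    · intro y hy
      obtain ⟨j', -, rfl⟩ := Multiset.mem_map.1 hy
      rcases a8.ty j' with ⟨c1, ⟨i, c2, c3, c4⟩, -⟩ | ⟨c1, c2, -⟩
      · exact Or.inl (c4 ▸ hN1 _ c1 i c2 c3)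
      · exact Or.inr ⟨(t'.d j', ⟨w, hw⟩), ⟨c2.trans ((hP.cnt.2.2.2.2 _).trans hw), trivial⟩, c1.symm⟩
    · exact Nat.add_le_add_left hw' _
  choose N hN using key
  obtain ⟨m, n, a, b⟩ := tlS linkS ordS θ (fun n => σ (n + (N0 + 1))) e N (fun n => (hσ _).1) hne (by
    intro A' hA' n T hC
    choose F ρO ρN P π G' a1 a2 a3 a4 a5 using fun i => hN (n i) (T i) A' hA' (hC i)
    obtain ⟨i, j, b1, b2, b3, b4⟩ := pwo_three
      (pwo_biUnion (finite_univ.prod (finite_Iic _)) fun x _ => omS _ _ _ (hFn x.1 A' hA'))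
      (pwo_biUnion ((hPP A').inter_of_left _) fun p hp => hG p hp.2)
      ((finite_Iic W1).prod (finite_Iic W1).powerset) a3 a5 a2
    obtain ⟨c1, c2⟩ := Prod.mk.inj b4
    exact ⟨i, j, b1, ρO i, ρO j, a1 i, a1 j,
      descS ν (P i) _ _ _ _ _ _ _ _ _ _ _ _ (a4 i) (c2 ▸ a4 j) c1 b2 b3⟩)
  exact ⟨_, _, Nat.add_lt_add_right a _, b⟩

end Pool.Agent.MP_9d78a0_co.gm

end MrgPart5

-- ======== part 6: formerly Pool.Agent.MP_9d78a0_co.gm.JMain
section MrgPart6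

/-! The induction on the parameters. -/

set_option autoImplicit false

namespace Pool.Agent.MP_9d78a0_co.gm

open Set Function

theorem nxt_new {p : Par} (hp : p.Wf) {Ω : Set Lab} {w1 w2 : ℕ} {σ : AG} {t : Sh σ} {Sd : Set σ.ε}
    {Sb : t.ι → ℕ → Prop} {tt : t.ι → ℕ → Ty} {Ts : Set Ty} (ok : t.Ok) (h : ResN p Ω w1 t Sd)
    (h1 : w1 ≤ w2) (h2 : p.q ≤ w2) :
    Nxt (fun p' => p'.Wf ∧ p'.Lt p) p.k (insert p.I (cutI p.I '' Ω)) Ts p.ν w2 t Sd Sb
      (fun _ => Md.new) tt := by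
  refine ⟨fun _ k => (k rfl).elim, fun A' K' w' σ' t' ty' src hA hs hm _ => ?_⟩
  have ht : ∀ y ∈ Finset.univ.val.map ty', Pwo y.A := by
    intro y hy
    obtain ⟨j', -, rfl⟩ := Multiset.mem_map.1 hy
    rcases hs.ty j' with ⟨c, -⟩ | ⟨c, -⟩
    · exact (c rfl).elim
    · rw [c]
      exact hA
  rcases h with ⟨a1, a2⟩ | ⟨a1, a2, ⟨a3, ω, a4, a5⟩ | ⟨a3, a4⟩⟩
  · have := (monoS _ _ ok.ok.hm.ok).1
    exact ⟨p.k - 1, A', w2 + w', _, by omega, Or.inl rfl, le_rfl, hm, by omega, Or.inl rfl,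
      Or.inl (by omega), le_rfl, ⟨hA, hA, ht⟩, Or.inl (show p.k - 1 < p.k by omega)⟩
  · exact ⟨p.k, cutI p.I ω, w1, _, le_rfl, Or.inr (Or.inr ⟨ω, a4.1, rfl⟩), by omega, hm, a1,
      Or.inr ⟨a2, a5⟩, Or.inr ⟨a2, a3⟩, le_rfl, ⟨hp.1.mono fun _ k => k.1, hA, ht⟩,
      Or.inr ⟨rfl, Or.inl ⟨hp.1, ω, a4.2, rfl⟩⟩⟩
  · exact ⟨p.k, p.I, _, _, le_rfl, Or.inr (Or.inl rfl), by omega, hm, a1,
      Or.inr ⟨a2, a4⟩, Or.inr ⟨a2, le_rfl⟩, le_rfl, ⟨hp.1, hA, ht⟩,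
      Or.inr ⟨rfl, Or.inr ⟨rfl, Or.inl a3⟩⟩⟩

theorem nxt_old (hT : TameS) {p : Par} (hp : p.Wf) {Ω : Set Lab} {w2 : ℕ} (x : TM p)
    {Sd : Set x.σ.ε} {Sb : x.t.ι → ℕ → Prop} {md : x.t.ι → Md} {tt : x.t.ι → ℕ → Ty}
    (hr : x.t.rest ⊆ Sd) (h : ResO x Ω Sd Sb md tt) (h2 : p.q ≤ w2) :
    Nxt (fun p' => p'.Wf ∧ p'.Lt p) p.k (insert p.I (cutI p.I '' Ω))
      ({y | y ∈ p.Ms} ∪ image2 Ty.add {y | y ∈ p.Ms} Ω) p.ν w2 x.t Sd Sb md tt := by
  obtain ⟨n, hT⟩ := hT p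
  obtain ⟨t1, -, -, -, -, -, -, -, t2, -, t3, t4, -⟩ := hT x
  have nn : ∀ j, md j ≠ Md.new := fun j c => by
    rcases h.ty j with ⟨k, -⟩ | ⟨k, -⟩ <;> rw [c] at k <;> cases k
  refine ⟨fun j _ i hi hb => ?_, fun A' K' w' σ' t' ty' src hA hs hm dep => ?_⟩
  · rcases h.ty j with ⟨-, k⟩ | ⟨-, k⟩
    · exact Or.inl (k i ▸ (t1 j).1)
    · obtain ⟨ω, a, -, b⟩ := k i hi hb
      exact Or.inr ⟨_, (t1 j).1, ω, a, b.symm⟩
  -- the shape of the new types
  have tri : ∀ j', (md (src j') = Md.keep ∧ ty' j' = x.ty (src j') ∧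
      ∀ j'', src j'' = src j' → j'' = j') ∨
      ((ty' j').Lt (x.ty (src j')) ∧ Pwo (ty' j').A ∧
        (md (src j') = Md.keep → t'.d j' < x.t.d (src j'))) := by
    intro j'
    rcases hs.ty j' with ⟨-, ⟨i, c2, c3, c4⟩, c5⟩ | ⟨c1, -, c3⟩
    · rcases h.ty (src j') with ⟨k, l⟩ | ⟨k, l⟩
      · exact Or.inl ⟨k, c4.trans (l i), c5 k⟩
      · obtain ⟨ω, -, a, b⟩ := l i c2 c3
        have pw := hp.2.2 _ (t1 (src j')).1
        refine Or.inr ⟨Or.inr ⟨pw, ω, a, c4.trans b⟩, ?_, fun c => ?_⟩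
        · rw [c4, b]
          exact pw
        · rw [c] at k
          cases k
    · refine Or.inr ⟨Or.inl ?_, ?_, fun _ => c3 (nn _)⟩
      · rw [dep, (t1 _).2.1]
        exact c3 (nn _)
      · rw [c1]
        exact hA
  have ht : ∀ y ∈ Finset.univ.val.map ty', Pwo y.A := by
    intro y hy
    obtain ⟨j', -, rfl⟩ := Multiset.mem_map.1 hy
    rcases tri j' with ⟨-, c, -⟩ | ⟨-, c, -⟩
    · rw [c]
      exact hp.2.2 _ (t1 _).1
    · exact c
  refine ⟨p.k, p.I, p.q, _, le_rfl, Or.inr (Or.inl rfl), by omega, hm, x.h.eg,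
    Or.inr ⟨t3, t4 Sd⟩, Or.inr ⟨t3, x.h.holes⟩, le_rfl, ⟨hp.1, hA, ht⟩,
    Or.inr ⟨rfl, Or.inr ⟨rfl, Or.inr ⟨rfl, ?_⟩⟩⟩⟩
  by_cases c : ∃ j, ∀ j', src j' = j → (ty' j').Lt (x.ty j)
  · exact Or.inl ⟨x.t.ι, t'.ι, inferInstance, inferInstance, x.ty, ty', src, x.h.types.symm, rfl,
      fun j' => (tri j').imp (fun k => k.2) fun k => k.1, c⟩
  push Not at c
  have c' : ∀ j, ∃ j', src j' = j ∧ md j = Md.keep ∧ ty' j' = x.ty j ∧
      ∀ j'', src j'' = j → j'' = j' := fun j => by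
    obtain ⟨j', rfl, b⟩ := c j
    exact ⟨j', rfl, (tri j').resolve_right fun k => b k.1⟩
  have bij : Bijective src := by
    refine ⟨fun a b e => ?_, fun j => let ⟨j', k, _⟩ := c' j; ⟨j', k⟩⟩
    obtain ⟨j', -, -, -, k⟩ := c' (src b)
    exact (k a e).trans (k b rfl).symm
  refine Or.inr ⟨?_, ?_⟩
  · change Finset.univ.val.map ty' = p.Ms
    have e : ty' = x.ty ∘ src := funext fun j' => by
      obtain ⟨j'', -, -, a, b⟩ := c' (src j')
      exact (congrArg ty' (b j' rfl)).trans a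
    rw [← x.h.types, e, ← Multiset.map_map]
    exact congrArg _ (Multiset.map_univ_val_equiv (Equiv.ofBijective src bij))
  · change t'.Mk.ncard < p.c
    have l : x.σ.f Sd < p.c := h.drop.resolve_left fun ⟨j, k⟩ => by
      obtain ⟨-, -, a, -⟩ := c' j
      rw [a] at k
      cases k
    refine (hs.marks (t2.trans (biUnion_subset_biUnion_left hr)) t3 x.h.lam fun j => ?_).trans_lt l
    obtain ⟨j', a, b, d, -⟩ := c' j
    exact ⟨b, j', a, by rw [← dep, d, (t1 j).2.1]⟩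

theorem mainS (hW : WfS) (hT : TameS) (hC : CodeS) (hS : StepS) (hH : HeartJS) : MainS := by
  intro p
  induction p using hW.induction with
  | h p ih =>
  intro hp
  refine partiallyWellOrderedOn_iff_exists_lt.2 fun f hf => ?_
  choose σ t ty nm h1 h2 using hf
  let x : ℕ → TM p := fun n => ⟨σ n, t n, ty n, nm n, h1 n⟩
  obtain ⟨φ, hφ, hM⟩ := hC p x
  by_contra bad
  have nle : ∀ m n, m < n → ¬ Le (σ (φ m)).lab (σ (φ n)).lab := fun m n l k =>
    bad ⟨φ m, φ n, hφ l, by rwa [h2, h2]⟩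
  obtain ⟨m, n, a, b⟩ := hH (fun p' => p'.Wf ∧ p'.Lt p) p.A p.K p.ν p.k
    (fun n => σ (φ (n + 1))) (fun p' k => ih p' k.2 k.1) hp.2.1
    (fun n => ⟨(h1 _).rob, (h1 _).atoms, (h1 _).names⟩) (by
      intro ρ
      obtain ⟨Ω, w1, θ0, hΩ, hS⟩ := hS p (x (φ 0)) ρ
      refine ⟨max w1 p.q, θ0, insert p.I (cutI p.I '' Ω),
        {y | y ∈ p.Ms} ∪ image2 Ty.add {y | y ∈ p.Ms} Ω, (hΩ.image _).insert _,
        p.Ms.finite_toSet.union (p.Ms.finite_toSet.image2 _ hΩ), fun θ hθ n T e => ?_⟩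
      rcases hS (x (φ (n + 1))) θ T e hθ (hM _) with k | ⟨t1, Sd, ⟨w, a1, Sb, tt, g, R, B, a2, a3, a4⟩, k⟩ |
        ⟨w, g, R, B, a1, a2, a3, Sd, Sb, md, tt, a4, k⟩
      · exact (nle 0 _ n.succ_pos k).elim
      · exact ⟨t1, Sd, Sb, _, tt, w, g, R, B, a1.trans (le_max_left _ _), a2, a3, a4,
          nxt_new hp a4.ok k (le_max_left _ _) (le_max_right _ _)⟩
      · exact ⟨_, Sd, Sb, md, tt, w, g, R, B, a1.trans (le_max_left _ _), a2, a3, a4,
          nxt_old hT hp (x _) a4.rest k (le_max_right _ _)⟩)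
  exact nle _ _ (Nat.succ_lt_succ a) b

end Pool.Agent.MP_9d78a0_co.gm

end MrgPart6

-- ======== part 7: formerly Pool.Agent.MP_9d78a0_co.gm.JBase
section MrgPart7

/-! The start of the induction: plain graphs without a complete minor. -/

set_option autoImplicit false

namespace Pool.Agent.MP_9d78a0_co.gm

open Set Function

namespace JBase

/-- the vertex of a number -/
def io {k : ℕ} (v : Fin k) : W := Sum.inl v.1

theorem io_inj {k : ℕ} : Injective (io : Fin k → W) := fun _ _ h => Fin.ext (Sum.inl.inj h)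

/-- a graph as a family of atoms: its edges and a loop at every vertex -/
def ag {k : ℕ} (G : SimpleGraph (Fin k)) : AG where
  ε := {p : Fin k × Fin k // p.1 = p.2 ∨ G.Adj p.1 p.2}
  fin := inferInstance
  pc a := {(io a.1.1, io a.1.2)}
  pfin _ := finite_singleton _

/-- the labels of single pairs -/
def A0 : Set Lab :=
  (fun q : (Fin 2 × Fin 2) × List (Fin 2) => (({(io q.1.1, io q.1.2)} : Pc), q.2.map io)) ''
    (univ ×ˢ {l | l.length ≤ 2})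

theorem pwo0 : Pwo A0 :=
  ((finite_univ.prod (List.finite_length_le _ 2)).image _).partiallyWellOrderedOn

theorem vv_pair (u v : W) : VV {(u, v)} = {u, v} := by
  ext x
  simp [VV]

theorem bd_inc {σ : AG} (a : σ.ε) : σ.bd {a} ⊆ VV (σ.pc a) ∩ Od := by
  rintro v ⟨⟨b, rfl, k⟩, -⟩
  exact k

section plain

variable {σ : AG} (h : σ.Plain)
include h

theorem rob : σ.Rob := fun a => by
  refine robS.2.1 _ _ ?_ (bd_inc a)
  obtain ⟨u, -, v, -, e⟩ := h a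
  rw [e]
  exact subsingleton_singleton

theorem names (a : σ.ε) (i : ℕ) (k : Sum.inr i ∈ VV (σ.pc a)) : i < 0 := by
  obtain ⟨_, ⟨u, rfl⟩, _, ⟨v, rfl⟩, e⟩ := h a
  rw [e, vv_pair] at k
  rcases k with k | k <;> cases k

theorem gph : Gph σ.inc (gr (σ.un univ)) := fun a => by
  obtain ⟨u, -, v, -, e⟩ := h a
  refine ⟨u, v, fun x hx => ?_, fun _ _ c => ⟨c, Or.inl (mem_biUnion (mem_univ a) ?_)⟩⟩
  · have k := hx.1
    rwa [e, vv_pair] at k
  · rw [e]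
    rfl

theorem ovr : σ.Over univ A0 2 := fun a _ => by
  classical
  obtain ⟨u, hu, v, hv, e⟩ := h a
  have s : σ.bd {a} ⊆ {u, v} := fun x hx => by
    have k := (bd_inc a hx).1
    rwa [e, vv_pair] at k
  have c : (σ.bd {a}).ncard ≤ 2 :=
    (ncard_le_ncard s (toFinite _)).trans ((ncard_insert_le _ _).trans (by simp))
  refine ⟨Or.inr ?_, c⟩
  obtain ⟨ρ, hρ⟩ := Enum.exists (σ.bd_fin {a})
  let f : W → Fin 2 := fun x => if x = u then 0 else 1
  let r : W → W := Sum.elim (fun n => io (f (Sum.inl n))) Sum.inr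
  have ro : ∀ x ∈ ({u, v} : Set W), r x = io (f x) := by
    obtain ⟨n, rfl⟩ := hu
    obtain ⟨m, rfl⟩ := hv
    rintro x (rfl | rfl) <;> rfl
  have d : dom (σ.pc a, ρ) ⊆ {u, v} ∪ Nm := by
    rintro x ((k | k) | k)
    · rw [e, vv_pair] at k
      exact Or.inl k
    · exact Or.inl (s (hρ.2 ▸ k))
    · exact Or.inr k
  refine ⟨ρ, hρ, _, ⟨((f u, f v), ρ.map f), ⟨trivial, ?_⟩, ?_⟩,
    renS (σ.pc a, ρ) r (InjOn.mono d ?_) fun _ => rfl⟩
  · simpa [hρ.length] using c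
  · refine Prod.ext ?_ ?_
    · simp only [e, ren, image_singleton, Prod.map, ro u (Or.inl rfl), ro v (Or.inr rfl)]
    · simp only [List.map_map]
      exact List.map_congr_left fun x hx => (ro x (s (hρ.2 ▸ hx))).symm
  · rintro x (hx | ⟨i, rfl⟩) y (hy | ⟨j, rfl⟩) k
    · rw [ro x hx, ro y hy] at k
      have k' := io_inj k
      by_cases c1 : x = u <;> by_cases c2 : y = u
      · exact c1.trans c2.symm
      · simp [f, c1, c2] at k'
      · simp [f, c1, c2] at k'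
      · exact (hx.resolve_left c1).trans (hy.resolve_left c2).symm
    · rw [ro x hx] at k
      cases k
    · rw [ro y hy] at k
      cases k
    · exact k

end plain

section graph

variable {k k' : ℕ} {G : SimpleGraph (Fin k)} {G' : SimpleGraph (Fin k')}

theorem plain (G : SimpleGraph (Fin k)) : (ag G).Plain := fun _ => ⟨_, ⟨_, rfl⟩, _, ⟨_, rfl⟩, rfl⟩

theorem mem_un {p : W × W} :
    p ∈ (ag G).un univ ↔ ∃ u v, (u = v ∨ G.Adj u v) ∧ p = (io u, io v) :=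
  ⟨fun h => let ⟨a, _, e⟩ := mem_iUnion₂.1 h; ⟨_, _, a.2, e⟩,
    fun ⟨u, v, h, e⟩ => mem_iUnion₂.2 ⟨⟨(u, v), h⟩, trivial, e⟩⟩

theorem vv_un : VV ((ag G).un univ) = range (io : Fin k → W) := by
  ext x
  constructor
  · rintro ⟨p, hp, e⟩
    obtain ⟨u, v, -, rfl⟩ := mem_un.1 hp
    exact e.elim (fun e => ⟨u, e.symm⟩) fun e => ⟨v, e.symm⟩
  · rintro ⟨u, rfl⟩
    exact ⟨_, mem_un.2 ⟨u, u, Or.inl rfl, rfl⟩, Or.inl rfl⟩

theorem adj_un {u v : Fin k} : (gr ((ag G).un univ)).Adj (io u) (io v) ↔ G.Adj u v := by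
  refine ⟨fun ⟨c, h⟩ => ?_, fun h => ⟨io_inj.ne h.ne, Or.inl (mem_un.2 ⟨u, v, Or.inr h, rfl⟩)⟩⟩
  rcases h with h | h <;> obtain ⟨a, b, h, e⟩ := mem_un.1 h <;>
    obtain ⟨e1, e2⟩ := Prod.mk.inj e <;> obtain rfl := io_inj e1 <;> obtain rfl := io_inj e2
  · exact h.resolve_left fun e => c (congrArg io e)
  · exact (h.resolve_left fun e => c (congrArg io e).symm).symm

theorem pull {U : Type} {H : SimpleGraph U} {B : U → Set W}
    (h : Model H (gr ((ag G).un univ)) (range (io : Fin k → W)) B) : IsMinor H G := by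
  have e : ∀ u : Fin k, io ⁻¹' {io u} = {u} := fun u => by
    ext x
    exact io_inj.eq_iff
  refine (h.comp (T := univ) (fun x => io ⁻¹' {x}) (fun _ _ => subset_univ _) ?_
    (fun _ _ _ _ c => (disjoint_singleton.2 c).preimage _) ?_).isMinor
  · rintro _ ⟨u, rfl⟩
    rw [e]
    exact conn_singleton _ _
  · rintro _ ⟨u, rfl⟩ _ ⟨v, rfl⟩ c
    exact ⟨u, rfl, v, rfl, adj_un.1 c⟩

theorem noK (h : ¬ IsMinor G' G) : fb.NoK (k' + 2) (gr ((ag G).un univ)) := fun c => by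
  obtain ⟨B, hB⟩ := (isMinor_iff _ _).1 c
  have k1 := hB.subset_support
  refine h ((isMinor_of_inj (Fin.castAdd 2) (Fin.castAdd_injective _ _) fun _ _ e =>
    (Fin.castAdd_injective _ _).ne e.ne).trans (pull (B := B) ⟨fun w x hx => ?_, hB.2⟩))
  obtain ⟨y, hy⟩ := k1.1 w hx
  exact vv_un ▸ gr_mem hy

theorem minor_of_le (h : Le (ag G).lab (ag G').lab) : IsMinor G G' := by
  obtain ⟨B, h⟩ := h
  have m : ∀ v : Fin k, io v ∈ dom (ag G).lab := fun v =>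
    Or.inl (Or.inl (vv_un (G := G) ▸ mem_range_self v))
  refine pull (B := fun v => B (io v)) ⟨fun v x hx => ?_, fun v => h.conn _ (m v),
    fun u v c => h.dis _ (m u) _ (m v) (io_inj.ne c), fun u v c => h.adj _ _ (adj_un.2 c)⟩
  rcases h.sub _ (m v) hx with (c | c) | ⟨i, rfl⟩
  · exact vv_un (G := G') ▸ c
  · cases c
  · exact absurd (h.nm i) (disjoint_left.1
      (h.dis _ (m v) _ (Or.inr (inr_nm i)) fun c => by cases c) hx)

end graph

/-- a smaller grid whose columns are whole columns of the larger one -/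
theorem coarse {V : Type} {G : SimpleGraph V} {g g' : ℕ} (h : g ≤ g')
    {B : Fin g' × Fin g' → Set V} (hB : Model (fb.grid g') G univ B) :
    ∃ B' : Fin g × Fin g → Set V, Model (fb.grid g) G univ B' ∧
      ∀ j i', ∃ i, B (i', Fin.castLE h j) ⊆ B' (i, j) := by
  let C : Fin g × Fin g → Set (Fin g' × Fin g') := fun p =>
    {x | min x.1.1 (g - 1) = p.1.1 ∧ x.2.1 = p.2.1}
  have c0 : ∀ p, (Fin.castLE h p.1, Fin.castLE h p.2) ∈ C p := fun p =>
    ⟨by have := p.1.2; simp only [Fin.val_castLE]; omega, rfl⟩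
  have hC : Model (fb.grid g) (fb.grid g') univ C := by
    refine ⟨fun _ => subset_univ _, fun p => fb.conn_of_center (c0 p) ?_, fun p p' c => ?_,
      fun p p' c => ⟨_, c0 p, _, c0 p', c⟩⟩
    · have key : ∀ (d : ℕ) (x : Fin g' × Fin g'), x ∈ C p → x.1.1 = p.1.1 + d →
          Link (fb.grid g') (C p) (Fin.castLE h p.1, Fin.castLE h p.2) x := by
        intro d
        induction d with
        | zero =>
          intro x hx e
          obtain rfl : x = (Fin.castLE h p.1, Fin.castLE h p.2) :=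
            Prod.ext (Fin.ext e) (Fin.ext hx.2)
          exact Link.refl _ _ _
        | succ d ih =>
          intro x hx e
          have l : p.1.1 + d < g' := by have := x.1.2; omega
          have m : ((⟨_, l⟩, x.2) : Fin g' × Fin g') ∈ C p :=
            ⟨by have := hx.1; simp only; omega, hx.2⟩
          exact (ih _ m rfl).trans (Link.single m hx (Or.inr ⟨rfl, Or.inl e.symm⟩))
      intro x hx
      exact key (x.1.1 - p.1.1) x hx (by have := hx.1; omega)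
    · exact disjoint_left.2 fun x a b =>
        c (Prod.ext (Fin.ext (a.1.symm.trans b.1)) (Fin.ext (a.2.symm.trans b.2)))
  refine ⟨_, hC.comp B (fun _ _ => subset_univ _) (fun v _ => hB.2.1 v)
    (fun v _ v' _ => hB.2.2.1 v v') fun v _ v' _ => hB.2.2.2 v v', fun j i' => ?_⟩
  have l : min i'.1 (g - 1) < g := by have := j.2; omega
  exact ⟨⟨_, l⟩, subset_biUnion_of_mem (u := B)
    (show (i', Fin.castLE h j) ∈ C (⟨_, l⟩, j) from ⟨rfl, rfl⟩)⟩

end JBase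

open JBase in
theorem rsS : MainS → HeartJS → LoopS → RawS → RSS := by
  intro hM hH hL hR G
  by_contra hc
  push Not at hc
  obtain ⟨k, q, D, l, hraw⟩ := hR ((G 0).1 + 2)
  have key := hH Par.Wf A0 2 0 k (fun n => ag (G (n + 1)).2) hM pwo0
    (fun n => ⟨rob (plain _), ovr (plain _), names (plain _)⟩) fun ρ => ?_
  · obtain ⟨m, n, hmn, hle⟩ := key
    exact hc (m + 1) (n + 1) (by omega) (minor_of_le hle)
  obtain ⟨w1, g1, θ1, hl⟩ := hL k q 0 D l ρ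
  obtain ⟨g0, θ0, hr⟩ := hraw g1 θ1
  obtain ⟨θ2, h2⟩ := ctrlG0 (g0 + 3 * θ0 + 2) θ0 (by omega) (by omega)
  refine ⟨w1, θ0 + θ1 + θ2, ∅, ∅, finite_empty, finite_empty, fun θ hθ n T e => ?_⟩
  obtain ⟨B, hB, hBc⟩ := h2 _ _ (ag (G (n + 1)).2).inc _ θ T (by omega) (gph (plain _))
  obtain ⟨B', hB', hcol⟩ := coarse (g := g0) (by omega) hB
  obtain ⟨r, B1, b1, b2, b3, b4⟩ := hr _ θ T B' (by omega) (plain _)
    (noK (hc 0 (n + 1) (by omega))) hB' (by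
      rintro U hU ⟨i, j, hij⟩
      refine hBc U hU ⟨Fin.castLE (by omega) j, fun i' => disjoint_left.2 fun v hv hv' => ?_⟩
      obtain ⟨i0, hi0⟩ := hcol j i'
      exact hij v (AG.vs_eq _ U ▸ hv') (mem_iUnion.2 ⟨i0, Or.inr ⟨v, hi0 hv, rfl⟩⟩))
  obtain ⟨t, Sd, ⟨w, hw, Sb, tt, g, R, B2, a1, a2, a3⟩, heg, hho⟩ :=
    hl _ θ T e r g1 B1 (by omega) le_rfl (rob (plain _)) b1 b2 b3 b4
  refine ⟨t, Sd, Sb, fun _ => Md.new, tt, w, g, R, B2, hw, a1, a2, a3, fun j hj => absurd rfl hj,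
    fun A' K' w' σ' t' ty' src hA hs hmk _ => ⟨k, A', w1 + w', w', le_rfl, Or.inl rfl, le_rfl,
      le_rfl, heg, Or.inl rfl, Or.inl (by omega), hmk, hA, hA, fun y hy => ?_⟩⟩
  obtain ⟨j, -, rfl⟩ := Multiset.mem_map.1 hy
  rcases hs.ty j with h | h
  · exact absurd rfl h.1
  · rw [h.1]
    exact hA

end Pool.Agent.MP_9d78a0_co.gm

end MrgPart7

-- ======== part 8: formerly Pool.Agent.MP_9d78a0_co.gm.JTwo
section MrgPart8

/-! Block J: whole sides and fixed nodes; all letters. -/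

set_option autoImplicit false

namespace Pool.Agent.MP_9d78a0_co.gm

open Set Function

namespace JTwo

section sk

variable {s : Sk} {f : s.Φ}

theorem nNd (h : s.Ok) (hf : f ∈ s.M.fl s.vx s.H) : s.vx f ∉ s.Nd := fun k => by
  obtain ⟨n, e⟩ := h.hr.1 hf.2
  obtain ⟨v, e'⟩ := k.2
  rw [← e] at e'
  cases e'

theorem far_po (h : s.Ok) (hf : f ∈ s.M.fl s.vx s.H) : s.far f ∈ s.Po :=
  ⟨_, hf.2, Sk.far_mem_nb h hf.1 (nNd h hf)⟩

theorem far_vt (h : s.Ok) (hf : f ∈ s.M.fl s.vx s.H) : Sum.inl (s.far f) ∈ s.Vt :=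
  ⟨_, h.hm.ok.gk.am hf.1, Sk.vx_far h hf.1 (nNd h hf)⟩

/-- the spokes go to different nodes -/
def Inj (s : Sk) : Prop :=
  ∀ f ∈ s.M.fl s.vx s.H, ∀ f' ∈ s.M.fl s.vx s.H, s.far f = s.far f' → f' = f ∨ f' = s.M.c f

end sk

variable {σ : AG} {t : Sh σ}

theorem φ_succ (j : t.ι) (i : ℕ) : t.φ j (i + 1) = t.s.M.rot (t.φ j i) :=
  iterate_succ_apply' _ _ _

theorem φ_fl (h : t.Ok) (j : t.ι) (i : ℕ) : t.φ j i ∈ t.s.M.fl t.s.vx t.s.H := by
  induction i with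
  | zero => exact h.hole j
  | succ i ih =>
    have hM := h.ok.hm.ok
    rw [φ_succ]
    refine ⟨hM.gk.cm (hM.gk.bm ih.1), ?_⟩
    rw [FM.rot, Gph.vx_c hM h.ok.hm.lbl (hM.gk.bm ih.1), Gph.vx_b hM h.ok.hm.lbl ih.1]
    exact ih.2

theorem u_inj (h : t.Ok) (k : Inj t.s) {j j' : t.ι} {i i' : ℕ} (hi : i ≤ t.m j) (hi' : i' ≤ t.m j')
    (e : t.u j i = t.u j' i') : j = j' ∧ i = i' :=
  (h.sep j j' i hi i' hi').2
    ((k _ (φ_fl h j i) _ (φ_fl h j' i') e).resolve_right (h.sep j j' i hi i' hi').1)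

theorem u_fx (h : t.Ok) (k : Inj t.s) {j : t.ι} {i : ℕ} (hi : i ≤ t.m j) :
    t.u j i ∉ t.s.far '' t.Fx := fun ⟨f, hf, e⟩ =>
  (k _ (φ_fl h j i) f hf.1 e.symm).elim (hf.2 j i hi).1 (hf.2 j i hi).2

theorem lk_ne (h : t.Ok) {j : t.ι} {i : ℕ} (hi : i < t.m j) (v : W) : Sum.inl v ≠ t.lk j i := by
  intro e
  obtain ⟨n, k⟩ : t.lk j i ∈ range Sum.inr :=
    (h.quad j i hi).2.elim (fun q => h.ok.hr.2.1 q) fun q => q.1.2
  rw [← e] at k
  cases k

theorem κ_eq (j : t.ι) (i : ℕ) : t.κ j i = insert (t.u j i) (t.β j i '' Iio (t.d j)) := rfl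

theorem κ_fin (j : t.ι) (i : ℕ) : (t.κ j i).Finite :=
  ((finite_Iio _).image _).insert _

theorem κ_le (j : t.ι) (i : ℕ) : (t.κ j i).ncard ≤ t.d j + 1 := by
  have := ncard_image_le (f := t.β j i) (finite_Iio (t.d j))
  rw [ncard_Iio_nat] at this
  exact (ncard_insert_le _ _).trans (Nat.succ_le_succ this)

/-- the number of marked vertices -/
theorem marks (h : t.Ok) (k : Inj t.s) (lam : t.Λ = ∅)
    (mv : ∀ j, ∀ l < t.d j, t.β j 0 l ≠ t.β j (t.m j) l) (fin : (t.s.far '' t.Fx).Finite) :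
    t.Mk.ncard = ∑ j, (2 * t.d j + 2) + (t.s.far '' t.Fx).ncard := by
  have nl : ∀ v, v ∉ t.Λ := fun v => lam ▸ notMem_empty v
  have nv : ∀ j, ∀ i ≤ t.m j, ∀ l < t.d j, Sum.inl (t.β j i l) ∉ t.s.Vt :=
    fun j i hi l hl => (h.inner j i hi l hl).2 (nl _)
  have uv : ∀ j i, Sum.inl (t.u j i) ∈ t.s.Vt := fun j i => far_vt h.ok (φ_fl h j i)
  have c1 : ∀ j, ∀ i ≤ t.m j, (t.κ j i).ncard = t.d j + 1 := fun j i hi => by
    rw [κ_eq, ncard_insert_of_notMem _ ((finite_Iio _).image _), InjOn.ncard_image, ncard_Iio_nat]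
    · exact fun l hl l' hl' e => (h.priv j j i hi i hi l hl l' hl' (nl _) e).2
    · rintro ⟨l, hl, e⟩
      exact nv j i hi l hl (e ▸ uv j i)
  have meet : ∀ j j', ∀ i ≤ t.m j, ∀ i' ≤ t.m j', ∀ v ∈ t.κ j i, v ∈ t.κ j' i' →
      j = j' ∧ (i = i' ∨ ∃ l < t.d j, t.β j i l = t.β j' i' l) := by
    rintro j j' i hi i' hi' v (rfl | ⟨l, hl, rfl⟩) (e | ⟨l', hl', e⟩)
    · exact (u_inj h k hi hi' e).imp_right Or.inl
    · exact (nv j' i' hi' l' hl' (e ▸ uv j i)).elim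
    · exact (nv j i hi l hl ((show t.β j i l = t.u j' i' from e) ▸ uv j' i')).elim
    · obtain ⟨e1, rfl⟩ := h.priv j j' i hi i' hi' l hl l' hl' (nl _) e.symm
      exact ⟨e1, Or.inr ⟨l, hl, e.symm⟩⟩
  have c2 : ∀ j, (t.κ j 0 ∪ t.κ j (t.m j)).ncard = 2 * t.d j + 2 := fun j => by
    rw [ncard_union_eq _ (κ_fin j _) (κ_fin j _), c1 j 0 (Nat.zero_le _), c1 j _ le_rfl]
    · omega
    · refine Set.disjoint_left.2 fun v a b => ?_
      rcases (meet j j 0 (Nat.zero_le _) _ le_rfl v a b).2 with e | ⟨l, hl, e⟩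
      · exact (h.len j).ne e
      · exact mv j l hl e
  have two : ∀ j, ∀ v ∈ t.κ j 0 ∪ t.κ j (t.m j), ∃ i ≤ t.m j, v ∈ t.κ j i := fun j v q =>
    q.elim (fun q => ⟨0, Nat.zero_le _, q⟩) fun q => ⟨_, le_rfl, q⟩
  have f2 : ∀ j, (t.κ j 0 ∪ t.κ j (t.m j)).Finite := fun j => (κ_fin j _).union (κ_fin j _)
  rw [Sh.Mk, ncard_union_eq _ (finite_iUnion f2) fin, ncard_iUnion_of_finite f2,
    finsum_eq_sum_of_fintype, Finset.sum_congr rfl fun j _ => c2 j]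
  · intro j j' ne
    refine Set.disjoint_left.2 fun v a b => ?_
    obtain ⟨i, hi, a⟩ := two j v a
    obtain ⟨i', hi', b⟩ := two j' v b
    exact ne (meet j j' i hi i' hi' v a b).1
  · refine Set.disjoint_left.2 fun v a b => ?_
    obtain ⟨j, a⟩ := mem_iUnion.1 a
    obtain ⟨i, hi, rfl | ⟨l, hl, rfl⟩⟩ := two j v a
    · exact u_fx h k hi b
    · obtain ⟨f, hf, e⟩ := b
      exact nv j i hi l hl (e ▸ far_vt h.ok hf.1)

theorem uniq {p : ℕ → Prop} (h : ∀ a b, p a → p b → a < b → False) : ∃ c, ∀ a, p a → a = c := by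
  by_cases q : ∃ c, p c
  · obtain ⟨c, hc⟩ := q
    exact ⟨c, fun a ha => le_antisymm (not_lt.1 (h c a hc ha)) (not_lt.1 (h a c ha hc))⟩
  · exact ⟨0, fun a ha => (q ⟨a, ha⟩).elim⟩

/-- the cuts on the boundary of the seed -/
theorem border {E : Set MV} {S : Set t.ι} (pf : ∀ j, t.Pfx E j)
    (off : ∀ j ∉ S, ∀ i ≤ t.m j, Sum.inl (t.u j i) ∈ E) :
    (⋃ q ∈ t.Bor E fun _ _ => False, t.κ q.1 q.2).ncard + Fintype.card t.ι ≤
      ∑ j, (2 * t.d j + 2) + S.ncard := by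
  classical
  have one : ∀ j, (⋃ i ∈ {i | (j, i) ∈ t.Bor E fun _ _ => False}, t.κ j i).ncard + 1 ≤
      2 * t.d j + 2 + if j ∈ S then 1 else 0 := fun j => by
    split_ifs with q
    · obtain ⟨lo, hlo⟩ := uniq (p := fun i => i ≤ t.m j ∧ Sum.inl (t.u j i) ∉ E ∧
          (i = 0 ∨ Sum.inl (t.u j (i - 1)) ∈ E)) fun a b ha hb ab =>
        (pf j a (b - 1) b (by omega) (by omega) hb.1 (hb.2.2.resolve_left (by omega))).elim
          ha.2.1 hb.2.1
      obtain ⟨hi, hhi⟩ := uniq (p := fun i => i ≤ t.m j ∧ Sum.inl (t.u j i) ∉ E ∧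
          (i = t.m j ∨ Sum.inl (t.u j (i + 1)) ∈ E)) fun a b ha hb ab =>
        (pf j a (a + 1) b (by omega) (by omega) hb.1
          (ha.2.2.resolve_left (by have := hb.1; omega))).elim ha.2.1 hb.2.1
      have sub : (⋃ i ∈ {i | (j, i) ∈ t.Bor E fun _ _ => False}, t.κ j i) ⊆
          t.κ j lo ∪ t.κ j hi := by
        refine iUnion₂_subset fun i ⟨a, b, c⟩ => ?_
        rcases c with c | c | (c | c | c) | c | c | c
        · exact hlo i ⟨a, b, Or.inl c⟩ ▸ subset_union_left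
        · exact hhi i ⟨a, b, Or.inl c⟩ ▸ subset_union_right
        · exact c.elim
        · exact hlo i ⟨a, b, Or.inr c⟩ ▸ subset_union_left
        · rcases Nat.eq_zero_or_pos i with z | z
          · exact hlo i ⟨a, b, Or.inl z⟩ ▸ subset_union_left
          · exact (b (by rwa [Nat.sub_add_cancel z] at c)).elim
        · exact c.elim
        · exact (b c).elim
        · exact hhi i ⟨a, b, Or.inr c⟩ ▸ subset_union_right
      have := (ncard_le_ncard sub ((κ_fin j _).union (κ_fin j _))).trans (ncard_union_le _ _)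
      have := κ_le j lo
      have := κ_le j hi
      omega
    · have : {i | (j, i) ∈ t.Bor E fun _ _ => False} = ∅ :=
        eq_empty_of_forall_notMem fun i a => a.2.1 (off j q i a.1)
      simp [this]
  have e : (⋃ q ∈ t.Bor E fun _ _ => False, t.κ q.1 q.2) =
      ⋃ j, ⋃ i ∈ {i | (j, i) ∈ t.Bor E fun _ _ => False}, t.κ j i := by
    ext v
    simp only [mem_iUnion, Prod.exists, mem_ofPred_eq]
  have a := Finset.sum_le_sum (s := Finset.univ) fun j _ => one j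
  have b := ncard_iUnion_le_of_fintype fun j =>
    ⋃ i ∈ {i | (j, i) ∈ t.Bor E fun _ _ => False}, t.κ j i
  have c : (Finset.univ.filter fun j => j ∈ S).card = S.ncard := by
    rw [← ncard_coe_finset]
    simp
  rw [Finset.sum_add_distrib, Finset.sum_add_distrib (g := fun j => if j ∈ S then 1 else 0),
    Finset.sum_boole, Nat.cast_id, c, Finset.sum_const, Finset.card_univ, smul_eq_mul,
    mul_one] at a
  rw [e]
  omega

theorem preO_mono {p : Par} {x : TM p} {θ g : ℕ} {T : Tangle x.σ.f θ} {e : x.σ.ε}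
    {Ω Ω' : Set Lab} {B : Fin g × Fin g → Set MV} {w R : ℕ} (h : PreO x T e Ω B w R)
    (k : Ω ⊆ Ω') : PreO x T e Ω' B w R := by
  obtain ⟨Sd, Sb, md, tt, a, b, c⟩ := h
  exact ⟨Sd, Sb, md, tt, a, fun j => (b j).imp_right fun q => ⟨q.1, fun i hi n =>
    (q.2 i hi n).imp fun _ r => ⟨k r.1, r.2⟩⟩, c⟩

end JTwo

open JTwo

theorem j2S (tame : TameS) (pos : PosS) (sup : SupS) (dead : DeadS) (seed : SeedS)
    (mk : MkPreS) : J2S := by
  intro p
  obtain ⟨n, hn⟩ := tame p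
  obtain ⟨w, R1, hw⟩ := mk p (6 * n)
  refine ⟨w, max R1 (2 * n + 1), fun x θ g R T e B hR c => ?_⟩
  obtain ⟨-, cι, fS, cS, -, -, -, -, -, -, -, -, -, -, po, -⟩ := hn x
  have ok := x.h.ok
  have R0 : 1 ≤ R := by omega
  have inj : Inj x.t.s := (pos _ g R B ok.ok ok.spoke c.grid c.frame R0).1
  refine or_iff_not_imp_left.2 fun nf => ?_
  simp only [Sh.Fr, FM.Free, not_forall, not_exists, not_and, exists_prop] at nf
  obtain ⟨X, XN, fX, dX, J, JI, lt, cut⟩ := nf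
  have fx : x.t.Fx ⊆ x.t.Sg := subset_union_left
  have fF : (x.t.s.far '' x.t.Fx).Finite := (fS.subset fx).image _
  have cF : (x.t.s.far '' x.t.Fx).ncard ≤ n :=
    (ncard_image_le (fS.subset fx)).trans ((ncard_le_ncard fx fS).trans cS)
  have mI : ∀ j, Sum.inl (j, 0) ∈ x.t.tI fun _ _ => False := fun j =>
    Or.inl ⟨_, ⟨Nat.zero_le _, Or.inl rfl⟩, rfl⟩
  have mU : ∀ j, ∀ i ≤ x.t.m j, Sum.inl (x.t.u j i) ∈ x.t.seg (fun _ _ => False) (Sum.inl (j, 0)) :=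
    fun j i hi => ⟨i, Nat.zero_le _, hi, fun _ _ _ => id, Or.inl rfl⟩
  have sI : (x.t.tI fun _ _ => False) ⊆
      (fun j => Sum.inl (j, 0)) '' univ ∪ Sum.inr '' (x.t.s.far '' x.t.Fx) := by
    rintro _ (⟨⟨j, i⟩, ⟨-, rfl | q⟩, rfl⟩ | q)
    · exact Or.inl ⟨j, trivial, rfl⟩
    · exact q.elim
    · exact Or.inr q
  have f1 := (finite_univ.image fun j : x.t.ι => (Sum.inl (j, 0) : (x.t.ι × ℕ) ⊕ W)).union
    (fF.image Sum.inr)
  have cI : (x.t.tI fun _ _ => False).ncard ≤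
      Fintype.card x.t.ι + (x.t.s.far '' x.t.Fx).ncard := by
    refine ((ncard_le_ncard sI f1).trans (ncard_union_le _ _)).trans
      (add_le_add ((ncard_image_le finite_univ).trans ?_) (ncard_image_le fF))
    rw [ncard_univ, Nat.card_eq_fintype_card]
  have fJ : J.Finite := (f1.subset sI).subset JI
  have cJ : {j | Sum.inl (j, 0) ∈ J}.ncard + {v | Sum.inr v ∈ J}.ncard ≤ J.ncard := by
    have s : (fun j => Sum.inl (j, 0)) '' {j | Sum.inl (j, 0) ∈ J} ∪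
        Sum.inr '' {v | Sum.inr v ∈ J} ⊆ J := by
      rintro _ (⟨j, q, rfl⟩ | ⟨v, q, rfl⟩) <;> exact q
    have := ncard_le_ncard s fJ
    rwa [ncard_union_eq _ (fJ.subset (subset_union_left.trans s))
      (fJ.subset (subset_union_right.trans s)), ncard_image_of_injective _ Sum.inr_injective,
      ncard_image_of_injective _ fun a b q => (Prod.mk.inj (Sum.inl.inj q)).1] at this
    refine Set.disjoint_left.2 ?_
    rintro _ ⟨j, -, rfl⟩ ⟨v, -, q⟩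
    cases q
  -- the nodes of a terminal off `J` are dead
  have dd : ∀ i ∈ (x.t.tI fun _ _ => False) \ J, ∀ v,
      Sum.inl v ∈ x.t.seg (fun _ _ => False) i → ¬ x.t.s.Live (big x.t.s.G B x.t.s.T
        (X ∪ (Sum.inl '' x.t.s.Po ∩ ⋃ i ∈ J, x.t.seg (fun _ _ => False) i))) v := by
    intro i hi v hv
    refine sup p x g B _ X J v c.grid JI ?_ fun q => cut i hi ⟨_, hv, q⟩
    rintro (q | q)
    · exact Set.disjoint_left.1 (dX i hi.1) q hv
    obtain ⟨i', hi', q⟩ := mem_iUnion₂.1 q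
    have side : ∀ j, Sum.inl v ∈ x.t.seg (fun _ _ => False) (Sum.inl (j, 0)) →
        ∃ k ≤ x.t.m j, v = x.t.u j k := by
      rintro j ⟨k, -, hk, -, r | ⟨z, r⟩⟩
      · exact ⟨k, hk, Sum.inl.inj r⟩
      · exact (lk_ne ok ((Nat.sub_one_lt z.ne').trans_le hk) v r).elim
    rcases sI hi.1 with ⟨j, -, rfl⟩ | ⟨a, ha, rfl⟩ <;>
      rcases sI (JI hi') with ⟨j', -, rfl⟩ | ⟨a', ha', rfl⟩
    · obtain ⟨k, hk, rfl⟩ := side j hv
      obtain ⟨k', hk', r⟩ := side j' q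
      exact hi.2 ((u_inj ok inj hk hk' r).1 ▸ hi')
    · obtain ⟨k, hk, rfl⟩ := side j hv
      exact u_fx ok inj hk ((Sum.inl.inj q).symm ▸ ha')
    · obtain ⟨k, hk, rfl⟩ := side j' q
      exact u_fx ok inj hk ((Sum.inl.inj hv).symm ▸ ha)
    · exact hi.2 ((Sum.inl.inj hv).symm.trans (Sum.inl.inj q) ▸ hi')
  have XP : X ⊆ x.t.s.Nd \ Sum.inl '' x.t.s.Po := by
    refine fun z hz => ⟨XN hz, ?_⟩
    rintro ⟨v, hv, rfl⟩
    rcases po v hv with q | ⟨j, i, hi, rfl⟩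
    · exact Set.disjoint_left.1 (dX (Sum.inr v) (Or.inr ⟨v, q, rfl⟩)) hz rfl
    · exact Set.disjoint_left.1 (dX _ (mI j)) hz (mU j i hi)
  set K := big x.t.s.G B x.t.s.T
    (X ∪ (Sum.inl '' x.t.s.Po ∩ ⋃ i ∈ J, x.t.seg (fun _ _ => False) i)) with hK
  set Q : Set W := {v | (v ∈ x.t.s.far '' x.t.Fx ∨ ∃ j, v = x.t.u j 0 ∨ v = x.t.u j (x.t.m j)) ∧
    ¬ x.t.s.Live K v} with hQ
  have QS : Q ⊆ x.t.s.far '' x.t.Sg := by
    rintro v ⟨q | ⟨j, rfl | rfl⟩, -⟩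
    · exact image_mono fx q
    · exact ⟨_, Or.inr ⟨j, Or.inl rfl⟩, rfl⟩
    · exact ⟨_, Or.inr ⟨j, Or.inr (Or.inr (Or.inl rfl))⟩, rfl⟩
  have cQ : Q.ncard ≤ n := (ncard_le_ncard QS (fS.image _)).trans ((ncard_image_le fS).trans cS)
  have QP : Q ⊆ x.t.s.Po := by
    rintro v ⟨⟨f, hf, rfl⟩ | ⟨j, rfl | rfl⟩, -⟩
    · exact far_po ok.ok hf.1
    · exact far_po ok.ok (φ_fl ok j _)
    · exact far_po ok.ok (φ_fl ok j _)
  have := c.le.1
  obtain ⟨E, hE, QE, cB, live, pf⟩ := (dead p x g R B c.grid c.frame R0).2 X _ Q XP fX (by omega)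
    (by omega) inter_subset_left QP fun v hv => hv.2
  have pf' : ∀ j, x.t.Pfx E j := fun j => pf j fun i h0 hi q => by
    rcases q.1 with q | ⟨j', q | q⟩
    · exact u_fx ok inj hi.le q
    · exact h0.ne' (u_inj ok inj hi.le (Nat.zero_le _) q).2
    · obtain ⟨rfl, r⟩ := u_inj ok inj hi.le le_rfl q
      exact hi.ne r
  have off : ∀ j ∉ {j | Sum.inl (j, 0) ∈ J}, ∀ i ≤ x.t.m j, Sum.inl (x.t.u j i) ∈ E := by
    intro j hj i hi
    induction i with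
    | zero => exact QE ⟨_, ⟨Or.inr ⟨j, Or.inl rfl⟩, dd _ ⟨mI j, hj⟩ _ (mU j 0 hi)⟩, rfl⟩
    | succ i ih =>
      by_contra q
      exact dd _ ⟨mI j, hj⟩ _ (mU j _ hi) (live _ ⟨q, _, φ_fl ok j i, ih (by omega),
        congrArg x.t.s.far (φ_succ j i).symm⟩)
  refine ⟨_, _, fun _ => Md.keep, fun j _ => x.ty j, hw x θ g R T e B X E (fun _ _ => False) _ _
    (by omega) c hE (by omega) (by omega) (by simp) (by simp)
    fun j => Or.inl ⟨rfl, fun _ => id, pf' j, fun _ => rfl⟩,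
    fun j => Or.inl ⟨rfl, fun _ => rfl⟩, Or.inr ?_⟩
  have fB : (⋃ q ∈ x.t.Bor E fun _ _ => False, x.t.κ q.1 q.2).Finite :=
    (finite_iUnion fun j => (finite_Iic (x.t.m j)).biUnion fun i _ => κ_fin j i).subset
      (iUnion₂_subset fun q hq v hv => mem_iUnion.2 ⟨q.1, mem_biUnion hq.1 hv⟩)
  have fV : {v | Sum.inr v ∈ J}.Finite := fJ.preimage Sum.inr_injective.injOn
  have sb : x.σ.bd (x.t.seed E fun _ _ => False) ⊆ nodeOf '' X ∪ {v | Sum.inr v ∈ J} ∪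
      ⋃ q ∈ x.t.Bor E fun _ _ => False, x.t.κ q.1 q.2 := by
    refine (seed p x g R B X E _ c.grid c.frame R0 hE).2.trans
      (union_subset_union_left _ (union_subset_union_right _ fun v hv => ?_))
    by_contra q
    exact hv.2 (QE ⟨v, ⟨Or.inl hv.1, dd (Sum.inr v) ⟨Or.inr ⟨v, hv.1, rfl⟩, q⟩ v rfl⟩, rfl⟩)
  have a1 := (ncard_le_ncard sb (((fX.image _).union fV).union fB)).trans (ncard_union_le _ _)
  have a2 := ncard_union_le (nodeOf '' X) {v | Sum.inr v ∈ J}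
  have a3 := ncard_image_le (f := nodeOf) fX
  have a4 := border pf' off
  have a5 := marks ok inj x.h.lam x.h.move fF
  have a6 := x.h.marks
  show (x.σ.bd (x.t.seed E fun _ _ => False)).ncard < p.c
  omega

theorem j23S (j2 : J2S) (one : OneS) : J23S := by
  classical
  intro p x0
  obtain ⟨w1, R1, h1⟩ := j2 p
  obtain ⟨w2, R2, h2⟩ := one p (∑ j, x0.t.m j)
  refine ⟨⋃ j, x0.t.letter j '' Iio (x0.t.m j), max w1 w2, max R1 R2,
    finite_iUnion fun j => (finite_Iio _).image _, fun x θ g R T e B eq hR c ty => ?_⟩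
  refine or_iff_not_imp_right.2 fun np => ?_
  have key : ∀ s : Finset x0.t.ι, ∃ ch : x0.t.ι → ℕ → ℕ, (∀ j ∈ s, Ch1 x0 x j (eq j) (ch j)) ∧
      x.t.Fr B (fun a i => eq.symm a ∈ s ∧ chosen x0 x eq ch a i) x.t.s.Nd := by
    intro s
    induction s using Finset.induction_on with
    | empty =>
      refine ⟨fun _ _ => 0, by simp, ?_⟩
      simp only [Finset.notMem_empty, false_and]
      exact (h1 x θ g R T e B (by omega) c).resolve_right fun q =>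
        np ⟨w1, le_max_left _ _, preO_mono q (empty_subset _)⟩
    | insert j s hj ih =>
      obtain ⟨ch, a, b⟩ := ih
      have sub : {q : x.t.ι × ℕ | eq.symm q.1 ∈ s ∧ chosen x0 x eq ch q.1 q.2} ⊆
          ⋃ j, (fun k => (eq j, ch j k)) '' Iio (x0.t.m j) := by
        rintro ⟨a, i⟩ ⟨-, k, hk, q⟩
        exact mem_iUnion.2 ⟨eq.symm a, k, hk, Prod.ext (eq.apply_symm_apply a) q⟩
      have fin := finite_iUnion fun j => (finite_Iio (x0.t.m j)).image fun k => (eq j, ch j k)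
      obtain ⟨c', a', b'⟩ := (h2 x0 x θ g R T e B j (eq j) _ (by omega) c (ty j)
        (Finset.single_le_sum (fun _ _ => Nat.zero_le _) (Finset.mem_univ j))
        (fun i q => hj (by simpa using q.1)) (fin.subset sub)
        (((ncard_le_ncard sub fin).trans (ncard_iUnion_le_of_fintype _)).trans
          (Finset.sum_le_sum fun j _ => (ncard_image_le (finite_Iio _)).trans_eq
            (ncard_Iio_nat _))) b).resolve_right fun q =>
        np ⟨w2, le_max_right _ _,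
          preO_mono q (subset_iUnion (fun j => x0.t.letter j '' Iio (x0.t.m j)) j)⟩
      refine ⟨update ch j c', fun k hk => ?_, ?_⟩
      · rcases Finset.mem_insert.1 hk with rfl | hk
        · rwa [update_self]
        · rw [update_of_ne (ne_of_mem_of_not_mem hk hj)]
          exact a k hk
      · convert b' using 3 with a i
        obtain ⟨k, rfl⟩ := eq.surjective a
        simp only [chosen, Equiv.symm_apply_apply, Finset.mem_insert, EmbeddingLike.apply_eq_iff_eq]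
        by_cases q : k = j
        · subst q
          simp [hj]
        · simp [q]
  obtain ⟨ch, a, b⟩ := key Finset.univ
  exact ⟨ch, fun j => a j (Finset.mem_univ j), by simpa only [Finset.mem_univ, true_and] using b⟩

end Pool.Agent.MP_9d78a0_co.gm

end MrgPart8

-- ======== part 9: formerly Pool.Agent.MP_9d78a0_co.gm.JOne
section MrgPart9

/-! Block J: the letters of one side. -/

set_option autoImplicit false

namespace Pool.Agent.MP_9d78a0_co.gm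

open Set Function JTwo

namespace JOne

variable {σ : AG} {t : Sh σ} {C : t.ι → ℕ → Prop}

/-- one more chosen bag -/
def add (C : t.ι → ℕ → Prop) (j : t.ι) (i : ℕ) : t.ι → ℕ → Prop :=
  fun b k => C b k ∨ (b = j ∧ k = i)

theorem inl_tI {j : t.ι} {a : ℕ} :
    Sum.inl (j, a) ∈ t.tI C ↔ a ≤ t.m j ∧ (a = 0 ∨ C j (a - 1)) := by
  simp [Sh.tI]

theorem u_seg {j : t.ι} {a i : ℕ} (h1 : a ≤ i) (h2 : i ≤ t.m j) (h3 : ∀ k, a ≤ k → k < i → ¬ C j k) :
    Sum.inl (t.u j i) ∈ t.seg C (Sum.inl (j, a)) := ⟨i, h1, h2, h3, Or.inl rfl⟩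

theorem cover (j : t.ι) : ∀ i ≤ t.m j, ∃ a, Sum.inl (j, a) ∈ t.tI C ∧ a ≤ i ∧
    ∀ k, a ≤ k → k < i → ¬ C j k := by
  intro i hi
  induction i with
  | zero => exact ⟨0, inl_tI.2 ⟨hi, Or.inl rfl⟩, le_rfl, fun _ _ k => absurd k (Nat.not_lt_zero _)⟩
  | succ i ih =>
    by_cases c : C j i
    · exact ⟨i + 1, inl_tI.2 ⟨hi, Or.inr c⟩, le_rfl, fun _ a b => by omega⟩
    · obtain ⟨a, a1, a2, a3⟩ := ih (by omega)
      exact ⟨a, a1, by omega, fun k b1 b2 => if e : k = i then e ▸ c else a3 k b1 (by omega)⟩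

theorem seg_sub (h : t.Ok) {q : (t.ι × ℕ) ⊕ W} (hq : q ∈ t.tI C) {z : MV} (hz : z ∈ t.seg C q)
    (hn : z ∈ t.s.Nd) : z ∈ Sum.inl '' t.s.Po := by
  rcases hq with ⟨⟨j, a⟩, -, rfl⟩ | ⟨_, ⟨f, hf, rfl⟩, rfl⟩
  · obtain ⟨i, -, hi, -, rfl | ⟨l, rfl⟩⟩ := hz
    · exact ⟨_, far_po h.ok (φ_fl h j i), rfl⟩
    · obtain ⟨v, e⟩ := hn.2
      exact (lk_ne h ((Nat.sub_one_lt (by omega)).trans_le hi) v e).elim
  · exact ⟨_, far_po h.ok hf.1, hz.symm⟩

theorem seg_uniq (h : t.Ok) (inj : JTwo.Inj t.s) {q : (t.ι × ℕ) ⊕ W} (hq : q ∈ t.tI C) {j : t.ι}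
    {a i : ℕ} (ha : Sum.inl (j, a) ∈ t.tI C) (h1 : a ≤ i) (h2 : i ≤ t.m j)
    (h3 : ∀ k, a ≤ k → k < i → ¬ C j k) (hz : Sum.inl (t.u j i) ∈ t.seg C q) :
    q = Sum.inl (j, a) := by
  rcases id hq with ⟨⟨b, s⟩, -, rfl⟩ | ⟨v, hv, rfl⟩
  · obtain ⟨i', b1, b2, b3, e | ⟨l, e⟩⟩ := hz
    · obtain ⟨rfl, rfl⟩ := u_inj h inj h2 b2 (Sum.inl.inj e)
      have k1 := (inl_tI.1 hq).2
      have k2 := (inl_tI.1 ha).2
      dsimp only at b1 b3
      obtain rfl : s = a := by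
        by_contra ne
        rcases Nat.lt_or_gt_of_ne ne with l | l
        · exact b3 (a - 1) (by omega) (by omega) (k2.resolve_left (by omega))
        · exact h3 (s - 1) (by omega) (by omega) (k1.resolve_left (by omega))
      rfl
    · exact (lk_ne h ((Nat.sub_one_lt (by omega)).trans_le b2) _ e).elim
  · exact (u_fx h inj h2 ((Sum.inl.inj hz).symm ▸ hv)).elim

theorem seg_add {j : t.ι} {i : ℕ} (q : (t.ι × ℕ) ⊕ W) : t.seg (add C j i) q ⊆ t.seg C q := by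
  rcases q with ⟨b, s⟩ | v
  · exact fun _ ⟨l, a1, a2, a3, a4⟩ => ⟨l, a1, a2, fun k b1 b2 c => a3 k b1 b2 (Or.inl c), a4⟩
  · exact subset_rfl

theorem seg_add' {j : t.ι} {a i : ℕ} (ha : Sum.inl (j, a) ∈ t.tI C) (hi : a ≤ i)
    (no : ∀ k, a ≤ k → ¬ C j k) {q : (t.ι × ℕ) ⊕ W} (hq : q ∈ t.tI C) (ne : q ≠ Sum.inl (j, a)) :
    t.seg C q ⊆ t.seg (add C j i) q := by
  rcases q with ⟨b, s⟩ | v
  · rintro _ ⟨l, a1, a2, a3, a4⟩
    refine ⟨l, a1, a2, ?_, a4⟩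
    rintro k b1 b2 (c | ⟨rfl, rfl⟩)
    · exact a3 k b1 b2 c
    · have k1 := (inl_tI.1 hq).2
      have k2 := (inl_tI.1 ha).2
      have : s ≠ a := fun e => ne (by rw [e])
      dsimp only at *
      rcases Nat.lt_or_gt_of_ne this with l | l
      · exact a3 (a - 1) (by omega) (by omega) (k2.resolve_left (by omega))
      · exact no (s - 1) (by omega) (k1.resolve_left (by omega))
  · exact subset_rfl

theorem tI_add {j : t.ι} {i : ℕ} (hi : i < t.m j) :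
    t.tI (add C j i) = insert (Sum.inl (j, i + 1)) (t.tI C) := by
  ext (⟨b, s⟩ | v)
  · simp only [mem_insert_iff, inl_tI, add, Sum.inl.injEq, Prod.mk.injEq]
    constructor
    · rintro ⟨a, c | c | ⟨rfl, c⟩⟩
      · exact Or.inr ⟨a, Or.inl c⟩
      · exact Or.inr ⟨a, Or.inr c⟩
      · by_cases z : s = 0
        · exact Or.inr ⟨a, Or.inl z⟩
        · exact Or.inl ⟨rfl, by omega⟩
    · rintro (⟨rfl, rfl⟩ | ⟨a, c | c⟩)
      · exact ⟨hi, Or.inr (Or.inr ⟨rfl, rfl⟩)⟩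
      · exact ⟨a, Or.inl c⟩
      · exact ⟨a, Or.inr (Or.inl c)⟩
  · simp [Sh.tI]

theorem tI_card {n N : ℕ} (h1 : Fintype.card t.ι ≤ n) (h2 : t.Sg.Finite) (h3 : t.Sg.ncard ≤ n)
    (h4 : {q : t.ι × ℕ | C q.1 q.2}.Finite) (h5 : {q : t.ι × ℕ | C q.1 q.2}.ncard ≤ N) :
    (t.tI C).Finite ∧ (t.tI C).ncard ≤ 2 * n + N := by
  have fx : t.Fx ⊆ t.Sg := subset_union_left
  have f1 := finite_univ.image fun j : t.ι => (Sum.inl (j, 0) : (t.ι × ℕ) ⊕ W)
  have f2 := h4.image fun q => (Sum.inl (q.1, q.2 + 1) : (t.ι × ℕ) ⊕ W)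
  have f3 := (h2.subset fx).image fun f => (Sum.inr (t.s.far f) : (t.ι × ℕ) ⊕ W)
  have sub : t.tI C ⊆ ((fun j => Sum.inl (j, 0)) '' univ ∪ (fun q => Sum.inl (q.1, q.2 + 1)) ''
      {q : t.ι × ℕ | C q.1 q.2}) ∪ (fun f => Sum.inr (t.s.far f)) '' t.Fx := by
    rintro _ (⟨⟨j, i⟩, ⟨-, q⟩, rfl⟩ | ⟨_, ⟨f, hf, rfl⟩, rfl⟩)
    · rcases i with _ | i
      · exact Or.inl (Or.inl ⟨j, trivial, rfl⟩)
      · exact Or.inl (Or.inr ⟨(j, i), q.resolve_left (Nat.succ_ne_zero i), rfl⟩)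
    · exact Or.inr ⟨f, hf, rfl⟩
  refine ⟨((f1.union f2).union f3).subset sub, ?_⟩
  have c0 := (ncard_le_ncard sub ((f1.union f2).union f3)).trans (ncard_union_le _ _)
  have c1 := ncard_union_le ((fun j : t.ι => (Sum.inl (j, 0) : (t.ι × ℕ) ⊕ W)) '' univ)
    ((fun q => Sum.inl (q.1, q.2 + 1)) '' {q : t.ι × ℕ | C q.1 q.2})
  have c2 := ncard_image_le (f := fun j : t.ι => (Sum.inl (j, 0) : (t.ι × ℕ) ⊕ W)) finite_univ
  have c3 := ncard_image_le (f := fun q : t.ι × ℕ => (Sum.inl (q.1, q.2 + 1) : (t.ι × ℕ) ⊕ W)) h4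
  have c4 := ncard_image_le (f := fun f => (Sum.inr (t.s.far f) : (t.ι × ℕ) ⊕ W)) (h2.subset fx)
  have c5 := ncard_le_ncard fx h2
  rw [ncard_univ, Nat.card_eq_fintype_card] at c2
  omega

variable {p : Par} {x : TM p} {g R : ℕ} {B : Fin g × Fin g → Set MV}

/-- a bag that cannot be chosen: the positions on its left or those on its right are dead -/
theorem stuck (big : BigS) (sup : SupS) (grid : x.t.s.Grid B) (inj : JTwo.Inj x.t.s)
    (po : ∀ v ∈ x.t.s.Po, v ∈ x.t.s.far '' x.t.Fx ∨ ∃ j, ∃ i ≤ x.t.m j, v = x.t.u j i)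
    {C : x.t.ι → ℕ → Prop} {j : x.t.ι} {a i : ℕ} (fin : (x.t.tI C).Finite)
    (fr : x.t.Fr B C x.t.s.Nd) (ha : Sum.inl (j, a) ∈ x.t.tI C) (no : ∀ k, a ≤ k → ¬ C j k)
    (h1 : a ≤ i) (h2 : i < x.t.m j) (nf : ¬ x.t.Fr B (add C j i) x.t.s.Nd) :
    ∃ X Y : Set MV, X ⊆ x.t.s.Nd \ Sum.inl '' x.t.s.Po ∧ X.Finite ∧ X.ncard ≤ (x.t.tI C).ncard ∧
      Y ⊆ Sum.inl '' x.t.s.Po ∧
      ((∀ l, a ≤ l → l ≤ i → ¬ x.t.s.Live (gm.big x.t.s.G B x.t.s.T (X ∪ Y)) (x.t.u j l)) ∨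
        ∀ l, i + 1 ≤ l → l ≤ x.t.m j →
          ¬ x.t.s.Live (gm.big x.t.s.G B x.t.s.T (X ∪ Y)) (x.t.u j l)) := by
  have ok := x.h.ok
  simp only [Sh.Fr, FM.Free, not_forall, not_exists, not_and, exists_prop] at nf
  obtain ⟨X, XN, fX, dX, J, JI, lt, cut⟩ := nf
  have nR : Sum.inl (j, i + 1) ∉ x.t.tI C := fun c =>
    no i h1 ((inl_tI.1 c).2.resolve_left (by omega))
  have eI := tI_add (C := C) h2
  have cI : (x.t.tI (add C j i)).ncard = (x.t.tI C).ncard + 1 := by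
    rw [eI, ncard_insert_of_notMem nR fin]
  have mL : Sum.inl (j, a) ∈ x.t.tI (add C j i) := eI ▸ Or.inr ha
  have mR : Sum.inl (j, i + 1) ∈ x.t.tI (add C j i) := eI ▸ Or.inl rfl
  have XP : X ⊆ x.t.s.Nd \ Sum.inl '' x.t.s.Po := by
    refine fun z hz => ⟨XN hz, ?_⟩
    rintro ⟨v, hv, rfl⟩
    rcases po v hv with q | ⟨b, l, hl, rfl⟩
    · exact disjoint_left.1 (dX (Sum.inr v) (Or.inr ⟨v, q, rfl⟩)) hz rfl
    · obtain ⟨s, s1, s2, s3⟩ := cover (C := add C j i) b l hl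
      exact disjoint_left.1 (dX _ s1) hz (u_seg s2 hl s3)
  have dd : ∀ s l, Sum.inl (j, s) ∈ x.t.tI (add C j i) \ J → s ≤ l → l ≤ x.t.m j →
      (∀ k, s ≤ k → k < l → ¬ add C j i j k) → ¬ x.t.s.Live (gm.big x.t.s.G B x.t.s.T
        (X ∪ (Sum.inl '' x.t.s.Po ∩ ⋃ q ∈ J, x.t.seg (add C j i) q))) (x.t.u j l) := by
    intro s l hs s1 s2 s3
    refine sup p x g B _ X J _ grid JI ?_ fun q => cut _ hs ⟨_, u_seg s1 s2 s3, q⟩
    rintro (q | q)
    · exact disjoint_left.1 (dX _ hs.1) q (u_seg s1 s2 s3)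
    · obtain ⟨q, hq, z⟩ := mem_iUnion₂.1 q
      exact hs.2 (seg_uniq ok inj (JI hq) hs.1 s1 s2 s3 z ▸ hq)
  refine ⟨X, _, XP, fX, by omega, inter_subset_left (t := ⋃ q ∈ J, x.t.seg (add C j i) q), ?_⟩
  by_cases cL : Sum.inl (j, a) ∈ J
  swap
  · refine Or.inl fun l l1 l2 => dd a l ⟨mL, cL⟩ l1 (by omega) ?_
    rintro k k1 k2 (c | ⟨-, c⟩)
    · exact no k k1 c
    · omega
  by_cases cR : Sum.inl (j, i + 1) ∈ J
  swap
  · refine Or.inr fun l l1 l2 => dd (i + 1) l ⟨mR, cR⟩ l1 l2 ?_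
    rintro k k1 k2 (c | ⟨-, c⟩)
    · exact no k (by omega) c
    · omega
  exfalso
  have fJ : J.Finite := (eI ▸ fin.insert _).subset JI
  have cJ := ncard_sdiff_singleton_add_one cR fJ
  have sJ : J \ {Sum.inl (j, i + 1)} ⊆ x.t.tI C := fun q hq =>
    (mem_insert_iff.1 (eI ▸ JI hq.1)).resolve_left hq.2
  obtain ⟨q, hq, z, z1, z2⟩ := fr X XN fX (fun q hq => disjoint_left.2 fun z a b =>
    (XP a).2 (seg_sub ok hq b (XN a))) _ sJ (by omega)
  have ne : q ≠ Sum.inl (j, a) := fun e => hq.2 (e ▸ ⟨cL, fun c => nR (c ▸ ha)⟩)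
  refine cut q ⟨eI ▸ Or.inr hq.1, fun c => hq.2 ⟨c, fun e => nR (e ▸ hq.1)⟩⟩
    ⟨z, seg_add' ha h1 no hq.1 ne z1, (big _ _ _ B _ _ grid sdiff_subset).1 _ _ ?_ z2⟩
  refine union_subset_union_right _ (iUnion₂_subset fun r hr => ?_)
  by_cases e : r = Sum.inl (j, i + 1)
  · subst e
    refine subset_trans ?_ (subset_iUnion₂ (s := fun r (_ : r ∈ J \ {Sum.inl (j, i + 1)}) =>
      x.t.seg C r) (Sum.inl (j, a)) ⟨cL, fun c => nR (c ▸ ha)⟩)
    rintro _ ⟨l, a1, a2, -, a4⟩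
    dsimp only at a1 a4
    exact ⟨l, by dsimp only; omega, a2, fun k k1 _ => no k k1,
      a4.imp_right fun c => ⟨by dsimp only; omega, c.2⟩⟩
  · exact (seg_add r).trans (subset_iUnion₂ (s := fun r (_ : r ∈ J \ {Sum.inl (j, i + 1)}) =>
      x.t.seg C r) r ⟨hr, e⟩)

/-- a dead set of bounded size that meets the other sides at their ends only -/
def Dd (x : TM p) (B : Fin g × Fin g → Set MV) (j : x.t.ι) (N k : ℕ) (E : Set MV) : Prop :=
  ∃ X, x.t.Dead B X E ∧ X.ncard ≤ N * k ∧ (x.t.s.Br E).Finite ∧ (x.t.s.Br E).ncard ≤ 2 * k ∧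
    ∀ b, b ≠ j → x.t.Pfx E b

theorem Dd.union (dead : DeadS) (grid : x.t.s.Grid B) (fr : x.t.s.Frm B R) (hR : 1 ≤ R)
    {j : x.t.ι} {N k k' : ℕ} {E E' : Set MV} (h : Dd x B j N k E) (h' : Dd x B j N k' E') :
    Dd x B j N (k + k') (E ∪ E') := by
  obtain ⟨X, a1, a2, a3, a4, a5⟩ := h
  obtain ⟨X', b1, b2, b3, b4, b5⟩ := h'
  obtain ⟨c1, c2, c3⟩ := (dead p x g R B grid fr hR).1.2 X E X' E' a1 b1
  have := ncard_union_le X X'
  have := (ncard_le_ncard c2 (a3.union b3)).trans (ncard_union_le _ _)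
  exact ⟨_, c1, by rw [Nat.mul_add]; omega, (a3.union b3).subset c2, by omega,
    fun b hb => c3 b (a5 b hb) (b5 b hb)⟩

theorem br_fin (E : Set MV) : (x.t.s.Br E).Finite :=
  (x.h.ok.ok.hm.ok.fin.image fun f => x.t.s.far (x.t.s.M.rot f)).subset
    fun _ ⟨_, f, hf, _, e⟩ => ⟨f, hf.1, e⟩

theorem Dd.empty (dead : DeadS) (grid : x.t.s.Grid B) (fr : x.t.s.Frm B R) (hR : 1 ≤ R)
    (j : x.t.ι) (N k : ℕ) : Dd x B j N k ∅ := by
  have : x.t.s.Br ∅ = ∅ := eq_empty_of_forall_notMem fun _ ⟨_, _, _, c, _⟩ => c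
  exact ⟨∅, (dead p x g R B grid fr hR).1.1, by simp, br_fin _, by simp [this],
    fun _ _ _ _ _ _ _ _ c => c.elim⟩

/-- a dead interval of positions lies in a dead set -/
theorem ival (dead : DeadS) (grid : x.t.s.Grid B) (fr : x.t.s.Frm B R) (hR : 1 ≤ R)
    (inj : JTwo.Inj x.t.s) {N : ℕ} (hN : N < R) (hg : R ≤ g) {j : x.t.ι} {a b : ℕ} (hab : a ≤ b)
    (hb : b ≤ x.t.m j) {X Y : Set MV} (h1 : X ⊆ x.t.s.Nd \ Sum.inl '' x.t.s.Po) (h2 : X.Finite)
    (h3 : X.ncard ≤ N) (h4 : Y ⊆ Sum.inl '' x.t.s.Po)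
    (dd : ∀ l, a ≤ l → l ≤ b → ¬ x.t.s.Live (gm.big x.t.s.G B x.t.s.T (X ∪ Y)) (x.t.u j l)) :
    ∃ E, Dd x B j N 1 E ∧ ∀ l, a ≤ l → l ≤ b → Sum.inl (x.t.u j l) ∈ E := by
  have ok := x.h.ok
  obtain ⟨E, e1, e2, e3, e4, e5⟩ := (dead p x g R B grid fr hR).2 X Y {x.t.u j a} h1 h2 (by omega)
    (by omega) h4 (singleton_subset_iff.2 (far_po ok.ok (φ_fl ok j a)))
    fun v hv => hv ▸ dd a le_rfl hab
  refine ⟨E, ⟨X, e1, by omega, br_fin _, by simpa using e3, fun c hc => e5 c fun i _ hi q =>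
    hc (u_inj ok inj hi.le (by omega) q).1⟩, fun l l1 l2 => ?_⟩
  induction l, l1 using Nat.le_induction with
  | base => exact e2 ⟨_, rfl, rfl⟩
  | succ l l1 ih =>
    by_contra q
    exact dd _ (by omega) l2 (e4 _ (JSeed.br_l ok (ih (by omega)) q))

/-- all bags of a set that cannot be chosen are next to a dead set -/
theorem stage (big : BigS) (sup : SupS) (dead : DeadS) (grid : x.t.s.Grid B) (frm : x.t.s.Frm B R)
    (inj : JTwo.Inj x.t.s)
    (po : ∀ v ∈ x.t.s.Po, v ∈ x.t.s.far '' x.t.Fx ∨ ∃ j, ∃ i ≤ x.t.m j, v = x.t.u j i)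
    {N : ℕ} (hN : N < R) (hg : R ≤ g) {C : x.t.ι → ℕ → Prop} {j : x.t.ι} {a : ℕ}
    (fin : (x.t.tI C).Finite) (cI : (x.t.tI C).ncard ≤ N) (fr : x.t.Fr B C x.t.s.Nd)
    (ha : Sum.inl (j, a) ∈ x.t.tI C) (no : ∀ k, a ≤ k → ¬ C j k) :
    ∃ E, Dd x B j N 2 E ∧ ∀ i, a ≤ i → i < x.t.m j → ¬ x.t.Fr B (add C j i) x.t.s.Nd →
      Sum.inl (x.t.u j i) ∈ E ∨ Sum.inl (x.t.u j (i + 1)) ∈ E := by
  classical
  have hR : 1 ≤ R := by omega
  obtain ⟨E1, d1, c1⟩ : ∃ E, Dd x B j N 1 E ∧ ∀ i, a ≤ i → i < x.t.m j →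
      (∃ E', Dd x B j N 1 E' ∧ ∀ l, a ≤ l → l ≤ i → Sum.inl (x.t.u j l) ∈ E') →
      Sum.inl (x.t.u j i) ∈ E := by
    let P : ℕ → Prop := fun i => ∃ E', Dd x B j N 1 E' ∧ ∀ l, a ≤ l → l ≤ i → Sum.inl (x.t.u j l) ∈ E'
    by_cases c : ∃ i ≤ x.t.m j, P i
    · obtain ⟨i, hi, c⟩ := c
      obtain ⟨E, e1, e2⟩ := Nat.findGreatest_spec hi c
      exact ⟨E, e1, fun i i1 i2 q => e2 i i1 (Nat.le_findGreatest i2.le q)⟩
    · exact ⟨∅, Dd.empty dead grid frm hR j N 1, fun i _ i2 q => (c ⟨i, i2.le, q⟩).elim⟩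
  obtain ⟨E2, d2, c2⟩ : ∃ E, Dd x B j N 1 E ∧ ∀ i, i < x.t.m j →
      (∃ E', Dd x B j N 1 E' ∧ ∀ l, i + 1 ≤ l → l ≤ x.t.m j → Sum.inl (x.t.u j l) ∈ E') →
      Sum.inl (x.t.u j (i + 1)) ∈ E := by
    by_cases c : ∃ i, ∃ E', Dd x B j N 1 E' ∧
      ∀ l, i + 1 ≤ l → l ≤ x.t.m j → Sum.inl (x.t.u j l) ∈ E'
    · obtain ⟨E, e1, e2⟩ := Nat.find_spec c
      exact ⟨E, e1, fun i i2 q => e2 _ (Nat.succ_le_succ (Nat.find_min' c q)) i2⟩
    · exact ⟨∅, Dd.empty dead grid frm hR j N 1, fun i _ q => (c ⟨i, q⟩).elim⟩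
  refine ⟨E1 ∪ E2, d1.union dead grid frm hR d2, fun i i1 i2 nf => ?_⟩
  obtain ⟨X, Y, a1, a2, a3, a4, k | k⟩ := stuck big sup grid inj po fin fr ha no i1 i2 nf
  · exact Or.inl (Or.inl (c1 i i1 i2
      (ival dead grid frm hR inj hN hg i1 i2.le a1 a2 (a3.trans cI) a4 k)))
  · exact Or.inr (Or.inr (c2 i i2
      (ival dead grid frm hR inj hN hg i2 le_rfl a1 a2 (a3.trans cI) a4 k)))

end JOne

open JOne

theorem oneS (tame : TameS) (big : BigS) (pos : PosS) (sup : SupS) (dead : DeadS)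
    (mk : MkPreS) : OneS := by
  classical
  intro p n
  obtain ⟨n0, hn⟩ := tame p
  obtain ⟨w, R1, hw⟩ := mk p ((2 * n0 + 2 * n + 2) * (2 * n + 2))
  refine ⟨w, max R1 (2 * n0 + 2 * n + 3), fun x0 x θ g R T e B j j' C hR c ty hm no fC cC fr => ?_⟩
  obtain ⟨-, cι, fS, cS, -, -, -, -, -, -, -, -, -, -, po, -⟩ := hn x
  have new : ∀ k < x0.t.m j, (x.ty j').New (x0.t.letter j k) := fun k hk =>
    ty ▸ ((hn x0).2.2.2.2.2.2.2.2.2.2.2.2.1 j k hk).1
  have ok := x.h.ok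
  have R0 : 1 ≤ R := by omega
  obtain ⟨hR1, hR2⟩ := max_le_iff.1 hR
  have inj : JTwo.Inj x.t.s := (pos _ g R B ok.ok ok.spoke c.grid c.frame R0).1
  refine or_iff_not_imp_right.2 fun np => ?_
  have fin : ∀ (k : ℕ) (ch : ℕ → ℕ),
      {q : x.t.ι × ℕ | q.1 = j' ∧ ∃ l < k, ch l = q.2}.Finite ∧
      {q : x.t.ι × ℕ | q.1 = j' ∧ ∃ l < k, ch l = q.2}.ncard ≤ k := by
    intro k ch
    have : {q : x.t.ι × ℕ | q.1 = j' ∧ ∃ l < k, ch l = q.2} = (fun l => (j', ch l)) '' Iio k := by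
      ext ⟨a, i⟩
      exact ⟨fun ⟨e, l, hl, e'⟩ => ⟨l, hl, Prod.ext e.symm e'⟩,
        fun ⟨l, hl, e⟩ => ⟨(Prod.mk.inj e).1.symm, l, hl, (Prod.mk.inj e).2⟩⟩
    rw [this]
    exact ⟨(finite_Iio _).image _, (ncard_image_le (finite_Iio _)).trans_eq (ncard_Iio_nat _)⟩
  have key : ∀ k ≤ x0.t.m j, ∃ (ch κ : ℕ → ℕ) (a : ℕ) (E : Set MV),
      (∀ l, l + 1 < k → ch l < ch (l + 1)) ∧ (∀ l < k, ch l < a ∧
        Le (x0.t.letter j l) (x.t.letter j' (ch l))) ∧ a ≤ x.t.m j' ∧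
      (a = 0 ∨ ∃ l < k, ch l = a - 1) ∧
      x.t.Fr B (fun b i => C b i ∨ (b = j' ∧ ∃ l < k, ch l = i)) x.t.s.Nd ∧
      Dd x B j' (2 * n0 + 2 * n + 2) (2 * k) E ∧
      ∀ i < a, ¬ x.t.sb E (fun b i => b = j' ∧ ∃ l < k, ch l = i) j' i → κ i < k ∧
        ¬ Le (x0.t.letter j (κ i)) (x.t.letter j' i) ∧ κ i = κ (i + 1) := by
    intro k
    induction k with
    | zero =>
      exact fun _ => ⟨id, id, 0, ∅, by simp, by simp, Nat.zero_le _, Or.inl rfl, by simpa using fr,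
        Dd.empty dead c.grid c.frame R0 _ _ _, by simp⟩
    | succ k ih =>
      intro hk
      obtain ⟨ch, κ, a, E, a1, a2, a3, a4, a5, a6, a7⟩ := ih (by omega)
      obtain ⟨f1, f2⟩ := fin k ch
      obtain ⟨t1, t2⟩ := tI_card (C := fun b i => C b i ∨ (b = j' ∧ ∃ l < k, ch l = i))
        (N := 2 * n) cι fS cS (fC.union f1) ((ncard_union_le _ _).trans
          ((Nat.add_le_add cC f2).trans (by omega)))
      obtain ⟨E', d', cov⟩ := stage (N := 2 * n0 + 2 * n + 2) big sup dead c.grid c.frame inj po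
        hR2 c.le.1 t1 (t2.trans (Nat.le_add_right _ 2)) a5
        (inl_tI.2 ⟨a3, a4.imp_right fun q => Or.inr ⟨rfl, q⟩⟩) (by
          rintro i hi (q | ⟨-, l, hl, q⟩)
          · exact no i q
          · have := (a2 l hl).1; omega)
      have dU := a6.union dead c.grid c.frame R0 d'
      have old : ∀ i < a, (¬ ∃ l < k, ch l = i) → i + 1 < a := fun i hi q => by
        by_contra q'
        obtain ⟨l, hl, e⟩ := a4.resolve_left (by omega)
        exact q ⟨l, hl, by omega⟩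
      have good : ∀ b, (∀ i, a ≤ i → i < b → i < x.t.m j' →
          Le (x0.t.letter j k) (x.t.letter j' i) → ¬ x.t.Fr B
            (add (fun b i => C b i ∨ (b = j' ∧ ∃ l < k, ch l = i)) j' i) x.t.s.Nd) →
          ∀ i < b, i < x.t.m j' → ¬ x.t.sb (E ∪ E') (fun b i => b = j' ∧ ∃ l < k, ch l = i) j' i →
          (if i < a then κ i else k) < k + 1 ∧
          ¬ Le (x0.t.letter j (if i < a then κ i else k)) (x.t.letter j' i) ∧
          (if i < a then κ i else k) = if i + 1 < a then κ (i + 1) else k := by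
        intro b hb i i1 i2 ns
        by_cases q : i < a
        · obtain ⟨b1, b2, b3⟩ := a7 i q fun s => ns (s.imp_right (Or.imp Or.inl Or.inl))
          rw [if_pos q, if_pos (old i q fun s => ns (Or.inl ⟨rfl, s⟩))]
          exact ⟨by omega, b2, b3⟩
        · rw [if_neg q, if_neg (by omega)]
          exact ⟨by omega, fun le => ns (Or.inr ((cov i (by omega) i2
            (hb i (by omega) i1 i2 le)).imp Or.inr Or.inr)), rfl⟩
      by_cases ex : ∃ i, a ≤ i ∧ i < x.t.m j' ∧ Le (x0.t.letter j k) (x.t.letter j' i) ∧ x.t.Fr B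
          (add (fun b i => C b i ∨ (b = j' ∧ ∃ l < k, ch l = i)) j' i) x.t.s.Nd
      · obtain ⟨b1, b2, b3, b4⟩ := Nat.find_spec ex
        have up : ∀ l < k, update ch k (Nat.find ex) l = ch l := fun l hl => update_of_ne hl.ne _ _
        have eq : ∀ i, (∃ l < k + 1, update ch k (Nat.find ex) l = i) ↔
            (∃ l < k, ch l = i) ∨ i = Nat.find ex := by
          intro i
          rw [Nat.exists_lt_succ_right, update_self, eq_comm (a := i)]
          exact or_congr_left (exists_congr fun l => and_congr_right fun hl => by rw [up l hl])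
        refine ⟨update ch k (Nat.find ex), fun i => if i < a then κ i else k, Nat.find ex + 1,
          E ∪ E', fun l hl => ?_, fun l hl => ?_, b2, Or.inr ⟨k, by omega, update_self _ _ _⟩, ?_,
          dU, fun i hi ns => ?_⟩
        · rw [up l (by omega)]
          by_cases q : l + 1 = k
          · rw [q, update_self]
            have := (a2 l (by omega)).1
            omega
          · rw [up _ (by omega)]
            exact a1 l (by omega)
        · by_cases q : l = k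
          · rw [q, update_self]
            exact ⟨by omega, b3⟩
          · rw [up l (by omega)]
            have := a2 l (by omega)
            exact ⟨by omega, this.2⟩
        · convert b4 using 3 with b i
          rw [eq, add, and_or_left, or_assoc]
        · have ne : i ≠ Nat.find ex := fun q => ns (Or.inl ⟨rfl, (eq i).2 (Or.inr q)⟩)
          exact good (Nat.find ex) (fun i i1 i2 i3 i4 i5 => Nat.find_min ex i2 ⟨i1, i3, i4, i5⟩) i
            (by omega) (by omega) fun s =>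
              ns (s.imp_left fun q => ⟨q.1, (eq i).2 (Or.inl q.2)⟩)
      · exfalso
        have g' := good (x.t.m j') fun i i1 i2 _ i4 i5 => ex ⟨i, i1, i2, i4, i5⟩
        obtain ⟨X, x1, x2, -, x4, x5⟩ := dU
        clear a4
        have le1 : (2 * n0 + 2 * n + 2) * (2 * k + 2) ≤ (2 * n0 + 2 * n + 2) * (2 * n + 2) :=
          Nat.mul_le_mul_left _ (by omega)
        have le2 : 2 * (2 * n + 2) ≤ (2 * n0 + 2 * n + 2) * (2 * n + 2) :=
          Nat.mul_le_mul_right _ (by omega)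
        refine np ⟨_, _, fun b => if b = j' then Md.gen else Md.keep, fun b i => if b = j' then
          (x.ty b).add (x0.t.letter j (if i < a then κ i else k)) else x.ty b,
          hw x θ g R T e B X (E ∪ E') (fun b i => b = j' ∧ ∃ l < k, ch l = i) _ _ hR1 c x1
            (by omega) (by omega) f1 (by omega) fun b => ?_, fun b => ?_,
          Or.inl ⟨j', if_pos rfl⟩⟩
        · by_cases q : b = j'
          · subst q
            refine Or.inr ⟨if_pos rfl, fun i hi ns => ?_⟩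
            obtain ⟨-, b2, b3⟩ := g' i hi hi ns
            obtain ⟨c1, c2, c3, c4⟩ := x.h.fits b i hi
            simp only [if_true]
            refine ⟨⟨c1, c2, c3, ?_⟩, fun _ _ => by rw [b3]⟩
            rintro ω (rfl | hω)
            · exact b2
            · exact c4 ω hω
          · exact Or.inl ⟨if_neg q, fun i s => q s.1, x5 b q, fun _ => if_neg q⟩
        · by_cases q : b = j'
          · subst q
            refine Or.inr ⟨if_pos rfl, fun i hi ns => ?_⟩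
            have := (g' i hi hi ns).1
            exact ⟨_, ⟨if i < a then κ i else k, mem_Iio.2 (by omega), rfl⟩, new _ (by omega),
              if_pos rfl⟩
          · exact Or.inl ⟨if_neg q, fun _ => if_neg q⟩
  obtain ⟨ch, -, a, -, a1, a2, a3, -, a5, -⟩ := key _ le_rfl
  exact ⟨ch, ⟨a1, fun k hk => (a2 k hk).1.trans_le a3, fun k hk => (a2 k hk).2⟩, a5⟩

end Pool.Agent.MP_9d78a0_co.gm

end MrgPart9

-- marker of a merged file
example : 731051 + 632382 = 731051 + 632382 := rfl
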