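import Pool.Agent.MP_9d78a0_co.gm.JWf
import Pool.Agent.MP_9d78a0_co.gm.FCell
import Pool.Agent.MP_9d78a0_co.gm.COp2
import Pool.Agent.MP_9d78a0_co.gm.JOne
import Pool.Agent.MP_9d78a0_co.gm.SpecJ

-- ======== part 0: formerly Pool.Agent.MP_9d78a0_co.gm.JGrid
section MrgPart0

/-! Block J: a tangle of large order controls a grid in the map. -/

set_option autoImplicit false

namespace Pool.Agent.MP_9d78a0_co.gm

open Set Function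

namespace JGrid

open JSeed JWf

section tangle

variable {ε : Type} {f : Set ε → ℕ} {θ : ℕ} (T : Tangle f θ)

theorem sub2 {A B Y : Set ε} (hA : A ∈ T.sm) (hB : B ∈ T.sm) (h : Y ⊆ A ∪ B) (o : f Y < θ) :
    Y ∈ T.sm :=
  (T.tot Y o).resolve_right fun k => T.cov A hA B hB _ k (eq_univ_of_forall fun a => by
    by_cases c : a ∈ Y
    exacts [Or.inl (h c), Or.inr c])

theorem emp (hf : Sym f) (h : 0 < θ) : ∅ ∈ T.sm :=
  (T.tot ∅ (by rwa [hf.emp])).resolve_right (by rw [compl_empty]; exact T.univ_not)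

theorem un_le (hf : Sym f) (A B : Set ε) : f (A ∪ B) ≤ f A + f B := by
  have := hf.sub A B
  omega

theorem un_small (hf : Sym f) {ι : Type} {I : Set ι} (hI : I.Finite) {Y : ι → Set ε} {b : ℕ}
    (h : ∀ i ∈ I, Y i ∈ T.sm ∧ f (Y i) ≤ b) (o : I.ncard * b < θ) :
    (⋃ i ∈ I, Y i) ∈ T.sm ∧ f (⋃ i ∈ I, Y i) ≤ I.ncard * b := by
  induction I, hI using Finite.induction_on with
  | empty => exact ⟨by simpa using emp T hf (by omega), by simp [hf.emp]⟩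
  | @insert a I ha hI ih =>
    rw [ncard_insert_of_notMem ha hI, add_mul, one_mul] at o ⊢
    obtain ⟨h1, h2⟩ := ih (fun i k => h i (Or.inr k)) (by omega)
    obtain ⟨h3, h4⟩ := h a (Or.inl rfl)
    have := un_le hf (Y a) (⋃ i ∈ I, Y i)
    rw [biUnion_insert]
    exact ⟨T.union_small h3 h1 (by omega), by omega⟩

end tangle

section grid

variable {V : Type} {G : SimpleGraph V} {g : ℕ} {B : Fin g × Fin g → Set V} {D : Set V}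

theorem edge (h : Model (fb.grid g) G D B) (hg : 2 ≤ g) (i j : Fin g) :
    ∃ i', ∃ u ∈ B (i, j), ∃ w ∈ B (i', j), G.Adj u w := by
  by_cases c : i.1 + 1 < g
  · exact ⟨⟨i.1 + 1, c⟩, h.2.2.2 _ _ (Or.inr ⟨rfl, Or.inl rfl⟩)⟩
  · exact ⟨⟨i.1 - 1, by omega⟩, h.2.2.2 _ _ (Or.inr ⟨rfl, Or.inr (by dsimp only; omega)⟩)⟩

theorem has_nb (h : Model (fb.grid g) G D B) (hg : 2 ≤ g) {q : Fin g × Fin g} {z : V}
    (hz : z ∈ B q) : ∃ w, G.Adj z w := by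
  obtain ⟨i', u, hu, w, -, e⟩ := edge h hg q.1 q.2
  rcases ((h.2.1 q).2 z hz u hu).cases_head with rfl | ⟨c, k, -⟩
  exacts [⟨w, e⟩, ⟨c, k.2.2⟩]

/-- the last row and the last column absorb the rest -/
theorem coarse (h : Model (fb.grid g) G D B) {n : ℕ} (hn : n ≤ g) :
    ∃ B' : Fin n × Fin n → Set V, Model (fb.grid n) G D B' ∧
      ∀ i j, ∃ i' j', Cross B i' j' ⊆ Cross B' i j := by
  let F : Fin n × Fin n → Set (Fin g × Fin g) := fun p =>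
    {q | min q.1.1 (n - 1) = p.1.1 ∧ min q.2.1 (n - 1) = p.2.1}
  have base : ∀ p : Fin n × Fin n, (p.1.castLE hn, p.2.castLE hn) ∈ F p := fun p => by
    have := p.1.2
    have := p.2.2
    simp only [F, mem_ofPred_eq, Fin.val_castLE]
    omega
  refine ⟨fun p => ⋃ q ∈ F p, B q, ⟨fun p => iUnion₂_subset fun q _ => h.1 q, fun p => ?_,
    fun p p' ne => ?_, fun p p' a => ?_⟩, fun i j => ⟨i.castLE hn, j.castLE hn, ?_⟩⟩
  · refine fb.conn_biUnion (base p) (fun q _ => h.2.1 q) ?_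
    rintro ⟨⟨a, ha⟩, ⟨b, hb⟩⟩ hq
    have p1 := p.1.2
    have p2 := p.2.2
    induction hs : a + b using Nat.strong_induction_on generalizing a b with
    | _ s ih =>
      have k : min a (n - 1) = p.1.1 ∧ min b (n - 1) = p.2.1 := hq
      by_cases c : p.1.1 < a
      · have m : ((⟨a - 1, by omega⟩, ⟨b, hb⟩) : Fin g × Fin g) ∈ F p :=
          show min (a - 1) (n - 1) = p.1.1 ∧ min b (n - 1) = p.2.1 by omega
        exact (ih _ (by omega) (a - 1) _ b hb m rfl).tail ⟨m, hq, Or.inr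
          (h.2.2.2 _ _ (Or.inr ⟨rfl, Or.inl (by dsimp only; omega)⟩))⟩
      by_cases d : p.2.1 < b
      · have m : ((⟨a, ha⟩, ⟨b - 1, by omega⟩) : Fin g × Fin g) ∈ F p :=
          show min a (n - 1) = p.1.1 ∧ min (b - 1) (n - 1) = p.2.1 by omega
        exact (ih _ (by omega) a ha (b - 1) _ m rfl).tail ⟨m, hq, Or.inr
          (h.2.2.2 _ _ (Or.inl ⟨rfl, Or.inl (by dsimp only; omega)⟩))⟩
      obtain rfl : a = p.1.1 := by omega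
      obtain rfl : b = p.2.1 := by omega
      exact Relation.ReflTransGen.refl
  · simp only [disjoint_iUnion_left, disjoint_iUnion_right]
    intro q' hq' q hq
    refine h.2.2.1 _ _ fun e => ne ?_
    subst e
    exact Prod.ext (Fin.ext (hq.1.symm.trans hq'.1)) (Fin.ext (hq.2.symm.trans hq'.2))
  · obtain ⟨u, hu, w, hw, e⟩ := h.2.2.2 (p.1.castLE hn, p.2.castLE hn)
      (p'.1.castLE hn, p'.2.castLE hn) a
    exact ⟨u, mem_biUnion (base p) hu, w, mem_biUnion (base p') hw, e⟩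
  · refine iUnion_subset fun k => ?_
    have i2 := i.2
    have j2 := j.2
    have hk : min k.1 (n - 1) < n := by omega
    refine union_subset (fun v hv => row_sub i j ⟨_, hk⟩ (mem_biUnion (x := (i.castLE hn, k))
      ⟨(base (i, j)).1, rfl⟩ hv)) fun v hv => col_sub i j ⟨_, hk⟩
      (mem_biUnion (x := (k, j.castLE hn)) ⟨rfl, (base (i, j)).2⟩ hv)

end grid

section tm

variable {p : Par} {x : TM p} {U : Set x.σ.ε}

theorem mem_vs {v : W} : v ∈ x.σ.vs U ↔ ∃ a ∈ U, v ∈ x.σ.inc a := by simp [AG.vs]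

/-- a vertex off the boundary decides the side of its atoms -/
theorem side {v : W} {a : x.σ.ε} (h : v ∈ x.σ.vs U) (hb : v ∉ x.σ.bd U) (k : v ∈ x.σ.inc a) :
    a ∈ U := by_contra fun c => hb ⟨mem_vs.1 h, a, c, k⟩

theorem atom {y : MV} (hy : y ∈ x.t.s.Ce) : ∃ a, x.t.own a = some (.inl y) := by
  obtain ⟨a, h, -⟩ := x.h.cell y hy
  exact ⟨a, show a ∈ x.t.ct y from h ▸ rfl⟩

theorem nb_inc {y : MV} {a : x.σ.ε} (h : x.t.own a = some (.inl y)) {v : W}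
    (hv : v ∈ x.t.s.nb y) : v ∈ x.σ.inc a := by
  have hy := x.h.ok.ownc a y h
  obtain ⟨b, e, -⟩ := x.h.cell y hy
  obtain ⟨⟨c, hc, k⟩, -⟩ := (x.h.ok.solid y hy).2 hv
  have h1 : a = b := show a ∈ ({b} : Set _) from e ▸ h
  have h2 : c = b := show c ∈ ({b} : Set _) from e ▸ hc
  rwa [h1, ← h2]

theorem nb_vt {y : MV} {v : W} (hv : v ∈ x.t.s.nb y) : Sum.inl v ∈ x.t.s.Vt :=
  (adj_vt x.h.ok.ok hv).1

/-- the side of a cell or node -/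
def col (U : Set x.σ.ε) : MV → Prop :=
  Sum.elim (fun v => v ∈ x.σ.vs U) fun n => ∃ a ∈ U, x.t.own a = some (.inl (.inr n))

theorem adj_T {u w : MV} (hu : u ∈ x.t.s.T) (hw : w ∈ x.t.s.T) (e : x.t.s.G.Adj u w) :
    ∃ v n, Sum.inr n ∈ x.t.s.Ce ∧ v ∈ x.t.s.nb (.inr n) ∧
      ((u = .inl v ∧ w = .inr n) ∨ (w = .inl v ∧ u = .inr n)) := by
  have k := (adj_vt x.h.ok.ok e).2
  by_cases c : u ∈ x.t.s.Nd
  · have d := hw.resolve_left (k.1 c)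
    obtain ⟨v, rfl⟩ := c.2
    obtain ⟨n, rfl⟩ := d.1.2
    exact ⟨v, n, d, e.symm, Or.inl ⟨rfl, rfl⟩⟩
  · have d := hu.resolve_left c
    obtain ⟨v, rfl⟩ := (not_not.1 fun l => c (k.2 l)).2
    obtain ⟨n, rfl⟩ := d.1.2
    exact ⟨v, n, d, e, Or.inr ⟨rfl, rfl⟩⟩

theorem col_link {K : Set MV} (hK : K ⊆ x.t.s.T) (hd : ∀ v, Sum.inl v ∈ K → v ∉ x.σ.bd U)
    {u w : MV} (h : Link x.t.s.G K u w) : col U u ↔ col U w := by
  induction h with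
  | refl => exact Iff.rfl
  | tail _ h2 ih =>
    obtain ⟨v, n, hn, hv, k⟩ := adj_T (hK h2.1) (hK h2.2.1) h2.2.2
    have e : Sum.inl v ∈ K → (col U (.inl v) ↔ col U (.inr n)) := fun l =>
      ⟨fun m => let ⟨a, ha⟩ := atom hn; ⟨a, side m (hd v l) (nb_inc ha hv), ha⟩,
        fun ⟨a, m, ha⟩ => mem_vs.2 ⟨a, m, nb_inc ha hv⟩⟩
    rcases k with ⟨rfl, rfl⟩ | ⟨rfl, rfl⟩
    exacts [ih.trans (e h2.1), ih.trans (e h2.2.1).symm]

theorem lk_nb {j : x.t.ι} {i : ℕ} (hi : i < x.t.m j) :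
    x.t.u j i ∈ x.t.s.nb (x.t.lk j i) ∧ x.t.u j (i + 1) ∈ x.t.s.nb (x.t.lk j i) ∧
      (x.t.lk j i ∈ x.t.s.Rm → x.t.s.nb (x.t.lk j i) = {x.t.u j i, x.t.u j (i + 1)}) := by
  obtain ⟨a, b, -, c⟩ := ((fSkS _ x.h.ok.ok).2.1 _ (phi_fl x.h.ok j i)).2.2.2.2.2.2.2
    (x.h.ok.quad j i hi).1
  rw [← phi_succ] at b c
  exact ⟨a, b, c⟩

variable (x) in
/-- cells and rims -/
def E : Set MV := x.t.s.Ce ∪ (x.t.s.Rm ∩ x.t.s.Vt)

theorem lkE {j : x.t.ι} {i : ℕ} (hi : i < x.t.m j) : x.t.lk j i ∈ E x :=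
  (x.h.ok.quad j i hi).2.elim
    (fun k => Or.inr ⟨k, (adj_vt x.h.ok.ok (lk_nb hi).1.symm).1⟩) Or.inl

theorem E_tv {y : MV} (h : y ∈ E x) : y ∈ x.t.s.M.tv x.t.s.vx x.t.s.H ∧ y ∈ range Sum.inr := by
  rcases h with h | h
  · exact ⟨⟨h.1.1, fun k => h.2 (Or.inl k)⟩, h.1.2⟩
  · exact ⟨⟨h.2, fun k => disjoint_left.1 x.h.ok.ok.hr.2.2 k h.1⟩, x.h.ok.ok.hr.2.1 h.1⟩

variable (x) in
/-- the hypergraph of cells and rims -/
def inc' (y : E x) : Set W := x.t.s.nb y.1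

theorem inc'_card (y : E x) : (inc' x y).Finite ∧ (inc' x y).ncard ≤ 3 := by
  classical
  obtain ⟨⟨⟨f, hf, e⟩, hH⟩, n, hn⟩ := E_tv y.2
  obtain ⟨-, k1, k2⟩ := rtsS _ x.h.ok.ok f hf (by
    rw [e, ← hn]
    rintro ⟨-, v, k⟩
    cases k)
  rw [inc', ← e, ← k1, ← List.coe_toFinset, ncard_coe_finset]
  exact ⟨Finset.finite_toSet _, (List.toFinset_card_le _).trans (k2 (e ▸ hH)).2⟩

/-- atoms are sent to their cell or to the link of their bag -/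
structure Psi (ψ : x.σ.ε → E x) : Prop where
  c : ∀ a y, x.t.own a = some (.inl y) → (ψ a).1 = y
  b : ∀ a j i, x.t.own a = some (.inr (j, i)) → (ψ a).1 = x.t.lk j i

theorem exists_psi (y0 : E x) : ∃ ψ : x.σ.ε → E x, Psi ψ := by
  have : ∀ a, ∃ y : E x, (∀ z, x.t.own a = some (.inl z) → y.1 = z) ∧
      ∀ j i, x.t.own a = some (.inr (j, i)) → y.1 = x.t.lk j i := fun a => by
    rcases e : x.t.own a with _ | y | ⟨j, i⟩
    · exact ⟨y0, by simp, by simp⟩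
    · exact ⟨⟨y, Or.inl (x.h.ok.ownc a y e)⟩, by simp, by simp⟩
    · refine ⟨⟨_, lkE (x.h.ok.ownb a j i e)⟩, by simp, fun j' i' k => ?_⟩
      cases k
      rfl
  choose ψ h1 h2 using this
  exact ⟨ψ, h1, h2⟩

/-- the positions of a side are different -/
def UI (x : TM p) : Prop := ∀ j, ∀ i ≤ x.t.m j, ∀ i' ≤ x.t.m j, x.t.u j i = x.t.u j i' → i = i'

theorem betw (ui : UI x) {j : x.t.ι} {i k i' : ℕ} {v : W} (h : v ∈ x.t.κ j i)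
    (h' : v ∈ x.t.κ j i') (h1 : i ≤ k) (h2 : k ≤ i') (h3 : i' ≤ x.t.m j) : v ∈ x.t.κ j k := by
  by_cases c : Sum.inl v ∈ x.t.s.Vt
  · have := ui j i (by omega) i' h3 ((kap x (by omega) h c).symm.trans (kap x h3 h' c))
    rwa [show k = i by omega]
  · obtain ⟨l, hl, e⟩ := h.resolve_left fun e => c (e ▸ u_vt x j i)
    obtain ⟨l', hl', e'⟩ := h'.resolve_left fun e => c (e ▸ u_vt x j i')
    obtain ⟨-, rfl⟩ := x.h.ok.priv j j i (by omega) i' h3 l hl l' hl' (nlam x _) (e.trans e'.symm)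
    exact Or.inr ⟨l, hl, (x.h.ok.conv j l hl i k i' h1 h2 h3 (nlam x _) (e.trans e'.symm)).trans e⟩

theorem betw2 (ui : UI x) {j : x.t.ι} {i k i' : ℕ} {v : W} (h : v ∈ x.t.κ j i ∪ x.t.κ j (i + 1))
    (h' : v ∈ x.t.κ j i' ∪ x.t.κ j (i' + 1)) (h1 : i < k) (h2 : k ≤ i') (h3 : i' < x.t.m j) :
    v ∈ x.t.κ j k := by
  rcases h with h | h <;> rcases h' with h' | h' <;>
    exact betw ui h h' (by omega) (by omega) (by omega)

/-- two atoms with different owners that share a vertex which is not a node -/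
theorem two_bags {a a' : x.σ.ε} {v : W} (h : v ∈ x.σ.inc a) (h' : v ∈ x.σ.inc a')
    (n : x.t.own a ≠ none) (n' : x.t.own a' ≠ none) (ne : x.t.own a ≠ x.t.own a')
    (c : Sum.inl v ∉ x.t.s.Vt) : ∃ j i i', i < x.t.m j ∧ i' < x.t.m j ∧
      x.t.own a = some (.inr (j, i)) ∧ x.t.own a' = some (.inr (j, i')) ∧
      v ∈ x.t.κ j i ∪ x.t.κ j (i + 1) ∧ v ∈ x.t.κ j i' ∪ x.t.κ j (i' + 1) := by
  rcases shr x h (.inr (.inr ⟨a', ne.symm, n', h'⟩)) with ⟨y, -, -, k⟩ | ⟨j, i, hi, e, k⟩ | k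
  · exact absurd (nb_vt k) c
  swap
  · exact absurd k.1 n
  rcases shr x h' (.inr (.inr ⟨a, ne, n, h⟩)) with ⟨y, -, -, l⟩ | ⟨j', i', hi', e', l⟩ | l
  · exact absurd (nb_vt l) c
  swap
  · exact absurd l.1 n'
  have key : ∀ s ≤ x.t.m j, ∀ s' ≤ x.t.m j', v ∈ x.t.κ j s → v ∈ x.t.κ j' s' → j = j' :=
    fun s hs s' hs' b b' => by
      obtain ⟨r, hr, d⟩ := b.resolve_left fun e => c (e ▸ u_vt x j s)
      obtain ⟨r', hr', d'⟩ := b'.resolve_left fun e => c (e ▸ u_vt x j' s')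
      exact (x.h.ok.priv j j' s hs s' hs' r hr r' hr' (nlam x _) (d.trans d'.symm)).1
  obtain rfl : j = j' := by
    rcases k with k | k <;> rcases l with l | l <;> exact key _ (by omega) _ (by omega) k l
  exact ⟨j, i, i', hi, hi', e, e', k, l⟩

variable {ψ : x.σ.ε → E x}

theorem node_nb (hψ : Psi ψ) {a : x.σ.ε} {v : W} (h : v ∈ x.σ.inc a) (n : x.t.own a ≠ none)
    (c : Sum.inl v ∈ x.t.s.Vt) : v ∈ inc' x (ψ a) := by
  rcases shr x h (.inl c) with ⟨y, -, e, k⟩ | ⟨j, i, hi, e, k | k⟩ | k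
  · rwa [inc', hψ.c a y e]
  · rw [inc', hψ.b a j i e, kap x hi.le k c]
    exact (lk_nb hi).1
  · rw [inc', hψ.b a j i e, kap x hi k c]
    exact (lk_nb hi).2.1
  · exact absurd k.1 n

theorem psi_eq (hψ : Psi ψ) {a a' : x.σ.ε} (n : x.t.own a ≠ none)
    (h : x.t.own a = x.t.own a') : ψ a = ψ a' := by
  refine Subtype.ext ?_
  rcases e : x.t.own a with _ | y | ⟨j, i⟩
  · exact absurd e n
  · rw [hψ.c a y e, hψ.c a' y (h ▸ e)]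
  · rw [hψ.b a j i e, hψ.b a' j i (h ▸ e)]

theorem switch {P : ℕ → Prop} {i i' : ℕ} (h : i ≤ i') (k : ¬(P i ↔ P i')) :
    ∃ s, i ≤ s ∧ s < i' ∧ ¬(P s ↔ P (s + 1)) := by
  induction i', h using Nat.le_induction with
  | base => exact absurd Iff.rfl k
  | succ n hn ih =>
    by_cases c : P n ↔ P (n + 1)
    · obtain ⟨s, a, b, d⟩ := ih fun l => k (l.trans c)
      exact ⟨s, a, by omega, d⟩
    · exact ⟨n, hn, by omega, c⟩

/-- the cuts at boundary nodes -/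
def cuts (A : Set (E x)) : Set (x.t.ι × ℕ) :=
  {q | q.2 ≤ x.t.m q.1 ∧ x.t.u q.1 q.2 ∈ hbd (inc' x) A}

theorem bd_pre (ui : UI x) (mk : x.σ.vs x.t.rest ⊆ x.t.Mk) (hψ : Psi ψ) (A : Set (E x)) :
    x.σ.bd (ψ ⁻¹' A) ⊆ x.t.Mk ∪ hbd (inc' x) A ∪ ⋃ q ∈ cuts A, x.t.κ q.1 q.2 := by
  rintro v ⟨⟨a, ha, h⟩, a', ha', h'⟩
  by_cases n : x.t.own a = none
  · exact Or.inl (Or.inl (mk (mem_vs.2 ⟨a, n, h⟩)))
  by_cases n' : x.t.own a' = none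
  · exact Or.inl (Or.inl (mk (mem_vs.2 ⟨a', n', h'⟩)))
  by_cases c : Sum.inl v ∈ x.t.s.Vt
  · exact Or.inl (Or.inr ⟨⟨_, ha, node_nb hψ h n c⟩, _, ha', node_nb hψ h' n' c⟩)
  have ne : x.t.own a ≠ x.t.own a' := fun e => ha' (by
    rw [mem_preimage, ← psi_eq hψ n e]; exact ha)
  obtain ⟨j, i, i', hi, hi', e, e', k, k'⟩ := two_bags h h' n n' ne c
  have key : ∀ s s', s ≤ s' → s' < x.t.m j → v ∈ x.t.κ j s ∪ x.t.κ j (s + 1) →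
      v ∈ x.t.κ j s' ∪ x.t.κ j (s' + 1) →
      ¬(x.t.lk j s ∈ Subtype.val '' A ↔ x.t.lk j s' ∈ Subtype.val '' A) →
      v ∈ ⋃ q ∈ cuts A, x.t.κ q.1 q.2 := by
    intro s s' b1 b2 b3 b4 b5
    obtain ⟨r, r1, r2, r3⟩ := switch (P := fun s => x.t.lk j s ∈ Subtype.val '' A) b1 b5
    have m1 : r < x.t.m j := by omega
    have m2 : r + 1 < x.t.m j := by omega
    refine mem_biUnion (x := (j, r + 1)) ⟨m2.le, ?_⟩ (betw2 ui b3 b4 (by omega) r2 b2)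
    have e1 : ∀ s (hs : s < x.t.m j), x.t.lk j s ∈ Subtype.val '' A ↔ ⟨_, lkE hs⟩ ∈ A :=
      fun s hs => Subtype.val_injective.mem_set_image (a := ⟨_, lkE hs⟩)
    rw [e1 r m1, e1 _ m2] at r3
    by_cases d : (⟨_, lkE m1⟩ : E x) ∈ A
    · exact ⟨⟨_, d, (lk_nb m1).2.1⟩, ⟨_, lkE m2⟩, fun l => r3 (iff_of_true d l), (lk_nb m2).1⟩
    · exact ⟨⟨⟨_, lkE m2⟩, by_contra fun l => r3 (iff_of_false d l), (lk_nb m2).1⟩, _, d,
        (lk_nb m1).2.1⟩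
  have b : ¬(x.t.lk j i ∈ Subtype.val '' A ↔ x.t.lk j i' ∈ Subtype.val '' A) := by
    rw [← hψ.b a j i e, ← hψ.b a' j i' e', Subtype.val_injective.mem_set_image,
      Subtype.val_injective.mem_set_image]
    exact fun l => ha' (l.1 ha)
  rcases le_total i i' with d | d
  exacts [Or.inr (key i i' d hi' k k' b), Or.inr (key i' i d hi k' k fun l => b l.symm)]

theorem finE : Finite (E x) :=
  ((fSkS _ x.h.ok.ok).2.2.2.2.2.subset fun _ h => (E_tv h).1.1).to_subtype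

theorem f_pre {n : ℕ} (ui : UI x) (mk : x.σ.vs x.t.rest ⊆ x.t.Mk) (mf : x.t.Mk.Finite)
    (hd : ∀ j, x.t.d j ≤ n) (hι : Fintype.card x.t.ι ≤ n) (hψ : Psi ψ) (A : Set (E x)) :
    x.σ.f (ψ ⁻¹' A) ≤ p.c + (1 + n * (n + 1)) * hf (inc' x) A := by
  have := finE (x := x)
  have fb := hbd_fin (fun y => (inc'_card (x := x) y).1) A
  have fp : (univ ×ˢ hbd (inc' x) A : Set (x.t.ι × W)).Finite := finite_univ.prod fb
  have ij : InjOn (fun q : x.t.ι × ℕ => (q.1, x.t.u q.1 q.2)) (cuts A) := by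
    rintro ⟨j, i⟩ a ⟨j', i'⟩ b e
    obtain ⟨rfl, e⟩ := Prod.mk.inj e
    rw [ui j i a.1 i' b.1 e]
  have mp : ∀ q ∈ cuts A, (q.1, x.t.u q.1 q.2) ∈ univ ×ˢ hbd (inc' x) A := fun q k =>
    ⟨trivial, k.2⟩
  have fc : (cuts A).Finite := Finite.of_injOn mp ij fp
  have c1 := ncard_le_ncard_of_injOn _ mp ij fp
  rw [ncard_prod, ncard_univ, Nat.card_eq_fintype_card] at c1
  have c2 := un_card fc (f := fun q => x.t.κ q.1 q.2) (k := n + 1) fun q =>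
    (kap_card x _ _).2.trans (Nat.succ_le_succ (hd _))
  have c3 := ncard_le_ncard (bd_pre ui mk hψ A)
    ((mf.union fb).union (fc.biUnion fun q _ => (kap_card x _ _).1))
  have c4 := ncard_union_le (x.t.Mk ∪ hbd (inc' x) A) (⋃ q ∈ cuts A, x.t.κ q.1 q.2)
  have c5 := ncard_union_le x.t.Mk (hbd (inc' x) A)
  have c6 := x.h.marks
  have c7 : (cuts A).ncard * (n + 1) ≤ n * (n + 1) * (hbd (inc' x) A).ncard := by
    rw [mul_right_comm]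
    exact Nat.mul_le_mul_right _ (c1.trans (Nat.mul_le_mul_right _ hι))
  show (x.σ.bd _).ncard ≤ p.c + (1 + n * (n + 1)) * (hbd (inc' x) A).ncard
  rw [add_mul, one_mul]
  omega

/-- the cells with an atom in `U` and the rims whose path meets the inside of `U` -/
def AA (U : Set x.σ.ε) : Set (E x) :=
  {y | (∃ a ∈ U, x.t.own a = some (.inl y.1)) ∨ ∃ j, ∃ i < x.t.m j, y.1 = x.t.lk j i ∧
    y.1 ∈ x.t.s.Rm ∧ (x.t.L j i (x.t.d j) ∩ (x.σ.vs U \ x.σ.bd U)).Nonempty}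

theorem nb_lane {j : x.t.ι} {i : ℕ} (hi : i < x.t.m j) (r : x.t.lk j i ∈ x.t.s.Rm) {v : W}
    (hv : v ∈ x.t.s.nb (x.t.lk j i)) : v ∈ x.t.L j i (x.t.d j) := by
  obtain ⟨-, a, b, -⟩ := x.h.ok.path j i hi r
  rw [(lk_nb hi).2.2 r] at hv
  rcases hv with rfl | rfl
  exacts [a, b]

theorem inA {y : E x} {v : W} (hv : v ∈ inc' x y) (h : v ∈ x.σ.vs U) (hb : v ∉ x.σ.bd U) :
    y ∈ AA U := by
  rcases y.2 with c | c
  · obtain ⟨a, ha⟩ := atom c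
    exact Or.inl ⟨a, side h hb (nb_inc ha hv), ha⟩
  · obtain ⟨j, i, hi, e⟩ := x.h.ok.rim _ c
    exact Or.inr ⟨j, i, hi, e.symm, c.1, v, nb_lane hi (e ▸ c.1) (e ▸ hv), h, hb⟩

theorem lane_col {j : x.t.ι} {i : ℕ} (hi : i < x.t.m j) (r : x.t.lk j i ∈ x.t.s.Rm)
    (d : Disjoint (x.t.L j i (x.t.d j)) (x.σ.bd U)) {v w : W} (hv : v ∈ x.t.L j i (x.t.d j))
    (hw : w ∈ x.t.L j i (x.t.d j)) (h : v ∈ x.σ.vs U) : w ∈ x.σ.vs U := by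
  obtain ⟨c, -, -, s⟩ := x.h.ok.path j i hi r
  have od : ∀ z ∈ x.t.L j i (x.t.d j), z ∈ Od := fun z hz => by
    rcases (s hz).1 with k | rfl
    · obtain ⟨a, -, k⟩ := mem_vs.1 k
      exact k.2
    · exact x.h.ok.ok.od _ (u_vt x j i)
  have k := c.2 v hv w hw
  clear hw
  induction k with
  | refl => exact h
  | @tail b c _ h2 ih =>
    obtain ⟨b1, b2, -, b3⟩ := h2
    obtain ⟨a, k1, k2⟩ : ∃ a, b ∈ x.σ.inc a ∧ c ∈ x.σ.inc a := by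
      rcases b3 with k | k <;> obtain ⟨a, -, k⟩ := mem_iUnion₂.1 k
      exacts [⟨a, ⟨⟨_, k, Or.inl rfl⟩, od b b1⟩, ⟨_, k, Or.inr rfl⟩, od c b2⟩,
        ⟨a, ⟨⟨_, k, Or.inr rfl⟩, od b b1⟩, ⟨_, k, Or.inl rfl⟩, od c b2⟩]
    exact mem_vs.2 ⟨a, side ih (disjoint_left.1 d b1) k1, k2⟩

/-- rims whose path meets the boundary -/
def bad (U : Set x.σ.ε) : Set (x.t.ι × ℕ) := {q | q.2 < x.t.m q.1 ∧ x.t.lk q.1 q.2 ∈ x.t.s.Rm ∧
  ¬Disjoint (x.t.L q.1 q.2 (x.t.d q.1)) (x.σ.bd U)}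

theorem bdA : hbd (inc' x) (AA U) ⊆
    x.σ.bd U ∪ ⋃ q ∈ bad U, {x.t.u q.1 q.2, x.t.u q.1 (q.2 + 1)} := by
  rintro v ⟨⟨y, hy, h⟩, y', hy', h'⟩
  by_cases c : v ∈ x.σ.bd U
  · exact Or.inl c
  have n : v ∉ x.σ.vs U := fun k => hy' (inA h' k c)
  rcases hy with ⟨a, ha, e⟩ | ⟨j, i, hi, e, r, w, w1, w2, -⟩
  · exact absurd (mem_vs.2 ⟨a, ha, nb_inc e h⟩) n
  rw [inc', e] at h
  rw [e] at r
  refine Or.inr (mem_biUnion (x := (j, i)) ⟨hi, r, fun d => n ?_⟩ ((lk_nb hi).2.2 r ▸ h))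
  exact lane_col hi r d w1 (nb_lane hi r h) w2

theorem two_lanes {j : x.t.ι} {i i' : ℕ} (hi : i < x.t.m j) (r : x.t.lk j i ∈ x.t.s.Rm)
    (hi' : i' < x.t.m j) (r' : x.t.lk j i' ∈ x.t.s.Rm) (ne : i ≠ i') {z : W}
    (h : z ∈ x.t.L j i (x.t.d j)) (h' : z ∈ x.t.L j i' (x.t.d j)) :
    z = x.t.u j i ∨ z = x.t.u j (i + 1) := by
  rcases ((x.h.ok.path j i hi r).2.2.2 h).1 with k | k
  swap
  · exact Or.inl k
  obtain ⟨a, ha, k⟩ := mem_vs.1 k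
  have ha : x.t.own a = some (.inr (j, i)) := ha
  have m : z ∈ x.t.κ j i ∪ x.t.κ j (i + 1) := by
    refine (x.h.ok.share a z ⟨k, nlam x _⟩ ?_).2.1 j i ha
    rcases ((x.h.ok.path j i' hi' r').2.2.2 h').1 with l | rfl
    · obtain ⟨a', ha', l⟩ := mem_vs.1 l
      have ha' : x.t.own a' = some (.inr (j, i')) := ha'
      exact .inr (.inr ⟨a', by simp [ha, ha', ne.symm], by simp [ha'], l⟩)
    · exact .inl (u_vt x j i')
  rcases m with (m | ⟨l, hl, rfl⟩) | m | ⟨l, hl, rfl⟩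
  exacts [Or.inl m, absurd h (x.h.ok.lent j i hi _ le_rfl l hl hl.ne').1, Or.inr m,
    absurd h (x.h.ok.lent j i hi _ le_rfl l hl hl.ne').2]

theorem fA {n : ℕ} (ui : UI x) (hι : Fintype.card x.t.ι ≤ n) (U : Set x.σ.ε) :
    hf (inc' x) (AA U) ≤ (1 + 4 * n) * x.σ.f U := by
  have fb : (x.σ.bd U).Finite := hbd_fin x.σ.inc_fin U
  have ex : ∀ q ∈ bad U, ∃ z ∈ x.t.L q.1 q.2 (x.t.d q.1), z ∈ x.σ.bd U := fun q k =>
    not_disjoint_iff.1 k.2.2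
  choose! z z1 z2 using ex
  have fp : (x.σ.bd U ×ˢ univ : Set (W × x.t.ι × Prop)).Finite := fb.prod finite_univ
  have ij : InjOn (fun q : x.t.ι × ℕ => (z q, q.1, z q = x.t.u q.1 q.2)) (bad U) := by
    rintro ⟨j, i⟩ a ⟨j', i'⟩ b e
    obtain ⟨e1, e⟩ := Prod.mk.inj e
    obtain ⟨rfl, e2⟩ := Prod.mk.inj e
    have a1 : i < x.t.m j := a.1
    have b1 : i' < x.t.m j := b.1
    by_contra c
    have ne : i ≠ i' := fun k => c (by rw [k])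
    have l1 := two_lanes a1 a.2.1 b1 b.2.1 ne (z1 _ a) (e1 ▸ z1 _ b)
    have l2 := two_lanes b1 b.2.1 a1 a.2.1 ne.symm (z1 _ b) (e1 ▸ z1 _ a)
    dsimp only at e1 e2
    by_cases d : z (j, i) = x.t.u j i
    · exact ne (ui j i a1.le i' b1.le (d.symm.trans (e1.trans (e2 ▸ d))))
    · have := ui j (i + 1) a1 (i' + 1) b1 ((l1.resolve_left d).symm.trans
        (e1.trans (l2.resolve_left (e2 ▸ d))))
      omega
  have mp : ∀ q ∈ bad U, (z q, q.1, z q = x.t.u q.1 q.2) ∈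
      (x.σ.bd U ×ˢ univ : Set (W × x.t.ι × Prop)) := fun q k => ⟨z2 q k, trivial⟩
  have fc : (bad U).Finite := Finite.of_injOn mp ij fp
  have c1 := ncard_le_ncard_of_injOn _ mp ij fp
  rw [ncard_prod, ncard_univ, Nat.card_eq_fintype_card, Fintype.card_prod, Fintype.card_prop] at c1
  have c2 := un_card fc (f := fun q => ({x.t.u q.1 q.2, x.t.u q.1 (q.2 + 1)} : Set W)) (k := 2)
    fun q => (ncard_insert_le _ _).trans (by rw [ncard_singleton])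
  have c3 := ncard_le_ncard (bdA (U := U)) (fb.union (fc.biUnion fun q _ => toFinite _))
  have c4 := ncard_union_le (x.σ.bd U) (⋃ q ∈ bad U, {x.t.u q.1 q.2, x.t.u q.1 (q.2 + 1)})
  have c5 : (x.σ.bd U).ncard * (Fintype.card x.t.ι * 2) ≤ (x.σ.bd U).ncard * (n * 2) := by gcongr
  show (hbd _ _).ncard ≤ (1 + 4 * n) * (x.σ.bd U).ncard
  nlinarith

variable (ψ) in
/-- the atoms of `U` in the first bags of a side whose link is not in `AA U` -/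
def YY (U : Set x.σ.ε) (j : x.t.ι) (i : ℕ) : Set x.σ.ε :=
  {a | a ∈ U ∧ ψ a ∉ AA U ∧ ∃ k < i, x.t.own a = some (.inr (j, k))}

theorem bdY (ui : UI x) (mk : x.σ.vs x.t.rest ⊆ x.t.Mk) (hψ : Psi ψ) (j : x.t.ι) (i : ℕ) :
    x.σ.bd (YY ψ U j i) ⊆ x.σ.bd U ∪ x.t.Mk ∪ x.t.κ j i ∪ x.σ.bd (ψ ⁻¹' AA U) := by
  rintro v ⟨⟨a, ⟨a1, a2, k, hk, e⟩, h⟩, a', ha', h'⟩
  by_cases c0 : v ∈ x.σ.bd U
  · exact Or.inl (Or.inl (Or.inl c0))
  have hv := mem_vs.2 ⟨a, a1, h⟩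
  have n : x.t.own a ≠ none := by simp [e]
  by_cases c1 : ψ a' ∈ AA U
  · exact Or.inr ⟨⟨a', c1, h'⟩, a, a2, h⟩
  by_cases n' : x.t.own a' = none
  · exact Or.inl (Or.inl (Or.inr (mk (mem_vs.2 ⟨a', n', h'⟩))))
  have m : ∀ s < i, x.t.own a' ≠ some (.inr (j, s)) := fun s hs l =>
    ha' ⟨side hv c0 h', c1, s, hs, l⟩
  obtain ⟨j', s, s', hs, hs', e1, e2, k1, k2⟩ := two_bags h h' n n' (fun l => m k hk (l ▸ e))
    fun c => a2 (inA (node_nb hψ h n c) hv c0)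
  rw [e] at e1
  cases e1
  exact Or.inl (Or.inr (betw2 ui k1 k2 hk (not_lt.1 fun l => m _ l e2) hs'))

end tm

end JGrid

open JGrid JWf JSeed

theorem ctlBlkS : TameS → CtlBlkS := by
  rintro - p x θ g g' θ1 θ2 T B B' hB hb hc h1 h2 h3 U hU ⟨i, j, hij⟩
  have fb : (Sum.inl '' x.σ.bd U : Set MV).Finite := (hbd_fin x.σ.inc_fin U).image _
  have cb : (Sum.inl '' x.σ.bd U : Set MV).ncard < g' := by
    rw [ncard_image_of_injective _ Sum.inl_injective]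
    exact hU.trans_le h2
  obtain ⟨h', e⟩ := (bigS _ _ _ B _ _ hB Subset.rfl).2.2.2.2 g' B' hb
  have e := e _ ∅ fb cb (disjoint_empty _)
  rw [union_empty] at e
  obtain ⟨i1, j1, d⟩ := miss2 h' injective_id injective_id fb cb
  obtain ⟨i2, u, hu, w, hw, a⟩ := edge h' h3 i1 j
  have uK := e ▸ cross_big (G := x.t.s.G) (D := x.t.s.T \ x.t.s.M.rad x.t.s.vx x.t.s.H) d
    (row_sub i1 j1 j hu)
  have nu : ¬col U u := by
    obtain ⟨v, n, -, hv, ⟨rfl, rfl⟩ | ⟨rfl, rfl⟩⟩ := adj_T (h'.1 _ hu).1 (h'.1 _ hw).1 a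
    · exact fun k => hij v k (col_sub i j i1 hu)
    · exact fun ⟨b, k, l⟩ => hij v (mem_vs.2 ⟨b, k, nb_inc l hv⟩) (col_sub i j i2 hw)
  have sK := big_sub (X := Sum.inl '' x.σ.bd U) hB Subset.rfl
  obtain ⟨i0, j0, d0, -⟩ := id uK
  refine hc U (hU.trans_le h1) ⟨i0, j0, fun v hv k => nu ?_⟩
  exact (col_link (fun z l => (sK l).1.1) (fun v l m => (sK l).2 ⟨v, m, rfl⟩)
    ((big_conn hB ⟨u, uK⟩).2 u uK _ (cross_big d0 k))).2 hv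

theorem gridJS : TameS → PatchS → GridJS := by
  intro tame patch p g θ1
  obtain ⟨n, tame⟩ := tame p
  obtain ⟨c, hc⟩ : ∃ c, c = (1 + 4 * n) * θ1 + 1 := ⟨_, rfl⟩
  obtain ⟨g0, patch⟩ := patch p.k p.q (g + c + 2)
  obtain ⟨θ', ctrl⟩ := ctrl0 (g0 + 3 * c + 4) c 3 (by omega) (by omega)
  obtain ⟨b1, hb1⟩ : ∃ b, b = p.c + (1 + n * (n + 1)) * (θ' + c + 3) := ⟨_, rfl⟩
  obtain ⟨b2, hb2⟩ : ∃ b, b = θ1 + p.c + (n + 1) + b1 := ⟨_, rfl⟩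
  refine ⟨n * b2 + b2 + p.c * p.K + p.K + 3 * n + 3, fun x θ T hθ => ?_⟩
  obtain ⟨t1, hι, -, -, mf, -, -, rc, -, mk, -, -, t2, ui, -, rr, -⟩ := tame x
  have hd : ∀ j, x.t.d j ≤ n := fun j => (t1 j).2.2
  have sy := x.σ.sym
  have ok := x.h.ok.ok
  have one : ∀ a, {a} ∈ T.sm ∧ x.σ.f {a} ≤ p.K := fun a =>
    have k := (x.h.atoms a trivial).2
    ⟨(T.tot _ (by omega)).resolve_right (T.atom a), k⟩
  have rest : x.t.rest ∈ T.sm ∧ x.σ.f x.t.rest ≤ p.c * p.K := by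
    have k := Nat.mul_le_mul_right p.K rc
    have := un_small T sy (toFinite x.t.rest) (fun a _ => one a) (by omega)
    rw [biUnion_of_singleton] at this
    exact ⟨this.1, this.2.trans k⟩
  have bag : ∀ j, ∀ i < x.t.m j, x.t.bag j i ∈ T.sm ∧ x.σ.f (x.t.bag j i) ≤ 2 * n + 2 := by
    intro j i hi
    obtain ⟨-, k1, -, -, -, -, -, k2⟩ := t2 j i hi
    have a1 := kap_card x j i
    have a2 := kap_card x j (i + 1)
    have a3 := (ncard_le_ncard k1 (a1.1.union a2.1)).trans (ncard_union_le _ _)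
    have a4 := hd j
    have a5 : x.σ.f (x.t.bag j i) ≤ 2 * n + 2 := by
      show (x.σ.bd _).ncard ≤ _
      omega
    exact ⟨bagS _ _ x.σ.inc θ n T _ x.σ.inc_fin k2 (by
      have : hf x.σ.inc (x.t.bag j i) ≤ 2 * n + 2 := a5
      omega), a5⟩
  obtain ⟨y0⟩ : Nonempty (E x) := by
    by_contra ne
    refine T.univ_not ((eq_univ_of_forall fun a => ?_) ▸ rest.1)
    rcases e : x.t.own a with _ | y | ⟨j, i⟩
    exacts [e, absurd ⟨⟨y, Or.inl (x.h.ok.ownc a y e)⟩⟩ ne,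
      absurd ⟨⟨_, lkE (x.h.ok.ownb a j i e)⟩⟩ ne]
  obtain ⟨ψ, hψ⟩ := exists_psi y0
  have fE := finE (x := x)
  have fi : ∀ y, (inc' x y).Finite := fun y => (inc'_card y).1
  have f3 : ∀ y, hf (inc' x) {y} ≤ 3 := fun y => by
    refine le_trans (ncard_le_ncard ?_ (fi y)) (inc'_card y).2
    rintro v ⟨⟨_, rfl, k⟩, -⟩
    exact k
  have pre : ∀ A, hf (inc' x) A ≤ θ' + c + 3 → x.σ.f (ψ ⁻¹' A) ≤ b1 := fun A k =>
    (f_pre ui mk mf hd hι hψ A).trans (by rw [hb1]; gcongr)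
  have sm1 : ∀ y, ψ ⁻¹' {y} ∈ T.sm := fun y => by
    have o := pre {y} ((f3 y).trans (by omega))
    obtain ⟨C, c1, c2, c3⟩ : ∃ C ∈ T.sm, x.σ.f C ≤ p.K ∧ ∀ a, x.t.own a = some (.inl y.1) → a ∈ C := by
      by_cases k : y.1 ∈ x.t.s.Ce
      · obtain ⟨a, e, -⟩ := x.h.cell _ k
        exact ⟨{a}, (one a).1, (one a).2, fun a' l => e ▸ l⟩
      · exact ⟨∅, emp T sy (by omega), by rw [sy.emp]; omega,
          fun a l => k (x.h.ok.ownc a _ l)⟩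
    by_cases k : ∃ j, ∃ i < x.t.m j, x.t.lk j i = y.1
    · obtain ⟨j, i, hi, e⟩ := k
      have := un_le sy C x.t.rest
      refine sub2 T (T.union_small c1 rest.1 (by omega)) (bag j i hi).1 (fun a ha => ?_) (by omega)
      have ha : ψ a = y := ha
      rcases e' : x.t.own a with _ | z | ⟨j', i'⟩
      · exact Or.inl (Or.inr e')
      · exact Or.inl (Or.inl (c3 a (by rw [e', ← ha, hψ.c a z e'])))
      · obtain ⟨rfl, rfl⟩ := x.h.ok.lkinj j j' i hi i' (x.h.ok.ownb a j' i' e')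
          (by rw [e, ← ha, hψ.b a j' i' e'])
        exact Or.inr e'
    · refine sub2 T c1 rest.1 (fun a ha => ?_) (by omega)
      have ha : ψ a = y := ha
      rcases e' : x.t.own a with _ | z | ⟨j', i'⟩
      · exact Or.inr e'
      · exact Or.inl (c3 a (by rw [e', ← ha, hψ.c a z e']))
      · exact absurd ⟨j', i', x.h.ok.ownb a j' i' e', by rw [← ha, hψ.b a j' i' e']⟩ k
  obtain ⟨B0, m0, ct⟩ := ctrl (E x) W (inc' x) θ' (T.push (hf_sym fi) (fun A => ψ ⁻¹' A)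
    (fun _ => preimage_compl) (fun _ _ => preimage_union)
    (fun A k => by have := pre A (by omega); omega) fun y => T.not_both (sm1 y)) le_rfl fi f3
  -- the model in the map
  let μ : W ⊕ E x → MV := Sum.elim Sum.inl Subtype.val
  have μi : Injective μ := by
    rintro (v | y) (w | z) e
    · exact congrArg _ (Sum.inl_injective e)
    · obtain ⟨k, l⟩ := (E_tv z.2).2
      cases l.trans e.symm
    · obtain ⟨k, l⟩ := (E_tv y.2).2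
      cases l.trans e
    · exact congrArg _ (Subtype.ext e)
  have μa : ∀ u w, (ig (inc' x)).Adj u w → x.t.s.G.Adj (μ u) (μ w) := by
    rintro _ _ ⟨v, y, k, ⟨rfl, rfl⟩ | ⟨rfl, rfl⟩⟩
    exacts [k.symm, k]
  have m1 : Model (fb.grid _) x.t.s.G (x.t.s.M.tv x.t.s.vx x.t.s.H) fun q => μ '' B0 q := by
    refine ⟨?_, fun q => ⟨(m0.2.1 q).1.image _, ?_⟩, fun q q' ne =>
      disjoint_image_of_injective μi (m0.2.2.1 q q' ne), fun q q' a => ?_⟩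
    · rintro q _ ⟨v | y, hz, rfl⟩
      · obtain ⟨w, k⟩ := has_nb m0 (by omega) hz
        refine ⟨(adj_vt ok (μa _ _ k).symm).1, fun l => ?_⟩
        obtain ⟨_, l⟩ := ok.hr.1 l
        cases l
      · exact (E_tv y.2).1
    · rintro _ ⟨u, hu, rfl⟩ _ ⟨w, hw, rfl⟩
      exact Link.map μ (fun a ha b hb e =>
        Link.single (mem_image_of_mem μ ha) (mem_image_of_mem μ hb) (μa a b e))
        ((m0.2.1 q).2 u hu w hw)
    · obtain ⟨u, hu, w, hw, e⟩ := m0.2.2.2 q q' a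
      exact ⟨_, mem_image_of_mem μ hu, _, mem_image_of_mem μ hw, μa u w e⟩
  obtain ⟨i0, j0, e1, e2, a1, a2, a3⟩ := patch _ (by omega) _ _ _ _ _ _ ok.hm x.h.eg x.h.holes m1
  have m2 := ((bigS _ _ _ _ _ _ m1 Subset.rfl).2.2.2.2 _ (fun q => μ '' B0 (e1 q.1, e2 q.2))
    ⟨i0, j0, e1, e2, a1, a2, fun _ => rfl⟩).1
  have m0' := ((bigS _ _ _ _ _ _ m0 Subset.rfl).2.2.2.2 _ (fun q => B0 (e1 q.1, e2 q.2))
    ⟨i0, j0, e1, e2, a1, a2, fun _ => rfl⟩).1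
  have m3 : x.t.s.Grid fun q => μ '' B0 (e1 q.1, e2 q.2) := by
    refine ⟨fun q z hz => ?_, m2.2⟩
    have k1 := m2.1 q hz
    have k2 := disjoint_left.1 (a3 q.1 q.2) hz
    refine ⟨?_, k2⟩
    rcases z with v | r
    · exact Or.inl ⟨k1.1, v, rfl⟩
    · exact Or.inr ⟨⟨k1.1, r, rfl⟩, fun l => l.elim k1.2 fun l => k2 (rr ⟨l, k1.1⟩)⟩
  have ctl : Ctl x.σ T (fun q => μ '' B0 (e1 q.1, e2 q.2)) θ1 := by
    rintro U hU ⟨i, j, hij⟩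
    have oA : hf (inc' x) (AA U) < c := by
      have k1 := fA ui hι U
      have k2 : (1 + 4 * n) * x.σ.f U ≤ (1 + 4 * n) * θ1 := Nat.mul_le_mul_left _ hU.le
      omega
    obtain ⟨i1, r1⟩ := miss_line (R := fun i => ⋃ k, B0 (e1 i, k)) (fun s s' z k l => by
      obtain ⟨r, k⟩ := mem_iUnion.1 k
      obtain ⟨r', l⟩ := mem_iUnion.1 l
      have e : e1 s = e1 s' := congrArg Prod.fst
        (not_not.1 fun m => disjoint_left.1 (m0.2.2.1 (e1 s, r) (e1 s', r') m) k l)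
      have := a1 s
      have := a1 s'
      exact Fin.ext (by omega)) (hbd_fin fi (AA U)) (oA.trans_le (by omega))
    have cr : Conn (ig (inc' x)) (⋃ k, B0 (e1 i1, k)) := conn_line (by omega)
      (fun _ => m0.2.1 _) fun _ _ k => m0.2.2.2 _ _ (Or.inl ⟨rfl, Or.inl k⟩)
    obtain ⟨i2, u, hu, w, hw, a⟩ := edge m0' (by omega) i1 j
    have uR : u ∈ ⋃ k, B0 (e1 i1, k) := mem_iUnion.2 ⟨_, hu⟩
    have key : ∀ v y s s', v ∈ inc' x y → Sum.inl v ∈ B0 (e1 s, e2 j) →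
        Sum.inr y ∈ B0 (e1 s', e2 j) → y ∉ AA U := by
      rintro v y s s' k l l' (⟨a, ha, e⟩ | ⟨-, -, -, -, r, -⟩)
      · exact hij v (mem_vs.2 ⟨a, ha, nb_inc e k⟩) (col_sub i j s (mem_image_of_mem μ l))
      · exact disjoint_left.1 (a3 s' j) (mem_image_of_mem μ l') (rr ⟨r, (E_tv y.2).1.1⟩)
    have nu : ¬gside (inc' x) (AA U) u := by
      obtain ⟨v, y, k, ⟨rfl, rfl⟩ | ⟨rfl, rfl⟩⟩ := a
      · exact fun l => r1 v uR ⟨l, y, key v y _ _ k hu hw, k⟩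
      · exact key v y _ _ k hw hu
    have sA : ψ ⁻¹' AA U ∈ T.sm := (ct _ oA ⟨e1 i1, fun r y k l =>
      nu ((gside_link r1 (cr.2 u uR _ (mem_iUnion.2 ⟨r, k⟩))).2 l)⟩).2
    have fA' := pre (AA U) (by omega)
    have fY : ∀ s r, x.σ.f (YY ψ U s r) ≤ b2 := fun s r => by
      have k0 := kap_card x s r
      have k1 := ncard_le_ncard (bdY (U := U) ui mk hψ s r)
        ((((hbd_fin x.σ.inc_fin U).union mf).union k0.1).union (hbd_fin x.σ.inc_fin _))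
      have k2 := ncard_union_le (x.σ.bd U ∪ x.t.Mk ∪ x.t.κ s r) (x.σ.bd (ψ ⁻¹' AA U))
      have k3 := ncard_union_le (x.σ.bd U ∪ x.t.Mk) (x.t.κ s r)
      have k4 := ncard_union_le (x.σ.bd U) x.t.Mk
      have k5 := x.h.marks
      have k6 := hd s
      have k7 : (x.σ.bd U).ncard < θ1 := hU
      have k8 : (x.σ.bd (ψ ⁻¹' AA U)).ncard ≤ b1 := fA'
      show (x.σ.bd _).ncard ≤ _
      omega
    have sY : ∀ s, ∀ r ≤ x.t.m s, YY ψ U s r ∈ T.sm := fun s r => by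
      induction r with
      | zero =>
        exact fun _ => T.sub_small (emp T sy (by omega)) (fun a ⟨_, _, k, hk, _⟩ => by omega)
          (by have := fY s 0; omega)
      | succ r ih =>
        intro hr
        refine sub2 T (ih (by omega)) (bag s r hr).1 ?_ (by have := fY s (r + 1); omega)
        rintro a ⟨k1, k2, k, hk, e⟩
        rcases (Nat.lt_succ_iff.1 hk).lt_or_eq with l | rfl
        exacts [Or.inl ⟨k1, k2, k, l, e⟩, Or.inr e]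
    have sU := (un_small T sy (finite_univ (α := x.t.ι)) (fun s _ => ⟨sY s _ le_rfl, fY s _⟩) (by
      rw [ncard_univ, Nat.card_eq_fintype_card]
      have := Nat.mul_le_mul_right b2 hι
      omega)).1
    have := un_le sy (ψ ⁻¹' AA U) x.t.rest
    refine sub2 T (T.union_small sA rest.1 (by omega)) sU (fun a ha => ?_) (by omega)
    rcases e : x.t.own a with _ | y | ⟨s, r⟩
    · exact Or.inl (Or.inr e)
    · exact Or.inl (Or.inl (Or.inl ⟨a, ha, by rw [e, hψ.c a y e]⟩))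
    · by_cases k : ψ a ∈ AA U
      · exact Or.inl (Or.inl k)
      · exact Or.inr (mem_biUnion (mem_univ s) ⟨ha, k, r, x.h.ok.ownb a s r e, e⟩)
  obtain ⟨B, m4, cr⟩ := coarse m3 (n := g) (by omega)
  refine ⟨B, m4, fun U hU ⟨i, j, k⟩ => ?_⟩
  obtain ⟨i', j', l⟩ := cr i j
  exact ctl U hU ⟨i', j', fun v hv m => k v hv (l m)⟩

end Pool.Agent.MP_9d78a0_co.gm

end MrgPart0

-- ======== part 1: formerly Pool.Agent.MP_9d78a0_co.gm.JMat0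
section MrgPart1

/-! The source map without its rims; sites; terminals. -/

set_option autoImplicit false

namespace Pool.Agent.MP_9d78a0_co.gm.JMat

open Set Function Relation Cy FM

theorem ret_eq {α : Type} {π : α → α} {U : Set α} {x : α} (d : ℕ) (h : π^[d] x ∈ U)
    (h' : ∀ i < d, π^[i] x ∉ U) : ret π U x = π^[d] x := by
  have : sInf {n | π^[n] x ∈ U} = d := le_antisymm (Nat.sInf_le h)
    (not_lt.1 fun k => h' _ k (Nat.sInf_mem (s := {n | π^[n] x ∈ U}) ⟨d, h⟩))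
  rw [ret, this]

theorem ret_zero {α : Type} {π : α → α} {U : Set α} {x : α} (h : x ∈ U) : ret π U x = x :=
  ret_eq 0 h fun _ k => (Nat.not_lt_zero _ k).elim

section Sk

variable {s : Sk} {f g : s.Φ} {Y : Set MV}

theorem not_nd (h : s.Ok) {x : MV} (hx : x ∈ s.H ∨ x ∈ s.Rm ∨ x ∈ s.Ce) : x ∉ s.Nd :=
  fun ⟨_, v, e⟩ => by
    obtain ⟨n, k⟩ := hx.elim (h.hr.1 ·) fun k => k.elim (h.hr.2.1 ·) (·.1.2)
    rw [← e] at k; cases k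

theorem tri (hf : f ∈ s.M.S) : s.vx f ∈ s.Nd ∨ s.vx f ∈ s.H ∨ s.vx f ∈ s.Rm ∨ s.vx f ∈ s.Ce := by
  by_cases k : s.vx f ∈ s.H ∪ s.Rm
  · exact Or.inr (k.imp id Or.inl)
  · rcases e : s.vx f with v | n
    · exact Or.inl ⟨⟨f, hf, e⟩, v, rfl⟩
    · exact Or.inr (Or.inr (Or.inr ⟨⟨⟨f, hf, e⟩, n, rfl⟩, e ▸ k⟩))

theorem a_nd (h : s.Ok) (hf : f ∈ s.M.S) (hx : s.vx f ∉ s.Nd) : s.vx (s.M.a f) ∈ s.Nd :=
  by_contra fun k => hx ((h.bip f hf).2 k)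

theorem site_ok (h : s.Ok) (hY : Y ⊆ s.Ce) : (s.site Y).Ok := by
  have hm := h.hm
  refine ⟨⟨hm.ok, hm.lbl, hm.con, fun f hf => ⟨(hm.simple f hf).1, fun g hg k1 k2 =>
    (hm.simple f hf).2 g hg (fun k => k1 (Or.inl k)) fun k => k2 (Or.inl k)⟩, fun f hf k k' => ?_⟩,
    h.ps, ⟨union_subset h.hr.1 fun y hy => (hY hy).1.2, h.hr.2.1, disjoint_union_left.2
      ⟨h.hr.2.2, disjoint_left.2 fun y hy k => (hY hy).2 (Or.inr k)⟩⟩, h.od, h.bip,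
    fun f hf => ⟨fun k => (h.deg f hf).1 ⟨k.1, fun k1 => k.2 (k1.imp_left Or.inl)⟩, (h.deg f hf).2⟩,
    fun y hy => let ⟨f, hf, k⟩ := h.rim y hy; ⟨f, ⟨hf.1, Or.inl hf.2⟩, k⟩⟩
  exact not_nd h (k'.imp_right fun k => Or.inr (hY k))
    (a_nd h hf (not_nd h (k.imp_right fun k => Or.inr (hY k))))

theorem site_spk (h : s.Ok) (hs : s.Spk) (hY : Y ⊆ s.Ce) : (s.site Y).Spk := fun f hf g hg e e' => by
  by_cases k : s.vx f ∈ s.H
  · exact hs f ⟨hf.1, k⟩ g hg e e'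
  · exact (h.hm.simple f hf.1).2 g hg k (fun k1 => not_nd h (Or.inl k1)
      (a_nd h hf.1 (not_nd h (Or.inr (Or.inr (hY (hf.2.resolve_left k))))))) e e'

/-- the four flags at a rim -/
theorem rim_spec (h : s.Ok) (hg : g ∈ s.M.S) (hx : s.vx g ∈ s.Rm) :
    ∃ f ∈ s.M.fl s.vx s.H, ∃ z ∈ s.M.S, s.vx z = s.vx g ∧ s.M.a z = s.M.b (s.M.a f) ∧
      s.M.a (s.M.b z) = s.M.b (s.M.a (s.M.b f)) ∧ ∀ w ∈ s.M.S, s.vx w = s.vx g →
        w = z ∨ w = s.M.c z ∨ w = s.M.b z ∨ w = s.M.c (s.M.b z) := by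
  have hM := h.hm.ok
  obtain ⟨f, hf, hq, e⟩ := h.rim _ ⟨hx, g, hg, rfl⟩
  have s1 := hM.b_mem (hM.a_mem hf.1)
  have s2 := hM.a_mem s1
  have s3 := hM.a_mem (hM.b_mem s2)
  have s4 := hM.b_mem s3
  have q : s.M.b (s.M.a (s.M.b (s.M.a (s.M.b (s.M.a (s.M.b (s.M.a f))))))) = f := hq
  refine ⟨f, hf, _, s2, e, hM.aa s1, ?_, fun w hw k => ?_⟩
  · rw [← hM.bb s3, ← hM.aa s4, ← hM.bb (hM.a_mem s4), q]
  · obtain ⟨i, hi, k⟩ := (rot_enum hM s2).2.2.2.2.2.2 w ((h.hm.lbl _ s2 w hw).1 (e.trans k.symm))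
    rw [(h.deg _ s2).2 ((show s.vx _ = _ from e).symm ▸ hx)] at hi
    have := hM.cc (hM.b_mem s2)
    interval_cases i <;> simp only [iterate_succ, iterate_zero, comp_apply, id, rot] at k <;> grind

theorem mem_nr (h : s.Ok) (hf : f ∈ s.M.S) (h1 : s.vx f ∉ s.Nd) (h2 : s.vx f ∉ s.Rm) :
    f ∈ s.M.ind s.vx s.Rmᶜ := ⟨hf, h2, fun k => not_nd h (Or.inr (Or.inl k)) (a_nd h hf h1)⟩

theorem hole_nr (h : s.Ok) (hf : f ∈ s.M.fl s.vx s.H) : f ∈ s.M.ind s.vx s.Rmᶜ :=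
  mem_nr h hf.1 (not_nd h (Or.inl hf.2)) (disjoint_left.1 h.hr.2.2 hf.2)

theorem eg_nr (h : s.Ok) : (s.M.sub (s.M.ind s.vx s.Rmᶜ)).eg = s.M.eg := by
  have hM := h.hm.ok
  have hL := h.hm.lbl
  have hU := es_ind hM hL s.Rmᶜ
  refine (eg_sub_le hM hU).eq_of_not_lt fun k => ?_
  obtain ⟨β, χ, hβ, c1, c2, b0, e, he, b1, w⟩ := noCobS _ s.M _ hM hU k
  have key : ∀ g ∈ s.M.S, s.vx g ∈ s.Rm → ∀ w ∈ s.M.S, s.vx w = s.vx g → β w = β g := by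
    intro g hg hx
    obtain ⟨f, hf, z, hz, e0, e1, e2, e3⟩ := rim_spec h hg hx
    have bf : s.M.b f ∈ s.M.fl s.vx s.H := ⟨hM.b_mem hf.1, (hL.b hM hf.1).symm ▸ hf.2⟩
    have k1 := c1 z hz
    have k2 := c1 _ (hM.b_mem hz)
    rw [e1, c2 _ (hM.a_mem hf.1), c1 f hf.1, b0 f (hole_nr h hf)] at k1
    rw [e2, c2 _ (hM.a_mem bf.1), c1 _ bf.1, b0 _ (hole_nr h bf), c2 f hf.1, c2 z hz] at k2
    have k3 : β (s.M.b z) = β z := by
      simp only [Pi.zero_apply, add_zero] at k1 k2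
      exact add_left_cancel (k2.symm.trans k1)
    have k4 : ∀ w ∈ s.M.S, s.vx w = s.vx g → β w = β z := fun w hw e => by
      rcases e3 w hw e with rfl | rfl | rfl | rfl
      exacts [rfl, (hβ z hz).2, k3, (hβ _ (hM.b_mem hz)).2.trans k3]
    exact fun w hw e => (k4 w hw e).trans (k4 g hg rfl).symm
  have w' : s.M.R {x | β x = 0} univ e (s.M.a e) :=
    ReflTransGen.mono (fun x y k => by simpa [or_comm] using k.imp_right Or.symm) _ _ w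
  have ne := (h.hm.simple e he).1
  by_cases k1 : s.vx e ∈ s.Rm
  · refine ne (w'.ind (p := fun z => s.vx e = s.vx z) hM he rfl
      (fun z hz k => k.trans (hL.b hM hz).symm) (fun z hz k0 k => ?_)
      fun z hz _ k => k.trans (hL.c hM hz).symm)
    have := (key e he k1 z hz k.symm).symm.trans k0
    simp [b1] at this
  · have k2 : s.vx (s.M.a e) ∈ s.Rm := by_contra fun k2 => by simpa [b1] using b0 e ⟨he, k1, k2⟩
    refine w'.ind (p := fun z => s.vx z ≠ s.vx (s.M.a e)) hM he ne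
      (fun z hz k => by rwa [hL.b hM hz]) (fun z hz k0 k k3 => ?_)
      (fun z hz _ k => by rwa [hL.c hM hz]) rfl
    have := key _ (hM.a_mem he) k2 _ (hM.a_mem hz) k3
    rw [(hβ z hz).1, (hβ e he).1, b1, show β z = 0 from k0] at this
    simp at this

theorem con_nr (h : s.Ok) : (s.M.sub (s.M.ind s.vx s.Rmᶜ)).Con := by
  have hM := h.hm.ok
  have hL := h.hm.lbl
  have hU := es_ind hM hL s.Rmᶜ
  intro f hf g hg
  rw [mem_co, sub_R hM hU hf hg, univ_inter, univ_union]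
  have key : ∀ z ∈ s.M.S, s.vx z ∈ s.Rm → ∀ w ∈ s.M.S, s.vx w = s.vx z →
      s.M.R (s.M.ind s.vx s.Rmᶜ) univ (s.M.a z) (s.M.a w) := by
    intro g hg hx
    obtain ⟨f, hf, z, hz, e0, e1, e2, e3⟩ := rim_spec h hg hx
    have bf : s.M.b f ∈ s.M.fl s.vx s.H := ⟨hM.b_mem hf.1, (hL.b hM hf.1).symm ▸ hf.2⟩
    have k1 : s.M.R (s.M.ind s.vx s.Rmᶜ) univ f (s.M.a z) := e1 ▸ (R.rfl.a (hole_nr h hf)).b
    have k2 : s.M.R (s.M.ind s.vx s.Rmᶜ) univ f (s.M.a (s.M.b z)) :=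
      e2 ▸ (R.rfl.b.a (hole_nr h bf)).b
    have k4 : ∀ w ∈ s.M.S, s.vx w = s.vx g → s.M.R (s.M.ind s.vx s.Rmᶜ) univ f (s.M.a w) :=
      fun w hw e => by
        rcases e3 w hw e with rfl | rfl | rfl | rfl
        exacts [k1, hM.comm hz ▸ k1.c trivial, k2, hM.comm (hM.b_mem hz) ▸ k2.c trivial]
    exact fun w hw e => ((k4 g hg rfl).symm hM hU.cl cl_univ hf.1).trans (k4 w hw e)
  refine ((mem_co.1 (h.hm.con f hf.1 g hg.1)).ind (p := fun z => (s.vx z ∉ s.Rm →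
    s.M.R (s.M.ind s.vx s.Rmᶜ) univ f z) ∧ (s.vx z ∈ s.Rm →
      s.M.R (s.M.ind s.vx s.Rmᶜ) univ f (s.M.a z))) hM hf.1 ⟨fun _ => .rfl, fun k => (hf.2.1 k).elim⟩
    (fun z hz k => ?_) (fun z hz _ k => ⟨fun k1 => ?_, fun k1 => ?_⟩) fun z hz _ k => ?_).1 hg.2.1
  · rw [hL.b hM hz]
    exact ⟨fun k1 => (k.1 k1).b, fun k1 => (k.2 k1).trans (key z hz k1 _ (hM.b_mem hz) (hL.b hM hz))⟩
  · by_cases k2 : s.vx z ∈ s.Rm
    exacts [k.2 k2, (k.1 k2).a ⟨hz, k2, k1⟩]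
  · rw [hM.aa hz]
    exact k.1 fun k2 => not_nd h (Or.inr (Or.inl k1)) (a_nd h hz (not_nd h (Or.inr (Or.inl k2))))
  · rw [hL.c hM hz]
    exact ⟨fun k1 => (k.1 k1).c trivial, fun k1 => hM.comm hz ▸ (k.2 k1).c trivial⟩

theorem nd_nr (h : s.Ok) {v : MV} (hv : v ∈ s.Nd) : ∃ f ∈ s.M.ind s.vx s.Rmᶜ, s.vx f = v := by
  have hM := h.hm.ok
  have hL := h.hm.lbl
  obtain ⟨g, hg, rfl⟩ := hv.1
  by_cases k : s.vx (s.M.a g) ∈ s.Rm
  · obtain ⟨f, hf, z, hz, -, e1, e2, e3⟩ := rim_spec h (hM.a_mem hg) k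
    have bf : s.M.b f ∈ s.M.fl s.vx s.H := ⟨hM.b_mem hf.1, (hL.b hM hf.1).symm ▸ hf.2⟩
    have k1 : ∀ f ∈ s.M.fl s.vx s.H, ∃ w ∈ s.M.ind s.vx s.Rmᶜ, s.vx w = s.vx (s.M.b (s.M.a f)) :=
      fun f hf => ⟨_, ((es_ind hM hL _).2 f (hole_nr h hf)).1, (hL.b hM (hM.a_mem hf.1)).symm⟩
    rw [← hM.aa hg]
    rcases e3 _ (hM.a_mem hg) rfl with e | e | e | e <;> rw [e]
    exacts [e1 ▸ k1 f hf, by rw [hL.ac hM hz, e1]; exact k1 f hf, e2 ▸ k1 _ bf,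
      by rw [hL.ac hM (hM.b_mem hz), e2]; exact k1 _ bf]
  · exact ⟨g, ⟨hg, fun k1 => not_nd h (Or.inr (Or.inl k1)) hv, k⟩, rfl⟩

theorem ori_rot {Φ : Type} {M : FM Φ} {o : Φ → Prop} (hM : M.Ok) (ho : M.Ori o) {f : Φ}
    (hf : f ∈ M.S) (i : ℕ) : o (M.rot^[i] f) ↔ o f := by
  induction i with
  | zero => rfl
  | succ i ih =>
    have k := hM.vo_mem hf ((rot_enum hM hf).2.2.2.1 i)
    rw [iterate_succ_apply', rot, (ho _ (hM.b_mem k)).2.2, (ho _ k).2.1, not_not, ih]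

end Sk

section Sh

variable {σ : AG} {t : Sh σ} {j j' : t.ι} {i i' : ℕ} {f : t.s.Φ}

theorem φ_succ (t : Sh σ) (j : t.ι) (i : ℕ) : t.φ j (i + 1) = t.s.M.rot (t.φ j i) :=
  iterate_succ_apply' ..

theorem φ_vx (h : t.Ok) (j : t.ι) (i : ℕ) : t.s.vx (t.φ j i) = t.s.vx (t.φ j 0) :=
  h.ok.hm.lbl.of_vo h.ok.hm.ok (h.hole j).1 ((rot_enum h.ok.hm.ok (h.hole j).1).2.2.2.1 i)

theorem φ_mem (h : t.Ok) (j : t.ι) (i : ℕ) : t.φ j i ∈ t.s.M.fl t.s.vx t.s.H :=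
  ⟨h.ok.hm.ok.vo_mem (h.hole j).1 ((rot_enum h.ok.hm.ok (h.hole j).1).2.2.2.1 i),
    φ_vx h j i ▸ (h.hole j).2⟩

theorem c_fl (h : t.Ok) (hf : f ∈ t.s.M.fl t.s.vx t.s.H) : t.s.M.c f ∈ t.s.M.fl t.s.vx t.s.H :=
  ⟨h.ok.hm.ok.c_mem hf.1, (h.ok.hm.lbl.c h.ok.hm.ok hf.1).symm ▸ hf.2⟩

theorem rot_c {Φ : Type} {M : FM Φ} (hM : M.Ok) {f : Φ} (hf : f ∈ M.S) :
    M.rot (M.c (M.rot f)) = M.c f := (rotS _ M hM f hf).2.2.2.2.2

theorem rot_inj {Φ : Type} {M : FM Φ} (hM : M.Ok) {f g : Φ} (hf : f ∈ M.S) (hg : g ∈ M.S)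
    (e : M.rot f = M.rot g) : f = g := by
  rw [← hM.cc hf, ← rot_c hM hf, e, rot_c hM hg, hM.cc hg]

theorem fx_c (h : t.Ok) (hf : f ∈ t.Fx) : t.s.M.c f ∈ t.Fx :=
  ⟨c_fl h hf.1, fun j i hi => ⟨fun e => (hf.2 j i hi).2 (by rw [← e, h.ok.hm.ok.cc hf.1.1]),
    fun e => (hf.2 j i hi).1 (by rw [← h.ok.hm.ok.cc hf.1.1, e, h.ok.hm.ok.cc (φ_mem h j i).1])⟩⟩

theorem sg_mem (h : t.Ok) (hf : f ∈ t.Sg) : f ∈ t.s.M.fl t.s.vx t.s.H := by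
  rcases hf with hf | ⟨j, rfl | rfl | rfl | rfl⟩
  exacts [hf.1, φ_mem h j 0, c_fl h (φ_mem h j 0), φ_mem h j _, c_fl h (φ_mem h j _)]

theorem sg_c (h : t.Ok) (hf : f ∈ t.Sg) : t.s.M.c f ∈ t.Sg := by
  rcases hf with hf | ⟨j, rfl | rfl | rfl | rfl⟩
  · exact Or.inl (fx_c h hf)
  all_goals refine Or.inr ⟨j, ?_⟩; simp [h.ok.hm.ok.cc (φ_mem h j _).1]

/-- after a fixed flag or the end of a side comes a fixed flag or the start of a side -/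
theorem next_sg (h : t.Ok) (hf : f ∈ t.Fx ∨ ∃ j, f = t.φ j (t.m j) ∨ f = t.s.M.c (t.φ j 0)) :
    t.s.M.rot f ∈ t.Sg := by
  have hM := h.ok.hm.ok
  have f1 : f ∈ t.s.M.fl t.s.vx t.s.H := by
    rcases hf with hf | ⟨j, rfl | rfl⟩
    exacts [hf.1, φ_mem h j _, c_fl h (φ_mem h j 0)]
  have f2 : ∀ j, ∀ i < t.m j, f ≠ t.φ j i ∧ f ≠ t.s.M.c (t.φ j (i + 1)) := fun j i hi => by
    rcases hf with hf | ⟨j', rfl | rfl⟩
    · exact ⟨(hf.2 j i hi.le).1, (hf.2 j _ hi).2⟩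
    · refine ⟨fun e => ?_, (h.sep j j' _ hi _ le_rfl).1⟩
      obtain ⟨rfl, rfl⟩ := (h.sep j j' _ hi.le _ le_rfl).2 e
      omega
    · refine ⟨(h.sep j' j 0 (by omega) i hi.le).1.symm, fun e => ?_⟩
      have := ((h.sep j j' _ hi 0 (by omega)).2 (by
        rw [← hM.cc (φ_mem h j' 0).1, e, hM.cc (φ_mem h j _).1])).2
      omega
  by_cases k : t.s.M.rot f ∈ t.Fx
  · exact Or.inl k
  have r1 : t.s.M.rot f ∈ t.s.M.fl t.s.vx t.s.H := ((fSkS _ h.ok).2.1 f f1).2.2.1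
  simp only [Sh.Fx, mem_setOf_eq, r1, true_and, not_forall, not_and_or, not_not] at k
  obtain ⟨j, i, hi, k | k⟩ := k
  · rcases i with _ | i
    · exact Or.inr ⟨j, Or.inl k⟩
    · exact ((f2 j i hi).1 (rot_inj hM f1.1 (φ_mem h j i).1 (k.trans (φ_succ t j i)))).elim
  · rcases hi.eq_or_lt with rfl | hi
    · exact Or.inr ⟨j, Or.inr (Or.inr (Or.inr k))⟩
    · exact ((f2 j i hi).2 (rot_inj hM f1.1 (hM.c_mem (φ_mem h j _).1)
        (by rw [k, φ_succ, rot_c hM (φ_mem h j i).1]))).elim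

theorem u_nd (h : t.Ok) (j : t.ι) (i : ℕ) : t.s.vx (t.s.M.a (t.φ j i)) = Sum.inl (t.u j i) :=
  ((fSkS _ h.ok).2.1 _ (φ_mem h j i)).1

theorem seg_conn (h : t.Ok) (C : t.ι → ℕ → Prop) {a : ℕ} (ha : a ≤ t.m j) :
    Conn t.s.G (t.seg C (Sum.inl (j, a))) := by
  have adj : ∀ i < t.m j, t.s.G.Adj (t.lk j i) (Sum.inl (t.u j i)) ∧
      t.s.G.Adj (t.lk j i) (Sum.inl (t.u j (i + 1))) := fun i hi => by
    have := ((fSkS _ h.ok).2.1 _ (φ_mem h j i)).2.2.2.2.2.2.2 (h.quad j i hi).1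
    exact ⟨this.1, by rw [Sh.u, φ_succ]; exact this.2.1⟩
  have key : ∀ i, a ≤ i → i ≤ t.m j → (∀ k, a ≤ k → k < i → ¬ C j k) →
      Link t.s.G (t.seg C (Sum.inl (j, a))) (Sum.inl (t.u j a)) (Sum.inl (t.u j i)) ∧
      (a < i → Link t.s.G (t.seg C (Sum.inl (j, a))) (Sum.inl (t.u j a)) (t.lk j (i - 1))) := by
    intro i hi
    induction i, hi using Nat.le_induction with
    | base => exact fun _ _ => ⟨.refl .., fun k => (lt_irrefl _ k).elim⟩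
    | succ i hi ih =>
      intro h1 h2
      have h3 : ∀ k, a ≤ k → k < i → ¬ C j k := fun k k1 k2 => h2 k k1 (by omega)
      have m1 : t.lk j i ∈ t.seg C (Sum.inl (j, a)) :=
        ⟨i + 1, by omega, h1, h2, Or.inr ⟨by omega, rfl⟩⟩
      have l1 := (ih (by omega) h3).1.trans
        (.single ⟨i, hi, Nat.le_of_succ_le h1, h3, Or.inl rfl⟩ m1 (adj i h1).1.symm)
      exact ⟨l1.trans (.single m1 ⟨i + 1, by omega, h1, h2, Or.inl rfl⟩ (adj i h1).2), fun _ => l1⟩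
  have k : ∀ z ∈ t.seg C (Sum.inl (j, a)),
      Link t.s.G (t.seg C (Sum.inl (j, a))) (Sum.inl (t.u j a)) z := by
    rintro _ ⟨i, h1, h2, h3, rfl | ⟨h4, rfl⟩⟩
    exacts [(key i h1 h2 h3).1, (key i h1 h2 h3).2 h4]
  exact ⟨⟨_, a, le_rfl, ha, fun k k1 k2 => by omega, Or.inl rfl⟩,
    fun u hu v hv => (k u hu).symm.trans (k v hv)⟩

end Sh

end Pool.Agent.MP_9d78a0_co.gm.JMat

end MrgPart1

-- ======== part 2: formerly Pool.Agent.MP_9d78a0_co.gm.JMat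
section MrgPart2

/-! The routing theorem applied to the source map without its rims. -/

set_option autoImplicit false

namespace Pool.Agent.MP_9d78a0_co.gm

open Set Function Relation Cy FM

namespace JMat

/-- the data -/
structure Dt (p : Par) where
  x0 : TM p
  x : TM p
  e : x0.t.ι ≃ x.t.ι
  μ : x0.t.s.Φ → x.t.s.Φ
  fl0 : MV → x0.t.s.Φ
  fl : MV → x.t.s.Φ
  ch : x0.t.ι → ℕ → ℕ
  hm : Match x0 x e μ
  hs : Sites x0 x x0.t.s.Ce fl0 fl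
  hc : ∀ j, Ch1 x0 x j (e j) (ch j)
  p1 : ∀ f ∈ x.t.s.M.fl x.t.s.vx (x.t.s.H ∪ sites x0 x fl),
    ∀ f' ∈ x.t.s.M.fl x.t.s.vx (x.t.s.H ∪ sites x0 x fl), x.t.s.far f = x.t.s.far f' →
      f' = f ∨ f' = x.t.s.M.c f
  p2 : ∀ y ∈ x.t.s.H ∪ sites x0 x fl, ∀ y' ∈ x.t.s.H ∪ sites x0 x fl,
    (x.t.s.M.rad x.t.s.vx {y} ∩ x.t.s.M.rad x.t.s.vx {y'}).Nonempty → y = y'

namespace Dt

variable {p : Par} (d : Dt p)

theorem o0 : d.x0.t.Ok := d.x0.h.ok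
theorem o1 : d.x.t.Ok := d.x.h.ok
theorem m0 : d.x0.t.s.M.Ok := d.o0.ok.hm.ok
theorem m1 : d.x.t.s.M.Ok := d.o1.ok.hm.ok
theorem l0 : d.x0.t.s.M.Lbl d.x0.t.s.vx := d.o0.ok.hm.lbl
theorem l1 : d.x.t.s.M.Lbl d.x.t.s.vx := d.o1.ok.hm.lbl

/-- the sites, the fixed flags with the sites, the chosen bags -/
abbrev Y : Set MV := sites d.x0 d.x d.fl
abbrev Fx' : Set d.x.t.s.Φ := (d.x.t.site d.Y).Fx
abbrev C : d.x.t.ι → ℕ → Prop := chosen d.x0 d.x d.e d.ch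

theorem Y_ce : d.Y ⊆ d.x.t.s.Ce := fun _ ⟨y, hy, e⟩ => e ▸ (d.hs.tgt y hy).2.1

/-- the spoke that is matched with spoke `k` -/
def idx (j : d.x0.t.ι) (k : ℕ) : ℕ :=
  if k = d.x0.t.m j then d.x.t.m (d.e j) else start (d.ch j) k

variable {j : d.x0.t.ι} {k k' : ℕ}

theorem ch_mono (h : k < k') (h' : k' < d.x0.t.m j) : d.ch j k < d.ch j k' := by
  induction k', h using Nat.le_induction with
  | base => exact (d.hc j).mono k h'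
  | succ l _ ih => exact (ih (by omega)).trans ((d.hc j).mono l h')

theorem start_le (h : k < d.x0.t.m j) : start (d.ch j) k ≤ d.ch j k := by
  unfold start
  split_ifs with e
  · omega
  · exact d.ch_mono (by omega) h

theorem start_mono (h : k < k') (h' : k' ≤ d.x0.t.m j) : start (d.ch j) k < start (d.ch j) k' := by
  have h1 := d.start_le (j := j) (k := k) (by omega)
  have h2 : start (d.ch j) k' = d.ch j (k' - 1) + 1 := if_neg (by omega)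
  rcases (show k ≤ k' - 1 by omega).eq_or_lt with e | e
  · rw [h2, ← e]; omega
  · have := d.ch_mono (j := j) e (by omega)
    omega

theorem start_idx (h : k ≤ d.x0.t.m j) :
    start (d.ch j) k ≤ d.idx j k ∧ d.idx j k ≤ d.x.t.m (d.e j) := by
  have : start (d.ch j) k ≤ d.x.t.m (d.e j) := by
    unfold start
    split_ifs with e
    · omega
    · exact (d.hc j).lt _ (by omega)
  unfold idx
  split_ifs <;> omega

theorem idx_mono (h : k < k') (h' : k' ≤ d.x0.t.m j) : d.idx j k < d.idx j k' := by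
  have := d.start_mono h h'
  have := (d.start_idx h').1
  have : d.idx j k = start (d.ch j) k := if_neg (by omega)
  omega

theorem idx_zero : d.idx j 0 = 0 := if_neg (d.o0.len j).ne

theorem idx_m : d.idx j (d.x0.t.m j) = d.x.t.m (d.e j) := if_pos rfl

theorem C_iff {i : ℕ} : d.C (d.e j) i ↔ ∃ k < d.x0.t.m j, d.ch j k = i := by
  simp only [C, chosen, Equiv.symm_apply_apply]

theorem deg {y : MV} (hy : y ∈ d.x0.t.s.Ce) :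
    (d.x0.t.s.M.vo (d.fl0 y)).ncard / 2 = (d.x.t.s.M.vo (d.fl y)).ncard / 2 := by
  obtain ⟨B, h⟩ := d.hs.le y hy
  simpa only [Sk.rts_length] using h.root.length_eq

theorem mu_end (j : d.x0.t.ι) {f : d.x0.t.s.Φ} (h : f = d.x0.t.φ j 0 ∨ f = d.x0.t.φ j (d.x0.t.m j)) :
    f ∈ d.x0.t.Sg ∧ d.μ (d.x0.t.s.M.c f) = d.x.t.s.M.c (d.μ f) := by
  have : f ∈ d.x0.t.Sg := Or.inr ⟨j, by tauto⟩
  exact ⟨this, d.hm.mc f this⟩

theorem mu_fx {f : d.x0.t.s.Φ} (hf : f ∈ d.x0.t.Fx) : d.μ f ∈ d.x.t.Fx := by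
  refine (d.hm.bij.mapsTo (Or.inl hf)).resolve_right ?_
  rintro ⟨j', h⟩
  obtain ⟨j, rfl⟩ := d.e.surjective j'
  have h1 := d.mu_end j (Or.inl rfl)
  have h2 := d.mu_end j (Or.inr rfl)
  rw [← (d.hm.ends j).1, ← (d.hm.ends j).2, ← h1.2, ← h2.2] at h
  have i := fun g hg => d.hm.bij.injOn (x₂ := g) (Or.inl hf) hg
  rcases h with h | h | h | h
  exacts [(hf.2 j 0 (by omega)).1 (i _ h1.1 h), (hf.2 j 0 (by omega)).2 (i _ (sg_c d.o0 h1.1) h),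
    (hf.2 j _ le_rfl).1 (i _ h2.1 h), (hf.2 j _ le_rfl).2 (i _ (sg_c d.o0 h2.1) h)]

theorem fx_mu {g : d.x.t.s.Φ} (hg : g ∈ d.x.t.Fx) : ∃ f ∈ d.x0.t.Fx, d.μ f = g := by
  obtain ⟨f, hf, rfl⟩ := d.hm.bij.surjOn (Or.inl hg)
  refine ⟨f, hf.resolve_right ?_, rfl⟩
  rintro ⟨j, rfl | rfl | rfl | rfl⟩
  · exact (hg.2 _ 0 (by omega)).1 (d.hm.ends j).1
  · exact (hg.2 _ 0 (by omega)).2 (by rw [(d.mu_end j (Or.inl rfl)).2, (d.hm.ends j).1])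
  · exact (hg.2 _ _ le_rfl).1 (d.hm.ends j).2
  · exact (hg.2 _ _ le_rfl).2 (by rw [(d.mu_end j (Or.inr rfl)).2, (d.hm.ends j).2])

/-- the matched flags and their terminal, in one direction -/
def R0 (f : d.x0.t.s.Φ) (g : d.x.t.s.Φ) (t : (d.x.t.ι × ℕ) ⊕ W) : Prop :=
  (∃ y ∈ d.x0.t.s.Ce, ∃ i, f = d.x0.t.s.M.rot^[i] (d.fl0 y) ∧ g = d.x.t.s.M.rot^[i] (d.fl y) ∧
    t = Sum.inr (d.x.t.s.far g)) ∨
  (f ∈ d.x0.t.Fx ∧ g = d.μ f ∧ t = Sum.inr (d.x.t.s.far g)) ∨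
  ∃ j, ∃ k ≤ d.x0.t.m j, f = d.x0.t.φ j k ∧ g = d.x.t.φ (d.e j) (d.idx j k) ∧
    t = Sum.inl (d.e j, start (d.ch j) k)

/-- the matched flags and their terminal -/
def Rl (f : d.x0.t.s.Φ) (g : d.x.t.s.Φ) (t : (d.x.t.ι × ℕ) ⊕ W) : Prop :=
  d.R0 f g t ∨ ∃ f0 g0, d.R0 f0 g0 t ∧ f = d.x0.t.s.M.c f0 ∧ g = d.x.t.s.M.c g0

variable {d} {f f' : d.x0.t.s.Φ} {g g' : d.x.t.s.Φ} {t t' : (d.x.t.ι × ℕ) ⊕ W}

theorem cell {y : MV} (hy : y ∈ d.x0.t.s.Ce) (i : ℕ) :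
    (d.x0.t.s.M.rot^[i] (d.fl0 y) ∈ d.x0.t.s.M.S ∧ d.x.t.s.M.rot^[i] (d.fl y) ∈ d.x.t.s.M.S) ∧
    d.x0.t.s.vx (d.x0.t.s.M.rot^[i] (d.fl0 y)) = y ∧
    d.x.t.s.vx (d.x.t.s.M.rot^[i] (d.fl y)) = d.x.t.s.vx (d.fl y) := by
  have h1 := d.hs.src y hy
  have h2 := d.hs.tgt y hy
  have r1 := (rot_enum d.m0 h1.1).2.2.2.1 i
  have r2 := (rot_enum d.m1 h2.1).2.2.2.1 i
  exact ⟨⟨d.m0.vo_mem h1.1 r1, d.m1.vo_mem h2.1 r2⟩, (d.l0.of_vo d.m0 h1.1 r1).trans h1.2.1,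
    d.l1.of_vo d.m1 h2.1 r2⟩

theorem R0.cls (h : d.R0 f g t) : (f ∈ d.x0.t.s.M.S ∧ g ∈ d.x.t.s.M.S) ∧
    ((∃ y ∈ d.x0.t.s.Ce, d.x0.t.s.vx f = y ∧ d.x.t.s.vx g = d.x.t.s.vx (d.fl y)) ∨
      (d.x0.t.s.vx f ∈ d.x0.t.s.H ∧ d.x.t.s.vx g ∈ d.x.t.s.H ∧ ∃ w ∈ d.x0.t.Sg,
        d.x0.t.s.vx w = d.x0.t.s.vx f ∧ d.x.t.s.vx (d.μ w) = d.x.t.s.vx g)) := by
  rcases h with ⟨y, hy, i, rfl, rfl, -⟩ | ⟨hf, rfl, -⟩ | ⟨j, k, -, rfl, rfl, -⟩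
  · exact ⟨(cell hy i).1, Or.inl ⟨y, hy, (cell hy i).2⟩⟩
  · exact ⟨⟨hf.1.1, (d.mu_fx hf).1.1⟩, Or.inr ⟨hf.1.2, (d.mu_fx hf).1.2, f, Or.inl hf, rfl, rfl⟩⟩
  · exact ⟨⟨(φ_mem d.o0 ..).1, (φ_mem d.o1 ..).1⟩, Or.inr ⟨(φ_mem d.o0 ..).2, (φ_mem d.o1 ..).2, _,
      (d.mu_end j (Or.inl rfl)).1, (φ_vx d.o0 ..).symm, by rw [(d.hm.ends j).1, φ_vx d.o1 _ (d.idx j k)]⟩⟩

theorem R0.same (h : d.R0 f g t) (h' : d.R0 f' g' t') :
    d.x0.t.s.vx f = d.x0.t.s.vx f' ↔ d.x.t.s.vx g = d.x.t.s.vx g' := by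
  rcases h.cls.2 with ⟨y, hy, e1, e2⟩ | ⟨h1, h2, w, hw, e1, e2⟩ <;>
    rcases h'.cls.2 with ⟨y', hy', e3, e4⟩ | ⟨h3, h4, w', hw', e3, e4⟩
  · rw [e1, e2, e3, e4]
    exact ⟨fun e => by rw [e], fun e => d.hs.inj hy hy' e⟩
  · exact iff_of_false (fun e => hy.2 (Or.inl (e1 ▸ e ▸ h3)))
      fun e => (d.hs.tgt y hy).2.1.2 (Or.inl (e2 ▸ e ▸ h4))
  · exact iff_of_false (fun e => hy'.2 (Or.inl (e3 ▸ e ▸ h1)))
      fun e => (d.hs.tgt y' hy').2.1.2 (Or.inl (e4 ▸ e ▸ h2))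
  · rw [← e1, ← e2, ← e3, ← e4]; exact d.hm.same w hw w' hw'

theorem R0.k1 (h : d.R0 f g t) (h' : d.R0 f' g' t') :
    (f' = f ↔ g' = g) ∧ (f' = d.x0.t.s.M.c f ↔ g' = d.x.t.s.M.c g) := by
  by_cases hv : d.x0.t.s.vx f = d.x0.t.s.vx f'
  swap
  · have hv' := (h.same h').not.1 hv
    exact ⟨iff_of_false (fun e => hv (by rw [e])) fun e => hv' (by rw [e]),
      iff_of_false (fun e => hv (by rw [e, d.l0.c d.m0 h.cls.1.1]))
        fun e => hv' (by rw [e, d.l1.c d.m1 h.cls.1.2])⟩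
  have c0 := d.m0.cc h'.cls.1.1
  have c1 := d.m1.cc h'.cls.1.2
  rcases h with ⟨y, hy, i, rfl, rfl, -⟩ | ⟨hf, rfl, -⟩ | ⟨j, k, hk, rfl, rfl, -⟩ <;>
    rcases h' with ⟨y', hy', i', rfl, rfl, -⟩ | ⟨hf', rfl, -⟩ | ⟨j', k', hk', rfl, rfl, -⟩
  · rw [(cell hy i).2.1, (cell hy' i').2.1] at hv
    subst hv
    have r1 := rotS _ _ d.m0 _ (d.hs.src y hy).1
    have r2 := rotS _ _ d.m1 _ (d.hs.tgt y hy).1
    exact ⟨by rw [r1.2.2.1, r2.2.2.1, d.deg hy], iff_of_false (r1.2.2.2.1 _ _) (r2.2.2.2.1 _ _)⟩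
  · exact (hy.2 (Or.inl ((cell hy i).2.1 ▸ hv ▸ hf'.1.2))).elim
  · exact (hy.2 (Or.inl ((cell hy i).2.1 ▸ hv ▸ (φ_mem d.o0 j' k').2))).elim
  · exact (hy'.2 (Or.inl ((cell hy' i').2.1 ▸ hv ▸ hf.1.2))).elim
  · refine ⟨⟨fun e => by rw [e], d.hm.bij.injOn (Or.inl hf') (Or.inl hf)⟩, ?_⟩
    rw [← d.hm.mc f (Or.inl hf)]
    exact ⟨fun e => by rw [e], d.hm.bij.injOn (Or.inl hf') (Or.inl (fx_c d.o0 hf))⟩
  · have := (d.start_idx hk').2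
    exact ⟨iff_of_false (hf.2 _ _ hk').1.symm ((d.mu_fx hf).2 _ _ this).1.symm,
      iff_of_false ((fx_c d.o0 hf).2 _ _ hk').1.symm ((fx_c d.o1 (d.mu_fx hf)).2 _ _ this).1.symm⟩
  · exact (hy'.2 (Or.inl ((cell hy' i').2.1 ▸ hv ▸ (φ_mem d.o0 j k).2))).elim
  · have := (d.start_idx hk).2
    exact ⟨iff_of_false (hf'.2 _ _ hk).1 ((d.mu_fx hf').2 _ _ this).1,
      iff_of_false (hf'.2 _ _ hk).2 ((d.mu_fx hf').2 _ _ this).2⟩
  · have s0 := d.o0.sep j j' k hk k' hk'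
    have s1 := d.o1.sep _ _ _ (d.start_idx hk).2 _ (d.start_idx hk').2
    refine ⟨⟨fun e => ?_, fun e => ?_⟩, iff_of_false s0.1 s1.1⟩
    · obtain ⟨rfl, rfl⟩ := s0.2 e; rfl
    · obtain ⟨e1, e2⟩ := s1.2 e
      obtain rfl := d.e.injective e1
      rcases lt_trichotomy k k' with l | rfl | l
      exacts [((d.idx_mono l hk').ne e2).elim, rfl, ((d.idx_mono l hk).ne' e2).elim]

theorem fx'_of (hg : g ∈ d.x.t.s.M.S) (h : d.x.t.s.vx g ∈ d.Y) : g ∈ d.Fx' :=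
  ⟨⟨hg, Or.inr h⟩, fun j i _ => ⟨fun e => (d.Y_ce h).2 (Or.inl (e ▸ (φ_mem d.o1 j i).2)),
    fun e => (d.Y_ce h).2 (Or.inl (e ▸ (c_fl d.o1 (φ_mem d.o1 j i)).2))⟩⟩

theorem R0.tcls (h : d.R0 f g t) : (g ∈ d.Fx' ∧ t = Sum.inr (d.x.t.s.far g)) ∨
    ∃ j, ∃ k ≤ d.x0.t.m j, g = d.x.t.φ (d.e j) (d.idx j k) ∧
      t = Sum.inl (d.e j, start (d.ch j) k) := by
  rcases h with ⟨y, hy, i, -, rfl, e⟩ | ⟨hf, rfl, e⟩ | ⟨j, k, hk, -, e⟩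
  · exact Or.inl ⟨fx'_of (cell hy i).1.2 ⟨y, hy, (cell hy i).2.2.symm⟩, e⟩
  · exact Or.inl ⟨⟨⟨(d.mu_fx hf).1.1, Or.inl (d.mu_fx hf).1.2⟩, (d.mu_fx hf).2⟩, e⟩
  · exact Or.inr ⟨j, k, hk, e⟩

theorem far_c (hg : g ∈ d.x.t.s.M.S) : d.x.t.s.far (d.x.t.s.M.c g) = d.x.t.s.far g :=
  congrArg nodeOf (d.l1.ac d.m1 hg)

theorem R0.k2 (h : d.R0 f g t) (h' : d.R0 f' g' t') : t' = t ↔ g' = g ∨ g' = d.x.t.s.M.c g := by
  rcases h.tcls with ⟨h1, rfl⟩ | ⟨j, k, hk, rfl, rfl⟩ <;>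
    rcases h'.tcls with ⟨h2, rfl⟩ | ⟨j', k', hk', rfl, rfl⟩
  · exact ⟨fun e => d.p1 g h1.1 g' h2.1 (Sum.inr.inj e).symm,
      fun e => by rcases e with rfl | rfl; exacts [rfl, by rw [far_c h1.1.1]]⟩
  · have := h1.2 _ _ (d.start_idx hk').2
    refine iff_of_false (by simp) fun e => e.elim this.1.symm fun e => this.2 ?_
    exact (d.m1.cc h1.1.1).symm.trans (congrArg _ e.symm)
  · have := h2.2 _ _ (d.start_idx hk).2
    exact iff_of_false (by simp) fun e => e.elim this.1 this.2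
  · have s1 := d.o1.sep _ _ _ (d.start_idx hk).2 _ (d.start_idx hk').2
    rw [or_iff_left s1.1]
    have key : ∀ φ : ℕ → ℕ, (∀ a b, a < b → b ≤ d.x0.t.m j → φ a < φ b) → k' ≤ d.x0.t.m j →
        φ k = φ k' → k = k' := fun φ m hk' e => by
      rcases lt_trichotomy k k' with l | l | l
      exacts [((m _ _ l hk').ne e).elim, l, ((m _ _ l hk).ne' e).elim]
    constructor
    · intro e
      obtain ⟨e1, e2⟩ := Prod.mk.inj (Sum.inl.inj e)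
      obtain rfl := d.e.injective e1
      rw [key _ (fun _ _ => d.start_mono) hk' e2.symm]
    · intro e
      obtain ⟨e1, e2⟩ := s1.2 e
      obtain rfl := d.e.injective e1
      rw [key _ (fun _ _ => d.idx_mono) hk' e2]

theorem Rl.mem (h : d.Rl f g t) : f ∈ d.x0.t.s.M.S ∧ g ∈ d.x.t.s.M.S := by
  rcases h with h | ⟨_, _, h, rfl, rfl⟩
  exacts [h.cls.1, ⟨d.m0.c_mem h.cls.1.1, d.m1.c_mem h.cls.1.2⟩]

theorem Rl.c (h : d.Rl f g t) : d.Rl (d.x0.t.s.M.c f) (d.x.t.s.M.c g) t := by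
  rcases h with h | ⟨_, _, h, rfl, rfl⟩
  exacts [Or.inr ⟨_, _, h, rfl, rfl⟩, Or.inl (by rwa [d.m0.cc h.cls.1.1, d.m1.cc h.cls.1.2])]

theorem Rl.base (h : d.Rl f g t) : ∃ f0 g0, d.R0 f0 g0 t ∧ d.x0.t.s.vx f = d.x0.t.s.vx f0 ∧
    d.x.t.s.vx g = d.x.t.s.vx g0 ∧
    d.x.t.s.vx (d.x.t.s.M.a g) = d.x.t.s.vx (d.x.t.s.M.a g0) := by
  rcases h with h | ⟨_, _, h, rfl, rfl⟩
  exacts [⟨_, _, h, rfl, rfl, rfl⟩, ⟨_, _, h, d.l0.c d.m0 h.cls.1.1, d.l1.c d.m1 h.cls.1.2,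
    d.l1.ac d.m1 h.cls.1.2⟩]

theorem Rl.kk (h : d.Rl f g t) (h' : d.Rl f' g' t') :
    (f' = f ↔ g' = g) ∧ (t' = t ↔ f' = f ∨ f' = d.x0.t.s.M.c f) := by
  rcases h with h | ⟨f, g, h, rfl, rfl⟩ <;> rcases h' with h' | ⟨f', g', h', rfl, rfl⟩ <;>
  · have := h.k1 h'
    have := h.k2 h'
    have := d.m0.cc h.cls.1.1
    have := d.m1.cc h.cls.1.2
    have := d.m0.cc h'.cls.1.1
    have := d.m1.cc h'.cls.1.2
    grind

theorem sg_rl (hf : f ∈ d.x0.t.Sg) : ∃ t, d.Rl f (d.μ f) t := by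
  have h1 : ∀ j, d.Rl (d.x0.t.φ j 0) (d.μ (d.x0.t.φ j 0)) (Sum.inl (d.e j, start (d.ch j) 0)) :=
    fun j => Or.inl (Or.inr (Or.inr ⟨j, 0, Nat.zero_le _, rfl,
      by rw [d.idx_zero, (d.hm.ends j).1], rfl⟩))
  have h2 : ∀ j, d.Rl (d.x0.t.φ j (d.x0.t.m j)) (d.μ (d.x0.t.φ j (d.x0.t.m j)))
      (Sum.inl (d.e j, start (d.ch j) (d.x0.t.m j))) := fun j =>
    Or.inl (Or.inr (Or.inr ⟨j, _, le_rfl, rfl, by rw [d.idx_m, (d.hm.ends j).2], rfl⟩))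
  rcases hf with hf | ⟨j, rfl | rfl | rfl | rfl⟩
  exacts [⟨_, Or.inl (Or.inr (Or.inl ⟨hf, rfl, rfl⟩))⟩, ⟨_, h1 j⟩,
    ⟨_, (d.mu_end j (Or.inl rfl)).2 ▸ (h1 j).c⟩, ⟨_, h2 j⟩,
    ⟨_, (d.mu_end j (Or.inr rfl)).2 ▸ (h2 j).c⟩]

theorem total (hf : f ∈ d.x0.t.s.M.S) (h : d.x0.t.s.vx f ∈ d.x0.t.s.H ∪ d.x0.t.s.Ce) :
    ∃ g t, d.Rl f g t := by
  rcases h with h | h
  · by_cases k : f ∈ d.x0.t.Fx
    · exact ⟨_, sg_rl (Or.inl k)⟩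
    simp only [Sh.Fx, mem_setOf_eq, show f ∈ d.x0.t.s.M.fl _ _ from ⟨hf, h⟩, true_and, not_forall,
      not_and_or, not_not] at k
    obtain ⟨j, i, hi, k⟩ := k
    have : d.Rl _ _ _ := Or.inl (Or.inr (Or.inr ⟨j, i, hi, rfl, rfl, rfl⟩))
    rcases k with rfl | rfl
    exacts [⟨_, _, this⟩, ⟨_, _, this.c⟩]
  · have h1 := d.hs.src _ h
    obtain ⟨i, -, k⟩ := (rot_enum d.m0 h1.1).2.2.2.2.2.2 f ((d.l0 _ h1.1 f hf).1 h1.2.1)
    have : d.Rl _ _ _ := Or.inl (Or.inl ⟨_, h, i, rfl, rfl, rfl⟩)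
    exact k.elim (fun k => ⟨_, _, by rwa [← k] at this⟩)
      fun k => ⟨_, _, by have := this.c; rwa [← k] at this⟩

theorem total' (hg : g ∈ d.Fx') : ∃ f, d.Rl f g (Sum.inr (d.x.t.s.far g)) := by
  rcases hg.1.2 with h | ⟨y, hy, h⟩
  · obtain ⟨f, hf, rfl⟩ := d.fx_mu ⟨⟨hg.1.1, h⟩, hg.2⟩
    exact ⟨f, Or.inl (Or.inr (Or.inl ⟨hf, rfl, rfl⟩))⟩
  · have h1 := d.hs.tgt y hy
    obtain ⟨i, -, k⟩ := (rot_enum d.m1 h1.1).2.2.2.2.2.2 g ((d.l1 _ h1.1 g hg.1.1).1 h)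
    have : d.Rl _ _ _ := Or.inl (Or.inl ⟨_, hy, i, rfl, rfl, rfl⟩)
    rcases k with rfl | rfl
    exacts [⟨_, this⟩, ⟨_, (far_c (cell hy i).1.2).symm ▸ this.c⟩]

theorem im_side {i : ℕ} (hi : i ≤ d.x.t.m (d.e j)) (h : d.Rl f (d.x.t.φ (d.e j) i) t) :
    ∃ k ≤ d.x0.t.m j, i = d.idx j k := by
  rcases h with h | ⟨f0, g0, h, -, e⟩ <;> rcases h.tcls with ⟨h1, -⟩ | ⟨j', k, hk, e', -⟩
  · exact ((h1.2 _ i hi).1 rfl).elim
  · obtain ⟨e1, e2⟩ := (d.o1.sep _ _ _ (d.start_idx hk).2 _ hi).2 e'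
    obtain rfl := d.e.injective e1
    exact ⟨k, hk, e2.symm⟩
  · exact ((h1.2 _ i hi).2 ((d.m1.cc h.cls.1.2).symm.trans (congrArg _ e.symm))).elim
  · exact ((d.o1.sep _ _ _ (d.start_idx hk).2 _ hi).1 (e' ▸ e)).elim

theorem Rl.rot (h : d.Rl f g t) : ∃ g' t', d.Rl (d.x0.t.s.M.rot f) g' t' ∧
    g' = ret d.x.t.s.M.rot {g | ∃ f t, d.Rl f g t} (d.x.t.s.M.rot g) := by
  have z : ∀ t', d.Rl (d.x0.t.s.M.rot f) (d.x.t.s.M.rot g) t' → ∃ g' t',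
      d.Rl (d.x0.t.s.M.rot f) g' t' ∧
        g' = ret d.x.t.s.M.rot {g | ∃ f t, d.Rl f g t} (d.x.t.s.M.rot g) := fun t' k =>
    ⟨_, t', k, (ret_zero (U := {g | ∃ f t, d.Rl f g t}) ⟨_, _, k⟩).symm⟩
  have z3 : f ∈ d.x0.t.Sg → g = d.μ f →
      (f ∈ d.x0.t.Fx ∨ ∃ j, f = d.x0.t.φ j (d.x0.t.m j) ∨ f = d.x0.t.s.M.c (d.x0.t.φ j 0)) →
      (g ∈ d.x.t.Fx ∨ ∃ j, g = d.x.t.φ j (d.x.t.m j) ∨ g = d.x.t.s.M.c (d.x.t.φ j 0)) → ∃ g' t',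
      d.Rl (d.x0.t.s.M.rot f) g' t' ∧
        g' = ret d.x.t.s.M.rot {g | ∃ f t, d.Rl f g t} (d.x.t.s.M.rot g) := fun h0 e h1 h2 => by
    have k := d.hm.mr f h0
    rw [← e, ret_zero (next_sg d.o0 h1), ret_zero (next_sg d.o1 h2)] at k
    obtain ⟨t', k1⟩ := sg_rl (next_sg d.o0 h1)
    exact z t' (k ▸ k1)
  have gap : ∀ j, ∀ k < d.x0.t.m j, ∀ i, d.idx j k < i → i < d.idx j (k + 1) →
      ∀ f t, ¬ d.Rl f (d.x.t.φ (d.e j) i) t := fun j k hk i h1 h2 f t r => by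
    obtain ⟨l, hl, rfl⟩ := im_side (h2.le.trans (d.start_idx hk).2) r
    rcases lt_trichotomy l k with l1 | rfl | l1
    · have := d.idx_mono l1 hk.le; omega
    · omega
    · rcases (show k + 1 ≤ l from l1).eq_or_lt with rfl | l2
      · omega
      · have := d.idx_mono l2 hl; omega
  rcases h with h | ⟨f, g, h, rfl, rfl⟩ <;>
    rcases h with ⟨y, hy, i, rfl, rfl, -⟩ | ⟨hf, rfl, -⟩ | ⟨j, k, hk, rfl, rfl, -⟩
  · exact z _ (Or.inl (Or.inl ⟨y, hy, i + 1, (iterate_succ_apply' ..).symm,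
      (iterate_succ_apply' ..).symm, rfl⟩))
  · exact z3 (Or.inl hf) rfl (Or.inl hf) (Or.inl (d.mu_fx hf))
  · rcases hk.eq_or_lt with rfl | hk
    · exact z3 (d.mu_end j (Or.inr rfl)).1 (by rw [d.idx_m, (d.hm.ends j).2])
        (Or.inr ⟨j, Or.inl rfl⟩) (Or.inr ⟨_, Or.inl (by rw [d.idx_m])⟩)
    · have r : d.Rl _ _ _ := Or.inl (Or.inr (Or.inr ⟨j, k + 1, hk, rfl, rfl, rfl⟩))
      have l := d.idx_mono (j := j) (Nat.lt_add_one k) hk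
      have e : ∀ i, d.x.t.s.M.rot^[i] (d.x.t.s.M.rot (d.x.t.φ (d.e j) (d.idx j k))) =
          d.x.t.φ (d.e j) (i + 1 + d.idx j k) := fun i => by
        rw [Sh.φ, Sh.φ, iterate_add_apply, iterate_succ_apply]
      have e1 := e (d.idx j (k + 1) - d.idx j k - 1)
      rw [show d.idx j (k + 1) - d.idx j k - 1 + 1 + d.idx j k = d.idx j (k + 1) by omega] at e1
      refine ⟨_, _, φ_succ _ j k ▸ r, ?_⟩
      rw [ret_eq (U := {g | ∃ f t, d.Rl f g t}) _ (by rw [e1]; exact ⟨_, _, r⟩) fun i hi ⟨f, t, r⟩ =>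
        gap j k hk _ (by omega) (by omega) f t (e i ▸ r), e1]
  · have r1 := rotS _ _ d.m0 _ (d.hs.src y hy).1
    have r2 := rotS _ _ d.m1 _ (d.hs.tgt y hy).1
    have e : i + ((d.x0.t.s.M.vo (d.fl0 y)).ncard / 2 - 1) + 1 ≡ i
        [MOD (d.x0.t.s.M.vo (d.fl0 y)).ncard / 2] := by
      rw [add_assoc, Nat.sub_add_cancel r1.2.1]; exact Nat.add_modEq_right
    have e' := e
    rw [d.deg hy] at e'
    refine z (Sum.inr (d.x.t.s.far (d.x.t.s.M.rot^[i + ((d.x.t.s.M.vo (d.fl y)).ncard / 2 - 1)]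
      (d.fl y)))) ?_
    rw [← (r1.2.2.1 _ _).2 e, ← (r2.2.2.1 _ _).2 e', iterate_succ_apply',
      iterate_succ_apply', rot_c d.m0 (cell hy _).1.1, rot_c d.m1 (cell hy _).1.2, d.deg hy]
    exact Or.inr ⟨_, _, Or.inl ⟨y, hy, _, rfl, rfl, rfl⟩, rfl, rfl⟩
  · exact z3 (Or.inl (fx_c d.o0 hf)) (d.hm.mc f (Or.inl hf)).symm (Or.inl (fx_c d.o0 hf))
      (Or.inl (fx_c d.o1 (d.mu_fx hf)))
  · rcases k with _ | k
    · exact z3 (sg_c d.o0 (d.mu_end j (Or.inl rfl)).1)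
        (by rw [d.idx_zero, (d.mu_end j (Or.inl rfl)).2, (d.hm.ends j).1])
        (Or.inr ⟨j, Or.inr rfl⟩) (Or.inr ⟨_, Or.inr (by rw [d.idx_zero])⟩)
    · have r : d.Rl _ _ _ := Or.inl (Or.inr (Or.inr ⟨j, k, Nat.le_of_succ_le hk, rfl, rfl, rfl⟩))
      have l := d.idx_mono (j := j) (Nat.lt_add_one k) hk
      have e : ∀ i < d.idx j (k + 1), d.x.t.s.M.rot^[i] (d.x.t.s.M.rot (d.x.t.s.M.c
          (d.x.t.φ (d.e j) (d.idx j (k + 1))))) =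
          d.x.t.s.M.c (d.x.t.φ (d.e j) (d.idx j (k + 1) - (i + 1))) := fun i hi => by
        have key : ∀ n, 0 < n → d.x.t.s.M.rot (d.x.t.s.M.c (d.x.t.φ (d.e j) n)) =
            d.x.t.s.M.c (d.x.t.φ (d.e j) (n - 1)) := fun n hn => by
          obtain ⟨n, rfl⟩ : ∃ m, n = m + 1 := ⟨n - 1, by omega⟩
          rw [φ_succ, rot_c d.m1 (φ_mem d.o1 ..).1]; rfl
        induction i with
        | zero => exact key _ hi
        | succ i ih => rw [iterate_succ_apply', ih (by omega), key _ (by omega)]; rfl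
      have e1 := e (d.idx j (k + 1) - d.idx j k - 1) (by omega)
      rw [show d.idx j (k + 1) - (d.idx j (k + 1) - d.idx j k - 1 + 1) = d.idx j k by omega] at e1
      refine ⟨_, _, by rw [φ_succ, rot_c d.m0 (φ_mem d.o0 ..).1]; exact r.c, ?_⟩
      rw [ret_eq (U := {g | ∃ f t, d.Rl f g t}) _ (by rw [e1]; exact ⟨_, _, r.c⟩)
        fun i hi ⟨f, t, r⟩ =>
        gap j k hk (d.idx j (k + 1) - (i + 1)) (by omega) (by omega) _ t (by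
          have := r.c
          rwa [e i (by omega), d.m1.cc (φ_mem d.o1 ..).1] at this), e1]

theorem Rl.pos (h : d.Rl f g t) : d.x0.t.s.pos f ↔ d.x.t.s.pos g := by
  rcases d.o0.ok.ps with h0 | h0
  swap
  · exact iff_of_true (h0.2 f) ((d.o1.ok.ps.resolve_left fun k => h0.1 (d.hm.ori.2 ⟨_, k⟩)).2 g)
  have h1 := d.o1.ok.ps.resolve_right fun k => k.1 (d.hm.ori.1 ⟨_, h0⟩)
  have key : ∀ f g, d.R0 f g t → (d.x0.t.s.pos f ↔ d.x.t.s.pos g) := by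
    rintro _ _ (⟨y, hy, i, rfl, rfl, -⟩ | ⟨hf, rfl, -⟩ | ⟨j, k, hk, rfl, rfl, -⟩)
    · rw [ori_rot d.m0 h0 (d.hs.src y hy).1, ori_rot d.m1 h1 (d.hs.tgt y hy).1]
      exact iff_of_true (d.hs.src y hy).2.2 (d.hs.tgt y hy).2.2
    · exact d.hm.pos _ (Or.inl hf)
    · have := d.hm.pos _ (d.mu_end j (Or.inl rfl)).1
      rw [(d.hm.ends j).1] at this
      rw [Sh.φ, Sh.φ, ori_rot d.m0 h0 (d.o0.hole j).1, ori_rot d.m1 h1 (d.o1.hole _).1]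
      exact this
  rcases h with h | ⟨f, g, h, rfl, rfl⟩
  exacts [key _ _ h, by rw [(h0 f h.cls.1.1).2.2, (h1 g h.cls.1.2).2.2, key _ _ h]]

theorem Rl.fl (h : d.Rl f g t) : d.x0.t.s.vx f ∈ d.x0.t.s.H ∪ d.x0.t.s.Ce ∧
    d.x.t.s.vx g ∈ d.x.t.s.H ∪ d.Y := by
  obtain ⟨f0, g0, h, e1, e2, -⟩ := h.base
  rw [e1, e2]
  rcases h.cls.2 with ⟨y, hy, k1, k2⟩ | k
  exacts [⟨Or.inr (k1 ▸ hy), Or.inr ⟨y, hy, k2.symm⟩⟩, ⟨Or.inl k.1, Or.inl k.2.1⟩]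

theorem Rl.same (h : d.Rl f g t) (h' : d.Rl f' g' t') :
    d.x0.t.s.vx f = d.x0.t.s.vx f' ↔ d.x.t.s.vx g = d.x.t.s.vx g' := by
  obtain ⟨_, _, h, e1, e2, -⟩ := h.base
  obtain ⟨_, _, h', e3, e4, -⟩ := h'.base
  rw [e1, e2, e3, e4, h.same h']

theorem fx'_far (hg : g ∈ d.Fx') :
    d.x.t.s.vx (d.x.t.s.M.a g) = Sum.inl (d.x.t.s.far g) :=
  Sk.vx_far d.o1.ok hg.1.1 (not_nd d.o1.ok (hg.1.2.imp_right fun k => Or.inr (d.Y_ce k)))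

theorem Rl.land (h : d.Rl f g t) : d.x.t.s.vx (d.x.t.s.M.a g) ∈ d.x.t.seg d.C t := by
  obtain ⟨f0, g0, h, -, -, e⟩ := h.base
  rw [e]
  rcases h.tcls with ⟨h1, rfl⟩ | ⟨j, k, hk, rfl, rfl⟩
  · exact fx'_far h1
  · refine ⟨_, (d.start_idx hk).1, (d.start_idx hk).2, fun l l1 l2 k1 => ?_, Or.inl (u_nd d.o1 ..)⟩
    obtain ⟨k', hk', rfl⟩ := d.C_iff.1 k1
    change start _ _ ≤ _ at l1
    unfold idx at l2
    split_ifs at l2 with e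
    · subst e
      rw [show start (d.ch j) (d.x0.t.m j) = _ from if_neg (d.o0.len j).ne'] at l1
      rcases (show k' ≤ d.x0.t.m j - 1 by omega).eq_or_lt with e | e
      · rw [← e] at l1; omega
      · have := d.ch_mono (j := j) e (by omega)
        omega
    · omega

theorem tI_iff : t ∈ (d.x.t.site d.Y).tI d.C ↔ ∃ f g, d.Rl f g t := by
  constructor
  · rintro (⟨⟨j', a⟩, ⟨h1, h2⟩, rfl⟩ | ⟨_, ⟨g, hg, rfl⟩, rfl⟩)
    · obtain ⟨j, rfl⟩ := d.e.surjective j'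
      rcases Nat.eq_zero_or_pos a with rfl | h0
      · exact ⟨_, _, Or.inl (Or.inr (Or.inr ⟨j, 0, Nat.zero_le _, rfl, rfl, rfl⟩))⟩
      · obtain ⟨k, hk, e⟩ := d.C_iff.1 (h2.resolve_left h0.ne')
        refine ⟨_, _, Or.inl (Or.inr (Or.inr ⟨j, k + 1, hk, rfl, rfl, ?_⟩))⟩
        rw [show start (d.ch j) (k + 1) = d.ch j k + 1 from rfl, e]
        exact congrArg (fun a => Sum.inl (d.e j, a)) (Nat.sub_add_cancel h0).symm
    · exact let ⟨f, h⟩ := total' hg; ⟨f, g, h⟩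
  · rintro ⟨_, _, h⟩
    obtain ⟨f, g, h, -⟩ := h.base
    rcases h.tcls with ⟨h1, rfl⟩ | ⟨j, k, hk, -, rfl⟩
    · exact Or.inr ⟨_, ⟨g, h1, rfl⟩, rfl⟩
    · refine Or.inl ⟨_, ⟨(d.start_idx hk).1.trans (d.start_idx hk).2, ?_⟩, rfl⟩
      rcases k with _ | k
      exacts [Or.inl rfl, Or.inr (d.C_iff.2 ⟨k, hk, rfl⟩)]

theorem φ_mem' (j : d.x.t.ι) (i : ℕ) :
    d.x.t.φ j i ∈ d.x.t.s.M.fl d.x.t.s.vx (d.x.t.s.H ∪ d.Y) :=
  ⟨(φ_mem d.o1 j i).1, Or.inl (φ_mem d.o1 j i).2⟩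

theorem a_good (hg : g ∈ d.x.t.s.M.fl d.x.t.s.vx (d.x.t.s.H ∪ d.Y)) :
    d.x.t.s.vx (d.x.t.s.M.a g) ∈ d.x.t.s.M.tv d.x.t.s.vx (d.x.t.s.H ∪ d.Y) ∩
      d.x.t.s.M.rad d.x.t.s.vx (d.x.t.s.H ∪ d.Y) :=
  ⟨⟨⟨_, d.m1.a_mem hg.1, rfl⟩, (site_ok d.o1.ok d.Y_ce).hm.ind g hg.1 hg.2⟩,
    g, hg.1, hg.2, _, orb_p (orb_self ..), rfl⟩

theorem seg_good (h : t ∈ (d.x.t.site d.Y).tI d.C) : Conn d.x.t.s.G (d.x.t.seg d.C t) ∧
    d.x.t.seg d.C t ⊆ d.x.t.s.M.tv d.x.t.s.vx (d.x.t.s.H ∪ d.Y) ∩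
      d.x.t.s.M.rad d.x.t.s.vx (d.x.t.s.H ∪ d.Y) := by
  rcases h with ⟨⟨j, a⟩, ⟨h1, -⟩, rfl⟩ | ⟨_, ⟨g, hg, rfl⟩, rfl⟩
  · refine ⟨seg_conn d.o1 _ h1, ?_⟩
    rintro _ ⟨i, l1, l2, -, rfl | ⟨l3, rfl⟩⟩
    · exact u_nd d.o1 j i ▸ a_good (φ_mem' j i)
    · have hf := φ_mem d.o1 j (i - 1)
      have hz := d.m1.a_mem (d.m1.b_mem (d.m1.a_mem hf.1))
      have hl := (d.o1.quad j (i - 1) (by change a < i at l3; change i ≤ d.x.t.m j at l2; omega)).2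
      have nH : d.x.t.lk j (i - 1) ∉ d.x.t.s.H := fun k =>
        hl.elim (disjoint_left.1 d.o1.ok.hr.2.2 k) fun k1 => k1.2 (Or.inl k)
      have o : _ ∈ d.x.t.s.M.fo (d.x.t.φ j (i - 1)) := orb_p (orb_q (orb_p (orb_self ..)))
      refine ⟨⟨⟨_, hz, rfl⟩, fun k => nH ?_⟩, _, hf.1, Or.inl hf.2, _, o, rfl⟩
      exact d.p2 _ (Or.inl hf.2) _ k ⟨_, ⟨_, hf.1, rfl, _, o, rfl⟩, _, hz, rfl, _, orb_self .., rfl⟩
        ▸ hf.2
  · refine ⟨⟨⟨_, rfl⟩, fun u hu v hv => (hu.trans hv.symm) ▸ .refl ..⟩, ?_⟩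
    rintro _ rfl
    exact fx'_far hg ▸ a_good hg.1

theorem seg_disj (h : t ∈ (d.x.t.site d.Y).tI d.C) (h' : t' ∈ (d.x.t.site d.Y).tI d.C)
    (ne : t ≠ t') : Disjoint (d.x.t.seg d.C t) (d.x.t.seg d.C t') := by
  have nl : ∀ j, ∀ i < d.x.t.m j, ∀ v, d.x.t.lk j i ≠ Sum.inl v := fun j i hi v e => by
    obtain ⟨n, k⟩ := (d.o1.quad j i hi).2.elim (d.o1.ok.hr.2.1 ·) (·.1.2)
    rw [e] at k; cases k
  have mix : ∀ p, ∀ g ∈ d.Fx', Sum.inl (d.x.t.s.far g) ∉ d.x.t.seg d.C (Sum.inl p) := by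
    rintro ⟨j, a⟩ g hg ⟨i, l1, l2, -, e | ⟨l3, e⟩⟩
    · exact (d.p1 _ (φ_mem' j i) g hg.1 (Sum.inl.inj e).symm).elim (hg.2 j i l2).1 (hg.2 j i l2).2
    · exact nl j _ (by change a < i at l3; change i ≤ d.x.t.m j at l2; omega) _ e.symm
  have lt : ∀ j a a' i, a < a' → (a' = 0 ∨ d.C j (a' - 1)) → (∀ k, a ≤ k → k < i → ¬ d.C j k) →
      i < a' := fun j a a' i h1 h2 h3 =>
    not_le.1 fun k => h3 (a' - 1) (by omega) (by omega) (h2.resolve_left (by omega))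
  rw [disjoint_left]
  rcases h with ⟨⟨j, a⟩, ⟨-, h1⟩, rfl⟩ | ⟨_, ⟨g, hg, rfl⟩, rfl⟩ <;>
    rcases h' with ⟨⟨j', a'⟩, ⟨-, h2⟩, rfl⟩ | ⟨_, ⟨g', hg', rfl⟩, rfl⟩
  · rintro _ ⟨i, l1, l2, l3, k⟩ ⟨i', l1', l2', l3', k'⟩
    dsimp only at l1 l2 l3 k l1' l2' l3' k' h1 h2
    obtain ⟨rfl, rfl⟩ : j = j' ∧ i = i' := by
      rcases k with rfl | ⟨l4, rfl⟩ <;> rcases k' with e | ⟨l5, e⟩
      · have := d.o1.sep j j' i l2 i' l2'
        exact this.2 ((d.p1 _ (φ_mem' j i) _ (φ_mem' j' i') (Sum.inl.inj e)).resolve_right this.1)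
      · exact (nl j' _ (by omega) _ e.symm).elim
      · exact (nl j _ (by omega) _ e).elim
      · exact (d.o1.lkinj j j' _ (by omega) _ (by omega) e).imp_right fun _ => by omega
    rcases lt_trichotomy a a' with l | rfl | l
    exacts [(lt j a a' i l h2 l3).not_ge l1', ne rfl, (lt j a' a i l h1 l3').not_ge l1]
  · rintro _ k rfl; exact mix _ g' hg' k
  · rintro _ rfl k; exact mix _ g hg k
  · rintro _ rfl k; exact ne (congrArg _ (Sum.inl.inj k))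

theorem main {g : ℕ} {B : Fin g × Fin g → Set MV}
    (hR : d.x.t.s.M.Route d.x.t.s.vx B (d.x.t.s.H ∪ d.Y) d.x0.t.s.M.S.ncard)
    (hF : (d.x.t.site d.Y).Fr B d.C (d.x.t.s.site d.Y).T) :
    ∃ Y, Net d.x0 d.x d.e d.μ d.fl0 d.fl d.ch Y := by
  classical
  have hU := es_ind d.m0 d.l0 d.x0.t.s.Rmᶜ
  have s0 := d.o0.ok
  have mfl : ∀ f, f ∈ (d.x0.t.s.M.sub (d.x0.t.s.M.ind d.x0.t.s.vx d.x0.t.s.Rmᶜ)).fl d.x0.t.s.vx
      d.x0.t.s.Ndᶜ ↔ ∃ g t, d.Rl f g t := fun f =>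
    ⟨fun k => total k.1.1 (((tri k.1.1).resolve_left k.2).imp_right fun h => h.resolve_left k.1.2.1),
      fun ⟨_, _, k⟩ => have k1 := not_nd s0 (k.fl.1.imp_right Or.inr)
        ⟨mem_nr s0 k.mem.1 k1 fun k2 => k.fl.1.elim (fun k3 => disjoint_left.1 s0.hr.2.2 k3 k2)
          fun k3 => k3.2 (Or.inr k2), k1⟩⟩
  generalize hA : (d.x0.t.s.M.sub (d.x0.t.s.M.ind d.x0.t.s.vx d.x0.t.s.Rmᶜ)).fl d.x0.t.s.vx
      d.x0.t.s.Ndᶜ = A at mfl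
  have ex : ∀ f, ∃ g t, f ∈ A → d.Rl f g t := fun f => by
    by_cases k : f ∈ A
    · exact let ⟨g, t, k⟩ := (mfl f).1 k; ⟨g, t, fun _ => k⟩
    · exact ⟨d.μ f, Sum.inr (Sum.inl 0), fun k1 => (k k1).elim⟩
  choose μ τ r using ex
  have un : ∀ {f g t}, d.Rl f g t → f ∈ A ∧ μ f = g ∧ τ f = t := fun {f g t} k =>
    have k1 := (mfl f).2 ⟨_, _, k⟩
    ⟨k1, (k.kk (r f k1)).1.1 rfl, (k.kk (r f k1)).2.2 (Or.inl rfl)⟩
  have i1 : μ '' A = {g | ∃ f t, d.Rl f g t} := Set.ext fun g =>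
    ⟨fun ⟨f, hf, e⟩ => ⟨f, _, e ▸ r f hf⟩, fun ⟨f, _, k⟩ => ⟨f, (un k).1, (un k).2.1⟩⟩
  have i2 : τ '' A = (d.x.t.site d.Y).tI d.C := Set.ext fun t => Iff.trans
    ⟨fun ⟨f, hf, e⟩ => ⟨f, _, e ▸ r f hf⟩, fun ⟨f, _, k⟩ => ⟨f, (un k).1, (un k).2.2⟩⟩ tI_iff.symm
  have ori : (∃ o, (d.x0.t.s.M.sub (d.x0.t.s.M.ind d.x0.t.s.vx d.x0.t.s.Rmᶜ)).Ori o) ↔
      ∃ o, d.x0.t.s.M.Ori o :=
    ⟨fun ⟨o, k⟩ => let ⟨o', k', _⟩ := (oriC _ _ d.m0).2 _ o hU (con_nr s0) (eg_nr s0) k; ⟨o', k'⟩,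
      fun ⟨o, k⟩ => ⟨o, (oriC _ _ d.m0).1 _ ∅ o hU (Gph.es_empty _) k⟩⟩
  have T1 : (d.x.t.s.site d.Y).T ⊆ d.x.t.s.M.tv d.x.t.s.vx (d.x.t.s.H ∪ d.Y) := by
    rintro v (k | k)
    exacts [⟨k.1, fun k1 => not_nd d.o1.ok (k1.imp_right fun k2 => Or.inr (d.Y_ce k2)) k⟩,
      ⟨k.1.1, fun k1 => k.2 (Or.inl k1)⟩]
  obtain ⟨Y, y1, y2, y3⟩ := hR _ _ _ (d.x0.t.s.M.sub (d.x0.t.s.M.ind d.x0.t.s.vx d.x0.t.s.Rmᶜ))
    d.x0.t.s.vx d.x0.t.s.Ndᶜ μ τ (d.x.t.seg d.C) (d.x.t.s.site d.Y).T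
    (ncard_le_ncard hU.1 d.m0.fin)
    { ok := d.m0.sub hU
      lbl := (gphC _ _ _ _ d.m0 d.l0).1 _ hU
      con := con_nr s0
      eg := (eg_nr s0).trans d.hm.eg
      bip := fun f hf => (s0.bip f hf.1).not
      col := ⟨_, _, s0.ps.imp (fun k => (oriC _ _ d.m0).1 _ ∅ _ hU (Gph.es_empty _) k)
        (And.imp_left ori.not.2), d.o1.ok.ps, ori.trans d.hm.ori, hA ▸ fun f hf => (r f hf).pos⟩
      mem := hA ▸ fun f hf => ⟨(r f hf).mem.2, (r f hf).fl.2⟩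
      inj := hA ▸ fun f hf g hg e => ((r g hg).kk (r f hf)).1.2 e
      same := hA ▸ fun f hf g hg => (r f hf).same (r g hg)
      mc := hA ▸ fun f hf => (un (r f hf).c).2.1
      mr := fun f hf => by
        have b1 : d.x0.t.s.M.b f ∈ d.x0.t.s.M.ind d.x0.t.s.vx d.x0.t.s.Rmᶜ :=
          mem_nr s0 (d.m0.b_mem hf.1.1) ((d.l0.b d.m0 hf.1.1).symm ▸ hf.2)
            ((d.l0.b d.m0 hf.1.1).symm ▸ hf.1.2.1)
        obtain ⟨g', t', k, e⟩ := (r f (hA ▸ hf)).rot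
        rw [hA, i1, ← e, ← (un k).2.1]
        exact congrArg (fun z => μ (d.x0.t.s.M.c z)) (minor_b_of_mem d.m0 hU cl_empty hf.1 b1)
      term := hA ▸ fun f hf g hg => eq_comm.trans ((r f hf).kk (r g hg)).2
      land := hA ▸ fun f hf => (r f hf).land }
    (by
      rintro _ ⟨⟨⟨g, hg, rfl⟩, k1⟩, k2⟩
      rcases tri hg with k | k | k | k
      · exact Or.inl k
      · exact (k1 (Or.inl k)).elim
      · obtain ⟨f, hf, -, e⟩ := d.o1.ok.rim _ ⟨k, g, hg, rfl⟩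
        exact (k2 ⟨f, hf.1, Or.inl hf.2, _, orb_p (orb_q (orb_p (orb_self ..))), e⟩).elim
      · exact Or.inr ⟨k.1, fun k3 => k3.elim k1 fun k4 => k.2 (Or.inr k4)⟩)
    T1 (by rw [hA, i2]; exact fun _ => seg_good) (by rw [hA, i2]; exact fun _ h _ => seg_disj h)
    (by rw [hA, i2]; exact hF)
  rw [hA] at y1 y3
  rw [i2] at y1
  have nd : ∀ v, Sum.inl v ∈ d.x0.t.s.Nd → Sum.inl v ∈ d.x0.t.s.vx ''
      (d.x0.t.s.M.sub (d.x0.t.s.M.ind d.x0.t.s.vx d.x0.t.s.Rmᶜ)).S \ d.x0.t.s.Ndᶜ :=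
    fun v hv => ⟨nd_nr s0 hv, not_not.2 hv⟩
  have y4 : ∀ {f g t}, d.Rl f g t → d.x.t.seg d.C t ⊆ Y (Sum.inl (d.x0.t.s.far f)) :=
    fun {f g t} k => by
      have := y3 f (un k).1
      rwa [(un k).2.2, sub_a, Sk.vx_far s0 k.mem.1 (not_nd s0 (k.fl.1.imp_right Or.inr))] at this
  refine ⟨fun v => Y (Sum.inl v), fun v hv => ⟨(y1 _ (nd v hv)).1, fun z hz => ?_⟩,
    fun v w hv hw ne => y2 _ (nd v hv) _ (nd w hw) fun e => ne (Sum.inl.inj e),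
    fun v hv => disjoint_left.2 fun z hz k => ?_, fun y hy => ?_,
    fun j k hk => y4 (Or.inl (Or.inr (Or.inr ⟨j, k, hk, rfl, rfl, rfl⟩))),
    fun f hf => y4 (Or.inl (Or.inr (Or.inl ⟨hf, rfl, rfl⟩))) rfl⟩
  · rcases (y1 _ (nd v hv)).2 hz with k | k
    · exact Or.inl ⟨k.imp_right fun k => ⟨k.1, fun k1 => k.2 (k1.imp_left Or.inl)⟩,
        fun k1 => (T1 k).2 (Or.inr k1)⟩
    · obtain ⟨i, hi, k⟩ := mem_iUnion₂.1 k
      rcases hi with hi | ⟨_, ⟨g, hg, rfl⟩, rfl⟩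
      · exact Or.inr (mem_biUnion (Or.inl hi) k)
      · have := a_good hg.1
        rw [fx'_far hg] at this
        exact Or.inl (k ▸ ⟨Or.inl ⟨this.1.1, _, rfl⟩, fun k1 => this.1.2 (Or.inr k1)⟩)
  · rcases (y1 _ (nd v hv)).2 hz with k1 | k1
    · exact (T1 k1).2 (Or.inr k)
    · obtain ⟨i, hi, k1⟩ := mem_iUnion₂.1 k1
      exact ((seg_good hi).2 k1).1.2 (Or.inr k)
  · rw [Sk.rts, Sk.rts, ← d.deg hy, List.forall₂_map_left_iff, List.forall₂_map_right_iff,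
      List.forall₂_same]
    exact fun i _ => y4 (Or.inl (Or.inl ⟨y, hy, i, rfl, rfl, rfl⟩)) rfl

end Dt

end JMat

theorem matS (hP : PosS) : MatS := fun _ x0 x e μ fl0 fl ch g R B hm hs hc hG hF hR h1 h2 =>
  have hY : sites x0 x fl ⊆ x.t.s.Ce := fun _ ⟨y, hy, e⟩ => e ▸ (hs.tgt y hy).2.1
  have k := hP _ g R B (JMat.site_ok x.h.ok.ok hY) (JMat.site_spk x.h.ok.ok x.h.ok.spoke hY) hG hF hR
  JMat.Dt.main (d := ⟨x0, x, e, μ, fl0, fl, ch, hm, hs, hc, k.1, k.2⟩) h1 h2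

end Pool.Agent.MP_9d78a0_co.gm

end MrgPart2

-- marker of a merged file
example : 731051 + 390040 = 731051 + 390040 := rfl
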