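import Pool.Agent.MP_9d78a0_co.gm.JOne
import Pool.Agent.MP_9d78a0_co.gm.FCore
import Pool.Agent.MP_9d78a0_co.gm.HLev
import Pool.Agent.MP_9d78a0_co.gm.FCount
import Pool.Agent.MP_9d78a0_co.gm.HSurg0
import Pool.Agent.MP_9d78a0_co.gm.FCell
import Pool.Agent.MP_9d78a0_co.gm.JWf
import Pool.Agent.MP_9d78a0_co.gm.JDead
import Pool.Agent.MP_9d78a0_co.gm.JMat
import Pool.Agent.MP_9d78a0_co.gm.HAbsM3
import Pool.Agent.MP_9d78a0_co.gm.BGrid
import Pool.Agent.MP_9d78a0_co.gm.FNam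
import Pool.Agent.MP_9d78a0_co.gm.COp2
import Mathlib.Data.Set.Card.Arithmetic
import Pool.Agent.MP_9d78a0_co.st.Child
import Pool.Agent.MP_9d78a0_co.gm.HNorm
import Pool.Agent.MP_9d78a0_co.st.All2
import Pool.Agent.MP_9d78a0_co.st.Hub
import Pool.Agent.MP_9d78a0_co.st.Xcap
import Pool.Agent.MP_9d78a0_co.st.Plan
import Pool.Agent.MP_9d78a0_co.st.TRl
import Pool.Agent.MP_9d78a0_co.gm.SpecJ

-- ======== part 0: formerly Pool.Agent.MP_9d78a0_co.gm.JAll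
section MrgPart0

/-! Blocks J and K put together. -/

set_option autoImplicit false

namespace Pool.Agent.MP_9d78a0_co.gm

theorem rs_of (fin : FinS) (rt : RtS) (loop : LoopS) (drop : DropS) (vort : VortS) (raw : RawS) :
    RSS := by
  have pos := posS bigS
  have sup := supS tameS bigS
  have dead := deadS tameS bigS pos
  have seed := seedS tameS pos
  have pre := mkPreS tameS bigS bagS pos seed
  have s1 := site1S tameS bigS (ctlBlkS tameS) (toRawS tameS) (patchJS bigS patchS) (encS bigS) vort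
  have s2 := siteS tameS bigS (gridJS tameS patchS) (ctlBlkS tameS) (toRawS tameS) drop s1
  have step := stepS tameS bigS rt s2
    (j23S (j2S tameS pos sup dead seed pre) (oneS tameS bigS pos sup dead pre))
    (locS tameS bigS pos) (matS pos) (realS tameS)
  exact rsS (mainS wfS tameS (codeS tameS) step (heartJS fin)) (heartJS fin) loop raw

end Pool.Agent.MP_9d78a0_co.gm

end MrgPart0

-- ======== part 1: formerly Pool.Agent.MP_9d78a0_co.gm.FBuild1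
section MrgPart1

/-! Row BUILD, first part: copies, and facts on the structure before the renaming. -/

set_option autoImplicit false

namespace Pool.Agent.MP_9d78a0_co.gm

open Set Function

namespace FBuild

/-- fresh copies of the ordinary vertices, one for each index, and the projection -/
structure Cp {ι : Type} (Z : Set W) (c : ι → W → W) (p : W → W) : Prop where
  od : ∀ j v, c j v ∈ Od
  fresh : ∀ j v, c j v ∉ Z
  back : ∀ j, ∀ v ∈ Od, p (c j v) = v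
  side : ∀ j j' v v', c j v = c j' v' → j = j'
  fix : ∀ v ∈ Z, p v = v
  pod : ∀ v ∈ Od, p v ∈ Od

theorem exists_cp (ι : Type) [Finite ι] {Z : Set W} (hZ : Z.Finite) :
    ∃ (c : ι → W → W) (p : W → W), Cp Z c p := by
  obtain ⟨N, hN⟩ := (hZ.image (Sum.elim id id : W → ℕ)).bddAbove
  refine ⟨fun j v => Sum.inl (N + 1 + Nat.pair (idx j) (Sum.elim id id v)),
    Sum.elim (fun k => if k ≤ N then Sum.inl k else Sum.inl (Nat.unpair (k - (N + 1))).2) Sum.inr,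
    fun _ _ => ⟨_, rfl⟩, fun j v h => ?_, ?_, fun j j' v v' h => ?_, ?_, ?_⟩
  · have := hN ⟨_, h, rfl⟩
    simp only [Sum.elim_inl, id] at this
    omega
  · rintro j _ ⟨k, rfl⟩
    simp only [Sum.elim_inl, id]
    rw [if_neg (by omega), Nat.add_sub_cancel_left, Nat.unpair_pair]
  · have h1 := Nat.add_left_cancel (Sum.inl.inj h)
    exact (Finite.equivFin ι).injective (Fin.ext (Nat.pair_eq_pair.1 h1).1)
  · rintro (k | k) h
    · have := hN ⟨_, h, rfl⟩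
      simp only [Sum.elim_inl, id] at this ⊢
      rw [if_pos this]
    · rfl
  · rintro _ ⟨k, rfl⟩
    simp only [Sum.elim_inl]
    split_ifs <;> exact ⟨_, rfl⟩

variable {τ : AG} {t : Sh τ} {Q : t.ι → Set W}

theorem mem_vs {U : Set τ.ε} {v : W} : v ∈ τ.vs U ↔ ∃ a ∈ U, v ∈ τ.inc a := by
  simp only [AG.vs, mem_iUnion, exists_prop]

theorem mem_bd {U : Set τ.ε} {v : W} :
    v ∈ τ.bd U ↔ (∃ a ∈ U, v ∈ τ.inc a) ∧ ∃ a ∉ U, v ∈ τ.inc a := Iff.rfl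

theorem bd_one {a : τ.ε} {v : W} : v ∈ τ.bd {a} ↔ v ∈ τ.inc a ∧ ∃ b, b ≠ a ∧ v ∈ τ.inc b :=
  ⟨fun ⟨⟨_, e, h⟩, k⟩ => ⟨e ▸ h, k⟩, fun ⟨h, k⟩ => ⟨⟨a, rfl, h⟩, k⟩⟩

theorem two_bd {a b b' : τ.ε} {v : W} (ha : v ∈ τ.inc a) (hb : v ∈ τ.inc b) (hb' : v ∈ τ.inc b')
    (n : b ≠ b') : v ∈ τ.bd {a} := by
  refine bd_one.2 ⟨ha, ?_⟩
  by_cases e : b = a
  · exact ⟨b', fun c => n (e.trans c.symm), hb'⟩
  · exact ⟨b, e, hb⟩

theorem phi_fl (h : t.Mid Q) (j : t.ι) (i : ℕ) :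
    t.φ j i ∈ t.s.M.fl t.s.vx t.s.H ∧ t.s.vx (t.φ j i) = t.s.vx (t.φ0 j) := by
  induction i with
  | zero => exact ⟨h.hole j, rfl⟩
  | succ i ih =>
    obtain ⟨-, -, k1, k2, -⟩ := (fSkS t.s h.ok).2.1 _ ih.1
    have e : t.φ j (i + 1) = t.s.M.rot (t.φ j i) := Function.iterate_succ_apply' _ _ _
    rw [e]
    exact ⟨k1, k2.trans ih.2⟩

theorem far_node (h : t.Mid Q) {f : t.s.Φ} (hf : f ∈ t.s.M.fl t.s.vx t.s.H) :
    Sum.inl (t.s.far f) ∈ t.s.Vt :=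
  ⟨_, (h.ok.hm.ok.ia f hf.1).1, ((fSkS t.s h.ok).2.1 _ hf).1⟩

theorem u_node (h : t.Mid Q) (j : t.ι) (i : ℕ) : Sum.inl (t.u j i) ∈ t.s.Vt :=
  far_node h (phi_fl h j i).1

theorem fx_node (h : t.Mid Q) {v : W} (hv : v ∈ t.s.far '' t.Fx) : Sum.inl v ∈ t.s.Vt := by
  obtain ⟨f, hf, rfl⟩ := hv
  exact far_node h hf.1

theorem nb_node (h : t.Mid Q) {x : MV} {v : W} (hv : v ∈ t.s.nb x) : Sum.inl v ∈ t.s.Vt :=
  ((fSkS t.s h.ok).2.2.2.1 _ _ (SimpleGraph.Adj.symm hv)).1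

theorem u_od (h : t.Mid Q) (j : t.ι) (i : ℕ) : t.u j i ∈ Od := h.ok.od _ (u_node h j i)

theorem u_nq (h : t.Mid Q) {j : t.ι} {i : ℕ} (hi : i ≤ t.m j) (j' : t.ι) : t.u j i ∉ Q j' :=
  fun c => h.ulam j i hi ((h.nm j').2.2.2 _ c (u_node h j i))

theorem u_ne (h : t.Mid Q) {j : t.ι} {i : ℕ} (hi : i < t.m j) : t.u j i ≠ t.u j (i + 1) := by
  intro e
  have a := phi_fl h j i
  have b := phi_fl h j (i + 1)
  have k := h.spoke _ a.1 _ b.1.1 (b.2.trans a.2.symm) (by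
    rw [((fSkS t.s h.ok).2.1 _ a.1).1, ((fSkS t.s h.ok).2.1 _ b.1).1]
    exact congrArg Sum.inl e.symm)
  have s := h.sep j j i hi.le (i + 1) hi
  rcases k with k | k
  · have := (s.2 k).2
    omega
  · exact s.1 k

theorem ln_ends {S P : Set W} {j : t.ι} {i : ℕ} {v w : W} (h : t.Ln S j i P v w) (n : v ≠ w)
    (hv : v ∈ Od) : v ∈ τ.vs (t.bag j i) ∧ w ∈ τ.vs (t.bag j i) := by
  refine ⟨?_, ((h.2.2.2 h.2.2.1).1).resolve_right fun c => n (Eq.symm c)⟩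
  by_contra c
  refine n (conn_out h.1 h.2.1 h.2.2.1 fun k => c ?_).symm
  exact τ.vs_un _ ▸ ⟨k, hv⟩

/-- the owner of a part that contains both nodes of a corner -/
theorem lk_own (h : t.Mid Q) {j : t.ι} {i : ℕ} (hi : i < t.m j) {v : W}
    (hv : v = t.u j i ∨ v = t.u j (i + 1)) :
    ∃ a, (a ∈ t.ct (t.lk j i) ∨ a ∈ t.bag j i) ∧ v ∈ τ.inc a := by
  obtain ⟨q, k | k⟩ := h.quad j i hi
  · obtain ⟨k1, k2⟩ := ln_ends (h.path j i hi k) (u_ne h hi) (u_od h j i)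
    obtain ⟨a, ha, e⟩ := mem_vs.1 (show v ∈ τ.vs (t.bag j i) by
      rcases hv with rfl | rfl <;> assumption)
    exact ⟨a, Or.inr ha, e⟩
  · obtain ⟨k1, k2, -⟩ := ((fSkS t.s h.ok).2.1 _ (phi_fl h j i).1).2.2.2.2.2.2.2 q
    have e : t.φ j (i + 1) = t.s.M.rot (t.φ j i) := Function.iterate_succ_apply' _ _ _
    obtain ⟨⟨a, ha, e⟩, -⟩ := (h.solid _ k).2 (show v ∈ t.s.nb (t.lk j i) by
      rcases hv with rfl | rfl
      · exact k1
      · rw [Sh.u, e]; exact k2)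
    exact ⟨a, Or.inl ha, e⟩

theorem u_two (h : t.Mid Q) {j : t.ι} {i : ℕ} (hi : i + 1 < t.m j) :
    ∃ a b, a ≠ b ∧ a ∉ t.rest ∧ b ∉ t.rest ∧ t.u j (i + 1) ∈ τ.inc a ∧ t.u j (i + 1) ∈ τ.inc b := by
  obtain ⟨a, ha, e⟩ := lk_own h (by omega : i < t.m j) (Or.inr rfl)
  obtain ⟨b, hb, e'⟩ := lk_own h hi (Or.inl rfl)
  refine ⟨a, b, ?_, ?_, ?_, e, e'⟩
  · rintro rfl
    simp only [Sh.ct, Sh.bag, mem_ofPred_eq] at ha hb
    rcases ha with ha | ha <;> rcases hb with hb | hb <;> rw [ha] at hb <;>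
      simp only [Option.some.injEq, Sum.inl.injEq, Sum.inr.injEq, Prod.mk.injEq, reduceCtorEq] at hb
    · have := (h.lkinj j j i (by omega) (i + 1) hi hb).2
      omega
    · omega
  · rcases ha with ha | ha <;> exact fun c => by cases (Eq.trans (Eq.symm ha) c)
  · rcases hb with ha | ha <;> exact fun c => by cases (Eq.trans (Eq.symm ha) c)

theorem beta_left (h : t.Mid Q) {j : t.ι} {l : ℕ} (hl : l < t.d j) :
    ∀ i ≤ t.m j, t.β j 0 l ≠ t.β j i l → ∃ k < i, t.β j i l ∈ τ.vs (t.bag j k) := by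
  intro i
  induction i with
  | zero => exact fun _ c => absurd rfl c
  | succ i ih =>
    intro hi n
    by_cases e : t.β j i l = t.β j (i + 1) l
    · obtain ⟨k, hk, m⟩ := ih (by omega) (e ▸ n)
      exact ⟨k, by omega, e ▸ m⟩
    · exact ⟨i, by omega, (ln_ends (h.lane j i hi l hl).1 e (h.inner j i (by omega) l hl).1).2⟩

theorem beta_right (h : t.Mid Q) {j : t.ι} {l : ℕ} (hl : l < t.d j) :
    ∀ n i, i + n = t.m j → t.β j (t.m j) l ≠ t.β j i l →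
      ∃ k, i ≤ k ∧ k < t.m j ∧ t.β j i l ∈ τ.vs (t.bag j k) := by
  intro n
  induction n with
  | zero => exact fun i e c => absurd (by rw [← e]; rfl) c
  | succ n ih =>
    intro i hi c
    by_cases e : t.β j i l = t.β j (i + 1) l
    · obtain ⟨k, hk, hk', m⟩ := ih (i + 1) (by omega) (e ▸ c)
      exact ⟨k, by omega, hk', e ▸ m⟩
    · exact ⟨i, le_rfl, by omega,
        (ln_ends (h.lane j i (by omega) l hl).1 e (h.inner j i (by omega) l hl).1).1⟩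

theorem beta_vs (h : t.Mid Q) {j : t.ι} {i l : ℕ} (hi : i ≤ t.m j) (hl : l < t.d j) :
    ∃ k, t.β j i l ∈ τ.vs (t.bag j k) := by
  by_cases e : t.β j 0 l = t.β j i l
  · obtain ⟨k, -, -, m⟩ := beta_right h hl (t.m j - i) i (by omega)
      fun c => h.move j l hl (e.trans c.symm)
    exact ⟨k, m⟩
  · obtain ⟨k, -, m⟩ := beta_left h hl i hi e
    exact ⟨k, m⟩

theorem beta_two (h : t.Mid Q) {j : t.ι} {i l : ℕ} (hi : i ≤ t.m j) (hl : l < t.d j)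
    (n : t.β j i l ∉ t.κ j 0 ∪ t.κ j (t.m j)) :
    ∃ k k', k ≠ k' ∧ t.β j i l ∈ τ.vs (t.bag j k) ∧ t.β j i l ∈ τ.vs (t.bag j k') := by
  obtain ⟨k, hk, m⟩ := beta_left h hl i hi fun c => n (Or.inl (Or.inr ⟨l, hl, c⟩))
  obtain ⟨k', hk', -, m'⟩ := beta_right h hl (t.m j - i) i (by omega)
    fun c => n (Or.inr (Or.inr ⟨l, hl, c⟩))
  exact ⟨k, k', by omega, m, m'⟩

theorem ct_nr {x : MV} {a : τ.ε} (h : a ∈ t.ct x) : a ∉ t.rest :=
  fun c => by cases (Eq.trans (Eq.symm h) c)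

theorem bag_nr {j : t.ι} {i : ℕ} {a : τ.ε} (h : a ∈ t.bag j i) : a ∉ t.rest :=
  fun c => by cases (Eq.trans (Eq.symm h) c)

theorem ct_nb {x : MV} {j : t.ι} {i : ℕ} {a : τ.ε} (h : a ∈ t.ct x) : a ∉ t.bag j i :=
  fun c => by cases (Eq.trans (Eq.symm h) c)

theorem bag_eq {j j' : t.ι} {i i' : ℕ} {a : τ.ε} (h : a ∈ t.bag j i) (h' : a ∈ t.bag j' i') :
    j = j' ∧ i = i' := by
  have := Eq.trans (Eq.symm h) h'
  simpa using this

theorem ct_eq {x y : MV} {a : τ.ε} (h : a ∈ t.ct x) (h' : a ∈ t.ct y) : x = y := by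
  have := Eq.trans (Eq.symm h) h'
  simpa using this

theorem kept (h : t.Mid Q) {a : τ.ε} (ha : a ∉ t.rest) :
    (∃ x ∈ t.s.Ce, a ∈ t.ct x) ∨ ∃ j, ∃ i < t.m j, a ∈ t.bag j i := by
  rcases e : t.own a with _ | x | ⟨j, i⟩
  · exact absurd e ha
  · exact Or.inl ⟨x, h.ownc a x e, e⟩
  · exact Or.inr ⟨j, i, h.ownb a j i e, e⟩

theorem kap (h : t.Mid Q) {j : t.ι} {i : ℕ} (hi : i ≤ t.m j) {v : W} (hv : v ∈ t.κ j i) :
    v ∈ Od ∧ v ∉ Q j ∧ v ∈ τ.vs t.restᶜ ∧ (Sum.inl v ∈ t.s.Vt → v = t.u j i) := by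
  rcases hv with rfl | ⟨l, hl, rfl⟩
  · exact ⟨u_od h j i, u_nq h hi j, (h.node _ (u_node h j i)).1, fun _ => rfl⟩
  · obtain ⟨k1, k2, k3⟩ := h.inner j i hi l hl
    obtain ⟨k, m⟩ := beta_vs h hi hl
    exact ⟨k1, k3, τ.vs_mono (fun a => bag_nr) m, fun c => absurd c k2⟩

theorem mk_kept (h : t.Mid Q) {v : W} (hv : v ∈ t.Mk) : v ∈ τ.vs t.restᶜ := by
  rcases hv with hv | hv
  · obtain ⟨j, hv | hv⟩ := mem_iUnion.1 hv
    exacts [(kap h (Nat.zero_le _) hv).2.2.1, (kap h le_rfl hv).2.2.1]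
  · exact (h.node _ (fx_node h hv)).1

/-- a vertex of a bag that is shared with an atom outside the side is in an end cut -/
theorem side_end (h : t.Mid Q) {j : t.ι} {i : ℕ} {a b : τ.ε} {v : W} (ha : a ∈ t.bag j i)
    (hv : v ∈ τ.inc a) (hq : v ∉ Q j) (hn : Sum.inl v ∉ t.s.Vt) (hb : ∀ k, b ∉ t.bag j k)
    (hv' : v ∈ τ.inc b) : v ∈ t.κ j 0 ∪ t.κ j (t.m j) := by
  have hi := h.ownb a j i ha
  have key : ∀ k ≤ t.m j, v ∈ t.κ j k → v ∈ t.κ j 0 ∪ t.κ j (t.m j) := by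
    rintro k hk (rfl | ⟨l, hl, rfl⟩)
    · exact absurd (u_node h j k) hn
    · by_contra c
      exact h.mid j k hk l hl c (mem_vs.2 ⟨b, fun d => by
        obtain ⟨k, d⟩ := mem_iUnion.1 d
        exact hb k d, hv'⟩)
  rcases h.shb j i hi v ⟨mem_vs.2 ⟨a, ha, hv⟩, hq⟩ with (k | k) | k
  · exact key i hi.le k
  · exact key (i + 1) hi k
  · exact absurd (mem_vs.2 ⟨b, hb i, hv'⟩) k.2.1

/-- a shared vertex of a cell that gets no name is a neighbour -/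
theorem cell_nb (h : t.Mid Q) {x : MV} {a b : τ.ε} {v : W} (ha : a ∈ t.ct x) (hv : v ∈ τ.inc a)
    (hq : v ∉ t.Λ \ t.s.nb x) (hb : b ∉ t.ct x) (hv' : v ∈ τ.inc b) : v ∈ t.s.nb x := by
  rcases h.bdc x (show v ∈ τ.bd (t.ct x) from ⟨⟨a, ha, hv⟩, b, hb, hv'⟩) with k | k
  · exact k
  · by_contra c
    exact hq ⟨k, c⟩

end FBuild

end Pool.Agent.MP_9d78a0_co.gm

end MrgPart1

-- ======== part 2: formerly Pool.Agent.MP_9d78a0_co.gm.FBuild2
section MrgPart2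

/-! Row BUILD, second part: the renamed graph and its structure. -/

set_option autoImplicit false

namespace Pool.Agent.MP_9d78a0_co.gm

open Set Function

namespace FBuild

/-- the place of a vertex in a list -/
def ix (l : List W) (v : W) : ℕ := @List.idxOf W instBEqOfDecidableEq v l

theorem ix_lt {l : List W} {v : W} (h : v ∈ l) : ix l v < l.length :=
  (@List.idxOf_lt_length_iff W instBEqOfDecidableEq _ _ _).2 h

theorem ix_get {l : List W} {v : W} (h : ix l v < l.length) : l[ix l v] = v :=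
  @List.getElem_idxOf W instBEqOfDecidableEq _ _ _ h

/-- the data of the renaming -/
structure BD where
  τ : AG
  t : Sh τ
  Q : t.ι → Set W
  ν : ℕ
  c : t.ι → W → W
  p : W → W
  l1 : List W
  l2 : List W

namespace BD

variable (D : BD)

/-- the new name of a vertex -/
def nm (v : W) : W := Sum.inr (D.ν + ix D.l1 v)

open Classical in
/-- the renaming in a side -/
noncomputable def rs (j : D.t.ι) (v : W) : W :=
  if v ∈ D.Q j then D.nm v else if v ∈ Nm ∨ Sum.inl v ∈ D.t.s.Vt then v else D.c j v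

open Classical in
/-- the renaming in a cell -/
noncomputable def rc (x : MV) (v : W) : W := if v ∈ D.t.Λ \ D.t.s.nb x then D.nm v else v

/-- the renaming for an owner -/
noncomputable def ro : Option (MV ⊕ D.t.ι × ℕ) → W → W
  | none => id
  | some (Sum.inl x) => D.rc x
  | some (Sum.inr q) => D.rs q.1

/-- the renaming in an atom -/
noncomputable def ra (a : D.τ.ε) : W → W := D.ro (D.t.own a)

/-- the name of a marked vertex -/
def mk' (v : W) : ℕ := D.ν + (D.l1.length + ix D.l2 v)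

/-- the new graph -/
noncomputable def σ' : AG where
  ε := {a : D.τ.ε // a ∉ D.t.rest} ⊕ {v : W // v ∈ D.l2}
  fin := by
    have : Finite {v : W // v ∈ D.l2} := (List.finite_toSet D.l2).to_subtype
    infer_instance
  pc := Sum.elim (fun a => ren (D.ra a.1) (D.τ.pc a.1)) fun v => {(v.1, Sum.inr (D.mk' v.1))}
  pfin := by
    rintro (a | v)
    · exact (D.τ.pfin a.1).image _
    · exact finite_singleton _

noncomputable def β' (j : D.t.ι) (i l : ℕ) : W := D.rs j (D.t.β j i l)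

def L' (j : D.t.ι) (i l : ℕ) : Set W := D.rs j '' (D.t.L j i l ∩ (Od \ D.Q j))

def own' : D.σ'.ε → Option (MV ⊕ D.t.ι × ℕ) := Sum.elim (fun a => D.t.own a.1) fun _ => none

/-- the new structure -/
noncomputable abbrev t' : Sh D.σ' := D.t.re D.σ' ∅ D.β' D.L' D.own'

def ρN : List W := D.l1 ++ D.l2.map D.p

def π : W → W :=
  Sum.elim (fun k => D.p (Sum.inl k)) fun i =>
    if i < D.ν then Sum.inr i else D.ρN.getD (i - D.ν) (Sum.inr i)

def P : Set ℕ := {j | D.l1.length ≤ j ∧ j < D.l1.length + D.l2.length}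

/-- the vertices that get a name in some atom -/
def Us : Set W := {v | ∃ a ∉ D.t.rest, v ∈ D.τ.inc a ∧
  ((∃ x, a ∈ D.t.ct x ∧ v ∈ D.t.Λ \ D.t.s.nb x) ∨ ∃ j i, a ∈ D.t.bag j i ∧ v ∈ D.Q j)}

def Z : Set W := D.τ.vs univ ∪ {v | Sum.inl v ∈ D.t.s.Vt}

structure Ok : Prop where
  mid : D.t.Mid D.Q
  names : ∀ a i, Sum.inr i ∈ VV (D.τ.pc a) → i < D.ν
  cp : Cp D.Z D.c D.p
  e1 : Enum D.l1 D.Us
  e2 : Enum D.l2 D.t'.Mk

variable {D}

theorem ra_c {a : D.τ.ε} {x : MV} (h : a ∈ D.t.ct x) : D.ra a = D.rc x := by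
  rw [ra, show D.t.own a = _ from h]; rfl

theorem ra_b {a : D.τ.ε} {j : D.t.ι} {i : ℕ} (h : a ∈ D.t.bag j i) : D.ra a = D.rs j := by
  rw [ra, show D.t.own a = _ from h]; rfl

theorem nm_nod (v : W) : D.nm v ∉ Od := fun c => od_iff.1 c ⟨_, rfl⟩

theorem π_od {v : W} (h : v ∈ Od) : D.π v = D.p v := by
  obtain ⟨k, rfl⟩ := h; rfl

theorem π_old {i : ℕ} (h : i < D.ν) : D.π (Sum.inr i) = Sum.inr i := if_pos h

theorem π_new {j : ℕ} (h : j < D.ρN.length) : D.π (Sum.inr (D.ν + j)) = D.ρN[j] := by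
  show (if D.ν + j < D.ν then _ else _) = _
  rw [if_neg (by omega), Nat.add_sub_cancel_left, List.getD_eq_getElem?_getD,
    List.getElem?_eq_getElem h, Option.getD_some]

theorem len_N : D.ρN.length = D.l1.length + D.l2.length := by simp [ρN]

theorem π_nm {v : W} (h : v ∈ D.l1) : D.π (D.nm v) = v := by
  have k := ix_lt h
  rw [nm, π_new (by rw [len_N]; omega)]
  simp only [ρN]
  rw [List.getElem_append_left k]
  exact ix_get k

theorem π_mk {v : W} (h : v ∈ D.l2) : D.π (Sum.inr (D.mk' v)) = D.p v := by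
  have k := ix_lt h
  rw [mk', π_new (by rw [len_N]; omega)]
  simp only [ρN]
  rw [List.getElem_append_right (by omega)]
  simp only [Nat.add_sub_cancel_left, List.getElem_map]
  rw [ix_get k]

theorem rs_q {j : D.t.ι} {v : W} (h : v ∈ D.Q j) : D.rs j v = D.nm v := if_pos h

theorem rc_q {x : MV} {v : W} (h : v ∈ D.t.Λ \ D.t.s.nb x) : D.rc x v = D.nm v := if_pos h

theorem rc_fix {x : MV} {v : W} (h : v ∉ D.t.Λ \ D.t.s.nb x) : D.rc x v = v := if_neg h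

theorem rs_node {j : D.t.ι} {v : W} (h : v ∉ D.Q j) (k : Sum.inl v ∈ D.t.s.Vt) : D.rs j v = v := by
  rw [rs, if_neg h, if_pos (Or.inr k)]

theorem rs_copy {j : D.t.ι} {v : W} (h : v ∉ D.Q j) (o : v ∈ Od) (k : Sum.inl v ∉ D.t.s.Vt) :
    D.rs j v = D.c j v := by
  rw [rs, if_neg h, if_neg fun c => c.elim (od_iff.1 o) k]

theorem rs_nq {j : D.t.ι} {v : W} (h : D.rs j v ∈ Od) : v ∉ D.Q j :=
  fun c => nm_nod v (rs_q c ▸ h)

theorem rc_nq {x : MV} {v : W} (h : D.rc x v ∈ Od) : v ∉ D.t.Λ \ D.t.s.nb x :=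
  fun c => nm_nod v (rc_q c ▸ h)

variable (h : D.Ok)
include h

theorem rs_nm (j : D.t.ι) (i : ℕ) : D.rs j (Sum.inr i) = Sum.inr i := by
  rw [rs, if_neg fun c => od_iff.1 ((h.mid.nm j).2.1 c) ⟨_, rfl⟩, if_pos (Or.inl ⟨_, rfl⟩)]

theorem rc_nm (x : MV) (i : ℕ) : D.rc x (Sum.inr i) = Sum.inr i :=
  rc_fix fun c => od_iff.1 (h.mid.lam.1 c.1) ⟨_, rfl⟩

theorem ra_nm (a : D.τ.ε) (i : ℕ) : D.ra a (Sum.inr i) = Sum.inr i := by
  unfold ra
  rcases D.t.own a with _ | x | q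
  exacts [rfl, rc_nm h x i, rs_nm h q.1 i]

theorem rs_od {j : D.t.ι} {v : W} (o : v ∈ Od) (q : v ∉ D.Q j) :
    D.rs j v ∈ Od ∧ D.p (D.rs j v) = v := by
  by_cases k : Sum.inl v ∈ D.t.s.Vt
  · rw [rs_node q k]; exact ⟨o, h.cp.fix v (Or.inr k)⟩
  · rw [rs_copy q o k]; exact ⟨h.cp.od j v, h.cp.back j v o⟩

theorem rs_inj (j : D.t.ι) : InjOn (D.rs j) (Od \ D.Q j) := fun u hu v hv e => by
  rw [← (rs_od h hu.1 hu.2).2, e, (rs_od h hv.1 hv.2).2]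

theorem rs_u {j : D.t.ι} {i : ℕ} (hi : i ≤ D.t.m j) (j' : D.t.ι) :
    D.rs j' (D.t.u j i) = D.t.u j i := rs_node (u_nq h.mid hi j') (u_node h.mid j i)

theorem rs_β {j : D.t.ι} {i l : ℕ} (hi : i ≤ D.t.m j) (hl : l < D.t.d j) :
    D.β' j i l = D.c j (D.t.β j i l) :=
  let ⟨k1, k2, k3⟩ := h.mid.inner j i hi l hl
  rs_copy k3 k1 k2

/-- the projection undoes the renaming -/
theorem π_ra {a : D.τ.ε} (ha : a ∉ D.t.rest) {v : W} (hv : v ∈ VV (D.τ.pc a)) :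
    D.π (D.ra a v) = v := by
  rcases od_or_nm v with o | ⟨i, rfl⟩
  · have u : ∀ k, v ∈ D.l1 := fun k => by
      have : v ∈ D.Us := ⟨a, ha, ⟨hv, o⟩, k⟩
      rwa [← h.e1.2] at this
    rcases kept h.mid ha with ⟨x, -, k⟩ | ⟨j, i, -, k⟩
    · rw [ra_c k]
      by_cases q : v ∈ D.t.Λ \ D.t.s.nb x
      · rw [rc_q q, π_nm (u (Or.inl ⟨x, k, q⟩))]
      · rw [rc_fix q, π_od o, h.cp.fix v (Or.inl (mem_vs.2 ⟨a, trivial, hv, o⟩))]
    · rw [ra_b k]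
      by_cases q : v ∈ D.Q j
      · rw [rs_q q, π_nm (u (Or.inr ⟨j, i, k, q⟩))]
      · rw [π_od (rs_od h o q).1, (rs_od h o q).2]
  · rw [ra_nm h, π_old (h.names a i hv)]

/-- a vertex is renamed to an ordinary vertex or to a new name -/
theorem ra_cases {a : D.τ.ε} (ha : a ∉ D.t.rest) {v : W} (hv : v ∈ D.τ.inc a) :
    D.ra a v ∈ Od ∨ (v ∈ D.l1 ∧ D.ra a v = D.nm v) := by
  have u : ∀ k, v ∈ D.l1 := fun k => by
    have : v ∈ D.Us := ⟨a, ha, hv, k⟩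
    rwa [← h.e1.2] at this
  rcases kept h.mid ha with ⟨x, -, k⟩ | ⟨j, i, -, k⟩
  · rw [ra_c k]
    by_cases q : v ∈ D.t.Λ \ D.t.s.nb x
    · exact Or.inr ⟨u (Or.inl ⟨x, k, q⟩), rc_q q⟩
    · exact Or.inl (by rw [rc_fix q]; exact hv.2)
  · rw [ra_b k]
    by_cases q : v ∈ D.Q j
    · exact Or.inr ⟨u (Or.inr ⟨j, i, k, q⟩), rs_q q⟩
    · exact Or.inl (rs_od h hv.2 q).1

theorem inc_l {a : {a : D.τ.ε // a ∉ D.t.rest}} {w : W} :
    w ∈ D.σ'.inc (Sum.inl a) ↔ w ∈ Od ∧ ∃ v ∈ D.τ.inc a.1, D.ra a.1 v = w := by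
  show w ∈ VV (ren _ _) ∩ Od ↔ _
  rw [VV_ren]
  refine ⟨fun ⟨⟨v, hv, e⟩, o⟩ => ⟨o, v, ⟨hv, ?_⟩, e⟩, fun ⟨o, v, hv, e⟩ => ⟨⟨v, hv.1, e⟩, o⟩⟩
  rcases od_or_nm v with k | ⟨i, rfl⟩
  · exact k
  · rw [ra_nm h] at e; exact e ▸ o

theorem inc_π {a : {a : D.τ.ε // a ∉ D.t.rest}} {w : W} (k : w ∈ D.σ'.inc (Sum.inl a)) :
    D.p w ∈ D.τ.inc a.1 ∧ D.ra a.1 (D.p w) = w := by
  obtain ⟨o, v, hv, e⟩ := (inc_l h).1 k
  have : D.p w = v := by rw [← π_od o, ← e, π_ra h a.2 hv.1]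
  exact this ▸ ⟨hv, e⟩

theorem kap' {j : D.t.ι} {i : ℕ} (hi : i ≤ D.t.m j) {w : W} :
    w ∈ D.t'.κ j i ↔ ∃ v ∈ D.t.κ j i, D.rs j v = w := by
  constructor
  · rintro (rfl | ⟨l, hl, rfl⟩)
    exacts [⟨_, Or.inl rfl, rs_u h hi j⟩, ⟨_, Or.inr ⟨l, hl, rfl⟩, rfl⟩]
  · rintro ⟨v, rfl | ⟨l, hl, rfl⟩, rfl⟩
    exacts [Or.inl (rs_u h hi j), Or.inr ⟨l, hl, rfl⟩]

omit h in
theorem mk_iff {w : W} : w ∈ D.t'.Mk ↔
    (∃ j, w ∈ D.t'.κ j 0 ∪ D.t'.κ j (D.t.m j)) ∨ w ∈ D.t.s.far '' D.t.Fx := by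
  show w ∈ (⋃ j, D.t'.κ j 0 ∪ D.t'.κ j (D.t.m j)) ∪ D.t.s.far '' D.t.Fx ↔ _
  rw [mem_union, mem_iUnion]

theorem mk_end {j : D.t.ι} {v : W} (k : v ∈ D.t.κ j 0 ∪ D.t.κ j (D.t.m j)) :
    D.rs j v ∈ D.t'.Mk :=
  mk_iff.2 (Or.inl ⟨j, k.imp (fun k => (kap' h (Nat.zero_le _)).2 ⟨v, k, rfl⟩)
    fun k => (kap' h le_rfl).2 ⟨v, k, rfl⟩⟩)

theorem mk_cases {w : W} (k : w ∈ D.t'.Mk) : (Sum.inl w ∈ D.t.s.Vt ∧ w ∈ D.t.Mk) ∨
    ∃ j, ∃ i ≤ D.t.m j, ∃ l < D.t.d j, D.t.β j i l ∈ D.t.κ j 0 ∪ D.t.κ j (D.t.m j) ∧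
      w = D.β' j i l := by
  rcases mk_iff.1 k with ⟨j, (rfl | ⟨l, hl, rfl⟩) | (rfl | ⟨l, hl, rfl⟩)⟩ | k
  · exact Or.inl ⟨u_node h.mid j 0, Or.inl (mem_iUnion.2 ⟨j, Or.inl (Or.inl rfl)⟩)⟩
  · exact Or.inr ⟨j, 0, Nat.zero_le _, l, hl, Or.inl (Or.inr ⟨l, hl, rfl⟩), rfl⟩
  · exact Or.inl ⟨u_node h.mid j _, Or.inl (mem_iUnion.2 ⟨j, Or.inr (Or.inl rfl)⟩)⟩
  · exact Or.inr ⟨j, _, le_rfl, l, hl, Or.inr (Or.inr ⟨l, hl, rfl⟩), rfl⟩
  · exact Or.inl ⟨fx_node h.mid k, Or.inr k⟩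

theorem p_β {j : D.t.ι} {i l : ℕ} (hi : i ≤ D.t.m j) (hl : l < D.t.d j) :
    D.β' j i l ∈ Od ∧ D.p (D.β' j i l) = D.t.β j i l :=
  let ⟨k1, _, k3⟩ := h.mid.inner j i hi l hl
  rs_od h k1 k3

theorem mk_π {w : W} (k : w ∈ D.t'.Mk) : w ∈ Od ∧ D.p w ∈ D.t.Mk := by
  rcases mk_cases h k with ⟨n, m⟩ | ⟨j, i, hi, l, hl, m, rfl⟩
  · exact ⟨h.mid.ok.od _ n, by rwa [h.cp.fix w (Or.inr n)]⟩
  · exact ⟨(p_β h hi hl).1, by rw [(p_β h hi hl).2]; exact Or.inl (mem_iUnion.2 ⟨j, m⟩)⟩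

theorem mk_node {v : W} (n : Sum.inl v ∈ D.t.s.Vt) (k : v ∈ D.t.Mk) : v ∈ D.t'.Mk := by
  rcases k with k | k
  · obtain ⟨j, k⟩ := mem_iUnion.1 k
    have q : v ∉ D.Q j := k.elim (fun k => (kap h.mid (Nat.zero_le _) k).2.1)
      fun k => (kap h.mid le_rfl k).2.1
    exact rs_node q n ▸ mk_end h k
  · exact mk_iff.2 (Or.inr k)

theorem mk_up {v : W} (k : v ∈ D.t.Mk) : ∃ w ∈ D.t'.Mk, D.p w = v := by
  rcases k with k | k
  · obtain ⟨j, k⟩ := mem_iUnion.1 k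
    have q : v ∈ Od ∧ v ∉ D.Q j := k.elim
      (fun k => ⟨(kap h.mid (Nat.zero_le _) k).1, (kap h.mid (Nat.zero_le _) k).2.1⟩)
      fun k => ⟨(kap h.mid le_rfl k).1, (kap h.mid le_rfl k).2.1⟩
    exact ⟨_, mk_end h k, (rs_od h q.1 q.2).2⟩
  · exact ⟨v, mk_iff.2 (Or.inr k), h.cp.fix v (Or.inr (fx_node h.mid k))⟩

theorem lam_mk {v : W} (n : Sum.inl v ∈ D.t.s.Vt) (k : v ∈ D.t.Λ) : v ∈ D.t'.Mk :=
  mk_iff.2 (Or.inr (h.mid.lamn v k n))

theorem mem_l2 {w : W} : w ∈ D.l2 ↔ w ∈ D.t'.Mk := by rw [← h.e2.2]; rfl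

theorem inc_r {a : {v : W // v ∈ D.l2}} {w : W} : w ∈ D.σ'.inc (Sum.inr a) ↔ w = a.1 := by
  constructor
  · rintro ⟨⟨_, rfl, e | e⟩, o⟩
    · exact e
    · exact absurd ⟨_, e.symm⟩ (od_iff.1 o)
  · rintro rfl
    exact ⟨⟨_, rfl, Or.inl rfl⟩, (mk_π h ((mem_l2 h).1 a.2)).1⟩

/-- nodes outside the exceptional set keep their place -/
theorem node_fix {a : D.τ.ε} (ha : a ∉ D.t.rest) {v : W} (n : Sum.inl v ∈ D.t.s.Vt)
    (k : v ∉ D.t.Λ) : D.ra a v = v := by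
  rcases kept h.mid ha with ⟨x, -, e⟩ | ⟨j, i, -, e⟩
  · rw [ra_c e, rc_fix fun c => k c.1]
  · rw [ra_b e, rs_node (fun c => k ((h.mid.nm j).2.2.2 v c n)) n]

theorem node_inc {a : D.τ.ε} (ha : a ∉ D.t.rest) {v : W} (n : Sum.inl v ∈ D.t.s.Vt)
    (k : v ∉ D.t.Λ) (hv : v ∈ D.τ.inc a) : v ∈ D.σ'.inc (Sum.inl ⟨a, ha⟩) :=
  (inc_l h).2 ⟨hv.2, v, hv, node_fix h ha n k⟩

/-- a node that stays ordinary is fixed -/
theorem node_od {a : D.τ.ε} (ha : a ∉ D.t.rest) {v : W} (n : Sum.inl v ∈ D.t.s.Vt)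
    (o : D.ra a v ∈ Od) : D.ra a v = v := by
  rcases kept h.mid ha with ⟨x, -, e⟩ | ⟨j, i, -, e⟩
  · rw [ra_c e] at o ⊢; exact rc_fix (rc_nq o)
  · rw [ra_b e] at o ⊢; exact rs_node (rs_nq o) n

theorem bag_inc {a : D.τ.ε} {j : D.t.ι} {i : ℕ} (ha : a ∈ D.t.bag j i) {v : W}
    (hv : v ∈ D.τ.inc a) (q : v ∉ D.Q j) : D.rs j v ∈ D.σ'.inc (Sum.inl ⟨a, bag_nr ha⟩) :=
  (inc_l h).2 ⟨(rs_od h hv.2 q).1, v, hv, by rw [ra_b ha]⟩

omit h in
theorem un_own (o : MV ⊕ D.t.ι × ℕ) : D.σ'.un {a | D.own' a = some o} =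
    ren (D.ro (some o)) (D.τ.un {a | D.t.own a = some o}) := by
  ext q
  simp only [AG.un, ren, mem_iUnion, mem_image, exists_prop, mem_ofPred_eq]
  constructor
  · rintro ⟨a | a, e, k⟩
    · obtain ⟨q', k, rfl⟩ := k
      exact ⟨q', ⟨a.1, e, k⟩, by rw [ra, show D.t.own a.1 = _ from e]⟩
    · cases e
  · rintro ⟨q', ⟨a, e, k⟩, rfl⟩
    exact ⟨Sum.inl ⟨a, fun c => by cases e.symm.trans c⟩, e, q', k, by
      rw [ra, show D.t.own a = _ from e]⟩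

omit h in
theorem un_bag (j : D.t.ι) (i : ℕ) :
    D.σ'.un (D.t'.bag j i) = ren (D.rs j) (D.τ.un (D.t.bag j i)) := un_own (Sum.inr (j, i))

omit h in
theorem un_ct (x : MV) : D.σ'.un (D.t'.ct x) = ren (D.rc x) (D.τ.un (D.t.ct x)) :=
  un_own (Sum.inl x)

/-- every vertex of a new cut lies in two atoms -/
theorem two' {j : D.t.ι} {i : ℕ} (hi : i ≤ D.t.m j) {w : W} (hw : w ∈ D.t'.κ j i) :
    ∃ a b, a ≠ b ∧ w ∈ D.σ'.inc a ∧ w ∈ D.σ'.inc b := by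
  have pe : ∀ a, w ∈ D.σ'.inc (Sum.inl a) → w ∈ D.t'.Mk →
      ∃ a b, a ≠ b ∧ w ∈ D.σ'.inc a ∧ w ∈ D.σ'.inc b := fun a k m =>
    ⟨Sum.inl a, Sum.inr ⟨w, (mem_l2 h).2 m⟩, Sum.inl_ne_inr, k, (inc_r h).2 rfl⟩
  rcases hw with rfl | ⟨l, hl, rfl⟩
  · have n := u_node h.mid j i
    have k := h.mid.ulam j i hi
    by_cases e : i = 0 ∨ i = D.t.m j
    · obtain ⟨a, ha, hv⟩ := mem_vs.1 (h.mid.node _ n).1
      refine pe _ (node_inc h ha n k hv) (mk_iff.2 (Or.inl ⟨j, ?_⟩))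
      rcases e with rfl | rfl
      exacts [Or.inl (Or.inl rfl), Or.inr (Or.inl rfl)]
    · obtain ⟨i, rfl⟩ : ∃ i', i = i' + 1 := ⟨i - 1, by omega⟩
      obtain ⟨a, b, ne, ha, hb, k1, k2⟩ := u_two h.mid (by omega : i + 1 < D.t.m j)
      exact ⟨_, _, fun c => ne (congrArg Subtype.val (Sum.inl.inj c)), node_inc h ha n k k1,
        node_inc h hb n k k2⟩
  · have q := (h.mid.inner j i hi l hl).2.2
    by_cases e : D.t.β j i l ∈ D.t.κ j 0 ∪ D.t.κ j (D.t.m j)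
    · obtain ⟨k, m⟩ := beta_vs h.mid hi hl
      obtain ⟨a, ha, hv⟩ := mem_vs.1 m
      exact pe _ (bag_inc h ha hv q) (mk_end h e)
    · obtain ⟨k, k', ne, m, m'⟩ := beta_two h.mid hi hl e
      obtain ⟨a, ha, hv⟩ := mem_vs.1 m
      obtain ⟨b, hb, hv'⟩ := mem_vs.1 m'
      refine ⟨_, _, fun c => ne ?_, bag_inc h ha hv q, bag_inc h hb hv' q⟩
      obtain rfl : a = b := congrArg Subtype.val (Sum.inl.inj c)
      exact (bag_eq ha hb).2

theorem ln' {j : D.t.ι} {i l : ℕ} {v w : W} (k : D.t.Ln (D.Q j) j i (D.t.L j i l) v w)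
    (o : v ∈ Od) : D.t'.Lane j i (D.L' j i l) (D.rs j v) (D.rs j w) := by
  have s : D.t.L j i l ⊆ Od \ D.Q j := fun z hz =>
    ⟨(k.2.2.2 hz).1.elim (fun c => D.τ.vs_od _ c) fun c => c ▸ o, (k.2.2.2 hz).2⟩
  have e : D.L' j i l = D.rs j '' D.t.L j i l := by rw [L', inter_eq_left.2 s]
  rw [e]
  refine ⟨un_bag j i ▸ conn_ren _ k.1, ⟨v, k.2.1, rfl⟩, ⟨w, k.2.2.1, rfl⟩, ?_⟩
  rintro _ ⟨z, hz, rfl⟩
  refine ⟨?_, notMem_empty _⟩
  rcases (k.2.2.2 hz).1 with c | c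
  · obtain ⟨a, ha, c⟩ := mem_vs.1 c
    exact Or.inl (mem_vs.2 ⟨_, ha, bag_inc h ha c (s hz).2⟩)
  · exact Or.inr (congrArg _ c)

theorem nin' {j : D.t.ι} {i l : ℕ} {v : W} (o : v ∈ Od) (q : v ∉ D.Q j) (k : v ∉ D.t.L j i l) :
    D.rs j v ∉ D.L' j i l := by
  rintro ⟨z, hz, e⟩
  exact k (rs_inj h j hz.2 ⟨o, q⟩ e ▸ hz.1)

theorem solid' {x : MV} (hx : x ∈ D.t.s.Ce) : Solid (D.σ'.un (D.t'.ct x)) (D.t.s.nb x) ∅ := by
  have k := solidS.1 _ _ _ ∅ (D.rc x) (h.mid.solid x hx).1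
    (fun u hu v hv e => by rwa [rc_fix hu.2, rc_fix hv.2] at e)
    fun u hu => by rw [rc_fix hu.2]; exact ⟨hu.1.2, notMem_empty _⟩
  rw [un_ct]
  rwa [show D.rc x '' D.t.s.nb x = D.t.s.nb x from
    (image_congr fun v hv => rc_fix fun c => c.2 hv).trans (image_id' _)] at k

theorem nb_bd' {x : MV} (hx : x ∈ D.t.s.Ce) : D.t.s.nb x ⊆ D.σ'.bd (D.t'.ct x) := by
  intro v hv
  obtain ⟨⟨a, ha, k⟩, b, hb, k'⟩ := (h.mid.solid x hx).2 hv
  have n := nb_node h.mid hv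
  refine ⟨⟨Sum.inl ⟨a, ct_nr ha⟩, ha, (inc_l h).2 ⟨k.2, v, k, ?_⟩⟩, ?_⟩
  · rw [ra_c ha, rc_fix fun c => c.2 hv]
  · by_cases m : v ∈ D.t'.Mk
    · exact ⟨Sum.inr ⟨v, (mem_l2 h).2 m⟩, fun c => (by cases c), (inc_r h).2 rfl⟩
    · have r : b ∉ D.t.rest := fun c =>
        ((h.mid.node v n).2.resolve_left fun d => m (mk_node h n d)) (mem_vs.2 ⟨b, c, k'⟩)
      exact ⟨Sum.inl ⟨b, r⟩, hb, node_inc h r n (fun c => m (lam_mk h n c)) k'⟩

theorem ok' : D.t'.Ok where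
  ok := h.mid.ok
  spoke := h.mid.spoke
  lam := ⟨empty_subset _, finite_empty⟩
  lamn := fun _ c => c.elim
  root := fun _ _ c => c.1.elim
  len := h.mid.len
  hole := h.mid.hole
  sep := h.mid.sep
  quad := h.mid.quad
  lkinj := h.mid.lkinj
  rim := h.mid.rim
  ulam := fun _ _ _ c => c.elim
  ownc := by
    rintro (a | a) x e
    exacts [h.mid.ownc _ x e, by cases e]
  ownb := by
    rintro (a | a) j i e
    exacts [h.mid.ownb _ j i e, by cases e]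
  inner := fun j i hi l hl => ⟨(p_β h hi hl).1, fun _ c =>
    h.cp.fresh j _ (Or.inr (by rw [← rs_β h hi hl]; exact c))⟩
  priv := by
    intro j j' i hi i' hi' l hl l' hl' _ e
    have e1 : D.β' j i l = D.β' j' i' l' := e
    have e2 := e1
    rw [rs_β h hi hl, rs_β h hi' hl'] at e2
    obtain rfl := h.cp.side _ _ _ _ e2
    refine ⟨rfl, h.mid.priv j i hi i' hi' l hl l' hl' ?_⟩
    rw [← (p_β h hi hl).2, e1, (p_β h hi' hl').2]
  conv := by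
    intro j l hl i k i' a b c _ e
    have e1 : D.β' j i l = D.β' j i' l := e
    refine congrArg (D.rs j) (h.mid.conv j l hl i k i' a b c ?_)
    rw [← (p_β h (a.trans (b.trans c)) hl).2, e1, (p_β h c hl).2]
  share := by
    rintro (a | a) w ⟨hw, -⟩ hc
    · obtain ⟨hv, e⟩ := inc_π h hw
      have ot : ∀ a' : D.σ'.ε, D.own' a' ≠ D.t.own a.1 → D.own' a' ≠ none → w ∈ D.σ'.inc a' →
          ∃ b, D.t.own b ≠ D.t.own a.1 ∧ D.p w ∈ D.τ.inc b := by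
        rintro (b | b) n1 n2 k
        exacts [⟨b.1, n1, (inc_π h k).1⟩, absurd rfl n2]
      refine ⟨fun x hx => ?_, fun j i hj => ?_, fun c => absurd c a.2⟩
      · have hx' : a.1 ∈ D.t.ct x := hx
        rw [ra_c hx'] at e
        have q := rc_nq (e.symm ▸ hw.2)
        rw [rc_fix q] at e
        rw [e] at hv q
        have nd : Sum.inl w ∈ D.t.s.Vt → w ∈ D.t.s.nb x := fun n => by
          by_cases c : w ∈ D.t.Λ
          · by_contra d; exact q ⟨c, d⟩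
          · exact h.mid.ndc x w ⟨mem_vs.2 ⟨_, hx', hv⟩, c⟩ n
        rcases hc with n | ⟨j, i, hi, rfl | ⟨l, hl, k⟩⟩ | ⟨b, n1, n2, k⟩
        · exact nd n
        · exact nd (u_node h.mid j i)
        · have k' : D.β' j i l = w := k
          exact absurd (Or.inl (mem_vs.2 ⟨_, mem_univ _, hv⟩))
            (by rw [← k', rs_β h hi hl]; exact h.cp.fresh j _ : w ∉ D.Z)
        · obtain ⟨b, n, k⟩ := ot b n1 n2 k
          exact cell_nb h.mid hx' hv q (fun c => n (Eq.trans c (Eq.symm hx))) (e ▸ k)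
      · have hj' : a.1 ∈ D.t.bag j i := hj
        have hi := h.mid.ownb _ j i hj
        rw [ra_b hj'] at e
        have q := rs_nq (e.symm ▸ hw.2)
        rcases h.mid.shb j i hi _ ⟨mem_vs.2 ⟨_, hj', hv⟩, q⟩ with (k | k) | ⟨k1, k2, k3⟩
        · exact Or.inl ((kap' h hi.le).2 ⟨_, k, e⟩)
        · exact Or.inr ((kap' h hi).2 ⟨_, k, e⟩)
        · exfalso
          rw [rs_copy q hv.2 k1] at e
          have nd : Sum.inl w ∉ D.t.s.Vt := fun n => h.cp.fresh j _ (Or.inr (by rw [e]; exact n))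
          rcases hc with n | ⟨j', i', hi', rfl | ⟨l, hl, k⟩⟩ | ⟨b, n1, n2, k⟩
          · exact nd n
          · exact nd (u_node h.mid j' i')
          · have k' : D.β' j' i' l = w := k
            obtain rfl := h.cp.side _ _ _ _ (e.trans (k'.symm.trans (rs_β h hi' hl)))
            exact k3 i' hi' (Or.inr ⟨l, hl, by rw [← k', (p_β h hi' hl).2]⟩)
          · obtain ⟨b, n, k⟩ := ot b n1 n2 k
            exact k2 (mem_vs.2 ⟨b, fun c => n (Eq.trans c (Eq.symm hj)), k⟩)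
    · exact ⟨fun x c => (by cases c), fun j i c => (by cases c), fun _ =>
        (inc_r h).1 hw ▸ (mem_l2 h).1 a.2⟩
  two := fun j i hi w hw a ha =>
    let ⟨_, _, n, k1, k2⟩ := two' h hi hw
    two_bd ha k1 k2 n
  solid := fun x hx => ⟨by
    rw [show D.t'.Λ \ D.t'.s.nb x = ∅ from empty_sdiff _]
    exact solid' h hx, nb_bd' h hx⟩
  lane := by
    intro j i hi l hl _ _
    obtain ⟨k1, k2, k3⟩ := h.mid.lane j i hi l hl
    refine ⟨ln' h k1 (h.mid.inner j i hi.le l hl).1, ?_, ?_⟩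
    · exact rs_u h hi.le j ▸ nin' h (u_od h.mid j i) (u_nq h.mid hi.le j) k2
    · exact rs_u h hi j ▸ nin' h (u_od h.mid j _) (u_nq h.mid hi j) k3
  path := by
    intro j i hi k
    have := ln' h (h.mid.path j i hi k) (u_od h.mid j i)
    rwa [rs_u h hi.le, rs_u h hi] at this
  ldis := by
    intro j i hi l hl l' hl' n
    refine disjoint_left.2 ?_
    rintro _ ⟨z, hz, rfl⟩ k
    exact nin' h hz.2.1 hz.2.2 (disjoint_left.1 (h.mid.ldis j i hi l hl l' hl' n) hz.1) k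
  lent := by
    intro j i hi l hl l' hl' n
    obtain ⟨k1, k2⟩ := h.mid.lent j i hi l hl l' hl' n
    obtain ⟨a1, -, a3⟩ := h.mid.inner j i hi.le l' hl'
    obtain ⟨b1, -, b3⟩ := h.mid.inner j (i + 1) hi l' hl'
    exact ⟨nin' h a1 a3 k1, nin' h b1 b3 k2⟩

end BD

end FBuild

end Pool.Agent.MP_9d78a0_co.gm

end MrgPart2

-- ======== part 3: formerly Pool.Agent.MP_9d78a0_co.gm.FBuild
section MrgPart3

/-! Row BUILD: labels, widths and the description of the old graph. -/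

set_option autoImplicit false

namespace Pool.Agent.MP_9d78a0_co.gm

open Set Function

namespace FBuild

theorem ix_at {l : List W} (h : l.Nodup) {k : ℕ} (hk : k < l.length) : ix l l[k] = k :=
  (h.getElem_inj_iff (hi := ix_lt (List.getElem_mem hk)) (hj := hk)).1 (ix_get _)

theorem card_le {ι : Type} [Fintype ι] {S : Set W} {T : ι → Set W} {n : ℕ} (h0 : Fintype.card ι ≤ n)
    (h1 : S.ncard ≤ n) (h2 : ∀ j, (T j).ncard ≤ n) : (S ∪ ⋃ j, T j).ncard ≤ n + n * n := by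
  refine (ncard_union_le _ _).trans (Nat.add_le_add h1 (ncard_iUnion_le_of_fintype _ |>.trans ?_))
  refine (Finset.sum_le_card_nsmul _ _ n fun j _ => h2 j).trans ?_
  exact Nat.mul_le_mul_right n h0

theorem pen_mem {v : W} (o : v ∈ Od) {i n : ℕ} (hi : i < n) {R : Set W} (hR : R ⊆ {v}) :
    InA (Pen n) {(v, Sum.inr i)} R := by
  obtain ⟨k, rfl⟩ := o
  have key : ∀ ρ : List W, (∀ u ∈ ρ, u = Sum.inl k) →
      Eqv ({(Sum.inl k, Sum.inr i)}, ρ)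
        ({(Sum.inl 0, Sum.inr i)}, ρ.map (Sum.elim (fun _ => Sum.inl 0) Sum.inr)) := by
    intro ρ hρ
    have d : ∀ u ∈ dom ({(Sum.inl k, Sum.inr i)}, ρ), u = Sum.inl k ∨ u ∈ Nm := by
      rintro u ((⟨_, rfl, e | e⟩ | e) | e)
      exacts [Or.inl e, Or.inr ⟨_, e.symm⟩, Or.inl (hρ u e), Or.inr e]
    have := renS ({(Sum.inl k, Sum.inr i)}, ρ) (Sum.elim (fun _ => Sum.inl 0) Sum.inr) (by
      intro u hu w hw e
      rcases d u hu with rfl | ⟨_, rfl⟩ <;> rcases d w hw with rfl | ⟨_, rfl⟩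
      exacts [rfl, (by cases e), (by cases e), e]) fun _ => rfl
    simpa only [ren, image_singleton, Prod.map_apply, Sum.elim_inl, Sum.elim_inr] using this
  rcases subset_singleton_iff_eq.1 hR with rfl | rfl
  · exact Or.inr ⟨[], ⟨List.nodup_nil, by simp⟩, _, ⟨i, hi, rfl, Or.inr rfl⟩, key [] (by simp)⟩
  · exact Or.inr ⟨[Sum.inl k], ⟨List.nodup_singleton _, by simp⟩, _, ⟨i, hi, rfl, Or.inl rfl⟩,
      key [Sum.inl k] (by simp)⟩

namespace BD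

variable {D : BD} {A : Set Lab} {K n : ℕ} (h : D.Ok)
include h

theorem nm_l {a : {a : D.τ.ε // a ∉ D.t.rest}} {i : ℕ}
    (k : Sum.inr i ∈ VV (D.σ'.pc (Sum.inl a))) : i < D.ν + D.l1.length := by
  obtain ⟨v, hv, e⟩ : Sum.inr i ∈ D.ra a.1 '' VV (D.τ.pc a.1) := VV_ren _ _ ▸ k
  rcases od_or_nm v with o | ⟨i', rfl⟩
  · rcases ra_cases h a.2 ⟨hv, o⟩ with c | ⟨c, d⟩
    · exact absurd ⟨_, e.symm⟩ (od_iff.1 c)
    · have := ix_lt c
      have := Sum.inr.inj (d.symm.trans e)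
      omega
  · rw [ra_nm h] at e
    have := h.names _ _ (e ▸ hv)
    omega

theorem nm_r {a : {v : W // v ∈ D.l2}} {i : ℕ} (k : Sum.inr i ∈ VV (D.σ'.pc (Sum.inr a))) :
    i = D.mk' a.1 := by
  obtain ⟨_, rfl, e | e⟩ := k
  · exact absurd ⟨_, e⟩ (od_iff.1 (mk_π h ((mem_l2 h).1 a.2)).1)
  · exact Sum.inr.inj e

theorem nm_lt (a : D.σ'.ε) (i : ℕ) (k : Sum.inr i ∈ VV (D.σ'.pc a)) : i < D.ν + D.ρN.length := by
  rw [len_N]
  rcases a with a | a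
  · have := nm_l h k
    omega
  · have := ix_lt a.2
    rw [nm_r h k, mk']
    omega

theorem nm_one {v : W} (hv : v ∈ D.l2) (a : D.σ'.ε) (k : Sum.inr (D.mk' v) ∈ VV (D.σ'.pc a)) :
    a = Sum.inr ⟨v, hv⟩ := by
  rcases a with a | a
  · have := nm_l h k
    rw [mk'] at this
    omega
  · have e := nm_r h k
    rw [mk', mk'] at e
    have e' : ix D.l2 v = ix D.l2 a.1 := by omega
    refine congrArg Sum.inr (Subtype.ext ?_)
    rw [← ix_get (ix_lt a.2)]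
    simp only [← e']
    exact ix_get _

theorem adj_pen {u : W} (hu : u ∈ D.l2) (v : W) :
    (gr (D.σ'.un univ)).Adj (Sum.inr (D.mk' u)) v ↔ v = u := by
  have o := od_iff.1 (mk_π h ((mem_l2 h).1 hu)).1
  constructor
  · rintro ⟨-, k | k⟩ <;> obtain ⟨a, -, k⟩ := mem_iUnion₂.1 k
    · obtain rfl := nm_one h hu a ⟨_, k, Or.inl rfl⟩
      exact absurd ⟨_, (Prod.mk.inj k).1⟩ o
    · obtain rfl := nm_one h hu a ⟨_, k, Or.inr rfl⟩
      exact (Prod.mk.inj k).1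
  · rintro rfl
    exact ⟨fun c => o ⟨_, c⟩, Or.inr (mem_iUnion₂.2 ⟨Sum.inr ⟨v, hu⟩, trivial, rfl⟩)⟩

/-- an unmarked ordinary vertex has the same image in all atoms -/
theorem lone {a b : D.τ.ε} (ha : a ∉ D.t.rest) {v : W} (hv : v ∈ D.τ.inc a) (o : D.ra a v ∈ Od)
    (m : D.ra a v ∉ D.t'.Mk) (hb : v ∈ D.τ.inc b) : b ∉ D.t.rest ∧ D.ra b v = D.ra a v := by
  by_cases nd : Sum.inl v ∈ D.t.s.Vt
  · rw [node_od h ha nd o] at m ⊢
    have r : b ∉ D.t.rest := fun c =>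
      ((h.mid.node v nd).2.resolve_left fun d => m (mk_node h nd d)) (mem_vs.2 ⟨b, c, hb⟩)
    exact ⟨r, node_fix h r nd fun c => m (lam_mk h nd c)⟩
  · rcases kept h.mid ha with ⟨x, -, e⟩ | ⟨j, i, -, e⟩
    · rw [ra_c e] at o ⊢
      by_cases k : b ∈ D.t.ct x
      · exact ⟨ct_nr k, by rw [ra_c k]⟩
      · exact absurd (nb_node h.mid (cell_nb h.mid e hv (rc_nq o) k hb)) nd
    · rw [ra_b e] at o m ⊢
      by_cases k : ∃ k, b ∈ D.t.bag j k
      · obtain ⟨k, k'⟩ := k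
        exact ⟨bag_nr k', by rw [ra_b k']⟩
      · exact absurd (mk_end h (side_end h.mid e hv (rs_nq o) nd (fun i c => k ⟨i, c⟩) hb)) m

theorem mem_N {v : W} : v ∈ D.ρN ↔ v ∈ D.Us ∨ ∃ w ∈ D.t'.Mk, D.p w = v := by
  simp only [ρN, List.mem_append, List.mem_map, mem_l2 h]
  rw [← h.e1.2]; rfl

theorem N_kept {v : W} (k : v ∈ D.ρN) : v ∈ D.τ.vs D.t.restᶜ := by
  rcases (mem_N h).1 k with ⟨a, ha, hv, -⟩ | ⟨w, hw, rfl⟩
  exacts [mem_vs.2 ⟨a, ha, hv⟩, mk_kept h.mid (mk_π h hw).2]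

theorem roots' {O : Set D.τ.ε} {ρO : List W} (e : Enum ρO (D.τ.bd O)) :
    D.τ.bd (D.t.rest \ O) ⊆ {v | v ∈ ρO ++ D.ρN} := by
  rintro v ⟨⟨a, ha, hv⟩, b, hb, hv'⟩
  refine List.mem_append.2 ?_
  by_cases k : b ∈ O
  · refine Or.inl ?_
    have : v ∈ D.τ.bd O := ⟨⟨b, k, hv'⟩, a, ha.2, hv⟩
    rwa [← e.2] at this
  · have r : b ∉ D.t.rest := fun c => hb ⟨c, k⟩
    refine Or.inr ((mem_N h).2 ?_)
    rcases ra_cases h r hv' with o | ⟨c, -⟩
    · by_cases m : D.ra b v ∈ D.t'.Mk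
      · exact Or.inr ⟨_, m, by rw [← π_od o, π_ra h r hv'.1]⟩
      · exact absurd ha.1 (lone h r hv' o m hv).1
    · exact Or.inl (by rw [← h.e1.2]; exact c)

theorem desc' {O : Set D.τ.ε} (hO : O ⊆ D.t.rest) {ρO : List W} (e : Enum ρO (D.τ.bd O)) :
    Desc D.ν D.P (D.τ.un Oᶜ) ρO (D.τ.un (D.t.rest \ O)) D.ρN (D.σ'.un univ) D.π := by
  have nG : ∀ i, Sum.inr i ∈ VV (D.σ'.un univ) → i < D.ν + D.ρN.length := by
    rintro i ⟨q, hq, k⟩
    obtain ⟨a, -, hq⟩ := mem_iUnion₂.1 hq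
    exact nm_lt h a i ⟨q, hq, k⟩
  have sX : D.τ.vs D.t.restᶜ ⊆ VV (D.τ.un Oᶜ) :=
    (D.τ.vs_mono (compl_subset_compl.2 hO)).trans (D.τ.vs_VV _)
  have eO : ∀ v ∈ ρO, v ∈ D.τ.vs O := fun v hv => D.τ.bd_vs O (by rw [← e.2]; exact hv)
  have pr : ∀ q ∈ D.τ.un Oᶜ, q ∈ D.τ.un (D.t.rest \ O) ∨
      ∃ q' ∈ D.σ'.un univ, D.π q'.1 = q.1 ∧ D.π q'.2 = q.2 := by
    intro q hq
    obtain ⟨a, ha, hq⟩ := mem_iUnion₂.1 hq
    by_cases r : a ∈ D.t.rest
    · exact Or.inl (mem_iUnion₂.2 ⟨a, ⟨r, ha⟩, hq⟩)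
    · exact Or.inr ⟨_, mem_iUnion₂.2 ⟨Sum.inl ⟨a, r⟩, trivial, q, hq, rfl⟩,
        π_ra h r ⟨q, hq, Or.inl rfl⟩, π_ra h r ⟨q, hq, Or.inr rfl⟩⟩
  have bk : ∀ u v, (u, v) ∈ D.σ'.un univ → D.π u = D.π v ∨ (D.π u, D.π v) ∈ D.τ.un Oᶜ := by
    intro u v k
    obtain ⟨a | a, -, k⟩ := mem_iUnion₂.1 k
    · obtain ⟨q, hq, k⟩ := k
      obtain ⟨rfl, rfl⟩ := Prod.mk.inj k
      rw [π_ra h a.2 ⟨q, hq, Or.inl rfl⟩, π_ra h a.2 ⟨q, hq, Or.inr rfl⟩]
      exact Or.inr (mem_iUnion₂.2 ⟨a.1, fun c => a.2 (hO c), hq⟩)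
    · obtain ⟨rfl, rfl⟩ := Prod.mk.inj k
      exact Or.inl (by rw [π_mk a.2, π_od (mk_π h ((mem_l2 h).1 a.2)).1])
  refine ⟨fun _ => π_old, fun _ => π_new, ?_, nG, ⟨fun v o => π_od o ▸ h.cp.pod v o,
    fun v hv => D.τ.vs_od _ (eO v hv), fun v hv => ⟨D.τ.vs_od _ (N_kept h hv), sX (N_kept h hv)⟩⟩,
    D.τ.un_mono fun a ha => ha.2, ⟨?_, ?_⟩, ⟨?_, ?_⟩, ?_, ?_⟩
  · rintro i ⟨q, hq, k⟩
    obtain ⟨a, -, hq⟩ := mem_iUnion₂.1 hq
    exact h.names a i ⟨q, hq, k⟩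
  · rintro v ⟨q, hq, k⟩
    rcases pr q hq with c | ⟨q', c, k1, k2⟩
    · exact Or.inl ⟨q, c, k⟩
    · rcases k with rfl | rfl
      exacts [Or.inr ⟨_, ⟨q', c, Or.inl rfl⟩, k1⟩, Or.inr ⟨_, ⟨q', c, Or.inr rfl⟩, k2⟩]
  · rintro u v ⟨ne, k | k⟩ <;> rcases pr _ k with c | ⟨q', c, k1, k2⟩
    · exact Or.inl ⟨ne, Or.inl c⟩
    · exact Or.inr ⟨q'.1, q'.2, ⟨fun d => ne (k1.symm.trans (d ▸ k2)), Or.inl c⟩, k1, k2⟩
    · exact Or.inl ⟨ne, Or.inr c⟩
    · exact Or.inr ⟨q'.2, q'.1, ⟨fun d => ne (k2.symm.trans (d ▸ k1)), Or.inr c⟩, k2, k1⟩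
  · rintro _ ⟨w, hw, rfl⟩
    rw [π_od hw.2]
    obtain ⟨a | a, -, k⟩ := mem_vs.1 (D.σ'.vs_un univ ▸ hw)
    · exact sX (mem_vs.2 ⟨_, a.2, (inc_π h k).1⟩)
    · rw [(inc_r h).1 k]
      exact sX (mk_kept h.mid (mk_π h ((mem_l2 h).1 a.2)).2)
  · rintro u v ⟨-, k | k⟩
    · by_cases c : D.π u = D.π v
      exacts [Or.inl c, Or.inr ⟨c, Or.inl ((bk u v k).resolve_left c)⟩]
    · by_cases c : D.π u = D.π v
      exacts [Or.inl c, Or.inr ⟨c, Or.inr ((bk v u k).resolve_left fun d => c d.symm)⟩]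
  · rintro j ⟨h1, h2⟩
    obtain ⟨k, rfl⟩ := Nat.exists_eq_add_of_le h1
    have hk : k < D.l2.length := by omega
    have hu := List.getElem_mem hk
    have e' : D.ν + (D.l1.length + k) = D.mk' D.l2[k] := by rw [mk', ix_at h.e2.1 hk]
    have o := (mk_π h ((mem_l2 h).1 hu)).1
    refine ⟨by rw [len_N]; omega, D.l2[k], o, ?_, ?_⟩
    · rw [e', π_mk hu, π_od o]
    · rw [e']; exact adj_pen h hu
  · intro u hu
    by_cases m : u ∈ D.t'.Mk
    · have k := (mem_l2 h).2 m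
      have := ix_lt k
      exact Or.inl ⟨D.l1.length + ix D.l2 u, ⟨by omega, by omega⟩, (adj_pen h k u).2 rfl⟩
    · obtain ⟨a | a, -, k⟩ := mem_vs.1 (D.σ'.vs_un univ ▸ hu)
      swap
      · exact absurd ((inc_r h).1 k ▸ (mem_l2 h).1 a.2) m
      obtain ⟨hv, e'⟩ := inc_π h k
      have L : ∀ b, D.p u ∈ D.τ.inc b → b ∉ D.t.rest ∧ D.ra b (D.p u) = u := fun b hb => by
        have := lone h a.2 hv (e'.symm ▸ hu.2) (e'.symm ▸ m) hb
        rwa [e'] at this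
      have nN : D.p u ∉ D.ρN := fun c => by
        rcases (mem_N h).1 c with ⟨b, -, hb, ⟨x, k1, k2⟩ | ⟨j, i, k1, k2⟩⟩ | ⟨w, hw, ew⟩
        · have := (L b hb).2
          rw [ra_c k1, rc_q k2] at this
          exact nm_nod _ (this ▸ hu.2)
        · have := (L b hb).2
          rw [ra_b k1, rs_q k2] at this
          exact nm_nod _ (this ▸ hu.2)
        · rcases mk_cases h hw with ⟨nd, -⟩ | ⟨j, i, hi, l, hl, -, rfl⟩
          · rw [h.cp.fix w (Or.inr nd)] at ew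
            rw [← ew] at e'
            exact m (by rw [← e', node_od h a.2 nd (e'.symm ▸ hu.2)]; exact hw)
          · rw [(p_β h hi hl).2] at ew
            obtain ⟨k', c'⟩ := beta_vs h.mid hi hl
            obtain ⟨b, hb, c'⟩ := mem_vs.1 c'
            have := (L b (ew ▸ c')).2
            rw [ra_b hb, ← ew] at this
            exact m (this ▸ hw)
      rw [π_od hu.2]
      refine Or.inr ⟨fun c => ?_, nN, fun c => ?_, fun u' hu' eu => ?_⟩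
      · obtain ⟨b, hb, c⟩ := mem_vs.1 ((D.τ.vs_un _).le ⟨c, hv.2⟩)
        exact (L b c).1 hb.1
      · obtain ⟨b, hb, c⟩ := mem_vs.1 (eO _ c)
        exact (L b c).1 (hO hb)
      · rcases od_or_nm u' with o | ⟨i, rfl⟩
        · rw [π_od o] at eu
          obtain ⟨b | b, -, k'⟩ := mem_vs.1 ((D.σ'.vs_un univ).le ⟨hu', o⟩)
          · obtain ⟨c1, c2⟩ := inc_π h k'
            rw [eu] at c1 c2
            exact c2.symm.trans (L _ c1).2
          · exact absurd ((mem_N h).2 (Or.inr ⟨u', (inc_r h).1 k' ▸ (mem_l2 h).1 b.2, eu⟩)) nN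
        · by_cases c : i < D.ν
          · rw [π_old c] at eu
            exact absurd ⟨_, eu⟩ (od_iff.1 hv.2)
          · obtain ⟨j, rfl⟩ := Nat.exists_eq_add_of_le (not_lt.1 c)
            have := nG _ hu'
            rw [π_new (by omega)] at eu
            exact absurd (eu ▸ List.getElem_mem _) nN

theorem rs_inj' (j : D.t.ι) : InjOn (D.rs j) (Od \ D.Q j ∪ Nm) := by
  rintro u (hu | ⟨i, rfl⟩) v (hv | ⟨i', rfl⟩) e
  · exact rs_inj h j hu hv e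
  · rw [rs_nm h] at e
    exact absurd ⟨_, e.symm⟩ (od_iff.1 (rs_od h hu.1 hu.2).1)
  · rw [rs_nm h] at e
    exact absurd ⟨_, e⟩ (od_iff.1 (rs_od h hv.1 hv.2).1)
  · rwa [rs_nm h, rs_nm h] at e

theorem wd' {j : D.t.ι} {i : ℕ} (k : Wd D.τ.inc (D.t.bag j i) K) :
    Wd D.σ'.inc (D.t'.bag j i) K := by
  rcases (D.t.bag j i).eq_empty_or_nonempty with e | ⟨a0, -⟩
  · refine (wdS _ _ D.σ'.inc D.σ'.inc_fin).2.1 _ K ?_
    rintro (a | a) ha
    · exact absurd (show a.1 ∈ D.t.bag j i from ha) (e ▸ notMem_empty _)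
    · cases ha
  · have := wdMapS _ _ _ _ D.τ.inc D.σ'.inc (Sum.elim Subtype.val fun _ => a0) D.p (D.t.bag j i)
      (D.t'.bag j i) ∅ K D.τ.inc_fin finite_empty (by
        rintro (a | a) ha (b | b) hb e
        exacts [congrArg Sum.inl (Subtype.ext e), (by cases hb), (by cases ha), by cases ha])
      (by
        rintro (a | a) ha
        exacts [ha, by cases ha])
      (by
        rintro u ⟨⟨a | a, ha, hu⟩, -⟩ v ⟨⟨b | b, hb, hv⟩, -⟩ e
        · rw [← (inc_π h hu).2, ← (inc_π h hv).2, ra_b ha, ra_b hb, e]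
        exacts [(by cases hb), (by cases ha), by cases ha])
      (by
        rintro (a | a) ha v hv
        exacts [(inc_π h hv.1).1, by cases ha]) k
    simpa using this

theorem letter' {j : D.t.ι} {i : ℕ} (hi : i < D.t.m j)
    (d : Disjoint (D.Q j) (D.τ.vs (D.t.bag j i))) : Eqv (D.t.letter j i) (D.t'.letter j i) := by
  have := renS (D.t.letter j i) (D.rs j) ((rs_inj' h j).mono ?_) (rs_nm h j)
  · have e : D.t'.letter j i = (ren (D.rs j) (D.t.letter j i).1, (D.t.letter j i).2.map (D.rs j)) := by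
      refine Prod.ext (un_bag j i) ?_
      simp only [Sh.letter, Sh.rl, List.map_append, List.map_cons, List.map_map, rs_u h hi.le,
        rs_u h hi]
      rfl
    exact e ▸ this
  · rintro v ((hv | hv) | hv)
    · rcases od_or_nm v with o | o
      · exact Or.inl ⟨o, fun c => disjoint_left.1 d c (D.τ.vs_un _ ▸ ⟨hv, o⟩)⟩
      · exact Or.inr o
    · have : v ∈ D.t.κ j i ∨ v ∈ D.t.κ j (i + 1) := by
        simp only [Sh.letter, Sh.rl, mem_ofPred_eq, List.mem_append, List.mem_cons, List.mem_map,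
          List.mem_range] at hv
        exact hv
      rcases this with k | k
      exacts [Or.inl ⟨(kap h.mid hi.le k).1, (kap h.mid hi.le k).2.1⟩,
        Or.inl ⟨(kap h.mid hi k).1, (kap h.mid hi k).2.1⟩]
    · exact Or.inr hv

omit h in
theorem ct_one {x : MV} {a : D.τ.ε} (e : D.t.ct x = {a}) (r : a ∉ D.t.rest) :
    D.t'.ct x = {Sum.inl ⟨a, r⟩} := by
  ext (b | b)
  · show b.1 ∈ D.t.ct x ↔ _
    rw [e]
    exact ⟨fun c => congrArg Sum.inl (Subtype.ext c), fun c => congrArg Subtype.val (Sum.inl.inj c)⟩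
  · exact ⟨fun c => (by cases c), fun c => by cases c⟩

variable (r : D.t.Rdy D.Q A K D.ν n)
include r

theorem bd_sub (a : {a : D.τ.ε // a ∉ D.t.rest}) :
    D.σ'.bd {Sum.inl a} ⊆ D.ra a.1 '' D.τ.bd {a.1} ∩ Od := by
  intro w hw
  obtain ⟨k, b | b, ne, k'⟩ := bd_one.1 hw
  · exact ⟨⟨_, bd_one.2 ⟨(inc_π h k).1, b.1, fun c => ne (congrArg Sum.inl (Subtype.ext c)),
      (inc_π h k').1⟩, (inc_π h k).2⟩, k.2⟩
  · exact ⟨⟨_, r.two _ (mk_π h ((inc_r h).1 k' ▸ (mem_l2 h).1 b.2)).2 _ a.2 (inc_π h k).1,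
      (inc_π h k).2⟩, k.2⟩

theorem f_le (a : {a : D.τ.ε // a ∉ D.t.rest}) : D.σ'.f {Sum.inl a} ≤ D.τ.f {a.1} :=
  (ncard_le_ncard ((bd_sub h r a).trans inter_subset_left) ((D.τ.bd_fin _).image _)).trans
    (ncard_image_le (D.τ.bd_fin _))

theorem named_bd {a : D.τ.ε} (ha : a ∉ D.t.rest) {v : W} (hv : v ∈ D.τ.inc a)
    (o : D.ra a v ∉ Od) : v ∈ D.τ.bd {a} := by
  rcases kept h.mid ha with ⟨x, -, e⟩ | ⟨j, i, -, e⟩
  · rw [ra_c e] at o
    refine r.root x a e ⟨?_, hv⟩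
    by_contra c
    exact o (by rw [rc_fix fun d => c d.1]; exact hv.2)
  · rw [ra_b e] at o
    refine (r.rob j i a e).2 ⟨?_, hv⟩
    by_contra c
    exact o (rs_od h hv.2 c).1

theorem rob' : D.σ'.Rob := by
  rintro (a | a)
  · rcases kept h.mid a.2 with ⟨x, hx, e⟩ | ⟨j, i, -, e⟩
    · obtain ⟨b, eb⟩ := r.atom x hx
      obtain rfl : a.1 = b := by rwa [eb] at e
      have s := solid' h hx
      rw [ct_one eb a.2] at s
      replace s : Solid (D.σ'.pc (Sum.inl a)) (D.t.s.nb x) ∅ := AG.un_single (σ := D.σ') _ ▸ s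
      refine robS.1 _ _ _ (D.σ'.pfin _) s.card.1 ?_ (robS.2.2.1 _ _ (D.σ'.pfin _) s)
      intro w hw
      obtain ⟨⟨v, hv, rfl⟩, o⟩ := bd_sub h r a hw
      rw [ra_c e] at o ⊢
      rw [rc_fix (rc_nq o)]
      obtain ⟨k, b, ne, k'⟩ := bd_one.1 hv
      exact cell_nb h.mid e k (rc_nq o) (by rw [eb]; exact ne) k'
    · refine robS.1 _ _ _ (D.σ'.pfin _) (((D.τ.bd_fin _).image _).inter_of_left _) (bd_sub h r a)
        (robS.2.2.2 _ _ _ (D.τ.pfin _) (D.τ.bd_fin _) (r.rob j i _ e).1 ?_ ?_ ?_)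
      · rintro _ ⟨i, rfl⟩
        rw [ra_nm h]; exact ⟨i, rfl⟩
      · have s : VV (D.τ.pc a.1) ∪ D.τ.bd {a.1} ⊆ VV (D.τ.pc a.1) :=
          union_subset subset_rfl fun v hv => (bd_one.1 hv).1.1
        intro u hu v hv c
        rw [← π_ra h a.2 (s hu.1), c, π_ra h a.2 (s hv.1)]
      · exact fun v hv => named_bd h r a.2 hv.1 fun c => od_iff.1 c hv.2
  · exact robS.2.1 _ _ subsingleton_singleton fun v hv => (bd_one.1 hv).1

theorem nam_mem {n' : ℕ} (hn : D.l1.length ≤ n') (a : {a : D.τ.ε // a ∉ D.t.rest})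
    (ne : D.τ.pc a.1 ≠ ∅) {ρ : List W} (hl : ρ.length ≤ K + 3)
    (hρ : ∀ w ∈ ρ, w ∈ D.ra a.1 '' D.τ.bd {a.1}) :
    (D.σ'.pc (Sum.inl a), ρ) ∈ Nam A (D.ν + n') (K + 3) := by
  obtain ⟨k | ⟨ρ0, e, m⟩, k'⟩ := r.ovr a.1 a.2
  · exact absurd k ne
  have e' : ∀ v, v ∈ ρ0 ↔ v ∈ D.τ.bd {a.1} := fun v => by rw [← e.2]; rfl
  refine ⟨hl, _, ρ0, D.ra a.1, m, (e.length.le.trans k').trans (by omega), ra_nm h _, ?_,
    fun v hv => ?_, rfl, fun w hw => ?_⟩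
  · have one : ∀ u ∈ VV (D.τ.pc a.1) ∪ ({v | v ∈ ρ0} ∪ Nm), ∀ i, D.ra a.1 u = Sum.inr i →
        u ∈ {v | v ∈ ρ0} ∪ Nm := by
      rintro u (hu | hu) i c
      · rcases od_or_nm u with o | o
        · exact Or.inl ((e' u).2 (named_bd h r a.2 ⟨hu, o⟩ fun d => od_iff.1 d ⟨_, c.symm⟩))
        · exact Or.inr o
      · exact hu
    have sp : ∀ u ∈ VV (D.τ.pc a.1) ∪ ({v | v ∈ ρ0} ∪ Nm), u ∈ VV (D.τ.pc a.1) ∨ u ∈ Nm := by
      rintro u (hu | hu | hu)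
      exacts [Or.inl hu, Or.inl (bd_one.1 ((e' u).1 hu)).1.1, Or.inr hu]
    intro u hu v hv c
    rcases sp u hu with k1 | ⟨i, rfl⟩
    · rcases sp v hv with k2 | ⟨i, rfl⟩
      · exact Or.inl (by rw [← π_ra h a.2 k1, c, π_ra h a.2 k2])
      · exact Or.inr ⟨one u hu i (c.trans (ra_nm h _ i)), Or.inr ⟨i, rfl⟩⟩
    · exact Or.inr ⟨Or.inr ⟨i, rfl⟩, one v hv i (c.symm.trans (ra_nm h _ i))⟩
  · refine (ra_cases h a.2 (bd_one.1 ((e' v).1 hv)).1).imp id fun c => ⟨_, ?_, c.2⟩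
    have := ix_lt c.1
    omega
  · obtain ⟨u, hu, c⟩ := hρ w hw
    exact ⟨u, (e' u).2 hu, c⟩

theorem atoms' {n' : ℕ} (hn : D.ρN.length ≤ n') :
    D.σ'.Over univ (Nam A (D.ν + n') (K + 3) ∪ Pen (D.ν + n')) (K + 3) := by
  rw [len_N] at hn
  rintro (a | a) -
  · have k : D.σ'.f {Sum.inl a} ≤ K + 3 := ((f_le h r a).trans (r.ovr a.1 a.2).2).trans (by omega)
    refine ⟨?_, k⟩
    by_cases ne : D.τ.pc a.1 = ∅
    · exact Or.inl (show ren _ (D.τ.pc a.1) = ∅ by rw [ne]; exact image_empty _)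
    · obtain ⟨ρ, e⟩ := Enum.exists (D.σ'.bd_fin {Sum.inl a})
      exact Or.inr ⟨ρ, e, Mem.of_mem (Or.inl (nam_mem h r (by omega) a ne (e.length.le.trans k)
        fun w hw => (bd_sub h r a (by rw [← e.2]; exact hw)).1))⟩
  · have s : D.σ'.bd {Sum.inr a} ⊆ {a.1} := fun v hv => (inc_r h).1 (bd_one.1 hv).1
    have := ix_lt a.2
    refine ⟨(pen_mem (mk_π h ((mem_l2 h).1 a.2)).1 (by rw [mk']; omega) s).mono
      subset_union_right, ((ncard_le_ncard s (finite_singleton _)).trans ?_)⟩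
    rw [ncard_singleton]
    omega

theorem cell' {n' : ℕ} (hn : D.l1.length ≤ n') {x : MV} (hx : x ∈ D.t.s.Ce) :
    ∃ a, D.t'.ct x = {a} ∧ (∀ ρ ∈ D.t.s.Rd x, (D.σ'.pc a, ρ) ∈ Nam A (D.ν + n') (K + 3)) ∧
      (D.τ.vs (D.t.ct x) ∩ D.t.Λ ⊆ D.t.s.nb x → D.σ'.pc a = D.τ.un (D.t.ct x)) := by
  obtain ⟨a, e⟩ := r.atom x hx
  have ha : a ∈ D.t.ct x := e ▸ rfl
  have nb := (h.mid.solid x hx).2
  rw [e] at nb
  obtain ⟨k1, -, -, k4, k5, -⟩ := fSkS D.t.s h.mid.ok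
  have nd : x ∉ D.t.s.Nd := by
    rintro ⟨-, v, rfl⟩
    obtain ⟨_, c⟩ := hx.1.2
    cases c
  refine ⟨_, ct_one e (ct_nr ha), ?_, fun s => ?_⟩
  · rintro ρ ⟨f, hf, rfl, -, rfl⟩
    obtain ⟨c1, c2, -⟩ := k1 f hf nd
    refine nam_mem h r hn ⟨a, ct_nr ha⟩ (fun c => ?_) ((c2 hx).trans (by omega)) fun w hw => ?_
    · obtain ⟨y, hy⟩ := k5 _ hx.1.1
      obtain ⟨-, v, rfl⟩ : y ∈ D.t.s.Nd := by
        by_contra d
        exact nd ((k4 _ _ hy).2.2 d)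
      have := (bd_one.1 (nb hy)).1.1
      rw [show D.τ.pc a = ∅ from c, VV_empty] at this
      exact this
    · have : w ∈ D.t.s.nb (D.t.s.vx f) := by rw [← c1]; exact hw
      exact ⟨w, nb this, by rw [ra_c ha, rc_fix fun c => c.2 this]⟩
  · rw [e, AG.un_single]
    refine (ren_congr (π' := id) fun v hv => ?_).trans (by simp [ren])
    rw [ra_c ha]
    exact rc_fix fun c => c.2 (s ⟨mem_vs.2 ⟨a, ha, hv, h.mid.lam.1 c.1⟩, c.1⟩)

theorem fits' {j : D.t.ι} {i : ℕ} (hi : i < D.t.m j) {y : Ty} (k : D.t.Fits j i y)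
    (d : Disjoint (D.Q j) (D.τ.vs (D.t.bag j i))) : D.t'.Fits j i y := by
  refine ⟨k.dep, ?_, wd' h k.wid, fun ω hω c => k.forb ω hω (c.trans (letter' h hi d).2)⟩
  rintro (a | a) ha
  swap
  · cases ha
  have ha' : a.1 ∈ D.t.bag j i := ha
  obtain ⟨k1, k2⟩ := k.atoms a.1 ha'
  refine ⟨?_, (f_le h r a).trans k2⟩
  rcases k1 with ne | ⟨ρ, e, m⟩
  · exact Or.inl (show ren _ (D.τ.pc a.1) = ∅ by rw [ne]; exact image_empty _)
  have q : ∀ v ∈ D.τ.inc a.1, v ∈ Od \ D.Q j := fun v hv =>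
    ⟨hv.2, fun c => disjoint_left.1 d c (mem_vs.2 ⟨_, ha', hv⟩)⟩
  have e' : ∀ v, v ∈ ρ ↔ v ∈ D.τ.bd {a.1} := fun v => by rw [← e.2]; rfl
  refine Or.inr ⟨ρ.map (D.rs j), ⟨e.1.map_on fun u hu v hv => rs_inj h j
    (q u (bd_one.1 ((e' u).1 hu)).1) (q v (bd_one.1 ((e' v).1 hv)).1), ?_⟩, m.eqv ?_⟩
  · ext w
    simp only [mem_ofPred_eq, List.mem_map, e']
    constructor
    · rintro ⟨v, hv, rfl⟩
      obtain ⟨c, b, ne, c'⟩ := bd_one.1 hv
      have w1 : D.rs j v ∈ D.σ'.inc (Sum.inl a) := bag_inc h ha' c (q v c).2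
      by_cases hb : b ∈ D.t.bag j i
      · exact bd_one.2 ⟨w1, _, fun c => ne (congrArg Subtype.val (Sum.inl.inj c)),
          bag_inc h hb c' (q v c).2⟩
      · rcases h.mid.shb j i hi v ⟨mem_vs.2 ⟨_, ha', c⟩, (q v c).2⟩ with (z | z) | z
        · exact (ok' h).two j i hi.le _ ((kap' h hi.le).2 ⟨v, z, rfl⟩) _ w1
        · exact (ok' h).two j (i + 1) hi _ ((kap' h hi).2 ⟨v, z, rfl⟩) _ w1
        · exact absurd (mem_vs.2 ⟨b, hb, c'⟩) z.2.1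
    · intro hw
      exact ra_b ha' ▸ (bd_sub h r a hw).1
  · have := renS (D.τ.pc a.1, ρ) (D.rs j) ((rs_inj' h j).mono ?_) (rs_nm h j)
    · rw [← ra_b ha'] at this ⊢
      exact this.symm
    · rintro v ((hv | hv) | hv)
      · exact (od_or_nm v).imp (fun o => q v ⟨hv, o⟩) id
      · exact Or.inl (q v (bd_one.1 ((e' v).1 hv)).1)
      · exact Or.inr hv

theorem len1 : D.l1.length ≤ n + n * n := by
  rw [h.e1.length]
  refine (ncard_le_ncard ?_ (h.mid.lam.2.union (finite_iUnion fun j => (h.mid.nm j).2.2.1))).trans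
    (card_le r.cnt.1 r.cnt.2.2.1 r.cnt.2.2.2)
  rintro v ⟨a, -, -, ⟨x, -, k⟩ | ⟨j, -, -, k⟩⟩
  exacts [Or.inl k.1, Or.inr (mem_iUnion.2 ⟨j, k⟩)]

theorem len2 : D.t'.Mk.ncard ≤ n + n * n := by
  have f : D.t.Mk.Finite := (D.τ.vs_fin _).subset fun _ => mk_kept h.mid
  refine (ncard_le_ncard ?_ (f.union (finite_iUnion fun j => f.image (D.rs j)))).trans
    (card_le r.cnt.1 r.cnt.2.1 fun j => (ncard_image_le f).trans r.cnt.2.1)
  intro w hw
  rcases mk_cases h hw with k | ⟨j, i, -, l, -, k, rfl⟩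
  exacts [Or.inl k.2, Or.inr (mem_iUnion.2 ⟨j, _, Or.inl (mem_iUnion.2 ⟨j, k⟩), rfl⟩)]

omit r in
theorem len3 (px : D.t.Px) : D.t'.Mk.ncard ≤ D.t.Mk.ncard := by
  refine ncard_le_ncard_of_injOn D.p (fun w hw => (mk_π h hw).2) ?_
    ((D.τ.vs_fin _).subset fun _ => mk_kept h.mid)
  intro u hu v hv e
  rcases mk_cases h hu with ⟨k, -⟩ | ⟨j, i, hi, l, hl, -, rfl⟩ <;>
    rcases mk_cases h hv with ⟨k', -⟩ | ⟨j', i', hi', l', hl', -, rfl⟩
  · rwa [h.cp.fix u (Or.inr k), h.cp.fix v (Or.inr k')] at e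
  · rw [h.cp.fix u (Or.inr k), (p_β h hi' hl').2] at e
    exact absurd (e ▸ k) (h.mid.inner j' i' hi' l' hl').2.1
  · rw [h.cp.fix v (Or.inr k'), (p_β h hi hl).2] at e
    exact absurd (e ▸ k') (h.mid.inner j i hi l hl).2.1
  · rw [(p_β h hi hl).2, (p_β h hi' hl').2] at e
    obtain rfl := px j j' i hi i' hi' l hl l' hl' e
    exact congrArg (D.rs j) e

theorem blt {O : Set D.τ.ε} (hO : O ⊆ D.t.rest) {ρO : List W} (e : Enum ρO (D.τ.bd O)) :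
    Blt D.t D.Q A K D.ν (2 * (n + n * n)) O ρO D.σ' D.β' D.L' D.own' D.mk' D.ρN D.P D.π := by
  have a1 := len1 h r
  have a2 := len2 h r
  have a3 : D.ρN.length ≤ 2 * (n + n * n) := by
    rw [len_N, h.e2.length]
    omega
  refine ⟨rob' h r, ok' h, a3, ⟨a2.trans (by omega), len3 h⟩, atoms' h r a3,
    fun a i k => (nm_lt h a i k).trans_le (by omega), fun x hx => cell' h r (by omega) hx,
    fun j i hi => ⟨wd' h (r.wid j i hi), fun y => fits' h r hi⟩, fun j l hl c => ?_, ?_,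
    fun v hv => ⟨Sum.inr ⟨v, (mem_l2 h).2 hv⟩, rfl, rfl, nm_one h _⟩, desc' h hO e,
    roots' h e, fun v => N_kept h⟩
  · refine h.mid.move j l hl ?_
    rw [← (p_β h (Nat.zero_le _) hl).2, c, (p_β h le_rfl hl).2]
  · rintro (a | a) ha
    exacts [absurd ha a.2, ⟨a.1, (mem_l2 h).1 a.2, rfl⟩]

end BD

theorem mk_fin {τ : AG} (t : Sh τ) (h : t.s.Ok) : t.Mk.Finite := by
  have k : ∀ j i, (t.κ j i).Finite := fun j i =>
    (finite_singleton _).union (((finite_lt_nat (t.d j)).image (t.β j i)).subset fun _ c => c)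
  exact (finite_iUnion fun j => (k j _).union (k j _)).union
    ((h.hm.ok.fin.subset fun _ c => c.1.1).image _)

end FBuild

open FBuild in
theorem buildS : BuildS := by
  refine fun n => ⟨2 * (n + n * n), fun τ t Q A K ν O ρO r hO e => ?_⟩
  have fZ : (τ.vs univ ∪ {v | Sum.inl v ∈ t.s.Vt}).Finite :=
    (τ.vs_fin _).union ((fSkS t.s r.mid.ok).2.2.2.2.2.preimage Sum.inl_injective.injOn)
  obtain ⟨c, p, hc⟩ := exists_cp t.ι fZ
  obtain ⟨l1, e1⟩ := Enum.exists (R := BD.Us ⟨τ, t, Q, ν, c, p, [], []⟩)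
    ((τ.vs_fin univ).subset fun v ⟨a, _, k, _⟩ => mem_vs.2 ⟨a, trivial, k⟩)
  obtain ⟨l2, e2⟩ := Enum.exists (mk_fin (BD.t' ⟨τ, t, Q, ν, c, p, l1, []⟩) r.mid.ok)
  exact ⟨_, _, _, _, _, _, _, _,
    BD.blt (D := ⟨τ, t, Q, ν, c, p, l1, l2⟩) ⟨r.mid, r.names, hc, e1, e2⟩ r hO e⟩

end Pool.Agent.MP_9d78a0_co.gm

end MrgPart3

-- ======== part 4: formerly Pool.Agent.MP_9d78a0_co.gm.FAll
section MrgPart4

/-! Block F: the result. -/

set_option autoImplicit false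

namespace Pool.Agent.MP_9d78a0_co.gm

theorem finAll : FinS :=
  finS upS terS (hullS isoS) cellS strS xS fDeadS countS slidS genS (midS fSurgS zS) quoS fCoreS
    namS buildS

end Pool.Agent.MP_9d78a0_co.gm

end MrgPart4

-- ======== part 5: formerly Pool.Agent.MP_9d78a0_co.st.All
section MrgPart5

/-! The structure theorem. -/

set_option autoImplicit false

namespace Pool.Agent.MP_9d78a0_co.st

theorem child0 : ChildS := childS inS coar0 xr0 (hubS nfS pan0 fan0 xr0)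

theorem structS : StructS :=
  struct_of child0 (planS pruneS crk0 inS crd0 pan0 eqv0 done0 asm0 strip0 frm0 arcS)
    (xcapS inS crd0 pan0 eqv0 done0 asm0 strip0 frm0 arcS child0)

end Pool.Agent.MP_9d78a0_co.st

end MrgPart5

-- ======== part 6: formerly Pool.Agent.MP_9d78a0_co.st.TRm
section MrgPart6

/-! Translation of drawings to maps, part m: grids and control. -/

set_option autoImplicit false
set_option linter.unusedSectionVars false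

namespace Pool.Agent.MP_9d78a0_co.st.tr

open Function Set gm fb

theorem grid_adj {g : ℕ} {p q : Fin g × Fin g} : (grid g).Adj p q ↔
    (p.1.1 = q.1.1 ∧ (p.2.1 + 1 = q.2.1 ∨ q.2.1 + 1 = p.2.1)) ∨
      (p.2.1 = q.2.1 ∧ (p.1.1 + 1 = q.1.1 ∨ q.1.1 + 1 = p.1.1)) := Iff.rfl

theorem grid_tri {g : ℕ} (a b c : Fin g × Fin g) (h1 : (grid g).Adj a b) (h2 : (grid g).Adj b c) :
    ¬ (grid g).Adj a c := by
  rw [grid_adj] at *
  omega

theorem grid_nb {g : ℕ} (hg : 2 ≤ g) (p : Fin g × Fin g) : ∃ q, (grid g).Adj p q := by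
  by_cases c : p.1.1 = 0
  · exact ⟨(⟨1, hg⟩, p.2), grid_adj.2 (Or.inr ⟨rfl, Or.inl (by simp [c])⟩)⟩
  · exact ⟨(⟨p.1.1 - 1, by omega⟩, p.2), grid_adj.2 (Or.inr ⟨rfl, Or.inr (by simp; omega)⟩)⟩

theorem link_h {g : ℕ} (S : Set (Fin g × Fin g)) (a b : Fin g) (n : ℕ) (hn : n < g) (h : b.1 ≤ n)
    (hS : ∀ c : Fin g, b.1 ≤ c.1 → c.1 ≤ n → (a, c) ∈ S) : Link (grid g) S (a, b) (a, ⟨n, hn⟩) := by
  induction n, h using Nat.le_induction with
  | base => exact Link.refl _ _ _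
  | succ n h ih =>
    exact (ih (by omega) fun c h1 h2 => hS c h1 (by omega)).trans
      (Link.single (hS _ h (by simp)) (hS _ (by simp; omega) le_rfl)
        (grid_adj.2 (Or.inl ⟨rfl, Or.inl rfl⟩)))

theorem link_row {g : ℕ} (S : Set (Fin g × Fin g)) (a b b' : Fin g) (hS : ∀ c, (a, c) ∈ S) :
    Link (grid g) S (a, b) (a, b') := by
  rcases le_total b.1 b'.1 with h | h
  · exact link_h S a b b'.1 b'.2 h fun c _ _ => hS c
  · exact (link_h S a b' b.1 b.2 h fun c _ _ => hS c).symm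

theorem link_col {g : ℕ} (S : Set (Fin g × Fin g)) (a a' b : Fin g) (hS : ∀ c, (c, b) ∈ S) :
    Link (grid g) S (a, b) (a', b) :=
  (link_row (Prod.swap ⁻¹' S) b a a' hS).map Prod.swap fun _ hp _ hq e =>
    Link.single hp hq (grid_adj.2 (grid_adj.1 e).symm)

theorem coarse {U : Type} {G : SimpleGraph U} {S : Set U} {g g' : ℕ} (hg : g ≤ g')
    {P : Fin g' × Fin g' → Set U} (hP : Model (grid g') G S P) :
    ∃ B : Fin g × Fin g → Set U, Model (grid g) G S B ∧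
      ∀ i j, ∀ j' : Fin g', P (Fin.castLE hg i, j') ⊆ Cross B i j := by
  let C : Fin g × Fin g → Set (Fin g' × Fin g') := fun p =>
    {q | q.1.1 = p.1.1 ∧ min q.2.1 (g - 1) = p.2.1}
  have m : ∀ p : Fin g × Fin g, (Fin.castLE hg p.1, Fin.castLE hg p.2) ∈ C p := fun p =>
    ⟨rfl, by have := p.2.2; simp; omega⟩
  have hC : Model (grid g) (grid g') univ C := by
    refine ⟨fun _ => subset_univ _, fun p => conn_of_center (m p) ?_, ?_, ?_⟩
    · rintro ⟨a, b⟩ ⟨h1, h2⟩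
      obtain rfl : a = Fin.castLE hg p.1 := Fin.ext h1
      simp only at h2
      refine link_h (C p) _ _ b.1 b.2 (by simp; omega) fun c h3 h4 => ⟨rfl, ?_⟩
      have := p.2.2
      simp only [Fin.val_castLE] at h3 ⊢
      omega
    · intro p q ne
      rw [disjoint_left]
      rintro z ⟨h1, h2⟩ ⟨h3, h4⟩
      exact ne (Prod.ext (Fin.ext (h1.symm.trans h3)) (Fin.ext (h2.symm.trans h4)))
    · intro p q e
      exact ⟨_, m p, _, m q, grid_adj.2 (grid_adj.1 e)⟩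
  refine ⟨_, hC.comp P (fun v _ => hP.1 v) (fun v _ => hP.2.1 v)
    (fun v _ v' _ => hP.2.2.1 v v') (fun v _ v' _ => hP.2.2.2 v v'), fun i j j' x hx => ?_⟩
  have := i.2
  exact mem_iUnion.2 ⟨⟨min j'.1 (g - 1), by omega⟩, Or.inl (mem_biUnion (x := (Fin.castLE hg i, j'))
    ⟨rfl, rfl⟩ hx)⟩

theorem pigeon {U : Type} {m : ℕ} (C : Fin m → Set U) (hC : ∀ i j x, x ∈ C i → x ∈ C j → i = j)
    {Z : Set U} (hZ : Z.Finite) (h : Z.ncard < m) : ∃ j, Disjoint (C j) Z := by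
  by_contra k
  simp only [not_exists, not_disjoint_iff] at k
  choose f h1 h2 using k
  have := ncard_le_ncard_of_injOn (s := univ) f (fun j _ => h2 j)
    (fun i _ j _ e => hC i j _ (h1 i) (e ▸ h1 j)) hZ
  simp at this
  omega

theorem vv_fin {X : Pc} (h : X.Finite) : (VV X).Finite :=
  ((h.image Prod.fst).union (h.image Prod.snd)).subset fun _ ⟨p, hp, e⟩ =>
    e.imp (fun e => ⟨p, hp, e.symm⟩) fun e => ⟨p, hp, e.symm⟩

theorem un_fin (σ : AG) : (σ.un univ).Finite := (toFinite _).biUnion fun a _ => σ.pfin a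

theorem ctl_of {σ : AG} {θ g θ0 m : ℕ} {T : Tangle σ.f θ} {B : Fin g × Fin g → Set gm.W}
    (hp : σ.Plain) (hB : Model (grid g) (gr (σ.un univ)) univ B)
    (hc : Ctl σ T (fun p => Sum.inl '' B p) θ0) {U : Set σ.ε} (h0 : σ.f U < θ0) (hm : σ.f U < m)
    (x y : Fin m → Fin g) (hy : Injective y) (n : Fin m → gm.W) (hn : ∀ j, n j ∈ B (x j, y j))
    (hU : ∀ j, n j ∉ σ.vs U) : U ∈ T.sm := by
  have fin : (σ.bd U).Finite := (vv_fin (un_fin σ)).subset fun v ⟨⟨a, _, ⟨p, hp, e⟩, _⟩, _⟩ =>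
    ⟨p, mem_biUnion (mem_univ a) hp, e⟩
  have dis : ∀ p q z, z ∈ B p → z ∈ B q → p = q := fun p q z a b =>
    by_contra fun k => disjoint_left.1 (hB.2.2.1 p q k) a b
  have step : ∀ u v, (gr (σ.un univ)).Adj u v → u ∉ σ.vs U → v ∉ σ.bd U → v ∉ σ.vs U := by
    intro u v e hu hv c
    obtain ⟨a', ha', k'⟩ := mem_iUnion₂.1 c
    obtain ⟨a, h1, h2⟩ : ∃ a, u ∈ σ.inc a ∧ v ∈ σ.inc a := by
      rcases e.2 with k | k <;>
      · obtain ⟨a, -, ha⟩ := mem_iUnion₂.1 k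
        obtain ⟨s, hs, t, ht, q⟩ := hp a
        have q' := ha
        rw [q] at q'
        obtain ⟨rfl, rfl⟩ := Prod.mk.inj q'
        first
          | exact ⟨a, ⟨⟨_, ha, Or.inl rfl⟩, hs⟩, ⟨_, ha, Or.inr rfl⟩, ht⟩
          | exact ⟨a, ⟨⟨_, ha, Or.inr rfl⟩, ht⟩, ⟨_, ha, Or.inl rfl⟩, hs⟩
    exact hv ⟨⟨a', ha', k'⟩, a, fun k => hu (mem_biUnion k h1), h2⟩
  have one : ∀ p, Disjoint (B p) (σ.bd U) → ∀ u ∈ B p, u ∉ σ.vs U → ∀ v ∈ B p, v ∉ σ.vs U := by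
    intro p d u hu k v hv
    have l := (hB.2.1 p).2 u hu v hv
    clear hv
    induction l with
    | refl => exact k
    | tail _ e ih => exact step _ _ e.2.2 ih (disjoint_left.1 d e.2.1)
  have two : ∀ p q, Link (grid g) {p | Disjoint (B p) (σ.bd U)} p q → (∀ v ∈ B p, v ∉ σ.vs U) →
      ∀ v ∈ B q, v ∉ σ.vs U := by
    intro p q l k
    induction l with
    | refl => exact k
    | tail _ e ih =>
      obtain ⟨u, hu, v, hv, uv⟩ := hB.2.2.2 _ _ e.2.2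
      exact one _ e.2.1 v hv (step u v uv (ih u hu) (disjoint_left.1 e.2.1 hv))
  obtain ⟨j, hj⟩ := pigeon (fun j => ⋃ k, B (k, y j)) (fun i j z a b => by
    obtain ⟨_, a⟩ := mem_iUnion.1 a
    obtain ⟨_, b⟩ := mem_iUnion.1 b
    exact hy (Prod.mk.inj (dis _ _ z a b)).2) fin hm
  obtain ⟨i, hi⟩ := pigeon (fun j => ⋃ k, B (y j, k)) (fun i j z a b => by
    obtain ⟨_, a⟩ := mem_iUnion.1 a
    obtain ⟨_, b⟩ := mem_iUnion.1 b
    exact hy (Prod.mk.inj (dis _ _ z a b)).1) fin hm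
  rw [disjoint_iUnion_left] at hi hj
  have col : ∀ k, ∀ v ∈ B (k, y j), v ∉ σ.vs U := fun k =>
    two _ _ (link_col _ (x j) k (y j) hj) (one _ (hj _) _ (hn j) (hU j))
  have row : ∀ k, ∀ v ∈ B (y i, k), v ∉ σ.vs U := fun k =>
    two _ _ (link_row _ (y i) (y j) k hi) (col _)
  refine hc U h0 ⟨y i, y j, fun v hv c => ?_⟩
  obtain ⟨k, ⟨w, hw, e⟩ | ⟨w, hw, e⟩⟩ := mem_iUnion.1 c
  · exact row k w hw (Sum.inl.inj e ▸ hv)
  · exact col k w hw (Sum.inl.inj e ▸ hv)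

variable {V ι : Type} [DecidableEq V] [DecidableEq ι]

theorem cn_comp (cell : ι → Cell V) (z0 : V ⊕ ι) (K H : Finset ι) (hH : H ⊆ K)
    (hK : ∀ i, i ∈ K ↔ Act (cell i) ∧ Link (ig (inc cell)) univ z0 (.inr i)) :
    Cn (fl (nx fun i => (cell i).N) (ids (fun i => (cell i).N) K H)) := by
  set S := fl (nx fun i => (cell i).N) (ids (fun i => (cell i).N) K H)
  let At : V ⊕ ι → Fl (Id ι V) V → Prop := fun z d =>
    d ∈ S ∧ (z = .inl (lb d) ∨ ∃ i, z = .inr i ∧ kp d = .inl i)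
  have same : ∀ z d e, At z d → At z e → d ∈ S ∧ e ∈ S ∧ (lb d = lb e ∨ kp d = kp e) := by
    rintro z d e ⟨a, rfl | ⟨i, rfl, h⟩⟩ ⟨b, c | ⟨j, c, h'⟩⟩
    · exact ⟨a, b, Or.inl (Sum.inl.inj c)⟩
    · cases c
    · cases c
    · cases c; exact ⟨a, b, Or.inr (h.trans h'.symm)⟩
  have main : ∀ z z', Link (ig (inc cell)) univ z z' → Link (ig (inc cell)) univ z0 z →
      ∀ d, At z d → ∀ e, At z' e → Relation.ReflTransGen
        (fun u v => u ∈ S ∧ v ∈ S ∧ (lb u = lb v ∨ kp u = kp v)) d e := by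
    intro z z' l l0 d hd
    induction l with
    | refl => exact fun e he => Relation.ReflTransGen.single (same _ _ _ hd he)
    | @tail u v l' huv ih =>
      intro e he
      obtain ⟨x, i, ⟨ac, hx⟩, k⟩ := huv.2.2
      have iK : i ∈ K := (hK i).2 ⟨ac, by
        rcases k with ⟨-, rfl⟩ | ⟨-, rfl⟩
        · exact (l0.trans l').tail huv
        · exact l0.trans l'⟩
      have m : (Sum.inl i, x, true) ∈ S := mem_fl.2 ⟨inl_ids.2 iK, hx⟩
      have a1 : At (.inl x) (Sum.inl i, x, true) := ⟨m, Or.inl rfl⟩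
      have a2 : At (.inr i) (Sum.inl i, x, true) := ⟨m, Or.inr ⟨i, rfl, rfl⟩⟩
      rcases k with ⟨rfl, rfl⟩ | ⟨rfl, rfl⟩
      · exact (ih _ a1).tail (same _ _ _ a2 he)
      · exact (ih _ a2).tail (same _ _ _ a1 he)
  have reach : ∀ d ∈ S, Link (ig (inc cell)) univ z0 (.inl (lb d)) := by
    intro d hd
    obtain ⟨i, hi, hx⟩ := nx_node (N := fun i => (cell i).N) (I := K) (fun _ => inl_ids) (fun p hp => by
      obtain ⟨i, hi, y, hy, rfl⟩ := inr_ids.1 hp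
      exact ⟨hH hi, hH hi, hy, List.formPerm_mem_iff_mem.2 hy⟩) _ (mem_fl.1 hd).1 _ (mem_fl.1 hd).2
    obtain ⟨ac, l⟩ := (hK i).1 hi
    exact l.trans (Link.single trivial trivial (ig_adj ac hx).symm)
  intro d hd e he
  exact main _ _ ((reach d hd).symm.trans (reach e he)) (reach d hd) d ⟨hd, Or.inl rfl⟩ e
    ⟨he, Or.inl rfl⟩

end Pool.Agent.MP_9d78a0_co.st.tr

end MrgPart6

-- ======== part 7: formerly Pool.Agent.MP_9d78a0_co.st.TRn
section MrgPart7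

/-! The structure theorem in raw form. -/

set_option autoImplicit false
set_option linter.unusedSectionVars false

namespace Pool.Agent.MP_9d78a0_co.st.tr

open Function Set gm fb

theorem pw_get {α : Type} {R : α → α → Prop} {l : List α} (h : l.Pairwise R)
    (hs : ∀ a b, R a b → R b a) (i j : Fin l.length) (ne : i ≠ j) : R (l.get i) (l.get j) := by
  rw [List.pairwise_iff_get] at h
  rcases lt_or_gt_of_ne ne with c | c
  · exact h i j c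
  · exact hs _ _ (h j i c)

/-- the skeleton of the component of the wall, with the wall -/
theorem exists_dat {V ι : Type} [DecidableEq V] [DecidableEq ι] [Finite V] [Fintype ι]
    (φ : V → gm.W) (hφ : Injective φ) (od : ∀ x, φ x ∈ Od) (cell : ι → Cell V) {γ d r : ℕ}
    (L : List ι) (hL : L.Nodup) (hL' : ∀ i, i ∈ L) (dr : Dr (L.map cell) [] γ)
    (hok : ∀ i, (cell i).Ok d) (hr : 2 ≤ r) {X : Fin r × Fin r → Set (V ⊕ ι)}
    (hX : Model (grid r) (ig (inc cell)) (range Sum.inl ∪ Sum.inr '' {i | (cell i).k = .cell}) X) :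
    ∃ t : Dat V ι γ, t.φ = φ ∧ (∀ i, t.N i = (cell i).N) ∧ (∀ i ∈ t.K, Act (cell i)) ∧
      (∀ i ∈ t.K, ∀ j, Act (cell j) → ∀ x ∈ (cell i).N, x ∈ (cell j).N → j ∈ t.K) ∧
      (∀ i, i ∈ t.H ↔ i ∈ t.K ∧ IsH (cell i)) ∧
      ∃ X', Model (grid r) t.sk.G t.sk.T X' ∧ ∀ p x, Sum.inl x ∈ X p → Sum.inl (φ x) ∈ X' p := by
  classical
  let p0 : Fin r × Fin r := (⟨0, by omega⟩, ⟨0, by omega⟩)
  obtain ⟨z0, hz0⟩ := (hX.2.1 p0).1
  have reach : ∀ p, ∀ z ∈ X p, Link (ig (inc cell)) univ z0 z := by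
    intro p
    have l : Link (grid r) univ p0 p :=
      (link_row univ p0.1 p0.2 p.2 fun _ => trivial).trans (link_col univ p0.1 p.1 p.2 fun _ => trivial)
    induction l with
    | refl => exact fun z hz => ((hX.2.1 p0).2 z0 hz0 z hz).mono (subset_univ _)
    | tail _ e ih =>
      obtain ⟨u, hu, v, hv, uv⟩ := hX.2.2.2 _ _ e.2.2
      exact fun z hz => ((ih u hu).trans (Link.single trivial trivial uv)).trans
        (((hX.2.1 _).2 v hv z hz).mono (subset_univ _))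
  have edge : ∀ p, ∀ z ∈ X p, ∃ z', (ig (inc cell)).Adj z z' := by
    intro p z hz
    obtain ⟨q, e⟩ := grid_nb hr p
    obtain ⟨u, hu, v, -, uv⟩ := hX.2.2.2 _ _ e
    by_cases c : z = u
    · exact ⟨v, c ▸ uv⟩
    · exact link_edge ((hX.2.1 p).2 z hz u hu) c
  let K : Finset ι := Finset.univ.filter fun i => Act (cell i) ∧ Link (ig (inc cell)) univ z0 (.inr i)
  have hK : ∀ i, i ∈ K ↔ Act (cell i) ∧ Link (ig (inc cell)) univ z0 (.inr i) := by simp [K]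
  let H : Finset ι := K.filter fun i => IsH (cell i)
  have hH : ∀ i, i ∈ H ↔ i ∈ K ∧ IsH (cell i) := fun i => Finset.mem_filter
  have inK : ∀ z z', Link (ig (inc cell)) univ z0 z → (ig (inc cell)).Adj z z' →
      ∃ i ∈ K, ∃ x ∈ (cell i).N, (z = .inl x ∧ z' = .inr i) ∨ (z' = .inl x ∧ z = .inr i) := by
    rintro z z' l e
    obtain ⟨x, i, ⟨ac, hx⟩, k⟩ := id e
    refine ⟨i, (hK i).2 ⟨ac, ?_⟩, x, hx, k⟩
    rcases k with ⟨-, rfl⟩ | ⟨-, rfl⟩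
    · exact l.trans (Link.single trivial trivial e)
    · exact l
  obtain ⟨enc, henc⟩ := exists_injective_nat (Id ι V)
  obtain ⟨β, hβ⟩ := dr_hm cell L hL dr (fun i _ => ⟨(hok i).soc.nd, (hok i).soc.sub⟩) K
    (fun i _ => hL' i) (by
      obtain ⟨z', e⟩ := edge p0 z0 hz0
      obtain ⟨i, hi, x, hx, -⟩ := inK z0 z' (Link.refl _ _ _) e
      exact ⟨i, hi, List.ne_nil_of_mem hx⟩)
  obtain ⟨β', h1, h2⟩ := hm_rims (H := H) enc henc (fun i _ => (hok i).soc.nd)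
    (Finset.filter_subset _ _) (fun i hi => ((hH i).1 hi).2.2) hβ
  let t : Dat V ι γ := ⟨φ, enc, fun i => (cell i).N, K, H, β', hφ, od, henc,
    fun i _ => (hok i).soc.nd, Finset.filter_subset _ _, fun i hi => ((hH i).1 hi).2.2,
    fun i hi c => by
      rcases hk : (cell i).k with _ | _ | _
      · exact (hok i).len hk
      · by_contra q
        exact c ((hH i).2 ⟨hi, hk, by omega⟩)
      · exact absurd hk ((hK i).1 hi).1.1,
    h1, h2, cn_comp cell z0 K H (Finset.filter_subset _ _) hK⟩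
  refine ⟨t, rfl, fun _ => rfl, fun i hi => ((hK i).1 hi).1, fun i hi j ac x a b => (hK j).2 ⟨ac,
    (((hK i).1 hi).2.trans (Link.single trivial trivial (ig_adj ((hK i).1 hi).1 a).symm)).trans
      (Link.single trivial trivial (ig_adj ac b))⟩, hH, ?_⟩
  let ψ : V ⊕ ι → MV := Sum.elim (fun x => .inl (φ x)) t.cv
  have hψ : Injective ψ := by
    rintro (a | a) (b | b) e
    · rw [hφ (Sum.inl.inj e)]
    · cases e
    · cases e
    · rw [t.cv_inj e]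
  have hX' : Model (grid r) (ig (inc cell)) (⋃ p, X p) X := ⟨fun p => subset_iUnion X p, hX.2⟩
  refine ⟨_, hX'.comp (fun z => {ψ z}) ?_ (fun _ _ => conn_singleton _ _)
    (fun _ _ _ _ ne => disjoint_singleton.2 fun e => ne (hψ e)) ?_,
    fun p x hx => mem_biUnion hx rfl⟩
  · intro z hz
    obtain ⟨p, hz⟩ := mem_iUnion.1 hz
    obtain ⟨z', e⟩ := edge p z hz
    obtain ⟨i, hi, x, hx, ⟨rfl, -⟩ | ⟨-, rfl⟩⟩ := inK z z' (reach p z hz) e
    · exact singleton_subset_iff.2 (Or.inl ⟨t.inl_vt.2 ⟨i, hi, x, hx, rfl⟩, _, rfl⟩)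
    · refine singleton_subset_iff.2 (Or.inr (t.mem_ce.2 ⟨i, hi, fun c => ?_, ⟨x, hx⟩, rfl⟩))
      rcases hX.1 p hz with ⟨_, q⟩ | ⟨j, k, q⟩
      · cases q
      · cases q
        have := ((hH i).1 c).2.1
        rw [show (cell i).k = .cell from k] at this
        cases this
  · intro z hz z' _ e
    obtain ⟨p, hz⟩ := mem_iUnion.1 hz
    refine ⟨_, rfl, _, rfl, ?_⟩
    obtain ⟨i, hi, x, hx, ⟨rfl, rfl⟩ | ⟨rfl, rfl⟩⟩ := inK z z' (reach p z hz) e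
    · exact ((t.adj hi).2 ⟨x, hx, rfl⟩).symm
    · exact (t.adj hi).2 ⟨x, hx, rfl⟩

theorem rawS (hs : StructS) (hi : InvS) (hp : PatchS) : RawS := by
  classical
  intro h
  obtain ⟨α, q, d, γ, w, hs⟩ := hs h
  refine ⟨γ, q, d, α, fun g1 θ1 => ?_⟩
  obtain ⟨gp, hp⟩ := hp γ q (g1 + θ1)
  obtain ⟨g, hs⟩ := hs (gp + 2)
  refine ⟨g + 2, θ1, fun σ θ T B _ pl nk hB ctl => ?_⟩
  have : Finite (VV (σ.un univ)) := (vv_fin (un_fin σ)).to_subtype
  let G : SimpleGraph (VV (σ.un univ)) := (gr (σ.un univ)).comap Subtype.val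
  have vv : ∀ u v, (gr (σ.un univ)).Adj u v → u ∈ VV (σ.un univ) := fun u v e =>
    e.2.elim (fun k => ⟨_, k, Or.inl rfl⟩) fun k => ⟨_, k, Or.inr rfl⟩
  have sub : ∀ p, B p ⊆ VV (σ.un univ) := by
    intro p z hz
    obtain ⟨p', e⟩ := grid_nb (by omega) p
    obtain ⟨u, hu, v, -, uv⟩ := hB.2.2.2 _ _ e
    by_cases c : z = u
    · exact c ▸ vv u v uv
    · obtain ⟨y, hy⟩ := link_edge ((hB.2.1 p).2 z hz u hu) c
      exact vv z y hy
  let up : Fin g → Fin (g + 2) := Fin.castLE (by omega)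
  obtain ⟨A, cs, X, x0, y0, hA, dr, rend, ok, hq, hX, hn⟩ := hs (VV (σ.un univ)) G
    (fun p => Subtype.val ⁻¹' B (up p.1, up p.2))
    (fun k => by
      obtain ⟨C, hC⟩ := (isMinor_iff _ _).1 k
      exact nk (hC.map Subtype.val Subtype.val_injective.injOn fun _ _ _ _ e => e))
    ⟨fun _ => subset_univ _, fun p => by
      obtain ⟨⟨u, hu⟩, c⟩ := hB.2.1 (up p.1, up p.2)
      refine conn_of_center (a := ⟨u, sub _ hu⟩) hu ?_
      rintro ⟨v, v'⟩ hv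
      have l := c u hu v hv
      clear hv
      induction l with
      | refl => exact Link.refl _ _ _
      | tail _ e ih => exact (ih (sub _ e.1)).trans (Link.single e.1 e.2.1 e.2.2),
      fun p p' ne => (hB.2.2.1 _ _ fun e => ne (Prod.ext (Fin.castLE_injective _ (Prod.mk.inj e).1)
        (Fin.castLE_injective _ (Prod.mk.inj e).2))).preimage _,
      fun p p' e => by
        obtain ⟨u, hu, v, hv, uv⟩ := hB.2.2.2 (up p.1, up p.2) (up p'.1, up p'.2)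
          (grid_adj.2 (grid_adj.1 e))
        exact ⟨⟨u, sub _ hu⟩, hu, ⟨v, sub _ hv⟩, hv, uv⟩⟩
  have hok : ∀ i, (cs.get i).Ok d := fun i => ok _ (List.get_mem cs i)
  have hsh : ∀ i j, i ≠ j → ∀ x ∈ (cs.get i).W, x ∈ (cs.get j).W → x ∈ (cs.get i).N :=
    fun i j ne x a b => (pw_get ((hi _ cs [] γ dr).2 fun c hc => (ok c hc).soc.sub)
      (fun a b k => by rwa [inter_comm, inter_comm (ls _)]) i j ne ⟨a, b⟩).1
  obtain ⟨X1, hX1, m1⟩ := proj (grid (gp + 2)) grid_tri cs.get hok hsh (Gc cs)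
    (fun u v ⟨c, hc, k⟩ => by
      obtain ⟨i, rfl⟩ := List.mem_iff_get.1 hc
      exact ⟨i, k⟩) X hX fun p => by
      obtain ⟨n, a, ⟨c, hc, -, k⟩, -⟩ := hn p
      obtain ⟨i, rfl⟩ := List.mem_iff_get.1 hc
      exact ⟨n, a, i, k⟩
  have od : ∀ x : VV (σ.un univ), x.1 ∈ Od := by
    rintro ⟨x, p, hp', e⟩
    obtain ⟨a, -, ha⟩ := mem_iUnion₂.1 hp'
    obtain ⟨u, hu, v, hv, k⟩ := pl a
    rw [k] at ha
    obtain rfl : p = (u, v) := ha
    exact e.elim (fun e => (show x = u from e) ▸ hu) fun e => (show x = v from e) ▸ hv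
  obtain ⟨t, e1, e2, a1, a2, a3, X2, hX2, m2⟩ := exists_dat Subtype.val Subtype.val_injective od
    cs.get (List.finRange cs.length) (List.nodup_finRange _) List.mem_finRange
    (by rwa [List.map_get_finRange]) hok (by omega) hX1
  have ends : ∀ a, ∃ u v : VV (σ.un univ), σ.pc a = {(u.1, v.1)} := by
    intro a
    obtain ⟨u, -, v, -, k⟩ := pl a
    have m : (u, v) ∈ σ.un univ := mem_biUnion (mem_univ a) (by rw [k]; rfl)
    exact ⟨⟨u, _, m, Or.inl rfl⟩, ⟨v, _, m, Or.inr rfl⟩, k⟩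
  choose eu ev hpc using ends
  let E : Env σ (VV (σ.un univ)) (Fin cs.length) γ d := ⟨t, G, A, cs.get, eu, ev,
    fun a => by rw [e1]; exact hpc a, fun u v => by rw [e1]; rfl, e2, hok, hsh,
    fun u v => (rend.adj u v).trans ⟨fun ⟨c, hc, k⟩ => by
      obtain ⟨i, rfl⟩ := List.mem_iff_get.1 hc
      exact ⟨i, k⟩, fun ⟨i, k⟩ => ⟨_, List.get_mem cs i, k⟩⟩,
    fun i j u v a b => by_contra fun ne =>
      (pw_get rend.dis (fun _ _ k => k.symm) i j ne).le_bot (show _ ∧ _ from ⟨a, b⟩),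
    fun i x hx => by
      have : x ∈ Vc cs := ⟨_, List.get_mem cs i, hx⟩
      rwa [rend.cov] at this, a1, a2, a3⟩
  have hH : t.H.card ≤ q := by
    refine le_trans ?_ hq
    conv_rhs => rw [← List.map_get_finRange cs, List.countP_map, List.countP_eq_length_filter]
    refine le_trans (Finset.card_le_card fun i hi => ?_) (List.toFinset_card_le _)
    simpa using ((a3 i).1 hi).2.1
  have rok := E.rwOk hH hA
  obtain ⟨i0, j0, f1, f2, b1, b2, far⟩ := hp (gp + 2) (by omega) _ _ t.sk.M t.sk.vx t.sk.H X2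
    t.hmm t.eg rok.holes ⟨fun p z hz => by
      rcases hX2.1 p hz with ⟨a, v, rfl⟩ | ⟨a, b⟩
      · exact ⟨a, fun ⟨_, _, e⟩ => by cases e⟩
      · exact ⟨a.1, fun c => b (Or.inl c)⟩, hX2.2⟩
  have hP : Model (grid (g1 + θ1)) t.sk.G (t.sk.T \ t.sk.M.rad t.sk.vx t.sk.H)
      fun p => X2 (f1 p.1, f2 p.2) := by
    refine ⟨fun p z hz => ⟨hX2.1 _ hz, disjoint_left.1 (far _ _) hz⟩, fun p => hX2.2.1 _,
      fun p p' ne => hX2.2.2.1 _ _ fun e => ne ?_, fun p p' e => hX2.2.2.2 _ _ ?_⟩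
    · have c1 := congrArg Fin.val (Prod.mk.inj e).1
      have c2 := congrArg Fin.val (Prod.mk.inj e).2
      rw [b1, b1] at c1
      rw [b2, b2] at c2
      exact Prod.ext (Fin.ext (by omega)) (Fin.ext (by omega))
    · rw [grid_adj] at e ⊢
      simp only [b1, b2]
      omega
  obtain ⟨B1, hB1, cr⟩ := coarse (Nat.le_add_right g1 θ1) hP
  refine ⟨E.rw, B1, rok, t.spk, hB1, fun U hU ⟨i, j, hc⟩ => ?_⟩
  choose n n1 n2 x y n3 n4 using hn
  let pt : Fin (g1 + θ1) → Fin (gp + 2) × Fin (gp + 2) := fun k =>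
    (f1 (Fin.castLE (Nat.le_add_right g1 θ1) i), f2 k)
  refine ctl_of pl hB ctl hU (m := g1 + θ1) (by omega) (fun k => up (x (pt k)))
    (fun k => up (y (pt k))) ?_ (fun k => (n (pt k)).1) (fun k => n3 (pt k)) fun k c => ?_
  · intro k k' e
    have e' : (y (pt k)).1 = (y (pt k')).1 := (congrArg Fin.val e :)
    have c1 := (n4 (pt k)).2.2
    have c2 := (n4 (pt k')).2.2
    simp only [pt, b2] at c1 c2 e'
    apply Fin.ext
    by_contra ne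
    rcases Nat.lt_or_gt_of_ne ne with l | l
    · have := Nat.mul_le_mul_left w (show j0 + k.1 + 1 ≤ j0 + k'.1 by omega)
      rw [Nat.mul_succ] at this
      omega
    · have := Nat.mul_le_mul_left w (show j0 + k'.1 + 1 ≤ j0 + k.1 by omega)
      rw [Nat.mul_succ] at this
      omega
  · obtain ⟨c', hc', -, k'⟩ := n2 (pt k)
    obtain ⟨i', rfl⟩ := List.mem_iff_get.1 hc'
    exact hc _ c (cr i j k (m2 _ _ (m1 _ _ (n1 _) ⟨i', k'⟩)))

end Pool.Agent.MP_9d78a0_co.st.tr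

end MrgPart7

-- ======== part 8: formerly Pool.Agent.MP_9d78a0_co.gm.KPre
section MrgPart8

/-! All blocks but H put together. -/

set_option autoImplicit false

namespace Pool.Agent.MP_9d78a0_co.gm

theorem raw0 : RawS := st.tr.rawS st.structS st.invS patchS

theorem rs_of_H (loop : LoopS) (drop : DropS) (vort : VortS) : RSS :=
  rs_of finAll rtS loop drop vort raw0

end Pool.Agent.MP_9d78a0_co.gm

end MrgPart8

-- marker of a merged file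
example : 731051 + 331381 = 731051 + 331381 := rfl
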