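import Pool.Agent.MP_9d78a0_co.gm.RWordC
import Pool.Agent.MP_9d78a0_co.gm.RNewC
import Pool.Agent.MP_9d78a0_co.gm.RNew
import Pool.Agent.MP_9d78a0_co.gm.SpecM

-- ======== part 0: formerly Pool.Agent.MP_9d78a0_co.gm.RCore
section MrgPart0

/-! Routing: cores are connected discs that meet many crosses. -/

set_option autoImplicit false

namespace Pool.Agent.MP_9d78a0_co.gm

open Set Function Relation Cy FM

namespace rcore

variable {Φ V : Type} {M : FM Φ} {vx : Φ → V} {H D K K' : Set V} {g : ℕ}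
  {B : Fin g × Fin g → Set V} {ch : Ch V} {u v : V}

/-- two cells are joined inside `D` -/
def J (G : SimpleGraph V) (ch : Ch V) (D : Set V) (r c r' c' : ℕ) : Prop :=
  ∀ u ∈ ch.cell r c, ∀ v ∈ ch.cell r' c', Link G D u v

theorem J.trans (h : ch.Ok M vx H B) {r c r' c' r'' c'' : ℕ} (hr : r' ≤ ch.s) (hc : c' ≤ ch.s)
    (h1 : J (M.gph vx) ch D r c r' c') (h2 : J (M.gph vx) ch D r' c' r'' c'') :
    J (M.gph vx) ch D r c r'' c'' := fun u hu v hv =>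
  let ⟨w, hw⟩ := (h.conn r' hr c' hc).1
  (h1 u hu w hw).trans (h2 w hw v hv)

theorem J.refl (h : ch.Ok M vx H B) {r c : ℕ} (hr : r ≤ ch.s) (hc : c ≤ ch.s)
    (hD : ch.cell r c ⊆ D) : J (M.gph vx) ch D r c r c := fun u hu v hv =>
  ((h.conn r hr c hc).2 u hu v hv).mono hD

theorem J.touch (h : ch.Ok M vx H B) {r c r' c' : ℕ} (hr : r ≤ ch.s) (hc : c ≤ ch.s)
    (hr' : r' ≤ ch.s) (hc' : c' ≤ ch.s) (hD : ch.cell r c ⊆ D) (hD' : ch.cell r' c' ⊆ D)
    (k : fb.Touch (M.gph vx) (ch.cell r c) (ch.cell r' c')) : J (M.gph vx) ch D r c r' c' :=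
  fun u hu v hv =>
    let ⟨p, hp, q, hq, e⟩ := k
    ((J.refl h hr hc hD u hu p hp).trans (Link.single (hD hp) (hD' hq) e)).trans
      (J.refl h hr' hc' hD' q hq v hv)

theorem row (h : ch.Ok M vx H B) {r c0 c : ℕ} (hr : r ≤ ch.s) (h0 : c0 ≤ c) (hc : c ≤ ch.s)
    (hD : ∀ j, c0 ≤ j → j ≤ c → ch.cell r j ⊆ D) : J (M.gph vx) ch D r c0 r c := by
  induction c, h0 using Nat.le_induction with
  | base => exact J.refl h hr hc (hD _ le_rfl le_rfl)
  | succ c h0 ih =>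
    exact J.trans h hr (by omega) (ih (by omega) fun j a b => hD j a (by omega))
      (J.touch h hr (by omega) hr hc (hD c h0 (by omega)) (hD _ (by omega) le_rfl)
        (h.hor r hr c (by omega)))

theorem col (h : ch.Ok M vx H B) {r0 r c : ℕ} (hc : c ≤ ch.s) (h0 : r0 ≤ r) (hr : r ≤ ch.s)
    (hD : ∀ j, r0 ≤ j → j ≤ r → ch.cell j c ⊆ D) : J (M.gph vx) ch D r0 c r c := by
  induction r, h0 using Nat.le_induction with
  | base => exact J.refl h hr hc (hD _ le_rfl le_rfl)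
  | succ r h0 ih =>
    exact J.trans h (by omega) hc (ih (by omega) fun j a b => hD j a (by omega))
      (J.touch h (by omega) hc hr hc (hD r h0 (by omega)) (hD _ (by omega) le_rfl)
        (h.ver r (by omega) c hc))

/-- a vertex of the chart lies in a cell or in a zone -/
theorem cases (h : ch.Ok M vx H B) (hv : v ∈ ch.Ω) :
    (∃ r c, v ∈ ch.cell r c) ∨ ∃ r c, v ∈ ch.zone r c := by
  have := (h.le v hv).2.2
  by_cases e : ch.x v % 2 = 0
  · exact Or.inl ⟨ch.x v / 2, ch.y v / 2, hv, by omega, by omega, by omega, by omega⟩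
  · exact Or.inr ⟨ch.x v / 2, ch.y v / 2, hv, by omega, by omega, by omega, by omega⟩

theorem lk_link {r c r' c' : ℕ} {G : SimpleGraph V} (k : ch.Lk G r c v r' c')
    (h1 : ch.zone r c ⊆ D) (h2 : ch.cell r' c' ⊆ D) : ∃ u ∈ ch.cell r' c', Link G D u v :=
  let ⟨u, hu, e⟩ := k
  ⟨u, hu, (e.mono (union_subset h1 (singleton_subset_iff.2 (h2 hu)))).symm⟩

/-- rectangles are connected -/
theorem conn_box (h : ch.Ok M vx H B) {a a' b b' : ℕ} (ha : a ≤ a') (ha' : a' ≤ ch.s) (hb : b ≤ b')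
    (hb' : b' ≤ ch.s) : Conn (M.gph vx) (ch.box (2 * a) (2 * a') (2 * b) (2 * b')) := by
  have hc : ∀ r c, a ≤ r → r ≤ a' → b ≤ c → c ≤ b' →
      ch.cell r c ⊆ ch.box (2 * a) (2 * a') (2 * b) (2 * b') := fun r c _ _ _ _ v hv =>
    let ⟨h0, _, _, _, _⟩ := hv
    ⟨h0, by omega, by omega, by omega, by omega⟩
  have hj : ∀ r c, a ≤ r → r ≤ a' → b ≤ c → c ≤ b' →
      J (M.gph vx) ch (ch.box (2 * a) (2 * a') (2 * b) (2 * b')) a b r c := fun r c _ _ _ _ =>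
    J.trans h (by omega) (by omega)
      (col h (by omega) ‹_› (by omega) fun j _ _ => hc j b ‹_› (by omega) le_rfl hb)
      (row h (by omega) ‹_› (by omega) fun j _ _ => hc r j ‹_› ‹_› ‹_› (by omega))
  obtain ⟨z, hz⟩ := (h.conn a (by omega) b (by omega)).1
  refine fb.conn_of_center (hc a b le_rfl ha le_rfl hb hz) fun v hv => ?_
  obtain ⟨h0, h1, h2, h3, h4⟩ := hv
  rcases cases h h0 with ⟨r, c, k⟩ | ⟨r, c, k⟩
  · have ⟨_, _, _, _, _⟩ := k
    exact hj r c (by omega) (by omega) (by omega) (by omega) z hz v k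
  · have ⟨_, _, _, _, _⟩ := k
    have hz' : ch.zone r c ⊆ ch.box (2 * a) (2 * a') (2 * b) (2 * b') := fun w hw =>
      let ⟨h0, _, _, _, _⟩ := hw
      ⟨h0, by omega, by omega, by omega, by omega⟩
    rcases h.zone r c v k with ⟨e, -⟩ | ⟨e, -⟩
    · obtain ⟨u, hu, e⟩ := lk_link e hz' (hc _ _ (by omega) (by omega) (by omega) (by omega))
      exact (hj _ _ (by omega) (by omega) (by omega) (by omega) z hz u hu).trans e
    · obtain ⟨u, hu, e⟩ := lk_link e hz' (hc _ _ (by omega) (by omega) (by omega) (by omega))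
      exact (hj _ _ (by omega) (by omega) (by omega) (by omega) z hz u hu).trans e

theorem conn_core (h : ch.Ok M vx H B) {t : ℕ} (ht : 2 * t ≤ ch.s) :
    Conn (M.gph vx) (ch.core t) :=
  conn_box h (by omega) (by omega) (by omega) (by omega)

/-- the ring round a core is connected -/
theorem conn_ring (h : ch.Ok M vx H B) {t : ℕ} (ht : 2 * t ≤ ch.s) :
    Conn (M.gph vx) (ch.core t \ ch.core (t + 1)) := by
  have hc : ∀ r c, t ≤ r → r ≤ ch.s - t → t ≤ c → c ≤ ch.s - t →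
      (r = t ∨ r = ch.s - t ∨ c = t ∨ c = ch.s - t) →
      ch.cell r c ⊆ ch.core t \ ch.core (t + 1) := fun r c _ _ _ _ _ v hv =>
    let ⟨h0, _, _, _, _⟩ := hv
    ⟨⟨h0, by omega, by omega, by omega, by omega⟩, fun ⟨_, _, _, _, _⟩ => by omega⟩
  have j1 : ∀ r, t ≤ r → r ≤ ch.s - t →
      J (M.gph vx) ch (ch.core t \ ch.core (t + 1)) t t r t := fun r _ _ =>
    col h (by omega) ‹_› (by omega) fun j _ _ =>
      hc j t ‹_› (by omega) le_rfl (by omega) (by omega)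
  have j2 : ∀ c, t ≤ c → c ≤ ch.s - t →
      J (M.gph vx) ch (ch.core t \ ch.core (t + 1)) t t t c := fun r _ _ =>
    row h (by omega) ‹_› (by omega) fun j _ _ =>
      hc t j le_rfl (by omega) ‹_› (by omega) (by omega)
  have hj : ∀ r c, t ≤ r → r ≤ ch.s - t → t ≤ c → c ≤ ch.s - t →
      (r = t ∨ r = ch.s - t ∨ c = t ∨ c = ch.s - t) →
      J (M.gph vx) ch (ch.core t \ ch.core (t + 1)) t t r c := by
    rintro r c h1 h2 h3 h4 (rfl | rfl | rfl | rfl)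
    · exact j2 c h3 h4
    · exact J.trans h (by omega) (by omega) (j1 _ h1 h2) (row h (by omega) h3 (by omega)
        fun j _ _ => hc _ j h1 h2 ‹_› (by omega) (by omega))
    · exact j1 r h1 h2
    · exact J.trans h (by omega) (by omega) (j2 _ h3 h4) (col h (by omega) h1 (by omega)
        fun j _ _ => hc j _ ‹_› (by omega) h3 h4 (by omega))
  obtain ⟨z, hz⟩ := (h.conn t (by omega) t (by omega)).1
  refine fb.conn_of_center (hc t t le_rfl (by omega) le_rfl (by omega) (by omega) hz)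
    fun v hv => ?_
  obtain ⟨⟨h0, h1, h2, h3, h4⟩, h5⟩ := hv
  have h6 : ¬ (2 * (t + 1) ≤ ch.x v ∧ ch.x v ≤ 2 * (ch.s - (t + 1)) ∧ 2 * (t + 1) ≤ ch.y v ∧
      ch.y v ≤ 2 * (ch.s - (t + 1))) := fun k => h5 ⟨h0, k⟩
  rcases cases h h0 with ⟨r, c, k⟩ | ⟨r, c, k⟩
  · have ⟨_, _, _, _, _⟩ := k
    exact hj r c (by omega) (by omega) (by omega) (by omega) (by omega) z hz v k
  · have ⟨_, _, _, _, _⟩ := k
    have hz' : ch.zone r c ⊆ ch.core t \ ch.core (t + 1) := fun w hw =>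
      let ⟨h0, _, _, _, _⟩ := hw
      ⟨⟨h0, by omega, by omega, by omega, by omega⟩, fun ⟨_, _, _, _, _⟩ => by omega⟩
    have fin : ∀ r' c', ch.Lk (M.gph vx) r c v r' c' → t ≤ r' → r' ≤ ch.s - t → t ≤ c' →
        c' ≤ ch.s - t → (r' = t ∨ r' = ch.s - t ∨ c' = t ∨ c' = ch.s - t) →
        Link (M.gph vx) (ch.core t \ ch.core (t + 1)) z v := fun r' c' e a1 a2 a3 a4 a5 =>
      let ⟨u, hu, e⟩ := lk_link e hz' (hc _ _ a1 a2 a3 a4 a5)
      (hj _ _ a1 a2 a3 a4 a5 z hz u hu).trans e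
    rcases h.zone r c v k with ⟨e, e'⟩ | ⟨e, e'⟩
    · by_cases q : r = t ∨ c = t
      · exact fin _ _ e (by omega) (by omega) (by omega) (by omega) (by omega)
      · exact fin _ _ e' (by omega) (by omega) (by omega) (by omega) (by omega)
    · by_cases q : r = t ∨ c + 1 = ch.s - t
      · exact fin _ _ e (by omega) (by omega) (by omega) (by omega) (by omega)
      · exact fin _ _ e' (by omega) (by omega) (by omega) (by omega) (by omega)

theorem adj_flag (hM : M.Ok) (e : (M.gph vx).Adj u v) : ∃ f ∈ M.S, vx f = u ∧ vx (M.a f) = v := by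
  obtain ⟨-, f, hf, e | e⟩ := e
  · exact ⟨f, hf, e⟩
  · exact ⟨M.a f, hM.a_mem hf, e.2, by rw [hM.aa hf, e.1]⟩

/-- a connected set with two vertices is the vertex set of its edges -/
theorem vx_ind (hM : M.Ok) (h : Conn (M.gph vx) D) (h2 : D.Nontrivial) : vx '' M.ind vx D = D := by
  refine Subset.antisymm (fun _ ⟨f, hf, e⟩ => e ▸ hf.2.1) fun v hv => ?_
  obtain ⟨w, hw, ne⟩ := h2.exists_ne v
  rcases (h.2 v hv w hw).cases_head with e | ⟨x, ⟨-, hx, e⟩, -⟩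
  · exact (ne e.symm).elim
  · obtain ⟨f, hf, rfl, rfl⟩ := adj_flag hM e
    exact ⟨f, ⟨hf, hv, hx⟩, rfl⟩

theorem con_ind (hM : M.Ok) (hL : M.Lbl vx) (h : ∀ u ∈ D, ∀ v ∈ D, Link (M.gph vx) D u v) :
    (M.sub (M.ind vx D)).Con := fun f hf g hg =>
  ((gphC Φ V M vx hM hL).2.2.1 D f hf g hg).2 (h _ hf.2.1 _ hg.2.1)

/-- potentials on a connected set differ by a constant -/
theorem pot_uniq (hM : M.Ok) {β : Φ → ZMod 2} {ψ ψ' : V → ZMod 2} (h : Conn (M.gph vx) D)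
    (h1 : M.Pt vx β ψ (M.ind vx D)) (h2 : M.Pt vx β ψ' (M.ind vx D)) :
    ∃ κ, ∀ v ∈ D, ψ' v = ψ v + κ := by
  obtain ⟨⟨z, hz⟩, h⟩ := h
  refine ⟨ψ' z + ψ z, fun v hv => ?_⟩
  have k := h z hz v hv
  clear hv
  induction k with
  | refl => generalize ψ' z = i, ψ z = j; revert i j; decide
  | tail _ e ih =>
    obtain ⟨f, hf, rfl, rfl⟩ := adj_flag hM e.2.2
    have e1 := h1 f ⟨hf, e.1, e.2.1⟩
    rw [h2 f ⟨hf, e.1, e.2.1⟩, ih] at e1
    revert e1
    generalize ψ' z + ψ z = κ, ψ (vx f) = i, ψ (vx (M.a f)) = j, ψ' (vx (M.a f)) = l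
    revert κ i j l; decide

/-- a set on which every even function has a potential is planar -/
theorem eg_zero (hM : M.Ok) (hL : M.Lbl vx) (h : ∀ β, M.Adm vx H β → M.Cob vx β K') (hK : K ⊆ K') :
    (M.sub (M.ind vx K)).eg = 0 := by
  have hG := gphC Φ V M vx hM hL
  have hU := hG.2.1 K
  have hN := hM.sub hU
  refine le_antisymm (not_lt.1 fun lt => ?_) (monoS Φ _ hN).1
  have e0 : ((M.sub (M.ind vx K)).sub ∅).eg = 0 := by simp [eg, sub, minor]
  obtain ⟨β, χ, b1, b2, b3, -, e, he, b4, b5⟩ := noCobS Φ _ ∅ hN es_empty (e0 ▸ lt)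
  obtain ⟨β', c1, c2, c3⟩ := ext2S Φ M _ β hM hU b1 fun f hf => ev_of_pot hN.ia0 hN.ib0 b2 b3 hf
  obtain ⟨ψ, hψ⟩ := h β' ⟨c1, fun f hf _ => c3 f hf⟩
  have p : ∀ f ∈ M.ind vx K, β f = ψ (vx f) + ψ (vx (M.a f)) := fun f hf =>
    (c2 f hf).symm.trans (hψ f ⟨hf.1, hK hf.2.1, hK hf.2.2⟩)
  have key : ∀ y, ReflTransGen (fun x y => y = (M.sub (M.ind vx K)).b x ∨
      y = (M.sub (M.ind vx K)).c x ∨ (β x = 0 ∧ y = (M.sub (M.ind vx K)).a x)) e y →
      y ∈ M.ind vx K ∧ ψ (vx y) = ψ (vx e) := by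
    intro y hy
    induction hy with
    | refl => exact ⟨he, rfl⟩
    | @tail x _ _ k ih =>
      rcases k with rfl | rfl | ⟨k, rfl⟩
      · exact ⟨hN.b_mem ih.1, by rw [(hG.1 _ hU).b hN ih.1, ih.2]⟩
      · exact ⟨hN.c_mem ih.1, by rw [(hG.1 _ hU).c hN ih.1, ih.2]⟩
      · refine ⟨hN.a_mem ih.1, ?_⟩
        have q := p x ih.1
        rw [k] at q
        rw [← ih.2]
        change ψ (vx (M.a x)) = _
        revert q
        generalize ψ (vx x) = i, ψ (vx (M.a x)) = j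
        revert i j; decide
  have q := p e he
  have q' : ψ (vx (M.a e)) = ψ (vx e) := (key _ b5).2
  rw [b4, q', Cy.z2_add_self] at q
  exact one_ne_zero q

theorem link_sub (hK : K ⊆ K') (hM : M.Ok) (k : Link (M.gph vx) K u v) :
    Link ((M.sub (M.ind vx K')).gph vx) K u v :=
  Link.map (G' := (M.sub (M.ind vx K')).gph vx) id (fun _ ha _ hb e => by
    obtain ⟨f, hf, rfl, rfl⟩ := adj_flag hM e
    exact Link.single ha hb ⟨e.1, f, ⟨hf, hK ha, hK hb⟩, Or.inl ⟨rfl, rfl⟩⟩) k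

/-- on a sphere, the edges from a connected set to a connected set lie in one face -/
theorem one_face (hM : M.Ok) (hL : M.Lbl vx) (h0 : M.eg = 0)
    (hK : ∀ u ∈ K, ∀ v ∈ K, Link (M.gph vx) K u v) (hD : Disjoint D K) {f f' : Φ} (hf : f ∈ M.S)
    (hf' : f' ∈ M.S) (h1 : vx f ∈ vx '' M.ind vx K) (h1' : vx f' ∈ vx '' M.ind vx K)
    (h2 : vx (M.a f) ∈ D) (k : Link (M.gph vx) D (vx (M.a f)) (vx (M.a f'))) :
    M.R (M.ind vx K) (M.ind vx K)ᶜ f f' := by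
  have hG := gphC Φ V M vx hM hL
  have hU := hG.2.1 K
  have near : ∀ f ∈ M.S, vx f ∈ vx '' M.ind vx K → ∃ w ∈ M.ind vx K, M.R ∅ (M.ind vx K)ᶜ w f :=
    fun f hf ⟨p, hp, e⟩ => sat_R hU ⟨p, hp, (hL p hp.1 f hf).1 e⟩
  obtain ⟨p, hp, e⟩ := near f hf h1
  obtain ⟨p', hp', e'⟩ := near f' hf' h1'
  have hc := hU.cl.compl hM
  have r1 : M.R univ (M.ind vx K)ᶜ (M.a f) (M.a f') := mem_reg.1 (hG.2.2.2.2 _ hU D
    (hD.mono_right fun _ ⟨f, hf, e⟩ => e ▸ hf.2.1) _ (hM.a_mem hf) _ (hM.a_mem hf') h2 k)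
  have r2 : M.R univ (M.ind vx K)ᶜ p p' :=
    ((((e.mono (empty_subset univ) subset_rfl).a trivial).trans r1).a trivial).trans (by
      rw [hM.aa hf']
      exact (e'.symm hM cl_empty hc hp'.1).mono (empty_subset _) subset_rfl)
  have eg : (M.sub (M.ind vx K)).eg = M.eg :=
    le_antisymm ((monoS Φ M hM).2 _ _ hU es_empty) (h0 ▸ (monoS Φ _ (hM.sub hU)).1)
  have r3 := ((regS Φ M _ hM hU (con_ind hM hL hK) eg).2 p hp).subset ⟨mem_reg.2 r2, hp'⟩
  rw [mem_fo, sub_R hM hU hp hp', univ_inter, empty_union] at r3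
  exact (((e.symm hM cl_empty hc hp.1).mono (empty_subset _) subset_rfl).trans r3).trans
    (e'.mono (empty_subset _) subset_rfl)

/-- one of `n + 1` disjoint sets misses a set with `n` elements -/
theorem miss {n : ℕ} {X : Set V} (hX : X.Finite) (hn : X.ncard ≤ n) (R : ℕ → Set V)
    (hR : ∀ i ≤ n, ∀ j ≤ n, i ≠ j → Disjoint (R i) (R j)) : ∃ i ≤ n, Disjoint (R i) X := by
  by_contra k
  push Not at k
  have : Nonempty V := let ⟨v, _⟩ := not_disjoint_iff.1 (k 0 (Nat.zero_le _)); ⟨v⟩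
  choose! φ h1 h2 using fun i hi => not_disjoint_iff.1 (k i hi)
  have := ncard_le_ncard_of_injOn (s := Iic n) (t := X) φ (fun i hi => h2 i hi)
    (fun i hi j hj e => by_contra fun ne =>
      disjoint_left.1 (hR i hi j hj ne) (h1 i hi) (e ▸ h1 j hj)) hX
  rw [← Finset.coe_Iic, ncard_coe_finset, Nat.card_Iic] at this
  omega

theorem hit {G : SimpleGraph V} {S : Set V} (hB : Model (fb.grid g) G S B) (h : ch.Ok M vx H B)
    {t n : ℕ} (ht : 2 * t + n ≤ ch.s) : Hit B (ch.core t) n := by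
  intro X hX hn
  have fit := h.fit
  obtain ⟨i, hi, d1⟩ := miss hX hn (fun i => {v | ∃ p : Fin g × Fin g, (p.1 : ℕ) = ch.i0 + t + i ∧
    v ∈ B p}) fun i _ j _ ne => disjoint_left.2 fun v ⟨p, hp, a⟩ ⟨q, hq, b⟩ =>
      disjoint_left.1 (hB.2.2.1 p q fun e => ne (by subst e; omega)) a b
  obtain ⟨j, hj, d2⟩ := miss hX hn (fun i => {v | ∃ p : Fin g × Fin g, (p.2 : ℕ) = ch.j0 + t + i ∧
    v ∈ B p}) fun i _ j _ ne => disjoint_left.2 fun v ⟨p, hp, a⟩ ⟨q, hq, b⟩ =>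
      disjoint_left.1 (hB.2.2.1 p q fun e => ne (by subst e; omega)) a b
  refine ⟨⟨ch.i0 + t + i, by omega⟩, ⟨ch.j0 + t + j, by omega⟩, disjoint_left.2 fun v hv => ?_, ?_⟩
  · obtain ⟨k, hv | hv⟩ := mem_iUnion.1 hv
    exacts [disjoint_left.1 d1 ⟨_, rfl, hv⟩, disjoint_left.1 d2 ⟨_, rfl, hv⟩]
  · obtain ⟨v, hv⟩ := (hB.2.1 (⟨ch.i0 + t + i, by omega⟩, ⟨ch.j0 + t + j, by omega⟩)).1
    have ⟨h0, _, _, _, _⟩ := h.br (t + i) (by omega) (t + j) (by omega) _ (add_assoc ..)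
      (add_assoc ..) hv
    exact ⟨v, mem_iUnion.2 ⟨_, Or.inl hv⟩, h0, by omega, by omega, by omega, by omega⟩

theorem core_nontrivial (h : ch.Ok M vx H B) {t : ℕ} (ht : 2 * t < ch.s) :
    (ch.core t).Nontrivial := by
  obtain ⟨u, h0, _, _, _, _⟩ := (h.conn t (by omega) t (by omega)).1
  obtain ⟨v, h1, _, _, _, _⟩ := (h.conn t (by omega) (t + 1) (by omega)).1
  exact ⟨u, ⟨h0, by omega, by omega, by omega, by omega⟩, v,
    ⟨h1, by omega, by omega, by omega, by omega⟩, fun e => by subst e; omega⟩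

theorem core_mono {t : ℕ} : ch.core (t + 1) ⊆ ch.core t := fun _ ⟨h0, _, _, _, _⟩ =>
  ⟨h0, by omega, by omega, by omega, by omega⟩

/-- the faces at a core lie in the next larger core -/
theorem face_core (h : ch.Ok M vx H B) {t : ℕ} {f : Φ} (hf : f ∈ M.S)
    (h1 : vx f ∈ ch.core (t + 1)) : ∀ g ∈ M.fo f, vx g ∈ ch.core t := by
  obtain ⟨h0, _, _, _, _⟩ := h1
  obtain ⟨r, hr, c, hc, k⟩ := h.face f hf ⟨h0, by omega, by omega, by omega, by omega⟩
  have ⟨_, _, _, _, _⟩ := k f (orb_self ..)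
  exact fun g hg =>
    let ⟨h0, _, _, _, _⟩ := k g hg
    ⟨h0, by omega, by omega, by omega, by omega⟩

end rcore

open rcore

theorem coreS : CoreS := by
  intro k q g Φ V M vx H B ch t hs ht
  have hM := hs.hm.ok
  have hL := hs.hm.lbl
  have h := hs.ch
  have hc := conn_core h ht.le
  have hv := vx_ind hM hc (core_nontrivial h ht)
  refine ⟨hc, eg_zero hM hL h.cob fun _ k => k.1, con_ind hM hL hc.2, hv,
    fun n hn => hit hs.model h hn, fun β ψ ψ' D hD _ => pot_uniq hM hD, ?_⟩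
  intro h1 f hf f' hf' a1 a2 b1 b2
  obtain ⟨t, rfl⟩ : ∃ t', t = t' + 1 := ⟨t - 1, by omega⟩
  have hG := gphC Φ V M vx hM hL
  have hU := hG.2.1 (ch.core t)
  have a3 := face_core h hf a1 _ (orb_p (orb_self ..))
  have b3 := face_core h hf' b1 _ (orb_p (orb_self ..))
  have e : (M.sub (M.ind vx (ch.core t))).ind vx (ch.core (t + 1)) = M.ind vx (ch.core (t + 1)) :=
    Subset.antisymm (fun _ k => ⟨k.1.1, k.2⟩) fun _ k =>
      ⟨⟨k.1, core_mono k.2.1, core_mono k.2.2⟩, k.2⟩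
  have m1 : f ∈ M.ind vx (ch.core t) := ⟨hf, core_mono a1, a3⟩
  have m2 : f' ∈ M.ind vx (ch.core t) := ⟨hf', core_mono b1, b3⟩
  have r := one_face (D := ch.core t \ ch.core (t + 1)) (K := ch.core (t + 1)) (hM.sub hU)
    (hG.1 _ hU) (eg_zero hM hL h.cob fun _ k => k.1)
    (fun u hu v hv => link_sub core_mono hM (hc.2 u hu v hv)) disjoint_sdiff_left m1 m2
    (by rw [e, hv]; exact a1) (by rw [e, hv]; exact b1) ⟨a3, a2⟩
    (link_sub sdiff_subset hM ((conn_ring h (by omega)).2 _ ⟨a3, a2⟩ _ ⟨b3, b2⟩))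
  rw [e, sub_R hM hU m1 m2] at r
  exact gh_fo.2 (r.mono inter_subset_left (union_subset subset_rfl fun x k m =>
    k ⟨m.1, core_mono m.2.1, core_mono m.2.2⟩))

end Pool.Agent.MP_9d78a0_co.gm

end MrgPart0

-- ======== part 1: formerly Pool.Agent.MP_9d78a0_co.gm.ROrder
section MrgPart1

/-! Routing: the outer walk of a comb. -/

set_option autoImplicit false

namespace Pool.Agent.MP_9d78a0_co.gm

open Set Function Relation FM

namespace ROrder

variable {Φ V : Type} {M : FM Φ} {vx : Φ → V} {C : Set Φ} {D D' : Set V} {u v w : V}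

theorem el_symm (h : M.Ok) (hC : M.Es C) (k : M.EL vx C D u v) : M.EL vx C D v u := by
  induction k with
  | refl => exact .refl
  | tail _ e ih =>
    obtain ⟨h1, h2, x, hx, rfl, rfl⟩ := e
    exact .head ⟨h2, h1, M.a x, (hC.2 x hx).1, rfl, by rw [h.aa (hC.1 hx)]⟩ ih

theorem el_mono (s : D ⊆ D') (k : M.EL vx C D u v) : M.EL vx C D' u v :=
  ReflTransGen.mono (fun _ _ e => ⟨s e.1, s e.2.1, e.2.2⟩) _ _ k

theorem el_link (h : M.Ok) {K : Set V} (hK : M.ind vx K ⊆ C) (s : D ⊆ K)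
    (k : Link (M.gph vx) D u v) : M.EL vx C D u v :=
  ReflTransGen.mono (fun _ _ ⟨x, hx, e1, e2⟩ =>
    ⟨e1 ▸ hx.2.1, e2 ▸ hx.2.2, x, hK (ind_mono s hx), e1, e2⟩) _ _ ((link_ind h).1 k)

/-- the walk in the direction in which `A` comes before `B` -/
theorem exists_dir (h : M.Ok) (hL : M.Lbl vx) (hC : M.Es C) {f f1 f2 : Φ} (hf : f ∈ M.S)
    (h1 : f1 ∈ (M.gh C ∅).fo f) (h2 : f2 ∈ (M.gh C ∅).fo f) (n1 : vx f1 ≠ vx f)
    (n2 : vx f2 ≠ vx f) (n3 : vx f1 ≠ vx f2) : ∃ O n p1 p2, M.Turn C O n ∧ vx (O 0) = vx f ∧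
      (M.gh C ∅).fo (O 0) = (M.gh C ∅).fo f ∧ 0 < p1 ∧ p1 < p2 ∧ p2 < n ∧ vx (O p1) = vx f1 ∧
      vx (O p2) = vx f2 := by
  obtain ⟨n, T⟩ := turnS Φ M C h hC f hf
  obtain ⟨n', T'⟩ := turnS Φ M C h hC _ (h.b_mem hf)
  set O : ℕ → Φ := fun i => (M.wk C)^[i] f with hO
  set O' : ℕ → Φ := fun i => (M.wk C)^[i] (M.b f) with hO'
  have idx : ∀ g ∈ (M.gh C ∅).fo f, vx g ≠ vx f → ∃ i, 0 < i ∧ i < n ∧ vx (O i) = vx g := by
    intro g hg ne
    obtain ⟨i, hi, k⟩ := (T.face g).1 hg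
    have e : vx (O i) = vx g := by
      rcases k with rfl | rfl
      · rfl
      · exact (hL.b h (T.mem i)).symm
    exact ⟨i, Nat.pos_of_ne_zero fun z => ne (by rw [← e, z]; rfl), hi, e⟩
  obtain ⟨p1, a1, a2, a3⟩ := idx f1 h1 n1
  obtain ⟨p2, b1, b2, b3⟩ := idx f2 h2 n2
  rcases lt_trichotomy p1 p2 with l | l | l
  · exact ⟨O, n, p1, p2, T, rfl, rfl, a1, l, b2, a3, b3⟩
  · exact (n3 (by rw [← a3, ← b3, l])).elim
  have hn0 : O n = O 0 := (T.per n 0).2 (Nat.modEq_zero_iff_dvd.2 dvd_rfl)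
  have rev : ∀ i ≤ n, O' i = M.b (O (n - i)) := by
    intro i
    induction i with
    | zero => intro _; rw [Nat.sub_zero, hn0]; rfl
    | succ i ih =>
      intro hi
      rw [T'.step, ih (by omega), show n - i = n - (i + 1) + 1 by omega, T.step]
      have m := T.mem (n - (i + 1))
      show M.b (M.sg C (M.b (M.b (M.sg C _)))) = _
      rw [h.bb (h.gk.sg hC _ m).1, (h.gk.sg hC _ m).2.1]
  have le : n ≤ n' := by
    by_contra c
    have e : O' n' = O' 0 := (T'.per n' 0).2 (Nat.modEq_zero_iff_dvd.2 dvd_rfl)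
    rw [rev n' (by omega), rev 0 (by omega), Nat.sub_zero, hn0] at e
    have e' : O (n - n') = O 0 := by rw [← h.bb (T.mem (n - n')), e, h.bb (T.mem 0)]
    have := Nat.le_of_dvd (by omega) (Nat.modEq_zero_iff_dvd.1 ((T.per _ _).1 e'))
    have := T'.pos
    omega
  refine ⟨O', n', n - p1, n - p2, T', hL.b h hf, (h.gk.gh hC es_empty).1.sF.eq hf
    (cl_one (Or.inr rfl)), by omega, by omega, by omega, ?_, ?_⟩
  · rw [rev _ (by omega), hL.b h (T.mem _), show n - (n - p1) = p1 by omega, a3]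
  · rw [rev _ (by omega), hL.b h (T.mem _), show n - (n - p2) = p2 by omega, b3]

end ROrder

open ROrder

theorem orderS (hC : CoreS) : OrderS := by
  intro k q g Φ V M vx H B ch t μ K rt C st t1 tμ μs cb
  obtain ⟨-, c2, c3, c4, -, -, c7⟩ := hC k q g Φ V M vx H B ch t st (by omega)
  have h := st.hm.ok
  have hL := st.hm.lbl
  have ok := st.ch
  have eC := cb.es
  have e0 := es_ind h hL (ch.core t)
  obtain ⟨r1, r2, r3, -⟩ := treeS Φ V M vx _ C h hL e0 eC cb.core cb.br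
  have G := (h.gk.gh eC es_empty).1
  have adj : ∀ u v, (M.gph vx).Adj u v → ∃ f ∈ M.S, vx f = u ∧ vx (M.a f) = v := by
    rintro u v ⟨-, f, hf, k | k⟩
    · exact ⟨f, hf, k⟩
    · exact ⟨M.a f, h.a_mem hf, k.2, by rw [h.aa hf]; exact k.1⟩
  set col := ch.colm t K rt with hcol
  set Low : Set V := ch.box (2 * t + 1) (2 * (ch.s - t)) (2 * t) (2 * (ch.s - t)) with hLow
  have cell : ∀ r c v, v ∈ ch.cell r c ↔ v ∈ ch.Ω ∧ ch.x v = 2 * r ∧ ch.y v = 2 * c := fun r c v =>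
    and_congr_right fun _ => by omega
  have cc : ∀ r c, t ≤ r → r + t ≤ ch.s → t ≤ c → c + t ≤ ch.s → ch.cell r c ⊆ ch.core t :=
    fun r c a1 a2 a3 a4 v hv => by
      have := (cell r c v).1 hv
      exact ⟨this.1, by omega⟩
  have cl' : ∀ r c, t < r → r + t ≤ ch.s → t ≤ c → c + t ≤ ch.s → ch.cell r c ⊆ Low :=
    fun r c a1 a2 a3 a4 v hv => by
      have := (cell r c v).1 hv
      exact ⟨this.1, by omega⟩
  have lc : Low ⊆ ch.core t := fun v hv => ⟨hv.1, by have := hv.2; omega⟩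
  have nK : ∀ v ∈ ch.core t, v ∉ K := fun v hv k => Set.disjoint_left.1 cb.dis k hv
  have colU : ∀ c d v, t ≤ c → c + t ≤ ch.s → t ≤ d → d + t ≤ ch.s → v ∈ col c → v ∈ col d →
      c = d := by
    rintro c d v a1 a2 a3 a4 (a | a) (b | b)
    · have := (cell _ _ _).1 a; have := (cell _ _ _).1 b; omega
    · exact (nK v (cc t c le_rfl (by omega) a1 a2 a) b.1).elim
    · exact (nK v (cc t d le_rfl (by omega) a3 a4 b) a.1).elim
    · exact a.2.symm.trans b.2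
  have colL : ∀ c v, v ∈ col c → v ∉ Low := by
    rintro c v (a | a) b
    · have := (cell _ _ _).1 a; have := b.2; omega
    · exact nK v (lc b) a.1
  have inc : ∀ r c, t ≤ r → r + t ≤ ch.s → t ≤ c → c + t ≤ ch.s → ∀ u ∈ ch.cell r c,
      ∀ v ∈ ch.cell r c, M.EL vx C (ch.cell r c) u v := fun r c a1 a2 a3 a4 u hu v hv =>
    el_link h cb.core (cc r c a1 a2 a3 a4) ((ok.conn r (by omega) c (by omega)).2 u hu v hv)
  have join : ∀ (D : Set V) r c r' c', t ≤ r → r + t ≤ ch.s → t ≤ c → c + t ≤ ch.s → t ≤ r' →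
      r' + t ≤ ch.s → t ≤ c' → c' + t ≤ ch.s → ch.cell r c ⊆ D → ch.cell r' c' ⊆ D →
      fb.Touch (M.gph vx) (ch.cell r c) (ch.cell r' c') → ∀ u ∈ ch.cell r c,
      ∀ v ∈ ch.cell r' c', M.EL vx C D u v := by
    rintro D r c r' c' a1 a2 a3 a4 b1 b2 b3 b4 s1 s2 ⟨x, hx, y, hy, e⟩ u hu v hv
    obtain ⟨f, hf, rfl, rfl⟩ := adj x y e
    exact ((el_mono s1 (inc r c a1 a2 a3 a4 u hu _ hx)).tail ⟨s1 hx, s2 hy, f,
      cb.core ⟨hf, cc r c a1 a2 a3 a4 hx, cc r' c' b1 b2 b3 b4 hy⟩, rfl, rfl⟩).trans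
      (el_mono s2 (inc r' c' b1 b2 b3 b4 _ hy v hv))
  have ne : ∀ r c, r ≤ ch.s → c ≤ ch.s → ∃ v, v ∈ ch.cell r c := fun r c a b => (ok.conn r a c b).1
  have row : ∀ (D : Set V) r c, t ≤ r → r + t ≤ ch.s → t ≤ c → ∀ d, c ≤ d → d + t ≤ ch.s →
      (∀ e, c ≤ e → e ≤ d → ch.cell r e ⊆ D) → ∀ u ∈ ch.cell r c, ∀ v ∈ ch.cell r d,
      M.EL vx C D u v := by
    intro D r c a1 a2 a3 d hd
    induction d, hd using Nat.le_induction with
    | base => exact fun a s u hu v hv => el_mono (s c le_rfl le_rfl) (inc r c a1 a2 a3 a u hu v hv)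
    | succ d hd ih =>
      intro a s u hu v hv
      obtain ⟨w, hw⟩ := ne r d (by omega) (by omega)
      exact (ih (by omega) (fun e b1 b2 => s e b1 (by omega)) u hu w hw).trans
        (join D r d r (d + 1) a1 a2 (by omega) (by omega) a1 a2 (by omega) a (s d hd (by omega))
          (s _ (by omega) le_rfl) (ok.hor r (by omega) d (by omega)) w hw v hv)
  obtain ⟨z, hz⟩ := ne (t + 1) t (by omega) (by omega)
  have low1 : ∀ r, t + 1 ≤ r → r + t ≤ ch.s → ∀ v ∈ ch.cell r t, M.EL vx C Low z v := by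
    intro r hr
    induction r, hr using Nat.le_induction with
    | base =>
      exact fun a v hv => el_mono (cl' _ t (by omega) a le_rfl (by omega))
        (inc _ t (by omega) a le_rfl (by omega) z hz v hv)
    | succ r hr ih =>
      intro a v hv
      obtain ⟨w, hw⟩ := ne r t (by omega) (by omega)
      exact (ih (by omega) w hw).trans (join Low r t (r + 1) t (by omega) (by omega) le_rfl
        (by omega) (by omega) a le_rfl (by omega) (cl' r t (by omega) (by omega) le_rfl (by omega))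
        (cl' _ t (by omega) a le_rfl (by omega)) (ok.ver r (by omega) t (by omega)) w hw v hv)
  have low2 : ∀ r c, t < r → r + t ≤ ch.s → t ≤ c → c + t ≤ ch.s → ∀ v ∈ ch.cell r c,
      M.EL vx C Low z v := fun r c a1 a2 a3 a4 v hv => by
    obtain ⟨w, hw⟩ := ne r t (by omega) (by omega)
    exact (low1 r a1 a2 w hw).trans (row Low r t a1.le a2 le_rfl c a3 a4
      (fun e b1 b2 => cl' r e a1 a2 b1 (by omega)) w hw v hv)
  have low : ∀ v ∈ Low, M.EL vx C Low z v := by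
    intro v hv
    have p := (ok.le v hv.1).2.2
    have b := hv.2
    rcases Nat.mod_two_eq_zero_or_one (ch.x v) with e | e
    · exact low2 (ch.x v / 2) (ch.y v / 2) (by omega) (by omega) (by omega) (by omega) v
        ((cell _ _ _).2 ⟨hv.1, by omega, by omega⟩)
    · have zs : ch.zone (ch.x v / 2) (ch.y v / 2) ⊆ Low := fun w hw =>
        ⟨hw.1, by have := hw.2; omega⟩
      have fin : ∀ c, t ≤ c → c + t ≤ ch.s →
          ch.Lk (M.gph vx) (ch.x v / 2) (ch.y v / 2) v (ch.x v / 2 + 1) c → M.EL vx C Low z v := by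
        rintro c a1 a2 ⟨u, hu, l⟩
        have s : ch.zone (ch.x v / 2) (ch.y v / 2) ∪ {u} ⊆ Low := union_subset zs
          (singleton_subset_iff.2 (cl' _ c (by omega) (by omega) a1 a2 hu))
        exact (low2 _ c (by omega) (by omega) a1 a2 u hu).trans
          (el_mono s (el_link h cb.core (s.trans lc) l.symm))
      rcases ok.zone (ch.x v / 2) (ch.y v / 2) v ⟨hv.1, by omega⟩ with a | a
      · exact fin _ (by omega) (by omega) a.2
      · exact fin _ (by omega) (by omega) a.2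
  have up : ∀ c v, v ∈ col c → ∃ u ∈ ch.cell t c, M.EL vx C (col c) u v := by
    rintro c v (a | a)
    · exact ⟨v, a, .refl⟩
    · exact a.2 ▸ (cb.root v a.1).2
  have top : ∀ lo hi c d u v, t ≤ lo → hi + t ≤ ch.s → lo ≤ c → c ≤ hi → lo ≤ d → d ≤ hi →
      u ∈ col c → v ∈ col d → M.EL vx C {w | ∃ e, lo ≤ e ∧ e ≤ hi ∧ w ∈ col e} u v := by
    have half : ∀ lo hi c u w, t ≤ lo → hi + t ≤ ch.s → lo ≤ c → c ≤ hi → u ∈ col c →
        w ∈ ch.cell t lo → M.EL vx C {w | ∃ e, lo ≤ e ∧ e ≤ hi ∧ w ∈ col e} w u := by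
      intro lo hi c u w a1 a2 a3 a4 hu hw
      obtain ⟨u', b1, b2⟩ := up c u hu
      refine (row _ t lo le_rfl (by omega) a1 c a3 (by omega) ?_ w hw u' b1).trans (el_mono ?_ b2)
      · exact fun e d1 d2 x hx => ⟨e, d1, by omega, Or.inl hx⟩
      · exact fun x hx => ⟨c, a3, a4, hx⟩
    intro lo hi c d u v a1 a2 a3 a4 a5 a6 hu hv
    obtain ⟨w, hw⟩ := ne t lo (by omega) (by omega)
    exact (el_symm h eC (half lo hi c u w a1 a2 a3 a4 hu hw)).trans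
      (half lo hi d v w a1 a2 a5 a6 hv hw)
  have rest : ∀ (J : ℕ → Prop) v, v ∈ Low ∪ {w | ∃ e, J e ∧ t ≤ e ∧ e + t ≤ ch.s ∧ w ∈ col e} →
      M.EL vx C (Low ∪ {w | ∃ e, J e ∧ t ≤ e ∧ e + t ≤ ch.s ∧ w ∈ col e}) z v := by
    rintro J v (a | ⟨e, a0, a1, a2, a3⟩)
    · exact el_mono subset_union_left (low v a)
    · obtain ⟨u, b1, b2⟩ := up e v a3
      obtain ⟨w, hw⟩ := ne (t + 1) e (by omega) (by omega)
      have s1 := cl' (t + 1) e (by omega) (by omega) a1 a2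
      refine ((el_mono subset_union_left (low w (s1 hw))).trans (join _ (t + 1) e t e (by omega)
        (by omega) a1 a2 le_rfl (by omega) a1 a2 (s1.trans subset_union_left)
        ?_ (ok.ver t (by omega) e (by omega)).symm w hw u b1)).trans (el_mono ?_ b2)
      · exact fun x hx => Or.inr ⟨e, a0, a1, a2, Or.inl hx⟩
      · exact fun x hx => Or.inr ⟨e, a0, a1, a2, hx⟩
  have split : ∀ v ∈ K ∪ ch.core t, v ∈ Low ∨ ∃ e, t ≤ e ∧ e + t ≤ ch.s ∧ v ∈ col e := by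
    rintro v (a | a)
    · have := (cb.root v a).1
      exact Or.inr ⟨rt v, by have := this.1; omega, by have := this.2; omega, Or.inr ⟨a, rfl⟩⟩
    · have p := (ok.le v a.1).2.2
      have b := a.2
      by_cases e : ch.x v = 2 * t
      · exact Or.inr ⟨ch.y v / 2, by omega, by omega,
          Or.inl ((cell _ _ _).2 ⟨a.1, e, by omega⟩)⟩
      · exact Or.inl ⟨a.1, by omega⟩
  have vC : ∀ x ∈ C, vx x ∈ K ∪ ch.core t := fun x hx => by
    by_cases m : x ∈ M.ind vx (ch.core t)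
    · exact Or.inr m.2.1
    · obtain ⟨c, a, b | b, -⟩ := cb.ends x ⟨hx, m⟩
      · exact Or.inr (cc t c le_rfl (by omega) (by have := a.1; omega) (by have := a.2; omega) b)
      · exact Or.inl b.1
  have sent : ∀ c, t ≤ c → c + t ≤ ch.s → ∃ f ∈ M.S, vx f ∈ ch.cell t c ∧
      vx f ∈ ch.core t ∧ vx (M.a f) ∉ ch.core t := by
    intro c a1 a2
    obtain ⟨x, hx, y, hy, e⟩ := (ok.ver (t - 1) (by omega) c (by omega)).symm
    rw [show t - 1 + 1 = t by omega] at hx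
    obtain ⟨f, hf, rfl, rfl⟩ := adj x y e
    refine ⟨f, hf, hx, cc t c le_rfl (by omega) a1 a2 hx, fun m => ?_⟩
    have := (cell _ _ _).1 hy
    have := m.2
    omega
  obtain ⟨f0, s0, a0, b0, d0⟩ := sent (μ - 1) (by omega) (by omega)
  obtain ⟨f1, s1, a1, b1, d1⟩ := sent μ (by omega) (by omega)
  obtain ⟨f2, s2, a2, b2, d2⟩ := sent (ch.s - μ) (by omega) (by omega)
  have out : ∀ f ∈ M.S, vx f ∈ ch.core t → vx (M.a f) ∉ ch.core t → f ∈ (M.gh C ∅).fo f0 :=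
    fun f hf a b => r2 f0 s0 (c7 t1 f0 s0 f hf b0 d0 a b)
  have dif : ∀ c d u v, u ∈ ch.cell t c → v ∈ ch.cell t d → c ≠ d → u ≠ v := by
    rintro c d u v a b n rfl
    have := (cell _ _ _).1 a; have := (cell _ _ _).1 b; omega
  obtain ⟨O, n, p1, p2, T, o0, oF, l0, l1, l2, o1, o2⟩ := exists_dir h hL eC s0 (out f1 s1 b1 d1)
    (out f2 s2 b2 d2) (dif _ _ _ _ a1 a0 (by omega)) (dif _ _ _ _ a2 a0 (by omega))
    (dif _ _ _ _ a1 a2 (by omega))
  have eg0 : (M.sub C).eg = 0 := r1.trans c2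
  have ga : ∀ x ∈ C, (M.gh C ∅).a x = M.a x := fun x => Gph.ga_mem
  have gn : ∀ x, x ∉ C → (M.gh C ∅).a x = M.c x := fun x => Gph.ga_not
  have atK : ∀ v ∈ K, ∀ x ∈ M.S, vx x = v → x ∈ (M.gh C ∅).fo f0 := by
    have vo : ∀ x ∈ M.S, vx x ∈ K → ∀ y ∈ M.S, vx y = vx x → y ∈ cl (M.gh C ∅).rF x := by
      intro x hx a y hy e
      refine (cl_ind (r := M.rV) (P := fun y => (y ∈ M.S ∧ vx y = vx x) ∧
        y ∈ cl (M.gh C ∅).rF x) ⟨⟨hx, rfl⟩, cl_self _ _⟩ ?_ ((hL x hx y hy).1 e.symm)).2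
      rintro y w - ⟨⟨m, e⟩, ih⟩ (rfl | rfl)
      · exact ⟨⟨h.b_mem m, (hL.b h m).trans e⟩, cl_step ih (Or.inr rfl)⟩
      · refine ⟨⟨h.c_mem m, (hL.c h m).trans e⟩, ?_⟩
        by_cases p : y ∈ C
        · exact cl_trans ih (r3 y ⟨p, fun s => nK _ s.2.1 (e ▸ a)⟩)
        · exact cl_step ih (Or.inl (gn y p).symm)
    intro v hv
    obtain ⟨cen, u, hu, k⟩ := cb.root v hv
    have uc := cc t _ le_rfl (by omega) (by have := cen.1; omega) (by have := cen.2; omega) hu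
    have : ∀ w, M.EL vx C (ch.colm t K rt (rt v)) u w → w ∈ K → ∀ x ∈ M.S, vx x = w →
        x ∈ (M.gh C ∅).fo f0 := by
      intro w k
      induction k with
      | refl => exact fun m => (nK u uc m).elim
      | tail _ e ih =>
        obtain ⟨-, -, y, hy, rfl, rfl⟩ := e
        intro m x hx e
        have yS := eC.1 hy
        have : y ∈ (M.gh C ∅).fo f0 := (vC y hy).elim (fun s => ih s y yS rfl)
          fun s => out y yS s fun s' => nK _ s' m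
        exact cl_trans (cl_step (r := (M.gh C ∅).rF) this (Or.inl (ga y hy).symm))
          (vo _ (h.a_mem yS) m x hx e)
    exact this v k hv
  have onF : ∀ f ∈ M.S, vx f ∈ K ∪ ch.core t → ∀ x ∈ cl (M.gh C ∅).rF f,
      vx x ∈ K ∪ ch.core t := by
    intro f hf a x hx
    refine cl_ind (P := fun x => vx x ∈ K ∪ ch.core t) a ?_ hx
    intro y w hy ih e
    have m : y ∈ M.S := G.sF.sub hf hy
    rcases e with rfl | rfl
    · by_cases p : y ∈ C
      · rw [ga y p]; exact vC _ (eC.2 y p).1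
      · rw [gn y p, hL.c h m]; exact ih
    · rw [show (M.gh C ∅).b y = M.b y from rfl, hL.b h m]; exact ih
  have Oc : ∀ i < n, vx (O i) ∈ K ∪ ch.core t := fun i hi =>
    onF f0 s0 (Or.inr b0) _ (oF ▸ (T.face _).2 ⟨i, hi, Or.inl rfl⟩ :)
  have k0 : vx (O 0) ∈ col (μ - 1) := Or.inl (o0 ▸ a0)
  have k1 : vx (O p1) ∈ col μ := Or.inl (o1 ▸ a1)
  have k2 : vx (O p2) ∈ col (ch.s - μ) := Or.inl (o2 ▸ a2)
  have dis : ∀ lo hi, t ≤ lo → hi + t ≤ ch.s → Disjoint {w | ∃ e, lo ≤ e ∧ e ≤ hi ∧ w ∈ col e}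
      (Low ∪ {w | ∃ e, (e < lo ∨ hi < e) ∧ t ≤ e ∧ e + t ≤ ch.s ∧ w ∈ col e}) := by
    intro lo hi a b
    rw [Set.disjoint_left]
    rintro w ⟨e, c1, c2, c3⟩ (m | ⟨d, m0, m1, m2, m3⟩)
    · exact colL e w c3 m
    · have := colU e d w (by omega) (by omega) m1 m2 c3 m3
      omega
  have X1 : ∀ i1 i2 i3 i4 d1 d3 lo hi, i1 < i2 → i2 < i3 → i3 < i4 → i4 < n → t ≤ lo →
      hi + t ≤ ch.s → lo ≤ d1 → d1 ≤ hi → lo ≤ d3 → d3 ≤ hi → vx (O i1) ∈ col d1 →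
      vx (O i3) ∈ col d3 →
      vx (O i2) ∈ Low ∪ {w | ∃ e, (e < lo ∨ hi < e) ∧ t ≤ e ∧ e + t ≤ ch.s ∧ w ∈ col e} →
      vx (O i4) ∈ Low ∪ {w | ∃ e, (e < lo ∨ hi < e) ∧ t ≤ e ∧ e + t ≤ ch.s ∧ w ∈ col e} → False :=
    fun i1 i2 i3 i4 d1 d3 lo hi a b c d e1 e2 e3 e4 e5 e6 m1 m3 m2 m4 =>
      xfS Φ V M vx C O n i1 i2 i3 i4 _ _ h hL eC eg0 T a b c (by omega) (dis lo hi e1 e2)
        ⟨d1, e3, e4, m1⟩ m2 (top lo hi d1 d3 _ _ e1 e2 e3 e4 e5 e6 m1 m3)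
        ((el_symm h eC (rest _ _ m2)).trans (rest _ _ m4))
  have X2 : ∀ i1 i2 i3 i4 d2 d4 lo hi, i1 < i2 → i2 < i3 → i3 < i4 → i4 < n → t ≤ lo →
      hi + t ≤ ch.s → lo ≤ d2 → d2 ≤ hi → lo ≤ d4 → d4 ≤ hi → vx (O i2) ∈ col d2 →
      vx (O i4) ∈ col d4 →
      vx (O i1) ∈ Low ∪ {w | ∃ e, (e < lo ∨ hi < e) ∧ t ≤ e ∧ e + t ≤ ch.s ∧ w ∈ col e} →
      vx (O i3) ∈ Low ∪ {w | ∃ e, (e < lo ∨ hi < e) ∧ t ≤ e ∧ e + t ≤ ch.s ∧ w ∈ col e} → False :=
    fun i1 i2 i3 i4 d2 d4 lo hi a b c d e1 e2 e3 e4 e5 e6 m2 m4 m1 m3 =>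
      xfS Φ V M vx C O n i1 i2 i3 i4 _ _ h hL eC eg0 T a b c (by omega) (dis lo hi e1 e2).symm
        m1 ⟨d2, e3, e4, m2⟩ ((el_symm h eC (rest _ _ m1)).trans (rest _ _ m3))
        (top lo hi d2 d4 _ _ e1 e2 e3 e4 e5 e6 m2 m4)
  have neq : ∀ i j c d, t ≤ c → c + t ≤ ch.s → t ≤ d → d + t ≤ ch.s → vx (O i) ∈ col c →
      vx (O j) ∈ col d → c ≠ d → i ≠ j := by
    rintro i j c d a1 a2 a3 a4 m1 m2 n rfl
    exact n (colU c d _ a1 a2 a3 a4 m1 m2)
  have mid : ∀ i < n, ∀ c, ch.cen μ c → vx (O i) ∈ col c → p1 < i ∧ i < p2 := by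
    intro i hi c cen m
    have e1 := cen.1
    have e2 := cen.2
    have z0 := neq i 0 c _ (by omega) (by omega) (by omega) (by omega) m k0 (by omega)
    have z1 := neq i p1 c _ (by omega) (by omega) (by omega) (by omega) m k1 (by omega)
    have z2 := neq i p2 c _ (by omega) (by omega) (by omega) (by omega) m k2 (by omega)
    constructor
    · by_contra c'
      exact X1 0 i p1 p2 (μ - 1) μ (μ - 1) μ (by omega) (by omega) l1 l2 (by omega) (by omega)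
        le_rfl (by omega) (by omega) le_rfl k0 k1 (Or.inr ⟨c, by omega, by omega, by omega, m⟩)
        (Or.inr ⟨_, by omega, by omega, by omega, k2⟩)
    · by_contra c'
      exact X2 0 p1 p2 i μ c μ c l0 l1 (by omega) hi (by omega) (by omega) le_rfl (by omega)
        (by omega) le_rfl k1 m (Or.inr ⟨_, by omega, by omega, by omega, k0⟩)
        (Or.inr ⟨_, by omega, by omega, by omega, k2⟩)
  have all : ∀ v ∈ K ∪ ch.core t, M.EL vx C univ z v := fun v hv =>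
    el_mono (subset_univ _) (rest (fun _ => True) v
      ((split v hv).imp id fun ⟨e, a⟩ => ⟨e, trivial, a⟩))
  refine ⟨O, n, T, fun f hf x hx => ?_, eg0, Subset.antisymm ?_ ?_, fun c cen m => ?_,
    fun f hf a => ?_, fun i hi j hj c c' m m' a b l => ?_, fun i l j c c' a b d m m' e e' => ?_⟩
  · rw [sub_co h.gk eC hf]
    refine ⟨(spn_co h hL eC (eC.1 hf) (eC.1 hx)).2 ?_, hx⟩
    exact ReflTransGen.mono (fun _ _ e => e.2.2) _ _
      ((el_symm h eC (all _ (vC f hf))).trans (all _ (vC x hx)))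
  · rintro _ ⟨x, hx, rfl⟩; exact vC x hx
  · rintro v (a | a)
    · obtain ⟨cen, u, hu, k⟩ := cb.root v a
      have uc := cc t _ le_rfl (by omega) (by have := cen.1; omega) (by have := cen.2; omega) hu
      rcases ReflTransGen.cases_tail k with e | ⟨_, -, -, -, x, hx, -, e⟩
      · exact (nK u uc (e ▸ a)).elim
      · exact ⟨M.a x, (eC.2 x hx).1, e⟩
    · rw [← c4] at a
      exact image_mono cb.core a
  · have := cen.1
    have := cen.2
    have := colU c (μ - 1) _ (by omega) (by omega) (by omega) (by omega) m k0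
    omega
  · by_cases p : f ∈ (M.gh C ∅).fo f0
    · exact Or.inl ((T.face f).1 (oF ▸ p))
    have ins : ∀ x ∈ cl (M.gh C ∅).rF f, x ∈ M.ind vx (ch.core t) := by
      intro x hx
      have m : x ∈ M.S := G.sF.sub hf hx
      have n' : x ∉ (M.gh C ∅).fo f0 := fun s => p (cl_trans s (G.sF.symm hf hx))
      have u := (onF f hf a x hx).resolve_left fun s => n' (atK _ s x m rfl)
      exact ⟨m, u, by_contra fun s => n' (out x m u s)⟩
    refine Or.inr ⟨cb.core (ins f (cl_self _ _)), fun x hx => (ins x ?_).2.1⟩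
    refine cl_ind (r := M.rF) (P := fun x => x ∈ cl (M.gh C ∅).rF f) (cl_self _ _) ?_ hx
    intro y w _ ih e
    exact cl_step ih (e.imp (fun e => e.trans (ga y (cb.core (ins y ih))).symm) id)
  · have e1 := m.1
    have e2 := m.2
    have e3 := m'.1
    have e4 := m'.2
    have u1 := mid i hi c m a
    have u2 := mid j hj c' m' b
    have u3 := neq i j c c' (by omega) (by omega) (by omega) (by omega) a b (by omega)
    by_contra c0
    exact X1 p1 j i p2 μ c μ c u2.1 (by omega) u1.2 l2 (by omega) (by omega) le_rfl (by omega)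
      (by omega) le_rfl k1 a (Or.inr ⟨c', by omega, by omega, by omega, b⟩)
      (Or.inr ⟨_, by omega, by omega, by omega, k2⟩)
  · have e1 := m.1
    have e2 := m.2
    have e3 := m'.1
    have e4 := m'.2
    have u1 := mid i (by omega) c m e
    by_contra c0
    refine X2 0 i l j c c' (μ + 1) (ch.s - μ - 1) (by omega) a b d (by omega) (by omega) (by omega)
      (by omega) (by omega) (by omega) e e' (Or.inr ⟨_, by omega, by omega, by omega, k0⟩) ?_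
    refine (split _ (Oc l (by omega))).imp id fun ⟨x, s1, s2, s3⟩ => ⟨x, ?_, s1, s2, s3⟩
    by_contra c1
    exact c0 ⟨x, ⟨by omega, by omega⟩, s3⟩

end Pool.Agent.MP_9d78a0_co.gm

end MrgPart1

-- ======== part 2: formerly Pool.Agent.MP_9d78a0_co.gm.RDraw
section MrgPart2

/-! Routing: partitions without alternation in a grid, and the realisation of a drawing. -/

set_option autoImplicit false

namespace Pool.Agent.MP_9d78a0_co.gm

open Set Function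

namespace RDraw

theorem row_link {S : Set (ℕ × ℕ)} {r a b : ℕ} (hab : a ≤ b)
    (h : ∀ c, a ≤ c → c ≤ b → (r, c) ∈ S) : Link fb.gridN S (r, a) (r, b) := by
  induction b, hab using Nat.le_induction with
  | base => exact Link.refl _ _ _
  | succ m hm ih =>
    exact (ih fun c h1 h2 => h c h1 (by omega)).trans
      (Link.single (h m hm (by omega)) (h (m + 1) (by omega) le_rfl) (Or.inl ⟨rfl, Or.inl rfl⟩))

theorem col_link {S : Set (ℕ × ℕ)} {c a b : ℕ} (hab : a ≤ b)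
    (h : ∀ r, a ≤ r → r ≤ b → (r, c) ∈ S) : Link fb.gridN S (a, c) (b, c) := by
  induction b, hab using Nat.le_induction with
  | base => exact Link.refl _ _ _
  | succ m hm ih =>
    exact (ih fun c h1 h2 => h c h1 (by omega)).trans
      (Link.single (h m hm (by omega)) (h (m + 1) (by omega) le_rfl) (Or.inr ⟨rfl, Or.inl rfl⟩))

end RDraw

open RDraw in
theorem gridRS : GridRS := by
  intro lo p Cs lab hsub hnc
  have hex : ∀ x : ℕ, ∃ m : ℕ × ℕ, ∀ c ∈ Cs, lab c = x → (m.1 ∈ Cs ∧ lab m.1 = x) ∧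
      (m.2 ∈ Cs ∧ lab m.2 = x) ∧ m.1 ≤ c ∧ c ≤ m.2 := by
    intro x
    have hf : {c | c ∈ Cs ∧ lab c = x}.Finite :=
      (finite_Icc lo (lo + p)).subset fun c hc => hsub hc.1
    by_cases h : {c | c ∈ Cs ∧ lab c = x}.Nonempty
    · obtain ⟨a, ha, h1⟩ := exists_min_image _ id hf h
      obtain ⟨b, hb, h2⟩ := exists_max_image _ id hf h
      exact ⟨(a, b), fun c hc e => ⟨ha, hb, h1 c ⟨hc, e⟩, h2 c ⟨hc, e⟩⟩⟩
    · exact ⟨(0, 0), fun c hc e => (h ⟨c, hc, e⟩).elim⟩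
  choose m hm using hex
  have nest : ∀ c ∈ Cs, ∀ d ∈ Cs, lab c ≠ lab d → (m (lab d)).1 ≤ c → c ≤ (m (lab d)).2 →
      (m (lab c)).2 - (m (lab c)).1 < (m (lab d)).2 - (m (lab d)).1 := by
    intro c hc d hd hne h1 h2
    obtain ⟨⟨a1, a2⟩, ⟨a3, a4⟩, a5, a6⟩ := hm _ c hc rfl
    obtain ⟨⟨b1, b2⟩, ⟨b3, b4⟩, -⟩ := hm _ d hd rfl
    have n1 : (m (lab d)).1 ≠ c := fun e => hne (by rw [← b2, e])
    have n2 : (m (lab d)).2 ≠ c := fun e => hne (by rw [← b4, e])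
    have n3 : (m (lab d)).1 ≠ (m (lab c)).1 := fun e => hne (by rw [← b2, e, a2])
    have n4 : (m (lab d)).2 ≠ (m (lab c)).2 := fun e => hne (by rw [← b4, e, a4])
    have k1 : ¬ (m (lab c)).1 < (m (lab d)).1 := fun h => hne (by
      have := hnc _ a1 _ b1 c hc _ b3 h (by omega) (by omega) a2 (by rw [b2, b4])
      rw [← a2, this, b2])
    have k2 : ¬ (m (lab d)).2 < (m (lab c)).2 := fun h => hne (by
      have := hnc _ b1 c hc _ b3 _ a3 (by omega) (by omega) h (by rw [b2, b4]) a4.symm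
      rw [← this, b2])
    omega
  refine ⟨fun x => {z | (z.2 ∈ Cs ∧ lab z.2 = x ∧ z.1 ≤ (m x).2 - (m x).1) ∨
    (z.1 = (m x).2 - (m x).1 ∧ (m x).1 ≤ z.2 ∧ z.2 ≤ (m x).2)}, fun c hc => ?_,
    fun c hc c' hc' hne => ?_⟩
  · obtain ⟨⟨a1, a2⟩, ⟨a3, a4⟩, a5, a6⟩ := hm _ c hc rfl
    have b1 := hsub a1
    have b3 := hsub a3
    refine ⟨fb.conn_of_center (a := ((m (lab c)).2 - (m (lab c)).1, (m (lab c)).1))
      (Or.inr ⟨rfl, le_rfl, a5.trans a6⟩) ?_, Or.inl ⟨hc, rfl, Nat.zero_le _⟩, ?_⟩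
    · rintro ⟨r, d⟩ (⟨h1, h2, h3⟩ | ⟨h1, h2, h3⟩)
      · obtain ⟨-, -, e1, e2⟩ := hm _ d h1 h2
        exact (row_link e1 fun y y1 y2 => Or.inr ⟨rfl, y1, y2.trans e2⟩).trans
          (col_link h3 fun y _ y2 => Or.inl ⟨h1, h2, y2⟩).symm
      · dsimp only at h1 h2 h3
        subst h1
        exact row_link h2 fun y y1 y2 => Or.inr ⟨rfl, y1, y2.trans h3⟩
    · rintro ⟨r, d⟩ (⟨h1, h2, h3⟩ | ⟨h1, h2, h3⟩)
      · have := hsub h1
        simp only [mem_Icc] at *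
        omega
      · simp only [mem_Icc] at *
        omega
  · rw [disjoint_left]
    obtain ⟨⟨a1, a2⟩, ⟨a3, a4⟩, a5, a6⟩ := hm _ c hc rfl
    obtain ⟨⟨b1, b2⟩, ⟨b3, b4⟩, b5, b6⟩ := hm _ c' hc' rfl
    rintro ⟨r, d⟩ (⟨h1, h2, h3⟩ | ⟨h1, h2, h3⟩) (⟨k1, k2, k3⟩ | ⟨k1, k2, k3⟩)
    · exact hne (h2.symm.trans k2)
    · have := nest d h1 c' hc' (by rw [h2]; exact hne) k2 k3
      rw [h2] at this
      dsimp only at *
      omega
    · have := nest d k1 c hc (by rw [k2]; exact hne.symm) h2 h3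
      rw [k2] at this
      dsimp only at *
      omega
    · dsimp only at *
      rcases le_total (m (lab c)).1 (m (lab c')).1 with h | h
      · have := nest _ b1 c hc (by rw [b2]; exact hne.symm) h (by omega)
        rw [b2] at this
        omega
      · have := nest _ a1 c' hc' (by rw [a2]; exact hne) h (by omega)
        rw [a2] at this
        omega

namespace RDraw

/-- the lexicographic order on places -/
def Lx (z z' : ℕ × ℕ × ℕ) : Prop := z.1 < z'.1 ∨ (z.1 = z'.1 ∧ z.2.1 < z'.2.1)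

theorem Lx.trans {a b c : ℕ × ℕ × ℕ} (h : Lx a b) (h' : Lx b c) : Lx a c := by
  unfold Lx at *
  omega

/-- a place of the word: key of the letter, position, label -/
def Plc {Φ : Type} (L : List Φ) (key : Φ → ℕ) (φ : Φ → List ℕ) (z : ℕ × ℕ × ℕ) : Prop :=
  ∃ f ∈ L, key f = z.1 ∧ z.2.1 < (φ f).length ∧ (φ f).getD z.2.1 0 = z.2.2

theorem sublist_of_plc {Φ : Type} {L : List Φ} {key : Φ → ℕ} {φ : Φ → List ℕ}
    (hs : L.Pairwise fun f g => key f < key g) {z1 z2 z3 z4 : ℕ × ℕ × ℕ} (h1 : Plc L key φ z1)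
    (h2 : Plc L key φ z2) (h3 : Plc L key φ z3) (h4 : Plc L key φ z4) (a : Lx z1 z2)
    (b : Lx z2 z3) (c : Lx z3 z4) :
    [z1.2.2, z2.2.2, z3.2.2, z4.2.2].Sublist (L.flatMap φ) := by
  obtain ⟨Lp, hLp⟩ : ∃ Lp, Lp = L.flatMap fun f =>
    (List.range (φ f).length).map fun i => (key f, i, (φ f).getD i 0) := ⟨_, rfl⟩
  have hmap : Lp.map (fun z => z.2.2) = L.flatMap φ := by
    rw [hLp, List.map_flatMap]
    congr 1
    funext f
    rw [List.map_map]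
    refine List.ext_getElem (by simp) fun i k1 k2 => ?_
    simp [List.getD_eq_getElem?_getD, k2]
  have hpw : Lp.Pairwise Lx := by
    rw [hLp, List.pairwise_flatMap]
    refine ⟨fun f _ => ?_, hs.imp fun {f g} h x hx y hy => ?_⟩
    · rw [List.pairwise_map]
      exact List.pairwise_lt_range.imp fun h => Or.inr ⟨rfl, h⟩
    · obtain ⟨i, -, rfl⟩ := List.mem_map.1 hx
      obtain ⟨j, -, rfl⟩ := List.mem_map.1 hy
      exact Or.inl h
  have hmem : ∀ z, Plc L key φ z → z ∈ Lp := by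
    rintro ⟨k, i, x⟩ ⟨f, hf, e1, e2, e3⟩
    rw [hLp]
    exact List.mem_flatMap.2 ⟨f, hf, List.mem_map.2 ⟨i, List.mem_range.2 e2, by
      dsimp only at e1 e3
      rw [e1, e3]⟩⟩
  have hp4 : [z1, z2, z3, z4].Pairwise Lx := by
    simp [a, b, c, a.trans b, b.trans c, (a.trans b).trans c]
  have irr : ∀ z z', Lx z z' → z ≠ z' := by
    rintro z _ h rfl
    unfold Lx at h
    omega
  have : Std.Antisymm Lx := ⟨fun z z' h h' => (irr z z (h.trans h') rfl).elim⟩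
  have hsl : [z1, z2, z3, z4].Sublist Lp := by
    refine List.sublist_of_subperm_of_pairwise (r := Lx)
      (List.subperm_of_subset (hp4.imp fun h => irr _ _ h) ?_) hp4 hpw
    intro z hz
    simp only [List.mem_cons, List.not_mem_nil, or_false] at hz
    rcases hz with rfl | rfl | rfl | rfl <;> exact hmem _ ‹_›
  rw [← hmap]
  exact hsl.map fun z : ℕ × ℕ × ℕ => z.2.2

theorem getD_rev (l : List ℕ) {i : ℕ} (h : i < l.length) :
    l.reverse.getD i 0 = l.getD (l.length - 1 - i) 0 := by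
  simp [List.getD_eq_getElem?_getD, List.getElem?_reverse h]

section bands

variable {Φ V : Type} {M : FM Φ} {vx : Φ → V} {H : Set V} {ch : Ch V} {bn : Bn V} {t μ : ℕ}

theorem mono_of {f : ℕ → ℕ} {w : ℕ} (h : ∀ j, j + 1 < w → f j < f (j + 1)) {i j : ℕ}
    (hij : i < j) (hj : j < w) : f i < f j := by
  induction j, hij using Nat.le_induction with
  | base => exact h i hj
  | succ m _ ih => exact (ih (by omega)).trans (h m hj)

theorem anti_of {f : ℕ → ℕ} {w : ℕ} (h : ∀ j, j + 1 < w → f (j + 1) < f j) {i j : ℕ}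
    (hij : i < j) (hj : j < w) : f j < f i := by
  induction j, hij using Nat.le_induction with
  | base => exact h i hj
  | succ m _ ih => exact (h m hj).trans (ih (by omega))

/-- the direction of the columns of an end -/
theorem col_dir (hb : bn.Ok ch M vx H t μ) {b : ℕ} (hr : b < bn.r) (e : Bool) {i j : ℕ}
    (hij : i < j) (hj : j < bn.w) :
    (¬ (e = true ∧ bn.up b = false) → bn.col b e i < bn.col b e j) ∧
      (e = true ∧ bn.up b = false → bn.col b e j < bn.col b e i) := by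
  cases e
  · exact ⟨fun _ => mono_of (hb.mo0 b hr) hij hj, fun h => absurd h.1 (by simp)⟩
  · refine ⟨fun h => mono_of (fun j hj => (hb.mo1 b hr j hj).1 ?_) hij hj,
      fun h => anti_of (fun j hj => (hb.mo1 b hr j hj).2 h.2) hij hj⟩
    simpa using h

theorem col_mem (hb : bn.Ok ch M vx H t μ) {b : ℕ} (hr : b < bn.r) (e : Bool) {j : ℕ}
    (hj : j < bn.w) : bn.lo b e ≤ bn.col b e j ∧ bn.col b e j ≤ bn.hi b e := by
  unfold Bn.lo Bn.hi
  rcases Nat.eq_zero_or_pos j with rfl | h0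
  · omega
  by_cases h1 : j = bn.w - 1
  · subst h1
    omega
  have k1 := col_dir hb hr e h0 hj
  have k2 := col_dir hb hr e (i := j) (j := bn.w - 1) (by omega) (by omega)
  by_cases h : e = true ∧ bn.up b = false
  · have := k1.2 h
    have := k2.2 h
    omega
  · have := k1.1 h
    have := k2.1 h
    omega

/-- the column `c` has the key `k` and the position `i` -/
def Rc (bn : Bn V) (ch : Ch V) (μ : ℕ) (len : ℕ → ℕ) (c k i : ℕ) : Prop :=
  (∃ b < bn.r, ∃ e, ∃ j < len b, c = bn.col b e j ∧ k = bn.col b e 0 ∧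
    i = if e = true ∧ bn.up b = false then len b - 1 - j else j) ∨
    (bn.free ch μ c ∧ k = c ∧ i = 0)

theorem rc_lt (hb : bn.Ok ch M vx H t μ) {len : ℕ → ℕ} (hl : ∀ b < bn.r, len b ≤ bn.w)
    {c k i c' k' i' : ℕ} (h : Rc bn ch μ len c k i) (h' : Rc bn ch μ len c' k' i') (hc : c < c') :
    k < k' ∨ (k = k' ∧ i < i') := by
  have h2 := hb.two
  rcases h with ⟨b, hr, e, j, hj, rfl, rfl, rfl⟩ | ⟨hf, rfl, rfl⟩ <;>
    rcases h' with ⟨b', hr', e', j', hj', rfl, rfl, rfl⟩ | ⟨hf', rfl, rfl⟩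
  · have l1 := hl b hr
    have l2 := hl b' hr'
    by_cases he : (b, e) = (b', e')
    · obtain ⟨rfl, rfl⟩ := Prod.mk.inj he
      refine Or.inr ⟨rfl, ?_⟩
      rcases lt_trichotomy j j' with h | rfl | h
      · have := col_dir hb hr e h (by omega)
        split_ifs with k
        · have := this.2 k
          omega
        · exact h
      · omega
      · have := col_dir hb hr e h (by omega)
        split_ifs with k
        · omega
        · have := this.1 k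
          omega
    · have g := hb.gap b hr e b' hr' e' he
      have := col_mem hb hr e (j := j) (by omega)
      have := col_mem hb hr e (j := 0) (by omega)
      have := col_mem hb hr' e' (j := j') (by omega)
      have := col_mem hb hr' e' (j := 0) (by omega)
      omega
  · have l1 := hl b hr
    have g := hf'.2 b hr e
    have := col_mem hb hr e (j := j) (by omega)
    have := col_mem hb hr e (j := 0) (by omega)
    omega
  · have l1 := hl b' hr'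
    have g := hf.2 b' hr' e'
    have := col_mem hb hr' e' (j := j') (by omega)
    have := col_mem hb hr' e' (j := 0) (by omega)
    omega
  · exact Or.inl hc

theorem col_inj (hb : bn.Ok ch M vx H t μ) {b b' : ℕ} (hr : b < bn.r) (hr' : b' < bn.r)
    {e e' : Bool} {j j' : ℕ} (hj : j < bn.w) (hj' : j' < bn.w)
    (h : bn.col b e j = bn.col b' e' j') : b = b' ∧ e = e' ∧ j = j' := by
  by_cases he : (b, e) = (b', e')
  · obtain ⟨rfl, rfl⟩ := Prod.mk.inj he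
    refine ⟨rfl, rfl, ?_⟩
    rcases lt_trichotomy j j' with k | k | k
    · have := col_dir hb hr e k hj'
      by_cases k' : e = true ∧ bn.up b = false
      · have := this.2 k'
        omega
      · have := this.1 k'
        omega
    · exact k
    · have := col_dir hb hr e k hj
      by_cases k' : e = true ∧ bn.up b = false
      · have := this.2 k'
        omega
      · have := this.1 k'
        omega
  · have g := hb.gap b hr e b' hr' e' he
    have := col_mem hb hr e hj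
    have := col_mem hb hr' e' hj'
    omega

end bands

theorem hang {V : Type} {G : SimpleGraph V} {Y S T : Set V} {v0 : V} (hS : Conn G S)
    (hY : S ⊆ Y) (hT : T ⊆ Y) (ht : fb.Touch G S T) (h : ∀ w ∈ T, Link G Y v0 w) :
    ∀ v ∈ S, Link G Y v0 v := by
  obtain ⟨u, hu, w, hw, e⟩ := ht
  exact fun v hv => ((h w hw).trans (Link.single (hT hw) (hY hu) e.symm)).trans
    ((hS.2 u hu v hv).mono hY)

/-- the cells of a set of places under row `t` -/
def Pz {V : Type} (ch : Ch V) (t : ℕ) (R : Set (ℕ × ℕ)) : Set V := ⋃ z ∈ R, ch.cell (t + z.1) z.2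

theorem pz_facts {Φ V : Type} {M : FM Φ} {vx : Φ → V} {H : Set V} {g : ℕ}
    {B : Fin g × Fin g → Set V} {ch : Ch V} (hch : ch.Ok M vx H B) {t : ℕ} (ht : 2 * t ≤ ch.s)
    {R : Set (ℕ × ℕ)} (hR : Conn fb.gridN R)
    (hb : ∀ z ∈ R, z.1 ≤ ch.s - 2 * t ∧ z.2 ∈ Icc t (t + (ch.s - 2 * t))) :
    Conn (M.gph vx) (Pz ch t R) ∧ Pz ch t R ⊆ ch.core t := by
  constructor
  · obtain ⟨z0, h0⟩ := hR.1
    refine fb.conn_biUnion h0 (fun z hz => ?_) fun z hz => ?_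
    · obtain ⟨h1, -, h2⟩ := hb z hz
      exact hch.conn _ (by omega) _ (by omega)
    · have k := hR.2 z0 h0 z hz
      clear hz
      induction k with
      | refl => exact Relation.ReflTransGen.refl
      | @tail x y _ h ih =>
        refine ih.tail ⟨h.1, h.2.1, Or.inr ?_⟩
        obtain ⟨a1, -, a2⟩ := hb x h.1
        obtain ⟨b1, -, b2⟩ := hb y h.2.1
        rcases h.2.2 with ⟨e1, e2 | e2⟩ | ⟨e1, e2 | e2⟩
        · rw [← e1, ← e2]
          exact hch.hor _ (by omega) _ (by omega)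
        · rw [e1, ← e2]
          exact (hch.hor _ (by omega) _ (by omega)).symm
        · rw [← e1, ← e2]
          exact hch.ver (t + x.1) (by omega) _ (by omega)
        · rw [e1, ← e2]
          exact (hch.ver (t + y.1) (by omega) _ (by omega)).symm
  · intro v hv
    obtain ⟨z, hz, h0, h1, h2, h3, h4⟩ := mem_iUnion₂.1 hv
    obtain ⟨a1, a2, a3⟩ := hb z hz
    exact ⟨h0, by omega, by omega, by omega, by omega⟩

theorem pz_disj {V : Type} {ch : Ch V} {t : ℕ} {R R' : Set (ℕ × ℕ)} (h : Disjoint R R') :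
    Disjoint (Pz ch t R) (Pz ch t R') := by
  rw [disjoint_left]
  intro v hv hv'
  obtain ⟨z, hz, -, h1, h2, h3, h4⟩ := mem_iUnion₂.1 hv
  obtain ⟨z', hz', -, k1, k2, k3, k4⟩ := mem_iUnion₂.1 hv'
  have : z = z' := Prod.ext (by omega) (by omega)
  exact disjoint_left.1 h hz (this ▸ hz')

/-- the label of strand `j` of band `b` at the end `e` -/
def lb {Φ : Type} (W : FM Φ) (φ : Φ → List ℕ) (fl : ℕ → Φ) (b : ℕ) (e : Bool) (j : ℕ) : ℕ :=
  (φ (if e = true then W.a (fl b) else fl b)).getD j 0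

/-- the label of a terminal -/
def hd {Φ : Type} (W : FM Φ) (φ : Φ → List ℕ) (p : Φ) : ℕ := (φ (W.a p)).getD 0 0

section word

variable {Φ V ι : Type} {W : FM Φ} {bn : Bn V} {Sp : Set Φ} {τ : Φ → ι} {cq : ι → ℕ}
  {L : List Φ} {fl : ℕ → Φ} {key : Φ → ℕ} {φ : Φ → List ℕ} {n : ℕ}

theorem cmem (hs : W.Star Sp L) {f : Φ} (hf : f ∈ W.S \ Sp) : W.c f ∈ W.S \ Sp :=
  ⟨(hs.ok.ic f hf.1).1, fun h => hf.2 ((hs.ok.ic f hf.1).2.1 ▸ (hs.cl _ h).2.1)⟩

theorem amem (hs : W.Star Sp L) {p : Φ} (hp : p ∈ Sp) : W.a p ∈ W.S \ Sp :=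
  ⟨(hs.ok.ia p (hs.sub hp)).1, (hs.cl p hp).2.2⟩

theorem hd_c (hs : W.Star Sp L)
    (d1 : ∀ f ∈ W.S \ Sp, φ (W.c f) = (φ f).reverse ∧ (φ f).length ≤ n ∧
      (W.a f ∉ Sp → (φ (W.a f)).length = (φ f).length))
    (d2 : ∀ p ∈ Sp, (φ (W.a p)).length = 1) {p : Φ} (hp : p ∈ Sp) :
    hd W φ (W.c p) = hd W φ p := by
  unfold hd
  rw [(hs.ok.ac p (hs.sub hp)).1, (d1 _ (amem hs hp)).1, getD_rev _ (by rw [d2 p hp]; omega),
    d2 p hp]

/-- every strand of the drawing is a strand of a band -/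
theorem lnk_band (hs : W.Star Sp L) (hk : Key W bn Sp τ cq L fl key)
    (d1 : ∀ f ∈ W.S \ Sp, φ (W.c f) = (φ f).reverse ∧ (φ f).length ≤ n ∧
      (W.a f ∉ Sp → (φ (W.a f)).length = (φ f).length)) {x y : ℕ} (h : W.Lnk Sp φ x y) :
    ∃ b < bn.r, ∃ j < (φ (fl b)).length, ∃ e, x = lb W φ fl b e j ∧ y = lb W φ fl b (!e) j := by
  obtain ⟨f, hf, ha, i, hi, rfl, rfl⟩ := h
  have ho := hs.ok
  have hc : ∃ b < bn.r, f = fl b ∨ f = W.c (fl b) ∨ f = W.a (fl b) ∨ f = W.c (W.a (fl b)) := by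
    rcases (hs.mem f).1 hf with h | ⟨g, hg, rfl⟩
    · rcases hk.all f h with ⟨b, hr, e | e⟩ | e
      · exact ⟨b, hr, Or.inl e⟩
      · unfold Bn.pr at e
        split_ifs at e
        · exact ⟨b, hr, Or.inr (Or.inr (Or.inl e))⟩
        · exact ⟨b, hr, Or.inr (Or.inr (Or.inr e))⟩
      · exact (ha e).elim
    · have hgS := ((hs.mem g).2 (Or.inl hg)).1
      rcases hk.all g hg with ⟨b, hr, e | e⟩ | e
      · exact ⟨b, hr, Or.inr (Or.inl (by rw [e]))⟩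
      · unfold Bn.pr at e
        have hF := ((hs.mem _).2 (Or.inl (hk.band b hr).1)).1
        split_ifs at e
        · exact ⟨b, hr, Or.inr (Or.inr (Or.inr (by rw [e])))⟩
        · exact ⟨b, hr, Or.inr (Or.inr (Or.inl (by rw [e, (ho.ic _ (ho.ia _ hF).1).2.1])))⟩
      · refine (ha ?_).elim
        rw [(ho.ac g hgS).1]
        exact (hs.cl _ e).2.1
  obtain ⟨b, hr, hc⟩ := hc
  obtain ⟨k1, -, k2, -⟩ := hk.band b hr
  have hF := (hs.mem _).2 (Or.inl k1)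
  have hA : W.a (fl b) ∈ W.S \ Sp := ⟨(ho.ia _ hF.1).1, k2⟩
  have hl := (d1 _ hF).2.2 k2
  have r1 := (d1 _ hF).1
  have r2 := (d1 _ hA).1
  have aa := (ho.ia _ hF.1).2.1
  refine ⟨b, hr, ?_⟩
  rcases hc with rfl | rfl | rfl | rfl
  · exact ⟨i, hi, false, rfl, rfl⟩
  · rw [r1, List.length_reverse] at hi
    refine ⟨(φ (fl b)).length - 1 - i, by omega, false, ?_, ?_⟩
    · rw [r1, getD_rev _ hi]
      rfl
    · rw [(ho.ac _ hF.1).1, r2, getD_rev _ (by omega), hl]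
      rfl
  · exact ⟨i, by omega, true, rfl, by rw [aa]; rfl⟩
  · rw [r2, List.length_reverse] at hi
    refine ⟨(φ (fl b)).length - 1 - i, by omega, true, ?_, ?_⟩
    · rw [r2, getD_rev _ hi, hl]
      rfl
    · rw [(ho.ac _ hA.1).1, aa, r1, getD_rev _ (by omega)]
      rfl

/-- the places of the ends of the strands -/
theorem plc_band (hs : W.Star Sp L) (hk : Key W bn Sp τ cq L fl key)
    (d1 : ∀ f ∈ W.S \ Sp, φ (W.c f) = (φ f).reverse ∧ (φ f).length ≤ n ∧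
      (W.a f ∉ Sp → (φ (W.a f)).length = (φ f).length)) {b : ℕ} (hr : b < bn.r) (e : Bool) {j : ℕ}
    (hj : j < (φ (fl b)).length) :
    Plc L key φ (bn.col b e 0,
      if e = true ∧ bn.up b = false then (φ (fl b)).length - 1 - j else j, lb W φ fl b e j) := by
  obtain ⟨k1, k2, k3, k4, k5⟩ := hk.band b hr
  have hF := (hs.mem _).2 (Or.inl k1)
  have hA : W.a (fl b) ∈ W.S \ Sp := ⟨(hs.ok.ia _ hF.1).1, k3⟩
  have hl := (d1 _ hF).2.2 k3
  cases e
  · exact ⟨fl b, k1, k4, by simpa using hj, by simp [lb]⟩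
  · refine ⟨_, k2, k5, ?_⟩
    unfold Bn.pr
    cases hu : bn.up b
    · simp only [Bool.false_eq_true, if_false, and_self, if_true]
      rw [(d1 _ hA).1, List.length_reverse, getD_rev _ (by omega), hl]
      refine ⟨by omega, ?_⟩
      rw [show (φ (fl b)).length - 1 - ((φ (fl b)).length - 1 - j) = j by omega]
      rfl
    · simp only [if_true, Bool.true_eq_false, and_false, if_false]
      exact ⟨by omega, rfl⟩

theorem plc_term (hs : W.Star Sp L) (hk : Key W bn Sp τ cq L fl key)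
    (d1 : ∀ f ∈ W.S \ Sp, φ (W.c f) = (φ f).reverse ∧ (φ f).length ≤ n ∧
      (W.a f ∉ Sp → (φ (W.a f)).length = (φ f).length))
    (d2 : ∀ p ∈ Sp, (φ (W.a p)).length = 1) (hτ : ∀ p ∈ Sp, τ (W.c p) = τ p) {p : Φ}
    (hp : p ∈ Sp) : Plc L key φ (cq (τ p), 0, hd W φ p) := by
  rcases (hs.mem _).1 (amem hs hp) with h | ⟨g, hg, e⟩
  · exact ⟨_, h, hk.term p hp h, by rw [d2 p hp]; exact Nat.one_pos, rfl⟩
  · have hc := (hs.cl p hp).2.1
    have e' : W.a (W.c p) = g := by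
      rw [(hs.ok.ac p (hs.sub hp)).1, e, (hs.ok.ic g ((hs.mem g).2 (Or.inl hg)).1).2.1]
    rw [← e'] at hg
    exact ⟨_, hg, by rw [hk.term _ hc hg, hτ p hp], by rw [d2 _ hc]; exact Nat.one_pos,
      hd_c hs d1 d2 hp⟩

end word

end RDraw

open RDraw in
theorem drawRS : DrawRS := by
  intro k q g Φ V ι U M vx H B ch bn t μ n Sp τ Q cq W L fl key ν hst hb ht hs htr hW hk hc hn
    ⟨φ, d1, d2, d3, d4⟩
  have hτ : ∀ p ∈ Sp, τ (W.c p) = τ p := fun p hp => by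
    rw [hc p hp]
    exact ((htr.term p hp _ (htr.cl p hp)).2 (Or.inr rfl)).symm
  have hlen : ∀ b < bn.r, (φ (fl b)).length ≤ bn.w := fun b hr =>
    (d1 _ ((hW.mem _).2 (Or.inl (hk.band b hr).1))).2.1.trans hn
  have hhd : ∀ p ∈ Sp, ∀ p' ∈ Sp, τ p = τ p' → hd W φ p = hd W φ p' := fun p hp p' hp' e => by
    rcases (htr.term p hp p' hp').1 e with rfl | rfl
    · rfl
    · rw [← hc p hp, hd_c hW d1 d2 hp]
  obtain ⟨Pl, hPl⟩ : ∃ Pl : ℕ → ℕ → Prop, ∀ c x, Pl c x ↔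
      (∃ b < bn.r, ∃ e, ∃ j < (φ (fl b)).length, c = bn.col b e j ∧ x = lb W φ fl b e j) ∨
        ∃ p ∈ Sp, c = cq (τ p) ∧ x = hd W φ p := ⟨_, fun _ _ => Iff.rfl⟩
  have hfun : ∀ c x y, Pl c x → Pl c y → x = y := by
    intro c x y hx hy
    rcases (hPl c x).1 hx with ⟨b, hr, e, j, hj, e1, rfl⟩ | ⟨p, hp, e1, rfl⟩ <;>
      rcases (hPl c y).1 hy with ⟨b', hr', e', j', hj', e2, rfl⟩ | ⟨p', hp', e2, rfl⟩
    · obtain ⟨rfl, rfl, rfl⟩ := col_inj hb hr hr' (hj.trans_le (hlen b hr))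
        (hj'.trans_le (hlen b' hr')) (e1.symm.trans e2)
      rfl
    · have := (htr.conn p' hp').2.2.1.2 b hr e
      have := col_mem hb hr e (hj.trans_le (hlen b hr))
      omega
    · have := (htr.conn p hp).2.2.1.2 b' hr' e'
      have := col_mem hb hr' e' (hj'.trans_le (hlen b' hr'))
      omega
    · by_contra hne
      exact (htr.dis p hp p' hp' fun e => hne (hhd p hp p' hp' e)).2 (e1.symm.trans e2)
  have hex : ∀ c, ∃ x, (∃ y, Pl c y) → Pl c x := fun c => by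
    by_cases h : ∃ y, Pl c y
    · exact ⟨h.choose, fun _ => h.choose_spec⟩
    · exact ⟨0, fun k => (h k).elim⟩
  choose lab hlab using hex
  have hlab' : ∀ c x, Pl c x → lab c = x := fun c x h => hfun c _ _ (hlab c ⟨x, h⟩) h
  have hrec : ∀ c x, Pl c x → ch.cen μ c ∧ ∃ k i,
      Rc bn ch μ (fun b => (φ (fl b)).length) c k i ∧ Plc L key φ (k, i, x) := by
    intro c x hx
    rcases (hPl c x).1 hx with ⟨b, hr, e, j, hj, rfl, rfl⟩ | ⟨p, hp, rfl, rfl⟩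
    · exact ⟨hb.cen b hr e j (hj.trans_le (hlen b hr)), _, _,
        Or.inl ⟨b, hr, e, j, hj, rfl, rfl, rfl⟩, plc_band hW hk d1 hr e hj⟩
    · exact ⟨(htr.conn p hp).2.2.1.1, _, _, Or.inr ⟨(htr.conn p hp).2.2.1, rfl, rfl⟩,
        plc_term hW hk d1 d2 hτ hp⟩
  obtain ⟨R, hR1, hR2⟩ := gridRS t (ch.s - 2 * t) {c | ∃ y, Pl c y} lab
    (by
      rintro c ⟨y, hy⟩
      obtain ⟨h1, h2⟩ := (hrec c y hy).1
      exact ⟨by omega, by omega⟩)
    (by
      intro c1 h1 c2 h2 c3 h3 c4 h4 l1 l2 l3 e1 e2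
      obtain ⟨-, k1, i1, a1, b1⟩ := hrec c1 _ (hlab c1 h1)
      obtain ⟨-, k2, i2, a2, b2⟩ := hrec c2 _ (hlab c2 h2)
      obtain ⟨-, k3, i3, a3, b3⟩ := hrec c3 _ (hlab c3 h3)
      obtain ⟨-, k4, i4, a4, b4⟩ := hrec c4 _ (hlab c4 h4)
      have := sublist_of_plc hk.sort b1 b2 b3 b4 (rc_lt hb hlen a1 a2 l1)
        (rc_lt hb hlen a2 a3 l2) (rc_lt hb hlen a3 a4 l3)
      dsimp only at this
      rw [← e1, ← e2] at this
      by_contra hne
      exact d3 _ _ hne this)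
  have hP : ∀ c x, Pl c x → Conn (M.gph vx) (Pz ch t (R x)) ∧ Pz ch t (R x) ⊆ ch.core t ∧
      ch.cell t c ⊆ Pz ch t (R x) := by
    intro c x hx
    obtain ⟨a1, a2, a3⟩ := hR1 c ⟨x, hx⟩
    rw [hlab' c x hx] at a1 a2 a3
    obtain ⟨b1, b2⟩ := pz_facts hst.ch (by omega) a1 a3
    exact ⟨b1, b2, fun v hv => mem_iUnion₂.2 ⟨(0, c), a2, hv⟩⟩
  obtain ⟨K, hK⟩ : ∃ K : U → ℕ → Prop, ∀ u x, K u x ↔
      ∃ p ∈ Sp, ν p = u ∧ Relation.EqvGen (W.Lnk Sp φ) (hd W φ p) x := ⟨_, fun _ _ => Iff.rfl⟩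
  have hKe : ∀ u x y, K u x → Relation.EqvGen (W.Lnk Sp φ) x y → K u y := fun u x y h e => by
    obtain ⟨p, hp, e1, e2⟩ := (hK u x).1 h
    exact (hK u y).2 ⟨p, hp, e1, e2.trans _ _ _ e⟩
  have hKu : ∀ u u' x, K u x → K u' x → u = u' := fun u u' x h h' => by
    obtain ⟨p, hp, rfl, e2⟩ := (hK u x).1 h
    obtain ⟨p', hp', rfl, e2'⟩ := (hK u' x).1 h'
    exact (d4 p hp p' hp').2 (e2.trans _ _ _ (e2'.symm _ _))
  obtain ⟨Y, hY⟩ : ∃ Y : U → Set V, ∀ u v, v ∈ Y u ↔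
      (∃ c x, Pl c x ∧ K u x ∧ v ∈ Pz ch t (R x)) ∨
      (∃ b < bn.r, ∃ j < (φ (fl b)).length, K u (lb W φ fl b false j) ∧ v ∈ bn.St b j) ∨
      ∃ p ∈ Sp, ν p = u ∧ v ∈ Q (τ p) := ⟨fun u => {v | _}, fun _ _ => Iff.rfl⟩
  have hYP : ∀ u c x, Pl c x → K u x → Pz ch t (R x) ⊆ Y u := fun u c x h1 h2 v hv =>
    (hY u v).2 (Or.inl ⟨c, x, h1, h2, hv⟩)
  have hPb : ∀ b < bn.r, ∀ e, ∀ j < (φ (fl b)).length, Pl (bn.col b e j) (lb W φ fl b e j) :=
    fun b hr e j hj => (hPl _ _).2 (Or.inl ⟨b, hr, e, j, hj, rfl, rfl⟩)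
  have hPt : ∀ p ∈ Sp, Pl (cq (τ p)) (hd W φ p) := fun p hp =>
    (hPl _ _).2 (Or.inr ⟨p, hp, rfl, rfl⟩)
  have hbody : ∀ b < bn.r, ∀ j < (φ (fl b)).length, bn.St b j ⊆ bn.body b :=
    fun b hr j hj v hv => Or.inl ⟨j, hj.trans_le (hlen b hr), hv⟩
  have hlink : ∀ u x y, Relation.EqvGen (W.Lnk Sp φ) x y →
      ((∃ c, Pl c x) ↔ ∃ c, Pl c y) ∧ (K u x → (∃ c, Pl c x) → ∀ v ∈ Pz ch t (R x),
        ∀ w ∈ Pz ch t (R y), Link (M.gph vx) (Y u) v w) := by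
    intro u x y h
    induction h with
    | rel x y h =>
      obtain ⟨b, hr, j, hj, e, ex, ey⟩ := lnk_band hW hk d1 h
      have px := ex ▸ hPb b hr e j hj
      have py := ey ▸ hPb b hr (!e) j hj
      refine ⟨⟨fun _ => ⟨_, py⟩, fun _ => ⟨_, px⟩⟩, fun kx _ v hv => ?_⟩
      have ky := hKe u x y kx (Relation.EqvGen.rel _ _ h)
      have k0 : K u (lb W φ fl b false j) := by
        cases e
        · exact ex ▸ kx
        · exact ey ▸ ky
      have hS : bn.St b j ⊆ Y u := fun w hw => (hY u w).2 (Or.inr (Or.inl ⟨b, hr, j, hj, k0, hw⟩))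
      obtain ⟨s1, s2⟩ := hb.conn b hr j (hj.trans_le (hlen b hr))
      obtain ⟨a1, -, a3⟩ := hP _ _ px
      obtain ⟨b1, -, b3⟩ := hP _ _ py
      refine hang b1 (hYP u _ _ py ky) hS ((s2 _).symm.mono b3 Subset.rfl) ?_
      exact hang s1 hS (hYP u _ _ px kx) ((s2 _).mono Subset.rfl a3) fun w hw =>
        (a1.2 v hv w hw).mono (hYP u _ _ px kx)
    | refl x =>
      exact ⟨Iff.rfl, fun kx ⟨c, px⟩ v hv w hw =>
        ((hP c x px).1.2 v hv w hw).mono (hYP u c x px kx)⟩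
    | symm x y h ih =>
      exact ⟨ih.1.symm, fun ky py v hv w hw =>
        (ih.2 (hKe u y x ky (h.symm _ _)) (ih.1.2 py) w hw v hv).symm⟩
    | trans x y z h _ ih ih' =>
      refine ⟨ih.1.trans ih'.1, fun kx px v hv w hw => ?_⟩
      obtain ⟨c, py⟩ := ih.1.1 px
      obtain ⟨y0, h0⟩ := (hP c y py).1.1
      exact (ih.2 kx px v hv y0 h0).trans (ih'.2 (hKe u x y kx h) ⟨c, py⟩ y0 h0 w hw)
  have hprot : ∀ b < bn.r, ∀ j < (φ (fl b)).length, bn.St b j ⊆ bn.prot ch t :=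
    fun b hr j hj v hv => Or.inr ⟨b, hr, hbody b hr j hj hv⟩
  refine ⟨Y, fun p hp => ⟨?_, fun v hv => (hY _ v).2 (Or.inr (Or.inr ⟨p, hp, rfl, hv⟩)),
    fun v hv => ?_⟩, fun p hp p' hp' hne => ?_⟩
  · have kp : K (ν p) (hd W φ p) := (hK _ _).2 ⟨p, hp, rfl, Relation.EqvGen.refl _⟩
    obtain ⟨v0, h0⟩ := (hP _ _ (hPt p hp)).1.1
    have hall : ∀ x, K (ν p) x → ∀ w ∈ Pz ch t (R x), Link (M.gph vx) (Y (ν p)) v0 w := by
      intro x kx
      obtain ⟨p', hp', e1, e2⟩ := (hK _ _).1 kx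
      exact (hlink (ν p) _ x (((d4 p hp p' hp').1 e1.symm).trans _ _ _ e2)).2 kp
        ⟨_, hPt p hp⟩ v0 h0
    refine fb.conn_of_center (hYP _ _ _ (hPt p hp) kp h0) fun v hv => ?_
    rcases (hY _ v).1 hv with ⟨c, x, -, kx, h⟩ | ⟨b, hr, j, hj, k0, h⟩ | ⟨p', hp', e, h⟩
    · exact hall x kx v h
    · obtain ⟨s1, s2⟩ := hb.conn b hr j (hj.trans_le (hlen b hr))
      have px := hPb b hr false j hj
      exact hang s1 (fun w hw => (hY _ w).2 (Or.inr (Or.inl ⟨b, hr, j, hj, k0, hw⟩)))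
        (hYP _ _ _ px k0) ((s2 _).mono Subset.rfl (hP _ _ px).2.2) (hall _ k0) v h
    · have kp' : K (ν p) (hd W φ p') := (hK _ _).2 ⟨p', hp', e, Relation.EqvGen.refl _⟩
      have px := hPt p' hp'
      obtain ⟨s1, -, -, s2⟩ := htr.conn p' hp'
      exact hang s1 (fun w hw => (hY _ w).2 (Or.inr (Or.inr ⟨p', hp', e, hw⟩)))
        (hYP _ _ _ px kp') (s2.mono Subset.rfl (hP _ _ px).2.2) (hall _ kp') v h
  · rcases (hY _ v).1 hv with ⟨c, x, px, -, h⟩ | ⟨b, hr, j, hj, -, h⟩ | ⟨p', hp', -, h⟩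
    · exact Or.inl (Or.inl ((hP c x px).2.1 h))
    · exact Or.inl (hprot b hr j hj h)
    · exact Or.inr (mem_iUnion₂.2 ⟨p', hp', h⟩)
  · rw [disjoint_left]
    intro v hv hv'
    rcases (hY _ v).1 hv with ⟨c, x, px, kx, h⟩ | ⟨b, hr, j, hj, kx, h⟩ | ⟨p1, hp1, e, h⟩ <;>
      rcases (hY _ v).1 hv' with ⟨c', x', px', kx', h'⟩ | ⟨b', hr', j', hj', kx', h'⟩ |
        ⟨p2, hp2, e', h'⟩
    · have hx : x ≠ x' := fun e => hne (hKu _ _ x kx (e ▸ kx'))
      have := hR2 c ⟨x, px⟩ c' ⟨x', px'⟩ (by rw [hlab' c x px, hlab' c' x' px']; exact hx)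
      rw [hlab' c x px, hlab' c' x' px'] at this
      exact disjoint_left.1 (pz_disj this) h h'
    · exact (hb.sub b' hr' (hbody b' hr' j' hj' h')).2 ((hP c x px).2.1 h)
    · exact ((htr.conn p2 hp2).2.1 h').2 (Or.inl ((hP c x px).2.1 h))
    · exact (hb.sub b hr (hbody b hr j hj h)).2 ((hP c' x' px').2.1 h')
    · refine disjoint_left.1 (hb.dss b hr j (hj.trans_le (hlen b hr)) b' hr' j'
        (hj'.trans_le (hlen b' hr')) fun e => ?_) h h'
      obtain ⟨rfl, rfl⟩ := Prod.mk.inj e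
      exact hne (hKu _ _ _ kx kx')
    · exact ((htr.conn p2 hp2).2.1 h').2 (hprot b hr j hj h)
    · exact ((htr.conn p1 hp1).2.1 h).2 (Or.inl ((hP c' x' px').2.1 h'))
    · exact ((htr.conn p1 hp1).2.1 h).2 (hprot b' hr' j' hj' h')
    · refine disjoint_left.1 (htr.dis p1 hp1 p2 hp2 fun e0 => hne ?_).1 h h'
      rw [← e, ← e']
      refine (d4 p1 hp1 p2 hp2).2 ?_
      have := hhd p1 hp1 p2 hp2 e0
      unfold hd at this
      rw [this]
      exact Relation.EqvGen.refl _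

end Pool.Agent.MP_9d78a0_co.gm

end MrgPart2

-- ======== part 3: formerly Pool.Agent.MP_9d78a0_co.gm.OpRim
section MrgPart3

/-! New vertices of degree two that close corners. -/

set_option autoImplicit false

namespace Pool.Agent.MP_9d78a0_co.gm

open Set Function Relation
open Sum (inl inr)

namespace Rim

variable {Φ Ψ : Type} {M : FM Φ} {Q : Set Φ}

theorem ml {X : Set Φ} {Y : Set Ψ} {z : Φ} : (inl z : Φ ⊕ Ψ) ∈ inl '' X ∪ inr '' Y ↔ z ∈ X := by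
  simp

theorem mr {X : Set Φ} {Y : Set Ψ} {z : Ψ} : (inr z : Φ ⊕ Ψ) ∈ inl '' X ∪ inr '' Y ↔ z ∈ Y := by
  simp

theorem part {S : Set Φ} {r : Φ → Φ → Prop} (hS : S.Finite) (h : Sy S r) (t : Φ → Prop)
    (k : ∀ x ∈ S, ∀ y, r x y → t x → t y) :
    Sy {x | x ∈ S ∧ t x} r ∧ Sy {x | x ∈ S ∧ ¬ t x} r ∧
      nc r S = nc r {x | x ∈ S ∧ t x} + nc r {x | x ∈ S ∧ ¬ t x} := by
  have s : Sy {x | x ∈ S ∧ t x} r := fun x hx y e =>
    ⟨⟨(h x hx.1 y e).1, k x hx.1 y e hx.2⟩, (h x hx.1 y e).2⟩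
  have e : S \ {x | x ∈ S ∧ t x} = {x | x ∈ S ∧ ¬ t x} :=
    Set.ext fun x => ⟨fun q => ⟨q.1, fun m => q.2 ⟨q.1, m⟩⟩, fun q => ⟨q.1, fun m => q.2 m.2⟩⟩
  exact ⟨s, e ▸ h.diff s, e ▸ nc_split hS (fun _ q => q.1) s⟩

theorem proj {S : Set Φ} {S' : Set Ψ} {r : Φ → Φ → Prop} {r' : Ψ → Ψ → Prop} (π : Ψ → Φ)
    (j : Φ → Ψ) (hs : Sy S r) (hs' : Sy S' r') (hj : ∀ x ∈ S, j x ∈ S' ∧ π (j x) = x)
    (h1 : ∀ z ∈ S', ∀ w, r' z w → π w ∈ cl r (π z))
    (h2 : ∀ x ∈ S, ∀ y, r x y → j y ∈ cl r' (j x))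
    (h3 : ∀ z ∈ S', π z ∈ S ∧ z ∈ cl r' (j (π z))) :
    (∀ z ∈ S', ∀ w, w ∈ cl r' z ↔ w ∈ S' ∧ π w ∈ cl r (π z)) ∧ nc r' S' = nc r S := by
  obtain ⟨a, b⟩ := cl_proj π j hs hs' hj h1 h2 h3
  exact ⟨fun z hz w => ⟨fun k => ⟨hs'.sub hz k, (a z hz w (hs'.sub hz k)).1 k⟩,
    fun k => (a z hz w k.1).2 k.2⟩, b⟩

theorem nc_eq (Q : Set Φ) : nc (fun x y => y = x) Q = Q.ncard := by
  have e : ∀ x : Φ, cl (fun x y => y = x) x = {x} := fun x =>
    Subset.antisymm (fun _ k => cl_ind (P := fun y => y = x) rfl (fun _ _ _ p q => q.trans p) k)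
      (singleton_subset_iff.2 (cl_self _ _))
  unfold nc
  rw [funext e]
  exact ncard_image_of_injective Q singleton_injective

theorem sl {z : Φ} : inl z ∈ (M.rim Q).S ↔ z ∈ M.S := ml
theorem sr {f : Φ} {e s : Bool} : inr (f, e, s) ∈ (M.rim Q).S ↔ f ∈ Q := mr.trans (by simp)
theorem bl1 {z : Φ} (k : M.a z ∈ Q) : (M.rim Q).b (inl z) = inr (M.a z, false, true) := if_pos k
theorem bl0 {z : Φ} (k : M.a z ∉ Q) : (M.rim Q).b (inl z) = M.out Q (M.b z) := if_neg k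
theorem out1 {z : Φ} (k : M.a z ∈ Q) : M.out Q z = inr (M.a z, false, false) := if_pos k
theorem out0 {z : Φ} (k : M.a z ∉ Q) : M.out Q z = inl z := if_neg k
theorem bff (f : Φ) : (M.rim Q).b (inr (f, false, false)) = M.out Q (M.b (M.a f)) := rfl

theorem out_mem {z : Φ} (hz : z ∈ M.S) : M.out Q z ∈ (M.rim Q).S := by
  by_cases k : M.a z ∈ Q
  · rw [out1 k]; exact sr.2 k
  · rw [out0 k]; exact sl.2 hz

/-- the old flag at the same vertex, on the same outer face, next to a flag -/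
def pv (M : FM Φ) : Φ ⊕ Φ × Bool × Bool → Φ := Sum.elim id fun p => if p.2.1 then p.1 else M.a p.1
def pc : Φ ⊕ Φ × Bool × Bool → Φ := Sum.elim id Prod.fst

/-- flags at old vertices, flags on inner faces -/
def tv : Φ ⊕ Φ × Bool × Bool → Prop := Sum.elim (fun _ => True) fun p => p.2.1 = false
def tf (M : FM Φ) (Q : Set Φ) : Φ ⊕ Φ × Bool × Bool → Prop :=
  Sum.elim (fun z => z ∈ Q ∨ M.a z ∈ Q) fun p => p.2.2 = true

theorem tv_out (z : Φ) : tv (M.out Q z) := by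
  by_cases k : M.a z ∈ Q
  · rw [out1 k]; rfl
  · rw [out0 k]; trivial

theorem tf_out {z : Φ} (n : z ∉ Q) : ¬ tf M Q (M.out Q z) := by
  by_cases k : M.a z ∈ Q
  · rw [out1 k]; exact Bool.false_ne_true
  · rw [out0 k]; exact fun m => m.elim n k

/-- the relation of the regions -/
def rR (M : FM Φ) (U : Set Φ) (x y : Φ) : Prop := y = M.a x ∨ y = M.b x ∨ (x ∉ U ∧ y = M.c x)

theorem sR (h : M.Ok) {U : Set Φ} (hU : M.Es U) : Sy M.S (rR M U) := by
  rintro x hx y (rfl | rfl | ⟨k, rfl⟩)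
  · exact ⟨h.gk.am hx, Or.inl (h.gk.aa hx).symm⟩
  · exact ⟨h.gk.bm hx, Or.inr (Or.inl (h.gk.bb hx).symm)⟩
  · exact ⟨h.gk.cm hx, Or.inr (Or.inr ⟨fun m => k ((h.gk.es_c hU hx).1 m), (h.gk.cc hx).symm⟩)⟩

theorem rR_empty (M : FM Φ) : rR M ∅ = M.rC := by
  funext x y; simp [rR, FM.rC]

theorem es {U : Set Φ} (hU : M.Es U) : (M.rim Q).Es (inl '' U) := by
  refine ⟨fun _ ⟨x, k, e⟩ => e ▸ sl.2 (hU.1 k), ?_⟩
  rintro _ ⟨x, k, rfl⟩
  exact ⟨⟨_, (hU.2 x k).1, rfl⟩, _, (hU.2 x k).2, rfl⟩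

variable (h : M.Ok)
include h

theorem b_out {z : Φ} (hz : z ∈ M.S) : (M.rim Q).b (M.out Q z) = M.out Q (M.b z) := by
  by_cases k : M.a z ∈ Q
  · rw [out1 k, bff, h.gk.aa hz]
  · rw [out0 k, bl0 k]

theorem pv_out {z : Φ} (hz : z ∈ M.S) : pv M (M.out Q z) = z := by
  by_cases k : M.a z ∈ Q
  · rw [out1 k]; exact h.gk.aa hz
  · rw [out0 k]; rfl

/-- round an old corner -/
theorem walk {r : Φ ⊕ Φ × Bool × Bool → Φ ⊕ Φ × Bool × Bool → Prop}
    (h1 : ∀ w, r w ((M.rim Q).b w)) (h2 : ∀ p, r (inr p) ((M.rim Q).c (inr p))) {z : Φ}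
    (hz : z ∈ M.S) : inl (M.b z) ∈ cl r (inl z) := by
  have a1 : M.out Q z ∈ cl r (inl z) := by
    by_cases k : M.a z ∈ Q
    · rw [out1 k]
      exact cl_step (cl_one (bl1 k ▸ h1 (inl z))) (h2 _)
    · rw [out0 k]; exact cl_self _ _
  have a2 := cl_step a1 (h1 _)
  rw [b_out h hz] at a2
  by_cases k : M.a (M.b z) ∈ Q
  · rw [out1 k] at a2
    have := cl_step (cl_step a2 (h2 _)) (h1 _)
    rw [← h.gk.aa (h.gk.bm hz)]
    exact this
  · rwa [out0 k] at a2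

variable (hQ : M.Cs Q)
include hQ

theorem bla {f : Φ} (hf : f ∈ Q) : (M.rim Q).b (inl (M.a f)) = inr (f, false, true) := by
  rw [bl1 (by rwa [h.gk.aa (hQ.1 hf)]), h.gk.aa (hQ.1 hf)]

theorem outa {f : Φ} (hf : f ∈ Q) : M.out Q (M.a f) = inr (f, false, false) := by
  rw [out1 (by rwa [h.gk.aa (hQ.1 hf)]), h.gk.aa (hQ.1 hf)]

theorem bQ : Inv Q M.b := fun x k => ⟨hQ.2 x k, (h.ib x (hQ.1 k)).2⟩

theorem bn {z : Φ} (hz : z ∈ M.S) (n : z ∉ Q) : M.b z ∉ Q := fun m => n (h.gk.bb hz ▸ hQ.2 _ m)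

theorem kinds {P : Φ ⊕ Φ × Bool × Bool → Prop} (h1 : ∀ z ∈ M.S, P (M.out Q z))
    (h2 : ∀ f ∈ Q, P (inl (M.a f))) (h3 : ∀ f ∈ Q, P (inr (f, false, true)))
    (h4 : ∀ f ∈ Q, ∀ s, P (inr (f, true, s))) : ∀ w ∈ (M.rim Q).S, P w := by
  rintro (z | ⟨f, _ | _, s⟩) hw
  · by_cases k : M.a z ∈ Q
    · exact h.gk.aa (sl.1 hw) ▸ h2 _ k
    · exact out0 k ▸ h1 z (sl.1 hw)
  · cases s
    · exact outa h hQ (sr.1 hw) ▸ h1 _ (h.gk.am (hQ.1 (sr.1 hw)))
    · exact h3 f (sr.1 hw)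
  · exact h4 f (sr.1 hw) s

theorem ok : (M.rim Q).Ok := by
  refine ⟨(h.fin.image _).union (((h.fin.subset hQ.1).prod finite_univ).image _), ?_,
    kinds h hQ (fun z hz => ?_) (fun f hf => ?_) (fun f hf => ?_) fun f hf s => ?_, ?_, ?_⟩
  · rintro (z | ⟨f, e, s⟩) hw
    · have := h.ia z (sl.1 hw)
      exact ⟨sl.2 this.1, congrArg inl this.2.1, fun k => this.2.2 (Sum.inl.inj k)⟩
    · refine ⟨sr.2 (sr.1 hw), ?_, ?_⟩ <;> cases e <;> simp [FM.rim]
  · rw [b_out h hz, b_out h (h.gk.bm hz), h.gk.bb hz]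
    refine ⟨out_mem (h.gk.bm hz), rfl, fun k => (h.ib z hz).2.2 ?_⟩
    rw [← pv_out (Q := Q) h (h.gk.bm hz), k, pv_out h hz]
  · rw [bla h hQ hf]
    exact ⟨sr.2 hf, rfl, Sum.inr_ne_inl⟩
  · exact ⟨sl.2 (h.gk.am (hQ.1 hf)), bla h hQ hf, Sum.inl_ne_inr⟩
  · have := bQ h hQ f hf
    exact ⟨sr.2 this.1, congrArg (fun x => inr (x, true, s)) this.2.1,
      fun k => this.2.2 (congrArg pc k)⟩
  · rintro (z | ⟨f, e, s⟩) hw
    · have := h.ic z (sl.1 hw)
      exact ⟨sl.2 this.1, congrArg inl this.2.1, fun k => this.2.2 (Sum.inl.inj k)⟩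
    · refine ⟨sr.2 (sr.1 hw), ?_, ?_⟩ <;> cases s <;> simp [FM.rim]
  · rintro (z | ⟨f, e, s⟩) hw
    · have := h.ac z (sl.1 hw)
      exact ⟨congrArg inl this.1, fun k => this.2 (Sum.inl.inj k)⟩
    · refine ⟨rfl, ?_⟩
      cases s <;> simp [FM.rim]

theorem iso : M.Iso ((M.rim Q).sub (inl '' M.S)) inl := by
  have g := ok h hQ
  have e := es (Q := Q) h.gk.es_S
  refine ⟨Sum.inl_injective.injOn, rfl, fun _ _ => rfl, fun f hf => ?_, fun _ _ => rfl⟩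
  refine mate_eq g.fin g.ib (g.gk.sg FM.es_empty) e.1 (fun _ k => e.sg k) ⟨f, hf, rfl⟩
    ⟨_, h.gk.bm hf, rfl⟩ (walk h (fun _ => Or.inl rfl)
      (fun p => Or.inr ⟨by simp, (FM.sg_out (notMem_empty _)).symm⟩) hf)
    fun k => (h.ib f hf).2.2 (Sum.inl.inj k)

theorem regs {U : Set Φ} (hU : M.Es U) :
    (∀ z ∈ (M.rim Q).S, ∀ w, w ∈ cl (rR (M.rim Q) (inl '' U)) z ↔
      w ∈ (M.rim Q).S ∧ pc w ∈ cl (rR M U) (pc z)) ∧
      nc (rR (M.rim Q) (inl '' U)) (M.rim Q).S = nc (rR M U) M.S := by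
  have o : ∀ x z : Φ, z ∈ cl (rR M U) x → pc (M.out Q z) ∈ cl (rR M U) x := fun x z q => by
    by_cases k : M.a z ∈ Q
    · rw [out1 k]; exact cl_step q (Or.inl rfl)
    · rw [out0 k]; exact q
  refine proj pc inl (sR h hU) (sR (ok h hQ) (es hU)) (fun x k => ⟨sl.2 k, rfl⟩) ?_ ?_ ?_
  · rintro (z | ⟨f, e, s⟩) hz _ (rfl | rfl | ⟨k, rfl⟩)
    · exact cl_one (Or.inl rfl)
    · by_cases k : M.a z ∈ Q
      · rw [bl1 k]; exact cl_one (Or.inl rfl)
      · rw [bl0 k]; exact o _ _ (cl_one (Or.inr (Or.inl rfl)))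
    · exact cl_one (Or.inr (Or.inr ⟨fun m => k ⟨z, m, rfl⟩, rfl⟩))
    · exact cl_self _ _
    · cases e
      · cases s
        · exact o _ _ (cl_step (cl_one (Or.inl rfl)) (Or.inr (Or.inl rfl)))
        · exact cl_one (Or.inl rfl)
      · exact cl_one (Or.inr (Or.inl rfl))
    · exact cl_self _ _
  · rintro x hx _ (rfl | rfl | ⟨k, rfl⟩)
    · exact cl_one (Or.inl rfl)
    · exact walk h (fun _ => Or.inr (Or.inl rfl)) (fun p => Or.inr (Or.inr ⟨by simp, rfl⟩)) hx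
    · exact cl_one (Or.inr (Or.inr ⟨by simpa using k, rfl⟩))
  · rintro (z | ⟨f, e, s⟩) hz
    · exact ⟨sl.1 hz, cl_self _ _⟩
    · have hf := sr.1 hz
      have a1 : inr (f, false, true) ∈ cl (rR (M.rim Q) (inl '' U)) (inl f) :=
        cl_step (cl_one (Or.inl rfl)) (Or.inr (Or.inl (bla h hQ hf).symm))
      have a2 : inr (f, false, s) ∈ cl (rR (M.rim Q) (inl '' U)) (inl f) := by
        cases s
        · exact cl_step a1 (Or.inr (Or.inr ⟨by simp, rfl⟩))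
        · exact a1
      refine ⟨hQ.1 hf, ?_⟩
      cases e
      · exact a2
      · exact cl_step a2 (Or.inl rfl)

theorem partV : Sy {x | x ∈ (M.rim Q).S ∧ tv x} (M.rim Q).rV ∧
    Sy {x | x ∈ (M.rim Q).S ∧ ¬ tv x} (M.rim Q).rV ∧ nc (M.rim Q).rV (M.rim Q).S =
      nc (M.rim Q).rV {x | x ∈ (M.rim Q).S ∧ tv x} +
        nc (M.rim Q).rV {x | x ∈ (M.rim Q).S ∧ ¬ tv x} := by
  refine part (ok h hQ).fin (ok h hQ).gk.sV tv ?_
  rintro (z | ⟨f, e, s⟩) - _ (rfl | rfl) t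
  · by_cases k : M.a z ∈ Q
    · rw [bl1 k]; rfl
    · rw [bl0 k]; exact tv_out _
  · trivial
  · obtain rfl : e = false := t
    cases s
    · exact tv_out _
    · trivial
  · exact t

theorem oldV : (∀ z ∈ {x | x ∈ (M.rim Q).S ∧ tv x}, ∀ w, w ∈ cl (M.rim Q).rV z ↔
      w ∈ {x | x ∈ (M.rim Q).S ∧ tv x} ∧ pv M w ∈ cl M.rV (pv M z)) ∧
      nc (M.rim Q).rV {x | x ∈ (M.rim Q).S ∧ tv x} = nc M.rV M.S := by
  refine proj (pv M) inl h.gk.sV (partV h hQ).1 (fun x k => ⟨⟨sl.2 k, trivial⟩, rfl⟩) ?_ ?_ ?_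
  · rintro (z | ⟨f, e, s⟩) ⟨hz, t⟩ _ (rfl | rfl)
    · by_cases k : M.a z ∈ Q
      · rw [bl1 k]
        show M.a (M.a z) ∈ cl M.rV z
        rw [h.gk.aa (sl.1 hz)]; exact cl_self _ _
      · rw [bl0 k, pv_out h (h.gk.bm (sl.1 hz))]; exact cl_one (Or.inl rfl)
    · exact cl_one (Or.inr rfl)
    · obtain rfl : e = false := t
      cases s
      · rw [bff, pv_out h (h.gk.bm (h.gk.am (hQ.1 (sr.1 hz))))]; exact cl_one (Or.inl rfl)
      · exact cl_self _ _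
    · exact cl_self _ _
  · rintro x hx _ (rfl | rfl)
    · exact walk h (fun _ => Or.inl rfl) (fun p => Or.inr rfl) hx
    · exact cl_one (Or.inr rfl)
  · rintro (z | ⟨f, e, s⟩) ⟨hz, t⟩
    · exact ⟨sl.1 hz, cl_self _ _⟩
    · obtain rfl : e = false := t
      have hf := sr.1 hz
      have a1 : inr (f, false, true) ∈ cl (M.rim Q).rV (inl (M.a f)) :=
        cl_one (Or.inl (bla h hQ hf).symm)
      refine ⟨h.gk.am (hQ.1 hf), ?_⟩
      cases s
      · exact cl_step a1 (Or.inr rfl)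
      · exact a1

theorem newV : (∀ z ∈ {x | x ∈ (M.rim Q).S ∧ ¬ tv x}, ∀ w, w ∈ cl (M.rim Q).rV z ↔
      w ∈ {x | x ∈ (M.rim Q).S ∧ ¬ tv x} ∧ pc w ∈ cl (fun x y => y = M.b x) (pc z)) ∧
      nc (M.rim Q).rV {x | x ∈ (M.rim Q).S ∧ ¬ tv x} = nc (fun x y => y = M.b x) Q := by
  refine proj pc (fun f => inr (f, true, true)) (bQ h hQ).sy1 (partV h hQ).2.1
    (fun x k => ⟨⟨sr.2 k, by simp [tv]⟩, rfl⟩) ?_ ?_ ?_
  · rintro (z | ⟨f, _ | _, s⟩) ⟨hz, t⟩ _ (rfl | rfl)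
    · exact (t trivial).elim
    · exact (t trivial).elim
    · exact (t rfl).elim
    · exact (t rfl).elim
    · exact cl_one rfl
    · exact cl_self _ _
  · rintro x hx _ rfl
    exact cl_one (Or.inl rfl)
  · rintro (z | ⟨f, _ | _, s⟩) ⟨hz, t⟩
    · exact (t trivial).elim
    · exact (t rfl).elim
    · refine ⟨sr.1 hz, ?_⟩
      cases s
      · exact cl_one (Or.inr rfl)
      · exact cl_self _ _

theorem cntE : nc (M.rim Q).rE (M.rim Q).S = nc M.rE M.S + Q.ncard := by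
  obtain ⟨s1, s2, e⟩ := part (ok h hQ).fin (ok h hQ).gk.sE (fun w => w.isLeft = true) (by
    rintro (z | p) - _ (rfl | rfl) t <;> exact t)
  rw [e, ← nc_eq Q]
  congr 1
  · refine (proj pc inl h.gk.sE s1 (fun x k => ⟨⟨sl.2 k, rfl⟩, rfl⟩) ?_ ?_ ?_).2
    · rintro (z | p) ⟨hz, t⟩ _ (rfl | rfl)
      · exact cl_one (Or.inl rfl)
      · exact cl_one (Or.inr rfl)
      · exact cl_self _ _
      · exact cl_self _ _
    · rintro x hx _ (rfl | rfl)
      · exact cl_one (Or.inl rfl)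
      · exact cl_one (Or.inr rfl)
    · rintro (z | p) ⟨hz, t⟩
      · exact ⟨sl.1 hz, cl_self _ _⟩
      · exact (Bool.false_ne_true t).elim
  · refine (proj pc (fun f => inr (f, true, true)) (by rintro x k _ rfl; exact ⟨k, rfl⟩) s2
      (fun x k => ⟨⟨sr.2 k, Bool.false_ne_true⟩, rfl⟩) ?_ ?_ ?_).2
    · rintro (z | p) ⟨hz, t⟩ _ (rfl | rfl)
      · exact (t rfl).elim
      · exact (t rfl).elim
      · exact cl_self _ _
      · exact cl_self _ _
    · rintro x hx _ rfl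
      exact cl_self _ _
    · rintro (z | ⟨f, e, s⟩) ⟨hz, t⟩
      · exact (t rfl).elim
      · refine ⟨sr.1 hz, ?_⟩
        cases e <;> cases s
        · exact cl_step (cl_one (Or.inl rfl)) (Or.inr rfl)
        · exact cl_one (Or.inl rfl)
        · exact cl_one (Or.inr rfl)
        · exact cl_self _ _

variable (ha : ∀ x ∈ Q, M.a x ∉ Q)
include ha

omit h in
theorem blq {f : Φ} (hf : f ∈ Q) : (M.rim Q).b (inl f) = inl (M.b f) := by
  rw [bl0 (ha f hf), out0 (ha _ (hQ.2 f hf))]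

theorem partF : Sy {x | x ∈ (M.rim Q).S ∧ tf M Q x} (M.rim Q).rF ∧
    Sy {x | x ∈ (M.rim Q).S ∧ ¬ tf M Q x} (M.rim Q).rF ∧ nc (M.rim Q).rF (M.rim Q).S =
      nc (M.rim Q).rF {x | x ∈ (M.rim Q).S ∧ tf M Q x} +
        nc (M.rim Q).rF {x | x ∈ (M.rim Q).S ∧ ¬ tf M Q x} := by
  refine part (ok h hQ).fin (ok h hQ).gk.sF (tf M Q) ?_
  rintro (z | ⟨f, e, s⟩) hz _ (rfl | rfl) t
  · exact t.symm.imp id fun k => (h.gk.aa (sl.1 hz)).symm ▸ k
  · rcases t with k | k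
    · rw [blq hQ ha k]; exact Or.inl (hQ.2 z k)
    · rw [bl1 k]; rfl
  · exact t
  · obtain rfl : s = true := t
    cases e
    · exact Or.inr ((h.gk.aa (hQ.1 (sr.1 hz))).symm ▸ sr.1 hz)
    · rfl

open Classical in
/-- the corner of a flag of an inner face, the outer copy of a flag -/
noncomputable def pi (M : FM Φ) (Q : Set Φ) : Φ ⊕ Φ × Bool × Bool → Φ :=
  Sum.elim (fun z => if z ∈ Q then z else M.a z) Prod.fst

open Classical in
noncomputable def jo (M : FM Φ) (Q : Set Φ) (z : Φ) : Φ ⊕ Φ × Bool × Bool :=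
  if z ∈ Q then inr (z, true, false) else M.out Q z

omit h hQ ha in
theorem pi1 {z : Φ} (k : z ∈ Q) : pi M Q (inl z) = z := if_pos k
omit h hQ ha in
theorem pi0 {z : Φ} (k : z ∉ Q) : pi M Q (inl z) = M.a z := if_neg k
omit h hQ ha in
theorem jo1 {z : Φ} (k : z ∈ Q) : jo M Q z = inr (z, true, false) := if_pos k
omit h hQ ha in
theorem jo0 {z : Φ} (k : z ∉ Q) : jo M Q z = M.out Q z := if_neg k

theorem pia {f : Φ} (k : f ∈ Q) : pi M Q (inl (M.a f)) = f := by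
  rw [pi0 (ha f k), h.gk.aa (hQ.1 k)]

theorem inF : (∀ z ∈ {x | x ∈ (M.rim Q).S ∧ tf M Q x}, ∀ w, w ∈ cl (M.rim Q).rF z ↔
      w ∈ {x | x ∈ (M.rim Q).S ∧ tf M Q x} ∧ pi M Q w ∈ cl (fun x y => y = M.b x) (pi M Q z)) ∧
      nc (M.rim Q).rF {x | x ∈ (M.rim Q).S ∧ tf M Q x} = nc (fun x y => y = M.b x) Q := by
  refine proj (pi M Q) inl (bQ h hQ).sy1 (partF h hQ ha).1
    (fun x k => ⟨⟨sl.2 (hQ.1 k), Or.inl k⟩, pi1 k⟩) ?_ ?_ ?_
  · rintro (z | ⟨f, e, s⟩) ⟨hz, t⟩ _ (rfl | rfl)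
    · rcases t with k | k
      · rw [pi1 k]; exact (pia h hQ ha k).symm ▸ cl_self _ z
      · rw [pi0 fun m => ha z m k]; exact (pi1 k).symm ▸ cl_self _ (M.a z)
    · rcases t with k | k
      · rw [blq hQ ha k, pi1 k, pi1 (hQ.2 z k)]; exact cl_one rfl
      · rw [bl1 k, pi0 fun m => ha z m k]; exact cl_self _ _
    · exact cl_self _ _
    · obtain rfl : s = true := t
      cases e
      · exact (pia h hQ ha (sr.1 hz)).symm ▸ cl_self _ f
      · exact cl_one rfl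
  · rintro x hx _ rfl
    exact cl_one (Or.inr (blq hQ ha hx).symm)
  · rintro (z | ⟨f, e, s⟩) ⟨hz, t⟩
    · rcases t with k | k
      · rw [pi1 k]; exact ⟨k, cl_self _ _⟩
      · rw [pi0 fun m => ha z m k]
        exact ⟨k, cl_one (Or.inl (congrArg inl (h.gk.aa (sl.1 hz)).symm))⟩
    · obtain rfl : s = true := t
      have hf := sr.1 hz
      have a1 : inr (f, false, true) ∈ cl (M.rim Q).rF (inl f) :=
        cl_step (cl_one (Or.inl rfl)) (Or.inr (bla h hQ hf).symm)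
      refine ⟨hf, ?_⟩
      cases e
      · exact a1
      · exact cl_step a1 (Or.inl rfl)

theorem outF : (∀ z ∈ {x | x ∈ (M.rim Q).S ∧ ¬ tf M Q x}, ∀ w, w ∈ cl (M.rim Q).rF z ↔
      w ∈ {x | x ∈ (M.rim Q).S ∧ ¬ tf M Q x} ∧ pv M w ∈ cl M.rF (pv M z)) ∧
      nc (M.rim Q).rF {x | x ∈ (M.rim Q).S ∧ ¬ tf M Q x} = nc M.rF M.S := by
  refine proj (pv M) (jo M Q) h.gk.sF (partF h hQ ha).2.1 (fun x hx => ?_) ?_ ?_ ?_
  · by_cases k : x ∈ Q
    · rw [jo1 k]; exact ⟨⟨sr.2 k, Bool.false_ne_true⟩, rfl⟩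
    · rw [jo0 k]; exact ⟨⟨out_mem hx, tf_out k⟩, pv_out h hx⟩
  · rintro (z | ⟨f, e, _ | _⟩) ⟨hz, t⟩ _ (rfl | rfl)
    · exact cl_one (Or.inl rfl)
    · rw [bl0 fun m => t (Or.inr m), pv_out h (h.gk.bm (sl.1 hz))]; exact cl_one (Or.inr rfl)
    · cases e
      · exact cl_one (Or.inl (h.gk.aa (hQ.1 (sr.1 hz))).symm)
      · exact cl_one (Or.inl rfl)
    · cases e
      · rw [bff, pv_out h (h.gk.bm (h.gk.am (hQ.1 (sr.1 hz))))]; exact cl_one (Or.inr rfl)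
      · exact cl_one (Or.inr rfl)
    · exact (t rfl).elim
    · exact (t rfl).elim
  · rintro x hx _ (rfl | rfl)
    · refine cl_one (Or.inl ?_)
      by_cases k : x ∈ Q
      · rw [jo1 k, jo0 (ha x k), outa h hQ k]; rfl
      · by_cases q : M.a x ∈ Q
        · rw [jo0 k, jo1 q, out1 q]; rfl
        · rw [jo0 k, jo0 q, out0 q, out0 (by rwa [h.gk.aa hx])]; rfl
    · refine cl_one (Or.inr ?_)
      by_cases k : x ∈ Q
      · rw [jo1 k, jo1 (hQ.2 x k)]; rfl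
      · rw [jo0 k, jo0 (bn h hQ hx k), b_out h hx]
  · rintro (z | ⟨f, e, _ | _⟩) ⟨hz, t⟩
    · refine ⟨sl.1 hz, ?_⟩
      show _ ∈ cl _ (jo M Q z)
      rw [jo0 fun m => t (Or.inl m), out0 fun m => t (Or.inr m)]; exact cl_self _ _
    · have hf := sr.1 hz
      cases e
      · refine ⟨h.gk.am (hQ.1 hf), ?_⟩
        show _ ∈ cl _ (jo M Q (M.a f))
        rw [jo0 (ha f hf), outa h hQ hf]; exact cl_self _ _
      · refine ⟨hQ.1 hf, ?_⟩
        show _ ∈ cl _ (jo M Q f)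
        rw [jo1 hf]; exact cl_self _ _
    · exact (t rfl).elim

theorem eg : (M.rim Q).eg = M.eg := by
  have e1 := (regs h hQ FM.es_empty).2
  rw [image_empty, rR_empty, rR_empty] at e1
  have e2 := nc_pair (h.fin.subset hQ.1) (bQ h hQ)
  rw [FM.eg_eq, FM.eg_eq, e1, (partV h hQ).2.2, (oldV h hQ).2, (newV h hQ).2, cntE h hQ,
    (partF h hQ ha).2.2, (inF h hQ ha).2, (outF h hQ ha).2]
  omega

omit ha in
theorem reg {U : Set Φ} (hU : M.Es U) {x : Φ} (hx : x ∈ M.S) :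
    (M.rim Q).reg (inl '' U) (inl x) =
      inl '' M.reg U x ∪ inr '' ((Q ∩ M.reg U x) ×ˢ univ) := by
  ext w
  refine ((regs h hQ hU).1 _ (sl.2 hx) w).trans ?_
  rcases w with z | ⟨f, e, s⟩
  · rw [ml, sl]; exact ⟨fun k => k.2, fun k => ⟨(sR h hU).sub hx k, k⟩⟩
  · rw [mr, sr]; exact ⟨fun k => ⟨k, trivial⟩, fun k => k.1⟩

omit ha in
theorem con (k : M.Con) : (M.rim Q).Con := by
  have e1 := (regs h hQ FM.es_empty).1
  rw [image_empty, rR_empty, rR_empty] at e1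
  have m : ∀ w ∈ (M.rim Q).S, pc w ∈ M.S := by
    rintro (z | ⟨f, e, s⟩) hw
    · exact sl.1 hw
    · exact hQ.1 (sr.1 hw)
  exact fun z hz w hw => (e1 z hz w).2 ⟨hw, k _ (m z hz) _ (m w hw)⟩

omit ha in
theorem vo1 {x : Φ} (hx : x ∈ M.S) : (M.rim Q).vo (inl x) =
    inl '' M.vo x ∪ inr '' ((Q ∩ M.a ⁻¹' M.vo x) ×ˢ {false} ×ˢ univ) := by
  ext w
  refine ((oldV h hQ).1 _ ⟨sl.2 hx, trivial⟩ w).trans ?_
  rcases w with z | ⟨f, e, s⟩
  · rw [ml]; exact ⟨fun k => k.2, fun k => ⟨⟨sl.2 (h.gk.sV.sub hx k), trivial⟩, k⟩⟩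
  · rw [mr]
    constructor
    · rintro ⟨⟨k, t⟩, q⟩
      obtain rfl : e = false := t
      exact ⟨⟨sr.1 k, q⟩, rfl, trivial⟩
    · rintro ⟨k, t, -⟩
      obtain rfl : e = false := t
      exact ⟨⟨sr.2 k.1, rfl⟩, k.2⟩

omit ha in
theorem vo2 {f : Φ} (hf : f ∈ Q) (s : Bool) : (M.rim Q).vo (inr (f, true, s)) =
    inr '' (({f, M.b f} : Set Φ) ×ˢ {true} ×ˢ univ) := by
  ext w
  refine ((newV h hQ).1 _ ⟨sr.2 hf, by simp [tv]⟩ w).trans ?_
  rw [show pc (inr (f, true, s)) = f from rfl, (bQ h hQ).cl1 hf]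
  rcases w with z | ⟨g, e, t⟩
  · exact ⟨fun k => (k.1.2 trivial).elim, fun k => by simp at k⟩
  · rw [Sum.inr_injective.mem_set_image]
    constructor
    · rintro ⟨⟨-, k⟩, q⟩
      exact ⟨q, eq_true_of_ne_false k, trivial⟩
    · rintro ⟨k, q, -⟩
      obtain rfl : e = true := q
      refine ⟨⟨sr.2 ?_, by simp [tv]⟩, k⟩
      rcases k with rfl | rfl
      · exact hf
      · exact hQ.2 f hf

omit ha in
theorem vo4 {f : Φ} (hf : f ∈ Q) (s : Bool) : ((M.rim Q).vo (inr (f, true, s))).ncard = 4 := by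
  rw [vo2 h hQ hf, ncard_image_of_injective _ Sum.inr_injective, ncard_prod, ncard_prod,
    ncard_pair (bQ h hQ f hf).2.2.symm, ncard_singleton, ncard_univ]
  simp

theorem quad {f : Φ} (hf : f ∈ Q) : ((M.rim Q).b ∘ (M.rim Q).a)^[4] (inl f) = inl f := by
  have g := hQ.2 f hf
  have e1 : ((M.rim Q).b ∘ (M.rim Q).a) (inl f) = inr (f, false, true) := bla h hQ hf
  have e2 : ((M.rim Q).b ∘ (M.rim Q).a) (inr (f, false, true)) = inr (M.b f, true, true) := rfl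
  have e3 : ((M.rim Q).b ∘ (M.rim Q).a) (inr (M.b f, true, true)) = inl (M.a (M.b f)) := rfl
  have e4 : ((M.rim Q).b ∘ (M.rim Q).a) (inl (M.a (M.b f))) = inl f := by
    show (M.rim Q).b (inl (M.a (M.a (M.b f)))) = _
    rw [h.gk.aa (hQ.1 g), blq hQ ha g, h.gk.bb (hQ.1 hf)]
  show ((M.rim Q).b ∘ (M.rim Q).a) (((M.rim Q).b ∘ (M.rim Q).a) (((M.rim Q).b ∘ (M.rim Q).a)
    (((M.rim Q).b ∘ (M.rim Q).a) (inl f)))) = _
  rw [e1, e2, e3, e4]

theorem fo1 {f : Φ} (hf : f ∈ Q) : (M.rim Q).fo (inl f) =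
    inl '' {f, M.a f, M.b f, M.a (M.b f)} ∪ inr '' (({f, M.b f} : Set Φ) ×ˢ univ ×ˢ {true}) := by
  have g := hQ.2 f hf
  ext w
  refine ((inF h hQ ha).1 _ ⟨sl.2 (hQ.1 hf), Or.inl hf⟩ w).trans ?_
  rw [pi1 hf, (bQ h hQ).cl1 hf]
  rcases w with z | ⟨x, e, t⟩
  · rw [ml]
    constructor
    · rintro ⟨⟨k, m | m⟩, q⟩
      · rw [pi1 m] at q
        exact q.imp id fun q => Or.inr (Or.inl q)
      · rw [pi0 fun n => ha z n m] at q
        rw [← h.gk.aa (sl.1 k)]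
        exact Or.inr (q.imp (congrArg M.a) fun q => Or.inr (congrArg M.a q))
    · have t1 : ∀ x ∈ Q, inl x ∈ {x | x ∈ (M.rim Q).S ∧ tf M Q x} := fun x k =>
        ⟨sl.2 (hQ.1 k), Or.inl k⟩
      have t2 : ∀ x ∈ Q, inl (M.a x) ∈ {x | x ∈ (M.rim Q).S ∧ tf M Q x} := fun x k =>
        ⟨sl.2 (h.gk.am (hQ.1 k)), Or.inr ((h.gk.aa (hQ.1 k)).symm ▸ k)⟩
      rintro (rfl | rfl | rfl | rfl)
      · exact ⟨t1 _ hf, Or.inl (pi1 hf)⟩
      · exact ⟨t2 _ hf, Or.inl (pia h hQ ha hf)⟩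
      · exact ⟨t1 _ g, Or.inr (pi1 g)⟩
      · exact ⟨t2 _ g, Or.inr (pia h hQ ha g)⟩
  · rw [mr]
    refine ⟨fun k => ⟨k.2, trivial, k.1.2⟩, fun k => ⟨⟨sr.2 ?_, k.2.2⟩, k.1⟩⟩
    rcases k.1 with q | q
    · exact (show x = f from q) ▸ hf
    · exact (show x = M.b f from q) ▸ g

theorem fo2 {x : Φ} (hx : x ∈ M.S) (n1 : x ∉ Q) (n2 : M.a x ∉ Q) : (M.rim Q).fo (inl x) =
    inl '' (M.fo x \ (Q ∪ M.a ⁻¹' Q)) ∪ inr '' ((Q ∩ M.fo x) ×ˢ univ ×ˢ {false}) := by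
  ext w
  refine ((outF h hQ ha).1 _ ⟨sl.2 hx, fun m => m.elim n1 n2⟩ w).trans ?_
  rcases w with z | ⟨f, e, s⟩
  · rw [ml]
    exact ⟨fun k => ⟨k.2, k.1.2⟩, fun k => ⟨⟨sl.2 (h.gk.sF.sub hx k.1), k.2⟩, k.1⟩⟩
  · rw [mr]
    have t : f ∈ Q → (pv M (inr (f, e, s)) ∈ cl M.rF x ↔ f ∈ cl M.rF x) := fun k => by
      cases e
      · exact ⟨fun q => cl_step q (Or.inl (h.gk.aa (hQ.1 k)).symm), fun q => cl_step q (Or.inl rfl)⟩
      · rfl
    constructor
    · rintro ⟨⟨k, m⟩, q⟩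
      exact ⟨⟨sr.1 k, (t (sr.1 k)).1 q⟩, trivial, eq_false_of_ne_true m⟩
    · rintro ⟨k, -, m⟩
      obtain rfl : s = false := m
      exact ⟨⟨sr.2 k.1, Bool.false_ne_true⟩, (t k.1).2 k.2⟩

omit ha in
theorem ori1 {o : Φ → Prop} (k : M.Ori o) :
    (M.rim Q).Ori (Sum.elim o fun p => if p.2.1 = p.2.2 then ¬ o p.1 else o p.1) := by
  set o' : Φ ⊕ Φ × Bool × Bool → Prop :=
    Sum.elim o fun p => if p.2.1 = p.2.2 then ¬ o p.1 else o p.1 with ho
  have t : ∀ z ∈ M.S, o' (M.out Q z) ↔ o z := fun z hz => by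
    by_cases q : M.a z ∈ Q
    · rw [out1 q]
      show ¬ o (M.a z) ↔ _
      rw [(k z hz).1, not_not]
    · rw [out0 q]; rfl
  have kb : ∀ w ∈ (M.rim Q).S, o' ((M.rim Q).b w) ↔ ¬ o' w := by
    refine kinds h hQ (fun z hz => ?_) (fun f hf => ?_) (fun f hf => ?_) fun f hf s => ?_
    · rw [b_out h hz, t _ (h.gk.bm hz), t _ hz]; exact (k z hz).2.1
    · rw [bla h hQ hf]
      show o f ↔ ¬ o (M.a f)
      rw [(k f (hQ.1 hf)).1, not_not]
    · exact (k f (hQ.1 hf)).1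
    · cases s
      · exact (k f (hQ.1 hf)).2.1
      · exact not_congr (k f (hQ.1 hf)).2.1
  intro w hw
  refine ⟨?_, kb w hw, ?_⟩
  · rcases w with z | ⟨f, _ | _, _ | _⟩
    · exact (k z (sl.1 hw)).1
    · exact not_not.symm
    · rfl
    · rfl
    · exact not_not.symm
  · rcases w with z | ⟨f, _ | _, _ | _⟩
    · exact (k z (sl.1 hw)).2.2
    · exact not_not.symm
    · rfl
    · rfl
    · exact not_not.symm

omit ha in
theorem ori2 {o : Φ ⊕ Φ × Bool × Bool → Prop} (k : (M.rim Q).Ori o) : M.Ori (o ∘ inl) := by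
  have g := ok h hQ
  refine (iso h hQ).ori fun w hw => ?_
  have m := (es (Q := Q) h.gk.es_S).1 hw
  exact ⟨(k w m).1, mate_ori g.ib (g.gk.sg FM.es_empty) (fun x q => (k x q).2.1)
    (fun x q => by rw [FM.sg_out (notMem_empty _)]; exact (k x q).2.2) m, (k w m).2.2⟩

omit ha in
theorem lbl {V : Type} {vx nm : Φ → V} (hl : M.Lbl vx)
    (hn : ∀ x ∈ Q, ∀ y ∈ Q, nm x = nm y ↔ y = x ∨ y = M.b x) (hv : ∀ x ∈ Q, nm x ∉ vx '' M.S) :
    (M.rim Q).Lbl (Sum.elim vx fun p => if p.2.1 then nm p.1 else vx (M.a p.1)) := by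
  set wx : Φ ⊕ Φ × Bool × Bool → V :=
    Sum.elim vx fun p => if p.2.1 then nm p.1 else vx (M.a p.1) with hw
  have t1 : ∀ w ∈ (M.rim Q).S, tv w → pv M w ∈ M.S ∧ wx w = vx (pv M w) := by
    rintro (z | ⟨f, e, s⟩) k t
    · exact ⟨sl.1 k, rfl⟩
    · obtain rfl : e = false := t
      exact ⟨h.gk.am (hQ.1 (sr.1 k)), rfl⟩
  have t2 : ∀ w ∈ (M.rim Q).S, ¬ tv w → pc w ∈ Q ∧ wx w = nm (pc w) := by
    rintro (z | ⟨f, _ | _, s⟩) k t
    · exact (t trivial).elim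
    · exact (t rfl).elim
    · exact ⟨sr.1 k, rfl⟩
  intro z hz w hw
  by_cases p : tv z
  · refine Iff.trans ?_ ((oldV h hQ).1 z ⟨hz, p⟩ w).symm
    obtain ⟨a1, a2⟩ := t1 z hz p
    by_cases q : tv w
    · obtain ⟨b1, b2⟩ := t1 w hw q
      rw [a2, b2, hl _ a1 _ b1]
      exact ⟨fun k => ⟨⟨hw, q⟩, k⟩, fun k => k.2⟩
    · obtain ⟨b1, b2⟩ := t2 w hw q
      rw [a2, b2]
      exact ⟨fun k => (hv _ b1 ⟨_, a1, k⟩).elim, fun k => (q k.1.2).elim⟩
  · refine Iff.trans ?_ ((newV h hQ).1 z ⟨hz, p⟩ w).symm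
    obtain ⟨a1, a2⟩ := t2 z hz p
    by_cases q : tv w
    · obtain ⟨b1, b2⟩ := t1 w hw q
      rw [a2, b2]
      exact ⟨fun k => (hv _ a1 ⟨_, b1, k.symm⟩).elim, fun k => (k.1.2 q).elim⟩
    · obtain ⟨b1, b2⟩ := t2 w hw q
      rw [a2, b2, hn _ a1 _ b1, (bQ h hQ).cl1 a1]
      exact ⟨fun k => ⟨⟨hw, q⟩, k⟩, fun k => k.2⟩

end Rim

open Rim in
theorem rimS : RimS := fun _ _ _ h hQ ha =>
  ⟨ok h hQ, eg h hQ ha, con h hQ, es h.gk.es_S, iso h hQ, fun _ k => vo1 h hQ k,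
    fun _ k s => ⟨vo2 h hQ k s, vo4 h hQ k s⟩,
    fun _ k => ⟨quad h hQ ha k, congrArg _ (bla h hQ k), blq hQ ha k, fo1 h hQ ha k⟩,
    fun _ k => fo2 h hQ ha k, fun _ hU _ k => reg h hQ hU k, fun _ => ori1 h hQ,
    fun _ => ori2 h hQ, fun _ _ _ => lbl h hQ⟩

end Pool.Agent.MP_9d78a0_co.gm

end MrgPart3

-- marker of a merged file
example : 731051 + 754835 = 731051 + 754835 := rfl
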