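import Pool.Agent.MP_9d78a0_co.gm.CExt

/-! Maps whose graph is a grid: almost all faces are unit squares. -/

set_option autoImplicit false

namespace Pool.Agent.MP_9d78a0_co.gm

open Set Function Relation Cy fb

theorem ncard_image_le_of {α β γ : Type} {S : Set α} (hS : S.Finite) {φ : α → β} {ψ : α → γ}
    (h : ∀ x ∈ S, ∀ y ∈ S, φ x = φ y → ψ x = ψ y) : (ψ '' S).ncard ≤ (φ '' S).ncard := by
  rcases S.eq_empty_or_nonempty with rfl | ⟨x0, -⟩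
  · simp
  have : Nonempty α := ⟨x0⟩
  refine (ncard_le_ncard ?_ ((hS.image φ).image (ψ ∘ invFunOn φ S))).trans
    (ncard_image_le (hS.image φ))
  rintro _ ⟨x, hx, rfl⟩
  exact ⟨φ x, ⟨x, hx, rfl⟩, h _ (invFunOn_mem ⟨x, hx, rfl⟩) x hx (invFunOn_eq ⟨x, hx, rfl⟩)⟩

/-- a potential on a block of the grid -/
theorem grid_pot (w : ℕ × ℕ → ℕ × ℕ → ZMod 2) (hw : ∀ p q, w p q = w q p) (i0 j0 s : ℕ)
    (h : ∀ r < s, ∀ c < s, w (i0 + r, j0 + c) (i0 + r + 1, j0 + c) +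
      w (i0 + r + 1, j0 + c) (i0 + r + 1, j0 + c + 1) +
      w (i0 + r + 1, j0 + c + 1) (i0 + r, j0 + c + 1) +
      w (i0 + r, j0 + c + 1) (i0 + r, j0 + c) = 0) :
    ∃ P : ℕ × ℕ → ZMod 2, ∀ p q : ℕ × ℕ, gridN.Adj p q → i0 ≤ p.1 → p.1 ≤ i0 + s → j0 ≤ p.2 →
      p.2 ≤ j0 + s → i0 ≤ q.1 → q.1 ≤ i0 + s → j0 ≤ q.2 → q.2 ≤ j0 + s → w p q = P p + P q := by
  let Q : ℕ → ℕ → ZMod 2 := fun r c => ∑ i ∈ Finset.range r, w (i0 + i, j0) (i0 + i + 1, j0) +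
    ∑ j ∈ Finset.range c, w (i0 + r, j0 + j) (i0 + r, j0 + j + 1)
  have z : ∀ a b c : ZMod 2, c = a + b + (a + (b + c)) := by decide
  have h1 : ∀ r c, w (i0 + r, j0 + c) (i0 + r, j0 + c + 1) = Q r c + Q r (c + 1) := fun r c => by
    simp only [Q, Finset.sum_range_succ]
    exact z _ _ _
  have h2 : ∀ r < s, ∀ c ≤ s, w (i0 + r, j0 + c) (i0 + r + 1, j0 + c) = Q r c + Q (r + 1) c := by
    intro r hr c hc
    induction c with
    | zero =>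
      simp only [Q, Finset.sum_range_succ, Finset.range_zero, Finset.sum_empty, add_zero]
      exact (by decide : ∀ a b : ZMod 2, b = a + (a + b)) _ _
    | succ c ih =>
      have k := h r hr c hc
      rw [ih (by omega), hw (_, j0 + c + 1) (_, j0 + c + 1), hw (_, j0 + c + 1) (_, j0 + c), h1,
        add_assoc i0, h1, ← add_assoc i0] at k
      rw [← add_assoc j0]
      revert k
      generalize w _ _ = x
      exact (by decide : ∀ a b c d x : ZMod 2, a + b + (b + d) + x + (a + c) = 0 → x = c + d) _ _ _ _ x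
  have key : ∀ p q : ℕ × ℕ, (q = (p.1 + 1, p.2) ∨ q = (p.1, p.2 + 1)) → i0 ≤ p.1 → j0 ≤ p.2 →
      q.1 ≤ i0 + s → q.2 ≤ j0 + s → w p q = Q (p.1 - i0) (p.2 - j0) + Q (q.1 - i0) (q.2 - j0) := by
    rintro ⟨x, y⟩ q hq a b c d
    obtain ⟨r, rfl⟩ := Nat.exists_eq_add_of_le a
    obtain ⟨t, rfl⟩ := Nat.exists_eq_add_of_le b
    rcases hq with rfl | rfl
    · simp only [Nat.add_sub_cancel_left, add_assoc i0] at *
      rw [← add_assoc i0]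
      exact h2 r (by omega) t (by omega)
    · simp only [Nat.add_sub_cancel_left, add_assoc j0]
      rw [← add_assoc j0]
      exact h1 r t
  refine ⟨fun p => Q (p.1 - i0) (p.2 - j0), fun p q a b1 b2 b3 b4 c1 c2 c3 c4 => ?_⟩
  by_cases c : q = (p.1 + 1, p.2) ∨ q = (p.1, p.2 + 1)
  · exact key p q c b1 b3 c2 c4
  · rw [hw, add_comm]
    refine key q p ?_ c1 c3 b2 b4
    simp only [gridN, Prod.ext_iff] at a c ⊢
    omega

namespace FM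

variable {Φ : Type}

/-- the map is the grid with `g` rows and columns -/
structure GM (Γ : FM Φ) (κ : Φ → ℕ × ℕ) (g : ℕ) : Prop where
  ok : Γ.Ok
  lbl : Γ.Lbl κ
  two : 2 ≤ g
  bd : ∀ f ∈ Γ.S, (κ f).1 < g ∧ (κ f).2 < g
  adj : ∀ f ∈ Γ.S, gridN.Adj (κ f) (κ (Γ.a f))
  simple : ∀ f ∈ Γ.S, ∀ f' ∈ Γ.S, κ f = κ f' → κ (Γ.a f) = κ (Γ.a f') → f' = f ∨ f' = Γ.c f
  full : ∀ p q : ℕ × ℕ, p.1 < g → p.2 < g → q.1 < g → q.2 < g → gridN.Adj p q →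
    ∃ f ∈ Γ.S, κ f = p ∧ κ (Γ.a f) = q

/-- the face has four edges -/
def Sq (Γ : FM Φ) (f : Φ) : Prop :=
  ∀ x ∈ Γ.fo f, Γ.b (Γ.a (Γ.b (Γ.a (Γ.b (Γ.a (Γ.b (Γ.a x))))))) = x

/-- the face lies in a unit square -/
def Box (Γ : FM Φ) (κ : Φ → ℕ × ℕ) (f : Φ) (r c : ℕ) : Prop :=
  ∀ x ∈ Γ.fo f, r ≤ (κ x).1 ∧ (κ x).1 ≤ r + 1 ∧ c ≤ (κ x).2 ∧ (κ x).2 ≤ c + 1

variable {Γ : FM Φ} {κ : Φ → ℕ × ℕ} {g : ℕ} {f : Φ}

/-- a vertex whose corners at an edge lead to one edge has these edges only -/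
theorem two_edges (h : Γ.Ok) (hf : f ∈ Γ.S)
    (k : Γ.b f = Γ.c f ∨ Γ.b (Γ.c f) = Γ.c (Γ.b f)) {x : Φ} (hx : x ∈ Γ.vo f) :
    x = f ∨ x = Γ.c f ∨ x = Γ.b f ∨ x = Γ.c (Γ.b f) := by
  have := h.bb hf
  have := h.cc hf
  have := h.bb (h.c_mem hf)
  have := h.cc (h.b_mem hf)
  refine orb_ind (P := fun x => x = f ∨ x = Γ.c f ∨ x = Γ.b f ∨ x = Γ.c (Γ.b f)) hx (Or.inl rfl)
    (fun z hz => ?_) fun z hz => ?_ <;> grind

namespace GM

theorem kb (h : Γ.GM κ g) (hf : f ∈ Γ.S) : κ (Γ.b f) = κ f := h.lbl.b h.ok hf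

theorem nback (h : Γ.GM κ g) (hf : f ∈ Γ.S) : κ (Γ.a (Γ.b f)) ≠ κ (Γ.a f) := by
  intro e
  have k := (h.simple f hf _ (h.ok.b_mem hf) (h.kb hf).symm e.symm).resolve_left (h.ok.b_ne hf)
  have a := h.adj f hf
  have b := h.bd f hf
  have t := h.two
  obtain ⟨q, q1, q2, q3, q4⟩ : ∃ q : ℕ × ℕ, q.1 < g ∧ q.2 < g ∧ gridN.Adj (κ f) q ∧
      q ≠ κ (Γ.a f) := by
    by_cases c : (κ f).1 = (κ (Γ.a f)).1
    · refine ⟨(if (κ f).1 = 0 then 1 else (κ f).1 - 1, (κ f).2), ?_⟩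
      simp only [gridN, ne_eq, Prod.ext_iff, true_and]
      split_ifs <;> omega
    · refine ⟨((κ f).1, if (κ f).2 = 0 then 1 else (κ f).2 - 1), ?_⟩
      simp only [gridN, ne_eq, Prod.ext_iff, true_and]
      split_ifs <;> omega
  obtain ⟨x, hx, x1, x2⟩ := h.full _ q b.1 b.2 q1 q2 q3
  have c1 := h.lbl.ac h.ok hf
  have c2 := h.ok.cc hf
  rcases two_edges h.ok hf (Or.inl k) ((h.lbl f hf x hx).1 x1.symm) with l | l | l | l <;> grind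

theorem nine {a : Φ → Φ} {x0 x1 x2 x3 x4 : Φ}
    (m0 : κ x1 = κ (a x0) ∧ κ (a x1) ≠ κ x0 ∧ x1 ≠ a x0 ∧ a (a x0) = x0 ∧
      ((κ x0).1 + (κ x0).2 + 1) % 2 = ((κ (a x0)).1 + (κ (a x0)).2) % 2)
    (m1 : κ x2 = κ (a x1) ∧ κ (a x2) ≠ κ x1 ∧ x2 ≠ a x1 ∧ a (a x1) = x1 ∧
      ((κ x1).1 + (κ x1).2 + 1) % 2 = ((κ (a x1)).1 + (κ (a x1)).2) % 2)
    (m2 : κ x3 = κ (a x2) ∧ κ (a x3) ≠ κ x2 ∧ x3 ≠ a x2 ∧ a (a x2) = x2 ∧
      ((κ x2).1 + (κ x2).2 + 1) % 2 = ((κ (a x2)).1 + (κ (a x2)).2) % 2)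
    (m3 : κ x4 = κ (a x3) ∧ κ (a x4) ≠ κ x3 ∧ x4 ≠ a x3 ∧ a (a x3) = x3 ∧
      ((κ x3).1 + (κ x3).2 + 1) % 2 = ((κ (a x3)).1 + (κ (a x3)).2) % 2) :
    [x0, x1, x2, x3, a x0, a x1, a x2, a x3].Nodup ∧
      (x4 ≠ x0 → x4 ∉ [x0, x1, x2, x3, a x0, a x1, a x2, a x3]) := by
  obtain ⟨a0, b0, c0, d0, e0⟩ := m0
  obtain ⟨a1, b1, c1, d1, e1⟩ := m1
  obtain ⟨a2, b2, c2, d2, e2⟩ := m2
  obtain ⟨a3, b3, -, d3, e3⟩ := id m3
  rw [← a0] at e0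
  rw [← a1] at e1 b0
  rw [← a2] at e2 b1
  rw [← a3] at e3 b2
  have n01 : κ x0 ≠ κ x1 := fun e => by rw [e] at e0; omega
  have n12 : κ x1 ≠ κ x2 := fun e => by rw [e] at e1; omega
  have n23 : κ x2 ≠ κ x3 := fun e => by rw [e] at e2; omega
  have n34 : κ x3 ≠ κ x4 := fun e => by rw [e] at e3; omega
  have n03 : κ x0 ≠ κ x3 := fun e => by rw [e] at e0; omega
  have n14 : κ x1 ≠ κ x4 := fun e => by rw [e] at e1; omega
  have c3 := m3.2.2.1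
  clear e0 e1 e2 e3 m3 b3
  simp only [List.nodup_cons, List.mem_cons, List.not_mem_nil, List.nodup_nil, not_or, imp_and]
  and_intros <;> grind

theorem bad_le (h : Γ.GM κ g) {k : ℕ} (hk : Γ.eg ≤ k) :
    {f | f ∈ Γ.S ∧ ¬ Γ.Sq f}.ncard ≤ 72 * (g + k) := by
  classical
  have hM := h.ok
  obtain ⟨n, rfl⟩ : ∃ n, g = n + 1 := ⟨g - 1, by have := h.two; omega⟩
  obtain ⟨f0, h0, -⟩ := h.full (0, 0) (0, 1) (by simp) (by simp) (by simp) h.two (by simp [gridN])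
  have c1 : 0 < (Γ.co '' Γ.S).ncard := (ncard_pos (hM.fin.image _)).2 ⟨_, f0, h0, rfl⟩
  have v1 : (Γ.vo '' Γ.S).ncard ≤ (n + 1) * (n + 1) := by
    refine (ncard_image_le_of hM.fin (φ := κ) fun x hx y hy e =>
      (hM.vo_eq hx ((h.lbl x hx y hy).1 e)).symm).trans ?_
    rw [← Finset.card_range (n + 1), ← Finset.card_product, ← ncard_coe_finset]
    refine ncard_le_ncard ?_ (Finset.finite_toSet _)
    rintro _ ⟨x, hx, rfl⟩
    simpa using h.bd x hx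
  have e1 : n * (n + 1) + n * (n + 1) ≤ (Γ.eo '' Γ.S).ncard := by
    refine le_trans ?_ (ncard_image_le_of hM.fin (ψ := fun x => κ x + κ (Γ.a x))
      fun x hx y hy e => ?_)
    · let D := Finset.range n ×ˢ Finset.range (n + 1)
      have : n * (n + 1) = D.card := by simp [D]
      have i1 : Injective fun p : ℕ × ℕ => (2 * p.1 + 1, 2 * p.2) := fun p q e => by
        simp only [Prod.ext_iff] at e ⊢; omega
      have i2 : Injective fun p : ℕ × ℕ => (2 * p.2, 2 * p.1 + 1) := fun p q e => by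
        simp only [Prod.ext_iff] at e ⊢; omega
      conv_lhs => rw [this, ← Finset.card_image_of_injective D i1]; rhs
                  rw [Finset.card_image_of_injective D i1, ← Finset.card_image_of_injective D i2]
      rw [← Finset.card_union_of_disjoint (by
        simp only [Finset.disjoint_left, Finset.mem_image, Prod.ext_iff]
        rintro a ⟨p, -, e⟩ ⟨q, -, e'⟩
        omega), ← ncard_coe_finset]
      refine ncard_le_ncard (fun z hz => ?_) (hM.fin.image _)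
      simp only [D, Finset.coe_union, Finset.coe_image, mem_union, mem_image, Finset.mem_coe,
        Finset.mem_product, Finset.mem_range] at hz
      rcases hz with ⟨p, hp, rfl⟩ | ⟨p, hp, rfl⟩
      · obtain ⟨x, hx, x1, x2⟩ := h.full p (p.1 + 1, p.2) (by omega) hp.2 (by simp [hp.1]) hp.2
          (by simp [gridN])
        exact ⟨x, hx, by simp only [x1, x2, Prod.ext_iff, Prod.fst_add, Prod.snd_add]; omega⟩
      · obtain ⟨x, hx, x1, x2⟩ := h.full (p.2, p.1) (p.2, p.1 + 1) hp.2 (by simp; omega) hp.2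
          (by simp [hp.1]) (by simp [gridN])
        exact ⟨x, hx, by simp only [x1, x2, Prod.ext_iff, Prod.fst_add, Prod.snd_add]; omega⟩
    · have c1 := h.lbl.ac hM hx
      have c2 := h.lbl.c hM hx
      have c3 := hM.aa hx
      have c4 := hM.aa (hM.c_mem hx)
      rcases (mem_eo hM hx).1 (e ▸ orb_self _ _ y : y ∈ Γ.eo x) with l | l | l | l <;>
        simp only [l, c1, c2, c3, c4, add_comm]
  set A := {f | f ∈ Γ.S ∧ Γ.Sq f}
  set B := {f | f ∈ Γ.S ∧ ¬ Γ.Sq f}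
  have cl : ∀ f ∈ Γ.S, ∀ x ∈ Γ.fo f, x ∈ Γ.S ∧ (Γ.Sq x ↔ Γ.Sq f) := fun f hf x hx =>
    ⟨hM.fo_mem hf hx, by rw [Sq, hM.fo_eq hf hx]; rfl⟩
  have L : ∀ x ∈ Γ.S, let t := fun y => Γ.b (Γ.a y)
      [x, t x, t (t x), t (t (t x)), Γ.a x, Γ.a (t x), Γ.a (t (t x)), Γ.a (t (t (t x)))].Nodup ∧
      (t (t (t (t x))) ≠ x → t (t (t (t x))) ∉
        [x, t x, t (t x), t (t (t x)), Γ.a x, Γ.a (t x), Γ.a (t (t x)), Γ.a (t (t (t x)))]) ∧
      ∀ y ∈ t (t (t (t x))) ::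
        [x, t x, t (t x), t (t (t x)), Γ.a x, Γ.a (t x), Γ.a (t (t x)), Γ.a (t (t (t x)))],
        y ∈ Γ.fo x := by
    intro x hx t
    have m : ∀ y ∈ Γ.S, t y ∈ Γ.S ∧ κ (t y) = κ (Γ.a y) ∧ κ (Γ.a (t y)) ≠ κ y ∧
        t y ≠ Γ.a y ∧ Γ.a (Γ.a y) = y ∧ ((κ y).1 + (κ y).2 + 1) % 2 =
          ((κ (Γ.a y)).1 + (κ (Γ.a y)).2) % 2 := fun y hy =>
      ⟨hM.b_mem (hM.a_mem hy), h.kb (hM.a_mem hy), by
        simpa only [hM.aa hy] using h.nback (hM.a_mem hy), hM.b_ne (hM.a_mem hy), hM.aa hy, by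
        have := h.adj y hy
        simp only [gridN] at this
        omega⟩
    have o : ∀ y ∈ Γ.fo x, Γ.a y ∈ Γ.fo x ∧ t y ∈ Γ.fo x := fun y k => ⟨orb_p k, orb_q (orb_p k)⟩
    have o0 : x ∈ Γ.fo x := orb_self _ _ _
    have m0 := m x hx
    have m1 := m _ m0.1
    have m2 := m _ m1.1
    have m3 := m _ m2.1
    have o1 := o x o0
    have o2 := o _ o1.2
    have o3 := o _ o2.2
    have o4 := o _ o3.2
    refine ⟨(nine m0.2 m1.2 m2.2 m3.2).1, (nine m0.2 m1.2 m2.2 m3.2).2, ?_⟩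
    simp only [List.forall_mem_cons]
    exact ⟨o4.2, o0, o1.2, o2.2, o3.2, o1.1, o2.1, o3.1, o4.1, by simp⟩
  have kA := mul_orb_le (A := A) (k := 8) hM.fin hM.ia0 hM.ib0 (fun _ k => k.1) fun f k =>
    ⟨_, (L f k.1).1, rfl, fun y hy => by
      have o := (L f k.1).2.2 y (List.mem_cons_of_mem _ hy)
      exact ⟨⟨(cl f k.1 y o).1, (cl f k.1 y o).2.2 k.2⟩, o⟩⟩
  have kB := mul_orb_le (A := B) (k := 9) hM.fin hM.ia0 hM.ib0 (fun _ k => k.1) fun f k => by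
    obtain ⟨x, hx, n⟩ : ∃ x ∈ Γ.fo f, _ ≠ x := by simpa only [Sq, not_forall, exists_prop] using k.2
    have xS := hM.fo_mem k.1 hx
    refine ⟨_, List.nodup_cons.2 ⟨(L x xS).2.1 n, (L x xS).1⟩, rfl, fun y hy => ?_⟩
    have o : y ∈ Γ.fo f := orb_trans hx ((L x xS).2.2 y hy)
    exact ⟨⟨(cl f k.1 y o).1, fun l => k.2 ((cl f k.1 y o).2.1 l)⟩, o⟩
  have e : Γ.S = A ∪ B := by ext f; simp only [A, B, mem_union, mem_ofPred_eq]; tauto
  have e2 : Γ.S.ncard = A.ncard + B.ncard := by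
    rw [e, ncard_union_eq (disjoint_left.2 fun f k k' => k'.2 k.2) (hM.fin.subset fun _ k => k.1)
      (hM.fin.subset fun _ k => k.1)]
  have e3 : (Γ.fo '' Γ.S).ncard ≤ (orb Γ.a Γ.b '' A).ncard + (orb Γ.a Γ.b '' B).ncard := by
    rw [e, image_union]
    exact ncard_union_le _ _
  have e4 := ncard_le_edges hM
  have e5 : (n + 1) * (n + 1) = n * (n + 1) + (n + 1) := by ring
  rw [eg] at hk
  omega

/-- the flags of a face with four edges -/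
theorem sq_face (h : Γ.Ok) (hf : f ∈ Γ.S) (hs : Γ.Sq f) {x : Φ} (hx : x ∈ Γ.fo f) :
    let t := fun y => Γ.b (Γ.a y)
    x ∈ [f, t f, t (t f), t (t (t f)), Γ.a f, Γ.a (t f), Γ.a (t (t f)), Γ.a (t (t (t f)))] := by
  intro t
  have m : ∀ y ∈ Γ.S, t y ∈ Γ.S ∧ Γ.a (Γ.a y) = y ∧ Γ.b (t y) = Γ.a y ∧ Γ.b (Γ.a y) = t y :=
    fun y hy => ⟨h.b_mem (h.a_mem hy), h.aa hy, h.bb (h.a_mem hy), rfl⟩
  have m0 := m f hf
  have m1 := m _ m0.1
  have m2 := m _ m1.1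
  have m3 := m _ m2.1
  have e : t (t (t (t f))) = f := hs f (orb_self _ _ _)
  simp only [List.mem_cons, List.not_mem_nil]
  refine orb_ind (P := fun x => x = f ∨ x = t f ∨ x = t (t f) ∨ x = t (t (t f)) ∨ x = Γ.a f ∨
    x = Γ.a (t f) ∨ x = Γ.a (t (t f)) ∨ x = Γ.a (t (t (t f))) ∨ False) hx (Or.inl rfl)
    (fun z hz => ?_) fun z hz => ?_ <;> grind

/-- the corners of a face with four edges -/
theorem sq_cells (h : Γ.GM κ g) (hf : f ∈ Γ.S) (hs : Γ.Sq f) :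
    let t := fun y => Γ.b (Γ.a y)
    κ (t f) = κ (Γ.a f) ∧ κ (t (t f)) = κ (Γ.a (t f)) ∧ κ (t (t (t f))) = κ (Γ.a (t (t f))) ∧
      κ (Γ.a (t (t (t f)))) = κ f ∧ Γ.a (Γ.b f) = t (t (t f)) ∧ t (t (t (t f))) = f ∧
      gridN.Adj (κ f) (κ (t f)) ∧ gridN.Adj (κ (t f)) (κ (t (t f))) ∧
      gridN.Adj (κ (t (t f))) (κ (t (t (t f)))) ∧ gridN.Adj (κ (t (t (t f)))) (κ f) ∧
      κ (t (t f)) ≠ κ f ∧ κ (t (t (t f))) ≠ κ (t f) := by
  intro t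
  have hM := h.ok
  have m : ∀ y ∈ Γ.S, t y ∈ Γ.S ∧ κ (t y) = κ (Γ.a y) ∧ κ (Γ.a (t y)) ≠ κ y ∧
      gridN.Adj (κ y) (κ (Γ.a y)) ∧ Γ.a (Γ.b (t y)) = y := fun y hy =>
    ⟨hM.b_mem (hM.a_mem hy), h.kb (hM.a_mem hy), by
      simpa only [hM.aa hy] using h.nback (hM.a_mem hy), h.adj y hy, by
      rw [hM.bb (hM.a_mem hy), hM.aa hy]⟩
  have m0 := m f hf
  have m1 := m _ m0.1
  have m2 := m _ m1.1
  have m3 := m _ m2.1
  have e : t (t (t (t f))) = f := hs f (orb_self _ _ _)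
  grind

theorem box (h : Γ.GM κ g) (hf : f ∈ Γ.S) (hs : Γ.Sq f) : ∃ r c, r + 1 < g ∧ c + 1 < g ∧
    Γ.Box κ f r c ∧ ∀ r' c', Γ.Box κ f r' c' → r' = r ∧ c' = c := by
  obtain ⟨a1, a2, a3, a4, -, -, b1, b2, b3, b4, b5, b6⟩ := h.sq_cells hf hs
  have o0 : f ∈ Γ.fo f := orb_self _ _ _
  have o2 : Γ.b (Γ.a (Γ.b (Γ.a f))) ∈ Γ.fo f := orb_q (orb_p (orb_q (orb_p o0)))
  have d0 := h.bd f hf
  have d2 := h.bd _ (h.ok.fo_mem hf o2)
  simp only [gridN, ne_eq, Prod.ext_iff] at b1 b2 b3 b4 b5 b6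
  refine ⟨min (κ f).1 (κ (Γ.b (Γ.a (Γ.b (Γ.a f))))).1, min (κ f).2 (κ (Γ.b (Γ.a (Γ.b (Γ.a f))))).2,
    by omega, by omega, fun x hx => ?_, fun r c k => ?_⟩
  · have := sq_face h.ok hf hs hx
    simp only [List.mem_cons, List.not_mem_nil, or_false] at this
    rcases this with l | l | l | l | l | l | l | l <;> rw [l] <;>
      (try simp only [← a1, ← a2, ← a3, a4]) <;> omega
  · have := k f o0
    have := k _ o2
    omega

/-- every unit square at a vertex with square faces is a face -/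
theorem corner (h : Γ.GM κ g) {r c : ℕ} (hr : r + 1 < g) (hc : c + 1 < g)
    (hs : ∀ f ∈ Γ.S, κ f = (r, c) → Γ.Sq f) :
    ∃ f ∈ Γ.S, κ f = (r, c) ∧ κ (Γ.a f) = (r + 1, c) ∧ κ (Γ.a (Γ.b f)) = (r, c + 1) := by
  have hM := h.ok
  obtain ⟨e, he, e1, e2⟩ := h.full (r, c) (r + 1, c) (by omega) (by omega) hr (by omega)
    (by simp [gridN])
  obtain ⟨x, hx, x1, x2⟩ := h.full (r, c) (r, c + 1) (by omega) (by omega) (by omega) hc
    (by simp [gridN])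
  have key : ∀ f ∈ Γ.S, κ f = (r, c) → κ (Γ.a f) = (r + 1, c) →
      κ (Γ.a (Γ.b f)) ≠ (r, c + 1) → κ (Γ.a (Γ.b f)) = (r, c - 1) := by
    intro f hf f1 f2 f3
    obtain ⟨a1, -, -, -, a5, -, b1, b2, b3, b4, b5, b6⟩ := h.sq_cells hf (hs f hf f1)
    rw [a5] at f3 ⊢
    simp only [gridN, ne_eq, Prod.ext_iff, a1, f1, f2] at b1 b2 b3 b4 b5 b6 f3 ⊢
    omega
  by_contra n
  push Not at n
  have c1 := h.lbl.c hM he
  have c2 := h.lbl.ac hM he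
  have k1 := key e he e1 e2 (n e he e1 e2)
  have k2 := key _ (hM.c_mem he) (c1.trans e1) (c2.trans e2)
    (n _ (hM.c_mem he) (c1.trans e1) (c2.trans e2))
  have k3 := h.simple _ (hM.b_mem he) _ (hM.b_mem (hM.c_mem he))
    (by rw [h.kb he, h.kb (hM.c_mem he), c1]) (k1.trans k2.symm)
  have k4 : Γ.b (Γ.c e) ≠ Γ.b e := fun l => hM.c_ne he (by
    rw [← hM.bb (hM.c_mem he), l, hM.bb he])
  have c3 := h.lbl.ac hM (hM.b_mem he)
  rcases two_edges hM he (Or.inr (k3.resolve_left k4)) ((h.lbl e he x hx).1 (e1.trans x1.symm))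
    with l | l | l | l <;> rw [l] at x2 <;> simp only [c2, c3, e2, k1, Prod.ext_iff] at x2 <;> omega

end GM

end FM

end Pool.Agent.MP_9d78a0_co.gm
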